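import Mathlib

/-!
# Chamberland's spectral radius injectivity conjecture fails in every dimension `n ≥ 3`

The map of `ℝ³`
`f (x, y, w) = ((1 + r) cos x, (1 + r) sin x, arsinh (y e^w))`, `r = √(y² + e^{-2w})`,
is real analytic and `2π`-periodic in `x`, and no eigenvalue of any of its Jacobian matrices lies in
the open unit disc.  (Characteristic polynomial: with `s = sin x`, `h = y/r`, `ρ = 1 + r`, a number
`z` is an eigenvalue iff `ρ q(z) + z q*(z) = 0`, `q(z) = 1 - h(1+s) z + s z²`,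
`q*(z) = z² - h(1+s) z + s`.)
In `ℝⁿ`, `n ≥ 3`, the remaining coordinates are left alone.
-/

set_option autoImplicit false

namespace Pool.Agent.ChamberlandR3

open Real

noncomputable section

variable {k : ℕ}

/-- `r = √(y² + e^{-2w})` -/
def rad (v : Fin (k + 3) → ℝ) : ℝ := √((v 1) ^ 2 + exp (-(2 * v 2)))

/-- The counterexample in dimension `k + 3`. -/
def F (v : Fin (k + 3) → ℝ) : Fin (k + 3) → ℝ := fun i =>
  if i = 0 then (1 + rad v) * cos (v 0)
  else if i = 1 then (1 + rad v) * sin (v 0)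
  else if i = 2 then arsinh (v 1 * exp (v 2))
  else v i

theorem fin10 : (1 : Fin (k + 3)) ≠ 0 := by simp

theorem fin20 : (2 : Fin (k + 3)) ≠ 0 := by
  intro h
  have := congrArg Fin.val h
  have e : 2 % (k + 3) = 2 := Nat.mod_eq_of_lt (by omega)
  simp [e] at this

theorem fin21 : (2 : Fin (k + 3)) ≠ 1 := by
  intro h
  have := congrArg Fin.val h
  have e : 2 % (k + 3) = 2 := Nat.mod_eq_of_lt (by omega)
  simp [e] at this

theorem rad_arg_pos (v : Fin (k + 3) → ℝ) : 0 < (v 1) ^ 2 + exp (-(2 * v 2)) := by positivity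

theorem rad_pos (v : Fin (k + 3) → ℝ) : 0 < rad v := sqrt_pos.2 (rad_arg_pos v)

theorem rad_sq (v : Fin (k + 3) → ℝ) : rad v ^ 2 = (v 1) ^ 2 + exp (-(2 * v 2)) :=
  sq_sqrt (rad_arg_pos v).le

theorem contDiff_rad (m : WithTop ℕ∞) : ContDiff ℝ m (rad : (Fin (k + 3) → ℝ) → ℝ) := by
  unfold rad
  apply ContDiff.sqrt
  · fun_prop
  · intro v; exact (rad_arg_pos v).ne'

theorem contDiff_F (m : WithTop ℕ∞) : ContDiff ℝ m (F : (Fin (k + 3) → ℝ) → _) := by
  rw [contDiff_pi]
  intro i
  have hr := contDiff_rad (k := k) m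
  unfold F
  by_cases h0 : i = 0
  · simp only [h0, if_true]; fun_prop
  by_cases h1 : i = 1
  · simp only [h1, if_true]
    split_ifs <;> fun_prop
  by_cases h2 : i = 2
  · simp only [h2, if_true]
    split_ifs <;> fun_prop
  · simp only [h0, h1, h2, if_false]; fun_prop

/-- the covector `a dv₀ + b dv₁ + c dv₂` -/
def cov (a b c : ℝ) : (Fin (k + 3) → ℝ) →L[ℝ] ℝ :=
  a • ContinuousLinearMap.proj 0 + b • ContinuousLinearMap.proj 1 + c • ContinuousLinearMap.proj 2

@[simp] theorem cov_apply (a b c : ℝ) (w : Fin (k + 3) → ℝ) :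
    cov a b c w = a * w 0 + b * w 1 + c * w 2 := by
  simp [cov]

theorem d_v (j : Fin (k + 3)) (v : Fin (k + 3) → ℝ) :
    HasFDerivAt (fun v : Fin (k + 3) → ℝ => v j)
      (ContinuousLinearMap.proj (R := ℝ) (φ := fun _ => ℝ) j) v :=
  hasFDerivAt_apply j v

theorem d_rad (v : Fin (k + 3) → ℝ) :
    HasFDerivAt (rad : (Fin (k + 3) → ℝ) → ℝ)
      (cov 0 (v 1 / rad v) (-exp (-(2 * v 2)) / rad v)) v := by
  have h := (((d_v 1 v).pow 2).add ((d_v 2 v).const_mul 2).neg.exp).sqrt (rad_arg_pos v).ne'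
  refine h.congr_fderiv ?_
  have hr : √((v 1) ^ 2 + exp (-(2 * v 2))) = rad v := rfl
  have hr0 := (rad_pos v).ne'
  ext w
  simp [hr]
  field_simp

theorem d_C (v : Fin (k + 3) → ℝ) :
    HasFDerivAt (fun v : Fin (k + 3) → ℝ => arsinh (v 1 * exp (v 2)))
      (cov 0 (1 / rad v) (v 1 / rad v)) v := by
  have h := ((d_v 1 v).mul (d_v 2 v).exp).arsinh
  refine h.congr_fderiv ?_
  have hr0 := (rad_pos v).ne'
  have hs : √(1 + (v 1 * exp (v 2)) ^ 2) = rad v * exp (v 2) := by
    rw [sqrt_eq_iff_mul_self_eq_of_pos (by have := rad_pos v; positivity)]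
    have h1 : rad v * exp (v 2) * (rad v * exp (v 2)) = rad v ^ 2 * (exp (v 2) * exp (v 2)) := by
      ring
    have h2 : exp (-(2 * v 2)) * (exp (v 2) * exp (v 2)) = 1 := by
      rw [← exp_add, ← exp_add, exp_eq_one_iff]; ring
    rw [h1, rad_sq]
    linear_combination h2
  ext w
  simp [hs]
  field_simp
  ring

/-- the derivative of `F` -/
def DF (v : Fin (k + 3) → ℝ) (i : Fin (k + 3)) : (Fin (k + 3) → ℝ) →L[ℝ] ℝ :=
  if i = 0 then cov (-(1 + rad v) * sin (v 0)) (v 1 / rad v * cos (v 0))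
      (-exp (-(2 * v 2)) / rad v * cos (v 0))
  else if i = 1 then cov ((1 + rad v) * cos (v 0)) (v 1 / rad v * sin (v 0))
      (-exp (-(2 * v 2)) / rad v * sin (v 0))
  else if i = 2 then cov 0 (1 / rad v) (v 1 / rad v)
  else ContinuousLinearMap.proj i

theorem hasFDerivAt_F (v : Fin (k + 3) → ℝ) :
    HasFDerivAt (F : (Fin (k + 3) → ℝ) → _) (ContinuousLinearMap.pi (DF v)) v := by
  rw [hasFDerivAt_pi']
  intro i
  rw [ContinuousLinearMap.proj_pi]
  by_cases h0 : i = 0
  · subst h0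
    have h := ((d_rad v).const_add 1).mul (d_v 0 v).cos
    have e : DF v 0 = cov (-(1 + rad v) * sin (v 0)) (v 1 / rad v * cos (v 0))
      (-exp (-(2 * v 2)) / rad v * cos (v 0)) := by simp [DF]
    rw [e]
    refine (h.congr_fderiv ?_).congr_of_eventuallyEq (Filter.Eventually.of_forall fun w => by simp [F])
    ext w
    simp
    ring
  by_cases h1 : i = 1
  · subst h1
    have h := ((d_rad v).const_add 1).mul (d_v 0 v).sin
    have e : DF v 1 = cov ((1 + rad v) * cos (v 0)) (v 1 / rad v * sin (v 0))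
      (-exp (-(2 * v 2)) / rad v * sin (v 0)) := by simp [DF]
    rw [e]
    refine (h.congr_fderiv ?_).congr_of_eventuallyEq (Filter.Eventually.of_forall fun w => by simp [F])
    ext w
    simp
    ring
  by_cases h2 : i = 2
  · subst h2
    have e : DF v 2 = cov 0 (1 / rad v) (v 1 / rad v) := by simp [DF, h0, h1]
    rw [e]
    refine (d_C v).congr_of_eventuallyEq (Filter.Eventually.of_forall fun w => by simp [F, h0, h1])
  · have e : DF v i = ContinuousLinearMap.proj i := by simp [DF, h0, h1, h2]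
    rw [e]
    refine (d_v i v).congr_of_eventuallyEq
      (Filter.Eventually.of_forall fun w => by simp [F, h0, h1, h2])

/-- A complex number killed by the characteristic polynomial of a real linear endomorphism has a
complex eigenvector; in coordinates, with real and imaginary parts separated. -/
theorem exists_eigvec {n : ℕ} (L : (Fin n → ℝ) →L[ℝ] (Fin n → ℝ)) (z : ℂ)
    (hz : Polynomial.aeval z
          (LinearMap.toMatrix' ((L : (Fin n → ℝ) →L[ℝ] (Fin n → ℝ)) :
            (Fin n → ℝ) →ₗ[ℝ] (Fin n → ℝ))).charpoly = 0) :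
    ∃ V : Fin n → ℂ, V ≠ 0 ∧ ∀ i, z * V i =
      ((L (fun j => (V j).re) i : ℝ) : ℂ) + ((L (fun j => (V j).im) i : ℝ) : ℂ) * Complex.I := by
  set M := LinearMap.toMatrix' ((L : (Fin n → ℝ) →L[ℝ] (Fin n → ℝ)) :
            (Fin n → ℝ) →ₗ[ℝ] (Fin n → ℝ)) with hM
  have h1 : ((M.map (algebraMap ℝ ℂ)).charpoly).eval z = 0 := by
    rw [Matrix.charpoly_map, Polynomial.eval_map, ← Polynomial.aeval_def]
    exact hz
  rw [Matrix.eval_charpoly] at h1
  obtain ⟨V, hV, hV0⟩ := Matrix.exists_mulVec_eq_zero_iff.2 h1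
  refine ⟨V, hV, fun i => ?_⟩
  have h2 := congrFun hV0 i
  rw [Matrix.sub_mulVec] at h2
  simp only [Pi.sub_apply, Pi.zero_apply, Matrix.scalar_apply, Matrix.mulVec_diagonal] at h2
  have h3 : z * V i = ((M.map (algebraMap ℝ ℂ)).mulVec V) i := by
    linear_combination h2
  rw [h3]
  have h4 : ∀ a : Fin n → ℝ, L a i = ∑ j, M i j * a j := by
    intro a
    have : M.mulVec a = L a := by
      rw [hM, LinearMap.toMatrix'_mulVec]; rfl
    rw [← this]; rfl
  rw [h4, h4]
  push_cast
  rw [Matrix.mulVec, dotProduct, Finset.sum_mul, ← Finset.sum_add_distrib]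
  refine Finset.sum_congr rfl fun j _ => ?_
  simp only [Matrix.map_apply, Complex.coe_algebraMap]
  conv_lhs => rw [← Complex.re_add_im (V j)]
  ring

theorem cx_cov (p q r : ℝ) (V : Fin (k + 3) → ℂ) :
    ((cov p q r (fun j => (V j).re) : ℝ) : ℂ)
      + ((cov p q r (fun j => (V j).im) : ℝ) : ℂ) * Complex.I
      = p * V 0 + q * V 1 + r * V 2 := by
  simp only [cov_apply]
  push_cast
  linear_combination (p : ℂ) * Complex.re_add_im (V 0) + (q : ℂ) * Complex.re_add_im (V 1)
    + (r : ℂ) * Complex.re_add_im (V 2)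

/-- Schur: `‖q*(z)‖ ≤ ‖q(z)‖` in the closed unit disc. -/
theorem schur {h s : ℝ} (hh : |h| ≤ 1) (hs : |s| ≤ 1) {z : ℂ} (hz : ‖z‖ ≤ 1) :
    ‖z ^ 2 - (h * (1 + s)) * z + s‖ ≤ ‖1 - (h * (1 + s)) * z + s * z ^ 2‖ := by
  have hz2 : z.re ^ 2 + z.im ^ 2 ≤ 1 := by
    have := Complex.sq_norm z
    rw [Complex.normSq_apply] at this
    nlinarith [norm_nonneg z]
  have h1 := abs_le.1 hh
  have s1 := abs_le.1 hs
  have key : ‖1 - (h * (1 + s)) * z + s * z ^ 2‖ ^ 2 - ‖z ^ 2 - (h * (1 + s)) * z + s‖ ^ 2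
      = (1 - (z.re ^ 2 + z.im ^ 2)) * ((1 - s) * (1 + s)) *
        (1 + (z.re ^ 2 + z.im ^ 2) - 2 * h * z.re) := by
    rw [Complex.sq_norm, Complex.sq_norm, Complex.normSq_apply, Complex.normSq_apply]
    simp only [Complex.add_re, Complex.add_im, Complex.sub_re, Complex.sub_im, Complex.mul_re,
      Complex.mul_im, Complex.one_re, Complex.one_im, Complex.ofReal_re, Complex.ofReal_im, pow_two]
    ring
  have pos : 0 ≤ 1 + (z.re ^ 2 + z.im ^ 2) - 2 * h * z.re := by
    nlinarith [sq_nonneg (h - z.re), sq_nonneg z.im]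
  have : 0 ≤ ‖1 - (h * (1 + s)) * z + s * z ^ 2‖ ^ 2 - ‖z ^ 2 - (h * (1 + s)) * z + s‖ ^ 2 := by
    rw [key]
    have a1 : 0 ≤ 1 - (z.re ^ 2 + z.im ^ 2) := by linarith
    have a2 : 0 ≤ (1 - s) * (1 + s) := mul_nonneg (by linarith) (by linarith)
    positivity
  exact le_of_sq_le_sq (by linarith) (norm_nonneg _)

/-- The linear algebra: for `‖z‖ < 1` the only solution of the eigenvector equations is `0`. -/
theorem core {y r e s c : ℝ} (hr : 0 < r) (he : 0 < e) (hre : r ^ 2 = y ^ 2 + e)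
    (hsc : s ^ 2 + c ^ 2 = 1) {z V0 V1 V2 : ℂ} (hz : ‖z‖ < 1)
    (e0 : z * V0 = -(1 + r) * s * V0 + y / r * c * V1 + -e / r * c * V2)
    (e1 : z * V1 = (1 + r) * c * V0 + y / r * s * V1 + -e / r * s * V2)
    (e2 : z * V2 = 0 * V0 + 1 / r * V1 + y / r * V2) : V0 = 0 ∧ V1 = 0 ∧ V2 = 0 := by
  have hrC : (r : ℂ) ≠ 0 := by exact_mod_cast hr.ne'
  have hreC : (r : ℂ) ^ 2 = y ^ 2 + e := by exact_mod_cast hre
  have hscC : (s : ℂ) ^ 2 + c ^ 2 = 1 := by exact_mod_cast hsc
  -- `h = y / r`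
  obtain ⟨h, hh⟩ : ∃ h : ℝ, y = h * r := ⟨y / r, by field_simp⟩
  have hyC : (y : ℂ) = h * r := by exact_mod_cast hh
  have he' : e = r ^ 2 * (1 - h ^ 2) := by rw [hh] at hre; linarith
  have heC : (e : ℂ) = r ^ 2 * (1 - h ^ 2) := by exact_mod_cast he'
  have hlt : h ^ 2 < 1 := by
    by_contra hcon
    push Not at hcon
    have : r ^ 2 * (1 - h ^ 2) ≤ 0 := by
      have := pow_pos hr 2
      nlinarith
    linarith
  have habs : |h| < 1 := (sq_lt_one_iff_abs_lt_one h).1 hlt
  have hsabs : |s| ≤ 1 := by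
    rw [← sq_le_one_iff_abs_le_one]; nlinarith [sq_nonneg c]
  rw [hyC, heC] at e0 e1
  rw [hyC] at e2
  set a : ℂ := h * V1 - r * (1 - h ^ 2) * V2 with ha
  set b : ℂ := (V1 + h * r * V2) / r with hb
  have hV1 : V1 = h * a + r * (1 - h ^ 2) * b := by
    rw [ha, hb]; field_simp; ring
  have hV2 : V2 = h * b - a / r := by
    rw [ha, hb]; field_simp; ring
  have f0 : (z + (1 + r) * s) * V0 = c * a := by
    have : (h * r : ℂ) / r = h := by field_simp
    rw [ha]
    have h2 : -((r : ℂ) ^ 2 * (1 - h ^ 2)) / r = - (r * (1 - h ^ 2)) := by field_simp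
    rw [this, h2] at e0
    linear_combination e0
  have f1 : z * (h * a + r * (1 - h ^ 2) * b) = (1 + r) * c * V0 + s * a := by
    rw [← hV1, ha]
    have : (h * r : ℂ) / r = h := by field_simp
    have h2 : -((r : ℂ) ^ 2 * (1 - h ^ 2)) / r = - (r * (1 - h ^ 2)) := by field_simp
    rw [this, h2] at e1
    linear_combination e1
  have f2 : z * (h * b - a / r) = b := by
    rw [← hV2, hb]
    have : (h * r : ℂ) / r = h := by field_simp
    rw [this] at e2
    rw [e2]; field_simp; ring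
  have f2' : r * (1 - z * h) * b = - z * a := by
    have : z * (h * b - a / r) * r = b * r := by rw [f2]
    field_simp at this
    linear_combination -this
  have g1 : a * (- (z ^ 2 - (h * (1 + s)) * z + s)) = (1 - z * h) * (1 + r) * c * V0 := by
    linear_combination (1 - z * h) * f1 - z * (1 - h ^ 2) * f2'
  have g2 : a * ((1 + r) * (1 - (h * (1 + s)) * z + s * z ^ 2)
      + z * (z ^ 2 - (h * (1 + s)) * z + s)) = 0 := by
    linear_combination -(z + (1 + r) * s) * g1 - (1 - z * h) * (1 + r) * c * f0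
      - a * (1 + r) * (1 - z * h) * hscC
  have hQ : (1 + r) * (1 - (h * (1 + s)) * z + s * z ^ 2)
      + z * (z ^ 2 - (h * (1 + s)) * z + s) ≠ (0 : ℂ) := by
    intro h0
    have sch := schur habs.le hsabs hz.le
    have n1 : (1 + r) * ‖1 - (h * (1 + s)) * z + s * z ^ 2‖
        = ‖z‖ * ‖z ^ 2 - (h * (1 + s)) * z + s‖ := by
      have : ((1 + r : ℝ) : ℂ) * (1 - (h * (1 + s)) * z + s * z ^ 2)
        = - (z * (z ^ 2 - (h * (1 + s)) * z + s)) := by push_cast; linear_combination h0
      have := congrArg norm this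
      rwa [norm_neg, norm_mul, norm_mul, Complex.norm_real, Real.norm_of_nonneg (by linarith)] at this
    have q0 : ‖1 - (h * (1 + s)) * z + s * z ^ 2‖ = 0 := by
      have := norm_nonneg (1 - (h * (1 + s)) * z + s * z ^ 2)
      have h3 : ‖z‖ * ‖z ^ 2 - (h * (1 + s)) * z + s‖
          ≤ ‖z‖ * ‖1 - (h * (1 + s)) * z + s * z ^ 2‖ := by gcongr
      nlinarith
    have qs0 : ‖z ^ 2 - (h * (1 + s)) * z + s‖ = 0 :=
      le_antisymm (by linarith) (norm_nonneg _)
    rw [norm_eq_zero] at q0 qs0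
    have hd : (1 - (s : ℂ)) * (1 - z ^ 2) = 0 := by linear_combination q0 - qs0
    rcases mul_eq_zero.1 hd with h4 | h4
    · -- `s = 1`
      have hs1 : (s : ℂ) = 1 := by linear_combination -h4
      rw [hs1] at q0
      have re := congrArg Complex.re q0
      have im := congrArg Complex.im q0
      simp only [Complex.add_re, Complex.add_im, Complex.sub_re, Complex.sub_im, Complex.mul_re,
        Complex.mul_im, Complex.one_re, Complex.one_im, Complex.ofReal_re, Complex.ofReal_im,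
        pow_two, Complex.zero_re, Complex.zero_im] at re im
      have hz2 : z.re ^ 2 + z.im ^ 2 < 1 := by
        have := Complex.sq_norm z
        rw [Complex.normSq_apply] at this
        nlinarith [norm_nonneg z]
      have im' : z.im * (z.re - h) = 0 := by nlinarith
      rcases mul_eq_zero.1 im' with h5 | h5
      · rw [h5] at re
        nlinarith [sq_nonneg (z.re - h)]
      · have h6 : z.re = h := by linarith
        rw [h6] at re hz2
        nlinarith
    · have : z ^ 2 = 1 := by linear_combination -h4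
      have h5 := congrArg norm this
      rw [norm_pow, norm_one] at h5
      nlinarith [norm_nonneg z]
  have a0 : a = 0 := (mul_eq_zero.1 g2).resolve_right hQ
  have hzh : (1 - z * h : ℂ) ≠ 0 := by
    intro h0
    have : z * h = 1 := by linear_combination -h0
    have h5 := congrArg norm this
    rw [norm_mul, norm_one, Complex.norm_real, Real.norm_eq_abs] at h5
    nlinarith [norm_nonneg z, abs_nonneg h]
  have b0 : b = 0 := by
    rw [a0, mul_zero] at f2'
    exact (mul_eq_zero.1 f2').resolve_left (mul_ne_zero hrC hzh)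
  have v1 : V1 = 0 := by rw [hV1, a0, b0]; ring
  have v2 : V2 = 0 := by rw [hV2, a0, b0]; simp
  refine ⟨?_, v1, v2⟩
  rw [a0, mul_zero] at f0
  rw [a0, b0] at f1
  have f1' : (c : ℂ) * V0 = 0 := by
    have h7 : ((1 + r : ℝ) : ℂ) * (c * V0) = 0 := by push_cast; linear_combination -f1
    refine (mul_eq_zero.1 h7).resolve_left ?_
    exact_mod_cast (by linarith : (1 + r : ℝ) ≠ 0)
  by_contra hV0
  have hc0 : (c : ℂ) = 0 := (mul_eq_zero.1 f1').resolve_right hV0
  have hz0 : z + (1 + r) * s = 0 := (mul_eq_zero.1 f0).resolve_right hV0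
  have hc0' : c = 0 := by exact_mod_cast hc0
  rw [hc0'] at hsc
  have hs1 : |s| = 1 := by
    have : |s| ^ 2 = 1 := by rw [sq_abs]; linarith
    exact (pow_eq_one_iff_of_nonneg (abs_nonneg s) two_ne_zero).1 this
  have hz1 : z = - (((1 + r : ℝ) : ℂ) * s) := by push_cast; linear_combination hz0
  have := congrArg norm hz1
  rw [norm_neg, norm_mul, Complex.norm_real, Complex.norm_real, Real.norm_eq_abs, Real.norm_eq_abs,
    hs1, abs_of_pos (by linarith)] at this
  linarith

/-- No eigenvalue of a Jacobian matrix of `F` lies in the open unit disc. -/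
theorem one_le_norm_of_eigenvalue (v : Fin (k + 3) → ℝ) (z : ℂ)
    (h0 : Polynomial.aeval z
          (LinearMap.toMatrix' ((fderiv ℝ F v : (Fin (k + 3) → ℝ) →L[ℝ] (Fin (k + 3) → ℝ)) :
            (Fin (k + 3) → ℝ) →ₗ[ℝ] (Fin (k + 3) → ℝ))).charpoly = 0) : 1 ≤ ‖z‖ := by
  by_contra hz
  push Not at hz
  obtain ⟨V, hV, hEq⟩ := exists_eigvec _ z h0
  rw [(hasFDerivAt_F v).fderiv] at hEq
  have n10 : (1 : Fin (k + 3)) ≠ 0 := fin10
  have n20 : (2 : Fin (k + 3)) ≠ 0 := fin20
  have n21 : (2 : Fin (k + 3)) ≠ 1 := fin21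
  have e0 := hEq 0
  have e1 := hEq 1
  have e2 := hEq 2
  simp only [ContinuousLinearMap.coe_pi', DF, if_true, n10, n20, n21, if_false] at e0 e1 e2
  rw [cx_cov] at e0 e1 e2
  push_cast at e0 e1 e2
  obtain ⟨g0, g1, g2⟩ := core (y := v 1) (r := rad v) (e := exp (-(2 * v 2))) (s := sin (v 0))
    (c := cos (v 0)) (rad_pos v) (exp_pos _) (rad_sq v) (sin_sq_add_cos_sq _)
    (z := z) (V0 := V 0) (V1 := V 1) (V2 := V 2) hz
    (by push_cast; linear_combination e0) (by push_cast; linear_combination e1)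
    (by linear_combination e2)
  apply hV
  funext i
  by_cases h0 : i = 0
  · rw [h0]; exact g0
  by_cases h1 : i = 1
  · rw [h1]; exact g1
  by_cases h2 : i = 2
  · rw [h2]; exact g2
  have ei := hEq i
  simp only [ContinuousLinearMap.coe_pi', DF, h0, h1, h2, if_false,
    ContinuousLinearMap.proj_apply, Complex.re_add_im] at ei
  have : (z - 1) * V i = 0 := by linear_combination ei
  refine (mul_eq_zero.1 this).resolve_left ?_
  intro h3
  have : z = 1 := by linear_combination h3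
  rw [this] at hz
  simp at hz

theorem det_ne_zero (v : Fin (k + 3) → ℝ) :
    (LinearMap.toMatrix' ((fderiv ℝ F v : (Fin (k + 3) → ℝ) →L[ℝ] (Fin (k + 3) → ℝ)) :
          (Fin (k + 3) → ℝ) →ₗ[ℝ] (Fin (k + 3) → ℝ))).det ≠ 0 := by
  intro h
  have := one_le_norm_of_eigenvalue v 0 (by
    rw [← Polynomial.coeff_zero_eq_aeval_zero']
    rw [Matrix.det_eq_sign_charpoly_coeff] at h
    have h1 := (mul_eq_zero.1 h).resolve_left (by simp)
    rw [h1]; simp)
  simp at this
  linarith

/-- `F` is `2π`-periodic in its first variable. -/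
theorem F_periodic (v : Fin (k + 3) → ℝ) : F (v + Pi.single 0 (2 * π)) = F v := by
  have n10 : (1 : Fin (k + 3)) ≠ 0 := fin10
  have n20 : (2 : Fin (k + 3)) ≠ 0 := fin20
  have n21 : (2 : Fin (k + 3)) ≠ 1 := fin21
  have hr : rad (v + Pi.single 0 (2 * π)) = rad v := by
    simp [rad, n10, n20]
  funext i
  by_cases h0 : i = 0
  · simp [F, h0, hr]
  by_cases h1 : i = 1
  · simp [F, h1, hr]
  by_cases h2 : i = 2
  · simp [F, h2, n10, n20, n21]
  · simp [F, h0, h1, h2]

theorem F_not_injective : ¬ Function.Injective (F : (Fin (k + 3) → ℝ) → _) := by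
  intro hinj
  have h := congrFun (hinj (F_periodic (k := k) 0)) 0
  simp at h

end

end Pool.Agent.ChamberlandR3
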