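import Mathlib

namespace Pool.Agent.H4Pink

open WeierstrassCurve

noncomputable section

/-- An algebraic closure of `ℚ`. -/
abbrev Kb : Type := AlgebraicClosure ℚ

/-- The elliptic curve `y² = x³ - 2`. -/
def W : WeierstrassCurve.Affine Kb := ⟨0, 0, 0, 0, -2⟩

/-- The group of points of the elliptic curve over the algebraic closure of `ℚ`. -/
abbrev E : Type := W.Point

instance : DecidableEq Kb := Classical.decEq _

lemma W_eq {x y : Kb} (h : W.Nonsingular x y) : y ^ 2 = x ^ 3 - 2 := by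
  have := (WeierstrassCurve.Affine.equation_iff ..).mp h.1
  simp only [W] at this
  linear_combination this

lemma W_ns {x y : Kb} (h : y ^ 2 = x ^ 3 - 2) : W.Nonsingular x y := by
  rw [WeierstrassCurve.Affine.nonsingular_iff, WeierstrassCurve.Affine.equation_iff]
  simp only [W]
  refine ⟨by linear_combination h, ?_⟩
  by_cases hy : y = 0
  · left
    have hx : x ≠ 0 := by
      rintro rfl
      rw [hy] at h
      norm_num at h
    have : (3 : Kb) * x ^ 2 ≠ 0 := mul_ne_zero (by norm_num) (pow_ne_zero 2 hx)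
    simp only [zero_mul, mul_zero, add_zero]
    exact fun h' => this h'.symm
  · right
    simp only [zero_mul, sub_zero]
    intro h'
    apply hy
    have : (2 : Kb) * y = 0 := by linear_combination h'
    rcases mul_eq_zero.mp this with h2 | h2
    · norm_num at h2
    · exact h2

/-- The point `(3, 5)` of the curve. -/
def P₀ : E := .some 3 5 (W_ns (by norm_num))

lemma dbl_step {x y : Kb} (h : W.Nonsingular x y) (hy : y ≠ 0) :
    ∃ y' h', (.some x y h : E) + .some x y h =
      .some ((x ^ 4 + 16 * x) / (4 * (x ^ 3 - 2))) y' h' := by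
  have hne : y ≠ W.negY x y := by
    simp only [WeierstrassCurve.Affine.negY, W]
    intro h'
    apply hy
    have : (2 : Kb) * y = 0 := by linear_combination h'
    rcases mul_eq_zero.mp this with h2 | h2
    · norm_num at h2
    · exact h2
  have hadd := WeierstrassCurve.Affine.Point.add_self_of_Y_ne (W := W) (h₁ := h) hne
  have hx : W.addX x x (W.slope x x y y) = (x ^ 4 + 16 * x) / (4 * (x ^ 3 - 2)) := by
    rw [WeierstrassCurve.Affine.slope_of_Y_ne rfl hne]
    simp only [WeierstrassCurve.Affine.negY, WeierstrassCurve.Affine.addX, W]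
    have e := W_eq h
    rw [← e]
    have h2 : (2 : Kb) * y ≠ 0 := mul_ne_zero (by norm_num) hy
    have h3 : y - (-y - 0 * x - 0) ≠ 0 := by
      intro h'
      apply h2
      linear_combination h'
    have h4 : (4 : Kb) * y ^ 2 ≠ 0 := mul_ne_zero (by norm_num) (pow_ne_zero 2 hy)
    have h5 : y - (-y - 0 * x - 0) = 2 * y := by ring
    rw [h5]
    field_simp
    ring_nf
    linear_combination (-32 * x) * e
  obtain ⟨X', Y', hN, hE, hX⟩ : ∃ (X' Y' : Kb) (hN : W.Nonsingular X' Y'),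
      ((.some x y h : E) + .some x y h = .some X' Y' hN) ∧
        X' = (x ^ 4 + 16 * x) / (4 * (x ^ 3 - 2)) := ⟨_, _, _, hadd, hx⟩
  subst hX
  exact ⟨Y', hN, hE⟩

lemma pow2 (n : ℕ) : ∃ (x y : Kb) (h : W.Nonsingular x y) (a b : ℤ), Odd a ∧ Odd b ∧
    x * (4 ^ n * b) = a ∧ (2 ^ n : ℕ) • P₀ = .some x y h := by
  induction n with
  | zero =>
    refine ⟨3, 5, W_ns (by norm_num), 3, 1, by decide, by decide, by norm_num, ?_⟩
    rw [pow_zero, one_smul]
    rfl
  | succ n ih =>
    obtain ⟨x, y, h, a, b, ha, hb, hx, hP⟩ := ih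
    have hb0 : (b : Kb) ≠ 0 := by
      have : b ≠ 0 := by rintro rfl; exact absurd hb (by decide)
      exact_mod_cast this
    have h4 : (4 : Kb) ^ n ≠ 0 := pow_ne_zero _ (by norm_num)
    have hodd : Odd (a ^ 3 - 2 * 4 ^ (3 * n) * b ^ 3) :=
      (ha.pow).sub_even ⟨4 ^ (3 * n) * b ^ 3, by ring⟩
    have hodd2 : Odd (a ^ 4 + 16 * 4 ^ (3 * n) * a * b ^ 3) :=
      (ha.pow).add_even ⟨8 * 4 ^ (3 * n) * a * b ^ 3, by ring⟩
    have hc0 : ((a ^ 3 - 2 * 4 ^ (3 * n) * b ^ 3 : ℤ) : Kb) ≠ 0 := by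
      have : (a ^ 3 - 2 * 4 ^ (3 * n) * b ^ 3 : ℤ) ≠ 0 := by
        intro h0
        rw [h0] at hodd
        exact absurd hodd (by decide)
      exact_mod_cast this
    have hcube : (x ^ 3 - 2) * (4 ^ n * b) ^ 3 = ((a ^ 3 - 2 * 4 ^ (3 * n) * b ^ 3 : ℤ) : Kb) := by
      push_cast
      have : (4 : Kb) ^ (3 * n) = (4 ^ n) ^ 3 := by rw [← pow_mul, mul_comm]
      rw [this, ← hx]
      ring
    have hx3 : x ^ 3 - 2 ≠ 0 := by
      intro h0
      rw [h0, zero_mul] at hcube
      exact hc0 hcube.symm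
    have hy : y ≠ 0 := by
      rintro rfl
      apply hx3
      rw [← W_eq h]
      norm_num
    obtain ⟨y', h', hd⟩ := dbl_step h hy
    refine ⟨_, y', h', _, b * (a ^ 3 - 2 * 4 ^ (3 * n) * b ^ 3), hodd2, hb.mul hodd, ?_, ?_⟩
    · have e1 : (4 : Kb) ^ (3 * n) = (4 ^ n) ^ 3 := by rw [← pow_mul, mul_comm]
      have h44 : (4 : Kb) * (x ^ 3 - 2) ≠ 0 := mul_ne_zero (by norm_num) hx3
      rw [div_mul_eq_mul_div, div_eq_iff h44]
      push_cast
      rw [e1, ← hx, pow_succ]
      ring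
    · rw [pow_succ, mul_comm, mul_smul, hP, two_smul, hd]

lemma pow2_injective : Function.Injective (fun n : ℕ => (2 ^ n : ℕ) • P₀) := by
  have key : ∀ n m : ℕ, n < m → (2 ^ n : ℕ) • P₀ ≠ (2 ^ m : ℕ) • P₀ := by
    intro n m hnm heq
    obtain ⟨x, y, h, a, b, ha, hb, hx, hP⟩ := pow2 n
    obtain ⟨x', y', h', a', b', ha', hb', hx', hP'⟩ := pow2 m
    rw [hP, hP'] at heq
    have hxx : x = x' := (WeierstrassCurve.Affine.Point.some.inj heq).1
    subst hxx
    obtain ⟨k, rfl⟩ := Nat.exists_eq_add_of_lt hnm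
    have : ((a * (4 ^ (k + 1) * b') : ℤ) : Kb) = ((a' * b : ℤ) : Kb) := by
      push_cast
      rw [← hx, ← hx']
      ring
    have h2 : a * (4 ^ (k + 1) * b') = a' * b := by exact_mod_cast this
    have h3 : Odd (a' * b) := ha'.mul hb
    rw [← h2] at h3
    have h4 : Even (a * (4 ^ (k + 1) * b')) := ⟨a * (2 * 4 ^ k * b'), by ring⟩
    exact (Int.not_even_iff_odd.mpr h3) h4
  intro n m h
  rcases lt_trichotomy n m with h1 | h1 | h1
  · exact absurd h (key n m h1)
  · exact h1
  · exact absurd h.symm (key m n h1)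

end

end Pool.Agent.H4Pink
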