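import Pool.Agent.H4Pink1

namespace Pool.Agent.H4Pink

open WeierstrassCurve

noncomputable section

/-! ### Maps from infinite sets with the cofinite topology -/

/-- Preimages of open sets are empty or cofinite. -/
def Tame {T Y : Type*} [TopologicalSpace Y] (c : T → Y) : Prop :=
  ∀ U : Set Y, IsOpen U → c ⁻¹' U = ∅ ∨ (c ⁻¹' U)ᶜ.Finite

lemma tame_generateFrom {T Y : Type*} (g : Set (Set Y)) (c : T → Y)
    (h : ∀ U ∈ g, c ⁻¹' U = ∅ ∨ (c ⁻¹' U)ᶜ.Finite) :
    @Tame T Y (TopologicalSpace.generateFrom g) c := by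
  intro U hU
  change TopologicalSpace.GenerateOpen g U at hU
  induction hU with
  | basic s hs => exact h s hs
  | univ => right; simp
  | inter s t _ _ h1 h2 =>
    rcases h1 with h1 | h1
    · left; rw [Set.preimage_inter, h1, Set.empty_inter]
    · rcases h2 with h2 | h2
      · left; rw [Set.preimage_inter, h2, Set.inter_empty]
      · right
        rw [Set.preimage_inter, Set.compl_inter]
        exact h1.union h2
  | sUnion S _ ih =>
    by_cases hS : ∀ s ∈ S, c ⁻¹' s = ∅
    · left
      rw [Set.preimage_sUnion]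
      simp only [Set.iUnion_eq_empty]
      exact hS
    · right
      push Not at hS
      obtain ⟨s, hs, hne⟩ := hS
      have := (ih s hs).resolve_left hne.ne_empty
      exact this.subset (Set.compl_subset_compl.mpr (Set.preimage_mono (Set.subset_sUnion_of_mem hs)))

lemma Tame.comp {T Y Z : Type*} [TopologicalSpace Y] [TopologicalSpace Z] {c : T → Y} {f : Y → Z}
    (hc : Tame c) (hf : Continuous f) : Tame (f ∘ c) := by
  intro U hU
  exact hc _ (hU.preimage hf)

lemma Tame.closed {T Y : Type*} [TopologicalSpace Y] {c : T → Y} (hc : Tame c) {G : Set Y}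
    (hG : IsClosed G) : c ⁻¹' G = Set.univ ∨ (c ⁻¹' G).Finite := by
  rcases hc Gᶜ hG.isOpen_compl with h | h
  · left
    rw [Set.preimage_compl, Set.compl_empty_iff] at h
    exact h
  · right
    rw [Set.preimage_compl, compl_compl] at h
    exact h

lemma irr_prod {A B Y : Type*} [Infinite A] [TopologicalSpace Y] (m : A → B → Y)
    (h1 : ∀ a, IsPreirreducible (Set.range (m a))) (h2 : ∀ b, Tame (fun a => m a b)) :
    IsPreirreducible (Set.range (fun x : A × B => m x.1 x.2)) := by
  rintro U V hU hV ⟨_, ⟨⟨a₁, b₁⟩, rfl⟩, hu⟩ ⟨_, ⟨⟨a₂, b₂⟩, rfl⟩, hv⟩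
  have f1 : ((fun a => m a b₁) ⁻¹' U)ᶜ.Finite := by
    refine (h2 b₁ U hU).resolve_left ?_
    exact Set.Nonempty.ne_empty ⟨a₁, hu⟩
  have f2 : ((fun a => m a b₂) ⁻¹' V)ᶜ.Finite := by
    refine (h2 b₂ V hV).resolve_left ?_
    exact Set.Nonempty.ne_empty ⟨a₂, hv⟩
  obtain ⟨a, ha⟩ := Set.Infinite.nonempty (Set.Finite.infinite_compl (f1.union f2))
  have ha1 : m a b₁ ∈ U := by
    by_contra h
    exact ha (Or.inl h)
  have ha2 : m a b₂ ∈ V := by
    by_contra h
    exact ha (Or.inr h)
  obtain ⟨_, ⟨b, rfl⟩, hb⟩ := h1 a U V hU hV ⟨_, ⟨b₁, rfl⟩, ha1⟩ ⟨_, ⟨b₂, rfl⟩, ha2⟩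
  exact ⟨_, ⟨(a, b), rfl⟩, hb⟩

lemma Tame.irreducible {A Y : Type*} [Infinite A] [TopologicalSpace Y] {c : A → Y} (hc : Tame c) :
    IsPreirreducible (Set.range c) := by
  have := irr_prod (A := A) (B := Unit) (fun a _ => c a)
    (fun a => by
      have : Set.range (fun _ : Unit => c a) = {c a} := by ext; simp
      rw [this]
      exact isPreirreducible_singleton) (fun _ => hc)
  convert this using 1
  ext y
  simp

lemma dim_one {Y : Type*} [TopologicalSpace Y] [T1Space Y] [Infinite Y]
    (h : ∀ G : Set Y, IsClosed G → G = Set.univ ∨ G.Finite) : topologicalKrullDim Y = 1 := by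
  have hirr : IsIrreducible (Set.univ : Set Y) := by
    refine ⟨Set.univ_nonempty, ?_⟩
    have : Tame (fun y : Y => y) := by
      intro U hU
      rcases h Uᶜ hU.isClosed_compl with h1 | h1
      · left
        rw [Set.compl_univ_iff] at h1
        simpa using h1
      · right; exact h1
    have h3 := this.irreducible
    rwa [Set.range_id'] at h3
  apply le_antisymm
  · unfold topologicalKrullDim
    rw [Order.krullDim_le_one_iff]
    intro Z
    rcases h Z Z.isClosed with hZ | hZ
    · right
      intro Z' _ x _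
      have : x ∈ (Z : Set Y) := by rw [hZ]; trivial
      exact this
    · left
      intro Z' hle
      have hsub : (Z : Set Y).Subsingleton := by
        have : DiscreteTopology (Z : Set Y) := by
          have : Finite (Z : Set Y) := hZ
          infer_instance
        exact IsDiscrete.subsingleton_of_isPreirreducible ⟨this⟩ Z.isIrreducible.isPreirreducible
      obtain ⟨z, hz⟩ := Z'.isIrreducible.nonempty
      intro x hx
      have : x = z := hsub hx (hle hz)
      rw [this]
      exact hz
  · unfold topologicalKrullDim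
    rw [Order.one_le_krullDim_iff]
    obtain ⟨y⟩ := (inferInstance : Nonempty Y)
    refine ⟨⟨{y}, isIrreducible_singleton, isClosed_singleton⟩, ⟨Set.univ, hirr, isClosed_univ⟩, ?_⟩
    rw [lt_iff_le_not_ge]
    refine ⟨fun _ _ => trivial, fun hle => ?_⟩
    have hall : ∀ z : Y, z = y := fun z => hle (Set.mem_univ z)
    have : Subsingleton Y := ⟨fun a b => (hall a).trans (hall b).symm⟩
    exact not_finite Y

lemma dim_one' {Y : Type*} [TopologicalSpace Y] [T1Space Y] {T : Type*} [Infinite T] (c : T → Y)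
    (hc : Function.Injective c) (ht : Tame c) (Z : Set Y) (hZ : Z = Set.range c) :
    topologicalKrullDim Z = 1 := by
  subst hZ
  have : Infinite (Set.range c) := (Set.infinite_range_of_injective hc).to_subtype
  refine dim_one ?_
  intro G hG
  obtain ⟨G', hG', rfl⟩ := isClosed_induced_iff.mp hG
  rcases ht.closed hG' with h | h
  · left
    ext ⟨x, t, rfl⟩
    simp only [Set.mem_preimage, Set.mem_univ, iff_true]
    have : t ∈ c ⁻¹' G' := by rw [h]; trivial
    exact this
  · right
    refine (h.image (fun t => (⟨c t, t, rfl⟩ : Set.range c))).subset ?_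
    rintro ⟨x, t, rfl⟩ hx
    exact ⟨t, hx, rfl⟩

/-! ### Functions on the curve -/

/-- `x`-coordinate, `0` at infinity. -/
def xc : E → Kb
  | .zero => 0
  | .some x _ _ => x

/-- `y`-coordinate, `0` at infinity. -/
def yc : E → Kb
  | .zero => 0
  | .some _ y _ => y

def Reg (f : E → Kb) : Prop :=
  ∃ a b : Polynomial Kb, ∀ x y h, f (.some x y h) = a.eval x + b.eval x * y

lemma Reg.const (c : Kb) : Reg (fun _ => c) := ⟨Polynomial.C c, 0, by intro x y h; simp⟩

lemma Reg.add {f g : E → Kb} (hf : Reg f) (hg : Reg g) : Reg (fun R => f R + g R) := by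
  obtain ⟨a, b, h⟩ := hf
  obtain ⟨a', b', h'⟩ := hg
  refine ⟨a + a', b + b', fun x y hn => ?_⟩
  simp only [h, h', Polynomial.eval_add]
  ring

lemma Reg.mul {f g : E → Kb} (hf : Reg f) (hg : Reg g) : Reg (fun R => f R * g R) := by
  obtain ⟨a, b, h⟩ := hf
  obtain ⟨a', b', h'⟩ := hg
  refine ⟨a * a' + b * b' * (Polynomial.X ^ 3 - 2), a * b' + b * a', fun x y hn => ?_⟩
  simp only [h, h', Polynomial.eval_add, Polynomial.eval_mul, Polynomial.eval_sub,
    Polynomial.eval_pow, Polynomial.eval_X, Polynomial.eval_ofNat]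
  have e := W_eq hn
  linear_combination (b.eval x * b'.eval x) * e

lemma Reg.xc : Reg xc := ⟨Polynomial.X, 0, by intro x y h; simp [H4Pink.xc]⟩

lemma Reg.yc : Reg yc := ⟨0, 1, by intro x y h; simp [H4Pink.yc]⟩

lemma finite_fibre (N : Polynomial Kb) (hN : N ≠ 0) :
    {R : E | ∃ x y h, R = .some x y h ∧ N.eval x = 0}.Finite := by
  classical
  have hT : (⋃ x ∈ {x | N.eval x = 0}, ({x} ×ˢ {y : Kb | y ^ 2 = x ^ 3 - 2} : Set (Kb × Kb))).Finite := by
    refine Set.Finite.biUnion ?_ ?_
    · refine (N.roots.toFinset.finite_toSet).subset ?_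
      intro x hx
      simp only [Finset.mem_coe, Multiset.mem_toFinset, Polynomial.mem_roots hN]
      exact hx
    · intro x _
      refine (Set.finite_singleton x).prod ?_
      refine ((Polynomial.nthRoots 2 (x ^ 3 - 2)).toFinset.finite_toSet).subset ?_
      intro y hy
      simp only [Finset.mem_coe, Multiset.mem_toFinset]
      rw [Polynomial.mem_nthRoots (by norm_num)]
      exact hy
  refine (hT.image (fun p : Kb × Kb =>
    if h : W.Nonsingular p.1 p.2 then (.some p.1 p.2 h : E) else 0)).subset ?_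
  rintro R ⟨x, y, h, rfl, hx⟩
  refine ⟨(x, y), ?_, ?_⟩
  · simp only [Set.mem_iUnion]
    exact ⟨x, hx, rfl, W_eq h⟩
  · simp [h]

lemma Reg.finite {f : E → Kb} (hf : Reg f) :
    {R : E | R ≠ 0 ∧ f R ≠ 0} = ∅ ∨ {R : E | R ≠ 0 ∧ f R ≠ 0}ᶜ.Finite := by
  obtain ⟨a, b, h⟩ := hf
  by_cases hN : a ^ 2 - b ^ 2 * (Polynomial.X ^ 3 - 2) = 0
  · left
    have hb : b = 0 := by
      by_contra hb
      have e : a ^ 2 = b ^ 2 * (Polynomial.X ^ 3 - 2) := sub_eq_zero.mp hN
      have hX : (Polynomial.X ^ 3 - 2 : Polynomial Kb).natDegree = 3 := by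
        have : (2 : Polynomial Kb) = Polynomial.C 2 := rfl
        rw [this]
        exact Polynomial.natDegree_X_pow_sub_C
      have hX0 : (Polynomial.X ^ 3 - 2 : Polynomial Kb) ≠ 0 := by
        intro h0
        rw [h0] at hX
        simp at hX
      have e2 := congrArg Polynomial.natDegree e
      rw [Polynomial.natDegree_mul (pow_ne_zero 2 hb) hX0, Polynomial.natDegree_pow,
        Polynomial.natDegree_pow, hX] at e2
      omega
    have ha : a = 0 := by
      rw [hb] at hN
      simpa using hN
    ext R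
    simp only [Set.mem_empty_iff_false, iff_false]
    rintro ⟨h0, h1⟩
    rcases R with _ | ⟨x, y, hn⟩
    · exact h0 rfl
    · apply h1
      rw [h, ha, hb]
      simp
  · right
    refine ((finite_fibre _ hN).union (Set.finite_singleton (0 : E))).subset ?_
    intro R hR
    rcases R with _ | ⟨x, y, hn⟩
    · right; rfl
    · left
      have hz : f (.some x y hn) = 0 := by
        by_contra hne
        exact hR ⟨by simp, hne⟩
      refine ⟨x, y, hn, rfl, ?_⟩
      rw [h] at hz
      simp only [Polynomial.eval_mul, Polynomial.eval_sub,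
        Polynomial.eval_pow, Polynomial.eval_X, Polynomial.eval_ofNat]
      have e := W_eq hn
      linear_combination (a.eval x - b.eval x * y) * hz + (b.eval x) ^ 2 * e

end

end Pool.Agent.H4Pink
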