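import Pool.Agent.H4Pink2

namespace Pool.Agent.H4Pink

noncomputable section

/-- The points of the multiplicative group. -/
abbrev Gm : Type := Kbˣ

instance instMonoidGm : Monoid Gm := Units.instMonoid

lemma exists_zeta : ∃ z : Gm, IsPrimitiveRoot z 3 := by
  obtain ⟨z, hz⟩ := HasEnoughRootsOfUnity.exists_primitiveRoot Kb 3
  refine ⟨(hz.isUnit (by norm_num)).unit, ?_⟩
  rw [← IsPrimitiveRoot.coe_units_iff]
  exact hz

/-- A primitive cube root of unity. -/
def zeta : Gm := Classical.choose exists_zeta

lemma zeta_prim : IsPrimitiveRoot zeta 3 := Classical.choose_spec exists_zeta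

/-- The fibre over `s` of the restriction of scalars of the constant curve `E` along the
covering `t ↦ t ^ 3` of the multiplicative group: the product of copies of `E` indexed by the
cube roots of `s`, with its product group structure. -/
abbrev Fib (s : Gm) : Type := {r : Gm // r ^ 3 = s} → E

/-- The points of the abelian scheme: pairs of a point of the base and a point of its fibre. -/
structure AbS where
  base : Gm
  val : Fib base

/-- The points of the pull-back of the abelian scheme along `t ↦ t ^ 3`. -/
structure Cov where
  base : Gm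
  val : Fib (base ^ 3)

/-- The cube root `zeta ^ i * t` of `t ^ 3`. -/
def root (t : Gm) (i : Fin 3) : {r : Gm // r ^ 3 = t ^ 3} :=
  ⟨zeta ^ (i : ℕ) * t, by rw [mul_pow, ← pow_mul, mul_comm (i : ℕ) 3, pow_mul,
    zeta_prim.pow_eq_one, one_pow, one_mul]⟩

/-- Affine coordinates of a point of the pull-back, after a translation by `- Q i` of the value
at the `i`-th cube root: the three `x`-coordinates, the three `y`-coordinates, and the
coordinate on the multiplicative group. -/
def vec (Q : Fin 3 → E) (c : Cov) : Fin 3 ⊕ Fin 3 ⊕ Unit → Kb :=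
  Sum.elim (fun i => xc (c.val (root c.base i) - Q i))
    (Sum.elim (fun i => yc (c.val (root c.base i) - Q i)) (fun _ => (c.base : Kb)))

/-- The principal open set, attached to a polynomial `F`, in the translate by `Q` of the
affine open set where none of the three points is at infinity. -/
def basicOpen (Q : Fin 3 → E) (F : MvPolynomial (Fin 3 ⊕ Fin 3 ⊕ Unit) Kb) : Set Cov :=
  {c | (∀ i, c.val (root c.base i) ≠ Q i) ∧ MvPolynomial.eval (vec Q c) F ≠ 0}

/-- The Zariski topology of the pull-back. -/
instance : TopologicalSpace Cov :=
  TopologicalSpace.generateFrom {U | ∃ Q F, U = basicOpen Q F}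

/-- The finite étale projection from the pull-back onto the abelian scheme. -/
def proj (c : Cov) : AbS := ⟨c.base ^ 3, c.val⟩

/-- The Zariski topology of the abelian scheme. -/
instance : TopologicalSpace AbS := TopologicalSpace.coinduced proj inferInstance

/-- The Zariski topology of a fibre. -/
instance (s : Gm) : TopologicalSpace (Fib s) :=
  TopologicalSpace.induced (fun f => (⟨s, f⟩ : AbS)) inferInstance

lemma continuous_proj : Continuous proj := continuous_coinduced_rng

lemma continuous_mk (s : Gm) : Continuous (fun f : Fib s => (⟨s, f⟩ : AbS)) :=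
  continuous_induced_dom

lemma isOpen_basic (Q : Fin 3 → E) (F : MvPolynomial (Fin 3 ⊕ Fin 3 ⊕ Unit) Kb) :
    IsOpen (basicOpen Q F) := TopologicalSpace.isOpen_generateFrom_of_mem ⟨Q, F, rfl⟩

lemma P₀_ne : P₀ ≠ 0 := by
  unfold P₀
  simp

instance : Infinite E := Infinite.of_injective _ pow2_injective

instance : Infinite Gm := by
  have : Infinite Kb := inferInstance
  have h : (Set.range (Units.val : Gm → Kb)).Infinite := by
    have : (Set.range (Units.val : Gm → Kb)) = {0}ᶜ := by
      ext x
      simp only [Set.mem_range, Set.mem_compl_iff, Set.mem_singleton_iff]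
      constructor
      · rintro ⟨u, rfl⟩; exact u.ne_zero
      · intro hx; exact ⟨Units.mk0 x hx, rfl⟩
    rw [this]
    exact Set.Finite.infinite_compl (Set.finite_singleton 0)
  by_contra hfin
  rw [not_infinite_iff_finite] at hfin
  exact h (Set.finite_range _)

lemma root_zero (t : Gm) : root t 0 = ⟨t, rfl⟩ := by
  apply Subtype.ext
  simp [root]

lemma root_injective (t : Gm) : Function.Injective (root t) := by
  intro i j h
  have h1 : zeta ^ (i : ℕ) * t = zeta ^ (j : ℕ) * t := congrArg Subtype.val h
  have h2 : zeta ^ (i : ℕ) = zeta ^ (j : ℕ) := mul_right_cancel h1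
  exact Fin.ext (zeta_prim.pow_inj i.2 j.2 h2)

lemma root_surjective (t : Gm) : Function.Surjective (root t) := by
  rintro ⟨r, hr⟩
  have h1 : ((r / t : Gm) : Kb) ^ 3 = 1 := by
    have : (r / t) ^ 3 = 1 := by rw [div_pow, hr, div_self']
    rw [← Units.val_pow_eq_pow_val, this, Units.val_one]
  have hz : IsPrimitiveRoot (zeta : Kb) 3 := IsPrimitiveRoot.coe_units_iff.mpr zeta_prim
  obtain ⟨i, hi, h2⟩ := hz.eq_pow_of_pow_eq_one h1
  refine ⟨⟨i, hi⟩, ?_⟩
  apply Subtype.ext
  simp only [root]
  have h3 : zeta ^ i = r / t := by
    apply Units.ext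
    push_cast
    push_cast at h2
    exact h2
  rw [h3, div_mul_cancel]

lemma finite_roots (s : Gm) : {t : Gm | t ^ 3 = s}.Finite := by
  rcases Set.eq_empty_or_nonempty {t : Gm | t ^ 3 = s} with h | ⟨t, ht⟩
  · rw [h]; exact Set.finite_empty
  · refine (Set.finite_range (fun i => (root t i).1)).subset ?_
    intro u hu
    obtain ⟨i, hi⟩ := root_surjective t ⟨u, by
      have h1 : t ^ 3 = s := ht
      have h2 : u ^ 3 = s := hu
      rw [h1, h2]⟩
    exact ⟨i, congrArg Subtype.val hi⟩

instance (s : Gm) : Finite {r : Gm // r ^ 3 = s} := (finite_roots s).to_subtype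

lemma isClosed_coord (j : Fin 3) (R : E) : IsClosed {c : Cov | c.val (root c.base j) = R} := by
  rw [← isOpen_compl_iff, isOpen_iff_forall_mem_open]
  intro c hc
  refine ⟨basicOpen (fun i => if i = j then R else c.val (root c.base i) + P₀) 1, ?_,
    isOpen_basic _ _, ?_⟩
  · rintro c' ⟨h, -⟩
    have := h j
    simp only [if_true] at this
    exact this
  · refine ⟨?_, by simp⟩
    intro i
    by_cases hij : i = j
    · subst hij
      simp only [if_true]
      exact hc
    · simp only [hij, if_false]
      intro h
      exact P₀_ne (by simpa using h)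

lemma isClosed_base (t : Gm) : IsClosed {c : Cov | c.base = t} := by
  rw [← isOpen_compl_iff, isOpen_iff_forall_mem_open]
  intro c hc
  refine ⟨basicOpen (fun i => c.val (root c.base i) + P₀)
    (MvPolynomial.X (Sum.inr (Sum.inr ())) - MvPolynomial.C (t : Kb)), ?_, isOpen_basic _ _, ?_⟩
  · rintro c' ⟨-, h⟩
    intro h'
    apply h
    have h'' : c'.base = t := h'
    simp [vec, h'']
  · refine ⟨?_, ?_⟩
    · intro i h
      exact P₀_ne (by simpa using h)
    · simp only [vec, map_sub, MvPolynomial.eval_X, MvPolynomial.eval_C, Sum.elim_inr]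
      intro h
      apply hc
      exact Units.ext (sub_eq_zero.mp h)

lemma cov_ext {c c' : Cov} (h : c.base = c'.base)
    (h' : ∀ i, c.val (root c.base i) = c'.val (root c'.base i)) : c = c' := by
  obtain ⟨t, f⟩ := c
  obtain ⟨t', f'⟩ := c'
  simp only at h
  subst h
  have : f = f' := by
    funext r
    obtain ⟨i, rfl⟩ := root_surjective t r
    exact h' i
  rw [this]

instance : T1Space Cov := by
  refine ⟨fun c => ?_⟩
  have : ({c} : Set Cov) = {c' | c'.base = c.base} ∩
      ⋂ i, {c' | c'.val (root c'.base i) = c.val (root c.base i)} := by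
    ext c'
    constructor
    · rintro rfl
      refine ⟨rfl, ?_⟩
      simp only [Set.mem_iInter]
      intro i
      rfl
    · rintro ⟨h1, h2⟩
      simp only [Set.mem_iInter] at h2
      exact cov_ext h1 h2
  rw [this]
  exact (isClosed_base _).inter (isClosed_iInter fun i => isClosed_coord i _)

instance : T1Space AbS := by
  refine ⟨fun a => ?_⟩
  rw [← isOpen_compl_iff, isOpen_coinduced, Set.preimage_compl, isOpen_compl_iff]
  apply Set.Finite.isClosed
  refine Set.Finite.of_finite_image (f := Cov.base) ((finite_roots a.base).subset ?_) ?_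
  · rintro _ ⟨c, hc, rfl⟩
    have : proj c = a := hc
    rw [← this]
    rfl
  · intro c hc c' hc' h
    obtain ⟨t, f⟩ := c
    obtain ⟨t', f'⟩ := c'
    simp only at h
    subst h
    have h1 : proj ⟨t, f⟩ = proj ⟨t, f'⟩ := by
      rw [show proj ⟨t, f⟩ = a from hc, show proj ⟨t, f'⟩ = a from hc']
    simp only [proj, AbS.mk.injEq, heq_eq_eq, true_and] at h1
    rw [h1]

instance (s : Gm) : T1Space (Fib s) := by
  refine t1Space_of_injective_of_continuous (f := fun f : Fib s => (⟨s, f⟩ : AbS)) ?_
    (continuous_mk s)
  intro f f' h
  simpa using h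

lemma update_root (t : Gm) (f : Fib (t ^ 3)) (k : Fin 3) (R : E) (i : Fin 3) :
    Function.update f (root t k) R (root t i) = if i = k then R else f (root t i) := by
  by_cases h : i = k
  · subst h; simp
  · rw [Function.update_of_ne (fun h' => h (root_injective t h')), if_neg h]

lemma tame_line (t : Gm) (f : Fib (t ^ 3)) (k : Fin 3) :
    Tame (fun R : E => (⟨t, Function.update f (root t k) R⟩ : Cov)) := by
  apply tame_generateFrom
  rintro _ ⟨Q, F, rfl⟩
  by_cases hQ : ∃ i, i ≠ k ∧ f (root t i) = Q i
  · left
    obtain ⟨i, hik, hi⟩ := hQ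
    ext R
    simp only [Set.mem_empty_iff_false, iff_false]
    rintro ⟨h, -⟩
    apply h i
    change Function.update f (root t k) R (root t i) = Q i
    rw [update_root, if_neg hik]
    exact hi
  · push Not at hQ
    have hreg : Reg (fun R' : E =>
        MvPolynomial.eval (vec Q ⟨t, Function.update f (root t k) (R' + Q k)⟩) F) := by
      induction F using MvPolynomial.induction_on with
      | C a => simpa using Reg.const a
      | add p q hp hq => simpa using hp.add hq
      | mul_X p n hp =>
        simp only [map_mul, MvPolynomial.eval_X]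
        refine hp.mul ?_
        rcases n with i | i | i
        · by_cases hik : i = k
          · subst hik
            simpa [vec, update_root] using Reg.xc
          · simpa [vec, update_root, hik] using Reg.const _
        · by_cases hik : i = k
          · subst hik
            simpa [vec, update_root] using Reg.yc
          · simpa [vec, update_root, hik] using Reg.const _
        · simpa [vec] using Reg.const _
    have hset : (fun R : E => (⟨t, Function.update f (root t k) R⟩ : Cov)) ⁻¹' basicOpen Q F =
        (fun R => R - Q k) ⁻¹' {R' : E | R' ≠ 0 ∧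
          MvPolynomial.eval (vec Q ⟨t, Function.update f (root t k) (R' + Q k)⟩) F ≠ 0} := by
      ext R
      simp only [Set.mem_preimage, basicOpen, Set.mem_ofPred_eq, sub_add_cancel]
      constructor
      · rintro ⟨h1, h2⟩
        refine ⟨?_, h2⟩
        have := h1 k
        rw [update_root, if_pos rfl] at this
        exact sub_ne_zero.mpr this
      · rintro ⟨h1, h2⟩
        refine ⟨?_, h2⟩
        intro i
        rw [update_root]
        by_cases hik : i = k
        · subst hik
          rw [if_pos rfl]
          exact sub_ne_zero.mp h1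
        · rw [if_neg hik]
          exact hQ i hik
    rw [hset]
    rcases hreg.finite with h | h
    · left
      rw [h, Set.preimage_empty]
    · right
      rw [← Set.preimage_compl]
      exact h.preimage (fun a _ b _ hab => sub_left_injective hab)

lemma tame_fib (t : Gm) (f : Fib (t ^ 3)) (k : Fin 3) :
    Tame (fun R : E => Function.update f (root t k) R) := by
  intro U hU
  obtain ⟨V, hV, rfl⟩ := isOpen_induced_iff.mp hU
  exact (tame_line t f k).comp continuous_proj V hV

lemma tame_base (R : E) : Tame (fun t : Gm => (⟨t, Function.update 0 (root t 0) R⟩ : Cov)) := by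
  apply tame_generateFrom
  rintro _ ⟨Q, F, rfl⟩
  by_cases hQ : ∃ i, (if i = 0 then R else 0) = Q i
  · left
    obtain ⟨i, hi⟩ := hQ
    ext t
    simp only [Set.mem_empty_iff_false, iff_false]
    rintro ⟨h, -⟩
    apply h i
    change Function.update (0 : Fib (t ^ 3)) (root t 0) R (root t i) = Q i
    rw [update_root]
    exact hi
  · push Not at hQ
    obtain ⟨p, hp⟩ : ∃ p : Polynomial Kb, ∀ t : Gm,
        MvPolynomial.eval (vec Q ⟨t, Function.update 0 (root t 0) R⟩) F = p.eval (t : Kb) := by
      clear hQ
      induction F using MvPolynomial.induction_on with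
      | C a => exact ⟨Polynomial.C a, fun t => by simp⟩
      | add p q hp hq =>
        obtain ⟨p', hp'⟩ := hp
        obtain ⟨q', hq'⟩ := hq
        exact ⟨p' + q', fun t => by simp [hp', hq']⟩
      | mul_X p n hp =>
        obtain ⟨p', hp'⟩ := hp
        rcases n with i | i | i
        · exact ⟨p' * Polynomial.C (xc ((if i = 0 then R else 0) - Q i)), fun t => by
            rw [map_mul, MvPolynomial.eval_X, hp', Polynomial.eval_mul, Polynomial.eval_C]
            simp [vec, update_root]⟩
        · exact ⟨p' * Polynomial.C (yc ((if i = 0 then R else 0) - Q i)), fun t => by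
            rw [map_mul, MvPolynomial.eval_X, hp', Polynomial.eval_mul, Polynomial.eval_C]
            simp [vec, update_root]⟩
        · exact ⟨p' * Polynomial.X, fun t => by
            rw [map_mul, MvPolynomial.eval_X, hp', Polynomial.eval_mul, Polynomial.eval_X]
            simp [vec]⟩
    by_cases hp0 : p = 0
    · left
      ext t
      simp only [Set.mem_empty_iff_false, iff_false]
      rintro ⟨-, h⟩
      apply h
      rw [hp, hp0]
      simp
    · right
      refine ((p.roots.toFinset.finite_toSet).preimage (f := (Units.val : Gm → Kb))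
        (fun a _ b _ hab => Units.ext hab)).subset ?_
      intro t ht
      simp only [Set.mem_preimage, Finset.mem_coe, Multiset.mem_toFinset,
        Polynomial.mem_roots hp0]
      by_contra hne
      apply ht
      refine ⟨?_, ?_⟩
      · intro i
        change Function.update (0 : Fib (t ^ 3)) (root t 0) R (root t i) ≠ Q i
        rw [update_root]
        exact hQ i
      · rw [hp]
        exact hne

end

end Pool.Agent.H4Pink
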