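import Pool.Agent.H4Pink3

namespace Pool.Agent.H4Pink

noncomputable section

/-- The closed subset of points over `r ^ 3` whose component at the cube root `r` is zero. -/
lemma isClosed_zero_at (r : Gm) :
    IsClosed {a : AbS | a.base = r ^ 3 ∧ ∀ r' : {x : Gm // x ^ 3 = a.base}, r'.1 = r → a.val r' = 0} := by
  rw [← isOpen_compl_iff, isOpen_coinduced, Set.preimage_compl, isOpen_compl_iff]
  have : proj ⁻¹' {a : AbS | a.base = r ^ 3 ∧
      ∀ r' : {x : Gm // x ^ 3 = a.base}, r'.1 = r → a.val r' = 0} =
      ⋃ k : Fin 3, ({c : Cov | c.base = (zeta ^ (k : ℕ))⁻¹ * r} ∩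
        {c : Cov | c.val (root c.base k) = 0}) := by
    ext c
    simp only [Set.mem_iUnion]
    constructor
    · rintro ⟨h1, h2⟩
      obtain ⟨k, hk⟩ := root_surjective c.base ⟨r, h1.symm⟩
      refine ⟨k, ?_, ?_⟩
      · have h3 : zeta ^ (k : ℕ) * c.base = r := congrArg Subtype.val hk
        change c.base = (zeta ^ (k : ℕ))⁻¹ * r
        rw [← h3, inv_mul_cancel_left]
      · exact h2 (root c.base k) (congrArg Subtype.val hk)
    · rintro ⟨k, h1, h2⟩
      have h3 : (root c.base k).1 = r := by
        have h1' : c.base = (zeta ^ (k : ℕ))⁻¹ * r := h1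
        simp only [root]
        rw [h1', mul_inv_cancel_left]
      refine ⟨?_, ?_⟩
      · change c.base ^ 3 = r ^ 3
        rw [← h3]
        exact (root c.base k).2.symm
      · intro r' hr'
        have h4 : r' = root c.base k := Subtype.ext (hr'.trans h3.symm)
        rw [h4]
        exact h2
  rw [this]
  exact isClosed_iUnion_of_finite fun k => (isClosed_base _).inter (isClosed_coord k 0)

lemma isClosed_fib_zero {s : Gm} (r : {x : Gm // x ^ 3 = s}) :
    IsClosed {f : Fib s | f r = 0} := by
  have := (isClosed_zero_at r.1).preimage (continuous_mk s)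
  convert this using 1
  ext f
  constructor
  · intro h
    refine ⟨r.2.symm, ?_⟩
    intro r' hr'
    have : r' = r := Subtype.ext hr'
    rw [this]
    exact h
  · rintro ⟨-, h⟩
    exact h r rfl

/-- The curve `X`: over `s`, the three points with value `P₀` at one cube root of `s` and `0` at the
two others. -/
def X : Set AbS := {a | ∃ r : {x : Gm // x ^ 3 = a.base}, a.val = Pi.single r P₀}

lemma X_closed : IsClosed X := by
  rw [← isOpen_compl_iff, isOpen_coinduced, Set.preimage_compl, isOpen_compl_iff]
  have : proj ⁻¹' X = ⋃ k : Fin 3, ⋂ j : Fin 3,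
      {c : Cov | c.val (root c.base j) = if j = k then P₀ else 0} := by
    ext c
    simp only [Set.mem_iUnion, Set.mem_iInter]
    constructor
    · rintro ⟨r, hr⟩
      obtain ⟨k, hk⟩ := root_surjective c.base r
      refine ⟨k, fun j => ?_⟩
      have hr' : c.val = Pi.single r P₀ := hr
      change c.val (root c.base j) = _
      rw [hr', ← hk]
      exact update_root c.base 0 k P₀ j
    · rintro ⟨k, hk⟩
      refine ⟨root c.base k, ?_⟩
      change c.val = _
      funext r
      obtain ⟨j, rfl⟩ := root_surjective c.base r
      have h1 : c.val (root c.base j) = if j = k then P₀ else 0 := hk j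
      rw [h1]
      exact (update_root c.base 0 k P₀ j).symm
  rw [this]
  exact isClosed_iUnion_of_finite fun k => isClosed_iInter fun j => isClosed_coord j _

/-- Parametrization of `X`. -/
def phi (t : Gm) : AbS := proj ⟨t, Function.update 0 (root t 0) P₀⟩

lemma phi_tame : Tame phi := (tame_base P₀).comp continuous_proj

lemma X_range : X = Set.range phi := by
  ext a
  constructor
  · obtain ⟨s, f⟩ := a
    rintro ⟨⟨r, hr⟩, h⟩
    simp only at h hr
    subst hr
    refine ⟨r, ?_⟩
    simp only [phi, proj]
    rw [h, root_zero]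
    rfl
  · rintro ⟨t, rfl⟩
    exact ⟨root t 0, rfl⟩

lemma phi_injective : Function.Injective phi := by
  intro t u h
  have key : ∀ t x : Gm, (∃ hx : x ^ 3 = (phi t).base, (phi t).val ⟨x, hx⟩ ≠ 0) → x = t := by
    rintro t x ⟨hx, h⟩
    by_contra hne
    apply h
    change Function.update (0 : Fib (t ^ 3)) (root t 0) P₀ ⟨x, hx⟩ = 0
    rw [Function.update_of_ne]
    · rfl
    · rw [root_zero]
      intro h'
      exact hne (congrArg Subtype.val h')
  apply key u t
  rw [← h]
  refine ⟨rfl, ?_⟩
  change Function.update (0 : Fib (t ^ 3)) (root t 0) P₀ ⟨t, rfl⟩ ≠ 0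
  rw [root_zero, Function.update_self]
  exact P₀_ne

lemma X_irreducible : IsIrreducible X := by
  rw [X_range]
  exact ⟨Set.range_nonempty _, phi_tame.irreducible⟩

lemma X_dim : topologicalKrullDim X = 1 := dim_one' phi phi_injective phi_tame X X_range

/-- The elements of the fibre with value `0` outside the cube root `r`. -/
def axis {s : Gm} (r : {x : Gm // x ^ 3 = s}) : AddSubgroup (Fib s) where
  carrier := {f | ∀ r', r' ≠ r → f r' = 0}
  zero_mem' := fun _ _ => rfl
  add_mem' := by
    intro f g hf hg r' hr'
    simp [hf r' hr', hg r' hr']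
  neg_mem' := by
    intro f hf r' hr'
    simp [hf r' hr']

lemma axis_closed {s : Gm} (r : {x : Gm // x ^ 3 = s}) : IsClosed (axis r : Set (Fib s)) := by
  have : (axis r : Set (Fib s)) = ⋂ r' : {x : Gm // x ^ 3 = s}, ⋂ _ : r' ≠ r,
      {f : Fib s | f r' = 0} := by
    ext f
    simp only [Set.mem_iInter]
    rfl
  rw [this]
  exact isClosed_iInter fun r' => isClosed_iInter fun _ => isClosed_fib_zero r'

lemma tame_single {s : Gm} (r : {x : Gm // x ^ 3 = s}) :
    Tame (fun R : E => (Pi.single r R : Fib s)) := by
  obtain ⟨r, rfl⟩ := r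
  have := tame_fib r 0 0
  rw [root_zero] at this
  exact this

lemma axis_range {s : Gm} (r : {x : Gm // x ^ 3 = s}) :
    (axis r : Set (Fib s)) = Set.range (fun R : E => (Pi.single r R : Fib s)) := by
  ext f
  constructor
  · intro hf
    refine ⟨f r, ?_⟩
    funext r'
    by_cases h : r' = r
    · subst h; simp
    · simp only [Pi.single_eq_of_ne h]
      exact (hf r' h).symm
  · rintro ⟨R, rfl⟩
    intro r' hr'
    simp only [Pi.single_eq_of_ne hr']

lemma axis_dim {s : Gm} (r : {x : Gm // x ^ 3 = s}) :
    topologicalKrullDim (axis r : Set (Fib s)) = 1 :=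
  dim_one' _ (Pi.single_injective r) (tame_single r) _ (axis_range r)

lemma full {G : Set AbS} (hG : IsClosed G)
    (hgrp : ∀ s : Gm, ∃ H : AddSubgroup (Fib s), (H : Set (Fib s)) = {f | (⟨s, f⟩ : AbS) ∈ G})
    (hX : X ⊆ G) : G = Set.univ := by
  ext ⟨s, f⟩
  simp only [Set.mem_univ, iff_true]
  obtain ⟨H, hH⟩ := hgrp s
  have hmem : ∀ g : Fib s, g ∈ H ↔ (⟨s, g⟩ : AbS) ∈ G := by
    intro g
    have : g ∈ (H : Set (Fib s)) ↔ g ∈ {f : Fib s | (⟨s, f⟩ : AbS) ∈ G} := by rw [hH]
    exact this
  have hHc : IsClosed (H : Set (Fib s)) := by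
    rw [hH]
    exact hG.preimage (continuous_mk s)
  have hall : ∀ (r : {x : Gm // x ^ 3 = s}) (R : E), (Pi.single r R : Fib s) ∈ H := by
    intro r
    have h0 : (Pi.single r P₀ : Fib s) ∈ H := (hmem _).mpr (hX ⟨r, rfl⟩)
    have hn : ∀ n : ℕ, (Pi.single r (n • P₀) : Fib s) ∈ H := by
      intro n
      have : (Pi.single r (n • P₀) : Fib s) = n • Pi.single r P₀ :=
        map_nsmul (AddMonoidHom.single (fun _ : {x : Gm // x ^ 3 = s} => E) r) n P₀
      rw [this]
      exact H.nsmul_mem h0 n
    rcases (tame_single r).closed hHc with h | h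
    · intro R
      have : R ∈ (fun R : E => (Pi.single r R : Fib s)) ⁻¹' (H : Set (Fib s)) := by
        rw [h]; trivial
      exact this
    · exfalso
      apply Set.infinite_range_of_injective pow2_injective
      refine h.subset ?_
      rintro _ ⟨n, rfl⟩
      exact hn _
  rw [← hmem]
  have := Fintype.ofFinite {x : Gm // x ^ 3 = s}
  rw [← Finset.univ_sum_single f]
  exact H.sum_mem fun r _ => hall r (f r)

lemma irr2 (t : Gm) (f : Fib (t ^ 3)) :
    IsPreirreducible (Set.range (fun x : E × E =>
      Function.update (Function.update f (root t 0) x.2) (root t 1) x.1)) := by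
  refine irr_prod (fun b a => Function.update (Function.update f (root t 0) a) (root t 1) b) ?_ ?_
  · intro b
    have h01 : root t 0 ≠ root t 1 := fun h => by simpa using root_injective t h
    have : (fun a : E => Function.update (Function.update f (root t 0) a) (root t 1) b) =
        fun a : E => Function.update (Function.update f (root t 1) b) (root t 0) a := by
      funext a
      rw [Function.update_comm h01]
    rw [this]
    exact (tame_fib t _ 0).irreducible
  · intro a
    exact tame_fib t _ 1

lemma irr3 (t : Gm) : IsPreirreducible (Set.univ : Set (Fib (t ^ 3))) := by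
  have h := irr_prod (fun (c : E) (x : E × E) => Function.update (Function.update
    (Function.update (0 : Fib (t ^ 3)) (root t 0) x.2) (root t 1) x.1) (root t 2) c) ?_ ?_
  · convert h using 1
    ext f
    simp only [Set.mem_univ, Set.mem_range, true_iff]
    refine ⟨(f (root t 2), (f (root t 1), f (root t 0))), ?_⟩
    funext r
    obtain ⟨i, rfl⟩ := root_surjective t r
    simp only [update_root]
    fin_cases i <;> simp
  · intro c
    have h02 : root t 0 ≠ root t 2 := fun h => by simpa using root_injective t h
    have h12 : root t 1 ≠ root t 2 := fun h => by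
      have := root_injective t h
      revert this
      decide
    have : (fun x : E × E => Function.update (Function.update
        (Function.update (0 : Fib (t ^ 3)) (root t 0) x.2) (root t 1) x.1) (root t 2) c) =
        fun x : E × E => Function.update (Function.update
        (Function.update (0 : Fib (t ^ 3)) (root t 2) c) (root t 0) x.2) (root t 1) x.1 := by
      funext x
      rw [Function.update_comm h12, Function.update_comm h02]
    rw [this]
    exact irr2 t _
  · intro x
    exact tame_fib t _ 2

end

end Pool.Agent.H4Pink
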