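import Pool.Agent.H4Pink4

namespace Pool.Agent.H4Pink

noncomputable section

lemma axis_irreducible {s : Gm} (r : {x : Gm // x ^ 3 = s}) :
    IsIrreducible (axis r : Set (Fib s)) := by
  rw [axis_range]
  exact ⟨Set.range_nonempty _, (tame_single r).irreducible⟩

lemma plane_irreducible (t : Gm) : IsIrreducible {f : Fib (t ^ 3) | f (root t 2) = 0} := by
  refine ⟨⟨0, rfl⟩, ?_⟩
  convert irr2 t 0 using 1
  ext f
  constructor
  · intro hf
    refine ⟨(f (root t 1), f (root t 0)), ?_⟩
    funext r
    obtain ⟨i, rfl⟩ := root_surjective t r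
    have hf' : f (root t 2) = 0 := hf
    simp only [update_root]
    fin_cases i
    · simp
    · simp
    · simp [hf']
  · rintro ⟨⟨b, a⟩, rfl⟩
    change Function.update (Function.update (0 : Fib (t ^ 3)) (root t 0) a) (root t 1) b
      (root t 2) = 0
    rw [update_root, update_root]
    simp

lemma single_root (t : Gm) (k : Fin 3) (R : E) (i : Fin 3) :
    (Pi.single (root t k) R : Fib (t ^ 3)) (root t i) = if i = k then R else 0 :=
  update_root t 0 k R i

lemma dim_ge (t : Gm) : 3 ≤ topologicalKrullDim (Fib (t ^ 3)) := by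
  let Z : Fin 4 → TopologicalSpace.IrreducibleCloseds (Fib (t ^ 3)) :=
    ![⟨{0}, isIrreducible_singleton, isClosed_singleton⟩,
      ⟨axis (root t 0), axis_irreducible _, axis_closed _⟩,
      ⟨{f | f (root t 2) = 0}, plane_irreducible t, isClosed_fib_zero _⟩,
      ⟨Set.univ, ⟨⟨0, trivial⟩, irr3 t⟩, isClosed_univ⟩]
  have hZ : StrictMono Z := by
    rw [Fin.strictMono_iff_lt_succ]
    intro i
    fin_cases i
    · change (⟨{0}, isIrreducible_singleton, isClosed_singleton⟩ :
        TopologicalSpace.IrreducibleCloseds (Fib (t ^ 3))) <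
        ⟨axis (root t 0), axis_irreducible _, axis_closed _⟩
      rw [lt_iff_le_not_ge]
      refine ⟨?_, ?_⟩
      · intro f hf
        have : f = 0 := hf
        rw [this]
        exact (axis (root t 0)).zero_mem
      · intro h
        have h1 : (Pi.single (root t 0) P₀ : Fib (t ^ 3)) ∈ (axis (root t 0) : Set (Fib (t ^ 3))) := by
          rw [axis_range]
          exact ⟨_, rfl⟩
        have h2 : (Pi.single (root t 0) P₀ : Fib (t ^ 3)) = 0 := h h1
        have h3 := single_root t 0 P₀ 0
        rw [h2] at h3
        exact P₀_ne h3.symm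
    · change (⟨axis (root t 0), axis_irreducible _, axis_closed _⟩ :
        TopologicalSpace.IrreducibleCloseds (Fib (t ^ 3))) <
        ⟨{f | f (root t 2) = 0}, plane_irreducible t, isClosed_fib_zero _⟩
      rw [lt_iff_le_not_ge]
      refine ⟨?_, ?_⟩
      · intro f hf
        exact hf (root t 2) (fun h => by
          have := root_injective t h
          revert this
          decide)
      · intro h
        have h1 : (Pi.single (root t 1) P₀ : Fib (t ^ 3)) ∈ {f : Fib (t ^ 3) | f (root t 2) = 0} := by
          change (Pi.single (root t 1) P₀ : Fib (t ^ 3)) (root t 2) = 0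
          rw [single_root]
          simp
        have h2 : (Pi.single (root t 1) P₀ : Fib (t ^ 3)) (root t 1) = 0 :=
          h h1 (root t 1) (fun h => by
            have := root_injective t h
            revert this
            decide)
        rw [single_root] at h2
        exact P₀_ne h2
    · change (⟨{f | f (root t 2) = 0}, plane_irreducible t, isClosed_fib_zero _⟩ :
        TopologicalSpace.IrreducibleCloseds (Fib (t ^ 3))) <
        ⟨Set.univ, ⟨⟨0, trivial⟩, irr3 t⟩, isClosed_univ⟩
      rw [lt_iff_le_not_ge]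
      refine ⟨fun _ _ => trivial, ?_⟩
      intro h
      have h2 : (Pi.single (root t 2) P₀ : Fib (t ^ 3)) (root t 2) = 0 :=
        h (Set.mem_univ (Pi.single (root t 2) P₀ : Fib (t ^ 3)))
      rw [single_root] at h2
      exact P₀_ne h2
  exact Order.LTSeries.length_le_krullDim (LTSeries.mk 3 Z hZ)

lemma exists_root (s : Gm) : ∃ t : Gm, t ^ 3 = s := by
  obtain ⟨z, hz⟩ := IsAlgClosed.exists_pow_nat_eq (s : Kb) (n := 3) (by norm_num)
  have hz0 : z ≠ 0 := by
    rintro rfl
    rw [zero_pow (by norm_num)] at hz
    exact s.ne_zero hz.symm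
  refine ⟨Units.mk0 z hz0, ?_⟩
  apply Units.ext
  rw [Units.val_pow_eq_pow_val]
  exact hz

lemma card_roots (s : Gm) : Nat.card {r : Gm // r ^ 3 = s} = 3 := by
  obtain ⟨t, rfl⟩ := exists_root s
  have := Nat.card_congr (Equiv.ofBijective (root t) ⟨root_injective t, root_surjective t⟩)
  rw [← this]
  simp

lemma dim_ge' (s : Gm) : 3 ≤ topologicalKrullDim (Fib s) := by
  obtain ⟨t, rfl⟩ := exists_root s
  exact dim_ge t

/-- The product group structure of a fibre. -/
instance instAddGroupFib (s : Gm) : AddGroup (Fib s) := Pi.addGroup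

/-- The set `H` is the set of elements of a subgroup. -/
def IsSubgroup {s : Gm} (H : Set (Fib s)) : Prop :=
  ∃ H' : AddSubgroup (Fib s), (H' : Set (Fib s)) = H

/-- The set of points of the abelian scheme lying in a closed subgroup `H` of their fibre whose
codimension in the fibre is larger than `d`. -/
def special (d : ℕ) : Set AbS :=
  {a | ∃ H : Set (Fib a.base), IsSubgroup H ∧ IsClosed H ∧
    topologicalKrullDim H + d < topologicalKrullDim (Fib a.base) ∧ a.val ∈ H}

lemma X_special : X ⊆ special 1 := by
  rintro a ⟨r, hr⟩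
  refine ⟨axis r, ⟨axis r, rfl⟩, axis_closed r, ?_, ?_⟩
  · rw [axis_dim]
    refine lt_of_lt_of_le ?_ (dim_ge' a.base)
    norm_num
  · rw [axis_range]
    exact ⟨P₀, hr.symm⟩

end

end Pool.Agent.H4Pink
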