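import Pool.Agent.H4Pink5

/-!
# MP_28d749_ag: a curve in an abelian scheme over the multiplicative group

Let `E : y² = x³ - 2` and let `P₀ = (3, 5)`, a point of infinite order. Let `A → S = 𝔾_m` be the
restriction of scalars, along the covering `t ↦ t ^ 3` of `𝔾_m`, of the constant curve `E`. It is an
abelian scheme of relative dimension `3` over `ℚ`, and its fibre over `s` is the product of the
copies of `E` indexed by the three cube roots of `s`. Let `X` be the set of points with value `P₀` at
one cube root and `0` at the other two. It is an irreducible closed curve, isomorphic to the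
covering, it lies in no strict group subscheme, and all its points are in `A^{[>1]}`.
-/

namespace Pool.Agent.Results.MP_28d749_ag.CubeRootCover

open Pool.Agent.H4Pink

theorem result :
    -- each fibre is a product of three copies of `E`
    (∀ s : Gm, Nat.card {r : Gm // r ^ 3 = s} = 3) ∧
    -- `X` is an irreducible closed subset of dimension `1`
    IsIrreducible X ∧ IsClosed X ∧ topologicalKrullDim X = 1 ∧
    -- a closed subset that is a subgroup in each fibre and contains `X` is everything
    (∀ G : Set AbS, IsClosed G → (∀ s : Gm, IsSubgroup {f : Fib s | (⟨s, f⟩ : AbS) ∈ G}) →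
      X ⊆ G → G = Set.univ) ∧
    -- `X` is contained in `A^{[>1]}`, so its intersection with it is dense in `X`
    X ⊆ special 1 ∧ closure (X ∩ special 1) = X := by
  refine ⟨card_roots, X_irreducible, X_closed, X_dim, fun G h1 h2 h3 => full h1 h2 h3,
    X_special, ?_⟩
  rw [Set.inter_eq_left.mpr X_special]
  exact X_closed.closure_eq

end Pool.Agent.Results.MP_28d749_ag.CubeRootCover
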