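import Pool.Agent.H4PinkN

namespace Pool.Agent.H4PinkN

open Pool.Agent.H4Pink

noncomputable section

/-- The numbering of the `n`-th roots of `t ^ n`. -/
def rootEquiv (n : ℕ) [NeZero n] (t : Gm) : Fin n ≃ {r : Gm // r ^ n = t ^ n} :=
  Equiv.ofBijective (root n t) ⟨root_injective n t, root_surjective n t⟩

variable {n : ℕ} [NeZero n]

def mix (t : Gm) (k : ℕ) (g f : Fib n (t ^ n)) : Fib n (t ^ n) :=
  fun r => if ((rootEquiv n t).symm r : ℕ) < k then g r else f r

lemma mix_root (t : Gm) (k : ℕ) (g f : Fib n (t ^ n)) (i : Fin n) :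
    mix t k g f (root n t i) = if (i : ℕ) < k then g (root n t i) else f (root n t i) := by
  have : (rootEquiv n t).symm (root n t i) = i :=
    Equiv.ofBijective_symm_apply_apply (root n t) _ i
  simp only [mix, this]

lemma fib_ext {t : Gm} {f g : Fib n (t ^ n)} (h : ∀ i, f (root n t i) = g (root n t i)) : f = g := by
  funext r
  obtain ⟨i, rfl⟩ := root_surjective n t r
  exact h i

lemma irr_mix (t : Gm) (k : ℕ) (hk : k ≤ n) : ∀ f : Fib n (t ^ n),
    IsPreirreducible (Set.range (fun g : Fib n (t ^ n) => mix t k g f)) := by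
  induction k with
  | zero =>
    intro f
    have : Set.range (fun g : Fib n (t ^ n) => mix t 0 g f) = {f} := by
      ext g
      simp only [Set.mem_range, Set.mem_singleton_iff]
      constructor
      · rintro ⟨g', rfl⟩
        exact fib_ext fun i => by rw [mix_root]; simp
      · rintro rfl
        exact ⟨0, fib_ext fun i => by rw [mix_root]; simp⟩
    rw [this]
    exact isPreirreducible_singleton
  | succ k ih =>
    intro f
    have hkn : k < n := hk
    have h := irr_prod (fun (a : E) (g : Fib n (t ^ n)) =>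
      mix t k g (Function.update f (root n t ⟨k, hkn⟩) a)) (fun a => ih hkn.le _) ?_
    · convert h using 1
      ext g
      simp only [Set.mem_range]
      constructor
      · rintro ⟨g', rfl⟩
        refine ⟨(g' (root n t ⟨k, hkn⟩), g'), fib_ext fun i => ?_⟩
        rw [mix_root, mix_root, update_root]
        rcases lt_trichotomy (i : ℕ) k with h1 | h1 | h1
        · rw [if_pos h1, if_pos (by omega)]
        · have : i = ⟨k, hkn⟩ := Fin.ext h1
          subst this
          simp
        · have : i ≠ ⟨k, hkn⟩ := fun h' => by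
            rw [h'] at h1
            simp at h1
          rw [if_neg (by omega), if_neg this, if_neg (by omega)]
      · rintro ⟨⟨a, g'⟩, rfl⟩
        refine ⟨Function.update g' (root n t ⟨k, hkn⟩) a, fib_ext fun i => ?_⟩
        rw [mix_root, mix_root, update_root, update_root]
        rcases lt_trichotomy (i : ℕ) k with h1 | h1 | h1
        · have : i ≠ ⟨k, hkn⟩ := fun h' => by
            rw [h'] at h1
            simp at h1
          rw [if_pos (by omega), if_neg this, if_pos h1]
        · have : i = ⟨k, hkn⟩ := Fin.ext h1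
          subst this
          simp
        · have : i ≠ ⟨k, hkn⟩ := fun h' => by
            rw [h'] at h1
            simp at h1
          rw [if_neg (by omega), if_neg (by omega)]
          simp [this]
    · intro g
      have : (fun a : E => mix t k g (Function.update f (root n t ⟨k, hkn⟩) a)) =
          fun a : E => Function.update (mix t k g f) (root n t ⟨k, hkn⟩) a := by
        funext a
        refine fib_ext fun i => ?_
        rw [mix_root, update_root, update_root, mix_root]
        rcases lt_trichotomy (i : ℕ) k with h1 | h1 | h1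
        · have : i ≠ ⟨k, hkn⟩ := fun h' => by
            rw [h'] at h1
            simp at h1
          rw [if_pos h1, if_neg this, if_pos h1]
        · have : i = ⟨k, hkn⟩ := Fin.ext h1
          subst this
          simp
        · have : i ≠ ⟨k, hkn⟩ := fun h' => by
            rw [h'] at h1
            simp at h1
          rw [if_neg (by omega), if_neg this, if_neg this, if_neg (by omega)]
      rw [this]
      exact tame_fib t _ _

lemma flag_irreducible (t : Gm) (k : ℕ) (hk : k ≤ n) :
    IsIrreducible {g : Fib n (t ^ n) | ∀ i : Fin n, k ≤ (i : ℕ) → g (root n t i) = 0} := by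
  refine ⟨⟨0, fun _ _ => rfl⟩, ?_⟩
  convert irr_mix t k hk 0 using 1
  ext g
  constructor
  · intro hg
    refine ⟨g, fib_ext fun i => ?_⟩
    simp only [mix_root]
    by_cases h : (i : ℕ) < k
    · rw [if_pos h]
    · rw [if_neg h]
      exact (hg i (not_lt.mp h)).symm
  · rintro ⟨g', rfl⟩ i hi
    simp only [mix_root]
    rw [if_neg (not_lt.mpr hi)]
    rfl

lemma flag_closed (t : Gm) (k : ℕ) :
    IsClosed {g : Fib n (t ^ n) | ∀ i : Fin n, k ≤ (i : ℕ) → g (root n t i) = 0} := by
  have : {g : Fib n (t ^ n) | ∀ i : Fin n, k ≤ (i : ℕ) → g (root n t i) = 0} =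
      ⋂ i : Fin n, ⋂ _ : k ≤ (i : ℕ), {g : Fib n (t ^ n) | g (root n t i) = 0} := by
    ext g
    simp only [Set.mem_iInter]
    rfl
  rw [this]
  exact isClosed_iInter fun i => isClosed_iInter fun _ => isClosed_fib_zero _

lemma single_root (t : Gm) (k : Fin n) (R : E) (i : Fin n) :
    (Pi.single (root n t k) R : Fib n (t ^ n)) (root n t i) = if i = k then R else 0 :=
  update_root t 0 k R i

lemma dim_ge (t : Gm) : (n : WithBot ℕ∞) ≤ topologicalKrullDim (Fib n (t ^ n)) := by
  let Z : Fin (n + 1) → TopologicalSpace.IrreducibleCloseds (Fib n (t ^ n)) := fun k =>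
    ⟨{g | ∀ i : Fin n, (k : ℕ) ≤ (i : ℕ) → g (root n t i) = 0},
      flag_irreducible t k (Nat.lt_succ_iff.mp k.2), flag_closed t k⟩
  have hZ : StrictMono Z := by
    intro k l hkl
    rw [lt_iff_le_not_ge]
    have hkl' : (k : ℕ) < (l : ℕ) := hkl
    have hkn : (k : ℕ) < n := lt_of_lt_of_le hkl' (Nat.lt_succ_iff.mp l.2)
    refine ⟨?_, ?_⟩
    · intro g hg i hi
      exact hg i (hkl'.le.trans hi)
    · intro h
      have h1 : (Pi.single (root n t ⟨k, hkn⟩) P₀ : Fib n (t ^ n)) ∈
          {g : Fib n (t ^ n) | ∀ i : Fin n, (l : ℕ) ≤ (i : ℕ) → g (root n t i) = 0} := by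
        intro i hi
        rw [single_root, if_neg]
        intro h'
        rw [h'] at hi
        simp only at hi
        omega
      have h2 : (Pi.single (root n t ⟨k, hkn⟩) P₀ : Fib n (t ^ n)) (root n t ⟨k, hkn⟩) = 0 :=
        h h1 ⟨k, hkn⟩ le_rfl
      rw [single_root, if_pos rfl] at h2
      exact P₀_ne h2
  exact Order.LTSeries.length_le_krullDim (LTSeries.mk n Z hZ)

lemma exists_root (s : Gm) : ∃ t : Gm, t ^ n = s := by
  obtain ⟨z, hz⟩ := IsAlgClosed.exists_pow_nat_eq (s : Kb) (n := n) (NeZero.pos n)
  have hz0 : z ≠ 0 := by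
    rintro rfl
    rw [zero_pow (NeZero.ne n)] at hz
    exact s.ne_zero hz.symm
  refine ⟨Units.mk0 z hz0, ?_⟩
  apply Units.ext
  exact hz

variable (n) in
lemma card_roots (s : Gm) : Nat.card {r : Gm // r ^ n = s} = n := by
  obtain ⟨t, rfl⟩ := exists_root (n := n) s
  have := Nat.card_congr (rootEquiv n t)
  rw [← this]
  simp

lemma dim_ge' (s : Gm) : (n : WithBot ℕ∞) ≤ topologicalKrullDim (Fib n s) := by
  obtain ⟨t, rfl⟩ := exists_root (n := n) s
  exact dim_ge t

/-- The product group structure of a fibre. -/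
instance instAddGroupFib (n : ℕ) (s : Gm) : AddGroup (Fib n s) := Pi.addGroup

omit [NeZero n] in
/-- The set `H` is the set of elements of a subgroup. -/
def IsSubgroup {s : Gm} (H : Set (Fib n s)) : Prop :=
  ∃ H' : AddSubgroup (Fib n s), (H' : Set (Fib n s)) = H

/-- The set of points of the abelian scheme lying in a closed subgroup `H` of their fibre whose
codimension in the fibre is larger than `d`. -/
def special (n : ℕ) [NeZero n] (d : ℕ) : Set (AbS n) :=
  {a | ∃ H : Set (Fib n a.base), IsSubgroup H ∧ IsClosed H ∧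
    topologicalKrullDim H + d < topologicalKrullDim (Fib n a.base) ∧ a.val ∈ H}

lemma X_special (N : ℕ) : X (N + 2) ⊆ special (N + 2) N := by
  rintro a ⟨r, hr⟩
  refine ⟨axis r, ⟨axis r, rfl⟩, axis_closed r, ?_, ?_⟩
  · rw [axis_dim]
    refine lt_of_lt_of_le ?_ (dim_ge' a.base)
    have : ((1 + N : ℕ) : WithBot ℕ∞) < ((N + 2 : ℕ) : WithBot ℕ∞) := by
      exact_mod_cast (by omega : 1 + N < N + 2)
    exact_mod_cast this
  · rw [axis_range]
    exact ⟨P₀, hr.symm⟩

end

end Pool.Agent.H4PinkN
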