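import Pool.Agent.H4Pink2

/-!
# The restriction of scalars of a constant elliptic curve along the `n`-th power map of the
multiplicative group, and a curve in it
-/

namespace Pool.Agent.H4PinkN

open Pool.Agent.H4Pink

noncomputable section


/-- The points of the multiplicative group. -/
abbrev Gm : Type := Kbˣ

instance instMonoidGm : Monoid Gm := Units.instMonoid

lemma exists_zeta (n : ℕ) [NeZero n] : ∃ z : Gm, IsPrimitiveRoot z n := by
  have : NeZero (n : Kb) := NeZero.charZero
  obtain ⟨z, hz⟩ := HasEnoughRootsOfUnity.exists_primitiveRoot Kb n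
  refine ⟨(hz.isUnit (NeZero.ne n)).unit, ?_⟩
  rw [← IsPrimitiveRoot.coe_units_iff]
  exact hz

/-- A primitive `n`-th root of unity. -/
def zeta (n : ℕ) [NeZero n] : Gm := Classical.choose (exists_zeta n)

lemma zeta_prim (n : ℕ) [NeZero n] : IsPrimitiveRoot (zeta n) n :=
  Classical.choose_spec (exists_zeta n)

variable {n : ℕ}

/-- The fibre over `s` of the restriction of scalars of the constant curve `E` along the
covering `t ↦ t ^ n` of the multiplicative group: the product of copies of `E` indexed by the
`n`-th roots of `s`, with its product group structure. -/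
abbrev Fib (n : ℕ) (s : Gm) : Type := {r : Gm // r ^ n = s} → E

/-- The points of the abelian scheme: pairs of a point of the base and a point of its fibre. -/
structure AbS (n : ℕ) where
  base : Gm
  val : Fib n base

/-- The points of the pull-back of the abelian scheme along `t ↦ t ^ n`. -/
structure Cov (n : ℕ) where
  base : Gm
  val : Fib n (base ^ n)

variable [NeZero n]

/-- The `n`-th root `zeta n ^ i * t` of `t ^ n`. -/
def root (n : ℕ) [NeZero n] (t : Gm) (i : Fin n) : {r : Gm // r ^ n = t ^ n} :=
  ⟨zeta n ^ (i : ℕ) * t, by rw [mul_pow, ← pow_mul, mul_comm (i : ℕ) n, pow_mul,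
    (zeta_prim n).pow_eq_one, one_pow, one_mul]⟩

/-- Affine coordinates of a point of the pull-back, after a translation by `- Q i` of the value
at the `i`-th `n`-th root: the `n` `x`-coordinates, the `n` `y`-coordinates, and the
coordinate on the multiplicative group. -/
def vec (Q : Fin n → E) (c : Cov n) : Fin n ⊕ Fin n ⊕ Unit → Kb :=
  Sum.elim (fun i => xc (c.val (root n c.base i) - Q i))
    (Sum.elim (fun i => yc (c.val (root n c.base i) - Q i)) (fun _ => (c.base : Kb)))

/-- The principal open set, attached to a polynomial `F`, in the translate by `Q` of the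
affine open set where none of the `n` points is at infinity. -/
def basicOpen (Q : Fin n → E) (F : MvPolynomial (Fin n ⊕ Fin n ⊕ Unit) Kb) : Set (Cov n) :=
  {c | (∀ i, c.val (root n c.base i) ≠ Q i) ∧ MvPolynomial.eval (vec Q c) F ≠ 0}

/-- The Zariski topology of the pull-back. -/
instance : TopologicalSpace (Cov n) :=
  TopologicalSpace.generateFrom {U | ∃ Q F, U = basicOpen Q F}

/-- The finite étale projection from the pull-back onto the abelian scheme. -/
def proj (c : Cov n) : AbS n := ⟨c.base ^ n, c.val⟩

/-- The Zariski topology of the abelian scheme. -/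
instance : TopologicalSpace (AbS n) := TopologicalSpace.coinduced proj inferInstance

/-- The Zariski topology of a fibre. -/
instance (s : Gm) : TopologicalSpace (Fib n s) :=
  TopologicalSpace.induced (fun f => (⟨s, f⟩ : AbS n)) inferInstance

lemma continuous_proj : Continuous (proj : Cov n → AbS n) := continuous_coinduced_rng

lemma continuous_mk (s : Gm) : Continuous (fun f : Fib n s => (⟨s, f⟩ : AbS n)) :=
  continuous_induced_dom

lemma isOpen_basic (Q : Fin n → E) (F : MvPolynomial (Fin n ⊕ Fin n ⊕ Unit) Kb) :
    IsOpen (basicOpen Q F) := TopologicalSpace.isOpen_generateFrom_of_mem ⟨Q, F, rfl⟩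

lemma P₀_ne : P₀ ≠ 0 := by
  unfold P₀
  simp

instance : Infinite E := Infinite.of_injective _ pow2_injective

instance : Infinite Gm := by
  have : Infinite Kb := inferInstance
  have h : (Set.range (Units.val : Gm → Kb)).Infinite := by
    have : (Set.range (Units.val : Gm → Kb)) = {0}ᶜ := by
      ext x
      simp only [Set.mem_range, Set.mem_compl_iff, Set.mem_singleton_iff]
      constructor
      · rintro ⟨u, rfl⟩; exact u.ne_zero
      · intro hx; exact ⟨Units.mk0 x hx, rfl⟩
    rw [this]
    exact Set.Finite.infinite_compl (Set.finite_singleton 0)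
  by_contra hfin
  rw [not_infinite_iff_finite] at hfin
  exact h (Set.finite_range _)

lemma root_zero (n : ℕ) [NeZero n] (t : Gm) : root n t 0 = ⟨t, rfl⟩ := by
  apply Subtype.ext
  simp [root]

lemma root_injective (n : ℕ) [NeZero n] (t : Gm) : Function.Injective (root n t) := by
  intro i j h
  have h1 : zeta n ^ (i : ℕ) * t = zeta n ^ (j : ℕ) * t := congrArg Subtype.val h
  have h2 : zeta n ^ (i : ℕ) = zeta n ^ (j : ℕ) := mul_right_cancel h1
  exact Fin.ext ((zeta_prim n).pow_inj i.2 j.2 h2)

lemma root_surjective (n : ℕ) [NeZero n] (t : Gm) : Function.Surjective (root n t) := by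
  rintro ⟨r, hr⟩
  have h1 : ((r / t : Gm) : Kb) ^ n = 1 := by
    have : (r / t) ^ n = 1 := by rw [div_pow, hr, div_self']
    rw [← Units.val_pow_eq_pow_val, this, Units.val_one]
  have hz : IsPrimitiveRoot (zeta n : Kb) n := IsPrimitiveRoot.coe_units_iff.mpr (zeta_prim n)
  obtain ⟨i, hi, h2⟩ := hz.eq_pow_of_pow_eq_one h1
  refine ⟨⟨i, hi⟩, ?_⟩
  apply Subtype.ext
  simp only [root]
  have h3 : zeta n ^ i = r / t := by
    apply Units.ext
    push_cast
    push_cast at h2
    exact h2
  rw [h3, div_mul_cancel]

lemma finite_roots (s : Gm) : {t : Gm | t ^ n = s}.Finite := by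
  rcases Set.eq_empty_or_nonempty {t : Gm | t ^ n = s} with h | ⟨t, ht⟩
  · rw [h]; exact Set.finite_empty
  · refine (Set.finite_range (fun i => (root n t i).1)).subset ?_
    intro u hu
    obtain ⟨i, hi⟩ := root_surjective n t ⟨u, by
      have h1 : t ^ n = s := ht
      have h2 : u ^ n = s := hu
      rw [h1, h2]⟩
    exact ⟨i, congrArg Subtype.val hi⟩

instance (s : Gm) : Finite {r : Gm // r ^ n = s} := (finite_roots s).to_subtype

lemma isClosed_coord (j : Fin n) (R : E) : IsClosed {c : Cov n | c.val (root n c.base j) = R} := by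
  rw [← isOpen_compl_iff, isOpen_iff_forall_mem_open]
  intro c hc
  refine ⟨basicOpen (fun i => if i = j then R else c.val (root n c.base i) + P₀) 1, ?_,
    isOpen_basic _ _, ?_⟩
  · rintro c' ⟨h, -⟩
    have := h j
    simp only [if_true] at this
    exact this
  · refine ⟨?_, by simp⟩
    intro i
    by_cases hij : i = j
    · subst hij
      simp only [if_true]
      exact hc
    · simp only [hij, if_false]
      intro h
      exact P₀_ne (by simpa using h)

lemma isClosed_base (t : Gm) : IsClosed {c : Cov n | c.base = t} := by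
  rw [← isOpen_compl_iff, isOpen_iff_forall_mem_open]
  intro c hc
  refine ⟨basicOpen (fun i => c.val (root n c.base i) + P₀)
    (MvPolynomial.X (Sum.inr (Sum.inr ())) - MvPolynomial.C (t : Kb)), ?_, isOpen_basic _ _, ?_⟩
  · rintro c' ⟨-, h⟩
    intro h'
    apply h
    have h'' : c'.base = t := h'
    simp [vec, h'']
  · refine ⟨?_, ?_⟩
    · intro i h
      exact P₀_ne (by simpa using h)
    · simp only [vec, map_sub, MvPolynomial.eval_X, MvPolynomial.eval_C, Sum.elim_inr]
      intro h
      apply hc
      exact Units.ext (sub_eq_zero.mp h)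

lemma cov_ext {c c' : Cov n} (h : c.base = c'.base)
    (h' : ∀ i, c.val (root n c.base i) = c'.val (root n c'.base i)) : c = c' := by
  obtain ⟨t, f⟩ := c
  obtain ⟨t', f'⟩ := c'
  simp only at h
  subst h
  have : f = f' := by
    funext r
    obtain ⟨i, rfl⟩ := root_surjective n t r
    exact h' i
  rw [this]

instance : T1Space (Cov n) := by
  refine ⟨fun c => ?_⟩
  have : ({c} : Set (Cov n)) = {c' | c'.base = c.base} ∩
      ⋂ i, {c' | c'.val (root n c'.base i) = c.val (root n c.base i)} := by
    ext c'
    constructor
    · rintro rfl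
      refine ⟨rfl, ?_⟩
      simp only [Set.mem_iInter]
      intro i
      rfl
    · rintro ⟨h1, h2⟩
      simp only [Set.mem_iInter] at h2
      exact cov_ext h1 h2
  rw [this]
  exact (isClosed_base _).inter (isClosed_iInter fun i => isClosed_coord i _)

instance : T1Space (AbS n) := by
  refine ⟨fun a => ?_⟩
  rw [← isOpen_compl_iff, isOpen_coinduced, Set.preimage_compl, isOpen_compl_iff]
  apply Set.Finite.isClosed
  refine Set.Finite.of_finite_image (f := Cov.base) ((finite_roots (n := n) a.base).subset ?_) ?_
  · rintro _ ⟨c, hc, rfl⟩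
    have : proj c = a := hc
    rw [← this]
    rfl
  · intro c hc c' hc' h
    obtain ⟨t, f⟩ := c
    obtain ⟨t', f'⟩ := c'
    simp only at h
    subst h
    have h1 : proj ⟨t, f⟩ = proj ⟨t, f'⟩ := by
      rw [show proj ⟨t, f⟩ = a from hc, show proj ⟨t, f'⟩ = a from hc']
    simp only [proj, AbS.mk.injEq, heq_eq_eq, true_and] at h1
    rw [h1]

instance (s : Gm) : T1Space (Fib n s) := by
  refine t1Space_of_injective_of_continuous (f := fun f : Fib n s => (⟨s, f⟩ : AbS n)) ?_
    (continuous_mk s)
  intro f f' h
  simpa using h

lemma update_root (t : Gm) (f : Fib n (t ^ n)) (k : Fin n) (R : E) (i : Fin n) :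
    Function.update f (root n t k) R (root n t i) = if i = k then R else f (root n t i) := by
  by_cases h : i = k
  · subst h; simp
  · rw [Function.update_of_ne (fun h' => h (root_injective n t h')), if_neg h]

lemma tame_line (t : Gm) (f : Fib n (t ^ n)) (k : Fin n) :
    Tame (fun R : E => (⟨t, Function.update f (root n t k) R⟩ : Cov n)) := by
  apply tame_generateFrom
  rintro _ ⟨Q, F, rfl⟩
  by_cases hQ : ∃ i, i ≠ k ∧ f (root n t i) = Q i
  · left
    obtain ⟨i, hik, hi⟩ := hQ
    ext R
    simp only [Set.mem_empty_iff_false, iff_false]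
    rintro ⟨h, -⟩
    apply h i
    change Function.update f (root n t k) R (root n t i) = Q i
    rw [update_root, if_neg hik]
    exact hi
  · push Not at hQ
    have hreg : Reg (fun R' : E =>
        MvPolynomial.eval (vec Q ⟨t, Function.update f (root n t k) (R' + Q k)⟩) F) := by
      induction F using MvPolynomial.induction_on with
      | C a => simpa using Reg.const a
      | add p q hp hq => simpa using hp.add hq
      | mul_X p n hp =>
        simp only [map_mul, MvPolynomial.eval_X]
        refine hp.mul ?_
        rcases n with i | i | i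
        · by_cases hik : i = k
          · subst hik
            simpa [vec, update_root] using Reg.xc
          · simpa [vec, update_root, hik] using Reg.const _
        · by_cases hik : i = k
          · subst hik
            simpa [vec, update_root] using Reg.yc
          · simpa [vec, update_root, hik] using Reg.const _
        · simpa [vec] using Reg.const _
    have hset : (fun R : E => (⟨t, Function.update f (root n t k) R⟩ : Cov n)) ⁻¹' basicOpen Q F =
        (fun R => R - Q k) ⁻¹' {R' : E | R' ≠ 0 ∧
          MvPolynomial.eval (vec Q ⟨t, Function.update f (root n t k) (R' + Q k)⟩) F ≠ 0} := by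
      ext R
      simp only [Set.mem_preimage, basicOpen, Set.mem_ofPred_eq, sub_add_cancel]
      constructor
      · rintro ⟨h1, h2⟩
        refine ⟨?_, h2⟩
        have := h1 k
        rw [update_root, if_pos rfl] at this
        exact sub_ne_zero.mpr this
      · rintro ⟨h1, h2⟩
        refine ⟨?_, h2⟩
        intro i
        rw [update_root]
        by_cases hik : i = k
        · subst hik
          rw [if_pos rfl]
          exact sub_ne_zero.mp h1
        · rw [if_neg hik]
          exact hQ i hik
    rw [hset]
    rcases hreg.finite with h | h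
    · left
      rw [h, Set.preimage_empty]
    · right
      rw [← Set.preimage_compl]
      exact h.preimage (fun a _ b _ hab => sub_left_injective hab)

lemma tame_fib (t : Gm) (f : Fib n (t ^ n)) (k : Fin n) :
    Tame (fun R : E => Function.update f (root n t k) R) := by
  intro U hU
  obtain ⟨V, hV, rfl⟩ := isOpen_induced_iff.mp hU
  exact (tame_line t f k).comp continuous_proj V hV

lemma tame_base (R : E) : Tame (fun t : Gm => (⟨t, Function.update 0 (root n t 0) R⟩ : Cov n)) := by
  apply tame_generateFrom
  rintro _ ⟨Q, F, rfl⟩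
  by_cases hQ : ∃ i, (if i = 0 then R else 0) = Q i
  · left
    obtain ⟨i, hi⟩ := hQ
    ext t
    simp only [Set.mem_empty_iff_false, iff_false]
    rintro ⟨h, -⟩
    apply h i
    change Function.update (0 : Fib n (t ^ n)) (root n t 0) R (root n t i) = Q i
    rw [update_root]
    exact hi
  · push Not at hQ
    obtain ⟨p, hp⟩ : ∃ p : Polynomial Kb, ∀ t : Gm,
        MvPolynomial.eval (vec Q ⟨t, Function.update 0 (root n t 0) R⟩) F = p.eval (t : Kb) := by
      clear hQ
      induction F using MvPolynomial.induction_on with
      | C a => exact ⟨Polynomial.C a, fun t => by simp⟩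
      | add p q hp hq =>
        obtain ⟨p', hp'⟩ := hp
        obtain ⟨q', hq'⟩ := hq
        exact ⟨p' + q', fun t => by simp [hp', hq']⟩
      | mul_X p n hp =>
        obtain ⟨p', hp'⟩ := hp
        rcases n with i | i | i
        · exact ⟨p' * Polynomial.C (xc ((if i = 0 then R else 0) - Q i)), fun t => by
            rw [map_mul, MvPolynomial.eval_X, hp', Polynomial.eval_mul, Polynomial.eval_C]
            simp [vec, update_root]⟩
        · exact ⟨p' * Polynomial.C (yc ((if i = 0 then R else 0) - Q i)), fun t => by
            rw [map_mul, MvPolynomial.eval_X, hp', Polynomial.eval_mul, Polynomial.eval_C]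
            simp [vec, update_root]⟩
        · exact ⟨p' * Polynomial.X, fun t => by
            rw [map_mul, MvPolynomial.eval_X, hp', Polynomial.eval_mul, Polynomial.eval_X]
            simp [vec]⟩
    by_cases hp0 : p = 0
    · left
      ext t
      simp only [Set.mem_empty_iff_false, iff_false]
      rintro ⟨-, h⟩
      apply h
      rw [hp, hp0]
      simp
    · right
      refine ((p.roots.toFinset.finite_toSet).preimage (f := (Units.val : Gm → Kb))
        (fun a _ b _ hab => Units.ext hab)).subset ?_
      intro t ht
      simp only [Set.mem_preimage, Finset.mem_coe, Multiset.mem_toFinset,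
        Polynomial.mem_roots hp0]
      by_contra hne
      apply ht
      refine ⟨?_, ?_⟩
      · intro i
        change Function.update (0 : Fib n (t ^ n)) (root n t 0) R (root n t i) ≠ Q i
        rw [update_root]
        exact hQ i
      · rw [hp]
        exact hne



/-- The closed subset of points over `r ^ n` whose component at the `n`-th root `r` is zero. -/
lemma isClosed_zero_at (r : Gm) :
    IsClosed {a : AbS n | a.base = r ^ n ∧ ∀ r' : {x : Gm // x ^ n = a.base}, r'.1 = r → a.val r' = 0} := by
  rw [← isOpen_compl_iff, isOpen_coinduced, Set.preimage_compl, isOpen_compl_iff]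
  have : proj ⁻¹' {a : AbS n | a.base = r ^ n ∧
      ∀ r' : {x : Gm // x ^ n = a.base}, r'.1 = r → a.val r' = 0} =
      ⋃ k : Fin n, ({c : Cov n | c.base = (zeta n ^ (k : ℕ))⁻¹ * r} ∩
        {c : Cov n | c.val (root n c.base k) = 0}) := by
    ext c
    simp only [Set.mem_iUnion]
    constructor
    · rintro ⟨h1, h2⟩
      obtain ⟨k, hk⟩ := root_surjective n c.base ⟨r, h1.symm⟩
      refine ⟨k, ?_, ?_⟩
      · have h3 : zeta n ^ (k : ℕ) * c.base = r := congrArg Subtype.val hk
        change c.base = (zeta n ^ (k : ℕ))⁻¹ * r
        rw [← h3, inv_mul_cancel_left]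
      · exact h2 (root n c.base k) (congrArg Subtype.val hk)
    · rintro ⟨k, h1, h2⟩
      have h3 : (root n c.base k).1 = r := by
        have h1' : c.base = (zeta n ^ (k : ℕ))⁻¹ * r := h1
        simp only [root]
        rw [h1', mul_inv_cancel_left]
      refine ⟨?_, ?_⟩
      · change c.base ^ n = r ^ n
        rw [← h3]
        exact (root n c.base k).2.symm
      · intro r' hr'
        have h4 : r' = root n c.base k := Subtype.ext (hr'.trans h3.symm)
        rw [h4]
        exact h2
  rw [this]
  exact isClosed_iUnion_of_finite fun k => (isClosed_base _).inter (isClosed_coord k 0)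

lemma isClosed_fib_zero {s : Gm} (r : {x : Gm // x ^ n = s}) :
    IsClosed {f : Fib n s | f r = 0} := by
  have := (isClosed_zero_at (n := n) r.1).preimage (continuous_mk s)
  convert this using 1
  ext f
  constructor
  · intro h
    refine ⟨r.2.symm, ?_⟩
    intro r' hr'
    have : r' = r := Subtype.ext hr'
    rw [this]
    exact h
  · rintro ⟨-, h⟩
    exact h r rfl

/-- The curve `X`: the points of the fibres with value `P₀` at one `n`-th root and `0` at the
others. -/
def X (n : ℕ) : Set (AbS n) := {a | ∃ r : {x : Gm // x ^ n = a.base}, a.val = Pi.single r P₀}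

lemma X_closed : IsClosed (X n) := by
  rw [← isOpen_compl_iff, isOpen_coinduced, Set.preimage_compl, isOpen_compl_iff]
  have : proj ⁻¹' (X n) = ⋃ k : Fin n, ⋂ j : Fin n,
      {c : Cov n | c.val (root n c.base j) = if j = k then P₀ else 0} := by
    ext c
    simp only [Set.mem_iUnion, Set.mem_iInter]
    constructor
    · rintro ⟨r, hr⟩
      obtain ⟨k, hk⟩ := root_surjective n c.base r
      refine ⟨k, fun j => ?_⟩
      have hr' : c.val = Pi.single r P₀ := hr
      change c.val (root n c.base j) = _
      rw [hr', ← hk]
      exact update_root c.base 0 k P₀ j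
    · rintro ⟨k, hk⟩
      refine ⟨root n c.base k, ?_⟩
      change c.val = _
      funext r
      obtain ⟨j, rfl⟩ := root_surjective n c.base r
      have h1 : c.val (root n c.base j) = if j = k then P₀ else 0 := hk j
      rw [h1]
      exact (update_root c.base 0 k P₀ j).symm
  rw [this]
  exact isClosed_iUnion_of_finite fun k => isClosed_iInter fun j => isClosed_coord j _

/-- Parametrization of `X`. -/
def phi (n : ℕ) [NeZero n] (t : Gm) : AbS n := proj ⟨t, Function.update 0 (root n t 0) P₀⟩

lemma phi_tame : Tame (phi n) := (tame_base P₀).comp continuous_proj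

lemma X_range : X n = Set.range (phi n) := by
  ext a
  constructor
  · obtain ⟨s, f⟩ := a
    rintro ⟨⟨r, hr⟩, h⟩
    simp only at h hr
    subst hr
    refine ⟨r, ?_⟩
    simp only [phi, proj]
    rw [h, root_zero]
    rfl
  · rintro ⟨t, rfl⟩
    exact ⟨root n t 0, rfl⟩

lemma phi_injective : Function.Injective (phi n) := by
  intro t u h
  have key : ∀ t x : Gm, (∃ hx : x ^ n = (phi n t).base, (phi n t).val ⟨x, hx⟩ ≠ 0) → x = t := by
    rintro t x ⟨hx, h⟩
    by_contra hne
    apply h
    change Function.update (0 : Fib n (t ^ n)) (root n t 0) P₀ ⟨x, hx⟩ = 0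
    rw [Function.update_of_ne]
    · rfl
    · rw [root_zero]
      intro h'
      exact hne (congrArg Subtype.val h')
  apply key u t
  rw [← h]
  refine ⟨rfl, ?_⟩
  change Function.update (0 : Fib n (t ^ n)) (root n t 0) P₀ ⟨t, rfl⟩ ≠ 0
  rw [root_zero, Function.update_self]
  exact P₀_ne

lemma X_irreducible : IsIrreducible (X n) := by
  rw [X_range]
  exact ⟨Set.range_nonempty _, phi_tame.irreducible⟩

lemma X_dim : topologicalKrullDim (X n) = 1 := dim_one' (phi n) phi_injective phi_tame (X n) X_range

/-- The elements of the fibre with value `0` outside the `n`-th root `r`. -/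
def axis {s : Gm} (r : {x : Gm // x ^ n = s}) : AddSubgroup (Fib n s) where
  carrier := {f | ∀ r', r' ≠ r → f r' = 0}
  zero_mem' := fun _ _ => rfl
  add_mem' := by
    intro f g hf hg r' hr'
    simp [hf r' hr', hg r' hr']
  neg_mem' := by
    intro f hf r' hr'
    simp [hf r' hr']

lemma axis_closed {s : Gm} (r : {x : Gm // x ^ n = s}) : IsClosed (axis r : Set (Fib n s)) := by
  have : (axis r : Set (Fib n s)) = ⋂ r' : {x : Gm // x ^ n = s}, ⋂ _ : r' ≠ r,
      {f : Fib n s | f r' = 0} := by
    ext f
    simp only [Set.mem_iInter]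
    rfl
  rw [this]
  exact isClosed_iInter fun r' => isClosed_iInter fun _ => isClosed_fib_zero r'

lemma tame_single {s : Gm} (r : {x : Gm // x ^ n = s}) :
    Tame (fun R : E => (Pi.single r R : Fib n s)) := by
  obtain ⟨r, rfl⟩ := r
  have := tame_fib (n := n) r 0 0
  rw [root_zero] at this
  exact this

lemma axis_range {s : Gm} (r : {x : Gm // x ^ n = s}) :
    (axis r : Set (Fib n s)) = Set.range (fun R : E => (Pi.single r R : Fib n s)) := by
  ext f
  constructor
  · intro hf
    refine ⟨f r, ?_⟩
    funext r'
    by_cases h : r' = r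
    · subst h; simp
    · simp only [Pi.single_eq_of_ne h]
      exact (hf r' h).symm
  · rintro ⟨R, rfl⟩
    intro r' hr'
    simp only [Pi.single_eq_of_ne hr']

lemma axis_dim {s : Gm} (r : {x : Gm // x ^ n = s}) :
    topologicalKrullDim (axis r : Set (Fib n s)) = 1 :=
  dim_one' _ (Pi.single_injective r) (tame_single r) _ (axis_range r)

lemma full {G : Set (AbS n)} (hG : IsClosed G)
    (hgrp : ∀ s : Gm, ∃ H : AddSubgroup (Fib n s), (H : Set (Fib n s)) = {f | (⟨s, f⟩ : AbS n) ∈ G})
    (hX : X n ⊆ G) : G = Set.univ := by
  ext ⟨s, f⟩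
  simp only [Set.mem_univ, iff_true]
  obtain ⟨H, hH⟩ := hgrp s
  have hmem : ∀ g : Fib n s, g ∈ H ↔ (⟨s, g⟩ : AbS n) ∈ G := by
    intro g
    have : g ∈ (H : Set (Fib n s)) ↔ g ∈ {f : Fib n s | (⟨s, f⟩ : AbS n) ∈ G} := by rw [hH]
    exact this
  have hHc : IsClosed (H : Set (Fib n s)) := by
    rw [hH]
    exact hG.preimage (continuous_mk s)
  have hall : ∀ (r : {x : Gm // x ^ n = s}) (R : E), (Pi.single r R : Fib n s) ∈ H := by
    intro r
    have h0 : (Pi.single r P₀ : Fib n s) ∈ H := (hmem _).mpr (hX ⟨r, rfl⟩)
    have hn : ∀ k : ℕ, (Pi.single r (k • P₀) : Fib n s) ∈ H := by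
      intro k
      have : (Pi.single r (k • P₀) : Fib n s) = k • Pi.single r P₀ :=
        map_nsmul (AddMonoidHom.single (fun _ : {x : Gm // x ^ n = s} => E) r) k P₀
      rw [this]
      exact H.nsmul_mem h0 k
    rcases (tame_single r).closed hHc with h | h
    · intro R
      have : R ∈ (fun R : E => (Pi.single r R : Fib n s)) ⁻¹' (H : Set (Fib n s)) := by
        rw [h]; trivial
      exact this
    · exfalso
      apply Set.infinite_range_of_injective pow2_injective
      refine h.subset ?_
      rintro _ ⟨k, rfl⟩
      exact hn _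
  rw [← hmem]
  have := Fintype.ofFinite {x : Gm // x ^ n = s}
  rw [← Finset.univ_sum_single f]
  exact H.sum_mem fun r _ => hall r (f r)

end

end Pool.Agent.H4PinkN
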