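import Pool.Statements.S00004
-- import your own Pool.Agent.* helpers here
import Pool.Agent.H638R3.IT.Sch

set_option autoImplicit false
open AlgebraicGeometry CategoryTheory
open Pool Pool.MP_00f3b1_ag

namespace Pool.Agent.S00004

/-- The negation of the preceding statement: Over an algebraically closed field of characteristic 0: an integral quasi-affine variety of dimension ≥2, homogeneous under its automorphisms and with only constant units, has automorphism group acting m-transitively on points for every m. -/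
theorem result :
    ¬ (∀ (K : Type) [Field K] [IsAlgClosed K] [CharZero K]
      (X : Scheme.{0}) (f : X ⟶ Spec (CommRingCat.of K)),
      IsIntegral X → LocallyOfFiniteType f → QuasiCompact f →
      IsOpenImmersion X.toSpecΓ →
      (2 : WithBot ℕ∞) ≤ topologicalKrullDim X →
      (∀ u : (Γ(X, ⊤))ˣ, ∃ c : K,
        ((Scheme.ΓSpecIso (CommRingCat.of K)).inv ≫ f.appTop).hom c = (u : Γ(X, ⊤))) →
      (∀ p q : {p : Spec (CommRingCat.of K) ⟶ X // p ≫ f = 𝟙 _},
        ∃ g : X ≅ X, g.hom ≫ f = f ∧ p.1 ≫ g.hom = q.1) →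
      ∀ (m : ℕ) (p q : Fin m → {p : Spec (CommRingCat.of K) ⟶ X // p ≫ f = 𝟙 _}),
        Function.Injective p → Function.Injective q →
        ∃ g : X ≅ X, g.hom ≫ f = f ∧ ∀ i, (p i).1 ≫ g.hom = (q i).1) := by
  intro H
  refine H638R3.IT.not_doubly (K := ℂ) (H ℂ (H638R3.IT.XX ℂ) (H638R3.IT.ff ℂ) ?_ ?_ ?_ ?_ ?_
    H638R3.IT.units_const H638R3.IT.homog)
  · infer_instance
  · exact H638R3.IT.lft_ff
  · infer_instance
  · infer_instance
  · exact H638R3.IT.dim_XX

end Pool.Agent.S00004
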