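import Pool.Statements.S00017
import Pool.Agent.H408R3.Pow2

set_option autoImplicit false
open Pool Pool.MP_0c67ff_ag

namespace Pool.Agent.S00017

/-- For every eventually constant g from ℕ to ℤ with g(t) ≥ 2 for t ≥ 1, there are a field k, a number n and a monomial ideal Q in k[x1..xn] such that the projective dimension of the module Q^t equals g(t) for every t ≥ 1. -/
theorem result :
    ∀ g : ℕ → ℤ, (∃ c : ℤ, ∃ N : ℕ, ∀ t ≥ N, g t = c) → (∀ t ≥ 1, 2 ≤ g t) →
      ∃ (k : Type) (_ : Field k) (n : ℕ) (s : Set (Fin n →₀ ℕ)),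
        ∀ t ≥ 1, ∀ m : ℕ,
          (CategoryTheory.HasProjectiveDimensionLE
            (ModuleCat.of (MvPolynomial (Fin n) k)
              ↥((Ideal.span ((fun e => MvPolynomial.monomial e (1 : k)) '' s)) ^ t)) m
            ↔ g t ≤ (m : ℤ)) := by
  rintro g ⟨c, N, hN⟩ hg2
  -- the data
  let T : ℕ := N + 1
  have hT : 1 ≤ T := by omega
  let G : ℕ → ℕ := fun s => (g (min s N + 1) - 1).toNat
  let p : ℕ := ∑ s ∈ Finset.range (N + 1), G s
  have hG1 : ∀ s, 1 ≤ G s := by
    intro s
    have h := hg2 (min s N + 1) (by omega)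
    show 1 ≤ (g (min s N + 1) - 1).toNat
    omega
  have hGp : ∀ s, G s ≤ p := by
    intro s
    have h1 : G s = G (min s N) := by
      show (g (min s N + 1) - 1).toNat = (g (min (min s N) N + 1) - 1).toNat
      rw [min_assoc, min_self]
    rw [h1]
    exact Finset.single_le_sum (f := G) (fun i _ => Nat.zero_le _)
      (Finset.mem_range.2 (by omega : min s N < N + 1))
  have hp : 1 ≤ p := (hG1 0).trans (hGp 0)
  refine ⟨ℚ, inferInstance, p + 2, H408R3.PDF.EE T p G 0, ?_⟩
  intro t ht m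
  obtain ⟨n, rfl⟩ : ∃ n, t = n + 1 := ⟨t - 1, by omega⟩
  have h := H408R3.PDF.pd_iff (K := ℚ) hp hT hG1 hGp n m
  refine Iff.trans h ?_
  have h2 := hg2 (n + 1) (by omega)
  have h3 : g (min (H408R3.PDF.ac T n) N + 1) = g (n + 1) := by
    have h4 : H408R3.PDF.ac T n = min n N := rfl
    rw [h4]
    rcases Nat.lt_or_ge n N with h5 | h5
    · congr 1; omega
    · rw [hN (n + 1) (by omega), hN _ (by omega)]
  have h6 : G (H408R3.PDF.ac T n) = (g (n + 1) - 1).toNat := by
    show (g (min (H408R3.PDF.ac T n) N + 1) - 1).toNat = _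
    rw [h3]
  rw [h6]
  omega

end Pool.Agent.S00017
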