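import Pool.Statements.S00019
import Pool.Agent.H379R3.SymF

set_option autoImplicit false
open Pool Pool.MP_0d2d15_ag

namespace Pool.Agent.S00019

open MvPolynomial H379R3.Sym in
lemma main {k : Type} [Field k] [CharP k 3] (s : k) (hs : s ≠ 0)
    (htr : ∀ c l : ℕ, 0 < c → c < 9 ^ l →
      s ^ (9 ^ l + c) + (s + 1) ^ (9 ^ l + c) + (s + 2) ^ (9 ^ l + c) ≠ 0) :
    ¬ ∃ p : ℕ, 0 < p ∧ ∃ N : ℕ, ∀ t : ℕ, N ≤ t → dep (Qs s (t + p)) = dep (Qs s t) := by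
  rintro ⟨p, hp, N, hN⟩
  -- choose `l` large
  have hmod : ∀ l : ℕ, ∃ t, 4 * t + 1 = 9 ^ l ∧ l ≤ t := by
    intro l
    induction l with
    | zero => exact ⟨0, by norm_num, le_rfl⟩
    | succ l ih =>
      obtain ⟨t, ht, hlt⟩ := ih
      exact ⟨9 * t + 2, by rw [pow_succ, ← ht]; ring, by omega⟩
  obtain ⟨t, ht, hlt⟩ := hmod (N + 4 * p + 1)
  have h1 : N ≤ t := by omega
  have h2 := hN t h1
  have ht0 : t ≠ 0 := by omega
  have h3 : 2 ≤ dep (Qs s t) := le_dep s hs (G_mem s _ t ht) ht0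
  have h4 : dep (Qs s (t + p)) ≤ 1 := by
    obtain ⟨t', ht'⟩ : ∃ t', t + p = t' + 1 := ⟨t + p - 1, by omega⟩
    rw [ht']
    apply dep_le
    apply G_not_mem
    have e : 4 * (t' + 1) + 1 = 9 ^ (N + 4 * p + 1) + 4 * p := by rw [← ht, ← ht']; ring
    rw [e]
    apply htr _ _ (by omega)
    rw [← ht]; omega
  omega

open Polynomial in
lemma trans_elt (c l : ℕ) (hc : 0 < c) (hcl : c < 9 ^ l) [Fact (Nat.Prime 3)] :
    (RatFunc.X : RatFunc (ZMod 3)) ^ (9 ^ l + c) + (RatFunc.X + 1) ^ (9 ^ l + c) +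
      (RatFunc.X + 2) ^ (9 ^ l + c) ≠ 0 := by
  have h := H379R3.Sym.poly_ne hc hcl
  intro h0
  apply h
  apply RatFunc.algebraMap_injective (ZMod 3)
  rw [map_zero, ← h0]
  simp only [map_add, map_pow, RatFunc.algebraMap_X, map_one, map_ofNat]

/-- There is a homogeneous ideal Q in a polynomial ring over a field whose symbolic powers Q^(t) have depth of S/Q^(t) (w.r.t. the irrelevant ideal) not eventually periodic in t. -/
theorem result :
  ∃ (k : Type) (_ : Field k) (n : ℕ) (Q : Ideal (MvPolynomial (Fin n) k))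
    (Qs : ℕ → Ideal (MvPolynomial (Fin n) k)),
    (∀ p ∈ Q, ∀ d : ℕ, MvPolynomial.homogeneousComponent d p ∈ Q) ∧
    (∀ t : ℕ, ∀ f : MvPolynomial (Fin n) k,
      f ∈ Qs t ↔ ∃ s : MvPolynomial (Fin n) k,
        (∀ P ∈ Q.minimalPrimes, s ∉ P) ∧ s * f ∈ Q ^ t) ∧
    ¬ ∃ p : ℕ, 0 < p ∧ ∃ N : ℕ, ∀ t : ℕ, N ≤ t →
      sSup {m : ℕ | ∃ rs : List (MvPolynomial (Fin n) k), rs.length = m ∧
          (∀ r ∈ rs, MvPolynomial.constantCoeff r = 0) ∧
          RingTheory.Sequence.IsRegular (MvPolynomial (Fin n) k ⧸ Qs (t + p)) rs}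
      = sSup {m : ℕ | ∃ rs : List (MvPolynomial (Fin n) k), rs.length = m ∧
          (∀ r ∈ rs, MvPolynomial.constantCoeff r = 0) ∧
          RingTheory.Sequence.IsRegular (MvPolynomial (Fin n) k ⧸ Qs t) rs} := by
  have : Fact (Nat.Prime 3) := ⟨by norm_num⟩
  have : CharP (RatFunc (ZMod 3)) 3 :=
    charP_of_injective_algebraMap (algebraMap (ZMod 3) (RatFunc (ZMod 3))).injective 3
  refine ⟨RatFunc (ZMod 3), inferInstance, 4, H379R3.Sym.Q (RatFunc.X),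
    H379R3.Sym.Qs (RatFunc.X), H379R3.Sym.Q_homog _, H379R3.Sym.symbolic _, ?_⟩
  exact main RatFunc.X RatFunc.X_ne_zero (fun c l h1 h2 => trans_elt c l h1 h2)

end Pool.Agent.S00019
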