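import Pool.Statements.S00029
import Pool.Agent.H566R3.Lin2

set_option autoImplicit false
open Pool Pool.MP_10b6e9_ag

namespace Pool.Agent.S00029

/-- For every finite field of order q², every d with 1≤d≤q and every nonzero degree-d homogeneous F in 5 variables, the projective rational points on both F=0 and x0^(q+1)+…+x4^(q+1)=0 number at most d(q^5+q^2)+q^3+1. -/
theorem result :
    ∀ (K : Type) [Field K] [Fintype K] (q d : ℕ),
      Fintype.card K = q ^ 2 → 1 ≤ d → d ≤ q →
      ∀ F : MvPolynomial (Fin 5) K, F ≠ 0 → F.IsHomogeneous d →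
        Set.ncard {x : Fin 5 → K | x ≠ 0 ∧ MvPolynomial.eval x F = 0 ∧
            ∑ i, x i ^ (q + 1) = 0}
          ≤ (q ^ 2 - 1) * (d * (q ^ 5 + q ^ 2) + q ^ 3 + 1) := by
  intro K _ _ q d hq hd hdq F h0 hF
  classical
  have h := Pool.Agent.H566R3.main_bound hq hF h0 hd hdq
  refine le_trans (le_of_eq ?_) h
  rw [← Set.ncard_coe_finset]
  congr 1
  ext v
  simp only [Set.mem_ofPred_eq, Finset.coe_filter, Finset.mem_univ, true_and,
    Pool.Agent.H566R3.sf_eq]

end Pool.Agent.S00029
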