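import Pool.Statements.S00067
import Pool.Agent.H676R3.Fin

set_option autoImplicit false
open scoped Manifold
open Pool Pool.MP_1f1fe3_ag

namespace Pool.Agent.S00067

/-- There is a compact complex manifold whose biholomorphisms that are smoothly isotopic to the identity through diffeomorphisms form, in the compact-open topology, a space with infinitely many connected components. -/
theorem result :
    ∃ (n : ℕ) (M : Type) (_ : TopologicalSpace M)
      (_ : ChartedSpace (EuclideanSpace ℂ (Fin n)) M),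
      IsManifold (𝓘(ℂ, EuclideanSpace ℂ (Fin n))) ((⊤ : ℕ∞) : WithTop ℕ∞) M ∧
      CompactSpace M ∧ T2Space M ∧
      Infinite (ConnectedComponents
        ↥{g : C(M, M) |
          ∃ φ : Diffeomorph (𝓘(ℂ, EuclideanSpace ℂ (Fin n))) (𝓘(ℂ, EuclideanSpace ℂ (Fin n)))
              M M ((⊤ : ℕ∞) : WithTop ℕ∞),
            (⇑φ = ⇑g) ∧
            ∃ H : ℝ → M → M,
              ContMDiff ((𝓘(ℝ, ℝ)).prod (𝓘(ℝ, EuclideanSpace ℂ (Fin n))))
                (𝓘(ℝ, EuclideanSpace ℂ (Fin n))) ((⊤ : ℕ∞) : WithTop ℕ∞)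
                (fun p : ℝ × M => H p.1 p.2) ∧
              H 0 = id ∧ H 1 = ⇑g ∧
              ∀ t : ℝ, ∃ ψ : Diffeomorph (𝓘(ℝ, EuclideanSpace ℂ (Fin n)))
                  (𝓘(ℝ, EuclideanSpace ℂ (Fin n))) M M ((⊤ : ℕ∞) : WithTop ℕ∞),
                ⇑ψ = H t}) :=
  ⟨3, Pool.Agent.H676R3.M3, inferInstance, inferInstance, Pool.Agent.H676R3.isManifold_complex,
    inferInstance, inferInstance, Pool.Agent.H676R3.infinite_components⟩

end Pool.Agent.S00067
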