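import Pool.Statements.S00086

set_option autoImplicit false
open Pool Pool.MP_26e61c_ag

namespace Pool.Agent.S00086

open MvPolynomial

/-- Coefficient of a monomial alone in its fibre vanishes for elements of the kernel of a
monomial map. -/
theorem coeff_eq_zero_of_alone {σ τ : Type} (E : σ → τ →₀ ℕ) (p : MvPolynomial σ ℂ)
    (hp : aeval (R := ℂ) (fun g => (monomial (E g) (1 : ℂ) : MvPolynomial τ ℂ)) p = 0)
    (m0 : σ →₀ ℕ)
    (huniq : ∀ m : σ →₀ ℕ, (∑ g ∈ m.support, m g • E g) = (∑ g ∈ m0.support, m0 g • E g) →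
      m = m0) :
    coeff m0 p = 0 := by
  classical
  have h1 : aeval (R := ℂ) (fun g => (monomial (E g) (1 : ℂ) : MvPolynomial τ ℂ)) p
      = ∑ d ∈ p.support, monomial (∑ g ∈ d.support, d g • E g) (coeff d p) := by
    rw [aeval_def, eval₂_eq]
    refine Finset.sum_congr rfl fun d _ => ?_
    have h2 : ∏ i ∈ d.support, (monomial (E i) (1 : ℂ) : MvPolynomial τ ℂ) ^ d i
        = monomial (∑ g ∈ d.support, d g • E g) 1 := by
      rw [monomial_sum_one]
      refine Finset.prod_congr rfl fun i _ => ?_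
      rw [monomial_pow, one_pow]
    rw [h2, MvPolynomial.algebraMap_eq, C_mul_monomial, mul_one]
  rw [h1] at hp
  have h3 := congrArg (coeff (∑ g ∈ m0.support, m0 g • E g)) hp
  rw [coeff_sum, coeff_zero] at h3
  simp only [coeff_monomial] at h3
  have h4 : ∀ d ∈ p.support, (if (∑ g ∈ d.support, d g • E g) = (∑ g ∈ m0.support, m0 g • E g)
      then coeff d p else 0) = if d = m0 then coeff m0 p else 0 := by
    intro d _
    by_cases hd : d = m0
    · subst hd; simp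
    · rw [if_neg hd, if_neg]
      intro h; exact hd (huniq d h)
  rw [Finset.sum_congr rfl h4, Finset.sum_ite_eq'] at h3
  by_cases hm : m0 ∈ p.support
  · rw [if_pos hm] at h3; exact h3
  · simpa [mem_support_iff] using hm

/-- Uniqueness of the exponent in its fibre, from a finite set of exponents with private
coordinates that dominates everything. -/
theorem alone_of_list {σ τ : Type} [DecidableEq σ] (E : σ → τ →₀ ℕ) (L : Finset σ) (m0 : σ →₀ ℕ)
    (h0 : ∀ g, g ∈ m0.support → g ∈ L)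
    (hpriv : ∀ g ∈ L, ∃ t : τ, E g t = 1 ∧ ∀ g' ∈ L, g' ≠ g → E g' t = 0)
    (hdom : ∀ g, (∀ t, E g t ≠ 0 → ∃ g' ∈ L, E g' t ≠ 0) → g ∈ L)
    (m : σ →₀ ℕ)
    (hm : (∑ g ∈ m.support, m g • E g) = (∑ g ∈ m0.support, m0 g • E g)) : m = m0 := by
  classical
  have hsupp : ∀ g, g ∈ m.support → g ∈ L := by
    intro g hg
    apply hdom g
    intro t ht
    by_contra hcon
    push Not at hcon
    have h1 := DFunLike.congr_fun hm t
    simp only [Finsupp.finsetSum_apply, Finsupp.smul_apply, smul_eq_mul] at h1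
    have h2 : ∑ g ∈ m0.support, m0 g * E g t = 0 := by
      apply Finset.sum_eq_zero
      intro g' hg'
      rw [hcon g' (h0 g' hg'), mul_zero]
    rw [h2] at h1
    have h3 := (Finset.sum_eq_zero_iff.mp h1) g hg
    rcases Nat.mul_eq_zero.mp h3 with h | h
    · exact (Finsupp.mem_support_iff.mp hg) h
    · exact ht h
  have key : ∀ (n : σ →₀ ℕ), (∀ g, g ∈ n.support → g ∈ L) → ∀ g ∈ L, ∀ t : τ, E g t = 1 →
      (∀ g' ∈ L, g' ≠ g → E g' t = 0) → (∑ g ∈ n.support, n g • E g) t = n g := by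
    intro n hn g hg t ht1 ht2
    simp only [Finsupp.finsetSum_apply, Finsupp.smul_apply, smul_eq_mul]
    by_cases hgn : g ∈ n.support
    · rw [Finset.sum_eq_single g]
      · rw [ht1, mul_one]
      · intro b hb hbg
        rw [ht2 b (hn b hb) hbg, mul_zero]
      · intro h; exact absurd hgn h
    · have : n g = 0 := by simpa [Finsupp.mem_support_iff] using hgn
      rw [this]
      apply Finset.sum_eq_zero
      intro b hb
      have hbg : b ≠ g := fun h => hgn (h ▸ hb)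
      rw [ht2 b (hn b hb) hbg, mul_zero]
  ext g
  by_cases hg : g ∈ L
  · obtain ⟨t, ht1, ht2⟩ := hpriv g hg
    rw [← key m hsupp g hg t ht1 ht2, ← key m0 h0 g hg t ht1 ht2, hm]
  · have h1 : m g = 0 := by
      by_contra h
      exact hg (hsupp g (Finsupp.mem_support_iff.mpr h))
    have h2 : m0 g = 0 := by
      by_contra h
      exact hg (h0 g (Finsupp.mem_support_iff.mpr h))
    rw [h1, h2]

/-- The flows. -/
abbrev Fl : Type := {g : Fin 4 → ZMod 47 // ∑ i, g i = 0}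

/-- make a flow -/
def mk (a b c d : ZMod 47) (h : a + b + c + d = 0) : Fl :=
  ⟨![a, b, c, d], by rw [Fin.sum_univ_four]; exact h⟩

def z0 : Fl := mk 0 0 0 0 (by decide)
def r1 : Fl := mk 10 27 4 6 (by decide)
def r2 : Fl := mk 15 7 33 39 (by decide)
def r3 : Fl := mk 25 34 35 0 (by decide)
def r4 : Fl := mk 34 26 39 42 (by decide)
def s1 : Fl := mk 10 7 35 42 (by decide)
def s2 : Fl := mk 15 34 39 6 (by decide)
def s3 : Fl := mk 25 26 4 39 (by decide)
def s4 : Fl := mk 34 27 33 0 (by decide)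

/-- The exponent vectors of the monomial map of the prolongation with split `A`. -/
noncomputable def EA (A : Finset (Fin 4)) (g : Fl) : (Option (Fin 4) × ZMod 47) →₀ ℕ :=
  Finsupp.single (none, ∑ i ∈ A, g.1 i) 1 + ∑ i : Fin 4, Finsupp.single (some i, g.1 i) 1

theorem EA_monomial (A : Finset (Fin 4)) (g : Fl) :
    (X (none, ∑ i ∈ A, g.1 i) * ∏ i, X (some i, g.1 i) :
      MvPolynomial (Option (Fin 4) × ZMod 47) ℂ) = monomial (EA A g) 1 := by
  have h : (∏ i : Fin 4, X (some i, g.1 i) : MvPolynomial (Option (Fin 4) × ZMod 47) ℂ)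
      = monomial (∑ i : Fin 4, Finsupp.single (some i, g.1 i) 1) 1 := by
    rw [monomial_sum_one]; rfl
  rw [h, EA]
  show monomial _ 1 * monomial _ 1 = _
  rw [monomial_mul, one_mul]

theorem EA_none (A : Finset (Fin 4)) (g : Fl) (x : ZMod 47) :
    EA A g (none, x) = if (∑ i ∈ A, g.1 i) = x then 1 else 0 := by
  classical
  simp [EA, Finsupp.single_apply]

theorem EA_some (A : Finset (Fin 4)) (g : Fl) (j : Fin 4) (x : ZMod 47) :
    EA A g (some j, x) = if g.1 j = x then 1 else 0 := by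
  classical
  simp only [EA, Finsupp.add_apply, Finsupp.finsetSum_apply, Finsupp.single_apply,
    Prod.mk.injEq, reduceCtorEq, false_and, if_false, zero_add, Option.some.injEq]
  rw [Finset.sum_eq_single j]
  · simp
  · intro b _ hb; simp [hb]
  · intro h; exact absurd (Finset.mem_univ _) h


/-- The alphabet of each column. -/
def colL : Fin 4 → List (ZMod 47) :=
  ![[0, 10, 15, 25, 34], [0, 27, 7, 34, 26], [0, 4, 33, 35, 39], [0, 6, 39, 42]]

/-- The rows of the first table and the zero row. -/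
def rowsL : List (Fin 4 → ZMod 47) :=
  [![0, 0, 0, 0], ![10, 27, 4, 6], ![15, 7, 33, 39], ![25, 34, 35, 0], ![34, 26, 39, 42]]

theorem check01 : ∀ a ∈ colL 0, ∀ b ∈ colL 1, ∀ c ∈ colL 2, ∀ d ∈ colL 3, a + b + c + d = 0 →
    (∃ r ∈ rowsL, r 0 + r 1 = a + b) → ![a, b, c, d] ∈ rowsL := by
  decide +kernel

theorem check02 : ∀ a ∈ colL 0, ∀ b ∈ colL 1, ∀ c ∈ colL 2, ∀ d ∈ colL 3, a + b + c + d = 0 →
    (∃ r ∈ rowsL, r 0 + r 2 = a + c) → ![a, b, c, d] ∈ rowsL := by
  decide +kernel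

theorem check03 : ∀ a ∈ colL 0, ∀ b ∈ colL 1, ∀ c ∈ colL 2, ∀ d ∈ colL 3, a + b + c + d = 0 →
    (∃ r ∈ rowsL, r 0 + r 3 = a + d) → ![a, b, c, d] ∈ rowsL := by
  decide +kernel

theorem check12 : ∀ a ∈ colL 0, ∀ b ∈ colL 1, ∀ c ∈ colL 2, ∀ d ∈ colL 3, a + b + c + d = 0 →
    (∃ r ∈ rowsL, r 1 + r 2 = b + c) → ![a, b, c, d] ∈ rowsL := by
  decide +kernel

theorem check13 : ∀ a ∈ colL 0, ∀ b ∈ colL 1, ∀ c ∈ colL 2, ∀ d ∈ colL 3, a + b + c + d = 0 →
    (∃ r ∈ rowsL, r 1 + r 3 = b + d) → ![a, b, c, d] ∈ rowsL := by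
  decide +kernel

theorem check23 : ∀ a ∈ colL 0, ∀ b ∈ colL 1, ∀ c ∈ colL 2, ∀ d ∈ colL 3, a + b + c + d = 0 →
    (∃ r ∈ rowsL, r 2 + r 3 = c + d) → ![a, b, c, d] ∈ rowsL := by
  decide +kernel

theorem card2 : ∀ A : Finset (Fin 4), A.card = 2 →
    A = {0, 1} ∨ A = {0, 2} ∨ A = {0, 3} ∨ A = {1, 2} ∨ A = {1, 3} ∨ A = {2, 3} := by
  decide

theorem check (A : Finset (Fin 4)) (hA : A.card = 2) (a : ZMod 47) (ha : a ∈ colL 0)
    (b : ZMod 47) (hb : b ∈ colL 1) (c : ZMod 47) (hc : c ∈ colL 2) (d : ZMod 47)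
    (hd : d ∈ colL 3) (h : a + b + c + d = 0)
    (hr : ∃ r ∈ rowsL, ∑ i ∈ A, r i = ∑ i ∈ A, ![a, b, c, d] i) : ![a, b, c, d] ∈ rowsL := by
  obtain ⟨r, hr1, hr2⟩ := hr
  rcases card2 A hA with rfl | rfl | rfl | rfl | rfl | rfl <;>
    rw [Finset.sum_pair (by decide), Finset.sum_pair (by decide)] at hr2
  · exact check01 a ha b hb c hc d hd h ⟨r, hr1, hr2⟩
  · exact check02 a ha b hb c hc d hd h ⟨r, hr1, hr2⟩
  · exact check03 a ha b hb c hc d hd h ⟨r, hr1, hr2⟩
  · exact check12 a ha b hb c hc d hd h ⟨r, hr1, hr2⟩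
  · exact check13 a ha b hb c hc d hd h ⟨r, hr1, hr2⟩
  · exact check23 a ha b hb c hc d hd h ⟨r, hr1, hr2⟩

/-- The finite set of rows allowed in the fibre. -/
def LL : Finset Fl := {z0, r1, r2, r3, r4}

theorem mem_LL_rowsL (g : Fl) (hg : g ∈ LL) : g.1 ∈ rowsL := by
  simp only [LL, Finset.mem_insert, Finset.mem_singleton] at hg
  rcases hg with rfl | rfl | rfl | rfl | rfl <;>
    simp [rowsL, z0, r1, r2, r3, r4, mk]

theorem rowsL_mem_LL (g : Fl) (hg : g.1 ∈ rowsL) : g ∈ LL := by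
  simp only [rowsL, List.mem_cons, List.not_mem_nil, or_false] at hg
  simp only [LL, Finset.mem_insert, Finset.mem_singleton]
  rcases hg with h | h | h | h | h
  · left; exact Subtype.ext h
  · right; left; exact Subtype.ext h
  · right; right; left; exact Subtype.ext h
  · right; right; right; left; exact Subtype.ext h
  · right; right; right; right; exact Subtype.ext h

theorem rowsL_col' (r : Fin 4 → ZMod 47) (hr : r ∈ rowsL) :
    r 0 ∈ colL 0 ∧ r 1 ∈ colL 1 ∧ r 2 ∈ colL 2 ∧ r 3 ∈ colL 3 := by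
  simp only [rowsL, List.mem_cons, List.not_mem_nil, or_false] at hr
  rcases hr with rfl | rfl | rfl | rfl | rfl <;> simp [colL]

theorem rowsL_col (r : Fin 4 → ZMod 47) (hr : r ∈ rowsL) (j : Fin 4) : r j ∈ colL j := by
  obtain ⟨h0, h1, h2, h3⟩ := rowsL_col' r hr
  fin_cases j
  · exact h0
  · exact h1
  · exact h2
  · exact h3

theorem hdom (A : Finset (Fin 4)) (hA : A.card = 2) (g : Fl)
    (h : ∀ t, EA A g t ≠ 0 → ∃ g' ∈ LL, EA A g' t ≠ 0) : g ∈ LL := by
  have h1 : ∀ j : Fin 4, g.1 j ∈ colL j := by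
    intro j
    obtain ⟨g', hg', h2⟩ := h (some j, g.1 j) (by rw [EA_some]; simp)
    rw [EA_some] at h2
    by_cases h3 : g'.1 j = g.1 j
    · rw [← h3]; exact rowsL_col _ (mem_LL_rowsL g' hg') j
    · rw [if_neg h3] at h2; exact absurd rfl h2
  have h4 : ∃ r ∈ rowsL, ∑ i ∈ A, r i = ∑ i ∈ A, g.1 i := by
    obtain ⟨g', hg', h2⟩ := h (none, ∑ i ∈ A, g.1 i) (by rw [EA_none]; simp)
    rw [EA_none] at h2
    by_cases h3 : (∑ i ∈ A, g'.1 i) = ∑ i ∈ A, g.1 i
    · exact ⟨g'.1, mem_LL_rowsL g' hg', h3⟩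
    · rw [if_neg h3] at h2; exact absurd rfl h2
  have h5 : g.1 = ![g.1 0, g.1 1, g.1 2, g.1 3] := by
    ext i; fin_cases i <;> rfl
  have h6 : g.1 0 + g.1 1 + g.1 2 + g.1 3 = 0 := by
    have := g.2
    rwa [Fin.sum_univ_four] at this
  rw [h5] at h4
  apply rowsL_mem_LL
  rw [h5]
  exact check A hA _ (h1 0) _ (h1 1) _ (h1 2) _ (h1 3) h6 h4

theorem zz : (0 : ZMod 47) ≠ 10 ∧ (0 : ZMod 47) ≠ 15 ∧ (0 : ZMod 47) ≠ 25 ∧ (0 : ZMod 47) ≠ 34 ∧
    (10 : ZMod 47) ≠ 15 ∧ (10 : ZMod 47) ≠ 25 ∧ (10 : ZMod 47) ≠ 34 ∧ (15 : ZMod 47) ≠ 25 ∧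
    (15 : ZMod 47) ≠ 34 ∧ (25 : ZMod 47) ≠ 34 := by
  decide

theorem zero_inj (r : Fin 4 → ZMod 47) (hr : r ∈ rowsL) (r' : Fin 4 → ZMod 47)
    (hr' : r' ∈ rowsL) (h : r' 0 = r 0) : r' = r := by
  obtain ⟨h1, h2, h3, h4, h5, h6, h7, h8, h9, h10⟩ := zz
  simp only [rowsL, List.mem_cons, List.not_mem_nil, or_false] at hr hr'
  rcases hr with rfl | rfl | rfl | rfl | rfl <;>
  rcases hr' with rfl | rfl | rfl | rfl | rfl <;>
  first
    | rfl
    | exact absurd h ‹_›
    | exact absurd h.symm ‹_›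

theorem hpriv (A : Finset (Fin 4)) (g : Fl) (hg : g ∈ LL) :
    ∃ t : Option (Fin 4) × ZMod 47, EA A g t = 1 ∧ ∀ g' ∈ LL, g' ≠ g → EA A g' t = 0 := by
  refine ⟨(some 0, g.1 0), by rw [EA_some]; simp, ?_⟩
  intro g' hg' hne
  rw [EA_some, if_neg]
  intro h
  exact hne (Subtype.ext (zero_inj _ (mem_LL_rowsL g hg) _ (mem_LL_rowsL g' hg') h))

/-- The exponent of `q_0 ^ k * q_r1 * q_r2 * q_r3 * q_r4`. -/
noncomputable def m0 (k : ℕ) : Fl →₀ ℕ :=
  Finsupp.single z0 k + (Finsupp.single r1 1 + Finsupp.single r2 1 + Finsupp.single r3 1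
    + Finsupp.single r4 1)

/-- The exponent of `q_0 ^ k * q_s1 * q_s2 * q_s3 * q_s4`. -/
noncomputable def n0 (k : ℕ) : Fl →₀ ℕ :=
  Finsupp.single z0 k + (Finsupp.single s1 1 + Finsupp.single s2 1 + Finsupp.single s3 1
    + Finsupp.single s4 1)

theorem m0_supp (k : ℕ) (g : Fl) (hg : g ∈ (m0 k).support) : g ∈ LL := by
  classical
  by_contra hcon
  simp only [LL, Finset.mem_insert, Finset.mem_singleton, not_or] at hcon
  obtain ⟨h0, h1, h2, h3, h4⟩ := hcon
  apply Finsupp.mem_support_iff.mp hg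
  simp [m0, Ne.symm h0, Ne.symm h1, Ne.symm h2, Ne.symm h3, Ne.symm h4]

theorem ne1 : z0 ≠ r1 ∧ s1 ≠ r1 ∧ s2 ≠ r1 ∧ s3 ≠ r1 ∧ s4 ≠ r1 ∧ r2 ≠ r1 ∧ r3 ≠ r1 ∧ r4 ≠ r1 := by
  decide +kernel

theorem n0_ne_m0 (k : ℕ) : n0 k ≠ m0 k := by
  classical
  obtain ⟨h0, h1, h2, h3, h4, h6, h7, h8⟩ := ne1
  intro h
  have h5 := DFunLike.congr_fun h r1
  simp [m0, n0, h0, h1, h2, h3, h4, h6, h7, h8] at h5

/-- The binomial. -/
noncomputable def ff : MvPolynomial Fl ℂ :=
  X r1 * X r2 * X r3 * X r4 - X s1 * X s2 * X s3 * X s4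

theorem ff_ker : ff ∈ RingHom.ker (MvPolynomial.aeval (R := ℂ)
          (fun g : Fl =>
            (∏ i, MvPolynomial.X (some i, g.1 i) :
              MvPolynomial (Option (Fin 4) × ZMod 47) ℂ))) := by
  rw [RingHom.mem_ker]
  simp only [ff, map_sub, map_mul, aeval_X, Fin.prod_univ_four]
  simp only [r1, r2, r3, r4, s1, s2, s3, s4, mk]
  simp
  ring

theorem coeff_Xk (k : ℕ) : coeff (m0 k) (X z0 ^ k * ff) = 1 := by
  have h1 : (X z0 ^ k * ff : MvPolynomial Fl ℂ) = monomial (m0 k) 1 - monomial (n0 k) 1 := by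
    simp only [ff, m0, n0, X, monomial_pow, one_pow, mul_sub, monomial_mul, mul_one]
    simp
  rw [h1, coeff_sub, coeff_monomial, coeff_monomial, if_pos rfl, if_neg (n0_ne_m0 k), sub_zero]

/-- The negation of the preceding statement: For every finite abelian G and n at least 4: every polynomial vanishing on the claw group-based model, times a high enough power of the irrelevant ideal, lies in the sum of the ideals of all prolongations splitting the leaves into two parts of size at least 2. -/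
theorem result :
    ¬ (∀ (G : Type) [AddCommGroup G] [Fintype G] (n : ℕ), 4 ≤ n →
      ∀ f : MvPolynomial {g : Fin n → G // ∑ i, g i = 0} ℂ,
        f ∈ RingHom.ker (MvPolynomial.aeval (R := ℂ)
          (fun g : {g : Fin n → G // ∑ i, g i = 0} =>
            (∏ i, MvPolynomial.X (some i, g.1 i) :
              MvPolynomial (Option (Fin n) × G) ℂ))) →
        ∃ k : ℕ, ∀ h ∈ (Ideal.span (Set.range
            (MvPolynomial.X : {g : Fin n → G // ∑ i, g i = 0} →
              MvPolynomial {g : Fin n → G // ∑ i, g i = 0} ℂ))) ^ k,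
          h * f ∈ ⨆ A : {A : Finset (Fin n) // 2 ≤ A.card ∧ A.card + 2 ≤ n},
            RingHom.ker (MvPolynomial.aeval (R := ℂ)
              (fun g : {g : Fin n → G // ∑ i, g i = 0} =>
                (MvPolynomial.X (none, ∑ i ∈ A.1, g.1 i) *
                  ∏ i, MvPolynomial.X (some i, g.1 i) :
                  MvPolynomial (Option (Fin n) × G) ℂ)))) := by
  intro H
  obtain ⟨k, hk⟩ := H (ZMod 47) 4 le_rfl ff ff_ker
  have h1 : (X z0 ^ k : MvPolynomial Fl ℂ) ∈ (Ideal.span (Set.range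
      (MvPolynomial.X : Fl → MvPolynomial Fl ℂ))) ^ k :=
    Ideal.pow_mem_pow (Ideal.subset_span (Set.mem_range_self z0)) k
  have h2 := hk _ h1
  have h3 : coeff (m0 k) (X z0 ^ k * ff) = 0 := by
    refine Submodule.iSup_induction _ (motive := fun p : MvPolynomial Fl ℂ => coeff (m0 k) p = 0)
      h2 ?_ ?_ ?_
    · rintro ⟨A, hA1, hA2⟩ p hp
      have hA : A.card = 2 := by omega
      have hp' := RingHom.mem_ker.mp hp
      have h4 : (fun g : Fl => (MvPolynomial.X (none, ∑ i ∈ A, g.1 i) *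
                  ∏ i, MvPolynomial.X (some i, g.1 i) :
                  MvPolynomial (Option (Fin 4) × ZMod 47) ℂ)) =
          fun g => (monomial (EA A g) (1 : ℂ)) := by
        funext g; exact EA_monomial A g
      have h5 : aeval (R := ℂ) (fun g => (monomial (EA A g) (1 : ℂ) :
          MvPolynomial (Option (Fin 4) × ZMod 47) ℂ)) p = 0 := by
        rw [← h4]; exact hp'
      exact coeff_eq_zero_of_alone (EA A) p h5 (m0 k)
        (alone_of_list (EA A) LL (m0 k) (m0_supp k) (hpriv A) (hdom A hA))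
    · simp
    · intro x y hx hy
      rw [coeff_add, hx, hy, add_zero]
  rw [coeff_Xk] at h3
  exact one_ne_zero h3

end Pool.Agent.S00086
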