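import Pool.Statements.S00100
import Pool.Agent.H794R3.Stillman.Depth
import Pool.Agent.H794R3.Stillman.Alg

set_option autoImplicit false
open Pool Pool.MP_2cc7f8_ag

namespace Pool.Agent.S00100

open MvPolynomial Pool.Agent.H794R3.Stillman

/-- The negation of the preceding statement: For each d there is a constant C such that, over any field and any polynomial ring, n forms of degree at most d generate an ideal I with R/I having a projective resolution of length at most C·n^d. -/
theorem result :
    ¬ (∀ d : ℕ, ∃ C : ℕ, ∀ (K : Type) [Field K] (N n : ℕ)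
      (f : Fin n → MvPolynomial (Fin N) K),
      (∀ i, ∃ k, k ≤ d ∧ (f i).IsHomogeneous k) →
      ∃ P : CategoryTheory.ProjectiveResolution
          (ModuleCat.of (MvPolynomial (Fin N) K)
            (MvPolynomial (Fin N) K ⧸ Ideal.span (Set.range f))),
        ∀ i : ℕ, C * n ^ d < i → CategoryTheory.Limits.IsZero (P.complex.X i)) := by
  intro h
  obtain ⟨C, hC⟩ := h 3
  let a : ℕ := 27 * C + 1
  let N : ℕ := Fintype.card (V a)
  let n : ℕ := Fintype.card (G a)
  have hN : N = a + (a * a + (a * a) * (a * a)) := by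
    simp [N, V]
  have hn : n = 3 * a := by
    simp only [n, G, Fintype.card_sum, Fintype.card_fin]
    omega
  let e : V a ≃ Fin N := Fintype.equivFin (V a)
  let e' : G a ≃ Fin n := Fintype.equivFin (G a)
  let g : G a → MvPolynomial (Fin N) ℚ := gen a (tv ℚ a e)
  let f : Fin n → MvPolynomial (Fin N) ℚ := fun i => g (e'.symm i)
  have hrange : Set.range f = Set.range g := by
    ext z
    constructor
    · rintro ⟨i, rfl⟩; exact ⟨_, rfl⟩
    · rintro ⟨x, rfl⟩; exact ⟨e' x, by simp [f]⟩
  obtain ⟨P, hP⟩ := hC ℚ N n f (fun i => gen_homogeneous ℚ a e _)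
  have hI : soc a (tv ℚ a e) ∉ Ideal.span (Set.range f) := by
    rw [hrange]
    exact soc_not_mem ℚ a e
  have hg : ∀ x : G a, gen a (tv ℚ a e) x ∈ Ideal.span (Set.range f) := by
    intro x
    rw [hrange]
    exact Ideal.subset_span ⟨x, rfl⟩
  have hlen : C * n ^ 3 < ((List.finRange N).map
      (fun v => (X v : MvPolynomial (Fin N) ℚ))).length := by
    rw [List.length_map, List.length_finRange, hN, hn]
    have : a = 27 * C + 1 := rfl
    have h1 : C * (3 * a) ^ 3 = (27 * C) * a ^ 3 := by ring
    have h2 : (a * a) * (a * a) = (27 * C) * a ^ 3 + a ^ 3 := by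
      have : (a * a) * (a * a) = a * a ^ 3 := by ring
      rw [this]
      nth_rewrite 1 [show a = 27 * C + 1 from rfl]
      ring
    rw [h1, h2]
    have : 0 < a := by omega
    omega
  refine no_short_resolution
    ((List.finRange N).map (fun v => (X v : MvPolynomial (Fin N) ℚ)))
    (weaklyRegular_vars ℚ _ (List.nodup_finRange N)) _
    (Ideal.Quotient.mk _ (soc a (tv ℚ a e))) ?_ ?_ (C * n ^ 3) hlen P hP
  · intro h0
    exact hI (Ideal.Quotient.eq_zero_iff_mem.1 h0)
  · intro r hr
    obtain ⟨v, -, rfl⟩ := List.mem_map.1 hr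
    have := soc_killed a (tv ℚ a e) (Ideal.span (Set.range f)) hg (e.symm v)
    rw [tv, Equiv.apply_symm_apply] at this
    exact Ideal.Quotient.eq_zero_iff_mem.2 this

end Pool.Agent.S00100
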