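import Pool.Statements.S00110
import Pool.Agent.H607R3.OO.Sections

set_option autoImplicit false
open Pool Pool.MP_2ff787_ag

namespace Pool.Agent.S00110

/-- The negation of the preceding statement: For k ≥ 2 and positive nondecreasing a₁..a_{k−1}: a primitive degree‑k cover of ℙ¹ over ℂ, with h⁰(α*𝒪(m)) = Σ_{i=0}^{k−1} max(0, m+1−a_i) for all m (a₀ = 0), exists iff a_{i+j} ≤ a_i + a_j whenever i+j ≤ k−1. -/
theorem result :
    ¬ (∀ (k : ℕ), 2 ≤ k → ∀ (a : ℕ → ℕ),
      (∀ i, 1 ≤ i → i ≤ k - 1 → 1 ≤ a i) →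
      (∀ i j, 1 ≤ i → i ≤ j → j ≤ k - 1 → a i ≤ a j) →
      ((∃ (F : Type) (_ : Field F) (_ : Algebra ℂ F) (x : F),
          Transcendental ℂ x ∧
          FiniteDimensional (IntermediateField.adjoin ℂ ({x} : Set F)) F ∧
          Module.finrank (IntermediateField.adjoin ℂ ({x} : Set F)) F = k ∧
          (∀ E : IntermediateField ℂ F, IntermediateField.adjoin ℂ ({x} : Set F) ≤ E →
              E = IntermediateField.adjoin ℂ ({x} : Set F) ∨ E = ⊤) ∧
          (∀ m : ℕ, ∃ b : Fin ((m + 1) + ∑ i ∈ Finset.Icc 1 (k - 1), (m + 1 - a i)) → F,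
              LinearIndependent ℂ b ∧
              ((Submodule.span ℂ (Set.range b) : Submodule ℂ F) : Set F) =
                {f : F | IsIntegral (Algebra.adjoin ℂ ({x} : Set F)) f ∧
                  IsIntegral (Algebra.adjoin ℂ ({x⁻¹} : Set F)) (f * x⁻¹ ^ m)}))
        ↔ (∀ i j, 1 ≤ i → 1 ≤ j → i + j ≤ k - 1 → a (i + j) ≤ a i + a j))) := by
  intro H
  have h := H 7 (by norm_num) Pool.Agent.H607R3.OO.spl ?_ ?_
  · refine Pool.Agent.H607R3.OO.no_cover (h.2 ?_)
    intro i j hi hj hij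
    unfold Pool.Agent.H607R3.OO.spl
    split_ifs <;> omega
  · intro i hi _
    unfold Pool.Agent.H607R3.OO.spl
    split_ifs <;> omega
  · intro i j hi hij _
    unfold Pool.Agent.H607R3.OO.spl
    split_ifs <;> omega

end Pool.Agent.S00110
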