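import Pool.Statements.S00136
import Pool.Agent.H215R3.DF.Param

set_option autoImplicit false
open Pool Pool.MP_373bb8_ag

namespace Pool.Agent.S00136

/-- The negation of the preceding statement: For a Noetherian equidimensional local ring R of characteristic p and a non-zero-divisor x in its maximal ideal: if every ideal of R/xR generated by a full system of parameters is Frobenius closed, then the same holds in R. -/
theorem result :
    ¬ (∀ (p : ℕ) [Fact p.Prime] (R : Type) [CommRing R] [IsNoetherianRing R] [IsLocalRing R]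
      [CharP R p] (x : R),
      x ∈ IsLocalRing.maximalIdeal R →
      x ∈ nonZeroDivisors R →
      (∀ P ∈ minimalPrimes R, ringKrullDim (R ⧸ P) = ringKrullDim R) →
      (∀ (n : ℕ) (y : Fin n → R ⧸ Ideal.span {x}),
          (n : WithBot ℕ∞) = ringKrullDim (R ⧸ Ideal.span {x}) →
          (Ideal.span (Set.range y)).radical.IsMaximal →
          ∀ r : R ⧸ Ideal.span {x},
            (∃ e : ℕ, r ^ (p ^ e) ∈ Ideal.span ((fun a => a ^ (p ^ e)) ''
              ((Ideal.span (Set.range y) : Ideal (R ⧸ Ideal.span {x})) :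
                Set (R ⧸ Ideal.span {x})))) →
            r ∈ Ideal.span (Set.range y)) →
      (∀ (n : ℕ) (y : Fin n → R),
          (n : WithBot ℕ∞) = ringKrullDim R →
          (Ideal.span (Set.range y)).radical.IsMaximal →
          ∀ r : R,
            (∃ e : ℕ, r ^ (p ^ e) ∈ Ideal.span ((fun a => a ^ (p ^ e)) ''
              ((Ideal.span (Set.range y) : Ideal R) : Set R))) →
            r ∈ Ideal.span (Set.range y))) := by
  intro H
  have hx : Pool.Agent.H215R3.DF.YY ∈ IsLocalRing.maximalIdeal Pool.Agent.H215R3.DF.RR := by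
    rw [Pool.Agent.H215R3.DF.mem_max]
    change Pool.Agent.H215R3.DF.e1 (Pool.Agent.H215R3.DF.c0 PowerSeries.X) = 0
    rw [Pool.Agent.H215R3.DF.c0_X, map_zero]
  have hreg : Pool.Agent.H215R3.DF.YY ∈ nonZeroDivisors Pool.Agent.H215R3.DF.RR :=
    mem_nonZeroDivisors_of_ne_zero Pool.Agent.H215R3.DF.YY_ne
  have heq : ∀ P ∈ minimalPrimes Pool.Agent.H215R3.DF.RR,
      ringKrullDim (Pool.Agent.H215R3.DF.RR ⧸ P) = ringKrullDim Pool.Agent.H215R3.DF.RR := by
    intro P hP
    rw [IsDomain.minimalPrimes_eq_singleton_bot, Set.mem_singleton_iff] at hP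
    subst hP
    exact ringKrullDim_eq_of_ringEquiv (RingEquiv.quotientBot Pool.Agent.H215R3.DF.RR)
  have hrad : (Ideal.span (Set.range Pool.Agent.H215R3.DF.yy)).radical.IsMaximal := by
    rw [Pool.Agent.H215R3.DF.radical_yy]
    exact IsLocalRing.maximalIdeal.isMaximal _
  exact Pool.Agent.H215R3.DF.rr_not_mem
    (H 2 Pool.Agent.H215R3.DF.RR Pool.Agent.H215R3.DF.YY hx hreg heq
      (fun n y _ _ r hr => hr.elim fun e he =>
        Pool.Agent.H215R3.DF.quot_closed (Ideal.span (Set.range y)) r e he)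
      4 Pool.Agent.H215R3.DF.yy Pool.Agent.H215R3.DF.dim_RR.symm hrad
      Pool.Agent.H215R3.DF.rr ⟨1, Pool.Agent.H215R3.DF.rr_sq⟩)

end Pool.Agent.S00136
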