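import Pool.Statements.S00185
import Pool.Agent.H882R3.TNConn
-- import your own Pool.Agent.* helpers here

set_option autoImplicit false
open Pool Pool.MP_5198f5_ag

namespace Pool.Agent.S00185

/-- For every n ≥ 1, the set of real upper triangular n×n matrices with unit diagonal such that every complex eigenvalue of S⁻¹Sᵀ has modulus 1 is a connected (nonempty) subset of the space of real n×n matrices. -/
theorem result :
    ∀ n : ℕ, 1 ≤ n →
      IsConnected {S : Matrix (Fin n) (Fin n) ℝ |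
        (∀ i j : Fin n, j < i → S i j = 0) ∧
        (∀ i : Fin n, S i i = 1) ∧
        ∀ z : ℂ, ((S⁻¹ * S.transpose).map Complex.ofReal).charpoly.IsRoot z → ‖z‖ = 1} := by
  intro n _
  open Pool.Agent.H882R3.TN Matrix in
  have hdet : ∀ S : Matrix (Fin n) (Fin n) ℝ, S ∈ UT n → IsUnit S.det := fun S hS => by
    rw [ut_det hS]; exact isUnit_one
  -- the spectral condition is `US`
  open Pool.Agent.H882R3.TN Matrix in
  have key : ∀ S : Matrix (Fin n) (Fin n) ℝ, S ∈ UT n →
      ((∀ z : ℂ, ((S⁻¹ * S.transpose).map Complex.ofReal).charpoly.IsRoot z → ‖z‖ = 1) ↔ US S) := by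
    intro S hS
    have hu := hdet S hS
    have c1 : S.map Complex.ofReal * (S⁻¹).map Complex.ofReal = 1 := by
      rw [← cmap_mul, Matrix.mul_nonsing_inv _ hu, cmap_one]
    have c2 : (S⁻¹).map Complex.ofReal * S.map Complex.ofReal = 1 := by
      rw [← cmap_mul, Matrix.nonsing_inv_mul _ hu, cmap_one]
    have hroot : ∀ z : ℂ, ((S⁻¹ * S.transpose).map Complex.ofReal).charpoly.IsRoot z ↔
        ∃ v : Fin n → ℂ, v ≠ 0 ∧
          (S.map Complex.ofReal)ᵀ *ᵥ v = z • ((S.map Complex.ofReal) *ᵥ v) := by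
      intro z
      rw [Polynomial.IsRoot, Matrix.eval_charpoly, ← Matrix.exists_mulVec_eq_zero_iff]
      constructor
      · rintro ⟨v, hv, h⟩
        refine ⟨v, hv, ?_⟩
        rw [Matrix.sub_mulVec, sub_eq_zero, cmap_mul] at h
        have h1 : (Matrix.scalar (Fin n)) z *ᵥ v = z • v := by
          ext i; simp [Matrix.scalar_apply, Matrix.mulVec_diagonal]
        rw [h1] at h
        have h2 := congrArg (S.map Complex.ofReal *ᵥ ·) h
        simp only [Matrix.mulVec_mulVec, Matrix.mulVec_smul] at h2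
        rw [← Matrix.mul_assoc, c1, Matrix.one_mul] at h2
        exact h2.symm
      · rintro ⟨v, hv, h⟩
        refine ⟨v, hv, ?_⟩
        rw [Matrix.sub_mulVec, sub_eq_zero, cmap_mul]
        have h1 : (Matrix.scalar (Fin n)) z *ᵥ v = z • v := by
          ext i; simp [Matrix.scalar_apply, Matrix.mulVec_diagonal]
        rw [h1, ← Matrix.mulVec_mulVec, cmap_transpose, h, Matrix.mulVec_smul,
          Matrix.mulVec_mulVec, c2, Matrix.one_mulVec]
    constructor
    · intro h z v hv hz
      exact h z ((hroot z).mpr ⟨v, hv, hz⟩)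
    · intro h z hz
      obtain ⟨v, hv, hv2⟩ := (hroot z).mp hz
      exact h z v hv hv2
  open Pool.Agent.H882R3.TN Matrix in
  have hone : (1 : Matrix (Fin n) (Fin n) ℝ) ∈ Ell (Fin n) ∩ UT n := by
    refine ⟨ell_of_orth (by simp), ?_, ?_⟩
    · intro i j hij; exact Matrix.one_apply_ne hij.ne'
    · intro i; exact Matrix.one_apply_eq i
  open Pool.Agent.H882R3.TN Matrix in
  have hconn : IsConnected (Ell (Fin n) ∩ UT n) := ⟨⟨1, hone⟩, ell_ut_preconnected⟩
  refine hconn.subset_closure ?_ ?_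
  · rintro S ⟨hE, hU⟩
    exact ⟨hU.1, hU.2, (key S hU).mpr (Pool.Agent.H882R3.TN.us_ell hE)⟩
  · rintro S ⟨h1, h2, h3⟩
    have hU : S ∈ Pool.Agent.H882R3.TN.UT n := ⟨h1, h2⟩
    exact Pool.Agent.H882R3.TN.ut_closure hU
      (Pool.Agent.H882R3.TN.density n S (hdet S hU) ((key S hU).mp h3))

end Pool.Agent.S00185
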