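import Pool.Statements.S00199
import Pool.Agent.H737R3.Bridge

set_option autoImplicit false
open Pool Pool.MP_5c1225_ag

namespace Pool.Agent.S00199

/-- For any nonempty finite set Y of points in complex projective n-space and m ≥ 1, the least degree of a nonzero polynomial vanishing to order m at all points of Y is at least m(α(I_Y)+n−1)/n. -/
theorem result :
    ∀ (n : ℕ), 1 ≤ n →
    ∀ (Y : Finset (Fin (n + 1) → ℂ)), Y.Nonempty → (∀ p ∈ Y, p ≠ 0) →
    ∀ (m : ℕ), 1 ≤ m →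
    ∀ f : MvPolynomial (Fin (n + 1)) ℂ,
      f ∈ (⨅ p ∈ Y,
        (RingHom.ker (MvPolynomial.eval₂Hom (Polynomial.C : ℂ →+* Polynomial ℂ)
          (fun i => Polynomial.C (p i) * Polynomial.X))) ^ m :
          Ideal (MvPolynomial (Fin (n + 1)) ℂ)) →
      f ≠ 0 →
      ∃ g : MvPolynomial (Fin (n + 1)) ℂ,
        g ∈ (⨅ p ∈ Y,
          RingHom.ker (MvPolynomial.eval₂Hom (Polynomial.C : ℂ →+* Polynomial ℂ)
            (fun i => Polynomial.C (p i) * Polynomial.X)) :
            Ideal (MvPolynomial (Fin (n + 1)) ℂ)) ∧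
        g ≠ 0 ∧
        m * (g.totalDegree + n - 1) ≤ n * f.totalDegree := by
  classical
  intro n hn Y hY hY0 m hm f hf hf0
  have hfp : ∀ p ∈ Y, f ∈ Pool.Agent.H737R3.linI p ^ m := by
    intro p hp
    have h1 := (Submodule.mem_iInf _).1 hf p
    have h2 := (Submodule.mem_iInf _).1 h1 hp
    rwa [Pool.Agent.H737R3.ker_eq_linI (hY0 p hp)] at h2
  -- the part of top degree
  have hF0 := Pool.Agent.H737R3.top_component hf0
  have hFh := MvPolynomial.homogeneousComponent_isHomogeneous f.totalDegree f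
  have hFv : ∀ p ∈ Y, MvPolynomial.homogeneousComponent f.totalDegree f ∈
      Pool.Agent.Chud.mI p ^ m := fun p hp =>
    Ideal.pow_right_mono (Pool.Agent.H737R3.linI_le_mI p) m
      (Pool.Agent.H737R3.component_mem p m (hfp p hp) _)
  -- a form of least degree which vanishes at the points
  have hex : ∃ d : ℕ, ∃ G : MvPolynomial (Fin (n + 1)) ℂ, G ≠ 0 ∧ G.IsHomogeneous d ∧
      ∀ p ∈ Y, G ∈ Pool.Agent.Chud.mI p ^ 1 :=
    ⟨_, _, hF0, hFh, fun p hp => Ideal.pow_le_pow_right hm (hFv p hp)⟩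
  obtain ⟨G, hG0, hGh, hGv⟩ := Nat.find_spec hex
  have hlow : Pool.Agent.H580C.LowT (Y : Set (Fin (n + 1) → ℂ)) 1 (Nat.find hex) := by
    intro F d hF hFd hFv
    exact Nat.find_min' hex ⟨F, hF, hFd, fun p hp => hFv p hp⟩
  have key := Pool.Agent.H580C.p_CD ℂ n 1 (Nat.find hex) m f.totalDegree
    (Y : Set (Fin (n + 1) → ℂ)) _ hn le_rfl Y.finite_toSet (by simpa using hY)
    (fun v hv => hY0 v hv) hlow hF0 hFh (fun p hp => hFv p hp)
  refine ⟨G, ?_, hG0, ?_⟩
  · rw [Submodule.mem_iInf]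
    intro p
    rw [Submodule.mem_iInf]
    intro hp
    rw [Pool.Agent.H737R3.ker_eq_linI (hY0 p hp)]
    have := Pool.Agent.H737R3.mem_linI_pow hGh (hY0 p hp) (hGv p hp)
    rwa [pow_one] at this
  · rw [hGh.totalDegree hG0]
    have h1 : 1 + n - 1 = n := by omega
    rw [h1] at key
    rw [mul_comm n]
    exact key

end Pool.Agent.S00199
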