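import Pool.Statements.S00212
import Pool.Agent.H379R3.Sch
import Pool.Agent.H379R3.Dim

set_option autoImplicit false
open MvPolynomial
open Pool Pool.MP_63dc40_ag
open Pool.Agent.H379R3

namespace Pool.Agent.S00212

/-- The negation of the preceding statement: Take a degree-d codimension-one foliation of ℙⁿ (n≥2), given by an integrable form whose singular set has codimension ≥2. If its non-Kupka set has codimension ≥3, the local ring of the foliation scheme at it is regular, i.e. Krull dimension equals tangent-space dimension. -/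
theorem result :
    ¬ (∀ (n d : ℕ), 2 ≤ n →
    ∀ (G : Fin (n+1) → MvPolynomial (Fin (n+1)) (MvPolynomial (Fin (n+1) × Sym (Fin (n+1)) (d+1)) ℂ)),
    (∀ i, G i = ∑ s : Sym (Fin (n+1)) (d+1),
        MvPolynomial.C (MvPolynomial.X (i, s)) *
          ((s : Multiset (Fin (n+1))).map (fun j => MvPolynomial.X j)).prod) →
    ∀ (I : Ideal (MvPolynomial (Fin (n+1) × Sym (Fin (n+1)) (d+1)) ℂ)),
    I = Ideal.span {r | (∃ m, r = MvPolynomial.coeff m (∑ i, MvPolynomial.X i * G i)) ∨
        (∃ i j k m, r = MvPolynomial.coeff m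
          (G i * (pderiv j (G k) - pderiv k (G j)) + G j * (pderiv k (G i) - pderiv i (G k))
            + G k * (pderiv i (G j) - pderiv j (G i))))} →
    ∀ (c : Fin (n+1) × Sym (Fin (n+1)) (d+1) → ℂ), c ≠ 0 →
    I ≤ RingHom.ker (MvPolynomial.eval c) →
    ringKrullDim (MvPolynomial (Fin (n+1)) ℂ ⧸
        Ideal.span (Set.range (fun i => MvPolynomial.map (MvPolynomial.eval c) (G i))))
      ≤ ((n - 1 : ℕ) : WithBot ℕ∞) →
    ringKrullDim (MvPolynomial (Fin (n+1)) ℂ ⧸
        Ideal.span (Set.range (fun i => MvPolynomial.map (MvPolynomial.eval c) (G i)) ∪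
          Set.range (fun p : Fin (n+1) × Fin (n+1) =>
            MvPolynomial.map (MvPolynomial.eval c) (pderiv p.1 (G p.2) - pderiv p.2 (G p.1)))))
      ≤ ((n - 2 : ℕ) : WithBot ℕ∞) →
    ∀ (P : Ideal (MvPolynomial (Fin (n+1) × Sym (Fin (n+1)) (d+1)) ℂ ⧸ I)) [P.IsPrime],
    P = Ideal.map (Ideal.Quotient.mk I) (RingHom.ker (MvPolynomial.eval c)) →
    ringKrullDim (Localization.AtPrime P) =
      ((Module.finrank (IsLocalRing.ResidueField (Localization.AtPrime P))
        (IsLocalRing.CotangentSpace (Localization.AtPrime P)) : ℕ) : WithBot ℕ∞)) := by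
  intro h
  have hle : I0 ≤ RingHom.ker (MvPolynomial.eval cc) := I0_le
  have hPp : (Ideal.map (Ideal.Quotient.mk I0) (RingHom.ker (MvPolynomial.eval cc))).IsPrime := by
    have : (RingHom.ker (MvPolynomial.eval cc)).IsPrime := RingHom.ker_isPrime _
    exact Ideal.map_isPrime_of_surjective Ideal.Quotient.mk_surjective (by rwa [Ideal.mk_ker])
  have hW : (fun i => MvPolynomial.map (MvPolynomial.eval cc) (G0 i)) = W0 ℂ := by
    funext i; exact map_eval_G0 i
  have hD : (fun p : Fin 4 × Fin 4 =>
      MvPolynomial.map (MvPolynomial.eval cc) (pderiv p.1 (G0 p.2) - pderiv p.2 (G0 p.1))) =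
      fun p => D (W0 ℂ) p.1 p.2 := by
    funext p
    rw [map_sub, ← pderiv_map, ← pderiv_map, map_eval_G0, map_eval_G0]
    rfl
  have hc : cc ≠ 0 := by
    intro h0
    have h1 := map_eval_G0 3
    rw [map_G0] at h1
    have h2 := congrArg (MvPolynomial.eval (fun _ => (1 : ℂ))) h1
    simp [h0, W0] at h2
  have h1 := h 3 7 (by norm_num) G0 (fun i => rfl) I0 rfl cc hc hle
    (by
      refine ringKrullDim_quotient_le_of_primes _ _ fun p hp hJ => ?_
      have hJ' : Ideal.span (Set.range (W0 ℂ)) ≤ p := by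
        rw [← hW]; exact hJ
      exact dim_le_two p hJ')
    (by
      refine ringKrullDim_quotient_le_of_primes _ _ fun p hp hJ => ?_
      have hJ' : Ideal.span (Set.range (W0 ℂ) ∪
          Set.range (fun q : Fin 4 × Fin 4 => D (W0 ℂ) q.1 q.2)) ≤ p := by
        rw [← hD, ← hW]; exact hJ
      exact dim_le_one p hJ')
    (Ideal.map (Ideal.Quotient.mk I0) (RingHom.ker (MvPolynomial.eval cc))) rfl
  exact not_regular I0 cc psi constantCoeff_psi X_sq_dvd_psi qq qq_mem qq_mem_sq not_dvd_psi_qq
    _ rfl h1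

end Pool.Agent.S00212
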