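import Pool.Statements.S00249
import Pool.Agent.H737R3.Bridge

set_option autoImplicit false
open Pool Pool.MP_70675a_ag

namespace Pool.Agent.S00249

/-- Over an algebraically closed field of char 0, for n≥1, any nonempty finite set W of points in P^n and r≥1, every nonzero degree-d form vanishing to order rn at all points of W has d ≥ r·α(W) + r(n−1). -/
theorem result :
    ∀ (k : Type) [Field k] [IsAlgClosed k] [CharZero k] (n : ℕ), 1 ≤ n →
    ∀ (W : Finset (Projectivization k (Fin (n+1) → k))), W.Nonempty →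
    ∀ (r : ℕ), 1 ≤ r →
    ∀ (d : ℕ) (f : MvPolynomial (Fin (n+1)) k), f ≠ 0 → f.IsHomogeneous d →
      (∀ P ∈ W, f ∈ (Ideal.span {g : MvPolynomial (Fin (n+1)) k |
          g.IsHomogeneous 1 ∧ MvPolynomial.eval P.rep g = 0}) ^ (r * n)) →
      ∃ (e : ℕ) (g : MvPolynomial (Fin (n+1)) k), g ≠ 0 ∧ g.IsHomogeneous e ∧
        (∀ P ∈ W, g ∈ Ideal.span {h : MvPolynomial (Fin (n+1)) k |
          h.IsHomogeneous 1 ∧ MvPolynomial.eval P.rep h = 0}) ∧
        r * e + r * (n - 1) ≤ d := by
  classical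
  intro k _ _ _ n hn W hW r hr d f hf0 hfd hfW
  have hrep : ∀ P ∈ W, P.rep ≠ 0 := fun P _ => P.rep_nonzero
  have hT : ∃ e : ℕ, ∃ g : MvPolynomial (Fin (n + 1)) k, g ≠ 0 ∧ g.IsHomogeneous e ∧
      ∀ P ∈ W, g ∈ Pool.Agent.H737R3.linI P.rep := by
    refine ⟨d, f, hf0, hfd, fun P hP => ?_⟩
    have h1 : r * n ≠ 0 := Nat.mul_ne_zero (by omega) (by omega)
    exact Ideal.pow_le_self h1 (hfW P hP)
  obtain ⟨g, hg0, hgh, hgW⟩ := Nat.find_spec hT
  have hmin := fun e he => Nat.find_min' hT (m := e) he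
  set B := Nat.find hT with hB
  have hlow : Pool.Agent.H580C.LowT
      ((W.image (fun P => P.rep) : Finset (Fin (n + 1) → k)) : Set (Fin (n + 1) → k)) 1 B := by
    intro F e hF hFe hFv
    apply hmin
    refine ⟨F, hF, hFe, fun P hP => ?_⟩
    have h1 := hFv P.rep (by
      simp only [Finset.coe_image, Set.mem_image, Finset.mem_coe]
      exact ⟨P, hP, rfl⟩)
    have h2 := Pool.Agent.H737R3.mem_linI_pow hFe (hrep P hP) h1
    rwa [pow_one] at h2
  have key := Pool.Agent.H580C.p_CD k n 1 B (r * n) d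
    ((W.image (fun P => P.rep) : Finset (Fin (n + 1) → k)) : Set (Fin (n + 1) → k)) f hn le_rfl
    (Finset.finite_toSet _) (by
      obtain ⟨P, hP⟩ := hW
      exact ⟨P.rep, by
        simp only [Finset.coe_image, Set.mem_image, Finset.mem_coe]
        exact ⟨P, hP, rfl⟩⟩)
    (fun v hv => by
      simp only [Finset.coe_image, Set.mem_image, Finset.mem_coe] at hv
      obtain ⟨P, hP, rfl⟩ := hv
      exact hrep P hP) hlow hf0 hfd
    (fun v hv => by
      simp only [Finset.coe_image, Set.mem_image, Finset.mem_coe] at hv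
      obtain ⟨P, hP, rfl⟩ := hv
      exact Ideal.pow_right_mono (Pool.Agent.H737R3.linI_le_mI P.rep) _ (hfW P hP))
  refine ⟨B, g, hg0, hgh, hgW, ?_⟩
  have e1 : 1 + n - 1 = n := by omega
  rw [e1] at key
  have h3 : n * (r * (B + n - 1)) ≤ n * d := by
    calc n * (r * (B + n - 1)) = r * n * (B + n - 1) := by ring
      _ ≤ d * n := key
      _ = n * d := by ring
  have h4 : r * (B + n - 1) ≤ d := Nat.le_of_mul_le_mul_left h3 (by omega)
  have h5 : B + n - 1 = B + (n - 1) := by omega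
  rw [h5, Nat.mul_add] at h4
  exact h4


end Pool.Agent.S00249
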