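import Pool.Statements.S00260
import Pool.Agent.H607R3.PS.RegR
import Pool.Agent.H841.PSRes
import Pool.Agent.H633R3.PS.Loc
import Pool.Agent.H291R3.PSB.Base
import Pool.Agent.H51R3.PS.TaskDim
import Pool.Agent.H607R3.PS.Len

set_option autoImplicit false
open Pool Pool.MP_7228a2_ag

namespace Pool.Agent.S00260

/-- The negation of the preceding statement: For every Noetherian local ring A and finitely generated A-modules M, N, if M has a finite-length projective resolution and M ⊗ N has finite length, then dim Supp M + dim Supp N ≤ Krull dimension of A. -/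
theorem result :
    ¬ (∀ (A : Type) [CommRing A] [IsNoetherianRing A] [IsLocalRing A]
      (M N : Type) [AddCommGroup M] [Module A M] [AddCommGroup N] [Module A N],
      Module.Finite A M → Module.Finite A N →
      (∃ P : CategoryTheory.ProjectiveResolution (ModuleCat.of A M), ∃ n : ℕ,
        ∀ i : ℕ, n < i → CategoryTheory.Limits.IsZero (P.complex.X i)) →
      IsFiniteLength A (TensorProduct A M N) →
      Module.supportDim A M + Module.supportDim A N ≤ ringKrullDim A) := by
  intro hall
  obtain ⟨T, i1, i2, i3, i4, α, β, γ, hb⟩ := Pool.Agent.H291R3.PSB.taskBase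
  have hα : α ∈ IsLocalRing.maximalIdeal T := by
    rw [hb.max]; exact Ideal.subset_span (by simp)
  have hβ : β ∈ IsLocalRing.maximalIdeal T := by
    rw [hb.max]; exact Ideal.subset_span (by simp)
  have hγ : γ ∈ IsLocalRing.maximalIdeal T := by
    rw [hb.max]; exact Ideal.subset_span (by simp)
  haveI : IsLocalRing (Pool.Agent.H607R3.PS.RR T α β γ) :=
    Pool.Agent.H607R3.PS.taskLoc T α β γ hα hβ hγ
  obtain ⟨P, n, hP⟩ := Pool.Agent.H607R3.PS.finRes_RR (T := T) (α := α) (β := β) (γ := γ)
    Pool.Agent.H607R3.PS.taskRes hγ hb.reg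
  have h := hall (Pool.Agent.H607R3.PS.RR T α β γ)
    (Pool.Agent.H607R3.PS.RR T α β γ ⧸ Pool.Agent.H607R3.PS.cI
      (Pool.Agent.H607R3.PS.RR.x : Pool.Agent.H607R3.PS.RR T α β γ) Pool.Agent.H607R3.PS.RR.y
      Pool.Agent.H607R3.PS.RR.z Pool.Agent.H607R3.PS.RR.w Pool.Agent.H607R3.PS.RR.s)
    (Pool.Agent.H607R3.PS.RR T α β γ ⧸
      (Ideal.span {Pool.Agent.H607R3.PS.RR.s} : Ideal (Pool.Agent.H607R3.PS.RR T α β γ)))
    inferInstance inferInstance ⟨P, n, fun i hi => hP i hi.le⟩
    (Pool.Agent.H607R3.PS.Len.taskLen T α β γ hb)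
  exact absurd h (not_le.mpr (H51R3.PS.taskDim T α β γ hb))

end Pool.Agent.S00260
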