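import Pool.Statements.S00308
import Pool.Agent.H929R3.Main

set_option autoImplicit false
open Pool Pool.MP_8fff0f_ag

namespace Pool.Agent.S00308

open Pool.Agent.H929R3 in
/-- The index equivalence. -/
def eqv (G : Type) [AddCommGroup G] : {g : Fin 3 → G // ∑ i, g i = 0} ≃ G × G where
  toFun s := (s.1 0, s.1 1)
  invFun r := ⟨![r.1, r.2, - r.1 - r.2], by simp [Fin.sum_univ_three]⟩
  left_inv := by
    rintro ⟨g, h⟩
    have h' : g 0 + g 1 + g 2 = 0 := by rw [← h, Fin.sum_univ_three]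
    have h2 : - g 0 - g 1 = g 2 := by
      rw [← sub_eq_zero, ← neg_eq_zero, ← h']; abel
    apply Subtype.ext
    funext i
    fin_cases i
    · rfl
    · rfl
    · exact h2
  right_inv := by rintro ⟨a, b⟩; rfl

open Pool.Agent.H929R3 in
theorem co_eqv (G : Type) [AddCommGroup G] (s : {g : Fin 3 → G // ∑ i, g i = 0}) (c : Fin 3) :
    co c (eqv G s) = s.1 c := by
  obtain ⟨g, h⟩ := s
  have h' : g 0 + g 1 + g 2 = 0 := by rw [← h, Fin.sum_univ_three]
  have h2 : - g 0 - g 1 = g 2 := by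
    rw [← sub_eq_zero, ← neg_eq_zero, ← h']; abel
  fin_cases c
  · rfl
  · rfl
  · exact h2

open Pool.Agent.H929R3 in
theorem map_eq (G : Type) [AddCommGroup G] :
    (fun g : {g : Fin 3 → G // ∑ i, g i = 0} =>
      ∏ i : Fin 3, (MvPolynomial.X (i, g.1 i) : MvPolynomial (Fin 3 × G) ℂ)) =
      fun s => MvPolynomial.monomial (E0 (eqv G s)) 1 := by
  funext s
  rw [E0, MvPolynomial.monomial_sum_one]
  refine Finset.prod_congr rfl fun c _ => ?_
  rw [co_eqv]
  rfl

open Pool.Agent.H929R3 in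
/-- The negation of the preceding statement: For every finite abelian group G, the toric ideal of the group-based model on the tripod is generated by polynomials of degree at most ∣G∣. This ideal is the kernel of q_{(g1,g2,g3)} ↦ a1_{g1}·a2_{g2}·a3_{g3} over tuples with g1+g2+g3=0. -/
theorem result :
    ¬ (∀ (G : Type) [AddCommGroup G] [Fintype G],
      ∃ S : Set (MvPolynomial {g : Fin 3 → G // ∑ i, g i = 0} ℂ),
        (∀ p ∈ S, p.totalDegree ≤ Fintype.card G) ∧
        Ideal.span S =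
          RingHom.ker
            (MvPolynomial.aeval
              (fun g : {g : Fin 3 → G // ∑ i, g i = 0} =>
                ∏ i : Fin 3, (MvPolynomial.X (i, g.1 i) : MvPolynomial (Fin 3 × G) ℂ)))) := by
  intro H
  obtain ⟨K, N, hK, hN, hG, hlt⟩ := exists_beating Polynomial.X
  rw [Polynomial.eval_X] at hlt
  have : NeZero N := ⟨hN.ne'⟩
  obtain ⟨T0, T1, g0, hdisj, hne, hd0, _, hlin, hfib⟩ := core hK hG (eqv (GG N))
  obtain ⟨S, hS1, hS2⟩ := H (GG N)
  rw [map_eq] at hS2
  have h3 := not_mem_span (fun s => E0 (eqv (GG N) s)) T0 T1 g0 0 hdisj hne (hfib 0) S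
    (fun q hq => ⟨RingHom.mem_ker.mp (hS2 ▸ Ideal.subset_span hq),
      lt_of_le_of_lt (hS1 q hq) (by rw [hd0, card_GG]; exact hlt)⟩)
  apply h3
  rw [pow_zero, one_mul, hS2]
  exact RingHom.mem_ker.mpr (binomial_mem _ T0 T1 hlin)

end Pool.Agent.S00308
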