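import Pool.Statements.S00315
import Pool.Agent.H335R3.Circ3

set_option autoImplicit false
open Pool Pool.MP_959e05_ag

namespace Pool.Agent.S00315

open MvPolynomial Pool.Agent.H335R3

/-- the generic matrix product -/
noncomputable def Phi {n l r : ℕ} (e : Pat n l) : RR n r := ∑ a, AA e.1.1 a * BB e.1.2 a

theorem chain {n l r : ℕ} (D : Derivation ℂ (RR n r) (RR n r)) (P : MvPolynomial (Pat n l) ℂ) :
    D (aeval (Phi (n := n) (l := l) (r := r)) P) =
      ∑ e, aeval (Phi (n := n) (l := l) (r := r)) (pderiv e P) * D (Phi e) := by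
  classical
  induction P using MvPolynomial.induction_on with
  | C a => simp [aeval_C]
  | add p q hp hq =>
    simp only [map_add, hp, hq, add_mul, Finset.sum_add_distrib]
  | mul_X p i hp =>
    simp only [map_mul, aeval_X, D.leibniz, hp, Derivation.leibniz, map_add, smul_eq_mul, pderiv_X]
    simp only [add_mul, Finset.sum_add_distrib, Finset.mul_sum]
    congr 1
    · rw [Finset.sum_eq_single i]
      · simp
      · intro j _ hj
        simp [Pi.single_apply, hj.symm]
      · intro h; exact absurd (Finset.mem_univ i) h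
    · apply Finset.sum_congr rfl
      intro j _
      ring

theorem pderiv_inl_Phi {n l r : ℕ} (e : Pat n l) (i : Fin n) (a : Fin r) :
    pderiv (Sum.inl (i, a) : Vr n r) (Phi (r := r) e) = if e.1.1 = i then BB e.1.2 a else 0 := by
  classical
  unfold Phi AA BB
  rw [map_sum]
  rw [Finset.sum_eq_single a]
  · rw [pderiv_mul, pderiv_X, pderiv_X_of_ne (by simp)]
    by_cases h : e.1.1 = i
    · simp [h]
    · rw [if_neg h, Pi.single_apply, if_neg]
      · simp
      · simpa using h
  · intro b _ hb
    rw [pderiv_mul, pderiv_X_of_ne (by simp [hb]), pderiv_X_of_ne (by simp)]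
    simp
  · intro h; exact absurd (Finset.mem_univ a) h

theorem pderiv_inr_Phi {n l r : ℕ} (e : Pat n l) (j : Fin n) (a : Fin r) :
    pderiv (Sum.inr (j, a) : Vr n r) (Phi (r := r) e) = if e.1.2 = j then AA e.1.1 a else 0 := by
  classical
  unfold Phi AA BB
  rw [map_sum]
  rw [Finset.sum_eq_single a]
  · rw [pderiv_mul, pderiv_X (R := ℂ) (Sum.inr (j, a) : Vr n r) (Sum.inr (e.1.2, a)), pderiv_X_of_ne (by simp)]
    by_cases h : e.1.2 = j
    · simp [h]
    · rw [if_neg h, Pi.single_apply, if_neg]
      · simp
      · simpa using h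
  · intro b _ hb
    rw [pderiv_mul, pderiv_X_of_ne (by simp), pderiv_X_of_ne (by simp [hb])]
    simp
  · intro h; exact absurd (Finset.mem_univ a) h

/-- the gradient of a polynomial relation is a stress -/
theorem grad_isS {n l r : ℕ} (P : MvPolynomial (Pat n l) ℂ)
    (h0 : aeval (Phi (n := n) (l := l) (r := r)) P = 0) :
    IsS n l r (fun i j => if h : ((j - i : Fin n) : ℕ) < l then
      aeval (Phi (n := n) (l := l) (r := r)) (pderiv (⟨(i, j), h⟩ : Pat n l) P) else 0) := by
  classical
  have conv : ∀ (f : Fin n × Fin n → RR n r) (g : Fin n × Fin n → RR n r),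
      (∀ e : Pat n l, g e.1 = aeval (Phi (n := n) (l := l) (r := r)) (pderiv e P)) →
      (∀ p : Fin n × Fin n, ¬ ((p.2 - p.1 : Fin n) : ℕ) < l → g p = 0) →
      ∑ e : Pat n l, aeval (Phi (n := n) (l := l) (r := r)) (pderiv e P) * f e.1 =
        ∑ p : Fin n × Fin n, g p * f p := by
    intro f g hg1 hg2
    have := Finset.sum_subtype_of_mem (p := fun p : Fin n × Fin n => ((p.2 - p.1 : Fin n) : ℕ) < l)
      (s := Finset.univ.filter (fun p : Fin n × Fin n => ((p.2 - p.1 : Fin n) : ℕ) < l))
      (fun p : Fin n × Fin n => g p * f p)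
      (by intro x hx; simpa using hx)
    have h2 : (Finset.univ.filter (fun p : Fin n × Fin n => ((p.2 - p.1 : Fin n) : ℕ) < l)).subtype
        (fun p : Fin n × Fin n => ((p.2 - p.1 : Fin n) : ℕ) < l) = Finset.univ := by
      ext x
      simp [x.2]
    rw [h2] at this
    have h3 : ∑ e : Pat n l, aeval (Phi (n := n) (l := l) (r := r)) (pderiv e P) * f e.1 =
        ∑ e : Pat n l, g e.1 * f e.1 := by
      apply Finset.sum_congr rfl
      intro e _
      rw [hg1]
    rw [h3, this, Finset.sum_filter_of_ne]
    intro p _ hp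
    by_contra hcon
    apply hp
    rw [hg2 p hcon, zero_mul]
  set G : Fin n × Fin n → RR n r := fun p => if h : ((p.2 - p.1 : Fin n) : ℕ) < l then
      aeval (Phi (n := n) (l := l) (r := r)) (pderiv (⟨p, h⟩ : Pat n l) P) else 0 with hG
  have hG1 : ∀ e : Pat n l, G e.1 = aeval (Phi (n := n) (l := l) (r := r)) (pderiv e P) := by
    intro e
    simp only [hG]
    rw [dif_pos e.2]
  have hG2 : ∀ p : Fin n × Fin n, ¬ ((p.2 - p.1 : Fin n) : ℕ) < l → G p = 0 := by
    intro p hp
    simp only [hG]
    rw [dif_neg hp]
  refine ⟨?_, ?_, ?_⟩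
  · intro i j h
    rw [dif_neg (by omega)]
  · intro a j
    have h1 := chain (pderiv (Sum.inr (j, a) : Vr n r)) P
    rw [h0, map_zero] at h1
    simp only [pderiv_inr_Phi] at h1
    rw [conv (fun p => if p.2 = j then AA p.1 a else 0) G hG1 hG2, Fintype.sum_prod_type] at h1
    refine Eq.trans ?_ h1.symm
    apply Finset.sum_congr rfl
    intro i _
    simp only [mul_ite, mul_zero, Finset.sum_ite_eq', Finset.mem_univ, if_true]
    rw [mul_comm]
  · intro i a
    have h1 := chain (pderiv (Sum.inl (i, a) : Vr n r)) P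
    rw [h0, map_zero] at h1
    simp only [pderiv_inl_Phi] at h1
    rw [conv (fun p => if p.1 = i then BB p.2 a else 0) G hG1 hG2, Fintype.sum_prod_type] at h1
    refine Eq.trans ?_ h1.symm
    have h5 : ∑ x : Fin n, ∑ y : Fin n, G (x, y) * (if (x, y).1 = i then BB (x, y).2 a else 0) =
        ∑ y : Fin n, G (i, y) * BB y a := by
      rw [Finset.sum_eq_single i]
      · simp
      · intro i' _ hi'
        simp [hi']
      · intro h; exact absurd (Finset.mem_univ i) h
    rw [h5]

theorem poly_zero {n l r : ℕ} [NeZero n] (hr : r ≤ n) (h : n * l ≤ r * (2 * n - r)) (N : ℕ) :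
    ∀ P : MvPolynomial (Pat n l) ℂ, P.totalDegree ≤ N →
      aeval (Phi (n := n) (l := l) (r := r)) P = 0 → P = 0 := by
  classical
  have const : ∀ P : MvPolynomial (Pat n l) ℂ, (∀ e, pderiv e P = 0) →
      aeval (Phi (n := n) (l := l) (r := r)) P = 0 → P = 0 := by
    intro P hP h0
    have hC : P = C (coeff 0 P) := by
      ext m
      rw [coeff_C]
      by_cases hm : 0 = m
      · rw [if_pos hm, ← hm]
      · rw [if_neg hm]
        obtain ⟨e, he⟩ : ∃ e, m e ≠ 0 := by
          by_contra hcon
          push Not at hcon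
          exact hm (by ext e; simp [hcon e])
        have h1 := coeff_pderiv (i := e) P (m - Finsupp.single e 1)
        rw [hP e, coeff_zero] at h1
        have h2 : m - Finsupp.single e 1 + Finsupp.single e 1 = m := by
          ext k
          by_cases hk : k = e
          · subst hk
            simp
            omega
          · simp [Finsupp.single_apply, Ne.symm hk]
        rw [h2] at h1
        rcases mul_eq_zero.mp h1.symm with h3 | h3
        · exact h3
        · exfalso
          exact Nat.cast_add_one_ne_zero _ h3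
    rw [hC, aeval_C] at h0
    rw [hC]
    have : coeff 0 P = 0 := by
      have h3 : (C (coeff 0 P) : RR n r) = 0 := by simpa [algebraMap_eq] using h0
      simpa using h3
    rw [this, map_zero]
  induction N with
  | zero =>
    intro P hdeg h0
    apply const P _ h0
    intro e
    have hP : P = C (coeff 0 P) := by
      rw [← totalDegree_eq_zero_iff_eq_C]
      omega
    rw [hP, pderiv_C]
  | succ N ih =>
    intro P hdeg h0
    apply const P _ h0
    intro e
    apply ih
    · apply Finset.sup_le
      intro m hm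
      have h1 : coeff (m + Finsupp.single e 1) P ≠ 0 := by
        intro h2
        rw [mem_support_iff, coeff_pderiv, h2, zero_mul] at hm
        exact hm rfl
      have h2 := le_totalDegree (mem_support_iff.mpr h1)
      rw [Finsupp.sum_add_index' (by intro; rfl) (by intro _ _ _; rfl), Finsupp.sum_single_index rfl] at h2
      omega
    · have := isS_zero hr h (grad_isS P h0) e.1.1 e.1.2
      rw [dif_pos e.2] at this
      exact this

/-- For the circulant pattern where entry (i,j) of an n×n matrix is observed iff j−i mod n < l: whenever r ≤ n and r(2n−r) ≥ nl, the observed entries of complex rank-≤r matrices are Zariski dense. -/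
theorem result :
    ∀ n l r : ℕ, 1 ≤ n → l ≤ n → r ≤ n → n * l ≤ r * (2 * n - r) →
      ∀ P : MvPolynomial {p : Fin n × Fin n // ((p.2 - p.1 : Fin n) : ℕ) < l} ℂ,
        (∀ M : Matrix (Fin n) (Fin n) ℂ, M.rank ≤ r →
          MvPolynomial.eval (fun e => M e.1.1 e.1.2) P = 0) → P = 0 := by
  intro n l r hn _ hr h P hP
  have : NeZero n := ⟨by omega⟩
  apply poly_zero hr h P.totalDegree P le_rfl
  apply MvPolynomial.funext
  intro x
  rw [map_zero]
  let A : Matrix (Fin n) (Fin r) ℂ := Matrix.of fun i a => x (Sum.inl (i, a))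
  let B : Matrix (Fin r) (Fin n) ℂ := Matrix.of fun a j => x (Sum.inr (j, a))
  have h1 := hP (A * B) ((Matrix.rank_mul_le_left A B).trans (by
    simpa using Matrix.rank_le_card_width A))
  rw [← h1]
  rw [← aeval_eq_eval, ← aeval_eq_eval]
  have h2 : ∀ Q : MvPolynomial (Pat n l) ℂ, aeval x (aeval (Phi (n := n) (l := l) (r := r)) Q) =
      aeval (fun e : Pat n l => (A * B) e.1.1 e.1.2) Q := by
    intro Q
    have : (aeval x : MvPolynomial (Vr n r) ℂ →ₐ[ℂ] ℂ).comp (aeval (Phi (n := n) (l := l) (r := r))) =
        aeval (fun e : Pat n l => (A * B) e.1.1 e.1.2) := by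
      apply MvPolynomial.algHom_ext
      intro e
      simp [Phi, AA, BB, Matrix.mul_apply, A, B]
    exact DFunLike.congr_fun this Q
  exact h2 P

end Pool.Agent.S00315
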