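import Pool.Statements.S00325
import Pool.Agent.H124R3.Main

set_option autoImplicit false
open Pool Pool.MP_985eef_ag

namespace Pool.Agent.S00325

/-- For all n,r ≥ 1, outside a proper Zariski-closed set, any C(n+r,r)+n+1 points of ℙ^N (N = C(n+r,r)−1) lie on some image of the degree-r Veronese embedding of ℙⁿ under a projective linear transformation. -/
theorem result :
    ∀ n r : ℕ, 1 ≤ n → 1 ≤ r →
      ∃ P : MvPolynomial (Fin (Nat.choose (n + r) r + n + 1) × Sym (Fin (n + 1)) r) ℂ,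
        P ≠ 0 ∧
        ∀ v : Fin (Nat.choose (n + r) r + n + 1) → Sym (Fin (n + 1)) r → ℂ,
          MvPolynomial.eval (fun p => v p.1 p.2) P ≠ 0 →
          ∃ g : (Sym (Fin (n + 1)) r → ℂ) ≃ₗ[ℂ] (Sym (Fin (n + 1)) r → ℂ),
            ∀ i, ∃ x : Fin (n + 1) → ℂ, x ≠ 0 ∧
              ∃ c : ℂ, c ≠ 0 ∧ v i = c • g (fun s => (s.1.map x).prod) := by
  intro n r hn hr
  exact Pool.Agent.H124R3.veronese_interpolation n r hn hr

end Pool.Agent.S00325
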