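import Pool.Statements.S00335
import Pool.Agent.H408R4.Main
-- import your own Pool.Agent.* helpers here

set_option autoImplicit false
open Pool Pool.MP_9d9f8d_ag

namespace Pool.Agent.S00335

open Pool.Agent.H408R4 Pool.Agent.H408R3.PDF Pool.Agent.Helper698.Dstab

theorem per_mul {g : ℕ → ℕ} {N q : ℕ} (h : ∀ t : ℕ, N ≤ t → g (t + q) = g t) :
    ∀ k t : ℕ, N ≤ t → g (t + q * k) = g t := by
  intro k
  induction k with
  | zero => intro t _; rw [mul_zero, add_zero]
  | succ k ih =>
    intro t ht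
    have e : t + q * (k + 1) = (t + q * k) + q := by ring
    rw [e, h _ (by omega), ih t ht]

theorem per_mod {g : ℕ → ℕ} {N q p : ℕ} (h : ∀ t : ℕ, N ≤ t → g (t + q) = g t)
    (hp : p = q * (N + 2)) (hNp : N ≤ p) (hp0 : 0 < p) (t : ℕ) (ht : p ≤ t) :
    g t = g (t % p + p) := by
  have h1 := Nat.mod_add_div t p
  have h2 : 1 ≤ t / p := Nat.div_pos ht hp0
  obtain ⟨d, hd⟩ : ∃ d, t / p = d + 1 := ⟨t / p - 1, by omega⟩
  have h3 : t = (t % p + p) + q * ((N + 2) * d) := by
    rw [hd] at h1
    calc t = t % p + p * (d + 1) := h1.symm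
      _ = (t % p + p) + p * d := by ring
      _ = (t % p + p) + q * ((N + 2) * d) := by rw [hp]; ring
  conv_lhs => rw [h3]
  exact per_mul h _ _ (by omega)

theorem card_lt (M n : ℕ) (h : n ≤ M) :
    (Finset.univ.filter (fun k : Fin M => k.val < n)).card = n := by
  rw [Fin.card_filter_val_lt]
  omega

/-- For every eventually periodic g with g(t) ≥ 2 for t ≥ 1, some field K and monomial ideal Q in K[x1..xn] have every symbolic power Q^(t) (minimal primes) of projective dimension exactly g(t), t ≥ 1. -/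
theorem result :
    ∀ g : ℕ → ℕ,
      (∃ N p : ℕ, 0 < p ∧ ∀ t : ℕ, N ≤ t → g (t + p) = g t) →
      (∀ t : ℕ, 1 ≤ t → 2 ≤ g t) →
      ∃ (K : Type) (_ : Field K) (n : ℕ) (Q : Ideal (MvPolynomial (Fin n) K)),
        (∃ s : Set (Fin n →₀ ℕ),
            Q = Ideal.span ((fun m => MvPolynomial.monomial m (1 : K)) '' s)) ∧
        ∀ t : ℕ, 1 ≤ t →
          ∃ J : Ideal (MvPolynomial (Fin n) K),
            (∀ f : MvPolynomial (Fin n) K,
                f ∈ J ↔ ∀ P ∈ Q.minimalPrimes, ∃ u : MvPolynomial (Fin n) K,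
                  u ∉ P ∧ u * f ∈ Q ^ t) ∧
            CategoryTheory.HasProjectiveDimensionLE
              (ModuleCat.of (MvPolynomial (Fin n) K) J) (g t) ∧
            ¬ CategoryTheory.HasProjectiveDimensionLE
              (ModuleCat.of (MvPolynomial (Fin n) K) J) (g t - 1) := by
  classical
  rintro g ⟨N, q, hq, hper⟩ hg
  obtain ⟨p, hpdef⟩ : ∃ p, p = q * (N + 2) := ⟨_, rfl⟩
  have hNp : N + 2 ≤ p := by
    rw [hpdef]; exact Nat.le_mul_of_pos_left _ hq
  have hp : 2 ≤ p := by omega
  have hmod : ∀ t, p ≤ t → g t = g (t % p + p) := per_mod hper hpdef (by omega) (by omega)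
  -- the bound
  let M := ∑ t ∈ Finset.range (2 * p), g t
  have hM0 : ∀ t, t < 2 * p → g t ≤ M := fun t ht =>
    Finset.single_le_sum (f := g) (fun _ _ => Nat.zero_le _) (Finset.mem_range.2 ht)
  have hM : ∀ t, g t ≤ M := by
    intro t
    rcases Nat.lt_or_ge t p with h | h
    · exact hM0 t (by omega)
    · rw [hmod t h]
      apply hM0
      have := Nat.mod_lt t (show 0 < p by omega)
      omega
  let I := Bool × Fin M
  let B : I → ℕ → Prop := fun i s =>
    (i.1 = false ∧ s ≤ p ∧ i.2.val < g s) ∨ (i.1 = true ∧ i.2.val < g (s % p + p))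
  let L : I → Prop := fun i => i.1 = true
  have hB1 : ∀ i s, 1 ≤ s → B i (s + p) → B i s := by
    rintro i s hs (⟨h1, h2, h3⟩ | ⟨h1, h2⟩)
    · omega
    · right
      rw [Nat.add_mod_right] at h2
      exact ⟨h1, h2⟩
  have hB2 : ∀ i s, p < s → (B i (s + p) ↔ B i s) := by
    intro i s hs
    constructor
    · exact hB1 i s (by omega)
    · rintro (⟨h1, h2, h3⟩ | ⟨h1, h2⟩)
      · omega
      · right
        rw [Nat.add_mod_right]
        exact ⟨h1, h2⟩
  let e : I ⊕ I ≃ Fin (Fintype.card (I ⊕ I)) := Fintype.equivFin _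
  let S := theSys e (L := L) hp hB1 hB2
  refine ⟨ℚ, inferInstance, Fintype.card (I ⊕ I), MI ℚ (S.SN 1), ⟨S.SN 1, rfl⟩, ?_⟩
  intro t ht
  refine ⟨MI ℚ (S.SN t), fun f => Sys.symb ht f, ?_, ?_⟩
  all_goals
    have hgt := hg t ht
    -- the active indices
    obtain ⟨C, hC1, hC2⟩ : ∃ C : Finset I, (∀ j, j ∈ C ↔ B j t ∧ (t ≤ p → ¬ L j)) ∧ C.card = g t := by
      refine ⟨(Finset.univ.filter (fun k : Fin M => k.val < g t)).map
        ⟨fun k => (decide (p < t), k), fun k k' h => (Prod.mk.inj h).2⟩, ?_, ?_⟩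
      · rintro ⟨b, k⟩
        rw [Finset.mem_map]
        constructor
        · rintro ⟨k', hk', h'⟩
          have h1 : k'.val < g t := (Finset.mem_filter.1 hk').2
          obtain ⟨h2, h3⟩ := Prod.mk.inj h'
          subst h3
          by_cases hpt : p < t
          · have hb : b = true := by rw [← h2]; simpa using hpt
            refine ⟨Or.inr ⟨hb, ?_⟩, fun h => by omega⟩
            show k'.val < g (t % p + p)
            rw [← hmod t hpt.le]; exact h1
          · have hb : b = false := by rw [← h2]; simpa using hpt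
            refine ⟨Or.inl ⟨hb, by omega, h1⟩, fun _ hL => ?_⟩
            have hL' : b = true := hL
            rw [hb] at hL'
            exact Bool.false_ne_true hL'
        · rintro ⟨h1, h2⟩
          refine ⟨k, Finset.mem_filter.2 ⟨Finset.mem_univ _, ?_⟩, ?_⟩
          · rcases h1 with ⟨_, _, h3⟩ | ⟨h3, h4⟩
            · exact h3
            · by_cases hpt : t ≤ p
              · exact absurd h3 (h2 hpt)
              · rw [hmod t (by omega)]; exact h4
          · show (decide (p < t), k) = (b, k)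
            rcases h1 with ⟨h3, h4, _⟩ | ⟨h3, h4⟩
            · have hb : b = false := h3
              rw [hb, decide_eq_false (by omega)]
            · have hb : b = true := h3
              have hpt : ¬ t ≤ p := fun hpt => h2 hpt h3
              rw [hb, decide_eq_true (by omega)]
      · rw [Finset.card_map]
        exact card_lt M (g t) (hM t)
  · have h1 : QD ℚ (S.SN t) (g t + 2) :=
      upper e hp hB1 hB2 t (g t) hgt C (fun j h1 h2 => (hC1 j).2 ⟨h1, h2⟩) hC2.le
    exact PD_ideal (MI ℚ (S.SN t)) (t := g t + 1) (by omega) h1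
  · intro h
    have h2 : ¬ QD ℚ (S.SN t) (C.card + 1) := by
      apply lower e hp hB1 hB2 t ht C
      · rw [← Finset.card_pos, hC2]; omega
      · exact fun j hj => (hC1 j).1 hj
    apply h2
    rw [hC2]
    have h3 : PD (R := MvPolynomial (Fin (Fintype.card (I ⊕ I))) ℚ) (MI ℚ (S.SN t)) (g t - 1 + 1) := h
    rw [Nat.sub_add_cancel (by omega)] at h3
    exact PD_right (MI ℚ (S.SN t)).subtype (MI ℚ (S.SN t)).mkQ (MI ℚ (S.SN t)).injective_subtype
      (MI ℚ (S.SN t)).mkQ_surjective (LinearMap.exact_subtype_mkQ _) h3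
      ((PD_projective (A := MvPolynomial (Fin (Fintype.card (I ⊕ I))) ℚ)).mono (by omega))

end Pool.Agent.S00335
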