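import Pool.Statements.S00348
import Pool.Agent.H217R3.Dense
import Pool.Agent.H217R3.Bridge

set_option autoImplicit false
open Pool Pool.MP_a30cf1_ag

namespace Pool.Agent.S00348

/-- The negation of the preceding statement: For L ≥ 1 and r ≥ 2, any coordinatewise-minimal positive width vector (with d_0, d_L fixed) whose depth-L polynomial network with x^r activation has Zariski-dense output set in the ambient space is unimodal. -/
theorem result :
    ¬ (∀ (L r : ℕ), 1 ≤ L → 2 ≤ r →
  ∀ Filling : (Fin (L+1) → ℕ) → Prop,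
  (∀ e : Fin (L+1) → ℕ, Filling e ↔
    ∀ P : MvPolynomial (ℕ × (ℕ →₀ ℕ)) ℂ,
      (∀ W : Fin L → ℕ → ℕ → ℂ,
        MvPolynomial.eval (fun p : ℕ × (ℕ →₀ ℕ) => MvPolynomial.coeff p.2
          ((List.finRange L).foldl
            (fun (h : ℕ → MvPolynomial ℕ ℂ) (k : Fin L) (a : ℕ) =>
              ∑ b ∈ Finset.range (e k.castSucc),
                MvPolynomial.C (W k a b) * h b ^ (if (k : ℕ) = 0 then 1 else r))
            (fun b : ℕ => (MvPolynomial.X b : MvPolynomial ℕ ℂ)) p.1)) P = 0) →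
      ∀ c : ℕ × (ℕ →₀ ℕ) → ℂ,
        (∀ p : ℕ × (ℕ →₀ ℕ), c p ≠ 0 →
          p.1 < e (Fin.last L) ∧ (∑ b ∈ p.2.support, p.2 b) = r ^ (L - 1) ∧
            ∀ b ∈ p.2.support, b < e 0) →
        MvPolynomial.eval c P = 0) →
  ∀ d : Fin (L+1) → ℕ, (∀ i, 1 ≤ d i) → Filling d →
  (∀ d' : Fin (L+1) → ℕ, (∀ i, 1 ≤ d' i) → d' 0 = d 0 →
      d' (Fin.last L) = d (Fin.last L) → d' ≤ d → Filling d' → d' = d) →
  ∃ i : Fin (L+1), (∀ j k : Fin (L+1), j ≤ k → k ≤ i → d j ≤ d k) ∧
    (∀ j k : Fin (L+1), i ≤ j → j ≤ k → d k ≤ d j)) := by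
  intro H
  obtain ⟨i, hi1, hi2⟩ := H 4 6 (by norm_num) (by norm_num) Pool.Agent.H217R3.Bridge.FillingR
    (fun e => Iff.rfl) ![2, 6, 5, 38, 1] (by decide)
    (by
      apply Pool.Agent.H217R3.Bridge.filling_of_denseVal _ rfl rfl
      have : Pool.Agent.H217R3.Bridge.ext ![2, 6, 5, 38, 1] = fun i => if i < 5 then
          Pool.Agent.H217R3.Dense.ed i else 0 := by
        funext i
        unfold Pool.Agent.H217R3.Bridge.ext
        split_ifs with h
        · interval_cases i <;> rfl
        · rfl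
      intro Q hQ
      apply Pool.Agent.H217R3.Dense.denseVal Q
      intro w
      rw [← hQ w]
      congr 1)
    (by
      intro d' h1 h2 h3 h4 h5
      by_contra hne
      have hd0 : d' 0 = 2 := h2
      have hd4 : d' 4 = 1 := h3
      have l1 : d' 1 ≤ 6 := h4 1
      have l2 : d' 2 ≤ 5 := h4 2
      have l3 : d' 3 ≤ 38 := h4 3
      have p1 : 1 ≤ d' 1 := h1 1
      have p2 : 1 ≤ d' 2 := h1 2
      have p3 : 1 ≤ d' 3 := h1 3
      have hD := Pool.Agent.H217R3.Bridge.denseVal_of_filling d' hd0 hd4 h5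
      refine Pool.Agent.H217R3.Net.not_denseVal _ ?_ hD
      have x0 : Pool.Agent.H217R3.Bridge.ext d' 0 = 2 := hd0
      have x1 : Pool.Agent.H217R3.Bridge.ext d' 1 = d' 1 := rfl
      have x2 : Pool.Agent.H217R3.Bridge.ext d' 2 = d' 2 := rfl
      have x3 : Pool.Agent.H217R3.Bridge.ext d' 3 = d' 3 := rfl
      rw [x0, x1, x2, x3]
      have hne' : ¬ (d' 1 = 6 ∧ d' 2 = 5 ∧ d' 3 = 38) := by
        rintro ⟨a1, a2, a3⟩
        apply hne
        funext j
        fin_cases j
        · exact hd0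
        · exact a1
        · exact a2
        · exact a3
        · exact hd4
      generalize d' 1 = a at *
      generalize d' 2 = b at *
      generalize d' 3 = c at *
      interval_cases b <;> interval_cases a <;> omega)
  have h1 : i < 2 := by
    by_contra h
    rw [not_lt] at h
    have := hi1 1 2 (by decide) h
    revert this
    decide
  have h2 := hi2 2 3 h1.le (by decide)
  revert h2
  decide

end Pool.Agent.S00348
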