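import Pool.Statements.S00356
import Pool.Agent.H215R3.FC

set_option autoImplicit false
open Pool Pool.MP_a45f4e_ag

namespace Pool.Agent.S00356

/-- The negation of the preceding statement: In a Noetherian local ring of prime characteristic p, if the ideal generated by a full system of parameters is Frobenius closed, then every Frobenius power of it (generated by p^e-th powers) is also Frobenius closed. -/
theorem result :
    ¬ (∀ (R : Type) [CommRing R] [IsLocalRing R] [IsNoetherianRing R] (p : ℕ) [ExpChar R p],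
      p.Prime →
      ∀ (d : ℕ) (x : Fin d → R),
        ringKrullDim R = (d : WithBot ℕ∞) →
        (Ideal.span (Set.range x)).radical = IsLocalRing.maximalIdeal R →
        (∀ r : R, (∃ e : ℕ, r ^ (p ^ e) ∈
            Ideal.map (iterateFrobenius R p e) (Ideal.span (Set.range x))) →
          r ∈ Ideal.span (Set.range x)) →
        ∀ e : ℕ, ∀ r : R,
          (∃ e' : ℕ, r ^ (p ^ e') ∈ Ideal.map (iterateFrobenius R p e')
              (Ideal.map (iterateFrobenius R p e) (Ideal.span (Set.range x)))) →
          r ∈ Ideal.map (iterateFrobenius R p e) (Ideal.span (Set.range x))) := by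
  intro h
  have hE : ExpChar Pool.Agent.H215R3.FC.R 2 := ExpChar.prime Nat.prime_two
  have h1 := h Pool.Agent.H215R3.FC.R 2 Nat.prime_two 2
    ![Pool.Agent.H215R3.FC.X0, Pool.Agent.H215R3.FC.Y0] Pool.Agent.H215R3.FC.dim_R
    Pool.Agent.H215R3.FC.radical_eq
    (fun r hr => by
      obtain ⟨e, he⟩ := hr
      exact Pool.Agent.H215R3.FC.frobClosed r e he)
    1 Pool.Agent.H215R3.FC.w
  rw [Pool.Agent.H215R3.FC.range_eq, Pool.Agent.H215R3.FC.map_frob] at h1
  have h3 : Pool.Agent.H215R3.FC.w ∈
      Ideal.span {Pool.Agent.H215R3.FC.X0 ^ 2 ^ 1, Pool.Agent.H215R3.FC.Y0 ^ 2 ^ 1} := by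
    refine h1 ⟨1, ?_⟩
    rw [Pool.Agent.H215R3.FC.map_frob]
    have h2 : Pool.Agent.H215R3.FC.w ^ 2 ^ 1 =
        Pool.Agent.H215R3.FC.X0 ^ 4 * Pool.Agent.H215R3.FC.w' := by
      rw [pow_one]
      exact Pool.Agent.H215R3.FC.w_pow
    rw [h2]
    apply Ideal.mul_mem_right
    apply Ideal.subset_span
    left
    rw [← pow_mul]
    norm_num
  rw [pow_one] at h3
  exact Pool.Agent.H215R3.FC.w_notMem h3

end Pool.Agent.S00356
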