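import Pool.Statements.S00360
import Pool.Agent.H607R3.PS.Grade
import Pool.Agent.H841.PSRes
import Pool.Agent.H633R3.PS.Loc
import Pool.Agent.H291R3.PSB.Base
import Pool.Agent.H594.PSRegP
import Pool.Agent.H462R6.DimP
import Pool.Agent.H857R3.PS.GradeP

set_option autoImplicit false
open Pool Pool.MP_a907e8_ag

namespace Pool.Agent.S00360

/-- The negation of the preceding statement: For every Noetherian local ring A and nonzero finitely generated A-module M with a finite projective resolution, the maximal length of an A-regular sequence in ann M plus the Krull dimension of A/ann M equals the Krull dimension of A. -/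
theorem result :
    ¬ (∀ (A : Type) [CommRing A] [IsLocalRing A] [IsNoetherianRing A]
      (M : Type) [AddCommGroup M] [Module A M] [Module.Finite A M] [Nontrivial M],
      (∃ P : CategoryTheory.ProjectiveResolution (ModuleCat.of A M), ∃ n : ℕ,
          ∀ i : ℕ, n ≤ i → CategoryTheory.Limits.IsZero (P.complex.X i)) →
      ∀ g : ℕ,
        (∃ rs : List A, rs.length = g ∧ (∀ r ∈ rs, r ∈ Module.annihilator A M) ∧
            RingTheory.Sequence.IsWeaklyRegular A rs) →
        (¬ ∃ rs : List A, rs.length = g + 1 ∧ (∀ r ∈ rs, r ∈ Module.annihilator A M) ∧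
            RingTheory.Sequence.IsWeaklyRegular A rs) →
        (g : WithBot ℕ∞) + ringKrullDim (A ⧸ Module.annihilator A M) = ringKrullDim A) := by
  intro hall
  obtain ⟨T, i1, i2, i3, i4, α, β, γ, hb⟩ := Pool.Agent.H291R3.PSB.taskBase
  have hα : α ∈ IsLocalRing.maximalIdeal T := by
    rw [hb.max]; exact Ideal.subset_span (by simp)
  have hβ : β ∈ IsLocalRing.maximalIdeal T := by
    rw [hb.max]; exact Ideal.subset_span (by simp)
  have hγ : γ ∈ IsLocalRing.maximalIdeal T := by
    rw [hb.max]; exact Ideal.subset_span (by simp)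
  haveI : IsLocalRing (Pool.Agent.H607R3.PS.RR T α β γ) :=
    Pool.Agent.H607R3.PS.taskLoc T α β γ hα hβ hγ
  haveI : IsLocalRing (Pool.Agent.H607R3.PS.RP T α β γ) := Pool.Agent.H607R3.PS.local_RP
  haveI : IsNoetherianRing (Pool.Agent.H607R3.PS.RP T α β γ) := Pool.Agent.H607R3.PS.noeth_RP
  haveI : Nontrivial (Pool.Agent.H607R3.PS.RP T α β γ ⧸ Pool.Agent.H607R3.PS.cP T α β γ) :=
    Ideal.Quotient.nontrivial_iff.mpr (Pool.Agent.H607R3.PS.cP_ne_top hα hβ hγ)
  obtain ⟨P, n, hP⟩ := Pool.Agent.H607R3.PS.finRes_RP (T := T) (α := α) (β := β) (γ := γ)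
    Pool.Agent.H607R3.PS.taskRes Pool.Agent.H607R3.PS.taskRegP hγ hb.reg
  have hann : Module.annihilator (Pool.Agent.H607R3.PS.RP T α β γ)
      (Pool.Agent.H607R3.PS.RP T α β γ ⧸ Pool.Agent.H607R3.PS.cP T α β γ) =
      Pool.Agent.H607R3.PS.cP T α β γ := Ideal.annihilator_quotient
  have h := hall (Pool.Agent.H607R3.PS.RP T α β γ)
    (Pool.Agent.H607R3.PS.RP T α β γ ⧸ Pool.Agent.H607R3.PS.cP T α β γ)
    ⟨P, n, hP⟩ 2
    ⟨[Pool.Agent.H607R3.PS.toRP
        (Pool.Agent.H607R3.PS.RR.emb α : Pool.Agent.H607R3.PS.RR T α β γ) ^ 4,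
      Pool.Agent.H607R3.PS.toRP
        (Pool.Agent.H607R3.PS.RR.emb β : Pool.Agent.H607R3.PS.RR T α β γ) ^ 2], rfl, by
      rw [hann]
      intro r hr
      simp only [List.mem_cons, List.not_mem_nil, or_false] at hr
      rcases hr with rfl | rfl
      · exact Pool.Agent.H607R3.PS.mem_F
      · exact Pool.Agent.H607R3.PS.mem_G,
      Pool.Agent.H607R3.PS.weaklyRegular_pair
        (Pool.Agent.H607R3.PS.taskRegP T α β γ hb.reg)⟩
    (by
      rw [hann]
      exact Pool.Agent.H607R3.PS.taskGradeP T α β γ hb)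
  rw [hann] at h
  exact absurd h (ne_of_lt (Pool.Agent.H462R6.DimP.taskDimP T α β γ hb))

end Pool.Agent.S00360
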