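import Pool.Statements.S00406
-- import your own Pool.Agent.* helpers here

set_option autoImplicit false
open Pool Pool.MP_b9ea36_ag

namespace Pool.Agent.S00406

open MvPolynomial

/-- the pattern: five rows, five columns, sixteen edges, minimum degree three -/
def E5 : Finset (Fin 5 × Fin 5) :=
  {(0, 2), (0, 3), (0, 4), (1, 0), (1, 1), (1, 2), (2, 1), (2, 3), (2, 4), (3, 0), (3, 1), (3, 2),
    (4, 0), (4, 1), (4, 3), (4, 4)}

/-- the nondegeneracy expression in any commutative ring -/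
def nondeg {R : Type*} [CommRing R] (a : Fin 5 → Fin 5 → R) : R :=
  (a 1 1 * a 3 2 - a 1 2 * a 3 1) * (a 1 1 * a 3 0 - a 1 0 * a 3 1) *
  (a 2 3 * a 4 4 - a 4 3 * a 2 4) * (a 4 3 * a 0 4 - a 0 3 * a 4 4) *
  (-((a 4 3 * a 0 4 - a 0 3 * a 4 4) * a 2 1 + (a 0 3 * a 2 4 - a 2 3 * a 0 4) * a 4 1) *
      ((a 1 1 * a 3 2 - a 1 2 * a 3 1) * a 4 0 - (a 1 0 * a 3 2 - a 1 2 * a 3 0) * a 4 1)
    - a 0 2 * a 4 1 * (a 2 3 * a 4 4 - a 4 3 * a 2 4) * (a 1 1 * a 3 0 - a 1 0 * a 3 1))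

/-- an explicit point -/
def pt : Fin 5 → Fin 5 → ℤ :=
  ![![0, 0, 1, 1, 0], ![0, 1, 0, 0, 0], ![0, 0, 0, 1, 1], ![1, 0, 1, 0, 0], ![1, 1, 0, 1, 2]]

theorem completion (a : Fin 5 → Fin 5 → ℝ) (h : nondeg a ≠ 0) :
    ∃ B : Matrix (Fin 5) (Fin 5) ℝ, (∀ p ∈ E5, B p.1 p.2 = a p.1 p.2) ∧ B.rank ≤ 2 := by
  unfold nondeg at h
  set Δ := a 1 1 * a 3 2 - a 1 2 * a 3 1 with hΔ
  set V := a 1 1 * a 3 0 - a 1 0 * a 3 1 with hV
  set α := a 2 3 * a 4 4 - a 4 3 * a 2 4 with hα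
  set β := a 4 3 * a 0 4 - a 0 3 * a 4 4 with hβ
  set γ := a 0 3 * a 2 4 - a 2 3 * a 0 4 with hγ
  set Uu := a 1 0 * a 3 2 - a 1 2 * a 3 0 with hUu
  have h5 := right_ne_zero_of_mul h
  have h' := left_ne_zero_of_mul h
  have h4 : β ≠ 0 := right_ne_zero_of_mul h'
  have h'' := left_ne_zero_of_mul h'
  have h3 : α ≠ 0 := right_ne_zero_of_mul h''
  have h''' := left_ne_zero_of_mul h''
  have h2 : V ≠ 0 := right_ne_zero_of_mul h'''
  have h1 : Δ ≠ 0 := left_ne_zero_of_mul h'''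
  obtain ⟨u, hu⟩ : ∃ u, u * Δ = Uu := ⟨Uu / Δ, by field_simp⟩
  obtain ⟨v, hv⟩ : ∃ v, v * Δ = V := ⟨V / Δ, by field_simp⟩
  obtain ⟨w, hw⟩ : ∃ w, w * V = Δ * a 4 0 - Uu * a 4 1 := ⟨(Δ * a 4 0 - Uu * a 4 1) / V, by field_simp⟩
  obtain ⟨s, hs⟩ : ∃ s, s * α = -(β * a 2 1 + γ * a 4 1) := ⟨-(β * a 2 1 + γ * a 4 1) / α, by field_simp⟩
  obtain ⟨t, ht⟩ : ∃ t, t * β = -(α * a 0 2 + γ * w) := ⟨-(α * a 0 2 + γ * w) / β, by field_simp⟩
  have hD : s * w - a 0 2 * a 4 1 ≠ 0 := by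
    intro h0
    apply h5
    rw [← hs, ← hw]
    linear_combination (α * V) * h0
  obtain ⟨y3, hy3⟩ : ∃ y, y * (s * w - a 0 2 * a 4 1) = a 0 3 * w - a 0 2 * a 4 3 :=
    ⟨(a 0 3 * w - a 0 2 * a 4 3) / (s * w - a 0 2 * a 4 1), div_mul_cancel₀ _ hD⟩
  obtain ⟨z3, hz3⟩ : ∃ y, y * (s * w - a 0 2 * a 4 1) = s * a 4 3 - a 4 1 * a 0 3 :=
    ⟨(s * a 4 3 - a 4 1 * a 0 3) / (s * w - a 0 2 * a 4 1), div_mul_cancel₀ _ hD⟩
  obtain ⟨y4, hy4⟩ : ∃ y, y * (s * w - a 0 2 * a 4 1) = a 0 4 * w - a 0 2 * a 4 4 :=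
    ⟨(a 0 4 * w - a 0 2 * a 4 4) / (s * w - a 0 2 * a 4 1), div_mul_cancel₀ _ hD⟩
  obtain ⟨z4, hz4⟩ : ∃ y, y * (s * w - a 0 2 * a 4 1) = s * a 4 4 - a 4 1 * a 0 4 :=
    ⟨(s * a 4 4 - a 4 1 * a 0 4) / (s * w - a 0 2 * a 4 1), div_mul_cancel₀ _ hD⟩
  -- the verified equations
  have e10 : a 1 1 * u + a 1 2 * v = a 1 0 := by
    apply mul_right_cancel₀ h1
    linear_combination a 1 1 * hu + a 1 2 * hv + a 1 1 * hUu + a 1 2 * hV - a 1 0 * hΔ
  have e30 : a 3 1 * u + a 3 2 * v = a 3 0 := by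
    apply mul_right_cancel₀ h1
    linear_combination a 3 1 * hu + a 3 2 * hv + a 3 1 * hUu + a 3 2 * hV - a 3 0 * hΔ
  have e40 : a 4 1 * u + w * v = a 4 0 := by
    apply mul_right_cancel₀ h1
    linear_combination a 4 1 * hu + w * hv + hw
  have e03 : s * y3 + a 0 2 * z3 = a 0 3 := by
    apply mul_right_cancel₀ hD
    linear_combination s * hy3 + a 0 2 * hz3
  have e04 : s * y4 + a 0 2 * z4 = a 0 4 := by
    apply mul_right_cancel₀ hD
    linear_combination s * hy4 + a 0 2 * hz4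
  have e43 : a 4 1 * y3 + w * z3 = a 4 3 := by
    apply mul_right_cancel₀ hD
    linear_combination a 4 1 * hy3 + w * hz3
  have e44 : a 4 1 * y4 + w * z4 = a 4 4 := by
    apply mul_right_cancel₀ hD
    linear_combination a 4 1 * hy4 + w * hz4
  have k3 : α * a 0 3 + β * a 2 3 + γ * a 4 3 = 0 := by rw [hα, hβ, hγ]; ring
  have k4 : α * a 0 4 + β * a 2 4 + γ * a 4 4 = 0 := by rw [hα, hβ, hγ]; ring
  have e23 : a 2 1 * y3 + t * z3 = a 2 3 := by
    apply mul_right_cancel₀ h4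
    linear_combination z3 * ht + y3 * hs - α * e03 - γ * e43 - k3
  have e24 : a 2 1 * y4 + t * z4 = a 2 4 := by
    apply mul_right_cancel₀ h4
    linear_combination z4 * ht + y4 * hs - α * e04 - γ * e44 - k4
  let X : Matrix (Fin 5) (Fin 2) ℝ := !![s, a 0 2; a 1 1, a 1 2; a 2 1, t; a 3 1, a 3 2; a 4 1, w]
  let Y : Matrix (Fin 2) (Fin 5) ℝ := !![u, 1, 0, y3, y4; v, 0, 1, z3, z4]
  refine ⟨X * Y, ?_, ?_⟩
  · intro p hp
    simp only [E5, Finset.mem_insert, Finset.mem_singleton] at hp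
    rcases hp with rfl | rfl | rfl | rfl | rfl | rfl | rfl | rfl | rfl | rfl | rfl | rfl | rfl | rfl | rfl | rfl <;>
      simp [X, Y, Matrix.mul_apply, Fin.sum_univ_two] <;> assumption
  · exact (Matrix.rank_mul_le_left X Y).trans (by simpa using Matrix.rank_le_card_width X)

/-- The negation of the preceding statement: For every bipartite graph with nonempty 3-core, there is a nonempty open set of real partial matrices on its edges that cannot be completed to rank at most 2, i.e. its maximal typical rank is at least 3. -/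
theorem result :
    ¬ (∀ (m n : ℕ) (E : Finset (Fin m × Fin n)),
      (∃ (R : Finset (Fin m)) (C : Finset (Fin n)),
          (R.Nonempty ∨ C.Nonempty) ∧
          (∀ i ∈ R, 3 ≤ (C.filter (fun j => (i, j) ∈ E)).card) ∧
          (∀ j ∈ C, 3 ≤ (R.filter (fun i => (i, j) ∈ E)).card)) →
      ∃ U : Set (Matrix (Fin m) (Fin n) ℝ),
        IsOpen U ∧ U.Nonempty ∧
        ∀ A ∈ U, ∀ B : Matrix (Fin m) (Fin n) ℝ,
          (∀ p ∈ E, B p.1 p.2 = A p.1 p.2) → 3 ≤ B.rank) := by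
  intro H
  obtain ⟨U, hU, ⟨A₀, hA₀⟩, hrank⟩ := H 5 5 E5 ⟨Finset.univ, Finset.univ, Or.inl ⟨0, Finset.mem_univ _⟩,
    by decide, by decide⟩
  -- a point of U where the nondegeneracy polynomial does not vanish
  obtain ⟨A, hAU, hA⟩ : ∃ A ∈ U, nondeg (fun i j => A i j) ≠ 0 := by
    by_contra hcon
    push Not at hcon
    let c : (Fin 5 × Fin 5 → ℝ) → Matrix (Fin 5) (Fin 5) ℝ := fun x => Matrix.of fun i j => x (i, j)
    have hc : Continuous c := by
      apply continuous_pi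
      intro i
      apply continuous_pi
      intro j
      exact continuous_apply (i, j)
    have hopen : IsOpen (c ⁻¹' U) := hU.preimage hc
    have hmem : (fun p : Fin 5 × Fin 5 => A₀ p.1 p.2) ∈ c ⁻¹' U := by
      have : c (fun p : Fin 5 × Fin 5 => A₀ p.1 p.2) = A₀ := by
        ext i j
        rfl
      rw [Set.mem_preimage, this]
      exact hA₀
    obtain ⟨ε, hε, hball⟩ := Metric.isOpen_iff.mp hopen _ hmem
    have hzero : (nondeg (fun i j => (X (i, j) : MvPolynomial (Fin 5 × Fin 5) ℝ))) = 0 := by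
      apply MvPolynomial.funext_set (fun p : Fin 5 × Fin 5 => Metric.ball (A₀ p.1 p.2) ε)
      · intro p
        exact infinite_of_mem_nhds (A₀ p.1 p.2) (Metric.ball_mem_nhds _ hε)
      · intro x hx
        have hx' : c x ∈ U := by
          apply hball
          rw [Metric.mem_ball, dist_pi_lt_iff hε]
          intro p
          exact hx p (Set.mem_univ _)
        have := hcon _ hx'
        rw [map_zero, ← this]
        unfold nondeg
        simp only [map_mul, map_sub, map_add, map_neg, eval_X]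
        rfl
    have h2 := congrArg (eval (fun p : Fin 5 × Fin 5 => ((pt p.1 p.2 : ℤ) : ℝ))) hzero
    have h3 : ((nondeg pt : ℤ) : ℝ) = 0 := by
      rw [map_zero] at h2
      rw [← h2]
      unfold nondeg
      push_cast
      simp only [map_mul, map_sub, map_add, map_neg, eval_X]
    have h4 : nondeg pt = 4 := by decide
    rw [h4] at h3
    norm_num at h3
  obtain ⟨B, hB, hBr⟩ := completion (fun i j => A i j) hA
  have := hrank A hAU B hB
  omega

end Pool.Agent.S00406
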