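import Pool.Statements.S00408
import Pool.Agent.H714R3.GroebE
import Pool.Agent.H714R3.GroebU

set_option autoImplicit false
open Pool Pool.MP_b9f336_ag

namespace Pool.Agent.S00408

/-- The negation of the preceding statement: For each d ≥ 1 there is B such that for any n, any saturated rank-d lattice L in ℤⁿ meeting the nonnegative orthant only in 0, and any term order, the Gröbner chamber of the toric ideal I_L (over ℚ) has at most B facets. -/
theorem result :
    ¬ (∀ d : ℕ, 1 ≤ d → ∃ B : ℕ, ∀ n : ℕ, ∀ L : Submodule ℤ (Fin n → ℤ),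
    Module.finrank ℤ L = d →
    (∀ v : Fin n → ℤ, ∀ c : ℤ, c ≠ 0 → c • v ∈ L → v ∈ L) →
    (∀ v ∈ L, (∀ i, 0 ≤ v i) → v = 0) →
    ∀ I : Ideal (MvPolynomial (Fin n) ℚ),
      I = Ideal.span {p | ∃ u ∈ L, p =
        MvPolynomial.monomial (Finsupp.equivFunOnFinite.symm (fun i => (u i).toNat)) (1 : ℚ)
        - MvPolynomial.monomial (Finsupp.equivFunOnFinite.symm (fun i => (-u i).toNat)) (1 : ℚ)} →
    ∀ ord : MonomialOrder (Fin n),
    ∀ C : Set (Fin n → ℝ),
      C = closure {w : Fin n → ℝ |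
        Ideal.span {g | ∃ f ∈ I, g =
          ∑ m ∈ (MvPolynomial.support f).filter
              (fun m => ∀ m' ∈ MvPolynomial.support f,
                ∑ i, w i * ((m' i : ℕ) : ℝ) ≤ ∑ i, w i * ((m i : ℕ) : ℝ)),
            MvPolynomial.monomial m (MvPolynomial.coeff m f)}
        = Ideal.span {g | ∃ f ∈ I, f ≠ 0 ∧ g = MvPolynomial.monomial (ord.degree f) (1 : ℚ)}} →
    Set.encard {F : Set (Fin n → ℝ) | ∃ c : Fin n → ℝ,
        (∀ w ∈ C, 0 ≤ ∑ i, c i * w i) ∧
        F = {w | w ∈ C ∧ ∑ i, c i * w i = 0} ∧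
        Module.finrank ℝ (Submodule.span ℝ F) + 1 = Module.finrank ℝ (Submodule.span ℝ C)}
      ≤ (B : ℕ∞)) := by
  intro H
  obtain ⟨B, hB⟩ := H 3 (by norm_num)
  have h := hB (5 + 4 * (B + 1)) (LinearMap.range (Pool.Agent.H714R3.GG (B + 1)))
    (Pool.Agent.H714R3.finrank_range (B + 1)) (Pool.Agent.H714R3.saturated (B + 1))
    (Pool.Agent.H714R3.nonneg_zero (B + 1) (by omega))
    (Pool.Agent.H714R3.latI (LinearMap.range (Pool.Agent.H714R3.GG (B + 1)))) rfl
    (Pool.Agent.H714R3.lexU (5 + 4 * (B + 1)))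
    (closure (Pool.Agent.H714R3.C0
      (Pool.Agent.H714R3.latI (LinearMap.range (Pool.Agent.H714R3.GG (B + 1))))))
    (by
      simp only [Pool.Agent.H714R3.lexU_degree]
      rfl)
  have h2 := Pool.Agent.H714R3.facets_GG (B + 1) (by omega)
  have h3 : ((B + 1 : ℕ) : ℕ∞) ≤ (B : ℕ∞) := le_trans h2 h
  have h4 : B + 1 ≤ B := by exact_mod_cast h3
  omega

end Pool.Agent.S00408
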