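import Pool.Statements.S00454
import Pool.Agent.H127R3.Ulr.Fin

set_option autoImplicit false
open Pool Pool.MP_cf0da3_ag

namespace Pool.Agent.S00454

/-- The negation of the preceding statement: Every nonempty projective variety over an algebraically closed field has a linear Noether normalization k[y]→S/P and a nonzero S/P-module structure on k[y]^r in which each x_j acts by a matrix of linear forms and ℓ_i acts as y_i, i.e. an Ulrich sheaf. -/
theorem result :
    ¬ (∀ (k : Type) [Field k] [IsAlgClosed k] (m : ℕ)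
      (P : Ideal (MvPolynomial (Fin (m + 1)) k)),
      P.IsPrime →
      (∀ f ∈ P, ∀ n : ℕ, MvPolynomial.homogeneousComponent n f ∈ P) →
      (∃ j : Fin (m + 1), (MvPolynomial.X j : MvPolynomial (Fin (m + 1)) k) ∉ P) →
      ∃ (d : ℕ) (ℓ : Fin (d + 1) → MvPolynomial (Fin (m + 1)) k),
        (∀ i, (ℓ i).IsHomogeneous 1) ∧
        Function.Injective
          (MvPolynomial.aeval (fun i => Ideal.Quotient.mk P (ℓ i)) :
            MvPolynomial (Fin (d + 1)) k →ₐ[k] MvPolynomial (Fin (m + 1)) k ⧸ P) ∧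
        (MvPolynomial.aeval (fun i => Ideal.Quotient.mk P (ℓ i)) :
            MvPolynomial (Fin (d + 1)) k →ₐ[k] MvPolynomial (Fin (m + 1)) k ⧸ P).toRingHom.Finite ∧
        ∃ (r : ℕ) (ψ : MvPolynomial (Fin (m + 1)) k →ₐ[k]
            Matrix (Fin r) (Fin r) (MvPolynomial (Fin (d + 1)) k)),
          0 < r ∧
          (∀ (j : Fin (m + 1)) (a b : Fin r), ((ψ (MvPolynomial.X j)) a b).IsHomogeneous 1) ∧
          (∀ f ∈ P, ψ f = 0) ∧
          (∀ i : Fin (d + 1), ψ (ℓ i) = Matrix.diagonal (fun _ => MvPolynomial.X i))) := by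
  intro H
  obtain ⟨P, h1, h2, h3, h4⟩ := Pool.Agent.H127R3.Ulr.fin (AlgebraicClosure ℚ)
  exact h4 (H (AlgebraicClosure ℚ) 21 P h1 h2 h3)

end Pool.Agent.S00454
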