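import Pool.Statements.S00526
import Pool.Agent.H371R3.NH.C
import Pool.Agent.H371R3.NH.D

set_option autoImplicit false
open Pool Pool.MP_e9da60_ag

namespace Pool.Agent.S00526

/-- The negation of the preceding statement: For an analytically unramified Noetherian local ring of dimension d>0 and an m-primary ideal I, if length(R/closure(I^(n+1))) equals sum of (-1)^i e_i C(n+d-i,d-i) for large n, then e_1 is nonnegative. -/
theorem result :
    ¬ (∀ (R : Type) [CommRing R] [IsNoetherianRing R] [IsLocalRing R],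
      IsReduced (AdicCompletion (IsLocalRing.maximalIdeal R) R) →
      ∀ (d : ℕ), ringKrullDim R = (d : WithBot ℕ∞) → 0 < d →
      ∀ (I : Ideal R), I.radical = IsLocalRing.maximalIdeal R →
      ∀ (Ibar : ℕ → Ideal R),
        (∀ (n : ℕ) (x : R), x ∈ Ibar n ↔
          ∃ k : ℕ, 0 < k ∧ ∃ a : ℕ → R, (∀ j, a j ∈ (I ^ n) ^ j) ∧
            x ^ k + ∑ j ∈ Finset.range k, a (k - j) * x ^ j = 0) →
      ∀ (e : ℕ → ℚ),
        (∀ᶠ n in Filter.atTop, ∃ m : ℕ,
          Module.length R (R ⧸ Ibar (n + 1)) = (m : ℕ∞) ∧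
          (m : ℚ) = ∑ i ∈ Finset.range (d + 1),
            (-1 : ℚ) ^ i * e i * (((n + d - i).choose (d - i) : ℕ) : ℚ)) →
        0 ≤ e 1) := by
  intro H
  have hlen := Pool.Agent.H371R3.NH.length_F
  have key := H Pool.Agent.H371R3.NH.R Pool.Agent.H371R3.NH.reduced 2
    Pool.Agent.H371R3.NH.dim_R (by norm_num)
    (IsLocalRing.maximalIdeal Pool.Agent.H371R3.NH.R)
    (Ideal.IsPrime.radical inferInstance)
    Pool.Agent.H371R3.NH.F
    (fun n x => Pool.Agent.H371R3.NH.closed n x)
    (fun i => if i = 0 then 1 else -1)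
    (Filter.Eventually.of_forall fun n => by
      obtain ⟨m, hm, hm2⟩ := hlen n
      refine ⟨m, hm, ?_⟩
      have h2 : (2 * m : ℚ) = n ^ 2 + 5 * n + 2 := by exact_mod_cast hm2
      have h3 : ((n + 2).choose 2 : ℚ) = (n + 2) * (n + 1) / 2 := by
        rw [Nat.cast_choose_two]
        push_cast
        ring
      rw [Finset.sum_range_succ, Finset.sum_range_succ, Finset.sum_range_one]
      norm_num
      rw [h3]
      linarith)
  norm_num at key

end Pool.Agent.S00526
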