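import Pool.Statements.S00530
import Pool.Agent.H929R3.Main

set_option autoImplicit false
open Pool Pool.MP_ebd967_ag

namespace Pool.Agent.S00530

open Pool.Agent.H929R3 in
/-- The index equivalence. -/
def eqv (G : Type) [AddCommGroup G] : {g : G × G × G // g.1 + g.2.1 + g.2.2 = 0} ≃ G × G where
  toFun s := (s.1.1, s.1.2.1)
  invFun r := ⟨(r.1, r.2, - r.1 - r.2), by simp⟩
  left_inv := by
    rintro ⟨⟨a, b, c⟩, h⟩
    have h' : a + b + c = 0 := h
    have : c = - a - b := by
      rw [← sub_eq_zero, ← h']; abel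
    simp [this]
  right_inv := by rintro ⟨a, b⟩; rfl

open Pool.Agent.H929R3 in
theorem map_eq (G : Type) [AddCommGroup G] :
    (fun s : {g : G × G × G // g.1 + g.2.1 + g.2.2 = 0} =>
              (MvPolynomial.X ((0 : Fin 3), s.1.1) * MvPolynomial.X ((1 : Fin 3), s.1.2.1) *
                MvPolynomial.X ((2 : Fin 3), s.1.2.2) : MvPolynomial (Fin 3 × G) ℂ)) =
      fun s => MvPolynomial.monomial (E0 (eqv G s)) 1 := by
  funext s
  obtain ⟨⟨a, b, c⟩, h⟩ := s
  have h' : a + b + c = 0 := h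
  have hc : c = - a - b := by
    rw [← sub_eq_zero, ← h']; abel
  subst hc
  have h2 : E0 (eqv G ⟨(a, b, - a - b), h⟩) = Finsupp.single ((0 : Fin 3), a) 1 +
      Finsupp.single ((1 : Fin 3), b) 1 + Finsupp.single ((2 : Fin 3), - a - b) 1 := by
    rw [E0, Fin.sum_univ_three]
    rfl
  rw [h2]
  show MvPolynomial.monomial _ 1 * MvPolynomial.monomial _ 1 * MvPolynomial.monomial _ 1 = _
  rw [MvPolynomial.monomial_mul, MvPolynomial.monomial_mul, one_mul, one_mul]

open Pool.Agent.H929R3 in
/-- The negation of the preceding statement: There is a polynomial Q such that, for every finite abelian group G, the toric ideal of the claw-tree group-based model is generated by its elements of degree at most Q(∣G∣). -/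
theorem result :
    ¬ (∃ Q : Polynomial ℕ, ∀ (G : Type) [AddCommGroup G] [Fintype G],
      ∀ p : MvPolynomial {g : G × G × G // g.1 + g.2.1 + g.2.2 = 0} ℂ,
        MvPolynomial.aeval
            (fun s : {g : G × G × G // g.1 + g.2.1 + g.2.2 = 0} =>
              (MvPolynomial.X ((0 : Fin 3), s.1.1) * MvPolynomial.X ((1 : Fin 3), s.1.2.1) *
                MvPolynomial.X ((2 : Fin 3), s.1.2.2) : MvPolynomial (Fin 3 × G) ℂ)) p = 0 →
        p ∈ Ideal.span
          {q : MvPolynomial {g : G × G × G // g.1 + g.2.1 + g.2.2 = 0} ℂ |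
            MvPolynomial.aeval
                (fun s : {g : G × G × G // g.1 + g.2.1 + g.2.2 = 0} =>
                  (MvPolynomial.X ((0 : Fin 3), s.1.1) * MvPolynomial.X ((1 : Fin 3), s.1.2.1) *
                    MvPolynomial.X ((2 : Fin 3), s.1.2.2) : MvPolynomial (Fin 3 × G) ℂ)) q = 0 ∧
              q.totalDegree ≤ Q.eval (Fintype.card G)}) := by
  rintro ⟨Q, hQ⟩
  obtain ⟨K, N, hK, hN, hG, hlt⟩ := exists_beating Q
  have : NeZero N := ⟨hN.ne'⟩
  obtain ⟨T0, T1, g0, hdisj, hne, hd0, _, hlin, hfib⟩ := core hK hG (eqv (GG N))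
  have h1 := hQ (GG N) (MvPolynomial.monomial T0 1 - MvPolynomial.monomial T1 1)
  rw [map_eq] at h1
  have h2 := h1 (binomial_mem _ T0 T1 hlin)
  have h3 := not_mem_span (fun s => E0 (eqv (GG N) s)) T0 T1 g0 0 hdisj hne (hfib 0)
    {q | mono (fun s => E0 (eqv (GG N) s)) q = 0 ∧
      q.totalDegree ≤ Q.eval (Fintype.card (GG N))}
    (fun q hq => ⟨hq.1, lt_of_le_of_lt hq.2 (by rw [hd0, card_GG]; exact hlt)⟩)
  apply h3
  rw [pow_zero, one_mul]
  exact h2

end Pool.Agent.S00530
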