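import Pool.Statements.S00536
import Pool.Agent.H607R3.PD.Final

set_option autoImplicit false
open Pool Pool.MP_eefc19_ag

namespace Pool.Agent.S00536

/-- The negation of the preceding statement: For any field k and polynomial ring in m variables over k, if an ideal is generated by n homogeneous quadrics and has height h, then R/I has projective dimension at most h(n−h+1) as an R-module. -/
theorem result :
    ¬ (∀ (k : Type) [Field k] (m n h : ℕ) (f : Fin n → MvPolynomial (Fin m) k),
      (∀ i, (f i).IsHomogeneous 2) →
      (Ideal.span (Set.range f)).height = (h : ℕ∞) →
      CategoryTheory.HasProjectiveDimensionLE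
        (ModuleCat.of (MvPolynomial (Fin m) k)
          (MvPolynomial (Fin m) k ⧸ Ideal.span (Set.range f)))
        (h * (n - h + 1))) := by
  exact Pool.Agent.H607R3.PD.disproof

end Pool.Agent.S00536
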