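-- Proof of frozen statement S00548 (negation of the Laksov-Westin conjecture).
import Pool.Statements.S00548
import Mathlib

set_option autoImplicit false
open Pool Pool.MP_f28cea_ag

namespace Pool.Agent.S00548

open Polynomial in
/-- The coefficient of a product of powers at the sum of the degree bounds. -/
theorem coeff_prod_pow {ι k : Type} [Field k] (E : ι → k[X]) (N : ι → ℕ) (a : ι → ℕ)
    (h : ∀ j, (E j).natDegree ≤ N j) (s : Finset ι) :
    (∏ j ∈ s, E j ^ a j).natDegree ≤ ∑ j ∈ s, a j * N j ∧
    (∏ j ∈ s, E j ^ a j).coeff (∑ j ∈ s, a j * N j) = ∏ j ∈ s, (E j).coeff (N j) ^ a j := by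
  classical
  induction s using Finset.induction_on with
  | empty => simp
  | insert j s hj ih =>
    rw [Finset.prod_insert hj, Finset.sum_insert hj, Finset.prod_insert hj]
    have h1 : (E j ^ a j).natDegree ≤ a j * N j :=
      (natDegree_pow_le).trans (Nat.mul_le_mul_left _ (h j))
    refine ⟨(natDegree_mul_le).trans (add_le_add h1 ih.1), ?_⟩
    rw [coeff_mul_add_eq_of_natDegree_le h1 ih.1, ih.2, coeff_pow_of_natDegree_le (h j)]

open Polynomial in
/-- A weighted homogeneous polynomial which kills a tuple of polynomials in one variable kills the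
tuple of their coefficients of top weighted degree. -/
theorem key {k : Type} [Field k] {m : ℕ} (w : Fin (m + 1) → ℕ) (p : MvPolynomial (Fin (m + 1)) k)
    (d : ℕ) (hp : MvPolynomial.IsWeightedHomogeneous w p d) (E : Fin (m + 1) → k[X]) (a : ℕ)
    (hE : ∀ j, (E j).natDegree ≤ a * w j) (h0 : MvPolynomial.aeval E p = 0) :
    MvPolynomial.aeval (fun j => (E j).coeff (a * w j)) p = 0 := by
  have h1 : (MvPolynomial.aeval E p).coeff (a * d) = 0 := by rw [h0]; simp
  rw [← h1, MvPolynomial.aeval_def, MvPolynomial.aeval_def, MvPolynomial.eval₂_eq',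
    MvPolynomial.eval₂_eq', finsetSum_coeff]
  refine Finset.sum_congr rfl fun e he => ?_
  have h2 : Finsupp.weight w e = d := hp (MvPolynomial.mem_support_iff.1 he)
  have h3 : ∑ j, e j * (a * w j) = a * d := by
    rw [← h2, Finsupp.weight_apply, Finsupp.sum_fintype _ _ (by simp), Finset.mul_sum]
    refine Finset.sum_congr rfl fun j _ => ?_
    simp only [smul_eq_mul]; ring
  have h4 := (coeff_prod_pow E (fun j => a * w j) e hE Finset.univ).2
  rw [h3] at h4
  rw [Polynomial.algebraMap_eq, coeff_C_mul, h4]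
  rfl

/-- The negation of the preceding statement: For all fields k⊆K and ideals I of k[X1..Xn]: f vanishes on the K-zeros of I iff some block-weighted-homogeneous p over k (increasing positive block weights, only zero in K is 0) has p(f,f1,…,fm) in I. -/
theorem result :
    ¬ (∀ (k K : Type) [Field k] [Field K] [Algebra k K] (n : ℕ)
      (I : Ideal (MvPolynomial (Fin n) k)) (f : MvPolynomial (Fin n) k),
      (∃ m : ℕ, ∃ w : Fin (m + 1) → ℕ, Monotone w ∧ (∀ j, 0 < w j) ∧
        ∃ p : MvPolynomial (Fin (m + 1)) k, ∃ d : ℕ,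
          MvPolynomial.IsWeightedHomogeneous w p d ∧
          (∀ y : Fin (m + 1) → K, MvPolynomial.aeval y p = 0 ↔ y = 0) ∧
          ∃ g : Fin m → MvPolynomial (Fin n) k,
            MvPolynomial.aeval
              (Fin.cons f g : Fin (m + 1) → MvPolynomial (Fin n) k) p ∈ I) ↔
      (∀ x : Fin n → K, (∀ q ∈ I, MvPolynomial.aeval x q = 0) →
        MvPolynomial.aeval x f = 0)) := by
  intro H
  obtain ⟨m, w, -, hw, p, d, hp, hz, g, hg⟩ := (H (ZMod 2) (ZMod 2) 2
    (Ideal.span {MvPolynomial.X 0}) (MvPolynomial.X 1 ^ 2 + MvPolynomial.X 1)).2 (by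
      intro x _
      simp only [map_add, map_pow, MvPolynomial.aeval_X]
      generalize x 1 = y
      revert y
      decide)
  -- the tuple in `F₂[X]`
  set φ : MvPolynomial (Fin 2) (ZMod 2) →ₐ[ZMod 2] Polynomial (ZMod 2) :=
    MvPolynomial.aeval ![0, Polynomial.X] with hφ
  set F : Fin (m + 1) → Polynomial (ZMod 2) :=
    fun j => φ ((Fin.cons (MvPolynomial.X 1 ^ 2 + MvPolynomial.X 1) g :
      Fin (m + 1) → MvPolynomial (Fin 2) (ZMod 2)) j) with hF
  have hF0 : F 0 = Polynomial.X ^ 2 + Polynomial.X := by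
    simp [hF, hφ]
  have hFp : MvPolynomial.aeval F p = 0 := by
    have h1 : MvPolynomial.aeval F p = φ (MvPolynomial.aeval
      (Fin.cons (MvPolynomial.X 1 ^ 2 + MvPolynomial.X 1) g :
        Fin (m + 1) → MvPolynomial (Fin 2) (ZMod 2)) p) := by
      rw [← AlgHom.comp_apply, MvPolynomial.comp_aeval]
    rw [h1]
    obtain ⟨c, hc⟩ := Ideal.mem_span_singleton'.1 hg
    rw [← hc, map_mul]
    simp [hφ]
  -- the index of largest weighted degree
  obtain ⟨j₀, hj₀⟩ := Finite.exists_max fun j => ((F j).natDegree : ℚ) / w j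
  have hmax : ∀ j, (F j).natDegree * w j₀ ≤ (F j₀).natDegree * w j := by
    intro j
    have h1 := hj₀ j
    have h2 : (0 : ℚ) < w j := by exact_mod_cast hw j
    have h3 : (0 : ℚ) < w j₀ := by exact_mod_cast hw j₀
    rw [div_le_div_iff₀ h2 h3] at h1
    exact_mod_cast h1
  have hdeg0 : (F 0).natDegree = 2 := by
    rw [hF0]
    compute_degree!
  have hpos : 0 < (F j₀).natDegree := by
    have h1 := hmax 0
    rw [hdeg0] at h1
    have h2 := hw j₀
    by_contra h3
    have h4 : (F j₀).natDegree = 0 := by omega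
    rw [h4] at h1
    omega
  have hne : F j₀ ≠ 0 := by
    intro h
    rw [h] at hpos
    simp at hpos
  -- the expanded tuple
  have h5 : MvPolynomial.aeval (fun j => Polynomial.expand (ZMod 2) (w j₀) (F j)) p = 0 := by
    have h6 : MvPolynomial.aeval (fun j => Polynomial.expand (ZMod 2) (w j₀) (F j)) p
        = Polynomial.expand (ZMod 2) (w j₀) (MvPolynomial.aeval F p) := by
      rw [← AlgHom.comp_apply, MvPolynomial.comp_aeval]
    rw [h6, hFp, map_zero]
  have h7 := key w p d hp _ (F j₀).natDegree (by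
    intro j
    rw [Polynomial.natDegree_expand]
    exact hmax j) h5
  have h8 := (hz _).1 h7
  have h9 := congrFun h8 j₀
  simp only [Pi.zero_apply] at h9
  rw [Polynomial.coeff_expand_mul (hw j₀)] at h9
  exact hne (Polynomial.leadingCoeff_eq_zero.1 h9)

end Pool.Agent.S00548
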