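import Pool.Statements.S00609
import Pool.Agent.H661R3.Branch

set_option autoImplicit false
open Pool Pool.MP_042d8e_al

namespace Pool.Agent.S00609

/-- There is a branch group (faithful, level-transitive on a locally finite rooted tree, finite-index rigid level stabilizers) with infinitely many pairwise inequivalent descending sequences of finite-index normal subgroups with trivial intersection. -/
theorem result :
    ∃ (G : Type) (_ : Group G) (V : Type) (_ : MulAction G V) (lev : V → ℕ) (par : V → V),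
      (∀ v w : V, lev v = 0 → lev w = 0 → v = w) ∧
      (∃ v : V, lev v = 0) ∧
      (∀ w : V, lev w = 0 → par w = w) ∧
      (∀ w : V, lev w ≠ 0 → lev (par w) + 1 = lev w) ∧
      (∀ n : ℕ, {v : V | lev v = n}.Finite) ∧
      (∀ v : V, ∃ w₁ w₂ : V, w₁ ≠ w₂ ∧ par w₁ = v ∧ par w₂ = v ∧
          lev w₁ = lev v + 1 ∧ lev w₂ = lev v + 1) ∧
      (∀ (g : G) (w : V), lev (g • w) = lev w ∧ par (g • w) = g • par w) ∧
      (∀ g : G, (∀ v : V, g • v = v) → g = 1) ∧
      (∀ v w : V, lev v = lev w → ∃ g : G, g • v = w) ∧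
      (∀ n : ℕ, (Subgroup.closure {g : G | ∃ v : V, lev v = n ∧
          ∀ w : V, (∀ k : ℕ, par^[k] w ≠ v) → g • w = w}).FiniteIndex) ∧
      ∃ M : ℕ → ℕ → Subgroup G,
        (∀ a : ℕ, Antitone (M a) ∧ (∀ i : ℕ, (M a i).Normal ∧ (M a i).FiniteIndex) ∧
            (⨅ i : ℕ, M a i) = ⊥) ∧
        (∀ a b : ℕ, a ≠ b →
            ¬ ((∀ i : ℕ, ∃ j : ℕ, M b j ≤ M a i) ∧ (∀ i : ℕ, ∃ j : ℕ, M a j ≤ M b i))) := by
  refine ⟨H661R3.Branch.G, inferInstance, List Bool, inferInstance, List.length, List.tail,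
    ?_, ⟨[], rfl⟩, ?_, ?_, ?_, ?_, ?_, ?_, ?_, ?_,
    fun a => H661R3.Branch.M (H661R3.Branch.S a), ?_, ?_⟩
  · intro v w hv hw
    rw [List.length_eq_zero_iff] at hv hw
    rw [hv, hw]
  · intro w hw
    rw [List.length_eq_zero_iff] at hw
    rw [hw]; rfl
  · intro w hw
    rw [List.length_tail]
    omega
  · intro n
    exact List.finite_length_eq Bool n
  · intro v
    exact ⟨true :: v, false :: v, by simp, rfl, rfl, rfl, rfl⟩
  · intro g w
    exact ⟨H661R3.Branch.G_len g w, H661R3.Branch.G_tail g w⟩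
  · intro g h
    ext w : 2
    exact h w
  · intro v w h
    exact H661R3.Branch.trans v w h
  · intro n
    exact H661R3.Branch.rist_finiteIndex n
  · intro a
    exact ⟨H661R3.Branch.M_antitone _, fun i => ⟨inferInstance, inferInstance⟩,
      H661R3.Branch.M_iInf _⟩
  · rintro a b hab ⟨h1, _⟩
    obtain ⟨j, hj⟩ := h1 0
    exact H661R3.Branch.M_not_le a b 0 j hab hj

end Pool.Agent.S00609
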