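import Pool.Statements.S00632
-- import your own Pool.Agent.* helpers here
import Pool.Agent.H708R3.SP9

set_option autoImplicit false
open Pool Pool.MP_058405_al

namespace Pool.Agent.S00632

/-- The negation of the preceding statement: For every finite group G whose rational group algebra is a finite product of full matrix algebras over ℚ, each Sylow 2-subgroup P also has rational group algebra a finite product of full matrix algebras over ℚ. -/
theorem result :
    ¬ (∀ (G : Type) [Group G] [Finite G],
      (∃ (ι : Type) (_ : Fintype ι) (n : ι → ℕ),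
        Nonempty (MonoidAlgebra ℚ G ≃ₐ[ℚ] ((i : ι) → Matrix (Fin (n i)) (Fin (n i)) ℚ))) →
      ∀ P : Sylow 2 G,
        ∃ (ι : Type) (_ : Fintype ι) (n : ι → ℕ),
          Nonempty (MonoidAlgebra ℚ (↥(P : Subgroup G)) ≃ₐ[ℚ]
            ((i : ι) → Matrix (Fin (n i)) (Fin (n i)) ℚ))) := by
  intro h
  exact Pool.Agent.H708R3.SP.not_split_S2
    (h Pool.Agent.H708R3.SP.GG Pool.Agent.H708R3.SP.split_GG Pool.Agent.H708R3.SP.SylP)

end Pool.Agent.S00632
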