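import Pool.Statements.S00684
import Mathlib

set_option autoImplicit false
open Pool Pool.MP_0b625c_al

namespace Pool.Agent.S00684

open Filter Topology
open scoped Classical

/-- The group of all maps from the circle to the circle, to be given a coarser metric. -/
def E : Type := Circle → Circle

noncomputable instance : CommGroup E := inferInstanceAs (CommGroup (Circle → Circle))

/-- A positive weight on the circle with infimum zero. -/
noncomputable def h (q : Circle) : ℝ := if q = 1 then 1 else dist q 1

lemma h_pos (q : Circle) : 0 < h q := by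
  unfold h
  split_ifs with hq
  · norm_num
  · exact dist_pos.mpr hq

lemma dist_coe (a b : Circle) : dist a b = ‖(a : ℂ) - (b : ℂ)‖ := by
  have h1 : dist a b = dist (a : ℂ) (b : ℂ) := rfl
  rw [h1, Complex.dist_eq]

lemma dist_le_two (a b : Circle) : dist a b ≤ 2 := by
  rw [dist_coe]
  refine (norm_sub_le _ _).trans ?_
  rw [Circle.norm_coe, Circle.norm_coe]; norm_num

lemma h_le (q : Circle) : h q ≤ 2 := by
  unfold h
  split_ifs with hq
  · norm_num
  · exact dist_le_two _ _

lemma dist_mul_one_le (a b : Circle) : dist (a * b) 1 ≤ dist a 1 + dist b 1 := by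
  rw [dist_coe, dist_coe, dist_coe]
  have e : ((a * b : Circle) : ℂ) - ((1 : Circle) : ℂ)
      = (((a : ℂ) - ((1 : Circle) : ℂ))) * b + ((b : ℂ) - ((1 : Circle) : ℂ)) := by
    simp; ring
  rw [e]
  refine (norm_add_le _ _).trans ?_
  rw [norm_mul, Circle.norm_coe, mul_one]

lemma dist_inv_one (a : Circle) : dist a⁻¹ 1 = dist a 1 := by
  rw [dist_coe, dist_coe]
  have e : ((a⁻¹ : Circle) : ℂ) - ((1 : Circle) : ℂ)
      = - (((a⁻¹ : Circle) : ℂ) * ((a : ℂ) - ((1 : Circle) : ℂ))) := by
    have : ((a⁻¹ : Circle) : ℂ) * (a : ℂ) = 1 := by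
      rw [← Circle.coe_mul, inv_mul_cancel, Circle.coe_one]
    rw [mul_sub, this]; simp
  rw [e, norm_neg, norm_mul, Circle.norm_coe, one_mul]

lemma dist_eq_div (a b : Circle) : dist a b = dist (a / b) 1 := by
  rw [dist_coe, dist_coe]
  have e : (a : ℂ) - b = (((a / b : Circle) : ℂ) - ((1 : Circle) : ℂ)) * b := by
    rw [sub_mul, ← Circle.coe_mul, div_mul_cancel]; simp
  rw [e, norm_mul, Circle.norm_coe, mul_one]

/-- The weighted supremum. -/
noncomputable def f (x : E) : ℝ := ⨆ q : Circle, h q * dist (x q) 1

lemma bdd (x : E) : BddAbove (Set.range fun q : Circle => h q * dist (x q) 1) := by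
  refine ⟨4, ?_⟩
  rintro _ ⟨q, rfl⟩
  have h1 := h_le q
  have h2 := dist_le_two (x q) 1
  have h3 := (h_pos q).le
  have h4 : 0 ≤ dist (x q) 1 := dist_nonneg
  show h q * dist (x q) 1 ≤ 4
  nlinarith

lemma le_f (x : E) (q : Circle) : h q * dist (x q) 1 ≤ f x := le_ciSup (bdd x) q

lemma f_le {x : E} {r : ℝ} (hr : ∀ q, h q * dist (x q) 1 ≤ r) : f x ≤ r :=
  ciSup_le hr

/-- The weighted supremum as a group norm. -/
noncomputable def nrm : GroupNorm E where
  toFun := f
  map_one' := by
    apply le_antisymm
    · apply f_le
      intro q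
      have : (1 : E) q = 1 := rfl
      rw [this, dist_self, mul_zero]
    · have := le_f 1 1
      have h2 : (1 : E) 1 = 1 := rfl
      rwa [h2, dist_self, mul_zero] at this
  mul_le' := by
    intro x y
    apply f_le
    intro q
    have h1 : (x * y : E) q = x q * y q := rfl
    rw [h1]
    have h2 := le_f x q
    have h3 := le_f y q
    have h4 := dist_mul_one_le (x q) (y q)
    have h5 := mul_le_mul_of_nonneg_left h4 (h_pos q).le
    linarith
  inv' := by
    intro x
    unfold f
    congr 1
    funext q
    have h1 : (x⁻¹ : E) q = (x q)⁻¹ := rfl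
    rw [h1, dist_inv_one]
  eq_one_of_map_eq_zero' := by
    intro x hx
    have hx' : f x = 0 := hx
    funext q
    have h1 := le_f x q
    rw [hx'] at h1
    have h2 := h_pos q
    have h3 : dist (x q) 1 ≤ 0 := by
      by_contra hc
      push Not at hc
      have := mul_pos h2 hc
      linarith
    have h4 : x q = 1 := dist_le_zero.mp h3
    rw [h4]; rfl

noncomputable instance : NormedCommGroup E := nrm.toNormedCommGroup

lemma dist_def (x y : E) : dist x y = ⨆ q : Circle, h q * dist (x q) (y q) := by
  rw [dist_eq_norm_div]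
  show f (x / y) = _
  unfold f
  congr 1
  funext q
  have h1 : (x / y : E) q = x q / y q := rfl
  rw [h1, ← dist_eq_div]

lemma le_dist (x y : E) (q : Circle) : h q * dist (x q) (y q) ≤ dist x y := by
  rw [dist_eq_norm_div, dist_eq_div (x q) (y q)]
  exact le_f (x / y) q

lemma dist_le' {x y : E} {r : ℝ} (hr : ∀ q, h q * dist (x q) (y q) ≤ r) : dist x y ≤ r := by
  rw [dist_def]
  exact ciSup_le hr

instance : CompleteSpace E := by
  apply Metric.complete_of_cauchySeq_tendsto
  intro u hu
  have hcoord : ∀ q : Circle, ∃ z : Circle, Tendsto (fun n => u n q) atTop (𝓝 z) := by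
    intro q
    apply cauchySeq_tendsto_of_complete
    refine Metric.cauchySeq_iff.mpr ?_
    rw [Metric.cauchySeq_iff] at hu
    intro ε hε
    obtain ⟨N, hN⟩ := hu (h q * ε) (mul_pos (h_pos q) hε)
    refine ⟨N, fun m hm n hn => ?_⟩
    have h1 := hN m hm n hn
    have h2 := le_dist (u m) (u n) q
    have h3 := h_pos q
    exact lt_of_mul_lt_mul_left (lt_of_le_of_lt h2 h1) h3.le
  choose z hz using hcoord
  refine ⟨z, ?_⟩
  refine Metric.tendsto_atTop.mpr ?_
  rw [Metric.cauchySeq_iff] at hu
  intro ε hε
  obtain ⟨N, hN⟩ := hu (ε / 2) (by linarith)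
  refine ⟨N, fun n hn => ?_⟩
  have : dist (u n) (z : E) ≤ ε / 2 := by
    apply dist_le'
    intro q
    have ht : Tendsto (fun m => h q * dist (u n q) (u m q)) atTop (𝓝 (h q * dist (u n q) (z q))) :=
      (tendsto_const_nhds.dist (hz q)).const_mul _
    apply le_of_tendsto ht
    filter_upwards [eventually_ge_atTop N] with m hm
    exact (le_dist (u n) (u m) q).trans (hN n hn m hm).le
  linarith

/-- The negation of the preceding statement: Take the group of all unit-circle-valued maps on the unit circle, with pointwise product and sup metric. Every continuous bijective homomorphism from it onto a complete metric topological group has a continuous inverse. -/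
theorem result :
    ¬ (∀ (E₁ : Type) [Group E₁] [MetricSpace E₁] [CompleteSpace E₁] [IsTopologicalGroup E₁]
      (U : (Circle → Circle) →* E₁),
      Function.Bijective U →
      (∀ x : Circle → Circle, ∀ ε > (0 : ℝ), ∃ δ > (0 : ℝ), ∀ y : Circle → Circle,
          (∀ q : Circle, dist (x q) (y q) ≤ δ) → dist (U x) (U y) < ε) →
      (∀ x : Circle → Circle, ∀ ε > (0 : ℝ), ∃ δ > (0 : ℝ), ∀ y : Circle → Circle,
          dist (U x) (U y) < δ → ∀ q : Circle, dist (x q) (y q) ≤ ε)) := by
  intro H
  let U : (Circle → Circle) →* E := MonoidHom.id (Circle → Circle)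
  have hU : ∀ x, U x = x := fun _ => rfl
  have key := H E U ⟨fun a b hab => hab, fun b => ⟨b, rfl⟩⟩ ?_ 1 1 one_pos
  · obtain ⟨δ, hδ, hk⟩ := key
    -- a point near `1`, different from `1`
    obtain ⟨q, hq1, hq⟩ : ∃ q : Circle, q ≠ 1 ∧ dist q 1 < δ / 4 := by
      have hc : ContinuousAt (fun t : ℝ => Circle.exp t) 0 := Circle.exp.continuous.continuousAt
      rw [Metric.continuousAt_iff] at hc
      obtain ⟨η, hη, hc⟩ := hc (δ / 4) (by linarith)
      have hs : 0 < min (η / 2) 1 := lt_min (by linarith) one_pos
      refine ⟨Circle.exp (min (η / 2) 1), ?_, ?_⟩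
      · intro he
        have h1 := Circle.exp_eq_one.mp he
        obtain ⟨n, hn⟩ := h1
        have h2 : min (η / 2) 1 ≤ (1 : ℝ) := min_le_right _ _
        have h3 := Real.pi_gt_three
        have hn1 : (0 : ℝ) < n := by
          by_contra hcon
          push Not at hcon
          nlinarith
        have hn2 : (1 : ℝ) ≤ n := by
          have : (0 : ℤ) < n := by exact_mod_cast hn1
          exact_mod_cast this
        nlinarith
      · have h1 := hc (x := min (η / 2) 1) (by
          rw [Real.dist_eq, sub_zero, abs_of_pos hs]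
          exact lt_of_le_of_lt (min_le_left _ _) (by linarith))
        simpa using h1
    let a : Circle := Circle.exp Real.pi
    have ha : dist (1 : Circle) a = 2 := by
      rw [dist_coe]
      have : ((a : Circle) : ℂ) = -1 := by
        show ((Circle.exp Real.pi : Circle) : ℂ) = -1
        rw [Circle.coe_exp, Complex.exp_pi_mul_I]
      rw [this, Circle.coe_one]; norm_num
    have h1 := hk (Function.update 1 q a) ?_ q
    · rw [Function.update_self] at h1
      have h2 : (1 : Circle → Circle) q = 1 := rfl
      rw [h2, ha] at h1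
      norm_num at h1
    · have h3 : dist (U 1) (U (Function.update 1 q a)) ≤ δ / 2 := by
        apply dist_le'
        intro q'
        by_cases hqq : q' = q
        · subst hqq
          show h q' * dist ((1 : Circle → Circle) q') ((Function.update 1 q' a : Circle → Circle) q') ≤ _
          rw [Function.update_self, Pi.one_apply, ha]
          have : h q' = dist q' 1 := by unfold h; rw [if_neg hq1]
          rw [this]; linarith
        · show h q' * dist ((1 : Circle → Circle) q') ((Function.update 1 q a : Circle → Circle) q') ≤ _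
          rw [Function.update_of_ne hqq, dist_self, mul_zero]
          linarith
      linarith
  · intro x ε hε
    refine ⟨ε / 4, by linarith, fun y hy => ?_⟩
    have : dist (U x) (U y) ≤ ε / 2 := by
      apply dist_le'
      intro q
      have h1 := hy q
      have h2 := h_le q
      have h3 := (h_pos q).le
      have h4 : 0 ≤ dist (x q) (y q) := dist_nonneg
      show h q * dist (x q) (y q) ≤ ε / 2
      nlinarith
    linarith

end Pool.Agent.S00684
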