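import Pool.Statements.S00750
import Pool.Agent.H540R3.NoVRC
import Pool.Agent.H540R3.GerTree
import Pool.Agent.H540R3.GerCSS

set_option autoImplicit false
open Pool Pool.MP_0fe979_al

namespace Pool.Agent.S00750

open Pool.Agent.H540R3 Pool.Agent.H540R3.Ger

/-- The element `a` of Gersten's group. -/
abbrev gA : G := SemidirectProduct.inl (FreeGroup.of 0)

/-- The stable letter. -/
abbrev gT : G := SemidirectProduct.inr (Multiplicative.ofAdd 1)

lemma ψ1 : ψ (Multiplicative.ofAdd 1) = φ := by rw [ψ_apply]; simp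

lemma conj_letter (k : Fin 3) (w : F) (hw : φ (FreeGroup.of k) = w * FreeGroup.of k) :
    (SemidirectProduct.inl (FreeGroup.of k) : G) * gT * (SemidirectProduct.inl (FreeGroup.of k))⁻¹ =
      SemidirectProduct.inl w⁻¹ * gT := by
  have h1 : (SemidirectProduct.inl (φ (FreeGroup.of k)) : G) =
      gT * SemidirectProduct.inl (FreeGroup.of k) * gT⁻¹ := by
    rw [← ψ1, SemidirectProduct.inl_aut, map_inv]
  rw [hw, map_mul] at h1
  rw [map_inv]
  have h2 : (SemidirectProduct.inl (FreeGroup.of k) : G) * gT =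
      (SemidirectProduct.inl w)⁻¹ * (gT * SemidirectProduct.inl (FreeGroup.of k)) := by
    rw [eq_inv_mul_iff_mul_eq, ← mul_assoc, h1]
    group
  rw [h2]
  group

/-- The negation of the preceding statement: Let G act on a tree without inversions, with finitely many vertex and edge orbits, free abelian finite-rank vertex stabilizers and cyclic edge stabilizers. If G is cyclic subgroup separable, is every cyclic subgroup of G a virtual retract? -/
theorem result :
    ¬ (∀ (G : Type) [Group G] (V : Type) (T : SimpleGraph V) [MulAction G V],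
    T.IsTree →
    (∀ (g : G) (u v : V), T.Adj u v → T.Adj (g • u) (g • v)) →
    (∀ (g : G) (u v : V), T.Adj u v → ¬ (g • u = v ∧ g • v = u)) →
    (∃ S : Finset V, ∀ v : V, ∃ g : G, g • v ∈ S) →
    (∃ E : Finset (V × V), ∀ u v : V, T.Adj u v → ∃ g : G, (g • u, g • v) ∈ E) →
    (∀ v : V, ∃ n : ℕ, Nonempty (↥(MulAction.stabilizer G v) ≃* Multiplicative (Fin n → ℤ))) →
    (∀ u v : V, T.Adj u v →
      IsCyclic ↥(MulAction.stabilizer G u ⊓ MulAction.stabilizer G v)) →
    (∀ g h : G, h ∉ Subgroup.zpowers g →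
      ∃ K : Subgroup G, K.FiniteIndex ∧ Subgroup.zpowers g ≤ K ∧ h ∉ K) →
    ∀ g : G, ∃ K : Subgroup G, K.FiniteIndex ∧ Subgroup.zpowers g ≤ K ∧
      ∃ r : ↥K →* G, (∀ k : ↥K, r k ∈ Subgroup.zpowers g) ∧
        (∀ k : ↥K, (k : G) ∈ Subgroup.zpowers g → r k = (k : G))) := by
  intro hall
  obtain ⟨K, hK, hgK, r, hr1, hr2⟩ := hall Ger.G Ger.V Ger.T Ger.isTree Ger.adj_smul Ger.no_inv
    ⟨{Ger.vt 1}, fun v => by
      obtain ⟨g, hg⟩ := exists_smul v
      exact ⟨g, by rw [hg]; exact Finset.mem_singleton_self _⟩⟩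
    Ger.edge_orbits Ger.vertex_stab Ger.edge_stab Ger.css gA
  have hA : gA ∈ K := hgK (Subgroup.mem_zpowers _)
  -- the retraction read in the integers
  let cnt : F →* Multiplicative ℤ := FreeGroup.lift (fun _ => Multiplicative.ofAdd 1)
  have hright : ∀ k : K, (r k).right = 1 := by
    intro k
    obtain ⟨i, hi⟩ := hr1 k
    change gA ^ i = _ at hi
    rw [← hi, ← map_zpow]
    rfl
  let f : K →* Multiplicative ℤ :=
    { toFun := fun k => cnt (r k).left
      map_one' := by rw [map_one]; exact map_one cnt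
      map_mul' := by
        intro x y
        rw [map_mul, SemidirectProduct.mul_left, hright x, map_one, MulAut.one_apply, map_mul] }
  have h1 := no_vrc gA gT (SemidirectProduct.inl (FreeGroup.of 1))
    (SemidirectProduct.inl (FreeGroup.of 2)) ?_ ?_ ?_ K hK hA f
  · have h2 : cnt (r ⟨gA, hA⟩).left = 1 := h1
    rw [hr2 ⟨gA, hA⟩ (Subgroup.mem_zpowers _)] at h2
    change cnt (FreeGroup.of 0) = 1 at h2
    rw [FreeGroup.lift_apply_of] at h2
    have h3 := congrArg Multiplicative.toAdd h2
    simp at h3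
  · have h1 : (SemidirectProduct.inl (φ (FreeGroup.of 0)) : Ger.G) =
        gT * SemidirectProduct.inl (FreeGroup.of 0) * gT⁻¹ := by
      rw [← ψ1, SemidirectProduct.inl_aut, map_inv]
    rw [φ_zero, eq_mul_inv_iff_mul_eq] at h1
    exact h1
  · rw [conj_letter 1 (FreeGroup.of 0) φ_one, map_inv]
  · rw [conj_letter 2 (FreeGroup.of 0 * FreeGroup.of 0) φ_two, mul_inv_rev, map_mul, map_inv, pow_two]

end Pool.Agent.S00750
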