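import Pool.Statements.S00777
import Pool.Agent.H679R3.RfSolv2

set_option autoImplicit false
open Pool Pool.MP_1358e2_al

namespace Pool.Agent.S00777

/-- There exist n and r ∈ F(Fin n) such that ⟨Fin n ∣ r⟩ is residually finite (each g≠1 avoids some finite-index normal subgroup) and some g≠1 lies in every term of the derived series (i.e., not residually solvable). -/
theorem result :
    ∃ (n : ℕ) (r : FreeGroup (Fin n)),
      (∀ g : PresentedGroup ({r} : Set (FreeGroup (Fin n))), g ≠ 1 →
        ∃ N : Subgroup (PresentedGroup ({r} : Set (FreeGroup (Fin n)))),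
          N.Normal ∧ N.FiniteIndex ∧ g ∉ N) ∧
      ∃ g : PresentedGroup ({r} : Set (FreeGroup (Fin n))), g ≠ 1 ∧
        ∀ k : ℕ, g ∈ derivedSeries (PresentedGroup ({r} : Set (FreeGroup (Fin n)))) k := by
  obtain ⟨Q, hQ, f, hf, hrf, hx⟩ := Pool.H679R3.RfSolv.exists_hnn
  refine ⟨3, Pool.H679R3.RfSolv.rel, ?_, Pool.H679R3.RfSolv.pX, ?_,
    Pool.H679R3.RfSolv.derived⟩
  · intro g hg
    have h1 : f g ≠ 1 := fun h => hg (hf (by rw [h, map_one]))
    obtain ⟨q, hq⟩ := hrf (f g) h1
    refine ⟨(q.φ.comp f).ker, inferInstance, ?_, ?_⟩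
    · exact Subgroup.finiteIndex_ker (q.φ.comp f)
    · intro h
      exact hq (MonoidHom.mem_ker.mp h)
  · intro h
    apply hx
    rw [h, map_one]

end Pool.Agent.S00777
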