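import Pool.Statements.S00830
import Pool.Agent.H698R3.ProjMain

set_option autoImplicit false
open Pool Pool.MP_196888_al

namespace Pool.Agent.S00830

/-- The negation of the preceding statement: For every group G, every m ≥ 2 and every lattice isomorphism φ from the subgroups of G^m to the subgroups of a group H such that H is the internal direct product of the images of the coordinate subgroups, the image of the first coordinate subgroup is isomorphic to G. -/
theorem result :
    ¬ (∀ (G : Type) [Group G] (n : ℕ) (H : Type) [Group H]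
      (φ : Subgroup (Fin (n + 2) → G) ≃o Subgroup H),
      (∀ i : Fin (n + 2),
          (φ (MonoidHom.mulSingle (fun _ : Fin (n + 2) => G) i).range).Normal) →
      (⨆ i : Fin (n + 2), φ (MonoidHom.mulSingle (fun _ : Fin (n + 2) => G) i).range) = ⊤ →
      iSupIndep (fun i : Fin (n + 2) =>
          φ (MonoidHom.mulSingle (fun _ : Fin (n + 2) => G) i).range) →
      Nonempty (↥(φ (MonoidHom.mulSingle (fun _ : Fin (n + 2) => G) 0).range) ≃* G)) := by
  intro h
  have hc : ∀ i : Fin (0 + 2),
      ((Pool.Agent.H698R3.Proj.wEquiv.pi (Fin (0 + 2))).lattice)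
        (MonoidHom.mulSingle (fun _ : Fin (0 + 2) => Pool.Agent.H698R3.Proj.Gr false) i).range =
      (MonoidHom.mulSingle (fun _ : Fin (0 + 2) => Pool.Agent.H698R3.Proj.Gr true) i).range :=
    fun i => Pool.Agent.H698R3.Proj.WordEquiv.lattice_coord _ i
  obtain ⟨f⟩ := h (Pool.Agent.H698R3.Proj.Gr false) 0
    (Fin (0 + 2) → Pool.Agent.H698R3.Proj.Gr true)
    ((Pool.Agent.H698R3.Proj.wEquiv.pi (Fin (0 + 2))).lattice)
    (fun i => by rw [hc]; exact Pool.Agent.H698R3.Proj.normal_range_mulSingle i)
    (by simp only [hc]; exact Pool.Agent.H698R3.Proj.iSup_range_mulSingle _)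
    (by simp only [hc]; exact Pool.Agent.H698R3.Proj.indep_range_mulSingle)
  have hinj : Function.Injective
      (MonoidHom.mulSingle (fun _ : Fin (0 + 2) => Pool.Agent.H698R3.Proj.Gr true) 0) :=
    Pi.mulSingle_injective (M := fun _ : Fin (0 + 2) => Pool.Agent.H698R3.Proj.Gr true) 0
  exact Pool.Agent.H698R3.Proj.not_iso
    ⟨((MonoidHom.ofInjective hinj).trans (MulEquiv.subgroupCongr (hc 0).symm)).trans f⟩

end Pool.Agent.S00830
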