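import Pool.Statements.S00832
import Pool.Agent.H135R3.StanleyDepth

set_option autoImplicit false
open Pool Pool.MP_19aa8a_al

namespace Pool.Agent.S00832

/-- The negation of the preceding statement: For every proper nonzero monomial ideal I in n variables and every d: if S/I has a Stanley decomposition with all spaces of dimension at least d, then I has one with all at least d+1; i.e. sdepth I ≥ sdepth S/I + 1. -/
theorem result :
    ¬ (∀ (n : ℕ) (U : Set (Fin n → ℕ)), IsUpperSet U → U.Nonempty → (0 : Fin n → ℕ) ∉ U →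
      ∀ d : ℕ,
        (∃ s : Finset ((Fin n → ℕ) × Finset (Fin n)),
          (∀ p ∈ s, d ≤ p.2.card) ∧
          (∀ b : Fin n → ℕ, b ∉ U ↔
            ∃ p ∈ s, ∀ j : Fin n, (j ∈ p.2 → p.1 j ≤ b j) ∧ (j ∉ p.2 → b j = p.1 j)) ∧
          (∀ p ∈ s, ∀ q ∈ s, ∀ b : Fin n → ℕ,
            (∀ j : Fin n, (j ∈ p.2 → p.1 j ≤ b j) ∧ (j ∉ p.2 → b j = p.1 j)) →
            (∀ j : Fin n, (j ∈ q.2 → q.1 j ≤ b j) ∧ (j ∉ q.2 → b j = q.1 j)) → p = q)) →
        (∃ s : Finset ((Fin n → ℕ) × Finset (Fin n)),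
          (∀ p ∈ s, d + 1 ≤ p.2.card) ∧
          (∀ b : Fin n → ℕ, b ∈ U ↔
            ∃ p ∈ s, ∀ j : Fin n, (j ∈ p.2 → p.1 j ≤ b j) ∧ (j ∉ p.2 → b j = p.1 j)) ∧
          (∀ p ∈ s, ∀ q ∈ s, ∀ b : Fin n → ℕ,
            (∀ j : Fin n, (j ∈ p.2 → p.1 j ≤ b j) ∧ (j ∉ p.2 → b j = p.1 j)) →
            (∀ j : Fin n, (j ∈ q.2 → q.1 j ≤ b j) ∧ (j ∉ q.2 → b j = q.1 j)) → p = q))) := by
  intro h
  exact H135R3.SD.no_decomp (h 10 H135R3.SD.U H135R3.SD.U_upper H135R3.SD.U_nonempty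
    H135R3.SD.U_zero 7 H135R3.SD.decomp)

end Pool.Agent.S00832
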