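import Pool.Statements.S00846
import Pool.Agent.H343R3.Rigid

set_option autoImplicit false
open Pool Pool.MP_1ad72b_al

namespace Pool.Agent.S00846

/-- The negation of the preceding statement: Every lattice-ordered group whose addition is the only lattice-monotone group operation on its lattice with the same zero is archimedean: whenever all natural multiples of a lie below some b, a ≤ 0. -/
theorem result :
    ¬ (∀ (G : Type) [Lattice G] [AddGroup G] [AddLeftMono G] [AddRightMono G],
      (∀ op : G → G → G,
          (∀ x y z : G, op (op x y) z = op x (op y z)) →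
          (∀ x : G, op 0 x = x ∧ op x 0 = x) →
          (∀ x : G, ∃ y : G, op x y = 0 ∧ op y x = 0) →
          (∀ a b c : G, a ≤ b → op c a ≤ op c b ∧ op a c ≤ op b c) →
          ∀ x y : G, op x y = x + y) →
      ∀ a b : G, (∀ n : ℕ, n • a ≤ b) → a ≤ 0) := by
  intro hmain
  obtain ⟨a, b, hab, ha⟩ := Pool.Agent.H343R3.UA.not_arch
  apply ha
  exact hmain Pool.Agent.H343R3.UA.G
    (fun op h1 h2 h3 h4 x y =>
      Pool.Agent.H343R3.UA.unique_add ⟨h1, h2, h3, h4⟩ x y) a b hab

end Pool.Agent.S00846
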