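import Pool.Statements.S00861
import Pool.Agent.H975R3.SmallCard

set_option autoImplicit false
open Pool Pool.MP_1c3690_al

namespace Pool.Agent.S00861

/-- For every variety of groups given by laws that is locally graded and has fewer than continuum many finitely generated groups up to isomorphism, every finitely generated group in it satisfies the ascending chain condition on normal subgroups. -/
theorem result :
    ∀ S : Set (FreeGroup ℕ),
      (∀ (G : Type) [Group G],
        (∀ w ∈ S, ∀ f : ℕ → G, FreeGroup.lift f w = 1) →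
        ∀ H : Subgroup G, H.FG → H ≠ ⊥ →
          ∃ K : Subgroup H, K ≠ ⊤ ∧ K.FiniteIndex) →
      (¬ ∃ (G : Set ℕ → Type) (_ : ∀ s, Group (G s)),
          (∀ s, Group.FG (G s)) ∧
          (∀ s, ∀ w ∈ S, ∀ f : ℕ → G s, FreeGroup.lift f w = 1) ∧
          (∀ s t, Nonempty (G s ≃* G t) → s = t)) →
      ∀ (G : Type) [Group G], Group.FG G →
        (∀ w ∈ S, ∀ f : ℕ → G, FreeGroup.lift f w = 1) →
        ∀ N : ℕ → Subgroup G, (∀ n, (N n).Normal) → Monotone N →
          ∃ n, ∀ m, n ≤ m → N m = N n := by
  intro S _ hS G _ hfg hG N hN hmono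
  exact Pool.Agent.H975R3.maxn_of_nb
    (Pool.Agent.H975R3.nb_of_lt_continuum S hS G hG) hfg N hN hmono

end Pool.Agent.S00861
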