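import Pool.Statements.S00878
import Pool.Agent.H219R3.Nub

set_option autoImplicit false
open scoped Pointwise
open Pool Pool.MP_1dd661_al

namespace Pool.Agent.S00878

/-- The negation of the preceding statement: For a t.d.l.c. group G and a finitely generated flat group H of topological automorphisms, there are finitely many distinct elements of H whose nubs multiply, as sets, to the nub of H. -/
theorem result :
    ¬ (∀ (G : Type) [Group G] [TopologicalSpace G] [IsTopologicalGroup G]
      [LocallyCompactSpace G] [TotallyDisconnectedSpace G]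
      (H : Subgroup (MulAut G)) (tidy : MulAut G → Subgroup G → Prop),
      (∀ (a : MulAut G) (U : Subgroup G), tidy a U ↔
          ((U : Set G) =
              (⋂ n : ℕ, Set.image (⇑(a ^ n)) (U : Set G)) *
                (⋂ n : ℕ, Set.image (⇑(a⁻¹ ^ n)) (U : Set G)) ∧
            IsClosed (⋃ m : ℕ, Set.image (⇑(a ^ m))
                (⋂ n : ℕ, Set.image (⇑(a ^ n)) (U : Set G))))) →
      (∀ a ∈ H, Continuous (⇑a)) →
      H.FG →
      (∃ U : Subgroup G, IsCompact (U : Set G) ∧ IsOpen (U : Set G) ∧
          ∀ a ∈ H, tidy a U) →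
      ∃ l : List (MulAut G), l.Nodup ∧ (∀ a ∈ l, a ∈ H) ∧
        (⋂ (U : Subgroup G)
            (_ : IsCompact (U : Set G) ∧ IsOpen (U : Set G) ∧ ∀ a ∈ H, tidy a U),
            (U : Set G)) =
          (l.map (fun a => ⋂ (U : Subgroup G)
              (_ : IsCompact (U : Set G) ∧ IsOpen (U : Set G) ∧ tidy a U),
              (U : Set G))).prod) := by
  intro hmain
  obtain ⟨T, hT, S, hS, hinf, htor⟩ := Pool.Agent.Helper475.Torsion.exists_inf_torsion
  letI : TopologicalSpace (Multiplicative (ZMod 2)) := ⊥
  haveI : DiscreteTopology (Multiplicative (ZMod 2)) := ⟨rfl⟩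
  haveI hTG : IsTopologicalGroup (Multiplicative (ZMod 2)) := inferInstance
  haveI : Finite (Multiplicative (ZMod 2)) := inferInstanceAs (Finite (ZMod 2))
  let φ : T →* MulAut (T → Multiplicative (ZMod 2)) := Pool.Agent.H219R3.Nub.shift
  have hfg : Group.FG T := ⟨⟨S, hS⟩⟩
  obtain ⟨l, -, hl, heq⟩ := hmain (T → Multiplicative (ZMod 2)) φ.range
    (fun a U => Pool.Agent.H219R3.Nub.Tidy a U) (fun a U => Iff.rfl)
    (by
      rintro a ⟨t, rfl⟩
      exact Pool.Agent.H219R3.Nub.continuous_shift t)
    (by
      have := Group.fg_range φ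
      exact (Group.fg_iff_subgroup_fg _).1 this)
    ⟨⊤, by simpa using isCompact_univ, by simp, by
      intro a _
      refine Pool.Agent.H219R3.Nub.tidy_of_inv a ⊤ ?_ (by simp)
      simp⟩
  -- each nub is trivial
  have hr : (l.map (fun a => ⋂ (U : Subgroup (T → Multiplicative (ZMod 2)))
              (_ : IsCompact (U : Set (T → Multiplicative (ZMod 2))) ∧
                IsOpen (U : Set (T → Multiplicative (ZMod 2))) ∧
                Pool.Agent.H219R3.Nub.Tidy a U),
              (U : Set (T → Multiplicative (ZMod 2))))).prod = 1 := by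
    apply List.prod_eq_one
    intro x hx
    rw [List.mem_map] at hx
    obtain ⟨a, ha, rfl⟩ := hx
    obtain ⟨t, rfl⟩ := hl a ha
    exact Pool.Agent.H219R3.Nub.nub_shift t (htor t)
  rw [hr] at heq
  -- the nub of the whole group is everything
  have hall : ∀ y : T → Multiplicative (ZMod 2), y = 1 := by
    intro y
    have hy : y ∈ (1 : Set (T → Multiplicative (ZMod 2))) := by
      rw [← heq]
      simp only [Set.mem_iInter]
      rintro U ⟨-, hU2, hU3⟩
      have htop : U = ⊤ := by
        apply Pool.Agent.H219R3.Nub.eq_top_of_inv U hU2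
        intro t
        exact Pool.Agent.H219R3.Nub.inv_of_tidy _ (MonoidHom.isOfFinOrder φ (htor t)) U (hU3 _ ⟨t, rfl⟩)
      rw [htop]
      trivial
    simpa using hy
  have h1 := congrFun (hall (fun _ => Multiplicative.ofAdd 1)) 1
  revert h1
  simp only [Pi.one_apply]
  decide

end Pool.Agent.S00878
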