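import Pool.Statements.S00884
import Pool.Agent.H546R3.YamB4

set_option autoImplicit false
open Pool Pool.MP_1ef125_al

namespace Pool.Agent.S00884

/-- The negation of the preceding statement: For each field k there is φ : ℕ → ℕ so that every finite-dimensional k-algebra with n simple modules up to isomorphism has either infinite dominant dimension or dominant dimension at most φ(n). -/
theorem result :
    ¬ (∀ (k : Type) [Field k], ∃ φ : ℕ → ℕ,
    ∀ (A : Type) [Ring A] [Algebra k A] [FiniteDimensional k A],
    ∀ (n : ℕ) (S : Fin n → ModuleCat.{0} A),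
      (∀ i, IsSimpleModule A (S i)) →
      (∀ i j, Nonempty (S i ≃ₗ[A] S j) → i = j) →
      (∀ M : ModuleCat.{0} A, IsSimpleModule A M → ∃ i, Nonempty (M ≃ₗ[A] S i)) →
      ∀ P : ℕ → Prop,
        (∀ m, P m ↔ ∃ (I : ℕ → ModuleCat.{0} A) (ε : A →ₗ[A] I 0)
            (d : ∀ i, I i →ₗ[A] I (i + 1)),
            Function.Injective ε ∧
            (1 < m → Function.Exact ε (d 0)) ∧
            (∀ i, i + 2 < m → Function.Exact (d i) (d (i + 1))) ∧
            ∀ j, j < m → Module.Projective A (I j) ∧ Module.Injective A (I j)) →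
        (∀ m, P m) ∨ ¬ P (φ n + 1)) := by
  exact Pool.Agent.H546R3.Yam.refute Pool.Agent.H546R3.Yam.final

end Pool.Agent.S00884
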