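import Pool.Statements.S00905

set_option autoImplicit false
open Pool Pool.MP_207b86_al

namespace Pool.Agent.S00905

open scoped Topology

/-- the group: a countable product of copies of the symmetric group on three letters -/
abbrev P : Type := ℕ → Equiv.Perm (Fin 3)

/-- evaluation of a one-variable word with constants -/
abbrev ev (g : P) : Monoid.Coprod P (FreeGroup Unit) →* P :=
  Monoid.Coprod.lift (MonoidHom.id P) (FreeGroup.lift (fun _ => g))

instance : TopologicalSpace (Equiv.Perm (Fin 3)) := ⊥
instance : DiscreteTopology (Equiv.Perm (Fin 3)) := ⟨rfl⟩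

lemma cont_ev (w : Monoid.Coprod P (FreeGroup Unit)) : Continuous (fun g : P => ev g w) := by
  induction w using Monoid.Coprod.induction_on with
  | inl m => simpa using continuous_const
  | inr n =>
    simp only [ev, Monoid.Coprod.lift_apply_inr]
    induction n using FreeGroup.induction_on with
    | C1 => simpa using continuous_const
    | of x => simpa using continuous_id'
    | inv_of x hx =>
      simp only [map_inv, FreeGroup.lift_apply_of]
      exact continuous_id'.inv
    | mul x y hx hy =>
      simp only [map_mul]
      exact Continuous.mul hx hy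
  | mul x y hx hy =>
    simp only [map_mul]
    exact Continuous.mul hx hy

lemma centre_trivial (s : Equiv.Perm (Fin 3)) (h : ∀ t : Equiv.Perm (Fin 3), s * t = t * s) :
    s = 1 := by
  revert s
  decide

/-- the commutator word `[x b⁻¹, g]` -/
noncomputable def cw (b g : P) : Monoid.Coprod P (FreeGroup Unit) :=
  Monoid.Coprod.inr (FreeGroup.of ()) * Monoid.Coprod.inl b⁻¹ * Monoid.Coprod.inl g *
    (Monoid.Coprod.inr (FreeGroup.of ()) * Monoid.Coprod.inl b⁻¹)⁻¹ * Monoid.Coprod.inl g⁻¹

lemma ev_cw (x b g : P) : ev x (cw b g) = 1 ↔ (x * b⁻¹) * g = g * (x * b⁻¹) := by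
  have : ev x (cw b g) = (x * b⁻¹) * g * (x * b⁻¹)⁻¹ * g⁻¹ := by
    simp [cw, ev]
  rw [this, mul_inv_eq_one, mul_inv_eq_iff_eq_mul]

lemma slice (i : ℕ) (b : Equiv.Perm (Fin 3)) :
    {x : P | x i = b} = ⋂ t : Equiv.Perm (Fin 3),
      {x : P | ev x (cw (Pi.mulSingle i b) (Pi.mulSingle i t)) = 1} := by
  ext x
  simp only [Set.mem_ofPred_eq, Set.mem_iInter, ev_cw]
  constructor
  · intro hx t
    funext j
    by_cases hj : j = i
    · subst hj
      simp [hx]
    · simp [hj]
  · intro h
    have h1 : x i * b⁻¹ = 1 := by
      apply centre_trivial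
      intro t
      have := congrFun (h t) i
      simpa using this
    exact mul_inv_eq_one.mp h1

/-- There is an infinite group whose Zariski topology is both compact and Hausdorff. The closed sets of that topology are generated by solution sets of one-variable equations with constants from the group. -/
theorem result :
    ∃ (G : Type) (_ : Group G) (T : TopologicalSpace G),
      Infinite G ∧
      T = TopologicalSpace.generateFrom
        {U : Set G | ∃ w : Monoid.Coprod G (FreeGroup Unit),
          U = {g : G | Monoid.Coprod.lift (MonoidHom.id G) (FreeGroup.lift (fun _ => g)) w = 1}ᶜ} ∧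
      @CompactSpace G T ∧ @T2Space G T := by
  refine ⟨P, inferInstance, Pi.topologicalSpace, inferInstance, ?_, inferInstance, inferInstance⟩
  apply le_antisymm
  · apply le_generateFrom
    rintro U ⟨w, rfl⟩
    rw [isOpen_compl_iff]
    exact isClosed_eq (cont_ev w) continuous_const
  · set T := TopologicalSpace.generateFrom
        {U : Set P | ∃ w : Monoid.Coprod P (FreeGroup Unit),
          U = {g : P | Monoid.Coprod.lift (MonoidHom.id P) (FreeGroup.lift (fun _ => g)) w = 1}ᶜ}
      with hT
    have hcl : ∀ (i : ℕ) (b : Equiv.Perm (Fin 3)), IsClosed[T] {x : P | x i = b} := by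
      intro i b
      rw [slice]
      apply @isClosed_iInter _ _ T
      intro t
      rw [← @isOpen_compl_iff _ _ T]
      exact TopologicalSpace.isOpen_generateFrom_of_mem ⟨_, rfl⟩
    have hop : ∀ (i : ℕ) (b : Equiv.Perm (Fin 3)), IsOpen[T] {x : P | x i = b} := by
      intro i b
      rw [← @isClosed_compl_iff _ T]
      have : {x : P | x i = b}ᶜ = ⋃ c ∈ ({c | c ≠ b} : Set (Equiv.Perm (Fin 3))), {x : P | x i = c} := by
        ext x; simp
      rw [this]
      exact @Set.Finite.isClosed_biUnion _ _ T _ _ (Set.toFinite _) (fun c _ => hcl i c)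
    change T ≤ ⨅ i, TopologicalSpace.induced (fun x : P => x i) ⊥
    apply le_iInf
    intro i
    rw [← continuous_iff_le_induced]
    refine @Continuous.mk _ _ T ⊥ _ ?_
    intro s _
    have : (fun x : P => x i) ⁻¹' s = ⋃ c ∈ s, {x : P | x i = c} := by
      ext x; simp
    rw [this]
    exact @isOpen_biUnion _ _ T _ _ (fun c _ => hop i c)

end Pool.Agent.S00905
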