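-- Proof of the frozen statement S00938 (helper753). The group is the isometry group of a countable
-- universal homogeneous metric space with distances in the natural numbers.
import Pool.Statements.S00938
import Pool.Agent.H753R3.OB.Fixed
import Pool.Agent.H753R3.OB.Unbdd

set_option autoImplicit false
open Pool Pool.MP_23009a_al

namespace Pool.Agent.S00938

/-- The negation of the preceding statement: For every non-Archimedean Polish group G: all continuous isometric actions of G on metric spaces have bounded orbits if and only if every continuous affine isometric action of G on a reflexive real Banach space has a fixed point. -/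
theorem result :
    ¬ (∀ (G : Type) [Group G] [TopologicalSpace G] [NonarchimedeanGroup G] [PolishSpace G],
      (∀ (X : Type) [MetricSpace X] (ρ : G →* (X ≃ᵢ X)),
          (∀ x : X, Continuous (fun g : G => ρ g x)) →
          ∀ x : X, Bornology.IsBounded (Set.range (fun g : G => ρ g x)))
      ↔
      (∀ (E : Type) [NormedAddCommGroup E] [NormedSpace ℝ E] [CompleteSpace E],
          Function.Surjective (NormedSpace.inclusionInDoubleDual ℝ E) →
          ∀ ρ : G →* (E ≃ᵃⁱ[ℝ] E),
            (∀ v : E, Continuous (fun g : G => ρ g v)) →
            ∃ v : E, ∀ g : G, ρ g v = v)) := by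
  intro H
  have h1 := (H Pool.Agent.H753R3.OB.GG).2 (by
    intro E _ _ _ hr ρ hρ
    exact Pool.Agent.H753R3.OB.exists_fixed hr ρ hρ)
  exact Pool.Agent.H753R3.OB.act_unbounded
    (h1 Pool.Agent.H753R3.OB.ZZ Pool.Agent.H753R3.OB.act
      Pool.Agent.H753R3.OB.act_continuous ⟨0⟩)

end Pool.Agent.S00938
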