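import Pool.Statements.S00995
import Pool.Agent.H499R3.Hopf

set_option autoImplicit false
open Pool Pool.MP_271f28_al

namespace Pool.Agent.S00995

/-- If T is a finitely generated hopfian subsemigroup of S with finitely many relative H-classes outside T, and every relative Schützenberger group of such a class is hopfian, then every surjective endomorphism of S is injective. -/
theorem result :
  ∀ (S : Type) [Semigroup S] (T : Subsemigroup S),
    (∃ F : Finset S, Subsemigroup.closure (↑F : Set S) = T) →
    Set.Finite {C : Set S | ∃ x : S, x ∉ T ∧ C = {y : S |
        insert x ((fun t => x * t) '' (T : Set S)) = insert y ((fun t => y * t) '' (T : Set S)) ∧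
        insert x ((fun t => t * x) '' (T : Set S)) = insert y ((fun t => t * y) '' (T : Set S))}} →
    (∀ f : T →ₙ* T, Function.Surjective f → Function.Injective f) →
    (∀ H : Set S, (∃ x : S, x ∉ T ∧ H = {y : S |
        insert x ((fun t => x * t) '' (T : Set S)) = insert y ((fun t => y * t) '' (T : Set S)) ∧
        insert x ((fun t => t * x) '' (T : Set S)) = insert y ((fun t => t * y) '' (T : Set S))}) →
      ∀ f : (conGen (fun a b : ↥(Submonoid.closure {u : WithOne S | u = 1 ∨
                ∃ t ∈ T, u = (t : WithOne S) ∧ (fun h => h * t) '' H = H}) =>
              ∀ h ∈ H, (h : WithOne S) * (a : WithOne S) = (h : WithOne S) * (b : WithOne S))).Quotient →*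
            (conGen (fun a b : ↥(Submonoid.closure {u : WithOne S | u = 1 ∨
                ∃ t ∈ T, u = (t : WithOne S) ∧ (fun h => h * t) '' H = H}) =>
              ∀ h ∈ H, (h : WithOne S) * (a : WithOne S) = (h : WithOne S) * (b : WithOne S))).Quotient,
        Function.Surjective f → Function.Injective f) →
    ∀ f : S →ₙ* S, Function.Surjective f → Function.Injective f := by
  intro S _ T hfg hfin hopT hop f hf
  exact Pool.Agent.H499R3.Hopf.main T hfg hfin hopT hop f hf

end Pool.Agent.S00995
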