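import Pool.Statements.S01012

set_option autoImplicit false
open Pool Pool.MP_293fae_al

namespace Pool.Agent.S01012

open Polynomial

/-- The homomorphism `a + b i ↦ a + b` from the Gaussian integers to the field with two elements. -/
noncomputable def toF2 : GaussianInt →+* ZMod 2 :=
  Zsqrtd.lift ⟨(1 : ZMod 2), by decide⟩

theorem toF2_apply (z : GaussianInt) : toF2 z = ((z.re + z.im : ℤ) : ZMod 2) := by
  simp [toF2, Zsqrtd.lift]

/-- Evaluation at `X = 0` followed by reduction modulo `1 + i`. -/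
noncomputable def phi : GaussianInt[X] →+* ZMod 2 :=
  toF2.comp (Polynomial.evalRingHom 0)

theorem toF2_surj : Function.Surjective toF2 := by
  intro z
  refine ⟨⟨(z.val : ℤ), 0⟩, ?_⟩
  rw [toF2_apply]
  simp

theorem phi_surj : Function.Surjective phi := by
  intro z
  obtain ⟨w, hw⟩ := toF2_surj z
  exact ⟨C w, by simp [phi, hw]⟩

instance : Fact (Nat.Prime 2) := ⟨Nat.prime_two⟩

/-- The maximal ideal `(1 + i, X)`. -/
noncomputable def P : Ideal GaussianInt[X] := RingHom.ker phi

instance P_max : P.IsMaximal := RingHom.ker_isMaximal_of_surjective phi phi_surj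

theorem mem_P (f : GaussianInt[X]) : f ∈ P ↔ toF2 (f.eval 0) = 0 := by
  simp [P, RingHom.mem_ker, phi]

theorem P_eq : P = Ideal.span {C (⟨1, 1⟩ : GaussianInt), X} := by
  apply le_antisymm
  · intro f hf
    rw [mem_P, toF2_apply, ZMod.intCast_zmod_eq_zero_iff_dvd] at hf
    obtain ⟨k, hk⟩ := hf
    have hk' : (f.eval 0).re + (f.eval 0).im = 2 * k := by exact_mod_cast hk
    have h0 : f.eval 0 = (⟨1, 1⟩ : GaussianInt) * ⟨k, (f.eval 0).im - k⟩ := by
      rw [Zsqrtd.ext_iff]
      constructor
      · simp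
        linarith
      · simp
    have h1 : f = C (f.eval 0) + X * f.divX := by
      conv_lhs => rw [← Polynomial.divX_mul_X_add f]
      rw [Polynomial.coeff_zero_eq_eval_zero, add_comm, mul_comm]
    rw [h1, h0, C_mul]
    refine Ideal.add_mem _ ?_ ?_
    · exact Ideal.mul_mem_right _ _ (Ideal.subset_span (by simp))
    · exact Ideal.mul_mem_right _ _ (Ideal.subset_span (by simp))
  · rw [Ideal.span_le]
    rintro f (rfl | rfl)
    · show _ ∈ P
      rw [mem_P, toF2_apply]
      simp
      decide
    · show _ ∈ P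
      rw [mem_P]
      simp

/-- The two-dimensional regular local ring. -/
abbrev R : Type := Localization.AtPrime P

theorem under_eq : P.under GaussianInt = RingHom.ker toF2 := by
  ext z
  rw [Ideal.under, Ideal.mem_comap, mem_P, RingHom.mem_ker]
  simp

instance under_max : (P.under GaussianInt).IsMaximal := by
  rw [under_eq]
  exact RingHom.ker_isMaximal_of_surjective toF2 toF2_surj

theorem not_field : ¬ IsField GaussianInt := by
  intro h
  obtain ⟨b, hb⟩ := h.mul_inv_cancel (show (2 : GaussianInt) ≠ 0 by decide)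
  have := congrArg Zsqrtd.re hb
  simp at this
  omega

theorem dim_R : ringKrullDim R = 2 := by
  rw [IsLocalization.AtPrime.ringKrullDim_eq_height P R,
    Polynomial.height_eq_height_add_one (P.under GaussianInt) P,
    IsPrincipalIdealRing.height_eq_one_of_isMaximal (P.under GaussianInt) not_field]
  norm_num

theorem max_R : IsLocalRing.maximalIdeal R =
    Ideal.span {algebraMap GaussianInt[X] R (C (⟨1, 1⟩ : GaussianInt)),
      algebraMap GaussianInt[X] R X} := by
  have h := Localization.AtPrime.map_eq_maximalIdeal (I := P)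
  rw [← h]
  have h2 : Ideal.map (algebraMap GaussianInt[X] R) P =
      Ideal.map (algebraMap GaussianInt[X] R) (Ideal.span {C (⟨1, 1⟩ : GaussianInt), X}) :=
    congrArg _ P_eq
  rw [h2, Ideal.map_span, Set.image_pair]

/-- No sum of two squares in `ZMod 4`-coordinates. -/
theorem no_two_mod4 : ∀ a b c d : ZMod 4,
    ¬ (a ^ 2 - b ^ 2 + c ^ 2 - d ^ 2 = 2 ∧ 2 * (a * b + c * d) = 2) := by
  decide

/-- For `s` outside `(1 + i)`, the Gaussian integer `s ^ 2 * (2 + 2 i)` is not a sum of two
squares of Gaussian integers. -/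
theorem no_two_gauss (s a b : GaussianInt) (hs : toF2 s ≠ 0) :
    s ^ 2 * (⟨2, 2⟩ : GaussianInt) ≠ a ^ 2 + b ^ 2 := by
  intro h
  rw [toF2_apply, Ne, ZMod.intCast_zmod_eq_zero_iff_dvd] at hs
  have hodd : ∃ k : ℤ, s.re + s.im = 2 * k + 1 := by
    have hs' : ¬ (2 : ℤ) ∣ s.re + s.im := by exact_mod_cast hs
    exact ⟨(s.re + s.im) / 2, by omega⟩
  obtain ⟨k, hk⟩ := hodd
  obtain ⟨x, y⟩ := s
  obtain ⟨a1, a2⟩ := a
  obtain ⟨b1, b2⟩ := b
  simp only at hk
  have hx : x = 2 * k + 1 - y := by linarith
  subst hx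
  have h1 := congrArg Zsqrtd.re h
  have h2 := congrArg Zsqrtd.im h
  simp only [pow_two, Zsqrtd.re_mul, Zsqrtd.im_mul, Zsqrtd.re_add, Zsqrtd.im_add] at h1 h2
  apply no_two_mod4 (a1 : ZMod 4) (a2 : ZMod 4) (b1 : ZMod 4) (b2 : ZMod 4)
  have h4 : (4 : ZMod 4) = 0 := by decide
  constructor
  · have h3 : a1 ^ 2 - a2 ^ 2 + b1 ^ 2 - b2 ^ 2 =
        2 + 4 * (2 * k ^ 2 + 2 * k - (2 * k + 1) * y - (2 * k + 1 - y) * y) := by
      linarith
    have h5 := congrArg (Int.cast : ℤ → ZMod 4) h3
    push_cast at h5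
    rw [h5, h4]
    ring
  · have h3 : 2 * (a1 * a2 + b1 * b2) =
        2 + 4 * (2 * k ^ 2 + 2 * k - (2 * k + 1) * y + (2 * k + 1 - y) * y) := by
      linarith
    have h5 := congrArg (Int.cast : ℤ → ZMod 4) h3
    push_cast at h5
    rw [h5, h4]
    ring

/-- `2 + 2 i` as an element of `R`. -/
noncomputable def bad : R := algebraMap GaussianInt[X] R (C (⟨2, 2⟩ : GaussianInt))

theorem bad_sumSq : IsSumSq bad := by
  have h : bad = 1 * 1 + (1 * 1 + (algebraMap GaussianInt[X] R (C (⟨1, 1⟩ : GaussianInt)) *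
      algebraMap GaussianInt[X] R (C (⟨1, 1⟩ : GaussianInt)) + 0)) := by
    have h1 : (⟨2, 2⟩ : GaussianInt) = 1 * 1 + (1 * 1 + (⟨1, 1⟩ * ⟨1, 1⟩ + 0)) := by decide
    rw [bad, h1]
    simp only [map_add, map_mul, map_one, map_zero]
  rw [h]
  exact IsSumSq.sq_add 1 (IsSumSq.sq_add 1 (IsSumSq.sq_add _ IsSumSq.zero))

theorem bad_not_two (u v : R) : bad ≠ u ^ 2 + v ^ 2 := by
  intro h
  obtain ⟨⟨a, s⟩, ha⟩ := IsLocalization.mk'_surjective P.primeCompl u
  obtain ⟨⟨b, t⟩, hb⟩ := IsLocalization.mk'_surjective P.primeCompl v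
  simp only at ha hb
  have ha' : u * algebraMap GaussianInt[X] R s = algebraMap GaussianInt[X] R a := by
    rw [← ha]; exact IsLocalization.mk'_spec _ _ _
  have hb' : v * algebraMap GaussianInt[X] R t = algebraMap GaussianInt[X] R b := by
    rw [← hb]; exact IsLocalization.mk'_spec _ _ _
  have hinj : Function.Injective (algebraMap GaussianInt[X] R) :=
    IsLocalization.injective R P.primeCompl_le_nonZeroDivisors
  have key : ((s : GaussianInt[X]) * t) ^ 2 * C (⟨2, 2⟩ : GaussianInt) =
      (a * t) ^ 2 + (b * s) ^ 2 := by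
    apply hinj
    simp only [map_add, map_mul, map_pow]
    rw [← ha', ← hb']
    have : algebraMap GaussianInt[X] R (C (⟨2, 2⟩ : GaussianInt)) = u ^ 2 + v ^ 2 := h
    rw [this]
    ring
  have key0 := congrArg (Polynomial.eval 0) key
  simp only [eval_mul, eval_add, eval_pow, eval_C] at key0
  refine no_two_gauss _ _ _ ?_ key0
  rw [map_mul]
  have hs := s.2
  have ht := t.2
  rw [Ideal.mem_primeCompl_iff, mem_P] at hs ht
  exact mul_ne_zero hs ht

/-- A two-dimensional regular local ring containing a square root of `-1` and a sum of squares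
that is not a sum of two squares refutes the statement. -/
theorem refute (R : Type) [CommRing R] [IsDomain R] [IsLocalRing R] [IsNoetherianRing R]
    (hdim : ringKrullDim R = 2)
    (hmax : ∃ a b : R, IsLocalRing.maximalIdeal R = Ideal.span {a, b})
    (j : R) (hj : j * j = -1) (h2 : (2 : R) ≠ 0) (bad : R) (hbad : IsSumSq bad)
    (hno : ∀ u v : R, bad ≠ u ^ 2 + v ^ 2) :
    ¬ (∀ (R : Type) [CommRing R] [IsDomain R] [IsLocalRing R] [IsNoetherianRing R],
      ringKrullDim R = 2 →
      (∃ a b : R, IsLocalRing.maximalIdeal R = Ideal.span {a, b}) →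
      ∀ (K : Type) [Field K] [Algebra R K] [IsFractionRing R K],
      ∀ n : ℕ,
        ((∀ x : R, IsSumSq x → ∃ f : Fin n → R, x = ∑ i, f i ^ 2) ↔
          (∀ x : K, IsSumSq x → ∃ f : Fin n → K, x = ∑ i, f i ^ 2))) := by
  intro H
  have h := (H R hdim hmax (FractionRing R) 2).2 ?_
  · obtain ⟨f, hf⟩ := h bad hbad
    rw [Fin.sum_univ_two] at hf
    exact hno _ _ hf
  · intro x _
    have hI : (algebraMap R (FractionRing R) j) * (algebraMap R (FractionRing R) j) = -1 := by
      rw [← map_mul, hj, map_neg, map_one]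
    have h2' : (2 : FractionRing R) ≠ 0 := by
      intro h0
      apply h2
      apply IsFractionRing.injective R (FractionRing R)
      rw [map_ofNat, map_zero]
      exact h0
    refine ⟨![(x + 1) / 2, (algebraMap R (FractionRing R) j) * (x - 1) / 2], ?_⟩
    rw [Fin.sum_univ_two]
    simp only [Matrix.cons_val_zero, Matrix.cons_val_one]
    have h5 : ((algebraMap R (FractionRing R) j) * (x - 1) / 2) ^ 2 = -((x - 1) / 2) ^ 2 := by
      rw [mul_div_assoc, mul_pow, pow_two (algebraMap R (FractionRing R) j), hI]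
      ring
    rw [h5]
    field_simp
    ring

theorem two_ne : (2 : R) ≠ 0 := by
  have hinj : Function.Injective (algebraMap GaussianInt[X] R) :=
    IsLocalization.injective R P.primeCompl_le_nonZeroDivisors
  intro h0
  have h3 : algebraMap GaussianInt[X] R (C (2 : GaussianInt)) =
      algebraMap GaussianInt[X] R 0 := by
    rw [map_zero]
    have : C (2 : GaussianInt) = (2 : GaussianInt[X]) := rfl
    rw [this, map_ofNat]
    exact h0
  have h4 := hinj h3
  rw [Polynomial.C_eq_zero] at h4
  exact absurd h4 (by decide)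

theorem sq_i : algebraMap GaussianInt[X] R (C (⟨0, 1⟩ : GaussianInt)) *
    algebraMap GaussianInt[X] R (C (⟨0, 1⟩ : GaussianInt)) = -1 := by
  rw [← map_mul, ← map_mul]
  have : (⟨0, 1⟩ : GaussianInt) * ⟨0, 1⟩ = -1 := by decide
  rw [this]
  simp only [map_neg, map_one]

/-- The negation of the preceding statement: For every 2-dimensional regular local ring R with fraction field K, and every n, every sum of squares in R is a sum of n squares iff the same holds in K; that is, the Pythagoras numbers of R and K agree. -/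
theorem result :
    ¬ (∀ (R : Type) [CommRing R] [IsDomain R] [IsLocalRing R] [IsNoetherianRing R],
      ringKrullDim R = 2 →
      (∃ a b : R, IsLocalRing.maximalIdeal R = Ideal.span {a, b}) →
      ∀ (K : Type) [Field K] [Algebra R K] [IsFractionRing R K],
      ∀ n : ℕ,
        ((∀ x : R, IsSumSq x → ∃ f : Fin n → R, x = ∑ i, f i ^ 2) ↔
          (∀ x : K, IsSumSq x → ∃ f : Fin n → K, x = ∑ i, f i ^ 2))) := by
  have i1 : IsDomain R := IsLocalization.isDomain_localization P.primeCompl_le_nonZeroDivisors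
  have i2 : IsNoetherianRing R := IsLocalization.isNoetherianRing P.primeCompl R inferInstance
  exact refute R dim_R ⟨_, _, max_R⟩ _ sq_i two_ne bad bad_sumSq bad_not_two

end Pool.Agent.S01012
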