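import Pool.Statements.S01068
import Pool.Agent.H242R3.HomeoOps

set_option autoImplicit false
open Pool Pool.MP_2d9567_al

namespace Pool.Agent.S01068

/-- The negation of the preceding statement: If an ℓ-group G has the property that every group operation compatible with its lattice gives an ℓ-group isomorphic to G via a lattice automorphism, then G is abelian. -/
theorem result :
    ¬ (∀ (L : Type) [Lattice L] (G : Group L),
      (∀ a b c : L, a ≤ b → G.mul c a ≤ G.mul c b ∧ G.mul a c ≤ G.mul b c) →
      (∀ H : Group L,
        (∀ a b c : L, a ≤ b → H.mul c a ≤ H.mul c b ∧ H.mul a c ≤ H.mul b c) →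
        ∃ φ : L ≃o L, ∀ x y : L, φ (G.mul x y) = H.mul (φ x) (φ y)) →
      ∀ x y : L, G.mul x y = G.mul y x) := by
  intro hmain
  have h := hmain Pool.Agent.H242R3.HomeoLattice.E
    Pool.Agent.H242R3.HomeoLattice.E.instGroup
    (fun a b c hab => ⟨Pool.Agent.H242R3.HomeoLattice.E.mul_le_left hab c,
      Pool.Agent.H242R3.HomeoLattice.E.mul_le_right hab c⟩)
    (fun H hH => Pool.Agent.H242R3.HomeoLattice.E.connected H hH)
  exact Pool.Agent.H242R3.HomeoLattice.E.noncomm h

end Pool.Agent.S01068
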