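import Pool.Statements.S01144
import Pool.Agent.H242R3.LinFinal

set_option autoImplicit false
open Pool Pool.MP_34520e_al

namespace Pool.Agent.S01144

/-- The negation of the preceding statement: Every lattice that embeds as a sublattice of the equivalence relations on some set, with any two of the images commuting under relational composition, has an order dual that also embeds this way. -/
theorem result :
    ¬ (∀ (L : Type) [Lattice L],
      (∃ (X : Type) (f : LatticeHom L (Setoid X)), Function.Injective f ∧
        ∀ (a b : L) (x y : X),
          (∃ z, (f a).r x z ∧ (f b).r z y) ↔ (∃ z, (f b).r x z ∧ (f a).r z y)) →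
      (∃ (X : Type) (f : LatticeHom Lᵒᵈ (Setoid X)), Function.Injective f ∧
        ∀ (a b : Lᵒᵈ) (x y : X),
          (∃ z, (f a).r x z ∧ (f b).r z y) ↔ (∃ z, (f b).r x z ∧ (f a).r z y))) := by
  intro h
  exact Pool.Agent.H242R3.Lin.L_dual_not_linear
    (h Pool.Agent.H242R3.Lin.L Pool.Agent.H242R3.Lin.L_linear)

end Pool.Agent.S01144
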