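import Pool.Statements.S01146
import Pool.Agent.H42R3.Comm

set_option autoImplicit false
open Pointwise
open Pool Pool.MP_34521c_al

namespace Pool.Agent.S01146

/-- The negation of the preceding statement: For every group G partitioned into n nonempty cells that pairwise commute as sets, some cell A has the property that at most n translates of A·A⁻¹ cover G. -/
theorem result :
    ¬ (∀ (G : Type) [Group G] (n : ℕ) (A : Fin n → Set G),
      (∀ i, (A i).Nonempty) →
      Pairwise (fun i j => Disjoint (A i) (A j)) →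
      (⋃ i, A i) = Set.univ →
      (∀ i j, A i * A j = A j * A i) →
      ∃ i : Fin n, ∃ F : Finset G, F.card ≤ n ∧
        (F : Set G) * (A i * (A i)⁻¹) = Set.univ) := by
  intro H
  obtain ⟨c, hc, hprod⟩ := Pool.Agent.H42R3.TwoSided.exists_good2
  have huniv : ∀ i j : Fin 11, ({x | c x = i} : Set (FreeGroup ℕ)) * {x | c x = j} = Set.univ := by
    intro i j
    rw [Set.eq_univ_iff_forall]
    intro g
    obtain ⟨a, ha, hb⟩ := hprod i j g
    exact Set.mem_mul.2 ⟨a, ha, a⁻¹ * g, hb, by group⟩
  obtain ⟨i, F, hF, h⟩ := H (FreeGroup ℕ) 11 (fun i => {x | c x = i})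
    (fun i => (hprod i i 1).imp fun a ha => ha.1)
    (by
      intro i j hij
      rw [Set.disjoint_left]
      intro x hx hy
      exact hij (hx.symm.trans hy))
    (by
      rw [Set.eq_univ_iff_forall]
      intro x
      exact Set.mem_iUnion.2 ⟨c x, rfl⟩)
    (fun i j => by rw [huniv, huniv])
  classical
  obtain ⟨t, ht⟩ := hc i {1} (F.image (fun f => f⁻¹)) (by simp) (Finset.card_image_le.trans hF)
  have h1 : t⁻¹ ∈ (F : Set (FreeGroup ℕ)) * ({x | c x = i} * ({x | c x = i} : Set (FreeGroup ℕ))⁻¹) := by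
    rw [h]; exact Set.mem_univ _
  obtain ⟨f, hf, y, hy, hfy⟩ := Set.mem_mul.1 h1
  obtain ⟨a, ha, b, hb, hab⟩ := Set.mem_mul.1 hy
  rw [Set.mem_inv] at hb
  -- `t⁻¹ = f * (a * b)`, with `c a = i` and `c b⁻¹ = i`
  have h2 := ht (f * a) 1 (Finset.mem_singleton_self 1) f⁻¹
    (Finset.mem_image_of_mem _ (Finset.mem_coe.1 hf))
  apply h2
  refine ⟨?_, ?_⟩
  · have : (1 : FreeGroup ℕ) * (t * (f * a)) = b⁻¹ := by
      have h3 : t = (f * y)⁻¹ := by rw [hfy, inv_inv]
      rw [h3, ← hab]
      group
    rw [this]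
    exact hb
  · have : f⁻¹ * (f * a) = a := by group
    rw [this]
    exact ha

end Pool.Agent.S01146
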