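import Pool.Statements.S01154
import Pool.Agent.H215R3.LC.Main

set_option autoImplicit false
open Pool Pool.MP_34c70a_al

namespace Pool.Agent.S01154

/-- The negation of the preceding statement: For a Noetherian local ring R of prime characteristic p and a nonzerodivisor f in its maximal ideal, if Frobenius acts injectively on all local cohomology of R/(f), then Frobenius acts injectively on all local cohomology of R. -/
theorem result :
    ¬ (∀ (p : ℕ), p.Prime →
    ∀ (R S : Type) [CommRing R] [IsLocalRing R] [IsNoetherianRing R] [CharP R p]
      [CommRing S] [IsLocalRing S] [IsNoetherianRing S] [CharP S p]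
      (f : R) (π : R →+* S),
      f ∈ IsLocalRing.maximalIdeal R → IsSMulRegular R f →
      Function.Surjective π → RingHom.ker π = Ideal.span {f} →
      (∀ (FS : S →+* S), (∀ x : S, FS x = x ^ p) →
        ∀ φ : ModuleCat.of S S ⟶ (ModuleCat.restrictScalars FS).obj (ModuleCat.of S S),
          (∀ x : S, φ.hom x = FS x) →
          ∀ i : ℕ, Function.Injective
            ((localCohomology (IsLocalRing.maximalIdeal S) i).map φ).hom) →
      (∀ (FR : R →+* R), (∀ x : R, FR x = x ^ p) →
        ∀ φ : ModuleCat.of R R ⟶ (ModuleCat.restrictScalars FR).obj (ModuleCat.of R R),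
          (∀ x : R, φ.hom x = FR x) →
          ∀ i : ℕ, Function.Injective
            ((localCohomology (IsLocalRing.maximalIdeal R) i).map φ).hom)) := by
  exact fun h => Pool.Agent.H215R3.LC.main h

end Pool.Agent.S01154
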