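import Pool.Statements.S01185
import Pool.Agent.H999R3.Main3

set_option autoImplicit false
open Pool Pool.MP_3720ba_al

namespace Pool.Agent.S01185

/-- For every characteristic-0 field F, there are two sets of identities, each failing in some alternative F-algebra, such that any identity true in all alternative algebras satisfying either set is true in all alternative algebras. -/
theorem result :
  ∀ (F : Type) [Field F] [CharZero F],
    ∃ S₁ S₂ : Set (FreeNonUnitalNonAssocAlgebra F ℕ),
      (∃ (A : Type) (_ : NonUnitalNonAssocRing A) (_ : Module F A)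
          (_ : IsScalarTower F A A) (_ : SMulCommClass F A A),
          (∀ x y : A, (x * x) * y = x * (x * y) ∧ (y * x) * x = y * (x * x)) ∧
          ∃ s ∈ S₁, ∃ φ : ℕ → A, FreeNonUnitalNonAssocAlgebra.lift F φ s ≠ 0) ∧
      (∃ (A : Type) (_ : NonUnitalNonAssocRing A) (_ : Module F A)
          (_ : IsScalarTower F A A) (_ : SMulCommClass F A A),
          (∀ x y : A, (x * x) * y = x * (x * y) ∧ (y * x) * x = y * (x * x)) ∧
          ∃ s ∈ S₂, ∃ φ : ℕ → A, FreeNonUnitalNonAssocAlgebra.lift F φ s ≠ 0) ∧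
      (∀ f : FreeNonUnitalNonAssocAlgebra F ℕ,
        (∀ (A : Type) [NonUnitalNonAssocRing A] [Module F A]
            [IsScalarTower F A A] [SMulCommClass F A A],
            (∀ x y : A, (x * x) * y = x * (x * y) ∧ (y * x) * x = y * (x * x)) →
            (∀ s ∈ S₁, ∀ φ : ℕ → A, FreeNonUnitalNonAssocAlgebra.lift F φ s = 0) →
            ∀ φ : ℕ → A, FreeNonUnitalNonAssocAlgebra.lift F φ f = 0) →
        (∀ (A : Type) [NonUnitalNonAssocRing A] [Module F A]
            [IsScalarTower F A A] [SMulCommClass F A A],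
            (∀ x y : A, (x * x) * y = x * (x * y) ∧ (y * x) * x = y * (x * x)) →
            (∀ s ∈ S₂, ∀ φ : ℕ → A, FreeNonUnitalNonAssocAlgebra.lift F φ s = 0) →
            ∀ φ : ℕ → A, FreeNonUnitalNonAssocAlgebra.lift F φ f = 0) →
        ∀ (A : Type) [NonUnitalNonAssocRing A] [Module F A]
            [IsScalarTower F A A] [SMulCommClass F A A],
            (∀ x y : A, (x * x) * y = x * (x * y) ∧ (y * x) * x = y * (x * x)) →
            ∀ φ : ℕ → A, FreeNonUnitalNonAssocAlgebra.lift F φ f = 0) := by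
  intro F _ _
  refine ⟨Pool.Agent.H999R3.S1 F, Pool.Agent.H999R3.S2 F, ?_, ?_, ?_⟩
  · refine ⟨Pool.Agent.H999R3.Zorn F, inferInstance, inferInstance, inferInstance, inferInstance,
      Pool.Agent.H999R3.Zorn.isAlt, _, rfl,
      fun i => if i = 0 then Pool.Agent.H999R3.Zorn.e 2 else
        if i = 1 then Pool.Agent.H999R3.Zorn.e 3 else Pool.Agent.H999R3.Zorn.e 4, ?_⟩
    rw [map_sub, map_mul, map_mul, map_mul, map_mul,
      FreeNonUnitalNonAssocAlgebra.lift_of_apply, FreeNonUnitalNonAssocAlgebra.lift_of_apply,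
      FreeNonUnitalNonAssocAlgebra.lift_of_apply]
    exact Pool.Agent.H999R3.Zorn.not_assoc
  · obtain ⟨φ, hφ⟩ := Pool.Agent.H999R3.s2_ne F
    refine ⟨Matrix (Fin 3) (Fin 3) F, inferInstance, inferInstance, inferInstance, inferInstance,
      Pool.Agent.H999R3.isAlt_of_assoc, _,
      ⟨_, _, Pool.Agent.H999R3.uc_s0 F, Pool.Agent.H999R3.uc_s0 F, rfl⟩, φ, hφ⟩
  · intro f H1 H2
    exact Pool.Agent.H999R3.final F f H1 H2

end Pool.Agent.S01185
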