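import Pool.Statements.S01235
import Pool.Agent.H918R3.Mathieu4

set_option autoImplicit false
open Polynomial
open Pool Pool.MP_3bbc5b_al

namespace Pool.Agent.S01235

open Pool.Agent.H918R3

theorem cast_ne (α : ℝ) (hα : -1 < α) (n : ℕ) : ((n : ℂ) + 1 + (α : ℂ)) ≠ 0 := by
  intro h
  have h1 : ((((n : ℝ) + 1 + α : ℝ)) : ℂ) = 0 := by push_cast; exact h
  rw [Complex.ofReal_eq_zero] at h1
  have : (0 : ℝ) ≤ (n : ℝ) := Nat.cast_nonneg n
  linarith

/-- For the Hermite, Laguerre and Jacobi operators (α, β > −1), the polynomials lying in the image of ℂ[t] form a Mathieu subspace: if every power a^m (m ≥ 1) is in it, then b·a^m is in it for all large m, for every polynomial b. -/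
theorem result :
    (∀ a b : Polynomial ℂ,
      (∀ m : ℕ, 1 ≤ m → ∃ f : Polynomial ℂ, a ^ m = derivative f - 2 * X * f) →
      ∃ N : ℕ, ∀ m : ℕ, N ≤ m → ∃ f : Polynomial ℂ, b * a ^ m = derivative f - 2 * X * f) ∧
    (∀ α : ℝ, -1 < α → ∀ a b : Polynomial ℂ,
      (∀ m : ℕ, 1 ≤ m → ∃ f : Polynomial ℂ,
        X * a ^ m = X * derivative f + (C (α : ℂ) - X) * f) →
      ∃ N : ℕ, ∀ m : ℕ, N ≤ m → ∃ f : Polynomial ℂ,
        X * (b * a ^ m) = X * derivative f + (C (α : ℂ) - X) * f) ∧
    (∀ α β : ℝ, -1 < α → -1 < β → ∀ a b : Polynomial ℂ,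
      (∀ m : ℕ, 1 ≤ m → ∃ f : Polynomial ℂ,
        (1 - X ^ 2) * a ^ m = (1 - X ^ 2) * derivative f - C (α : ℂ) * (1 + X) * f
          + C (β : ℂ) * (1 - X) * f) →
      ∃ N : ℕ, ∀ m : ℕ, N ≤ m → ∃ f : Polynomial ℂ,
        (1 - X ^ 2) * (b * a ^ m) = (1 - X ^ 2) * derivative f - C (α : ℂ) * (1 + X) * f
          + C (β : ℂ) * (1 - X) * f) := by
  have hC2 : (C (2 : ℂ) : ℂ[X]) = 2 := by
    rw [show (2 : ℂ) = 1 + 1 by norm_num, C_add, C_1]; norm_num
  refine ⟨?_, ?_, ?_⟩
  · -- Hermite
    intro a b ha
    have ha0 : a = 0 := by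
      refine eq_zero_of_powers_mem (1 : ℂ[X]) (-2 * X) a ?_ ?_ ?_ ?_
      · intro ρ hρ; simp at hρ
      · intro ρ hρ; simp at hρ
      · apply one_ne_Dop
        · simp
        · have : (-2 * X : ℂ[X]) = C (-2) * X := by rw [C_neg, hC2]
          rw [this]; exact (natDegree_C_mul_le _ _).trans natDegree_X_le
        · intro n
          have : (-2 * X : ℂ[X]) = C (-2) * X := by rw [C_neg, hC2]
          rw [this, coeff_C_mul, coeff_X_one, coeff_one]
          norm_num
      · intro m hm
        obtain ⟨g, hg⟩ := ha m hm
        refine ⟨g, ?_⟩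
        rw [hg, Dop_apply]; ring
    refine ⟨1, fun m hm => ⟨0, ?_⟩⟩
    rw [ha0, zero_pow (by omega)]; simp
  · -- Laguerre
    intro α hα a b ha
    by_cases hα0 : α = 0
    · refine ⟨0, fun m _ => ?_⟩
      obtain ⟨F, hF⟩ := surj_exp (b * a ^ m)
      refine ⟨F, ?_⟩
      rw [hF, hα0, Complex.ofReal_zero, C_0]
      ring
    have hα0' : (α : ℂ) ≠ 0 := by exact_mod_cast hα0
    have ha0 : a = 0 := by
      refine eq_zero_of_powers_mem (X : ℂ[X]) (C (1 + (α : ℂ)) - X) a ?_ ?_ ?_ ?_
      · intro ρ hρ; simp
      · intro ρ hρ k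
        have hρ0 : ρ = 0 := by simpa using hρ
        rw [hρ0]
        have := cast_ne α hα k
        simp only [eval_sub, eval_C, eval_X, derivative_X, eval_one, mul_one]
        intro h; apply this; rw [← h]; ring
      · apply one_ne_Dop
        · exact natDegree_X_le.trans (by norm_num)
        · refine (natDegree_sub_le _ _).trans ?_
          rw [natDegree_C]; simp
        · intro n
          rw [coeff_X, coeff_sub, coeff_C, coeff_X_one]
          norm_num
      · intro m hm
        obtain ⟨F, hF⟩ := ha m hm
        have hF0 : F.eval 0 = 0 := by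
          have := congrArg (fun p => p.eval 0) hF
          simp only [eval_mul, eval_X, zero_mul, eval_add, eval_sub, eval_C, sub_zero,
            zero_add] at this
          exact (mul_eq_zero.mp this.symm).resolve_left hα0'
        obtain ⟨g, hg⟩ : X ∣ F := by
          rw [X_dvd_iff, coeff_zero_eq_eval_zero]; exact hF0
        refine ⟨g, ?_⟩
        rw [hg] at hF
        have : (X : ℂ[X]) * a ^ m = X * Dop X (C (1 + (α : ℂ)) - X) g := by
          rw [hF, Dop_apply, derivative_mul, derivative_X, C_add, C_1]
          ring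
        exact (mul_left_cancel₀ X_ne_zero this).symm
    refine ⟨1, fun m hm => ⟨0, ?_⟩⟩
    rw [ha0, zero_pow (by omega)]; simp
  · -- Jacobi
    intro α β hα hβ a b ha
    by_cases hα0 : α = 0
    · refine ⟨0, fun m _ => ?_⟩
      obtain ⟨g, hg⟩ := surj_add (β : ℂ) (cast_ne β hβ) (b * a ^ m)
      refine ⟨(1 + X) * g, ?_⟩
      have e : derivative ((1 + X) * g : ℂ[X]) = g + (1 + X) * derivative g := by
        rw [derivative_mul]; simp
      rw [e, hg, hα0, Complex.ofReal_zero, C_0, C_add, C_1]
      ring
    by_cases hβ0 : β = 0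
    · refine ⟨0, fun m _ => ?_⟩
      obtain ⟨g, hg⟩ := surj_sub (α : ℂ) (cast_ne α hα) (b * a ^ m)
      refine ⟨(1 - X) * g, ?_⟩
      have e : derivative ((1 - X) * g : ℂ[X]) = -g + (1 - X) * derivative g := by
        rw [derivative_mul]; simp
      rw [e, hg, hβ0, Complex.ofReal_zero, C_0, C_add, C_1]
      ring
    have hα0' : (α : ℂ) ≠ 0 := by exact_mod_cast hα0
    have hβ0' : (β : ℂ) ≠ 0 := by exact_mod_cast hβ0
    have ha0 : a = 0 := by
      refine eq_zero_of_powers_mem (1 - X ^ 2 : ℂ[X])
        (C (-(2 + (α : ℂ) + β)) * X + C ((β : ℂ) - α)) a ?_ ?_ ?_ ?_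
      · intro ρ hρ
        simp only [eval_sub, eval_one, eval_pow, eval_X] at hρ
        simp only [derivative_sub, derivative_one, derivative_X_pow, eval_sub, eval_zero,
          eval_mul, eval_C, eval_pow, eval_X]
        intro h
        have : ρ = 0 := by
          simpa using h
        rw [this] at hρ; norm_num at hρ
      · intro ρ hρ k
        simp only [eval_sub, eval_one, eval_pow, eval_X] at hρ
        have h2 : (1 - ρ) * (1 + ρ) = 0 := by linear_combination hρ
        rcases mul_eq_zero.mp h2 with h3 | h3
        · have hρ1 : ρ = 1 := by linear_combination -h3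
          subst hρ1
          have := cast_ne α hα k
          simp only [derivative_sub, derivative_one, derivative_X_pow, eval_sub, eval_zero,
            eval_mul, eval_C, eval_pow, eval_X, eval_add, one_pow]
          intro h
          apply this
          push_cast at h
          linear_combination (-1/2 : ℂ) * h
        · have hρ1 : ρ = -1 := by linear_combination h3
          subst hρ1
          have := cast_ne β hβ k
          simp only [derivative_sub, derivative_one, derivative_X_pow, eval_sub, eval_zero,
            eval_mul, eval_C, eval_pow, eval_X, eval_add]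
          intro h
          apply this
          push_cast at h
          linear_combination (1/2 : ℂ) * h
      · apply one_ne_Dop
        · refine (natDegree_sub_le _ _).trans ?_
          simp
        · refine (natDegree_add_le _ _).trans ?_
          rw [natDegree_C]
          simpa using (natDegree_C_mul_le (-(2 + (α : ℂ) + β)) (X : ℂ[X])).trans natDegree_X_le
        · intro n
          have e1 : (1 - X ^ 2 : ℂ[X]).coeff 2 = -1 := by
            rw [coeff_sub, coeff_X_pow, coeff_one]; norm_num
          have e2 : (C (-(2 + (α : ℂ) + β)) * X + C ((β : ℂ) - α) : ℂ[X]).coeff 1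
              = -(2 + (α : ℂ) + β) := by
            rw [coeff_add, coeff_C_mul, coeff_X_one, coeff_C]; norm_num
          rw [e1, e2]
          intro h
          have h1 : ((((n : ℝ) + (2 + α + β) : ℝ)) : ℂ) = 0 := by
            push_cast
            linear_combination -h
          rw [Complex.ofReal_eq_zero] at h1
          have : (0 : ℝ) ≤ (n : ℝ) := Nat.cast_nonneg n
          linarith
      · intro m hm
        obtain ⟨F, hF⟩ := ha m hm
        have hF1 : F.eval 1 = 0 := by
          have := congrArg (fun p => p.eval 1) hF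
          simp only [eval_mul, eval_X, eval_add, eval_sub, eval_C, eval_one, eval_pow,
            one_pow, sub_self, zero_mul, mul_zero, add_zero, zero_sub] at this
          have h2 : (α : ℂ) * (1 + 1) * F.eval 1 = 0 := by linear_combination this
          rcases mul_eq_zero.mp h2 with h3 | h3
          · exfalso
            rcases mul_eq_zero.mp h3 with h4 | h4
            · exact hα0' h4
            · norm_num at h4
          · exact h3
        have hF2 : F.eval (-1) = 0 := by
          have := congrArg (fun p => p.eval (-1)) hF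
          simp only [eval_mul, eval_X, eval_add, eval_sub, eval_C, eval_one, eval_pow] at this
          have h2 : (β : ℂ) * 2 * F.eval (-1) = 0 := by linear_combination -this
          rcases mul_eq_zero.mp h2 with h3 | h3
          · exfalso
            rcases mul_eq_zero.mp h3 with h4 | h4
            · exact hβ0' h4
            · norm_num at h4
          · exact h3
        obtain ⟨g1, hg1⟩ := dvd_iff_isRoot.mpr hF1
        have hg1r : g1.eval (-1) = 0 := by
          rw [hg1] at hF2
          simp only [eval_mul, eval_sub, eval_X, eval_C] at hF2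
          rcases mul_eq_zero.mp hF2 with h3 | h3
          · norm_num at h3
          · exact h3
        obtain ⟨g2, hg2⟩ := dvd_iff_isRoot.mpr hg1r
        have hFg : F = (1 - X ^ 2) * (-g2) := by
          rw [hg1, hg2, C_neg, C_1]; ring
        refine ⟨-g2, ?_⟩
        have hne : (1 - X ^ 2 : ℂ[X]) ≠ 0 := by
          intro h
          have := congrArg (fun p => p.eval 0) h
          simp at this
        have e : derivative ((1 - X ^ 2) * (-g2) : ℂ[X]) =
            -2 * X * (-g2) + (1 - X ^ 2) * derivative (-g2) := by
          rw [derivative_mul]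
          simp only [derivative_sub, derivative_one, derivative_X_pow, zero_sub]
          have : (C ((2 : ℕ) : ℂ) : ℂ[X]) = 2 := by rw [Nat.cast_ofNat, hC2]
          rw [this]; ring
        rw [hFg, e] at hF
        have : (1 - X ^ 2 : ℂ[X]) * a ^ m = (1 - X ^ 2) *
            Dop (1 - X ^ 2) (C (-(2 + (α : ℂ) + β)) * X + C ((β : ℂ) - α)) (-g2) := by
          rw [hF, Dop_apply]
          simp only [C_neg, C_add, C_sub]
          rw [hC2]
          ring
        exact (mul_left_cancel₀ hne this).symm
    refine ⟨1, fun m hm => ⟨0, ?_⟩⟩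
    rw [ha0, zero_pow (by omega)]; simp

end Pool.Agent.S01235
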