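import Pool.Statements.S01256
import Pool.Agent.H596R3.Ex2

set_option autoImplicit false
open Pool Pool.MP_3dadb8_al

namespace Pool.Agent.S01256

/-- The class of finite soluble groups `G` such that the subgroup generated by the elements of
3-power order of `G` is an extension, by a 3-group, of a direct product of Frobenius groups of order
56 which it normalises, is a Lockett class that is not closed under finite subdirect products. -/
theorem result :
    ¬ (∀ (X : (G : Type) → [Group G] → Prop),
      (∃ (G : Type) (_ : Group G), X G) →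
      (∀ (G : Type) [Group G], X G → Finite G ∧ IsSolvable G) →
      (∀ (G H : Type) [Group G] [Group H], Nonempty (G ≃* H) → X G → X H) →
      (∀ (G : Type) [Group G] (N : Subgroup G), N.Normal → X G → X ↥N) →
      (∀ (G : Type) [Group G] [Finite G], IsSolvable G →
          ∀ (M N : Subgroup G), M.Normal → N.Normal → X ↥M → X ↥N → X ↥(M ⊔ N)) →
      (∀ (G H : Type) [Group G] [Group H] [Finite G] [Finite H],
          IsSolvable G → IsSolvable H →
          (⨆ (K : Subgroup (G × H)) (_ : K.Normal ∧ X ↥K), K) =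
            (⨆ (A : Subgroup G) (_ : A.Normal ∧ X ↥A), A).prod
              (⨆ (B : Subgroup H) (_ : B.Normal ∧ X ↥B), B)) →
      ∀ (G : Type) [Group G] [Finite G], IsSolvable G →
        ∀ (H₁ H₂ : Type) [Group H₁] [Group H₂] (f₁ : G →* H₁) (f₂ : G →* H₂),
          Function.Surjective f₁ → Function.Surjective f₂ →
          f₁.ker ⊓ f₂.ker = ⊥ → X H₁ → X H₂ → X G) := by
  intro h
  obtain ⟨G, A, iG, iA, fG, hsol, f₁, f₂, s₁, s₂, hk, hA, hG⟩ :=
    Pool.Agent.H596R3.Conc.main_conc
  refine hG (h @Pool.Agent.H596R3.X ⟨A, iA, hA⟩ (fun K _ hK => ⟨hK.1, hK.2.1⟩)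
    Pool.Agent.H596R3.X_iso Pool.Agent.H596R3.X_normal Pool.Agent.H596R3.X_sup
    Pool.Agent.H596R3.X_rad G hsol A A f₁ f₂ s₁ s₂ hk hA hA)

end Pool.Agent.S01256
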