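import Pool.Statements.S01303
import Pool.Agent.H753R3.LM.T1
import Pool.Agent.H218R3.LM_T5
import Pool.Agent.H753R3.LM.Asm4
import Pool.Agent.H885R3.LM_T0
import Pool.Agent.H421R3.LM_T2
import Pool.Agent.H924R3.LM.T3
import Pool.Agent.H943R3.LM_T4
import Pool.Agent.H428R3.LM_T6

set_option autoImplicit false
open Pool Pool.MP_417230_al

namespace Pool.Agent.S01303

/-- Every complete Hausdorff abelian topological group that is locally minimal has a compact subgroup K such that the quotient G/K is metrizable. -/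
theorem result :
    ∀ (G : Type) [AddCommGroup G] [UniformSpace G] [IsUniformAddGroup G] [T2Space G]
      [CompleteSpace G],
      (∃ V ∈ nhds (0 : G), ∀ σ : TopologicalSpace G,
          @IsTopologicalAddGroup G σ _ → @T2Space G σ →
          (UniformSpace.toTopologicalSpace : TopologicalSpace G) ≤ σ →
          V ∈ @nhds G σ 0 → σ = (UniformSpace.toTopologicalSpace : TopologicalSpace G)) →
      ∃ K : AddSubgroup G, IsCompact (K : Set G) ∧ TopologicalSpace.MetrizableSpace (G ⧸ K) := by
  intro G _ _ _ _ _ hmin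
  exact Pool.Agent.H753R3.LM.main_thm Pool.Agent.H885R3.LMT0.taskT0
    Pool.Agent.H421R3.LMT2.taskT2 Pool.Agent.H753R3.LM.taskT3
    (Pool.Agent.H943R3.LM.taskT4 Pool.Agent.H753R3.LM.taskT1)
    Pool.Agent.H218R3.LM.taskT5 Pool.Agent.H428R3.LMT6.taskT6 G hmin

end Pool.Agent.S01303
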