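-- Frozen statement S01333 (positive answer).  The main construction (leading forms, Lyndon factorisation,
-- one step of the construction, freeness of the limit) is the starting repository's helper development
-- Pool/Agent/Helper993/FP, there never assembled; the passage from the growth condition of the statement to
-- normal words, the limit and the assembly are in Pool/Agent/H127R3/FPfinal, FPlimit and this file.
import Pool.Statements.S01333
import Pool.Agent.H127R3.FPlimit

set_option autoImplicit false
open Pool Pool.MP_43f46b_al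

namespace Pool.Agent.S01333

/-- For every prime p, every finitely generated pro-p group whose numbers dim I^n/I^(n+1) (I the augmentation ideal of its completed F_p-group algebra) grow exponentially contains two elements generating a closed free pro-p subgroup of rank 2. -/
theorem result :
  ∀ (p : ℕ), p.Prime →
  ∀ (G : Type) [Group G] [TopologicalSpace G] [IsTopologicalGroup G] [CompactSpace G]
    [T2Space G] [TotallyDisconnectedSpace G],
    (∀ N : Subgroup G, N.Normal → IsOpen (N : Set G) → ∃ k : ℕ, N.index = p ^ k) →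
    (∃ s : Finset G, Dense ((Subgroup.closure (s : Set G) : Subgroup G) : Set G)) →
    (∃ r : ℝ, 1 < r ∧ ∀ᶠ n : ℕ in Filter.atTop,
      ∃ (N : Subgroup G) (hN : N.Normal), IsOpen (N : Set G) ∧
        r ^ n + ((Module.finrank (ZMod p)
          ↥((Submodule.span (ZMod p) (Set.range fun g : G ⧸ N =>
              (MonoidAlgebra.single g (1 : ZMod p) - 1 : MonoidAlgebra (ZMod p) (G ⧸ N)))) ^ (n + 1)) : ℕ) : ℝ)
        ≤ ((Module.finrank (ZMod p)
          ↥((Submodule.span (ZMod p) (Set.range fun g : G ⧸ N =>
              (MonoidAlgebra.single g (1 : ZMod p) - 1 : MonoidAlgebra (ZMod p) (G ⧸ N)))) ^ n) : ℕ) : ℝ)) →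
    ∃ x y : G, ∀ (P : Type) [Group P] [Finite P], IsPGroup p P → ∀ a b : P,
      ∃ f : ↥((Subgroup.closure ({x, y} : Set G)).topologicalClosure) →* P,
        IsOpen ((f.ker : Set ↥((Subgroup.closure ({x, y} : Set G)).topologicalClosure))) ∧
        (∀ h : ↥((Subgroup.closure ({x, y} : Set G)).topologicalClosure), (h : G) = x → f h = a) ∧
        (∀ h : ↥((Subgroup.closure ({x, y} : Set G)).topologicalClosure), (h : G) = y → f h = b) := by
  intro p hp G _ _ _ _ _ _ hG ⟨s, hs⟩ ⟨r, hr, hgrow⟩
  classical
  haveI : Fact p.Prime := ⟨hp⟩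
  obtain ⟨d, g, hg⟩ : ∃ (d : ℕ) (g : Fin d → G), Set.range g = (s : Set G) := by
    refine ⟨s.card, fun i => (s.equivFin.symm i : G), ?_⟩
    ext a
    constructor
    · rintro ⟨i, rfl⟩
      exact (s.equivFin.symm i).2
    · intro ha
      exact ⟨s.equivFin ⟨a, ha⟩, by simp⟩
  have hgd : Dense ((Subgroup.closure (Set.range g) : Subgroup G) : Set G) := by
    rw [hg]; exact hs
  obtain ⟨n0, hn0⟩ := Filter.eventually_atTop.1 hgrow
  have hgr : ∀ n : ℕ, 1 ≤ n → r ^ n ≤ (FPG.an' (FPG.Ng p G g) n : ℝ) := by
    refine H127R3.FPfinal.growth_all _ (FPG.lang_factor p G g) r hr n0 ?_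
    intro n hn hn1
    obtain ⟨N, hN, ho, h⟩ := hn0 n hn
    exact H127R3.FPfinal.lang_growth_of p G g hgd N hN ho n hn1 (r ^ n) h
  obtain ⟨x, y, hxy⟩ := H127R3.FPfinal.main p G (fun N ho hN => hG N hN ho) g hgd r hr hgr
  refine ⟨x, y, ?_⟩
  intro P _ _ hP a b
  haveI : Fintype P := Fintype.ofFinite P
  obtain ⟨k, hk⟩ := IsPGroup.iff_card.1 hP
  exact FPG.final p G x y hxy P ⟨k, by rw [← Nat.card_eq_fintype_card, hk]⟩ a b

end Pool.Agent.S01333
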