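import Pool.Statements.S01362
import Pool.Agent.H687R3.Final

set_option autoImplicit false
open Pool Pool.MP_4804cd_al

namespace Pool.Agent.S01362

/-- The negation of the preceding statement: In Higman's group, with four generators cyclically satisfying x_{i+1}⁻¹ x_i x_{i+1} = x_i², every finitely generated subgroup is isomorphic to a group given by finitely many generators and finitely many relators. -/
theorem result :
    ¬ (∀ K : Subgroup (PresentedGroup (Set.range (fun i : Fin 4 =>
        (FreeGroup.of (i + 1))⁻¹ * FreeGroup.of i * FreeGroup.of (i + 1) * (FreeGroup.of i ^ 2)⁻¹))),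
      K.FG →
        ∃ (n : ℕ) (rels : Finset (FreeGroup (Fin n))),
          Nonempty (PresentedGroup (rels : Set (FreeGroup (Fin n))) ≃* K)) := by
  intro h
  obtain ⟨n, rels, ⟨e⟩⟩ := h Pool.Agent.H687R3.Kh Pool.Agent.H687R3.Kh_fg
  exact Pool.Agent.H687R3.Kh_not_fp (Group.IsFinitelyPresented.equiv e)

end Pool.Agent.S01362
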