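import Pool.Statements.S01402
import Pool.Agent.H374R3.GapFinal

set_option autoImplicit false
open Pool Pool.MP_4c94d3_al

namespace Pool.Agent.S01402

/-- The negation of the preceding statement: If H is a nontrivial subgroup of G and H together with some t generates a copy of the free product H*ℕ inside G, then for every finite generating set of G, the relative growth rate of H is strictly less than the growth rate of G. -/
theorem result :
    ¬ (∀ (G : Type) [Group G] (H : Subgroup G), H ≠ ⊥ →
      (∃ f : Monoid.Coprod (↥H) (Multiplicative ℕ) →* G,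
          Function.Injective f ∧ f.comp Monoid.Coprod.inl = H.subtype) →
      ∀ S : Finset G, Subgroup.closure (S : Set G) = ⊤ →
        Filter.limsup
            (fun n : ℕ =>
              ((Set.ncard {g : G | g ∈ H ∧ ∃ l : List G, l.length ≤ n ∧
                  (∀ x ∈ l, x ∈ S ∨ x⁻¹ ∈ S) ∧ l.prod = g} : ℕ) : ℝ) ^ ((1 : ℝ) / (n : ℝ)))
            Filter.atTop
          <
        Filter.limsup
            (fun n : ℕ =>
              ((Set.ncard {g : G | ∃ l : List G, l.length ≤ n ∧
                  (∀ x ∈ l, x ∈ S ∨ x⁻¹ ∈ S) ∧ l.prod = g} : ℕ) : ℝ) ^ ((1 : ℝ) / (n : ℝ)))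
            Filter.atTop) := by
  intro h
  have h1 := h (FreeGroup Bool) Pool.Agent.H374R3.Gap.H Pool.Agent.H374R3.Gap.H_ne_bot
    ⟨Pool.Agent.H374R3.Gap.emb, Pool.Agent.H374R3.Gap.emb_injective,
      Pool.Agent.H374R3.Gap.emb_comp⟩ Pool.Agent.H374R3.Gap.S Pool.Agent.H374R3.Gap.S_closure
  exact absurd h1 (not_lt.mpr (Pool.Agent.H374R3.Gap.limsup_v.trans Pool.Agent.H374R3.Gap.limsup_u))

end Pool.Agent.S01402
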