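import Pool.Statements.S01490
-- import your own Pool.Agent.* helpers here
import Pool.Agent.H332R3.Final

set_option autoImplicit false
open Pool Pool.MP_54877a_al

namespace Pool.Agent.S01490

/-- The negation of the preceding statement: For every geodesic Gromov-hyperbolic metric space S and every group G of isometries of S containing two independent loxodromic isometries (general type), every orbit of the Frattini subgroup of G on S is bounded. -/
theorem result :
    ¬ (∀ (S : Type) [MetricSpace S],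
      (∀ x y : S, ∃ γ : ℝ → S, γ 0 = x ∧ γ (dist x y) = y ∧
        ∀ s ∈ Set.Icc (0:ℝ) (dist x y), ∀ t ∈ Set.Icc (0:ℝ) (dist x y),
          dist (γ s) (γ t) = |s - t|) →
      (∃ δ : ℝ, ∀ x y z w : S,
        min ((dist w x + dist w z - dist x z) / 2) ((dist w y + dist w z - dist y z) / 2) - δ
          ≤ (dist w x + dist w y - dist x y) / 2) →
      ∀ G : Subgroup (S ≃ᵢ S),
        (∃ g ∈ G, ∃ h ∈ G, ∃ x : S, ∃ c : ℝ, 0 < c ∧ ∃ C : ℝ,
          (∀ n : ℤ, c * |(n:ℝ)| ≤ dist x ((g ^ n) x) ∧ c * |(n:ℝ)| ≤ dist x ((h ^ n) x)) ∧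
          ∀ n m : ℤ,
            (dist x ((g ^ n) x) + dist x ((h ^ m) x) - dist ((g ^ n) x) ((h ^ m) x)) / 2 ≤ C) →
        ∀ x : S, Bornology.IsBounded
          (Set.range (fun k : frattini ↥G => ((k : ↥G) : S ≃ᵢ S) x))) := by
  intro H
  obtain ⟨S, mS, hgeo, ⟨δ, hδ⟩, G, hG, g, hg, h, hh, x, c, hc, C, h1, h2⟩ :=
    Pool.Agent.H332R3.main_group
  have hb := @H S mS hgeo ⟨δ, fun x y z w => by
    have := hδ x z y w
    rw [dist_comm z y, add_comm (dist w z) (dist w y)] at this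
    exact this⟩ G ⟨g, hg, h, hh, x, c, hc, C, h1, h2⟩ x
  have hfr : frattini (↥G) = ⊤ := by
    unfold frattini Order.radical
    rw [iInf_eq_top]
    intro M
    rw [iInf_eq_top]
    intro hM
    exact absurd hM (hG M)
  rw [Metric.isBounded_iff_subset_closedBall x] at hb
  obtain ⟨r, hr⟩ := hb
  obtain ⟨n, hn⟩ := exists_nat_gt (r / c)
  have hmem : (g ^ (n : ℤ)) x ∈ Set.range (fun k : frattini ↥G => ((k : ↥G) : S ≃ᵢ S) x) := by
    refine ⟨⟨(⟨g, hg⟩ : G) ^ (n : ℤ), by rw [hfr]; trivial⟩, ?_⟩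
    rfl
  have h3 := hr hmem
  rw [Metric.mem_closedBall, dist_comm] at h3
  have h4 := (h1 n).1
  rw [div_lt_iff₀ hc] at hn
  have h5 : |(((n : ℕ) : ℤ) : ℝ)| = (n : ℝ) := by
    rw [Int.cast_natCast]; exact abs_of_nonneg (Nat.cast_nonneg n)
  rw [h5] at h4
  nlinarith


end Pool.Agent.S01490
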