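import Pool.Statements.S01552
import Pool.Agent.H156R3.PM

set_option autoImplicit false
open scoped Pointwise
open Pool Pool.MP_5893d4_al
open Pool.Agent.H156R3

namespace Pool.Agent.S01552

/-- The negation of the preceding statement: For every group of size at most 2^c with some precompact Hausdorff group topology, and every countable family of subsets, some precompact Hausdorff group topology gives each member the same closure as the intersection of all precompact Hausdorff group topologies. -/
theorem result :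
    ¬ (∀ (G : Type) [Group G],
      Cardinal.mk G ≤ 2 ^ Cardinal.continuum →
      (∃ t : TopologicalSpace G,
        @IsTopologicalGroup G t _ ∧ @T2Space G t ∧
          ∀ U ∈ @nhds G t 1, ∃ F : Finset G, (F : Set G) * U = Set.univ) →
      ∀ ℰ : Set (Set G), ℰ.Countable →
        ∃ t : TopologicalSpace G,
          (@IsTopologicalGroup G t _ ∧ @T2Space G t ∧
            ∀ U ∈ @nhds G t 1, ∃ F : Finset G, (F : Set G) * U = Set.univ) ∧
          ∀ E ∈ ℰ,
            @closure G t E =
              ⋂₀ {C : Set G | E ⊆ C ∧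
                ∀ s : TopologicalSpace G,
                  (@IsTopologicalGroup G s _ ∧ @T2Space G s ∧
                    ∀ U ∈ @nhds G s 1, ∃ F : Finset G, (F : Set G) * U = Set.univ) →
                  @IsClosed G s C}) := by
  intro h
  have hcard : Cardinal.mk PM.G ≤ 2 ^ Cardinal.continuum := by
    haveI := PM.countable_G
    refine (Cardinal.mk_le_aleph0 (α := PM.G)).trans ?_
    exact Cardinal.aleph0_le_continuum.trans (Cardinal.cantor _).le
  have hex : ∃ t : TopologicalSpace PM.G,
      @IsTopologicalGroup PM.G t _ ∧ @T2Space PM.G t ∧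
        ∀ U ∈ @nhds PM.G t 1, ∃ F : Finset PM.G, (F : Set PM.G) * U = Set.univ := by
    obtain ⟨t, ht, -⟩ := PM.part2 1 le_rfl
    exact ⟨t, ht⟩
  obtain ⟨t, ⟨ht1, ht2, ht3⟩, ht⟩ := h PM.G hcard hex (Set.range PM.E) (Set.countable_range _)
  obtain ⟨k, hk, hkx⟩ := @PM.part1 t ht1 ht2 ht3
  apply hkx
  rw [ht (PM.E k) ⟨k, rfl⟩]
  rintro C ⟨hEC, hC⟩
  obtain ⟨s, ⟨hs1, hs2, hs3⟩, hs⟩ := PM.part2 k hk
  have hcl := hC s ⟨hs1, hs2, hs3⟩
  exact (@IsClosed.closure_subset_iff PM.G s (PM.E k) C hcl).2 hEC hs

end Pool.Agent.S01552
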