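import Pool.Statements.S01558
import Pool.Agent.H97R3.Stab
-- import your own Pool.Agent.* helpers here

set_option autoImplicit false
open Pool Pool.MP_5939ed_al

namespace Pool.Agent.S01558

/-- The negation of the preceding statement: For every n≥2, the group ⟨a,b,c ∣ b⁻¹ab=aⁿ, a⁻¹ca=cⁿ⟩ (two BS(1,n) amalgamated via x₁=t₂) is stable in permutations: almost-solutions in Sym(N), in normalized Hamming distance, are uniformly close to exact solutions. -/
theorem result :
    ¬ (∀ n : ℕ, 2 ≤ n → ∀ ε : ℝ, 0 < ε → ∃ δ : ℝ, 0 < δ ∧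
      ∀ N : ℕ, ∀ a b c : Equiv.Perm (Fin N),
        ((Finset.univ.filter (fun i => (b⁻¹ * a * b) i ≠ (a ^ n) i)).card : ℝ) / N < δ →
        ((Finset.univ.filter (fun i => (a⁻¹ * c * a) i ≠ (c ^ n) i)).card : ℝ) / N < δ →
        ∃ a' b' c' : Equiv.Perm (Fin N),
          b'⁻¹ * a' * b' = a' ^ n ∧ a'⁻¹ * c' * a' = c' ^ n ∧
          ((Finset.univ.filter (fun i => a i ≠ a' i)).card : ℝ) / N < ε ∧
          ((Finset.univ.filter (fun i => b i ≠ b' i)).card : ℝ) / N < ε ∧
          ((Finset.univ.filter (fun i => c i ≠ c' i)).card : ℝ) / N < ε) := by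
  intro H
  exact Pool.Agent.H97R3.Stab.not_stable 2 le_rfl (H 2 le_rfl)

end Pool.Agent.S01558
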