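import Pool.Statements.S01585
import Pool.Agent.H662R3.Count

set_option autoImplicit false
open Pool Pool.MP_5c00b6_al

namespace Pool.Agent.S01585

open Finset Pool.Agent.H662R3

/-- gap triple of an increasing 4-tuple -/
def gt3 (v : Q4) : ℕ × ℕ × ℕ := (x1 v, x2 v, x3 v)

theorem setForm (V : Finset Q4) (W : Finset (ℕ × ℕ × ℕ))
    (hinc : ∀ v ∈ V, Inc v) (h4 : ∀ v ∈ V, st v ∈ W) (h1 : ∀ v ∈ V, en v ∈ W)
    (h3 : ∀ v ∈ V, f3 v ∈ W) (h2 : ∀ v ∈ V, f2 v ∈ W)
    (i4 : Set.InjOn st (V : Set Q4)) (i1 : Set.InjOn en (V : Set Q4))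
    (i3 : Set.InjOn f3 (V : Set Q4)) (i2 : Set.InjOn f2 (V : Set Q4)) :
    W.card ≤ (((V.image gt3).image (fun x : ℕ × ℕ × ℕ => (x.1, x.2.1)) ∩
            (V.image gt3).image (fun x : ℕ × ℕ × ℕ => (x.2.1, x.2.2)) ∩
            (V.image gt3).image (fun x : ℕ × ℕ × ℕ => (x.1 + x.2.1, x.2.2)) ∩
            (V.image gt3).image (fun x : ℕ × ℕ × ℕ => (x.1, x.2.1 + x.2.2))).card)
          + 4 * (W.card - V.card) := by
  classical
  set I : Finset (ℕ × ℕ × ℕ) := V.image st ∩ V.image en ∩ V.image f2 ∩ V.image f3 with hI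
  have hIinc : ∀ p ∈ I, p.1 < p.2.1 ∧ p.2.1 < p.2.2 := by
    intro p hp
    rw [hI, mem_inter, mem_inter, mem_inter] at hp
    obtain ⟨v, hv, rfl⟩ := mem_image.1 hp.1.1.1
    exact ⟨(hinc v hv).1, (hinc v hv).2.1⟩
  have hIcard : (I.image gp).card = I.card := by
    apply card_image_of_injOn
    intro p hp q hq h
    exact gp_inj (hIinc p (mem_coe.1 hp)) (hIinc q (mem_coe.1 hq)) h
  have hsub : I.image gp ⊆
      ((V.image gt3).image (fun x : ℕ × ℕ × ℕ => (x.1, x.2.1)) ∩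
            (V.image gt3).image (fun x : ℕ × ℕ × ℕ => (x.2.1, x.2.2)) ∩
            (V.image gt3).image (fun x : ℕ × ℕ × ℕ => (x.1 + x.2.1, x.2.2)) ∩
            (V.image gt3).image (fun x : ℕ × ℕ × ℕ => (x.1, x.2.1 + x.2.2))) := by
    intro z hz
    obtain ⟨p, hp, rfl⟩ := mem_image.1 hz
    rw [hI, mem_inter, mem_inter, mem_inter] at hp
    obtain ⟨⟨⟨hp1, hp2⟩, hp3⟩, hp4⟩ := hp
    rw [mem_inter, mem_inter, mem_inter]
    refine ⟨⟨⟨?_, ?_⟩, ?_⟩, ?_⟩
    · obtain ⟨v, hv, rfl⟩ := mem_image.1 hp1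
      exact mem_image.2 ⟨gt3 v, mem_image_of_mem _ hv, rfl⟩
    · obtain ⟨v, hv, rfl⟩ := mem_image.1 hp2
      exact mem_image.2 ⟨gt3 v, mem_image_of_mem _ hv, rfl⟩
    · obtain ⟨v, hv, rfl⟩ := mem_image.1 hp3
      refine mem_image.2 ⟨gt3 v, mem_image_of_mem _ hv, ?_⟩
      simp only [gt3, x1, x2, x3]
      rw [g_add (hinc v hv).1 (hinc v hv).2.1]
      rfl
    · obtain ⟨v, hv, rfl⟩ := mem_image.1 hp4
      refine mem_image.2 ⟨gt3 v, mem_image_of_mem _ hv, ?_⟩
      simp only [gt3, x1, x2, x3]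
      rw [g_add (hinc v hv).2.1 (hinc v hv).2.2]
      rfl
  have hle := card_le_card hsub
  rw [hIcard] at hle
  have c4 : (W \ V.image st).card = W.card - V.card := by
    rw [card_sdiff_of_subset, card_image_of_injOn i4]
    intro z hz
    obtain ⟨v, hv, rfl⟩ := mem_image.1 hz
    exact h4 v hv
  have c1 : (W \ V.image en).card = W.card - V.card := by
    rw [card_sdiff_of_subset, card_image_of_injOn i1]
    intro z hz
    obtain ⟨v, hv, rfl⟩ := mem_image.1 hz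
    exact h1 v hv
  have c2 : (W \ V.image f2).card = W.card - V.card := by
    rw [card_sdiff_of_subset, card_image_of_injOn i2]
    intro z hz
    obtain ⟨v, hv, rfl⟩ := mem_image.1 hz
    exact h2 v hv
  have c3 : (W \ V.image f3).card = W.card - V.card := by
    rw [card_sdiff_of_subset, card_image_of_injOn i3]
    intro z hz
    obtain ⟨v, hv, rfl⟩ := mem_image.1 hz
    exact h3 v hv
  have hcov : W ⊆ I ∪ ((W \ V.image st) ∪ ((W \ V.image en) ∪
      ((W \ V.image f2) ∪ (W \ V.image f3)))) := by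
    intro z hz
    simp only [hI, mem_union, mem_inter, mem_sdiff]
    tauto
  have hc := card_le_card hcov
  have k1 := card_union_le I ((W \ V.image st) ∪ ((W \ V.image en) ∪
      ((W \ V.image f2) ∪ (W \ V.image f3))))
  have k2 := card_union_le (W \ V.image st) ((W \ V.image en) ∪
      ((W \ V.image f2) ∪ (W \ V.image f3)))
  have k3 := card_union_le (W \ V.image en) ((W \ V.image f2) ∪ (W \ V.image f3))
  have k4 := card_union_le (W \ V.image f2) (W \ V.image f3)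
  omega

/-- For every ε>0 there is a nonempty finite set V of triples (a,b,c) of positive integers such that the pairs (a,b), (b,c), (a+b,c), (a,b+c) from V have at least (1−ε)∣V∣ elements in common. -/
theorem result :
    ∀ ε : ℝ, 0 < ε →
      ∃ V : Finset (ℕ × ℕ × ℕ),
        V.Nonempty ∧
        (∀ x ∈ V, 0 < x.1 ∧ 0 < x.2.1 ∧ 0 < x.2.2) ∧
        (1 - ε) * (V.card : ℝ) ≤
          ((V.image (fun x : ℕ × ℕ × ℕ => (x.1, x.2.1)) ∩
            V.image (fun x : ℕ × ℕ × ℕ => (x.2.1, x.2.2)) ∩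
            V.image (fun x : ℕ × ℕ × ℕ => (x.1 + x.2.1, x.2.2)) ∩
            V.image (fun x : ℕ × ℕ × ℕ => (x.1, x.2.1 + x.2.2))).card : ℝ) := by
  classical
  intro ε hε
  -- reduce to η ≤ 1
  set η : ℝ := min ε 1 with hη
  have hη0 : 0 < η := lt_min hε one_pos
  have hη1 : η ≤ 1 := min_le_right _ _
  have hηε : η ≤ ε := min_le_left _ _
  set δ : ℝ := η / 4 with hδ
  have hδ0 : 0 < δ := by positivity
  obtain ⟨K0, hK0⟩ := exists_nat_ge (8 / δ)
  set K : ℕ := K0 + 2 with hK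
  obtain ⟨V, W, hne, hinc, h4, h1, h3, h2, i4, i1, i3, i2, hcard⟩ :=
    Pool.Agent.H662R3.core K (by omega)
  have hW : (W.card : ℝ) ≤ (1 + δ) * V.card := by
    have hc : ((K - 1 : ℕ) : ℝ) ^ 2 * W.card ≤ ((K + 1 : ℕ) : ℝ) ^ 2 * V.card := by
      exact_mod_cast hcard
    have e1 : ((K - 1 : ℕ) : ℝ) = (K0 : ℝ) + 1 := by
      rw [hK]; push_cast; simp
    have e2 : ((K + 1 : ℕ) : ℝ) = (K0 : ℝ) + 3 := by
      rw [hK]; push_cast; ring
    rw [e1, e2] at hc
    have hK0' : 8 ≤ δ * K0 := by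
      rw [div_le_iff₀ hδ0] at hK0
      linarith
    have hK00 : (0 : ℝ) ≤ K0 := Nat.cast_nonneg _
    have hkey : ((K0 : ℝ) + 3) ^ 2 ≤ (1 + δ) * ((K0 : ℝ) + 1) ^ 2 := by
      nlinarith [mul_nonneg hδ0.le hK00, mul_le_mul_of_nonneg_right hK0' hK00]
    have hV : (0 : ℝ) ≤ V.card := Nat.cast_nonneg _
    have h5 : ((K0 : ℝ) + 1) ^ 2 * W.card ≤ ((K0 : ℝ) + 1) ^ 2 * ((1 + δ) * V.card) := by
      calc ((K0 : ℝ) + 1) ^ 2 * W.card ≤ ((K0 : ℝ) + 3) ^ 2 * V.card := hc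
        _ ≤ (1 + δ) * ((K0 : ℝ) + 1) ^ 2 * V.card := mul_le_mul_of_nonneg_right hkey hV
        _ = _ := by ring
    exact le_of_mul_le_mul_left h5 (by positivity)
  have hVW : V.card ≤ W.card := by
    rw [← card_image_of_injOn i1]
    apply card_le_card
    intro z hz
    obtain ⟨v, hv, rfl⟩ := mem_image.1 hz
    exact h1 v hv
  have key := setForm V W hinc h4 h1 h3 h2 i4 i1 i3 i2
  refine ⟨V.image gt3, hne.image _, ?_, ?_⟩
  · intro x hx
    obtain ⟨v, hv, rfl⟩ := mem_image.1 hx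
    obtain ⟨a, b, c⟩ := hinc v hv
    exact ⟨g_pos a, g_pos b, g_pos c⟩
  · generalize hIg : ((V.image gt3).image (fun x : ℕ × ℕ × ℕ => (x.1, x.2.1)) ∩
            (V.image gt3).image (fun x : ℕ × ℕ × ℕ => (x.2.1, x.2.2)) ∩
            (V.image gt3).image (fun x : ℕ × ℕ × ℕ => (x.1 + x.2.1, x.2.2)) ∩
            (V.image gt3).image (fun x : ℕ × ℕ × ℕ => (x.1, x.2.1 + x.2.2))).card = I at key ⊢
    have hVc : ((V.image gt3).card : ℝ) ≤ V.card := by exact_mod_cast card_image_le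
    have hV0 : (0 : ℝ) ≤ ((V.image gt3).card : ℝ) := Nat.cast_nonneg _
    have r1 : (V.card : ℝ) ≤ I + 3 * ((W.card : ℝ) - V.card) := by
      have : W.card + 4 * V.card ≤ I + 4 * W.card := by omega
      have h := (Nat.cast_le (α := ℝ)).2 this
      push_cast at h
      linarith
    have r2 : (W.card : ℝ) - V.card ≤ δ * V.card := by linarith
    have r3 : (1 - η) * (V.card : ℝ) ≤ I := by
      have hV : (0 : ℝ) ≤ V.card := Nat.cast_nonneg _
      have : 3 * δ * (V.card : ℝ) ≤ η * V.card := by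
        apply mul_le_mul_of_nonneg_right _ hV
        rw [hδ]; linarith
      linarith
    calc (1 - ε) * ((V.image gt3).card : ℝ) ≤ (1 - η) * ((V.image gt3).card : ℝ) :=
          mul_le_mul_of_nonneg_right (by linarith) hV0
      _ ≤ (1 - η) * (V.card : ℝ) := mul_le_mul_of_nonneg_left hVc (by linarith)
      _ ≤ I := r3

end Pool.Agent.S01585
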