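import Pool.Statements.S01591
import Pool.Agent.H653R4.Core
import Pool.Agent.H653R4.Cmp
import Pool.Agent.H653R4.Sch
import Pool.Agent.H653R4.Extn
import Pool.Agent.H653R4.Restr
import Pool.Agent.H653R4.Step
import Pool.Agent.H653R4.EndAB
import Pool.Agent.H653R4.NStep
import Pool.Agent.H653R4.N0
import Pool.Agent.H653R4.IC
import Pool.Agent.H653R4.Ind
import Pool.Agent.H653R4.Ker
import Pool.Agent.H653R4.V
import Pool.Agent.H653R4.Start
import Pool.Agent.H653R4.TT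
import Pool.Agent.H653R4.Word
import Pool.Agent.H653R4.Sec
import Pool.Agent.H653R4.FPExt
import Pool.Agent.H653R4.Rel
import Pool.Agent.H653R4.ResA
import Pool.Agent.H653R4.ResB

set_option autoImplicit false
open Pool Pool.MP_5c61b4_al

namespace Pool.Agent.S01591

/-- For n ≥ 2, if π₁: Γ₁→Q and π₂: Γ₂→Q are surjective, ker π₁ is of type F_n, Γ₁ and Γ₂ are F_{n+1}, and Q is F_{n+2}, then the fibre product of Γ₁ and Γ₂ over Q is of type F_{n+1}. -/
theorem result :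
  ∀ (IsF : ℕ → (G : Type) → Group G → Prop),
    (∀ (m : ℕ) (G : Type) (inst : Group G), IsF m G inst ↔
      ((∃ (r : ℕ) (f : FreeGroup (Fin r) →* G) (S : Finset (FreeGroup (Fin r))),
          Function.Surjective f ∧ f.ker = Subgroup.normalClosure (↑S : Set (FreeGroup (Fin r)))) ∧
       (∃ (k : ℕ → ℕ) (ε : MonoidAlgebra ℤ G →+* ℤ)
          (d : ∀ i : ℕ, (Fin (k (i+1)) → MonoidAlgebra ℤ G) →ₗ[MonoidAlgebra ℤ G]
                (Fin (k i) → MonoidAlgebra ℤ G)),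
          (∀ g : G, ε (MonoidAlgebra.of ℤ G g) = 1) ∧
          (∃ x : Fin (k 0) → MonoidAlgebra ℤ G, ∑ j, ε (x j) = 1) ∧
          (0 < m → ∀ x : Fin (k 0) → MonoidAlgebra ℤ G,
              (∑ j, ε (x j) = 0 ↔ x ∈ LinearMap.range (d 0))) ∧
          (∀ j : ℕ, j + 2 ≤ m → LinearMap.range (d (j+1)) = LinearMap.ker (d j))))) →
    ∀ (n : ℕ), 2 ≤ n →
    ∀ (Γ₁ Γ₂ Q : Type) [Group Γ₁] [Group Γ₂] [Group Q] (π₁ : Γ₁ →* Q) (π₂ : Γ₂ →* Q),
      Function.Surjective π₁ → Function.Surjective π₂ →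
      IsF n (↥π₁.ker) inferInstance →
      IsF (n+1) Γ₁ inferInstance →
      IsF (n+1) Γ₂ inferInstance →
      IsF (n+2) Q inferInstance →
      IsF (n+1)
        (↥(MonoidHom.eqLocus (π₁.comp (MonoidHom.fst Γ₁ Γ₂)) (π₂.comp (MonoidHom.snd Γ₁ Γ₂))))
        inferInstance := by
  intro IsF hF n _ Γ₁ Γ₂ Q _ _ _ π₁ π₂ s1 s2 hN h1 h2 hQ
  have hE := Pool.Agent.H653R4.task_Equiv
  have hS := Pool.Agent.H653R4.task_Sch
  have hX := Pool.Agent.H653R4.task_Extn hE hS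
  have hR := Pool.Agent.H653R4.task_Restr hE hS hX
  have hTT := Pool.Agent.H653R4.task_TT
  have hIC := Pool.Agent.H653R4.task_IC
  have hK := Pool.Agent.H653R4.task_Ker
  have h0 := Pool.Agent.H653R4.task_N0 hE hS
  have hV := Pool.Agent.H653R4.task_V hE hS hIC hK h0
  rw [hF]
  exact Pool.Agent.H653R4.group_level h0 Pool.Agent.H653R4.task_NStep
    (Pool.Agent.H653R4.task_Ind hIC hTT)
    (Pool.Agent.H653R4.task_Start hE hS hX hR hK hV)
    (Pool.Agent.H653R4.task_Step hS)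
    Pool.Agent.H653R4.task_EndA Pool.Agent.H653R4.task_EndB
    (Pool.Agent.H653R4.task_Cmp hTT (Pool.Agent.H653R4.task_Word hTT) Pool.Agent.H653R4.task_Sec)
    Pool.Agent.H653R4.task_FPExt Pool.Agent.H653R4.task_Rel
    (Pool.Agent.H653R4.task_ResA hE hS) (Pool.Agent.H653R4.task_ResB hS) n Γ₁ Γ₂ Q π₁ π₂ s1 s2
    ((hF _ _ _).1 hN) ((hF _ _ _).1 h1).2 ((hF _ _ _).1 h2) ((hF _ _ _).1 hQ)

end Pool.Agent.S01591
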