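import Pool.Statements.S01599

set_option autoImplicit false
open Pool Pool.MP_5cdc7f_al

namespace Pool.Agent.S01599

/-- `F_3^5`. -/
abbrev V : Type := Fin 5 → ZMod 3
/-- `Λ^3 F_3^5` (coordinates: triples 012, 013, 014, 023, 024, 034, 123, 124, 134, 234); also used for
`Λ^2 F_3^5` (coordinates: the complementary pairs 34, 24, 23, 14, 13, 12, 04, 03, 02, 01). -/
abbrev W : Type := Fin 10 → ZMod 3

/-- the wedge of two vectors. -/
def kap (x y : V) : W :=
  ![x 3 * y 4 - x 4 * y 3, x 2 * y 4 - x 4 * y 2, x 2 * y 3 - x 3 * y 2, x 1 * y 4 - x 4 * y 1,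
    x 1 * y 3 - x 3 * y 1, x 1 * y 2 - x 2 * y 1, x 0 * y 4 - x 4 * y 0, x 0 * y 3 - x 3 * y 0,
    x 0 * y 2 - x 2 * y 0, x 0 * y 1 - x 1 * y 0]

/-- the wedge of a two-vector and a vector. -/
def DD (w : W) (z : V) : W :=
  ![w 9 * z 2 + w 5 * z 0 - w 8 * z 1,
    w 9 * z 3 + w 4 * z 0 - w 7 * z 1,
    w 9 * z 4 + w 3 * z 0 - w 6 * z 1,
    w 8 * z 3 + w 2 * z 0 - w 7 * z 2,
    w 8 * z 4 + w 1 * z 0 - w 6 * z 2,
    w 7 * z 4 + w 0 * z 0 - w 6 * z 3,
    w 5 * z 3 + w 2 * z 1 - w 4 * z 2,
    w 5 * z 4 + w 1 * z 1 - w 3 * z 2,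
    w 4 * z 4 + w 0 * z 1 - w 3 * z 3,
    w 2 * z 4 + w 0 * z 2 - w 1 * z 3]

/-- the pairing of two-vectors with three-vectors given by the volume form. -/
def PP (w s : W) : ZMod 3 :=
  w 0 * s 0 - w 1 * s 1 + w 2 * s 2 + w 3 * s 3 - w 4 * s 4 + w 5 * s 5 - w 6 * s 6 + w 7 * s 7
    - w 8 * s 8 + w 9 * s 9

/-- one coordinate of the cocycle. -/
def bb (i j k : Fin 5) (x y : V) : ZMod 3 := (y k - x k) * (x i * y j - x j * y i)

/-- the cocycle of the free commutative Moufang loop type. -/
def BB (x y : V) : W :=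
  ![bb 0 1 2 x y, bb 0 1 3 x y, bb 0 1 4 x y, bb 0 2 3 x y, bb 0 2 4 x y, bb 0 3 4 x y,
    bb 1 2 3 x y, bb 1 2 4 x y, bb 1 3 4 x y, bb 2 3 4 x y]

lemma three : (3 : ZMod 3) = 0 := by decide

lemma bb_cocycle (i j k : Fin 5) (x y z : V) :
    bb i j k y z + bb i j k x (y + z) = bb i j k (x + y) z + bb i j k x y +
      ((x i * y j - x j * y i) * z k + (x j * y k - x k * y j) * z i
        - (x i * y k - x k * y i) * z j) := by
  simp only [bb, Pi.add_apply]
  linear_combination (x i * y k * z j - x j * y k * z i) * three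

lemma BB_cocycle (x y z : V) :
    BB y z + BB x (y + z) = BB (x + y) z + BB x y + DD (kap x y) z := by
  ext m
  fin_cases m <;> simp [BB, DD, kap] <;> (rw [bb_cocycle])

lemma PP_symm (w w' : W) (z : V) : PP w' (DD w z) = PP w (DD w' z) := by
  simp [PP, DD]
  ring

lemma BB_zero_left (y : V) : BB 0 y = 0 := by
  ext m
  fin_cases m <;> simp [BB, bb]

lemma BB_zero_right (x : V) : BB x 0 = 0 := by
  ext m
  fin_cases m <;> simp [BB, bb]

lemma BB_symm (x y : V) : BB x y = BB y x := by
  ext m
  fin_cases m <;> simp [BB, bb] <;> ring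

lemma kap_symm (x y : V) : kap y x = - kap x y := by
  ext m
  fin_cases m <;> simp [kap] <;> ring

lemma kap_add_left (x x' y : V) : kap (x + x') y = kap x y + kap x' y := by
  ext m
  fin_cases m <;> simp [kap] <;> ring

lemma kap_add_right (x y y' : V) : kap x (y + y') = kap x y + kap x y' := by
  ext m
  fin_cases m <;> simp [kap] <;> ring

lemma kap_zero_left (y : V) : kap 0 y = 0 := by
  ext m
  fin_cases m <;> simp [kap]

lemma kap_zero_right (y : V) : kap y 0 = 0 := by
  ext m
  fin_cases m <;> simp [kap]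

lemma DD_add_left (w w' : W) (z : V) : DD (w + w') z = DD w z + DD w' z := by
  ext m
  fin_cases m <;> simp [DD] <;> ring

lemma DD_add_right (w : W) (z z' : V) : DD w (z + z') = DD w z + DD w z' := by
  ext m
  fin_cases m <;> simp [DD] <;> ring

lemma DD_zero_left (z : V) : DD 0 z = 0 := by
  ext m
  fin_cases m <;> simp [DD]

lemma DD_zero_right (w : W) : DD w 0 = 0 := by
  ext m
  fin_cases m <;> simp [DD]

lemma PP_add_left (w w' s : W) : PP (w + w') s = PP w s + PP w' s := by
  simp [PP]; ring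

lemma PP_add_right (w s s' : W) : PP w (s + s') = PP w s + PP w s' := by
  simp [PP]; ring

lemma PP_neg_left (w s : W) : PP (-w) s = - PP w s := by
  simp [PP]; ring

lemma PP_zero_left (s : W) : PP 0 s = 0 := by
  simp [PP]

lemma PP_zero_right (s : W) : PP s 0 = 0 := by
  simp [PP]

/-- the underlying set. -/
abbrev Q : Type := V × W × ZMod 3

/-- the multiplication. -/
def mul (a x : Q) : Q :=
  (a.1 + x.1, a.2.1 + x.2.1 + BB a.1 x.1,
    a.2.2 + x.2.2 + PP (kap a.1 x.1) x.2.1 + PP (kap x.1 a.1) a.2.1)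

lemma mul_comm' (a x : Q) : mul a x = mul x a := by
  unfold mul
  ext1
  · simp only; abel
  · ext1
    · simp only [BB_symm a.1 x.1]; abel
    · simp only; ring

/-- the general form of the elements of the multiplication group. -/
def form (t : V) (w c : W) (H : V → ZMod 3) (x : Q) : Q :=
  (x.1 + t, x.2.1 + BB t x.1 + DD w x.1 + c, x.2.2 + PP (kap t x.1 + w) x.2.1 + H x.1)

lemma mul_eq_form (a x : Q) :
    mul a x = form a.1 0 a.2.1 (fun y => a.2.2 + PP (kap y a.1) a.2.1) x := by
  unfold mul form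
  ext1
  · simp only; abel
  · ext1
    · simp only [DD_zero_left]; abel
    · simp only [add_zero]; ring

lemma form_comp (t t' : V) (w w' c c' : W) (H H' : V → ZMod 3) (x : Q) :
    form t w c H (form t' w' c' H' x) =
      form (t + t') (w + w' + kap t t') (c + c' + BB t t' + DD w t')
        (fun y => H (y + t') + H' y
          + PP (kap t (y + t') + w) (BB t' y + DD w' y + c')) x := by
  have hB := BB_cocycle t t' x.1
  unfold form
  ext1
  · simp only; abel
  · ext1
    · simp only [DD_add_left, DD_add_right]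
      have h : BB t (x.1 + t') = BB (t + t') x.1 + BB t t' + DD (kap t t') x.1 - BB t' x.1 := by
        rw [add_comm x.1 t', ← hB]; abel
      rw [h]; abel
    · simp only [kap_add_left, kap_add_right, PP_add_left, PP_add_right]
      ring

lemma form_id (x : Q) : form 0 0 0 0 x = x := by
  unfold form
  ext1
  · simp
  · ext1
    · simp [BB_zero_left, DD_zero_left]
    · simp [kap_zero_left, PP_zero_left]

lemma kap_self (t : V) : kap t t = 0 := by
  ext m
  fin_cases m <;> simp [kap] <;> ring

lemma kap_neg_right (t : V) : kap t (-t) = 0 := by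
  have := kap_add_right t t (-t)
  rw [kap_self, zero_add, add_neg_cancel, kap_zero_right] at this
  exact this.symm

/-- right inverse of a form. -/
lemma form_inv (t : V) (w c : W) (H : V → ZMod 3) :
    ∃ (t' : V) (w' c' : W) (H' : V → ZMod 3), ∀ x, form t w c H (form t' w' c' H' x) = x := by
  refine ⟨-t, -w, -c - BB t (-t) - DD w (-t), fun y => -(H (y + -t)
          + PP (kap t (y + -t) + w) (BB (-t) y + DD (-w) y + (-c - BB t (-t) - DD w (-t)))),
          fun x => ?_⟩
  rw [form_comp]
  have h1 : t + -t = 0 := add_neg_cancel t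
  have h2 : w + -w + kap t (-t) = 0 := by rw [kap_neg_right]; simp
  have h3 : c + (-c - BB t (-t) - DD w (-t)) + BB t (-t) + DD w (-t) = 0 := by abel
  have h4 : (fun y => H (y + -t) + -(H (y + -t)
      + PP (kap t (y + -t) + w) (BB (-t) y + DD (-w) y + (-c - BB t (-t) - DD w (-t))))
      + PP (kap t (y + -t) + w) (BB (-t) y + DD (-w) y + (-c - BB t (-t) - DD w (-t))))
      = (0 : V → ZMod 3) := by
    ext y
    simp only [Pi.zero_apply]
    ring
  rw [h1, h2, h3, h4, form_id]

/-- left division. -/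
lemma exists_unique_mul (a b : Q) : ∃! x, mul a x = b := by
  refine ⟨(b.1 - a.1, b.2.1 - a.2.1 - BB a.1 (b.1 - a.1),
    b.2.2 - a.2.2 - PP (kap a.1 (b.1 - a.1)) (b.2.1 - a.2.1 - BB a.1 (b.1 - a.1))
      - PP (kap (b.1 - a.1) a.1) a.2.1), ?_, ?_⟩
  · unfold mul
    ext1
    · simp only; abel
    · ext1
      · simp only; abel
      · simp only; ring
  · rintro x rfl
    unfold mul
    ext1
    · simp only; abel
    · ext1
      · simp only [add_sub_cancel_left]; abel
      · simp only [add_sub_cancel_left]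
        rw [show a.2.1 + x.2.1 + BB a.1 x.1 - a.2.1 - BB a.1 x.1 = x.2.1 by abel]
        ring

lemma one_mul' (x : Q) : mul 0 x = x := by
  unfold mul
  ext1
  · simp
  · ext1
    · simp [BB_zero_left]
    · simp [kap_zero_left, kap_zero_right, PP_zero_left]

/-- `n = |Q|`. -/
abbrev nn : ℕ := Fintype.card Q

noncomputable def ee : Q ≃ Fin nn := Fintype.equivFin Q

/-- transported multiplication. -/
noncomputable def mm (a b : Fin nn) : Fin nn := ee (mul (ee.symm a) (ee.symm b))

lemma mm_comm (a b : Fin nn) : mm a b = mm b a := by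
  unfold mm; rw [mul_comm']

lemma mm_ee (a b : Q) : mm (ee a) (ee b) = ee (mul a b) := by
  unfold mm; simp

lemma closure_form {π : Equiv.Perm (Fin nn)}
    (hπ : π ∈ Subgroup.closure
      {π : Equiv.Perm (Fin nn) | ∃ a, (∀ x, π x = mm a x) ∨ (∀ x, π x = mm x a)}) :
    ∃ (t : V) (w c : W) (H : V → ZMod 3), ∀ x : Q, π (ee x) = ee (form t w c H x) := by
  induction hπ using Subgroup.closure_induction with
  | mem g hg =>
    obtain ⟨a, ha⟩ := hg
    have ha' : ∀ x, g x = mm a x := by
      rcases ha with ha | ha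
      · exact ha
      · intro x; rw [ha, mm_comm]
    refine ⟨(ee.symm a).1, 0, (ee.symm a).2.1,
      (fun y => (ee.symm a).2.2 + PP (kap y (ee.symm a).1) (ee.symm a).2.1), fun x => ?_⟩
    rw [ha', ← mul_eq_form]
    unfold mm; simp
  | one => exact ⟨0, 0, 0, 0, fun x => by rw [form_id]; rfl⟩
  | mul g h _ _ ihg ihh =>
    obtain ⟨t, w, c, H, hg⟩ := ihg
    obtain ⟨t', w', c', H', hh⟩ := ihh
    exact ⟨_, _, _, _, fun x => by
      rw [Equiv.Perm.mul_apply, hh, hg, form_comp]⟩
  | inv g _ ih =>
    obtain ⟨t, w, c, H, hg⟩ := ih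
    obtain ⟨t', w', c', H', hinv⟩ := form_inv t w c H
    refine ⟨t', w', c', H', fun x => ?_⟩
    rw [Equiv.Perm.inv_eq_iff_eq, hg, hinv]

lemma stab_form {π : Equiv.Perm (Fin nn)}
    (hπ : π ∈ Subgroup.closure
      {π : Equiv.Perm (Fin nn) | ∃ a, (∀ x, π x = mm a x) ∨ (∀ x, π x = mm x a)})
    (h0 : π (ee 0) = ee 0) :
    ∃ (w : W) (H : V → ZMod 3), ∀ x : Q, π (ee x) =
      ee (x.1, x.2.1 + DD w x.1, x.2.2 + PP w x.2.1 + H x.1) := by
  obtain ⟨t, w, c, H, hf⟩ := closure_form hπ
  have h := hf 0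
  rw [h0] at h
  have h := ee.injective h
  unfold form at h
  have ht : t = 0 := by
    have := congrArg Prod.fst h
    simpa using this.symm
  subst ht
  have hc : c = 0 := by
    have := congrArg (fun q : Q => q.2.1) h
    simpa [BB_zero_left, DD_zero_right] using this.symm
  subst hc
  refine ⟨w, H, fun x => ?_⟩
  rw [hf]
  unfold form
  congr 1
  ext1
  · simp
  · ext1
    · simp [BB_zero_left]
    · simp [kap_zero_left]

/-- vectors used for the lower bound on the class. -/
def ev (i : Fin 5) : V := Pi.single i 1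

/-- There is a finite loop of odd order whose inner mapping group (identity-stabilizer in the group generated by all translations) is abelian, yet the quotient by its centre is not an abelian group, i.e. its nilpotency class is not at most two. -/
theorem result :
    ∃ (n : ℕ) (mul : Fin n → Fin n → Fin n) (e : Fin n),
      Odd n ∧
      (∀ x, mul e x = x ∧ mul x e = x) ∧
      (∀ a b, ∃! x, mul a x = b) ∧
      (∀ a b, ∃! y, mul y a = b) ∧
      (∀ σ ∈ Subgroup.closure
          {π : Equiv.Perm (Fin n) | ∃ a, (∀ x, π x = mul a x) ∨ (∀ x, π x = mul x a)},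
        ∀ τ ∈ Subgroup.closure
          {π : Equiv.Perm (Fin n) | ∃ a, (∀ x, π x = mul a x) ∨ (∀ x, π x = mul x a)},
          σ e = e → τ e = e → σ * τ = τ * σ) ∧
      ¬ ((∀ x y, ∃ c,
            (∀ u v, mul c u = mul u c ∧
              mul (mul c u) v = mul c (mul u v) ∧
              mul (mul u c) v = mul u (mul c v) ∧
              mul (mul u v) c = mul u (mul v c)) ∧
            mul x y = mul (mul y x) c) ∧
         (∀ x y w, ∃ c,
            (∀ u v, mul c u = mul u c ∧
              mul (mul c u) v = mul c (mul u v) ∧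
              mul (mul u c) v = mul u (mul c v) ∧
              mul (mul u v) c = mul u (mul v c)) ∧
            mul (mul x y) w = mul (mul x (mul y w)) c)) := by
  have hone : ∀ x, mm (ee 0) x = x := by
    intro x
    obtain ⟨y, rfl⟩ := ee.surjective x
    rw [mm_ee, one_mul']
  have hdiv : ∀ a b, ∃! x, mm a x = b := by
    intro a b
    obtain ⟨x, hx, hu⟩ := exists_unique_mul (ee.symm a) (ee.symm b)
    refine ⟨ee x, ?_, ?_⟩
    · simp only [mm, Equiv.symm_apply_apply]
      rw [hx]; simp
    · intro y hy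
      have : ee.symm y = x := by
        apply hu
        simp only [mm] at hy
        rw [← hy]; simp
      rw [← this]; simp
  refine ⟨nn, mm, ee 0, ?_, ?_, hdiv, ?_, ?_, ?_⟩
  · have : nn = 3 ^ 16 := by
      simp only [nn, Fintype.card_prod, Fintype.card_fun, ZMod.card, Fintype.card_fin]
      norm_num
    rw [this]
    decide
  · intro x
    exact ⟨hone x, by rw [mm_comm]; exact hone x⟩
  · intro a b
    obtain ⟨x, hx, hu⟩ := hdiv a b
    refine ⟨x, ?_, fun y hy => hu y ?_⟩
    · change mm x a = b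
      rw [mm_comm]; exact hx
    · change mm a y = b
      rw [mm_comm]; exact hy
  · intro σ hσ τ hτ hσ0 hτ0
    obtain ⟨w, H, hf⟩ := stab_form hσ hσ0
    obtain ⟨w', H', hf'⟩ := stab_form hτ hτ0
    ext1 y
    obtain ⟨x, rfl⟩ := ee.surjective y
    rw [Equiv.Perm.mul_apply, Equiv.Perm.mul_apply, hf, hf', hf, hf']
    congr 1
    ext1
    · rfl
    · ext1
      · simp only; abel
      · simp only [PP_add_right]
        rw [PP_symm w' w x.1]
        ring
  · rintro ⟨-, h⟩
    obtain ⟨c, hc, heq⟩ := h (ee (ev 0, 0, 0)) (ee (ev 1, 0, 0)) (ee (ev 2, 0, 0))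
    obtain ⟨c, rfl⟩ := ee.surjective c
    have h4 := (hc (ee (ev 3, 0, 0)) (ee (ev 4, 0, 0))).2.2.2
    simp only [mm_ee] at heq h4
    have heq := ee.injective heq
    have h4 := ee.injective h4
    have hc1 : c.1 = 0 := by
      have := congrArg Prod.fst heq
      simp only [mul] at this
      have h' : ev 0 + ev 1 + ev 2 = ev 0 + (ev 1 + ev 2) + c.1 := this
      rw [← add_assoc] at h'
      exact (left_eq_add.1 h')
    have hc2 : c.2.1 0 = -1 := by
      have := congrArg (fun q : Q => q.2.1 0) heq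
      simp [mul, BB, bb, hc1, ev] at this
      have h6 : (0 : ZMod 3) = 1 + c.2.1 0 := this
      linear_combination -h6
    have h5 := congrArg (fun q : Q => q.2.2) h4
    simp [mul, hc1, kap_zero_left, kap_zero_right, PP_zero_left, PP_zero_right] at h5
    simp [PP, kap, ev, hc2, BB_zero_right] at h5

end Pool.Agent.S01599
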