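import Pool.Statements.S01630
import Pool.Agent.H67R3.Grig2

set_option autoImplicit false
open scoped Classical
open Pool Pool.MP_5e9b9f_al

namespace Pool.Agent.S01630

open Pool.Agent.H67R3.Grig in
lemma foldr_comp_eq (ω : ℕ → Fin 3) (L : List (Fin 4 × Bool)) (v : ℕ → Bool) :
    L.foldr
      (fun p f =>
        (fun v : ℕ → Bool =>
          if p.1 = 0 then Function.update v 0 (!v 0)
          else fun m =>
            if 0 < m ∧ v (m - 1) = false ∧ (∀ j < m - 1, v j = true) ∧
                (ω (m - 1)).val + p.1.val ≠ 3
            then !v m else v m) ∘ f)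
      (id : (ℕ → Bool) → (ℕ → Bool)) v = (L.map Prod.fst).foldr (bd ω).g v := by
  induction L with
  | nil => rfl
  | cons p L ih =>
    rw [List.foldr_cons, Function.comp_apply, ih, List.map_cons, List.foldr_cons]
    rfl

/-- The negation of the preceding statement: The intersection over all ω in {0,1,2}^ℕ of the kernels F_4 → G_ω (Grigorchuk groups acting on binary sequences) is the normal closure of a finite set, i.e. the universal group F_4/N is finitely presented. -/
theorem result :
    ¬ (∃ S : Finset (FreeGroup (Fin 4)),
      (Subgroup.normalClosure (S : Set (FreeGroup (Fin 4))) : Set (FreeGroup (Fin 4))) =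
        {w : FreeGroup (Fin 4) | ∀ ω : ℕ → Fin 3,
          (FreeGroup.toWord w).foldr
            (fun p f =>
              (fun v : ℕ → Bool =>
                if p.1 = 0 then Function.update v 0 (!v 0)
                else fun m =>
                  if 0 < m ∧ v (m - 1) = false ∧ (∀ j < m - 1, v j = true) ∧
                      (ω (m - 1)).val + p.1.val ≠ 3
                  then !v m else v m) ∘ f)
            (id : (ℕ → Bool) → (ℕ → Bool)) = id}) := by
  rintro ⟨S, hS⟩
  refine Pool.Agent.H67R3.Grig.not_fp S (hS.trans ?_)
  ext w
  simp only [Set.mem_setOf_eq]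
  unfold Pool.Agent.H67R3.Grig.InN Pool.Agent.H67R3.Grig.wd
  refine forall_congr' fun ω => ?_
  constructor
  · intro h v
    rw [← foldr_comp_eq, h]; rfl
  · intro h
    funext v
    rw [foldr_comp_eq, h v]; rfl

end Pool.Agent.S01630
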