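import Pool.Statements.S01664
import Pool.Agent.H570R4.Fin

set_option autoImplicit false
open scoped Pointwise
open Pool Pool.MP_60a75d_al
open Pool.Agent.H570R4 Equiv Equiv.Perm

namespace Pool.Agent.S01664

/-- The negation of the preceding statement: For each ε>0 there is δ>0 so that in every non-abelian finite simple group S, any nonempty subsets B, A of size at most ∣S∣^δ admit g in S with ∣B·g⁻¹Ag∣ ≥ ∣B∣·∣A∣^(1−ε). -/
theorem result :
    ¬ (∀ ε : ℝ, 0 < ε → ∃ δ : ℝ, 0 < δ ∧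
      ∀ (S : Type) [Group S] [Finite S], IsSimpleGroup S →
        (∃ a b : S, a * b ≠ b * a) →
        ∀ B A : Set S, B.Nonempty → A.Nonempty →
          (Nat.card B : ℝ) ≤ (Nat.card S : ℝ) ^ δ →
          (Nat.card A : ℝ) ≤ (Nat.card S : ℝ) ^ δ →
          ∃ g : S, (Nat.card B : ℝ) * (Nat.card A : ℝ) ^ (1 - ε) ≤
            (Nat.card ↥(B * ((fun a : S => g⁻¹ * a * g) '' A)) : ℝ)) := by
  intro hyp
  obtain ⟨δ, hδ, H⟩ := hyp (1/4) (by norm_num)
  obtain ⟨N0, hN0⟩ := exists_nat_ge (4 / δ)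
  set N := N0 + 1 with hN
  have hN1 : 1 ≤ N := by omega
  have hNδ : 4 / δ ≤ (N : ℝ) := by rw [hN]; push_cast; linarith
  set k := 128 * N + 1 with hk
  have hk1 : 1 ≤ k := by omega
  set m := N * k with hm
  have hm1 : 1 ≤ m := Nat.mul_pos hN1 hk1
  obtain ⟨j, hj⟩ : ∃ j, k = j + 1 := ⟨128 * N, rfl⟩
  have hmk : k ≤ m := Nat.le_mul_of_pos_left k hN1
  clear_value m k N
  have : Nonempty (Om m) := ⟨((0 : Fin 4), ⟨0, by omega⟩)⟩
  have : Nontrivial (Om m) := by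
    rw [← Fintype.one_lt_card_iff_nontrivial, card_Om]; omega
  have hsimple : IsSimpleGroup (alternatingGroup (Om m)) := by
    apply alternatingGroup.isSimpleGroup
    rw [Nat.card_eq_fintype_card, card_Om]; omega
  have hBne : (SB (Om m) (2*j+2)).Nonempty := ⟨1, one_mem_BB _⟩
  have hAne : (SB (Om m) 2).Nonempty := ⟨1, one_mem_BB _⟩
  have hsz : ∀ i, i ≤ 2*k →
      ((((4*m)^2)^i : ℕ) : ℝ) ≤ (Nat.card (alternatingGroup (Om m)) : ℝ) ^ δ := by
    intro i hi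
    subst hm
    exact size_ok N k δ hδ hNδ hN1 hk1 i hi
  have hBc : (Nat.card ↥(SB (Om m) (2*j+2)) : ℝ) ≤ (Nat.card (alternatingGroup (Om m)) : ℝ) ^ δ := by
    rw [card_SB]
    refine le_trans ?_ (hsz (2*j+2) (by omega))
    exact_mod_cast card_EB_le m (2*j+2)
  have hAc : (Nat.card ↥(SB (Om m) 2) : ℝ) ≤ (Nat.card (alternatingGroup (Om m)) : ℝ) ^ δ := by
    rw [card_SB]
    refine le_trans ?_ (hsz 2 (by omega))
    exact_mod_cast card_EB_le m 2
  obtain ⟨g, hg⟩ := H (alternatingGroup (Om m)) hsimple (noncomm m hm1) _ _ hBne hAne hBc hAc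
  have h1 : (Nat.card ↥(SB (Om m) (2*j+2) *
      ((fun a : alternatingGroup (Om m) => g⁻¹ * a * g) '' SB (Om m) 2)) : ℝ)
      ≤ ((EB (Om m) (2*j+4)).card : ℝ) := by exact_mod_cast card_prod j g
  have h2 := hg.trans h1
  rw [card_SB, card_SB] at h2
  -- lower bound for the power of `|A|`
  have h3 : ((m ^ 3 : ℕ) : ℝ) ≤ ((EB (Om m) 2).card : ℝ) ^ ((1:ℝ) - 1/4) := by
    have h4 : ((m^4 : ℕ) : ℝ) ≤ ((EB (Om m) 2).card : ℝ) := by exact_mod_cast card_EB2_ge m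
    have h5 : ((m^4 : ℕ) : ℝ) ^ ((1:ℝ) - 1/4) ≤ ((EB (Om m) 2).card : ℝ) ^ ((1:ℝ) - 1/4) :=
      Real.rpow_le_rpow (by positivity) h4 (by norm_num)
    refine le_trans (le_of_eq ?_) h5
    push_cast
    rw [← Real.rpow_natCast (m:ℝ) 4, ← Real.rpow_mul (by positivity), ← Real.rpow_natCast]
    congr 1
    norm_num
  have h4 : ((EB (Om m) (2*j+2)).card : ℝ) * ((m^3 : ℕ) : ℝ) ≤ ((EB (Om m) (2*j+4)).card : ℝ) :=
    le_trans (mul_le_mul_of_nonneg_left h3 (by positivity)) h2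
  have h5 : (EB (Om m) (2*j+2)).card * m^3 ≤ (EB (Om m) (2*j+4)).card := by exact_mod_cast h4
  have h6 := EB_growth (α := Om m) j
  have hTT : (TT (Om m)).card ^ 2 ≤ 256 * m ^ 4 := by
    have h7 := card_TT (α := Om m)
    rw [card_Om] at h7
    calc (TT (Om m)).card ^ 2 ≤ ((4*m)^2)^2 := Nat.pow_le_pow_left h7 2
      _ = 256 * m ^ 4 := by ring
  have hbpos : 0 < (EB (Om m) (2*j+2)).card := EB_pos _
  have h7 : ((2*j+3) * (2*j+4) * m^3) * (EB (Om m) (2*j+2)).card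
      ≤ ((2*j+3) * (2*j+4) + 256 * m^4) * (EB (Om m) (2*j+2)).card := by
    calc ((2*j+3) * (2*j+4) * m^3) * (EB (Om m) (2*j+2)).card
        = (2*j+3) * (2*j+4) * ((EB (Om m) (2*j+2)).card * m^3) := by ring
      _ ≤ (2*j+3) * (2*j+4) * (EB (Om m) (2*j+4)).card := Nat.mul_le_mul_left _ h5
      _ ≤ ((2*j+3) * (2*j+4) + (TT (Om m)).card^2) * (EB (Om m) (2*j+2)).card := h6
      _ ≤ _ := Nat.mul_le_mul_right _ (Nat.add_le_add_left hTT _)
  have h8 := Nat.le_of_mul_le_mul_right h7 hbpos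
  have e1 : 2*j+3 = 2*k+1 := by omega
  have e2 : 2*j+4 = 2*k+2 := by omega
  rw [e1, e2, hm] at h8
  exact numeric N k hk hN1 h8

end Pool.Agent.S01664
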