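import Pool.Statements.S01717
import Pool.Agent.H803R3.Res
import Pool.Agent.H803R3.Eff

set_option autoImplicit false
open Pool Pool.MP_63d873_al

namespace Pool.Agent.S01717

/-- For any field and any graph on n vertices with an edge and no induced matching of size two, if the edge ideal has regularity exactly 3, then every power I^q with q ≥ 2 has regularity exactly 2q. -/
theorem result :
  ∀ (K : Type) [Field K] (n : ℕ) (G : SimpleGraph (Fin n))
    (Reg : Ideal (MvPolynomial (Fin n) K) → ℕ → Prop),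
    (∀ (J : Ideal (MvPolynomial (Fin n) K)) (r : ℕ), Reg J r ↔
      ∃ (b : ℕ → ℕ) (deg : ∀ i : ℕ, Fin (b i) → ℕ)
        (g : Fin (b 0) → MvPolynomial (Fin n) K)
        (d : ∀ i : ℕ, Matrix (Fin (b i)) (Fin (b (i + 1))) (MvPolynomial (Fin n) K)),
        Ideal.span (Set.range g) = J ∧
        (∀ k : Fin (b 0), (g k).IsHomogeneous (deg 0 k)) ∧
        (∀ (i : ℕ) (s : Fin (b i)) (c : Fin (b (i + 1))),
          d i s c = 0 ∨
            (deg i s ≤ deg (i + 1) c ∧ (d i s c).IsHomogeneous (deg (i + 1) c - deg i s))) ∧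
        (∀ v : Fin (b 0) → MvPolynomial (Fin n) K,
          (∑ k, g k * v k = 0) ↔ ∃ w, Matrix.mulVec (d 0) w = v) ∧
        (∀ (i : ℕ) (v : Fin (b (i + 1)) → MvPolynomial (Fin n) K),
          Matrix.mulVec (d i) v = 0 ↔ ∃ w, Matrix.mulVec (d (i + 1)) w = v) ∧
        (∀ (i : ℕ) (k : Fin (b i)), deg i k ≤ r + i)) →
    ∀ I : Ideal (MvPolynomial (Fin n) K),
    I = Ideal.span {f : MvPolynomial (Fin n) K |
          ∃ i j : Fin n, G.Adj i j ∧ f = MvPolynomial.X i * MvPolynomial.X j} →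
    (∃ a c : Fin n, G.Adj a c) →
    (∀ a b c d : Fin n, G.Adj a b → G.Adj c d → a ≠ c → a ≠ d → b ≠ c → b ≠ d →
      G.Adj a c ∨ G.Adj a d ∨ G.Adj b c ∨ G.Adj b d) →
    Reg I 3 → ¬ Reg I 2 →
    ∀ q : ℕ, 2 ≤ q → Reg (I ^ q) (2 * q) ∧ ¬ Reg (I ^ q) (2 * q - 1) := by
  intro K _ n G Reg hReg I hI hE hG h3 _ q hq
  subst hI
  obtain ⟨a, c, hac⟩ := hE
  have h3' : Pool.Agent.H803R3.RegR (Pool.Agent.H803R3.edgeIdeal K G) 3 := (hReg _ 3).1 h3
  have hT : ∀ i d, 1 + 2 < d → ¬ Pool.Agent.H803R3.HasTor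
      (Pool.Agent.H803R3.edgeIdeal K G ^ 1) i d := by
    intro i d hd
    rw [pow_one]
    exact Pool.Agent.H803R3.not_hasTor_of_regR h3' i d (by omega)
  have hq' : ∀ i d, 2 * q < d → ¬ Pool.Agent.H803R3.HasTor
      (Pool.Agent.H803R3.edgeIdeal K G ^ q) i d := fun i d hd =>
    Pool.Agent.H803R3.pow_not_hasTor G hG 1 q hT i d hd (by omega)
  constructor
  · refine (hReg _ _).2 (Pool.Agent.H803R3.regR_of_not_hasTor (J :=
      Pool.Agent.H803R3.edgeIdeal K G ^ q) ?_ hq')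
    intro p hp d
    rw [Pool.Agent.H803R3.edgeIdeal_eq, Pool.Agent.H803R3.mem_pow_iff] at hp ⊢
    intro m hm
    apply hp m
    rw [MvPolynomial.mem_support_iff, MvPolynomial.coeff_homogeneousComponent] at hm
    rw [MvPolynomial.mem_support_iff]
    intro h0
    rw [h0] at hm
    split_ifs at hm <;> exact hm rfl
  · intro h
    have h' : Pool.Agent.H803R3.RegR (Pool.Agent.H803R3.edgeIdeal K G ^ q) (2 * q - 1) :=
      (hReg _ _).1 h
    exact Pool.Agent.H803R3.not_hasTor_of_regR h' 0 (2 * q) (by omega)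
      (Pool.Agent.H803R3.hasTor_zero G hac q)

end Pool.Agent.S01717
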