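import Pool.Statements.S01731
import Pool.Agent.H206R3.Neu2
-- import your own Pool.Agent.* helpers here

set_option autoImplicit false
open Pool Pool.MP_65a4af_al

namespace Pool.Agent.S01731

/-- For `x > 1` the derivative of the characteristic polynomial is at most the sum of the
products of `n` diagonal entries of `x - A`. -/
theorem deriv_le {n : ℕ} (A : Matrix (Fin (n + 1)) (Fin (n + 1)) ℝ) (hA : ∀ i j, 0 ≤ A i j)
    (hroots : ∀ z ∈ (A.charpoly.map (algebraMap ℝ ℂ)).roots, ‖z‖ ≤ 1) (x : ℝ) (hx : 1 < x) :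
    A.charpoly.derivative.eval x ≤ ∑ r, ∏ j ∈ Finset.univ.erase r, (x - A j j) := by
  obtain ⟨v, hv, hvx⟩ := Pool.Agent.H206R3.Neu.exists_v A hA hroots x hx
  set G := Matrix.scalar (Fin (n + 1)) x - A with hG
  have hGij : ∀ i j, i ≠ j → G i j = - A i j := by
    intro i j h
    simp [hG, Matrix.scalar_apply, Matrix.diagonal_apply_ne _ h]
  have hGii : ∀ i, G i i = x - A i i := by
    intro i
    simp [hG, Matrix.scalar_apply]
  have hdet : G.det ≠ 0 := by
    intro h0
    rw [hG, ← Matrix.eval_charpoly] at h0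
    have h1 : ((A.charpoly.map (algebraMap ℝ ℂ))).IsRoot ((x : ℝ) : ℂ) := by
      rw [Polynomial.IsRoot, Polynomial.eval_map_algebraMap, ← Complex.coe_algebraMap,
        Polynomial.aeval_algebraMap_apply, Polynomial.coe_aeval_eq_eval, h0, map_zero]
    have h2 := hroots _ ((Polynomial.mem_roots
      ((Matrix.charpoly_monic A).map (algebraMap ℝ ℂ)).ne_zero).2 h1)
    rw [Complex.norm_real, Real.norm_eq_abs, abs_of_pos (by linarith)] at h2
    linarith
  rw [Pool.Agent.H206R3.Neu.deriv_charpoly A x hdet]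
  refine Finset.sum_le_sum fun r _ => ?_
  rw [Matrix.adjugate_apply]
  have hb := Pool.Agent.H206R3.Neu.det_bound' (G.updateRow r (Pi.single r 1)) v (fun i j hij => by
    by_cases hi : i = r
    · subst hi
      rw [Matrix.updateRow_self, Pi.single_eq_of_ne hij.symm]
    · rw [Matrix.updateRow_ne hi, hGij i j hij]
      linarith [hA i j]) hv (fun i => by
    by_cases hi : i = r
    · subst hi
      simp only [Matrix.updateRow_self]
      exact Finset.sum_nonneg fun j _ => mul_nonneg (by
        by_cases h : j = i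
        · subst h; simp
        · rw [Pi.single_eq_of_ne h]) (hv j).le
    · simp only [Matrix.updateRow_ne hi]
      have e : ∀ j, G i j * v j = (if j = i then x * v j else 0) - A i j * v j := by
        intro j
        by_cases h : j = i
        · subst h; rw [hGii, if_pos rfl]; ring
        · rw [hGij i j (Ne.symm h), if_neg h]; ring
      rw [Finset.sum_congr rfl fun j _ => e j, Finset.sum_sub_distrib,
        Finset.sum_ite_eq' Finset.univ i, if_pos (Finset.mem_univ _)]
      linarith [hvx i])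
  refine hb.trans (le_of_eq ?_)
  rw [← Finset.mul_prod_erase _ _ (Finset.mem_univ r), Matrix.updateRow_self,
    Pi.single_eq_same, one_mul]
  refine Finset.prod_congr rfl fun j hj => ?_
  rw [Matrix.updateRow_ne (Finset.ne_of_mem_erase hj), hGii]

theorem diag_le {n : ℕ} (A : Matrix (Fin (n + 1)) (Fin (n + 1)) ℝ) (hA : ∀ i j, 0 ≤ A i j)
    (hroots : ∀ z ∈ (A.charpoly.map (algebraMap ℝ ℂ)).roots, ‖z‖ ≤ 1) (i : Fin (n + 1)) :
    A i i ≤ 1 := by
  refine le_of_forall_gt_imp_ge_of_dense fun x hx => ?_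
  obtain ⟨v, hv, hvx⟩ := Pool.Agent.H206R3.Neu.exists_v A hA hroots x hx
  have h1 : A i i * v i ≤ ∑ j, A i j * v j :=
    Finset.single_le_sum (f := fun j => A i j * v j)
      (fun j _ => mul_nonneg (hA i j) (hv j).le) (Finset.mem_univ i)
  exact le_of_mul_le_mul_right (h1.trans (hvx i)) (hv i)

theorem real_ineq {n : ℕ} (hn : 1 ≤ n) (A : Matrix (Fin (n + 1)) (Fin (n + 1)) ℝ)
    (hA : ∀ i j, 0 ≤ A i j)
    (hroots : ∀ z ∈ (A.charpoly.map (algebraMap ℝ ℂ)).roots, ‖z‖ ≤ 1) :
    A.charpoly.derivative.eval 1 ≤ ∑ r, (1 - A r r) := by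
  have h1 : A.charpoly.derivative.eval 1 ≤ ∑ r, ∏ j ∈ Finset.univ.erase r, ((1:ℝ) - A j j) := by
    have hc1 : Filter.Tendsto (fun x : ℝ => A.charpoly.derivative.eval x)
        (nhdsWithin 1 (Set.Ioi 1)) (nhds (A.charpoly.derivative.eval 1)) :=
      (A.charpoly.derivative.continuous.tendsto 1).mono_left nhdsWithin_le_nhds
    have hcont : Continuous fun x : ℝ => ∑ r, ∏ j ∈ Finset.univ.erase r, (x - A j j) := by
      fun_prop
    have hc2 := (hcont.tendsto 1).mono_left (nhdsWithin_le_nhds (s := Set.Ioi (1:ℝ)))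
    exact le_of_tendsto_of_tendsto hc1 hc2
      (Filter.eventually_of_mem self_mem_nhdsWithin fun x hx => deriv_le A hA hroots x hx)
  refine h1.trans ?_
  obtain ⟨k, rfl⟩ : ∃ k, n = k + 1 := ⟨n - 1, by omega⟩
  have h2 : ∑ r : Fin (k + 1 + 1), (1 - A (r + 1) (r + 1)) = ∑ r, (1 - A r r) :=
    Equiv.sum_comp (Equiv.addRight (1 : Fin (k + 1 + 1))) (fun r => 1 - A r r)
  rw [← h2]
  refine Finset.sum_le_sum fun r _ => ?_
  have hne : r + 1 ≠ r := by
    intro h
    have : (1 : Fin (k + 1 + 1)) = 0 := by simpa using h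
    simp at this
  rw [← Finset.mul_prod_erase _ _ (Finset.mem_erase.2 ⟨hne, Finset.mem_univ _⟩)]
  refine mul_le_of_le_one_right (by linarith [diag_le A hA hroots (r + 1)]) ?_
  refine Finset.prod_le_one (fun j _ => by linarith [diag_le A hA hroots j]) fun j _ => ?_
  linarith [hA j j]

/-- Take any entrywise nonnegative real (n+1)×(n+1) matrix, n ≥ 1, with spectral radius 1. List its complex eigenvalues with multiplicity and remove one copy of 1. Then the product of (1 − λ) over the rest is at most the sum of (1 − λ) over the rest. -/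
theorem result :
    ∀ n : ℕ, 1 ≤ n → ∀ A : Matrix (Fin (n + 1)) (Fin (n + 1)) ℝ,
      (∀ i j, 0 ≤ A i j) →
      (∀ z ∈ (A.charpoly.map (algebraMap ℝ ℂ)).roots, ‖z‖ ≤ 1) →
      (∃ z ∈ (A.charpoly.map (algebraMap ℝ ℂ)).roots, ‖z‖ = 1) →
      (1 : ℂ) ∈ (A.charpoly.map (algebraMap ℝ ℂ)).roots →
      ((((A.charpoly.map (algebraMap ℝ ℂ)).roots.erase 1).map (fun z => 1 - z)).prod).re ≤
        ((((A.charpoly.map (algebraMap ℝ ℂ)).roots.erase 1).map (fun z => 1 - z)).sum).re := by
  intro n hn A hA hroots _ h1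
  have hmain := real_ineq hn A hA hroots
  have hmonic := (Matrix.charpoly_monic A).map (algebraMap ℝ ℂ)
  have hsplit : (A.charpoly.map (algebraMap ℝ ℂ)).Splits := IsAlgClosed.splits _
  -- product
  have hprod : (((A.charpoly.map (algebraMap ℝ ℂ)).roots.erase 1).map (fun z => 1 - z)).prod =
      ((A.charpoly.derivative.eval 1 : ℝ) : ℂ) := by
    have e1 := Polynomial.eval_multiset_prod_X_sub_C_derivative h1
    rw [← hsplit.eq_prod_roots_of_monic hmonic, Polynomial.derivative_map,
      Polynomial.eval_one_map] at e1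
    rw [← e1]
    rfl
  -- sum
  have hsum : (((A.charpoly.map (algebraMap ℝ ℂ)).roots.erase 1).map (fun z => 1 - z)).sum =
      ((∑ r, (1 - A r r) : ℝ) : ℂ) := by
    have ht : (A.map (algebraMap ℝ ℂ)).trace = (A.charpoly.map (algebraMap ℝ ℂ)).roots.sum := by
      rw [Matrix.trace_eq_sum_roots_charpoly, Matrix.charpoly_map]
    have hcard : (A.charpoly.map (algebraMap ℝ ℂ)).roots.card = n + 1 := by
      rw [← hsplit.natDegree_eq_card_roots, Polynomial.natDegree_map,
        Matrix.charpoly_natDegree_eq_dim, Fintype.card_fin]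
    have hcons := Multiset.cons_erase h1
    have hs2 : (A.charpoly.map (algebraMap ℝ ℂ)).roots.sum =
        1 + ((A.charpoly.map (algebraMap ℝ ℂ)).roots.erase 1).sum := by
      conv_lhs => rw [← hcons]
      rw [Multiset.sum_cons]
    have hc2 : ((A.charpoly.map (algebraMap ℝ ℂ)).roots.erase 1).card = n := by
      rw [Multiset.card_erase_of_mem h1, hcard]; rfl
    rw [Multiset.sum_map_sub, Multiset.map_id', Multiset.map_const', Multiset.sum_replicate, hc2]
    have ht2 : (A.map (algebraMap ℝ ℂ)).trace = ((∑ r, A r r : ℝ) : ℂ) := by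
      simp [Matrix.trace]
    rw [hs2, ht2] at ht
    rw [Finset.sum_sub_distrib]
    simp only [Finset.sum_const, Finset.card_univ, Fintype.card_fin, nsmul_eq_mul, mul_one]
    push_cast at ht ⊢
    rw [ht]; ring
  rw [hprod, hsum, Complex.ofReal_re, Complex.ofReal_re]
  exact hmain

end Pool.Agent.S01731
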