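import Pool.Statements.S01734
import Pool.Agent.H846R3.RF.Final

set_option autoImplicit false
open Pool Pool.MP_65afe3_al

namespace Pool.Agent.S01734

/-- The negation of the preceding statement: There is a group G with a normal subgroup isomorphic to Z^5 and quotient isomorphic to SL_5(Z) that is not residually finite: some nontrivial element lies in every finite-index subgroup. -/
theorem result :
    ¬ (∃ (G : Type) (_ : Group G) (N : Subgroup G) (_ : N.Normal),
      Nonempty (N ≃* Multiplicative (Fin 5 → ℤ)) ∧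
      Nonempty (G ⧸ N ≃* Matrix.SpecialLinearGroup (Fin 5) ℤ) ∧
      ∃ g : G, g ≠ 1 ∧ ∀ H : Subgroup G, H.FiniteIndex → g ∈ H) := by
  rintro ⟨G, hG, N, hN, ⟨φ⟩, ⟨ψ⟩, g, hg1, hg⟩
  exact hg1 (Pool.Agent.H846R3.RF.final N φ ψ g hg)

end Pool.Agent.S01734
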