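import Pool.Statements.S01752
import Pool.Agent.H46R3.LeibNear

set_option autoImplicit false
open Pool Pool.MP_675cf2_al

namespace Pool.Agent.S01752

/-- The negation of the preceding statement: For every n ≥ 2, every irreducible component (Zariski topology on structure constants) of the variety of n-dimensional complex left Leibniz algebras contains an algebra that is not nilpotent. -/
theorem result :
    ¬ (∀ n : ℕ, 2 ≤ n →
  ∀ μ : (Fin n × Fin n × Fin n → ℂ) → (Fin n → ℂ) → (Fin n → ℂ) → (Fin n → ℂ),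
    (∀ c u v, μ c u v = fun k => ∑ i : Fin n, ∑ j : Fin n, u i * v j * c (i, j, k)) →
  ∀ IsClosedZ : Set (Fin n × Fin n × Fin n → ℂ) → Prop,
    (∀ Z, IsClosedZ Z ↔ ∃ S : Set (MvPolynomial (Fin n × Fin n × Fin n) ℂ),
        Z = {c | ∀ p ∈ S, MvPolynomial.eval c p = 0}) →
  ∀ IsIrrZ : Set (Fin n × Fin n × Fin n → ℂ) → Prop,
    (∀ Z, IsIrrZ Z ↔ (IsClosedZ Z ∧ Z.Nonempty ∧
        ∀ A B : Set (Fin n × Fin n × Fin n → ℂ), IsClosedZ A → IsClosedZ B →
          Z ⊆ A ∪ B → (Z ⊆ A ∨ Z ⊆ B))) →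
  ∀ Z : Set (Fin n × Fin n × Fin n → ℂ), IsIrrZ Z →
    (∀ c ∈ Z, ∀ u v w : Fin n → ℂ,
        μ c u (μ c v w) = μ c (μ c u v) w + μ c v (μ c u w)) →
    (∀ Z' : Set (Fin n × Fin n × Fin n → ℂ), IsIrrZ Z' → Z ⊆ Z' →
        (∀ c ∈ Z', ∀ u v w : Fin n → ℂ,
          μ c u (μ c v w) = μ c (μ c u v) w + μ c v (μ c u w)) → Z' = Z) →
    ∃ c ∈ Z, ¬ ∃ V : ℕ → Submodule ℂ (Fin n → ℂ),
        Monotone V ∧ V 0 = ⊥ ∧ (∃ m : ℕ, V m = ⊤) ∧
        ∀ (k : ℕ) (u v : Fin n → ℂ), v ∈ V (k + 1) →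
          (μ c u v ∈ V k ∧ μ c v u ∈ V k)) := by
  intro h
  obtain ⟨Z, hZ, hZL, hmax, hnil⟩ := H46R3.Leib.component
  obtain ⟨c, hc, hcn⟩ := h 6 (by norm_num) H46R3.Leib.mu (fun c u v => rfl)
    H46R3.Leib.Cl (fun Z => Iff.rfl) H46R3.Leib.Irr (fun Z => Iff.rfl) Z hZ hZL
    (fun Z' h1 h2 h3 => hmax Z' h1 h2 h3)
  apply hcn
  have hn := hnil c hc
  let ann : Submodule ℂ (Fin 6 → ℂ) :=
    { carrier := {v | ∀ u, H46R3.Leib.mu c u v = 0 ∧ H46R3.Leib.mu c v u = 0}
      zero_mem' := by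
        intro u
        exact ⟨map_zero (H46R3.Leib.muL c u), by
          show H46R3.Leib.muL c 0 u = 0
          rw [map_zero, LinearMap.zero_apply]⟩
      add_mem' := by
        intro a b ha hb u
        refine ⟨?_, ?_⟩
        · show H46R3.Leib.muL c u (a + b) = 0
          rw [map_add, H46R3.Leib.muL_apply, H46R3.Leib.muL_apply, (ha u).1, (hb u).1, add_zero]
        · show H46R3.Leib.muL c (a + b) u = 0
          rw [map_add, LinearMap.add_apply, H46R3.Leib.muL_apply, H46R3.Leib.muL_apply, (ha u).2,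
            (hb u).2, add_zero]
      smul_mem' := by
        intro r a ha u
        refine ⟨?_, ?_⟩
        · show H46R3.Leib.muL c u (r • a) = 0
          rw [map_smul, H46R3.Leib.muL_apply, (ha u).1, smul_zero]
        · show H46R3.Leib.muL c (r • a) u = 0
          rw [map_smul, LinearMap.smul_apply, H46R3.Leib.muL_apply, (ha u).2, smul_zero] }
  refine ⟨fun k => if k = 0 then ⊥ else if k = 1 then ann else ⊤, ?_, rfl, ⟨2, rfl⟩, ?_⟩
  · intro a b hab
    show (if a = 0 then (⊥ : Submodule ℂ (Fin 6 → ℂ)) else if a = 1 then ann else ⊤) ≤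
      (if b = 0 then ⊥ else if b = 1 then ann else ⊤)
    by_cases ha : a = 0
    · rw [if_pos ha]; exact bot_le
    · have hb0 : b ≠ 0 := by omega
      rw [if_neg ha, if_neg hb0]
      by_cases hb : b = 1
      · have ha1 : a = 1 := by omega
        rw [if_pos ha1, if_pos hb]
      · rw [if_neg hb]; exact le_top
  · intro k u v hv
    rcases k with _ | _ | k
    · have hv' : v ∈ ann := hv
      exact ⟨(hv' u).1, (hv' u).2⟩
    · have key : ∀ x y, H46R3.Leib.mu c x y ∈ ann := by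
        intro x y w
        exact ⟨(hn w x y).1, (hn x y w).2⟩
      exact ⟨key u v, key v u⟩
    · exact ⟨Submodule.mem_top, Submodule.mem_top⟩


end Pool.Agent.S01752
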