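import Pool.Statements.S01791
-- import your own Pool.Agent.* helpers here
import Pool.Agent.Helper816.KZero

set_option autoImplicit false
open Pool Pool.MP_6a591b_al

namespace Pool.Agent.S01791

open MvPolynomial in
lemma ideal_eq (k : Type) [Field k] (n : ℕ) (g : Fin (n+1) → ℕ) :
    Ideal.span
      {p : MvPolynomial (Fin (n+1)) k | ∃ f ∈ RingHom.ker
          (MvPolynomial.aeval (fun j : Fin (n+1) => (Polynomial.X : Polynomial k) ^ g j)),
        ∃ d : ℕ, (∀ m : ℕ, m < d → MvPolynomial.homogeneousComponent m f = 0) ∧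
          p = MvPolynomial.homogeneousComponent d f} =
    Pool.Agent.Helper816.KG.II k g := by
  unfold Pool.Agent.Helper816.KG.II
  rw [← Pool.Agent.Helper816.TCAlg.span_star]
  congr 1
  ext p
  constructor
  · rintro ⟨f, hf, d, h1, h2⟩
    exact ⟨f, hf, d, h2.symm, h1⟩
  · rintro ⟨f, hf, d, h1, h2⟩
    exact ⟨f, hf, d, h2, h1.symm⟩

lemma hmin_of (n : ℕ) (g : Fin (n+1) → ℕ)
    (h : ∀ j, g j ∉ AddSubmonoid.closure (g '' {l | l ≠ j})) (j : Fin (n+1)) :
    ¬ ∃ d : Fin (n+1) → ℕ, d j = 0 ∧ ∑ l, d l * g l = g j := by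
  rintro ⟨d, hd, hs⟩
  apply h j
  rw [← hs]
  apply AddSubmonoid.sum_mem
  intro l _
  by_cases hl : l = j
  · rw [hl, hd, zero_mul]
    exact AddSubmonoid.zero_mem _
  · rw [← smul_eq_mul]
    have h2 : g l ∈ AddSubmonoid.closure (g '' {l | l ≠ j}) :=
      AddSubmonoid.subset_closure ⟨l, hl, rfl⟩
    exact AddSubmonoid.nsmul_mem _ h2 _

/-- For every field k and numerical semigroup with minimal generators g₀<…<gₙ, the i-th Betti number dim Torᵢ^S(S/I*, k) of the tangent cone (I* = initial-form ideal of the toric ideal) is at most i·C(gₙ−g₀+1, i+1) for all i ≥ 1. -/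
theorem result :
  ∀ (k : Type) [Field k] (n : ℕ) (g : Fin (n+1) → ℕ),
    StrictMono g → (∀ j, 0 < g j) →
    ((AddSubmonoid.closure (Set.range g) : Set ℕ)ᶜ).Finite →
    (∀ j, g j ∉ AddSubmonoid.closure (g '' {l | l ≠ j})) →
    ∀ i : ℕ, 1 ≤ i →
      Module.length (MvPolynomial (Fin (n+1)) k)
        (((CategoryTheory.Tor (ModuleCat.{0} (MvPolynomial (Fin (n+1)) k)) i).obj
          (ModuleCat.of (MvPolynomial (Fin (n+1)) k)
            (MvPolynomial (Fin (n+1)) k ⧸ Ideal.span
              {p : MvPolynomial (Fin (n+1)) k | ∃ f ∈ RingHom.ker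
                  (MvPolynomial.aeval (fun j : Fin (n+1) => (Polynomial.X : Polynomial k) ^ g j)),
                ∃ d : ℕ, (∀ m : ℕ, m < d → MvPolynomial.homogeneousComponent m f = 0) ∧
                  p = MvPolynomial.homogeneousComponent d f}))).obj
          (ModuleCat.of (MvPolynomial (Fin (n+1)) k)
            (MvPolynomial (Fin (n+1)) k ⧸
              Ideal.span (Set.range (MvPolynomial.X : Fin (n+1) → MvPolynomial (Fin (n+1)) k)))))
      ≤ ((i * Nat.choose (g (Fin.last n) - g 0 + 1) (i+1) : ℕ) : ℕ∞) := by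
  intro k _ n g hg hpos _ hmin i hi
  have hm := hmin_of n g hmin
  rw [ideal_eq k n g]
  cases n with
  | zero =>
    exact (Pool.Agent.Helper816.KMain.tor_zero k g hg (hpos 0) i hi).trans bot_le
  | succ c =>
    exact Pool.Agent.Helper816.KMain.tor_bound k g hg (hpos 0) hm i hi

end Pool.Agent.S01791
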