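import Pool.Statements.S01825
import Pool.Agent.H268R3.LRS.PFinal

set_option autoImplicit false
open MvPolynomial
open Pool Pool.MP_6d3bd7_al

namespace Pool.Agent.S01825

open Pool.Agent.H268R3.LRS Pool.Agent.H268R3.Soc in
/-- the frozen subspace is the one used in the library -/
lemma sub_eq (F : Type) [Field F] [Fintype F] (m l d : ℕ) (α : Fin l → ℕ) :
    (Submodule.map (Ideal.Quotient.mkₐ F (JN F (Fintype.card F ^ m) (kL (List.ofFn α)))).toLinearMap
          (Submodule.span F {f : MvPolynomial (Fin (kL (List.ofFn α))) F |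
            f ∈ homogeneousSubmodule (Fin (kL (List.ofFn α))) F d ∧
            ∀ M : Matrix (Fin (kL (List.ofFn α))) (Fin (kL (List.ofFn α))) F, IsUnit M.det →
              (∀ (i j : Fin (kL (List.ofFn α))) (k : ℕ),
                j.val < ∑ r ∈ Finset.univ.filter (fun r : Fin l => r.val < k), α r →
                ∑ r ∈ Finset.univ.filter (fun r : Fin l => r.val < k), α r ≤ i.val →
                M i j = 0) →
              aeval (fun j : Fin (kL (List.ofFn α)) => ∑ i : Fin (kL (List.ofFn α)),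
                  (C (M i j) : MvPolynomial (Fin (kL (List.ofFn α))) F)
                    * (X i : MvPolynomial (Fin (kL (List.ofFn α))) F)) f
                - f ∈ JN F (Fintype.card F ^ m) (kL (List.ofFn α))}))
      = VP F (cL (List.ofFn α)) m d := by
  have h : {f : MvPolynomial (Fin (kL (List.ofFn α))) F |
            f ∈ homogeneousSubmodule (Fin (kL (List.ofFn α))) F d ∧
            ∀ M : Matrix (Fin (kL (List.ofFn α))) (Fin (kL (List.ofFn α))) F, IsUnit M.det →
              (∀ (i j : Fin (kL (List.ofFn α))) (k : ℕ),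
                j.val < ∑ r ∈ Finset.univ.filter (fun r : Fin l => r.val < k), α r →
                ∑ r ∈ Finset.univ.filter (fun r : Fin l => r.val < k), α r ≤ i.val →
                M i j = 0) →
              aeval (fun j : Fin (kL (List.ofFn α)) => ∑ i : Fin (kL (List.ofFn α)),
                  (C (M i j) : MvPolynomial (Fin (kL (List.ofFn α))) F)
                    * (X i : MvPolynomial (Fin (kL (List.ofFn α))) F)) f
                - f ∈ JN F (Fintype.card F ^ m) (kL (List.ofFn α))}
      = (WP F (cL (List.ofFn α)) m d : Set _) := by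
    ext f
    constructor
    · rintro ⟨h1, h2⟩
      refine ⟨h1, ?_⟩
      intro g hg
      obtain ⟨h3, h4⟩ := (PG_iff α g).1 hg
      exact h2 g h3 h4
    · rintro ⟨h1, h2⟩
      refine ⟨h1, ?_⟩
      intro g h3 h4
      exact h2 g ((PG_iff α g).2 ⟨h3, h4⟩)
  rw [h, Submodule.span_eq]
  rfl

open Pool.Agent.H268R3.LRS Pool.Agent.H268R3.Soc in
/-- one summand -/
lemma term_eq (F : Type) [Field F] [Fintype F] (m l : ℕ) (β : Fin l → ℕ) (h : ∑ i, β i ≤ m) :
    GFU F (List.ofFn β) m (RatFunc.X : RatFunc ℚ)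
      = (∏ j ∈ Finset.range m, (1 - (RatFunc.X : RatFunc ℚ) ^ (Fintype.card F ^ m - Fintype.card F ^ j))) /
             ((∏ i : Fin l, ∏ j ∈ Finset.range (β i),
                (1 - (RatFunc.X : RatFunc ℚ) ^
                  (Fintype.card F ^ (∑ r ∈ Finset.univ.filter (fun r : Fin l => r.val ≤ i.val), β r)
                   - Fintype.card F ^ ((∑ r ∈ Finset.univ.filter (fun r : Fin l => r.val < i.val), β r) + j)))) *
              ∏ j ∈ Finset.range (m - ∑ i, β i),
                (1 - (RatFunc.X : RatFunc ℚ) ^ (Fintype.card F ^ m - Fintype.card F ^ ((∑ i, β i) + j)))) := by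
  have h1 := GFU_DEN F (RatFunc.X : RatFunc ℚ) (List.ofFn β) m 0 (by rw [kL_ofFn]; exact h)
  have h2 := DEN_ne (Fintype.card F) Fintype.one_lt_card m (List.ofFn β) 0
  have h3 := DEN_ofFn (Fintype.card F) (RatFunc.X : RatFunc ℚ) m β 0
  simp only [zero_add, pow_zero, pow_one] at h1 h3
  rw [← h3, eq_div_iff h2]
  exact h1

/-- For every finite field F_q, all m, n and composition α of n, the Hilbert series of the block-upper-triangular parabolic invariants in F_q[x]/(x_i^{q^m}) equals the sum over β ≤ α with ∣β∣ ≤ m of t^{e(m,α,β)} times the (q,t)-multinomial [m; β, m−∣β∣]. -/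
theorem result :
    ∀ (F : Type) [Field F] [Fintype F] (q m n l : ℕ) (α : Fin l → ℕ)
      (I : Ideal (MvPolynomial (Fin n) F)),
      q = Fintype.card F →
      (∀ i, 0 < α i) → ∑ i, α i = n →
      I = Ideal.span (Set.range (fun i : Fin n => (X i : MvPolynomial (Fin n) F) ^ (q ^ m))) →
      (∑ d ∈ Finset.range (n * q ^ m + 1),
        ((Module.finrank F (Submodule.map (Ideal.Quotient.mkₐ F I).toLinearMap
          (Submodule.span F {f : MvPolynomial (Fin n) F |
            f ∈ homogeneousSubmodule (Fin n) F d ∧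
            ∀ M : Matrix (Fin n) (Fin n) F, IsUnit M.det →
              (∀ (i j : Fin n) (k : ℕ),
                j.val < ∑ r ∈ Finset.univ.filter (fun r : Fin l => r.val < k), α r →
                ∑ r ∈ Finset.univ.filter (fun r : Fin l => r.val < k), α r ≤ i.val →
                M i j = 0) →
              aeval (fun j : Fin n => ∑ i : Fin n,
                  (C (M i j) : MvPolynomial (Fin n) F) * (X i : MvPolynomial (Fin n) F)) f
                - f ∈ I})) : ℕ) : RatFunc ℚ)
          * (RatFunc.X : RatFunc ℚ) ^ d)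
      = ∑ β ∈ (Fintype.piFinset (fun i : Fin l => Finset.range (α i + 1))).filter
              (fun β => ∑ i, β i ≤ m),
          (RatFunc.X : RatFunc ℚ) ^ (∑ i : Fin l, (α i - β i) *
              (q ^ m - q ^ (∑ r ∈ Finset.univ.filter (fun r : Fin l => r.val ≤ i.val), β r)))
          * ((∏ j ∈ Finset.range m, (1 - (RatFunc.X : RatFunc ℚ) ^ (q ^ m - q ^ j))) /
             ((∏ i : Fin l, ∏ j ∈ Finset.range (β i),
                (1 - (RatFunc.X : RatFunc ℚ) ^
                  (q ^ (∑ r ∈ Finset.univ.filter (fun r : Fin l => r.val ≤ i.val), β r)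
                   - q ^ ((∑ r ∈ Finset.univ.filter (fun r : Fin l => r.val < i.val), β r) + j)))) *
              ∏ j ∈ Finset.range (m - ∑ i, β i),
                (1 - (RatFunc.X : RatFunc ℚ) ^ (q ^ m - q ^ ((∑ i, β i) + j))))) := by
  classical
  intro F _ _ q m n l α I hq _ hn hI
  obtain rfl : n = Pool.Agent.H268R3.LRS.kL (List.ofFn α) := by
    rw [Pool.Agent.H268R3.LRS.kL_ofFn]; exact hn.symm
  subst hq
  have hI' : I = Pool.Agent.H268R3.LRS.JN F (Fintype.card F ^ m) (Pool.Agent.H268R3.LRS.kL (List.ofFn α)) := hI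
  subst hI'
  obtain ⟨h1, h2⟩ := Pool.Agent.H268R3.LRS.main_P F (List.ofFn α) m
    (Pool.Agent.H268R3.LRS.kL (List.ofFn α) * Fintype.card F ^ m + 1) (Nat.lt_succ_self _)
  have hL := fun (d : ℕ) (hd : d ∈ Finset.range (Pool.Agent.H268R3.LRS.kL (List.ofFn α) * Fintype.card F ^ m + 1)) =>
    (congrArg (fun S : Submodule F _ => Module.finrank F S) (sub_eq F m l d α)).trans (h1 d hd)
  refine (Finset.sum_congr rfl (fun d hd => congrArg (fun k : ℕ => (k : RatFunc ℚ) * (RatFunc.X : RatFunc ℚ) ^ d)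
    (hL d hd))).trans ?_
  have h3 : ∀ x : Pool.Agent.H268R3.LRS.IT (List.ofFn α),
      ∑ d ∈ Finset.range (Pool.Agent.H268R3.LRS.kL (List.ofFn α) * Fintype.card F ^ m + 1),
        (Pool.Agent.H268R3.LRS.cntP F (Pool.Agent.H268R3.LRS.bof (List.ofFn α) x) m d
          (Pool.Agent.H268R3.LRS.shL (Fintype.card F) m (List.ofFn α)
            (Pool.Agent.H268R3.LRS.bof (List.ofFn α) x) 0) : RatFunc ℚ) * (RatFunc.X : RatFunc ℚ) ^ d
      = (RatFunc.X : RatFunc ℚ) ^ (Pool.Agent.H268R3.LRS.shL (Fintype.card F) m (List.ofFn α)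
            (Pool.Agent.H268R3.LRS.bof (List.ofFn α) x) 0)
        * Pool.Agent.H268R3.LRS.GFU F (Pool.Agent.H268R3.LRS.bof (List.ofFn α) x) m (RatFunc.X : RatFunc ℚ) := by
    intro x
    have h4 := Pool.Agent.H268R3.LRS.count_sum _ _ _ (RatFunc.X : RatFunc ℚ) (h2 x)
    refine h4.trans ?_
    unfold Pool.Agent.H268R3.LRS.GFU
    rw [← Multiset.sum_map_mul_left]
    congr 1
    apply Multiset.map_congr rfl
    intro p _
    rw [pow_add]
  have h5 : ∑ d ∈ Finset.range (Pool.Agent.H268R3.LRS.kL (List.ofFn α) * Fintype.card F ^ m + 1),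
      ((∑ x : Pool.Agent.H268R3.LRS.IT (List.ofFn α),
        Pool.Agent.H268R3.LRS.cntP F (Pool.Agent.H268R3.LRS.bof (List.ofFn α) x) m d
          (Pool.Agent.H268R3.LRS.shL (Fintype.card F) m (List.ofFn α)
            (Pool.Agent.H268R3.LRS.bof (List.ofFn α) x) 0) : ℕ) : RatFunc ℚ) * (RatFunc.X : RatFunc ℚ) ^ d
      = ∑ x : Pool.Agent.H268R3.LRS.IT (List.ofFn α),
        (RatFunc.X : RatFunc ℚ) ^ (Pool.Agent.H268R3.LRS.shL (Fintype.card F) m (List.ofFn α)
            (Pool.Agent.H268R3.LRS.bof (List.ofFn α) x) 0)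
        * Pool.Agent.H268R3.LRS.GFU F (Pool.Agent.H268R3.LRS.bof (List.ofFn α) x) m (RatFunc.X : RatFunc ℚ) := by
    rw [← Finset.sum_congr rfl (fun x _ => h3 x), Finset.sum_comm]
    apply Finset.sum_congr rfl
    intro d _
    push_cast
    rw [Finset.sum_mul]
  refine h5.trans ?_
  rw [Pool.Agent.H268R3.LRS.sum_IT_ofFn α (fun L =>
    (RatFunc.X : RatFunc ℚ) ^ (Pool.Agent.H268R3.LRS.shL (Fintype.card F) m (List.ofFn α) L 0)
        * Pool.Agent.H268R3.LRS.GFU F L m (RatFunc.X : RatFunc ℚ)), Finset.sum_filter]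
  apply Finset.sum_congr rfl
  intro β _
  split_ifs with hβ
  · rw [term_eq F m l β hβ, Pool.Agent.H268R3.LRS.shL_ofFn]
    simp only [zero_add]
  · have h6 : Pool.Agent.H268R3.LRS.GFU F (List.ofFn β) m (RatFunc.X : RatFunc ℚ) = 0 := by
      unfold Pool.Agent.H268R3.LRS.GFU
      rw [Pool.Agent.H268R3.LRS.UM_big F (List.ofFn β) m (by rw [Pool.Agent.H268R3.LRS.kL_ofFn]; omega)]
      simp
    rw [h6, mul_zero]

end Pool.Agent.S01825
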