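import Pool.Statements.S01870
-- import your own Pool.Agent.* helpers here
import Pool.Agent.H146R3.NULoop

set_option autoImplicit false
open Pool Pool.MP_70593a_al

namespace Pool.Agent.S01870

/-- The negation of the preceding statement: If a relation R on a set contains a finite smooth digraph with a closed walk of algebraic length 1, and R is preserved by a near-unanimity operation of arity at least 3, then R contains a loop (a,a). -/
theorem result :
    ¬ (∀ (A : Type) (R : A → A → Prop) (S : Finset (A × A)),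
      (∀ p ∈ S, R p.1 p.2) →
      (∀ p ∈ S, (∃ q ∈ S, q.2 = p.1) ∧ (∃ q ∈ S, q.1 = p.2)) →
      (∃ (k : ℕ) (v : ℕ → A) (e : ℕ → ℤ), v k = v 0 ∧
        (∀ i < k, (e i = 1 ∧ (v i, v (i + 1)) ∈ S) ∨ (e i = -1 ∧ (v (i + 1), v i) ∈ S)) ∧
        ∑ i ∈ Finset.range k, e i = 1) →
      ∀ (n : ℕ) (f : (Fin n → A) → A), 3 ≤ n →
        (∀ (x y : A) (i : Fin n), f (Function.update (fun _ => x) i y) = x) →
        (∀ (x y : Fin n → A), (∀ i, R (x i) (y i)) → R (f x) (f y)) →
        ∃ a : A, R a a) :=
  Pool.Agent.H146R3.NULoop.not_main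

end Pool.Agent.S01870
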