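import Pool.Statements.S01920
-- import your own Pool.Agent.* helpers here

set_option autoImplicit false
open Pool Pool.MP_73ecfa_al

namespace Pool.Agent.S01920

/-- The ten-dimensional space `V + (L0 + L1 + L2)` where `V` is three-dimensional and
`L0, L1, L2` are the exterior powers of `V` of degrees 0, 1, 2. -/
def Alg : Type := Fin 10 → ℚ

instance : AddCommGroup Alg := inferInstanceAs (AddCommGroup (Fin 10 → ℚ))
instance : Module ℚ Alg := inferInstanceAs (Module ℚ (Fin 10 → ℚ))

/-- The product: `V` acts on the exterior powers by exterior multiplication, the exterior power of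
degree three being identified with the one of degree zero. -/
def mulA (x y : Fin 10 → ℚ) : Fin 10 → ℚ :=
  ![0, 0, 0,
    (y 0 * x 7 + y 1 * x 8 + y 2 * x 9) - (x 0 * y 7 + x 1 * y 8 + x 2 * y 9),
    x 3 * y 0 - y 3 * x 0, x 3 * y 1 - y 3 * x 1, x 3 * y 2 - y 3 * x 2,
    (x 1 * y 2 - x 2 * y 1) + (y 1 * x 6 - y 2 * x 5) - (x 1 * y 6 - x 2 * y 5),
    (x 2 * y 0 - x 0 * y 2) + (y 2 * x 4 - y 0 * x 6) - (x 2 * y 4 - x 0 * y 6),
    (x 0 * y 1 - x 1 * y 0) + (y 0 * x 5 - y 1 * x 4) - (x 0 * y 5 - x 1 * y 4)]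

instance : Mul Alg := ⟨mulA⟩

theorem mul_app (x y : Alg) (i : Fin 10) : (x * y) i = mulA x y i := rfl
theorem add_app (x y : Alg) (i : Fin 10) : (x + y) i = x i + y i := rfl
theorem smul_app (r : ℚ) (x : Alg) (i : Fin 10) : (r • x) i = r * x i := rfl
theorem zero_app (i : Fin 10) : (0 : Alg) i = 0 := rfl
theorem neg_app (x : Alg) (i : Fin 10) : (-x) i = - x i := rfl

theorem ext' {x y : Alg} (h : ∀ i : Fin 10, x i = y i) : x = y := funext h

instance : NonUnitalNonAssocRing Alg :=
  { (inferInstance : AddCommGroup Alg), (inferInstance : Mul Alg) with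
    left_distrib := by
      intro a b c
      refine ext' fun i => ?_
      simp only [add_app, mul_app]
      fin_cases i <;> simp [mulA, add_app] <;> ring
    right_distrib := by
      intro a b c
      refine ext' fun i => ?_
      simp only [add_app, mul_app]
      fin_cases i <;> simp [mulA, add_app] <;> ring
    zero_mul := by
      intro a
      refine ext' fun i => ?_
      simp only [mul_app]
      fin_cases i <;> simp [mulA, zero_app]
    mul_zero := by
      intro a
      refine ext' fun i => ?_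
      simp only [mul_app]
      fin_cases i <;> simp [mulA, zero_app] }

instance : IsScalarTower ℚ Alg Alg := ⟨by
  intro r x y
  refine ext' fun i => ?_
  simp only [smul_app, smul_eq_mul, mul_app]
  fin_cases i <;> simp [mulA, smul_app] <;> ring⟩

instance : SMulCommClass ℚ Alg Alg := ⟨by
  intro r x y
  refine ext' fun i => ?_
  simp only [smul_app, smul_eq_mul, mul_app]
  fin_cases i <;> simp [mulA, smul_app] <;> ring⟩

theorem sq_zero (a : Alg) : a * a = 0 := by
  refine ext' fun i => ?_
  simp only [mul_app]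
  fin_cases i <;> simp [mulA, zero_app] <;> ring

theorem anti (a b : Alg) : b * a = -(a * b) := by
  refine ext' fun i => ?_
  simp only [mul_app, neg_app]
  fin_cases i <;> simp [mulA] <;> ring

/-- Membership in the ideal `L0 + L1 + L2`. -/
def Low (x : Alg) : Prop := x 0 = 0 ∧ x 1 = 0 ∧ x 2 = 0

theorem low_mul (x y : Alg) : Low (x * y) := by
  refine ⟨?_, ?_, ?_⟩ <;> simp [mul_app, mulA]

theorem low_mul_low (x y : Alg) (hx : Low x) (hy : Low y) : x * y = 0 := by
  obtain ⟨h0, h1, h2⟩ := hx
  obtain ⟨k0, k1, k2⟩ := hy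
  refine ext' fun i => ?_
  simp only [mul_app]
  fin_cases i <;> simp [mulA, zero_app, h0, h1, h2, k0, k1, k2]

/-- The determinant of three vectors of `V`. -/
def det3 (a b c : Alg) : ℚ :=
  a 0 * (b 1 * c 2 - b 2 * c 1) + a 1 * (b 2 * c 0 - b 0 * c 2) + a 2 * (b 0 * c 1 - b 1 * c 0)

theorem det3_two (v : Fin 2 → Alg) (i j k : Fin 2) : det3 (v i) (v j) (v k) = 0 := by
  fin_cases i <;> fin_cases j <;> fin_cases k <;> simp [det3] <;> ring

theorem five (m a b c d e : Alg) (hm : Low m) (h1 : det3 a b c = 0) (h2 : det3 b c d = 0)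
    (h3 : det3 c d e = 0) : ((((m * a) * b) * c) * d) * e = 0 := by
  obtain ⟨m0, m1, m2⟩ := hm
  simp only [det3] at h1 h2 h3
  refine ext' fun i => ?_
  simp only [zero_app]
  fin_cases i
  · simp [mul_app, mulA]
  · simp [mul_app, mulA]
  · simp [mul_app, mulA]
  · simp [mul_app, mulA, m0, m1, m2]
    linear_combination (-(b 0 * (a 1 * m 6 - a 2 * m 5) + b 1 * (a 2 * m 4 - a 0 * m 6)
      + b 2 * (a 0 * m 5 - a 1 * m 4))) * h3
  · simp [mul_app, mulA, m0, m1, m2]
    left
    linear_combination (-(a 0 * m 7 + a 1 * m 8 + a 2 * m 9)) * h2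
  · simp [mul_app, mulA, m0, m1, m2]
    left
    linear_combination (-(a 0 * m 7 + a 1 * m 8 + a 2 * m 9)) * h2
  · simp [mul_app, mulA, m0, m1, m2]
    left
    linear_combination (-(a 0 * m 7 + a 1 * m 8 + a 2 * m 9)) * h2
  · simp [mul_app, mulA, m0, m1, m2]
    linear_combination (-(m 3 * (e 1 * d 2 - e 2 * d 1))) * h1
  · simp [mul_app, mulA, m0, m1, m2]
    linear_combination (-(m 3 * (e 2 * d 0 - e 0 * d 2))) * h1
  · simp [mul_app, mulA, m0, m1, m2]
    linear_combination (-(m 3 * (e 0 * d 1 - e 1 * d 0))) * h1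

/-- Values reached from the ideal by `n` right multiplications by members of a pair. -/
inductive Good (v : Fin 2 → Alg) : ℕ → Alg → Prop
  | base (m : Alg) (h : Low m) : Good v 0 m
  | step (n : ℕ) (m : Alg) (i : Fin 2) (h : Good v n m) : Good v (n + 1) (m * v i)

theorem Good.low {v : Fin 2 → Alg} {n : ℕ} {m : Alg} (h : Good v n m) : Low m := by
  cases h with
  | base m h => exact h
  | step n m i h => exact low_mul _ _

theorem Good.of_succ {v : Fin 2 → Alg} {n : ℕ} {m : Alg} (h : Good v (n + 1) m) :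
    ∃ (m' : Alg) (i : Fin 2), Good v n m' ∧ m = m' * v i := by
  cases h with
  | step n m' i h => exact ⟨m', i, h, rfl⟩

theorem Good.neg {v : Fin 2 → Alg} {n : ℕ} {m : Alg} (h : Good v n m) : Good v n (-m) := by
  induction h with
  | base m h =>
    refine Good.base _ ⟨?_, ?_, ?_⟩
    · rw [neg_app, h.1, neg_zero]
    · rw [neg_app, h.2.1, neg_zero]
    · rw [neg_app, h.2.2, neg_zero]
  | step n m i h ih =>
    rw [← neg_mul]
    exact Good.step _ _ _ ih

theorem Good.zero (v : Fin 2 → Alg) : ∀ n : ℕ, Good v n 0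
  | 0 => Good.base _ ⟨rfl, rfl, rfl⟩
  | n + 1 => by
    have h := Good.step n 0 0 (Good.zero v n)
    rwa [zero_mul] at h

theorem Good.five {v : Fin 2 → Alg} {n : ℕ} {m : Alg} (hn : 5 ≤ n) (h : Good v n m) : m = 0 := by
  obtain ⟨k, rfl⟩ := Nat.exists_eq_add_of_le hn
  have h' : Good v (k + 1 + 1 + 1 + 1 + 1) m := by
    have : 5 + k = k + 1 + 1 + 1 + 1 + 1 := by omega
    rwa [this] at h
  obtain ⟨m4, i4, g4, rfl⟩ := h'.of_succ
  obtain ⟨m3, i3, g3, rfl⟩ := g4.of_succ
  obtain ⟨m2, i2, g2, rfl⟩ := g3.of_succ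
  obtain ⟨m1, i1, g1, rfl⟩ := g2.of_succ
  obtain ⟨m0, i0, g0, rfl⟩ := g1.of_succ
  exact Pool.Agent.S01920.five m0 _ _ _ _ _ g0.low (det3_two v _ _ _) (det3_two v _ _ _) (det3_two v _ _ _)

theorem word_good (v : Fin 2 → Alg) (w : FreeMagma (Fin 2)) :
    w.length = 1 ∧ (∃ i, FreeMagma.lift v w = v i) ∨
      ∃ n, w.length = n + 2 ∧ Good v n (FreeMagma.lift v w) := by
  induction w with
  | ih1 i => exact Or.inl ⟨rfl, i, by simp⟩
  | ih2 a b iha ihb =>
    right
    rw [map_mul]
    have hlen : (a * b).length = a.length + b.length := rfl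
    rcases iha with ⟨la, i, hi⟩ | ⟨p, hp, gp⟩
    · rcases ihb with ⟨lb, j, hj⟩ | ⟨q, hq, gq⟩
      · exact ⟨0, by rw [hlen, la, lb], Good.base _ (low_mul _ _)⟩
      · refine ⟨q + 1, by rw [hlen, la, hq]; omega, ?_⟩
        rw [hi, anti]
        exact (Good.step _ _ _ gq).neg
    · rcases ihb with ⟨lb, j, hj⟩ | ⟨q, hq, gq⟩
      · refine ⟨p + 1, by rw [hlen, lb, hp], ?_⟩
        rw [hj]
        exact Good.step _ _ _ gp
      · refine ⟨p + q + 2, by rw [hlen, hp, hq]; omega, ?_⟩
        rw [low_mul_low _ _ gp.low gq.low]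
        exact Good.zero v _

theorem word_zero (v : Fin 2 → Alg) (w : FreeMagma (Fin 2)) (hw : 7 ≤ w.length) :
    FreeMagma.lift v w = 0 := by
  rcases word_good v w with ⟨h, -⟩ | ⟨n, hn, g⟩
  · omega
  · exact g.five (by omega)

/-- The three generators. -/
def gen (i : Fin 3) : Alg := fun j => if j.val = i.val then 1 else 0

/-- The basis vector of `L2` reproduced, up to sign, by multiplying by the three generators. -/
def top2 : Alg := fun j => if j.val = 9 then 1 else 0

theorem start_val : gen 0 * gen 1 = top2 := by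
  refine ext' fun i => ?_
  simp only [mul_app]
  fin_cases i <;> simp [mulA, gen, top2]

theorem cycle_val : ((top2 * gen 2) * gen 0) * gen 1 = -top2 := by
  refine ext' fun i => ?_
  simp only [mul_app, neg_app]
  fin_cases i <;> simp [mulA, gen, top2, mul_app]

/-- Longer and longer words in the three generators. -/
def longWord : ℕ → FreeMagma (Fin 3)
  | 0 => FreeMagma.of 0 * FreeMagma.of 1
  | k + 1 => ((longWord k * FreeMagma.of 2) * FreeMagma.of 0) * FreeMagma.of 1

theorem longWord_length (k : ℕ) : (longWord k).length = 3 * k + 2 := by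
  induction k with
  | zero => rfl
  | succ k ih =>
    have : (longWord (k + 1)).length = (((longWord k).length + 1) + 1) + 1 := rfl
    rw [this, ih]; ring

theorem longWord_val (k : ℕ) :
    FreeMagma.lift gen (longWord k) = top2 ∨ FreeMagma.lift gen (longWord k) = -top2 := by
  induction k with
  | zero => left; simp [longWord, start_val]
  | succ k ih =>
    rcases ih with h | h
    · right
      simp only [longWord, map_mul, FreeMagma.lift_of, h]
      exact cycle_val
    · left
      simp only [longWord, map_mul, FreeMagma.lift_of, h]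
      rw [neg_mul, neg_mul, neg_mul, cycle_val, neg_neg]

theorem top2_ne : top2 ≠ 0 := by
  intro h
  have := congrFun h 9
  simp [top2] at this
  exact absurd this (by norm_num [zero_app])

/-- The identities: all words of length at least seven in two variables. -/
def ids : Set (MonoidAlgebra ℚ (FreeMagma ℕ)) :=
  {f | ∃ w : FreeMagma (Fin 2), 7 ≤ w.length ∧
    f = MonoidAlgebra.single (FreeMagma.map (fun i : Fin 2 => (i : ℕ)) w) 1}

theorem lift_map' {A : Type} [Mul A] (v : ℕ → A) (w : FreeMagma (Fin 2)) :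
    FreeMagma.lift v (FreeMagma.map (fun i : Fin 2 => (i : ℕ)) w) =
      FreeMagma.lift (fun i : Fin 2 => v i) w := by
  induction w with
  | ih1 i => simp
  | ih2 a b iha ihb => rw [map_mul, map_mul, iha, ihb, map_mul]

theorem liftMagma_single' {A : Type} [NonUnitalNonAssocRing A] [Module ℚ A]
    [IsScalarTower ℚ A A] [SMulCommClass ℚ A A] (v : ℕ → A) (w : FreeMagma ℕ) :
    MonoidAlgebra.liftMagma ℚ (FreeMagma.lift v) (MonoidAlgebra.single w 1) =
      FreeMagma.lift v w := by
  simp [MonoidAlgebra.liftMagma]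

/-- The negation of the preceding statement: For any field and any variety of anticommutative algebras given by identities: if for some n at least 2 all long enough products of any n elements vanish uniformly, then every finitely generated algebra of the variety is nilpotent. -/
theorem result :
    ¬ (∀ (K : Type) [Field K] (S : Set (MonoidAlgebra K (FreeMagma ℕ))) (n : ℕ), 2 ≤ n →
      (∃ c : ℕ, ∀ (A : Type) [NonUnitalNonAssocRing A] [Module K A]
          [IsScalarTower K A A] [SMulCommClass K A A],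
          (∀ a : A, a * a = 0) →
          (∀ f ∈ S, ∀ v : ℕ → A, MonoidAlgebra.liftMagma K (FreeMagma.lift v) f = 0) →
          ∀ (x : Fin n → A) (w : FreeMagma (Fin n)), c ≤ w.length → FreeMagma.lift x w = 0) →
      ∀ (A : Type) [NonUnitalNonAssocRing A] [Module K A]
          [IsScalarTower K A A] [SMulCommClass K A A],
          (∀ a : A, a * a = 0) →
          (∀ f ∈ S, ∀ v : ℕ → A, MonoidAlgebra.liftMagma K (FreeMagma.lift v) f = 0) →
          ∀ (m : ℕ) (x : Fin m → A), ∃ c : ℕ,
            ∀ w : FreeMagma (Fin m), c ≤ w.length → FreeMagma.lift x w = 0) := by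
  intro H
  obtain ⟨c, hc⟩ := H ℚ ids 2 le_rfl
    ⟨7, by
      intro A _ _ _ _ _ hS x w hw
      have h := hS _ ⟨w, hw, rfl⟩ (fun k => if h : k < 2 then x ⟨k, h⟩ else 0)
      rw [liftMagma_single', lift_map'] at h
      have e : (fun i : Fin 2 => (fun k => if h : k < 2 then x ⟨k, h⟩ else 0) (i : ℕ)) = x := by
        funext i
        exact dif_pos i.isLt
      rwa [e] at h⟩
    Alg sq_zero
    (by
      rintro f ⟨w, hw, rfl⟩ v
      rw [liftMagma_single', lift_map']
      exact word_zero _ w hw)
    3 gen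
  have h := hc (longWord c) (by rw [longWord_length]; omega)
  rcases longWord_val c with h' | h'
  · exact top2_ne (h'.symm.trans h)
  · exact top2_ne (neg_eq_zero.mp (h'.symm.trans h))

end Pool.Agent.S01920
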