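import Pool.Statements.S01961
-- import your own Pool.Agent.* helpers here
import Pool.Agent.H709R3.Pate2

set_option autoImplicit false
open scoped ComplexOrder
open Pool Pool.MP_7742c6_al

namespace Pool.Agent.S01961

open Pool.Agent.H709R3 MvPolynomial ComplexConjugate

open scoped MatrixOrder in
lemma exists_factor {m : ℕ} (A : Matrix (Fin m) (Fin m) ℂ) (hA : A.PosSemidef) :
    ∃ b : Fin m → Fin m → ℂ, ∀ i j, A i j = dot (b i) (b j) := by
  obtain ⟨B, hB⟩ := CStarAlgebra.nonneg_iff_eq_star_mul_self.mp hA.nonneg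
  refine ⟨fun i k => B k i, fun i j => ?_⟩
  rw [hB, Matrix.mul_apply]
  unfold dot
  refine Finset.sum_congr rfl fun k _ => ?_
  rw [Matrix.star_apply]
  rfl

/-- For every complex positive semidefinite matrix A of size at least 2, a11·per A(1∣1) − a12·per A(1∣2) − a21·per A(2∣1) + a22·per A(2∣2) is at most 2·per A, comparing real parts since both sides are real. -/
theorem result :
    ∀ (n : ℕ) (A : Matrix (Fin (n+2)) (Fin (n+2)) ℂ), A.PosSemidef →
      (A 0 0 * (A.submatrix (Fin.succAbove (0 : Fin (n+2))) (Fin.succAbove (0 : Fin (n+2)))).permanent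
        - A 0 1 * (A.submatrix (Fin.succAbove (0 : Fin (n+2))) (Fin.succAbove (1 : Fin (n+2)))).permanent
        - A 1 0 * (A.submatrix (Fin.succAbove (1 : Fin (n+2))) (Fin.succAbove (0 : Fin (n+2)))).permanent
        + A 1 1 * (A.submatrix (Fin.succAbove (1 : Fin (n+2))) (Fin.succAbove (1 : Fin (n+2)))).permanent).re
      ≤ 2 * (A.permanent).re := by
  intro n A hA
  obtain ⟨b, hb⟩ := exists_factor A hA
  set g : MvPolynomial (Fin (n+2)) ℂ := ∏ k : Fin n, ell (b k.succ.succ) with hg
  -- the products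
  have P : ∏ i, ell (b i) = ell (b 0) * (ell (b 1) * g) := by
    rw [Fin.prod_univ_succ, Fin.prod_univ_succ]
    rfl
  have P0 : ∏ i : Fin (n+1), ell (b (Fin.succAbove 0 i)) = ell (b 1) * g := by
    rw [Fin.prod_univ_succ]
    rfl
  have P1 : ∏ i : Fin (n+1), ell (b (Fin.succAbove 1 i)) = ell (b 0) * g := by
    rw [Fin.prod_univ_succ]
    congr 1
  -- the permanents
  have key : ∀ r c : Fin (n+2), (A.submatrix (Fin.succAbove r) (Fin.succAbove c)).permanent
      = ip (∏ i : Fin (n+1), ell (b (Fin.succAbove r i)))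
          (∏ i : Fin (n+1), ell (b (Fin.succAbove c i))) := by
    intro r c
    rw [wick (fun i => b (Fin.succAbove r i)) (fun i => b (Fin.succAbove c i))]
    congr 1
    ext i j
    exact hb _ _
  have keyA : A.permanent = ip (∏ i, ell (b i)) (∏ i, ell (b i)) := by
    rw [wick]
    congr 1
    ext i j
    exact hb _ _
  rw [key, key, key, key, keyA, P, P0, P1, ip_self, ip_self, ip_self, Complex.ofReal_re,
    hb 0 0, hb 0 1, hb 1 0, hb 1 1]
  have h := general (b 0) (b 1) g
  have hc : (dot (b 1) (b 0) * ip (ell (b 0) * g) (ell (b 1) * g)).re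
      = (dot (b 0) (b 1) * ip (ell (b 1) * g) (ell (b 0) * g)).re := by
    rw [← dot_conj (b 0) (b 1), ← ip_conj (ell (b 1) * g) (ell (b 0) * g), ← map_mul,
      Complex.conj_re]
  rw [Complex.add_re, Complex.sub_re, Complex.sub_re, Complex.re_mul_ofReal, Complex.re_mul_ofReal,
    hc]
  linarith

end Pool.Agent.S01961
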