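import Pool.Statements.S02054
import Pool.Agent.H599R3.Wr

set_option autoImplicit false
open Pool Pool.MP_7ddd63_al

namespace Pool.Agent.S02054

/-- The negation of the preceding statement: For every semigroup presentation with non-empty relation words and every non-empty base word, the diagram group (loops at the base word in the Squier complex modulo homotopy) embeds in some right-angled Artin group if and only if it has no subgroup isomorphic to Z wr Z. -/
theorem result :
    ¬ (∀ (A : Type) (R : Set (List A × List A)) (w : List A),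
    (∀ p ∈ R, p.1 ≠ [] ∧ p.2 ≠ []) → w ≠ [] →
    ∀ (src tgt : List A × (List A × List A) × List A × Bool → List A),
    (∀ (x u v y : List A) (b : Bool), src (x, (u, v), y, b) = x ++ (if b then u else v) ++ y) →
    (∀ (x u v y : List A) (b : Bool), tgt (x, (u, v), y, b) = x ++ (if b then v else u) ++ y) →
    ∀ (path : List (List A × (List A × List A) × List A × Bool) → Prop),
    (∀ l, path l ↔ ((∀ s ∈ l, s.2.1 ∈ R) ∧
        ∀ (i : ℕ) (s t : List A × (List A × List A) × List A × Bool),
          l[i]? = some s → l[i+1]? = some t → tgt s = src t)) →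
    ∀ (loop : List (List A × (List A × List A) × List A × Bool) → Prop),
    (∀ l, loop l ↔ (path l ∧ (∀ s ∈ l.head?, src s = w) ∧ (∀ s ∈ l.getLast?, tgt s = w))) →
    ∀ (move : List (List A × (List A × List A) × List A × Bool) →
        List (List A × (List A × List A) × List A × Bool) → Prop),
    (∀ a b, move a b ↔ (path a ∧ path b ∧
       ((∃ (p q : List (List A × (List A × List A) × List A × Bool)) (x u v y : List A) (c : Bool),
            a = p ++ q ∧ b = p ++ [(x, (u, v), y, c), (x, (u, v), y, !c)] ++ q) ∨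
        (∃ (p q : List (List A × (List A × List A) × List A × Bool)) (x u₁ v₁ y u₂ v₂ z : List A),
            a = p ++ [(x, (u₁, v₁), y ++ u₂ ++ z, true), (x ++ v₁ ++ y, (u₂, v₂), z, true)] ++ q ∧
            b = p ++ [(x ++ u₁ ++ y, (u₂, v₂), z, true), (x, (u₁, v₁), y ++ v₂ ++ z, true)] ++ q)))) →
    ((∃ (V : Type) (Γ : SimpleGraph V)
        (f : List (List A × (List A × List A) × List A × Bool) →
          PresentedGroup {r : FreeGroup V | ∃ s t, Γ.Adj s t ∧
            r = FreeGroup.of s * FreeGroup.of t * (FreeGroup.of s)⁻¹ * (FreeGroup.of t)⁻¹}),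
        (∀ p q, loop p → loop q → f (p ++ q) = f p * f q) ∧
        (∀ p q, loop p → loop q → (f p = f q ↔ Quot.mk move p = Quot.mk move q)))
     ↔ ¬ ∃ g : SemidirectProduct (Multiplicative (ℤ →₀ ℤ)) (Multiplicative ℤ)
            (zpowersHom (MulAut (Multiplicative (ℤ →₀ ℤ)))
              (AddEquiv.toMultiplicative
                (Finsupp.domCongr (Equiv.addRight (1 : ℤ)) : (ℤ →₀ ℤ) ≃+ (ℤ →₀ ℤ)))) →
            List (List A × (List A × List A) × List A × Bool),
          (∀ a, loop (g a)) ∧
          (∀ a b, Quot.mk move (g (a * b)) = Quot.mk move (g a ++ g b)) ∧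
          (∀ a b, Quot.mk move (g a) = Quot.mk move (g b) → a = b))) := by
  intro hall
  have h := hall Pool.Agent.H599R3.Al Pool.Agent.H599R3.R0 (Pool.Agent.H599R3.W 0)
    (by
      rintro r ⟨c, rfl | rfl⟩
      · exact ⟨List.cons_ne_nil _ _, List.cons_ne_nil _ _⟩
      · exact ⟨List.cons_ne_nil _ _, by simp⟩)
    (List.cons_ne_nil _ _)
    Pool.Agent.H599R3.src Pool.Agent.H599R3.tgt (fun _ _ _ _ _ => rfl) (fun _ _ _ _ _ => rfl)
    (Pool.Agent.H599R3.pathP Pool.Agent.H599R3.R0) (fun _ => Iff.rfl)
    (fun l => Pool.Agent.H599R3.Walk Pool.Agent.H599R3.R0 (Pool.Agent.H599R3.W 0)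
      (Pool.Agent.H599R3.W 0) l) (fun _ => Pool.Agent.H599R3.loop_iff)
    (Pool.Agent.H599R3.mv Pool.Agent.H599R3.R0) (fun _ _ => Iff.rfl)
  obtain ⟨V, Γ, f, hf1, hf2⟩ := h.2 (by
    rintro ⟨g, hg1, hg2, hg3⟩
    let j : Pool.Agent.H599R3.WZ →* Pool.Agent.H599R3.GG :=
      MonoidHom.mk' (fun a => ((g a).map Pool.Agent.H599R3.lamG).prod) (by
        intro a b
        have h1 := Pool.Agent.H599R3.lab_quot Pool.Agent.H599R3.isLab (hg2 a b)
        rw [List.map_append, List.prod_append] at h1
        exact h1)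
    apply Pool.Agent.H599R3.no_wr j
    intro a b hab
    apply hg3
    apply Pool.Agent.H599R3.quot_of_cls (hg1 a) (hg1 b)
    apply Pool.Agent.H599R3.LL_inj
    have h2 := Pool.Agent.H599R3.labHom_cls Pool.Agent.H599R3.isLab (hg1 a)
    have h3 := Pool.Agent.H599R3.labHom_cls Pool.Agent.H599R3.isLab (hg1 b)
    exact (h2.trans hab).trans h3.symm)
  let φ : Pool.Agent.H599R3.DD →* Pool.Agent.H599R3.AG Γ :=
    MonoidHom.mk' (Quot.lift (fun p => f p.1) (fun p q hpq =>
      (hf2 p.1 q.1 p.2 q.2).2 (Quot.sound hpq))) (by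
      intro a b
      induction a using Quot.ind with
      | mk a =>
      induction b using Quot.ind with
      | mk b => exact hf1 a.1 b.1 a.2 b.2)
  apply Pool.Agent.H599R3.not_raag Γ φ
  intro a b hab
  induction a using Quot.ind with
  | mk a =>
  induction b using Quot.ind with
  | mk b =>
  have h4 : Quot.mk (Pool.Agent.H599R3.mv Pool.Agent.H599R3.R0) a.1 =
      Quot.mk (Pool.Agent.H599R3.mv Pool.Agent.H599R3.R0) b.1 := (hf2 a.1 b.1 a.2 b.2).1 hab
  apply Pool.Agent.H599R3.LL_inj
  exact Pool.Agent.H599R3.lab_quot Pool.Agent.H599R3.isLab h4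

end Pool.Agent.S02054
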