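import Pool.Statements.S02070
import Pool.Agent.H327R3.PadicFacts

set_option autoImplicit false
open Pool Pool.MP_7ed69f_al

namespace Pool.Agent.S02070

/-- The negation of the preceding statement: For all N,r ≥ 2 there is a finite set of integer polynomials of degree ≤ C(N,2)·r whose values at q are exactly the dimensions of irreducible complex reps of GL_N(o/p^r) nontrivial on the level-(r−1) kernel, for every compact DVR o. -/
theorem result :
    ¬ (∀ N r : ℕ, 2 ≤ N → 2 ≤ r →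
    ∃ P : Finset (Polynomial ℤ), (∀ d ∈ P, d.natDegree ≤ N.choose 2 * r) ∧
    ∀ (R : Type) [CommRing R] [IsDomain R] [IsDiscreteValuationRing R]
      [Finite (IsLocalRing.ResidueField R)]
      [IsAdicComplete (IsLocalRing.maximalIdeal R) R],
    {z : ℤ | ∃ (V : Type) (_ : AddCommGroup V) (_ : Module ℂ V)
        (ρ : Representation ℂ
          (Matrix.GeneralLinearGroup (Fin N) (R ⧸ IsLocalRing.maximalIdeal R ^ r)) V),
        FiniteDimensional ℂ V ∧ Nontrivial V ∧
        (∀ W : Submodule ℂ V, (∀ g v, v ∈ W → ρ g v ∈ W) → W = ⊥ ∨ W = ⊤) ∧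
        (∃ g : Matrix.GeneralLinearGroup (Fin N) (R ⧸ IsLocalRing.maximalIdeal R ^ r),
          (∀ i j, ∃ a ∈ IsLocalRing.maximalIdeal R ^ (r - 1),
            g.val i j
              - (1 : Matrix (Fin N) (Fin N) (R ⧸ IsLocalRing.maximalIdeal R ^ r)) i j
              = Ideal.Quotient.mk (IsLocalRing.maximalIdeal R ^ r) a) ∧ ρ g ≠ 1) ∧
        (Module.finrank ℂ V : ℤ) = z}
    = (fun d : Polynomial ℤ => d.eval (Nat.card (IsLocalRing.ResidueField R) : ℤ)) ''
        (P : Set (Polynomial ℤ))) := by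
  intro hmain
  obtain ⟨P, _, hP⟩ := hmain 3 2 (by norm_num) (by norm_num)
  -- for every odd prime the large dimension occurs
  have key : ∀ (p : ℕ) (hp : p.Prime), p ≠ 2 →
      ∃ d ∈ P, d.eval (p : ℤ) = H327R3.bigPoly.eval (p : ℤ) := by
    intro p hp hp2
    haveI : Fact p.Prime := ⟨hp⟩
    have h1 := hP ℤ_[p]
    have hcard : Nat.card (IsLocalRing.ResidueField ℤ_[p]) = p := by
      rw [Nat.card_congr PadicInt.residueField.toEquiv, Nat.card_zmod]
    rw [hcard] at h1
    obtain ⟨V, iV1, iV2, ρ, a1, a2, a3, ⟨g, hg, hg1⟩, a5⟩ := H327R3.exists_large p hp2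
    have h2 : ((Module.finrank ℂ V : ℕ) : ℤ) ∈ (fun d : Polynomial ℤ => d.eval (p : ℤ)) ''
        (P : Set (Polynomial ℤ)) := by
      rw [← h1]
      refine ⟨V, iV1, iV2, ρ, a1, a2, a3, ⟨g, ?_, hg1⟩, rfl⟩
      intro i j
      obtain ⟨a, ha⟩ := Ideal.Quotient.mk_surjective
        (g.val i j - (1 : Matrix (Fin 3) (Fin 3) (ℤ_[p] ⧸ IsLocalRing.maximalIdeal ℤ_[p] ^ 2)) i j)
      refine ⟨a, ?_, ha.symm⟩
      have h3 : H327R3.piP p (Ideal.Quotient.mk _ a) = 0 := by
        rw [ha, map_sub, H327R3.mem_Ksub.1 hg, Matrix.one_apply, Matrix.one_apply]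
        split_ifs <;> simp
      rw [H327R3.piP_mk_eq_zero] at h3
      simpa using h3
    obtain ⟨d, hd, hd2⟩ := h2
    exact ⟨d, hd, hd2.trans (H327R3.dim_formula p hp.two_le _ a5)⟩
  -- hence the polynomial belongs to the family
  have hmem : H327R3.bigPoly ∈ P := by
    by_contra hnot
    have hfin : {p : ℕ | p.Prime ∧ p ≠ 2}.Infinite := by
      have := Nat.infinite_setOf_prime.diff (Set.finite_singleton 2)
      exact this
    apply hfin
    have hsub : {p : ℕ | p.Prime ∧ p ≠ 2} ⊆ ⋃ d ∈ P,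
        {p : ℕ | d.eval (p : ℤ) = H327R3.bigPoly.eval (p : ℤ)} := by
      rintro p ⟨hp, hp2⟩
      obtain ⟨d, hd, hd2⟩ := key p hp hp2
      exact Set.mem_biUnion hd hd2
    refine Set.Finite.subset (Set.Finite.biUnion P.finite_toSet ?_) hsub
    intro d hd
    by_contra hinf
    have h4 : {x : ℤ | d.eval x = H327R3.bigPoly.eval x}.Infinite := by
      have h5 := Set.Infinite.image (f := fun n : ℕ => (n : ℤ))
        (Nat.cast_injective.injOn) hinf
      refine h5.mono ?_
      rintro x ⟨n, hn, rfl⟩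
      exact hn
    have h6 := Polynomial.eq_of_infinite_eval_eq _ _ h4
    exact hnot (h6 ▸ hd)
  -- but the value at `2` is not a dimension
  haveI : Fact (Nat.Prime 2) := ⟨Nat.prime_two⟩
  have h1 := hP ℤ_[2]
  have hcard : Nat.card (IsLocalRing.ResidueField ℤ_[2]) = 2 := by
    rw [Nat.card_congr PadicInt.residueField.toEquiv, Nat.card_zmod]
  rw [hcard] at h1
  have h7 : H327R3.bigPoly.eval ((2 : ℕ) : ℤ) ∈ (fun d : Polynomial ℤ => d.eval ((2 : ℕ) : ℤ)) ''
        (P : Set (Polynomial ℤ)) := ⟨_, hmem, rfl⟩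
  rw [← h1] at h7
  obtain ⟨V, iV1, iV2, ρ, a1, a2, a3, _, a5⟩ := h7
  have h8 := H327R3.bound_two V ρ a3
  have h9 : H327R3.bigPoly.eval ((2 : ℕ) : ℤ) = 168 := by
    simp [H327R3.bigPoly]
  rw [h9] at a5
  omega

end Pool.Agent.S02070
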