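import Pool.Statements.S02080
import Pool.Agent.H135R3.SDFinal

set_option autoImplicit false
open Pool Pool.MP_7ffbdd_al

namespace Pool.Agent.S02080

/-- The negation of the preceding statement: For every nonzero monomial ideal I in K[x1..xn], any I-regular sequence of length d in the maximal ideal gives a Stanley decomposition of I (a partition of its monomials into cones u·K[Z]) with every ∣Z∣ at least d, i.e. sdepth I ≥ depth I. -/
theorem result :
    ¬ (∀ (n : ℕ) (K : Type) [Field K] (I : Ideal (MvPolynomial (Fin n) K)),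
      (∃ s : Set (Fin n →₀ ℕ),
        I = Ideal.span ((fun a => MvPolynomial.monomial a (1 : K)) '' s)) →
      I ≠ ⊥ →
      ∀ rs : List (MvPolynomial (Fin n) K),
        (∀ r ∈ rs, MvPolynomial.constantCoeff r = 0) →
        RingTheory.Sequence.IsRegular (↥I) rs →
        ∃ D : Finset ((Fin n →₀ ℕ) × Finset (Fin n)),
          (∀ p ∈ D, rs.length ≤ p.2.card) ∧
          (∀ p ∈ D, ∀ b : Fin n →₀ ℕ, b.support ⊆ p.2 →
            MvPolynomial.monomial (p.1 + b) (1 : K) ∈ I) ∧
          ∀ a : Fin n →₀ ℕ, MvPolynomial.monomial a (1 : K) ∈ I →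
            ∃! p, p ∈ D ∧ ∃ b : Fin n →₀ ℕ, b.support ⊆ p.2 ∧ a = p.1 + b) := by
  intro h
  exact H135R3.SD2.no_stanley (h 31 ℚ H135R3.SD2.J ⟨_, rfl⟩ H135R3.SD2.J_ne_bot H135R3.SD2.seq
    H135R3.SD2.seq_const H135R3.SD2.reg)

end Pool.Agent.S02080
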