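import Pool.Statements.S02107
import Pool.Agent.H975R3.MaxN

set_option autoImplicit false
open Pool Pool.MP_82c744_al

namespace Pool.Agent.S02107

/-- Let G be finitely generated, and suppose countably many groups cover, up to isomorphism, all finitely generated groups satisfying every law of G. Then every increasing chain of normal subgroups of G eventually stabilizes. -/
theorem result :
    ∀ (G : Type) [Group G], Group.FG G →
      (∃ (T : ℕ → Type) (_ : ∀ n, Group (T n)),
        ∀ (H : Type) [Group H], Group.FG H →
          (∀ w : FreeGroup ℕ, (∀ f : FreeGroup ℕ →* G, f w = 1) →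
            ∀ f : FreeGroup ℕ →* H, f w = 1) →
          ∃ n, Nonempty (H ≃* T n)) →
      ∀ N : ℕ → Subgroup G, (∀ n, (N n).Normal) → Monotone N →
        ∃ k, ∀ m, k ≤ m → N m = N k := by
  intro G _ hfg hs N hN hmono
  exact Pool.Agent.H975R3.maxn_of_nb (Pool.Agent.Helper730.SM.nb_of_small hs) hfg N hN hmono

end Pool.Agent.S02107
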