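import Pool.Statements.S02188
import Pool.Agent.H42R3.Mark2

set_option autoImplicit false
open Cardinal
open Pool Pool.MP_8859ef_al

namespace Pool.Agent.S02188

/-- The negation of the preceding statement: For every group G of cardinality at most 2^continuum and every countable family of subsets of G, some Hausdorff group topology on G gives each set in the family the same closure as the Markov topology (intersection of all Hausdorff group topologies). -/
theorem result :
    ¬ (∀ (G : Type) [Group G], Cardinal.mk G ≤ 2 ^ Cardinal.continuum →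
      ∀ (E : Set (Set G)), E.Countable →
        ∃ t : TopologicalSpace G, @IsTopologicalGroup G t _ ∧ @T2Space G t ∧
          ∀ e ∈ E, @closure G t e =
            @closure G (sSup {s : TopologicalSpace G | @IsTopologicalGroup G s _ ∧ @T2Space G s}) e) := by
  intro H
  obtain ⟨t, ht1, ht2, ht⟩ := H Pool.Agent.H42R3.Mark.HG Pool.Agent.H42R3.Mark.card_HG
    {Set.range Pool.Agent.H42R3.Mark.xx, Set.range Pool.Agent.H42R3.Mark.yy}
    (Set.toFinite _).countable
  obtain ⟨t1, h11, h12, h13⟩ := Pool.Agent.H42R3.Mark.exists_topology Pool.Agent.H42R3.Mark.K1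
    Pool.Agent.H42R3.Mark.K1_center
  obtain ⟨t2, h21, h22, h23⟩ := Pool.Agent.H42R3.Mark.exists_topology Pool.Agent.H42R3.Mark.K2
    Pool.Agent.H42R3.Mark.K2_center
  apply Pool.Agent.H42R3.Mark.key t ht1 ht2
  · rw [ht _ (Set.mem_insert _ _)]
    refine Pool.Agent.H42R3.Mark.closure_le t1 _ ?_ _
      (h13 _ Pool.Agent.H42R3.Mark.E1_cl)
    exact le_sSup (show t1 ∈ {s : TopologicalSpace Pool.Agent.H42R3.Mark.HG |
      @IsTopologicalGroup _ s _ ∧ @T2Space _ s} from ⟨h11, h12⟩)
  · rw [ht _ (Set.mem_insert_of_mem _ (Set.mem_singleton _))]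
    refine Pool.Agent.H42R3.Mark.closure_le t2 _ ?_ _
      (h23 _ Pool.Agent.H42R3.Mark.E2_cl)
    exact le_sSup (show t2 ∈ {s : TopologicalSpace Pool.Agent.H42R3.Mark.HG |
      @IsTopologicalGroup _ s _ ∧ @T2Space _ s} from ⟨h21, h22⟩)

end Pool.Agent.S02188
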