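import Pool.Statements.S02249
import Pool.Agent.Helper634.IAFinal

set_option autoImplicit false
open Pool Pool.MP_8fc759_al

namespace Pool.Agent.S02249

/-- For every free group F on an infinite basis, some IA-automorphism α of F has normal closure in Aut F equal to the set of all IA-automorphisms of F, i.e. those β with β(x)x⁻¹ in [F,F] for all x. -/
theorem result :
    ∀ (X : Type) [Infinite X], ∃ α : MulAut (FreeGroup X),
      (∀ x : FreeGroup X, α x * x⁻¹ ∈ commutator (FreeGroup X)) ∧
      (∀ β : MulAut (FreeGroup X),
        (β ∈ Subgroup.normalClosure ({α} : Set (MulAut (FreeGroup X))) ↔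
          ∀ x : FreeGroup X, β x * x⁻¹ ∈ commutator (FreeGroup X))) := by
  intro X _
  exact Pool.Agent.Helper634.FA.thm_C' X

end Pool.Agent.S02249
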