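-- Proof of frozen statement S02286: the Zariski topology of a product of infinitely many copies of
-- S_3 is compact (it is coarser than the compact product topology) but not Noetherian (the
-- centralisers of the elements supported on one coordinate give an infinite descending chain).
import Pool.Statements.S02286

set_option autoImplicit false
open Pool Pool.MP_91b10e_al

namespace Pool.Agent.S02286

/-- The solution sets of words with constants are closed in every Hausdorff group topology. -/
theorem continuous_word {G : Type} [Group G] [TopologicalSpace G] [IsTopologicalGroup G]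
    (w : Monoid.Coprod G (Multiplicative ℤ)) :
    Continuous fun x : G => Monoid.Coprod.lift (MonoidHom.id G) (zpowersHom G x) w := by
  induction w using Monoid.Coprod.induction_on with
  | inl g => simpa using continuous_const
  | inr n =>
    simp only [Monoid.Coprod.lift_apply_inr, zpowersHom_apply]
    exact continuous_zpow _
  | mul a b ha hb =>
    simp only [map_mul]
    exact ha.mul hb

/-- The group: countably many copies of `S_3`. -/
abbrev GG : Type := ℕ → Equiv.Perm (Fin 3)

/-- A transposition. -/
abbrev tr : Equiv.Perm (Fin 3) := Equiv.swap 0 1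

/-- Another transposition, not commuting with `tr`. -/
abbrev ts : Equiv.Perm (Fin 3) := Equiv.swap 1 2

theorem compact_aux :
    @IsCompact GG
        (TopologicalSpace.generateFrom
          {U : Set GG | ∃ w : Monoid.Coprod GG (Multiplicative ℤ),
            U = {x : GG | Monoid.Coprod.lift (MonoidHom.id GG) (zpowersHom GG x) w ≠ 1}})
        Set.univ := by
  letI i1 : TopologicalSpace (Equiv.Perm (Fin 3)) := ⊥
  haveI i2 : DiscreteTopology (Equiv.Perm (Fin 3)) := ⟨rfl⟩
  haveI i3 : IsTopologicalGroup (Equiv.Perm (Fin 3)) := inferInstance
  have h : (inferInstance : TopologicalSpace GG) ≤ (TopologicalSpace.generateFrom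
          {U : Set GG | ∃ w : Monoid.Coprod GG (Multiplicative ℤ),
            U = {x : GG | Monoid.Coprod.lift (MonoidHom.id GG) (zpowersHom GG x) w ≠ 1}}) := by
    apply le_generateFrom
    rintro U ⟨w, rfl⟩
    exact (isClosed_singleton (x := (1 : GG))).isOpen_compl.preimage (continuous_word w)
  have h2 : IsCompact (Set.univ : Set GG) := isCompact_univ
  have h3 := @IsCompact.image GG GG inferInstance (TopologicalSpace.generateFrom
          {U : Set GG | ∃ w : Monoid.Coprod GG (Multiplicative ℤ),
            U = {x : GG | Monoid.Coprod.lift (MonoidHom.id GG) (zpowersHom GG x) w ≠ 1}})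
      Set.univ id h2 (continuous_id_iff_le.2 h)
  rwa [Set.image_id] at h3

/-- The negation of the preceding statement: For every group G, if the Zariski topology (closed subbasis: solution sets of one-variable equations with constants from G) is compact, then it is Noetherian. -/
theorem result :
    ¬ (∀ (G : Type) [Group G],
      @IsCompact G
        (TopologicalSpace.generateFrom
          {U : Set G | ∃ w : Monoid.Coprod G (Multiplicative ℤ),
            U = {x : G | Monoid.Coprod.lift (MonoidHom.id G) (zpowersHom G x) w ≠ 1}})
        Set.univ →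
      @TopologicalSpace.NoetherianSpace G
        (TopologicalSpace.generateFrom
          {U : Set G | ∃ w : Monoid.Coprod G (Multiplicative ℤ),
            U = {x : G | Monoid.Coprod.lift (MonoidHom.id G) (zpowersHom G x) w ≠ 1}})) := by
  intro H
  have hN := H GG compact_aux
  letI τ : TopologicalSpace GG := TopologicalSpace.generateFrom
          {U : Set GG | ∃ w : Monoid.Coprod GG (Multiplicative ℤ),
            U = {x : GG | Monoid.Coprod.lift (MonoidHom.id GG) (zpowersHom GG x) w ≠ 1}}
  haveI : TopologicalSpace.NoetherianSpace GG := hN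
  let U : ℕ → Set GG := fun k => {x | x * Pi.mulSingle k tr ≠ Pi.mulSingle k tr * x}
  have hU : ∀ k, IsOpen (U k) := by
    intro k
    apply TopologicalSpace.isOpen_generateFrom_of_mem
    refine ⟨Monoid.Coprod.inr (Multiplicative.ofAdd (1 : ℤ)) * Monoid.Coprod.inl (Pi.mulSingle k tr) *
      Monoid.Coprod.inr (Multiplicative.ofAdd (-1 : ℤ)) * Monoid.Coprod.inl (Pi.mulSingle k tr)⁻¹, ?_⟩
    ext x
    simp only [U, Set.mem_ofPred_eq, map_mul, Monoid.Coprod.lift_apply_inl,
      Monoid.Coprod.lift_apply_inr, zpowersHom_apply, toAdd_ofAdd, zpow_one, zpow_neg,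
      MonoidHom.id_apply, ne_eq, mul_inv_eq_iff_eq_mul, one_mul]
  have hc : IsCompact (⋃ k, U k) := TopologicalSpace.NoetherianSpace.isCompact _
  obtain ⟨t, ht⟩ := hc.elim_finite_subcover U hU (le_refl _)
  obtain ⟨k, hk⟩ := Infinite.exists_notMem_finset t
  have hne : ts * tr ≠ tr * ts := by decide
  have h1 : (Pi.mulSingle k ts : GG) ∈ ⋃ k, U k := by
    rw [Set.mem_iUnion]
    refine ⟨k, fun h => hne ?_⟩
    have := congrFun h k
    simpa using this
  obtain ⟨j, hj, hx⟩ := Set.mem_iUnion₂.1 (ht h1)
  have hjk : j ≠ k := fun h => hk (h ▸ hj)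
  apply hx
  exact (Pi.mulSingle_commute (f := fun _ : ℕ => Equiv.Perm (Fin 3)) hjk.symm ts tr).eq

end Pool.Agent.S02286
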