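import Pool.Statements.S02341
import Pool.Agent.H176R3.VirFinal
import Pool.Agent.Helper855.VirasoroTheory

/-!
The quotient of the enveloping algebra of the Virasoro algebra by `z - c`, `c` nonzero, is simple.

Idea. Let `I` be a nonzero two-sided ideal; it is stable under commutators with the generators.
Apply to an element of `I` with top degree `d` a suitable linear combination of products of `2 d`
commutator operators: `d` pairs of partners, with a fourth order difference operator for each pair
and high order difference operators for all other pairs of labels. By the Leibniz rule and since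
the iterated commutators of a generator depend polynomially on the labels, all contributions vanish
except those where each of the `d` factors of a top degree monomial receives a pair of partners,
and then the fourth difference extracts exactly the central term, a nonzero constant. So the ideal
contains a nonzero scalar.
-/

set_option autoImplicit false
open Pool Pool.MP_94cd9d_al

namespace Pool.Agent.S02341

open Pool.Agent.H176R3.Vir Pool.Agent.Helper855.Virasoro

/-- The relations. -/
def rel (c : ℂ) : FreeAlgebra ℂ ℤ → FreeAlgebra ℂ ℤ → Prop := fun a b =>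
  ∃ m n : ℤ,
    a = FreeAlgebra.ι ℂ m * FreeAlgebra.ι ℂ n - FreeAlgebra.ι ℂ n * FreeAlgebra.ι ℂ m ∧
    b = ((m - n : ℤ) : ℂ) • FreeAlgebra.ι ℂ (m + n) +
      (if m + n = 0 then
        algebraMap ℂ (FreeAlgebra ℂ ℤ) (c * ((m : ℂ) ^ 3 - (m : ℂ)) / 12)
       else 0)

/-- The generators of the quotient. -/
noncomputable def gen (c : ℂ) (n : ℤ) : RingQuot (rel c) :=
  RingQuot.mkAlgHom ℂ (rel c) (FreeAlgebra.ι ℂ n)

lemma gen_isVir (c : ℂ) : IsVir c (gen c) := by
  intro m n
  have h : RingQuot.mkAlgHom ℂ (rel c)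
      (FreeAlgebra.ι ℂ m * FreeAlgebra.ι ℂ n - FreeAlgebra.ι ℂ n * FreeAlgebra.ι ℂ m) =
      RingQuot.mkAlgHom ℂ (rel c) (((m - n : ℤ) : ℂ) • FreeAlgebra.ι ℂ (m + n) +
      (if m + n = 0 then
        algebraMap ℂ (FreeAlgebra ℂ ℤ) (c * ((m : ℂ) ^ 3 - (m : ℂ)) / 12)
       else 0)) := RingQuot.mkAlgHom_rel ℂ ⟨m, n, rfl, rfl⟩
  rw [map_sub, map_mul, map_mul, map_add, map_smul] at h
  unfold gen
  rw [h]
  congr 1
  split_ifs
  · rw [AlgHom.commutes]
  · rw [map_zero]

lemma mem_Fl (c : ℂ) (x : RingQuot (rel c)) : ∃ k, x ∈ Fl (gen c) k := by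
  obtain ⟨y, rfl⟩ := RingQuot.mkAlgHom_surjective ℂ (rel c) x
  have key : ∀ y : FreeAlgebra ℂ ℤ, ∀ z : RingQuot (rel c), (∃ k, z ∈ Fl (gen c) k) →
      ∃ k, RingQuot.mkAlgHom ℂ (rel c) y * z ∈ Fl (gen c) k := by
    intro y
    induction y using FreeAlgebra.induction with
    | grade0 r =>
      rintro z ⟨k, hk⟩
      refine ⟨k, ?_⟩
      rw [AlgHom.commutes, ← Algebra.smul_def]
      exact Submodule.smul_mem _ _ hk
    | grade1 n =>
      rintro z ⟨k, hk⟩
      exact ⟨k + 1, e_mul_mem n hk⟩
    | mul a b ha hb =>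
      intro z hz
      rw [map_mul, mul_assoc]
      exact ha _ (hb _ hz)
    | add a b ha hb =>
      intro z hz
      obtain ⟨k, hk⟩ := ha z hz
      obtain ⟨m, hm⟩ := hb z hz
      refine ⟨max k m, ?_⟩
      rw [map_add, add_mul]
      exact Submodule.add_mem _ (Fl_mono (le_max_left _ _) hk) (Fl_mono (le_max_right _ _) hm)
  have h1 : (1 : RingQuot (rel c)) ∈ Fl (gen c) 1 := by
    have := wd_mem (e := gen c) (w := []) (k := 1) (by simp)
    simpa using this
  have h2 := key y 1 ⟨1, h1⟩
  rwa [mul_one] at h2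

/-- The action of `uL n` on the Verma module. -/
noncomputable def op (c : ℂ) (n : ℤ) : Module.End ℂ (Verma ℂ c 0) where
  toFun x := uL ℂ n • x
  map_add' x y := smul_add _ _ _
  map_smul' r x := smul_comm _ _ _

/-- The representation on the Verma module. -/
noncomputable def repr (c : ℂ) : RingQuot (rel c) →ₐ[ℂ] Module.End ℂ (Verma ℂ c 0) :=
  RingQuot.liftAlgHom ℂ ⟨FreeAlgebra.lift ℂ (op c), by
    rintro a b ⟨m, n, rfl, rfl⟩
    rw [map_sub, map_mul, map_mul, map_add, map_smul, FreeAlgebra.lift_ι_apply,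
      FreeAlgebra.lift_ι_apply, FreeAlgebra.lift_ι_apply]
    apply LinearMap.ext
    intro x
    have h1 := uL_smul_comm (F := ℂ) m n x
    rw [C_smul] at h1
    have h2 : (op c m * op c n - op c n * op c m) x =
        uL ℂ m • uL ℂ n • x - uL ℂ n • uL ℂ m • x := rfl
    rw [h2, h1, LinearMap.add_apply, LinearMap.smul_apply]
    have h3 : (FreeAlgebra.lift ℂ (op c)) (if m + n = 0 then
        algebraMap ℂ (FreeAlgebra ℂ ℤ) (c * ((m : ℂ) ^ 3 - (m : ℂ)) / 12) else 0) x =
        (if m + n = 0 then cen ℂ m else 0) • c • x := by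
      split_ifs
      · rw [AlgHom.commutes, Module.algebraMap_end_apply, smul_smul]
        congr 1
        have h4 := congrArg (fun z : ℤ => (z : ℂ)) (six_binom3 m)
        beta_reduce at h4
        push_cast at h4
        unfold cen
        linear_combination (c / 12) * (-h4)
      · rw [map_zero, LinearMap.zero_apply, zero_smul]
    rw [h3]
    have h5 : (op c (m + n)) x = uL ℂ (m + n) • x := rfl
    rw [h5]
    abel⟩

lemma nontriv (c : ℂ) : Nontrivial (RingQuot (rel c)) := by
  refine ⟨⟨0, 1, fun h => ?_⟩⟩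
  have h1 := congrArg (repr c) h
  rw [map_zero, map_one] at h1
  have h2 := congrArg (fun f : Module.End ℂ (Verma ℂ c 0) => f (vac ℂ c 0)) h1
  have h3 : (0 : Verma ℂ c 0) = vac ℂ c 0 := h2
  have h4 : eps c (0 : ℂ) (vac ℂ c 0) = 1 := eps_vac
  rw [← h3, map_zero] at h4
  exact zero_ne_one h4

/-- For every complex c ≠ 0, the ℂ-algebra generated by L_n (n∈ℤ) modulo [L_m,L_n] = (m−n)L_{m+n} + δ_{m+n,0}·c(m³−m)/12 is a simple ring (nontrivial, only trivial two-sided ideals). -/
theorem result :
    ∀ c : ℂ, c ≠ 0 →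
      IsSimpleRing
        (RingQuot (fun a b : FreeAlgebra ℂ ℤ =>
          ∃ m n : ℤ,
            a = FreeAlgebra.ι ℂ m * FreeAlgebra.ι ℂ n - FreeAlgebra.ι ℂ n * FreeAlgebra.ι ℂ m ∧
            b = ((m - n : ℤ) : ℂ) • FreeAlgebra.ι ℂ (m + n) +
              (if m + n = 0 then
                algebraMap ℂ (FreeAlgebra ℂ ℤ) (c * ((m : ℂ) ^ 3 - (m : ℂ)) / 12)
               else 0))) := by
  intro c hc
  change IsSimpleRing (RingQuot (rel c))
  have hnt : Nontrivial (RingQuot (rel c)) := nontriv c
  refine ⟨{ toNontrivial := inferInstance, eq_bot_or_eq_top := fun I => ?_ }⟩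
  by_cases hI : I = ⊥
  · exact Or.inl hI
  · right
    have hex : ∃ x ∈ I, x ≠ 0 := by
      by_contra h
      push Not at h
      apply hI
      rw [eq_bot_iff]
      intro x hx
      rw [TwoSidedIdeal.mem_bot]
      exact h x hx
    obtain ⟨x, hx, hx0⟩ := hex
    obtain ⟨k, hk⟩ := mem_Fl c x
    let J : Submodule ℂ (RingQuot (rel c)) :=
      { carrier := I
        add_mem' := fun ha hb => I.add_mem ha hb
        zero_mem' := I.zero_mem
        smul_mem' := fun r y hy => by
          rw [Algebra.smul_def]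
          exact I.mul_mem_left _ _ hy }
    have hJ : ∀ m y, y ∈ J → ad (gen c) m y ∈ J := fun m y hy =>
      I.sub_mem (I.mul_mem_left _ _ hy) (I.mul_mem_right _ _ hy)
    have h1 : (1 : RingQuot (rel c)) ∈ J := one_mem hc (gen_isVir c) J hJ hx hx0 hk
    exact (I.one_mem_iff).mp h1

end Pool.Agent.S02341
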