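import Pool.Statements.S02344
import Pool.Agent.H97R3.SemiNot

set_option autoImplicit false
open Pool Pool.MP_94dfa5_al

namespace Pool.Agent.S02344

/-- The negation of the preceding statement: If a countable group G is stable in permutations (almost-homomorphisms to finite symmetric groups, in normalized Hamming distance, are close to true homomorphisms), then so is every semidirect product of G by a finite group H. -/
theorem result :
    ¬ (∀ (P : ∀ (K : Type) [Group K], Prop),
      (∀ (K : Type) [Group K], P K ↔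
        ∀ (S : Finset K) (ε : ℝ), 0 < ε → ∃ (T : Finset K) (δ : ℝ), 0 < δ ∧
          ∀ (n : ℕ) (f : K → Equiv.Perm (Fin n)),
            (∀ g ∈ T, ∀ h ∈ T,
              ((Finset.univ.filter (fun i : Fin n => f (g * h) i ≠ (f g * f h) i)).card : ℝ)
                / (n : ℝ) < δ) →
            ∃ ρ : K →* Equiv.Perm (Fin n), ∀ g ∈ S,
              ((Finset.univ.filter (fun i : Fin n => f g i ≠ ρ g i)).card : ℝ) / (n : ℝ) < ε) →
      ∀ (G : Type) [Group G] [Countable G], P G →
        ∀ (H : Type) [Group H] [Finite H] (φ : H →* MulAut G),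
          P (SemidirectProduct G H φ)) := by
  intro hall
  have h := hall (fun K _ => Pool.Agent.H97R3.SemiStab.PStab K)
    (by
      intro K _
      unfold Pool.Agent.H97R3.SemiStab.PStab
      constructor
      · intro h S ε hε
        obtain ⟨T, δ, hδ, hT⟩ := h S ε hε
        refine ⟨T, δ, hδ, fun n f hf => ?_⟩
        obtain ⟨ρ, hρ⟩ := hT n f (fun g hg h hh => by convert hf g hg h hh)
        exact ⟨ρ, fun g hg => by convert hρ g hg⟩
      · intro h S ε hε
        obtain ⟨T, δ, hδ, hT⟩ := h S ε hε
        refine ⟨T, δ, hδ, fun n f hf => ?_⟩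
        obtain ⟨ρ, hρ⟩ := hT n f (fun g hg h hh => by convert hf g hg h hh)
        exact ⟨ρ, fun g hg => by convert hρ g hg⟩)
    Pool.Agent.H97R3.SemiEx.G Pool.Agent.H97R3.SemiEx.pstab_G
    Pool.Agent.H97R3.SemiEx.H Pool.Agent.H97R3.SemiEx.phi
  exact Pool.Agent.H97R3.SemiEx.not_pstab_Gam h

end Pool.Agent.S02344
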