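import Pool.Statements.S02351
import Pool.Agent.H569R3.HallMain

set_option autoImplicit false
open Pool Pool.MP_9504dd_al

namespace Pool.Agent.S02351

/-- For every finite alphabet and every Hall set, the shuffle products of Hall areas over multisets of Hall trees form a basis of the shuffle algebra, where areas are built with the commutator of the half shuffle. -/
theorem result :
  ∀ (d : ℕ) (H : Set (FreeMagma (Fin d))) (r : FreeMagma (Fin d) → FreeMagma (Fin d) → Prop)
    (sh hs : (List (Fin d) →₀ ℚ) →ₗ[ℚ] (List (Fin d) →₀ ℚ) →ₗ[ℚ] (List (Fin d) →₀ ℚ))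
    (ar : FreeMagma (Fin d) → (List (Fin d) →₀ ℚ)),
    IsStrictTotalOrder (FreeMagma (Fin d)) r →
    (∀ a : Fin d, FreeMagma.of a ∈ H) →
    (∀ t' t'' : FreeMagma (Fin d), t' * t'' ∈ H → t'' ∈ H ∧ r (t' * t'') t'') →
    (∀ t' t'' : FreeMagma (Fin d), t' * t'' ∈ H ↔
      (t' ∈ H ∧ t'' ∈ H ∧ r t' t'' ∧
        ((∃ a : Fin d, t' = FreeMagma.of a) ∨ ∃ u v : FreeMagma (Fin d), t' = u * v ∧ ¬ r v t''))) →
    (∀ x, sh (Finsupp.single [] 1) x = x) →
    (∀ x, sh x (Finsupp.single [] 1) = x) →
    (∀ (u v : List (Fin d)) (a b : Fin d),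
      sh (Finsupp.single (u ++ [a]) 1) (Finsupp.single (v ++ [b]) 1) =
        Finsupp.mapDomain (fun w : List (Fin d) => w ++ [a])
            (sh (Finsupp.single u 1) (Finsupp.single (v ++ [b]) 1)) +
          Finsupp.mapDomain (fun w : List (Fin d) => w ++ [b])
            (sh (Finsupp.single (u ++ [a]) 1) (Finsupp.single v 1))) →
    (∀ x, hs x (Finsupp.single [] 1) = 0) →
    (∀ (x : List (Fin d) →₀ ℚ) (v : List (Fin d)) (b : Fin d),
      hs x (Finsupp.single (v ++ [b]) 1) =
        Finsupp.mapDomain (fun w : List (Fin d) => w ++ [b]) (sh x (Finsupp.single v 1))) →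
    (∀ a : Fin d, ar (FreeMagma.of a) = Finsupp.single [a] 1) →
    (∀ x y : FreeMagma (Fin d), ar (x * y) = hs (ar x) (ar y) - hs (ar y) (ar x)) →
    LinearIndependent ℚ
      (fun l : {l : List (FreeMagma (Fin d)) //
          (∀ t ∈ l, t ∈ H) ∧ l.Pairwise (fun x y => ¬ r x y)} =>
        l.1.foldr (fun t acc => sh (ar t) acc) (Finsupp.single [] 1)) ∧
    Submodule.span ℚ (Set.range
      (fun l : {l : List (FreeMagma (Fin d)) //
          (∀ t ∈ l, t ∈ H) ∧ l.Pairwise (fun x y => ¬ r x y)} =>
        l.1.foldr (fun t acc => sh (ar t) acc) (Finsupp.single [] 1))) = ⊤ := by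
  intro d H r sh hs ar hsto hlet hright hiff h1 h2 h3 h4 h5 h6 h7
  classical
  letI : LinearOrder (FreeMagma (Fin d)) := linearOrderOfSTO r
  have hlt : ∀ x y : FreeMagma (Fin d), x < y ↔ r x y := fun x y => Iff.rfl
  let D : H569R3.Hall.ShData (Fin d) :=
    { sh := sh
      hs := hs
      one_sh := h1
      sh_one := h2
      sh_snoc := h3
      hs_nil := h4
      hs_snoc := h5 }
  have hH : H569R3.Hall.IsHall H :=
    { letter := hlet
      right := hright
      iff := by
        intro s t
        rw [hiff s t]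
        refine and_congr_right fun _ => and_congr_right fun _ => and_congr_right fun _ => ?_
        refine or_congr Iff.rfl ?_
        constructor
        · rintro ⟨u, v, h, h'⟩
          exact ⟨u, v, h, not_lt.1 h'⟩
        · rintro ⟨u, v, h, h'⟩
          exact ⟨u, v, h, not_lt.2 h'⟩ }
  exact H569R3.Hall.main D ar h6 h7 hH

end Pool.Agent.S02351
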