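import Pool.Statements.S02436
import Pool.Agent.Helper158.Stall.Grp

set_option autoImplicit false
open Pool Pool.MP_9999b4_al

namespace Pool.Agent.S02436

open Pool.Agent.Helper158.Stall

/-- the three generators of `S` -/
def sg : Fin 3 → S := ![⟨FreeGroup.of 0, b_mem⟩, ⟨FreeGroup.of 1, c_mem⟩, ⟨FreeGroup.mk W, w_mem⟩]

/-- the three relators `s_j⁻¹ u_j(t)` -/
def wd (j : Fin 3) : Monoid.Coprod S (FreeGroup (Fin 3)) :=
  (Monoid.Coprod.inl (sg j))⁻¹ * Monoid.Coprod.inr ((sg j : S) : FreeGroup (Fin 3))

/-- the quotient -/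
abbrev HH : Type := Monoid.Coprod S (FreeGroup (Fin 3)) ⧸ Subgroup.normalClosure (Set.range wd)

/-- the images of an element of `S` and of the corresponding word agree in the quotient -/
theorem agree (s : S) :
    QuotientGroup.mk' (Subgroup.normalClosure (Set.range wd)) (Monoid.Coprod.inl s) =
      QuotientGroup.mk' (Subgroup.normalClosure (Set.range wd))
        (Monoid.Coprod.inr (s : FreeGroup (Fin 3))) := by
  have hgen : ∀ j : Fin 3,
      QuotientGroup.mk' (Subgroup.normalClosure (Set.range wd)) (Monoid.Coprod.inl (sg j)) =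
      QuotientGroup.mk' (Subgroup.normalClosure (Set.range wd))
        (Monoid.Coprod.inr ((sg j : S) : FreeGroup (Fin 3))) := by
    intro j
    rw [QuotientGroup.mk'_eq_mk']
    exact ⟨wd j, Subgroup.subset_normalClosure ⟨j, rfl⟩, by
      rw [wd, mul_inv_cancel_left]⟩
  obtain ⟨s, hs⟩ := s
  refine Subgroup.closure_induction (p := fun s hs =>
    QuotientGroup.mk' (Subgroup.normalClosure (Set.range wd)) (Monoid.Coprod.inl (⟨s, hs⟩ : S)) =
      QuotientGroup.mk' (Subgroup.normalClosure (Set.range wd))
        (Monoid.Coprod.inr s)) ?_ ?_ ?_ ?_ hs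
  · intro x hx
    simp only [Set.mem_insert_iff, Set.mem_singleton_iff] at hx
    rcases hx with rfl | rfl | rfl
    · exact hgen 0
    · exact hgen 1
    · exact hgen 2
  · have : (⟨1, S.one_mem⟩ : S) = 1 := rfl
    show QuotientGroup.mk' (Subgroup.normalClosure (Set.range wd))
      (Monoid.Coprod.inl (⟨1, S.one_mem⟩ : S)) = _
    rw [this, map_one, map_one, map_one, map_one]
  · intro x y hx hy h1 h2
    have : (⟨x * y, S.mul_mem hx hy⟩ : S) = ⟨x, hx⟩ * ⟨y, hy⟩ := rfl
    show QuotientGroup.mk' (Subgroup.normalClosure (Set.range wd))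
      (Monoid.Coprod.inl (⟨x * y, S.mul_mem hx hy⟩ : S)) = _
    rw [this, map_mul, map_mul, map_mul, map_mul, h1, h2]
  · intro x hx h1
    have : (⟨x⁻¹, S.inv_mem hx⟩ : S) = (⟨x, hx⟩ : S)⁻¹ := rfl
    show QuotientGroup.mk' (Subgroup.normalClosure (Set.range wd))
      (Monoid.Coprod.inl (⟨x⁻¹, S.inv_mem hx⟩ : S)) = _
    rw [this, map_inv, map_inv, map_inv, map_inv, h1]

/-- the element `a` -/
def ea : S := ⟨FreeGroup.mk (emb aw), emb_mem _⟩

/-- the conjugated elements -/
def ei (o : Option (Fin 2 × Bool) × Bool) : S := ⟨FreeGroup.mk (item o), item_mem _⟩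

theorem ofn_data {β : Type} (f : ((Option (Fin 2 × Bool) × Bool) × List (Fin 3 × Bool)) → β) :
    List.ofFn (fun i : Fin data.length => f (data.get i)) = data.map f := by
  conv_rhs => rw [← List.ofFn_get data]
  rw [List.map_ofFn]
  rfl

/-- The negation of the preceding statement: For every group G and every nonsingular system of n words in G free-product F_n, with H the quotient by their normal closure: if a product of conjugates in H of the images of g_1..g_r equals 1, then some product of G-conjugates of g_1..g_r equals 1. -/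
theorem result :
    ¬ (∀ (G : Type) [Group G] (n : ℕ), 1 ≤ n →
    ∀ (w : Fin n → Monoid.Coprod G (FreeGroup (Fin n))),
      (Matrix.of (fun i j : Fin n => Multiplicative.toAdd
        (Monoid.Coprod.lift (1 : G →* Multiplicative ℤ)
          (FreeGroup.lift (fun k : Fin n =>
            if k = i then Multiplicative.ofAdd (1 : ℤ) else 1)) (w j)))).det ≠ 0 →
      ∀ (r : ℕ), 1 ≤ r → ∀ g : Fin r → G,
        (∃ h : Fin r → (Monoid.Coprod G (FreeGroup (Fin n)) ⧸
              Subgroup.normalClosure (Set.range w)),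
          (List.ofFn (fun i => h i *
              QuotientGroup.mk' (Subgroup.normalClosure (Set.range w))
                (Monoid.Coprod.inl (g i)) * (h i)⁻¹)).prod = 1) →
        ∃ x : Fin r → G, (List.ofFn (fun i => x i * g i * (x i)⁻¹)).prod = 1) := by
  intro HC
  have hdet : (Matrix.of (fun i j : Fin 3 => Multiplicative.toAdd
        (Monoid.Coprod.lift (1 : S →* Multiplicative ℤ)
          (FreeGroup.lift (fun k : Fin 3 =>
            if k = i then Multiplicative.ofAdd (1 : ℤ) else 1)) (wd j)))).det ≠ 0 := by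
    have hM : (Matrix.of (fun i j : Fin 3 => Multiplicative.toAdd
        (Monoid.Coprod.lift (1 : S →* Multiplicative ℤ)
          (FreeGroup.lift (fun k : Fin 3 =>
            if k = i then Multiplicative.ofAdd (1 : ℤ) else 1)) (wd j)))) =
        !![1, 0, 1; 0, 1, 1; 0, 0, 1] := by
      ext i j
      fin_cases j
      · fin_cases i <;> simp [wd, sg]
      · fin_cases i <;> simp [wd, sg]
      · fin_cases i <;> simp [wd, sg, W_eq]
    rw [hM]
    simp [Matrix.det_fin_three]
  obtain ⟨x, hx⟩ := HC S 3 (by norm_num) wd hdet (data.length + 1) (Nat.le_add_left 1 _)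
    (Fin.cons ea⁻¹ (fun i => ei (data.get i).1))
    ⟨Fin.cons 1 (fun i => QuotientGroup.mk' _ (Monoid.Coprod.inr (FreeGroup.mk (data.get i).2))), by
      rw [List.ofFn_succ, List.prod_cons]
      simp only [Fin.cons_zero, Fin.cons_succ]
      rw [one_mul, inv_one, mul_one, agree]
      have h1 : (List.ofFn (fun i : Fin data.length =>
          QuotientGroup.mk' (Subgroup.normalClosure (Set.range wd))
            (Monoid.Coprod.inr (FreeGroup.mk (data.get i).2)) *
          QuotientGroup.mk' (Subgroup.normalClosure (Set.range wd))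
            (Monoid.Coprod.inl (ei (data.get i).1)) *
          (QuotientGroup.mk' (Subgroup.normalClosure (Set.range wd))
            (Monoid.Coprod.inr (FreeGroup.mk (data.get i).2)))⁻¹)).prod =
          QuotientGroup.mk' (Subgroup.normalClosure (Set.range wd))
            (Monoid.Coprod.inr (FreeGroup.mk (emb aw))) := by
        rw [identity, map_list_prod, map_list_prod, ← ofn_data, List.map_ofFn, List.map_ofFn]
        congr 1
        congr 1
        funext i
        simp only [Function.comp, map_mul, map_inv]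
        rw [agree]
        rfl
      rw [h1]
      show QuotientGroup.mk' (Subgroup.normalClosure (Set.range wd))
        (Monoid.Coprod.inr (FreeGroup.mk (emb aw))⁻¹) * _ = 1
      rw [← map_mul, ← map_mul, inv_mul_cancel, map_one, map_one]⟩
  rw [List.ofFn_succ, List.prod_cons] at hx
  simp only [Fin.cons_zero, Fin.cons_succ] at hx
  set P := (List.ofFn (fun i : Fin data.length => x i.succ * ei (data.get i).1 *
    (x i.succ)⁻¹)).prod with hP
  have ha : ea = (x 0)⁻¹ * P * x 0 := by
    have := congrArg (fun z => (x 0)⁻¹ * (ea⁻¹)⁻¹ * ea * ea⁻¹ * (x 0) * z) hx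
    have h2 : P = x 0 * ea * (x 0)⁻¹ := by
      have h3 : x 0 * ea⁻¹ * (x 0)⁻¹ = (x 0 * ea * (x 0)⁻¹)⁻¹ := by group
      rw [h3] at hx
      exact (inv_mul_eq_one.1 hx).symm
    rw [h2]; group
  refine no_conj (List.ofFn (fun i : Fin data.length =>
    (S.subtype ((x 0)⁻¹ * x i.succ), (data.get i).1))) ?_ ?_ ?_
  · intro p hp
    obtain ⟨i, rfl⟩ := (List.mem_ofFn' _ _).1 hp
    exact ((x 0)⁻¹ * x i.succ).2
  · rw [List.map_ofFn]
    exact ofn_data Prod.fst
  · have h1 : (x 0)⁻¹ * P * x 0 = (List.ofFn (fun i : Fin data.length =>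
        ((x 0)⁻¹ * x i.succ) * ei (data.get i).1 * ((x 0)⁻¹ * x i.succ)⁻¹)).prod := by
      have h2 : (x 0)⁻¹ * P * x 0 = MulAut.conj (x 0)⁻¹ P := by
        rw [MulAut.conj_apply, inv_inv]
      rw [h2, hP, map_list_prod, List.map_ofFn]
      congr 1
      congr 1
      funext i
      simp only [Function.comp, MulAut.conj_apply]
      group
    have h3 := congrArg S.subtype (ha.trans h1)
    rw [map_list_prod, List.map_ofFn] at h3
    rw [List.map_ofFn]
    exact h3

end Pool.Agent.S02436
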