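import Pool.Statements.S02490
import Pool.Agent.H8R3.ThinMain

set_option autoImplicit false
open Pool Pool.MP_9e7887_al

namespace Pool.Agent.S02490

/-- The negation of the preceding statement: For every prime p there are finitely many profinite groups such that every infinite pro-p group whose antichains of closed normal subgroups have at most p+1 elements is topologically isomorphic to one of them. -/
theorem result :
    ¬ (∀ p : ℕ, p.Prime → ∃ n : ℕ, ∃ F : Fin n → ProfiniteGrp.{0},
      ∀ G : ProfiniteGrp.{0}, Infinite G →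
        (∀ N : Subgroup G, IsOpen (N : Set G) → N.Normal → ∃ k : ℕ, N.index = p ^ k) →
        (∀ S : Set (Subgroup G), (∀ H ∈ S, IsClosed (H : Set G) ∧ H.Normal) →
            IsAntichain (· ≤ ·) S → S.encard ≤ ((p + 1 : ℕ) : ℕ∞)) →
        ∃ i : Fin n, Nonempty (G ≃ₜ* F i)) := by
  intro H
  have h2 : (2 : ZMod 3) ≠ 0 := by decide
  have : Fact (Nat.Prime 3) := ⟨Nat.prime_three⟩
  obtain ⟨n, F, hF⟩ := H 3 Nat.prime_three
  obtain ⟨e, he⟩ := Pool.Agent.H8R3.Thin.main 3 h2 n F
  obtain ⟨h1, h3, h4⟩ := Pool.Agent.H8R3.Thin.GG_spec 3 e h2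
  obtain ⟨i, hi⟩ := hF (Pool.Agent.H8R3.Thin.GG 3 e) h1 h3 h4
  exact he i hi

end Pool.Agent.S02490
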