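import Pool.Statements.S02494
-- import your own Pool.Agent.* helpers here
import Pool.Agent.H451R4.Lim
import Pool.Agent.H451R4.Kill
import Pool.Agent.H451R4.Base

set_option autoImplicit false
open Pool Pool.MP_9ea0f9_al

namespace Pool.Agent.S02494

open Pool.Agent.H451R4 Function

/-- the sequence of levels -/
noncomputable def levs (n : ℕ) : Lev ℚ (LL ℚ) ⟨tt ℚ, tt_mem ℚ⟩ :=
  Nat.rec (lev0 ℚ) (fun _ l => l.next) n

theorem levs_succ (n : ℕ) : levs (n + 1) = (levs n).next := rfl

/-- the rings of the levels -/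
abbrev G (n : ℕ) : Type := (levs n).R

/-- transition maps -/
noncomputable def φ (n : ℕ) : G n →+* G (n + 1) := (levs n).φ

/-- The negation of the preceding statement: Every von Neumann regular ring whose surjective ring-homomorphic images are all directly finite (xy=1 implies yx=1) is unit-regular: each a has a unit u with a u a = a. -/
theorem result :
    ¬ (∀ (R : Type) [Ring R],
      (∀ a : R, ∃ x : R, a * x * a = a) →
      (∀ (S : Type) [Ring S] (f : R →+* S), Function.Surjective f →
        ∀ x y : S, x * y = 1 → y * x = 1) →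
      ∀ a : R, ∃ u : Rˣ, a * (u : R) * a = a) := by
  intro H
  obtain ⟨R, hR, ι, hcomp, hinj, hsurj⟩ := exists_limit G φ (fun n => (levs n).φ_inj)
  -- lifting levels
  have lift : ∀ n m, n ≤ m → ∀ x : G n, ∃ x' : G m, ι m x' = ι n x := by
    intro n m hnm
    induction m, hnm using Nat.le_induction with
    | base => exact fun x => ⟨x, rfl⟩
    | succ m _ ih =>
      intro x
      obtain ⟨x', hx'⟩ := ih x
      exact ⟨φ m x', by rw [hcomp, hx']⟩
  have two : ∀ (N : ℕ) (x y : R), ∃ n, N ≤ n ∧ ∃ a b : G n, ι n a = x ∧ ι n b = y := by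
    intro N x y
    obtain ⟨n, a, ha⟩ := hsurj x
    obtain ⟨m, b, hb⟩ := hsurj y
    obtain ⟨a', ha'⟩ := lift n (max N (max n m)) (by omega) a
    obtain ⟨b', hb'⟩ := lift m (max N (max n m)) (by omega) b
    exact ⟨max N (max n m), by omega, a', b', by rw [ha', ha], by rw [hb', hb]⟩
  have hτ : ∀ n, ι n (levs n).τ = ι 0 (levs 0).τ := by
    intro n
    induction n with
    | zero => rfl
    | succ n ih =>
      rw [← ih, ← hcomp n]
      rfl
  have reg : ∀ a : R, ∃ x : R, a * x * a = a := by
    intro a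
    obtain ⟨n, x, hx⟩ := hsurj a
    obtain ⟨y, hy⟩ := (levs n).regular x
    refine ⟨ι n y, ?_⟩
    rw [← hx, ← map_mul, ← map_mul, hy]
  have img : ∀ (S : Type) [Ring S] (f : R →+* S), Function.Surjective f →
      ∀ x y : S, x * y = 1 → y * x = 1 := by
    intro S _ f hf x y hxy
    obtain ⟨X, hX⟩ := hf x
    obtain ⟨Y, hY⟩ := hf y
    by_cases hfi : Injective f
    · obtain ⟨n, -, a, b, ha, hb⟩ := two 0 X Y
      have h1 : X * Y = 1 := by
        apply hfi
        rw [map_mul, hX, hY, hxy, map_one]
      have h2 : a * b = 1 := by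
        apply hinj n
        rw [map_mul, ha, hb, h1, map_one]
      have h3 := (levs n).df a b h2
      have h4 : Y * X = 1 := by rw [← ha, ← hb, ← map_mul, h3, map_one]
      rw [← hX, ← hY, ← map_mul, h4, map_one]
    · have hz : ∃ z : R, z ≠ 0 ∧ f z = 0 := by
        by_contra hcon
        push Not at hcon
        apply hfi
        rw [injective_iff_map_eq_zero]
        intro z hz
        by_contra h0
        exact hcon z h0 hz
      obtain ⟨z, hz0, hz⟩ := hz
      obtain ⟨N, a, ha⟩ := hsurj z
      obtain ⟨m, hm, b, b', hb, hb'⟩ := two N X Y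
      obtain ⟨c, hc⟩ := lift N m hm a
      have hc0 : c ≠ 0 := by
        rintro rfl
        apply hz0
        rw [← ha, ← hc, map_zero]
      obtain ⟨g1, g2⟩ := (levs m).grow c hc0
      have hk := (levs (m + 1)).kill (φ m c) g1 g2 (f.comp (ι (m + 1)))
        (by
          show f (ι (m + 1) (φ m c)) = 0
          rw [hcomp, hc, ha, hz])
        (φ m b * φ m b' - φ m b' * φ m b) ((levs (m + 1)).comm_fr _ _)
      have hk2 : f (ι (m + 1) (φ m b * φ m b' - φ m b' * φ m b)) = 0 := hk
      rw [map_sub, map_mul, map_mul, hcomp, hcomp, hb, hb', map_sub, map_mul, map_mul,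
        hX, hY, hxy] at hk2
      exact (sub_eq_zero.mp hk2).symm
  obtain ⟨u, hu⟩ := H R reg img (ι 0 (levs 0).τ)
  · obtain ⟨n, -, v, w, hv, hw⟩ := two 0 (u : R) ((u⁻¹ : Rˣ) : R)
    have h1 : v * w = 1 := by
      apply hinj n
      rw [map_mul, hv, hw, map_one]; simp
    have h2 : w * v = 1 := by
      apply hinj n
      rw [map_mul, hv, hw, map_one]; simp
    refine (levs n).not_unit ⟨v, w, h1, h2⟩ ?_
    apply hinj n
    rw [map_mul, map_mul, hτ]
    show ι 0 (levs 0).τ * ι n v * ι 0 (levs 0).τ = ι 0 (levs 0).τ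
    rw [hv]
    exact hu

end Pool.Agent.S02494
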