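import Pool.Statements.S02504
import Pool.Agent.H104R3.HeisFin

set_option autoImplicit false
open Pool Pool.MP_9f8f27_al

namespace Pool.Agent.S02504

/-- The negation of the preceding statement: For every group G generated by a finite set S that has (n,1/n) permutation approximations for all n, there is C ≥ 1 with ∣B_S(n)∣ ≤ C·d for every d admitting a (Cn,1/(Cn)) approximation, i.e. growth ≼ sofic profile. -/
theorem result :
    ¬ (∀ (G : Type) [Group G] (S : Finset G), Subgroup.closure (S : Set G) = ⊤ →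
      (∀ n : ℕ, ∃ d : ℕ, 0 < d ∧ ∃ φ : G → Equiv.Perm (Fin d),
        φ 1 = 1 ∧
        (∀ g h : G,
          (∃ l : List G, l.length ≤ n ∧ (∀ x ∈ l, x ∈ S ∨ x⁻¹ ∈ S) ∧ l.prod = g) →
          (∃ l : List G, l.length ≤ n ∧ (∀ x ∈ l, x ∈ S ∨ x⁻¹ ∈ S) ∧ l.prod = h) →
          ((Finset.univ.filter (fun i : Fin d => φ (g * h) i ≠ (φ g * φ h) i)).card : ℝ)
              / (d : ℝ) ≤ 1 / (n : ℝ)) ∧
        (∀ g : G,
          (∃ l : List G, l.length ≤ n ∧ (∀ x ∈ l, x ∈ S ∨ x⁻¹ ∈ S) ∧ l.prod = g) →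
          g ≠ 1 →
          1 - 1 / (n : ℝ) ≤
            ((Finset.univ.filter (fun i : Fin d => φ g i ≠ i)).card : ℝ) / (d : ℝ))) →
      ∃ C : ℕ, 0 < C ∧ ∀ n d : ℕ, 0 < d →
        (∃ φ : G → Equiv.Perm (Fin d),
          φ 1 = 1 ∧
          (∀ g h : G,
            (∃ l : List G, l.length ≤ C * n ∧ (∀ x ∈ l, x ∈ S ∨ x⁻¹ ∈ S) ∧ l.prod = g) →
            (∃ l : List G, l.length ≤ C * n ∧ (∀ x ∈ l, x ∈ S ∨ x⁻¹ ∈ S) ∧ l.prod = h) →
            ((Finset.univ.filter (fun i : Fin d => φ (g * h) i ≠ (φ g * φ h) i)).card : ℝ)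
                / (d : ℝ) ≤ 1 / ((C * n : ℕ) : ℝ)) ∧
          (∀ g : G,
            (∃ l : List G, l.length ≤ C * n ∧ (∀ x ∈ l, x ∈ S ∨ x⁻¹ ∈ S) ∧ l.prod = g) →
            g ≠ 1 →
            1 - 1 / ((C * n : ℕ) : ℝ) ≤
              ((Finset.univ.filter (fun i : Fin d => φ g i ≠ i)).card : ℝ) / (d : ℝ))) →
        Nat.card {g : G // ∃ l : List G, l.length ≤ n ∧ (∀ x ∈ l, x ∈ S ∨ x⁻¹ ∈ S) ∧ l.prod = g}
          ≤ C * d) := by
  intro h
  obtain ⟨C, hC, hmain⟩ := h Pool.Agent.H104R3.Heis Pool.Agent.H104R3.Heis.S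
    Pool.Agent.H104R3.Heis.closure_S Pool.Agent.H104R3.Heis.sofic
  obtain ⟨s, hs, hprime⟩ := Pool.Agent.H104R3.Heis.prime_sel C hC
  set m : ℕ := 49 * C ^ 2 * s ^ 2 with hm
  have hL : C * (8 * m) = 392 * C ^ 3 * s ^ 2 := by rw [hm]; ring
  have hK : s * m = 49 * C ^ 2 * s ^ 3 := by rw [hm]; ring
  have hmpos : 0 < m := by positivity
  rw [← hL, ← hK] at hprime
  obtain ⟨d, hd0, hd1, φ, hφ⟩ := Pool.Agent.H104R3.Heis.good (C * (8 * m)) (s * m)
    (by positivity) (by positivity) hprime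
  have h1 := hmain (8 * m) d hd0
    ⟨φ, Pool.Agent.H104R3.Heis.real_approx (C * (8 * m)) d hd0 φ hφ⟩
  have h2 := Pool.Agent.H104R3.Heis.card_ball_ge m
  have h3 : m ^ 4 ≤ C * d := le_trans h2 h1
  have h4 : C * d ≤ 32 * C ^ 2 * s ^ 2 * m ^ 3 := by
    calc C * d ≤ C * (4 * (C * (8 * m)) * (s * m) ^ 2) := Nat.mul_le_mul_left _ hd1
      _ = 32 * C ^ 2 * s ^ 2 * m ^ 3 := by ring
  have h5 : 32 * C ^ 2 * s ^ 2 * m ^ 3 < m ^ 4 := by
    have : 32 * C ^ 2 * s ^ 2 < m := by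
      rw [hm]
      have : 0 < C ^ 2 * s ^ 2 := by positivity
      nlinarith
    calc 32 * C ^ 2 * s ^ 2 * m ^ 3 < m * m ^ 3 :=
          Nat.mul_lt_mul_of_pos_right this (by positivity)
      _ = m ^ 4 := by ring
  omega

end Pool.Agent.S02504
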