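import Pool.Statements.S02527
import Pool.Agent.H268R3.LRS.Low3

set_option autoImplicit false
open Pool Pool.MP_a1538a_al

namespace Pool.Agent.S02527

open Pool.Agent.H268R3.LRS Pool.Agent.H268R3.Soc in
/-- the frozen subspace is the one used in the library -/
lemma sub_eq (F : Type) [Field F] [Fintype F] (n m d : ℕ) :
    (Submodule.map
            (Ideal.Quotient.mkₐ F
              (Ideal.span (Set.range fun i : Fin n =>
                (MvPolynomial.X i : MvPolynomial (Fin n) F) ^ (Fintype.card F ^ m)))).toLinearMap
            (MvPolynomial.homogeneousSubmodule (Fin n) F d ⊓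
              ⨅ g : Matrix.GeneralLinearGroup (Fin n) F,
                LinearMap.ker
                  ((Ideal.Quotient.mkₐ F
                      (Ideal.span (Set.range fun i : Fin n =>
                        (MvPolynomial.X i : MvPolynomial (Fin n) F) ^ (Fintype.card F ^ m)))).toLinearMap
                    ∘ₗ ((MvPolynomial.aeval (fun i : Fin n =>
                          ∑ j : Fin n, (g : Matrix (Fin n) (Fin n) F) i j •
                            (MvPolynomial.X j : MvPolynomial (Fin n) F))).toLinearMap
                        - LinearMap.id)))) = VV F n m d := by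
  have h0 : ∀ (g : Matrix (Fin n) (Fin n) F) (f : MvPolynomial (Fin n) F),
      MvPolynomial.aeval (fun i : Fin n => ∑ j : Fin n, g i j • (MvPolynomial.X j : MvPolynomial (Fin n) F)) f
        = act g.transpose f := by
    intro g f
    have : (MvPolynomial.aeval (fun i : Fin n => ∑ j : Fin n, g i j • (MvPolynomial.X j : MvPolynomial (Fin n) F)))
        = act g.transpose := by
      apply MvPolynomial.algHom_ext
      intro i
      rw [MvPolynomial.aeval_X, act_X, lf]
      apply Finset.sum_congr rfl
      intro j _
      rw [MvPolynomial.smul_eq_C_mul]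
      rfl
    rw [this]
  have h1 : (MvPolynomial.homogeneousSubmodule (Fin n) F d ⊓
              ⨅ g : Matrix.GeneralLinearGroup (Fin n) F,
                LinearMap.ker
                  ((Ideal.Quotient.mkₐ F
                      (Ideal.span (Set.range fun i : Fin n =>
                        (MvPolynomial.X i : MvPolynomial (Fin n) F) ^ (Fintype.card F ^ m)))).toLinearMap
                    ∘ₗ ((MvPolynomial.aeval (fun i : Fin n =>
                          ∑ j : Fin n, (g : Matrix (Fin n) (Fin n) F) i j •
                            (MvPolynomial.X j : MvPolynomial (Fin n) F))).toLinearMap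
                        - LinearMap.id))) = WW F n m d := by
    ext f
    rw [Submodule.mem_inf, Submodule.mem_iInf]
    constructor
    · rintro ⟨hf1, hf2⟩
      refine ⟨hf1, ?_⟩
      intro g hg
      have hgt : IsUnit g.transpose.det := by rw [Matrix.det_transpose]; exact hg
      have h2 := hf2 (Matrix.nonsingInvUnit g.transpose hgt)
      rw [LinearMap.mem_ker] at h2
      have h3 : Ideal.Quotient.mk (JN F (Fintype.card F ^ m) n)
          (MvPolynomial.aeval (fun i : Fin n => ∑ j : Fin n, g.transpose i j •
            (MvPolynomial.X j : MvPolynomial (Fin n) F)) f - f) = 0 := h2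
      rw [h0, Matrix.transpose_transpose, Ideal.Quotient.eq_zero_iff_mem] at h3
      exact h3
    · rintro ⟨hf1, hf2⟩
      refine ⟨hf1, ?_⟩
      intro g
      rw [LinearMap.mem_ker]
      show Ideal.Quotient.mk (JN F (Fintype.card F ^ m) n)
          (MvPolynomial.aeval (fun i : Fin n => ∑ j : Fin n, (g : Matrix (Fin n) (Fin n) F) i j •
            (MvPolynomial.X j : MvPolynomial (Fin n) F)) f - f) = 0
      rw [h0, Ideal.Quotient.eq_zero_iff_mem]
      apply hf2
      rw [Matrix.det_transpose]
      exact (Matrix.isUnit_iff_isUnit_det _).1 g.isUnit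
  rw [h1]
  rfl

/-- For every finite field F_q and n, m ≥ 0, the GL_n(F_q)-invariants of F_q[x_1..x_n]/(x_i^{q^m}) have Hilbert series equal to the sum over k ≤ min(n,m) of t^{(n-k)(q^m-q^k)} times the (q,t)-binomial, the product over i<k of (1-t^{q^m-q^i})/(1-t^{q^k-q^i}). -/
theorem result :
    ∀ (F : Type) [Field F] [Fintype F] (n m : ℕ),
      PowerSeries.mk (fun d : ℕ =>
        ((Module.finrank F
          (Submodule.map
            (Ideal.Quotient.mkₐ F
              (Ideal.span (Set.range fun i : Fin n =>
                (MvPolynomial.X i : MvPolynomial (Fin n) F) ^ (Fintype.card F ^ m)))).toLinearMap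
            (MvPolynomial.homogeneousSubmodule (Fin n) F d ⊓
              ⨅ g : Matrix.GeneralLinearGroup (Fin n) F,
                LinearMap.ker
                  ((Ideal.Quotient.mkₐ F
                      (Ideal.span (Set.range fun i : Fin n =>
                        (MvPolynomial.X i : MvPolynomial (Fin n) F) ^ (Fintype.card F ^ m)))).toLinearMap
                    ∘ₗ ((MvPolynomial.aeval (fun i : Fin n =>
                          ∑ j : Fin n, (g : Matrix (Fin n) (Fin n) F) i j •
                            (MvPolynomial.X j : MvPolynomial (Fin n) F))).toLinearMap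
                        - LinearMap.id)))) : ℕ) : ℚ))
      = ∑ k ∈ Finset.range (min n m + 1),
          (PowerSeries.X : PowerSeries ℚ) ^ ((n - k) * (Fintype.card F ^ m - Fintype.card F ^ k)) *
            ∏ i ∈ Finset.range k,
              ((1 - (PowerSeries.X : PowerSeries ℚ) ^ (Fintype.card F ^ m - Fintype.card F ^ i)) *
                (1 - (PowerSeries.X : PowerSeries ℚ) ^ (Fintype.card F ^ k - Fintype.card F ^ i))⁻¹) := by
  intro F _ _ n m
  ext d
  rw [PowerSeries.coeff_mk]
  refine (congrArg (Nat.cast : ℕ → ℚ) ((congrArg (fun S : Submodule F _ => Module.finrank F S)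
    (sub_eq F n m d)).trans (Pool.Agent.H268R3.LRS.main_eq F n m d))).trans ?_
  rw [map_sum]
  push_cast
  apply Finset.sum_congr rfl
  intro k _
  rw [Pool.Agent.H268R3.LRS.rhs_eq F m k]
  exact (Pool.Agent.H268R3.LRS.coeff_GF F n m k d).symm

end Pool.Agent.S02527
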