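import Pool.Statements.S02538

set_option autoImplicit false
open Pool Pool.MP_a19302_al

namespace Pool.Agent.S02538

/-- basis indices `(s,t,a)`; the level is `s+t`. -/
abbrev Idx := ℕ × ℕ × ℕ

abbrev V := Idx →₀ ℚ

noncomputable def e (i : Idx) : V := Finsupp.single i 1

/-- the shift operator `y`. -/
noncomputable def Y : Module.End ℚ V :=
  Finsupp.linearCombination ℚ (fun i : Idx => e (i.1, i.2.1, i.2.2 + 1))

/-- the operator `x`. -/
noncomputable def X : Module.End ℚ V :=
  Finsupp.linearCombination ℚ (fun i : Idx =>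
    if 0 < i.2.1 ∧ i.2.2 = i.1 + i.2.1 then e (i.1 + 1, i.2.1 - 1, 0) else 0)

theorem Y_e (s t a : ℕ) : Y (e (s, t, a)) = e (s, t, a + 1) := by
  simp [Y, e]

theorem X_e_fire (s t : ℕ) : X (e (s, t + 1, s + (t + 1))) = e (s + 1, t, 0) := by
  simp [X, e]

theorem X_e_ne (s t a : ℕ) (h : a ≠ s + t) : X (e (s, t, a)) = 0 := by
  simp [X, e, h]

theorem X_e_zero (s a : ℕ) : X (e (s, 0, a)) = 0 := by
  simp [X, e]

theorem Ypow_e (n s t a : ℕ) : (Y ^ n) (e (s, t, a)) = e (s, t, a + n) := by
  induction n generalizing a with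
  | zero => simp
  | succ n ih => rw [pow_succ, Module.End.mul_apply, Y_e, ih]; congr 3; omega

/-- case analysis for the operator `x`. -/
theorem X_e_cases (s t a : ℕ) :
    X (e (s, t, a)) = 0 ∨ (a = s + t ∧ ∃ t', t = t' + 1 ∧ X (e (s, t, a)) = e (s + 1, t', 0)) := by
  rcases t with _ | t
  · left; exact X_e_zero s a
  · by_cases h : a = s + (t + 1)
    · right
      refine ⟨h, t, rfl, ?_⟩
      subst h
      exact X_e_fire s t
    · left; exact X_e_ne _ _ _ h

theorem ext_e {T T' : Module.End ℚ V} (h : ∀ s t a, T (e (s, t, a)) = T' (e (s, t, a))) :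
    T = T' := by
  apply Finsupp.lhom_ext
  rintro ⟨s, t, a⟩ b
  have : (Finsupp.single (s, t, a) b : V) = b • e (s, t, a) := by simp [e]
  rw [this, map_smul, map_smul, h]

/-- different gaps multiply to zero. -/
theorem gap_rel (a b : ℕ) (hab : a ≠ b) : X * Y ^ a * X * Y ^ b * X = 0 := by
  apply ext_e
  intro s t c
  simp only [Module.End.mul_apply, LinearMap.zero_apply]
  rcases X_e_cases s t c with h | ⟨hc, t', ht, h⟩
  · simp [h]
  · rw [h, Ypow_e]
    rcases X_e_cases (s + 1) t' (0 + b) with h2 | ⟨hc2, t'', ht2, h2⟩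
    · rw [h2, map_zero, map_zero]
    · rw [h2, Ypow_e]
      apply X_e_ne
      omega

/-- the algebra -/
noncomputable abbrev A : Subalgebra ℚ (Module.End ℚ V) := Algebra.adjoin ℚ {X, Y}

theorem X_mem : X ∈ A := Algebra.subset_adjoin (by simp)
theorem Y_mem : Y ∈ A := Algebra.subset_adjoin (by simp)

/-- level-`n`, height below `j` part. -/
noncomputable def G (n j : ℕ) : Submodule ℚ V :=
  Submodule.span ℚ {v | ∃ s t a, s + t = n ∧ t < j ∧ v = e (s, t, a)}

theorem e_mem_G {n j s t : ℕ} (a : ℕ) (h1 : s + t = n) (h2 : t < j) : e (s, t, a) ∈ G n j :=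
  Submodule.subset_span ⟨s, t, a, h1, h2, rfl⟩

theorem G_zero (n : ℕ) : G n 0 = ⊥ := by
  unfold G
  rw [Submodule.span_eq_bot]
  rintro v ⟨s, t, a, _, h, _⟩
  omega

theorem A_G (n j : ℕ) (T : Module.End ℚ V) (hT : T ∈ A) : ∀ v ∈ G n j, T v ∈ G n j := by
  induction hT using Algebra.adjoin_induction with
  | mem T hT =>
    intro v hv
    induction hv using Submodule.span_induction with
    | mem v hv =>
      obtain ⟨s, t, a, h1, h2, rfl⟩ := hv
      simp only [Set.mem_insert_iff, Set.mem_singleton_iff] at hT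
      rcases hT with rfl | rfl
      · rcases X_e_cases s t a with h | ⟨hc, t', ht, h⟩
        · rw [h]; exact Submodule.zero_mem _
        · rw [h]; exact e_mem_G _ (by omega) (by omega)
      · rw [Y_e]; exact e_mem_G _ h1 h2
    | zero => simp
    | add x y _ _ hx hy => rw [map_add]; exact Submodule.add_mem _ hx hy
    | smul c x _ hx => rw [map_smul]; exact Submodule.smul_mem _ _ hx
  | algebraMap r =>
    intro v hv
    rw [Module.algebraMap_end_apply]
    exact Submodule.smul_mem _ _ hv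
  | add S T _ _ hS hT => intro v hv; exact Submodule.add_mem _ (hS v hv) (hT v hv)
  | mul S T _ _ hS hT => intro v hv; exact hS _ (hT v hv)

/-- The nilpotent ideal attached to level `n`: operators killing all other levels and lowering the
height on level `n`. -/
noncomputable def I (n : ℕ) : TwoSidedIdeal A := by
  refine TwoSidedIdeal.mk'
    {T : A | (∀ m j, m ≠ n → ∀ v ∈ G m j, (T : Module.End ℚ V) v = 0) ∧
      (∀ j, ∀ v ∈ G n (j + 1), (T : Module.End ℚ V) v ∈ G n j)} ?_ ?_ ?_ ?_ ?_
  · refine ⟨fun m j hm v hv => by simp, fun j v hv => by simp⟩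
  · rintro x y ⟨hx1, hx2⟩ ⟨hy1, hy2⟩
    refine ⟨fun m j hm v hv => ?_, fun j v hv => ?_⟩
    · simp [hx1 m j hm v hv, hy1 m j hm v hv]
    · simpa using Submodule.add_mem _ (hx2 j v hv) (hy2 j v hv)
  · rintro x ⟨hx1, hx2⟩
    refine ⟨fun m j hm v hv => ?_, fun j v hv => ?_⟩
    · simp [hx1 m j hm v hv]
    · simpa using (hx2 j v hv)
  · rintro x y ⟨hy1, hy2⟩
    refine ⟨fun m j hm v hv => ?_, fun j v hv => ?_⟩
    · simp [Module.End.mul_apply, hy1 m j hm v hv]
    · exact A_G _ _ _ x.2 _ (hy2 j v hv)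
  · rintro x y ⟨hx1, hx2⟩
    refine ⟨fun m j hm v hv => ?_, fun j v hv => ?_⟩
    · exact hx1 m j hm _ (A_G _ _ _ y.2 v hv)
    · exact hx2 j _ (A_G _ _ _ y.2 v hv)

theorem mem_I (n : ℕ) (T : A) : T ∈ I n ↔
    (∀ m j, m ≠ n → ∀ v ∈ G m j, (T : Module.End ℚ V) v = 0) ∧
      (∀ j, ∀ v ∈ G n (j + 1), (T : Module.End ℚ V) v ∈ G n j) := by
  unfold I
  exact TwoSidedIdeal.mem_mk' _ _ _ _ _ _ _

theorem prod_lower (n : ℕ) (l : List A) (hl : ∀ T ∈ l, T ∈ I n) (j : ℕ) (v : V)
    (hv : v ∈ G n (j + l.length)) : ((l.prod : A) : Module.End ℚ V) v ∈ G n j := by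
  induction l generalizing j v with
  | nil => simpa using hv
  | cons T l ih =>
    rw [List.prod_cons]
    have h1 := ih (fun S hS => hl S (List.mem_cons_of_mem _ hS)) (j + 1) v (by
      have : j + (T :: l).length = j + 1 + l.length := by simp; omega
      rwa [this] at hv)
    exact ((mem_I n T).1 (hl T (by simp))).2 j _ h1

theorem I_nilp (n : ℕ) : ∃ m : ℕ, ∀ f : Fin m → A, (∀ i, f i ∈ I n) → (List.ofFn f).prod = 0 := by
  refine ⟨n + 1, fun f hf => ?_⟩
  apply Subtype.ext
  apply ext_e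
  intro s t a
  simp only [ZeroMemClass.coe_zero, LinearMap.zero_apply]
  have hl : ∀ T ∈ List.ofFn f, T ∈ I n := by
    intro T hT
    rw [List.mem_ofFn] at hT
    obtain ⟨i, rfl⟩ := hT
    exact hf i
  by_cases hst : s + t = n
  · have := prod_lower n (List.ofFn f) hl 0 (e (s, t, a)) (e_mem_G a hst (by simp; omega))
    rw [G_zero, Submodule.mem_bot] at this
    exact this
  · -- the last factor kills it
    rw [List.ofFn_succ', List.concat_eq_append, List.prod_append, List.prod_singleton]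
    have h0 := ((mem_I n (f (Fin.last n))).1 (hf _)).1 (s + t) (t + 1) hst (e (s, t, a))
      (e_mem_G a rfl (by omega))
    show ((_ : A) : Module.End ℚ V) (((f (Fin.last n) : A) : Module.End ℚ V) (e (s, t, a))) = 0
    rw [h0, map_zero]

noncomputable def xA : A := ⟨X, X_mem⟩
noncomputable def yA : A := ⟨Y, Y_mem⟩

noncomputable def u (n : ℕ) : A := xA * yA ^ n * xA * yA ^ n

theorem coe_u (n : ℕ) : ((u n : A) : Module.End ℚ V) = X * Y ^ n * X * Y ^ n := by
  simp [u, xA, yA]

theorem u_e (n s t a : ℕ) : (X * Y ^ n * X * Y ^ n) (e (s, t, a)) = 0 ∨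
    (s + t = n ∧ ∃ t', t = t' + 2 ∧ (X * Y ^ n * X * Y ^ n) (e (s, t, a)) = e (s + 2, t', 0)) := by
  simp only [Module.End.mul_apply, Ypow_e]
  rcases X_e_cases s t (a + n) with h | ⟨hc, t', ht, h⟩
  · left; simp [h]
  · rw [h, Ypow_e]
    rcases X_e_cases (s + 1) t' (0 + n) with h2 | ⟨hc2, t'', ht2, h2⟩
    · left; exact h2
    · right
      refine ⟨by omega, t'', by omega, ?_⟩
      rw [h2]

theorem u_mem_I (n : ℕ) : u n ∈ I n := by
  rw [mem_I, coe_u]
  constructor
  · intro m j hm v hv
    induction hv using Submodule.span_induction with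
    | mem v hv =>
      obtain ⟨s, t, a, h1, h2, rfl⟩ := hv
      rcases u_e n s t a with h | ⟨h, _⟩
      · exact h
      · omega
    | zero => simp
    | add x y _ _ hx hy => rw [map_add, hx, hy, add_zero]
    | smul c x _ hx => rw [map_smul, hx, smul_zero]
  · intro j v hv
    induction hv using Submodule.span_induction with
    | mem v hv =>
      obtain ⟨s, t, a, h1, h2, rfl⟩ := hv
      rcases u_e n s t a with h | ⟨h, t', ht', h'⟩
      · rw [h]; exact Submodule.zero_mem _
      · rw [h']; exact e_mem_G _ (by omega) (by omega)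
    | zero => simp
    | add x y _ _ hx hy => rw [map_add]; exact Submodule.add_mem _ hx hy
    | smul c x _ hx => rw [map_smul]; exact Submodule.smul_mem _ _ hx

theorem u_fire (s t : ℕ) :
    (X * Y ^ (s + (t + 2)) * X * Y ^ (s + (t + 2))) (e (s, t + 2, 0)) = e (s + 2, t, 0) := by
  simp only [Module.End.mul_apply, Ypow_e]
  have h1 : X (e (s, t + 2, 0 + (s + (t + 2)))) = e (s + 1, t + 1, 0) := by
    have := X_e_fire s (t + 1)
    rw [Nat.zero_add]
    exact this
  rw [h1, Ypow_e]
  have h2 := X_e_fire (s + 1) t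
  rw [show 0 + (s + (t + 2)) = s + 1 + (t + 1) by omega, h2]

theorem u_pow_fire (m k : ℕ) (n : ℕ) (hn : n = 2 * (m + k)) :
    ((X * Y ^ n * X * Y ^ n) ^ m) (e (2 * k, 2 * m, 0)) = e (2 * (m + k), 0, 0) := by
  induction m generalizing k with
  | zero => simp
  | succ m ih =>
    rw [pow_succ, Module.End.mul_apply]
    have h1 := u_fire (2 * k) (2 * m)
    rw [show 2 * k + (2 * m + 2) = n by omega] at h1
    rw [show 2 * (m + 1) = 2 * m + 2 by ring, h1, show 2 * k + 2 = 2 * (k + 1) by ring,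
      ih (k + 1) (by omega)]
    congr 2
    omega

theorem u_pow_ne (m : ℕ) : (u (2 * m)) ^ m ≠ 0 := by
  intro h
  have h1 : ((X * Y ^ (2 * m) * X * Y ^ (2 * m)) ^ m) (e (2 * 0, 2 * m, 0))
      = e (2 * (m + 0), 0, 0) := u_pow_fire m 0 (2 * m) (by ring)
  have h2 : ((u (2 * m) : A) : Module.End ℚ V) ^ m = 0 := by
    have := congrArg (fun T : A => (T : Module.End ℚ V)) h
    simpa using this
  rw [coe_u] at h2
  rw [h2] at h1
  simp only [LinearMap.zero_apply, e] at h1
  have := congrArg (fun f : V => f (2 * (m + 0), 0, 0)) h1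
  simp at this

/-! ### growth -/

noncomputable def op (c : ℕ × ℕ × ℕ × ℕ) : A :=
  yA ^ c.1 * xA * (yA ^ c.2.1 * xA) ^ c.2.2.1 * yA ^ c.2.2.2

theorem gap_relA (a b : ℕ) (hab : a ≠ b) : xA * yA ^ a * xA * yA ^ b * xA = 0 := by
  apply Subtype.ext
  have := gap_rel a b hab
  simpa [xA, yA] using this

theorem y_op (a n r b : ℕ) : yA * op (a, n, r, b) = op (a + 1, n, r, b) := by
  simp only [op, pow_succ', mul_assoc]

theorem x_op_zero (a n b : ℕ) : xA * op (a, n, 0, b) = op (0, a, 1, b) := by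
  simp only [op, pow_zero, pow_one, mul_assoc, one_mul]

theorem x_op_eq (n r b : ℕ) : xA * op (n, n, r, b) = op (0, n, r + 1, b) := by
  simp only [op, pow_zero, one_mul, pow_succ', mul_assoc]

theorem x_op_ne (a n r b : ℕ) (h : a ≠ n) : xA * op (a, n, r + 1, b) = 0 := by
  have h1 := gap_relA a n h
  have : xA * op (a, n, r + 1, b)
      = (xA * yA ^ a * xA * yA ^ n * xA) * ((yA ^ n * xA) ^ r * yA ^ b) := by
    simp only [op, pow_succ', mul_assoc]
  rw [this, h1, zero_mul]

theorem x_ypow (a : ℕ) : xA * yA ^ a = op (0, 0, 0, a) := by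
  simp [op]

noncomputable def V0 : Submodule ℚ A := Submodule.span ℚ {1, xA, yA}

/-- codes -/
def box (n : ℕ) : Finset (ℕ × ℕ × ℕ × ℕ) :=
  Finset.range (n + 1) ×ˢ (Finset.range (n + 1) ×ˢ (Finset.range (n + 1) ×ˢ Finset.range (n + 1)))

noncomputable def S (n : ℕ) : Set A :=
  (op '' (box n : Set (ℕ × ℕ × ℕ × ℕ))) ∪ ((fun a => yA ^ a) '' (Finset.range (n + 1) : Set ℕ))

theorem op_mem_S {n a m r b : ℕ} (ha : a ≤ n) (hm : m ≤ n) (hr : r ≤ n) (hb : b ≤ n) :
    op (a, m, r, b) ∈ S n := by
  left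
  refine ⟨(a, m, r, b), ?_, rfl⟩
  simp [box]
  omega

theorem ypow_mem_S {n a : ℕ} (ha : a ≤ n) : yA ^ a ∈ S n := by
  right
  refine ⟨a, ?_, rfl⟩
  simp
  omega

theorem step (n : ℕ) (v : A) (hv : v ∈ ({1, xA, yA} : Set A)) (w : A) (hw : w ∈ S n) :
    v * w ∈ Submodule.span ℚ (S (n + 1)) := by
  rcases hw with ⟨⟨a, m, r, b⟩, hc, rfl⟩ | ⟨a, ha, rfl⟩
  · simp only [box, Finset.coe_product, Finset.coe_range, Set.mem_prod, Set.mem_Iio] at hc
    obtain ⟨h1, h2, h3, h4⟩ := hc
    simp only [Set.mem_insert_iff, Set.mem_singleton_iff] at hv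
    rcases hv with rfl | rfl | rfl
    · rw [one_mul]
      exact Submodule.subset_span (op_mem_S (by omega) (by omega) (by omega) (by omega))
    · rcases r with _ | r
      · rw [x_op_zero]
        exact Submodule.subset_span (op_mem_S (by omega) (by omega) (by omega) (by omega))
      · by_cases ham : a = m
        · subst ham
          rw [x_op_eq]
          exact Submodule.subset_span (op_mem_S (by omega) (by omega) (by omega) (by omega))
        · rw [x_op_ne _ _ _ _ ham]
          exact Submodule.zero_mem _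
    · rw [y_op]
      exact Submodule.subset_span (op_mem_S (by omega) (by omega) (by omega) (by omega))
  · simp only [Finset.coe_range, Set.mem_Iio] at ha
    simp only [Set.mem_insert_iff, Set.mem_singleton_iff] at hv
    rcases hv with rfl | rfl | rfl
    · rw [one_mul]
      exact Submodule.subset_span (ypow_mem_S (by omega))
    · show xA * yA ^ a ∈ _
      rw [x_ypow]
      exact Submodule.subset_span (op_mem_S (by omega) (by omega) (by omega) (by omega))
    · show yA * yA ^ a ∈ _
      rw [← pow_succ']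
      exact Submodule.subset_span (ypow_mem_S (by omega))

theorem V0_pow_le (n : ℕ) : V0 ^ n ≤ Submodule.span ℚ (S n) := by
  induction n with
  | zero =>
    rw [pow_zero, Submodule.one_eq_span, Submodule.span_le, Set.singleton_subset_iff]
    exact Submodule.subset_span (by simpa using ypow_mem_S (n := 0) (a := 0) le_rfl)
  | succ n ih =>
    rw [pow_succ']
    refine le_trans (mul_le_mul' le_rfl ih) ?_
    unfold V0
    rw [Submodule.span_mul_span, Submodule.span_le]
    rintro _ ⟨v, hv, w, hw, rfl⟩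
    exact step n v hv w hw

theorem finrank_V0_pow (n : ℕ) : Module.finrank ℚ ↥(V0 ^ n) ≤ 2 * (n + 1) ^ 4 := by
  classical
  have hfin : (S n).Finite := by
    unfold S
    exact ((Finset.finite_toSet _).image _).union ((Finset.finite_toSet _).image _)
  have hfd : Module.Finite ℚ ↥(Submodule.span ℚ (S n)) :=
    FiniteDimensional.span_of_finite ℚ hfin
  refine le_trans (Submodule.finrank_mono (V0_pow_le n)) ?_
  set F : Finset A := (box n).image op ∪ (Finset.range (n + 1)).image (fun a => yA ^ a) with hF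
  have hSF : S n = (F : Set A) := by
    simp [S, hF]
  rw [hSF]
  refine le_trans (finrank_span_finset_le_card F) ?_
  refine le_trans (Finset.card_union_le _ _) ?_
  refine le_trans (Nat.add_le_add Finset.card_image_le Finset.card_image_le) ?_
  rw [box, Finset.card_product, Finset.card_product, Finset.card_product, Finset.card_range]
  have : n + 1 ≤ (n + 1) ^ 4 := Nat.le_self_pow (by norm_num) _
  calc (n + 1) * ((n + 1) * ((n + 1) * (n + 1))) + (n + 1)
      = (n + 1) ^ 4 + (n + 1) := by ring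
    _ ≤ 2 * (n + 1) ^ 4 := by omega

theorem adjoin_eq : Algebra.adjoin ℚ ({xA, yA} : Set A) = ⊤ := by
  have h : Algebra.adjoin ℚ
      ((↑) ⁻¹' ({X, Y} : Set (Module.End ℚ V)) : Set A) = ⊤ :=
    Algebra.adjoin_adjoin_coe_preimage
  refine le_antisymm le_top (le_trans (le_of_eq h.symm) (Algebra.adjoin_mono ?_))
  rintro ⟨T, hT⟩ hT'
  simp only [Set.mem_preimage, Set.mem_insert_iff, Set.mem_singleton_iff] at hT'
  rcases hT' with rfl | rfl
  · left; rfl
  · right; rfl

/-- The negation of the preceding statement: Every finitely generated associative algebra over a field with polynomially bounded growth (finite GK dimension) has a nilpotent two-sided ideal containing every nilpotent two-sided ideal. -/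
theorem result :
    ¬ (∀ (k : Type) [Field k] (A : Type) [Ring A] [Algebra k A],
      Algebra.FiniteType k A →
      (∃ V : Submodule k A, FiniteDimensional k V ∧ (1 : A) ∈ V ∧
          Algebra.adjoin k (V : Set A) = ⊤ ∧
          ∃ C d : ℕ, ∀ n : ℕ, Module.finrank k ↥(V ^ n) ≤ C * (n + 1) ^ d) →
      ∃ N : TwoSidedIdeal A,
        (∃ m : ℕ, ∀ f : Fin m → A, (∀ i, f i ∈ N) → (List.ofFn f).prod = 0) ∧
        ∀ I : TwoSidedIdeal A,
          (∃ m : ℕ, ∀ f : Fin m → A, (∀ i, f i ∈ I) → (List.ofFn f).prod = 0) → I ≤ N) := by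
  intro H
  have hft : Algebra.FiniteType ℚ A := by
    classical
    refine ⟨⟨({xA, yA} : Finset A), ?_⟩⟩
    rw [Finset.coe_insert, Finset.coe_singleton]
    exact adjoin_eq
  have hfd : Module.Finite ℚ V0 := by
    unfold V0
    exact Module.Finite.span_of_finite ℚ (Set.toFinite ({1, xA, yA} : Set A))
  have h1V : (1 : A) ∈ V0 := Submodule.subset_span (by simp)
  have hadj : Algebra.adjoin ℚ (V0 : Set A) = ⊤ := by
    rw [eq_top_iff, ← adjoin_eq]
    apply Algebra.adjoin_mono
    intro z hz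
    apply Submodule.subset_span
    simp only [Set.mem_insert_iff, Set.mem_singleton_iff] at hz ⊢
    tauto
  obtain ⟨N, ⟨m, hm⟩, hN⟩ := H ℚ A hft ⟨V0, hfd, h1V, hadj, 2, 4, finrank_V0_pow⟩
  have h1 : u (2 * m) ∈ N := (hN (I (2 * m)) (I_nilp _)) (u_mem_I _)
  have h2 := hm (fun _ => u (2 * m)) (fun _ => h1)
  rw [List.ofFn_const, List.prod_replicate] at h2
  exact u_pow_ne m h2

end Pool.Agent.S02538
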