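import Pool.Statements.S02542

set_option autoImplicit false
open Matrix
open Pool Pool.MP_a20134_al

namespace Pool.Agent.S02542

/-- circulant matrix with first row `8,5,1,1,5`. -/
noncomputable def AA : Matrix (Fin 5) (Fin 5) ℝ :=
  !![8, 5, 1, 1, 5; 5, 8, 5, 1, 1; 1, 5, 8, 5, 1; 1, 1, 5, 8, 5; 5, 1, 1, 5, 8]

/-- the same matrix over the rationals. -/
def AQ : Matrix (Fin 5) (Fin 5) ℚ :=
  !![8, 5, 1, 1, 5; 5, 8, 5, 1, 1; 1, 5, 8, 5, 1; 1, 1, 5, 8, 5; 5, 1, 1, 5, 8]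

/-- the square factor: cyclic shifts of `(p, w, q, 0, 0)` with `p = (1+w)/2`, `q = (w-1)/2`, `w = √5`. -/
noncomputable def BB : Matrix (Fin 5) (Fin 5) ℝ :=
  !![(1 + √5) / 2, 0, 0, (√5 - 1) / 2, √5;
     √5, (1 + √5) / 2, 0, 0, (√5 - 1) / 2;
     (√5 - 1) / 2, √5, (1 + √5) / 2, 0, 0;
     0, (√5 - 1) / 2, √5, (1 + √5) / 2, 0;
     0, 0, (√5 - 1) / 2, √5, (1 + √5) / 2]

/-- the Horn form is copositive. -/
lemma horn_nonneg (a b c d e : ℝ) (ha : 0 ≤ a) (hb : 0 ≤ b) (hc : 0 ≤ c) (hd : 0 ≤ d)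
    (he : 0 ≤ e) :
    0 ≤ a * a + b * b + c * c + d * d + e * e
      - 2 * (a * b + b * c + c * d + d * e + e * a)
      + 2 * (a * c + b * d + c * e + d * a + e * b) := by
  rcases le_total d e with h | h
  · have h1 := mul_nonneg hb hd
    have h2 := mul_nonneg hc (sub_nonneg.2 h)
    nlinarith [sq_nonneg (a - b + c + d - e)]
  · have h1 := mul_nonneg hb he
    have h2 := mul_nonneg ha (sub_nonneg.2 h)
    nlinarith [sq_nonneg (a - b + c - d + e)]

/-- pairing of a symmetric-free matrix with the Horn matrix. -/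
noncomputable def hornPair (S : Matrix (Fin 5) (Fin 5) ℝ) : ℝ :=
  S 0 0 + S 1 1 + S 2 2 + S 3 3 + S 4 4
    - 2 * (S 0 1 + S 1 2 + S 2 3 + S 3 4 + S 4 0)
    + 2 * (S 0 2 + S 1 3 + S 2 4 + S 3 0 + S 4 1)

lemma hornPair_nonneg {m : ℕ} (C : Matrix (Fin 5) (Fin m) ℝ) (hC : ∀ i j, 0 ≤ C i j) :
    0 ≤ hornPair (C * Cᵀ) := by
  have : hornPair (C * Cᵀ) = ∑ k : Fin m,
      (C 0 k * C 0 k + C 1 k * C 1 k + C 2 k * C 2 k + C 3 k * C 3 k + C 4 k * C 4 k
      - 2 * (C 0 k * C 1 k + C 1 k * C 2 k + C 2 k * C 3 k + C 3 k * C 4 k + C 4 k * C 0 k)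
      + 2 * (C 0 k * C 2 k + C 1 k * C 3 k + C 2 k * C 4 k + C 3 k * C 0 k + C 4 k * C 1 k)) := by
    simp only [hornPair, Matrix.mul_apply, Matrix.transpose_apply, Finset.sum_add_distrib,
      Finset.sum_sub_distrib, ← Finset.mul_sum]
  rw [this]
  exact Finset.sum_nonneg fun k _ =>
    horn_nonneg _ _ _ _ _ (hC 0 k) (hC 1 k) (hC 2 k) (hC 3 k) (hC 4 k)

lemma five : √(5:ℝ) * √5 = 5 := Real.mul_self_sqrt (by norm_num)

lemma one_le : (1:ℝ) ≤ √5 := by
  rw [show (1:ℝ) = √1 by simp]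
  exact Real.sqrt_le_sqrt (by norm_num)

lemma BB_nonneg : ∀ i j, 0 ≤ BB i j := by
  have h := one_le
  intro i j
  fin_cases i <;> fin_cases j <;> simp [BB] <;> linarith

lemma AA_eq : AA = BB * BBᵀ := by
  have h := five
  ext i j
  fin_cases i <;> fin_cases j <;>
    simp [AA, BB, Matrix.mul_apply, Fin.sum_univ_five] <;> nlinarith

/-- The negation of the preceding statement: Take a rational 5x5 positive definite, entrywise positive, completely positive matrix on the boundary of the completely positive cone. Then for every nonnegative 5x5 B with A = BBᵀ, each rank-one term b_j b_jᵀ from a column of B has rational entries. -/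
theorem result :
    ¬ (∀ A : Matrix (Fin 5) (Fin 5) ℝ,
      (∀ i j, ∃ q : ℚ, A i j = (q : ℝ)) →
      A.PosDef →
      (∀ i j, 0 < A i j) →
      (∃ m : ℕ, ∃ C : Matrix (Fin 5) (Fin m) ℝ, (∀ i j, 0 ≤ C i j) ∧ A = C * Cᵀ) →
      (∀ ε : ℝ, 0 < ε → ∃ S : Matrix (Fin 5) (Fin 5) ℝ, Sᵀ = S ∧
          (∀ i j, |S i j - A i j| < ε) ∧
          ¬ ∃ m : ℕ, ∃ C : Matrix (Fin 5) (Fin m) ℝ, (∀ i j, 0 ≤ C i j) ∧ S = C * Cᵀ) →
      ∀ B : Matrix (Fin 5) (Fin 5) ℝ, (∀ i j, 0 ≤ B i j) → A = B * Bᵀ →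
        ∀ j i l : Fin 5, ∃ r : ℚ, B i j * B l j = (r : ℝ)) := by
  intro H
  have h5 := five
  have key := H AA ?_ ?_ ?_ ?_ ?_ BB BB_nonneg AA_eq 0 0 0
  · obtain ⟨r, hr⟩ := key
    have h1 : BB 0 0 = (1 + √5) / 2 := by simp [BB]
    rw [h1] at hr
    have h2 : √(5:ℝ) = ((2 * r - 3 : ℚ) : ℝ) := by
      push_cast
      nlinarith
    have h3 : Irrational (√(5:ℝ)) := by
      have := Nat.Prime.irrational_sqrt (p := 5) (by norm_num)
      simpa using this
    exact h3 ⟨_, h2.symm⟩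
  · intro i j
    refine ⟨AQ i j, ?_⟩
    fin_cases i <;> fin_cases j <;> simp [AA, AQ]
  · rw [Matrix.posDef_iff_dotProduct_mulVec]
    constructor
    · ext i j
      fin_cases i <;> fin_cases j <;> simp [AA, Matrix.conjTranspose_apply]
    · intro x hx
      have hexp : star x ⬝ᵥ (AA *ᵥ x) =
          8 * (x 0 + 5/8 * x 1 + 1/8 * x 2 + 1/8 * x 3 + 5/8 * x 4)^2
          + 39/8 * (x 1 + 35/39 * x 2 + 1/13 * x 3 - 17/39 * x 4)^2
          + 154/39 * (x 2 + 177/154 * x 3 + 89/154 * x 4)^2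
          + 405/154 * (x 3 + 59/81 * x 4)^2
          + 100/81 * (x 4)^2 := by
        simp [AA, Matrix.mulVec, dotProduct, Fin.sum_univ_five]
        ring
      rw [hexp]
      by_contra hcon
      push Not at hcon
      apply hx
      have s1 := sq_nonneg (x 0 + 5/8 * x 1 + 1/8 * x 2 + 1/8 * x 3 + 5/8 * x 4)
      have s2 := sq_nonneg (x 1 + 35/39 * x 2 + 1/13 * x 3 - 17/39 * x 4)
      have s3 := sq_nonneg (x 2 + 177/154 * x 3 + 89/154 * x 4)
      have s4 := sq_nonneg (x 3 + 59/81 * x 4)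
      have s5 := sq_nonneg (x 4)
      have e5 : (x 4)^2 = 0 := by linarith
      have e4 : (x 3 + 59/81 * x 4)^2 = 0 := by linarith
      have e3 : (x 2 + 177/154 * x 3 + 89/154 * x 4)^2 = 0 := by linarith
      have e2 : (x 1 + 35/39 * x 2 + 1/13 * x 3 - 17/39 * x 4)^2 = 0 := by linarith
      have e1 : (x 0 + 5/8 * x 1 + 1/8 * x 2 + 1/8 * x 3 + 5/8 * x 4)^2 = 0 := by linarith
      have f5 : x 4 = 0 := by simpa using e5
      have f4 : x 3 = 0 := by
        have := pow_eq_zero_iff (two_ne_zero) |>.1 e4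
        rw [f5] at this; linarith
      have f3 : x 2 = 0 := by
        have := pow_eq_zero_iff (two_ne_zero) |>.1 e3
        rw [f5, f4] at this; linarith
      have f2 : x 1 = 0 := by
        have := pow_eq_zero_iff (two_ne_zero) |>.1 e2
        rw [f5, f4, f3] at this; linarith
      have f1 : x 0 = 0 := by
        have := pow_eq_zero_iff (two_ne_zero) |>.1 e1
        rw [f5, f4, f3, f2] at this; linarith
      ext i
      fin_cases i <;> simp [f1, f2, f3, f4, f5]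
  · intro i j
    fin_cases i <;> fin_cases j <;> simp [AA]
  · exact ⟨5, BB, BB_nonneg, AA_eq⟩
  · intro ε hε
    refine ⟨AA - (ε / 2) • (1 : Matrix (Fin 5) (Fin 5) ℝ), ?_, ?_, ?_⟩
    · ext i j
      fin_cases i <;> fin_cases j <;> simp [AA]
    · intro i j
      have hh : (AA - (ε / 2) • (1 : Matrix (Fin 5) (Fin 5) ℝ)) i j - AA i j
          = - ((ε / 2) * (1 : Matrix (Fin 5) (Fin 5) ℝ) i j) := by
        simp [Matrix.sub_apply, Matrix.smul_apply]
      rw [hh, abs_neg, Matrix.one_apply]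
      split_ifs
      · rw [abs_of_nonneg (by linarith)]; linarith
      · simpa using hε
    · rintro ⟨m, C, hC, hS⟩
      have h0 := hornPair_nonneg C hC
      rw [← hS] at h0
      have h1 : hornPair (AA - (ε / 2) • (1 : Matrix (Fin 5) (Fin 5) ℝ)) = - (5 * (ε / 2)) := by
        simp [hornPair, AA, Matrix.sub_apply, Matrix.smul_apply, Matrix.one_apply]
        ring
      rw [h1] at h0
      linarith

end Pool.Agent.S02542
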