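import Pool.Statements.S02555
import Pool.Agent.Helper29.Forward
import Pool.Agent.Helper29.Backward

set_option autoImplicit false
open Pool Pool.MP_a2b285_al

namespace Pool.Agent.S02555

/-- For every m-group G (ℓ-group with an order-reversing involutive automorphism), G is normal-valued (ab ≤ b²a² for a,b ≥ 1) iff G lies in the variety generated by all n-fold products A^n of the abelian m-group variety. -/
theorem result :
  ∀ (G : Type) [Group G] [Lattice G] [MulLeftMono G] [MulRightMono G] (σ : G → G),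
    (∀ x y : G, σ (x * y) = σ x * σ y) → (∀ x y : G, x ≤ y → σ y ≤ σ x) →
    (∀ x : G, σ (σ x) = x) →
    ((∀ a b : G, 1 ≤ a → 1 ≤ b → a * b ≤ b * b * (a * a)) ↔
     ∃ (P : Type) (_ : Group P) (_ : Lattice P) (_ : MulLeftMono P) (_ : MulRightMono P)
       (τ : P → P) (f : P → G),
       (∀ x y : P, τ (x * y) = τ x * τ y) ∧ (∀ x y : P, x ≤ y → τ y ≤ τ x) ∧
       (∀ x : P, τ (τ x) = x) ∧ Function.Surjective f ∧
       (∀ a b : P, f (a * b) = f a * f b ∧ f (a ⊔ b) = f a ⊔ f b ∧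
          f (a ⊓ b) = f a ⊓ f b ∧ f (τ a) = σ (f a)) ∧
       ∀ x y : P, x ≠ y →
         ∃ (K : Type) (_ : Group K) (_ : Lattice K) (_ : MulLeftMono K) (_ : MulRightMono K)
           (ρ : K → K) (h : P → K),
           (∀ u v : K, ρ (u * v) = ρ u * ρ v) ∧ (∀ u v : K, u ≤ v → ρ v ≤ ρ u) ∧
           (∀ u : K, ρ (ρ u) = u) ∧
           (∀ a b : P, h (a * b) = h a * h b ∧ h (a ⊔ b) = h a ⊔ h b ∧
              h (a ⊓ b) = h a ⊓ h b ∧ h (τ a) = ρ (h a)) ∧
           h x ≠ h y ∧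
           ∃ n : ℕ, ∃ H : ℕ → Set K, H 0 = {1} ∧ H n = Set.univ ∧
             ∀ i : ℕ, (1 : K) ∈ H i ∧
               (∀ a ∈ H i, ∀ b ∈ H i, a * b ∈ H i ∧ a⁻¹ ∈ H i ∧ a ⊔ b ∈ H i ∧
                  a ⊓ b ∈ H i ∧ ρ a ∈ H i) ∧
               (∀ a ∈ H i, ∀ b ∈ H i, ∀ c : K, a ≤ c → c ≤ b → c ∈ H i) ∧
               (∀ a ∈ H i, ∀ g : K, g * a * g⁻¹ ∈ H i) ∧
               H i ⊆ H (i + 1) ∧
               (∀ a ∈ H (i + 1), ∀ b ∈ H (i + 1), a * b * a⁻¹ * b⁻¹ ∈ H i)) := by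
  intro G _ _ _ _ σ hσ hanti hinv
  constructor
  · intro law
    obtain ⟨P, i1, i2, i3, i4, τ, f, h1, h2, h3, h4, h5, h6⟩ :=
      Pool.Agent.Helper29.forward (σ := σ) law hσ hanti hinv
    refine ⟨P, i1, i2, i3, i4, τ, f, h1, h2, h3, h4, h5, ?_⟩
    intro x y hxy
    obtain ⟨n, h, k1, k2⟩ := h6 x y hxy
    exact ⟨Pool.Agent.Helper29.MW n, inferInstance, inferInstance, inferInstance, inferInstance,
      Pool.Agent.Helper29.MW.star, h, fun u v => Pool.Agent.Helper29.MW.star_mul u v,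
      fun u v h => Pool.Agent.Helper29.MW.star_anti h,
      fun u => Pool.Agent.Helper29.MW.star_star u, k1, k2, n, Pool.Agent.Helper29.MW.Hs n,
      Pool.Agent.Helper29.MW.series n⟩
  · rintro ⟨P, i1, i2, i3, i4, τ, f, h1, h2, h3, h4, h5, h6⟩
    have key : ∀ a b : P, 1 ≤ a → 1 ≤ b → a * b ≤ b * b * (a * a) := by
      intro a b ha hb
      by_contra hcon
      have hne : (a * b) ⊔ (b * b * (a * a)) ≠ b * b * (a * a) := by
        intro h
        exact hcon (sup_eq_right.mp h)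
      obtain ⟨K, j1, j2, j3, j4, ρ, h, k1, k2, k3, k4, k5, n, H, m1, m2, m3⟩ := h6 _ _ hne
      have hone : h 1 = 1 := by
        have h' := (k4 1 1).1
        rw [mul_one] at h'
        exact mul_eq_left.mp h'.symm
      have hmono : ∀ u v : P, u ≤ v → h u ≤ h v := by
        intro u v huv
        have h' := (k4 u v).2.1
        rw [sup_eq_right.mpr huv] at h'
        exact sup_eq_right.mp h'.symm
      have hnv : Pool.Agent.Helper29.NV K := by
        refine Pool.Agent.Helper29.series_nv n H m1 m2 (fun i => (m3 i).1)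
          (fun i a ha b hb => ((m3 i).2.1 a ha b hb).1)
          (fun i a ha => ((m3 i).2.1 a ha a ha).2.1)
          (fun i a ha b hb => ((m3 i).2.1 a ha b hb).2.2.1)
          (fun i => (m3 i).2.2.1)
          (fun i => (m3 i).2.2.2.1)
          (fun i => (m3 i).2.2.2.2.2)
      apply k5
      have e1 : h a * h b ≤ h b * h b * (h a * h a) :=
        hnv (h a) (h b) (by rw [← hone]; exact hmono _ _ ha) (by rw [← hone]; exact hmono _ _ hb)
      rw [(k4 _ _).2.1, (k4 a b).1, (k4 (b * b) (a * a)).1, (k4 b b).1, (k4 a a).1]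
      exact sup_eq_right.mpr e1
    intro a b ha hb
    obtain ⟨a', rfl⟩ := h4 a
    obtain ⟨b', rfl⟩ := h4 b
    have hone : f 1 = 1 := by
      have h' := (h5 1 1).1
      rw [mul_one] at h'
      exact mul_eq_left.mp h'.symm
    have ea : f (a' ⊔ 1) = f a' := by
      rw [(h5 a' 1).2.1, hone]
      exact sup_eq_left.mpr ha
    have eb : f (b' ⊔ 1) = f b' := by
      rw [(h5 b' 1).2.1, hone]
      exact sup_eq_left.mpr hb
    have e1 := key (a' ⊔ 1) (b' ⊔ 1) le_sup_right le_sup_right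
    have e2 : f ((a' ⊔ 1) * (b' ⊔ 1)) ≤ f ((b' ⊔ 1) * (b' ⊔ 1) * ((a' ⊔ 1) * (a' ⊔ 1))) := by
      have h' := (h5 ((a' ⊔ 1) * (b' ⊔ 1)) ((b' ⊔ 1) * (b' ⊔ 1) * ((a' ⊔ 1) * (a' ⊔ 1)))).2.1
      rw [sup_eq_right.mpr e1] at h'
      exact sup_eq_right.mp h'.symm
    rw [(h5 _ _).1, (h5 _ _).1, (h5 _ _).1, (h5 _ _).1, ea, eb] at e2
    exact e2

end Pool.Agent.S02555
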