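import Pool.Statements.S02580
import Pool.Agent.H134R3.VershikComb
import Pool.Agent.H134R3.VershikAmen

set_option autoImplicit false
open Pool Pool.MP_a4afae_al

namespace Pool.Agent.S02580

/-- The negation of the preceding statement: For a finitely generated group G and prime p, if dim of F_p[G] modulo the (n+1)-th power of its augmentation ideal is at least C·c^n for some c>1, C>0, then G has no finitely additive left-invariant probability mean on its subsets. -/
theorem result :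
    ¬ (∀ (G : Type) [Group G], Group.FG G → ∀ p : ℕ, p.Prime →
      (∃ c : ℝ, 1 < c ∧ ∃ C : ℝ, 0 < C ∧ ∀ n : ℕ,
        C * c ^ n ≤ (Module.finrank (ZMod p)
          (MonoidAlgebra (ZMod p) G ⧸
            ((Submodule.span (ZMod p)
                (Set.range (fun g : G => MonoidAlgebra.of (ZMod p) G g - 1))) ^ (n + 1) :
              Submodule (ZMod p) (MonoidAlgebra (ZMod p) G))) : ℝ)) →
      ¬ ∃ μ : Set G → ℝ, (∀ S, 0 ≤ μ S) ∧ μ Set.univ = 1 ∧
        (∀ A B : Set G, Disjoint A B → μ (A ∪ B) = μ A + μ B) ∧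
        ∀ (g : G) (S : Set G), μ ((fun x => g * x) ⁻¹' S) = μ S) := by
  intro h
  refine h Pool.H134R3.Vershik.G Pool.H134R3.Vershik.G_fg 2 Nat.prime_two ?_
    Pool.H134R3.Vershik.amenable
  obtain ⟨c, hc⟩ : ∃ c : ℝ, c = (2 : ℝ) ^ ((1 : ℝ) / 7) := ⟨_, rfl⟩
  have hc1 : 1 < c := by
    rw [hc]
    exact Real.one_lt_rpow (by norm_num) (by norm_num)
  have hc7 : c ^ 7 = 2 := by
    rw [hc, ← Real.rpow_natCast, ← Real.rpow_mul (by norm_num)]
    norm_num
  refine ⟨c, hc1, 1 / 2, by norm_num, ?_⟩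
  intro n
  have h1 := Pool.H134R3.Vershik.finrank_bound n
  have h2 : ((2 : ℝ) ^ (n / 7)) ≤ (Module.finrank (ZMod 2)
      (MonoidAlgebra (ZMod 2) Pool.H134R3.Vershik.G ⧸
        ((Submodule.span (ZMod 2)
            (Set.range (fun g : Pool.H134R3.Vershik.G =>
              MonoidAlgebra.of (ZMod 2) Pool.H134R3.Vershik.G g - 1))) ^ (n + 1) :
          Submodule (ZMod 2) (MonoidAlgebra (ZMod 2) Pool.H134R3.Vershik.G))) : ℝ) := by
    exact_mod_cast h1
  have h3 : c ^ n ≤ 2 * 2 ^ (n / 7) := by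
    calc c ^ n ≤ c ^ (7 * (n / 7 + 1)) := pow_le_pow_right₀ hc1.le (by omega)
      _ = 2 ^ (n / 7 + 1) := by rw [pow_mul, hc7]
      _ = 2 * 2 ^ (n / 7) := by rw [pow_succ]; ring
  calc (1 / 2 : ℝ) * c ^ n ≤ 1 / 2 * (2 * 2 ^ (n / 7)) := by
        apply mul_le_mul_of_nonneg_left h3; norm_num
    _ = 2 ^ (n / 7) := by ring
    _ ≤ _ := h2

end Pool.Agent.S02580
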