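import Pool.Statements.S02612
import Pool.Agent.H979R3.Main

set_option autoImplicit false
open Pool Pool.MP_a8b576_al

namespace Pool.Agent.S02612

/-- The negation of the preceding statement: Every ordered division ring K : Type admits a strictly monotone ring hom into an ordered division ring L : Type in which every positive element has a positive n-th root for all n ≥ 1. -/
theorem result :
    ¬ (∀ (K : Type) [DivisionRing K] [LinearOrder K] [IsStrictOrderedRing K],
      ∃ (L : Type) (_ : DivisionRing L) (_ : LinearOrder L) (_ : IsStrictOrderedRing L)
        (f : K →+* L), StrictMono f ∧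
          ∀ x : L, 0 < x → ∀ n : ℕ, 0 < n → ∃ y : L, 0 < y ∧ y ^ n = x) :=
  Pool.Agent.H979R3.final

end Pool.Agent.S02612
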