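import Pool.Statements.S02662
import Pool.Agent.H775R3.NilPer

set_option autoImplicit false
open Pool Pool.MP_ab9402_al

namespace Pool.Agent.S02662

open Pool.Agent.H775R3

/-- The negation of the preceding statement: For every nilpotent group G, any semigroup satisfying all semigroup identities of G in which each element generates a finite subsemigroup has every finitely generated subsemigroup finite. -/
theorem result :
    ¬ (∀ (G : Type) [Group G], Group.IsNilpotent G →
      ∀ (S : Type) [Semigroup S],
        (∀ (n : ℕ) (u v : FreeSemigroup (Fin n)),
          (∀ f : Fin n → G, FreeSemigroup.lift f u = FreeSemigroup.lift f v) →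
          ∀ g : Fin n → S, FreeSemigroup.lift g u = FreeSemigroup.lift g v) →
        (∀ s : S, (Subsemigroup.closure ({s} : Set S) : Set S).Finite) →
        ∀ T : Finset S, (Subsemigroup.closure (T : Set S) : Set S).Finite) := by
  intro h
  obtain ⟨α, hα, h0, h1⟩ := exists_irrational_btwn (zero_lt_one : (0 : ℝ) < 1)
  exact NilPer.not_locally_finite hα h0 h1
    (h NilPer.Fil NilPer.fil_nilpotent (NilPer.SS α) (NilPer.identities α)
      (NilPer.periodic hα))

end Pool.Agent.S02662
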