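import Pool.Statements.S02692
import Pool.Agent.H782R3.BicrossedInv

set_option autoImplicit false
open Pool Pool.MP_ae7646_al

namespace Pool.Agent.S02692

open Polynomial Pool.Agent.H782R3.Bicross Pool.Agent.H782R3.Trunc

/-- an algebraically closed field of characteristic two with a transcendental element -/
abbrev K : Type := AlgebraicClosure (RatFunc (ZMod 2))

noncomputable def phi : (ZMod 2)[X] →+* K :=
  (algebraMap (RatFunc (ZMod 2)) K).comp (algebraMap (ZMod 2)[X] (RatFunc (ZMod 2)))

theorem phi_injective : Function.Injective phi := by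
  unfold phi
  rw [RingHom.coe_comp]
  exact (algebraMap (RatFunc (ZMod 2)) K).injective.comp
    (IsFractionRing.injective (ZMod 2)[X] (RatFunc (ZMod 2)))

/-- the parameters -/
noncomputable def lam (m : ℕ) : K := phi (X ^ (m + 1))

theorem par_eq (m : ℕ) (p : ZMod 2 × ZMod 2) :
    par (lam m) p = phi (C p.1 + C p.2 * X ^ (m + 1)) := by
  unfold par lam
  rw [map_add, map_mul]
  have h : ∀ z : ZMod 2, ZMod.castHom (dvd_refl 2) K z = phi (C z) := by
    intro z
    exact RingHom.congr_fun (Subsingleton.elim (ZMod.castHom (dvd_refl 2) K) (phi.comp C)) z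
  rw [h, h]

theorem no_rel (m n : ℕ) (hmn : m ≠ n) (p q : ZMod 2 × ZMod 2) (hp : par (lam n) p ≠ 0) :
    par (lam n) q ≠ lam m * par (lam n) p := by
  intro h
  rw [par_eq, par_eq, lam, ← map_mul] at h
  have h1 := phi_injective h
  have hp' : p ≠ 0 := by
    rintro rfl
    exact hp (par_zero _)
  apply hp'
  have c1 := congrArg (fun r => r.coeff (m + 1 + (n + 1))) h1
  have c2 := congrArg (fun r => r.coeff (m + 1)) h1
  have e : (X ^ (m + 1) * (C p.1 + C p.2 * X ^ (n + 1)) : (ZMod 2)[X]) =
      C p.1 * X ^ (m + 1) + C p.2 * X ^ (m + 1 + (n + 1)) := by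
    rw [pow_add]; ring
  rw [e] at c1 c2
  simp only [coeff_add, coeff_C_mul, coeff_X_pow, coeff_C] at c1 c2
  have f1 : m + 1 + (n + 1) ≠ 0 := by omega
  have f2 : m + 1 + (n + 1) ≠ n + 1 := by omega
  have f3 : m + 1 + (n + 1) ≠ m + 1 := by omega
  have f4 : m + 1 ≠ 0 := by omega
  have f5 : m + 1 ≠ n + 1 := by omega
  have f6 : m + 1 ≠ m + 1 + (n + 1) := by omega
  rw [if_neg f1, if_neg f2, if_neg f3] at c1
  rw [if_neg f4, if_neg f5, if_neg f6] at c2
  simp at c1 c2
  exact Prod.ext c2.symm c1.symm

/-- The negation of the preceding statement: For finite-dimensional Hopf algebras A, H over any field, Hopf algebras E that factorize as A·H (injective Hopf maps with a⊗h ↦ a·h bijective) fall into finitely many isomorphism classes: any sequence of them has two isomorphic members. -/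
theorem result :
    ¬ (∀ (k : Type) [Field k] (A H : Type) [Ring A] [HopfAlgebra k A] [Ring H] [HopfAlgebra k H],
      FiniteDimensional k A → FiniteDimensional k H →
      ∀ (E : ℕ → Type) [∀ m, Ring (E m)] [∀ m, HopfAlgebra k (E m)],
        (∀ m, ∃ (i : BialgHom k A (E m)) (j : BialgHom k H (E m)),
            Function.Injective i ∧ Function.Injective j ∧
            Function.Bijective
              (TensorProduct.lift
                (((LinearMap.mul k (E m)).comp i.toLinearMap).compl₂ j.toLinearMap))) →
        ∃ m m' : ℕ, m ≠ m' ∧ Nonempty (BialgEquiv k (E m) (E m'))) := by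
  intro hall
  obtain ⟨m, n, hmn, ⟨f⟩⟩ := hall K (TA K (0 : K)) (MonoidAlgebra K G4) inferInstance inferInstance
    (fun m => E (lam m)) (fun m => ⟨incBi (lam m), incG (lam m), incBi_injective _,
      incG_injective _, bij _⟩)
  obtain ⟨p, q, hp, hq⟩ := key (lam m) (lam n) f
  exact no_rel m n hmn p q hp hq

end Pool.Agent.S02692
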