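import Pool.Statements.S02752
import Pool.Agent.H67R3.Ecl7

set_option autoImplicit false
open Pool Pool.MP_b2345f_al

namespace Pool.Agent.S02752

open Pool.Agent.H67R3.Ecl

lemma prod_app (u : List (Fin 7)) : ((u.map (io 0) ++ [io 1 6]).map psi).prod =
    inc 0 (ev u) * inc 1 (val 6) := by
  rw [List.map_append, List.prod_append, prod_io]
  simp [psi_io]

/-- The negation of the preceding statement: For any graph product of groups with finite inverse-closed generating sets ordered so each factor's equal-length conjugacy shortlex language is regular, some total order on the union extending those orders makes the graph product's language regular. -/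
theorem result :
    ¬ (∀ (n : ℕ) (Γ : SimpleGraph (Fin n)) (G : Fin n → Type) [∀ i, Group (G i)]
    (X : ∀ i, Finset (G i))
    (r : ∀ i, {x // x ∈ X i} → {x // x ∈ X i} → Prop),
    (∀ i, IsStrictTotalOrder {x // x ∈ X i} (r i)) →
    (∀ i, ∀ x ∈ X i, x⁻¹ ∈ X i) →
    (∀ i, Subgroup.closure ((X i : Finset (G i)) : Set (G i)) = ⊤) →
    (∀ i, ∃ (σ : Type), Finite σ ∧ ∃ (M : DFA {x // x ∈ X i} σ),
      ∀ w : List {x // x ∈ X i}, w ∈ M.accepts ↔
        ((∀ w' : List {x // x ∈ X i},
            (w'.map Subtype.val).prod = (w.map Subtype.val).prod →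
              w.length < w'.length ∨
                (w.length = w'.length ∧ (w = w' ∨ List.Lex (r i) w w'))) ∧
          ∀ w' : List {x // x ∈ X i},
            IsConj (w.map Subtype.val).prod (w'.map Subtype.val).prod →
              w.length ≤ w'.length)) →
    ∀ (H : Type) [Group H] (φ : Monoid.CoprodI G →* H),
      Function.Surjective φ →
      φ.ker = Subgroup.normalClosure
        {x : Monoid.CoprodI G | ∃ (i j : Fin n), Γ.Adj i j ∧
          ∃ (a : G i) (b : G j),
            x = Monoid.CoprodI.of (M := G) (i := i) a * Monoid.CoprodI.of (M := G) (i := j) b *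
              (Monoid.CoprodI.of (M := G) (i := i) a)⁻¹ *
              (Monoid.CoprodI.of (M := G) (i := j) b)⁻¹} →
    ∃ R : (Σ i, {x // x ∈ X i}) → (Σ i, {x // x ∈ X i}) → Prop,
      IsStrictTotalOrder (Σ i, {x // x ∈ X i}) R ∧
      (∀ i (a b : {x // x ∈ X i}), R ⟨i, a⟩ ⟨i, b⟩ ↔ r i a b) ∧
      ∃ (σ : Type), Finite σ ∧ ∃ (M : DFA (Σ i, {x // x ∈ X i}) σ),
        ∀ w : List (Σ i, {x // x ∈ X i}), w ∈ M.accepts ↔
          ((∀ w' : List (Σ i, {x // x ∈ X i}),
              (w'.map (fun s : (Σ i, {x // x ∈ X i}) =>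
                  φ (Monoid.CoprodI.of (M := G) (i := s.1) s.2.1))).prod =
              (w.map (fun s : (Σ i, {x // x ∈ X i}) =>
                  φ (Monoid.CoprodI.of (M := G) (i := s.1) s.2.1))).prod →
                w.length < w'.length ∨
                  (w.length = w'.length ∧ (w = w' ∨ List.Lex R w w'))) ∧
            ∀ w' : List (Σ i, {x // x ∈ X i}),
              IsConj
                (w.map (fun s : (Σ i, {x // x ∈ X i}) =>
                  φ (Monoid.CoprodI.of (M := G) (i := s.1) s.2.1))).prod
                (w'.map (fun s : (Σ i, {x // x ∈ X i}) =>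
                  φ (Monoid.CoprodI.of (M := G) (i := s.1) s.2.1))).prod →
                w.length ≤ w'.length)) := by
  intro H0
  have hker : (MonoidHom.id CP).ker = Subgroup.normalClosure
        {x : Monoid.CoprodI (fun _ : Fin 2 => G1) | ∃ (i j : Fin 2), (⊥ : SimpleGraph (Fin 2)).Adj i j ∧
          ∃ (a : G1) (b : G1),
            x = Monoid.CoprodI.of (M := fun _ : Fin 2 => G1) (i := i) a *
              Monoid.CoprodI.of (M := fun _ : Fin 2 => G1) (i := j) b *
              (Monoid.CoprodI.of (M := fun _ : Fin 2 => G1) (i := i) a)⁻¹ *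
              (Monoid.CoprodI.of (M := fun _ : Fin 2 => G1) (i := j) b)⁻¹} := by
    have : {x : Monoid.CoprodI (fun _ : Fin 2 => G1) | ∃ (i j : Fin 2), (⊥ : SimpleGraph (Fin 2)).Adj i j ∧
          ∃ (a : G1) (b : G1),
            x = Monoid.CoprodI.of (M := fun _ : Fin 2 => G1) (i := i) a *
              Monoid.CoprodI.of (M := fun _ : Fin 2 => G1) (i := j) b *
              (Monoid.CoprodI.of (M := fun _ : Fin 2 => G1) (i := i) a)⁻¹ *
              (Monoid.CoprodI.of (M := fun _ : Fin 2 => G1) (i := j) b)⁻¹} = ∅ := by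
      ext x
      simp
    rw [this, Subgroup.normalClosure_empty]
    ext x
    simp [MonoidHom.mem_ker]
  obtain ⟨R, hR1, hR2, σ, hσ, M, hM⟩ := H0 2 ⊥ (fun _ => G1) (fun _ => X0) (fun _ => rr)
    (fun _ => rr_sto) (fun _ => X0_inv) (fun _ => X0_closure)
    (fun _ => factor_regular) CP (MonoidHom.id CP) (fun x => ⟨x, rfl⟩) hker
  have hRio : ∀ a b : Fin 7, R (io 0 a) (io 0 b) ↔ a < b := by
    intro a b
    rw [← rr_e]
    exact hR2 0 (e a) (e b)
  -- critical words are accepted
  have hacc : ∀ k, WW (3 * k + 2) ∈ M.accepts := by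
    intro k
    rw [hM]
    exact ⟨fun w' h => WW_SM (3 * k + 2) R hRio w' h, fun w' h => WW_CM k w' h⟩
  -- pigeonhole
  obtain ⟨i, j, hij, hst⟩ : ∃ i j : ℕ, i < j ∧
      M.eval (List.replicate (3 * i + 2) (io 0 0)) = M.eval (List.replicate (3 * j + 2) (io 0 0)) := by
    by_contra hcon
    push Not at hcon
    have hinj : Function.Injective (fun i : ℕ => M.eval (List.replicate (3 * i + 2) (io 0 0))) := by
      intro i j h
      rcases lt_trichotomy i j with h1 | h1 | h1
      · exact absurd h (hcon i j h1)
      · exact h1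
      · exact absurd h.symm (hcon j i h1)
    have := hσ
    exact not_injective_infinite_finite _ hinj
  set a := 3 * i + 2 with ha
  set b := 3 * j + 2 with hb
  let tail : List Al := io 0 6 :: (List.replicate (a + 3) (io 0 0) ++ [io 0 6, io 1 6])
  have hWa : WW a = List.replicate a (io 0 0) ++ tail := by
    simp [WW, yw, tail]
  have h1 : List.replicate b (io 0 0) ++ tail ∈ M.accepts := by
    have h2 := hacc i
    rw [← ha, hWa, DFA.mem_accepts] at h2
    rw [DFA.mem_accepts]
    unfold DFA.eval at h2 hst ⊢
    rw [DFA.evalFrom_of_append] at h2 ⊢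
    rw [← hst]
    exact h2
  rw [hM] at h1
  have h2 := h1.1 ((List.replicate (b - a - 3) (0 : Fin 7) ++ List.replicate (2 * (a + 3)) (1 : Fin 7)).map (io 0) ++
    [io 1 6])
  have hp := ev_replicate_p false
  have hq := ev_replicate_q false
  simp only [pl, ql, sg, Bool.false_eq_true, if_false, one_mul] at hp hq
  have h3 : (List.replicate b (io 0 0) ++ tail).map psi =
      ((List.replicate b (0 : Fin 7) ++ (6 :: (List.replicate (a + 3) 0 ++ [6]))).map (io 0) ++ [io 1 6]).map psi := by
    simp [tail]
  have h4 := h2 (by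
    show (List.map psi _).prod = (List.map psi _).prod
    rw [h3, prod_app, prod_app]
    congr 2
    rw [ev_append, ev_append, ev_cons, ev_append, hp, hp, hq, hp, val_six]
    have hba : a + 3 ≤ b := by omega
    have e1 : ((b - a - 3 : ℕ) : ℤ) = b - a - 3 := by omega
    ext
    · simp [val_six, e1]; ring
    · simp [val_six, e1]; ring
    · simp [val_six])
  have h5 : (List.replicate b (io 0 0) ++ tail).length = b + a + 6 := by
    simp [tail]; omega
  have h6 : ((List.replicate (b - a - 3) (0 : Fin 7) ++ List.replicate (2 * (a + 3)) (1 : Fin 7)).map (io 0) ++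
    [io 1 6]).length = b + a + 4 := by
    simp; omega
  rw [h5, h6] at h4
  omega

end Pool.Agent.S02752
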