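import Pool.Statements.S02808
import Pool.Agent.H272R3.EC.Main
import Pool.Agent.H272R3.EC.W1_helper214
import Pool.Agent.H272R3.EC.V_helper531
import Pool.Agent.H272R3.EC.N0_helper21
import Pool.Agent.H528R3.W2

set_option autoImplicit false
open Pool Pool.MP_b5e13b_al

namespace Pool.Agent.S02808

/-- The negation of the preceding statement: For each class (locally nilpotent torsion-free, locally soluble torsion-free, locally soluble, or locally soluble π-groups for any π), every group existentially closed in that class has no characteristic subgroups other than 1 and itself. -/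
theorem result :
    ¬ (∀ (C : ∀ (K : Type) [Group K], Prop),
      ((∀ (K : Type) [Group K], C K ↔
          ((∀ S : Set K, S.Finite → Group.IsNilpotent ↥(Subgroup.closure S)) ∧
           (∀ g : K, ∀ n : ℕ, 0 < n → g ^ n = 1 → g = 1))) ∨
       (∀ (K : Type) [Group K], C K ↔
          ((∀ S : Set K, S.Finite → IsSolvable ↥(Subgroup.closure S)) ∧
           (∀ g : K, ∀ n : ℕ, 0 < n → g ^ n = 1 → g = 1))) ∨
       (∀ (K : Type) [Group K], C K ↔
          (∀ S : Set K, S.Finite → IsSolvable ↥(Subgroup.closure S))) ∨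
       (∃ π : Set ℕ, ∀ (K : Type) [Group K], C K ↔
          ((∀ S : Set K, S.Finite → IsSolvable ↥(Subgroup.closure S)) ∧
           (∀ g : K, IsOfFinOrder g ∧ ∀ p : ℕ, p.Prime → p ∣ orderOf g → p ∈ π)))) →
      ∀ (G : Type) [Group G], C G →
        (∀ (H : Type) [Group H], C H → ∀ ι : G →* H, Function.Injective ι →
          ∀ (n : ℕ) (E I : List (Monoid.Coprod G (FreeGroup (Fin n)))),
            (∃ φ : Monoid.Coprod G (FreeGroup (Fin n)) →* H,
                φ.comp Monoid.Coprod.inl = ι ∧ (∀ w ∈ E, φ w = 1) ∧ (∀ w ∈ I, φ w ≠ 1)) →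
            (∃ ψ : Monoid.Coprod G (FreeGroup (Fin n)) →* G,
                ψ.comp Monoid.Coprod.inl = MonoidHom.id G ∧ (∀ w ∈ E, ψ w = 1) ∧
                  (∀ w ∈ I, ψ w ≠ 1))) →
        ∀ N : Subgroup G, N.Characteristic → N = ⊥ ∨ N = ⊤) := by
  intro h
  obtain ⟨G, _, hG, hec, R, hR, hR1, hR2⟩ := Pool.Agent.H272R3.EC.main
    Pool.Agent.H272R3.EC.taskA Pool.Agent.H272R3.EC.W1.w1 Pool.Agent.H528R3.W2.w2
    Pool.Agent.H272R3.EC.V.v Pool.Agent.H272R3.EC.N0.n0
  have h1 := h (fun K _ => Pool.Agent.H272R3.EC.LS K)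
    (Or.inr (Or.inr (Or.inl (fun K _ => Iff.rfl)))) G hG hec R hR
  exact h1.elim hR1 hR2

end Pool.Agent.S02808
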