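import Pool.Statements.S02845
import Pool.Agent.H241R3.HMC

set_option autoImplicit false
open Pool Pool.MP_b90438_al

namespace Pool.Agent.S02845

/-- Every locally compact Hausdorff topological group in which every subgroup (subspace topology) admits no strictly coarser Hausdorff group topology is metrizable. -/
theorem result :
  ∀ (G : Type) [Group G] [t : TopologicalSpace G] [IsTopologicalGroup G] [T2Space G]
    [LocallyCompactSpace G],
    (∀ (H : Subgroup G) (τ : TopologicalSpace H),
        TopologicalSpace.induced (Subtype.val : H → G) t ≤ τ →
        @IsTopologicalGroup H τ _ → @T2Space H τ →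
        τ = TopologicalSpace.induced (Subtype.val : H → G) t) →
    TopologicalSpace.MetrizableSpace G := by
  intro G _ t _ _ _ hm
  exact Pool.Agent.H241R3.HM.main G fun H τ h1 h2 h3 => hm H τ h1 h2 h3

end Pool.Agent.S02845
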