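import Pool.Statements.S02868
import Pool.Agent.H51R3.PS.Common
import Pool.Agent.H607R3.PS.Len
import Pool.Agent.H633R3.PS.Loc
import Pool.Agent.H291R3.PSB.Base
import Pool.Agent.H643R3.PS.Tor
import Pool.Agent.H493R3.PS.RegA
import Pool.Agent.H832R3.PS.TaskFL

set_option autoImplicit false
open CategoryTheory CategoryTheory.Limits
open Pool Pool.MP_b9e986_al

namespace Pool.Agent.S02868

open Pool.Agent.H607R3.PS H51R3.PS in
theorem core (hTor : TaskTor) (hreg : TaskRegA) (hFL : TaskFL) :
    ¬ (∀ (R : Type) [CommRing R] [IsNoetherianRing R] [IsLocalRing R]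
      (M N : Type) [AddCommGroup M] [Module R M] [Module.Finite R M]
      [AddCommGroup N] [Module R N] [Module.Finite R N],
      Nontrivial M → Nontrivial N →
      (∀ i : ℕ, 0 < i →
        CategoryTheory.Limits.IsZero
          (((CategoryTheory.Tor (ModuleCat R) i).obj (ModuleCat.of R M)).obj (ModuleCat.of R N))) →
      ringKrullDim (R ⧸ Module.annihilator R M) + ringKrullDim (R ⧸ Module.annihilator R N)
        = ringKrullDim R + ringKrullDim (R ⧸ Module.annihilator R (TensorProduct R M N))) := by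
  intro h
  obtain ⟨T, iT, iL, iN, iD, α, β, γ, hB⟩ := Pool.Agent.H291R3.PSB.taskBase
  obtain ⟨hα, hβ, hγ⟩ := mem_max hB
  have hloc : IsLocalRing (RR T α β γ) :=
    Pool.Agent.H607R3.PS.taskLoc T α β γ hα hβ hγ
  have hA : Nontrivial (RR T α β γ ⧸ (Ideal.span {RR.s} : Ideal (RR T α β γ))) :=
    (injA T α β γ).nontrivial
  have hN : Nontrivial (RR T α β γ ⧸ cI (RR.x : RR T α β γ) RR.y RR.z RR.w RR.s) := by
    by_contra hcon
    rw [not_nontrivial_iff_subsingleton] at hcon
    have h1 := dimN hB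
    rw [ringKrullDim_eq_bot_of_subsingleton] at h1
    exact absurd h1 (by decide)
  have hlen : IsFiniteLength (RR T α β γ) (TensorProduct (RR T α β γ)
      (RR T α β γ ⧸ (Ideal.span {RR.s} : Ideal (RR T α β γ)))
      (RR T α β γ ⧸ cI (RR.x : RR T α β γ) RR.y RR.z RR.w RR.s)) :=
    (TensorProduct.comm _ _ _).isFiniteLength (Pool.Agent.H607R3.PS.Len.taskLen T α β γ hB)
  have hT := hTor (RR T α β γ) (Ideal.span {RR.s}) 7 10 4 _ _ _ _ _ _
    (fun v => compat1 (Ideal.Quotient.mk (Ideal.span {RR.s} : Ideal (RR T α β γ)))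
      RR.x RR.y RR.z RR.w RR.s v)
    (fun v => compat2 (Ideal.Quotient.mk (Ideal.span {RR.s} : Ideal (RR T α β γ)))
      RR.x RR.y RR.z RR.w RR.s v)
    (fun v => compat3 (Ideal.Quotient.mk (Ideal.span {RR.s} : Ideal (RR T α β γ)))
      RR.x RR.y RR.z RR.w RR.s v)
    (exR hB) (exA hreg hB)
  rw [range_d1L] at hT
  have h1 := h (RR T α β γ) (RR T α β γ ⧸ (Ideal.span {RR.s} : Ideal (RR T α β γ)))
    (RR T α β γ ⧸ cI (RR.x : RR T α β γ) RR.y RR.z RR.w RR.s) hA hN hT
  rw [Ideal.annihilator_quotient, Ideal.annihilator_quotient] at h1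
  have h2 := hFL (RR T α β γ) _ hlen
  have h6 : (1 : WithBot ℕ∞) + 3 ≤ 3 := by
    calc (1 : WithBot ℕ∞) + 3 = 3 + 1 := add_comm _ _
      _ ≤ _ := add_le_add (dimA hB) (dimN hB)
      _ = _ := h1
      _ ≤ 3 + 0 := add_le_add (dimR hB) h2
      _ = 3 := add_zero _
  have h7 : (1 : WithBot ℕ∞) + 3 = 4 := by norm_num
  rw [h7] at h6
  exact absurd (by exact_mod_cast h6 : (4 : ℕ) ≤ 3) (by decide)

/-- The negation of the preceding statement: For nonzero finitely generated modules M, N over a Noetherian local ring R with Tor_i(M,N)=0 for all i>0, dim R/ann M + dim R/ann N = dim R + dim R/ann(M⊗N). -/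
theorem result :
    ¬ (∀ (R : Type) [CommRing R] [IsNoetherianRing R] [IsLocalRing R]
      (M N : Type) [AddCommGroup M] [Module R M] [Module.Finite R M]
      [AddCommGroup N] [Module R N] [Module.Finite R N],
      Nontrivial M → Nontrivial N →
      (∀ i : ℕ, 0 < i →
        CategoryTheory.Limits.IsZero
          (((CategoryTheory.Tor (ModuleCat R) i).obj (ModuleCat.of R M)).obj (ModuleCat.of R N))) →
      ringKrullDim (R ⧸ Module.annihilator R M) + ringKrullDim (R ⧸ Module.annihilator R N)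
        = ringKrullDim R + ringKrullDim (R ⧸ Module.annihilator R (TensorProduct R M N))) := by
  exact core Pool.Agent.H643R3.PSTor.taskTor Pool.Agent.H493R3.PS.taskRegA
    Pool.Agent.H832R3.PS.taskFL

end Pool.Agent.S02868
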