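import Pool.Statements.S02871
import Pool.Agent.H494R3.Surj

set_option autoImplicit false
open Pool Pool.MP_ba91e3_al

namespace Pool.Agent.S02871

/-- There are C*-algebras A_n and *-homomorphisms A_f, functorial in monoid maps f: ℕ^m→ℕ^n, with natural monoid isomorphisms from the Murray–von Neumann monoid of projections over A_n onto ℕ^n, i.e. V∘Ψ ≅ id on simplicial monoids. -/
theorem result :
  ∃ (A : ℕ → Type) (_ : ∀ n, NonUnitalCStarAlgebra (A n))
    (F : ∀ m n : ℕ, ((Fin m → ℕ) →+ (Fin n → ℕ)) → (A m →⋆ₙₐ[ℂ] A n))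
    (φ : ∀ n k : ℕ, Matrix (Fin k) (Fin k) (A n) → (Fin n → ℕ)),
    (∀ n : ℕ, F n n (AddMonoidHom.id (Fin n → ℕ)) = NonUnitalStarAlgHom.id ℂ (A n)) ∧
    (∀ (m n l : ℕ) (f : (Fin m → ℕ) →+ (Fin n → ℕ)) (g : (Fin n → ℕ) →+ (Fin l → ℕ)),
      F m l (g.comp f) = (F n l g).comp (F m n f)) ∧
    (∀ (n k l : ℕ) (p : Matrix (Fin k) (Fin k) (A n)) (q : Matrix (Fin l) (Fin l) (A n)),
      p * p = p → p.conjTranspose = p → q * q = q → q.conjTranspose = q →
      ((φ n k p = φ n l q ↔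
          ∃ v : Matrix (Fin l) (Fin k) (A n), v.conjTranspose * v = p ∧ v * v.conjTranspose = q) ∧
        φ n (k + l) (Matrix.reindex finSumFinEquiv finSumFinEquiv (Matrix.fromBlocks p 0 0 q))
          = φ n k p + φ n l q)) ∧
    (∀ (n : ℕ) (x : Fin n → ℕ), ∃ (k : ℕ) (p : Matrix (Fin k) (Fin k) (A n)),
      p * p = p ∧ p.conjTranspose = p ∧ φ n k p = x) ∧
    (∀ (m n : ℕ) (f : (Fin m → ℕ) →+ (Fin n → ℕ)) (k : ℕ) (p : Matrix (Fin k) (Fin k) (A m)),
      p * p = p → p.conjTranspose = p →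
      φ n k (p.map (fun x => F m n f x)) = f (φ m k p)) := by
  refine ⟨Pool.Agent.H494R3.AA, fun n => inferInstance, fun m n f => Pool.Agent.H494R3.Fm f,
    Pool.Agent.H494R3.phi, ?_, ?_, ?_, ?_, ?_⟩
  · intro n
    exact Pool.Agent.H494R3.Fm_id n
  · intro m n l f g
    exact Pool.Agent.H494R3.Fm_comp f g
  · intro n k l p q hp hps hq hqs
    exact ⟨⟨fun h => Pool.Agent.H494R3.equiv_of_phi hp hps hq hqs h,
      fun h => Pool.Agent.H494R3.phi_of_equiv hp hps hq hqs h⟩,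
      Pool.Agent.H494R3.phi_block hp hps hq hqs⟩
  · intro n x
    exact Pool.Agent.H494R3.phi_surj n x
  · intro m n f k p hp hps
    exact Pool.Agent.H494R3.phi_natural f hp hps

end Pool.Agent.S02871
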