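import Pool.Statements.S02882
import Pool.Agent.H476R3.QM

set_option autoImplicit false
open Pool Pool.MP_bb0bfc_al

namespace Pool.Agent.S02882

section aux

open scoped commutatorElement

variable {G : Type} [Group G]

/-- the elements obtained by reversing words which represent the identity -/
def P (S : Finset G) : Subgroup G where
  carrier := {g | ∃ u : List G, (∀ x ∈ u, x ∈ S ∨ x⁻¹ ∈ S) ∧ u.prod = 1 ∧ u.reverse.prod = g}
  mul_mem' := by
    rintro g h ⟨u, u1, u2, u3⟩ ⟨v, v1, v2, v3⟩
    refine ⟨v ++ u, ?_, ?_, ?_⟩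
    · intro x hx
      rcases List.mem_append.1 hx with hx | hx
      · exact v1 x hx
      · exact u1 x hx
    · rw [List.prod_append, u2, v2, one_mul]
    · rw [List.reverse_append, List.prod_append, u3, v3]
  one_mem' := ⟨[], by simp, by simp, by simp⟩
  inv_mem' := by
    rintro g ⟨u, u1, u2, u3⟩
    refine ⟨(u.map (·⁻¹)).reverse, ?_, ?_, ?_⟩
    · intro x hx
      rw [List.mem_reverse, List.mem_map] at hx
      obtain ⟨y, hy, rfl⟩ := hx
      rcases u1 y hy with h | h
      · right; simpa using h
      · left; exact h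
    · rw [← List.prod_inv_reverse, u2, inv_one]
    · rw [List.reverse_reverse]
      have : u.map (·⁻¹) = (u.reverse.map (·⁻¹)).reverse := by simp
      rw [this, ← List.prod_inv_reverse, u3]

theorem mem_P {S : Finset G} {g : G} :
    g ∈ P S ↔ ∃ u : List G, (∀ x ∈ u, x ∈ S ∨ x⁻¹ ∈ S) ∧ u.prod = 1 ∧ u.reverse.prod = g := Iff.rfl

theorem P_conj {S : Finset G} {g x : G} (hx : x ∈ S ∨ x⁻¹ ∈ S) (hg : g ∈ P S) :
    x * g * x⁻¹ ∈ P S := by
  obtain ⟨u, u1, u2, u3⟩ := hg
  refine ⟨x⁻¹ :: (u ++ [x]), ?_, ?_, ?_⟩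
  · intro y hy
    rw [List.mem_cons, List.mem_append, List.mem_singleton] at hy
    rcases hy with rfl | hy | rfl
    · rcases hx with h | h
      · right; simpa using h
      · left; exact h
    · exact u1 y hy
    · exact hx
  · simp [u2]
  · simp [u3, mul_assoc]

theorem P_normal {S : Finset G} (hS : Subgroup.closure (S : Set G) = ⊤) : (P S).Normal := by
  constructor
  intro n hn g
  have hg : g ∈ Subgroup.closure (S : Set G) := by rw [hS]; trivial
  rw [← Subgroup.mem_toSubmonoid, Subgroup.closure_toSubmonoid] at hg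
  obtain ⟨l, hl, rfl⟩ := Submonoid.exists_list_of_mem_closure hg
  clear hg
  induction l with
  | nil => simpa using hn
  | cons x l ih =>
    have h1 := ih (fun y hy => hl y (List.mem_cons_of_mem _ hy))
    have h2 := P_conj (x := x) (by simpa using hl x List.mem_cons_self) h1
    have e : (x :: l).prod * n * (x :: l).prod⁻¹ = x * (l.prod * n * l.prod⁻¹) * x⁻¹ := by
      rw [List.prod_cons]; group
    rw [e]; exact h2

/-- an element of `P S` is a palindrome -/
theorem P_pal {S : Finset G} {g : G} (hg : g ∈ P S) :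
    ∃ w : List G, w.reverse = w ∧ (∀ x ∈ w, x ∈ S ∨ x⁻¹ ∈ S) ∧ w.prod = g := by
  obtain ⟨u, u1, u2, u3⟩ := hg
  refine ⟨u ++ u.reverse, by simp, ?_, ?_⟩
  · intro x hx
    rw [List.mem_append, List.mem_reverse] at hx
    rcases hx with hx | hx <;> exact u1 x hx
  · rw [List.prod_append, u2, u3, one_mul]

/-- a power of a generator is a palindrome -/
theorem pow_pal {S : Finset G} {a : G} (ha : a ∈ S) (m : ℤ) :
    ∃ w : List G, w.reverse = w ∧ (∀ x ∈ w, x ∈ S ∨ x⁻¹ ∈ S) ∧ w.prod = a ^ m := by
  rcases m with m | m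
  · refine ⟨List.replicate m a, by simp, ?_, by simp⟩
    intro x hx
    rw [List.eq_of_mem_replicate hx]
    exact Or.inl ha
  · refine ⟨List.replicate (m + 1) a⁻¹, by simp, ?_, by simp [zpow_negSucc]⟩
    intro x hx
    rw [List.eq_of_mem_replicate hx]
    right; simpa using ha

end aux

open scoped commutatorElement

/-- the generating set `{a, b, ab}` -/
noncomputable def S0 : Finset (FreeGroup Bool) := by
  classical
  exact {FreeGroup.of true, FreeGroup.of false, FreeGroup.of true * FreeGroup.of false}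

theorem S0_a : FreeGroup.of true ∈ S0 := by simp [S0]
theorem S0_b : FreeGroup.of false ∈ S0 := by simp [S0]
theorem S0_ab : FreeGroup.of true * FreeGroup.of false ∈ S0 := by simp [S0]

theorem S0_closure : Subgroup.closure (S0 : Set (FreeGroup Bool)) = ⊤ := by
  rw [eq_top_iff, ← FreeGroup.closure_range_of, Subgroup.closure_le]
  rintro _ ⟨b, rfl⟩
  cases b
  · exact Subgroup.subset_closure S0_b
  · exact Subgroup.subset_closure S0_a

theorem comm_mem : ⁅(FreeGroup.of false)⁻¹, (FreeGroup.of true)⁻¹⁆ ∈ P S0 := by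
  refine ⟨[FreeGroup.of true, FreeGroup.of false, (FreeGroup.of true * FreeGroup.of false)⁻¹],
    ?_, ?_, ?_⟩
  · intro x hx
    simp only [List.mem_cons, List.not_mem_nil, or_false] at hx
    rcases hx with rfl | rfl | rfl
    · exact Or.inl S0_a
    · exact Or.inl S0_b
    · right; rw [inv_inv]; exact S0_ab
  · simp
  · simp [commutatorElement_def, mul_assoc]

/-- modulo `P S0` every element is `a ^ m * b ^ n` -/
theorem exists_form (g : FreeGroup Bool) : ∃ m n : ℤ, ∃ k ∈ P S0,
    g = FreeGroup.of true ^ m * FreeGroup.of false ^ n * k := by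
  have := P_normal S0_closure
  let q : FreeGroup Bool →* FreeGroup Bool ⧸ P S0 := QuotientGroup.mk' (P S0)
  have hab : q (FreeGroup.of true) * q (FreeGroup.of false) =
      q (FreeGroup.of false) * q (FreeGroup.of true) := by
    have h := (QuotientGroup.eq_one_iff _).2 comm_mem
    have h' : q ⁅(FreeGroup.of false)⁻¹, (FreeGroup.of true)⁻¹⁆ = 1 := h
    rw [commutatorElement_def] at h'
    simp only [map_mul, map_inv, inv_inv] at h'
    have e := congrArg (fun z => q (FreeGroup.of true) * (q (FreeGroup.of false) * z)) h'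
    simp only [mul_one] at e
    rw [← e]
    group
  have hc : Commute (q (FreeGroup.of true)) (q (FreeGroup.of false)) := hab
  have key : ∀ g : FreeGroup Bool, ∃ m n : ℤ,
      q g = q (FreeGroup.of true) ^ m * q (FreeGroup.of false) ^ n := by
    intro g
    induction g using FreeGroup.induction_on with
    | C1 => exact ⟨0, 0, by simp⟩
    | of x =>
      cases x
      · exact ⟨0, 1, by simp⟩
      · exact ⟨1, 0, by simp⟩
    | inv_of x _ =>
      cases x
      · exact ⟨0, -1, by simp⟩
      · exact ⟨-1, 0, by simp⟩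
    | mul x y hx hy =>
      obtain ⟨m, n, h⟩ := hx
      obtain ⟨m', n', h'⟩ := hy
      refine ⟨m + m', n + n', ?_⟩
      rw [map_mul, h, h', zpow_add, zpow_add]
      have := (hc.zpow_zpow m' n).eq
      simp only [mul_assoc]
      rw [← mul_assoc (q (FreeGroup.of false) ^ n), ← this]
      simp only [mul_assoc]
  obtain ⟨m, n, h⟩ := key g
  refine ⟨m, n, (FreeGroup.of true ^ m * FreeGroup.of false ^ n)⁻¹ * g, ?_, by group⟩
  rw [← QuotientGroup.eq]
  change q _ = q _
  rw [h]
  simp

/-- The negation of the preceding statement: For every finitely generated group G: some finite generating set gives a uniform bound on the number of palindromic words needed to write any element iff there is a uniform bound on the number of commutators needed to write any element of the derived subgroup. -/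
theorem result :
    ¬ (∀ (G : Type) [Group G] [Group.FG G],
      (∃ S : Finset G, Subgroup.closure (S : Set G) = ⊤ ∧
        ∃ n : ℕ, ∀ g : G, ∃ L : List (List G), L.length ≤ n ∧
          (∀ w ∈ L, w.reverse = w ∧ ∀ x ∈ w, x ∈ S ∨ x⁻¹ ∈ S) ∧
          (L.map List.prod).prod = g) ↔
      (∃ n : ℕ, ∀ g ∈ commutator G, ∃ l : List G, l.length ≤ n ∧
          (∀ c ∈ l, c ∈ commutatorSet G) ∧ l.prod = g)) := by
  intro H
  refine Pool.Agent.H476R3.QM.infinite_width ((H (FreeGroup Bool)).1 ?_)
  refine ⟨S0, S0_closure, 3, ?_⟩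
  intro g
  obtain ⟨m, n, k, hk, rfl⟩ := exists_form g
  obtain ⟨w1, a1, b1, c1⟩ := pow_pal S0_a m
  obtain ⟨w2, a2, b2, c2⟩ := pow_pal S0_b n
  obtain ⟨w3, a3, b3, c3⟩ := P_pal hk
  refine ⟨[w1, w2, w3], by simp, ?_, ?_⟩
  · intro w hw
    simp only [List.mem_cons, List.not_mem_nil, or_false] at hw
    rcases hw with rfl | rfl | rfl
    · exact ⟨a1, b1⟩
    · exact ⟨a2, b2⟩
    · exact ⟨a3, b3⟩
  · simp [c1, c2, c3, mul_assoc]

end Pool.Agent.S02882
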