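import Pool.Statements.S02908

set_option autoImplicit false
open Pool Pool.MP_bd517a_al

namespace Pool.Agent.S02908

/-- The group of affine maps `x ↦ 2 ^ i * x + c` of the field with five elements (order 20). -/
structure F20 : Type where
  i : ZMod 4
  c : ZMod 5
  deriving DecidableEq, Fintype

namespace F20

/-- the multiplier `2 ^ i` -/
def w (i : ZMod 4) : ZMod 5 := 2 ^ i.val

theorem w_add : ∀ i j : ZMod 4, w (i + j) = w i * w j := by decide

theorem w_zero : w 0 = 1 := by decide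

instance : Mul F20 := ⟨fun x y => ⟨x.i + y.i, x.c + w x.i * y.c⟩⟩
instance : One F20 := ⟨⟨0, 0⟩⟩
instance : Inv F20 := ⟨fun x => ⟨-x.i, -(w (-x.i) * x.c)⟩⟩

theorem mul_def (x y : F20) : x * y = ⟨x.i + y.i, x.c + w x.i * y.c⟩ := rfl
theorem one_def : (1 : F20) = ⟨0, 0⟩ := rfl
theorem inv_def (x : F20) : x⁻¹ = ⟨-x.i, -(w (-x.i) * x.c)⟩ := rfl

instance : Group F20 := Group.ofLeftAxioms
  (by
    intro x y z
    simp only [mul_def, F20.mk.injEq, w_add]
    constructor <;> ring)
  (by
    intro x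
    simp only [mul_def, one_def, w_zero, zero_add, one_mul])
  (by
    intro x
    simp only [mul_def, one_def, inv_def, F20.mk.injEq]
    constructor <;> ring)

/-- the two generators `x ↦ 2 x + 1` and `x ↦ 2 x - 1` -/
def a : F20 := ⟨1, 1⟩
def b : F20 := ⟨1, -1⟩
/-- the two elements `x ↦ 3 x + 1` and `x ↦ 3 x - 1` -/
def a' : F20 := ⟨3, 1⟩
def b' : F20 := ⟨3, -1⟩

/-- the digraph isomorphism -/
def f : F20 ≃ F20 where
  toFun x := ⟨-x.i, x.c⟩
  invFun x := ⟨-x.i, x.c⟩
  left_inv := by intro x; simp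
  right_inv := by intro x; simp

theorem f_spec : ∀ x y : F20, (x⁻¹ * y = a ∨ x⁻¹ * y = b) ↔
    ((f x)⁻¹ * f y = a' ∨ (f x)⁻¹ * f y = b') := by decide

theorem gen : ∀ x : F20, ∃ i : Fin 4, ∃ j : Fin 5, x = (a * b⁻¹) ^ j.val * a ^ i.val := by decide

theorem key1 : a * (a * b⁻¹) * a⁻¹ = (a * b⁻¹) ^ 2 := by decide

theorem key2 : a' * (a' * b'⁻¹) * a'⁻¹ ≠ (a' * b'⁻¹) ^ 2 := by decide

theorem key3 : b' * (b' * a'⁻¹) * b'⁻¹ ≠ (b' * a'⁻¹) ^ 2 := by decide

theorem noncomm : a * b ≠ b * a := by decide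

theorem a_ne_b : a ≠ b := by decide

theorem closure_eq : Subgroup.closure ({a, b} : Set F20) = ⊤ := by
  rw [eq_top_iff]
  intro x _
  obtain ⟨i, j, hx⟩ := gen x
  have ha : a ∈ Subgroup.closure ({a, b} : Set F20) := Subgroup.subset_closure (by simp)
  have hb : b ∈ Subgroup.closure ({a, b} : Set F20) := Subgroup.subset_closure (by simp)
  rw [hx]
  exact Subgroup.mul_mem _ (Subgroup.pow_mem _ (Subgroup.mul_mem _ ha (Subgroup.inv_mem _ hb)) _)
    (Subgroup.pow_mem _ ha _)

theorem closure_min : ∀ S' : Set F20, S' ⊂ {a, b} → Subgroup.closure S' ≠ ⊤ := by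
  intro S' hS' htop
  have aux : ∀ u v : F20, u * v ≠ v * u → S' ⊆ {u} → False := by
    intro u v huv hu
    have h1 : Subgroup.closure S' ≤ Subgroup.centralizer {u} := by
      rw [Subgroup.closure_le]
      intro z hz
      have : z = u := hu hz
      rw [this]
      intro y hy
      rw [Set.mem_singleton_iff.1 hy]
    rw [htop] at h1
    have h2 : v ∈ Subgroup.centralizer {u} := h1 (Subgroup.mem_top v)
    exact huv (h2 u rfl)
  obtain ⟨z, hz, hz'⟩ := Set.exists_of_ssubset hS'
  simp only [Set.mem_insert_iff, Set.mem_singleton_iff] at hz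
  rcases hz with rfl | rfl
  · refine aux b a noncomm.symm ?_
    intro y hy
    have := hS'.1 hy
    simp only [Set.mem_insert_iff, Set.mem_singleton_iff] at this
    rcases this with rfl | rfl
    · exact absurd hy hz'
    · rfl
  · refine aux a b noncomm ?_
    intro y hy
    have := hS'.1 hy
    simp only [Set.mem_insert_iff, Set.mem_singleton_iff] at this
    rcases this with rfl | rfl
    · rfl
    · exact absurd hy hz'

end F20

open F20

/-- The negation of the preceding statement: In every finite group, every inclusion-minimal generating set S is a CI-subset: if Cay(G,S) and Cay(G,T) are isomorphic digraphs, some group automorphism maps S onto T. -/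
theorem result :
    ¬ (∀ (G : Type) [Group G] [Finite G] (S : Set G),
      (Subgroup.closure S = ⊤ ∧ ∀ S' : Set G, S' ⊂ S → Subgroup.closure S' ≠ ⊤) →
      ∀ T : Set G,
        (∃ f : G ≃ G, ∀ x y : G, x⁻¹ * y ∈ S ↔ (f x)⁻¹ * f y ∈ T) →
        ∃ σ : MulAut G, ⇑σ '' S = T) := by
  intro h
  have h1 : Subgroup.closure ({a, b} : Set F20) = ⊤ := closure_eq
  have h2 : ∀ S' : Set F20, S' ⊂ {a, b} → Subgroup.closure S' ≠ ⊤ := closure_min
  have h3 : ∀ x y : F20, x⁻¹ * y ∈ ({a, b} : Set F20) ↔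
      (f x)⁻¹ * f y ∈ ({a', b'} : Set F20) := by
    intro x y
    simpa only [Set.mem_insert_iff, Set.mem_singleton_iff] using f_spec x y
  obtain ⟨σ, hσ⟩ := h F20 {a, b} ⟨h1, h2⟩ {a', b'} ⟨f, h3⟩
  · have ha : σ a ∈ ({a', b'} : Set F20) := by
      rw [← hσ]; exact ⟨a, by simp, rfl⟩
    have hb : σ b ∈ ({a', b'} : Set F20) := by
      rw [← hσ]; exact ⟨b, by simp, rfl⟩
    have hab : σ a ≠ σ b := fun e => a_ne_b (σ.injective e)
    have hk : σ a * (σ a * (σ b)⁻¹) * (σ a)⁻¹ = (σ a * (σ b)⁻¹) ^ 2 := by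
      have := congrArg σ key1
      simpa only [map_mul, map_inv, map_pow] using this
    simp only [Set.mem_insert_iff, Set.mem_singleton_iff] at ha hb
    rcases ha with ha | ha <;> rcases hb with hb | hb
    · exact hab (ha.trans hb.symm)
    · rw [ha, hb] at hk; exact key2 hk
    · rw [ha, hb] at hk; exact key3 hk
    · exact hab (ha.trans hb.symm)

end Pool.Agent.S02908
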