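-- Negation of the frozen statement: the closed unit interval has no detecting group in
-- regularity 1, since doubling turns every action on the interval into an action on the circle.
import Pool.Statements.S02968
import Pool.Agent.H89R3.Dbl

set_option autoImplicit false
open Pool Pool.MP_c1d873_al

namespace Pool.Agent.S02968

/-- The negation of the preceding statement: For every regularity k≥1 (or ∞) and every compact connected smooth n-manifold M (n≥1, boundary allowed) there is a finitely generated group acting faithfully by C^k diffeomorphisms on a compact connected n-manifold N iff N is C^k-diffeomorphic to M. -/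
theorem result :
    ¬ (∀ (k : ℕ∞), 1 ≤ k →
  ∀ (n : ℕ) [NeZero n] (M : Type) [TopologicalSpace M] [T2Space M] [CompactSpace M]
    [ConnectedSpace M] [ChartedSpace (EuclideanHalfSpace n) M]
    [IsManifold (modelWithCornersEuclideanHalfSpace n) ((⊤ : ℕ∞) : WithTop ℕ∞) M],
  ∃ (G : Type) (_ : Group G), Group.FG G ∧
    ∀ (N : Type) [TopologicalSpace N] [T2Space N] [CompactSpace N] [ConnectedSpace N]
      [ChartedSpace (EuclideanHalfSpace n) N]
      [IsManifold (modelWithCornersEuclideanHalfSpace n) ((⊤ : ℕ∞) : WithTop ℕ∞) N],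
      ((∃ ρ : G →* Equiv.Perm N, Function.Injective ρ ∧
          ∀ g : G, ContMDiff (modelWithCornersEuclideanHalfSpace n)
            (modelWithCornersEuclideanHalfSpace n) (k : WithTop ℕ∞) (ρ g)) ↔
        Nonempty (Diffeomorph (modelWithCornersEuclideanHalfSpace n)
          (modelWithCornersEuclideanHalfSpace n) M N (k : WithTop ℕ∞)))) := by
  intro H
  haveI : Fact ((0:ℝ) < 1) := ⟨zero_lt_one⟩
  haveI : ConnectedSpace (Set.Icc (0:ℝ) 1) :=
    Subtype.connectedSpace (isConnected_Icc zero_le_one)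
  obtain ⟨G, _, _, hG⟩ := H 1 le_rfl 1 (Set.Icc (0:ℝ) 1)
  obtain ⟨ρ, hρ, hd⟩ := (hG (Set.Icc (0:ℝ) 1)).mpr ⟨Diffeomorph.refl _ _ _⟩
  have hd' : ∀ g : G, ContMDiff (modelWithCornersEuclideanHalfSpace 1)
      (modelWithCornersEuclideanHalfSpace 1) 1 (ρ g) := fun g => hd g
  have hP : ∀ g : G, Pool.Agent.H89R3.Circ.P (ρ g) := fun g =>
    Pool.Agent.H89R3.Circ.P_of_cont (ρ g) (hd' g).continuous
  have hinv : ∀ g : G, ∀ x, Pool.Agent.H89R3.Circ.D (ρ g⁻¹) (Pool.Agent.H89R3.Circ.D (ρ g) x) = x := by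
    intro g x
    rw [Pool.Agent.H89R3.Circ.D_comp _ _ (hP _) (hP _)]
    have : (⇑(ρ g⁻¹) ∘ ⇑(ρ g)) = id := by
      funext t
      simp
    rw [this, Pool.Agent.H89R3.Circ.D_id]
  let ρ' : G →* Equiv.Perm Pool.Agent.H89R3.Circ.N :=
    { toFun := fun g =>
        { toFun := Pool.Agent.H89R3.Circ.D (ρ g)
          invFun := Pool.Agent.H89R3.Circ.D (ρ g⁻¹)
          left_inv := hinv g
          right_inv := fun x => by
            have := hinv g⁻¹ x
            rwa [inv_inv] at this }
      map_one' := by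
        ext x
        simp only [map_one, Equiv.coe_fn_mk, Equiv.Perm.coe_one]
        exact Pool.Agent.H89R3.Circ.D_id x
      map_mul' := fun g h => by
        ext x
        simp only [map_mul, Equiv.coe_fn_mk, Equiv.Perm.coe_mul, Function.comp_apply]
        rw [Pool.Agent.H89R3.Circ.D_comp _ _ (hP _) (hP _)] }
  obtain ⟨Φ⟩ := (hG Pool.Agent.H89R3.Circ.N).mp ⟨ρ', by
    rw [injective_iff_map_eq_one]
    intro g hg
    apply hρ
    rw [map_one]
    ext t
    have h1 : Pool.Agent.H89R3.Circ.D (ρ g) ((t : ℝ) : Pool.Agent.H89R3.Circ.N) = ((t : ℝ) : Pool.Agent.H89R3.Circ.N) := by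
      have := congrArg (fun σ : Equiv.Perm Pool.Agent.H89R3.Circ.N => σ ((t : ℝ) : Pool.Agent.H89R3.Circ.N)) hg
      exact this
    rw [Pool.Agent.H89R3.Circ.D_pos] at h1
    have h2 := Pool.Agent.H89R3.Circ.coe_inj_M (ρ g t).2 t.2 h1
    simpa using h2, fun g => Pool.Agent.H89R3.Circ.D_contMDiff _ (hP g) (hd' g)⟩
  exact Pool.Agent.H89R3.Circ.no_homeo Φ.symm Φ.symm.continuous Φ.symm.injective

end Pool.Agent.S02968
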