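import Pool.Statements.S03016
import Pool.Agent.H435R3.Hayashi

set_option autoImplicit false
open Pool Pool.MP_c8c3c9_al

namespace Pool.Agent.S03016

/-- The negation of the preceding statement: For every finite connected rack X and every x in X, some cycle of the permutation y ↦ x ▷ y has a length that every other cycle length of that permutation divides; that is, all cycle lengths divide the largest one. -/
theorem result :
    ¬ (∀ (X : Type) [Rack X] [Finite X],
      (∀ y z : X, Relation.EqvGen (fun a b : X => ∃ x : X, Shelf.act x a = b) y z) →
      ∀ x : X, ∃ w : X, ∀ z : X,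
        Function.minimalPeriod (Shelf.act x) z ∣ Function.minimalPeriod (Shelf.act x) w) := by
  intro H
  refine Pool.Agent.H435R3.Hayashi.main ?_
  intro X _ _ hconn x
  have hE : ∀ y z : X, Relation.EqvGen (fun a b : X => ∃ x : X, Shelf.act x a = b) y z := by
    have key : ∀ g ∈ Subgroup.closure (Set.range (Rack.act' : X → Equiv.Perm X)), ∀ y : X,
        Relation.EqvGen (fun a b : X => ∃ x : X, Shelf.act x a = b) y (g y) := by
      intro g hg
      induction hg using Subgroup.closure_induction with
      | mem g hg =>
        obtain ⟨w, rfl⟩ := hg
        intro y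
        exact Relation.EqvGen.rel _ _ ⟨w, rfl⟩
      | one => intro y; exact Relation.EqvGen.refl _
      | mul g h _ _ ihg ihh =>
        intro y
        exact Relation.EqvGen.trans _ _ _ (ihh y) (ihg (h y))
      | inv g _ ih =>
        intro y
        have h1 := ih (g⁻¹ y)
        have h2 : g (g⁻¹ y) = y := by
          rw [← Equiv.Perm.mul_apply, mul_inv_cancel, Equiv.Perm.one_apply]
        rw [h2] at h1
        exact Relation.EqvGen.symm _ _ h1
    intro y z
    obtain ⟨g, hg, rfl⟩ := hconn y z
    exact key g hg y
  obtain ⟨w, hw⟩ := H X hE x
  exact ⟨w, hw⟩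

end Pool.Agent.S03016
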