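import Pool.Statements.S03022
import Pool.Agent.H42R3.TwoSided

set_option autoImplicit false
open scoped Pointwise
open Pool Pool.MP_c8ecde_al

namespace Pool.Agent.S03022

/-- The negation of the preceding statement: For every group G and every partition of G into n cells, some cell A satisfies G = F·A·A⁻¹·F⁻¹ for some finite set F ⊆ G with at most n elements. -/
theorem result :
    ¬ (∀ (G : Type) [Group G] (n : ℕ) (A : Fin n → Set G),
      (∀ i j, i ≠ j → Disjoint (A i) (A j)) →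
      (⋃ i, A i) = Set.univ →
      ∃ i : Fin n, ∃ F : Finset G, F.card ≤ n ∧
        (F : Set G) * A i * (A i)⁻¹ * (F : Set G)⁻¹ = Set.univ) := by
  classical
  intro H
  obtain ⟨c, hc⟩ := Pool.Agent.H42R3.TwoSided.exists_good
  obtain ⟨i, F, hF, hcov⟩ := H (FreeGroup ℕ) 11 (fun i => {x | c x = i})
    (by
      intro i j hij
      rw [Set.disjoint_left]
      intro x hx hx'
      exact hij (hx.symm.trans hx'))
    (by
      ext x
      simp only [Set.mem_iUnion, Set.mem_univ, iff_true]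
      exact ⟨c x, rfl⟩)
  obtain ⟨t, ht⟩ := hc i (F.image (fun p => p⁻¹)) (F.image (fun p => p⁻¹))
    (Finset.card_image_le.trans hF) (Finset.card_image_le.trans hF)
  have hmem : t ∈ (F : Set (FreeGroup ℕ)) * {x | c x = i} * ({x | c x = i} : Set (FreeGroup ℕ))⁻¹ *
      (F : Set (FreeGroup ℕ))⁻¹ := by
    rw [hcov]; exact Set.mem_univ _
  obtain ⟨u, hu, f', hf', huf⟩ := Set.mem_mul.1 hmem
  obtain ⟨v, hv, b', hb', hvb⟩ := Set.mem_mul.1 hu
  obtain ⟨f, hf, a, ha, hfa⟩ := Set.mem_mul.1 hv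
  have hb : c b'⁻¹ = i := hb'
  have hf'2 : f'⁻¹ ∈ F := by
    have := Set.mem_inv.1 hf'
    exact_mod_cast this
  have hfF : f ∈ F := by exact_mod_cast hf
  have e2 : f' ∈ F.image (fun p => p⁻¹) := by
    rw [Finset.mem_image]
    exact ⟨f'⁻¹, hf'2, inv_inv f'⟩
  apply ht (f'⁻¹ * b'⁻¹) f⁻¹ (Finset.mem_image_of_mem (fun p => p⁻¹) hfF) f' e2
  constructor
  · have : f⁻¹ * (t * (f'⁻¹ * b'⁻¹)) = a := by
      rw [← huf, ← hvb, ← hfa]; group
    rw [this]; exact ha
  · have : f' * (f'⁻¹ * b'⁻¹) = b'⁻¹ := by group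
    rw [this]; exact hb

end Pool.Agent.S03022
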