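import Pool.Statements.S03062
import Pool.Agent.H176R3.OneRel.Final
-- import your own Pool.Agent.* helpers here

set_option autoImplicit false
open Pool Pool.MP_cbaa56_al

namespace Pool.Agent.S03062

/-- The negation of the preceding statement: For every finite alphabet and every relator word w with no self-overlap, it is algorithmically decidable whether a given finite system of equations with constants has a solution in the monoid ⟨A ∣ w=1⟩. -/
theorem result :
    ¬ (∀ (n : ℕ) (w : List (Fin n)),
      (¬ ∃ u v x : List (Fin n), u ≠ [] ∧ v ≠ [] ∧ x ≠ [] ∧ w = u ++ v ∧ w = x ++ u) →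
      ComputablePred
        (fun S : List (List (Fin n ⊕ ℕ) × List (Fin n ⊕ ℕ)) =>
          ∃ σ : ℕ → List (Fin n),
            ∀ e ∈ S,
              conGen (fun x y : FreeMonoid (Fin n) => x = FreeMonoid.ofList w ∧ y = 1)
                (FreeMonoid.ofList (e.1.flatMap (Sum.elim (fun a => [a]) σ)))
                (FreeMonoid.ofList (e.2.flatMap (Sum.elim (fun a => [a]) σ))))) := by
  intro h
  have h1 := h 2 Pool.Agent.H176R3.OneRel.w ?_
  · refine Pool.Agent.H176R3.OneRel.main (h1.of_eq ?_)
    intro S
    have key : ∀ (σ : ℕ → List (Fin 2)) (l : List (Fin 2 ⊕ ℕ)),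
        Pool.Agent.H176R3.OneRel.cg.mk' (FreeMonoid.ofList (l.flatMap (Sum.elim (fun a => [a]) σ))) =
        (l.map (Sum.elim (fun a => Pool.Agent.H176R3.OneRel.cg.mk' (FreeMonoid.of a))
          (fun i => Pool.Agent.H176R3.OneRel.cg.mk' (FreeMonoid.ofList (σ i))))).prod := by
      intro σ l
      induction l with
      | nil => exact map_one _
      | cons x l ih =>
        rw [List.flatMap_cons, FreeMonoid.ofList_append, map_mul, ih, List.map_cons, List.prod_cons]
        congr 1
        rcases x with x | x <;> rfl
    constructor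
    · rintro ⟨σ, hσ⟩
      refine ⟨fun i => Pool.Agent.H176R3.OneRel.cg.mk' (FreeMonoid.ofList (σ i)), ?_⟩
      intro e he
      rw [← key, ← key]
      exact (Con.eq _).2 (hσ e he)
    · rintro ⟨τ, hτ⟩
      have hs : ∀ i, ∃ l : List (Fin 2), Pool.Agent.H176R3.OneRel.cg.mk' (FreeMonoid.ofList l) = τ i := by
        intro i
        obtain ⟨x, hx⟩ := Con.mk'_surjective (c := Pool.Agent.H176R3.OneRel.cg) (τ i)
        exact ⟨FreeMonoid.toList x, hx⟩
      choose σ hσ using hs
      refine ⟨σ, ?_⟩
      intro e he
      have h2 := hτ e he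
      have e2 : τ = fun i => Pool.Agent.H176R3.OneRel.cg.mk' (FreeMonoid.ofList (σ i)) := by
        funext i; exact (hσ i).symm
      rw [e2, ← key, ← key] at h2
      exact (Con.eq _).1 h2
  · rintro ⟨u, v, x, hu, hv, hx, h1, h2⟩
    unfold Pool.Agent.H176R3.OneRel.w at h1 h2
    have hl := congrArg List.length h2
    rw [List.length_append] at hl
    match u, x, hu, hx, h1, h2, hl with
    | [u0], [x0, x1, x2], _, _, h1, h2, _ =>
      simp only [List.cons_append, List.nil_append, List.cons.injEq] at h1 h2
      have : (0 : Fin 2) = 1 := h1.1.trans h2.2.2.2.1.symm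
      exact absurd this (by decide)
    | [u0, u1], [x0, x1], _, _, h1, h2, _ =>
      simp only [List.cons_append, List.nil_append, List.cons.injEq] at h1 h2
      have : (0 : Fin 2) = 1 := h1.1.trans h2.2.2.1.symm
      exact absurd this (by decide)
    | [u0, u1, u2], [x0], _, _, h1, h2, _ =>
      simp only [List.cons_append, List.nil_append, List.cons.injEq] at h1 h2
      have : (0 : Fin 2) = 1 := h1.2.1.trans h2.2.2.1.symm
      exact absurd this (by decide)
    | [], _, hu, _, _, _, _ => exact hu rfl
    | _, [], _, hx, _, _, _ => exact hx rfl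
    | [_], [_], _, _, _, _, hl => simp at hl
    | [_], [_, _], _, _, _, _, hl => simp at hl
    | [_], _ :: _ :: _ :: _ :: _, _, _, _, _, hl => simp at hl
    | [_, _], [_], _, _, _, _, hl => simp at hl
    | [_, _], _ :: _ :: _ :: _, _, _, _, _, hl => simp at hl
    | [_, _, _], _ :: _ :: _, _, _, _, _, hl => simp at hl
    | _ :: _ :: _ :: _ :: _, _ :: _, _, _, _, _, hl => simp at hl; omega

end Pool.Agent.S03062
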