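import Pool.Statements.S03082
import Pool.Agent.H546R3.CDcat

set_option autoImplicit false
open CategoryTheory CategoryTheory.Limits
open Pool Pool.MP_cd2797_al

namespace Pool.Agent.S03082

/-- The negation of the preceding statement: For any ring and any class C of modules, if the class of direct limits of modules from C is closed under direct summands, then it is closed under direct limits over directed sets. -/
theorem result :
    ¬ (∀ (R : Type) [Ring R] (C : Set (ModuleCat.{0} R)) (L : ModuleCat.{0} R → Prop),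
    (∀ M : ModuleCat.{0} R, L M ↔
      ∃ (ι : Type) (_ : Preorder ι) (_ : IsDirected ι (· ≤ ·)) (_ : Nonempty ι)
        (F : ι ⥤ ModuleCat.{0} R) (c : Cocone F),
        Nonempty (IsColimit c) ∧ Nonempty (c.pt ≅ M) ∧ ∀ i, F.obj i ∈ C) →
    (∀ (M N : ModuleCat.{0} R) (s : N ⟶ M) (r : M ⟶ N), s ≫ r = 𝟙 N → L M → L N) →
    ∀ (ι : Type) (_ : Preorder ι) (_ : IsDirected ι (· ≤ ·)) (_ : Nonempty ι)
      (F : ι ⥤ ModuleCat.{0} R) (c : Cocone F),
      Nonempty (IsColimit c) → (∀ i, L (F.obj i)) → L c.pt) := by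
  intro h
  have h1 := h H546R3.CD.S H546R3.CD.Cls H546R3.CD.IsL (fun M => Iff.rfl)
    (fun M N s r hsr hM => H546R3.CD.summand_closed M N s r hsr hM)
    ℕ inferInstance inferInstance inferInstance
    (H546R3.CD.chain H546R3.CD.V H546R3.CD.V_mono)
    (H546R3.CD.chainCocone H546R3.CD.V H546R3.CD.V_mono H546R3.CD.W (fun n f hf => ⟨n, hf⟩))
    (H546R3.CD.chain_isColimit _ _ _ _ (fun f hf => hf))
    (fun n => H546R3.CD.IsL_V n)
  exact H546R3.CD.not_IsL_W h1

end Pool.Agent.S03082
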