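import Pool.Statements.S03098
import Pool.Agent.H775R3.CoHopfTransfer

set_option autoImplicit false
open Pool Pool.MP_ce123d_al

namespace Pool.Agent.S03098

open Pool.Agent.H775R3

/-- The negation of the preceding statement: For any semigroup S and finitely generated subsemigroup T whose complement splits into finitely many relative H-classes (finite Green index): if every injective endomorphism of T is surjective, then every injective endomorphism of S is surjective. -/
theorem result :
    ¬ (∀ (S : Type) [Semigroup S] (T : Subsemigroup S),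
      (∃ G : Finset S, Subsemigroup.closure (G : Set S) = T) →
      (∃ F : Finset S, ∀ u : S, u ∉ T → ∃ v ∈ F, v ∉ T ∧
        ((u = v ∨ ∃ t ∈ T, u = v * t) ∧ (v = u ∨ ∃ t ∈ T, v = u * t)) ∧
        ((u = v ∨ ∃ t ∈ T, u = t * v) ∧ (v = u ∨ ∃ t ∈ T, v = t * u))) →
      (∀ f : T →ₙ* T, Function.Injective f → Function.Surjective f) →
      ∀ f : S →ₙ* S, Function.Injective f → Function.Surjective f) := by
  intro h
  have hs := h CoHopf.GG CoHopf.TT CoHopf.TT_fg
    ⟨{CoHopf.g0}, by
      intro u hu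
      refine ⟨CoHopf.g0, Finset.mem_singleton_self _, CoHopf.g0_not_mem, ⟨?_, ?_⟩, ⟨?_, ?_⟩⟩
      · exact Or.inr ⟨CoHopf.g0⁻¹ * u, CoHopf.inv_mul_mem CoHopf.g0_not_mem hu, by group⟩
      · exact Or.inr ⟨u⁻¹ * CoHopf.g0, CoHopf.inv_mul_mem hu CoHopf.g0_not_mem, by group⟩
      · exact Or.inr ⟨u * CoHopf.g0⁻¹, CoHopf.mul_inv_mem hu CoHopf.g0_not_mem, by group⟩
      · exact Or.inr ⟨CoHopf.g0 * u⁻¹, CoHopf.mul_inv_mem CoHopf.g0_not_mem hu, by group⟩⟩
    CoHopf.TT_cohopf CoHopf.dd CoHopf.dd_injective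
  exact CoHopf.dd_not_surjective hs

end Pool.Agent.S03098
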