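import Pool.Statements.S03116
import Pool.Agent.H700R3.CoverAAInv

set_option autoImplicit false
open Pointwise
open Pool Pool.MP_cfdc37_al

namespace Pool.Agent.S03116

/-- The negation of the preceding statement: For every n ≥ 1: any partition of any group into n cells has a cell A with G = F·A·A⁻¹ for some finite F of size at most n, and some group has an n-cell partition where every such F needs at least n elements. -/
theorem result :
    ¬ (∀ n : ℕ, 1 ≤ n →
    (∀ (G : Type) [Group G] (A : Fin n → Set G),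
      (⋃ i, A i) = Set.univ → Pairwise (fun i j => Disjoint (A i) (A j)) →
      ∃ i : Fin n, ∃ F : Finset G, F.card ≤ n ∧ (F : Set G) * A i * (A i)⁻¹ = Set.univ) ∧
    (∃ (G : Type) (_ : Group G), ∃ A : Fin n → Set G,
      (⋃ i, A i) = Set.univ ∧ Pairwise (fun i j => Disjoint (A i) (A j)) ∧
      ∀ i : Fin n, ∀ F : Finset G, (F : Set G) * A i * (A i)⁻¹ = Set.univ → n ≤ F.card)) := by
  intro h
  obtain ⟨h4, -⟩ := h 4 (by norm_num)
  obtain ⟨c, hc⟩ := Pool.Agent.H700R3.CoverAAInv.main
  obtain ⟨i, F, hF, hcov⟩ := h4 (FreeGroup ℕ) (fun i => c ⁻¹' {i})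
    (by
      ext g
      simp)
    (by
      intro i j hij
      rw [Set.disjoint_left]
      intro g hi hj
      apply hij
      have h1 : c g = i := hi
      have h2 : c g = j := hj
      rw [← h1, h2])
  obtain ⟨t, ht⟩ := hc i F hF
  have hmem : t⁻¹ ∈ (F : Set (FreeGroup ℕ)) * (c ⁻¹' {i}) * (c ⁻¹' {i})⁻¹ := by
    rw [hcov]; exact Set.mem_univ _
  obtain ⟨x, ⟨f, hf, a, ha, rfl⟩, b, hb, hxb⟩ := hmem
  have hb' : c b⁻¹ = i := hb
  have ha' : c a = i := ha
  have hz : t * (f * a) = b⁻¹ := by
    have : f * a * b = t⁻¹ := hxb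
    have h2 : f * a = t⁻¹ * b⁻¹ := by
      rw [← this]; group
    rw [h2]; group
  have := ht (f * a) (by rw [hz]; exact hb') f hf
  apply this
  rw [inv_mul_cancel_left]
  exact ha'

end Pool.Agent.S03116
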