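import Pool.Statements.S03142
import Pool.Agent.H476R3.MFin
-- import your own Pool.Agent.* helpers here

set_option autoImplicit false
open Pool Pool.MP_d1ce81_al

namespace Pool.Agent.S03142

/-- The negation of the preceding statement: For every finite alphabet and word w, if the group of units of the monoid ⟨A ∣ w=1⟩ has a finite generating set for which solvability of finite equation systems is computable, then solvability of finite equation systems over the monoid is computable. -/
theorem result :
    ¬ (∀ (n : ℕ) (w : List (Fin n)),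
    (∃ (k : ℕ) (g : Fin k → ((conGen (fun x y : FreeMonoid (Fin n) => x = FreeMonoid.ofList w ∧ y = 1)).Quotient)ˣ),
      Subgroup.closure (Set.range g) = ⊤ ∧
      ComputablePred (fun S : List (List ((Fin k ⊕ ℕ) × Bool) × List ((Fin k ⊕ ℕ) × Bool)) =>
        ∃ σ : ℕ → ((conGen (fun x y : FreeMonoid (Fin n) => x = FreeMonoid.ofList w ∧ y = 1)).Quotient)ˣ,
          ∀ e ∈ S,
            (e.1.map (fun p => if p.2 = true then Sum.elim g σ p.1 else (Sum.elim g σ p.1)⁻¹)).prod =
            (e.2.map (fun p => if p.2 = true then Sum.elim g σ p.1 else (Sum.elim g σ p.1)⁻¹)).prod)) →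
    ComputablePred (fun S : List (List (Fin n ⊕ ℕ) × List (Fin n ⊕ ℕ)) =>
      ∃ σ : ℕ → (conGen (fun x y : FreeMonoid (Fin n) => x = FreeMonoid.ofList w ∧ y = 1)).Quotient,
        ∀ e ∈ S,
          (e.1.map (Sum.elim (fun a => (conGen (fun x y : FreeMonoid (Fin n) => x = FreeMonoid.ofList w ∧ y = 1)).mk' (FreeMonoid.of a)) σ)).prod =
          (e.2.map (Sum.elim (fun a => (conGen (fun x y : FreeMonoid (Fin n) => x = FreeMonoid.ofList w ∧ y = 1)).mk' (FreeMonoid.of a)) σ)).prod)) := by
  intro h
  refine Pool.Agent.H476R3.OM.sat_not_computable (h 2 [0, 0, 1, 1] ⟨0, fun i => i.elim0, ?_, ?_⟩)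
  · have hs : Subsingleton Pool.Agent.H476R3.OM.Mˣ := inferInstance
    rw [eq_top_iff]
    intro x _
    have : x = 1 := hs.elim _ _
    rw [this]
    exact one_mem _
  · have hs : Subsingleton Pool.Agent.H476R3.OM.Mˣ := inferInstance
    refine ComputablePred.of_eq (p := fun _ => True) ?_ ?_
    · exact ⟨fun _ => inferInstance, by simpa using Computable.const true⟩
    · intro S
      refine ⟨fun _ => ⟨fun _ => 1, fun e _ => hs.elim _ _⟩, fun _ => trivial⟩


end Pool.Agent.S03142
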