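import Pool.Statements.S03163
import Pool.Agent.H749R3.Step

set_option autoImplicit false
open Pool Pool.MP_d34459_al

namespace Pool.Agent.S03163

open Pool.Agent.H749R3

theorem exists_delta (S : Finset (ℤ × ℤ)) (f : ℤ × ℤ → ℝ) (h : ∀ p ∈ S, 0 < f p) :
    ∃ δ : ℝ, 0 < δ ∧ ∀ p ∈ S, δ ≤ f p := by
  classical
  induction S using Finset.induction_on with
  | empty => exact ⟨1, one_pos, by simp⟩
  | insert a s ha ih =>
    obtain ⟨δ, h1, h2⟩ := ih fun p hp => h p (Finset.mem_insert_of_mem hp)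
    refine ⟨min δ (f a), lt_min h1 (h a (Finset.mem_insert_self _ _)), ?_⟩
    intro p hp
    rw [Finset.mem_insert] at hp
    rcases hp with rfl | hp
    · exact min_le_right _ _
    · exact (min_le_left _ _).trans (h2 p hp)

theorem phi_eq (β : ℝ) (φ : FreeGroup (Fin 2) →* Multiplicative ℝ)
    (h0 : φ (FreeGroup.of (0 : Fin 2)) = Multiplicative.ofAdd (-1 : ℝ))
    (h1 : φ (FreeGroup.of (1 : Fin 2)) = Multiplicative.ofAdd β) (g : FreeGroup (Fin 2)) :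
    (φ g).toAdd = -((chi ![1, 0] g).toAdd : ℝ) + β * ((chi ![0, 1] g).toAdd : ℝ) := by
  induction g using FreeGroup.induction_on with
  | C1 => simp
  | of i =>
    fin_cases i
    · simp [chi, h0]
    · simp [chi, h1]
  | inv_of i ih =>
    rw [map_inv φ, map_inv (chi _), map_inv (chi _), toAdd_inv, toAdd_inv, toAdd_inv, ih]
    push_cast; ring
  | mul x y hx hy =>
    rw [map_mul φ, map_mul (chi _), map_mul (chi _), toAdd_mul, toAdd_mul, toAdd_mul, hx, hy]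
    push_cast; ring

theorem lin_bound (D : ℕ) (q : ℕ → FreeGroup (Fin 2))
    (hq : ∀ N M, 1 ≤ N → 1 ≤ M → ∃ L : List (FreeGroup (Fin 2)), L.length ≤ D ∧
      (∀ x ∈ L, IsGen x) ∧ L.prod = (q (N + M))⁻¹ * (q N * q M))
    (c : Fin 2 → ℤ) (hc : ∀ i, |c i| ≤ 1) (n : ℕ) :
    |(chi c (q (n + 1))).toAdd - ((n : ℤ) + 1) * (chi c (q 1)).toAdd| ≤ (n : ℤ) * D := by
  induction n with
  | zero => simp
  | succ n ih =>
    obtain ⟨L, h1, h2, h3⟩ := hq (n + 1) 1 (by omega) le_rfl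
    have h4 := chi_list c hc L h2
    have h5 : (L.length : ℤ) ≤ D := by exact_mod_cast h1
    rw [h3, map_mul (chi c), map_mul (chi c), map_inv (chi c), toAdd_mul, toAdd_mul,
      toAdd_inv] at h4
    rw [abs_le] at h4 ih ⊢
    push_cast
    constructor <;> linarith [h4.1, h4.2, ih.1, ih.2]

theorem box_bound (σ n D C x X : ℤ) (hσ : 1 ≤ σ) (hn : 0 ≤ n) (hσn : n + 1 ≤ 2 * σ)
    (hD : 0 ≤ D) (hC : 0 ≤ C) (h1 : |σ * x - X| ≤ 2 * D * D)
    (h2 : |X - (n + 1) * C| ≤ n * D) : |x| ≤ 2 * (C + D) + 2 * D * D := by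
  have h3 : σ * |x| ≤ σ * (2 * (C + D) + 2 * D * D) := by
    have e1 : σ * |x| = |σ * x| := by rw [abs_mul, abs_of_nonneg (by omega : (0:ℤ) ≤ σ)]
    have e2 : |σ * x| ≤ |σ * x - X| + |X - (n + 1) * C| + |(n + 1) * C| := by
      have := abs_add_three (σ * x - X) (X - (n + 1) * C) ((n + 1) * C)
      rw [show σ * x - X + (X - (n + 1) * C) + (n + 1) * C = σ * x by ring] at this
      exact this
    have e3 : |(n + 1) * C| = (n + 1) * C := abs_of_nonneg (by positivity)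
    have e4 : (n + 1) * C ≤ 2 * σ * C := mul_le_mul_of_nonneg_right hσn hC
    have e5 : n * D ≤ 2 * σ * D := mul_le_mul_of_nonneg_right (by omega) hD
    have e6 : 2 * D * D ≤ σ * (2 * D * D) := by
      have : 0 ≤ 2 * D * D := by positivity
      nlinarith
    rw [e1]
    calc |σ * x| ≤ |σ * x - X| + |X - (n + 1) * C| + |(n + 1) * C| := e2
      _ ≤ 2 * D * D + n * D + (n + 1) * C := by rw [e3]; linarith
      _ ≤ σ * (2 * D * D) + 2 * σ * D + 2 * σ * C := by linarith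
      _ = _ := by ring
  exact le_of_mul_le_mul_left h3 (by omega)

/-- For irrational β>1 and φ:F₂→ℝ with φ(a)=-1, φ(b)=β, K=φ⁻¹[0,1), no map Ψ from the free group on K into K fixing K has Ψ(w₁)⁻¹…: Ψ(w₁w₂)⁻¹Ψ(w₁)Ψ(w₂) uniformly a product of boundedly many conjugates of a^±1, b^±1. -/
theorem result :
    ∀ β : ℝ, 1 < β → Irrational β →
    ∀ φ : FreeGroup (Fin 2) →* Multiplicative ℝ,
      φ (FreeGroup.of (0 : Fin 2)) = Multiplicative.ofAdd (-1 : ℝ) →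
      φ (FreeGroup.of (1 : Fin 2)) = Multiplicative.ofAdd β →
    ∀ K : Set (FreeGroup (Fin 2)),
      K = {w | 0 ≤ Multiplicative.toAdd (φ w) ∧ Multiplicative.toAdd (φ w) < 1} →
    ¬ ∃ Ψ : FreeGroup K → FreeGroup (Fin 2), ∃ N : ℕ,
      (∀ w, Ψ w ∈ K) ∧
      (∀ k : K, Ψ (FreeGroup.of k) = (k : FreeGroup (Fin 2))) ∧
      ∀ w₁ w₂ : FreeGroup K, ∃ L : List (FreeGroup (Fin 2)), L.length ≤ N ∧
        (∀ x ∈ L, ∃ g : FreeGroup (Fin 2), ∃ i : Fin 2,
          x = g * FreeGroup.of i * g⁻¹ ∨ x = g * (FreeGroup.of i)⁻¹ * g⁻¹) ∧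
        L.prod = (Ψ (w₁ * w₂))⁻¹ * (Ψ w₁ * Ψ w₂) := by
  intro β hβ hirr φ h0 h1 K hK
  rintro ⟨Ψ, D, hΨK, hΨk, hΨ⟩
  have hφ := phi_eq β φ h0 h1
  have hmem : ∀ w, w ∈ K → 0 ≤ Multiplicative.toAdd (φ w) ∧ Multiplicative.toAdd (φ w) < 1 := by
    intro w hw
    rw [hK] at hw
    exact hw
  set r : ℕ := R0 D + D + 5 with hr
  have hr5 : (5 : ℝ) ≤ r := by rw [hr]; push_cast; have : (0:ℝ) ≤ R0 D := by positivity
                               have : (0:ℝ) ≤ D := by positivity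
                               linarith
  -- choice of the last exponent
  have hbig : (r : ℝ) + 1 ≤ β * (r * (r + 1) / 2) := by
    have : (r : ℝ) + 1 ≤ r * (r + 1) / 2 := by nlinarith
    nlinarith
  obtain ⟨P, hP⟩ : ∃ P : ℕ, (P : ℤ) = ⌊β * ((r : ℝ) * (r + 1) / 2)⌋ - r := by
    refine ⟨(⌊β * ((r : ℝ) * (r + 1) / 2)⌋ - r).toNat, Int.toNat_of_nonneg ?_⟩
    have : ((r : ℤ) + 1) ≤ ⌊β * ((r : ℝ) * (r + 1) / 2)⌋ := by
      rw [Int.le_floor]; push_cast; exact hbig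
    linarith
  have hP1 : 1 ≤ P := by
    have : ((r : ℤ) + 1) ≤ ⌊β * ((r : ℝ) * (r + 1) / 2)⌋ := by
      rw [Int.le_floor]; push_cast; exact hbig
    omega
  have ha := chi_kf ![1, 0] P r
  have hb := chi_kf ![0, 1] P r
  simp only [Matrix.cons_val_zero, Matrix.cons_val_one] at ha hb
  have ha' : ((chi ![1, 0] (kf P r)).toAdd : ℝ) = P + r := by
    have : (chi ![1, 0] (kf P r)).toAdd = (P : ℤ) + r := by linarith
    rw [this]; push_cast; ring
  have hb' : ((chi ![0, 1] (kf P r)).toAdd : ℝ) = r * (r + 1) / 2 := by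
    have : (2 : ℝ) * ((chi ![0, 1] (kf P r)).toAdd : ℝ) = r * (r + 1) := by
      have := congrArg (fun x : ℤ => (x : ℝ)) hb
      push_cast at this
      linarith
    linarith
  have hkK : kf P r ∈ K := by
    rw [hK]
    show 0 ≤ Multiplicative.toAdd (φ (kf P r)) ∧ Multiplicative.toAdd (φ (kf P r)) < 1
    rw [hφ, ha', hb']
    have e1 := Int.floor_le (β * ((r : ℝ) * (r + 1) / 2))
    have e2 := Int.lt_floor_add_one (β * ((r : ℝ) * (r + 1) / 2))
    have e3 : (P : ℝ) = (⌊β * ((r : ℝ) * (r + 1) / 2)⌋ : ℝ) - r := by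
      have := congrArg (fun x : ℤ => (x : ℝ)) hP
      push_cast at this
      exact this
    constructor <;> linarith
  set k : K := ⟨kf P r, hkK⟩ with hk
  set q : ℕ → FreeGroup (Fin 2) := fun N => Ψ (FreeGroup.of k ^ N) with hqdef
  have hq1 : q 1 = kf P r := by rw [hqdef]; simp only [pow_one]; rw [hΨk]
  have hq : ∀ N M, 1 ≤ N → 1 ≤ M → ∃ L : List (FreeGroup (Fin 2)), L.length ≤ D ∧
      (∀ x ∈ L, IsGen x) ∧ L.prod = (q (N + M))⁻¹ * (q N * q M) := by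
    intro N M _ _
    obtain ⟨L, e1, e2, e3⟩ := hΨ (FreeGroup.of k ^ N) (FreeGroup.of k ^ M)
    refine ⟨L, e1, e2, ?_⟩
    rw [hqdef]; simp only [pow_add]; exact e3
  have hqK : ∀ N, 0 ≤ (φ (q N)).toAdd ∧ (φ (q N)).toAdd < 1 := by
    intro N
    exact hmem _ (hΨK (FreeGroup.of k ^ N))
  have hca : ∀ i, |(![1, 0] : Fin 2 → ℤ) i| ≤ 1 := by intro i; fin_cases i <;> simp
  have hcb : ∀ i, |(![0, 1] : Fin 2 → ℤ) i| ≤ 1 := by intro i; fin_cases i <;> simp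
  set A : ℤ := (chi ![1, 0] (kf P r)).toAdd with hA
  set Bb : ℤ := (chi ![0, 1] (kf P r)).toAdd with hBb
  have hBpos : (D : ℤ) + 1 ≤ Bb := by
    have h2 : (D : ℤ) + 5 ≤ r := by rw [hr]; push_cast; have : (0:ℤ) ≤ R0 D := by positivity
                                    linarith
    nlinarith
  have hApos : 0 ≤ A := by linarith [ha, (by positivity : (0:ℤ) ≤ P), (by positivity : (0:ℤ) ≤ r)]
  -- the finite box
  set Bd : ℤ := 2 * (A + Bb + D) + 2 * D * D with hBd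
  obtain ⟨δ, hδ, hδ2⟩ := exists_delta (((Finset.Icc (-Bd) Bd) ×ˢ (Finset.Icc (-Bd) Bd)).filter
    fun p => p.2 ≠ 0) (fun p => |-(p.1 : ℝ) + β * p.2|) (by
      intro p hp
      rw [Finset.mem_filter] at hp
      rw [abs_pos]
      intro hzero
      have h2 : (p.2 : ℝ) ≠ 0 := by exact_mod_cast hp.2
      have : β = ((p.1 : ℚ) / (p.2 : ℚ) : ℚ) := by
        push_cast
        rw [eq_div_iff h2]; linarith
      exact hirr ⟨_, this.symm⟩)
  -- a large n
  obtain ⟨n0, hn0⟩ := exists_nat_gt (max (2 * (D : ℝ) * D) (2 * ((1 + 2 * D * D * (1 + β)) / δ)))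
  have hn0a : 2 * (D : ℝ) * D < n0 := (le_max_left _ _).trans_lt hn0
  have hn0b : 2 * ((1 + 2 * D * D * (1 + β)) / δ) < n0 := (le_max_right _ _).trans_lt hn0
  have hn0pos : 1 ≤ n0 := by
    have : (0 : ℝ) < n0 := lt_of_le_of_lt (by positivity) hn0a
    exact_mod_cast this
  obtain ⟨n, rfl⟩ : ∃ n, n0 = n + 1 := ⟨n0 - 1, by omega⟩
  obtain ⟨σ, hσ1, hσ2, hσ3, hσ4⟩ := main_step D q P r hP1 (by omega) hq1 hq (n + 1) hn0pos
  obtain ⟨x, hx⟩ := hσ4 ![1, 0] hca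
  obtain ⟨y, hy⟩ := hσ4 ![0, 1] hcb
  have la := lin_bound D q hq ![1, 0] hca n
  have lb := lin_bound D q hq ![0, 1] hcb n
  rw [hq1, ← hA] at la
  rw [hq1, ← hBb] at lb
  set X : ℤ := (chi ![1, 0] (q (n + 1))).toAdd with hX
  set Y : ℤ := (chi ![0, 1] (q (n + 1))).toAdd with hY
  rw [abs_le] at la lb hx hy
  have hσZ : (1 : ℤ) ≤ σ := by exact_mod_cast hσ1
  have hσn : (n : ℤ) + 1 ≤ 2 * σ := by exact_mod_cast hσ2
  have hDz : (0 : ℤ) ≤ D := by positivity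
  have hDD : (0 : ℤ) ≤ (D : ℤ) * D := by positivity
  have hnz : (0 : ℤ) ≤ n := by positivity
  have hBb0 : 0 ≤ Bb := by omega
  have hxB : -Bd ≤ x ∧ x ≤ Bd := by
    have := abs_le.1 (box_bound σ n D A x X hσZ hnz hσn hDz hApos (abs_le.2 hx) (abs_le.2 la))
    constructor <;> linarith [this.1, this.2]
  have hyB : -Bd ≤ y ∧ y ≤ Bd := by
    have := abs_le.1 (box_bound σ n D Bb y Y hσZ hnz hσn hDz hBb0 (abs_le.2 hy) (abs_le.2 lb))
    constructor <;> linarith [this.1, this.2]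
  have hy0 : y ≠ 0 := by
    rintro rfl
    have h2 : (2 : ℤ) * D * D < n + 1 := by
      have : (2 : ℝ) * D * D < (n : ℝ) + 1 := by push_cast at hn0a; exact hn0a
      exact_mod_cast this
    nlinarith [mul_le_mul_of_nonneg_left hBpos (by omega : (0:ℤ) ≤ (n:ℤ) + 1)]
  have hd := hδ2 (x, y) (by
    rw [Finset.mem_filter, Finset.mem_product, Finset.mem_Icc, Finset.mem_Icc]
    exact ⟨⟨hxB, hyB⟩, hy0⟩)
  simp only at hd
  have hph := hqK (n + 1)
  rw [hφ, ← hX, ← hY] at hph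
  have hxr : |(σ : ℝ) * x - X| ≤ 2 * (D : ℝ) * D := by
    rw [abs_le]; exact ⟨by exact_mod_cast hx.1, by exact_mod_cast hx.2⟩
  have hyr : |(σ : ℝ) * y - Y| ≤ 2 * (D : ℝ) * D := by
    rw [abs_le]; exact ⟨by exact_mod_cast hy.1, by exact_mod_cast hy.2⟩
  have hmain : (σ : ℝ) * |-(x : ℝ) + β * y| ≤ 1 + 2 * D * D * (1 + β) := by
    have hσ0 : (0 : ℝ) ≤ σ := by positivity
    have e0 : (σ : ℝ) * |-(x : ℝ) + β * y| = |(σ : ℝ) * (-(x : ℝ) + β * y)| := by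
      rw [abs_mul, abs_of_nonneg hσ0]
    have : (σ : ℝ) * (-(x : ℝ) + β * y) = (-(X : ℝ) + β * Y) + (-(σ * x - X)) +
        β * (σ * y - Y) := by ring
    rw [e0, this]
    refine (abs_add_le _ _).trans ?_
    have h2 := abs_add_le (-(X : ℝ) + β * Y) (-(σ * x - X))
    rw [abs_neg, abs_of_nonneg hph.1] at h2
    have h3 : |β * ((σ : ℝ) * y - Y)| ≤ β * (2 * (D : ℝ) * D) := by
      rw [abs_mul, abs_of_pos (by linarith : (0:ℝ) < β)]
      exact mul_le_mul_of_nonneg_left hyr (by linarith)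
    linarith [hph.2]
  have hσr : ((n : ℝ) + 1) ≤ 2 * σ := by exact_mod_cast hσ2
  have h5 : 2 * (1 + 2 * D * D * (1 + β)) < ((n : ℝ) + 1) * δ := by
    push_cast at hn0b
    rw [← mul_div_assoc, div_lt_iff₀ hδ] at hn0b
    exact hn0b
  have h6 : (σ : ℝ) * δ ≤ σ * |-(x : ℝ) + β * y| := mul_le_mul_of_nonneg_left hd (by positivity)
  nlinarith

end Pool.Agent.S03163
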