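import Pool.Statements.S03169
import Pool.Agent.H397R3.Grp

set_option autoImplicit false
open Pool Pool.MP_d3f668_al

namespace Pool.Agent.S03169

/-- exponents of the stable letter -/
def d : Fin 8 → ℤ := ![0, 0, 0, 0, 0, 0, 1, -1]

/-- the letters -/
def io {G : Type} [Group G] (a b c t : G) : Fin 8 → G := ![a, a⁻¹, b, b⁻¹, c, c⁻¹, t, t⁻¹]

/-- the automaton -/
def step (s : Fin 5) (x : Fin 8) : Fin 5 :=
  if s = 0 then (if x = 0 then 1 else if x = 6 then 2 else if x = 7 then 3 else 4)
  else if s = 2 then (if x = 6 then 2 else 4)
  else if s = 3 then (if x = 7 then 3 else 4)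
  else 4

/-- the automaton -/
def aut : DFA (Fin 8) (Fin 5) := ⟨step, 0, {s | s ≠ 4}⟩

theorem foldl4 (w : List (Fin 8)) : w.foldl step 4 = 4 := by
  induction w with
  | nil => rfl
  | cons x w ih =>
    have : step 4 x = 4 := rfl
    rw [List.foldl_cons, this, ih]

theorem foldl1 (w : List (Fin 8)) : w.foldl step 1 ≠ 4 ↔ w = [] := by
  cases w with
  | nil => simp
  | cons x w =>
    have : step 1 x = 4 := rfl
    simp [this, foldl4]

theorem foldl2 (w : List (Fin 8)) : w.foldl step 2 ≠ 4 ↔ ∀ x ∈ w, x = 6 := by
  induction w with
  | nil => simp
  | cons x w ih =>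
    by_cases hx : x = 6
    · subst hx
      have : step 2 6 = 2 := rfl
      rw [List.foldl_cons, this, ih]
      simp
    · have : step 2 x = 4 := by simp [step, hx]
      rw [List.foldl_cons, this, foldl4]
      simp [hx]

theorem foldl3 (w : List (Fin 8)) : w.foldl step 3 ≠ 4 ↔ ∀ x ∈ w, x = 7 := by
  induction w with
  | nil => simp
  | cons x w ih =>
    by_cases hx : x = 7
    · subst hx
      have : step 3 7 = 3 := rfl
      rw [List.foldl_cons, this, ih]
      simp
    · have : step 3 x = 4 := by simp [step, hx]
      rw [List.foldl_cons, this, foldl4]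
      simp [hx]

theorem mem_aut (w : List (Fin 8)) : w ∈ aut.accepts ↔
    (w = [0] ∨ (∀ x ∈ w, x = 6) ∨ (∀ x ∈ w, x = 7)) := by
  have h0 : w ∈ aut.accepts ↔ w.foldl step 0 ≠ 4 := Iff.rfl
  rw [h0]
  cases w with
  | nil => simp
  | cons x w =>
    rw [List.foldl_cons]
    by_cases h1 : x = 0
    · subst h1
      have : step 0 0 = 1 := rfl
      rw [this, foldl1]
      simp
    · by_cases h6 : x = 6
      · subst h6
        have : step 0 6 = 2 := rfl
        rw [this, foldl2]
        simp
      · by_cases h7 : x = 7
        · subst h7
          have : step 0 7 = 3 := rfl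
          rw [this, foldl3]
          simp
        · have : step 0 x = 4 := by simp [step, h1, h6, h7]
          rw [this, foldl4]
          simp [h1, h6, h7]

theorem d_le (x : Fin 8) : d x ≤ 1 := by revert x; decide
theorem d_ge (x : Fin 8) : -1 ≤ d x := by revert x; decide
theorem d_one (x : Fin 8) (h : 1 ≤ d x) : x = 6 := by revert x; decide
theorem d_neg (x : Fin 8) (h : d x ≤ -1) : x = 7 := by revert x; decide

theorem sum_le (w : List (Fin 8)) : (w.map d).sum ≤ w.length := by
  induction w with
  | nil => simp
  | cons x w ih =>
    have := d_le x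
    simp only [List.map_cons, List.sum_cons, List.length_cons]
    push_cast
    omega

theorem sum_ge (w : List (Fin 8)) : -(w.length : ℤ) ≤ (w.map d).sum := by
  induction w with
  | nil => simp
  | cons x w ih =>
    have := d_ge x
    simp only [List.map_cons, List.sum_cons, List.length_cons]
    push_cast
    omega

theorem all6 (w : List (Fin 8)) (h : (w.length : ℤ) ≤ (w.map d).sum) : ∀ x ∈ w, x = 6 := by
  induction w with
  | nil => simp
  | cons x w ih =>
    have h1 := d_le x
    have h2 := sum_le w
    simp only [List.map_cons, List.sum_cons, List.length_cons] at h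
    push_cast at h
    intro y hy
    rcases List.mem_cons.1 hy with rfl | hy
    · exact d_one _ (by omega)
    · exact ih (by omega) y hy

theorem all7 (w : List (Fin 8)) (h : (w.map d).sum ≤ -(w.length : ℤ)) : ∀ x ∈ w, x = 7 := by
  induction w with
  | nil => simp
  | cons x w ih =>
    have h1 := d_ge x
    have h2 := sum_ge w
    simp only [List.map_cons, List.sum_cons, List.length_cons] at h
    push_cast at h
    intro y hy
    rcases List.mem_cons.1 hy with rfl | hy
    · exact d_neg _ (by omega)
    · exact ih (by omega) y hy

section
variable {G : Type} [Group G] (τ : G →* Multiplicative ℤ) {a b c t : G}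

theorem tau_io (ha : τ a = 1) (hb : τ b = 1) (hc : τ c = 1) (ht : τ t = Multiplicative.ofAdd 1)
    (x : Fin 8) : τ (io a b c t x) = Multiplicative.ofAdd (d x) := by
  fin_cases x <;> simp [io, d, ha, hb, hc, ht]

theorem tau_prod (ha : τ a = 1) (hb : τ b = 1) (hc : τ c = 1) (ht : τ t = Multiplicative.ofAdd 1)
    (w : List (Fin 8)) :
    τ (w.map (io a b c t)).prod = Multiplicative.ofAdd (w.map d).sum := by
  induction w with
  | nil => simp
  | cons x w ih =>
    simp only [List.map_cons, List.prod_cons, List.sum_cons, map_mul, ih,
      tau_io τ ha hb hc ht, ofAdd_add]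

theorem io_inj (ha : τ a = 1) (hb : τ b = 1) (hc : τ c = 1) (ht : τ t = Multiplicative.ofAdd 1)
    (hinj : Function.Injective (FreeGroup.lift ![a, b, c])) :
    Function.Injective (io a b c t) := by
  intro x y hxy
  have h1 : d x = d y := by
    have := congrArg τ hxy
    rw [tau_io τ ha hb hc ht, tau_io τ ha hb hc ht] at this
    exact Multiplicative.ofAdd.injective this
  let v : Fin 8 → FreeGroup (Fin 3) := ![FreeGroup.of 0, (FreeGroup.of 0)⁻¹, FreeGroup.of 1,
    (FreeGroup.of 1)⁻¹, FreeGroup.of 2, (FreeGroup.of 2)⁻¹, 1, 1]
  have hv : ∀ z : Fin 8, z < 6 → FreeGroup.lift ![a, b, c] (v z) = io a b c t z := by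
    intro z hz
    fin_cases z <;> simp_all [v, io]
  let χ : FreeGroup (Fin 3) →* Multiplicative ℤ :=
    FreeGroup.lift ![Multiplicative.ofAdd 1, Multiplicative.ofAdd 2, Multiplicative.ofAdd 3]
  have hχ : ∀ z : Fin 8, χ (v z) =
      Multiplicative.ofAdd ((![1, -1, 2, -2, 3, -3, 0, 0] : Fin 8 → ℤ) z) := by
    intro z
    fin_cases z <;> simp [v, χ]
  have h2 : x < 6 → y < 6 → (![1, -1, 2, -2, 3, -3, 0, 0] : Fin 8 → ℤ) x =
      (![1, -1, 2, -2, 3, -3, 0, 0] : Fin 8 → ℤ) y := by
    intro hx hy
    have h3 : v x = v y := by
      apply hinj
      rw [hv x hx, hv y hy, hxy]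
    have h4 := congrArg χ h3
    rw [hχ, hχ] at h4
    exact Multiplicative.ofAdd.injective h4
  clear hχ χ hv v hxy
  revert x y
  decide

theorem prod6 (w : List (Fin 8)) (h : ∀ x ∈ w, x = 6) :
    (w.map (io a b c t)).prod = t ^ (w.length : ℤ) := by
  rw [List.eq_replicate_of_mem h, List.map_replicate, List.prod_replicate, List.length_replicate,
    zpow_natCast]
  rfl

theorem prod7 (w : List (Fin 8)) (h : ∀ x ∈ w, x = 7) :
    (w.map (io a b c t)).prod = t ^ (-(w.length : ℤ)) := by
  rw [List.eq_replicate_of_mem h, List.map_replicate, List.prod_replicate, List.length_replicate,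
    zpow_neg, zpow_natCast, ← inv_pow]
  rfl

end

/-- There is a group containing a free group of rank two and an ordered finite inverse-closed generating set such that the set of shortlex-least words representing the conjugacy classes, one per class, is accepted by a finite automaton. -/
theorem result :
  ∃ (G : Type) (_ : Group G) (α : Type) (_ : Fintype α) (_ : LinearOrder α) (ι : α → G),
    (∃ f : FreeGroup (Fin 2) →* G, Function.Injective f) ∧
    Function.Injective ι ∧
    (∀ a : α, ∃ b : α, ι b = (ι a)⁻¹) ∧
    Subgroup.closure (Set.range ι) = ⊤ ∧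
    ∃ (σ : Type) (_ : Fintype σ) (M : DFA α σ),
      M.accepts = {w : List α | ∀ v : List α, IsConj (v.map ι).prod (w.map ι).prod →
        (w.length < v.length ∨ (w.length = v.length ∧ (w = v ∨ w < v)))} := by
  obtain ⟨G, _, τ, a, b, c, t, ha, hb, hc, ht, hcl, hinj, h0, hn⟩ := H397R3.exists_group
  refine ⟨G, inferInstance, Fin 8, inferInstance, inferInstance, io a b c t, ?_, ?_, ?_, ?_,
    Fin 5, inferInstance, aut, ?_⟩
  · refine ⟨(FreeGroup.lift ![a, b, c]).comp (FreeGroup.map (Fin.castSucc)), ?_⟩
    rw [MonoidHom.coe_comp]
    exact hinj.comp (FreeGroup.map_injective (Fin.castSucc_injective 2))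
  · exact io_inj τ ha hb hc ht hinj
  · intro x
    refine ⟨(![1, 0, 3, 2, 5, 4, 7, 6] : Fin 8 → Fin 8) x, ?_⟩
    fin_cases x <;> simp [io]
  · rw [eq_top_iff, ← hcl, Subgroup.closure_le]
    rintro x hx
    simp only [Set.mem_insert_iff, Set.mem_singleton_iff] at hx
    apply Subgroup.subset_closure
    rcases hx with rfl | rfl | rfl | rfl
    · exact ⟨0, rfl⟩
    · exact ⟨2, rfl⟩
    · exact ⟨4, rfl⟩
    · exact ⟨6, rfl⟩
  · have ha1 : a ≠ 1 := by
      intro h
      have h1 : FreeGroup.lift ![a, b, c] (FreeGroup.of 0) = 1 := by simpa using h
      have h2 := hinj (h1.trans (map_one _).symm)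
      exact FreeGroup.of_ne_one 0 h2
    have hconj : ∀ x y : G, IsConj x y → τ x = τ y := by
      intro x y h
      obtain ⟨k, hk⟩ := isConj_iff.1 h
      rw [← hk]
      simp
    ext w
    rw [mem_aut]
    constructor
    · intro hw v hv
      rcases hw with rfl | hw | hw
      · cases v with
        | nil =>
          exfalso
          have h1 : IsConj (1 : G) a := by simpa [io] using hv
          exact ha1 (isConj_one_right.1 h1)
        | cons x v =>
          cases v with
          | nil =>
            right
            refine ⟨rfl, ?_⟩
            rcases eq_or_lt_of_le (Fin.zero_le x) with h1 | h1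
            · left; rw [h1]
            · right
              exact List.Lex.rel h1
          | cons y v =>
            left
            simp
      · have h1 := hconj _ _ hv
        rw [tau_prod τ ha hb hc ht, tau_prod τ ha hb hc ht] at h1
        have h2 : (v.map d).sum = (w.map d).sum := Multiplicative.ofAdd.injective h1
        have h3 : (w.map d).sum = w.length := by
          rw [List.eq_replicate_of_mem hw, List.map_replicate, List.sum_replicate,
            List.length_replicate]
          have : d 6 = 1 := rfl
          rw [this]
          simp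
        have h4 := sum_le v
        rcases lt_or_eq_of_le (show w.length ≤ v.length by omega) with h5 | h5
        · exact Or.inl h5
        · refine Or.inr ⟨h5, Or.inl ?_⟩
          have h6 := all6 v (by omega)
          rw [List.eq_replicate_of_mem hw, List.eq_replicate_of_mem h6, h5]
      · have h1 := hconj _ _ hv
        rw [tau_prod τ ha hb hc ht, tau_prod τ ha hb hc ht] at h1
        have h2 : (v.map d).sum = (w.map d).sum := Multiplicative.ofAdd.injective h1
        have h3 : (w.map d).sum = -w.length := by
          rw [List.eq_replicate_of_mem hw, List.map_replicate, List.sum_replicate,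
            List.length_replicate]
          have : d 7 = -1 := rfl
          rw [this]
          simp
        have h4 := sum_ge v
        rcases lt_or_eq_of_le (show w.length ≤ v.length by omega) with h5 | h5
        · exact Or.inl h5
        · refine Or.inr ⟨h5, Or.inl ?_⟩
          have h6 := all7 v (by omega)
          rw [List.eq_replicate_of_mem hw, List.eq_replicate_of_mem h6, h5]
    · intro hw
      have hτw := tau_prod τ ha hb hc ht w
      rcases lt_trichotomy (w.map d).sum 0 with hs | hs | hs
      · right; right
        have h1 := hn _ _ (ne_of_lt hs) hτw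
        have h2 := hw (List.replicate (-(w.map d).sum).toNat 7) (by
          rw [prod7 _ (fun x hx => (List.mem_replicate.1 hx).2), List.length_replicate,
            show -(((-(w.map d).sum).toNat : ℕ) : ℤ) = (w.map d).sum by omega]
          exact h1.symm)
        rw [List.length_replicate] at h2
        exact all7 w (by omega)
      · rw [hs] at hτw
        by_cases h1 : (w.map (io a b c t)).prod = 1
        · have h2 := hw [] (by rw [h1]; exact IsConj.refl _)
          have h3 : w = [] := by
            apply List.eq_nil_of_length_eq_zero
            simp only [List.length_nil] at h2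
            omega
          right; left
          rw [h3]
          simp
        · have h2 := h0 _ hτw h1
          have h3 := hw [0] (by simpa [io] using h2.symm)
          rcases h3 with h3 | ⟨h3, h4⟩
          · have h5 : w = [] := by
              apply List.eq_nil_of_length_eq_zero
              simp only [List.length_cons, List.length_nil] at h3
              omega
            exact absurd (by rw [h5]; simp) h1
          · rcases h4 with h4 | h4
            · exact Or.inl h4
            · exfalso
              obtain ⟨x, rfl⟩ := List.length_eq_one_iff.1 h3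
              have h5 : x < 0 := by
                rcases List.cons_lt_cons_iff.1 h4 with h5 | ⟨_, h5⟩
                · exact h5
                · exact absurd h5 (List.not_lt_nil _)
              exact absurd h5 (Fin.not_lt_zero x)
      · right; left
        have h1 := hn _ _ (ne_of_gt hs) hτw
        have h2 := hw (List.replicate (w.map d).sum.toNat 6) (by
          rw [prod6 _ (fun x hx => (List.mem_replicate.1 hx).2), List.length_replicate,
            show (((w.map d).sum.toNat : ℕ) : ℤ) = (w.map d).sum by omega]
          exact h1.symm)
        rw [List.length_replicate] at h2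
        exact all6 w (by omega)

end Pool.Agent.S03169
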