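import Pool.Statements.S03186

set_option autoImplicit false
open Pool Pool.MP_d5772f_al

namespace Pool.Agent.S03186

/-- The base group `F_2^K` (written multiplicatively). -/
abbrev V (K : Type) := K → Multiplicative (ZMod 2)

/-- The regular wreath product `C_2 wr K`. -/
abbrev W (K : Type) [Group K] :=
  SemidirectProduct (V K) K (mulAutArrow : K →* MulAut (K → Multiplicative (ZMod 2)))

theorem act_apply {K : Type} [Group K] (k : K) (f : V K) (x : K) :
    ((mulAutArrow : K →* MulAut (K → Multiplicative (ZMod 2))) k f) x = f (k⁻¹ * x) := rfl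

theorem V_sq {K : Type} (f : V K) : f ^ 2 = 1 := by
  funext x
  have : ∀ y : Multiplicative (ZMod 2), y ^ 2 = 1 := by decide
  simpa using this (f x)

/-- General construction: a coset of a Sylow 2-subgroup `T` of `K` without elements of odd order
gives a counterexample in `C_2 wr K`. -/
theorem general {K : Type} [Group K] [Finite K] (T : Subgroup K) (hT : IsPGroup 2 T)
    (hidx : ¬ 2 ∣ T.index) (k0 : K) (hk : ∀ τ ∈ T, ¬ Odd (orderOf (k0 * τ))) :
    ¬ (∀ (G : Type) [Group G] [Finite G] (T : Sylow 2 G) (t : G),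
      t ∈ (T : Subgroup G) →
      (∀ x ∈ (T : Subgroup G), x * t = t * x) →
      orderOf t = 2 →
      ∀ g : G, ∃ c ∈ Subgroup.centralizer ({t} : Set G), Odd (orderOf (g * c))) := by
  classical
  intro H
  have : Finite (W K) := by
    have : Finite (V K) := inferInstance
    exact Finite.of_equiv _ SemidirectProduct.equivProd.symm
  let r : W K →* K := SemidirectProduct.rightHom
  have hr : Function.Surjective r := SemidirectProduct.rightHom_surjective
  let T' : Subgroup (W K) := T.comap r
  have hT' : IsPGroup 2 T' := by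
    apply IsPGroup.comap_of_ker_isPGroup hT r
    intro x
    refine ⟨1, ?_⟩
    have hx : r x.1 = 1 := x.2
    apply Subtype.ext
    have h1 : x.1 = SemidirectProduct.inl x.1.left := by
      apply SemidirectProduct.ext
      · simp
      · simpa [r] using hx
    have h2 : (x.1) ^ 2 = 1 := by
      rw [h1, ← map_pow, V_sq, map_one]
    simpa using h2
  have hidx' : ¬ 2 ∣ T'.index := by
    rw [Subgroup.index_comap_of_surjective _ hr]
    exact hidx
  let S : Sylow 2 (W K) := hT'.toSylow hidx'
  have hS : (S : Subgroup (W K)) = T' := IsPGroup.toSylow_coe _ _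
  let f : V K := fun x => if x ∈ T then Multiplicative.ofAdd 1 else 1
  let t : W K := SemidirectProduct.inl f
  have hf1 : f ≠ 1 := by
    intro h
    have h1 := congrFun h 1
    simp only [f, T.one_mem, if_true, Pi.one_apply] at h1
    exact absurd h1 (by decide)
  have hact : ∀ k : K, (mulAutArrow : K →* MulAut (K → Multiplicative (ZMod 2))) k f = f ↔ k ∈ T := by
    intro k
    constructor
    · intro h
      have h1 := congrFun h k
      rw [act_apply] at h1
      simp only [f, inv_mul_cancel, T.one_mem, if_true] at h1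
      by_contra hk
      rw [if_neg hk] at h1
      exact absurd h1 (by decide)
    · intro hk
      funext x
      rw [act_apply]
      have : k⁻¹ * x ∈ T ↔ x ∈ T := by
        constructor
        · intro h
          have := T.mul_mem hk h
          simpa using this
        · intro h
          exact T.mul_mem (T.inv_mem hk) h
      simp only [f, this]
  have hcomm : ∀ c : W K, c * t = t * c ↔ c.right ∈ T := by
    intro c
    rw [← hact]
    constructor
    · intro h
      have h1 := congrArg SemidirectProduct.left h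
      simp only [t, SemidirectProduct.mul_left, SemidirectProduct.left_inl,
        SemidirectProduct.right_inl, map_one, MulAut.one_apply] at h1
      rw [mul_comm f] at h1
      exact mul_left_cancel h1
    · intro h
      apply SemidirectProduct.ext
      · simp only [t, SemidirectProduct.mul_left, SemidirectProduct.left_inl,
          SemidirectProduct.right_inl, map_one, MulAut.one_apply]
        rw [h, mul_comm]
      · simp [t]
  have htT : t ∈ (S : Subgroup (W K)) := by
    rw [hS]
    change r t ∈ T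
    simp only [r, t, SemidirectProduct.rightHom_inl]
    exact T.one_mem
  have hcen : ∀ x ∈ (S : Subgroup (W K)), x * t = t * x := by
    intro x hx
    rw [hS] at hx
    exact (hcomm x).2 hx
  have hord : orderOf t = 2 := by
    apply orderOf_eq_prime
    · simp only [t]
      rw [← map_pow, V_sq, map_one]
    · intro h
      apply hf1
      have := congrArg SemidirectProduct.left h
      simpa [t] using this
  obtain ⟨c, hc, hodd⟩ := H (W K) S t htT hcen hord (SemidirectProduct.inr k0)
  have hcT : c.right ∈ T := by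
    rw [← hcomm c]
    rw [Subgroup.mem_centralizer_iff] at hc
    exact (hc t (Set.mem_singleton _)).symm
  apply hk c.right hcT
  have hdvd : orderOf (r (SemidirectProduct.inr k0 * c)) ∣ orderOf (SemidirectProduct.inr k0 * c) :=
    orderOf_map_dvd r _
  have hr' : r (SemidirectProduct.inr k0 * c) = k0 * c.right := by
    simp [r]
  rw [hr'] at hdvd
  exact Odd.of_dvd_nat hodd hdvd


abbrev F := ZMod 37
abbrev K37 := Matrix.SpecialLinearGroup (Fin 2) F

instance : Fact (Nat.Prime 37) := ⟨by norm_num⟩

/-- Membership in the quaternion group `Q_8` of `SL(2,37)`. -/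
def inL (x : Matrix (Fin 2) (Fin 2) F) : Prop :=
  x = !![1, 0; 0, 1] ∨ x = !![36, 0; 0, 36] ∨ x = !![6, 0; 0, 31] ∨ x = !![31, 0; 0, 6] ∨ x = !![0, 1; 36, 0] ∨ x = !![0, 36; 1, 0] ∨ x = !![0, 6; 6, 0] ∨ x = !![0, 31; 31, 0]

theorem mul_eq {a b c d a' b' c' d' p q r s : F} (h1 : a * a' + b * c' = p)
    (h2 : a * b' + b * d' = q) (h3 : c * a' + d * c' = r) (h4 : c * b' + d * d' = s) :
    (!![a, b; c, d] : Matrix (Fin 2) (Fin 2) F) * !![a', b'; c', d'] = !![p, q; r, s] := by
  rw [Matrix.mul_fin_two, h1, h2, h3, h4]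

theorem inv_eq {a b c d p q r s : F} {x : Matrix (Fin 2) (Fin 2) F} (hx : x = !![a, b; c, d])
    (h1 : d = p) (h2 : -b = q) (h3 : -c = r) (h4 : a = s) :
    !![x 1 1, -x 0 1; -x 1 0, x 0 0] = !![p, q; r, s] := by
  subst hx; subst h1; subst h2; subst h3; subst h4
  simp

theorem det_eq {a b c d : F} {x : Matrix (Fin 2) (Fin 2) F} (hx : x = !![a, b; c, d])
    (h1 : a * d - b * c = 1) : x.det = 1 := by
  subst hx
  rw [Matrix.det_fin_two]
  simpa using h1

theorem pow18 {m y x x2 x4 x8 x16 x18 : Matrix (Fin 2) (Fin 2) F} (h0 : m * y = x)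
    (h1 : x * x = x2) (h2 : x2 * x2 = x4) (h3 : x4 * x4 = x8) (h4 : x8 * x8 = x16)
    (h5 : x16 * x2 = x18) : (m * y) ^ 18 = x18 := by
  rw [h0, ← h5, ← h4, ← h3, ← h2, ← h1]
  noncomm_ring

theorem inL_mul (x y : Matrix (Fin 2) (Fin 2) F) (hx : inL x) (hy : inL y) : inL (x * y) := by
  rcases hx with rfl | rfl | rfl | rfl | rfl | rfl | rfl | rfl <;>
  rcases hy with rfl | rfl | rfl | rfl | rfl | rfl | rfl | rfl
  · exact Or.inl (mul_eq (by decide) (by decide) (by decide) (by decide))
  · exact Or.inr (Or.inl (mul_eq (by decide) (by decide) (by decide) (by decide)))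
  · exact Or.inr (Or.inr (Or.inl (mul_eq (by decide) (by decide) (by decide) (by decide))))
  · exact Or.inr (Or.inr (Or.inr (Or.inl (mul_eq (by decide) (by decide) (by decide) (by decide)))))
  · exact Or.inr (Or.inr (Or.inr (Or.inr (Or.inl (mul_eq (by decide) (by decide) (by decide) (by decide))))))
  · exact Or.inr (Or.inr (Or.inr (Or.inr (Or.inr (Or.inl (mul_eq (by decide) (by decide) (by decide) (by decide)))))))
  · exact Or.inr (Or.inr (Or.inr (Or.inr (Or.inr (Or.inr (Or.inl (mul_eq (by decide) (by decide) (by decide) (by decide))))))))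
  · exact Or.inr (Or.inr (Or.inr (Or.inr (Or.inr (Or.inr (Or.inr (mul_eq (by decide) (by decide) (by decide) (by decide))))))))
  · exact Or.inr (Or.inl (mul_eq (by decide) (by decide) (by decide) (by decide)))
  · exact Or.inl (mul_eq (by decide) (by decide) (by decide) (by decide))
  · exact Or.inr (Or.inr (Or.inr (Or.inl (mul_eq (by decide) (by decide) (by decide) (by decide)))))
  · exact Or.inr (Or.inr (Or.inl (mul_eq (by decide) (by decide) (by decide) (by decide))))
  · exact Or.inr (Or.inr (Or.inr (Or.inr (Or.inr (Or.inl (mul_eq (by decide) (by decide) (by decide) (by decide)))))))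
  · exact Or.inr (Or.inr (Or.inr (Or.inr (Or.inl (mul_eq (by decide) (by decide) (by decide) (by decide))))))
  · exact Or.inr (Or.inr (Or.inr (Or.inr (Or.inr (Or.inr (Or.inr (mul_eq (by decide) (by decide) (by decide) (by decide))))))))
  · exact Or.inr (Or.inr (Or.inr (Or.inr (Or.inr (Or.inr (Or.inl (mul_eq (by decide) (by decide) (by decide) (by decide))))))))
  · exact Or.inr (Or.inr (Or.inl (mul_eq (by decide) (by decide) (by decide) (by decide))))
  · exact Or.inr (Or.inr (Or.inr (Or.inl (mul_eq (by decide) (by decide) (by decide) (by decide)))))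
  · exact Or.inr (Or.inl (mul_eq (by decide) (by decide) (by decide) (by decide)))
  · exact Or.inl (mul_eq (by decide) (by decide) (by decide) (by decide))
  · exact Or.inr (Or.inr (Or.inr (Or.inr (Or.inr (Or.inr (Or.inl (mul_eq (by decide) (by decide) (by decide) (by decide))))))))
  · exact Or.inr (Or.inr (Or.inr (Or.inr (Or.inr (Or.inr (Or.inr (mul_eq (by decide) (by decide) (by decide) (by decide))))))))
  · exact Or.inr (Or.inr (Or.inr (Or.inr (Or.inr (Or.inl (mul_eq (by decide) (by decide) (by decide) (by decide)))))))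
  · exact Or.inr (Or.inr (Or.inr (Or.inr (Or.inl (mul_eq (by decide) (by decide) (by decide) (by decide))))))
  · exact Or.inr (Or.inr (Or.inr (Or.inl (mul_eq (by decide) (by decide) (by decide) (by decide)))))
  · exact Or.inr (Or.inr (Or.inl (mul_eq (by decide) (by decide) (by decide) (by decide))))
  · exact Or.inl (mul_eq (by decide) (by decide) (by decide) (by decide))
  · exact Or.inr (Or.inl (mul_eq (by decide) (by decide) (by decide) (by decide)))
  · exact Or.inr (Or.inr (Or.inr (Or.inr (Or.inr (Or.inr (Or.inr (mul_eq (by decide) (by decide) (by decide) (by decide))))))))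
  · exact Or.inr (Or.inr (Or.inr (Or.inr (Or.inr (Or.inr (Or.inl (mul_eq (by decide) (by decide) (by decide) (by decide))))))))
  · exact Or.inr (Or.inr (Or.inr (Or.inr (Or.inl (mul_eq (by decide) (by decide) (by decide) (by decide))))))
  · exact Or.inr (Or.inr (Or.inr (Or.inr (Or.inr (Or.inl (mul_eq (by decide) (by decide) (by decide) (by decide)))))))
  · exact Or.inr (Or.inr (Or.inr (Or.inr (Or.inl (mul_eq (by decide) (by decide) (by decide) (by decide))))))
  · exact Or.inr (Or.inr (Or.inr (Or.inr (Or.inr (Or.inl (mul_eq (by decide) (by decide) (by decide) (by decide)))))))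
  · exact Or.inr (Or.inr (Or.inr (Or.inr (Or.inr (Or.inr (Or.inr (mul_eq (by decide) (by decide) (by decide) (by decide))))))))
  · exact Or.inr (Or.inr (Or.inr (Or.inr (Or.inr (Or.inr (Or.inl (mul_eq (by decide) (by decide) (by decide) (by decide))))))))
  · exact Or.inr (Or.inl (mul_eq (by decide) (by decide) (by decide) (by decide)))
  · exact Or.inl (mul_eq (by decide) (by decide) (by decide) (by decide))
  · exact Or.inr (Or.inr (Or.inl (mul_eq (by decide) (by decide) (by decide) (by decide))))
  · exact Or.inr (Or.inr (Or.inr (Or.inl (mul_eq (by decide) (by decide) (by decide) (by decide)))))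
  · exact Or.inr (Or.inr (Or.inr (Or.inr (Or.inr (Or.inl (mul_eq (by decide) (by decide) (by decide) (by decide)))))))
  · exact Or.inr (Or.inr (Or.inr (Or.inr (Or.inl (mul_eq (by decide) (by decide) (by decide) (by decide))))))
  · exact Or.inr (Or.inr (Or.inr (Or.inr (Or.inr (Or.inr (Or.inl (mul_eq (by decide) (by decide) (by decide) (by decide))))))))
  · exact Or.inr (Or.inr (Or.inr (Or.inr (Or.inr (Or.inr (Or.inr (mul_eq (by decide) (by decide) (by decide) (by decide))))))))
  · exact Or.inl (mul_eq (by decide) (by decide) (by decide) (by decide))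
  · exact Or.inr (Or.inl (mul_eq (by decide) (by decide) (by decide) (by decide)))
  · exact Or.inr (Or.inr (Or.inr (Or.inl (mul_eq (by decide) (by decide) (by decide) (by decide)))))
  · exact Or.inr (Or.inr (Or.inl (mul_eq (by decide) (by decide) (by decide) (by decide))))
  · exact Or.inr (Or.inr (Or.inr (Or.inr (Or.inr (Or.inr (Or.inl (mul_eq (by decide) (by decide) (by decide) (by decide))))))))
  · exact Or.inr (Or.inr (Or.inr (Or.inr (Or.inr (Or.inr (Or.inr (mul_eq (by decide) (by decide) (by decide) (by decide))))))))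
  · exact Or.inr (Or.inr (Or.inr (Or.inr (Or.inl (mul_eq (by decide) (by decide) (by decide) (by decide))))))
  · exact Or.inr (Or.inr (Or.inr (Or.inr (Or.inr (Or.inl (mul_eq (by decide) (by decide) (by decide) (by decide)))))))
  · exact Or.inr (Or.inr (Or.inr (Or.inl (mul_eq (by decide) (by decide) (by decide) (by decide)))))
  · exact Or.inr (Or.inr (Or.inl (mul_eq (by decide) (by decide) (by decide) (by decide))))
  · exact Or.inr (Or.inl (mul_eq (by decide) (by decide) (by decide) (by decide)))
  · exact Or.inl (mul_eq (by decide) (by decide) (by decide) (by decide))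
  · exact Or.inr (Or.inr (Or.inr (Or.inr (Or.inr (Or.inr (Or.inr (mul_eq (by decide) (by decide) (by decide) (by decide))))))))
  · exact Or.inr (Or.inr (Or.inr (Or.inr (Or.inr (Or.inr (Or.inl (mul_eq (by decide) (by decide) (by decide) (by decide))))))))
  · exact Or.inr (Or.inr (Or.inr (Or.inr (Or.inr (Or.inl (mul_eq (by decide) (by decide) (by decide) (by decide)))))))
  · exact Or.inr (Or.inr (Or.inr (Or.inr (Or.inl (mul_eq (by decide) (by decide) (by decide) (by decide))))))
  · exact Or.inr (Or.inr (Or.inl (mul_eq (by decide) (by decide) (by decide) (by decide))))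
  · exact Or.inr (Or.inr (Or.inr (Or.inl (mul_eq (by decide) (by decide) (by decide) (by decide)))))
  · exact Or.inl (mul_eq (by decide) (by decide) (by decide) (by decide))
  · exact Or.inr (Or.inl (mul_eq (by decide) (by decide) (by decide) (by decide)))

theorem inL_inv (x : Matrix (Fin 2) (Fin 2) F) (hx : inL x) :
    inL !![x 1 1, -x 0 1; -x 1 0, x 0 0] := by
  rcases hx with h | h | h | h | h | h | h | h
  · exact Or.inl (inv_eq h (by decide) (by decide) (by decide) (by decide))
  · exact Or.inr (Or.inl (inv_eq h (by decide) (by decide) (by decide) (by decide)))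
  · exact Or.inr (Or.inr (Or.inr (Or.inl (inv_eq h (by decide) (by decide) (by decide) (by decide)))))
  · exact Or.inr (Or.inr (Or.inl (inv_eq h (by decide) (by decide) (by decide) (by decide))))
  · exact Or.inr (Or.inr (Or.inr (Or.inr (Or.inr (Or.inl (inv_eq h (by decide) (by decide) (by decide) (by decide)))))))
  · exact Or.inr (Or.inr (Or.inr (Or.inr (Or.inl (inv_eq h (by decide) (by decide) (by decide) (by decide))))))
  · exact Or.inr (Or.inr (Or.inr (Or.inr (Or.inr (Or.inr (Or.inr (inv_eq h (by decide) (by decide) (by decide) (by decide))))))))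
  · exact Or.inr (Or.inr (Or.inr (Or.inr (Or.inr (Or.inr (Or.inl (inv_eq h (by decide) (by decide) (by decide) (by decide))))))))

theorem inL_det (x : Matrix (Fin 2) (Fin 2) F) (hx : inL x) : x.det = 1 := by
  rcases hx with h | h | h | h | h | h | h | h <;> exact det_eq h (by decide)

/-- The element `2 + 2i + 2j + 10k` of norm one. -/
def m0 : Matrix (Fin 2) (Fin 2) F := !![14, 25; 21, 27]

theorem pow_0 : (m0 * !![1, 0; 0, 1] : Matrix (Fin 2) (Fin 2) F) ^ 18 = !![36, 0; 0, 36] := by
  refine pow18 (x := !![14, 25; 21, 27]) (x2 := !![18, 26; 10, 33]) (x4 := !![29, 31; 29, 17]) (x8 := !![1, 20; 2, 4]) (x16 := !![4, 26; 10, 19])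
    ?_ ?_ ?_ ?_ ?_ ?_ <;>
    exact mul_eq (by decide) (by decide) (by decide) (by decide)

theorem pow_1 : (m0 * !![36, 0; 0, 36] : Matrix (Fin 2) (Fin 2) F) ^ 18 = !![36, 0; 0, 36] := by
  refine pow18 (x := !![23, 12; 16, 10]) (x2 := !![18, 26; 10, 33]) (x4 := !![29, 31; 29, 17]) (x8 := !![1, 20; 2, 4]) (x16 := !![4, 26; 10, 19])
    ?_ ?_ ?_ ?_ ?_ ?_ <;>
    exact mul_eq (by decide) (by decide) (by decide) (by decide)

theorem pow_2 : (m0 * !![6, 0; 0, 31] : Matrix (Fin 2) (Fin 2) F) ^ 18 = !![36, 0; 0, 36] := by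
  refine pow18 (x := !![10, 35; 15, 23]) (x2 := !![33, 8; 14, 18]) (x4 := !![17, 1; 11, 29]) (x8 := !![4, 9; 25, 1]) (x16 := !![19, 8; 14, 4])
    ?_ ?_ ?_ ?_ ?_ ?_ <;>
    exact mul_eq (by decide) (by decide) (by decide) (by decide)

theorem pow_3 : (m0 * !![31, 0; 0, 6] : Matrix (Fin 2) (Fin 2) F) ^ 18 = !![36, 0; 0, 36] := by
  refine pow18 (x := !![27, 2; 22, 14]) (x2 := !![33, 8; 14, 18]) (x4 := !![17, 1; 11, 29]) (x8 := !![4, 9; 25, 1]) (x16 := !![19, 8; 14, 4])
    ?_ ?_ ?_ ?_ ?_ ?_ <;>
    exact mul_eq (by decide) (by decide) (by decide) (by decide)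

theorem pow_4 : (m0 * !![0, 1; 36, 0] : Matrix (Fin 2) (Fin 2) F) ^ 18 = !![36, 0; 0, 36] := by
  refine pow18 (x := !![12, 14; 10, 21]) (x2 := !![25, 18; 34, 26]) (x4 := !![16, 30; 32, 30]) (x8 := !![32, 11; 29, 10]) (x16 := !![11, 18; 34, 12])
    ?_ ?_ ?_ ?_ ?_ ?_ <;>
    exact mul_eq (by decide) (by decide) (by decide) (by decide)

theorem pow_5 : (m0 * !![0, 36; 1, 0] : Matrix (Fin 2) (Fin 2) F) ^ 18 = !![36, 0; 0, 36] := by
  refine pow18 (x := !![25, 23; 27, 16]) (x2 := !![25, 18; 34, 26]) (x4 := !![16, 30; 32, 30]) (x8 := !![32, 11; 29, 10]) (x16 := !![11, 18; 34, 12])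
    ?_ ?_ ?_ ?_ ?_ ?_ <;>
    exact mul_eq (by decide) (by decide) (by decide) (by decide)

theorem pow_6 : (m0 * !![0, 6; 6, 0] : Matrix (Fin 2) (Fin 2) F) ^ 18 = !![36, 0; 0, 36] := by
  refine pow18 (x := !![2, 10; 14, 15]) (x2 := !![33, 22; 16, 32]) (x4 := !![35, 24; 4, 7]) (x8 := !![26, 9; 20, 34]) (x16 := !![5, 22; 16, 4])
    ?_ ?_ ?_ ?_ ?_ ?_ <;>
    exact mul_eq (by decide) (by decide) (by decide) (by decide)

theorem pow_7 : (m0 * !![0, 31; 31, 0] : Matrix (Fin 2) (Fin 2) F) ^ 18 = !![36, 0; 0, 36] := by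
  refine pow18 (x := !![35, 27; 23, 22]) (x2 := !![33, 22; 16, 32]) (x4 := !![35, 24; 4, 7]) (x8 := !![26, 9; 20, 34]) (x16 := !![5, 22; 16, 4])
    ?_ ?_ ?_ ?_ ?_ ?_ <;>
    exact mul_eq (by decide) (by decide) (by decide) (by decide)

theorem L_pow (a : Matrix (Fin 2) (Fin 2) F) (ha : inL a) : (m0 * a) ^ 18 = !![36, 0; 0, 36] := by
  rcases ha with rfl | rfl | rfl | rfl | rfl | rfl | rfl | rfl
  · exact pow_0
  · exact pow_1
  · exact pow_2
  · exact pow_3
  · exact pow_4
  · exact pow_5
  · exact pow_6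
  · exact pow_7

def vL : Fin 8 → Matrix (Fin 2) (Fin 2) F :=
  ![!![1, 0; 0, 1], !![36, 0; 0, 36], !![6, 0; 0, 31], !![31, 0; 0, 6], !![0, 1; 36, 0], !![0, 36; 1, 0], !![0, 6; 6, 0], !![0, 31; 31, 0]]

theorem m0_det : m0.det = 1 := det_eq (x := m0) rfl (by decide)

def k0 : K37 := ⟨m0, m0_det⟩

theorem L_one : inL (1 : Matrix (Fin 2) (Fin 2) F) := Or.inl Matrix.one_fin_two

def T : Subgroup K37 where
  carrier := {g | inL g.1}
  mul_mem' := by
    intro a b ha hb
    exact inL_mul _ _ ha hb
  one_mem' := L_one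
  inv_mem' := by
    intro a ha
    change inL (a⁻¹).1
    have : (a⁻¹).1 = !![a.1 1 1, -a.1 0 1; -a.1 1 0, a.1 0 0] := by
      rw [Matrix.SpecialLinearGroup.coe_inv, Matrix.adjugate_fin_two]
    rw [this]
    exact inL_inv _ ha

theorem vL_mem (i : Fin 8) : inL (vL i) := by
  fin_cases i
  · exact Or.inl rfl
  · exact Or.inr (Or.inl rfl)
  · exact Or.inr (Or.inr (Or.inl rfl))
  · exact Or.inr (Or.inr (Or.inr (Or.inl rfl)))
  · exact Or.inr (Or.inr (Or.inr (Or.inr (Or.inl rfl))))
  · exact Or.inr (Or.inr (Or.inr (Or.inr (Or.inr (Or.inl rfl)))))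
  · exact Or.inr (Or.inr (Or.inr (Or.inr (Or.inr (Or.inr (Or.inl rfl))))))
  · exact Or.inr (Or.inr (Or.inr (Or.inr (Or.inr (Or.inr (Or.inr rfl))))))

def code (x : Matrix (Fin 2) (Fin 2) F) : F × F := (x 0 0, x 0 1)

theorem code_inj : Function.Injective (fun i : Fin 8 => code (vL i)) := by
  have h : (fun i : Fin 8 => code (vL i)) =
      ![(1, 0), (36, 0), (6, 0), (31, 0), (0, 1), (0, 36), (0, 6), (0, 31)] := by
    funext i
    fin_cases i <;> rfl
  rw [h]
  decide

theorem card_T : Nat.card T = 8 := by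
  have e : Function.Bijective (fun i : Fin 8 =>
      (⟨⟨vL i, inL_det _ (vL_mem i)⟩, vL_mem i⟩ : T)) := by
    constructor
    · intro i j hij
      apply code_inj
      have : vL i = vL j := congrArg (fun g : T => g.1.1) hij
      simp only [this]
    · intro g
      have hg : inL g.1.1 := g.2
      rcases hg with h | h | h | h | h | h | h | h
      · exact ⟨0, Subtype.ext (Subtype.ext h.symm)⟩
      · exact ⟨1, Subtype.ext (Subtype.ext h.symm)⟩
      · exact ⟨2, Subtype.ext (Subtype.ext h.symm)⟩
      · exact ⟨3, Subtype.ext (Subtype.ext h.symm)⟩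
      · exact ⟨4, Subtype.ext (Subtype.ext h.symm)⟩
      · exact ⟨5, Subtype.ext (Subtype.ext h.symm)⟩
      · exact ⟨6, Subtype.ext (Subtype.ext h.symm)⟩
      · exact ⟨7, Subtype.ext (Subtype.ext h.symm)⟩
  rw [← Nat.card_congr (Equiv.ofBijective _ e), Nat.card_eq_fintype_card, Fintype.card_fin]

theorem isPGroup_T : IsPGroup 2 T := IsPGroup.of_card (n := 3) (by rw [card_T]; norm_num)

theorem card_K : Nat.card K37 = 50616 := by
  let d : Matrix.GeneralLinearGroup (Fin 2) F →* Fˣ := Matrix.GeneralLinearGroup.det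
  have hsurj : Function.Surjective d := by
    intro u
    refine ⟨Matrix.GeneralLinearGroup.mkOfDetNeZero !![(u : F), 0; 0, 1] ?_, ?_⟩
    · rw [Matrix.det_fin_two]; simp
    · apply Units.ext
      simp [d, Matrix.GeneralLinearGroup.mkOfDetNeZero, Matrix.det_fin_two]
  have h1 : Nat.card d.ker * d.ker.index = Nat.card (Matrix.GeneralLinearGroup (Fin 2) F) :=
    Subgroup.card_mul_index _
  have h2 : d.ker.index = 36 := by
    rw [Subgroup.index_ker, MonoidHom.range_eq_top.2 hsurj]
    rw [Subgroup.card_top, Nat.card_eq_fintype_card, ZMod.card_units_eq_totient]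
    decide +kernel
  have h3 : Nat.card (Matrix.GeneralLinearGroup (Fin 2) F) = (37 ^ 2 - 1) * (37 ^ 2 - 37) := by
    rw [Matrix.card_GL_field, Fin.prod_univ_two, ZMod.card]
    norm_num
  have e : K37 ≃ d.ker :=
    { toFun := fun g => ⟨(g : Matrix.GeneralLinearGroup (Fin 2) F), by
        rw [MonoidHom.mem_ker]
        apply Units.ext
        simp [d]⟩
      invFun := fun g => ⟨g.1.1, by
        have := g.2
        rw [MonoidHom.mem_ker] at this
        have h := congrArg Units.val this
        simpa [d] using h⟩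
      left_inv := fun g => by ext; rfl
      right_inv := fun g => by ext; rfl }
  have h4 : Nat.card K37 = Nat.card d.ker := Nat.card_congr e
  rw [h4]
  have h5 : Nat.card d.ker * 36 = 50616 * 36 := by
    have h6 : Nat.card d.ker * 36 = Nat.card d.ker * d.ker.index := by rw [h2]
    rw [h6, h1, h3]
    norm_num
  exact Nat.eq_of_mul_eq_mul_right (by norm_num) h5

theorem index_T : ¬ 2 ∣ T.index := by
  have h := Subgroup.card_mul_index T
  rw [card_T, card_K] at h
  intro h2
  omega

theorem coset : ∀ τ ∈ T, ¬ Odd (orderOf (k0 * τ)) := by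
  intro τ hτ hodd
  have h18 : ((k0 * τ) ^ 18).1 = !![36, 0; 0, 36] := L_pow _ hτ
  have h36 : (k0 * τ) ^ 36 = 1 := by
    apply Subtype.ext
    have : (k0 * τ) ^ 36 = (k0 * τ) ^ 18 * (k0 * τ) ^ 18 := by rw [← pow_add]
    rw [this]
    change ((k0 * τ) ^ 18).1 * ((k0 * τ) ^ 18).1 = 1
    rw [h18, mul_eq (p := 1) (q := 0) (r := 0) (s := 1) (by decide) (by decide) (by decide)
      (by decide)]
    exact Matrix.one_fin_two.symm
  have hd : orderOf (k0 * τ) ∣ 36 := orderOf_dvd_of_pow_eq_one h36
  have hc : Nat.Coprime (orderOf (k0 * τ)) 4 := by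
    have : Nat.Coprime (orderOf (k0 * τ)) 2 := (Nat.coprime_two_right).2 hodd
    exact Nat.Coprime.pow_right 2 this
  have h9 : orderOf (k0 * τ) ∣ 9 := by
    have : orderOf (k0 * τ) ∣ 4 * 9 := hd
    exact hc.dvd_of_dvd_mul_left this
  have h1 : (k0 * τ) ^ 18 = 1 := by
    apply orderOf_dvd_iff_pow_eq_one.1
    exact h9.trans (by norm_num)
  rw [h1] at h18
  have h00 := congrFun (congrFun h18 0) 0
  have h10 : ((1 : K37).1 : Matrix (Fin 2) (Fin 2) F) 0 0 = 1 := by
    change (1 : Matrix (Fin 2) (Fin 2) F) 0 0 = 1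
    simp
  rw [h10] at h00
  exact absurd h00 (by decide)

/-- The negation of the preceding statement: For every finite group G, Sylow 2-subgroup T and involution t central in T, every left coset g·C_G(t) of the centralizer of t contains an element of odd order. -/
theorem result :
    ¬ (∀ (G : Type) [Group G] [Finite G] (T : Sylow 2 G) (t : G),
      t ∈ (T : Subgroup G) →
      (∀ x ∈ (T : Subgroup G), x * t = t * x) →
      orderOf t = 2 →
      ∀ g : G, ∃ c ∈ Subgroup.centralizer ({t} : Set G), Odd (orderOf (g * c))) :=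
  general T isPGroup_T index_T k0 coset

end Pool.Agent.S03186
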