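import Pool.Statements.S03188
import Pool.Agent.H290R3.NotRD

set_option autoImplicit false
open scoped Pointwise Classical
open Pool Pool.MP_d581c5_al

namespace Pool.Agent.S03188

/-- The negation of the preceding statement: For every group with a length function, if there are C>0 and d with ∣S∣∣X∣ ≤ C(1+r)^d ∣SX∣ whenever S has lengths ≤ r, then the group has property RD: convolution by f supported in the r-ball has ℓ² norm ≤ C'(1+r)^d' ‖f‖₂. -/
theorem result :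
    ¬ (∀ (G : Type) [Group G] (L : G → ℝ),
      (∀ g, 0 ≤ L g) → L 1 = 0 → (∀ g, L g⁻¹ = L g) →
      (∀ g h, L (g * h) ≤ L g + L h) →
      (∃ C : ℝ, 0 < C ∧ ∃ d : ℕ, ∀ r : ℝ, 0 ≤ r → ∀ S X : Finset G,
          (∀ s ∈ S, L s ≤ r) →
          (S.card : ℝ) * (X.card : ℝ) ≤ C * (1 + r) ^ d * ((S * X).card : ℝ)) →
      ∃ C : ℝ, 0 < C ∧ ∃ d : ℕ, ∀ r : ℝ, 0 ≤ r →
        ∀ (A B : Finset G) (f g : G → ℂ), (∀ y ∈ A, L y ≤ r) →
          ∑ x ∈ A * B, ‖∑ p ∈ (A ×ˢ B).filter (fun p => p.1 * p.2 = x), f p.1 * g p.2‖ ^ 2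
            ≤ (C * (1 + r) ^ d) ^ 2 * (∑ y ∈ A, ‖f y‖ ^ 2) * (∑ z ∈ B, ‖g z‖ ^ 2)) := by
  intro h
  obtain ⟨C, hC, d, H⟩ := h (FreeGroup ℕ) (fun g => (Pool.Agent.H290R3.len g : ℝ))
    (fun g => Nat.cast_nonneg _)
    (by simp only [Pool.Agent.H290R3.len_one, Nat.cast_zero])
    (fun g => by simp only [Pool.Agent.H290R3.len_inv])
    (fun g h => by
      have := Pool.Agent.H290R3.len_mul g h
      exact_mod_cast this)
    (by
      refine ⟨36, by norm_num, 2, ?_⟩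
      intro r hr S X hS
      have h1 := Pool.Agent.H290R3.rapid_expansion ⌊r⌋₊ S X
        (fun s hs => Nat.le_floor (hS s hs))
      have h2 : (S.card : ℝ) * (X.card : ℝ) ≤
          36 * ((⌊r⌋₊ : ℝ) + 1) ^ 2 * ((S * X).card : ℝ) := by
        have h3 : ((S.card * X.card : ℕ) : ℝ) ≤
            ((36 * (⌊r⌋₊ + 1) ^ 2 * (S * X).card : ℕ) : ℝ) := by
          refine le_trans (Nat.cast_le.mpr h1) (le_of_eq ?_)
          congr!
        push_cast at h3
        exact h3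
      have h4 : (⌊r⌋₊ : ℝ) ≤ r := Nat.floor_le hr
      have h5 : (0 : ℝ) ≤ (⌊r⌋₊ : ℝ) := Nat.cast_nonneg _
      have h6 : ((⌊r⌋₊ : ℝ) + 1) ^ 2 ≤ (1 + r) ^ 2 := by
        apply pow_le_pow_left₀ (by positivity)
        linarith
      have h7 : (0 : ℝ) ≤ ((S * X).card : ℝ) := Nat.cast_nonneg _
      have h9 : (36 : ℝ) * ((⌊r⌋₊ : ℝ) + 1) ^ 2 ≤ 36 * (1 + r) ^ 2 := by linarith
      have h10 := h2.trans (mul_le_mul_of_nonneg_right h9 h7)
      refine h10.trans (le_of_eq ?_)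
      congr!)
  apply Pool.Agent.H290R3.not_RD
  refine ⟨C, hC, d, fun r hr A B f g hA => ?_⟩
  have h8 := H r hr A B f g hA
  refine le_trans (le_of_eq ?_) h8
  congr!

end Pool.Agent.S03188
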