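-- Frozen statement S03202 (negation for MP_d69214_al).
-- Example: SL_2 over the union F of the fields with 2^n elements, n odd, is invariably generated
-- (every subgroup meeting all conjugacy classes is everything) but has no solvable subgroup of finite index.
import Pool.Statements.S03202
import Pool.Agent.H542R3.OddField

set_option autoImplicit false
open Pool Pool.MP_d69214_al

namespace Pool.Agent.S03202

open Pool.Agent.H542R3

/-- The negation of the preceding statement: For every field K and n, if a subgroup G of GL_n(K) is invariably generated (every subset meeting all conjugacy classes of G generates G), then G has a solvable subgroup of finite index. -/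
theorem result :
    ¬ (∀ (K : Type) [Field K] (n : ℕ) (G : Subgroup (Matrix.GeneralLinearGroup (Fin n) K)),
      (∀ S : Set G, (∀ g : G, ∃ s ∈ S, IsConj g s) → Subgroup.closure S = ⊤) →
      ∃ H : Subgroup G, H.FiniteIndex ∧ IsSolvable H) := by
  intro hall
  let φ : SL2 FF →* Matrix.GeneralLinearGroup (Fin 2) FF := Matrix.SpecialLinearGroup.toGL
  have hφ : Function.Injective φ := Matrix.SpecialLinearGroup.toGL_injective
  let e : SL2 FF ≃* φ.range := MonoidHom.ofInjective hφ
  obtain ⟨H, hfi, hs⟩ := hall FF 2 φ.range (by
    intro S hS
    have h1 : (Subgroup.closure S).comap e.toMonoidHom = ⊤ := by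
      apply ig_FF
      intro g
      obtain ⟨s, hsS, hgs⟩ := hS (e g)
      refine ⟨e.symm s, ?_, ?_⟩
      · rw [Subgroup.mem_comap]
        have : e.toMonoidHom (e.symm s) = s := by simp
        rw [this]
        exact Subgroup.subset_closure hsS
      · obtain ⟨c, hc⟩ := isConj_iff.1 hgs
        rw [isConj_iff]
        refine ⟨e.symm c, ?_⟩
        apply e.injective
        simp [hc]
    rw [eq_top_iff]
    intro x _
    have h2 : e.symm x ∈ (Subgroup.closure S).comap e.toMonoidHom := by
      rw [h1]; exact Subgroup.mem_top _
    rw [Subgroup.mem_comap] at h2
    simpa using h2)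
  -- transfer the subgroup
  have hfi' : (H.comap e.toMonoidHom).FiniteIndex := by
    refine ⟨?_⟩
    have h3 := Subgroup.index_comap_of_surjective (f := e.toMonoidHom) H e.surjective
    rw [h3]
    exact hfi.index_ne_zero
  have hs' : Group.IsSolvable (H.comap e.toMonoidHom) := by
    have : Group.IsSolvable H := hs
    let ψ : (H.comap e.toMonoidHom) →* H := e.toMonoidHom.subgroupComap H
    have hψ : Function.Injective ψ := by
      intro a b hab
      apply Subtype.ext
      apply e.injective
      exact congrArg Subtype.val hab
    exact Group.isSolvable_of_isSolvable_injective hψ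
  exact not_virt_solvable _ hfi' hs'

end Pool.Agent.S03202
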