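-- Frozen statement S03232.  The Hopf algebra and its properties are the starting repository's
-- development Pool/Agent/Helper815/GK2 (there never assembled); the growth computation for arbitrary
-- generating subspaces, the exclusion of three or more Ore steps and the assembly are in
-- Pool/Agent/H127R3/GK and in this file.
import Pool.Statements.S03232
import Pool.Agent.Helper815.GK2.Hopf3
import Pool.Agent.Helper815.GK2.P_domain
import Pool.Agent.Helper815.GK2.P_conn_filt
import Pool.Agent.Helper815.GK2.P_exists_filt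
import Pool.Agent.Helper815.GK2.P_gk_lower
import Pool.Agent.Helper815.GK2.P_gk_upper
import Pool.Agent.Helper815.GK2.P_not_two_gen
import Pool.Agent.H127R3.GK.Growth
import Pool.Agent.H127R3.GK.Ihoe

set_option autoImplicit false
open Pool Pool.MP_d9e773_al

namespace Pool.Agent.S03232

/-- The negation of the preceding statement: For every prime p and algebraically closed field k of characteristic p, every finitely generated connected Hopf domain over k of GK dimension 2 admits an iterated Hopf Ore extension structure (polynomial start, Ore steps with automorphisms, each stage a Hopf subalgebra). -/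
theorem result :
    ¬ (∀ (p : ℕ), p.Prime → ∀ (k : Type) [Field k] [IsAlgClosed k] [CharP k p]
    (H : Type) [Ring H] [IsDomain H] [HopfAlgebra k H],
    Algebra.FiniteType k H →
    (∀ C : Submodule k H, C ≠ ⊥ →
      (∀ c ∈ C, Coalgebra.comul (R := k) c ∈
        LinearMap.range (TensorProduct.map C.subtype C.subtype)) →
      (1 : H) ∈ C) →
    (∀ V : Submodule k H, FiniteDimensional k V → (1 : H) ∈ V →
      Algebra.adjoin k (V : Set H) = ⊤ →
      Filter.limsup (fun n : ℕ =>
        (((Real.log (Module.finrank k ↥(V ^ n) : ℝ)) / Real.log (n : ℝ) : ℝ) : EReal))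
        Filter.atTop = 2) →
    ∃ n : ℕ, 1 ≤ n ∧ ∃ X : ℕ → H, ∃ A : ℕ → Subalgebra k H,
      (∀ i, A i = Algebra.adjoin k (X '' {j | j < i})) ∧
      A n = ⊤ ∧
      (∀ i, 1 ≤ i → i ≤ n → ∀ a ∈ A i,
        Coalgebra.comul (R := k) a ∈
          LinearMap.range (TensorProduct.map (Subalgebra.toSubmodule (A i)).subtype
            (Subalgebra.toSubmodule (A i)).subtype) ∧
        HopfAlgebraStruct.antipode (R := k) a ∈ A i) ∧
      (∀ i, i < n →
        (∀ m : ℕ, ∀ c : ℕ → H, (∀ j, c j ∈ A i) →
          ∑ j ∈ Finset.range m, c j * X i ^ j = 0 → ∀ j, j < m → c j = 0) ∧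
        (∀ a ∈ A i, ∃ b ∈ A i, X i * a - b * X i ∈ A i) ∧
        (∀ b ∈ A i, ∃ a ∈ A i, X i * a - b * X i ∈ A i) ∧
        (∀ a ∈ A i, X i * a ∈ A i → a = 0))) := by
  intro hall
  classical
  have : CharP (AlgebraicClosure (ZMod 2)) 2 :=
    charP_of_injective_algebraMap (algebraMap (ZMod 2) (AlgebraicClosure (ZMod 2))).injective 2
  obtain ⟨k, fk, ack, ck⟩ : ∃ (k : Type) (_ : Field k) (_ : IsAlgClosed k), CharP k 2 :=
    ⟨AlgebraicClosure (ZMod 2), inferInstance, inferInstance, inferInstance⟩
  have hdom : IsDomain (Helper815.GK2.H k) := Helper815.GK2.domain k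
  obtain ⟨W, hW⟩ : ∃ W : Submodule k (Helper815.GK2.H k), W = Submodule.span k
    ({1, Helper815.GK2.x k, Helper815.GK2.y k, Helper815.GK2.z k} : Set (Helper815.GK2.H k)) :=
    ⟨_, rfl⟩
  have hup : ∀ n : ℕ, Module.finrank k ↥(W ^ n) ≤ 2 * (10 * n + 1) ^ 2 := by
    rw [hW]; exact Helper815.GK2.gk_upper k
  have hlow : ∀ n : ℕ, (n / 2 + 1) ^ 2 ≤ Module.finrank k ↥(W ^ n) := by
    rw [hW]; exact Helper815.GK2.gk_lower k
  have hWfg : W.FG := by
    rw [hW]; exact Submodule.fg_span (Set.toFinite _)
  have h1W : (1 : Helper815.GK2.H k) ∈ W := by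
    rw [hW]; exact Submodule.subset_span (by simp)
  have hWgen : Algebra.adjoin k (W : Set (Helper815.GK2.H k)) = ⊤ := by
    rw [eq_top_iff, ← Helper815.GK2.gen_top k]
    refine Algebra.adjoin_mono ?_
    rw [hW]
    intro a ha
    exact Submodule.subset_span (by
      rcases ha with h | h | h
      · right; left; exact h
      · right; right; left; exact h
      · right; right; right; exact h)
  obtain ⟨n, hn1, X, A, hA, hAtop, -, hstep⟩ := hall 2 Nat.prime_two k (Helper815.GK2.H k)
    ⟨⟨{Helper815.GK2.x k, Helper815.GK2.y k, Helper815.GK2.z k}, by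
      push_cast
      exact Helper815.GK2.gen_top k⟩⟩
    (by
      intro C hC hCC
      obtain ⟨F, hF0, hFm, hFt, hFc⟩ := Helper815.GK2.exists_filt (k := k)
        (A := Helper815.GK2.H k) (Helper815.GK2.x k) (Helper815.GK2.y k) (Helper815.GK2.z k)
        (Helper815.GK2.gen_top k) (Helper815.GK2.Del_x k) (Helper815.GK2.Del_y k)
        (Helper815.GK2.Del_z k)
      exact Helper815.GK2.conn_filt F 1 hF0 hFm hFt hFc C hC hCC)
    (by
      intro V hV h1V hVgen
      have hVfg : V.FG := Module.Finite.iff_fg.1 hV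
      obtain ⟨c, C, hc, hC, hb⟩ := H127R3.GK.quad_bounds hWfg h1W hWgen hup hlow hVfg h1V hVgen
      exact H127R3.GK.limsup_of_bounds (fun n => Module.finrank k ↥(V ^ n)) hc hC hb)
  rcases Nat.lt_or_ge n 3 with hn | hn
  · refine Helper815.GK2.not_two_gen k (X 0) (X 1) ?_
    rw [eq_top_iff, ← hAtop, hA n]
    refine Algebra.adjoin_mono ?_
    rintro _ ⟨j, hj, rfl⟩
    have hj' : j < n := hj
    have : j = 0 ∨ j = 1 := by omega
    rcases this with rfl | rfl
    · left; rfl
    · right; rfl
  · refine H127R3.GK.no_three hWfg h1W hWgen hup (X 0) (X 1) (X 2) ?_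
    exact H127R3.GK.li_three hA (fun i hi => (hstep i (by omega)).1)

end Pool.Agent.S03232
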