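import Pool.Statements.S03236
import Pool.Agent.H245R3.TF.Red

set_option autoImplicit false
open Pool Pool.MP_da3691_al

namespace Pool.Agent.S03236

open Nat.Partrec in
/-- the halting set, as a set of numbers -/
theorem halt_noncomp : ¬ ComputablePred (fun n : ℕ => (Code.eval (Denumerable.ofNat Code n) 0).Dom) := by
  intro h
  apply ComputablePred.halting_problem 0
  refine ComputablePred.computable_of_manyOneReducible
    (q := fun n : ℕ => (Code.eval (Denumerable.ofNat Code n) 0).Dom) ?_ h
  refine ⟨fun c => Encodable.encode c, Computable.encode, fun c => ?_⟩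
  simp only [Denumerable.ofNat_encode]

open Nat.Partrec in
theorem halt_re : REPred (fun n : ℕ => (Code.eval (Denumerable.ofNat Code n) 0).Dom) := by
  have h := ComputablePred.halting_problem_re 0
  have h2 : Partrec fun n : ℕ => Part.assert ((Code.eval (Denumerable.ofNat Code n) 0).Dom)
      fun _ => Part.some () :=
    Partrec.comp (f := fun c : Code => Part.assert ((Code.eval c 0).Dom) fun _ => Part.some ())
      h (Computable.ofNat Code)
  exact h2

/-- The negation of the preceding statement: Satisfiability of a single equation over Thompson's group F = ⟨x0,x1 : [x0x1⁻¹, x0⁻¹x1x0], [x0x1⁻¹, x0⁻²x1x0²]⟩ is decidable. Equations are words in unknowns and the generators, with signs. -/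
theorem result :
    ¬ (∀ rels : Set (FreeGroup Bool),
      rels = {(FreeGroup.of false * (FreeGroup.of true)⁻¹) *
                ((FreeGroup.of false)⁻¹ * FreeGroup.of true * FreeGroup.of false) *
                (FreeGroup.of false * (FreeGroup.of true)⁻¹)⁻¹ *
                ((FreeGroup.of false)⁻¹ * FreeGroup.of true * FreeGroup.of false)⁻¹,
              (FreeGroup.of false * (FreeGroup.of true)⁻¹) *
                ((FreeGroup.of false)⁻¹ * (FreeGroup.of false)⁻¹ * FreeGroup.of true *
                  FreeGroup.of false * FreeGroup.of false) *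
                (FreeGroup.of false * (FreeGroup.of true)⁻¹)⁻¹ *
                ((FreeGroup.of false)⁻¹ * (FreeGroup.of false)⁻¹ * FreeGroup.of true *
                  FreeGroup.of false * FreeGroup.of false)⁻¹} →
      ComputablePred (fun w : List ((ℕ ⊕ Bool) × Bool) =>
        ∃ σ : ℕ → PresentedGroup rels,
          (w.map (fun p : (ℕ ⊕ Bool) × Bool =>
            (if p.2 then
                Sum.elim σ (fun b : Bool => (PresentedGroup.of b : PresentedGroup rels)) p.1
              else
                (Sum.elim σ (fun b : Bool => (PresentedGroup.of b : PresentedGroup rels)) p.1)⁻¹ :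
              PresentedGroup rels))).prod = 1)) := by
  intro hall
  have hc := hall Pool.Agent.H245R3.TF.rels rfl
  obtain ⟨F, hF, hF'⟩ := Pool.Agent.H245R3.TF.main_red _
    (Pool.Agent.Helper844.Dio.dprm halt_re)
  apply halt_noncomp
  refine ComputablePred.computable_of_manyOneReducible ?_ hc
  refine ⟨F, hF, fun n => ?_⟩
  refine (hF' n).trans ?_
  apply exists_congr
  intro σ
  unfold Pool.Agent.H245R3.TF.ev
  rw [FreeGroup.lift_mk]
  have e : (fun p : (ℕ ⊕ Bool) × Bool =>
      (if p.2 then
          Sum.elim σ (fun b : Bool => (PresentedGroup.of b :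
            PresentedGroup Pool.Agent.H245R3.TF.rels)) p.1
        else
          (Sum.elim σ (fun b : Bool => (PresentedGroup.of b :
            PresentedGroup Pool.Agent.H245R3.TF.rels)) p.1)⁻¹ :
        PresentedGroup Pool.Agent.H245R3.TF.rels)) = fun p : (ℕ ⊕ Bool) × Bool =>
      cond p.2 (Sum.elim σ (fun b : Bool => (PresentedGroup.of b :
            PresentedGroup Pool.Agent.H245R3.TF.rels)) p.1)
          (Sum.elim σ (fun b : Bool => (PresentedGroup.of b :
            PresentedGroup Pool.Agent.H245R3.TF.rels)) p.1)⁻¹ := by
    funext p
    rcases p with ⟨a, b⟩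
    cases b <;> rfl
  rw [e]

end Pool.Agent.S03236
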