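import Pool.Statements.S03263
import Pool.Agent.H258R3.AmI

set_option autoImplicit false
open Pool Pool.MP_dc5bfb_al

namespace Pool.Agent.S03263

open H258R3.Am

lemma FW2_shift (g : ℕ) (w : List Gen) (x : ℤ → QQ g) :
    FW2 g w (fun i => x (i + 1)) = fun i => FW2 g w x (i + 1) := by
  induction w with
  | nil => rfl
  | cons s w ih => rw [FW2_cons, ih]; rfl

/-- There is a subshift X over a finite alphabet and a group G of shift-commuting block-code automorphisms of X that has an invariant finitely additive mean (amenable) and contains an infinite-order element g with word length of gⁿ over some finite set being o(n). -/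
theorem result :
  ∃ k : ℕ, ∃ X : Set (ℤ → Fin k),
    (∀ x : ℤ → Fin k, (∀ N : ℕ, ∃ y ∈ X, ∀ i : ℤ, |i| ≤ (N : ℤ) → y i = x i) → x ∈ X) ∧
    (∀ x ∈ X, (fun n : ℤ => x (n + 1)) ∈ X ∧ (fun n : ℤ => x (n - 1)) ∈ X) ∧
    ∃ G : Subgroup (Equiv.Perm X),
      (∀ φ ∈ G,
        (∀ x y : X, (∀ n : ℤ, (y : ℤ → Fin k) n = (x : ℤ → Fin k) (n + 1)) →
          ∀ n : ℤ, ((φ y : X) : ℤ → Fin k) n = ((φ x : X) : ℤ → Fin k) (n + 1)) ∧
        ∃ r : ℕ, ∀ x y : X,
          (∀ i : ℤ, |i| ≤ (r : ℤ) → (x : ℤ → Fin k) i = (y : ℤ → Fin k) i) →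
          ((φ x : X) : ℤ → Fin k) 0 = ((φ y : X) : ℤ → Fin k) 0) ∧
      (∃ m : Set G → ℝ, (∀ A, 0 ≤ m A) ∧ m Set.univ = 1 ∧
        (∀ A B, Disjoint A B → m (A ∪ B) = m A + m B) ∧
        (∀ (g : G) (A : Set G), m ((fun h : G => g * h) '' A) = m A)) ∧
      ∃ g : G, ¬ IsOfFinOrder g ∧
        ∃ S : Finset G, ∀ ε : ℝ, 0 < ε → ∃ N : ℕ, ∀ n : ℕ, N ≤ n →
          ∃ l : List G, (∀ s ∈ l, s ∈ S ∨ s⁻¹ ∈ S) ∧ l.prod = g ^ n ∧
            (l.length : ℝ) ≤ ε * (n : ℝ) := by
  classical
  obtain ⟨C, hC1, hC⟩ := exists_C1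
  -- the parameter
  generalize hgg : C = gg
  have hK : 2 * C ≤ 512 * (gg + 1) := by omega
  obtain ⟨ω, happ, hdist⟩ := exists_types hC1 hC hK
  obtain ⟨kk, ⟨e⟩⟩ : ∃ kk, Nonempty (QQ gg ≃ Fin kk) := ⟨_, ⟨Fintype.equivFin _⟩⟩
  let dc : (ℤ → Fin kk) → (ℤ → QQ gg) := fun x i => e.symm (x i)
  let ec : (ℤ → QQ gg) → (ℤ → Fin kk) := fun x i => e (x i)
  have de : ∀ x, dc (ec x) = x := fun x => by funext i; simp [dc, ec]
  have ed : ∀ x, ec (dc x) = x := fun x => by funext i; simp [dc, ec]
  let XX : Set (ℤ → Fin kk) := {x | dc x ∈ X2 gg ω}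
  have hmem : ∀ x : XX, dc x.1 ∈ X2 gg ω := fun x => x.2
  -- the generators
  have hXact : ∀ s, ∀ x ∈ X2 gg ω, act2 gg s x ∈ X2 gg ω := fun s x hx => X2_FW gg hx [s]
  let fn : Gen → XX → XX := fun s x => ⟨ec (act2 gg s (dc x.1)), by
    show dc (ec (act2 gg s (dc x.1))) ∈ X2 gg ω
    rw [de]; exact hXact s _ (hmem x)⟩
  have fn_inv : ∀ s x, fn s (fn s x) = x := by
    intro s x
    apply Subtype.ext
    show ec (act2 gg s (dc (ec (act2 gg s (dc x.1))))) = x.1
    rw [de, X2_inv gg s (hmem x), ed]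
  let ρ : Gen → Equiv.Perm XX := fun s => ⟨fn s, fn s, fn_inv s, fn_inv s⟩
  have ρ_val : ∀ s (x : XX), ((ρ s x : XX) : ℤ → Fin kk) =
      ec (act2 gg s (dc x.1)) := fun s x => rfl
  have ρ_sq : ∀ s, ρ s * ρ s = 1 := by
    intro s
    ext1 x
    exact fn_inv s x
  have prod_val : ∀ (w : List Gen) (x : XX),
      (((w.map ρ).prod x : XX) : ℤ → Fin kk) = ec (FW2 gg w (dc x.1)) := by
    intro w
    induction w with
    | nil => intro x; exact (ed x.1).symm
    | cons s w ih =>
      intro x
      rw [List.map_cons, List.prod_cons, Equiv.Perm.mul_apply, ρ_val, ih, de, FW2_cons]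
  have prod_ext : ∀ w w' : List Gen, Wp gg ω w = Wp gg ω w' →
      (w.map ρ).prod = (w'.map ρ).prod := by
    intro w w' h
    ext1 x
    apply Subtype.ext
    rw [prod_val, prod_val, X2_ext gg h (hmem x)]
  have prod_rev : ∀ w : List Gen, ((w.map ρ).prod)⁻¹ = (w.reverse.map ρ).prod := by
    intro w
    induction w with
    | nil => simp
    | cons s w ih =>
      rw [List.reverse_cons, List.map_append, List.prod_append, ← ih, List.map_cons,
        List.prod_cons, mul_inv_rev, inv_eq_of_mul_eq_one_left (ρ_sq s)]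
      simp
  let G : Subgroup (Equiv.Perm XX) :=
    { carrier := {φ | ∃ w : List Gen, φ = (w.map ρ).prod}
      mul_mem' := by
        rintro _ _ ⟨w, rfl⟩ ⟨w', rfl⟩
        exact ⟨w ++ w', by rw [List.map_append, List.prod_append]⟩
      one_mem' := ⟨[], by simp⟩
      inv_mem' := by
        rintro _ ⟨w, rfl⟩
        exact ⟨w.reverse, prod_rev w⟩ }
  let a : Gen → G := fun s => ⟨ρ s, ⟨[s], by simp⟩⟩
  have a_coe : ∀ w : List Gen, (((w.map a).prod : G) : Equiv.Perm XX) = (w.map ρ).prod := by
    intro w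
    induction w with
    | nil => rfl
    | cons s w ih =>
      rw [List.map_cons, List.prod_cons, Subgroup.coe_mul, ih, List.map_cons, List.prod_cons]
  have hrel : ∀ w w' : List Gen, Wp gg ω w = Wp gg ω w' → (w.map a).prod = (w'.map a).prod := by
    intro w w' h
    apply Subtype.ext
    rw [a_coe, a_coe, prod_ext w w' h]
  let tt : G := a 0 * a 1
  have tt_pow : ∀ n, ((alt 1 (2 * n)).map a).prod = tt ^ n := by
    intro n
    induction n with
    | zero => rfl
    | succ n ih =>
      have h : alt 1 (2 * (n + 1)) = 0 :: 1 :: alt 1 (2 * n) := alt_two 1 n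
      rw [h, List.map_cons, List.map_cons, List.prod_cons, List.prod_cons, ih, pow_succ',
        mul_assoc]
  refine ⟨kk, XX, ?_, ?_, G, ?_, ?_, tt, ?_, Finset.univ.image a, ?_⟩
  · -- closed
    intro x hx
    show dc x ∈ X2 gg ω
    intro b
    apply X_closed
    intro m
    obtain ⟨y, hy, hyx⟩ := hx (b.natAbs + m)
    refine ⟨res gg b (dc y), hy b, fun i hi => ?_⟩
    have h1 : y (b + i) = x (b + i) := by
      apply hyx
      rw [abs_le]
      push_cast
      constructor
      · rcases abs_cases b with h | h <;> omega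
      · rcases abs_cases b with h | h <;> omega
    exact congrArg e.symm h1
  · -- shift
    intro x hx
    refine ⟨(X2_shift gg).1 hx, (X2_shift gg).2 ?_⟩
    have h : (fun i : ℤ => (dc (fun n : ℤ => x (n - 1))) (i + 1)) = dc x := by
      funext i
      simp only [dc, add_sub_cancel_right]
    show (fun i : ℤ => (dc (fun n : ℤ => x (n - 1))) (i + 1)) ∈ X2 gg ω
    rw [h]
    exact hx
  · -- automorphisms
    rintro φ ⟨w, rfl⟩
    constructor
    · intro x y hxy n
      rw [prod_val, prod_val]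
      have h : dc y.1 = fun i => dc x.1 (i + 1) := by
        funext i
        simp only [dc]
        rw [hxy i]
      rw [h, FW2_shift]
    · refine ⟨w.length, fun x y hxy => ?_⟩
      rw [prod_val, prod_val]
      have h := FW2_local gg w (dc x.1) (dc y.1) 0 (by
        intro n hn
        simp only [dc]
        rw [hxy (0 + n) (by rw [zero_add, Nat.abs_cast]; exact_mod_cast hn)])
      simp only [ec]
      rw [h]
  · -- the mean
    refine exists_mean (Lp gg ω) a (Lp_mul_self gg ω) ?_ ?_ hrel ?_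
    · intro s
      apply Subtype.ext
      exact ρ_sq s
    · rintro ⟨φ, w, rfl⟩
      exact ⟨w, Subtype.ext (a_coe w)⟩
    · intro ε hε
      exact happ ε hε
  · -- infinite order
    intro hfin
    obtain ⟨n, hn0, hn⟩ := isOfFinOrder_iff_pow_eq_one.1 hfin
    obtain ⟨y, hy⟩ := alt_inf gg n (by omega) ω
    apply hy
    have hx : dc (ec (S2 gg ω y)) ∈ X2 gg ω := by rw [de]; exact S2_mem gg ω y
    rw [← tt_pow] at hn
    have h0 := congrArg Subtype.val hn
    rw [a_coe] at h0
    have h1 : ((((alt 1 (2 * n)).map ρ).prod ⟨ec (S2 gg ω y), hx⟩ : XX) : ℤ → Fin kk) =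
        ec (S2 gg ω y) := by
      rw [h0]; rfl
    rw [prod_val, de, FW2_S2] at h1
    have h2 : S2 gg ω (Wp gg ω (alt 1 (2 * n)) y) = S2 gg ω y := by
      have := congrArg dc h1
      rwa [de, de] at this
    exact S2_inj gg (Wp_length _ _ _ _) h2
  · -- distortion
    intro ε hε
    obtain ⟨M, w, hM, hw, hact⟩ := hdist (ε / 2) (by positivity)
    have hwM : (w.map a).prod = tt ^ M := by
      rw [← tt_pow]
      exact hrel _ _ hact
    obtain ⟨N, hN⟩ := exists_nat_gt (4 * (M : ℝ) / ε)
    refine ⟨N, fun n hn => ?_⟩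
    refine ⟨((List.replicate (n / M) w).flatten ++ alt 1 (2 * (n % M))).map a, ?_, ?_, ?_⟩
    · intro s hs
      left
      obtain ⟨t, _, rfl⟩ := List.mem_map.1 hs
      exact Finset.mem_image_of_mem _ (Finset.mem_univ t)
    · have h1 : ∀ q, (((List.replicate q w).flatten).map a).prod = tt ^ (M * q) := by
        intro q
        induction q with
        | zero => simp
        | succ q ih =>
          rw [List.replicate_succ, List.flatten_cons, List.map_append, List.prod_append, ih, hwM,
            ← pow_add]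
          congr 1
          ring
      rw [List.map_append, List.prod_append, h1, tt_pow, ← pow_add, Nat.div_add_mod]
    · have hlen : ∀ c i, (alt c i).length = i := by
        intro c i
        induction i with
        | zero => rfl
        | succ i ih => rw [alt, List.length_cons, ih]
      have h1 : (((List.replicate (n / M) w).flatten ++ alt 1 (2 * (n % M))).map a).length =
          (n / M) * w.length + 2 * (n % M) := by
        rw [List.length_map, List.length_append, hlen]
        simp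
      rw [h1]
      push_cast
      have h2 : ((n / M : ℕ) : ℝ) * (w.length : ℝ) ≤ (ε / 2) * n := by
        have h3 : ((n / M : ℕ) : ℝ) * (w.length : ℝ) ≤ ((n / M : ℕ) : ℝ) * (ε / 2 * M) :=
          mul_le_mul_of_nonneg_left hw (Nat.cast_nonneg _)
        have h4 : ((n / M : ℕ) : ℝ) * M ≤ n := by exact_mod_cast Nat.div_mul_le_self n M
        have h5 : (ε / 2) * (((n / M : ℕ) : ℝ) * M) ≤ (ε / 2) * n :=
          mul_le_mul_of_nonneg_left h4 (by positivity)
        linarith
      have h3 : ((n % M : ℕ) : ℝ) ≤ M := by exact_mod_cast (Nat.mod_lt n hM).le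
      have h4 : 4 * (M : ℝ) ≤ ε * n := by
        rw [div_lt_iff₀ hε] at hN
        have : (N : ℝ) ≤ n := by exact_mod_cast hn
        nlinarith
      linarith

end Pool.Agent.S03263
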