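import Pool.Statements.S03280
import Pool.Agent.H463R3.PSLn

/-!
Counterexample: `G = GL₄(𝔽₅)`, `L = SL₄(𝔽₅)`, `A = ⟨diag(1,1,1,2)⟩`.
-/

set_option autoImplicit false
open Pool Pool.MP_de34bb_al

namespace Pool.Agent.S03280

open Matrix
open scoped commutatorElement

local instance : Fact (Nat.Prime 5) := ⟨by norm_num⟩

abbrev F := ZMod 5
abbrev G4 := GL (Fin 4) F
abbrev S4 := SpecialLinearGroup (Fin 4) F

/-- the diagonal matrix `diag(1,1,1,2)` -/
def aM : Matrix (Fin 4) (Fin 4) F := Matrix.diagonal ![1, 1, 1, 2]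
def bM : Matrix (Fin 4) (Fin 4) F := Matrix.diagonal ![1, 1, 1, 3]

lemma ab : aM * bM = 1 := by
  unfold aM bM
  decide

lemma ba : bM * aM = 1 := by
  unfold aM bM
  decide

def a : G4 := ⟨aM, bM, ab, ba⟩

lemma a_pow_four : a ^ 4 = 1 := by
  apply Units.ext
  change aM ^ 4 = 1
  unfold aM
  rw [Matrix.diagonal_pow]
  ext i j
  fin_cases i <;> fin_cases j <;> simp [Matrix.diagonal, Matrix.one_apply] <;> decide

lemma a_sq_val : ((a ^ 2 : G4) : Matrix (Fin 4) (Fin 4) F) = Matrix.diagonal ![1, 1, 1, 4] := by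
  change aM ^ 2 = _
  unfold aM
  rw [Matrix.diagonal_pow]
  congr 1
  ext i
  fin_cases i <;> simp <;> decide

lemma a_sq_ne : a ^ 2 ≠ 1 := by
  intro h
  have h1 := congrArg (fun g : G4 => (g : Matrix (Fin 4) (Fin 4) F) 3 3) h
  simp only [a_sq_val] at h1
  revert h1
  simp
  decide

lemma order_a : orderOf a = 4 := by
  have h : orderOf a = 2 ^ 2 := by
    apply orderOf_eq_prime_pow
    · simpa using a_sq_ne
    · simpa using a_pow_four
  simpa using h


/-- `L = SL₄(𝔽₅)` inside `GL₄(𝔽₅)`. -/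
def L : Subgroup G4 := (SpecialLinearGroup.toGL : S4 →* G4).range

lemma mem_L_det {g : G4} (hg : g ∈ L) : (g : Matrix (Fin 4) (Fin 4) F).det = 1 := by
  obtain ⟨s, rfl⟩ := hg
  exact s.2

lemma L_of_det {g : G4} (hg : (g : Matrix (Fin 4) (Fin 4) F).det = 1) : g ∈ L := by
  let s : S4 := ⟨(g : Matrix (Fin 4) (Fin 4) F), hg⟩
  refine ⟨s, ?_⟩
  apply Units.ext
  rw [SpecialLinearGroup.coe_GL_coe_matrix]

lemma centralizer_det {g : G4} (hg : g ∈ Subgroup.centralizer (L : Set G4)) :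
    (g : Matrix (Fin 4) (Fin 4) F).det = 1 := by
  have h1 : (g : Matrix (Fin 4) (Fin 4) F) ∈ Set.range (Matrix.scalar (Fin 4)) := by
    refine Matrix.mem_range_scalar_of_commute_transvectionStruct fun t ↦ ?_
    have hd : t.toMatrix.det = 1 := t.det
    have hm : (SpecialLinearGroup.toGL (⟨t.toMatrix, hd⟩ : S4) : G4) ∈ (L : Set G4) := ⟨_, rfl⟩
    have h2 := Subgroup.mem_centralizer_iff.1 hg _ hm
    exact congrArg (fun x : G4 => (x : Matrix (Fin 4) (Fin 4) F)) h2
  obtain ⟨r, hr⟩ := h1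
  have hu : IsUnit (g : Matrix (Fin 4) (Fin 4) F).det :=
    (Matrix.isUnit_iff_isUnit_det _).1 g.isUnit
  rw [← hr] at hu ⊢
  simp only [Matrix.scalar_apply, Matrix.det_diagonal, Finset.prod_const, Finset.card_univ,
    Fintype.card_fin] at hu ⊢
  revert hu
  revert r
  have key : ∀ r : F, r ≠ 0 → r ^ 4 = 1 := by decide
  intro r _ hu
  apply key
  rintro rfl
  simp at hu

lemma sup_det {g : G4} (hg : g ∈ L ⊔ Subgroup.centralizer (L : Set G4)) :
    (g : Matrix (Fin 4) (Fin 4) F).det = 1 := by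
  let K : Subgroup G4 := (Matrix.GeneralLinearGroup.det : G4 →* Fˣ).ker
  have hK : ∀ x : G4, x ∈ K ↔ (x : Matrix (Fin 4) (Fin 4) F).det = 1 := by
    intro x
    rw [MonoidHom.mem_ker, Units.ext_iff]
    rfl
  have : L ⊔ Subgroup.centralizer (L : Set G4) ≤ K :=
    sup_le (fun x hx => (hK x).2 (mem_L_det hx)) (fun x hx => (hK x).2 (centralizer_det hx))
  exact (hK g).1 (this hg)

lemma det_a : (a : Matrix (Fin 4) (Fin 4) F).det = 2 := by
  change aM.det = 2
  unfold aM
  rw [Matrix.det_diagonal]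
  decide

lemma mem_A {x : G4} (hx : x ∈ Subgroup.zpowers a) : x = 1 ∨ x = a ∨ x = a ^ 2 ∨ x = a ^ 3 := by
  have h : x ∈ Submonoid.powers a := by
    rw [mem_powers_iff_mem_zpowers]
    exact hx
  obtain ⟨k, rfl⟩ := h
  have hk : a ^ k = a ^ (k % 4) := by
    conv_lhs => rw [← Nat.div_add_mod k 4, pow_add, pow_mul, a_pow_four, one_pow, one_mul]
  simp only
  rw [hk]
  have : k % 4 < 4 := Nat.mod_lt _ (by norm_num)
  interval_cases (k % 4) <;> simp

lemma detpow (k : ℕ) : ((a ^ k : G4) : Matrix (Fin 4) (Fin 4) F).det = 2 ^ k := by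
  rw [Units.val_pow_eq_pow_val, Matrix.det_pow, det_a]

lemma A_inf : Subgroup.zpowers a ⊓ (L ⊔ Subgroup.centralizer (L : Set G4)) = ⊥ := by
  rw [eq_bot_iff]
  rintro x ⟨hx1, hx2⟩
  have hd := sup_det hx2
  rcases mem_A hx1 with rfl | rfl | rfl | rfl
  · exact Subgroup.one_mem _
  · exfalso
    rw [det_a] at hd
    exact absurd hd (by decide)
  · exfalso
    rw [detpow] at hd
    exact absurd hd (by decide)
  · exfalso
    rw [detpow] at hd
    exact absurd hd (by decide)

/-- a matrix commuting with `z = diag(1,1,1,-1)` commutes with `a`. -/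
lemma comm_of_comm_sq {g : G4} (h : g * a ^ 2 = a ^ 2 * g) : g * a = a * g := by
  have h1 := congrArg (fun x : G4 => (x : Matrix (Fin 4) (Fin 4) F)) h
  simp only [Units.val_mul, a_sq_val] at h1
  apply Units.ext
  change (g : Matrix (Fin 4) (Fin 4) F) * aM = aM * (g : Matrix (Fin 4) (Fin 4) F)
  unfold aM
  ext i j
  have h2 := congrFun (congrFun h1 i) j
  rw [Matrix.mul_diagonal, Matrix.diagonal_mul] at h2 ⊢
  generalize (g : Matrix (Fin 4) (Fin 4) F) i j = x at h2 ⊢
  fin_cases i <;> fin_cases j <;> revert h2 <;> revert x <;> decide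

lemma sq_of_mem {x : G4} (hx : x ∈ Subgroup.zpowers a) (h2 : x ^ 2 = 1) (h1 : x ≠ 1) :
    x = a ^ 2 := by
  rcases mem_A hx with rfl | rfl | rfl | rfl
  · exact absurd rfl h1
  · exact absurd h2 a_sq_ne
  · rfl
  · exfalso
    have h3 : (a ^ 3) ^ 2 = a ^ 2 := by
      rw [← pow_mul]
      change a ^ (4 + 2) = a ^ 2
      rw [pow_add, a_pow_four, one_mul]
    exact a_sq_ne (h3 ▸ h2)

lemma TI (g : G4) : (∀ x ∈ Subgroup.zpowers a, g * x * g⁻¹ ∈ Subgroup.zpowers a → x = 1) ∨
    (∀ x ∈ Subgroup.zpowers a, g * x * g⁻¹ ∈ Subgroup.zpowers a) := by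
  by_cases hc : ∀ x ∈ Subgroup.zpowers a, g * x * g⁻¹ ∈ Subgroup.zpowers a → x = 1
  · exact Or.inl hc
  · right
    push Not at hc
    obtain ⟨x, hx, hgx, hx1⟩ := hc
    -- `a ^ 2` is a power of `x`
    have hz : ∃ k : ℕ, x ^ k = a ^ 2 := by
      rcases mem_A hx with rfl | rfl | rfl | rfl
      · exact absurd rfl hx1
      · exact ⟨2, rfl⟩
      · exact ⟨1, by rw [pow_one]⟩
      · refine ⟨2, ?_⟩
        rw [← pow_mul]
        change a ^ (4 + 2) = a ^ 2
        rw [pow_add, a_pow_four, one_mul]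
    obtain ⟨k, hk⟩ := hz
    have h1 : g * a ^ 2 * g⁻¹ ∈ Subgroup.zpowers a := by
      rw [← hk, ← conj_pow]
      exact Subgroup.pow_mem _ hgx k
    have h2 : (g * a ^ 2 * g⁻¹) ^ 2 = 1 := by
      rw [conj_pow, ← pow_mul]
      change g * a ^ 4 * g⁻¹ = 1
      rw [a_pow_four]
      group
    have h3 : g * a ^ 2 * g⁻¹ ≠ 1 := by
      intro h
      apply a_sq_ne
      have : a ^ 2 = g⁻¹ * (g * a ^ 2 * g⁻¹) * g := by group
      rw [this, h]
      group
    have h4 := sq_of_mem h1 h2 h3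
    have h5 : g * a ^ 2 = a ^ 2 * g := by
      rw [mul_inv_eq_iff_eq_mul] at h4
      exact h4
    have h6 := comm_of_comm_sq h5
    intro y hy
    have h7 : Commute g y := by
      rcases mem_A hy with rfl | rfl | rfl | rfl
      · exact Commute.one_right g
      · exact h6
      · exact Commute.pow_right h6 2
      · exact Commute.pow_right h6 3
    rw [h7.eq, mul_assoc, mul_inv_cancel, mul_one]
    exact hy

lemma L_normal : L.Normal := by
  constructor
  intro n hn g
  apply L_of_det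
  rw [Units.val_mul, Units.val_mul, Matrix.det_mul, Matrix.det_mul, mem_L_det hn, mul_one,
    ← Matrix.det_mul, ← Units.val_mul, mul_inv_cancel]
  simp

lemma card4 : 3 ≤ Fintype.card (Fin 4) := by simp

lemma L_perfect : ⁅L, L⁆ = L := by
  have h := H463R3.PSLn.SL_commutator_eq_top (F := F) card4
  rw [commutator_def] at h
  unfold L
  rw [MonoidHom.range_eq_map, ← Subgroup.map_commutator, h]

lemma not_le : ¬ Subgroup.zpowers a ≤ Subgroup.centralizer (L : Set G4) := by
  intro h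
  have h1 := centralizer_det (h (Subgroup.mem_zpowers a))
  rw [det_a] at h1
  exact absurd h1 (by decide)

lemma L_ne_bot : L ≠ ⊥ := by
  intro h
  apply not_le
  rw [h]
  intro x _
  rw [Subgroup.mem_centralizer_iff]
  rintro y hy
  rw [SetLike.mem_coe, Subgroup.mem_bot] at hy
  rw [hy, one_mul, mul_one]

lemma quasisimple (N : Subgroup G4) (hN : N ≤ L) (hn : ∀ l ∈ L, ∀ n ∈ N, l * n * l⁻¹ ∈ N) :
    N = L ∨ N ≤ Subgroup.centralizer (L : Set G4) := by
  let φ : S4 →* G4 := SpecialLinearGroup.toGL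
  let N' : Subgroup S4 := N.comap φ
  have hN'n : N'.Normal := by
    constructor
    intro n hn' g
    change φ (g * n * g⁻¹) ∈ N
    rw [map_mul, map_mul, map_inv]
    exact hn _ ⟨g, rfl⟩ _ hn'
  have hNmap : N'.map φ = N := by
    rw [Subgroup.map_comap_eq]
    exact inf_eq_right.2 hN
  have hs := H463R3.PSLn.isSimpleGroup_PSL (F := F) card4
  let π : S4 →* S4 ⧸ Subgroup.center S4 := QuotientGroup.mk' _
  have hq : (N'.map π).Normal := Subgroup.Normal.map hN'n π (QuotientGroup.mk'_surjective _)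
  rcases hs.eq_bot_or_eq_top_of_normal _ hq with h | h
  · right
    rw [← hNmap]
    rintro _ ⟨n, hn', rfl⟩
    have h1 : π n = 1 := by
      have : π n ∈ N'.map π := ⟨n, hn', rfl⟩
      rw [h] at this
      exact this
    have h2 : n ∈ Subgroup.center S4 := (QuotientGroup.eq_one_iff n).1 h1
    rw [Subgroup.mem_centralizer_iff]
    rintro _ ⟨s, rfl⟩
    rw [← map_mul, ← map_mul, Subgroup.mem_center_iff.1 h2 s]
  · left
    have h1 : N' ⊔ Subgroup.center S4 = ⊤ := by
      have h2 : (N'.map π).comap π = ⊤ := by rw [h, Subgroup.comap_top]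
      rw [Subgroup.comap_map_eq, QuotientGroup.ker_mk'] at h2
      exact h2
    have h3 : N' = ⊤ := by
      rw [eq_top_iff]
      have hc := H463R3.PSLn.SL_commutator_eq_top (F := F) card4
      rw [← hc, commutator_def, Subgroup.commutator_le]
      intro x _ y _
      have hx : x ∈ N' ⊔ Subgroup.center S4 := h1 ▸ Subgroup.mem_top x
      have hy : y ∈ N' ⊔ Subgroup.center S4 := h1 ▸ Subgroup.mem_top y
      rw [Subgroup.mem_sup_of_normal_left] at hx hy
      obtain ⟨n, hn1, c, hc1, rfl⟩ := hx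
      obtain ⟨m, hm1, d, hd1, rfl⟩ := hy
      have hc2 := fun g => Subgroup.mem_center_iff.1 hc1 g
      have hd2 := fun g => Subgroup.mem_center_iff.1 hd1 g
      have e : ⁅n * c, m * d⁆ = ⁅n, m⁆ := by
        rw [commutatorElement_def, commutatorElement_def]
        have e1 : n * c * (m * d) = (n * m) * (c * d) := by
          rw [mul_assoc, ← mul_assoc c m d, ← hc2 m, mul_assoc, mul_assoc]
        have e2 : m * d * (n * c) = (m * n) * (c * d) := by
          rw [mul_assoc, ← mul_assoc d n c, ← hd2 n, mul_assoc, mul_assoc, ← hd2 c]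
        have e3 : n * c * (m * d) * (n * c)⁻¹ * (m * d)⁻¹ =
            (n * c * (m * d)) * (m * d * (n * c))⁻¹ := by group
        have e4 : n * m * n⁻¹ * m⁻¹ = (n * m) * (m * n)⁻¹ := by group
        rw [e3, e4, e1, e2]
        group
      rw [e]
      exact mul_mem (mul_mem (mul_mem hn1 hm1) (inv_mem hn1)) (inv_mem hm1)
    rw [← hNmap, h3]
    unfold L
    rw [MonoidHom.range_eq_map]

/-- The negation of the preceding statement: In a finite group G, if a cyclic subgroup A of order 4 is a TI-subgroup and L is a component (subnormal quasisimple subgroup) with A meeting L·C(L) trivially, then A centralizes L. -/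
theorem result :
    ¬ (∀ (G : Type) [Group G] [Finite G] (A L : Subgroup G),
      IsCyclic A → Nat.card A = 4 →
      (∀ g : G, (∀ x ∈ A, g * x * g⁻¹ ∈ A → x = 1) ∨ (∀ x ∈ A, g * x * g⁻¹ ∈ A)) →
      L ≠ ⊥ →
      ⁅L, L⁆ = L →
      (∀ N : Subgroup G, N ≤ L → (∀ l ∈ L, ∀ n ∈ N, l * n * l⁻¹ ∈ N) →
          N = L ∨ N ≤ Subgroup.centralizer (L : Set G)) →
      (∃ n : ℕ, ∃ H : ℕ → Subgroup G, H 0 = L ∧ H n = ⊤ ∧
          ∀ i < n, H i ≤ H (i + 1) ∧ ∀ x ∈ H (i + 1), ∀ y ∈ H i, x * y * x⁻¹ ∈ H i) →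
      A ⊓ (L ⊔ Subgroup.centralizer (L : Set G)) = ⊥ →
      A ≤ Subgroup.centralizer (L : Set G)) := by
  intro h
  refine not_le (h G4 (Subgroup.zpowers a) L inferInstance ?_ TI L_ne_bot L_perfect quasisimple
    ?_ A_inf)
  · rw [Nat.card_zpowers, order_a]
  · refine ⟨1, fun i => if i = 0 then L else ⊤, by simp, by simp, ?_⟩
    intro i hi
    have hi0 : i = 0 := by omega
    subst hi0
    refine ⟨by simp, ?_⟩
    intro x _ y hy
    simp only [if_true] at hy ⊢
    exact L_normal.conj_mem y hy x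

end Pool.Agent.S03280
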