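import Pool.Statements.S03319
import Pool.Agent.H219R3.FT8

set_option autoImplicit false
open Pool Pool.MP_e12dda_al

namespace Pool.Agent.S03319

/-- There is a torsion-free abelian group whose nonzero elements all have the same type, where any nonzero a maps to any b of pointwise-larger characteristic by an endomorphism, yet some nonzero a, b of equal characteristic are not related by any automorphism. -/
theorem result :
    ∃ (G : Type) (_ : AddCommGroup G),
      (∀ (n : ℕ) (x : G), n ≠ 0 → n • x = 0 → x = 0) ∧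
      (∀ a b : G, a ≠ 0 → b ≠ 0 → ∃ n : ℕ, n ≠ 0 ∧
        ∀ p : ℕ, p.Prime → ∀ k : ℕ,
          (∃ y : G, p ^ k • y = a) → ∃ y : G, p ^ k • y = n • b) ∧
      (∀ a b : G, a ≠ 0 →
        (∀ p : ℕ, p.Prime → ∀ k : ℕ,
          (∃ y : G, p ^ k • y = a) → ∃ y : G, p ^ k • y = b) →
        ∃ f : G →+ G, f a = b) ∧
      ¬ (∀ a b : G, a ≠ 0 → b ≠ 0 →
        (∀ p : ℕ, p.Prime → ∀ k : ℕ,
          ((∃ y : G, p ^ k • y = a) ↔ ∃ y : G, p ^ k • y = b)) →
        ∃ f : G ≃+ G, f a = b) := by
  haveI : Fact (Nat.Prime 2) := ⟨Nat.prime_two⟩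
  obtain ⟨A, hXA, hdA, hA⟩ := Pool.Agent.H219R3.FT.exists_A 2
  refine ⟨Pool.Agent.H219R3.FT.RR A, inferInstance, ?_, ?_, ?_, ?_⟩
  · intro n x hn hx
    exact Pool.Agent.H219R3.FT.RR_torsionfree A n x hn hx
  · intro a b ha hb
    exact Pool.Agent.H219R3.FT.RR_homogeneous A a b ha
  · intro a b ha hab
    exact Pool.Agent.H219R3.FT.RR_fully A hdA a b ha hab
  · intro h
    have hX0 : Pool.Agent.H219R3.FT.Xr A hXA ≠ 0 := by
      intro h0
      have : (PowerSeries.X : Pool.Agent.H219R3.FT.S 2) = 0 := congrArg Subtype.val h0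
      exact PowerSeries.X_ne_zero this
    obtain ⟨φ, hφ⟩ := h 1 (Pool.Agent.H219R3.FT.Xr A hXA) one_ne_zero hX0 (by
      intro q hq k
      rw [Pool.Agent.H219R3.FT.div_iff A _ q hq, Pool.Agent.H219R3.FT.div_iff A _ q hq]
      refine or_congr Iff.rfl ?_
      rw [Pool.Agent.H219R3.FT.p_pow_dvd_iff, Pool.Agent.H219R3.FT.p_pow_dvd_iff]
      constructor
      · intro h1 i
        have h2 := h1 0
        have h3 : ((1 : Pool.Agent.H219R3.FT.RR A) : Pool.Agent.H219R3.FT.S 2) = 1 := rfl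
        rw [h3, PowerSeries.coeff_one, if_pos rfl] at h2
        exact h2.trans (one_dvd _)
      · intro h1 i
        have h2 := h1 1
        have h3 : ((Pool.Agent.H219R3.FT.Xr A hXA : Pool.Agent.H219R3.FT.RR A) :
            Pool.Agent.H219R3.FT.S 2) = PowerSeries.X := rfl
        rw [h3, PowerSeries.coeff_X, if_pos rfl] at h2
        exact h2.trans (one_dvd _))
    exact Pool.Agent.H219R3.FT.not_transitive A hXA hA φ hφ

end Pool.Agent.S03319
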