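import Pool.Statements.S03325
import Pool.Agent.H803R3.Asym
import Pool.Agent.H803R3.Poly

set_option autoImplicit false
open MvPolynomial
open Pool Pool.MP_e15ea6_al

namespace Pool.Agent.S03325

/-- Powers of gap-free edge ideals are eventually linear. -/
theorem result :
    ∀ (K : Type) [Field K] (n : ℕ) (G : SimpleGraph (Fin n)),
      (∃ a b, G.Adj a b) →
      (∀ a b c d, G.Adj a b → G.Adj c d → a ≠ c → a ≠ d → b ≠ c → b ≠ d →
        G.Adj a c ∨ G.Adj a d ∨ G.Adj b c ∨ G.Adj b d) →
      ∀ I : Ideal (MvPolynomial (Fin n) K),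
        I = Ideal.span {m : MvPolynomial (Fin n) K | ∃ a b, G.Adj a b ∧ m = X a * X b} →
        ∃ Q : ℕ, ∀ q : ℕ, Q ≤ q →
          ∀ (i d : ℕ), 2 * q < d →
          ∀ f : Finset (Fin n) → MvPolynomial (Fin n) K,
            (∀ T : Finset (Fin n), T.card ≠ i → f T = 0) →
            (∀ T : Finset (Fin n), f T ∈ I ^ q ∧ (f T).IsHomogeneous d) →
            (∀ S : Finset (Fin n),
              ∑ t ∈ Finset.univ \ S,
                (-1 : MvPolynomial (Fin n) K) ^ (S.filter (· < t)).card * X t * f (insert t S) = 0) →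
            ∃ g : Finset (Fin n) → MvPolynomial (Fin n) K,
              (∀ U : Finset (Fin n), U.card ≠ i + 1 → g U = 0) ∧
              (∀ U : Finset (Fin n), g U ∈ I ^ q ∧ (g U).IsHomogeneous (d - 1)) ∧
              (∀ T : Finset (Fin n),
                f T = ∑ t ∈ Finset.univ \ T,
                  (-1 : MvPolynomial (Fin n) K) ^ (T.filter (· < t)).card * X t * g (insert t T)) := by
  intro K _ n G _ hgap I hI
  obtain ⟨Q, hQ⟩ := Pool.Agent.H803R3.asym K G (by
    intro u v huv r r' h1 h2 h3 h4 h5 h6 h7 h8 hrr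
    rcases hgap u v r r' huv hrr (Ne.symm h1) (Ne.symm h5) (Ne.symm h2) (Ne.symm h6) with
      h | h | h | h
    · exact h3 h.symm
    · exact h7 h.symm
    · exact h4 h.symm
    · exact h8 h.symm)
  refine ⟨Q, fun q hq i d hd f hf1 hf2 hf3 => ?_⟩
  have hI' : I = Pool.Agent.H803R3.eI K G := hI
  subst hI'
  exact Pool.Agent.H803R3.lift_acyc G q i d (fun a ha => hQ q hq a i (by rw [ha]; omega))
    f hf1 hf2 hf3

end Pool.Agent.S03325
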