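import Pool.Statements.S03339
import Pool.Agent.H357R3.LR.Red

set_option autoImplicit false
open Pool Pool.MP_e21d7a_al

namespace Pool.Agent.S03339

/-- For the rank-4 system A and the rank-5 cyclic system B, every infinite reduced word's inversion roots, normalized to coordinate sum 1 (i.e. viewed projectively), have exactly one accumulation point. -/
theorem result :
    (∀ (M : CoxeterMatrix (Fin 4)), (∀ i j : Fin 4, i ≠ j → M i j = 0) →
      ∀ (G : Matrix (Fin 4) (Fin 4) ℝ),
        (∀ i j : Fin 4, G i j =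
          if i = j then 1
          else if (i = 0 ∧ j = 1) ∨ (i = 1 ∧ j = 0) then -2
          else if (i = 2 ∧ j = 3) ∨ (i = 3 ∧ j = 2) then -6
          else -1) →
      ∀ (σ : Fin 4 → Matrix (Fin 4) (Fin 4) ℝ),
        (∀ i a b : Fin 4, σ i a b = (if a = b then (1 : ℝ) else 0) - (if a = i then 2 * G i b else 0)) →
      ∀ s : ℕ → Fin 4,
        (∀ k : ℕ, M.toCoxeterSystem.IsReduced (List.ofFn fun j : Fin k => s j)) →
        ∃! x : Fin 4 → ℝ, AccPt x (Filter.principal (Set.range fun k : ℕ =>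
          (∑ i, (Matrix.mulVec (List.ofFn fun j : Fin k => σ (s j)).prod
              (Pi.single (s k) (1 : ℝ) : Fin 4 → ℝ)) i)⁻¹ •
            Matrix.mulVec (List.ofFn fun j : Fin k => σ (s j)).prod
              (Pi.single (s k) (1 : ℝ) : Fin 4 → ℝ)))) ∧
    (∀ (M : CoxeterMatrix (Fin 5)),
        (∀ i j : Fin 5, i ≠ j → M i j = if i - j = 1 ∨ j - i = 1 then 0 else 2) →
      ∀ (G : Matrix (Fin 5) (Fin 5) ℝ),
        (∀ i j : Fin 5, G i j =
          if i = j then 1
          else if i - j = 1 ∨ j - i = 1 then -2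
          else 0) →
      ∀ (σ : Fin 5 → Matrix (Fin 5) (Fin 5) ℝ),
        (∀ i a b : Fin 5, σ i a b = (if a = b then (1 : ℝ) else 0) - (if a = i then 2 * G i b else 0)) →
      ∀ s : ℕ → Fin 5,
        (∀ k : ℕ, M.toCoxeterSystem.IsReduced (List.ofFn fun j : Fin k => s j)) →
        ∃! x : Fin 5 → ℝ, AccPt x (Filter.principal (Set.range fun k : ℕ =>
          (∑ i, (Matrix.mulVec (List.ofFn fun j : Fin k => σ (s j)).prod
              (Pi.single (s k) (1 : ℝ) : Fin 5 → ℝ)) i)⁻¹ •
            Matrix.mulVec (List.ofFn fun j : Fin k => σ (s j)).prod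
              (Pi.single (s k) (1 : ℝ) : Fin 5 → ℝ)))) := by
  refine ⟨?_, ?_⟩
  · intro M _ G hG σ hσ s hs
    have h1 : ∀ t v, Matrix.mulVec (σ t) v = Pool.Agent.H357R3.LR.rA t v := by
      intro t v
      funext a
      simp only [Matrix.mulVec, dotProduct, hσ, hG, Fin.sum_univ_four]
      fin_cases t <;> fin_cases a <;> simp [Pool.Agent.H357R3.LR.rA] <;> ring
    exact Pool.Agent.H357R3.LR.sysA h1 s (Pool.Agent.H357R3.LR.redA M s hs)
  · intro M hM G hG σ hσ s hs
    have h1 : ∀ t v, Matrix.mulVec (σ t) v = Pool.Agent.H357R3.LR.rB t v := by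
      intro t v
      funext a
      simp only [Matrix.mulVec, dotProduct, hσ, hG, Fin.sum_univ_five]
      have e2 : ¬ ((-2 : Fin 5) = 1) := by decide
      have e3 : ¬ ((-3 : Fin 5) = 1) := by decide
      have e4 : (-4 : Fin 5) = 1 := by decide
      fin_cases t <;> fin_cases a <;> simp [Pool.Agent.H357R3.LR.rB, e2, e3, e4] <;> ring
    exact Pool.Agent.H357R3.LR.sysB h1 s _ (Pool.Agent.H357R3.LR.redB M hM s hs)

end Pool.Agent.S03339
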