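import Pool.Statements.S03346
-- import your own Pool.Agent.* helpers here
import Pool.Agent.H332R3.Assem
import Pool.Agent.H332R3.ArithEx
import Pool.Agent.H332R3.NegOrth
import Pool.Agent.H332R3.Ball
import Pool.Agent.H332R3.FourPt
import Pool.Agent.H332R3.Hyp
import Pool.Agent.H332R3.GenType

set_option autoImplicit false
open Pool Pool.MP_e2b313_al

namespace Pool.Agent.S03346

open Pool.Agent.H332R3 in
/-- the Gromov product bound -/
lemma arcosh_aux {x y : ℝ} (hx : 1 ≤ x) (hy : 1 ≤ y) :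
    Real.arcosh x + Real.arcosh y - Real.arcosh (x * y) ≤ Real.log 4 := by
  have hxy : 1 ≤ x * y := by nlinarith
  have h1 : ∀ z : ℝ, 1 ≤ z → Real.arcosh z ≤ Real.log (2 * z) := by
    intro z hz
    rw [← Real.log_exp (Real.arcosh z), Real.exp_arcosh hz]
    apply Real.log_le_log (by positivity)
    have : Real.sqrt (z ^ 2 - 1) ≤ z := by
      rw [Real.sqrt_le_left (by linarith)]; linarith
    linarith
  have h2 : Real.log (x * y) ≤ Real.arcosh (x * y) := by
    rw [← Real.log_exp (Real.arcosh (x * y)), Real.exp_arcosh hxy]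
    apply Real.log_le_log (by positivity)
    have := Real.sqrt_nonneg ((x * y) ^ 2 - 1)
    linarith
  have h3 := h1 x hx
  have h4 := h1 y hy
  rw [Real.log_mul (by norm_num) (by positivity)] at h3 h4
  rw [Real.log_mul (by positivity) (by positivity)] at h2
  have h5 : Real.log 4 = 2 * Real.log 2 := by
    rw [show (4 : ℝ) = 2 ^ 2 by norm_num, Real.log_pow]; norm_num
  linarith

/-- The negation of the preceding statement: Every subgroup of isometries of a geodesic Gromov-hyperbolic metric space that contains two independent loxodromic isometries (general type) has a maximal proper subgroup. -/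
theorem result :
    ¬ (∀ (S : Type) [MetricSpace S],
      (∀ x y : S, ∃ γ : ℝ → S, γ 0 = x ∧ γ (dist x y) = y ∧
          ∀ s ∈ Set.Icc (0:ℝ) (dist x y), ∀ t ∈ Set.Icc (0:ℝ) (dist x y),
            dist (γ s) (γ t) = |s - t|) →
      (∃ δ : ℝ, ∀ x y z w : S,
          min ((dist w x + dist w y - dist x y) / 2) ((dist w y + dist w z - dist y z) / 2) - δ
            ≤ (dist w x + dist w z - dist x z) / 2) →
      ∀ G : Subgroup (S ≃ᵢ S),
        (∃ g ∈ G, ∃ h ∈ G, ∃ x : S, ∃ c : ℝ, 0 < c ∧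
          (∀ n : ℕ, c * (n : ℝ) ≤ dist x ((g ^ n) x) ∧ c * (n : ℝ) ≤ dist x ((h ^ n) x)) ∧
          ∃ C : ℝ, ∀ n m : ℤ,
            (dist x ((g ^ n) x) + dist x ((h ^ m) x) - dist ((g ^ n) x) ((h ^ m) x)) / 2 ≤ C) →
        ∃ M : Subgroup G, IsCoatom M) := by
  intro H
  obtain ⟨A⟩ := Pool.Agent.H332R3.exists_arith
  obtain ⟨S, mS, hgeo, hhyp, φ, o, hφ⟩ := Pool.Agent.H332R3.hyp_space
    (fun hx hy => Pool.Agent.H332R3.neg_neg hx hy)
    (fun hx hy hz => Pool.Agent.H332R3.arcosh_triangle hx hy hz)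
    (fun hw hx hy hz => Pool.Agent.H332R3.four_point_mul
      (fun h1 h2 => Pool.Agent.H332R3.neg_orth_pos h1 h2)
      (fun u v w h1 h2 h3 => Pool.Agent.H332R3.ball_ineq u v w h1 h2 h3) hw hx hy hz)
  let ψ : Pool.Agent.H332R3.G1 A →* (S ≃ᵢ S) :=
    φ.comp (Subgroup.inclusion (Pool.Agent.H332R3.G1_le_U A))
  have hψ : ∀ g g' : Pool.Agent.H332R3.G1 A, dist (ψ g o) (ψ g' o) =
      Real.arcosh ‖Pool.Agent.H332R3.h (g.1 (Pool.Agent.H332R3.e 0))
        (g'.1 (Pool.Agent.H332R3.e 0))‖ := by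
    intro g g'
    exact hφ _ _
  obtain ⟨g, hg, g', hg', η, hη, a, b, a', b', hab⟩ := Pool.Agent.H332R3.gen_type A
  have hgG := Pool.Agent.H332R3.KK_le_G1 A hg
  have hg'G := Pool.Agent.H332R3.KK_le_G1 A hg'
  have ho : ψ 1 o = o := by rw [map_one]; rfl
  have hd1 : ∀ n : ℤ, dist o ((ψ ⟨g, hgG⟩ ^ n) o) = Real.arcosh ‖a n‖ := by
    intro n
    have h0 : dist o ((ψ ⟨g, hgG⟩ ^ n) o) = dist (ψ 1 o) (ψ (⟨g, hgG⟩ ^ n) o) := by
      rw [ho, map_zpow]
    rw [h0, hψ]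
    congr 1
    show ‖Pool.Agent.H332R3.h (Pool.Agent.H332R3.e 0) ((g ^ n : _) (Pool.Agent.H332R3.e 0))‖ = _
    rw [(hab n).1, Pool.Agent.H332R3.h_add_right, Pool.Agent.H332R3.h_smul_right,
      Pool.Agent.H332R3.h_smul_right, Pool.Agent.H332R3.h_e_self,
      Pool.Agent.H332R3.h_e_e (by norm_num)]
    simp [Pool.Agent.H332R3.sg]
  have hd2 : ∀ n : ℤ, dist o ((ψ ⟨g', hg'G⟩ ^ n) o) = Real.arcosh ‖a' n‖ := by
    intro n
    have h0 : dist o ((ψ ⟨g', hg'G⟩ ^ n) o) = dist (ψ 1 o) (ψ (⟨g', hg'G⟩ ^ n) o) := by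
      rw [ho, map_zpow]
    rw [h0, hψ]
    congr 1
    show ‖Pool.Agent.H332R3.h (Pool.Agent.H332R3.e 0) ((g' ^ n : _) (Pool.Agent.H332R3.e 0))‖ = _
    rw [(hab n).2.1, Pool.Agent.H332R3.h_add_right, Pool.Agent.H332R3.h_smul_right,
      Pool.Agent.H332R3.h_smul_right, Pool.Agent.H332R3.h_e_self,
      Pool.Agent.H332R3.h_e_e (by norm_num)]
    simp [Pool.Agent.H332R3.sg]
  have hd3 : ∀ n m : ℤ, dist ((ψ ⟨g, hgG⟩ ^ n) o) ((ψ ⟨g', hg'G⟩ ^ m) o) =
      Real.arcosh (‖a n‖ * ‖a' m‖) := by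
    intro n m
    rw [← map_zpow, ← map_zpow, hψ]
    congr 1
    show ‖Pool.Agent.H332R3.h ((g ^ n : _) (Pool.Agent.H332R3.e 0))
      ((g' ^ m : _) (Pool.Agent.H332R3.e 0))‖ = _
    rw [(hab n).1, (hab m).2.1, Pool.Agent.H332R3.h_add_right, Pool.Agent.H332R3.h_smul_right,
      Pool.Agent.H332R3.h_smul_right, Pool.Agent.H332R3.h_add_left,
      Pool.Agent.H332R3.h_add_left, Pool.Agent.H332R3.h_smul_left,
      Pool.Agent.H332R3.h_smul_left, Pool.Agent.H332R3.h_smul_left,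
      Pool.Agent.H332R3.h_smul_left, Pool.Agent.H332R3.h_e_self,
      Pool.Agent.H332R3.h_e_e (n := 1) (m := 0) (by norm_num),
      Pool.Agent.H332R3.h_e_e (n := 0) (m := 2) (by norm_num),
      Pool.Agent.H332R3.h_e_e (n := 1) (m := 2) (by norm_num)]
    simp [Pool.Agent.H332R3.sg, mul_comm]
  obtain ⟨M, hM⟩ := @H S mS hgeo hhyp ψ.range (by
    refine ⟨ψ ⟨g, hgG⟩, ⟨_, rfl⟩, ψ ⟨g', hg'G⟩, ⟨_, rfl⟩, o, η, hη, ?_, Real.log 4 / 2, ?_⟩
    · intro n
      have h1 := hd1 n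
      have h2 := hd2 n
      rw [zpow_natCast] at h1 h2
      rw [h1, h2]
      have hn0 : 0 ≤ (n : ℝ) * η := by positivity
      have h3 : η * n = Real.arcosh (Real.cosh ((n : ℝ) * η)) := by
        rw [Real.arcosh_cosh hn0]; ring
      have h4 := (hab n).2.2.1
      have h5 := (hab n).2.2.2
      have h6 : (0 : ℝ) < Real.cosh ((n : ℝ) * η) := Real.cosh_pos _
      push_cast at h4 h5
      rw [h3]
      constructor
      · rw [Real.arcosh_le_arcosh h6 (lt_of_lt_of_le h6 h4)]; exact h4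
      · rw [Real.arcosh_le_arcosh h6 (lt_of_lt_of_le h6 h5)]; exact h5
    · intro n m
      rw [hd1, hd2, hd3]
      have h4 := (hab n).2.2.1
      have h5 := (hab m).2.2.2
      have := arcosh_aux ((Real.one_le_cosh _).trans h4) ((Real.one_le_cosh _).trans h5)
      linarith)
  exact Pool.Agent.H332R3.G1_no_coatom A _
    (Subgroup.isCoatom_comap_of_surjective ψ.rangeRestrict_surjective hM)

end Pool.Agent.S03346
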