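import Pool.Statements.S03369
import Pool.Agent.H333R3.Edge.Star

set_option autoImplicit false
open Pool Pool.MP_e54950_al

namespace Pool.Agent.S03369

/-- Term operations: members of every set of operations containing the projections and closed
under the basic operations. -/
def Clo {A ι : Type} (ar : ι → ℕ) (op : (i : ι) → (Fin (ar i) → A) → A) (n : ℕ)
    (t : (Fin n → A) → A) : Prop :=
  ∀ S : Set ((Fin n → A) → A),
    (∀ j : Fin n, (fun x : Fin n → A => x j) ∈ S) →
    (∀ (i : ι) (g : Fin (ar i) → (Fin n → A) → A), (∀ k, g k ∈ S) →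
      (fun x : Fin n → A => op i (fun k => g k x)) ∈ S) → t ∈ S

theorem Clo.idem {A ι : Type} {ar : ι → ℕ} {op : (i : ι) → (Fin (ar i) → A) → A}
    (hid : ∀ (i : ι) (a : A), op i (fun _ => a) = a) {n : ℕ} {t : (Fin n → A) → A}
    (ht : Clo ar op n t) (a : A) : t (fun _ => a) = a := by
  refine ht {f | f (fun _ => a) = a} (fun j => rfl) ?_
  intro i g hg
  change op i (fun k => g k (fun _ => a)) = a
  have : (fun k => g k (fun _ => a)) = fun _ => a := funext hg
  rw [this, hid]

theorem Clo.proj {A ι : Type} {ar : ι → ℕ} {op : (i : ι) → (Fin (ar i) → A) → A} {m : ℕ}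
    (j : Fin m) : Clo ar op m (fun x => x j) := fun _ hS _ => hS j

theorem Clo.comp {A ι : Type} {ar : ι → ℕ} {op : (i : ι) → (Fin (ar i) → A) → A} {n m : ℕ}
    {t : (Fin n → A) → A} (ht : Clo ar op n t) {g : Fin n → (Fin m → A) → A}
    (hg : ∀ j, Clo ar op m (g j)) : Clo ar op m (fun x => t (fun j => g j x)) := by
  intro S hS hS'
  refine ht {f | (fun x => f (fun j => g j x)) ∈ S} (fun j => hg j S hS hS') ?_
  intro i h hh
  exact hS' i (fun k x => h k (fun j => g j x)) hh

/-- Every idempotent algebra (any carrier, any signature of finitary operations) that has a Taylor term operation also has a 4-ary term operation e with e(v,v,u,u) = e(v,u,v,u) = e(u,u,u,v) for all u, v. -/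
theorem result :
    ∀ (A : Type) (ι : Type) (ar : ι → ℕ) (op : (i : ι) → (Fin (ar i) → A) → A),
      (∀ (i : ι) (a : A), op i (fun _ => a) = a) →
      (∃ n : ℕ, ∃ t : (Fin n → A) → A,
        (∀ S : Set ((Fin n → A) → A),
          (∀ j : Fin n, (fun x : Fin n → A => x j) ∈ S) →
          (∀ (i : ι) (g : Fin (ar i) → (Fin n → A) → A), (∀ k, g k ∈ S) →
              (fun x : Fin n → A => op i (fun k => g k x)) ∈ S) →
          t ∈ S) ∧
        ∀ j : Fin n, ∃ u v : Fin n → Bool, u j = true ∧ v j = false ∧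
          ∀ x y : A, t (fun k => cond (u k) x y) = t (fun k => cond (v k) x y)) →
      ∃ e : (Fin 4 → A) → A,
        (∀ S : Set ((Fin 4 → A) → A),
          (∀ j : Fin 4, (fun x : Fin 4 → A => x j) ∈ S) →
          (∀ (i : ι) (g : Fin (ar i) → (Fin 4 → A) → A), (∀ k, g k ∈ S) →
              (fun x : Fin 4 → A => op i (fun k => g k x)) ∈ S) →
          e ∈ S) ∧
        ∀ a b : A, e ![b, b, a, a] = e ![b, a, b, a] ∧ e ![b, a, b, a] = e ![a, a, a, b] := by
  intro A ι ar op hid h
  obtain ⟨n, t, ht, hT⟩ := h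
  have ht' : Clo ar op n t := ht
  -- the operation `t` on binary functions
  let T : (Fin n → A → A → A) → A → A → A := fun x u v => t (fun j => x j u v)
  let R : (A → A → A) → (A → A → A) → (A → A → A) → Prop := fun p q s =>
    ∃ e : (Fin 4 → A) → A, Clo ar op 4 e ∧
      (p = fun u v => e ![v, v, u, u]) ∧ (q = fun u v => e ![v, u, v, u]) ∧
      (s = fun u v => e ![u, u, u, v])
  have key := H333R3.Edge.const_of_taylor (B := A → A → A) T R (fun u _ => u) (fun _ v => v)
    ?_ ?_ ?_ ?_ ?_ ?_ ?_
  · obtain ⟨p, e, he, h1, h2, h3⟩ := key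
    refine ⟨e, he, fun a b => ⟨?_, ?_⟩⟩
    · have := congrFun (congrFun (h1.symm.trans h2) a) b
      exact this
    · have := congrFun (congrFun (h2.symm.trans h3) a) b
      exact this
  · intro x
    funext u v
    exact ht'.idem hid (x u v)
  · intro x y z hxyz
    choose e he h1 h2 h3 using hxyz
    refine ⟨fun w => t (fun j => e j w), ht'.comp he, ?_, ?_, ?_⟩
    · funext u v
      exact congrArg t (funext fun j => congrFun (congrFun (h1 j) u) v)
    · funext u v
      exact congrArg t (funext fun j => congrFun (congrFun (h2 j) u) v)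
    · funext u v
      exact congrArg t (funext fun j => congrFun (congrFun (h3 j) u) v)
  · exact ⟨fun w => w 0, Clo.proj 0, rfl, rfl, rfl⟩
  · exact ⟨fun w => w 1, Clo.proj 1, rfl, rfl, rfl⟩
  · exact ⟨fun w => w 2, Clo.proj 2, rfl, rfl, rfl⟩
  · exact ⟨fun w => w 3, Clo.proj 3, rfl, rfl, rfl⟩
  · intro i
    obtain ⟨P, Q, hP, hQ, hPQ⟩ := hT i
    refine ⟨P, Q, hP, hQ, fun x y => ?_⟩
    funext u v
    have := hPQ (x u v) (y u v)
    have e1 : ∀ (P : Fin n → Bool), (fun j => (cond (P j) x y) u v) =
        fun j => cond (P j) (x u v) (y u v) := by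
      intro P
      funext j
      cases P j <;> rfl
    change t (fun j => (cond (P j) x y) u v) = t (fun j => (cond (Q j) x y) u v)
    rw [e1, e1]
    exact this

end Pool.Agent.S03369
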