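import Pool.Statements.S03384
import Pool.Agent.H546R3.LAmain

set_option autoImplicit false
open CategoryTheory
open Pool Pool.MP_e6182f_al

namespace Pool.Agent.S03384

/-- The negation of the preceding statement: For every ring R, class D of R-modules and module N: N is a direct limit of summands of finite direct sums of modules in D iff N is a direct limit of summands of arbitrary direct sums of modules in D. -/
theorem result :
    ¬ (∀ (R : Type) [Ring R] (D : ModuleCat.{0} R → Prop) (N : ModuleCat.{0} R),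
      (∃ (J : Type) (_ : SmallCategory J) (_ : IsFiltered J) (F : J ⥤ ModuleCat.{0} R),
        (∀ j : J, ∃ (n : ℕ) (M : Fin n → ModuleCat.{0} R), (∀ i, D (M i)) ∧
          ∃ (f : (F.obj j : Type) →ₗ[R] DirectSum (Fin n) (fun i => (M i : Type)))
            (g : DirectSum (Fin n) (fun i => (M i : Type)) →ₗ[R] (F.obj j : Type)),
            g ∘ₗ f = LinearMap.id) ∧
        ∃ c : Limits.Cocone F, Nonempty (Limits.IsColimit c) ∧ Nonempty (c.pt ≅ N)) ↔
      (∃ (J : Type) (_ : SmallCategory J) (_ : IsFiltered J) (F : J ⥤ ModuleCat.{0} R),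
        (∀ j : J, ∃ (ι : Type) (M : ι → ModuleCat.{0} R), (∀ i, D (M i)) ∧
          ∃ (f : (F.obj j : Type) →ₗ[R] DirectSum ι (fun i => (M i : Type)))
            (g : DirectSum ι (fun i => (M i : Type)) →ₗ[R] (F.obj j : Type)),
            g ∘ₗ f = LinearMap.id) ∧
        ∃ c : Limits.Cocone F, Nonempty (Limits.IsColimit c) ∧ Nonempty (c.pt ≅ N))) := by
  intro h
  have h1 := (h H546R3.LA.R (fun A => Nonempty (A ≃ₗ[H546R3.LA.R] H546R3.LA.Mt))
    H546R3.LA.X).mpr
    ⟨ℕ, inferInstance, inferInstance, H546R3.LA.Fn,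
      fun j => ⟨ℕ, fun _ => ModuleCat.of H546R3.LA.R H546R3.LA.Mt,
        fun _ => ⟨LinearEquiv.refl _ _⟩, LinearMap.id, LinearMap.id, rfl⟩,
      H546R3.LA.cX, ⟨H546R3.LA.hcX⟩, ⟨Iso.refl _⟩⟩
  obtain ⟨J, _, _, F, hF, c, ⟨hc⟩, ⟨e⟩⟩ := h1
  exact H546R3.LA.not_lim_add F hF c hc e.toLinearEquiv

end Pool.Agent.S03384
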