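import Pool.Statements.S03388
import Pool.Agent.H775R3.CoHopfTransfer

set_option autoImplicit false
open Pool Pool.MP_e6a096_al

namespace Pool.Agent.S03388

open Pool.Agent.H775R3

/-- The negation of the preceding statement: If T is a finitely generated subsemigroup of finite Green index in a semigroup S, T is co-hopfian, and every T-relative Schützenberger group of an H^T-class outside T is co-hopfian, then every injective endomorphism of S is surjective. -/
theorem result :
    ¬ (∀ (S : Type) [Semigroup S] (T : Subsemigroup S) (Hrel : S → S → Prop),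
      (∀ u v : S, Hrel u v ↔
        ((v = u ∨ ∃ t ∈ T, v = u * t) ∧ (u = v ∨ ∃ t ∈ T, u = v * t) ∧
         (v = u ∨ ∃ t ∈ T, v = t * u) ∧ (u = v ∨ ∃ t ∈ T, u = t * v))) →
      (∃ A : Finset S, Subsemigroup.closure (A : Set S) = T) →
      (∃ F : Finset S, ∀ u : S, u ∉ T → ∃ f ∈ F, Hrel u f) →
      (∀ f : T →ₙ* T, Function.Injective f → Function.Surjective f) →
      (∀ u : S, u ∉ T →
        ∀ G : Set ({h : S // Hrel u h} → {h : S // Hrel u h}),
          (∀ g : {h : S // Hrel u h} → {h : S // Hrel u h}, g ∈ G ↔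
            (g = id ∨ ∃ t ∈ T,
              (∀ h : {h : S // Hrel u h}, ∃ h' : {h : S // Hrel u h}, h'.1 * t = h.1) ∧
              ∀ h : {h : S // Hrel u h}, (g h).1 = h.1 * t)) →
          ∀ φ : ({h : S // Hrel u h} → {h : S // Hrel u h}) →
                ({h : S // Hrel u h} → {h : S // Hrel u h}),
            (∀ g ∈ G, φ g ∈ G) →
            (∀ g ∈ G, ∀ g' ∈ G, φ (g ∘ g') = φ g ∘ φ g') →
            Set.InjOn φ G →
            ∀ g ∈ G, ∃ g' ∈ G, φ g' = g) →
      ∀ f : S →ₙ* S, Function.Injective f → Function.Surjective f) := by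
  intro hmain
  let Hrel : CoHopf.GG → CoHopf.GG → Prop := fun u v =>
    ((v = u ∨ ∃ t ∈ CoHopf.TT, v = u * t) ∧ (u = v ∨ ∃ t ∈ CoHopf.TT, u = v * t) ∧
     (v = u ∨ ∃ t ∈ CoHopf.TT, v = t * u) ∧ (u = v ∨ ∃ t ∈ CoHopf.TT, u = t * v))
  have hrel : ∀ u v : CoHopf.GG, u ∉ CoHopf.TT → v ∉ CoHopf.TT → Hrel u v := by
    intro u v hu hv
    refine ⟨Or.inr ⟨u⁻¹ * v, CoHopf.inv_mul_mem hu hv, by group⟩,
      Or.inr ⟨v⁻¹ * u, CoHopf.inv_mul_mem hv hu, by group⟩,
      Or.inr ⟨v * u⁻¹, CoHopf.mul_inv_mem hv hu, by group⟩,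
      Or.inr ⟨u * v⁻¹, CoHopf.mul_inv_mem hu hv, by group⟩⟩
  have hrel' : ∀ u v : CoHopf.GG, u ∉ CoHopf.TT → Hrel u v → v ∉ CoHopf.TT := by
    rintro u v hu ⟨h1 | ⟨t, ht, h1⟩, -⟩
    · rw [h1]; exact hu
    · rw [h1]; exact CoHopf.mul_not_mem hu ht
  have hs := hmain CoHopf.GG CoHopf.TT Hrel (fun u v => Iff.rfl) CoHopf.TT_fg
    ⟨{CoHopf.g0}, fun u hu =>
      ⟨CoHopf.g0, Finset.mem_singleton_self _, hrel u _ hu CoHopf.g0_not_mem⟩⟩
    CoHopf.TT_cohopf
    (by
      intro u hu G hG φ hφG hφmul hφinj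
      -- right translations
      let rho : CoHopf.TT → ({h : CoHopf.GG // Hrel u h} → {h : CoHopf.GG // Hrel u h}) :=
        fun t h => ⟨h.1 * t.1, hrel u _ hu (CoHopf.mul_not_mem (hrel' u h.1 hu h.2) t.2)⟩
      have hrho : ∀ t, rho t ∈ G := by
        intro t
        rw [hG]
        right
        refine ⟨t.1, t.2, ?_, fun h => rfl⟩
        intro h
        have hti : (t.1)⁻¹ ∈ CoHopf.TT := by
          have := t.2
          rw [CoHopf.mem_TT] at this ⊢
          rw [map_inv, this, inv_one]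
        refine ⟨⟨h.1 * (t.1)⁻¹,
          hrel u _ hu (CoHopf.mul_not_mem (hrel' u h.1 hu h.2) hti)⟩, ?_⟩
        show h.1 * (t.1)⁻¹ * t.1 = h.1
        group
      have hrho_inj : Function.Injective rho := by
        intro t t' h
        have h1 := congrFun h ⟨u, hrel u u hu hu⟩
        have h2 : u * t.1 = u * t'.1 := congrArg Subtype.val h1
        exact Subtype.ext (mul_left_cancel h2)
      have hrho_mul : ∀ t t' : CoHopf.TT, rho (t * t') = rho t' ∘ rho t := by
        intro t t'
        funext h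
        apply Subtype.ext
        show h.1 * (t.1 * t'.1) = h.1 * t.1 * t'.1
        rw [mul_assoc]
      have hex : ∀ g ∈ G, ∃ t, rho t = g := by
        intro g hg
        rw [hG] at hg
        rcases hg with rfl | ⟨t, ht, -, h2⟩
        · refine ⟨⟨1, CoHopf.one_mem_TT⟩, ?_⟩
          funext h
          apply Subtype.ext
          show h.1 * 1 = h.1
          rw [mul_one]
        · refine ⟨⟨t, ht⟩, ?_⟩
          funext h
          apply Subtype.ext
          exact (h2 h).symm
      have hch : ∀ t : CoHopf.TT, ∃ t' : CoHopf.TT, rho t' = φ (rho t) := fun t =>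
        hex _ (hφG _ (hrho t))
      choose F hF using hch
      let f : CoHopf.TT →ₙ* CoHopf.TT := ⟨F, by
        intro t t'
        apply hrho_inj
        rw [hF, hrho_mul, hφmul _ (hrho t') _ (hrho t), hrho_mul, hF, hF]⟩
      have hf : Function.Injective f := by
        intro t t' h
        apply hrho_inj
        apply hφinj (hrho t) (hrho t')
        rw [← hF, ← hF]
        exact congrArg rho h
      intro g hg
      obtain ⟨s, rfl⟩ := hex g hg
      obtain ⟨t, ht⟩ := CoHopf.TT_cohopf f hf s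
      refine ⟨rho t, hrho t, ?_⟩
      rw [← hF]
      exact congrArg rho ht)
    CoHopf.dd CoHopf.dd_injective
  exact CoHopf.dd_not_surjective hs

end Pool.Agent.S03388
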