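import Pool.Statements.S03450
import Pool.Agent.H758R3.Levi4

set_option autoImplicit false
open Pool Pool.MP_eace53_al

namespace Pool.Agent.S03450

/-- The negation of the preceding statement: For every finite group H there are finitely many group quasi-identities whose models are exactly the groups in which every normal closure of one element embeds in a direct power of H. -/
theorem result :
    ¬ (∀ (H : Type) [Group H] [Finite H],
      ∃ (k : ℕ) (n : Fin k → ℕ) (prem : (i : Fin k) → List (FreeGroup (Fin (n i))))
        (concl : (i : Fin k) → FreeGroup (Fin (n i))),
        ∀ (G : Type) [Group G],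
          (∀ a : G, ∃ (I : Type) (φ : (Subgroup.normalClosure ({a} : Set G)) →* (I → H)),
              Function.Injective φ) ↔
          (∀ i : Fin k, ∀ f : Fin (n i) → G,
              (∀ p ∈ prem i, FreeGroup.lift f p = 1) → FreeGroup.lift f (concl i) = 1)) :=
  Pool.Agent.H758R3.Levi.main

end Pool.Agent.S03450
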