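import Pool.Statements.S03516
import Pool.Agent.H656.HopfAct

set_option autoImplicit false
open Pool Pool.MP_f1c158_al

namespace Pool.Agent.S03516

open Pool.Agent.H656

/-- coefficients of the identity. -/
noncomputable def co : Fin 2 → Fin 3 → RR := fun j i => if j = 1 ∧ i = 0 then -1 else 1

/-- operators of the identity. -/
noncomputable def gg : Fin 2 → Fin 2 → HH := ![![hh, 1], ![1, hh]]

/-- permutations of the identity. -/
def sg : Fin 2 → Equiv.Perm (Fin 2) := ![1, Equiv.swap 0 1]

theorem ident (r : Fin 2 → RR) : ∑ j, co j 0 *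
    (List.ofFn fun i : Fin 2 => act (gg j i) (r (sg j i)) * co j i.succ).prod = 0 := by
  obtain ⟨c, hc⟩ := act_hh_scalar (r 0)
  simp [Fin.sum_univ_two, List.ofFn_succ, hc, co, gg, sg]
  rw [Algebra.commutes, add_neg_cancel]

theorem essential : ∑ m : Fin 1, (fun _ => 1 : Fin 1 → RR) m *
      (∑ j ∈ Finset.univ.filter (fun j => sg j = (fun _ => 1 : Fin 1 → Equiv.Perm (Fin 2)) m),
        co j 0 * (List.ofFn fun i : Fin 2 => act (gg j i)
          ((fun _ _ => 1 : Fin 1 → Fin 2 → RR) m (sg j i)) * co j i.succ).prod)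
        * (fun _ => 1 : Fin 1 → RR) m = 1 := by
  have hf : Finset.univ.filter (fun j => sg j = (1 : Equiv.Perm (Fin 2))) = {0} := by decide
  simp only [hf, Finset.sum_singleton]
  simp [List.ofFn_succ, act_hh_one, co, gg]

/-- The negation of the preceding statement: For every field k, Hopf algebra H over k and H-module algebra R: if R satisfies a multilinear generalized identity with H-operators whose ordered monomial parts have values generating the unit ideal, then R satisfies a nonzero polynomial identity. -/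
theorem result :
    ¬ (∀ (k : Type) [Field k] (H : Type) [Ring H] [HopfAlgebra k H]
    (R : Type) [Ring R] [Algebra k R] (act : H →ₐ[k] Module.End k R),
    (∀ (h : H) (x y : R), act h (x * y) =
        TensorProduct.lift ((LinearMap.mul k R).compl₁₂
          (act.toLinearMap.flip x) (act.toLinearMap.flip y))
          (Coalgebra.comul (R := k) h)) →
    (∀ h : H, act h 1 = algebraMap k R (Coalgebra.counit (R := k) h)) →
    ∀ (n N : ℕ) (a : Fin N → Fin (n + 1) → R) (g : Fin N → Fin n → H)
      (σ : Fin N → Equiv.Perm (Fin n)),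
    (∀ r : Fin n → R, ∑ j, a j 0 *
        (List.ofFn fun i : Fin n => act (g j i) (r (σ j i)) * a j i.succ).prod = 0) →
    (∃ (M : ℕ) (u w : Fin M → R) (τ : Fin M → Equiv.Perm (Fin n))
        (s : Fin M → Fin n → R),
      ∑ m, u m * (∑ j ∈ Finset.univ.filter (fun j => σ j = τ m), a j 0 *
        (List.ofFn fun i : Fin n => act (g j i) (s m (σ j i)) * a j i.succ).prod)
        * w m = 1) →
    ∃ (m : ℕ) (p : FreeAlgebra k (Fin m)), p ≠ 0 ∧
      ∀ r : Fin m → R, FreeAlgebra.lift k r p = 0) := by
  intro Hyp
  obtain ⟨m, p, hp0, hp⟩ := Hyp ℚ HH RR act (fun h x y => act_mul h x y) (fun h => act_one h)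
    2 2 co gg sg ident ⟨1, fun _ => 1, fun _ => 1, fun _ => 1, fun _ _ => 1, essential⟩
  exact hp0 (RR_not_PI m p hp)

end Pool.Agent.S03516
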