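import Pool.Statements.S03547
import Pool.Agent.H799R3.SmallPart

set_option autoImplicit false
universe u
open Pool Pool.MP_f49b6d_al

namespace Pool.Agent.S03547

open Pool.Agent.H799R3.SmallPart

lemma good_of_injective {G : Type u} [Group G] [Infinite G] (hG : Cardinal.mk G ≤ Cardinal.aleph0)
    {f : G → ℕ} (hf : Function.Injective f) : Good f := by
  classical
  have hG0 : Cardinal.mk G = Cardinal.aleph0 := le_antisymm hG (Cardinal.aleph0_le_mk G)
  intro n T hT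
  by_cases hn : ∃ a, f a = n
  · obtain ⟨a, rfl⟩ := hn
    have hTfin : T.Finite := by
      rw [hG0] at hT
      exact Cardinal.lt_aleph0_iff_set_finite.1 hT
    obtain ⟨K, hK⟩ := Infinite.exists_subset_card_eq G (hTfin.toFinset.card + 1)
    refine ⟨(K : Set G), ?_, ?_⟩
    · rw [hG0]
      exact Cardinal.lt_aleph0_iff_set_finite.2 K.finite_toSet
    · intro x
      by_contra hcon
      push Not at hcon
      have hsub : K ⊆ hTfin.toFinset.image (fun t => t⁻¹ * a * x⁻¹) := by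
        intro k hk
        obtain ⟨t, ht, he⟩ := hcon k hk
        rw [Finset.mem_image]
        refine ⟨t, hTfin.mem_toFinset.2 ht, ?_⟩
        have h2 := hf he
        rw [← h2]
        group
      have h3 := (Finset.card_le_card hsub).trans Finset.card_image_le
      omega
  · refine ⟨{1}, ?_, ?_⟩
    · rw [Cardinal.mk_singleton, hG0]
      exact Cardinal.one_lt_aleph0
    · intro x
      refine ⟨1, rfl, fun t _ h => hn ⟨_, h⟩⟩

lemma exists_good (G : Type u) [Group G] [Infinite G] :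
    ∃ f : G → ℕ, Good f ∧ Good (fun x => f x⁻¹) := by
  rcases le_or_gt (Cardinal.mk G) Cardinal.aleph0 with h | h
  · obtain ⟨e⟩ := Cardinal.mk_le_aleph0_iff.1 h
    exact ⟨_, good_of_injective h e.choose_spec,
      good_of_injective h (fun a b hab => inv_injective (e.choose_spec hab))⟩
  · obtain ⟨f, hf, hinv⟩ := exists_good_uncountable G h
    refine ⟨f, hf, ?_⟩
    have : (fun x => f x⁻¹) = f := funext hinv
    rw [this]
    exact hf

lemma left_small {G : Type u} [Group G] [Infinite G] {f : G → ℕ} (hf : Good f) (n : ℕ)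
    (L : Set G)
    (h : ∃ F : Set G, Cardinal.mk F < Cardinal.mk G ∧ ∀ g : G, ∃ x ∈ F, ∃ y ∈ L, g = x * y) :
    ∃ F : Set G, Cardinal.mk F < Cardinal.mk G ∧
      ∀ g : G, ∃ x ∈ F, ∃ y ∈ L, f y ≠ n ∧ g = x * y := by
  obtain ⟨F, hF, hcov⟩ := h
  obtain ⟨K, hK, hKx⟩ := hf n ((fun x => x⁻¹) '' F) (lt_of_le_of_lt Cardinal.mk_image_le hF)
  refine ⟨Set.range (fun p : K × F => (p.1 : G)⁻¹ * (p.2 : G)), ?_, ?_⟩
  · refine lt_of_le_of_lt Cardinal.mk_range_le ?_
    rw [Cardinal.mk_prod, Cardinal.lift_id, Cardinal.lift_id]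
    exact Cardinal.mul_lt_of_lt (Cardinal.aleph0_le_mk G) hK hF
  · intro g
    obtain ⟨k, hk, hkt⟩ := hKx g
    obtain ⟨x, hx, y, hy, he⟩ := hcov (k * g)
    refine ⟨k⁻¹ * x, ⟨(⟨k, hk⟩, ⟨x, hx⟩), rfl⟩, y, hy, ?_, ?_⟩
    · have h1 := hkt x⁻¹ ⟨x, hx, rfl⟩
      have h2 : x⁻¹ * k * g = y := by
        rw [mul_assoc, he, inv_mul_cancel_left]
      rwa [h2] at h1
    · rw [mul_assoc, ← he, inv_mul_cancel_left]

theorem result :
    ∀ (G : Type u) [Group G] [Infinite G],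
      ∃ f : G → ℕ, ∀ n : ℕ,
        (∀ L : Set G,
          (∃ F : Set G, Cardinal.mk F < Cardinal.mk G ∧
              ∀ g : G, ∃ x ∈ F, ∃ y ∈ L, g = x * y) →
          (∃ F : Set G, Cardinal.mk F < Cardinal.mk G ∧
              ∀ g : G, ∃ x ∈ F, ∃ y ∈ L, f y ≠ n ∧ g = x * y)) ∧
        (∀ L : Set G,
          (∃ F : Set G, Cardinal.mk F < Cardinal.mk G ∧
              ∀ g : G, ∃ x ∈ F, ∃ y ∈ L, g = y * x) →
          (∃ F : Set G, Cardinal.mk F < Cardinal.mk G ∧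
              ∀ g : G, ∃ x ∈ F, ∃ y ∈ L, f y ≠ n ∧ g = y * x)) := by
  intro G _ _
  obtain ⟨f, hf, hf'⟩ := exists_good G
  refine ⟨f, fun n => ⟨fun L h => left_small hf n L h, ?_⟩⟩
  rintro L ⟨F, hF, hcov⟩
  obtain ⟨F', hF', hcov'⟩ := left_small hf' n (L⁻¹) ⟨(fun x => x⁻¹) '' F,
    lt_of_le_of_lt Cardinal.mk_image_le hF, by
      intro g
      obtain ⟨x, hx, y, hy, he⟩ := hcov g⁻¹
      refine ⟨x⁻¹, ⟨x, hx, rfl⟩, y⁻¹, by simpa using hy, ?_⟩
      rw [← mul_inv_rev, ← he, inv_inv]⟩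
  refine ⟨(fun x => x⁻¹) '' F', lt_of_le_of_lt Cardinal.mk_image_le hF', ?_⟩
  intro g
  obtain ⟨x, hx, y, hy, hn, he⟩ := hcov' g⁻¹
  refine ⟨x⁻¹, ⟨x, hx, rfl⟩, y⁻¹, by simpa using hy, hn, ?_⟩
  rw [← mul_inv_rev, ← he, inv_inv]

end Pool.Agent.S03547
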