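import Pool.Statements.S03579

set_option autoImplicit false
open Pool Pool.MP_f762b7_al

namespace Pool.Agent.S03579

open Polynomial

section

variable {k : Type} [Field k]

open Classical in
/-- The valuation of `k(x)` at infinity, on `FractionRing k[x]`. -/
noncomputable def vinf (k : Type) [Field k] :
    Valuation (FractionRing k[X]) (WithZero (Multiplicative ℤ)) :=
  (RatFunc.inftyValuation k).comap (RatFunc.toFractionRingRingEquiv k).symm.toRingHom

open Classical in
lemma vinf_poly (p : k[X]) (hp : p ≠ 0) :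
    vinf k (algebraMap k[X] (FractionRing k[X]) p) = WithZero.exp (p.natDegree : ℤ) := by
  have h : (RatFunc.toFractionRingRingEquiv k).symm (algebraMap k[X] (FractionRing k[X]) p)
      = algebraMap k[X] (RatFunc k) p := RatFunc.ofFractionRing_algebraMap p
  have := RatFunc.inftyValuation.polynomial k hp
  rw [← this, ← h]
  rfl

/-- The valuation ring at infinity. -/
noncomputable def Vinf (k : Type) [Field k] : ValuationSubring (FractionRing k[X]) :=
  (vinf k).valuationSubring

lemma mem_Vinf (p : k[X]) :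
    algebraMap k[X] (FractionRing k[X]) p ∈ Vinf k ↔ p.natDegree = 0 := by
  unfold Vinf
  rw [Valuation.mem_valuationSubring_iff]
  by_cases hp : p = 0
  · simp [hp]
  · rw [vinf_poly p hp, ← WithZero.exp_zero, WithZero.exp_le_exp]
    omega

/-- `p / x^m` is in the valuation ring at infinity when `deg p ≤ m`. -/
lemma div_mem_Vinf (p : k[X]) (m : ℕ) (h : p.natDegree ≤ m) :
    (algebraMap k[X] (FractionRing k[X]) X)⁻¹ ^ m * algebraMap k[X] (FractionRing k[X]) p
      ∈ Vinf k := by
  unfold Vinf
  rw [Valuation.mem_valuationSubring_iff]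
  by_cases hp : p = 0
  · simp [hp]
  · rw [map_mul, map_pow, map_inv₀, vinf_poly p hp, vinf_poly X X_ne_zero, natDegree_X,
      ← WithZero.exp_neg, ← WithZero.exp_nsmul, ← WithZero.exp_add, ← WithZero.exp_zero,
      WithZero.exp_le_exp]
    simp
    omega

end

section main

variable (k : Type) [Field k]


/-- An element which is integral both over `k[x]` and over the valuation ring at infinity is
algebraic over `k`. -/
lemma integral_const (u : (AlgebraicClosure (FractionRing k[X]))) (h1 : IsIntegral k[X] u) (h2 : IsIntegral (Vinf k) u) :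
    IsIntegral k u := by
  have e1 : minpoly (FractionRing k[X]) u = (minpoly k[X] u).map (algebraMap k[X] (FractionRing k[X])) :=
    minpoly.isIntegrallyClosed_eq_field_fractions' (FractionRing k[X]) h1
  have e2 : minpoly (FractionRing k[X]) u = (minpoly (Vinf k) u).map (algebraMap (Vinf k) (FractionRing k[X])) :=
    minpoly.isIntegrallyClosed_eq_field_fractions' (FractionRing k[X]) h2
  have hc : ∀ i, ((minpoly k[X] u).coeff i).natDegree = 0 := by
    intro i
    rw [← mem_Vinf]
    have := congrArg (fun q : (FractionRing k[X])[X] => q.coeff i) (e1.symm.trans e2)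
    simp only [coeff_map] at this
    rw [this]
    exact ((minpoly (Vinf k) u).coeff i).2
  have hl : minpoly k[X] u ∈ Polynomial.lifts (C : k →+* k[X]) := by
    rw [Polynomial.lifts_iff_coeff_lifts]
    intro i
    exact ⟨((minpoly k[X] u).coeff i).coeff 0, (eq_C_of_natDegree_eq_zero (hc i)).symm⟩
  obtain ⟨q, hq, -, hqm⟩ := Polynomial.lifts_and_natDegree_eq_and_monic hl (minpoly.monic h1)
  refine ⟨q, hqm, ?_⟩
  have h0 : aeval u (minpoly k[X] u) = 0 := minpoly.aeval _ _
  rw [← hq, aeval_def, eval₂_map] at h0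
  have : (algebraMap k[X] (AlgebraicClosure (FractionRing k[X]))).comp (C : k →+* k[X]) = algebraMap k (AlgebraicClosure (FractionRing k[X])) := by
    rw [IsScalarTower.algebraMap_eq k k[X] (AlgebraicClosure (FractionRing k[X]))]
    rfl
  rwa [this] at h0

/-- The element `x` of `Ω`. -/
noncomputable def xx : (AlgebraicClosure (FractionRing k[X])) := algebraMap k[X] (AlgebraicClosure (FractionRing k[X])) X

lemma xx_eq : xx k = algebraMap (FractionRing k[X]) (AlgebraicClosure (FractionRing k[X])) (algebraMap k[X] (FractionRing k[X]) X) := by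
  unfold xx
  rw [IsScalarTower.algebraMap_apply k[X] (FractionRing k[X]) (AlgebraicClosure (FractionRing k[X]))]

lemma xx_ne : xx k ≠ 0 := by
  rw [xx_eq]
  simp [X_ne_zero]

lemma inv_xx_not_integral : ¬ IsIntegral k[X] (xx k)⁻¹ := by
  intro h
  have h' : IsIntegral k[X] ((algebraMap k[X] (FractionRing k[X]) X)⁻¹) := by
    rw [xx_eq, ← map_inv₀] at h
    exact (isIntegral_algHom_iff (IsScalarTower.toAlgHom k[X] (FractionRing k[X]) (AlgebraicClosure (FractionRing k[X])))
      (FaithfulSMul.algebraMap_injective _ _)).1 h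
  obtain ⟨y, hy⟩ := IsIntegrallyClosed.isIntegral_iff.1 h'
  have hX : algebraMap k[X] (FractionRing k[X]) X ≠ 0 := by simp [X_ne_zero]
  have h1 : algebraMap k[X] (FractionRing k[X]) (y * X) = algebraMap k[X] (FractionRing k[X]) 1 := by
    rw [map_mul, hy, inv_mul_cancel₀ hX, map_one]
  have h2 := IsFractionRing.injective k[X] (FractionRing k[X]) h1
  have : IsUnit (X : k[X]) := IsUnit.of_mul_eq_one_right _ h2
  exact not_isUnit_X this

lemma xx_not_integral_inf : ¬ IsIntegral (Vinf k) (xx k) := by
  intro h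
  have h' : IsIntegral (Vinf k) (algebraMap k[X] (FractionRing k[X]) X) := by
    rw [xx_eq] at h
    exact (isIntegral_algHom_iff (IsScalarTower.toAlgHom (Vinf k) (FractionRing k[X]) (AlgebraicClosure (FractionRing k[X])))
      (FaithfulSMul.algebraMap_injective _ _)).1 h
  obtain ⟨y, hy⟩ := IsIntegrallyClosed.isIntegral_iff.1 h'
  have : algebraMap k[X] (FractionRing k[X]) X ∈ Vinf k := by
    rw [← hy]; exact y.2
  rw [mem_Vinf] at this
  simp at this

lemma inv_xx_integral_inf : IsIntegral (Vinf k) (xx k)⁻¹ := by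
  have h := div_mem_Vinf (k := k) 1 1 (by simp)
  rw [map_one, mul_one, pow_one] at h
  rw [xx_eq, ← map_inv₀]
  exact (isIntegral_algebraMap (R := Vinf k) (A := (AlgebraicClosure (FractionRing k[X]))) (x := ⟨_, h⟩))

lemma const_integral_inf (c : k) : IsIntegral (Vinf k) (algebraMap k (AlgebraicClosure (FractionRing k[X])) c) := by
  have h := div_mem_Vinf (k := k) (C c) 0 (by simp)
  rw [pow_zero, one_mul] at h
  have : algebraMap k (AlgebraicClosure (FractionRing k[X])) c = algebraMap (FractionRing k[X]) (AlgebraicClosure (FractionRing k[X])) (algebraMap k[X] (FractionRing k[X]) (C c)) := by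
    rw [IsScalarTower.algebraMap_apply k k[X] (AlgebraicClosure (FractionRing k[X])), IsScalarTower.algebraMap_apply k[X] (FractionRing k[X]) (AlgebraicClosure (FractionRing k[X]))]
    rfl
  rw [this]
  exact (isIntegral_algebraMap (R := Vinf k) (A := (AlgebraicClosure (FractionRing k[X]))) (x := ⟨_, h⟩))

/-- The key lemma: `x a + x⁻¹ b = 1` is impossible. -/
lemma key (a b : (AlgebraicClosure (FractionRing k[X]))) (ha : IsIntegral k[X] a) (hb : IsIntegral (Vinf k) b)
    (h : xx k * a + (xx k)⁻¹ * b = 1) : False := by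
  have hx := xx_ne k
  set u := xx k * a with hu
  have hxi : IsIntegral k[X] (xx k) := isIntegral_algebraMap
  have h1 : IsIntegral k[X] u := hxi.mul ha
  have h2 : IsIntegral (Vinf k) u := by
    have : u = 1 - (xx k)⁻¹ * b := by rw [← h]; ring
    rw [this]
    exact isIntegral_one.sub ((inv_xx_integral_inf k).mul hb)
  have h3 := integral_const k u h1 h2
  by_cases hu0 : u = 0
  · rw [hu0, zero_add] at h
    apply xx_not_integral_inf k
    have : b = xx k := by
      field_simp at h
      exact h
    rwa [← this]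
  · have h4 : IsIntegral k u⁻¹ := h3.inv
    have h5 : IsIntegral k[X] u⁻¹ := h4.tower_top
    apply inv_xx_not_integral k
    have : (xx k)⁻¹ = a * u⁻¹ := by
      rw [hu] at hu0 ⊢
      have : a ≠ 0 := right_ne_zero_of_mul hu0
      field_simp
    rw [this]
    exact ha.mul h5

/-- The `k`-subspace `M + x⁻² M'`. -/
noncomputable def U : Submodule k (AlgebraicClosure (FractionRing k[X])) where
  carrier := {z | ∃ a b : (AlgebraicClosure (FractionRing k[X])), IsIntegral k[X] a ∧ IsIntegral (Vinf k) b ∧
    z = a + (xx k)⁻¹ ^ 2 * b}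
  zero_mem' := ⟨0, 0, isIntegral_zero, isIntegral_zero, by simp⟩
  add_mem' := by
    rintro _ _ ⟨a, b, ha, hb, rfl⟩ ⟨a', b', ha', hb', rfl⟩
    exact ⟨a + a', b + b', ha.add ha', hb.add hb', by ring⟩
  smul_mem' := by
    rintro c _ ⟨a, b, ha, hb, rfl⟩
    refine ⟨algebraMap k (AlgebraicClosure (FractionRing k[X])) c * a, algebraMap k (AlgebraicClosure (FractionRing k[X])) c * b, ?_, ?_, ?_⟩
    · refine IsIntegral.mul ?_ ha
      rw [IsScalarTower.algebraMap_apply k k[X] (AlgebraicClosure (FractionRing k[X]))]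
      exact isIntegral_algebraMap
    · exact (const_integral_inf k c).mul hb
    · rw [Algebra.smul_def]; ring

lemma not_mem_U : (xx k)⁻¹ ∉ U k := by
  rintro ⟨a, b, ha, hb, h⟩
  have hx := xx_ne k
  refine key k a b ha hb ?_
  have : xx k * (xx k)⁻¹ = xx k * (a + (xx k)⁻¹ ^ 2 * b) := by rw [← h]
  rw [mul_inv_cancel₀ hx] at this
  rw [this]
  field_simp

/-- For integral `f`, `x^{-m} f` is integral at infinity for large `m`. -/
lemma exists_pow (f : (AlgebraicClosure (FractionRing k[X]))) (hf : IsIntegral k[X] f) :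
    ∃ m : ℕ, ∀ n, m ≤ n → IsIntegral (Vinf k) ((xx k)⁻¹ ^ n * f) := by
  obtain ⟨P, hP, hPf⟩ := hf
  refine ⟨P.support.sup (fun i => (P.coeff i).natDegree), fun n hn => ?_⟩
  set s : (FractionRing k[X]) := (algebraMap k[X] (FractionRing k[X]) X)⁻¹ ^ n with hs
  set Q : (FractionRing k[X])[X] := (P.map (algebraMap k[X] (FractionRing k[X]))).scaleRoots s with hQ
  have hQm : Q.Monic := (Polynomial.monic_scaleRoots_iff s).2 (hP.map _)
  have hQ0 : aeval (algebraMap (FractionRing k[X]) (AlgebraicClosure (FractionRing k[X])) s * f) Q = 0 := by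
    apply Polynomial.scaleRoots_aeval_eq_zero
    rw [aeval_map_algebraMap]
    exact hPf
  have hl : Q ∈ Polynomial.lifts (algebraMap (Vinf k) (FractionRing k[X])) := by
    rw [Polynomial.lifts_iff_coeff_lifts]
    intro i
    have hmem : Q.coeff i ∈ Vinf k := by
      rw [hQ, coeff_scaleRoots, coeff_map, natDegree_map_eq_of_injective
        (IsFractionRing.injective k[X] (FractionRing k[X])), hs, ← pow_mul, mul_comm]
      rcases lt_trichotomy i P.natDegree with h | h | h
      · apply div_mem_Vinf
        by_cases h0 : P.coeff i = 0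
        · simp [h0]
        · have h1 : (P.coeff i).natDegree ≤ n :=
            le_trans (Finset.le_sup (f := fun i => (P.coeff i).natDegree)
              (mem_support_iff.2 h0)) hn
          have h2 : 1 ≤ P.natDegree - i := by omega
          calc (P.coeff i).natDegree ≤ n * 1 := by omega
            _ ≤ n * (P.natDegree - i) := Nat.mul_le_mul_left _ h2
      · apply div_mem_Vinf
        rw [h]
        have : P.coeff P.natDegree = 1 := hP
        rw [this]; simp
      · rw [coeff_eq_zero_of_natDegree_lt h]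
        simp
    exact ⟨⟨_, hmem⟩, rfl⟩
  obtain ⟨q, hq, -, hqm⟩ := Polynomial.lifts_and_natDegree_eq_and_monic hl hQm
  refine ⟨q, hqm, ?_⟩
  have e1 : (xx k)⁻¹ ^ n * f = algebraMap (FractionRing k[X]) (AlgebraicClosure (FractionRing k[X])) s * f := by
    rw [hs, map_pow, map_inv₀, xx_eq]
  rw [e1, ← aeval_def, ← hQ0, ← hq, aeval_map_algebraMap]

/-- The splitting `k[x]⁺ → k[x]`, for every field `k`. -/
theorem split : ∃ f : ↥(integralClosure k[X] (AlgebraicClosure (FractionRing k[X]))) →ₗ[k[X]] k[X], f 1 = 1 := by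
  obtain ⟨l, hl0, hlU⟩ := Submodule.exists_le_ker_of_notMem (not_mem_U k)
  have hx := xx_ne k
  -- normalise
  set c : k := l (xx k)⁻¹ with hc
  have hlM : ∀ a : (AlgebraicClosure (FractionRing k[X])), IsIntegral k[X] a → l a = 0 := fun a ha =>
    hlU ⟨a, 0, ha, isIntegral_zero, by simp⟩
  have hlM' : ∀ b : (AlgebraicClosure (FractionRing k[X])), IsIntegral (Vinf k) b → l ((xx k)⁻¹ ^ 2 * b) = 0 := fun b hb =>
    hlU ⟨0, b, isIntegral_zero, hb, by simp⟩
  have hfin : ∀ f : (AlgebraicClosure (FractionRing k[X])), IsIntegral k[X] f → ∃ m : ℕ, ∀ j, m ≤ j →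
      l ((xx k)⁻¹ ^ (j + 1) * f) = 0 := by
    intro f hf
    obtain ⟨m, hm⟩ := exists_pow k f hf
    refine ⟨m + 1, fun j hj => ?_⟩
    obtain ⟨i, rfl⟩ : ∃ i, j = i + 1 := ⟨j - 1, by omega⟩
    have : (xx k)⁻¹ ^ (i + 1 + 1) * f = (xx k)⁻¹ ^ 2 * ((xx k)⁻¹ ^ i * f) := by ring
    rw [this]
    exact hlM' _ (hm i (by omega))
  choose N hN using hfin
  let g : (f : ↥(integralClosure k[X] (AlgebraicClosure (FractionRing k[X])))) → k[X] := fun f =>
    ∑ j ∈ Finset.range (N f.1 f.2), monomial j (c⁻¹ * l ((xx k)⁻¹ ^ (j + 1) * f.1))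
  have hg : ∀ (f : ↥(integralClosure k[X] (AlgebraicClosure (FractionRing k[X])))) (j : ℕ),
      (g f).coeff j = c⁻¹ * l ((xx k)⁻¹ ^ (j + 1) * f.1) := by
    intro f j
    simp only [g, finsetSum_coeff, coeff_monomial, Finset.sum_ite_eq', Finset.mem_range]
    split_ifs with h
    · rfl
    · rw [hN f.1 f.2 j (by omega), mul_zero]
  have hadd : ∀ a b, g (a + b) = g a + g b := by
    intro a b
    ext j
    rw [coeff_add, hg, hg, hg]
    have : (xx k)⁻¹ ^ (j + 1) * (a + b : ↥(integralClosure k[X] (AlgebraicClosure (FractionRing k[X])))).1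
      = (xx k)⁻¹ ^ (j + 1) * a.1 + (xx k)⁻¹ ^ (j + 1) * b.1 := by
      rw [← mul_add]; rfl
    rw [this, map_add, mul_add]
  have hC : ∀ (r : k) a, g (C r • a) = C r * g a := by
    intro r a
    ext j
    rw [coeff_C_mul, hg, hg]
    have : (xx k)⁻¹ ^ (j + 1) * (C r • a : ↥(integralClosure k[X] (AlgebraicClosure (FractionRing k[X])))).1
      = r • ((xx k)⁻¹ ^ (j + 1) * a.1) := by
      have h1 : (C r • a : ↥(integralClosure k[X] (AlgebraicClosure (FractionRing k[X])))).1 = C r • a.1 := rfl
      rw [h1, Algebra.smul_def (C r) a.1, Algebra.smul_def r,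
        IsScalarTower.algebraMap_apply k k[X] (AlgebraicClosure (FractionRing k[X]))]
      have : algebraMap k k[X] r = C r := rfl
      rw [this]
      ring
    rw [this, map_smul, smul_eq_mul]
    ring
  have hX : ∀ a, g ((X : k[X]) • a) = X * g a := by
    intro a
    ext j
    have h1 : ((X : k[X]) • a : ↥(integralClosure k[X] (AlgebraicClosure (FractionRing k[X])))).1 = xx k * a.1 := by
      have h1 : ((X : k[X]) • a : ↥(integralClosure k[X] (AlgebraicClosure (FractionRing k[X])))).1 = (X : k[X]) • a.1 := rfl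
      rw [h1, Algebra.smul_def]
      rfl
    rw [hg, h1]
    rcases j with _ | j
    · rw [mul_coeff_zero, coeff_X_zero, zero_mul]
      have : (xx k)⁻¹ ^ (0 + 1) * (xx k * a.1) = a.1 := by
        rw [zero_add, pow_one, inv_mul_cancel_left₀ hx]
      rw [this, hlM _ a.2, mul_zero]
    · rw [mul_comm X, coeff_mul_X, hg]
      have : (xx k)⁻¹ ^ (j + 1 + 1) * (xx k * a.1) = (xx k)⁻¹ ^ (j + 1) * a.1 := by
        rw [pow_succ _ (j + 1), mul_assoc, inv_mul_cancel_left₀ hx]
      rw [this]
  have hXn : ∀ (n : ℕ) a, g ((X : k[X]) ^ n • a) = X ^ n * g a := by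
    intro n
    induction n with
    | zero => intro a; simp
    | succ n ih =>
      intro a
      rw [pow_succ, mul_smul, ih, hX]
      ring
  have hsm : ∀ (p : k[X]) a, g (p • a) = p * g a := by
    intro p a
    induction p using Polynomial.induction_on' with
    | add p q hp hq => rw [add_smul, hadd, hp, hq, add_mul]
    | monomial n r =>
      rw [← C_mul_X_pow_eq_monomial, mul_smul, hC, hXn]
      ring
  refine ⟨{ toFun := g, map_add' := hadd, map_smul' := hsm }, ?_⟩
  show g 1 = 1
  ext j
  rw [hg, coeff_one]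
  have h1 : ((1 : ↥(integralClosure k[X] (AlgebraicClosure (FractionRing k[X])))).1 : (AlgebraicClosure (FractionRing k[X]))) = 1 := rfl
  rw [h1, mul_one]
  rcases j with _ | j
  · rw [zero_add, pow_one, ← hc, inv_mul_cancel₀ hl0]
    simp
  · have : (xx k)⁻¹ ^ (j + 1 + 1) = (xx k)⁻¹ ^ 2 * (xx k)⁻¹ ^ j := by ring
    rw [this, hlM' _ ((inv_xx_integral_inf k).pow j)]
    simp

end main

/-- For every field k of prime characteristic p, the integral closure of k[x] in an algebraic closure of k(x) admits a nonzero k[x]-linear map to k[x]. -/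
theorem result :
    ∀ (p : ℕ), p.Prime → ∀ (k : Type) [Field k] [CharP k p],
      ∃ f : ↥(integralClosure (Polynomial k) (AlgebraicClosure (FractionRing (Polynomial k))))
          →ₗ[Polynomial k] Polynomial k, f ≠ 0 := by
  intro p _ k _ _
  obtain ⟨f, hf⟩ := split k
  refine ⟨f, fun h => ?_⟩
  rw [h] at hf
  simp at hf

end Pool.Agent.S03579
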