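import Pool.Statements.S03590
import Pool.Agent.H546R3.KWgrp

set_option autoImplicit false
open Pool Pool.MP_f85ae1_al

namespace Pool.Agent.S03590

/-- The negation of the preceding statement: For the Lie algebra g of any linear algebraic group in GL_n over an algebraically closed field of characteristic p, any linear form χ, and any simple U_χ(g)-module M, p^((dim g − dim g^χ)/2) divides dim M. -/
theorem result :
    ¬ (∀ (p : ℕ) (k : Type) [Field k] [IsAlgClosed k] [CharP k p], p.Prime →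
    ∀ (n : ℕ) (S : Subgroup (Matrix.GeneralLinearGroup (Fin n) k))
      (𝔤 : Set (Matrix (Fin n) (Fin n) k)),
      𝔤 = {X : Matrix (Fin n) (Fin n) k |
        ∀ f : MvPolynomial (Fin n × Fin n) k,
          (∀ g ∈ S, MvPolynomial.eval
              (fun ij : Fin n × Fin n => (g : Matrix (Fin n) (Fin n) k) ij.1 ij.2) f = 0) →
          ∑ ij : Fin n × Fin n,
            MvPolynomial.eval
              (fun ij' : Fin n × Fin n => (1 : Matrix (Fin n) (Fin n) k) ij'.1 ij'.2)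
              (MvPolynomial.pderiv ij f) * X ij.1 ij.2 = 0} →
    ∀ (χ : Matrix (Fin n) (Fin n) k →ₗ[k] k) (𝔤χ : Set (Matrix (Fin n) (Fin n) k)),
      𝔤χ = {X : Matrix (Fin n) (Fin n) k | X ∈ 𝔤 ∧ ∀ Y ∈ 𝔤, χ (X * Y - Y * X) = 0} →
    ∀ (M : Type) [AddCommGroup M] [Module k M]
      (ρ : Matrix (Fin n) (Fin n) k →ₗ[k] Module.End k M),
      (∀ X ∈ 𝔤, ∀ Y ∈ 𝔤, ρ (X * Y - Y * X) = ρ X * ρ Y - ρ Y * ρ X) →
      (∀ X ∈ 𝔤, ρ X ^ p - ρ (X ^ p) = (χ X) ^ p • (1 : Module.End k M)) →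
      Nontrivial M →
      (∀ N : Submodule k M, (∀ X ∈ 𝔤, ∀ v ∈ N, ρ X v ∈ N) → N = ⊥ ∨ N = ⊤) →
      p ^ ((Module.finrank k (Submodule.span k 𝔤) - Module.finrank k (Submodule.span k 𝔤χ)) / 2)
        ∣ Module.finrank k M) := by
  intro h
  have h1 := h 2 H546R3.KW.k Nat.prime_two 3 H546R3.KW.S H546R3.KW.g rfl H546R3.KW.chi
    H546R3.KW.gchi rfl H546R3.KW.k H546R3.KW.rho
    (fun X hX Y hY => H546R3.KW.rho_lie hX hY) (fun X hX => H546R3.KW.rho_p hX) inferInstance
    (fun N _ => eq_bot_or_eq_top N)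
  rw [Module.finrank_self] at h1
  have h2 := H546R3.KW.codim
  have h3 : 1 ≤ (Module.finrank H546R3.KW.k (Submodule.span H546R3.KW.k H546R3.KW.g) -
    Module.finrank H546R3.KW.k (Submodule.span H546R3.KW.k H546R3.KW.gchi)) / 2 := by omega
  have h4 := Nat.le_of_dvd one_pos h1
  have h5 : 2 ^ 1 ≤ 2 ^ ((Module.finrank H546R3.KW.k (Submodule.span H546R3.KW.k H546R3.KW.g) -
    Module.finrank H546R3.KW.k (Submodule.span H546R3.KW.k H546R3.KW.gchi)) / 2) :=
    Nat.pow_le_pow_right (by norm_num) h3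
  omega

end Pool.Agent.S03590
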