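import Pool.Statements.S03638
import Pool.Agent.H570R3.Fin

set_option autoImplicit false
open Pool Pool.MP_fe2810_al

namespace Pool.Agent.S03638

/-- The negation of the preceding statement: Every finitely generated residually finite group G whose finite quotients G/N satisfy ∣G/N : (G/N)^n∣ ≤ c·n^d for all n ≥ 1 embeds as a subgroup of GL_m(K) for some field K and some m. -/
theorem result :
    ¬ (∀ (G : Type) [Group G] [Group.FG G],
      (∀ g : G, g ≠ 1 → ∃ N : Subgroup G, N.Normal ∧ N.FiniteIndex ∧ g ∉ N) →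
      (∃ c d : ℕ, ∀ N : Subgroup G, N.Normal → N.FiniteIndex →
        ∀ n : ℕ, 0 < n →
          (N ⊔ Subgroup.closure {x : G | ∃ g : G, g ^ n = x}).index ≤ c * n ^ d) →
      ∃ (K : Type) (_ : Field K) (m : ℕ)
        (ρ : G →* Matrix.GeneralLinearGroup (Fin m) K), Function.Injective ρ) := by
  intro hyp
  obtain ⟨K, _, m, ρ, hρ⟩ := hyp Pool.Agent.H570R3.GG Pool.Agent.H570R3.rf
    ⟨1, 19, by
      intro N _ _ n hn
      obtain ⟨h0, h1⟩ := Pool.Agent.H570R3.AA_index n hn
      have h2 : (N ⊔ Subgroup.closure {x : Pool.Agent.H570R3.GG | ∃ g, g ^ n = x}).index ∣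
          (Pool.Agent.H570R3.AA n : Subgroup Pool.Agent.H570R3.GG).index :=
        Subgroup.index_dvd_of_le le_sup_right
      rw [one_mul]
      exact (Nat.le_of_dvd (Nat.pos_of_ne_zero h0) h2).trans h1⟩
  exact Pool.Agent.H570R3.nonlin K m ρ hρ

end Pool.Agent.S03638
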