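import Pool.Statements.S03650
import Pool.Agent.H926R3.TFG

set_option autoImplicit false
open Pool Pool.MP_feeeae_al

namespace Pool.Agent.S03650

/-- The negation of the preceding statement: If G is the topological full group of a group of homeomorphisms of the Cantor set and G acts highly transitively on a dense invariant set, then every bounded real cocycle of positive degree on G is the coboundary of a bounded cochain. -/
theorem result :
    ¬ (∀ (Γ G : Subgroup ((ℕ → Bool) ≃ₜ (ℕ → Bool))) (S : Set (ℕ → Bool)),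
      (∀ g : (ℕ → Bool) ≃ₜ (ℕ → Bool), g ∈ G ↔
          ∀ x : ℕ → Bool, ∃ U : Set (ℕ → Bool), IsClopen U ∧ x ∈ U ∧
            ∃ γ ∈ Γ, ∀ y ∈ U, g y = γ y) →
      Dense S →
      (∀ g ∈ G, ∀ x ∈ S, g x ∈ S) →
      (∀ (n : ℕ) (a b : Fin n → (ℕ → Bool)), Function.Injective a → Function.Injective b →
          (∀ i, a i ∈ S) → (∀ i, b i ∈ S) → ∃ g ∈ G, ∀ i, g (a i) = b i) →
      ∀ (n : ℕ) (f : (Fin (n + 1) → G) → ℝ), (∃ C : ℝ, ∀ x, |f x| ≤ C) →
        (∀ g : Fin (n + 1 + 1) → G,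
            f (fun i => g i.succ) +
              ∑ j : Fin (n + 1 + 1), (-1 : ℝ) ^ (j.val + 1) *
                f (Fin.contractNth j (fun a b => a * b) g) = 0) →
        ∃ h : (Fin n → G) → ℝ, (∃ C : ℝ, ∀ x, |h x| ≤ C) ∧
          ∀ g : Fin (n + 1) → G,
            h (fun i => g i.succ) +
              ∑ j : Fin (n + 1), (-1 : ℝ) ^ (j.val + 1) *
                h (Fin.contractNth j (fun a b => a * b) g) = f g) := by
  intro H
  have hG : ∀ g : (ℕ → Bool) ≃ₜ (ℕ → Bool), g ∈ H926R3.TFG.G ↔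
      ∀ x : ℕ → Bool, ∃ U : Set (ℕ → Bool), IsClopen U ∧ x ∈ U ∧
        ∃ γ ∈ H926R3.TFG.G, ∀ y ∈ U, g y = γ y := by
    intro g
    constructor
    · intro hg x
      exact ⟨Set.univ, isClopen_univ, Set.mem_univ x, g, hg, fun _ _ => rfl⟩
    · intro h
      obtain ⟨U, hU, hoU, γ, ⟨q, hq, hγ⟩, hgγ⟩ := h H926R3.TFG.o
      refine ⟨q, hq, ?_⟩
      filter_upwards [hγ, hU.isOpen.mem_nhds hoU] with y hy hyU
      rw [hgγ y hyU, hy]
  have hdense : Dense ({H926R3.TFG.o}ᶜ : Set (ℕ → Bool)) := by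
    rw [dense_compl_singleton_iff_not_open]
    intro ho
    have h1 : Filter.Tendsto (fun n : ℕ => (fun i => decide (i = n) : ℕ → Bool)) Filter.atTop
        (nhds H926R3.TFG.o) := by
      rw [tendsto_pi_nhds]
      intro i
      apply tendsto_const_nhds.congr'
      filter_upwards [Filter.eventually_gt_atTop i] with n hn
      simp only [H926R3.TFG.o]
      symm
      rw [decide_eq_false_iff_not]
      omega
    obtain ⟨n, hn⟩ := (h1.eventually (ho.mem_nhds rfl)).exists
    have := congrFun (Set.mem_singleton_iff.1 hn) n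
    simp [H926R3.TFG.o] at this
  have hinv : ∀ g ∈ H926R3.TFG.G, ∀ x ∈ ({H926R3.TFG.o}ᶜ : Set (ℕ → Bool)),
      g x ∈ ({H926R3.TFG.o}ᶜ : Set (ℕ → Bool)) := by
    intro g hg x hx h
    apply hx
    rw [Set.mem_singleton_iff] at h ⊢
    exact g.injective (h.trans (H926R3.TFG.G_o ⟨g, hg⟩).symm)
  let Φ : H926R3.TFG.G → ℝ := fun g => (H926R3.TFG.φ (H926R3.TFG.germ g) : ℝ)
  have hΦ : ∀ a b : H926R3.TFG.G, |Φ (a * b) - Φ a - Φ b| ≤ 1 := by
    intro a b
    have := H926R3.TFG.φ_defect (H926R3.TFG.germ a) (H926R3.TFG.germ b) (H926R3.TFG.germ_mem a)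
    simp only [Φ, H926R3.TFG.germ_mul]
    exact_mod_cast this
  obtain ⟨h, ⟨C, hC⟩, hh⟩ := H H926R3.TFG.G H926R3.TFG.G {H926R3.TFG.o}ᶜ hG hdense hinv
    (fun n a b ha hb ha' hb' => H926R3.TFG.highly_transitive n a b ha hb (fun i => ha' i)
      (fun i => hb' i)) 1 (fun g => Φ (g 1) - Φ (g 0 * g 1) + Φ (g 0))
    ⟨1, fun x => by
      have := hΦ (x 0) (x 1)
      rw [abs_le] at this ⊢
      constructor <;> linarith [this.1, this.2]⟩
    (fun g => by
      simp only [Fin.sum_univ_succ, Fin.contractNth, Fin.sum_univ_zero]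
      simp
      simp only [mul_assoc]
      ring)
  let η : H926R3.TFG.G → ℝ := fun a => h (fun _ => a)
  have hη : ∀ a b : H926R3.TFG.G, η b - η (a * b) + η a = Φ b - Φ (a * b) + Φ a := by
    intro a b
    have h0 := hh ![a, b]
    have e1 : (fun i : Fin 1 => (![a, b] : Fin 2 → H926R3.TFG.G) i.succ) = fun _ => b := by
      funext i
      fin_cases i
      rfl
    have e2 : (Fin.contractNth (0 : Fin 2) (fun a b => a * b) (![a, b] : Fin 2 → H926R3.TFG.G)) =
        fun _ => a * b := by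
      funext i
      fin_cases i
      simp [Fin.contractNth]
    have e3 : (Fin.contractNth (1 : Fin 2) (fun a b => a * b) (![a, b] : Fin 2 → H926R3.TFG.G)) =
        fun _ => a := by
      funext i
      fin_cases i
      simp [Fin.contractNth]
    rw [Fin.sum_univ_two, e1, e2, e3] at h0
    simp at h0
    simp only [η, Φ]
    linarith
  refine H926R3.TFG.no_hom (fun q => Φ (H926R3.TFG.sec q) - η (H926R3.TFG.sec q)) ?_ C ?_
  · intro p q
    have := hη (H926R3.TFG.sec p) (H926R3.TFG.sec q)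
    rw [← H926R3.TFG.sec_mul] at this
    linarith
  · intro q
    have h1 : Φ (H926R3.TFG.sec q) = (H926R3.TFG.φ q : ℝ) := by
      simp only [Φ, H926R3.TFG.germ_sec]
    rw [h1]
    have h2 := hC (fun _ => H926R3.TFG.sec q)
    have h3 : (H926R3.TFG.φ q : ℝ) - η (H926R3.TFG.sec q) - (H926R3.TFG.φ q : ℝ) =
        -η (H926R3.TFG.sec q) := by ring
    rw [h3, abs_neg]
    exact h2

end Pool.Agent.S03650
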