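import Pool.Statements.S03682
import Pool.Agent.H809R3.B4

set_option autoImplicit false
open Pool Pool.MP_0252b9_an

namespace Pool.Agent.S03682

/-- The negation of the preceding statement: For every analytic f on the disc with f+conj(q0) bounded for some analytic q0 (i.e. f in BMOA), some analytic q attains the least sup M of ∣f+conj q∣ over the disc and ∣f+conj q∣ has radial limit M at a.e. boundary point. -/
theorem result :
    ¬ (∀ f : ℂ → ℂ, DifferentiableOn ℂ f (Metric.ball 0 1) →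
      (∃ q₀ : ℂ → ℂ, DifferentiableOn ℂ q₀ (Metric.ball 0 1) ∧
        ∃ C : ℝ, ∀ z ∈ Metric.ball (0 : ℂ) 1, ‖f z + starRingEnd ℂ (q₀ z)‖ ≤ C) →
      ∃ q : ℂ → ℂ, DifferentiableOn ℂ q (Metric.ball 0 1) ∧ ∃ M : ℝ,
        (∀ z ∈ Metric.ball (0 : ℂ) 1, ‖f z + starRingEnd ℂ (q z)‖ ≤ M) ∧
        (∀ q' : ℂ → ℂ, DifferentiableOn ℂ q' (Metric.ball 0 1) → ∀ M' : ℝ,
          (∀ z ∈ Metric.ball (0 : ℂ) 1, ‖f z + starRingEnd ℂ (q' z)‖ ≤ M') → M ≤ M') ∧
        ∀ᵐ θ : ℝ, Filter.Tendsto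
          (fun r : ℝ => ‖f ((r : ℂ) * Complex.exp ((θ : ℂ) * Complex.I)) +
            starRingEnd ℂ (q ((r : ℂ) * Complex.exp ((θ : ℂ) * Complex.I)))‖)
          (nhdsWithin 1 (Set.Iio 1)) (nhds M)) := by
  open H809R3.B in
  intro H
  have hm := psi_meas
  have hb := psi_le
  have hm' : Measurable fun z => starRingEnd ℂ (psi z) := Complex.continuous_conj.measurable.comp hm
  have hb' : ∀ z, ‖starRingEnd ℂ (psi z)‖ ≤ 1 := fun z => by rw [RCLike.norm_conj]; exact hb z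
  have hfd := fA_diff hm hb
  have hqd := fA_diff hm' hb'
  have hsplit : ∀ z ∈ Metric.ball (0:ℂ) 1,
      fA psi z + starRingEnd ℂ (fA (fun z => starRingEnd ℂ (psi z)) z) = Ph psi z := fun z hz =>
    split hm hb (mem_ball_zero_iff.1 hz)
  have hPh : ∀ z ∈ Metric.ball (0:ℂ) 1, ‖Ph psi z‖ ≤ 1 := fun z hz =>
    Ph_le hm hb (mem_ball_zero_iff.1 hz)
  obtain ⟨q, hq, M, hM1, hM2, hM3⟩ := H (fA psi) hfd
    ⟨fA (fun z => starRingEnd ℂ (psi z)), hqd, 1, fun z hz => by rw [hsplit z hz]; exact hPh z hz⟩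
  have hMle : M ≤ 1 := hM2 _ hqd 1 (fun z hz => by rw [hsplit z hz]; exact hPh z hz)
  have hkd : DifferentiableOn ℂ (fun z => fA (fun z => starRingEnd ℂ (psi z)) z - q z)
      (Metric.ball 0 1) := hqd.sub hq
  have heq : ∀ w ∈ Metric.ball (0:ℂ) 1,
      Ph psi w - starRingEnd ℂ (fA (fun z => starRingEnd ℂ (psi z)) w - q w) =
        fA psi w + starRingEnd ℂ (q w) := by
    intro w hw
    rw [← hsplit w hw, map_sub]
    ring
  have hdist : ∀ w ∈ Metric.ball (0:ℂ) 1,
      ‖Ph psi w - starRingEnd ℂ (fA (fun z => starRingEnd ℂ (psi z)) w - q w)‖ ≤ 1 := by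
    intro w hw
    rw [heq w hw]
    exact (hM1 w hw).trans hMle
  have hkb : ∀ w ∈ Metric.ball (0:ℂ) 1, ‖fA (fun z => starRingEnd ℂ (psi z)) w - q w‖ ≤ 2 := by
    intro w hw
    rw [← RCLike.norm_conj]
    have e : starRingEnd ℂ (fA (fun z => starRingEnd ℂ (psi z)) w - q w) =
        Ph psi w - (Ph psi w - starRingEnd ℂ (fA (fun z => starRingEnd ℂ (psi z)) w - q w)) := by
      ring
    rw [e]
    refine (norm_sub_le _ _).trans ?_
    have h1 := hdist w hw
    have h2 := hPh w hw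
    linarith
  have hk0 := k_zero hkd hkb hdist
  have hPq : ∀ w ∈ Metric.ball (0:ℂ) 1, fA psi w + starRingEnd ℂ (q w) = Ph psi w := by
    intro w hw
    rw [← heq w hw, hk0 w hw]
    simp
  have hdense := MeasureTheory.Measure.dense_of_ae hM3
  have hval : ∀ θ : ℝ, Filter.Tendsto
          (fun r : ℝ => ‖fA psi ((r : ℂ) * Complex.exp ((θ : ℂ) * Complex.I)) +
            starRingEnd ℂ (q ((r : ℂ) * Complex.exp ((θ : ℂ) * Complex.I)))‖)
          (nhdsWithin 1 (Set.Iio 1)) (nhds M) → ContinuousAt psi (zt θ) → M = ‖psi (zt θ)‖ := by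
    intro θ h1 h2
    have h3 := (Ph_tendsto hm hb θ h2).norm
    refine tendsto_nhds_unique_of_eventuallyEq h1 h3 ?_
    have ht1 : Filter.Tendsto (fun s : ℝ => s) (nhdsWithin 1 (Set.Iio 1)) (nhds 1) :=
      Filter.tendsto_id.mono_left nhdsWithin_le_nhds
    filter_upwards [ht1.eventually_const_lt (show (0:ℝ) < 1 by norm_num), self_mem_nhdsWithin]
      with r hr1 hr2
    have hr2' : r < 1 := hr2
    have := hPq _ (mem_b hr1 hr2' θ)
    unfold zt at this
    rw [this]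
    rfl
  have hA : M = 1 := by
    obtain ⟨θ, hθ, h1⟩ := hdense.inter_open_nonempty (Set.Ioo 0 (Real.pi / 2)) isOpen_Ioo
      ⟨Real.pi / 4, by constructor <;> linarith [Real.pi_pos]⟩
    have hre : 0 < (zt θ).re := by
      rw [zt_re]; exact Real.cos_pos_of_mem_Ioo ⟨by linarith [hθ.1, Real.pi_pos], hθ.2⟩
    have hne : zt θ ≠ 1 := by
      intro h
      have h2 := congrArg Complex.im h
      rw [zt_im] at h2
      have := Real.sin_pos_of_pos_of_lt_pi hθ.1 (by linarith [hθ.2, Real.pi_pos])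
      rw [h2] at this
      simp at this
    rw [hval θ h1 (psi_cont_pos hre hne), psi_norm_one hre hne]
  have hB : M = 0 := by
    obtain ⟨θ, hθ, h1⟩ := hdense.inter_open_nonempty (Set.Ioo (Real.pi / 2) Real.pi) isOpen_Ioo
      ⟨3 * Real.pi / 4, by constructor <;> linarith [Real.pi_pos]⟩
    have hre : (zt θ).re < 0 := by
      rw [zt_re]
      exact Real.cos_neg_of_pi_div_two_lt_of_lt hθ.1 (by linarith [hθ.2, Real.pi_pos])
    rw [hval θ h1 (psi_cont_neg hre)]
    unfold psi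
    rw [if_neg (by rintro ⟨h, -⟩; linarith), norm_zero]
  rw [hA] at hB
  exact one_ne_zero hB

end Pool.Agent.S03682
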