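import Pool.Statements.S03690
import Pool.Agent.H117R3.NullSys.System

set_option autoImplicit false
open Filter
open Pool Pool.MP_0396c7_an

namespace Pool.Agent.S03690

open Pool.Agent.H117R3.NullSys in
/-- if the orbit of a dense point comes arbitrarily close to two fixed points then mean
equicontinuity fails -/
theorem not_meq (inst : MetricSpace XX) (c0 c1 : XX) (h01 : c0 ≠ c1) (hc0 : TT c0 = c0)
    (hc1 : TT c1 = c1) (hdense : ∀ c : XX, ∀ δ : ℝ, 0 < δ → ∃ k, dist c (orbX k) < δ)
    (h : ∀ ε : ℝ, 0 < ε → ∃ δ : ℝ, 0 < δ ∧ ∀ x y : XX, dist x y < δ →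
        ∀ᶠ n in atTop,
          (∑ i ∈ Finset.range n, dist (TT^[i] x) (TT^[i] y)) / (n : ℝ) < ε) : False := by
  set d := dist c0 c1 with hd
  have hdpos : 0 < d := dist_pos.mpr h01
  obtain ⟨δ, hδ, hδ'⟩ := h (d / 4) (by positivity)
  obtain ⟨k0, hk0⟩ := hdense c0 δ hδ
  obtain ⟨k1, hk1⟩ := hdense c1 δ hδ
  have hit0 : ∀ n, TT^[n] c0 = c0 := fun n => Function.iterate_fixed hc0 n
  have hit1 : ∀ n, TT^[n] c1 = c1 := fun n => Function.iterate_fixed hc1 n
  have e0 := hδ' _ _ hk0
  have e1 := hδ' _ _ hk1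
  simp only [hit0, hit1, TT_iter_orbX] at e0 e1
  -- sums from a common starting point
  set k := max k0 k1 with hk
  have key : ∀ (c : XX) (b : ℕ), b ≤ k →
      (∀ᶠ n : ℕ in atTop, (∑ i ∈ Finset.range n, dist c (orbX (b + i))) / (n : ℝ) < d / 4) →
      ∀ᶠ n : ℕ in atTop, ∑ i ∈ Finset.range n, dist c (orbX (k + i)) < (d / 4) * (n + k) := by
    intro c b hb hev
    have h1 : Tendsto (fun n : ℕ => n + (k - b)) atTop atTop := tendsto_add_atTop_nat _
    filter_upwards [h1.eventually hev, eventually_ge_atTop 1] with n hn hn1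
    have hpos : (0 : ℝ) < ((n + (k - b) : ℕ) : ℝ) := by
      have : 0 < n + (k - b) := by omega
      exact_mod_cast this
    rw [div_lt_iff₀ hpos] at hn
    have h2 : ∑ i ∈ Finset.range n, dist c (orbX (k + i))
        ≤ ∑ i ∈ Finset.range (n + (k - b)), dist c (orbX (b + i)) := by
      rw [add_comm n, Finset.sum_range_add (fun i => dist c (orbX (b + i)))]
      have h3 : ∀ i, b + (k - b + i) = k + i := fun i => by omega
      simp only [h3]
      have h4 : 0 ≤ ∑ i ∈ Finset.range (k - b), dist c (orbX (b + i)) :=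
        Finset.sum_nonneg fun _ _ => dist_nonneg
      linarith
    have h5 : (((n + (k - b) : ℕ) : ℝ)) ≤ n + k := by
      have : n + (k - b) ≤ n + k := by omega
      exact_mod_cast this
    calc ∑ i ∈ Finset.range n, dist c (orbX (k + i))
        ≤ ∑ i ∈ Finset.range (n + (k - b)), dist c (orbX (b + i)) := h2
      _ < d / 4 * ((n + (k - b) : ℕ) : ℝ) := hn
      _ ≤ d / 4 * (n + k) := by gcongr
  have f0 := key c0 k0 (le_max_left _ _) e0
  have f1 := key c1 k1 (le_max_right _ _) e1
  obtain ⟨n, ⟨hn0, hn1⟩, hnk⟩ := ((f0.and f1).and (eventually_ge_atTop (k + 1))).exists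
  have h6 : (n : ℝ) * d ≤ ∑ i ∈ Finset.range n, dist c0 (orbX (k + i))
      + ∑ i ∈ Finset.range n, dist c1 (orbX (k + i)) := by
    rw [← Finset.sum_add_distrib]
    have h7 : ∑ _i ∈ Finset.range n, d ≤ ∑ i ∈ Finset.range n,
        (dist c0 (orbX (k + i)) + dist c1 (orbX (k + i))) := by
      refine Finset.sum_le_sum fun i _ => ?_
      rw [dist_comm c1]
      exact dist_triangle _ _ _
    simpa using h7
  have h8 : ((k : ℝ) + 1) ≤ n := by exact_mod_cast hnk
  nlinarith

open Pool.Agent.H117R3.NullSys in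
/-- The negation of the preceding statement: Every continuous self-map of a compact metric space that is topologically transitive and has zero sequence entropy along every increasing sequence is mean equicontinuous: nearby points have uniformly small limsup of average orbit distance. -/
theorem result :
    ¬ (∀ (X : Type) [MetricSpace X] [CompactSpace X] (T : X → X), Continuous T →
      (∀ U V : Set X, IsOpen U → IsOpen V → U.Nonempty → V.Nonempty →
        ∃ n : ℕ, 1 ≤ n ∧ (V ∩ T^[n] ⁻¹' U).Nonempty) →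
      (∀ a : ℕ → ℕ, StrictMono a → ∀ ε : ℝ, 0 < ε → ∀ δ : ℝ, 0 < δ →
        ∀ᶠ n in atTop, ∀ F : Finset X,
          (∀ x ∈ F, ∀ y ∈ F, x ≠ y → ∃ i < n, ε ≤ dist (T^[a i] x) (T^[a i] y)) →
          (F.card : ℝ) ≤ Real.exp (δ * n)) →
      ∀ ε : ℝ, 0 < ε → ∃ δ : ℝ, 0 < δ ∧ ∀ x y : X, dist x y < δ →
        ∀ᶠ n in atTop,
          (∑ i ∈ Finset.range n, dist (T^[i] x) (T^[i] y)) / (n : ℝ) < ε) := by
  intro h
  letI inst : MetricSpace XX := UniformSpace.metricSpace XX
  haveI : CompactSpace XX := isCompact_iff_compactSpace.mp isCompact_XX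
  have hh := h XX TT continuous_TT transitive_aux
    (fun a _ ε hε δ hδ => null_aux inst rfl a ε hε δ hδ)
  refine not_meq inst ⟨_, zero_mem⟩ ⟨_, one_mem⟩ ?_ rfl rfl
    (fun c δ hδ => dense_orbX.exists_dist_lt c hδ) hh
  intro heq
  have h1 := congrArg (fun z : XX => ((z.1 0 : Set.Icc (0 : ℝ) 1) : ℝ)) heq
  simp at h1

end Pool.Agent.S03690
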