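import Pool.Statements.S03700
import Pool.Agent.H870R4.Noz.Stmts
import Pool.Agent.H399R6.HJ1
import Pool.Agent.H721R3.Noz.HJ2
import Pool.Agent.H817R4.Noz.HJ3
import Pool.Agent.H683R3.Noz.TaskLoc
import Pool.Agent.H023R3.Noz.CV
import Pool.Agent.H454R3.Noz.Mass
import Pool.Agent.H920R3.Noz.Prof
import Pool.Agent.H99R3.Noz.CE
import Pool.Agent.H775R3.Noz.TaskAdm
import Pool.Agent.H377R4.Noz.Pi
import Pool.Agent.H511R3.Noz.Cut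
import Pool.Agent.H133R3.Noz.Pres
import Pool.Agent.H65R3.Noz.Inv
import Pool.Agent.H883B.NozCurve
import Pool.Agent.H344R3.Noz.Glue
import Pool.Agent.H827R3.Noz.Sm
import Pool.Agent.H5R3.NozCollar
import Pool.Agent.H886R3.TaskGeoC
import Pool.Agent.H970R3.Noz.Near
import Pool.Agent.H863R4.Noz.Trans
import Pool.Agent.H9R4.Noz.Kin
import Pool.Agent.H227R3.Noz.Core
import Pool.Agent.H870R4.Noz.Fin1
import Pool.Agent.H870R4.Noz.Fin2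
import Pool.Agent.H870R4.Noz.Fin3

set_option autoImplicit false
open MeasureTheory
open Pool Pool.MP_03ede7_an

namespace Pool.Agent.S03700

/-- The negation of the preceding statement: For every bounded open domain, horizon, C¹ payoff and initial density ≤1, every classical solution of the density-constrained MFG system gives a pair (ρ, ∇φ−∇p) whose cost J is ≤ that of every admissible competitor of the variational problem. -/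
theorem result :
    ¬ (∀ (d : ℕ), 1 ≤ d →
  ∀ (Ω : Set (EuclideanSpace ℝ (Fin d))), IsOpen Ω → Bornology.IsBounded Ω →
  ∀ (T : ℝ), 0 < T →
  ∀ (Φ : EuclideanSpace ℝ (Fin d) → ℝ), ContDiffOn ℝ 1 Φ (closure Ω) →
  ∀ (ρ₀ : EuclideanSpace ℝ (Fin d) → ℝ), IntegrableOn ρ₀ Ω → (∫ x in Ω, ρ₀ x) = 1 →
    (∀ᵐ x ∂(volume.restrict Ω), 0 ≤ ρ₀ x ∧ ρ₀ x ≤ 1) →
  ∀ (Adm : (ℝ → EuclideanSpace ℝ (Fin d) → ℝ) →
      (ℝ → EuclideanSpace ℝ (Fin d) → EuclideanSpace ℝ (Fin d)) → Prop),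
    (∀ ρ v, Adm ρ v ↔
      (AEMeasurable (Function.uncurry ρ) (volume.restrict (Set.Ioo 0 T ×ˢ Ω)) ∧
       AEMeasurable (Function.uncurry v) (volume.restrict (Set.Ioo 0 T ×ˢ Ω)) ∧
       (∀ t ∈ Set.Icc 0 T, IntegrableOn (ρ t) Ω ∧ (∫ x in Ω, ρ t x) = 1 ∧
          ∀ᵐ x ∂(volume.restrict Ω), 0 ≤ ρ t x ∧ ρ t x ≤ 1) ∧
       (∫⁻ z in Set.Ioo 0 T ×ˢ Ω, ENNReal.ofReal (‖v z.1 z.2‖ ^ 2 * ρ z.1 z.2)) < ⊤ ∧
       (∀ᵐ x ∂(volume.restrict Ω), ρ 0 x = ρ₀ x) ∧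
       (∀ ψ : EuclideanSpace ℝ (Fin d) → ℝ, ContDiffOn ℝ 1 ψ (closure Ω) →
          (∃ K : NNReal, LipschitzOnWith K (fun t => ∫ x in Ω, ψ x * ρ t x) (Set.Icc 0 T)) ∧
          ∀ᵐ t ∂(volume.restrict (Set.Ioo 0 T)),
            HasDerivAt (fun s => ∫ x in Ω, ψ x * ρ s x)
              (∫ x in Ω, inner ℝ (gradient ψ x) (v t x) * ρ t x) t))) →
  ∀ (J : (ℝ → EuclideanSpace ℝ (Fin d) → ℝ) →
      (ℝ → EuclideanSpace ℝ (Fin d) → EuclideanSpace ℝ (Fin d)) → ℝ),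
    (∀ ρ v, J ρ v =
      (∫⁻ z in Set.Ioo 0 T ×ˢ Ω, ENNReal.ofReal (‖v z.1 z.2‖ ^ 2 / 2 * ρ z.1 z.2)).toReal
        - ∫ x in Ω, Φ x * ρ T x) →
  ∀ (φ p : ℝ × EuclideanSpace ℝ (Fin d) → ℝ) (ρ : ℝ → EuclideanSpace ℝ (Fin d) → ℝ),
    ContDiffOn ℝ 1 φ (Set.Icc 0 T ×ˢ closure Ω) →
    ContDiffOn ℝ 1 p (Set.Icc 0 T ×ˢ closure Ω) →
    (∀ t ∈ Set.Ioo 0 T, ∀ x ∈ Ω,
      deriv (fun s => φ (s, x)) t + ‖gradient (fun y => φ (t, y)) x‖ ^ 2 / 2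
        = inner ℝ (gradient (fun y => φ (t, y)) x) (gradient (fun y => p (t, y)) x)) →
    (∀ x ∈ closure Ω, φ (T, x) = Φ x) →
    Adm ρ (fun t x => gradient (fun y => φ (t, y)) x - gradient (fun y => p (t, y)) x) →
    (∀ z ∈ Set.Icc 0 T ×ˢ closure Ω, 0 ≤ p z) →
    (∀ᵐ z ∂(volume.restrict (Set.Ioo 0 T ×ˢ Ω)), p z * (1 - ρ z.1 z.2) = 0) →
    ∀ (ρ' : ℝ → EuclideanSpace ℝ (Fin d) → ℝ)
      (v' : ℝ → EuclideanSpace ℝ (Fin d) → EuclideanSpace ℝ (Fin d)),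
      Adm ρ' v' →
      J ρ (fun t x => gradient (fun y => φ (t, y)) x - gradient (fun y => p (t, y)) x)
        ≤ J ρ' v') :=
  H870N.frozen (Pool.Agent.H817R4.Noz.taskHJ3 H399R6.HJ1.taskHJ1 H870N.taskHJ2)
    Pool.Agent.H683R3.Noz.taskLoc Pool.Agent.H377R4.Noz.taskPi H870N.taskCut H870N.PresH133.taskPres
    (H870N.taskTrans Pool.Agent.H970R3.Noz.taskNear
      (Pool.Agent.H886R3.Noz.taskGeoC H870N.taskInv H870N.taskCurve H870N.taskGlue H227Noz.core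
        Pool.Agent.H827R3.Noz.taskSm Pool.Agent.H5R3.NozCollar.collar))
    H454R3.Noz.taskMass H870N.taskAdm H870N.K9.kin Pool.Agent.H023R3.Noz.taskCV H870N.Prof.taskProf
    Pool.Agent.H99R3.Noz.taskCE

end Pool.Agent.S03700
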