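import Pool.Statements.S03708
import Pool.Agent.H326R3.T3

set_option autoImplicit false
open Pool Pool.MP_04e188_an

namespace Pool.Agent.S03708

/-- The negation of the preceding statement: Every smooth irreducible positive-dimensional complex affine variety in C^n whose overshear fields generate all algebraic vector fields has a holomorphic automorphism moving each compact holomorphically convex proper subset off itself with convex union. -/
theorem result :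
    ¬ (∀ (n : ℕ) (I : Ideal (MvPolynomial (Fin n) ℂ)),
      I.IsPrime → ¬ I.IsMaximal →
      Algebra.Smooth ℂ (MvPolynomial (Fin n) ℂ ⧸ I) →
      LieSubalgebra.lieSpan ℂ
          (Derivation ℂ (MvPolynomial (Fin n) ℂ ⧸ I) (MvPolynomial (Fin n) ℂ ⧸ I))
          {V | ∃ Θ : Derivation ℂ (MvPolynomial (Fin n) ℂ ⧸ I) (MvPolynomial (Fin n) ℂ ⧸ I),
              (∀ g : MvPolynomial (Fin n) ℂ ⧸ I, ∃ k : ℕ, (⇑Θ)^[k] g = 0) ∧
              ∃ f : MvPolynomial (Fin n) ℂ ⧸ I, Θ (Θ f) = 0 ∧ V = f • Θ} = ⊤ →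
      ∃ F G : (Fin n → ℂ) → (Fin n → ℂ),
        Differentiable ℂ F ∧ Differentiable ℂ G ∧
        (∀ x : Fin n → ℂ, (∀ p ∈ I, MvPolynomial.eval x p = 0) →
          (∀ p ∈ I, MvPolynomial.eval (F x) p = 0) ∧
          (∀ p ∈ I, MvPolynomial.eval (G x) p = 0) ∧
          G (F x) = x ∧ F (G x) = x) ∧
        ∀ K : Set (Fin n → ℂ),
          K ⊆ {x | ∀ p ∈ I, MvPolynomial.eval x p = 0} →
          IsCompact K →
          K ≠ {x | ∀ p ∈ I, MvPolynomial.eval x p = 0} →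
          (∀ x : Fin n → ℂ, (∀ p ∈ I, MvPolynomial.eval x p = 0) →
            (∀ f : (Fin n → ℂ) → ℂ, Differentiable ℂ f →
              ∀ c : ℝ, (∀ y ∈ K, ‖f y‖ ≤ c) → ‖f x‖ ≤ c) → x ∈ K) →
          ∃ m : ℕ, (F^[m] '' K) ∩ K = ∅ ∧
            ∀ x : Fin n → ℂ, (∀ p ∈ I, MvPolynomial.eval x p = 0) →
              (∀ f : (Fin n → ℂ) → ℂ, Differentiable ℂ f →
                ∀ c : ℝ, (∀ y ∈ (F^[m] '' K) ∪ K, ‖f y‖ ≤ c) → ‖f x‖ ≤ c) →
              x ∈ (F^[m] '' K) ∪ K) := by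
  intro H
  obtain ⟨F, G, hF, hG, hX, hK⟩ := H 3 Pool.Agent.H326R3.Quad.I Pool.Agent.H326R3.Quad.isPrime_I
    Pool.Agent.H326R3.Quad.not_isMaximal_I Pool.Agent.H326R3.Quad.smooth_A
    Pool.Agent.H326R3.Quad.L_top
  have hz := Pool.Agent.H326R3.Quad.mem_zero_iff
  have hX' : ∀ x : Fin 3 → ℂ, x 0 * x 1 = x 2 ^ 2 - 1 →
      F x 0 * F x 1 = F x 2 ^ 2 - 1 ∧ G x 0 * G x 1 = G x 2 ^ 2 - 1 ∧ G (F x) = x := by
    intro x hx
    obtain ⟨h1, h2, h3, -⟩ := hX x ((hz x).2 hx)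
    exact ⟨(hz _).1 h1, (hz _).1 h2, h3⟩
  have hsub : Set.range Pool.Agent.H326R3.Topo.io ⊆
      {x | ∀ p ∈ Pool.Agent.H326R3.Quad.I, MvPolynomial.eval x p = 0} := by
    rintro _ ⟨s, rfl⟩
    exact (hz _).2 (Pool.Agent.H326R3.Topo.io_eq s)
  obtain ⟨m, hm, -⟩ := hK (Set.range Pool.Agent.H326R3.Topo.io) hsub
    (isCompact_range Pool.Agent.H326R3.Topo.cont_io) (by
      intro heq
      have h1 : (![5, 0, 1] : Fin 3 → ℂ) ∈
          {x | ∀ p ∈ Pool.Agent.H326R3.Quad.I, MvPolynomial.eval x p = 0} :=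
        (hz _).2 (by simp)
      rw [← heq] at h1
      obtain ⟨s, hs⟩ := h1
      have e0 := congrArg Complex.re (congrFun hs 0)
      have e1 := congrArg Complex.re (congrFun hs 1)
      simp [Pool.Agent.H326R3.Topo.io] at e0 e1
      rw [e1] at e0
      norm_num at e0)
    (fun x hx hf => Pool.Agent.H326R3.Topo.convex_io x ((hz x).1 hx) hf)
  have hFm : ∀ (k : ℕ) (x : Fin 3 → ℂ), x 0 * x 1 = x 2 ^ 2 - 1 →
      F^[k] x 0 * F^[k] x 1 = F^[k] x 2 ^ 2 - 1 := by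
    intro k
    induction k with
    | zero => intro x hx; exact hx
    | succ k ih => intro x hx; rw [Function.iterate_succ_apply]; exact ih _ (hX' x hx).1
  have hGm : ∀ (k : ℕ) (x : Fin 3 → ℂ), x 0 * x 1 = x 2 ^ 2 - 1 →
      G^[k] x 0 * G^[k] x 1 = G^[k] x 2 ^ 2 - 1 := by
    intro k
    induction k with
    | zero => intro x hx; exact hx
    | succ k ih => intro x hx; rw [Function.iterate_succ_apply]; exact ih _ (hX' x hx).2.1
  have hGF : ∀ (k : ℕ) (x : Fin 3 → ℂ), x 0 * x 1 = x 2 ^ 2 - 1 → G^[k] (F^[k] x) = x := by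
    intro k
    induction k with
    | zero => intro x hx; rfl
    | succ k ih =>
      intro x hx
      rw [Function.iterate_succ_apply' F, Function.iterate_succ_apply, (hX' _ (hFm k x hx)).2.2,
        ih x hx]
  have hFc : Continuous F^[m] := hF.continuous.iterate m
  have hGc : Continuous G^[m] := hG.continuous.iterate m
  obtain ⟨s, hs⟩ := Pool.Agent.H326R3.Topo.no_move
    (fun s => F^[m] (Pool.Agent.H326R3.Topo.io s)) (G^[m])
    (hFc.comp Pool.Agent.H326R3.Topo.cont_io) hGc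
    (fun s => hFm m _ (Pool.Agent.H326R3.Topo.io_eq s)) (hGm m)
    (fun s => hGF m _ (Pool.Agent.H326R3.Topo.io_eq s))
  have hmem : F^[m] (Pool.Agent.H326R3.Topo.io s) ∈
      (F^[m] '' Set.range Pool.Agent.H326R3.Topo.io) ∩ Set.range Pool.Agent.H326R3.Topo.io :=
    ⟨⟨_, ⟨s, rfl⟩, rfl⟩, hs⟩
  rw [hm] at hmem
  exact hmem

end Pool.Agent.S03708
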