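import Pool.Statements.S03716
import Pool.Agent.H270R3.BRMain

set_option autoImplicit false
open Pool Pool.MP_05b6ce_an

namespace Pool.Agent.S03716

/-- The negation of the preceding statement: For a Pythagorean pair (b,a) given by Taylor coefficients, with phi=b/a: if f is in H^2 and the convergent series sums c_m=Σ conj(phi_n) f_{m+n} are square-summable, then sup over g in H^2 of ‖f+bg‖²−‖g‖² equals Σ∣f_m∣²+Σ∣c_m∣². -/
theorem result :
    ¬ (∀ (a b φ : ℕ → ℂ),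
    (∀ g : ℕ → ℂ, Summable (fun n => ‖g n‖ ^ 2) →
      Summable (fun n => ‖∑ k ∈ Finset.range (n+1), a k * g (n-k)‖ ^ 2) ∧
      Summable (fun n => ‖∑ k ∈ Finset.range (n+1), b k * g (n-k)‖ ^ 2) ∧
      (∑' n, ‖∑ k ∈ Finset.range (n+1), a k * g (n-k)‖ ^ 2) +
        (∑' n, ‖∑ k ∈ Finset.range (n+1), b k * g (n-k)‖ ^ 2) = ∑' n, ‖g n‖ ^ 2) →
    (∀ g : ℕ → ℂ, Summable (fun n => ‖g n‖ ^ 2) →
      (∀ j : ℕ, ∑' n, a n * starRingEnd ℂ (g (n + j)) = 0) → g = 0) →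
    0 < (a 0).re → (a 0).im = 0 →
    (∀ n, ∑ k ∈ Finset.range (n+1), a k * φ (n-k) = b n) →
    ∀ f c : ℕ → ℂ, Summable (fun n => ‖f n‖ ^ 2) →
      (∀ m, Filter.Tendsto (fun N => ∑ n ∈ Finset.range N, starRingEnd ℂ (φ n) * f (m+n))
        Filter.atTop (nhds (c m))) →
      Summable (fun m => ‖c m‖ ^ 2) →
      IsLUB {x : ℝ | ∃ g : ℕ → ℂ, Summable (fun n => ‖g n‖ ^ 2) ∧
          x = (∑' n, ‖f n + ∑ k ∈ Finset.range (n+1), b k * g (n-k)‖ ^ 2) - ∑' n, ‖g n‖ ^ 2}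
        ((∑' m, ‖f m‖ ^ 2) + ∑' m, ‖c m‖ ^ 2)) := by
  intro h
  obtain ⟨p, hp, h1, h2⟩ := Pool.Agent.H270R3.BR.exists_p
  have h3 := h (fun n => p.fst n) (fun n => p.snd n) Pool.Agent.H270R3.BR.phi
    (fun g hg => Pool.Agent.H270R3.BR.pythagorean hp g hg)
    (fun g hg hj => Pool.Agent.H270R3.BR.outer hp g hg hj) h1 h2
    (fun n => (Pool.Agent.H270R3.BR.mem_G _ p).1 hp.mem n)
    Pool.Agent.H270R3.BR.ff (fun _ => 0) Pool.Agent.H270R3.BR.ff_summable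
    Pool.Agent.H270R3.BR.ff_c (by simpa using summable_zero)
  exact Pool.Agent.H270R3.BR.not_lub hp h3

end Pool.Agent.S03716
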