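import Pool.Statements.S03741
import Pool.Agent.H885R3.SF_LL
import Pool.Agent.H676R4.SF_AA
import Pool.Agent.helper128R3.SF_AL
import Pool.Agent.H214R3.SF_Mul
import Pool.Agent.H170.SF_Mat
import Pool.Agent.H412R3.SF_U1
import Pool.Agent.H416R3.SF_U2
import Pool.Agent.H558R3.SF_Uniq
import Pool.Agent.H227R3.SF_Alg
import Pool.Agent.H992R3.SF.Pos
import Pool.Agent.H455R3.SF_Lim
import Pool.Agent.H237R3.SF_In
import Pool.Agent.H73W.SF.Out
import Pool.Agent.H722R5.SF_Young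
import Pool.Agent.H449R3.SfPosL
import Pool.Agent.H3R3.SF_L2
import Pool.Agent.H466R3.SF_Sm
import Pool.Agent.H830R3.SF.ExL
import Pool.Agent.H269R3.SF_LP
import Pool.Agent.H271R3.SF_BP
import Pool.Agent.H460U3.SF_Ops
import Pool.Agent.H154R5.SF_Bohr
import Pool.Agent.H689R3.SF_A2
import Pool.Agent.H798R3.SF_APt
import Pool.Agent.H291R3.SF_APf
import Pool.Agent.H197R3.SF.Fin

set_option autoImplicit false
open Matrix
open Pool Pool.MP_090951_an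

namespace Pool.Agent.S03741

/-- A Hermitian PSD matrix density whose entries are exponentially weighted two-sided integrable parts plus arbitrary-delay impulse sums, with det bounded below by δ>0, factors as R*R with R and R⁻¹ entrywise causal and exponentially stable. -/
theorem result :
    ∀ (n : ℕ) (F : ℝ → Matrix (Fin n) (Fin n) ℂ),
      (∀ i j : Fin n, ∃ σ : ℝ, 0 < σ ∧ ∃ (fa : ℝ → ℂ) (c : ℕ → ℂ) (τ : ℕ → ℝ),
          MeasureTheory.Integrable (fun t : ℝ => fa t * ((Real.exp (σ * |t|) : ℝ) : ℂ)) ∧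
          Summable (fun k : ℕ => ‖c k‖ * Real.exp (σ * |τ k|)) ∧
          ∀ ω : ℝ, F ω i j =
            (∫ t : ℝ, fa t * Complex.exp (-((ω : ℂ) * (t : ℂ) * Complex.I))) +
              ∑' k : ℕ, c k * Complex.exp (-((ω : ℂ) * ((τ k : ℝ) : ℂ) * Complex.I))) →
      (∀ ω : ℝ, (F ω).IsHermitian ∧
          ∀ x : Fin n → ℂ, 0 ≤ (dotProduct (star x) ((F ω).mulVec x)).re) →
      (∃ δ : ℝ, 0 < δ ∧ ∀ ω : ℝ, δ ≤ ((F ω).det).re) →
      ∃ R : ℝ → Matrix (Fin n) (Fin n) ℂ,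
        (∀ ω : ℝ, IsUnit (R ω)) ∧
        (∀ ω : ℝ, F ω = (R ω).conjTranspose * R ω) ∧
        (∀ i j : Fin n, ∃ σ : ℝ, 0 < σ ∧ ∃ (fa : ℝ → ℂ) (c : ℕ → ℂ) (τ : ℕ → ℝ),
          (∀ k : ℕ, 0 ≤ τ k) ∧
          MeasureTheory.Integrable (fun t : ℝ => fa t * ((Real.exp (σ * t) : ℝ) : ℂ))
            (MeasureTheory.volume.restrict (Set.Ici (0 : ℝ))) ∧
          Summable (fun k : ℕ => ‖c k‖ * Real.exp (σ * τ k)) ∧
          ∀ ω : ℝ, R ω i j =
            (∫ t in Set.Ici (0 : ℝ), fa t * Complex.exp (-((ω : ℂ) * (t : ℂ) * Complex.I))) +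
              ∑' k : ℕ, c k * Complex.exp (-((ω : ℂ) * ((τ k : ℝ) : ℂ) * Complex.I))) ∧
        (∀ i j : Fin n, ∃ σ : ℝ, 0 < σ ∧ ∃ (fa : ℝ → ℂ) (c : ℕ → ℂ) (τ : ℕ → ℝ),
          (∀ k : ℕ, 0 ≤ τ k) ∧
          MeasureTheory.Integrable (fun t : ℝ => fa t * ((Real.exp (σ * t) : ℝ) : ℂ))
            (MeasureTheory.volume.restrict (Set.Ici (0 : ℝ))) ∧
          Summable (fun k : ℕ => ‖c k‖ * Real.exp (σ * τ k)) ∧
          ∀ ω : ℝ, (R ω)⁻¹ i j =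
            (∫ t in Set.Ici (0 : ℝ), fa t * Complex.exp (-((ω : ℂ) * (t : ℂ) * Complex.I))) +
              ∑' k : ℕ, c k * Complex.exp (-((ω : ℂ) * ((τ k : ℝ) : ℂ) * Complex.I))) :=
  Pool.Agent.H197R3.SF.assemble
    Pool.Agent.H885R3.SFLL.taskLL
    Pool.Agent.H676R4.SFAA.taskAA
    Pool.Agent.H197R3.SF.taskAL
    Pool.Agent.H214R3.SFMul.t
    Pool.Agent.H170.SFMat.taskMat
    Pool.Agent.H412R3.SFU1.taskU1
    Pool.Agent.H416R3.sfU2
    Pool.Agent.H558R3.SFUniq.taskUniq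
    Pool.Agent.H227R3.SF.taskAlg
    Pool.Agent.H992R3.SF.taskPos
    Pool.Agent.H455R3.SF.taskLim
    Pool.Agent.H237R3.SF.taskIn
    Pool.Agent.H73W.SF.taskOut
    Pool.Agent.H722R5.SFYoung.taskYoung
    Pool.Agent.H449R3.SfPosL.taskPosL
    Pool.Agent.H3R3.SF.taskL2
    Pool.Agent.H466R3.SFSm.taskSm
    Pool.Agent.H830R3.SF.taskExL
    Pool.Agent.H269R3.SFLP.taskLP
    Pool.Agent.H271SF.taskBP
    Pool.Agent.H197R3.SF.taskOps
    Pool.Agent.H154R5.SFBohr.taskBohr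
    Pool.Agent.H197R3.SF.A2.taskA2
    Pool.Agent.H798R3.SFAPt.tAPt
    Pool.Agent.H291R3.SFAPf.taskAPf
    Pool.Agent.H197R3.SF.taskFin

end Pool.Agent.S03741
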