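import Pool.Statements.S03747
import Pool.Agent.H369R3.ClarkeMain

set_option autoImplicit false
open Pool Pool.MP_092a3f_an

namespace Pool.Agent.S03747

/-- If f: R^n→R^m is Lipschitz near x̄ and every matrix in its Clarke Jacobian at x̄ is surjective, then near f(x̄) some continuous right inverse s with s(f(x̄))=x̄ satisfies ‖s(y)−x̄‖ ≤ γ‖y−f(x̄)‖ for some γ>0. -/
theorem result :
    ∀ (n m : ℕ) (f : EuclideanSpace ℝ (Fin n) → EuclideanSpace ℝ (Fin m))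
      (x₀ : EuclideanSpace ℝ (Fin n)),
      (∃ K : NNReal, ∃ U ∈ nhds x₀, LipschitzOnWith K f U) →
      (∀ A ∈ convexHull ℝ
          {B : EuclideanSpace ℝ (Fin n) →L[ℝ] EuclideanSpace ℝ (Fin m) |
            ∀ ε : ℝ, 0 < ε → ∀ δ : ℝ, 0 < δ →
              ∃ x : EuclideanSpace ℝ (Fin n), dist x x₀ < δ ∧ DifferentiableAt ℝ f x ∧
                ‖fderiv ℝ f x - B‖ < ε},
          Function.Surjective A) →
      ∃ V ∈ nhds (f x₀), ∃ s : EuclideanSpace ℝ (Fin m) → EuclideanSpace ℝ (Fin n),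
        ∃ γ : ℝ, 0 < γ ∧ ContinuousOn s V ∧ s (f x₀) = x₀ ∧
          (∀ y ∈ V, f (s y) = y) ∧
          ∀ y ∈ V, ‖s y - x₀‖ ≤ γ * ‖y - f x₀‖ := by
  intro n m f x₀ hLip hs
  exact Pool.Agent.H369R3.Clarke.main n m f x₀ hLip hs

end Pool.Agent.S03747
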