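import Pool.Statements.S03752
import Pool.Agent.H826R3.HilbertCover5

set_option autoImplicit false
open Pool Pool.MP_097dd0_an

namespace Pool.Agent.S03752

/-- The space of square-summable real families indexed by the reals is infinite-dimensional. -/
lemma not_finiteDimensional : ¬ FiniteDimensional ℝ (lp (fun _ : ℝ => ℝ) (2 : ENNReal)) := by
  intro hfd
  have hli : LinearIndependent ℝ (fun n : ℕ => (lp.single (E := fun _ : ℝ => ℝ) 2 (n : ℝ) (1 : ℝ) :
      lp (fun _ : ℝ => ℝ) (2 : ENNReal))) := by
    rw [linearIndependent_iff']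
    intro s g hg i hi
    have h := congrArg (fun f : lp (fun _ : ℝ => ℝ) (2 : ENNReal) => (f : ∀ _ : ℝ, ℝ) (i : ℝ)) hg
    simp only [lp.coeFn_sum, lp.coeFn_smul, Finset.sum_apply, Pi.smul_apply, smul_eq_mul,
      lp.coeFn_zero, Pi.zero_apply] at h
    rw [Finset.sum_eq_single i] at h
    · simpa [lp.single_apply_self] using h
    · intro j _ hj
      rw [lp.single_apply_ne _ _ _ (by exact_mod_cast hj.symm), mul_zero]
    · intro h'
      exact absurd hi h'
  have := hli.finite
  exact not_finite ℕ

/-- The negation of the preceding statement: There is a family of closed balls of positive radius in the Hilbert space of square-summable real families indexed by ℝ that covers the whole space, with each point lying in only finitely many balls. -/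
theorem result :
    ¬ (∃ S : Set (lp (fun _ : ℝ => ℝ) (2 : ENNReal) × ℝ),
      (∀ p ∈ S, 0 < p.2) ∧
      (∀ x : lp (fun _ : ℝ => ℝ) (2 : ENNReal), ∃ p ∈ S, x ∈ Metric.closedBall p.1 p.2) ∧
      (∀ x : lp (fun _ : ℝ => ℝ) (2 : ENNReal),
        {p ∈ S | x ∈ Metric.closedBall p.1 p.2}.Finite)) := by
  rintro ⟨S, hpos, hcov, hfin⟩
  exact Pool.Agent.H826R3.HilbertCover.no_point_finite_cover not_finiteDimensional S hpos hcov hfin

end Pool.Agent.S03752
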