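import Pool.Statements.S03781
import Pool.Agent.H804R4.Final

set_option autoImplicit false
open scoped Topology
open Pool Pool.MP_0b4183_an

namespace Pool.Agent.S03781

/-- If ψ is holomorphic on a connected open Ω in C^n, its Hessian has maximal rank k (0<k<n), and rank-k level sets of ∇ψ are affine (n−k)-planes, then every point where the kernel field has no local continuous extension lies on a positive-dimensional affine piece of such points. -/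
theorem result :
    ∀ (n k : ℕ) (Ω : Set (Fin n → ℂ)) (ψ : (Fin n → ℂ) → ℂ)
      (r : (Fin n → ℂ) → ℕ) (K : (Fin n → ℂ) → Submodule ℂ (Fin n → ℂ)),
      IsOpen Ω → IsConnected Ω → AnalyticOnNhd ℂ ψ Ω →
      (∀ ξ : Fin n → ℂ, r ξ = Module.finrank ℂ (LinearMap.range
        ((fderiv ℂ (fderiv ℂ ψ) ξ : (Fin n → ℂ) →L[ℂ] ((Fin n → ℂ) →L[ℂ] ℂ)) :
          (Fin n → ℂ) →ₗ[ℂ] ((Fin n → ℂ) →L[ℂ] ℂ)))) →
      (∀ ξ : Fin n → ℂ, K ξ = LinearMap.ker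
        ((fderiv ℂ (fderiv ℂ ψ) ξ : (Fin n → ℂ) →L[ℂ] ((Fin n → ℂ) →L[ℂ] ℂ)) :
          (Fin n → ℂ) →ₗ[ℂ] ((Fin n → ℂ) →L[ℂ] ℂ))) →
      1 ≤ k → k ≤ n - 1 →
      (∀ ξ ∈ Ω, r ξ ≤ k) →
      (∃ ξ ∈ Ω, r ξ = k) →
      (∀ ξ ∈ Ω, r ξ = k →
        ∃ V : Submodule ℂ (Fin n → ℂ), Module.finrank ℂ V = n - k ∧
          {η | η ∈ Ω ∧ fderiv ℂ ψ η = fderiv ℂ ψ ξ} = {η | η ∈ Ω ∧ η - ξ ∈ V}) →
      ∀ S : Set (Fin n → ℂ),
        S = {ξ | ξ ∈ Ω ∧ ¬ ∃ U : Set (Fin n → ℂ),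
              IsOpen U ∧ ξ ∈ U ∧ U ⊆ Ω ∧
              ∃ v : Fin (n - k) → (Fin n → ℂ) → (Fin n → ℂ),
                (∀ i, ContinuousOn (v i) U) ∧
                (∀ η ∈ U, LinearIndependent ℂ (fun i => v i η)) ∧
                (∀ η ∈ U, r η = k →
                  Submodule.span ℂ (Set.range (fun i => v i η)) = K η)} →
        ∀ ξ ∈ S, ∃ V : Submodule ℂ (Fin n → ℂ), V ≠ ⊥ ∧
          ∃ U ∈ 𝓝 ξ, ∀ η ∈ U, η - ξ ∈ V → η ∈ S := by
  intro n k Ω ψ r K hΩ hconn hψ hr hK hk1 hkn hle hex hlev S hS ξ hξS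
  have hd : Module.finrank ℂ (Fin n → ℂ) = k + (n - k) := by
    rw [Module.finrank_fin_fun]; omega
  have hdpos : 0 < n - k := by omega
  have hH : Pool.Agent.H804R4.Hyp Ω (fderiv ℂ ψ) k := by
    refine ⟨hΩ, hψ.fderiv, fun x hx => ?_, fun x hx hrx => ?_⟩
    · have := hle x hx
      rw [hr] at this
      exact this
    · have hrx' : r x = k := by rw [hr]; exact hrx
      obtain ⟨V, hV, hset⟩ := hlev x hx hrx'
      exact Pool.Agent.H804R4.lev_of_affine hΩ hd hx (hψ.fderiv x hx).differentiableAt hrx V hV hset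
  have hex' : ∃ x ∈ Ω, Pool.Agent.H804R4.rk (fderiv ℂ (fderiv ℂ ψ) x) = k := by
    obtain ⟨x, hx, hrx⟩ := hex
    exact ⟨x, hx, by rw [hr] at hrx; exact hrx⟩
  have hiff : ∀ η, η ∈ S ↔ η ∈ Ω ∧ ¬ Pool.Agent.H804R4.NonSing Ω (fderiv ℂ ψ) k (n - k) η := by
    intro η
    rw [hS]
    constructor
    · rintro ⟨h1, h2⟩
      refine ⟨h1, fun h3 => h2 ?_⟩
      obtain ⟨U, hU, hηU, hUΩ, v, hv, hli, hsp⟩ := h3
      refine ⟨U, hU, hηU, hUΩ, v, hv, hli, fun y hy hry => ?_⟩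
      rw [hK]
      exact hsp y hy (by rw [hr] at hry; exact hry)
    · rintro ⟨h1, h2⟩
      refine ⟨h1, fun h3 => h2 ?_⟩
      obtain ⟨U, hU, hηU, hUΩ, v, hv, hli, hsp⟩ := h3
      refine ⟨U, hU, hηU, hUΩ, v, hv, hli, fun y hy hry => ?_⟩
      have h4 : r y = k := by rw [hr]; exact hry
      have h5 := hsp y hy h4
      rw [hK] at h5
      exact h5
  obtain ⟨hξΩ, hξs⟩ := (hiff ξ).1 hξS
  obtain ⟨V, hV, hVs⟩ := Pool.Agent.H804R4.main hH hconn.isPreconnected hd hdpos hex' hξΩ hξs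
  exact ⟨V, hV, Ω, hΩ.mem_nhds hξΩ, fun η hη hηV => (hiff η).2 ⟨hη, hVs η hη hηV⟩⟩

end Pool.Agent.S03781
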