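import Pool.Statements.S03785
import Pool.Agent.LeadR3.Bisym

set_option autoImplicit false
open Pool Pool.MP_0bc80f_an

namespace Pool.Agent.S03785

open Set Filter Topology

section aux

variable {a b : ℝ} {n : ℕ} {F : (Fin n → Set.Icc a b) → Set.Icc a b}

lemma mono_of_coord
    (hs : ∀ (x : Fin n → Set.Icc a b) (i : Fin n),
      StrictMono (fun t : Set.Icc a b => F (Function.update x i t))) : Monotone F := by
  classical
  intro x y hxy
  have key : ∀ s : Finset (Fin n), F x ≤ F (s.piecewise y x) := by
    intro s
    induction s using Finset.induction_on with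
    | empty => simp
    | insert i s his ih =>
      refine ih.trans ?_
      rw [Finset.piecewise_insert]
      have h1 : F (s.piecewise y x)
          = F (Function.update (s.piecewise y x) i ((s.piecewise y x) i)) := by
        rw [Function.update_eq_self]
      rw [h1]
      refine (hs _ i).monotone ?_
      rw [Finset.piecewise_eq_of_notMem _ _ _ his]
      exact hxy i
  have := key Finset.univ
  simpa using this

lemma strict_of_coord
    (hs : ∀ (x : Fin n → Set.Icc a b) (i : Fin n),
      StrictMono (fun t : Set.Icc a b => F (Function.update x i t)))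
    {x y : Fin n → Set.Icc a b} (hxy : x ≤ y) (i : Fin n) (hi : x i < y i) : F x < F y := by
  classical
  have h1 : F x < F (Function.update x i (y i)) := by
    have := hs x i hi
    simpa using this
  refine h1.trans_le (mono_of_coord hs ?_)
  intro j
  by_cases hj : j = i
  · subst hj; simp
  · simpa [Function.update_of_ne hj] using hxy j

end aux

/-- iterates of a continuous strictly increasing self-map with a unique fixed point -/
lemma iter_aux {a b : ℝ} (hab : a < b) (T : Set.Icc a b → Set.Icc a b) (c : Set.Icc a b)
    (hT : StrictMono T) (hc : Continuous T) (hfix : T c = c)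
    (huniq : ∀ u, T u = u → u = c) :
    (∀ V ∈ 𝓝 c, ∃ k : ℕ, ∀ u, T^[k] u ∈ V) ∧ ∀ k : ℕ, Set.range (T^[k]) ∈ 𝓝 c := by
  classical
  set lo : Set.Icc a b := ⟨a, left_mem_Icc.2 hab.le⟩ with hlo
  set hi : Set.Icc a b := ⟨b, right_mem_Icc.2 hab.le⟩ with hhi
  have hlo_le : ∀ u, lo ≤ u := fun u => u.2.1
  have hle_hi : ∀ u, u ≤ hi := fun u => u.2.2
  have hTk : ∀ k, StrictMono (T^[k]) := fun k => hT.iterate k
  have hfixk : ∀ k, T^[k] c = c := fun k => Function.iterate_fixed hfix k
  -- limits
  have key : ∀ (w : ℕ → Set.Icc a b), (∀ k, w (k+1) = T (w k)) → (Monotone w ∨ Antitone w) →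
      Tendsto w atTop (𝓝 c) := by
    intro w hw hmon
    have hex : ∃ L : Set.Icc a b, Tendsto w atTop (𝓝 L) := by
      have hlim : ∃ l : ℝ, Tendsto (fun k => (w k : ℝ)) atTop (𝓝 l) := by
        rcases hmon with h | h
        · refine ⟨_, tendsto_atTop_ciSup (fun i j hij => h hij) ⟨b, ?_⟩⟩
          rintro _ ⟨k, rfl⟩
          exact (w k).2.2
        · refine ⟨_, tendsto_atTop_ciInf (fun i j hij => h hij) ⟨a, ?_⟩⟩
          rintro _ ⟨k, rfl⟩
          exact (w k).2.1
      obtain ⟨l, hl⟩ := hlim
      have hlmem : l ∈ Set.Icc a b :=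
        isClosed_Icc.mem_of_tendsto hl (Eventually.of_forall fun k => (w k).2)
      exact ⟨⟨l, hlmem⟩, tendsto_subtype_rng.2 hl⟩
    obtain ⟨L, hL⟩ := hex
    have h1 : Tendsto (fun k => w (k+1)) atTop (𝓝 L) := (tendsto_add_atTop_iff_nat 1).2 hL
    have h2 : Tendsto (fun k => w (k+1)) atTop (𝓝 (T L)) := by
      simp only [hw]
      exact (hc.tendsto L).comp hL
    have h3 : T L = L := tendsto_nhds_unique h2 h1
    rw [← huniq L h3]
    exact hL
  have hlow : Tendsto (fun k => T^[k] lo) atTop (𝓝 c) := by
    refine key _ (fun k => Function.iterate_succ_apply' T k lo) (Or.inl ?_)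
    refine monotone_nat_of_le_succ fun k => ?_
    rw [Function.iterate_succ_apply]
    exact (hTk k).monotone (hlo_le _)
  have hhigh : Tendsto (fun k => T^[k] hi) atTop (𝓝 c) := by
    refine key _ (fun k => Function.iterate_succ_apply' T k hi) (Or.inr ?_)
    refine antitone_nat_of_succ_le fun k => ?_
    rw [Function.iterate_succ_apply]
    exact (hTk k).monotone (hle_hi _)
  refine ⟨?_, ?_⟩
  · intro V hV
    -- use ordconnected neighbourhoods
    obtain ⟨ε, hε, hεV⟩ := Metric.mem_nhds_iff.1 hV
    have h1 := hlow.eventually (Metric.ball_mem_nhds c hε)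
    have h2 := hhigh.eventually (Metric.ball_mem_nhds c hε)
    obtain ⟨k, hk1, hk2⟩ := (h1.and h2).exists
    refine ⟨k, fun u => hεV ?_⟩
    have e1 : (T^[k] lo : ℝ) ≤ (T^[k] u : ℝ) := (hTk k).monotone (hlo_le u)
    have e2 : (T^[k] u : ℝ) ≤ (T^[k] hi : ℝ) := (hTk k).monotone (hle_hi u)
    simp only [Metric.mem_ball, Subtype.dist_eq, Real.dist_eq, abs_lt] at hk1 hk2 ⊢
    constructor <;> linarith [hk1.1, hk1.2, hk2.1, hk2.2]
  · intro k
    have hcont : Continuous (T^[k]) := hc.iterate k
    haveI : PreconnectedSpace (Set.Icc a b) :=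
      isPreconnected_iff_preconnectedSpace.1 isPreconnected_Icc
    have hconn : IsPreconnected (Set.range (T^[k])) := isPreconnected_range hcont
    have hsub : Set.Icc (T^[k] lo) (T^[k] hi) ⊆ Set.range (T^[k]) :=
      hconn.Icc_subset ⟨lo, rfl⟩ ⟨hi, rfl⟩
    have h1 : ∀ᶠ u in 𝓝 c, T^[k] lo ≤ u := by
      rcases (hlo_le c).lt_or_eq with h | h
      · have : T^[k] lo < c := by
          have := hTk k h
          rwa [hfixk k] at this
        exact (lt_mem_nhds this).mono fun u hu => le_of_lt hu
      · have : T^[k] lo = lo := by
          rw [h]; exact hfixk k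
        rw [this]
        exact Eventually.of_forall hlo_le
    have h2 : ∀ᶠ u in 𝓝 c, u ≤ T^[k] hi := by
      rcases (hle_hi c).lt_or_eq with h | h
      · have : c < T^[k] hi := by
          have := hTk k h
          rwa [hfixk k] at this
        exact (gt_mem_nhds this).mono fun u hu => le_of_lt hu
      · have : T^[k] hi = hi := by
          rw [← h]; exact hfixk k
        rw [this]
        exact Eventually.of_forall hle_hi
    filter_upwards [h1, h2] with u hu1 hu2
    exact hsub ⟨hu1, hu2⟩

/-- For a<b and n≥2, every map F from [a,b]^n to [a,b] that is reflexive, bisymmetric and strictly increasing in each variable (not assumed symmetric) is continuous. -/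
theorem result :
    ∀ (a b : ℝ), a < b → ∀ (n : ℕ), 2 ≤ n →
      ∀ F : (Fin n → Set.Icc a b) → Set.Icc a b,
        (∀ x : Set.Icc a b, F (fun _ => x) = x) →
        (∀ M : Fin n → Fin n → Set.Icc a b,
            F (fun i => F (M i)) = F (fun j => F (fun i => M i j))) →
        (∀ (x : Fin n → Set.Icc a b) (i : Fin n),
            StrictMono (fun t : Set.Icc a b => F (Function.update x i t))) →
        Continuous F := by
  classical
  intro a b hab n hn F hrefl hbis hs
  set i0 : Fin n := ⟨0, by omega⟩ with hi0
  set i1 : Fin n := ⟨1, by omega⟩ with hi1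
  have hne : i1 ≠ i0 := by
    intro h
    simp [hi0, hi1] at h
  set g : Set.Icc a b → Set.Icc a b → Set.Icc a b :=
    fun x y => F (Function.update (fun _ => y) i0 x) with hg
  have grefl : ∀ x, g x x = x := by
    intro x
    simp only [hg]
    have : Function.update (fun _ : Fin n => x) i0 x = fun _ => x := by
      funext j
      by_cases hj : j = i0
      · subst hj; simp
      · simp [Function.update_of_ne hj]
    rw [this]; exact hrefl x
  have gcomm : ∀ x y : Fin n → Set.Icc a b, F (fun i => g (x i) (y i)) = g (F x) (F y) := by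
    intro x y
    have h := hbis (fun i => Function.update (fun _ => y i) i0 (x i))
    simp only [hg]
    rw [h]
    congr 1
    funext j
    by_cases hj : j = i0
    · subst hj
      simp
    · simp only [Function.update_of_ne hj]
  have gleft : ∀ y, StrictMono (fun x => g x y) := fun y => hs (fun _ => y) i0
  have gright : ∀ x, StrictMono (g x) := by
    intro x y y' hy
    refine strict_of_coord hs ?_ i1 ?_
    · intro j
      by_cases hj : j = i0
      · subst hj; simp
      · simpa [Function.update_of_ne hj] using hy.le
    · simpa [Function.update_of_ne hne] using hy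
  have gbis : ∀ x y u v, g (g x y) (g u v) = g (g x u) (g y v) := by
    intro x y u v
    have h := gcomm (Function.update (fun _ => y) i0 x) (Function.update (fun _ => v) i0 u)
    have h2 : g (g x y) (g u v) = F (fun i => g ((Function.update (fun _ => y) i0 x : Fin n → _) i)
        ((Function.update (fun _ => v) i0 u : Fin n → _) i)) := by
      rw [h]
    rw [h2]
    show _ = F (Function.update (fun _ => g y v) i0 (g x u))
    congr 1
    funext j
    by_cases hj : j = i0
    · subst hj; simp
    · simp [Function.update_of_ne hj]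
  -- transfer to the reals
  set P : ℝ → Set.Icc a b := Set.projIcc a b hab.le with hP
  have hPmem : ∀ x (hx : x ∈ Set.Icc a b), P x = ⟨x, hx⟩ := fun x hx =>
    Set.projIcc_of_mem hab.le hx
  have hPval : ∀ u : Set.Icc a b, P (u : ℝ) = u := fun u => Set.projIcc_val hab.le u
  have good : LeadR3.Bisym.Good (Set.Icc a b) (fun x y => (g (P x) (P y) : ℝ)) :=
    { ord := Set.ordConnected_Icc
      mem := fun x _ y _ => (g (P x) (P y)).2
      refl := fun x hx => by
        simp only [grefl, hPmem x hx]
      bis := fun x hx y hy u hu v hv => by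
        simp only [hPval, gbis]
      right := fun x hx y hy z hz hyz => by
        have h1 : P y < P z := by
          rw [hPmem y hy, hPmem z hz]; exact hyz
        exact gright (P x) h1
      left := fun y hy x hx z hz hxz => by
        have h1 : P x < P z := by
          rw [hPmem x hx, hPmem z hz]; exact hxz
        exact gleft (P y) h1 }
  have hcont := good.continuousOn
  have gcont : ∀ c, Continuous (fun x => g x c) := by
    intro c
    have h1 : Continuous (fun x : Set.Icc a b => ((x : ℝ), (c : ℝ))) := by fun_prop
    have h2 : Continuous (fun x : Set.Icc a b =>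
        Function.uncurry (fun x y => (g (P x) (P y) : ℝ)) ((x : ℝ), (c : ℝ))) :=
      hcont.comp_continuous h1 (fun x => ⟨x.2, c.2⟩)
    simp only [Function.uncurry, hPval] at h2
    exact continuous_induced_rng.2 h2
  have huniq : ∀ c u, g u c = u → u = c := by
    intro c u hu
    rcases lt_trichotomy u c with h | h | h
    · have := gright u h
      rw [grefl, hu] at this
      exact absurd this (lt_irrefl _)
    · exact h
    · have := gright u h
      rw [grefl, hu] at this
      exact absurd this (lt_irrefl _)
  have hmain := fun c => iter_aux hab (fun x => g x c) c (gleft c) (gcont c) (grefl c) (huniq c)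
  -- F commutes with the iterates
  have hiter : ∀ (x0 : Fin n → Set.Icc a b) (k : ℕ) (x : Fin n → Set.Icc a b),
      F (fun i => (fun t => g t (x0 i))^[k] (x i)) = (fun t => g t (F x0))^[k] (F x) := by
    intro x0 k
    induction k with
    | zero => intro x; rfl
    | succ k ih =>
      intro x
      simp only [Function.iterate_succ_apply']
      rw [gcomm (fun i => (fun t => g t (x0 i))^[k] (x i)) x0, ih x]
  rw [continuous_iff_continuousAt]
  intro x0
  intro V hV
  obtain ⟨k, hk⟩ := (hmain (F x0)).1 V hV
  have hnb : (Set.univ.pi fun i => Set.range ((fun t => g t (x0 i))^[k])) ∈ 𝓝 x0 :=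
    set_pi_mem_nhds Set.finite_univ (fun i _ => (hmain (x0 i)).2 k)
  rw [Filter.mem_map]
  refine mem_of_superset hnb ?_
  intro z hz
  have hz' : ∀ i, ∃ x, (fun t => g t (x0 i))^[k] x = z i := fun i => hz i (Set.mem_univ i)
  choose x hx using hz'
  have : z = fun i => (fun t => g t (x0 i))^[k] (x i) := by
    funext i; exact (hx i).symm
  show F z ∈ V
  rw [this, hiter]
  exact hk _

end Pool.Agent.S03785
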