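import Pool.Statements.S03790
import Pool.Agent.H164R3.QcSobolev

set_option autoImplicit false
open Pool Pool.MP_0bf850_an

namespace Pool.Agent.S03790

/-- The negation of the preceding statement: For n≥2, every injective continuous map on an open set of ℝⁿ with bounded linear dilatation that is locally α-Hölder has a locally p-integrable weak derivative on that set for every p with n<p<n/(1−α). -/
theorem result :
    ¬ (∀ (n : ℕ), 2 ≤ n →
  ∀ (Ω : Set (EuclideanSpace ℝ (Fin n))), IsOpen Ω →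
  ∀ (f : EuclideanSpace ℝ (Fin n) → EuclideanSpace ℝ (Fin n)),
    ContinuousOn f Ω → Set.InjOn f Ω →
    (∃ H : ℝ, ∀ x ∈ Ω, ∀ᶠ r in nhdsWithin (0:ℝ) (Set.Ioi 0),
        ∀ y z : EuclideanSpace ℝ (Fin n), dist y x = r → dist z x = r →
          dist (f y) (f x) ≤ H * dist (f z) (f x)) →
  ∀ α : ℝ, 0 < α → α ≤ 1 →
    (∀ K ⊆ Ω, IsCompact K → ∃ C : ℝ, ∀ x ∈ K, ∀ y ∈ K,
        dist (f x) (f y) ≤ C * dist x y ^ α) →
  ∀ p : ℝ, (n : ℝ) < p → p * (1 - α) < (n : ℝ) →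
    ∃ g : EuclideanSpace ℝ (Fin n) →
        (EuclideanSpace ℝ (Fin n) →L[ℝ] EuclideanSpace ℝ (Fin n)),
      MeasureTheory.LocallyIntegrableOn g Ω ∧
      (∀ K ⊆ Ω, IsCompact K → ∫⁻ x in K, ENNReal.ofReal ‖g x‖ ^ p < ⊤) ∧
      ∀ φ : EuclideanSpace ℝ (Fin n) → ℝ, ContDiff ℝ (⊤ : ℕ∞) φ →
        HasCompactSupport φ → tsupport φ ⊆ Ω →
        ∀ v : EuclideanSpace ℝ (Fin n),
          ∫ x, (fderiv ℝ φ x v) • f x = - ∫ x, φ x • (g x v)) := by
  intro h
  refine Pool.Agent.H164R3.Qc.not_sobolev ?_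
  refine h 2 le_rfl Set.univ isOpen_univ Pool.Agent.H164R3.Qc.F
    Pool.Agent.H164R3.Qc.F_continuous.continuousOn
    Pool.Agent.H164R3.Qc.F_injective.injOn ?_ (7 / 8) (by norm_num) (by norm_num) ?_ 15
    (by norm_num) (by norm_num)
  · refine ⟨9, fun x _ => Filter.Eventually.of_forall fun r y z hy hz => ?_⟩
    rw [dist_eq_norm, dist_eq_norm, norm_sub_rev, norm_sub_rev (Pool.Agent.H164R3.Qc.F z)]
    apply Pool.Agent.H164R3.Qc.quasisym
    rw [dist_eq_norm, norm_sub_rev] at hy hz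
    rw [hy, hz]
  · intro K _ hK
    obtain ⟨R, hR⟩ := Metric.isBounded_iff.mp hK.isBounded
    refine ⟨(1 + 3 / 2 * Pool.Agent.H164R3.Qc.C1) * R ^ (1 / 8 : ℝ) + 3, fun x hx y hy => ?_⟩
    have h1 := hR hx hy
    rw [dist_eq_norm] at h1
    rw [dist_eq_norm, dist_eq_norm]
    exact Pool.Agent.H164R3.Qc.holder h1

end Pool.Agent.S03790
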