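import Pool.Statements.S03800
import Pool.Agent.H481R3.HSH

set_option autoImplicit false
open Pool Pool.MP_0cfab1_an

namespace Pool.Agent.S03800

/-- The negation of the preceding statement: For every non-discrete LCA group G and compact Helson set E that is not of synthesis, there is an algebra splitting of C(E) into A(G)/J_E lifting restriction to E, i.e. A(G)/J_E = M ⊕ I_E/J_E for a subalgebra M. -/
theorem result :
    ¬ (∀ (G : Type) [CommGroup G] [TopologicalSpace G] [IsTopologicalGroup G]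
    [LocallyCompactSpace G] [T2Space G],
    ¬ DiscreteTopology G →
    ∀ [MeasurableSpace (PontryaginDual G)] [BorelSpace (PontryaginDual G)]
      (μ : MeasureTheory.Measure (PontryaginDual G)) [μ.IsHaarMeasure],
    ∀ (inA : (G → ℂ) → Prop),
      (∀ f, inA f ↔ ∃ φ : PontryaginDual G → ℂ, MeasureTheory.Integrable φ μ ∧
        ∀ x, f x = ∫ χ, φ χ * ((χ x : Circle) : ℂ) ∂μ) →
    ∀ (E : Set G), IsCompact E →
    ∀ (J : (G → ℂ) → Prop),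
      (∀ f, J f ↔ ∀ ε : ℝ, 0 < ε → ∃ g : G → ℂ, inA g ∧
        (∃ U : Set G, IsOpen U ∧ E ⊆ U ∧ ∀ x ∈ U, g x = 0) ∧
        ∃ φ : PontryaginDual G → ℂ, MeasureTheory.Integrable φ μ ∧
          ∫ χ, ‖φ χ‖ ∂μ < ε ∧
          ∀ x, f x - g x = ∫ χ, φ χ * ((χ x : Circle) : ℂ) ∂μ) →
    (∀ u : C(↥E, ℂ), ∃ f, inA f ∧ ∀ x (hx : x ∈ E), f x = u ⟨x, hx⟩) →
    (∃ f, inA f ∧ (∀ x ∈ E, f x = 0) ∧ ¬ J f) →
    ∃ θ : C(↥E, ℂ) → (G → ℂ),
      (∀ u, inA (θ u)) ∧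
      (∀ u x (hx : x ∈ E), θ u x = u ⟨x, hx⟩) ∧
      (∀ u v, J (θ (u + v) - θ u - θ v)) ∧
      (∀ (c : ℂ) u, J (θ (c • u) - c • θ u)) ∧
      (∀ u v, J (θ (u * v) - θ u * θ v))) := by
  intro h
  letI : MeasurableSpace (PontryaginDual Pool.Agent.H481R3.HS.CG) := borel _
  haveI : BorelSpace (PontryaginDual Pool.Agent.H481R3.HS.CG) := ⟨rfl⟩
  haveI := Pool.Agent.H481R3.HS.count_haar
  have h1 := h Pool.Agent.H481R3.HS.CG Pool.Agent.H481R3.HS.not_discrete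
    (MeasureTheory.Measure.count)
    (fun f => ∃ φ : PontryaginDual Pool.Agent.H481R3.HS.CG → ℂ,
      MeasureTheory.Integrable φ MeasureTheory.Measure.count ∧
        ∀ x, f x = ∫ χ, φ χ * ((χ x : Circle) : ℂ) ∂MeasureTheory.Measure.count)
    (fun f => Iff.rfl) Pool.Agent.H481R3.HS.EE Pool.Agent.H481R3.HS.EE_compact
    _ (fun f => Iff.rfl)
  have hinA : ∀ f : Pool.Agent.H481R3.HS.CG → ℂ, (∃ φ : PontryaginDual Pool.Agent.H481R3.HS.CG → ℂ,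
      MeasureTheory.Integrable φ MeasureTheory.Measure.count ∧
        ∀ x, f x = ∫ χ, φ χ * ((χ x : Circle) : ℂ) ∂MeasureTheory.Measure.count) ↔
      Pool.Agent.H481R3.HS.InA f := by
    intro f
    constructor
    · rintro ⟨φ, h2, h3⟩
      exact ⟨_, (Pool.Agent.H481R3.HS.AN_iff f _).2 ⟨φ, h2, le_rfl, h3⟩⟩
    · rintro ⟨r, hr⟩
      obtain ⟨φ, h2, -, h3⟩ := (Pool.Agent.H481R3.HS.AN_iff f r).1 hr
      exact ⟨φ, h2, h3⟩
  have hJ : ∀ f : Pool.Agent.H481R3.HS.CG → ℂ, (∀ ε : ℝ, 0 < ε →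
      ∃ g : Pool.Agent.H481R3.HS.CG → ℂ, (∃ φ : PontryaginDual Pool.Agent.H481R3.HS.CG → ℂ,
      MeasureTheory.Integrable φ MeasureTheory.Measure.count ∧
        ∀ x, g x = ∫ χ, φ χ * ((χ x : Circle) : ℂ) ∂MeasureTheory.Measure.count) ∧
        (∃ U : Set Pool.Agent.H481R3.HS.CG, IsOpen U ∧ Pool.Agent.H481R3.HS.EE ⊆ U ∧
          ∀ x ∈ U, g x = 0) ∧
        ∃ φ : PontryaginDual Pool.Agent.H481R3.HS.CG → ℂ,
          MeasureTheory.Integrable φ MeasureTheory.Measure.count ∧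
          ∫ χ, ‖φ χ‖ ∂MeasureTheory.Measure.count < ε ∧
          ∀ x, f x - g x = ∫ χ, φ χ * ((χ x : Circle) : ℂ) ∂MeasureTheory.Measure.count) ↔
      Pool.Agent.H481R3.HS.JJ f := by
    intro f
    constructor
    · intro h2 ε hε
      obtain ⟨g, hg1, hg2, φ, hφ1, hφ2, hφ3⟩ := h2 ε hε
      exact ⟨g, (hinA g).1 hg1, hg2, (Pool.Agent.H481R3.HS.AN_iff (f - g) ε).2
        ⟨φ, hφ1, hφ2.le, hφ3⟩⟩
    · intro h2 ε hε
      obtain ⟨g, hg1, hg2, hg3⟩ := h2 (ε / 2) (half_pos hε)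
      obtain ⟨φ, hφ1, hφ2, hφ3⟩ := (Pool.Agent.H481R3.HS.AN_iff (f - g) (ε / 2)).1 hg3
      exact ⟨g, (hinA g).2 hg1, hg2, φ, hφ1, lt_of_le_of_lt hφ2 (half_lt_self hε), hφ3⟩
  obtain ⟨θ, t1, t2, t3, t4, t5⟩ := h1 (fun u => by
    obtain ⟨f, hf, hf2⟩ := Pool.Agent.H481R3.HS.helson u
    exact ⟨f, (hinA f).2 hf, fun x hx => hf2 ⟨x, hx⟩⟩) (by
    obtain ⟨f, hf, hf2, hf3⟩ := Pool.Agent.H481R3.HS.not_synthesis
    exact ⟨f, (hinA f).2 hf, hf2, fun h3 => hf3 ((hJ f).1 h3)⟩)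
  exact Pool.Agent.H481R3.HS.no_lifting θ (fun u => (hinA _).1 (t1 u)) t2
    (fun c u => (hJ _).1 (t4 c u)) (fun u v => (hJ _).1 (t5 u v))

end Pool.Agent.S03800
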