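import Pool.Statements.S03817
import Pool.Agent.H165R3.Main

set_option autoImplicit false
open Pool Pool.MP_0e2194_an

namespace Pool.Agent.S03817

open Set Filter Topology MeasureTheory Function Pool.Agent.H165R3
open scoped ContDiff

/-- identification of the two models of the plane -/
noncomputable abbrev EE : (Fin 2 → ℝ) ≃L[ℝ] ℝ × ℝ := ContinuousLinearEquiv.finTwoArrow ℝ ℝ

lemma EE_apply (x : Fin 2 → ℝ) : EE x = (x 0, x 1) := rfl
lemma EE_symm (z : ℝ × ℝ) : EE.symm z = ![z.1, z.2] := rfl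

lemma norm_EE (x : Fin 2 → ℝ) : ‖EE x‖ = ‖x‖ := by
  rw [EE_apply, Prod.norm_def, Pi.norm_def]
  simp only [Finset.univ_fin2]
  rw [Finset.sup_insert, Finset.sup_singleton]
  simp

lemma norm_EE_symm (z : ℝ × ℝ) : ‖EE.symm z‖ = ‖z‖ := by
  rw [← norm_EE, ContinuousLinearEquiv.apply_symm_apply]

/-- conjugation -/
noncomputable def cj (A : ℝ × ℝ →L[ℝ] ℝ × ℝ) : (Fin 2 → ℝ) →L[ℝ] (Fin 2 → ℝ) :=
  (EE.symm : ℝ × ℝ →L[ℝ] (Fin 2 → ℝ)).comp (A.comp (EE : (Fin 2 → ℝ) →L[ℝ] ℝ × ℝ))

lemma norm_cj (A : ℝ × ℝ →L[ℝ] ℝ × ℝ) : ‖cj A‖ = ‖A‖ := by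
  apply le_antisymm
  · refine ContinuousLinearMap.opNorm_le_bound _ (norm_nonneg _) fun x => ?_
    show ‖EE.symm (A (EE x))‖ ≤ _
    rw [norm_EE_symm, ← norm_EE x]
    exact A.le_opNorm _
  · refine ContinuousLinearMap.opNorm_le_bound _ (norm_nonneg _) fun z => ?_
    have h : A z = EE (cj A (EE.symm z)) := by
      show A z = EE (EE.symm (A (EE (EE.symm z))))
      rw [ContinuousLinearEquiv.apply_symm_apply, ContinuousLinearEquiv.apply_symm_apply]
    rw [h, norm_EE, ← norm_EE_symm z]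
    exact (cj A).le_opNorm _

lemma det_cj (a c b : ℝ) : (cj (tri a c b)).det = a * b := by
  have h : (cj (tri a c b) : (Fin 2 → ℝ) →ₗ[ℝ] (Fin 2 → ℝ)) = Matrix.toLin' !![a, 0; c, b] := by
    apply LinearMap.ext
    intro x
    show EE.symm (tri a c b (EE x)) = _
    rw [EE_symm, EE_apply, tri_apply, Matrix.toLin'_apply]
    ext i
    fin_cases i <;> simp [Matrix.mulVec, dotProduct, Fin.sum_univ_two]
  show LinearMap.det (cj (tri a c b) : (Fin 2 → ℝ) →ₗ[ℝ] (Fin 2 → ℝ)) = a * b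
  rw [h, LinearMap.det_toLin', Matrix.det_fin_two_of]
  ring

/-- For all reals l1, l2 with l1+l2>0 there is a smooth map of the 2-torus that preserves volume, is ergodic, and has Lyapunov exponents l1, l2 (top exponent = growth of the derivative norm, sum = growth of the Jacobian) almost everywhere. -/
theorem result :
  ∀ l1 l2 : ℝ, l1 + l2 > 0 →
    ∃ (f : (Fin 2 → UnitAddCircle) → (Fin 2 → UnitAddCircle))
      (F : (Fin 2 → ℝ) → (Fin 2 → ℝ)),
      ContDiff ℝ (⊤ : ℕ∞) F ∧
      (∀ x : Fin 2 → ℝ,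
        f (fun i => ((x i : ℝ) : UnitAddCircle)) = fun i => ((F x i : ℝ) : UnitAddCircle)) ∧
      MeasureTheory.MeasurePreserving f MeasureTheory.volume MeasureTheory.volume ∧
      Ergodic f MeasureTheory.volume ∧
      ∀ᵐ x ∂(MeasureTheory.volume : MeasureTheory.Measure (Fin 2 → ℝ)),
        Filter.Tendsto (fun n : ℕ => (1 / (n : ℝ)) * Real.log ‖fderiv ℝ (F^[n]) x‖)
          Filter.atTop (nhds (max l1 l2)) ∧
        Filter.Tendsto (fun n : ℕ => (1 / (n : ℝ)) * Real.log |(fderiv ℝ (F^[n]) x).det|)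
          Filter.atTop (nhds (l1 + l2)) := by
  intro l1 l2 hl
  obtain ⟨s, herg, hlt, hmax, hsum⟩ := main_plane l1 l2 hl
  have hT := (volume_preserving_finTwoArrow UnitAddCircle).symm
  have herg' : Ergodic ((MeasurableEquiv.finTwoArrow (α := UnitAddCircle)).symm ∘ s.f ∘
      (MeasurableEquiv.finTwoArrow (α := UnitAddCircle))) (volume : Measure (Fin 2 → UnitAddCircle)) := by
    exact (hT.ergodic_conjugate_iff).mpr herg
  refine ⟨(MeasurableEquiv.finTwoArrow (α := UnitAddCircle)).symm ∘ s.f ∘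
    (MeasurableEquiv.finTwoArrow (α := UnitAddCircle)), fun x => EE.symm (s.F (EE x)),
    ?_, ?_, herg'.toMeasurePreserving, herg', ?_⟩
  · exact EE.symm.contDiff.comp (s.F_contDiff.comp EE.contDiff)
  · intro x
    have h1 : s.f ((x 0 : UnitAddCircle), (x 1 : UnitAddCircle)) = pr (s.F (x 0, x 1)) :=
      s.f_pr (x 0, x 1)
    show ![(s.f ((x 0 : UnitAddCircle), (x 1 : UnitAddCircle))).1,
      (s.f ((x 0 : UnitAddCircle), (x 1 : UnitAddCircle))).2] = _
    rw [h1]
    ext i
    fin_cases i <;> rfl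
  · have hit : ∀ n : ℕ, (fun x => EE.symm (s.F (EE x)))^[n] = fun x => EE.symm (s.F^[n] (EE x)) := by
      intro n
      induction n with
      | zero => funext x; exact (EE.symm_apply_apply x).symm
      | succ n ih =>
        funext x
        rw [iterate_succ_apply', ih, iterate_succ_apply', ContinuousLinearEquiv.apply_symm_apply]
    have hder : ∀ (n : ℕ) (x : Fin 2 → ℝ), fderiv ℝ (fun x => EE.symm (s.F^[n] (EE x))) x
        = cj (tri (s.aN n (EE x)) (s.cN n (EE x)) (s.bN n (EE x))) := by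
      intro n x
      have h1 := (EE.hasFDerivAt (x := x))
      have h2 := (s.F_iter_fderiv n (EE x)).comp x h1
      have h3 := (EE.symm.hasFDerivAt (x := s.F^[n] (EE x))).comp x h2
      exact h3.fderiv
    have hae := s.exps herg hlt
    have hqmp := (volume_preserving_finTwoArrow ℝ).quasiMeasurePreserving
    filter_upwards [hqmp.ae hae] with x hx
    simp only [hit, hder, norm_cj, det_cj]
    rw [hmax, hsum] at hx
    exact hx

end Pool.Agent.S03817
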