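import Pool.Statements.S03831
import Pool.Agent.H590R3.PropB5

set_option autoImplicit false
open Pool Pool.MP_0fc439_an

namespace Pool.Agent.S03831

/-- For every sequence of nonzero finite-dimensional real normed spaces, some real Banach space X exists such that the norm-attaining operators from X into their ℓ₁-sum are not dense in the operator norm, i.e. the ℓ₁-sum fails property B. -/
theorem result :
    ∀ (F : ℕ → Type) [∀ n, NormedAddCommGroup (F n)] [∀ n, NormedSpace ℝ (F n)]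
      [∀ n, FiniteDimensional ℝ (F n)] [∀ n, Nontrivial (F n)],
      ∃ (X : Type) (_ : NormedAddCommGroup X) (_ : NormedSpace ℝ X) (_ : CompleteSpace X),
        ¬ Dense {T : X →L[ℝ] lp F 1 | ∃ x : X, ‖x‖ ≤ 1 ∧ ‖T x‖ = ‖T‖} := by
  intro F _ _ _ _
  have h1 : ∀ n, ∃ f : F n, ‖f‖ = 1 := fun n => by
    obtain ⟨v, hv⟩ := exists_ne (0 : F n)
    refine ⟨(‖v‖⁻¹ : ℝ) • v, ?_⟩
    rw [norm_smul, norm_inv, norm_norm]
    exact inv_mul_cancel₀ (norm_ne_zero_iff.2 hv)
  choose f hf using h1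
  have h2 : ∀ n, ∃ g : F n →L[ℝ] ℝ, ‖g‖ = 1 ∧ g (f n) = 1 := fun n => by
    obtain ⟨g, hg, hg2⟩ := exists_dual_vector ℝ (f n) (by
      rw [hf]; exact one_ne_zero)
    exact ⟨g, hg, by rw [hg2, hf]; simp⟩
  choose fd hfd hfd1 using h2
  refine ⟨H590R3.PropB.XS, inferInstance, inferInstance, ?_,
    H590R3.PropB.not_dense f hf fd (fun n => (hfd n).le) hfd1⟩
  exact (Submodule.isClosed_topologicalClosure _).completeSpace_coe

end Pool.Agent.S03831
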