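import Pool.Statements.S03864
import Pool.Agent.H399R3.Shape8

set_option autoImplicit false
open Filter Topology
open Pool Pool.MP_125cfc_an
open Pool.Agent.H399R3.Shape

namespace Pool.Agent.S03864

/-- The negation of the preceding statement: For any dimension, number of bodies and positive masses in Newtonian gravity, the map sending bi-hyperbolic initial data with zero center of mass and (mass-)orthogonal position and velocity to its past/future limit shapes is a local C^∞ diffeomorphism onto the equal-norm, centered limit-shape set. -/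
theorem result :
    ¬ (∀ (d N : ℕ) (m : Fin N → ℝ), (∀ i, 0 < m i) →
  ∀ (Ω : Set (Fin N → EuclideanSpace ℝ (Fin d))),
    (∀ x, x ∈ Ω ↔ ∀ i j, i ≠ j → x i ≠ x j) →
  ∀ (H : Set ((Fin N → EuclideanSpace ℝ (Fin d)) × (Fin N → EuclideanSpace ℝ (Fin d)))),
    (∀ p, p ∈ H ↔ ∃ γ γ' : ℝ → (Fin N → EuclideanSpace ℝ (Fin d)),
       ∃ aₘ aₚ : Fin N → EuclideanSpace ℝ (Fin d),
       γ 0 = p.1 ∧ γ' 0 = p.2 ∧ (∀ t, γ t ∈ Ω) ∧ (∀ t, HasDerivAt γ (γ' t) t) ∧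
       (∀ t, HasDerivAt γ' (fun i => ∑ j ∈ Finset.univ.erase i,
            (m j / ‖γ t j - γ t i‖ ^ 3) • (γ t j - γ t i)) t) ∧
       aₘ ∈ Ω ∧ aₚ ∈ Ω ∧
       Tendsto (fun t : ℝ => t⁻¹ • γ t) atTop (𝓝 aₚ) ∧
       Tendsto (fun t : ℝ => |t|⁻¹ • γ t) atBot (𝓝 aₘ)) →
  ∀ (S : (Fin N → EuclideanSpace ℝ (Fin d)) × (Fin N → EuclideanSpace ℝ (Fin d)) →
        (Fin N → EuclideanSpace ℝ (Fin d)) × (Fin N → EuclideanSpace ℝ (Fin d))),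
    (∀ (γ γ' : ℝ → (Fin N → EuclideanSpace ℝ (Fin d))) (aₘ aₚ : Fin N → EuclideanSpace ℝ (Fin d)),
       (∀ t, γ t ∈ Ω) → (∀ t, HasDerivAt γ (γ' t) t) →
       (∀ t, HasDerivAt γ' (fun i => ∑ j ∈ Finset.univ.erase i,
            (m j / ‖γ t j - γ t i‖ ^ 3) • (γ t j - γ t i)) t) →
       aₘ ∈ Ω → aₚ ∈ Ω →
       Tendsto (fun t : ℝ => t⁻¹ • γ t) atTop (𝓝 aₚ) →
       Tendsto (fun t : ℝ => |t|⁻¹ • γ t) atBot (𝓝 aₘ) →
       S (γ 0, γ' 0) = (aₘ, aₚ)) →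
  ∀ (P₀ : Set ((Fin N → EuclideanSpace ℝ (Fin d)) × (Fin N → EuclideanSpace ℝ (Fin d)))),
    (∀ p, p ∈ P₀ ↔ p ∈ H ∧ ∑ i, m i • p.1 i = 0 ∧ ∑ i, m i • p.2 i = 0 ∧
        ∑ i, m i * inner ℝ (p.1 i) (p.2 i) = 0) →
  ∀ (S₀ : Set ((Fin N → EuclideanSpace ℝ (Fin d)) × (Fin N → EuclideanSpace ℝ (Fin d)))),
    (∀ q, q ∈ S₀ ↔ q.1 ∈ Ω ∧ q.2 ∈ Ω ∧ ∑ i, m i • q.1 i = 0 ∧ ∑ i, m i • q.2 i = 0 ∧
        ∑ i, m i * ‖q.1 i‖ ^ 2 = ∑ i, m i * ‖q.2 i‖ ^ 2) →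
  ∀ p ∈ P₀, ∃ (U W : Set ((Fin N → EuclideanSpace ℝ (Fin d)) × (Fin N → EuclideanSpace ℝ (Fin d)))),
    IsOpen U ∧ IsOpen W ∧ p ∈ U ∧ S p ∈ W ∧
    ∃ T : (Fin N → EuclideanSpace ℝ (Fin d)) × (Fin N → EuclideanSpace ℝ (Fin d)) →
          (Fin N → EuclideanSpace ℝ (Fin d)) × (Fin N → EuclideanSpace ℝ (Fin d)),
      (∀ q ∈ P₀ ∩ U, S q ∈ S₀ ∩ W ∧ T (S q) = q) ∧
      (∀ r ∈ S₀ ∩ W, T r ∈ P₀ ∩ U ∧ S (T r) = r) ∧
      ContDiffOn ℝ ((⊤ : ℕ∞) : WithTop ℕ∞) S (P₀ ∩ U) ∧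
      ContDiffOn ℝ ((⊤ : ℕ∞) : WithTop ℕ∞) T (S₀ ∩ W)) := by
  intro hall
  let m : Fin 3 → ℝ := fun _ => 1
  let V := Fin 3 → EuclideanSpace ℝ (Fin 3)
  let Ω : Set V := {x | ∀ i j, i ≠ j → x i ≠ x j}
  let Q : (V × V) → (ℝ → V) → (ℝ → V) → V → V → Prop := fun p γ γ' aₘ aₚ =>
    γ 0 = p.1 ∧ γ' 0 = p.2 ∧ (∀ t, γ t ∈ Ω) ∧ (∀ t, HasDerivAt γ (γ' t) t) ∧
       (∀ t, HasDerivAt γ' (fun i => ∑ j ∈ Finset.univ.erase i,
            (m j / ‖γ t j - γ t i‖ ^ 3) • (γ t j - γ t i)) t) ∧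
       aₘ ∈ Ω ∧ aₚ ∈ Ω ∧
       Tendsto (fun t : ℝ => t⁻¹ • γ t) atTop (𝓝 aₚ) ∧
       Tendsto (fun t : ℝ => |t|⁻¹ • γ t) atBot (𝓝 aₘ)
  let H : Set (V × V) := {p | ∃ γ γ' : ℝ → V, ∃ aₘ aₚ : V, Q p γ γ' aₘ aₚ}
  have hQ : ∀ p ∈ H, ∃ q : V × V, ∃ γ γ' : ℝ → V, Q p γ γ' q.1 q.2 := by
    rintro p ⟨γ, γ', aₘ, aₚ, h⟩
    exact ⟨(aₘ, aₚ), γ, γ', h⟩
  classical
  let S : V × V → V × V := fun p => if h : p ∈ H then Classical.choose (hQ p h) else (0, 0)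
  have hS : ∀ (γ γ' : ℝ → V) (aₘ aₚ : V),
       (∀ t, γ t ∈ Ω) → (∀ t, HasDerivAt γ (γ' t) t) →
       (∀ t, HasDerivAt γ' (fun i => ∑ j ∈ Finset.univ.erase i,
            (m j / ‖γ t j - γ t i‖ ^ 3) • (γ t j - γ t i)) t) →
       aₘ ∈ Ω → aₚ ∈ Ω →
       Tendsto (fun t : ℝ => t⁻¹ • γ t) atTop (𝓝 aₚ) →
       Tendsto (fun t : ℝ => |t|⁻¹ • γ t) atBot (𝓝 aₘ) →
       S (γ 0, γ' 0) = (aₘ, aₚ) := by
    intro γ γ' aₘ aₚ h1 h2 h3 h4 h5 h6 h7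
    have hmem : (γ 0, γ' 0) ∈ H := ⟨γ, γ', aₘ, aₚ, rfl, rfl, h1, h2, h3, h4, h5, h6, h7⟩
    have hSd : S (γ 0, γ' 0) = Classical.choose (hQ _ hmem) := dif_pos hmem
    obtain ⟨η, η', k0, k0', k1, k2, k3, -, -, k6, k7⟩ := Classical.choose_spec (hQ _ hmem)
    rw [← hSd] at k6 k7
    have hu := Pool.Agent.H399R3.nbody_unique m (fun t i j hij => h1 t i j hij) h2 h3
      (fun t i j hij => k1 t i j hij) k2 k3 k0.symm k0'.symm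
    have hfun : η = γ := funext fun t => (hu t).1.symm
    rw [hfun] at k6 k7
    exact Prod.ext (tendsto_nhds_unique k7 h7) (tendsto_nhds_unique k6 h6)
  let P₀ : Set (V × V) := {p | p ∈ H ∧ ∑ i, m i • p.1 i = 0 ∧ ∑ i, m i • p.2 i = 0 ∧
        ∑ i, m i * inner ℝ (p.1 i) (p.2 i) = 0}
  let S₀ : Set (V × V) := {q | q.1 ∈ Ω ∧ q.2 ∈ Ω ∧ ∑ i, m i • q.1 i = 0 ∧ ∑ i, m i • q.2 i = 0 ∧
        ∑ i, m i * ‖q.1 i‖ ^ 2 = ∑ i, m i * ‖q.2 i‖ ^ 2}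
  have hloc := hall 3 3 m (fun _ => one_pos) Ω (fun _ => Iff.rfl) H (fun _ => Iff.rfl) S hS P₀
    (fun _ => Iff.rfl) S₀ (fun _ => Iff.rfl)
  clear hall
  have hpb0 := pb_pos
  have hsq : ∀ p ∈ Set.Icc pb 3, 5 / 2 < p ^ 2 := fun p hp => by
    have h1 := eta0_pos
    have h2 := pb_sq
    have : pb ^ 2 ≤ p ^ 2 := by
      have := hp.1
      gcongr
    linarith
  have hne : ∀ a b c : ℝ, 0 < a ^ 2 + b ^ 2 → conf a b c ∈ Ω := fun a b c h => conf_ne h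
  -- the motions are bi-hyperbolic
  have hP : ∀ p ∈ Set.Icc pb 3, ∀ e : ℝ, ((conf 1 0 0, conf 0 p e) : V × V) ∈ P₀ := by
    intro p hp e
    have hp2 := hsq p hp
    obtain ⟨a, b, c, h1, -, h2, h3, -, -⟩ := gam_asym (e := e) hp2
    refine ⟨⟨gam p e, gam' p e, conf a (-b) (-c), conf a b c, gam_zero, gam'_zero,
      fun t => gam_ne hp2 t, gam_deriv, gam'_deriv hp2, hne _ _ _ (by simpa using h1),
      hne _ _ _ h1, h2, h3⟩, ?_, ?_, ?_⟩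
    · ext k
      fin_cases k <;> simp [Fin.sum_univ_three, conf, m]
    · ext k
      fin_cases k <;> simp [Fin.sum_univ_three, conf, m]
      ring
    · simp [Fin.sum_univ_three, conf, m, PiLp.inner_apply]
  -- equal limit shapes
  have hSeq : ∀ p ∈ Set.Icc pb 3, ∀ e : ℝ, Tendsto (WW p e) atTop (𝓝 0) →
      S (conf 1 0 0, conf 0 p e) = S (conf 1 0 0, conf 0 p (-e)) := by
    intro p hp e hW
    have hp2 := hsq p hp
    obtain ⟨a, b, c, h1, hc, h2, h3, h4, h5⟩ := gam_asym (e := e) hp2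
    have hc0 : c = 0 := tendsto_nhds_unique hc hW
    subst hc0
    rw [neg_zero] at h3 h4
    have e1 := hS (gam p e) (gam' p e) (conf a (-b) 0) (conf a b 0)
      (fun t => gam_ne hp2 t) gam_deriv (gam'_deriv hp2) (hne _ _ _ (by simpa using h1))
      (hne _ _ _ h1) h2 h3
    have e2 := hS (gam p (-e)) (gam' p (-e)) (conf a (-b) 0) (conf a b 0)
      (fun t => gam_ne hp2 t) gam_deriv (gam'_deriv hp2) (hne _ _ _ (by simpa using h1))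
      (hne _ _ _ h1) h4 h5
    rw [gam_zero, gam'_zero] at e1 e2
    rw [e1, e2]
  obtain ⟨ps, p, e, hps, hpn, hen, he0, hplim, hWn⟩ := exists_seq
  obtain ⟨U, W, hU, -, hPU, -, T, hT, -⟩ := hloc _ (hP ps hps 0)
  have hlim1 : Tendsto (fun n => ((conf 1 0 0, conf 0 (p n) (e n)) : V × V)) atTop
      (𝓝 (conf 1 0 0, conf 0 ps 0)) :=
    tendsto_const_nhds.prodMk_nhds (conf_tendsto tendsto_const_nhds hplim he0)
  have hlim2 : Tendsto (fun n => ((conf 1 0 0, conf 0 (p n) (-e n)) : V × V)) atTop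
      (𝓝 (conf 1 0 0, conf 0 ps 0)) := by
    have h0 : Tendsto (fun n => -e n) atTop (𝓝 0) := by
      have := he0.neg
      rwa [neg_zero] at this
    exact tendsto_const_nhds.prodMk_nhds (conf_tendsto tendsto_const_nhds hplim h0)
  obtain ⟨n, hn1, hn2⟩ :=
    ((hlim1.eventually (hU.mem_nhds hPU)).and (hlim2.eventually (hU.mem_nhds hPU))).exists
  have e1 := (hT _ ⟨hP (p n) (hpn n) (e n), hn1⟩).2
  have e2 := (hT _ ⟨hP (p n) (hpn n) (-e n), hn2⟩).2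
  rw [← hSeq (p n) (hpn n) (e n) (hWn n), e1] at e2
  have e3 := (conf_inj (congrArg Prod.snd e2)).2.2
  have := hen n
  linarith

end Pool.Agent.S03864
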