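import Pool.Statements.S03871
import Pool.Agent.H612R3.Wave8

set_option autoImplicit false
open Filter Topology Complex
open scoped InnerProductSpace
open Pool Pool.MP_135e37_an

namespace Pool.Agent.S03871

/-- For commuting selfadjoint pairs A, B with each difference A_j−B_j in the Lorentz ideal C₂⁻ and A's joint spectral measure absolutely continuous, wave operators along two distinct directions θ₁≠θ₂ in [0,2π), when they exist, coincide. -/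
theorem result :
    ∀ (H : Type) [NormedAddCommGroup H] [InnerProductSpace ℂ H] [CompleteSpace H]
      (A₁ A₂ B₁ B₂ : H →L[ℂ] H),
      IsSelfAdjoint A₁ → IsSelfAdjoint A₂ → IsSelfAdjoint B₁ → IsSelfAdjoint B₂ →
      Commute A₁ A₂ → Commute B₁ B₂ →
      (∀ T ∈ ({A₁ - B₁, A₂ - B₂} : Set (H →L[ℂ] H)),
        Summable (fun n : ℕ =>
          sInf {r : ℝ | ∃ F : H →L[ℂ] H,
            Module.rank ℂ (LinearMap.range (F : H →ₗ[ℂ] H)) ≤ (n : Cardinal) ∧ r = ‖T - F‖}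
            / Real.sqrt ((n : ℝ) + 1))) →
      (∀ x : H, ∃ f : ℝ × ℝ → ℂ, MeasureTheory.Integrable f ∧
        ∀ s t : ℝ,
          ⟪x, NormedSpace.exp (((s : ℂ) * Complex.I) • A₁ + ((t : ℂ) * Complex.I) • A₂) x⟫_ℂ
            = ∫ p : ℝ × ℝ, f p * Complex.exp (Complex.I * ((s : ℂ) * (p.1 : ℂ) + (t : ℂ) * (p.2 : ℂ)))) →
      ∀ θ₁ θ₂ : ℝ, 0 ≤ θ₁ → θ₁ < 2 * Real.pi → 0 ≤ θ₂ → θ₂ < 2 * Real.pi → θ₁ ≠ θ₂ →
      ∀ W₁ W₂ : H →L[ℂ] H,
      (∀ x : H, Tendsto (fun t : ℝ =>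
          (NormedSpace.exp ((-((t : ℂ) * Complex.I)) •
              ((Real.cos θ₁ : ℂ) • B₁ + (Real.sin θ₁ : ℂ) • B₂)) *
            NormedSpace.exp (((t : ℂ) * Complex.I) •
              ((Real.cos θ₁ : ℂ) • A₁ + (Real.sin θ₁ : ℂ) • A₂))) x)
        atTop (𝓝 (W₁ x))) →
      (∀ x : H, Tendsto (fun t : ℝ =>
          (NormedSpace.exp ((-((t : ℂ) * Complex.I)) •
              ((Real.cos θ₂ : ℂ) • B₁ + (Real.sin θ₂ : ℂ) • B₂)) *
            NormedSpace.exp (((t : ℂ) * Complex.I) •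
              ((Real.cos θ₂ : ℂ) • A₁ + (Real.sin θ₂ : ℂ) • A₂))) x)
        atTop (𝓝 (W₂ x))) →
      W₁ = W₂ := by
  intro H _ _ _ A₁ A₂ B₁ B₂ a1 a2 b1 b2 hA hB hT hac θ₁ θ₂ h1 h1' h2 h2' _ W₁ W₂ hw₁ hw₂
  refine Pool.Agent.H612R3.Wave.main a1 a2 b1 b2 hA hB (hT _ (by simp)) (hT _ (by simp)) ?_
    θ₁ θ₂ h1 h1' h2 h2' W₁ W₂ ?_ ?_
  · intro x
    obtain ⟨f, hf, h⟩ := hac x
    exact ⟨_, Pool.Agent.H612R3.Wave.rep_of_prod hf h⟩
  · intro x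
    simp_rw [Pool.Agent.H612R3.Wave.Om_pt]
    exact hw₁ x
  · intro x
    simp_rw [Pool.Agent.H612R3.Wave.Om_pt]
    exact hw₂ x

end Pool.Agent.S03871
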