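import Pool.Statements.S03881
import Pool.Agent.H321R3.UniqB

set_option autoImplicit false
open TopologicalSpace
open Pool Pool.MP_13a5bb_an

namespace Pool.Agent.S03881

/-- For k>1, take any subalgebra of complex power series in k variables containing all polynomials, with a complete metrizable algebra topology in which every coefficient map is continuous. Then every complete metrizable algebra topology on it equals that one. -/
theorem result :
    ∀ (k : ℕ), 1 < k →
    ∀ (S : Subalgebra ℂ (MvPowerSeries (Fin k) ℂ)),
      (∀ p : MvPolynomial (Fin k) ℂ, (p : MvPowerSeries (Fin k) ℂ) ∈ S) →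
      ∀ (t₁ t₂ : TopologicalSpace S),
        @IsTopologicalRing S t₁ _ →
        @ContinuousSMul ℂ S _ _ t₁ →
        @TopologicalSpace.IsCompletelyMetrizableSpace S t₁ →
        (∀ n : Fin k →₀ ℕ,
          @Continuous S ℂ t₁ _ (fun a => MvPowerSeries.coeff n (a : MvPowerSeries (Fin k) ℂ))) →
        @IsTopologicalRing S t₂ _ →
        @ContinuousSMul ℂ S _ _ t₂ →
        @TopologicalSpace.IsCompletelyMetrizableSpace S t₂ →
        t₁ = t₂ := by
  intro k _ S hpoly t₁ t₂ h1 h2 h3 h4 h5 h6 h7
  have key := @Pool.Agent.H321R3.UT.continuous_both k S t₁ h1 h2 h3 S _ _ t₂ h5 h6 h7 hpoly h4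
    AlgEquiv.refl
  apply le_antisymm
  · intro U hU
    have := key.2 U hU
    rwa [AlgEquiv.coe_refl, Set.image_id] at this
  · exact continuous_id_iff_le.1 key.1

end Pool.Agent.S03881
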