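import Pool.Statements.S03891
import Pool.Agent.H487R3.Cau.Assembly
import Pool.Agent.H419R3.Cau.Near
import Pool.Agent.H383R3.CauFar
import Pool.Agent.H224R3.Cau.Matrix
import Pool.Agent.H968R3.Cau.Root
import Pool.Agent.H87R3.Cau.TaskRows
import Pool.Agent.H91R3.CauBessel
import Pool.Agent.H791R3.Cau.Schur
import Pool.Agent.H991R3.CauRect
import Pool.Agent.H250R3.CauDense
import Pool.Agent.H449R3.CauTr
import Pool.Agent.H497R3.CauTail
import Pool.Agent.H71R3.Cau.Limit
import Pool.Agent.H218R3.CauCover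
import Pool.Agent.H92R3.Cau.Ext
import Pool.Agent.H853R3.CauMarc
import Pool.Agent.H265R3.CauPoint

set_option autoImplicit false
open MeasureTheory Filter Set
open scoped ENNReal
open Pool Pool.MP_1503c7_an

namespace Pool.Agent.S03891

/-- For every rectifiable Jordan curve of finite length, parametrized by arclength, there are a weight positive a.e. and a constant c such that the weighted L² norm of the principal-value Cauchy integral of f is at most c times the L² norm of f, for all f in L². -/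
theorem result :
    ∀ L : ℝ, 0 < L → ∀ γ : ℝ → ℂ, LipschitzWith 1 γ →
      (∀ᵐ s ∂(volume.restrict (Set.Icc (0 : ℝ) L)), ‖deriv γ s‖ = 1) →
      Set.InjOn γ (Set.Ico (0 : ℝ) L) →
      ∃ ω : ℝ → ℝ, Measurable ω ∧
        (∀ᵐ t ∂(volume.restrict (Set.Icc (0 : ℝ) L)), 0 < ω t) ∧
        ∃ c : ℝ≥0∞, c < ⊤ ∧
          ∀ f : ℝ → ℂ, MemLp f 2 (volume.restrict (Set.Icc (0 : ℝ) L)) →
            ∫⁻ t in Set.Icc (0 : ℝ) L,
                (Filter.limsup
                  (fun ε : ℝ =>
                    ‖(2 * (Real.pi : ℂ) * Complex.I)⁻¹ *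
                      ∫ s in {s : ℝ | s ∈ Set.Icc (0 : ℝ) L ∧ ε < ‖γ s - γ t‖},
                        f s * deriv γ s / (γ s - γ t)‖ₑ)
                  (nhdsWithin (0 : ℝ) (Set.Ioi 0))) ^ 2 * ENNReal.ofReal (ω t)
              ≤ c * ∫⁻ t in Set.Icc (0 : ℝ) L, ‖f t‖ₑ ^ 2 := by
  exact Pool.Agent.H487R3.Cau.final Pool.Agent.H419R3.Cau.near Pool.Agent.H383R3.CauFar.taskFar
    Pool.Agent.H224R3.Cau.taskMatrix Pool.Agent.H968R3.Cau.taskRoot Pool.Agent.H87R3.Cau.taskRows
    Pool.Agent.H91R3.CauBessel.taskBessel Pool.Agent.H791R3.Cau.taskSchur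
    Pool.Agent.H991R3.CauRect.rect_ok Pool.Agent.H250R3.CauDense.taskDense
    Pool.Agent.H449R3.CauTr.taskTranslate Pool.Agent.H497R3.CauTail.taskTail
    Pool.Agent.H71R3.Cau.taskLimit Pool.Agent.H218R3.CauCover.taskCover
    Pool.Agent.H92R3.Cau.taskExt Pool.Agent.H853R3.CauMarc.taskMarc
    Pool.Agent.H265R3.CauPoint.taskPoint

end Pool.Agent.S03891
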