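import Pool.Statements.S03944
import Pool.Agent.H819R3.Recip3

set_option autoImplicit false
open Pool Pool.MP_18663b_an

namespace Pool.Agent.S03944

open Pool.Agent.H819R3.Recip

/-- block recursion for binary digits -/
lemma block_eq (y : ℝ) (n : ℕ) (k : ℕ) (w : ℕ → ℤ)
    (h : ∀ i : ℕ, i < k → ⌊(2 : ℝ) ^ (n + i + 1) * y⌋ % 2 = w i) :
    ⌊(2 : ℝ) ^ (n + k) * y⌋ % 2 ^ k = ∑ i ∈ Finset.range k, w i * 2 ^ (k - 1 - i) := by
  induction k with
  | zero => simp
  | succ k ih =>
    have ih' := ih (fun i hi => h i (by omega))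
    have hk := h k (by omega)
    set z : ℝ := (2 : ℝ) ^ (n + k) * y with hz
    have e : (2 : ℝ) ^ (n + k + 1) * y = 2 * z := by rw [hz, pow_succ]; ring
    rw [e] at hk
    have e' : (2 : ℝ) ^ (n + (k + 1)) * y = 2 * z := by rw [← e]; congr 1
    rw [e']
    have h1 : ⌊2 * z⌋ = 2 * ⌊z⌋ + w k := by
      have hf1 := Int.floor_le z
      have hf2 := Int.lt_floor_add_one z
      have h2 : 2 * ⌊z⌋ ≤ ⌊2 * z⌋ := by
        rw [Int.le_floor]; push_cast; linarith
      have h3 : ⌊2 * z⌋ < 2 * ⌊z⌋ + 2 := by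
        rw [Int.floor_lt]; push_cast; linarith
      omega
    have hw : w k = 0 ∨ w k = 1 := by omega
    have hmod : ⌊2 * z⌋ % 2 ^ (k + 1) = 2 * (⌊z⌋ % 2 ^ k) + w k := by
      rw [h1]
      have hd := Int.emod_add_mul_ediv ⌊z⌋ (2 ^ k)
      have hlt := Int.emod_lt_of_pos ⌊z⌋ (show (0 : ℤ) < 2 ^ k by positivity)
      have hnn := Int.emod_nonneg ⌊z⌋ (show (2 : ℤ) ^ k ≠ 0 by positivity)
      have e3 : 2 * ⌊z⌋ + w k = (2 * (⌊z⌋ % 2 ^ k) + w k) + 2 ^ (k + 1) * (⌊z⌋ / 2 ^ k) := by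
        rw [pow_succ]; linear_combination (-2 : ℤ) * hd
      rw [e3, Int.add_mul_emod_self_left]
      apply Int.emod_eq_of_lt
      · omega
      · rw [pow_succ]; omega
    rw [hmod, ih', Finset.sum_range_succ]
    have e4 : k + 1 - 1 - k = 0 := by omega
    rw [e4, pow_zero, mul_one, Finset.mul_sum]
    congr 1
    apply Finset.sum_congr rfl
    intro i hi
    rw [Finset.mem_range] at hi
    have e5 : k + 1 - 1 - i = (k - 1 - i) + 1 := by omega
    rw [e5, pow_succ]
    ring

/-- the digit word at position `n` -/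
noncomputable def dig (y : ℝ) (k n : ℕ) : Fin k → Fin 2 := fun i =>
  ⟨(⌊(2 : ℝ) ^ (n + i.val + 1) * y⌋ % 2).toNat, by omega⟩

lemma dig_iff (y : ℝ) (k n : ℕ) (w : Fin k → Fin 2) :
    (∀ i : Fin k, ⌊((2 : ℕ) : ℝ) ^ (n + i.val + 1) * y⌋ % ((2 : ℕ) : ℤ) = ((w i : ℕ) : ℤ)) ↔
      dig y k n = w := by
  constructor
  · intro h
    funext i
    have := h i
    apply Fin.ext
    show (⌊(2 : ℝ) ^ (n + i.val + 1) * y⌋ % 2).toNat = (w i : ℕ)
    push_cast at this
    rw [this]
    simp
  · rintro rfl i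
    show _ = (((⌊(2 : ℝ) ^ (n + i.val + 1) * y⌋ % 2).toNat : ℕ) : ℤ)
    push_cast
    omega

lemma freq_bound (K J k : ℕ) (hk : k ≤ K) (hJ : K + 2 ≤ J) (w : Fin k → Fin 2) :
    (((Finset.range (T (J + 1) * 3 ^ J)).filter (fun n => dig x⁻¹ k n = w)).card : ℝ) /
      ((T (J + 1) * 3 ^ J : ℕ) : ℝ) ≤ (3 / 2) * (1 / 2 ^ k) := by
  set W : ℕ → ℤ := fun i => if hi : i < k then ((w ⟨i, hi⟩ : ℕ) : ℤ) else 0 with hW
  have hsub : (Finset.range (T (J + 1) * 3 ^ J)).filter (fun n => dig x⁻¹ k n = w) ⊆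
      (Finset.range (T (J + 1) * 3 ^ J)).filter
      (fun n => ⌊(2 : ℝ) ^ (n + k) * x⁻¹⌋ % 2 ^ k = ∑ i ∈ Finset.range k, W i * 2 ^ (k - 1 - i)) := by
    intro n hn
    rw [Finset.mem_filter] at hn ⊢
    refine ⟨hn.1, block_eq _ _ _ _ ?_⟩
    intro i hi
    have := (dig_iff x⁻¹ k n w).mpr hn.2 ⟨i, hi⟩
    push_cast at this
    simp only [hW, dif_pos hi]
    exact this
  have h1 := (Nat.cast_le (α := ℝ)).mpr (Finset.card_le_card hsub)
  have h2 := count_block J k (∑ i ∈ Finset.range k, W i * 2 ^ (k - 1 - i))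
  have hT : (0 : ℝ) < T (J + 1) := by have := T_pos (J + 1); exact_mod_cast (by omega : 0 < T (J + 1))
  have h3J : (0 : ℝ) < 3 ^ J := by positivity
  rw [div_le_iff₀ (by push_cast; positivity)]
  refine (h1.trans h2).trans ?_
  push_cast
  have h4 : (T (J + 1) : ℝ) * (3 ^ J * (1 / 2 ^ k + 1 / 2 ^ (J + 8)) + 1) =
      T (J + 1) * 3 ^ J * (1 / 2 ^ k + (1 / 2 ^ (J + 8) + 1 / 3 ^ J)) := by
    field_simp
    ring
  rw [h4]
  have h5 : (1 : ℝ) / 3 ^ J ≤ 1 / 2 ^ J := by
    apply one_div_le_one_div_of_le (by positivity)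
    exact pow_le_pow_left₀ (by norm_num) (by norm_num) _
  have h6 : (1 : ℝ) / 2 ^ J ≤ 1 / 2 ^ (k + 2) := by
    apply one_div_le_one_div_of_le (by positivity)
    exact pow_le_pow_right₀ (by norm_num) (by omega)
  have h7 : (1 : ℝ) / 2 ^ (J + 8) ≤ 1 / 2 ^ (k + 2) := by
    apply one_div_le_one_div_of_le (by positivity)
    exact pow_le_pow_right₀ (by norm_num) (by omega)
  have h8 : (1 : ℝ) / 2 ^ (k + 2) = (1 / 4) * (1 / 2 ^ k) := by
    rw [pow_add]; norm_num
  have h9 : 1 / 2 ^ k + (1 / 2 ^ (J + 8) + 1 / 3 ^ J) ≤ (3 / 2 : ℝ) * (1 / 2 ^ k) := by linarith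
  calc (T (J + 1) : ℝ) * 3 ^ J * (1 / 2 ^ k + (1 / 2 ^ (J + 8) + 1 / 3 ^ J))
      ≤ T (J + 1) * 3 ^ J * (3 / 2 * (1 / 2 ^ k)) := by gcongr
    _ = _ := by ring

/-- Entropy lower bound. -/
lemma entropy_bound (K J k : ℕ) (hk1 : 1 ≤ k) (hk : k ≤ K) (hJ : K + 2 ≤ J) :
    Real.log (4 / 3) ≤ (∑ w : Fin k → Fin 2, Real.negMulLog
      ((((Finset.range (T (J + 1) * 3 ^ J)).filter (fun n => dig x⁻¹ k n = w)).card : ℝ) /
      ((T (J + 1) * 3 ^ J : ℕ) : ℝ))) / (k : ℝ) := by
  set N : ℕ := T (J + 1) * 3 ^ J with hN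
  have hNpos : 0 < N := by have := T_pos (J + 1); positivity
  have hNR : (0 : ℝ) < (N : ℝ) := by exact_mod_cast hNpos
  set p : (Fin k → Fin 2) → ℝ := fun w =>
    (((Finset.range N).filter (fun n => dig x⁻¹ k n = w)).card : ℝ) / (N : ℝ) with hp
  have hsum : ∑ w, p w = 1 := by
    simp only [hp]
    rw [← Finset.sum_div, div_eq_one_iff_eq hNR.ne']
    have := Finset.card_eq_sum_card_fiberwise (s := Finset.range N) (t := Finset.univ)
      (f := fun n => dig x⁻¹ k n) (fun n _ => Finset.mem_coe.mpr (Finset.mem_univ _))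
    rw [Finset.card_range] at this
    have h2 := congrArg (Nat.cast : ℕ → ℝ) this
    push_cast at h2
    exact h2.symm
  have hterm : ∀ w, p w * (k * Real.log 2 - Real.log (3 / 2)) ≤ Real.negMulLog (p w) := by
    intro w
    have hb : p w ≤ (3 / 2) * (1 / 2 ^ k) := freq_bound K J k hk hJ w
    have h0 : 0 ≤ p w := by simp only [hp]; positivity
    rcases h0.eq_or_lt with h | h
    · rw [← h]; simp
    · unfold Real.negMulLog
      have hl : Real.log (p w) ≤ Real.log ((3 / 2) * (1 / 2 ^ k)) := Real.log_le_log h hb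
      have hl2 : Real.log ((3 / 2 : ℝ) * (1 / 2 ^ k)) = Real.log (3 / 2) - k * Real.log 2 := by
        rw [Real.log_mul (by norm_num) (by positivity), one_div, Real.log_inv, Real.log_pow]
        ring
      rw [hl2] at hl
      nlinarith
  have hS : (k : ℝ) * Real.log 2 - Real.log (3 / 2) ≤ ∑ w, Real.negMulLog (p w) := by
    calc (k : ℝ) * Real.log 2 - Real.log (3 / 2)
        = ∑ w, p w * (k * Real.log 2 - Real.log (3 / 2)) := by
          rw [← Finset.sum_mul, hsum, one_mul]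
      _ ≤ _ := Finset.sum_le_sum (fun w _ => hterm w)
  have hkR : (1 : ℝ) ≤ k := by exact_mod_cast hk1
  rw [le_div_iff₀ (by linarith)]
  refine le_trans ?_ hS
  have e : Real.log (4 / 3) = Real.log 2 - Real.log (3 / 2) := by
    rw [← Real.log_div (by norm_num) (by norm_num)]; norm_num
  rw [e]
  have h32 : 0 ≤ Real.log (3 / 2) := Real.log_nonneg (by norm_num)
  nlinarith

/-- `x` is deterministic. -/
lemma det_x (ε : ℝ) (hε : 0 < ε) : ∃ K : ℕ, ∃ N₀ : ℕ, ∀ N : ℕ, N₀ ≤ N →
    ∃ k : ℕ, 1 ≤ k ∧ k ≤ K ∧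
      (∑ w : Fin k → Fin 2, Real.negMulLog
        ((((Finset.range N).filter (fun n => dig x k n = w)).card : ℝ) / (N : ℝ))) / (k : ℝ) < ε := by
  have hcont : Filter.Tendsto Real.binEntropy (nhds 0) (nhds 0) := by
    have := Real.binEntropy_continuous.tendsto 0
    simpa using this
  rw [Metric.tendsto_nhds_nhds] at hcont
  obtain ⟨δ, hδ, hδ2⟩ := hcont ε hε
  obtain ⟨J, hJ⟩ := exists_nat_one_div_lt hδ
  refine ⟨1, m J, fun N hN => ⟨1, le_refl 1, le_refl 1, ?_⟩⟩
  have hmJ : 10 ≤ m J := by have := m_ge1 J; omega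
  have hNpos : 0 < N := by omega
  have hNR : (0 : ℝ) < (N : ℝ) := by exact_mod_cast hNpos
  have hr := cnt_ratio J N (by omega) hNpos
  set p : ℝ := (cnt N : ℝ) / N with hp
  have hp0 : 0 ≤ p := by positivity
  have h1 : ((Finset.range N).filter (fun n => dig x 1 n = fun _ => 1)).card = cnt N := by
    unfold cnt
    congr 1
    apply Finset.filter_congr
    intro n _
    rw [← dig_iff]
    constructor
    · intro h
      have := h 0
      push_cast at this
      simpa using this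
    · intro h i
      have hi : i = 0 := Subsingleton.elim _ _
      subst hi
      push_cast
      simpa using h
  have h0 : ((Finset.range N).filter (fun n => dig x 1 n = fun _ => 0)).card + cnt N = N := by
    rw [← h1]
    have hcard := Finset.card_filter_add_card_filter_not (s := Finset.range N)
      (fun n => dig x 1 n = fun _ => 0)
    rw [Finset.card_range] at hcard
    have hc2 : ((Finset.range N).filter (fun n => dig x 1 n = fun _ => 1)).card =
        ((Finset.range N).filter (fun n => ¬ (dig x 1 n = fun _ => 0))).card := by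
      congr 1
      apply Finset.filter_congr
      intro n _
      constructor
      · intro h hh
        rw [h] at hh
        have := congrFun hh 0
        simp at this
      · intro h
        funext i
        have hi : i = 0 := Subsingleton.elim _ _
        subst hi
        by_contra hne
        apply h
        funext i'
        have hi' : i' = 0 := Subsingleton.elim _ _
        subst hi'
        have : ∀ a : Fin 2, a ≠ 1 → a = 0 := by decide
        exact this _ hne
    omega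
  have hsum : (∑ w : Fin 1 → Fin 2, Real.negMulLog
      ((((Finset.range N).filter (fun n => dig x 1 n = w)).card : ℝ) / (N : ℝ))) =
      Real.binEntropy p := by
    rw [← (Equiv.funUnique (Fin 1) (Fin 2)).symm.sum_comp, Fin.sum_univ_two]
    have e0 : (Equiv.funUnique (Fin 1) (Fin 2)).symm 0 = fun _ => 0 := rfl
    have e1 : (Equiv.funUnique (Fin 1) (Fin 2)).symm 1 = fun _ => 1 := rfl
    rw [e0, e1, h1]
    have h0R : (((Finset.range N).filter (fun n => dig x 1 n = fun _ => 0)).card : ℝ) / N = 1 - p := by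
      have := congrArg (Nat.cast : ℕ → ℝ) h0
      push_cast at this
      rw [hp]
      field_simp
      linarith
    rw [h0R, Real.binEntropy_eq_negMulLog_add_negMulLog_one_sub]
    ring
  rw [hsum]
  have hd := hδ2 (x := p) (by
    rw [Real.dist_eq, sub_zero, abs_of_nonneg hp0]
    exact lt_of_le_of_lt hr hJ)
  rw [Real.dist_eq, sub_zero] at hd
  have := (abs_lt.mp hd).2
  simpa using this

/-- The negation of the preceding statement: For every base r≥2, if a nonzero real x has base-r digits whose limiting block-frequency measures all have zero entropy (deterministic), then the digits of 1/x have the same property. -/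
theorem result :
    ¬ (∀ r : ℕ, 2 ≤ r →
    ∀ D : ℝ → Prop,
      (∀ y : ℝ, D y ↔
        ∀ ε : ℝ, 0 < ε → ∃ K : ℕ, ∃ N₀ : ℕ, ∀ N : ℕ, N₀ ≤ N →
          ∃ k : ℕ, 1 ≤ k ∧ k ≤ K ∧
            (∑ w : Fin k → Fin r,
                Real.negMulLog
                  ((((Finset.range N).filter (fun n : ℕ =>
                      ∀ i : Fin k,
                        ⌊(r : ℝ) ^ (n + i.val + 1) * y⌋ % (r : ℤ) = ((w i : ℕ) : ℤ))).card : ℝ)
                    / (N : ℝ))) / (k : ℝ) < ε) →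
      ∀ x : ℝ, x ≠ 0 → D x → D x⁻¹) := by
  intro H
  have H2 := H 2 (le_refl 2) _ (fun y => Iff.rfl) x (by have := x_pos; linarith)
  simp only [dig_iff] at H2
  have H3 := H2 (fun ε hε => det_x ε hε) (Real.log (4 / 3)) (Real.log_pos (by norm_num))
  obtain ⟨K, N₀, h⟩ := H3
  have hbig : N₀ ≤ T (N₀ + K + 2 + 1) * 3 ^ (N₀ + K + 2) := by
    have h1 := T_pos (N₀ + K + 2 + 1)
    have h2 : N₀ + K + 2 < 3 ^ (N₀ + K + 2) := Nat.lt_pow_self (by norm_num)
    nlinarith
  obtain ⟨k, hk1, hk2, hk3⟩ := h _ hbig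
  have := entropy_bound K (N₀ + K + 2) k hk1 hk2 (by omega)
  linarith

end Pool.Agent.S03944
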