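import Pool.Statements.S03965
import Pool.Agent.H100R3.DivG

set_option autoImplicit false
open MeasureTheory Filter Topology
open Pool Pool.MP_1a9b47_an

namespace Pool.Agent.S03965

/-- There is a complete orthonormal system of measurable functions in L²[0,1] such that, for every function analytic on [0,1] and not identically zero there, its expansion's partial sums fail to converge at almost every point of [0,1]. -/
theorem result :
    ∃ φ : ℕ → ℝ → ℝ,
      (∀ n, Measurable (φ n)) ∧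
      (∀ n, MemLp (φ n) 2 (volume.restrict (Set.Icc (0:ℝ) 1))) ∧
      (∀ i j, ∫ t in Set.Icc (0:ℝ) 1, φ i t * φ j t = if i = j then (1:ℝ) else 0) ∧
      (∀ g : ℝ → ℝ, MemLp g 2 (volume.restrict (Set.Icc (0:ℝ) 1)) →
        (∀ n, ∫ t in Set.Icc (0:ℝ) 1, g t * φ n t = 0) →
        g =ᵐ[volume.restrict (Set.Icc (0:ℝ) 1)] 0) ∧
      (∀ f : ℝ → ℝ, AnalyticOnNhd ℝ f (Set.Icc (0:ℝ) 1) →
        (∃ x ∈ Set.Icc (0:ℝ) 1, f x ≠ 0) →
        ∀ᵐ t ∂(volume.restrict (Set.Icc (0:ℝ) 1)),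
          ¬ ∃ L : ℝ, Tendsto
            (fun N : ℕ => ∑ n ∈ Finset.range N,
              (∫ s in Set.Icc (0:ℝ) 1, f s * φ n s) * φ n t)
            atTop (𝓝 L)) :=
  ⟨Pool.Agent.H100R3.Div.ph, Pool.Agent.H100R3.Div.ph_meas, Pool.Agent.H100R3.Div.ph_memLp,
    Pool.Agent.H100R3.Div.ph_orth,
    fun _ hg h0 => Pool.Agent.H100R3.Div.complete (Pool.Agent.H100R3.Div.mul_sqrt_int hg) h0,
    fun _ hf hne => Pool.Agent.H100R3.Div.main_div hf hne⟩

end Pool.Agent.S03965
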