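import Pool.Statements.S03981
import Pool.Agent.H439R3.BTconv

set_option autoImplicit false
open MeasureTheory
open scoped NNReal ENNReal
open Pool Pool.MP_1be715_an

namespace Pool.Agent.S03981

/-- For all positive locally integrable weights w, σ on the unit disc with M(σ·) bounded L²(σ)→L²(w) and M(w·) bounded L²(w)→L²(σ), the Bergman projection P_B(σ·) is bounded L²(σ)→L²(w) iff both Carleson-box testing conditions hold. -/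
theorem result :
  ∀ (μ : Measure ℂ), μ = (ENNReal.ofReal (Real.pi⁻¹)) • volume.restrict (Metric.ball (0:ℂ) 1) →
  ∀ (Q : ℝ → ℝ → Set ℂ), (∀ θ ℓ : ℝ, Q θ ℓ = {z : ℂ | z ≠ 0 ∧ ‖z‖ < 1 ∧ 1 - ‖z‖ ≤ ℓ ∧
      ∃ t ∈ Set.Icc θ (θ + 2 * Real.pi * ℓ), z / ((‖z‖ : ℝ) : ℂ) = Complex.exp ((t : ℂ) * Complex.I)}) →
  ∀ (M : (ℂ → ℂ) → ℂ → ℝ≥0∞), (∀ (g : ℂ → ℂ) (x : ℂ), M g x =
      ⨆ (θ : ℝ) (ℓ : ℝ) (_ : 0 < ℓ ∧ ℓ ≤ 1 ∧ x ∈ Q θ ℓ), (∫⁻ ζ in Q θ ℓ, ‖g ζ‖ₑ ∂μ) / μ (Q θ ℓ)) →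
  ∀ (P : (ℂ → ℂ) → ℂ → ℂ), (∀ (g : ℂ → ℂ) (z : ℂ),
      P g z = ∫ ζ, g ζ / (1 - z * (starRingEnd ℂ) ζ) ^ 2 ∂μ) →
  ∀ (w σ : ℂ → ℝ), (∀ z ∈ Metric.ball (0:ℂ) 1, 0 < w z ∧ 0 < σ z) →
    LocallyIntegrableOn w (Metric.ball (0:ℂ) 1) volume →
    LocallyIntegrableOn σ (Metric.ball (0:ℂ) 1) volume →
    (∃ C : ℝ≥0, ∀ f : ℂ → ℂ, AEStronglyMeasurable f μ →
      ∫⁻ z, ENNReal.ofReal (w z) * (M (fun ζ => (σ ζ : ℂ) * f ζ) z) ^ 2 ∂μ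
        ≤ (C : ℝ≥0∞) * ∫⁻ ζ, ENNReal.ofReal (σ ζ) * ‖f ζ‖ₑ ^ 2 ∂μ) →
    (∃ C : ℝ≥0, ∀ f : ℂ → ℂ, AEStronglyMeasurable f μ →
      ∫⁻ z, ENNReal.ofReal (σ z) * (M (fun ζ => (w ζ : ℂ) * f ζ) z) ^ 2 ∂μ
        ≤ (C : ℝ≥0∞) * ∫⁻ ζ, ENNReal.ofReal (w ζ) * ‖f ζ‖ₑ ^ 2 ∂μ) →
    ((∃ C : ℝ≥0, ∀ f : ℂ → ℂ, AEStronglyMeasurable f μ →
        Integrable (fun ζ => (σ ζ : ℂ) * f ζ) μ →
        ∫⁻ ζ, ENNReal.ofReal (σ ζ) * ‖f ζ‖ₑ ^ 2 ∂μ < ⊤ →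
        ∫⁻ z, ENNReal.ofReal (w z) * ‖P (fun ζ => (σ ζ : ℂ) * f ζ) z‖ₑ ^ 2 ∂μ
          ≤ (C : ℝ≥0∞) * ∫⁻ ζ, ENNReal.ofReal (σ ζ) * ‖f ζ‖ₑ ^ 2 ∂μ)
      ↔
     (∃ C₀ : ℝ≥0, ∀ θ ℓ : ℝ, 0 < ℓ → ℓ ≤ 1 →
        (∫⁻ z, ENNReal.ofReal (w z) *
            ‖P (fun ζ => (Q θ ℓ).indicator (fun ξ => (σ ξ : ℂ)) ζ) z‖ₑ ^ 2 ∂μ
          ≤ (C₀ : ℝ≥0∞) * ∫⁻ ζ in Q θ ℓ, ENNReal.ofReal (σ ζ) ∂μ) ∧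
        (∫⁻ z, ENNReal.ofReal (σ z) *
            ‖P (fun ζ => (Q θ ℓ).indicator (fun ξ => (w ξ : ℂ)) ζ) z‖ₑ ^ 2 ∂μ
          ≤ (C₀ : ℝ≥0∞) * ∫⁻ ζ in Q θ ℓ, ENNReal.ofReal (w ζ) ∂μ))) := by
  intro μ hμ Q hQ M hM P hP w σ hpos hwl hσl h1 h2
  have hμ' : μ = Pool.Agent.Helper807.BT.areaD := by
    rw [hμ, Pool.Agent.Helper807.BT.areaD, one_div]
  subst hμ'
  have hQ' : Q = Pool.Agent.H439R3.BTconv.QQ := by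
    funext θ l
    rw [hQ]
    rfl
  subst hQ'
  have hP' : P = Pool.Agent.Helper807.BT.bergP := by
    funext g z
    rw [hP]
    rfl
  subst hP'
  have hw : Pool.Agent.Helper807.BT.IsWeight w :=
    ⟨fun z hz => (hpos z (by simpa using hz)).1, hwl⟩
  have hσ : Pool.Agent.Helper807.BT.IsWeight σ :=
    ⟨fun z hz => (hpos z (by simpa using hz)).2, hσl⟩
  have iw := Pool.Agent.H439R3.BTconv.int_of_M hw hσ M hM h1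
  have iσ := Pool.Agent.H439R3.BTconv.int_of_M hσ hw M hM h2
  exact Pool.Agent.H439R3.BTconv.main hw hσ iw iσ

end Pool.Agent.S03981
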