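import Pool.Statements.S03988
import Pool.Agent.H101R3.Weak

set_option autoImplicit false
open Pool Pool.MP_1c6fe5_an

namespace Pool.Agent.S03988

open Filter Topology

/-- the Hilbert space `ℓ²` -/
abbrev V : Type := lp (fun _ : ℕ => ℝ) 2

/-- the unit vectors -/
noncomputable def e (j : ℕ) : V := lp.single 2 j (1 : ℝ)

lemma norm_e (j : ℕ) : ‖e j‖ = 1 := by
  unfold e
  rw [lp.norm_single (by norm_num)]
  simp

/-- the coordinate functionals -/
noncomputable def z (j : ℕ) : StrongDual ℝ V := innerSL ℝ (e j)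

lemma z_apply (j k : ℕ) : z j (e k) = if j = k then 1 else 0 := by
  unfold z e
  rw [innerSL_apply_apply, lp.inner_single_left, lp.single_apply]
  by_cases h : j = k
  · subst h; simp
  · simp [h]

lemma norm_z (j : ℕ) : ‖z j‖ ≤ 1 := by
  unfold z
  rw [innerSL_apply_norm, norm_e]

/-- the closed unit ball of the dual -/
noncomputable def C : Set (StrongDual ℝ V) := Metric.closedBall 0 1

lemma mem_C (φ : StrongDual ℝ V) : φ ∈ C ↔ ‖φ‖ ≤ 1 := by
  unfold C
  rw [mem_closedBall_zero_iff]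

/-- the finitely many coordinates `0, ..., i` -/
noncomputable def P (i : ℕ) (φ : StrongDual ℝ V) : Fin (i + 1) → ℝ := fun j => φ (e j)

lemma P_sub (i : ℕ) (φ ψ : StrongDual ℝ V) : ‖P i φ - P i ψ‖ ≤ ‖φ - ψ‖ := by
  rw [pi_norm_le_iff_of_nonneg (norm_nonneg _)]
  intro j
  have h := (φ - ψ).le_opNorm (e j)
  rw [norm_e, mul_one] at h
  exact h

lemma P_le (i : ℕ) (φ : StrongDual ℝ V) : ‖P i φ‖ ≤ ‖φ‖ := by
  have h := P_sub i φ 0
  rw [sub_zero] at h
  have h0 : P i 0 = 0 := by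
    funext j
    simp [P]
  rwa [h0, sub_zero] at h

/-- the self-map `φ ↦ ‖P i φ‖ u` -/
noncomputable def Tm (i : ℕ) (u φ : StrongDual ℝ V) : StrongDual ℝ V := ‖P i φ‖ • u

lemma Tm_z_le {i j : ℕ} (h : j ≤ i) (u : StrongDual ℝ V) : Tm i u (z j) = u := by
  have h1 : ‖P i (z j)‖ = 1 := by
    apply le_antisymm ((P_le i (z j)).trans (norm_z j))
    have h2 := norm_le_pi_norm (P i (z j)) ⟨j, by omega⟩
    have h3 : P i (z j) ⟨j, by omega⟩ = 1 := by
      unfold P
      rw [z_apply, if_pos rfl]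
    rw [h3] at h2
    simpa using h2
  unfold Tm
  rw [h1, one_smul]

lemma Tm_z_gt {i j : ℕ} (h : i < j) (u : StrongDual ℝ V) : Tm i u (z j) = 0 := by
  have h1 : P i (z j) = 0 := by
    funext k
    unfold P
    rw [z_apply, if_neg (by have := k.2; omega)]
    rfl
  unfold Tm
  rw [h1, norm_zero, zero_smul]

/-- the admissible self-maps: they map `C` to `C`, are nonexpansive on `C` and weak* continuous on
`C` -/
def Adm (s : StrongDual ℝ V → StrongDual ℝ V) : Prop :=
  Set.MapsTo s C C ∧ (∀ φ ∈ C, ∀ ψ ∈ C, ‖s φ - s ψ‖ ≤ ‖φ - ψ‖) ∧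
  ContinuousOn (fun ω => StrongDual.toWeakDual (s (StrongDual.toWeakDual.symm ω)))
    (StrongDual.toWeakDual '' C)

/-- the semigroup of all admissible self-maps -/
def Sg : Type := {s : StrongDual ℝ V → StrongDual ℝ V // Adm s}

lemma adm_comp {s t : StrongDual ℝ V → StrongDual ℝ V} (hs : Adm s) (ht : Adm t) :
    Adm (fun φ => s (t φ)) := by
  refine ⟨fun φ hφ => hs.1 (ht.1 hφ), fun φ hφ ψ hψ => ?_, ?_⟩
  · exact (hs.2.1 _ (ht.1 hφ) _ (ht.1 hψ)).trans (ht.2.1 _ hφ _ hψ)
  · have h := hs.2.2.comp ht.2.2 (by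
      rintro _ ⟨φ, hφ, rfl⟩
      exact ⟨t φ, ht.1 hφ, by simp⟩)
    refine h.congr fun ω _ => ?_
    simp

instance : Semigroup Sg where
  mul s t := ⟨fun φ => s.1 (t.1 φ), adm_comp s.2 t.2⟩
  mul_assoc _ _ _ := rfl

lemma mul_val (s t : Sg) (φ : StrongDual ℝ V) : (s * t).1 φ = s.1 (t.1 φ) := rfl

/-- the constant maps -/
def cst (u : StrongDual ℝ V) (hu : u ∈ C) : Sg :=
  ⟨fun _ => u, fun _ _ => hu, fun φ _ ψ _ => by simp, continuousOn_const⟩

lemma mul_cst (s : Sg) (u : StrongDual ℝ V) (hu : u ∈ C) : s * cst u hu = cst (s.1 u) (s.2.1 hu) :=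
  rfl

lemma cst_congr {u v : StrongDual ℝ V} (hu : u ∈ C) (hv : v ∈ C) (h : u = v) :
    cst u hu = cst v hv := by
  subst h; rfl

lemma adm_Tm (i : ℕ) (u : StrongDual ℝ V) (hu : u ∈ C) : Adm (Tm i u) := by
  rw [mem_C] at hu
  refine ⟨fun φ hφ => ?_, fun φ hφ ψ hψ => ?_, ?_⟩
  · rw [mem_C] at hφ ⊢
    unfold Tm
    rw [norm_smul, norm_norm]
    have h1 := (P_le i φ).trans hφ
    have h2 := norm_nonneg (P i φ)
    nlinarith [norm_nonneg u]
  · have h0 : Tm i u φ - Tm i u ψ = (‖P i φ‖ - ‖P i ψ‖) • u := (sub_smul _ _ _).symm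
    rw [h0, norm_smul, Real.norm_eq_abs]
    have h1 := (abs_norm_sub_norm_le (P i φ) (P i ψ)).trans (P_sub i φ ψ)
    have h2 : |‖P i φ‖ - ‖P i ψ‖| * ‖u‖ ≤ |‖P i φ‖ - ‖P i ψ‖| * 1 :=
      mul_le_mul_of_nonneg_left hu (abs_nonneg _)
    linarith
  · apply Continuous.continuousOn
    unfold Tm
    have h1 : Continuous fun ω : WeakDual ℝ V => P i (StrongDual.toWeakDual.symm ω) := by
      apply continuous_pi
      intro j
      exact WeakDual.eval_continuous (e j)
    have h2 : Continuous fun ω : WeakDual ℝ V =>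
        ‖P i (StrongDual.toWeakDual.symm ω)‖ • (StrongDual.toWeakDual u) := h1.norm.smul continuous_const
    refine h2.congr fun ω => ?_
    rw [map_smul]

lemma sep : TopologicalSpace.IsSeparable C := by
  have h1 : TopologicalSpace.IsSeparable (Set.univ : Set V) := by
    have h2 : TopologicalSpace.IsSeparable (closure (Submodule.span ℝ (Set.range e) : Set V)) :=
      ((Set.countable_range e).isSeparable.span (R := ℝ)).closure
    refine h2.mono fun f _ => ?_
    have h3 : HasSum (fun i => lp.single 2 i (f i)) f := lp.hasSum_single (by norm_num) f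
    refine mem_closure_of_tendsto h3 (Eventually.of_forall fun F => ?_)
    apply Submodule.sum_mem
    intro i _
    have h4 : lp.single 2 i (f i) = (f i) • e i := by
      unfold e
      rw [← lp.single_smul]
      simp
    rw [h4]
    exact Submodule.smul_mem _ _ (Submodule.subset_span ⟨i, rfl⟩)
  have h5 : TopologicalSpace.IsSeparable
      ((InnerProductSpace.toDual ℝ V) '' (Set.univ : Set V)) :=
    h1.image (InnerProductSpace.toDual ℝ V).continuous
  rw [Set.image_univ, (InnerProductSpace.toDual ℝ V).surjective.range_eq] at h5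
  exact h5.mono (Set.subset_univ _)

lemma cpt : IsCompact (StrongDual.toWeakDual '' C) := by
  have h := WeakDual.isCompact_closedBall (𝕜 := ℝ) (E := V) 0 1
  convert h using 1
  ext ω
  constructor
  · rintro ⟨φ, hφ, rfl⟩
    simpa [C] using hφ
  · intro hω
    exact ⟨WeakDual.toStrongDual ω, hω, by simp⟩

/-- the limit along an ultrafilter on `ℕ` of the values of `G` at a sequence of points -/
lemma exists_lim (U : Ultrafilter ℕ) (c : ℕ → Sg) : ∃ L : lp (fun _ : Sg => ℝ) ⊤ →L[ℝ] ℝ,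
    ∀ G : lp (fun _ : Sg => ℝ) ⊤, Tendsto (fun j => G (c j)) U (𝓝 (L G)) := by
  have hex : ∀ G : lp (fun _ : Sg => ℝ) ⊤, ∃ l : ℝ, |l| ≤ ‖G‖ ∧ Tendsto (fun j => G (c j)) U (𝓝 l) := by
    intro G
    have h1 : ∀ j, ‖G (c j)‖ ≤ ‖G‖ := fun j => lp.norm_apply_le_norm (by norm_num) G (c j)
    obtain ⟨l, hl, hl2⟩ := (isCompact_closedBall (0:ℝ) ‖G‖).ultrafilter_le_nhds
      (U.map fun j => G (c j)) (by
        rw [Ultrafilter.coe_map, le_principal_iff, mem_map]
        filter_upwards with j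
        simpa using h1 j)
    refine ⟨l, by simpa using hl, ?_⟩
    rwa [Ultrafilter.coe_map] at hl2
  choose L hL1 hL2 using hex
  refine ⟨LinearMap.mkContinuous
    { toFun := L
      map_add' := fun G H => ?_
      map_smul' := fun a G => ?_ } 1 (fun G => ?_), fun G => hL2 G⟩
  · refine tendsto_nhds_unique (hL2 (G + H)) ?_
    exact ((hL2 G).add (hL2 H)).congr fun j => rfl
  · refine tendsto_nhds_unique (hL2 (a • G)) ?_
    exact ((hL2 G).const_mul a).congr fun j => rfl
  · rw [one_mul]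
    exact hL1 G

/-- the double limit argument -/
lemma key (f : Sg → ℝ) (hW : ∃ F : lp (fun _ : Sg => ℝ) ⊤, (∀ t, F t = f t) ∧
    IsCompact (closure (toWeakSpace ℝ (lp (fun _ : Sg => ℝ) ⊤) ''
      {G : lp (fun _ : Sg => ℝ) ⊤ | ∃ s : Sg, ∀ t : Sg, G t = f (s * t)})))
    (u : StrongDual ℝ V) (hu : u ∈ C) (h0 : (0 : StrongDual ℝ V) ∈ C) :
    f (cst u hu) = f (cst 0 h0) := by
  obtain ⟨F, hF, hK⟩ := hW
  have hz : ∀ j, z j ∈ C := fun j => (mem_C _).mpr (norm_z j)
  set c : ℕ → Sg := fun j => cst (z j) (hz j) with hc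
  set T : ℕ → Sg := fun i => ⟨Tm i u, adm_Tm i u hu⟩ with hT
  have hle : ∀ i j, j ≤ i → T i * c j = cst u hu := by
    intro i j h
    rw [hc, mul_cst]
    exact cst_congr _ _ (Tm_z_le h u)
  have hgt : ∀ i j, i < j → T i * c j = cst 0 h0 := by
    intro i j h
    rw [hc, mul_cst]
    exact cst_congr _ _ (Tm_z_gt h u)
  -- the left translates
  have hG : ∀ i, ∃ G : lp (fun _ : Sg => ℝ) ⊤, ∀ t, G t = f (T i * t) := by
    intro i
    have hb : Memℓp (fun t : Sg => f (T i * t)) ⊤ := by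
      rw [memℓp_infty_iff]
      refine ⟨‖F‖, ?_⟩
      rintro _ ⟨t, rfl⟩
      have := lp.norm_apply_le_norm (by norm_num) F (T i * t)
      rwa [hF] at this
    exact ⟨⟨_, hb⟩, fun t => rfl⟩
  choose G hG using hG
  set U : Ultrafilter ℕ := hyperfilter ℕ with hU
  obtain ⟨h, hhK, hh⟩ := hK.ultrafilter_le_nhds
    (U.map fun i => toWeakSpace ℝ (lp (fun _ : Sg => ℝ) ⊤) (G i)) (by
      rw [Ultrafilter.coe_map, le_principal_iff, mem_map]
      filter_upwards with i
      exact subset_closure ⟨G i, ⟨T i, hG i⟩, rfl⟩)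
  rw [Ultrafilter.coe_map] at hh
  have hh' : Tendsto (fun i => toWeakSpace ℝ (lp (fun _ : Sg => ℝ) ⊤) (G i)) U (𝓝 h) := hh
  have hlim : ∀ Λ : lp (fun _ : Sg => ℝ) ⊤ →L[ℝ] ℝ, Tendsto (fun i => Λ (G i)) U
      (𝓝 (Λ ((toWeakSpace ℝ (lp (fun _ : Sg => ℝ) ⊤)).symm h))) := by
    intro Λ
    have h1 := ((Pool.Agent.H101R3.Weak.weak_eval Λ).tendsto h).comp hh'
    exact h1
  set g := (toWeakSpace ℝ (lp (fun _ : Sg => ℝ) ⊤)).symm h with hg
  have hcof : ∀ j : ℕ, ∀ᶠ i in (U : Filter ℕ), j < i := by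
    intro j
    have h1 : ∀ᶠ i in atTop, j < i := eventually_gt_atTop j
    exact Nat.hyperfilter_le_atTop h1
  -- values of the limit
  have hval : ∀ j, g (c j) = f (cst u hu) := by
    intro j
    have h1 := hlim (lp.evalCLM ℝ (fun _ : Sg => ℝ) ⊤ (c j))
    refine tendsto_nhds_unique h1 ?_
    refine tendsto_const_nhds.congr' ?_
    filter_upwards [hcof j] with i hi
    change f (cst u hu) = (G i) (c j)
    rw [hG, hle i j hi.le]
  obtain ⟨L, hL⟩ := exists_lim U c
  have hL1 : L g = f (cst u hu) := by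
    refine tendsto_nhds_unique (hL g) ?_
    exact tendsto_const_nhds.congr fun j => (hval j).symm
  have hL2 : ∀ i, L (G i) = f (cst 0 h0) := by
    intro i
    refine tendsto_nhds_unique (hL (G i)) ?_
    refine tendsto_const_nhds.congr' ?_
    filter_upwards [hcof i] with j hj
    rw [hG, hgt i j hj]
  have hL3 : L g = f (cst 0 h0) := by
    refine tendsto_nhds_unique (hlim L) ?_
    exact tendsto_const_nhds.congr fun i => (hL2 i).symm
  rw [← hL1, hL3]

/-- The negation of the preceding statement: For every semigroup S: if WAP(S) has a left invariant mean, then every left action of S on a nonempty convex, norm-separable, weak*-compact subset of a real dual Banach space, by norm-nonexpansive weak*-continuous maps, has a common fixed point. -/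
theorem result :
    ¬ (∀ (S : Type) [Semigroup S] (W : (S → ℝ) → Prop),
      (∀ f : S → ℝ, W f ↔
        ∃ F : lp (fun _ : S => ℝ) ⊤, (∀ t, F t = f t) ∧
          IsCompact (closure (toWeakSpace ℝ (lp (fun _ : S => ℝ) ⊤) ''
            {G : lp (fun _ : S => ℝ) ⊤ | ∃ s : S, ∀ t : S, G t = f (s * t)}))) →
      (∃ m : (S → ℝ) → ℝ,
        (∀ f g : S → ℝ, W f → W g → m (f + g) = m f + m g) ∧
        (∀ (c : ℝ) (f : S → ℝ), W f → m (c • f) = c * m f) ∧
        (∀ f : S → ℝ, W f → (∀ t, 0 ≤ f t) → 0 ≤ m f) ∧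
        m (fun _ => 1) = 1 ∧
        (∀ (s : S) (f : S → ℝ), W f → m (fun t => f (s * t)) = m f)) →
      ∀ (X : Type) [NormedAddCommGroup X] [NormedSpace ℝ X] [CompleteSpace X]
        (C : Set (StrongDual ℝ X)) (T : S → StrongDual ℝ X → StrongDual ℝ X),
        C.Nonempty → Convex ℝ C → TopologicalSpace.IsSeparable C →
        IsCompact (StrongDual.toWeakDual '' C) →
        (∀ s, Set.MapsTo (T s) C C) →
        (∀ s t : S, ∀ φ ∈ C, T (s * t) φ = T s (T t φ)) →
        (∀ s : S, ∀ φ ∈ C, ∀ ψ ∈ C, ‖T s φ - T s ψ‖ ≤ ‖φ - ψ‖) →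
        (∀ s : S, ContinuousOn
          (fun ω => StrongDual.toWeakDual (T s (StrongDual.toWeakDual.symm ω)))
          (StrongDual.toWeakDual '' C)) →
        ∃ φ ∈ C, ∀ s : S, T s φ = φ) := by
  intro H
  have h0 : (0 : StrongDual ℝ V) ∈ C := by rw [mem_C]; simp
  have h1 : z 0 ∈ C := (mem_C _).mpr (norm_z 0)
  obtain ⟨φ, _, hφ⟩ := H Sg _ (fun f => Iff.rfl) ⟨fun f => f (cst 0 h0), fun f g _ _ => rfl,
    fun c f _ => rfl, fun f _ hf => hf _, rfl, fun s f hf => by
      change f (s * cst 0 h0) = f (cst 0 h0)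
      rw [mul_cst]
      exact key f hf _ _ _⟩ V C (fun s => s.1) ⟨0, h0⟩ (convex_closedBall _ _) sep cpt
    (fun s => s.2.1) (fun s t φ _ => rfl) (fun s => s.2.2.1) (fun s => s.2.2.2)
  have h2 : (0 : StrongDual ℝ V) = φ := hφ (cst 0 h0)
  have h3 : z 0 = φ := hφ (cst (z 0) h1)
  have h4 := z_apply 0 0
  rw [h3, ← h2] at h4
  simp at h4

end Pool.Agent.S03988
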