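import Pool.Statements.S04003
import Pool.Agent.H487R3.EnvF

set_option autoImplicit false
open Pool Pool.MP_1e94b9_an

namespace Pool.Agent.S04003

/-- For every separable real Banach space with no subspace isomorphic to ℓ¹, the norm closure of the convex hull of the weak*-exposed points of the dual unit ball is the whole dual unit ball. -/
theorem result :
    ∀ (X : Type) [NormedAddCommGroup X] [NormedSpace ℝ X] [CompleteSpace X]
      [TopologicalSpace.SeparableSpace X],
      (¬ ∃ T : (lp (fun _ : ℕ => ℝ) 1) →L[ℝ] X, ∃ c : ℝ, 0 < c ∧ ∀ a, c * ‖a‖ ≤ ‖T a‖) →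
      closure (convexHull ℝ
        {f : X →L[ℝ] ℝ | f ∈ Metric.closedBall (0 : X →L[ℝ] ℝ) 1 ∧
          ∃ x : X, ∀ g ∈ Metric.closedBall (0 : X →L[ℝ] ℝ) 1, g ≠ f → g x < f x})
        = Metric.closedBall (0 : X →L[ℝ] ℝ) 1 := by
  intro X _ _ _ _ hno
  set S : Set (X →L[ℝ] ℝ) := {f : X →L[ℝ] ℝ | f ∈ Metric.closedBall (0 : X →L[ℝ] ℝ) 1 ∧
          ∃ x : X, ∀ g ∈ Metric.closedBall (0 : X →L[ℝ] ℝ) 1, g ≠ f → g x < f x} with hSdef
  refine Set.Subset.antisymm ?_ ?_
  · refine closure_minimal (convexHull_min (fun f hf => hf.1) (convex_closedBall 0 1))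
      Metric.isClosed_closedBall
  · intro ξ hξ
    by_contra hcon
    obtain ⟨F, u, hF1, hF2⟩ := geometric_hahn_banach_closed_point
      (convex_convexHull ℝ S).closure isClosed_closure hcon
    have hS1 : ∀ b ∈ S, ‖b‖ ≤ 1 := fun b hb => by
      have := hb.1
      rwa [Metric.mem_closedBall, dist_zero_right] at this
    have hSF : ∀ b ∈ S, F b ≤ u := fun b hb =>
      (hF1 b (subset_closure (subset_convexHull ℝ _ hb))).le
    let d : ℝ := (F ξ - u) / 8
    have hd : 0 < d := by
      simp only [d]
      linarith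
    by_cases hc : H487.Env.Cov F (u + 4 * d) S
    · obtain ⟨L, hL, hSL⟩ := hc
      have h1 := H487.Env.env_general L (fun n => (hL n).1) (fun n b hb => ((hL n).2.2 b hb).1)
        (fun n => (hL n).2.1) (fun φ hφ hex => by
          have h2 : φ ∈ S := by
            refine ⟨?_, ?_⟩
            · rw [Metric.mem_closedBall, dist_zero_right]; exact hφ
            · obtain ⟨z, hz⟩ := hex
              refine ⟨z, fun g hg hne => hz g ?_ hne⟩
              rwa [Metric.mem_closedBall, dist_zero_right] at hg
          exact Set.mem_iUnion.1 (hSL h2))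
      have h2 := h1 hξ
      have h3 : closure (convexHull ℝ (⋃ n, L n)) ⊆ {b | F b ≤ u + 4 * d} := by
        refine closure_minimal (convexHull_min ?_ ?_) (isClosed_le F.continuous continuous_const)
        · refine Set.iUnion_subset fun n b hb => ((hL n).2.2 b hb).2
        · exact convex_halfSpace_le F.isLinear _
      have h4 : F ξ ≤ u + 4 * d := h3 h2
      have h5 : 8 * d = F ξ - u := by simp only [d]; ring
      linarith
    · obtain ⟨x, hx, htree⟩ := H487.Env.exists_tree hd hS1 hSF hc
      exact hno (H487.Env.exists_l1 x ‖F‖ hx (u + d) (u + 2 * d) d hd (by linarith) htree)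

end Pool.Agent.S04003
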