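import Pool.Statements.S04011
import Pool.Agent.H740R3.Dust4

set_option autoImplicit false
open Filter Topology
open Pool Pool.MP_1f345d_an

namespace Pool.Agent.S04011

theorem result :
    ∀ a b h : ℝ, 0 < a → 0 < b → 0 < h →
      ∃ x y : ℕ → ℂ, Tendsto x atTop (𝓝 0) ∧ Tendsto y atTop (𝓝 0) ∧
        ∀ lam mu : ℝ,
          (∃ ε : ℕ → Bool, lam = a + h * ∑' m : ℕ, (if ε m then (3/4 : ℝ) * (1/4 : ℝ) ^ m else 0)) →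
          (∃ δ : ℕ → Bool, mu = b + h * ∑' m : ℕ, (if δ m then (3/4 : ℝ) * (1/4 : ℝ) ^ m else 0)) →
          ∀ u v : ℕ → ℂ, Tendsto u atTop (𝓝 0) → Tendsto v atTop (𝓝 0) →
            ∀ η : ℝ, 0 < η → ∃ k : ℕ, ∀ n : ℕ,
              ‖((Real.exp ((k : ℝ) * lam) : ℝ) : ℂ) * x (n + k) - u n‖ < η ∧
              ‖((Real.exp ((k : ℝ) * mu) : ℝ) : ℂ) * y (n + k) - v n‖ < η := by
  intro a b h ha hb hh
  obtain ⟨x, y, hx, hy, H⟩ := Pool.Agent.H740R3.Dust.main a b h ha hb hh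
  refine ⟨x, y, hx, hy, ?_⟩
  rintro lam mu ⟨ε, rfl⟩ ⟨δ, rfl⟩ u v hu hv η hη
  exact H _ _ ⟨_, ⟨ε, rfl⟩, rfl⟩ ⟨_, ⟨δ, rfl⟩, rfl⟩ u v hu hv η hη

end Pool.Agent.S04011
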