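import Pool.Statements.S04016
import Pool.Agent.H337R3.Ritt4

set_option autoImplicit false
open Pool Pool.MP_1fc4c0_an

namespace Pool.Agent.S04016

open Pool.Agent.H337R3

/-- The negation of the preceding statement: For every probability measure on the integers whose Fourier transform has modulus below 1 off 0 mod 2π: the bound ∣1−μ̂(t)∣ ≤ C(1−∣μ̂(t)∣) holds iff n·‖μ^n − μ^(n+1)‖ in ℓ¹ stays bounded. -/
theorem result :
    ¬ (∀ p : ℤ → ℝ, (∀ n, 0 ≤ p n) → Summable p → ∑' n, p n = 1 →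
      (∀ t : ℝ, t ∈ Set.Ioo 0 (2 * Real.pi) →
        ‖∑' n : ℤ, (p n : ℂ) * Complex.exp (Complex.I * (t : ℂ) * (n : ℂ))‖ < 1) →
      ((∃ C : ℝ, ∀ t : ℝ, t ∈ Set.Ioo 0 (2 * Real.pi) →
          ‖1 - ∑' n : ℤ, (p n : ℂ) * Complex.exp (Complex.I * (t : ℂ) * (n : ℂ))‖
            ≤ C * (1 - ‖∑' n : ℤ, (p n : ℂ) * Complex.exp (Complex.I * (t : ℂ) * (n : ℂ))‖)) ↔
       (∃ C : ℝ, ∀ n : ℕ,
          (n : ℝ) * ∑' k : ℤ,
            |((fun f : ℤ → ℝ => fun m : ℤ => ∑' j : ℤ, f j * p (m - j))^[n]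
                (fun m : ℤ => if m = 0 then (1 : ℝ) else 0)) k
              - ((fun f : ℤ → ℝ => fun m : ℤ => ∑' j : ℤ, f j * p (m - j))^[n + 1]
                (fun m : ℤ => if m = 0 then (1 : ℝ) else 0)) k| ≤ C))) := by
  intro H
  have hmain := H Ritt.pp Ritt.pp_nonneg Ritt.pp_hasSum_one.summable Ritt.pp_hasSum_one.tsum_eq
  have hFT : ∀ t : ℝ, (∑' n : ℤ, (Ritt.pp n : ℂ) * Complex.exp (Complex.I * (t : ℂ) * (n : ℂ))) =
      ((1 - Ritt.Z t : ℝ) : ℂ) := fun t => Ritt.FT_pp t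
  have hn : ∀ t : ℝ, ‖∑' n : ℤ, (Ritt.pp n : ℂ) * Complex.exp (Complex.I * (t : ℂ) * (n : ℂ))‖ =
      1 - Ritt.Z t := by
    intro t
    rw [hFT, Complex.norm_real, Real.norm_of_nonneg]
    linarith [Ritt.Z_le_one t]
  have h1 := hmain (fun t ht => by rw [hn]; linarith [Ritt.Z_pos ht])
  obtain ⟨C, hC⟩ := h1.mp ⟨1, fun t _ => by
    rw [hn, hFT]
    have e : (1 : ℂ) - ((1 - Ritt.Z t : ℝ) : ℂ) = ((Ritt.Z t : ℝ) : ℂ) := by push_cast; ring
    rw [e, Complex.norm_real, Real.norm_of_nonneg (Ritt.Z_nonneg t)]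
    linarith⟩
  exact Ritt.not_ritt C hC

end Pool.Agent.S04016
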