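import Pool.Statements.S04040
import Pool.Agent.H359R3.WG5

set_option autoImplicit false
open Filter Topology MeasureTheory
open scoped Classical
open Pool Pool.MP_20f905_an
open Pool.H359R3 Pool.H359R3.WH

namespace Pool.Agent.S04040

open Pool.H359R3 Pool.H359R3.WH in
theorem gen_eq : (TopologicalSpace.generateFrom
          {U | ∃ T₀ : {T : ℝ ≃ᵐ ℝ // MeasurePreserving (T : ℝ → ℝ)
                  (volume.restrict (Set.Icc (0:ℝ) 1)) (volume.restrict (Set.Icc (0:ℝ) 1))},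
              ∃ A : Set ℝ, MeasurableSet A ∧ ∃ δ : ℝ, 0 < δ ∧
              U = {S : {T : ℝ ≃ᵐ ℝ // MeasurePreserving (T : ℝ → ℝ)
                      (volume.restrict (Set.Icc (0:ℝ) 1)) (volume.restrict (Set.Icc (0:ℝ) 1))} |
                    (volume.restrict (Set.Icc (0:ℝ) 1))
                      (symmDiff (((S.1 : ℝ ≃ᵐ ℝ) : ℝ → ℝ) ⁻¹' A)
                        (((T₀.1 : ℝ ≃ᵐ ℝ) : ℝ → ℝ) ⁻¹' A)) < ENNReal.ofReal δ}}) =
    Pool.H359R3.unif.toTopologicalSpace := by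
  have hlt : ∀ (s : Set ℝ) (δ : ℝ), 0 < δ → (Pool.H359R3.lam s < ENNReal.ofReal δ ↔
      Pool.H359R3.lam.real s < δ) := by
    intro s δ hδ
    rw [measureReal_def, ENNReal.lt_ofReal_iff_toReal_lt (measure_ne_top _ _)]
  apply le_antisymm
  · -- the identity is continuous from the generated topology
    refine le_of_nhds_le_nhds ?_
    intro T0
    have h1 : Tendsto (id : Aut → Aut) (@nhds Aut (TopologicalSpace.generateFrom
          {U | ∃ T₀ : Aut, ∃ A : Set ℝ, MeasurableSet A ∧ ∃ δ : ℝ, 0 < δ ∧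
              U = {S : Aut | Pool.H359R3.lam
                      (symmDiff (((S.1 : ℝ ≃ᵐ ℝ) : ℝ → ℝ) ⁻¹' A)
                        (((T₀.1 : ℝ ≃ᵐ ℝ) : ℝ → ℝ) ⁻¹' A)) < ENNReal.ofReal δ}}) T0)
        (@nhds Aut unif.toTopologicalSpace T0) := by
      apply tendsto_unif
      intro i
      rw [Metric.tendsto_nhds]
      intro η hη
      have hopen : @IsOpen Aut (TopologicalSpace.generateFrom
          {U | ∃ T₀ : Aut, ∃ A : Set ℝ, MeasurableSet A ∧ ∃ δ : ℝ, 0 < δ ∧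
              U = {S : Aut | Pool.H359R3.lam
                      (symmDiff (((S.1 : ℝ ≃ᵐ ℝ) : ℝ → ℝ) ⁻¹' A)
                        (((T₀.1 : ℝ ≃ᵐ ℝ) : ℝ → ℝ) ⁻¹' A)) < ENNReal.ofReal δ}})
          {S : Aut | Pool.H359R3.lam (symmDiff (((S.1 : ℝ ≃ᵐ ℝ) : ℝ → ℝ) ⁻¹' (AA i))
                        (((T0.1 : ℝ ≃ᵐ ℝ) : ℝ → ℝ) ⁻¹' (AA i))) < ENNReal.ofReal η} :=
        TopologicalSpace.isOpen_generateFrom_of_mem ⟨T0, AA i, AA_meas i, η, hη, rfl⟩
      have hmem : T0 ∈ {S : Aut | Pool.H359R3.lam (symmDiff (((S.1 : ℝ ≃ᵐ ℝ) : ℝ → ℝ) ⁻¹' (AA i))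
                        (((T0.1 : ℝ ≃ᵐ ℝ) : ℝ → ℝ) ⁻¹' (AA i))) < ENNReal.ofReal η} := by
        show Pool.H359R3.lam (symmDiff _ _) < _
        rw [symmDiff_self]
        simpa using hη
      filter_upwards [@IsOpen.mem_nhds _ (_) _ _ hopen hmem] with S hS
      rw [Real.dist_eq, sub_zero, abs_of_nonneg measureReal_nonneg]
      exact (hlt _ η hη).1 hS
    exact Filter.tendsto_id'.1 h1
  · -- basic sets are open
    apply le_generateFrom
    rintro _ ⟨T₀, A, hA, δ, hδ, rfl⟩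
    let _ := unif
    show IsOpen _
    rw [isOpen_iff_mem_nhds]
    intro S hS
    have hS' : Pool.H359R3.lam.real (symmDiff (S.1 ⁻¹' A) (T₀.1 ⁻¹' A)) < δ := (hlt _ δ hδ).1 hS
    have h1 := of_tendsto_unif (@nhds Aut unif.toTopologicalSpace S) id S Filter.tendsto_id A hA
    have h2 := h1.eventually (gt_mem_nhds (show (0 : ℝ) < δ - Pool.H359R3.lam.real (symmDiff (S.1 ⁻¹' A) (T₀.1 ⁻¹' A)) by linarith))
    filter_upwards [h2] with S' hS'2
    show Pool.H359R3.lam (symmDiff (S'.1 ⁻¹' A) (T₀.1 ⁻¹' A)) < ENNReal.ofReal δ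
    rw [hlt _ δ hδ]
    have h3 := real_symmDiff_tri (S'.1 ⁻¹' A) (S.1 ⁻¹' A) (T₀.1 ⁻¹' A)
    have h4 : Pool.H359R3.lam.real (symmDiff (S'.1 ⁻¹' A) (S.1 ⁻¹' A)) <
        δ - Pool.H359R3.lam.real (symmDiff (S.1 ⁻¹' A) (T₀.1 ⁻¹' A)) := hS'2
    linarith

/-- The negation of the preceding statement: For a residual set of Lebesgue-preserving automorphisms T of [0,1] (weak topology), any automorphism S with T^-n S T^n close to the identity along a density-one set of n, for every weak neighborhood, is the identity a.e. -/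
theorem result :
    ¬ (Filter.Eventually
      (fun T : {T : ℝ ≃ᵐ ℝ // MeasurePreserving (T : ℝ → ℝ) (volume.restrict (Set.Icc (0:ℝ) 1))
            (volume.restrict (Set.Icc (0:ℝ) 1))} =>
        ∀ S : ℝ ≃ᵐ ℝ,
          MeasurePreserving (S : ℝ → ℝ) (volume.restrict (Set.Icc (0:ℝ) 1))
            (volume.restrict (Set.Icc (0:ℝ) 1)) →
          (∀ A : Set ℝ, MeasurableSet A → ∀ ε : ℝ, 0 < ε →
            Tendsto (fun N : ℕ =>
              (((Finset.Icc 1 N).filter (fun n : ℕ =>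
                  (volume.restrict (Set.Icc (0:ℝ) 1))
                    (symmDiff
                      ((((T.1.symm : ℝ ≃ᵐ ℝ) : ℝ → ℝ)^[n] ∘ (S : ℝ → ℝ) ∘
                          ((T.1 : ℝ ≃ᵐ ℝ) : ℝ → ℝ)^[n]) ⁻¹' A) A)
                    < ENNReal.ofReal ε)).card : ℝ) / (N : ℝ))
              atTop (𝓝 1)) →
          ∀ᵐ x ∂(volume.restrict (Set.Icc (0:ℝ) 1)), S x = x)
      (@residual
        {T : ℝ ≃ᵐ ℝ // MeasurePreserving (T : ℝ → ℝ) (volume.restrict (Set.Icc (0:ℝ) 1))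
            (volume.restrict (Set.Icc (0:ℝ) 1))}
        (TopologicalSpace.generateFrom
          {U | ∃ T₀ : {T : ℝ ≃ᵐ ℝ // MeasurePreserving (T : ℝ → ℝ)
                  (volume.restrict (Set.Icc (0:ℝ) 1)) (volume.restrict (Set.Icc (0:ℝ) 1))},
              ∃ A : Set ℝ, MeasurableSet A ∧ ∃ δ : ℝ, 0 < δ ∧
              U = {S : {T : ℝ ≃ᵐ ℝ // MeasurePreserving (T : ℝ → ℝ)
                      (volume.restrict (Set.Icc (0:ℝ) 1)) (volume.restrict (Set.Icc (0:ℝ) 1))} |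
                    (volume.restrict (Set.Icc (0:ℝ) 1))
                      (symmDiff (((S.1 : ℝ ≃ᵐ ℝ) : ℝ → ℝ) ⁻¹' A)
                        (((T₀.1 : ℝ ≃ᵐ ℝ) : ℝ → ℝ) ⁻¹' A)) < ENNReal.ofReal δ}}))) := by
  rw [gen_eq]
  intro hev
  obtain ⟨Sf, hSo, hSd, hSc, hSt⟩ := (@mem_residual_iff Aut Pool.H359R3.unif.toTopologicalSpace _).1 hev
  obtain ⟨U, hUo, hUd, hUS⟩ : ∃ U : ℕ → Set Aut, (∀ n, @IsOpen Aut Pool.H359R3.unif.toTopologicalSpace (U n)) ∧
      (∀ n, @Dense Aut Pool.H359R3.unif.toTopologicalSpace (U n)) ∧ (⋂ n, U n) ⊆ ⋂₀ Sf := by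
    rcases Sf.eq_empty_or_nonempty with h | h
    · refine ⟨fun _ => Set.univ, fun _ => @isOpen_univ _ Pool.H359R3.unif.toTopologicalSpace,
        fun _ => @dense_univ _ Pool.H359R3.unif.toTopologicalSpace, ?_⟩
      rw [h, Set.sInter_empty]
      exact Set.subset_univ _
    · obtain ⟨U, hU⟩ := hSc.exists_eq_range h
      refine ⟨U, fun n => hSo _ (by rw [hU]; exact ⟨n, rfl⟩), fun n => hSd _ (by rw [hU]; exact ⟨n, rfl⟩), ?_⟩
      rw [hU, Set.sInter_range]
  obtain ⟨T, S, hTU, hS, hest⟩ := main_exists U hUo hUd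
  have hT := hSt (hUS (Set.mem_iInter.2 hTU))
  apply hS
  refine hT S.1 S.2 ?_
  intro A hA ε hε
  have hlt : ∀ (s : Set ℝ), (Pool.H359R3.lam s < ENNReal.ofReal ε ↔
      Pool.H359R3.lam.real s < ε) := by
    intro s
    rw [measureReal_def, ENNReal.lt_ofReal_iff_toReal_lt (measure_ne_top _ _)]
  rw [Metric.tendsto_atTop]
  intro η hη
  obtain ⟨N₀, hN₀⟩ := hest A hA (η / 2 * ε) (by positivity)
  refine ⟨max N₀ 1, fun N hN => ?_⟩
  have h1 := hN₀ N ((le_max_left _ _).trans hN)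
  have hN1 : 1 ≤ N := (le_max_right _ _).trans hN
  have hNr : (0 : ℝ) < N := by exact_mod_cast hN1
  set D : ℕ → ℝ := fun n => Pool.H359R3.lam.real (symmDiff ((((T.1.symm : ℝ ≃ᵐ ℝ) : ℝ → ℝ)^[n] ∘ (S.1 : ℝ → ℝ) ∘
                          ((T.1 : ℝ ≃ᵐ ℝ) : ℝ → ℝ)^[n]) ⁻¹' A) A) with hD
  have h2 : ∑ n ∈ Finset.Icc 1 N, D n ≤ η / 2 * ε * N := h1
  have hD0 : ∀ n, 0 ≤ D n := fun n => measureReal_nonneg
  have hfe : (Finset.Icc 1 N).filter (fun n : ℕ =>
                  (volume.restrict (Set.Icc (0:ℝ) 1))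
                    (symmDiff
                      ((((T.1.symm : ℝ ≃ᵐ ℝ) : ℝ → ℝ)^[n] ∘ (S.1 : ℝ → ℝ) ∘
                          ((T.1 : ℝ ≃ᵐ ℝ) : ℝ → ℝ)^[n]) ⁻¹' A) A)
                    < ENNReal.ofReal ε) = (Finset.Icc 1 N).filter (fun n : ℕ => D n < ε) := by
    apply Finset.filter_congr
    intro n _
    exact hlt _
  rw [hfe]
  have h3 : ((Finset.Icc 1 N).filter (fun n : ℕ => D n < ε)).card +
      ((Finset.Icc 1 N).filter (fun n : ℕ => ¬ D n < ε)).card = N := by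
    have := Finset.card_filter_add_card_filter_not (s := Finset.Icc 1 N) (fun n : ℕ => D n < ε)
    rw [this]
    simp
  have h4 : (((Finset.Icc 1 N).filter (fun n : ℕ => ¬ D n < ε)).card : ℝ) * ε ≤ η / 2 * ε * N := by
    refine le_trans ?_ h2
    calc (((Finset.Icc 1 N).filter (fun n : ℕ => ¬ D n < ε)).card : ℝ) * ε
        = ∑ n ∈ (Finset.Icc 1 N).filter (fun n : ℕ => ¬ D n < ε), ε := by
          rw [Finset.sum_const, nsmul_eq_mul]
      _ ≤ ∑ n ∈ (Finset.Icc 1 N).filter (fun n : ℕ => ¬ D n < ε), D n := by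
          apply Finset.sum_le_sum
          intro n hn
          rw [Finset.mem_filter] at hn
          exact not_lt.1 hn.2
      _ ≤ ∑ n ∈ Finset.Icc 1 N, D n := by
          apply Finset.sum_le_sum_of_subset_of_nonneg (Finset.filter_subset _ _)
          intro i _ _
          exact hD0 i
  have h5 : (((Finset.Icc 1 N).filter (fun n : ℕ => ¬ D n < ε)).card : ℝ) ≤ η / 2 * N := by
    by_contra hc
    rw [not_le] at hc
    have h6 : η / 2 * N * ε < (((Finset.Icc 1 N).filter (fun n : ℕ => ¬ D n < ε)).card : ℝ) * ε :=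
      mul_lt_mul_of_pos_right hc hε
    linarith
  have h7 : (((Finset.Icc 1 N).filter (fun n : ℕ => D n < ε)).card : ℝ) +
      (((Finset.Icc 1 N).filter (fun n : ℕ => ¬ D n < ε)).card : ℝ) = N := by exact_mod_cast h3
  rw [Real.dist_eq]
  have h8 : (((Finset.Icc 1 N).filter (fun n : ℕ => D n < ε)).card : ℝ) / N - 1 =
      -((((Finset.Icc 1 N).filter (fun n : ℕ => ¬ D n < ε)).card : ℝ) / N) := by
    field_simp
    linarith
  rw [h8, abs_neg, abs_of_nonneg (by positivity)]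
  calc (((Finset.Icc 1 N).filter (fun n : ℕ => ¬ D n < ε)).card : ℝ) / N ≤ (η / 2 * N) / N := by gcongr
    _ = η / 2 := by field_simp
    _ < η := by linarith

end Pool.Agent.S04040
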