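import Pool.Statements.S04080
import Pool.Agent.H415R3.OpLip2

set_option autoImplicit false
open Pool Pool.MP_24fbf1_an

namespace Pool.Agent.S04080

open Pool.Agent.H415R3.OpLip Set Filter Topology

section
variable {𝒜 : Type*} [CStarAlgebra 𝒜]

theorem norm_le_of_spec {A : 𝒜} (hA : IsSelfAdjoint A) {c : ℝ} (hc : 0 ≤ c)
    (hs : spectrum ℝ A ⊆ Icc (-c) c) : ‖A‖ ≤ c := by
  rw [← cfc_id' ℝ A]
  apply norm_cfc_le hc
  intro x hx
  rw [Real.norm_eq_abs, abs_le]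
  exact hs hx

theorem g1_pos {A B : 𝒜} (hA : IsSelfAdjoint A) (hB : IsSelfAdjoint B) {δ : ℝ} (hδ : 0 < δ)
    (hsA : spectrum ℝ A ⊆ Icc δ 2) (hsB : spectrum ℝ B ⊆ Icc δ 2) :
    ‖cfc g1 A - cfc g1 B‖ ≤ 5 * ‖A - B‖ := by
  have hsub : Icc δ (2:ℝ) ⊆ Icc (-2) 2 := Icc_subset_Icc (by linarith) le_rfl
  have nA : ‖A‖ ≤ 2 := norm_le_of_spec hA (by norm_num) (hsA.trans hsub)
  have nB : ‖B‖ ≤ 2 := norm_le_of_spec hB (by norm_num) (hsB.trans hsub)
  rw [g1_eq hA hδ hsA, g1_eq hB hδ hsB]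
  obtain ⟨a1, a2⟩ := mul_inv hA hδ hsA
  obtain ⟨b1, b2⟩ := mul_inv hB hδ hsB
  have hSA : IsSelfAdjoint (cfc (fun x : ℝ => x⁻¹) A) := cfc_predicate _ _
  have hSB : IsSelfAdjoint (cfc (fun x : ℝ => x⁻¹) B) := cfc_predicate _ _
  have c1 := core hSA hSB a1 a2 b1 b2 nA nB 1 (by norm_num)
  have c2 := core hSA hSB a1 a2 b1 b2 nA nB (-1) (by norm_num)
  rw [← smul_sub, norm_smul]
  have hI : ‖(1 / (2 * Complex.I) : ℂ)‖ = 1 / 2 := by simp
  rw [hI]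
  set P := A * A * NormedSpace.exp ((((1:ℝ) : ℂ) * Complex.I) • cfc (fun x : ℝ => x⁻¹) A)
  set P' := A * A * NormedSpace.exp ((((-1:ℝ) : ℂ) * Complex.I) • cfc (fun x : ℝ => x⁻¹) A)
  set Q := B * B * NormedSpace.exp ((((1:ℝ) : ℂ) * Complex.I) • cfc (fun x : ℝ => x⁻¹) B)
  set Q' := B * B * NormedSpace.exp ((((-1:ℝ) : ℂ) * Complex.I) • cfc (fun x : ℝ => x⁻¹) B)
  have e : P - P' - (Q - Q') = (P - Q) - (P' - Q') := by abel
  rw [e]
  calc 1 / 2 * ‖(P - Q) - (P' - Q')‖ ≤ 1 / 2 * (‖P - Q‖ + ‖P' - Q'‖) := by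
        gcongr; exact norm_sub_le _ _
    _ ≤ 1 / 2 * (5 * ‖A - B‖ + 5 * ‖A - B‖) := by gcongr
    _ = _ := by ring

theorem g1_all {A B : 𝒜} (hA : IsSelfAdjoint A) (hB : IsSelfAdjoint B)
    (hsA : spectrum ℝ A ⊆ Icc 0 1) (hsB : spectrum ℝ B ⊆ Icc 0 1) :
    ‖cfc g1 A - cfc g1 B‖ ≤ 5 * ‖A - B‖ := by
  have hstep : ∀ {D : 𝒜}, IsSelfAdjoint D → spectrum ℝ D ⊆ Icc 0 1 → ∀ ε : ℝ, 0 < ε → ε ≤ 1 →
      IsSelfAdjoint (D + algebraMap ℝ 𝒜 ε) ∧ spectrum ℝ (D + algebraMap ℝ 𝒜 ε) ⊆ Icc ε 2 ∧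
      ‖cfc g1 (D + algebraMap ℝ 𝒜 ε) - cfc g1 D‖ ≤ 5 * ε := by
    intro D hD hs ε hε hε1
    have e1 : cfc (fun x : ℝ => x + ε) D = D + algebraMap ℝ 𝒜 ε := by
      rw [cfc_add_const ε (fun x : ℝ => x) D, cfc_id' ℝ D]
    have hsp : spectrum ℝ (cfc (fun x : ℝ => x + ε) D) = (fun x : ℝ => x + ε) '' spectrum ℝ D :=
      cfc_map_spectrum (fun x : ℝ => x + ε) D
    have hg : ContinuousOn g1 ((fun x : ℝ => x + ε) '' spectrum ℝ D) := by
      apply g1_cont.mono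
      rintro _ ⟨x, hx, rfl⟩
      have := hs hx
      exact ⟨by linarith [this.1], by linarith [this.2]⟩
    refine ⟨?_, ?_, ?_⟩
    · rw [← e1]; exact cfc_predicate _ _
    · rw [← e1, hsp]
      rintro _ ⟨x, hx, rfl⟩
      have := hs hx
      exact ⟨by linarith [this.1], by linarith [this.2]⟩
    · rw [← e1, ← cfc_comp' g1 (fun x : ℝ => x + ε) D]
      have hg0 : ContinuousOn g1 (spectrum ℝ D) := g1_cont.mono (hs.trans (Icc_subset_Icc le_rfl (by norm_num)))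
      have hg2 : ContinuousOn (fun x : ℝ => g1 (x + ε)) (spectrum ℝ D) :=
        hg.comp (by fun_prop) (mapsTo_image _ _)
      rw [← cfc_sub (fun x : ℝ => g1 (x + ε)) g1 D]
      apply norm_cfc_le (by positivity)
      intro x hx
      have h0 := hs hx
      have := g1_lip (x + ε) x ⟨by linarith [h0.1], by linarith [h0.2]⟩ ⟨h0.1, by linarith [h0.2]⟩
      rw [Real.norm_eq_abs]
      simpa [abs_of_pos hε] using this
  apply le_of_forall_pos_le_add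
  intro η hη
  set ε : ℝ := min 1 (η / 10) with hε
  have hε0 : 0 < ε := by rw [hε]; positivity
  have hε1 : ε ≤ 1 := min_le_left _ _
  have hε2 : ε ≤ η / 10 := min_le_right _ _
  obtain ⟨a1, a2, a3⟩ := hstep hA hsA ε hε0 hε1
  obtain ⟨b1, b2, b3⟩ := hstep hB hsB ε hε0 hε1
  have h1 := g1_pos a1 b1 hε0 a2 b2
  have e2 : A + algebraMap ℝ 𝒜 ε - (B + algebraMap ℝ 𝒜 ε) = A - B := by abel
  rw [e2] at h1
  set U := cfc g1 (A + algebraMap ℝ 𝒜 ε)
  set V := cfc g1 (B + algebraMap ℝ 𝒜 ε)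
  have e3 : cfc g1 A - cfc g1 B = (U - V) - (U - cfc g1 A) + (V - cfc g1 B) := by abel
  rw [e3]
  calc ‖(U - V) - (U - cfc g1 A) + (V - cfc g1 B)‖ ≤ ‖(U - V) - (U - cfc g1 A)‖ + ‖V - cfc g1 B‖ := norm_add_le _ _
    _ ≤ (‖U - V‖ + ‖U - cfc g1 A‖) + ‖V - cfc g1 B‖ := by gcongr; exact norm_sub_le _ _
    _ ≤ (5 * ‖A - B‖ + 5 * ε) + 5 * ε := by gcongr
    _ ≤ 5 * ‖A - B‖ + η := by linarith

end

/-- the function of the counterexample -/
noncomputable def F (x : ℝ) : ℝ := x + g1 x + 3 * (x * x)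

theorem F_hasDeriv {x : ℝ} (hx : x ≠ 0) :
    HasDerivAt F (1 + (2 * x * Real.sin x⁻¹ - Real.cos x⁻¹) + 6 * x) x := by
  have h1 : HasDerivAt (fun x : ℝ => Real.sin x⁻¹) (Real.cos x⁻¹ * (-(x ^ 2)⁻¹)) x :=
    (Real.hasDerivAt_sin x⁻¹).comp x (hasDerivAt_inv hx)
  have h2 : HasDerivAt g1 (2 * x * Real.sin x⁻¹ - Real.cos x⁻¹) x := by
    have h3 := (hasDerivAt_pow 2 x).mul h1
    refine h3.congr_deriv ?_
    field_simp
    simp
    ring
  have h4 : HasDerivAt (fun x : ℝ => 3 * (x * x)) (6 * x) x := by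
    have h5 := ((hasDerivAt_id x).mul (hasDerivAt_id x)).const_mul 3
    refine h5.congr_deriv ?_
    simp
    ring
  exact ((hasDerivAt_id x).add h2).add h4

theorem F_deriv_pos {x : ℝ} (hx : 0 < x) : 0 < 1 + (2 * x * Real.sin x⁻¹ - Real.cos x⁻¹) + 6 * x := by
  have h1 := Real.neg_one_le_sin x⁻¹
  have h2 := Real.cos_le_one x⁻¹
  nlinarith

theorem F_zero : F 0 = 0 := by simp [F, g1]

theorem F_hasDeriv_zero : HasDerivAt F 1 0 := by
  rw [hasDerivAt_iff_isLittleO_nhds_zero]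
  have : (fun h : ℝ => F (0 + h) - F 0 - h • (1:ℝ)) = fun h => h ^ 2 * (Real.sin h⁻¹ + 3) := by
    funext h; simp [F, g1]; ring
  rw [this]
  have h1 : (fun h : ℝ => h ^ 2 * (Real.sin h⁻¹ + 3)) =O[𝓝 0] fun h : ℝ => h ^ 2 := by
    apply Asymptotics.IsBigO.of_bound 4
    filter_upwards with h
    rw [norm_mul]
    have : ‖Real.sin h⁻¹ + 3‖ ≤ 4 := by
      rw [Real.norm_eq_abs, abs_le]
      have := Real.neg_one_le_sin h⁻¹
      have := Real.sin_le_one h⁻¹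
      constructor <;> linarith
    nlinarith [norm_nonneg (h ^ 2)]
  exact h1.trans_isLittleO (Asymptotics.isLittleO_pow_id (by norm_num : 1 < 2))

theorem F_cont : Continuous F := by
  rw [continuous_iff_continuousAt]
  intro x
  by_cases hx : x = 0
  · rw [hx]; exact F_hasDeriv_zero.continuousAt
  · exact (F_hasDeriv hx).continuousAt

theorem F_mono : MonotoneOn F (Icc 0 1) := by
  apply monotoneOn_of_deriv_nonneg (convex_Icc 0 1) F_cont.continuousOn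
  · intro x hx
    rw [interior_Icc] at hx
    exact (F_hasDeriv hx.1.ne').differentiableAt.differentiableWithinAt
  · intro x hx
    rw [interior_Icc] at hx
    rw [(F_hasDeriv hx.1.ne').deriv]
    exact (F_deriv_pos hx.1).le

/-- The negation of the preceding statement: If f is operator Lipschitz on [a,b] (uniform bound on ‖f(A)−f(B)‖ by C‖A−B‖ for self-adjoint A,B with spectrum in [a,b]) and has nonzero derivative at every point of [a,b], then its inverse is operator Lipschitz on the interval between f(a) and f(b). -/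
theorem result :
    ¬ (∀ (f : ℝ → ℝ) (a b : ℝ),
      (ContinuousOn f (Set.Icc a b) ∧
        ∃ C : ℝ, ∀ (H : Type) [NormedAddCommGroup H] [InnerProductSpace ℂ H] [CompleteSpace H],
          ∀ A B : H →L[ℂ] H, IsSelfAdjoint A → IsSelfAdjoint B →
            spectrum ℝ A ⊆ Set.Icc a b → spectrum ℝ B ⊆ Set.Icc a b →
              ‖cfc f A - cfc f B‖ ≤ C * ‖A - B‖) →
      (∀ x ∈ Set.Icc a b, ∃ d : ℝ, d ≠ 0 ∧ HasDerivWithinAt f d (Set.Icc a b) x) →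
      ∃ g : ℝ → ℝ, (∀ x ∈ Set.Icc a b, g (f x) = x) ∧
        (ContinuousOn g (Set.uIcc (f a) (f b)) ∧
          ∃ C : ℝ, ∀ (H : Type) [NormedAddCommGroup H] [InnerProductSpace ℂ H] [CompleteSpace H],
            ∀ A B : H →L[ℂ] H, IsSelfAdjoint A → IsSelfAdjoint B →
              spectrum ℝ A ⊆ Set.uIcc (f a) (f b) → spectrum ℝ B ⊆ Set.uIcc (f a) (f b) →
                ‖cfc g A - cfc g B‖ ≤ C * ‖A - B‖)) := by
  intro hall
  obtain ⟨g, hgF, -, C, hC⟩ := hall F 0 1 ⟨F_cont.continuousOn, 12, by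
    intro H _ _ _ A B hA hB hsA hsB
    have hsub : Icc (0:ℝ) 1 ⊆ Icc (-1) 1 := Icc_subset_Icc (by norm_num) le_rfl
    have nA : ‖A‖ ≤ 1 := norm_le_of_spec hA (by norm_num) (hsA.trans hsub)
    have nB : ‖B‖ ≤ 1 := norm_le_of_spec hB (by norm_num) (hsB.trans hsub)
    have hF : ∀ {D : H →L[ℂ] H}, IsSelfAdjoint D → spectrum ℝ D ⊆ Icc 0 1 →
        cfc F D = D + cfc g1 D + (3:ℝ) • (D * D) := by
      intro D hD hs
      have hg0 : ContinuousOn g1 (spectrum ℝ D) := g1_cont.mono (hs.trans (Icc_subset_Icc le_rfl (by norm_num)))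
      have e1 : F = fun x : ℝ => (x + g1 x) + 3 * (x * x) := rfl
      rw [e1, cfc_add D (fun x : ℝ => x + g1 x) (fun x : ℝ => 3 * (x * x)) (by fun_prop) (by fun_prop),
        cfc_add D (fun x : ℝ => x) g1, cfc_const_mul 3 (fun x : ℝ => x * x) D,
        cfc_mul (fun x : ℝ => x) (fun x : ℝ => x) D, cfc_id' ℝ D]
    rw [hF hA hsA, hF hB hsB]
    have h1 := g1_all hA hB hsA hsB
    have e2 : A + cfc g1 A + (3:ℝ) • (A * A) - (B + cfc g1 B + (3:ℝ) • (B * B)) =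
        (A - B) + (cfc g1 A - cfc g1 B) + (3:ℝ) • (A * (A - B) + (A - B) * B) := by
      have e3 : A * (A - B) + (A - B) * B = A * A - B * B := by noncomm_ring
      rw [e3, smul_sub]
      abel
    rw [e2]
    have h2 : ‖A * (A - B) + (A - B) * B‖ ≤ 2 * ‖A - B‖ := by
      calc _ ≤ ‖A * (A - B)‖ + ‖(A - B) * B‖ := norm_add_le _ _
        _ ≤ ‖A‖ * ‖A - B‖ + ‖A - B‖ * ‖B‖ := by gcongr <;> exact norm_mul_le _ _
        _ ≤ 1 * ‖A - B‖ + ‖A - B‖ * 1 := by gcongr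
        _ = _ := by ring
    calc _ ≤ ‖(A - B) + (cfc g1 A - cfc g1 B)‖ + ‖(3:ℝ) • (A * (A - B) + (A - B) * B)‖ := norm_add_le _ _
      _ ≤ (‖A - B‖ + ‖cfc g1 A - cfc g1 B‖) + ‖(3:ℝ) • (A * (A - B) + (A - B) * B)‖ := by
          gcongr; exact norm_add_le _ _
      _ ≤ (‖A - B‖ + 5 * ‖A - B‖) + 3 * (2 * ‖A - B‖) := by
          gcongr
          rw [norm_smul]
          simp only [Real.norm_ofNat]
          gcongr
      _ = 12 * ‖A - B‖ := by ring⟩ (by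
    intro x hx
    rcases eq_or_lt_of_le hx.1 with h | h
    · refine ⟨1, one_ne_zero, ?_⟩
      rw [← h]
      exact F_hasDeriv_zero.hasDerivWithinAt
    · exact ⟨_, (F_deriv_pos h).ne', (F_hasDeriv h.ne').hasDerivWithinAt⟩)
  -- scalar operators
  have hsc : ∀ s ∈ uIcc (F 0) (F 1), ∀ t ∈ uIcc (F 0) (F 1), |g s - g t| ≤ C * |s - t| := by
    intro s hs t ht
    have h1 := hC ℂ (algebraMap ℝ (ℂ →L[ℂ] ℂ) s) (algebraMap ℝ (ℂ →L[ℂ] ℂ) t)
      (IsSelfAdjoint.algebraMap _ (IsSelfAdjoint.all s)) (IsSelfAdjoint.algebraMap _ (IsSelfAdjoint.all t))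
      (by rw [spectrum.scalar_eq]; simpa using hs) (by rw [spectrum.scalar_eq]; simpa using ht)
    rw [cfc_algebraMap, cfc_algebraMap, ← map_sub, ← map_sub, norm_algebraMap', norm_algebraMap'] at h1
    simpa [Real.norm_eq_abs] using h1
  have hmem : ∀ x ∈ Icc (0:ℝ) 1, F x ∈ uIcc (F 0) (F 1) := by
    intro x hx
    rw [uIcc_of_le (F_mono (by simp) (by simp) (by norm_num))]
    exact ⟨F_mono (by simp) hx hx.1, F_mono hx (by simp) hx.2⟩
  have hlow : ∀ x ∈ Icc (0:ℝ) 1, ∀ y ∈ Icc (0:ℝ) 1, |x - y| ≤ C * |F x - F y| := by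
    intro x hx y hy
    have := hsc (F x) (hmem x hx) (F y) (hmem y hy)
    rwa [hgF x hx, hgF y hy] at this
  -- derivative lower bound
  have hder : ∀ x ∈ Ioo (0:ℝ) 1, 1 ≤ C * (1 + (2 * x * Real.sin x⁻¹ - Real.cos x⁻¹) + 6 * x) := by
    intro x hx
    have h1 := (F_hasDeriv hx.1.ne').tendsto_slope
    have h2 : Tendsto (fun y => C * |slope F x y|) (𝓝[≠] x)
        (𝓝 (C * |1 + (2 * x * Real.sin x⁻¹ - Real.cos x⁻¹) + 6 * x|)) :=
      (h1.abs).const_mul C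
    rw [abs_of_pos (F_deriv_pos hx.1)] at h2
    refine ge_of_tendsto h2 ?_
    have h3 : ∀ᶠ y in 𝓝[≠] x, y ∈ Ioo (0:ℝ) 1 := nhdsWithin_le_nhds (isOpen_Ioo.mem_nhds hx)
    filter_upwards [h3, self_mem_nhdsWithin] with y hy hne
    have h4 := hlow y (Ioo_subset_Icc_self hy) x (Ioo_subset_Icc_self hx)
    have hne' : 0 < |y - x| := abs_pos.mpr (sub_ne_zero.mpr hne)
    rw [slope_def_field, abs_div, ← mul_div_assoc, le_div_iff₀ hne', one_mul]
    exact h4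
  -- evaluate at `1 / (2 π (n + 1))`
  have hpi := Real.pi_gt_three
  have hev : ∀ n : ℕ, 1 ≤ C * (6 * (2 * Real.pi * ((n:ℝ) + 1))⁻¹) := by
    intro n
    have hn : (0:ℝ) ≤ n := Nat.cast_nonneg n
    have hp : 1 < 2 * Real.pi * ((n:ℝ) + 1) := by nlinarith
    have h5 := hder (2 * Real.pi * ((n:ℝ) + 1))⁻¹ ⟨by positivity, inv_lt_one_of_one_lt₀ hp⟩
    rw [inv_inv] at h5
    have hs : Real.sin (2 * Real.pi * ((n:ℝ) + 1)) = 0 := by
      have : 2 * Real.pi * ((n:ℝ) + 1) = ((2 * (n + 1) : ℕ) : ℝ) * Real.pi := by push_cast; ring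
      rw [this]; exact Real.sin_nat_mul_pi _
    have hc : Real.cos (2 * Real.pi * ((n:ℝ) + 1)) = 1 := by
      have : 2 * Real.pi * ((n:ℝ) + 1) = ((n + 1 : ℕ) : ℝ) * (2 * Real.pi) := by push_cast; ring
      rw [this]; exact Real.cos_nat_mul_two_pi _
    rw [hs, hc] at h5
    simpa using h5
  obtain ⟨n, hn⟩ := exists_nat_gt (|C| * 6)
  have h6 := hev n
  have hn0 : (0:ℝ) ≤ n := Nat.cast_nonneg n
  have hp : 0 < 2 * Real.pi * ((n:ℝ) + 1) := by positivity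
  have h7 : C * (6 * (2 * Real.pi * ((n:ℝ) + 1))⁻¹) = (C * 6) / (2 * Real.pi * ((n:ℝ) + 1)) := by
    field_simp
  rw [h7, le_div_iff₀ hp] at h6
  have h8 := le_abs_self C
  nlinarith

end Pool.Agent.S04080
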