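import Pool.Statements.S04098
import Pool.Agent.H751R3.Chi.Ops

set_option autoImplicit false
open Pool Pool.MP_268976_an

namespace Pool.Agent.S04098

open Pool.Agent.H751R3.Chi Pool.Agent.H751R3.Dart Filter Topology ComplexConjugate

theorem deficiency (u : ℕ → ℂ) (hu : Summable (fun k => ‖u k‖ ^ 2))
    (h : ∀ k : ℕ, (if k = 0 then (0 : ℂ) else (aa (k - 1) : ℂ) * u (k - 1))
            + (bb k : ℂ) * u k + (aa k : ℂ) * u (k + 1) = Complex.I * u k) : u = 0 := by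
  have hcx : ∀ k, cx u k = Complex.I * u k := h
  have key : ∀ M, ∑ n ∈ Finset.range (M + 1), ‖u n‖ ^ 2 ≤ aa M * (‖u M‖ * ‖u (M + 1)‖) := by
    intro M
    have h1 := partial_symm u u M
    have h2 : ∀ n, conj (cx u n) * u n - conj (u n) * cx u n =
        ((‖u n‖ ^ 2 : ℝ) : ℂ) * (-2 * Complex.I) := by
      intro n
      rw [hcx, map_mul, Complex.conj_I, ← Complex.normSq_eq_norm_sq]
      have : ((Complex.normSq (u n) : ℝ) : ℂ) = conj (u n) * u n := by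
        rw [Complex.normSq_eq_conj_mul_self]
      rw [this]; ring
    simp only [h2] at h1
    rw [← Finset.sum_mul, ← Complex.ofReal_sum] at h1
    have h3 := congrArg (fun z : ℂ => ‖z‖) h1
    simp only [norm_mul, Complex.norm_real, norm_neg, Complex.norm_I, Real.norm_eq_abs] at h3
    rw [abs_of_nonneg (Finset.sum_nonneg fun _ _ => by positivity), abs_of_pos (aa_pos M)] at h3
    have h4 : ‖conj (u (M + 1)) * u M - conj (u M) * u (M + 1)‖ ≤ 2 * (‖u M‖ * ‖u (M + 1)‖) := by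
      refine (norm_sub_le _ _).trans ?_
      rw [norm_mul, norm_mul, Complex.norm_conj, Complex.norm_conj]
      linarith
    have h5 := mul_le_mul_of_nonneg_left h4 (aa_pos M).le
    norm_num at h3
    nlinarith
  by_contra hne
  obtain ⟨k0, hk0⟩ : ∃ k, u k ≠ 0 := by
    by_contra hcon
    push Not at hcon
    exact hne (funext hcon)
  have hc : 0 < ‖u k0‖ ^ 2 := by positivity
  apply not_summable
  have hs : Summable fun n => (‖u n‖ ^ 2 + ‖u (n + 1)‖ ^ 2) / 2 / ‖u k0‖ ^ 2 :=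
    ((hu.add ((summable_nat_add_iff 1).2 hu)).div_const 2).div_const _
  rw [← summable_nat_add_iff k0] at hs ⊢
  refine Summable.of_nonneg_of_le (fun n => by have := aa_pos (n + k0); positivity)
    (fun n => ?_) hs
  have h1 := key (n + k0)
  have h2 : ‖u k0‖ ^ 2 ≤ ∑ i ∈ Finset.range (n + k0 + 1), ‖u i‖ ^ 2 :=
    Finset.single_le_sum (f := fun i => ‖u i‖ ^ 2) (fun _ _ => by positivity)
      (Finset.mem_range.2 (by omega))
  have ha := aa_pos (n + k0)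
  rw [div_le_div_iff₀ ha hc]
  nlinarith [sq_nonneg (‖u (n + k0)‖ - ‖u (n + k0 + 1)‖)]

/-- the essential spectrum as in the statement -/
def SS : Set ℝ := {t : ℝ | ∀ ε : ℝ, 0 < ε → ∀ n : ℕ, ∃ V : Submodule ℂ (ℕ →₀ ℂ),
              Module.finrank ℂ V = n ∧ ∀ x ∈ V,
                ∑' k : ℕ, ‖(if k = 0 then (0 : ℂ) else (aa (k - 1) : ℂ) * x (k - 1))
                    + (bb k : ℂ) * x k + (aa k : ℂ) * x (k + 1) - (t : ℂ) * x k‖ ^ 2
                  ≤ ε ^ 2 * ∑' k : ℕ, ‖x k‖ ^ 2}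

theorem sum_eq (x : ℕ →₀ ℂ) (t : ℝ) :
    ∑' k : ℕ, ‖(if k = 0 then (0 : ℂ) else (aa (k - 1) : ℂ) * x (k - 1))
      + (bb k : ℂ) * x k + (aa k : ℂ) * x (k + 1) - (t : ℂ) * x k‖ ^ 2 =
    ‖CC x - (t : ℂ) • J x‖ ^ 2 := by
  rw [norm_sq_eq']
  rfl

theorem sum_eq' (x : ℕ →₀ ℂ) : ∑' k : ℕ, ‖x k‖ ^ 2 = ‖J x‖ ^ 2 := by
  rw [norm_sq_eq']
  rfl

theorem J_ne {x : ℕ →₀ ℂ} (h : x ≠ 0) : 0 < ‖J x‖ := by
  rw [norm_pos_iff]
  intro h2
  apply h
  ext n
  exact congrArg (fun f : L2 ℕ => f n) h2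

theorem zero_mem : (0 : ℝ) ∈ SS := by
  intro ε hε n
  obtain ⟨k0, hk0⟩ : ∃ k0 : ℕ, 768 * ((1 : ℝ) / 2) ^ k0 ≤ ε := by
    obtain ⟨k0, h⟩ := exists_pow_lt_of_lt_one (x := ε / 768) (by positivity)
      (by norm_num : ((1 : ℝ) / 2) < 1)
    refine ⟨k0, ?_⟩
    rw [lt_div_iff₀ (by norm_num)] at h
    linarith
  -- coefficients at the wells k0, ..., k0 + n - 1
  let E : (Fin n → ℂ) →ₗ[ℂ] (ℕ →₀ ℂ) :=
    (Finsupp.lmapDomain ℂ ℂ (fun i : Fin n => k0 + (i : ℕ))).comp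
      (Finsupp.linearEquivFunOnFinite ℂ ℂ (Fin n)).symm.toLinearMap
  have hinj : Function.Injective (fun i : Fin n => k0 + (i : ℕ)) := by
    intro i j hij
    exact Fin.ext (by simpa using hij)
  have hE : ∀ c : Fin n → ℂ, ∀ i : Fin n, E c (k0 + i) = c i := by
    intro c i
    change Finsupp.mapDomain (fun i : Fin n => k0 + (i : ℕ)) _ (k0 + i) = _
    rw [Finsupp.mapDomain_apply hinj]
    rfl
  have hE0 : ∀ c : Fin n → ℂ, ∀ k, k < k0 → E c k = 0 := by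
    intro c k hk
    change Finsupp.mapDomain (fun i : Fin n => k0 + (i : ℕ)) _ k = _
    rw [Finsupp.mapDomain_of_notMem_range]
    rintro ⟨i, hi⟩
    simp only at hi
    omega
  refine ⟨LinearMap.range (Yc.comp E), ?_, ?_⟩
  · rw [LinearMap.finrank_range_of_inj]
    · simp
    · intro c d hcd
      funext i
      have h1 : ∀ c : Fin n → ℂ, Yc (E c) ((k0 + i) ^ 4) = c i * gg ((k0 + i) ^ 4) := by
        intro c
        rw [Yc_apply, kap_well, hE]
      have h2 : Yc (E c) ((k0 + i) ^ 4) = Yc (E d) ((k0 + i) ^ 4) :=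
        congrArg (fun f : ℕ →₀ ℂ => f ((k0 + i) ^ 4)) hcd
      rw [h1, h1] at h2
      have h3 : gg ((k0 + i) ^ 4) ≠ 0 := by
        rw [← norm_pos_iff, norm_gg]
        exact ph_pos _
      exact mul_right_cancel₀ h3 h2
  · rintro x ⟨c, rfl⟩
    change (∑' k : ℕ, ‖(if k = 0 then (0 : ℂ) else (aa (k - 1) : ℂ) * (Yc (E c)) (k - 1))
      + (bb k : ℂ) * (Yc (E c)) k + (aa k : ℂ) * (Yc (E c)) (k + 1) -
        ((0 : ℝ) : ℂ) * (Yc (E c)) k‖ ^ 2) ≤ ε ^ 2 * ∑' k : ℕ, ‖(Yc (E c)) k‖ ^ 2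
    rw [sum_eq, sum_eq', Complex.ofReal_zero, zero_smul, sub_zero, ← mul_pow]
    refine pow_le_pow_left₀ (norm_nonneg _) ((norm_CC_Yc (hE0 c)).trans ?_) 2
    exact mul_le_mul_of_nonneg_right hk0 (norm_nonneg _)

theorem neg_notMem {t : ℝ} (ht : t < 0) : t ∉ SS := by
  intro h
  obtain ⟨V, hV, hx⟩ := h (-t / 2) (by linarith) 1
  have hne : V ≠ ⊥ := by
    rintro rfl
    rw [finrank_bot] at hV
    exact zero_ne_one hV
  obtain ⟨x, hxV, hx0⟩ := Submodule.exists_mem_ne_zero_of_ne_bot hne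
  have h1 := hx x hxV
  rw [sum_eq, sum_eq', ← mul_pow] at h1
  have hJ := J_ne hx0
  have h2 : ‖CC x - (t : ℂ) • J x‖ ≤ -t / 2 * ‖J x‖ :=
    (pow_le_pow_iff_left₀ (norm_nonneg _) (mul_nonneg (by linarith) (norm_nonneg _))
      two_ne_zero).1 h1
  have h3 := form_nonneg x
  have h4 : (inner ℂ (J x) (CC x - (t : ℂ) • J x)).re =
      (inner ℂ (J x) (CC x)).re - t * ‖J x‖ ^ 2 := by
    rw [inner_sub_right, inner_smul_right, Complex.sub_re, inner_self_eq_norm_sq_to_K]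
    congr 1
    rw [Complex.re_ofReal_mul]
    congr 1
    change (((‖J x‖ : ℝ) : ℂ) ^ 2).re = _
    rw [← Complex.ofReal_pow, Complex.ofReal_re]
  have h5 : (inner ℂ (J x) (CC x - (t : ℂ) • J x)).re ≤ ‖J x‖ * (-t / 2 * ‖J x‖) := by
    refine (Complex.re_le_norm _).trans ((norm_inner_le_norm _ _).trans ?_)
    exact mul_le_mul_of_nonneg_left h2 (norm_nonneg _)
  rw [h4] at h5
  have h6 : 0 < ‖J x‖ ^ 2 := by positivity
  nlinarith

theorem pos_notMem {t : ℝ} (ht : 0 < t) : t ∉ SS := by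
  intro h
  -- choose the starting block
  obtain ⟨k0, hk0, hk1⟩ : ∃ k0 : ℕ, 768 * ((1 : ℝ) / 2) ^ k0 ≤ t / 2 ∧ 2 * t ≤ k0 := by
    obtain ⟨k1, h1⟩ := exists_pow_lt_of_lt_one (x := t / 2 / 768) (by positivity)
      (by norm_num : ((1 : ℝ) / 2) < 1)
    obtain ⟨k2, h2⟩ := exists_nat_ge (2 * t)
    refine ⟨max k1 k2, ?_, h2.trans (by exact_mod_cast le_max_right k1 k2)⟩
    rw [lt_div_iff₀ (by norm_num)] at h1
    have h3 : ((1 : ℝ) / 2) ^ (max k1 k2) ≤ (1 / 2) ^ k1 :=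
      pow_le_pow_of_le_one (by norm_num) (by norm_num) (le_max_left _ _)
    linarith
  obtain ⟨V, hV, hx⟩ := h (t / 8) (by positivity) (k0 ^ 4 + 1)
  -- an element of V vanishing below k0 ^ 4
  obtain ⟨x, hxV, hx0, hxz⟩ : ∃ x ∈ V, x ≠ 0 ∧ ∀ n, n < k0 ^ 4 → x n = 0 := by
    by_contra hcon
    push Not at hcon
    let F : V →ₗ[ℂ] (Fin (k0 ^ 4) → ℂ) :=
      { toFun := fun x i => (x : ℕ →₀ ℂ) i
        map_add' := by intro x y; rfl
        map_smul' := by intro c x; rfl }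
    have hinj : Function.Injective F := by
      intro x y hxy
      by_contra hne
      have h1 : (x : ℕ →₀ ℂ) - y ≠ 0 := fun h2 => hne (Subtype.ext (sub_eq_zero.1 h2))
      obtain ⟨n, hn, hn2⟩ := hcon _ (V.sub_mem x.2 y.2) h1
      apply hn2
      rw [Finsupp.sub_apply]
      have h3 : (x : ℕ →₀ ℂ) n = (y : ℕ →₀ ℂ) n := congrFun hxy ⟨n, hn⟩
      rw [h3, sub_self]
    have h2 := LinearMap.finrank_le_finrank_of_injective hinj
    rw [hV, Module.finrank_fin_fun] at h2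
    omega
  -- decomposition
  have hgw : ∀ k, gg (k ^ 4) ≠ 0 := fun k => by
    rw [← norm_pos_iff, norm_gg]; exact ph_pos _
  obtain ⟨N, hN⟩ := exists_bound x
  set c : ℕ →₀ ℂ := Finsupp.onFinset (Finset.range N) (fun k => x (k ^ 4) * (gg (k ^ 4))⁻¹) (by
    intro k hk
    rw [Finset.mem_range]
    by_contra h2
    apply hk
    have h3 : k ≤ k ^ 4 := Nat.le_self_pow (by norm_num) k
    rw [hN (k ^ 4) (by omega), zero_mul]) with hc
  have hcv : ∀ k, c k = x (k ^ 4) * (gg (k ^ 4))⁻¹ := fun k => rfl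
  have hc0 : ∀ k, k < k0 → c k = 0 := by
    intro k hk
    rw [hcv, hxz _ (Nat.pow_lt_pow_left hk (by norm_num)), zero_mul]
  set y := Yc c with hy
  set z := x - y with hz
  have hzw : ∀ k, z (k ^ 4) = 0 := by
    intro k
    rw [hz, Finsupp.sub_apply, hy, Yc_apply, kap_well, hcv]
    have := hgw k
    field_simp
    ring
  have hzK : ∀ n, z n ≠ 0 → (k0 : ℝ) ≤ KK n := by
    intro n hn
    by_contra hlt
    push Not at hlt
    unfold KK at hlt
    have h1 : kk n + 1 < k0 := by exact_mod_cast hlt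
    apply hn
    have h2 : n < k0 ^ 4 := by
      by_contra h3
      have := kk_ge (M := k0) (n := n) (by omega)
      omega
    rw [hz, Finsupp.sub_apply, hxz n h2, hy, Yc_apply, hc0, zero_mul, sub_zero]
    have := kap_le_kk n
    omega
  have hA := form_ge hzw hzK
  have hB : ‖CC y‖ ≤ t / 2 * ‖J y‖ :=
    (norm_CC_Yc hc0).trans (mul_le_mul_of_nonneg_right hk0 (norm_nonneg _))
  have hB' : (inner ℂ (J y) (CC y)).re ≤ t / 2 * ‖J y‖ ^ 2 := by
    refine (Complex.re_le_norm _).trans ((norm_inner_le_norm _ _).trans ?_)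
    nlinarith [norm_nonneg (J y)]
  have h1 := hx x hxV
  rw [sum_eq, sum_eq', ← mul_pow] at h1
  have hJ := J_ne hx0
  have h2 : ‖CC x - (t : ℂ) • J x‖ ≤ t / 8 * ‖J x‖ :=
    (pow_le_pow_iff_left₀ (norm_nonneg _) (by positivity) two_ne_zero).1 h1
  have hxzy : x = z + y := by rw [hz]; abel
  -- the identity
  have hid : (inner ℂ (J z - J y) (CC x - (t : ℂ) • J x)).re =
      (inner ℂ (J z) (CC z)).re - t * ‖J z‖ ^ 2 - (inner ℂ (J y) (CC y)).re + t * ‖J y‖ ^ 2 := by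
    have e1 : (inner ℂ (J z) (CC y)).re = (inner ℂ (J y) (CC z)).re := by
      rw [← CC_symm, ← inner_conj_symm, Complex.conj_re]
    have e2 : (inner ℂ (J z) (J y)).re = (inner ℂ (J y) (J z)).re := by
      rw [← inner_conj_symm, Complex.conj_re]
    have e3 : ∀ f : L2 ℕ, (inner ℂ f f : ℂ).re = ‖f‖ ^ 2 := by
      intro f
      rw [inner_self_eq_norm_sq_to_K]
      change (((‖f‖ : ℝ) : ℂ) ^ 2).re = _
      rw [← Complex.ofReal_pow, Complex.ofReal_re]
    rw [hxzy, map_add, map_add, smul_add]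
    simp only [inner_sub_left, inner_sub_right, inner_add_right, inner_smul_right, Complex.sub_re,
      Complex.add_re, Complex.re_ofReal_mul, e1, e2, e3]
    ring
  have h3 : (inner ℂ (J z - J y) (CC x - (t : ℂ) • J x)).re ≤
      (‖J z‖ + ‖J y‖) * (t / 8 * ‖J x‖) := by
    refine (Complex.re_le_norm _).trans ((norm_inner_le_norm _ _).trans ?_)
    exact mul_le_mul (norm_sub_le _ _) h2 (norm_nonneg _) (by positivity)
  have h4 : ‖J x‖ ≤ ‖J z‖ + ‖J y‖ := by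
    rw [hxzy, map_add]; exact norm_add_le _ _
  rw [hid] at h3
  have h5 : (t : ℝ) / 2 * (‖J z‖ ^ 2 + ‖J y‖ ^ 2) ≤ (‖J z‖ + ‖J y‖) * (t / 8 * ‖J x‖) := by
    have h6 : 2 * t * ‖J z‖ ^ 2 ≤ k0 * ‖J z‖ ^ 2 := mul_le_mul_of_nonneg_right hk1 (sq_nonneg _)
    nlinarith [sq_nonneg (‖J z‖), sq_nonneg (‖J y‖)]
  have h6 : (‖J z‖ + ‖J y‖) * (t / 8 * ‖J x‖) ≤ t / 8 * (‖J z‖ + ‖J y‖) ^ 2 := by
    have h7 : 0 ≤ ‖J z‖ + ‖J y‖ := by positivity
    have h8 := mul_le_mul_of_nonneg_left h4 h7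
    nlinarith
  have h7 : 0 < ‖J z‖ + ‖J y‖ := lt_of_lt_of_le hJ h4
  nlinarith [sq_nonneg (‖J z‖ - ‖J y‖), pow_pos h7 2]

/-- The negation of the preceding statement: For a Jacobi operator with positive off-diagonals a, diagonal b tending to infinity, a_n^2/(b_n b_{n+1}) tending to 1/4 and zero deficiency: if its essential spectrum has a least point ρ, then the essential spectrum equals [ρ, ∞). -/
theorem result :
    ¬ (∀ (a b : ℕ → ℝ), (∀ n, 0 < a n) →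
      Filter.Tendsto b Filter.atTop Filter.atTop →
      Filter.Tendsto (fun n => a n ^ 2 / (b n * b (n + 1))) Filter.atTop (nhds (1 / 4 : ℝ)) →
      (∀ u : ℕ → ℂ, Summable (fun k => ‖u k‖ ^ 2) →
        (∀ k : ℕ, (if k = 0 then (0 : ℂ) else (a (k - 1) : ℂ) * u (k - 1))
            + (b k : ℂ) * u k + (a k : ℂ) * u (k + 1) = Complex.I * u k) → u = 0) →
      ∀ S : Set ℝ,
        S = {t : ℝ | ∀ ε : ℝ, 0 < ε → ∀ n : ℕ, ∃ V : Submodule ℂ (ℕ →₀ ℂ),
              Module.finrank ℂ V = n ∧ ∀ x ∈ V,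
                ∑' k : ℕ, ‖(if k = 0 then (0 : ℂ) else (a (k - 1) : ℂ) * x (k - 1))
                    + (b k : ℂ) * x k + (a k : ℂ) * x (k + 1) - (t : ℂ) * x k‖ ^ 2
                  ≤ ε ^ 2 * ∑' k : ℕ, ‖x k‖ ^ 2} →
        ∀ ρ : ℝ, IsLeast S ρ → S = Set.Ici ρ) := by
  intro H
  have h1 := H aa bb aa_pos tendsto_bb tendsto_quot deficiency SS rfl 0 ⟨zero_mem, fun t ht => by
    by_contra h
    exact neg_notMem (by linarith) ht⟩
  have h2 : (1 : ℝ) ∈ SS := by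
    rw [h1]
    simp
  exact pos_notMem one_pos h2

end Pool.Agent.S04098
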