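import Pool.Statements.S04104
import Pool.Agent.H626R3.CT.Asm
import Pool.Agent.H626R3.CT.T_TMetric
import Pool.Agent.H626R3.CT.T_TUlf
import Pool.Agent.H626R3.CT.T_TAnti
import Pool.Agent.H626R3.CT.T_TGraph
import Pool.Agent.H626R3.CT.T_TPot
import Pool.Agent.H626R3.CT.T_TLower
import Pool.Agent.H626R3.CT.T_TRect
import Pool.Agent.H626R3.CT.T_TFull
import Pool.Agent.H626R3.CT.T_TNest
import Pool.Agent.H626R3.CT.T_TRing
import Pool.Agent.H626R3.CT.T_TSum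
import Pool.Agent.H626R3.CT.T_TBoundary
import Pool.Agent.H626R3.CT.T_TAmp0
import Pool.Agent.H626R3.CT.T_TConv
import Pool.Agent.H626R3.CT.T_TUni
import Pool.Agent.H626R3.CT.T_TAmp
import Pool.Agent.H626R3.CT.T_TSchur
import Pool.Agent.H626R3.CT.T_TKer
import Pool.Agent.H626R3.CT.T_TL1
import Pool.Agent.H626R3.CT.T_TApprox38
import Pool.Agent.H626R3.CT.T_TEmb
import Pool.Agent.H626R3.CT.T_TWave
import Pool.Agent.H626R3.CT.T_TGauge
import Pool.Agent.H626R3.CT.T_TLift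
import Pool.Agent.H626R3.CT.T_TOnGrid
import Pool.Agent.H626R3.CT.T_TMoveIn
import Pool.Agent.H626R3.CT.T_TMoveBd
import Pool.Agent.H626R3.CT.T_TMoveAnti
import Pool.Agent.H626R3.CT.T_TMoveRefl
import Pool.Agent.H626R3.CT.T_TStep
import Pool.Agent.H626R3.CT.T_THole
import Pool.Agent.H626R3.CT.T_TPathY
import Pool.Agent.H626R3.CT.T_TBdd
import Pool.Agent.H626R3.CT.T_TFeat
import Pool.Agent.H626R3.CT.T_TUpper

set_option autoImplicit false
open Classical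
open Pool Pool.MP_270856_an

namespace Pool.Agent.S04104

/-- The negation of the preceding statement: For uniformly locally finite metric spaces X, Y, if the uniform Roe algebra of X embeds injectively as a *-algebra into that of Y, then asdim X ≤ asdim Y (every n bounding asdim Y also bounds asdim X). -/
theorem result :
    ¬ (∀ (X Y : Type) [MetricSpace X] [MetricSpace Y],
    (∀ r : ℝ, ∃ N : ℕ, ∀ x : X,
        (Metric.closedBall x r).Finite ∧ (Metric.closedBall x r).ncard ≤ N) →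
    (∀ r : ℝ, ∃ N : ℕ, ∀ y : Y,
        (Metric.closedBall y r).Finite ∧ (Metric.closedBall y r).ncard ≤ N) →
    (∃ Φ : (StarAlgebra.adjoin ℂ
              {T : lp (fun _ : X => ℂ) 2 →L[ℂ] lp (fun _ : X => ℂ) 2 |
                ∃ R : ℝ, ∀ a b : X, R < dist a b →
                  inner ℂ (lp.single (E := fun _ : X => ℂ) 2 a (1 : ℂ))
                    (T (lp.single (E := fun _ : X => ℂ) 2 b (1 : ℂ))) = 0}).topologicalClosure
            →⋆ₙₐ[ℂ]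
           (StarAlgebra.adjoin ℂ
              {T : lp (fun _ : Y => ℂ) 2 →L[ℂ] lp (fun _ : Y => ℂ) 2 |
                ∃ R : ℝ, ∀ a b : Y, R < dist a b →
                  inner ℂ (lp.single (E := fun _ : Y => ℂ) 2 a (1 : ℂ))
                    (T (lp.single (E := fun _ : Y => ℂ) 2 b (1 : ℂ))) = 0}).topologicalClosure,
        Function.Injective Φ) →
    ∀ n : ℕ,
      (∀ R : ℝ, 0 < R → ∃ U : Fin (n + 1) → Set (Set Y),
        (∃ D : ℝ, ∀ i, ∀ A ∈ U i, ∀ a ∈ A, ∀ b ∈ A, dist a b ≤ D) ∧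
        (∀ z : Y, ∃ i, ∃ A ∈ U i, z ∈ A) ∧
        (∀ i, ∀ A ∈ U i, ∀ B ∈ U i, A ≠ B → ∀ a ∈ A, ∀ b ∈ B, R < dist a b)) →
      (∀ R : ℝ, 0 < R → ∃ U : Fin (n + 1) → Set (Set X),
        (∃ D : ℝ, ∀ i, ∀ A ∈ U i, ∀ a ∈ A, ∀ b ∈ A, dist a b ≤ D) ∧
        (∀ z : X, ∃ i, ∃ A ∈ U i, z ∈ A) ∧
        (∀ i, ∀ A ∈ U i, ∀ B ∈ U i, A ≠ B → ∀ a ∈ A, ∀ b ∈ B, R < dist a b))) := by
  intro h
  obtain ⟨X, Y, mX, mY, uX, uY, hP, hY, hX⟩ :=
    Pool.Agent.H626R3.CT.Asm.final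
      Pool.Agent.H626R3.CT.T_TMetric.ok
      Pool.Agent.H626R3.CT.T_TUlf.ok
      Pool.Agent.H626R3.CT.T_TAnti.ok
      Pool.Agent.H626R3.CT.T_TGraph.ok
      Pool.Agent.H626R3.CT.T_TPot.ok
      Pool.Agent.H626R3.CT.T_TLower.ok
      Pool.Agent.H626R3.CT.T_TRect.ok
      Pool.Agent.H626R3.CT.T_TFull.ok
      Pool.Agent.H626R3.CT.T_TNest.ok
      Pool.Agent.H626R3.CT.T_TRing.ok
      Pool.Agent.H626R3.CT.T_TSum.ok
      Pool.Agent.H626R3.CT.T_TBoundary.ok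
      Pool.Agent.H626R3.CT.T_TAmp0.ok
      Pool.Agent.H626R3.CT.T_TConv.ok
      Pool.Agent.H626R3.CT.T_TUni.ok
      Pool.Agent.H626R3.CT.T_TAmp.ok
      Pool.Agent.H626R3.CT.T_TSchur.ok
      Pool.Agent.H626R3.CT.T_TKer.ok
      Pool.Agent.H626R3.CT.T_TL1.ok
      Pool.Agent.H626R3.CT.T_TApprox38.ok
      Pool.Agent.H626R3.CT.T_TEmb.ok
      Pool.Agent.H626R3.CT.T_TWave.ok
      Pool.Agent.H626R3.CT.T_TGauge.ok
      Pool.Agent.H626R3.CT.T_TLift.ok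
      Pool.Agent.H626R3.CT.T_TOnGrid.ok
      Pool.Agent.H626R3.CT.T_TMoveIn.ok
      Pool.Agent.H626R3.CT.T_TMoveBd.ok
      Pool.Agent.H626R3.CT.T_TMoveAnti.ok
      Pool.Agent.H626R3.CT.T_TMoveRefl.ok
      Pool.Agent.H626R3.CT.T_TStep.ok
      Pool.Agent.H626R3.CT.T_THole.ok
      Pool.Agent.H626R3.CT.T_TPathY.ok
      Pool.Agent.H626R3.CT.T_TBdd.ok
      Pool.Agent.H626R3.CT.T_TFeat.ok
      Pool.Agent.H626R3.CT.T_TUpper.ok
  letI := mX
  letI := mY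
  exact hX (h X Y uX uY hP 1 hY)

end Pool.Agent.S04104
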