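import Pool.Statements.S04125
import Pool.Agent.H414R3.NSFinal

set_option autoImplicit false
open MeasureTheory
open Pool Pool.MP_288ee9_an

namespace Pool.Agent.S04125

/-- There exist d ≥ 1, a measurable finite-measure set E in ℝ^d with no orthogonal basis of exponentials for L²(E), and S in ℝ^d × ℝ^d such that the functions χ_E(x−a)e^{−2πi x·b}, (a,b) in S, form an orthogonal basis of L²(ℝ^d). -/
theorem result :
    ∃ (d : ℕ) (E : Set (EuclideanSpace ℝ (Fin d))),
      0 < d ∧ MeasurableSet E ∧ volume E < ⊤ ∧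
      (¬ ∃ B : Set (EuclideanSpace ℝ (Fin d)),
          (∀ b ∈ B, ∀ b' ∈ B, b ≠ b' →
            ∫ x in E, Complex.exp (-2 * (Real.pi : ℂ) * Complex.I * ((inner ℝ x b : ℝ) : ℂ)) *
              starRingEnd ℂ (Complex.exp (-2 * (Real.pi : ℂ) * Complex.I * ((inner ℝ x b' : ℝ) : ℂ))) = 0) ∧
          (∀ f : EuclideanSpace ℝ (Fin d) → ℂ, MemLp f 2 (volume.restrict E) →
            (∀ b ∈ B, ∫ x in E, f x *
              starRingEnd ℂ (Complex.exp (-2 * (Real.pi : ℂ) * Complex.I * ((inner ℝ x b : ℝ) : ℂ))) = 0) →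
            f =ᵐ[volume.restrict E] 0)) ∧
      ∃ S : Set (EuclideanSpace ℝ (Fin d) × EuclideanSpace ℝ (Fin d)),
        (∀ p ∈ S, ∀ q ∈ S, p ≠ q →
          ∫ x, (E.indicator (fun _ => (1 : ℂ)) (x - p.1) *
                Complex.exp (-2 * (Real.pi : ℂ) * Complex.I * ((inner ℝ x p.2 : ℝ) : ℂ))) *
              starRingEnd ℂ (E.indicator (fun _ => (1 : ℂ)) (x - q.1) *
                Complex.exp (-2 * (Real.pi : ℂ) * Complex.I * ((inner ℝ x q.2 : ℝ) : ℂ))) = 0) ∧
        (∀ f : EuclideanSpace ℝ (Fin d) → ℂ, MemLp f 2 volume →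
          (∀ p ∈ S, ∫ x, f x *
              starRingEnd ℂ (E.indicator (fun _ => (1 : ℂ)) (x - p.1) *
                Complex.exp (-2 * (Real.pi : ℂ) * Complex.I * ((inner ℝ x p.2 : ℝ) : ℂ))) = 0) →
          f =ᵐ[volume] 0) := by
  obtain ⟨k, hk, hns⟩ := H414R3.NS.nonspectral
  have hkpos : 0 < k := H414R3.NS.k_pos hk
  have hexp : ∀ (b x : EuclideanSpace ℝ (Fin 2)),
      Complex.exp (-2 * (Real.pi : ℂ) * Complex.I * ((inner ℝ x b : ℝ) : ℂ)) = H414R3.ex (-b) x := by
    intro b x
    unfold H414R3.ex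
    rw [inner_neg_left, real_inner_comm]
    congr 1
    push_cast
    ring
  refine ⟨2, H414R3.NS.Om k, by norm_num, H414R3.NS.measurableSet_Om k,
    (H414R3.NS.bounded_Om k).measure_lt_top, ?_, ?_⟩
  · rintro ⟨B, hB1, hB2⟩
    apply hns ((fun b : EuclideanSpace ℝ (Fin 2) => -b) '' B)
    constructor
    · rintro _ ⟨b, hb, rfl⟩ _ ⟨b', hb', rfl⟩ hne
      have h1 := hB1 b hb b' hb' (fun h => hne (by rw [h]))
      simp only [hexp] at h1
      simp only [H414R3.NS.ee_eq_ex]
      exact h1
    · intro f hf horth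
      apply hB2 f hf
      intro b hb
      have h1 := horth (-b) ⟨b, hb, rfl⟩
      simp only [H414R3.NS.ee_eq_ex] at h1
      simp only [hexp]
      exact h1
  · have hW : ∀ (t : Fin 2 → ℤ) (b x : EuclideanSpace ℝ (Fin 2)),
        (H414R3.NS.Om k).indicator (fun _ => (1 : ℂ)) (x - H414R3.zv t) *
          Complex.exp (-2 * (Real.pi : ℂ) * Complex.I * ((inner ℝ x b : ℝ) : ℂ)) =
        H414R3.W (H414R3.NS.g k) t (-b) x := by
      intro t b x
      rw [hexp, H414R3.NS.indicator_Om, H414R3.cel_sub]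
      rfl
    refine ⟨{p | ∃ u v r q : ℤ, p = (H414R3.zv ![k * u, 6 * k * v], H414R3.NS.φ k u r q)}, ?_, ?_⟩
    · rintro _ ⟨u, v, r, q, rfl⟩ _ ⟨u', v', r', q', rfl⟩ hne
      simp only [hW]
      rw [H414R3.inner_W (H414R3.NS.g k) (H414R3.NS.Ek k) (H414R3.NS.hg k)]
      by_cases hc : u = u' ∧ v = v' ∧ (k : ℤ) ∣ q' - q ∧ ((6 * k : ℕ) : ℤ) ∣ r' - r
      · obtain ⟨rfl, rfl, ⟨w, hw⟩, ⟨z, hz⟩⟩ := hc
        have hk' : (k : ℝ) ≠ 0 := by positivity
        have h1 : -H414R3.NS.φ k u r q - -H414R3.NS.φ k u r' q' = H414R3.zv ![z, w] := by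
          have hq : (q' : ℝ) = q + k * w := by
            have : ((q' - q : ℤ) : ℝ) = ((k * w : ℤ) : ℝ) := by rw [hw]
            push_cast at this
            linarith
          have hr : (r' : ℝ) = r + 6 * k * z := by
            have : ((r' - r : ℤ) : ℝ) = (((6 * k : ℕ) * z : ℤ) : ℝ) := by rw [hz]
            push_cast at this
            linarith
          ext i
          fin_cases i
          · simp [H414R3.NS.φ]
            rw [hr]
            field_simp
            ring
          · simp [H414R3.NS.φ]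
            rw [hq]
            field_simp
            ring
        rw [h1, H414R3.integral_ex_cell, if_neg, mul_zero]
        intro h0
        have z0 := congrFun h0 0
        have z1 := congrFun h0 1
        simp at z0 z1
        apply hne
        rw [z0, mul_zero] at hz
        rw [z1, mul_zero] at hw
        rw [sub_eq_zero.1 hz, sub_eq_zero.1 hw]
      · rw [H414R3.NS.disc_orth hk u v r q u' v' r' q' hc, zero_mul]
    · intro f hf horth
      apply H414R3.gabor_complete (H414R3.NS.g k) (H414R3.NS.Ek k) (H414R3.NS.hg k)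
        (H414R3.NS.P k) (H414R3.NS.hP k) (H414R3.NS.disc_complete hk) f hf
      rintro _ ⟨u, v, r, q, rfl⟩ n
      have h1 := horth (H414R3.zv ![k * u, 6 * k * v], H414R3.NS.φ k u (r - 6 * k * n 0) (q - k * n 1))
        ⟨u, v, _, _, rfl⟩
      simp only [hW] at h1
      have hk' : (k : ℝ) ≠ 0 := by positivity
      have h2 : -H414R3.NS.φ k u (r - 6 * k * n 0) (q - k * n 1) =
          -H414R3.NS.φ k u r q + H414R3.zv n := by
        ext i
        fin_cases i
        · simp [H414R3.NS.φ]
          field_simp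
          ring
        · simp [H414R3.NS.φ]
          field_simp
          ring
      rw [h2] at h1
      exact h1

end Pool.Agent.S04125
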