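import Pool.Statements.S04153
import Pool.Agent.H903R3.Main

set_option autoImplicit false
open Pool Pool.MP_29b974_an

namespace Pool.Agent.S04153

/-- For every n>1 there is a function holomorphic on the Euclidean unit ball of C^n, nonzero somewhere there, whose limit along the radius toward z/∣z∣ is 0 for Lebesgue-almost every z, i.e. for almost every sphere direction. -/
theorem result :
    ∀ n : ℕ, 1 < n → ∃ f : (Fin n → ℂ) → ℂ,
      DifferentiableOn ℂ f {z : Fin n → ℂ | ∑ i, ‖z i‖ ^ 2 < 1} ∧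
      (∃ z : Fin n → ℂ, ∑ i, ‖z i‖ ^ 2 < 1 ∧ f z ≠ 0) ∧
      ∀ᵐ z ∂(MeasureTheory.volume : MeasureTheory.Measure (Fin n → ℂ)),
        Filter.Tendsto
          (fun r : ℝ => f (((r / Real.sqrt (∑ i, ‖z i‖ ^ 2) : ℝ) : ℂ) • z))
          (nhdsWithin (1 : ℝ) (Set.Iio 1)) (nhds (0 : ℂ)) := by
  intro n hn
  obtain ⟨G, hG, hlim⟩ := Pool.Agent.H903R3.main n
  refine ⟨fun z => Complex.exp (-G z), ?_, ⟨0, by simp, Complex.exp_ne_zero _⟩, ?_⟩
  · exact hG.neg.cexp
  · have hn0 : Nonempty (Fin n) := ⟨⟨0, by omega⟩⟩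
    have hz0 : ∀ᵐ z ∂(MeasureTheory.volume : MeasureTheory.Measure (Fin n → ℂ)), z ≠ 0 :=
      MeasureTheory.Measure.ae_ne _ (0 : Fin n → ℂ)
    filter_upwards [hlim, hz0] with z hz hz0
    have h := hz hz0
    rw [tendsto_zero_iff_norm_tendsto_zero]
    have h2 := Real.tendsto_exp_atBot.comp (Filter.tendsto_neg_atTop_atBot.comp h)
    refine h2.congr (fun r => ?_)
    simp only [Function.comp_apply, Complex.norm_exp, Complex.neg_re]

end Pool.Agent.S04153
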