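import Pool.Statements.S04174
import Pool.Agent.H651R3.Berg4

set_option autoImplicit false
open Pool Pool.MP_2b4eae_an

namespace Pool.Agent.S04174

/-- The negation of the preceding statement: If α,β>−1, p,q>0, (α+1)/p=(β+1)/q and (p,α)≠(q,β), then any multiplicity pattern on the disc is the exact zero set of a nonzero function in A^p_α iff it is the exact zero set of a nonzero function in A^q_β. -/
theorem result :
    ¬ (∀ p q α β : ℝ, 0 < p → 0 < q → -1 < α → -1 < β →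
      (α + 1) / p = (β + 1) / q → (p, α) ≠ (q, β) →
      ∀ m : ℂ → ℕ,
        (∃ f : ℂ → ℂ, DifferentiableOn ℂ f (Metric.ball (0 : ℂ) 1) ∧
          (∫⁻ z in Metric.ball (0 : ℂ) 1,
              ENNReal.ofReal (‖f z‖ ^ p * (1 - ‖z‖) ^ α)) < ⊤ ∧
          (∃ z ∈ Metric.ball (0 : ℂ) 1, f z ≠ 0) ∧
          ∀ z ∈ Metric.ball (0 : ℂ) 1, analyticOrderAt f z = ((m z : ℕ) : ℕ∞)) ↔
        (∃ f : ℂ → ℂ, DifferentiableOn ℂ f (Metric.ball (0 : ℂ) 1) ∧
          (∫⁻ z in Metric.ball (0 : ℂ) 1,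
              ENNReal.ofReal (‖f z‖ ^ q * (1 - ‖z‖) ^ β)) < ⊤ ∧
          (∃ z ∈ Metric.ball (0 : ℂ) 1, f z ≠ 0) ∧
          ∀ z ∈ Metric.ball (0 : ℂ) 1, analyticOrderAt f z = ((m z : ℕ) : ℕ∞))) := by
  intro H
  have h0 : (0:ℂ) ∈ Metric.ball (0:ℂ) 1 := Metric.mem_ball_self one_pos
  have hfd := Pool.Agent.H651R3.Berg.TT_diff 0
  have hf0 := Pool.Agent.H651R3.Berg.TT_zero 0
  have hfa : AnalyticOnNhd ℂ (Pool.Agent.H651R3.Berg.TT 0) (Metric.ball 0 1) :=
    hfd.analyticOnNhd Metric.isOpen_ball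
  have hord : ∀ z ∈ Metric.ball (0:ℂ) 1, analyticOrderAt (Pool.Agent.H651R3.Berg.TT 0) z ≠ ⊤ := by
    intro z hz htop
    rw [analyticOrderAt_eq_top] at htop
    have h1 := hfa.eqOn_zero_of_preconnected_of_eventuallyEq_zero
      (convex_ball (0:ℂ) 1).isPreconnected hz htop
    have h2 := h1 h0
    rw [hf0] at h2
    exact one_ne_zero h2
  obtain ⟨g, hg, hgn, -, hgo⟩ := (H 1 2 0 1 one_pos two_pos (by norm_num) (by norm_num) (by norm_num)
    (by simp) (fun z => (analyticOrderAt (Pool.Agent.H651R3.Berg.TT 0) z).toNat)).2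
    ⟨Pool.Agent.H651R3.Berg.TT 0, hfd, by
      have := Pool.Agent.H651R3.Berg.f_norm
      simpa using this, ⟨0, h0, by rw [hf0]; exact one_ne_zero⟩, fun z hz => by
      rw [ENat.coe_toNat (hord z hz)]⟩
  obtain ⟨q, hq, hgq⟩ := Pool.Agent.H651R3.Berg.exists_quot hfd hg (fun z hz => ⟨by
    rw [hgo z hz, ENat.coe_toNat (hord z hz)], hord z hz⟩)
  have hg0 : g 0 ≠ 0 := by
    have h1 := hgo 0 h0
    have h2 : analyticOrderAt (Pool.Agent.H651R3.Berg.TT 0) 0 = 0 := by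
      rw [(hfa 0 h0).analyticOrderAt_eq_zero, hf0]; exact one_ne_zero
    rw [h2] at h1
    have h3 : analyticOrderAt g 0 = 0 := by simpa using h1
    exact (hg.analyticAt (Metric.isOpen_ball.mem_nhds h0)).analyticOrderAt_eq_zero.1 h3
  have h5 := Pool.Agent.H651R3.Berg.g_infinite hg hq hgq hg0
  have h6 : (∫⁻ z in Metric.ball (0 : ℂ) 1, ENNReal.ofReal (‖g z‖ ^ (1:ℝ) * (1 - ‖z‖) ^ (0:ℝ))) = ⊤ := by
    simpa using h5
  exact absurd hgn (by rw [h6]; exact lt_irrefl _)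

end Pool.Agent.S04174
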