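import Pool.Statements.S04186
import Pool.Agent.H896DB.Hyp
import Pool.Agent.H896DB.NoUni

set_option autoImplicit false
open Pool Pool.MP_2cd50e_an

namespace Pool.Agent.S04186

/-- The negation of the preceding statement: If B_1>0,B_2,…,B_r make composition with B a contraction of the indefinite space D_r^ν for every real ν, then some injective holomorphic self-map of the disk fixing 0 has Taylor coefficients B_1,…,B_r. -/
theorem result :
    ¬ (∀ r : ℕ, 1 ≤ r → ∀ b : ℕ → ℂ, (b 1 = (((b 1).re : ℝ) : ℂ)) → 0 < (b 1).re →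
      (∀ ν : ℝ, ∀ a : ℕ → ℂ,
        ∑ m ∈ Finset.Icc 1 r, (ν + (m : ℝ)) *
          ‖∑ n ∈ Finset.Icc 1 m, a n * ((((b 1).re ^ (ν + (n : ℝ)) : ℝ)) : ℂ) *
            ∑ j ∈ Finset.range (m - n + 1),
              (∏ i ∈ Finset.range j, ((((ν + (n : ℝ)) : ℝ) : ℂ) - (i : ℂ))) / ((j.factorial : ℕ) : ℂ) *
              ((∑ k ∈ Finset.Ico 1 r, Polynomial.C (b (k + 1) / b 1) * Polynomial.X ^ k) ^ j).coeff (m - n)‖ ^ 2
        ≤ ∑ n ∈ Finset.Icc 1 r, (ν + (n : ℝ)) * ‖a n‖ ^ 2) →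
      ∃ B : ℂ → ℂ, DifferentiableOn ℂ B (Metric.ball (0 : ℂ) 1) ∧
        Set.InjOn B (Metric.ball (0 : ℂ) 1) ∧
        Set.MapsTo B (Metric.ball (0 : ℂ) 1) (Metric.ball (0 : ℂ) 1) ∧
        B 0 = 0 ∧
        ∀ n ∈ Finset.Icc 1 r, iteratedDeriv n B 0 / ((n.factorial : ℕ) : ℂ) = b n) := by
  intro H
  obtain ⟨B, hB, hi, -, hB0, hc⟩ := H 3 (by norm_num) Pool.Agent.H896DB.tup
    (by rw [Pool.Agent.H896DB.tup1]; simp)
    (by rw [Pool.Agent.H896DB.tup1]; simpa using Pool.Agent.H896DB.bb_pos)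
    (fun ν a => Pool.Agent.H896DB.local_contraction 3 rfl ν a)
  have h1 := hc 1 (by simp)
  have h2 := hc 2 (by simp)
  have h3 := hc 3 (by simp)
  rw [Pool.Agent.H896DB.tup1] at h1
  rw [Pool.Agent.H896DB.tup2] at h2
  rw [Pool.Agent.H896DB.tup3] at h3
  refine Pool.Agent.H896DB.no_univalent B hB hi hB0 (Pool.Agent.H896DB.bb : ℂ) ?_ h1 ?_ ?_
  · exact_mod_cast Pool.Agent.H896DB.bb_pos.ne'
  · rw [h2]; push_cast; ring
  · rw [h3]; push_cast; ring

end Pool.Agent.S04186
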