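import Pool.Statements.S04187
import Pool.Agent.H456R3.S.G4

set_option autoImplicit false
open MeasureTheory
open scoped ENNReal
open Pool Pool.MP_2cde6c_an

namespace Pool.Agent.S04187

/-- For all d≥1, 0<p≤1, k≥3, some measurable V:ℝ^d→[0,∞] with ∫V^(-p)≤1 has min-max k-th eigenvalue of the form ∫∣∇u∣²+Vu² on H¹ no larger than that of any other such potential. -/
theorem result :
  ∀ d : ℕ, 1 ≤ d → ∀ p : ℝ, 0 < p → p ≤ 1 → ∀ k : ℕ, 3 ≤ k →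
  ∀ lam : ((Fin d → ℝ) → ℝ≥0∞) → ℝ≥0∞,
   (∀ V : (Fin d → ℝ) → ℝ≥0∞, lam V =
     ⨅ (u : Fin k → (Fin d → ℝ) → ℝ) (g : Fin k → Fin d → (Fin d → ℝ) → ℝ)
       (_ : (∀ j, MemLp (u j) 2 volume) ∧ (∀ j i, MemLp (g j i) 2 volume) ∧
         (∀ j i (φ : (Fin d → ℝ) → ℝ), ContDiff ℝ ((⊤ : ℕ∞) : WithTop ℕ∞) φ →
            HasCompactSupport φ →
            ∫ x, u j x * fderiv ℝ φ x (Pi.single i (1 : ℝ)) = - ∫ x, g j i x * φ x) ∧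
         (∀ j, ∫⁻ x, V x * ENNReal.ofReal (u j x ^ 2) < ⊤) ∧
         (∀ c : Fin k → ℝ, c ≠ 0 →
            ∫⁻ x, ENNReal.ofReal ((∑ j, c j * u j x) ^ 2) ≠ 0)),
       ⨆ (c : Fin k → ℝ) (_ : c ≠ 0),
         (∫⁻ x, ((∑ i, ENNReal.ofReal ((∑ j, c j * g j i x) ^ 2))
              + V x * ENNReal.ofReal ((∑ j, c j * u j x) ^ 2))) /
           ∫⁻ x, ENNReal.ofReal ((∑ j, c j * u j x) ^ 2)) →
   ∃ V : (Fin d → ℝ) → ℝ≥0∞, Measurable V ∧ ∫⁻ x, V x ^ (-p) ≤ 1 ∧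
     ∀ W : (Fin d → ℝ) → ℝ≥0∞, Measurable W → ∫⁻ x, W x ^ (-p) ≤ 1 → lam V ≤ lam W := by
  intro d _ p hp0 hp1 k hk lam hlam
  have h : ∀ V, lam V = Pool.Agent.H456R3.S.lamK k V := hlam
  obtain ⟨V, h1, h2, h3⟩ := Pool.Agent.H456R3.S.exists_optimal (d := d) (k := k)
    (by omega) hp0 hp1
  refine ⟨V, h1, h2, fun W h4 h5 => ?_⟩
  rw [h, h]
  exact h3 W h4 h5

end Pool.Agent.S04187
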