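import Pool.Statements.S04204
import Pool.Agent.H342R3.Visc

set_option autoImplicit false
open Pool Pool.MP_2d773b_an

namespace Pool.Agent.S04204

/-- The negation of the preceding statement: For all T>0, n,d≥1 and continuous b,σ,g,h with Lipschitz/bounded coefficients and growth bounds G1, G2, some u continuous on [0,T]×ℝⁿ with u(T,·)=h is a viscosity sub- and supersolution of ∂ₜu+Lu+g(t,x,u,σ*∇u)=0 on (0,T)×ℝⁿ. -/
theorem result :
    ¬ (∀ (T : ℝ), 0 < T → ∀ (n d : ℕ), 1 ≤ n → 1 ≤ d →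
  ∀ (b : ℝ → EuclideanSpace ℝ (Fin n) → EuclideanSpace ℝ (Fin n))
    (σ : ℝ → EuclideanSpace ℝ (Fin n) → Fin n → Fin d → ℝ)
    (g : ℝ → EuclideanSpace ℝ (Fin n) → ℝ → (Fin d → ℝ) → ℝ)
    (h : EuclideanSpace ℝ (Fin n) → ℝ)
    (K k α p : ℝ),
    ContinuousOn (fun q : ℝ × EuclideanSpace ℝ (Fin n) => b q.1 q.2)
      (Set.Icc (0:ℝ) T ×ˢ (Set.univ : Set (EuclideanSpace ℝ (Fin n)))) →
    ContinuousOn (fun q : ℝ × EuclideanSpace ℝ (Fin n) => σ q.1 q.2)
      (Set.Icc (0:ℝ) T ×ˢ (Set.univ : Set (EuclideanSpace ℝ (Fin n)))) →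
    ContinuousOn
      (fun q : ℝ × EuclideanSpace ℝ (Fin n) × ℝ × (Fin d → ℝ) => g q.1 q.2.1 q.2.2.1 q.2.2.2)
      (Set.Icc (0:ℝ) T ×ˢ (Set.univ : Set (EuclideanSpace ℝ (Fin n) × ℝ × (Fin d → ℝ)))) →
    Continuous h →
    0 < K → 0 ≤ k → 1 < α → α ≤ 2 → 1 ≤ p → p < α / (α - 1) →
    (∀ t ∈ Set.Icc (0:ℝ) T, ∀ x x' : EuclideanSpace ℝ (Fin n),
      ‖b t 0‖ + Real.sqrt (∑ i, ∑ j, (σ t x i j) ^ 2) ≤ K ∧
      ‖b t x - b t x'‖ + Real.sqrt (∑ i, ∑ j, (σ t x i j - σ t x' i j) ^ 2) ≤ K * ‖x - x'‖) →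
    (∀ t ∈ Set.Icc (0:ℝ) T, ∀ (x : EuclideanSpace ℝ (Fin n)) (y : ℝ) (z : Fin d → ℝ),
      Real.sign y * g t x y z
        ≤ k * (1 + ‖x‖ ^ p + |y| + (Real.sqrt (∑ j, z j ^ 2)) ^ α)) →
    (∀ t ∈ Set.Icc (0:ℝ) T, ∀ (x : EuclideanSpace ℝ (Fin n)) (y : ℝ) (z : Fin d → ℝ),
      |g t x y z| + |h x|
        ≤ k * (1 + ‖x‖ ^ p + Real.exp (k * |y| ^ (2 / (α / (α - 1)))) + ∑ j, z j ^ 2)) →
    ∃ u : ℝ → EuclideanSpace ℝ (Fin n) → ℝ,
      ContinuousOn (fun q : ℝ × EuclideanSpace ℝ (Fin n) => u q.1 q.2)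
        (Set.Icc (0:ℝ) T ×ˢ (Set.univ : Set (EuclideanSpace ℝ (Fin n)))) ∧
      (∀ x, u T x = h x) ∧
      ∀ φ : ℝ → EuclideanSpace ℝ (Fin n) → ℝ,
        ContDiff ℝ ((⊤ : ℕ∞) : WithTop ℕ∞)
          (fun q : ℝ × EuclideanSpace ℝ (Fin n) => φ q.1 q.2) →
        ∀ t0 ∈ Set.Ioo (0:ℝ) T, ∀ x0 : EuclideanSpace ℝ (Fin n),
          (IsLocalMin (fun q : ℝ × EuclideanSpace ℝ (Fin n) => u q.1 q.2 - φ q.1 q.2) (t0, x0) →
            deriv (fun s => φ s x0) t0 + fderiv ℝ (φ t0) x0 (b t0 x0)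
              + (1 / 2) * ∑ i, ∑ j, (∑ l, σ t0 x0 i l * σ t0 x0 j l)
                  * fderiv ℝ (fun y => fderiv ℝ (φ t0) y) x0
                      (EuclideanSpace.single i (1:ℝ)) (EuclideanSpace.single j (1:ℝ))
              + g t0 x0 (u t0 x0)
                  (fun j => ∑ i, σ t0 x0 i j * fderiv ℝ (φ t0) x0 (EuclideanSpace.single i (1:ℝ)))
              ≤ 0) ∧
          (IsLocalMax (fun q : ℝ × EuclideanSpace ℝ (Fin n) => u q.1 q.2 - φ q.1 q.2) (t0, x0) →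
            0 ≤ deriv (fun s => φ s x0) t0 + fderiv ℝ (φ t0) x0 (b t0 x0)
              + (1 / 2) * ∑ i, ∑ j, (∑ l, σ t0 x0 i l * σ t0 x0 j l)
                  * fderiv ℝ (fun y => fderiv ℝ (φ t0) y) x0
                      (EuclideanSpace.single i (1:ℝ)) (EuclideanSpace.single j (1:ℝ))
              + g t0 x0 (u t0 x0)
                  (fun j => ∑ i, σ t0 x0 i j * fderiv ℝ (φ t0) x0 (EuclideanSpace.single i (1:ℝ))))) := by
  intro H
  -- data of the counterexample: `b = 0`, `σ = 0`, `h = 0`, `g = x + 2 sgn(y) √|y|`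
  have hsqrt : ∀ y : ℝ, |2 * (√y - √(-y))| ≤ 1 + |y| := by
    intro y
    rcases le_total 0 y with hy | hy
    · rw [Real.sqrt_eq_zero_of_nonpos (neg_nonpos.2 hy), sub_zero, abs_of_nonneg hy,
        abs_of_nonneg (by positivity)]
      nlinarith [Real.sq_sqrt hy, sq_nonneg (√y - 1)]
    · rw [Real.sqrt_eq_zero_of_nonpos hy, zero_sub, abs_of_nonpos hy, mul_neg, abs_neg,
        abs_of_nonneg (by positivity)]
      nlinarith [Real.sq_sqrt (neg_nonneg.2 hy), sq_nonneg (√(-y) - 1)]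
  have hx0 : ∀ x : EuclideanSpace ℝ (Fin 1), |x 0| ≤ ‖x‖ := by
    intro x
    simpa using PiLp.norm_apply_le x 0
  have hg : ∀ (x : EuclideanSpace ℝ (Fin 1)) (y : ℝ),
      |x 0 + 2 * (√y - √(-y))| ≤ 1 + ‖x‖ + |y| := by
    intro x y
    have h1 := abs_add_le (x 0) (2 * (√y - √(-y)))
    have h2 := hsqrt y
    have h3 := hx0 x
    linarith
  have hcoord : Continuous (fun x : EuclideanSpace ℝ (Fin 1) => x 0) := by fun_prop
  obtain ⟨u, huc, huT, hvisc⟩ := H 1 one_pos 1 1 le_rfl le_rfl (fun _ _ => 0) (fun _ _ _ _ => 0)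
    (fun _ x y _ => x 0 + 2 * (√y - √(-y))) (fun _ => 0) 1 1 2 1
    continuousOn_const continuousOn_const
    (by fun_prop) continuous_const one_pos zero_le_one one_lt_two le_rfl le_rfl (by norm_num)
    (by intro t _ x x'; simp)
    (by
      intro t _ x y z
      have h1 : Real.sign y * (x 0 + 2 * (√y - √(-y))) ≤ |x 0 + 2 * (√y - √(-y))| := by
        rcases Real.sign_apply_eq y with h | h | h
        · rw [h]; have := neg_abs_le (x 0 + 2 * (√y - √(-y))); linarith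
        · rw [h]; simp
        · rw [h]; have := le_abs_self (x 0 + 2 * (√y - √(-y))); linarith
      have h2 := hg x y
      have h3 : 0 ≤ (Real.sqrt (∑ j, z j ^ 2)) ^ (2:ℝ) := by positivity
      rw [Real.rpow_one]
      linarith)
    (by
      intro t _ x y z
      have h2 := hg x y
      have h3 : 0 ≤ ∑ j, z j ^ 2 := by positivity
      have h4 : |y| + 1 ≤ Real.exp |y| := Real.add_one_le_exp _
      have h5 : (2 : ℝ) / (2 / (2 - 1)) = 1 := by norm_num
      rw [Real.rpow_one, h5, Real.rpow_one, abs_zero, one_mul, one_mul]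
      linarith [norm_nonneg x])
  -- super- and subsolution property in reduced form
  have hsup : ∀ φ : ℝ → EuclideanSpace ℝ (Fin 1) → ℝ,
      ContDiff ℝ ((⊤ : ℕ∞) : WithTop ℕ∞)
        (fun q : ℝ × EuclideanSpace ℝ (Fin 1) => φ q.1 q.2) →
      ∀ t0 ∈ Set.Ioo (0:ℝ) 1, ∀ x0,
        IsLocalMin (fun q : ℝ × EuclideanSpace ℝ (Fin 1) => u q.1 q.2 - φ q.1 q.2) (t0, x0) →
        deriv (fun s => φ s x0) t0 + (x0 0 + 2 * (√(u t0 x0) - √(-(u t0 x0)))) ≤ 0 := by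
    intro φ hφ t0 ht0 x0 hmin
    have := (hvisc φ hφ t0 ht0 x0).1 hmin
    simpa using this
  have hsub : ∀ φ : ℝ → EuclideanSpace ℝ (Fin 1) → ℝ,
      ContDiff ℝ ((⊤ : ℕ∞) : WithTop ℕ∞)
        (fun q : ℝ × EuclideanSpace ℝ (Fin 1) => φ q.1 q.2) →
      ∀ t0 ∈ Set.Ioo (0:ℝ) 1, ∀ x0,
        IsLocalMin (fun q : ℝ × EuclideanSpace ℝ (Fin 1) => -(u q.1 q.2) - φ q.1 q.2) (t0, x0) →
        deriv (fun s => φ s x0) t0 + (-(x0 0) + 2 * (√(-(u t0 x0)) - √(-(-(u t0 x0))))) ≤ 0 := by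
    intro φ hφ t0 ht0 x0 hmin
    have hmax : IsLocalMax (fun q : ℝ × EuclideanSpace ℝ (Fin 1) =>
        u q.1 q.2 - (fun s y => -(φ s y)) q.1 q.2) (t0, x0) := by
      have h1 := hmin.neg
      have h2 : (fun q : ℝ × EuclideanSpace ℝ (Fin 1) =>
          u q.1 q.2 - (fun s y => -(φ s y)) q.1 q.2)
          = fun q => -(-(u q.1 q.2) - φ q.1 q.2) := by
        funext q; simp only; ring
      rw [h2]
      exact h1
    have h3 := (hvisc (fun s y => -(φ s y)) hφ.neg t0 ht0 x0).2 hmax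
    simp only [map_zero, mul_zero, zero_mul, Finset.sum_const_zero, add_zero,
      deriv.fun_neg] at h3
    rw [neg_neg]
    have h4 : deriv (fun s => -φ s x0) t0 = -(deriv (fun s => φ s x0) t0) := deriv.fun_neg
    linarith
  have hpos : ∀ x : EuclideanSpace ℝ (Fin 1), 0 < x 0 → 1 ≤ u 0 x := by
    intro x hx
    exact Pool.Agent.H342R3.Visc.lower huc hcoord hsup x hx (by simpa using huT x)
  have hneg : ∀ x : EuclideanSpace ℝ (Fin 1), x 0 < 0 → 1 ≤ -(u 0 x) := by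
    intro x hx
    exact Pool.Agent.H342R3.Visc.lower (u := fun t x => -(u t x)) huc.neg hcoord.neg hsub x
      (by simpa using hx) (by simpa using huT x)
  -- continuity at `(0,0)` is violated
  have hc0 : Continuous (fun r : ℝ => u 0 (EuclideanSpace.single (0 : Fin 1) r)) := by
    rw [← continuousOn_univ]
    have h1 : ContinuousOn (fun r : ℝ =>
        ((0, EuclideanSpace.single (0 : Fin 1) r) : ℝ × EuclideanSpace ℝ (Fin 1)))
        Set.univ := by
      apply Continuous.continuousOn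
      refine continuous_const.prodMk ?_
      have h2 : (fun r : ℝ => (EuclideanSpace.single (0 : Fin 1) r : EuclideanSpace ℝ (Fin 1)))
          = fun r : ℝ => r • (EuclideanSpace.single (0 : Fin 1) (1:ℝ)) := by
        funext r
        ext i
        simp
      have h3 : Continuous (fun r : ℝ => r • (EuclideanSpace.single (0 : Fin 1) (1:ℝ))) :=
        continuous_id.smul continuous_const
      exact h3.congr (fun r => (congrFun h2 r).symm)
    exact huc.comp h1 (fun r _ => ⟨by simp, Set.mem_univ _⟩)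
  have hlim1 : Filter.Tendsto (fun r : ℝ => u 0 (EuclideanSpace.single (0 : Fin 1) r))
      (nhdsWithin 0 (Set.Ioi 0)) (nhds (u 0 (EuclideanSpace.single (0 : Fin 1) (0:ℝ)))) :=
    (hc0.tendsto 0).mono_left nhdsWithin_le_nhds
  have hlim2 : Filter.Tendsto (fun r : ℝ => u 0 (EuclideanSpace.single (0 : Fin 1) r))
      (nhdsWithin 0 (Set.Iio 0)) (nhds (u 0 (EuclideanSpace.single (0 : Fin 1) (0:ℝ)))) :=
    (hc0.tendsto 0).mono_left nhdsWithin_le_nhds
  have h1 : 1 ≤ u 0 (EuclideanSpace.single (0 : Fin 1) (0:ℝ)) := by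
    refine ge_of_tendsto hlim1 ?_
    filter_upwards [self_mem_nhdsWithin] with r hr
    exact hpos _ (by simpa using hr)
  have h2 : u 0 (EuclideanSpace.single (0 : Fin 1) (0:ℝ)) ≤ -1 := by
    refine le_of_tendsto hlim2 ?_
    filter_upwards [self_mem_nhdsWithin] with r hr
    have := hneg (EuclideanSpace.single (0 : Fin 1) r) (by simpa using hr)
    linarith
  linarith


end Pool.Agent.S04204
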