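import Pool.Statements.S04216
import Pool.Agent.H415R3.HeatH

set_option autoImplicit false
open Pool Pool.MP_2e654e_an

namespace Pool.Agent.S04216

open Pool.Agent.H415R3.Heat in
/-- The negation of the preceding statement: For every even real entire f of order 1 and maximal type whose zeros lie in a strip ∣Im z∣<Δ, and every λ>0, the function sum over k of (-λ)^k/k! f^(2k) has only finitely many zeros that are non-real or multiple. -/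
theorem result :
    ¬ (∀ f : ℂ → ℂ, Differentiable ℂ f →
      (∀ x : ℝ, (f (x : ℂ)).im = 0) →
      (∀ z : ℂ, f (-z) = f z) →
      (∀ ε : ℝ, 0 < ε → ∃ R : ℝ, ∀ z : ℂ, R ≤ ‖z‖ → ‖f z‖ ≤ Real.exp (‖z‖ ^ (1 + ε))) →
      (∀ C R : ℝ, ∃ z : ℂ, R ≤ ‖z‖ ∧ Real.exp (C * ‖z‖) < ‖f z‖) →
      ∀ Δ : ℝ, 0 < Δ → (∀ z : ℂ, f z = 0 → |z.im| < Δ) →
      ∀ lam : ℝ, 0 < lam →
      ∀ g : ℂ → ℂ,
        (∀ z : ℂ, g z = ∑' k : ℕ,
          (-(lam : ℂ)) ^ k / ((Nat.factorial k : ℕ) : ℂ) * iteratedDeriv (2 * k) f z) →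
        {z : ℂ | g z = 0 ∧ (z.im ≠ 0 ∨ deriv g z = 0)}.Finite) := by
  intro H
  have hfin := H f f_diff f_real f_even f_order f_maxtype 3 (by norm_num) f_zero (3 / 2)
    (by norm_num) (fun z => ∑' k : ℕ,
      (-(((3 / 2 : ℝ)) : ℂ)) ^ k / ((Nat.factorial k : ℕ) : ℂ) * iteratedDeriv (2 * k) f z)
    (fun z => rfl)
  set g : ℂ → ℂ := (fun z => ∑' k : ℕ,
      (-(((3 / 2 : ℝ)) : ℂ)) ^ k / ((Nat.factorial k : ℕ) : ℂ) * iteratedDeriv (2 * k) f z) with hg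
  obtain ⟨M, hM⟩ := hfin.isBounded.exists_norm_le
  obtain ⟨k, hk1, hk2⟩ := exists_large (M + 2)
  obtain ⟨ζ, hζ, hz⟩ := zero_near g (fun z => rfl) k hk2
  have him : 1 / 2 ≤ ζ.im := by
    have h1 : |(ζ - Complex.I).im| ≤ 1 / 2 := (Complex.abs_im_le_norm _).trans hζ
    rw [Complex.sub_im, Complex.I_im] at h1
    have := (abs_le.mp h1).1
    linarith
  have hmem : ((Y k : ℂ) + ζ) ∈ {z : ℂ | g z = 0 ∧ (z.im ≠ 0 ∨ deriv g z = 0)} := by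
    refine ⟨hz, Or.inl ?_⟩
    rw [Complex.add_im, Complex.ofReal_im]
    intro h
    linarith
  have hb := hM _ hmem
  have hn : Y k ≤ ‖(Y k : ℂ) + ζ‖ + ‖ζ‖ := by
    have h1 : ‖((Y k : ℝ) : ℂ)‖ ≤ ‖(Y k : ℂ) + ζ‖ + ‖ζ‖ := by
      calc ‖((Y k : ℝ) : ℂ)‖ = ‖((Y k : ℂ) + ζ) - ζ‖ := by congr 1; ring
        _ ≤ _ := norm_sub_le _ _
    rwa [Complex.norm_real, Real.norm_of_nonneg (Y_pos k).le] at h1
  have hζn : ‖ζ‖ ≤ 3 / 2 := by
    calc ‖ζ‖ = ‖(ζ - Complex.I) + Complex.I‖ := by congr 1; ring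
      _ ≤ ‖ζ - Complex.I‖ + ‖Complex.I‖ := norm_add_le _ _
      _ ≤ 3 / 2 := by rw [Complex.norm_I]; linarith
  linarith

end Pool.Agent.S04216
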