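import Pool.Statements.S04219
-- import your own Pool.Agent.* helpers here

set_option autoImplicit false
open Pool Pool.MP_2eb5f4_an

namespace Pool.Agent.S04219

/-! ## The numerical data -/

/-- `m k = (k+1)!`. -/
def m (k : ℕ) : ℕ := (k + 1).factorial

/-- `N 0 = 1`, `N i = i * m i` for `i ≥ 1`. -/
def N (i : ℕ) : ℕ := if i = 0 then 1 else i * m i

/-- auxiliary large numbers -/
noncomputable def w (i : ℕ) : ℝ := 2 ^ (i * N i + i)

/-- partial sums of the coefficients `c` -/
noncomputable def K : ℕ → ℝ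
  | 0 => 0
  | (k + 1) => K k + (1 / 2) ^ k * ((K k + 1) * 2 ^ k * w k ^ m k) ^ m k

/-- reciprocals of the weight roots -/
noncomputable def u (k : ℕ) : ℝ := (K k + 1) * 2 ^ k * w k ^ m k

/-- the coefficients of `f` -/
noncomputable def c (k : ℕ) : ℝ := (1 / 2) ^ k * u k ^ m k

lemma m_zero : m 0 = 1 := rfl

lemma m_succ (k : ℕ) : m (k + 1) = (k + 2) * m k := by
  unfold m
  rw [Nat.factorial_succ]

lemma m_pos (k : ℕ) : 0 < m k := Nat.factorial_pos _

lemma m_strictMono : StrictMono m := by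
  apply strictMono_nat_of_lt_succ
  intro k
  rw [m_succ]
  have := m_pos k
  nlinarith

lemma le_m (k : ℕ) : k < m k := by
  unfold m
  exact lt_of_lt_of_le (Nat.lt_succ_self k) (Nat.self_le_factorial (k + 1))

lemma N_zero : N 0 = 1 := rfl

lemma N_of_pos {i : ℕ} (hi : 1 ≤ i) : N i = i * m i := by
  unfold N
  rw [if_neg (by omega)]

lemma N_lt_m_succ (i : ℕ) : N i < m (i + 1) := by
  rcases Nat.eq_zero_or_pos i with rfl | hi
  · decide
  · rw [N_of_pos hi, m_succ]
    have := m_pos i
    nlinarith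

lemma m_le_N (i : ℕ) : m i ≤ N i := by
  rcases Nat.eq_zero_or_pos i with rfl | hi
  · decide
  · rw [N_of_pos hi]
    exact Nat.le_mul_of_pos_left _ hi

lemma N_strictMono : StrictMono N := by
  apply strictMono_nat_of_lt_succ
  intro k
  exact lt_of_lt_of_le (N_lt_m_succ k) (m_le_N _)

lemma w_ge_one (i : ℕ) : 1 ≤ w i := by
  unfold w
  exact one_le_pow₀ (by norm_num)

lemma w_mono : Monotone w := by
  intro a b hab
  unfold w
  apply pow_le_pow_right₀ (by norm_num)
  have := N_strictMono.monotone hab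
  have := Nat.mul_le_mul hab this
  omega

lemma K_succ (k : ℕ) : K (k + 1) = K k + c k := rfl

lemma K_nonneg (k : ℕ) : 0 ≤ K k := by
  induction k with
  | zero => exact le_refl _
  | succ k ih =>
    rw [K_succ]
    have hu : 0 ≤ u k := by
      unfold u
      have := w_ge_one k
      positivity
    unfold c
    positivity

lemma u_pos (k : ℕ) : 0 < u k := by
  unfold u
  have := w_ge_one k
  have := K_nonneg k
  positivity

lemma c_pos (k : ℕ) : 0 < c k := by
  unfold c
  have := u_pos k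
  positivity

lemma K_mono : Monotone K := by
  apply monotone_nat_of_le_succ
  intro k
  rw [K_succ]
  have := c_pos k
  linarith

lemma K_eq_sum (k : ℕ) : K k = ∑ j ∈ Finset.range k, c j := by
  induction k with
  | zero => simp [K]
  | succ k ih => rw [K_succ, Finset.sum_range_succ, ih]

lemma u_mono : Monotone u := by
  intro a b hab
  unfold u
  have h1 := K_nonneg a
  have h2 := K_mono hab
  have h3 := w_ge_one a
  have h4 := w_mono hab
  have h5 : (2:ℝ) ^ a ≤ 2 ^ b := pow_le_pow_right₀ (by norm_num) hab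
  have h6 : w a ^ m a ≤ w b ^ m b := by
    calc w a ^ m a ≤ w b ^ m a := pow_le_pow_left₀ (by linarith) h4 _
      _ ≤ w b ^ m b := pow_le_pow_right₀ (w_ge_one b) (m_strictMono.monotone hab)
  have h7 : 0 ≤ w a ^ m a := by positivity
  have h8 : 0 ≤ K b := K_nonneg b
  gcongr

lemma two_pow_le_u (k : ℕ) : (2:ℝ) ^ k ≤ u k := by
  unfold u
  have h1 := K_nonneg k
  have h3 : 1 ≤ w k ^ m k := one_le_pow₀ (w_ge_one k)
  have h5 : (0:ℝ) < 2 ^ k := by positivity
  have h6 : (2:ℝ) ^ k ≤ (K k + 1) * 2 ^ k := by nlinarith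
  nlinarith

lemma one_le_u (k : ℕ) : 1 ≤ u k := le_trans (one_le_pow₀ (by norm_num)) (two_pow_le_u k)

lemma u_zero : u 0 = 1 := by
  simp [u, K, w]

lemma c_zero : c 0 = 1 := by
  simp [c, u_zero]

/-! ## The weight -/

/-- the index `k` with `m k ≤ n < m (k+1)` -/
def idx (n : ℕ) : ℕ := Nat.findGreatest (fun k => m k ≤ n) n

lemma idx_mono : Monotone idx := by
  intro a b hab
  unfold idx
  apply Nat.findGreatest_mono _ hab
  intro k hk
  exact le_trans hk hab

lemma idx_eq {k n : ℕ} (h1 : m k ≤ n) (h2 : n < m (k + 1)) : idx n = k := by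
  unfold idx
  apply le_antisymm
  · by_contra hcon
    push Not at hcon
    have h3 : m (Nat.findGreatest (fun k => m k ≤ n) n) ≤ n := by
      have := @Nat.findGreatest_spec k (fun k => m k ≤ n) _ n (le_trans (le_m k).le h1) h1
      exact this
    have h4 := m_strictMono.monotone (Nat.succ_le_of_lt hcon)
    have : m (k + 1) ≤ n := le_trans h4 h3
    omega
  · exact Nat.le_findGreatest (le_trans (le_m k).le h1) h1

lemma le_idx {k n : ℕ} (h1 : m k ≤ n) : k ≤ idx n :=
  Nat.le_findGreatest (le_trans (le_m k).le h1) h1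

/-- the weight -/
noncomputable def om (n : ℕ) : ℝ := (1 / u (idx n)) ^ n

lemma om_pos (n : ℕ) : 0 < om n := by
  unfold om
  have := u_pos (idx n)
  positivity

lemma om_zero : om 0 = 1 := by simp [om]

lemma om_submul (a b : ℕ) : om (a + b) ≤ om a * om b := by
  unfold om
  rw [pow_add]
  have h1 : 1 / u (idx (a + b)) ≤ 1 / u (idx a) :=
    one_div_le_one_div_of_le (u_pos _) (u_mono (idx_mono (Nat.le_add_right a b)))
  have h2 : 1 / u (idx (a + b)) ≤ 1 / u (idx b) :=
    one_div_le_one_div_of_le (u_pos _) (u_mono (idx_mono (Nat.le_add_left b a)))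
  have h0 : 0 ≤ 1 / u (idx (a + b)) := by
    have := u_pos (idx (a + b))
    positivity
  have h00 : 0 ≤ 1 / u (idx a) := le_trans h0 h1
  exact mul_le_mul (pow_le_pow_left₀ h0 h1 _) (pow_le_pow_left₀ h0 h2 _) (by positivity)
    (by positivity)

lemma om_tendsto : Filter.Tendsto (fun n : ℕ => (om n) ^ (1 / (n : ℝ))) Filter.atTop (nhds 0) := by
  have h1 : Filter.Tendsto idx Filter.atTop Filter.atTop := by
    apply Filter.tendsto_atTop_atTop.2
    intro b
    exact ⟨m b, fun a ha => le_idx ha⟩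
  have h2 : Filter.Tendsto u Filter.atTop Filter.atTop := by
    apply Filter.tendsto_atTop_mono two_pow_le_u
    exact tendsto_pow_atTop_atTop_of_one_lt (by norm_num)
  have h3 : Filter.Tendsto (fun n => (u (idx n))⁻¹) Filter.atTop (nhds 0) :=
    (h2.comp h1).inv_tendsto_atTop
  apply h3.congr'
  filter_upwards [Filter.eventually_ge_atTop 1] with n hn
  unfold om
  rw [one_div, one_div]
  rw [Real.pow_rpow_inv_natCast (by have := u_pos (idx n); positivity) (by omega)]

lemma om_m (k : ℕ) : om (m k) = (1 / u k) ^ m k := by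
  unfold om
  rw [idx_eq (le_refl _) (m_strictMono (Nat.lt_succ_self k))]

lemma om_N (k : ℕ) : om (N k) = (1 / u k) ^ N k := by
  unfold om
  rw [idx_eq (m_le_N k) (N_lt_m_succ k)]

/-! ## Power series -/

/-- the real power series -/
noncomputable def fR : PowerSeries ℝ := PowerSeries.mk (Function.extend m c 0)

lemma coeff_fR_m (k : ℕ) : PowerSeries.coeff (m k) fR = c k := by
  unfold fR
  rw [PowerSeries.coeff_mk, m_strictMono.injective.extend_apply]

lemma coeff_fR_of_notMem {n : ℕ} (h : n ∉ Set.range m) : PowerSeries.coeff n fR = 0 := by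
  unfold fR
  rw [PowerSeries.coeff_mk, Function.extend_apply']
  · rfl
  · intro ⟨a, ha⟩
    exact h ⟨a, ha⟩

lemma coeff_fR_zero : PowerSeries.coeff 0 fR = 0 := by
  apply coeff_fR_of_notMem
  rintro ⟨a, ha⟩
  have := m_pos a
  omega

/-- `F k n` is the `n`-th coefficient of `f^k` -/
noncomputable def F (k n : ℕ) : ℝ := PowerSeries.coeff n (fR ^ k)

lemma coeff_pow_congr {a b : PowerSeries ℝ} {M : ℕ}
    (h : ∀ n < M, PowerSeries.coeff n a = PowerSeries.coeff n b) (k : ℕ) :
    ∀ n < M, PowerSeries.coeff n (a ^ k) = PowerSeries.coeff n (b ^ k) := by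
  induction k with
  | zero => intro n _; simp
  | succ k ih =>
    intro n hn
    rw [pow_succ, pow_succ, PowerSeries.coeff_mul, PowerSeries.coeff_mul]
    apply Finset.sum_congr rfl
    intro p hp
    rw [Finset.HasAntidiagonal.mem_antidiagonal] at hp
    rw [ih p.1 (by omega), h p.2 (by omega)]

/-- truncation -/
noncomputable def R (i : ℕ) : Polynomial ℝ :=
  ∑ j ∈ Finset.range (i + 1), Polynomial.monomial (m j) (c j)

lemma coeff_R (i n : ℕ) (hn : n < m (i + 1)) : (R i).coeff n = PowerSeries.coeff n fR := by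
  unfold R
  rw [Polynomial.finsetSum_coeff]
  by_cases h : n ∈ Set.range m
  · obtain ⟨k, rfl⟩ := h
    rw [coeff_fR_m]
    have hk : k < i + 1 := m_strictMono.lt_iff_lt.1 hn
    rw [Finset.sum_eq_single k]
    · rw [Polynomial.coeff_monomial, if_pos rfl]
    · intro b _ hb
      rw [Polynomial.coeff_monomial, if_neg]
      intro hh
      exact hb (m_strictMono.injective hh)
    · intro hh
      exact absurd (Finset.mem_range.2 hk) hh
  · rw [coeff_fR_of_notMem h]
    apply Finset.sum_eq_zero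
    intro j _
    rw [Polynomial.coeff_monomial, if_neg]
    intro hh
    exact h ⟨j, hh⟩

lemma natDegree_R (i : ℕ) : (R i).natDegree ≤ m i := by
  unfold R
  apply Polynomial.natDegree_sum_le_of_forall_le
  intro j hj
  refine le_trans (Polynomial.natDegree_monomial_le _) ?_
  rw [Finset.mem_range] at hj
  exact m_strictMono.monotone (by omega)

lemma F_eq (k i n : ℕ) (hn : n < m (i + 1)) : F k n = ((R i) ^ k).coeff n := by
  unfold F
  have := coeff_pow_congr (a := fR) (b := (R i : PowerSeries ℝ)) (M := m (i + 1))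
    (fun n hn => by rw [Polynomial.coeff_coe, coeff_R i n hn]) k n hn
  rw [this, ← Polynomial.coe_pow, Polynomial.coeff_coe]

lemma F_diag {k : ℕ} (hk : 1 ≤ k) : F k (N k) = c k ^ k := by
  rw [F_eq k k _ (N_lt_m_succ k), N_of_pos hk,
    Polynomial.coeff_pow_of_natDegree_le (natDegree_R k),
    coeff_R k _ (m_strictMono (Nat.lt_succ_self k)), coeff_fR_m]

lemma F_upper {k i : ℕ} (hki : k < i) : F k (N i) = 0 := by
  rw [F_eq k i _ (N_lt_m_succ i), N_of_pos (by omega)]
  apply Polynomial.coeff_eq_zero_of_natDegree_lt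
  refine lt_of_le_of_lt (Polynomial.natDegree_pow_le) ?_
  calc k * (R i).natDegree ≤ k * m i := Nat.mul_le_mul_left _ (natDegree_R i)
    _ < i * m i := Nat.mul_lt_mul_of_pos_right hki (m_pos i)

lemma F_lower {k n : ℕ} (hkn : n < k) : F k n = 0 := by
  unfold F
  have h1 : (PowerSeries.X : PowerSeries ℝ) ∣ fR := by
    rw [PowerSeries.X_dvd_iff]
    rw [← PowerSeries.coeff_zero_eq_constantCoeff_apply]
    exact coeff_fR_zero
  have h2 : (PowerSeries.X : PowerSeries ℝ) ^ k ∣ fR ^ k := pow_dvd_pow_of_dvd h1 k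
  exact PowerSeries.X_pow_dvd_iff.1 h2 n hkn

lemma coeff_pow_nonneg {P : Polynomial ℝ} (hP : ∀ n, 0 ≤ P.coeff n) (k : ℕ) :
    ∀ n, 0 ≤ (P ^ k).coeff n := by
  induction k with
  | zero =>
    intro n
    rw [pow_zero, Polynomial.coeff_one]
    split_ifs <;> norm_num
  | succ k ih =>
    intro n
    rw [pow_succ, Polynomial.coeff_mul]
    apply Finset.sum_nonneg
    intro p _
    exact mul_nonneg (ih _) (hP _)

lemma coeff_mul_pow_le_eval {P : Polynomial ℝ} (hP : ∀ n, 0 ≤ P.coeff n) {x : ℝ} (hx : 0 ≤ x)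
    (n : ℕ) : P.coeff n * x ^ n ≤ P.eval x := by
  rw [Polynomial.eval_eq_sum_range]
  by_cases hn : n ≤ P.natDegree
  · apply Finset.single_le_sum (f := fun i => P.coeff i * x ^ i)
    · intro i _
      exact mul_nonneg (hP i) (by positivity)
    · exact Finset.mem_range.2 (by omega)
  · rw [Polynomial.coeff_eq_zero_of_natDegree_lt (by omega), zero_mul]
    apply Finset.sum_nonneg
    intro i _
    exact mul_nonneg (hP i) (by positivity)

lemma coeff_R_nonneg (i n : ℕ) : 0 ≤ (R i).coeff n := by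
  unfold R
  rw [Polynomial.finsetSum_coeff]
  apply Finset.sum_nonneg
  intro j _
  rw [Polynomial.coeff_monomial]
  split_ifs
  · exact (c_pos j).le
  · exact le_refl _

lemma F_nonneg (k i : ℕ) : 0 ≤ F k (N i) := by
  rw [F_eq k i _ (N_lt_m_succ i)]
  exact coeff_pow_nonneg (coeff_R_nonneg i) k _

lemma eval_R_le {i : ℕ} (hi : 1 ≤ i) :
    (R i).eval (1 / (w i * u i)) ≤ 1 / (w i ^ m i) := by
  have hw := w_ge_one i
  have hu := one_le_u i
  have hK := K_nonneg i
  set x : ℝ := 1 / (w i * u i) with hx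
  have hx0 : 0 < x := by positivity
  have hx1 : x ≤ 1 := by
    rw [hx, div_le_one (by positivity)]
    nlinarith
  unfold R
  rw [Polynomial.eval_finsetSum, Finset.sum_range_succ]
  have h1 : ∑ j ∈ Finset.range i, Polynomial.eval x (Polynomial.monomial (m j) (c j)) ≤ K i * x := by
    rw [K_eq_sum, Finset.sum_mul]
    apply Finset.sum_le_sum
    intro j _
    rw [Polynomial.eval_monomial]
    apply mul_le_mul_of_nonneg_left _ (c_pos j).le
    calc x ^ m j ≤ x ^ 1 := pow_le_pow_of_le_one hx0.le hx1 (m_pos j)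
      _ = x := pow_one x
  have hWpos : 0 < w i ^ m i := by positivity
  have h2 : K i * x ≤ (1 / 2) ^ i * (1 / w i ^ m i) := by
    rw [hx]
    rw [mul_one_div, div_le_iff₀ (by positivity)]
    have e1 : (1 / 2 : ℝ) ^ i * (1 / w i ^ m i) * (w i * u i) = w i * (K i + 1) := by
      unfold u
      field_simp
      rw [← mul_pow]
      norm_num
    rw [e1]
    nlinarith
  have h3 : Polynomial.eval x (Polynomial.monomial (m i) (c i)) = (1 / 2) ^ i * (1 / w i ^ m i) := by
    rw [Polynomial.eval_monomial]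
    unfold c
    rw [mul_assoc, ← mul_pow]
    congr 1
    rw [hx]
    have : u i * (1 / (w i * u i)) = 1 / w i := by
      field_simp
    rw [this, one_div_pow]
  rw [h3]
  have h4 : (1 / 2 : ℝ) ^ i ≤ 1 / 2 := by
    calc (1 / 2 : ℝ) ^ i ≤ (1 / 2) ^ 1 := pow_le_pow_of_le_one (by norm_num) (by norm_num) hi
      _ = 1 / 2 := pow_one _
  have h5 : 0 < 1 / w i ^ m i := by positivity
  nlinarith

lemma F_bound {k i : ℕ} (hi : 1 ≤ i) (hik : i < k) :
    F k (N i) ≤ u i ^ N i * (1 / 2) ^ (k ^ 2 + i) := by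
  by_cases hkN : N i < k
  · rw [F_lower hkN]
    have := u_pos i
    positivity
  push Not at hkN
  have hw := w_ge_one i
  have hu := one_le_u i
  have hW1 : 1 ≤ w i ^ m i := one_le_pow₀ hw
  set x : ℝ := 1 / (w i * u i) with hx
  have hx0 : 0 < x := by positivity
  have h1 : F k (N i) * x ^ N i ≤ (1 / (w i ^ m i)) ^ k := by
    rw [F_eq k i _ (N_lt_m_succ i)]
    refine le_trans (coeff_mul_pow_le_eval (coeff_pow_nonneg (coeff_R_nonneg i) k) hx0.le _) ?_
    rw [Polynomial.eval_pow]
    apply pow_le_pow_left₀ _ (eval_R_le hi)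
    refine le_trans ?_ (coeff_mul_pow_le_eval (coeff_R_nonneg i) hx0.le 0)
    exact mul_nonneg (coeff_R_nonneg i 0) (by positivity)
  have h2 : F k (N i) ≤ (1 / (w i ^ m i)) ^ k * (w i * u i) ^ N i := by
    have e : x ^ N i = 1 / (w i * u i) ^ N i := by rw [hx, one_div_pow]
    rw [e, mul_one_div, div_le_iff₀ (by positivity)] at h1
    exact h1
  refine le_trans h2 ?_
  rw [mul_pow]
  have h3 : w i ^ N i = (w i ^ m i) ^ i := by
    rw [N_of_pos hi, ← pow_mul, mul_comm]
  rw [h3]
  have h4 : (1 / (w i ^ m i)) ^ k * ((w i ^ m i) ^ i) ≤ 1 / w i ^ m i := by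
    obtain ⟨t, rfl⟩ := Nat.exists_eq_add_of_lt hik
    rw [one_div_pow, one_div_mul_eq_div, div_le_div_iff₀ (by positivity) (by positivity), one_mul]
    have : (w i ^ m i) ^ (i + t + 1) = (w i ^ m i) ^ i * w i ^ m i * (w i ^ m i) ^ t := by ring
    rw [this]
    have h5 : 1 ≤ (w i ^ m i) ^ t := one_le_pow₀ hW1
    have h6 : 0 < (w i ^ m i) ^ i * w i ^ m i := by positivity
    nlinarith
  have h5 : 1 / w i ^ m i ≤ (1 / 2) ^ (k ^ 2 + i) := by
    rw [one_div_pow]
    apply one_div_le_one_div_of_le (by positivity)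
    unfold w
    rw [← pow_mul]
    apply pow_le_pow_right₀ (by norm_num)
    have e : (i * N i + i) * m i = N i ^ 2 + N i := by
      rw [N_of_pos hi]; ring
    rw [e]
    have e2 : k ^ 2 ≤ N i ^ 2 := Nat.pow_le_pow_left hkN 2
    have e3 : i ≤ N i := N_strictMono.le_apply
    omega
  have h6 : 0 < u i ^ N i := by positivity
  calc (1 / (w i ^ m i)) ^ k * ((w i ^ m i) ^ i * u i ^ N i)
      = ((1 / (w i ^ m i)) ^ k * ((w i ^ m i) ^ i)) * u i ^ N i := by ring
    _ ≤ (1 / w i ^ m i) * u i ^ N i := by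
        apply mul_le_mul_of_nonneg_right h4 h6.le
    _ ≤ (1 / 2) ^ (k ^ 2 + i) * u i ^ N i := by
        apply mul_le_mul_of_nonneg_right h5 h6.le
    _ = _ := by ring

/-! ## The functional -/

/-- the coefficients of the functional -/
noncomputable def s : ℕ → ℝ
  | 0 => 1
  | (k + 1) => -((c (k + 1)) ^ (k + 1))⁻¹ * ∑ i : Fin (k + 1), s i * F (k + 1) (N i)

lemma s_zero : s 0 = 1 := by
  unfold s; rfl

lemma s_succ (k : ℕ) : s (k + 1) =
    -((c (k + 1)) ^ (k + 1))⁻¹ * ∑ i ∈ Finset.range (k + 1), s i * F (k + 1) (N i) := by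
  rw [s, Finset.sum_range]

lemma s_rel {k : ℕ} (hk : 1 ≤ k) : ∑ i ∈ Finset.range (k + 1), s i * F k (N i) = 0 := by
  obtain ⟨k, rfl⟩ := Nat.exists_eq_add_of_le' hk
  rw [Finset.sum_range_succ, F_diag hk, s_succ]
  have : (c (k + 1)) ^ (k + 1) ≠ 0 := pow_ne_zero _ (c_pos _).ne'
  field_simp
  ring

lemma hasSum_s {k : ℕ} (hk : 1 ≤ k) : HasSum (fun i => s i * F k (N i)) 0 := by
  rw [← s_rel hk]
  apply hasSum_sum_of_ne_finset_zero
  intro i hi
  rw [Finset.mem_range] at hi
  rw [F_upper (by omega), mul_zero]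

lemma geom_half (k : ℕ) : ∑ i ∈ Finset.range k, (1 / 2 : ℝ) ^ (i + 1) = 1 - (1 / 2) ^ k := by
  induction k with
  | zero => simp
  | succ k ih => rw [Finset.sum_range_succ, ih]; ring

lemma s_bound (k : ℕ) : |s k| ≤ 2 * om (N k) := by
  induction k using Nat.strong_induction_on with
  | _ k ih =>
  rcases Nat.eq_zero_or_pos k with rfl | hk
  · rw [s_zero, om_N, u_zero]
    norm_num
  obtain ⟨k, rfl⟩ := Nat.exists_eq_add_of_le' hk
  have hck : 0 < c (k + 1) ^ (k + 1) := pow_pos (c_pos _) _
  have hmain : |∑ i ∈ Finset.range (k + 1), s i * F (k + 1) (N i)| ≤ 2 * (1 / 2) ^ ((k + 1) ^ 2) := by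
    rw [Finset.sum_range_succ']
    rcases Nat.eq_zero_or_pos k with rfl | hk0
    · simp only [Finset.range_zero, Finset.sum_empty, zero_add]
      rw [s_zero, N_zero]
      have : F 1 1 = 1 := by
        unfold F
        rw [pow_one]
        have := coeff_fR_m 0
        rw [m_zero, c_zero] at this
        exact this
      rw [this]
      norm_num
    · have h0 : F (k + 1) (N 0) = 0 := by
        rw [N_zero]
        exact F_lower (by omega)
      rw [h0, mul_zero, add_zero]
      refine le_trans (Finset.abs_sum_le_sum_abs _ _) ?_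
      have hterm : ∀ i ∈ Finset.range k, |s (i + 1) * F (k + 1) (N (i + 1))| ≤
          2 * (1 / 2) ^ ((k + 1) ^ 2) * (1 / 2) ^ (i + 1) := by
        intro i hi
        rw [Finset.mem_range] at hi
        rw [abs_mul, abs_of_nonneg (F_nonneg _ _)]
        have h1 := ih (i + 1) (by omega)
        have h2 := F_bound (k := k + 1) (i := i + 1) (by omega) (by omega)
        rw [om_N] at h1
        have hu := u_pos (i + 1)
        calc |s (i + 1)| * F (k + 1) (N (i + 1))
            ≤ (2 * (1 / u (i + 1)) ^ N (i + 1)) *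
              (u (i + 1) ^ N (i + 1) * (1 / 2) ^ ((k + 1) ^ 2 + (i + 1))) := by
              apply mul_le_mul h1 h2 (F_nonneg _ _) (by positivity)
          _ = ((1 / u (i + 1)) ^ N (i + 1) * u (i + 1) ^ N (i + 1)) *
              (2 * (1 / 2) ^ ((k + 1) ^ 2 + (i + 1))) := by ring
          _ = 2 * (1 / 2) ^ ((k + 1) ^ 2) * (1 / 2) ^ (i + 1) := by
              rw [← mul_pow, one_div_mul_cancel hu.ne', one_pow, one_mul, pow_add]
              ring
      refine le_trans (Finset.sum_le_sum hterm) ?_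
      rw [← Finset.mul_sum, geom_half]
      have h3 : (0:ℝ) < (1 / 2) ^ k := by positivity
      have h4 : (0:ℝ) < 2 * (1 / 2) ^ ((k + 1) ^ 2) := by positivity
      nlinarith
  rw [s_succ, abs_mul, abs_neg, abs_inv, abs_of_pos hck, om_N]
  have hc : c (k + 1) ^ (k + 1) = (1 / 2) ^ ((k + 1) ^ 2) * u (k + 1) ^ N (k + 1) := by
    unfold c
    rw [mul_pow, ← pow_mul, ← pow_mul, N_of_pos hk, sq, mul_comm (m (k + 1)) (k + 1)]
  rw [hc]
  have hu := u_pos (k + 1)
  have h5 : (0:ℝ) < (1 / 2) ^ ((k + 1) ^ 2) := by positivity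
  have h6 : (0:ℝ) < u (k + 1) ^ N (k + 1) := by positivity
  rw [one_div_pow (u (k+1))]
  calc ((1 / 2) ^ ((k + 1) ^ 2) * u (k + 1) ^ N (k + 1))⁻¹ *
        |∑ i ∈ Finset.range (k + 1), s i * F (k + 1) (N i)|
      ≤ ((1 / 2) ^ ((k + 1) ^ 2) * u (k + 1) ^ N (k + 1))⁻¹ * (2 * (1 / 2) ^ ((k + 1) ^ 2)) := by
        apply mul_le_mul_of_nonneg_left hmain (by positivity)
    _ = 2 * (1 / u (k + 1) ^ N (k + 1)) := by
        generalize (1 / 2 : ℝ) ^ ((k + 1) ^ 2) = A at *
        field_simp

/-! ## The weighted algebra -/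

/-- membership in `ℓ¹(ω)` -/
def Mem (a : PowerSeries ℂ) : Prop := Summable (fun n : ℕ => ‖PowerSeries.coeff n a‖ * om n)

lemma mem_mul {a b : PowerSeries ℂ} (ha : Mem a) (hb : Mem b) : Mem (a * b) := by
  unfold Mem at *
  have ha' : Summable (fun n : ℕ => ‖‖PowerSeries.coeff n a‖ * om n‖) := by
    refine ha.congr ?_
    intro n
    rw [Real.norm_of_nonneg (mul_nonneg (norm_nonneg _) (om_pos n).le)]
  have hb' : Summable (fun n : ℕ => ‖‖PowerSeries.coeff n b‖ * om n‖) := by
    refine hb.congr ?_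
    intro n
    rw [Real.norm_of_nonneg (mul_nonneg (norm_nonneg _) (om_pos n).le)]
  have h := summable_norm_sum_mul_antidiagonal_of_summable_norm ha' hb'
  refine Summable.of_nonneg_of_le (fun n => mul_nonneg (norm_nonneg _) (om_pos n).le) ?_ h
  intro n
  refine le_trans ?_ (le_abs_self _)
  rw [PowerSeries.coeff_mul]
  refine le_trans (mul_le_mul_of_nonneg_right (norm_sum_le _ _) (om_pos n).le) ?_
  rw [Finset.sum_mul]
  apply Finset.sum_le_sum
  intro p hp
  rw [Finset.HasAntidiagonal.mem_antidiagonal] at hp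
  rw [norm_mul, ← hp]
  have h1 := om_submul p.1 p.2
  have h2 : 0 ≤ ‖PowerSeries.coeff p.1 a‖ * ‖PowerSeries.coeff p.2 b‖ := by positivity
  calc ‖PowerSeries.coeff p.1 a‖ * ‖PowerSeries.coeff p.2 b‖ * om (p.1 + p.2)
      ≤ ‖PowerSeries.coeff p.1 a‖ * ‖PowerSeries.coeff p.2 b‖ * (om p.1 * om p.2) :=
        mul_le_mul_of_nonneg_left h1 h2
    _ = _ := by ring

lemma mem_one : Mem 1 := by
  unfold Mem
  apply summable_of_ne_finset_zero (s := {0})
  intro n hn
  rw [Finset.mem_singleton] at hn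
  rw [PowerSeries.coeff_one, if_neg hn, norm_zero, zero_mul]

lemma mem_X : Mem PowerSeries.X := by
  unfold Mem
  apply summable_of_ne_finset_zero (s := {1})
  intro n hn
  rw [Finset.mem_singleton] at hn
  rw [PowerSeries.coeff_X, if_neg hn, norm_zero, zero_mul]

lemma mem_pow {a : PowerSeries ℂ} (ha : Mem a) (k : ℕ) : Mem (a ^ k) := by
  induction k with
  | zero => rw [pow_zero]; exact mem_one
  | succ k ih => rw [pow_succ]; exact mem_mul ih ha

lemma mem_add {a b : PowerSeries ℂ} (ha : Mem a) (hb : Mem b) : Mem (a + b) := by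
  unfold Mem at *
  refine Summable.of_nonneg_of_le (fun n => mul_nonneg (norm_nonneg _) (om_pos n).le) ?_
    (ha.add hb)
  intro n
  rw [map_add, ← add_mul]
  exact mul_le_mul_of_nonneg_right (norm_add_le _ _) (om_pos n).le

lemma mem_smul {a : PowerSeries ℂ} (z : ℂ) (ha : Mem a) : Mem (z • a) := by
  unfold Mem at *
  refine (ha.mul_left ‖z‖).congr ?_
  intro n
  rw [PowerSeries.coeff_smul, norm_smul]
  ring

lemma mem_zero : Mem 0 := by
  unfold Mem
  simpa using summable_zero

lemma mem_sum {ι : Type} (S : Finset ι) (a : ι → PowerSeries ℂ) (h : ∀ i ∈ S, Mem (a i)) :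
    Mem (∑ i ∈ S, a i) := by
  classical
  induction S using Finset.induction_on with
  | empty => simpa using mem_zero
  | insert i S hi ih =>
    rw [Finset.sum_insert hi]
    exact mem_add (h i (Finset.mem_insert_self _ _))
      (ih (fun j hj => h j (Finset.mem_insert_of_mem hj)))

/-- the complex power series -/
noncomputable def fC : PowerSeries ℂ := PowerSeries.map (algebraMap ℝ ℂ) fR

lemma coeff_fC_pow (k n : ℕ) : PowerSeries.coeff n (fC ^ k) = ((F k n : ℝ) : ℂ) := by
  unfold fC F
  rw [← map_pow, PowerSeries.coeff_map]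
  rfl

lemma coeff_fC (n : ℕ) : PowerSeries.coeff n fC = ((PowerSeries.coeff n fR : ℝ) : ℂ) := by
  unfold fC
  rw [PowerSeries.coeff_map]
  rfl

lemma mem_fC : Mem fC := by
  unfold Mem
  rw [← m_strictMono.injective.summable_iff]
  · refine summable_geometric_two.congr ?_
    intro k
    simp only [Function.comp]
    rw [coeff_fC, coeff_fR_m, Complex.norm_real, Real.norm_of_nonneg (c_pos k).le, om_m]
    unfold c
    have := u_pos k
    rw [mul_assoc, ← mul_pow, mul_one_div_cancel this.ne', one_pow, mul_one]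
  · intro n hn
    rw [coeff_fC, coeff_fR_of_notMem hn]
    simp

/-- There is a radical submultiplicative weight ω with ω(0)=1 and an f in ℓ¹(ω) with zero constant term and nonzero X-coefficient such that polynomials in f without constant term are not dense in the maximal ideal of ℓ¹(ω). -/
theorem result :
    ∃ ω : ℕ → ℝ, (∀ n, 0 < ω n) ∧ ω 0 = 1 ∧ (∀ m n, ω (m + n) ≤ ω m * ω n) ∧
      Filter.Tendsto (fun n : ℕ => (ω n) ^ (1 / (n : ℝ))) Filter.atTop (nhds 0) ∧
      ∃ f : PowerSeries ℂ,
        Summable (fun n : ℕ => ‖PowerSeries.coeff n f‖ * ω n) ∧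
        PowerSeries.coeff 0 f = 0 ∧ PowerSeries.coeff 1 f ≠ 0 ∧
        ∃ g : PowerSeries ℂ,
          Summable (fun n : ℕ => ‖PowerSeries.coeff n g‖ * ω n) ∧
          PowerSeries.coeff 0 g = 0 ∧
          ∃ ε : ℝ, 0 < ε ∧ ∀ p : Polynomial ℂ, p.coeff 0 = 0 →
            ε ≤ ∑' n : ℕ, ‖PowerSeries.coeff n (g - Polynomial.aeval f p)‖ * ω n := by
  refine ⟨om, om_pos, om_zero, om_submul, om_tendsto, fC, mem_fC, ?_, ?_, PowerSeries.X, mem_X, ?_,
    1 / 2, by norm_num, ?_⟩
  · rw [coeff_fC, coeff_fR_zero]; simp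
  · have h := coeff_fR_m 0
    rw [m_zero, c_zero] at h
    rw [coeff_fC, h]
    simp
  · rw [PowerSeries.coeff_X, if_neg (by norm_num)]
  · intro p hp
    -- membership
    have hmem : Mem (PowerSeries.X - Polynomial.aeval fC p) := by
      rw [sub_eq_add_neg, ← neg_one_smul ℂ (Polynomial.aeval fC p)]
      apply mem_add mem_X
      apply mem_smul
      rw [Polynomial.aeval_eq_sum_range]
      apply mem_sum
      intro i _
      exact mem_smul _ (mem_pow mem_fC i)
    set a : PowerSeries ℂ := PowerSeries.X - Polynomial.aeval fC p with ha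
    -- the functional takes value 1
    have hX : HasSum (fun i => ((s i : ℝ) : ℂ) * PowerSeries.coeff (N i) (PowerSeries.X : PowerSeries ℂ)) 1 := by
      have : HasSum (fun i => ((s i : ℝ) : ℂ) * PowerSeries.coeff (N i) (PowerSeries.X : PowerSeries ℂ))
          (((s 0 : ℝ) : ℂ) * PowerSeries.coeff (N 0) (PowerSeries.X : PowerSeries ℂ)) := by
        apply hasSum_single
        intro i hi
        rw [PowerSeries.coeff_X, if_neg, mul_zero]
        intro hN
        rw [← N_zero] at hN
        exact hi (N_strictMono.injective hN)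
      rw [s_zero, N_zero, PowerSeries.coeff_X, if_pos rfl] at this
      simpa using this
    have hp' : HasSum (fun i => ((s i : ℝ) : ℂ) * PowerSeries.coeff (N i) (Polynomial.aeval fC p)) 0 := by
      have h1 : ∀ k ∈ Finset.range (p.natDegree + 1),
          HasSum (fun i => ((s i : ℝ) : ℂ) * (p.coeff k * ((F k (N i) : ℝ) : ℂ))) 0 := by
        intro k _
        rcases Nat.eq_zero_or_pos k with rfl | hk
        · rw [hp]
          simpa using hasSum_zero
        · have h2 := hasSum_s hk
          have h3 : HasSum (fun i => (((s i * F k (N i) : ℝ)) : ℂ)) ((0 : ℝ) : ℂ) :=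
            Complex.hasSum_ofReal.2 h2
          have h4 := h3.mul_left (p.coeff k)
          simp only [Complex.ofReal_zero, mul_zero, Complex.ofReal_mul] at h4
          refine h4.congr_fun ?_ |> fun h => h
          intro i
          ring
      have h5 := hasSum_sum h1
      rw [Finset.sum_const_zero] at h5
      refine h5.congr_fun ?_ |> fun h => h
      intro i
      rw [← Finset.mul_sum, Polynomial.aeval_eq_sum_range, map_sum]
      congr 1
      apply Finset.sum_congr rfl
      intro k _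
      rw [PowerSeries.coeff_smul, coeff_fC_pow, smul_eq_mul]
    have hsum : HasSum (fun i => ((s i : ℝ) : ℂ) * PowerSeries.coeff (N i) a) 1 := by
      have := hX.sub hp'
      rw [sub_zero] at this
      refine this.congr_fun ?_ |> fun h => h
      intro i
      rw [ha, map_sub, mul_sub]
    -- the bound
    set h : ℕ → ℝ := fun n => ‖PowerSeries.coeff n a‖ * om n with hh
    have hs : Summable h := hmem
    have hnn : ∀ n, 0 ≤ h n := fun n => mul_nonneg (norm_nonneg _) (om_pos n).le
    have hs2 : Summable (fun i => 2 * h (N i)) :=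
      (hs.comp_injective N_strictMono.injective).mul_left 2
    have hb : ∀ i, ‖((s i : ℝ) : ℂ) * PowerSeries.coeff (N i) a‖ ≤ 2 * h (N i) := by
      intro i
      rw [norm_mul, Complex.norm_real, Real.norm_eq_abs, hh]
      calc |s i| * ‖PowerSeries.coeff (N i) a‖ ≤ (2 * om (N i)) * ‖PowerSeries.coeff (N i) a‖ :=
            mul_le_mul_of_nonneg_right (s_bound i) (norm_nonneg _)
        _ = _ := by ring
    have h1 : ‖(1:ℂ)‖ ≤ ∑' i, 2 * h (N i) := by
      rw [← hsum.tsum_eq]
      exact tsum_of_norm_bounded hs2.hasSum hb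
    rw [tsum_mul_left] at h1
    have h2 : ∑' i, h (N i) ≤ ∑' n, h n :=
      tsum_comp_le_tsum_of_inj hs hnn N_strictMono.injective
    rw [norm_one] at h1
    linarith

end Pool.Agent.S04219
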