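import Pool.Statements.S04226

set_option autoImplicit false
open Pool Pool.MP_2eee10_an

namespace Pool.Agent.S04226

/-- One step of the third order equation
`x_n = (2808 x_{n-2} + 2900 x_{n-3}) / (53 + 889 x_{n-1} + 4621 x_{n-2} + 145 x_{n-3})`,
with `a = x_{n-3}`, `b = x_{n-2}`, `c = x_{n-1}`. -/
noncomputable def g (a b c : ℝ) : ℝ := (2808 * b + 2900 * a) / (53 + 889 * c + 4621 * b + 145 * a)

/-- The companion map on triples of consecutive terms. -/
noncomputable def T (t : ℝ × ℝ × ℝ) : ℝ × ℝ × ℝ := (t.2.1, t.2.2, g t.1 t.2.1 t.2.2)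

/-- Positive solutions of the equation. -/
def Sol (x : ℕ → ℝ) : Prop := (∀ n, 0 < x n) ∧ ∀ m : ℕ, x (m + 3) = g (x m) (x (m + 1)) (x (m + 2))

lemma g_pos {a b c : ℝ} (ha : 0 < a) (hb : 0 < b) (hc : 0 < c) : 0 < g a b c := by
  unfold g; positivity

lemma exists_sol (y : ℕ → ℝ) (hy : ∀ i : ℕ, i < 3 → 0 < y i) :
    ∃ x : ℕ → ℝ, Sol x ∧ ∀ i : ℕ, i < 3 → x i = y i := by
  have hpos : ∀ n, 0 < (T^[n] (y 0, y 1, y 2)).1 ∧ 0 < (T^[n] (y 0, y 1, y 2)).2.1 ∧
      0 < (T^[n] (y 0, y 1, y 2)).2.2 := by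
    intro n
    induction n with
    | zero => exact ⟨hy 0 (by norm_num), hy 1 (by norm_num), hy 2 (by norm_num)⟩
    | succ n ih =>
      rw [Function.iterate_succ_apply']
      exact ⟨ih.2.1, ih.2.2, g_pos ih.1 ih.2.1 ih.2.2⟩
  have h1 : ∀ n, (T^[n + 1] (y 0, y 1, y 2)).1 = (T^[n] (y 0, y 1, y 2)).2.1 := by
    intro n; rw [Function.iterate_succ_apply']; rfl
  have h2 : ∀ n, (T^[n + 2] (y 0, y 1, y 2)).1 = (T^[n] (y 0, y 1, y 2)).2.2 := by
    intro n
    rw [Function.iterate_succ_apply', Function.iterate_succ_apply']; rfl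
  have h3 : ∀ n, (T^[n + 3] (y 0, y 1, y 2)).1 =
      g (T^[n] (y 0, y 1, y 2)).1 (T^[n] (y 0, y 1, y 2)).2.1 (T^[n] (y 0, y 1, y 2)).2.2 := by
    intro n
    rw [Function.iterate_succ_apply', Function.iterate_succ_apply', Function.iterate_succ_apply']; rfl
  refine ⟨fun n => (T^[n] (y 0, y 1, y 2)).1, ⟨fun n => (hpos n).1, fun m => ?_⟩, ?_⟩
  · show (T^[m + 3] (y 0, y 1, y 2)).1 = _
    rw [h3]
    show _ = g _ (T^[m + 1] (y 0, y 1, y 2)).1 (T^[m + 2] (y 0, y 1, y 2)).1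
    rw [h1, h2]
  · intro i hi
    interval_cases i
    · rfl
    · exact h1 0
    · exact h2 0

lemma bounded {x : ℕ → ℝ} (hx : Sol x) : ∃ M : ℝ, ∀ n, x n ≤ M := by
  refine ⟨x 0 + x 1 + x 2 + 20, fun n => ?_⟩
  have p0 := hx.1 0
  have p1 := hx.1 1
  have p2 := hx.1 2
  rcases Nat.lt_or_ge n 3 with h | h
  · interval_cases n <;> linarith
  · obtain ⟨m, rfl⟩ : ∃ m, n = m + 3 := ⟨n - 3, by omega⟩
    have a := hx.1 m
    have b := hx.1 (m + 1)
    have c := hx.1 (m + 2)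
    rw [hx.2 m]
    have : g (x m) (x (m + 1)) (x (m + 2)) ≤ 20 := by
      unfold g
      rw [div_le_iff₀ (by positivity)]
      nlinarith
    linarith

lemma contract {a b c e : ℝ} (he : e ≤ 1 / 100) (ha : |a - 1| ≤ e) (hb : |b - 1| ≤ e)
    (hc : |c - 1| ≤ e) : |g a b c - 1| ≤ 97 / 100 * e := by
  rw [abs_le] at ha hb hc
  have he0 : 0 ≤ e := by linarith
  have hden : 5651 < 53 + 889 * c + 4621 * b + 145 * a := by linarith
  have hpos : 0 < 53 + 889 * c + 4621 * b + 145 * a := by linarith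
  have heq : g a b c - 1 = (2755 * (a - 1) - 1813 * (b - 1) - 889 * (c - 1)) /
      (53 + 889 * c + 4621 * b + 145 * a) := by
    unfold g
    rw [div_sub_one hpos.ne']
    congr 1
    ring
  rw [heq, abs_div, abs_of_pos hpos, div_le_iff₀ hpos, abs_le]
  have hm : 97 / 100 * e * 5651 ≤ 97 / 100 * e * (53 + 889 * c + 4621 * b + 145 * a) :=
    mul_le_mul_of_nonneg_left hden.le (by positivity)
  constructor <;> linarith [hm]

lemma decay {x : ℕ → ℝ} (hx : Sol x) {e : ℝ} (he : e ≤ 1 / 100)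
    (h0 : ∀ i : ℕ, i < 3 → |x i - 1| ≤ e) (m : ℕ) :
    |x (3 * m) - 1| ≤ (97 / 100) ^ m * e ∧ |x (3 * m + 1) - 1| ≤ (97 / 100) ^ m * e ∧
      |x (3 * m + 2) - 1| ≤ (97 / 100) ^ m * e := by
  have he0 : 0 ≤ e := le_trans (abs_nonneg _) (h0 0 (by norm_num))
  induction m with
  | zero =>
    simp only [pow_zero, one_mul, mul_zero, zero_add]
    exact ⟨h0 0 (by norm_num), h0 1 (by norm_num), h0 2 (by norm_num)⟩
  | succ m ih =>
    obtain ⟨i0, i1, i2⟩ := ih
    set q := (97 / 100 : ℝ) ^ m * e with hq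
    have hp1 : (97 / 100 : ℝ) ^ m ≤ 1 := pow_le_one₀ (by norm_num) (by norm_num)
    have hp0 : (0:ℝ) ≤ (97 / 100 : ℝ) ^ m := by positivity
    have hq0 : 0 ≤ q := mul_nonneg hp0 he0
    have hqe : q ≤ 1 / 100 := by
      calc q ≤ 1 * e := mul_le_mul_of_nonneg_right hp1 he0
        _ ≤ 1 / 100 := by linarith
    have e1 : (97 / 100 : ℝ) ^ (m + 1) * e = 97 / 100 * q := by rw [hq]; ring
    rw [e1]
    have j0 : |x (3 * (m + 1)) - 1| ≤ 97 / 100 * q := by
      have := hx.2 (3 * m)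
      rw [show 3 * (m + 1) = 3 * m + 3 by ring, this]
      exact contract hqe i0 i1 i2
    have j1 : |x (3 * (m + 1) + 1) - 1| ≤ 97 / 100 * q := by
      have := hx.2 (3 * m + 1)
      rw [show 3 * (m + 1) + 1 = 3 * m + 1 + 3 by ring, this]
      refine contract hqe i1 i2 ?_
      rw [show 3 * m + 1 + 2 = 3 * (m + 1) by ring]
      linarith
    have j2 : |x (3 * (m + 1) + 2) - 1| ≤ 97 / 100 * q := by
      have := hx.2 (3 * m + 2)
      rw [show 3 * (m + 1) + 2 = 3 * m + 2 + 3 by ring, this]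
      refine contract hqe i2 ?_ ?_
      · rw [show 3 * m + 2 + 1 = 3 * (m + 1) by ring]
        linarith
      · rw [show 3 * m + 2 + 2 = 3 * (m + 1) + 1 by ring]
        linarith
    exact ⟨j0, j1, j2⟩

lemma decay' {x : ℕ → ℝ} (hx : Sol x) {e : ℝ} (he : e ≤ 1 / 100)
    (h0 : ∀ i : ℕ, i < 3 → |x i - 1| ≤ e) (n : ℕ) :
    |x n - 1| ≤ (97 / 100) ^ (n / 3) * e := by
  have h := decay hx he h0 (n / 3)
  have hn := Nat.div_add_mod n 3
  have hlt : n % 3 < 3 := Nat.mod_lt _ (by norm_num)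
  rcases (by omega : n % 3 = 0 ∨ n % 3 = 1 ∨ n % 3 = 2) with h' | h' | h'
  · have : 3 * (n / 3) = n := by omega
    rw [this] at h; exact h.1
  · have : 3 * (n / 3) + 1 = n := by omega
    rw [this] at h; exact h.2.1
  · have : 3 * (n / 3) + 2 = n := by omega
    rw [this] at h; exact h.2.2

lemma stable {x : ℕ → ℝ} (hx : Sol x) {e : ℝ} (he : e ≤ 1 / 100)
    (h0 : ∀ i : ℕ, i < 3 → |x i - 1| ≤ e) (n : ℕ) : |x n - 1| ≤ e := by
  have he0 : 0 ≤ e := le_trans (abs_nonneg _) (h0 0 (by norm_num))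
  have hp1 : (97 / 100 : ℝ) ^ (n / 3) ≤ 1 := pow_le_one₀ (by norm_num) (by norm_num)
  calc |x n - 1| ≤ (97 / 100) ^ (n / 3) * e := decay' hx he h0 n
    _ ≤ 1 * e := mul_le_mul_of_nonneg_right hp1 he0
    _ = e := one_mul e

lemma attract {x : ℕ → ℝ} (hx : Sol x) (h0 : ∀ i : ℕ, i < 3 → |x i - 1| < 1 / 100) :
    Filter.Tendsto x Filter.atTop (nhds 1) := by
  have hdiv : Filter.Tendsto (fun n : ℕ => n / 3) Filter.atTop Filter.atTop := by
    refine Filter.tendsto_atTop.2 fun b => ?_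
    filter_upwards [Filter.eventually_ge_atTop (3 * b)] with n hn
    omega
  have hpow : Filter.Tendsto (fun n : ℕ => (97 / 100 : ℝ) ^ (n / 3) * (1 / 100))
      Filter.atTop (nhds 0) := by
    have h1 := (tendsto_pow_atTop_nhds_zero_of_lt_one (r := (97 / 100 : ℝ)) (by norm_num)
      (by norm_num)).comp hdiv
    have h2 := h1.mul_const (1 / 100 : ℝ)
    rw [zero_mul] at h2
    exact h2
  rw [tendsto_iff_dist_tendsto_zero]
  refine squeeze_zero (fun n => dist_nonneg) (fun n => ?_) hpow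
  rw [Real.dist_eq]
  exact decay' hx (le_refl _) (fun i hi => (h0 i hi).le) n

/-- The solution of prime period three `6, 1/3, 2/3, 6, 1/3, 2/3, …`. -/
noncomputable def per (n : ℕ) : ℝ := if n % 3 = 0 then 6 else if n % 3 = 1 then 1 / 3 else 2 / 3

lemma per_sol : Sol per := by
  refine ⟨fun n => ?_, fun m => ?_⟩
  · unfold per; split_ifs <;> norm_num
  · have h3 : (m + 3) % 3 = m % 3 := by omega
    rcases (by omega : m % 3 = 0 ∨ m % 3 = 1 ∨ m % 3 = 2) with h | h | h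
    · have h1 : (m + 1) % 3 = 1 := by omega
      have h2 : (m + 2) % 3 = 2 := by omega
      simp only [per, h3, h, h1, h2, g]
      norm_num
    · have h1 : (m + 1) % 3 = 2 := by omega
      have h2 : (m + 2) % 3 = 0 := by omega
      simp only [per, h3, h, h1, h2, g]
      norm_num
    · have h1 : (m + 1) % 3 = 0 := by omega
      have h2 : (m + 2) % 3 = 1 := by omega
      simp only [per, h3, h, h1, h2, g]
      norm_num

lemma per_not : ¬ Filter.Tendsto per Filter.atTop (nhds 1) := by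
  intro h
  have h2 : Filter.Tendsto (fun n : ℕ => 3 * n) Filter.atTop Filter.atTop :=
    Filter.tendsto_atTop.2 fun b => by
      filter_upwards [Filter.eventually_ge_atTop b] with n hn
      omega
  have h3 := h.comp h2
  have h4 : per ∘ (fun n : ℕ => 3 * n) = fun _ => 6 := by
    funext n
    simp [per]
  rw [h4] at h3
  have := tendsto_nhds_unique h3 tendsto_const_nhds
  norm_num at this

/-- the predicate of the frozen statement for our parameters -/
def S (x : ℕ → ℝ) : Prop := (∀ n, 0 < x n) ∧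
        ∀ n : ℕ, 3 ≤ n →
          (0 < (53:ℝ) + ∑ j : Fin 3, (![889, 4621, 145] : Fin 3 → ℝ) j * x (n - 1 - (j : ℕ)) ∧
           x n = (0 + ∑ j : Fin 3, (![0, 2808, 2900] : Fin 3 → ℝ) j * x (n - 1 - (j : ℕ))) /
                 (53 + ∑ j : Fin 3, (![889, 4621, 145] : Fin 3 → ℝ) j * x (n - 1 - (j : ℕ))))

lemma S_iff (x : ℕ → ℝ) : S x ↔ Sol x := by
  unfold S Sol
  refine and_congr_right fun hpos => ?_
  constructor
  · intro h m
    have := (h (m + 3) (by omega)).2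
    simp only [Fin.sum_univ_three] at this
    have e0 : m + 3 - 1 - ((0 : Fin 3) : ℕ) = m + 2 := by simp
    have e1 : m + 3 - 1 - ((1 : Fin 3) : ℕ) = m + 1 := by simp
    have e2 : m + 3 - 1 - ((2 : Fin 3) : ℕ) = m := by simp
    rw [e0, e1, e2] at this
    simp at this
    rw [this]
    unfold g
    congr 1
    ring
  · intro h n hn
    obtain ⟨m, rfl⟩ : ∃ m, n = m + 3 := ⟨n - 3, by omega⟩
    have a := hpos m
    have b := hpos (m + 1)
    have c := hpos (m + 2)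
    simp only [Fin.sum_univ_three]
    have e0 : m + 3 - 1 - ((0 : Fin 3) : ℕ) = m + 2 := by simp
    have e1 : m + 3 - 1 - ((1 : Fin 3) : ℕ) = m + 1 := by simp
    have e2 : m + 3 - 1 - ((2 : Fin 3) : ℕ) = m := by simp
    rw [e0, e1, e2, h m]
    simp
    refine ⟨by positivity, ?_⟩
    unfold g
    congr 1
    ring

theorem result :
    ¬ (∀ (k : ℕ), 1 ≤ k → ∀ (α A : ℝ) (β B : Fin k → ℝ), 0 ≤ α → 0 ≤ A →
    (∀ j, 0 ≤ β j) → (∀ j, 0 ≤ B j) →
    ∀ S : (ℕ → ℝ) → Prop,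
      (∀ x : ℕ → ℝ, S x ↔ ((∀ n, 0 < x n) ∧
        ∀ n : ℕ, k ≤ n →
          (0 < A + ∑ j : Fin k, B j * x (n - 1 - (j : ℕ)) ∧
           x n = (α + ∑ j : Fin k, β j * x (n - 1 - (j : ℕ))) /
                 (A + ∑ j : Fin k, B j * x (n - 1 - (j : ℕ)))))) →
      (∀ y : ℕ → ℝ, (∀ i : ℕ, i < k → 0 < y i) →
        ∃ x : ℕ → ℝ, S x ∧ ∀ i : ℕ, i < k → x i = y i) →
      (∀ x : ℕ → ℝ, S x → ∃ M : ℝ, ∀ n, x n ≤ M) →
      ∀ xbar : ℝ, 0 ≤ xbar →
        xbar * (A + ∑ j : Fin k, B j * xbar) = α + ∑ j : Fin k, β j * xbar →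
        (∀ ε : ℝ, 0 < ε → ∃ δ : ℝ, 0 < δ ∧ ∀ x : ℕ → ℝ, S x →
          (∀ i : ℕ, i < k → |x i - xbar| < δ) → ∀ n : ℕ, k ≤ n → |x n - xbar| < ε) →
        (∃ γ : ℝ, 0 < γ ∧ ∀ x : ℕ → ℝ, S x →
          (∀ i : ℕ, i < k → |x i - xbar| < γ) →
          Filter.Tendsto x Filter.atTop (nhds xbar)) →
        ∀ x : ℕ → ℝ, S x → Filter.Tendsto x Filter.atTop (nhds xbar)) := by
  intro h
  refine per_not (h 3 (by norm_num) 0 53 ![0, 2808, 2900] ![889, 4621, 145] le_rfl (by norm_num)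
    (fun j => by fin_cases j <;> norm_num) (fun j => by fin_cases j <;> norm_num)
    S (fun x => Iff.rfl) ?_ ?_ 1 (by norm_num) ?_ ?_ ?_ per ((S_iff per).2 per_sol))
  · intro y hy
    obtain ⟨x, hx, hxy⟩ := exists_sol y hy
    exact ⟨x, (S_iff x).2 hx, hxy⟩
  · intro x hx
    exact bounded ((S_iff x).1 hx)
  · simp [Fin.sum_univ_three]
    norm_num
  · intro ε hε
    refine ⟨min (ε / 2) (1 / 100), by positivity, fun x hx h0 n _ => ?_⟩
    have h1 := stable ((S_iff x).1 hx) (min_le_right (ε / 2) (1 / 100))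
      (fun i hi => (h0 i hi).le) n
    have h2 := min_le_left (ε / 2) (1 / 100 : ℝ)
    linarith
  · exact ⟨1 / 100, by norm_num, fun x hx h0 => attract ((S_iff x).1 hx) h0⟩

end Pool.Agent.S04226
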