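import Pool.Statements.S04228
import Pool.Agent.H155R3.E5

set_option autoImplicit false
open MeasureTheory
open Pool Pool.MP_2ef13d_an

namespace Pool.Agent.S04228

/-- The negation of the preceding statement: If F is entire of minimal exponential type and f, Ff are in L² with Fourier transforms φ, ψ, then on every measurable set where φ vanishes a.e., ψ vanishes a.e. as well. -/
theorem result :
    ¬ (∀ F : ℂ → ℂ, Differentiable ℂ F →
      (∀ ε : ℝ, 0 < ε → ∃ C : ℝ, ∀ z : ℂ, ‖F z‖ ≤ C * Real.exp (ε * ‖z‖)) →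
      ∀ f φ ψ : ℝ → ℂ,
        MemLp f 2 →
        MemLp (fun x : ℝ => F (x : ℂ) * f x) 2 →
        MemLp φ 2 →
        MemLp ψ 2 →
        (∀ h : SchwartzMap ℝ ℂ,
          ∫ ξ : ℝ, φ ξ * h ξ =
            ∫ x : ℝ, f x *
              ∫ ξ : ℝ, Complex.exp (((-2 * Real.pi * x * ξ : ℝ) : ℂ) * Complex.I) * h ξ) →
        (∀ h : SchwartzMap ℝ ℂ,
          ∫ ξ : ℝ, ψ ξ * h ξ =
            ∫ x : ℝ, (F (x : ℂ) * f x) *
              ∫ ξ : ℝ, Complex.exp (((-2 * Real.pi * x * ξ : ℝ) : ℂ) * Complex.I) * h ξ) →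
        ∀ E : Set ℝ, MeasurableSet E →
          (∀ᵐ ξ : ℝ, ξ ∈ E → φ ξ = 0) →
          (∀ᵐ ξ : ℝ, ξ ∈ E → ψ ξ = 0)) := by
  intro H
  obtain ⟨F, hFd, hFt, f, h, hfh, E, hEm, hE1, hE2⟩ := Pool.Agent.H155R3.counterexample
  apply hE2
  have hfh' : (fun x : ℝ => F (x : ℂ) * f x) =ᵐ[volume] (h : ℝ → ℂ) := by
    filter_upwards [hfh] with x hx using hx.symm
  refine H F hFd hFt (f : ℝ → ℂ) (FourierTransform.fourier f : Lp ℂ 2 (volume : Measure ℝ))
    (FourierTransform.fourier h : Lp ℂ 2 (volume : Measure ℝ)) (Lp.memLp f) ?_ (Lp.memLp _) (Lp.memLp _)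
    (Pool.Agent.H155R3.duality f) ?_ E hEm hE1
  · exact (memLp_congr_ae hfh').mpr (Lp.memLp h)
  · intro φ
    rw [Pool.Agent.H155R3.duality h φ]
    apply integral_congr_ae
    filter_upwards [hfh] with x hx
    rw [hx]

end Pool.Agent.S04228
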