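import Pool.Statements.S04239
import Pool.Agent.H487R3.EnvD

set_option autoImplicit false
open Pool Pool.MP_2f7009_an

namespace Pool.Agent.S04239

/-- For every separable real Banach space X, whenever countably many sets of functionals cover the weak*-exposed points of the dual ball, the dual ball lies in the norm-closed convex hull of the union of their weak*-closed convex hulls. -/
theorem result :
    ∀ (X : Type) [NormedAddCommGroup X] [NormedSpace ℝ X] [CompleteSpace X]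
      [TopologicalSpace.SeparableSpace X],
      ∀ B : ℕ → Set (X →L[ℝ] ℝ),
        {φ : X →L[ℝ] ℝ | ‖φ‖ ≤ 1 ∧ ∃ x : X, ∀ ψ : X →L[ℝ] ℝ, ‖ψ‖ ≤ 1 → ψ ≠ φ → ψ x < φ x}
          ⊆ ⋃ n, B n →
        Metric.closedBall (0 : X →L[ℝ] ℝ) 1 ⊆
          closure (convexHull ℝ (⋃ n, {φ : X →L[ℝ] ℝ | ∀ F : Finset X, ∀ ε : ℝ, 0 < ε →
            ∃ ψ ∈ convexHull ℝ (B n), ∀ x ∈ F, |φ x - ψ x| < ε})) := by
  intro X _ _ _ _ B hB
  let A : ℕ → Set (X →L[ℝ] ℝ) := fun n => B n ∩ {φ | ‖φ‖ ≤ 1}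
  let C : ℕ → Set (X →L[ℝ] ℝ) := fun n => {φ : X →L[ℝ] ℝ | ∀ F : Finset X, ∀ ε : ℝ, 0 < ε →
            ∃ ψ ∈ convexHull ℝ (A n), ∀ x ∈ F, |φ x - ψ x| < ε}
  have hAball : ∀ n, ∀ ψ ∈ convexHull ℝ (A n), ‖ψ‖ ≤ 1 := by
    intro n ψ hψ
    have h1 : convexHull ℝ (A n) ⊆ Metric.closedBall (0 : X →L[ℝ] ℝ) 1 := by
      refine convexHull_min ?_ (convex_closedBall 0 1)
      rintro φ ⟨_, hφ⟩
      simpa using hφ
    simpa using h1 hψ
  have hsub : (⋃ n, C n) ⊆ ⋃ n, {φ : X →L[ℝ] ℝ | ∀ F : Finset X, ∀ ε : ℝ, 0 < ε →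
            ∃ ψ ∈ convexHull ℝ (B n), ∀ x ∈ F, |φ x - ψ x| < ε} := by
    refine Set.iUnion_mono fun n φ hφ F ε hε => ?_
    obtain ⟨ψ, hψ, h⟩ := hφ F ε hε
    exact ⟨ψ, convexHull_mono Set.inter_subset_left hψ, h⟩
  refine Set.Subset.trans ?_ (closure_mono (convexHull_mono hsub))
  refine H487.Env.env_general C ?_ ?_ ?_ ?_
  · intro n φ₁ h₁ φ₂ h₂ a b ha hb hab F ε hε
    obtain ⟨ψ₁, hψ₁, h1⟩ := h₁ F ε hε
    obtain ⟨ψ₂, hψ₂, h2⟩ := h₂ F ε hε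
    refine ⟨a • ψ₁ + b • ψ₂, convex_convexHull ℝ _ hψ₁ hψ₂ ha hb hab, fun x hx => ?_⟩
    have e : (a • φ₁ + b • φ₂) x - (a • ψ₁ + b • ψ₂) x = a * (φ₁ x - ψ₁ x) + b * (φ₂ x - ψ₂ x) := by
      simp only [ContinuousLinearMap.add_apply, ContinuousLinearMap.smul_apply, smul_eq_mul]
      ring
    rw [e]
    have h3 : |a * (φ₁ x - ψ₁ x) + b * (φ₂ x - ψ₂ x)| ≤ a * |φ₁ x - ψ₁ x| + b * |φ₂ x - ψ₂ x| := by
      refine (abs_add_le _ _).trans_eq ?_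
      rw [abs_mul, abs_mul, abs_of_nonneg ha, abs_of_nonneg hb]
    have h4 := h1 x hx
    have h5 := h2 x hx
    rcases ha.eq_or_lt with rfl | ha'
    · rw [zero_add] at hab
      subst hab
      linarith
    · have h6 : a * |φ₁ x - ψ₁ x| < a * ε := mul_lt_mul_of_pos_left h4 ha'
      have h7 : b * |φ₂ x - ψ₂ x| ≤ b * ε := mul_le_mul_of_nonneg_left h5.le hb
      have h8 : a * ε + b * ε = ε := by rw [← add_mul, hab, one_mul]
      linarith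
  · intro n φ hφ
    refine φ.opNorm_le_bound zero_le_one fun x => ?_
    refine le_of_forall_pos_le_add fun ε hε => ?_
    obtain ⟨ψ, hψ, h⟩ := hφ {x} ε hε
    have h1 := h x (Finset.mem_singleton_self x)
    have h2 : |ψ x| ≤ 1 * ‖x‖ := by
      calc |ψ x| = ‖ψ x‖ := rfl
        _ ≤ ‖ψ‖ * ‖x‖ := ψ.le_opNorm x
        _ ≤ 1 * ‖x‖ := mul_le_mul_of_nonneg_right (hAball n ψ hψ) (norm_nonneg _)
    have h3 : |φ x| ≤ |φ x - ψ x| + |ψ x| := by
      have := abs_add_le (φ x - ψ x) (ψ x)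
      rwa [sub_add_cancel] at this
    rw [Real.norm_eq_abs]
    linarith
  · intro n
    rw [← isOpen_compl_iff, isOpen_iff_mem_nhds]
    intro φ hφ
    have h1 : ¬ ∀ F : Finset X, ∀ ε : ℝ, 0 < ε →
            ∃ ψ ∈ convexHull ℝ (A n), ∀ x ∈ F, |(WeakDual.toStrongDual φ) x - ψ x| < ε := hφ
    push Not at h1
    obtain ⟨F, ε, hε, h1⟩ := h1
    have h2 : {φ' : WeakDual ℝ X | ∀ x ∈ F, |φ' x - φ x| < ε / 2} ∈ nhds φ := by
      have h3 : {φ' : WeakDual ℝ X | ∀ x ∈ F, |φ' x - φ x| < ε / 2}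
          = ⋂ x ∈ F, {φ' : WeakDual ℝ X | |φ' x - φ x| < ε / 2} := by
        ext φ'; simp
      rw [h3, Filter.biInter_finset_mem]
      intro x _
      have h4 : IsOpen {φ' : WeakDual ℝ X | |φ' x - φ x| < ε / 2} := by
        refine isOpen_lt ?_ continuous_const
        exact ((WeakDual.eval_continuous x).sub continuous_const).abs
      refine h4.mem_nhds ?_
      show |φ x - φ x| < ε / 2
      rw [sub_self, abs_zero]; positivity
    refine Filter.mem_of_superset h2 fun φ' hφ' hmem => ?_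
    obtain ⟨ψ, hψ, h5⟩ := hmem F (ε / 2) (by positivity)
    obtain ⟨x, hx, h6⟩ := h1 ψ hψ
    have h7 : |φ' x - φ x| < ε / 2 := hφ' x hx
    have h8 : |φ' x - ψ x| < ε / 2 := h5 x hx
    have h9 : ε ≤ |φ x - ψ x| := h6
    have h10 : |φ x - ψ x| ≤ |φ' x - φ x| + |φ' x - ψ x| := by
      rw [abs_sub_comm (φ' x) (φ x)]
      exact abs_sub_le _ _ _
    linarith
  · intro φ hφ hex
    have h1 : φ ∈ ⋃ n, B n := hB ⟨hφ, hex⟩
    obtain ⟨n, hn⟩ := Set.mem_iUnion.1 h1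
    refine ⟨n, fun F ε hε => ⟨φ, subset_convexHull ℝ _ ⟨hn, hφ⟩, fun x _ => ?_⟩⟩
    rw [sub_self, abs_zero]
    exact hε

end Pool.Agent.S04239
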