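import Pool.Statements.S04252
import Pool.Agent.H329R3.Sinc

set_option autoImplicit false
open Filter Topology
open Pool Pool.MP_309e42_an

namespace Pool.Agent.S04252

/-- The negation of the preceding statement: Every non-constant entire f of finite order ρ whose exponent set (nonzero Taylor coefficients) has maximal Pólya density Δ with ρΔ<1 has no finite asymptotic value along any curve tending to infinity. -/
theorem result :
    ¬ (∀ f : ℂ → ℂ, Differentiable ℂ f → (∃ z w : ℂ, f z ≠ f w) →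
    ∀ ρ Δ : ℝ,
      (∀ ε : ℝ, 0 < ε → ∀ᶠ r : ℝ in atTop, ∀ z : ℂ, ‖z‖ = r →
          ‖f z‖ ≤ Real.exp (r ^ (ρ + ε))) →
      Tendsto (fun ξ : ℝ => Filter.limsup (fun t : ℝ =>
          (((Nat.card {n : ℕ // iteratedDeriv n f 0 ≠ 0 ∧ (n : ℝ) ≤ t} : ℕ) : ℝ) -
            ((Nat.card {n : ℕ // iteratedDeriv n f 0 ≠ 0 ∧ (n : ℝ) ≤ ξ * t} : ℕ) : ℝ)) /
            ((1 - ξ) * t)) atTop)
        (𝓝[<] (1 : ℝ)) (𝓝 Δ) →
      ρ * Δ < 1 →
      ¬ ∃ a : ℂ, ∃ γ : ℝ → ℂ, Continuous γ ∧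
          Tendsto (fun t : ℝ => ‖γ t‖) atTop atTop ∧
          Tendsto (fun t : ℝ => f (γ t)) atTop (𝓝 a)) := by
  intro h
  have h1 := h Pool.Agent.H329R3.Sinc.sinc Pool.Agent.H329R3.Sinc.sinc_diff
    ⟨0, (Real.pi : ℂ), by
      have h2 := Pool.Agent.H329R3.Sinc.mul_sinc (Real.pi : ℂ)
      rw [Complex.sin_pi] at h2
      have h3 : Pool.Agent.H329R3.Sinc.sinc (Real.pi : ℂ) = 0 :=
        (mul_eq_zero.1 h2).resolve_left (by exact_mod_cast Real.pi_ne_zero)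
      rw [Pool.Agent.H329R3.Sinc.sinc_zero, h3]
      exact one_ne_zero⟩ 1 (1 / 2)
    (fun ε hε => Pool.Agent.H329R3.Sinc.growth hε)
    (by
      apply Tendsto.congr' _ tendsto_const_nhds
      have h4 : ∀ᶠ ξ : ℝ in 𝓝[<] (1:ℝ), 0 < ξ :=
        mem_nhdsWithin_of_mem_nhds (Ioi_mem_nhds one_pos)
      filter_upwards [h4, self_mem_nhdsWithin] with ξ h0 h1
      exact (Pool.Agent.H329R3.Sinc.dens h0 h1).limsup_eq.symm)
    (by norm_num)
  apply h1
  refine ⟨0, fun t => (t : ℂ), Complex.continuous_ofReal, ?_, Pool.Agent.H329R3.Sinc.lim_sinc⟩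
  simp only [Complex.norm_real]
  exact tendsto_norm_atTop_atTop

end Pool.Agent.S04252
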