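import Pool.Statements.S04305
import Pool.Agent.H76R3.L1Inst

set_option autoImplicit false
open Pool Pool.MP_349fe0_an

namespace Pool.Agent.S04305

/-- For every ε>0 there is a map f from real ℓ₁ into the sup-normed continuous functions on the ordinal interval [0, ω^ω] and r>0 with r·d(x,y) ≤ d(f x,f y) ≤ (1+ε)·r·d(x,y) for all x, y. -/
theorem result :
    ∀ ε : ℝ, 0 < ε →
      ∃ f : lp (fun _ : ℕ => ℝ) 1 →
          BoundedContinuousFunction (Set.Iic (Ordinal.omega0 ^ Ordinal.omega0 : Ordinal.{0})) ℝ,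
        ∃ r : ℝ, 0 < r ∧
          ∀ x y : lp (fun _ : ℕ => ℝ) 1,
            r * dist x y ≤ dist (f x) (f y) ∧
              dist (f x) (f y) ≤ (1 + ε) * r * dist x y := by
  intro ε hε
  have hε1 : 0 < 1 + ε := by linarith
  -- choose the loss
  set ε' : ℝ := ε / (1 + ε) with hε'
  have hε'0 : 0 < ε' := by positivity
  have hr : 1 - ε' = 1 / (1 + ε) := by
    rw [hε']
    field_simp
    ring
  obtain ⟨F, hc, hb, hl, hlow⟩ :=
    Pool.Agent.H76R3.StepFun.main Pool.Agent.H76R3.StepFun.projSys ε' hε'0
  set f : lp (fun _ : ℕ => ℝ) 1 →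
      BoundedContinuousFunction (Set.Iic (Ordinal.omega0 ^ Ordinal.omega0 : Ordinal.{0})) ℝ :=
    fun w => BoundedContinuousFunction.ofNormedAddCommGroup
      (fun t : Set.Iic (Ordinal.omega0 ^ Ordinal.omega0 : Ordinal.{0}) => F w t.1)
      ((hc w).comp continuous_subtype_val) ‖w‖ (fun t => hb w t.1) with hf
  have hup : ∀ x y, dist (f x) (f y) ≤ dist x y := by
    intro x y
    rw [BoundedContinuousFunction.dist_le dist_nonneg]
    intro t
    rw [Real.dist_eq, dist_eq_norm]
    exact hl x y t.1
  have hfcont : Continuous f := by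
    apply LipschitzWith.continuous (K := 1)
    apply LipschitzWith.of_dist_le_mul
    intro x y
    simpa using hup x y
  -- lower bound on finitely supported vectors
  have hfin : ∀ N x y, Pool.Agent.H76R3.StepFun.PL N x = x →
      Pool.Agent.H76R3.StepFun.PL N y = y → (1 - ε') * dist x y ≤ dist (f x) (f y) := by
    intro N x y hx hy
    by_cases hxy : x = y
    · subst hxy
      simp
    · obtain ⟨t, ht, h⟩ := hlow N x y hx hy hxy
      rw [dist_eq_norm]
      apply h.trans
      have := BoundedContinuousFunction.dist_coe_le_dist (f := f x) (g := f y) ⟨t, ht⟩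
      rw [Real.dist_eq] at this
      exact this
  have hlower : ∀ x y, (1 - ε') * dist x y ≤ dist (f x) (f y) := by
    intro x y
    have hx := Pool.Agent.H76R3.StepFun.projSys.lim x
    have hy := Pool.Agent.H76R3.StepFun.projSys.lim y
    have h1 : Filter.Tendsto (fun N => (1 - ε') * dist (Pool.Agent.H76R3.StepFun.PL N x)
        (Pool.Agent.H76R3.StepFun.PL N y)) Filter.atTop (nhds ((1 - ε') * dist x y)) :=
      (hx.dist hy).const_mul _
    have h2 : Filter.Tendsto (fun N => dist (f (Pool.Agent.H76R3.StepFun.PL N x))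
        (f (Pool.Agent.H76R3.StepFun.PL N y))) Filter.atTop (nhds (dist (f x) (f y))) :=
      (((hfcont.tendsto x).comp hx).dist ((hfcont.tendsto y).comp hy))
    apply le_of_tendsto_of_tendsto' h1 h2
    intro N
    exact hfin N _ _ (Pool.Agent.H76R3.StepFun.projSys.ge N N x le_rfl)
      (Pool.Agent.H76R3.StepFun.projSys.ge N N y le_rfl)
  refine ⟨f, 1 / (1 + ε), by positivity, fun x y => ⟨?_, ?_⟩⟩
  · rw [← hr]
    exact hlower x y
  · have : (1 + ε) * (1 / (1 + ε)) = 1 := by field_simp
    rw [this, one_mul]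
    exact hup x y

end Pool.Agent.S04305
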