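import Pool.Statements.S04311
import Pool.Agent.H18R3.FB

set_option autoImplicit false
open Metric
open Pool Pool.MP_354547_an

namespace Pool.Agent.S04311

/-- If a planar open set D is a Lipschitz graph domain near 0 ∈ ∂D, and u is C^{1,1} on B_2 with Δu = x₁·1_D weakly and u = 0 off the closure of D, then near 0 D is, after rotation, the region above a C¹ graph. -/
theorem result :
  ∀ (D : Set (EuclideanSpace ℝ (Fin 2))) (u : EuclideanSpace ℝ (Fin 2) → ℝ),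
    IsOpen D →
    (0 : EuclideanSpace ℝ (Fin 2)) ∈ frontier D →
    (∃ r : ℝ, 0 < r ∧ ∃ R : EuclideanSpace ℝ (Fin 2) ≃ₗᵢ[ℝ] EuclideanSpace ℝ (Fin 2),
      ∃ f : ℝ → ℝ, ∃ L : NNReal, LipschitzWith L f ∧
        ∀ x ∈ ball (0 : EuclideanSpace ℝ (Fin 2)) r, (x ∈ D ↔ f ((R x) 0) < (R x) 1)) →
    DifferentiableOn ℝ u (ball (0 : EuclideanSpace ℝ (Fin 2)) 2) →
    (∀ s : ℝ, s < 2 → ∃ C : NNReal,
      LipschitzOnWith C (fderiv ℝ u) (closedBall (0 : EuclideanSpace ℝ (Fin 2)) s)) →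
    (∀ φ : EuclideanSpace ℝ (Fin 2) → ℝ, ContDiff ℝ 2 φ → HasCompactSupport φ →
      tsupport φ ⊆ ball (0 : EuclideanSpace ℝ (Fin 2)) 2 →
      ∫ x, u x * (∑ i : Fin 2,
          fderiv ℝ (fun y => fderiv ℝ φ y (EuclideanSpace.single i (1 : ℝ))) x
            (EuclideanSpace.single i (1 : ℝ)))
        = ∫ x, x 0 * D.indicator (fun _ => (1 : ℝ)) x * φ x) →
    (∀ x ∈ ball (0 : EuclideanSpace ℝ (Fin 2)) 2, x ∉ closure D → u x = 0) →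
    ∃ ρ : ℝ, 0 < ρ ∧ ∃ R : EuclideanSpace ℝ (Fin 2) ≃ₗᵢ[ℝ] EuclideanSpace ℝ (Fin 2),
      ∃ g : ℝ → ℝ, ContDiff ℝ 1 g ∧
        ∀ x ∈ ball (0 : EuclideanSpace ℝ (Fin 2)) ρ, (x ∈ D ↔ g ((R x) 0) < (R x) 1) := by
  intro D u hD h0 hgr hu hLip hw hout
  obtain ⟨r, hr, R, f, L, hf, hgraph⟩ := hgr
  obtain ⟨ρ, hρ, g, hg, -, hgg⟩ := Pool.Agent.H18R3.fb_regular D u hD h0 hr R hf hgraph hu hLip
    (fun φ h1 h2 h3 => by
      have h4 := hw φ h1 h2 h3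
      simp only [Fin.sum_univ_two] at h4
      exact h4) hout
  exact ⟨ρ, hρ, R, g, hg, hgg⟩

end Pool.Agent.S04311
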