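import Pool.Statements.S04314
import Pool.Agent.H621R3.C0Final

set_option autoImplicit false
open scoped BoundedContinuousFunction
open Pool Pool.MP_355d06_an

namespace Pool.Agent.S04314

/-- The negation of the preceding statement: There is an uncountable set Γ and a map from bounded real sequences (sup metric) into c_0(Γ) (sup metric) that is a coarse embedding: bounded distances go to bounded distances, and bounded image distances come from bounded distances. -/
theorem result :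
    ¬ (∃ (Γ : Type), ¬ Countable Γ ∧ ∃ f : (ℕ →ᵇ ℝ) → (Γ → ℝ),
      (∀ x : ℕ →ᵇ ℝ, ∀ ε : ℝ, 0 < ε → {i : Γ | ε ≤ |f x i|}.Finite) ∧
      (∀ R : ℝ, ∃ S : ℝ, ∀ x y : ℕ →ᵇ ℝ, dist x y ≤ R → ∀ i : Γ, |f x i - f y i| ≤ S) ∧
      (∀ S : ℝ, ∃ R : ℝ, ∀ x y : ℕ →ᵇ ℝ, (∀ i : Γ, |f x i - f y i| ≤ S) → dist x y ≤ R)) := by
  rintro ⟨Γ, -, f, h0, h1, h2⟩
  exact Pool.Agent.H621R3.C0.main f h0 (h1 1) h2

end Pool.Agent.S04314
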