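import Pool.Statements.S04321
import Pool.Agent.H654R3.ZetaNonneg

set_option autoImplicit false
open scoped ComplexOrder
open Pool Pool.MP_35c443_an

namespace Pool.Agent.S04321

/-- Fourier coefficients of a real function are conjugation symmetric. -/
lemma fourier_star (a : ℝ → ℝ) (n : ℤ) :
    star ((1 / (2 * (Real.pi : ℂ))) * ∫ x in (0 : ℝ)..(2 * Real.pi),
      (a x : ℂ) * Complex.exp (-(Complex.I * (n : ℂ) * (x : ℂ)))) =
    (1 / (2 * (Real.pi : ℂ))) * ∫ x in (0 : ℝ)..(2 * Real.pi),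
      (a x : ℂ) * Complex.exp (-(Complex.I * ((-n : ℤ) : ℂ) * (x : ℂ))) := by
  rw [star_mul']
  congr 1
  · simp
  · rw [intervalIntegral.integral_of_le (by positivity),
      intervalIntegral.integral_of_le (by positivity), Complex.star_def, ← integral_conj]
    congr 1
    funext x
    rw [map_mul, Complex.conj_ofReal, ← Complex.exp_conj]
    congr 2
    simp

/-- For every k ≥ 1 and every smooth real 2π-periodic a, Z_k(a) is real and ≥ 0. Here Z_k(a) sums N_j·â_{j1}⋯â_{j2k} over j in ℤ^{2k} with sum 0, and N_j = Σ_n (∣f(n)∣ − f(n)) with f(n) = ∏_i (n + j1+…+j_i). -/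
theorem result :
    ∀ k : ℕ, 1 ≤ k → ∀ a : ℝ → ℝ, ContDiff ℝ (⊤ : ℕ∞) a → Function.Periodic a (2 * Real.pi) →
      (0 : ℂ) ≤ ∑' j : {j : Fin (2 * k) → ℤ // ∑ i, j i = 0},
        (((∑ᶠ n : ℤ, (|∏ i : Fin (2 * k), (n + ∑ l ∈ Finset.Iio i, j.1 l)|
              - ∏ i : Fin (2 * k), (n + ∑ l ∈ Finset.Iio i, j.1 l))) : ℤ) : ℂ) *
          ∏ i : Fin (2 * k), ((1 / (2 * (Real.pi : ℂ))) *
            ∫ x in (0 : ℝ)..(2 * Real.pi),
              (a x : ℂ) * Complex.exp (-(Complex.I * ((j.1 i : ℤ) : ℂ) * (x : ℂ)))) := by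
  intro k hk a _ _
  obtain ⟨m, hm⟩ : ∃ m, 2 * k = m + 1 := ⟨2 * k - 1, by omega⟩
  have hev : Even (m + 1) := ⟨k, by omega⟩
  rw [hm]
  exact Pool.Agent.H654R3.zeta_tsum_nonneg
    (fun n : ℤ => (1 / (2 * (Real.pi : ℂ))) * ∫ x in (0 : ℝ)..(2 * Real.pi),
      (a x : ℂ) * Complex.exp (-(Complex.I * (n : ℂ) * (x : ℂ)))) (fourier_star a) m hev

end Pool.Agent.S04321
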