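import Pool.Statements.S04335
import Pool.Agent.H342R3.PosIso

set_option autoImplicit false
open Pool Pool.MP_36c1dd_an

namespace Pool.Agent.S04335

/-- There is a continuous linear isomorphism T from C([0,1]) onto C(Cantor set), with the Cantor set as binary sequences, such that T sends every nonnegative function to a nonnegative function. -/
theorem result :
    ∃ T : C(unitInterval, ℝ) ≃L[ℝ] C(ℕ → Bool, ℝ),
      ∀ f : C(unitInterval, ℝ), (∀ x, 0 ≤ f x) → ∀ y, 0 ≤ T f y :=
  Pool.Agent.H342R3.PosIso.main

end Pool.Agent.S04335
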