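import Pool.Statements.S04353
import Pool.Agent.H722R3.Ideal

set_option autoImplicit false
open Pool Pool.MP_38279d_an

namespace Pool.Agent.S04353

/-- There are at least continuum many distinct closed subspaces of bounded operators from ℓ1 to c0, each stable under composition with bounded operators on ℓ1 on the right and on c0 on the left. -/
theorem result :
    ∃ f : Set ℕ → Submodule ℝ
        (lp (fun _ : ℕ => ℝ) (1 : ENNReal) →L[ℝ] ZeroAtInftyContinuousMap ℕ ℝ),
      Function.Injective f ∧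
      ∀ s : Set ℕ,
        IsClosed (f s : Set (lp (fun _ : ℕ => ℝ) (1 : ENNReal) →L[ℝ]
            ZeroAtInftyContinuousMap ℕ ℝ)) ∧
        ∀ T ∈ f s,
          ∀ A : lp (fun _ : ℕ => ℝ) (1 : ENNReal) →L[ℝ] lp (fun _ : ℕ => ℝ) (1 : ENNReal),
          ∀ B : ZeroAtInftyContinuousMap ℕ ℝ →L[ℝ] ZeroAtInftyContinuousMap ℕ ℝ,
            B.comp (T.comp A) ∈ f s := by
  refine ⟨fun s => Pool.Agent.H722R3.J (Pool.Agent.H722R3.fam s),
    Pool.Agent.H722R3.J_fam_injective, fun s => ⟨Pool.Agent.H722R3.J_closed _, ?_⟩⟩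
  intro T hT A B
  exact Pool.Agent.H722R3.J_ideal _ T hT A B

end Pool.Agent.S04353
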