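import Pool.Statements.S04380
import Pool.Agent.H258R3.Curv

set_option autoImplicit false
open Pool Pool.MP_39f9da_an

namespace Pool.Agent.S04380

open Pool.Agent.H258R3

/-- The negation of the preceding statement: For every residually finite group G and finite alphabet, every strongly irreducible subshift of finite type X over G has its finite-orbit configurations dense: any point of X can be matched on any finite set by a periodic point of X. -/
theorem result :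
    ¬ (∀ (G : Type) [Group G],
    (∀ g : G, g ≠ 1 → ∃ H : Subgroup G, H.FiniteIndex ∧ g ∉ H) →
    ∀ (A : Type) [Fintype A] (X : Set (G → A)),
      (∃ (S : Finset G) (P : Set (S → A)),
        X = {x | ∀ g : G, (fun s : S => x (s.1 * g)) ∈ P}) →
      (∃ Δ : Finset G, ∀ Ω₁ Ω₂ : Finset G,
        (∀ d ∈ Δ, ∀ w ∈ Ω₁, d * w ∉ Ω₂) →
        ∀ x₁ ∈ X, ∀ x₂ ∈ X, ∃ z ∈ X,
          (∀ w ∈ Ω₁, z w = x₁ w) ∧ (∀ w ∈ Ω₂, z w = x₂ w)) →
      ∀ x ∈ X, ∀ F : Finset G, ∃ y ∈ X,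
        (Set.range (fun g : G => fun h : G => y (h * g))).Finite ∧
        ∀ h ∈ F, y h = x h) := by
  classical
  intro H
  haveI : Fact (Nat.Prime 2) := ⟨Nat.prime_two⟩
  let a : Multiplicative (ℤ_[2] × ℤ_[2]) := Multiplicative.ofAdd (1, 0)
  let b : Multiplicative (ℤ_[2] × ℤ_[2]) := Multiplicative.ofAdd (0, 1)
  have hfree : ∀ m n : ℤ, a ^ m * b ^ n = 1 → m = 0 ∧ n = 0 := by
    intro m n h
    have h1 : m • ((1, 0) : ℤ_[2] × ℤ_[2]) + n • ((0, 1) : ℤ_[2] × ℤ_[2]) = 0 := h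
    have h2 := congrArg Prod.fst h1
    have h3 := congrArg Prod.snd h1
    simp at h2 h3
    exact ⟨h2, h3⟩
  have hdiv : ∀ g : Multiplicative (ℤ_[2] × ℤ_[2]), ∃ g', g' ^ 3 = g := by
    intro g
    have hu : IsUnit ((3 : ℕ) : ℤ_[2]) := by
      rw [PadicInt.isUnit_iff, PadicInt.norm_natCast_eq_one_iff]
      decide
    obtain ⟨u, hu⟩ := hu
    let v : ℤ_[2] × ℤ_[2] := Multiplicative.toAdd g
    refine ⟨Multiplicative.ofAdd ((((u⁻¹ : ℤ_[2]ˣ) : ℤ_[2]) * v.1,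
      ((u⁻¹ : ℤ_[2]ˣ) : ℤ_[2]) * v.2)), ?_⟩
    show (3 : ℕ) • ((((u⁻¹ : ℤ_[2]ˣ) : ℤ_[2]) * v.1,
      ((u⁻¹ : ℤ_[2]ˣ) : ℤ_[2]) * v.2) : ℤ_[2] × ℤ_[2]) = v
    ext
    · simp only [Prod.smul_mk, nsmul_eq_mul]
      rw [← hu, Units.mul_inv_cancel_left]
    · simp only [Prod.smul_mk, nsmul_eq_mul]
      rw [← hu, Units.mul_inv_cancel_left]
  have hres : ∀ g : Multiplicative (ℤ_[2] × ℤ_[2]), g ≠ 1 →
      ∃ K : Subgroup (Multiplicative (ℤ_[2] × ℤ_[2])), K.FiniteIndex ∧ g ∉ K := by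
    intro g hg
    let v : ℤ_[2] × ℤ_[2] := Multiplicative.toAdd g
    have hv : v ≠ 0 := hg
    have hex : ∃ n : ℕ, PadicInt.toZModPow n v.1 ≠ 0 ∨ PadicInt.toZModPow n v.2 ≠ 0 := by
      by_contra hcon
      push Not at hcon
      apply hv
      ext
      · have := PadicInt.ext_of_toZModPow.mp (fun n => (hcon n).1.trans
          (map_zero (PadicInt.toZModPow (p := 2) n)).symm)
        rw [this]; rfl
      · have := PadicInt.ext_of_toZModPow.mp (fun n => (hcon n).2.trans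
          (map_zero (PadicInt.toZModPow (p := 2) n)).symm)
        rw [this]; rfl
    obtain ⟨n, hn⟩ := hex
    let f : ℤ_[2] × ℤ_[2] →+ ZMod (2 ^ n) × ZMod (2 ^ n) :=
      AddMonoidHom.prodMap (PadicInt.toZModPow n : ℤ_[2] →+* ZMod (2 ^ n)).toAddMonoidHom
        (PadicInt.toZModPow n : ℤ_[2] →+* ZMod (2 ^ n)).toAddMonoidHom
    let φ : Multiplicative (ℤ_[2] × ℤ_[2]) →* Multiplicative (ZMod (2 ^ n) × ZMod (2 ^ n)) :=
      AddMonoidHom.toMultiplicative f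
    haveI : NeZero (2 ^ n) := ⟨by positivity⟩
    haveI : Finite (Multiplicative (ZMod (2 ^ n) × ZMod (2 ^ n))) :=
      (inferInstance : Finite (ZMod (2 ^ n) × ZMod (2 ^ n)))
    refine ⟨φ.ker, inferInstance, ?_⟩
    intro hmem
    have h1 : f v = 0 := hmem
    have h2 : PadicInt.toZModPow n v.1 = 0 := congrArg Prod.fst h1
    have h3 : PadicInt.toZModPow n v.2 = 0 := congrArg Prod.snd h1
    rcases hn with h | h
    · exact h h2
    · exact h h3
  -- the subshift of finite type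
  let S : Finset (Multiplicative (ℤ_[2] × ℤ_[2])) := {1, a, b}
  have h1S : (1 : Multiplicative (ℤ_[2] × ℤ_[2])) ∈ S := by simp [S]
  have haS : a ∈ S := by simp [S]
  have hbS : b ∈ S := by simp [S]
  obtain ⟨x, hx⟩ := curvSet_nonempty a b hfree
  obtain ⟨y, hyX, hyfin, -⟩ := H (Multiplicative (ℤ_[2] × ℤ_[2])) hres (ZMod 3 × ZMod 3)
    (curvSet a b)
    ⟨S, {w | (w ⟨b, hbS⟩).1 - (w ⟨1, h1S⟩).1 - (w ⟨a, haS⟩).2 + (w ⟨1, h1S⟩).2 = 1}, by
      ext z
      simp only [curvSet, Set.mem_setOf_eq, one_mul]⟩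
    (curvSet_glue a b hfree) x hx ∅
  exact curvSet_not_periodic a b hdiv y hyX hyfin

end Pool.Agent.S04380
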