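import Pool.Statements.S04474
import Pool.Agent.H321R3.Painless
import Pool.Agent.H321R3.Count
import Pool.Agent.H321R3.Szero

set_option autoImplicit false
open MeasureTheory
open Pool Pool.MP_41f43f_an

namespace Pool.Agent.S04474

open Pool.Agent.H321R3.Painless Pool.Agent.H321R3.Count Set

/-- the squared coefficient -/
noncomputable def term (f : ℝ → ℂ) (γ : ℝ × ℝ) : ℝ := ‖∫ t : ℝ, f t * (starRingEnd ℂ)
          (Complex.exp (2 * (Real.pi : ℂ) * Complex.I * ((γ.2 : ℝ) : ℂ) * (t : ℂ))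
            * g (t - γ.1))‖ ^ 2

lemma term_nonneg (f : ℝ → ℂ) (γ : ℝ × ℝ) : 0 ≤ term f γ := by
  unfold term; positivity

/-- the map `(m,n) ↦ (m+s,n)` -/
noncomputable def i (s : ℝ) (p : ℤ × ℤ) : ℝ × ℝ := ((p.1 : ℝ) + s, ((p.2 : ℝ)))

lemma i_inj (s : ℝ) : Function.Injective (i s) := by
  rintro ⟨a, b⟩ ⟨c, d⟩ h
  simp only [i, Prod.mk.injEq, add_left_inj, Int.cast_inj] at h
  exact Prod.ext h.1 h.2

lemma range_i (s : ℝ) : Set.range (i s) = Zs s ×ˢ Zs 0 := by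
  ext ⟨x, y⟩
  simp only [mem_range, Zs, mem_prod]
  constructor
  · rintro ⟨⟨m, n⟩, h⟩
    simp only [i, Prod.mk.injEq] at h
    exact ⟨⟨m, h.1.symm⟩, ⟨n, by simp [h.2.symm]⟩⟩
  · rintro ⟨⟨m, hm⟩, ⟨n, hn⟩⟩
    exact ⟨(m, n), by simp only [i]; rw [← hm]; simp [hn]⟩

lemma integrable_sq (f : ℝ → ℂ) (hf : MemLp f 2 volume) (s : ℝ) :
    Integrable (fun t => ‖f t‖ ^ 2 * Real.sin (2 * Real.pi * (t - s)) ^ 6) volume := by
  have h1 : Integrable (fun t => ‖f t‖ ^ 2) volume := hf.integrable_norm_pow (by norm_num)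
  refine h1.mono ?_ (ae_of_all _ fun t => ?_)
  · exact h1.aestronglyMeasurable.mul
      (by fun_prop : Continuous (fun t : ℝ =>
        Real.sin (2 * Real.pi * (t - s)) ^ 6)).aestronglyMeasurable
  · rw [norm_mul]
    refine mul_le_of_le_one_right (norm_nonneg _) ?_
    rw [Real.norm_eq_abs, abs_pow]
    exact pow_le_one₀ (abs_nonneg _) (Real.abs_sin_le_one _)

lemma hasSum_m (f : ℝ → ℂ) (hf : MemLp f 2 volume) (s : ℝ) :
    HasSum (fun m : ℤ => ∫ t in (((m : ℝ) + s) - 1/2)..(((m : ℝ) + s) + 1/2),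
      ‖f t‖ ^ 2 * Real.sin (2 * Real.pi * (t - ((m : ℝ) + s))) ^ 6)
      (∫ t, ‖f t‖ ^ 2 * Real.sin (2 * Real.pi * (t - s)) ^ 6) := by
  have h := (integrable_sq f hf s).hasSum_intervalIntegral (s - 1/2)
  have e : (fun m : ℤ => ∫ t in (((m : ℝ) + s) - 1/2)..(((m : ℝ) + s) + 1/2),
      ‖f t‖ ^ 2 * Real.sin (2 * Real.pi * (t - ((m : ℝ) + s))) ^ 6) =
      fun m : ℤ => ∫ t in (s - 1/2 + (m : ℝ))..(s - 1/2 + (m : ℝ) + 1),
      ‖f t‖ ^ 2 * Real.sin (2 * Real.pi * (t - s)) ^ 6 := by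
    funext m
    rw [show (m : ℝ) + s - 1/2 = s - 1/2 + m by ring,
      show (m : ℝ) + s + 1/2 = s - 1/2 + m + 1 by ring]
    refine intervalIntegral.integral_congr fun t _ => ?_
    rw [show 2 * Real.pi * (t - ((m : ℝ) + s)) = 2 * Real.pi * (t - s) - m * (2 * Real.pi) by ring,
      Real.sin_sub_int_mul_two_pi]
  rw [e]
  exact h

lemma hasSum_i (f : ℝ → ℂ) (hf : MemLp f 2 volume) (s : ℝ) :
    HasSum (fun p : ℤ × ℤ => term f (i s p))
      (∫ t, ‖f t‖ ^ 2 * Real.sin (2 * Real.pi * (t - s)) ^ 6) := by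
  have h1 : ∀ m : ℤ, HasSum (fun n : ℤ => term f (i s (m, n)))
      (∫ t in (((m : ℝ) + s) - 1/2)..(((m : ℝ) + s) + 1/2),
      ‖f t‖ ^ 2 * Real.sin (2 * Real.pi * (t - ((m : ℝ) + s))) ^ 6) := fun m =>
    parseval f hf ((m : ℝ) + s)
  have h2 := hasSum_m f hf s
  have hs : Summable (fun p : ℤ × ℤ => term f (i s p)) := by
    rw [summable_prod_of_nonneg (fun p => term_nonneg f _)]
    refine ⟨fun m => (h1 m).summable, ?_⟩
    refine h2.summable.congr fun m => ?_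
    exact (h1 m).tsum_eq.symm
  have h3 := hs.hasSum.prod_fiberwise h1
  have h4 := hs.hasSum
  rwa [h3.unique h2] at h4

theorem hasSum_Γ (f : ℝ → ℂ) (hf : MemLp f 2 volume) :
    HasSum (fun γ : Γ => term f γ)
      ((∫ t, ‖f t‖ ^ 2 * Real.sin (2 * Real.pi * (t - 0)) ^ 6) +
        (∫ t, ‖f t‖ ^ 2 * Real.sin (2 * Real.pi * (t - 1/4)) ^ 6)) := by
  have h0 : HasSum (fun γ : (Set.range (i 0)) => term f γ)
      (∫ t, ‖f t‖ ^ 2 * Real.sin (2 * Real.pi * (t - 0)) ^ 6) := by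
    rw [← (Equiv.ofInjective (i 0) (i_inj 0)).hasSum_iff]
    exact hasSum_i f hf 0
  have h1 : HasSum (fun γ : (Set.range (i (1/4))) => term f γ)
      (∫ t, ‖f t‖ ^ 2 * Real.sin (2 * Real.pi * (t - 1/4)) ^ 6) := by
    rw [← (Equiv.ofInjective (i (1/4)) (i_inj (1/4))).hasSum_iff]
    exact hasSum_i f hf (1/4)
  have hd : Disjoint (Set.range (i 0)) (Set.range (i (1/4))) := by
    rw [range_i, range_i]
    exact Set.Disjoint.set_prod_left disj _ _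
  have h2 := HasSum.add_disjoint (f := term f) hd h0 h1
  have hΓ : Γ = Set.range (i 0) ∪ Set.range (i (1/4)) := by
    rw [range_i, range_i, Γ, Set.union_prod]
  rw [hΓ]
  exact h2

lemma sin_cos_six (t : ℝ) : 1/4 ≤ Real.sin (2 * Real.pi * (t - 0)) ^ 6 +
    Real.sin (2 * Real.pi * (t - 1/4)) ^ 6 ∧ Real.sin (2 * Real.pi * (t - 0)) ^ 6 +
    Real.sin (2 * Real.pi * (t - 1/4)) ^ 6 ≤ 1 := by
  rw [sub_zero, show 2 * Real.pi * (t - 1/4) = 2 * Real.pi * t - Real.pi / 2 by ring,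
    Real.sin_sub_pi_div_two]
  have h := Real.sin_sq_add_cos_sq (2 * Real.pi * t)
  set a := Real.sin (2 * Real.pi * t)
  set b := Real.cos (2 * Real.pi * t)
  have h1 : a ^ 6 + (-b) ^ 6 = 1 - 3 * (a ^ 2 * b ^ 2) := by
    have : a ^ 6 + (-b) ^ 6 = (a ^ 2 + b ^ 2) * ((a ^ 2 + b ^ 2) ^ 2 - 3 * (a ^ 2 * b ^ 2)) := by ring
    rw [this, h]; ring
  rw [h1]
  have h2 : a ^ 2 * b ^ 2 ≤ 1/4 := by nlinarith [sq_nonneg (a ^ 2 - b ^ 2)]
  have h3 : 0 ≤ a ^ 2 * b ^ 2 := by positivity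
  constructor <;> linarith

/-- The negation of the preceding statement: For n ≥ 1, every odd window g in the Feichtinger algebra and every relatively separated set Γ in the plane with lower Beurling density (n+1)/n, the Gabor system of g over Γ is not a frame for L²(ℝ). -/
theorem result :
    ¬ (∀ n : ℕ, 1 ≤ n →
  ∀ g : ℝ → ℂ, MemLp g 2 volume →
    Integrable g volume →
    Integrable (fun p : ℝ × ℝ => ∫ t : ℝ, g t
        * Complex.exp (-(Real.pi : ℂ) * (((t - p.1) ^ 2 : ℝ) : ℂ))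
        * Complex.exp (-2 * (Real.pi : ℂ) * Complex.I * (p.2 : ℂ) * (t : ℂ)))
      (volume : Measure (ℝ × ℝ)) →
    (∀ t : ℝ, g (-t) = -g t) →
  ∀ Γ : Set (ℝ × ℝ),
    (∃ C : ℕ, ∀ z : ℝ × ℝ,
      (Γ ∩ (Set.Ico z.1 (z.1 + 1) ×ˢ Set.Ico z.2 (z.2 + 1))).Finite ∧
      (Γ ∩ (Set.Ico z.1 (z.1 + 1) ×ˢ Set.Ico z.2 (z.2 + 1))).ncard ≤ C) →
    Filter.liminf (fun R : ℝ => ⨅ z : ℝ × ℝ,
        ((Γ ∩ (Set.Ico z.1 (z.1 + R) ×ˢ Set.Ico z.2 (z.2 + R))).ncard : ℝ) / R ^ 2)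
      Filter.atTop = ((n : ℝ) + 1) / (n : ℝ) →
    ¬ ∃ A B : ℝ, 0 < A ∧ 0 < B ∧ ∀ f : ℝ → ℂ, MemLp f 2 volume →
      Summable (fun γ : Γ => ‖∫ t : ℝ, f t * (starRingEnd ℂ)
          (Complex.exp (2 * (Real.pi : ℂ) * Complex.I * (((γ : ℝ × ℝ).2 : ℝ) : ℂ) * (t : ℂ))
            * g (t - (γ : ℝ × ℝ).1))‖ ^ 2) ∧
      A * (∫ t : ℝ, ‖f t‖ ^ 2) ≤ (∑' γ : Γ, ‖∫ t : ℝ, f t * (starRingEnd ℂ)
          (Complex.exp (2 * (Real.pi : ℂ) * Complex.I * (((γ : ℝ × ℝ).2 : ℝ) : ℂ) * (t : ℂ))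
            * g (t - (γ : ℝ × ℝ).1))‖ ^ 2) ∧
      (∑' γ : Γ, ‖∫ t : ℝ, f t * (starRingEnd ℂ)
          (Complex.exp (2 * (Real.pi : ℂ) * Complex.I * (((γ : ℝ × ℝ).2 : ℝ) : ℂ) * (t : ℂ))
            * g (t - (γ : ℝ × ℝ).1))‖ ^ 2) ≤ B * (∫ t : ℝ, ‖f t‖ ^ 2)) := by
  intro H
  refine H 1 le_rfl Pool.Agent.H321R3.Painless.g (memLp_g 2) (memLp_one_iff_integrable.1 (memLp_g 1))
    integrable_V g_odd Γ ⟨8, fun z => ⟨Γ_finite z 1, ?_⟩⟩ ?_ ?_
  · have := Γ_le z 1 (by norm_num)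
    have h2 : ((Γ ∩ (Ico z.1 (z.1 + 1) ×ˢ Ico z.2 (z.2 + 1))).ncard : ℝ) ≤ (8 : ℕ) := by
      refine this.trans ?_
      norm_num
    exact_mod_cast h2
  · rw [liminf_eq]
    norm_num
  · refine ⟨1/4, 1, by norm_num, by norm_num, fun f hf => ?_⟩
    have h := hasSum_Γ f hf
    have hI : Integrable (fun t => ‖f t‖ ^ 2) volume := hf.integrable_norm_pow (by norm_num)
    have e : (∫ t, ‖f t‖ ^ 2 * Real.sin (2 * Real.pi * (t - 0)) ^ 6) +
        (∫ t, ‖f t‖ ^ 2 * Real.sin (2 * Real.pi * (t - 1/4)) ^ 6) =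
        ∫ t, ‖f t‖ ^ 2 * (Real.sin (2 * Real.pi * (t - 0)) ^ 6 +
          Real.sin (2 * Real.pi * (t - 1/4)) ^ 6) := by
      rw [← integral_add (integrable_sq f hf 0) (integrable_sq f hf (1/4))]
      refine integral_congr_ae (ae_of_all _ fun t => ?_)
      simp only
      ring
    have hI2 : Integrable (fun t => ‖f t‖ ^ 2 * (Real.sin (2 * Real.pi * (t - 0)) ^ 6 +
          Real.sin (2 * Real.pi * (t - 1/4)) ^ 6)) volume := by
      refine ((integrable_sq f hf 0).add (integrable_sq f hf (1/4))).congr (ae_of_all _ fun t => ?_)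
      simp only [Pi.add_apply]
      ring
    rw [e] at h
    refine ⟨h.summable, ?_, ?_⟩
    · refine le_trans ?_ (le_of_eq h.tsum_eq.symm)
      rw [← integral_const_mul]
      refine integral_mono (hI.const_mul _) hI2 fun t => ?_
      simp only
      rw [mul_comm]
      exact mul_le_mul_of_nonneg_left (sin_cos_six t).1 (by positivity)
    · refine le_trans (le_of_eq h.tsum_eq) ?_
      rw [one_mul]
      refine integral_mono hI2 hI fun t => ?_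
      simp only
      exact mul_le_of_le_one_right (by positivity) (sin_cos_six t).2

end Pool.Agent.S04474
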