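import Pool.Statements.S04475
import Pool.Agent.H903R3.Main

set_option autoImplicit false
open MeasureTheory Filter Topology
open Pool Pool.MP_41f86e_an

namespace Pool.Agent.S04475

/-- For every n ≥ 2 there is a holomorphic f on the Euclidean unit ball of ℂⁿ such that, for almost every direction ζ on the unit sphere, ∣f(rζ)∣ tends to infinity as real r increases to 1. -/
theorem result :
    ∀ n : ℕ, 2 ≤ n →
      ∃ f : (Fin n → ℂ) → ℂ,
        DifferentiableOn ℂ f {z : Fin n → ℂ | ∑ j, ‖z j‖ ^ 2 < 1} ∧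
        ∀ᵐ z ∂(volume : Measure (Fin n → ℂ)),
          Tendsto
            (fun r : ℝ => ‖f (((r / Real.sqrt (∑ j, ‖z j‖ ^ 2) : ℝ) : ℂ) • z)‖)
            (𝓝[<] (1 : ℝ)) atTop := by
  intro n hn
  obtain ⟨G, hG, hlim⟩ := Pool.Agent.H903R3.main n
  refine ⟨fun z => Complex.exp (G z), ?_, ?_⟩
  · exact hG.cexp
  · have hn0 : Nonempty (Fin n) := ⟨⟨0, by omega⟩⟩
    have hz0 : ∀ᵐ z ∂(volume : Measure (Fin n → ℂ)), z ≠ 0 :=
      MeasureTheory.Measure.ae_ne _ (0 : Fin n → ℂ)
    filter_upwards [hlim, hz0] with z hz hz0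
    have h := hz hz0
    have h2 := Real.tendsto_exp_atTop.comp h
    refine h2.congr (fun r => ?_)
    simp only [Function.comp_apply, Complex.norm_exp]

end Pool.Agent.S04475
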