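import Pool.Statements.S04478
import Pool.Agent.H914R3.Maps

set_option autoImplicit false
open scoped ContDiff
open Pool Pool.MP_420470_an

namespace Pool.Agent.S04478

/-- The negation of the preceding statement: For strongly pseudoconvex Ω in ℂⁿ (n≥2) and Ω' in ℂᴺ, every proper holomorphic map Ω→Ω' smooth up to the boundary, at any point of the closure, is determined among such maps by its k-jet there for some k. -/
theorem result :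
    ¬ (∀ (n N : ℕ), 2 ≤ n → 1 ≤ N →
  ∀ (Ω : Set (Fin n → ℂ)) (Ω' : Set (Fin N → ℂ)),
  (IsOpen Ω ∧ IsConnected Ω ∧ Bornology.IsBounded Ω ∧
    ∃ ρ : (Fin n → ℂ) → ℝ, ContDiff ℝ ∞ ρ ∧ Ω = {z | ρ z < 0} ∧
      ∀ z ∈ frontier Ω, fderiv ℝ ρ z ≠ 0 ∧
        ∀ v : Fin n → ℂ, v ≠ 0 → fderiv ℝ ρ z v = 0 →
          fderiv ℝ ρ z (Complex.I • v) = 0 →
          0 < fderiv ℝ (fderiv ℝ ρ) z v v
              + fderiv ℝ (fderiv ℝ ρ) z (Complex.I • v) (Complex.I • v)) →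
  (IsOpen Ω' ∧ IsConnected Ω' ∧ Bornology.IsBounded Ω' ∧
    ∃ ρ : (Fin N → ℂ) → ℝ, ContDiff ℝ ∞ ρ ∧ Ω' = {z | ρ z < 0} ∧
      ∀ z ∈ frontier Ω', fderiv ℝ ρ z ≠ 0 ∧
        ∀ v : Fin N → ℂ, v ≠ 0 → fderiv ℝ ρ z v = 0 →
          fderiv ℝ ρ z (Complex.I • v) = 0 →
          0 < fderiv ℝ (fderiv ℝ ρ) z v v
              + fderiv ℝ (fderiv ℝ ρ) z (Complex.I • v) (Complex.I • v)) →
  ∀ f : (Fin n → ℂ) → (Fin N → ℂ), ContDiff ℝ ∞ f → DifferentiableOn ℂ f Ω →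
    Set.MapsTo f Ω Ω' →
    (∀ K : Set (Fin N → ℂ), IsCompact K → K ⊆ Ω' → IsCompact (Ω ∩ f ⁻¹' K)) →
  ∀ p ∈ closure Ω, ∃ k : ℕ,
    ∀ g : (Fin n → ℂ) → (Fin N → ℂ), ContDiff ℝ ∞ g → DifferentiableOn ℂ g Ω →
      Set.MapsTo g Ω Ω' →
      (∀ K : Set (Fin N → ℂ), IsCompact K → K ⊆ Ω' → IsCompact (Ω ∩ g ⁻¹' K)) →
      (∀ m : ℕ, m ≤ k → iteratedFDeriv ℝ m g p = iteratedFDeriv ℝ m f p) →
      Set.EqOn g f Ω) := by
  intro hall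
  obtain ⟨H, h1, h2, h3, h4, h5⟩ := Pool.Agent.H914R3.Maps.exists_small
  have hd2 := Pool.Agent.H914R3.Dom.dom Pool.Agent.H914R3.Maps.c2
    (Pool.Agent.H914R3.Maps.small_zero (m := 2))
  have hd3 := Pool.Agent.H914R3.Dom.dom Pool.Agent.H914R3.Maps.c3
    (Pool.Agent.H914R3.Maps.small_of (0 : Fin 3) h1 h5)
  have hmaps : ∀ s : ℝ, s ^ 2 = 1 → Set.MapsTo (Pool.Agent.H914R3.Maps.F H s)
      {w | Pool.Agent.H914R3.Dom.rho Pool.Agent.H914R3.Maps.c2 (fun _ => 0) w < 0}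
      {w | Pool.Agent.H914R3.Dom.rho Pool.Agent.H914R3.Maps.c3 (fun w => ‖H (w 0)‖ ^ 2) w < 0} := by
    intro s hs z hz
    show Pool.Agent.H914R3.Dom.rho Pool.Agent.H914R3.Maps.c3 (fun w => ‖H (w 0)‖ ^ 2)
      (Pool.Agent.H914R3.Maps.F H s z) < 0
    rw [Pool.Agent.H914R3.Maps.rho_F H hs]
    exact hz
  have e1 : (1:ℝ) ^ 2 = 1 := by norm_num
  have e2 : (-1:ℝ) ^ 2 = 1 := by norm_num
  obtain ⟨k, hk⟩ := hall 2 3 le_rfl (by norm_num) _ _ hd2 hd3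
    (Pool.Agent.H914R3.Maps.F H 1) (Pool.Agent.H914R3.Maps.F_smooth h1 1)
    (Pool.Agent.H914R3.Maps.F_diff h2 1) (hmaps 1 e1)
    (fun K hK hK2 => Pool.Agent.H914R3.Maps.F_proper h1 e1 K hK hK2 hd2.2.2.1)
    0 Pool.Agent.H914R3.Maps.zero_mem_closure
  have heq := hk (Pool.Agent.H914R3.Maps.F H (-1)) (Pool.Agent.H914R3.Maps.F_smooth h1 (-1))
    (Pool.Agent.H914R3.Maps.F_diff h2 (-1)) (hmaps (-1) e2)
    (fun K hK hK2 => Pool.Agent.H914R3.Maps.F_proper h1 e2 K hK hK2 hd2.2.2.1)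
    (fun m _ => Pool.Agent.H914R3.Maps.F_jet h1 h4 m)
  have hc : Pool.Agent.H914R3.Maps.c2 ∈
      {w | Pool.Agent.H914R3.Dom.rho Pool.Agent.H914R3.Maps.c2 (fun _ => 0) w < 0} := by
    show Pool.Agent.H914R3.Dom.rho Pool.Agent.H914R3.Maps.c2 (fun _ => 0)
      Pool.Agent.H914R3.Maps.c2 < 0
    simp [Pool.Agent.H914R3.Dom.rho]
  have h6 := congrFun (heq hc) 2
  simp only [Pool.Agent.H914R3.Maps.F, Pool.Agent.H914R3.Maps.c2, Matrix.cons_val,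
    Matrix.cons_val_zero, neg_smul, one_smul] at h6
  have h7 : (2:ℂ) * H 1 = 0 := by linear_combination -h6
  rcases mul_eq_zero.1 h7 with h | h
  · norm_num at h
  · exact h3 h

end Pool.Agent.S04478
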