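import Pool.Statements.S04488
import Pool.Agent.H98R3.BA.Baire

set_option autoImplicit false
open MeasureTheory
open Pool Pool.MP_42c941_an

namespace Pool.Agent.S04488

/-- The negation of the preceding statement: For every finitely generated group with Følner sets, comeager many continuous actions on Cantor space have the set of ergodic invariant probability measures closed in the space of invariant probability measures (weak topology). -/
theorem result :
    ¬ (∀ (Γ : Type) [Group Γ], Group.FG Γ →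
    (∀ (F : Finset Γ) (ε : ℝ), 0 < ε → ∃ S : Finset Γ, S.Nonempty ∧
        ∀ g ∈ F, ((((fun x => g * x) '' (S : Set Γ)) \ (S : Set Γ)).ncard : ℝ) < ε * (S.card : ℝ)) →
    {a : {a : Γ → C(ℕ → Bool, ℕ → Bool) //
          a 1 = ContinuousMap.id (ℕ → Bool) ∧ ∀ g h : Γ, a (g * h) = (a g).comp (a h)} |
      IsClosed {ν : {μ : ProbabilityMeasure (ℕ → Bool) //
                  ∀ g : Γ, (μ : Measure (ℕ → Bool)).map (⇑(a.1 g)) = (μ : Measure (ℕ → Bool))} |
        ∀ s : Set (ℕ → Bool), MeasurableSet s → (∀ g : Γ, ⇑(a.1 g) ⁻¹' s = s) →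
          (ν.1 : Measure (ℕ → Bool)) s = 0 ∨ (ν.1 : Measure (ℕ → Bool)) s = 1}} ∈ residual _) := by
  intro H
  have h := H Pool.Agent.H98R3.BA.G2 inferInstance Pool.Agent.H98R3.BA.folner
  have hd := dense_of_mem_residual h
  obtain ⟨a, haU, hac⟩ := hd.inter_open_nonempty _ Pool.Agent.H98R3.BA.SS.isOpen_U
    ⟨Pool.Agent.H98R3.BA.aa, Pool.Agent.H98R3.BA.aa_mem⟩
  exact Pool.Agent.H98R3.BA.not_closed haU hac

end Pool.Agent.S04488
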