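import Pool.Statements.S04492
-- import your own Pool.Agent.* helpers here
import Pool.Agent.H400R3.Roe.Rigid2
import Pool.Agent.H400R3.Roe.Phi

set_option autoImplicit false
open scoped Classical
open Pool Pool.MP_42dd51_an

namespace Pool.Agent.S04492

open Pool.Agent.H400R3.Roe in
theorem fp_iff {N : ℕ → ℕ} {H : ℕ → ℕ → ℕ} [MetricSpace (Pt N H)]
    (hdist : ∀ x y : Pt N H, dist x y = (D t x y : ℝ))
    (T : lp (fun _ : Pt N H => ℂ) 2 →L[ℂ] lp (fun _ : Pt N H => ℂ) 2) :
    (∃ r : ℝ, ∀ x x' : Pt N H, r < dist x x' →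
      inner ℂ (lp.single 2 x (1 : ℂ) : lp (fun _ : Pt N H => ℂ) 2)
        (T (lp.single 2 x' (1 : ℂ) : lp (fun _ : Pt N H => ℂ) 2)) = 0) ↔ FP T := by
  constructor
  · rintro ⟨r, hr⟩
    refine ⟨⌈r⌉₊, fun x x' h => ?_⟩
    have h1 := hr x' x (by
      rw [hdist, D_comm]
      exact lt_of_le_of_lt (Nat.le_ceil r) (by exact_mod_cast h))
    rwa [inner_dl] at h1
  · rintro ⟨r, hr⟩
    refine ⟨r, fun x x' h => ?_⟩
    rw [inner_dl]
    apply hr
    rw [hdist, D_comm] at h
    exact_mod_cast h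

open Pool.Agent.H400R3.Roe in
theorem ulf' {N : ℕ → ℕ} {H : ℕ → ℕ → ℕ} [MetricSpace (Pt N H)]
    (hdist : ∀ x y : Pt N H, dist x y = (D t x y : ℝ)) (r : ℝ) :
    ∃ M : ℕ, ∀ x : Pt N H, (Metric.closedBall x r).encard ≤ (M : ℕ∞) := by
  refine ⟨(4 * ⌈r⌉₊ + 1) * (3 * ⌈r⌉₊ + 2) + (⌈r⌉₊ + 1) * ((4 * ⌈r⌉₊ + 1) * (⌈r⌉₊ + 1)),
    fun x => ?_⟩
  have hsub : Metric.closedBall x r ⊆ {q : Pt N H | D t x q ≤ ⌈r⌉₊} := by
    intro q hq
    rw [Metric.mem_closedBall, dist_comm, hdist] at hq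
    have h2 : (D t x q : ℝ) ≤ ⌈r⌉₊ := hq.trans (Nat.le_ceil r)
    exact_mod_cast h2
  obtain ⟨h1, h2⟩ := ulf (N := N) (H := H) (Θ := t) le_t ⌈r⌉₊ x
  exact Set.encard_le_coe_iff_finite_ncard_le.2
    ⟨h1.subset hsub, (Set.ncard_le_ncard hsub h1).trans h2⟩

/-- The negation of the preceding statement: For all uniformly locally finite metric spaces X, Y, if the uniform Roe algebra of X embeds into that of Y via an injective (not necessarily unital) *-homomorphism, then there is a coarse map X → Y whose fibers have uniformly bounded size. -/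
theorem result :
    ¬ (∀ (X Y : Type) [MetricSpace X] [MetricSpace Y],
      (∀ r : ℝ, 0 < r → ∃ N : ℕ, ∀ x : X, (Metric.closedBall x r).encard ≤ (N : ℕ∞)) →
      (∀ r : ℝ, 0 < r → ∃ N : ℕ, ∀ y : Y, (Metric.closedBall y r).encard ≤ (N : ℕ∞)) →
      (∃ φ : ↥((StarAlgebra.adjoin ℂ
                {a : lp (fun _ : X => ℂ) 2 →L[ℂ] lp (fun _ : X => ℂ) 2 |
                  ∃ r : ℝ, ∀ x x' : X, r < dist x x' →
                    inner ℂ (lp.single 2 x (1 : ℂ) : lp (fun _ : X => ℂ) 2)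
                      (a (lp.single 2 x' (1 : ℂ) : lp (fun _ : X => ℂ) 2)) = 0}).topologicalClosure)
            →⋆ₙₐ[ℂ]
            ↥((StarAlgebra.adjoin ℂ
                {b : lp (fun _ : Y => ℂ) 2 →L[ℂ] lp (fun _ : Y => ℂ) 2 |
                  ∃ r : ℝ, ∀ y y' : Y, r < dist y y' →
                    inner ℂ (lp.single 2 y (1 : ℂ) : lp (fun _ : Y => ℂ) 2)
                      (b (lp.single 2 y' (1 : ℂ) : lp (fun _ : Y => ℂ) 2)) = 0}).topologicalClosure),
          Function.Injective φ) →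
      ∃ f : X → Y,
        (∀ r : ℝ, 0 < r → ∃ s : ℝ, 0 < s ∧
            ∀ x x' : X, dist x x' ≤ r → dist (f x) (f x') ≤ s) ∧
        ∃ N : ℕ, ∀ y : Y, (f ⁻¹' {y}).encard ≤ (N : ℕ∞)) := by
  intro hall
  let iX : MetricSpace Pool.Agent.H400R3.Roe.XX :=
    Pool.Agent.H400R3.Roe.metric _ _ _ Pool.Agent.H400R3.Roe.le_t
  let iY : MetricSpace Pool.Agent.H400R3.Roe.YY :=
    Pool.Agent.H400R3.Roe.metric _ _ _ Pool.Agent.H400R3.Roe.le_t
  have dX : ∀ x y : Pool.Agent.H400R3.Roe.XX,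
      dist x y = (Pool.Agent.H400R3.Roe.D Pool.Agent.H400R3.Roe.t x y : ℝ) := fun x y => rfl
  have dY : ∀ x y : Pool.Agent.H400R3.Roe.YY,
      dist x y = (Pool.Agent.H400R3.Roe.D Pool.Agent.H400R3.Roe.t x y : ℝ) := fun x y => rfl
  obtain ⟨Φ, hadd, hsmul, hmul, hstar, hinj, hone, hcont, -, happ⟩ :=
    Pool.Agent.H400R3.Roe.main
  obtain ⟨f, hf, M, hM⟩ := hall Pool.Agent.H400R3.Roe.XX Pool.Agent.H400R3.Roe.YY
    (fun r _ => ulf' dX r) (fun r _ => ulf' dY r) (by
      have hmem : ∀ a ∈ (StarAlgebra.adjoin ℂ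
          {a : lp (fun _ : Pool.Agent.H400R3.Roe.XX => ℂ) 2 →L[ℂ]
              lp (fun _ : Pool.Agent.H400R3.Roe.XX => ℂ) 2 |
            ∃ r : ℝ, ∀ x x' : Pool.Agent.H400R3.Roe.XX, r < dist x x' →
              inner ℂ (lp.single 2 x (1 : ℂ) : lp (fun _ : Pool.Agent.H400R3.Roe.XX => ℂ) 2)
                (a (lp.single 2 x' (1 : ℂ) : lp (fun _ : Pool.Agent.H400R3.Roe.XX => ℂ) 2)) =
                  0}).topologicalClosure,
          Φ a ∈ (StarAlgebra.adjoin ℂ
          {b : lp (fun _ : Pool.Agent.H400R3.Roe.YY => ℂ) 2 →L[ℂ]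
              lp (fun _ : Pool.Agent.H400R3.Roe.YY => ℂ) 2 |
            ∃ r : ℝ, ∀ y y' : Pool.Agent.H400R3.Roe.YY, r < dist y y' →
              inner ℂ (lp.single 2 y (1 : ℂ) : lp (fun _ : Pool.Agent.H400R3.Roe.YY => ℂ) 2)
                (b (lp.single 2 y' (1 : ℂ) : lp (fun _ : Pool.Agent.H400R3.Roe.YY => ℂ) 2)) =
                  0}).topologicalClosure := by
        intro a ha
        have hcl := StarSubalgebra.isClosed_topologicalClosure (StarAlgebra.adjoin ℂ
          {b : lp (fun _ : Pool.Agent.H400R3.Roe.YY => ℂ) 2 →L[ℂ]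
              lp (fun _ : Pool.Agent.H400R3.Roe.YY => ℂ) 2 |
            ∃ r : ℝ, ∀ y y' : Pool.Agent.H400R3.Roe.YY, r < dist y y' →
              inner ℂ (lp.single 2 y (1 : ℂ) : lp (fun _ : Pool.Agent.H400R3.Roe.YY => ℂ) 2)
                (b (lp.single 2 y' (1 : ℂ) : lp (fun _ : Pool.Agent.H400R3.Roe.YY => ℂ) 2)) =
                  0})
        set B := (StarAlgebra.adjoin ℂ
          {b : lp (fun _ : Pool.Agent.H400R3.Roe.YY => ℂ) 2 →L[ℂ]
              lp (fun _ : Pool.Agent.H400R3.Roe.YY => ℂ) 2 |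
            ∃ r : ℝ, ∀ y y' : Pool.Agent.H400R3.Roe.YY, r < dist y y' →
              inner ℂ (lp.single 2 y (1 : ℂ) : lp (fun _ : Pool.Agent.H400R3.Roe.YY => ℂ) 2)
                (b (lp.single 2 y' (1 : ℂ) : lp (fun _ : Pool.Agent.H400R3.Roe.YY => ℂ) 2)) =
                  0}) with hB
        have h1 : a ∈ closure ((StarAlgebra.adjoin ℂ
          {a : lp (fun _ : Pool.Agent.H400R3.Roe.XX => ℂ) 2 →L[ℂ]
              lp (fun _ : Pool.Agent.H400R3.Roe.XX => ℂ) 2 |
            ∃ r : ℝ, ∀ x x' : Pool.Agent.H400R3.Roe.XX, r < dist x x' →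
              inner ℂ (lp.single 2 x (1 : ℂ) : lp (fun _ : Pool.Agent.H400R3.Roe.XX => ℂ) 2)
                (a (lp.single 2 x' (1 : ℂ) : lp (fun _ : Pool.Agent.H400R3.Roe.XX => ℂ) 2)) =
                  0} : StarSubalgebra ℂ _) : Set (lp (fun _ : Pool.Agent.H400R3.Roe.XX => ℂ) 2 →L[ℂ]
              lp (fun _ : Pool.Agent.H400R3.Roe.XX => ℂ) 2)) := ha
        have h2 : Φ a ∈ closure (B.topologicalClosure : Set (lp (fun _ : Pool.Agent.H400R3.Roe.YY => ℂ) 2 →L[ℂ]
              lp (fun _ : Pool.Agent.H400R3.Roe.YY => ℂ) 2)) := by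
          refine map_mem_closure hcont h1 ?_
          intro T hT
          have hT' : T ∈ StarAlgebra.adjoin ℂ
            {a : lp (fun _ : Pool.Agent.H400R3.Roe.XX => ℂ) 2 →L[ℂ]
                lp (fun _ : Pool.Agent.H400R3.Roe.XX => ℂ) 2 |
              ∃ r : ℝ, ∀ x x' : Pool.Agent.H400R3.Roe.XX, r < dist x x' →
                inner ℂ (lp.single 2 x (1 : ℂ) : lp (fun _ : Pool.Agent.H400R3.Roe.XX => ℂ) 2)
                  (a (lp.single 2 x' (1 : ℂ) : lp (fun _ : Pool.Agent.H400R3.Roe.XX => ℂ) 2)) =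
                    0} := hT
          show Φ T ∈ B.topologicalClosure
          clear hT
          induction hT' using StarAlgebra.adjoin_induction with
          | mem T hT =>
            show Φ T ∈ closure (B : Set _)
            rw [Metric.mem_closure_iff]
            intro ε hε
            obtain ⟨S, hS1, hS2⟩ := happ T ((fp_iff dX T).1 hT) ε hε
            exact ⟨S, StarAlgebra.subset_adjoin ℂ _ ((fp_iff dY S).2 hS1), by
              rw [dist_eq_norm]; exact hS2⟩
          | algebraMap c =>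
            rw [Algebra.algebraMap_eq_smul_one, hsmul, hone]
            exact B.topologicalClosure.smul_mem (one_mem _) c
          | add T S _ _ h1 h2 =>
            rw [hadd]
            exact add_mem h1 h2
          | mul T S _ _ h1 h2 =>
            rw [hmul]
            exact mul_mem h1 h2
          | star T _ h1 =>
            rw [hstar]
            exact star_mem h1
        rw [hcl.closure_eq] at h2
        exact h2
      refine ⟨
        { toFun := fun a => ⟨Φ a, hmem a a.2⟩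
          map_smul' := fun c a => Subtype.ext (hsmul c a)
          map_zero' := Subtype.ext (by
            have := hsmul 0 0
            simpa using this)
          map_add' := fun a b => Subtype.ext (hadd a b)
          map_mul' := fun a b => Subtype.ext (hmul a b)
          map_star' := fun a => Subtype.ext (hstar a) }, ?_⟩
      intro a b hab
      apply Subtype.ext
      apply hinj
      exact congrArg Subtype.val hab)
  obtain ⟨s, -, hs⟩ := hf 1 one_pos
  refine Pool.Agent.H400R3.Roe.no_map f ⌈s⌉₊ ?_ (M := M)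
    (fun y => Set.encard_le_coe_iff_finite_ncard_le.1 (hM y))
  intro x x' h
  have h1 := hs x x' (by rw [dX]; exact_mod_cast h)
  rw [dY] at h1
  have h2 := h1.trans (Nat.le_ceil s)
  exact_mod_cast h2

end Pool.Agent.S04492
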