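import Pool.Statements.S04498
import Pool.Agent.H197R3.NotVI

set_option autoImplicit false
open Pool Pool.MP_434e52_an

namespace Pool.Agent.S04498

/-- The negation of the preceding statement: For countable groups G, H: if G has a finite Kazhdan pair (property (T)) and the commutants of the right regular representations on ℓ² (i.e. L(G), L(H)) are *-isomorphic, then G and H are virtually isomorphic. -/
theorem result :
    ¬ (∀ (G H : Type) [Group G] [Countable G] [Group H] [Countable H],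
    (∃ S : Finset G, ∃ ε : ℝ, 0 < ε ∧
      ∀ (E : Type) [NormedAddCommGroup E] [InnerProductSpace ℂ E] [CompleteSpace E]
        (π : G →* (E →L[ℂ] E)),
        (∀ g : G, π g ∈ unitary (E →L[ℂ] E)) →
        (∃ v : E, ‖v‖ = 1 ∧ ∀ s ∈ S, ‖(π s) v - v‖ < ε) →
        ∃ w : E, w ≠ 0 ∧ ∀ g : G, (π g) w = w) →
    ∀ (A : Set (lp (fun _ : G => ℂ) 2 →L[ℂ] lp (fun _ : G => ℂ) 2))
      (B : Set (lp (fun _ : H => ℂ) 2 →L[ℂ] lp (fun _ : H => ℂ) 2)),
      A = {T | ∀ g : G, ∀ f f' : lp (fun _ : G => ℂ) 2,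
              (∀ x : G, f' x = f (x * g)) → ∀ x : G, (T f') x = (T f) (x * g)} →
      B = {T | ∀ h : H, ∀ f f' : lp (fun _ : H => ℂ) 2,
              (∀ x : H, f' x = f (x * h)) → ∀ x : H, (T f') x = (T f) (x * h)} →
      (∃ Φ : (lp (fun _ : G => ℂ) 2 →L[ℂ] lp (fun _ : G => ℂ) 2) →
              (lp (fun _ : H => ℂ) 2 →L[ℂ] lp (fun _ : H => ℂ) 2),
        Set.BijOn Φ A B ∧
        ∀ x ∈ A, ∀ y ∈ A,
          Φ (x + y) = Φ x + Φ y ∧ Φ (x * y) = Φ x * Φ y ∧
          Φ (star x) = star (Φ x) ∧ ∀ c : ℂ, Φ (c • x) = c • Φ x) →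
      ∃ (F : Subgroup G) (K : Subgroup H) (_ : F.Normal) (_ : K.Normal),
        Finite F ∧ Finite K ∧
        ∃ (G₀ : Subgroup (G ⧸ F)) (H₀ : Subgroup (H ⧸ K)),
          G₀.index ≠ 0 ∧ H₀.index ≠ 0 ∧ Nonempty (G₀ ≃* H₀)) := by
  intro hmain
  have : CharP (GaloisField 2 3) 2 := inferInstance
  have : Finite (GaloisField 2 3) := inferInstance
  have hcard : Nat.card (GaloisField 2 3) = 8 := by
    rw [GaloisField.card 2 3 (by norm_num)]; norm_num
  have : Fintype (GaloisField 2 3) := Fintype.ofFinite _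
  have hk : 7 ≤ Fintype.card (GaloisField 2 3) := by
    rw [← Nat.card_eq_fintype_card, hcard]; norm_num
  obtain ⟨F, K, hFn, hKn, hF, hK, G₀, H₀, hG, hH, ⟨e⟩⟩ :=
    hmain (H197R3.Gr1 (GaloisField 2 3)) (H197R3.Gr2 (GaloisField 2 3))
      (H197R3.T_of_data hk (H197R3.theTData (GaloisField 2 3)))
      _ _ rfl rfl
      (H197R3.vn_iso (H197R3.theTwist (H197R3.VA (GaloisField 2 3))
        (H197R3.Lam (GaloisField 2 3))) _ _ rfl rfl)
  exact H197R3.not_vi hcard F K hF hK G₀ H₀ hG hH e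

end Pool.Agent.S04498
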