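import Pool.Statements.S04503
import Pool.Agent.H352R4.CA.End

set_option autoImplicit false
open Filter Topology
open scoped ENNReal NNReal
open Pool Pool.MP_437602_an

namespace Pool.Agent.S04503

open Pool.Agent.H352R4.CA in
theorem alpha_eq (α : Set ℂ → ℝ≥0∞)
    (hα : ∀ S : Set ℂ, α S =
        ⨆ (F : Set ℂ) (_ : IsCompact F) (_ : F ⊆ S) (f : ℂ → ℂ) (c : ℂ)
          (_ : Continuous f ∧ DifferentiableOn ℂ f Fᶜ ∧ (∀ z, ‖f z‖ ≤ 1) ∧
                Tendsto f (cocompact ℂ) (𝓝 0) ∧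
                Tendsto (fun z => z * f z) (cocompact ℂ) (𝓝 c)),
          ((‖c‖₊ : ℝ≥0) : ℝ≥0∞)) (S : Set ℂ) :
    α S = ⨆ (F : Set ℂ) (_ : IsCompact F) (_ : F ⊆ S), ENNReal.ofReal (alpha F) := by
  rw [hα S]
  apply le_antisymm
  · refine iSup_le fun F => iSup_le fun hF => iSup_le fun hFS => iSup_le fun f => iSup_le fun c =>
      iSup_le fun h => ?_
    obtain ⟨h1, h2, h3, h4, h5⟩ := h
    refine le_iSup_of_le F (le_iSup_of_le hF (le_iSup_of_le hFS ?_))
    have h6 : ‖c‖ ≤ alpha F := le_alpha hF ⟨h1, h2, h5⟩ h3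
    calc ((‖c‖₊ : ℝ≥0) : ℝ≥0∞) = ENNReal.ofReal ‖c‖ := by
          rw [ofReal_norm]; rfl
      _ ≤ ENNReal.ofReal (alpha F) := ENNReal.ofReal_le_ofReal h6
  · refine iSup_le fun F => iSup_le fun hF => iSup_le fun hFS => ?_
    refine le_iSup_of_le F (le_iSup_of_le hF (le_iSup_of_le hFS ?_))
    refine le_of_forall_lt fun b hb => ?_
    have hbtop : b ≠ ⊤ := ne_top_of_lt hb
    rw [ENNReal.lt_ofReal_iff_toReal_lt hbtop] at hb
    rcases Set.eq_empty_or_nonempty {c : ℝ | ∃ h l, Ac F h l ∧ (∀ z, ‖h z‖ ≤ 1) ∧ c = ‖l‖} with he | hne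
    · exfalso
      have h0 : alpha F = 0 := by
        unfold alpha
        rw [he, Real.sSup_empty]
      rw [h0] at hb
      exact absurd hb (not_lt.2 ENNReal.toReal_nonneg)
    · obtain ⟨c, ⟨f, l, hf, hf1, rfl⟩, hc⟩ := exists_lt_of_lt_csSup hne hb
      refine lt_of_lt_of_le ?_ (le_iSup_of_le f (le_iSup_of_le l (le_iSup_of_le
        ⟨hf.cont, hf.hol, hf1, hf.zero, hf.lim⟩ le_rfl)))
      have : b < ENNReal.ofReal ‖l‖ := by
        rw [ENNReal.lt_ofReal_iff_toReal_lt hbtop]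
        exact hc
      rwa [ofReal_norm] at this

/-- For the (uniquely determined) continuous analytic capacity α(S)=sup over compact F⊆S and continuous f on ℂ, holomorphic off F, ∣f∣≤1, f(∞)=0, of ∣lim z f(z)∣: for compact K,E with α(K)=0, α(E\K)=α(E). -/
theorem result :
    ∀ α : Set ℂ → ℝ≥0∞,
      (∀ S : Set ℂ, α S =
        ⨆ (F : Set ℂ) (_ : IsCompact F) (_ : F ⊆ S) (f : ℂ → ℂ) (c : ℂ)
          (_ : Continuous f ∧ DifferentiableOn ℂ f Fᶜ ∧ (∀ z, ‖f z‖ ≤ 1) ∧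
                Tendsto f (cocompact ℂ) (𝓝 0) ∧
                Tendsto (fun z => z * f z) (cocompact ℂ) (𝓝 c)),
          ((‖c‖₊ : ℝ≥0) : ℝ≥0∞)) →
      ∀ K E : Set ℂ, IsCompact K → IsCompact E → α K = 0 → α (E \ K) = α E := by
  intro α hα K E hK hE h0
  have key := alpha_eq α hα
  have h0' : Pool.Agent.H352R4.CA.alpha K = 0 := by
    rw [key K] at h0
    have h1 : ENNReal.ofReal (Pool.Agent.H352R4.CA.alpha K) ≤ 0 := by
      rw [← h0]
      exact le_iSup_of_le K (le_iSup_of_le hK (le_iSup_of_le subset_rfl le_rfl))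
    exact le_antisymm (ENNReal.ofReal_eq_zero.1 (le_antisymm h1 bot_le))
      (Pool.Agent.H352R4.CA.alpha_nonneg K)
  have hrem := Pool.Agent.H352R4.CA.alpha_remove hE hK h0'
  have hEα : α E = ENNReal.ofReal (Pool.Agent.H352R4.CA.alpha E) := by
    rw [key E]
    apply le_antisymm
    · refine iSup_le fun F => iSup_le fun hF => iSup_le fun hFS => ?_
      exact ENNReal.ofReal_le_ofReal (Pool.Agent.H352R4.CA.alpha_mono hE hFS)
    · exact le_iSup_of_le E (le_iSup_of_le hE (le_iSup_of_le subset_rfl le_rfl))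
  apply le_antisymm
  · rw [key, key]
    refine iSup_le fun F => iSup_le fun hF => iSup_le fun hFS => ?_
    exact le_iSup_of_le F (le_iSup_of_le hF (le_iSup_of_le (hFS.trans Set.sdiff_subset) le_rfl))
  · rw [hEα, key, ← hrem]
    refine ENNReal.ofReal_le_of_le_toReal ?_
    have hfin : (⨆ (F : Set ℂ) (_ : IsCompact F) (_ : F ⊆ E \ K),
        ENNReal.ofReal (Pool.Agent.H352R4.CA.alpha F)) ≠ ⊤ := by
      refine ne_top_of_le_ne_top
        (b := ENNReal.ofReal (Pool.Agent.H352R4.CA.alpha E)) ENNReal.ofReal_ne_top ?_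
      refine iSup_le fun F => iSup_le fun hF => iSup_le fun hFS => ?_
      exact ENNReal.ofReal_le_ofReal
        (Pool.Agent.H352R4.CA.alpha_mono hE (hFS.trans Set.sdiff_subset))
    refine Real.sSup_le ?_ ENNReal.toReal_nonneg
    rintro c ⟨L, hL, hLE, rfl⟩
    rw [← ENNReal.toReal_ofReal (Pool.Agent.H352R4.CA.alpha_nonneg L)]
    exact ENNReal.toReal_mono hfin
      (le_iSup_of_le L (le_iSup_of_le hL (le_iSup_of_le hLE le_rfl)))

end Pool.Agent.S04503
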