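import Pool.Statements.S04518
import Pool.Agent.H319R3.RieszBM

set_option autoImplicit false
open MeasureTheory
open scoped Pointwise
open Pool Pool.MP_4442a2_an

namespace Pool.Agent.S04518

/-- The negation of the preceding statement: For N≥2, 0<α<N, with α-Riesz capacity = inverse of minimal energy ∬∣x−y∣^{α−N} over probability measures on K, Cap^{1/(N−α)} is concave under Minkowski combinations of convex bodies in ℝ^N. -/
theorem result :
    ¬ (∀ (N : ℕ) (α : ℝ), 2 ≤ N → 0 < α → α < (N : ℝ) →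
    ∀ Cap : Set (EuclideanSpace ℝ (Fin N)) → ENNReal,
      (∀ K : Set (EuclideanSpace ℝ (Fin N)),
        Cap K = (⨅ (μ : Measure (EuclideanSpace ℝ (Fin N)))
                  (_ : IsProbabilityMeasure μ) (_ : μ Kᶜ = 0),
                  ∫⁻ x, ∫⁻ y, (edist x y) ^ (α - (N : ℝ)) ∂μ ∂μ)⁻¹) →
      ∀ K₀ K₁ : Set (EuclideanSpace ℝ (Fin N)),
        IsCompact K₀ → Convex ℝ K₀ → (interior K₀).Nonempty →
        IsCompact K₁ → Convex ℝ K₁ → (interior K₁).Nonempty →
        ∀ t : ℝ, 0 ≤ t → t ≤ 1 →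
          ENNReal.ofReal t * Cap K₁ ^ (1 / ((N : ℝ) - α))
            + ENNReal.ofReal (1 - t) * Cap K₀ ^ (1 / ((N : ℝ) - α))
            ≤ Cap (t • K₁ + (1 - t) • K₀) ^ (1 / ((N : ℝ) - α))) := by
  intro H
  obtain ⟨I, -, hI⟩ := Finset.exists_subset_card_eq
    (s := (Finset.univ : Finset (Fin 2000))) (n := 1000) (by simp)
  have hIc : Iᶜ.card = 1000 := by
    rw [Finset.card_compl, hI]; simp
  have h := H 2000 (2000 - 1/2) (by norm_num) (by norm_num) (by norm_num) _ (fun K => rfl)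
    (H319R3.RieszBM.body I) (H319R3.RieszBM.body Iᶜ)
    (H319R3.RieszBM.body_compact _) (H319R3.RieszBM.body_convex _) (H319R3.RieszBM.body_interior _)
    (H319R3.RieszBM.body_compact _) (H319R3.RieszBM.body_convex _) (H319R3.RieszBM.body_interior _)
    (1/2) (by norm_num) (by norm_num)
  have e1 : (2000 - 1/2 - ((2000 : ℕ) : ℝ)) = -(1/2) := by norm_num
  have e2 : (1 / (((2000 : ℕ) : ℝ) - (2000 - 1/2))) = 2 := by norm_num
  rw [e2] at h
  simp only [e1] at h
  -- lower bounds for the two capacities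
  have hlow : ∀ J : Finset (Fin 2000), J.card = 1000 →
      (ENNReal.ofReal (47/50))⁻¹ ≤ (⨅ (μ : Measure (EuclideanSpace ℝ (Fin 2000)))
        (_ : IsProbabilityMeasure μ) (_ : μ (H319R3.RieszBM.body J)ᶜ = 0),
          ∫⁻ x, ∫⁻ y, (edist x y) ^ (-(1/2) : ℝ) ∂μ ∂μ)⁻¹ := by
    intro J hJ
    rw [ENNReal.inv_le_inv]
    refine iInf_le_of_le (H319R3.RieszBM.muI J) ?_
    refine iInf_le_of_le (H319R3.RieszBM.muI_prob J (by omega)) ?_
    refine iInf_le_of_le (H319R3.RieszBM.muI_body J) ?_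
    exact H319R3.RieszBM.energy_le J (by omega)
  -- upper bound for the capacity of the half-sum
  have hup : (⨅ (μ : Measure (EuclideanSpace ℝ (Fin 2000)))
        (_ : IsProbabilityMeasure μ) (_ : μ ((1/2 : ℝ) • H319R3.RieszBM.body Iᶜ +
          (1 - 1/2 : ℝ) • H319R3.RieszBM.body I)ᶜ = 0),
          ∫⁻ x, ∫⁻ y, (edist x y) ^ (-(1/2) : ℝ) ∂μ ∂μ)⁻¹ ≤ (ENNReal.ofReal (25/26))⁻¹ := by
    rw [ENNReal.inv_le_inv]
    refine le_iInf fun μ => le_iInf fun hμ => le_iInf fun hμ0 => ?_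
    refine H319R3.RieszBM.energy_ge (R := Real.sqrt ((27/25)^2/2)) (Real.sqrt_nonneg _) ?_ μ ?_
    · rw [Real.sq_sqrt (by norm_num)]
      norm_num
    · have : ∀ᵐ x ∂μ, x ∈ ((1/2 : ℝ) • H319R3.RieszBM.body Iᶜ +
          (1 - 1/2 : ℝ) • H319R3.RieszBM.body I) := hμ0
      filter_upwards [this] with x hx
      rw [Real.sq_sqrt (by norm_num)]
      exact H319R3.RieszBM.halfsum_bound I hx
  have h2 : ENNReal.ofReal (1/2) * ((ENNReal.ofReal (47/50))⁻¹) ^ (2 : ℝ)
      + ENNReal.ofReal (1 - 1/2) * ((ENNReal.ofReal (47/50))⁻¹) ^ (2 : ℝ)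
      ≤ ((ENNReal.ofReal (25/26))⁻¹) ^ (2 : ℝ) := by
    refine le_trans (add_le_add ?_ ?_) (h.trans ?_)
    · exact mul_le_mul le_rfl (ENNReal.rpow_le_rpow (hlow _ hIc) (by norm_num)) zero_le zero_le
    · exact mul_le_mul le_rfl (ENNReal.rpow_le_rpow (hlow _ hI) (by norm_num)) zero_le zero_le
    · exact ENNReal.rpow_le_rpow hup (by norm_num)
  rw [← ENNReal.ofReal_inv_of_pos (by norm_num), ← ENNReal.ofReal_inv_of_pos (by norm_num),
    ENNReal.ofReal_rpow_of_pos (by norm_num), ENNReal.ofReal_rpow_of_pos (by norm_num),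
    ← ENNReal.ofReal_mul (by norm_num), ← ENNReal.ofReal_mul (by norm_num),
    ← ENNReal.ofReal_add (by positivity) (by positivity),
    ENNReal.ofReal_le_ofReal_iff (by positivity)] at h2
  norm_num at h2

end Pool.Agent.S04518
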