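import Pool.Statements.S04525
import Pool.Agent.H33R3.Liouville

set_option autoImplicit false
open Pool Pool.MP_448b0d_an

namespace Pool.Agent.S04525

/-- For any three non-constant entire functions f1,f2,f3 and any entire F on C^3 that is bounded on the set where f1(z1)+f2(z2)+f3(z3)=0, F takes the same value at every point of that set. -/
theorem result :
    ∀ f₁ f₂ f₃ : ℂ → ℂ, Differentiable ℂ f₁ → Differentiable ℂ f₂ → Differentiable ℂ f₃ →
      (∃ a b : ℂ, f₁ a ≠ f₁ b) → (∃ a b : ℂ, f₂ a ≠ f₂ b) → (∃ a b : ℂ, f₃ a ≠ f₃ b) →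
      ∀ F : (Fin 3 → ℂ) → ℂ, Differentiable ℂ F →
        (∃ C : ℝ, ∀ z : Fin 3 → ℂ, f₁ (z 0) + f₂ (z 1) + f₃ (z 2) = 0 → ‖F z‖ ≤ C) →
        ∀ z w : Fin 3 → ℂ, f₁ (z 0) + f₂ (z 1) + f₃ (z 2) = 0 →
          f₁ (w 0) + f₂ (w 1) + f₃ (w 2) = 0 → F z = F w := by
  intro f₁ f₂ f₃ h₁ h₂ h₃ n₁ n₂ n₃ F hF ⟨C, hC⟩ z w hz hw
  have S : Pool.Agent.H33R3.Setup f₁ f₂ f₃ (fun x y z => F ![x, y, z]) C :=
    { hf := h₁
      hg := h₂
      hh := h₃
      nf := n₁
      ng := n₂
      nh := n₃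
      hG := by
        have h1 : Differentiable ℂ (fun p : ℂ × ℂ × ℂ => (![p.1, p.2.1, p.2.2] : Fin 3 → ℂ)) := by
          rw [differentiable_pi]
          intro i
          fin_cases i
          · change Differentiable ℂ (fun p : ℂ × ℂ × ℂ => p.1)
            fun_prop
          · change Differentiable ℂ (fun p : ℂ × ℂ × ℂ => p.2.1)
            fun_prop
          · change Differentiable ℂ (fun p : ℂ × ℂ × ℂ => p.2.2)
            fun_prop
        exact hF.comp h1
      hM := fun x y z hxyz => hC _ (by simpa using hxyz) }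
  have h := S.const hz hw
  have e1 : ![z 0, z 1, z 2] = z := by
    ext i
    fin_cases i <;> rfl
  have e2 : ![w 0, w 1, w 2] = w := by
    ext i
    fin_cases i <;> rfl
  simp only [e1, e2] at h
  exact h

end Pool.Agent.S04525
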