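import Pool.Statements.S04536
import Mathlib.Analysis.LocallyConvex.WeakSpace
import Mathlib.Topology.ContinuousMap.ZeroAtInfty

set_option autoImplicit false
open Pool Pool.MP_45d43b_an

namespace Pool.Agent.S04536

open Filter Topology

/-- Real c_0. -/
abbrev c0 := ZeroAtInftyContinuousMap ℕ ℝ

theorem coord_le (x : c0) (n : ℕ) : |x n| ≤ ‖x‖ := by
  have := x.toBCF.norm_coe_le_norm n
  simpa [ZeroAtInftyContinuousMap.norm_toBCF_eq_norm] using this

theorem norm_le_of (x : c0) (r : ℝ) (hr : 0 ≤ r) (h : ∀ n, |x n| ≤ r) : ‖x‖ ≤ r := by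
  rw [← ZeroAtInftyContinuousMap.norm_toBCF_eq_norm]
  exact (BoundedContinuousFunction.norm_le hr).2 (fun n => by simpa using h n)

theorem tendsto_coord (x : c0) : Tendsto (fun n => x n) atTop (𝓝 0) := by
  have := x.zero_at_infty'
  rwa [cocompact_eq_atTop] at this

/-- Build an element of c_0 from a null sequence. -/
def mk (u : ℕ → ℝ) (hu : Tendsto u atTop (𝓝 0)) : c0 where
  toFun := u
  continuous_toFun := continuous_of_discreteTopology
  zero_at_infty' := by rwa [cocompact_eq_atTop]

@[simp] theorem mk_apply (u : ℕ → ℝ) (hu : Tendsto u atTop (𝓝 0)) (n : ℕ) :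
    mk u hu n = u n := rfl

/-- The sequence (1 - ‖x‖, x_0, x_1, ...). -/
noncomputable def useq (x : c0) : ℕ → ℝ
  | 0 => 1 - ‖x‖
  | (n + 1) => x n

theorem useq_tendsto (x : c0) : Tendsto (useq x) atTop (𝓝 0) := by
  rw [← tendsto_add_atTop_iff_nat 1]
  exact tendsto_coord x

/-- The map T x = (1 - ‖x‖, x_0, x_1, ...). -/
noncomputable def U (x : c0) : c0 := mk (useq x) (useq_tendsto x)

theorem U_zero (x : c0) : U x 0 = 1 - ‖x‖ := rfl
theorem U_succ (x : c0) (n : ℕ) : U x (n + 1) = x n := rfl

theorem U_dist (x y : c0) : ‖U x - U y‖ ≤ ‖x - y‖ := by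
  apply norm_le_of _ _ (norm_nonneg _)
  intro n
  cases n with
  | zero =>
    have : (U x - U y) 0 = ‖y‖ - ‖x‖ := by
      rw [ZeroAtInftyContinuousMap.sub_apply, U_zero, U_zero]; ring
    rw [this, abs_sub_comm]
    exact abs_norm_sub_norm_le x y
  | succ n =>
    have : (U x - U y) (n + 1) = (x - y) n := by
      rw [ZeroAtInftyContinuousMap.sub_apply, U_succ, U_succ, ZeroAtInftyContinuousMap.sub_apply]
    rw [this]
    exact coord_le _ n

theorem U_lip : LipschitzWith 1 U := by
  apply LipschitzWith.of_dist_le_mul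
  intro x y
  simpa [dist_eq_norm] using U_dist x y

theorem U_maps : Set.MapsTo U (Metric.closedBall (0 : c0) 1) (Metric.closedBall (0 : c0) 1) := by
  intro x hx
  rw [mem_closedBall_zero_iff] at hx ⊢
  apply norm_le_of _ _ zero_le_one
  intro n
  cases n with
  | zero =>
    rw [U_zero, abs_le]
    constructor <;> linarith [norm_nonneg x]
  | succ n =>
    rw [U_succ]
    exact (coord_le x n).trans hx

theorem U_no_fix (x : c0) : U x ≠ x := by
  intro h
  have h0 : x 0 = 1 - ‖x‖ := by
    conv_lhs => rw [← h]
    exact U_zero x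
  have hs : ∀ n, x (n + 1) = x n := by
    intro n
    conv_lhs => rw [← h]
    exact U_succ x n
  have hc : ∀ n, x n = 1 - ‖x‖ := by
    intro n
    induction n with
    | zero => exact h0
    | succ n ih => rw [hs n, ih]
  have hl : Tendsto (fun n => x n) atTop (𝓝 (1 - ‖x‖)) := by
    simp only [hc]
    exact tendsto_const_nhds
  have h1 : 1 - ‖x‖ = 0 := tendsto_nhds_unique hl (tendsto_coord x)
  have hx0 : ‖x‖ ≤ 0 := by
    apply norm_le_of _ _ le_rfl
    intro n
    rw [hc n, h1, abs_zero]
  linarith

/-- Unit vectors. -/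
def e (k : ℕ) : c0 :=
  mk (fun n => if n = k then 1 else 0) (by
    apply tendsto_const_nhds.congr'
    filter_upwards [eventually_gt_atTop k] with n hn
    rw [if_neg (by omega)])

theorem e_apply (k n : ℕ) : e k n = if n = k then 1 else 0 := rfl

theorem norm_e (k : ℕ) : ‖e k‖ = 1 := by
  apply le_antisymm
  · apply norm_le_of _ _ zero_le_one
    intro n
    rw [e_apply]
    split_ifs <;> simp
  · have := coord_le (e k) k
    rw [e_apply, if_pos rfl, abs_one] at this
    exact this

theorem U_e (k : ℕ) : U (e k) = e (k + 1) := by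
  ext n
  cases n with
  | zero => rw [U_zero, norm_e, e_apply, if_neg (by omega)]; ring
  | succ n =>
    rw [U_succ, e_apply, e_apply]
    by_cases h : n = k
    · rw [if_pos h, if_pos (by omega)]
    · rw [if_neg h, if_neg (by omega)]

theorem iter_e (m : ℕ) : U^[m] (e 0) = e m := by
  induction m with
  | zero => rfl
  | succ m ih => rw [Function.iterate_succ_apply', ih, U_e]

/-- For a bounded functional on c_0 the values at the unit vectors are absolutely summable. -/
theorem weak_null (f : StrongDual ℝ c0) : Tendsto (fun n => f (e n)) atTop (𝓝 0) := by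
  have key : ∀ N : ℕ, ∑ n ∈ Finset.range N, |f (e n)| ≤ ‖f‖ := by
    intro N
    set y : c0 := ∑ n ∈ Finset.range N, (SignType.sign (f (e n)) : ℝ) • e n with hy
    have h1 : f y = ∑ n ∈ Finset.range N, |f (e n)| := by
      rw [hy, map_sum]
      apply Finset.sum_congr rfl
      intro n _
      rw [map_smul, smul_eq_mul, sign_mul_self]
    have h2 : ‖y‖ ≤ 1 := by
      apply norm_le_of _ _ zero_le_one
      intro k
      have : y k = ∑ n ∈ Finset.range N, (SignType.sign (f (e n)) : ℝ) * (if k = n then 1 else 0) := by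
        rw [hy]
        have hcoe : ∀ s : Finset ℕ, (∑ n ∈ s, (SignType.sign (f (e n)) : ℝ) • e n : c0) k =
            ∑ n ∈ s, (SignType.sign (f (e n)) : ℝ) * (if k = n then 1 else 0) := by
          intro s
          induction s using Finset.induction_on with
          | empty => simp
          | insert a s ha ih =>
            rw [Finset.sum_insert ha, Finset.sum_insert ha, ZeroAtInftyContinuousMap.add_apply, ih]
            rfl
        exact hcoe _
      rw [this]
      by_cases hk : k ∈ Finset.range N
      · rw [Finset.sum_eq_single k]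
        · rw [if_pos rfl, mul_one]
          rcases SignType.sign (f (e k)) with _ | _ | _ <;> simp
        · intro b _ hb
          rw [if_neg (Ne.symm hb), mul_zero]
        · intro h; exact absurd hk h
      · rw [Finset.sum_eq_zero]
        · simp
        · intro n hn
          rw [if_neg (by rintro rfl; exact hk hn), mul_zero]
    calc ∑ n ∈ Finset.range N, |f (e n)| = f y := h1.symm
      _ ≤ ‖f y‖ := Real.le_norm_self _
      _ ≤ ‖f‖ * ‖y‖ := f.le_opNorm y
      _ ≤ ‖f‖ * 1 := by gcongr
      _ = ‖f‖ := mul_one _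
  have hsum : Summable (fun n => |f (e n)|) :=
    summable_of_sum_range_le (fun n => abs_nonneg _) key
  have := hsum.tendsto_atTop_zero
  exact (tendsto_zero_iff_abs_tendsto_zero _).2 this

theorem weak_tendsto :
    Tendsto (fun n => toWeakSpace ℝ c0 (e n)) atTop (𝓝 (toWeakSpace ℝ c0 0)) := by
  have hinj : Function.Injective (topDualPairing ℝ c0).flip := by
    intro a b h
    by_contra hne
    obtain ⟨f, hf⟩ := SeparatingDual.exists_separating_of_ne (R := ℝ) hne
    exact hf (DFunLike.congr_fun h f)
  refine (WeakBilin.tendsto_iff_forall_eval_tendsto (B := (topDualPairing ℝ c0).flip) hinj).2 ?_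
  intro f
  have h := weak_null f
  have h0 : f (0 : c0) = 0 := map_zero f
  rw [← h0] at h
  exact h

theorem orbit_compact :
    IsCompact (closure (toWeakSpace ℝ c0 '' Set.range (fun s : Multiplicative ℕ =>
      U^[Multiplicative.toAdd s] (e 0)))) := by
  have hc : IsCompact (insert (toWeakSpace ℝ c0 0) (Set.range (fun n => toWeakSpace ℝ c0 (e n)))) :=
    weak_tendsto.isCompact_insert_range
  refine hc.closure_of_subset ?_
  rintro _ ⟨_, ⟨s, rfl⟩, rfl⟩
  right
  exact ⟨Multiplicative.toAdd s, by simp only [iter_e]⟩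

/-- The negation of the preceding statement: In real c_0, if a commutative semigroup acts on a nonempty closed convex set C by nonexpansive maps and some orbit is relatively weakly compact, then some point of C is fixed by every map. -/
theorem result :
    ¬ (∀ (S : Type) [CommSemigroup S] (C : Set (ZeroAtInftyContinuousMap ℕ ℝ))
      (T : S → ZeroAtInftyContinuousMap ℕ ℝ → ZeroAtInftyContinuousMap ℕ ℝ),
      C.Nonempty → IsClosed C → Convex ℝ C →
      (∀ s, Set.MapsTo (T s) C C) →
      (∀ s, LipschitzOnWith 1 (T s) C) →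
      (∀ s t, ∀ x ∈ C, T (s * t) x = T s (T t x)) →
      (∃ c ∈ C, IsCompact (closure
        (toWeakSpace ℝ (ZeroAtInftyContinuousMap ℕ ℝ) '' Set.range (fun s => T s c)))) →
      ∃ x ∈ C, ∀ s, T s x = x) := by
  intro H
  obtain ⟨x, -, hx⟩ := H (Multiplicative ℕ) (Metric.closedBall (0 : c0) 1)
    (fun s => U^[Multiplicative.toAdd s])
    ⟨0, by simp⟩ Metric.isClosed_closedBall (convex_closedBall _ _)
    (fun s => U_maps.iterate _)
    (fun s => by
      have := U_lip.iterate (Multiplicative.toAdd s)
      rw [one_pow] at this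
      exact this.lipschitzOnWith)
    (fun s t x _ => by
      show U^[Multiplicative.toAdd (s * t)] x = _
      rw [toAdd_mul, Function.iterate_add_apply])
    ⟨e 0, by rw [mem_closedBall_zero_iff, norm_e], orbit_compact⟩
  exact U_no_fix x (hx (Multiplicative.ofAdd 1))

end Pool.Agent.S04536
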