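import Pool.Statements.S04554
import Pool.Agent.H769R3.IETunique

set_option autoImplicit false
open Pool Pool.MP_483d01_an

namespace Pool.Agent.S04554

/-- The negation of the preceding statement: For any permutation and any positive length vector a whose interval exchange has a unique invariant probability measure, and any direction b, there is ε>0 such that for almost every t in (−ε,ε) the lengths a+tb are again uniquely ergodic. -/
theorem result :
    ¬ (∀ (d : ℕ) (π : Equiv.Perm (Fin d)) (UE : (Fin d → ℝ) → Prop),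
    (∀ v : Fin d → ℝ, UE v ↔ ∃! μ : MeasureTheory.Measure ℝ,
        MeasureTheory.IsProbabilityMeasure μ ∧
        μ ((Set.Ico (0 : ℝ) (∑ i : Fin d, v i))ᶜ) = 0 ∧
        MeasureTheory.Measure.map (fun x : ℝ => x + ∑ j : Fin d,
          (Set.Ico (∑ i ∈ (Finset.univ : Finset (Fin d)).filter (fun i : Fin d => i < j), v i)
             ((∑ i ∈ (Finset.univ : Finset (Fin d)).filter (fun i : Fin d => i < j), v i) + v j)).indicator
            (fun _ : ℝ => (∑ i ∈ (Finset.univ : Finset (Fin d)).filter (fun i : Fin d => π i < π j), v i) -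
                      ∑ i ∈ (Finset.univ : Finset (Fin d)).filter (fun i : Fin d => i < j), v i) x) μ = μ) →
    ∀ a b : Fin d → ℝ, (∀ i, 0 < a i) → UE a →
      ∃ ε : ℝ, 0 < ε ∧
        ∀ᵐ t : ℝ ∂(MeasureTheory.volume.restrict (Set.Ioo (-ε) ε)), UE (a + t • b)) := by
  intro H
  -- an irrational number in (0, 1)
  obtain ⟨θ, hθ, h0, h1⟩ : ∃ θ : ℝ, Irrational θ ∧ 0 < θ ∧ θ < 1 := by
    obtain ⟨θ, hθ, h⟩ := exists_irrational_btwn (zero_lt_one' ℝ)
    exact ⟨θ, hθ, h⟩
  have H1 := H 4 H769R3.perm4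
    (fun v => ∃! μ : MeasureTheory.Measure ℝ, MeasureTheory.IsProbabilityMeasure μ ∧
        μ ((Set.Ico (0 : ℝ) (∑ i : Fin 4, v i))ᶜ) = 0 ∧
        MeasureTheory.Measure.map (H769R3.Tfrozen 4 H769R3.perm4 v) μ = μ)
    (fun v => Iff.rfl) (H769R3.a4 θ) H769R3.b4
  obtain ⟨ε, hε, hae⟩ := H1
    (by
      intro i
      fin_cases i
      · change 0 < 1 - θ; linarith
      · change 0 < 1 - θ; linarith
      · change 0 < θ; exact h0
      · change 0 < θ; exact h0)
    (by
      rw [H769R3.Tfrozen_eq]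
      exact H769R3.UE_a4 h0 h1 hθ)
  rw [MeasureTheory.ae_restrict_iff' measurableSet_Ioo] at hae
  have hnull : MeasureTheory.volume (Set.Ioo (0 : ℝ) ε) = 0 := by
    refine MeasureTheory.measure_mono_null ?_ (MeasureTheory.ae_iff.1 hae)
    intro t ht
    rw [Set.mem_ofPred_eq]
    intro h2
    have h3 := h2 ⟨by linarith [ht.1], ht.2⟩
    rw [H769R3.Tfrozen_eq] at h3
    exact H769R3.not_unique_pert h0 h1 ht.1 h3
  rw [Real.volume_Ioo] at hnull
  simp only [sub_zero, ENNReal.ofReal_eq_zero] at hnull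
  linarith

end Pool.Agent.S04554
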