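import Pool.Statements.S04563
import Pool.Agent.H258R3.Surj

set_option autoImplicit false
open Pool Pool.MP_498e64_an

namespace Pool.Agent.S04563

/-- For every monoid M: if every finitely generated submonoid has all injective finite-alphabet cellular automata surjective, then every injective finite-alphabet cellular automaton over M itself is surjective. -/
theorem result :
    ∀ (M : Type) [Monoid M],
      (∀ N : Submonoid M, N.FG →
        ∀ (A : Type) [Fintype A] (S : Finset N) (μ : (↥S → A) → A),
          Function.Injective (fun (x : N → A) (m : N) => μ (fun s => x (s.1 * m))) →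
          Function.Surjective (fun (x : N → A) (m : N) => μ (fun s => x (s.1 * m)))) →
      ∀ (A : Type) [Fintype A] (S : Finset M) (μ : (↥S → A) → A),
        Function.Injective (fun (x : M → A) (m : M) => μ (fun s => x (s.1 * m))) →
        Function.Surjective (fun (x : M → A) (m : M) => μ (fun s => x (s.1 * m))) := by
  classical
  intro M _ hM A _ S μ hinj
  refine Pool.Agent.H258R3.glue_left M A S μ hinj ?_
  intro N hN hS hNinj
  let S' : Finset N := Finset.univ.image (fun s : S => (⟨s.1, hS s⟩ : N))
  have hmem : ∀ s : S, (⟨s.1, hS s⟩ : N) ∈ S' := fun s =>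
    Finset.mem_image_of_mem _ (Finset.mem_univ s)
  let μ' : (↥S' → A) → A := fun w => μ (fun s => w ⟨⟨s.1, hS s⟩, hmem s⟩)
  exact hM N hN A S' μ' hNinj

end Pool.Agent.S04563
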