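import Pool.Statements.S04610
import Pool.Agent.H621R3.WS5

set_option autoImplicit false
open Filter Topology
open Pool Pool.MP_4c3cf5_an

namespace Pool.Agent.S04610

/-- The negation of the preceding statement: For separable reflexive real Banach spaces X, Y: if X coarse Lipschitz embeds into Y, then some coarse Lipschitz embedding of X into Y maps weakly convergent sequences to weakly convergent sequences with the matching limit. -/
theorem result :
    ¬ (∀ (X Y : Type) [NormedAddCommGroup X] [NormedSpace ℝ X] [CompleteSpace X]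
      [TopologicalSpace.SeparableSpace X]
      [NormedAddCommGroup Y] [NormedSpace ℝ Y] [CompleteSpace Y]
      [TopologicalSpace.SeparableSpace Y],
      Function.Surjective (NormedSpace.inclusionInDoubleDual ℝ X) →
      Function.Surjective (NormedSpace.inclusionInDoubleDual ℝ Y) →
      (∃ f : X → Y, ∃ a b c : ℝ, 0 < a ∧ 0 < b ∧ 0 ≤ c ∧
        ∀ x x' : X, a * ‖x - x'‖ - c ≤ ‖f x - f x'‖ ∧ ‖f x - f x'‖ ≤ b * ‖x - x'‖ + c) →
      ∃ g : X → Y,
        (∃ a b c : ℝ, 0 < a ∧ 0 < b ∧ 0 ≤ c ∧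
          ∀ x x' : X, a * ‖x - x'‖ - c ≤ ‖g x - g x'‖ ∧ ‖g x - g x'‖ ≤ b * ‖x - x'‖ + c) ∧
        ∀ (u : ℕ → X) (x : X),
          (∀ φ : X →L[ℝ] ℝ, Tendsto (fun n => φ (u n)) atTop (𝓝 (φ x))) →
          ∀ ψ : Y →L[ℝ] ℝ, Tendsto (fun n => ψ (g (u n))) atTop (𝓝 (ψ (g x)))) := by
  intro H
  haveI hX : TopologicalSpace.SeparableSpace Pool.H621R3.WS.XX :=
    Pool.H621R3.WS.lp_separable Pool.H621R3.WS.four_top
  haveI hC : ∀ n, TopologicalSpace.SeparableSpace (Pool.H621R3.WS.CC n) := fun n =>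
    Pool.H621R3.WS.lp_separable (Pool.H621R3.WS.q_top n)
  haveI hY : TopologicalSpace.SeparableSpace Pool.H621R3.WS.YY :=
    Pool.H621R3.WS.lp_separable Pool.H621R3.WS.two_top
  have hR : Function.Surjective (NormedSpace.inclusionInDoubleDual ℝ ℝ) := by
    intro Φ
    refine ⟨Φ (ContinuousLinearMap.id ℝ ℝ), ?_⟩
    ext φ
    have e : φ = φ 1 • ContinuousLinearMap.id ℝ ℝ := by
      ext
      simp
    rw [NormedSpace.dual_def]
    conv_rhs => rw [e, map_smul]
    conv_lhs => rw [e]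
    simp
  have rX : Function.Surjective (NormedSpace.inclusionInDoubleDual ℝ Pool.H621R3.WS.XX) :=
    Pool.H621R3.WS.lp_reflexive Pool.H621R3.WS.four_top (by norm_num) (fun _ => hR)
  have rC : ∀ n, Function.Surjective (NormedSpace.inclusionInDoubleDual ℝ
      (Pool.H621R3.WS.CC n)) := fun n =>
    Pool.H621R3.WS.lp_reflexive (Pool.H621R3.WS.q_top n)
      (by have := Pool.H621R3.WS.q_gt n; linarith) (fun _ => hR)
  have rY : Function.Surjective (NormedSpace.inclusionInDoubleDual ℝ Pool.H621R3.WS.YY) :=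
    Pool.H621R3.WS.lp_reflexive Pool.H621R3.WS.two_top (by norm_num) rC
  obtain ⟨g, ⟨a, b, c, ha, hb, hc, hg⟩, hW⟩ := H Pool.H621R3.WS.XX Pool.H621R3.WS.YY rX rY
    ⟨Pool.H621R3.WS.F, 1 / 20, 126, 14, by norm_num, by norm_num, by norm_num, fun x x' =>
      ⟨by have := Pool.H621R3.WS.F_lower x x'; linarith, Pool.H621R3.WS.F_upper x x'⟩⟩
  exact Pool.H621R3.WS.impossible g a b c ha hb hc hg hW

end Pool.Agent.S04610
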