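import Pool.Statements.S04620
import Pool.Agent.H788R3.Bp.Final

set_option autoImplicit false
open MeasureTheory
open Pool Pool.MP_4d3693_an

namespace Pool.Agent.S04620

/-- The negation of the preceding statement: For every smooth bounded pseudoconvex domain in C^n there is ε>0 such that for all p in ((2+ε)/(1+ε), 2+ε) the Bergman projection satisfies ‖Bf‖_p ≤ C‖f‖_p for all f in L^2∩L^p. -/
theorem result :
    ¬ (∀ (n : ℕ) (Ω : Set (Fin n → ℂ)) (ρ : (Fin n → ℂ) → ℝ),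
      ContDiff ℝ ((⊤ : ℕ∞) : WithTop ℕ∞) ρ →
      Ω = {z | ρ z < 0} →
      (∀ z, ρ z = 0 → fderiv ℝ ρ z ≠ 0) →
      Bornology.IsBounded Ω →
      IsConnected Ω →
      (∀ z, ρ z = 0 → ∀ w : Fin n → ℂ,
        fderiv ℝ ρ z w = 0 → fderiv ℝ ρ z (Complex.I • w) = 0 →
        0 ≤ fderiv ℝ (fderiv ℝ ρ) z w w
            + fderiv ℝ (fderiv ℝ ρ) z (Complex.I • w) (Complex.I • w)) →
      ∃ ε : ℝ, 0 < ε ∧
        ∀ p : ℝ, (2 + ε) / (1 + ε) < p → p < 2 + ε →
          ∃ C : NNReal,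
            ∀ f g : (Fin n → ℂ) → ℂ,
              MemLp f 2 (volume.restrict Ω) →
              MemLp f (ENNReal.ofReal p) (volume.restrict Ω) →
              DifferentiableOn ℂ g Ω →
              MemLp g 2 (volume.restrict Ω) →
              (∀ h : (Fin n → ℂ) → ℂ, DifferentiableOn ℂ h Ω →
                  MemLp h 2 (volume.restrict Ω) →
                  ∫ x in Ω, (f x - g x) * starRingEnd ℂ (h x) = 0) →
              eLpNorm g (ENNReal.ofReal p) (volume.restrict Ω)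
                ≤ (C : ENNReal) * eLpNorm f (ENNReal.ofReal p) (volume.restrict Ω)) := by
  intro hall
  obtain ⟨ε, hε, h⟩ := hall 2 Pool.Agent.H788R3.Bp.Om Pool.Agent.H788R3.Bp.rho
    Pool.Agent.H788R3.Bp.rho_smooth rfl Pool.Agent.H788R3.Bp.rho_grad Pool.Agent.H788R3.Bp.Om_bounded
    Pool.Agent.H788R3.Bp.Om_connected (fun z hz w _ _ => Pool.Agent.H788R3.Bp.rho_levi z hz w)
  have hp : (2:ℝ) < 2 + ε / 2 := by linarith
  have h1 : (2 + ε) / (1 + ε) < 2 + ε / 2 := by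
    rw [div_lt_iff₀ (by linarith)]
    nlinarith
  obtain ⟨C, hC⟩ := h (2 + ε / 2) h1 (by linarith)
  exact Pool.Agent.H788R3.Bp.no_bound hp C (fun j => hC (Pool.Agent.H788R3.Bp.ff j) (Pool.Agent.H788R3.Bp.gg j)
    (Pool.Agent.H788R3.Bp.ff_memLp j 2) (Pool.Agent.H788R3.Bp.ff_memLp j _) (Pool.Agent.H788R3.Bp.gg_hol j)
    (Pool.Agent.H788R3.Bp.gg_memLp j 2) (Pool.Agent.H788R3.Bp.orth j))

end Pool.Agent.S04620
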