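import Pool.Statements.S04624
-- import your own Pool.Agent.* helpers here

set_option autoImplicit false
open MeasureTheory
open Pool Pool.MP_4d58d7_an

namespace Pool.Agent.S04624

/-- the row structure of the three atoms -/
noncomputable def om (s : ℝ) : Fin 2 → Fin 2 → ℝ :=
  ![![200 / 199, 0], ![200 / 199 * s, 200 / 199 * (20200 / 20201)]]

lemma om_sum (s : ℝ) (x : Fin 2 → ℝ) :
    (∑ j, (∑ i, om s i j * x i) ^ 2) =
      (200 / 199 * x 0 + 200 / 199 * s * x 1) ^ 2 + (200 / 199 * (20200 / 20201) * x 1) ^ 2 := by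
  simp [om, Fin.sum_univ_two]

lemma zero_sum (x : Fin 2 → ℝ) :
    (∑ j : Fin 2, (∑ i, (0 : Fin 2 → Fin 2 → ℝ) i j * x i) ^ 2) = 0 := by
  simp

noncomputable def muu : Measure (Fin 2 → Fin 2 → ℝ) :=
  ENNReal.ofReal (399 / 40000) • Measure.dirac 0 +
    (ENNReal.ofReal (39601 / 80000) • Measure.dirac (om (201 / 20201)) +
      ENNReal.ofReal (39601 / 80000) • Measure.dirac (om (-(201 / 20201))))

lemma muu_apply (S : Set (Fin 2 → Fin 2 → ℝ)) :
    muu S = ENNReal.ofReal (399 / 40000) * S.indicator 1 0 +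
    (ENNReal.ofReal (39601 / 80000) * S.indicator 1 (om (201 / 20201)) +
      ENNReal.ofReal (39601 / 80000) * S.indicator 1 (om (-(201 / 20201)))) := by
  simp [muu, Measure.dirac_apply]

instance : IsProbabilityMeasure muu := by
  constructor
  rw [muu_apply]
  simp only [Set.indicator_univ, Pi.one_apply, mul_one]
  rw [← ENNReal.ofReal_add (by norm_num) (by norm_num), ← ENNReal.ofReal_add (by norm_num) (by norm_num)]
  norm_num

lemma muu_integral (f : (Fin 2 → Fin 2 → ℝ) → ℝ) :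
    ∫ w, f w ∂muu = 399 / 40000 * f 0 + (39601 / 80000 * f (om (201 / 20201)) +
      39601 / 80000 * f (om (-(201 / 20201)))) := by
  unfold muu
  have hi : ∀ (c : ℝ) (a : Fin 2 → Fin 2 → ℝ),
      Integrable f (ENNReal.ofReal c • Measure.dirac a) := by
    intro c a
    exact (integrable_dirac (by simp)).smul_measure ENNReal.ofReal_ne_top
  rw [integral_add_measure (hi _ _) ((hi _ _).add_measure (hi _ _)),
    integral_add_measure (hi _ _) (hi _ _)]
  simp only [integral_smul_measure, integral_dirac, smul_eq_mul]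
  rw [ENNReal.toReal_ofReal (by norm_num), ENNReal.toReal_ofReal (by norm_num)]

/-- The negation of the preceding statement: There are constants C and c₀>0 such that, for any isotropic n×k random matrix Ω that is a dimension-d OSI with injectivity 1−ε and failure 0.01, sketch-and-solve has error at most (1+Cε)·OPT with probability at least c₀. -/
theorem result :
    ¬ (∃ C : ℝ, ∃ c₀ : ℝ, 0 < c₀ ∧
    ∀ (n d p k : ℕ), 0 < n → 0 < d → 0 < p → 0 < k →
    ∀ ε : ℝ, 0 < ε → ε < 1 →
    ∀ (A : Matrix (Fin n) (Fin d) ℝ), A.rank = d →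
    ∀ (B : Matrix (Fin n) (Fin p) ℝ),
    ∀ (μ : Measure (Fin n → Fin k → ℝ)) [IsProbabilityMeasure μ],
      (∀ x : Fin n → ℝ, ∫ ω, (∑ j, (∑ i, ω i j * x i) ^ 2) ∂μ = ∑ i, x i ^ 2) →
      (∀ V : Submodule ℝ (Fin n → ℝ), Module.finrank ℝ V = d →
         ENNReal.ofReal (99 / 100) ≤
           μ {ω | ∀ x ∈ V, (1 - ε) * ∑ i, x i ^ 2 ≤ ∑ j, (∑ i, ω i j * x i) ^ 2}) →
      ENNReal.ofReal c₀ ≤ μ {ω | ∀ G : Matrix (Fin d) (Fin k) ℝ,
          (Matrix.transpose (Matrix.of ω) * A) * G * (Matrix.transpose (Matrix.of ω) * A)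
              = Matrix.transpose (Matrix.of ω) * A →
          G * (Matrix.transpose (Matrix.of ω) * A) * G = G →
          Matrix.transpose ((Matrix.transpose (Matrix.of ω) * A) * G)
              = (Matrix.transpose (Matrix.of ω) * A) * G →
          Matrix.transpose (G * (Matrix.transpose (Matrix.of ω) * A))
              = G * (Matrix.transpose (Matrix.of ω) * A) →
          ∀ X : Matrix (Fin d) (Fin p) ℝ,
            Real.sqrt (∑ i, ∑ j, ((A * (G * Matrix.transpose (Matrix.of ω) * B) - B) i j) ^ 2) ≤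
              (1 + C * ε) * Real.sqrt (∑ i, ∑ j, ((A * X - B) i j) ^ 2)}) := by
  rintro ⟨C, c₀, hc₀, H⟩
  set ε : ℝ := min (1 / 2) ((201 / 20201) ^ 2 / (4 * (|C| + 1))) with hε
  have hC1 : (0 : ℝ) < |C| + 1 := by positivity
  have hε0 : 0 < ε := lt_min (by norm_num) (by positivity)
  have hε1 : ε < 1 := lt_of_le_of_lt (min_le_left _ _) (by norm_num)
  have hCε : C * ε ≤ (201 / 20201) ^ 2 / 4 := by
    have h1 : ε ≤ (201 / 20201) ^ 2 / (4 * (|C| + 1)) := min_le_right _ _
    calc C * ε ≤ |C| * ε := mul_le_mul_of_nonneg_right (le_abs_self C) hε0.le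
      _ ≤ (|C| + 1) * ε := by nlinarith
      _ ≤ (|C| + 1) * ((201 / 20201) ^ 2 / (4 * (|C| + 1))) :=
          mul_le_mul_of_nonneg_left h1 hC1.le
      _ = (201 / 20201) ^ 2 / 4 := by field_simp
  have hrank : (!![(1 : ℝ); 0] : Matrix (Fin 2) (Fin 1) ℝ).rank = 1 := by
    apply le_antisymm (Matrix.rank_le_width _)
    have h1 : (!![(1 : ℝ); 0] : Matrix (Fin 2) (Fin 1) ℝ).transpose * !![(1 : ℝ); 0] = 1 := by
      ext i j
      fin_cases i; fin_cases j
      simp [Matrix.mul_apply, Fin.sum_univ_two]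
    have h2 := Matrix.rank_mul_le_right (!![(1 : ℝ); 0] : Matrix (Fin 2) (Fin 1) ℝ).transpose !![(1 : ℝ); 0]
    rw [h1, Matrix.rank_one, Fintype.card_fin] at h2
    exact h2
  have key := H 2 1 1 2 (by norm_num) (by norm_num) (by norm_num) (by norm_num) ε hε0 hε1
    !![(1 : ℝ); 0] hrank !![(1 : ℝ); 1] muu ?_ ?_
  · -- the conclusion fails
    have hS : ∀ w : Fin 2 → Fin 2 → ℝ, (w = 0 ∨ w = om (201 / 20201) ∨ w = om (-(201 / 20201))) →
        w ∉ {ω : Fin 2 → Fin 2 → ℝ | ∀ G : Matrix (Fin 1) (Fin 2) ℝ,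
          (Matrix.transpose (Matrix.of ω) * !![(1 : ℝ); 0]) * G * (Matrix.transpose (Matrix.of ω) * !![(1 : ℝ); 0])
              = Matrix.transpose (Matrix.of ω) * !![(1 : ℝ); 0] →
          G * (Matrix.transpose (Matrix.of ω) * !![(1 : ℝ); 0]) * G = G →
          Matrix.transpose ((Matrix.transpose (Matrix.of ω) * !![(1 : ℝ); 0]) * G)
              = (Matrix.transpose (Matrix.of ω) * !![(1 : ℝ); 0]) * G →
          Matrix.transpose (G * (Matrix.transpose (Matrix.of ω) * !![(1 : ℝ); 0]))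
              = G * (Matrix.transpose (Matrix.of ω) * !![(1 : ℝ); 0]) →
          ∀ X : Matrix (Fin 1) (Fin 1) ℝ,
            Real.sqrt (∑ i, ∑ j, ((!![(1 : ℝ); 0] * (G * Matrix.transpose (Matrix.of ω) * !![(1 : ℝ); 1]) - !![(1 : ℝ); 1]) i j) ^ 2) ≤
              (1 + C * ε) * Real.sqrt (∑ i, ∑ j, ((!![(1 : ℝ); 0] * X - !![(1 : ℝ); 1]) i j) ^ 2)} := by
      have hX : Real.sqrt (∑ i, ∑ j, (((!![(1 : ℝ); 0] : Matrix (Fin 2) (Fin 1) ℝ) * (!![(1 : ℝ)] : Matrix (Fin 1) (Fin 1) ℝ) - !![(1 : ℝ); 1]) i j) ^ 2) = 1 := by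
        simp [Matrix.mul_apply, Fin.sum_univ_two]
      rintro w hw hmem
      rw [Set.mem_ofPred_eq] at hmem
      rcases hw with rfl | hw
      · have h := hmem 0 (by simp) (by simp) (by simp) (by simp) !![(1 : ℝ)]
        rw [hX] at h
        have h2 : Real.sqrt (∑ i, ∑ j, ((!![(1 : ℝ); 0] * ((0 : Matrix (Fin 1) (Fin 2) ℝ) * Matrix.transpose (Matrix.of (0 : Fin 2 → Fin 2 → ℝ)) * !![(1 : ℝ); 1]) - !![(1 : ℝ); 1]) i j) ^ 2) = Real.sqrt 2 := by
          congr 1
          simp [Matrix.mul_apply, Fin.sum_univ_two]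
          norm_num
        rw [h2] at h
        have h3 : (1.4 : ℝ) < Real.sqrt 2 := by
          apply Real.lt_sqrt_of_sq_lt
          norm_num
        norm_num at hCε
        linarith
      · have hw' : ∃ s : ℝ, s ^ 2 = (201 / 20201) ^ 2 ∧ w = om s := by
          rcases hw with rfl | rfl
          · exact ⟨_, rfl, rfl⟩
          · exact ⟨_, by norm_num, rfl⟩
        obtain ⟨s, hs, rfl⟩ := hw'
        have hM : (Matrix.transpose (Matrix.of (om s)) * !![(1 : ℝ); 0]) = !![(200 / 199 : ℝ); 0] := by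
          ext i j
          fin_cases i <;> fin_cases j <;> simp [om, Matrix.mul_apply, Fin.sum_univ_two]
        have h := hmem !![(199 / 200 : ℝ), 0] ?_ ?_ ?_ ?_ !![(1 : ℝ)]
        · rw [hX] at h
          have h4 : (!![(199 / 200 : ℝ), 0] * Matrix.transpose (Matrix.of (om s)) * !![(1 : ℝ); 1]) = !![1 + s] := by
            ext i j
            fin_cases i; fin_cases j
            simp only [Matrix.mul_apply, Fin.sum_univ_two, om, Matrix.transpose_apply, Matrix.of_apply]
            simp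
            ring
          have h2 : (∑ i, ∑ j, ((!![(1 : ℝ); 0] * (!![(199 / 200 : ℝ), 0] * Matrix.transpose (Matrix.of (om s)) * !![(1 : ℝ); 1]) - !![(1 : ℝ); 1]) i j) ^ 2) = 1 + s ^ 2 := by
            rw [h4]
            simp [Matrix.mul_apply, Fin.sum_univ_two]
            ring
          rw [h2, hs] at h
          have h3 : (1 + (201 / 20201) ^ 2 / 4 : ℝ) < Real.sqrt (1 + (201 / 20201) ^ 2) := by
            apply Real.lt_sqrt_of_sq_lt
            norm_num
          linarith
        all_goals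
          rw [hM]
          ext i j
          fin_cases i <;> fin_cases j <;> simp [Matrix.mul_apply, Fin.sum_univ_two]
    rw [muu_apply, Set.indicator_of_notMem (hS _ (Or.inl rfl)),
      Set.indicator_of_notMem (hS _ (Or.inr (Or.inl rfl))),
      Set.indicator_of_notMem (hS _ (Or.inr (Or.inr rfl)))] at key
    simp only [mul_zero, add_zero, nonpos_iff_eq_zero, ENNReal.ofReal_eq_zero] at key
    linarith
  · intro x
    rw [muu_integral]
    simp only [om_sum, zero_sum]
    rw [Fin.sum_univ_two]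
    ring
  · intro V _
    have hmem : ∀ s : ℝ, s ^ 2 = (201 / 20201) ^ 2 → om s ∈ {ω : Fin 2 → Fin 2 → ℝ | ∀ x ∈ V,
        (1 - ε) * ∑ i, x i ^ 2 ≤ ∑ j, (∑ i, ω i j * x i) ^ 2} := by
      intro s hs x _
      rw [om_sum, Fin.sum_univ_two]
      have h1 : (200 / 199 * x 0 + 200 / 199 * s * x 1) ^ 2 + (200 / 199 * (20200 / 20201) * x 1) ^ 2
          = 40000 / 39601 * (x 0 ^ 2 + x 1 ^ 2 + 2 * s * x 0 * x 1) + 40000 / 39601 * (s ^ 2 - (201 / 20201) ^ 2) * x 1 ^ 2 := by
        ring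
      rw [h1, hs, sub_self, mul_zero, zero_mul, add_zero]
      have h2 : -(201 / 20201) * (x 0 ^ 2 + x 1 ^ 2) ≤ 2 * s * x 0 * x 1 := by
        have habs : |s| = 201 / 20201 := by
          have : |s| ^ 2 = (201 / 20201) ^ 2 := by rw [sq_abs, hs]
          exact (pow_left_inj₀ (abs_nonneg s) (by norm_num) (by norm_num)).1 this
        have h3 : |2 * s * x 0 * x 1| ≤ 201 / 20201 * (x 0 ^ 2 + x 1 ^ 2) := by
          rw [abs_mul, abs_mul, abs_mul, habs, abs_two]
          have := two_mul_le_add_sq |x 0| |x 1|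
          rw [sq_abs, sq_abs] at this
          nlinarith
        have := neg_abs_le (2 * s * x 0 * x 1)
        linarith
      nlinarith [sq_nonneg (x 0), sq_nonneg (x 1), mul_nonneg hε0.le (add_nonneg (sq_nonneg (x 0)) (sq_nonneg (x 1)))]
    rw [muu_apply, Set.indicator_of_mem (hmem _ rfl), Set.indicator_of_mem (hmem _ (by norm_num))]
    simp only [Pi.one_apply, mul_one]
    refine le_trans ?_ le_add_self
    rw [← ENNReal.ofReal_add (by norm_num) (by norm_num)]
    apply ENNReal.ofReal_le_ofReal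
    norm_num

end Pool.Agent.S04624
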