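import Pool.Statements.S04677
import Pool.Agent.H597R3.Comp5

set_option autoImplicit false
open Pool Pool.MP_52d740_an

namespace Pool.Agent.S04677

open Pool.Agent.H597R3.Comp

/-- There are subshifts X, Y over a finite alphabet and a continuous, shift-commuting surjection π from X onto Y such that no continuous F on X has pressure of φ∘π+F on X equal to pressure of φ on Y for every continuous φ on Y. -/
theorem result :
    ∃ (k : ℕ) (X Y : Set (ℤ → ℕ)) (π : (ℤ → ℕ) → (ℤ → ℕ)),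
      X.Nonempty ∧ IsClosed X ∧ (∀ x : ℤ → ℕ, x ∈ X ↔ (fun m : ℤ => x (m + 1)) ∈ X) ∧
      (∀ x ∈ X, ∀ i : ℤ, x i < k) ∧
      Y.Nonempty ∧ IsClosed Y ∧ (∀ y : ℤ → ℕ, y ∈ Y ↔ (fun m : ℤ => y (m + 1)) ∈ Y) ∧
      (∀ y ∈ Y, ∀ i : ℤ, y i < k) ∧
      ContinuousOn π X ∧ Set.MapsTo π X Y ∧ Set.SurjOn π X Y ∧
      (∀ x ∈ X, π (fun m : ℤ => x (m + 1)) = (fun m : ℤ => π x (m + 1))) ∧
      ¬ ∃ F : (ℤ → ℕ) → ℝ, ContinuousOn F X ∧
        ∀ φ : (ℤ → ℕ) → ℝ, ContinuousOn φ Y →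
          ∃ L : ℝ,
          Filter.Tendsto (fun n : ℕ => Real.log (∑ w : Fin n → Fin k,
            sSup ((fun x : ℤ → ℕ => Real.exp (∑ j ∈ Finset.range n,
              φ ((fun (z : ℤ → ℕ) (m : ℤ) => z (m + 1))^[j] x))) ''
              {x : ℤ → ℕ | x ∈ Y ∧ ∀ i : Fin n, x ((i : ℕ) : ℤ) = ((w i : ℕ))})) / (n : ℝ))
            Filter.atTop (nhds L) ∧
          Filter.Tendsto (fun n : ℕ => Real.log (∑ w : Fin n → Fin k,
            sSup ((fun x : ℤ → ℕ => Real.exp (∑ j ∈ Finset.range n,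
              (φ (π ((fun (z : ℤ → ℕ) (m : ℤ) => z (m + 1))^[j] x))
                + F ((fun (z : ℤ → ℕ) (m : ℤ) => z (m + 1))^[j] x)))) ''
              {x : ℤ → ℕ | x ∈ X ∧ ∀ i : Fin n, x ((i : ℕ) : ℤ) = ((w i : ℕ))})) / (n : ℝ))
            Filter.atTop (nhds L) := by
  refine ⟨3, XX, YY, pr, ⟨xq 0 0, xq_XX 0 0⟩, XX_closed, fun x => XX_shift x 1,
    fun x hx => hx.1, ⟨_, xq 0 0, xq_XX 0 0, rfl⟩, YY_closed, YY_shift, ?_,
    pr_cont.continuousOn, fun x hx => ⟨x, hx, rfl⟩, fun y hy => hy, fun x _ => rfl, ?_⟩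
  · intro y hy i
    rcases (YY_struct hy).1 i with h | h <;> rw [h] <;> norm_num
  rintro ⟨F, hF, H⟩
  simp only [iter_shift] at H
  -- the zero function
  have hZ : ∀ δ : ℝ, 0 < δ → ∀ᶠ n : ℕ in Filter.atTop, Zf XX n (BS F n) ≤ Real.exp (δ * n) := by
    obtain ⟨L, hY, hX⟩ := H (fun _ => 0) continuousOn_const
    have hL : L ≤ 0 := by
      apply le_of_tendsto_of_tendsto hY log_lim
      filter_upwards [Filter.eventually_gt_atTop 0] with n hn
      have hn' : (0 : ℝ) < n := by exact_mod_cast hn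
      apply div_le_div_of_nonneg_right _ hn'.le
      have h1 := ZY_upper n (fun x => ∑ j ∈ Finset.range n, (0 : ℝ)) (fun x _ => by simp)
      have h0 : 0 ≤ Zf YY n (fun x => ∑ j ∈ Finset.range n, (0 : ℝ)) :=
        Finset.sum_nonneg (fun w _ => term_nonneg _ _ _ _)
      rcases h0.eq_or_lt with h0 | h0
      · have h2 : Real.log (Zf YY n (fun x => ∑ j ∈ Finset.range n, (0 : ℝ))) = 0 := by
          rw [← h0, Real.log_zero]
        refine (le_of_eq h2).trans ?_
        apply Real.log_nonneg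
        have : 1 ≤ (n + 1) * (n + 1) := Nat.one_le_iff_ne_zero.2 (by positivity)
        exact_mod_cast this
      · exact Real.log_le_log h0 h1
    intro δ hδ
    have h2 := hX.eventually_lt_const (lt_of_le_of_lt hL hδ)
    filter_upwards [h2, Filter.eventually_gt_atTop 0] with n h3 hn
    have hn' : (0 : ℝ) < n := by exact_mod_cast hn
    rw [div_lt_iff₀ hn'] at h3
    have h4 : (fun x : ℤ → ℕ => Real.exp (∑ j ∈ Finset.range n,
        ((fun _ : ℤ → ℕ => (0 : ℝ)) (pr (fun m => x (m + (j : ℤ)))) + F (fun m => x (m + (j : ℤ))))))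
        = fun x => Real.exp (BS F n x) := by
      funext x
      simp only [zero_add]
      rfl
    rw [h4] at h3
    have h0 : 0 ≤ Zf XX n (BS F n) := Finset.sum_nonneg (fun w _ => term_nonneg _ _ _ _)
    rcases h0.eq_or_lt with h0 | h0
    · rw [← h0]
      exact (Real.exp_pos _).le
    · exact ((Real.log_lt_iff_lt_exp h0).1 h3).le
  refine main_contra hF hZ ?_
  intro m
  obtain ⟨B, hB⟩ := XX_compact.exists_bound_of_continuousOn hF
  obtain ⟨L, hY, hX⟩ := H ((GG m).indicator (fun _ => (1 : ℝ))) (indicator_cont (GG_clopen m)).continuousOn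
  exact avg_nonneg (fun x hx => hB x hx) m (hZ (1 / 2) (by norm_num)) L hY hX

end Pool.Agent.S04677
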