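import Pool.Statements.S04681
import Pool.Agent.H283R3.Tre7

set_option autoImplicit false
open Pool Pool.MP_5314e0_an

namespace Pool.Agent.S04681

/-- There is a nonempty compact K in the reals and α, C₁, C₂ > 0 such that for z off K near K, the Green function of ℂ∖K with pole at infinity (as a polynomial supremum) lies between C₁·dist(z,K)^α and C₂·dist(z,K)^α. -/
theorem result :
    ∃ K : Set ℝ, IsCompact K ∧ K.Nonempty ∧
      ∃ α : ℝ, 0 < α ∧ ∃ C₁ : ℝ, 0 < C₁ ∧ ∃ C₂ : ℝ, 0 < C₂ ∧ ∃ ε : ℝ, 0 < ε ∧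
        ∀ z : ℂ,
          0 < Metric.infDist z ((fun x : ℝ => (x : ℂ)) '' K) →
          Metric.infDist z ((fun x : ℝ => (x : ℂ)) '' K) < ε →
          (∀ p : Polynomial ℂ, 1 ≤ p.natDegree →
              (∀ x ∈ K, ‖p.eval (x : ℂ)‖ ≤ 1) →
              Real.log ‖p.eval z‖ / (p.natDegree : ℝ)
                ≤ C₂ * (Metric.infDist z ((fun x : ℝ => (x : ℂ)) '' K)) ^ α) ∧
          (∀ t : ℝ, t < C₁ * (Metric.infDist z ((fun x : ℝ => (x : ℂ)) '' K)) ^ α →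
              ∃ p : Polynomial ℂ, 1 ≤ p.natDegree ∧
                (∀ x ∈ K, ‖p.eval (x : ℂ)‖ ≤ 1) ∧
                t < Real.log ‖p.eval z‖ / (p.natDegree : ℝ)) := by
  obtain ⟨d⟩ := Pool.Agent.H283R3.Tre.exists_dat
  have hL := Pool.Agent.H283R3.Tre.L_pos
  refine ⟨Pool.Agent.H283R3.Tre.K d, Pool.Agent.H283R3.Tre.K_compact d,
    Pool.Agent.H283R3.Tre.K_nonempty d, Pool.Agent.H283R3.Tre.al, Pool.Agent.H283R3.Tre.al_pos,
    1, one_pos, 2 * (Pool.Agent.H283R3.Tre.L + 3), by linarith, 1 / 2, by norm_num, ?_⟩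
  intro z h0 h1
  exact ⟨fun p hp hpK => Pool.Agent.H283R3.Tre.upper_final d h0 h1 hp hpK,
    fun t ht => Pool.Agent.H283R3.Tre.lower_final d h0 h1 ht⟩

end Pool.Agent.S04681
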