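import Pool.Statements.S04692
import Pool.Agent.H86R3.BetaD
-- import your own Pool.Agent.* helpers here

set_option autoImplicit false
open Pool Pool.MP_53fb87_an

namespace Pool.Agent.S04692

/-- The negation of the preceding statement: Every infinite-dimensional separable subspace of the real sup-normed space of continuous functions on βN×βN that is the range of a bounded linear projection is linearly homeomorphic to c_0. -/
theorem result :
    ¬ (∀ X : Submodule ℝ C(StoneCech ℕ × StoneCech ℕ, ℝ),
      X.ClosedComplemented →
      TopologicalSpace.SeparableSpace X →
      ¬ FiniteDimensional ℝ X →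
      Nonempty (X ≃L[ℝ] ZeroAtInftyContinuousMap ℕ ℝ)) := by
  exact Pool.Agent.H86R3.Beta.main

end Pool.Agent.S04692
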