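import Pool.Statements.S04693
import Pool.Agent.H130R3.PiBase3

set_option autoImplicit false
open Pool Pool.MP_53fbd4_an

namespace Pool.Agent.S04693

open Filter Topology Pool.Agent.H130R3.PiBase

/-- For every real Banach space with a 1-unconditional basis, the closed unit ball in the relative weak topology has a countable family of nonempty relatively open sets such that every nonempty relatively open subset of the ball contains one of them. -/
theorem result :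
    ∀ (X : Type) [NormedAddCommGroup X] [NormedSpace ℝ X] [CompleteSpace X] (e : ℕ → X),
      (∀ x : X, ∃! a : ℕ → ℝ, HasSum (fun n => a n • e n) x) →
      (∀ (s : Finset ℕ) (a ε : ℕ → ℝ), (∀ n, ε n = 1 ∨ ε n = -1) →
          ‖∑ n ∈ s, (ε n * a n) • e n‖ ≤ ‖∑ n ∈ s, a n • e n‖) →
      ∃ U : ℕ → Set (WeakSpace ℝ X),
        (∀ n, IsOpen (U n) ∧
            (U n ∩ (toWeakSpace ℝ X) '' Metric.closedBall (0 : X) 1).Nonempty) ∧
        ∀ V : Set (WeakSpace ℝ X), IsOpen V →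
          (V ∩ (toWeakSpace ℝ X) '' Metric.closedBall (0 : X) 1).Nonempty →
            ∃ n, U n ∩ (toWeakSpace ℝ X) '' Metric.closedBall (0 : X) 1 ⊆ V := by
  intro X _ _ _ e hb hu
  obtain ⟨f, hf⟩ := exists_coord e hb hu
  -- the boxes
  set W : ℕ × (ℕ →₀ ℚ) × ℕ → Set (WeakSpace ℝ X) := fun p =>
    {y | ∀ i < p.1, |f i ((toWeakSpace ℝ X).symm y) - (p.2.1 i : ℝ)| < 1 / ((p.2.2 : ℝ) + 1)}
    with hW
  have hWopen : ∀ p, IsOpen (W p) := by
    intro p
    have h1 : W p = ⋂ i ∈ Finset.range p.1,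
        {y : WeakSpace ℝ X | |f i ((toWeakSpace ℝ X).symm y) - (p.2.1 i : ℝ)|
          < 1 / ((p.2.2 : ℝ) + 1)} := by
      ext y
      simp [hW]
    rw [h1]
    refine isOpen_biInter_finset fun i _ => ?_
    have h2 : Continuous fun y : WeakSpace ℝ X => f i ((toWeakSpace ℝ X).symm y) :=
      WeakBilin.eval_continuous (topDualPairing ℝ X).flip (f i)
    exact isOpen_lt (h2.sub continuous_const).abs continuous_const
  set B : Set (WeakSpace ℝ X) := (toWeakSpace ℝ X) '' Metric.closedBall (0 : X) 1 with hB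
  let J := {p : ℕ × (ℕ →₀ ℚ) × ℕ // (W p ∩ B).Nonempty}
  have hJ : Nonempty J := by
    refine ⟨⟨(0, 0, 0), toWeakSpace ℝ X 0, ?_, ⟨0, by simp, rfl⟩⟩⟩
    intro i hi
    exact absurd hi (Nat.not_lt_zero i)
  obtain ⟨σ, hσ⟩ := exists_surjective_nat J
  refine ⟨fun n => W (σ n).1, fun n => ⟨hWopen _, (σ n).2⟩, ?_⟩
  rintro V hV ⟨y0, hy0V, x, hx, rfl⟩
  rw [mem_closedBall_zero_iff] at hx
  -- basic neighbourhood
  obtain ⟨s, hs, hsV⟩ : ∃ s : Set ((X →L[ℝ] ℝ) → ℝ), IsOpen s ∧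
      (fun (y : WeakSpace ℝ X) (g : X →L[ℝ] ℝ) => g ((toWeakSpace ℝ X).symm y)) ⁻¹' s = V :=
    isOpen_induced_iff.1 hV
  have hmem : (fun (g : X →L[ℝ] ℝ) => g x) ∈ s := by
    have h1 : toWeakSpace ℝ X x ∈ (fun (y : WeakSpace ℝ X) (g : X →L[ℝ] ℝ) =>
      g ((toWeakSpace ℝ X).symm y)) ⁻¹' s := by rw [hsV]; exact hy0V
    exact h1
  obtain ⟨I, u, hu1, hu2⟩ := isOpen_pi_iff.1 hs _ hmem
  have hε : ∃ ε : ℝ, 0 < ε ∧ ∀ g ∈ I, ∀ t : ℝ, |t - g x| < ε → t ∈ u g := by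
    have h1 : ∀ g ∈ I, ∀ᶠ ε : ℝ in 𝓝[>] 0, ∀ t : ℝ, |t - g x| < ε → t ∈ u g := by
      intro g hg
      obtain ⟨r, hr, hr2⟩ := Metric.isOpen_iff.1 (hu1 g hg).1 _ (hu1 g hg).2
      filter_upwards [Ioo_mem_nhdsGT hr] with ε hε t ht
      apply hr2
      rw [Metric.mem_ball, Real.dist_eq]
      exact ht.trans hε.2
    have h2 := (Filter.eventually_all_finset I).2 h1
    obtain ⟨ε, h3, h4⟩ := (h2.and self_mem_nhdsWithin).exists
    exact ⟨ε, h4, h3⟩
  obtain ⟨ε, hε0, hε⟩ := hε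
  obtain ⟨c, N, δ, hδ, ⟨w, hw1, hw2⟩, hbox⟩ := box_lemma hb hu f hf I x hx ε hε0
  obtain ⟨m, hm⟩ := exists_nat_one_div_lt (show (0:ℝ) < δ / 4 by linarith)
  have hq : ∀ i : ℕ, ∃ q : ℚ, |f i w - q| < 1 / ((m : ℝ) + 1) := by
    intro i
    obtain ⟨q, hq1, hq2⟩ := exists_rat_btwn (show f i w < f i w + 1 / ((m : ℝ) + 1) by
      have : (0:ℝ) < 1 / ((m : ℝ) + 1) := by positivity
      linarith)
    refine ⟨q, ?_⟩
    rw [abs_sub_comm, abs_of_pos (by linarith)]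
    linarith
  choose q hq using hq
  let Q : ℕ →₀ ℚ := Finsupp.onFinset (Finset.range N) (fun i => if i ∈ Finset.range N then q i else 0)
    (by intro i hi; by_contra h; exact hi (if_neg h))
  have hQ : ∀ i < N, Q i = q i := by
    intro i hi
    show (if i ∈ Finset.range N then q i else 0) = q i
    rw [if_pos (Finset.mem_range.2 hi)]
  have hne : (W (N, Q, m) ∩ B).Nonempty := by
    refine ⟨toWeakSpace ℝ X w, ?_, ⟨w, by rwa [mem_closedBall_zero_iff], rfl⟩⟩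
    intro i hi
    show |f i ((toWeakSpace ℝ X).symm (toWeakSpace ℝ X w)) - (Q i : ℝ)| < 1 / ((m : ℝ) + 1)
    rw [LinearEquiv.symm_apply_apply, hQ i hi]
    exact hq i
  obtain ⟨n, hn⟩ := hσ ⟨(N, Q, m), hne⟩
  refine ⟨n, ?_⟩
  show W (σ n).1 ∩ B ⊆ V
  rw [hn]
  rintro _ ⟨hyW, y, hy, rfl⟩
  rw [mem_closedBall_zero_iff] at hy
  have h1 : ∀ i < N, |f i y - c i| < δ := by
    intro i hi
    have h2 : |f i ((toWeakSpace ℝ X).symm (toWeakSpace ℝ X y)) - (Q i : ℝ)| < 1 / ((m : ℝ) + 1) :=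
      hyW i hi
    rw [LinearEquiv.symm_apply_apply, hQ i hi] at h2
    have h3 := hq i
    have h4 := hw2 i hi
    have h5 : f i y - c i = (f i y - q i) - (f i w - q i) + (f i w - c i) := by ring
    rw [h5]
    have h6 := abs_add_le ((f i y - q i) - (f i w - q i)) (f i w - c i)
    have h7 : |(f i y - q i) - (f i w - q i)| ≤ |f i y - q i| + |f i w - q i| := by
      have h8 := abs_add_le (f i y - q i) (-(f i w - q i))
      rw [abs_neg] at h8
      rwa [sub_eq_add_neg]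
    linarith
  have h2 := hbox y hy h1
  rw [← hsV]
  apply hu2
  intro g hg
  exact hε g hg _ (h2 g hg)

end Pool.Agent.S04693
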