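import Pool.Statements.S04718
import Pool.Agent.H130R7.NI5

set_option autoImplicit false
open Pool Pool.MP_565a2b_an

namespace Pool.Agent.S04718

/-- The negation of the preceding statement: Over ℝ and over ℂ: if a Banach space X is, up to isometry, the only Banach space whose dual is isometric to X*, then the numerical index of X* equals the numerical index of X. -/
theorem result :
    ¬ ((∀ (X : Type) [NormedAddCommGroup X] [NormedSpace ℝ X] [CompleteSpace X],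
      (∀ (Z : Type) [NormedAddCommGroup Z] [NormedSpace ℝ Z] [CompleteSpace Z],
        Nonempty ((Z →L[ℝ] ℝ) ≃ₗᵢ[ℝ] (X →L[ℝ] ℝ)) → Nonempty (Z ≃ₗᵢ[ℝ] X)) →
      sInf {s : ℝ | ∃ T : (X →L[ℝ] ℝ) →L[ℝ] (X →L[ℝ] ℝ), ‖T‖ = 1 ∧
          s = sSup {r : ℝ | ∃ (x : X →L[ℝ] ℝ) (f : (X →L[ℝ] ℝ) →L[ℝ] ℝ),
            ‖x‖ = 1 ∧ ‖f‖ = 1 ∧ f x = 1 ∧ r = ‖f (T x)‖}}
        = sInf {s : ℝ | ∃ T : X →L[ℝ] X, ‖T‖ = 1 ∧
          s = sSup {r : ℝ | ∃ (x : X) (f : X →L[ℝ] ℝ),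
            ‖x‖ = 1 ∧ ‖f‖ = 1 ∧ f x = 1 ∧ r = ‖f (T x)‖}}) ∧
    (∀ (X : Type) [NormedAddCommGroup X] [NormedSpace ℂ X] [CompleteSpace X],
      (∀ (Z : Type) [NormedAddCommGroup Z] [NormedSpace ℂ Z] [CompleteSpace Z],
        Nonempty ((Z →L[ℂ] ℂ) ≃ₗᵢ[ℂ] (X →L[ℂ] ℂ)) → Nonempty (Z ≃ₗᵢ[ℂ] X)) →
      sInf {s : ℝ | ∃ T : (X →L[ℂ] ℂ) →L[ℂ] (X →L[ℂ] ℂ), ‖T‖ = 1 ∧
          s = sSup {r : ℝ | ∃ (x : X →L[ℂ] ℂ) (f : (X →L[ℂ] ℂ) →L[ℂ] ℂ),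
            ‖x‖ = 1 ∧ ‖f‖ = 1 ∧ f x = 1 ∧ r = ‖f (T x)‖}}
        = sInf {s : ℝ | ∃ T : X →L[ℂ] X, ‖T‖ = 1 ∧
          s = sSup {r : ℝ | ∃ (x : X) (f : X →L[ℂ] ℂ),
            ‖x‖ = 1 ∧ ‖f‖ = 1 ∧ f x = 1 ∧ r = ‖f (T x)‖}})) := by
  intro hmain
  obtain ⟨X, i1, i2, i3, ι, h1, h2, hU⟩ := Pool.Agent.H130R7.exists_space
  have heq := hmain.1 X (fun Z _ _ _ h => hU Z h)
  have hnt : Nontrivial X := by
    refine ⟨ι.symm (Pool.Agent.H130R7.e0 (0, 0)), 0, ?_⟩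
    intro h
    have h3 : Pool.Agent.H130R7.e0 (0, 0) = 0 := by
      have := congrArg ι h
      rwa [ι.apply_symm_apply, map_zero] at this
    have h4 := Pool.Agent.H130R7.vl_e0_self (0, 0)
    rw [h3, Pool.Agent.H130R7.vl_zero] at h4
    exact zero_ne_one h4
  have hlow := Pool.Agent.H130R7.lower_index Pool.Agent.H130R7.E0_index ι h1 h2
  obtain ⟨T, hT1, hT2⟩ := Pool.Agent.H130R7.exists_operator
  let J : (X →L[ℝ] ℝ) ≃L[ℝ] (Pool.Agent.H130R7.E0 →L[ℝ] ℝ) :=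
    ι.arrowCongr (ContinuousLinearEquiv.refl ℝ ℝ)
  have hJ : ∀ (g : X →L[ℝ] ℝ) (y : Pool.Agent.H130R7.E0), (J g) y = g (ι.symm y) :=
    fun g y => rfl
  have hJs : ∀ (g : Pool.Agent.H130R7.E0 →L[ℝ] ℝ) (x : X), (J.symm g) x = g (ι x) :=
    fun g x => rfl
  have hJn : ∀ g, ‖J g‖ ≤ ‖g‖ := by
    intro g
    apply ContinuousLinearMap.opNorm_le_bound _ (norm_nonneg _)
    intro y
    rw [hJ]
    refine (g.le_opNorm _).trans (mul_le_mul_of_nonneg_left ?_ (norm_nonneg _))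
    have := h1 (ι.symm y)
    rwa [ι.apply_symm_apply] at this
  have hJsn : ∀ g, ‖J.symm g‖ ≤ (1001 / 1000) * ‖g‖ := by
    intro g
    apply ContinuousLinearMap.opNorm_le_bound _ (by positivity)
    intro x
    rw [hJs]
    calc ‖g (ι x)‖ ≤ ‖g‖ * ‖ι x‖ := g.le_opNorm _
      _ ≤ ‖g‖ * ((1001 / 1000) * ‖x‖) := mul_le_mul_of_nonneg_left (h2 x) (norm_nonneg _)
      _ = _ := by ring
  let U : (X →L[ℝ] ℝ) →L[ℝ] (X →L[ℝ] ℝ) :=
    (J.symm : (Pool.Agent.H130R7.E0 →L[ℝ] ℝ) →L[ℝ] (X →L[ℝ] ℝ)).comp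
      (T.comp (J : (X →L[ℝ] ℝ) →L[ℝ] (Pool.Agent.H130R7.E0 →L[ℝ] ℝ)))
  have hUa : ∀ g, U g = J.symm (T (J g)) := fun g => rfl
  have hup := Pool.Agent.H130R7.upper_index U (by
    have hb : ‖T‖ ≤ (1001 / 1000) * ‖U‖ := by
      apply ContinuousLinearMap.opNorm_le_bound _
        (mul_nonneg (by norm_num) (ContinuousLinearMap.opNorm_nonneg U))
      intro g
      have h3 : T g = J (U (J.symm g)) := by
        rw [hUa, J.apply_symm_apply, J.apply_symm_apply]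
      rw [h3]
      calc ‖J (U (J.symm g))‖ ≤ ‖U (J.symm g)‖ := hJn _
        _ ≤ ‖U‖ * ‖J.symm g‖ := U.le_opNorm _
        _ ≤ ‖U‖ * ((1001 / 1000) * ‖g‖) :=
            mul_le_mul_of_nonneg_left (hJsn g) (ContinuousLinearMap.opNorm_nonneg U)
        _ = _ := by ring
    exact hT1.trans hb) (by
    intro σ hσ g
    have h3 : g + σ • U g = J.symm (J g + σ • T (J g)) := by
      rw [map_add, map_smul, J.symm_apply_apply, hUa]
    rw [h3]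
    calc ‖J.symm (J g + σ • T (J g))‖ ≤ (1001 / 1000) * ‖J g + σ • T (J g)‖ := hJsn _
      _ ≤ (1001 / 1000) * ((3 / 2) * ‖J g‖) := by
          apply mul_le_mul_of_nonneg_left (hT2 σ hσ _) (by norm_num)
      _ ≤ (1001 / 1000) * ((3 / 2) * ‖g‖) := by
          apply mul_le_mul_of_nonneg_left _ (by norm_num)
          exact mul_le_mul_of_nonneg_left (hJn g) (by norm_num)
      _ = _ := by ring)
  have h35 := hlow.trans (heq.symm.le.trans hup)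
  norm_num at h35


end Pool.Agent.S04718
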