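import Pool.Statements.S04719
import Pool.Agent.H258R3.Surj

set_option autoImplicit false
open Pool Pool.MP_565f87_an

namespace Pool.Agent.S04719

/-- For every monoid whose finitely generated submonoids are all finite, every injective cellular automaton over a finite alphabet (finite memory set, local rule applied to shifted configurations) is surjective. -/
theorem result :
    ∀ (M : Type) [Monoid M],
      (∀ s : Finset M, (Submonoid.closure (s : Set M) : Set M).Finite) →
      ∀ (k : ℕ) (τ : (M → Fin k) → (M → Fin k)),
        (∃ S : Finset M, ∃ μ : ({a : M // a ∈ S} → Fin k) → Fin k,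
          ∀ (x : M → Fin k) (m : M), τ x m = μ (fun s => x (m * s.1))) →
        Function.Injective τ → Function.Surjective τ := by
  intro M _ hM k τ ⟨S, μ, hτ⟩ hinj
  have hτ' : τ = fun (x : M → Fin k) (m : M) => μ (fun s => x (m * s.1)) := by
    funext x m
    exact hτ x m
  rw [hτ'] at hinj ⊢
  refine Pool.Agent.H258R3.glue_right M (Fin k) S μ hinj ?_
  intro N hN hS hNinj
  obtain ⟨s, hs⟩ := hN
  have hfin : Finite N := by
    have := hM s
    rw [hs] at this
    exact this
  exact Finite.injective_iff_surjective.mp hNinj

end Pool.Agent.S04719
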