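import Pool.Statements.S04722
import Pool.Agent.H414R3.LiuWang

set_option autoImplicit false
open MeasureTheory Real ComplexConjugate
open Pool Pool.MP_5691a6_an

namespace Pool.Agent.S04722

/-- The negation of the preceding statement: If the Gabor system of a compactly supported L2 function g with translations T and frequencies S is an orthonormal basis of L2(R^d), then ∣g∣ is a normalized indicator of some Ω, Ω tiles by T, and exponentials over S form an orthogonal basis of L2(Ω). -/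
theorem result :
    ¬ (∀ (d : ℕ), 0 < d →
    ∀ (g : EuclideanSpace ℝ (Fin d) → ℂ) (T S : Set (EuclideanSpace ℝ (Fin d))),
      MemLp g 2 volume → HasCompactSupport g →
      (∀ t₁ ∈ T, ∀ s₁ ∈ S, ∀ t₂ ∈ T, ∀ s₂ ∈ S, (t₁ ≠ t₂ ∨ s₁ ≠ s₂) →
        ∫ x, (g (x - t₁) * Complex.exp (2 * π * Complex.I * ((@inner ℝ _ _ s₁ x : ℝ) : ℂ))) *
          conj (g (x - t₂) * Complex.exp (2 * π * Complex.I * ((@inner ℝ _ _ s₂ x : ℝ) : ℂ))) = 0) →
      (∀ t ∈ T, ∀ s ∈ S,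
        ∫ x, (g (x - t) * Complex.exp (2 * π * Complex.I * ((@inner ℝ _ _ s x : ℝ) : ℂ))) *
          conj (g (x - t) * Complex.exp (2 * π * Complex.I * ((@inner ℝ _ _ s x : ℝ) : ℂ))) = 1) →
      (∀ f : EuclideanSpace ℝ (Fin d) → ℂ, MemLp f 2 volume →
        (∀ t ∈ T, ∀ s ∈ S,
          ∫ x, f x * conj (g (x - t) * Complex.exp (2 * π * Complex.I * ((@inner ℝ _ _ s x : ℝ) : ℂ))) = 0) →
        f =ᵐ[volume] 0) →
      ∃ Ω : Set (EuclideanSpace ℝ (Fin d)),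
        MeasurableSet Ω ∧ 0 < volume Ω ∧ volume Ω < ⊤ ∧
        (∀ᵐ x ∂volume, ‖g x‖ = (volume Ω).toReal ^ (-(1 / 2 : ℝ)) * Ω.indicator (fun _ => (1 : ℝ)) x) ∧
        (∀ᵐ x ∂volume, ∃! l, l ∈ T ∧ x - l ∈ Ω) ∧
        (∀ l ∈ S, ∀ m ∈ S, l ≠ m →
          ∫ x in Ω, Complex.exp (2 * π * Complex.I * ((@inner ℝ _ _ l x : ℝ) : ℂ)) *
            conj (Complex.exp (2 * π * Complex.I * ((@inner ℝ _ _ m x : ℝ) : ℂ))) = 0) ∧
        (∀ f : EuclideanSpace ℝ (Fin d) → ℂ, MemLp f 2 (volume.restrict Ω) →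
          (∀ l ∈ S, ∫ x in Ω, f x * conj (Complex.exp (2 * π * Complex.I * ((@inner ℝ _ _ l x : ℝ) : ℂ))) = 0) →
          f =ᵐ[volume.restrict Ω] 0)) := by
  intro H
  have hcs : HasCompactSupport (fun x : EuclideanSpace ℝ (Fin 2) => H414R3.LW.g0 (H414R3.cel x)) := by
    apply HasCompactSupport.of_support_subset_isCompact
      (isCompact_closedBall (0 : EuclideanSpace ℝ (Fin 2)) 2)
    intro x hx
    rw [Function.mem_support] at hx
    have h1 : (⌈x 0⌉ = 0 ∨ ⌈x 0⌉ = 1) ∧ (⌈x 1⌉ = 0 ∨ ⌈x 1⌉ = 1) := by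
      by_contra hc
      apply hx
      show H414R3.LW.hw ⌈x 0⌉ ⌈x 1⌉ = 0
      unfold H414R3.LW.hw
      rw [if_neg hc]
    have h2 : ∀ y : ℝ, (⌈y⌉ = 0 ∨ ⌈y⌉ = 1) → y ^ 2 ≤ 1 := by
      intro y hy
      rcases hy with hy | hy
      · rw [Int.ceil_eq_iff] at hy
        push_cast at hy
        nlinarith [hy.1, hy.2]
      · rw [Int.ceil_eq_iff] at hy
        push_cast at hy
        nlinarith [hy.1, hy.2]
    rw [mem_closedBall_zero_iff, EuclideanSpace.norm_eq, Fin.sum_univ_two, Real.norm_eq_abs,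
      Real.norm_eq_abs, sq_abs, sq_abs]
    rw [Real.sqrt_le_left (by norm_num)]
    linarith [h2 _ h1.1, h2 _ h1.2]
  have hT : ∀ t₀ : Fin 2 → ℤ, ∀ x : EuclideanSpace ℝ (Fin 2),
      H414R3.LW.g0 (H414R3.cel (x - H414R3.zv t₀)) = H414R3.LW.g0 (H414R3.cel x - t₀) := by
    intro t₀ x
    rw [H414R3.cel_sub]
  obtain ⟨Ω, hΩ, h0, htop, hnorm, htile, -, -⟩ := H 2 (by norm_num)
    (fun x => H414R3.LW.g0 (H414R3.cel x))
    {v | ∃ k l : ℤ, v = H414R3.zv ![2 * k, l]}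
    {v | ∃ a b : ℤ, v = H414R3.LW.fr a b}
    (H414R3.memLp_step _ _ H414R3.LW.hg0 2) hcs
    (by
      rintro _ ⟨k₁, l₁, rfl⟩ _ ⟨a₁, b₁, rfl⟩ _ ⟨k₂, l₂, rfl⟩ _ ⟨a₂, b₂, rfl⟩ hne
      simp only [hT]
      have h1 := H414R3.inner_W H414R3.LW.g0 H414R3.LW.F H414R3.LW.hg0 ![2 * k₁, l₁] ![2 * k₂, l₂]
        (H414R3.LW.fr a₁ b₁) (H414R3.LW.fr a₂ b₂)
      refine Eq.trans h1 ?_
      rw [H414R3.LW.fr_sub]
      by_cases hc : (![2 * k₁, l₁] : Fin 2 → ℤ) ≠ ![2 * k₂, l₂] ∨ (b₁ - b₂) % 2 = 1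
      · rw [H414R3.LW.disc_orth _ _ ⟨k₁, rfl⟩ ⟨k₂, rfl⟩ _ _ hc, zero_mul]
      · push Not at hc
        obtain ⟨hc1, hc2⟩ := hc
        have hev : b₁ - b₂ = 2 * ((b₁ - b₂) / 2) := by omega
        rw [hev, H414R3.LW.fr_even, H414R3.integral_ex_cell, if_neg, mul_zero]
        intro hz
        have z0 := congrFun hz 0
        have z1 := congrFun hz 1
        simp at z0 z1
        have hab : a₁ = a₂ ∧ b₁ = b₂ := by
          constructor <;> omega
        rcases hne with h | h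
        · exact h (by rw [hc1])
        · exact h (by rw [hab.1, hab.2]))
    (by
      rintro _ ⟨k₁, l₁, rfl⟩ _ ⟨a₁, b₁, rfl⟩
      simp only [hT]
      have h1 := H414R3.inner_W H414R3.LW.g0 H414R3.LW.F H414R3.LW.hg0 ![2 * k₁, l₁] ![2 * k₁, l₁]
        (H414R3.LW.fr a₁ b₁) (H414R3.LW.fr a₁ b₁)
      refine Eq.trans h1 ?_
      have hz : H414R3.LW.fr a₁ b₁ - H414R3.LW.fr a₁ b₁ = H414R3.zv (0 : Fin 2 → ℤ) := by
        rw [sub_self, H414R3.zv_zero]
      rw [hz, H414R3.integral_ex_cell, if_pos rfl, H414R3.LW.sumF]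
      simp only [H414R3.ex_zv_zv, add_sub_cancel_right]
      have v00 : H414R3.LW.g0 ![0, 0] = 1 / 2 := by unfold H414R3.LW.g0 H414R3.LW.hw; simp
      have v10 : H414R3.LW.g0 ![1, 0] = 1 / 2 := by unfold H414R3.LW.g0 H414R3.LW.hw; simp
      have v01 : H414R3.LW.g0 ![0, 1] = 1 / 2 := by unfold H414R3.LW.g0 H414R3.LW.hw; simp
      have v11 : H414R3.LW.g0 ![1, 1] = -1 / 2 := by unfold H414R3.LW.g0 H414R3.LW.hw; simp
      have c2 : conj (1 / 2 : ℂ) = 1 / 2 := by simp [Complex.conj_ofNat]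
      have c3 : conj (-1 / 2 : ℂ) = -1 / 2 := by simp [Complex.conj_ofNat]
      rw [v00, v10, v01, v11, c2, c3]
      norm_num)
    (by
      intro f hf horth
      apply H414R3.gabor_complete H414R3.LW.g0 H414R3.LW.F H414R3.LW.hg0 H414R3.LW.P H414R3.LW.hP
        H414R3.LW.disc_complete f hf
      rintro _ ⟨k, l, j, rfl⟩ n
      have h1 := horth (H414R3.zv ![2 * k, l]) ⟨k, l, rfl⟩
        (H414R3.LW.fr (n 0) (j + 2 * n 1)) ⟨_, _, rfl⟩
      simp only [hT] at h1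
      have h2 : H414R3.LW.fr (n 0) (j + 2 * n 1) = H414R3.LW.fr 0 j + H414R3.zv n := by
        ext i
        fin_cases i
        · simp [H414R3.LW.fr]
        · simp [H414R3.LW.fr]; ring
      rw [h2] at h1
      exact h1)
  -- the tiling condition fails on the cell (0, 1)
  have hc : 0 < (volume Ω).toReal ^ (-(1 / 2 : ℝ)) :=
    Real.rpow_pos_of_pos (ENNReal.toReal_pos h0.ne' htop.ne) _
  have hmem : ∀ᵐ x ∂(volume : Measure (EuclideanSpace ℝ (Fin 2))),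
      (H414R3.LW.g0 (H414R3.cel x) ≠ 0 → x ∈ Ω) := by
    filter_upwards [hnorm] with x hx hg
    by_contra hxΩ
    rw [Set.indicator_of_notMem hxΩ, mul_zero] at hx
    exact hg (norm_eq_zero.1 hx)
  have hmem2 : ∀ᵐ x ∂(volume : Measure (EuclideanSpace ℝ (Fin 2))),
      (H414R3.LW.g0 (H414R3.cel (x - H414R3.zv ![0, 1])) ≠ 0 → x - H414R3.zv ![0, 1] ∈ Ω) := by
    have := (H414R3.mp_add (-(H414R3.zv (![0, 1] : Fin 2 → ℤ)))).quasiMeasurePreserving.ae hmem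
    simpa only [sub_eq_add_neg] using this
  have hfalse : ∀ᵐ x ∂(volume : Measure (EuclideanSpace ℝ (Fin 2))),
      x ∉ H414R3.cell (![0, 1] : Fin 2 → ℤ) := by
    filter_upwards [hmem, hmem2, htile] with x h1 h2 h3 hx
    have hx' : H414R3.cel x = ![0, 1] := hx
    have m1 : x ∈ Ω := by
      apply h1
      rw [hx']
      unfold H414R3.LW.g0 H414R3.LW.hw
      simp
    have m2 : x - H414R3.zv ![0, 1] ∈ Ω := by
      apply h2
      rw [hT, hx', sub_self]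
      unfold H414R3.LW.g0 H414R3.LW.hw
      simp
    obtain ⟨l, -, hl⟩ := h3
    have e1 := hl 0 ⟨⟨0, 0, by ext i; fin_cases i <;> simp⟩, by rw [sub_zero]; exact m1⟩
    have e2 := hl (H414R3.zv ![0, 1]) ⟨⟨0, 1, by simp⟩, m2⟩
    have e3 : H414R3.zv (![0, 1] : Fin 2 → ℤ) = 0 := by rw [e2, ← e1]
    have e4 := congrArg (fun v : EuclideanSpace ℝ (Fin 2) => v 1) e3
    simp at e4
  have hz : volume (H414R3.cell (![0, 1] : Fin 2 → ℤ)) = 0 := by
    rw [ae_iff] at hfalse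
    simpa using hfalse
  rw [H414R3.volume_cell] at hz
  exact one_ne_zero hz

end Pool.Agent.S04722
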