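-- Proof of the frozen statement S04754 (negation): an operator on the separable Hilbert space
-- `L²({0,1}^ℕ × ℤ)` whose commutant is transitive.
import Pool.Statements.S04754
import Pool.Agent.H541R3.HI.Fin

set_option autoImplicit false
open Pool Pool.MP_5ac32f_an

namespace Pool.Agent.S04754

/-- The negation of the preceding statement: On every separable reflexive infinite-dimensional complex Banach space, each bounded operator that is not a scalar multiple of the identity has a closed subspace other than 0 and the whole space that is invariant under every operator commuting with it. -/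
theorem result :
    ¬ (∀ (X : Type) [NormedAddCommGroup X] [NormedSpace ℂ X] [CompleteSpace X]
      [TopologicalSpace.SeparableSpace X],
      ¬ FiniteDimensional ℂ X →
      Function.Surjective (NormedSpace.inclusionInDoubleDual ℂ X) →
      ∀ T : X →L[ℂ] X, (∀ c : ℂ, T ≠ c • ContinuousLinearMap.id ℂ X) →
        ∃ M : Submodule ℂ X, IsClosed (M : Set X) ∧ M ≠ ⊥ ∧ M ≠ ⊤ ∧
          ∀ S : X →L[ℂ] X, S * T = T * S → ∀ x ∈ M, S x ∈ M) := by
  exact Pool.Agent.H541R3.HI.final

end Pool.Agent.S04754
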