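import Pool.Statements.S04759
import Pool.Agent.H694R3.InjFinal

set_option autoImplicit false
open Set
open Pool Pool.MP_5b6163_an

namespace Pool.Agent.S04759

/-- There is a finite alphabet and a closed shift-invariant set X of bi-infinite sequences on which every surjective continuous shift-commuting self-map is injective, yet some injective such self-map is not surjective. -/
theorem result :
    ∃ n : ℕ, ∃ X : Set (ℤ → Fin n),
      IsClosed X ∧
      (∀ x : ℤ → Fin n, x ∈ X ↔ (fun i => x (i + 1)) ∈ X) ∧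
      (∀ f : (ℤ → Fin n) → (ℤ → Fin n),
        MapsTo f X X → ContinuousOn f X →
        (∀ x ∈ X, f (fun i => x (i + 1)) = fun i => f x (i + 1)) →
        SurjOn f X X → InjOn f X) ∧
      ¬ (∀ f : (ℤ → Fin n) → (ℤ → Fin n),
        MapsTo f X X → ContinuousOn f X →
        (∀ x ∈ X, f (fun i => x (i + 1)) = fun i => f x (i + 1)) →
        InjOn f X → SurjOn f X X) := by
  refine ⟨3, Pool.Agent.H694R3.Inj.XX, Pool.Agent.H694R3.Inj.isClosed_XX,
    Pool.Agent.H694R3.Inj.shift_mem_iff, ?_, ?_⟩
  · intro f h1 h2 h3 h4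
    exact Pool.Agent.H694R3.Inj.injunctive f h1 h2 h3 h4
  · intro h
    exact Pool.Agent.H694R3.Inj.tau_not_surj
      (h Pool.Agent.H694R3.Inj.tau Pool.Agent.H694R3.Inj.tau_maps
        Pool.Agent.H694R3.Inj.tau_cont.continuousOn (fun _ _ => rfl) Pool.Agent.H694R3.Inj.tau_injOn)

end Pool.Agent.S04759
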