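import Pool.Statements.S04764

set_option autoImplicit false
open Pool Pool.MP_5bcbac_an

namespace Pool.Agent.S04764

open Matrix

theorem cfc_proj {n : ℕ} (P : EuclideanSpace ℂ (Fin n) →L[ℂ] EuclideanSpace ℂ (Fin n))
    (h1 : IsSelfAdjoint P) (h2 : P * P = P) (r : ℝ) (hr : r ≠ 0) :
    cfc (fun x : ℝ => x ^ r) P = P := by
  have hs : spectrum ℝ P ⊆ {0, 1} := IsIdempotentElem.spectrum_subset ℝ h2
  have h3 : cfc (fun x : ℝ => x ^ r) P = cfc (fun x : ℝ => x) P := by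
    apply cfc_congr
    intro x hx
    rcases hs hx with h | h
    · simp [h, Real.zero_rpow hr]
    · have h' : x = 1 := h
      simp [h']
  rw [h3, cfc_id' ℝ P]

theorem cfc_root {n : ℕ} (M : EuclideanSpace ℂ (Fin n) →L[ℂ] EuclideanSpace ℂ (Fin n))
    (h1 : 0 ≤ M) : cfc (fun x : ℝ => x ^ ((1 : ℝ) / 4)) (M ^ 4) = M := by
  have hsa : IsSelfAdjoint M := IsSelfAdjoint.of_nonneg h1
  have h4 : M ^ 4 = cfc (fun x : ℝ => x ^ 4) M := by
    rw [cfc_pow_id (R := ℝ) M 4]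
  rw [h4, ← cfc_comp' (fun x : ℝ => x ^ ((1 : ℝ) / 4)) (fun x : ℝ => x ^ 4) M]
  · have h5 : cfc (fun x : ℝ => (x ^ 4) ^ ((1 : ℝ) / 4)) M = cfc (fun x : ℝ => x) M := by
      apply cfc_congr
      intro x hx
      have hx0 : 0 ≤ x := spectrum_nonneg_of_nonneg h1 hx
      show (x ^ 4) ^ ((1 : ℝ) / 4) = x
      rw [← Real.rpow_natCast x 4, ← Real.rpow_mul hx0]
      norm_num
    rw [h5, cfc_id' ℝ M]

noncomputable def toC (A : Matrix (Fin 2) (Fin 2) ℂ) :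
    EuclideanSpace ℂ (Fin 2) →L[ℂ] EuclideanSpace ℂ (Fin 2) :=
  Matrix.toEuclideanCLM (𝕜 := ℂ) A

theorem trace_toC (A : Matrix (Fin 2) (Fin 2) ℂ) :
    LinearMap.trace ℂ (EuclideanSpace ℂ (Fin 2))
      ((toC A : EuclideanSpace ℂ (Fin 2) →L[ℂ] EuclideanSpace ℂ (Fin 2)) :
        EuclideanSpace ℂ (Fin 2) →ₗ[ℂ] EuclideanSpace ℂ (Fin 2)) = A.trace := by
  unfold toC
  rw [Matrix.coe_toEuclideanCLM_eq_toEuclideanLin, Matrix.toEuclideanLin, Matrix.toLpLin_eq_toLin,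
    Matrix.trace_toLin_eq]

theorem toC_add (A B : Matrix (Fin 2) (Fin 2) ℂ) : toC (A + B) = toC A + toC B := by
  unfold toC; exact map_add _ _ _

theorem toC_sub (A B : Matrix (Fin 2) (Fin 2) ℂ) : toC (A - B) = toC A - toC B := by
  unfold toC; exact map_sub _ _ _

theorem toC_mul (A B : Matrix (Fin 2) (Fin 2) ℂ) : toC (A * B) = toC A * toC B := by
  unfold toC; exact map_mul _ _ _

theorem toC_pow (A : Matrix (Fin 2) (Fin 2) ℂ) (k : ℕ) : toC (A ^ k) = toC A ^ k := by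
  unfold toC; exact map_pow _ _ _

theorem toC_smul (c : ℂ) (A : Matrix (Fin 2) (Fin 2) ℂ) : toC (c • A) = c • toC A := by
  unfold toC; exact map_smul _ _ _

theorem toC_star (A : Matrix (Fin 2) (Fin 2) ℂ) : toC (star A) = star (toC A) := by
  unfold toC; exact map_star _ _

theorem toC_nonneg (A B : Matrix (Fin 2) (Fin 2) ℂ) (h : A = star B * B) : 0 ≤ toC A := by
  rw [h, toC_mul, toC_star]
  exact star_mul_self_nonneg _

theorem result :
    ¬ (∀ (n : ℕ) (X Y : EuclideanSpace ℂ (Fin n) →L[ℂ] EuclideanSpace ℂ (Fin n)) (p : ℝ),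
      0 ≤ X → 0 ≤ Y → 2 ≤ p →
      MonotoneOn
        (fun t : ℝ =>
          (LinearMap.trace ℂ (EuclideanSpace ℂ (Fin n))
            (((Y - cfc (fun x : ℝ => x ^ (1 / p))
                ((t : ℂ) • cfc (fun x : ℝ => x ^ p) X
                  + ((1 - t : ℝ) : ℂ) • cfc (fun x : ℝ => x ^ p) Y)) ^ 2 :
                EuclideanSpace ℂ (Fin n) →L[ℂ] EuclideanSpace ℂ (Fin n)) :
              EuclideanSpace ℂ (Fin n) →ₗ[ℂ] EuclideanSpace ℂ (Fin n))).re)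
        (Set.Icc (0 : ℝ) 1)) := by
  intro H
  -- the numbers `a = 80 / 81`, `b = 1 / 81`, `s = √(a b)`, `α = a ^ (1/4)`
  obtain ⟨s, hs⟩ : ∃ s : ℝ, s ^ 2 = 80 / 6561 := ⟨Real.sqrt (80 / 6561), Real.sq_sqrt (by norm_num)⟩
  obtain ⟨α, hα0, hα⟩ : ∃ α : ℝ, 0 ≤ α ∧ α ^ 4 = 80 / 81 := by
    refine ⟨Real.sqrt (Real.sqrt (80 / 81)), Real.sqrt_nonneg _, ?_⟩
    have h1 : Real.sqrt (Real.sqrt (80 / 81)) ^ 2 = Real.sqrt (80 / 81) :=
      Real.sq_sqrt (Real.sqrt_nonneg _)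
    have h2 : Real.sqrt (80 / 81) ^ 2 = 80 / 81 := Real.sq_sqrt (by norm_num)
    calc Real.sqrt (Real.sqrt (80 / 81)) ^ 4 = (Real.sqrt (Real.sqrt (80 / 81)) ^ 2) ^ 2 := by ring
      _ = 80 / 81 := by rw [h1, h2]
  have hsC : (s : ℂ) ^ 2 = 80 / 6561 := by
    have := congrArg (fun x : ℝ => (x : ℂ)) hs
    push_cast at this
    exact this
  have hαC : (α : ℂ) ^ 4 = 80 / 81 := by
    have := congrArg (fun x : ℝ => (x : ℂ)) hα
    push_cast at this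
    exact this
  obtain ⟨γ, hγ0, hγ⟩ : ∃ γ : ℝ, 0 ≤ γ ∧ γ ^ 2 = α := ⟨Real.sqrt α, Real.sqrt_nonneg _, Real.sq_sqrt hα0⟩
  obtain ⟨δ, hδ0, hδ⟩ : ∃ δ : ℝ, 0 ≤ δ ∧ δ ^ 2 = 1 / 3 :=
    ⟨Real.sqrt (1 / 3), Real.sqrt_nonneg _, Real.sq_sqrt (by norm_num)⟩
  have hγC : (γ : ℂ) ^ 2 = α := by
    have := congrArg (fun x : ℝ => (x : ℂ)) hγ
    push_cast at this
    exact this
  have hδC : (δ : ℂ) ^ 2 = 1 / 3 := by
    have := congrArg (fun x : ℝ => (x : ℂ)) hδ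
    push_cast at this
    exact this
  set X : Matrix (Fin 2) (Fin 2) ℂ := !![80 / 81, (s : ℂ); (s : ℂ), 1 / 81] with hX
  set Y : Matrix (Fin 2) (Fin 2) ℂ := !![80 / 81, -(s : ℂ); -(s : ℂ), 1 / 81] with hY
  set M : Matrix (Fin 2) (Fin 2) ℂ := !![(α : ℂ), 0; 0, 1 / 3] with hM
  set N : Matrix (Fin 2) (Fin 2) ℂ := !![(γ : ℂ), 0; 0, (δ : ℂ)] with hN
  have hXs : star X = X := by
    ext i j
    fin_cases i <;> fin_cases j <;> simp [hX, Matrix.star_apply]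
  have hYs : star Y = Y := by
    ext i j
    fin_cases i <;> fin_cases j <;> simp [hY, Matrix.star_apply]
  have hXX : X * X = X := by
    ext i j
    fin_cases i <;> fin_cases j <;> simp [hX, Matrix.mul_apply, Fin.sum_univ_two] <;>
      first | (linear_combination hsC) | ring
  have hYY : Y * Y = Y := by
    ext i j
    fin_cases i <;> fin_cases j <;> simp [hY, Matrix.mul_apply, Fin.sum_univ_two] <;>
      first | (linear_combination hsC) | ring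
  have hNN : star N * N = M := by
    ext i j
    fin_cases i <;> fin_cases j <;> simp [hN, hM, Matrix.mul_apply, Fin.sum_univ_two, Matrix.star_apply]
    · linear_combination hγC
    · linear_combination hδC
  have hM4 : M ^ 4 = (1 / 2 : ℂ) • X + (1 / 2 : ℂ) • Y := by
    have h2 : M ^ 2 = !![(α : ℂ) ^ 2, 0; 0, 1 / 9] := by
      rw [pow_two]
      ext i j
      fin_cases i <;> fin_cases j <;> simp [hM, Matrix.mul_apply, Fin.sum_univ_two]
      · ring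
      · norm_num
    have h4 : M ^ 4 = M ^ 2 * M ^ 2 := by rw [← pow_add]
    rw [h4, h2]
    ext i j
    fin_cases i <;> fin_cases j <;> simp [hX, hY, Matrix.mul_apply, Fin.sum_univ_two]
    · linear_combination hαC
    · norm_num
  have hX0 : 0 ≤ toC X := toC_nonneg X X (by rw [hXs, hXX])
  have hY0 : 0 ≤ toC Y := toC_nonneg Y Y (by rw [hYs, hYY])
  have hM0 : 0 ≤ toC M := toC_nonneg M N hNN.symm
  have hXc : cfc (fun x : ℝ => x ^ (4 : ℝ)) (toC X) = toC X :=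
    cfc_proj _ (IsSelfAdjoint.of_nonneg hX0) (by rw [← toC_mul, hXX]) 4 (by norm_num)
  have hYc : cfc (fun x : ℝ => x ^ (4 : ℝ)) (toC Y) = toC Y :=
    cfc_proj _ (IsSelfAdjoint.of_nonneg hY0) (by rw [← toC_mul, hYY]) 4 (by norm_num)
  have hXr : cfc (fun x : ℝ => x ^ ((1 : ℝ) / 4)) (toC X) = toC X :=
    cfc_proj _ (IsSelfAdjoint.of_nonneg hX0) (by rw [← toC_mul, hXX]) _ (by norm_num)
  have hMr : cfc (fun x : ℝ => x ^ ((1 : ℝ) / 4)) (toC ((1 / 2 : ℂ) • X + (1 / 2 : ℂ) • Y)) =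
      toC M := by
    rw [← hM4, toC_pow]
    exact cfc_root _ hM0
  have key := H 2 (toC X) (toC Y) 4 hX0 hY0 (by norm_num)
    (show (1 / 2 : ℝ) ∈ Set.Icc (0 : ℝ) 1 by constructor <;> norm_num)
    (show (1 : ℝ) ∈ Set.Icc (0 : ℝ) 1 by constructor <;> norm_num) (by norm_num)
  simp only [hXc, hYc] at key
  have e1 : (((1 / 2 : ℝ) : ℂ) • toC X + (((1 - 1 / 2 : ℝ)) : ℂ) • toC Y) =
      toC ((1 / 2 : ℂ) • X + (1 / 2 : ℂ) • Y) := by
    rw [toC_add, toC_smul, toC_smul]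
    congr 2 <;> norm_num
  have e2 : (((1 : ℝ) : ℂ) • toC X + (((1 - 1 : ℝ)) : ℂ) • toC Y) = toC X := by
    rw [sub_self, Complex.ofReal_one, Complex.ofReal_zero, one_smul]
    have h0 : (0 : ℂ) • toC Y = 0 := zero_smul ℂ (toC Y)
    rw [h0, add_zero]
  rw [e1, e2, hMr, hXr, ← toC_sub, ← toC_sub, ← toC_pow, ← toC_pow, trace_toC, trace_toC] at key
  have t1 : ((Y - M) ^ 2).trace = (((80 / 81 - α) ^ 2 + 2 * s ^ 2 + (1 / 81 - 1 / 3) ^ 2 : ℝ) : ℂ) := by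
    rw [pow_two, Matrix.trace_fin_two]
    simp [hY, hM, Matrix.mul_apply, Fin.sum_univ_two]
    ring
  have t2 : ((Y - X) ^ 2).trace = ((8 * s ^ 2 : ℝ) : ℂ) := by
    rw [pow_two, Matrix.trace_fin_two]
    simp [hY, hX, Matrix.mul_apply, Fin.sum_univ_two]
    ring
  rw [t1, t2, Complex.ofReal_re, Complex.ofReal_re, hs] at key
  nlinarith [sq_nonneg (80 / 81 - α)]

end Pool.Agent.S04764
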