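import Pool.Statements.S04769
import Pool.Agent.H400R3.AFOp3

set_option autoImplicit false
open Pool Pool.MP_5c3535_an

namespace Pool.Agent.S04769

/-- Either some nonseparable C*-algebra with a norm-dense directed union of finite-dimensional *-subalgebras has no *-isomorphism onto its opposite, or some hyperfinite von Neumann algebra with nonseparable predual has none. -/
theorem result :
    (∃ (A : Type) (_ : NonUnitalCStarAlgebra A),
      ¬ TopologicalSpace.SeparableSpace A ∧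
      (∃ S : Set (NonUnitalStarSubalgebra ℂ A), DirectedOn (· ≤ ·) S ∧
        (∀ s ∈ S, FiniteDimensional ℂ (Submodule.span ℂ (s : Set A))) ∧
        Dense (⋃ s ∈ S, (s : Set A))) ∧
      IsEmpty (A ≃⋆ₐ[ℂ] Aᵐᵒᵖ)) ∨
    (∃ (H : Type) (_ : NormedAddCommGroup H) (_ : InnerProductSpace ℂ H) (_ : CompleteSpace H)
      (M : VonNeumannAlgebra H),
      (∃ S : Set (StarSubalgebra ℂ (H →L[ℂ] H)), DirectedOn (· ≤ ·) S ∧
        (∀ s ∈ S, FiniteDimensional ℂ (Submodule.span ℂ (s : Set (H →L[ℂ] H)))) ∧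
        Set.centralizer (Set.centralizer (⋃ s ∈ S, (s : Set (H →L[ℂ] H))))
          = (M.toStarSubalgebra : Set (H →L[ℂ] H))) ∧
      (¬ ∃ (K : Type) (_ : NormedAddCommGroup K) (_ : InnerProductSpace ℂ K) (_ : CompleteSpace K)
          (_ : TopologicalSpace.SeparableSpace K) (N : VonNeumannAlgebra K),
          Nonempty (M.toStarSubalgebra ≃⋆ₐ[ℂ] N.toStarSubalgebra)) ∧
      IsEmpty (M.toStarSubalgebra ≃⋆ₐ[ℂ] (M.toStarSubalgebra)ᵐᵒᵖ)) := by
  left
  exact ⟨Pool.Agent.H400R3.AFOp.Alg Pool.Agent.H400R3.AFOp.Pr Pool.Agent.H400R3.AFOp.proj,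
    inferInstance, Pool.Agent.H400R3.AFOp.main⟩

end Pool.Agent.S04769
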