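import Pool.Statements.S04773
import Pool.Agent.H459R3.Final

set_option autoImplicit false
open Pool Pool.MP_5c5849_an

namespace Pool.Agent.S04773

/-- There are finite q≥2 and C such that, with probability tending to 1 as n grows (uniformly in N≥n), R^n normed by the gauge of the convex hull of ±N i.i.d. standard Gaussian vectors has cotype q with constant at most C. -/
theorem result :
  ∃ q C : ℝ, 2 ≤ q ∧ 0 < C ∧ ∀ ε : ℝ, 0 < ε → ∃ n₀ : ℕ, ∀ n N : ℕ, n₀ ≤ n → n ≤ N →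
    ENNReal.ofReal (1 - ε) ≤
      (MeasureTheory.Measure.pi fun _ : Fin N =>
          MeasureTheory.Measure.pi fun _ : Fin n => ProbabilityTheory.gaussianReal 0 1)
        {g : Fin N → Fin n → ℝ | ∀ (m : ℕ) (x : Fin m → Fin n → ℝ),
          (∑ i, gauge (convexHull ℝ (Set.range g ∪ Set.range (-g))) (x i) ^ q) ^ (1 / q) ≤
            C * ((∑ s : Fin m → Fin 2,
                    gauge (convexHull ℝ (Set.range g ∪ Set.range (-g)))
                      (∑ i, ((-1 : ℝ) ^ (s i : ℕ)) • x i) ^ (2 : ℝ)) / 2 ^ m) ^ (1 / 2 : ℝ)} := by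
  obtain ⟨K, hK, hbad⟩ := H459R3.main_bad
  refine ⟨((4 * 8 : ℕ) : ℝ), K ^ (1 / (((4 * 8 : ℕ)) : ℝ)), by norm_num, by positivity,
    fun ε hε => ?_⟩
  obtain ⟨n₀, hn₀, hexp⟩ := H459R3.exists_n0 hε
  refine ⟨n₀, fun n N hn hnN => ?_⟩
  have hn0 : 0 < n := lt_of_lt_of_le hn₀ hn
  have hN0 : 0 < N := lt_of_lt_of_le hn0 hnN
  set S := {g : Fin N → Fin n → ℝ | ∀ (m : ℕ) (x : Fin m → Fin n → ℝ),
          (∑ i, gauge (convexHull ℝ (Set.range g ∪ Set.range (-g))) (x i) ^ (((4 * 8 : ℕ)) : ℝ))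
              ^ (1 / (((4 * 8 : ℕ)) : ℝ)) ≤
            K ^ (1 / (((4 * 8 : ℕ)) : ℝ)) * ((∑ s : Fin m → Fin 2,
                    gauge (convexHull ℝ (Set.range g ∪ Set.range (-g)))
                      (∑ i, ((-1 : ℝ) ^ (s i : ℕ)) • x i) ^ (2 : ℝ)) / 2 ^ m) ^ (1 / 2 : ℝ)} with hS
  have hTS : {g : Fin N → Fin n → ℝ | H459R3.Good g 8 K} ⊆ S := by
    rintro g ⟨hg, h⟩
    intro m x
    simp_rw [H459R3.gauge_eq hN0 hg]
    have h1 := H459R3.good_L2 (by norm_num) (by linarith) hg h m x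
    refine h1.trans (le_of_eq ?_)
    congr 2
    unfold H459R3.ms H459R3.avg
    rw [Fintype.card_fin]
    congr 1
    have e := Equiv.sum_comp (Equiv.arrowCongr (Equiv.refl (Fin m)) H459R3.bitEquiv)
      (fun s : Fin m → Fin 2 => H459R3.xn g (∑ i, ((-1 : ℝ) ^ (s i : ℕ)) • x i) ^ (2 : ℝ))
    rw [← e]
    refine Finset.sum_congr rfl fun σ _ => ?_
    show (H459R3.xs hg) (H459R3.rad x σ) ^ 2 = _
    rw [H459R3.xs_apply]
    have h2 : (∑ i, ((-1 : ℝ) ^ (((Equiv.arrowCongr (Equiv.refl (Fin m)) H459R3.bitEquiv) σ i : Fin 2) : ℕ)) • x i)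
        = H459R3.rad x σ := by
      unfold H459R3.rad
      refine Finset.sum_congr rfl fun i _ => ?_
      have : ((Equiv.arrowCongr (Equiv.refl (Fin m)) H459R3.bitEquiv) σ i : Fin 2) = H459R3.bitEquiv (σ i) := rfl
      rw [this, H459R3.sign_bit]
    rw [h2]
    exact (Real.rpow_two _).symm
  exact H459R3.prob_ge (H459R3.mu N n) S {g | H459R3.Good g 8 K} hTS (δ := ε) hε.le
    ((hbad N n hn0 hnN).trans (ENNReal.ofReal_le_ofReal (hexp n hn)))

end Pool.Agent.S04773
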