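import Pool.Statements.S04793
import Pool.Agent.H98R3.PF.Fin

set_option autoImplicit false
open MeasureTheory
open Pool Pool.MP_5d8c24_an

namespace Pool.Agent.S04793

/-- For a comeager set of measure-preserving automorphisms T (weak topology) of an atomless standard probability space, every T-invariant sub-σ-algebra containing a set of measure strictly between 0 and 1 contains a strictly smaller such one. -/
theorem result :
    ∀ (α : Type) (mα : MeasurableSpace α) (_ : StandardBorelSpace α) (μ : Measure α),
      IsProbabilityMeasure μ → NoAtoms μ →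
      Filter.Eventually
        (fun T : {e : α ≃ᵐ α // MeasurePreserving e.toFun μ μ} =>
          ∀ F : MeasurableSpace α, F ≤ mα →
            (∀ s, MeasurableSet[F] s →
              (∃ t, MeasurableSet[F] t ∧ μ (symmDiff (Set.preimage T.1.toFun s) t) = 0) ∧
              (∃ t, MeasurableSet[F] t ∧ μ (symmDiff (Set.preimage T.1.invFun s) t) = 0)) →
            (∃ s, MeasurableSet[F] s ∧ 0 < μ s ∧ μ s < 1) →
            ∃ G : MeasurableSpace α, G ≤ F ∧
              (∀ s, MeasurableSet[G] s →
                (∃ t, MeasurableSet[G] t ∧ μ (symmDiff (Set.preimage T.1.toFun s) t) = 0) ∧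
                (∃ t, MeasurableSet[G] t ∧ μ (symmDiff (Set.preimage T.1.invFun s) t) = 0)) ∧
              (∃ s, MeasurableSet[G] s ∧ 0 < μ s ∧ μ s < 1) ∧
              ∃ s, MeasurableSet[F] s ∧ ∀ t, MeasurableSet[G] t → μ (symmDiff s t) ≠ 0)
        (@residual {e : α ≃ᵐ α // MeasurePreserving e.toFun μ μ}
          (⨅ (A : Set α) (B : Set α) (_ : MeasurableSet A) (_ : MeasurableSet B),
            TopologicalSpace.induced
              (fun T : {e : α ≃ᵐ α // MeasurePreserving e.toFun μ μ} =>
                μ (symmDiff (Set.preimage T.1.toFun A) B))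
              inferInstance)) := by
  intro α mα hsb μ hprob hna
  have hns : NullSingletonClass μ := hna
  obtain ⟨B, hB, hd⟩ := H98R3.PF.exists_dense (μ := μ)
  show ∀ᶠ T : H98R3.PF.Au μ in residual (H98R3.PF.Au μ), _
  filter_upwards [H98R3.PF.gen1 hB, H98R3.PF.gen2 hB, H98R3.PF.gen3 hB] with T h1 h2 h3
  have key := fun (P : Set α → Prop) hP hinv hA =>
    H98R3.PF.final_pred T hB hd h1 h2 h3 (P := P) hP hinv hA
  intro F hF hinv hA
  obtain ⟨G, ⟨-, hGe, hGc, hGu⟩, hGP, hG1, hG2, hG3⟩ := key (fun s => MeasurableSet[F] s)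
    (@H98R3.PF.SA.mk α mα _ (fun s hs => hF s hs) (@MeasurableSet.empty α F)
      (fun s hs => @MeasurableSet.compl α s F hs)
      (fun f hf => @MeasurableSet.iUnion α ℕ F _ f hf)) hinv hA
  refine ⟨{ MeasurableSet' := G
            measurableSet_empty := hGe
            measurableSet_compl := hGc
            measurableSet_iUnion := hGu }, fun s hs => hGP s hs, hG1, hG2, hG3⟩

end Pool.Agent.S04793
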