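import Pool.Statements.S04810
import Pool.Agent.H262.FP8
-- import your own Pool.Agent.* helpers here

set_option autoImplicit false
open Pool Pool.MP_5e7086_an

namespace Pool.Agent.S04810

/-- The negation of the preceding statement: There are 0<p<1, a metric space M and an infinite-dimensional real Banach space X such that X maps boundedly into the free p-space of M with a bounded left inverse, i.e. X is isomorphic to a complemented subspace. -/
theorem result :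
    ¬ (∃ (p : ℝ), 0 < p ∧ p < 1 ∧
    ∃ (M : Type) (_ : MetricSpace M)
      (F : Type) (_ : AddCommGroup F) (_ : Module ℝ F)
      (N : F → ℝ) (ι : (M →₀ ℝ) →ₗ[ℝ] F),
      (∀ x, 0 ≤ N x) ∧ (∀ x, N x = 0 ↔ x = 0) ∧
      (∀ (c : ℝ) (x : F), N (c • x) = |c| * N x) ∧
      (∀ x y, N (x + y) ^ p ≤ N x ^ p + N y ^ p) ∧
      (∀ s : ℕ → F, (∀ ε > 0, ∃ K : ℕ, ∀ m ≥ K, ∀ n ≥ K, N (s m - s n) < ε) →
          ∃ z, Filter.Tendsto (fun n => N (s n - z)) Filter.atTop (nhds 0)) ∧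
      (∀ μ : M →₀ ℝ, μ.sum (fun _ a => a) = 0 →
         IsGLB {t : ℝ | ∃ (n : ℕ) (b : Fin n → ℝ) (u v : Fin n → M),
             μ = ∑ j, b j • (Finsupp.single (u j) (1:ℝ) - Finsupp.single (v j) (1:ℝ)) ∧
             t = ∑ j, |b j| ^ p * dist (u j) (v j) ^ p} (N (ι μ) ^ p)) ∧
      (∀ z : F, ∀ ε > 0, ∃ μ : M →₀ ℝ, μ.sum (fun _ a => a) = 0 ∧ N (z - ι μ) < ε) ∧
      ∃ (X : Type) (_ : NormedAddCommGroup X) (_ : NormedSpace ℝ X),
        CompleteSpace X ∧ ¬ FiniteDimensional ℝ X ∧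
        ∃ (T : X →ₗ[ℝ] F) (S : F →ₗ[ℝ] X),
          (∃ C : ℝ, ∀ x, N (T x) ≤ C * ‖x‖) ∧
          (∃ C : ℝ, ∀ y, ‖S y‖ ≤ C * N y) ∧
          ∀ x, S (T x) = x) := by
  rintro ⟨p, hp, hp1, M, _, F, _, _, N, ι, h0, hz, hs, ha, _, hι, hd, X, _, _, _, hX, T, S,
    ⟨C, hC⟩, ⟨D, hD⟩, hST⟩
  -- `M` is nonempty: otherwise `F = 0`
  have hne : Nonempty M := by
    by_contra hemp
    rw [not_nonempty_iff] at hemp
    apply hX
    have hF : ∀ z : F, z = 0 := by
      intro z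
      rw [← hz]
      by_contra hcon
      have hpos : 0 < N z := lt_of_le_of_ne (h0 z) (Ne.symm hcon)
      obtain ⟨μ, _, h2⟩ := hd z (N z) hpos
      have h3 : μ = 0 := by
        ext a
        exact (hemp.false a).elim
      rw [h3, map_zero, sub_zero] at h2
      exact lt_irrefl _ h2
    have hX0 : ∀ x : X, x = 0 := by
      intro x
      rw [← hST x, hF (T x), map_zero]
    have : Subsingleton X := ⟨fun a b => by rw [hX0 a, hX0 b]⟩
    infer_instance
  obtain ⟨o⟩ := hne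
  have hι' : ∀ μ : M →₀ ℝ, μ.sum (fun _ a => a) = 0 →
      N (ι μ) ^ p = Pool.Agent.H262.FP.nn p (Pool.Agent.H262.FP.ωf p) o μ := by
    intro μ hμ
    exact (hι μ hμ).unique (Pool.Agent.H262.FP.isGLB_repCosts hp hp1.le o μ hμ)
  have hDpos : 0 < max D 1 := lt_of_lt_of_le one_pos (le_max_right _ _)
  refine Pool.Agent.H262.FP.no_normed hp hp1 o h0 hs ha ι hι' hd X hX T
    (c := (max D 1)⁻¹) (by positivity) hC (fun x => ?_)
  have h1 := hD (T x)
  rw [hST] at h1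
  have h2 : ‖x‖ ≤ max D 1 * N (T x) :=
    h1.trans (mul_le_mul_of_nonneg_right (le_max_left _ _) (h0 _))
  rw [inv_mul_le_iff₀ hDpos]
  exact h2

end Pool.Agent.S04810
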