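import Pool.Statements.S04816
import Pool.Agent.H382R3.TriFin

set_option autoImplicit false
open Pool Pool.MP_5ed9ac_an

namespace Pool.Agent.S04816

/-- The negation of the preceding statement: For every complex Hilbert space H, any subalgebra of B(H) whose diagonal T ∩ T* is a masa (equals its commutant), and which is maximal among such subalgebras, is closed in the operator-norm topology. -/
theorem result :
    ¬ (∀ (H : Type) [NormedAddCommGroup H] [InnerProductSpace ℂ H] [CompleteSpace H]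
      (T : Subalgebra ℂ (H →L[ℂ] H)),
      Set.centralizer {x : H →L[ℂ] H | x ∈ T ∧ star x ∈ T} = {x : H →L[ℂ] H | x ∈ T ∧ star x ∈ T} →
      (∀ T' : Subalgebra ℂ (H →L[ℂ] H), T ≤ T' →
        Set.centralizer {x : H →L[ℂ] H | x ∈ T' ∧ star x ∈ T'} = {x : H →L[ℂ] H | x ∈ T' ∧ star x ∈ T'} →
        T' = T) →
      IsClosed (T : Set (H →L[ℂ] H))) := by
  intro hall
  let b : HilbertBasis ℤ ℂ (lp (fun _ : ℤ => ℂ) 2) :=
    HilbertBasis.ofRepr (LinearIsometryEquiv.refl ℂ (lp (fun _ : ℤ => ℂ) 2))
  have hsep : TopologicalSpace.SeparableSpace (lp (fun _ : ℤ => ℂ) 2) := H382Tri.sep_of_basis b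
  obtain ⟨T, h1, h2, h3⟩ := H382Tri.not_closed b
  exact h3 (hall _ T h1 h2)

end Pool.Agent.S04816
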