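import Pool.Statements.S04864
import Pool.Agent.H231R3.Chain

set_option autoImplicit false
open Pool Pool.MP_63bee7_an

namespace Pool.Agent.S04864

open Pool.Agent.H231R3

noncomputable section

/-- the one-site Hilbert space -/
abbrev H0 : Type := L2 ℂ

theorem nontriv : Nontrivial H0 := by
  refine ⟨⟨sg 0 1, 0, fun h => ?_⟩⟩
  have := congrArg (fun x : H0 => x 0) h
  simp [sg_apply'] at this

/-- the grading -/
def W : H0 →L[ℂ] H0 := dg (fun i => ((-1 : ℂ) ^ i) • (1 : ℂ →L[ℂ] ℂ)) 1 (fun i => by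
  rw [norm_smul]
  simp)

theorem W_apply (x : H0) (i : ℕ) : W x i = (-1) ^ i * x i := by
  simp [W]

theorem W_sa : star W = W := by
  unfold W
  rw [star_dg]
  ext x i
  simp

theorem WW : W * W = 1 := by
  ext x i
  simp only [mul_apply_eq_comp, W_apply, one_apply_eq_self, ← mul_assoc, ← mul_pow]
  simp

theorem WVW : W * sh * W = -(sh : H0 →L[ℂ] H0) := by
  ext x i
  cases i with
  | zero => simp [W_apply]
  | succ j =>
    simp only [mul_apply_eq_comp, W_apply, sh_succ, ← mul_assoc, neg_apply, lp.coeFn_neg,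
      Pi.neg_apply]
    rw [pow_succ, mul_assoc ((-1) ^ j), mul_comm (-1 : ℂ), ← mul_assoc, ← mul_pow]
    simp

theorem q_cpt : IsCompactOperator (dl : H0 →L[ℂ] H0) := by
  have h : (dl : H0 →L[ℂ] H0) = sg 0 ∘L (ev 0 : H0 →L[ℂ] ℂ) := by
    ext x i
    simp only [dl, pr_apply, ContinuousLinearMap.comp_apply, sg_apply', ev_apply]
    split_ifs with h
    · rw [h]
    · rfl
  rw [h]
  have h1 : IsCompactOperator (sg 0 : ℂ →L[ℂ] H0) :=
    isCompactOperator_of_locallyCompactSpace_rng (sg 0 : ℂ →L[ℂ] H0)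
  exact h1.comp_clm _

theorem the_site : Site (sh : H0 →L[ℂ] H0) (a sh) (b sh) (c sh) W := by
  have := nontriv
  refine site (q := dl) (by rw [star_sh]; exact bs_mul_sh) (by rw [star_sh]; exact sh_bs') q_cpt
    W_sa WW WVW ⟨sg 0 1, ?_, ?_⟩
  · intro h
    have := congrArg (fun x : H0 => x 0) h
    simp [sg_apply'] at this
  · rw [star_sh]
    ext i
    simp [sg_apply']

theorem tail_sq {H : Type} [NormedAddCommGroup H] [InnerProductSpace ℂ H] [CompleteSpace H]
    (y : L2 H) (N : ℕ) :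
    ‖((1 - Pn N : L2 H →L[ℂ] L2 H)) y‖ ^ 2 = ∑' i : ℕ, ‖y (i + N)‖ ^ 2 := by
  have e : ∀ i, ((1 - Pn N : L2 H →L[ℂ] L2 H) y) i = if i < N then 0 else y i := by
    intro i
    rw [Pn, one_sub_pr, pr_apply]
    by_cases h : i < N <;> simp [h]
  rw [l2_norm_sq, ← (l2_summable ((1 - Pn N : L2 H →L[ℂ] L2 H) y)).sum_add_tsum_nat_add N]
  have h1 : ∑ i ∈ Finset.range N, ‖((1 - Pn N : L2 H →L[ℂ] L2 H) y) i‖ ^ 2 = 0 := by
    refine Finset.sum_eq_zero fun i hi => ?_
    rw [e, if_pos (Finset.mem_range.1 hi)]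
    simp
  rw [h1, zero_add]
  refine tsum_congr fun i => ?_
  rw [e, if_neg (by omega)]

/-- the full von Neumann algebra -/
def top (H : Type) [NormedAddCommGroup H] [InnerProductSpace ℂ H] [CompleteSpace H] :
    VonNeumannAlgebra H where
  toStarSubalgebra := ⊤
  centralizer_centralizer' := by
    ext x
    refine ⟨fun _ => trivial, fun _ => ?_⟩
    intro m hm
    exact (hm x trivial).symm

theorem J_eq (H : Type) [NormedAddCommGroup H] [InnerProductSpace ℂ H] [CompleteSpace H] :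
    {S : lp (fun _ : ℕ => H) 2 →L[ℂ] lp (fun _ : ℕ => H) 2 |
        (∀ i j : ℕ, ∀ b ∈ (top H).commutant, ∀ x : H,
                (S (lp.single 2 j (b x) : lp (fun _ : ℕ => H) 2)) i
                  = b ((S (lp.single 2 j x : lp (fun _ : ℕ => H) 2)) i)) ∧
              ∀ ε : ℝ, 0 < ε → ∃ N : ℕ, ∀ x : lp (fun _ : ℕ => H) 2, ‖x‖ ≤ 1 →
                (∑' i : ℕ, ‖(S x) (i + N)‖ ^ 2) ≤ ε ∧
                (∑' i : ℕ, ‖((star S) x) (i + N)‖ ^ 2) ≤ ε} = I0 Pn := by
  ext S
  constructor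
  · rintro ⟨-, h⟩ ε hε
    obtain ⟨N, hN⟩ := h (ε ^ 2) (by positivity)
    refine ⟨N, ?_, ?_⟩
    · refine ContinuousLinearMap.opNorm_le_of_unit_norm hε.le fun x hx => ?_
      have := (hN x hx.le).1
      rw [← tail_sq] at this
      exact (pow_le_pow_iff_left₀ (norm_nonneg _) hε.le two_ne_zero).1 this
    · refine ContinuousLinearMap.opNorm_le_of_unit_norm hε.le fun x hx => ?_
      have := (hN x hx.le).2
      rw [← tail_sq] at this
      exact (pow_le_pow_iff_left₀ (norm_nonneg _) hε.le two_ne_zero).1 this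
  · intro h
    refine ⟨?_, ?_⟩
    · intro i j b hb x
      rw [VonNeumannAlgebra.mem_commutant_iff] at hb
      have := hb (ev i ∘L S ∘L sg j) trivial
      exact DFunLike.congr_fun this x
    · intro ε hε
      obtain ⟨N, h1, h2⟩ := h (Real.sqrt ε) (Real.sqrt_pos.2 hε)
      refine ⟨N, fun x hx => ⟨?_, ?_⟩⟩
      · rw [← tail_sq, ← Real.sq_sqrt hε.le]
        refine pow_le_pow_left₀ (norm_nonneg _) ?_ 2
        exact (((1 - Pn N) * S).le_of_opNorm_le h1 x).trans
          (mul_le_of_le_one_right (Real.sqrt_nonneg _) hx)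
      · rw [← tail_sq, ← Real.sq_sqrt hε.le]
        refine pow_le_pow_left₀ (norm_nonneg _) ?_ 2
        exact (((1 - Pn N) * star S).le_of_opNorm_le h2 x).trans
          (mul_le_of_le_one_right (Real.sqrt_nonneg _) hx)

end

/-- The negation of the preceding statement: For every von Neumann algebra A on H, the multiplier algebra of A⊗K (realized on l2(N,H)) has real rank zero: every self-adjoint element is a norm limit of self-adjoint elements of it with finite spectrum. -/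
theorem result :
    ¬ (∀ (H : Type) [NormedAddCommGroup H] [InnerProductSpace ℂ H] [CompleteSpace H]
      (A : VonNeumannAlgebra H)
      (J : Set (lp (fun _ : ℕ => H) 2 →L[ℂ] lp (fun _ : ℕ => H) 2)),
      J = {S | (∀ i j : ℕ, ∀ b ∈ A.commutant, ∀ x : H,
                (S (lp.single 2 j (b x) : lp (fun _ : ℕ => H) 2)) i
                  = b ((S (lp.single 2 j x : lp (fun _ : ℕ => H) 2)) i)) ∧
              ∀ ε : ℝ, 0 < ε → ∃ N : ℕ, ∀ x : lp (fun _ : ℕ => H) 2, ‖x‖ ≤ 1 →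
                (∑' i : ℕ, ‖(S x) (i + N)‖ ^ 2) ≤ ε ∧
                (∑' i : ℕ, ‖((star S) x) (i + N)‖ ^ 2) ≤ ε} →
      ∀ (M : Set (lp (fun _ : ℕ => H) 2 →L[ℂ] lp (fun _ : ℕ => H) 2)),
        M = {T | ∀ S ∈ J, T * S ∈ J ∧ S * T ∈ J} →
        ∀ T ∈ M, IsSelfAdjoint T → ∀ ε : ℝ, 0 < ε →
          ∃ S ∈ M, IsSelfAdjoint S ∧ (spectrum ℂ S).Finite ∧ ‖T - S‖ < ε) := by
  intro h
  have := nontriv
  have hs := the_site
  refine chain_false hs fun ε hε => ?_
  exact h H0 (top H0) (I0 Pn) (J_eq H0).symm (MM Pn) rfl _ T0_MM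
    (star_T0 hs.sa hs.sb hs.sc) ε hε

end Pool.Agent.S04864
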