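import Pool.Statements.S04865
import Pool.Agent.H68R3.Chu3

set_option autoImplicit false
open scoped Pointwise
open Pool Pool.MP_63c1ce_an

namespace Pool.Agent.S04865

/-- For any group G acting on X: if some countably additive mass-one measure on all subsets of X is zero on every set having infinitely many disjoint countably-equidecomposable copies in X, then some countably additive mass-one G-invariant measure on all subsets exists. -/
theorem result :
    ∀ (G X : Type) [Group G] [MulAction G X],
      (∃ μ : Set X → ENNReal, μ Set.univ = 1 ∧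
        (∀ s : ℕ → Set X, Pairwise (Function.onFun Disjoint s) →
            μ (⋃ n, s n) = ∑' n, μ (s n)) ∧
        (∀ A : Set X,
          (∃ B : ℕ → Set X, Pairwise (Function.onFun Disjoint B) ∧
            ∀ n, ∃ (P : ℕ → Set X) (g : ℕ → G),
              Pairwise (Function.onFun Disjoint P) ∧ (⋃ i, P i) = A ∧
              Pairwise (Function.onFun Disjoint (fun i => g i • P i)) ∧
              (⋃ i, g i • P i) = B n) →
          μ A = 0)) →
      ∃ ν : Set X → ENNReal, ν Set.univ = 1 ∧
        (∀ s : ℕ → Set X, Pairwise (Function.onFun Disjoint s) →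
            ν (⋃ n, s n) = ∑' n, ν (s n)) ∧
        ∀ (g : G) (A : Set X), ν (g • A) = ν A := by
  intro G X _ _ ⟨μ, hμ1, hμ2, hμ3⟩
  letI : MeasurableSpace X := ⊤
  haveI : DiscreteMeasurableSpace X := ⟨fun _ => trivial⟩
  have hempty : μ ∅ = 0 := by
    have hle : μ ∅ ≤ 1 := by
      have h1 := hμ2 (fun n => if n = 0 then Set.univ else ∅) (by
        intro i j hij
        change Disjoint _ _
        by_cases hi : i = 0
        · have hj : j ≠ 0 := fun h => hij (hi.trans h.symm)
          simp [hj]
        · simp [hi])
      have h2 : (⋃ n : ℕ, (if n = 0 then (Set.univ : Set X) else ∅)) = Set.univ := by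
        apply Set.eq_univ_of_forall
        intro x
        exact Set.mem_iUnion.2 ⟨0, by simp⟩
      rw [h2, hμ1] at h1
      have h3 : μ (if (1 : ℕ) = 0 then (Set.univ : Set X) else ∅) ≤
          ∑' n : ℕ, μ (if n = 0 then (Set.univ : Set X) else ∅) := ENNReal.le_tsum 1
      rw [← h1] at h3
      simpa using h3
    have h1 := hμ2 (fun _ => ∅) (by
      intro i j _
      change Disjoint _ _
      simp)
    rw [Set.iUnion_empty] at h1
    by_contra hne
    rw [ENNReal.tsum_const_eq_top_of_ne_zero hne] at h1
    rw [h1] at hle
    exact absurd hle (by simp)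
  set m : MeasureTheory.Measure X := MeasureTheory.Measure.ofMeasurable (fun s _ => μ s) hempty
    (fun f _ hd => hμ2 f hd) with hm
  have hmapp : ∀ A : Set X, m A = μ A := fun A =>
    MeasureTheory.Measure.ofMeasurable_apply A MeasurableSet.of_discrete
  haveI : MeasureTheory.IsFiniteMeasure m := ⟨by rw [hmapp, hμ1]; exact ENNReal.one_lt_top⟩
  have hP : Pool.Agent.H68R3.Chu.PropP G (fun s => m s) := by
    intro A g hA
    simp only
    rw [hmapp]
    exact hμ3 _ (Pool.Agent.H68R3.Chu.pack A g hA)
  obtain ⟨ν, hν1, hν2⟩ := Pool.Agent.H68R3.Chu.main (G := G) m (by rw [hmapp, hμ1]; exact one_ne_zero) hP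
  exact ⟨fun A => ν A, hν1, fun s hs =>
    MeasureTheory.measure_iUnion hs (fun _ => MeasurableSet.of_discrete), hν2⟩

end Pool.Agent.S04865
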