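import Pool.Statements.S04867
import Pool.Agent.H136R4.Final
import Pool.Agent.H136R4.AdmB
import Pool.Agent.H136R4.Bound
import Pool.Agent.H607R4.GLSplit
import Pool.Agent.H136R4.MAX
import Pool.Agent.H136R4.Low
import Pool.Agent.H136R4.LIP
import Pool.Agent.H136R4.Elim
import Pool.Agent.H136R4.SaB
import Pool.Agent.H136R4.Step
import Pool.Agent.H136R4.SEQ
import Pool.Agent.H136R4.LIM
import Pool.Agent.H136R4.Der
import Pool.Agent.H136R4.DISC
import Pool.Agent.H136R4.Trunc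
import Pool.Agent.H136R4.HULLGL
import Pool.Agent.H136R4.KERN
import Pool.Agent.H136R4.GL

set_option autoImplicit false
open Pool Pool.MP_63d1a1_an

namespace Pool.Agent.S04867

/-- There is a compact X in C^N with polynomial hull strictly bigger than X and no analytic discs in hull minus X, such that P(X) has no nonzero bounded point derivations, yet some point of hull minus X shares its Gleason part with another hull point. -/
theorem result :
    ∃ N : ℕ, ∃ X : Set (Fin N → ℂ), IsCompact X ∧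
      (∃ z : Fin N → ℂ, z ∉ X ∧
        ∀ p : MvPolynomial (Fin N) ℂ, ∃ x ∈ X,
          ‖MvPolynomial.eval z p‖ ≤ ‖MvPolynomial.eval x p‖) ∧
      (∀ f : ℂ → (Fin N → ℂ), DifferentiableOn ℂ f (Metric.ball (0 : ℂ) 1) →
        Set.MapsTo f (Metric.ball (0 : ℂ) 1)
          {z : Fin N → ℂ | z ∉ X ∧ ∀ p : MvPolynomial (Fin N) ℂ, ∃ x ∈ X,
            ‖MvPolynomial.eval z p‖ ≤ ‖MvPolynomial.eval x p‖} →
        ∃ c : Fin N → ℂ, ∀ ζ ∈ Metric.ball (0 : ℂ) 1, f ζ = c) ∧
      (∀ z : Fin N → ℂ,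
        (∀ p : MvPolynomial (Fin N) ℂ, ∃ x ∈ X,
          ‖MvPolynomial.eval z p‖ ≤ ‖MvPolynomial.eval x p‖) →
        ∀ D : MvPolynomial (Fin N) ℂ →ₗ[ℂ] ℂ,
          (∀ p q : MvPolynomial (Fin N) ℂ,
            D (p * q) = MvPolynomial.eval z p * D q + MvPolynomial.eval z q * D p) →
          (∃ C : ℝ, ∀ p : MvPolynomial (Fin N) ℂ, ∀ M : ℝ,
            (∀ x ∈ X, ‖MvPolynomial.eval x p‖ ≤ M) → ‖D p‖ ≤ C * M) →
          D = 0) ∧
      (∃ z w : Fin N → ℂ, z ∉ X ∧
        (∀ p : MvPolynomial (Fin N) ℂ, ∃ x ∈ X,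
          ‖MvPolynomial.eval z p‖ ≤ ‖MvPolynomial.eval x p‖) ∧
        (∀ p : MvPolynomial (Fin N) ℂ, ∃ x ∈ X,
          ‖MvPolynomial.eval w p‖ ≤ ‖MvPolynomial.eval x p‖) ∧
        w ≠ z ∧
        ∃ c : ℝ, c < 2 ∧ ∀ p : MvPolynomial (Fin N) ℂ,
          (∀ x ∈ X, ‖MvPolynomial.eval x p‖ ≤ 1) →
          ‖MvPolynomial.eval z p - MvPolynomial.eval w p‖ ≤ c) := by
  have hB := H136R4.boundStmt
  have hE := H136R4.extStmt
  have hS := H607R4.GLSplit.splitStmt
  have hM := H136R4.maxStmt hS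
  have hLow := H136R4.Low.lowStmt hM
  have hLip := H136R4.lipStmt
  have hElim := H136R4.elimStmt
  have hSA := H136R4.saStmtB hB hLip hElim
  have hStep := H136R4.stepStmt hB hS hLow hLip
  have hSeq := H136R4.seqStmt hB hLip hSA hStep
  have hLim := H136R4.limStmt hB hSeq
  have hDer := H136R4.derStmt hB
  have hDisc := H136R4.discStmt
  have hTr := H136R4.truncStmt hB
  have hC := H136R4.compactStmt hB
  have hHull := H136R4.hullStmt hB hE hM hTr hC
  have hGl := H136R4.glStmt hM H136R4.kernStmt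
  have hG := H136R4.gleasonStmt hB hE hTr hGl
  exact H136R4.final H136R4.admStmtB hC hHull hLim hDer hDisc hG

end Pool.Agent.S04867
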