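import Pool.Statements.S04887
import Pool.Agent.H649R3.AdamsFinal

set_option autoImplicit false
open Pool Pool.MP_65cb00_an

namespace Pool.Agent.S04887

/-- There is a constant C such that every smooth compactly supported real u on R^4 with ‖Δu‖₂²+‖∇u‖₂² ≤ 1 satisfies ∫(exp(32π²u²)−1−32π²u²) dx ≤ C. -/
theorem result :
    ∃ C : ℝ, ∀ u : EuclideanSpace ℝ (Fin 4) → ℝ,
      ContDiff ℝ (⊤ : ℕ∞) u → HasCompactSupport u →
      (∫ x, (∑ i : Fin 4,
          fderiv ℝ (fderiv ℝ u) x (EuclideanSpace.single i (1 : ℝ))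
            (EuclideanSpace.single i (1 : ℝ))) ^ 2)
        + (∫ x, ‖fderiv ℝ u x‖ ^ 2) ≤ 1 →
      (∫⁻ x, ENNReal.ofReal
          (Real.exp (32 * Real.pi ^ 2 * (u x) ^ 2) - 1 - 32 * Real.pi ^ 2 * (u x) ^ 2))
        ≤ ENNReal.ofReal C := by
  refine ⟨Pool.Agent.H649R3.Adams.Cfin.toReal, fun u hu hc hE => ?_⟩
  rw [ENNReal.ofReal_toReal Pool.Agent.H649R3.Adams.Cfin_lt_top.ne]
  exact Pool.Agent.H649R3.Adams.adams hu hc hE

end Pool.Agent.S04887
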