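import Pool.Statements.S04919
import Pool.Agent.H822.Final

set_option autoImplicit false
open Pool Pool.MP_697303_an

namespace Pool.Agent.S04919

/-- For 0<k<n there is C such that for every finite field F and real f on F^n, the sum over k-dim subspaces W of (max over translates a+W of the sum of ∣f∣ on a+W)^n is at most C times #Gr(k,n) times (sum of ∣f∣^(n/k))^k. -/
theorem result :
    ∀ n k : ℕ, 0 < k → k < n → ∃ C : ℝ, 0 < C ∧
      ∀ (F : Type) [Field F] [Fintype F] (f : (Fin n → F) → ℝ),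
        (∑ᶠ W : {W : Submodule F (Fin n → F) // Module.finrank F W = k},
            (⨆ a : Fin n → F, ∑ᶠ w : W.1, |f (a + (w : Fin n → F))|) ^ n)
          ≤ C * (Nat.card {W : Submodule F (Fin n → F) // Module.finrank F W = k} : ℝ)
              * (∑ x : Fin n → F, |f x| ^ ((n : ℝ) / k)) ^ k := by
  classical
  intro n k hk hkn
  obtain ⟨C, hC, hB⟩ := Pool.Agent.H822.Bd_all (n - k) (by omega) k hk
  refine ⟨C + 1, by linarith, ?_⟩
  intro F _ _ f
  have hfin : Module.finrank F (Fin n → F) = (n - k) + k := by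
    rw [Module.finrank_fintype_fun_eq_card, Fintype.card_fin]; omega
  have hk0 : k ≠ 0 := by omega
  set g : (Fin n → F) → ℝ := fun x => |f x| ^ ((k : ℝ)⁻¹) with hg
  have hg0 : ∀ x, 0 ≤ g x := fun x => Real.rpow_nonneg (abs_nonneg _) _
  have hgk : ∀ x, g x ^ k = |f x| := fun x => Real.rpow_inv_natCast_pow (abs_nonneg _) hk0
  have hgn : ∀ x, g x ^ n = |f x| ^ ((n : ℝ) / k) := by
    intro x
    rw [hg]
    simp only
    rw [← Real.rpow_natCast, ← Real.rpow_mul (abs_nonneg _)]
    congr 1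
    rw [div_eq_inv_mul]
  -- the coset sums
  have hcs : ∀ (W : Submodule F (Fin n → F)) (a : Fin n → F),
      ∑ᶠ w : W, |f (a + (w : Fin n → F))| = ∑ x ∈ Pool.Agent.H822.cs W a, g x ^ k := by
    intro W a
    rw [finsum_eq_sum_of_fintype]
    apply Finset.sum_bij (fun (w : W) _ => a + (w : Fin n → F))
    · intro w _
      rw [Pool.Agent.H822.mem_cs, add_sub_cancel_left]; exact w.2
    · intro w _ w' _ h
      exact Subtype.ext (add_left_cancel h)
    · intro x hx
      rw [Pool.Agent.H822.mem_cs] at hx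
      exact ⟨⟨x - a, hx⟩, Finset.mem_univ _, by simp⟩
    · intro w _
      rw [hgk]
  have hsup : ∀ W : Submodule F (Fin n → F), ∃ a : Fin n → F,
      (⨆ a : Fin n → F, ∑ᶠ w : W, |f (a + (w : Fin n → F))|) =
        ∑ x ∈ Pool.Agent.H822.cs W a, g x ^ k := by
    intro W
    obtain ⟨a, ha⟩ := exists_eq_ciSup_of_finite (f := fun a : Fin n → F => ∑ᶠ w : W, |f (a + (w : Fin n → F))|)
    exact ⟨a, by rw [← ha, hcs]⟩
  choose a ha using hsup
  have hmain := hB F (Fin n → F) hfin g hg0 a
  have hnk : n - k + k = n := by omega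
  rw [hnk] at hmain
  have hcard : (Nat.card {W : Submodule F (Fin n → F) // Module.finrank F W = k} : ℝ) =
      ((Pool.Agent.H822.Gr F (Fin n → F) k).card : ℝ) := by
    rw [Nat.card_eq_fintype_card, Fintype.card_subtype]
    rfl
  have hlhs : (∑ᶠ W : {W : Submodule F (Fin n → F) // Module.finrank F W = k},
      (⨆ a : Fin n → F, ∑ᶠ w : W.1, |f (a + (w : Fin n → F))|) ^ n) =
      ∑ W ∈ Pool.Agent.H822.Gr F (Fin n → F) k, (∑ x ∈ Pool.Agent.H822.cs W (a W), g x ^ k) ^ n := by
    rw [finsum_eq_sum_of_fintype]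
    have h1 : ∀ W : {W : Submodule F (Fin n → F) // Module.finrank F W = k},
        (⨆ a : Fin n → F, ∑ᶠ w : W.1, |f (a + (w : Fin n → F))|) ^ n =
        (fun W : Submodule F (Fin n → F) => (∑ x ∈ Pool.Agent.H822.cs W (a W), g x ^ k) ^ n) W.1 := by
      intro W
      simp only
      rw [ha W.1]
    rw [Finset.sum_congr rfl (fun W _ => h1 W)]
    unfold Pool.Agent.H822.Gr
    symm
    apply Finset.sum_subtype
    intro W
    simp
  rw [hlhs, hcard]
  simp_rw [hgn] at hmain
  have h3 : 0 ≤ ((Pool.Agent.H822.Gr F (Fin n → F) k).card : ℝ) * (∑ x : Fin n → F, |f x| ^ ((n : ℝ) / k)) ^ k := by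
    apply mul_nonneg (Nat.cast_nonneg _)
    apply pow_nonneg
    exact Finset.sum_nonneg (fun x _ => Real.rpow_nonneg (abs_nonneg _) _)
  calc _ ≤ _ := hmain
    _ ≤ _ := by
      rw [mul_assoc, mul_assoc]
      apply mul_le_mul_of_nonneg_right _ h3
      linarith

end Pool.Agent.S04919
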