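import Pool.Statements.S04934
import Pool.Agent.H130R6.DL

set_option autoImplicit false
open Pool Pool.MP_6ac155_an

namespace Pool.Agent.S04934

/-- The negation of the preceding statement: There is a real Banach space with the diametral local diameter two property (slices of the unit ball) that fails the diametral diameter two property (relatively weakly open subsets of the unit ball). -/
theorem result :
    ¬ (∃ (X : Type) (_ : NormedAddCommGroup X) (_ : NormedSpace ℝ X) (_ : CompleteSpace X),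
      (∀ (f : X →L[ℝ] ℝ) (α : ℝ), 0 < α → ∀ x : X, ‖x‖ = 1 → ‖f‖ - α < f x →
        ∀ ε : ℝ, 0 < ε → ∃ y : X, ‖y‖ ≤ 1 ∧ ‖f‖ - α < f y ∧ 2 - ε < ‖x - y‖) ∧
      ¬ (∀ (n : ℕ) (g : Fin n → (X →L[ℝ] ℝ)) (δ : ℝ), 0 < δ → ∀ x : X, ‖x‖ = 1 →
        ∀ ε : ℝ, 0 < ε → ∃ y : X, ‖y‖ ≤ 1 ∧ (∀ i, |g i (y - x)| < δ) ∧ 2 - ε < ‖x - y‖)) := by
  rintro ⟨X, i1, i2, _, hD, hn⟩
  apply hn
  intro n g δ hδ x hx ε hε
  have H : ∀ (v : X →L[ℝ] ℝ) (x : X), ‖x‖ = 1 → ∀ τ : ℝ, 0 < τ → ∀ ε : ℝ, 0 < ε →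
      ∃ y : X, ‖y‖ ≤ 1 ∧ (LinearMap.id : (X →L[ℝ] ℝ) →ₗ[ℝ] (X →L[ℝ] ℝ)) v x - τ <
        (LinearMap.id : (X →L[ℝ] ℝ) →ₗ[ℝ] (X →L[ℝ] ℝ)) v y ∧ 2 - ε < ‖x - y‖ := by
    intro v x hx τ hτ ε hε
    have hvx : v x ≤ ‖v‖ := by
      have h1 := v.le_opNorm x
      rw [hx, mul_one, Real.norm_eq_abs] at h1
      exact (le_abs_self _).trans h1
    obtain ⟨y, hy1, hy2, hy3⟩ := hD v (‖v‖ - v x + τ) (by linarith) x hx (by linarith) ε hε
    refine ⟨y, hy1, ?_, hy3⟩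
    simp only [LinearMap.id_coe, id_eq]
    linarith
  exact Pool.Agent.H130R6.slices_to_weak LinearMap.id H n g δ hδ x hx ε hε

end Pool.Agent.S04934
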