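import Pool.Statements.S04946
import Pool.Agent.H786R3.GS5

set_option autoImplicit false
open Pool Pool.MP_6b330e_an

namespace Pool.Agent.S04946

/-- The negation of the preceding statement: For every separable infinite-dimensional reflexive complex Banach space, within the contractions under the weak operator topology, the weakly stable ones form a meagre set and the almost weakly stable ones (density-one subsequence) form a residual set. -/
theorem result :
    ¬ (∀ (X : Type) [NormedAddCommGroup X] [NormedSpace ℂ X] [CompleteSpace X]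
      [TopologicalSpace.SeparableSpace X],
      ¬ FiniteDimensional ℂ X →
      Function.Surjective (NormedSpace.inclusionInDoubleDual ℂ X) →
      (@IsMeagre {T : X →L[ℂ] X // ‖T‖ ≤ 1}
          (TopologicalSpace.induced
            (fun (T : {T : X →L[ℂ] X // ‖T‖ ≤ 1}) (p : X × (X →L[ℂ] ℂ)) => p.2 (T.1 p.1))
            (Pi.topologicalSpace : TopologicalSpace (X × (X →L[ℂ] ℂ) → ℂ)))
          {T | ∀ (x : X) (f : X →L[ℂ] ℂ),
              Filter.Tendsto (fun n : ℕ => f ((T.1 ^ n) x)) Filter.atTop (nhds 0)}) ∧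
      ({T : {T : X →L[ℂ] X // ‖T‖ ≤ 1} | ∀ x : X, ∃ J : Set ℕ,
          Filter.Tendsto (fun N : ℕ => (Nat.card (J ∩ Set.Iio N : Set ℕ) : ℝ) / (N : ℝ))
            Filter.atTop (nhds 1) ∧
          ∀ f : X →L[ℂ] ℂ,
            Filter.Tendsto (fun n : ℕ => f ((T.1 ^ n) x))
              (Filter.atTop ⊓ Filter.principal J) (nhds 0)} ∈
        @residual {T : X →L[ℂ] X // ‖T‖ ≤ 1}
          (TopologicalSpace.induced
            (fun (T : {T : X →L[ℂ] X // ‖T‖ ≤ 1}) (p : X × (X →L[ℂ] ℂ)) => p.2 (T.1 p.1))
            (Pi.topologicalSpace : TopologicalSpace (X × (X →L[ℂ] ℂ) → ℂ))))) := by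
  intro h
  exact Pool.Agent.H786R3.GS.not_meagre
    (h Pool.Agent.H786R3.GS.X Pool.Agent.H786R3.GS.X_infinite Pool.Agent.H786R3.GS.X_reflexive).1

end Pool.Agent.S04946
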