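import Pool.Statements.S04961
import Pool.Agent.H788R3.Dom

set_option autoImplicit false
open MeasureTheory
open Pool Pool.MP_6c36f4_an

namespace Pool.Agent.S04961

open Pool.Agent.H788R3 Set Metric
open scoped ENNReal

theorem normsq_pos : 0 < ∫ v in Om ∩ ball 0 2, ‖v 1‖ ^ 2 := by
  have hmem : (![0, 1] : Fin 2 → ℂ) ∈ Om ∩ ball 0 2 := by
    constructor
    · show ((![0, 1] : Fin 2 → ℂ) 0, (![0, 1] : Fin 2 → ℂ) 1) ∈ U E0
      exact ⟨by simp, by simp⟩
    · rw [mem_ball_zero_iff, pi_norm_lt_iff (by norm_num)]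
      intro i
      fin_cases i <;> simp
  have hopen : IsOpen (Om ∩ ball (0 : Fin 2 → ℂ) 2) := Om_open.inter isOpen_ball
  have hint : IntegrableOn (fun v : Fin 2 → ℂ => ‖v 1‖ ^ 2) (Om ∩ ball 0 2) := by
    have h1 : MemLp (fun v : Fin 2 → ℂ => v 1) 2 (volume.restrict (Om ∩ ball 0 2)) :=
      f0_mem2.mono_measure (Measure.restrict_mono inter_subset_left le_rfl)
    have h2 := h1.integrable_norm_pow (by norm_num)
    exact h2
  rw [setIntegral_pos_iff_support_of_nonneg_ae]
  · have hsub : Om ∩ ball 0 2 ⊆ Function.support (fun v : Fin 2 → ℂ => ‖v 1‖ ^ 2) ∩ (Om ∩ ball 0 2) := by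
      intro v hv
      refine ⟨?_, hv⟩
      have h1 : v 1 ≠ 0 := hv.1.1
      simp [h1]
    exact lt_of_lt_of_le (hopen.measure_pos volume ⟨_, hmem⟩) (measure_mono hsub)
  · exact Filter.Eventually.of_forall (fun v => by positivity)
  · exact hint

theorem normsq_int : IntegrableOn (fun v : Fin 2 → ℂ => ‖v 1‖ ^ 2) Om :=
  f0_mem2.integrable_norm_pow (by norm_num)

theorem N_pos : 0 < ∫ v in Om, ‖v 1‖ ^ 2 := by
  refine lt_of_lt_of_le normsq_pos ?_
  apply setIntegral_mono_set normsq_int
  · exact Filter.Eventually.of_forall (fun v => by positivity)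
  · exact Filter.Eventually.of_forall inter_subset_left

theorem int_self : ∫ v in Om, v 1 * (starRingEnd ℂ) (v 1) = ((∫ v in Om, ‖v 1‖ ^ 2 : ℝ) : ℂ) := by
  rw [← integral_complex_ofReal]
  congr 1
  ext v
  rw [Complex.mul_conj']
  push_cast
  rfl

theorem int_self_integrable : Integrable (fun v : Fin 2 → ℂ => v 1 * (starRingEnd ℂ) (v 1)) (volume.restrict Om) := by
  have h := normsq_int.ofReal (𝕜 := ℂ)
  refine h.congr (Filter.Eventually.of_forall (fun v => ?_))
  simp only
  rw [Complex.mul_conj']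
  push_cast
  rfl

/-- There is a domain in ℂⁿ (n ≥ 1) and reals 1 < a < b such that, for p > 1, its Bergman projection satisfies ‖Pf‖_p ≤ C‖f‖_p on L² ∩ Lᵖ exactly when a ≤ p ≤ b. -/
theorem result : ∃ n : ℕ, 1 ≤ n ∧ ∃ Ω : Set (Fin n → ℂ), IsOpen Ω ∧ IsConnected Ω ∧
    ∃ a b : ℝ, 1 < a ∧ a < b ∧ ∀ p : ℝ, 1 < p →
      ((∃ C : ℝ, ∀ f g : (Fin n → ℂ) → ℂ,
          MemLp f 2 (volume.restrict Ω) →
          MemLp f (ENNReal.ofReal p) (volume.restrict Ω) →
          DifferentiableOn ℂ g Ω →
          MemLp g 2 (volume.restrict Ω) →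
          (∀ h : (Fin n → ℂ) → ℂ, DifferentiableOn ℂ h Ω → MemLp h 2 (volume.restrict Ω) →
              ∫ z in Ω, (f z - g z) * (starRingEnd ℂ) (h z) = 0) →
          eLpNorm g (ENNReal.ofReal p) (volume.restrict Ω)
            ≤ ENNReal.ofReal C * eLpNorm f (ENNReal.ofReal p) (volume.restrict Ω))
        ↔ (a ≤ p ∧ p ≤ b)) := by
  refine ⟨2, by norm_num, Om, Om_open, Om_conn, 3/2, 3, by norm_num, by norm_num, ?_⟩
  intro p hp
  have hp0 : 0 < p := by linarith
  constructor
  · rintro ⟨C, hC⟩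
    by_contra hcon
    have hcase : p < 3/2 ∨ 3 < p := by
      by_contra h
      push Not at h
      exact hcon h
    set K : Set (Fin 2 → ℂ) := Om ∩ ball 0 2 with hK
    have hKopen : IsOpen K := Om_open.inter isOpen_ball
    have hKm : MeasurableSet K := hKopen.measurableSet
    have hKfin : volume K ≠ ∞ := ne_top_of_le_ne_top (measure_ball_lt_top (x := (0 : Fin 2 → ℂ)) (r := 2)).ne
      (measure_mono inter_subset_right)
    have hfq : ∀ q : ℝ≥0∞, MemLp (K.indicator (fun v : Fin 2 → ℂ => v 1)) q (volume.restrict Om) := by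
      intro q
      rw [memLp_indicator_iff_restrict hKm]
      have : IsFiniteMeasure ((volume.restrict Om).restrict K) := by
        refine ⟨?_⟩
        rw [Measure.restrict_apply_univ]
        exact lt_of_le_of_lt (Measure.restrict_apply_le _ _) (lt_top_iff_ne_top.mpr hKfin)
      apply MemLp.of_bound (C := 2) (continuous_apply 1).aestronglyMeasurable
      rw [ae_restrict_iff' hKm]
      refine Filter.Eventually.of_forall (fun v hv => ?_)
      have h1 : ‖v‖ < 2 := by simpa using hv.2
      exact (norm_le_pi_norm v 1).trans h1.le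
    set N : ℝ := ∫ v in Om, ‖v 1‖ ^ 2 with hN
    have hN0 : 0 < N := N_pos
    set M : ℝ := ∫ v in K, ‖v 1‖ ^ 2 with hM
    have hM0 : 0 < M := normsq_pos
    have hfint : ∫ v in Om, (K.indicator (fun v : Fin 2 → ℂ => v 1) v) * (starRingEnd ℂ) (v 1) = (M : ℂ) := by
      have h1 : ∀ v : Fin 2 → ℂ, (K.indicator (fun v : Fin 2 → ℂ => v 1) v) * (starRingEnd ℂ) (v 1) =
          K.indicator (fun v : Fin 2 → ℂ => ((‖v 1‖ ^ 2 : ℝ) : ℂ)) v := by
        intro v
        by_cases hv : v ∈ K
        · rw [indicator_of_mem hv, indicator_of_mem hv, Complex.mul_conj']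
          push_cast
          rfl
        · rw [indicator_of_notMem hv, indicator_of_notMem hv, zero_mul]
      simp_rw [h1]
      rw [integral_indicator hKm, Measure.restrict_restrict hKm, hM]
      have h2 : K ∩ Om = K := inter_eq_left.mpr inter_subset_left
      rw [h2, ← integral_complex_ofReal]
    have hfI : Integrable (fun v : Fin 2 → ℂ => (K.indicator (fun v : Fin 2 → ℂ => v 1) v) * (starRingEnd ℂ) (v 1))
        (volume.restrict Om) := by
      exact (hfq 2).integrable_mul f0_mem2.star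
    have key := hC (K.indicator (fun v : Fin 2 → ℂ => v 1)) (fun v => ((M / N : ℝ) : ℂ) * v 1) (hfq 2) (hfq _)
      (by fun_prop) (f0_mem2.const_mul _) (by
        intro h hd hm
        obtain ⟨c', hc'⟩ := classify' h hd hm
        have h1 : ∫ z in Om, (K.indicator (fun v : Fin 2 → ℂ => v 1) z - ((M / N : ℝ) : ℂ) * z 1) * (starRingEnd ℂ) (h z) =
            ∫ z in Om, (starRingEnd ℂ) c' * ((K.indicator (fun v : Fin 2 → ℂ => v 1) z) * (starRingEnd ℂ) (z 1) -
              ((M / N : ℝ) : ℂ) * (z 1 * (starRingEnd ℂ) (z 1))) := by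
          apply setIntegral_congr_fun Om_open.measurableSet
          intro z hz
          simp only
          rw [hc' z hz, map_mul]
          ring
        rw [h1, integral_const_mul, integral_sub hfI (int_self_integrable.const_mul _), integral_const_mul, hfint, int_self, ← hN]
        have : (M : ℂ) - ((M / N : ℝ) : ℂ) * (N : ℂ) = 0 := by
          rw [← Complex.ofReal_mul, div_mul_cancel₀ _ hN0.ne', sub_self]
        rw [this, mul_zero])
    have h2 : eLpNorm (fun v : Fin 2 → ℂ => ((M / N : ℝ) : ℂ) * v 1) (ENNReal.ofReal p) (volume.restrict Om) = ∞ := by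
      have h3 := eLpNorm_const_smul (((M / N : ℝ) : ℂ)) (fun v : Fin 2 → ℂ => v 1) (ENNReal.ofReal p) (volume.restrict Om)
      have h4 : (((M / N : ℝ) : ℂ) • fun v : Fin 2 → ℂ => v 1) = fun v : Fin 2 → ℂ => ((M / N : ℝ) : ℂ) * v 1 := by
        ext v
        simp
      rw [h4, f0_top hp0 hcase] at h3
      rw [h3]
      apply ENNReal.mul_top
      have : (M / N : ℝ) ≠ 0 := (div_pos hM0 hN0).ne'
      simpa using this
    rw [h2, top_le_iff] at key
    have h5 := (hfq (ENNReal.ofReal p)).2
    exact absurd key (ENNReal.mul_lt_top ENNReal.ofReal_lt_top h5).ne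
  · rintro ⟨h1, h2⟩
    set p' : ℝ := p / (p - 1) with hp'
    have hpm : 0 < p - 1 := by linarith
    have hp'0 : 0 < p' := by positivity
    have hp'1 : 3/2 ≤ p' := by
      rw [hp', le_div_iff₀ hpm]
      linarith
    have hp'2 : p' ≤ 3 := by
      rw [hp', div_le_iff₀ hpm]
      linarith
    set N : ℝ := ∫ v in Om, ‖v 1‖ ^ 2 with hN
    have hN0 : 0 < N := N_pos
    set A := eLpNorm (fun v : Fin 2 → ℂ => v 1) (ENNReal.ofReal p) (volume.restrict Om) with hA
    set B := eLpNorm (fun v : Fin 2 → ℂ => v 1) (ENNReal.ofReal p') (volume.restrict Om) with hB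
    have hAfin : A ≠ ∞ := (f0_memLp hp0 h1 h2).2.ne
    have hBfin : B ≠ ∞ := (f0_memLp hp'0 hp'1 hp'2).2.ne
    refine ⟨(A * B / ENNReal.ofReal N).toReal, ?_⟩
    intro f g hf2 hfp hgd hg2 horth
    obtain ⟨c, hc⟩ := classify' g hgd hg2
    have hg : eLpNorm g (ENNReal.ofReal p) (volume.restrict Om) = ‖c‖ₑ * A := by
      have h3 := eLpNorm_const_smul c (fun v : Fin 2 → ℂ => v 1) (ENNReal.ofReal p) (volume.restrict Om)
      rw [← hA] at h3
      rw [← h3]
      apply eLpNorm_congr_ae
      rw [Filter.EventuallyEq, ae_restrict_iff' Om_open.measurableSet]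
      refine Filter.Eventually.of_forall (fun v hv => ?_)
      rw [hc v hv]
      simp
    have hfI : Integrable (fun v : Fin 2 → ℂ => f v * (starRingEnd ℂ) (v 1)) (volume.restrict Om) :=
      hf2.integrable_mul f0_mem2.star
    have h4 := horth (fun v => v 1) (by fun_prop) f0_mem2
    have h5 : ∫ z in Om, (f z - g z) * (starRingEnd ℂ) (z 1) =
        (∫ z in Om, f z * (starRingEnd ℂ) (z 1)) - c * (N : ℂ) := by
      have h6 : ∫ z in Om, (f z - g z) * (starRingEnd ℂ) (z 1) =
          ∫ z in Om, (f z * (starRingEnd ℂ) (z 1) - c * (z 1 * (starRingEnd ℂ) (z 1))) := by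
        apply setIntegral_congr_fun Om_open.measurableSet
        intro z hz
        simp only
        rw [hc z hz]
        ring
      rw [h6, integral_sub hfI (int_self_integrable.const_mul _), integral_const_mul, int_self, ← hN]
    rw [h5, sub_eq_zero] at h4
    have hhol : ‖∫ z in Om, f z * (starRingEnd ℂ) (z 1)‖ₑ ≤
        eLpNorm f (ENNReal.ofReal p) (volume.restrict Om) * B := by
      refine (enorm_integral_le_lintegral_enorm _).trans ?_
      have hconj : p.HolderConjugate p' := Real.HolderConjugate.conjExponent hp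
      have h7 := ENNReal.lintegral_mul_le_Lp_mul_Lq (volume.restrict Om) hconj
        hf2.1.enorm (g := fun v : Fin 2 → ℂ => ‖v 1‖ₑ) f0_meas.enorm
      rw [hB, eLpNorm_eq_lintegral_rpow_enorm_toReal (by simpa using hp0) ENNReal.ofReal_ne_top,
        eLpNorm_eq_lintegral_rpow_enorm_toReal (by simpa using hp'0) ENNReal.ofReal_ne_top,
        ENNReal.toReal_ofReal hp0.le, ENNReal.toReal_ofReal hp'0.le]
      refine le_trans (le_of_eq ?_) h7
      congr 1
      ext v
      simp only [Pi.mul_apply, enorm_mul]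
      congr 1
      rw [← ofReal_norm, ← ofReal_norm]
      simp
    have hcN : ‖c‖ₑ * ENNReal.ofReal N ≤ eLpNorm f (ENNReal.ofReal p) (volume.restrict Om) * B := by
      have h8 : ‖c * (N : ℂ)‖ₑ = ‖c‖ₑ * ENNReal.ofReal N := by
        rw [enorm_mul]
        congr 1
        rw [← ofReal_norm]
        simp [abs_of_pos hN0]
      rw [← h8, ← h4]
      exact hhol
    have hNne : ENNReal.ofReal N ≠ 0 := by simpa using hN0
    have hNtop : ENNReal.ofReal N ≠ ∞ := ENNReal.ofReal_ne_top
    have hCfin : A * B / ENNReal.ofReal N ≠ ∞ := ENNReal.div_ne_top (ENNReal.mul_ne_top hAfin hBfin) hNne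
    rw [hg, ENNReal.ofReal_toReal hCfin]
    have h9 : ‖c‖ₑ ≤ eLpNorm f (ENNReal.ofReal p) (volume.restrict Om) * B / ENNReal.ofReal N := by
      rw [ENNReal.le_div_iff_mul_le (Or.inl hNne) (Or.inl hNtop)]
      exact hcN
    calc ‖c‖ₑ * A ≤ (eLpNorm f (ENNReal.ofReal p) (volume.restrict Om) * B / ENNReal.ofReal N) * A := by gcongr
      _ = A * B / ENNReal.ofReal N * eLpNorm f (ENNReal.ofReal p) (volume.restrict Om) := by
        simp only [div_eq_mul_inv]
        ring

end Pool.Agent.S04961
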