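import Pool.Statements.S04970
import Pool.Agent.H822.SF7

set_option autoImplicit false
open Pool Pool.MP_6d7699_an

namespace Pool.Agent.S04970

/-- The negation of the preceding statement: For every probability measure μ on the integers with bounded angular ratio, the square function (sum over n≥1 of n·((μ^n−μ^(n+1))∗f)²)^(1/2) is weak type (1,1): the number of k with value > λ is at most A·‖f‖₁/λ. -/
theorem result :
    ¬ (∀ μ : ℤ → ℝ, (∀ k, 0 ≤ μ k) → HasSum μ 1 →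
      (∀ t : ℝ, 0 < |t| → |t| ≤ Real.pi →
        ‖∑' k : ℤ, (μ k : ℂ) * Complex.exp (((t * (k : ℝ) : ℝ) : ℂ) * Complex.I)‖ < 1) →
      (∃ C : ℝ, ∀ t : ℝ, 0 < |t| → |t| ≤ Real.pi →
        ‖1 - ∑' k : ℤ, (μ k : ℂ) * Complex.exp (((t * (k : ℝ) : ℝ) : ℂ) * Complex.I)‖
          ≤ C * (1 - ‖∑' k : ℤ, (μ k : ℂ) * Complex.exp (((t * (k : ℝ) : ℝ) : ℂ) * Complex.I)‖)) →
      ∃ A : ℝ, 0 < A ∧ ∀ f : ℤ → ℝ, Summable (fun k => |f k|) → ∀ lam : ℝ, 0 < lam →
        MeasureTheory.Measure.count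
          {k : ℤ | ENNReal.ofReal (lam ^ 2) <
            ∑' n : ℕ, ENNReal.ofReal (((n : ℝ) + 1) *
              (∑' j : ℤ,
                (Nat.iterate (fun g : ℤ → ℝ => fun m => ∑' i : ℤ, μ i * g (m - i)) (n + 1)
                    (fun m => if m = 0 then (1 : ℝ) else 0) j
                  - Nat.iterate (fun g : ℤ → ℝ => fun m => ∑' i : ℤ, μ i * g (m - i)) (n + 2)
                    (fun m => if m = 0 then (1 : ℝ) else 0) j) * f (k - j)) ^ 2)}
          ≤ ENNReal.ofReal (A * (∑' k : ℤ, |f k|) / lam)) := by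
  intro H
  obtain ⟨μ, hμ, h1, hf, hbar, hblock⟩ := Pool.Agent.H822.SF.final
  obtain ⟨A, hA, hweak⟩ := H μ hμ h1 hf hbar
  obtain ⟨J₀, hJ₀⟩ := exists_nat_gt (2^24 * (72 * A)^2)
  obtain ⟨P, f, C, hP, hfC, hfs, s, I, hs1, hs2⟩ := hblock (J₀ + 3) (by omega)
  have hP0 : (0:ℝ) < P := by exact_mod_cast hP
  set J : ℝ := ((J₀ + 3 : ℕ) : ℝ) with hJ
  have hJ1 : 2^24 * (72 * A)^2 < J := by
    rw [hJ]; push_cast; linarith
  have hJ0 : 0 < J := lt_of_le_of_lt (by positivity) hJ1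
  set lam : ℝ := Real.sqrt (J / 2^24) with hlam
  have hlam0 : 0 < lam := Real.sqrt_pos.2 (by positivity)
  have hlam2 : lam ^ 2 = J / 2^24 := Real.sq_sqrt (by positivity)
  have hmain := hweak f hfs.summable lam hlam0
  rw [hfs.tsum_eq] at hmain
  have hU : ∀ (n : ℕ) (k : ℤ), (∑' j : ℤ,
      (Nat.iterate (fun g : ℤ → ℝ => fun m => ∑' i : ℤ, μ i * g (m - i)) (n + 1)
        (fun m => if m = 0 then (1 : ℝ) else 0) j
      - Nat.iterate (fun g : ℤ → ℝ => fun m => ∑' i : ℤ, μ i * g (m - i)) (n + 2)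
        (fun m => if m = 0 then (1 : ℝ) else 0) j) * f (k - j)) =
      Pool.Agent.H822.SF.U μ (n+1) f k - Pool.Agent.H822.SF.U μ (n+2) f k := by
    intro n k
    have hsum : ∀ n, Summable (fun j => Pool.Agent.H822.SF.pw μ n j * f (k - j)) := fun n =>
      Pool.Agent.H822.SF.summable_bdd (Pool.Agent.H822.SF.pw_hasSum hμ h1 n).summable
        (Pool.Agent.H822.SF.pw_nonneg hμ n) C (fun j => hfC _)
    unfold Pool.Agent.H822.SF.U
    rw [← (hsum (n+1)).tsum_sub (hsum (n+2))]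
    apply tsum_congr
    intro j
    rw [← sub_mul]
    rfl
  have hsub : (s : Set ℤ) ⊆ {k : ℤ | ENNReal.ofReal (lam ^ 2) <
            ∑' n : ℕ, ENNReal.ofReal (((n : ℝ) + 1) *
              (∑' j : ℤ,
                (Nat.iterate (fun g : ℤ → ℝ => fun m => ∑' i : ℤ, μ i * g (m - i)) (n + 1)
                    (fun m => if m = 0 then (1 : ℝ) else 0) j
                  - Nat.iterate (fun g : ℤ → ℝ => fun m => ∑' i : ℤ, μ i * g (m - i)) (n + 2)
                    (fun m => if m = 0 then (1 : ℝ) else 0) j) * f (k - j)) ^ 2)} := by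
    intro k hk
    rw [Set.mem_setOf_eq]
    have h2 := hs2 k hk
    have h3 : lam ^ 2 < ∑ n ∈ I, ((n:ℝ)+1) *
        (Pool.Agent.H822.SF.U μ (n+1) f k - Pool.Agent.H822.SF.U μ (n+2) f k)^2 := by
      rw [hlam2]
      refine lt_of_lt_of_le ?_ h2
      rw [div_lt_div_iff₀ (by positivity) (by positivity)]
      norm_num
      linarith
    have h4 : (0:ℝ) < ∑ n ∈ I, ((n:ℝ)+1) *
        (Pool.Agent.H822.SF.U μ (n+1) f k - Pool.Agent.H822.SF.U μ (n+2) f k)^2 :=
      lt_of_le_of_lt (sq_nonneg lam) h3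
    refine lt_of_lt_of_le ((ENNReal.ofReal_lt_ofReal_iff h4).2 h3) ?_
    rw [ENNReal.ofReal_sum_of_nonneg (fun n _ => by positivity)]
    refine le_trans (le_of_eq ?_) (ENNReal.sum_le_tsum I)
    apply Finset.sum_congr rfl
    intro n _
    rw [hU]
  have hcount := (MeasureTheory.measure_mono (μ := MeasureTheory.Measure.count) hsub).trans hmain
  rw [MeasureTheory.Measure.count_apply_finset] at hcount
  have h5 : (s.card : ℝ) ≤ A * (3 * P) / lam := by
    have h6 : ENNReal.ofReal (s.card : ℝ) ≤ ENNReal.ofReal (A * (3 * P) / lam) := by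
      rw [ENNReal.ofReal_natCast]; exact hcount
    exact (ENNReal.ofReal_le_ofReal_iff (by positivity)).1 h6
  have h7 : (P:ℝ)/24 ≤ A * (3 * P) / lam := hs1.trans h5
  rw [le_div_iff₀ hlam0] at h7
  have h8 : lam ≤ 72 * A := by
    have h9 : (P:ℝ) * lam ≤ P * (72 * A) := by linarith
    exact le_of_mul_le_mul_left h9 hP0
  have h10 : lam^2 ≤ (72*A)^2 := pow_le_pow_left₀ hlam0.le h8 2
  rw [hlam2, div_le_iff₀ (by positivity)] at h10
  linarith

end Pool.Agent.S04970
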