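import Pool.Statements.S04988
import Pool.Agent.H697R3.Dual

set_option autoImplicit false
open Pool Pool.MP_6eec66_an

namespace Pool.Agent.S04988

/-- The negation of the preceding statement: For every compact hereditary family of finite sets of naturals containing all singletons, every closed infinite-dimensional subspace of the dual of the combinatorial Banach space X_F contains a sequence equivalent to the unit vector basis of ℓ1. -/
theorem result :
    ¬ (∀ (𝓕 : Set (Finset ℕ)),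
    (∀ A ∈ 𝓕, ∀ B : Finset ℕ, B ⊆ A → B ∈ 𝓕) →
    (∀ i : ℕ, ({i} : Finset ℕ) ∈ 𝓕) →
    (∀ M : Set ℕ, M.Infinite → ∃ A : Finset ℕ, (↑A : Set ℕ) ⊆ M ∧ A ∉ 𝓕) →
    ∀ (E : Type) [NormedAddCommGroup E] [NormedSpace ℝ E] [CompleteSpace E] (e : ℕ → E),
      Dense (Submodule.span ℝ (Set.range e) : Set E) →
      (∀ (n : ℕ) (a : ℕ → ℝ),
        ‖∑ i ∈ Finset.range n, a i • e i‖ =
          sSup ((fun F : Finset ℕ => ∑ i ∈ F ∩ Finset.range n, |a i|) '' 𝓕)) →
      ∀ Y : Submodule ℝ (E →L[ℝ] ℝ), IsClosed (Y : Set (E →L[ℝ] ℝ)) →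
        ¬ FiniteDimensional ℝ Y →
        ∃ (f : ℕ → (E →L[ℝ] ℝ)) (c : ℝ), 0 < c ∧ (∀ i, f i ∈ Y ∧ ‖f i‖ ≤ 1) ∧
          ∀ (n : ℕ) (a : ℕ → ℝ),
            c * ∑ i ∈ Finset.range n, |a i| ≤ ‖∑ i ∈ Finset.range n, a i • f i‖) := by
  intro hall
  obtain ⟨D⟩ := Pool.Agent.H697R3.CombDual.exists_tree
  let X := Pool.Agent.H697R3.CombDual.concrete D
  obtain ⟨f, c, hc, hf, h⟩ := hall (Pool.Agent.H697R3.CombDual.Fam D)
    (Pool.Agent.H697R3.CombDual.fam_hereditary D)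
    (Pool.Agent.H697R3.CombDual.single_mem D)
    (Pool.Agent.H697R3.CombDual.fam_compact D)
    (Pool.Agent.H697R3.CombDual.Sp (Pool.Agent.H697R3.CombDual.Fam D)) X.e X.hdense X.hnorm
    (LinearMap.range (Pool.Agent.H697R3.CombDual.Jl X))
    (Pool.Agent.H697R3.CombDual.range_closed X)
    (Pool.Agent.H697R3.CombDual.range_not_fd X)
  exact Pool.Agent.H697R3.CombDual.no_l1 X f c hc hf h

end Pool.Agent.S04988
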