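import Pool.Statements.S04989

set_option autoImplicit false
open Pool Pool.MP_6efd37_an

namespace Pool.Agent.S04989

/-- Kemperman's inequality. -/
def Kemp (f : ℝ → ℝ) : Prop := ∀ x h : ℝ, 0 < h → 2 * f x ≤ f (x + h) + f (x + 2 * h)

/-- A set that contains `2 y - z` together with `y < z`. -/
def LeftClosed (S : Set ℝ) : Prop := ∀ y z : ℝ, y ∈ S → z ∈ S → y < z → 2 * y - z ∈ S

lemma leftClosed_of_kemp {f : ℝ → ℝ} (hf : Kemp f) (N : ℝ) : LeftClosed {x | f x ≤ N} := by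
  intro y z hy hz hyz
  simp only [Set.mem_ofPred_eq] at hy hz ⊢
  have h := hf (2 * y - z) (z - y) (by linarith)
  have e1 : 2 * y - z + (z - y) = y := by ring
  have e2 : 2 * y - z + 2 * (z - y) = z := by ring
  rw [e1, e2] at h
  linarith

lemma left_progression {S : Set ℝ} (hS : LeftClosed S) {b d : ℝ} (hd : 0 < d) (hb : b ∈ S)
    (hbd : b - d ∈ S) : ∀ k : ℕ, b - k * d ∈ S ∧ b - (k + 1) * d ∈ S := by
  intro k
  induction k with
  | zero => simpa using ⟨hb, hbd⟩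
  | succ k ih =>
    obtain ⟨h1, h2⟩ := ih
    have h3 := hS _ _ h2 h1 (by nlinarith)
    refine ⟨by push_cast; exact h2, ?_⟩
    have e : 2 * (b - (k + 1) * d) - (b - k * d) = b - (((k + 1 : ℕ) : ℝ) + 1) * d := by
      push_cast; ring
    rwa [e] at h3

/-- Translation to the left by `2 d`. -/
lemma left_translate {S : Set ℝ} (hS : LeftClosed S) {b d c : ℝ} (hd : 0 < d) (hb : b ∈ S)
    (hbd : b - d ∈ S) (hc : c ∈ S) (hcb : c ≤ b) : c - 2 * d ∈ S := by
  have hP : ∀ k : ℕ, b - k * d ∈ S := fun k => (left_progression hS hd hb hbd k).1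
  have h0 : 0 ≤ (b - c) / d := div_nonneg (by linarith) hd.le
  set k := ⌊(b - c) / d⌋₊ with hk
  have h1 : (k : ℝ) ≤ (b - c) / d := Nat.floor_le h0
  have h2 : (b - c) / d < k + 1 := Nat.lt_floor_add_one _
  rw [le_div_iff₀ hd] at h1
  rw [div_lt_iff₀ hd] at h2
  -- `y = b - (k+1) d < c ≤ b - k d`
  have hy : b - (k + 1) * d ∈ S := by simpa using hP (k + 1)
  have hy' : b - (k + 2) * d ∈ S := by
    have := hP (k + 2); push_cast at this; exact this
  rcases eq_or_lt_of_le (show c ≤ b - k * d by linarith) with h | h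
  · have e : c - 2 * d = b - (k + 2) * d := by rw [h]; ring
    rw [e]; exact hy'
  · have h3 := hS _ _ hy hc (by linarith)
    have h4 := hS _ _ hy' h3 (by linarith)
    have e : 2 * (b - (k + 2) * d) - (2 * (b - (k + 1) * d) - c) = c - 2 * d := by ring
    rwa [e] at h4

/-- `τ = (√5 - 1)/2`. -/
noncomputable def τ : ℝ := (Real.sqrt 5 - 1) / 2

lemma τ_sq : τ * τ = 1 - τ := by
  have h : Real.sqrt 5 * Real.sqrt 5 = 5 := Real.mul_self_sqrt (by norm_num)
  unfold τ
  nlinarith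

lemma τ_pos : 0 < τ := by
  have h : Real.sqrt 5 * Real.sqrt 5 = 5 := Real.mul_self_sqrt (by norm_num)
  have h0 : 0 ≤ Real.sqrt 5 := Real.sqrt_nonneg _
  unfold τ
  nlinarith

lemma τ_lt_one : τ < 1 := by
  have := τ_sq
  have := τ_pos
  nlinarith

lemma τ_pow_pos (j : ℕ) : 0 < τ ^ j := pow_pos τ_pos j

/-- Euclid's algorithm for the golden section. -/
lemma golden_steps {S : Set ℝ} (hS : LeftClosed S) {b : ℝ} (hb : b ∈ S) (hb1 : b - 1 ∈ S)
    (hbt : b - τ ∈ S) : ∀ j : ℕ, ∃ c : ℝ, c = b - (1 - τ ^ j) * (1 + τ) ∧ c ∈ S ∧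
      c - τ ^ j ∈ S ∧ c - τ ^ (j + 1) ∈ S := by
  intro j
  induction j with
  | zero => exact ⟨b, by simp, hb, by simpa using hb1, by simpa using hbt⟩
  | succ j ih =>
    obtain ⟨c, hc, h1, h2, h3⟩ := ih
    have hp : 0 < τ ^ (j + 1) := τ_pow_pos _
    have hsq := τ_sq
    refine ⟨c - τ ^ (j + 1), ?_, h3, ?_, ?_⟩
    · rw [hc, pow_succ]
      have : τ ^ j * τ * (1 + τ) = τ ^ j := by
        have : τ * (1 + τ) = 1 := by nlinarith
        rw [mul_assoc, this, mul_one]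
      linear_combination (-1 : ℝ) * this
    · have h4 := hS _ _ h3 h1 (by linarith)
      have e : 2 * (c - τ ^ (j + 1)) - c = c - τ ^ (j + 1) - τ ^ (j + 1) := by ring
      rwa [e] at h4
    · have e : c - τ ^ (j + 1) - τ ^ (j + 1 + 1) = c - τ ^ j := by
        rw [pow_succ (n := j + 1), pow_succ (n := j)]
        linear_combination (-τ ^ j) * hsq
      rw [e]; exact h2

/-- The group `ℤ[τ]`. -/
def InG (x : ℝ) : Prop := ∃ a b : ℤ, x = a + b * τ

lemma InG.sub {x y : ℝ} (hx : InG x) (hy : InG y) : InG (x - y) := by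
  obtain ⟨a, b, rfl⟩ := hx
  obtain ⟨c, d, rfl⟩ := hy
  exact ⟨a - c, b - d, by push_cast; ring⟩

lemma InG.add {x y : ℝ} (hx : InG x) (hy : InG y) : InG (x + y) := by
  obtain ⟨a, b, rfl⟩ := hx
  obtain ⟨c, d, rfl⟩ := hy
  exact ⟨a + c, b + d, by push_cast; ring⟩

lemma InG.nsmul {x : ℝ} (hx : InG x) (k : ℕ) : InG (k * x) := by
  obtain ⟨a, b, rfl⟩ := hx
  exact ⟨k * a, k * b, by push_cast; ring⟩

lemma inG_one : InG 1 := ⟨1, 0, by simp⟩

lemma inG_pow (j : ℕ) : InG (τ ^ j) := by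
  induction j with
  | zero => simpa using inG_one
  | succ j ih =>
    obtain ⟨a, b, h⟩ := ih
    refine ⟨b, a - b, ?_⟩
    rw [pow_succ, h]
    push_cast
    linear_combination b * τ_sq

/-- every positive element of `ℤ[τ]` is a nonnegative combination of two consecutive powers. -/
lemma cone (n : ℕ) : ∀ a b : ℤ, b.natAbs ≤ n → 0 < (a : ℝ) + b * τ →
    ∃ j p q : ℕ, (a : ℝ) + b * τ = p * τ ^ j + q * τ ^ (j + 1) := by
  have hτ0 := τ_pos
  have hτ1 := τ_lt_one
  have hsq := τ_sq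
  induction n with
  | zero =>
    intro a b hb hpos
    have hb0 : b = 0 := by omega
    subst hb0
    have ha : (0:ℤ) < a := by
      have : (0:ℝ) < a := by simpa using hpos
      exact_mod_cast this
    refine ⟨0, a.toNat, 0, ?_⟩
    have : ((a.toNat : ℕ) : ℝ) = a := by
      have h : ((a.toNat : ℕ) : ℤ) = a := Int.toNat_of_nonneg ha.le
      exact_mod_cast h
    simp [this]
  | succ n ih =>
    intro a b hb hpos
    have key : (a : ℝ) + b * τ = τ * (((a + b : ℤ) : ℝ) + (a : ℤ) * τ) := by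
      push_cast
      linear_combination (-(a:ℝ)) * hsq
    by_cases ha : 0 ≤ a
    · by_cases hb0 : 0 ≤ b
      · refine ⟨0, a.toNat, b.toNat, ?_⟩
        have h1 : ((a.toNat : ℕ) : ℝ) = a := by
          have h : ((a.toNat : ℕ) : ℤ) = a := Int.toNat_of_nonneg ha
          exact_mod_cast h
        have h2 : ((b.toNat : ℕ) : ℝ) = b := by
          have h : ((b.toNat : ℕ) : ℤ) = b := Int.toNat_of_nonneg hb0
          exact_mod_cast h
        simp [h1, h2]
      · by_cases hab : 0 ≤ a + b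
        · refine ⟨1, (a + b).toNat, a.toNat, ?_⟩
          have h1 : ((a.toNat : ℕ) : ℝ) = a := by
            have h : ((a.toNat : ℕ) : ℤ) = a := Int.toNat_of_nonneg ha
            exact_mod_cast h
          have h2 : (((a + b).toNat : ℕ) : ℝ) = ((a + b : ℤ) : ℝ) := by
            have h : (((a + b).toNat : ℕ) : ℤ) = a + b := Int.toNat_of_nonneg hab
            exact_mod_cast h
          rw [h1, h2, key]
          ring
        · obtain ⟨j, p, q, h⟩ := ih (a + b) a (by omega) (by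
            rw [key] at hpos
            exact (pos_iff_pos_of_mul_pos hpos).1 hτ0)
          refine ⟨j + 1, p, q, ?_⟩
          rw [key, h]
          ring
    · have hab : 0 < a + b := by
        by_contra hcon
        have h1 : a + b ≤ 0 := by omega
        have h2 : (a : ℝ) + b ≤ 0 := by exact_mod_cast h1
        have h3 : (a : ℝ) < 0 := by exact_mod_cast (not_le.1 ha)
        nlinarith
      obtain ⟨j, p, q, h⟩ := ih (a + b) a (by omega) (by
        rw [key] at hpos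
        exact (pos_iff_pos_of_mul_pos hpos).1 hτ0)
      refine ⟨j + 1, p, q, ?_⟩
      rw [key, h]
      ring

lemma left_cone {S : Set ℝ} (hS : LeftClosed S) {b : ℝ} (hb : b ∈ S) (hb1 : b - 1 ∈ S)
    (hbt : b - τ ∈ S) {c : ℝ} (hc : c ∈ S) (hcb : c ≤ b - (1 + τ)) {g : ℝ} (hg : InG g)
    (hg0 : 0 < g) : c - 2 * g ∈ S := by
  obtain ⟨a, b', rfl⟩ := hg
  obtain ⟨j, p, q, h⟩ := cone _ a b' le_rfl hg0
  rw [h]
  have hτ0 := τ_pos
  have step : ∀ (i : ℕ) (x : ℝ), x ∈ S → x ≤ b - (1 + τ) → x - 2 * τ ^ i ∈ S := by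
    intro i x hx hxb
    obtain ⟨y, hy, h1, h2, -⟩ := golden_steps hS hb hb1 hbt i
    refine left_translate hS (τ_pow_pos i) h1 h2 hx (hxb.trans ?_)
    rw [hy]
    have := mul_pos (τ_pow_pos i) (show 0 < 1 + τ by linarith)
    nlinarith
  have many : ∀ (i n : ℕ) (x : ℝ), x ∈ S → x ≤ b - (1 + τ) → x - 2 * (n * τ ^ i) ∈ S := by
    intro i n
    induction n with
    | zero => intro x hx _; simpa using hx
    | succ n ih =>
      intro x hx hxb
      have h1 := ih (x - 2 * τ ^ i) (step i x hx hxb) (by have := τ_pow_pos i; linarith)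
      have e : x - 2 * τ ^ i - 2 * (n * τ ^ i) = x - 2 * (((n + 1 : ℕ) : ℝ) * τ ^ i) := by
        push_cast; ring
      rwa [e] at h1
  have h1 := many j p c hc hcb
  have h2 := many (j + 1) q _ h1 (by
    have : 0 ≤ (p : ℝ) * τ ^ j := mul_nonneg (Nat.cast_nonneg _) (τ_pow_pos j).le
    linarith)
  have e : c - 2 * (p * τ ^ j) - 2 * (q * τ ^ (j + 1)) = c - 2 * (p * τ ^ j + q * τ ^ (j + 1)) := by
    ring
  rwa [e] at h2

/-- **Local boundedness from above** on `ℤ[τ]`. -/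
lemma bounded_above {f : ℝ → ℝ} (hf : Kemp f) : ∃ N : ℝ, ∀ g : ℝ, InG g → g ≤ 2 → f g ≤ N := by
  have hτ0 := τ_pos
  have hτ1 := τ_lt_one
  let L : List ℝ := [10, 10 - 1, 10 - τ, 4, 5, 4 + τ, 5 + τ]
  obtain ⟨N, hN⟩ : ∃ N : ℝ, ∀ x ∈ L, f x ≤ N := by
    refine ⟨(L.map (fun x => |f x|)).sum, fun x hx => (le_abs_self _).trans ?_⟩
    exact List.single_le_sum (by
      intro y hy
      obtain ⟨z, -, rfl⟩ := List.mem_map.1 hy
      exact abs_nonneg _) _ (List.mem_map.2 ⟨x, hx, rfl⟩)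
  refine ⟨N, fun g hg hg2 => ?_⟩
  have hS := leftClosed_of_kemp hf N
  have h10 : (10:ℝ) ∈ {x | f x ≤ N} := hN _ (by simp [L])
  have h9 : (10:ℝ) - 1 ∈ {x | f x ≤ N} := hN (10 - 1) (by simp [L])
  have ht : (10:ℝ) - τ ∈ {x | f x ≤ N} := hN (10 - τ) (by simp [L])
  obtain ⟨a, b, rfl⟩ := hg
  have main : ∀ c : ℝ, c ∈ L → c ≤ 10 - (1 + τ) → 2 < c → (∃ g' : ℝ, InG g' ∧ c - 2 * g' = a + b * τ) →
      f (a + b * τ) ≤ N := by
    intro c hcL hc1 hc2 ⟨g', hg', he⟩
    have h := left_cone hS h10 h9 ht (hN c hcL) hc1 hg' (by linarith)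
    rw [he] at h
    exact h
  rcases Int.even_or_odd' a with ⟨a', ha | ha⟩ <;> rcases Int.even_or_odd' b with ⟨b', hb | hb⟩
  · refine main 4 (by simp [L]) (by linarith) (by norm_num) ⟨(2 - a' : ℤ) + (-b' : ℤ) * τ, ⟨_, _, rfl⟩, ?_⟩
    rw [ha, hb]; push_cast; ring
  · refine main (4 + τ) (by simp [L]) (by linarith) (by linarith)
      ⟨(2 - a' : ℤ) + (-b' : ℤ) * τ, ⟨_, _, rfl⟩, ?_⟩
    rw [ha, hb]; push_cast; ring
  · refine main 5 (by simp [L]) (by linarith) (by norm_num) ⟨(2 - a' : ℤ) + (-b' : ℤ) * τ, ⟨_, _, rfl⟩, ?_⟩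
    rw [ha, hb]; push_cast; ring
  · refine main (5 + τ) (by simp [L]) (by linarith) (by linarith)
      ⟨(2 - a' : ℤ) + (-b' : ℤ) * τ, ⟨_, _, rfl⟩, ?_⟩
    rw [ha, hb]; push_cast; ring

/-- density of `ℤ[τ]` -/
lemma dense {u v : ℝ} (hu : 0 < u) (huv : u < v) : ∃ g, InG g ∧ u < g ∧ g < v := by
  obtain ⟨j, hj⟩ := exists_pow_lt_of_lt_one (sub_pos.2 huv) τ_lt_one
  have hp := τ_pow_pos j
  refine ⟨((⌊u / τ ^ j⌋₊ + 1 : ℕ) : ℝ) * τ ^ j, (inG_pow j).nsmul _, ?_, ?_⟩
  · have h := Nat.lt_floor_add_one (u / τ ^ j)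
    rw [div_lt_iff₀ hp] at h
    push_cast
    exact h
  · have h := Nat.floor_le (div_nonneg hu.le hp.le)
    rw [le_div_iff₀ hp] at h
    push_cast
    nlinarith

lemma decay {f : ℝ → ℝ} (hf : Kemp f) {C : ℝ}
    (hC : ∀ t, InG t → t < 1 → f t - f 1 ≤ C) (k : ℕ) :
    ∀ t, InG t → t < 1 → f t - f 1 ≤ (3 / 4) ^ k * C := by
  induction k with
  | zero => intro t ht ht1; simpa using hC t ht ht1
  | succ k ih =>
    intro t ht ht1
    obtain ⟨g, hg, hg1, hg2⟩ := dense (u := (1 - t) / 4) (v := (1 - t) / 2) (by linarith)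
      (by linarith)
    have hhG : InG (1 - t - 2 * g) := (inG_one.sub ht).sub (by simpa using hg.nsmul 2)
    have hh0 : 0 < 1 - t - 2 * g := by linarith
    have hhG2 : InG (t + (1 - t - 2 * g)) := ht.add hhG
    have hhG3 : InG (t + 2 * (1 - t - 2 * g)) := ht.add (by simpa using hhG.nsmul 2)
    have h1 := hf t (1 - t - 2 * g) hh0
    have h2 := hf (t + (1 - t - 2 * g)) g (by linarith)
    have e1 : t + (1 - t - 2 * g) + 2 * g = 1 := by ring
    rw [e1] at h2
    have h3 := ih (t + (1 - t - 2 * g) + g) (hhG2.add hg) (by linarith)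
    have h4 := ih (t + 2 * (1 - t - 2 * g)) hhG3 (by linarith)
    rw [pow_succ]
    linarith

lemma zero_le_one_val {f : ℝ → ℝ} (hf : Kemp f) : f 0 ≤ f 1 := by
  obtain ⟨N, hN⟩ := bounded_above hf
  have hC : ∀ t, InG t → t < 1 → f t - f 1 ≤ N - f 1 := fun t ht ht1 => by
    linarith [hN t ht (by linarith)]
  have h0 : InG 0 := ⟨0, 0, by simp⟩
  have h1 : ∀ k : ℕ, f 0 - f 1 ≤ (3 / 4) ^ k * (N - f 1) := fun k =>
    decay hf hC k 0 h0 (by norm_num)
  have h2 : Filter.Tendsto (fun k : ℕ => (3 / 4 : ℝ) ^ k * (N - f 1)) Filter.atTop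
      (nhds (0 * (N - f 1))) :=
    (tendsto_pow_atTop_nhds_zero_of_lt_one (by norm_num) (by norm_num)).mul_const _
  have h3 := ge_of_tendsto' h2 h1
  linarith

/-- Every function from the reals to the reals with 2f(x) ≤ f(x+h)+f(x+2h) for all x and all h>0 is monotone (nondecreasing or nonincreasing), with no measurability assumed. -/
theorem result :
    ∀ f : ℝ → ℝ, (∀ x h : ℝ, 0 < h → 2 * f x ≤ f (x + h) + f (x + 2 * h)) →
      (Monotone f ∨ Antitone f) := by
  intro f hf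
  left
  intro x y hxy
  rcases eq_or_lt_of_le hxy with h | h
  · rw [h]
  · have hK : Kemp (fun t => f (x + t * (y - x))) := by
      intro t s hs
      have h1 := hf (x + t * (y - x)) (s * (y - x)) (mul_pos hs (by linarith))
      have e1 : x + t * (y - x) + s * (y - x) = x + (t + s) * (y - x) := by ring
      have e2 : x + t * (y - x) + 2 * (s * (y - x)) = x + (t + 2 * s) * (y - x) := by ring
      rw [e1, e2] at h1
      exact h1
    have h2 := zero_le_one_val hK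
    simpa using h2

end Pool.Agent.S04989
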