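import Pool.Statements.S04995
import Pool.Agent.Helper202.Univ

set_option autoImplicit false
open Pool Pool.MP_6f6574_an

namespace Pool.Agent.S04995

open Metric Set Complex Filter Topology
open Pool.Agent.Helper202.Univ

/-- If `‖z / f z‖ ≤ M` on the punctured disc, the image of the disc contains the disc of radius
`1 / M`. -/
theorem ball_subset_image {f : ℂ → ℂ} (hf : DifferentiableOn ℂ f (ball 0 1))
    (hi : InjOn f (ball 0 1)) (h0 : f 0 = 0) {M : ℝ} (hM0 : 0 < M)
    (hM : ∀ z ∈ ball (0 : ℂ) 1, ‖z‖ ≤ M * ‖f z‖) {w : ℂ} (hw : M * ‖w‖ < 1) :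
    w ∈ f '' ball (0 : ℂ) 1 := by
  by_contra hcon
  set ρ : ℝ := M * ‖w‖ with hρ
  have hsub : closedBall (0 : ℂ) ρ ⊆ ball 0 1 := closedBall_subset_ball hw
  have hcomp : IsCompact (f '' closedBall (0 : ℂ) ρ) :=
    (isCompact_closedBall (0 : ℂ) ρ).image_of_continuousOn (hf.continuousOn.mono hsub)
  have hpre : IsPreconnected (closedBall (0 : ℂ) ‖w‖) := (convex_closedBall (0 : ℂ) ‖w‖).isPreconnected
  have h1 : IsOpen (f '' ball (0 : ℂ) 1) := isOpen_image isOpen_ball hf hi isOpen_ball subset_rfl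
  obtain ⟨x, hx, hx1, hx2⟩ := hpre (f '' ball (0 : ℂ) 1) (f '' closedBall (0 : ℂ) ρ)ᶜ h1
    hcomp.isClosed.isOpen_compl (by
      intro x _
      by_cases hx : x ∈ f '' closedBall (0 : ℂ) ρ
      · exact Or.inl (image_mono hsub hx)
      · exact Or.inr hx) ⟨0, by simp, ⟨0, by simp, h0⟩⟩
    ⟨w, by simp, fun h => hcon (image_mono hsub h)⟩
  obtain ⟨z, hz, rfl⟩ := hx1
  apply hx2
  refine ⟨z, ?_, rfl⟩
  rw [mem_closedBall_zero_iff] at hx ⊢
  calc ‖z‖ ≤ M * ‖f z‖ := hM z hz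
    _ ≤ M * ‖w‖ := by gcongr

/-- The key pointwise inequality. -/
theorem pointwise {f : ℂ → ℂ} (hf : DifferentiableOn ℂ f (ball 0 1))
    (hi : InjOn f (ball 0 1)) (h0 : f 0 = 0) (hc : Convex ℝ (f '' ball 0 1)) {M : ℝ} (hM0 : 0 < M)
    (hM : ∀ z ∈ ball (0 : ℂ) 1, ‖z‖ ≤ M * ‖f z‖) {z : ℂ} (hz : z ∈ ball (0 : ℂ) 1) (hz0 : z ≠ 0)
    {u : ℂ} (hu : ‖u‖ = 1) :
    (u / M / deriv f z).re ≤ (f z / (z * deriv f z)).re := by
  set U : Set ℂ := ball (0 : ℂ) 1 with hU
  have hUo : IsOpen U := isOpen_ball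
  set g := Function.invFunOn f U with hg
  have h0U : (0 : ℂ) ∈ U := by simp [hU]
  -- the Schwarz lemma
  have key : ∀ ε : ℝ, 0 ≤ ε → ε ≤ 1 → ‖g (f z + ε * (u * z / M - f z))‖ ≤ ‖z‖ := by
    intro ε he0 he1
    have hin : ∀ ζ ∈ U, f ζ + ε * (u * ζ / M - f ζ) ∈ f '' U := by
      intro ζ hζ
      have h1 : f ζ ∈ f '' U := mem_image_of_mem f hζ
      have h2 : u * ζ / M ∈ f '' U := by
        apply ball_subset_image hf hi h0 hM0 hM
        rw [norm_div, norm_mul, hu, one_mul, Complex.norm_real, Real.norm_of_nonneg hM0.le]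
        rw [mul_div_cancel₀ _ hM0.ne']
        exact mem_ball_zero_iff.mp hζ
      have h3 := hc h1 h2 (sub_nonneg.mpr he1) he0 (by ring)
      have h4 : f ζ + ε * (u * ζ / M - f ζ) = (1 - ε) • f ζ + ε • (u * ζ / M) := by
        simp only [Complex.real_smul]
        push_cast
        ring
      rw [h4]
      exact h3
    have hd : DifferentiableOn ℂ (fun ζ => g (f ζ + ε * (u * ζ / M - f ζ))) U := by
      intro ζ hζ
      have h1 : DifferentiableAt ℂ g (f ζ + ε * (u * ζ / M - f ζ)) :=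
        differentiableAt_inv hUo hf hi (hin ζ hζ)
      have h2 : DifferentiableAt ℂ f ζ := hf.differentiableAt (hUo.mem_nhds hζ)
      have h3 : DifferentiableAt ℂ (fun ζ => f ζ + ε * (u * ζ / M - f ζ)) ζ := by
        apply h2.add
        apply DifferentiableAt.const_mul
        apply DifferentiableAt.sub _ h2
        apply DifferentiableAt.div_const
        exact (differentiableAt_id).const_mul u
      exact (DifferentiableAt.comp ζ h1 h3).differentiableWithinAt
    have hmaps : MapsTo (fun ζ => g (f ζ + ε * (u * ζ / M - f ζ))) (ball 0 1) (closedBall 0 1) := by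
      intro ζ hζ
      exact ball_subset_closedBall (invFunOn_mem (hin ζ hζ))
    have h00 : (fun ζ => g (f ζ + ε * (u * ζ / M - f ζ))) 0 = 0 := by
      simp only [h0, mul_zero, zero_div, sub_zero, add_zero]
      have h5 : g (f 0) = 0 := invFunOn_left hi h0U
      rwa [h0] at h5
    exact Complex.norm_le_norm_of_mapsTo_ball hd hmaps h00 (mem_ball_zero_iff.mp hz)
  -- differentiate at `ε = 0`
  set v : ℂ := u * z / M - f z with hv
  have hgd : HasDerivAt g (deriv f z)⁻¹ (f z) := hasDerivAt_inv hUo hf hi hz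
  have hlin : HasDerivAt (fun ε : ℂ => f z + ε * v) v 0 := by
    simpa using ((hasDerivAt_id (0 : ℂ)).mul_const v).const_add (f z)
  have hcomp : HasDerivAt (fun ε : ℂ => g (f z + ε * v)) ((deriv f z)⁻¹ * v) 0 := by
    have h1 : HasDerivAt g (deriv f z)⁻¹ (f z + (0 : ℂ) * v) := by simpa using hgd
    exact HasDerivAt.comp (0 : ℂ) h1 hlin
  have hreal : HasDerivAt (fun ε : ℝ => g (f z + (ε : ℂ) * v)) ((deriv f z)⁻¹ * v) 0 := by
    have h1 : HasDerivAt (fun ε : ℂ => g (f z + ε * v)) ((deriv f z)⁻¹ * v) ((0 : ℝ) : ℂ) := by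
      simpa using hcomp
    exact h1.comp_ofReal
  have hg0 : g (f z) = z := invFunOn_left hi hz
  have hsq : HasDerivAt (fun ε : ℝ => ‖g (f z + (ε : ℂ) * v)‖ ^ 2)
      (2 * ((inner ℝ z ((deriv f z)⁻¹ * v)) : ℝ)) 0 := by
    have h2 := hreal.norm_sq
    simpa [hg0] using h2
  have hle : (2 * ((inner ℝ z ((deriv f z)⁻¹ * v)) : ℝ)) ≤ 0 := by
    by_contra hpos
    push Not at hpos
    have hslope := hsq.tendsto_slope_zero_right
    have hev : ∀ᶠ t : ℝ in 𝓝[>] 0, t⁻¹ • (‖g (f z + ((0 + t : ℝ) : ℂ) * v)‖ ^ 2 -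
        ‖g (f z + ((0 : ℝ) : ℂ) * v)‖ ^ 2) ≤ 0 := by
      have : Ioc (0 : ℝ) 1 ∈ 𝓝[>] (0 : ℝ) := Ioc_mem_nhdsGT one_pos
      filter_upwards [this] with t ht
      have h1 := key t ht.1.le ht.2
      have h2 : ‖g (f z + ((0 + t : ℝ) : ℂ) * v)‖ ^ 2 ≤ ‖z‖ ^ 2 := by
        rw [zero_add]
        gcongr
      have h3 : ‖g (f z + ((0 : ℝ) : ℂ) * v)‖ ^ 2 = ‖z‖ ^ 2 := by simp [hg0]
      rw [h3]
      exact mul_nonpos_of_nonneg_of_nonpos (inv_nonneg.mpr ht.1.le) (by linarith)
    have := le_of_tendsto hslope hev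
    linarith
  have hz2 : 0 < ‖z‖ ^ 2 := by positivity
  have hf' : deriv f z ≠ 0 := deriv_ne_zero hUo hf hi hz
  have hinner : (inner ℝ z ((deriv f z)⁻¹ * v) : ℝ) =
      ‖z‖ ^ 2 * ((u / M / deriv f z).re - (f z / (z * deriv f z)).re) := by
    have h1 : (inner ℝ z ((deriv f z)⁻¹ * v) : ℝ) = ((starRingEnd ℂ) z * ((deriv f z)⁻¹ * v)).re := by
      rw [Complex.inner]
      try ring_nf
    rw [h1]
    have h2 : (starRingEnd ℂ) z * ((deriv f z)⁻¹ * v) =
        ((‖z‖ ^ 2 : ℝ) : ℂ) * (u / M / deriv f z - f z / (z * deriv f z)) := by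
      have h3 : (((‖z‖ ^ 2 : ℝ)) : ℂ) = (starRingEnd ℂ) z * z := by
        rw [← Complex.normSq_eq_norm_sq, Complex.normSq_eq_conj_mul_self]
      rw [h3, hv]
      have hMc : (M : ℂ) ≠ 0 := by exact_mod_cast hM0.ne'
      field_simp
    rw [h2, Complex.re_ofReal_mul, Complex.sub_re]
  rw [hinner] at hle
  nlinarith

/-- For every normalized univalent map f of the unit disc onto a convex domain, and every 0<r<1, the mean over the circle of radius r of ∣1/f'∣ is at most any upper bound M of ∣z/f(z)∣ on the punctured disc. -/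
theorem result :
    ∀ f : ℂ → ℂ, DifferentiableOn ℂ f (Metric.ball 0 1) →
      Set.InjOn f (Metric.ball 0 1) → f 0 = 0 → deriv f 0 = 1 →
      Convex ℝ (f '' Metric.ball 0 1) →
      ∀ M : ℝ, (∀ z ∈ Metric.ball (0:ℂ) 1, z ≠ 0 → ‖z / f z‖ ≤ M) →
      ∀ r : ℝ, 0 < r → r < 1 →
        (1 / (2 * Real.pi)) * ∫ θ in (0:ℝ)..(2 * Real.pi), ‖(deriv f (circleMap 0 r θ))⁻¹‖ ≤ M := by
  intro f hf hi h0 h1 hc M hM r hr hr1
  set U : Set ℂ := ball (0 : ℂ) 1 with hU
  have hUo : IsOpen U := isOpen_ball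
  have h0U : (0 : ℂ) ∈ U := by simp [hU]
  have hfne : ∀ z ∈ U, z ≠ 0 → f z ≠ 0 := by
    intro z hz hz0 hfz
    exact hz0 (hi hz h0U (by rw [hfz, h0]))
  have hM0 : 0 < M := by
    have hhalf : (1 / 2 : ℂ) ∈ U := by
      rw [hU, mem_ball_zero_iff]; norm_num
    have h2 := hM (1 / 2) hhalf (by norm_num)
    refine lt_of_lt_of_le ?_ h2
    rw [norm_pos_iff]
    exact div_ne_zero (by norm_num) (hfne _ hhalf (by norm_num))
  have hM' : ∀ z ∈ ball (0 : ℂ) 1, ‖z‖ ≤ M * ‖f z‖ := by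
    intro z hz
    by_cases hz0 : z = 0
    · simp [hz0, h0]
    · have h2 := hM z hz hz0
      rw [norm_div, div_le_iff₀ (norm_pos_iff.mpr (hfne z hz hz0))] at h2
      exact h2
  set h : ℂ → ℂ := fun ζ => dslope f 0 ζ / deriv f ζ with hh
  have hds : DifferentiableOn ℂ (dslope f 0) U :=
    (Complex.differentiableOn_dslope (hUo.mem_nhds h0U)).mpr hf
  have hhd : DifferentiableOn ℂ h U :=
    hds.div (hf.deriv hUo) (fun z hz => deriv_ne_zero hUo hf hi hz)
  have hh0 : h 0 = 1 := by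
    simp only [hh, dslope_same]
    rw [h1]; simp
  have hsubr : closedBall (0 : ℂ) r ⊆ U := closedBall_subset_ball hr1
  have hsph : ∀ θ : ℝ, circleMap 0 r θ ∈ U := fun θ =>
    hsubr (sphere_subset_closedBall (circleMap_mem_sphere 0 hr.le θ))
  have hcm : Continuous (circleMap 0 r) := continuous_circleMap 0 r
  have hcircle : Real.circleAverage h 0 r = h 0 := by
    apply DiffContOnCl.circleAverage
    rw [abs_of_pos hr]
    apply DifferentiableOn.diffContOnCl
    rw [closure_ball _ hr.ne']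
    exact hhd.mono hsubr
  have hcont : Continuous fun θ : ℝ => h (circleMap 0 r θ) :=
    hhd.continuousOn.comp_continuous hcm hsph
  have hre : (1 / (2 * Real.pi)) * ∫ θ in (0:ℝ)..(2 * Real.pi), (h (circleMap 0 r θ)).re = 1 := by
    have h3 : ∫ θ in (0:ℝ)..(2 * Real.pi), (h (circleMap 0 r θ)).re =
        (∫ θ in (0:ℝ)..(2 * Real.pi), h (circleMap 0 r θ)).re := by
      have := (Complex.reCLM.intervalIntegral_comp_comm
        (hcont.intervalIntegrable (μ := MeasureTheory.volume) 0 (2 * Real.pi)))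
      simpa using this
    rw [h3]
    rw [Real.circleAverage_def, hh0] at hcircle
    have h4 := congrArg Complex.re hcircle
    simpa using h4
  have hpt : ∀ θ : ℝ, ‖(deriv f (circleMap 0 r θ))⁻¹‖ ≤ M * (h (circleMap 0 r θ)).re := by
    intro θ
    set z := circleMap 0 r θ with hz
    have hzU : z ∈ U := hsph θ
    have hz0 : z ≠ 0 := circleMap_ne_center hr.ne'
    have hd : deriv f z ≠ 0 := deriv_ne_zero hUo hf hi hzU
    have hdn : 0 < ‖deriv f z‖ := norm_pos_iff.mpr hd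
    have hu : ‖deriv f z / (‖deriv f z‖ : ℂ)‖ = 1 := by
      rw [norm_div, Complex.norm_real, norm_norm, div_self hdn.ne']
    have h5 := pointwise hf hi h0 hc hM0 hM' hzU hz0 hu
    have h6 : deriv f z / (‖deriv f z‖ : ℂ) / M / deriv f z = ((‖(deriv f z)⁻¹‖ / M : ℝ) : ℂ) := by
      rw [norm_inv]
      push_cast
      have h7 : ((‖deriv f z‖ : ℝ) : ℂ) ≠ 0 := by exact_mod_cast hdn.ne'
      have hMc : (M : ℂ) ≠ 0 := by exact_mod_cast hM0.ne'
      field_simp
    rw [h6, Complex.ofReal_re, div_le_iff₀ hM0] at h5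
    have h8 : h z = f z / (z * deriv f z) := by
      simp only [hh]
      rw [dslope_of_ne _ hz0, slope_def_field, h0]
      simp only [sub_zero]
      field_simp
    rw [h8]
    linarith
  have hdc : Continuous fun θ : ℝ => ‖(deriv f (circleMap 0 r θ))⁻¹‖ := by
    apply Continuous.norm
    apply Continuous.inv₀
    · exact (hf.deriv hUo).continuousOn.comp_continuous hcm hsph
    · exact fun θ => deriv_ne_zero hUo hf hi (hsph θ)
  calc (1 / (2 * Real.pi)) * ∫ θ in (0:ℝ)..(2 * Real.pi), ‖(deriv f (circleMap 0 r θ))⁻¹‖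
      ≤ (1 / (2 * Real.pi)) * ∫ θ in (0:ℝ)..(2 * Real.pi), M * (h (circleMap 0 r θ)).re := by
        gcongr
        apply intervalIntegral.integral_mono_on (by positivity)
        · exact hdc.intervalIntegrable _ _
        · exact (continuous_const.mul (Complex.continuous_re.comp hcont)).intervalIntegrable _ _
        · intro θ _
          exact hpt θ
    _ = M * ((1 / (2 * Real.pi)) * ∫ θ in (0:ℝ)..(2 * Real.pi), (h (circleMap 0 r θ)).re) := by
        rw [intervalIntegral.integral_const_mul]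
        ring
    _ = M := by rw [hre, mul_one]

end Pool.Agent.S04995
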