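import Pool.Statements.S05041
import Pool.Agent.H399R4.L22
-- import your own Pool.Agent.* helpers here

set_option autoImplicit false
open Pool Pool.MP_7235ad_an

namespace Pool.Agent.S05041

/-- For some positive masses there is an entire-time, collision-free Newtonian four-body solution in space, center of mass fixed, with negative energy, never coplanar at any instant, whose positions stay bounded for all time. -/
theorem result :
    ∃ (m : Fin 4 → ℝ) (x : Fin 4 → ℝ → EuclideanSpace ℝ (Fin 3)),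
      (∀ i, 0 < m i) ∧
      (∀ i, ContDiff ℝ 2 (x i)) ∧
      (∀ t : ℝ, ∀ i j : Fin 4, i ≠ j → x i t ≠ x j t) ∧
      (∀ t : ℝ, ∀ i : Fin 4,
        deriv (deriv (x i)) t =
          ∑ j ∈ Finset.univ.erase i, (m j / ‖x j t - x i t‖ ^ 3) • (x j t - x i t)) ∧
      (∀ t : ℝ, ∑ i, m i • x i t = 0) ∧
      (∀ t : ℝ,
        (1 / 2 : ℝ) * ∑ i, m i * ‖deriv (x i) t‖ ^ 2
          - (1 / 2 : ℝ) * ∑ i, ∑ j ∈ Finset.univ.erase i, m i * m j / ‖x i t - x j t‖ < 0) ∧
      (∀ t : ℝ, AffineIndependent ℝ (fun i => x i t)) ∧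
      (∃ R : ℝ, ∀ i : Fin 4, ∀ t : ℝ, ‖x i t‖ ≤ R) := by
  obtain ⟨e, ν, Ω, X, Y, s, τ, hg, hm, hE, hA⟩ := Pool.Agent.H399R4.exists_solution
  refine ⟨Pool.Agent.H399R4.mass Ω, Pool.Agent.H399R4.xx e X Y ν Ω, ?_, fun i => Pool.Agent.H399R4.xx_contDiff i,
    ?_, fun t i => Pool.Agent.H399R4.xx_newton hg i t, fun t => Pool.Agent.H399R4.xx_com t, ?_, hA,
    Pool.Agent.H399R4.xx_bdd⟩
  · intro i
    fin_cases i
    · exact hm
    · exact hm
    · exact hm
    · exact one_pos
  · intro t i j hij h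
    exact hij ((hA t).injective h)
  · intro t
    rw [Pool.Agent.H399R4.pot1 (Pool.Agent.H399R4.mass Ω) (fun i => Pool.Agent.H399R4.xx e X Y ν Ω i t),
      Pool.Agent.H399R4.energy_eq]
    exact hE t

end Pool.Agent.S05041
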