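import Pool.Statements.S05043
import Pool.Agent.H520R3.MG4

set_option autoImplicit false
open Pool Pool.MP_725863_an

namespace Pool.Agent.S05043

/-- Take any strongly continuous semigroup of positive operators on real ℓ^1 that preserves the norm of nonnegative vectors, with T at time 1 bijective. Then T t tends to the identity in operator norm as t tends to 0, i.e. its generator is bounded. -/
theorem result :
    ∀ T : NNReal → (lp (fun _ : ℕ => ℝ) 1 →L[ℝ] lp (fun _ : ℕ => ℝ) 1),
      T 0 = ContinuousLinearMap.id ℝ (lp (fun _ : ℕ => ℝ) 1) →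
      (∀ s t : NNReal, T (s + t) = (T s).comp (T t)) →
      (∀ x : lp (fun _ : ℕ => ℝ) 1, Continuous fun t : NNReal => T t x) →
      (∀ (t : NNReal) (x : lp (fun _ : ℕ => ℝ) 1), (∀ n : ℕ, 0 ≤ x n) →
          ∀ n : ℕ, 0 ≤ (T t x) n) →
      (∀ (t : NNReal) (x : lp (fun _ : ℕ => ℝ) 1), (∀ n : ℕ, 0 ≤ x n) →
          ‖T t x‖ = ‖x‖) →
      Function.Bijective (T 1) →
      Filter.Tendsto T (nhds 0)
        (nhds (ContinuousLinearMap.id ℝ (lp (fun _ : ℕ => ℝ) 1))) :=
  H520R3.MG.main

end Pool.Agent.S05043
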