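import Pool.Statements.S05050
import Pool.Agent.H740R3.FRec3

set_option autoImplicit false
open Pool Pool.MP_7364f6_an

namespace Pool.Agent.S05050

open Pool.Agent.H740R3.FRec

noncomputable abbrev A : L1 I →L[ℝ] L1 I := T D0

/-- finitely supported vectors are periodic -/
theorem per_single (j : I) (c : ℝ) (L : ℕ) (hL : j.1 ≤ L) :
    (A ^ (2 ^ L)) (lp.single 1 j c) = lp.single 1 j c := by
  ext x
  rw [Tpow_apply]
  obtain ⟨i, k⟩ := x
  have h1 : D0.s^[2 ^ L] (⟨i, k⟩ : I) = ⟨i, k + ((2 ^ L : ℕ) : ZMod (2 ^ i))⟩ := shift_iter _ _ _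
  rcases le_or_gt i L with h | h
  · have h2 : ((2 ^ L : ℕ) : ZMod (2 ^ i)) = 0 := by
      rw [ZMod.natCast_eq_zero_iff]
      exact pow_dvd_pow 2 h
    rw [h1, h2, add_zero, div_self (D0.wpos _).ne', one_mul]
  · have h3 : (D0.s^[2 ^ L] (⟨i, k⟩ : I)) ≠ j := by
      rw [h1]
      intro hcon
      rw [← hcon] at hL
      simp only at hL
      omega
    have h4 : (⟨i, k⟩ : I) ≠ j := by
      intro hcon
      rw [← hcon] at hL
      simp only at hL
      omega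
    rw [lp.single_apply_ne _ _ _ h3, lp.single_apply_ne _ _ _ h4, mul_zero]

theorem dense_per : Dense {x : L1 I | ∃ D : ℕ, 0 < D ∧ (A ^ D) x = x} := by
  intro f
  have h := lp.hasSum_single (E := fun _ : I => ℝ) (p := 1) (by simp) f
  apply mem_closure_of_tendsto h
  filter_upwards with s
  refine ⟨2 ^ (s.sup (fun j => j.1)), by positivity, ?_⟩
  rw [map_sum]
  apply Finset.sum_congr rfl
  intro j hj
  exact per_single j _ _ (Finset.le_sup (f := fun j : I => j.1) hj)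

/-- the non recurrent vector -/
noncomputable def e (i : ℕ) : L1 I := lp.single 1 (⟨i + 1, ((2 ^ i : ℕ) : ZMod (2 ^ (i + 1)))⟩ : I)
  (wt ⟨i + 1, ((2 ^ i : ℕ) : ZMod (2 ^ (i + 1)))⟩)

theorem e_norm (i : ℕ) : ‖e i‖ ≤ (1 / Real.sqrt 2) ^ i := by
  unfold e
  rw [lp.norm_single (by simp)]
  have h0 : ((2 ^ i : ℕ) : ZMod (2 ^ (i + 1))).val = 2 ^ i :=
    ZMod.val_natCast_of_lt (Nat.pow_lt_pow_right (by norm_num) (by omega))
  rw [Real.norm_eq_abs]
  unfold wt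
  simp only
  rw [abs_of_pos (g_pos _), h0]
  unfold g
  rw [one_div_pow]
  apply one_div_le_one_div_of_le (by positivity)
  have h1 : Real.sqrt 2 ^ i = Real.sqrt ((2:ℝ) ^ i) := by
    symm
    rw [Real.sqrt_eq_iff_mul_self_eq (by positivity) (by positivity), ← mul_pow,
      Real.mul_self_sqrt (by norm_num)]
  rw [h1]
  apply Real.sqrt_le_sqrt
  push_cast
  linarith

noncomputable def ev (j : I) : L1 I →L[ℝ] ℝ :=
  LinearMap.mkContinuous
    { toFun := fun f => f j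
      map_add' := fun _ _ => rfl
      map_smul' := fun _ _ => rfl } 1 (fun f => by
        rw [one_mul]
        exact lp.norm_apply_le_norm (by simp) f j)

theorem ev_apply (j : I) (f : L1 I) : ev j f = f j := rfl

theorem e_summable : Summable e := by
  apply Summable.of_norm_bounded (g := fun i => (1 / Real.sqrt 2) ^ i) _ e_norm
  apply summable_geometric_of_lt_one (by positivity)
  rw [div_lt_one (by positivity)]
  rw [Real.lt_sqrt (by norm_num)]
  norm_num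

noncomputable def y : L1 I := ∑' i, e i

theorem y_apply (j : I) : y j = ∑' i, e i j := by
  rw [← ev_apply, y, (ev j).map_tsum e_summable]
  rfl

theorem e_apply_ne (i : ℕ) (j : I) (h : j ≠ ⟨i + 1, ((2 ^ i : ℕ) : ZMod (2 ^ (i + 1)))⟩) :
    e i j = 0 := by
  unfold e
  exact lp.single_apply_ne _ _ _ h

theorem y_zero (i : ℕ) : y (⟨i + 1, 0⟩ : I) = 0 := by
  rw [y_apply]
  have : ∀ i', e i' (⟨i + 1, 0⟩ : I) = 0 := by
    intro i'
    apply e_apply_ne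
    intro hcon
    have h1 : i = i' := by
      have := congrArg Sigma.fst hcon
      simp only at this
      omega
    subst h1
    have h2 : (0 : ZMod (2 ^ (i + 1))) = ((2 ^ i : ℕ) : ZMod (2 ^ (i + 1))) := by
      exact eq_of_heq (Sigma.mk.inj hcon).2
    have h3 := congrArg ZMod.val h2
    rw [ZMod.val_natCast_of_lt (Nat.pow_lt_pow_right (by norm_num) (by omega)), ZMod.val_zero] at h3
    have : 0 < 2 ^ i := by positivity
    omega
  simp [this]

theorem y_pow (i : ℕ) : y (⟨i + 1, ((2 ^ i : ℕ) : ZMod (2 ^ (i + 1)))⟩ : I) =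
    wt ⟨i + 1, ((2 ^ i : ℕ) : ZMod (2 ^ (i + 1)))⟩ := by
  rw [y_apply, tsum_eq_single i]
  · unfold e
    rw [lp.single_apply_self]
  · intro i' hi'
    apply e_apply_ne
    intro hcon
    have := congrArg Sigma.fst hcon
    simp only at this
    omega

theorem far (k : ℕ) (hk : 0 < k) : 1 ≤ ‖(A ^ k) y - y‖ := by
  obtain ⟨i, m, hm, rfl⟩ : ∃ i m, ¬ 2 ∣ m ∧ k = 2 ^ i * m := Nat.exists_eq_pow_mul_and_not_dvd hk.ne' 2 (by norm_num)
  have h1 := lp.norm_apply_le_norm (by simp) ((A ^ (2 ^ i * m)) y - y) (⟨i + 1, 0⟩ : I)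
  refine le_trans ?_ h1
  have h2 : ((A ^ (2 ^ i * m)) y - y) (⟨i + 1, 0⟩ : I) =
    (A ^ (2 ^ i * m)) y (⟨i + 1, 0⟩ : I) - y (⟨i + 1, 0⟩ : I) := rfl
  rw [h2, y_zero, sub_zero, Tpow_apply]
  have h3 : D0.s^[2 ^ i * m] (⟨i + 1, 0⟩ : I) = ⟨i + 1, ((2 ^ i : ℕ) : ZMod (2 ^ (i + 1)))⟩ := by
    have h4 : D0.s^[2 ^ i * m] (⟨i + 1, 0⟩ : I) = ⟨i + 1, 0 + ((2 ^ i * m : ℕ) : ZMod (2 ^ (i + 1)))⟩ :=
      shift_iter _ _ _
    rw [h4, zero_add]
    congr 1
    rw [ZMod.natCast_eq_natCast_iff]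
    obtain ⟨q, hq⟩ : ∃ q, m = 2 * q + 1 := ⟨m / 2, by omega⟩
    rw [hq]
    have : 2 ^ i * (2 * q + 1) = 2 ^ i + 2 ^ (i + 1) * q := by ring
    rw [this]
    unfold Nat.ModEq
    rw [Nat.add_mul_mod_self_left]
  rw [h3, y_pow]
  have h5 : D0.w (⟨i + 1, ((2 ^ i : ℕ) : ZMod (2 ^ (i + 1)))⟩ : I) ≠ 0 := (D0.wpos _).ne'
  have h6 : D0.w (⟨i + 1, 0⟩ : I) = 1 := by
    show g ((0 : ZMod (2 ^ (i + 1))).val) = 1
    rw [ZMod.val_zero]
    simp [g]
  have h7 : wt (⟨i + 1, ((2 ^ i : ℕ) : ZMod (2 ^ (i + 1)))⟩ : I) = D0.w ⟨i + 1, ((2 ^ i : ℕ) : ZMod (2 ^ (i + 1)))⟩ := rfl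
  rw [h7, div_mul_cancel₀ _ h5, h6]
  simp

theorem result :
    ¬ (∀ (𝕜 : Type) [RCLike 𝕜] (X : Type) [AddCommGroup X] [Module 𝕜 X] [Module ℝ X]
      [IsScalarTower ℝ 𝕜 X] [UniformSpace X] [IsUniformAddGroup X] [CompleteSpace X]
      [TopologicalSpace.MetrizableSpace X] [ContinuousSMul 𝕜 X] [LocallyConvexSpace ℝ X]
      (T : X →L[𝕜] X),
      {x : X | ∀ U ∈ nhds x, ∃ δ : ℝ, 0 < δ ∧ ∃ N : ℕ, ∀ n : ℕ, N ≤ n →
          δ * (n : ℝ) ≤ ((Set.ncard {k : ℕ | k < n ∧ (T ^ k) x ∈ U} : ℕ) : ℝ)} = Set.univ ∨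
      IsMeagre {x : X | ∀ U ∈ nhds x, ∃ δ : ℝ, 0 < δ ∧ ∃ N : ℕ, ∀ n : ℕ, N ≤ n →
          δ * (n : ℝ) ≤ ((Set.ncard {k : ℕ | k < n ∧ (T ^ k) x ∈ U} : ℕ) : ℝ)}) := by
  intro H
  have hres : FR A ∈ residual (L1 I) :=
    residual_FR A (C := 6) (by norm_num) (cesaro D0) dense_per
  rcases H ℝ (L1 I) A with h | h
  · have hy : y ∈ FR A := by
      have : FR A = Set.univ := h
      rw [this]; trivial
    obtain ⟨δ, hδ, N, hN⟩ := hy (Metric.ball y 1) (Metric.ball_mem_nhds y one_pos)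
    obtain ⟨n, hn⟩ := exists_nat_gt (1 / δ)
    have h1 := hN (max n N) (le_max_right _ _)
    have h2 : ({k : ℕ | k < max n N ∧ (A ^ k) y ∈ Metric.ball y 1}) ⊆ {0} := by
      rintro k ⟨_, hk⟩
      rw [Set.mem_singleton_iff]
      by_contra h0
      have h3 := far k (Nat.pos_of_ne_zero h0)
      rw [Metric.mem_ball, dist_eq_norm] at hk
      linarith
    have h3 := Set.ncard_le_ncard h2 (Set.finite_singleton _)
    rw [Set.ncard_singleton] at h3
    have h4 : ((Set.ncard {k : ℕ | k < max n N ∧ (A ^ k) y ∈ Metric.ball y 1} : ℕ) : ℝ) ≤ 1 := by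
      exact_mod_cast h3
    have h5 : (n : ℝ) ≤ ((max n N : ℕ) : ℝ) := by exact_mod_cast le_max_left _ _
    rw [div_lt_iff₀ hδ] at hn
    nlinarith
  · have h1 : (FR A)ᶜ ∈ residual (L1 I) := h
    have h2 : (∅ : Set (L1 I)) ∈ residual (L1 I) := by
      have := Filter.inter_mem hres h1
      rwa [Set.inter_compl_self] at this
    have h3 := dense_of_mem_residual h2
    have := h3.nonempty
    exact Set.not_nonempty_empty this

end Pool.Agent.S05050
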