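import Pool.Statements.S05052
import Pool.Agent.H433R3.Mx5

set_option autoImplicit false
open scoped ENNReal NNReal
open Pool Pool.MP_73658e_an

namespace Pool.Agent.S05052

open MeasureTheory

/-- The negation of the preceding statement: For 1<p<∞ and measurable weights U,V≥0, if the tailed condition (∫U/(∣I∣^p+∣x−x_I∣^p))(∫_I V^{-1/(p−1)})^{p−1} ≤ B holds for all intervals I, then ∫(Mf)^p U ≤ C∫∣f∣^p V for all measurable f, where M is the maximal function. -/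
theorem result :
    ¬ (∀ p : ℝ, 1 < p → ∀ U V : ℝ → ℝ≥0∞, Measurable U → Measurable V →
      ∀ B : ℝ≥0, (∀ a b : ℝ, a < b →
        (∫⁻ x, U x / ENNReal.ofReal ((b - a) ^ p + |x - (a + b) / 2| ^ p)) *
          (∫⁻ x in Set.Icc a b, V x ^ (-(1 / (p - 1)))) ^ (p - 1) ≤ (B : ℝ≥0∞)) →
      ∃ C : ℝ≥0, ∀ f : ℝ → ℝ, Measurable f →
        ∫⁻ x, (⨆ a : ℝ, ⨆ b : ℝ, ⨆ (_ : a < x ∧ x < b),
            ENNReal.ofReal (b - a)⁻¹ * ∫⁻ t in Set.Ioo a b, ‖f t‖ₑ) ^ p * U x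
          ≤ (C : ℝ≥0∞) * ∫⁻ x, ‖f x‖ₑ ^ p * V x) := by
  intro h
  obtain ⟨C, hC⟩ := h 2 (by norm_num) H433R3.Mx.U H433R3.Mx.V
    H433R3.Mx.U_meas H433R3.Mx.V_meas 1000 (by
      intro a b hab
      have e1 : ∀ x : ℝ, H433R3.Mx.U x /
          ENNReal.ofReal ((b - a) ^ (2:ℝ) + |x - (a + b) / 2| ^ (2:ℝ)) =
          H433R3.Mx.U x * H433R3.Mx.Kx a b x := by
        intro x
        unfold H433R3.Mx.Kx H433R3.Mx.D
        rw [Real.rpow_two, Real.rpow_two, sq_abs, div_eq_mul_inv]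
      have e2 : ∀ x : ℝ, (H433R3.Mx.V x) ^ (-(1 / ((2:ℝ) - 1))) = H433R3.Mx.sig x + 1 := by
        intro x
        have : -(1 / ((2:ℝ) - 1)) = -1 := by norm_num
        unfold H433R3.Mx.V
        rw [this, ENNReal.rpow_neg_one, inv_inv]
      have e3 : ((2:ℝ) - 1) = 1 := by norm_num
      simp only [e1, e2]
      rw [e3, ENNReal.rpow_one]
      exact H433R3.Mx.condP' hab)
  apply H433R3.Mx.final' C
  intro n
  have := hC (H433R3.Mx.tf n) (H433R3.Mx.tf_meas n)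
  simp only [ENNReal.rpow_two] at this
  exact this

end Pool.Agent.S05052
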