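import Pool.Statements.S05053
import Pool.Agent.H898SR.Fin

set_option autoImplicit false
open Filter Topology
open Pool Pool.MP_739d9d_an

namespace Pool.Agent.S05053

/-- For a finite group acting with the weak tracial Rokhlin property on an infinite-dimensional simple unital C*-algebra of stable rank one, both the crossed product (as covariant G×G matrices over A) and the fixed point algebra have dense invertibles. -/
theorem result :
  ∀ (A : Type) [CStarAlgebra A],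
    (∀ I : TwoSidedIdeal A, IsClosed (I : Set A) → (∀ x ∈ I, x = 0) ∨ (1 : A) ∈ I) →
    ¬ FiniteDimensional ℂ A →
    Dense {b : A | IsUnit b} →
    ∀ (G : Type) [Group G] [Fintype G] [DecidableEq G] (α : G → (A ≃⋆ₐ[ℂ] A)),
      (∀ a : A, α 1 a = a) →
      (∀ (g h : G) (a : A), α (g * h) a = α g (α h a)) →
      (∀ ε : ℝ, 0 < ε → ∀ F : Finset A, ∀ x : A, (∃ y : A, x = star y * y) → ‖x‖ = 1 →
        ∃ f : G → A,
          (∀ g, (∃ y : A, f g = star y * y) ∧ ‖f g‖ ≤ 1) ∧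
          (∀ g h, g ≠ h → f g * f h = 0) ∧
          (∀ g h, ‖α g (f h) - f (g * h)‖ < ε) ∧
          (∀ a ∈ F, ∀ g, ‖f g * a - a * f g‖ < ε) ∧
          (∃ v : ℕ → A, Tendsto (fun n => v n * x * star (v n)) atTop (𝓝 (1 - ∑ g, f g))) ∧
          1 - ε < ‖(∑ g, f g) * x * (∑ g, f g)‖) →
      (∀ M : Matrix G G A, (∃ c : G → A, ∀ h g, M h g = α h⁻¹ (c (h * g⁻¹))) →
        M ∈ closure {N : Matrix G G A |
          (∃ c : G → A, ∀ h g, N h g = α h⁻¹ (c (h * g⁻¹))) ∧
          ∃ N' : Matrix G G A,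
            (∃ c : G → A, ∀ h g, N' h g = α h⁻¹ (c (h * g⁻¹))) ∧
            N * N' = 1 ∧ N' * N = 1}) ∧
      (∀ a : A, (∀ g, α g a = a) → ∀ ε : ℝ, 0 < ε → ∃ b c : A,
          (∀ g, α g b = b) ∧ (∀ g, α g c = c) ∧ b * c = 1 ∧ c * b = 1 ∧ ‖a - b‖ < ε) := by
  intro A _ h hnf hd G _ _ _ α hα1 hαm hw
  exact Pool.Agent.H898SR.final h hnf hd G α hα1 hαm hw

end Pool.Agent.S05053
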