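import Pool.Statements.S05059
import Pool.Agent.H218R3.Density

set_option autoImplicit false
open Filter
open Pool Pool.MP_74947d_an

namespace Pool.Agent.S05059

/-- There is a non-polynomial entire function whose set of points with iterates tending to infinity is connected, while its complement contains a closed, connected, unbounded subset of the plane. -/
theorem result :
    ∃ f : ℂ → ℂ, Differentiable ℂ f ∧
      (¬ ∃ p : Polynomial ℂ, ∀ z : ℂ, f z = p.eval z) ∧
      IsConnected {z : ℂ | Tendsto (fun n : ℕ => f^[n] z) atTop (cocompact ℂ)} ∧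
      ∃ K : Set ℂ, IsClosed K ∧ IsConnected K ∧ ¬ Bornology.IsBounded K ∧
        K ⊆ {z : ℂ | Tendsto (fun n : ℕ => f^[n] z) atTop (cocompact ℂ)}ᶜ :=
  ⟨H218R3.F, H218R3.differentiable_F, H218R3.F_not_polynomial, H218R3.isConnected_Esc,
    H218R3.K, H218R3.isClosed_K, H218R3.isConnected_K, H218R3.not_isBounded_K, H218R3.K_subset⟩

end Pool.Agent.S05059
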