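import Pool.Statements.S05106
-- import your own Pool.Agent.* helpers here

set_option autoImplicit false
open Pool Pool.MP_7987d1_an

namespace Pool.Agent.S05106

/-- the profile of the front -/
noncomputable def prof (s : ℝ) : ℝ := (1 + Real.exp (-s))⁻¹

lemma prof_pos (s : ℝ) : 0 < prof s := by unfold prof; positivity

lemma prof_lt_one (s : ℝ) : prof s < 1 := by
  unfold prof
  have := Real.exp_pos (-s)
  apply inv_lt_one_of_one_lt₀
  linarith

lemma hasDerivAt_prof (s : ℝ) : HasDerivAt prof (prof s * (1 - prof s)) s := by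
  have h1 : HasDerivAt (fun s : ℝ => 1 + Real.exp (-s)) (Real.exp (-s) * (-1)) s := by
    exact ((hasDerivAt_neg s).exp).const_add 1
  have hne : (1 + Real.exp (-s)) ≠ 0 := by positivity
  have h2 := h1.inv hne
  have : prof s * (1 - prof s) = -(Real.exp (-s) * (-1)) / (1 + Real.exp (-s)) ^ 2 := by
    unfold prof
    field_simp
    ring
  rw [this]
  exact h2

lemma prof_injective : Function.Injective prof := by
  intro a b h
  unfold prof at h
  have h1 := inv_injective h
  have h2 : Real.exp (-a) = Real.exp (-b) := by linarith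
  have h3 := Real.exp_injective h2
  linarith

lemma contDiff_prof : ContDiff ℝ 2 prof := by
  unfold prof
  apply ContDiff.inv
  · exact contDiff_const.add (Real.contDiff_exp.comp contDiff_neg)
  · intro s; positivity

theorem result :
    ¬ (∀ m : ℕ, m + 1 ≤ 8 → ∀ u : EuclideanSpace ℝ (Fin (m + 1)) × ℝ → ℝ,
    ContDiffOn ℝ 2 u {p | p.2 < 0} →
    (∀ x : EuclideanSpace ℝ (Fin (m + 1)), ∀ t : ℝ, t < 0 →
      |u (x, t)| ≤ 1 ∧
      (∑ i : Fin (m + 1), iteratedFDeriv ℝ 2 (fun y => u (y, t)) x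
          (fun _ => EuclideanSpace.single i (1 : ℝ)))
        - deriv (fun s => u (x, s)) t = u (x, t) ^ 3 - u (x, t) ∧
      0 < fderiv ℝ (fun y => u (y, t)) x (EuclideanSpace.single (Fin.last m) (1 : ℝ)) ∧
      0 ≤ deriv (fun s => u (x, s)) t) →
    ∃ ν : EuclideanSpace ℝ (Fin (m + 1)), ‖ν‖ = 1 ∧
      ∃ g : ℝ → ℝ, ∀ x : EuclideanSpace ℝ (Fin (m + 1)), ∀ t : ℝ, t < 0 →
        u (x, t) = g (inner ℝ ν x)) := by
  intro H
  -- the linear functional `x ↦ x 0 / √2`
  set k : ℝ := 1 / Real.sqrt 2 with hk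
  have hk0 : 0 < k := by positivity
  have hk2 : k * k = 1 / 2 := by
    rw [hk, div_mul_div_comm, Real.mul_self_sqrt (by norm_num)]
    norm_num
  let L : EuclideanSpace ℝ (Fin (0 + 1)) →L[ℝ] ℝ := k • EuclideanSpace.proj 0
  have hL : ∀ x : EuclideanSpace ℝ (Fin (0 + 1)), L x = k * x 0 := by
    intro x; simp [L]
  have hLs : L (EuclideanSpace.single 0 (1 : ℝ)) = k := by
    rw [hL]; simp
  let u : EuclideanSpace ℝ (Fin (0 + 1)) × ℝ → ℝ := fun p => prof (L p.1 + 3 / 2 * p.2)
  have hprof := hasDerivAt_prof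
  -- first derivative in space
  have hx1 : ∀ (t : ℝ) (x : EuclideanSpace ℝ (Fin (0 + 1))),
      HasFDerivAt (fun y => u (y, t))
        ((prof (L x + 3 / 2 * t) * (1 - prof (L x + 3 / 2 * t))) • L) x := by
    intro t x
    have h1 : HasFDerivAt (fun y : EuclideanSpace ℝ (Fin (0 + 1)) => L y + 3 / 2 * t) L x :=
      L.hasFDerivAt.add_const _
    exact HasDerivAt.comp_hasFDerivAt (h₂ := prof) x (hprof (L x + 3 / 2 * t)) h1
  have hq : ∀ s : ℝ, HasDerivAt (fun s => prof s * (1 - prof s))
      (prof s * (1 - prof s) * (1 - prof s) + prof s * (-(prof s * (1 - prof s)))) s := by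
    intro s
    exact (hprof s).mul ((hprof s).const_sub 1)
  have hx2 : ∀ (t : ℝ) (x : EuclideanSpace ℝ (Fin (0 + 1))),
      HasFDerivAt (fun y => (prof (L y + 3 / 2 * t) * (1 - prof (L y + 3 / 2 * t))) • L)
        ((((prof (L x + 3 / 2 * t) * (1 - prof (L x + 3 / 2 * t)) * (1 - prof (L x + 3 / 2 * t))
          + prof (L x + 3 / 2 * t) * (-(prof (L x + 3 / 2 * t) * (1 - prof (L x + 3 / 2 * t)))))) • L).smulRight L) x := by
    intro t x
    have h1 : HasFDerivAt (fun y : EuclideanSpace ℝ (Fin (0 + 1)) => L y + 3 / 2 * t) L x :=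
      L.hasFDerivAt.add_const _
    have h2 := (hq (L x + 3 / 2 * t)).comp_hasFDerivAt x h1
    exact h2.smul_const L
  have ht1 : ∀ (x : EuclideanSpace ℝ (Fin (0 + 1))) (t : ℝ),
      HasDerivAt (fun s => u (x, s))
        ((prof (L x + 3 / 2 * t) * (1 - prof (L x + 3 / 2 * t))) * (3 / 2)) t := by
    intro x t
    have h1 : HasDerivAt (fun s : ℝ => L x + 3 / 2 * s) (3 / 2) t := by
      simpa using ((hasDerivAt_id t).const_mul (3 / 2 : ℝ)).const_add (L x)
    exact HasDerivAt.comp (h₂ := prof) t (hprof (L x + 3 / 2 * t)) h1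
  obtain ⟨ν, hν, g, hg⟩ := H 0 (by norm_num) u (by
      apply ContDiff.contDiffOn
      apply contDiff_prof.comp
      exact (L.contDiff.comp contDiff_fst).add (contDiff_const.mul contDiff_snd)) (by
    intro x t _
    set p := prof (L x + 3 / 2 * t) with hp
    have hp0 : 0 < p := prof_pos _
    have hp1 : p < 1 := prof_lt_one _
    have hu : u (x, t) = p := rfl
    refine ⟨?_, ?_, ?_, ?_⟩
    · rw [hu, abs_of_pos hp0]; exact hp1.le
    · rw [(ht1 x t).deriv, hu]
      have hfd : fderiv ℝ (fun y => u (y, t)) =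
          fun y => (prof (L y + 3 / 2 * t) * (1 - prof (L y + 3 / 2 * t))) • L := by
        funext y; exact (hx1 t y).fderiv
      have : ∀ i : Fin (0 + 1), iteratedFDeriv ℝ 2 (fun y => u (y, t)) x
          (fun _ => EuclideanSpace.single i (1 : ℝ)) = (p * (1 - p) * (1 - p) + p * (-(p * (1 - p)))) * (k * k) := by
        intro i
        have hi : i = 0 := Fin.eq_zero i
        subst hi
        rw [iteratedFDeriv_two_apply, hfd, (hx2 t x).fderiv]
        simp only [ContinuousLinearMap.smulRight_apply, FunLike.coe_smul, Pi.smul_apply, hLs, smul_eq_mul, ← hp]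
        ring
      rw [Finset.sum_congr rfl (fun i _ => this i)]
      simp only [Finset.sum_const, Finset.card_univ, Fintype.card_fin, hk2, ← hp]
      simp
      ring
    · rw [(hx1 t x).fderiv]
      have : (Fin.last 0) = (0 : Fin (0 + 1)) := rfl
      rw [this, FunLike.coe_smul, Pi.smul_apply, hLs, smul_eq_mul]
      have : 0 < 1 - p := by linarith
      positivity
    · rw [(ht1 x t).deriv]
      have : 0 < 1 - p := by linarith
      positivity)
  have h1 := hg 0 (-1) (by norm_num)
  have h2 := hg 0 (-2) (by norm_num)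
  have h3 : u (0, -1) = u (0, -2) := by rw [h1, h2]
  have h4 := prof_injective h3
  norm_num at h4

end Pool.Agent.S05106
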