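import Pool.Statements.S05110
import Pool.Agent.H574Leontev.Final

set_option autoImplicit false
open Filter
open Pool Pool.MP_79be58_an

namespace Pool.Agent.S05110

open Pool.Agent.H574Leontev MeasureTheory in
/-- no exceptional set of zero relative measure works -/
lemma not_crg' (h : ℝ → ℝ) (hpos : ∀ φ, 0 < h φ) :
    ¬ ∃ E : Set ℝ, E ⊆ Set.Ioi 0 ∧
      Tendsto (fun r : ℝ => (MeasureTheory.volume (E ∩ Set.Ioo 0 r)).toReal / r) atTop (nhds 0) ∧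
      ∀ ε : ℝ, 0 < ε → ∃ R : ℝ, ∀ r : ℝ, R ≤ r → r ∉ E → ∀ φ : ℝ,
        Real.exp ((h φ - ε) * r ^ ((4 : ℝ) / 3)) ≤
          ‖FF 0 ((r : ℂ) * Complex.exp ((φ : ℂ) * Complex.I))‖ ∧
        ‖FF 0 ((r : ℂ) * Complex.exp ((φ : ℂ) * Complex.I))‖ ≤
          Real.exp ((h φ + ε) * r ^ ((4 : ℝ) / 3)) := by
  rintro ⟨E, hE, hden, hout⟩
  have hH2 := H2_neg
  have hpi := hpos Real.pi
  obtain ⟨R2, hR2⟩ := hout (h Real.pi / 2) (by linarith)
  have hden' := (Metric.tendsto_nhds.1 hden) (1 / 4) (by norm_num)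
  obtain ⟨R1, hR1⟩ := eventually_atTop.1 hden'
  obtain ⟨x, ⟨hx0, hdec⟩, hxR1, hxR2, hx1⟩ := (FF_decay.and_eventually
    ((eventually_ge_atTop (max R1 0)).and ((eventually_ge_atTop (max R2 0)).and
      (eventually_ge_atTop 1)))).exists
  have hR1x : R1 ≤ x := (le_max_left _ _).trans hxR1
  have hR2x : R2 ≤ x := (le_max_left _ _).trans hxR2
  set R : ℝ := x ^ 3 with hR
  have hxR : x ≤ R := by rw [hR]; nlinarith [sq_nonneg x, sq_nonneg (x - 1)]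
  have hRpos : 0 < R := by positivity
  have hsub : Set.Ioo R (2 * R) ⊆ E ∩ Set.Ioo 0 (2 * R) := by
    intro r hr
    refine ⟨?_, lt_trans hRpos hr.1, hr.2⟩
    by_contra hrE
    have hr0 : 0 < r := lt_trans hRpos hr.1
    have h1 := (hR2 r (by linarith [hr.1]) hrE Real.pi).1
    rw [Complex.exp_pi_mul_I, mul_neg_one] at h1
    set t : ℝ := r ^ ((1 : ℝ) / 3) with ht
    have ht0 : 0 < t := by positivity
    have ht3 : t ^ 3 = r := by rw [ht, ← Real.rpow_natCast, ← Real.rpow_mul hr0.le]; norm_num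
    have htx : x ≤ t := by
      apply le_of_pow_le_pow_left₀ (n := 3) (by norm_num) ht0.le
      rw [ht3]; exact hr.1.le
    have htx2 : t ≤ 2 * x := by
      apply le_of_pow_le_pow_left₀ (n := 3) (by norm_num) (by linarith)
      rw [ht3]
      refine hr.2.le.trans ?_
      rw [hR]
      nlinarith [pow_pos hx0 3]
    have h2 := hdec t htx htx2
    rw [← FF_pow 2, Complex.I_sq] at h2
    have h3 : (-1 : ℂ) * (t : ℂ) ^ 3 = -(r : ℂ) := by
      rw [← ht3]; push_cast; ring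
    rw [h3] at h2
    have hr43 : r ^ ((4 : ℝ) / 3) = t ^ 4 := by rw [← ht3, cube_rpow t ht0.le]
    rw [hr43] at h1
    have ht4 : 0 < t ^ 4 := by positivity
    have h5 := h1.trans h2
    rw [Real.exp_le_exp] at h5
    have h8 : 0 < (h Real.pi - h Real.pi / 2) * t ^ 4 := mul_pos (by linarith) ht4
    nlinarith
  have hfin : MeasureTheory.volume (E ∩ Set.Ioo 0 (2 * R)) ≠ ⊤ := by
    refine ne_top_of_le_ne_top ?_ (measure_mono Set.inter_subset_right)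
    rw [Real.volume_Ioo]; exact ENNReal.ofReal_ne_top
  have hvol : R ≤ (MeasureTheory.volume (E ∩ Set.Ioo 0 (2 * R))).toReal := by
    have h6 := ENNReal.toReal_mono hfin (measure_mono (μ := MeasureTheory.volume) hsub)
    rw [Real.volume_Ioo, ENNReal.toReal_ofReal (by linarith)] at h6
    linarith
  have h7 := hR1 (2 * R) (by linarith)
  rw [Real.dist_eq, sub_zero, abs_of_nonneg (by positivity), div_lt_iff₀ (by linarith)] at h7
  linarith

/-- The negation of the preceding statement: For ρ>0 and entire f of order at most ρ and finite type with positive indicator and simple zeros, if ln∣f'(z)∣/∣z∣^ρ minus the indicator of f' at arg z tends to 0 along the zeros z, then f has completely regular growth. -/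
theorem result :
    ¬ (∀ ρ : ℝ, 0 < ρ → ∀ f : ℂ → ℂ, Differentiable ℂ f →
    (∃ C : ℝ, ∀ z : ℂ, ‖f z‖ ≤ C * Real.exp (C * ‖z‖ ^ ρ)) →
    ∀ h h' : ℝ → ℝ,
    (∀ φ : ℝ,
      (∀ ε : ℝ, 0 < ε → ∀ᶠ r : ℝ in atTop,
        ‖f ((r : ℂ) * Complex.exp ((φ : ℂ) * Complex.I))‖ ≤ Real.exp ((h φ + ε) * r ^ ρ)) ∧
      (∀ ε : ℝ, 0 < ε → ∃ᶠ r : ℝ in atTop,
        Real.exp ((h φ - ε) * r ^ ρ) ≤ ‖f ((r : ℂ) * Complex.exp ((φ : ℂ) * Complex.I))‖)) →
    (∀ φ : ℝ,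
      (∀ ε : ℝ, 0 < ε → ∀ᶠ r : ℝ in atTop,
        ‖deriv f ((r : ℂ) * Complex.exp ((φ : ℂ) * Complex.I))‖ ≤ Real.exp ((h' φ + ε) * r ^ ρ)) ∧
      (∀ ε : ℝ, 0 < ε → ∃ᶠ r : ℝ in atTop,
        Real.exp ((h' φ - ε) * r ^ ρ) ≤ ‖deriv f ((r : ℂ) * Complex.exp ((φ : ℂ) * Complex.I))‖)) →
    (∀ φ : ℝ, 0 < h φ) →
    (∀ z : ℂ, f z = 0 → deriv f z ≠ 0) →
    (∀ ε : ℝ, 0 < ε → ∃ R : ℝ, ∀ z : ℂ, f z = 0 → R ≤ ‖z‖ →
        |Real.log ‖deriv f z‖ / ‖z‖ ^ ρ - h' (Complex.arg z)| < ε) →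
    ∃ E : Set ℝ, E ⊆ Set.Ioi 0 ∧
      Tendsto (fun r : ℝ => (MeasureTheory.volume (E ∩ Set.Ioo 0 r)).toReal / r) atTop (nhds 0) ∧
      ∀ ε : ℝ, 0 < ε → ∃ R : ℝ, ∀ r : ℝ, R ≤ r → r ∉ E → ∀ φ : ℝ,
        Real.exp ((h φ - ε) * r ^ ρ) ≤ ‖f ((r : ℂ) * Complex.exp ((φ : ℂ) * Complex.I))‖ ∧
        ‖f ((r : ℂ) * Complex.exp ((φ : ℂ) * Complex.I))‖ ≤ Real.exp ((h φ + ε) * r ^ ρ)) := by
  intro H
  choose h hh using Pool.Agent.H574Leontev.f_ind
  choose h' hh' using Pool.Agent.H574Leontev.f_deriv_ind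
  have hpos : ∀ φ, 0 < h φ := fun φ => by
    obtain ⟨c, hc, hf⟩ := Pool.Agent.H574Leontev.f_lower φ
    exact hc.trans_le ((hh φ).le_of_frequently hf)
  obtain ⟨C, hC1, hC⟩ := Pool.Agent.H574Leontev.FF_growth 0
  refine not_crg' h hpos (H (4 / 3) (by norm_num) (Pool.Agent.H574Leontev.FF 0)
    (Pool.Agent.H574Leontev.FF_differentiable 0)
    ⟨C, fun z => (hC z).trans (le_mul_of_one_le_left (Real.exp_pos _).le hC1)⟩ h h'
    (fun φ => ⟨fun ε hε => (hh φ ε hε).1, fun ε hε => (hh φ ε hε).2⟩)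
    (fun φ => ⟨fun ε hε => (hh' φ ε hε).1, fun ε hε => (hh' φ ε hε).2⟩) hpos
    Pool.Agent.H574Leontev.f_simple ?_)
  intro ε hε
  have ht := Pool.Agent.H574Leontev.f_zeros_tendsto h' hh'
  rw [Metric.tendsto_nhds] at ht
  have h1 := ht ε hε
  rw [eventually_inf_principal, ← Metric.cobounded_eq_cocompact, ← comap_norm_atTop,
    eventually_comap] at h1
  obtain ⟨R, hR⟩ := eventually_atTop.1 h1
  refine ⟨R, fun z hz hzR => ?_⟩
  have h2 := hR ‖z‖ hzR z rfl hz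
  rwa [Real.dist_eq, sub_zero] at h2

end Pool.Agent.S05110
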