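import Pool.Statements.S05124
-- import your own Pool.Agent.* helpers here
import Pool.Agent.H615R3.FRMain

set_option autoImplicit false
open Topology
open Pool Pool.MP_7b2682_an

namespace Pool.Agent.S05124

/-- The negation of the preceding statement: For every real or complex Banach space X and bounded operator T, if the vectors whose return sets to each neighbourhood have positive lower density are dense, then some dense linear subspace consists entirely of such vectors. -/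
theorem result :
    ¬ (∀ (𝕜 : Type) [RCLike 𝕜] (X : Type) [NormedAddCommGroup X] [NormedSpace 𝕜 X]
      [CompleteSpace X] (T : X →L[𝕜] X),
      Dense {x : X | ∀ U ∈ 𝓝 x, ∃ δ : ℝ, 0 < δ ∧ ∃ N₀ : ℕ, ∀ N : ℕ, N₀ ≤ N →
          δ * (N : ℝ) ≤ (({n : ℕ | 1 ≤ n ∧ n ≤ N ∧ (T ^ n) x ∈ U}.ncard : ℕ) : ℝ)} →
      ∃ M : Submodule 𝕜 X, Dense (M : Set X) ∧
        (M : Set X) ⊆ {x : X | ∀ U ∈ 𝓝 x, ∃ δ : ℝ, 0 < δ ∧ ∃ N₀ : ℕ, ∀ N : ℕ, N₀ ≤ N →
          δ * (N : ℝ) ≤ (({n : ℕ | 1 ≤ n ∧ n ≤ N ∧ (T ^ n) x ∈ U}.ncard : ℕ) : ℝ)}) := by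
  intro hall
  obtain ⟨E⟩ := H615R3.Free.nonempty_enum ℝ
  have hyp := H615R3.FR.fr_hyp E
  have hpow : ∀ (n : ℕ) (x : H615R3.Free.MM (H615R3.FR.dat E)),
      ((H615R3.Free.TT (H615R3.FR.dat E)) ^ n) x = (H615R3.Free.TT (H615R3.FR.dat E))^[n] x := by
    intro n x
    rw [FunLike.coe_pow_eq_iterate]
  obtain ⟨M, hM, hrec⟩ := hall ℝ (H615R3.Free.MM (H615R3.FR.dat E))
    (H615R3.Free.TT (H615R3.FR.dat E)) (by
      simp only [hpow]
      exact hyp.dense_rec)
  refine hyp.not_lineable M hM (fun x hx U hU => ?_)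
  have h1 := hrec hx U hU
  simp only [hpow] at h1
  exact h1


end Pool.Agent.S05124
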