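import Pool.Statements.S05134
import Pool.Agent.H769R3.AcBinom
import Pool.Agent.H769R3.AcCore
import Pool.Agent.H769R3.AcMass
import Pool.Agent.H769R3.AcLimits
import Pool.Agent.H769R3.AcReal

set_option autoImplicit false
open MeasureTheory
open Pool Pool.MP_7c1d9a_an

namespace Pool.Agent.S05134

open H769.Ac in
/-- the construction: for every `ε` there is a nonnegative step function whose ratio is at least `(1-ε)^3` -/
theorem construction (ε : ℝ) (h0 : 0 < ε) (h1 : ε < 1) :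
    ∃ f : ℝ → ℝ, (∀ x, 0 ≤ f x) ∧ MemLp f 1 volume ∧ MemLp f 2 volume ∧
      ∀ c : ℝ, eLpNorm (fun x : ℝ => ∫ t : ℝ, f t * f (x - t)) 2 volume ^ 2 ≤
          ENNReal.ofReal (1 - c) *
            eLpNorm (fun x : ℝ => ∫ t : ℝ, f t * f (x - t)) 1 volume *
            eLpNorm (fun x : ℝ => ∫ t : ℝ, f t * f (x - t)) ⊤ volume → (1 - ε) ^ 3 ≤ max (1 - c) 0 := by
  obtain ⟨u0, u1, k, s0, P, hP, hs0, hle, hge, hmass, hcard⟩ := params ε h0 h1
  have hw : ∀ p ∈ T u0 u1 k s0, 0 ≤ ww u0 u1 p := fun p _ => ww_nonneg u0 u1 p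
  refine ⟨ff (T u0 u1 k s0) (vv u0 u1 s0) (ww u0 u1), ff_nonneg _ _ _ hw, ff_memLp _ _ _ 1, ff_memLp _ _ _ 2, ?_⟩
  intro c hc
  have hr : ∀ m, rg (T u0 u1 k s0) (vv u0 u1 s0) (ww u0 u1) m = rr u0 u1 k s0 m := fun m => rfl
  apply ratio_bound (T u0 u1 k s0) (vv u0 u1 s0) (ww u0 u1) hw P ε c hP h1
    (fun m => rr_le u0 u1 k s0 P hP.le hs0 (fun i hi j hj => hle i hi j hj) m) (MM u0 u1 k s0) ?_ ?_ ?_ hc
  · intro m hm
    exact MM_good u0 u1 k s0 ((1 - ε) * P) hs0 (fun i hi j hj _ => hge i hi j hj) m hm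
  · rw [sum_ww]; exact hmass
  · rw [sum_ww, card_MM]; exact hcard

/-- The negation of the preceding statement: There is c>0 such that for every nonnegative f in L1 and L2 of the real line, the squared L2 norm of f*f is at most (1-c) times its L1 norm times its sup norm. -/
theorem result :
    ¬ (∃ c : ℝ, 0 < c ∧
      ∀ f : ℝ → ℝ, (∀ x, 0 ≤ f x) → MemLp f 1 volume → MemLp f 2 volume →
        eLpNorm (fun x : ℝ => ∫ t : ℝ, f t * f (x - t)) 2 volume ^ 2 ≤
          ENNReal.ofReal (1 - c) *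
            eLpNorm (fun x : ℝ => ∫ t : ℝ, f t * f (x - t)) 1 volume *
            eLpNorm (fun x : ℝ => ∫ t : ℝ, f t * f (x - t)) ⊤ volume) := by
  rintro ⟨c, hc, h⟩
  have hm0 : 0 < min c 1 := lt_min hc one_pos
  have hm1 : min c 1 ≤ 1 := min_le_right _ _
  have hmc : min c 1 ≤ c := min_le_left _ _
  obtain ⟨f, hf0, hf1, hf2, hf3⟩ := construction (min c 1 / 4) (by linarith) (by linarith)
  have h3 := hf3 c (h f hf0 hf1 hf2)
  have h4 : max (1 - c) 0 ≤ 1 - min c 1 := by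
    apply max_le <;> linarith
  have h5 : 1 - 3 * (min c 1 / 4) ≤ (1 - min c 1 / 4) ^ 3 := by
    nlinarith [sq_nonneg (min c 1 / 4), mul_nonneg (sq_nonneg (min c 1 / 4)) (show 0 ≤ 3 - min c 1 / 4 by linarith)]
  linarith

end Pool.Agent.S05134
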