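import Pool.Statements.S05145
import Pool.Agent.H934R3.NP.Asm
import Pool.Agent.H784R3.TaskA1
import Pool.Agent.H182R3.NPA2
import Pool.Agent.H989R3.NPA.A3
import Pool.Agent.H606NP.A4
import Pool.Agent.H676R4.NPB1
import Pool.Agent.H941R3.B2
import Pool.Agent.H242R3.NP.B3
import Pool.Agent.H934R3.NP.TaskB4
import Pool.Agent.H934R3.NP.TaskC1_helper683
import Pool.Agent.H77R3.NP.TaskC2
import Pool.Agent.H579R3.NPC3
import Pool.Agent.H725R3.NPC4
import Pool.Agent.H934R3.NP.D1_helper110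
import Pool.Agent.H934R3.NP.D3_helper835
import Pool.Agent.H108R4.NP.D4
import Pool.Agent.H108R4.NP.D5
import Pool.Agent.H266R3.NP.TaskD6
import Pool.Agent.H934R3.NP.F1_helper106
import Pool.Agent.H244R3.NP.F2
import Pool.Agent.H884R3.NP.F3
import Pool.Agent.H653R3.NPF.F4
import Pool.Agent.H934R3.NP.TaskH1_helper894
import Pool.Agent.H472R3.NPH2
import Pool.Agent.H722R5.NPH3
import Pool.Agent.H934R3.NP.J1_helper603
import Pool.Agent.H888R3.NP.J2
import Pool.Agent.H934R3.NP.TaskM1_helper894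
import Pool.Agent.H934R3.NP.TaskM2_helper87
import Pool.Agent.H108R4.NP.M3
import Pool.Agent.H934R3.NP.M4_helper128
import Pool.Agent.H934R3.NP.M5_helper151
import Pool.Agent.H108R4.NP.M6
import Pool.Agent.H934R3.NP.M7_helper133
import Pool.Agent.H934R3.NP.M8a_helper169
import Pool.Agent.H934R3.NP.M8_helper636
import Pool.Agent.H934R3.NP.M9_helper377
import Pool.Agent.H934R3.NP.M10_helper349
import Pool.Agent.H157R3.NP.TaskM11

set_option autoImplicit false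
open MeasureTheory
open Pool Pool.MP_7c725c_an

namespace Pool.Agent.S05145

/-- For every smooth closed simply connected surface in R^3, the Neumann–Poincaré operator has an eigenvalue other than 1/2 that is at least 1/6, and all its eigenvalues other than 1/2 are at most 1/6 exactly when the surface is a round sphere. -/
theorem result :
    ∀ g : EuclideanSpace ℝ (Fin 3) → ℝ,
      ContDiff ℝ ((⊤ : ℕ∞) : WithTop ℕ∞) g →
      (∀ x, g x = 0 → gradient g x ≠ 0) →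
      (∃ R : ℝ, ∀ x, R ≤ ‖x‖ → 0 < g x) →
      Set.Nonempty {x | g x = 0} →
      SimplyConnectedSpace {x | g x = 0} →
      ∀ σ : Measure (EuclideanSpace ℝ (Fin 3)),
        σ = (ENNReal.ofReal (4 * Real.pi) /
              Measure.hausdorffMeasure 2 (Metric.sphere (0 : EuclideanSpace ℝ (Fin 3)) 1)) •
            (Measure.hausdorffMeasure 2).restrict {x | g x = 0} →
      ∀ P : ℝ → Prop,
        (∀ t : ℝ, P t ↔ ∃ φ : EuclideanSpace ℝ (Fin 3) → ℝ,
            MemLp φ 2 σ ∧ ¬ Filter.EventuallyEq (ae σ) φ 0 ∧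
            ∀ᵐ x ∂σ, (1 / (4 * Real.pi)) *
                (∫ y, inner ℝ (x - y) (gradient g x) /
                    (‖gradient g x‖ * ‖x - y‖ ^ 3) * φ y ∂σ) = t * φ x) →
        (∃ t : ℝ, P t ∧ t ≠ 1 / 2 ∧ 1 / 6 ≤ t) ∧
        ((∀ t : ℝ, P t → t ≠ 1 / 2 → t ≤ 1 / 6) ↔
          ∃ c : EuclideanSpace ℝ (Fin 3), ∃ r : ℝ, 0 < r ∧ {x | g x = 0} = Metric.sphere c r) := by
  exact Pool.Agent.H934R3.NP.assembly Pool.Agent.H784R3.NPA1.t Pool.Agent.H182R3.NPA2.t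
    Pool.Agent.H989R3.NPA.taskA3 Pool.Agent.H606NP.t Pool.Agent.H676R4.NPB1.taskB1
    Pool.Agent.H941R3.B2.taskB2 Pool.Agent.H242R3.NP.B3.t Pool.Agent.H934R3.NP.B4.t
    Pool.Agent.H934R3.NP.taskC1 Pool.Agent.H77R3.NPC2.t Pool.Agent.H579R3.NPC3.t
    Pool.Agent.H725R3.NPC4.t Pool.Agent.H934R3.NP.D1H110.t Pool.Agent.H934R3.NP.taskD3
    Pool.Agent.H108R4.NP.D4.t Pool.Agent.H108R4.NP.D5.t Pool.Agent.H266R3.NP.taskD6
    Pool.Agent.H934R3.NP.F1.t Pool.Agent.H244R3.NPF2.t Pool.Agent.H884R3.NP.taskF3 Pool.Agent.H653R3.NPF.t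
    Pool.Agent.H934R3.NP.taskH1 Pool.Agent.H472R3.NPH2.taskH2 Pool.Agent.H934R3.NP.taskH3
    Pool.Agent.H934R3.NP.J1.taskJ1 Pool.Agent.H934R3.NP.J2.t Pool.Agent.H934R3.NP.taskM1
    Pool.Agent.H934R3.NP.taskM2 Pool.Agent.H108R4.NP.M3.t Pool.Agent.H934R3.NP.M4H128.t
    Pool.Agent.H934R3.NP.M5h151.t Pool.Agent.H108R4.NP.M6.t Pool.Agent.H934R3.NP.M7.t
    (Pool.Agent.H934R3.NP.M8x.t Pool.Agent.H934R3.NP.M8a.t) Pool.Agent.H934R3.NP.M9H377.taskM9
    Pool.Agent.H934R3.NP.taskM10 Pool.Agent.H157R3.NP.taskM11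

end Pool.Agent.S05145
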