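import Pool.Statements.S05150
import Pool.Agent.H136R3.Final50

set_option autoImplicit false
open Pool Pool.MP_7cb37e_an

namespace Pool.Agent.S05150

/-- The negation of the preceding statement: For compact X in ℂ, if R(X) (uniform closure of rational functions with poles off X) has no nonzero bounded point derivation at any point, then for every closed F ⊆ X and x ∉ F some f in R(X) has f(x)=1 and f=0 on F. -/
theorem result :
    ¬ (∀ (X : Set ℂ), IsCompact X →
      ∀ R : Set C(X, ℂ),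
        R = closure {g : C(X, ℂ) | ∃ p q : Polynomial ℂ,
              (∀ z ∈ X, q.eval z ≠ 0) ∧ ∀ z : X, g z = p.eval (z : ℂ) / q.eval (z : ℂ)} →
        (∀ (x : X) (D : C(X, ℂ) → ℂ),
            (∀ f ∈ R, ∀ g ∈ R, D (f + g) = D f + D g) →
            (∀ c : ℂ, ∀ f ∈ R, D (c • f) = c * D f) →
            (∀ f ∈ R, ∀ g ∈ R, D (f * g) = f x * D g + g x * D f) →
            (∃ C : ℝ, ∀ f ∈ R, ∀ M : ℝ, (∀ z : X, ‖f z‖ ≤ M) → ‖D f‖ ≤ C * M) →
            ∀ f ∈ R, D f = 0) →
        ∀ F : Set X, IsClosed F → ∀ x : X, x ∉ F →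
          ∃ f ∈ R, f x = 1 ∧ ∀ y ∈ F, f y = 0) := by
  intro H
  obtain ⟨X, hX, hbpd, F, hF, x, hx, hno⟩ := Pool.Agent.H136R3.main50
  exact hno (H X hX _ rfl hbpd F hF x hx)

end Pool.Agent.S05150
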