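import Pool.Statements.S05156

set_option autoImplicit false
open Pool Pool.MP_7d5b5f_an

namespace Pool.Agent.S05156

theorem result :
    ¬ (∀ p : ℝ, 1 < p → ∃ C : ℝ, 0 < C ∧
      ∀ (d : ℕ) (k : Fin d) (S T : Finset (Fin d → ℤ)) (f : (Fin d → ℤ) → ℝ),
        ∑ n ∈ T, |∑ m ∈ S,
            ((Real.Gamma (((d : ℝ) + 1) / 2) / Real.pi ^ (((d : ℝ) + 1) / 2)) *
              (((n k - m k : ℤ) : ℝ) /
                (Real.sqrt (∑ i, (((n i - m i : ℤ) : ℝ)) ^ 2)) ^ (d + 1))) * f m| ^ p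
          ≤ C ^ p * ∑ m ∈ S, |f m| ^ p) := by
  intro h
  obtain ⟨C, hC, hb⟩ := h 2 (by norm_num)
  -- pick `n` with `n! / π^(n+1) > C`
  have htend : Filter.Tendsto (fun n : ℕ => (Real.pi) ^ n / (n.factorial : ℝ)) Filter.atTop (nhds 0) :=
    FloorSemiring.tendsto_pow_div_factorial_atTop Real.pi
  have hpi : (0:ℝ) < Real.pi := Real.pi_pos
  have hev : ∀ᶠ n : ℕ in Filter.atTop, (Real.pi) ^ n / (n.factorial : ℝ) < 1 / (C * Real.pi) :=
    htend.eventually (gt_mem_nhds (by positivity))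
  obtain ⟨n, hn⟩ := hev.exists
  have hfac : (0:ℝ) < (n.factorial : ℝ) := by exact_mod_cast n.factorial_pos
  have hbig : C < (n.factorial : ℝ) / Real.pi ^ (n + 1) := by
    rw [lt_div_iff₀ (by positivity)]
    rw [div_lt_div_iff₀ hfac (by positivity)] at hn
    rw [pow_succ]
    linarith
  -- dimension `d = 2 n + 1`
  have hk : 0 < 2 * n + 1 := by omega
  have key := hb (2 * n + 1) ⟨0, hk⟩ {0} {Pi.single ⟨0, hk⟩ 1} (fun _ => 1)
  have hexp : (((2 * n + 1 : ℕ) : ℝ) + 1) / 2 = (n : ℝ) + 1 := by push_cast; ring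
  rw [hexp, Real.Gamma_nat_eq_factorial] at key
  have hpow : Real.pi ^ ((n : ℝ) + 1) = Real.pi ^ (n + 1) := by
    rw [← Real.rpow_natCast]; push_cast; rfl
  rw [hpow] at key
  have hsum : (∑ i : Fin (2 * n + 1),
      ((((Pi.single (⟨0, hk⟩ : Fin (2 * n + 1)) (1:ℤ) : Fin (2 * n + 1) → ℤ) i - (0 : Fin (2 * n + 1) → ℤ) i : ℤ) : ℝ)) ^ 2) = 1 := by
    rw [Finset.sum_eq_single (⟨0, hk⟩ : Fin (2 * n + 1))]
    · simp
    · intro b _ hb'
      rw [Pi.single_eq_of_ne hb']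
      simp
    · simp
  simp only [Finset.sum_singleton] at key
  rw [hsum] at key
  have e1 : (((Pi.single (⟨0, hk⟩ : Fin (2 * n + 1)) (1:ℤ) : Fin (2 * n + 1) → ℤ) ⟨0, hk⟩ - (0 : Fin (2 * n + 1) → ℤ) ⟨0, hk⟩ : ℤ) : ℝ) = 1 := by
    simp
  rw [e1] at key
  simp only [Real.sqrt_one, one_pow, div_one, mul_one, abs_one, Real.one_rpow] at key
  have hpos : (0:ℝ) < (n.factorial : ℝ) / Real.pi ^ (n + 1) := by positivity
  rw [abs_of_pos hpos, Real.rpow_two, Real.rpow_two] at key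
  nlinarith [mul_pos hC hpos]

end Pool.Agent.S05156
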