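import Pool.Statements.S05164
import Pool.Agent.H100R3.Comp3

set_option autoImplicit false
open MeasureTheory
open Pool Pool.MP_7da0cb_an

namespace Pool.Agent.S05164

open Pool.Agent.H100R3.Walsh3 Set

/-- enumeration of the finite sets of natural numbers -/
noncomputable def ee : ℕ ≃ Finset ℕ := (Denumerable.eqv (Finset ℕ)).symm

lemma ww_memLp (A : Finset ℕ) : MemLp (ww A) 2 μ1 :=
  MemLp.of_bound (ww_meas A).aestronglyMeasurable 1
    (ae_of_all _ fun x => by rw [Real.norm_eq_abs, ww_abs])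

noncomputable def phi (n : ℕ) : Lp ℝ 2 μ1 := (ww_memLp (ee n)).toLp _

lemma inner_toLp {f g : ℝ → ℝ} (hf : MemLp f 2 μ1) (hg : MemLp g 2 μ1) :
    inner ℝ (hf.toLp f) (hg.toLp g) = ∫ t, f t * g t ∂μ1 := by
  rw [MeasureTheory.L2.inner_def]
  refine integral_congr_ae ?_
  filter_upwards [hf.coeFn_toLp, hg.coeFn_toLp] with x h1 h2
  rw [h1, h2]
  simp [mul_comm]

lemma phi_orthonormal : Orthonormal ℝ phi := by
  rw [orthonormal_iff_ite]
  intro i j
  unfold phi
  rw [inner_toLp, ww_orth]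
  simp [ee.injective.eq_iff]

/-- a step function -/
noncomputable def gg (t : ℝ) : ℝ :=
  (Ico (0:ℝ) (1/3)).indicator (fun _ => 1) t - (Ico (1/3:ℝ) (2/3)).indicator (fun _ => 1) t

lemma gg_meas : Measurable gg :=
  (measurable_const.indicator measurableSet_Ico).sub (measurable_const.indicator measurableSet_Ico)

lemma gg_bd (t : ℝ) : |gg t| ≤ 1 := by
  unfold gg
  by_cases h1 : t ∈ Ico (0:ℝ) (1/3)
  · have h2 : t ∉ Ico (1/3:ℝ) (2/3) := fun h => by linarith [h.1, h1.2]
    rw [indicator_of_mem h1, indicator_of_notMem h2]; norm_num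
  · rw [indicator_of_notMem h1]
    by_cases h2 : t ∈ Ico (1/3:ℝ) (2/3)
    · rw [indicator_of_mem h2]; norm_num
    · rw [indicator_of_notMem h2]; norm_num

lemma gv_memLp (A : Finset ℕ) : MemLp (fun t => gg t * ww A t) 2 μ1 :=
  MemLp.of_bound (gg_meas.mul (ww_meas A)).aestronglyMeasurable 1
    (ae_of_all _ fun x => by
      rw [Real.norm_eq_abs, abs_mul, ww_abs, mul_one]; exact gg_bd x)

noncomputable def vv (A : Finset ℕ) : Lp ℝ 2 μ1 := (gv_memLp A).toLp _

lemma ww_integrableOn (A : Finset ℕ) (s : Set ℝ) (hs : volume s ≠ ⊤) : IntegrableOn (ww A) s := by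
  refine Measure.integrableOn_of_bounded (M := 1) hs
    (ww_meas A).aestronglyMeasurable (ae_of_all _ fun x => ?_)
  rw [Real.norm_eq_abs, ww_abs]

lemma int_gg (A : Finset ℕ) : ∫ t, gg t * ww A t ∂μ1 =
    (∫ t in (0:ℝ)..(1/3), ww A t) - ∫ t in (1/3:ℝ)..(2/3), ww A t := by
  have h1 : ∀ t, gg t * ww A t = (Ico (0:ℝ) (1/3)).indicator (ww A) t -
      (Ico (1/3:ℝ) (2/3)).indicator (ww A) t := by
    intro t
    unfold gg
    rw [sub_mul]
    congr 1 <;> simp only [indicator_apply] <;> split_ifs <;> simp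
  simp only [h1]
  have i1 : Integrable ((Ico (0:ℝ) (1/3)).indicator (ww A)) μ1 :=
    ((integrable_indicator_iff measurableSet_Ico).2
      (ww_integrableOn A _ (by simp))).restrict
  have i2 : Integrable ((Ico (1/3:ℝ) (2/3)).indicator (ww A)) μ1 :=
    ((integrable_indicator_iff measurableSet_Ico).2
      (ww_integrableOn A _ (by simp))).restrict
  rw [integral_sub i1 i2, setIntegral_indicator measurableSet_Ico,
    setIntegral_indicator measurableSet_Ico,
    inter_eq_self_of_subset_right (s := Icc (0:ℝ) 1) (t := Ico 0 (1/3))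
      (fun x hx => ⟨hx.1, by linarith [hx.2]⟩),
    inter_eq_self_of_subset_right (s := Icc (0:ℝ) 1) (t := Ico (1/3) (2/3))
      (fun x hx => ⟨by linarith [hx.1], by linarith [hx.2]⟩),
    integral_Ico_eq_integral_Ioc, integral_Ico_eq_integral_Ioc,
    ← intervalIntegral.integral_of_le (by norm_num),
    ← intervalIntegral.integral_of_le (by norm_num)]

lemma int_gg_sq (A : Finset ℕ) : ∫ t, gg t * gg t * ww A t ∂μ1 =
    (∫ t in (0:ℝ)..(1/3), ww A t) + ∫ t in (1/3:ℝ)..(2/3), ww A t := by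
  have h1 : ∀ t, gg t * gg t * ww A t = (Ico (0:ℝ) (1/3)).indicator (ww A) t +
      (Ico (1/3:ℝ) (2/3)).indicator (ww A) t := by
    intro t
    unfold gg
    by_cases h1 : t ∈ Ico (0:ℝ) (1/3)
    · have h2 : t ∉ Ico (1/3:ℝ) (2/3) := fun h => by linarith [h.1, h1.2]
      rw [indicator_of_mem h1, indicator_of_notMem h2, indicator_of_mem h1,
        indicator_of_notMem h2]; ring
    · by_cases h2 : t ∈ Ico (1/3:ℝ) (2/3)
      · rw [indicator_of_notMem h1, indicator_of_mem h2, indicator_of_notMem h1,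
          indicator_of_mem h2]; ring
      · rw [indicator_of_notMem h1, indicator_of_notMem h2, indicator_of_notMem h1,
          indicator_of_notMem h2]; ring
  simp only [h1]
  have i1 : Integrable ((Ico (0:ℝ) (1/3)).indicator (ww A)) μ1 :=
    ((integrable_indicator_iff measurableSet_Ico).2
      (ww_integrableOn A _ (by simp))).restrict
  have i2 : Integrable ((Ico (1/3:ℝ) (2/3)).indicator (ww A)) μ1 :=
    ((integrable_indicator_iff measurableSet_Ico).2
      (ww_integrableOn A _ (by simp))).restrict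
  rw [integral_add i1 i2, setIntegral_indicator measurableSet_Ico,
    setIntegral_indicator measurableSet_Ico,
    inter_eq_self_of_subset_right (s := Icc (0:ℝ) 1) (t := Ico 0 (1/3))
      (fun x hx => ⟨hx.1, by linarith [hx.2]⟩),
    inter_eq_self_of_subset_right (s := Icc (0:ℝ) 1) (t := Ico (1/3) (2/3))
      (fun x hx => ⟨by linarith [hx.1], by linarith [hx.2]⟩),
    integral_Ico_eq_integral_Ioc, integral_Ico_eq_integral_Ioc,
    ← intervalIntegral.integral_of_le (by norm_num),
    ← intervalIntegral.integral_of_le (by norm_num)]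

lemma third_ints (A : Finset ℕ) : (∫ t in (0:ℝ)..(1/3), ww A t) = (if A = ∅ then 1/3 else 0) ∧
    (∫ t in (1/3:ℝ)..(2/3), ww A t) = (if A = ∅ then 1/3 else 0) := by
  split_ifs with h
  · subst h
    simp only [ww_empty]
    constructor <;> norm_num
  · have h1 := ww_int_period A (Finset.nonempty_iff_ne_empty.2 h) 0
    have h2 := ww_int_period A (Finset.nonempty_iff_ne_empty.2 h) (1/3)
    have e1 : (0:ℝ) + 1/3 = 1/3 := by norm_num
    have e2 : (1:ℝ)/3 + 1/3 = 2/3 := by norm_num
    rw [e1] at h1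
    rw [e2] at h2
    exact ⟨h1, h2⟩

lemma vv_phi (A : Finset ℕ) (n : ℕ) : inner ℝ (phi n) (vv A) = 0 := by
  unfold phi vv
  rw [inner_toLp]
  have : ∀ t, ww (ee n) t * (gg t * ww A t) = gg t * ww (symmDiff (ee n) A) t := by
    intro t; rw [← ww_mul]; ring
  simp only [this]
  rw [int_gg, (third_ints _).1, (third_ints _).2, sub_self]

lemma vv_vv (A B : Finset ℕ) : inner ℝ (vv A) (vv B) = if A = B then (2/3 : ℝ) else 0 := by
  unfold vv
  rw [inner_toLp]
  have : ∀ t, gg t * ww A t * (gg t * ww B t) = gg t * gg t * ww (symmDiff A B) t := by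
    intro t; rw [← ww_mul]; ring
  simp only [this]
  rw [int_gg_sq, (third_ints _).1, (third_ints _).2]
  have : symmDiff A B = ∅ ↔ A = B := by
    rw [← Finset.bot_eq_empty, symmDiff_eq_bot]
  simp only [this]
  split_ifs <;> norm_num

lemma vv_mem (A : Finset ℕ) : vv A ∈ (Submodule.span ℝ (Set.range phi))ᗮ := by
  rw [Submodule.mem_orthogonal]
  intro u hu
  induction hu using Submodule.span_induction with
  | mem x hx =>
    obtain ⟨n, rfl⟩ := hx
    exact vv_phi A n
  | zero => simp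
  | add x y _ _ h1 h2 => rw [inner_add_left, h1, h2, add_zero]
  | smul a x _ h => rw [inner_smul_left, h, mul_zero]

lemma not_fd : ¬ FiniteDimensional ℝ (Submodule.orthogonal (Submodule.span ℝ (Set.range phi))) := by
  intro hfd
  have hli : LinearIndependent ℝ vv := by
    refine linearIndependent_of_ne_zero_of_inner_eq_zero (fun A h => ?_) (fun A B hAB => ?_)
    · have := vv_vv A A
      rw [h] at this
      simp at this
      norm_num at this
    · show inner ℝ (vv A) (vv B) = 0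
      rw [vv_vv, if_neg hAB]
  have hli' : LinearIndependent ℝ
      (fun A => (⟨vv A, vv_mem A⟩ : (Submodule.span ℝ (Set.range phi))ᗮ)) := by
    refine LinearIndependent.of_comp ((Submodule.span ℝ (Set.range phi))ᗮ).subtype ?_
    exact hli
  exact Module.Finite.not_linearIndependent_of_infinite _ hli'

/-- The negation of the preceding statement: Every orthonormal sequence in real L²[0,1] with all functions bounded by M a.e. and infinite-dimensional orthogonal complement can be extended by a sequence of functions also bounded by M a.e. to a complete orthonormal system. -/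
theorem result :
    ¬ (∀ (M : ℝ) (φ : ℕ → MeasureTheory.Lp ℝ 2 (volume.restrict (Set.Icc (0:ℝ) 1))),
      Orthonormal ℝ φ →
      (∀ n, ∀ᵐ x ∂(volume.restrict (Set.Icc (0:ℝ) 1)), |(φ n : ℝ → ℝ) x| ≤ M) →
      ¬ FiniteDimensional ℝ (Submodule.orthogonal (Submodule.span ℝ (Set.range φ))) →
      ∃ ψ : ℕ → MeasureTheory.Lp ℝ 2 (volume.restrict (Set.Icc (0:ℝ) 1)),
        (∀ k, ∀ᵐ x ∂(volume.restrict (Set.Icc (0:ℝ) 1)), |(ψ k : ℝ → ℝ) x| ≤ M) ∧
        Orthonormal ℝ (Sum.elim φ ψ) ∧
        (Submodule.span ℝ (Set.range (Sum.elim φ ψ))).topologicalClosure = ⊤) := by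
  intro H
  obtain ⟨ψ, hb, ho, -⟩ := H 1 phi phi_orthonormal (fun n => by
    filter_upwards [(ww_memLp (ee n)).coeFn_toLp] with x hx
    unfold phi
    rw [hx, ww_abs]) not_fd
  have hm : MemLp (ψ 0 : ℝ → ℝ) 2 μ1 := Lp.memLp (ψ 0)
  have hself : hm.toLp _ = ψ 0 := Lp.toLp_coeFn (ψ 0) hm
  have hnorm : inner ℝ (ψ 0) (ψ 0) = (1:ℝ) := by
    have := orthonormal_iff_ite.1 ho (Sum.inr 0) (Sum.inr 0)
    simpa using this
  have hint : ∫ t, (ψ 0 : ℝ → ℝ) t * (ψ 0 : ℝ → ℝ) t ∂μ1 = 1 := by
    rw [← inner_toLp hm hm, hself, hnorm]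
  have hi : Integrable (ψ 0 : ℝ → ℝ) μ1 := hm.integrable (by norm_num)
  have hi2 : Integrable (fun t => (ψ 0 : ℝ → ℝ) t * (ψ 0 : ℝ → ℝ) t) μ1 := by
    have := hm.integrable_sq
    simpa only [sq] using this
  have hsq : ∀ᵐ x ∂μ1, (ψ 0 : ℝ → ℝ) x ^ 2 = 1 := by
    have h1 : 0 ≤ᵐ[μ1] fun t => 1 - (ψ 0 : ℝ → ℝ) t * (ψ 0 : ℝ → ℝ) t := by
      filter_upwards [hb 0] with x hx
      have := abs_le.1 hx
      simp only [Pi.zero_apply]
      nlinarith
    have h2 : ∫ t, (1 - (ψ 0 : ℝ → ℝ) t * (ψ 0 : ℝ → ℝ) t) ∂μ1 = 0 := by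
      rw [integral_sub (integrable_const _) hi2, hint]
      simp
    have h3 := (integral_eq_zero_iff_of_nonneg_ae h1 ((integrable_const _).sub hi2)).1 h2
    filter_upwards [h3] with x hx
    simp only [Pi.zero_apply] at hx
    nlinarith
  refine core (ψ 0 : ℝ → ℝ) hi hsq fun A => ?_
  have h4 := orthonormal_iff_ite.1 ho (Sum.inl (ee.symm A)) (Sum.inr 0)
  simp only [Sum.elim_inl, Sum.elim_inr, reduceCtorEq, if_false] at h4
  rw [← hself] at h4
  unfold phi at h4
  rw [inner_toLp] at h4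
  simpa using h4

end Pool.Agent.S05164
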