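import Pool.Statements.S05168
import Pool.Agent.H283R3.Obs7

set_option autoImplicit false
open MeasureTheory
open Pool Pool.MP_7dd24e_an

namespace Pool.Agent.S05168

/-- The negation of the preceding statement: If two nested topological spheres in R^3 bound a shell whose Newtonian potential is constant in the inner cavity, then the two surfaces are the images of concentric spheres of radii 1 and k<1 under one invertible affine map. -/
theorem result :
    ¬ (∀ (S S₁ U T₁ : Set (EuclideanSpace ℝ (Fin 3))),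
    Nonempty (S ≃ₜ Metric.sphere (0 : EuclideanSpace ℝ (Fin 3)) 1) →
    Nonempty (S₁ ≃ₜ Metric.sphere (0 : EuclideanSpace ℝ (Fin 3)) 1) →
    IsOpen U → IsConnected U → Bornology.IsBounded U → frontier U = S →
    IsOpen T₁ → IsConnected T₁ → Bornology.IsBounded T₁ → frontier T₁ = S₁ →
    closure T₁ ⊆ U →
    (∃ c : ℝ, ∀ P ∈ T₁, ∫ M in U \ closure T₁, (dist P M)⁻¹ = c) →
    ∃ (f : EuclideanSpace ℝ (Fin 3) ≃ᵃ[ℝ] EuclideanSpace ℝ (Fin 3)) (k : ℝ),
      0 < k ∧ k < 1 ∧
      S = f '' Metric.sphere (0 : EuclideanSpace ℝ (Fin 3)) 1 ∧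
      S₁ = f '' Metric.sphere (0 : EuclideanSpace ℝ (Fin 3)) k) := by
  intro H
  obtain ⟨τ, h⟩ := Pool.Agent.H283R3.Obs.exists_sol Pool.Agent.H283R3.Obs.c0_pos
  have hU := Pool.Agent.H283R3.Obs.star_Dm
  have hT := h.star_int
  have hcl := h.closure_int
  obtain ⟨f, k, -, -, hf, -⟩ := H (frontier Pool.Agent.H283R3.Obs.Dm)
    (frontier (interior (Pool.Agent.H283R3.Obs.K τ Pool.Agent.H283R3.Obs.c0)))
    Pool.Agent.H283R3.Obs.Dm (interior (Pool.Agent.H283R3.Obs.K τ Pool.Agent.H283R3.Obs.c0))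
    hU.homeo hT.homeo hU.isOpen hU.connected hU.bdd rfl hT.isOpen hT.connected hT.bdd rfl
    (by rw [hcl]; exact h.K_sub) ⟨Pool.Agent.H283R3.Obs.c0, fun P hP => h.potential hP⟩
  exact Pool.Agent.H283R3.Obs.not_affine f hf

end Pool.Agent.S05168
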