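import Pool.Statements.S05182
import Pool.Agent.H451R3.WRDGroup

set_option autoImplicit false
open scoped InnerProductSpace
open Pool Pool.MP_7e3bdd_an

namespace Pool.Agent.S05182

/-- The negation of the preceding statement: For every irreducible inclusion N ⊆ M of factors on a separable Hilbert space and every x in M, some scalar multiple of the identity lies in the weak-operator closure of the convex hull of the unitary conjugates u x u* with u unitary in N. -/
theorem result :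
    ¬ (∀ (H : Type) [NormedAddCommGroup H] [InnerProductSpace ℂ H] [CompleteSpace H]
      [TopologicalSpace.SeparableSpace H] (N M : VonNeumannAlgebra H),
      (∀ a ∈ N, a ∈ M) →
      (∀ z ∈ M, (∀ y ∈ M, z * y = y * z) → ∃ c : ℂ, z = c • (1 : H →L[ℂ] H)) →
      (∀ z ∈ N, (∀ y ∈ N, z * y = y * z) → ∃ c : ℂ, z = c • (1 : H →L[ℂ] H)) →
      (∀ z ∈ M, (∀ y ∈ N, z * y = y * z) → ∃ c : ℂ, z = c • (1 : H →L[ℂ] H)) →
      ∀ x ∈ M, ∃ c : ℂ, ∀ (n : ℕ) (ξ η : Fin n → H) (ε : ℝ), 0 < ε →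
        ∃ y ∈ convexHull ℝ
            {T : H →L[ℂ] H | ∃ u ∈ unitary (H →L[ℂ] H), u ∈ N ∧ T = u * x * star u},
          ∀ i : Fin n, ‖⟪η i, (y - c • (1 : H →L[ℂ] H)) (ξ i)⟫_ℂ‖ < ε) := by
  classical
  have hlift : ∀ (g : Pool.Agent.H451R3.WRD.Gam) (q : Pool.Agent.H451R3.WRD.Q),
      (if g * Pool.Agent.H451R3.WRD.lift q ∈ Pool.Agent.H451R3.WRD.EE then (1 : ℝ) else 0) =
      if Pool.Agent.H451R3.WRD.Dd ((q⁻¹ : Pool.Agent.H451R3.WRD.Q).1.mulVec
        ((g.1.1⁻¹ : Pool.Agent.H451R3.WRD.Q).1.mulVec Pool.Agent.H451R3.WRD.pp)) then 1 else 0 :=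
    fun g q => if_congr (Pool.Agent.H451R3.WRD.mul_lift g q) rfl rfl
  refine Pool.Agent.H451R3.WRD.negation Pool.Agent.H451R3.WRD.Lam Pool.Agent.H451R3.WRD.icc
    Pool.Agent.H451R3.WRD.EE Pool.Agent.H451R3.WRD.EE_inv (4 + 8)
    (fun i => Pool.Agent.H451R3.WRD.lift
      (Fin.append Pool.Agent.H451R3.WRD.vA Pool.Agent.H451R3.WRD.vB i))
    (Fin.append (fun _ : Fin 4 => (2 : ℝ)) (fun _ : Fin 8 => (-1 : ℝ))) ?_ ?_
  · rw [Fin.sum_univ_add]
    simp only [Fin.append_left, Fin.append_right, Finset.sum_const, Finset.card_univ,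
      Fintype.card_fin]
    norm_num
  · intro g
    rw [Fin.sum_univ_add]
    simp only [Fin.append_left, Fin.append_right]
    rw [← Finset.mul_sum, ← Finset.mul_sum, Finset.sum_congr rfl fun i _ => hlift g _,
      Finset.sum_congr rfl fun i _ => hlift g _]
    have h1 := Pool.Agent.H451R3.WRD.count
      ((g.1.1⁻¹ : Pool.Agent.H451R3.WRD.Q).1.mulVec Pool.Agent.H451R3.WRD.pp) (by
        intro h0
        have h2 : (g.1.1 : Pool.Agent.H451R3.WRD.Q).1.mulVec
            ((g.1.1⁻¹ : Pool.Agent.H451R3.WRD.Q).1.mulVec Pool.Agent.H451R3.WRD.pp) =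
            Pool.Agent.H451R3.WRD.pp := by
          rw [Matrix.mulVec_mulVec]
          have h3 : (g.1.1 : Pool.Agent.H451R3.WRD.Q).1 * (g.1.1⁻¹ : Pool.Agent.H451R3.WRD.Q).1 =
              ((g.1.1 * g.1.1⁻¹ : Pool.Agent.H451R3.WRD.Q)).1 := rfl
          rw [h3, mul_inv_cancel]
          exact Matrix.one_mulVec _
        rw [h0, Matrix.mulVec_zero] at h2
        have h4 := congrFun h2 1
        exact zero_ne_one h4)
    linarith

end Pool.Agent.S05182
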