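import Pool.Statements.S05193
import Pool.Agent.H383R3.BallFac

set_option autoImplicit false
open MeasureTheory
open Pool Pool.MP_7ebef4_an

namespace Pool.Agent.S05193

/-- For every n>1, every holomorphic f in the Hardy space H^1 of the unit ball of C^n is, on the ball, a finite sum of products g_i h_i of functions in H^2 of the ball (sphere means taken via the normalized cone measure). -/
theorem result :
    ∀ (n : ℕ), 1 < n →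
    ∀ f : (Fin n → ℂ) → ℂ,
      DifferentiableOn ℂ f {z : Fin n → ℂ | ∑ i, ‖z i‖ ^ 2 < 1} →
      (⨆ r ∈ Set.Ioo (0 : ℝ) 1,
          ∫⁻ z in {z : Fin n → ℂ | ∑ i, ‖z i‖ ^ 2 < 1},
            ‖f ((r / Real.sqrt (∑ i, ‖z i‖ ^ 2)) • z)‖ₑ) < ⊤ →
      ∃ (N : ℕ) (g h : Fin N → (Fin n → ℂ) → ℂ),
        (∀ i, DifferentiableOn ℂ (g i) {z : Fin n → ℂ | ∑ j, ‖z j‖ ^ 2 < 1} ∧
              (⨆ r ∈ Set.Ioo (0 : ℝ) 1,
                  ∫⁻ z in {z : Fin n → ℂ | ∑ j, ‖z j‖ ^ 2 < 1},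
                    ‖g i ((r / Real.sqrt (∑ j, ‖z j‖ ^ 2)) • z)‖ₑ ^ (2 : ℕ)) < ⊤ ∧
              DifferentiableOn ℂ (h i) {z : Fin n → ℂ | ∑ j, ‖z j‖ ^ 2 < 1} ∧
              (⨆ r ∈ Set.Ioo (0 : ℝ) 1,
                  ∫⁻ z in {z : Fin n → ℂ | ∑ j, ‖z j‖ ^ 2 < 1},
                    ‖h i ((r / Real.sqrt (∑ j, ‖z j‖ ^ 2)) • z)‖ₑ ^ (2 : ℕ)) < ⊤) ∧
        ∀ z ∈ {z : Fin n → ℂ | ∑ j, ‖z j‖ ^ 2 < 1}, f z = ∑ i, g i z * h i z := by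
  exact Pool.Agent.H383R3.BallFac.frozen

end Pool.Agent.S05193
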