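import Pool.Statements.S05205
import Pool.Agent.H319R3.WidomA
import Pool.Agent.H319R3.WidomD
import Pool.Agent.H319R3.WidomE

set_option autoImplicit false
open Pool Pool.MP_7f7d18_an

namespace Pool.Agent.S05205

/-- For every compact non-polar K in the reals with equilibrium measure μ, every p ≥ 1, n ≥ 1 and real monic P of degree n: the integral of ∣P∣^p against μ is at least (2^p/√π)·Γ((p+1)/2)/Γ(p/2+1)·cap(K)^(np). -/
theorem result :
    ∀ (K : Set ℝ), IsCompact K → ∀ (D : ℝ), Metric.diam K < D →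
    ∀ (μ : MeasureTheory.Measure ℝ), MeasureTheory.IsProbabilityMeasure μ → μ Kᶜ = 0 →
    (∫⁻ x, ∫⁻ y, (if x = y then (⊤ : ENNReal) else ENNReal.ofReal (Real.log (D / |x - y|))) ∂μ ∂μ) < ⊤ →
    (∀ ν : MeasureTheory.Measure ℝ, MeasureTheory.IsProbabilityMeasure ν → ν Kᶜ = 0 →
      (∫⁻ x, ∫⁻ y, (if x = y then (⊤ : ENNReal) else ENNReal.ofReal (Real.log (D / |x - y|))) ∂μ ∂μ)
        ≤ (∫⁻ x, ∫⁻ y, (if x = y then (⊤ : ENNReal) else ENNReal.ofReal (Real.log (D / |x - y|))) ∂ν ∂ν)) →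
    ∀ p : ℝ, 1 ≤ p → ∀ n : ℕ, 1 ≤ n → ∀ P : Polynomial ℝ, P.Monic → P.natDegree = n →
      (2 : ℝ) ^ p / Real.sqrt Real.pi * Real.Gamma ((p + 1) / 2) / Real.Gamma (p / 2 + 1)
        * (D * Real.exp (-(∫⁻ x, ∫⁻ y, (if x = y then (⊤ : ENNReal) else ENNReal.ofReal (Real.log (D / |x - y|))) ∂μ ∂μ).toReal)) ^ ((n : ℝ) * p)
      ≤ ∫ x, |P.eval x| ^ p ∂μ := by
  intro K hK D hD μ hμ hμK hfin hmin p hp n hn P hP hdeg
  have hDpos : 0 < D := lt_of_le_of_lt Metric.diam_nonneg hD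
  change _ * (D * Real.exp (-(H319R3.Widom.B D μ μ).toReal)) ^ ((n : ℝ) * p) ≤ _
  change H319R3.Widom.B D μ μ < ⊤ at hfin
  have hmin' : ∀ ν : MeasureTheory.Measure ℝ, MeasureTheory.IsProbabilityMeasure ν → ν Kᶜ = 0 →
      H319R3.Widom.B D μ μ ≤ H319R3.Widom.B D ν ν := hmin
  have hmemK : ∀ᵐ x ∂μ, x ∈ K := hμK
  have hG : H319R3.Widom.Good μ (Real.log D - (H319R3.Widom.B D μ μ).toReal) := by
    refine ⟨?_, fun z => H319R3.Widom.log_real hK hD hμK hfin hmin' z⟩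
    obtain ⟨R, hR⟩ := hK.isBounded.subset_closedBall 0
    refine ⟨R, ?_⟩
    filter_upwards [hmemK] with x hx
    have := hR hx
    rwa [mem_closedBall_zero_iff, Real.norm_eq_abs] at this
  obtain ⟨R, hR⟩ := hK.exists_bound_of_continuousOn (f := fun x => P.eval x)
    (Polynomial.continuous P).continuousOn
  have hR' : ∀ᵐ x ∂μ, |P.eval x| ≤ R := by
    filter_upwards [hmemK] with x hx
    exact hR x hx
  have h := H319R3.Widom.moment hG hP (by omega) hR' hp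
  rw [H319R3.Widom.cos_moment hp, hdeg] at h
  refine le_trans (le_of_eq ?_) h
  have e1 : Real.exp ((n : ℝ) * (Real.log D - (H319R3.Widom.B D μ μ).toReal)) =
      (D * Real.exp (-(H319R3.Widom.B D μ μ).toReal)) ^ (n : ℝ) := by
    rw [mul_comm, Real.exp_mul, Real.exp_sub, Real.exp_log hDpos, Real.exp_neg, div_eq_mul_inv]
  set c := D * Real.exp (-(H319R3.Widom.B D μ μ).toReal) with hc
  have hc0 : 0 ≤ c := by positivity
  have hcn : 0 ≤ c ^ (n : ℝ) := Real.rpow_nonneg hc0 _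
  rw [e1, Real.mul_rpow (by norm_num) hcn, ← Real.rpow_mul hc0]
  ring

end Pool.Agent.S05205
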