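import Pool.Statements.S05232
import Pool.Agent.H784R3.Lin

set_option autoImplicit false
open Pool Pool.MP_826cdb_an

namespace Pool.Agent.S05232

/-- The negation of the preceding statement: For every real Banach space X and maximally monotone operators A, B from X to its dual with dom A meeting the interior of dom B, the sum operator A+B is maximally monotone. -/
theorem result :
    ¬ (∀ (X : Type) [NormedAddCommGroup X] [NormedSpace ℝ X] [CompleteSpace X]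
      (A B : Set (X × (X →L[ℝ] ℝ))),
      (∀ (x y : X) (a b : X →L[ℝ] ℝ), (x, a) ∈ A → (y, b) ∈ A → 0 ≤ (a - b) (x - y)) →
      (∀ (z : X) (c : X →L[ℝ] ℝ),
          (∀ (x : X) (a : X →L[ℝ] ℝ), (x, a) ∈ A → 0 ≤ (c - a) (z - x)) → (z, c) ∈ A) →
      (∀ (x y : X) (a b : X →L[ℝ] ℝ), (x, a) ∈ B → (y, b) ∈ B → 0 ≤ (a - b) (x - y)) →
      (∀ (z : X) (c : X →L[ℝ] ℝ),
          (∀ (x : X) (a : X →L[ℝ] ℝ), (x, a) ∈ B → 0 ≤ (c - a) (z - x)) → (z, c) ∈ B) →
      ({x : X | ∃ a : X →L[ℝ] ℝ, (x, a) ∈ A} ∩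
          interior {x : X | ∃ b : X →L[ℝ] ℝ, (x, b) ∈ B}).Nonempty →
      (∀ (x y : X) (a b a' b' : X →L[ℝ] ℝ),
          (x, a) ∈ A → (x, b) ∈ B → (y, a') ∈ A → (y, b') ∈ B →
          0 ≤ ((a + b) - (a' + b')) (x - y)) ∧
      (∀ (z : X) (c : X →L[ℝ] ℝ),
          (∀ (x : X) (a b : X →L[ℝ] ℝ), (x, a) ∈ A → (x, b) ∈ B →
              0 ≤ (c - (a + b)) (z - x)) →
          ∃ (a b : X →L[ℝ] ℝ), (z, a) ∈ A ∧ (z, b) ∈ B ∧ c = a + b)) := by
  intro H
  obtain ⟨z, w, hz, h⟩ := H784R3.exists_bad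
  have hH := H H784R3.X1 {p | p.2 ∈ H784R3.B2 p.1} {p | p.2 ∈ H784R3.LS p.1}
    (fun x y a b ha hb => H784R3.B2_mono x y a b ha hb)
    (fun x f hx => H784R3.B2_max x f (fun y g hg => hx y g hg))
    (fun x y a b ha hb => H784R3.LS_mono x y a b ha hb)
    (fun x f hx => H784R3.LS_max x f (fun y g hg => hx y g hg))
    (by
      obtain ⟨x, f, hf, -⟩ := H784R3.B2_exists (z := 2) (by norm_num)
      refine ⟨x, ⟨f, hf⟩, ?_⟩
      have huniv : {x : H784R3.X1 | ∃ b : H784R3.X1 →L[ℝ] ℝ,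
          (x, b) ∈ {p : H784R3.X1 × (H784R3.X1 →L[ℝ] ℝ) | p.2 ∈ H784R3.LS p.1}} = Set.univ := by
        ext x
        refine ⟨fun _ => trivial, fun _ => ⟨H784R3.LL x, rfl⟩⟩
      rw [huniv, interior_univ]
      trivial)
  obtain ⟨a, b, ha, -, -⟩ := hH.2 z w (fun x a b ha hb => by
    have hb' : b = H784R3.LL x := hb
    subst hb'
    have := h x a ha
    rwa [add_comm a] )
  exact H784R3.B2_empty (by rw [hz]; norm_num) a ha

end Pool.Agent.S05232
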