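import Pool.Statements.S05237
import Pool.Agent.Helper606.Fek.P_final_main
import Pool.Agent.Helper606.Fek.P_phi_psi
import Pool.Agent.H541R3.Fk.Beta
import Pool.Agent.H541R3.Fk.Lim

set_option autoImplicit false
open Pool Pool.MP_82f4f8_an

namespace Pool.Agent.S05237

open Filter in
theorem pairs {n : ℕ} (w : Fin n → ℂ) :
    ∏ p ∈ Finset.univ.filter (fun p : Fin n × Fin n => p.1 < p.2), ‖w p.1 - w p.2‖ =
      ∏ j, ∏ k ∈ Finset.Ioi j, ‖w j - w k‖ := by
  rw [Finset.prod_filter, ← Finset.univ_product_univ, Finset.prod_product]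
  refine Finset.prod_congr rfl fun j _ => ?_
  rw [← Finset.prod_filter]
  refine Finset.prod_congr ?_ fun k _ => rfl
  ext k
  simp

theorem max_scale {a : ℝ} (ha : 0 < a) (z : ℂ) :
    max |((a : ℂ) * z).re| |((a : ℂ) * z).im| = a * max |z.re| |z.im| := by
  rw [Complex.re_ofReal_mul, Complex.im_ofReal_mul, abs_mul, abs_mul, abs_of_pos ha,
    mul_max_of_nonneg _ _ ha.le]


/-- For the capacity-1 square and its exterior conformal map φ fixing infinity, every closed K at positive distance from the square has C with sup over K of the gap between the Fekete potential and U at most C/n, for all n≥2 and all Fekete n-tuples. -/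
theorem result :
    ∀ a : ℝ, a = 2 * Real.pi ^ ((3 : ℝ) / 2) / Real.Gamma (1 / 4 : ℝ) ^ 2 →
    ∀ φ : ℂ → ℂ,
      DifferentiableOn ℂ φ {z : ℂ | a < max |z.re| |z.im|} →
      Set.InjOn φ {z : ℂ | a < max |z.re| |z.im|} →
      φ '' {z : ℂ | a < max |z.re| |z.im|} = {w : ℂ | 1 < ‖w‖} →
      Filter.Tendsto (fun z => ‖φ z‖) (Filter.cocompact ℂ) Filter.atTop →
      ∀ K : Set ℂ, IsClosed K →
        (∃ δ : ℝ, 0 < δ ∧ ∀ x ∈ K, ∀ w : ℂ, max |w.re| |w.im| = a → δ ≤ ‖x - w‖) →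
        ∃ C : ℝ, ∀ n : ℕ, 2 ≤ n → ∀ p : Fin n → ℂ,
          (∀ k, max |(p k).re| |(p k).im| = a) →
          (∀ q : Fin n → ℂ, (∀ k, max |(q k).re| |(q k).im| = a) →
            (∏ j, ∏ k ∈ Finset.Ioi j, ‖q j - q k‖) ≤ ∏ j, ∏ k ∈ Finset.Ioi j, ‖p j - p k‖) →
          ∀ x ∈ K,
            |(1 / (n : ℝ)) * ∑ k, Real.log ‖x - p k‖
              - (if a < max |x.re| |x.im| then Real.log ‖φ x‖ else 0)| ≤ C / n := by
  intro a ha φ hd hi him hT K _ hK
  obtain ⟨δ, hδ, hKδ⟩ := hK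
  have hG : (0 : ℝ) < Real.Gamma (1 / 4) := Real.Gamma_pos_of_pos (by norm_num)
  have ha0 : 0 < a := by rw [ha]; positivity
  have haC : (a : ℂ) ≠ 0 := by exact_mod_cast ha0.ne'
  -- the scaled map
  set φ1 : ℂ → ℂ := fun z => φ ((a : ℂ) * z) with hφ1
  have hmem : ∀ z : ℂ, z ∈ {z : ℂ | 1 < max |z.re| |z.im|} ↔
      (a : ℂ) * z ∈ {z : ℂ | a < max |z.re| |z.im|} := by
    intro z
    show 1 < max |z.re| |z.im| ↔ a < max |((a : ℂ) * z).re| |((a : ℂ) * z).im|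
    rw [max_scale ha0]
    constructor
    · intro h; nlinarith
    · intro h
      by_contra hc
      push Not at hc
      nlinarith
  have hd1 : DifferentiableOn ℂ φ1 {z : ℂ | 1 < max |z.re| |z.im|} :=
    hd.comp (by fun_prop) fun z hz => (hmem z).1 hz
  have hi1 : Set.InjOn φ1 {z : ℂ | 1 < max |z.re| |z.im|} := by
    intro z hz w hw h
    exact mul_left_cancel₀ haC (hi ((hmem z).1 hz) ((hmem w).1 hw) h)
  have him1 : φ1 '' {z : ℂ | 1 < max |z.re| |z.im|} = {w : ℂ | 1 < ‖w‖} := by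
    rw [← him]
    ext w
    constructor
    · rintro ⟨z, hz, rfl⟩
      exact ⟨(a : ℂ) * z, (hmem z).1 hz, rfl⟩
    · rintro ⟨z, hz, rfl⟩
      have e : (a : ℂ) * ((a : ℂ)⁻¹ * z) = z := mul_inv_cancel_left₀ haC z
      refine ⟨(a : ℂ)⁻¹ * z, (hmem _).2 (by rw [e]; exact hz), ?_⟩
      show φ ((a : ℂ) * ((a : ℂ)⁻¹ * z)) = φ z
      rw [e]
  have hsc : Filter.Tendsto (fun z : ℂ => (a : ℂ) * z) (Filter.cocompact ℂ)
      (Filter.cocompact ℂ) := (Homeomorph.mulLeft₀ (a : ℂ) haC).isClosedEmbedding.tendsto_cocompact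
  have hT1 : Filter.Tendsto (fun z => ‖φ1 z‖) (Filter.cocompact ℂ) Filter.atTop := hT.comp hsc
  obtain ⟨c, hc⟩ := Pool.Agent.H541R3.Fk.phi_lim φ1 hd1 hi1 him1 hT1
  have hcA := (Pool.Agent.Helper606.Fek.phi_psi φ1 c hd1 hi1 him1 hc).2
  have hcA' : Pool.Agent.Helper606.Fek.cA = 1 / a := by
    unfold Pool.Agent.Helper606.Fek.cA
    rw [Pool.Agent.H541R3.Fk.sq_int, ha]
  have hca : ‖c‖ = a := by
    rw [hcA'] at hcA
    field_simp at hcA
    exact hcA
  obtain ⟨C, hC⟩ := Pool.Agent.Helper606.Fek.final_main φ1 c hd1 hi1 him1 hc (δ / a)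
    (div_pos hδ ha0)
  refine ⟨C, fun n hn p hp hmax x hx => ?_⟩
  have hn0 : (0 : ℝ) < n := by
    have : 0 < n := by omega
    exact_mod_cast this
  have hinv : ∀ z : ℂ, (a : ℂ) * ((a : ℂ)⁻¹ * z) = z := fun z => mul_inv_cancel_left₀ haC z
  have hms : ∀ z : ℂ, a * max |((a : ℂ)⁻¹ * z).re| |((a : ℂ)⁻¹ * z).im| = max |z.re| |z.im| := by
    intro z
    rw [← max_scale ha0, hinv]
  set z : Fin n → ℂ := fun k => (a : ℂ)⁻¹ * p k with hz
  have hz1 : ∀ k, max |(z k).re| |(z k).im| = 1 := by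
    intro k
    have h1 := hms (p k)
    rw [hp k] at h1
    exact mul_left_cancel₀ ha0.ne' (h1.trans (mul_one a).symm)
  have hscale : ∀ w : Fin n → ℂ,
      ∏ p ∈ Finset.univ.filter (fun p : Fin n × Fin n => p.1 < p.2),
        ‖(a : ℂ) * w p.1 - (a : ℂ) * w p.2‖ =
      a ^ (Finset.univ.filter (fun p : Fin n × Fin n => p.1 < p.2)).card *
      ∏ p ∈ Finset.univ.filter (fun p : Fin n × Fin n => p.1 < p.2), ‖w p.1 - w p.2‖ := by
    intro w
    rw [← Finset.prod_const, ← Finset.prod_mul_distrib]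
    refine Finset.prod_congr rfl fun q _ => ?_
    rw [← mul_sub, norm_mul, Complex.norm_real, Real.norm_of_nonneg ha0.le]
  have hmax1 : ∀ w : Fin n → ℂ, (∀ k, max |(w k).re| |(w k).im| = 1) →
        ∏ p ∈ Finset.univ.filter (fun p : Fin n × Fin n => p.1 < p.2), ‖w p.1 - w p.2‖ ≤
        ∏ p ∈ Finset.univ.filter (fun p : Fin n × Fin n => p.1 < p.2), ‖z p.1 - z p.2‖ := by
    intro w hw
    have h1 := hmax (fun k => (a : ℂ) * w k) fun k => by
      rw [max_scale ha0, hw k, mul_one]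
    rw [← pairs, ← pairs p] at h1
    have h2 : p = fun k => (a : ℂ) * z k := by
      funext k
      exact (hinv (p k)).symm
    rw [h2] at h1
    rw [hscale w, hscale z] at h1
    exact le_of_mul_le_mul_left h1 (by positivity)
  have hdist : δ / a ≤ Metric.infDist ((a : ℂ)⁻¹ * x) {y : ℂ | max |y.re| |y.im| = 1} := by
    rw [Metric.le_infDist ⟨1, by simp⟩]
    intro y hy
    have h1 := hKδ x hx ((a : ℂ) * y) (by
      rw [max_scale ha0, show max |y.re| |y.im| = 1 from hy, mul_one])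
    rw [dist_eq_norm, div_le_iff₀' ha0]
    calc δ ≤ ‖x - (a : ℂ) * y‖ := h1
      _ = ‖(a : ℂ) * ((a : ℂ)⁻¹ * x - y)‖ := by rw [mul_sub, hinv]
      _ = a * ‖(a : ℂ)⁻¹ * x - y‖ := by
        rw [norm_mul, Complex.norm_real, Real.norm_of_nonneg ha0.le]
  obtain ⟨H1, H2⟩ := hC n hn z hz1 hmax1 ((a : ℂ)⁻¹ * x) hdist
  have hsum : (1 / (n : ℝ)) * ∑ k, Real.log ‖x - p k‖ =
      (1 / (n : ℝ)) * ∑ k, Real.log ‖(a : ℂ)⁻¹ * x - z k‖ + Real.log ‖c‖ := by
    have h1 : ∀ k, Real.log ‖x - p k‖ = Real.log a + Real.log ‖(a : ℂ)⁻¹ * x - z k‖ := by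
      intro k
      have h2 : x - p k = (a : ℂ) * ((a : ℂ)⁻¹ * x - z k) := by
        rw [mul_sub, hinv, hz, hinv]
      have h3 : 0 < ‖x - p k‖ := hδ.trans_le (hKδ x hx (p k) (hp k))
      have h4 : ‖(a : ℂ)⁻¹ * x - z k‖ ≠ 0 := by
        intro h5
        rw [h2, norm_mul, h5, mul_zero] at h3
        exact lt_irrefl _ h3
      rw [h2, norm_mul, Complex.norm_real, Real.norm_of_nonneg ha0.le, Real.log_mul ha0.ne' h4]
    simp_rw [h1]
    rw [Finset.sum_add_distrib, Finset.sum_const, Finset.card_univ, Fintype.card_fin, hca,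
      nsmul_eq_mul]
    field_simp
    ring
  rw [hsum]
  rcases lt_trichotomy a (max |x.re| |x.im|) with hlt | heq | hgt
  · rw [if_pos hlt]
    have h1 : 1 < max |((a : ℂ)⁻¹ * x).re| |((a : ℂ)⁻¹ * x).im| :=
      (hmem _).2 (by rw [hinv]; exact hlt)
    have h2 := H1 h1
    have h3 : φ1 ((a : ℂ)⁻¹ * x) = φ x := by
      show φ ((a : ℂ) * ((a : ℂ)⁻¹ * x)) = φ x
      rw [hinv]
    rw [h3] at h2
    convert h2 using 2
    ring
  · exfalso
    have h1 := hKδ x hx x heq.symm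
    rw [sub_self, norm_zero] at h1
    linarith
  · rw [if_neg (not_lt.2 hgt.le), sub_zero]
    refine H2 ?_
    have h1 := hms x
    have h2 : a * max |((a : ℂ)⁻¹ * x).re| |((a : ℂ)⁻¹ * x).im| < a * 1 := by
      rw [h1, mul_one]; exact hgt
    exact lt_of_mul_lt_mul_left h2 ha0.le

end Pool.Agent.S05237
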