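import Pool.Statements.S05247
-- import your own Pool.Agent.* helpers here
import Pool.Agent.H400R3.Roe.Rigid2
import Pool.Agent.H400R3.Roe.Phi

set_option autoImplicit false
open Classical
open Pool Pool.MP_832ffe_an

namespace Pool.Agent.S05247

open Pool.Agent.H400R3.Roe in
theorem fp_iff {N : ℕ → ℕ} {H : ℕ → ℕ → ℕ} [MetricSpace (Pt N H)]
    (hdist : ∀ x y : Pt N H, dist x y = (D t x y : ℝ))
    (T : lp (fun _ : Pt N H => ℂ) 2 →L[ℂ] lp (fun _ : Pt N H => ℂ) 2) :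
    (∃ r : ℝ, ∀ x x' : Pt N H, r < dist x x' → (T (lp.single 2 x (1 : ℂ))) x' = 0) ↔ FP T := by
  constructor
  · rintro ⟨r, hr⟩
    refine ⟨⌈r⌉₊, fun x x' h => hr x x' ?_⟩
    rw [hdist]
    exact lt_of_le_of_lt (Nat.le_ceil r) (by exact_mod_cast h)
  · rintro ⟨r, hr⟩
    refine ⟨r, fun x x' h => hr x x' ?_⟩
    rw [hdist] at h
    exact_mod_cast h

open Pool.Agent.H400R3.Roe in
theorem ulf' {N : ℕ → ℕ} {H : ℕ → ℕ → ℕ} [MetricSpace (Pt N H)]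
    (hdist : ∀ x y : Pt N H, dist x y = (D t x y : ℝ)) (r : ℝ) :
    ∃ M : ℕ, ∀ x : Pt N H, (Metric.closedBall x r).Finite ∧ (Metric.closedBall x r).ncard ≤ M := by
  refine ⟨(4 * ⌈r⌉₊ + 1) * (3 * ⌈r⌉₊ + 2) + (⌈r⌉₊ + 1) * ((4 * ⌈r⌉₊ + 1) * (⌈r⌉₊ + 1)),
    fun x => ?_⟩
  have hsub : Metric.closedBall x r ⊆ {q : Pt N H | D t x q ≤ ⌈r⌉₊} := by
    intro q hq
    rw [Metric.mem_closedBall, dist_comm, hdist] at hq
    have h2 : (D t x q : ℝ) ≤ ⌈r⌉₊ := hq.trans (Nat.le_ceil r)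
    exact_mod_cast h2
  obtain ⟨h1, h2⟩ := ulf (N := N) (H := H) (Θ := t) le_t ⌈r⌉₊ x
  exact ⟨h1.subset hsub, (Set.ncard_le_ncard hsub h1).trans h2⟩

/-- There exist uniformly locally finite metric spaces X, Y with an injective, compact-preserving ⋆-homomorphism from the uniform Roe algebra of X into that of Y, but no bornologous map X→Y whose fibres are uniformly bounded in size. -/
theorem result :
  ∃ (X Y : Type) (_ : MetricSpace X) (_ : MetricSpace Y),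
    (∀ r : ℝ, ∃ N : ℕ, ∀ x : X,
        (Metric.closedBall x r).Finite ∧ (Metric.closedBall x r).ncard ≤ N) ∧
    (∀ r : ℝ, ∃ N : ℕ, ∀ y : Y,
        (Metric.closedBall y r).Finite ∧ (Metric.closedBall y r).ncard ≤ N) ∧
    (∃ Φ : (lp (fun _ : X => ℂ) 2 →L[ℂ] lp (fun _ : X => ℂ) 2) →
        (lp (fun _ : Y => ℂ) 2 →L[ℂ] lp (fun _ : Y => ℂ) 2),
      (∀ a ∈ closure {T : lp (fun _ : X => ℂ) 2 →L[ℂ] lp (fun _ : X => ℂ) 2 |
              ∃ r : ℝ, ∀ x x' : X, r < dist x x' → (T (lp.single 2 x (1 : ℂ))) x' = 0},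
        ∀ b ∈ closure {T : lp (fun _ : X => ℂ) 2 →L[ℂ] lp (fun _ : X => ℂ) 2 |
              ∃ r : ℝ, ∀ x x' : X, r < dist x x' → (T (lp.single 2 x (1 : ℂ))) x' = 0},
        ∀ c : ℂ,
          Φ (a + b) = Φ a + Φ b ∧ Φ (c • a) = c • Φ a ∧
          Φ (a * b) = Φ a * Φ b ∧ Φ (star a) = star (Φ a)) ∧
      Set.InjOn Φ (closure {T : lp (fun _ : X => ℂ) 2 →L[ℂ] lp (fun _ : X => ℂ) 2 |
              ∃ r : ℝ, ∀ x x' : X, r < dist x x' → (T (lp.single 2 x (1 : ℂ))) x' = 0}) ∧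
      (∀ a ∈ closure {T : lp (fun _ : X => ℂ) 2 →L[ℂ] lp (fun _ : X => ℂ) 2 |
              ∃ r : ℝ, ∀ x x' : X, r < dist x x' → (T (lp.single 2 x (1 : ℂ))) x' = 0},
        Φ a ∈ closure {S : lp (fun _ : Y => ℂ) 2 →L[ℂ] lp (fun _ : Y => ℂ) 2 |
              ∃ r : ℝ, ∀ y y' : Y, r < dist y y' → (S (lp.single 2 y (1 : ℂ))) y' = 0}) ∧
      (∀ a ∈ closure {T : lp (fun _ : X => ℂ) 2 →L[ℂ] lp (fun _ : X => ℂ) 2 |
              ∃ r : ℝ, ∀ x x' : X, r < dist x x' → (T (lp.single 2 x (1 : ℂ))) x' = 0},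
        IsCompactOperator a → IsCompactOperator (Φ a))) ∧
    ¬ ∃ f : X → Y,
        (∀ r : ℝ, ∃ s : ℝ, ∀ x x' : X, dist x x' ≤ r → dist (f x) (f x') ≤ s) ∧
        (∃ N : ℕ, ∀ y : Y, (f ⁻¹' {y}).Finite ∧ (f ⁻¹' {y}).ncard ≤ N) := by
  letI iX : MetricSpace Pool.Agent.H400R3.Roe.XX :=
    Pool.Agent.H400R3.Roe.metric _ _ _ Pool.Agent.H400R3.Roe.le_t
  letI iY : MetricSpace Pool.Agent.H400R3.Roe.YY :=
    Pool.Agent.H400R3.Roe.metric _ _ _ Pool.Agent.H400R3.Roe.le_t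
  have dX : ∀ x y : Pool.Agent.H400R3.Roe.XX,
      dist x y = (Pool.Agent.H400R3.Roe.D Pool.Agent.H400R3.Roe.t x y : ℝ) := fun x y => rfl
  have dY : ∀ x y : Pool.Agent.H400R3.Roe.YY,
      dist x y = (Pool.Agent.H400R3.Roe.D Pool.Agent.H400R3.Roe.t x y : ℝ) := fun x y => rfl
  obtain ⟨Φ, hadd, hsmul, hmul, hstar, hinj, -, hcont, hcomp, happ⟩ :=
    Pool.Agent.H400R3.Roe.main
  refine ⟨Pool.Agent.H400R3.Roe.XX, Pool.Agent.H400R3.Roe.YY, iX, iY, ulf' dX, ulf' dY,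
    ⟨Φ, ?_, hinj.injOn, ?_, fun a _ ha => hcomp a ha⟩, ?_⟩
  · intro a _ b _ c
    exact ⟨hadd a b, hsmul c a, hmul a b, hstar a⟩
  · intro a ha
    rw [← closure_closure]
    refine map_mem_closure hcont ha ?_
    intro T hT
    rw [Metric.mem_closure_iff]
    intro ε hε
    obtain ⟨S, hS1, hS2⟩ := happ T ((fp_iff dX T).1 hT) ε hε
    exact ⟨S, (fp_iff dY S).2 hS1, by rw [dist_eq_norm]; exact hS2⟩
  · rintro ⟨f, hf, M, hM⟩
    obtain ⟨s, hs⟩ := hf 1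
    refine Pool.Agent.H400R3.Roe.no_map f ⌈s⌉₊ ?_ hM
    intro x x' h
    have h1 := hs x x' (by rw [dX]; exact_mod_cast h)
    rw [dY] at h1
    have h2 := h1.trans (Nat.le_ceil s)
    exact_mod_cast h2

end Pool.Agent.S05247
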