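import Pool.Statements.S05295
import Pool.Agent.H258R3.Slow

set_option autoImplicit false
open Pool Pool.MP_88e1ca_an

namespace Pool.Agent.S05295

/-- There is a one-sided subshift over a finite alphabet and an automorphism (shift-commuting bijective block map) whose iterates fⁿ have radii that are unbounded yet eventually at most εn for every ε>0. -/
theorem result :
    ∃ (k : ℕ) (X : Set (ℕ → Fin k)) (f : (ℕ → Fin k) → (ℕ → Fin k)),
      (∀ x : ℕ → Fin k, (∀ m : ℕ, ∃ y ∈ X, ∀ i < m, y i = x i) → x ∈ X) ∧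
      (∀ x ∈ X, (fun i => x (i + 1)) ∈ X) ∧
      Set.MapsTo f X X ∧ Set.InjOn f X ∧ Set.SurjOn f X X ∧
      (∀ x ∈ X, f (fun i => x (i + 1)) = fun i => f x (i + 1)) ∧
      (∃ r : ℕ, ∀ x ∈ X, ∀ y ∈ X, (∀ i ≤ r, x i = y i) → f x 0 = f y 0) ∧
      (∀ R : ℕ, ∃ n : ℕ, ∃ x ∈ X, ∃ y ∈ X,
        (∀ i ≤ R, x i = y i) ∧ f^[n] x 0 ≠ f^[n] y 0) ∧
      (∀ ε : ℝ, 0 < ε → ∃ N : ℕ, ∀ n ≥ N, ∃ r : ℕ, (r : ℝ) ≤ ε * n ∧
        ∀ x ∈ X, ∀ y ∈ X, (∀ i ≤ r, x i = y i) → f^[n] x 0 = f^[n] y 0) := by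
  classical
  let e : H258R3.Slow.Q ≃ Fin (Fintype.card H258R3.Slow.Q) := Fintype.equivFin _
  let dec : (ℕ → Fin (Fintype.card H258R3.Slow.Q)) → (ℕ → H258R3.Slow.Q) := fun x i => e.symm (x i)
  let enc : (ℕ → H258R3.Slow.Q) → (ℕ → Fin (Fintype.card H258R3.Slow.Q)) := fun x i => e (x i)
  have de : ∀ x, dec (enc x) = x := fun x => by funext i; simp [dec, enc]
  have ed : ∀ x, enc (dec x) = x := fun x => by funext i; simp [dec, enc]
  let f' : (ℕ → Fin (Fintype.card H258R3.Slow.Q)) → (ℕ → Fin (Fintype.card H258R3.Slow.Q)) :=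
    fun x => enc (H258R3.Slow.f (dec x))
  have iter : ∀ n x, f'^[n] x = enc (H258R3.Slow.f^[n] (dec x)) := by
    intro n
    induction n with
    | zero => intro x; exact (ed x).symm
    | succ n ih =>
      intro x
      rw [Function.iterate_succ_apply, Function.iterate_succ_apply, ih]
      simp only [f', de]
  refine ⟨Fintype.card H258R3.Slow.Q, {x | dec x ∈ H258R3.Slow.X}, f', ?_, ?_, ?_, ?_, ?_, ?_, ?_,
    ?_, ?_⟩
  · intro x h
    apply H258R3.Slow.X_closed
    intro m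
    obtain ⟨y, hy, hyx⟩ := h m
    exact ⟨dec y, hy, fun i hi => congrArg e.symm (hyx i hi)⟩
  · intro x hx
    exact H258R3.Slow.X_shift hx 1
  · intro x hx
    show dec (enc (H258R3.Slow.f (dec x))) ∈ H258R3.Slow.X
    rw [de]
    exact H258R3.Slow.f_maps hx
  · intro x hx y hy hxy
    have h1 : H258R3.Slow.f (dec x) = H258R3.Slow.f (dec y) := by
      have := congrArg dec hxy
      simpa only [f', de] using this
    have h2 := congrArg H258R3.Slow.g h1
    rw [H258R3.Slow.g_f (H258R3.Slow.X_alt hx), H258R3.Slow.g_f (H258R3.Slow.X_alt hy)] at h2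
    rw [← ed x, ← ed y, h2]
  · intro y hy
    refine ⟨enc (H258R3.Slow.g (dec y)), ?_, ?_⟩
    · show dec (enc (H258R3.Slow.g (dec y))) ∈ H258R3.Slow.X
      rw [de]
      exact H258R3.Slow.g_maps hy
    · simp only [f', de]
      rw [H258R3.Slow.f_g (H258R3.Slow.X_alt hy), ed]
  · intro x _
    rfl
  · refine ⟨2, fun x _ y _ h => ?_⟩
    have h0 : x 0 = y 0 := h 0 (by omega)
    have h1 : x 1 = y 1 := h 1 (by omega)
    have h2 : x 2 = y 2 := h 2 (by omega)
    simp only [f', enc, dec, H258R3.Slow.f, H258R3.Slow.lift, Nat.zero_add, Nat.reduceAdd, h0, h1, h2]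
  · intro R
    obtain ⟨n, x, hx, y, hy, hxy, hne⟩ := H258R3.Slow.unbounded R
    refine ⟨n, enc x, ?_, enc y, ?_, ?_, ?_⟩
    · show dec (enc x) ∈ H258R3.Slow.X
      rw [de]; exact hx
    · show dec (enc y) ∈ H258R3.Slow.X
      rw [de]; exact hy
    · intro i hi
      exact congrArg e (hxy i hi)
    · rw [iter, iter, de, de]
      intro h
      exact hne (e.injective h)
  · intro ε hε
    obtain ⟨N, hN⟩ := exists_nat_gt (1296 / ε ^ 2)
    refine ⟨N + 1, fun n hn => ?_⟩
    have hn1 : 1 ≤ n := by omega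
    -- the level
    obtain ⟨k, hk1, hk2⟩ : ∃ k, n ≤ 4 ^ k ∧ 4 ^ k ≤ 4 * n := by
      refine ⟨Nat.clog 4 n, Nat.le_pow_clog (by norm_num) n, ?_⟩
      rcases Nat.lt_or_ge 1 n with h | h
      · have h1 := Nat.pow_pred_clog_lt_self (b := 4) (by norm_num) h
        have h2 : 0 < Nat.clog 4 n := Nat.clog_pos (by norm_num) h
        have h3 : 4 ^ Nat.clog 4 n = 4 * 4 ^ (Nat.clog 4 n).pred := by
          rw [← pow_succ']
          congr 1
          exact (Nat.succ_pred_eq_of_pos h2).symm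
        rw [h3]
        omega
      · have : n = 1 := by omega
        subst this
        simp
    refine ⟨H258R3.Slow.rr k, ?_, ?_⟩
    · have h1 := H258R3.Slow.rr_le k
      have h2 : (H258R3.Slow.rr k : ℝ) ≤ 18 * 2 ^ k := by
        have : H258R3.Slow.rr k ≤ 18 * 2 ^ k := by omega
        exact_mod_cast this
      have h3 : ((2 : ℝ) ^ k) ^ 2 = 4 ^ k := by
        rw [← pow_mul, mul_comm, pow_mul]; norm_num
      have h4 : (4 : ℝ) ^ k ≤ 4 * n := by exact_mod_cast hk2
      have h5 : (1296 : ℝ) ≤ ε ^ 2 * n := by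
        have h6 : (N : ℝ) ≤ n := by exact_mod_cast (by omega : N ≤ n)
        have h7 : 1296 / ε ^ 2 < n := lt_of_lt_of_le hN h6
        rw [div_lt_iff₀ (by positivity)] at h7
        linarith
      have h8 : (0 : ℝ) ≤ H258R3.Slow.rr k := Nat.cast_nonneg _
      have h9 : (0 : ℝ) < n := by exact_mod_cast hn1
      have h10 : (0 : ℝ) < 2 ^ k := by positivity
      by_contra hc
      push Not at hc
      have h11 : ε * n < 18 * 2 ^ k := lt_of_lt_of_le hc h2
      have h12 : (ε * n) ^ 2 < (18 * 2 ^ k) ^ 2 := by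
        apply pow_lt_pow_left₀ h11 (by positivity) (by norm_num)
      have h13 : (18 * (2 : ℝ) ^ k) ^ 2 = 324 * 4 ^ k := by rw [mul_pow, h3]; norm_num
      rw [h13] at h12
      nlinarith
    · intro x hx y hy h
      rw [iter, iter]
      exact congrArg e (H258R3.Slow.radius_X k n hk1 hx hy (fun i hi => congrArg e.symm (h i hi)))

end Pool.Agent.S05295
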