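import Pool.Statements.S05316
import Pool.Agent.H786R3.SG4

set_option autoImplicit false
open Pool Pool.MP_8a8b2f_an

namespace Pool.Agent.S05316

/-- The negation of the preceding statement: Take a strongly continuous contraction semigroup on a complex Hilbert space with generator A, and some m>0 with ‖(μ−A)x‖ ≥ m∣Re μ∣‖x‖ for all x in D(A) and Re μ<0. Then some m₁>0 gives ‖T(t)x‖ ≥ m₁‖x‖ for all t≥0 and all x. -/
theorem result :
    ¬ (∀ (H : Type) [NormedAddCommGroup H] [InnerProductSpace ℂ H] [CompleteSpace H]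
      (T : ℝ → H →L[ℂ] H),
      T 0 = ContinuousLinearMap.id ℂ H →
      (∀ s t : ℝ, 0 ≤ s → 0 ≤ t → T (s + t) = (T s).comp (T t)) →
      (∀ x : H, ContinuousOn (fun t : ℝ => T t x) (Set.Ici 0)) →
      (∀ t : ℝ, 0 ≤ t → ‖T t‖ ≤ 1) →
      ∀ m : ℝ, 0 < m →
      (∀ x y : H,
        Filter.Tendsto (fun h : ℝ => ((h : ℂ)⁻¹) • (T h x - x))
          (nhdsWithin 0 (Set.Ioi 0)) (nhds y) →
        ∀ μ : ℂ, μ.re < 0 → m * |μ.re| * ‖x‖ ≤ ‖μ • x - y‖) →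
      ∃ m₁ : ℝ, 0 < m₁ ∧ ∀ t : ℝ, 0 ≤ t → ∀ x : H, m₁ * ‖x‖ ≤ ‖T t x‖) := by
  intro h
  obtain ⟨m₁, hm₁, hlow⟩ := h Pool.Agent.H786R3.SG.Hs Pool.Agent.H786R3.SG.T
    Pool.Agent.H786R3.SG.T_zero Pool.Agent.H786R3.SG.T_add
    (fun x => (Pool.Agent.H786R3.SG.T_cont x).continuousOn)
    (fun t _ => Pool.Agent.H786R3.SG.T_norm t) (1 / 8) (by norm_num)
    (fun x y hxy μ hμ => Pool.Agent.H786R3.SG.lower x y hxy μ hμ)
  obtain ⟨x, hx⟩ := Pool.Agent.H786R3.SG.exists_ne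
  have h1 : m₁ * ‖x‖ ≤ 0 :=
    ge_of_tendsto (Pool.Agent.H786R3.SG.T_decay x)
      (Filter.eventually_atTop.mpr ⟨0, fun t ht => hlow t ht x⟩)
  have h2 : 0 < ‖x‖ := norm_pos_iff.mpr hx
  have h3 := mul_pos hm₁ h2
  linarith

end Pool.Agent.S05316
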