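import Pool.Statements.S05335
import Pool.Agent.H647R3.PolyIdx

set_option autoImplicit false
open Pool Pool.MP_8c09cc_an

namespace Pool.Agent.S05335

open Pool.Agent.H647R3.PolyIdx

/-- For every k ≥ 1, nontrivial complex Banach space X and nonempty compact Hausdorff K, the k-th polynomial numerical index of C(K,X) equals that of X: a constant c bounds v(P) ≥ c‖P‖ for all k-homogeneous P on X iff it does on C(K,X). -/
theorem result :
  ∀ (k : ℕ), 1 ≤ k →
  ∀ (X : Type) [NormedAddCommGroup X] [NormedSpace ℂ X] [CompleteSpace X] [Nontrivial X],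
  ∀ (K : Type) [TopologicalSpace K] [CompactSpace K] [T2Space K] [Nonempty K],
  ∀ c : ℝ,
    (∀ (A : ContinuousMultilinearMap ℂ (fun _ : Fin k => X) X) (y : X), ‖y‖ ≤ 1 →
      ∀ ε : ℝ, 0 < ε →
        ∃ (x : X) (f : X →L[ℂ] ℂ), ‖x‖ = 1 ∧ ‖f‖ = 1 ∧ f x = 1 ∧
          c * ‖A (fun _ => y)‖ - ε < ‖f (A (fun _ => x))‖) ↔
    (∀ (A : ContinuousMultilinearMap ℂ (fun _ : Fin k => C(K, X)) C(K, X)) (y : C(K, X)),
      ‖y‖ ≤ 1 → ∀ ε : ℝ, 0 < ε →
        ∃ (x : C(K, X)) (f : C(K, X) →L[ℂ] ℂ), ‖x‖ = 1 ∧ ‖f‖ = 1 ∧ f x = 1 ∧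
          c * ‖A (fun _ => y)‖ - ε < ‖f (A (fun _ => x))‖) := by
  intro k _hk X _ _ _ _ K _ _ _ _ c
  constructor
  · intro hX B y hy ε hε
    -- choose a small parameter
    set ε' : ℝ := ε / (2 * (|c| + 1)) with hε'
    have hε'pos : 0 < ε' := by positivity
    obtain ⟨t₀, x₀, g, φ, hx₀, hg, hφ01, hφt, hφg, hBg⟩ := step_one B y hy ε' hε'pos
    obtain ⟨Φ, hΦn, hΦt, hΦx⟩ := step_two t₀ x₀ g φ hx₀ hg hφ01 hφt hφg
    let A : ContinuousMultilinearMap ℂ (fun _ : Fin k => X) X :=
      (ContinuousMap.evalCLM (M := X) ℂ t₀).compContinuousMultilinearMap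
        (B.compContinuousLinearMap (fun _ => Φ))
    have hA : ∀ x : X, A (fun _ => x) = B (fun _ => Φ x) t₀ := fun x => rfl
    -- weakened comparison also valid for negative `c`
    have hBB : ‖B (fun _ => g) t₀‖ ≤ ‖B (fun _ => g)‖ := ContinuousMap.norm_coe_le_norm _ _
    by_cases hc : 0 ≤ c
    · obtain ⟨x, f, hx, hf, hfx, hlt⟩ := hX A x₀ hx₀.le (ε / 2) (half_pos hε)
      refine ⟨Φ x, f.comp (ContinuousMap.evalCLM (M := X) ℂ t₀), ?_, ?_, ?_, ?_⟩
      · apply le_antisymm ((hΦn x).trans hx.le)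
        rw [← hx]
        conv_lhs => rw [← hΦt x]
        exact ContinuousMap.norm_coe_le_norm _ _
      · have h1 : ‖f.comp (ContinuousMap.evalCLM (M := X) (α := K) ℂ t₀)‖ ≤ 1 := by
          refine ContinuousLinearMap.opNorm_le_bound _ zero_le_one (fun z => ?_)
          rw [one_mul]
          change ‖f (z t₀)‖ ≤ ‖z‖
          refine (f.le_opNorm _).trans ?_
          rw [hf, one_mul]
          exact ContinuousMap.norm_coe_le_norm _ _
        apply le_antisymm h1
        have h2 : (f.comp (ContinuousMap.evalCLM (M := X) ℂ t₀)) (Φ x) = 1 := by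
          change f (Φ x t₀) = 1
          rw [hΦt, hfx]
        have h3 := (f.comp (ContinuousMap.evalCLM (M := X) ℂ t₀)).le_opNorm (Φ x)
        rw [h2, norm_one] at h3
        have h4 : ‖Φ x‖ ≤ 1 := (hΦn x).trans hx.le
        calc (1 : ℝ) ≤ _ := h3
          _ ≤ ‖f.comp (ContinuousMap.evalCLM (M := X) (α := K) ℂ t₀)‖ * 1 := by gcongr
          _ = _ := mul_one _
      · change f (Φ x t₀) = 1
        rw [hΦt, hfx]
      · change _ < ‖f (B (fun _ => Φ x) t₀)‖
        rw [← hA x]
        refine lt_of_le_of_lt ?_ hlt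
        rw [hA x₀, hΦx]
        have h1 : ‖B (fun _ => y)‖ ≤ ‖B (fun _ => g) t₀‖ + ε' := by linarith
        have h2 : c * ‖B (fun _ => y)‖ ≤ c * (‖B (fun _ => g) t₀‖ + ε') := by gcongr
        have h3 : c * ε' ≤ ε / 2 := by
          rw [hε', abs_of_nonneg hc, mul_div_assoc', div_le_div_iff₀ (by positivity) two_pos]
          nlinarith
        linarith [mul_add c ‖B (fun _ => g) t₀‖ ε']
    · push Not at hc
      obtain ⟨x, f, hx, hf, hfx, -⟩ := hX 0 0 (by simp) 1 one_pos
      refine ⟨ContinuousMap.const K x, f.comp (ContinuousMap.evalCLM (M := X) ℂ t₀), ?_, ?_, ?_, ?_⟩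
      · apply le_antisymm
        · rw [ContinuousMap.norm_le _ zero_le_one]
          intro t
          exact hx.le
        · rw [← hx]
          exact ContinuousMap.norm_coe_le_norm (ContinuousMap.const K x) t₀
      · have h1 : ‖f.comp (ContinuousMap.evalCLM (M := X) (α := K) ℂ t₀)‖ ≤ 1 := by
          refine ContinuousLinearMap.opNorm_le_bound _ zero_le_one (fun z => ?_)
          rw [one_mul]
          change ‖f (z t₀)‖ ≤ ‖z‖
          refine (f.le_opNorm _).trans ?_
          rw [hf, one_mul]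
          exact ContinuousMap.norm_coe_le_norm _ _
        apply le_antisymm h1
        have h2 : (f.comp (ContinuousMap.evalCLM (M := X) ℂ t₀)) (ContinuousMap.const K x) = 1 := by
          change f x = 1
          exact hfx
        have h3 := (f.comp (ContinuousMap.evalCLM (M := X) ℂ t₀)).le_opNorm (ContinuousMap.const K x)
        rw [h2, norm_one] at h3
        have h4 : ‖ContinuousMap.const K x‖ ≤ 1 := by
          rw [ContinuousMap.norm_le _ zero_le_one]
          intro t
          exact hx.le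
        calc (1 : ℝ) ≤ _ := h3
          _ ≤ ‖f.comp (ContinuousMap.evalCLM (M := X) (α := K) ℂ t₀)‖ * 1 := by gcongr
          _ = _ := mul_one _
      · change f x = 1
        exact hfx
      · have : c * ‖B (fun _ => y)‖ ≤ 0 := mul_nonpos_of_nonpos_of_nonneg hc.le (norm_nonneg _)
        have h5 := norm_nonneg ((f.comp (ContinuousMap.evalCLM (M := X) ℂ t₀)) (B (fun _ => ContinuousMap.const K x)))
        linarith
  · intro hC A y hy ε hε
    by_contra hcon
    push Not at hcon
    obtain ⟨t₀⟩ := (inferInstance : Nonempty K)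
    have hconst : ∀ z : X, ‖ContinuousMap.const K z‖ ≤ ‖z‖ := fun z => by
      rw [ContinuousMap.norm_le _ (norm_nonneg _)]
      intro t
      exact le_rfl
    obtain ⟨g, ξ, hg, hξ, hgξ, hlt⟩ := hC (lift A) (ContinuousMap.const K y) ((hconst y).trans hy) ε hε
    -- nonnegativity of the bound
    obtain ⟨u, hu⟩ := exists_norm_eq X (zero_le_one)
    obtain ⟨f, hf, hfu⟩ := exists_support u (by intro h; rw [h, norm_zero] at hu; exact zero_ne_one hu)
    rw [hu] at hfu
    have hv0 : 0 ≤ c * ‖A (fun _ => y)‖ - ε :=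
      (norm_nonneg _).trans (hcon u f hu hf (by simpa using hfu))
    have hb := bound_lift A (c * ‖A (fun _ => y)‖ - ε) hv0 (fun x f hx hf hfx => hcon x f hx hf hfx) g ξ hg hξ hgξ
    have hnorm : c * ‖A (fun _ => y)‖ ≤ c * ‖lift A (fun _ : Fin k => ContinuousMap.const K y)‖ := by
      have hcpos : 0 ≤ c := by
        by_contra hneg
        push Not at hneg
        have : c * ‖A (fun _ => y)‖ ≤ 0 := mul_nonpos_of_nonpos_of_nonneg hneg.le (norm_nonneg _)
        linarith
      have h6 : ‖A (fun _ => y)‖ ≤ ‖lift A (fun _ : Fin k => ContinuousMap.const K y)‖ := by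
        exact ContinuousMap.norm_coe_le_norm (lift A (fun _ : Fin k => ContinuousMap.const K y)) t₀
      gcongr
    linarith

end Pool.Agent.S05335
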