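import Pool.Statements.S05346
import Pool.Agent.H266R3.BMain

set_option autoImplicit false
open Pool Pool.MP_8d1505_an

namespace Pool.Agent.S05346

/-- The negation of the preceding statement: For every compact Hausdorff K, real C(K) has the Bishop–Phelps–Bollobás property for numerical radius: operators of numerical radius 1 nearly attaining it at a state are ε-close to an operator attaining numerical radius 1 at an ε-close state. -/
theorem result :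
    ¬ (∀ (K : Type) [TopologicalSpace K] [CompactSpace K] [T2Space K],
      ∀ ε : ℝ, 0 < ε → ∃ η : ℝ, 0 < η ∧
        ∀ (T : C(K, ℝ) →L[ℝ] C(K, ℝ)) (x : C(K, ℝ)) (f : C(K, ℝ) →L[ℝ] ℝ),
          sSup {r : ℝ | ∃ (z : C(K, ℝ)) (h : C(K, ℝ) →L[ℝ] ℝ),
              ‖z‖ = 1 ∧ ‖h‖ = 1 ∧ h z = 1 ∧ r = |h (T z)|} = 1 →
          ‖x‖ = 1 → ‖f‖ = 1 → f x = 1 →
          1 - η < |f (T x)| →
          ∃ (S : C(K, ℝ) →L[ℝ] C(K, ℝ)) (y : C(K, ℝ)) (g : C(K, ℝ) →L[ℝ] ℝ),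
            sSup {r : ℝ | ∃ (z : C(K, ℝ)) (h : C(K, ℝ) →L[ℝ] ℝ),
                ‖z‖ = 1 ∧ ‖h‖ = 1 ∧ h z = 1 ∧ r = |h (S z)|} = 1 ∧
            ‖y‖ = 1 ∧ ‖g‖ = 1 ∧ g y = 1 ∧
            |g (S y)| = 1 ∧
            ‖x - y‖ < ε ∧ ‖f - g‖ < ε ∧ ‖T - S‖ < ε) :=
  Pool.Agent.H266R3.BPB.main

end Pool.Agent.S05346
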