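import Pool.Statements.S05350
import Pool.Agent.H70R3.Reflex5

set_option autoImplicit false
open Pool Pool.MP_8d267f_an

namespace Pool.Agent.S05350

/-- The negation of the preceding statement: If T on a complex Hilbert space is quasi-similar to a subnormal operator, then every operator leaving all closed T-invariant subspaces invariant is a weak-operator limit of polynomials in T, i.e. T is reflexive. -/
theorem result :
    ¬ (∀ (H K : Type) [NormedAddCommGroup H] [InnerProductSpace ℂ H] [CompleteSpace H]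
    [NormedAddCommGroup K] [InnerProductSpace ℂ K] [CompleteSpace K]
    (T : H →L[ℂ] H) (M : K →L[ℂ] K),
    (∃ (L : Type) (_ : NormedAddCommGroup L) (_ : InnerProductSpace ℂ L) (_ : CompleteSpace L)
       (V : K →ₗᵢ[ℂ] L) (N : L →L[ℂ] L), IsStarNormal N ∧ ∀ x : K, N (V x) = V (M x)) →
    (∃ (X : H →L[ℂ] K) (Y : K →L[ℂ] H),
       Function.Injective X ∧ DenseRange X ∧ Function.Injective Y ∧ DenseRange Y ∧
       X.comp T = M.comp X ∧ T.comp Y = Y.comp M) →
    ∀ S : H →L[ℂ] H,
      (∀ E : Submodule ℂ H, IsClosed (E : Set H) → (∀ x ∈ E, T x ∈ E) → ∀ x ∈ E, S x ∈ E) →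
      ∀ (n : ℕ) (x y : Fin n → H) (ε : ℝ), 0 < ε →
        ∃ p : Polynomial ℂ, ∀ i : Fin n,
          ‖inner ℂ (y i) ((S - Polynomial.aeval T p) (x i))‖ < ε) := by
  intro h
  obtain ⟨hN, hXY, hA, x, y, hxy⟩ := Pool.Agent.H70R3.Reflex.core
  obtain ⟨p, hp⟩ := h _ _ _ _ ⟨_, _, _, inferInstance, LinearIsometry.id, _, hN, fun _ => rfl⟩
    hXY _ hA 3 x y (1 / 3) (by norm_num)
  exact hxy p hp

end Pool.Agent.S05350
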