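import Pool.Statements.S05384
import Pool.Agent.H434R3.WH11
-- import your own Pool.Agent.* helpers here

set_option autoImplicit false
open Pool Pool.MP_908b95_an

namespace Pool.Agent.S05384

/-- The negation of the preceding statement: If T on a Hilbert space has spectrum in the closed disc and each Möbius image φ(T) equals ΓTΓ⁻¹ with ‖Γ‖, ‖Γ⁻¹‖ bounded by one constant C, then some invertible S makes STS⁻¹ homogeneous (every φ(STS⁻¹) unitarily equivalent to STS⁻¹). -/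
theorem result :
    ¬ (∀ (H : Type) [NormedAddCommGroup H] [InnerProductSpace ℂ H] [CompleteSpace H]
      (T : H →L[ℂ] H),
      spectrum ℂ T ⊆ Metric.closedBall (0 : ℂ) 1 →
      (∃ C : ℝ, ∀ (θ : ℝ) (a : ℂ), ‖a‖ < 1 →
        ∃ Γ : (H →L[ℂ] H)ˣ,
          ‖(Γ : H →L[ℂ] H)‖ ≤ C ∧
          ‖((Γ⁻¹ : (H →L[ℂ] H)ˣ) : H →L[ℂ] H)‖ ≤ C ∧
          Complex.exp ((θ : ℂ) * Complex.I) •
              ((T - a • (1 : H →L[ℂ] H)) *
                Ring.inverse ((1 : H →L[ℂ] H) - (starRingEnd ℂ a) • T))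
            = (Γ : H →L[ℂ] H) * T * ((Γ⁻¹ : (H →L[ℂ] H)ˣ) : H →L[ℂ] H)) →
      ∃ S : (H →L[ℂ] H)ˣ, ∀ (θ : ℝ) (a : ℂ), ‖a‖ < 1 →
        ∃ U ∈ unitary (H →L[ℂ] H),
          Complex.exp ((θ : ℂ) * Complex.I) •
              (((S : H →L[ℂ] H) * T * ((S⁻¹ : (H →L[ℂ] H)ˣ) : H →L[ℂ] H)
                  - a • (1 : H →L[ℂ] H)) *
                Ring.inverse ((1 : H →L[ℂ] H) - (starRingEnd ℂ a) •
                  ((S : H →L[ℂ] H) * T * ((S⁻¹ : (H →L[ℂ] H)ˣ) : H →L[ℂ] H))))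
            = U * ((S : H →L[ℂ] H) * T * ((S⁻¹ : (H →L[ℂ] H)ˣ) : H →L[ℂ] H)) * star U) := by
  intro hall
  have h := hall (H434R3.WH.HH H434R3.WH.WW) H434R3.WH.TX
    (H434R3.WH.spec_sub _ (H434R3.WH.BigT_norm _ _)) ⟨5, by
    intro θ a ha
    obtain ⟨Γ, g1, g2, g3⟩ := H434R3.WH.intertwine (H434R3.WH.C0 H434R3.WH.Gs H434R3.WH.ZZ
      H434R3.WH.ZZ_norm) (H434R3.WH.C0_norm _ _ _) H434R3.WH.PP H434R3.WH.PP' 5 (by norm_num)
      H434R3.WH.PP_norm H434R3.WH.PP'_norm H434R3.WH.PP_PP' H434R3.WH.PP'_PP H434R3.WH.PP_C0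
      (Circle.exp θ) ⟨a, ha⟩
    exact ⟨Γ, g1, g2, g3⟩⟩
  obtain ⟨X, X', M, a1, a2, a3, a4, a5⟩ := H434R3.WH.from_homog _ h
  exact H434R3.WH.no_power_bounded X X' a1 a2 a3 M a4 a5

end Pool.Agent.S05384
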