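import Pool.Statements.S05416
import Pool.Agent.H456R3.Mult.Final
import Pool.Agent.H456R3.Mult.MINMAX

set_option autoImplicit false
open Pool Pool.MP_92c74b_an

namespace Pool.Agent.S05416

/-- The negation of the preceding statement: For n ≥ 3 and k ≥ 1 there is C such that, for every bounded connected open Ω in ℝⁿ, at most C indices j have min-max Dirichlet eigenvalue λ_j(Ω) equal to λ_k(Ω). -/
theorem result :
    ¬ (∀ n : ℕ, 3 ≤ n → ∀ k : ℕ, 1 ≤ k → ∃ C : ℕ,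
    ∀ Ω : Set (EuclideanSpace ℝ (Fin n)), IsOpen Ω → IsConnected Ω → Bornology.IsBounded Ω →
    ∀ lam : ℕ → ℝ,
      (∀ j : ℕ, lam j = sInf ((fun V : Submodule ℝ (EuclideanSpace ℝ (Fin n) → ℝ) =>
          sSup ((fun f : EuclideanSpace ℝ (Fin n) → ℝ =>
            (∫ x, ‖fderiv ℝ f x‖ ^ 2) / (∫ x, f x ^ 2)) '' {f | f ∈ V ∧ f ≠ 0})) ''
        {V : Submodule ℝ (EuclideanSpace ℝ (Fin n) → ℝ) | Module.finrank ℝ V = j ∧
          ∀ f ∈ V, ContDiff ℝ ((⊤ : ℕ∞) : WithTop ℕ∞) f ∧ HasCompactSupport f ∧ tsupport f ⊆ Ω})) →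
      ∀ S : Finset ℕ, (∀ j ∈ S, 1 ≤ j ∧ lam j = lam k) → S.card ≤ C) := by
  exact Pool.Agent.H456R3.Mult.taskMINMAX fun N hN =>
    Pool.Agent.H456R3.Mult.domainPropE_all N hN

end Pool.Agent.S05416
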