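import Pool.Statements.S05448
import Pool.Agent.H329R3.NU.All

set_option autoImplicit false
open MeasureTheory
open Pool Pool.MP_948e80_an

namespace Pool.Agent.S05448

/-- The negation of the preceding statement: For N≥2, m>1, 0<s<1, T>0 and nonnegative u₀ in L¹∩L^∞, any two nonnegative weak solutions of ∂ₜu = ∇·(u^{m-1}∇(-Δ)^{-s}u) with datum u₀ (weak Riesz-potential gradient, C¹ tests) agree a.e. on ℝᴺ×(0,T). -/
theorem result :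
    ¬ (∀ (N : ℕ), 2 ≤ N → ∀ (m s T : ℝ), 1 < m → 0 < s → s < 1 → 0 < T →
  ∀ u₀ : EuclideanSpace ℝ (Fin N) → ℝ, (∀ x, 0 ≤ u₀ x) →
    MemLp u₀ 1 (volume : Measure (EuclideanSpace ℝ (Fin N))) →
    MemLp u₀ ⊤ (volume : Measure (EuclideanSpace ℝ (Fin N))) →
  ∀ u v : EuclideanSpace ℝ (Fin N) × ℝ → ℝ,
  (∀ w ∈ ({u, v} : Set (EuclideanSpace ℝ (Fin N) × ℝ → ℝ)),
    (∀ p, 0 ≤ w p) ∧
    LocallyIntegrableOn w ((Set.univ : Set (EuclideanSpace ℝ (Fin N))) ×ˢ Set.Ioo (0:ℝ) T)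
      (volume : Measure (EuclideanSpace ℝ (Fin N) × ℝ)) ∧
    (∀ᵐ p ∂((volume : Measure (EuclideanSpace ℝ (Fin N) × ℝ)).restrict
        ((Set.univ : Set (EuclideanSpace ℝ (Fin N))) ×ˢ Set.Ioo (0:ℝ) T)),
      Integrable (fun y : EuclideanSpace ℝ (Fin N) => ‖p.1 - y‖ ^ (2 * s - (N:ℝ)) * w (y, p.2))
        (volume : Measure (EuclideanSpace ℝ (Fin N)))) ∧
    LocallyIntegrableOn
      (fun p : EuclideanSpace ℝ (Fin N) × ℝ =>
        ∫ y : EuclideanSpace ℝ (Fin N), ‖p.1 - y‖ ^ (2 * s - (N:ℝ)) * w (y, p.2))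
      ((Set.univ : Set (EuclideanSpace ℝ (Fin N))) ×ˢ Set.Ioo (0:ℝ) T)
      (volume : Measure (EuclideanSpace ℝ (Fin N) × ℝ)) ∧
    ∃ G : EuclideanSpace ℝ (Fin N) × ℝ → EuclideanSpace ℝ (Fin N),
      LocallyIntegrableOn G ((Set.univ : Set (EuclideanSpace ℝ (Fin N))) ×ˢ Set.Ioo (0:ℝ) T)
        (volume : Measure (EuclideanSpace ℝ (Fin N) × ℝ)) ∧
      LocallyIntegrableOn (fun p => w p ^ (m - 1) • G p)
        ((Set.univ : Set (EuclideanSpace ℝ (Fin N))) ×ˢ Set.Ioo (0:ℝ) T)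
        (volume : Measure (EuclideanSpace ℝ (Fin N) × ℝ)) ∧
      (∀ ψ : EuclideanSpace ℝ (Fin N) × ℝ → ℝ, ContDiff ℝ 1 ψ → HasCompactSupport ψ →
        tsupport ψ ⊆ ((Set.univ : Set (EuclideanSpace ℝ (Fin N))) ×ˢ Set.Ioo (0:ℝ) T) →
        ∀ e : EuclideanSpace ℝ (Fin N),
          ∫ p : EuclideanSpace ℝ (Fin N) × ℝ,
              (Real.Gamma ((N:ℝ) / 2 - s) / ((4:ℝ) ^ s * Real.pi ^ ((N:ℝ) / 2) * Real.Gamma s)) *
              (∫ y : EuclideanSpace ℝ (Fin N), ‖p.1 - y‖ ^ (2 * s - (N:ℝ)) * w (y, p.2)) *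
              fderiv ℝ ψ p (e, (0:ℝ))
            = - ∫ p : EuclideanSpace ℝ (Fin N) × ℝ, inner ℝ (G p) e * ψ p) ∧
      (∀ φ : EuclideanSpace ℝ (Fin N) × ℝ → ℝ, ContDiff ℝ 1 φ → HasCompactSupport φ →
        tsupport φ ⊆ {p : EuclideanSpace ℝ (Fin N) × ℝ | p.2 < T} →
        IntegrableOn (fun p => w p * fderiv ℝ φ p ((0 : EuclideanSpace ℝ (Fin N)), (1:ℝ)))
          ((Set.univ : Set (EuclideanSpace ℝ (Fin N))) ×ˢ Set.Ioo (0:ℝ) T)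
          (volume : Measure (EuclideanSpace ℝ (Fin N) × ℝ)) ∧
        IntegrableOn (fun p => w p ^ (m - 1) * fderiv ℝ φ p (G p, (0:ℝ)))
          ((Set.univ : Set (EuclideanSpace ℝ (Fin N))) ×ˢ Set.Ioo (0:ℝ) T)
          (volume : Measure (EuclideanSpace ℝ (Fin N) × ℝ)) ∧
        (∫ p in ((Set.univ : Set (EuclideanSpace ℝ (Fin N))) ×ˢ Set.Ioo (0:ℝ) T),
            w p * fderiv ℝ φ p ((0 : EuclideanSpace ℝ (Fin N)), (1:ℝ)))
          - (∫ p in ((Set.univ : Set (EuclideanSpace ℝ (Fin N))) ×ˢ Set.Ioo (0:ℝ) T),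
            w p ^ (m - 1) * fderiv ℝ φ p (G p, (0:ℝ)))
          + (∫ x : EuclideanSpace ℝ (Fin N), u₀ x * φ (x, (0:ℝ))) = 0)) →
  u =ᵐ[(volume : Measure (EuclideanSpace ℝ (Fin N) × ℝ)).restrict
        ((Set.univ : Set (EuclideanSpace ℝ (Fin N))) ×ˢ Set.Ioo (0:ℝ) T)] v) := by
  intro H
  obtain ⟨κ, w, v, hκ, hw, hv, hd⟩ := Pool.Agent.H329R3.NU.exists_pair
    Pool.Agent.H329R3.NU.core_all Pool.Agent.H329R3.NU.zero_all Pool.Agent.H329R3.NU.distinct_all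
  apply hd
  have hexp : (2 * (3 / 4 : ℝ) - ((3 : ℕ) : ℝ)) = -(3 / 2) := by norm_num
  refine H 3 (by norm_num) (3 / 2) (3 / 4) 1 (by norm_num) (by norm_num) (by norm_num) one_pos
    Pool.Agent.H329R3.NU.u0 Pool.Agent.H329R3.NU.u0_nonneg (Pool.Agent.H329R3.NU.u0_memLp 1)
    (Pool.Agent.H329R3.NU.u0_memLp ⊤) (Pool.Agent.H329R3.NU.uu κ w)
    (Pool.Agent.H329R3.NU.uu (κ / 2) v) ?_
  intro g hg
  rw [hexp]
  rcases hg with rfl | hg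
  · exact Pool.Agent.H329R3.NU.isWeak Pool.Agent.H329R3.NU.pot_all
      Pool.Agent.H329R3.NU.bounds_all Pool.Agent.H329R3.NU.wgrad_all
      Pool.Agent.H329R3.NU.weak3_all hκ hw
  · rw [Set.mem_singleton_iff] at hg
    subst hg
    exact Pool.Agent.H329R3.NU.isWeak Pool.Agent.H329R3.NU.pot_all
      Pool.Agent.H329R3.NU.bounds_all Pool.Agent.H329R3.NU.wgrad_all
      Pool.Agent.H329R3.NU.weak3_all (half_pos hκ) hv

end Pool.Agent.S05448
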