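import Pool.Statements.S05488
import Pool.Agent.H724R3.Weight

set_option autoImplicit false
open Pool Pool.MP_97b573_an

namespace Pool.Agent.S05488

open Filter Topology Pool.Agent.H724R3.NonStd

/-- The convolution of two weighted summable functions on the nonnegative rationals. -/
theorem conv_aux {w : ℚ → ℝ} (hw : ∀ y, 0 < w y)
    (hwm : ∀ y u, 0 ≤ y → 0 ≤ u → w (y + u) ≤ w y * w u) {a f : ℚ → ℂ}
    (ha0 : ∀ q : ℚ, q < 0 → a q = 0) (ha : Summable (fun q : ℚ => ‖a q‖ * w q))
    (hf0 : ∀ q : ℚ, q < 0 → f q = 0) (hf : Summable (fun q : ℚ => ‖f q‖ * w q)) :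
    Summable (fun p : ℚ × ℚ => ‖a p.1 * f (p.2 - p.1)‖ * w p.2) := by
  have h1 : Summable (fun p : ℚ × ℚ => (‖a p.1‖ * w p.1) * (‖f p.2‖ * w p.2)) :=
    ha.mul_of_nonneg hf (fun q => mul_nonneg (norm_nonneg _) (hw q).le)
      (fun q => mul_nonneg (norm_nonneg _) (hw q).le)
  let E : ℚ × ℚ ≃ ℚ × ℚ :=
    { toFun := fun p => (p.1, p.2 - p.1)
      invFun := fun p => (p.1, p.2 + p.1)
      left_inv := fun p => by simp
      right_inv := fun p => by simp }
  have h2 : Summable (fun p : ℚ × ℚ => (‖a p.1‖ * w p.1) * (‖f (p.2 - p.1)‖ * w (p.2 - p.1))) :=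
    (E.summable_iff (f := fun p : ℚ × ℚ => (‖a p.1‖ * w p.1) * (‖f p.2‖ * w p.2))).mpr h1
  refine Summable.of_nonneg_of_le (fun p => mul_nonneg (norm_nonneg _) (hw _).le) (fun p => ?_) h2
  obtain ⟨x, t⟩ := p
  simp only
  by_cases hx : x < 0
  · rw [ha0 x hx]
    simp
  by_cases ht : t - x < 0
  · rw [hf0 _ ht]
    simp
  have h3 := hwm x (t - x) (by linarith) (by linarith)
  have h4 : x + (t - x) = t := by ring
  rw [h4] at h3
  rw [norm_mul]
  calc ‖a x‖ * ‖f (t - x)‖ * w t ≤ ‖a x‖ * ‖f (t - x)‖ * (w x * w (t - x)) :=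
        mul_le_mul_of_nonneg_left h3 (by positivity)
    _ = _ := by ring

/-- The negation of the preceding statement: For every radical weight ω on the nonnegative rationals, every closed ideal of the weighted convolution algebra ℓ¹(ℚ⁺,ω) is {0} or consists of all elements vanishing below some real α ≥ 0 (strictly or non-strictly). -/
theorem result :
    ¬ (∀ ω : ℚ → ℝ,
    (∀ q : ℚ, 0 ≤ q → 0 < ω q) →
    (∀ s t : ℚ, 0 ≤ s → 0 ≤ t → ω (s + t) ≤ ω s * ω t) →
    (∀ t : ℚ, 0 < t →
      Filter.Tendsto (fun n : ℕ => ω ((n : ℚ) * t) ^ ((1 : ℝ) / (n : ℝ)))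
        Filter.atTop (nhds 0)) →
    ∀ I : Set (ℚ → ℂ),
      (∀ f ∈ I, (∀ q : ℚ, q < 0 → f q = 0) ∧ Summable (fun q : ℚ => ‖f q‖ * ω q)) →
      (0 : ℚ → ℂ) ∈ I →
      (∀ f ∈ I, ∀ g ∈ I, f + g ∈ I) →
      (∀ c : ℂ, ∀ f ∈ I, c • f ∈ I) →
      (∀ a : ℚ → ℂ, (∀ q : ℚ, q < 0 → a q = 0) →
         Summable (fun q : ℚ => ‖a q‖ * ω q) →
         ∀ f ∈ I, (fun t : ℚ => ∑' s : ℚ, a s * f (t - s)) ∈ I) →
      (∀ f : ℚ → ℂ, (∀ q : ℚ, q < 0 → f q = 0) →
         Summable (fun q : ℚ => ‖f q‖ * ω q) →
         (∀ ε : ℝ, 0 < ε → ∃ g ∈ I, ∑' q : ℚ, ‖f q - g q‖ * ω q < ε) → f ∈ I) →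
      (I = {(0 : ℚ → ℂ)} ∨ ∃ α : ℝ, 0 ≤ α ∧
        (I = {f : ℚ → ℂ | (∀ q : ℚ, q < 0 → f q = 0) ∧
                Summable (fun q : ℚ => ‖f q‖ * ω q) ∧
                ∀ q : ℚ, (q : ℝ) < α → f q = 0} ∨
         I = {f : ℚ → ℂ | (∀ q : ℚ, q < 0 → f q = 0) ∧
                Summable (fun q : ℚ => ‖f q‖ * ω q) ∧
                ∀ q : ℚ, (q : ℝ) ≤ α → f q = 0}))) := by
  intro h
  obtain ⟨φ, w, C, hC, hw, hwm, hrad, hφw, hwC, hφ1, hφ0, hsum⟩ := exists_weight
  -- summability of the pairings
  have hbd : ∀ (f : ℚ → ℂ), (∀ q : ℚ, q < 0 → f q = 0) → ∀ q, 0 ≤ q → ∀ r,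
      ‖f r * (φ (r + q) : ℂ)‖ ≤ (C * w q) * (‖f r‖ * w r) := by
    intro f hf0 q hq r
    by_cases hr : r < 0
    · rw [hf0 r hr]
      simp
    · have hr' : 0 ≤ r := by linarith
      rw [norm_mul, Complex.norm_real, Real.norm_eq_abs]
      have h1 := hφw (r + q) (by linarith)
      have h2 := hwm r q hr' hq
      calc ‖f r‖ * |φ (r + q)| ≤ ‖f r‖ * (C * (w r * w q)) :=
            mul_le_mul_of_nonneg_left (h1.trans (mul_le_mul_of_nonneg_left h2 hC.le)) (norm_nonneg _)
        _ = _ := by ring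
  have hpair : ∀ (f : ℚ → ℂ), (∀ q : ℚ, q < 0 → f q = 0) →
      Summable (fun q : ℚ => ‖f q‖ * w q) → ∀ q, 0 ≤ q →
      Summable (fun r => f r * (φ (r + q) : ℂ)) := fun f hf0 hf q hq =>
    Summable.of_norm_bounded (hf.mul_left (C * w q)) (hbd f hf0 q hq)
  set I : Set (ℚ → ℂ) := {f | (∀ q : ℚ, q < 0 → f q = 0) ∧ Summable (fun q : ℚ => ‖f q‖ * w q) ∧
    ∀ q : ℚ, 0 ≤ q → ∑' r : ℚ, f r * (φ (r + q) : ℂ) = 0} with hI
  -- the unit mass at `1`
  set d : ℚ → ℂ := fun q => if q = 1 then 1 else 0 with hd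
  have hd0 : ∀ q : ℚ, q < 0 → d q = 0 := by
    intro q hq
    simp only [hd]
    rw [if_neg (by linarith)]
  have hds : Summable (fun q : ℚ => ‖d q‖ * w q) := by
    apply summable_of_ne_finset_zero (s := {1})
    intro q hq
    rw [Finset.mem_singleton] at hq
    simp [hd, hq]
  have hdI : d ∉ I := by
    rintro ⟨-, -, h3⟩
    have h4 := h3 0 le_rfl
    rw [tsum_eq_single 1 (by intro q hq; simp [hd, hq])] at h4
    simp [hd, hφ1] at h4
  -- the element of the ideal
  set F : ℚ → ℂ := fun q => (if q = 1 then 1 else 0) -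
    ∑' k : ℕ, if q = 1 + s k then (c k : ℂ) else 0 with hF
  have hinj : Function.Injective (fun k => 1 + s k) := fun a b hab => s_inj (by simpa using hab)
  have hFk : ∀ k, F (1 + s k) = -(c k : ℂ) := by
    intro k
    simp only [hF]
    rw [if_neg (by have := s_pos k; linarith), tsum_eq_single k]
    · simp
    · intro j hj
      rw [if_neg]
      intro h'
      exact hj (hinj h'.symm)
  have hF1 : F 1 = 1 := by
    simp only [hF]
    have : ∀ k, ¬ ((1 : ℚ) = 1 + s k) := fun k h' => by have := s_pos k; linarith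
    simp [this]
  have hFo : ∀ q, q ≠ 1 → (∀ k, q ≠ 1 + s k) → F q = 0 := by
    intro q h1 h2
    simp only [hF]
    simp [h1, h2]
  have hFneg : ∀ q : ℚ, q < 1 → F q = 0 := by
    intro q hq
    apply hFo q (by linarith)
    intro k
    have := s_pos k
    linarith
  -- sums against `F`
  have hFsum : ∀ (g : ℚ → ℂ) (v : ℂ), HasSum (fun k => (c k : ℂ) * g (1 + s k)) v →
      HasSum (fun r => F r * g r) (g 1 - v) := by
    intro g v hv
    have h1 : HasSum (fun r : ℚ => if r = 1 then g 1 else 0) (g 1) := hasSum_ite_eq 1 (g 1)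
    have h2 : HasSum (fun r : ℚ => ∑' k : ℕ, if r = 1 + s k then (c k : ℂ) * g (1 + s k) else 0)
        v := by
      rw [← hinj.hasSum_iff] 
      · convert hv using 2 with k
        simp only [Function.comp]
        rw [tsum_eq_single k]
        · simp
        · intro j hj
          rw [if_neg]
          intro h'
          exact hj (hinj h'.symm)
      · intro r hr
        have : ∀ k, ¬ (r = 1 + s k) := fun k h' => hr ⟨k, h'.symm⟩
        simp [this]
    have e : (fun r : ℚ => F r * g r) = fun r : ℚ => (if r = 1 then g 1 else 0) -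
        ∑' k : ℕ, if r = 1 + s k then (c k : ℂ) * g (1 + s k) else 0 := by
      funext r
      rw [hF]
      beta_reduce
      rw [sub_mul]
      congr 1
      · split_ifs with h'
        · rw [h', one_mul]
        · rw [zero_mul]
      · rw [← tsum_mul_right]
        congr 1
        funext k
        split_ifs with h'
        · rw [h']
        · rw [zero_mul]
    rw [e]
    exact h1.sub h2
  have hFs : Summable (fun q : ℚ => ‖F q‖ * w q) := by
    have h1 : Summable (fun q : ℚ => ‖∑' k : ℕ, if q = 1 + s k then (c k : ℂ) else 0‖ * w q) := by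
      rw [← hinj.summable_iff]
      · refine Summable.of_nonneg_of_le (fun k => mul_nonneg (norm_nonneg _) (hw _).le)
          (fun k => ?_) (c_summable.mul_right C)
        simp only [Function.comp]
        rw [tsum_eq_single k]
        · rw [if_pos rfl, Complex.norm_real, Real.norm_eq_abs, abs_of_pos (c_pos k)]
          exact mul_le_mul_of_nonneg_left (hwC k) (c_pos k).le
        · intro j hj
          rw [if_neg]
          intro h'
          exact hj (hinj h'.symm)
      · intro r hr
        have : ∀ k, ¬ (r = 1 + s k) := fun k h' => hr ⟨k, h'.symm⟩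
        simp [this]
    refine Summable.of_nonneg_of_le (fun q => mul_nonneg (norm_nonneg _) (hw _).le)
      (fun q => ?_) (hds.add h1)
    rw [← add_mul]
    exact mul_le_mul_of_nonneg_right (norm_sub_le _ _) (hw q).le
  have hFI : F ∈ I := by
    refine ⟨fun q hq => hFneg q (by linarith), hFs, fun q hq => ?_⟩
    have h1 : HasSum (fun k => (c k : ℂ) * (φ (1 + s k + q) : ℂ)) (φ (1 + q) : ℂ) := by
      have := Complex.hasSum_ofReal.mpr (hsum q hq)
      convert this using 2 with k
      push_cast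
      ring
    have h2 := (hFsum (fun r => (φ (r + q) : ℂ)) _ h1).tsum_eq
    rw [h2, sub_self]
  have hFne : F ≠ 0 := by
    intro h'
    rw [h'] at hF1
    simp at hF1
  have hmain := h w (fun q _ => hw q) hwm hrad I (fun f hf => ⟨hf.1, hf.2.1⟩) ?_ ?_ ?_ ?_ ?_
  · rcases hmain with h1 | ⟨α, hα, h1 | h1⟩
    · rw [h1] at hFI
      exact hFne hFI
    · have h2 := hFI
      rw [h1] at h2
      have h3 : α ≤ 1 := by
        by_contra h4
        push Not at h4
        have := h2.2.2 1 (by simpa using h4)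
        rw [hF1] at this
        exact one_ne_zero this
      apply hdI
      rw [h1]
      refine ⟨hd0, hds, fun q hq => ?_⟩
      simp only [hd]
      rw [if_neg]
      rintro rfl
      simp at hq
      linarith
    · have h2 := hFI
      rw [h1] at h2
      have h3 : α < 1 := by
        by_contra h4
        push Not at h4
        have := h2.2.2 1 (by simpa using h4)
        rw [hF1] at this
        exact one_ne_zero this
      apply hdI
      rw [h1]
      refine ⟨hd0, hds, fun q hq => ?_⟩
      simp only [hd]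
      rw [if_neg]
      rintro rfl
      simp at hq
      linarith
  · -- zero
    refine ⟨fun _ _ => rfl, by simp, fun q _ => by simp⟩
  · -- addition
    rintro f ⟨hf0, hfs, hf⟩ g ⟨hg0, hgs, hg⟩
    refine ⟨fun q hq => by simp [hf0 q hq, hg0 q hq], ?_, fun q hq => ?_⟩
    · refine Summable.of_nonneg_of_le (fun q => mul_nonneg (norm_nonneg _) (hw _).le)
        (fun q => ?_) (hfs.add hgs)
      rw [← add_mul]
      exact mul_le_mul_of_nonneg_right (norm_add_le _ _) (hw q).le
    · simp only [Pi.add_apply, add_mul]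
      rw [(hpair f hf0 hfs q hq).tsum_add (hpair g hg0 hgs q hq), hf q hq, hg q hq, add_zero]
  · -- scalars
    rintro a f ⟨hf0, hfs, hf⟩
    refine ⟨fun q hq => by simp [hf0 q hq], ?_, fun q hq => ?_⟩
    · simp only [Pi.smul_apply, smul_eq_mul, norm_mul, mul_assoc]
      exact hfs.mul_left _
    · simp only [Pi.smul_apply, smul_eq_mul, mul_assoc]
      rw [tsum_mul_left, hf q hq, mul_zero]
  · -- convolution
    rintro a ha0 has f ⟨hf0, hfs, hf⟩
    have hA := conv_aux hw hwm ha0 has hf0 hfs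
    have hAs := (Equiv.prodComm ℚ ℚ).summable_iff.mpr hA
    refine ⟨fun q hq => ?_, ?_, fun q hq => ?_⟩
    · have : ∀ x : ℚ, a x * f (q - x) = 0 := by
        intro x
        by_cases hx : x < 0
        · rw [ha0 x hx, zero_mul]
        · rw [hf0 (q - x) (by linarith), mul_zero]
      simp [this]
    · have h1 := hAs.prod
      refine Summable.of_nonneg_of_le (fun q => mul_nonneg (norm_nonneg _) (hw _).le)
        (fun t => ?_) h1
      simp only [Function.comp, Equiv.prodComm_apply, Prod.swap]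
      rw [tsum_mul_right]
      apply mul_le_mul_of_nonneg_right _ (hw t).le
      apply norm_tsum_le_tsum_norm
      have h2 := hAs.prod_factor t
      simp only [Function.comp, Equiv.prodComm_apply, Prod.swap] at h2
      have h3 := h2.mul_right (w t)⁻¹
      refine h3.congr fun x => ?_
      have := (hw t).ne'
      field_simp
    · -- the pairing
      have hG : Summable (fun p : ℚ × ℚ => a p.1 * f (p.2 - p.1) * (φ (p.2 + q) : ℂ)) := by
        refine Summable.of_norm_bounded (hA.mul_left (C * w q)) fun p => ?_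
        obtain ⟨x, t⟩ := p
        simp only
        by_cases ht : t < 0
        · have : a x * f (t - x) = 0 := by
            by_cases hx : x < 0
            · rw [ha0 x hx, zero_mul]
            · rw [hf0 (t - x) (by linarith), mul_zero]
          rw [this]
          simp
        · have ht' : 0 ≤ t := by linarith
          rw [norm_mul, Complex.norm_real, Real.norm_eq_abs]
          have h1 := hφw (t + q) (by linarith)
          have h2 := hwm t q ht' hq
          calc ‖a x * f (t - x)‖ * |φ (t + q)| ≤ ‖a x * f (t - x)‖ * (C * (w t * w q)) :=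
                mul_le_mul_of_nonneg_left (h1.trans (mul_le_mul_of_nonneg_left h2 hC.le))
                  (norm_nonneg _)
            _ = _ := by ring
      have h1 : ∑' t : ℚ, (∑' x : ℚ, a x * f (t - x)) * (φ (t + q) : ℂ) =
          ∑' t : ℚ, ∑' x : ℚ, a x * f (t - x) * (φ (t + q) : ℂ) := by
        congr 1
        funext t
        rw [tsum_mul_right]
      rw [h1]
      have h2 := hG.tsum_comm (f := fun x t => a x * f (t - x) * (φ (t + q) : ℂ))
      rw [h2]
      have h3 : ∀ x : ℚ, ∑' t : ℚ, a x * f (t - x) * (φ (t + q) : ℂ) = 0 := by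
        intro x
        by_cases hx : x < 0
        · simp [ha0 x hx]
        · simp only [mul_assoc]
          rw [tsum_mul_left]
          have h4 := hf (x + q) (by linarith)
          rw [← (Equiv.subRight x).tsum_eq] at h4
          simp only [Equiv.subRight_apply] at h4
          have h5 : ∀ t : ℚ, t - x + (x + q) = t + q := fun t => by ring
          simp only [h5] at h4
          rw [h4, mul_zero]
      simp [h3]
  · -- closedness
    intro f hf0 hfs happ
    refine ⟨hf0, hfs, fun q hq => ?_⟩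
    by_contra hne
    have hpos : 0 < ‖∑' r : ℚ, f r * (φ (r + q) : ℂ)‖ := norm_pos_iff.mpr hne
    have hCw : 0 < C * w q := mul_pos hC (hw q)
    obtain ⟨g, ⟨hg0, hgs, hg⟩, hlt⟩ := happ (‖∑' r : ℚ, f r * (φ (r + q) : ℂ)‖ / (C * w q))
      (div_pos hpos hCw)
    have hfg0 : ∀ r : ℚ, r < 0 → (f - g) r = 0 := fun r hr => by simp [hf0 r hr, hg0 r hr]
    have hfgs : Summable (fun r : ℚ => ‖(f - g) r‖ * w r) := by
      refine Summable.of_nonneg_of_le (fun q => mul_nonneg (norm_nonneg _) (hw _).le)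
        (fun q => ?_) (hfs.add hgs)
      rw [← add_mul]
      exact mul_le_mul_of_nonneg_right (norm_sub_le _ _) (hw q).le
    have h1 : ∑' r : ℚ, f r * (φ (r + q) : ℂ) = ∑' r : ℚ, (f - g) r * (φ (r + q) : ℂ) := by
      simp only [Pi.sub_apply, sub_mul]
      rw [(hpair f hf0 hfs q hq).tsum_sub (hpair g hg0 hgs q hq), hg q hq, sub_zero]
    have h2 : ‖∑' r : ℚ, (f - g) r * (φ (r + q) : ℂ)‖ ≤
        ∑' r : ℚ, (C * w q) * (‖(f - g) r‖ * w r) :=
      tsum_of_norm_bounded (hfgs.mul_left (C * w q)).hasSum (hbd _ hfg0 q hq)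
    rw [tsum_mul_left] at h2
    rw [lt_div_iff₀ hCw] at hlt
    rw [h1] at hlt
    simp only [Pi.sub_apply] at h2 hlt
    linarith

end Pool.Agent.S05488
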