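import Pool.Statements.S05513
import Pool.Agent.H86R3.BetaC
import Pool.Agent.H51R3.CB.Ext

set_option autoImplicit false
open scoped BoundedContinuousFunction
open Pool Pool.MP_997748_an

namespace Pool.Agent.S05513

/-- There exist bounded linear maps T from C([0,ω^ω]) into C(βN×βN) and P back with P∘T the identity, i.e. C(ω^ω) is isomorphic to a complemented subspace of C(βN×βN). -/
theorem result :
    ∃ (T : (↥(Set.Iic (Ordinal.omega0.{0} ^ Ordinal.omega0.{0})) →ᵇ ℝ) →L[ℝ]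
            (StoneCech ℕ × StoneCech ℕ →ᵇ ℝ))
      (P : (StoneCech ℕ × StoneCech ℕ →ᵇ ℝ) →L[ℝ]
            (↥(Set.Iic (Ordinal.omega0.{0} ^ Ordinal.omega0.{0})) →ᵇ ℝ)),
      P.comp T = ContinuousLinearMap.id ℝ _ := by
  let L1 := ContinuousMap.linearIsometryBoundedOfCompact
    (↥(Set.Iic (Ordinal.omega0.{0} ^ Ordinal.omega0.{0}))) ℝ ℝ
  let L2 := ContinuousMap.linearIsometryBoundedOfCompact (StoneCech ℕ × StoneCech ℕ) ℝ ℝ
  let S := Pool.Agent.H86R3.Beta.S
  let T := Pool.Agent.H86R3.Beta.T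
  refine ⟨(L2.toContinuousLinearEquiv : _ →L[ℝ] _).comp (S.comp (H51R3.CB.U.comp
      (L1.symm.toContinuousLinearEquiv : _ →L[ℝ] _))),
    (L1.toContinuousLinearEquiv : _ →L[ℝ] _).comp (H51R3.CB.V.comp (T.comp
      (L2.symm.toContinuousLinearEquiv : _ →L[ℝ] _))), ?_⟩
  refine ContinuousLinearMap.ext fun f => ?_
  change L1 (H51R3.CB.V (T (L2.symm (L2 (S (H51R3.CB.U (L1.symm f))))))) = f
  rw [L2.symm_apply_apply]
  have h1 : T (S (H51R3.CB.U (L1.symm f))) = H51R3.CB.U (L1.symm f) :=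
    Pool.Agent.H86R3.Beta.TS _
  rw [h1, H51R3.CB.VU, L1.apply_symm_apply]

end Pool.Agent.S05513
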