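import Pool.Statements.S05519
import Pool.Agent.H18R3.Blow

set_option autoImplicit false
open Filter Topology
open Pool Pool.MP_9a8732_an

namespace Pool.Agent.S05519

/-- For a planar Lipschitz domain D with 0 on its boundary and u in C^{1,1}_loc(B_2) solving Δu = x1·1_D weakly and vanishing off the closure of D, any two locally uniform limits of u(rx)/r^3 along sequences r→0 coincide. -/
theorem result :
  ∀ (D : Set (EuclideanSpace ℝ (Fin 2))) (u : EuclideanSpace ℝ (Fin 2) → ℝ),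
    IsOpen D → IsConnected D →
    (∀ p ∈ frontier D, ∃ ρ : ℝ, 0 < ρ ∧
      ∃ R : EuclideanSpace ℝ (Fin 2) ≃ₗᵢ[ℝ] EuclideanSpace ℝ (Fin 2),
      ∃ g : ℝ → ℝ, ∃ L : NNReal, LipschitzWith L g ∧
        ∀ x ∈ Metric.ball p ρ,
          (x ∈ D ↔ g (EuclideanSpace.proj (0 : Fin 2) (R (x - p)))
                      < EuclideanSpace.proj (1 : Fin 2) (R (x - p)))) →
    (0 : EuclideanSpace ℝ (Fin 2)) ∈ frontier D →
    ContDiffOn ℝ 1 u (Metric.ball 0 2) →
    (∀ ρ : ℝ, ρ < 2 → ∃ L : NNReal,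
      LipschitzOnWith L (fderiv ℝ u) (Metric.closedBall 0 ρ)) →
    (∀ φ : EuclideanSpace ℝ (Fin 2) → ℝ, ContDiff ℝ 1 φ → HasCompactSupport φ →
      tsupport φ ⊆ Metric.ball 0 2 →
      ∫ x, (∑ i : Fin 2, fderiv ℝ u x (EuclideanSpace.single i (1 : ℝ))
              * fderiv ℝ φ x (EuclideanSpace.single i (1 : ℝ)))
        = - ∫ x, EuclideanSpace.proj (0 : Fin 2) x
              * D.indicator (fun _ => (1 : ℝ)) x * φ x) →
    (∀ x ∈ Metric.ball (0 : EuclideanSpace ℝ (Fin 2)) 2, x ∉ closure D → u x = 0) →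
    ∀ (r s : ℕ → ℝ) (v w : EuclideanSpace ℝ (Fin 2) → ℝ),
      (∀ n, 0 < r n) → (∀ n, 0 < s n) →
      Tendsto r atTop (𝓝 0) → Tendsto s atTop (𝓝 0) →
      TendstoLocallyUniformly (fun n x => u (r n • x) / r n ^ 3) v atTop →
      TendstoLocallyUniformly (fun n x => u (s n • x) / s n ^ 3) w atTop →
      v = w := by
  intro D u hD _ hgr h0 hu hLip hw hout r s v w hr hs hr0 hs0 hv hv'
  obtain ⟨ρ, hρ, R, f, L, hf, hgraph⟩ := hgr 0 h0
  have hgraph' : ∀ x ∈ Metric.ball (0 : EuclideanSpace ℝ (Fin 2)) ρ,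
      (x ∈ D ↔ f ((R x) 0) < (R x) 1) := by
    intro x hx
    have h1 := hgraph x hx
    rw [sub_zero] at h1
    exact h1
  have hw2 := Pool.Agent.H18R3.weak_conv (D := D) hu (fun φ h1 h2 h3 => by
    have h4 := hw φ h1 h2 h3
    simp only [Fin.sum_univ_two] at h4
    exact h4)
  obtain ⟨ρ', hρ', g, hg, -, hgg⟩ := Pool.Agent.H18R3.fb_regular D u hD h0 hρ R hf hgraph'
    (hu.differentiableOn one_ne_zero) hLip hw2 hout
  have hgd : HasDerivAt g (deriv g 0) 0 := (hg.differentiable one_ne_zero 0).hasDerivAt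
  have hRc : ∀ i : Fin 2, Continuous (fun x : EuclideanSpace ℝ (Fin 2) => (R x) i) := fun i =>
    (Pool.Agent.Helper546.contDiff_coord i).continuous.comp R.continuous
  have hR0 : ∀ i : Fin 2, (R 0) i = 0 := by intro i; simp
  have hg0 : g 0 = 0 := by
    have h0D : (0 : EuclideanSpace ℝ (Fin 2)) ∉ D := by
      have := h0.2
      rwa [hD.interior_eq] at this
    have h1 : ¬ g 0 < 0 := by
      intro h
      exact h0D ((hgg 0 (Metric.mem_ball_self hρ')).2 (by rw [hR0, hR0]; exact h))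
    have h2 : ¬ 0 < g 0 := by
      intro h
      have hopen : IsOpen {x : EuclideanSpace ℝ (Fin 2) | (R x) 1 < g ((R x) 0)} :=
        isOpen_lt (hRc 1) (hg.continuous.comp (hRc 0))
      have hmem : (0 : EuclideanSpace ℝ (Fin 2)) ∈
          {x : EuclideanSpace ℝ (Fin 2) | (R x) 1 < g ((R x) 0)} ∩ Metric.ball 0 ρ' := by
        refine ⟨?_, Metric.mem_ball_self hρ'⟩
        show (R 0) 1 < g ((R 0) 0)
        rw [hR0, hR0]; exact h
      have hcl := h0.1
      rw [mem_closure_iff] at hcl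
      obtain ⟨x, hx1, hx2⟩ := hcl _ (hopen.inter Metric.isOpen_ball) hmem
      have := (hgg x hx1.2).1 hx2
      have h3 : (R x) 1 < g ((R x) 0) := hx1.1
      linarith
    push Not at h1 h2
    linarith
  exact Pool.Agent.H18R3.blow_unique hD hu.continuousOn hw2 hout R hg.continuous hgd hg0 hρ' hgg
    r s v w hr hs hr0 hs0 hv hv'

end Pool.Agent.S05519
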