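import Pool.Statements.S05534
import Pool.Agent.H784R3.Conv

set_option autoImplicit false
open Pool Pool.MP_9c3653_an

namespace Pool.Agent.S05534

/-- The negation of the preceding statement: In every real Banach space, each maximally monotone operator with convex domain is of type (FPV). That is, for any open convex U meeting its domain, any pair (x,f) with x in U that is monotonically related to the graph over U already lies in the graph. -/
theorem result :
    ¬ (∀ (X : Type) [NormedAddCommGroup X] [NormedSpace ℝ X] [CompleteSpace X]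
      (A : X → Set (X →L[ℝ] ℝ)),
      (∀ x y : X, ∀ f ∈ A x, ∀ g ∈ A y, 0 ≤ (f - g) (x - y)) →
      (∀ (x : X) (f : X →L[ℝ] ℝ),
          (∀ y : X, ∀ g ∈ A y, 0 ≤ (f - g) (x - y)) → f ∈ A x) →
      Convex ℝ {x : X | (A x).Nonempty} →
      ∀ U : Set X, IsOpen U → Convex ℝ U →
        (U ∩ {x : X | (A x).Nonempty}).Nonempty →
        ∀ x ∈ U, ∀ f : X →L[ℝ] ℝ,
          (∀ y ∈ U, ∀ g ∈ A y, 0 ≤ (f - g) (x - y)) → f ∈ A x) := by
  intro H
  obtain ⟨Z, Φ, h1, h2, h3⟩ := H784R3.B3_bad
  apply h2
  refine H H784R3.X2 H784R3.B3 H784R3.B3_mono H784R3.B3_max H784R3.B3_dom_convex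
    {p : H784R3.X2 | 1 < p.1.2} H784R3.half_open H784R3.half_convex H784R3.half_meets Z ?_ Φ ?_
  · change 1 < Z.1.2
    rw [h1]; norm_num
  · intro y hy g hg
    exact h3 y hy g hg

end Pool.Agent.S05534
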