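import Pool.Statements.S05541
import Pool.Agent.H130R3.PNI

set_option autoImplicit false
open scoped ENNReal Topology
open Filter
open Pool Pool.MP_9ca510_an

namespace Pool.Agent.S05541

open Pool.Agent.H130R3.PNI

/-- For any nonempty family of nontrivial complex Banach spaces and every k ≥ 1, the order-k polynomial numerical index of their c0-sum and of their ell-infinity-sum both equal the infimum of the order-k polynomial numerical indices of the summands. -/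
theorem result :
    ∀ (Λ : Type) [Nonempty Λ] (X : Λ → Type) [∀ i, NormedAddCommGroup (X i)]
      [∀ i, NormedSpace ℂ (X i)] [∀ i, CompleteSpace (X i)] [∀ i, Nontrivial (X i)]
      (C : Submodule ℂ (lp X ∞)),
      (∀ f : lp X ∞, f ∈ C ↔ Tendsto (fun i => ‖f i‖) cofinite (𝓝 0)) →
      ∀ k : ℕ, 1 ≤ k →
        (sInf {r : ℝ | ∃ A : ContinuousMultilinearMap ℂ (fun _ : Fin k => C) C,
            sSup {s : ℝ | ∃ x : C, ‖x‖ ≤ 1 ∧ s = ‖A (fun _ => x)‖} = 1 ∧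
            r = sSup {s : ℝ | ∃ (x : C) (φ : C →L[ℂ] ℂ), ‖x‖ = 1 ∧ ‖φ‖ = 1 ∧ φ x = 1 ∧
                  s = ‖φ (A (fun _ => x))‖}}
          = ⨅ i, sInf {r : ℝ | ∃ A : ContinuousMultilinearMap ℂ (fun _ : Fin k => X i) (X i),
            sSup {s : ℝ | ∃ x : X i, ‖x‖ ≤ 1 ∧ s = ‖A (fun _ => x)‖} = 1 ∧
            r = sSup {s : ℝ | ∃ (x : X i) (φ : X i →L[ℂ] ℂ), ‖x‖ = 1 ∧ ‖φ‖ = 1 ∧ φ x = 1 ∧
                  s = ‖φ (A (fun _ => x))‖}}) ∧
        (sInf {r : ℝ | ∃ A : ContinuousMultilinearMap ℂ (fun _ : Fin k => lp X ∞) (lp X ∞),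
            sSup {s : ℝ | ∃ x : lp X ∞, ‖x‖ ≤ 1 ∧ s = ‖A (fun _ => x)‖} = 1 ∧
            r = sSup {s : ℝ | ∃ (x : lp X ∞) (φ : lp X ∞ →L[ℂ] ℂ), ‖x‖ = 1 ∧ ‖φ‖ = 1 ∧
                  φ x = 1 ∧ s = ‖φ (A (fun _ => x))‖}}
          = ⨅ i, sInf {r : ℝ | ∃ A : ContinuousMultilinearMap ℂ (fun _ : Fin k => X i) (X i),
            sSup {s : ℝ | ∃ x : X i, ‖x‖ ≤ 1 ∧ s = ‖A (fun _ => x)‖} = 1 ∧
            r = sSup {s : ℝ | ∃ (x : X i) (φ : X i →L[ℂ] ℂ), ‖x‖ = 1 ∧ ‖φ‖ = 1 ∧ φ x = 1 ∧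
                  s = ‖φ (A (fun _ => x))‖}}) := by
  classical
  intro Λ _ X _ _ _ _ C hC k _
  -- the structure on `lp X ∞`
  let J : ∀ i, X i →L[ℂ] lp X ∞ := fun i => lp.singleContinuousLinearMap ℂ X ∞ i
  let π : ∀ i, lp X ∞ →L[ℂ] X i := fun i => lp.evalCLM ℂ X ∞ i
  have hJ : ∀ i w, J i w = lp.single ∞ i w := fun i w => rfl
  have hπ : ∀ i f, π i f = f i := fun i f => rfl
  have hS : SupSum J π := by
    refine ⟨fun i w => ?_, fun i j hj w => ?_, fun z r hr hz => ?_, fun i z => ?_⟩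
    · rw [hJ, hπ, lp.single_apply_self]
    · rw [hJ, hπ, lp.single_apply_ne _ _ _ hj]
    · exact lp.norm_le_of_forall_le hr hz
    · exact lp.norm_apply_le_norm ENNReal.top_ne_zero z i
  have hmem : ∀ i w, J i w ∈ C := by
    intro i w
    rw [hC]
    refine tendsto_nhds_of_eventually_eq ?_
    refine (Set.finite_singleton i).eventually_cofinite_notMem.mono fun j hj => ?_
    have hj' : j ≠ i := fun h => hj (by rw [h]; exact Set.mem_singleton i)
    rw [hJ, lp.single_apply_ne _ _ _ hj', norm_zero]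
  let J' : ∀ i, X i →L[ℂ] C := fun i => (J i).codRestrict C (hmem i)
  let π' : ∀ i, C →L[ℂ] X i := fun i => (π i).comp C.subtypeL
  have hS' : SupSum J' π' := by
    refine ⟨fun i w => hS.pi_J i w, fun i j hj w => hS.pi_J_ne i j hj w, fun z r hr hz => ?_,
      fun i z => hS.norm_pi i z.1⟩
    exact hS.norm_le z.1 r hr hz
  exact ⟨main_general hS' k, main_general hS k⟩

end Pool.Agent.S05541
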