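import Pool.Statements.S05544
import Pool.Agent.H784R3.Lin

set_option autoImplicit false
open Pool Pool.MP_9cd69f_an

namespace Pool.Agent.S05544

/-- The negation of the preceding statement: On a real Banach space, take A a maximally monotone operator into the dual whose graph is a linear subspace, and B maximally monotone, with the positive cone of dom A minus dom B equal to the whole space; then A+B is maximally monotone. -/
theorem result :
    ¬ (∀ (X : Type) [NormedAddCommGroup X] [NormedSpace ℝ X] [CompleteSpace X]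
    (A B : X → Set (X →L[ℝ] ℝ)),
    (∃ S : Submodule ℝ (X × (X →L[ℝ] ℝ)), ∀ (x : X) (f : X →L[ℝ] ℝ), f ∈ A x ↔ (x, f) ∈ S) →
    ((∀ (x y : X) (f g : X →L[ℝ] ℝ), f ∈ A x → g ∈ A y → 0 ≤ (f - g) (x - y)) ∧
      (∀ (x : X) (f : X →L[ℝ] ℝ),
        (∀ (y : X) (g : X →L[ℝ] ℝ), g ∈ A y → 0 ≤ (f - g) (x - y)) → f ∈ A x)) →
    ((∀ (x y : X) (f g : X →L[ℝ] ℝ), f ∈ B x → g ∈ B y → 0 ≤ (f - g) (x - y)) ∧
      (∀ (x : X) (f : X →L[ℝ] ℝ),
        (∀ (y : X) (g : X →L[ℝ] ℝ), g ∈ B y → 0 ≤ (f - g) (x - y)) → f ∈ B x)) →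
    (∀ z : X, ∃ t : ℝ, 0 < t ∧ ∃ a b : X, (A a).Nonempty ∧ (B b).Nonempty ∧ z = t • (a - b)) →
    ((∀ (x y : X) (f g : X →L[ℝ] ℝ),
        (∃ f₁ ∈ A x, ∃ f₂ ∈ B x, f = f₁ + f₂) →
        (∃ g₁ ∈ A y, ∃ g₂ ∈ B y, g = g₁ + g₂) → 0 ≤ (f - g) (x - y)) ∧
      (∀ (x : X) (f : X →L[ℝ] ℝ),
        (∀ (y : X) (g : X →L[ℝ] ℝ), (∃ g₁ ∈ A y, ∃ g₂ ∈ B y, g = g₁ + g₂) →
          0 ≤ (f - g) (x - y)) →
        ∃ f₁ ∈ A x, ∃ f₂ ∈ B x, f = f₁ + f₂))) := by
  intro H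
  obtain ⟨z, w, hz, h⟩ := H784R3.exists_bad
  have hH := H H784R3.X1 H784R3.LS H784R3.B2
    ⟨{ carrier := {p | p.2 = H784R3.LL p.1}
       zero_mem' := by
         change (0 : H784R3.X1 →L[ℝ] ℝ) = H784R3.LL 0
         rw [map_zero]
       add_mem' := by
         intro p q hp hq
         have hp' : p.2 = H784R3.LL p.1 := hp
         have hq' : q.2 = H784R3.LL q.1 := hq
         change p.2 + q.2 = H784R3.LL (p.1 + q.1)
         rw [map_add, hp', hq']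
       smul_mem' := by
         intro c p hp
         have hp' : p.2 = H784R3.LL p.1 := hp
         change c • p.2 = H784R3.LL (c • p.1)
         rw [map_smul, hp'] }, fun x f => Iff.rfl⟩
    ⟨H784R3.LS_mono, H784R3.LS_max⟩ ⟨H784R3.B2_mono, H784R3.B2_max⟩
    (by
      intro v
      obtain ⟨x, f, hf, -⟩ := H784R3.B2_exists (z := 2) (by norm_num)
      refine ⟨1, one_pos, v + x, x, ⟨H784R3.LL (v + x), rfl⟩, ⟨f, hf⟩, ?_⟩
      rw [one_smul, add_sub_cancel_right])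
  obtain ⟨f₁, -, f₂, hf₂, -⟩ := hH.2 z w (fun y g hg => by
    obtain ⟨g₁, hg₁, g₂, hg₂, rfl⟩ := hg
    have hb' : g₁ = H784R3.LL y := hg₁
    subst hb'
    exact h y g₂ hg₂)
  exact H784R3.B2_empty (by rw [hz]; norm_num) f₂ hf₂

end Pool.Agent.S05544
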