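import Pool.Statements.S05624
-- import your own Pool.Agent.* helpers here
import Pool.Agent.H82R3.MZ.Sum
import Pool.Agent.H82R3.MZ.TSide

set_option autoImplicit false
open Finset
open Pool Pool.MP_a13136_an

namespace Pool.Agent.S05624

open Pool.Agent.H82R3

/-- the polynomial `3 + 12√2 X - 2 X²` -/
noncomputable def P0 : Polynomial ℂ :=
  Polynomial.C (-2) * Polynomial.X ^ 2 + Polynomial.C (12 * ((MZ.r : ℝ) : ℂ)) * Polynomial.X + Polynomial.C 3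

lemma P0_natDegree : P0.natDegree = 2 := by
  unfold P0
  exact Polynomial.natDegree_quadratic (by norm_num)

lemma P0_coeff0 : P0.coeff 0 = 3 := by
  unfold P0
  simp

lemma P0_coeff1 : P0.coeff 1 = 12 * ((MZ.r : ℝ) : ℂ) := by
  unfold P0
  simp [Polynomial.coeff_X_pow, Polynomial.coeff_C]

lemma P0_coeff2 : P0.coeff 2 = -2 := by
  unfold P0
  simp [Polynomial.coeff_X_pow, Polynomial.coeff_X, Polynomial.coeff_C]

lemma P0_coeff3 (k : ℕ) : P0.coeff (k + 3) = 0 :=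
  Polynomial.coeff_eq_zero_of_natDegree_lt (by rw [P0_natDegree]; omega)

/-- shifted sequence -/
def zz (y : ℕ → ℂ) : ℕ → ℂ
  | 0 => 0
  | 1 => 0
  | n + 2 => y n

lemma conv (y : ℕ → ℂ) (n : ℕ) : ∑ k ∈ Finset.range (n + 1), P0.coeff k * y (n - k) =
    3 * zz y (n + 2) + 12 * ((MZ.r : ℝ) : ℂ) * zz y (n + 1) - 2 * zz y n := by
  rcases n with _ | _ | m
  · rw [Finset.sum_range_succ', Finset.sum_range_zero, P0_coeff0]
    simp [zz]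
  · rw [Finset.sum_range_succ', Finset.sum_range_succ', Finset.sum_range_zero, P0_coeff0, P0_coeff1]
    simp [zz]
    ring
  · rw [Finset.sum_range_succ', Finset.sum_range_succ', Finset.sum_range_succ', P0_coeff0, P0_coeff1, P0_coeff2]
    rw [Finset.sum_eq_zero (fun k _ => by rw [P0_coeff3, zero_mul])]
    simp [zz]
    ring

lemma N_eq {ε : ℝ} (u : ℂ) : MZ.N ε u = ‖u‖ ^ (2 - 2 * ε) := by
  unfold MZ.N
  rw [← Real.rpow_natCast, ← Real.rpow_mul (norm_nonneg u)]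
  congr 1
  push_cast; ring

lemma N_scale {ε : ℝ} (u : ℂ) : MZ.N ε u = (325 : ℝ) ^ (1 - ε) * MZ.N ε (u / ((MZ.w : ℝ) : ℂ)) := by
  unfold MZ.N
  rw [← Real.mul_rpow (by norm_num) (by positivity)]
  congr 1
  rw [norm_div, div_pow, Complex.norm_real, Real.norm_eq_abs, sq_abs, MZ.w_sq]
  field_simp

lemma N_zero {ε : ℝ} (hε : ε ≤ 1 / 2) : MZ.N ε 0 = 0 := by
  unfold MZ.N
  rw [norm_zero, zero_pow (by norm_num), Real.zero_rpow (by linarith)]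

lemma matA (s : ℂ) : (Matrix.mulVec (Polynomial.aeval (s • !![(1:ℂ), -1; 1, 1]) P0) ![18, 1]) 0 =
    54 + 204 * ((MZ.r : ℝ) : ℂ) * s + 4 * s ^ 2 := by
  unfold P0
  simp [Matrix.mulVec, dotProduct, Fin.sum_univ_two, pow_two, Matrix.mul_apply, Algebra.algebraMap_eq_smul_one,
    Matrix.one_apply, Matrix.smul_apply, Matrix.add_apply]
  ring

lemma matB (s : ℂ) : (Matrix.mulVec (Polynomial.aeval (s • !![(1:ℂ), -1; 1, 1]) P0) ![18, 1]) 1 =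
    3 + 228 * ((MZ.r : ℝ) : ℂ) * s - 72 * s ^ 2 := by
  unfold P0
  simp [Matrix.mulVec, dotProduct, Fin.sum_univ_two, pow_two, Matrix.mul_apply, Algebra.algebraMap_eq_smul_one,
    Matrix.one_apply, Matrix.smul_apply, Matrix.add_apply]
  ring

/-- The negation of the preceding statement: For every 1<p<2 and every complex polynomial P, the norm of P(T) on 2-dimensional complex l^p, with T = 2^(-1/p)[[1,-1],[1,1]], is at most the norm of P(S) on l^p, where S is the shift (tested on finitely supported sequences). -/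
theorem result :
    ¬ (∀ p : ℝ, 1 < p → p < 2 → ∀ P : Polynomial ℂ, ∀ r : ℝ, 0 ≤ r → ∀ x : Fin 2 → ℂ,
    r ^ p * (‖x 0‖ ^ p + ‖x 1‖ ^ p) <
      ‖(Matrix.mulVec (Polynomial.aeval ((((2:ℝ) ^ (-1 / p) : ℝ) : ℂ) • !![(1:ℂ), -1; 1, 1]) P) x) 0‖ ^ p
      + ‖(Matrix.mulVec (Polynomial.aeval ((((2:ℝ) ^ (-1 / p) : ℝ) : ℂ) • !![(1:ℂ), -1; 1, 1]) P) x) 1‖ ^ p →
    ∃ N : ℕ, ∃ y : ℕ → ℂ, (∀ j : ℕ, N ≤ j → y j = 0) ∧
      r ^ p * (∑ j ∈ Finset.range N, ‖y j‖ ^ p) <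
        ∑ n ∈ Finset.range (N + P.natDegree + 1),
          ‖∑ k ∈ Finset.range (n + 1), P.coeff k * y (n - k)‖ ^ p) := by
  intro H
  obtain ⟨ε, hε0, hε1, hΘ⟩ := MZ.exists_eps
  have hε2 : ε ≤ 1 / 4 := hε1.trans (by norm_num)
  set C : ℝ := (325 : ℝ) ^ (1 - ε) * (1 + 48 / 625 * ε) with hC
  have hC0 : 0 ≤ C := by positivity
  set p : ℝ := 2 - 2 * ε with hp
  have hp0 : p ≠ 0 := by rw [hp]; intro h; linarith
  have hrp : (C ^ (1 / p)) ^ p = C := by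
    rw [← Real.rpow_mul hC0, one_div, inv_mul_cancel₀ hp0, Real.rpow_one]
  have H1 := H p (by rw [hp]; linarith) (by rw [hp]; linarith) P0 (C ^ (1 / p)) (Real.rpow_nonneg hC0 _) ![18, 1]
  rw [hrp, matA, matB] at H1
  have hA : (54 + 204 * ((MZ.r : ℝ) : ℂ) * (((2:ℝ) ^ (-1 / p) : ℝ) : ℂ) + 4 * (((2:ℝ) ^ (-1 / p) : ℝ) : ℂ) ^ 2) =
      ((MZ.fA ε : ℝ) : ℂ) := by
    unfold MZ.fA MZ.ρ MZ.r
    push_cast; rfl
  have hB : (3 + 228 * ((MZ.r : ℝ) : ℂ) * (((2:ℝ) ^ (-1 / p) : ℝ) : ℂ) - 72 * (((2:ℝ) ^ (-1 / p) : ℝ) : ℂ) ^ 2) =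
      ((MZ.fB ε : ℝ) : ℂ) := by
    unfold MZ.fB MZ.ρ MZ.r
    push_cast; rfl
  rw [hA, hB, ← N_eq, ← N_eq, ← N_eq, ← N_eq] at H1
  have e1 : MZ.N ε ((MZ.fA ε : ℝ) : ℂ) = (MZ.fA ε ^ 2) ^ (1 - ε) := by
    unfold MZ.N; rw [Complex.norm_real, Real.norm_eq_abs, sq_abs]
  have e2 : MZ.N ε ((MZ.fB ε : ℝ) : ℂ) = (MZ.fB ε ^ 2) ^ (1 - ε) := by
    unfold MZ.N; rw [Complex.norm_real, Real.norm_eq_abs, sq_abs]
  have e3 : MZ.N ε ((![18, 1] : Fin 2 → ℂ) 0) = (324 : ℝ) ^ (1 - ε) := by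
    unfold MZ.N; simp; norm_num
  have e4 : MZ.N ε ((![18, 1] : Fin 2 → ℂ) 1) = 1 := by
    unfold MZ.N; simp
  rw [e1, e2, e3, e4] at H1
  obtain ⟨N, y, hy, hlt⟩ := H1 (by
    unfold MZ.Θ at hΘ
    rw [hC]
    linarith)
  rw [P0_natDegree] at hlt
  have hcs := MZ.complex_sum hε0.le hε1 (zz y) (N + 2 + 1) rfl rfl (hy (N + 1) (by omega)) (hy (N + 2) (by omega))
  have h1 : ∑ n ∈ Finset.range (N + 2 + 1), ‖∑ k ∈ Finset.range (n + 1), P0.coeff k * y (n - k)‖ ^ p =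
      (325 : ℝ) ^ (1 - ε) * ∑ n ∈ Finset.range (N + 2 + 1),
        MZ.N ε ((3 * zz y (n + 2) + 12 * ((MZ.r : ℝ) : ℂ) * zz y (n + 1) - 2 * zz y n) / ((MZ.w : ℝ) : ℂ)) := by
    rw [Finset.mul_sum]
    apply Finset.sum_congr rfl
    intro n _
    rw [conv, ← N_eq, N_scale]
  have h2 : ∑ n ∈ Finset.range (N + 2 + 1), MZ.N ε (zz y (n + 2)) = ∑ j ∈ Finset.range N, ‖y j‖ ^ p := by
    rw [add_assoc, Finset.sum_range_add, Finset.sum_eq_zero (s := Finset.range (2 + 1)), add_zero]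
    · apply Finset.sum_congr rfl
      intro n _
      rw [← N_eq]; rfl
    · intro k _
      show MZ.N ε (y (N + k)) = 0
      rw [hy (N + k) (by omega), N_zero (by linarith)]
  rw [h1] at hlt
  rw [h2] at hcs
  have h3 : (325 : ℝ) ^ (1 - ε) * ∑ n ∈ Finset.range (N + 2 + 1),
        MZ.N ε ((3 * zz y (n + 2) + 12 * ((MZ.r : ℝ) : ℂ) * zz y (n + 1) - 2 * zz y n) / ((MZ.w : ℝ) : ℂ)) ≤
      (325 : ℝ) ^ (1 - ε) * ((1 + 48 / 625 * ε) * ∑ j ∈ Finset.range N, ‖y j‖ ^ p) :=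
    mul_le_mul_of_nonneg_left hcs (by positivity)
  rw [hC] at hlt
  have h4 : (325 : ℝ) ^ (1 - ε) * ((1 + 48 / 625 * ε) * ∑ j ∈ Finset.range N, ‖y j‖ ^ p) =
    (325 : ℝ) ^ (1 - ε) * (1 + 48 / 625 * ε) * ∑ j ∈ Finset.range N, ‖y j‖ ^ p := by ring
  linarith

end Pool.Agent.S05624
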