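import Pool.Statements.S05625
import Pool.Agent.H819R3.NR4

set_option autoImplicit false
open Pool Pool.MP_a16150_an

namespace Pool.Agent.S05625

open Pool.Agent.H819R3.NR

attribute [local irreducible] P e m

/-- block recursion for base `r` digits -/
lemma block_eq (r : ℕ) (hr : 2 ≤ r) (y : ℝ) (n : ℕ) (k : ℕ) (w : ℕ → ℤ)
    (h : ∀ i : ℕ, i < k → ⌊y * (r : ℝ) ^ (n + i + 1)⌋ % (r : ℤ) = w i) :
    ⌊y * (r : ℝ) ^ (n + k)⌋ % (r : ℤ) ^ k = ∑ i ∈ Finset.range k, w i * (r : ℤ) ^ (k - 1 - i) := by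
  have hrZ : (2 : ℤ) ≤ r := by exact_mod_cast hr
  have hrR : (2 : ℝ) ≤ r := by exact_mod_cast hr
  induction k with
  | zero => simp
  | succ k ih =>
    have ih' := ih (fun i hi => h i (by omega))
    have hk := h k (by omega)
    set z : ℝ := y * (r : ℝ) ^ (n + k) with hz
    have e : y * (r : ℝ) ^ (n + k + 1) = z * r := by rw [hz, pow_succ]; ring
    rw [e] at hk
    have e' : y * (r : ℝ) ^ (n + (k + 1)) = z * r := by rw [← e]; congr 1
    rw [e']
    have h2 : r * ⌊z⌋ ≤ ⌊z * r⌋ := by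
      rw [Int.le_floor]; push_cast
      have := Int.floor_le z
      nlinarith
    have h3 : ⌊z * r⌋ < r * ⌊z⌋ + r := by
      rw [Int.floor_lt]; push_cast
      have := Int.lt_floor_add_one z
      nlinarith
    have h1 : ⌊z * r⌋ = r * ⌊z⌋ + w k := by
      have h4 : ⌊z * r⌋ = (⌊z * r⌋ - r * ⌊z⌋) + r * ⌊z⌋ := by ring
      have h5 : ⌊z * r⌋ % r = ⌊z * r⌋ - r * ⌊z⌋ := by
        rw [h4, Int.add_mul_emod_self_left]
        have h6 : (⌊z * r⌋ - r * ⌊z⌋) % (r : ℤ) = ⌊z * r⌋ - r * ⌊z⌋ :=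
          Int.emod_eq_of_lt (by linarith) (by linarith)
        rw [h6]
        ring
      rw [← hk, h5]
      ring
    have hw0 : 0 ≤ w k := by linarith
    have hw1 : w k < r := by linarith
    have hmod : ⌊z * r⌋ % (r : ℤ) ^ (k + 1) = r * (⌊z⌋ % (r : ℤ) ^ k) + w k := by
      rw [h1]
      have hd := Int.emod_add_mul_ediv ⌊z⌋ ((r : ℤ) ^ k)
      have hlt := Int.emod_lt_of_pos ⌊z⌋ (show (0 : ℤ) < (r : ℤ) ^ k by positivity)
      have hnn := Int.emod_nonneg ⌊z⌋ (show (r : ℤ) ^ k ≠ 0 by positivity)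
      have e3 : r * ⌊z⌋ + w k = (r * (⌊z⌋ % (r : ℤ) ^ k) + w k) +
          (r : ℤ) ^ (k + 1) * (⌊z⌋ / (r : ℤ) ^ k) := by
        rw [pow_succ]; linear_combination (-(r : ℤ)) * hd
      rw [e3, Int.add_mul_emod_self_left]
      apply Int.emod_eq_of_lt
      · positivity
      · rw [pow_succ]
        have h7 : ⌊z⌋ % (r : ℤ) ^ k + 1 ≤ (r : ℤ) ^ k := hlt
        have h8 := mul_le_mul_of_nonneg_left h7 (by linarith : (0 : ℤ) ≤ r)
        linarith
    rw [hmod, ih', Finset.sum_range_succ]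
    have e4 : k + 1 - 1 - k = 0 := by omega
    rw [e4, pow_zero, mul_one, Finset.mul_sum]
    congr 1
    apply Finset.sum_congr rfl
    intro i hi
    rw [Finset.mem_range] at hi
    have e5 : k + 1 - 1 - i = (k - 1 - i) + 1 := by omega
    rw [e5, pow_succ]
    ring

/-- the digit word at position `n` -/
noncomputable def dig (r : ℕ) (hr : 2 ≤ r) (y : ℝ) (k n : ℕ) : Fin k → Fin r := fun i =>
  ⟨(⌊y * (r : ℝ) ^ (n + i.val + 1)⌋ % (r : ℤ)).toNat, by
    have h1 := Int.emod_lt_of_pos ⌊y * (r : ℝ) ^ (n + i.val + 1)⌋ (show (0 : ℤ) < r by omega)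
    have h2 := Int.emod_nonneg ⌊y * (r : ℝ) ^ (n + i.val + 1)⌋ (show (r : ℤ) ≠ 0 by omega)
    omega⟩

lemma dig_iff (r : ℕ) (hr : 2 ≤ r) (y : ℝ) (k n : ℕ) (w : Fin k → Fin r) :
    (∀ i : Fin k, ⌊y * (r : ℝ) ^ (n + (i : ℕ) + 1)⌋ % (r : ℤ) = ((w i : ℕ) : ℤ)) ↔
      dig r hr y k n = w := by
  constructor
  · intro h
    funext i
    have := h i
    apply Fin.ext
    show (⌊y * (r : ℝ) ^ (n + i.val + 1)⌋ % (r : ℤ)).toNat = (w i : ℕ)
    rw [this]
    simp
  · rintro rfl i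
    have h2 := Int.emod_nonneg ⌊y * (r : ℝ) ^ (n + i.val + 1)⌋ (show (r : ℤ) ≠ 0 by omega)
    show _ = (((⌊y * (r : ℝ) ^ (n + i.val + 1)⌋ % (r : ℤ)).toNat : ℕ) : ℤ)
    rw [Int.toNat_of_nonneg h2]

lemma freq_sum (r : ℕ) (hr : 2 ≤ r) (y : ℝ) (k N : ℕ) (hN : 0 < N) :
    ∑ w : Fin k → Fin r,
      (((Finset.range N).filter (fun n => dig r hr y k n = w)).card : ℝ) / (N : ℝ) = 1 := by
  have hNR : (0 : ℝ) < (N : ℝ) := by exact_mod_cast hN
  rw [← Finset.sum_div, div_eq_one_iff_eq hNR.ne']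
  have := Finset.card_eq_sum_card_fiberwise (s := Finset.range N) (t := Finset.univ)
    (f := fun n => dig r hr y k n) (fun n _ => Finset.mem_coe.mpr (Finset.mem_univ _))
  rw [Finset.card_range] at this
  have h2 := congrArg (Nat.cast : ℕ → ℝ) this
  push_cast at h2
  exact h2.symm

lemma freq_le (r k : ℕ) (hr : 2 ≤ r) (ε : ℝ) (hε : 0 < ε) : ∃ N0 : ℕ, ∀ N : ℕ, N0 ≤ N →
    ∀ w : Fin k → Fin r,
    (((Finset.range N).filter (fun n => dig r hr (XX r)⁻¹ k n = w)).card : ℝ) / (N : ℝ) ≤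
      1 / (r : ℝ) ^ k + ε := by
  obtain ⟨N0, hN0⟩ := freq_upper r k hr ε hε
  refine ⟨N0, fun N hN w => ?_⟩
  set W : ℕ → ℤ := fun i => if hi : i < k then ((w ⟨i, hi⟩ : ℕ) : ℤ) else 0 with hW
  have h1 := hN0 N hN (∑ i ∈ Finset.range k, W i * (r : ℤ) ^ (k - 1 - i))
  have hsub : (Finset.range N).filter (fun n => dig r hr (XX r)⁻¹ k n = w) ⊆
      (Finset.range N).filter (fun n =>
      ⌊(r : ℝ) ^ n * (XX r)⁻¹ * ((r ^ k : ℕ) : ℝ)⌋ % ((r ^ k : ℕ) : ℤ) =
        ∑ i ∈ Finset.range k, W i * (r : ℤ) ^ (k - 1 - i)) := by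
    intro n hn
    rw [Finset.mem_filter] at hn ⊢
    refine ⟨hn.1, ?_⟩
    have h2 := block_eq r hr (XX r)⁻¹ n k W (by
      intro i hi
      have := (dig_iff r hr (XX r)⁻¹ k n w).mpr hn.2 ⟨i, hi⟩
      simp only [hW, dif_pos hi]
      exact this)
    rw [← h2]
    push_cast
    have e : (r : ℝ) ^ n * (XX r)⁻¹ * (r : ℝ) ^ k = (XX r)⁻¹ * (r : ℝ) ^ (n + k) := by
      rw [pow_add]; ring
    rw [e]
  have h3 := (Nat.cast_le (α := ℝ)).mpr (Finset.card_le_card hsub)
  have h4 := div_le_div_of_nonneg_right h3 (Nat.cast_nonneg (α := ℝ) N)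
  refine h4.trans (h1.trans ?_)
  push_cast
  exact le_refl _

lemma normal_part (r k : ℕ) (hr : 2 ≤ r) (w : Fin k → Fin r) :
    Filter.Tendsto
      (fun N : ℕ =>
        (((Finset.range N).filter (fun n => dig r hr (XX r)⁻¹ k n = w)).card : ℝ) / (N : ℝ))
      Filter.atTop (nhds (1 / (r : ℝ) ^ k)) := by
  rw [Metric.tendsto_atTop]
  intro δ hδ
  have hr0 : (0 : ℝ) < r := by positivity
  have hr1 : (2 : ℝ) ≤ r := by exact_mod_cast hr
  set R : ℝ := (r : ℝ) ^ k with hR
  have hR1 : (1 : ℝ) ≤ R := one_le_pow₀ (by linarith)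
  obtain ⟨N0, hN0⟩ := freq_le r k hr (δ / (2 * R)) (by positivity)
  refine ⟨N0 + 1, fun N hN => ?_⟩
  have hNpos : 0 < N := by omega
  have hb := hN0 N (by omega)
  set p : (Fin k → Fin r) → ℝ := fun w =>
    (((Finset.range N).filter (fun n => dig r hr (XX r)⁻¹ k n = w)).card : ℝ) / (N : ℝ) with hp
  have hsum : ∑ w, p w = 1 := freq_sum r hr (XX r)⁻¹ k N hNpos
  have hb' : ∀ w, p w ≤ 1 / R + δ / (2 * R) := hb
  have hsplit := Finset.add_sum_erase Finset.univ p (Finset.mem_univ w)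
  rw [hsum] at hsplit
  have hcard : ((Finset.univ.erase w).card : ℝ) = R - 1 := by
    rw [Finset.card_erase_of_mem (Finset.mem_univ w), Finset.card_univ, Fintype.card_fun,
      Fintype.card_fin, Fintype.card_fin, Nat.cast_sub (Nat.one_le_pow _ _ (by omega))]
    push_cast
    rfl
  have hle : ∑ w' ∈ Finset.univ.erase w, p w' ≤ (R - 1) * (1 / R + δ / (2 * R)) := by
    calc ∑ w' ∈ Finset.univ.erase w, p w' ≤ ∑ w' ∈ Finset.univ.erase w, (1 / R + δ / (2 * R)) :=
          Finset.sum_le_sum (fun w' _ => hb' w')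
      _ = _ := by rw [Finset.sum_const, nsmul_eq_mul, hcard]
  have e1 : (R - 1) * (1 / R + δ / (2 * R)) = 1 - 1 / R + δ / 2 - δ / (2 * R) := by
    field_simp
    ring
  have e2 : 0 < δ / (2 * R) := by positivity
  have e3 : δ / (2 * R) ≤ δ / 2 := by
    apply div_le_div_of_nonneg_left hδ.le (by norm_num)
    linarith
  have hw := hb' w
  rw [Real.dist_eq, abs_lt]
  show -δ < p w - 1 / R ∧ p w - 1 / R < δ
  constructor <;> linarith

lemma det_part (r : ℕ) (hr : 2 ≤ r) (ε : ℝ) (hε : 0 < ε) : ∃ N0 : ℕ, ∀ N : ℕ, N0 ≤ N →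
    ∑ w : Fin 1 → Fin r, Real.negMulLog
      ((((Finset.range N).filter (fun n => dig r hr (XX r) 1 n = w)).card : ℝ) / (N : ℝ)) < ε := by
  have hr0 : (0 : ℝ) < r := by positivity
  have hc0 : Filter.Tendsto Real.negMulLog (nhds 0) (nhds 0) := by
    have := Real.continuous_negMulLog.tendsto 0
    simpa using this
  have hc1 : Filter.Tendsto Real.negMulLog (nhds 1) (nhds 0) := by
    have := Real.continuous_negMulLog.tendsto 1
    simpa using this
  rw [Metric.tendsto_nhds_nhds] at hc0 hc1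
  obtain ⟨δ0, hδ0, hδ0'⟩ := hc0 (ε / r) (by positivity)
  obtain ⟨δ1, hδ1, hδ1'⟩ := hc1 (ε / r) (by positivity)
  obtain ⟨J, hJ⟩ := exists_nat_one_div_lt (show 0 < min δ0 δ1 / 2 by positivity)
  refine ⟨m r J + 1, fun N hN => ?_⟩
  have hNpos : 0 < N := by omega
  have hNR : (0 : ℝ) < (N : ℝ) := by exact_mod_cast hNpos
  have hcr := cnt_ratio r J N hr (by omega) hNpos
  have hq : (cnt r N : ℝ) / N < min δ0 δ1 := by
    have : (2 : ℝ) / (J + 1) = 2 * (1 / (J + 1)) := by ring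
    rw [this] at hcr
    linarith
  have hq0 := lt_of_lt_of_le hq (min_le_left _ _)
  have hq1 := lt_of_lt_of_le hq (min_le_right _ _)
  -- digit at position
  have hdig : ∀ n, ∀ w : Fin 1 → Fin r, dig r hr (XX r) 1 n = w →
      ⌊XX r * (r : ℝ) ^ (n + 1)⌋ % (r : ℤ) = ((w 0 : ℕ) : ℤ) := by
    intro n w h
    have := (dig_iff r hr (XX r) 1 n w).mpr h 0
    simpa using this
  have hdig2 : ∀ n, ⌊XX r * (r : ℝ) ^ (n + 1)⌋ % (r : ℤ) = (r : ℤ) - 1 →
      dig r hr (XX r) 1 n = fun _ => ⟨r - 1, by omega⟩ := by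
    intro n h
    rw [← dig_iff]
    intro i
    have hi : i = 0 := Subsingleton.elim _ _
    subst hi
    have e : (n + ((0 : Fin 1) : ℕ) + 1) = n + 1 := by simp
    rw [e, h]
    show (r : ℤ) - 1 = ((r - 1 : ℕ) : ℤ)
    omega
  set w0 : Fin 1 → Fin r := fun _ => ⟨r - 1, by omega⟩ with hw0
  have hbound : ∀ w : Fin 1 → Fin r, Real.negMulLog
      ((((Finset.range N).filter (fun n => dig r hr (XX r) 1 n = w)).card : ℝ) / (N : ℝ)) <
      ε / r := by
    intro w
    by_cases hw : w = w0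
    · subst hw
      have hcard := Finset.card_filter_add_card_filter_not (s := Finset.range N)
        (fun n => dig r hr (XX r) 1 n = w0)
      rw [Finset.card_range] at hcard
      have hcc : ((Finset.range N).filter (fun n => ¬ (dig r hr (XX r) 1 n = w0))).card ≤ cnt r N := by
        unfold cnt
        apply Finset.card_le_card
        intro n hn
        rw [Finset.mem_filter] at hn ⊢
        exact ⟨hn.1, fun h => hn.2 (hdig2 n h)⟩
      set c0 : ℕ := ((Finset.range N).filter (fun n => dig r hr (XX r) 1 n = w0)).card with hc0'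
      have h1 : N ≤ c0 + cnt r N := by omega
      have h2 : c0 ≤ N := by omega
      have h1R : (N : ℝ) ≤ c0 + cnt r N := by exact_mod_cast h1
      have h2R : (c0 : ℝ) ≤ N := by exact_mod_cast h2
      have h3 : (c0 : ℝ) / N ≤ 1 := by rw [div_le_one hNR]; exact h2R
      have h4 : 1 ≤ (c0 : ℝ) / N + cnt r N / N := by
        rw [← add_div, le_div_iff₀ hNR]
        linarith
      have hd := hδ1' (x := (c0 : ℝ) / N) (by
        rw [Real.dist_eq, abs_lt]
        constructor <;> linarith)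
      rw [Real.dist_eq, sub_zero] at hd
      exact (abs_lt.mp hd).2
    · have hcc : ((Finset.range N).filter (fun n => dig r hr (XX r) 1 n = w)).card ≤ cnt r N := by
        unfold cnt
        apply Finset.card_le_card
        intro n hn
        rw [Finset.mem_filter] at hn ⊢
        refine ⟨hn.1, fun h => hw ?_⟩
        rw [← hn.2]
        exact hdig2 n h
      have h1 : (((Finset.range N).filter (fun n => dig r hr (XX r) 1 n = w)).card : ℝ) / N ≤
          cnt r N / N := by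
        apply div_le_div_of_nonneg_right _ hNR.le
        exact_mod_cast hcc
      have h0 : 0 ≤ (((Finset.range N).filter (fun n => dig r hr (XX r) 1 n = w)).card : ℝ) / N := by
        positivity
      have hd := hδ0' (x := (((Finset.range N).filter
          (fun n => dig r hr (XX r) 1 n = w)).card : ℝ) / N) (by
        rw [Real.dist_eq, sub_zero, abs_of_nonneg h0]
        linarith)
      rw [Real.dist_eq, sub_zero] at hd
      exact (abs_lt.mp hd).2
  have hne : (Finset.univ : Finset (Fin 1 → Fin r)).Nonempty := ⟨w0, Finset.mem_univ _⟩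
  calc ∑ w : Fin 1 → Fin r, Real.negMulLog
          ((((Finset.range N).filter (fun n => dig r hr (XX r) 1 n = w)).card : ℝ) / (N : ℝ))
      < ∑ w : Fin 1 → Fin r, ε / r := Finset.sum_lt_sum_of_nonempty hne (fun w _ => hbound w)
    _ = ε := by
      rw [Finset.sum_const, Finset.card_univ, Fintype.card_fun, Fintype.card_fin,
        Fintype.card_fin, nsmul_eq_mul, pow_one]
      field_simp

/-- For every base r ≥ 2 there is a real x, normal in base r, whose reciprocal 1/x is deterministic in base r: the entropy of its empirical n-digit-block distributions, per digit, can be made eventually below any ε > 0. -/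
theorem result :
    ∀ r : ℕ, 2 ≤ r → ∃ x : ℝ,
      (∀ k : ℕ, 1 ≤ k → ∀ w : Fin k → Fin r,
        Filter.Tendsto
          (fun N : ℕ =>
            ((((Finset.range N).filter
                (fun i => ∀ j : Fin k,
                  ⌊x * (r : ℝ) ^ (i + (j : ℕ) + 1)⌋ % (r : ℤ) = ((w j : ℕ) : ℤ))).card : ℝ)
              / (N : ℝ)))
          Filter.atTop (nhds (1 / (r : ℝ) ^ k))) ∧
      (∀ ε : ℝ, 0 < ε → ∃ n : ℕ, 1 ≤ n ∧ ∃ N0 : ℕ, ∀ N : ℕ, N0 ≤ N →
        ∑ w : Fin n → Fin r,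
          Real.negMulLog
            ((((Finset.range N).filter
                (fun i => ∀ j : Fin n,
                  ⌊x⁻¹ * (r : ℝ) ^ (i + (j : ℕ) + 1)⌋ % (r : ℤ) = ((w j : ℕ) : ℤ))).card : ℝ)
              / (N : ℝ)) < ε * n) := by
  intro r hr
  refine ⟨(XX r)⁻¹, ?_, ?_⟩
  · intro k _ w
    simp only [dig_iff r hr]
    exact normal_part r k hr w
  · intro ε hε
    rw [inv_inv]
    obtain ⟨N0, hN0⟩ := det_part r hr ε hε
    refine ⟨1, le_refl 1, N0, fun N hN => ?_⟩
    simp only [dig_iff r hr]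
    have := hN0 N hN
    simpa using this

end Pool.Agent.S05625
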