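import Pool.Statements.S05648
import Pool.Agent.H6R3.HS7

set_option autoImplicit false
open MeasureTheory Filter Topology
open Pool Pool.MP_a271d0_an

namespace Pool.Agent.S05648

open Pool.Agent.H6R3.HS in
lemma aux : ¬ ∃ u : EuclideanSpace ℝ (Fin 3) → ℝ,
  ∃ G : EuclideanSpace ℝ (Fin 3) → EuclideanSpace ℝ (Fin 3),
    MemLp u 2 volume ∧ MemLp G 2 volume ∧
    (∃ φ : ℕ → EuclideanSpace ℝ (Fin 3) → ℝ,
        (∀ n, ContDiff ℝ ((⊤ : ℕ∞) : WithTop ℕ∞) (φ n) ∧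
              HasCompactSupport (φ n) ∧
              tsupport (φ n) ⊆ Metric.ball (EuclideanSpace.single (0 : Fin 3) (1 : ℝ)) 1) ∧
        Tendsto (fun n => eLpNorm (fun x => φ n x - u x) 2 volume) atTop (𝓝 0) ∧
        Tendsto (fun n => eLpNorm (fun x => gradient (φ n) x - G x) 2 volume)
          atTop (𝓝 0)) ∧
    (∀ᵐ x ∂(volume : Measure (EuclideanSpace ℝ (Fin 3))),
      x ∈ Metric.ball (EuclideanSpace.single (0 : Fin 3) (1 : ℝ)) 1 → 0 < u x) ∧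
    ∀ ψ : EuclideanSpace ℝ (Fin 3) → ℝ,
      ContDiff ℝ ((⊤ : ℕ∞) : WithTop ℕ∞) ψ → HasCompactSupport ψ →
        tsupport ψ ⊆ Metric.ball (EuclideanSpace.single (0 : Fin 3) (1 : ℝ)) 1 →
        Integrable (fun x => inner ℝ (G x) (gradient ψ x)) volume ∧
        Integrable (fun x => u x ^ (4 : ℝ) * ψ x) volume ∧
        Integrable (fun x => u x ^ (2 * (((3 : ℕ) : ℝ) - 1) / (((3 : ℕ) : ℝ) - 2) - 1) * ψ x /
          ‖x‖ ^ (1 : ℝ)) volume ∧
        ∫ x, (inner ℝ (G x) (gradient ψ x) + u x ^ (4 : ℝ) * ψ x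
              - u x ^ (2 * (((3 : ℕ) : ℝ) - 1) / (((3 : ℕ) : ℝ) - 2) - 1) * ψ x /
                ‖x‖ ^ (1 : ℝ)) = 0 := by
  rintro ⟨u, G, hu, hG, ⟨φ, hφ, hc1, hc2⟩, hpos, hW⟩
  have e4 : ∀ t : ℝ, t ^ (4 : ℝ) = t ^ 4 := fun t => by
    exact_mod_cast Real.rpow_natCast t 4
  have e3' : (2 * (((3 : ℕ) : ℝ) - 1) / (((3 : ℕ) : ℝ) - 2) - 1) = (3 : ℝ) := by norm_num
  have e3 : ∀ t : ℝ, t ^ (3 : ℝ) = t ^ 3 := fun t => by
    exact_mod_cast Real.rpow_natCast t 3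
  simp only [e3', e4, e3, Real.rpow_one] at hW
  have he : ‖(EuclideanSpace.single (0 : Fin 3) (1 : ℝ))‖ = 1 := by simp
  refine no_sol (Ω := Metric.ball (EuclideanSpace.single (0 : Fin 3) (1 : ℝ)) 1)
    Metric.isOpen_ball ?_ ⟨_, Metric.mem_ball_self one_pos⟩ ?_ hu hG hφ hc1 hc2 hpos hW
  · rw [Metric.mem_ball, dist_comm, dist_zero_right, he]
    exact lt_irrefl _
  · intro x l hl hx
    rw [Metric.mem_ball, dist_eq_norm] at hx ⊢
    set e := (EuclideanSpace.single (0 : Fin 3) (1 : ℝ)) with hedef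
    have hl0 : 0 < l := by linarith
    have hli : l⁻¹ ≤ 1 := inv_le_one_of_one_le₀ hl
    have h1 : x - e = l⁻¹ • (l • x - e) + (1 - l⁻¹) • (-e) := by
      rw [smul_sub, smul_smul, inv_mul_cancel₀ hl0.ne', one_smul, sub_smul, one_smul, smul_neg]
      abel
    rw [h1]
    calc ‖l⁻¹ • (l • x - e) + (1 - l⁻¹) • (-e)‖ ≤ ‖l⁻¹ • (l • x - e)‖ + ‖(1 - l⁻¹) • (-e)‖ :=
          norm_add_le _ _
      _ = l⁻¹ * ‖l • x - e‖ + (1 - l⁻¹) := by
          rw [norm_smul, norm_smul, norm_neg, he, Real.norm_eq_abs, Real.norm_eq_abs,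
            abs_of_pos (inv_pos.mpr hl0), abs_of_nonneg (by linarith), mul_one]
      _ < l⁻¹ * 1 + (1 - l⁻¹) := by
          have := mul_lt_mul_of_pos_left hx (inv_pos.mpr hl0)
          linarith
      _ = 1 := by ring

/-- The negation of the preceding statement: For every N≥3, smooth bounded domain Ω in R^N with 0 on its boundary, s in (0,2) and 2*(s)-1<p<(N+2)/(N-2), there is an H^1_0 function u>0 on Ω weakly solving Δu - u^p + u^(2*(s)-1)/∣x∣^s = 0. -/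
theorem result :
    ¬ (∀ (N : ℕ), 3 ≤ N →
  ∀ (Ω : Set (EuclideanSpace ℝ (Fin N))),
    IsOpen Ω → IsConnected Ω → Bornology.IsBounded Ω →
    (∃ ρ : EuclideanSpace ℝ (Fin N) → ℝ,
        ContDiff ℝ ((⊤ : ℕ∞) : WithTop ℕ∞) ρ ∧ Ω = {x | ρ x < 0} ∧
        ∀ x ∈ frontier Ω, fderiv ℝ ρ x ≠ 0) →
    (0 : EuclideanSpace ℝ (Fin N)) ∈ frontier Ω →
  ∀ s : ℝ, 0 < s → s < 2 →
  ∀ p : ℝ, 2 * ((N : ℝ) - s) / ((N : ℝ) - 2) - 1 < p →
    p < ((N : ℝ) + 2) / ((N : ℝ) - 2) →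
  ∃ u : EuclideanSpace ℝ (Fin N) → ℝ,
  ∃ G : EuclideanSpace ℝ (Fin N) → EuclideanSpace ℝ (Fin N),
    MemLp u 2 volume ∧ MemLp G 2 volume ∧
    (∃ φ : ℕ → EuclideanSpace ℝ (Fin N) → ℝ,
        (∀ n, ContDiff ℝ ((⊤ : ℕ∞) : WithTop ℕ∞) (φ n) ∧
              HasCompactSupport (φ n) ∧ tsupport (φ n) ⊆ Ω) ∧
        Tendsto (fun n => eLpNorm (fun x => φ n x - u x) 2 volume) atTop (𝓝 0) ∧
        Tendsto (fun n => eLpNorm (fun x => gradient (φ n) x - G x) 2 volume)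
          atTop (𝓝 0)) ∧
    (∀ᵐ x ∂(volume : Measure (EuclideanSpace ℝ (Fin N))), x ∈ Ω → 0 < u x) ∧
    ∀ ψ : EuclideanSpace ℝ (Fin N) → ℝ,
      ContDiff ℝ ((⊤ : ℕ∞) : WithTop ℕ∞) ψ → HasCompactSupport ψ → tsupport ψ ⊆ Ω →
        Integrable (fun x => inner ℝ (G x) (gradient ψ x)) volume ∧
        Integrable (fun x => u x ^ p * ψ x) volume ∧
        Integrable (fun x => u x ^ (2 * ((N : ℝ) - s) / ((N : ℝ) - 2) - 1) * ψ x / ‖x‖ ^ s)
          volume ∧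
        ∫ x, (inner ℝ (G x) (gradient ψ x) + u x ^ p * ψ x
              - u x ^ (2 * ((N : ℝ) - s) / ((N : ℝ) - 2) - 1) * ψ x / ‖x‖ ^ s) = 0) := by
  intro hall
  have he : ‖(EuclideanSpace.single (0 : Fin 3) (1 : ℝ))‖ = 1 := by simp
  refine aux ?_
  refine hall 3 le_rfl (Metric.ball (EuclideanSpace.single (0 : Fin 3) (1 : ℝ)) 1)
    Metric.isOpen_ball ⟨⟨_, Metric.mem_ball_self one_pos⟩, (convex_ball _ _).isPreconnected⟩
    Metric.isBounded_ball ?_ ?_ 1 one_pos (by norm_num) 4 (by norm_num) (by norm_num)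
  · refine ⟨fun x => ‖x - EuclideanSpace.single (0 : Fin 3) (1 : ℝ)‖ ^ 2 - 1, ?_, ?_, ?_⟩
    · exact ((contDiff_id.sub contDiff_const).norm_sq ℝ).sub contDiff_const
    · ext x
      rw [Metric.mem_ball, dist_eq_norm, Set.mem_setOf_eq]
      constructor
      · intro h
        have h0 := norm_nonneg (x - EuclideanSpace.single (0 : Fin 3) (1 : ℝ))
        nlinarith
      · intro h
        have h0 := norm_nonneg (x - EuclideanSpace.single (0 : Fin 3) (1 : ℝ))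
        nlinarith
    · intro x hx h
      rw [frontier_ball _ one_ne_zero, Metric.mem_sphere, dist_eq_norm] at hx
      have h1 : HasFDerivAt (fun x : EuclideanSpace ℝ (Fin 3) =>
          ‖x - EuclideanSpace.single (0 : Fin 3) (1 : ℝ)‖ ^ 2 - 1)
          (2 • (innerSL ℝ (x - EuclideanSpace.single (0 : Fin 3) (1 : ℝ)))) x := by
        have h2 : HasFDerivAt (fun x : EuclideanSpace ℝ (Fin 3) =>
          x - EuclideanSpace.single (0 : Fin 3) (1 : ℝ)) (ContinuousLinearMap.id ℝ _) x :=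
          (hasFDerivAt_id x).sub_const _
        have h3 := (h2.norm_sq).sub_const 1
        simpa using h3
      rw [h1.fderiv] at h
      have h4 := congrArg (fun T : EuclideanSpace ℝ (Fin 3) →L[ℝ] ℝ =>
        T (x - EuclideanSpace.single (0 : Fin 3) (1 : ℝ))) h
      simp at h4
      rw [← inner_sub_left, real_inner_self_eq_norm_sq, hx] at h4
      norm_num at h4
  · rw [frontier_ball _ one_ne_zero, Metric.mem_sphere, dist_comm, dist_zero_right, he]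

end Pool.Agent.S05648
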