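import Pool.Statements.S05651
import Pool.Agent.H100R3.WidF

set_option autoImplicit false
open MeasureTheory Filter
open Pool Pool.MP_a2ac39_an

namespace Pool.Agent.S05651

/-- There is an atomless compactly supported probability measure on ℂ, mutually singular with the equilibrium measure of its support, whose L² monic-polynomial Widom factors ‖P_n‖/cap^n stay eventually above a positive constant. -/
theorem result :
  ∃ (μ : Measure ℂ) (K : Set ℂ) (ν : Measure ℂ),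
    IsProbabilityMeasure μ ∧ NoAtoms μ ∧
    IsCompact K ∧ μ Kᶜ = 0 ∧
    (∀ U : Set ℂ, IsOpen U → (U ∩ K).Nonempty → 0 < μ U) ∧
    IsProbabilityMeasure ν ∧ ν Kᶜ = 0 ∧ NoAtoms ν ∧
    Integrable (fun p : ℂ × ℂ => Real.log ‖p.1 - p.2‖) (ν.prod ν) ∧
    (∀ ρ : Measure ℂ, IsProbabilityMeasure ρ → ρ Kᶜ = 0 → NoAtoms ρ →
      Integrable (fun p : ℂ × ℂ => Real.log ‖p.1 - p.2‖) (ρ.prod ρ) →
      ∫ p, Real.log ‖p.1 - p.2‖ ∂(ρ.prod ρ) ≤ ∫ p, Real.log ‖p.1 - p.2‖ ∂(ν.prod ν)) ∧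
    μ.MutuallySingular ν ∧
    ∃ c : ℝ, 0 < c ∧ ∀ᶠ n : ℕ in atTop,
      c ≤ (⨅ P : {P : Polynomial ℂ // P.Monic ∧ P.natDegree = n},
            Real.sqrt (∫ z, ‖P.1.eval z‖ ^ 2 ∂μ)) /
          Real.exp (∫ p, Real.log ‖p.1 - p.2‖ ∂(ν.prod ν)) ^ n := by
  refine ⟨Pool.Agent.H100R3.Wid.mu, Pool.Agent.H100R3.Wid.KK, Pool.Agent.H100R3.Wid.nu,
    inferInstance, Pool.Agent.H100R3.Wid.mu_na, Pool.Agent.H100R3.Wid.KK_compact,
    Pool.Agent.H100R3.Wid.mu_compl, Pool.Agent.H100R3.Wid.mu_open, inferInstance,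
    Pool.Agent.H100R3.Wid.nu_compl, Pool.Agent.H100R3.Wid.nu_na,
    Pool.Agent.H100R3.Wid.nu_int, ?_, Pool.Agent.H100R3.Wid.sing, 1, one_pos,
    Pool.Agent.H100R3.Wid.widom⟩
  intro ρ h1 h2 h3 h4
  haveI : IsProbabilityMeasure ρ := h1
  haveI : NullSingletonClass ρ := h3
  refine (Pool.Agent.H100R3.Wid.energy_le ρ h2 h4).trans ?_
  rw [Pool.Agent.H100R3.Wid.nu_energy]
  exact Pool.Agent.H100R3.Wid.D0_ge

end Pool.Agent.S05651
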