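import Pool.Statements.S05655
import Pool.Agent.H647R3.AGMore

set_option autoImplicit false
open Filter Topology
open Pool Pool.MP_a2b538_an

namespace Pool.Agent.S05655

/-- There is a complete quasi-normed space over ℝ or ℂ with a semi-normalized fundamental biorthogonal basis that is quasi-greedy (greedy projections uniformly bounded) yet whose partial sums fail to converge for some vector under every reordering. -/
theorem result :
    ∃ (𝕂 : Type) (_ : RCLike 𝕂) (X : Type) (_ : AddCommGroup X) (_ : Module 𝕂 X)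
      (q : X → ℝ) (e : ℕ → X) (f : ℕ → X →ₗ[𝕂] 𝕂),
      (∀ x, 0 ≤ q x) ∧ (∀ x, q x = 0 ↔ x = 0) ∧
      (∀ (t : 𝕂) (x : X), q (t • x) = ‖t‖ * q x) ∧
      (∃ κ : ℝ, ∀ x y, q (x + y) ≤ κ * (q x + q y)) ∧
      (∀ u : ℕ → X, (∀ ε : ℝ, 0 < ε → ∃ N : ℕ, ∀ m n : ℕ, N ≤ m → N ≤ n → q (u m - u n) < ε) →
        ∃ x : X, Tendsto (fun n => q (u n - x)) atTop (𝓝 0)) ∧
      (∀ m n : ℕ, f m (e n) = if m = n then 1 else 0) ∧
      (∀ x : X, ∀ ε : ℝ, 0 < ε → ∃ y ∈ Submodule.span 𝕂 (Set.range e), q (x - y) < ε) ∧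
      (∃ c : ℝ, 0 < c ∧ ∀ n : ℕ, c ≤ q (e n) ∧ q (e n) ≤ c⁻¹ ∧ ∀ x : X, ‖f n x‖ ≤ c⁻¹ * q x) ∧
      (∃ C : ℝ, ∀ (x : X) (A : Finset ℕ), (∀ n ∈ A, ∀ k ∉ A, ‖f k x‖ ≤ ‖f n x‖) →
        q (∑ n ∈ A, f n x • e n) ≤ C * q x) ∧
      ∀ σ : ℕ ≃ ℕ, ∃ x : X,
        ¬ Tendsto (fun N => q ((∑ k ∈ Finset.range N, f (σ k) x • e (σ k)) - x)) atTop (𝓝 0) := by
  refine ⟨ℝ, inferInstance, Pool.Agent.H647R3.AG.X, inferInstance, inferInstance,
    fun x => ‖x‖, Pool.Agent.H647R3.AG.e, fun n => (Pool.Agent.H647R3.AG.e' n).toLinearMap,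
    fun x => norm_nonneg x, fun x => norm_eq_zero, fun t x => norm_smul t x,
    ⟨1, fun x y => by rw [one_mul]; exact norm_add_le x y⟩, ?_, Pool.Agent.H647R3.AG.biorth, ?_, ?_, ?_, ?_⟩
  · intro u hu
    have hc : CauchySeq u := by
      rw [Metric.cauchySeq_iff]
      intro ε hε
      obtain ⟨N, hN⟩ := hu ε hε
      exact ⟨N, fun m hm n hn => by rw [dist_eq_norm]; exact hN m n hm hn⟩
    obtain ⟨x, hx⟩ := cauchySeq_tendsto_of_complete hc
    exact ⟨x, tendsto_iff_norm_sub_tendsto_zero.1 hx⟩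
  · intro x ε hε
    obtain ⟨y, hy, hxy⟩ := Metric.mem_closure_iff.1 (Pool.Agent.H647R3.AG.dense_span x) ε hε
    exact ⟨y, hy, by rwa [dist_eq_norm] at hxy⟩
  · refine ⟨1 / 2, by norm_num, fun n => ⟨?_, ?_, ?_⟩⟩
    · have := Pool.Agent.H647R3.AG.one_le_norm_e n
      linarith
    · have := Pool.Agent.H647R3.AG.norm_e_le n
      norm_num
      exact this
    · intro x
      have h := Pool.Agent.H647R3.AG.abs_e'_le n x
      have h0 := norm_nonneg x
      change ‖Pool.Agent.H647R3.AG.e' n x‖ ≤ _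
      rw [Real.norm_eq_abs, show ((1 / 2 : ℝ))⁻¹ = 2 by norm_num]
      refine h.trans ?_
      change ‖x‖ ≤ 2 * ‖x‖
      linarith
  · refine ⟨12, fun x A hA => ?_⟩
    exact Pool.Agent.H647R3.AG.quasi_greedy x A (fun i hi j hj => by
      have := hA i hi j hj
      rw [Real.norm_eq_abs, Real.norm_eq_abs] at this
      exact this)
  · intro σ
    by_contra hcon
    push Not at hcon
    refine Pool.Agent.H647R3.AG.no_order σ (fun x => ?_)
    exact tendsto_iff_norm_sub_tendsto_zero.2 (hcon x)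

end Pool.Agent.S05655
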