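import Pool.Statements.S05671
import Pool.Agent.H48R3.GR.Main

set_option autoImplicit false
open Filter Topology
open Pool Pool.MP_a337a7_an

namespace Pool.Agent.S05671

/-- For every real or complex Banach space with a greedy Schauder basis and every ε>0, there is an equivalent norm under which that same basis is (1+ε)-greedy. -/
theorem result :
    ∀ (𝕜 : Type) [RCLike 𝕜] (X : Type) [NormedAddCommGroup X] [NormedSpace 𝕜 X]
      [CompleteSpace X] (e : ℕ → X) (f : ℕ → X →L[𝕜] 𝕜),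
      (∀ i j : ℕ, f i (e j) = if i = j then 1 else 0) →
      (∀ x : X, Tendsto (fun N : ℕ => ∑ n ∈ Finset.range N, f n x • e n) atTop (𝓝 x)) →
      (∃ C : ℝ, ∀ (x : X) (A B : Finset ℕ) (a : ℕ → 𝕜),
          (∀ i ∈ A, ∀ j ∉ A, ‖f j x‖ ≤ ‖f i x‖) → B.card ≤ A.card →
          ‖x - ∑ i ∈ A, f i x • e i‖ ≤ C * ‖x - ∑ i ∈ B, a i • e i‖) →
      ∀ ε : ℝ, 0 < ε →
        ∃ N : Seminorm 𝕜 X,
          (∃ c : ℝ, 0 < c ∧ ∃ D : ℝ, ∀ x : X, c * ‖x‖ ≤ N x ∧ N x ≤ D * ‖x‖) ∧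
          ∀ (x : X) (A B : Finset ℕ) (a : ℕ → 𝕜),
            (∀ i ∈ A, ∀ j ∉ A, ‖f j x‖ ≤ ‖f i x‖) → B.card ≤ A.card →
            N (x - ∑ i ∈ A, f i x • e i) ≤ (1 + ε) * N (x - ∑ i ∈ B, a i • e i) := by
  intro 𝕜 _ X _ _ _ e f hbi hexp hgr ε hε
  obtain ⟨C, hC⟩ := hgr
  let b : H48R3.GR.GB 𝕜 X := ⟨e, f, C, hbi, hexp, hC⟩
  exact b.final ε hε

end Pool.Agent.S05671
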