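import Pool.Statements.S05680
import Pool.Agent.H70R3.HD3

set_option autoImplicit false
open Pool Pool.MP_a50f86_an
open Pool.Agent.H70R3.HD

namespace Pool.Agent.S05680

/-- The negation of the preceding statement: For every bounded convex smoothly bounded domain in R^n (n≥3), point p and nonzero conformal frame (u,v), there is a conformal harmonic disc with maximal scaling at p, unique on the disc, and it is an injective immersion proper into the domain. -/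
theorem result :
    ¬ (∀ n : ℕ, 3 ≤ n → ∀ Ω : Set (EuclideanSpace ℝ (Fin n)),
    IsOpen Ω → Bornology.IsBounded Ω → Convex ℝ Ω →
    (∃ U : Set (EuclideanSpace ℝ (Fin n)), ∃ ρ : EuclideanSpace ℝ (Fin n) → ℝ,
        IsOpen U ∧ closure Ω ⊆ U ∧ ContDiffOn ℝ ((⊤ : ℕ∞) : WithTop ℕ∞) ρ U ∧
        Ω = {x | x ∈ U ∧ ρ x < 0} ∧ ∀ x ∈ frontier Ω, fderiv ℝ ρ x ≠ 0) →
    ∀ p ∈ Ω, ∀ u v : EuclideanSpace ℝ (Fin n),
      ‖u‖ = ‖v‖ → inner ℝ u v = 0 → u ≠ 0 →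
      ∃ f : ℂ → EuclideanSpace ℝ (Fin n),
        (∃ r : ℝ, 0 < r ∧
          (ContDiffOn ℝ 2 f (Metric.ball (0 : ℂ) 1) ∧
            (∀ z ∈ Metric.ball (0 : ℂ) 1, f z ∈ Ω) ∧
            (∀ z ∈ Metric.ball (0 : ℂ) 1,
              ‖fderiv ℝ f z (1 : ℂ)‖ = ‖fderiv ℝ f z Complex.I‖ ∧
              inner ℝ (fderiv ℝ f z (1 : ℂ)) (fderiv ℝ f z Complex.I) = 0) ∧
            (∀ z ∈ Metric.ball (0 : ℂ) 1,
              fderiv ℝ (fun w => fderiv ℝ f w (1 : ℂ)) z (1 : ℂ) +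
                fderiv ℝ (fun w => fderiv ℝ f w Complex.I) z Complex.I = 0)) ∧
          f 0 = p ∧ fderiv ℝ f 0 (1 : ℂ) = r • u ∧ fderiv ℝ f 0 Complex.I = r • v ∧
          ∀ g : ℂ → EuclideanSpace ℝ (Fin n), ∀ s : ℝ, 0 < s →
            (ContDiffOn ℝ 2 g (Metric.ball (0 : ℂ) 1) ∧
              (∀ z ∈ Metric.ball (0 : ℂ) 1, g z ∈ Ω) ∧
              (∀ z ∈ Metric.ball (0 : ℂ) 1,
                ‖fderiv ℝ g z (1 : ℂ)‖ = ‖fderiv ℝ g z Complex.I‖ ∧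
                inner ℝ (fderiv ℝ g z (1 : ℂ)) (fderiv ℝ g z Complex.I) = 0) ∧
              (∀ z ∈ Metric.ball (0 : ℂ) 1,
                fderiv ℝ (fun w => fderiv ℝ g w (1 : ℂ)) z (1 : ℂ) +
                  fderiv ℝ (fun w => fderiv ℝ g w Complex.I) z Complex.I = 0)) →
            g 0 = p → fderiv ℝ g 0 (1 : ℂ) = s • u → fderiv ℝ g 0 Complex.I = s • v →
            s ≤ r) ∧
        (∀ h : ℂ → EuclideanSpace ℝ (Fin n),
          (∃ r : ℝ, 0 < r ∧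
            (ContDiffOn ℝ 2 h (Metric.ball (0 : ℂ) 1) ∧
              (∀ z ∈ Metric.ball (0 : ℂ) 1, h z ∈ Ω) ∧
              (∀ z ∈ Metric.ball (0 : ℂ) 1,
                ‖fderiv ℝ h z (1 : ℂ)‖ = ‖fderiv ℝ h z Complex.I‖ ∧
                inner ℝ (fderiv ℝ h z (1 : ℂ)) (fderiv ℝ h z Complex.I) = 0) ∧
              (∀ z ∈ Metric.ball (0 : ℂ) 1,
                fderiv ℝ (fun w => fderiv ℝ h w (1 : ℂ)) z (1 : ℂ) +
                  fderiv ℝ (fun w => fderiv ℝ h w Complex.I) z Complex.I = 0)) ∧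
            h 0 = p ∧ fderiv ℝ h 0 (1 : ℂ) = r • u ∧ fderiv ℝ h 0 Complex.I = r • v ∧
            ∀ g : ℂ → EuclideanSpace ℝ (Fin n), ∀ s : ℝ, 0 < s →
              (ContDiffOn ℝ 2 g (Metric.ball (0 : ℂ) 1) ∧
                (∀ z ∈ Metric.ball (0 : ℂ) 1, g z ∈ Ω) ∧
                (∀ z ∈ Metric.ball (0 : ℂ) 1,
                  ‖fderiv ℝ g z (1 : ℂ)‖ = ‖fderiv ℝ g z Complex.I‖ ∧
                  inner ℝ (fderiv ℝ g z (1 : ℂ)) (fderiv ℝ g z Complex.I) = 0) ∧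
                (∀ z ∈ Metric.ball (0 : ℂ) 1,
                  fderiv ℝ (fun w => fderiv ℝ g w (1 : ℂ)) z (1 : ℂ) +
                    fderiv ℝ (fun w => fderiv ℝ g w Complex.I) z Complex.I = 0)) →
              g 0 = p → fderiv ℝ g 0 (1 : ℂ) = s • u → fderiv ℝ g 0 Complex.I = s • v →
              s ≤ r) →
          Set.EqOn h f (Metric.ball (0 : ℂ) 1)) ∧
        Set.InjOn f (Metric.ball (0 : ℂ) 1) ∧
        (∀ z ∈ Metric.ball (0 : ℂ) 1, fderiv ℝ f z (1 : ℂ) ≠ 0) ∧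
        (∀ K : Set (EuclideanSpace ℝ (Fin n)), IsCompact K → K ⊆ Ω →
          IsCompact (Metric.ball (0 : ℂ) 1 ∩ f ⁻¹' K))) := by
  intro H
  have hE0 : ‖(!₂[1, 0, 0, 0] : EuclideanSpace ℝ (Fin 4))‖ = ‖(!₂[0, 1, 0, 0] : EuclideanSpace ℝ (Fin 4))‖ := by
    rw [EuclideanSpace.norm_eq, EuclideanSpace.norm_eq]
    simp [Fin.sum_univ_four]
  have hE1 : inner ℝ (!₂[1, 0, 0, 0] : EuclideanSpace ℝ (Fin 4)) !₂[0, 1, 0, 0] = 0 := by
    simp [PiLp.inner_apply, Fin.sum_univ_four]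
  have hE2 : (!₂[1, 0, 0, 0] : EuclideanSpace ℝ (Fin 4)) ≠ 0 := by
    intro h
    have := congrArg (fun x : EuclideanSpace ℝ (Fin 4) => x 0) h
    simp at this
  have h00 : (0 : ℂ) ∈ Metric.ball (0 : ℂ) 1 := by simp
  have hdisc0 : ∀ c, disc c 0 = 0 := by
    intro c
    ext i
    fin_cases i <;> simp [disc]
  have hOm0 : (0 : EuclideanSpace ℝ (Fin 4)) ∈ Om := by
    rw [← hdisc0 0]
    exact disc_mem (by norm_num) h00
  obtain ⟨f, -, huniq, -⟩ := H 4 (by norm_num) Om Om_open Om_bounded Om_convex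
    ⟨Set.univ, rho, isOpen_univ, Set.subset_univ _, rho_contDiff.contDiffOn, rfl,
      fun x hx => rho_fderiv_ne hx⟩ 0 hOm0 !₂[1, 0, 0, 0] !₂[0, 1, 0, 0] hE0 hE1 hE2
  have key : ∀ c : ℝ, c ^ 2 ≤ 1 / 16 → Set.EqOn (disc c) f (Metric.ball (0 : ℂ) 1) := by
    intro c hc
    refine huniq (disc c) ⟨1, one_pos, ⟨(disc_contDiff c).contDiffOn, fun z hz => disc_mem hc hz,
      fun z _ => disc_conf c z, fun z _ => disc_harm c z⟩, hdisc0 c, ?_, ?_, ?_⟩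
    · rw [disc_fderiv_one]
      ext i
      fin_cases i <;> simp
    · rw [disc_fderiv_I]
      ext i
      fin_cases i <;> simp
    · intro g s hs hg hg0 hg1 hgI
      exact extremal g s hs hg.1 hg.2.1 hg.2.2.2 hg0 hg1 hgI
  have h1 := key 0 (by norm_num)
  have h2 := key (1 / 4) (by norm_num)
  have hhalf : ((1 / 2 : ℝ) : ℂ) ∈ Metric.ball (0 : ℂ) 1 := by
    rw [mem_ball_zero_iff, Complex.norm_real, Real.norm_eq_abs, abs_of_pos (by norm_num)]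
    norm_num
  have h3 : disc 0 ((1 / 2 : ℝ) : ℂ) = disc (1 / 4) ((1 / 2 : ℝ) : ℂ) :=
    (h1 hhalf).trans (h2 hhalf).symm
  have h4 := congrArg (fun x : EuclideanSpace ℝ (Fin 4) => x 2) h3
  simp only [disc] at h4
  norm_num at h4
  have h5 : (0 : ℝ) = 1 / 16 := h4
  norm_num at h5

end Pool.Agent.S05680
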