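import Pool.Statements.S05716
import Pool.Agent.H266R3.Proj
import Pool.Agent.H266R3.NonIso

set_option autoImplicit false
open Pool Pool.MP_a6e7fb_an

namespace Pool.Agent.S05716

open Pool.Agent.H266R3.BN

abbrev X1 : Type := StoneCech ℕ × StoneCech ℕ × Zs
abbrev X2 : Type := StoneCech ℕ × StoneCech ℕ × Kt

lemma cp12 : Cp C(X1, ℝ) C(X2, ℝ) := by
  refine cp_of_retract ⟨fun p => (p.1, (p.2.1, iZ p.2.2)), by fun_prop⟩
    ⟨fun p => (p.1, (p.2.1, rZ p.2.2)), by fun_prop⟩ fun x => ?_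
  rfl

lemma cp_Kt_Cn : Cp C(X2, ℝ) C(Xn, ℝ) := by
  refine cp_of_retract ⟨fun p => (p.1, (p.2.1, iK p.2.2)), by fun_prop⟩
    ⟨fun p => (p.1, (p.2.1, rK p.2.2)), by fun_prop⟩ fun x => ?_
  change (x.1, (x.2.1, rK (iK x.2.2))) = x
  rw [rK_iK]

lemma cp_Xn_Ln : Cp C(Xn, ℝ) C(Ln, ℝ) :=
  ⟨{ toFun := fun g => g.comp Ph
     map_add' := fun f g => rfl
     map_smul' := fun r f => rfl
     cont := ContinuousMap.continuous_precomp Ph }, PP, fun f => PJ f⟩

lemma cp_Ln_X1 : Cp C(Ln, ℝ) C(X1, ℝ) := by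
  refine cp_of_retract ⟨fun p => (p.1, (p.2, ptInf)), by fun_prop⟩
    ⟨fun p => (p.1, p.2.1), by fun_prop⟩ fun x => ?_
  rfl

lemma cp21 : Cp C(X2, ℝ) C(X1, ℝ) := (cp_Kt_Cn.trans cp_Xn_Ln).trans cp_Ln_X1

/-- `βℕ × βℕ × K ≅ Z × (βℕ × βℕ × K)` -/
def moveH : X2 ≃ₜ Zs × X2 where
  toFun p := ((consH p.2.2).1, (p.1, (p.2.1, (consH p.2.2).2)))
  invFun q := (q.2.1, (q.2.2.1, consH.symm (q.1, q.2.2.2)))
  left_inv p := by simp
  right_inv q := by simp
  continuous_toFun := by fun_prop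
  continuous_invFun := by fun_prop

theorem iso : Nonempty (C(X1, ℝ) ≃L[ℝ] C(X2, ℝ)) := by
  obtain ⟨h⟩ := exists_homeo
  exact pelczynski h ((congrC moveH).trans (curryC Zs X2)) cp12 cp21

/-- The negation of the preceding statement: For all infinite compact metric spaces K1, K2: if the real Banach spaces C(βN×βN×K1) and C(βN×βN×K2) are isomorphic, then C(K1) and C(K2) are isomorphic. -/
theorem result :
    ¬ (∀ (K₁ K₂ : Type) [MetricSpace K₁] [CompactSpace K₁] [Infinite K₁]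
      [MetricSpace K₂] [CompactSpace K₂] [Infinite K₂],
      Nonempty (ContinuousMap (StoneCech ℕ × StoneCech ℕ × K₁) ℝ ≃L[ℝ]
        ContinuousMap (StoneCech ℕ × StoneCech ℕ × K₂) ℝ) →
      Nonempty (ContinuousMap K₁ ℝ ≃L[ℝ] ContinuousMap K₂ ℝ)) := by
  intro H
  letI : MetricSpace Zs := TopologicalSpace.metrizableSpaceMetric Zs
  letI : MetricSpace Kt := TopologicalSpace.metrizableSpaceMetric Kt
  obtain ⟨T⟩ := H Zs Kt iso
  exact no_iso T

end Pool.Agent.S05716
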