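import Pool.Statements.S05740

set_option autoImplicit false
open Pool Pool.MP_a8a40e_an

namespace Pool.Agent.S05740

noncomputable section

/-- The entire function `z ↦ 20 + iπ - 10 e^z`. -/
def g (z : ℂ) : ℂ := (20 + Real.pi * Complex.I) - 10 * Complex.exp z

/-- maximum modulus -/
def M (r : ℝ) : ℝ := sSup ((fun w => ‖g w‖) '' Metric.sphere (0 : ℂ) r)

lemma g_re (z : ℂ) : (g z).re = 20 - 10 * (Real.exp z.re * Real.cos z.im) := by
  simp [g, Complex.exp_re]

lemma g_im (z : ℂ) : (g z).im = Real.pi - 10 * (Real.exp z.re * Real.sin z.im) := by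
  simp [g, Complex.exp_im]

lemma norm_s : ‖(20 + Real.pi * Complex.I : ℂ)‖ ≤ 24 := by
  have h := norm_add_le (20 : ℂ) (Real.pi * Complex.I)
  have h1 : ‖(20:ℂ)‖ = 20 := by simp
  have h2 : ‖(Real.pi * Complex.I : ℂ)‖ = Real.pi := by
    rw [norm_mul, Complex.norm_I, mul_one, Complex.norm_real, Real.norm_eq_abs,
      abs_of_pos Real.pi_pos]
  rw [h1, h2] at h
  linarith [Real.pi_le_four]

lemma norm_g_le {z : ℂ} : ‖g z‖ ≤ 24 + 10 * Real.exp z.re := by
  have h := norm_sub_le (20 + Real.pi * Complex.I : ℂ) (10 * Complex.exp z)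
  have h2 : ‖(10 * Complex.exp z : ℂ)‖ = 10 * Real.exp z.re := by
    rw [norm_mul, Complex.norm_exp]; simp
  rw [h2] at h
  have := norm_s
  exact h.trans (by linarith)

lemma le_norm_g {z : ℂ} : 10 * Real.exp z.re - 24 ≤ ‖g z‖ := by
  have h := norm_sub_norm_le (10 * Complex.exp z) (20 + Real.pi * Complex.I : ℂ)
  have h2 : ‖(10 * Complex.exp z : ℂ)‖ = 10 * Real.exp z.re := by
    rw [norm_mul, Complex.norm_exp]; simp
  rw [h2, norm_sub_rev] at h
  have := norm_s
  exact le_trans (by linarith) h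

lemma bdd (r : ℝ) : BddAbove ((fun w => ‖g w‖) '' Metric.sphere (0 : ℂ) r) := by
  refine ⟨24 + 10 * Real.exp r, ?_⟩
  rintro _ ⟨w, hw, rfl⟩
  rw [mem_sphere_zero_iff_norm] at hw
  have h1 : w.re ≤ r := by rw [← hw]; exact Complex.re_le_norm w
  have h2 := Real.exp_le_exp.mpr h1
  exact norm_g_le.trans (by linarith)

lemma norm_g_le_M {z : ℂ} {r : ℝ} (hz : ‖z‖ = r) : ‖g z‖ ≤ M r :=
  le_csSup (bdd r) ⟨z, by rw [mem_sphere_zero_iff_norm]; exact hz, rfl⟩

lemma M_le_of {r B : ℝ} (hr : 0 ≤ r) (h : ∀ z : ℂ, ‖z‖ = r → ‖g z‖ ≤ B) : M r ≤ B := by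
  apply csSup_le
  · refine ⟨_, (r : ℂ), ?_, rfl⟩
    rw [mem_sphere_zero_iff_norm, Complex.norm_real, Real.norm_eq_abs, abs_of_nonneg hr]
  · rintro _ ⟨w, hw, rfl⟩
    rw [mem_sphere_zero_iff_norm] at hw
    exact h w hw

lemma M_le {r : ℝ} (hr : 0 ≤ r) : M r ≤ 24 + 10 * Real.exp r := by
  apply M_le_of hr
  intro w hw
  have h1 : w.re ≤ r := by rw [← hw]; exact Complex.re_le_norm w
  have h2 := Real.exp_le_exp.mpr h1
  exact norm_g_le.trans (by linarith)

lemma le_M {r : ℝ} (hr : 0 ≤ r) : 10 * Real.exp r - 24 ≤ M r := by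
  have h1 : ‖(r : ℂ)‖ = r := by rw [Complex.norm_real, Real.norm_eq_abs, abs_of_nonneg hr]
  refine le_trans ?_ (norm_g_le_M h1)
  have := le_norm_g (z := (r : ℂ))
  simpa using this

lemma le_M' {r : ℝ} (hr : 0 ≤ r) : 20 - 10 * Real.exp (-r) ≤ M r := by
  have h1 : ‖((-r : ℝ) : ℂ)‖ = r := by
    rw [Complex.norm_real, Real.norm_eq_abs, abs_neg, abs_of_nonneg hr]
  refine le_trans ?_ (norm_g_le_M h1)
  refine le_trans ?_ (Complex.re_le_norm _)
  rw [g_re, Complex.ofReal_re, Complex.ofReal_im, Real.cos_zero, mul_one]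

lemma ten_le_M {r : ℝ} (hr : 0 ≤ r) : 10 ≤ M r := by
  have h1 := le_M' hr
  have h2 : Real.exp (-r) ≤ 1 := Real.exp_le_one_iff.mpr (by linarith)
  linarith

lemma lt_M {r : ℝ} (hr : 0 < r) : r < M r := by
  rcases le_total r 10 with h | h
  · have h1 := le_M' hr.le
    have h2 : Real.exp (-r) < 1 := by
      rw [Real.exp_lt_one_iff]; linarith
    linarith
  · have h1 := le_M hr.le
    have h2 := Real.add_one_le_exp r
    linarith

/-- The starting point. -/
def z0 : ℂ := ((-3 : ℝ) : ℂ)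

/-- the orbit of `z0` -/
def t : ℕ → ℝ
  | 0 => 20 - 10 * Real.exp (-3)
  | n + 1 => 20 + 10 * Real.exp (t n)

lemma exp_neg_three : Real.exp (-3) ≤ 1 / 4 := by
  have h : (4:ℝ) ≤ Real.exp 3 := by
    have := Real.add_one_le_exp (3:ℝ); linarith
  rw [Real.exp_neg, one_div]
  exact inv_anti₀ (by norm_num) h

lemma t_ge (n : ℕ) : 17 ≤ t n := by
  cases n with
  | zero => show (17:ℝ) ≤ 20 - 10 * Real.exp (-3); linarith [exp_neg_three]
  | succ n => show (17:ℝ) ≤ 20 + 10 * Real.exp (t n); linarith [Real.exp_pos (t n)]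

lemma g_line (x : ℝ) : g (x + Real.pi * Complex.I) = ((20 + 10 * Real.exp x : ℝ) : ℂ)
    + Real.pi * Complex.I := by
  rw [g, Complex.exp_add, Complex.exp_pi_mul_I]
  push_cast
  ring

lemma orbit (n : ℕ) : g^[n + 1] z0 = (t n : ℂ) + Real.pi * Complex.I := by
  induction n with
  | zero =>
    rw [zero_add, Function.iterate_one, g, z0, t]
    push_cast
    ring
  | succ n ih =>
    rw [Function.iterate_succ_apply', ih, g_line, t]

lemma M_start : M (1 / 10) ≤ 16.5 := by
  apply M_le_of (by norm_num)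
  intro z hz
  have h1 : ‖Complex.exp z - 1‖ ≤ 2 * ‖z‖ := Complex.norm_exp_sub_one_le (by rw [hz]; norm_num)
  rw [hz] at h1
  have h2 : g z = (10 + Real.pi * Complex.I) - 10 * (Complex.exp z - 1) := by
    rw [g]; ring
  have h3 : ‖(10 + Real.pi * Complex.I : ℂ)‖ ≤ 14 := by
    have h := norm_add_le (10 : ℂ) (Real.pi * Complex.I)
    have h1 : ‖(10:ℂ)‖ = 10 := by simp
    have h2 : ‖(Real.pi * Complex.I : ℂ)‖ = Real.pi := by
      rw [norm_mul, Complex.norm_I, mul_one, Complex.norm_real, Real.norm_eq_abs,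
        abs_of_pos Real.pi_pos]
    rw [h1, h2] at h
    linarith [Real.pi_le_four]
  have h4 := norm_sub_le (10 + Real.pi * Complex.I : ℂ) (10 * (Complex.exp z - 1))
  rw [norm_mul] at h4
  have h5 : ‖(10:ℂ)‖ = 10 := by simp
  rw [h5] at h4
  rw [h2]
  linarith

lemma M_iter_nonneg (n : ℕ) : 0 ≤ M^[n] (1 / 10) := by
  induction n with
  | zero => simp
  | succ n ih => rw [Function.iterate_succ_apply']; linarith [ten_le_M ih]

lemma M_iter_ge (n : ℕ) : 10 ≤ M^[n + 1] (1 / 10) := by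
  rw [Function.iterate_succ_apply']
  exact ten_le_M (M_iter_nonneg n)

lemma M_iter_le (n : ℕ) : M^[n + 1] (1 / 10) ≤ t n - 1 / 2 := by
  induction n with
  | zero =>
    rw [zero_add, Function.iterate_one]
    have := t_ge 0
    linarith [M_start]
  | succ n ih =>
    rw [Function.iterate_succ_apply']
    have h1 := M_le (M_iter_nonneg (n + 1))
    have h2 := Real.exp_le_exp.mpr ih
    have h3 : Real.exp (t n - 1 / 2) ≤ Real.exp (t n) * (2 / 3) := by
      rw [sub_eq_add_neg, Real.exp_add]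
      apply mul_le_mul_of_nonneg_left _ (Real.exp_pos _).le
      have h4 : (3 / 2 : ℝ) ≤ Real.exp (1 / 2) := by
        have := Real.add_one_le_exp (1 / 2 : ℝ); linarith
      rw [Real.exp_neg]
      calc (Real.exp (1 / 2))⁻¹ ≤ (3 / 2 : ℝ)⁻¹ := inv_anti₀ (by norm_num) h4
        _ = 2 / 3 := by norm_num
    have h5 := Real.add_one_le_exp (t n)
    have h6 := t_ge n
    show M (M^[n + 1] (1 / 10)) ≤ 20 + 10 * Real.exp (t n) - 1 / 2
    linarith

lemma z0_mem (n : ℕ) : M^[n] (1 / 10) ≤ ‖g^[n] z0‖ := by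
  cases n with
  | zero =>
    rw [Function.iterate_zero, id, Function.iterate_zero, id, z0, Complex.norm_real,
      Real.norm_eq_abs]
    rw [abs_of_neg (by norm_num)]
    norm_num
  | succ n =>
    have h1 := M_iter_le n
    rw [orbit]
    have h2 := Complex.re_le_norm ((t n : ℂ) + Real.pi * Complex.I)
    have h3 : ((t n : ℂ) + Real.pi * Complex.I).re = t n := by simp
    rw [h3] at h2
    linarith

/-- the level set -/
def A (R : ℝ) : Set ℂ := {z : ℂ | ∀ n : ℕ, M^[n] R ≤ ‖g^[n] z‖}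

/-- real parts along orbits in the level set -/
lemma re_pos {z : ℂ} (hz : z ∈ A (1 / 10)) (n : ℕ) :
    Real.exp (M^[n + 1] (1 / 10)) - 5 ≤ Real.exp (g^[n + 1] z).re := by
  have h1 := hz (n + 2)
  rw [Function.iterate_succ_apply' g (n + 1) z] at h1
  rw [Function.iterate_succ_apply' M (n + 1) (1 / 10)] at h1
  have h2 := le_M (M_iter_nonneg (n + 1))
  have h3 := norm_g_le (z := g^[n + 1] z)
  linarith

lemma re_pos' {z : ℂ} (hz : z ∈ A (1 / 10)) (n : ℕ) : 0 < (g^[n + 1] z).re := by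
  have h1 := re_pos hz n
  have h2 := M_iter_ge n
  have h3 := Real.add_one_le_exp (M^[n + 1] (1 / 10))
  rw [← Real.one_lt_exp_iff]
  linarith

lemma re_big {z : ℂ} (hz : z ∈ A (1 / 10)) (n : ℕ) : 20 < (g^[n + 2] z).re := by
  have h1 := re_pos hz (n + 1)
  have h2 := M_iter_ge n
  have h3 : 80 ≤ M^[n + 2] (1 / 10) := by
    rw [Function.iterate_succ_apply']
    have h4 := le_M (M_iter_nonneg (n + 1))
    have h5 := Real.add_one_le_exp (M^[n + 1] (1 / 10))
    linarith
  have h6 : Real.exp 80 ≤ Real.exp (M^[n + 2] (1 / 10)) := Real.exp_le_exp.mpr h3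
  have h7 : Real.exp 80 = Real.exp 20 * Real.exp 60 := by rw [← Real.exp_add]; norm_num
  have h8 := Real.add_one_le_exp (60:ℝ)
  have h9 := Real.add_one_le_exp (20:ℝ)
  have h10 : Real.exp 20 < Real.exp (g^[n + 2] z).re := by
    have : n + 1 + 1 = n + 2 := by ring
    rw [this] at h1
    nlinarith
  exact Real.exp_lt_exp.mp h10

lemma cos_neg {z : ℂ} (hz : z ∈ A (1 / 10)) (n : ℕ) : Real.cos (g^[n + 1] z).im < 0 := by
  have h1 := re_big hz n
  rw [Function.iterate_succ_apply' g (n + 1) z, g_re] at h1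
  have h2 := Real.exp_pos (g^[n + 1] z).re
  by_contra h3
  push Not at h3
  have : 0 ≤ Real.exp (g^[n + 1] z).re * Real.cos (g^[n + 1] z).im := mul_nonneg h2.le h3
  linarith

lemma differentiable_g : Differentiable ℂ g := by
  unfold g
  fun_prop

/-- a connected part of the level set through `z0` stays in the strip -/
lemma strip {C : Set ℂ} (hC : IsPreconnected C) (hCA : C ⊆ A (1 / 10)) (hz0 : z0 ∈ C) (n : ℕ)
    {z : ℂ} (hz : z ∈ C) :
    Real.pi / 2 < (g^[n + 1] z).im ∧ (g^[n + 1] z).im < 3 * Real.pi / 2 := by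
  have hcont : Continuous (fun z => (g^[n + 1] z).im) :=
    Complex.continuous_im.comp (differentiable_g.continuous.iterate (n + 1))
  have hI : IsPreconnected ((fun z => (g^[n + 1] z).im) '' C) := hC.image _ hcont.continuousOn
  have hord := hI.ordConnected
  have hpi : Real.pi ∈ (fun z => (g^[n + 1] z).im) '' C := by
    refine ⟨z0, hz0, ?_⟩
    show (g^[n + 1] z0).im = Real.pi
    rw [orbit]
    simp
  have hzI : (g^[n + 1] z).im ∈ (fun z => (g^[n + 1] z).im) '' C := ⟨z, hz, rfl⟩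
  have hp := Real.pi_pos
  constructor
  · by_contra hcon
    push Not at hcon
    have : Real.pi / 2 ∈ (fun z => (g^[n + 1] z).im) '' C :=
      hord.out hzI hpi ⟨hcon, by linarith⟩
    obtain ⟨w, hw, hw2⟩ := this
    have h1 := cos_neg (hCA hw) n
    simp only at hw2
    rw [hw2, Real.cos_pi_div_two] at h1
    exact lt_irrefl _ h1
  · by_contra hcon
    push Not at hcon
    have : 3 * Real.pi / 2 ∈ (fun z => (g^[n + 1] z).im) '' C :=
      hord.out hpi hzI ⟨by linarith, hcon⟩
    obtain ⟨w, hw, hw2⟩ := this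
    have h1 := cos_neg (hCA hw) n
    simp only at hw2
    rw [hw2, show 3 * Real.pi / 2 = Real.pi / 2 + Real.pi by ring, Real.cos_add_pi,
      Real.cos_pi_div_two] at h1
    simp at h1

/-- expansion -/
lemma expand {z : ℂ} (hz : z ∈ A (1 / 10)) (n : ℕ)
    (h1 : Real.pi / 2 < (g^[n + 1] z).im) (h2 : (g^[n + 1] z).im < 3 * Real.pi / 2) :
    2 * |(g^[n + 1] z).im - Real.pi| ≤ |(g^[n + 2] z).im - Real.pi| := by
  rw [Function.iterate_succ_apply' g (n + 1) z, g_im]
  set w := g^[n + 1] z with hw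
  have hre : 0 < w.re := re_pos' hz n
  have hE : 1 ≤ Real.exp w.re := Real.one_le_exp hre.le
  have e1 : Real.sin w.im = -Real.sin (w.im - Real.pi) := by
    rw [Real.sin_sub_pi]; ring
  have e2 : Real.pi - 10 * (Real.exp w.re * Real.sin w.im) - Real.pi
      = 10 * Real.exp w.re * Real.sin (w.im - Real.pi) := by
    rw [e1]; ring
  rw [e2, abs_mul, abs_of_pos (show (0:ℝ) < 10 * Real.exp w.re by positivity)]
  have h3 : |w.im - Real.pi| ≤ Real.pi / 2 := by
    rw [abs_le]; constructor <;> linarith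
  have h4 : 2 / Real.pi * |w.im - Real.pi| ≤ |Real.sin (w.im - Real.pi)| :=
    Real.mul_abs_le_abs_sin h3
  have h5 : (1 / 2 : ℝ) ≤ 2 / Real.pi := by
    rw [div_le_div_iff₀ (by norm_num) Real.pi_pos]
    linarith [Real.pi_le_four]
  have h6 : 1 / 2 * |w.im - Real.pi| ≤ |Real.sin (w.im - Real.pi)| :=
    (mul_le_mul_of_nonneg_right h5 (abs_nonneg _)).trans h4
  have h7 : |Real.sin (w.im - Real.pi)| ≤ Real.exp w.re * |Real.sin (w.im - Real.pi)| := by
    nlinarith [abs_nonneg (Real.sin (w.im - Real.pi))]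
  have h8 := abs_nonneg (w.im - Real.pi)
  nlinarith

lemma im_eq_pi {C : Set ℂ} (hC : IsPreconnected C) (hCA : C ⊆ A (1 / 10)) (hz0 : z0 ∈ C)
    {z : ℂ} (hz : z ∈ C) : (g z).im = Real.pi := by
  by_contra hne
  have hpos : 0 < |(g^[1] z).im - Real.pi| := by
    rw [abs_pos, Function.iterate_one]
    exact sub_ne_zero.mpr hne
  have hgrow : ∀ n : ℕ, 2 ^ n * |(g^[1] z).im - Real.pi| ≤ |(g^[n + 1] z).im - Real.pi| := by
    intro n
    induction n with
    | zero => simp
    | succ n ih =>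
      have h := strip hC hCA hz0 n hz
      have h2 := expand (hCA hz) n h.1 h.2
      have h3 : n + 1 + 1 = n + 2 := by ring
      rw [h3, pow_succ]
      linarith
  have hb : ∀ n : ℕ, |(g^[n + 1] z).im - Real.pi| ≤ Real.pi / 2 := by
    intro n
    have h := strip hC hCA hz0 n hz
    rw [abs_le]; constructor <;> linarith [h.1, h.2]
  obtain ⟨n, hn⟩ := pow_unbounded_of_one_lt (Real.pi / 2 / |(g^[1] z).im - Real.pi|)
    (show (1:ℝ) < 2 by norm_num)
  rw [div_lt_iff₀ hpos] at hn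
  linarith [hgrow n, hb n]

lemma im_eq_zero {C : Set ℂ} (hC : IsPreconnected C) (hCA : C ⊆ A (1 / 10)) (hz0 : z0 ∈ C)
    {z : ℂ} (hz : z ∈ C) : z.im = 0 := by
  have hI : IsPreconnected (Complex.im '' C) := hC.image _ Complex.continuous_im.continuousOn
  have hord := hI.ordConnected
  have h0 : (0:ℝ) ∈ Complex.im '' C := ⟨z0, hz0, by simp [z0]⟩
  have hzI : z.im ∈ Complex.im '' C := ⟨z, hz, rfl⟩
  have hsin : ∀ y ∈ Complex.im '' C, Real.sin y = 0 := by
    rintro _ ⟨w, hw, rfl⟩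
    have h1 := im_eq_pi hC hCA hz0 hw
    rw [g_im] at h1
    have h2 := Real.exp_pos w.re
    have h3 : Real.exp w.re * Real.sin w.im = 0 := by linarith
    rcases mul_eq_zero.mp h3 with h | h
    · exact absurd h h2.ne'
    · exact h
  have hp := Real.pi_pos
  rcases lt_trichotomy z.im 0 with h | h | h
  · exfalso
    set y := max z.im (-(Real.pi / 2)) with hy
    have hy0 : y < 0 := by rw [hy]; exact max_lt h (by linarith)
    have hyI : y ∈ Complex.im '' C := hord.out hzI h0 ⟨le_max_left _ _, hy0.le⟩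
    have h1 := hsin y hyI
    have h2 : -(Real.pi / 2) ≤ y := le_max_right _ _
    have h3 : Real.sin y < 0 := Real.sin_neg_of_neg_of_neg_pi_lt hy0 (by linarith)
    linarith
  · exact h
  · exfalso
    set y := min z.im (Real.pi / 2) with hy
    have hy0 : 0 < y := by rw [hy]; exact lt_min h (by linarith)
    have hyI : y ∈ Complex.im '' C := hord.out h0 hzI ⟨hy0.le, min_le_left _ _⟩
    have h1 := hsin y hyI
    have h2 : y ≤ Real.pi / 2 := min_le_right _ _
    have h3 : 0 < Real.sin y := Real.sin_pos_of_pos_of_lt_pi hy0 (by linarith)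
    linarith

lemma not_mem_big {C : Set ℂ} (hC : IsPreconnected C) (hCA : C ⊆ A (1 / 10)) (hz0 : z0 ∈ C)
    {z : ℂ} (hz : z ∈ C) : z ∉ A 5 := by
  intro hbig
  have h1 := hbig 1
  rw [Function.iterate_one, Function.iterate_one] at h1
  have him := im_eq_pi hC hCA hz0 hz
  have hz1 := im_eq_zero hC hCA hz0 hz
  have hre0 : 0 < (g z).re := by
    have := re_pos' (hCA hz) 0
    simpa using this
  have hre1 : (g z).re < 20 := by
    rw [g_re, hz1, Real.cos_zero, mul_one]
    linarith [Real.exp_pos z.re]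
  have hnorm : ‖g z‖ ≤ 24 := by
    have h := Complex.norm_le_abs_re_add_abs_im (g z)
    rw [him, abs_of_pos hre0, abs_of_pos Real.pi_pos] at h
    linarith [Real.pi_le_four]
  have h2 := le_M (show (0:ℝ) ≤ 5 by norm_num)
  have h3 := Real.add_one_le_exp (5:ℝ)
  have h4 : (25:ℝ) ≤ M 5 := by linarith
  linarith

lemma not_polynomial : ¬ ∃ p : Polynomial ℂ, ∀ z : ℂ, g z = p.eval z := by
  rintro ⟨p, hp⟩
  have hroot : ∀ n : ℕ, (p - Polynomial.C (10 + Real.pi * Complex.I)).eval
      ((n : ℂ) * (2 * Real.pi * Complex.I)) = 0 := by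
    intro n
    rw [Polynomial.eval_sub, Polynomial.eval_C, ← hp, g, Complex.exp_nat_mul_two_pi_mul_I]
    ring
  have hp0 : p - Polynomial.C (10 + Real.pi * Complex.I) = 0 := by
    apply Polynomial.eq_zero_of_infinite_isRoot
    have hinj : Function.Injective (fun n : ℕ => (n : ℂ) * (2 * Real.pi * Complex.I)) := by
      intro a b hab
      have h2 : (2 * Real.pi * Complex.I : ℂ) ≠ 0 := Complex.two_pi_I_ne_zero
      have := mul_right_cancel₀ h2 hab
      exact_mod_cast this
    refine (Set.infinite_range_of_injective hinj).mono ?_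
    rintro _ ⟨n, rfl⟩
    exact hroot n
  have h1 := hp (Real.pi * Complex.I)
  have h2 : p = Polynomial.C (10 + Real.pi * Complex.I) := sub_eq_zero.mp hp0
  rw [h2, Polynomial.eval_C, g, Complex.exp_pi_mul_I] at h1
  have := congrArg Complex.re h1
  simp at this

/-- The negation of the preceding statement: For every transcendental entire f and every R > R(f) and R' > R, each connected component of A_R(f) = {z : ∣f^n(z)∣ ≥ M^n(R) for all n} contains a point of A_{R'}(f), with M the maximum modulus. -/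
theorem result :
    ¬ (∀ f : ℂ → ℂ, Differentiable ℂ f →
      (¬ ∃ p : Polynomial ℂ, ∀ z : ℂ, f z = p.eval z) →
      ∀ R R' : ℝ,
        (∃ R₀ : ℝ, 0 < R₀ ∧ R₀ < R ∧
          ∀ r : ℝ, R₀ ≤ r → r < sSup ((fun z => ‖f z‖) '' Metric.sphere (0 : ℂ) r)) →
        R < R' →
        ∀ z₀ : ℂ,
          z₀ ∈ {z : ℂ | ∀ n : ℕ,
            (fun r : ℝ => sSup ((fun w => ‖f w‖) '' Metric.sphere (0 : ℂ) r))^[n] R
              ≤ ‖f^[n] z‖} →
          (connectedComponentIn
              {z : ℂ | ∀ n : ℕ,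
                (fun r : ℝ => sSup ((fun w => ‖f w‖) '' Metric.sphere (0 : ℂ) r))^[n] R
                  ≤ ‖f^[n] z‖} z₀ ∩
            {z : ℂ | ∀ n : ℕ,
                (fun r : ℝ => sSup ((fun w => ‖f w‖) '' Metric.sphere (0 : ℂ) r))^[n] R'
                  ≤ ‖f^[n] z‖}).Nonempty) := by
  intro H
  have hmem : z0 ∈ A (1 / 10) := z0_mem
  obtain ⟨w, hw1, hw2⟩ := H g differentiable_g not_polynomial (1 / 10) 5
    ⟨1 / 20, by norm_num, by norm_num, fun r hr => lt_M (by linarith)⟩ (by norm_num) z0 hmem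
  have hC : IsPreconnected (connectedComponentIn (A (1 / 10)) z0) :=
    isPreconnected_connectedComponentIn
  exact not_mem_big hC (connectedComponentIn_subset _ _) (mem_connectedComponentIn hmem) hw1 hw2

end

end Pool.Agent.S05740
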