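import Pool.Statements.S05749
import Pool.Agent.H716BM.Assemble2
import Pool.Agent.H716BM.T8own
import Pool.Agent.H716BM.Task1
import Pool.Agent.H716BM.Task2
import Pool.Agent.H716BM.Task3
import Pool.Agent.H716BM.Task4
import Pool.Agent.H716BM.Task5
import Pool.Agent.H716BM.Task6
import Pool.Agent.H716BM.Task7
import Pool.Agent.H716BM.Task9
import Pool.Agent.H716BM.Task10
import Pool.Agent.H716BM.Task11
import Pool.Agent.H716BM.Task12
import Pool.Agent.H716BM.Task13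
import Pool.Agent.H716BM.Task14
import Pool.Agent.H716BM.Task16
import Pool.Agent.H716BM.Task17
import Pool.Agent.H716BM.Task18
import Pool.Agent.H716BM.Task19
import Pool.Agent.H716BM.Task20

set_option autoImplicit false
open Pool Pool.MP_a9f24d_an

namespace Pool.Agent.S05749

/-- For n≥2, compact L-regular K in C^n and finite measure ν on K: ν is Bernstein-Markov iff Z_k^(1/(2 l_k)) converges to δ(K), the limit of max Vandermonde^(1/l_k); Z_k is the L²(ν^N) norm of the Vandermonde. -/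
theorem result :
  ∀ (n : ℕ), 2 ≤ n → ∀ (K : Set (Fin n → ℂ)), IsCompact K →
    (∃ V : (Fin n → ℂ) → ℝ, Continuous V ∧ ∀ z : Fin n → ℂ,
      IsLUB {t : ℝ | ∃ k : ℕ, 1 ≤ k ∧ ∃ p : MvPolynomial (Fin n) ℂ, p.totalDegree ≤ k ∧
        (∀ x ∈ K, ‖MvPolynomial.eval x p‖ ≤ 1) ∧
        t = Real.log ‖MvPolynomial.eval z p‖ / (k : ℝ)} (V z)) →
    ∀ (ν : MeasureTheory.Measure (Fin n → ℂ)) [MeasureTheory.IsFiniteMeasure ν], ν Kᶜ = 0 →
    ((∀ ε : ℝ, 0 < ε → ∃ C : ℝ, ∀ (k : ℕ) (p : MvPolynomial (Fin n) ℂ), p.totalDegree ≤ k →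
        ∀ x ∈ K, ‖MvPolynomial.eval x p‖ ^ 2 ≤
          C * (1 + ε) ^ (2 * k) * ∫ y, ‖MvPolynomial.eval y p‖ ^ 2 ∂ν)
    ↔
    ∃ d : ℝ,
      Filter.Tendsto (fun k : ℕ =>
        (sSup {s : ℝ | ∃ z : {α : Fin n → Fin (k+1) // ∑ i, (α i : ℕ) ≤ k} → (Fin n → ℂ),
            (∀ a, z a ∈ K) ∧
            s = ‖Matrix.det (Matrix.of (fun a b : {α : Fin n → Fin (k+1) // ∑ i, (α i : ℕ) ≤ k} =>
                  ∏ i, z a i ^ ((b.1 i : ℕ))))‖}) ^
          ((1 : ℝ) / (∑ a : {α : Fin n → Fin (k+1) // ∑ i, (α i : ℕ) ≤ k},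
                        ∑ i, ((a.1 i : ℕ) : ℝ))))
        Filter.atTop (nhds d) ∧
      Filter.Tendsto (fun k : ℕ =>
        (∫ z, ‖Matrix.det (Matrix.of (fun a b : {α : Fin n → Fin (k+1) // ∑ i, (α i : ℕ) ≤ k} =>
                  ∏ i, z a i ^ ((b.1 i : ℕ))))‖ ^ 2
            ∂(MeasureTheory.Measure.pi
                (fun _ : {α : Fin n → Fin (k+1) // ∑ i, (α i : ℕ) ≤ k} => ν))) ^
          ((1 : ℝ) / (2 * ∑ a : {α : Fin n → Fin (k+1) // ∑ i, (α i : ℕ) ≤ k},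
                        ∑ i, ((a.1 i : ℕ) : ℝ))))
        Filter.atTop (nhds d)) := by
  intro n hn K hK hV ν _ hν
  have t11 : H716BM.T11 := H716BM.task11 H716BM.task2 H716BM.task4 H716BM.task5 H716BM.task17
  have t12 : H716BM.T12 := H716BM.task12 H716BM.task6 H716BM.task7 t11
  have t13 : H716BM.T13 := H716BM.task13 H716BM.task7
  have t14 : H716BM.T14 := H716BM.task14 H716BM.task7
  have t16 : H716BM.T16 := H716BM.task16 H716BM.task9 H716BM.task17
  have t15 : H716BM.T15 := H716BM.task20 H716BM.task1 H716BM.task8own H716BM.task10 H716BM.task17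
    (H716BM.task18 H716BM.task17) (H716BM.task19 H716BM.task17)
  exact H716BM.assemble H716BM.task3 t12 t13 t14 t15 t16 n hn K hK hV ν hν

end Pool.Agent.S05749
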