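import Pool.Statements.S05752
import Pool.Agent.H188R3.CentralProj2

set_option autoImplicit false
open Filter Topology TopologicalSpace
open Pool Pool.MP_aa1569_an

namespace Pool.Agent.S05752

/-- The negation of the preceding statement: There is an infinite-dimensional unital separable simple C*-algebra with a continuous action of a compact second countable group that has the restricted tracial Rokhlin property with comparison but not the full one. -/
theorem result :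
    ¬ (∃ (A : Type) (_ : CStarAlgebra A) (G : Type) (_ : Group G) (_ : TopologicalSpace G)
      (_ : IsTopologicalGroup G) (_ : CompactSpace G) (_ : T2Space G)
      (_ : SecondCountableTopology G) (α : G → (A ≃⋆ₐ[ℂ] A)),
      IsSimpleRing A ∧ SeparableSpace A ∧ ¬ FiniteDimensional ℂ A ∧
      (∀ a : A, α 1 a = a) ∧ (∀ (g h : G) (a : A), α (g * h) a = α g (α h a)) ∧
      (∀ a : A, Continuous (fun g : G => α g a)) ∧
      (∀ (F : Finset A) (S : Finset C(G, ℂ)) (ε : ℝ), 0 < ε → ∀ x y : A,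
        (∃ b : A, x = star b * b) → x ≠ 0 →
        (∃ b : A, (∀ g : G, α g b = b) ∧ y = star b * b) → y ≠ 0 →
        ∃ (p : A) (φ : C(G, ℂ) →ₗ[ℂ] A),
          IsSelfAdjoint p ∧ IsIdempotentElem p ∧ (∀ g : G, α g p = p) ∧
          φ 1 = p ∧ (∀ f : C(G, ℂ), p * φ f * p = φ f) ∧
          (∀ f : C(G, ℂ), ∃ c : A, φ (star f * f) = star c * c) ∧
          (∀ f ∈ S, ∀ f' ∈ S, ‖φ (f * f') - φ f * φ f'‖ < ε) ∧
          (∀ f ∈ S, ∀ a ∈ F, ‖φ f * a - a * φ f‖ < ε) ∧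
          (∀ f ∈ S, ∃ δ : ℝ, δ < ε ∧ ∀ g : G,
            ‖φ (f.comp (ContinuousMap.mk (fun h : G => g⁻¹ * h) (continuous_mul_left g⁻¹)))
              - α g (φ f)‖ ≤ δ) ∧
          (∃ v : ℕ → A, Tendsto (fun n => v n * x * star (v n)) atTop (𝓝 (1 - p))) ∧
          (∃ v : ℕ → A, (∀ (n : ℕ) (g : G), α g (v n) = v n) ∧
            Tendsto (fun n => v n * y * star (v n)) atTop (𝓝 (1 - p))) ∧
          (∃ v : ℕ → A, (∀ (n : ℕ) (g : G), α g (v n) = v n) ∧
            Tendsto (fun n => v n * p * star (v n)) atTop (𝓝 (1 - p)))) ∧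
      ¬ (∀ (F : Finset A) (S : Finset C(G, ℂ)) (ε : ℝ), 0 < ε → ∀ x y : A,
        (∃ b : A, x = star b * b) → x ≠ 0 →
        (∃ b : A, (∀ g : G, α g b = b) ∧ y = star b * b) → y ≠ 0 →
        ∃ (p : A) (φ : C(G, ℂ) →ₗ[ℂ] A),
          IsSelfAdjoint p ∧ IsIdempotentElem p ∧ (∀ g : G, α g p = p) ∧
          φ 1 = p ∧ (∀ f : C(G, ℂ), p * φ f * p = φ f) ∧
          (∀ f : C(G, ℂ), ∃ c : A, φ (star f * f) = star c * c) ∧
          (∀ f ∈ S, ∀ f' ∈ S, ‖φ (f * f') - φ f * φ f'‖ < ε) ∧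
          (∀ f ∈ S, ∀ a ∈ F, ‖φ f * a - a * φ f‖ < ε) ∧
          (∀ f ∈ S, ∃ δ : ℝ, δ < ε ∧ ∀ g : G,
            ‖φ (f.comp (ContinuousMap.mk (fun h : G => g⁻¹ * h) (continuous_mul_left g⁻¹)))
              - α g (φ f)‖ ≤ δ) ∧
          (∃ v : ℕ → A, Tendsto (fun n => v n * x * star (v n)) atTop (𝓝 (1 - p))) ∧
          (∃ v : ℕ → A, (∀ (n : ℕ) (g : G), α g (v n) = v n) ∧
            Tendsto (fun n => v n * y * star (v n)) atTop (𝓝 (1 - p))) ∧
          (∃ v : ℕ → A, (∀ (n : ℕ) (g : G), α g (v n) = v n) ∧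
            Tendsto (fun n => v n * p * star (v n)) atTop (𝓝 (1 - p))) ∧
          (‖x‖ = 1 → 1 - ε < ‖p * x * p‖))) := by
  rintro ⟨A, _, G, _, _, _, _, _, _, α, hsimp, -, -, -, -, -, hr, hnot⟩
  apply hnot
  intro F S ε hε x y hx hx0 hy hy0
  classical
  haveI : IsSimpleRing A := hsimp
  haveI : Nontrivial A := inferInstance
  by_cases hx1 : ‖x‖ = 1
  · obtain ⟨F₀, δ, hδ, hkey⟩ := Pool.Agent.H188R3.norm_cut_of_almost_central hx hx1 hε
    obtain ⟨p, φ, hp, hi, hαp, hφ1, hφp, hpos, hmul, hcomm, hequi, hc1, hc2, hc3⟩ :=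
      hr (F ∪ F₀) (insert 1 S) (min ε δ) (lt_min hε hδ) x y hx hx0 hy hy0
    have hpne : p ≠ 0 := by
      rintro rfl
      obtain ⟨v, -, hv⟩ := hc3
      have h0 : Tendsto (fun _ : ℕ => (0 : A)) atTop (𝓝 (1 - 0)) := by
        simpa using hv
      have h1 : (0 : A) = 1 - 0 := tendsto_nhds_unique tendsto_const_nhds h0
      rw [sub_zero] at h1
      exact zero_ne_one h1
    refine ⟨p, φ, hp, hi, hαp, hφ1, hφp, hpos, ?_, ?_, ?_, hc1, hc2, hc3, fun _ => ?_⟩
    · intro f hf f' hf'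
      exact lt_of_lt_of_le (hmul f (Finset.mem_insert_of_mem hf) f' (Finset.mem_insert_of_mem hf'))
        (min_le_left _ _)
    · intro f hf a ha
      exact lt_of_lt_of_le (hcomm f (Finset.mem_insert_of_mem hf) a
        (Finset.mem_union_left _ ha)) (min_le_left _ _)
    · intro f hf
      obtain ⟨d, hd, hd'⟩ := hequi f (Finset.mem_insert_of_mem hf)
      exact ⟨d, lt_of_lt_of_le hd (min_le_left _ _), hd'⟩
    · refine hkey p hp hi hpne (fun a ha => ?_)
      have h2 := hcomm 1 (Finset.mem_insert_self _ _) a (Finset.mem_union_right _ ha)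
      rw [hφ1] at h2
      exact lt_of_lt_of_le h2 (min_le_right _ _)
  · obtain ⟨p, φ, hp, hi, hαp, hφ1, hφp, hpos, hmul, hcomm, hequi, hc1, hc2, hc3⟩ :=
      hr F S ε hε x y hx hx0 hy hy0
    exact ⟨p, φ, hp, hi, hαp, hφ1, hφp, hpos, hmul, hcomm, hequi, hc1, hc2, hc3,
      fun h => absurd h hx1⟩

end Pool.Agent.S05752
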