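import Pool.Statements.S05757
import Pool.Agent.H75R3.CircleSum

set_option autoImplicit false
open MeasureTheory
open scoped ENNReal
open Pool Pool.MP_aa72b5_an

namespace Pool.Agent.S05757

/-- For every 1<p<∞ with p≠2, on complex L^p of the unit circle, multiplication by z equals D+K, where D is diagonal with respect to some unconditional basis and K is a bounded 1-summing operator. -/
theorem result :
    ∀ [Fact ((0:ℝ) < 1)] (p : ℝ≥0∞) [Fact (1 ≤ p)], 1 < p → p ≠ ∞ → p ≠ 2 →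
      ∃ (D K : Lp ℂ p (volume : Measure (AddCircle (1:ℝ))) →L[ℂ]
                Lp ℂ p (volume : Measure (AddCircle (1:ℝ)))),
        (∃ e : ℕ → Lp ℂ p (volume : Measure (AddCircle (1:ℝ))),
            (∀ f : Lp ℂ p (volume : Measure (AddCircle (1:ℝ))),
                ∃! a : ℕ → ℂ, HasSum (fun n => a n • e n) f) ∧
            ∃ c : ℕ → ℂ, ∀ n, D (e n) = c n • e n) ∧
        (∃ C : ℝ, ∀ (n : ℕ) (x : Fin n → Lp ℂ p (volume : Measure (AddCircle (1:ℝ)))) (B : ℝ),
            (∀ φ : Lp ℂ p (volume : Measure (AddCircle (1:ℝ))) →L[ℂ] ℂ,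
                ‖φ‖ ≤ 1 → ∑ i, ‖φ (x i)‖ ≤ B) →
            ∑ i, ‖K (x i)‖ ≤ C * B) ∧
        ∀ f : Lp ℂ p (volume : Measure (AddCircle (1:ℝ))),
          ∀ᵐ t ∂(volume : Measure (AddCircle (1:ℝ))),
            fourier (1:ℤ) t * f t = D f t + K f t := by
  intro _ p _ h1 hpt h2
  exact H75R3.circle_main p h1 hpt h2

end Pool.Agent.S05757
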