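import Pool.Statements.S05767
import Pool.Agent.H23R3.QFinal

set_option autoImplicit false
open Filter Topology Real
open Pool Pool.MP_ab3195_an

namespace Pool.Agent.S05767

/-- There exist an open connected Ω in R^4, C^1 functions Q_k converging in C^1_loc to Q_0>0, and C^4 solutions of Δ²u_k = Q_k e^{4u_k} with bounded volume, concentrating Q-curvature mass α(x_0) > 16π² = 6 vol(S^4) at some x_0 in Ω. -/
theorem result :
    ∃ (Ω : Set (EuclideanSpace ℝ (Fin 4)))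
      (Q : ℕ → EuclideanSpace ℝ (Fin 4) → ℝ)
      (Q₀ : EuclideanSpace ℝ (Fin 4) → ℝ)
      (u : ℕ → EuclideanSpace ℝ (Fin 4) → ℝ),
      IsOpen Ω ∧ IsConnected Ω ∧
      (∀ k, ContDiffOn ℝ 1 (Q k) Ω) ∧ ContDiffOn ℝ 1 Q₀ Ω ∧
      (∀ K ⊆ Ω, IsCompact K →
        TendstoUniformlyOn Q Q₀ atTop K ∧
        TendstoUniformlyOn (fun k => fderiv ℝ (Q k)) (fderiv ℝ Q₀) atTop K) ∧
      (∀ x ∈ Ω, 0 < Q₀ x) ∧
      (∀ k, ContDiffOn ℝ 4 (u k) Ω) ∧
      (∀ k, ∀ x ∈ Ω,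
        ∑ i : Fin 4, ∑ j : Fin 4,
          iteratedFDeriv ℝ 4 (u k) x
            ![(EuclideanSpace.single i (1 : ℝ) : EuclideanSpace ℝ (Fin 4)),
              (EuclideanSpace.single i (1 : ℝ) : EuclideanSpace ℝ (Fin 4)),
              (EuclideanSpace.single j (1 : ℝ) : EuclideanSpace ℝ (Fin 4)),
              (EuclideanSpace.single j (1 : ℝ) : EuclideanSpace ℝ (Fin 4))]
          = Q k x * Real.exp (4 * u k x)) ∧
      (∃ C : ℝ, ∀ᶠ k in atTop,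
        ∫⁻ x in Ω, ENNReal.ofReal (Real.exp (4 * u k x)) ≤ ENNReal.ofReal C) ∧
      ∃ x₀ ∈ Ω, ∃ α : ℝ, 16 * π ^ 2 < α ∧
        Tendsto (fun R : ℝ => liminf (fun k : ℕ =>
            ∫⁻ x in Ω ∩ Metric.ball x₀ R,
              ENNReal.ofReal (|Q k x| * Real.exp (4 * u k x))) atTop)
          (𝓝[>] 0) (𝓝 (ENNReal.ofReal α)) ∧
        Tendsto (fun R : ℝ => limsup (fun k : ℕ =>
            ∫⁻ x in Ω ∩ Metric.ball x₀ R,
              ENNReal.ofReal (|Q k x| * Real.exp (4 * u k x))) atTop)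
          (𝓝[>] 0) (𝓝 (ENNReal.ofReal α)) :=
  Pool.Agent.H23R3.QC.final

end Pool.Agent.S05767
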