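import Pool.Statements.S05772
import Pool.Agent.H518R4.UG.FINAL
import Pool.Agent.H518R4.UG.UNIV
import Pool.Agent.H518R4.UG.PACK
import Pool.Agent.H518R4.UG.BLOCK
import Pool.Agent.H518R4.UG.BOOST
import Pool.Agent.H518R4.UG.GRAPH
import Pool.Agent.H518R4.UG.CEXP
import Pool.Agent.H518R4.UG.WALK
import Pool.Agent.H518R4.UG.SPACE
import Pool.Agent.H518R4.UG.PSD
import Pool.Agent.H518R4.UG.BURG
import Pool.Agent.H518R4.UG.TWOU
import Pool.Agent.H518R4.UG.FROMGAP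
import Pool.Agent.H518R4.UG.SELF
import Pool.Agent.H518R4.UG.WEI
import Pool.Agent.H518R4.UG.COAR
import Pool.Agent.H518R4.UG.CONN
import Pool.Agent.H518R4.UG.COVER
import Pool.Agent.H518R4.UG.COMPR
import Pool.Agent.H518R4.UG.PHASE
import Pool.Agent.H518R4.UG.LIMP
import Pool.Agent.H518R4.UG.HALVE
import Pool.Agent.H518R4.UG.PYTH
import Pool.Agent.H518R4.UG.PART
import Pool.Agent.H518R4.UG.GROUP
import Pool.Agent.H518R4.UG.MERGE
import Pool.Agent.H518R4.UG.ALIGN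
import Pool.Agent.H518R4.UG.MUL
import Pool.Agent.H518R4.UG.LIFT
import Pool.Agent.H518R4.UG.PARS
import Pool.Agent.H518R4.UG.WEYL
import Pool.Agent.H518R4.UG.QE
import Pool.Agent.H518R4.UG.SIGNS
import Pool.Agent.H518R4.UG.TRUNC
import Pool.Agent.H518R4.UG.ZPR
import Pool.Agent.H518R4.UG.COPIES
import Pool.Agent.H518R4.UG.MASS
import Pool.Agent.H518R4.UG.NGAM
import Pool.Agent.H518R4.UG.FCT
import Pool.Agent.H518R4.UG.NORM

set_option autoImplicit false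
open Filter Topology
open scoped ComplexOrder
open Pool Pool.MP_ab5fa7_an

namespace Pool.Agent.S05772

section assembly

open Pool.Agent.H518R4.UG

theorem mul_task : S_MUL :=
  p_MUL (p_PART (p_HALVE (p_PHASE p_SELF p_TWOU (p_CONN p_WEI p_COAR) p_COVER p_COMPR) p_LIMP)
    p_PYTH) p_GROUP p_MERGE p_ALIGN

theorem block_task : S_BLOCK :=
  p_BLOCK p_LIFT (p_QE p_BURG p_LIFT p_PARS p_WEYL) (p_SIGNS p_LIFT) p_TRUNC (p_ZPR p_LIFT)
    p_COPIES p_MASS p_TWOU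

theorem boost_task : S_BOOST :=
  p_BOOST p_PSD (p_GRAPH (p_CEXP p_BURG) p_PSD) p_WALK p_SPACE

theorem univ_task : S_UNIV :=
  p_UNIV (p_PACK mul_task block_task) boost_task (p_FROMGAP p_TWOU)

theorem final_task : S_FINAL :=
  p_FINAL univ_task (p_NGAM mul_task) p_FCT p_NORM

end assembly

/-- The negation of the preceding statement: For every non-principal ultrafilter U on ℕ there are separable non-Gamma II₁ factors N_i on ℓ² whose tracial ultraproduct along U has property Gamma (stated via lifts: bounded sequences, unitary sequences, traces and 2-norms taken along U). -/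
theorem result :
    ¬ (∀ U : Ultrafilter ℕ, (U : Filter ℕ) ≤ Filter.cofinite →
  ∃ (N : ℕ → VonNeumannAlgebra (lp (fun _ : ℕ => ℂ) 2))
    (τ : ℕ → (((lp (fun _ : ℕ => ℂ) 2) →L[ℂ] (lp (fun _ : ℕ => ℂ) 2)) →ₗ[ℂ] ℂ)),
    (∀ i : ℕ,
      (∀ z : (lp (fun _ : ℕ => ℂ) 2) →L[ℂ] (lp (fun _ : ℕ => ℂ) 2), z ∈ N i →
        (∀ x : (lp (fun _ : ℕ => ℂ) 2) →L[ℂ] (lp (fun _ : ℕ => ℂ) 2), x ∈ N i → z * x = x * z) →
        ∃ c : ℂ, z = c • (1 : (lp (fun _ : ℕ => ℂ) 2) →L[ℂ] (lp (fun _ : ℕ => ℂ) 2))) ∧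
      ¬ FiniteDimensional ℂ (Submodule.span ℂ
          ((N i : Set ((lp (fun _ : ℕ => ℂ) 2) →L[ℂ] (lp (fun _ : ℕ => ℂ) 2))))) ∧
      τ i 1 = 1 ∧
      (∀ x : (lp (fun _ : ℕ => ℂ) 2) →L[ℂ] (lp (fun _ : ℕ => ℂ) 2), x ∈ N i →
        ∀ y : (lp (fun _ : ℕ => ℂ) 2) →L[ℂ] (lp (fun _ : ℕ => ℂ) 2), y ∈ N i →
          τ i (x * y) = τ i (y * x)) ∧
      (∀ x : (lp (fun _ : ℕ => ℂ) 2) →L[ℂ] (lp (fun _ : ℕ => ℂ) 2), x ∈ N i →
        0 ≤ τ i (star x * x)) ∧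
      (∀ x : (lp (fun _ : ℕ => ℂ) 2) →L[ℂ] (lp (fun _ : ℕ => ℂ) 2), x ∈ N i →
        τ i (star x * x) = 0 → x = 0) ∧
      (∃ n : ℕ, ∃ x : Fin n → ((lp (fun _ : ℕ => ℂ) 2) →L[ℂ] (lp (fun _ : ℕ => ℂ) 2)),
        (∀ j, x j ∈ N i) ∧ ∃ ε : ℝ, 0 < ε ∧
        ∀ u : (lp (fun _ : ℕ => ℂ) 2) →L[ℂ] (lp (fun _ : ℕ => ℂ) 2), u ∈ N i →
          star u * u = 1 → u * star u = 1 → τ i u = 0 →
          ∃ j : Fin n, ε ^ 2 ≤ (τ i (star (u * x j - x j * u) * (u * x j - x j * u))).re)) ∧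
    (∀ n : ℕ, ∀ x : Fin n → ℕ → ((lp (fun _ : ℕ => ℂ) 2) →L[ℂ] (lp (fun _ : ℕ => ℂ) 2)),
      (∀ j i, x j i ∈ N i) → (∃ C : ℝ, ∀ j i, ‖x j i‖ ≤ C) →
      ∀ ε : ℝ, 0 < ε →
      ∃ u : ℕ → ((lp (fun _ : ℕ => ℂ) 2) →L[ℂ] (lp (fun _ : ℕ => ℂ) 2)),
        (∀ i, u i ∈ N i ∧ star (u i) * u i = 1 ∧ u i * star (u i) = 1) ∧
        Tendsto (fun i => τ i (u i)) (U : Filter ℕ) (𝓝 0) ∧
        ∀ j : Fin n, ∀ᶠ i in (U : Filter ℕ),
          (τ i (star (u i * x j i - x j i * u i) * (u i * x j i - x j i * u i))).re < ε ^ 2)) := by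
  intro H
  obtain ⟨U, hU⟩ : ∃ U : Ultrafilter ℕ, (U : Filter ℕ) ≤ Filter.cofinite :=
    ⟨Filter.hyperfilter ℕ, Filter.hyperfilter_le_cofinite⟩
  obtain ⟨N, τ, h1, h2⟩ := H U hU
  refine final_task ⟨N, τ, fun i => ?_, U, hU, ?_⟩
  · obtain ⟨hc, hd, ht, htr, hp, hf, hg⟩ := h1 i
    refine ⟨?_, ?_, ht, ?_, htr, hf, ?_⟩
    · intro z hz hx
      obtain ⟨c, hc'⟩ := hc z hz hx
      exact ⟨c, by rw [hc', Algebra.algebraMap_eq_smul_one]⟩
    · intro n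
      have hinf : ¬ Module.Finite ℂ (Submodule.span ℂ
          ((N i : Set ((lp (fun _ : ℕ => ℂ) 2) →L[ℂ] (lp (fun _ : ℕ => ℂ) 2))))) := hd
      have hspan : ∀ y, y ∈ Submodule.span ℂ
          ((N i : Set ((lp (fun _ : ℕ => ℂ) 2) →L[ℂ] (lp (fun _ : ℕ => ℂ) 2)))) → y ∈ N i := by
        intro y hy
        induction hy using Submodule.span_induction with
        | mem y hy => exact hy
        | zero => exact zero_mem (N i)
        | add a b _ _ ha hb => exact add_mem ha hb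
        | smul c a _ ha => exact (N i).toStarSubalgebra.smul_mem ha c
      by_contra hno
      apply hinf
      have hrank : Module.rank ℂ (Submodule.span ℂ
          ((N i : Set ((lp (fun _ : ℕ => ℂ) 2) →L[ℂ] (lp (fun _ : ℕ => ℂ) 2))))) < Cardinal.aleph0 := by
        by_contra hge
        rw [not_lt] at hge
        apply hno
        have hle : (n : Cardinal) ≤ Module.rank ℂ (Submodule.span ℂ
          ((N i : Set ((lp (fun _ : ℕ => ℂ) 2) →L[ℂ] (lp (fun _ : ℕ => ℂ) 2))))) :=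
          (Cardinal.natCast_lt_aleph0).le.trans hge
        obtain ⟨s, hs, hli⟩ := exists_finset_linearIndependent_of_le_rank hle
        have e := s.equivFin
        rw [hs] at e
        refine ⟨fun k => ((e.symm k : s) : Submodule.span ℂ
          ((N i : Set ((lp (fun _ : ℕ => ℂ) 2) →L[ℂ] (lp (fun _ : ℕ => ℂ) 2))))), ?_, ?_⟩
        · intro k
          exact hspan _ (Submodule.coe_mem _)
        · have h3 := hli.comp (fun k => e.symm k) e.symm.injective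
          exact h3.map' (Submodule.subtype _) (Submodule.ker_subtype _)
      exact Module.rank_lt_aleph0_iff.1 hrank
    · intro x hx
      have h := hp x hx
      rw [Complex.le_def] at h
      exact ⟨h.2.symm, h.1⟩
    · intro hall
      obtain ⟨n, x, hx, ε, hε, hu⟩ := hg
      obtain ⟨u, huN, huU, hu0, hlt⟩ := hall n x hx ε hε
      rw [Unitary.mem_iff] at huU
      obtain ⟨j, hj⟩ := hu u huN huU.1 huU.2 hu0
      exact absurd (hlt j) (not_lt.2 hj)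
  · intro n x hx hC ε hε
    obtain ⟨u, hu, hlim, hlt⟩ := h2 n x hx hC ε hε
    exact ⟨u, fun i => ⟨(hu i).1, Unitary.mem_iff.2 ⟨(hu i).2.1, (hu i).2.2⟩⟩, hlim, hlt⟩

end Pool.Agent.S05772
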