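import Pool.Statements.S05776
import Pool.Agent.H230R3.TC.Final

set_option autoImplicit false
open Pool Pool.MP_ab96c2_an

namespace Pool.Agent.S05776

/-- The negation of the preceding statement: For every bounded simply connected planar domain, the number of critical points of its torsion function (Δv=−2, v=0 on the boundary) is at most 2m−1, where m is the number of components of the set of local maxima of the distance to the boundary. -/
theorem result :
    ¬ (∀ (Ω : Set ℂ), IsOpen Ω → Bornology.IsBounded Ω → SimplyConnectedSpace Ω →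
    ∀ (v : ℂ → ℝ), ContDiffOn ℝ 2 v Ω →
      (∀ z ∈ Ω, fderiv ℝ (fun w => fderiv ℝ v w (1 : ℂ)) z (1 : ℂ)
          + fderiv ℝ (fun w => fderiv ℝ v w Complex.I) z Complex.I = -2) →
      ContinuousOn v (closure Ω) →
      (∀ z ∈ frontier Ω, v z = 0) →
      Set.encard {z : ℂ | z ∈ Ω ∧ fderiv ℝ v z = 0}
        ≤ 2 * ENat.card (ConnectedComponents
              {z : ℂ | z ∈ Ω ∧ IsLocalMax (fun w : ℂ => Metric.infDist w Ωᶜ) z}) - 1) := by
  intro h
  obtain ⟨v, h1, h2, h3, h4⟩ := Pool.Agent.H230R3.TC.exists_v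
  have hcd : ∀ z ∈ Pool.Agent.H230R3.TC.Om, ContDiffAt ℝ 2 v z := fun z hz =>
    (h1 z hz).contDiffAt (Pool.Agent.H230R3.TC.isOpen_Om.mem_nhds hz)
  have hv : Pool.Agent.H230R3.TC.Sol v := ⟨hcd, h2, h3, h4⟩
  have h5 := h Pool.Agent.H230R3.TC.Om Pool.Agent.H230R3.TC.isOpen_Om
    Pool.Agent.H230R3.TC.isBounded_Om Pool.Agent.H230R3.TC.sc_Om v h1
    (fun z hz => (Pool.Agent.H230R3.TC.LF_eq (hcd z hz)).trans (h2 z hz)) h3 h4
  have h6 := Pool.Agent.H230R3.TC.two_crit hv
  have h7 := Pool.Agent.H230R3.TC.card_le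
  have h8 := h6.trans h5
  have h9 : (2 : ℕ∞) * ENat.card (ConnectedComponents
      {z : ℂ | z ∈ Pool.Agent.H230R3.TC.Om ∧
        IsLocalMax (fun w : ℂ => Metric.infDist w Pool.Agent.H230R3.TC.Omᶜ) z}) - 1 ≤ 2 * 1 - 1 :=
    tsub_le_tsub_right (mul_le_mul_right h7 2) 1
  have h10 := h8.trans h9
  exact absurd h10 (by decide)

end Pool.Agent.S05776
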