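import Pool.Statements.S05778

set_option autoImplicit false
open Pool Pool.MP_aba4f2_an

namespace Pool.Agent.S05778

open MeasureTheory

/-- Any `m` points have a common translate `x` such that the `i`-th point is near `0` at scale `i`. -/
theorem exists_near (Q : ℕ) (hQ : 1 ≤ Q) (m : ℕ) : ∀ s : ℕ → UnitAddCircle, ∃ x : UnitAddCircle,
    ∀ i < m, ‖Q ^ i • (x + s i)‖ ≤ 1 / (Q : ℝ) := by
  induction m with
  | zero => intro s; exact ⟨0, by simp⟩
  | succ m ih =>
    intro s
    obtain ⟨x', hx'⟩ := ih (fun i => Q • (s (i + 1) - s 0))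
    obtain ⟨r, rfl⟩ := QuotientAddGroup.mk_surjective x'
    have hr : ((Int.fract r : ℝ) : UnitAddCircle) = ((r : ℝ) : UnitAddCircle) := by
      have h1 : r = Int.fract r + (⌊r⌋ : ℤ) • (1 : ℝ) := by
        rw [zsmul_eq_mul, mul_one]; exact (Int.fract_add_floor r).symm
      conv_rhs => rw [h1]
      rw [AddCircle.coe_add, AddCircle.coe_zsmul, AddCircle.coe_period, smul_zero, add_zero]
    have hQ0 : (0 : ℝ) < Q := by exact_mod_cast hQ
    refine ⟨-s 0 + ((Int.fract r / Q : ℝ) : UnitAddCircle), ?_⟩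
    intro i hi
    rcases i with _ | i
    · have h2 : Q ^ 0 • (-s 0 + ((Int.fract r / Q : ℝ) : UnitAddCircle) + s 0) =
          ((Int.fract r / Q : ℝ) : UnitAddCircle) := by
        rw [pow_zero, one_smul]; abel
      rw [h2]
      refine (QuotientAddGroup.norm_mk_le_norm (S := AddSubgroup.zmultiples (1:ℝ))
        (m := (Int.fract r / Q : ℝ))).trans ?_
      rw [Real.norm_of_nonneg (div_nonneg (Int.fract_nonneg r) hQ0.le)]
      gcongr
      exact (Int.fract_lt_one r).le
    · have h2 : Q ^ (i + 1) • (-s 0 + ((Int.fract r / Q : ℝ) : UnitAddCircle) + s (i + 1)) =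
          Q ^ i • (((r : ℝ) : UnitAddCircle) + Q • (s (i + 1) - s 0)) := by
        have h3 : Q • ((Int.fract r / Q : ℝ) : UnitAddCircle) = ((r : ℝ) : UnitAddCircle) := by
          rw [← hr, ← AddCircle.coe_nsmul, nsmul_eq_mul, mul_div_cancel₀ _ hQ0.ne']
        rw [← h3, ← smul_add, smul_smul, ← pow_succ]
        congr 1
        abel
      rw [h2]
      exact hx' i (by omega)

/-- Any `m` points have a common translate which is far from `0` at all of `m` scales. -/
theorem exists_far (Q m b : ℕ) (hQ : 2 ≤ Q) (hb : 2 * m ^ 2 < b) (s : ℕ → UnitAddCircle) :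
    ∃ x : UnitAddCircle, ∀ i < m, ∀ k < m, 1 / (b : ℝ) ≤ ‖Q ^ (k + 1) • (x + s i)‖ := by
  by_contra hcon
  push Not at hcon
  have hb0 : (0 : ℝ) < b := by
    have : 0 < b := by omega
    exact_mod_cast this
  have hcov : (Set.univ : Set UnitAddCircle) ⊆
      ⋃ p ∈ (Finset.range m ×ˢ Finset.range m),
        (fun x : UnitAddCircle => Q ^ (p.2 + 1) • (x + s p.1)) ⁻¹' Metric.ball 0 (1 / (b : ℝ)) := by
    intro x _
    obtain ⟨i, hi, k, hk, h⟩ := hcon x
    simp only [Set.mem_iUnion]
    refine ⟨(i, k), by simp [hi, hk], ?_⟩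
    simpa [Set.mem_preimage, mem_ball_zero_iff] using h
  have h1 := measure_mono (μ := (volume : Measure UnitAddCircle)) hcov
  have h2 := h1.trans (measure_biUnion_finset_le _ _)
  have h3 : ∀ p ∈ (Finset.range m ×ˢ Finset.range m),
      volume ((fun x : UnitAddCircle => Q ^ (p.2 + 1) • (x + s p.1)) ⁻¹'
        Metric.ball 0 (1 / (b : ℝ))) ≤ ENNReal.ofReal (2 / b) := by
    intro p _
    have hQp : 1 < Q ^ (p.2 + 1) := Nat.one_lt_pow (by omega) (by omega)
    have hmp : MeasurePreserving (fun x : UnitAddCircle => Q ^ (p.2 + 1) • (x + s p.1))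
        volume volume :=
      ((AddCircle.ergodic_nsmul (T := (1:ℝ)) hQp).toMeasurePreserving).comp
        (measurePreserving_add_right volume (s p.1))
    rw [hmp.measure_preimage measurableSet_ball.nullMeasurableSet]
    refine (measure_mono Metric.ball_subset_closedBall).trans ?_
    rw [AddCircle.volume_closedBall]
    apply ENNReal.ofReal_le_ofReal
    refine (min_le_right _ _).trans (le_of_eq ?_)
    ring
  have h4 := h2.trans (Finset.sum_le_sum h3)
  rw [Finset.sum_const, Finset.card_product, Finset.card_range, AddCircle.measure_univ] at h4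
  rw [nsmul_eq_mul, ← ENNReal.ofReal_natCast, ← ENNReal.ofReal_mul (by positivity)] at h4
  rw [ENNReal.ofReal_le_ofReal_iff (by positivity)] at h4
  have h5 : ((m * m : ℕ) : ℝ) * (2 / b) < 1 := by
    rw [← mul_div_assoc, div_lt_one hb0]
    push_cast
    have : ((2 * m ^ 2 : ℕ) : ℝ) < b := by exact_mod_cast hb
    push_cast at this
    nlinarith
  linarith

/-- iterated averages -/
noncomputable def Av (L : ℕ) : List UnitAddCircle → (UnitAddCircle → ℝ) → UnitAddCircle → ℝ
  | [], f => f
  | a :: l, f => fun y => (1 / (L : ℝ)) * ∑ i ∈ Finset.range L, Av L l f (y + i • a)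

/-- the offsets of the iterated averages -/
def offs (L : ℕ) : List UnitAddCircle → List UnitAddCircle
  | [] => [0]
  | a :: l => (List.range L).flatMap fun i => (offs L l).map fun o => i • a + o

theorem Av_add (L : ℕ) (l : List UnitAddCircle) : ∀ (f g : UnitAddCircle → ℝ) (y : UnitAddCircle),
    Av L l (fun t => f t + g t) y = Av L l f y + Av L l g y := by
  induction l with
  | nil => intro f g y; rfl
  | cons a l ih =>
    intro f g y
    simp only [Av, ih, Finset.sum_add_distrib, mul_add]

theorem Av_neg (L : ℕ) (l : List UnitAddCircle) : ∀ (f : UnitAddCircle → ℝ) (y : UnitAddCircle),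
    Av L l (fun t => - f t) y = - Av L l f y := by
  induction l with
  | nil => intro f y; rfl
  | cons a l ih =>
    intro f y
    simp only [Av, ih, Finset.sum_neg_distrib, mul_neg]

theorem Av_const {L : ℕ} (hL : 1 ≤ L) (l : List UnitAddCircle) (c : ℝ) :
    ∀ y : UnitAddCircle, Av L l (fun _ => c) y = c := by
  have hL0 : (L : ℝ) ≠ 0 := by
    have : L ≠ 0 := by omega
    exact_mod_cast this
  induction l with
  | nil => intro y; rfl
  | cons a l ih =>
    intro y
    simp only [Av, ih, Finset.sum_const, Finset.card_range, nsmul_eq_mul]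
    field_simp

theorem Av_mono (L : ℕ) (l : List UnitAddCircle) : ∀ (f g : UnitAddCircle → ℝ) (y : UnitAddCircle),
    (∀ o ∈ offs L l, f (y + o) ≤ g (y + o)) → Av L l f y ≤ Av L l g y := by
  induction l with
  | nil => intro f g y h; simpa [Av] using h 0 (by simp [offs])
  | cons a l ih =>
    intro f g y h
    simp only [Av]
    apply mul_le_mul_of_nonneg_left _ (by positivity)
    apply Finset.sum_le_sum
    intro i hi
    apply ih
    intro o ho
    rw [add_assoc]
    apply h
    simp only [offs, List.mem_flatMap, List.mem_map, List.mem_range]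
    exact ⟨i, Finset.mem_range.mp hi, o, ho, rfl⟩

theorem Av_abs_le {L : ℕ} (hL : 1 ≤ L) (l : List UnitAddCircle) (f : UnitAddCircle → ℝ) (M : ℝ)
    (h : ∀ t, |f t| ≤ M) (y : UnitAddCircle) : |Av L l f y| ≤ M := by
  rw [abs_le]
  constructor
  · have h1 := Av_mono L l (fun _ => -M) f y (fun o _ => (abs_le.mp (h _)).1)
    rwa [Av_const hL] at h1
  · have h1 := Av_mono L l f (fun _ => M) y (fun o _ => (abs_le.mp (h _)).2)
    rwa [Av_const hL] at h1

theorem Av_shift (L : ℕ) (l : List UnitAddCircle) (a : UnitAddCircle) :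
    ∀ (f : UnitAddCircle → ℝ) (y : UnitAddCircle),
    Av L l (fun t => f (t - a)) y = Av L l f (y - a) := by
  induction l with
  | nil => intro f y; rfl
  | cons b l ih =>
    intro f y
    simp only [Av, ih]
    congr 1
    apply Finset.sum_congr rfl
    intro i _
    congr 1
    abel

theorem Av_diff {L : ℕ} (hL : 1 ≤ L) (l : List UnitAddCircle) (a : UnitAddCircle)
    (g : UnitAddCircle → ℝ) (M : ℝ) (h : ∀ t, |g t| ≤ M) (ha : a ∈ l) :
    ∀ y : UnitAddCircle, |Av L l (fun t => g t - g (t - a)) y| ≤ 2 * M / L := by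
  have hL0 : (0 : ℝ) < L := by exact_mod_cast hL
  have hsub : ∀ (l : List UnitAddCircle) (y : UnitAddCircle),
      Av L l (fun t => g t - g (t - a)) y = Av L l g y - Av L l g (y - a) := by
    intro l y
    have h1 := Av_add L l g (fun t => - g (t - a)) y
    simp only [← sub_eq_add_neg] at h1
    rw [h1, Av_neg, Av_shift, ← sub_eq_add_neg]
  induction l with
  | nil => simp at ha
  | cons b l ih =>
    intro y
    by_cases hab : a = b
    · subst hab
      have h2 : Av L (a :: l) (fun t => g t - g (t - a)) y = (1 / (L : ℝ)) *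
          ∑ i ∈ Finset.range L, (Av L l g (y - a + (i + 1) • a) - Av L l g (y - a + i • a)) := by
        simp only [Av, hsub]
        congr 1
        apply Finset.sum_congr rfl
        intro i _
        have e1 : y + i • a = y - a + (i + 1) • a := by rw [succ_nsmul]; abel
        have e2 : y + i • a - a = y - a + i • a := by abel
        rw [e2, e1]
      rw [h2, Finset.sum_range_sub (fun i => Av L l g (y - a + i • a)), abs_mul,
        abs_of_pos (by positivity : (0 : ℝ) < 1 / L)]
      have h3 := Av_abs_le hL l g M h (y - a + L • a)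
      have h4 := Av_abs_le hL l g M h (y - a + 0 • a)
      have h5 := abs_sub (Av L l g (y - a + L • a)) (Av L l g (y - a + 0 • a))
      calc 1 / (L : ℝ) * |Av L l g (y - a + L • a) - Av L l g (y - a + 0 • a)|
          ≤ 1 / (L : ℝ) * (2 * M) := by gcongr; linarith
        _ = 2 * M / L := by ring
    · have ha' : a ∈ l := by
        rcases List.mem_cons.mp ha with h | h
        · exact absurd h hab
        · exact h
      have ih' := ih ha'
      have h6 : Av L (b :: l) (fun t => g t - g (t - a)) y = (1 / (L : ℝ)) *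
          ∑ i ∈ Finset.range L, Av L l (fun t => g t - g (t - a)) (y + i • b) := rfl
      rw [h6, abs_mul, abs_of_pos (by positivity : (0 : ℝ) < 1 / L)]
      calc 1 / (L : ℝ) * |∑ i ∈ Finset.range L, Av L l (fun t => g t - g (t - a)) (y + i • b)|
          ≤ 1 / (L : ℝ) * ∑ i ∈ Finset.range L, (2 * M / L) := by
            gcongr
            refine (Finset.abs_sum_le_sum_abs _ _).trans ?_
            exact Finset.sum_le_sum fun i _ => ih' _
        _ = 2 * M / L := by
            rw [Finset.sum_const, Finset.card_range, nsmul_eq_mul]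
            field_simp

theorem Av_sum_diff {L : ℕ} (hL : 1 ≤ L) (l : List UnitAddCircle) {ι : Type} (S : Finset ι)
    (a : ι → UnitAddCircle) (g : ι → UnitAddCircle → ℝ) (M : ℝ)
    (h : ∀ j t, |g j t| ≤ M) (ha : ∀ j, a j ∈ l) (y : UnitAddCircle) :
    |Av L l (fun t => ∑ j ∈ S, (g j t - g j (t - a j))) y| ≤ S.card * (2 * M / L) := by
  classical
  induction S using Finset.induction_on with
  | empty =>
    simp only [Finset.sum_empty, Finset.card_empty, Nat.cast_zero, zero_mul]
    rw [Av_const hL]; simp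
  | insert j S hj ih =>
    have h1 : (fun t => ∑ j ∈ insert j S, (g j t - g j (t - a j))) =
        fun t => (g j t - g j (t - a j)) + ∑ j ∈ S, (g j t - g j (t - a j)) := by
      ext t; rw [Finset.sum_insert hj]
    rw [h1, Av_add, Finset.card_insert_of_notMem hj]
    refine (abs_add_le _ _).trans ?_
    have h2 := Av_diff hL l (a j) (g j) M (h j) (ha j) y
    push_cast
    linarith

/-- the test function: at most `1`, nonnegative -/
noncomputable def G (Q m b : ℕ) (x : UnitAddCircle) : ℝ :=
  min 1 (∑ k ∈ Finset.range m, max 0 (1 - b * ‖Q ^ (k + 1) • x‖))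

theorem G_cont (Q m b : ℕ) : Continuous (G Q m b) := by
  unfold G
  fun_prop

theorem G_nonneg (Q m b : ℕ) (x : UnitAddCircle) : 0 ≤ G Q m b x :=
  le_min zero_le_one (Finset.sum_nonneg fun _ _ => le_max_left _ _)

theorem G_le_one (Q m b : ℕ) (x : UnitAddCircle) : G Q m b x ≤ 1 := min_le_left _ _

theorem G_big {Q m b : ℕ} (hQ : 1 ≤ Q) (hQb : 4 * b ≤ Q) (x : UnitAddCircle) (k : ℕ) (hk : k < m)
    (h : ‖Q ^ (k + 1) • x‖ ≤ 1 / (Q : ℝ)) : 3 / 4 ≤ G Q m b x := by
  have hQ0 : (0 : ℝ) < Q := by exact_mod_cast hQ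
  apply le_min (by norm_num)
  have h1 : (3 / 4 : ℝ) ≤ max 0 (1 - b * ‖Q ^ (k + 1) • x‖) := by
    apply le_max_of_le_right
    have h2 : (b : ℝ) * ‖Q ^ (k + 1) • x‖ ≤ b * (1 / Q) := by gcongr
    have h3 : (b : ℝ) * (1 / Q) ≤ 1 / 4 := by
      rw [mul_one_div, div_le_div_iff₀ hQ0 (by norm_num)]
      have : ((4 * b : ℕ) : ℝ) ≤ Q := by exact_mod_cast hQb
      push_cast at this
      linarith
    linarith
  exact h1.trans (Finset.single_le_sum (f := fun k => max 0 (1 - b * ‖Q ^ (k + 1) • x‖))
    (fun _ _ => le_max_left _ _) (Finset.mem_range.mpr hk))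

theorem G_zero {Q m b : ℕ} (hb : 0 < b) (x : UnitAddCircle)
    (h : ∀ k < m, 1 / (b : ℝ) ≤ ‖Q ^ (k + 1) • x‖) : G Q m b x = 0 := by
  have hb0 : (0 : ℝ) < b := by exact_mod_cast hb
  unfold G
  rw [Finset.sum_eq_zero]
  · simp
  · intro k hk
    have h1 := h k (Finset.mem_range.mp hk)
    apply max_eq_left
    rw [div_le_iff₀ hb0] at h1
    linarith

/-- the sums of `N` differences of functions bounded by `M`, plus constants -/
def X (N M : ℕ) : Set C(UnitAddCircle, ℝ) :=
  {f | ∃ (c : ℝ) (a : Fin N → UnitAddCircle) (g : Fin N → C(UnitAddCircle, ℝ)),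
    (∀ j t, |g j t| ≤ M) ∧ ∀ t, f t = c + ∑ j, (g j t - g j (t - a j))}

theorem X_no_ball (N M : ℕ) (h : C(UnitAddCircle, ℝ)) (δ : ℝ) (hδ : 0 < δ)
    (hball : Metric.ball h δ ⊆ closure (X N M)) : False := by
  obtain ⟨L, hL⟩ := exists_nat_gt (32 * (N : ℝ) * M / δ + 1)
  have hLpos : 0 ≤ 32 * (N : ℝ) * M / δ := by positivity
  have hL1 : (1 : ℝ) < L := by linarith
  have hL1' : 1 ≤ L := by
    have : (1 : ℕ) < L := by exact_mod_cast hL1
    omega
  -- the number of points is bounded independently of the translations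
  set m : ℕ := L ^ (2 * N) with hm
  set b : ℕ := 2 * m ^ 2 + 1 with hb
  set Q : ℕ := 4 * b with hQ
  have hlen : ∀ l : List UnitAddCircle, (offs L l).length = L ^ l.length := by
    intro l
    induction l with
    | nil => simp [offs]
    | cons a l ih =>
      simp only [offs, List.length_flatMap, List.length_map, ih, List.length_cons]
      simp [pow_succ, mul_comm]
  set F : C(UnitAddCircle, ℝ) := h + (δ / 2) • ⟨G Q m b, G_cont Q m b⟩ with hF
  have hFt : ∀ t, F t = h t + (δ / 2) * G Q m b t := by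
    intro t; rw [hF]; simp
  have hFball : F ∈ Metric.ball h δ := by
    rw [mem_ball_iff_norm]
    refine lt_of_le_of_lt ((ContinuousMap.norm_le _ (by positivity : (0 : ℝ) ≤ δ / 2)).mpr ?_)
      (by linarith : δ / 2 < δ)
    intro t
    rw [ContinuousMap.sub_apply, hFt, add_sub_cancel_left, Real.norm_eq_abs, abs_mul,
      abs_of_pos (by positivity : (0 : ℝ) < δ / 2), abs_of_nonneg (G_nonneg _ _ _ _)]
    have := G_le_one Q m b t
    nlinarith
  have hhball : h ∈ Metric.ball h δ := Metric.mem_ball_self hδ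
  obtain ⟨F', hF', hFd⟩ := Metric.mem_closure_iff.mp (hball hFball) (δ / 32) (by positivity)
  obtain ⟨h', hh', hhd⟩ := Metric.mem_closure_iff.mp (hball hhball) (δ / 32) (by positivity)
  obtain ⟨c₁, a₁, g₁, hg₁, hF'⟩ := hF'
  obtain ⟨c₂, a₂, g₂, hg₂, hh'⟩ := hh'
  -- the list of all translations
  set l : List UnitAddCircle := List.ofFn a₁ ++ List.ofFn a₂ with hl
  have hll : l.length = 2 * N := by rw [hl]; simp; ring
  have hol : (offs L l).length = m := by rw [hlen, hll]
  set s : ℕ → UnitAddCircle := fun i => (offs L l).getD i 0 with hs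
  obtain ⟨y, hy⟩ := exists_near Q (by omega) m (fun i => Q • s i)
  obtain ⟨r, rfl⟩ := QuotientAddGroup.mk_surjective y
  have hQ0 : (0 : ℝ) < Q := by
    have : 0 < Q := by omega
    exact_mod_cast this
  set x₁ : UnitAddCircle := ((r / Q : ℝ) : UnitAddCircle) with hx₁
  have hx₁Q : Q • x₁ = ((r : ℝ) : UnitAddCircle) := by
    rw [hx₁, ← AddCircle.coe_nsmul, nsmul_eq_mul, mul_div_cancel₀ _ hQ0.ne']
  obtain ⟨x₀, hx₀⟩ := exists_far Q m b (by omega) (by omega) s
  have hmem : ∀ o ∈ offs L l, ∃ i < m, s i = o := by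
    intro o ho
    obtain ⟨i, hi, rfl⟩ := List.getElem_of_mem ho
    refine ⟨i, by rw [← hol]; exact hi, ?_⟩
    simp [hs, hi]
  have hbig : ∀ o ∈ offs L l, 3 / 4 ≤ G Q m b (x₁ + o) := by
    intro o ho
    obtain ⟨i, hi, rfl⟩ := hmem o ho
    apply G_big (by omega) (by omega) _ i hi
    have := hy i hi
    rw [pow_succ, mul_smul, smul_add Q, hx₁Q]
    exact this
  have hzero : ∀ o ∈ offs L l, G Q m b (x₀ + o) = 0 := by
    intro o ho
    obtain ⟨i, hi, rfl⟩ := hmem o ho
    exact G_zero (by omega) _ (hx₀ i hi)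
  have hdist : ∀ (p q : C(UnitAddCircle, ℝ)) (ε : ℝ), dist p q < ε → ∀ t, |p t - q t| ≤ ε := by
    intro p q ε hpq t
    have := (ContinuousMap.dist_apply_le_dist (f := p) (g := q) t).trans hpq.le
    rwa [Real.dist_eq] at this
  have hFd' := hdist _ _ _ hFd
  have hhd' := hdist _ _ _ hhd
  have hM0 : (0 : ℝ) ≤ M := by positivity
  -- upper bounds for the averages
  have hE₁ : ∀ y, |Av L l (fun t => ∑ j, (g₁ j t - g₁ j (t - a₁ j))) y| ≤ N * (2 * M / L) := by
    intro y
    have := Av_sum_diff hL1' l Finset.univ a₁ (fun j t => g₁ j t) M hg₁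
      (fun j => by rw [hl]; simp [List.mem_ofFn]) y
    simpa using this
  have hE₂ : ∀ y, |Av L l (fun t => ∑ j, (g₂ j t - g₂ j (t - a₂ j))) y| ≤ N * (2 * M / L) := by
    intro y
    have := Av_sum_diff hL1' l Finset.univ a₂ (fun j t => g₂ j t) M hg₂
      (fun j => by rw [hl]; simp [List.mem_ofFn]) y
    simpa using this
  -- the function `F' - h'` in two ways
  have hD : ∀ y, Av L l (fun t => F' t - h' t) y = (c₁ - c₂) +
      (Av L l (fun t => ∑ j, (g₁ j t - g₁ j (t - a₁ j))) y
        - Av L l (fun t => ∑ j, (g₂ j t - g₂ j (t - a₂ j))) y) := by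
    intro y
    have e1 : (fun t => F' t - h' t) = fun t => (c₁ - c₂) +
        ((∑ j, (g₁ j t - g₁ j (t - a₁ j))) + -(∑ j, (g₂ j t - g₂ j (t - a₂ j)))) := by
      ext t
      rw [hF' t, hh' t]; ring
    rw [e1, Av_add L l (fun _ => c₁ - c₂), Av_const hL1', Av_add, Av_neg]
    ring
  have hdiff : Av L l (fun t => F' t - h' t) x₁ - Av L l (fun t => F' t - h' t) x₀ ≤
      8 * N * M / L := by
    rw [hD, hD]
    have h1 := hE₁ x₁
    have h2 := hE₁ x₀
    have h3 := hE₂ x₁
    have h4 := hE₂ x₀
    rw [abs_le] at h1 h2 h3 h4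
    have h5 : (8 : ℝ) * N * M / L = 4 * (N * (2 * M / L)) := by ring
    rw [h5]
    linarith [h1.1, h1.2, h2.1, h2.2, h3.1, h3.2, h4.1, h4.2]
  have hclose : ∀ t, |(F' t - h' t) - (δ / 2) * G Q m b t| ≤ δ / 16 := by
    intro t
    have h1 := hFd' t
    have h2 := hhd' t
    rw [hFt] at h1
    rw [abs_le] at h1 h2 ⊢
    constructor <;> linarith [h1.1, h1.2, h2.1, h2.2]
  have hlow : 3 * δ / 8 - δ / 16 ≤ Av L l (fun t => F' t - h' t) x₁ := by
    have h1 := Av_mono L l (fun _ => 3 * δ / 8 - δ / 16) (fun t => F' t - h' t) x₁ (by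
      intro o ho
      have h2 := hbig o ho
      have h3 := hclose (x₁ + o)
      rw [abs_le] at h3
      show 3 * δ / 8 - δ / 16 ≤ F' (x₁ + o) - h' (x₁ + o)
      nlinarith [h3.1, h3.2])
    rwa [Av_const hL1'] at h1
  have hupp : Av L l (fun t => F' t - h' t) x₀ ≤ δ / 16 := by
    have h1 := Av_mono L l (fun t => F' t - h' t) (fun _ => δ / 16) x₀ (by
      intro o ho
      have h2 := hzero o ho
      have h3 := hclose (x₀ + o)
      rw [h2, mul_zero, sub_zero, abs_le] at h3
      exact h3.2)
    rwa [Av_const hL1'] at h1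
  have hfin : 8 * (N : ℝ) * M / L < δ / 4 := by
    have h1 : 32 * (N : ℝ) * M / δ < L := by linarith
    rw [div_lt_iff₀ hδ] at h1
    rw [div_lt_iff₀ (by linarith)]
    linarith
  linarith

/-- The negation of the preceding statement: Every continuous 1-periodic complex function on the reals with zero integral over [0,1] equals a finite sum of differences g_j(t) − g_j(t − a_j), with each g_j continuous and 1-periodic and each a_j real. -/
theorem result :
    ¬ (∀ f : ℝ → ℂ, Continuous f → Function.Periodic f 1 →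
      (∫ t in (0:ℝ)..1, f t) = 0 →
      ∃ N : ℕ, 1 ≤ N ∧ ∃ a : Fin N → ℝ, ∃ g : Fin N → ℝ → ℂ,
        (∀ j, Continuous (g j) ∧ Function.Periodic (g j) 1) ∧
        ∀ t : ℝ, f t = ∑ j : Fin N, (g j t - g j (t - a j))) := by
  intro H
  -- the sets `X N M` cover the space of continuous functions
  have hcover : ∀ f : C(UnitAddCircle, ℝ), ∃ p : ℕ × ℕ, f ∈ X p.1 p.2 := by
    intro f
    set c : ℝ := ∫ t in (0:ℝ)..1, f (t : UnitAddCircle) with hc
    obtain ⟨N, -, a, g, hg, hfg⟩ := H (fun t => ((f (t : UnitAddCircle) - c : ℝ) : ℂ))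
      (by fun_prop)
      (by
        intro t
        show ((f ((t + 1 : ℝ) : UnitAddCircle) - c : ℝ) : ℂ) = ((f (t : UnitAddCircle) - c : ℝ) : ℂ)
        rw [AddCircle.coe_add, AddCircle.coe_period, add_zero])
      (by
        rw [intervalIntegral.integral_ofReal, intervalIntegral.integral_sub]
        · rw [← hc]; simp
        · exact (Continuous.intervalIntegrable (by fun_prop) _ _)
        · exact (Continuous.intervalIntegrable (by fun_prop) _ _))
    -- descend the real parts
    have hper : ∀ j, Function.Periodic (fun t => (g j t).re) 1 := fun j t => by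
      show (g j (t + 1)).re = (g j t).re
      rw [(hg j).2 t]
    let G' : Fin N → C(UnitAddCircle, ℝ) := fun j =>
      ⟨(hper j).lift, by
        apply continuous_coinduced_dom.mpr
        show Continuous ((hper j).lift ∘ ((↑) : ℝ → UnitAddCircle))
        have : (hper j).lift ∘ ((↑) : ℝ → UnitAddCircle) = fun t => (g j t).re := by
          ext t; simp
        rw [this]
        exact Complex.continuous_re.comp (hg j).1⟩
    have hG' : ∀ j (t : ℝ), G' j (t : UnitAddCircle) = (g j t).re := by
      intro j t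
      show (hper j).lift (t : UnitAddCircle) = _
      simp
    obtain ⟨M, hM⟩ := exists_nat_ge (∑ j, ‖G' j‖)
    refine ⟨(N, M), c, fun j => (a j : UnitAddCircle), G', ?_, ?_⟩
    · intro j t
      have h1 := (G' j).norm_coe_le_norm t
      rw [Real.norm_eq_abs] at h1
      refine h1.trans (le_trans ?_ hM)
      exact Finset.single_le_sum (f := fun j => ‖G' j‖) (fun _ _ => norm_nonneg _)
        (Finset.mem_univ j)
    · intro t
      obtain ⟨r, rfl⟩ := QuotientAddGroup.mk_surjective t
      have h1 := congrArg Complex.re (hfg r)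
      simp only [Complex.ofReal_re, Complex.re_sum, Complex.sub_re] at h1
      have h2 : ∀ j, G' j ((r : UnitAddCircle) - (a j : UnitAddCircle)) = (g j (r - a j)).re := by
        intro j
        rw [← hG', AddCircle.coe_sub]
      show f (r : UnitAddCircle) = c + ∑ j, (G' j (r : UnitAddCircle) -
        G' j ((r : UnitAddCircle) - (a j : UnitAddCircle)))
      simp only [h2, hG']
      linarith
  have hU : ⋃ p : ℕ × ℕ, closure (X p.1 p.2) = Set.univ := by
    apply Set.eq_univ_of_forall
    intro f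
    obtain ⟨p, hp⟩ := hcover f
    exact Set.mem_iUnion.mpr ⟨p, subset_closure hp⟩
  obtain ⟨p, hp⟩ := nonempty_interior_of_iUnion_of_closed (fun p : ℕ × ℕ => isClosed_closure) hU
  obtain ⟨h, hh⟩ := hp
  obtain ⟨δ, hδ, hball⟩ := Metric.mem_nhds_iff.mp (mem_interior_iff_mem_nhds.mp hh)
  exact X_no_ball p.1 p.2 h δ hδ hball

end Pool.Agent.S05778
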