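import Pool.Statements.S05794
import Pool.Agent.H940R3.Fek.Vdm

set_option autoImplicit false
open Pool Pool.MP_ad3787_an

namespace Pool.Agent.S05794

/-- The negation of the preceding statement: For every compact L-regular K in C^d there is c>1 such that any Fekete arrays of order ceil(cn) form an admissible mesh: for some C, every polynomial of degree at most n bounded by 1 on the order-ceil(cn) array is bounded by C on K. -/
theorem result :
    ¬ (∀ (d : ℕ) (K : Set (Fin d → ℂ)), IsCompact K →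
      (∃ Φ : (Fin d → ℂ) → ℝ, Continuous Φ ∧ ∀ z : Fin d → ℂ,
        IsLUB {t : ℝ | t = 1 ∨ ∃ p : MvPolynomial (Fin d) ℂ, 1 ≤ p.totalDegree ∧
          (∀ x ∈ K, ‖MvPolynomial.eval x p‖ ≤ 1) ∧
          t = ‖MvPolynomial.eval z p‖ ^ ((1 : ℝ) / (p.totalDegree : ℝ))} (Φ z)) →
      ∃ c : ℝ, 1 < c ∧
        ∀ F : (N : ℕ) → {α : Fin d → ℕ // α ∈ Finset.filter (fun α : Fin d → ℕ => ∑ i, α i ≤ N)
              (Fintype.piFinset fun _ : Fin d => Finset.range (N + 1))} → (Fin d → ℂ),
          (∀ N : ℕ, (∀ a, F N a ∈ K) ∧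
            ∀ y : {α : Fin d → ℕ // α ∈ Finset.filter (fun α : Fin d → ℕ => ∑ i, α i ≤ N)
              (Fintype.piFinset fun _ : Fin d => Finset.range (N + 1))} → (Fin d → ℂ),
              (∀ a, y a ∈ K) →
              ‖(Matrix.of (fun a b : {α : Fin d → ℕ // α ∈ Finset.filter (fun α : Fin d → ℕ => ∑ i, α i ≤ N)
                  (Fintype.piFinset fun _ : Fin d => Finset.range (N + 1))} =>
                  ∏ i, y a i ^ (b.1 i))).det‖ ≤
              ‖(Matrix.of (fun a b : {α : Fin d → ℕ // α ∈ Finset.filter (fun α : Fin d → ℕ => ∑ i, α i ≤ N)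
                  (Fintype.piFinset fun _ : Fin d => Finset.range (N + 1))} =>
                  ∏ i, F N a i ^ (b.1 i))).det‖) →
          ∃ C : ℝ, ∀ n : ℕ, ∀ p : MvPolynomial (Fin d) ℂ, p.totalDegree ≤ n →
            (∀ a, ‖MvPolynomial.eval (F ⌈c * (n : ℝ)⌉₊ a) p‖ ≤ 1) →
            ∀ z ∈ K, ‖MvPolynomial.eval z p‖ ≤ C) := by
  intro H
  obtain ⟨P, hP0, hD, hsimp, hS⟩ := Pool.Agent.H940R3.Fek.exists_seq
  have hKc := Pool.Agent.H940R3.Fek.Ks_compact hD hS
  set K0 : Set ℂ := Pool.Agent.H940R3.Fek.Ks P with hK0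
  set K : Set (Fin 1 → ℂ) := Set.pi Set.univ (fun _ => K0) with hK
  have hmemK : ∀ z : Fin 1 → ℂ, z ∈ K ↔ z 0 ∈ K0 := by
    intro z
    rw [hK, Set.mem_univ_pi]
    constructor
    · intro h
      exact h 0
    · intro h i
      have : i = 0 := Subsingleton.elim _ _
      rw [this]
      exact h
  have hKcomp : IsCompact K := isCompact_univ_pi fun _ => hKc
  obtain ⟨c, hc1, hF⟩ := H 1 K hKcomp
    ⟨fun z => Real.exp (⨆ i, Pool.Agent.H940R3.Fek.gj P i (z 0)), by
      exact Real.continuous_exp.comp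
        ((Pool.Agent.H940R3.Fek.g_cont hD hS).comp (continuous_apply 0)), by
      intro z
      have hbdd := Pool.Agent.H940R3.Fek.gj_bdd hD hS (z 0)
      constructor
      · rintro t (rfl | ⟨p, hp1, hp2, rfl⟩)
        · apply Real.one_le_exp
          exact (Pool.Agent.H940R3.Fek.gj_nonneg P 0 (z 0)).trans (le_ciSup hbdd 0)
        · have h1 := Pool.Agent.H940R3.Fek.bw_Ks hD hS
            (Pool.Agent.H940R3.Fek.natDegree_uni p) (by
              intro w hw
              have h2 := hp2 (fun _ => w) ((hmemK _).2 hw)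
              rwa [← Pool.Agent.H940R3.Fek.eval_uni] at h2) (z 0)
          rw [Pool.Agent.H940R3.Fek.eval_uni] at h1
          have hn : (0 : ℝ) < p.totalDegree := by exact_mod_cast hp1
          calc ‖MvPolynomial.eval z p‖ ^ ((1 : ℝ) / (p.totalDegree : ℝ))
              ≤ (Real.exp (p.totalDegree * ⨆ i, Pool.Agent.H940R3.Fek.gj P i (z 0)))
                ^ ((1 : ℝ) / (p.totalDegree : ℝ)) := by
                apply Real.rpow_le_rpow (norm_nonneg _) h1 (by positivity)
            _ = Real.exp (⨆ i, Pool.Agent.H940R3.Fek.gj P i (z 0)) := by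
                rw [← Real.exp_mul]
                congr 1
                field_simp
      · intro u hu
        have hu1 : 1 ≤ u := hu (Or.inl rfl)
        have hlog : (⨆ i, Pool.Agent.H940R3.Fek.gj P i (z 0)) ≤ Real.log u := by
          apply ciSup_le
          intro j
          have hDj : (0 : ℝ) < (P j).natDegree := by exact_mod_cast hD j
          have h1 : ‖(P j).eval (z 0)‖ ^ ((1 : ℝ) / ((P j).natDegree : ℝ)) ≤ u := by
            apply hu
            right
            refine ⟨Pool.Agent.H940R3.Fek.multi (P j), ?_, ?_, ?_⟩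
            · rw [Pool.Agent.H940R3.Fek.totalDegree_multi]
              exact hD j
            · intro x hx
              rw [Pool.Agent.H940R3.Fek.eval_multi]
              exact (hmemK x).1 hx j
            · rw [Pool.Agent.H940R3.Fek.totalDegree_multi, Pool.Agent.H940R3.Fek.eval_multi]
          unfold Pool.Agent.H940R3.Fek.gj
          rw [div_le_iff₀ hDj]
          have h2 : max 1 ‖(P j).eval (z 0)‖ ≤ u ^ ((P j).natDegree : ℝ) := by
            apply max_le
            · exact Real.one_le_rpow hu1 hDj.le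
            · calc ‖(P j).eval (z 0)‖
                  = (‖(P j).eval (z 0)‖ ^ ((1 : ℝ) / ((P j).natDegree : ℝ)))
                    ^ ((P j).natDegree : ℝ) := by
                    rw [← Real.rpow_mul (norm_nonneg _), one_div, inv_mul_cancel₀ hDj.ne',
                      Real.rpow_one]
                _ ≤ u ^ ((P j).natDegree : ℝ) := by
                    apply Real.rpow_le_rpow _ h1 hDj.le
                    positivity
          calc Real.log (max 1 ‖(P j).eval (z 0)‖) ≤ Real.log (u ^ ((P j).natDegree : ℝ)) := by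
                apply Real.log_le_log _ h2
                exact lt_of_lt_of_le one_pos (le_max_left _ _)
            _ = Real.log u * (P j).natDegree := by
                rw [Real.log_rpow (by linarith)]
                ring
        calc Real.exp (⨆ i, Pool.Agent.H940R3.Fek.gj P i (z 0)) ≤ Real.exp (Real.log u) :=
              Real.exp_le_exp.2 hlog
          _ = u := Real.exp_log (by linarith)⟩
  -- a Fekete array
  have hfekex : ∀ N : ℕ, ∃ F : Pool.Agent.H940R3.Fek.Idx N → (Fin 1 → ℂ), (∀ a, F a ∈ K) ∧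
      ∀ y : Pool.Agent.H940R3.Fek.Idx N → (Fin 1 → ℂ), (∀ a, y a ∈ K) →
        ‖(Matrix.of (fun a b : Pool.Agent.H940R3.Fek.Idx N => ∏ i, y a i ^ (b.1 i))).det‖ ≤
          ‖(Matrix.of (fun a b : Pool.Agent.H940R3.Fek.Idx N => ∏ i, F a i ^ (b.1 i))).det‖ := by
    intro N
    have hcomp : IsCompact (Set.pi Set.univ (fun _ : Pool.Agent.H940R3.Fek.Idx N => K)) :=
      isCompact_univ_pi fun _ => hKcomp
    have hne : (Set.pi Set.univ (fun _ : Pool.Agent.H940R3.Fek.Idx N => K)).Nonempty := by
      obtain ⟨w, hw⟩ := (Pool.Agent.H940R3.Fek.Ks_infinite hD hS hsimp).nonempty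
      exact ⟨fun _ _ => w, fun _ _ => (hmemK _).2 hw⟩
    have hcont : Continuous (fun y : Pool.Agent.H940R3.Fek.Idx N → (Fin 1 → ℂ) =>
        ‖(Matrix.of (fun a b : Pool.Agent.H940R3.Fek.Idx N => ∏ i, y a i ^ (b.1 i))).det‖) := by
      apply Continuous.norm
      apply Continuous.matrix_det
      apply continuous_matrix
      intro a b
      simp only [Matrix.of_apply]
      apply continuous_finsetProd
      intro i _
      exact ((continuous_apply i).comp (continuous_apply a)).pow _
    obtain ⟨F, hF1, hF2⟩ := hcomp.exists_isMaxOn hne hcont.continuousOn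
    refine ⟨F, fun a => hF1 a (Set.mem_univ a), ?_⟩
    intro y hy
    exact hF2 (fun a _ => hy a)
  choose F hFK hFmax using hfekex
  obtain ⟨C, hC⟩ := hF F (fun N => ⟨hFK N, hFmax N⟩)
  -- the stage
  obtain ⟨j, hj⟩ := exists_nat_ge (max c |C|)
  have hjc : c ≤ j := (le_max_left _ _).trans hj
  have hjC : C ≤ j := (le_abs_self C).trans ((le_max_right _ _).trans hj)
  obtain ⟨r, N, n0, p, h1, h2, h3, h4, h5, h6, h7, h8, h9, h10⟩ := hS j
  have hc0 : 0 < c := by linarith
  have hN1 : 1 ≤ N := by omega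
  have hNR : ((N - 1 : ℕ) : ℝ) = (N : ℝ) - 1 := by
    rw [Nat.cast_sub hN1]
    simp
  set n' : ℕ := ⌊((N : ℝ) - 1) / c⌋₊ with hn'
  set m : ℕ := ⌈c * (n' : ℝ)⌉₊ with hm
  have hNge : (1 : ℝ) ≤ N := by exact_mod_cast hN1
  have hfl : (n' : ℝ) ≤ ((N : ℝ) - 1) / c := Nat.floor_le (div_nonneg (by linarith) hc0.le)
  have hfl2 : ((N : ℝ) - 1) / c < n' + 1 := Nat.lt_floor_add_one _
  have hcn : c * (n' : ℝ) ≤ (N : ℝ) - 1 := by
    rw [le_div_iff₀ hc0] at hfl
    linarith
  have hcn2 : (N : ℝ) - 1 < c * (n' : ℝ) + c := by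
    rw [div_lt_iff₀ hc0] at hfl2
    linarith
  have hm1 : m + 1 ≤ N := by
    have : m ≤ N - 1 := by
      rw [hm, Nat.ceil_le, hNR]
      exact hcn
    omega
  have hm2 : N ≤ m + 1 + (j + 1) := by
    have e1 : c * (n' : ℝ) ≤ m := Nat.le_ceil _
    have e2 : (N : ℝ) < m + 1 + (j + 1) := by linarith
    have e3 : N < m + 1 + (j + 1) := by exact_mod_cast e2
    omega
  have hn0 : n0 ≤ n' := by
    rw [hn', Nat.le_floor_iff (div_nonneg (by linarith) hc0.le), le_div_iff₀ hc0]
    have e1 : ((j : ℝ) + 1) * (n0 + 1) + 1 ≤ N := by exact_mod_cast h8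
    have e2 : (0 : ℝ) ≤ n0 := by positivity
    have e3 : (n0 : ℝ) * c ≤ n0 * j := by gcongr
    nlinarith
  -- the Fekete tuple of order m
  have hx : Pool.Agent.H940R3.Fek.IsFek K0
      (fun k : Fin (m + 1) => F m (Pool.Agent.H940R3.Fek.eIdx m k) 0) := by
    apply Pool.Agent.H940R3.Fek.fek_of_max
    · intro i
      exact (hmemK _).1 (hFK m _)
    · rw [← Pool.Agent.H940R3.Fek.det_eq]
      intro h0
      have hinf := Pool.Agent.H940R3.Fek.Ks_infinite hD hS hsimp
      let f := Set.Infinite.natEmbedding K0 hinf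
      have hmax := hFmax m (fun a _ => (f ((Pool.Agent.H940R3.Fek.eIdx m).symm a).1 : ℂ))
        (fun a => (hmemK _).2 (f ((Pool.Agent.H940R3.Fek.eIdx m).symm a).1).2)
      rw [h0, norm_zero, Pool.Agent.H940R3.Fek.det_eq] at hmax
      have hz := norm_le_zero_iff.1 hmax
      rw [Matrix.det_vandermonde_eq_zero_iff] at hz
      obtain ⟨a, b, hab, hne⟩ := hz
      simp only [Equiv.symm_apply_apply] at hab
      have := f.injective (Subtype.ext hab)
      exact hne (Fin.ext this)
    · intro y hy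
      have hmax := hFmax m (fun a _ => y ((Pool.Agent.H940R3.Fek.eIdx m).symm a))
        (fun a => (hmemK _).2 (hy _))
      rw [Pool.Agent.H940R3.Fek.det_eq, Pool.Agent.H940R3.Fek.det_eq] at hmax
      simpa only [Equiv.symm_apply_apply] using hmax
  have hbound := h9 K0 (fun x hx => hx (j + 1))
    (fun z hz => Pool.Agent.H940R3.Fek.zero_mem hD hS (j + 1) z hz) m hm1 hm2 _ hx
  have hq := hC n' (Pool.Agent.H940R3.Fek.multi (Polynomial.C (1 / 2 : ℂ) * p))
    (by
      rw [Pool.Agent.H940R3.Fek.totalDegree_multi]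
      exact ((Polynomial.natDegree_C_mul_le _ _).trans h7).trans hn0)
    (by
      intro a
      rw [Pool.Agent.H940R3.Fek.eval_multi, Polynomial.eval_mul, Polynomial.eval_C, norm_mul]
      have h11 := hbound ((Pool.Agent.H940R3.Fek.eIdx m).symm a)
      rw [Equiv.apply_symm_apply] at h11
      have h12 : ‖(1 / 2 : ℂ)‖ = 1 / 2 := by simp
      rw [h12]
      linarith)
  have hpos : 0 < (P j).degree := Polynomial.natDegree_pos_iff_degree_pos.1 (hD j)
  obtain ⟨z0, hz0⟩ := Complex.exists_root hpos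
  have hfin := hq (fun _ => z0) ((hmemK _).2 (Pool.Agent.H940R3.Fek.zero_mem hD hS j z0 hz0))
  rw [Pool.Agent.H940R3.Fek.eval_multi, Polynomial.eval_mul, Polynomial.eval_C, norm_mul] at hfin
  have h13 := h10 z0 hz0
  have h12 : ‖(1 / 2 : ℂ)‖ = 1 / 2 := by simp
  rw [h12] at hfin
  linarith

end Pool.Agent.S05794
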