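import Pool.Statements.S05810
import Pool.Agent.H636R3.FKLimit

set_option autoImplicit false
open MeasureTheory Filter Topology Set
open scoped Classical
open Pool Pool.MP_ae6ac5_an

namespace Pool.Agent.S05810

/-- The negation of the preceding statement: For G with a descending directed family of normal subgroups meeting trivially and any integer matrix A over ZG, the Fuglede-Kadison determinants of the reductions of A over G/G_i converge to that of A over G. -/
theorem result :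
    ¬ (∀ (G : Type) [Group G] (I : Type) [Preorder I] [IsDirected I (· ≤ ·)] [Nonempty I]
    (N : I → Subgroup G) [∀ i, (N i).Normal],
    (∀ i j, i ≤ j → N j ≤ N i) → (⨅ i, N i) = ⊥ →
    ∀ (r s : ℕ) (a : Fin r → Fin s → (G →₀ ℤ)) (μ : Measure ℝ) (ν : I → Measure ℝ),
    IsFiniteMeasure μ → (∃ C : ℝ, μ (Icc 0 C)ᶜ = 0) →
    (∀ n : ℕ, ∫ x, x ^ n ∂μ =
      ∑ k : Fin r, (((Nat.iterate
          (fun (X : Fin r → Fin r → G → ℤ) => fun (k₁ k₂ : Fin r) (g : G) =>
            ∑ k' : Fin r, ∑ᶠ h : G, X k₁ k' h *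
              ∑ l : Fin s, ∑ᶠ t : G, a k' l t * a k₂ l ((h⁻¹ * g)⁻¹ * t))
          n
          (fun (k₁ k₂ : Fin r) (g : G) => if k₁ = k₂ ∧ g = 1 then (1 : ℤ) else 0))
          k k 1 : ℤ) : ℝ)) →
    (∀ i, IsFiniteMeasure (ν i) ∧ (∃ C : ℝ, ν i (Icc 0 C)ᶜ = 0) ∧
      ∀ n : ℕ, ∫ x, x ^ n ∂(ν i) =
        ∑ k : Fin r, (((Nat.iterate
          (fun (X : Fin r → Fin r → G ⧸ N i → ℤ) => fun (k₁ k₂ : Fin r) (g : G ⧸ N i) =>
            ∑ k' : Fin r, ∑ᶠ h : G ⧸ N i, X k₁ k' h *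
              ∑ l : Fin s, ∑ᶠ t : G ⧸ N i,
                (Finsupp.mapDomain (QuotientGroup.mk' (N i)) (a k' l)) t *
                (Finsupp.mapDomain (QuotientGroup.mk' (N i)) (a k₂ l)) ((h⁻¹ * g)⁻¹ * t))
          n
          (fun (k₁ k₂ : Fin r) (g : G ⧸ N i) => if k₁ = k₂ ∧ g = 1 then (1 : ℤ) else 0))
          k k 1 : ℤ) : ℝ)) →
    Tendsto
      (fun i => if IntegrableOn Real.log (Ioi 0) (ν i)
        then Real.exp ((1 / 2 : ℝ) * ∫ x in Ioi 0, Real.log x ∂(ν i)) else 0)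
      atTop
      (𝓝 (if IntegrableOn Real.log (Ioi 0) μ
        then Real.exp ((1 / 2 : ℝ) * ∫ x in Ioi 0, Real.log x ∂μ) else 0))) := by
  intro H
  obtain ⟨μ, hμ1, hμ2, hμ3, hμ4⟩ := Pool.Agent.H636R3.FK.exists_limit
  have key := H Pool.Agent.H636R3.FK.Heis ℕ (fun i => Pool.Agent.H636R3.FK.NN (3 ^ (i + 1)))
    (fun i j hij => Pool.Agent.H636R3.FK.NN_anti (pow_dvd_pow 3 (by omega)))
    Pool.Agent.H636R3.FK.iInf_NN 1 1 (fun _ _ => Pool.Agent.H636R3.FK.aa.coeff) μ
    (fun i => Pool.Agent.H636R3.FK.nu (3 ^ (i + 1))) inferInstance ⟨49, hμ2⟩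
    (by
      intro n
      rw [hμ3 n]
      simp only [Finset.univ_unique, Finset.sum_singleton]
      have h := Pool.Agent.H636R3.FK.iterate_eq Pool.Agent.H636R3.FK.aa.coeff n default default 1
      simp only [Finset.univ_unique, Finset.sum_singleton] at h
      rw [h])
    (by
      intro i
      refine ⟨inferInstance, ⟨49, Pool.Agent.H636R3.FK.nu_supp _⟩, ?_⟩
      intro n
      rw [Pool.Agent.H636R3.FK.nu_moment]
      simp only [Finset.univ_unique, Finset.sum_singleton]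
      have h := Pool.Agent.H636R3.FK.iterate_eq
        (Finsupp.mapDomain (QuotientGroup.mk' (Pool.Agent.H636R3.FK.NN (3 ^ (i + 1)))) Pool.Agent.H636R3.FK.aa.coeff) n default default 1
      simp only [Finset.univ_unique, Finset.sum_singleton] at h
      rw [Pool.Agent.H636R3.FK.quot_coeff, ← h]
      congr!)
  obtain ⟨h1, h2⟩ := Pool.Agent.H636R3.FK.log_lower μ hμ2 hμ4
  rw [if_pos h1] at key
  have h3 := le_of_tendsto' key fun i => Pool.Agent.H636R3.FK.nu_det_le i
  rw [Real.exp_le_exp] at h3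
  have h4 : Real.log 7 < 3 * Real.log 2 := by
    have : 3 * Real.log 2 = Real.log (2 ^ 3) := by rw [Real.log_pow]; norm_num
    rw [this]
    exact Real.log_lt_log (by norm_num) (by norm_num)
  linarith

end Pool.Agent.S05810
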