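import Pool.Statements.S05812
import Pool.Agent.H302R4.Chain

set_option autoImplicit false
open MeasureTheory
open Pool Pool.MP_ae7bf1_an

namespace Pool.Agent.S05812

/-- The negation of the preceding statement: For every k, every probability space, and measure-preserving maps T_ε indexed by ε in {0,1}^k (not necessarily commuting), any set A of positive measure has positive n in ℕ^k with the intersection over ε of T_ε^{-(ε·n)}A of positive measure. -/
theorem result :
    ¬ (∀ (k : ℕ) (X : Type) [MeasurableSpace X] (μ : Measure X) [IsProbabilityMeasure μ]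
      (T : (Fin k → Fin 2) → X → X),
      (∀ ε, MeasurePreserving (T ε) μ μ) →
      ∀ A : Set X, MeasurableSet A → 0 < μ A →
        ∃ n : Fin k → ℕ, (∀ i, 0 < n i) ∧
          0 < μ (⋂ ε : Fin k → Fin 2, (T ε)^[∑ i, ((ε i : ℕ) * n i)] ⁻¹' A)) := by
  intro H
  obtain ⟨p⟩ := H302R4.par_exists
  set v : Fin (Fintype.card (H302R4.IX (H302R4.PP p))) ≃ H302R4.IX (H302R4.PP p) :=
    (Fintype.equivFin (H302R4.IX (H302R4.PP p))).symm with hv
  obtain ⟨n', hn', hpos⟩ := H (Fintype.card (H302R4.IX (H302R4.PP p)))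
    (H302R4.XX (H302R4.PP p) (H302R4.EE p)) (H302R4.mu (H302R4.PP p) (H302R4.EE p))
    (fun ε' => H302R4.Tr p H302R4.resid (fun i => ε' (v.symm i)))
    (fun ε' => H302R4.Tr_mp p H302R4.resid _)
    (H302R4.AA p H302R4.resid) (H302R4.AA_meas p _) (H302R4.AA_pos p _)
  set n : H302R4.IX (H302R4.PP p) → ℕ := fun i => n' (v.symm i) with hn
  have hr0 : 0 < H302R4.PP p := by unfold H302R4.PP; omega
  set r0 : Fin (H302R4.PP p) := ⟨0, hr0⟩ with hr0def
  set i0 : H302R4.IX (H302R4.PP p) := (r0, 0) with hi0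
  have hni0 : 0 < n i0 := hn' _
  have hsub : ∀ h : ℕ, (⋂ ε : Fin (Fintype.card (H302R4.IX (H302R4.PP p))) → Fin 2,
      (H302R4.Tr p H302R4.resid (fun i => ε (v.symm i)))^[∑ i, ((ε i : ℕ) * n' i)] ⁻¹'
        (H302R4.AA p H302R4.resid)) ⊆
      {x : H302R4.XX (H302R4.PP p) (H302R4.EE p) |
        ∑ t : Fin (h + 1), ‖1 - H302R4.e (n i0 • x none (h, r0, (t : ℕ)))‖ ≤
          (1/1024) * (h + 1)} := by
    intro h x hx
    rw [Set.mem_iInter] at hx
    have hA : ∀ ε, H302R4.CondA p (H302R4.resid ε) (x (some ε)) := by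
      have h1 := hx (fun _ => 0)
      simp at h1
      exact h1
    have hA' : ∀ ε, H302R4.CondA p (H302R4.resid ε)
        (((H302R4.Tr p H302R4.resid ε)^[H302R4.ex n ε] x) (some ε)) := by
      intro ε
      have h1 := hx (fun i => ε (v i))
      have h2 : (fun i => ε (v (v.symm i))) = ε := by
        funext i; rw [Equiv.apply_symm_apply]
      have h3 : ∑ i, ((ε (v i) : ℕ) * n' i) = H302R4.ex n ε := by
        unfold H302R4.ex
        rw [← Equiv.sum_comp v (fun i => (ε i).val * n i)]
        apply Finset.sum_congr rfl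
        intro i _
        rw [hn]
        simp
      rw [h3] at h1
      have h4 : x ∈ (H302R4.Tr p H302R4.resid ε)^[H302R4.ex n ε] ⁻¹' (H302R4.AA p H302R4.resid) := by
        rw [← h2]
        rw [← h2] at h1
        simpa using h1
      exact h4 ε
    exact H302R4.chain p x n hA hA' h r0 i0
  have hle : ∀ h : ℕ, H302R4.mu (H302R4.PP p) (H302R4.EE p)
      (⋂ ε : Fin (Fintype.card (H302R4.IX (H302R4.PP p))) → Fin 2,
      (H302R4.Tr p H302R4.resid (fun i => ε (v.symm i)))^[∑ i, ((ε i : ℕ) * n' i)] ⁻¹'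
        (H302R4.AA p H302R4.resid)) ≤ ENNReal.ofReal (Real.exp (-(h + 1 : ℝ)/16)) := by
    intro h
    exact (measure_mono (hsub h)).trans (H302R4.small_prob p (n i0) hni0 r0 h)
  have hlim : Filter.Tendsto (fun h : ℕ => ENNReal.ofReal (Real.exp (-(h + 1 : ℝ)/16)))
      Filter.atTop (nhds 0) := by
    have h1 : Filter.Tendsto (fun h : ℕ => -(h + 1 : ℝ)/16) Filter.atTop Filter.atBot := by
      have h2 : (fun h : ℕ => -(h + 1 : ℝ)/16) = fun h : ℕ => (-(1/16:ℝ)) * (((h + 1 : ℕ)) : ℝ) := by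
        ext h; push_cast; ring
      rw [h2]
      refine (Filter.tendsto_const_mul_atBot_of_neg (by norm_num)).mpr ?_
      exact tendsto_natCast_atTop_atTop.comp (Filter.tendsto_add_atTop_nat 1)
    have h3 := ENNReal.tendsto_ofReal (Real.tendsto_exp_atBot.comp h1)
    simpa using h3
  have hzero := ge_of_tendsto' hlim hle
  exact absurd hpos (not_lt.mpr hzero)

end Pool.Agent.S05812
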