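import Pool.Statements.S05823
import Pool.Agent.H433R3.Haar4

set_option autoImplicit false
open Classical
open scoped ENNReal NNReal
open Pool Pool.MP_af6564_an

namespace Pool.Agent.S05823

/-- For every permutation π of the dyadic intervals of [0,1]: the Haar rearrangement T_π is bounded with bounded inverse in dyadic BMO iff some K>0 gives CC(π(B)) ≤ K·CC(B) and CC(B) ≤ K·CC(π(B)) for all collections B. -/
theorem result :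
  ∀ π : Equiv.Perm {p : ℕ × ℕ // p.2 < 2 ^ p.1},
    (∃ C : ℝ, 0 < C ∧
      ∀ a : {p : ℕ × ℕ // p.2 < 2 ^ p.1} →₀ ℝ, ∀ M : ℝ,
        ((∀ I : {p : ℕ × ℕ // p.2 < 2 ^ p.1},
            (2:ℝ) ^ I.1.1 * ∑ J ∈ a.support,
              (if I.1.1 ≤ J.1.1 ∧ J.1.2 / 2 ^ (J.1.1 - I.1.1) = I.1.2
                then a J ^ 2 / (2:ℝ) ^ J.1.1 else 0) ≤ M) →
          ∀ I : {p : ℕ × ℕ // p.2 < 2 ^ p.1},
            (2:ℝ) ^ I.1.1 * ∑ J ∈ a.support,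
              (if I.1.1 ≤ (π J).1.1 ∧ (π J).1.2 / 2 ^ ((π J).1.1 - I.1.1) = I.1.2
                then a J ^ 2 / (2:ℝ) ^ (π J).1.1 else 0) ≤ C * M) ∧
        ((∀ I : {p : ℕ × ℕ // p.2 < 2 ^ p.1},
            (2:ℝ) ^ I.1.1 * ∑ J ∈ a.support,
              (if I.1.1 ≤ (π J).1.1 ∧ (π J).1.2 / 2 ^ ((π J).1.1 - I.1.1) = I.1.2
                then a J ^ 2 / (2:ℝ) ^ (π J).1.1 else 0) ≤ M) →
          ∀ I : {p : ℕ × ℕ // p.2 < 2 ^ p.1},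
            (2:ℝ) ^ I.1.1 * ∑ J ∈ a.support,
              (if I.1.1 ≤ J.1.1 ∧ J.1.2 / 2 ^ (J.1.1 - I.1.1) = I.1.2
                then a J ^ 2 / (2:ℝ) ^ J.1.1 else 0) ≤ C * M)) ↔
    (∃ K : ℝ≥0, 0 < K ∧
      ∀ B : Set {p : ℕ × ℕ // p.2 < 2 ^ p.1},
        (⨆ I ∈ π '' B, (2:ℝ≥0∞) ^ I.1.1 *
            ∑' J : {p : ℕ × ℕ // p.2 < 2 ^ p.1},
              (if J ∈ π '' B ∧ I.1.1 ≤ J.1.1 ∧ J.1.2 / 2 ^ (J.1.1 - I.1.1) = I.1.2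
                then ((2:ℝ≥0∞) ^ J.1.1)⁻¹ else 0))
          ≤ (K : ℝ≥0∞) *
            (⨆ I ∈ B, (2:ℝ≥0∞) ^ I.1.1 *
              ∑' J : {p : ℕ × ℕ // p.2 < 2 ^ p.1},
                (if J ∈ B ∧ I.1.1 ≤ J.1.1 ∧ J.1.2 / 2 ^ (J.1.1 - I.1.1) = I.1.2
                  then ((2:ℝ≥0∞) ^ J.1.1)⁻¹ else 0)) ∧
        (⨆ I ∈ B, (2:ℝ≥0∞) ^ I.1.1 *
            ∑' J : {p : ℕ × ℕ // p.2 < 2 ^ p.1},
              (if J ∈ B ∧ I.1.1 ≤ J.1.1 ∧ J.1.2 / 2 ^ (J.1.1 - I.1.1) = I.1.2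
                then ((2:ℝ≥0∞) ^ J.1.1)⁻¹ else 0))
          ≤ (K : ℝ≥0∞) *
            (⨆ I ∈ π '' B, (2:ℝ≥0∞) ^ I.1.1 *
              ∑' J : {p : ℕ × ℕ // p.2 < 2 ^ p.1},
                (if J ∈ π '' B ∧ I.1.1 ≤ J.1.1 ∧ J.1.2 / 2 ^ (J.1.1 - I.1.1) = I.1.2
                  then ((2:ℝ≥0∞) ^ J.1.1)⁻¹ else 0))) := by
  intro π
  constructor
  · rintro ⟨C, hC, H⟩
    refine ⟨C.toNNReal, by simpa using hC, fun B => ?_⟩
    have h1 := Pool.Agent.H433R3.Haar.fwd (Equiv.refl _) π C hC (fun a M h => (H a M).1 h) B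
    have h2 := Pool.Agent.H433R3.Haar.fwd π (Equiv.refl _) C hC (fun a M h => (H a M).2 h) B
    have hid : (Equiv.refl {p : ℕ × ℕ // p.2 < 2 ^ p.1}) '' B = B := by simp
    rw [hid] at h1 h2
    exact ⟨h1, h2⟩
  · rintro ⟨K, hK, H⟩
    have hK' : (0:ℝ) < (K : ℝ) := by exact_mod_cast hK
    have hKe : ENNReal.ofReal (K : ℝ) = (K : ℝ≥0∞) := ENNReal.ofReal_coe_nnreal
    have hid : ∀ B : Set {p : ℕ × ℕ // p.2 < 2 ^ p.1},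
        (Equiv.refl {p : ℕ × ℕ // p.2 < 2 ^ p.1}) '' B = B := fun B => by simp
    refine ⟨(K : ℝ) * 3, by positivity, fun a M => ⟨?_, ?_⟩⟩
    · exact Pool.Agent.H433R3.Haar.bwd (Equiv.refl _) π K hK'
        (fun B => by rw [hid B, hKe]; exact (H B).1) a M
    · exact Pool.Agent.H433R3.Haar.bwd π (Equiv.refl _) K hK'
        (fun B => by rw [hid B, hKe]; exact (H B).2) a M

end Pool.Agent.S05823
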