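import Pool.Statements.S05850
import Pool.Agent.H591R3.FS5

set_option autoImplicit false
open Pool Pool.MP_b0cea1_an

namespace Pool.Agent.S05850

/-- The negation of the preceding statement: For every l>0 and every forcing set K in the upper half-plane, the set of moduli of points within hyperbolic distance l of K has lower-bounded relative measure c·r in (0,r) for arbitrarily small r, i.e. positive limsup of m(B'∩(0,r))/r. -/
theorem result :
    ¬ (∀ l : ℝ, 0 < l → ∀ K : Set ℂ, K ⊆ {z : ℂ | 0 < z.im} →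
      (∀ f : ℂ → ℂ, DifferentiableOn ℂ f {z : ℂ | 0 < z.im} →
          Set.InjOn f {z : ℂ | 0 < z.im} →
          Set.MapsTo f {z : ℂ | 0 < z.im} (Metric.ball (0 : ℂ) 1) →
          ∀ α : ℂ, Filter.Tendsto f (nhdsWithin 0 K) (nhds α) →
            ∀ θ : ℝ, 0 < θ → θ < Real.pi / 2 →
              Filter.Tendsto f
                (nhdsWithin 0 {z : ℂ | z ≠ 0 ∧ θ ≤ Complex.arg z ∧ Complex.arg z ≤ Real.pi - θ})
                (nhds α)) →
      ∃ c : ℝ, 0 < c ∧ ∀ δ : ℝ, 0 < δ → ∃ r : ℝ, 0 < r ∧ r < δ ∧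
        c * r ≤ (MeasureTheory.volume
          (((fun z : ℂ => ‖z‖) '' {z : ℂ | 0 < z.im ∧ ∃ w ∈ K,
              2 * Real.arsinh (‖z - w‖ / (2 * Real.sqrt (z.im * w.im))) < l})
            ∩ Set.Ioo (0 : ℝ) r)).toReal) := by
  intro h
  obtain ⟨c, hc, hcr⟩ := h (2 * Real.arsinh (1 / 2))
    (mul_pos two_pos (Real.arsinh_pos_iff.2 (by norm_num))) Pool.Agent.H591R3.FS.Kset
    (by
      rintro z ⟨n, -, k, -, hz, -, -⟩
      show 0 < z.im
      rw [hz]
      positivity)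
    (fun f hf hinj hm α hα θ hθ0 hθ1 => Pool.Agent.H591R3.FS.forcing hf hinj hm hα hθ0 hθ1)
  obtain ⟨m, hm⟩ : ∃ m : ℕ, (3 / 4 : ℝ) ^ m < c / 52 :=
    exists_pow_lt_of_lt_one (by positivity) (by norm_num)
  obtain ⟨r, hr0, hr1, hr2⟩ := hcr ((1 / 2 : ℝ) ^ (m + 1)) (by positivity)
  have h1 : 2 * r ≤ (1 / 2 : ℝ) ^ m := by
    rw [pow_succ] at hr1
    linarith
  have h2 := Pool.Agent.H591R3.FS.Bset_small h1 hr0
  have h3 : c * r ≤ 52 * (3 / 4 : ℝ) ^ m * r := hr2.trans h2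
  have h4 : 52 * (3 / 4 : ℝ) ^ m * r < c * r := by
    apply mul_lt_mul_of_pos_right _ hr0
    linarith
  exact absurd h3 (not_le.2 h4)

end Pool.Agent.S05850
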