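import Pool.Statements.S05853
import Pool.Agent.H250R3.Berg.Main
import Pool.Agent.H165R3.Berg.Rolle
import Pool.Agent.H730R5.Berg.ChebA
import Pool.Agent.H410R3.Berg.ChebB
import Pool.Agent.H884R4.BergEven
import Pool.Agent.H962R4.Berg.Sign
import Pool.Agent.H988R3.Berg.Inter
import Pool.Agent.H358R3.Berg.Rot
import Pool.Agent.H352.Berg.Calc
import Pool.Agent.H844R3.Berg.Dom
import Pool.Agent.H861R3.Berg.DecompB
-- import your own Pool.Agent.* helpers here

set_option autoImplicit false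
open Polynomial MeasureTheory
open Pool Pool.MP_b1555f_an

namespace Pool.Agent.S05853

/-- For N=3,4, k<N, j≥1: the monic Bergman orthogonal polynomials of degrees jN+k and (j+1)N+k on the regular N-gon are z^k q(z^N), with q having real roots in (0,1), simple and strictly interlacing. -/
theorem result :
    ∀ N : ℕ, (N = 3 ∨ N = 4) → ∀ k : ℕ, k < N → ∀ j : ℕ, 1 ≤ j →
    ∀ p p' : Polynomial ℂ,
      p.Monic → p.natDegree = j * N + k →
      (∀ r : Polynomial ℂ, r.natDegree < j * N + k →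
        ∫ z in interior (convexHull ℝ {w : ℂ | w ^ N = 1}),
          p.eval z * (starRingEnd ℂ) (r.eval z) = 0) →
      p'.Monic → p'.natDegree = (j + 1) * N + k →
      (∀ r : Polynomial ℂ, r.natDegree < (j + 1) * N + k →
        ∫ z in interior (convexHull ℝ {w : ℂ | w ^ N = 1}),
          p'.eval z * (starRingEnd ℂ) (r.eval z) = 0) →
      ∃ t s : ℕ → ℝ,
        p = X ^ k * (∏ ν ∈ Finset.range j, (X - C ((t ν : ℝ) : ℂ))).comp (X ^ N) ∧
        p' = X ^ k * (∏ ν ∈ Finset.range (j + 1), (X - C ((s ν : ℝ) : ℂ))).comp (X ^ N) ∧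
        0 < s 0 ∧ s j < 1 ∧ ∀ ν, ν < j → s ν < t ν ∧ t ν < s (ν + 1) :=
  Pool.Agent.H250R3.Berg.main_of
    (Pool.Agent.H962R4.Berg.taskSign Pool.Agent.H250R3.Berg.taskEven
      (Pool.Agent.H410R3.Berg.taskChebB Pool.Agent.H165R3.Berg.taskRolle
        Pool.Agent.H730R5.Berg.taskChebA))
    Pool.Agent.H988R3.Berg.taskInter Pool.Agent.H352.Berg.taskCalc
    Pool.Agent.H861R3.Berg.taskDecomp Pool.Agent.H358R3.Berg.taskRot Pool.Agent.H844R3.Berg.Dom.taskDom

end Pool.Agent.S05853
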