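import Pool.Statements.S05855
import Pool.Agent.H376R3.LProj

set_option autoImplicit false
open Pool Pool.MP_b17c32_an

namespace Pool.Agent.S05855

/-- Over ℝ or ℂ, if a Banach space X is L-embedded (an L-summand in its bidual) and a closed subspace W is an ideal (its annihilator is the kernel of a norm-at-most-one projection on the dual), then W is L-embedded. -/
theorem result :
    ∀ (𝕜 : Type) [RCLike 𝕜] (X : Type) [NormedAddCommGroup X] [NormedSpace 𝕜 X]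
      [CompleteSpace X] (W : Submodule 𝕜 X),
      (∃ Q : ((X →L[𝕜] 𝕜) →L[𝕜] 𝕜) →L[𝕜] ((X →L[𝕜] 𝕜) →L[𝕜] 𝕜),
          Q.comp Q = Q ∧
          (∀ Φ : (X →L[𝕜] 𝕜) →L[𝕜] 𝕜, (∃ x : X, ∀ f : X →L[𝕜] 𝕜, Φ f = f x) ↔ Q Φ = Φ) ∧
          (∀ Φ : (X →L[𝕜] 𝕜) →L[𝕜] 𝕜, ‖Φ‖ = ‖Q Φ‖ + ‖Φ - Q Φ‖)) →
      IsClosed (W : Set X) →
      (∃ P : (X →L[𝕜] 𝕜) →L[𝕜] (X →L[𝕜] 𝕜),
          P.comp P = P ∧ ‖P‖ ≤ 1 ∧
          (∀ f : X →L[𝕜] 𝕜, P f = 0 ↔ ∀ w ∈ W, f w = 0)) →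
      (∃ Q : ((W →L[𝕜] 𝕜) →L[𝕜] 𝕜) →L[𝕜] ((W →L[𝕜] 𝕜) →L[𝕜] 𝕜),
          Q.comp Q = Q ∧
          (∀ Φ : (W →L[𝕜] 𝕜) →L[𝕜] 𝕜, (∃ y : W, ∀ f : W →L[𝕜] 𝕜, Φ f = f y) ↔ Q Φ = Φ) ∧
          (∀ Φ : (W →L[𝕜] 𝕜) →L[𝕜] 𝕜, ‖Φ‖ = ‖Q Φ‖ + ‖Φ - Q Φ‖)) := by
  intro 𝕜 _ X _ _ _ W hQ hW hP
  classical
  obtain ⟨Q, hQQ, hQfix, hQn⟩ := hQ
  obtain ⟨P, hPP, hPn, hPk⟩ := hP
  -- restriction
  let res : (X →L[𝕜] 𝕜) → (W →L[𝕜] 𝕜) := fun f => f.comp W.subtypeL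
  have hres : ∀ (f : X →L[𝕜] 𝕜) (w : W), res f w = f w := fun f w => rfl
  have hPeq : ∀ f g : X →L[𝕜] 𝕜, res f = res g → P f = P g := by
    intro f g h
    have h1 : P (f - g) = 0 := by
      rw [hPk]
      intro w hw
      have h2 : res f ⟨w, hw⟩ = res g ⟨w, hw⟩ := by rw [h]
      rw [hres, hres] at h2
      simpa [sub_eq_zero] using h2
    rwa [map_sub, sub_eq_zero] at h1
  have hPres : ∀ f : X →L[𝕜] 𝕜, res (P f) = res f := by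
    intro f
    have h1 : P (P f - f) = 0 := by
      rw [map_sub, sub_eq_zero]
      exact congrArg (fun (A : (X →L[𝕜] 𝕜) →L[𝕜] (X →L[𝕜] 𝕜)) => A f) hPP
    rw [hPk] at h1
    ext w
    have h2 := h1 w w.2
    rw [hres, hres]
    simpa [sub_eq_zero] using h2
  -- the extension
  choose ext hext hextn using fun f : W →L[𝕜] 𝕜 => exists_extension_norm_eq W f
  have hresext : ∀ f : W →L[𝕜] 𝕜, res (ext f) = f := by
    intro f
    apply ContinuousLinearMap.ext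
    intro w
    rw [hres]
    exact hext f w
  let E : (W →L[𝕜] 𝕜) →L[𝕜] (X →L[𝕜] 𝕜) := LinearMap.mkContinuous
    { toFun := fun f => P (ext f)
      map_add' := by
        intro f g
        rw [← map_add]
        apply hPeq
        have h1 : res (ext f + ext g) = res (ext f) + res (ext g) := rfl
        rw [h1, hresext, hresext, hresext]
      map_smul' := by
        intro c f
        rw [RingHom.id_apply, ← map_smul]
        apply hPeq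
        have h1 : res (c • ext f) = c • res (ext f) := rfl
        rw [h1, hresext, hresext] } 1 (by
      intro f
      change ‖P (ext f)‖ ≤ 1 * ‖f‖
      calc ‖P (ext f)‖ ≤ ‖P‖ * ‖ext f‖ := P.le_opNorm _
        _ ≤ 1 * ‖ext f‖ := by gcongr
        _ = 1 * ‖f‖ := by rw [hextn])
  have hE : ∀ f, E f = P (ext f) := fun f => rfl
  have hEn : ‖E‖ ≤ 1 := LinearMap.mkContinuous_norm_le _ zero_le_one _
  have hresE : ∀ f, res (E f) = f := by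
    intro f
    rw [hE, hPres, hresext]
  -- restriction as a continuous linear map
  let R : (X →L[𝕜] 𝕜) →L[𝕜] (W →L[𝕜] 𝕜) := LinearMap.mkContinuous
    { toFun := res
      map_add' := fun f g => rfl
      map_smul' := fun c f => rfl } 1 (by
      intro f
      change ‖res f‖ ≤ 1 * ‖f‖
      rw [one_mul]
      apply ContinuousLinearMap.opNorm_le_bound _ (norm_nonneg _)
      intro w
      rw [hres]
      exact f.le_opNorm _)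
  have hR : ∀ f, R f = res f := fun f => rfl
  have hRn : ‖R‖ ≤ 1 := LinearMap.mkContinuous_norm_le _ zero_le_one _
  have hRE : R.comp E = ContinuousLinearMap.id 𝕜 _ := by
    apply ContinuousLinearMap.ext
    intro f
    exact hresE f
  -- the adjoint maps
  let Es : ((X →L[𝕜] 𝕜) →L[𝕜] 𝕜) →L[𝕜] ((W →L[𝕜] 𝕜) →L[𝕜] 𝕜) := LinearMap.mkContinuous
    { toFun := fun Φ : (X →L[𝕜] 𝕜) →L[𝕜] 𝕜 => Φ.comp E
      map_add' := fun Φ Ψ => rfl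
      map_smul' := fun c Φ => rfl } 1 (by
      intro Φ
      change ‖Φ.comp E‖ ≤ 1 * ‖Φ‖
      calc ‖Φ.comp E‖ ≤ ‖Φ‖ * ‖E‖ := Φ.opNorm_comp_le E
        _ ≤ ‖Φ‖ * 1 := by gcongr
        _ = 1 * ‖Φ‖ := by ring)
  let Rs : ((W →L[𝕜] 𝕜) →L[𝕜] 𝕜) →L[𝕜] ((X →L[𝕜] 𝕜) →L[𝕜] 𝕜) := LinearMap.mkContinuous
    { toFun := fun Φ : (W →L[𝕜] 𝕜) →L[𝕜] 𝕜 => Φ.comp R
      map_add' := fun Φ Ψ => rfl
      map_smul' := fun c Φ => rfl } 1 (by
      intro Φ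
      change ‖Φ.comp R‖ ≤ 1 * ‖Φ‖
      calc ‖Φ.comp R‖ ≤ ‖Φ‖ * ‖R‖ := Φ.opNorm_comp_le R
        _ ≤ ‖Φ‖ * 1 := by gcongr
        _ = 1 * ‖Φ‖ := by ring)
  have hEs : ∀ Φ f, Es Φ f = Φ (E f) := fun Φ f => rfl
  have hRs : ∀ Φ f, Rs Φ f = Φ (R f) := fun Φ f => rfl
  have hEsn : ∀ Φ, ‖Es Φ‖ ≤ ‖Φ‖ := by
    intro Φ
    change ‖Φ.comp E‖ ≤ ‖Φ‖
    calc ‖Φ.comp E‖ ≤ ‖Φ‖ * ‖E‖ := Φ.opNorm_comp_le E
        _ ≤ ‖Φ‖ * 1 := by gcongr
        _ = ‖Φ‖ := by ring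
  have hRsn : ∀ Φ, ‖Rs Φ‖ ≤ ‖Φ‖ := by
    intro Φ
    change ‖Φ.comp R‖ ≤ ‖Φ‖
    calc ‖Φ.comp R‖ ≤ ‖Φ‖ * ‖R‖ := Φ.opNorm_comp_le R
        _ ≤ ‖Φ‖ * 1 := by gcongr
        _ = ‖Φ‖ := by ring
  have hEsRs : ∀ Φ, Es (Rs Φ) = Φ := by
    intro Φ
    apply ContinuousLinearMap.ext
    intro f
    rw [hEs, hRs, hR, hresE]
  let T : ((W →L[𝕜] 𝕜) →L[𝕜] 𝕜) →L[𝕜] ((W →L[𝕜] 𝕜) →L[𝕜] 𝕜) := Es.comp (Q.comp Rs)
  have hT : ∀ Φ, T Φ = Es (Q (Rs Φ)) := fun Φ => rfl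
  have hTsub : ∀ Φ, Φ - T Φ = Es (Rs Φ - Q (Rs Φ)) := by
    intro Φ
    have h0 : Es (Rs Φ - Q (Rs Φ)) = Es (Rs Φ) - Es (Q (Rs Φ)) :=
      map_sub Es (Rs Φ) (Q (Rs Φ))
    rw [h0, hEsRs, hT]
  have hTn : ∀ Φ, ‖T Φ‖ + ‖Φ - T Φ‖ ≤ ‖Φ‖ := by
    intro Φ
    rw [hTsub, hT]
    have h1 := hEsn (Q (Rs Φ))
    have h2 := hEsn (Rs Φ - Q (Rs Φ))
    have h3 := hQn (Rs Φ)
    have h4 := hRsn Φ
    linarith
  have hfix : ∀ Φ : (W →L[𝕜] 𝕜) →L[𝕜] 𝕜,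
      (∃ y : W, ∀ f : W →L[𝕜] 𝕜, Φ f = f y) ↔ T Φ = Φ := by
    intro Φ
    constructor
    · rintro ⟨y, hy⟩
      have h1 : Q (Rs Φ) = Rs Φ := by
        rw [← hQfix]
        refine ⟨y, fun f => ?_⟩
        rw [hRs, hR, hy, hres]
      rw [hT, h1, hEsRs]
    · intro h
      have h1 : ‖Rs Φ - Q (Rs Φ)‖ = 0 := by
        have h2 : ‖Φ‖ ≤ ‖Q (Rs Φ)‖ := by
          have := hEsn (Q (Rs Φ))
          rw [← hT, h] at this
          exact this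
        have h3 := hQn (Rs Φ)
        have h4 := hRsn Φ
        have h5 := norm_nonneg (Rs Φ - Q (Rs Φ))
        linarith
      have h2 : Q (Rs Φ) = Rs Φ := by
        have h1' : Rs Φ - Q (Rs Φ) = 0 := (norm_eq_zero (a := Rs Φ - Q (Rs Φ))).1 h1
        exact (sub_eq_zero.1 h1').symm
      rw [← hQfix] at h2
      obtain ⟨x, hx⟩ := h2
      have hxW : x ∈ W := by
        by_contra hxW
        have hne : ∃ f : X →L[𝕜] 𝕜, (∀ w ∈ W, f w = 0) ∧ f x ≠ 0 := by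
          have : IsClosed (W : Set X) := hW
          have hne : W.mkQL x ≠ 0 := by
            rw [Submodule.mkQL_apply, Submodule.mkQ_apply, Ne, Submodule.Quotient.mk_eq_zero]
            exact hxW
          obtain ⟨g, hg⟩ := SeparatingDual.exists_ne_zero (R := 𝕜) hne
          refine ⟨g.comp W.mkQL, fun w hw => ?_, hg⟩
          have h0 : W.mkQL w = 0 := by
            rw [Submodule.mkQL_apply, Submodule.mkQ_apply, Submodule.Quotient.mk_eq_zero]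
            exact hw
          rw [ContinuousLinearMap.comp_apply, h0, map_zero]
        obtain ⟨f, hf0, hfx⟩ := hne
        have h3 : R f = 0 := by
          apply ContinuousLinearMap.ext
          intro w
          exact hf0 w w.2
        have h4 := hx f
        rw [hRs, h3, map_zero] at h4
        exact hfx h4.symm
      refine ⟨⟨x, hxW⟩, fun f => ?_⟩
      have h3 := hx (E f)
      rw [hRs, hR, hresE] at h3
      rw [h3]
      have h4 := congrArg (fun g : W →L[𝕜] 𝕜 => g ⟨x, hxW⟩) (hresE f)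
      exact h4
  obtain ⟨S, hSS, hSfix, hSn⟩ := H376R3.LProj.exists_Lproj (𝕜 := 𝕜)
    (V := (W →L[𝕜] 𝕜) →L[𝕜] 𝕜) T hTn
  exact ⟨S, hSS, fun Φ => (hfix Φ).trans (hSfix Φ), hSn⟩

end Pool.Agent.S05855
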