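import Pool.Statements.S05875
import Pool.Agent.H345R3.AnNormD

set_option autoImplicit false
open Pool Pool.MP_b414a3_an

namespace Pool.Agent.S05875

theorem result :
    ∀ N : lp (fun _ : ℕ => ℝ) 2 → ℝ,
      (∀ x y : lp (fun _ : ℕ => ℝ) 2, N (x + y) ≤ N x + N y) →
      (∀ (c : ℝ) (x : lp (fun _ : ℕ => ℝ) 2), N (c • x) = |c| * N x) →
      (∃ a b : ℝ, 0 < a ∧ 0 < b ∧
        ∀ x : lp (fun _ : ℕ => ℝ) 2, a * ‖x‖ ≤ N x ∧ N x ≤ b * ‖x‖) →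
      ∀ ε : ℝ, 0 < ε →
        ∃ M : lp (fun _ : ℕ => ℝ) 2 → ℝ,
          (∀ x y : lp (fun _ : ℕ => ℝ) 2, M (x + y) ≤ M x + M y) ∧
          (∀ (c : ℝ) (x : lp (fun _ : ℕ => ℝ) 2), M (c • x) = |c| * M x) ∧
          (∃ a b : ℝ, 0 < a ∧ 0 < b ∧
            ∀ x : lp (fun _ : ℕ => ℝ) 2, a * ‖x‖ ≤ M x ∧ M x ≤ b * ‖x‖) ∧
          AnalyticOnNhd ℝ M {x : lp (fun _ : ℕ => ℝ) 2 | x ≠ 0} ∧
          ∀ x : lp (fun _ : ℕ => ℝ) 2, ‖x‖ ≤ 1 → |N x - M x| ≤ ε := by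
  intro N hadd hsmul heq ε hε
  exact Pool.Agent.H345R3.AnNorm.main N hadd hsmul heq ε hε

end Pool.Agent.S05875
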