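import Pool.Statements.S05892
import Pool.Agent.H740R3.CS4
-- import your own Pool.Agent.* helpers here

set_option autoImplicit false
open scoped NNReal ENNReal
open Pool Pool.MP_b6a3e4_an

namespace Pool.Agent.S05892

/-- The negation of the preceding statement: Let T be a continuous operator on a complex separable Fréchet space and 0≤a<b≤∞. If for each α in (a,b) the spans of eigenvectors with eigenvalues of modulus <α and >α are dense, then some x has a dense zT-orbit for every z with 1/b<∣z∣<1/a. -/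
theorem result :
    ¬ (∀ (X : Type) [AddCommGroup X] [Module ℂ X] [UniformSpace X] [IsUniformAddGroup X]
    [ContinuousSMul ℂ X] [LocallyConvexSpace ℝ X] [TopologicalSpace.MetrizableSpace X]
    [CompleteSpace X] [TopologicalSpace.SeparableSpace X]
    (T : X →L[ℂ] X) (a : ℝ≥0) (b : ℝ≥0∞), (a : ℝ≥0∞) < b →
    (∀ α : ℝ≥0, a < α → (α : ℝ≥0∞) < b →
      Dense ((Submodule.span ℂ {x : X | ∃ z : ℂ, ‖z‖₊ < α ∧ T x = z • x}) : Set X) ∧
      Dense ((Submodule.span ℂ {x : X | ∃ z : ℂ, α < ‖z‖₊ ∧ T x = z • x}) : Set X)) →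
    ∃ x : X, ∀ z : ℂ, (a : ℝ≥0∞) * (‖z‖₊ : ℝ≥0∞) < 1 → 1 < b * (‖z‖₊ : ℝ≥0∞) →
      Dense (Set.range (fun n : ℕ => ((z • T) ^ n) x))) := by
  intro h
  have i1 := Pool.Agent.H740R3.CS.lcs
  have i2 := Pool.Agent.H740R3.CS.sepX
  obtain ⟨x, hx⟩ := h Pool.Agent.H740R3.CS.X Pool.Agent.H740R3.CS.T 1 2 (by norm_num)
    (fun α h1 h2 => ⟨Pool.Agent.H740R3.CS.denseE α h1,
      Pool.Agent.H740R3.CS.denseF α (by exact_mod_cast h2)⟩)
  refine Pool.Agent.H740R3.CS.no_common x (fun r hr => hx (r : ℂ) ?_ ?_)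
  · have h1 : ‖(r : ℂ)‖₊ < 1 := by
      rw [← NNReal.coe_lt_coe, coe_nnnorm, Complex.norm_real, Real.norm_eq_abs,
        abs_of_nonneg (by linarith [hr.1]), NNReal.coe_one]
      linarith [hr.2]
    rw [ENNReal.coe_one, one_mul]
    exact_mod_cast h1
  · have h1 : 1 < 2 * ‖(r : ℂ)‖₊ := by
      rw [← NNReal.coe_lt_coe, NNReal.coe_mul, coe_nnnorm, Complex.norm_real, Real.norm_eq_abs,
        abs_of_nonneg (by linarith [hr.1]), NNReal.coe_one]
      have := hr.1
      norm_num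
      linarith
    exact_mod_cast h1

end Pool.Agent.S05892
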