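import Pool.Statements.S05908
import Pool.Agent.H507R3.LensFinal
-- import your own Pool.Agent.* helpers here

set_option autoImplicit false
open MeasureTheory
open Pool Pool.MP_b7ec12_an

namespace Pool.Agent.S05908

/-- The negation of the preceding statement: Take a measure-preserving Lagrangian flow of a Borel field b on the 2-torus and a continuous W^{1,1} map f. If ∂_t f + (∇f)b is integrable in time along a.e. trajectory, then t ↦ f(t, H_t(x)) is absolutely continuous on [0,T] for a.e. x. -/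
theorem result :
    ¬ (∀ (T : ℝ), 0 < T →
  ∀ (b X f ft : ℝ → (Fin 2 → ℝ) → (Fin 2 → ℝ)) (Df : ℝ → (Fin 2 → ℝ) → Fin 2 → (Fin 2 → ℝ)),
  Measurable (Function.uncurry b) →
  (∀ (t : ℝ) (x : Fin 2 → ℝ) (k : Fin 2 → ℤ), b t (x + (fun i => (k i : ℝ))) = b t x) →
  Measurable (Function.uncurry X) →
  (∀ᵐ x ∂(volume.restrict (Set.pi Set.univ fun _ : Fin 2 => Set.Ico (0:ℝ) 1)),
     X 0 x = x ∧ IntegrableOn (fun t => b t (X t x)) (Set.Icc 0 T) ∧
     ∀ t ∈ Set.Icc (0:ℝ) T, X t x = x + ∫ s in (0:ℝ)..t, b s (X s x)) →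
  (∀ t ∈ Set.Icc (0:ℝ) T,
     Measure.map (fun x i => Int.fract (X t x i))
       (volume.restrict (Set.pi Set.univ fun _ : Fin 2 => Set.Ico (0:ℝ) 1))
     = volume.restrict (Set.pi Set.univ fun _ : Fin 2 => Set.Ico (0:ℝ) 1)) →
  ContinuousOn (Function.uncurry f) (Set.Icc (0:ℝ) T ×ˢ (Set.univ : Set (Fin 2 → ℝ))) →
  (∀ (t : ℝ) (x : Fin 2 → ℝ) (k : Fin 2 → ℤ), f t (x + (fun i => (k i : ℝ))) = f t x) →
  Measurable (Function.uncurry ft) →
  Measurable (Function.uncurry Df) →
  (∀ R : ℝ,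
     IntegrableOn (Function.uncurry ft) (Set.Ioo (0:ℝ) T ×ˢ Metric.closedBall (0 : Fin 2 → ℝ) R) ∧
     IntegrableOn (Function.uncurry Df) (Set.Ioo (0:ℝ) T ×ˢ Metric.closedBall (0 : Fin 2 → ℝ) R)) →
  (∀ φ : ℝ × (Fin 2 → ℝ) → ℝ, ContDiff ℝ 1 φ → HasCompactSupport φ →
     tsupport φ ⊆ Set.Ioo (0:ℝ) T ×ˢ (Set.univ : Set (Fin 2 → ℝ)) →
     ((∫ p, fderiv ℝ φ p ((1:ℝ), (0 : Fin 2 → ℝ)) • f p.1 p.2)
        = - ∫ p, φ p • ft p.1 p.2) ∧
     ∀ j : Fin 2,
       (∫ p, fderiv ℝ φ p ((0:ℝ), (Pi.single j (1:ℝ) : Fin 2 → ℝ)) • f p.1 p.2)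
         = - ∫ p, φ p • Df p.1 p.2 j) →
  (∀ᵐ x ∂(volume.restrict (Set.pi Set.univ fun _ : Fin 2 => Set.Ico (0:ℝ) 1)),
     IntegrableOn (fun t => ft t (X t x) + ∑ j : Fin 2, b t (X t x) j • Df t (X t x) j)
       (Set.Ioo (0:ℝ) T)) →
  ∀ᵐ x ∂(volume.restrict (Set.pi Set.univ fun _ : Fin 2 => Set.Ico (0:ℝ) 1)),
     ∃ h : ℝ → (Fin 2 → ℝ), IntegrableOn h (Set.Icc (0:ℝ) T) ∧
       ∀ t ∈ Set.Icc (0:ℝ) T, f t (X t x) = f 0 (X 0 x) + ∫ s in (0:ℝ)..t, h s) := by
  intro H
  have key := H 1 one_pos (fun _ => Pool.Agent.H507R3.Lens.bX) Pool.Agent.H507R3.Lens.XX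
    (fun _ x _ => Pool.Agent.H507R3.Lens.f0 x) (fun _ _ => 0)
    (fun _ x j _ => if j = 0 then Pool.Agent.H507R3.Lens.D0 x else Pool.Agent.H507R3.Lens.D1 x)
    (Pool.Agent.H507R3.Lens.bX_meas.comp measurable_snd)
    (fun _ x k => Pool.Agent.H507R3.Lens.bX_per x k)
    Pool.Agent.H507R3.Lens.XX_meas
    (Filter.Eventually.of_forall fun x => Pool.Agent.H507R3.Lens.XX_flow 1 zero_le_one)
    (fun t _ => Pool.Agent.H507R3.Lens.YY_map t)
    (continuous_pi fun i => Pool.Agent.H507R3.Lens.f0_continuous.comp continuous_snd).continuousOn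
    (fun _ x k => funext fun _ => Pool.Agent.H507R3.Lens.f0_per x k)
    measurable_const ?_ ?_ ?_ ?_
  · -- contradiction
    obtain ⟨x, ⟨h, hint, hh⟩, hx⟩ := Pool.Agent.H507R3.Lens.lens_pos key
    refine Pool.Agent.H507R3.Lens.not_ac hx (k := fun s => h s 0) ?_ ?_
    · rw [intervalIntegrable_iff_integrableOn_Icc_of_le zero_le_one]
      exact (MeasureTheory.integrable_pi_iff.mp hint) 0
    · intro t ht
      have h1 := congrFun (hh t ht) 0
      have h2 : IntervalIntegrable h volume 0 t := by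
        rw [intervalIntegrable_iff_integrableOn_Icc_of_le ht.1]
        exact hint.mono_set (Set.Icc_subset_Icc_right ht.2)
      have h3 : (∫ s in (0:ℝ)..t, h s) 0 = ∫ s in (0:ℝ)..t, h s 0 :=
        ((ContinuousLinearMap.proj (R := ℝ) (φ := fun _ : Fin 2 => ℝ) 0).intervalIntegral_comp_comm
          h2).symm
      rw [Pi.add_apply, h3] at h1
      exact h1
  · -- measurability of Df
    rw [measurable_pi_iff]
    intro j
    rw [measurable_pi_iff]
    intro i
    by_cases hj : j = 0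
    · simp only [Function.uncurry, hj, if_true]
      exact Pool.Agent.H507R3.Lens.D0_meas.comp measurable_snd
    · simp only [Function.uncurry, hj, if_false]
      exact Pool.Agent.H507R3.Lens.D1_meas.comp measurable_snd
  · -- integrability
    intro R
    refine ⟨?_, ?_⟩
    · have : (Function.uncurry fun (_ : ℝ) (_ : Fin 2 → ℝ) => (0 : Fin 2 → ℝ)) = fun _ => 0 := rfl
      rw [this]; exact integrableOn_zero
    · have hK : IsCompact (Set.Icc (0:ℝ) 1 ×ˢ Metric.closedBall (0 : Fin 2 → ℝ) R) :=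
        isCompact_Icc.prod (isCompact_closedBall _ _)
      have hsub : (Set.Ioo (0:ℝ) 1 ×ˢ Metric.closedBall (0 : Fin 2 → ℝ) R)
          ⊆ (Set.Icc (0:ℝ) 1 ×ˢ Metric.closedBall (0 : Fin 2 → ℝ) R) :=
        Set.prod_mono Set.Ioo_subset_Icc_self subset_rfl
      have i0 := (Pool.Agent.H507R3.Lens.D0_loc.integrableOn_isCompact hK).mono_set hsub
      have i1 := (Pool.Agent.H507R3.Lens.D1_loc.integrableOn_isCompact hK).mono_set hsub
      rw [IntegrableOn, MeasureTheory.integrable_pi_iff]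
      intro j
      rw [MeasureTheory.integrable_pi_iff]
      intro i
      by_cases hj : j = 0
      · simp only [Function.uncurry, hj, if_true]
        exact i0
      · simp only [Function.uncurry, hj, if_false]
        exact i1
  · -- weak derivatives
    intro φ hφ hs _
    have one_smul_form : ∀ (c : ℝ) (a : ℝ),
        c • (fun _ : Fin 2 => a) = (c * a) • (1 : Fin 2 → ℝ) := by
      intro c a; funext i; simp
    refine ⟨?_, ?_⟩
    · have e1 : (∫ p : ℝ × (Fin 2 → ℝ), fderiv ℝ φ p ((1:ℝ), (0 : Fin 2 → ℝ)) •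
          (fun _ : Fin 2 => Pool.Agent.H507R3.Lens.f0 p.2)) = 0 := by
        simp only [one_smul_form]
        rw [integral_smul_const, Pool.Agent.H507R3.Lens.weak_time hφ hs
          Pool.Agent.H507R3.Lens.f0_continuous, zero_smul]
      rw [e1]
      simp
    · intro j
      by_cases hj : j = 0
      · subst hj
        simp only [if_true]
        simp only [one_smul_form]
        rw [integral_smul_const, integral_smul_const, Pool.Agent.H507R3.Lens.weak_space0 hφ hs
          Pool.Agent.H507R3.Lens.f0_continuous Pool.Agent.H507R3.Lens.D0_loc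
          Pool.Agent.H507R3.Lens.d0_line, neg_smul]
      · have hj1 : j = 1 := by omega
        subst hj1
        simp only [hj, if_false]
        simp only [one_smul_form]
        rw [integral_smul_const, integral_smul_const, Pool.Agent.H507R3.Lens.weak_space1 hφ hs
          Pool.Agent.H507R3.Lens.f0_continuous Pool.Agent.H507R3.Lens.D1_loc
          Pool.Agent.H507R3.Lens.d1_line, neg_smul]
  · -- material derivative
    refine Filter.Eventually.of_forall fun x => ?_
    have hz : (fun t => (0 : Fin 2 → ℝ) + ∑ j : Fin 2,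
        Pool.Agent.H507R3.Lens.bX (Pool.Agent.H507R3.Lens.XX t x) j •
          (fun _ : Fin 2 => if j = 0 then Pool.Agent.H507R3.Lens.D0 (Pool.Agent.H507R3.Lens.XX t x)
            else Pool.Agent.H507R3.Lens.D1 (Pool.Agent.H507R3.Lens.XX t x)))
        = fun _ => (0 : Fin 2 → ℝ) := by
      funext t i
      have := Pool.Agent.H507R3.Lens.mat_zero x t
      simp only [Fin.sum_univ_two, Pi.add_apply, Pi.smul_apply, smul_eq_mul, Pi.zero_apply]
      simpa using this
    show IntegrableOn (fun t => (0 : Fin 2 → ℝ) + ∑ j : Fin 2,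
        Pool.Agent.H507R3.Lens.bX (Pool.Agent.H507R3.Lens.XX t x) j •
          (fun _ : Fin 2 => if j = 0 then Pool.Agent.H507R3.Lens.D0 (Pool.Agent.H507R3.Lens.XX t x)
            else Pool.Agent.H507R3.Lens.D1 (Pool.Agent.H507R3.Lens.XX t x))) _
    rw [hz]
    exact integrableOn_zero

end Pool.Agent.S05908
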