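import Pool.Statements.S05912
-- import your own Pool.Agent.* helpers here

set_option autoImplicit false
open Filter Topology
open Pool Pool.MP_b82e9e_an

namespace Pool.Agent.S05912

/-! ### The counterexample

A state is `(n, t, x, b)`: a copy index `n`, a clock `t`, a level `x`, and a flag `b` saying whether
the last stage was harvested.  The payoff is the level (clamped to `[0,1]`) if the flag is on and `0`
otherwise.  Harvesting at a *block time* of copy `n` costs `1/(n+1)^3` of the level. -/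

/-- block times of copy `n` -/
def blk (n t : ℕ) : Prop := t < (n + 1) ^ 2 * (n + 1) ^ 3 ∧ t % (n + 1) ^ 3 < (n + 1) ^ 2

instance (n : ℕ) : DecidablePred (blk n) := fun t => by unfold blk; infer_instance

noncomputable def cost (n t : ℕ) : ℝ := if blk n t then 1 / ((n : ℝ) + 1) ^ 3 else 0

abbrev Z := ℕ × ℕ × ℝ × Bool

noncomputable def F (z : Z) : Set Z :=
  {z' | z' = (z.1, z.2.1 + 1, z.2.2.1, false) ∨
        z' = (z.1, z.2.1 + 1, z.2.2.1 - cost z.1 z.2.1, true)}

noncomputable def cl (x : ℝ) : ℝ := max 0 (min x 1)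

noncomputable def r (z : Z) : ℝ := if z.2.2.2 then cl z.2.2.1 else 0

noncomputable def w (z : Z) : ℝ := cl z.2.2.1

/-- plays -/
def Play (s : ℕ → Z) (z : Z) : Prop := s 0 = z ∧ ∀ t, s (t + 1) ∈ F (s t)

noncomputable def V (θ : ℕ → ℝ) (z : Z) : ℝ :=
  sSup {x : ℝ | ∃ s : ℕ → Z, s 0 = z ∧ (∀ t, s (t + 1) ∈ F (s t)) ∧
              x = ∑' t, θ t * r (s (t + 1))}

lemma cl_nonneg (x : ℝ) : 0 ≤ cl x := le_max_left _ _
lemma cl_le_one (x : ℝ) : cl x ≤ 1 := max_le zero_le_one (min_le_right _ _)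
lemma cl_mono {x y : ℝ} (h : x ≤ y) : cl x ≤ cl y :=
  max_le_max le_rfl (min_le_min h le_rfl)
lemma cl_sub (x c : ℝ) (hc : 0 ≤ c) : cl x - c ≤ cl (x - c) := by
  have key : max 0 (min x 1) ≤ max 0 (min (x - c) 1) + c := by
    apply max_le
    · have := le_max_left 0 (min (x - c) 1)
      linarith
    · have h1 := le_max_right 0 (min (x - c) 1)
      rcases le_total (x - c) 1 with h | h
      · rw [min_eq_left h] at h1 ⊢
        have := min_le_left x 1
        linarith
      · rw [min_eq_right h] at h1 ⊢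
        have := min_le_right x 1
        linarith
  unfold cl
  linarith

lemma r_nonneg (z : Z) : 0 ≤ r z := by
  unfold r; split_ifs
  · exact cl_nonneg _
  · exact le_rfl
lemma r_le_one (z : Z) : r z ≤ 1 := by
  unfold r; split_ifs
  · exact cl_le_one _
  · exact zero_le_one
lemma cost_nonneg (n t : ℕ) : 0 ≤ cost n t := by
  unfold cost; split_ifs
  · positivity
  · exact le_rfl

lemma play_fst {s : ℕ → Z} {z : Z} (h : Play s z) (t : ℕ) : (s t).1 = z.1 := by
  induction t with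
  | zero => rw [h.1]
  | succ t ih => rcases h.2 t with h' | h' <;> rw [h'] <;> exact ih

lemma play_clock {s : ℕ → Z} {z : Z} (h : Play s z) (t : ℕ) : (s t).2.1 = z.2.1 + t := by
  induction t with
  | zero => rw [h.1]; rfl
  | succ t ih =>
    rcases h.2 t with h' | h' <;> rw [h'] <;> show (s t).2.1 + 1 = _ <;> rw [ih] <;> ring

lemma play_level {s : ℕ → Z} {z : Z} (h : Play s z) (t : ℕ) :
    (s (t + 1)).2.2.1 ≤ (s t).2.2.1 := by
  rcases h.2 t with h' | h' <;> rw [h']
  show (s t).2.2.1 - cost (s t).1 (s t).2.1 ≤ _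
  have := cost_nonneg (s t).1 (s t).2.1
  linarith

lemma play_level0 {s : ℕ → Z} {z : Z} (h : Play s z) (t : ℕ) :
    (s t).2.2.1 ≤ z.2.2.1 := by
  induction t with
  | zero => rw [h.1]
  | succ t ih => exact (play_level h t).trans ih

lemma play_r {s : ℕ → Z} {z : Z} (h : Play s z) (t : ℕ) : r (s t) ≤ w z := by
  unfold r w; split_ifs
  · exact cl_mono (play_level0 h t)
  · exact cl_nonneg _

lemma summ {θ : ℕ → ℝ} (h0 : ∀ t, 0 ≤ θ t) (h1 : HasSum θ 1) (s : ℕ → Z) :
    Summable (fun t => θ t * r (s (t + 1))) := by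
  refine Summable.of_nonneg_of_le (fun t => mul_nonneg (h0 t) (r_nonneg _)) (fun t => ?_)
    h1.summable
  calc θ t * r (s (t + 1)) ≤ θ t * 1 := mul_le_mul_of_nonneg_left (r_le_one _) (h0 t)
    _ = θ t := mul_one _

lemma val_le {θ : ℕ → ℝ} (h0 : ∀ t, 0 ≤ θ t) (h1 : HasSum θ 1) {s : ℕ → Z} {z : Z}
    (h : Play s z) : ∑' t, θ t * r (s (t + 1)) ≤ w z := by
  have h2 : HasSum (fun t => θ t * w z) (1 * w z) := h1.mul_right _
  rw [one_mul] at h2
  rw [← h2.tsum_eq]
  exact (summ h0 h1 s).tsum_le_tsum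
    (fun t => mul_le_mul_of_nonneg_left (play_r h _) (h0 t)) h2.summable

/-- play A : harvest always -/
noncomputable def plA (z : Z) : ℕ → Z
  | 0 => z
  | t + 1 => (z.1, (plA z t).2.1 + 1, (plA z t).2.2.1 - cost z.1 (plA z t).2.1, true)

/-- play B : skip block times -/
noncomputable def plB (z : Z) : ℕ → Z
  | 0 => z
  | t + 1 => (z.1, z.2.1 + (t + 1), z.2.2.1, decide (¬ blk z.1 (z.2.1 + t)))

lemma plA_fst (z : Z) (t : ℕ) : (plA z t).1 = z.1 := by cases t <;> rfl
lemma plA_play (z : Z) : Play (plA z) z := by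
  refine ⟨rfl, fun t => Or.inr ?_⟩
  rw [plA_fst]; rfl

lemma plA_clock (z : Z) (t : ℕ) : (plA z t).2.1 = z.2.1 + t := play_clock (plA_play z) t

lemma plA_level (z : Z) (t : ℕ) :
    (plA z t).2.2.1 = z.2.2.1 - ∑ i ∈ Finset.range t, cost z.1 (z.2.1 + i) := by
  induction t with
  | zero => simp [plA]
  | succ t ih =>
    rw [Finset.sum_range_succ]
    show (plA z t).2.2.1 - cost z.1 (plA z t).2.1 = _
    rw [ih, plA_clock]; ring

lemma plA_r (z : Z) (t : ℕ) :
    w z - ∑ i ∈ Finset.range (t + 1), cost z.1 (z.2.1 + i) ≤ r (plA z (t + 1)) := by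
  have h1 : r (plA z (t + 1)) = cl (plA z (t + 1)).2.2.1 := rfl
  rw [h1, plA_level]
  exact cl_sub _ _ (Finset.sum_nonneg (fun i _ => cost_nonneg _ _))

lemma plB_clock (z : Z) (t : ℕ) : (plB z t).2.1 = z.2.1 + t := by cases t <;> rfl
lemma plB_fst (z : Z) (t : ℕ) : (plB z t).1 = z.1 := by cases t <;> rfl
lemma plB_level (z : Z) (t : ℕ) : (plB z t).2.2.1 = z.2.2.1 := by cases t <;> rfl

lemma plB_play (z : Z) : Play (plB z) z := by
  refine ⟨rfl, fun t => ?_⟩
  by_cases hb : blk z.1 (z.2.1 + t)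
  · left
    rw [plB_fst, plB_clock, plB_level]
    show (z.1, z.2.1 + (t + 1), z.2.2.1, decide (¬ blk z.1 (z.2.1 + t))) = _
    simp [hb, add_assoc]
  · right
    rw [plB_fst, plB_clock, plB_level]
    show (z.1, z.2.1 + (t + 1), z.2.2.1, decide (¬ blk z.1 (z.2.1 + t))) = _
    simp [hb, cost, add_assoc]

lemma plB_r (z : Z) (t : ℕ) :
    w z - (if blk z.1 (z.2.1 + t) then 1 else 0) ≤ r (plB z (t + 1)) := by
  have h1 : r (plB z (t + 1)) = if decide (¬ blk z.1 (z.2.1 + t)) = true then cl z.2.2.1 else 0 :=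
    rfl
  rw [h1]
  by_cases hb : blk z.1 (z.2.1 + t)
  · simp only [hb, if_true]
    have := cl_le_one z.2.2.1
    simp [w, this]
  · simp [hb, w]

lemma V_le {θ : ℕ → ℝ} (h0 : ∀ t, 0 ≤ θ t) (h1 : HasSum θ 1) (z : Z) : V θ z ≤ w z := by
  refine csSup_le ⟨_, plA z, rfl, (plA_play z).2, rfl⟩ ?_
  rintro x ⟨s, hs0, hs, rfl⟩
  exact val_le h0 h1 ⟨hs0, hs⟩

lemma le_V {θ : ℕ → ℝ} (h0 : ∀ t, 0 ≤ θ t) (h1 : HasSum θ 1) {z : Z} {s : ℕ → Z}
    (h : Play s z) : ∑' t, θ t * r (s (t + 1)) ≤ V θ z := by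
  refine le_csSup ⟨w z, ?_⟩ ⟨s, h.1, h.2, rfl⟩
  rintro x ⟨s, hs0, hs, rfl⟩
  exact val_le h0 h1 ⟨hs0, hs⟩

/-- finite-support evaluations: lower bound through a play with pointwise loss `e` -/
lemma low {θ : ℕ → ℝ} (h0 : ∀ t, 0 ≤ θ t) (h1 : HasSum θ 1) {N : ℕ}
    (hN : ∀ t, N ≤ t → θ t = 0) {z : Z} {s : ℕ → Z} (h : Play s z) (e : ℕ → ℝ)
    (he : ∀ t, w z - e t ≤ r (s (t + 1))) :
    w z - ∑ t ∈ Finset.range N, θ t * e t ≤ V θ z := by
  refine le_trans ?_ (le_V h0 h1 h)
  have e1 : ∑' t, θ t * r (s (t + 1)) = ∑ t ∈ Finset.range N, θ t * r (s (t + 1)) :=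
    tsum_eq_sum (fun t ht => by
      rw [hN t (by simpa using ht), zero_mul])
  have e2 : ∑ t ∈ Finset.range N, θ t = 1 := by
    rw [← h1.tsum_eq]
    exact (tsum_eq_sum (fun t ht => hN t (by simpa using ht))).symm
  rw [e1]
  have e3 : w z = ∑ t ∈ Finset.range N, θ t * w z := by rw [← Finset.sum_mul, e2, one_mul]
  rw [e3, ← Finset.sum_sub_distrib]
  refine Finset.sum_le_sum (fun t _ => ?_)
  have := mul_le_mul_of_nonneg_left (he t) (h0 t)
  linarith

/-! ### counting block times -/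

lemma card_period (P l t0 k : ℕ) (hl : l ≤ P) :
    ((Finset.Ico t0 (t0 + k * P)).filter (fun t => t % P < l)).card = k * l := by
  induction k with
  | zero => simp
  | succ k ih =>
    have hsplit : Finset.Ico t0 (t0 + (k + 1) * P) =
        Finset.Ico t0 (t0 + k * P) ∪ Finset.Ico (t0 + k * P) (t0 + k * P + P) := by
      rw [Finset.Ico_union_Ico_eq_Ico (by omega) (by omega)]
      congr 1; ring
    rw [hsplit, Finset.filter_union, Finset.card_union_of_disjoint, ih]
    · have hper : Function.Periodic (fun t => t % P < l) P := by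
        intro t; simp
      rw [Nat.filter_Ico_card_eq_of_periodic _ _ _ hper, Nat.count_eq_card_filter_range]
      have : ((Finset.range P).filter (fun t => t % P < l)) = Finset.range l := by
        ext t
        simp only [Finset.mem_filter, Finset.mem_range]
        constructor
        · rintro ⟨h1, h2⟩
          rwa [Nat.mod_eq_of_lt h1] at h2
        · intro h
          have h1 : t < P := lt_of_lt_of_le h hl
          exact ⟨h1, by rwa [Nat.mod_eq_of_lt h1]⟩
      rw [this, Finset.card_range]; ring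
    · apply Finset.disjoint_filter_filter
      rw [Finset.disjoint_left]
      intro t h1 h2
      simp only [Finset.mem_Ico] at h1 h2
      omega


lemma card_window (P l t0 N : ℕ) (hP : 0 < P) (hl : l ≤ P) :
    ((Finset.Ico t0 (t0 + N)).filter (fun t => t % P < l)).card ≤ (N / P + 1) * l := by
  rw [← card_period P l t0 (N / P + 1) hl]
  apply Finset.card_le_card
  apply Finset.filter_subset_filter
  apply Finset.Ico_subset_Ico le_rfl
  have := Nat.lt_div_mul_add hP (a := N)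
  have h2 : (N / P + 1) * P = N / P * P + P := by ring
  omega

lemma card_blk (n t0 N : ℕ) :
    ((Finset.range N).filter (fun t => blk n (t0 + t))).card ≤
      (N / (n + 1) ^ 3 + 1) * (n + 1) ^ 2 := by
  refine le_trans ?_ (card_window ((n + 1) ^ 3) ((n + 1) ^ 2) t0 N (by positivity)
    (Nat.pow_le_pow_right (by omega) (by omega)))
  refine Finset.card_le_card_of_injOn (fun t => t0 + t) ?_ ?_
  · intro t ht
    simp only [Finset.coe_filter, Finset.mem_range, Set.mem_ofPred_eq] at ht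
    simp only [Finset.coe_filter, Finset.mem_Ico, Set.mem_ofPred_eq]
    exact ⟨⟨by omega, by omega⟩, ht.2.2⟩
  · intro a _ b _ h
    simpa using h

lemma card_blk' (n t0 N : ℕ) :
    ((Finset.range N).filter (fun t => blk n (t0 + t))).card ≤
      (n + 1) ^ 2 * (n + 1) ^ 3 := by
  have : ((Finset.range N).filter (fun t => blk n (t0 + t))) ⊆
      Finset.range ((n + 1) ^ 2 * (n + 1) ^ 3) := by
    intro t ht
    simp only [Finset.mem_filter, Finset.mem_range] at ht ⊢
    have := ht.2.1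
    omega
  simpa using Finset.card_le_card this

lemma sum_ind (N : ℕ) (p : ℕ → Prop) [DecidablePred p] (c : ℝ) :
    ∑ t ∈ Finset.range N, (if p t then c else 0) = ((Finset.range N).filter p).card * c := by
  rw [← Finset.sum_filter, Finset.sum_const, nsmul_eq_mul]

/-! ### Cesàro evaluations -/

noncomputable def ces (N : ℕ) (t : ℕ) : ℝ := if t < N + 1 then 1 / ((N : ℝ) + 1) else 0

lemma ces_nonneg (N t : ℕ) : 0 ≤ ces N t := by
  unfold ces; split_ifs
  · positivity
  · exact le_rfl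

lemma ces_zero (N : ℕ) (t : ℕ) (h : N + 1 ≤ t) : ces N t = 0 := by
  unfold ces; rw [if_neg (by omega)]

lemma ces_sum (N : ℕ) : HasSum (ces N) 1 := by
  have h : HasSum (ces N) (∑ t ∈ Finset.range (N + 1), ces N t) :=
    hasSum_sum_of_ne_finset_zero (fun t ht => ces_zero N t (by simpa using ht))
  have e : ∑ t ∈ Finset.range (N + 1), ces N t = 1 := by
    have : ∀ t ∈ Finset.range (N + 1), ces N t = 1 / ((N : ℝ) + 1) := by
      intro t ht
      unfold ces; rw [if_pos (by simpa using ht)]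
    rw [Finset.sum_congr rfl this, Finset.sum_const, Finset.card_range, nsmul_eq_mul]
    push_cast
    field_simp
  rwa [e] at h

/-- lower bound for Cesàro values by skipping all block times -/
lemma ces_low (N : ℕ) (z : Z) :
    w z - ((Finset.range (N + 1)).filter (fun t => blk z.1 (z.2.1 + t))).card / ((N : ℝ) + 1)
      ≤ V (ces N) z := by
  have h := low (ces_nonneg N) (ces_sum N) (ces_zero N) (plB_play z) _ (plB_r z)
  refine le_trans (le_of_eq ?_) h
  congr 1
  rw [div_eq_mul_one_div, ← sum_ind]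
  refine Finset.sum_congr rfl (fun t ht => ?_)
  have ht' : t < N + 1 := by simpa using ht
  unfold ces
  rw [if_pos ht']
  split_ifs <;> simp

lemma ces_low1 (N : ℕ) (z : Z) :
    w z - (((z.1 : ℝ) + 1) ^ 5) / ((N : ℝ) + 1) ≤ V (ces N) z := by
  refine le_trans ?_ (ces_low N z)
  have h := card_blk' z.1 z.2.1 (N + 1)
  have h' : (((Finset.range (N + 1)).filter (fun t => blk z.1 (z.2.1 + t))).card : ℝ) ≤
      ((z.1 : ℝ) + 1) ^ 5 := by
    calc (((Finset.range (N + 1)).filter (fun t => blk z.1 (z.2.1 + t))).card : ℝ)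
        ≤ (((z.1 + 1) ^ 2 * (z.1 + 1) ^ 3 : ℕ) : ℝ) := by exact_mod_cast h
      _ = ((z.1 : ℝ) + 1) ^ 5 := by push_cast; ring
  have hN : (0 : ℝ) < (N : ℝ) + 1 := by positivity
  have := div_le_div_of_nonneg_right h' hN.le
  linarith

lemma ces_low2 (N : ℕ) (z : Z) :
    w z - 2 / ((z.1 : ℝ) + 1) ≤ V (ces N) z := by
  set m : ℝ := (z.1 : ℝ) + 1 with hm
  have hm0 : (0 : ℝ) < m := by positivity
  have hN : (0 : ℝ) < (N : ℝ) + 1 := by positivity
  rcases le_total ((z.1 + 1) ^ 3) (N + 1) with hc | hc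
  · -- long window : skip all block times
    refine le_trans ?_ (ces_low N z)
    have h := card_blk z.1 z.2.1 (N + 1)
    have h1 : (((Finset.range (N + 1)).filter (fun t => blk z.1 (z.2.1 + t))).card : ℝ) ≤
        (((N : ℝ) + 1) / m ^ 3 + 1) * m ^ 2 := by
      calc (((Finset.range (N + 1)).filter (fun t => blk z.1 (z.2.1 + t))).card : ℝ)
          ≤ ((((N + 1) / (z.1 + 1) ^ 3 + 1) * (z.1 + 1) ^ 2 : ℕ) : ℝ) := by exact_mod_cast h
        _ = (((((N + 1) / (z.1 + 1) ^ 3 : ℕ)) : ℝ) + 1) * m ^ 2 := by push_cast; rw [hm]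
        _ ≤ (((N : ℝ) + 1) / m ^ 3 + 1) * m ^ 2 := by
          gcongr
          have := @Nat.cast_div_le ℝ _ _ _ (N + 1) ((z.1 + 1) ^ 3)
          refine this.trans (le_of_eq ?_)
          push_cast; rw [hm]
    have hc' : m ^ 3 ≤ (N : ℝ) + 1 := by
      rw [hm]; exact_mod_cast hc
    have h2 : (1 : ℝ) ≤ ((N : ℝ) + 1) / m ^ 3 := by
      rw [le_div_iff₀ (by positivity)]; linarith
    have h3 : (((Finset.range (N + 1)).filter (fun t => blk z.1 (z.2.1 + t))).card : ℝ) ≤
        (2 * (((N : ℝ) + 1) / m ^ 3)) * m ^ 2 := by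
      refine h1.trans ?_
      gcongr
      linarith
    have h4 := div_le_div_of_nonneg_right h3 hN.le
    have h5 : (2 * (((N : ℝ) + 1) / m ^ 3)) * m ^ 2 / ((N : ℝ) + 1) = 2 / m := by
      field_simp
    rw [h5] at h4
    linarith
  · -- short window : harvest everything
    have h := low (ces_nonneg N) (ces_sum N) (ces_zero N) (plA_play z) _ (plA_r z)
    refine le_trans ?_ h
    have hb : ∀ t ∈ Finset.range (N + 1),
        ces N t * ∑ i ∈ Finset.range (t + 1), cost z.1 (z.2.1 + i) ≤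
          (1 / ((N : ℝ) + 1)) * (2 / m) := by
      intro t ht
      have ht' : t < N + 1 := by simpa using ht
      have e1 : ces N t = 1 / ((N : ℝ) + 1) := by unfold ces; rw [if_pos ht']
      rw [e1]
      apply mul_le_mul_of_nonneg_left _ (by positivity)
      unfold cost
      rw [sum_ind]
      have h6 := card_blk z.1 z.2.1 (t + 1)
      have h7 : (t + 1) / (z.1 + 1) ^ 3 ≤ 1 := by
        calc (t + 1) / (z.1 + 1) ^ 3 ≤ (z.1 + 1) ^ 3 / (z.1 + 1) ^ 3 :=
              Nat.div_le_div_right (by omega)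
          _ = 1 := Nat.div_self (by positivity)
      have h8 : (((Finset.range (t + 1)).filter (fun i => blk z.1 (z.2.1 + i))).card : ℝ) ≤
          2 * m ^ 2 := by
        calc (((Finset.range (t + 1)).filter (fun i => blk z.1 (z.2.1 + i))).card : ℝ)
            ≤ (((2 * (z.1 + 1) ^ 2 : ℕ)) : ℝ) := by
              have : ((Finset.range (t + 1)).filter (fun i => blk z.1 (z.2.1 + i))).card ≤
                  2 * (z.1 + 1) ^ 2 := h6.trans (Nat.mul_le_mul_right _ (by omega))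
              exact_mod_cast this
          _ = 2 * m ^ 2 := by push_cast; rw [hm]
      calc (((Finset.range (t + 1)).filter (fun i => blk z.1 (z.2.1 + i))).card : ℝ) *
            (1 / ((z.1 : ℝ) + 1) ^ 3) ≤ (2 * m ^ 2) * (1 / ((z.1 : ℝ) + 1) ^ 3) := by gcongr
        _ = 2 / m := by rw [← hm]; field_simp
    have h9 := Finset.sum_le_sum hb
    rw [Finset.sum_const, Finset.card_range, nsmul_eq_mul] at h9
    have h10 : ((N + 1 : ℕ) : ℝ) * ((1 / ((N : ℝ) + 1)) * (2 / m)) = 2 / m := by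
      push_cast; field_simp
    rw [h10] at h9
    linarith


/-! ### block evaluations -/

noncomputable def th (k t : ℕ) : ℝ := if blk k t then 1 / ((k : ℝ) + 1) ^ 4 else 0

lemma th_nonneg (k t : ℕ) : 0 ≤ th k t := by
  unfold th; split_ifs
  · positivity
  · exact le_rfl

lemma th_zero (k t : ℕ) (h : (k + 1) ^ 2 * (k + 1) ^ 3 ≤ t) : th k t = 0 := by
  unfold th; rw [if_neg]
  intro hb; exact absurd hb.1 (by omega)

lemma th_sum (k : ℕ) : HasSum (th k) 1 := by
  have h : HasSum (th k) (∑ t ∈ Finset.range ((k + 1) ^ 2 * (k + 1) ^ 3), th k t) :=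
    hasSum_sum_of_ne_finset_zero (fun t ht => th_zero k t (by simpa using ht))
  have e : ∑ t ∈ Finset.range ((k + 1) ^ 2 * (k + 1) ^ 3), th k t = 1 := by
    unfold th
    rw [sum_ind]
    have e1 : (Finset.range ((k + 1) ^ 2 * (k + 1) ^ 3)).filter (blk k) =
        (Finset.Ico 0 (0 + (k + 1) ^ 2 * (k + 1) ^ 3)).filter
          (fun t => t % (k + 1) ^ 3 < (k + 1) ^ 2) := by
      ext t
      simp only [Finset.mem_filter, Finset.mem_range, Finset.mem_Ico, blk]
      constructor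
      · rintro ⟨h1, h2, h3⟩; exact ⟨⟨by omega, by omega⟩, h3⟩
      · rintro ⟨⟨h1, h2⟩, h3⟩; exact ⟨by omega, by omega, h3⟩
    rw [e1, card_period _ _ _ _ (Nat.pow_le_pow_right (by omega) (by omega))]
    push_cast
    field_simp
  rwa [e] at h

lemma edge (P l t : ℕ) (hP : 0 < P)
    (h : ¬ ((t + 1 < l * P ∧ (t + 1) % P < l) ↔ (t < l * P ∧ t % P < l))) :
    ∃ q ∈ Finset.range (l + 1), t = q * P - 1 ∨ t = q * P + l - 1 := by
  have hlt : t % P < P := Nat.mod_lt _ hP
  have hd : P * (t / P) + t % P = t := Nat.div_add_mod t P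
  have hm : (t + 1) % P = (t % P + 1) % P := by
    conv_lhs => rw [← hd, add_assoc, Nat.mul_add_mod]
  by_cases h1 : t % P + 1 < P
  · rw [hm, Nat.mod_eq_of_lt h1] at h
    by_cases h2 : t < l * P ∧ t % P < l
    · have h3 : ¬ (t + 1 < l * P ∧ t % P + 1 < l) := by tauto
      by_cases h4 : t + 1 < l * P
      · have h5 : t % P + 1 = l := by
          have : ¬ (t % P + 1 < l) := fun h' => h3 ⟨h4, h'⟩
          omega
        refine ⟨t / P, ?_, Or.inr ?_⟩
        · rw [Finset.mem_range]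
          have : t / P < l := (Nat.div_lt_iff_lt_mul hP).2 h2.1
          omega
        · have : P * (t / P) = t / P * P := mul_comm _ _
          omega
      · refine ⟨l, by simp, Or.inl ?_⟩
        omega
    · exfalso
      apply h
      constructor
      · rintro ⟨h3, h4⟩
        exact ⟨by omega, by omega⟩
      · intro h3; exact absurd h3 h2
  · have h2 : t % P + 1 = P := by omega
    have h3 : t + 1 = (t / P + 1) * P := by
      have : (t / P + 1) * P = P * (t / P) + P := by ring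
      omega
    by_cases h4 : t < l * P
    · refine ⟨t / P + 1, ?_, Or.inl ?_⟩
      · rw [Finset.mem_range]
        have : t / P < l := (Nat.div_lt_iff_lt_mul hP).2 h4
        omega
      · omega
    · exfalso
      apply h
      constructor
      · rintro ⟨h5, _⟩; omega
      · rintro ⟨h5, _⟩; exact absurd h5 h4

lemma th_tv (k : ℕ) : ∑' t, |th k (t + 1) - th k t| ≤ 4 / ((k : ℝ) + 1) := by
  set m : ℕ := k + 1 with hm
  set E : Finset ℕ := (Finset.range (m ^ 2 + 1)).image (fun q => q * m ^ 3 - 1) ∪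
    (Finset.range (m ^ 2 + 1)).image (fun q => q * m ^ 3 + m ^ 2 - 1) with hE
  have hEc : E.card ≤ 2 * (m ^ 2 + 1) := by
    refine (Finset.card_union_le _ _).trans ?_
    have h1 := Finset.card_image_le (s := Finset.range (m ^ 2 + 1)) (f := fun q => q * m ^ 3 - 1)
    have h2 := Finset.card_image_le (s := Finset.range (m ^ 2 + 1))
      (f := fun q => q * m ^ 3 + m ^ 2 - 1)
    rw [Finset.card_range] at h1 h2
    omega
  have hmr : (m : ℝ) = (k : ℝ) + 1 := by rw [hm]; push_cast; ring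
  have hm1 : (1 : ℝ) ≤ m := by rw [hmr]; linarith [Nat.cast_nonneg (α := ℝ) k]
  have hz : ∀ t, t ∉ E → |th k (t + 1) - th k t| = 0 := by
    intro t ht
    have hb : blk k (t + 1) ↔ blk k t := by
      by_contra hcon
      obtain ⟨q, hq, hq'⟩ := edge (m ^ 3) (m ^ 2) t (by positivity) hcon
      apply ht
      rw [hE, Finset.mem_union, Finset.mem_image, Finset.mem_image]
      rcases hq' with h | h
      · exact Or.inl ⟨q, hq, h.symm⟩
      · exact Or.inr ⟨q, hq, h.symm⟩
    unfold th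
    simp only [hb]
    simp
  rw [tsum_eq_sum (s := E) (fun t ht => hz t ht)]
  have hle : ∀ t ∈ E, |th k (t + 1) - th k t| ≤ 1 / (m : ℝ) ^ 4 := by
    intro t _
    rw [hmr]
    unfold th
    have ha : (0 : ℝ) ≤ 1 / ((k : ℝ) + 1) ^ 4 := by positivity
    split_ifs <;>
      simp only [sub_self, sub_zero, zero_sub, abs_neg, abs_zero, abs_of_nonneg ha, le_refl, ha]
  refine (Finset.sum_le_sum hle).trans ?_
  rw [Finset.sum_const, nsmul_eq_mul, ← hmr]
  have h3 : (E.card : ℝ) ≤ 4 * (m : ℝ) ^ 2 := by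
    calc (E.card : ℝ) ≤ ((2 * (m ^ 2 + 1) : ℕ) : ℝ) := by exact_mod_cast hEc
      _ = 2 * ((m : ℝ) ^ 2 + 1) := by push_cast; ring
      _ ≤ 4 * (m : ℝ) ^ 2 := by nlinarith
  calc (E.card : ℝ) * (1 / (m : ℝ) ^ 4) ≤ (4 * (m : ℝ) ^ 2) * (1 / (m : ℝ) ^ 4) := by gcongr
    _ = 4 / (m : ℝ) ^ 2 := by field_simp
    _ ≤ 4 / (m : ℝ) := by
      apply div_le_div_of_nonneg_left (by norm_num) (by linarith)
      nlinarith

/-- the starting state of copy `k` -/
noncomputable def z0 (k : ℕ) : Z := (k, 0, 1, true)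

lemma w_z0 (k : ℕ) : w (z0 k) = 1 := by
  show max 0 (min (1 : ℝ) 1) = 1
  simp

lemma step (k : ℕ) {s : ℕ → Z} (h : Play s (z0 k)) (t : ℕ) :
    th k t * r (s (t + 1)) ≤
      (1 / ((k : ℝ) + 1)) * (cl (s t).2.2.1 - cl (s (t + 1)).2.2.1) := by
  have hk : (0 : ℝ) < (k : ℝ) + 1 := by positivity
  have hmono : 0 ≤ cl (s t).2.2.1 - cl (s (t + 1)).2.2.1 :=
    sub_nonneg.2 (cl_mono (play_level h t))
  have hR : 0 ≤ (1 / ((k : ℝ) + 1)) * (cl (s t).2.2.1 - cl (s (t + 1)).2.2.1) :=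
    mul_nonneg (by positivity) hmono
  by_cases hb : blk k t
  · rcases h.2 t with h' | h'
    · have : r (s (t + 1)) = 0 := by rw [h']; rfl
      rw [this, mul_zero]; exact hR
    · have hclk : (s t).2.1 = t := by rw [play_clock h]; simp [z0]
      have hfst : (s t).1 = k := play_fst h t
      have hr : r (s (t + 1)) = cl (s (t + 1)).2.2.1 := by rw [h']; rfl
      have hlev : (s (t + 1)).2.2.1 = (s t).2.2.1 - 1 / ((k : ℝ) + 1) ^ 3 := by
        rw [h']
        show (s t).2.2.1 - cost (s t).1 (s t).2.1 = _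
        rw [hclk, hfst]
        unfold cost; rw [if_pos hb]
      have hx1 : (s t).2.2.1 ≤ 1 := play_level0 h t
      rw [hr]
      set x := (s t).2.2.1 with hx
      set x' := (s (t + 1)).2.2.1 with hx'
      rcases le_or_gt x' 0 with h0 | h0
      · have : cl x' = 0 := by
          unfold cl
          rw [min_eq_left (by linarith), max_eq_left h0]
        rw [this, mul_zero]
        rw [this] at hR
        exact hR
      · have hc : (0 : ℝ) < 1 / ((k : ℝ) + 1) ^ 3 := by positivity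
        have e1 : cl x' = x' := by
          unfold cl; rw [min_eq_left (by linarith), max_eq_right h0.le]
        have e2 : cl x = x := by
          unfold cl; rw [min_eq_left hx1, max_eq_right (by linarith)]
        rw [e1, e2, hlev]
        unfold th
        rw [if_pos hb]
        have e3 : x - (x - 1 / ((k : ℝ) + 1) ^ 3) = 1 / ((k : ℝ) + 1) ^ 3 := by ring
        rw [e3]
        have e4 : (1 / ((k : ℝ) + 1)) * (1 / ((k : ℝ) + 1) ^ 3) = 1 / ((k : ℝ) + 1) ^ 4 * 1 := by
          field_simp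
        rw [e4]
        apply mul_le_mul_of_nonneg_left _ (by positivity)
        linarith
  · unfold th
    rw [if_neg hb, zero_mul]; exact hR

lemma V_up (k : ℕ) : V (th k) (z0 k) ≤ 1 / ((k : ℝ) + 1) := by
  refine csSup_le ⟨_, plA (z0 k), rfl, (plA_play (z0 k)).2, rfl⟩ ?_
  rintro x ⟨s, hs0, hs, rfl⟩
  have h : Play s (z0 k) := ⟨hs0, hs⟩
  rw [tsum_eq_sum (s := Finset.range ((k + 1) ^ 2 * (k + 1) ^ 3)) (fun t ht => by
    rw [th_zero k t (by simpa using ht), zero_mul])]
  refine (Finset.sum_le_sum (fun t _ => step k h t)).trans ?_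
  rw [← Finset.mul_sum, Finset.sum_range_sub']
  have h1 : cl (s 0).2.2.1 ≤ 1 := cl_le_one _
  have h2 := cl_nonneg (s ((k + 1) ^ 2 * (k + 1) ^ 3)).2.2.1
  have hk : (0 : ℝ) < 1 / ((k : ℝ) + 1) := by positivity
  calc (1 / ((k : ℝ) + 1)) * (cl (s 0).2.2.1 - cl (s ((k + 1) ^ 2 * (k + 1) ^ 3)).2.2.1)
      ≤ (1 / ((k : ℝ) + 1)) * 1 := by
        apply mul_le_mul_of_nonneg_left _ hk.le
        linarith
    _ = _ := mul_one _

lemma V_low (j k : ℕ) :
    1 - ((k : ℝ) + 1) ^ 5 * (1 / ((j : ℝ) + 1) ^ 4) ≤ V (th j) (z0 k) := by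
  have h := low (th_nonneg j) (th_sum j) (th_zero j) (plB_play (z0 k)) _ (plB_r (z0 k))
  rw [w_z0] at h
  refine le_trans ?_ h
  have h1 : ∀ t ∈ Finset.range ((j + 1) ^ 2 * (j + 1) ^ 3),
      th j t * (if blk (z0 k).1 ((z0 k).2.1 + t) then (1 : ℝ) else 0) ≤
        if blk (z0 k).1 ((z0 k).2.1 + t) then 1 / ((j : ℝ) + 1) ^ 4 else 0 := by
    intro t _
    split_ifs
    · rw [mul_one]
      unfold th; split_ifs
      · exact le_rfl
      · positivity
    · simp
  have h2 := Finset.sum_le_sum h1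
  rw [sum_ind] at h2
  have h3 := card_blk' (z0 k).1 (z0 k).2.1 ((j + 1) ^ 2 * (j + 1) ^ 3)
  have h4 : (((Finset.range ((j + 1) ^ 2 * (j + 1) ^ 3)).filter
      (fun t => blk (z0 k).1 ((z0 k).2.1 + t))).card : ℝ) ≤ ((k : ℝ) + 1) ^ 5 := by
    calc (((Finset.range ((j + 1) ^ 2 * (j + 1) ^ 3)).filter
      (fun t => blk (z0 k).1 ((z0 k).2.1 + t))).card : ℝ)
        ≤ (((k + 1) ^ 2 * (k + 1) ^ 3 : ℕ) : ℝ) := by exact_mod_cast h3
      _ = _ := by push_cast; ring
  have h5 := mul_le_mul_of_nonneg_right h4 (by positivity : (0 : ℝ) ≤ 1 / ((j : ℝ) + 1) ^ 4)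
  linarith

lemma tend_inv (c : ℝ) : Tendsto (fun n : ℕ => c / ((n : ℝ) + 1)) atTop (𝓝 0) :=
  tendsto_const_nhds.div_atTop
    (tendsto_atTop_add_const_right _ _ tendsto_natCast_atTop_atTop)

lemma V_tendsto (k : ℕ) : Tendsto (fun j => V (th j) (z0 k)) atTop (𝓝 1) := by
  refine tendsto_of_tendsto_of_tendsto_of_le_of_le
    (g := fun j : ℕ => 1 - ((k : ℝ) + 1) ^ 5 / ((j : ℝ) + 1)) (h := fun _ => (1 : ℝ))
    ?_ tendsto_const_nhds ?_ ?_
  · have := (tendsto_const_nhds (x := (1 : ℝ)) (f := atTop)).sub (tend_inv (((k : ℝ) + 1) ^ 5))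
    simpa using this
  · intro j
    refine le_trans ?_ (V_low j k)
    show 1 - ((k : ℝ) + 1) ^ 5 / ((j : ℝ) + 1) ≤ 1 - ((k : ℝ) + 1) ^ 5 * (1 / ((j : ℝ) + 1) ^ 4)
    have h1 : (1 : ℝ) ≤ (j : ℝ) + 1 := by linarith [Nat.cast_nonneg (α := ℝ) j]
    have h2 : (j : ℝ) + 1 ≤ ((j : ℝ) + 1) ^ 4 := by
      calc (j : ℝ) + 1 = ((j : ℝ) + 1) ^ 1 := (pow_one _).symm
        _ ≤ ((j : ℝ) + 1) ^ 4 := pow_le_pow_right₀ h1 (by norm_num)
    have h3 : 1 / ((j : ℝ) + 1) ^ 4 ≤ 1 / ((j : ℝ) + 1) :=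
      one_div_le_one_div_of_le (by linarith) h2
    have h4 := mul_le_mul_of_nonneg_left h3 (by positivity : (0 : ℝ) ≤ ((k : ℝ) + 1) ^ 5)
    rw [div_eq_mul_one_div]
    linarith
  · intro j
    have := V_le (th_nonneg j) (th_sum j) (z0 k)
    rw [w_z0] at this
    exact this

/-- The Cesàro values converge uniformly to `w`. -/
lemma ces_unif : TendstoUniformly (fun (N : ℕ) (z : Z) => V (ces N) z) w atTop := by
  rw [Metric.tendstoUniformly_iff]
  intro ε hε
  obtain ⟨M, hM⟩ := exists_nat_gt (2 / ε)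
  have hM0 : (0 : ℝ) < M := lt_of_le_of_lt (by positivity) hM
  have h1 : ∀ᶠ N : ℕ in atTop, (M : ℝ) ^ 5 / ((N : ℝ) + 1) < ε :=
    (tend_inv ((M : ℝ) ^ 5)).eventually (gt_mem_nhds hε)
  filter_upwards [h1] with N hN z
  rw [Real.dist_eq, abs_of_nonneg (sub_nonneg.2 (V_le (ces_nonneg N) (ces_sum N) z))]
  have hNp : (0 : ℝ) < (N : ℝ) + 1 := by positivity
  rcases le_or_gt M (z.1 + 1) with hz | hz
  · have h2 := ces_low2 N z
    have h3 : (M : ℝ) ≤ (z.1 : ℝ) + 1 := by exact_mod_cast hz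
    have h4 : 2 / ((z.1 : ℝ) + 1) ≤ 2 / M := div_le_div_of_nonneg_left (by norm_num) hM0 h3
    have h5 : 2 / (M : ℝ) < ε := by
      rw [div_lt_iff₀ hM0]
      rw [div_lt_iff₀ hε] at hM
      linarith
    linarith
  · have h2 := ces_low1 N z
    have h3 : (z.1 : ℝ) + 1 ≤ M := by exact_mod_cast hz.le
    have h4 : ((z.1 : ℝ) + 1) ^ 5 / ((N : ℝ) + 1) ≤ (M : ℝ) ^ 5 / ((N : ℝ) + 1) := by
      gcongr
    linarith

/-- The negation of the preceding statement: For any type Z, nonempty-valued F, r∈[0,1]: if the Cesàro values v_{n+1}(z)=sup over plays of (1/(n+1))Σ_{t≤n} r(s(t+1)) converge uniformly, then for any probability weights θ^k with Σ∣θ^k_{t+1}-θ^k_t∣→0, the values sup over plays of Σ θ^k_t r(s(t+1)) converge uniformly to some w. -/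
theorem result :
    ¬ (∀ (Z : Type) (F : Z → Set Z) (r : Z → ℝ),
      (∀ z, (F z).Nonempty) →
      (∀ z, 0 ≤ r z ∧ r z ≤ 1) →
      (∃ w : Z → ℝ, TendstoUniformly
          (fun (n : ℕ) (z : Z) =>
            sSup {x : ℝ | ∃ s : ℕ → Z, s 0 = z ∧ (∀ t, s (t + 1) ∈ F (s t)) ∧
              x = ∑' t, (if t < n + 1 then 1 / ((n : ℝ) + 1) else 0) * r (s (t + 1))})
          w atTop) →
      ∀ θ : ℕ → ℕ → ℝ,
        (∀ k t, 0 ≤ θ k t) →
        (∀ k, HasSum (θ k) 1) →
        Tendsto (fun k => ∑' t, |θ k (t + 1) - θ k t|) atTop (𝓝 0) →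
        ∃ w : Z → ℝ, TendstoUniformly
          (fun (k : ℕ) (z : Z) =>
            sSup {x : ℝ | ∃ s : ℕ → Z, s 0 = z ∧ (∀ t, s (t + 1) ∈ F (s t)) ∧
              x = ∑' t, θ k t * r (s (t + 1))})
          w atTop) := by
  intro H
  obtain ⟨u, hu⟩ := H Z F r
    (fun z => ⟨_, Or.inl rfl⟩) (fun z => ⟨r_nonneg z, r_le_one z⟩) ⟨w, ces_unif⟩ th
    th_nonneg th_sum
    (squeeze_zero (fun k => tsum_nonneg (fun t => abs_nonneg _)) th_tv (tend_inv 4))
  have hu' : TendstoUniformly (fun (k : ℕ) (z : Z) => V (th k) z) u atTop := hu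
  have hlim : ∀ k, u (z0 k) = 1 := fun k =>
    tendsto_nhds_unique (hu'.tendsto_at (z0 k)) (V_tendsto k)
  rw [Metric.tendstoUniformly_iff] at hu'
  obtain ⟨K, hK⟩ := eventually_atTop.1 (hu' (1 / 2) (by norm_num))
  have h1 := hK (K + 1) (by omega) (z0 (K + 1))
  rw [hlim, Real.dist_eq] at h1
  have h2 := V_up (K + 1)
  have h3 : (1 : ℝ) / (((K + 1 : ℕ) : ℝ) + 1) ≤ 1 / 2 := by
    apply one_div_le_one_div_of_le (by norm_num)
    push_cast
    linarith [Nat.cast_nonneg (α := ℝ) K]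
  have h4 := (abs_lt.1 h1).2
  linarith

end Pool.Agent.S05912
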