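import Pool.Statements.S05913
import Pool.Agent.H148R3.OrdMain

/-!
`C[0, ω ^ ω]` has the SHAI property; the proof works for `C[0, Ω]`, `Ω` any countable ordinal.

Let `ψ` be a surjective homomorphism from `B(X)`, `X = C[0, Ω]`, onto `B(Y)` with a nonzero kernel.
Then `ψ` is continuous (spectral radius argument with rank one operators) and kills all rank one
operators. Let `α` be the least ordinal such that the projection onto the functions supported by
`[0, α]` is not killed. Then `α` is additively indecomposable, hence `[0, α)` splits into clopen
blocks `U_j`, each killed, such that the projection onto the functions supported by any infinite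
union of blocks is not killed. For disjoint infinite sets `B_n` of indices every bounded sequence of
operators with ranges in the `B_n`-parts can be glued, modulo the kernel of `ψ`, to one operator.
Hence `Y` maps onto `ℓ_∞`, so that `Y*` and `B(Y)` have cardinality at least `2 ^ (2 ^ ℵ₀)`, while
`B(X)` has the cardinality of the continuum.
-/

set_option autoImplicit false
open scoped BoundedContinuousFunction
open Pool Pool.MP_b8c7e7_an

namespace Pool.Agent.S05913

/-- For K the ordinal interval [0, omega^omega], every surjective algebra homomorphism from the bounded operators on C(K) onto the bounded operators on any nonzero complex Banach space is injective. -/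
theorem result :
    ∀ (Y : Type) [NormedAddCommGroup Y] [NormedSpace ℂ Y] [CompleteSpace Y] [Nontrivial Y],
      ∀ ψ : ((Set.Iic (Ordinal.omega0 ^ Ordinal.omega0 : Ordinal.{0}) →ᵇ ℂ) →L[ℂ]
              (Set.Iic (Ordinal.omega0 ^ Ordinal.omega0 : Ordinal.{0}) →ᵇ ℂ)) →ₐ[ℂ] (Y →L[ℂ] Y),
        Function.Surjective ψ → Function.Injective ψ := by
  intro Y _ _ _ _ ψ hψ
  have hcount : Countable (Set.Iic (Ordinal.omega0 ^ Ordinal.omega0 : Ordinal.{0})) := by
    have h1 : (Set.Iic (Ordinal.omega0 ^ Ordinal.omega0 : Ordinal.{0})) =
        Set.Iio ((Ordinal.omega0 ^ Ordinal.omega0 : Ordinal.{0}) + 1) := by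
      ext x
      simp
    rw [h1, ← Cardinal.mk_le_aleph0_iff, Cardinal.mk_Iio_ordinal, Cardinal.lift_le_aleph0,
      Ordinal.card_add_one, Ordinal.card_opow_omega0 Ordinal.one_lt_omega0]
    simp
  exact Pool.Agent.H148R3.shai_main ψ hψ

end Pool.Agent.S05913
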