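import Pool.Statements.S05933
import Pool.Agent.H399R4.L22
-- import your own Pool.Agent.* helpers here

set_option autoImplicit false
open Pool Pool.MP_ba391d_an

namespace Pool.Agent.S05933

/-- There are positive masses and a C² collision-free solution of the spatial Newtonian four-body problem, defined for all real time, with negative energy, whose four bodies are never coplanar. -/
theorem result :
    ∃ m : Fin 4 → ℝ, (∀ i, 0 < m i) ∧
      ∃ q : ℝ → Fin 4 → EuclideanSpace ℝ (Fin 3),
        ContDiff ℝ 2 q ∧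
        (∀ t : ℝ, ∀ i j : Fin 4, i ≠ j → q t i ≠ q t j) ∧
        (∀ t : ℝ, ∀ i : Fin 4,
          deriv (fun s => deriv (fun r => q r i) s) t =
            ∑ j ∈ Finset.univ.erase i,
              (m j / ‖q t j - q t i‖ ^ 3) • (q t j - q t i)) ∧
        (∀ t : ℝ,
          (1 / 2 : ℝ) * ∑ i : Fin 4, m i * ‖deriv (fun r => q r i) t‖ ^ 2
            - ∑ i : Fin 4, ∑ j ∈ Finset.univ.filter (fun j => i < j),
                m i * m j / ‖q t i - q t j‖ < 0) ∧
        (∀ t : ℝ, AffineIndependent ℝ (q t)) := by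
  obtain ⟨e, ν, Ω, X, Y, s, τ, hg, hm, hE, hA⟩ := Pool.Agent.H399R4.exists_solution
  refine ⟨Pool.Agent.H399R4.mass Ω, ?_, fun t i => Pool.Agent.H399R4.xx e X Y ν Ω i t,
    contDiff_pi.2 (fun i => Pool.Agent.H399R4.xx_contDiff i),
    ?_, fun t i => Pool.Agent.H399R4.xx_newton hg i t, ?_, hA⟩
  · intro i
    fin_cases i
    · exact hm
    · exact hm
    · exact hm
    · exact one_pos
  · intro t i j hij h
    exact hij ((hA t).injective h)
  · intro t
    rw [Pool.Agent.H399R4.pot2 (Pool.Agent.H399R4.mass Ω) (fun i => Pool.Agent.H399R4.xx e X Y ν Ω i t)]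
    have h := Pool.Agent.H399R4.energy_eq (e := e) (X := X) (Y := Y) (ν := ν) (Ω := Ω) t
    have h2 := hE t
    rw [← h] at h2
    exact h2

end Pool.Agent.S05933
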