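import Pool.Statements.S05945
import Pool.Agent.H100R3.DivG

set_option autoImplicit false
open MeasureTheory
open Pool Pool.MP_bbfc99_an

namespace Pool.Agent.S05945

/-- There is a complete orthonormal sequence of measurable L² functions on [0,1] such that, for every nonzero polynomial, the partial sums of its expansion in that sequence fail to converge at almost every point of [0,1]. -/
theorem result :
  ∃ φ : ℕ → ℝ → ℝ,
    (∀ n, Measurable (φ n)) ∧
    (∀ n, MemLp (φ n) 2 (volume.restrict (Set.Icc (0:ℝ) 1))) ∧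
    (∀ n m, ∫ t in Set.Icc (0:ℝ) 1, φ n t * φ m t = if n = m then (1:ℝ) else 0) ∧
    (∀ f : ℝ → ℝ, MemLp f 2 (volume.restrict (Set.Icc (0:ℝ) 1)) →
      (∀ n, ∫ t in Set.Icc (0:ℝ) 1, f t * φ n t = 0) →
      f =ᵐ[volume.restrict (Set.Icc (0:ℝ) 1)] 0) ∧
    ∀ p : Polynomial ℝ, p ≠ 0 →
      ∀ᵐ t ∂(volume.restrict (Set.Icc (0:ℝ) 1)),
        ¬ ∃ L : ℝ, Filter.Tendsto
          (fun N : ℕ => ∑ n ∈ Finset.range N,
            (∫ s in Set.Icc (0:ℝ) 1, p.eval s * φ n s) * φ n t)
          Filter.atTop (nhds L) := by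
  refine ⟨Pool.Agent.H100R3.Div.ph, Pool.Agent.H100R3.Div.ph_meas,
    Pool.Agent.H100R3.Div.ph_memLp, Pool.Agent.H100R3.Div.ph_orth,
    fun _ hg h0 => Pool.Agent.H100R3.Div.complete (Pool.Agent.H100R3.Div.mul_sqrt_int hg) h0, ?_⟩
  intro p hp
  refine Pool.Agent.H100R3.Div.main_div (f := fun s => p.eval s)
    (fun x _ => ?_) ?_
  · exact analyticAt_id.aeval_polynomial p
  · by_contra hcon
    push Not at hcon
    apply hp
    refine Polynomial.eq_zero_of_infinite_isRoot p ?_
    refine Set.Infinite.mono (s := Set.Icc (0:ℝ) 1) (fun x hx => hcon x hx) ?_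
    exact Set.Icc_infinite (by norm_num)

end Pool.Agent.S05945
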