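import Pool.Statements.S05951
-- import your own Pool.Agent.* helpers here
import Pool.Agent.H591R3.BH10

set_option autoImplicit false
open Pool Pool.MP_bcb457_an

namespace Pool.Agent.S05951

/-- There are K>1, C>0 such that for all 1≤d≤n, every degree-d homogeneous multilinear polynomial on {-1,1}^n with all coefficients of modulus 1 has some point where C·d^((K+1)/(2K-2))·n^(-1/(2K-2))·∣f∣ is at least sqrt(binom(n,d)). -/
theorem result :
    ∃ K : ℝ, 1 < K ∧ ∃ C : ℝ, 0 < C ∧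
      ∀ n : ℕ, 1 ≤ n → ∀ d : ℕ, 1 ≤ d → d ≤ n →
        ∀ c : Finset (Fin n) → ℂ, (∀ S : Finset (Fin n), S.card = d → ‖c S‖ = 1) →
          ∃ x : Fin n → ℤ, (∀ i, x i = 1 ∨ x i = -1) ∧
            Real.sqrt ((n.choose d : ℕ) : ℝ) ≤
              C * (d : ℝ) ^ ((K + 1) / (2 * K - 2)) * (n : ℝ) ^ (-1 / (2 * K - 2)) *
                ‖∑ S ∈ (Finset.univ : Finset (Finset (Fin n))).filter (fun S => S.card = d),
                    c S * ∏ i ∈ S, ((x i : ℤ) : ℂ)‖ := by
  obtain ⟨C, hC⟩ := Pool.Agent.H591R3.BH.exists_exp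
  have hC0 : (0 : ℝ) ≤ C := Nat.cast_nonneg C
  refine ⟨1 + 2 * (24 + C), by linarith, 2, by norm_num, ?_⟩
  intro n _ d hd hdn c hc
  obtain ⟨e, he⟩ := Pool.Agent.H591R3.BH.unimodular hC hd hdn c hc
  refine ⟨fun i => if e i then 1 else -1, fun i => by by_cases h : e i = true <;> simp [h], ?_⟩
  have e1 : ((1 + 2 * (24 + (C : ℝ)) + 1) / (2 * (1 + 2 * (24 + (C : ℝ))) - 2)) =
      1 / 2 + 1 / (2 * (24 + C)) := by
    have : (24 + (C : ℝ)) ≠ 0 := by linarith
    field_simp
    ring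
  have e2 : (-1 / (2 * (1 + 2 * (24 + (C : ℝ))) - 2)) = -(1 / (4 * (24 + C))) := by
    have : (24 + (C : ℝ)) ≠ 0 := by linarith
    field_simp
    ring
  rw [e1, e2]
  have e3 : (Finset.univ : Finset (Finset (Fin n))).filter (fun S => S.card = d) =
      (Finset.univ : Finset (Fin n)).powersetCard d := by
    ext S; simp [Finset.mem_powersetCard]
  rw [e3]
  have e4 : ∀ S ∈ (Finset.univ : Finset (Fin n)).powersetCard d,
      c S * ∏ i ∈ S, (((if e i then 1 else -1 : ℤ) : ℤ) : ℂ) =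
      c S * ((Pool.Agent.H591R3.BH.chi e S : ℝ) : ℂ) := by
    intro S _
    congr 1
    unfold Pool.Agent.H591R3.BH.chi
    rw [Complex.ofReal_prod]
    apply Finset.prod_congr rfl
    intro i _
    unfold Pool.Agent.H591R3.BH.sg
    by_cases h : e i = true <;> simp [h]
  rw [Finset.sum_congr rfl e4]
  exact he

end Pool.Agent.S05951
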