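import Pool.Statements.S05966
import Pool.Agent.H751R3.Res3

set_option autoImplicit false
open Pool Pool.MP_bd309d_an

namespace Pool.Agent.S05966

open Pool.Agent.H751R3 Filter Topology

/-- the edge weight as a function of two vertices -/
noncomputable def aw (u v : W) : ℝ := by
  classical exact if v = act 2 u then 1 else 2

theorem aw_act (u : W) (c : Fin 3) : aw u (act c u) = wt c := by
  classical
  unfold aw
  fin_cases c
  · have : act 0 u ≠ act 2 u := fun h => by have := act_inj_left h; revert this; decide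
    simp [wt, this]
  · have : act 1 u ≠ act 2 u := fun h => by have := act_inj_left h; revert this; decide
    simp [wt, this]
  · simp [wt]

theorem sum_nbr (f : W → ℝ) (v : W) :
    ∑ᶠ w ∈ T3.neighborSet v, aw v w * f w = ∑ c, wt c * f (act c v) := by
  classical
  rw [T3_neighborSet]
  rw [finsum_mem_range (fun c d h => act_inj_left h), finsum_eq_sum_of_fintype]
  exact Finset.sum_congr rfl fun c _ => by rw [aw_act]

/-- embedding of finitely supported functions -/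
noncomputable def emb (ψ : W →₀ ℝ) : E2 W :=
  ⟨fun v => ψ v, memE_of_summable _ (summable_of_finite_support
    (ψ.finite_support.subset fun v hv => by
      simp only [Function.mem_support] at hv ⊢
      intro h; exact hv (by rw [h]; norm_num)))⟩

theorem emb_apply (ψ : W →₀ ℝ) (v : W) : emb ψ v = ψ v := rfl

theorem norm_emb (ψ : W →₀ ℝ) : ‖emb ψ‖ ^ 2 = ∑ᶠ v, ψ v ^ 2 := by
  rw [norm_sq_eq']
  refine tsum_eq_finsum ?_
  refine ψ.finite_support.subset fun v hv => ?_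
  simp only [Function.mem_support] at hv ⊢
  intro h; exact hv (by rw [emb_apply, h]; norm_num)

theorem norm_H_emb (ψ : W →₀ ℝ) (t : ℝ) : ‖HH (emb ψ) - t • emb ψ‖ ^ 2 =
    ∑ᶠ v : W, (((0 : ℝ) - t) * ψ v + ∑ᶠ w ∈ T3.neighborSet v, aw v w * ψ w) ^ 2 := by
  have h1 : ∀ v, (HH (emb ψ) - t • emb ψ) v =
      ((0 : ℝ) - t) * ψ v + ∑ᶠ w ∈ T3.neighborSet v, aw v w * ψ w := by
    intro v
    rw [sum_nbr]
    have : (HH (emb ψ) - t • emb ψ) v = HH (emb ψ) v - t * emb ψ v := rfl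
    rw [this, HH_apply]
    simp only [emb_apply]
    ring
  rw [norm_sq_eq']
  simp only [h1]
  refine tsum_eq_finsum ?_
  have hfin : (Function.support (fun v => ψ v) ∪ ⋃ c : Fin 3, (act c) ⁻¹'
      Function.support (fun v => ψ v)).Finite := by
    refine ψ.finite_support.union (Set.finite_iUnion fun c => ?_)
    exact ψ.finite_support.preimage ((actE c).injective.injOn)
  refine hfin.subset fun v hv => ?_
  simp only [Function.mem_support] at hv
  by_contra hcon
  simp only [Set.mem_union, Function.mem_support, Set.mem_iUnion, Set.mem_preimage, not_or,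
    not_exists, not_not] at hcon
  apply hv
  rw [sum_nbr, hcon.1]
  have : ∑ c, wt c * ψ (act c v) = 0 := Finset.sum_eq_zero fun c _ => by rw [hcon.2 c, mul_zero]
  rw [this]; ring

theorem dense_emb (f : E2 W) : ∃ u : ℕ → (W →₀ ℝ), Tendsto (fun n => emb (u n)) atTop (𝓝 f) := by
  classical
  have h1 : HasSum (fun v => lp.single 2 v (f v)) f := lp.hasSum_single (by norm_num) f
  -- countable index: use the filter atTop on finsets through closure
  have h2 : f ∈ closure (Set.range emb) := by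
    refine mem_closure_of_tendsto h1 (Eventually.of_forall fun s => ?_)
    refine ⟨Finsupp.onFinset s (fun v => if v ∈ s then f v else 0) (by
      intro v hv; by_contra h; exact hv (if_neg h)), ?_⟩
    ext v
    rw [emb_apply, Finsupp.onFinset_apply]
    rw [lp.coeFn_sum, Finset.sum_apply]
    by_cases hv : v ∈ s
    · rw [if_pos hv, Finset.sum_eq_single v]
      · simp [lp.single_apply]
      · intro w _ hw
        rw [lp.single_apply_ne _ _ _ hw.symm]
      · intro h; exact absurd hv h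
    · rw [if_neg hv, Finset.sum_eq_zero]
      intro w hw
      rw [lp.single_apply_ne]
      rintro rfl; exact hv hw
  obtain ⟨x, hx, hlim⟩ := mem_closure_iff_seq_limit.1 h2
  choose u hu using hx
  exact ⟨u, by simpa only [hu] using hlim⟩

/-- the spectrum as in the statement -/
def SS : Set ℝ := {t : ℝ | ∀ ε : ℝ, 0 < ε → ∃ ψ : W →₀ ℝ, ψ ≠ 0 ∧
          (∑ᶠ v : W, (((0 : ℝ) - t) * ψ v + ∑ᶠ w ∈ T3.neighborSet v, aw v w * ψ w) ^ 2)
            < ε * ∑ᶠ v : W, ψ v ^ 2}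

theorem emb_ne {ψ : W →₀ ℝ} (h : ψ ≠ 0) : 0 < ‖emb ψ‖ := by
  rw [norm_pos_iff]
  intro h2
  apply h
  ext v
  have := congrArg (fun f : E2 W => f v) h2
  simpa [emb_apply] using this

theorem SS_le {t : ℝ} (ht : t ∈ SS) {κ : ℝ} (hκ : 0 < κ) : |t| ≤ FF κ := by
  refine le_of_forall_pos_le_add fun ε hε => ?_
  obtain ⟨ψ, hψ, h⟩ := ht (ε ^ 2) (by positivity)
  change (∑ᶠ v : W, (((0 : ℝ) - t) * ψ v + ∑ᶠ w ∈ T3.neighborSet v, aw v w * ψ w) ^ 2)
            < ε ^ 2 * ∑ᶠ v : W, ψ v ^ 2 at h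
  rw [← norm_H_emb, ← norm_emb, ← mul_pow] at h
  have hpos := emb_ne hψ
  have h1 : ‖HH (emb ψ) - t • emb ψ‖ < ε * ‖emb ψ‖ :=
    lt_of_pow_lt_pow_left₀ 2 (by positivity) h
  have h2 : |inner ℝ (HH (emb ψ) - t • emb ψ) (emb ψ)| ≤ ε * ‖emb ψ‖ * ‖emb ψ‖ :=
    (abs_real_inner_le_norm _ _).trans (mul_le_mul_of_nonneg_right h1.le (norm_nonneg _))
  rw [inner_sub_left, real_inner_smul_left, real_inner_self_eq_norm_sq] at h2
  have h3 := abs_inner_le hκ (emb ψ)
  have h4 : |t * ‖emb ψ‖ ^ 2| ≤ FF κ * ‖emb ψ‖ ^ 2 + ε * ‖emb ψ‖ * ‖emb ψ‖ := by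
    have : t * ‖emb ψ‖ ^ 2 = inner ℝ (HH (emb ψ)) (emb ψ) -
      (inner ℝ (HH (emb ψ)) (emb ψ) - t * ‖emb ψ‖ ^ 2) := by ring
    rw [this]
    refine (abs_sub _ _).trans ?_
    linarith
  rw [abs_mul, abs_of_nonneg (sq_nonneg ‖emb ψ‖)] at h4
  have h5 : 0 < ‖emb ψ‖ ^ 2 := by positivity
  nlinarith

theorem bdd_of_notMem {t : ℝ} (ht : t ∉ SS) : ∃ c : ℝ, 0 < c ∧ ∀ f : E2 W,
    c * ‖f‖ ≤ ‖HH f - t • f‖ := by
  unfold SS at ht
  simp only [Set.mem_setOf_eq, not_forall, not_exists, not_and, not_lt, exists_prop] at ht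
  obtain ⟨ε, hε, h⟩ := ht
  refine ⟨Real.sqrt ε, Real.sqrt_pos.2 hε, fun f => ?_⟩
  have h1 : ∀ ψ : W →₀ ℝ, Real.sqrt ε * ‖emb ψ‖ ≤ ‖HH (emb ψ) - t • emb ψ‖ := by
    intro ψ
    by_cases hψ : ψ = 0
    · subst hψ
      have : emb 0 = 0 := by ext v; rfl
      rw [this]; simp
    · have h2 := h ψ hψ
      rw [← norm_H_emb, ← norm_emb] at h2
      refine le_of_sq_le_sq ?_ (norm_nonneg _)
      rw [mul_pow, Real.sq_sqrt hε.le]
      exact h2
  obtain ⟨u, hu⟩ := dense_emb f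
  have hc1 : Tendsto (fun n => Real.sqrt ε * ‖emb (u n)‖) atTop (𝓝 (Real.sqrt ε * ‖f‖)) :=
    hu.norm.const_mul _
  have hc2 : Tendsto (fun n => ‖HH (emb (u n)) - t • emb (u n)‖) atTop
      (𝓝 (‖HH f - t • f‖)) :=
    (((HH.continuous.tendsto f).comp hu).sub (hu.const_smul t)).norm
  exact le_of_tendsto_of_tendsto' hc1 hc2 fun n => h1 (u n)

theorem FF_eq (κ : ℝ) : FF κ = (2 * Real.sqrt (κ ^ 2 + 16) + Real.sqrt (κ ^ 2 + 4) - κ) / 2 := by
  unfold FF
  rw [Fin.sum_univ_three]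
  have h0 : wt 0 = 2 := rfl
  have h1 : wt 1 = 2 := rfl
  have h2 : wt 2 = 1 := rfl
  rw [h0, h1, h2]
  norm_num
  ring

theorem algebra {G g0 g1 g2 q0 q1 q2 p t : ℝ} (hG : G ≠ 0) (hp : 0 < p)
    (e1 : 2 * g0 + 2 * g1 + g2 - t * G = 1)
    (f0 : 2 * (g0 ^ 2 - G ^ 2) = g0) (f1 : 2 * (g1 ^ 2 - G ^ 2) = g1)
    (f2 : g2 ^ 2 - G ^ 2 = g2)
    (e1' : 2 * q0 + 2 * q1 + q2 - (G + t * p) = 0)
    (f0' : 2 * (2 * g0 * q0 - 2 * G * p) = q0) (f1' : 2 * (2 * g1 * q1 - 2 * G * p) = q1)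
    (f2' : 2 * g2 * q2 - 2 * G * p = q2) : ∃ κ : ℝ, 0 < κ ∧ FF κ ≤ |t| := by
  have hG2 : 0 < G ^ 2 := by positivity
  set a := Real.sqrt (1 + 16 * G ^ 2) with ha
  set b := Real.sqrt (1 + 4 * G ^ 2) with hb
  have ha2 : a ^ 2 = 1 + 16 * G ^ 2 := Real.sq_sqrt (by positivity)
  have hb2 : b ^ 2 = 1 + 4 * G ^ 2 := Real.sq_sqrt (by positivity)
  have hb1 : 1 < b := Real.lt_sqrt_of_sq_lt (by linarith)
  have hab : b < a := Real.sqrt_lt_sqrt (by positivity) (by linarith)
  have ha0 : 0 < a := by linarith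
  have hb0 : 0 < b := by linarith
  have w0 : (4 * g0 - 1) ^ 2 = a ^ 2 := by rw [ha2]; nlinarith
  have w1 : (4 * g1 - 1) ^ 2 = a ^ 2 := by rw [ha2]; nlinarith
  have w2 : (2 * g2 - 1) ^ 2 = b ^ 2 := by rw [hb2]; nlinarith
  have hne : ∀ w c : ℝ, 0 < c → w ^ 2 = c ^ 2 → w ≠ 0 := by
    rintro w c hc h rfl
    nlinarith
  have n0 := hne _ _ ha0 w0
  have n1 := hne _ _ ha0 w1
  have n2 := hne _ _ hb0 w2
  have r0 : q0 = 4 * G * p / (4 * g0 - 1) := by rw [eq_div_iff n0]; linarith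
  have r1 : q1 = 4 * G * p / (4 * g1 - 1) := by rw [eq_div_iff n1]; linarith
  have r2 : q2 = 2 * G * p / (2 * g2 - 1) := by rw [eq_div_iff n2]; linarith
  have key : (4 * g0 - 1)⁻¹ + (4 * g1 - 1)⁻¹ + (2 * g2 - 1)⁻¹ < -1 := by
    have i0 : 16 * G ^ 2 * (4 * g0 - 1)⁻¹ = (4 * g0 - 1) - (4 * g0 - 1)⁻¹ := by
      have : 16 * G ^ 2 = (4 * g0 - 1) ^ 2 - 1 := by rw [w0, ha2]; ring
      rw [this]; field_simp
    have i1 : 16 * G ^ 2 * (4 * g1 - 1)⁻¹ = (4 * g1 - 1) - (4 * g1 - 1)⁻¹ := by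
      have : 16 * G ^ 2 = (4 * g1 - 1) ^ 2 - 1 := by rw [w1, ha2]; ring
      rw [this]; field_simp
    have i2 : 4 * G ^ 2 * (2 * g2 - 1)⁻¹ = (2 * g2 - 1) - (2 * g2 - 1)⁻¹ := by
      have : 4 * G ^ 2 = (2 * g2 - 1) ^ 2 - 1 := by rw [w2, hb2]; ring
      rw [this]; field_simp
    have j : 2 * G * (2 * q0 + 2 * q1 + q2) / p =
        16 * G ^ 2 * (4 * g0 - 1)⁻¹ + 16 * G ^ 2 * (4 * g1 - 1)⁻¹ +
          4 * G ^ 2 * (2 * g2 - 1)⁻¹ := by
      rw [r0, r1, r2]
      field_simp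
      ring
    have k : 2 * G * (2 * q0 + 2 * q1 + q2) / p = 2 * G ^ 2 / p + 2 * (t * G) := by
      have : 2 * q0 + 2 * q1 + q2 = G + t * p := by linarith
      rw [this]
      field_simp
    have l : 0 < 2 * G ^ 2 / p := by positivity
    have m : t * G = 2 * g0 + 2 * g1 + g2 - 1 := by linarith
    rw [j, i0, i1, i2, m] at k
    linarith
  have hbi : b⁻¹ < 1 := inv_lt_one_of_one_lt₀ hb1
  have hai : a⁻¹ < b⁻¹ := inv_strictAnti₀ hb0 hab
  have hai0 : 0 < a⁻¹ := by positivity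
  have hbi0 : 0 < b⁻¹ := by positivity
  rcases sq_eq_sq_iff_eq_or_eq_neg.1 w0 with c0 | c0 <;>
  rcases sq_eq_sq_iff_eq_or_eq_neg.1 w1 with c1 | c1 <;>
  rcases sq_eq_sq_iff_eq_or_eq_neg.1 w2 with c2 | c2 <;>
  rw [c0, c1, c2] at key <;> (try simp only [inv_neg] at key) <;>
  try (exfalso; linarith)
  -- all negative
  have htG : t * G = (1 - 2 * a - b) / 2 := by linarith
  refine ⟨|G|⁻¹, by positivity, ?_⟩
  have hGa : 0 < |G| := abs_pos.2 hG
  have h1 : |t| * |G| = (2 * a + b - 1) / 2 := by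
    rw [← abs_mul, htG, abs_of_neg (by linarith)]; ring
  have h2 : |t| = (2 * a + b - 1) / 2 * |G|⁻¹ := by
    rw [← h1]; field_simp
  have h3 : Real.sqrt ((|G|⁻¹) ^ 2 + 16) = a * |G|⁻¹ := by
    rw [Real.sqrt_eq_iff_mul_self_eq (by positivity) (by positivity)]
    have : a * |G|⁻¹ * (a * |G|⁻¹) = a ^ 2 * (|G| ^ 2)⁻¹ := by
      rw [← inv_pow]; ring
    rw [this, ha2, sq_abs, inv_pow, sq_abs]
    field_simp
  have h4 : Real.sqrt ((|G|⁻¹) ^ 2 + 4) = b * |G|⁻¹ := by
    rw [Real.sqrt_eq_iff_mul_self_eq (by positivity) (by positivity)]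
    have : b * |G|⁻¹ * (b * |G|⁻¹) = b ^ 2 * (|G| ^ 2)⁻¹ := by
      rw [← inv_pow]; ring
    rw [this, hb2, sq_abs, inv_pow, sq_abs]
    field_simp
  rw [FF_eq, h3, h4, h2]
  apply le_of_eq
  ring

theorem key_bound {z c : ℝ} (hc : 0 < c) (hb : ∀ f : E2 W, c * ‖f‖ ≤ ‖HH f - z • f‖)
    {δ : ℝ} (hδ : 0 < δ) : ∃ t : ℝ, |t - z| < δ ∧ ∃ κ : ℝ, 0 < κ ∧ FF κ ≤ |t| := by
  set δ' := min δ (c / 2) with hδ'
  have hδ'0 : 0 < δ' := lt_min hδ (by positivity)
  set J : Set ℝ := Set.Ioo (z - δ') (z + δ') with hJ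
  have hbJ : ∀ s ∈ J, ∀ f : E2 W, c / 2 * ‖f‖ ≤ ‖HH f - s • f‖ := by
    intro s hs f
    have h1 : |s - z| ≤ c / 2 := by
      rw [abs_le]
      have h2 := min_le_right δ (c / 2)
      constructor <;> linarith [hs.1, hs.2]
    have h3 : HH f - z • f = (HH f - s • f) + (s - z) • f := by
      rw [sub_smul]; abel
    have h4 := hb f
    rw [h3] at h4
    have h5 := norm_add_le (HH f - s • f) ((s - z) • f)
    rw [norm_smul, Real.norm_eq_abs] at h5
    nlinarith [norm_nonneg f]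
  have hsurj : ∀ s ∈ J, ∀ y : E2 W, ∃ x, HH x - s • x = y := by
    intro s hs y
    have h1 := surj_of_bdd_below (HH - s • ContinuousLinearMap.id ℝ (E2 W)) (by
      intro x y
      simp only [sub_apply, smul_apply, ContinuousLinearMap.id_apply,
        inner_sub_left, inner_sub_right, HH_symm, real_inner_smul_left, real_inner_smul_right])
      (c := c / 2) (by positivity) (fun x => by
        simpa using hbJ s hs x) y
    obtain ⟨x, hx⟩ := h1
    exact ⟨x, by simpa using hx⟩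
  choose! R hR using hsurj
  set ψ : ℝ → E2 W := fun s => R s (dl e0) with hψ
  have hψ1 : ∀ s ∈ J, HH (ψ s) - s • ψ s = dl e0 := fun s hs => hR s hs _
  have hder : ∀ t ∈ J, ∀ v, HasDerivAt (fun s => ψ s v) (inner ℝ (R t (dl v)) (ψ t)) t := by
    intro t ht v
    exact deriv_res (c := c / 2) (by positivity) (isOpen_Ioo.mem_nhds ht) hbJ ψ hψ1 v _ (hR t ht _)
  have hψne : ∀ t ∈ J, 0 < inner ℝ (ψ t) (ψ t) := by
    intro t ht
    rw [real_inner_self_eq_norm_sq]
    have : ψ t ≠ 0 := by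
      intro h
      have h1 := hψ1 t ht
      rw [h, map_zero, smul_zero, sub_zero] at h1
      have h2 := norm_dl e0
      rw [← h1, norm_zero] at h2
      exact zero_ne_one h2
    have := norm_pos_iff.2 this
    positivity
  have hzJ : z ∈ J := by rw [hJ]; constructor <;> linarith
  -- a point where G is not zero
  have hex : ∃ t ∈ J, ψ t e0 ≠ 0 := by
    by_contra hcon
    push Not at hcon
    have h1 := hder z hzJ e0
    have h2 : HasDerivAt (fun s => ψ s e0) 0 z := by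
      refine (hasDerivAt_const z (0 : ℝ)).congr_of_eventuallyEq ?_
      filter_upwards [isOpen_Ioo.mem_nhds hzJ] with s hs
      exact hcon s hs
    have h3 := h1.unique h2
    exact (hψne z hzJ).ne' h3
  obtain ⟨t, ht, hG⟩ := hex
  refine ⟨t, ?_, ?_⟩
  · have := min_le_left δ (c / 2)
    rw [abs_lt]
    constructor <;> linarith [ht.1, ht.2]
  · have hnh : J ∈ 𝓝 t := isOpen_Ioo.mem_nhds ht
    have d0 := hder t ht e0
    have dc : ∀ c, HasDerivAt (fun s => ψ s (act c e0))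
      (inner ℝ (R t (dl (act c e0))) (ψ t)) t := fun c => hder t ht _
    set q : Fin 3 → ℝ := fun c => inner ℝ (R t (dl (act c e0))) (ψ t) with hq
    set p : ℝ := inner ℝ (ψ t) (ψ t) with hp
    have g1 : ∀ s ∈ J, 2 * ψ s (act 0 e0) + 2 * ψ s (act 1 e0) + ψ s (act 2 e0) - s * ψ s e0 = 1 := by
      intro s hs
      have := green1 (hψ1 s hs)
      rw [Fin.sum_univ_three] at this
      have w0 : wt 0 = 2 := rfl
      have w1 : wt 1 = 2 := rfl
      have w2 : wt 2 = 1 := rfl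
      rw [w0, w1, w2, one_mul] at this
      exact this
    have g2 : ∀ s ∈ J, ∀ c, wt c * (ψ s (act c e0) ^ 2 - ψ s e0 ^ 2) = ψ s (act c e0) :=
      fun s hs c => green2 (hψ1 s hs) c
    have D1 : 2 * q 0 + 2 * q 1 + q 2 - (ψ t e0 + t * p) = 0 := by
      have h1 : HasDerivAt (fun s => 2 * ψ s (act 0 e0) + 2 * ψ s (act 1 e0) + ψ s (act 2 e0) -
          s * ψ s e0) (2 * q 0 + 2 * q 1 + q 2 - (1 * ψ t e0 + t * p)) t :=
        ((((dc 0).const_mul 2).add ((dc 1).const_mul 2)).add (dc 2)).sub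
          ((hasDerivAt_id t).mul d0)
      have h2 : HasDerivAt (fun s => 2 * ψ s (act 0 e0) + 2 * ψ s (act 1 e0) + ψ s (act 2 e0) -
          s * ψ s e0) 0 t := by
        refine (hasDerivAt_const t (1 : ℝ)).congr_of_eventuallyEq ?_
        filter_upwards [hnh] with s hs
        exact g1 s hs
      have h3 := h1.unique h2
      linarith
    have D2 : ∀ c, wt c * (2 * ψ t (act c e0) * q c - 2 * ψ t e0 * p) = q c := by
      intro c
      have h1 : HasDerivAt (fun s => wt c * (ψ s (act c e0) ^ 2 - ψ s e0 ^ 2) - ψ s (act c e0))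
          (wt c * (((2 : ℕ) : ℝ) * ψ t (act c e0) ^ (2 - 1) * q c -
            ((2 : ℕ) : ℝ) * ψ t e0 ^ (2 - 1) * p) - q c) t :=
        ((((dc c).pow 2).sub (d0.pow 2)).const_mul (wt c)).sub (dc c)
      have h2 : HasDerivAt (fun s => wt c * (ψ s (act c e0) ^ 2 - ψ s e0 ^ 2) - ψ s (act c e0))
          0 t := by
        refine (hasDerivAt_const t (0 : ℝ)).congr_of_eventuallyEq ?_
        filter_upwards [hnh] with s hs
        have := g2 s hs c
        linarith
      have h3 := h1.unique h2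
      norm_num at h3
      linarith
    have w0 : wt 0 = 2 := rfl
    have w1 : wt 1 = 2 := rfl
    have w2 : wt 2 = 1 := rfl
    have a0 := g2 t ht 0
    have a1 := g2 t ht 1
    have a2 := g2 t ht 2
    have b0 := D2 0
    have b1 := D2 1
    have b2 := D2 2
    rw [w0] at a0 b0
    rw [w1] at a1 b1
    rw [w2, one_mul] at a2 b2
    exact algebra hG (hψne t ht) (g1 t ht) a0 a1 a2 D1 b0 b1 b2

theorem SS_ordConnected : SS.OrdConnected := by
  constructor
  intro x hx y hy z hz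
  by_contra hzS
  have hxz : x < z := lt_of_le_of_ne hz.1 (fun h => hzS (h ▸ hx))
  have hzy : z < y := lt_of_le_of_ne hz.2 (fun h => hzS (h ▸ hy))
  obtain ⟨c, hc, hb⟩ := bdd_of_notMem hzS
  obtain ⟨t, ht, κ, hκ, hF⟩ := key_bound hc hb (δ := min (z - x) (y - z))
    (lt_min (by linarith) (by linarith))
  have h1 := min_le_left (z - x) (y - z)
  have h2 := min_le_right (z - x) (y - z)
  have h3 := abs_lt.1 ht
  have h4 := abs_le.1 (SS_le hx hκ)
  have h5 := abs_le.1 (SS_le hy hκ)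
  have h6 : |t| < FF κ := by
    rw [abs_lt]
    constructor <;> linarith [h3.1, h3.2, h4.1, h5.2]
  linarith

theorem aw_symm (u v : W) (h : T3.Adj u v) : aw u v = aw v u := by
  obtain ⟨c, rfl⟩ := h
  rw [aw_act]
  have : aw (act c u) (act c (act c u)) = wt c := aw_act _ _
  rw [act_act] at this
  exact this.symm

theorem aw_pos (u v : W) (h : T3.Adj u v) : 0 < aw u v := by
  obtain ⟨c, rfl⟩ := h
  rw [aw_act]
  exact wt_pos c

/-- The negation of the preceding statement: On the (2j+1)-regular tree, j ≥ 1, take a Jacobi operator with positive edge weights a and real vertex weights b, invariant under a free cofinite automorphism group. If its spectrum is connected, then all a's are equal and all b's are equal. -/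
theorem result :
    ¬ (∀ (j : ℕ), 1 ≤ j → ∀ (V : Type) (G : SimpleGraph V), G.IsTree →
    (∀ v : V, (G.neighborSet v).ncard = 2 * j + 1) →
    ∀ (a : V → V → ℝ) (b : V → ℝ),
      (∀ u v, G.Adj u v → a u v = a v u) →
      (∀ u v, G.Adj u v → 0 < a u v) →
      (∃ Γ : Subgroup (G ≃g G),
        (∀ g ∈ Γ, ∀ v : V, g v = v → g = 1) ∧
        (∃ F : Finset V, ∀ v : V, ∃ g ∈ Γ, ∃ w ∈ F, g w = v) ∧
        (∀ g ∈ Γ, ∀ v : V, b (g v) = b v) ∧
        (∀ g ∈ Γ, ∀ u v : V, G.Adj u v → a (g u) (g v) = a u v)) →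
      IsPreconnected {t : ℝ | ∀ ε : ℝ, 0 < ε → ∃ ψ : V →₀ ℝ, ψ ≠ 0 ∧
          (∑ᶠ v : V, ((b v - t) * ψ v + ∑ᶠ w ∈ G.neighborSet v, a v w * ψ w) ^ 2)
            < ε * ∑ᶠ v : V, ψ v ^ 2} →
      (∀ u v u' v' : V, G.Adj u v → G.Adj u' v' → a u v = a u' v') ∧
        (∀ u v : V, b u = b v)) := by
  intro H
  let Γ : Subgroup (T3 ≃g T3) :=
    { carrier := {g | ∀ c v, g (act c v) = act c (g v)}
      mul_mem' := by
        intro g h hg hh c v
        change g (h (act c v)) = act c (g (h v))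
        rw [hh, hg]
      one_mem' := fun c v => rfl
      inv_mem' := by
        intro g hg c v
        change g.symm (act c v) = act c (g.symm v)
        apply g.injective
        rw [hg, RelIso.apply_symm_apply, RelIso.apply_symm_apply] }
  have h1 := H 1 le_rfl W T3 T3_isTree (by intro v; rw [T3_degree]) aw (fun _ => 0)
    aw_symm aw_pos ⟨Γ, ?_, ?_, fun _ _ _ => rfl, ?_⟩ SS_ordConnected.isPreconnected
  · have h2 := h1.1 e0 (act 0 e0) e0 (act 2 e0) ⟨0, rfl⟩ ⟨2, rfl⟩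
    rw [aw_act, aw_act] at h2
    have h3 : (2 : ℝ) = 1 := h2
    norm_num at h3
  · intro g hg v hv
    have hg' : ∀ c v, g (act c v) = act c (g v) := hg
    -- g fixes v hence everything
    have h3 : ∀ w, g w = w ↔ g e0 = e0 := by
      intro w
      induction w using W_induction with
      | h0 => rfl
      | h1 c w ih =>
        rw [← ih, hg']
        constructor
        · intro h4
          have := congrArg (act c) h4
          rwa [act_act, act_act] at this
        · intro h4; rw [h4]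
    have h4 : g e0 = e0 := (h3 v).1 hv
    ext w
    rw [(h3 w).2 h4]
    rfl
  · refine ⟨{e0}, fun v => ?_⟩
    obtain ⟨e, he⟩ := exists_equiv v
    have he' : ∀ c u, e (act c u) = act c (e u) := by
      intro c u; rw [he, he, tr_act]
    refine ⟨⟨e, ?_⟩, ?_, e0, by simp, ?_⟩
    · intro u w
      constructor
      · rintro ⟨c, hc⟩
        refine ⟨c, e.injective ?_⟩
        rw [he']; exact hc
      · rintro ⟨c, rfl⟩
        exact ⟨c, he' c u⟩
    · intro c u
      exact he' c u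
    · change e e0 = v
      rw [he, tr_e0]
  · rintro g hg u v ⟨c, rfl⟩
    have hg' : ∀ c v, g (act c v) = act c (g v) := hg
    rw [hg', aw_act, aw_act]

end Pool.Agent.S05966
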