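import Pool.Statements.S05989
import Pool.Agent.H197R3.Bes6

set_option autoImplicit false
open scoped InnerProductSpace
open Pool Pool.MP_bee01d_an

namespace Pool.Agent.S05989

/-- If the multiplier f ↦ Σ m_n⟨f,ψ_n⟩φ_n converges unconditionally for every f in a complex Hilbert space and is bijective, then there are complex weights α, β with (α_nφ_n), (β_nψ_n) frames and α_n·conj(β_n)=m_n. -/
theorem result :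
    ∀ (H : Type) [NormedAddCommGroup H] [InnerProductSpace ℂ H] [CompleteSpace H]
      (m : ℕ → ℂ) (φ ψ : ℕ → H),
      (∀ f : H, Summable (fun n : ℕ => (m n * ⟪ψ n, f⟫_ℂ) • φ n)) →
      Function.Bijective (fun f : H => ∑' n : ℕ, (m n * ⟪ψ n, f⟫_ℂ) • φ n) →
      ∃ α β : ℕ → ℂ,
        (∃ A B : ℝ, 0 < A ∧ 0 < B ∧ ∀ f : H,
            Summable (fun n : ℕ => ‖⟪α n • φ n, f⟫_ℂ‖ ^ 2) ∧
            A * ‖f‖ ^ 2 ≤ ∑' n : ℕ, ‖⟪α n • φ n, f⟫_ℂ‖ ^ 2 ∧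
            ∑' n : ℕ, ‖⟪α n • φ n, f⟫_ℂ‖ ^ 2 ≤ B * ‖f‖ ^ 2) ∧
        (∃ A B : ℝ, 0 < A ∧ 0 < B ∧ ∀ f : H,
            Summable (fun n : ℕ => ‖⟪β n • ψ n, f⟫_ℂ‖ ^ 2) ∧
            A * ‖f‖ ^ 2 ≤ ∑' n : ℕ, ‖⟪β n • ψ n, f⟫_ℂ‖ ^ 2 ∧
            ∑' n : ℕ, ‖⟪β n • ψ n, f⟫_ℂ‖ ^ 2 ≤ B * ‖f‖ ^ 2) ∧
        (∀ n : ℕ, α n * starRingEnd ℂ (β n) = m n) := by
  intro H _ _ _ m φ ψ hsum hbij
  obtain ⟨α, β, B, hB, hm, hα, hβ⟩ := Pool.Agent.H197R3.Bes.bessel m φ ψ hsum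
  obtain ⟨A, hA, h1, h2⟩ := Pool.Agent.H197R3.Bes.frames m φ ψ hsum α β hm (fun f => (hα f).1)
    (fun f => (hβ f).1) B hB (fun f => (hα f).2) (fun f => (hβ f).2) hbij
  exact ⟨α, β, ⟨A, B, hA, hB, fun f => ⟨(hα f).1, h1 f, (hα f).2⟩⟩,
    ⟨A, B, hA, hB, fun f => ⟨(hβ f).1, h2 f, (hβ f).2⟩⟩, hm⟩

end Pool.Agent.S05989
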