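import Pool.Statements.S05991
import Pool.Agent.H376R3.CK

set_option autoImplicit false
open Pool Pool.MP_bf1b21_an

namespace Pool.Agent.S05991

open Cardinal Set Pool.Agent.H376R3.CK

/-- choice of fresh coordinates -/
lemma exists_fresh (r : C(K, ℝ) → C(K, ℝ) → Prop) [wo : IsWellOrder C(K, ℝ) r]
    (hr : ord #C(K, ℝ) = Ordinal.type r) (S : C(K, ℝ) → Set G) (hS : ∀ f, (S f).Countable) :
    ∃ γ : C(K, ℝ) → G, ∀ x, γ x ∉ S x ∧ ∀ y, r y x → γ x ∉ S y ∧ γ x ≠ γ y := by
  classical
  have hex : ∀ (x : C(K, ℝ)) (F : ∀ y, r y x → G), ∃ g : G, g ∉ S x ∧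
      ∀ y (h : r y x), g ∉ S y ∧ g ≠ F y h := by
    intro x F
    by_contra hcon
    push Not at hcon
    let T : {y // r y x} → Set G := fun y => S y ∪ {F y.1 y.2}
    have hT : ∀ y, (T y).Countable := fun y => (hS _).union (countable_singleton _)
    have hcov : (Set.univ : Set G) ⊆ S x ∪ ⋃ y, T y := by
      intro g _
      by_cases hg : g ∈ S x
      · exact Or.inl hg
      · right
        obtain ⟨y, h, hy⟩ := hcon g hg
        rw [mem_iUnion]
        refine ⟨⟨y, h⟩, ?_⟩
        by_cases h' : g ∈ S y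
        · exact Or.inl h'
        · exact Or.inr (hy h')
    have hG : #(Set.univ : Set G) = 𝔠 := by
      rw [mk_univ]
      simp [G]
    have h1 : #(⋃ y, T y) < 𝔠 := by
      refine (mk_iUnion_le T).trans_lt ?_
      apply mul_lt_of_lt aleph0_le_continuum
      · have h2 := card_typein_lt (r := r) x hr
        have h3 := Ordinal.card_typein (r := r) x
        rw [← h3]
        exact h2.trans_le mk_CK
      · refine lt_of_le_of_lt ?_ aleph0_lt_continuum
        apply ciSup_le'
        intro y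
        exact (hT y).le_aleph0
    have h2 : #(S x) < 𝔠 := ((hS x).le_aleph0).trans_lt aleph0_lt_continuum
    have h3 : #(Set.univ : Set G) < 𝔠 :=
      (mk_le_mk_of_subset hcov).trans_lt
        ((mk_union_le _ _).trans_lt (add_lt_of_lt aleph0_le_continuum h2 h1))
    rw [hG] at h3
    exact lt_irrefl _ h3
  choose g hg using hex
  have hwf : WellFounded r := wo.wf
  let γ : C(K, ℝ) → G := hwf.fix (C := fun _ => G) (fun x F => g x F)
  refine ⟨γ, fun x => ?_⟩
  have h1 : γ x = g x (fun y _ => γ y) := hwf.fix_eq _ x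
  rw [h1]
  exact hg x (fun y _ => γ y)

/-- There is an infinite compact Hausdorff space K such that C(K) with the sup norm is covered by closed balls of positive radius, each of which meets only finitely many balls of the cover. -/
theorem result :
    ∃ (K : Type) (_ : TopologicalSpace K) (_ : CompactSpace K) (_ : T2Space K),
      Infinite K ∧
      ∃ 𝓑 : Set (Set C(K, ℝ)),
        (∀ B ∈ 𝓑, ∃ (x : C(K, ℝ)) (r : ℝ), 0 < r ∧ B = Metric.closedBall x r) ∧
        ⋃₀ 𝓑 = Set.univ ∧
        ∀ B ∈ 𝓑, {B' : Set C(K, ℝ) | B' ∈ 𝓑 ∧ (B ∩ B').Nonempty}.Finite := by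
  classical
  refine ⟨K, inferInstance, inferInstance, inferInstance, inferInstance, ?_⟩
  choose S hS hD using exists_dep
  obtain ⟨r, wo, hr⟩ := Cardinal.exists_ord_eq C(K, ℝ)
  obtain ⟨γ, hγ⟩ := exists_fresh r hr S hS
  let s : C(K, ℝ) → C(K, ℝ) := fun x => x + sgn (γ x)
  have hwf : WellFounded r := wo.wf
  -- the active points
  let A : C(K, ℝ) → Prop := hwf.fix (C := fun _ => Prop)
    (fun x F => ∀ (y) (h : r y x), F y h → x ∉ Metric.closedBall (s y) 1)
  have hA : ∀ x, A x ↔ ∀ y, r y x → A y → x ∉ Metric.closedBall (s y) 1 := by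
    intro x
    have h1 : A x = (∀ (y) (h : r y x), A y → x ∉ Metric.closedBall (s y) 1) := hwf.fix_eq _ x
    rw [h1]
  have hself : ∀ x, x ∈ Metric.closedBall (s x) 1 := by
    intro x
    rw [Metric.mem_closedBall, dist_eq_norm]
    have : x - s x = -(sgn (γ x)) := by simp [s]
    rw [this, norm_neg]
    exact norm_sgn_le _
  have hlt : ∀ x y, A x → A y → r y x → 2 < ‖s x - s y‖ := by
    intro x y hx hy hyx
    have h1 := (hA x).1 hx y hyx hy
    rw [Metric.mem_closedBall, dist_eq_norm, not_le] at h1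
    have h2 : Dep (x - s y : C(K, ℝ)) (S x ∪ (S y ∪ {γ y})) := by
      intro a b hab
      have e1 := hD x a b (fun δ hδ => hab δ (Or.inl hδ))
      have e2 := hD y a b (fun δ hδ => hab δ (Or.inr (Or.inl hδ)))
      have e3 := sgn_dep (γ y) a b (fun δ hδ => hab δ (Or.inr (Or.inr hδ)))
      simp only [s, ContinuousMap.sub_apply, ContinuousMap.add_apply]
      rw [e1, e2, e3]
    have h3 : γ x ∉ S x ∪ (S y ∪ {γ y}) := by
      rintro (h | h | h)
      · exact (hγ x).1 h
      · exact ((hγ x).2 y hyx).1 h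
      · exact ((hγ x).2 y hyx).2 h
    have h4 := norm_add_sgn (x - s y) _ h2 (γ x) h3
    have h5 : x - s y + sgn (γ x) = s x - s y := by
      simp only [s]; abel
    rw [h5] at h4
    linarith
  have hdisj : ∀ x y, A x → A y → x ≠ y →
      ¬ (Metric.closedBall (s x) 1 ∩ Metric.closedBall (s y) 1).Nonempty := by
    intro x y hx hy hne ⟨z, hz1, hz2⟩
    rw [Metric.mem_closedBall] at hz1 hz2
    have h1 : ‖s x - s y‖ ≤ 2 := by
      rw [← dist_eq_norm]
      have := dist_triangle_left (s x) (s y) z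
      linarith
    rcases trichotomous_of r x y with h | h | h
    · have h2 := hlt y x hy hx h
      rw [norm_sub_rev] at h2
      linarith
    · exact hne h
    · have h2 := hlt x y hx hy h
      linarith
  refine ⟨{B | ∃ x, A x ∧ B = Metric.closedBall (s x) 1}, ?_, ?_, ?_⟩
  · rintro B ⟨x, -, rfl⟩
    exact ⟨s x, 1, one_pos, rfl⟩
  · rw [Set.eq_univ_iff_forall]
    intro x
    by_cases hx : A x
    · exact ⟨_, ⟨x, hx, rfl⟩, hself x⟩
    · rw [hA] at hx
      push Not at hx
      obtain ⟨y, -, hy, hxy⟩ := hx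
      exact ⟨_, ⟨y, hy, rfl⟩, hxy⟩
  · rintro B ⟨x, hx, rfl⟩
    refine (Set.finite_singleton (Metric.closedBall (s x) 1)).subset ?_
    rintro B' ⟨⟨y, hy, rfl⟩, hne⟩
    by_cases hxy : x = y
    · rw [hxy]; rfl
    · exact absurd hne (hdisj x y hx hy hxy)

end Pool.Agent.S05991
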