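import Pool.Statements.S06052
import Pool.Agent.H283R3.Hole4

set_option autoImplicit false
open Metric Filter Topology MeasureTheory
open Pool Pool.MP_c3f068_an

namespace Pool.Agent.S06052

/-- The negation of the preceding statement: Let Ω be a bounded plane domain with finite-length boundary and Jordan-curve outer boundary Γ. If u is subharmonic on Ω, usc on its closure and tends to −∞ at each point of a subset of Γ of positive length, then u is identically −∞ on Ω. -/
theorem result :
    ¬ (∀ (Ω : Set ℂ) (u : ℂ → EReal) (E : Set ℂ) (γ : Circle → ℂ),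
      IsOpen Ω → IsConnected Ω → Bornology.IsBounded Ω →
      μH[1] (frontier Ω) < ⊤ →
      Continuous γ → Function.Injective γ →
      (∀ z, z ∉ closure Ω →
          ¬ Bornology.IsBounded (connectedComponentIn (closure Ω)ᶜ z) →
          frontier (connectedComponentIn (closure Ω)ᶜ z) = Set.range γ) →
      (∀ z ∈ closure Ω, u z ≠ ⊤) →
      UpperSemicontinuousOn u (closure Ω) →
      (∀ (c : ℂ) (r : ℝ), 0 < r → closedBall c r ⊆ Ω →
        ∀ h : ℂ → ℝ, ContinuousOn h (closedBall c r) →
          (∃ g : ℂ → ℂ, DifferentiableOn ℂ g (ball c r) ∧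
              ∀ z ∈ ball c r, h z = (g z).re) →
          (∀ z ∈ sphere c r, u z ≤ (h z : EReal)) →
          ∀ z ∈ closedBall c r, u z ≤ (h z : EReal)) →
      E ⊆ Set.range γ →
      0 < μH[1] E →
      (∀ ζ ∈ E, Tendsto u (𝓝[Ω] ζ) (𝓝 ⊥)) →
      ∀ z ∈ Ω, u z = ⊥) := by
  intro H
  obtain ⟨Ω, u, E, γ, h1, h2, h3, h4, h5, h6, h7, h8, h9, h10, h11, h12, h13, z, hz, hne⟩ :=
    Pool.Agent.H283R3.Hole.counterexample
  exact hne (H Ω u E γ h1 h2 h3 h4 h5 h6 h7 h8 h9 h10 h11 h12 h13 z hz)

end Pool.Agent.S06052
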