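import Pool.Statements.S06070
import Pool.Agent.H784R3.Two

set_option autoImplicit false
open Pool Pool.MP_c4dd1f_an

namespace Pool.Agent.S06070

/-- The negation of the preceding statement: For every real Banach space X and every maximally monotone set-valued map A from X to its continuous dual, the closure of the domain of A (points where A is nonempty) is a convex set. -/
theorem result :
    ¬ (∀ (X : Type) [NormedAddCommGroup X] [NormedSpace ℝ X] [CompleteSpace X]
      (A : X → Set (X →L[ℝ] ℝ)),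
      (∀ (x y : X) (xs ys : X →L[ℝ] ℝ), xs ∈ A x → ys ∈ A y → 0 ≤ (xs - ys) (x - y)) →
      (∀ (x : X) (xs : X →L[ℝ] ℝ),
          (∀ (y : X) (ys : X →L[ℝ] ℝ), ys ∈ A y → 0 ≤ (xs - ys) (x - y)) → xs ∈ A x) →
      Convex ℝ (closure {x : X | (A x).Nonempty})) := by
  intro H
  have hconv := H H784R3.X1 H784R3.B2 H784R3.B2_mono H784R3.B2_max
  obtain ⟨x, f, hf, hx⟩ := H784R3.B2_exists (z := 2) (by norm_num)
  obtain ⟨y, g, hg, hy⟩ := H784R3.B2_exists (z := -2) (by norm_num)
  have h1 : x ∈ closure {x : H784R3.X1 | (H784R3.B2 x).Nonempty} := subset_closure ⟨f, hf⟩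
  have h2 : y ∈ closure {x : H784R3.X1 | (H784R3.B2 x).Nonempty} := subset_closure ⟨g, hg⟩
  have h3 := hconv h1 h2 (a := 1 / 2) (b := 1 / 2) (by norm_num) (by norm_num) (by norm_num)
  have hcl : IsClosed {x : H784R3.X1 | 1 ≤ |x.2|} :=
    isClosed_le continuous_const (continuous_snd.abs)
  have hsub : closure {x : H784R3.X1 | (H784R3.B2 x).Nonempty} ⊆ {x : H784R3.X1 | 1 ≤ |x.2|} :=
    closure_minimal (fun z hz => (H784R3.B2_dom hz).le) hcl
  have h4 : 1 ≤ |((1 / 2 : ℝ) • x + (1 / 2 : ℝ) • y).2| := hsub h3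
  have h5 : ((1 / 2 : ℝ) • x + (1 / 2 : ℝ) • y).2 = 0 := by
    change (1 / 2 : ℝ) * x.2 + (1 / 2 : ℝ) * y.2 = 0
    rw [hx, hy]; norm_num
  rw [h5] at h4
  norm_num at h4

end Pool.Agent.S06070
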