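import Pool.Statements.S06098
import Pool.Agent.H915R3.PickJet

set_option autoImplicit false
open Pool Pool.MP_c72435_an

namespace Pool.Agent.S06098

open Complex Metric
open Pool.Agent.H915Pick

lemma norm_mk {p q : ℝ} (hpq : p ^ 2 + q ^ 2 = 1) : ‖(⟨p, q⟩ : ℂ)‖ = 1 := by
  rw [Complex.norm_def, Complex.normSq_mk, ← pow_two, ← pow_two, hpq]
  exact Real.sqrt_one

/-- One step: rotate by the unimodular number `p + q i`, then compose with `pick x`. -/
lemma step {a2 b2 a3 b3 a4 b4 a5 b5 : ℝ}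
    (h : ∃ g : ℂ → ℂ, Good g (⟨a2, b2⟩ : ℂ) (⟨a3, b3⟩ : ℂ) (⟨a4, b4⟩ : ℂ) (⟨a5, b5⟩ : ℂ))
    (p q x : ℝ) (hpq : p ^ 2 + q ^ 2 = 1) (h0 : 0 < x) (h1 : x < 1)
    (A2 B2 A3 B3 A4 B4 A5 B5 : ℝ)
    (u2 v2 u3 v3 u4 v4 u5 v5 P2 Q2 P3 Q3 P4 Q4 : ℝ)
    (hP2 : P2 = p * p - q * q) (hQ2 : Q2 = 2 * (p * q))
    (hP3 : P3 = P2 * p - Q2 * q) (hQ3 : Q3 = P2 * q + Q2 * p)
    (hP4 : P4 = P2 * P2 - Q2 * Q2) (hQ4 : Q4 = 2 * (P2 * Q2))
    (hu2 : u2 = a2 * p - b2 * q) (hv2 : v2 = a2 * q + b2 * p)
    (hu3 : u3 = a3 * P2 - b3 * Q2) (hv3 : v3 = a3 * Q2 + b3 * P2)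
    (hu4 : u4 = a4 * P3 - b4 * Q3) (hv4 : v4 = a4 * Q3 + b4 * P3)
    (hu5 : u5 = a5 * P4 - b5 * Q4) (hv5 : v5 = a5 * Q4 + b5 * P4)
    (hA2 : A2 = (2-2*x) + u2*x) (hB2 : B2 = v2*x)
    (hA3 : A3 = (3-8*x+5*x^2) + u2*(4*x-4*x^2) + u3*x^2)
    (hB3 : B3 = v2*(4*x-4*x^2) + v3*x^2)
    (hA4 : A4 = (4-20*x+30*x^2-14*x^3) + u2*(10*x-24*x^2+14*x^3) + u3*(6*x^2-6*x^3) + u4*x^3)
    (hB4 : B4 = v2*(10*x-24*x^2+14*x^3) + v3*(6*x^2-6*x^3) + v4*x^3)
    (hA5 : A5 = (5-40*x+105*x^2-112*x^3+42*x^4) + u2*(20*x-84*x^2+112*x^3-48*x^4)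
        + u3*(21*x^2-48*x^3+27*x^4) + u4*(8*x^3-8*x^4) + u5*x^4)
    (hB5 : B5 = v2*(20*x-84*x^2+112*x^3-48*x^4)
        + v3*(21*x^2-48*x^3+27*x^4) + v4*(8*x^3-8*x^4) + v5*x^4) :
    ∃ g : ℂ → ℂ, Good g (⟨A2, B2⟩ : ℂ) (⟨A3, B3⟩ : ℂ) (⟨A4, B4⟩ : ℂ) (⟨A5, B5⟩ : ℂ) := by
  obtain ⟨g, hg⟩ := h
  have hr : ‖(⟨p, q⟩ : ℂ)‖ = 1 := norm_mk hpq
  have h2 := (hg.rot hr).pick h0 h1
  refine ⟨fun z => (x : ℂ)⁻¹ * ((⟨p, q⟩ : ℂ)⁻¹ * g ((⟨p, q⟩ : ℂ) * H915Pick.pick x z)), ?_⟩
  have r2 : (⟨p, q⟩ : ℂ) ^ 2 = ⟨P2, Q2⟩ := by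
    apply Complex.ext <;> simp [pow_two, hP2, hQ2] <;> ring
  have r3 : (⟨p, q⟩ : ℂ) ^ 3 = ⟨P3, Q3⟩ := by
    rw [pow_succ, r2]
    apply Complex.ext <;> simp [hP3, hQ3]
  have r4 : (⟨p, q⟩ : ℂ) ^ 4 = ⟨P4, Q4⟩ := by
    rw [show (⟨p, q⟩ : ℂ) ^ 4 = ((⟨p, q⟩ : ℂ) ^ 2) * ((⟨p, q⟩ : ℂ) ^ 2) by ring, r2]
    apply Complex.ext <;> simp [hP4, hQ4] <;> ring
  rw [r2, r3, r4] at h2
  have w2 : (⟨a2, b2⟩ : ℂ) * ⟨p, q⟩ = ⟨u2, v2⟩ := by
    apply Complex.ext <;> simp [hu2, hv2]
  have w3 : (⟨a3, b3⟩ : ℂ) * ⟨P2, Q2⟩ = ⟨u3, v3⟩ := by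
    apply Complex.ext <;> simp [hu3, hv3]
  have w4 : (⟨a4, b4⟩ : ℂ) * ⟨P3, Q3⟩ = ⟨u4, v4⟩ := by
    apply Complex.ext <;> simp [hu4, hv4]
  have w5 : (⟨a5, b5⟩ : ℂ) * ⟨P4, Q4⟩ = ⟨u5, v5⟩ := by
    apply Complex.ext <;> simp [hu5, hv5]
  rw [w2, w3, w4, w5] at h2
  have e2 : (⟨A2, B2⟩ : ℂ) = (2-2*x) + (⟨u2, v2⟩ : ℂ)*x := by
    apply Complex.ext <;> simp [hA2, hB2]
  have e3 : (⟨A3, B3⟩ : ℂ) = (3-8*x+5*x^2) + (⟨u2, v2⟩ : ℂ)*(4*x-4*x^2) + (⟨u3, v3⟩ : ℂ)*x^2 := by
    have : ((3-8*x+5*x^2 : ℝ) : ℂ) + (⟨u2, v2⟩ : ℂ)*((4*x-4*x^2 : ℝ) : ℂ)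
      + (⟨u3, v3⟩ : ℂ)*((x^2 : ℝ) : ℂ) = (3-8*x+5*x^2) + (⟨u2, v2⟩ : ℂ)*(4*x-4*x^2)
      + (⟨u3, v3⟩ : ℂ)*x^2 := by push_cast; ring
    rw [← this]
    apply Complex.ext
    · simp only [Complex.add_re, Complex.re_mul_ofReal, Complex.ofReal_re, hA3]
    · simp only [Complex.add_im, Complex.im_mul_ofReal, Complex.ofReal_im, hB3]; ring
  have e4 : (⟨A4, B4⟩ : ℂ) = (4-20*x+30*x^2-14*x^3) + (⟨u2, v2⟩ : ℂ)*(10*x-24*x^2+14*x^3)
      + (⟨u3, v3⟩ : ℂ)*(6*x^2-6*x^3) + (⟨u4, v4⟩ : ℂ)*x^3 := by
    have : ((4-20*x+30*x^2-14*x^3 : ℝ) : ℂ) + (⟨u2, v2⟩ : ℂ)*((10*x-24*x^2+14*x^3 : ℝ) : ℂ)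
      + (⟨u3, v3⟩ : ℂ)*((6*x^2-6*x^3 : ℝ) : ℂ) + (⟨u4, v4⟩ : ℂ)*((x^3 : ℝ) : ℂ)
      = (4-20*x+30*x^2-14*x^3) + (⟨u2, v2⟩ : ℂ)*(10*x-24*x^2+14*x^3)
      + (⟨u3, v3⟩ : ℂ)*(6*x^2-6*x^3) + (⟨u4, v4⟩ : ℂ)*x^3 := by push_cast; ring
    rw [← this]
    apply Complex.ext
    · simp only [Complex.add_re, Complex.re_mul_ofReal, Complex.ofReal_re, hA4]
    · simp only [Complex.add_im, Complex.im_mul_ofReal, Complex.ofReal_im, hB4]; ring
  have e5 : (⟨A5, B5⟩ : ℂ) = (5-40*x+105*x^2-112*x^3+42*x^4)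
      + (⟨u2, v2⟩ : ℂ)*(20*x-84*x^2+112*x^3-48*x^4)
      + (⟨u3, v3⟩ : ℂ)*(21*x^2-48*x^3+27*x^4) + (⟨u4, v4⟩ : ℂ)*(8*x^3-8*x^4)
      + (⟨u5, v5⟩ : ℂ)*x^4 := by
    have : ((5-40*x+105*x^2-112*x^3+42*x^4 : ℝ) : ℂ)
      + (⟨u2, v2⟩ : ℂ)*((20*x-84*x^2+112*x^3-48*x^4 : ℝ) : ℂ)
      + (⟨u3, v3⟩ : ℂ)*((21*x^2-48*x^3+27*x^4 : ℝ) : ℂ)
      + (⟨u4, v4⟩ : ℂ)*((8*x^3-8*x^4 : ℝ) : ℂ)
      + (⟨u5, v5⟩ : ℂ)*((x^4 : ℝ) : ℂ)
      = (5-40*x+105*x^2-112*x^3+42*x^4) + (⟨u2, v2⟩ : ℂ)*(20*x-84*x^2+112*x^3-48*x^4)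
      + (⟨u3, v3⟩ : ℂ)*(21*x^2-48*x^3+27*x^4) + (⟨u4, v4⟩ : ℂ)*(8*x^3-8*x^4)
      + (⟨u5, v5⟩ : ℂ)*x^4 := by push_cast; ring
    rw [← this]
    apply Complex.ext
    · simp only [Complex.add_re, Complex.re_mul_ofReal, Complex.ofReal_re, hA5]
    · simp only [Complex.add_im, Complex.im_mul_ofReal, Complex.ofReal_im, hB5]; ring
  rw [e2, e3, e4, e5]
  exact h2

lemma g0 : ∃ g : ℂ → ℂ, Good g (⟨2, 0⟩ : ℂ) (⟨3, 0⟩ : ℂ) (⟨4, 0⟩ : ℂ) (⟨5, 0⟩ : ℂ) := by
  refine ⟨fun z : ℂ => z / (1 - z)^2, ?_⟩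
  have e2 : (⟨2, 0⟩ : ℂ) = 2 := by apply Complex.ext <;> simp
  have e3 : (⟨3, 0⟩ : ℂ) = 3 := by apply Complex.ext <;> simp
  have e4 : (⟨4, 0⟩ : ℂ) = 4 := by apply Complex.ext <;> simp
  have e5 : (⟨5, 0⟩ : ℂ) = 5 := by apply Complex.ext <;> simp
  rw [e2, e3, e4, e5]
  exact good_koebe

lemma g1 : ∃ g : ℂ → ℂ, Good g (⟨(380191/190097:ℝ), (-1308/190097:ℝ)⟩ : ℂ)
    (⟨(108407471640/36136869409:ℝ), (-808096461/36136869409:ℝ)⟩ : ℂ)
    (⟨(27476225997730157/6869510464042673:ℝ), (-626275775754105/13739020928085346:ℝ)⟩ : ℂ)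
    (⟨(13057178680929690124465/2611746661366240018562:ℝ), (-1601573465594691453585/20893973290929920148496:ℝ)⟩ : ℂ) :=
  step g0 (190095/190097:ℝ) (-872/190097:ℝ) (3/4:ℝ) (by norm_num) (by norm_num) (by norm_num)
    _ _ _ _ _ _ _ _
    (380190/190097:ℝ)
    (-1744/190097:ℝ)
    (108406045923/36136869409:ℝ)
    (-994577040/36136869409:ℝ)
    (27475440038071740/6869510464042673:ℝ)
    (-378125592618208/6869510464042673:ℝ)
    (6528267560650605422405/1305873330683120009281:ℝ)
    (-119797960302446008800/1305873330683120009281:ℝ)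
    (36135348641/36136869409:ℝ)
    (-331525680/36136869409:ℝ)
    (6868860009517935/6869510464042673:ℝ)
    (-94531398154552/6869510464042673:ℝ)
    (1305653512130121084481/1305873330683120009281:ℝ)
    (-23959592060489201760/1305873330683120009281:ℝ)
    (by norm_num) (by norm_num) (by norm_num) (by norm_num) (by norm_num) (by norm_num) (by norm_num) (by norm_num)
    (by norm_num) (by norm_num) (by norm_num) (by norm_num) (by norm_num) (by norm_num) (by norm_num) (by norm_num)
    (by norm_num) (by norm_num) (by norm_num) (by norm_num) (by norm_num) (by norm_num)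

lemma g2 : ∃ g : ℂ → ℂ, Good g (⟨(77226653063/38616684774:ℝ), (-460481570/19308342387:ℝ)⟩ : ℂ)
    (⟨(4472244792267313017893/1491248342934483431076:ℝ), (-114392659443804751765/1491248342934483431076:ℝ)⟩ : ℂ)
    (⟨(230170597507729016608191399576971/57587067178850796792387847636824:ℝ), (-1996541795612840580900089342975/12797126039744621509419521697072:ℝ)⟩ : ℂ)
    (⟨(22207345268193034435427312761114635303326485/4447643240609685398620743669879146485035552:ℝ), (-9332652565598229553793622346699784394871025/35581145924877483188965949359033171880284416:ℝ)⟩ : ℂ) :=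
  step g1 (33855/33857:ℝ) (-368/33857:ℝ) (5/6:ℝ) (by norm_num) (by norm_num) (by norm_num)
    _ _ _ _ _ _ _ _
    (12870884961/6436114129:ℝ)
    (-184192628/6436114129:ℝ)
    (124217602273335709560/41423565081513428641:ℝ)
    (-3627318557329437261/41423565081513428641:ℝ)
    (1065393597563588210824988758635/266606792494679614779573368689:ℝ)
    (-93824934613610385544208653927/533213584989359229559146737378:ℝ)
    (17129427456826518535038589790667896844265/3431823488124757252022178757622798213762:ℝ)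
    (-8068211113338016519052297589635603344785/27454587904998058016177430060982385710096:ℝ)
    (1146025601/1146296449:ℝ)
    (-24917280/1146296449:ℝ)
    (38789527162815/38810158873793:ℝ)
    (-1265311935568/38810158873793:ℝ)
    (1312753807304812801/1313995548990009601:ℝ)
    (-57111681574570560/1313995548990009601:ℝ)
    (by norm_num) (by norm_num) (by norm_num) (by norm_num) (by norm_num) (by norm_num) (by norm_num) (by norm_num)
    (by norm_num) (by norm_num) (by norm_num) (by norm_num) (by norm_num) (by norm_num) (by norm_num) (by norm_num)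
    (by norm_num) (by norm_num) (by norm_num) (by norm_num) (by norm_num) (by norm_num)

lemma g3 : ∃ g : ℂ → ℂ, Good g (⟨(21666020371486/10909213448655:ℝ), (4009957312207/17454741517848:ℝ)⟩ : ℂ)
    (⟨(22234140426861398750664541319/7616700036372167572563777600:ℝ), (210635821606399887604914413/304668001454886702902551104:ℝ)⟩ : ℂ)
    (⟨(4996872691062227598416086358626724933204869/1329475303538596450229536771066087026048000:ℝ), (20165153785686116524099618884004607860961/14771947817095516113661519678512078067200:ℝ)⟩ : ℂ)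
    (⟨(518399874614974882799954158978494958352659345384266357397/116028238888143557645655247237000003730795639164523520000:ℝ), (416486247226635333736856036423705570719041725350112707379/185645182221029692233048395579200005969273022663237632000:ℝ)⟩ : ℂ) :=
  step g2 (112/113:ℝ) (15/113:ℝ) (19/20:ℝ) (by norm_num) (by norm_num) (by norm_num)
    _ _ _ _ _ _ _ _
    (4331599795078/2181842689731:ℝ)
    (1055251924265/4363685379462:ℝ)
    (55477942931672213033354267/19041750090930418931409444:ℝ)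
    (13617539330329941003127445/19041750090930418931409444:ℝ)
    (622026866345554882606781215310821297351/166184412942324556278692096383260878256:ℝ)
    (4340985481860050822858105274522373865/3077489128561565857012816599690016264:ℝ)
    (3215998865957835195647622125024360632170698102403085/725176493050897235285345295231250023317472744778272:ℝ)
    (13396305571511335557173921878438820165094230644183375/5801411944407177882282762361850000186539781958226176:ℝ)
    (12319/12769:ℝ)
    (3360/12769:ℝ)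
    (1329328/1442897:ℝ)
    (561105/1442897:ℝ)
    (140468161/163047361:ℝ)
    (82783680/163047361:ℝ)
    (by norm_num) (by norm_num) (by norm_num) (by norm_num) (by norm_num) (by norm_num) (by norm_num) (by norm_num)
    (by norm_num) (by norm_num) (by norm_num) (by norm_num) (by norm_num) (by norm_num) (by norm_num) (by norm_num)
    (by norm_num) (by norm_num) (by norm_num) (by norm_num) (by norm_num) (by norm_num)

lemma g4 : ∃ g : ℂ → ℂ, Good g (⟨(121219567398214069/60644317561073145:ℝ), (50255885217613873/1212886351221462900:ℝ)⟩ : ℂ)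
    (⟨(4408503691022222565065869365271175671/1471093300979313858374801616076410000:ℝ), (39098233869810427244193041430438593/294218660195862771674960323215282000:ℝ)⟩ : ℂ)
    (⟨(316425485839283633810866122166844575040691573040197739/79300843828050546701039804869230787328927928008400000:ℝ), (474777407134726865328439481755893516324923834741769233/1784268986131137300773395609557692714900878380189000000:ℝ)⟩ : ℂ)
    (⟨(21550172045689547935952455804986596820704166167129654545930292980650580807/4328231000372428224527389451366598150990648102386097277925916976200000000:ℝ), (123646965188206651036128707086425677343109503924976799508470802533292731/277006784023835406369752924887462281663401478552710225787258686476800000:ℝ)⟩ : ℂ) :=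
  step g3 (1845/1853:ℝ) (-172/1853:ℝ) (14/15:ℝ) (by norm_num) (by norm_num) (by norm_num)
    _ _ _ _ _ _ _ _
    (16161951198581569/8085909008143086:ℝ)
    (7179412173944839/161718180162861720:ℝ)
    (78369953637587352278218382464098679/26152769795187801926663139841358400:ℝ)
    (731577913262529703832720766722081/5230553959037560385332627968271680:ℝ)
    (749839916747863218306300353109457023673668166278461/187972370555379073661723981912250755150051384908800:ℝ)
    (1174736921709125202321575674231862942223822195846431/4229378337496029157388789593025641990876156160448000:ℝ)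
    (6809102166508805639010165134556147249583943908735267973436251794144807/1367934735920174846270384814259072995868649276803507287838314501120000:ℝ)
    (1021892630865871006282800008438127575586725854880845378930711052512547/2188695577472279754032615702814516793389838842885611660541303201792000:ℝ)
    (3374441/3433609:ℝ)
    (-634680/3433609:ℝ)
    (6116678685/6362477477:ℝ)
    (-1751388452/6362477477:ℝ)
    (10984033360081/11789670764881:ℝ)
    (-4283380427760/11789670764881:ℝ)
    (by norm_num) (by norm_num) (by norm_num) (by norm_num) (by norm_num) (by norm_num) (by norm_num) (by norm_num)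
    (by norm_num) (by norm_num) (by norm_num) (by norm_num) (by norm_num) (by norm_num) (by norm_num) (by norm_num)
    (by norm_num) (by norm_num) (by norm_num) (by norm_num) (by norm_num) (by norm_num)

lemma g5 : ∃ g : ℂ → ℂ, Good g (⟨(-79815504614446990982693/49317475148603708342625:ℝ), (713669602032856780579/197269900594414833370500:ℝ)⟩ : ℂ)
    (⟨(63094047128587962311503569433335153879675003503/38915413680530309828359390030879280390270250000:ℝ), (-55065926026544975808223656415378510945573171/38915413680530309828359390030879280390270250000:ℝ)⟩ : ℂ)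
    (⟨(-15438736374283732177129709411869255337319983241904617449383799218992859/15353679576697490610531948544303075670509398986516877726426755250000000:ℝ), (624988369388133585488906933011818200510957971871697058949746139497/284327399568472048343184232301908808713137018268831069007902875000000:ℝ)⟩ : ℂ)
    (⟨(3177039519460410107292510066490572462484509038752090178241991571374208185773888395357436793/432688406264801598599609184583521401934630692695254682404137830775979658043105152875000000000:ℝ), (-77774962209412432223079616662087428394592109505145315458180075267302476815552093109524983/3461507250118412788796873476668171215477045541562037459233102646207837264344841223000000000000:ℝ)⟩ : ℂ) :=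
  step g4 (-7743/7745:ℝ) (176/7745:ℝ) (19/21:ℝ) (by norm_num) (by norm_num) (by norm_num)
    _ _ _ _ _ _ _ _
    (-4695226810771432691747/2348451197552557540125:ℝ)
    (37561558001729304241/9393804790210230160500:ℝ)
    (264703906717637025551836484410449083934211223/88243568436576666277458934310383855760250000:ℝ)
    (-301103904255330761524527087702757901853211/88243568436576666277458934310383855760250000:ℝ)
    (-6629964605471503998108601965341940492411924519386144995349226138001/1657885711769516316869878905550488680543072992821172414040250000000:ℝ)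
    (21707799840207989776722777029004785909508456481707004750939987/3411287472776782544999750834466026091652413565475663403375000000:ℝ)
    (77852798458515639400596404276727813669256859011338414050590119858349248203999494592697631/15573854740841579332671388423983061654055742457447168498871174127199354210960125000000000:ℝ)
    (-930310769241887808203731767778922495797975936170404305371655080931985920765110611581361/124590837926732634661371107391864493232445939659577347990969393017594833687681000000000000:ℝ)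
    (59923073/59985025:ℝ)
    (-2725536/59985025:ℝ)
    (-463504659903/464584018625:ℝ)
    (31650286096/464584018625:ℝ)
    (3583346131276033/3598203224250625:ℝ)
    (-326644985384256/3598203224250625:ℝ)
    (by norm_num) (by norm_num) (by norm_num) (by norm_num) (by norm_num) (by norm_num) (by norm_num) (by norm_num)
    (by norm_num) (by norm_num) (by norm_num) (by norm_num) (by norm_num) (by norm_num) (by norm_num) (by norm_num)
    (by norm_num) (by norm_num) (by norm_num) (by norm_num) (by norm_num) (by norm_num)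

/-- The negation of the preceding statement: For every f holomorphic and injective on the unit disk with f(0)=0, f'(0)=1, and Taylor coefficients a_k, for all n≥1: ∣a_n∣^2 ≤ ∣a_1∣+∣a_3∣+...+∣a_{2n-1}∣, where ∣a_1∣ = 1. -/
theorem result :
    ¬ (∀ f : ℂ → ℂ, DifferentiableOn ℂ f (Metric.ball (0 : ℂ) 1) →
      Set.InjOn f (Metric.ball (0 : ℂ) 1) → f 0 = 0 → deriv f 0 = 1 →
      ∀ n : ℕ, 1 ≤ n →
        ‖iteratedDeriv n f 0 / ((Nat.factorial n : ℕ) : ℂ)‖ ^ 2 ≤
          ∑ k ∈ Finset.range n,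
            ‖iteratedDeriv (2 * k + 1) f 0 / ((Nat.factorial (2 * k + 1) : ℕ) : ℂ)‖) := by
  intro H
  obtain ⟨f, hf⟩ := g5
  have j := hf.jet
  have d1 : deriv f 0 = 1 := by
    have := j.coeff_one
    rwa [iteratedDeriv_one] at this
  have h3 := H f hf.diff hf.inj j.zero d1 3 (by norm_num)
  have k1 : iteratedDeriv 1 f 0 / ((Nat.factorial 1 : ℕ) : ℂ) = 1 := by
    rw [j.coeff_one]; norm_num [Nat.factorial]
  have k3 := j.coeff_three
  have k5 := j.coeff_five
  have k3' : ∀ c : ℂ, iteratedDeriv 3 f 0 = 6 * c →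
      iteratedDeriv 3 f 0 / ((Nat.factorial 3 : ℕ) : ℂ) = c := by
    intro c hc
    rw [hc, show ((Nat.factorial 3 : ℕ) : ℂ) = 6 by norm_num [Nat.factorial],
      mul_div_cancel_left₀ _ (by norm_num : (6 : ℂ) ≠ 0)]
  have k5' : ∀ c : ℂ, iteratedDeriv 5 f 0 = 120 * c →
      iteratedDeriv 5 f 0 / ((Nat.factorial 5 : ℕ) : ℂ) = c := by
    intro c hc
    rw [hc, show ((Nat.factorial 5 : ℕ) : ℂ) = 120 by norm_num [Nat.factorial],
      mul_div_cancel_left₀ _ (by norm_num : (120 : ℂ) ≠ 0)]
  simp only [Finset.sum_range_succ, Finset.sum_range_zero, zero_add] at h3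
  rw [show 2 * 0 + 1 = 1 by norm_num, show 2 * 1 + 1 = 3 by norm_num,
    show 2 * 2 + 1 = 5 by norm_num, k1, k3' _ k3, k5' _ k5, norm_one] at h3
  have n3 : ∀ (a b s : ℝ), 0 ≤ s → a * a + b * b ≤ s * s → ‖(⟨a, b⟩ : ℂ)‖ ≤ s := by
    intro a b s hs h
    apply le_of_sq_le_sq _ hs
    rw [← Complex.normSq_eq_norm_sq, Complex.normSq_mk]
    nlinarith
  have sq : ∀ (a b : ℝ), ‖(⟨a, b⟩ : ℂ)‖ ^ 2 = a * a + b * b := by
    intro a b
    rw [← Complex.normSq_eq_norm_sq, Complex.normSq_mk]
  have m3 := n3 (63094047128587962311503569433335153879675003503/38915413680530309828359390030879280390270250000:ℝ) (-55065926026544975808223656415378510945573171/38915413680530309828359390030879280390270250000:ℝ) (324262625993/200000000000:ℝ) (by norm_num) (by norm_num)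
  have m5 := n3 (3177039519460410107292510066490572462484509038752090178241991571374208185773888395357436793/432688406264801598599609184583521401934630692695254682404137830775979658043105152875000000000:ℝ) (-77774962209412432223079616662087428394592109505145315458180075267302476815552093109524983/3461507250118412788796873476668171215477045541562037459233102646207837264344841223000000000000:ℝ) (7342591917/1000000000000:ℝ) (by norm_num) (by norm_num)
  have h4 := h3.trans (add_le_add (add_le_add le_rfl m3) m5)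
  rw [sq] at h4
  norm_num at h4

end Pool.Agent.S06098
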