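import Pool.Statements.S06121
import Pool.Agent.H667R3.NormAddCStar

set_option autoImplicit false
open Pool Pool.MP_c8dc36_an

namespace Pool.Agent.S06121

open Pool.Agent.H667R3.NormAdd in
/-- For any two C*-algebras, a map from the positive cone of the first onto the positive cone of the second with ‖T f + T g‖ = ‖T(f+g)‖ for all positive f, g must satisfy T(f+g) = T f + T g on positive elements. -/
theorem result :
    ∀ (A₁ A₂ : Type) [NonUnitalCStarAlgebra A₁] [PartialOrder A₁] [StarOrderedRing A₁]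
      [NonUnitalCStarAlgebra A₂] [PartialOrder A₂] [StarOrderedRing A₂] (T : A₁ → A₂),
      (∀ a : A₁, 0 ≤ a → 0 ≤ T a) →
      (∀ b : A₂, 0 ≤ b → ∃ a : A₁, 0 ≤ a ∧ T a = b) →
      (∀ f g : A₁, 0 ≤ f → 0 ≤ g → ‖T f + T g‖ = ‖T (f + g)‖) →
      ∀ f g : A₁, 0 ≤ f → 0 ≤ g → T (f + g) = T f + T g := by
  intro A₁ A₂ _ _ _ _ _ _ T hpos hsurj hT f g hf hg
  let M : Type := {a : A₁ // 0 ≤ a}
  letI : AddCommSemigroup M :=
    { add := fun a b => ⟨a.1 + b.1, add_nonneg a.2 b.2⟩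
      add_assoc := fun a b c => Subtype.ext (add_assoc a.1 b.1 c.1)
      add_comm := fun a b => Subtype.ext (add_comm a.1 b.1) }
  let S : M → selfAdjoint A₂ := fun a => ⟨T a.1, (hpos a.1 a.2).isSelfAdjoint⟩
  have h := (gauge (B := A₂)).additive (T := S)
    (fun m => rho_neg_eq_zero.2 (hpos m.1 m.2))
    (fun v hv => by
      obtain ⟨a, ha, hav⟩ := hsurj (v : A₂) (rho_neg_eq_zero.1 hv)
      exact ⟨⟨a, ha⟩, Subtype.ext hav⟩)
    (fun a b => by
      rw [rho_of_nonneg (x := S a + S b) (add_nonneg (hpos a.1 a.2) (hpos b.1 b.2)),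
        rho_of_nonneg (x := S (a + b)) (hpos (a + b).1 (a + b).2)]
      exact hT a.1 b.1 a.2 b.2)
    ⟨f, hf⟩ ⟨g, hg⟩
  exact congrArg Subtype.val h

end Pool.Agent.S06121
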