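import Pool.Statements.S06138
import Pool.Agent.H299R3.CpFree

set_option autoImplicit false
open Pool Pool.MP_c9b9fd_an

namespace Pool.Agent.S06138

/-- The negation of the preceding statement: There are infinite metric spaces M, N such that continuous real functions on M with the pointwise topology are homeomorphic to the Lipschitz-free space of N with its weak topology, i.e. pointwise convergence against Lipschitz functions vanishing at a base point. -/
theorem result :
    ¬ (∃ (M N : Type) (_ : MetricSpace M) (_ : MetricSpace N) (_ : Infinite M) (_ : Infinite N)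
      (n0 : N),
      Nonempty ({g : M → ℝ // Continuous g} ≃ₜ
        {Φ : {f : N → ℝ // f n0 = 0 ∧ ∃ K : NNReal, LipschitzWith K f} → ℝ //
          ∀ ε : ℝ, 0 < ε → ∃ c : N →₀ ℝ,
            ∀ f : {f : N → ℝ // f n0 = 0 ∧ ∃ K : NNReal, LipschitzWith K f},
              ∀ K : NNReal, LipschitzWith K f.1 →
                |Φ f - c.sum (fun x a => a * f.1 x)| ≤ ε * (K : ℝ)})) := by
  classical
  rintro ⟨M, N, _, _, _, _, n0, ⟨h⟩⟩
  let toS : C(M, ℝ) → {g : M → ℝ // Continuous g} := fun f => ⟨f, f.continuous⟩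
  let ofS : {g : M → ℝ // Continuous g} → C(M, ℝ) := fun f => ⟨f.1, f.2⟩
  let e : C(M, ℝ) → Pool.Agent.H299R3.FE n0 := fun f => (h (toS f))
  let e' : Pool.Agent.H299R3.FE n0 → C(M, ℝ) := fun g => ofS (h.symm g)
  refine Pool.Agent.H299R3.gen_main (M := M) (E := Pool.Agent.H299R3.FE n0)
    Pool.Agent.H299R3.FE.infinite_dim e e' (fun f => ?_) (fun g => ?_) ?_ ?_
  · exact congrArg ofS (h.symm_apply_apply (toS f))
  · exact h.apply_symm_apply g
  · intro f0 q ε hε
    obtain ⟨l, hl⟩ := Pool.Agent.H299R3.FE.exists_lip q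
    have h1 : @Continuous {g : M → ℝ // Continuous g} ℝ
        (TopologicalSpace.induced (fun (g : {g : M → ℝ // Continuous g}) (x : M) => g.1 x)
          Pi.topologicalSpace) _ (fun g => (h g).1 l) :=
      ((continuous_apply l).comp continuous_subtype_val).comp h.continuous
    obtain ⟨A, δ, hδ, hA⟩ := Pool.Agent.H299R3.finite_control _ _ h1 (toS f0) ε hε
    refine ⟨A, δ, hδ, fun f hf => ?_⟩
    rw [hl, hl]
    exact hA (toS f) hf
  · intro g0 x ε hε
    have h1 : @Continuous _ ℝ
        (TopologicalSpace.induced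
          (fun (Φ : {Φ : {f : N → ℝ // f n0 = 0 ∧ ∃ K : NNReal, LipschitzWith K f} → ℝ //
          ∀ ε : ℝ, 0 < ε → ∃ c : N →₀ ℝ,
            ∀ f : {f : N → ℝ // f n0 = 0 ∧ ∃ K : NNReal, LipschitzWith K f},
              ∀ K : NNReal, LipschitzWith K f.1 →
                |Φ f - c.sum (fun x a => a * f.1 x)| ≤ ε * (K : ℝ)})
            (l : {f : N → ℝ // f n0 = 0 ∧ ∃ K : NNReal, LipschitzWith K f}) => Φ.1 l)
          Pi.topologicalSpace) _ (fun g => (h.symm g).1 x) :=
      ((continuous_apply x).comp continuous_subtype_val).comp h.symm.continuous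
    obtain ⟨S, δ, hδ, hS⟩ := Pool.Agent.H299R3.finite_control _ _ h1 g0 ε hε
    choose q hq using fun l => Pool.Agent.H299R3.FE.exists_functional (n0 := n0) l
    refine ⟨S.image q, δ, hδ, fun g hg => ?_⟩
    refine hS g fun l hl => ?_
    have h2 := hg (q l) (Finset.mem_image_of_mem q hl)
    rw [hq, hq] at h2
    exact h2

end Pool.Agent.S06138
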