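import Pool.Statements.S06147
import Pool.Agent.H1R3.Z.Final
-- import your own Pool.Agent.* helpers here

set_option autoImplicit false
open Complex Filter
open Pool Pool.MP_caad88_an

namespace Pool.Agent.S06147

/-- For entire L of exponential type with simple zeros and positive indicator in every direction, if ∣L'(w)∣ > e^{(h(arg w)-ε)∣w∣} at all large zeros w, then some P>0 has ∣L∣>e^{Pr} on whole circles ∣z∣=r for arbitrarily large r. -/
theorem result :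
    ∀ L : ℂ → ℂ, Differentiable ℂ L →
      (∃ A B : ℝ, ∀ z : ℂ, ‖L z‖ ≤ A * Real.exp (B * ‖z‖)) →
      (∀ z : ℂ, L z = 0 → deriv L z ≠ 0) →
      (∀ φ : ℝ, ∃ c : ℝ, 0 < c ∧ ∀ R : ℝ, ∃ r : ℝ, R < r ∧
          Real.exp (c * r) < ‖L ((r : ℂ) * Complex.exp ((φ : ℂ) * Complex.I))‖) →
      (∀ ε : ℝ, 0 < ε → ∃ τ : ℝ, ∀ w : ℂ, L w = 0 → τ < ‖w‖ →
          ∃ s : ℝ,
            (∀ᶠ r : ℝ in atTop,
              ‖L ((r : ℂ) * Complex.exp ((Complex.arg w : ℂ) * Complex.I))‖ ≤ Real.exp (s * r)) ∧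
            Real.exp ((s - ε) * ‖w‖) < ‖deriv L w‖) →
      ∃ P : ℝ, 0 < P ∧ ∀ R : ℝ, ∃ r : ℝ, R < r ∧
          ∀ z : ℂ, ‖z‖ = r → Real.exp (P * r) < ‖L z‖ := by
  intro L hd hexp hs hpos ha
  obtain ⟨A, B, hAB⟩ := hexp
  have hET : H1R3.Z.ET L (Real.log (max A 1)) |B| := by
    refine ⟨hd, fun z => ?_, abs_nonneg B⟩
    have hm : 0 < max A 1 := lt_of_lt_of_le one_pos (le_max_right _ _)
    rw [Real.exp_add, Real.exp_log hm]
    refine (hAB z).trans ?_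
    have h1 : Real.exp (B * ‖z‖) ≤ Real.exp (|B| * ‖z‖) :=
      Real.exp_le_exp.2 (mul_le_mul_of_nonneg_right (le_abs_self B) (norm_nonneg z))
    calc A * Real.exp (B * ‖z‖) ≤ max A 1 * Real.exp (B * ‖z‖) :=
          mul_le_mul_of_nonneg_right (le_max_left _ _) (Real.exp_pos _).le
      _ ≤ max A 1 * Real.exp (|B| * ‖z‖) := mul_le_mul_of_nonneg_left h1 hm.le
  exact H1R3.Z.main hET hs hpos ha

end Pool.Agent.S06147
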