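import Pool.Statements.S06172
import Pool.Agent.H98R3.AA

set_option autoImplicit false
open Pool Pool.MP_cc91a5_an

namespace Pool.Agent.S06172

/-- The negation of the preceding statement: For every continuous self-map T of a compact metric space and every almost additive sequence of continuous functions with bounded variations in the Bowen metric, some continuous g has Birkhoff sums uniformly within bounded distance of f_n. -/
theorem result :
    ¬ (∀ (X : Type) [MetricSpace X] [CompactSpace X] (T : X → X), Continuous T →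
      ∀ f : ℕ → X → ℝ, (∀ n, Continuous (f n)) →
        (∃ C : ℝ, ∀ n m : ℕ, 1 ≤ n → 1 ≤ m → ∀ x : X,
            |f (n + m) x - f n x - f m (T^[n] x)| ≤ C) →
        (∃ ε : ℝ, 0 < ε ∧ ∃ K : ℝ, ∀ n : ℕ, 1 ≤ n → ∀ x y : X,
            (∀ k : ℕ, k < n → dist (T^[k] x) (T^[k] y) < ε) →
              |f n x - f n y| ≤ K) →
        ∃ g : X → ℝ, Continuous g ∧ ∃ B : ℝ, ∀ n : ℕ, 1 ≤ n → ∀ x : X,
            |f n x - ∑ k ∈ Finset.range n, g (T^[k] x)| ≤ B) := by
  intro h
  let M : MetricSpace (ℕ → Bool) := PiNat.metricSpace (E := fun _ : ℕ => Bool)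
  have hc : @CompactSpace (ℕ → Bool) M.toPseudoMetricSpace.toUniformSpace.toTopologicalSpace :=
    (inferInstance : CompactSpace (ℕ → Bool))
  obtain ⟨g, hg, B, hB⟩ := @h (ℕ → Bool) M hc H98R3.AA.T H98R3.AA.T_cont H98R3.AA.f
    H98R3.AA.f_cont ⟨1, fun n m _ _ x => H98R3.AA.almost_additive n m x⟩
    ⟨1, one_pos, 0, fun n _ x y hxy => by
      have hfc : H98R3.AA.f n x = H98R3.AA.f n y := by
        apply H98R3.AA.f_congr
        intro k hk
        have h1 := hxy k hk
        have h2 : H98R3.AA.T^[k] x 0 = H98R3.AA.T^[k] y 0 :=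
          PiNat.apply_eq_of_dist_lt (n := 0) (by simpa using h1) (le_refl 0)
        simpa [H98R3.AA.T_iter] using h2
      rw [hfc, sub_self, abs_zero]⟩
  exact H98R3.AA.no_approx g hg B hB

end Pool.Agent.S06172
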