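import Pool.Statements.S06212
import Pool.Agent.H71R3.Free

set_option autoImplicit false
open ComplexOrder
open Pool Pool.MP_cf2fa9_an

namespace Pool.Agent.S06212

open Pool.Agent.H71R3.Tree in
/-- The negation of the preceding statement: For k ≥ 2, no nonzero positive definite ℓ²-coefficient ψ(g)=⟨λ(g)η,η⟩ lies below g ↦ (2k−1)^(−∣g∣/2) on the free group F_k. That is, the critical Haagerup function is singular to the Fourier algebra. -/
theorem result :
    ¬ (∀ k : ℕ, 2 ≤ k → ∀ η : FreeGroup (Fin k) → ℂ,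
    Summable (fun h => ‖η h‖ ^ 2) → η ≠ 0 →
    ¬ ∀ (n : ℕ) (g : Fin n → FreeGroup (Fin k)) (c : Fin n → ℂ),
      0 ≤ ∑ i, ∑ j, starRingEnd ℂ (c i) * c j *
        ((((1 / Real.sqrt (2 * (k : ℝ) - 1)) ^ (FreeGroup.toWord ((g i)⁻¹ * g j)).length : ℝ) : ℂ)
          - ∑' h, starRingEnd ℂ (η h) * η (((g i)⁻¹ * g j)⁻¹ * h))) := by
  intro H
  set r : ℝ := 1 / Real.sqrt (2 * ((2 : ℕ) : ℝ) - 1) with hr
  have hr3 : r = 1 / Real.sqrt 3 := by rw [hr]; norm_num
  have h0 : 0 ≤ r := by rw [hr3]; positivity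
  have h1 : r < 1 := by
    rw [hr3, div_lt_one (by positivity)]
    exact Real.lt_sqrt_of_sq_lt (by norm_num)
  set ε : ℝ := eps (Fintype.card (Fin 2 × Bool)) r with hε
  have hεpos : 0 < ε := eps_pos _ r h0 h1
  set η : FreeGroup (Fin 2) → ℂ := fun h => if h = 1 then ((Real.sqrt ε : ℝ) : ℂ) else 0 with hη
  have hsum : Summable (fun h => ‖η h‖ ^ 2) := by
    refine summable_of_ne_finset_zero (s := {1}) fun b hb => ?_
    have hb' : b ≠ 1 := by simpa using hb
    simp [hη, hb']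
  have hne : η ≠ 0 := by
    intro h
    have h2 := congrFun h 1
    simp only [hη, if_true, Pi.zero_apply] at h2
    have h3 : Real.sqrt ε = 0 := by exact_mod_cast h2
    exact (Real.sqrt_pos.2 hεpos).ne' h3
  refine H 2 le_rfl η hsum hne fun n g c => ?_
  have hts : ∀ w : FreeGroup (Fin 2), ∑' h, starRingEnd ℂ (η h) * η (w⁻¹ * h)
      = ((if w = 1 then ε else 0 : ℝ) : ℂ) := by
    intro w
    rw [tsum_eq_single 1]
    · by_cases hw : w = 1
      · subst hw
        simp only [hη, if_true, inv_one, one_mul, Complex.conj_ofReal]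
        rw [← Complex.ofReal_mul, Real.mul_self_sqrt hεpos.le]
      · have : ¬ w⁻¹ = 1 := fun h => hw (inv_eq_one.1 h)
        simp [hη, hw]
    · intro b hb
      simp [hη, hb]
  have hM : ∀ i j, ((((1 / Real.sqrt (2 * ((2 : ℕ) : ℝ) - 1)) ^
        (FreeGroup.toWord ((g i)⁻¹ * g j)).length : ℝ) : ℂ)
          - ∑' h, starRingEnd ℂ (η h) * η (((g i)⁻¹ * g j)⁻¹ * h))
      = ((r ^ ((g i)⁻¹ * g j).norm - ε * (if g i = g j then 1 else 0) : ℝ) : ℂ) := by
    intro i j
    rw [hts, ← Complex.ofReal_sub]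
    congr 2
    by_cases hij : g i = g j
    · rw [if_pos hij, if_pos (by rw [hij, inv_mul_cancel]), mul_one]
    · rw [if_neg hij, if_neg (fun h => hij (inv_mul_eq_one.1 h)), mul_zero]
  have hgoal : ∑ i, ∑ j, starRingEnd ℂ (c i) * c j *
        ((((1 / Real.sqrt (2 * ((2 : ℕ) : ℝ) - 1)) ^ (FreeGroup.toWord ((g i)⁻¹ * g j)).length : ℝ) : ℂ)
          - ∑' h, starRingEnd ℂ (η h) * η (((g i)⁻¹ * g j)⁻¹ * h))
      = ∑ i, ∑ j, starRingEnd ℂ (c i) * c j *
        ((r ^ ((g i)⁻¹ * g j).norm - ε * (if g i = g j then 1 else 0) : ℝ) : ℂ) :=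
    Finset.sum_congr rfl fun i _ => Finset.sum_congr rfl fun j _ => by rw [hM i j]
  rw [hgoal]
  apply complex_of_real
  · intro i j
    have e1 : ((g i)⁻¹ * g j).norm = ((g j)⁻¹ * g i).norm := by
      rw [← FreeGroup.norm_inv_eq, mul_inv_rev, inv_inv]
    have e2 : (if g i = g j then (1 : ℝ) else 0) = if g j = g i then (1 : ℝ) else 0 := by
      by_cases hij : g i = g j
      · rw [if_pos hij, if_pos hij.symm]
      · rw [if_neg hij, if_neg (Ne.symm hij)]
    rw [e1, e2]
  · intro x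
    have h := haagerup_lower r h0 h1 Finset.univ g x
    rw [← hε] at h
    have h2 : ∑ i, ∑ j, x i * x j * (r ^ ((g i)⁻¹ * g j).norm - ε * (if g i = g j then 1 else 0))
        = ∑ i, ∑ j, x i * x j * r ^ ((g i)⁻¹ * g j).norm
          - ε * ∑ i, ∑ j, x i * x j * (if g i = g j then 1 else 0) := by
      rw [Finset.mul_sum, ← Finset.sum_sub_distrib]
      refine Finset.sum_congr rfl fun i _ => ?_
      rw [Finset.mul_sum, ← Finset.sum_sub_distrib]
      refine Finset.sum_congr rfl fun j _ => by ring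
    rw [h2]
    linarith

end Pool.Agent.S06212
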