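import Pool.Statements.S06219
import Pool.Agent.H145R3.NO5

set_option autoImplicit false
open scoped InnerProductSpace
open Pool Pool.MP_cfa8a6_an

namespace Pool.Agent.S06219

/-- There is a bounded linear operator T on complex ℓ²(ℕ) such that, for every unit vector x, the set of numbers ⟨Tⁿx, x⟩ over n in ℕ is dense in ℂ. -/
theorem result :
    ∃ T : lp (fun _ : ℕ => ℂ) 2 →L[ℂ] lp (fun _ : ℕ => ℂ) 2,
      ∀ x : lp (fun _ : ℕ => ℂ) 2, ‖x‖ = 1 →
        Dense (Set.range (fun n : ℕ => ⟪x, (T ^ n) x⟫_ℂ)) := by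
  exact Pool.Agent.H145R3.NO.main (HilbertBasis.ofRepr (LinearIsometryEquiv.refl ℂ (lp (fun _ : ℕ => ℂ) 2)))

end Pool.Agent.S06219
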