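import Pool.Statements.S06226
import Pool.Agent.H751R3.Gap.Two

set_option autoImplicit false
open Pool Pool.MP_d01728_an

namespace Pool.Agent.S06226

/-- The negation of the preceding statement: For every bounded convex domain in R^d, every convex potential continuous up to the boundary and every α>0, the Robin gap λ1−λ0 of −Δ+V (given by min-max) is at least the Robin gap of −d²/dx² on the interval of the same diameter. -/
theorem result :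
    ¬ (∀ (d : ℕ), 1 ≤ d → ∀ (Ω : Set (EuclideanSpace ℝ (Fin d))), IsOpen Ω → Convex ℝ Ω →
  Bornology.IsBounded Ω → Ω.Nonempty →
  ∀ (V : EuclideanSpace ℝ (Fin d) → ℝ), ConvexOn ℝ Ω V → ContinuousOn V (closure Ω) →
  ∀ α : ℝ, 0 < α →
  ∀ lam0 lam1 mu0 mu1 : ℝ,
  IsGLB {t : ℝ | ∃ u : EuclideanSpace ℝ (Fin d) → ℝ, ContDiff ℝ 1 u ∧
      0 < (∫ x in Ω, u x ^ 2) ∧
      t = ((∫ x in Ω, (‖fderiv ℝ u x‖ ^ 2 + V x * u x ^ 2)) +
            α * (Real.pi ^ (((d:ℝ) - 1) / 2) / Real.Gamma (((d:ℝ) - 1) / 2 + 1) / 2 ^ ((d:ℝ) - 1)) *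
            (∫ x in frontier Ω, u x ^ 2 ∂(MeasureTheory.Measure.hausdorffMeasure ((d:ℝ) - 1))))
          / (∫ x in Ω, u x ^ 2)} lam0 →
  IsGLB {t : ℝ | ∃ u w : EuclideanSpace ℝ (Fin d) → ℝ, ContDiff ℝ 1 u ∧ ContDiff ℝ 1 w ∧
      0 < (∫ x in Ω, u x ^ 2) * (∫ x in Ω, w x ^ 2) - (∫ x in Ω, u x * w x) ^ 2 ∧
      IsLUB {s : ℝ | ∃ a b : ℝ, (a ≠ 0 ∨ b ≠ 0) ∧
        s = ((∫ x in Ω, (‖fderiv ℝ (fun y => a * u y + b * w y) x‖ ^ 2 +
                  V x * (a * u x + b * w x) ^ 2)) +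
              α * (Real.pi ^ (((d:ℝ) - 1) / 2) / Real.Gamma (((d:ℝ) - 1) / 2 + 1) / 2 ^ ((d:ℝ) - 1)) *
              (∫ x in frontier Ω, (a * u x + b * w x) ^ 2
                  ∂(MeasureTheory.Measure.hausdorffMeasure ((d:ℝ) - 1))))
            / (∫ x in Ω, (a * u x + b * w x) ^ 2)} t} lam1 →
  IsGLB {t : ℝ | ∃ u : ℝ → ℝ, ContDiff ℝ 1 u ∧
      0 < (∫ x in Set.Ioo (-(Metric.diam Ω / 2)) (Metric.diam Ω / 2), u x ^ 2) ∧
      t = ((∫ x in Set.Ioo (-(Metric.diam Ω / 2)) (Metric.diam Ω / 2), deriv u x ^ 2) +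
            α * (u (-(Metric.diam Ω / 2)) ^ 2 + u (Metric.diam Ω / 2) ^ 2))
          / (∫ x in Set.Ioo (-(Metric.diam Ω / 2)) (Metric.diam Ω / 2), u x ^ 2)} mu0 →
  IsGLB {t : ℝ | ∃ u w : ℝ → ℝ, ContDiff ℝ 1 u ∧ ContDiff ℝ 1 w ∧
      0 < (∫ x in Set.Ioo (-(Metric.diam Ω / 2)) (Metric.diam Ω / 2), u x ^ 2) *
          (∫ x in Set.Ioo (-(Metric.diam Ω / 2)) (Metric.diam Ω / 2), w x ^ 2) -
          (∫ x in Set.Ioo (-(Metric.diam Ω / 2)) (Metric.diam Ω / 2), u x * w x) ^ 2 ∧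
      IsLUB {s : ℝ | ∃ a b : ℝ, (a ≠ 0 ∨ b ≠ 0) ∧
        s = ((∫ x in Set.Ioo (-(Metric.diam Ω / 2)) (Metric.diam Ω / 2),
                  deriv (fun y => a * u y + b * w y) x ^ 2) +
              α * ((a * u (-(Metric.diam Ω / 2)) + b * w (-(Metric.diam Ω / 2))) ^ 2 +
                   (a * u (Metric.diam Ω / 2) + b * w (Metric.diam Ω / 2)) ^ 2))
            / (∫ x in Set.Ioo (-(Metric.diam Ω / 2)) (Metric.diam Ω / 2),
                  (a * u x + b * w x) ^ 2)} t} mu1 →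
  mu1 - mu0 ≤ lam1 - lam0) := by
  intro H
  obtain ⟨L, ε, κ, h, hdiam, hgap⟩ :=
    Helper88.Gap.deep (α := 1 / 10) (by norm_num) (η := 1) one_pos
  obtain ⟨mu0, hmu0, hmu0'⟩ := H751R3.Gap.C1_glb
  obtain ⟨mu1, hmu1, hmu1'⟩ := H751R3.Gap.C2_glb
  have hne2 : (Helper88.Gap.lset (Helper88.Gap.muH L ε κ)
      (Helper88.Gap.surf (Helper88.Gap.Hs L ε κ)) (Helper88.Gap.vp (1 / 10) ε) (1 / 10) 2).Nonempty :=
    H751R3.Gap.lset2_nonempty (Helper88.Gap.Hs_isOpen L ε κ) h.nonempty h.good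
  have hex : ∃ v : Helper88.Gap.En 2 → ℝ, ContDiff ℝ 1 v ∧
      0 < Helper88.Gap.Nf (Helper88.Gap.muH L ε κ) v := by
    obtain ⟨x, hx⟩ := h.nonempty
    exact ⟨fun _ => 1, contDiff_const, H751R3.Gap.pos_open (Helper88.Gap.Hs_isOpen L ε κ) h.good
      continuous_const hx one_ne_zero⟩
  have hpot := h.pot (α := 1 / 10) (by norm_num)
  have g1 := H751R3.Gap.glb1 (ν := Helper88.Gap.surf (Helper88.Gap.Hs L ε κ)) h.good hpot
    (α := 1 / 10) (by norm_num) hex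
  have g2 := H751R3.Gap.glb2 (ν := Helper88.Gap.surf (Helper88.Gap.Hs L ε κ)) h.good h.surf_good
    hpot (α := 1 / 10) (by norm_num) hne2
  have e1 : (((2 : ℕ) : ℝ) - 1) = 1 := by norm_num
  have key := H 2 (by norm_num) (Helper88.Gap.Hs L ε κ) (Helper88.Gap.Hs_isOpen L ε κ) h.convex
    h.bounded h.nonempty (Helper88.Gap.vp (1 / 10) ε) ?_ (Helper88.Gap.vp_cont _ _).continuousOn
    (1 / 10) (by norm_num)
    (Helper88.Gap.lamf (Helper88.Gap.muH L ε κ) (Helper88.Gap.surf (Helper88.Gap.Hs L ε κ))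
      (Helper88.Gap.vp (1 / 10) ε) (1 / 10) 1)
    (Helper88.Gap.lamf (Helper88.Gap.muH L ε κ) (Helper88.Gap.surf (Helper88.Gap.Hs L ε κ))
      (Helper88.Gap.vp (1 / 10) ε) (1 / 10) 2) mu0 mu1 ?_ ?_ ?_ ?_
  · linarith
  · refine ⟨h.convex, ?_⟩
    intro x _ y _ a b _ _ _
    refine le_of_eq ?_
    unfold Helper88.Gap.vp
    simp only [PiLp.add_apply, PiLp.smul_apply, smul_eq_mul]
    ring
  · simp only [e1, H751R3.Gap.cst, mul_one]
    exact g1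
  · simp only [e1, H751R3.Gap.cst, mul_one]
    exact g2
  · rw [hdiam]
    exact hmu0
  · rw [hdiam]
    exact hmu1

end Pool.Agent.S06226
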