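import Pool.Statements.S06250
import Pool.Agent.H321R3.SmaleSurj

set_option autoImplicit false
open Pool Pool.MP_d219ff_an

namespace Pool.Agent.S06250

open Pool.Agent.H321R3.Smale in
/-- the first circle is not in the decomposed part -/
lemma no_decomposition (Y : Type) [TopologicalSpace Y] (g : Y ≃ₜ Y) (hw : ∀ U : Set Y, IsOpen U → U.Nonempty →
          ∃ n : ℕ, 1 ≤ n ∧ ((⇑g)^[n] '' U ∩ U).Nonempty) (A : Type) [TopologicalSpace A]
    (Z : Set (ℤ → A)) (hZ : Z.Countable) (σZ : Z → Z) (h : X ≃ₜ (Y ⊕ Z))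
    (hh : ∀ x : X, h (f x) = Sum.map (⇑g) σZ (h x)) : False := by
  -- no point of the first circle is in `Y`
  have hY : ∀ y : Y, h.symm (Sum.inl y) ∉ H 0 := by
    intro y0 hy0
    set U : Set Y := {y | h.symm (Sum.inl y) ∈ H 0} with hU
    have hUo : IsOpen U := (isOpen_H 0).preimage (h.symm.continuous.comp continuous_inl)
    obtain ⟨n, hn, y1, ⟨y, hy, rfl⟩, hy1⟩ := hw U hUo ⟨y0, hy0⟩
    have hstep : ∀ y : Y, f (h.symm (Sum.inl y)) = h.symm (Sum.inl (g y)) := by
      intro y
      apply h.injective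
      rw [hh, h.apply_symm_apply, h.apply_symm_apply, Sum.map_inl]
    have hit : ∀ (n : ℕ) (y : Y), h.symm (Sum.inl ((⇑g)^[n] y)) = T n (h.symm (Sum.inl y)) := by
      intro n
      induction n with
      | zero => intro y; simp [T_zero]
      | succ n ih =>
        intro y
        rw [Function.iterate_succ_apply', ← hstep, ih, f_T]
        push_cast
        rfl
    have h1 : h.symm (Sum.inl ((⇑g)^[n] y)) ∈ H 0 := hy1
    have h2 : h.symm (Sum.inl y) ∈ H 0 := hy
    rw [hit] at h1
    have h3 := h1.1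
    rw [T_apply] at h3
    exact h3 (eq_zero_of_ge h2.2 (by omega))
  -- so the first circle embeds in `Z`
  have hex : ∀ u : Circle, ∃ z : Z, h (psi 0 u) = Sum.inr z := by
    intro u
    rcases hc : h (psi 0 u) with y | z
    · exfalso
      apply hY y
      rw [← hc, h.symm_apply_apply]
      exact psi_mem_H 0 u
    · exact ⟨z, rfl⟩
  choose F hF using hex
  have hFi : Function.Injective F := by
    intro u v huv
    apply psi_inj 0
    apply h.injective
    rw [hF, hF, huv]
  have : Countable Z := hZ.to_subtype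
  have hcC : Countable Circle := hFi.countable
  have hinj : Function.Injective (fun x : ℝ => Circle.exp (Real.arctan x)) := by
    intro x y hxy
    have h1 : Complex.arg ((Circle.exp (Real.arctan x) : Circle) : ℂ) =
        Complex.arg ((Circle.exp (Real.arctan y) : Circle) : ℂ) := by
      rw [show Circle.exp (Real.arctan x) = Circle.exp (Real.arctan y) from hxy]
    have h2 : ∀ x : ℝ, Complex.arg ((Circle.exp (Real.arctan x) : Circle) : ℂ) = Real.arctan x := by
      intro x
      refine Circle.arg_exp ?_ ?_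
      · linarith [Real.neg_pi_div_two_lt_arctan x, Real.pi_pos]
      · linarith [Real.arctan_lt_pi_div_two x, Real.pi_pos]
    rw [h2, h2] at h1
    exact Real.arctan_injective h1
  have : Countable ℝ := hinj.countable
  exact not_countable (α := ℝ) this

/-- The negation of the preceding statement: Every surjunctive Smale system is conjugate to the disjoint union of a non-wandering Smale system and a countable subshift of finite type whose Cantor-Bendixson rank is at most 2 (second derived set equals third). -/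
theorem result :
    ¬ (∀ (X : Type) [TopologicalSpace X] [CompactSpace X] (f : X ≃ₜ X),
      (∃ (d : X → X → ℝ) (ε lam : ℝ) (br : X → X → X),
        (∀ x y, d x y = d y x) ∧ (∀ x y, d x y = 0 ↔ x = y) ∧
        (∀ x y z, d x z ≤ d x y + d y z) ∧
        (∀ U : Set X, IsOpen U ↔ ∀ x ∈ U, ∃ r > 0, ∀ y, d x y < r → y ∈ U) ∧
        0 < ε ∧ 0 < lam ∧ lam < 1 ∧
        ContinuousOn (fun p : X × X => br p.1 p.2) {p | d p.1 p.2 ≤ ε} ∧
        (∀ x, br x x = x) ∧
        (∀ x y z, d y z ≤ ε → d x (br y z) ≤ ε → d x z ≤ ε → br x (br y z) = br x z) ∧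
        (∀ x y z, d x y ≤ ε → d (br x y) z ≤ ε → d x z ≤ ε → br (br x y) z = br x z) ∧
        (∀ x y, d x y ≤ ε → d (f x) (f y) ≤ ε → f (br x y) = br (f x) (f y)) ∧
        (∀ x y z, d x y ≤ ε → br y x = x → d x z ≤ ε → br z x = x →
          d (f y) (f z) ≤ lam * d y z) ∧
        (∀ x y z, d x y ≤ ε → br x y = x → d x z ≤ ε → br x z = x →
          d (f.symm y) (f.symm z) ≤ lam * d y z)) →
      (∀ τ : X → X, Continuous τ → (∀ x, τ (f x) = f (τ x)) →
        Function.Injective τ → Function.Surjective τ) →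
      ∃ (Y : Type) (_ : TopologicalSpace Y) (_ : CompactSpace Y) (g : Y ≃ₜ Y),
        (∃ (d : Y → Y → ℝ) (ε lam : ℝ) (br : Y → Y → Y),
          (∀ x y, d x y = d y x) ∧ (∀ x y, d x y = 0 ↔ x = y) ∧
          (∀ x y z, d x z ≤ d x y + d y z) ∧
          (∀ U : Set Y, IsOpen U ↔ ∀ x ∈ U, ∃ r > 0, ∀ y, d x y < r → y ∈ U) ∧
          0 < ε ∧ 0 < lam ∧ lam < 1 ∧
          ContinuousOn (fun p : Y × Y => br p.1 p.2) {p | d p.1 p.2 ≤ ε} ∧
          (∀ x, br x x = x) ∧
          (∀ x y z, d y z ≤ ε → d x (br y z) ≤ ε → d x z ≤ ε → br x (br y z) = br x z) ∧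
          (∀ x y z, d x y ≤ ε → d (br x y) z ≤ ε → d x z ≤ ε → br (br x y) z = br x z) ∧
          (∀ x y, d x y ≤ ε → d (g x) (g y) ≤ ε → g (br x y) = br (g x) (g y)) ∧
          (∀ x y z, d x y ≤ ε → br y x = x → d x z ≤ ε → br z x = x →
            d (g y) (g z) ≤ lam * d y z) ∧
          (∀ x y z, d x y ≤ ε → br x y = x → d x z ≤ ε → br x z = x →
            d (g.symm y) (g.symm z) ≤ lam * d y z)) ∧
        (∀ U : Set Y, IsOpen U → U.Nonempty →
          ∃ n : ℕ, 1 ≤ n ∧ ((⇑g)^[n] '' U ∩ U).Nonempty) ∧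
        ∃ (A : Type) (_ : Fintype A) (_ : TopologicalSpace A) (_ : DiscreteTopology A)
          (F : Finset (List A)) (Z : Set (ℤ → A)),
          Z = {x : ℤ → A | ∀ w ∈ F, ∀ i : ℤ, ∃ j : Fin w.length, x (i + (j : ℤ)) ≠ w.get j} ∧
          Z.Countable ∧
          derivedSet (derivedSet Z) = derivedSet (derivedSet (derivedSet Z)) ∧
          ∃ σZ : Z → Z, (∀ z : Z, ((σZ z : Z) : ℤ → A) = fun i => (z : ℤ → A) (i + 1)) ∧
            ∃ h : X ≃ₜ (Y ⊕ Z), ∀ x : X, h (f x) = Sum.map (⇑g) σZ (h x)) := by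
  intro Hall
  obtain ⟨Y, _, _, g, _, hw, A, _, _, _, F, Z, _, hZ, _, σZ, _, h, hh⟩ :=
    Hall Pool.Agent.H321R3.Smale.X Pool.Agent.H321R3.Smale.f
    ⟨Pool.Agent.H321R3.Smale.dd, 1/2, 3/4, Pool.Agent.H321R3.Smale.br,
      Pool.Agent.H321R3.Smale.dd_comm,
      fun x y => ⟨Pool.Agent.H321R3.Smale.eq_of_dd, fun h => h ▸ Pool.Agent.H321R3.Smale.dd_self x⟩,
      Pool.Agent.H321R3.Smale.dd_triangle, Pool.Agent.H321R3.Smale.isOpen_iff,
      by norm_num, by norm_num, by norm_num, Pool.Agent.H321R3.Smale.continuousOn_br,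
      Pool.Agent.H321R3.Smale.br_self, Pool.Agent.H321R3.Smale.br_br_right,
      Pool.Agent.H321R3.Smale.br_br_left, Pool.Agent.H321R3.Smale.f_br,
      Pool.Agent.H321R3.Smale.stable, Pool.Agent.H321R3.Smale.unstable⟩
    Pool.Agent.H321R3.Smale.surjunctive
  exact no_decomposition Y g hw A Z hZ σZ h hh

end Pool.Agent.S06250
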