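import Pool.Statements.S06255
import Pool.Agent.H487R3.OrdMetricC

set_option autoImplicit false
open Pool Pool.MP_d2b9e5_an

namespace Pool.Agent.S06255

/-- For every ordinal metric ρ on ω₁ satisfying (ρ1)–(ρ4), the space of continuous real functions on the closure K_ρ of the sets F_n(α) in {0,1}^ω₁ has a norming Markushevich basis. -/
theorem result :
  ∀ (W : Type) [LinearOrder W] [WellFoundedLT W],
    ¬ (Set.univ : Set W).Countable →
    (∀ a : W, (Set.Iio a).Countable) →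
    ∀ ρ : W → W → ℕ,
      (∀ α β γ : W, α < β → β < γ →
        ρ α γ ≤ max (ρ α β) (ρ β γ) ∧ ρ α β ≤ max (ρ α γ) (ρ β γ) ∧
          0 < ρ α β ∧ ρ α γ ≠ ρ β γ) →
      ∀ K : Set (W → Bool),
        K = closure (Set.range (fun p : ℕ × W =>
          fun ξ : W => decide (ξ ≤ p.2 ∧ (ξ = p.2 ∨ ρ ξ p.2 ≤ p.1)))) →
        ∃ (I : Type) (x : I → BoundedContinuousFunction (↥K) ℝ)
          (f : I → (BoundedContinuousFunction (↥K) ℝ →L[ℝ] ℝ)),
          (∀ i j : I, (i = j → f j (x i) = 1) ∧ (i ≠ j → f j (x i) = 0)) ∧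
          (Submodule.span ℝ (Set.range x)).topologicalClosure = ⊤ ∧
          (∀ v : BoundedContinuousFunction (↥K) ℝ, (∀ i, f i v = 0) → v = 0) ∧
          ∃ c : ℝ, 0 < c ∧ ∀ v : BoundedContinuousFunction (↥K) ℝ, ∀ t : ℝ, t < c * ‖v‖ →
            ∃ φ ∈ Submodule.span ℝ (Set.range f), ‖φ‖ ≤ 1 ∧ t < |φ v| := by
  intro W _ _ hunc hc ρ hρ K hK
  refine Pool.Agent.H487R3.OrdMetric.main hunc hc hρ _ ?_ K hK
  intro p ξ
  exact decide_eq_true_iff

end Pool.Agent.S06255
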