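import Pool.Statements.S06280
import Pool.Agent.H615R3.MonGerm
import Pool.Agent.H615R3.MonGermNum

set_option autoImplicit false
open Pool Pool.MP_d4c9a2_an

namespace Pool.Agent.S06280

open Pool.Agent.H615R3.MonGerm Finset

/-- exponent matrix -/
def A : Matrix (Fin 5) (Fin 5) ℕ :=
  !![1, 0, 0, 2, 0;
     0, 1, 2, 0, 1;
     2, 0, 1, 0, 5;
     0, 2, 0, 1, 8;
     0, 0, 0, 0, 7]

/-- degrees of the coordinates of the iterates -/
def D (k : ℕ) (i : Fin 5) : ℕ := ∑ j, (A ^ k) i j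

lemma D_succ (k : ℕ) (i : Fin 5) : D (k + 1) i = ∑ l, A i l * D k l := by
  simp only [D, pow_succ', Matrix.mul_apply]
  rw [Finset.sum_comm]
  refine Finset.sum_congr rfl fun l _ => ?_
  rw [Finset.mul_sum]

lemma D_zero (i : Fin 5) : D 0 i = 1 := by
  fin_cases i <;> simp [D, Matrix.one_apply]

lemma D0 (k : ℕ) : D (k + 1) 0 = D k 0 + 2 * D k 3 := by
  rw [D_succ]; simp [Fin.sum_univ_five, A]
lemma D1 (k : ℕ) : D (k + 1) 1 = D k 1 + 2 * D k 2 + D k 4 := by
  rw [D_succ]; simp [Fin.sum_univ_five, A]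
lemma D2 (k : ℕ) : D (k + 1) 2 = 2 * D k 0 + D k 2 + 5 * D k 4 := by
  rw [D_succ]; simp [Fin.sum_univ_five, A]
lemma D3 (k : ℕ) : D (k + 1) 3 = 2 * D k 1 + D k 3 + 8 * D k 4 := by
  rw [D_succ]; simp [Fin.sum_univ_five, A]
lemma D4 (k : ℕ) : D (k + 1) 4 = 7 * D k 4 := by
  rw [D_succ]; simp [Fin.sum_univ_five, A]

lemma D_ineq (k : ℕ) : D k 0 ≤ D k 4 ∧ D k 1 ≤ D k 4 ∧ D k 2 ≤ 2 * D k 4 ∧ D k 3 ≤ 2 * D k 4 ∧
    D k 0 ≤ D k 2 ∧ D k 1 ≤ D k 3 := by
  induction k with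
  | zero => simp [D_zero]
  | succ k ih =>
    have h0 := D0 k
    have h1 := D1 k
    have h2 := D2 k
    have h3 := D3 k
    have h4 := D4 k
    omega

lemma order_eq (k : ℕ) :
    sInf {m : ℕ | iteratedFDeriv ℂ m ((mm A)^[k]) 0 ≠ 0} = min (D k 0) (D k 1) := by
  rw [mm_iterate]
  have hset : {m : ℕ | iteratedFDeriv ℂ m (mm (A ^ k)) 0 ≠ 0} = {m | ∃ i, m = D k i} := by
    ext m
    exact iter_mm_iff (A ^ k) m
  rw [hset]
  have hI := D_ineq k
  apply IsLeast.csInf_eq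
  constructor
  · rcases le_total (D k 0) (D k 1) with h | h
    · exact ⟨0, min_eq_left h⟩
    · exact ⟨1, min_eq_right h⟩
  · rintro m ⟨i, rfl⟩
    fin_cases i
    · exact min_le_left _ _
    · exact min_le_right _ _
    · exact (min_le_left _ _).trans hI.2.2.2.2.1
    · exact (min_le_right _ _).trans hI.2.2.2.2.2
    · exact (min_le_left _ _).trans hI.1

lemma hasFDerivAt_mo {n : ℕ} (e : Fin n → ℕ) (z : Fin n → ℂ) :
    HasFDerivAt (mo e) (∑ l, (∏ m ∈ univ.erase l, z m ^ e m) •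
      (((e l : ℂ) * z l ^ (e l - 1)) • (ContinuousLinearMap.proj (R := ℂ) (φ := fun _ : Fin n => ℂ) l))) z := by
  have := HasFDerivAt.finset_prod (u := (univ : Finset (Fin n)))
    (g := fun l (w : Fin n → ℂ) => w l ^ e l)
    (g' := fun l => ((e l : ℂ) * z l ^ (e l - 1)) •
      (ContinuousLinearMap.proj (R := ℂ) (φ := fun _ : Fin n => ℂ) l)) (x := z) ?_
  · exact this
  · intro l _
    have h1 : HasFDerivAt (fun w : Fin n → ℂ => w l)
      (ContinuousLinearMap.proj (R := ℂ) (φ := fun _ : Fin n => ℂ) l) z := hasFDerivAt_apply l z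
    have h2 := h1.pow (e l)
    simpa [nsmul_eq_mul, smul_smul] using h2

lemma fderiv_mo_single {n : ℕ} (e : Fin n → ℕ) (s : ℂ) (j : Fin n) :
    fderiv ℂ (mo e) (fun _ => s) (Pi.single j 1) = (e j : ℂ) * s ^ ((∑ l, e l) - 1) := by
  rw [(hasFDerivAt_mo e (fun _ => s)).fderiv]
  simp only [ContinuousLinearMap.sum_apply, smul_apply, ContinuousLinearMap.proj_apply,
    smul_eq_mul]
  rw [Finset.sum_eq_single j]
  · simp only [Pi.single_eq_same, mul_one]
    rw [Finset.prod_pow_eq_pow_sum]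
    by_cases he : e j = 0
    · simp [he]
    · have : ∑ l, e l = (∑ m ∈ univ.erase j, e m) + e j := by
        rw [Finset.sum_erase_add _ _ (mem_univ j)]
      rw [this]
      have h2 : (∑ m ∈ univ.erase j, e m) + e j - 1 = (∑ m ∈ univ.erase j, e m) + (e j - 1) := by
        omega
      rw [h2, pow_add]
      ring
  · intro l _ hl
    simp [Pi.single_eq_of_ne hl]
  · simp

lemma det_fderiv (s : ℂ) :
    (fderiv ℂ (mm A) (fun _ => s)).det =
      (∏ i : Fin 5, s ^ ((∑ l, A i l) - 1)) * (A.map (Nat.cast : ℕ → ℂ)).det := by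
  have h1 : ((fderiv ℂ (mm A) (fun _ => s) : (Fin 5 → ℂ) →L[ℂ] (Fin 5 → ℂ)) :
      (Fin 5 → ℂ) →ₗ[ℂ] (Fin 5 → ℂ)) =
      Matrix.toLin' (Matrix.diagonal (fun i : Fin 5 => s ^ ((∑ l, A i l) - 1)) *
        A.map (Nat.cast : ℕ → ℂ)) := by
    apply (Pi.basisFun ℂ (Fin 5)).ext
    intro j
    simp only [Pi.basisFun_apply, ContinuousLinearMap.coe_coe, Matrix.toLin'_apply]
    ext i
    have h2 : fderiv ℂ (mm A) (fun _ => s) (Pi.single j 1) i =
        fderiv ℂ (mo (A i)) (fun _ => s) (Pi.single j 1) := by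
      have h3 : HasFDerivAt (mm A) (fderiv ℂ (mm A) (fun _ => s)) (fun _ => s) :=
        ((mm_contDiff A (k := 1)).differentiable (by norm_num)).differentiableAt.hasFDerivAt
      have h4 := (hasFDerivAt_pi'.1 h3 i).fderiv
      have h5 : fderiv ℂ (mo (A i)) (fun _ => s) = (ContinuousLinearMap.proj i).comp
          (fderiv ℂ (mm A) (fun _ => s)) := h4
      rw [h5]
      rfl
    rw [h2, fderiv_mo_single, Matrix.mulVec_single_one]
    simp [Matrix.diagonal_mul, mul_comm]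
  show LinearMap.det _ = _
  rw [h1, LinearMap.det_toLin', Matrix.det_mul, Matrix.det_diagonal]

lemma detA : (A.map (Nat.cast : ℕ → ℂ)).det ≠ 0 := by
  have h1 : (A.map (Nat.cast : ℕ → ℤ)).det = -105 := by decide +kernel
  have h2 : (A.map (Nat.cast : ℕ → ℂ)).det = (((A.map (Nat.cast : ℕ → ℤ)).det : ℤ) : ℂ) := by
    rw [show (((A.map (Nat.cast : ℕ → ℤ)).det : ℤ) : ℂ) =
      (Int.castRingHom ℂ) (A.map (Nat.cast : ℕ → ℤ)).det from rfl, RingHom.map_det]
    rfl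
  rw [h2, h1]
  norm_num

/-- The negation of the preceding statement: For every holomorphic germ f of ℂⁿ fixing 0 that is non-invertible and dominant, the orders of vanishing c(f^k) of its iterates at 0 eventually satisfy a linear recursion with integer coefficients. -/
theorem result :
    ¬ (∀ (n : ℕ) (f : (Fin n → ℂ) → (Fin n → ℂ)),
      AnalyticAt ℂ f 0 → f 0 = 0 →
      (fderiv ℂ f 0).det = 0 →
      (∀ ε : ℝ, 0 < ε → ∃ z : Fin n → ℂ, ‖z‖ < ε ∧ (fderiv ℂ f z).det ≠ 0) →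
      ∃ (d : ℕ) (a : Fin d → ℤ) (K : ℕ), ∀ k : ℕ, K ≤ k →
        ((sInf {m : ℕ | iteratedFDeriv ℂ m (f^[k + d]) 0 ≠ 0} : ℕ) : ℤ) =
          ∑ i : Fin d, a i *
            ((sInf {m : ℕ | iteratedFDeriv ℂ m (f^[k + (i : ℕ)]) 0 ≠ 0} : ℕ) : ℤ)) := by
  intro hall
  have c1 : AnalyticAt ℂ (mm A) 0 := by
    have h := (mm_contDiff A (k := ⊤)).contDiffAt (x := (0 : Fin 5 → ℂ))
    exact h.analyticAt
  have c2 : mm A 0 = 0 := by
    funext i
    simp only [mm, mo, Pi.zero_apply]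
    fin_cases i <;> simp [Fin.prod_univ_five, A]
  have c3 : (fderiv ℂ (mm A) 0).det = 0 := by
    have := det_fderiv 0
    rw [show (fun _ : Fin 5 => (0 : ℂ)) = 0 from rfl] at this
    rw [this]
    simp [Fin.prod_univ_five, Fin.sum_univ_five, A]
  have c4 : ∀ ε : ℝ, 0 < ε → ∃ z : Fin 5 → ℂ, ‖z‖ < ε ∧ (fderiv ℂ (mm A) z).det ≠ 0 := by
    intro ε hε
    refine ⟨fun _ => ((ε / 2 : ℝ) : ℂ), ?_, ?_⟩
    · rw [pi_norm_const]
      simp only [Complex.norm_real, Real.norm_eq_abs]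
      rw [abs_of_pos (by positivity)]
      linarith
    · rw [det_fderiv]
      refine mul_ne_zero ?_ detA
      apply Finset.prod_ne_zero_iff.2
      intro i _
      apply pow_ne_zero
      have : (0 : ℝ) < ε / 2 := by positivity
      exact_mod_cast this.ne'
  obtain ⟨d, a, K, H⟩ := hall 5 (mm A) c1 c2 c3 c4
  refine no_recursion D D_zero D0 D1 D2 D3 D4 (fun k => min (D k 0) (D k 1)) (fun _ => rfl)
      d a K ?_
  intro k hk
  have := H k hk
  simp only [order_eq] at this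
  exact this

end Pool.Agent.S06280
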