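import Pool.Statements.S06305
import Pool.Agent.H93R3.BallE

/-!
The ideal: for `f` in the ball algebra let `T_j f (w)` be the `j`-th derivative at `x = 0` of
`x ↦ f (w/(w+1), x/(w+1), 0, …, 0)`, `Re w ≥ 0`. Put
`J = {f : for every j, T_j f (x) = O(exp(-x/(j+1))) as x → +∞}`.
By the Phragmen-Lindelof principle the constants may be taken to be `j! 2^j ‖f‖`, so `J` is closed.
If `J` is the closure of an ideal with `m` generators, the determinant of order `m + 1` of
`exp(w/(i+1)) T_i p_j (w)`, for `p_0, …, p_m` in that ideal, is `O(exp(-δ x))`, hence (again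
Phragmen-Lindelof) is bounded by a fixed multiple of `exp(-δ x)`; in the limit this holds for all
`p_j` in `J`, but it fails for the functions `z_2^j (1-z_1) exp(-z_1/((j+1)(1-z_1)))` of `J`.
-/

set_option autoImplicit false
open Pool Pool.MP_d61c0a_an

namespace Pool.Agent.S06305

open Pool.Agent.H93R3 Filter Topology in
/-- For every n ≥ 2, the ball algebra of the unit ball in ℂⁿ has a sphere point ζ and a closed ideal with zero set exactly {ζ} that is not the sup-norm closure of any finitely generated ideal. -/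
theorem result :
  ∀ n : ℕ, 2 ≤ n →
  ∀ A : Subalgebra ℂ C(Metric.closedBall (0 : EuclideanSpace ℂ (Fin n)) 1, ℂ),
    (∀ f : C(Metric.closedBall (0 : EuclideanSpace ℂ (Fin n)) 1, ℂ),
      f ∈ A ↔ ∃ g : EuclideanSpace ℂ (Fin n) → ℂ,
        DifferentiableOn ℂ g (Metric.ball (0 : EuclideanSpace ℂ (Fin n)) 1) ∧
        ∀ x : Metric.closedBall (0 : EuclideanSpace ℂ (Fin n)) 1, f x = g x) →
    ∃ ζ : Metric.closedBall (0 : EuclideanSpace ℂ (Fin n)) 1,
      ‖(ζ : EuclideanSpace ℂ (Fin n))‖ = 1 ∧
      ∃ J : Ideal A, IsClosed (J : Set A) ∧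
        (∀ w : Metric.closedBall (0 : EuclideanSpace ℂ (Fin n)) 1,
          (∀ f ∈ J, (f : C(Metric.closedBall (0 : EuclideanSpace ℂ (Fin n)) 1, ℂ)) w = 0) ↔ w = ζ) ∧
        ∀ I : Ideal A, I.FG → closure (I : Set A) ≠ (J : Set A) := by
  intro n hn A hA
  have hnorm : ‖(EuclideanSpace.single (i0 hn) 1 : EuclideanSpace ℂ (Fin n))‖ = 1 := by simp
  refine ⟨⟨EuclideanSpace.single (i0 hn) 1, by simp⟩, hnorm, JJ hn A hA, JJ_closed hn A hA, ?_,
    fun I hI => not_fg hn A hA I hI⟩
  intro w
  constructor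
  · intro h
    have h1 : S hn 0 w = 0 := h _ (SC_JJ hn A hA 0)
    have h2 : (w : EuclideanSpace ℂ (Fin n)) (i0 hn) = 1 := by
      rw [S] at h1
      simp only [pow_zero, one_mul, mul_eq_zero, Complex.exp_ne_zero, or_false] at h1
      exact (sub_eq_zero.1 h1).symm
    apply Subtype.ext
    have h3 : ‖(w : EuclideanSpace ℂ (Fin n))‖ ≤ 1 := mem_closedBall_zero_iff.1 w.2
    have h4 : ∑ i, ‖(w : EuclideanSpace ℂ (Fin n)) i‖ ^ 2 ≤ 1 := by
      rw [← EuclideanSpace.norm_sq_eq]
      nlinarith [norm_nonneg (w : EuclideanSpace ℂ (Fin n))]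
    rw [← Finset.add_sum_erase _ _ (Finset.mem_univ (i0 hn)), h2, norm_one] at h4
    ext i
    by_cases hi : i = i0 hn
    · subst hi
      simp [h2]
    · have h5 : ‖(w : EuclideanSpace ℂ (Fin n)) i‖ ^ 2 ≤
          ∑ i ∈ Finset.univ.erase (i0 hn), ‖(w : EuclideanSpace ℂ (Fin n)) i‖ ^ 2 :=
        Finset.single_le_sum (f := fun i => ‖(w : EuclideanSpace ℂ (Fin n)) i‖ ^ 2)
          (fun _ _ => by positivity) (Finset.mem_erase.2 ⟨hi, Finset.mem_univ _⟩)
      have h6 : ‖(w : EuclideanSpace ℂ (Fin n)) i‖ ^ 2 ≤ 0 := by linarith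
      have h7 : (w : EuclideanSpace ℂ (Fin n)) i = 0 := by
        have : ‖(w : EuclideanSpace ℂ (Fin n)) i‖ = 0 := by
          nlinarith [norm_nonneg ((w : EuclideanSpace ℂ (Fin n)) i)]
        exact norm_eq_zero.1 this
      rw [h7]
      simp [hi]
  · rintro rfl f hf
    -- `f(ζ)` is the limit of `T_0 f (x)`
    have h1 := hf 0
    obtain ⟨C, hC⟩ := h1
    have h2 : Tendsto (fun x : ℝ => T 0 (Φ hn (f : C(CB n, ℂ))) x) atTop (𝓝 0) := by
      refine squeeze_zero_norm' (a := fun x : ℝ => C * Real.exp (-(rate 0 * x))) ?_ ?_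
      · filter_upwards [eventually_ge_atTop 0] with x hx
        exact hC x hx
      · have h3 : Tendsto (fun x : ℝ => rate 0 * x) atTop atTop := by
          have : (0 : ℝ) < rate 0 := by simp [rate]
          exact tendsto_id.const_mul_atTop this
        simpa using (Real.tendsto_exp_neg_atTop_nhds_zero.comp h3).const_mul C
    have hPmem : ∀ x : ℝ, 0 ≤ x → P hn (x : ℂ) 0 ∈
        Metric.closedBall (0 : EuclideanSpace ℂ (Fin n)) 1 := fun x hx =>
      Metric.ball_subset_closedBall (P_mem hn (small (ofReal_mem_HP hx) (by simp)))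
    have hP : Tendsto (fun x : ℝ => P hn (x : ℂ) 0) atTop (𝓝 (EuclideanSpace.single (i0 hn) 1)) := by
      have h4 : Tendsto (fun x : ℝ => (x : ℂ) / ((x : ℂ) + 1)) atTop (𝓝 1) := by
        have h5 : Tendsto (fun x : ℝ => x / (x + 1)) atTop (𝓝 1) := by
          have h6 : Tendsto (fun x : ℝ => 1 - 1 / (x + 1)) atTop (𝓝 (1 - 0)) := by
            refine tendsto_const_nhds.sub ?_
            simp only [one_div]
            exact tendsto_inv_atTop_zero.comp (tendsto_atTop_add_const_right _ _ tendsto_id)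
          rw [sub_zero] at h6
          refine h6.congr' ?_
          filter_upwards [eventually_ge_atTop 0] with x hx
          field_simp
          ring
        have h7 := (Complex.continuous_ofReal.tendsto 1).comp h5
        simp only [Complex.ofReal_one] at h7
        refine h7.congr (fun x => ?_)
        simp
      have h8 : (fun x : ℝ => P hn (x : ℂ) 0) = fun x : ℝ => ((x : ℂ) / ((x : ℂ) + 1)) •
          EuclideanSpace.single (i0 hn) (1 : ℂ) := by
        funext x
        rw [P, single_smul (i0 hn)]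
        simp
      rw [h8]
      simpa using h4.smul_const (EuclideanSpace.single (i0 hn) (1 : ℂ))
    have hlim : Tendsto (fun x : ℝ => T 0 (Φ hn (f : C(CB n, ℂ))) x) atTop
        (𝓝 ((f : C(CB n, ℂ)) ⟨EuclideanSpace.single (i0 hn) 1, by simp⟩)) := by
      have h9 : ContinuousWithinAt (ext0 (f : C(CB n, ℂ))) (Metric.closedBall 0 1)
          (EuclideanSpace.single (i0 hn) 1) := by
        have h10 : ContinuousOn (ext0 (f : C(CB n, ℂ))) (Metric.closedBall 0 1) := by
          rw [continuousOn_iff_continuous_restrict]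
          have : Set.domRestrict (Metric.closedBall (0 : EuclideanSpace ℂ (Fin n)) 1)
              (ext0 (f : C(CB n, ℂ))) = (f : C(CB n, ℂ)) := by
            funext z
            exact ext0_coe _ z
          rw [this]
          exact (f : C(CB n, ℂ)).continuous
        exact h10 _ (by simp)
      have h11 : Tendsto (fun x : ℝ => P hn (x : ℂ) 0) atTop
          (𝓝[Metric.closedBall 0 1] (EuclideanSpace.single (i0 hn) 1)) := by
        refine tendsto_nhdsWithin_iff.2 ⟨hP, ?_⟩
        filter_upwards [eventually_ge_atTop 0] with x hx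
        exact hPmem x hx
      have h12 := h9.tendsto.comp h11
      have h13 : ext0 (f : C(CB n, ℂ)) (EuclideanSpace.single (i0 hn) 1) =
          (f : C(CB n, ℂ)) ⟨EuclideanSpace.single (i0 hn) 1, by simp⟩ := ext0_mem _ (by simp)
      rw [h13] at h12
      refine h12.congr (fun x => ?_)
      simp [T, Φ]
    exact tendsto_nhds_unique hlim h2

end Pool.Agent.S06305
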