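import Pool.Statements.S06346
import Pool.Agent.H101R3.Weak

set_option autoImplicit false
open Pool Pool.MP_d890fe_an

namespace Pool.Agent.S06346

open Filter Topology

/-- The semigroup `Sym(ℝ) ⊔ ℝ`: the permutations of the reals, together with the reals as left
zeros on which the permutations act. -/
def Sg : Type := Equiv.Perm ℝ ⊕ ℝ

/-- a permutation as an element of the semigroup -/
def pe (a : Equiv.Perm ℝ) : Sg := Sum.inl a

/-- a real number as an element (a left zero) of the semigroup -/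
def ze (x : ℝ) : Sg := Sum.inr x

/-- the product: composition of permutations, action of permutations on reals, left zeros -/
def Sg.mul : Sg → Sg → Sg
  | Sum.inl a, Sum.inl b => Sum.inl (a * b)
  | Sum.inl a, Sum.inr x => Sum.inr (a x)
  | Sum.inr x, _ => Sum.inr x

instance : Semigroup Sg where
  mul := Sg.mul
  mul_assoc := by
    rintro (a | a) (b | b) (c | c) <;> rfl

instance : Nonempty Sg := ⟨ze 0⟩

lemma pe_mul_pe (a b : Equiv.Perm ℝ) : pe a * pe b = pe (a * b) := rfl
lemma pe_mul_ze (a : Equiv.Perm ℝ) (x : ℝ) : pe a * ze x = ze (a x) := rfl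
lemma ze_mul (x : ℝ) (t : Sg) : ze x * t = ze x := by
  rcases t with t | t <;> rfl

lemma ze_inj {x y : ℝ} : ze x = ze y ↔ x = y := ⟨fun h => Sum.inr.inj h, fun h => by rw [h]⟩

lemma two_trans {z w z' w' : ℝ} (h : z ≠ w) (h' : z' ≠ w') :
    ∃ a : Equiv.Perm ℝ, a z = z' ∧ a w = w' := by
  classical
  have h1 : Equiv.swap z z' w ≠ z' := by
    intro h2
    apply h
    apply (Equiv.swap z z').injective
    rw [h2, Equiv.swap_apply_left]
  refine ⟨Equiv.swap (Equiv.swap z z' w) w' * Equiv.swap z z', ?_, ?_⟩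
  · rw [Equiv.Perm.mul_apply, Equiv.swap_apply_left, Equiv.swap_apply_of_ne_of_ne h1.symm h']
  · rw [Equiv.Perm.mul_apply, Equiv.swap_apply_left]

/-- the semigroup has the fixed point property -/
lemma fixed (E : Type) [NormedAddCommGroup E] [NormedSpace ℝ E]
    (C : Set (WeakDual ℝ E)) (T : Sg → WeakDual ℝ E → WeakDual ℝ E)
    (hne : C.Nonempty)
    (hsep : ∃ D : Set (WeakDual ℝ E), D.Countable ∧ D ⊆ C ∧
      ∀ x ∈ C, ∀ ε : ℝ, 0 < ε → ∃ d ∈ D, ∀ e : E, |x e - d e| ≤ ε * ‖e‖)
    (hmap : ∀ s : Sg, Set.MapsTo (T s) C C)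
    (hrep : ∀ s t : Sg, ∀ x ∈ C, T (s * t) x = T s (T t x))
    (hnon : ∀ s : Sg, ∀ x ∈ C, ∀ y ∈ C, ∀ r : ℝ,
      (∀ e : E, |x e - y e| ≤ r * ‖e‖) → ∀ e : E, |T s x e - T s y e| ≤ r * ‖e‖) :
    ∃ x ∈ C, ∀ s : Sg, T s x = x := by
  obtain ⟨x, hx⟩ := hne
  have hπ : ∀ z, T (ze z) x ∈ C := fun z => hmap _ hx
  have hact : ∀ (a : Equiv.Perm ℝ) (z : ℝ), T (pe a) (T (ze z) x) = T (ze (a z)) x := by
    intro a z
    rw [← hrep _ _ x hx, pe_mul_ze]
  -- the map `z ↦ T (ze z) x` is constant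
  have hconst : ∀ z w : ℝ, T (ze z) x = T (ze w) x := by
    by_contra hcon
    push Not at hcon
    obtain ⟨z0, w0, hzw⟩ := hcon
    have hne0 : z0 ≠ w0 := fun h => hzw (by rw [h])
    obtain ⟨e0, he0⟩ : ∃ e : E, T (ze z0) x e ≠ T (ze w0) x e := by
      by_contra h
      push Not at h
      exact hzw (DFunLike.ext _ _ h)
    have he00 : 0 < ‖e0‖ := by
      rw [norm_pos_iff]
      intro h
      rw [h] at he0
      simp at he0
    set δ : ℝ := |T (ze z0) x e0 - T (ze w0) x e0| with hδ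
    have hδ0 : 0 < δ := abs_pos.mpr (sub_ne_zero.mpr he0)
    set ε : ℝ := δ / (4 * ‖e0‖) with hε
    have hε0 : 0 < ε := by positivity
    have hsep2 : ∀ z w : ℝ, z ≠ w → ¬ ∀ e : E, |T (ze z) x e - T (ze w) x e| ≤ 2 * ε * ‖e‖ := by
      intro z w h hall
      obtain ⟨a, ha1, ha2⟩ := two_trans h hne0
      have h1 := hnon (pe a) _ (hπ z) _ (hπ w) (2 * ε) hall e0
      rw [hact, hact, ha1, ha2] at h1
      have h2 : 2 * ε * ‖e0‖ = δ / 2 := by
        rw [hε]
        field_simp
        ring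
      rw [h2] at h1
      linarith
    obtain ⟨D, hDc, hDC, hD⟩ := hsep
    choose d hdD hd using fun z : ℝ => hD _ (hπ z) ε hε0
    have hinj : Function.Injective d := by
      intro z w h
      by_contra hzw2
      apply hsep2 z w hzw2
      intro e
      have h1 := hd z e
      have h2 := hd w e
      rw [← h] at h2
      have h3 : |T (ze z) x e - T (ze w) x e| ≤
          |T (ze z) x e - d z e| + |T (ze w) x e - d z e| := by
        have h4 : T (ze z) x e - T (ze w) x e =
          (T (ze z) x e - d z e) - (T (ze w) x e - d z e) := by ring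
        rw [h4]
        exact abs_sub _ _
      linarith
    have hcount : (Set.range d).Countable := hDc.mono (by
      rintro _ ⟨z, rfl⟩
      exact hdD z)
    have h5 : Countable ℝ := by
      have h6 : Countable (Set.range d) := hcount.to_subtype
      exact (Function.Injective.countable (f := Set.rangeFactorization d)
        (fun z w h => hinj (congrArg Subtype.val h)))
    exact not_countable h5
  refine ⟨T (ze 0) x, hπ 0, ?_⟩
  rintro (a | y)
  · have h1 := hact a 0
    rw [hconst (a 0) 0] at h1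
    exact h1
  · change T (ze y) (T (ze 0) x) = T (ze 0) x
    rw [← hrep _ _ x hx, ze_mul, hconst y 0]

open Classical in
/-- the indicator function of the left zero `q` -/
noncomputable def ind (q : ℝ) : lp (fun _ : Sg => ℝ) ⊤ := lp.single ⊤ (ze q) (1 : ℝ)

open Classical in
lemma ind_apply (q : ℝ) (t : Sg) : (ind q) t = if t = ze q then 1 else 0 := by
  unfold ind
  rw [lp.single_apply]
  by_cases h : t = ze q
  · subst h; simp
  · simp [h]

lemma pe_ne_ze (a : Equiv.Perm ℝ) (y : ℝ) : pe a ≠ ze y := fun h => Sum.inl_ne_inr h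

lemma cases_sg (t : Sg) : (∃ a, t = pe a) ∨ ∃ y, t = ze y := by
  rcases t with a | y
  · exact Or.inl ⟨a, rfl⟩
  · exact Or.inr ⟨y, rfl⟩

lemma sum_norm_le (F : Finset ℝ) (c : ℝ → ℝ) (hc : ∀ q, |c q| ≤ 1) :
    ‖∑ q ∈ F, c q • ind q‖ ≤ 1 := by
  classical
  apply lp.norm_le_of_forall_le (by norm_num)
  intro t
  rw [lp.coeFn_sum, Finset.sum_apply]
  simp only [lp.coeFn_smul, Pi.smul_apply, ind_apply, smul_eq_mul, mul_ite, mul_one, mul_zero]
  rcases cases_sg t with ⟨a, rfl⟩ | ⟨y, rfl⟩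
  · rw [Finset.sum_eq_zero]
    · simp
    · intro q _
      rw [if_neg (pe_ne_ze a q)]
  · simp only [ze_inj]
    rw [Finset.sum_ite_eq]
    split_ifs
    · exact hc y
    · simp

lemma weak_tendsto : Tendsto (fun q : ℝ => toWeakSpace ℝ (lp (fun _ : Sg => ℝ) ⊤) (ind q))
    cofinite (𝓝 (toWeakSpace ℝ (lp (fun _ : Sg => ℝ) ⊤) 0)) := by
  apply Pool.Agent.H101R3.Weak.weak_tendsto_of
  intro Λ
  rw [map_zero]
  have hsum : Summable fun q : ℝ => |Λ (ind q)| := by
    refine summable_of_sum_le (c := ‖Λ‖) (fun q => abs_nonneg _) ?_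
    intro F
    set c : ℝ → ℝ := fun q => SignType.sign (Λ (ind q)) with hcdef
    have hc : ∀ q, |c q| ≤ 1 := by
      intro q
      rcases lt_trichotomy (Λ (ind q)) 0 with h | h | h
      · simp [hcdef, sign_neg h]
      · simp [hcdef, h]
      · simp [hcdef, sign_pos h]
    have h1 : ∑ q ∈ F, |Λ (ind q)| = Λ (∑ q ∈ F, c q • ind q) := by
      rw [map_sum]
      refine Finset.sum_congr rfl fun q _ => ?_
      rw [map_smul, smul_eq_mul, hcdef]
      exact (sign_mul_self _).symm
    rw [h1]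
    calc Λ (∑ q ∈ F, c q • ind q) ≤ ‖Λ (∑ q ∈ F, c q • ind q)‖ := le_abs_self _
      _ ≤ ‖Λ‖ * ‖∑ q ∈ F, c q • ind q‖ := Λ.le_opNorm _
      _ ≤ ‖Λ‖ * 1 := by
          apply mul_le_mul_of_nonneg_left (sum_norm_le F c hc) (norm_nonneg _)
      _ = ‖Λ‖ := mul_one _
  have h2 := hsum.tendsto_cofinite_zero
  exact (tendsto_zero_iff_abs_tendsto_zero _).mpr h2

/-- The negation of the preceding statement: For every nonempty semigroup S: if every nonexpansive, weak*-continuous action of S on a nonempty norm-separable weak*-compact convex set in a Banach dual has a common fixed point, then the weakly almost periodic functions on S have a left invariant mean. -/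
theorem result :
    ¬ (∀ (S : Type) [Semigroup S] [Nonempty S],
    (∀ (E : Type) [NormedAddCommGroup E] [NormedSpace ℝ E] [CompleteSpace E]
       (C : Set (WeakDual ℝ E)) (T : S → WeakDual ℝ E → WeakDual ℝ E),
       C.Nonempty → Convex ℝ C → IsCompact C →
       (∃ D : Set (WeakDual ℝ E), D.Countable ∧ D ⊆ C ∧
          ∀ x ∈ C, ∀ ε : ℝ, 0 < ε → ∃ d ∈ D, ∀ e : E, |x e - d e| ≤ ε * ‖e‖) →
       (∀ s : S, Set.MapsTo (T s) C C) →
       (∀ s t : S, ∀ x ∈ C, T (s * t) x = T s (T t x)) →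
       (∀ s : S, ∀ x ∈ C, ∀ y ∈ C, ∀ r : ℝ,
          (∀ e : E, |x e - y e| ≤ r * ‖e‖) →
          ∀ e : E, |T s x e - T s y e| ≤ r * ‖e‖) →
       (∀ s : S, ContinuousOn (T s) C) →
       ∃ x ∈ C, ∀ s : S, T s x = x) →
    ∃ m : lp (fun _ : S => ℝ) ⊤ →L[ℝ] ℝ,
      m 1 = 1 ∧
      (∀ g : lp (fun _ : S => ℝ) ⊤, (∀ t : S, 0 ≤ g t) → 0 ≤ m g) ∧
      ∀ f : lp (fun _ : S => ℝ) ⊤,
        (∃ K : Set (WeakSpace ℝ (lp (fun _ : S => ℝ) ⊤)), IsCompact K ∧
          ∀ g : lp (fun _ : S => ℝ) ⊤, (∃ s : S, ∀ t : S, g t = f (s * t)) →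
            toWeakSpace ℝ (lp (fun _ : S => ℝ) ⊤) g ∈ K) →
        ∀ s : S, ∀ g : lp (fun _ : S => ℝ) ⊤, (∀ t : S, g t = f (s * t)) → m g = m f) := by
  intro H
  obtain ⟨m, hm1, -, hinv⟩ := H Sg (fun E _ _ _ C T hne _ _ hsep hmap hrep hnon _ =>
    fixed E C T hne hsep hmap hrep hnon)
  have h := hinv (ind 0) ⟨insert (toWeakSpace ℝ (lp (fun _ : Sg => ℝ) ⊤) 0)
      (Set.range fun q : ℝ => toWeakSpace ℝ (lp (fun _ : Sg => ℝ) ⊤) (ind q)) ∪
      {toWeakSpace ℝ (lp (fun _ : Sg => ℝ) ⊤) 1},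
    (weak_tendsto.isCompact_insert_range_of_cofinite).union isCompact_singleton, ?_⟩
  · have h1 : m 1 = m (ind 0) := by
      apply h (ze 0)
      intro t
      rw [ze_mul, ind_apply, if_pos rfl, lp.infty_coeFn_one, Pi.one_apply]
    have h2 : m 0 = m (ind 0) := by
      apply h (ze 1)
      intro t
      rw [ze_mul, ind_apply, if_neg, lp.coeFn_zero, Pi.zero_apply]
      rw [ze_inj]
      norm_num
    rw [map_zero] at h2
    rw [hm1] at h1
    linarith
  · rintro g ⟨s, hs⟩
    rcases cases_sg s with ⟨a, rfl⟩ | ⟨y, rfl⟩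
    · have hg : ind (a.symm 0) = g := by
        apply lp.ext
        funext t
        rw [hs t, ind_apply, ind_apply]
        rcases cases_sg t with ⟨b, rfl⟩ | ⟨x, rfl⟩
        · rw [pe_mul_pe, if_neg (pe_ne_ze _ _), if_neg (pe_ne_ze _ _)]
        · rw [pe_mul_ze]
          simp only [ze_inj]
          congr 1
          rw [eq_iff_iff]
          constructor
          · intro hx
            rw [hx]
            simp
          · intro hx
            rw [← hx]
            simp
      left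
      right
      exact ⟨a.symm 0, congrArg _ hg⟩
    · by_cases hy : y = 0
      · have hg : g = 1 := by
          apply lp.ext
          funext t
          rw [hs t, ze_mul, ind_apply, if_pos (by rw [hy]), lp.infty_coeFn_one, Pi.one_apply]
        right
        rw [Set.mem_singleton_iff, hg]
      · have hg : g = 0 := by
          apply lp.ext
          funext t
          rw [hs t, ze_mul, ind_apply, if_neg (by rw [ze_inj]; exact hy), lp.coeFn_zero,
            Pi.zero_apply]
        left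
        left
        rw [hg]

end Pool.Agent.S06346
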