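import Pool.Statements.S06348
import Pool.Agent.H433R3.Bump3

set_option autoImplicit false
open MeasureTheory
open scoped ENNReal
open Pool Pool.MP_d895c5_an

namespace Pool.Agent.S06348

/-- The negation of the preceding statement: For all d≥1, 0<α<d, 1<p, weights u,σ and Young functions Φ,Ψ whose complements satisfy B_p and B_p', if both separated bump constants K1,K2 are finite then f ↦ I_α(fσ) is bounded from L^p(σ) to L^p(u). -/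
theorem result :
    ¬ (∀ (d : ℕ) (α p : ℝ), 1 ≤ d → 0 < α → α < (d : ℝ) → 1 < p →
  ∀ (u σ : (Fin d → ℝ) → ℝ), (∀ x, 0 ≤ u x) → (∀ x, 0 ≤ σ x) →
    LocallyIntegrable u volume → LocallyIntegrable σ volume →
  ∀ (Φ Ψ : ℝ → ℝ),
    (ConvexOn ℝ (Set.Ici 0) Φ ∧ MonotoneOn Φ (Set.Ici 0) ∧ Φ 0 = 0 ∧
      Filter.Tendsto (fun t => Φ t / t) Filter.atTop Filter.atTop) →
    (ConvexOn ℝ (Set.Ici 0) Ψ ∧ MonotoneOn Ψ (Set.Ici 0) ∧ Ψ 0 = 0 ∧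
      Filter.Tendsto (fun t => Ψ t / t) Filter.atTop Filter.atTop) →
    (∫⁻ t in Set.Ioi (1:ℝ),
        ENNReal.ofReal ((⨆ s : Set.Ici (0:ℝ), (t * (s:ℝ) - Φ s)) * t ^ (-p) / t)) < ⊤ →
    (∫⁻ t in Set.Ioi (1:ℝ),
        ENNReal.ofReal ((⨆ s : Set.Ici (0:ℝ), (t * (s:ℝ) - Ψ s)) * t ^ (-(p / (p - 1))) / t)) < ⊤ →
    (∃ K : ℝ, ∀ Q : Set (Fin d → ℝ),
      (∃ (a : Fin d → ℝ) (ℓ : ℝ), 0 < ℓ ∧ Q = Set.univ.pi (fun i => Set.Ico (a i) (a i + ℓ))) →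
      sInf ((fun l : ℝ => ENNReal.ofReal l) ''
          {l : ℝ | 0 < l ∧ ∫⁻ x in Q, ENNReal.ofReal (Φ (σ x ^ (1 - 1 / p) / l)) ≤ volume Q})
        * ((∫⁻ x in Q, ENNReal.ofReal (u x)) / volume Q) ^ (1 / p)
        * volume Q ^ (α / (d : ℝ)) ≤ ENNReal.ofReal K) →
    (∃ K : ℝ, ∀ Q : Set (Fin d → ℝ),
      (∃ (a : Fin d → ℝ) (ℓ : ℝ), 0 < ℓ ∧ Q = Set.univ.pi (fun i => Set.Ico (a i) (a i + ℓ))) →
      ((∫⁻ x in Q, ENNReal.ofReal (σ x)) / volume Q) ^ (1 - 1 / p)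
        * sInf ((fun l : ℝ => ENNReal.ofReal l) ''
          {l : ℝ | 0 < l ∧ ∫⁻ x in Q, ENNReal.ofReal (Ψ (u x ^ (1 / p) / l)) ≤ volume Q})
        * volume Q ^ (α / (d : ℝ)) ≤ ENNReal.ofReal K) →
    ∃ C : ℝ, ∀ f : (Fin d → ℝ) → ℝ≥0∞, Measurable f →
      ∫⁻ x, (∫⁻ y, f y * ENNReal.ofReal (σ y) *
          ENNReal.ofReal (Real.sqrt (∑ i, (x i - y i) ^ 2) ^ (α - (d : ℝ)))) ^ p
          * ENNReal.ofReal (u x)
        ≤ ENNReal.ofReal C * ∫⁻ y, f y ^ p * ENNReal.ofReal (σ y)) := by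
  intro H
  have hB2' : (∫⁻ t in Set.Ioi (1:ℝ), ENNReal.ofReal
      ((⨆ s : Set.Ici (0:ℝ), (t * (s:ℝ) - Pool.Agent.H433R3.Bump.Phi s)) *
        t ^ (-((2:ℝ) / (2 - 1))) / t)) < ⊤ := by
    rw [show (2:ℝ) / (2 - 1) = 2 by norm_num]
    exact Pool.Agent.H433R3.Bump.conj_B2
  have hY : ConvexOn ℝ (Set.Ici 0) Pool.Agent.H433R3.Bump.Phi ∧
      MonotoneOn Pool.Agent.H433R3.Bump.Phi (Set.Ici 0) ∧ Pool.Agent.H433R3.Bump.Phi 0 = 0 ∧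
      Filter.Tendsto (fun t => Pool.Agent.H433R3.Bump.Phi t / t) Filter.atTop Filter.atTop :=
    ⟨Pool.Agent.H433R3.Bump.Phi_convex,
      fun x _ y _ h => Pool.Agent.H433R3.Bump.Phi_mono h,
      Pool.Agent.H433R3.Bump.Phi_zero, Pool.Agent.H433R3.Bump.Phi_superlinear⟩
  have hK : ∀ (a : Fin 2 → ℝ) (ℓ : ℝ), 0 < ℓ →
      ∀ Q : Set (Fin 2 → ℝ), Q = Set.univ.pi (fun i => Set.Ico (a i) (a i + ℓ)) →
      sInf ((fun l : ℝ => ENNReal.ofReal l) ''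
          {l : ℝ | 0 < l ∧ ∫⁻ x in Q, ENNReal.ofReal (Pool.Agent.H433R3.Bump.Phi
            (Pool.Agent.H433R3.Bump.ww x ^ ((1:ℝ) / 2) / l)) ≤ volume Q})
        * ((∫⁻ x in Q, ENNReal.ofReal (Pool.Agent.H433R3.Bump.ww x)) / volume Q) ^ ((1:ℝ) / 2)
        * volume Q ^ ((1:ℝ) / 2) ≤ 1 := by
    intro a ℓ hℓ Q hQ
    have hQ' : Q = Pool.Agent.H433R3.Bump.cube a ℓ := hQ
    rw [hQ']
    obtain ⟨l, hl, h1, h2⟩ := Pool.Agent.H433R3.Bump.Kbound a ℓ hℓ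
    have hV := Pool.Agent.H433R3.Bump.vol_cube a ℓ hℓ
    have hV0 : volume (Pool.Agent.H433R3.Bump.cube a ℓ) ≠ 0 := by
      rw [hV]; simp; positivity
    have hVt : volume (Pool.Agent.H433R3.Bump.cube a ℓ) ≠ ⊤ := by
      rw [hV]; exact ENNReal.ofReal_ne_top
    have hs : sInf ((fun l : ℝ => ENNReal.ofReal l) ''
          {l : ℝ | 0 < l ∧ ∫⁻ x in Pool.Agent.H433R3.Bump.cube a ℓ,
            ENNReal.ofReal (Pool.Agent.H433R3.Bump.Phi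
            (Pool.Agent.H433R3.Bump.ww x ^ ((1:ℝ) / 2) / l)) ≤
              volume (Pool.Agent.H433R3.Bump.cube a ℓ)}) ≤ ENNReal.ofReal l := by
      apply sInf_le
      refine ⟨l, ⟨hl, ?_⟩, rfl⟩
      simpa only [Real.sqrt_eq_rpow] using h1
    calc _ ≤ ENNReal.ofReal l *
          ((∫⁻ x in Pool.Agent.H433R3.Bump.cube a ℓ, ENNReal.ofReal (Pool.Agent.H433R3.Bump.ww x)) /
            volume (Pool.Agent.H433R3.Bump.cube a ℓ)) ^ ((1:ℝ) / 2)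
          * volume (Pool.Agent.H433R3.Bump.cube a ℓ) ^ ((1:ℝ) / 2) := by gcongr
      _ = (ENNReal.ofReal (l ^ 2) * ∫⁻ x in Pool.Agent.H433R3.Bump.cube a ℓ,
            ENNReal.ofReal (Pool.Agent.H433R3.Bump.ww x)) ^ ((1:ℝ) / 2) := by
          rw [mul_assoc, ← ENNReal.mul_rpow_of_nonneg _ _ (by norm_num),
            ENNReal.div_mul_cancel hV0 hVt, ENNReal.mul_rpow_of_nonneg _ _ (by norm_num)]
          congr 1
          rw [ENNReal.ofReal_rpow_of_nonneg (by positivity) (by norm_num), ← Real.sqrt_eq_rpow,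
            Real.sqrt_sq hl.le]
      _ ≤ 1 := by
          calc _ ≤ (1 : ℝ≥0∞) ^ ((1:ℝ) / 2) := by gcongr
            _ = 1 := ENNReal.one_rpow _
  obtain ⟨C, hC⟩ := H 2 1 2 (by norm_num) (by norm_num) (by norm_num) (by norm_num)
    Pool.Agent.H433R3.Bump.ww Pool.Agent.H433R3.Bump.ww
    Pool.Agent.H433R3.Bump.ww_nonneg Pool.Agent.H433R3.Bump.ww_nonneg
    Pool.Agent.H433R3.Bump.ww_locInt Pool.Agent.H433R3.Bump.ww_locInt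
    Pool.Agent.H433R3.Bump.Phi Pool.Agent.H433R3.Bump.Phi hY hY
    Pool.Agent.H433R3.Bump.conj_B2 hB2'
    ⟨1, by
      rintro Q ⟨a, ℓ, hℓ, hQ⟩
      have := hK a ℓ hℓ Q hQ
      rw [show (1:ℝ) - 1 / 2 = 1 / 2 by norm_num, Nat.cast_ofNat, ENNReal.ofReal_one]
      exact this⟩
    ⟨1, by
      rintro Q ⟨a, ℓ, hℓ, hQ⟩
      have := hK a ℓ hℓ Q hQ
      rw [show (1:ℝ) - 1 / 2 = 1 / 2 by norm_num, Nat.cast_ofNat, ENNReal.ofReal_one,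
        mul_comm (((∫⁻ x in Q, ENNReal.ofReal (Pool.Agent.H433R3.Bump.ww x)) / volume Q) ^ ((1:ℝ) / 2))]
      exact this⟩
  exact Pool.Agent.H433R3.Bump.final C hC

end Pool.Agent.S06348
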