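import Pool.Statements.S06362
import Pool.Agent.H915R3.Sphere

set_option autoImplicit false
open scoped Manifold
open Pool Pool.MP_da00a8_an

namespace Pool.Agent.S06362

/-- The negation of the preceding statement: Every injectively immersed smooth compact surface in C^2 contains a compact set E whose polynomial hull has a point outside E, while every holomorphic map of the unit disc into hull minus E is constant. -/
theorem result :
    ¬ (∀ (M : Type) [TopologicalSpace M] [ChartedSpace (EuclideanSpace ℝ (Fin 2)) M]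
      [IsManifold (𝓡 2) ((⊤ : ℕ∞) : WithTop ℕ∞) M] [CompactSpace M] [Nonempty M]
      (f : M → (Fin 2 → ℂ)),
      ContMDiff (𝓡 2) 𝓘(ℝ, Fin 2 → ℂ) ((⊤ : ℕ∞) : WithTop ℕ∞) f →
      Function.Injective f →
      (∀ x : M, Function.Injective (mfderiv (𝓡 2) 𝓘(ℝ, Fin 2 → ℂ) f x)) →
      ∃ E : Set (Fin 2 → ℂ), E ⊆ Set.range f ∧ IsCompact E ∧
        (∃ z : Fin 2 → ℂ,
          (∀ p : MvPolynomial (Fin 2) ℂ, ∀ c : ℝ,
            (∀ w ∈ E, ‖MvPolynomial.eval w p‖ ≤ c) → ‖MvPolynomial.eval z p‖ ≤ c) ∧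
          z ∉ E) ∧
        ∀ g : ℂ → (Fin 2 → ℂ), DifferentiableOn ℂ g (Metric.ball (0 : ℂ) 1) →
          (∀ ζ ∈ Metric.ball (0 : ℂ) 1,
            (∀ p : MvPolynomial (Fin 2) ℂ, ∀ c : ℝ,
              (∀ w ∈ E, ‖MvPolynomial.eval w p‖ ≤ c) → ‖MvPolynomial.eval (g ζ) p‖ ≤ c) ∧
            g ζ ∉ E) →
          ∃ c : Fin 2 → ℂ, ∀ ζ ∈ Metric.ball (0 : ℂ) 1, g ζ = c) := by
  intro H
  haveI : Fact (Module.finrank ℝ (EuclideanSpace ℝ (Fin 3)) = 2 + 1) := ⟨by simp⟩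
  haveI : Nonempty (Metric.sphere (0 : EuclideanSpace ℝ (Fin 3)) 1) :=
    (NormedSpace.sphere_nonempty.2 zero_le_one).to_subtype
  obtain ⟨E, hEr, hEc, ⟨z, hz, hzE⟩, hg⟩ :=
    H (Metric.sphere (0 : EuclideanSpace ℝ (Fin 3)) 1)
      (fun x => Pool.Agent.H915R3.Sphere.Lm (x : EuclideanSpace ℝ (Fin 3)))
      (Pool.Agent.H915R3.Sphere.Lm.contDiff.contMDiff.comp contMDiff_coe_sphere)
      (fun x y h => Subtype.ext (Pool.Agent.H915R3.Sphere.Lm_inj h))
      (by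
        intro x
        have h1 : MDifferentiableAt (𝓡 2) 𝓘(ℝ, EuclideanSpace ℝ (Fin 3))
            ((↑) : Metric.sphere (0 : EuclideanSpace ℝ (Fin 3)) 1 → EuclideanSpace ℝ (Fin 3)) x :=
          (contMDiff_coe_sphere (m := 1)).mdifferentiable one_ne_zero x
        have h2 : MDifferentiableAt 𝓘(ℝ, EuclideanSpace ℝ (Fin 3)) 𝓘(ℝ, Fin 2 → ℂ)
            Pool.Agent.H915R3.Sphere.Lm (x : EuclideanSpace ℝ (Fin 3)) :=
          Pool.Agent.H915R3.Sphere.Lm.differentiableAt.mdifferentiableAt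
        have h3 := mfderiv_comp x h2 h1
        have h4 : (fun x : Metric.sphere (0 : EuclideanSpace ℝ (Fin 3)) 1 =>
            Pool.Agent.H915R3.Sphere.Lm (x : EuclideanSpace ℝ (Fin 3))) =
            Pool.Agent.H915R3.Sphere.Lm ∘ ((↑) : Metric.sphere (0 : EuclideanSpace ℝ (Fin 3)) 1 →
              EuclideanSpace ℝ (Fin 3)) := rfl
        rw [h4, h3, mfderiv_eq_fderiv, ContinuousLinearMap.fderiv]
        exact Pool.Agent.H915R3.Sphere.Lm_inj.comp (mfderiv_coe_sphere_injective x))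
  have hS : ∀ w ∈ E, Pool.Agent.H915R3.Sphere.OnS w := by
    intro w hw
    obtain ⟨x, rfl⟩ := hEr hw
    exact Pool.Agent.H915R3.Sphere.Lm_onS _ (by simpa using x.2)
  obtain ⟨g, hg1, hg2, hg3⟩ := Pool.Agent.H915R3.Sphere.dichotomy E hEc hS z hz hzE
  exact hg3 (hg g hg1 hg2)

end Pool.Agent.S06362
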