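import Pool.Statements.S06401

set_option autoImplicit false
open Pool Pool.MP_ddde1e_an

namespace Pool.Agent.S06401

open Filter Topology

/-- correction amount on the k-th gap -/
noncomputable def corr (n : ℕ → ℕ) (th : ℕ → ℝ) (P : ℕ → ℝ) (k : ℕ) : ℝ :=
  Real.Angle.toReal (((th (k + 1) - th k - ∑ i ∈ Finset.Ico (n k) (n (k + 1)), P i : ℝ)) : Real.Angle)

/-- the j-th correction function -/
noncomputable def psi (n : ℕ → ℕ) (th : ℕ → ℝ) (P : ℕ → ℝ) (a b : ℕ) (i : ℕ) : ℝ :=
  ∑ k ∈ Finset.Ico a b, if n k ≤ i ∧ i < n (k + 1) then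
    corr n th P k / ((n (k + 1) : ℝ) - n k) else 0

/-- partial sums -/
noncomputable def Ps (n : ℕ → ℕ) (th : ℕ → ℝ) (K : ℕ → ℕ) : ℕ → ℕ → ℝ
  | 0 => fun _ => 0
  | (j + 1) => fun i => Ps n th K j i + psi n th (Ps n th K j) (K j) (K (j + 1)) (i % n (K (j + 1)))

lemma abs_corr_le (n : ℕ → ℕ) (th : ℕ → ℝ) (P : ℕ → ℝ) (k : ℕ) :
    |corr n th P k| ≤ Real.pi := Real.Angle.abs_toReal_le_pi _

lemma psi_eq_of_mem (n : ℕ → ℕ) (hn : StrictMono n) (th : ℕ → ℝ) (P : ℕ → ℝ) (a b : ℕ) (i k : ℕ)
    (hk : k ∈ Finset.Ico a b) (h1 : n k ≤ i) (h2 : i < n (k + 1)) :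
    psi n th P a b i = corr n th P k / ((n (k + 1) : ℝ) - n k) := by
  unfold psi
  rw [Finset.sum_eq_single k]
  · rw [if_pos ⟨h1, h2⟩]
  · intro l _ hlk
    rw [if_neg]
    rintro ⟨h3, h4⟩
    apply hlk
    apply le_antisymm
    · by_contra h
      push Not at h
      have : n (k + 1) ≤ n l := hn.monotone h
      omega
    · by_contra h
      push Not at h
      have : n (l + 1) ≤ n k := hn.monotone h
      omega
  · intro h; exact absurd hk h

lemma psi_eq_zero_of_lt (n : ℕ → ℕ) (hn : StrictMono n) (th : ℕ → ℝ) (P : ℕ → ℝ) (a b : ℕ) (i : ℕ)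
    (h : i < n a) : psi n th P a b i = 0 := by
  unfold psi
  apply Finset.sum_eq_zero
  intro k hk
  rw [if_neg]
  rintro ⟨h3, _⟩
  have : n a ≤ n k := hn.monotone (Finset.mem_Ico.1 hk).1
  omega

lemma abs_psi_le (n : ℕ → ℕ) (hn : StrictMono n) (th : ℕ → ℝ) (P : ℕ → ℝ) (a b : ℕ) (i : ℕ)
    (G : ℝ) (hG : 0 < G) (hgap : ∀ k, a ≤ k → G ≤ (n (k + 1) : ℝ) - n k) :
    |psi n th P a b i| ≤ Real.pi / G := by
  by_cases h : ∃ k ∈ Finset.Ico a b, n k ≤ i ∧ i < n (k + 1)
  · obtain ⟨k, hk, h1, h2⟩ := h
    rw [psi_eq_of_mem n hn th P a b i k hk h1 h2, abs_div]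
    have h3 := hgap k (Finset.mem_Ico.1 hk).1
    rw [abs_of_pos (lt_of_lt_of_le hG h3)]
    exact div_le_div₀ Real.pi_pos.le (abs_corr_le n th P k) hG h3
  · push Not at h
    have : psi n th P a b i = 0 := by
      unfold psi
      apply Finset.sum_eq_zero
      intro k hk
      rw [if_neg]
      rintro ⟨h3, h4⟩
      have := h k hk h3
      omega
    rw [this, abs_zero]
    exact div_nonneg Real.pi_pos.le hG.le

lemma exists_K (n : ℕ → ℕ) (hgap : Tendsto (fun k : ℕ => n (k + 1) - n k) atTop atTop) :
    ∃ K : ℕ → ℕ, K 0 = 0 ∧ StrictMono K ∧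
      ∀ j, ∀ k, K (j + 1) ≤ k → 2 ^ (j + 1) ≤ n (k + 1) - n k := by
  have h1 : ∀ j : ℕ, ∃ N : ℕ, ∀ k, N ≤ k → 2 ^ (j + 1) ≤ n (k + 1) - n k := by
    intro j
    obtain ⟨N, hN⟩ := eventually_atTop.1 (hgap.eventually_ge_atTop (2 ^ (j + 1)))
    exact ⟨N, fun k hk => hN k hk⟩
  choose N hN using h1
  refine ⟨fun j => Nat.rec 0 (fun j Kj => max (Kj + 1) (N j)) j, rfl, ?_, ?_⟩
  · apply strictMono_nat_of_lt_succ
    intro j
    exact lt_of_lt_of_le (Nat.lt_succ_self _) (le_max_left _ _)
  · intro j k hk
    exact hN j k (le_trans (le_max_right _ _) hk)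

lemma main (n : ℕ → ℕ) (hn : StrictMono n)
    (hgap : Tendsto (fun k : ℕ => n (k + 1) - n k) atTop atTop)
    (th : ℕ → ℝ) :
    ∃ (p : ℕ → ℕ) (_ : ∀ j, NeZero (p j)) (g : ∀ j, ZMod (p j) → ℝ),
      (∃ u : ℕ → ℝ, Summable u ∧ ∀ j x, |g j x| ≤ u j) ∧
      ∀ k, ((∑ i ∈ Finset.range (n k), ∑' j, g j (i : ZMod (p j)) : ℝ) : Real.Angle)
        = ((th k - th 0 : ℝ) : Real.Angle) := by
  obtain ⟨K, hK0, hKm, hKgap⟩ := exists_K n hgap
  have hppos : ∀ j, 0 < n (K (j + 1)) := by
    intro j
    have h1 : 0 < K (j + 1) := lt_of_le_of_lt (Nat.zero_le _) (hKm (Nat.lt_succ_self j))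
    exact lt_of_lt_of_le h1 (hn.id_le _)
  refine ⟨fun j => n (K (j + 1)), fun j => ⟨(hppos j).ne'⟩,
    fun j x => psi n th (Ps n th K j) (K j) (K (j + 1)) x.val, ?_, ?_⟩
  · -- bounds
    refine ⟨fun j => Real.pi / 2 ^ j, ?_, ?_⟩
    · have := (summable_geometric_two).mul_left Real.pi
      refine this.congr ?_
      intro j
      rw [one_div, inv_pow, div_eq_mul_inv]
    · intro j x
      apply abs_psi_le n hn _ _ _ _ _ _ (by positivity)
      intro k hk
      cases j with
      | zero =>
        have h2 : n k < n (k + 1) := hn (Nat.lt_succ_self k)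
        have h3 : (n k : ℝ) + 1 ≤ n (k + 1) := by exact_mod_cast h2
        rw [pow_zero]
        linarith
      | succ j =>
        have h1 := hKgap j k hk
        have h2 : n k ≤ n (k + 1) := (hn (Nat.lt_succ_self k)).le
        have h3 : ((2 ^ (j + 1) : ℕ) : ℝ) ≤ ((n (k + 1) - n k : ℕ) : ℝ) := by exact_mod_cast h1
        rw [Nat.cast_sub h2] at h3
        push_cast at h3
        exact h3
  · -- the value of the full sum on [0, n (K J))
    have hzero : ∀ J i, i < n (K J) → ∀ l, J ≤ l →
        psi n th (Ps n th K l) (K l) (K (l + 1)) (i % n (K (l + 1))) = 0 := by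
      intro J i hi l hl
      have h1 : n (K J) ≤ n (K l) := hn.monotone (hKm.monotone hl)
      have h2 : n (K l) < n (K (l + 1)) := hn (hKm (Nat.lt_succ_self l))
      rw [Nat.mod_eq_of_lt (by omega)]
      exact psi_eq_zero_of_lt n hn _ _ _ _ _ (by omega)
    have hPsum : ∀ J i, ∑ j ∈ Finset.range J,
        psi n th (Ps n th K j) (K j) (K (j + 1)) (i % n (K (j + 1))) = Ps n th K J i := by
      intro J i
      induction J with
      | zero => simp [Ps]
      | succ J ih => rw [Finset.sum_range_succ, ih]; rfl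
    have hfull : ∀ J i, i < n (K J) →
        ∑' j, psi n th (Ps n th K j) (K j) (K (j + 1)) ((i : ZMod (n (K (j + 1)))).val)
          = Ps n th K J i := by
      intro J i hi
      rw [← hPsum J i]
      simp_rw [ZMod.val_natCast]
      apply tsum_eq_sum
      intro l hl
      rw [Finset.mem_range, not_lt] at hl
      exact hzero J i hi l hl
    -- find the block of k
    have hblock : ∀ k, ∃ j, K j ≤ k ∧ k < K (j + 1) := by
      intro k
      have h1 : ∃ j, k < K j := ⟨k + 1, lt_of_lt_of_le (Nat.lt_succ_self k) (hKm.id_le _)⟩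
      classical
      have h2 := Nat.find_spec h1
      have h3 : Nat.find h1 ≠ 0 := by
        intro h0
        rw [h0, hK0] at h2
        omega
      obtain ⟨j, hj⟩ := Nat.exists_eq_succ_of_ne_zero h3
      refine ⟨j, ?_, ?_⟩
      · have := Nat.find_min h1 (m := j) (by omega)
        omega
      · rw [← Nat.succ_eq_add_one, ← hj]; exact h2
    intro k
    induction k with
    | zero =>
      rw [sub_self]
      congr 1
      apply Finset.sum_eq_zero
      intro i hi
      rw [Finset.mem_range] at hi
      have := hfull 0 i (by rw [hK0]; exact hi)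
      rw [this]; rfl
    | succ k ih =>
      obtain ⟨j, hj1, hj2⟩ := hblock k
      have hle : n k ≤ n (k + 1) := (hn (Nat.lt_succ_self k)).le
      have hlt : n k < n (k + 1) := hn (Nat.lt_succ_self k)
      rw [← Finset.sum_range_add_sum_Ico _ hle, Real.Angle.coe_add, ih]
      have hend : n (k + 1) ≤ n (K (j + 1)) := hn.monotone hj2
      have h1 : ∑ i ∈ Finset.Ico (n k) (n (k + 1)),
          ∑' l, psi n th (Ps n th K l) (K l) (K (l + 1)) ((i : ZMod (n (K (l + 1)))).val)
          = ∑ i ∈ Finset.Ico (n k) (n (k + 1)), (Ps n th K j i +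
            corr n th (Ps n th K j) k / ((n (k + 1) : ℝ) - n k)) := by
        apply Finset.sum_congr rfl
        intro i hi
        rw [Finset.mem_Ico] at hi
        rw [hfull (j + 1) i (by omega)]
        show Ps n th K j i + psi n th (Ps n th K j) (K j) (K (j + 1)) (i % n (K (j + 1))) = _
        rw [Nat.mod_eq_of_lt (by omega),
          psi_eq_of_mem n hn th _ _ _ i k (Finset.mem_Ico.2 ⟨hj1, hj2⟩) hi.1 hi.2]
      rw [h1, Finset.sum_add_distrib, Finset.sum_const, Nat.card_Ico, nsmul_eq_mul,
        Nat.cast_sub hle]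
      have hne : ((n (k + 1) : ℝ) - n k) ≠ 0 := by
        have : (n k : ℝ) < n (k + 1) := by exact_mod_cast hlt
        linarith
      rw [mul_div_cancel₀ _ hne, Real.Angle.coe_add]
      have h2 : ((corr n th (Ps n th K j) k : ℝ) : Real.Angle)
          = ((th (k + 1) - th k - ∑ i ∈ Finset.Ico (n k) (n (k + 1)), Ps n th K j i : ℝ) :
            Real.Angle) := Real.Angle.coe_toReal _
      rw [h2, ← Real.Angle.coe_add, ← Real.Angle.coe_add]
      congr 1
      ring

lemma sep_of_compact {X : Type} [MetricSpace X] [CompactSpace X] (K : Set (X × X))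
    (hK : IsClosed K) (hd : ∀ x : X, (x, x) ∉ K) :
    ∃ ε : ℝ, 0 < ε ∧ ∀ u ∈ K, ε ≤ dist u.1 u.2 := by
  by_cases hne : K.Nonempty
  · obtain ⟨u, hu, hmin⟩ := hK.isCompact.exists_isMinOn hne
      (f := fun u : X × X => dist u.1 u.2) (continuous_dist.continuousOn)
    refine ⟨dist u.1 u.2, ?_, fun v hv => hmin hv⟩
    rw [dist_pos]
    intro h
    apply hd u.1
    have : (u.1, u.1) = u := by ext <;> simp [h]
    rw [this]; exact hu
  · rw [Set.not_nonempty_iff_eq_empty] at hne
    exact ⟨1, one_pos, fun u hu => by rw [hne] at hu; exact absurd hu (Set.notMem_empty u)⟩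

/-- For every increasing sequence of naturals whose gaps tend to infinity, every bounded real sequence on it equals f(Tⁿx) along it, for some distal homeomorphism T of a compact metric space, some point x and some continuous f. -/
theorem result :
    ∀ n : ℕ → ℕ, StrictMono n →
      Filter.Tendsto (fun k : ℕ => n (k + 1) - n k) Filter.atTop Filter.atTop →
      ∀ φ : ℕ → ℝ, (∃ C : ℝ, ∀ k : ℕ, |φ k| ≤ C) →
        ∃ (X : Type) (_ : MetricSpace X) (_ : CompactSpace X) (T : X ≃ₜ X),
          (∀ x y : X, x ≠ y → ∃ ε : ℝ, 0 < ε ∧ ∀ m : ℕ,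
              ε ≤ dist ((⇑T)^[m] x) ((⇑T)^[m] y) ∧
              ε ≤ dist ((⇑T.symm)^[m] x) ((⇑T.symm)^[m] y)) ∧
          ∃ (x₀ : X) (f : X → ℝ), Continuous f ∧
            ∀ k : ℕ, f ((⇑T)^[n k] x₀) = φ k := by
  intro n hn hgap φ ⟨C0, hC0⟩
  set C : ℝ := |C0| + 1 with hC
  have hCpos : 0 < C := by positivity
  have hφ : ∀ k, |φ k / C| ≤ 1 := by
    intro k
    rw [abs_div, abs_of_pos hCpos, div_le_one hCpos]
    calc |φ k| ≤ C0 := hC0 k
      _ ≤ |C0| := le_abs_self _
      _ ≤ C := by rw [hC]; linarith
  set th : ℕ → ℝ := fun k => Real.arccos (φ k / C) with hth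
  have hcos : ∀ k, Real.cos (th k) = φ k / C := by
    intro k
    exact Real.cos_arccos (abs_le.1 (hφ k)).1 (abs_le.1 (hφ k)).2
  obtain ⟨p, hp, g, ⟨u, hu, hgu⟩, hmain⟩ := main n hn hgap th
  haveI := hp
  let B : Type := ∀ j, ZMod (p j)
  let X : Type := B × Circle
  haveI : CompactSpace X := inferInstanceAs (CompactSpace ((∀ j, ZMod (p j)) × Circle))
  haveI : TopologicalSpace.MetrizableSpace X :=
    inferInstanceAs (TopologicalSpace.MetrizableSpace ((∀ j, ZMod (p j)) × Circle))
  letI : MetricSpace X := TopologicalSpace.metrizableSpaceMetric X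
  -- the cocycle
  let Φ : B → ℝ := fun x => ∑' j, g j (x j)
  have hΦ : Continuous Φ := by
    refine continuous_tsum (u := u) ?_ hu ?_
    · intro j
      exact (continuous_of_discreteTopology (f := g j)).comp (continuous_apply j)
    · intro j x
      rw [Real.norm_eq_abs]
      exact hgu j (x j)
  let one : B := fun _ => 1
  let T : X ≃ₜ X :=
    { toFun := fun x => (x.1 + one, Circle.exp (Φ x.1) * x.2)
      invFun := fun x => (x.1 - one, (Circle.exp (Φ (x.1 - one)))⁻¹ * x.2)
      left_inv := by
        intro x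
        apply Prod.ext
        · simp
        · simp
      right_inv := by
        intro x
        apply Prod.ext
        · simp
        · simp
      continuous_toFun := by
        apply Continuous.prodMk
        · exact continuous_fst.add continuous_const
        · exact (Circle.exp.continuous.comp (hΦ.comp continuous_fst)).mul continuous_snd
      continuous_invFun := by
        apply Continuous.prodMk
        · exact continuous_fst.sub continuous_const
        · exact (Circle.exp.continuous.comp (hΦ.comp
            (continuous_fst.sub continuous_const))).inv.mul continuous_snd }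
  have hT : ∀ x : X, T x = (x.1 + one, Circle.exp (Φ x.1) * x.2) := fun x => rfl
  have hTs : ∀ x : X, T.symm x = (x.1 - one, (Circle.exp (Φ (x.1 - one)))⁻¹ * x.2) := fun x => rfl
  refine ⟨X, inferInstance, inferInstance, T, ?_, ?_⟩
  · intro x y hxy
    by_cases hb : x.1 = y.1
    · -- fibre differs
      have hz : x.2 ≠ y.2 := fun h => hxy (Prod.ext hb h)
      set c : Circle := x.2 * y.2⁻¹ with hc
      have hc1 : c ≠ 1 := by
        intro h
        apply hz
        rw [hc, mul_inv_eq_one] at h
        exact h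
      obtain ⟨ε, hε, hsep⟩ := sep_of_compact (X := X)
        {w : X × X | w.1.2 * w.2.2⁻¹ = c}
        (isClosed_eq ((continuous_snd.comp continuous_fst).mul
          (continuous_snd.comp continuous_snd).inv) continuous_const)
        (by
          intro w hw
          simp only [Set.mem_setOf_eq, mul_inv_cancel] at hw
          exact hc1 hw.symm)
      refine ⟨ε, hε, fun m => ⟨?_, ?_⟩⟩
      · have key : ((⇑T)^[m] x).1 = ((⇑T)^[m] y).1 ∧
            ((⇑T)^[m] x).2 * ((⇑T)^[m] y).2⁻¹ = c := by
          induction m with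
          | zero => exact ⟨hb, rfl⟩
          | succ m ih =>
            rw [Function.iterate_succ_apply', Function.iterate_succ_apply', hT, hT]
            refine ⟨?_, ?_⟩
            · show _ + one = _ + one
              rw [ih.1]
            · show (Circle.exp _ * _) * (Circle.exp _ * _)⁻¹ = c
              rw [← ih.2, ih.1]
              rw [mul_inv, mul_mul_mul_comm, mul_inv_cancel, one_mul]
        exact hsep ((⇑T)^[m] x, (⇑T)^[m] y) key.2
      · have key : ((⇑T.symm)^[m] x).1 = ((⇑T.symm)^[m] y).1 ∧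
            ((⇑T.symm)^[m] x).2 * ((⇑T.symm)^[m] y).2⁻¹ = c := by
          induction m with
          | zero => exact ⟨hb, rfl⟩
          | succ m ih =>
            rw [Function.iterate_succ_apply', Function.iterate_succ_apply', hTs, hTs]
            refine ⟨?_, ?_⟩
            · show _ - one = _ - one
              rw [ih.1]
            · show ((Circle.exp _)⁻¹ * _) * ((Circle.exp _)⁻¹ * _)⁻¹ = c
              rw [← ih.2, ih.1]
              rw [mul_inv, mul_mul_mul_comm, mul_inv_cancel, one_mul]
        exact hsep ((⇑T.symm)^[m] x, (⇑T.symm)^[m] y) key.2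
    · -- base differs
      set c : B := x.1 - y.1 with hc
      have hc1 : c ≠ 0 := by
        intro h
        apply hb
        rw [hc, sub_eq_zero] at h
        exact h
      obtain ⟨ε, hε, hsep⟩ := sep_of_compact (X := X)
        {w : X × X | w.1.1 - w.2.1 = c}
        (isClosed_eq ((continuous_fst.comp continuous_fst).sub
          (continuous_fst.comp continuous_snd)) continuous_const)
        (by
          intro w hw
          simp only [Set.mem_setOf_eq, sub_self] at hw
          exact hc1 hw.symm)
      refine ⟨ε, hε, fun m => ⟨?_, ?_⟩⟩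
      · have key : ((⇑T)^[m] x).1 - ((⇑T)^[m] y).1 = c := by
          induction m with
          | zero => rfl
          | succ m ih =>
            rw [Function.iterate_succ_apply', Function.iterate_succ_apply', hT, hT]
            show (_ + one) - (_ + one) = c
            rw [add_sub_add_right_eq_sub, ih]
        exact hsep ((⇑T)^[m] x, (⇑T)^[m] y) key
      · have key : ((⇑T.symm)^[m] x).1 - ((⇑T.symm)^[m] y).1 = c := by
          induction m with
          | zero => rfl
          | succ m ih =>
            rw [Function.iterate_succ_apply', Function.iterate_succ_apply', hTs, hTs]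
            show (_ - one) - (_ - one) = c
            rw [sub_sub_sub_cancel_right, ih]
        exact hsep ((⇑T.symm)^[m] x, (⇑T.symm)^[m] y) key
  · refine ⟨((0 : B), Circle.exp (th 0)), fun x => C * ((x.2 : Circle) : ℂ).re, ?_, ?_⟩
    · exact continuous_const.mul (Complex.continuous_re.comp
        (continuous_subtype_val.comp continuous_snd))
    · intro k
      have hiter : ∀ m : ℕ, (⇑T)^[m] ((0 : B), Circle.exp (th 0)) =
          ((fun j => ((m : ℕ) : ZMod (p j))),
            Circle.exp (∑ i ∈ Finset.range m, Φ (fun j => ((i : ℕ) : ZMod (p j))) + th 0)) := by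
        intro m
        induction m with
        | zero =>
          simp only [Function.iterate_zero, id_eq, Finset.range_zero, Finset.sum_empty, zero_add]
          congr 1
          funext j
          rw [Nat.cast_zero]
          rfl
        | succ m ih =>
          rw [Function.iterate_succ_apply', ih, hT]
          apply Prod.ext
          · funext j
            show ((m : ℕ) : ZMod (p j)) + 1 = ((m + 1 : ℕ) : ZMod (p j))
            push_cast
            rfl
          · show Circle.exp _ * Circle.exp _ = Circle.exp _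
            rw [← Circle.exp_add, Finset.sum_range_succ]
            congr 1
            ring
      rw [hiter]
      show C * ((Circle.exp _ : Circle) : ℂ).re = φ k
      rw [Circle.coe_exp, Complex.exp_ofReal_mul_I_re]
      have h1 : (((∑ i ∈ Finset.range (n k), Φ (fun j => ((i : ℕ) : ZMod (p j))) + th 0 : ℝ)) :
          Real.Angle) = ((th k : ℝ) : Real.Angle) := by
        rw [Real.Angle.coe_add]
        have := hmain k
        show ((∑ i ∈ Finset.range (n k), ∑' j, g j ((i : ℕ) : ZMod (p j)) : ℝ) : Real.Angle) + _ = _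
        rw [this, ← Real.Angle.coe_add, sub_add_cancel]
      rw [← Real.Angle.cos_coe, h1, Real.Angle.cos_coe, hcos k]
      field_simp

end Pool.Agent.S06401
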