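import Pool.Statements.S06434
import Pool.Agent.H507R3.PCHull

set_option autoImplicit false
open Classical
open Pool Pool.MP_e03363_an

namespace Pool.Agent.S06434

/-- The negation of the preceding statement: For every n,m≥1, every f = g∘(all minors) with g strictly convex and C^1, and every R>0, each point of the Λ_dc-convex hull of the R-truncated set {(X, Df(X), XᵀDf(X) − f(X)·I)} already lies in that set. -/
theorem result :
    ¬ (∀ n m : ℕ, 1 ≤ n → 1 ≤ m →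
  ∀ f : (Fin n → Fin m → ℝ) → ℝ,
    (∃ g : ((Σ k : Fin (min n m),
        {r : Fin (k.1 + 1) → Fin n // StrictMono r} ×
        {c : Fin (k.1 + 1) → Fin m // StrictMono c}) → ℝ) → ℝ,
      StrictConvexOn ℝ Set.univ g ∧ ContDiff ℝ 1 g ∧
      ∀ Y : Fin n → Fin m → ℝ,
        f Y = g (fun p => Matrix.det ((Matrix.of Y).submatrix p.2.1.1 p.2.2.1))) →
  ∀ R : ℝ, 0 < R →
  ∀ A : (Fin n → Fin m → ℝ) × (Fin n → Fin m → ℝ) × (Fin m → Fin m → ℝ),
    (∀ F : (Fin n → Fin m → ℝ) × (Fin n → Fin m → ℝ) × (Fin m → Fin m → ℝ) → ℝ,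
      (∀ A' B : (Fin n → Fin m → ℝ) × (Fin n → Fin m → ℝ) × (Fin m → Fin m → ℝ),
        (∃ ξ : Fin m → ℝ, ∑ j, ξ j ^ 2 = 1 ∧
          (∀ i, ∑ j, B.2.1 i j * ξ j = 0) ∧
          (∀ a, ∑ j, B.2.2 a j * ξ j = 0) ∧
          ∃ u : Fin n → ℝ, ∀ i j, B.1 i j = u i * ξ j) →
        ConvexOn ℝ Set.univ (fun t : ℝ => F (A' + t • B))) →
      (∀ P : (Fin n → Fin m → ℝ) × (Fin n → Fin m → ℝ) × (Fin m → Fin m → ℝ),
        (∃ X : Fin n → Fin m → ℝ,
          P = (X,
               fun i j => fderiv ℝ f X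
                 (fun a b => if a = i ∧ b = j then (1 : ℝ) else 0 : Fin n → Fin m → ℝ),
               fun a b => ∑ i, X i a * fderiv ℝ f X
                 (fun c d => if c = i ∧ d = b then (1 : ℝ) else 0 : Fin n → Fin m → ℝ)
                 - f X * (if a = b then (1 : ℝ) else 0)) ∧
          (∑ i, ∑ j, P.1 i j ^ 2) + (∑ i, ∑ j, P.2.1 i j ^ 2)
            + (∑ a, ∑ b, P.2.2 a b ^ 2) ≤ R ^ 2) →
        F P ≤ 0) →
      F A ≤ 0) →
    ∃ X : Fin n → Fin m → ℝ,
      A = (X,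
           fun i j => fderiv ℝ f X
             (fun a b => if a = i ∧ b = j then (1 : ℝ) else 0 : Fin n → Fin m → ℝ),
           fun a b => ∑ i, X i a * fderiv ℝ f X
             (fun c d => if c = i ∧ d = b then (1 : ℝ) else 0 : Fin n → Fin m → ℝ)
             - f X * (if a = b then (1 : ℝ) else 0)) ∧
      (∑ i, ∑ j, A.1 i j ^ 2) + (∑ i, ∑ j, A.2.1 i j ^ 2)
        + (∑ a, ∑ b, A.2.2 a b ^ 2) ≤ R ^ 2) := by
  intro hall
  obtain ⟨g, hsc, hcd, hleaf⟩ := Pool.Agent.H507R3.PC.exists_g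
  have hY : ∀ (i : Fin 24) (k : Fin 10) (c : Fin 2),
      fderiv ℝ (fun Z : Pool.Agent.H507R3.PC.Mt => g (Pool.Agent.H507R3.PC.Phi Z))
        (Pool.Agent.H507R3.PC.XR i)
        (fun a b => if a = k ∧ b = c then (1 : ℝ) else 0 : Fin 10 → Fin 2 → ℝ)
        = Pool.Agent.H507R3.PC.YR i k c := by
    intro i k c
    rw [(hleaf i).2]
    rw [Finset.sum_eq_single k]
    · rw [Finset.sum_eq_single c]
      · simp
      · intro b _ hb; simp [hb]
      · intro h; exact absurd (Finset.mem_univ c) h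
    · intro b _ hb; simp [hb]
    · intro h; exact absurd (Finset.mem_univ k) h
  set nrm : Pool.Agent.H507R3.PC.T3 → ℝ := fun P =>
    (∑ i, ∑ j, P.1 i j ^ 2) + (∑ i, ∑ j, P.2.1 i j ^ 2) + (∑ a, ∑ b, P.2.2 a b ^ 2) with hnrm
  have hn0 : ∀ P, 0 ≤ nrm P := by intro P; simp only [hnrm]; positivity
  set S : ℝ := ∑ i, nrm (Pool.Agent.H507R3.PC.pt3 (Pool.Agent.H507R3.PC.XR i)) with hS
  have hS0 : 0 ≤ S := Finset.sum_nonneg fun i _ => hn0 _
  have hSi : ∀ i, nrm (Pool.Agent.H507R3.PC.pt3 (Pool.Agent.H507R3.PC.XR i)) ≤ S := fun i =>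
    Finset.single_le_sum (f := fun i => nrm (Pool.Agent.H507R3.PC.pt3 (Pool.Agent.H507R3.PC.XR i)))
      (fun i _ => hn0 _) (Finset.mem_univ i)
  obtain ⟨X, hX, _⟩ := hall 10 2 (by norm_num) (by norm_num)
    (fun Z => g (Pool.Agent.H507R3.PC.Phi Z)) ⟨g, hsc, hcd, fun Y => rfl⟩ (1 + S) (by linarith)
    (Pool.Agent.H507R3.PC.pt3 (Pool.Agent.H507R3.PC.PR 0)) (by
      intro F hF hFK
      apply Pool.Agent.H507R3.PC.hull_point (F := F)
      · intro A' B hB
        exact hF A' B hB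
      · intro i
        apply hFK
        refine ⟨Pool.Agent.H507R3.PC.XR i, ?_, ?_⟩
        · unfold Pool.Agent.H507R3.PC.pt3
          rw [Prod.mk.injEq, Prod.mk.injEq]
          refine ⟨rfl, ?_, ?_⟩
          · rw [Pool.Agent.H507R3.PC.YR_eq]
            funext k c
            exact (hY i k c).symm
          · funext a b
            rw [Pool.Agent.H507R3.PC.ZR_eq]
            simp only [hY, (hleaf i).1]
        · have h1 := hSi i
          have h2 : S ≤ (1 + S) ^ 2 := by nlinarith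
          exact h1.trans h2)
  unfold Pool.Agent.H507R3.PC.pt3 at hX
  rw [Prod.mk.injEq, Prod.mk.injEq] at hX
  obtain ⟨h1, h2, h3⟩ := hX
  apply Pool.Agent.H507R3.PC.not_scalar
  have h4 := congrFun (congrFun h3 0) 1
  rw [h4, h2, ← h1]
  simp

end Pool.Agent.S06434
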