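import Pool.Statements.S06456
import Pool.Agent.H896R3.Curve

set_option autoImplicit false
open Pool Pool.MP_e19c20_an

namespace Pool.Agent.S06456

/-- The negation of the preceding statement: If a compact metric space X carries a closed, point-separating, proper subalgebra of C(X,ℂ) whose every character is a point evaluation, then X contains a subset homeomorphic to the Sierpiński carpet. -/
theorem result :
    ¬ (∀ (X : Type) [MetricSpace X] [CompactSpace X] (A : Subalgebra ℂ C(X, ℂ)),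
      IsClosed (A : Set C(X, ℂ)) →
      (∀ x y : X, x ≠ y → ∃ f ∈ A, f x ≠ f y) →
      A ≠ ⊤ →
      (∀ φ : A →ₐ[ℂ] ℂ, ∃ x : X, ∀ f : A, φ f = (f : C(X, ℂ)) x) →
      ∃ K : Set X, Nonempty (↥K ≃ₜ ↥({p : ℝ × ℝ |
        p.1 ∈ Set.Icc (0 : ℝ) 1 ∧ p.2 ∈ Set.Icc (0 : ℝ) 1 ∧
        ∀ n a b : ℕ, ¬ (p.1 ∈ Set.Ioo ((3 * (a : ℝ) + 1) / 3 ^ (n + 1)) ((3 * (a : ℝ) + 2) / 3 ^ (n + 1)) ∧
                        p.2 ∈ Set.Ioo ((3 * (b : ℝ) + 1) / 3 ^ (n + 1)) ((3 * (b : ℝ) + 2) / 3 ^ (n + 1)))} : Set (ℝ × ℝ)))) := by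
  intro H
  obtain ⟨B⟩ := Pool.Agent.H896R3.BD_nonempty
  letI : MetricSpace B.Y := TopologicalSpace.metrizableSpaceMetric B.Y
  obtain ⟨K, hK⟩ := H B.Y B.A B.isClosed_A B.separates B.ne_top B.natural
  exact Pool.Agent.H896R3.no_carpet B K hK

end Pool.Agent.S06456
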