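import Pool.Statements.S06481
import Pool.Agent.H535R3.KC
-- import your own Pool.Agent.* helpers here

set_option autoImplicit false
open Filter Topology
open Pool Pool.MP_e3ae05_an

namespace Pool.Agent.S06481

/-- For each integer r and ε>0, for all small ω>0: if A₁>0 is the lowest positive height where phase-lock area L_r is a single point, then every point of L_r with A≥A₁ lies within ε of the ray B=0, A≥1. -/
theorem result :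
    ∀ r : ℤ, ∀ ε : ℝ, 0 < ε → ∃ δ : ℝ, 0 < δ ∧
      ∀ ω : ℝ, 0 < ω → ω < δ →
      ∀ B₁ A₁ : ℝ, 0 < A₁ →
        ((∃ φ : ℝ → ℝ, (∀ t : ℝ, HasDerivAt φ (-Real.sin (φ t) + B₁ + A₁ * Real.cos (ω * t)) t) ∧
            Tendsto (fun t : ℝ => φ t / t) atTop (𝓝 ((r : ℝ) * ω))) ∧
          ∀ B'' : ℝ, (∃ φ : ℝ → ℝ, (∀ t : ℝ, HasDerivAt φ (-Real.sin (φ t) + B'' + A₁ * Real.cos (ω * t)) t) ∧
            Tendsto (fun t : ℝ => φ t / t) atTop (𝓝 ((r : ℝ) * ω))) → B'' = B₁) →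
        (∀ B' A' : ℝ, 0 < A' → A' < A₁ →
          ¬ ((∃ φ : ℝ → ℝ, (∀ t : ℝ, HasDerivAt φ (-Real.sin (φ t) + B' + A' * Real.cos (ω * t)) t) ∧
              Tendsto (fun t : ℝ => φ t / t) atTop (𝓝 ((r : ℝ) * ω))) ∧
            ∀ B'' : ℝ, (∃ φ : ℝ → ℝ, (∀ t : ℝ, HasDerivAt φ (-Real.sin (φ t) + B'' + A' * Real.cos (ω * t)) t) ∧
              Tendsto (fun t : ℝ => φ t / t) atTop (𝓝 ((r : ℝ) * ω))) → B'' = B')) →
        ∀ B A : ℝ, A₁ ≤ A →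
          (∃ φ : ℝ → ℝ, (∀ t : ℝ, HasDerivAt φ (-Real.sin (φ t) + B + A * Real.cos (ω * t)) t) ∧
            Tendsto (fun t : ℝ => φ t / t) atTop (𝓝 ((r : ℝ) * ω))) →
          ∃ a : ℝ, 1 ≤ a ∧ B ^ 2 + (A - a) ^ 2 < ε ^ 2 := by
  intro r ε hε
  obtain ⟨δ, hδ, h⟩ := H535R3.ray_limit r ε hε
  exact ⟨δ, hδ, fun ω h1 h2 B₁ A₁ h3 h4 _ B A h5 h6 => h ω h1 h2 B₁ A₁ h3 h4 B A h5 h6⟩

end Pool.Agent.S06481
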