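import Pool.Statements.S06493
import Pool.Agent.H298R3.Lp.Main

set_option autoImplicit false
open Pool Pool.MP_e46b3e_an

namespace Pool.Agent.S06493

/-- For every finite p>1 there are C,τ,ε₀>0 such that for infinitely many d, any real-weighted quadrature rule whose L_p-discrepancy is at most ε₀ times the initial one uses at least C(1+τ)^d points. -/
theorem result :
  ∀ p : ℝ, 1 < p →
    ∃ C : ℝ, 0 < C ∧ ∃ τ : ℝ, 0 < τ ∧ ∃ ε₀ : ℝ, 0 < ε₀ ∧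
      ∀ D : ℕ, ∃ d : ℕ, D ≤ d ∧
        ∀ ε : ℝ, 0 < ε → ε ≤ ε₀ →
        ∀ n : ℕ, ∀ x : Fin n → Fin d → ℝ, ∀ a : Fin n → ℝ,
          (∀ j, x j ∈ Set.Icc (0 : Fin d → ℝ) 1) →
          (∫ t in Set.Icc (0 : Fin d → ℝ) 1,
              |(∏ i, t i) - ∑ j, a j *
                  Set.indicator {y : Fin d → ℝ | ∀ i, x j i < y i} (fun _ => (1 : ℝ)) t| ^ p)
            ≤ ε ^ p * ∫ t in Set.Icc (0 : Fin d → ℝ) 1, |∏ i, t i| ^ p →
          C * (1 + τ) ^ d ≤ (n : ℝ) := by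
  intro p hp
  obtain ⟨τ, hτ, H⟩ := Pool.Agent.H298R3.Lp.curse hp
  exact ⟨1 / 2, by norm_num, τ, hτ, 1 / 5, by norm_num, fun D => ⟨D, le_rfl,
    fun ε hε hε2 n x a _ hle => H D ε hε hε2 n x a hle⟩⟩

end Pool.Agent.S06493
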