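import Pool.Statements.S06498
import Pool.Agent.H133R3.KS.K15
-- import your own Pool.Agent.* helpers here

set_option autoImplicit false
open MeasureTheory
open Pool Pool.MP_e522c7_an

namespace Pool.Agent.S06498

/-- The negation of the preceding statement: In dimension d≥3, Keller–Segel data n0 (nonnegative, continuous, bounded, integrable, finite second moment) with ∬n0n0∣x−y∣^{2−d} > 2dM∣S^{d−1}∣ admit no global classical solution bounded on compact time intervals, i.e. they blow up in finite time. -/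
theorem result :
    ¬ (∀ d : ℕ, 3 ≤ d →
    ∀ n0 : EuclideanSpace ℝ (Fin d) → ℝ,
      Continuous n0 → (∀ x, 0 ≤ n0 x) → (∃ C : ℝ, ∀ x, n0 x ≤ C) →
      Integrable n0 → Integrable (fun x => ‖x‖ ^ 2 * n0 x) →
      (∫ x, ∫ y, n0 x * n0 y / ‖x - y‖ ^ (d - 2)) >
        2 * (d : ℝ) * (∫ x, n0 x) *
          ((d : ℝ) * (volume (Metric.ball (0 : EuclideanSpace ℝ (Fin d)) 1)).toReal) →
      ¬ ∃ n : ℝ → EuclideanSpace ℝ (Fin d) → ℝ,
          n 0 = n0 ∧
          ContinuousOn (fun p : ℝ × EuclideanSpace ℝ (Fin d) => n p.1 p.2)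
            (Set.Ici (0 : ℝ) ×ˢ Set.univ) ∧
          ContDiffOn ℝ 2 (fun p : ℝ × EuclideanSpace ℝ (Fin d) => n p.1 p.2)
            (Set.Ioi (0 : ℝ) ×ˢ Set.univ) ∧
          (∀ t : ℝ, 0 ≤ t → Integrable (n t)) ∧
          (∀ T : ℝ, 0 < T → ∃ C : ℝ, ∀ t ∈ Set.Icc (0 : ℝ) T, ∀ x, |n t x| ≤ C) ∧
          (∀ t : ℝ, 0 < t → ∀ x : EuclideanSpace ℝ (Fin d),
            deriv (fun s => n s x) t =
              (∑ i : Fin d, iteratedFDeriv ℝ 2 (n t) x
                  ![EuclideanSpace.single i (1 : ℝ), EuclideanSpace.single i (1 : ℝ)])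
              - fderiv ℝ (n t) x
                  ((-(1 / ((d : ℝ) *
                      (volume (Metric.ball (0 : EuclideanSpace ℝ (Fin d)) 1)).toReal))) •
                    ∫ y, (n t y / ‖x - y‖ ^ d) • (x - y))
              + n t x ^ 2)) := by
  intro hall
  have hC := Pool.Agent.H133R3.KS.C1_pos
  have hm : 0 < 1 / (24 * Pool.Agent.H133R3.KS.C1) := by positivity
  obtain ⟨e, he, he1, hE⟩ := Pool.Agent.H133R3.KS.energy_big hm
  obtain ⟨N, hN⟩ := Pool.Agent.H133R3.KS.exists_sol he he1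
  have h0 : ∀ x, 0 ≤ Pool.Agent.H133R3.KS.nn N 0 x := by
    intro x
    rw [hN.nn_zero he]
    exact (Pool.Agent.H133R3.KS.n0f_pos hm he x).le
  have hnn := hN.nonneg h0
  have hint : ∀ t, 0 ≤ t → Integrable (Pool.Agent.H133R3.KS.nn N t) := fun t ht =>
    hN.integrable_nn t (fun x => hnn t x ht)
  refine hall 4 (by norm_num) (Pool.Agent.H133R3.KS.n0f _ e) (Pool.Agent.H133R3.KS.n0f_cont _ e)
    (fun x => (Pool.Agent.H133R3.KS.n0f_pos hm he x).le) (Pool.Agent.H133R3.KS.n0f_bdd hm.le he he1)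
    (Pool.Agent.H133R3.KS.n0f_int he).1 (Pool.Agent.H133R3.KS.n0f_mom hm he he1) hE
    ⟨Pool.Agent.H133R3.KS.nn N, ?_, ?_, ?_, ?_, ?_, ?_⟩
  · funext x
    exact hN.nn_zero he x
  · exact hN.cont_nn.continuousOn
  · exact hN.contDiff_nn
  · exact hint
  · intro T _
    obtain ⟨C, hCb⟩ := hN.nn_bd
    exact ⟨C, fun t _ x => hCb t x⟩
  · intro t ht x
    exact hN.pde t ht x _ (fun j => hN.Kvec t (hint t ht.le) x j)

end Pool.Agent.S06498
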