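import Pool.Statements.S06499
import Pool.Agent.H651R3.Qc5

set_option autoImplicit false
open Pool Pool.MP_e53853_an

namespace Pool.Agent.S06499

/-- There is a domain D, a nonempty perfect totally disconnected set P inside D, and f continuous on D, holomorphic on D minus P, not analytic at any point of P, with f(P) totally disconnected. -/
theorem result :
    ∃ (D P : Set ℂ) (f : ℂ → ℂ),
      IsOpen D ∧ IsConnected D ∧
      P ⊆ D ∧ P.Nonempty ∧ Perfect P ∧ IsTotallyDisconnected P ∧
      ContinuousOn f D ∧
      DifferentiableOn ℂ f (D \ P) ∧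
      (∀ p ∈ P, ¬ AnalyticAt ℂ f p) ∧
      IsTotallyDisconnected (f '' P) := by
  obtain ⟨F, L, hL, hLip, hne, htd⟩ := Pool.Agent.H651R3.Qc.exists_lip
  set κ : ℝ := 1 / (2 * L) with hκ
  have hκ0 : 0 < κ := by positivity
  have hκC : (κ : ℂ) ≠ 0 := by exact_mod_cast hκ0.ne'
  set f : ℂ → ℂ := fun z => z + κ * F z with hf
  have hFc : Continuous F := by
    have : LipschitzWith ⟨L, hL.le⟩ F := LipschitzWith.of_dist_le_mul fun z w => by
      rw [dist_eq_norm, dist_eq_norm]; exact hLip z w
    exact this.continuous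
  have hfc : Continuous f := continuous_id.add (continuous_const.mul hFc)
  have hlow : ∀ z w, ‖z - w‖ ≤ 2 * ‖f z - f w‖ := by
    intro z w
    have h1 : ‖(κ:ℂ) * (F z - F w)‖ ≤ ‖z - w‖ / 2 := by
      rw [norm_mul, Complex.norm_real, Real.norm_of_nonneg hκ0.le]
      calc κ * ‖F z - F w‖ ≤ κ * (L * ‖z - w‖) := by gcongr; exact hLip z w
        _ = ‖z - w‖ / 2 := by rw [hκ]; field_simp
    have h2 : z - w = (f z - f w) - (κ:ℂ) * (F z - F w) := by simp only [hf]; ring
    have h3 : ‖z - w‖ ≤ ‖f z - f w‖ + ‖(κ:ℂ) * (F z - F w)‖ := by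
      conv_lhs => rw [h2]
      exact norm_sub_le _ _
    linarith
  have hanti : AntilipschitzWith 2 f := AntilipschitzWith.of_le_mul_dist fun z w => by
    rw [dist_eq_norm, dist_eq_norm]; exact hlow z w
  have huc : UniformContinuous f := by
    have : LipschitzWith (1 + ⟨κ, hκ0.le⟩ * ⟨L, hL.le⟩) f := LipschitzWith.of_dist_le_mul fun z w => by
      rw [dist_eq_norm, dist_eq_norm]
      have e : f z - f w = (z - w) + (κ:ℂ) * (F z - F w) := by simp only [hf]; ring
      rw [e]
      refine (norm_add_le _ _).trans ?_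
      rw [norm_mul, Complex.norm_real, Real.norm_of_nonneg hκ0.le]
      have := hLip z w
      push_cast
      change ‖z - w‖ + κ * ‖F z - F w‖ ≤ (1 + κ * L) * ‖z - w‖
      nlinarith
    exact this.uniformContinuous
  have hemb : Topology.IsEmbedding f := (hanti.isUniformEmbedding huc).isEmbedding
  set P : Set ℂ := {z | ¬ AnalyticAt ℂ F z} with hP
  have hiff : ∀ z, AnalyticAt ℂ f z ↔ AnalyticAt ℂ F z := by
    intro z
    constructor
    · intro h
      have h1 : AnalyticAt ℂ (fun w => (κ:ℂ)⁻¹ * (f w - w)) z := analyticAt_const.mul (h.sub analyticAt_id)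
      have h2 : (fun w => (κ:ℂ)⁻¹ * (f w - w)) = F := by
        ext w
        simp only [hf]
        field_simp
        ring
      rwa [h2] at h1
    · intro h
      exact analyticAt_id.add (analyticAt_const.mul h)
  have hPc : IsClosed P := by
    have : IsOpen {z | AnalyticAt ℂ F z} := isOpen_analyticAt ℂ F
    rw [← isOpen_compl_iff]
    convert this using 1
    ext z; simp [hP]
  refine ⟨Set.univ, P, f, isOpen_univ, isConnected_univ, Set.subset_univ _, hne, ⟨hPc, ?_⟩, htd,
    hfc.continuousOn, ?_, ?_, ?_⟩
  · rw [preperfect_iff_nhds]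
    intro x hx U hU
    by_contra hcon
    push Not at hcon
    apply hx
    apply Complex.analyticAt_of_differentiable_on_punctured_nhds_of_continuousAt
    · rw [eventually_nhdsWithin_iff]
      filter_upwards [hU] with y hy hyx
      by_contra hyd
      have hyP : y ∈ P := fun ha => hyd ha.differentiableAt
      exact hyx (hcon y ⟨hy, hyP⟩)
    · exact hFc.continuousAt
  · intro z hz
    have : AnalyticAt ℂ F z := by
      by_contra h
      exact hz.2 h
    exact ((hiff z).2 this).differentiableAt.differentiableWithinAt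
  · intro p hp h
    exact hp ((hiff p).1 h)
  · exact hemb.isTotallyDisconnected_image.2 htd

end Pool.Agent.S06499
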