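import Pool.Statements.S06503
import Pool.Agent.H258R3.DistD

set_option autoImplicit false
open Pool Pool.MP_e59edf_an

namespace Pool.Agent.S06503

open H258R3.Dist

/-- Some one-sided subshift over a finite alphabet has an infinite-order automorphism g lying in a finite generating set S of automorphisms such that the word length of gⁿ with respect to S is o(n). -/
theorem result :
    ∃ (k : ℕ) (X : Set (ℕ → Fin k)), IsClosed X ∧
      (∀ x ∈ X, (fun n => x (n + 1)) ∈ X) ∧
      ∃ (S : Finset (Equiv.Perm X)) (g : Equiv.Perm X), g ∈ S ∧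
        (∀ h ∈ S, Continuous (h : X → X) ∧
          ∀ x y : X, ((y : ℕ → Fin k) = fun n => (x : ℕ → Fin k) (n + 1)) →
            ((h y : X) : ℕ → Fin k) = fun n => ((h x : X) : ℕ → Fin k) (n + 1)) ∧
        ¬ IsOfFinOrder g ∧
        ∀ ε : ℝ, 0 < ε → ∃ N : ℕ, ∀ n : ℕ, N ≤ n →
          ∃ l : List (Equiv.Perm X), (l.length : ℝ) ≤ ε * n ∧
            (∀ h ∈ l, h ∈ S ∨ h⁻¹ ∈ S) ∧ l.prod = g ^ n := by
  classical
  obtain ⟨C, hC2, hC⟩ := exists_C
  -- the parameter
  generalize hg : C ^ 2 = gg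
  have hK : C ^ 2 ≤ 512 * (gg + 1) := by omega
  obtain ⟨kk, ⟨e⟩⟩ : ∃ kk, Nonempty (QQ gg ≃ Fin kk) := ⟨_, ⟨Fintype.equivFin _⟩⟩
  let dc : (ℕ → Fin kk) → (ℕ → QQ gg) := fun x i => e.symm (x i)
  let ec : (ℕ → QQ gg) → (ℕ → Fin kk) := fun x i => e (x i)
  have de : ∀ x, dc (ec x) = x := fun x => by funext i; simp [dc, ec]
  have ed : ∀ x, ec (dc x) = x := fun x => by funext i; simp [dc, ec]
  let XX : Set (ℕ → Fin kk) := {x | dc x ∈ X gg}
  have hmem : ∀ x : XX, dc x.1 ∈ X gg := fun x => x.2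
  -- the generators
  have hXact : ∀ s, ∀ x ∈ X gg, (sys gg).act s x ∈ X gg := fun s x hx => X_FW gg [s] hx
  let fn : Gen → XX → XX := fun s x => ⟨ec ((sys gg).act s (dc x.1)), by
    show dc (ec ((sys gg).act s (dc x.1))) ∈ X gg
    rw [de]; exact hXact s _ (hmem x)⟩
  have fn_inv : ∀ s x, fn s (fn s x) = x := by
    intro s x
    apply Subtype.ext
    show ec ((sys gg).act s (dc (ec ((sys gg).act s (dc x.1))))) = x.1
    rw [de, X_inv gg s (hmem x), ed]
  let ρ : Gen → Equiv.Perm XX := fun s => ⟨fn s, fn s, fn_inv s, fn_inv s⟩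
  have ρ_val : ∀ s (x : XX), ((ρ s x : XX) : ℕ → Fin kk) =
      ec ((sys gg).act s (dc x.1)) := fun s x => rfl
  have ρ_inv : ∀ s, (ρ s)⁻¹ = ρ s := by
    intro s
    rw [inv_eq_iff_mul_eq_one]
    ext1 x
    exact fn_inv s x
  have prod_val : ∀ (w : List Gen) (x : XX),
      (((w.map ρ).prod x : XX) : ℕ → Fin kk) = ec (FW gg w (dc x.1)) := by
    intro w
    induction w with
    | nil => intro x; exact (ed x.1).symm
    | cons s w ih =>
      intro x
      rw [List.map_cons, List.prod_cons, Equiv.Perm.mul_apply, ρ_val, ih, de, FW_cons]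
  have prod_ext : ∀ w w' : List Gen, (∀ y : List (DD gg), actW gg w y = actW gg w' y) →
      (w.map ρ).prod = (w'.map ρ).prod := by
    intro w w' h
    ext1 x
    apply Subtype.ext
    rw [prod_val, prod_val, X_ext gg h (hmem x)]
  have cont : ∀ s, Continuous (ρ s : XX → XX) := by
    intro s
    apply Continuous.subtype_mk
    apply continuous_pi
    intro i
    have : (fun x : XX => ec ((sys gg).act s (dc x.1)) i) =
        (fun t : Fin kk × Fin kk =>
          e ((sys gg).loc s (e.symm t.1) (e.symm t.2))) ∘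
        (fun x : XX => (x.1 i, x.1 (i + 1))) := by
      funext x
      rfl
    show Continuous (fun x : XX => ec ((sys gg).act s (dc x.1)) i)
    rw [this]
    exact continuous_of_discreteTopology.comp
      (((continuous_apply i).comp continuous_subtype_val).prodMk
        ((continuous_apply (i + 1)).comp continuous_subtype_val))
  have comm : ∀ s, ∀ x y : XX, ((y : ℕ → Fin kk) =
      fun n => (x : ℕ → Fin kk) (n + 1)) →
        ((ρ s y : XX) : ℕ → Fin kk) =
          fun n => ((ρ s x : XX) : ℕ → Fin kk) (n + 1) := by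
    intro s x y hxy
    rw [ρ_val, ρ_val, hxy]
    rfl
  let tt : Equiv.Perm XX := ρ 0 * ρ 1
  have tt_pow : ∀ n, tt ^ n = (((List.replicate n ([0, 1] : List Gen)).flatten).map ρ).prod := by
    intro n
    induction n with
    | zero => rfl
    | succ n ih =>
      rw [List.replicate_succ, List.flatten_cons, List.map_append, List.prod_append, ← ih,
        pow_succ']
      simp [tt]
  have act_rep : ∀ n (y : List (DD gg)),
      actW gg ((List.replicate n ([0, 1] : List Gen)).flatten) y = (tau gg)^[n] y := by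
    intro n
    induction n with
    | zero => intro y; rfl
    | succ n ih =>
      intro y
      rw [List.replicate_succ, List.flatten_cons, actW_append, ih, Function.iterate_succ_apply']
      rfl
  refine ⟨kk, XX, ?_, ?_, insert tt (Finset.univ.image ρ), tt,
    Finset.mem_insert_self _ _, ?_, ?_, ?_⟩
  · -- closed
    rw [← closure_subset_iff_isClosed]
    intro x hx
    show dc x ∈ X gg
    apply X_closed
    intro m
    have hopen : IsOpen {y : ℕ → Fin kk | ∀ i ∈ Finset.range m, y i = x i} := by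
      have : {y : ℕ → Fin kk | ∀ i ∈ Finset.range m, y i = x i} =
          ⋂ i ∈ Finset.range m, (fun y : ℕ → Fin kk => y i) ⁻¹' {x i} := by
        ext y; simp
      rw [this]
      apply isOpen_biInter_finset
      intro i _
      exact (isOpen_discrete {x i}).preimage (continuous_apply i)
    obtain ⟨y, hy, hyX⟩ := mem_closure_iff.1 hx _ hopen (fun i _ => rfl)
    exact ⟨dc y, hyX, fun i hi => congrArg e.symm (hy i (Finset.mem_range.2 hi))⟩
  · intro x hx
    exact X_shift gg hx
  · intro h hh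
    rw [Finset.mem_insert, Finset.mem_image] at hh
    rcases hh with rfl | ⟨s, _, rfl⟩
    · refine ⟨(cont 0).comp (cont 1), ?_⟩
      intro x y hxy
      exact comm 0 (ρ 1 x) (ρ 1 y) (comm 1 x y hxy)
    · exact ⟨cont s, comm s⟩
  · intro hfin
    obtain ⟨n, hn0, hn⟩ := isOfFinOrder_iff_pow_eq_one.1 hfin
    obtain ⟨y, hy⟩ := tau_inf gg n (by omega)
    apply hy
    have hx : dc (ec ((sys gg).S y)) ∈ X gg := by rw [de]; exact S_mem gg y
    have h1 : (((tt ^ n) ⟨ec ((sys gg).S y), hx⟩ : XX) : ℕ → Fin kk) =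
        ec ((sys gg).S y) := by
      rw [hn]; rfl
    rw [tt_pow, prod_val, de, FW_S, act_rep] at h1
    have h2 : (sys gg).S ((tau gg)^[n] y) = (sys gg).S y := by
      have := congrArg dc h1
      rwa [de, de] at this
    apply S_digits gg
    · rw [← act_rep, actW_length]
    · intro i
      rw [h2]
  · intro ε hε
    obtain ⟨N, hN⟩ := exists_nat_gt (4 * ((512 * (gg + 1) : ℕ) : ℝ) ^ 3 / ε ^ 2)
    refine ⟨N + 1, fun n hn => ?_⟩
    have hn1 : 1 ≤ n := by omega
    have hKone : 1 < 512 * (gg + 1) := by omega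
    obtain ⟨w, hw1, hw2⟩ := short_words gg C hC2 hC (Nat.log (512 * (gg + 1)) n + 1) n
      (Nat.lt_pow_succ_log_self hKone n)
    refine ⟨w.map ρ, ?_, ?_, ?_⟩
    · rw [List.length_map]
      have h1 : (512 * (gg + 1)) ^ (Nat.log (512 * (gg + 1)) n) ≤ n :=
        Nat.pow_log_le_self _ (by omega)
      have h2 : (C ^ (Nat.log (512 * (gg + 1)) n + 1)) ^ 2 ≤ (512 * (gg + 1)) * n := by
        calc (C ^ (Nat.log (512 * (gg + 1)) n + 1)) ^ 2
            = (C ^ 2) ^ (Nat.log (512 * (gg + 1)) n + 1) := by rw [← pow_mul, ← pow_mul, mul_comm]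
          _ ≤ (512 * (gg + 1)) ^ (Nat.log (512 * (gg + 1)) n + 1) := Nat.pow_le_pow_left hK _
          _ = (512 * (gg + 1)) * (512 * (gg + 1)) ^ (Nat.log (512 * (gg + 1)) n) := pow_succ' _ _
          _ ≤ (512 * (gg + 1)) * n := Nat.mul_le_mul_left _ h1
      have h3 : (w.length : ℝ) ≤ 2 * ((512 * (gg + 1) : ℕ) : ℝ) *
          (C : ℝ) ^ (Nat.log (512 * (gg + 1)) n + 1) := by exact_mod_cast hw2
      have h4 : ((C : ℝ) ^ (Nat.log (512 * (gg + 1)) n + 1)) ^ 2 ≤
          ((512 * (gg + 1) : ℕ) : ℝ) * n := by exact_mod_cast h2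
      have h5 : 4 * ((512 * (gg + 1) : ℕ) : ℝ) ^ 3 ≤ ε ^ 2 * n := by
        have h6 : (N : ℝ) ≤ n := by exact_mod_cast (by omega : N ≤ n)
        have h7 : 4 * ((512 * (gg + 1) : ℕ) : ℝ) ^ 3 / ε ^ 2 < n := lt_of_lt_of_le hN h6
        rw [div_lt_iff₀ (by positivity)] at h7
        linarith
      have hKK : (0 : ℝ) < ((512 * (gg + 1) : ℕ) : ℝ) := by
        exact_mod_cast (by omega : 0 < 512 * (gg + 1))
      generalize hKr : ((512 * (gg + 1) : ℕ) : ℝ) = K at h3 h4 h5 hKK
      generalize hCr : (C : ℝ) ^ (Nat.log (512 * (gg + 1)) n + 1) = c at h3 h4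
      have hc0 : (0 : ℝ) ≤ c := by rw [← hCr]; positivity
      have h9 : (0 : ℝ) < n := by exact_mod_cast hn1
      have h8 : (0 : ℝ) ≤ w.length := Nat.cast_nonneg _
      by_contra hcon
      push Not at hcon
      have h11 : ε * n < 2 * K * c := lt_of_lt_of_le hcon h3
      have h12 : (ε * n) ^ 2 < (2 * K * c) ^ 2 := pow_lt_pow_left₀ h11 (by positivity) (by norm_num)
      have h13 : (2 * K * c) ^ 2 ≤ 4 * K ^ 3 * n := by
        have : (2 * K * c) ^ 2 = 4 * K ^ 2 * c ^ 2 := by ring
        rw [this]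
        have h14 : 4 * K ^ 2 * c ^ 2 ≤ 4 * K ^ 2 * (K * n) :=
          mul_le_mul_of_nonneg_left h4 (by positivity)
        linarith [h14, (by ring : 4 * K ^ 2 * (K * n) = 4 * K ^ 3 * n)]
      have h15 : 4 * K ^ 3 * n ≤ ε ^ 2 * n * n := mul_le_mul_of_nonneg_right h5 h9.le
      have h16 : (ε * n) ^ 2 = ε ^ 2 * n * n := by ring
      linarith
    · intro h hh
      left
      obtain ⟨s, _, rfl⟩ := List.mem_map.1 hh
      exact Finset.mem_insert_of_mem (Finset.mem_image_of_mem _ (Finset.mem_univ s))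
    · rw [tt_pow]
      apply prod_ext
      intro y
      rw [hw1, act_rep]

end Pool.Agent.S06503
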