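import Pool.Statements.S06521
import Pool.Agent.H197R3.NU4

set_option autoImplicit false
open Pool Pool.MP_e7ec4f_an

namespace Pool.Agent.S06521

/-- There is a real or complex quasi-Banach space with a bounded biorthogonal basis that is nearly unconditional (coordinates at least a can be projected boundedly) but not truncation quasi-greedy. -/
theorem result :
    ∃ (𝕂 : Type) (_ : RCLike 𝕂) (X : Type) (_ : AddCommGroup X) (_ : Module 𝕂 X)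
      (q : X → ℝ) (κ : ℝ) (x : ℕ → X) (xs : ℕ → X →ₗ[𝕂] 𝕂),
      (∀ f : X, 0 ≤ q f) ∧
      (∀ f : X, q f = 0 → f = 0) ∧
      (∀ (c : 𝕂) (f : X), q (c • f) = ‖c‖ * q f) ∧
      (∀ f g : X, q (f + g) ≤ κ * (q f + q g)) ∧
      (∀ u : ℕ → X, (∀ ε : ℝ, 0 < ε → ∃ N : ℕ, ∀ m ≥ N, ∀ n ≥ N, q (u m - u n) < ε) →
        ∃ f : X, ∀ ε : ℝ, 0 < ε → ∃ N : ℕ, ∀ n ≥ N, q (u n - f) < ε) ∧
      (∃ B : ℝ, ∀ n : ℕ, q (x n) ≤ B) ∧
      (∃ M : ℝ, ∀ (n : ℕ) (f : X), ‖xs n f‖ ≤ M * q f) ∧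
      (∀ m n : ℕ, xs m (x n) = if m = n then 1 else 0) ∧
      (∀ f : X, ∀ ε : ℝ, 0 < ε → ∃ g ∈ Submodule.span 𝕂 (Set.range x), q (f - g) < ε) ∧
      (∀ a : ℝ, 0 < a → a ≤ 1 → ∃ C : ℝ, ∀ f : X, (∀ n : ℕ, ‖xs n f‖ ≤ 1) →
        ∀ A : Finset ℕ, (∀ n ∈ A, a ≤ ‖xs n f‖) →
          q (∑ n ∈ A, xs n f • x n) ≤ C * q f) ∧
      ¬ (∃ C : ℝ, ∀ f : X, ∀ A : Finset ℕ, A.Nonempty →
          (∀ n ∈ A, ∀ k : ℕ, k ∉ A → ‖xs k f‖ ≤ ‖xs n f‖) →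
          ∀ t : ℝ, (∀ n ∈ A, t ≤ ‖xs n f‖) →
            t * q (∑ n ∈ A, (xs n f / ((‖xs n f‖ : ℝ) : 𝕂)) • x n) ≤ C * q f) := by
  refine ⟨ℝ, inferInstance, ↥H197R3.NU.XS, inferInstance, inferInstance, fun f => ‖f.1‖, 1,
    H197R3.NU.bx, H197R3.NU.bxs, ?_, ?_, ?_, ?_, ?_, ⟨1, H197R3.NU.norm_bx⟩,
    ⟨1, H197R3.NU.norm_bxs⟩, H197R3.NU.biorth, ?_, ?_, H197R3.NU.not_tqg⟩
  · intro f
    exact norm_nonneg f.1
  · intro f hf
    exact Subtype.ext (norm_eq_zero.1 (hf : ‖f.1‖ = 0))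
  · intro c f
    exact norm_smul c f.1
  · intro f g
    show ‖f.1 + g.1‖ ≤ 1 * (‖f.1‖ + ‖g.1‖)
    rw [one_mul]
    exact norm_add_le f.1 g.1
  · intro u hu
    have hc : CauchySeq (fun n => (u n).1) := by
      rw [Metric.cauchySeq_iff]
      intro ε hε
      obtain ⟨N, hN⟩ := hu ε hε
      refine ⟨N, fun m hm n hn => ?_⟩
      rw [dist_eq_norm]
      exact hN m hm n hn
    obtain ⟨f, hf⟩ := cauchySeq_tendsto_of_complete hc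
    have hmem : f ∈ H197R3.NU.XS :=
      (Submodule.isClosed_topologicalClosure _).mem_of_tendsto hf
        (Filter.Eventually.of_forall fun n => (u n).2)
    refine ⟨⟨f, hmem⟩, fun ε hε => ?_⟩
    rw [Metric.tendsto_atTop] at hf
    obtain ⟨N, hN⟩ := hf ε hε
    refine ⟨N, fun n hn => ?_⟩
    have := hN n hn
    rw [dist_eq_norm] at this
    exact this
  · intro f ε hε
    exact H197R3.NU.dense f ε hε
  · intro a ha _
    exact ⟨1 + 5 / a + 4 / a ^ 2, fun f hf A hA => H197R3.NU.near_unc a ha f hf A hA⟩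

end Pool.Agent.S06521
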