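import Pool.Statements.S06524
import Pool.Agent.H805R3.Fin1

set_option autoImplicit false
open MeasureTheory Filter Topology Metric
open Pool Pool.MP_e7f1de_an

namespace Pool.Agent.S06524

open Pool.Agent.H805R3.Rough in
/-- The negation of the preceding statement: For every kernel homogeneous of degree -n, mean zero on the sphere, with angular part in L log L, there is C such that the principal-value operator sends each bounded compactly supported f with ∣f∣≤M to a function of BMO norm at most C·M. -/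
theorem result :
    ¬ (∀ (n : ℕ), 1 ≤ n →
    ∀ (k : EuclideanSpace ℝ (Fin n) → ℝ), Measurable k →
    (∀ x : EuclideanSpace ℝ (Fin n), x ≠ 0 → ∀ t : ℝ, 0 < t →
        k (t • x) = t ^ (-(n : ℤ)) * k x) →
    IntegrableOn k {x : EuclideanSpace ℝ (Fin n) | 1 ≤ ‖x‖ ∧ ‖x‖ ≤ 2} volume →
    (∫ x in {x : EuclideanSpace ℝ (Fin n) | 1 ≤ ‖x‖ ∧ ‖x‖ ≤ 2}, k x) = 0 →
    IntegrableOn (fun x => |k x| * max 0 (Real.log |k x|))
        {x : EuclideanSpace ℝ (Fin n) | 1 ≤ ‖x‖ ∧ ‖x‖ ≤ 2} volume →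
    ∃ C : ℝ, ∀ (f : EuclideanSpace ℝ (Fin n) → ℝ) (M : ℝ),
      Measurable f → HasCompactSupport f → (∀ x, |f x| ≤ M) →
      ∀ g : EuclideanSpace ℝ (Fin n) → ℝ,
        (∀ᵐ x ∂(volume : Measure (EuclideanSpace ℝ (Fin n))),
          Tendsto (fun ε : ℝ => ∫ y in {y : EuclideanSpace ℝ (Fin n) | ε < ‖y‖}, k y * f (x - y))
            (𝓝[>] 0) (𝓝 (g x))) →
        ∀ (c : EuclideanSpace ℝ (Fin n)) (r : ℝ), 0 < r →
          IntegrableOn g (ball c r) volume ∧
          (⨍ x in ball c r, |g x - ⨍ y in ball c r, g y|) ≤ C * M) := by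
  intro H
  obtain ⟨ω, hω, hω2, hω0, hmain⟩ := main_C
  set ι : EuclideanSpace ℝ (Fin 2) ≃ₗᵢ[ℝ] ℂ := Complex.orthonormalBasisOneI.repr.symm with hι
  have hmp : MeasurePreserving ι volume volume := ι.measurePreserving
  have hemb : MeasurableEmbedding ι := ι.toHomeomorph.measurableEmbedding
  have hk := H 2 (by norm_num) (fun x => ker ω (ι x)) ((ker_meas hω).comp hmp.measurable) ?_ ?_ ?_ ?_
  · obtain ⟨C, hC⟩ := hk
    obtain ⟨f, g, hfm, ⟨R, hfR⟩, hf1, hlim, hosc⟩ := hmain C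
    have h1 := hC (fun x => f (ι x)) 1 (hfm.comp hmp.measurable) ?_ (fun x => hf1 _)
      (fun x => g (ι x)) ?_ 0 1 one_pos
    · obtain ⟨h2, h3⟩ := h1
      have hball : ball (0 : EuclideanSpace ℝ (Fin 2)) 1 = ι ⁻¹' (ball (0:ℂ) 1) := by
        ext x
        simp
      rw [hball] at h2 h3
      have h4 : IntegrableOn g (ball (0:ℂ) 1) := (hmp.integrableOn_comp_preimage hemb).1 h2
      have h5 := hosc h4
      have hv : (volume : Measure (EuclideanSpace ℝ (Fin 2))).real (ι ⁻¹' (ball (0:ℂ) 1))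
          = (volume : Measure ℂ).real (ball (0:ℂ) 1) := by
        unfold Measure.real
        rw [hmp.measure_preimage measurableSet_ball.nullMeasurableSet]
      have h6 : ⨍ y in ι ⁻¹' (ball (0:ℂ) 1), g (ι y) = ⨍ y in ball (0:ℂ) 1, g y := by
        rw [setAverage_eq, setAverage_eq, hv, hmp.setIntegral_preimage_emb hemb]
      rw [h6] at h3
      have h7 : ∀ a : ℝ, ⨍ x in ι ⁻¹' (ball (0:ℂ) 1), |g (ι x) - a|
          = ⨍ x in ball (0:ℂ) 1, |g x - a| := by
        intro a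
        rw [setAverage_eq, setAverage_eq, hv,
          hmp.setIntegral_preimage_emb hemb (fun x => |g x - a|)]
      rw [h7, mul_one] at h3
      exact absurd h3 (not_le.2 h5)
    · refine HasCompactSupport.intro (isCompact_closedBall (0 : EuclideanSpace ℝ (Fin 2)) R) ?_
      intro x hx
      apply hfR
      rw [LinearIsometryEquiv.norm_map]
      simpa using hx
    · have h8 := hmp.quasiMeasurePreserving.ae hlim
      filter_upwards [h8] with x hx
      refine hx.congr fun ε => ?_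
      have hset : {y : EuclideanSpace ℝ (Fin 2) | ε < ‖y‖} = ι ⁻¹' {y : ℂ | ε < ‖y‖} := by
        ext y; simp
      rw [hset, ← hmp.setIntegral_preimage_emb hemb (fun y => ker ω y * f (ι x - y))]
      simp only [map_sub]
  · intro x _ t ht
    have h1 : ι (t • x) = (t : ℂ) * ι x := by
      rw [map_smul, Complex.real_smul]
    rw [h1, ker_hom _ ht]
    congr 1
  · have hset : {x : EuclideanSpace ℝ (Fin 2) | 1 ≤ ‖x‖ ∧ ‖x‖ ≤ 2} = ι ⁻¹' {y : ℂ | 1 ≤ ‖y‖ ∧ ‖y‖ ≤ 2} := by
      ext y; simp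
    rw [hset]
    exact (hmp.integrableOn_comp_preimage hemb (f := ker ω)).2 (ker_intOn_annulus hω hω2 one_pos)
  · have hset : {x : EuclideanSpace ℝ (Fin 2) | 1 ≤ ‖x‖ ∧ ‖x‖ ≤ 2} = ι ⁻¹' {y : ℂ | 1 ≤ ‖y‖ ∧ ‖y‖ ≤ 2} := by
      ext y; simp
    rw [hset, hmp.setIntegral_preimage_emb hemb (ker ω)]
    exact ker_radial_zero hω0 (S := Set.Icc 1 2) measurableSet_Icc
  · have hset : {x : EuclideanSpace ℝ (Fin 2) | 1 ≤ ‖x‖ ∧ ‖x‖ ≤ 2} = ι ⁻¹' {y : ℂ | 1 ≤ ‖y‖ ∧ ‖y‖ ≤ 2} := by
      ext y; simp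
    rw [hset]
    refine (hmp.integrableOn_comp_preimage hemb
      (f := fun z => |ker ω z| * max 0 (Real.log |ker ω z|))).2 ?_
    refine Integrable.mono' (ker_sq_intOn_annulus hω hω2 one_pos) ?_ ?_
    · have h1 : Measurable (fun z => |ker ω z|) := (ker_meas hω).norm
      exact (h1.mul (measurable_const.max (Real.measurable_log.comp h1))).aestronglyMeasurable
    · refine Eventually.of_forall fun z => ?_
      rw [Real.norm_of_nonneg (by positivity)]
      rw [← sq_abs (ker ω z), sq]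
      refine mul_le_mul_of_nonneg_left ?_ (abs_nonneg _)
      exact max_le (abs_nonneg _) (Real.log_le_self (abs_nonneg _))

end Pool.Agent.S06524
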