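import Pool.Statements.S06533
import Pool.Agent.H293R3.OR6

set_option autoImplicit false
open MeasureTheory Filter Topology
open Pool Pool.MP_e8a8db_an

namespace Pool.Agent.S06533

/-- Every nontrivial mixing measure-preserving system on a probability space has an over-recurrent set, or a bounded non-constant function f with ∫ f·f∘T^n ≥ (∫ f)^2 for all n ≥ 1. -/
theorem result :
    ∀ (X : Type) [MeasurableSpace X] (μ : Measure X) [IsProbabilityMeasure μ] (T : X → X),
      MeasurePreserving T μ μ →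
      (∃ A : Set X, MeasurableSet A ∧ 0 < μ A ∧ μ A < 1) →
      (∀ A B : Set X, MeasurableSet A → MeasurableSet B →
        Tendsto (fun n : ℕ => μ (A ∩ T^[n] ⁻¹' B)) atTop (𝓝 (μ A * μ B))) →
      (∃ A : Set X, MeasurableSet A ∧ 0 < μ A ∧ μ A < 1 ∧
          ∀ n : ℕ, 1 ≤ n → μ A ^ 2 ≤ μ (A ∩ T^[n] ⁻¹' A)) ∨
      (∃ f : X → ℝ, MemLp f ⊤ μ ∧ (¬ ∃ c : ℝ, f =ᵐ[μ] fun _ => c) ∧
          ∀ n : ℕ, 1 ≤ n → (∫ x, f x ∂μ) ^ 2 ≤ ∫ x, f x * f (T^[n] x) ∂μ) := by
  intro X _ μ _ T hT h0 hmix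
  right
  have hM : Pool.Agent.H293R3.OR.Mix μ T := by
    intro A B hA hB
    have h1 := (ENNReal.tendsto_toReal (ENNReal.mul_ne_top (measure_ne_top μ A)
      (measure_ne_top μ B))).comp (hmix A B hA hB)
    rw [ENNReal.toReal_mul] at h1
    exact h1
  have h0' : ∃ A : Set X, MeasurableSet A ∧ 0 < μ.real A ∧ μ.real A < 1 := by
    obtain ⟨A, hA, hA0, hA1⟩ := h0
    refine ⟨A, hA, ENNReal.toReal_pos hA0.ne' (measure_ne_top μ A), ?_⟩
    have := (ENNReal.toReal_lt_toReal (measure_ne_top μ A) ENNReal.one_ne_top).2 hA1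
    rwa [ENNReal.toReal_one] at this
  obtain ⟨f, hf, hint, hc, hpos⟩ := Pool.Agent.H293R3.OR.main_exists hT hM h0'
  refine ⟨f, ?_, ?_, ?_⟩
  · obtain ⟨C, hC⟩ := hf.2
    exact memLp_top_of_bound hf.1.aestronglyMeasurable C
      (Eventually.of_forall (fun x => by rw [Real.norm_eq_abs]; exact hC x))
  · rintro ⟨c, hfc⟩
    have hc0 : c = 0 := by
      have h1 := integral_congr_ae hfc
      rw [hint] at h1
      simpa using h1.symm
    have h2 : Pool.Agent.H293R3.OR.corr μ T f f 0 = 0 := by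
      unfold Pool.Agent.H293R3.OR.corr
      have h3 : (fun x => f x * f (T^[0] x)) =ᵐ[μ] fun _ => (0 : ℝ) := by
        filter_upwards [hfc] with x hx
        rw [Function.iterate_zero, id, hx, hc0]
        ring
      rw [integral_congr_ae h3]
      simp
    linarith
  · intro n _
    rw [hint]
    have := hc n
    unfold Pool.Agent.H293R3.OR.corr at this
    simpa using this

end Pool.Agent.S06533
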