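import Pool.Statements.S06601
import Pool.Agent.H657R3.GFinal

set_option autoImplicit false
open Pool Pool.MP_ed8a78_an

namespace Pool.Agent.S06601

open Pool.Agent.H657R3 in
lemma mulVec_eq (i : Fin 3) (v : Fin 3 → ℝ) :
    ((![!![1, 0, 0; 2/5, 2/5, 1/5; 2/5, 1/5, 2/5],
            !![2/5, 2/5, 1/5; 0, 1, 0; 1/5, 2/5, 2/5],
            !![2/5, 1/5, 2/5; 1/5, 2/5, 2/5; 0, 0, 1]] : Fin 3 → Matrix (Fin 3) (Fin 3) ℝ) i).mulVec v
      = S i v := by
  fin_cases i <;> ext j <;> fin_cases j <;>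
    simp [Matrix.mulVec, dotProduct, Fin.sum_univ_three, S]

open Pool.Agent.H657R3 in
lemma sum_words (F : Vec → Vec → ℝ) (n : ℕ) : ∀ x y : Vec,
    ∑ w : Fin n → Fin 3, F ((List.ofFn w).foldl (fun v i => S i v) x)
      ((List.ofFn w).foldl (fun v i => S i v) y) = (P2^[n] F) x y := by
  induction n with
  | zero => intro x y; simp
  | succ n ih =>
    intro x y
    rw [Function.iterate_succ']
    show _ = ∑ i, (P2^[n] F) (S i x) (S i y)
    rw [← (Fin.consEquiv (fun _ : Fin (n + 1) => Fin 3)).sum_comp]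
    rw [Fintype.sum_prod_type]
    apply Finset.sum_congr rfl
    intro i _
    rw [← ih]
    apply Finset.sum_congr rfl
    intro w _
    simp [Fin.consEquiv, List.ofFn_succ]

open Pool.Agent.H657R3 in
lemma P2_En (n : ℕ) : ∀ x y : Vec,
    (P2^[n] (fun _ y => En y)) x y = (3 / 5) ^ n * En y := by
  induction n with
  | zero => intro x y; simp
  | succ n ih =>
    intro x y
    rw [Function.iterate_succ']
    show ∑ i, (P2^[n] (fun _ y => En y)) (S i x) (S i y) = _
    simp only [ih]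
    rw [← Finset.mul_sum, En_S_sum, pow_succ]
    ring

/-- For any two nonconstant harmonic functions on the Sierpinski gasket (via boundary values and harmonic extension matrices) and any 1<p<log15/log9, the level-n sums of ν₁(cell)^p ν₂(cell)^(1−p) over all n-cells are bounded uniformly in n. -/
theorem result :
    ∀ (A : Fin 3 → Matrix (Fin 3) (Fin 3) ℝ),
      A = ![!![1, 0, 0; 2/5, 2/5, 1/5; 2/5, 1/5, 2/5],
            !![2/5, 2/5, 1/5; 0, 1, 0; 1/5, 2/5, 2/5],
            !![2/5, 1/5, 2/5; 1/5, 2/5, 2/5; 0, 0, 1]] →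
    ∀ (E : (Fin 3 → ℝ) → ℝ),
      (∀ v : Fin 3 → ℝ, E v = (v 0 - v 1) ^ 2 + (v 1 - v 2) ^ 2 + (v 0 - v 2) ^ 2) →
    ∀ (ν : (Fin 3 → ℝ) → (n : ℕ) → (Fin n → Fin 3) → ℝ),
      (∀ (x : Fin 3 → ℝ) (n : ℕ) (w : Fin n → Fin 3),
        ν x n w = (5/3 : ℝ) ^ n *
          E ((List.ofFn w).foldl (fun v i => (A i).mulVec v) x) / E x) →
    ∀ x y : Fin 3 → ℝ, E x ≠ 0 → E y ≠ 0 →
    ∀ p : ℝ, 1 < p → p < Real.log 15 / Real.log 9 →
      ∃ C : ℝ, ∀ n : ℕ,
        ∑ w : Fin n → Fin 3, (ν x n w) ^ p * (ν y n w) ^ (1 - p) ≤ C := by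
  intro A hA E hE ν hν x y hx hy p hp1 hp2
  have hEn : ∀ v, E v = Pool.Agent.H657R3.En v := by
    intro v; rw [hE]; rfl
  have hstep : (fun (v : Fin 3 → ℝ) (i : Fin 3) => (A i).mulVec v) =
      (fun v i => Pool.Agent.H657R3.S i v) := by
    funext v i; rw [hA]; exact mulVec_eq i v
  have hxp : 0 < Pool.Agent.H657R3.En x := by
    rw [hEn] at hx
    exact lt_of_le_of_ne (Pool.Agent.H657R3.En_nonneg x) (Ne.symm hx)
  have hyp : 0 < Pool.Agent.H657R3.En y := by
    rw [hEn] at hy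
    exact lt_of_le_of_ne (Pool.Agent.H657R3.En_nonneg y) (Ne.symm hy)
  -- positivity along words
  have hpos : ∀ (n : ℕ) (w : Fin n → Fin 3) (v : Fin 3 → ℝ), 0 < Pool.Agent.H657R3.En v →
      0 < Pool.Agent.H657R3.En ((List.ofFn w).foldl (fun v i => Pool.Agent.H657R3.S i v) v) := by
    intro n w v hv
    generalize List.ofFn w = l
    induction l generalizing v with
    | nil => simpa using hv
    | cons i l ih => exact ih _ (Pool.Agent.H657R3.En_S_pos hv)
  -- the auxiliary exponent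
  set p' : ℝ := max p (16 / 13) with hp'
  have hp'1 : 16 / 13 ≤ p' := le_max_right _ _
  have hpp' : p ≤ p' := le_max_left _ _
  have hg : (9 : ℝ) ^ p' / 15 < 1 := by
    rw [div_lt_one (by norm_num)]
    rcases le_total p (16 / 13) with h | h
    · have e : p' = 16 / 13 := by rw [hp']; exact max_eq_right h
      rw [e]
      have e1 : (9 : ℝ) ^ (16 / 13 : ℝ) = ((9 : ℝ) ^ (16 : ℕ)) ^ ((1 : ℝ) / 13) := by
        rw [← Real.rpow_natCast, ← Real.rpow_mul (by norm_num)]; norm_num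
      have e2 : (15 : ℝ) = ((15 : ℝ) ^ (13 : ℕ)) ^ ((1 : ℝ) / 13) := by
        rw [← Real.rpow_natCast, ← Real.rpow_mul (by norm_num)]; norm_num
      rw [e1, e2]
      exact Real.rpow_lt_rpow (by positivity) (by norm_num) (by norm_num)
    · have e : p' = p := by rw [hp']; exact max_eq_left h
      rw [e]
      have hl9 : 0 < Real.log 9 := Real.log_pos (by norm_num)
      have h1 : p * Real.log 9 < Real.log 15 := by rwa [lt_div_iff₀ hl9] at hp2
      calc (9 : ℝ) ^ p = Real.exp (Real.log 9 * p) := by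
            rw [Real.rpow_def_of_pos (by norm_num)]
        _ < Real.exp (Real.log 15) := by
            apply Real.exp_lt_exp.2; rw [mul_comm]; exact h1
        _ = 15 := Real.exp_log (by norm_num)
  obtain ⟨C, hC⟩ := Pool.Agent.H657R3.JJ_bdd hp'1 hg (x := x) hyp
  set Ex := Pool.Agent.H657R3.En x with hEx
  set Ey := Pool.Agent.H657R3.En y with hEy
  refine ⟨1 + Ex ^ (-p') * Ey ^ (p' - 1) * C, fun n => ?_⟩
  have hterm : ∀ w : Fin n → Fin 3, (ν x n w) ^ p * (ν y n w) ^ (1 - p) ≤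
      (5 / 3 : ℝ) ^ n / Ey *
        Pool.Agent.H657R3.En ((List.ofFn w).foldl (fun v i => Pool.Agent.H657R3.S i v) y) +
      Ex ^ (-p') * Ey ^ (p' - 1) * (5 / 3 : ℝ) ^ n *
        Pool.Agent.H657R3.JJ p'
          ((List.ofFn w).foldl (fun v i => Pool.Agent.H657R3.S i v) x)
          ((List.ofFn w).foldl (fun v i => Pool.Agent.H657R3.S i v) y) := by
    intro w
    have hX := hpos n w x hxp
    have hY := hpos n w y hyp
    rw [hν, hν, hstep, hEn, hEn, hEn, hEn, ← hEx, ← hEy]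
    set X := Pool.Agent.H657R3.En ((List.ofFn w).foldl (fun v i => Pool.Agent.H657R3.S i v) x)
      with hXdef
    set Y := Pool.Agent.H657R3.En ((List.ofFn w).foldl (fun v i => Pool.Agent.H657R3.S i v) y)
      with hYdef
    have h53 : (0 : ℝ) < (5 / 3) ^ n := by positivity
    set a : ℝ := (5 / 3 : ℝ) ^ n * X / Ex with ha
    set b : ℝ := (5 / 3 : ℝ) ^ n * Y / Ey with hb
    have ha0 : 0 < a := by positivity
    have hb0 : 0 < b := by positivity
    have key : ∀ t : ℝ, a ^ t * b ^ (1 - t) = b * (a / b) ^ t := by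
      intro t
      rw [Real.div_rpow ha0.le hb0.le, Real.rpow_sub hb0, Real.rpow_one]
      field_simp
    have h1 : (a / b) ^ p ≤ 1 + (a / b) ^ p' := by
      have hab : 0 < a / b := by positivity
      rcases le_total (a / b) 1 with h | h
      · have : (a / b) ^ p ≤ 1 := Real.rpow_le_one hab.le h (by linarith)
        have : 0 ≤ (a / b) ^ p' := by positivity
        linarith
      · have : (a / b) ^ p ≤ (a / b) ^ p' := Real.rpow_le_rpow_of_exponent_le h hpp'
        linarith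
    rw [key p]
    have h2 := mul_le_mul_of_nonneg_left h1 hb0.le
    refine h2.trans (le_of_eq ?_)
    rw [mul_add, mul_one, ← key p']
    have h3 : a ^ p' * b ^ (1 - p') = Ex ^ (-p') * Ey ^ (p' - 1) * (5 / 3 : ℝ) ^ n *
        (X ^ p' * Y ^ (1 - p')) := by
      rw [ha, hb, Real.div_rpow (by positivity) hxp.le, Real.div_rpow (by positivity) hyp.le,
        Real.mul_rpow h53.le hX.le, Real.mul_rpow h53.le hY.le]
      have e1 : ((5 / 3 : ℝ) ^ n) ^ p' * ((5 / 3 : ℝ) ^ n) ^ (1 - p') = (5 / 3 : ℝ) ^ n := by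
        rw [← Real.rpow_add h53]; simp
      have e2 : Ex ^ (-p') = (Ex ^ p')⁻¹ := Real.rpow_neg hxp.le _
      have e3 : Ey ^ (p' - 1) = (Ey ^ (1 - p'))⁻¹ := by
        rw [← Real.rpow_neg hyp.le]; congr 1; ring
      rw [e2, e3]
      calc ((5 / 3 : ℝ) ^ n) ^ p' * X ^ p' / Ex ^ p' *
            (((5 / 3 : ℝ) ^ n) ^ (1 - p') * Y ^ (1 - p') / Ey ^ (1 - p'))
          = (Ex ^ p')⁻¹ * (Ey ^ (1 - p'))⁻¹ *
            (((5 / 3 : ℝ) ^ n) ^ p' * ((5 / 3 : ℝ) ^ n) ^ (1 - p')) * (X ^ p' * Y ^ (1 - p')) := by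
            ring
        _ = _ := by rw [e1]
    rw [h3]
    have h4 : Pool.Agent.H657R3.JJ p'
          ((List.ofFn w).foldl (fun v i => Pool.Agent.H657R3.S i v) x)
          ((List.ofFn w).foldl (fun v i => Pool.Agent.H657R3.S i v) y) = X ^ p' * Y ^ (1 - p') :=
      rfl
    rw [h4, hb]
    ring
  refine (Finset.sum_le_sum fun w _ => hterm w).trans ?_
  rw [Finset.sum_add_distrib, ← Finset.mul_sum, ← Finset.mul_sum,
    sum_words (Pool.Agent.H657R3.JJ p') n x y,
    sum_words (fun _ y => Pool.Agent.H657R3.En y) n x y, P2_En]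
  have h1 : (5 / 3 : ℝ) ^ n / Ey * ((3 / 5) ^ n * Ey) = 1 := by
    have : (5 / 3 : ℝ) ^ n * (3 / 5) ^ n = 1 := by
      rw [← mul_pow]; norm_num
    calc (5 / 3 : ℝ) ^ n / Ey * ((3 / 5) ^ n * Ey) = ((5 / 3 : ℝ) ^ n * (3 / 5) ^ n) * (Ey / Ey) := by
          ring
      _ = 1 := by rw [this, div_self hyp.ne', mul_one]
  rw [h1]
  have h2 := mul_le_mul_of_nonneg_left (hC n)
    (by positivity : (0 : ℝ) ≤ Ex ^ (-p') * Ey ^ (p' - 1))
  linarith

end Pool.Agent.S06601
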