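import Pool.Statements.S06623
import Pool.Agent.H812R3.PMDyn

set_option autoImplicit false
open Pool Pool.MP_ef2f7d_an

namespace Pool.Agent.S06623

open Pool.Agent.H812R3

/-- There is a nonempty compact metric space with two minimal homeomorphisms T, S (all forward orbits dense) such that for no point x does (T^n x, S^n x) come arbitrarily close to (x,x) for some n ≥ 1. -/
theorem result :
    ∃ (X : Type) (_ : MetricSpace X) (_ : CompactSpace X) (_ : Nonempty X) (T S : X ≃ₜ X),
      (∀ x : X, Dense (Set.range (fun n : ℕ => (⇑T)^[n] x))) ∧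
      (∀ x : X, Dense (Set.range (fun n : ℕ => (⇑S)^[n] x))) ∧
      ∀ x : X, ¬ (∀ ε : ℝ, 0 < ε →
        ∃ n : ℕ, 0 < n ∧ dist ((⇑T)^[n] x) x < ε ∧ dist ((⇑S)^[n] x) x < ε) := by
  have hmin : ∀ x : PM.X, Dense (Set.range (fun n : ℕ => (⇑PM.T)^[n] x)) := PM.T_minimal
  let S : PM.X ≃ₜ PM.X := PM.φ.trans (PM.T.trans PM.φ.symm)
  have hS : ∀ x, S x = PM.φ.symm (PM.T (PM.φ x)) := fun x => rfl
  have hiter : ∀ (n : ℕ) (x : PM.X), PM.φ ((⇑S)^[n] x) = (⇑PM.T)^[n] (PM.φ x) := by
    intro n x
    induction n with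
    | zero => rfl
    | succ n ih =>
      rw [Function.iterate_succ_apply', Function.iterate_succ_apply', hS,
        Homeomorph.apply_symm_apply, ih]
  refine ⟨PM.X, TopologicalSpace.metrizableSpaceMetric PM.X, inferInstance, PM.X_nonempty,
    PM.T, S, hmin, ?_, ?_⟩
  · intro x
    have h1 := PM.φ.symm.surjective.denseRange.dense_image PM.φ.symm.continuous (hmin (PM.φ x))
    have h2 : (fun n : ℕ => (⇑S)^[n] x) = fun n : ℕ => PM.φ.symm ((⇑PM.T)^[n] (PM.φ x)) := by
      funext n
      rw [← hiter, Homeomorph.symm_apply_apply]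
    rw [h2]
    refine h1.mono ?_
    rintro _ ⟨_, ⟨n, rfl⟩, rfl⟩
    exact ⟨n, rfl⟩
  · intro x hrec
    letI : MetricSpace PM.X := TopologicalSpace.metrizableSpaceMetric PM.X
    have hc1 : Continuous (fun z : PM.X => PM.letter z 0) := PM.letter_continuous 0
    have hc2 : Continuous (fun z : PM.X => PM.letter (PM.φ z) 0) :=
      (PM.letter_continuous 0).comp PM.φ.continuous
    have ho : IsOpen ((fun z : PM.X => PM.letter z 0) ⁻¹' {PM.letter x 0} ∩
        (fun z : PM.X => PM.letter (PM.φ z) 0) ⁻¹' {PM.letter (PM.φ x) 0}) :=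
      ((isOpen_discrete _).preimage hc1).inter ((isOpen_discrete _).preimage hc2)
    obtain ⟨ε, hε, hball⟩ := Metric.isOpen_iff.1 ho x ⟨rfl, rfl⟩
    obtain ⟨n, hn, h1, h2⟩ := hrec ε hε
    have e1 := (hball (Metric.mem_ball.2 h1)).1
    have e2 := (hball (Metric.mem_ball.2 h2)).2
    apply PM.no_return x n hn
    constructor
    · have h3 : PM.letter ((⇑PM.T)^[n] x) 0 = PM.letter x n := by
        unfold PM.letter
        rw [PM.T_iter, zero_add]
      rw [← h3]
      exact e1
    · have h3 : PM.letter ((⇑PM.T)^[n] (PM.φ x)) 0 = PM.letter (PM.φ x) n := by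
        unfold PM.letter
        rw [PM.T_iter, zero_add]
      rw [← h3, ← hiter]
      exact e2

end Pool.Agent.S06623
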