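import Pool.Statements.S06629
import Pool.Agent.H258R3.Surj
import Pool.Agent.H258R3.RFMonoid

set_option autoImplicit false
open Pool Pool.MP_efaf6a_an

namespace Pool.Agent.S06629

/-- For every commutative monoid M and finite alphabet A, every cellular automaton on A^M (finite memory set S, local rule μ, x ↦ (m ↦ μ(s ↦ x(m·s)))) that is injective is also surjective. -/
theorem result :
    ∀ (M : Type) [CommMonoid M] (A : Type) [Finite A] (S : Finset M) (μ : (S → A) → A),
      Function.Injective (fun (x : M → A) (m : M) => μ (fun s : S => x (m * s.1))) →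
      Function.Surjective (fun (x : M → A) (m : M) => μ (fun s : S => x (m * s.1))) := by
  intro M _ A _ S μ hinj
  refine Pool.Agent.H258R3.glue_right M A S μ hinj ?_
  intro N hN hS hNinj
  haveI : Monoid.FG N := (Monoid.fg_iff_submonoid_fg N).mpr hN
  exact Pool.Agent.H258R3.surj_of_fg_comm N A S (fun s => (⟨s.1, hS s⟩ : N)) μ hNinj

end Pool.Agent.S06629
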