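import Pool.Statements.S06639
import Pool.Agent.H629R3.HexG

set_option autoImplicit false
open scoped FourierTransform
open Pool Pool.MP_efeed6_an

namespace Pool.Agent.S06639

/-- There is a nonzero real-valued radial Schwartz function on the plane such that it, its radial derivative, its Fourier transform and that transform's radial derivative all vanish at every positive radius (4/3)^(1/4)·sqrt(j²+jk+k²), j,k integers. -/
theorem result :
    ∃ f : SchwartzMap (EuclideanSpace ℝ (Fin 2)) ℂ,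
      (∀ x y : EuclideanSpace ℝ (Fin 2), ‖x‖ = ‖y‖ → f x = f y) ∧
      (∀ x : EuclideanSpace ℝ (Fin 2), (f x).im = 0) ∧
      f ≠ 0 ∧
      ∀ r : ℝ, 0 < r →
        (∃ j k : ℤ, r = (4 / 3 : ℝ) ^ ((1 : ℝ) / 4) *
            Real.sqrt ((j : ℝ) ^ 2 + (j : ℝ) * (k : ℝ) + (k : ℝ) ^ 2)) →
        f (r • EuclideanSpace.single (0 : Fin 2) (1 : ℝ)) = 0 ∧
        deriv (fun t : ℝ => f (t • EuclideanSpace.single (0 : Fin 2) (1 : ℝ))) r = 0 ∧
        𝓕 (f : EuclideanSpace ℝ (Fin 2) → ℂ)
            (r • EuclideanSpace.single (0 : Fin 2) (1 : ℝ)) = 0 ∧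
        deriv (fun t : ℝ => 𝓕 (f : EuclideanSpace ℝ (Fin 2) → ℂ)
            (t • EuclideanSpace.single (0 : Fin 2) (1 : ℝ))) r = 0 :=
  Pool.Agent.H629R3.Hex.main

end Pool.Agent.S06639
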