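import Pool.Statements.S06658
import Pool.Agent.H784R3.Lin

set_option autoImplicit false
open Pool Pool.MP_f1354d_an

namespace Pool.Agent.S06658

/-- The negation of the preceding statement: For every real Banach space X and maximally monotone A from X to subsets of X*, and every open convex U meeting dom A: any (x,x*) with x in U monotonically related to all graph points over U lies in the graph (type FPV). -/
theorem result :
    ¬ (∀ (X : Type) [NormedAddCommGroup X] [NormedSpace ℝ X] [CompleteSpace X]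
      (A : X → Set (X →L[ℝ] ℝ)),
      ((∀ x y : X, ∀ xs ∈ A x, ∀ ys ∈ A y, 0 ≤ (xs - ys) (x - y)) ∧
        (∀ (x : X) (xs : X →L[ℝ] ℝ),
          (∀ y : X, ∀ ys ∈ A y, 0 ≤ (xs - ys) (x - y)) → xs ∈ A x)) →
      ∀ U : Set X, IsOpen U → Convex ℝ U → (∃ y ∈ U, (A y).Nonempty) →
        ∀ x ∈ U, ∀ xs : X →L[ℝ] ℝ,
          (∀ y ∈ U, ∀ ys ∈ A y, 0 ≤ (xs - ys) (x - y)) → xs ∈ A x) := by
  intro H
  have hU : IsOpen {x : H784R3.X1 | 0 < x.2} := isOpen_lt continuous_const continuous_snd
  have hUc : Convex ℝ {x : H784R3.X1 | 0 < x.2} := by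
    intro x hx y hy a b ha hb hab
    change 0 < a * x.2 + b * y.2
    have hx' : 0 < x.2 := hx
    have hy' : 0 < y.2 := hy
    rcases eq_or_lt_of_le ha with h | h
    · subst h
      have : b = 1 := by linarith
      subst this
      simpa using hy'
    · have h1 := mul_pos h hx'
      have h2 := mul_nonneg hb hy'.le
      linarith
  obtain ⟨z, g, hW, hz, hg, hs⟩ := H784R3.exists_rep (1 / 2) (1 / 2) (H784R3.FF (3 / 2))
    (H784R3.summable_FF (by rw [abs_of_pos] <;> norm_num))
  have hbad := H H784R3.X1 H784R3.B2 ⟨fun x y f hf g hg => H784R3.B2_mono x y f g hf hg,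
    fun x f hx => H784R3.B2_max x f (fun y g hg => hx y g hg)⟩ _ hU hUc
    (by
      obtain ⟨x, f, hf, hx⟩ := H784R3.B2_exists (z := 2) (by norm_num)
      refine ⟨x, ?_, f, hf⟩
      change 0 < x.2
      rw [hx]; norm_num)
    z (by change 0 < z.2; rw [hz]; norm_num) g
    (by
      intro y hy v hv
      have hy' : 0 < y.2 := hy
      obtain ⟨h1, h2, h3, h4⟩ := H784R3.B2_data hv
      rw [H784R3.pairing_sub hW h1, hz, hg, h3, h4]
      have h5 : ∑' n, (H784R3.sg g n - H784R3.FF y.2 n) ^ 2 ≤ (3 / 2 - y.2) ^ 2 := by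
        simp only [hs]
        exact H784R3.FF_dist _ _ (by rw [abs_of_pos] <;> norm_num) h2
      rw [abs_of_pos hy'] at h2
      nlinarith)
  exact H784R3.B2_empty (by rw [hz, abs_of_pos] <;> norm_num) g hbad

end Pool.Agent.S06658
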