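import Pool.Statements.S06689
import Pool.Agent.H75R3.ShiftSum

set_option autoImplicit false
open MeasureTheory
open scoped ENNReal
open Pool Pool.MP_f389f8_an

namespace Pool.Agent.S06689

/-- the measure is a probability measure -/
theorem prob_Icc : IsProbabilityMeasure ((volume : Measure ℝ).restrict (Set.Icc (0:ℝ) 1)) := by
  refine ⟨?_⟩
  rw [Measure.restrict_apply_univ, Real.volume_Icc]
  simp

theorem restrict_eq : (volume : Measure ℝ).restrict (Set.Icc (0:ℝ) 1) =
    (volume : Measure ℝ).restrict (Set.Ico (0:ℝ) 1) :=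
  Measure.restrict_congr_set Ico_ae_eq_Icc.symm

theorem mp_id : MeasurePreserving (id : ℝ → ℝ) ((volume : Measure ℝ).restrict (Set.Icc (0:ℝ) 1))
    ((volume : Measure ℝ).restrict (Set.Ico (0:ℝ) 1)) := by
  refine ⟨measurable_id, ?_⟩
  rw [Measure.map_id, restrict_eq]

theorem fract_ae : ∀ᵐ x ∂((volume : Measure ℝ).restrict (Set.Icc (0:ℝ) 1)), Int.fract x = x := by
  rw [restrict_eq]
  filter_upwards [ae_restrict_mem measurableSet_Ico] with x hx
  exact Int.fract_eq_self.mpr hx

/-- For every p with 1<p<∞, p≠2, the operator of multiplication by x on complex L^p[0,1] has a compact perturbation M+K that is similar, via a bounded isomorphism, to the direct sum M⊕M on L^p⊕L^p. -/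
theorem result :
    ∀ (p : ℝ≥0∞) [Fact (1 ≤ p)], 1 < p → p ≠ ∞ → p ≠ 2 →
      ∀ M : Lp ℂ p ((volume : Measure ℝ).restrict (Set.Icc 0 1)) →L[ℂ]
          Lp ℂ p ((volume : Measure ℝ).restrict (Set.Icc 0 1)),
        (∀ f : Lp ℂ p ((volume : Measure ℝ).restrict (Set.Icc 0 1)),
          (M f : ℝ → ℂ) =ᵐ[(volume : Measure ℝ).restrict (Set.Icc 0 1)]
            fun x => (x : ℂ) * (f : ℝ → ℂ) x) →
        ∃ K : Lp ℂ p ((volume : Measure ℝ).restrict (Set.Icc 0 1)) →L[ℂ]
            Lp ℂ p ((volume : Measure ℝ).restrict (Set.Icc 0 1)),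
          IsCompactOperator K ∧
          ∃ S : (Lp ℂ p ((volume : Measure ℝ).restrict (Set.Icc 0 1)) ×
                  Lp ℂ p ((volume : Measure ℝ).restrict (Set.Icc 0 1))) ≃L[ℂ]
                Lp ℂ p ((volume : Measure ℝ).restrict (Set.Icc 0 1)),
            (M + K).comp S.toContinuousLinearMap =
              S.toContinuousLinearMap.comp (M.prodMap M) := by
  intro p _ h1 hpt h2 M hM
  have := prob_Icc
  have hd := H75R3.eh_dense (p := p) mp_id hpt (fun x => x) continuous_id (by
    filter_upwards [fract_ae] with x hx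
    exact hx)
  obtain ⟨C, H⟩ := H75R3.exists_HB mp_id h1 hpt h2 hd
  refine H.shift_sum h1 hpt h2 M (fun x => (x : ℂ)) hM ?_
  intro k
  filter_upwards [fract_ae] with x hx
  rw [id_eq, H75R3.le0_L (H75R3.nd_mem k x), ← Complex.ofReal_sub, Complex.norm_real,
    Real.norm_eq_abs, abs_sub_comm]
  have h3 := H75R3.nd_approx k x
  rw [hx] at h3
  exact h3

end Pool.Agent.S06689
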