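import Pool.Statements.S06702
import Pool.Agent.H1R3.Det.NonDet

set_option autoImplicit false
open Pool Pool.MP_f44585_an

namespace Pool.Agent.S06702

/-- The negation of the preceding statement: For every base r≥2 there is an irrational b such that whenever the base-r digits of y have zero entropy along every limiting block-frequency distribution (deterministic), so do the digits of b·y. -/
theorem result :
    ¬ (∀ D : ℕ → ℝ → Prop,
    (∀ (r : ℕ) (y : ℝ), D r y ↔
      ∀ ε : ℝ, 0 < ε → ∃ k : ℕ, 1 ≤ k ∧ ∃ N₀ : ℕ, ∀ N : ℕ, N₀ ≤ N →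
        ∑ w : Fin k → Fin r,
          Real.negMulLog
            ((((Finset.range N).filter (fun n => ∀ i : Fin k,
                ⌊y * (r : ℝ) ^ (n + (i : ℕ) + 1)⌋ - (r : ℤ) * ⌊y * (r : ℝ) ^ (n + (i : ℕ))⌋
                  = ((w i : ℕ) : ℤ))).card : ℝ) / (N : ℝ))
          ≤ ε * (k : ℝ)) →
    ∀ r : ℕ, 2 ≤ r → ∃ b : ℝ, Irrational b ∧ ∀ y : ℝ, D r y → D r (b * y)) := by
  intro hmain
  obtain ⟨b, hb, hall⟩ := hmain (fun r y => ∀ ε : ℝ, 0 < ε → ∃ k : ℕ, 1 ≤ k ∧ ∃ N₀ : ℕ,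
    ∀ N : ℕ, N₀ ≤ N →
        ∑ w : Fin k → Fin r,
          Real.negMulLog
            ((((Finset.range N).filter (fun n => ∀ i : Fin k,
                ⌊y * (r : ℝ) ^ (n + (i : ℕ) + 1)⌋ - (r : ℤ) * ⌊y * (r : ℝ) ^ (n + (i : ℕ))⌋
                  = ((w i : ℕ) : ℤ))).card : ℝ) / (N : ℝ))
          ≤ ε * (k : ℝ)) (fun r y => Iff.rfl) 2 le_rfl
  have hy := hall (Pool.Agent.H1R3.Det.yy b hb) ?_
  · have hl2 : 0 < Real.log 2 := Real.log_pos (by norm_num)
    obtain ⟨k, hk, N₀, hN₀⟩ := hy (Real.log 2 / 4) (by positivity)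
    obtain ⟨N, hN, hlarge⟩ := Pool.Agent.H1R3.Det.entropy_large b hb k hk N₀
    have h1 := hN₀ N hN
    simp only [Nat.cast_ofNat] at h1
    unfold Pool.Agent.H1R3.Det.dig at hlarge
    have h2 := hlarge.trans h1
    have hk1 : (1 : ℝ) ≤ k := by exact_mod_cast hk
    nlinarith
  · intro ε hε
    obtain ⟨N₀, hN₀⟩ := Pool.Agent.H1R3.Det.deterministic_yy b hb ε hε
    refine ⟨1, le_rfl, N₀, fun N hN => ?_⟩
    have h1 := hN₀ N hN
    unfold Pool.Agent.H1R3.Det.dig at h1
    simp only [Nat.cast_ofNat, Nat.cast_one, mul_one]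
    refine le_trans (le_of_eq ?_) h1
    have e := Fintype.sum_equiv (Equiv.funUnique (Fin 1) (Fin 2))
      (fun w : Fin 1 → Fin 2 => Real.negMulLog
            ((((Finset.range N).filter (fun n => ∀ i : Fin 1,
                ⌊Pool.Agent.H1R3.Det.yy b hb * 2 ^ (n + (i : ℕ) + 1)⌋ -
                  2 * ⌊Pool.Agent.H1R3.Det.yy b hb * 2 ^ (n + (i : ℕ))⌋
                  = ((w i : ℕ) : ℤ))).card : ℝ) / (N : ℝ)))
      (fun a : Fin 2 => Real.negMulLog
            ((((Finset.range N).filter (fun n =>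
                ⌊Pool.Agent.H1R3.Det.yy b hb * 2 ^ (n + 1)⌋ -
                  2 * ⌊Pool.Agent.H1R3.Det.yy b hb * 2 ^ n⌋
                  = ((a : ℕ) : ℤ))).card : ℝ) / (N : ℝ)))
      (by
        intro w
        congr 3
        congr 1
        ext n
        simp [Finset.mem_filter, Fin.forall_fin_one])
    rw [e, Fin.sum_univ_two]
    simp

end Pool.Agent.S06702
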