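import Pool.Statements.S06722
import Pool.Agent.H23R3.PMExt

set_option autoImplicit false
open scoped ContDiff Topology
open Pool Pool.MP_f4f698_an

namespace Pool.Agent.S06722

/-- The negation of the preceding statement: For n≥3 and 1<p<∞, every (C¹ weak) p-harmonic u on an open set satisfies, at each point, u(x) = α/2(max+min of u on the ε-ball) + β·(ball average) + o(ε²), with α=(p−2)/(p+n), β=(n+2)/(p+n). -/
theorem result :
    ¬ (∀ n : ℕ, 3 ≤ n → ∀ p : ℝ, 1 < p →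
    ∀ Ω : Set (EuclideanSpace ℝ (Fin n)), IsOpen Ω →
    ∀ u : EuclideanSpace ℝ (Fin n) → ℝ, ContDiffOn ℝ 1 u Ω →
    (∀ φ : EuclideanSpace ℝ (Fin n) → ℝ, ContDiff ℝ ∞ φ → HasCompactSupport φ →
        tsupport φ ⊆ Ω →
        ∫ y, ‖gradient u y‖ ^ (p - 2) * inner ℝ (gradient u y) (gradient φ y) = 0) →
    ∀ x ∈ Ω,
      (fun ε : ℝ => u x -
          ((p - 2) / (2 * (p + (n : ℝ))) *
              (sSup (u '' Metric.closedBall x ε) + sInf (u '' Metric.closedBall x ε)) +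
            ((n : ℝ) + 2) / (p + (n : ℝ)) * ⨍ y in Metric.ball x ε, u y))
        =o[𝓝[>] (0 : ℝ)] (fun ε : ℝ => ε ^ 2)) := by
  intro H
  obtain ⟨v, hp2, hp3, hk1, hk2, hM, hE, hr, hsM, hsm, hc, hmu⟩ :=
    Pool.Agent.H23R3.PM.exists_profile
  have h := H 3 le_rfl v.1 (by linarith) Set.univ isOpen_univ (Pool.Agent.H23R3.PM.uu v)
    (Pool.Agent.H23R3.PM.contDiff_uu v hk1).contDiffOn
    (fun φ h1 h2 _ => Pool.Agent.H23R3.PM.weak_uu v hM hE hr hp2 hk1 hmu h1 h2) 0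
    (Set.mem_univ _)
  rw [Asymptotics.isLittleO_iff] at h
  have h1 := h (abs_pos.mpr hc)
  have h2 : ∀ᶠ ε : ℝ in 𝓝[>] (0 : ℝ), 0 < ε := eventually_mem_nhdsWithin
  have h3 : ∀ᶠ ε : ℝ in 𝓝[>] (0 : ℝ), ε < 1 :=
    (eventually_lt_nhds one_pos).filter_mono nhdsWithin_le_nhds
  obtain ⟨ε, h4, hε, hε1⟩ := (h1.and (h2.and h3)).exists
  rw [Pool.Agent.H23R3.PM.sSup_uu hM hk1 hsM hε, Pool.Agent.H23R3.PM.sInf_uu hM hk1 hsm hε,
    Pool.Agent.H23R3.PM.avg_uu hM hk1 hε, Pool.Agent.H23R3.PM.uu_zero v hk1] at h4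
  have e : (0 : ℝ) - ((v.1 - 2) / (2 * (v.1 + ((3 : ℕ) : ℝ))) *
      (ε ^ v.2.1 * Pool.Agent.H23R3.PM.smax (Pool.Agent.H23R3.PM.fv v) +
        ε ^ v.2.1 * Pool.Agent.H23R3.PM.smin (Pool.Agent.H23R3.PM.fv v)) +
      (((3 : ℕ) : ℝ) + 2) / (v.1 + ((3 : ℕ) : ℝ)) *
        (ε ^ v.2.1 * (3 / (3 + v.2.1) * Pool.Agent.H23R3.PM.av (Pool.Agent.H23R3.PM.fv v)))) =
      -(ε ^ v.2.1 * Pool.Agent.H23R3.PM.cst v) := by
    unfold Pool.Agent.H23R3.PM.cst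
    push_cast
    norm_num
    ring
  rw [e, norm_neg, norm_mul, Real.norm_of_nonneg (Real.rpow_nonneg hε.le _),
    Real.norm_eq_abs, Real.norm_of_nonneg (by positivity : (0 : ℝ) ≤ ε ^ 2), mul_comm] at h4
  have h5 := le_of_mul_le_mul_left h4 (abs_pos.mpr hc)
  have h6 : ε ^ 2 < ε ^ v.2.1 := by
    have := Real.rpow_lt_rpow_of_exponent_gt hε hε1 hk2
    rwa [Real.rpow_two] at this
  linarith

end Pool.Agent.S06722
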