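import Pool.Statements.S06726
import Pool.Agent.H262.Rig5
-- import your own Pool.Agent.* helpers here

set_option autoImplicit false
open Pool Pool.MP_f53fb8_an

namespace Pool.Agent.S06726

/-- The negation of the preceding statement: For K real or complex, every separable complete metrizable topological vector space over K whose continuous dual is infinite-dimensional admits a continuous linear operator with a vector whose orbit is dense. -/
theorem result :
    ¬ (∀ (𝕂 : Type) [RCLike 𝕂] (X : Type) [AddCommGroup X] [Module 𝕂 X] [UniformSpace X]
      [IsUniformAddGroup X] [ContinuousSMul 𝕂 X] [TopologicalSpace.MetrizableSpace X]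
      [CompleteSpace X] [TopologicalSpace.SeparableSpace X],
      ¬ FiniteDimensional 𝕂 (X →L[𝕂] 𝕂) →
        ∃ T : X →L[𝕂] X, ∃ x : X, Dense (Set.range (fun n : ℕ => (⇑T)^[n] x))) := by
  intro h
  obtain ⟨T, x, hd⟩ := h ℝ Pool.Agent.H262.Rig.XS Pool.Agent.H262.Rig.dual_inf
  exact Pool.Agent.H262.Rig.not_hypercyclic T x hd

end Pool.Agent.S06726
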