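import Pool.Statements.S06729
import Pool.Agent.H259R3.UO9

set_option autoImplicit false
open scoped ComplexOrder
open Pool Pool.MP_f5ec7d_an

namespace Pool.Agent.S06729

/-- For every concave monotone f on [0,∞) with f(0)≥0 and all complex PSD matrices A,B there are unitaries U,V with 0 ≤ f(A+B) − U f(A) U* ≤ V f(B) V* in the Loewner order. -/
theorem result :
    ∀ (n : ℕ) (f : ℝ → ℝ), ConcaveOn ℝ (Set.Ici 0) f → MonotoneOn f (Set.Ici 0) → 0 ≤ f 0 →
      ∀ (A B : Matrix (Fin n) (Fin n) ℂ) (hA : A.PosSemidef) (hB : B.PosSemidef),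
        ∃ U ∈ Matrix.unitaryGroup (Fin n) ℂ, ∃ V ∈ Matrix.unitaryGroup (Fin n) ℂ,
          ((((hA.add hB).isHermitian.eigenvectorUnitary : Matrix (Fin n) (Fin n) ℂ) *
              Matrix.diagonal (fun i => ((f ((hA.add hB).isHermitian.eigenvalues i) : ℝ) : ℂ)) *
              star ((hA.add hB).isHermitian.eigenvectorUnitary : Matrix (Fin n) (Fin n) ℂ)) -
            U * ((hA.isHermitian.eigenvectorUnitary : Matrix (Fin n) (Fin n) ℂ) *
              Matrix.diagonal (fun i => ((f (hA.isHermitian.eigenvalues i) : ℝ) : ℂ)) *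
              star (hA.isHermitian.eigenvectorUnitary : Matrix (Fin n) (Fin n) ℂ)) * star U).PosSemidef ∧
          (V * ((hB.isHermitian.eigenvectorUnitary : Matrix (Fin n) (Fin n) ℂ) *
              Matrix.diagonal (fun i => ((f (hB.isHermitian.eigenvalues i) : ℝ) : ℂ)) *
              star (hB.isHermitian.eigenvectorUnitary : Matrix (Fin n) (Fin n) ℂ)) * star V -
            ((((hA.add hB).isHermitian.eigenvectorUnitary : Matrix (Fin n) (Fin n) ℂ) *
              Matrix.diagonal (fun i => ((f ((hA.add hB).isHermitian.eigenvalues i) : ℝ) : ℂ)) *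
              star ((hA.add hB).isHermitian.eigenvectorUnitary : Matrix (Fin n) (Fin n) ℂ)) -
            U * ((hA.isHermitian.eigenvectorUnitary : Matrix (Fin n) (Fin n) ℂ) *
              Matrix.diagonal (fun i => ((f (hA.isHermitian.eigenvalues i) : ℝ) : ℂ)) *
              star (hA.isHermitian.eigenvectorUnitary : Matrix (Fin n) (Fin n) ℂ)) * star U)).PosSemidef := by
  intro n f hf hfm hf0 A B hA hB
  have hE := Pool.Agent.H259R3.UO.spectral (hA.add hB).isHermitian
  have hEA := Pool.Agent.H259R3.UO.spectral hA.isHermitian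
  have hEB := Pool.Agent.H259R3.UO.spectral hB.isHermitian
  have hτ : ∀ j, 0 ≤ (hA.add hB).isHermitian.eigenvalues j := fun j => (hA.add hB).eigenvalues_nonneg j
  have hα : ∀ j, 0 ≤ hA.isHermitian.eigenvalues j := fun j => hA.eigenvalues_nonneg j
  have hβ : ∀ j, 0 ≤ hB.isHermitian.eigenvalues j := fun j => hB.eigenvalues_nonneg j
  obtain ⟨U, V, hU, hV, h1, h2⟩ := Pool.Agent.H259R3.UO.final hf hfm hf0 hE.1 hEA.1 hEB.1 hτ hα hβ
    (by rw [← hEA.2, ← hEB.2, ← hE.2])
  refine ⟨U, Matrix.mem_unitaryGroup_iff'.mpr hU, V, Matrix.mem_unitaryGroup_iff'.mpr hV, ?_, ?_⟩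
  · have hh : (Pool.Agent.H259R3.UO.mk ((hA.add hB).isHermitian.eigenvectorUnitary : Matrix (Fin n) (Fin n) ℂ)
        (fun j => f ((hA.add hB).isHermitian.eigenvalues j)) -
        U * Pool.Agent.H259R3.UO.mk (hA.isHermitian.eigenvectorUnitary : Matrix (Fin n) (Fin n) ℂ)
          (fun j => f (hA.isHermitian.eigenvalues j)) * Matrix.conjTranspose U).IsHermitian :=
      (Pool.Agent.H259R3.UO.mk_herm _ _).sub
        (Matrix.isHermitian_mul_mul_conjTranspose U (Pool.Agent.H259R3.UO.mk_herm _ _))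
    exact (Pool.Agent.H259R3.UO.posSemidef_iff_qf hh).mpr h1
  · have hh : (V * Pool.Agent.H259R3.UO.mk (hB.isHermitian.eigenvectorUnitary : Matrix (Fin n) (Fin n) ℂ)
          (fun j => f (hB.isHermitian.eigenvalues j)) * Matrix.conjTranspose V -
        (Pool.Agent.H259R3.UO.mk ((hA.add hB).isHermitian.eigenvectorUnitary : Matrix (Fin n) (Fin n) ℂ)
        (fun j => f ((hA.add hB).isHermitian.eigenvalues j)) -
        U * Pool.Agent.H259R3.UO.mk (hA.isHermitian.eigenvectorUnitary : Matrix (Fin n) (Fin n) ℂ)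
          (fun j => f (hA.isHermitian.eigenvalues j)) * Matrix.conjTranspose U)).IsHermitian :=
      (Matrix.isHermitian_mul_mul_conjTranspose V (Pool.Agent.H259R3.UO.mk_herm _ _)).sub
      ((Pool.Agent.H259R3.UO.mk_herm _ _).sub
        (Matrix.isHermitian_mul_mul_conjTranspose U (Pool.Agent.H259R3.UO.mk_herm _ _)))
    refine (Pool.Agent.H259R3.UO.posSemidef_iff_qf hh).mpr fun x => ?_
    rw [Pool.Agent.H259R3.UO.qf_sub]
    exact sub_nonneg.mpr (h2 x)

end Pool.Agent.S06729
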