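import Pool.Statements.S06734
import Pool.Agent.H33R3.RossiD

set_option autoImplicit false
open Pool Pool.MP_f65947_an

namespace Pool.Agent.S06734

open Metric Set Filter Topology Pool.Agent.H33R3.Rossi

/-- the projection to the first two coordinates -/
noncomputable def pr : (Fin 3 → ℂ) →L[ℂ] ℂ × ℂ :=
  (ContinuousLinearMap.proj (R := ℂ) (φ := fun _ : Fin 3 => ℂ) 0).prod
    (ContinuousLinearMap.proj (R := ℂ) (φ := fun _ : Fin 3 => ℂ) 1)

lemma pr_apply (z : Fin 3 → ℂ) : pr z = (z 0, z 1) := rfl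

/-- real part of the last coordinate -/
noncomputable def re2 : (Fin 3 → ℂ) →L[ℝ] ℝ :=
  Complex.reCLM.comp ((ContinuousLinearMap.proj (R := ℂ) (φ := fun _ : Fin 3 => ℂ) 2).restrictScalars ℝ)

lemma re2_apply (z : Fin 3 → ℂ) : re2 z = (z 2).re := rfl

section rho

variable {u : ℂ × ℂ → ℝ} (hu : ContDiff ℝ (⊤ : ℕ∞) u)
include hu

lemma fderiv_rho (z : Fin 3 → ℂ) :
    fderiv ℝ (fun x => u (pr x) - re2 x) z =
      (fderiv ℝ u (pr z)).comp (pr.restrictScalars ℝ) - re2 := by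
  have h1 : HasFDerivAt (fun x => u (pr x)) ((fderiv ℝ u (pr z)).comp (pr.restrictScalars ℝ)) z :=
    ((hu.differentiable (by simp)) (pr z)).hasFDerivAt.comp z (pr.restrictScalars ℝ).hasFDerivAt
  exact (h1.fun_sub re2.hasFDerivAt).fderiv

lemma levi_rho (z w : Fin 3 → ℂ) :
    fderiv ℝ (fderiv ℝ (fun x => u (pr x) - re2 x)) z w w
        + fderiv ℝ (fderiv ℝ (fun x => u (pr x) - re2 x)) z (Complex.I • w) (Complex.I • w) =
      levi u (pr z) (pr w) := by
  have e1 : fderiv ℝ (fun x => u (pr x) - re2 x) =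
      fun z => fderiv ℝ (fun x => u (pr x)) z - re2 := by
    funext z
    have h1 : DifferentiableAt ℝ (fun x => u (pr x)) z :=
      ((hu.differentiable (by simp)) (pr z)).comp z (pr.restrictScalars ℝ).differentiableAt
    rw [fderiv_fun_sub h1 re2.differentiableAt, re2.fderiv]
  have e2 : fderiv ℝ (fderiv ℝ (fun x => u (pr x) - re2 x)) z =
      fderiv ℝ (fderiv ℝ (fun x => u (pr x))) z := by
    rw [e1, fderiv_sub_const]
  rw [e2]
  have h2 := levi_comp (G := fun x => pr x) (u := u) (z := z) pr.contDiff.contDiffAt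
    (hu.of_le two_le_top).contDiffAt w
  have h3 : fderiv ℂ (fun x => pr x) z w = pr w := by
    rw [ContinuousLinearMap.fderiv]
  rw [h3] at h2
  exact h2

end rho

/-- The negation of the preceding statement: For n at least 3, if the zero set in open U of a smooth function with nonzero gradient there has semidefinite Levi form, then every point with degenerate Levi form at all nearby zero-set points has a nonconstant holomorphic disc through it inside the zero set. -/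
theorem result :
    ¬ (∀ n : ℕ, 3 ≤ n → ∀ U : Set (Fin n → ℂ), IsOpen U →
  ∀ ρ : (Fin n → ℂ) → ℝ, ContDiff ℝ ((⊤ : ℕ∞) : WithTop ℕ∞) ρ →
  (∀ z ∈ U, ρ z = 0 → fderiv ℝ ρ z ≠ 0) →
  (∀ z ∈ U, ρ z = 0 → ∀ w : Fin n → ℂ, fderiv ℝ ρ z w = 0 →
      fderiv ℝ ρ z (Complex.I • w) = 0 →
      0 ≤ fderiv ℝ (fderiv ℝ ρ) z w w
        + fderiv ℝ (fderiv ℝ ρ) z (Complex.I • w) (Complex.I • w)) →
  ∀ ζ ∈ U, ρ ζ = 0 →
  (∃ ε > 0, ∀ z ∈ U, ρ z = 0 → dist z ζ < ε →
      ∃ w : Fin n → ℂ, w ≠ 0 ∧ fderiv ℝ ρ z w = 0 ∧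
        fderiv ℝ ρ z (Complex.I • w) = 0 ∧
        fderiv ℝ (fderiv ℝ ρ) z w w
          + fderiv ℝ (fderiv ℝ ρ) z (Complex.I • w) (Complex.I • w) = 0) →
  ∃ f : ℂ → (Fin n → ℂ), DifferentiableOn ℂ f (Metric.ball (0 : ℂ) 1) ∧ f 0 = ζ ∧
    (∃ t ∈ Metric.ball (0 : ℂ) 1, f t ≠ ζ) ∧
    ∀ t ∈ Metric.ball (0 : ℂ) 1, f t ∈ U ∧ ρ (f t) = 0) := by
  obtain ⟨u, hu, hu0, hu1, hu2⟩ := exists_u
  obtain ⟨y₀, hy₀⟩ := exists_point
  have hy₀' : ∀ k, ‖PP k (0, y₀)‖ ≤ 3 / 4 * rr k := fun k =>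
    nested_step (z := (0, y₀)) (by simp) (hy₀ (k + 1))
  have hy1 : ‖y₀‖ ≤ 3 / 4 := by
    have := hy₀' 0
    simpa [PP, rr] using this
  intro H
  set U : Set (Fin 3 → ℂ) := {z | ‖z 0‖ < 1 ∧ ‖z 1‖ < 2} with hU
  have hUo : IsOpen U := by
    have h1 : IsOpen {z : Fin 3 → ℂ | ‖z 0‖ < 1} :=
      isOpen_lt (continuous_apply 0).norm continuous_const
    have h2 : IsOpen {z : Fin 3 → ℂ | ‖z 1‖ < 2} :=
      isOpen_lt (continuous_apply 1).norm continuous_const
    exact h1.inter h2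
  have hball : ∀ z ∈ U, pr z ∈ ball (0 : ℂ × ℂ) 2 := by
    intro z hz
    rw [mem_ball_zero_iff, pr_apply, Prod.norm_def]
    exact max_lt (by have := hz.1; simp only; linarith) hz.2
  set ρ : (Fin 3 → ℂ) → ℝ := fun x => u (pr x) - re2 x with hρ
  have hρs : ContDiff ℝ ((⊤ : ℕ∞) : WithTop ℕ∞) ρ :=
    (hu.comp (pr.restrictScalars ℝ).contDiff).sub re2.contDiff
  set ζ : Fin 3 → ℂ := ![0, y₀, (u (0, y₀) : ℂ)] with hζ
  have hζU : ζ ∈ U := by
    refine ⟨?_, ?_⟩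
    · simp [hζ]
    · simp only [hζ]
      have : ‖y₀‖ < 2 := by linarith
      simpa using this
  have hprζ : pr ζ = (0, y₀) := by simp [pr_apply, hζ]
  have hζ0 : ρ ζ = 0 := by
    simp only [hρ]
    rw [hprζ, re2_apply]
    simp [hζ]
  have hA : ∀ z ∈ U, ρ z = 0 → fderiv ℝ ρ z ≠ 0 := by
    intro z _ _ h
    have h1 := congrArg (fun L => L (Pi.single 2 1)) h
    rw [hρ, fderiv_rho hu z] at h1
    simp [re2_apply, pr_apply] at h1
    have e0 : ((0 : ℂ), (0 : ℂ)) = (0 : ℂ × ℂ) := rfl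
    rw [e0, map_zero] at h1
    norm_num at h1
  have hB : ∀ z ∈ U, ρ z = 0 → ∀ w : Fin 3 → ℂ, fderiv ℝ ρ z w = 0 →
      fderiv ℝ ρ z (Complex.I • w) = 0 →
      0 ≤ fderiv ℝ (fderiv ℝ ρ) z w w
        + fderiv ℝ (fderiv ℝ ρ) z (Complex.I • w) (Complex.I • w) := by
    intro z hz _ w _ _
    rw [hρ, levi_rho hu z w]
    exact hu0 _ (hball z hz) _
  have hC : ∀ z ∈ U, ρ z = 0 → dist z ζ < 1 →
      ∃ w : Fin 3 → ℂ, w ≠ 0 ∧ fderiv ℝ ρ z w = 0 ∧
        fderiv ℝ ρ z (Complex.I • w) = 0 ∧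
        fderiv ℝ (fderiv ℝ ρ) z w w
          + fderiv ℝ (fderiv ℝ ρ) z (Complex.I • w) (Complex.I • w) = 0 := by
    intro z hz _ _
    obtain ⟨v, hv, hvk⟩ := exists_degenerate (z := pr z) (by
      rw [pr_apply]; exact hz.1.le)
    set L := fderiv ℝ u (pr z) with hL
    refine ⟨![v.1, v.2, (L v : ℂ) - Complex.I * (L (Complex.I • v) : ℂ)], ?_, ?_, ?_, ?_⟩
    · intro h
      apply hv
      have h0 := congrFun h 0
      have h1 := congrFun h 1
      simp at h0 h1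
      exact Prod.ext h0 h1
    · rw [hρ, fderiv_rho hu z]
      simp [re2_apply, pr_apply, hL]
    · rw [hρ, fderiv_rho hu z]
      simp [re2_apply, pr_apply, hL]
      simp [Prod.smul_def]
    · rw [hρ, levi_rho hu z]
      have e : pr ![v.1, v.2, (L v : ℂ) - Complex.I * (L (Complex.I • v) : ℂ)] = v := by
        simp [pr_apply]
      rw [e]
      exact hu2 _ (hball z hz) _ hvk
  obtain ⟨f, hf, hf0, ⟨t₁, ht₁, hft₁⟩, hfU⟩ := H 3 le_rfl U hUo ρ hρs hA hB ζ hζU hζ0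
    ⟨1, one_pos, hC⟩
  have hc : ∀ i, DifferentiableOn ℂ (fun t => f t i) (ball 0 1) := fun i =>
    differentiableOn_pi.1 hf i
  have hg : DifferentiableOn ℂ (fun t => pr (f t)) (ball 0 1) :=
    pr.differentiable.comp_differentiableOn hf
  have hre : ∀ t ∈ ball (0 : ℂ) 1, u (pr (f t)) = (f t 2).re := by
    intro t ht
    have := (hfU t ht).2
    simp only [hρ, re2_apply] at this
    linarith
  have hconst := disc_const hu hu1 hg (hc 2) (fun t ht => hball _ (hfU t ht).1) hre (by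
    intro k
    rw [hf0, hprζ]
    exact hy₀' k)
  simp only [hf0, hprζ] at hconst
  have h2 : ∀ t ∈ ball (0 : ℂ) 1, (f t 2).re = u (0, y₀) := by
    intro t ht
    rw [← hre t ht, hconst t ht]
  have h3 : f t₁ 2 = f 0 2 := by
    have han : AnalyticOnNhd ℂ (fun t => f t 2) (ball 0 1) := (hc 2).analyticOnNhd isOpen_ball
    rcases han.is_constant_or_isOpen (convex_ball _ _).isPreconnected with h | h
    · obtain ⟨w, hw⟩ := h
      exact (hw t₁ ht₁).trans (hw 0 (mem_ball_self one_pos)).symm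
    · exfalso
      have hop := h (ball 0 1) Subset.rfl isOpen_ball
      obtain ⟨r, hr, hb⟩ := Metric.isOpen_iff.1 hop (f 0 2) ⟨0, mem_ball_self one_pos, rfl⟩
      obtain ⟨t, ht, hte⟩ := hb (show f 0 2 + ((r / 2 : ℝ) : ℂ) ∈ ball (f 0 2) r by
        rw [mem_ball, dist_eq_norm, add_sub_cancel_left, Complex.norm_real,
          Real.norm_of_nonneg (by positivity)]
        linarith)
      have h4 := h2 t ht
      have h5 := h2 0 (mem_ball_self one_pos)
      simp only at hte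
      rw [hte, Complex.add_re, h5, Complex.ofReal_re] at h4
      linarith
  apply hft₁
  have h6 := hconst t₁ ht₁
  rw [pr_apply, Prod.mk.injEq] at h6
  have h7 : f 0 2 = ζ 2 := by rw [hf0]
  ext i
  fin_cases i
  · exact h6.1
  · exact h6.2
  · exact h3.trans h7

end Pool.Agent.S06734
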