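import Pool.Statements.S06742
import Pool.Agent.H100R3.TTO2

set_option autoImplicit false
open Pool Pool.MP_f70052_an

namespace Pool.Agent.S06742

open Matrix Set Module Pool.Agent.H100R3.TTO

/-- distinct eigenvalues -/
noncomputable def hh (x : Fin 68) : ℂ := ((x : ℕ) : ℂ)

lemma hh_inj : Function.Injective hh := by
  intro x y h
  unfold hh at h
  exact Fin.ext (by exact_mod_cast h)

def i1 (j : Fin 34) : Fin 68 := ⟨j, by omega⟩
def i2 (j : Fin 34) : Fin 68 := ⟨34 + j, by omega⟩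

noncomputable def pq (s : Fin 34 × Fin 34) : Polynomial ℂ × Polynomial ℂ :=
  (Lagrange.basis Finset.univ hh (i1 s.1), Lagrange.basis Finset.univ hh (i2 s.2))

lemma eval_basis (x y : Fin 68) :
    (Lagrange.basis Finset.univ hh x).eval (hh y) = if x = y then 1 else 0 := by
  split_ifs with h
  · subst h
    exact Lagrange.eval_basis_self (hh_inj.injOn) (Finset.mem_univ _)
  · exact Lagrange.eval_basis_of_ne h (Finset.mem_univ _)

/-- the real symmetric matrix -/
noncomputable def kk (κ : Fin 34 × Fin 34 → ℝ) (x y : Fin 68) : ℝ :=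
  if h : (x : ℕ) < 34 ∧ 34 ≤ (y : ℕ) then √(κ (⟨x, h.1⟩, ⟨y - 34, by omega⟩))
  else if h : (y : ℕ) < 34 ∧ 34 ≤ (x : ℕ) then √(κ (⟨y, h.1⟩, ⟨x - 34, by omega⟩)) else 0

lemma kk_symm (κ : Fin 34 × Fin 34 → ℝ) (x y : Fin 68) : kk κ x y = kk κ y x := by
  unfold kk
  by_cases h1 : (x : ℕ) < 34 ∧ 34 ≤ (y : ℕ)
  · have h2 : ¬ ((y : ℕ) < 34 ∧ 34 ≤ (x : ℕ)) := by omega
    rw [dif_pos h1, dif_neg h2, dif_pos h1]
  · by_cases h2 : (y : ℕ) < 34 ∧ 34 ≤ (x : ℕ)
    · rw [dif_neg h1, dif_pos h2, dif_pos h2]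
    · rw [dif_neg h1, dif_neg h2, dif_neg h2, dif_neg h1]

lemma kk_val (κ : Fin 34 × Fin 34 → ℝ) (s : Fin 34 × Fin 34) :
    kk κ (i1 s.1) (i2 s.2) = √(κ s) := by
  unfold kk i1 i2
  rw [dif_pos ⟨s.1.2, by simp⟩]
  congr 3
  ext
  simp

noncomputable def KK (κ : Fin 34 × Fin 34 → ℝ) : Matrix (Fin 68) (Fin 68) ℂ :=
  Matrix.of fun x y => ((kk κ x y : ℝ) : ℂ)

lemma KK_T (κ : Fin 34 × Fin 34 → ℝ) : (KK κ)ᵀ = KK κ := by
  ext x y
  simp only [KK, Matrix.transpose_apply, Matrix.of_apply]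
  rw [kk_symm]

lemma KK_H (κ : Fin 34 × Fin 34 → ℝ) : (KK κ)ᴴ = KK κ := by
  ext x y
  simp only [KK, Matrix.conjTranspose_apply, Matrix.of_apply]
  rw [kk_symm]
  simp

lemma D_H : (Matrix.diagonal hh)ᴴ = Matrix.diagonal hh := by
  rw [Matrix.diagonal_conjTranspose]
  congr 1
  funext x
  simp [hh]

noncomputable def AA (κ : Fin 34 × Fin 34 → ℝ) : Matrix (Fin 68) (Fin 68) ℂ :=
  Matrix.diagonal hh + Complex.I • KK κ

lemma AA_T (κ : Fin 34 × Fin 34 → ℝ) : (AA κ)ᵀ = AA κ := by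
  unfold AA
  rw [Matrix.transpose_add, Matrix.diagonal_transpose, Matrix.transpose_smul, KK_T]

lemma AA_H (κ : Fin 34 × Fin 34 → ℝ) : (AA κ)ᴴ = Matrix.diagonal hh - Complex.I • KK κ := by
  unfold AA
  rw [Matrix.conjTranspose_add, D_H, Matrix.conjTranspose_smul, KK_H]
  simp [sub_eq_add_neg]

lemma re_part (κ : Fin 34 × Fin 34 → ℝ) :
    (1 / 2 : ℂ) • (Matrix.fromBlocks (AA κ) 0 0 (AA κ)ᵀ +
      (Matrix.fromBlocks (AA κ) 0 0 (AA κ)ᵀ)ᴴ) = Matrix.diagonal (Sum.elim hh hh) := by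
  rw [Matrix.fromBlocks_conjTranspose, AA_T, AA_H, Matrix.fromBlocks_add, ← Matrix.fromBlocks_diagonal,
    Matrix.fromBlocks_smul]
  congr 1
  · ext x y
    simp only [AA, Matrix.smul_apply, Matrix.add_apply, Matrix.sub_apply, smul_eq_mul]
    ring
  · simp
  · simp
  · ext x y
    simp only [AA, Matrix.smul_apply, Matrix.add_apply, Matrix.sub_apply, smul_eq_mul]
    ring

lemma im_part (κ : Fin 34 × Fin 34 → ℝ) :
    (1 / (2 * Complex.I) : ℂ) • (Matrix.fromBlocks (AA κ) 0 0 (AA κ)ᵀ -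
      (Matrix.fromBlocks (AA κ) 0 0 (AA κ)ᵀ)ᴴ) = Matrix.fromBlocks (KK κ) 0 0 (KK κ) := by
  have hI := Complex.I_ne_zero
  rw [Matrix.fromBlocks_conjTranspose, AA_T, AA_H, sub_eq_add_neg, Matrix.fromBlocks_neg,
    Matrix.fromBlocks_add, Matrix.fromBlocks_smul]
  congr 1
  · ext x y
    simp only [AA, Matrix.smul_apply, Matrix.add_apply, Matrix.sub_apply, Matrix.neg_apply,
      smul_eq_mul]
    field_simp
    ring
  · simp
  · simp
  · ext x y
    simp only [AA, Matrix.smul_apply, Matrix.add_apply, Matrix.sub_apply, Matrix.neg_apply,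
      smul_eq_mul]
    field_simp
    ring

lemma aeval_diag {J : Type*} [Fintype J] [DecidableEq J] (d : J → ℂ) (p : Polynomial ℂ) :
    Polynomial.aeval (Matrix.diagonal d) p = Matrix.diagonal (fun x => p.eval (d x)) := by
  have h := Polynomial.aeval_algHom_apply (Matrix.diagonalAlgHom ℂ (n := J) (α := ℂ)) d p
  have e1 : (Matrix.diagonalAlgHom ℂ (n := J) (α := ℂ)) d = Matrix.diagonal d := rfl
  rw [e1] at h
  rw [h]
  have e2 : Polynomial.aeval d p = fun x => p.eval (d x) := by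
    funext x
    rw [Polynomial.aeval_pi_apply₂]
    simp
  rw [e2]
  rfl

lemma trace_val (κ : Fin 34 × Fin 34 → ℝ) (hκ : ∀ s, 0 < κ s) (s : Fin 34 × Fin 34) :
    (Matrix.trace (Polynomial.aeval (Matrix.diagonal (Sum.elim hh hh)) (pq s).1 *
      Matrix.fromBlocks (KK κ) 0 0 (KK κ) *
      Polynomial.aeval (Matrix.diagonal (Sum.elim hh hh)) (pq s).2 *
      Matrix.fromBlocks (KK κ) 0 0 (KK κ))).re = 2 * κ s := by
  have hd : ∀ p : Polynomial ℂ, Polynomial.aeval (Matrix.diagonal (Sum.elim hh hh)) p =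
      Matrix.fromBlocks (Matrix.diagonal fun x => p.eval (hh x)) 0 0
        (Matrix.diagonal fun x => p.eval (hh x)) := by
    intro p
    rw [aeval_diag, Matrix.fromBlocks_diagonal]
    congr 1
    funext x
    rcases x with x | x <;> rfl
  have htr : ∀ A B C D : Matrix (Fin 68) (Fin 68) ℂ,
      Matrix.trace (Matrix.fromBlocks A B C D) = Matrix.trace A + Matrix.trace D := by
    intro A B C D
    simp only [Matrix.trace, Matrix.diag_apply, Fintype.sum_sum_type, Matrix.fromBlocks_apply₁₁,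
      Matrix.fromBlocks_apply₂₂]
  rw [hd, hd, Matrix.fromBlocks_multiply, Matrix.fromBlocks_multiply, Matrix.fromBlocks_multiply,
    htr]
  simp only [Matrix.mul_zero, Matrix.zero_mul, add_zero, zero_add]
  have ht : Matrix.trace (Matrix.diagonal (fun x => (pq s).1.eval (hh x)) * KK κ *
      Matrix.diagonal (fun x => (pq s).2.eval (hh x)) * KK κ) = ((κ s : ℝ) : ℂ) := by
    have hent : ∀ (u w : Fin 68 → ℂ) (M : Matrix (Fin 68) (Fin 68) ℂ),
        Matrix.trace (Matrix.diagonal u * M * Matrix.diagonal w * M) =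
          ∑ x, ∑ y, u x * M x y * w y * M y x := by
      intro u w M
      simp only [Matrix.trace, Matrix.diag_apply]
      refine Finset.sum_congr rfl fun x _ => ?_
      rw [Matrix.mul_apply]
      refine Finset.sum_congr rfl fun y _ => ?_
      rw [Matrix.mul_diagonal, Matrix.diagonal_mul]
    rw [hent]
    simp only [pq, eval_basis]
    rw [Finset.sum_eq_single (i1 s.1)]
    · rw [Finset.sum_eq_single (i2 s.2)]
      · simp only [if_true, one_mul, mul_one]
        simp only [KK, Matrix.of_apply]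
        rw [kk_symm κ (i2 s.2), kk_val, ← Complex.ofReal_mul, Real.mul_self_sqrt (hκ s).le]
      · intro b _ hb
        rw [if_neg (Ne.symm hb)]; simp
      · simp
    · intro b _ hb
      refine Finset.sum_eq_zero fun x _ => ?_
      rw [if_neg (Ne.symm hb)]; simp
    · simp
  rw [ht]
  simp
  ring

/-- The negation of the preceding statement: For every complex n×n matrix A, A ⊕ Aᵀ is unitarily equivalent to a direct sum of truncated Toeplitz operators with continuous symbols on model spaces of finite Blaschke products, written in the basis z^j/∏(1−conj(a)z). -/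
theorem result :
    ¬ (∀ (n : ℕ) (A : Matrix (Fin n) (Fin n) ℂ),
    ∃ (r : ℕ) (m : Fin r → ℕ) (a : (i : Fin r) → Fin (m i) → ℂ) (φ : Fin r → ℝ → ℂ)
      (S : Matrix (Fin n ⊕ Fin n) (Σ i : Fin r, Fin (m i)) ℂ),
      ∑ i, m i = 2 * n ∧
      (∀ i j, ‖a i j‖ < 1) ∧
      (∀ i, Continuous (φ i)) ∧
      Matrix.conjTranspose S * S = Matrix.blockDiagonal' (fun i => Matrix.of (fun (j k : Fin (m i)) =>
          ∫ t in (0:ℝ)..(2 * Real.pi),
            Complex.exp ((((k : ℕ) : ℂ) - ((j : ℕ) : ℂ)) * (t : ℂ) * Complex.I) /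
              ((Complex.normSq (∏ l : Fin (m i),
                  (1 - starRingEnd ℂ (a i l) * Complex.exp ((t : ℂ) * Complex.I))) : ℝ) : ℂ))) ∧
      Matrix.conjTranspose S * Matrix.fromBlocks A 0 0 (Matrix.transpose A) * S =
        Matrix.blockDiagonal' (fun i => Matrix.of (fun (j k : Fin (m i)) =>
          ∫ t in (0:ℝ)..(2 * Real.pi),
            φ i t * Complex.exp ((((k : ℕ) : ℂ) - ((j : ℕ) : ℂ)) * (t : ℂ) * Complex.I) /
              ((Complex.normSq (∏ l : Fin (m i),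
                  (1 - starRingEnd ℂ (a i l) * Complex.exp ((t : ℂ) * Complex.I))) : ℝ) : ℂ)))) := by
  intro H
  -- a point outside the small set, in the positive orthant
  have hopen : IsOpen {τ : Fin 34 × Fin 34 → ℝ | ∀ s, 0 < τ s} := by
    have : {τ : Fin 34 × Fin 34 → ℝ | ∀ s, 0 < τ s} = ⋂ s, {τ | 0 < τ s} := by
      ext τ; simp
    rw [this]
    exact isOpen_iInter_of_finite fun s => isOpen_lt continuous_const (continuous_apply s)
  obtain ⟨τ, hτpos, hτ⟩ := (dense_compl_bad pq).inter_open_nonempty _ hopen ⟨fun _ => 1, by simp⟩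
  set κ : Fin 34 × Fin 34 → ℝ := fun s => τ s / 2 with hκ
  have hκpos : ∀ s, 0 < κ s := fun s => by
    have : 0 < τ s := hτpos s
    simp only [hκ]; linarith
  obtain ⟨r, m, a, φ, S, hm, ha, -, hG, hC⟩ := H 68 (AA κ)
  apply hτ
  unfold Bad
  rw [mem_iUnion]
  refine ⟨⟨⟨r, m⟩, hm⟩, ?_⟩
  have hG' : Sᴴ * S = Tm m (gpar a (fun _ _ => 1)) := by
    rw [hG, Tm_gpar]
    congr 1
    funext i
    ext j k
    simp only [Matrix.of_apply, gam, qq, one_mul]
  have hC' : Sᴴ * Matrix.fromBlocks (AA κ) 0 0 (AA κ)ᵀ * S = Tm m (gpar a φ) := by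
    rw [hC, Tm_gpar]
    congr 1
  have hcard : Fintype.card (Fin 68 ⊕ Fin 68) = Fintype.card (Σ i : Fin r, Fin (m i)) := by
    simp only [Fintype.card_sum, Fintype.card_fin, Fintype.card_sigma, hm]
  refine ⟨(gpar a (fun _ _ => 1), gpar a φ, ((Tm m (gpar a (fun _ _ => 1))).det)⁻¹), ?_⟩
  funext s
  rw [main_id hcard S _ _ _ (det_ne a ha) hG' hC' pq s, re_part, im_part, trace_val κ hκpos]
  simp only [hκ]
  ring

end Pool.Agent.S06742
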