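import Pool.Statements.S06795
import Pool.Agent.H155R3.HB.Asm3

set_option autoImplicit false
open Pool Pool.MP_fb5a60_an

namespace Pool.Agent.S06795

/-- For all n ≥ 2 and 0<p<1 there are bounded linear maps T from H^p(disc) to H^p(unit ball of C^n) and P back with P∘T = identity, i.e. H^p(disc) is isomorphic to a complemented subspace of H^p(ball). -/
theorem result :
    ∀ n : ℕ, 2 ≤ n → ∀ p : ℝ, 0 < p → p < 1 →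
    ∃ (T : (ℂ → ℂ) → (Fin n → ℂ) → ℂ) (P : ((Fin n → ℂ) → ℂ) → ℂ → ℂ) (C : ℝ),
      (∀ (f g : ℂ → ℂ) (a b : ℂ) (M N : ℝ),
        DifferentiableOn ℂ f (Metric.ball 0 1) → DifferentiableOn ℂ g (Metric.ball 0 1) →
        (∀ r : ℝ, 0 ≤ r → r < 1 →
          ∫ θ in (0:ℝ)..2 * Real.pi, ‖f ((r : ℂ) * Complex.exp ((θ : ℂ) * Complex.I))‖ ^ p ≤ M) →
        (∀ r : ℝ, 0 ≤ r → r < 1 →
          ∫ θ in (0:ℝ)..2 * Real.pi, ‖g ((r : ℂ) * Complex.exp ((θ : ℂ) * Complex.I))‖ ^ p ≤ N) →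
        ∀ z : Fin n → ℂ, ∑ i, ‖z i‖ ^ 2 < 1 → T (a • f + b • g) z = a * T f z + b * T g z) ∧
      (∀ (f g : (Fin n → ℂ) → ℂ) (a b : ℂ) (M N : ℝ),
        DifferentiableOn ℂ f {z : Fin n → ℂ | ∑ i, ‖z i‖ ^ 2 < 1} →
        DifferentiableOn ℂ g {z : Fin n → ℂ | ∑ i, ‖z i‖ ^ 2 < 1} →
        (∀ r : ℝ, 0 ≤ r → r < 1 →
          ∫ z : Fin n → ℂ, ‖f (((r / Real.sqrt (∑ i, ‖z i‖ ^ 2) : ℝ) : ℂ) • z)‖ ^ p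
            * Real.exp (-(∑ i, ‖z i‖ ^ 2)) ≤ M) →
        (∀ r : ℝ, 0 ≤ r → r < 1 →
          ∫ z : Fin n → ℂ, ‖g (((r / Real.sqrt (∑ i, ‖z i‖ ^ 2) : ℝ) : ℂ) • z)‖ ^ p
            * Real.exp (-(∑ i, ‖z i‖ ^ 2)) ≤ N) →
        ∀ w : ℂ, ‖w‖ < 1 → P (a • f + b • g) w = a * P f w + b * P g w) ∧
      (∀ (f : ℂ → ℂ) (M : ℝ),
        DifferentiableOn ℂ f (Metric.ball 0 1) →
        (∀ r : ℝ, 0 ≤ r → r < 1 →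
          ∫ θ in (0:ℝ)..2 * Real.pi, ‖f ((r : ℂ) * Complex.exp ((θ : ℂ) * Complex.I))‖ ^ p ≤ M) →
        DifferentiableOn ℂ (T f) {z : Fin n → ℂ | ∑ i, ‖z i‖ ^ 2 < 1} ∧
        ∀ r : ℝ, 0 ≤ r → r < 1 →
          ∫ z : Fin n → ℂ, ‖T f (((r / Real.sqrt (∑ i, ‖z i‖ ^ 2) : ℝ) : ℂ) • z)‖ ^ p
            * Real.exp (-(∑ i, ‖z i‖ ^ 2)) ≤ C * M) ∧
      (∀ (f : (Fin n → ℂ) → ℂ) (M : ℝ),
        DifferentiableOn ℂ f {z : Fin n → ℂ | ∑ i, ‖z i‖ ^ 2 < 1} →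
        (∀ r : ℝ, 0 ≤ r → r < 1 →
          ∫ z : Fin n → ℂ, ‖f (((r / Real.sqrt (∑ i, ‖z i‖ ^ 2) : ℝ) : ℂ) • z)‖ ^ p
            * Real.exp (-(∑ i, ‖z i‖ ^ 2)) ≤ M) →
        DifferentiableOn ℂ (P f) (Metric.ball 0 1) ∧
        ∀ r : ℝ, 0 ≤ r → r < 1 →
          ∫ θ in (0:ℝ)..2 * Real.pi, ‖P f ((r : ℂ) * Complex.exp ((θ : ℂ) * Complex.I))‖ ^ p
            ≤ C * M) ∧
      (∀ (f : ℂ → ℂ) (M : ℝ),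
        DifferentiableOn ℂ f (Metric.ball 0 1) →
        (∀ r : ℝ, 0 ≤ r → r < 1 →
          ∫ θ in (0:ℝ)..2 * Real.pi, ‖f ((r : ℂ) * Complex.exp ((θ : ℂ) * Complex.I))‖ ^ p ≤ M) →
        ∀ w : ℂ, ‖w‖ < 1 → P (T f) w = f w) := Pool.Agent.H155R3.HB.main2

end Pool.Agent.S06795
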