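import Pool.Statements.S06826
import Pool.Agent.H784R3.NC

set_option autoImplicit false
open scoped Pointwise
open Pool Pool.MP_fd6009_an

namespace Pool.Agent.S06826

/-- The negation of the preceding statement: In every real Banach space, if A and B are maximally monotone, A is of type (FPV), and dom A meets the interior of dom B, then the pointwise sum A+B is maximally monotone. -/
theorem result :
    ¬ (∀ (X : Type) [NormedAddCommGroup X] [NormedSpace ℝ X] [CompleteSpace X]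
    (A B : X → Set (X →L[ℝ] ℝ)),
    (∀ (x y : X) (a b : X →L[ℝ] ℝ), a ∈ A x → b ∈ A y → 0 ≤ (a - b) (x - y)) →
    (∀ (x : X) (a : X →L[ℝ] ℝ),
        (∀ (y : X) (b : X →L[ℝ] ℝ), b ∈ A y → 0 ≤ (a - b) (x - y)) → a ∈ A x) →
    (∀ (x y : X) (a b : X →L[ℝ] ℝ), a ∈ B x → b ∈ B y → 0 ≤ (a - b) (x - y)) →
    (∀ (x : X) (a : X →L[ℝ] ℝ),
        (∀ (y : X) (b : X →L[ℝ] ℝ), b ∈ B y → 0 ≤ (a - b) (x - y)) → a ∈ B x) →
    ({x : X | (A x).Nonempty} ∩ interior {x : X | (B x).Nonempty}).Nonempty →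
    (∀ U : Set X, IsOpen U → Convex ℝ U → (U ∩ {x : X | (A x).Nonempty}).Nonempty →
      ∀ x ∈ U, ∀ a : X →L[ℝ] ℝ,
        (∀ y ∈ U, ∀ b ∈ A y, 0 ≤ (a - b) (x - y)) → a ∈ A x) →
    ((∀ (x y : X) (a b : X →L[ℝ] ℝ), a ∈ A x + B x → b ∈ A y + B y →
        0 ≤ (a - b) (x - y)) ∧
     (∀ (x : X) (a : X →L[ℝ] ℝ),
        (∀ (y : X) (b : X →L[ℝ] ℝ), b ∈ A y + B y → 0 ≤ (a - b) (x - y)) →
          a ∈ A x + B x))) := by
  intro H
  have hH := H H784R3.X1 H784R3.B1 H784R3.NC H784R3.B1_mono H784R3.B1_max H784R3.NC_mono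
    H784R3.NC_max
    (by
      obtain ⟨x, f, hf, hx, -⟩ := H784R3.B1_exists_near 0 (z := -1) (by norm_num) one_pos
      refine ⟨x, ⟨f, hf⟩, ?_⟩
      have hopen : IsOpen {x : H784R3.X1 | x.2 < 0} := isOpen_lt continuous_snd continuous_const
      have hsub : {x : H784R3.X1 | x.2 < 0} ⊆ {x : H784R3.X1 | (H784R3.NC x).Nonempty} := by
        intro y hy
        have hy' : y.2 < 0 := hy
        exact ⟨0, hy'.le, 0, le_refl 0, by ring, by rw [zero_smul]⟩
      apply interior_maximal hsub hopen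
      change x.2 < 0
      rw [hx]; norm_num)
    (by
      intro U hU _ _ z hz g hg
      obtain ⟨r, hr, hball⟩ := Metric.isOpen_iff.1 hU z hz
      apply H784R3.B1_local hr
      intro y f hf hy
      apply hg y (hball _) f hf
      rw [Metric.mem_ball, dist_eq_norm]
      exact hy)
  obtain ⟨x, f, hf, hx, -⟩ := H784R3.B1_exists_near 0 (z := 1) (by norm_num) one_pos
  have h1 := hH.2 x f (by
    intro y b hb
    obtain ⟨b1, hb1, b2, hb2, rfl⟩ := Set.mem_add.1 hb
    obtain ⟨hy, c, hc, hcy, rfl⟩ := hb2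
    have hy0 := (H784R3.B1_data hb1).2.1
    have hc0 : c = 0 := by
      rcases mul_eq_zero.1 hcy with h | h
      · exact h
      · exact absurd h hy0
    subst hc0
    rw [zero_smul, add_zero]
    exact H784R3.B1_mono x y f b1 hf hb1)
  obtain ⟨b1, hb1, b2, hb2, -⟩ := Set.mem_add.1 h1
  have := hb2.1
  rw [hx] at this
  norm_num at this

end Pool.Agent.S06826
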