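import Pool.Statements.S06890
import Pool.Agent.H798R3.Vis3


set_option autoImplicit false
open Classical
open Pool Pool.MP_019aa5_co

namespace Pool.Agent.S06890

open Pool.Agent.H798R3.Vis in
lemma filt014 : (({0,1,4} : Finset (Fin 6)).filter (fun v =>
    (affineSpan ℝ (P '' ((({0,1,4} : Finset (Fin 6)).erase v : Finset (Fin 6)) : Set (Fin 6)))).SOppSide x0 (P v)))
    = {0, 4} := by
  have e0 : (({0,1,4} : Finset (Fin 6)).erase 0 : Finset (Fin 6)) = {1,4} := by decide
  have e1 : (({0,1,4} : Finset (Fin 6)).erase 1 : Finset (Fin 6)) = {0,4} := by decide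
  have e4 : (({0,1,4} : Finset (Fin 6)).erase 4 : Finset (Fin 6)) = {0,1} := by decide
  have n14 : P 1 ≠ P 4 := by
    apply ne_of_cr (z := x0)
    norm_num [cr, p00, p01, p10, p11, p20, p21, p30, p31, p40, p41, p50, p51, x00, x01]
  have n04 : P 0 ≠ P 4 := by
    apply ne_of_cr (z := x0)
    norm_num [cr, p00, p01, p10, p11, p20, p21, p30, p31, p40, p41, p50, p51, x00, x01]
  have n01 : P 0 ≠ P 1 := by
    apply ne_of_cr (z := x0)
    norm_num [cr, p00, p01, p10, p11, p20, p21, p30, p31, p40, p41, p50, p51, x00, x01]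
  ext v
  simp only [Finset.mem_filter, Finset.mem_insert, Finset.mem_singleton]
  constructor
  · rintro ⟨rfl | rfl | rfl, h⟩
    · exact Or.inl rfl
    · exfalso
      rw [e1] at h
      simp only [Finset.coe_insert, Finset.coe_singleton, Set.image_insert_eq, Set.image_singleton] at h
      rw [sOpp_iff n04] at h
      norm_num [cr, p00, p01, p10, p11, p20, p21, p30, p31, p40, p41, p50, p51, x00, x01] at h
    · exact Or.inr rfl
  · rintro (rfl | rfl)
    · refine ⟨Or.inl rfl, ?_⟩
      rw [e0]
      simp only [Finset.coe_insert, Finset.coe_singleton, Set.image_insert_eq, Set.image_singleton]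
      rw [sOpp_iff n14]
      norm_num [cr, p00, p01, p10, p11, p20, p21, p30, p31, p40, p41, p50, p51, x00, x01]
    · refine ⟨Or.inr (Or.inr rfl), ?_⟩
      rw [e4]
      simp only [Finset.coe_insert, Finset.coe_singleton, Set.image_insert_eq, Set.image_singleton]
      rw [sOpp_iff n01]
      norm_num [cr, p00, p01, p10, p11, p20, p21, p30, p31, p40, p41, p50, p51, x00, x01]

open Pool.Agent.H798R3.Vis in
lemma filt125 : (({1,2,5} : Finset (Fin 6)).filter (fun v =>
    (affineSpan ℝ (P '' ((({1,2,5} : Finset (Fin 6)).erase v : Finset (Fin 6)) : Set (Fin 6)))).SOppSide x0 (P v)))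
    = {1, 5} := by
  have e1 : (({1,2,5} : Finset (Fin 6)).erase 1 : Finset (Fin 6)) = {2,5} := by decide
  have e2 : (({1,2,5} : Finset (Fin 6)).erase 2 : Finset (Fin 6)) = {1,5} := by decide
  have e5 : (({1,2,5} : Finset (Fin 6)).erase 5 : Finset (Fin 6)) = {1,2} := by decide
  have n25 : P 2 ≠ P 5 := by
    apply ne_of_cr (z := x0)
    norm_num [cr, p00, p01, p10, p11, p20, p21, p30, p31, p40, p41, p50, p51, x00, x01]
  have n15 : P 1 ≠ P 5 := by
    apply ne_of_cr (z := x0)
    norm_num [cr, p00, p01, p10, p11, p20, p21, p30, p31, p40, p41, p50, p51, x00, x01]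
  have n12 : P 1 ≠ P 2 := by
    apply ne_of_cr (z := x0)
    norm_num [cr, p00, p01, p10, p11, p20, p21, p30, p31, p40, p41, p50, p51, x00, x01]
  ext v
  simp only [Finset.mem_filter, Finset.mem_insert, Finset.mem_singleton]
  constructor
  · rintro ⟨rfl | rfl | rfl, h⟩
    · exact Or.inl rfl
    · exfalso
      rw [e2] at h
      simp only [Finset.coe_insert, Finset.coe_singleton, Set.image_insert_eq, Set.image_singleton] at h
      rw [sOpp_iff n15] at h
      norm_num [cr, p00, p01, p10, p11, p20, p21, p30, p31, p40, p41, p50, p51, x00, x01] at h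
    · exact Or.inr rfl
  · rintro (rfl | rfl)
    · refine ⟨Or.inl rfl, ?_⟩
      rw [e1]
      simp only [Finset.coe_insert, Finset.coe_singleton, Set.image_insert_eq, Set.image_singleton]
      rw [sOpp_iff n25]
      norm_num [cr, p00, p01, p10, p11, p20, p21, p30, p31, p40, p41, p50, p51, x00, x01]
    · refine ⟨Or.inr (Or.inr rfl), ?_⟩
      rw [e5]
      simp only [Finset.coe_insert, Finset.coe_singleton, Set.image_insert_eq, Set.image_singleton]
      rw [sOpp_iff n12]
      norm_num [cr, p00, p01, p10, p11, p20, p21, p30, p31, p40, p41, p50, p51, x00, x01]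

open Pool.Agent.H798R3.Vis in
lemma filt023 : (({0,2,3} : Finset (Fin 6)).filter (fun v =>
    (affineSpan ℝ (P '' ((({0,2,3} : Finset (Fin 6)).erase v : Finset (Fin 6)) : Set (Fin 6)))).SOppSide x0 (P v)))
    = {2, 3} := by
  have e0 : (({0,2,3} : Finset (Fin 6)).erase 0 : Finset (Fin 6)) = {2,3} := by decide
  have e2 : (({0,2,3} : Finset (Fin 6)).erase 2 : Finset (Fin 6)) = {0,3} := by decide
  have e3 : (({0,2,3} : Finset (Fin 6)).erase 3 : Finset (Fin 6)) = {0,2} := by decide
  have n23 : P 2 ≠ P 3 := by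
    apply ne_of_cr (z := x0)
    norm_num [cr, p00, p01, p10, p11, p20, p21, p30, p31, p40, p41, p50, p51, x00, x01]
  have n03 : P 0 ≠ P 3 := by
    apply ne_of_cr (z := x0)
    norm_num [cr, p00, p01, p10, p11, p20, p21, p30, p31, p40, p41, p50, p51, x00, x01]
  have n02 : P 0 ≠ P 2 := by
    apply ne_of_cr (z := x0)
    norm_num [cr, p00, p01, p10, p11, p20, p21, p30, p31, p40, p41, p50, p51, x00, x01]
  ext v
  simp only [Finset.mem_filter, Finset.mem_insert, Finset.mem_singleton]
  constructor
  · rintro ⟨rfl | rfl | rfl, h⟩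
    · exfalso
      rw [e0] at h
      simp only [Finset.coe_insert, Finset.coe_singleton, Set.image_insert_eq, Set.image_singleton] at h
      rw [sOpp_iff n23] at h
      norm_num [cr, p00, p01, p10, p11, p20, p21, p30, p31, p40, p41, p50, p51, x00, x01] at h
    · exact Or.inl rfl
    · exact Or.inr rfl
  · rintro (rfl | rfl)
    · refine ⟨Or.inr (Or.inl rfl), ?_⟩
      rw [e2]
      simp only [Finset.coe_insert, Finset.coe_singleton, Set.image_insert_eq, Set.image_singleton]
      rw [sOpp_iff n03]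
      norm_num [cr, p00, p01, p10, p11, p20, p21, p30, p31, p40, p41, p50, p51, x00, x01]
    · refine ⟨Or.inr (Or.inr rfl), ?_⟩
      rw [e3]
      simp only [Finset.coe_insert, Finset.coe_singleton, Set.image_insert_eq, Set.image_singleton]
      rw [sOpp_iff n02]
      norm_num [cr, p00, p01, p10, p11, p20, p21, p30, p31, p40, p41, p50, p51, x00, x01]

open Pool.Agent.H798R3.Vis in
lemma generic : ∀ H ∈ D, H.card + 1 = 3 → x0 ∉ affineSpan ℝ (P '' (H : Set (Fin 6))) := by
  intro H hH hc
  have hlist : H ∈ ({{0,1},{0,2},{1,2},{0,3},{0,4},{3,4},{1,4},{1,5},{4,5},{2,3},{2,5},{3,5}} :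
      Finset (Finset (Fin 6))) := by
    revert H
    decide
  simp only [Finset.mem_insert, Finset.mem_singleton] at hlist
  have main : ∀ i j : Fin 6, P i ≠ P j → cr (P i) (P j) x0 ≠ 0 →
      x0 ∉ affineSpan ℝ (P '' ((({i, j} : Finset (Fin 6)) : Set (Fin 6)))) := by
    intro i j hij hcr
    simp only [Finset.coe_insert, Finset.coe_singleton, Set.image_insert_eq, Set.image_singleton]
    rw [mem_line hij]
    exact hcr
  have hne : ∀ i j : Fin 6, cr (P i) (P j) x0 ≠ 0 → P i ≠ P j := by
    intro i j h h'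
    apply h
    rw [h']
    unfold cr
    ring
  rcases hlist with rfl | rfl | rfl | rfl | rfl | rfl | rfl | rfl | rfl | rfl | rfl | rfl
  all_goals
    refine main _ _ (hne _ _ ?_) ?_ <;> norm_num [cr, p00, p01, p10, p11, p20, p21, p30, p31, p40, p41, p50, p51, x00, x01]

/-- The negation of the preceding statement: For any field, any convexly realized (d−1)-dim complex in R^(d−1), any generic point x, and any linear system of parameters, the monomials of the visible-vertex sets G_F of the facets form a k-basis of the face ring modulo the parameters. -/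
theorem result :
    ¬ (∀ (k : Type) [Field k] (n d : ℕ) (Δ : Finset (Finset (Fin n)))
      (p : Fin n → EuclideanSpace ℝ (Fin (d - 1))) (x : EuclideanSpace ℝ (Fin (d - 1)))
      (θ : Fin d → MvPolynomial (Fin n) k) (J : Ideal (MvPolynomial (Fin n) k))
      (f : {F : Finset (Fin n) // F ∈ Δ ∧ F.card = d} → MvPolynomial (Fin n) k ⧸ J),
      1 ≤ d →
      (∀ S ∈ Δ, ∀ T : Finset (Fin n), T ⊆ S → T ∈ Δ) →
      (∀ i : Fin n, ({i} : Finset (Fin n)) ∈ Δ) →
      (∀ S ∈ Δ, S.card ≤ d) →
      (∃ S ∈ Δ, S.card = d) →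
      (∀ S ∈ Δ, AffineIndependent ℝ (fun i : (S : Set (Fin n)) => p i)) →
      (∀ S ∈ Δ, ∀ T ∈ Δ,
        convexHull ℝ (p '' (S : Set (Fin n))) ∩ convexHull ℝ (p '' (T : Set (Fin n))) =
          convexHull ℝ (p '' ((S ∩ T : Finset (Fin n)) : Set (Fin n)))) →
      Convex ℝ (⋃ S ∈ Δ, convexHull ℝ (p '' (S : Set (Fin n)))) →
      x ∈ (⋃ S ∈ Δ, convexHull ℝ (p '' (S : Set (Fin n)))) →
      (∀ H ∈ Δ, H.card + 1 = d → x ∉ affineSpan ℝ (p '' (H : Set (Fin n)))) →
      (∀ i, (θ i).IsHomogeneous 1) →
      J = Ideal.span ((fun S : Finset (Fin n) => ∏ i ∈ S, (MvPolynomial.X i : MvPolynomial (Fin n) k)) ''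
              {S : Finset (Fin n) | S ∉ Δ}) ⊔ Ideal.span (Set.range θ) →
      Module.Finite k (MvPolynomial (Fin n) k ⧸ J) →
      (∀ F, f F = Ideal.Quotient.mk J
          (∏ v ∈ F.1.filter (fun v =>
              (affineSpan ℝ (p '' ((F.1.erase v : Finset (Fin n)) : Set (Fin n)))).SOppSide x (p v)),
            (MvPolynomial.X v : MvPolynomial (Fin n) k))) →
      LinearIndependent k f ∧ Submodule.span k (Set.range f) = ⊤) := by
  intro h
  have hh := h ℚ 6 3 Pool.Agent.H798R3.Vis.D Pool.Agent.H798R3.Vis.P Pool.Agent.H798R3.Vis.x0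
    Pool.Agent.H798R3.Vis.th Pool.Agent.H798R3.Vis.Jd
    (fun F => Ideal.Quotient.mk Pool.Agent.H798R3.Vis.Jd
          (∏ v ∈ F.1.filter (fun v =>
              (affineSpan ℝ (Pool.Agent.H798R3.Vis.P '' ((F.1.erase v : Finset (Fin 6)) : Set (Fin 6)))).SOppSide
                Pool.Agent.H798R3.Vis.x0 (Pool.Agent.H798R3.Vis.P v)),
            (MvPolynomial.X v : MvPolynomial (Fin 6) ℚ)))
    (by norm_num)
    Pool.Agent.H798R3.Vis.down
    (by decide)
    (by decide)
    ⟨{0,1,2}, by decide, by decide⟩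
    Pool.Agent.H798R3.Vis.aff_indep
    Pool.Agent.H798R3.Vis.inter_prop
    Pool.Agent.H798R3.Vis.convex_union
    Pool.Agent.H798R3.Vis.x0_mem
    generic
    (by
      intro i
      fin_cases i
      · exact ((MvPolynomial.isHomogeneous_X _ _).add (MvPolynomial.isHomogeneous_X _ _)).add
          (MvPolynomial.isHomogeneous_X _ _)
      · exact ((MvPolynomial.isHomogeneous_X _ _).add (MvPolynomial.isHomogeneous_X _ _)).add
          (MvPolynomial.isHomogeneous_X _ _)
      · exact ((MvPolynomial.isHomogeneous_X _ _).add (MvPolynomial.isHomogeneous_X _ _)).add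
          (MvPolynomial.isHomogeneous_X _ _))
    rfl
    Pool.Agent.H798R3.Vis.fin_quot
    (fun _ => rfl)
  have hli := hh.1
  rw [linearIndependent_iff'] at hli
  have hz := hli {⟨{0,1,4}, by decide, by decide⟩, ⟨{1,2,5}, by decide, by decide⟩,
    ⟨{0,2,3}, by decide, by decide⟩} (fun _ => 1) (by
      rw [Finset.sum_insert, Finset.sum_insert, Finset.sum_singleton]
      · simp only [one_smul]
        rw [filt014, filt125, filt023, ← map_add, ← map_add, Ideal.Quotient.eq_zero_iff_mem,
          Finset.prod_pair (by decide), Finset.prod_pair (by decide), Finset.prod_pair (by decide),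
          ← add_assoc]
        exact Pool.Agent.H798R3.Vis.dep
      · simp only [Finset.mem_singleton, Subtype.mk.injEq]
        decide
      · simp only [Finset.mem_insert, Finset.mem_singleton, Subtype.mk.injEq]
        decide)
    ⟨{0,1,4}, by decide, by decide⟩ (by simp)
  exact one_ne_zero hz

end Pool.Agent.S06890
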