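import Pool.Statements.S06894
import Pool.Agent.H858RG.Conf

set_option autoImplicit false
open Pool Pool.MP_01c1f4_co

namespace Pool.Agent.S06894

/-- The negation of the preceding statement: Every graph that is rigid in the plane has a generic real planar realisation p for which the number of real realisations with the same edge lengths, up to congruence, equals the number of complex ones up to congruence. -/
theorem result :
    ¬ (∀ (n : ℕ) (G : SimpleGraph (Fin n)),
    (∀ p : Fin n → Fin 2 → ℝ,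
      AlgebraicIndependent ℚ (fun x : Fin n × Fin 2 => p x.1 x.2) →
      ∀ u : Fin n → Fin 2 → ℝ,
        (∀ i j, G.Adj i j → ∑ k, (p i k - p j k) * (u i k - u j k) = 0) →
        ∀ i j, ∑ k, (p i k - p j k) * (u i k - u j k) = 0) →
    ∃ p : Fin n → Fin 2 → ℝ,
      AlgebraicIndependent ℚ (fun x : Fin n × Fin 2 => p x.1 x.2) ∧
      {D : Fin n → Fin n → ℝ | ∃ q : Fin n → Fin 2 → ℝ,
          (∀ i j, G.Adj i j → ∑ k, (q i k - q j k) ^ 2 = ∑ k, (p i k - p j k) ^ 2) ∧
          D = fun i j => ∑ k, (q i k - q j k) ^ 2}.ncard =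
      {D : Fin n → Fin n → ℂ | ∃ q : Fin n → Fin 2 → ℂ,
          (∀ i j, G.Adj i j →
            ∑ k, (q i k - q j k) ^ 2 = ∑ k, ((p i k : ℂ) - (p j k : ℂ)) ^ 2) ∧
          D = fun i j => ∑ k, (q i k - q j k) ^ 2}.ncard) := by
  intro hall
  obtain ⟨p, hp, hEq⟩ := hall 8 H858RG.G8 (fun p hp u h => H858RG.rigid8 p hp u h)
  obtain ⟨Q, t, ht0, ht1, ht2, hQ, hQ57⟩ := H858RG.exists_conf p hp
  obtain ⟨C, hC⟩ : ∃ C : Set (Fin 8 → Fin 8 → ℂ), C = {D : Fin 8 → Fin 8 → ℂ |
      ∃ q : Fin 8 → Fin 2 → ℂ, (∀ i j, H858RG.G8.Adj i j →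
        ∑ k, (q i k - q j k) ^ 2 = ∑ k, ((p i k : ℂ) - (p j k : ℂ)) ^ 2) ∧
        D = fun i j => ∑ k, (q i k - q j k) ^ 2} := ⟨_, rfl⟩
  obtain ⟨R, hR⟩ : ∃ R : Set (Fin 8 → Fin 8 → ℝ), R = {D : Fin 8 → Fin 8 → ℝ |
      ∃ q : Fin 8 → Fin 2 → ℝ, (∀ i j, H858RG.G8.Adj i j →
        ∑ k, (q i k - q j k) ^ 2 = ∑ k, (p i k - p j k) ^ 2) ∧
        D = fun i j => ∑ k, (q i k - q j k) ^ 2} := ⟨_, rfl⟩
  rw [← hC, ← hR] at hEq
  -- the complex set in terms of `dC`
  have hcond : ∀ q : Fin 8 → Fin 2 → ℂ, (∀ i j, H858RG.G8.Adj i j →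
      ∑ k, (q i k - q j k) ^ 2 = ∑ k, ((p i k : ℂ) - (p j k : ℂ)) ^ 2) ↔
      (∀ e ∈ H858RG.EE, H789R3.dC q e = H789R3.dC (fun v i => ((p v i : ℝ) : ℂ)) e) := by
    intro q
    constructor
    · intro h e he
      induction e using Sym2.ind with
      | _ u v =>
        refine h u v ((H858RG.G8_adj u v).2 ⟨he, ?_⟩)
        intro huv
        exact H858RG.EE_diag _ he huv
    · intro h u v huv
      exact h _ ((H858RG.G8_adj u v).1 huv).1
  have hCeq : C = {D : Fin 8 → Fin 8 → ℂ | ∃ q : Fin 8 → Fin 2 → ℂ,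
      (∀ e ∈ H858RG.EE, H789R3.dC q e = H789R3.dC (fun v i => ((p v i : ℝ) : ℂ)) e) ∧
      D = fun u v => ∑ i, (q u i - q v i) ^ 2} := by
    rw [hC]
    ext D
    exact exists_congr fun q => and_congr_left fun _ => hcond q
  have hD := H858RG.ds_pos p hp (i := 6) (j := 7) (by decide)
  have hfin : C.Finite := by
    rw [hCeq]
    refine (H789R3.main_lower (6 : Fin 8) 7 H858RG.EE (by decide +kernel) H858RG.EE_diag
      (by rw [H858RG.EE_card, Fintype.card_fin]) (by
        intro S hS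
        have := H858RG.EE_laman S hS
        convert this) (fun v i => ((p v i : ℝ) : ℂ)) (H858RG.hpinj p hp) ?_).1
    rw [H858RG.dC_ds]
    exact_mod_cast hD.ne'
  -- the new class
  have hmem : (fun u v => ∑ i, (Q u i - Q v i) ^ 2) ∈ C := by
    rw [hCeq]
    exact ⟨Q, hQ, rfl⟩
  let ι : (Fin 8 → Fin 8 → ℝ) → (Fin 8 → Fin 8 → ℂ) := fun D u v => ((D u v : ℝ) : ℂ)
  have hιinj : Function.Injective ι := by
    intro D D' h
    funext u v
    have := congrFun (congrFun h u) v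
    exact Complex.ofReal_injective this
  have hsub : ι '' R ⊆ C \ {(fun u v => ∑ i, (Q u i - Q v i) ^ 2)} := by
    rintro _ ⟨D, hDR, rfl⟩
    rw [hR] at hDR
    obtain ⟨q', hq', rfl⟩ := hDR
    refine ⟨?_, ?_⟩
    · rw [hC]
      refine ⟨fun v i => ((q' v i : ℝ) : ℂ), ?_, ?_⟩
      · intro i j hij
        have h5 : ((∑ k, (q' i k - q' j k) ^ 2 : ℝ) : ℂ) = ((∑ k, (p i k - p j k) ^ 2 : ℝ) : ℂ) :=
          congrArg _ (hq' i j hij)
        push_cast at h5
        exact h5
      · funext u v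
        simp only [ι]
        push_cast
        rfl
    · intro h
      rw [Set.mem_singleton_iff] at h
      have hds : ∀ u v, H858RG.ds q' u v = ∑ k, (q' u k - q' v k) ^ 2 := by
        intro u v
        rw [Fin.sum_univ_two]; rfl
      have hdp : ∀ u v, H858RG.ds p u v = ∑ k, (p u k - p v k) ^ 2 := by
        intro u v
        rw [Fin.sum_univ_two]; rfl
      have h1 : H858RG.ds q' 6 7 = H858RG.ds p 6 7 := by
        rw [hds, hdp]
        exact hq' 6 7 ((H858RG.G8_adj 6 7).2 ⟨by decide +kernel, by decide⟩)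
      have h2 : H858RG.ds q' 5 6 = H858RG.ds p 6 7 * H858RG.rr p 5 ^ 2 := by
        rw [H858RG.rr_sq p hp (i := 5) (by norm_num), hds]
        change _ = H858RG.ds p 5 6
        rw [hdp]
        exact hq' 5 6 ((H858RG.G8_adj 5 6).2 ⟨by decide +kernel, by decide⟩)
      have h3 : H858RG.ds q' 5 7 =
          H858RG.ds p 6 7 * (1 - H858RG.rr p 5 * t) * (1 - H858RG.rr p 5 / t) := by
        have h4 := congrFun (congrFun h 5) 7
        simp only [ι] at h4
        rw [hQ57, ← hds] at h4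
        exact Complex.ofReal_injective h4
      exact H858RG.nonreal q' hD (H858RG.rr_pos p hp 5) ht0 ht1 ht2 h1 h2 h3
  have hlt : R.ncard < C.ncard := by
    rw [← Set.ncard_image_of_injective R hιinj]
    refine lt_of_le_of_lt (Set.ncard_le_ncard hsub (hfin.subset Set.sdiff_subset)) ?_
    exact Set.ncard_sdiff_singleton_lt_of_mem hmem hfin
  omega

end Pool.Agent.S06894
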