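import Pool.Statements.S06909
import Pool.Agent.H223R3.Kalai.Main

set_option autoImplicit false
open Pool Pool.MP_02973f_co

namespace Pool.Agent.S06909

/-- For r≥2 and any tight r-tree T on ℓ vertices, for all large n every r-uniform hypergraph on n vertices containing no copy of T has at most (ℓ−r)/r · C(n, r−1) edges. -/
theorem result :
    ∀ r : ℕ, 2 ≤ r → ∀ ℓ m : ℕ, ∀ e : ℕ → Finset (Fin ℓ),
      0 < m →
      (e 0).card = r →
      (∀ i : ℕ, 0 < i → i < m →
        ∃ j : ℕ, j < i ∧ ∃ S : Finset (Fin ℓ), S ⊆ e j ∧ S.card = r - 1 ∧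
          ∃ v : Fin ℓ, v ∉ (Finset.range i).biUnion e ∧ e i = insert v S) →
      (Finset.range m).biUnion e = Finset.univ →
      ∃ N : ℕ, ∀ n : ℕ, N ≤ n →
        ∀ H : Finset (Finset (Fin n)),
          (∀ E ∈ H, E.card = r) →
          (¬ ∃ f : Fin ℓ ↪ Fin n, ∀ i : ℕ, i < m → (e i).map f ∈ H) →
          (H.card : ℝ) ≤ (((ℓ : ℝ) - (r : ℝ)) / (r : ℝ)) * ((n.choose (r - 1) : ℕ) : ℝ) := by
  intro r hr ℓ m e hm h0 hstep huniv
  refine ⟨1, ?_⟩
  intro n hn H hH hno
  obtain ⟨d, rfl⟩ : ∃ d, r = d + 1 := ⟨r - 1, by omega⟩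
  haveI : Nonempty (Fin n) := ⟨⟨0, hn⟩⟩
  -- the number of vertices
  have hcount : ∀ k, k + 1 ≤ m → ((Finset.range (k + 1)).biUnion e).card = d + 1 + k := by
    intro k
    induction k with
    | zero => intro _; simp [h0]
    | succ k ih =>
      intro hk
      obtain ⟨j, hj, S, hSj, _, v, hv, hev⟩ := hstep (k + 1) (by omega) (by omega)
      have h1 : (Finset.range (k + 1 + 1)).biUnion e =
          e (k + 1) ∪ (Finset.range (k + 1)).biUnion e := by
        rw [Finset.range_add_one (n := k + 1), Finset.biUnion_insert]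
      have h2 : S ⊆ (Finset.range (k + 1)).biUnion e :=
        hSj.trans (Finset.subset_biUnion_of_mem e (Finset.mem_range.2 hj))
      rw [h1, hev, Finset.insert_union, Finset.union_eq_right.2 h2,
        Finset.card_insert_of_notMem hv, ih (by omega)]
      omega
  have hl : ℓ + 1 = d + 1 + m := by
    have h1 := hcount (m - 1) (by omega)
    have h2 : m - 1 + 1 = m := by omega
    rw [h2, huniv, Finset.card_univ, Fintype.card_fin] at h1
    omega
  have hk := H223R3.Kalai.kalai (d := d) (V := Fin n) e m hm h0 ?_ H hH ?_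
  · rw [Fintype.card_fin] at hk
    have h1 := H223R3.Kalai.real_bound _ _ _ _ hk
    have h3 : ((ℓ : ℝ) - ((d + 1 : ℕ) : ℝ)) = (m : ℝ) - 1 := by
      have h4 : ((ℓ + 1 : ℕ) : ℝ) = ((d + 1 + m : ℕ) : ℝ) := by exact_mod_cast hl
      push_cast at h4 ⊢
      linarith
    rw [h3]
    simpa using h1
  · intro i hi him
    obtain ⟨j, hj, S, hSj, hSc, v, hv, hev⟩ := hstep i hi him
    exact ⟨j, hj, S, hSj, by simpa using hSc, v, hv, hev⟩
  · rintro ⟨f, f1, f2⟩
    apply hno
    rw [huniv, Finset.coe_univ, Set.injOn_univ] at f1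
    refine ⟨⟨f, f1⟩, ?_⟩
    intro i hi
    rw [Finset.map_eq_image]
    exact f2 i hi

end Pool.Agent.S06909
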