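import Pool.Statements.S06936

set_option autoImplicit false
open Pool Pool.MP_038631_co

namespace Pool.Agent.S06936

/-- Two disjoint complete graphs on thirteen vertices each. -/
def twoCliques : SimpleGraph (Bool × Fin 13) where
  Adj x y := x.1 = y.1 ∧ x.2 ≠ y.2
  symm := ⟨fun _ _ h => ⟨h.1.symm, h.2.symm⟩⟩
  loopless := ⟨fun _ h => h.2 rfl⟩

instance : DecidableRel twoCliques.Adj := fun x y =>
  inferInstanceAs (Decidable (x.1 = y.1 ∧ x.2 ≠ y.2))

lemma walk_fst {x y : Bool × Fin 13} (p : twoCliques.Walk x y) :
    ∀ z ∈ p.support, z.1 = x.1 := by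
  induction p with
  | nil =>
    intro z hz
    simp only [SimpleGraph.Walk.support_nil, List.mem_singleton] at hz
    rw [hz]
  | cons h p ih =>
    intro z hz
    rw [SimpleGraph.Walk.support_cons, List.mem_cons] at hz
    rcases hz with hz | hz
    · rw [hz]
    · rw [ih z hz]
      exact h.1.symm

/-- The negation of the preceding statement: For all k ≥ 2 and odd r ≥ 3, every finite simple graph with at least rk vertices and minimum degree at least (r+1)k/2 contains k pairwise vertex-disjoint cycles, each of length at least r. -/
theorem result :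
    ¬ (∀ k r : ℕ, 2 ≤ k → 3 ≤ r → Odd r →
      ∀ (V : Type) [Fintype V] (G : SimpleGraph V) [DecidableRel G.Adj],
        r * k ≤ Fintype.card V →
        (∀ v : V, (r + 1) * k ≤ 2 * G.degree v) →
        ∃ (u : Fin k → V) (c : ∀ i : Fin k, G.Walk (u i) (u i)),
          (∀ i : Fin k, (c i).IsCycle ∧ r ≤ (c i).length) ∧
          ∀ i j : Fin k, i ≠ j → List.Disjoint (c i).support (c j).support) := by
  intro H
  obtain ⟨u, c, hc, hd⟩ := H 3 7 (by norm_num) (by norm_num) (by decide) (Bool × Fin 13)
    twoCliques (by simp) (by decide +kernel)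
  -- two of the three cycles lie in the same clique
  obtain ⟨i, j, hij, hu⟩ : ∃ i j : Fin 3, i ≠ j ∧ (u i).1 = (u j).1 := by
    by_contra hcon
    push Not at hcon
    have h01 := hcon 0 1 (by decide)
    have h02 := hcon 0 2 (by decide)
    have h12 := hcon 1 2 (by decide)
    revert h01 h02 h12
    cases (u 0).1 <;> cases (u 1).1 <;> cases (u 2).1 <;> simp
  -- the supports
  have hni := (hc i).1.support_nodup
  have hnj := (hc j).1.support_nodup
  have hdis := hd i j hij
  have hli : ((c i).support.tail).length = (c i).length := by
    rw [List.length_tail, SimpleGraph.Walk.length_support]; rfl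
  have hlj : ((c j).support.tail).length = (c j).length := by
    rw [List.length_tail, SimpleGraph.Walk.length_support]; rfl
  have hnd : ((c i).support.tail ++ (c j).support.tail).Nodup := by
    rw [List.nodup_append']
    refine ⟨hni, hnj, ?_⟩
    intro z hz hz'
    exact hdis (List.mem_of_mem_tail hz) (List.mem_of_mem_tail hz')
  have hmap : (((c i).support.tail ++ (c j).support.tail).map Prod.snd).Nodup := by
    refine List.Nodup.map_on ?_ hnd
    intro x hx y hy hxy
    have hx1 : x.1 = (u i).1 := by
      rcases List.mem_append.1 hx with h | h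
      · exact walk_fst _ _ (List.mem_of_mem_tail h)
      · rw [hu]; exact walk_fst _ _ (List.mem_of_mem_tail h)
    have hy1 : y.1 = (u i).1 := by
      rcases List.mem_append.1 hy with h | h
      · exact walk_fst _ _ (List.mem_of_mem_tail h)
      · rw [hu]; exact walk_fst _ _ (List.mem_of_mem_tail h)
    exact Prod.ext (hx1.trans hy1.symm) hxy
  have hcard := hmap.length_le_card
  rw [List.length_map, List.length_append, hli, hlj, Fintype.card_fin] at hcard
  have h1 := (hc i).2
  have h2 := (hc j).2
  omega

end Pool.Agent.S06936
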