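import Pool.Statements.S07056

set_option autoImplicit false
open Pool Pool.MP_0959cd_co

namespace Pool.Agent.S07056

/-- Weights (times 21) of a digraph on seven vertices with all weighted outdegrees 21, all of whose
directed cycles have weight 20. The vertices 2 and 4 are hubs. -/
def Q : ℕ → ℕ → ℕ
  | 0, 2 => 15 | 0, 4 => 6
  | 3, 2 => 15 | 3, 4 => 6
  | 1, 2 => 5 | 1, 4 => 16
  | 5, 2 => 5 | 5, 4 => 16
  | 6, 2 => 5 | 6, 4 => 16
  | 2, 0 => 5 | 2, 3 => 5 | 2, 4 => 11
  | 4, 1 => 4 | 4, 5 => 4 | 4, 6 => 4 | 4, 2 => 9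
  | _, _ => 0

/-- The weights (times 21) on fourteen vertices: `Q` on the first seven vertices, the reverse of `Q`
on the last seven, and all arcs from the last seven to the first seven with weight 3. -/
def P (u v : Fin 14) : ℕ :=
  if u.val < 7 then (if v.val < 7 then Q u.val v.val else 0)
  else (if v.val < 7 then 3 else Q (v.val - 7) (u.val - 7))

/-- the hubs -/
def hub (u : Fin 14) : Bool := u.val == 2 || u.val == 4 || u.val == 9 || u.val == 11

/-- the side -/
def side (u : Fin 14) : ℤ := if u.val < 7 then 0 else 1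

theorem le21 : ∀ u v, P u v ≤ 21 := by decide +kernel
theorem irr : ∀ u, P u u = 0 := by decide +kernel
theorem outw : ∀ u, 21 ≤ ∑ v, P u v := by decide +kernel
theorem inw : ∀ u, 21 ≤ ∑ v, P v u := by decide +kernel
theorem side_le : ∀ u v, P u v ≠ 0 → side v ≤ side u := by decide +kernel
theorem hub_or : ∀ u v, P u v ≠ 0 → side u = side v → hub u = true ∨ hub v = true := by
  decide +kernel
theorem hub_card : ∀ s : Fin 14, (Finset.univ.filter (fun u : Fin 14 => hub u = true ∧
    side u = side s)).card ≤ 2 := by decide +kernel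
theorem cyc2 : ∀ a b, P a b ≠ 0 → P b a ≠ 0 → P a b + P b a ≤ 20 := by decide +kernel
theorem cyc3 : ∀ a b, P a b ≠ 0 → ∀ c, P b c ≠ 0 → P c a ≠ 0 → P a b + P b c + P c a ≤ 20 := by
  decide +kernel
theorem cyc4 : ∀ a b, P a b ≠ 0 → ∀ c, P b c ≠ 0 → a ≠ c → ∀ d, P c d ≠ 0 → P d a ≠ 0 → b ≠ d →
    P a b + P b c + P c d + P d a ≤ 20 := by
  decide +kernel

theorem main (k : ℕ) (c : Fin (k + 2) → Fin 14) (hc : Function.Injective c)
    (hadj : ∀ i, P (c i) (c (i + 1)) ≠ 0) : ∑ i, P (c i) (c (i + 1)) ≤ 20 := by
  classical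
  -- all vertices on one side
  have hsum : ∑ i, (side (c i) - side (c (i + 1))) = 0 := by
    rw [Finset.sum_sub_distrib]
    have := Equiv.sum_comp (Equiv.addRight (1 : Fin (k + 2))) (fun i => side (c i))
    simp only [Equiv.coe_addRight] at this
    rw [this]
    ring
  have hside : ∀ i, side (c i) = side (c (i + 1)) := by
    intro i
    have h := (Finset.sum_eq_zero_iff_of_nonneg (fun i _ => by
      have := side_le _ _ (hadj i)
      linarith)).mp hsum i (Finset.mem_univ i)
    linarith
  have hside0 : ∀ n : ℕ, ∀ i : Fin (k + 2), i.val = n → side (c i) = side (c 0) := by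
    intro n
    induction n with
    | zero =>
      intro i hi
      have : i = 0 := Fin.ext (by simpa using hi)
      rw [this]
    | succ n ih =>
      intro i hi
      have hlt : n < k + 2 := by have := i.isLt; omega
      have h1 := ih ⟨n, hlt⟩ rfl
      have h2 := hside ⟨n, hlt⟩
      have h3 : (⟨n, hlt⟩ : Fin (k + 2)) + 1 = i := by
        apply Fin.ext
        rw [Fin.val_add, hi]
        have : (1 : Fin (k + 2)).val = 1 := by
          rw [Fin.val_one]
        rw [this]
        have := i.isLt
        show (n + 1) % (k + 2) = n + 1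
        apply Nat.mod_eq_of_lt
        omega
      rw [h3] at h2
      rw [← h2, h1]
  -- count hubs
  let H : Finset (Fin (k + 2)) := Finset.univ.filter (fun i => hub (c i) = true)
  have hH : H.card ≤ 2 := by
    refine le_trans ?_ (hub_card (c 0))
    rw [← Finset.card_image_of_injective H hc]
    apply Finset.card_le_card
    intro u hu
    rw [Finset.mem_image] at hu
    obtain ⟨i, hi, rfl⟩ := hu
    rw [Finset.mem_filter] at hi ⊢
    exact ⟨Finset.mem_univ _, hi.2, hside0 i.val i rfl⟩
  have hcov : (Finset.univ : Finset (Fin (k + 2))) ⊆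
      H ∪ H.image (fun i => i - 1) := by
    intro i _
    rw [Finset.mem_union]
    rcases hub_or _ _ (hadj i) (hside i) with h | h
    · left
      exact Finset.mem_filter.mpr ⟨Finset.mem_univ _, h⟩
    · right
      rw [Finset.mem_image]
      exact ⟨i + 1, Finset.mem_filter.mpr ⟨Finset.mem_univ _, h⟩, by simp⟩
  have hk : k + 2 ≤ 4 := by
    have h1 := Finset.card_le_card hcov
    have h2 := Finset.card_union_le H (H.image (fun i => i - 1))
    have h3 := Finset.card_image_le (s := H) (f := fun i => i - 1)
    rw [Finset.card_univ, Fintype.card_fin] at h1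
    omega
  obtain rfl | rfl | rfl : k = 0 ∨ k = 1 ∨ k = 2 := by omega
  · have h0 := hadj 0
    have h1 := hadj 1
    rw [Fin.sum_univ_two]
    exact cyc2 _ _ h0 h1
  · have h0 := hadj 0
    have h1 := hadj 1
    have h2 := hadj 2
    rw [Fin.sum_univ_three]
    exact cyc3 _ _ h0 _ h1 h2
  · have h0 := hadj 0
    have h1 := hadj 1
    have h2 := hadj 2
    have h3 := hadj 3
    rw [Fin.sum_univ_four]
    exact cyc4 _ _ h0 _ h1 (fun h => by have := hc h; revert this; decide) _ h2 h3
      (fun h => by have := hc h; revert this; decide)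

/-- The negation of the preceding statement: In every finite nonempty loopless digraph with arc weights in [0,1] where each vertex has total out-weight at least 1 and total in-weight at least 1, some directed cycle has total weight at least 1. -/
theorem result :
    ¬ (∀ (V : Type) [Fintype V] [Nonempty V] (G : Digraph V) (p : V → V → ℝ),
      (∀ v, ¬ G.Adj v v) →
      (∀ u v, 0 ≤ p u v ∧ p u v ≤ 1) →
      (∀ u v, ¬ G.Adj u v → p u v = 0) →
      (∀ u, 1 ≤ ∑ v, p u v) →
      (∀ u, 1 ≤ ∑ v, p v u) →
      ∃ (k : ℕ) (c : Fin (k + 2) → V),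
        Function.Injective c ∧
        (∀ i, G.Adj (c i) (c (i + 1))) ∧
        1 ≤ ∑ i, p (c i) (c (i + 1))) := by
  intro H
  obtain ⟨k, c, hc, hadj, hw⟩ := H (Fin 14) ⟨fun u v => P u v ≠ 0⟩ (fun u v => (P u v : ℝ) / 21)
    (fun v h => h (irr v))
    (fun u v => by
      constructor
      · positivity
      · rw [div_le_one (by norm_num)]
        exact_mod_cast le21 u v)
    (fun u v h => by
      have : P u v = 0 := by
        by_contra h'
        exact h h'
      rw [this]
      simp)
    (fun u => by
      rw [← Finset.sum_div, le_div_iff₀ (by norm_num)]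
      have := outw u
      have h2 : ((21 : ℕ) : ℝ) ≤ ((∑ v, P u v : ℕ) : ℝ) := by exact_mod_cast this
      push_cast at h2
      linarith)
    (fun u => by
      rw [← Finset.sum_div, le_div_iff₀ (by norm_num)]
      have := inw u
      have h2 : ((21 : ℕ) : ℝ) ≤ ((∑ v, P v u : ℕ) : ℝ) := by exact_mod_cast this
      push_cast at h2
      linarith)
  have h := main k c hc hadj
  rw [← Finset.sum_div, le_div_iff₀ (by norm_num)] at hw
  have h2 : ((∑ i, P (c i) (c (i + 1)) : ℕ) : ℝ) ≤ 20 := by exact_mod_cast h
  push_cast at h2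
  linarith

end Pool.Agent.S07056
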