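import Pool.Statements.S07058

set_option autoImplicit false
open Pool Pool.MP_095a77_co

namespace Pool.Agent.S07058

/-- The index set of the connection set: 1..m, N-m..N-1 and (if e) M, where N = 2 M. -/
def I (m M : ℕ) (e : Bool) : Finset ℕ :=
  (Finset.Icc 1 m ∪ Finset.Ico (2 * M - m) (2 * M)) ∪ (if e then {M} else ∅)

theorem mem_I {m M : ℕ} {e : Bool} {i : ℕ} :
    i ∈ I m M e ↔ ((1 ≤ i ∧ i ≤ m) ∨ (2 * M - m ≤ i ∧ i < 2 * M)) ∨ (e = true ∧ i = M) := by
  unfold I
  cases e
  · simp
  · simp only [if_true, Finset.mem_union, Finset.mem_Icc, Finset.mem_Ico, Finset.mem_singleton,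
      true_and]

theorem card_I {m M : ℕ} (e : Bool) (h : m < M) : (I m M e).card = 2 * m + (if e then 1 else 0) := by
  unfold I
  have h1 : Disjoint (Finset.Icc 1 m) (Finset.Ico (2 * M - m) (2 * M)) := by
    rw [Finset.disjoint_left]
    intro a ha hb
    simp only [Finset.mem_Icc, Finset.mem_Ico] at ha hb
    omega
  have h2 : Disjoint (Finset.Icc 1 m ∪ Finset.Ico (2 * M - m) (2 * M))
      (if e then ({M} : Finset ℕ) else ∅) := by
    rw [Finset.disjoint_left]
    intro a ha hb
    simp only [Finset.mem_union, Finset.mem_Icc, Finset.mem_Ico] at ha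
    cases e
    · simp at hb
    · simp at hb
      omega
  rw [Finset.card_union_of_disjoint h2, Finset.card_union_of_disjoint h1]
  cases e
  · simp
    omega
  · simp
    omega

theorem I_lt {m M : ℕ} {e : Bool} {i : ℕ} (h : m < M) (hi : i ∈ I m M e) : 0 < i ∧ i < 2 * M := by
  rw [mem_I] at hi
  rcases hi with (hi | hi) | hi <;> omega

theorem I_symm {m M : ℕ} {e : Bool} {i : ℕ} (h : m < M) (hi : i ∈ I m M e) :
    2 * M - i ∈ I m M e := by
  rw [mem_I] at hi ⊢
  rcases hi with (hi | hi) | ⟨he, hi⟩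
  · left; right; omega
  · left; left; omega
  · right; exact ⟨he, by omega⟩

/-- The circulant graph. -/
def G (m M : ℕ) (e : Bool) (h : m < M) : SimpleGraph (ZMod (2 * M)) where
  Adj x y := ∃ i ∈ I m M e, y = x + (i : ZMod (2 * M))
  symm := ⟨by
    rintro x y ⟨i, hi, rfl⟩
    refine ⟨2 * M - i, I_symm h hi, ?_⟩
    have := (I_lt h hi).2
    rw [Nat.cast_sub this.le, ZMod.natCast_self]
    ring⟩
  loopless := ⟨by
    rintro x ⟨i, hi, hx⟩
    have h2 := I_lt h hi
    have h3 : (i : ZMod (2 * M)) = 0 := by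
      have : x + 0 = x + (i : ZMod (2 * M)) := by rw [add_zero]; exact hx
      exact (add_left_cancel this).symm
    rw [ZMod.natCast_eq_zero_iff] at h3
    have := Nat.le_of_dvd h2.1 h3
    omega⟩

theorem cast_inj {m M : ℕ} {e : Bool} (h : m < M) (x : ZMod (2 * M)) :
    Set.InjOn (fun i : ℕ => x + (i : ZMod (2 * M))) (I m M e : Set ℕ) := by
  intro i hi j hj hij
  have hi' := I_lt h (Finset.mem_coe.mp hi)
  have hj' := I_lt h (Finset.mem_coe.mp hj)
  have h3 : (i : ZMod (2 * M)) = (j : ZMod (2 * M)) := add_left_cancel hij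
  rw [ZMod.natCast_eq_natCast_iff'] at h3
  rwa [Nat.mod_eq_of_lt hi'.2, Nat.mod_eq_of_lt hj'.2] at h3

theorem nbr {m M : ℕ} {e : Bool} (h : m < M) (x : ZMod (2 * M))
    [Fintype ((G m M e h).neighborSet x)] :
    (G m M e h).neighborFinset x = (I m M e).image (fun i : ℕ => x + (i : ZMod (2 * M))) := by
  ext y
  rw [SimpleGraph.mem_neighborFinset]
  simp only [Finset.mem_image]
  constructor
  · rintro ⟨i, hi, rfl⟩
    exact ⟨i, hi, rfl⟩
  · rintro ⟨i, hi, rfl⟩
    exact ⟨i, hi, rfl⟩

theorem card_nbr {m M : ℕ} {e : Bool} (h : m < M) (x : ZMod (2 * M))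
    [Fintype ((G m M e h).neighborSet x)] :
    ((G m M e h).neighborFinset x).card = 2 * m + (if e then 1 else 0) := by
  rw [nbr, Finset.card_image_of_injOn (cast_inj h x), card_I e h]

/-- Key count: a set that contains v but not v+1. -/
theorem key {m M : ℕ} {e : Bool} (h : m < M) (hm : 1 ≤ m) (v : ZMod (2 * M))
    (A B : Finset (ZMod (2 * M))) (hAB : Disjoint A B) (hv : v ∈ A) (hv' : v + 1 ∈ B)
    [Fintype ((G m M e h).neighborSet v)] [Fintype ((G m M e h).neighborSet (v + 1))] :
    ((G m M e h).neighborFinset v ∩ A).card + ((G m M e h).neighborFinset (v + 1) ∩ B).card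
      ≤ 2 * m + (if e then 2 else 0) := by
  classical
  rw [← Finset.card_union_of_disjoint
    (Finset.disjoint_of_subset_left Finset.inter_subset_right
      (Finset.disjoint_of_subset_right Finset.inter_subset_right hAB))]
  set X := (I m M e).image (fun i : ℕ => v + (i : ZMod (2 * M))) with hX
  have hsub : ((G m M e h).neighborFinset v ∩ A) ∪ ((G m M e h).neighborFinset (v + 1) ∩ B) ⊆
      (X.erase (v + 1)) ∪ (if e then {v + ((m + 1 : ℕ) : ZMod (2 * M)), v + ((M + 1 : ℕ) : ZMod (2 * M))}
        else {v + ((m + 1 : ℕ) : ZMod (2 * M))}) := by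
    intro y hy
    rw [Finset.mem_union] at hy
    rcases hy with hy | hy
    · rw [Finset.mem_inter, nbr] at hy
      rw [Finset.mem_union]
      left
      rw [Finset.mem_erase]
      refine ⟨?_, hy.1⟩
      rintro rfl
      exact (Finset.disjoint_left.mp hAB hy.2) hv'
    · rw [Finset.mem_inter, nbr, Finset.mem_image] at hy
      obtain ⟨⟨i, hi, rfl⟩, hyB⟩ := hy
      have hne : v + 1 + (i : ZMod (2 * M)) ≠ v := by
        intro hh
        rw [hh] at hyB
        exact (Finset.disjoint_left.mp hAB hv) hyB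
      have hI := I_lt h hi
      have h1 : v + 1 + (i : ZMod (2 * M)) = v + ((i + 1 : ℕ) : ZMod (2 * M)) := by
        push_cast; ring
      have hne2 : i + 1 ≠ 2 * M := by
        intro hh
        apply hne
        rw [h1, hh, ZMod.natCast_self, add_zero]
      have hne3 : v + 1 + (i : ZMod (2 * M)) ≠ v + 1 := by
        intro hh
        have h4 : (i : ZMod (2 * M)) = 0 := by
          have : v + 1 + (i : ZMod (2 * M)) = v + 1 + 0 := by rw [hh, add_zero]
          exact add_left_cancel this
        rw [ZMod.natCast_eq_zero_iff] at h4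
        have := Nat.le_of_dvd hI.1 h4
        omega
      rw [Finset.mem_union, Finset.mem_erase]
      rw [mem_I] at hi
      by_cases hc : (i + 1) ∈ I m M e
      · left
        refine ⟨hne3, ?_⟩
        rw [hX, Finset.mem_image]
        exact ⟨i + 1, hc, h1.symm⟩
      · right
        rw [mem_I] at hc
        rw [h1]
        have h5 : i = m ∨ (e = true ∧ i = M) := by
          rcases hi with (hi | hi) | hi
          · by_cases him : i = m
            · exact Or.inl him
            · exfalso
              apply hc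
              left; left; omega
          · exfalso
            apply hc
            left; right; omega
          · exact Or.inr hi
        rcases h5 with rfl | ⟨he, rfl⟩
        · cases e <;> simp
        · subst he
          simp
  refine (Finset.card_le_card hsub).trans ?_
  refine (Finset.card_union_le _ _).trans ?_
  have hmem : v + 1 ∈ X := by
    rw [hX, Finset.mem_image]
    refine ⟨1, ?_, by simp⟩
    rw [mem_I]
    omega
  rw [Finset.card_erase_of_mem hmem, hX, Finset.card_image_of_injOn (cast_inj h v), card_I e h]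
  cases e
  · simp
    omega
  · simp only [if_true]
    have := Finset.card_le_two (a := v + ((m + 1 : ℕ) : ZMod (2 * M)))
      (b := v + ((M + 1 : ℕ) : ZMod (2 * M)))
    omega

theorem exists_step {N : ℕ} [NeZero N] (A : Finset (ZMod N)) (hA : A.Nonempty) (hA' : Aᶜ.Nonempty) :
    ∃ v, v ∈ A ∧ v + 1 ∈ Aᶜ := by
  by_contra hcon
  have hstep : ∀ v, v ∈ A → v + 1 ∈ A := by
    intro v hv
    by_contra hv'
    exact hcon ⟨v, hv, Finset.mem_compl.mpr hv'⟩
  obtain ⟨a, ha⟩ := hA
  obtain ⟨b, hb⟩ := hA'
  have hall : ∀ k : ℕ, a + (k : ZMod N) ∈ A := by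
    intro k
    induction k with
    | zero => simpa using ha
    | succ k ih =>
      have := hstep _ ih
      rw [Nat.cast_succ, ← add_assoc]
      exact this
  have := hall (b - a).val
  rw [ZMod.natCast_zmod_val] at this
  rw [add_sub_cancel] at this
  exact (Finset.mem_compl.mp hb) this

/-- The negation of the preceding statement: For every integer δ≥1 there are d and n0 so that every d-regular graph on more than n0 vertices splits into two nonempty parts where each vertex has at least d/2+δ neighbours in its own part. -/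
theorem result :
    ¬ (∀ δ : ℕ, 1 ≤ δ → ∃ d n₀ : ℕ, ∀ (V : Type) [Fintype V] [DecidableEq V]
      (G : SimpleGraph V) [DecidableRel G.Adj],
      G.IsRegularOfDegree d → n₀ < Fintype.card V →
      ∃ A : Finset V, A.Nonempty ∧ Aᶜ.Nonempty ∧
        (∀ v ∈ A, (d : ℝ) / 2 + (δ : ℝ) ≤ ((G.neighborFinset v ∩ A).card : ℝ)) ∧
        (∀ v ∈ Aᶜ, (d : ℝ) / 2 + (δ : ℝ) ≤ ((G.neighborFinset v ∩ Aᶜ).card : ℝ))) := by
  classical
  intro H
  obtain ⟨d, n₀, hd⟩ := H 1 le_rfl
  -- write d = 2 m + (0 or 1)
  obtain ⟨m, e, hme⟩ : ∃ (m : ℕ) (e : Bool), d = 2 * m + (if e then 1 else 0) := by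
    rcases Nat.even_or_odd' d with ⟨k, hk | hk⟩
    · exact ⟨k, false, by simpa using hk⟩
    · exact ⟨k, true, by simpa using hk⟩
  have hM : m < m + n₀ + 1 := by omega
  have : NeZero (2 * (m + n₀ + 1)) := ⟨by omega⟩
  obtain ⟨A, hA, hA', h1, h2⟩ := hd (ZMod (2 * (m + n₀ + 1))) (G m (m + n₀ + 1) e hM)
    (by
      intro v
      rw [← SimpleGraph.card_neighborFinset_eq_degree, card_nbr, hme])
    (by rw [ZMod.card]; omega)
  obtain ⟨v, hv, hv'⟩ := exists_step A hA hA'
  have a1 := h1 v hv
  have a2 := h2 (v + 1) hv'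
  have c1 : (((G m (m + n₀ + 1) e hM).neighborFinset v ∩ A).card : ℝ) ≤ d := by
    have := Finset.card_le_card (Finset.inter_subset_left
      (s₁ := (G m (m + n₀ + 1) e hM).neighborFinset v) (s₂ := A))
    rw [card_nbr, ← hme] at this
    exact_mod_cast this
  have hd2 : (2 : ℝ) ≤ d := by
    push_cast at a1
    linarith
  have hd2' : 2 ≤ d := by exact_mod_cast hd2
  have hm : 1 ≤ m := by
    rw [hme] at hd2'
    cases e
    · simp at hd2'
      omega
    · simp at hd2'
      omega
  have k := key (e := e) hM hm v A Aᶜ disjoint_compl_right hv hv'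
  -- integrality
  have b1 : d + 2 ≤ 2 * ((G m (m + n₀ + 1) e hM).neighborFinset v ∩ A).card := by
    have : ((d : ℝ) + 2) ≤ 2 * (((G m (m + n₀ + 1) e hM).neighborFinset v ∩ A).card : ℝ) := by
      push_cast at a1
      linarith
    exact_mod_cast this
  have b2 : d + 2 ≤ 2 * ((G m (m + n₀ + 1) e hM).neighborFinset (v + 1) ∩ Aᶜ).card := by
    have : ((d : ℝ) + 2) ≤ 2 * (((G m (m + n₀ + 1) e hM).neighborFinset (v + 1) ∩ Aᶜ).card : ℝ) := by
      push_cast at a2
      linarith
    exact_mod_cast this
  cases e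
  · simp at hme k
    omega
  · simp at hme k
    omega

end Pool.Agent.S07058
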