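import Pool.Statements.S07083
import Pool.Agent.H29Str.Main

set_option autoImplicit false
open Pool Pool.MP_0a0262_co

namespace Pool.Agent.S07083

/-- For every ε>0, for all large n, every A ⊆ {0,1}^(n+1) of size 2^n admits a bijection from {0,1}^n onto A whose average Hamming stretch over cube edges is at most ε·√n. -/
theorem result :
    ∀ ε : ℝ, 0 < ε → ∃ N : ℕ, ∀ n : ℕ, N ≤ n →
      ∀ A : Finset (Fin (n + 1) → Bool), A.card = 2 ^ n →
        ∃ φ : (Fin n → Bool) ≃ A,
          (∑ x : Fin n → Bool, ∑ i : Fin n,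
              (hammingDist (φ x).1 (φ (Function.update x i (!x i))).1 : ℝ))
            / ((n : ℝ) * 2 ^ n) ≤ ε * Real.sqrt n := by
  intro ε hε
  exact H29Str.main_asym ε hε

end Pool.Agent.S07083
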