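import Pool.Statements.S07094
import Mathlib

set_option autoImplicit false
open Pool Pool.MP_0a7691_co

namespace Pool.Agent.S07094

open SimpleGraph

/-- `S`-type vertices: even index below `2s+1`. -/
def isS (s i : ℕ) : Prop := i % 2 = 0 ∧ i < 2 * s + 1

/-- The graph: `S`-type vertices are adjacent to everything, odd indices below `2s+1` are
independent with neighbourhood `S`, indices at least `2s+1` form a clique. -/
def gr (s n : ℕ) : SimpleGraph (Fin n) where
  Adj u v := u ≠ v ∧ (isS s u.val ∨ isS s v.val ∨ (2 * s + 1 ≤ u.val ∧ 2 * s + 1 ≤ v.val))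
  symm := ⟨by
    rintro u v ⟨h, h'⟩
    refine ⟨h.symm, ?_⟩
    tauto⟩
  loopless := ⟨by
    rintro u ⟨h, _⟩
    exact h rfl⟩

lemma gr_adj {s n : ℕ} {u v : Fin n} : (gr s n).Adj u v ↔
    u ≠ v ∧ (isS s u.val ∨ isS s v.val ∨ (2 * s + 1 ≤ u.val ∧ 2 * s + 1 ≤ v.val)) := Iff.rfl

/-- the weight -/
def w (s i : ℕ) : ℤ := if i < 2 * s + 1 then (if i % 2 = 0 then 1 else -1) else 0

lemma sum_alt (m : ℕ) : ∑ i ∈ Finset.range (2 * m + 1), (if i % 2 = 0 then (1 : ℤ) else -1) = 1 := by
  induction m with
  | zero => simp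
  | succ m ih =>
    rw [show 2 * (m + 1) + 1 = (2 * m + 1) + 1 + 1 by ring, Finset.sum_range_succ,
      Finset.sum_range_succ, ih]
    have h1 : (2 * m + 1) % 2 = 1 := by omega
    have h2 : (2 * m + 1 + 1) % 2 = 0 := by omega
    simp [h1, h2]

lemma sum_w (s r : ℕ) : ∑ i ∈ Finset.range (2 * s + 1 + r), w s i = 1 := by
  induction r with
  | zero =>
    rw [add_zero]
    rw [← sum_alt s]
    apply Finset.sum_congr rfl
    intro i hi
    rw [Finset.mem_range] at hi
    simp [w, hi]
  | succ r ih =>
    rw [← add_assoc, Finset.sum_range_succ, ih]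
    have : ¬ (2 * s + 1 + r < 2 * s + 1) := by omega
    rw [w, if_neg this]
    rfl

lemma sum_w_fin (s n : ℕ) (hn : 2 * s + 1 ≤ n) : ∑ i : Fin n, w s i.val = 1 := by
  obtain ⟨r, rfl⟩ := Nat.exists_eq_add_of_le hn
  rw [Fin.sum_univ_eq_sum_range (fun i => w s i) (2 * s + 1 + r)]
  exact sum_w s r

lemma list_sum_ge {α : Type*} [DecidableEq α] (l : List α) (g : α → ℤ)
    (hg : ∀ a ∈ l, 0 ≤ g a) (a b : α) (ha : a ∈ l) (hb : b ∈ l) (hab : a ≠ b) :
    g a + g b ≤ (l.map g).sum := by
  have h1 : l.Perm (a :: l.erase a) := List.perm_cons_erase ha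
  have hb' : b ∈ l.erase a := (List.mem_erase_of_ne hab.symm).2 hb
  have h2 : (l.erase a).Perm (b :: (l.erase a).erase b) := List.perm_cons_erase hb'
  have h3 : (l.map g).sum = g a + (g b + (((l.erase a).erase b).map g).sum) := by
    rw [(h1.map g).sum_eq, List.map_cons, List.sum_cons, (h2.map g).sum_eq, List.map_cons,
      List.sum_cons]
  have h4 : 0 ≤ (((l.erase a).erase b).map g).sum := by
    apply List.sum_nonneg
    intro x hx
    rw [List.mem_map] at hx
    obtain ⟨y, hy, rfl⟩ := hx
    exact hg y (List.mem_of_mem_erase (List.mem_of_mem_erase hy))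
  rw [h3]
  linarith

lemma sum_darts {s n : ℕ} (hn : 2 * s + 1 ≤ n) {u : Fin n} (p : (gr s n).Walk u u)
    (hp : p.IsHamiltonianCycle) :
    (p.darts.map (fun d => w s d.fst.val + w s d.snd.val)).sum = 2 := by
  have hnil : ¬ p.Nil := hp.isCycle.not_nil
  have h1 : (p.support.tail.map (fun v : Fin n => w s v.val)).sum = 1 := by
    have hnd : p.support.tail.Nodup := hp.isCycle.support_nodup
    have := List.sum_toFinset (fun v : Fin n => w s v.val) hnd
    rw [← this]
    have hu : p.support.tail.toFinset = Finset.univ := by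
      ext v
      simp only [List.mem_toFinset, Finset.mem_univ, iff_true]
      have := hp.isHamiltonian_tail.mem_support v
      rwa [Walk.support_tail_of_not_nil p hnil] at this
    rw [hu]
    exact sum_w_fin s n hn
  have h2 : (p.support.dropLast.map (fun v : Fin n => w s v.val)).sum = 1 := by
    have e1 : p.support.dropLast ++ [u] = u :: p.support.tail := by
      rw [← Walk.map_fst_darts, ← Walk.map_snd_darts, Walk.map_fst_darts_append,
        Walk.cons_map_snd_darts]
    have e2 := congrArg (fun l => (List.map (fun v : Fin n => w s v.val) l).sum) e1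
    simp only [List.map_append, List.sum_append, List.map_cons, List.map_nil, List.sum_cons,
      List.sum_nil] at e2
    linarith
  have h3 : (p.darts.map (fun d => w s d.fst.val + w s d.snd.val)).sum
      = (p.darts.map (fun d => w s d.fst.val)).sum + (p.darts.map (fun d => w s d.snd.val)).sum := by
    rw [List.sum_map_add]
  have h4 : (p.darts.map (fun d => w s d.fst.val)) =
      (p.support.dropLast.map (fun v : Fin n => w s v.val)) := by
    rw [← Walk.map_fst_darts, List.map_map]
    rfl
  have h5 : (p.darts.map (fun d => w s d.snd.val)) =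
      (p.support.tail.map (fun v : Fin n => w s v.val)) := by
    rw [← Walk.map_snd_darts, List.map_map]
    rfl
  rw [h3, h4, h5, h1, h2]
  norm_num

lemma no_SS {s n : ℕ} (hn : 2 * s + 1 < n) {u : Fin n} (p : (gr s n).Walk u u)
    (hp : p.IsHamiltonianCycle) (a b : Fin n) (ha : isS s a.val) (hb : isS s b.val) :
    s(a, b) ∉ p.edges := by
  classical
  intro he
  have hsum := sum_darts hn.le p hp
  rw [Walk.edges, List.mem_map] at he
  obtain ⟨d1, hd1, hde⟩ := he
  -- weights
  set g : (gr s n).Dart → ℤ := fun d => w s d.fst.val + w s d.snd.val with hg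
  have hnonneg : ∀ d ∈ p.darts, 0 ≤ g d := by
    intro d _
    have had := gr_adj.1 d.adj
    simp only [hg, w, isS] at had ⊢
    split_ifs <;> omega
  have hgd1 : g d1 = 2 := by
    have : (d1.fst = a ∧ d1.snd = b) ∨ (d1.fst = b ∧ d1.snd = a) := by
      have h : s(d1.fst, d1.snd) = s(a, b) := by
        rw [← hde]; rfl
      rw [Sym2.eq_iff] at h
      exact h
    rcases this with ⟨h1, h2⟩ | ⟨h1, h2⟩ <;>
    · simp only [hg, h1, h2, w, ha.1, ha.2, hb.1, hb.2, if_true]
      norm_num
  -- a crossing dart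
  let T : Set (Fin n) := {v | v.val < 2 * s + 1}
  have hcross : ∃ d2 ∈ p.darts, g d2 = 1 := by
    have hlast : (⟨2 * s + 1, hn⟩ : Fin n) ∈ p.support := hp.mem_support _
    have hzero : (⟨0, by omega⟩ : Fin n) ∈ p.support := hp.mem_support _
    by_cases hu : u ∈ T
    · obtain ⟨d, hd, h1, h2⟩ := (p.takeUntil _ hlast).exists_boundary_dart T hu (by simp [T])
      refine ⟨d, p.darts_takeUntil_subset_darts _ hd, ?_⟩
      have had := gr_adj.1 d.adj
      simp only [T, Set.mem_ofPred_eq] at h1 h2
      simp only [hg, w, isS] at had ⊢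
      split_ifs <;> omega
    · obtain ⟨d, hd, h1, h2⟩ := (p.takeUntil _ hzero).exists_boundary_dart Tᶜ hu (by simp [T])
      refine ⟨d, p.darts_takeUntil_subset_darts _ hd, ?_⟩
      have had := gr_adj.1 d.adj
      simp only [T, Set.mem_compl_iff, Set.mem_ofPred_eq, not_not] at h1 h2
      simp only [hg, w, isS] at had ⊢
      split_ifs <;> omega
  obtain ⟨d2, hd2, hg2⟩ := hcross
  have hne : d1 ≠ d2 := by
    intro h
    rw [h] at hgd1
    omega
  have := list_sum_ge p.darts g hnonneg d1 d2 hd1 hd2 hne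
  rw [hsum, hgd1, hg2] at this
  omega

lemma conn {k n : ℕ} (hn : 2 * (k + 1) + 1 < n) (S : Finset (Fin n)) (hS : S.card < k) :
    ((gr (k + 1) n).induce ((↑S : Set (Fin n))ᶜ)).Connected := by
  classical
  have hinj : Function.Injective (fun i : Fin (k + 2) => (⟨2 * i.val, by omega⟩ : Fin n)) := by
    intro i j hij
    simp only [Fin.mk.injEq] at hij
    apply Fin.ext
    omega
  let T : Finset (Fin n) := Finset.univ.map ⟨_, hinj⟩
  have hT : T.card = k + 2 := by simp [T]
  obtain ⟨v, hvT, hvS⟩ := Finset.exists_mem_notMem_of_card_lt_card (show S.card < T.card by omega)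
  have hv : isS (k + 1) v.val := by
    simp only [T, Finset.mem_map, Finset.mem_univ, Function.Embedding.coeFn_mk, true_and] at hvT
    obtain ⟨i, rfl⟩ := hvT
    refine ⟨by simp, ?_⟩
    simp only
    omega
  rw [connected_iff_exists_forall_reachable]
  refine ⟨⟨v, by simpa using hvS⟩, ?_⟩
  rintro ⟨x, hx⟩
  by_cases hxv : v = x
  · subst hxv
    rfl
  · apply Adj.reachable
    rw [SimpleGraph.induce_adj]
    exact gr_adj.2 ⟨hxv, Or.inl hv⟩

lemma cyc_le {s m : ℕ} (hn : 2 * s + 1 < m + 3) : cycleGraph (m + 3) ≤ gr s (m + 3) := by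
  have key : ∀ u v : Fin (m + 3), (u - v).val = 1 → (gr s (m + 3)).Adj u v := by
    intro u v h
    have hu := u.isLt
    have hv := v.isLt
    rw [Fin.val_sub] at h
    have hcases : u.val = v.val + 1 ∨ (u.val = 0 ∧ v.val = m + 2) := by
      by_cases hc : m + 3 - v.val + u.val < m + 3
      · rw [Nat.mod_eq_of_lt hc] at h
        omega
      · rw [Nat.mod_eq_sub_mod (by omega), Nat.mod_eq_of_lt (by omega)] at h
        omega
    rw [gr_adj]
    refine ⟨?_, ?_⟩
    · intro huv
      rw [huv] at hcases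
      omega
    · simp only [isS]
      omega
  intro u v h
  rw [cycleGraph_adj'] at h
  rcases h with h | h
  · exact key u v h
  · exact (key v u h).symm

lemma ham {s m : ℕ} (hn : 2 * s + 1 < m + 3) : (gr s (m + 3)).IsHamiltonian := by
  apply IsHamiltonian.mono (cyc_le hn)
  intro _
  refine ⟨0, cycleGraph.cycle m, ?_⟩
  rw [Walk.isHamiltonianCycle_iff_isCycle_and_length_eq]
  refine ⟨cycleGraph.isCycle_cycle, ?_⟩
  rw [cycleGraph.length_cycle]
  simp

lemma indep_le {s n : ℕ} : (gr s n).indepNum ≤ s + 1 := by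
  classical
  obtain ⟨T, hT⟩ := (gr s n).exists_isNIndepSet_indepNum
  have hcard : T.card = (gr s n).indepNum := hT.card_eq
  rw [← hcard]
  have hind := hT.isIndepSet
  by_cases hS : ∃ v ∈ T, isS s v.val
  · obtain ⟨v, hv, hvS⟩ := hS
    have : T ⊆ {v} := by
      intro x hx
      rw [Finset.mem_singleton]
      by_contra hne
      exact hind (by exact_mod_cast hx) (by exact_mod_cast hv) hne
        (gr_adj.2 ⟨hne, Or.inr (Or.inl hvS)⟩)
    have := Finset.card_le_card this
    rw [Finset.card_singleton] at this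
    omega
  · push Not at hS
    have hmap : ∀ x ∈ T, (if x.val < 2 * s + 1 then x.val / 2 else s) ∈ Finset.range (s + 1) := by
      intro x hx
      rw [Finset.mem_range]
      split_ifs <;> omega
    have hinj : Set.InjOn (fun x : Fin n => if x.val < 2 * s + 1 then x.val / 2 else s) (T : Set (Fin n)) := by
      intro x hx y hy hxy
      have hx1 := hS x (by exact_mod_cast hx)
      have hy1 := hS y (by exact_mod_cast hy)
      simp only [isS] at hx1 hy1
      simp only at hxy
      by_contra hne
      have hnadj := hind hx hy hne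
      have hnadj' : ¬ (2 * s + 1 ≤ x.val ∧ 2 * s + 1 ≤ y.val) := by
        intro h
        exact hnadj (gr_adj.2 ⟨hne, Or.inr (Or.inr h)⟩)
      apply hne
      apply Fin.ext
      split_ifs at hxy <;> omega
    have := Finset.card_le_card_of_injOn _ hmap hinj
    rwa [Finset.card_range] at this

lemma tri {s n : ℕ} (hs : 1 ≤ s) (hn : 2 * s + 1 < n) :
    ∃ (u : Fin n) (p : (gr s n).Walk u u), p.IsCycle ∧
      s((⟨0, by omega⟩ : Fin n), (⟨2, by omega⟩ : Fin n)) ∈ p.edges := by
  have h1 : (gr s n).Adj (⟨0, by omega⟩ : Fin n) (⟨2, by omega⟩ : Fin n) := by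
    rw [gr_adj]
    refine ⟨by simp, Or.inl ⟨by simp, by simp⟩⟩
  have h2 : (gr s n).Adj (⟨2, by omega⟩ : Fin n) (⟨2 * s + 1, hn⟩ : Fin n) := by
    rw [gr_adj]
    refine ⟨fun h => by simp only [Fin.mk.injEq] at h; omega, Or.inl ⟨by simp, by show 2 < 2 * s + 1; omega⟩⟩
  have h3 : (gr s n).Adj (⟨2 * s + 1, hn⟩ : Fin n) (⟨0, by omega⟩ : Fin n) := by
    rw [gr_adj]
    refine ⟨by simp, Or.inr (Or.inl ⟨by simp, by simp⟩)⟩
  refine ⟨_, Walk.cons h1 (Walk.cons h2 (Walk.cons h3 Walk.nil)), ?_, ?_⟩
  · rw [Walk.cons_isCycle_iff]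
    constructor
    · simp only [Walk.cons_isPath_iff, Walk.IsPath.nil, Walk.support_cons, Walk.support_nil,
        List.mem_cons, List.not_mem_nil, Fin.mk.injEq, or_false, true_and]
      constructor
      · omega
      · omega
    · simp only [Walk.edges_cons, Walk.edges_nil, List.mem_cons, List.not_mem_nil, or_false,
        Sym2.eq_iff, Fin.mk.injEq]
      omega
  · simp

/-- The negation of the preceding statement: There exist k and f such that every k-connected Hamiltonian graph on an odd number n of vertices with n at least f(independence number) has its Hamilton cycles spanning its whole cycle space over GF(2). -/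
theorem result :
    ¬ (∃ k : ℕ, ∃ f : ℕ → ℕ,
      ∀ (V : Type) [Fintype V] [DecidableEq V] (G : SimpleGraph V),
        Odd (Fintype.card V) →
        (k < Fintype.card V ∧
          ∀ S : Finset V, S.card < k → (G.induce ((↑S : Set V)ᶜ)).Connected) →
        G.IsHamiltonian →
        f G.indepNum ≤ Fintype.card V →
        Submodule.span (ZMod 2)
            {x : Sym2 V → ZMod 2 | ∃ (u : V) (p : G.Walk u u),
              p.IsHamiltonianCycle ∧
                x = Set.indicator {e : Sym2 V | e ∈ p.edges} (fun _ => (1 : ZMod 2))} =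
          Submodule.span (ZMod 2)
            {x : Sym2 V → ZMod 2 | ∃ (u : V) (p : G.Walk u u),
              p.IsCycle ∧
                x = Set.indicator {e : Sym2 V | e ∈ p.edges} (fun _ => (1 : ZMod 2))}) := by
  rintro ⟨k, f, h⟩
  -- the size parameter
  set s := k + 1 with hs
  set M := ∑ j ∈ Finset.range (s + 2), f j with hM
  set m := 2 * (s + M) with hm
  have hn : 2 * s + 1 < m + 3 := by omega
  have hodd : Odd (Fintype.card (Fin (m + 3))) := by
    rw [Fintype.card_fin]
    exact ⟨s + M + 1, by omega⟩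
  have hk : k < Fintype.card (Fin (m + 3)) := by
    rw [Fintype.card_fin]
    omega
  have hf : f (gr s (m + 3)).indepNum ≤ Fintype.card (Fin (m + 3)) := by
    rw [Fintype.card_fin]
    have h1 : f (gr s (m + 3)).indepNum ≤ M := by
      apply Finset.single_le_sum (f := f) (fun i _ => Nat.zero_le _)
      rw [Finset.mem_range]
      have := indep_le (s := s) (n := m + 3)
      omega
    omega
  have heq := h (Fin (m + 3)) (gr s (m + 3)) hodd ⟨hk, fun S hS => conn hn S hS⟩ (ham hn) hf
  obtain ⟨u, p, hp, hpe⟩ := tri (s := s) (n := m + 3) (by omega) hn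
  set e : Sym2 (Fin (m + 3)) := s((⟨0, by omega⟩ : Fin (m + 3)), (⟨2, by omega⟩ : Fin (m + 3))) with he
  have hmem : Set.indicator {e : Sym2 (Fin (m + 3)) | e ∈ p.edges} (fun _ => (1 : ZMod 2)) ∈
      Submodule.span (ZMod 2)
            {x : Sym2 (Fin (m + 3)) → ZMod 2 | ∃ (u : Fin (m + 3)) (p : (gr s (m + 3)).Walk u u),
              p.IsHamiltonianCycle ∧
                x = Set.indicator {e : Sym2 (Fin (m + 3)) | e ∈ p.edges} (fun _ => (1 : ZMod 2))} := by
    rw [heq]
    exact Submodule.subset_span ⟨u, p, hp, rfl⟩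
  have hle : Submodule.span (ZMod 2)
            {x : Sym2 (Fin (m + 3)) → ZMod 2 | ∃ (u : Fin (m + 3)) (p : (gr s (m + 3)).Walk u u),
              p.IsHamiltonianCycle ∧
                x = Set.indicator {e : Sym2 (Fin (m + 3)) | e ∈ p.edges} (fun _ => (1 : ZMod 2))}
        ≤ LinearMap.ker (LinearMap.proj (R := ZMod 2) (φ := fun _ : Sym2 (Fin (m + 3)) => ZMod 2) e) := by
    rw [Submodule.span_le]
    rintro x ⟨v, q, hq, rfl⟩
    simp only [SetLike.mem_coe, LinearMap.mem_ker, LinearMap.proj_apply]
    apply Set.indicator_of_notMem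
    simp only [Set.mem_ofPred_eq]
    apply no_SS hn q hq
    · exact ⟨by simp, by simp⟩
    · exact ⟨by simp, by simp; omega⟩
  have h0 := hle hmem
  simp only [LinearMap.mem_ker, LinearMap.proj_apply] at h0
  rw [Set.indicator_of_mem (show e ∈ {e : Sym2 (Fin (m + 3)) | e ∈ p.edges} from hpe)] at h0
  exact one_ne_zero h0

end Pool.Agent.S07094
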