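import Pool.Statements.S07114
-- import your own Pool.Agent.* helpers here

set_option autoImplicit false
open Filter Topology
open Pool Pool.MP_0b90e2_co

namespace Pool.Agent.S07114

/-- the colour of a pair `(a, b)`: free if `a` is in the lower and `b` in the upper half, `0` otherwise -/
def gcol {m : ℕ} (f : Fin m × Fin m → Fin 50) (p : Fin (2 * m) × Fin (2 * m)) : Fin 50 :=
  if h : p.1.val < m ∧ m ≤ p.2.val then
    f (⟨p.1.val, h.1⟩, ⟨p.2.val - m, by have := p.2.isLt; omega⟩) else 0

/-- the colouring of the edges -/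
def ecol {m : ℕ} (f : Fin m × Fin m → Fin 50)
    (e : {e : Sym2 (Fin (2 * m)) // ¬ e.IsDiag}) : Fin 50 :=
  gcol f (e.1.inf, e.1.sup)

lemma ecol_ok {m : ℕ} (f : Fin m × Fin m → Fin 50) (S : Finset (Fin (2 * m))) (hS : S.card = 4) :
    ((Finset.univ.filter
      (fun e : {e : Sym2 (Fin (2 * m)) // ¬ e.IsDiag} => e.1 ∈ S.sym2)).image (ecol f)).card < 6 := by
  classical
  set L := S.filter (fun a => a.val < m) with hL
  set U := S.filter (fun a => ¬ a.val < m) with hU
  have hsum : L.card + U.card = 4 := by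
    rw [← hS]; exact Finset.card_filter_add_card_filter_not _
  have hsub : (Finset.univ.filter
      (fun e : {e : Sym2 (Fin (2 * m)) // ¬ e.IsDiag} => e.1 ∈ S.sym2)).image (ecol f) ⊆
      insert 0 ((L ×ˢ U).image (gcol f)) := by
    intro x hx
    rw [Finset.mem_image] at hx
    obtain ⟨e, he, rfl⟩ := hx
    rw [Finset.mem_filter] at he
    obtain ⟨-, he⟩ := he
    rw [Finset.mem_sym2_iff] at he
    by_cases h : (e.1.inf).val < m ∧ m ≤ (e.1.sup).val
    · rw [Finset.mem_insert]
      right
      rw [Finset.mem_image]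
      refine ⟨(e.1.inf, e.1.sup), ?_, rfl⟩
      rw [Finset.mem_product]
      have h1 : e.1.inf ∈ e.1 := by
        obtain ⟨e, hd⟩ := e
        induction e using Sym2.ind with
        | _ a b =>
          simp only [Sym2.inf_mk, Sym2.mem_iff]
          rcases le_total a b with hab | hab
          · left; exact inf_eq_left.2 hab
          · right; exact inf_eq_right.2 hab
      have h2 : e.1.sup ∈ e.1 := by
        obtain ⟨e, hd⟩ := e
        induction e using Sym2.ind with
        | _ a b =>
          simp only [Sym2.sup_mk, Sym2.mem_iff]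
          rcases le_total a b with hab | hab
          · right; exact sup_eq_right.2 hab
          · left; exact sup_eq_left.2 hab
      constructor
      · rw [hL, Finset.mem_filter]; exact ⟨he _ h1, h.1⟩
      · rw [hU, Finset.mem_filter]; exact ⟨he _ h2, not_lt.2 h.2⟩
    · rw [Finset.mem_insert]
      left
      unfold ecol gcol
      rw [dif_neg h]
  have h1 := Finset.card_le_card hsub
  have h2 := Finset.card_insert_le (0 : Fin 50) ((L ×ˢ U).image (gcol f))
  have h3 : ((L ×ˢ U).image (gcol f)).card ≤ L.card * U.card := by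
    refine Finset.card_image_le.trans ?_
    rw [Finset.card_product]
  have h4 : L.card * U.card ≤ 4 := by
    have : U.card = 4 - L.card := by omega
    rw [this]
    have hle : L.card ≤ 4 := by omega
    interval_cases L.card <;> norm_num
  omega

lemma ecol_inj {m : ℕ} : Function.Injective (ecol (m := m)) := by
  intro f g hfg
  funext p
  obtain ⟨i, j⟩ := p
  have hi := i.isLt
  have hj := j.isLt
  let a : Fin (2 * m) := ⟨i.val, by omega⟩
  let b : Fin (2 * m) := ⟨m + j.val, by omega⟩
  have hab : a < b := by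
    rw [Fin.lt_def]; simp only [a, b]; omega
  have hnd : ¬ (s(a, b)).IsDiag := by
    rw [Sym2.mk_isDiag_iff]; exact hab.ne
  have h := congrFun hfg ⟨s(a, b), hnd⟩
  unfold ecol gcol at h
  have hinf : (s(a, b) : Sym2 (Fin (2 * m))).inf = a := by
    rw [Sym2.inf_mk]; exact inf_eq_left.2 hab.le
  have hsup : (s(a, b) : Sym2 (Fin (2 * m))).sup = b := by
    rw [Sym2.sup_mk]; exact sup_eq_right.2 hab.le
  have hc : (a.val < m ∧ m ≤ b.val) := by
    simp only [a, b]; omega
  simp only [hinf, hsup] at h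
  rw [dif_pos hc, dif_pos hc] at h
  have e1 : (⟨a.val, hc.1⟩ : Fin m) = i := by
    ext; rfl
  have e2 : (⟨b.val - m, by have := b.isLt; omega⟩ : Fin m) = j := by
    ext; simp only [b]; omega
  rw [e1, e2] at h
  exact h

/-- The negation of the preceding statement: For all k≥3, 3≤s≤C(k,2), r≥s: the number of r-colorings of the edges of K_n in which every k-vertex set spans fewer than s colors, divided by C(r,s-1)·(s-1)^{C(n,2)}, tends to 1 as n→∞. -/
theorem result :
    ¬ (∀ k s r : ℕ, 3 ≤ k → 3 ≤ s → s ≤ k.choose 2 → s ≤ r →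
      Tendsto
        (fun n : ℕ =>
          (Nat.card {c : {e : Sym2 (Fin n) // ¬ e.IsDiag} → Fin r //
              ∀ S : Finset (Fin n), S.card = k →
                ((Finset.univ.filter
                    (fun e : {e : Sym2 (Fin n) // ¬ e.IsDiag} => e.1 ∈ S.sym2)).image c).card < s} : ℝ)
            / ((r.choose (s - 1) : ℝ) * ((s : ℝ) - 1) ^ (n.choose 2)))
        atTop (𝓝 1)) := by
  intro H
  have h := H 4 6 50 (by norm_num) (by norm_num) (by decide) (by norm_num)
  have h2 := (h.eventually (gt_mem_nhds (show (1 : ℝ) < 2 by norm_num)))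
  rw [eventually_atTop] at h2
  obtain ⟨N, hN⟩ := h2
  have h3 := hN (2 * (N + 5)) (by omega)
  set m := N + 5 with hm
  have hm5 : 5 ≤ m := by omega
  have hcard : 50 ^ (m * m) ≤ Nat.card {c : {e : Sym2 (Fin (2 * m)) // ¬ e.IsDiag} → Fin 50 //
              ∀ S : Finset (Fin (2 * m)), S.card = 4 →
                ((Finset.univ.filter
                    (fun e : {e : Sym2 (Fin (2 * m)) // ¬ e.IsDiag} => e.1 ∈ S.sym2)).image c).card
                      < 6} := by
    have e1 : Nat.card (Fin m × Fin m → Fin 50) = 50 ^ (m * m) := by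
      rw [Nat.card_eq_fintype_card]
      simp
    rw [← e1]
    apply Nat.card_le_card_of_injective
      (fun f => (⟨ecol f, fun S hS => ecol_ok f S hS⟩ :
        {c : {e : Sym2 (Fin (2 * m)) // ¬ e.IsDiag} → Fin 50 //
              ∀ S : Finset (Fin (2 * m)), S.card = 4 →
                ((Finset.univ.filter
                    (fun e : {e : Sym2 (Fin (2 * m)) // ¬ e.IsDiag} => e.1 ∈ S.sym2)).image c).card
                      < 6}))
    intro f g hfg
    exact ecol_inj (Subtype.ext_iff.1 hfg)
  have hch : (2 * m).choose 2 ≤ 2 * (m * m) := by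
    rw [Nat.choose_two_right]
    have : 2 * m * (2 * m - 1) / 2 ≤ 2 * m * (2 * m) / 2 :=
      Nat.div_le_div_right (Nat.mul_le_mul_left _ (Nat.sub_le _ _))
    refine this.trans ?_
    have e : 2 * m * (2 * m) = 2 * (2 * (m * m)) := by ring
    rw [e, Nat.mul_div_cancel_left _ (by norm_num)]
  have hden : ((Nat.choose 50 (6 - 1) : ℕ) : ℝ) * (((6 : ℕ) : ℝ) - 1) ^ ((2 * m).choose 2)
      ≤ 2118760 * 25 ^ (m * m) := by
    have e1 : ((Nat.choose 50 (6 - 1) : ℕ) : ℝ) = 2118760 := by
      have : Nat.choose 50 (6 - 1) = 2118760 := by decide +kernel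
      rw [this]; norm_num
    have e2 : (((6 : ℕ) : ℝ) - 1) = 5 := by norm_num
    rw [e1, e2]
    have e3 : (25 : ℝ) ^ (m * m) = 5 ^ (2 * (m * m)) := by
      rw [pow_mul (5 : ℝ) 2 (m * m)]; norm_num
    rw [e3]
    have : (5 : ℝ) ^ ((2 * m).choose 2) ≤ 5 ^ (2 * (m * m)) :=
      pow_le_pow_right₀ (by norm_num) hch
    nlinarith
  have hpos : (0 : ℝ) < ((Nat.choose 50 (6 - 1) : ℕ) : ℝ) * (((6 : ℕ) : ℝ) - 1) ^ ((2 * m).choose 2) := by
    have : 0 < Nat.choose 50 (6 - 1) := Nat.choose_pos (by norm_num)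
    have h5 : (0 : ℝ) < ((6 : ℕ) : ℝ) - 1 := by norm_num
    have : (0 : ℝ) < ((Nat.choose 50 (6 - 1) : ℕ) : ℝ) := by exact_mod_cast this
    positivity
  have h4 : (50 : ℝ) ^ (m * m) < 2 * (2118760 * 25 ^ (m * m)) := by
    rw [div_lt_iff₀ hpos] at h3
    have hc : (50 : ℝ) ^ (m * m) ≤ (Nat.card {c : {e : Sym2 (Fin (2 * m)) // ¬ e.IsDiag} → Fin 50 //
              ∀ S : Finset (Fin (2 * m)), S.card = 4 →
                ((Finset.univ.filter
                    (fun e : {e : Sym2 (Fin (2 * m)) // ¬ e.IsDiag} => e.1 ∈ S.sym2)).image c).card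
                      < 6} : ℝ) := by
      exact_mod_cast hcard
    linarith
  have h6 : (50 : ℝ) ^ (m * m) = 2 ^ (m * m) * 25 ^ (m * m) := by
    rw [← mul_pow]; norm_num
  have h7 : (2 : ℝ) ^ 25 ≤ 2 ^ (m * m) := by
    apply pow_le_pow_right₀ (by norm_num)
    nlinarith
  have h8 : (0 : ℝ) < 25 ^ (m * m) := by positivity
  rw [h6] at h4
  have h9 : (2 : ℝ) ^ (m * m) < 2 * 2118760 := by
    by_contra hcon
    rw [not_lt] at hcon
    nlinarith
  norm_num at h7
  linarith

end Pool.Agent.S07114
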