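import Pool.Statements.S07116
import Pool.Agent.FanRD.FIN

set_option autoImplicit false
open Pool Pool.MP_0ba608_co

namespace Pool.Agent.S07116

open MeasureTheory FanRD

/-- the `q`-th coordinate of `(0, y)` as a linear form -/
def VC (n : ℕ) (q : Fin (n + 1)) : (Fin n → ℝ) →ₗ[ℝ] ℝ :=
  Fin.cases (motive := fun _ => (Fin n → ℝ) →ₗ[ℝ] ℝ) 0 (fun k => LinearMap.proj k) q

theorem VC_apply (n : ℕ) (q : Fin (n + 1)) (y : Fin n → ℝ) :
    (Matrix.vecCons (0 : ℝ) y : Fin (n + 1) → ℝ) q = VC n q y := by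
  refine Fin.cases ?_ (fun k => ?_) q
  · simp [VC]
  · simp [VC]

/-- The negation of the preceding statement: For every n ≥ 1 and every finite absolutely continuous measure on ℝⁿ, some invertible affine map sends all n²+n cones of the fan of the polar of T−T (T a simplex) to sets of equal measure. -/
theorem result :
    ¬ (∀ n : ℕ, 1 ≤ n →
      ∀ μ : MeasureTheory.Measure (Fin n → ℝ),
        MeasureTheory.IsFiniteMeasure μ →
        MeasureTheory.Measure.AbsolutelyContinuous μ MeasureTheory.volume →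
        ∃ A : AffineEquiv ℝ (Fin n → ℝ) (Fin n → ℝ), ∃ c : ENNReal,
          ∀ i j : Fin (n + 1), i ≠ j →
            μ (A '' {y : Fin n → ℝ | ∀ k : Fin (n + 1),
                (Matrix.vecCons (0 : ℝ) y : Fin (n + 1) → ℝ) k
                    ≤ (Matrix.vecCons (0 : ℝ) y : Fin (n + 1) → ℝ) i ∧
                  (Matrix.vecCons (0 : ℝ) y : Fin (n + 1) → ℝ) j
                    ≤ (Matrix.vecCons (0 : ℝ) y : Fin (n + 1) → ℝ) k}) = c) := by
  intro H
  obtain ⟨μ, hfin, hac, h⟩ := main_measure 300 le_rfl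
  generalize hl : (300 : ℕ) = l at μ hfin hac h
  haveI := hfin
  haveI := haar_X l
  have hfr : Module.finrank ℝ (X l) = Module.finrank ℝ (Fin (l+4) → ℝ) := by
    simp
    omega
  let T : X l ≃L[ℝ] (Fin (l+4) → ℝ) := ContinuousLinearEquiv.ofFinrankEq hfr
  have hTm : Measurable T := T.continuous.measurable
  have hfin' : IsFiniteMeasure (μ.map T) := Measure.isFiniteMeasure_map μ T
  have hac' : (μ.map T) ≪ (volume : Measure (Fin (l+4) → ℝ)) := by
    have h1 : μ.map T ≪ (volume : Measure (X l)).map T := hac.map hTm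
    haveI h2 : ((volume : Measure (X l)).map T).IsAddHaarMeasure := T.isAddHaarMeasure_map _
    exact h1.trans (Measure.absolutelyContinuous_isAddHaarMeasure _ _)
  obtain ⟨A', c, hA'⟩ := H (l+4) (by omega) (μ.map T) hfin' hac'
  have hmap : ∀ S : Set (Fin (l+4) → ℝ), (μ.map T) S = μ (T ⁻¹' S) := by
    intro S
    exact MeasurableEquiv.map_apply T.toHomeomorph.toMeasurableEquiv S
  have hdec : ∀ y, A'.symm y = A'.symm.linear y + A'.symm 0 := by
    intro y
    have := A'.symm.map_vadd 0 y
    simpa using this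
  let Lq : Fin (l + 5) → (X l →ₗ[ℝ] ℝ) := fun q =>
    (VC (l+4) q) ∘ₗ (A'.symm.linear.toLinearMap) ∘ₗ T.toLinearEquiv.toLinearMap
  have hLq : ∀ q x, Lq q x = VC (l+4) q (A'.symm.linear (T x)) := by
    intro q x
    rfl
  choose a b g habg using fun q => linear_form l (Lq q)
  let A : Fan l := fun q => (a q, b q, g q, VC (l+4) q (A'.symm 0))
  have hlin : ∀ q x, lin (A q) x = VC (l+4) q (A'.symm.linear (T x)) := by
    intro q x
    rw [← hLq, habg]
    rfl
  have hev : ∀ q x, ev (A q) x = VC (l+4) q (A'.symm (T x)) := by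
    intro q x
    have : ev (A q) x = lin (A q) x + VC (l+4) q (A'.symm 0) := rfl
    rw [this, hlin, hdec (T x), map_add]
  have hND : ND A := by
    intro x hx
    have h1 : ∀ i, VC (l+4) i (A'.symm.linear (T x)) = 0 := by
      intro i
      rw [← hlin, hx i, hlin]
      simp [VC]
    have h3 : A'.symm.linear (T x) = 0 := by
      funext k
      have := h1 k.succ
      simpa [VC] using this
    have h4 : T x = 0 := by
      have := (LinearEquiv.map_eq_zero_iff A'.symm.linear).mp h3
      exact this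
    exact (ContinuousLinearEquiv.map_eq_zero_iff T).mp h4
  refine h A hND fun i j k m hij hkm => ?_
  have hset : ∀ i j : Fin (l+5), T ⁻¹' (A' '' {y : Fin (l+4) → ℝ | ∀ k : Fin (l+4 + 1),
                (Matrix.vecCons (0 : ℝ) y : Fin (l+4 + 1) → ℝ) k
                    ≤ (Matrix.vecCons (0 : ℝ) y : Fin (l+4 + 1) → ℝ) i ∧
                  (Matrix.vecCons (0 : ℝ) y : Fin (l+4 + 1) → ℝ) j
                    ≤ (Matrix.vecCons (0 : ℝ) y : Fin (l+4 + 1) → ℝ) k}) =
      {x | ∀ q, ev (A q) x ≤ ev (A i) x ∧ ev (A j) x ≤ ev (A q) x} := by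
    intro i j
    ext x
    simp only [Set.mem_preimage, Set.mem_image, Set.mem_setOf_eq, VC_apply]
    constructor
    · rintro ⟨y, hy, hyx⟩ q
      have : y = A'.symm (T x) := by rw [← hyx, AffineEquiv.symm_apply_apply]
      rw [hev, hev, hev, ← this]
      exact hy q
    · intro hx
      refine ⟨A'.symm (T x), fun q => ?_, AffineEquiv.apply_symm_apply _ _⟩
      have := hx q
      rw [hev, hev, hev] at this
      exact this
  have e1 := hA' i j hij
  have e2 := hA' k m hkm
  rw [hmap, hset] at e1 e2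
  rw [e1, e2]

end Pool.Agent.S07116
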