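import Pool.Statements.S07138

set_option autoImplicit false
open Pool Pool.MP_0c316d_co

namespace Pool.Agent.S07138

/-- the terminals are the 4-element subsets of a 7-set, the other vertices used are the 7 points,
and a terminal is adjacent to its four points -/
abbrev W : Type := Finset (Fin 7) ⊕ Fin 7

/-- adjacency -/
def adj : W → W → Prop
  | Sum.inl s, Sum.inr x => s.card = 4 ∧ x ∈ s
  | Sum.inr x, Sum.inl s => s.card = 4 ∧ x ∈ s
  | _, _ => False

/-- the incidence graph -/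
def H : SimpleGraph W where
  Adj := adj
  symm := ⟨by rintro (s | x) (t | y) h <;> simp_all [adj]⟩
  loopless := ⟨by rintro (s | x) h <;> simp_all [adj]⟩

/-- the terminals -/
def terms : Finset W := (Finset.powersetCard 4 (Finset.univ : Finset (Fin 7))).map ⟨Sum.inl, Sum.inl_injective⟩

lemma card_terms : terms.card = 35 := by
  rw [terms, Finset.card_map, Finset.card_powersetCard]
  simp
  decide

lemma mem_terms {a : W} (h : a ∈ terms) : ∃ s : Finset (Fin 7), s.card = 4 ∧ a = Sum.inl s := by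
  rw [terms, Finset.mem_map] at h
  obtain ⟨s, hs, rfl⟩ := h
  rw [Finset.mem_powersetCard] at hs
  exact ⟨s, hs.2, rfl⟩

lemma terms_mem {s : Finset (Fin 7)} (h : s.card = 4) : (Sum.inl s : W) ∈ terms := by
  rw [terms, Finset.mem_map]
  exact ⟨s, Finset.mem_powersetCard.2 ⟨Finset.subset_univ _, h⟩, rfl⟩

lemma count : ∀ x y : Fin 7, x ≠ y →
    3 < ((Finset.powersetCard 4 (Finset.univ : Finset (Fin 7))).filter
      (fun s => x ∈ s ∧ y ∈ s)).card := by
  decide +kernel

lemma exists_point {s : Finset (Fin 7)} (hs : s.card = 4) (S : Finset W) (hS : S.card < 4) :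
    ∃ x ∈ s, (Sum.inr x : W) ∉ S := by
  by_contra hcon
  push Not at hcon
  have h1 : (s.map ⟨Sum.inr, Sum.inr_injective⟩ : Finset W) ⊆ S := by
    intro v hv
    rw [Finset.mem_map] at hv
    obtain ⟨x, hx, rfl⟩ := hv
    exact hcon x hx
  have h2 := Finset.card_le_card h1
  rw [Finset.card_map] at h2
  omega

lemma exists_term {x y : Fin 7} (hxy : x ≠ y) (S : Finset W) (hS : S.card < 4) :
    ∃ c : Finset (Fin 7), c.card = 4 ∧ x ∈ c ∧ y ∈ c ∧ (Sum.inl c : W) ∉ S := by
  by_contra hcon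
  push Not at hcon
  have h1 : (((Finset.powersetCard 4 (Finset.univ : Finset (Fin 7))).filter
      (fun s => x ∈ s ∧ y ∈ s)).map ⟨Sum.inl, Sum.inl_injective⟩ : Finset W) ⊆ S := by
    intro v hv
    rw [Finset.mem_map] at hv
    obtain ⟨c, hc, rfl⟩ := hv
    rw [Finset.mem_filter, Finset.mem_powersetCard] at hc
    exact hcon c hc.1.2 hc.2.1 hc.2.2
  have h2 := Finset.card_le_card h1
  rw [Finset.card_map] at h2
  have h3 := count x y hxy
  omega

lemma conn (a : W) (ha : a ∈ terms) (b : W) (hb : b ∈ terms) (_hab : a ≠ b) (S : Finset W)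
    (haS : a ∉ S) (hbS : b ∉ S) (hS : S.card < 4) :
    ∃ p : H.Walk a b, ∀ v ∈ p.support, v ∉ S := by
  obtain ⟨s, hs, rfl⟩ := mem_terms ha
  obtain ⟨t, ht, rfl⟩ := mem_terms hb
  obtain ⟨x, hx, hxS⟩ := exists_point hs S hS
  obtain ⟨y, hy, hyS⟩ := exists_point ht S hS
  have a1 : H.Adj (Sum.inl s) (Sum.inr x) := ⟨hs, hx⟩
  have a2 : H.Adj (Sum.inr y) (Sum.inl t) := ⟨ht, hy⟩
  by_cases hxy : x = y
  · subst hxy
    refine ⟨SimpleGraph.Walk.cons a1 (SimpleGraph.Walk.cons a2 SimpleGraph.Walk.nil), ?_⟩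
    intro v hv
    simp only [SimpleGraph.Walk.support_cons, SimpleGraph.Walk.support_nil, List.mem_cons,
      List.not_mem_nil, or_false] at hv
    rcases hv with rfl | rfl | rfl <;> assumption
  · obtain ⟨c, hc, hxc, hyc, hcS⟩ := exists_term hxy S hS
    have a3 : H.Adj (Sum.inr x) (Sum.inl c) := ⟨hc, hxc⟩
    have a4 : H.Adj (Sum.inl c) (Sum.inr y) := ⟨hc, hyc⟩
    refine ⟨SimpleGraph.Walk.cons a1 (SimpleGraph.Walk.cons a3 (SimpleGraph.Walk.cons a4
      (SimpleGraph.Walk.cons a2 SimpleGraph.Walk.nil))), ?_⟩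
    intro v hv
    simp only [SimpleGraph.Walk.support_cons, SimpleGraph.Walk.support_nil, List.mem_cons,
      List.not_mem_nil, or_false] at hv
    rcases hv with rfl | rfl | rfl | rfl | rfl <;> assumption

/-- a connected subgraph containing all the terminals uses at least four points -/
lemma four_points (T : H.Subgraph) (hT : T.coe.IsTree) (hA : (↑terms : Set W) ⊆ T.verts)
    (X : Finset (Fin 7)) (hX : ∀ x : Fin 7, (Sum.inr x : W) ∈ T.verts → x ∈ X) : 4 ≤ X.card := by
  classical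
  by_contra hcon
  push Not at hcon
  have hc : 4 ≤ (Xᶜ : Finset (Fin 7)).card := by
    rw [Finset.card_compl, Fintype.card_fin]
    omega
  obtain ⟨s, hsX, hs⟩ := Finset.exists_subset_card_eq hc
  have hsT : (Sum.inl s : W) ∈ T.verts := hA (Finset.mem_coe.2 (terms_mem hs))
  -- another terminal
  obtain ⟨s', hs', hne⟩ : ∃ s' : Finset (Fin 7), s'.card = 4 ∧ s' ≠ s := by
    by_cases h : s = {0, 1, 2, 3}
    · refine ⟨{0, 1, 2, 4}, by decide, ?_⟩
      rw [h]; decide
    · exact ⟨{0, 1, 2, 3}, by decide, fun h' => h h'.symm⟩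
  have hsT' : (Sum.inl s' : W) ∈ T.verts := hA (Finset.mem_coe.2 (terms_mem hs'))
  obtain ⟨p⟩ := hT.1.preconnected ⟨_, hsT⟩ ⟨_, hsT'⟩
  cases p with
  | nil => exact hne rfl
  | @cons u v w h p =>
    have hadj : T.Adj (Sum.inl s) v.1 := h
    have hadj' : H.Adj (Sum.inl s) v.1 := T.adj_sub hadj
    obtain ⟨v, hv⟩ := v
    rcases v with v | v
    · exact hadj'
    · have h1 : v ∈ s := hadj'.2
      have h2 : v ∈ X := hX v hv
      have h3 := hsX h1
      rw [Finset.mem_compl] at h3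
      exact h3 h2

/-- The negation of the preceding statement: For t≥5, k≥2 with m=⌊⌈tk/2⌉/(t−1)⌋: every finite graph with an independent k-connected t-set A has m A-trees meeting only in A, and some such graph has no m+1 of them. -/
theorem result :
    ¬ (∀ t k : ℕ, 5 ≤ t → 2 ≤ k →
      (∀ (V : Type) [Fintype V] (G : SimpleGraph V) (A : Finset V),
        A.card = t →
        (∀ a ∈ A, ∀ b ∈ A, ¬ G.Adj a b) →
        (∀ a ∈ A, ∀ b ∈ A, a ≠ b → ∀ S : Finset V, a ∉ S → b ∉ S → S.card < k →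
          ∃ p : G.Walk a b, ∀ v ∈ p.support, v ∉ S) →
        ∃ T : Fin ((t * k + 1) / 2 / (t - 1)) → G.Subgraph,
          (∀ i, (T i).coe.IsTree ∧ (↑A : Set V) ⊆ (T i).verts ∧
            ∀ v ∈ (T i).verts, ((T i).neighborSet v).ncard = 1 → v ∈ A) ∧
          (∀ i j, i ≠ j → (T i).verts ∩ (T j).verts ⊆ (↑A : Set V))) ∧
      (∃ (V : Type) (_ : Fintype V) (G : SimpleGraph V) (A : Finset V),
        A.card = t ∧
        (∀ a ∈ A, ∀ b ∈ A, ¬ G.Adj a b) ∧
        (∀ a ∈ A, ∀ b ∈ A, a ≠ b → ∀ S : Finset V, a ∉ S → b ∉ S → S.card < k →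
          ∃ p : G.Walk a b, ∀ v ∈ p.support, v ∉ S) ∧
        ¬ ∃ T : Fin ((t * k + 1) / 2 / (t - 1) + 1) → G.Subgraph,
          (∀ i, (T i).coe.IsTree ∧ (↑A : Set V) ⊆ (T i).verts ∧
            ∀ v ∈ (T i).verts, ((T i).neighborSet v).ncard = 1 → v ∈ A) ∧
          (∀ i j, i ≠ j → (T i).verts ∩ (T j).verts ⊆ (↑A : Set V)))) := by
  classical
  intro hall
  have h1 := (hall 35 4 (by norm_num) (by norm_num)).1 W H terms card_terms
    (by
      intro a ha b hb hab
      obtain ⟨s, hs, rfl⟩ := mem_terms ha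
      obtain ⟨t, ht, rfl⟩ := mem_terms hb
      exact hab)
    (by
      intro a ha b hb hab S haS hbS hS
      exact conn a ha b hb hab S haS hbS hS)
  obtain ⟨T, hT, hdis⟩ := h1
  have hm : (35 * 4 + 1) / 2 / (35 - 1) = 2 := by norm_num
  let i0 : Fin ((35 * 4 + 1) / 2 / (35 - 1)) := ⟨0, by norm_num⟩
  let i1 : Fin ((35 * 4 + 1) / 2 / (35 - 1)) := ⟨1, by norm_num⟩
  have hne : i0 ≠ i1 := by
    intro h
    have := congrArg Fin.val h
    simp [i0, i1] at this
  let X0 : Finset (Fin 7) := Finset.univ.filter (fun x => (Sum.inr x : W) ∈ (T i0).verts)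
  let X1 : Finset (Fin 7) := Finset.univ.filter (fun x => (Sum.inr x : W) ∈ (T i1).verts)
  have c0 : 4 ≤ X0.card := four_points (T i0) (hT i0).1 (hT i0).2.1 X0
    (fun x hx => Finset.mem_filter.2 ⟨Finset.mem_univ _, hx⟩)
  have c1 : 4 ≤ X1.card := four_points (T i1) (hT i1).1 (hT i1).2.1 X1
    (fun x hx => Finset.mem_filter.2 ⟨Finset.mem_univ _, hx⟩)
  have hd : Disjoint X0 X1 := by
    rw [Finset.disjoint_left]
    intro x hx0 hx1
    have h0 := (Finset.mem_filter.1 hx0).2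
    have h1 := (Finset.mem_filter.1 hx1).2
    have h2 := hdis i0 i1 hne ⟨h0, h1⟩
    obtain ⟨s, _, hs⟩ := mem_terms (Finset.mem_coe.1 h2)
    exact absurd hs (by simp)
  have h3 : (X0 ∪ X1).card ≤ 7 := by
    have := Finset.card_le_univ (X0 ∪ X1)
    rwa [Fintype.card_fin] at this
  rw [Finset.card_union_of_disjoint hd] at h3
  omega

end Pool.Agent.S07138
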