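import Pool.Statements.S07160

set_option autoImplicit false
open Pool Pool.MP_0cd801_co

namespace Pool.Agent.S07160

/-- out-neighbour lists of a 3-diregular oriented graph on 12 vertices -/
def nbr : List (List ℕ) :=
  [[5, 8, 10], [2, 3, 5], [3, 7, 10], [4, 6, 9], [0, 9, 11], [2, 4, 7], [0, 1, 10], [1, 4, 11],
    [5, 6, 7], [2, 6, 11], [1, 8, 9], [0, 3, 8]]

/-- out-neighbours of a vertex -/
def nb (u : ℕ) : List ℕ := nbr.getD u []

/-- exhaustive search: can a path that now ends in `u`, with visited vertices `vis`, be extended by `k`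
new vertices to a path ending in an in-neighbour of `0`? -/
def srch : ℕ → ℕ → List ℕ → Bool
  | 0, u, _ => (nb u).contains 0
  | k + 1, u, vis => (nb u).any (fun v => !(vis.contains v) && srch k v (v :: vis))

theorem check : srch 11 0 [0] = false := by decide +kernel

/-- soundness of the search -/
theorem sound (g : ℕ → ℕ) (hadj : ∀ k, k < 11 → g (k + 1) ∈ nb (g k)) (hlast : 0 ∈ nb (g 11))
    (hinj : ∀ i j, i < 12 → j < 12 → g i = g j → i = j) :
    ∀ m k : ℕ, k + m = 11 → ∀ vis : List ℕ, (∀ x ∈ vis, ∃ j, j ≤ k ∧ x = g j) →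
      srch m (g k) vis = true := by
  intro m
  induction m with
  | zero =>
    intro k hk vis _
    have : k = 11 := by omega
    subst this
    simp only [srch]
    exact List.contains_iff_mem.2 hlast
  | succ m ih =>
    intro k hk vis hvis
    simp only [srch, List.any_eq_true]
    refine ⟨g (k + 1), hadj k (by omega), ?_⟩
    rw [Bool.and_eq_true]
    constructor
    · rw [Bool.not_eq_true']
      rw [Bool.eq_false_iff]
      intro hc
      obtain ⟨j, hj, hjk⟩ := hvis _ (List.contains_iff_mem.1 hc)
      have := hinj _ _ (by omega) (by omega) hjk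
      omega
    · apply ih (k + 1) (by omega)
      intro x hx
      rcases List.mem_cons.1 hx with rfl | hx
      · exact ⟨k + 1, le_rfl, rfl⟩
      · obtain ⟨j, hj, hjk⟩ := hvis x hx
        exact ⟨j, by omega, hjk⟩

/-- the digraph -/
def G : Digraph (Fin 12) := ⟨fun u v => v.val ∈ nb u.val⟩

instance : DecidableRel G.Adj := fun u v => inferInstanceAs (Decidable (v.val ∈ nb u.val))

theorem asym : ∀ u v : Fin 12, G.Adj u v → ¬ G.Adj v u := by decide +kernel

theorem outdeg (v : Fin 12) : Set.ncard {u : Fin 12 | G.Adj v u} = 3 := by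
  have h : ∀ v : Fin 12, (Finset.univ.filter (fun u => G.Adj v u)).card = 3 := by decide +kernel
  rw [← h v, ← Set.ncard_coe_finset]
  congr 1
  ext u
  simp

theorem indeg (v : Fin 12) : Set.ncard {u : Fin 12 | G.Adj u v} = 3 := by
  have h : ∀ v : Fin 12, (Finset.univ.filter (fun u => G.Adj u v)).card = 3 := by decide +kernel
  rw [← h v, ← Set.ncard_coe_finset]
  congr 1
  ext u
  simp

theorem noham (f : Fin 12 → Fin 12) (hf : Function.Bijective f)
    (h : ∀ i j : Fin 12, j.val = (i.val + 1) % 12 → G.Adj (f i) (f j)) : False := by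
  obtain ⟨i0, hi0⟩ := hf.2 0
  have hlt : ∀ k : ℕ, (i0.val + k) % 12 < 12 := fun k => Nat.mod_lt _ (by norm_num)
  have hs := sound (fun k => (f ⟨(i0.val + k) % 12, hlt k⟩).val)
    (by
      intro k _
      exact h ⟨(i0.val + k) % 12, hlt k⟩ ⟨(i0.val + (k + 1)) % 12, hlt (k + 1)⟩ (by
        show (i0.val + (k + 1)) % 12 = ((i0.val + k) % 12 + 1) % 12
        omega))
    (by
      have h1 := h ⟨(i0.val + 11) % 12, hlt 11⟩ i0 (by
        show i0.val = ((i0.val + 11) % 12 + 1) % 12
        have := i0.isLt
        omega)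
      rw [hi0] at h1
      exact h1)
    (by
      intro i j hi hj hij
      have h1 := hf.1 (Fin.ext hij)
      have h2 : (i0.val + i) % 12 = (i0.val + j) % 12 := congrArg Fin.val h1
      omega)
    11 0 rfl [0] (by
      intro x hx
      refine ⟨0, le_rfl, ?_⟩
      simp only [List.mem_singleton] at hx
      subst hx
      have h1 : (⟨(i0.val + 0) % 12, hlt 0⟩ : Fin 12) = i0 := by
        apply Fin.ext
        show (i0.val + 0) % 12 = i0.val
        have := i0.isLt
        omega
      beta_reduce
      rw [h1, hi0]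
      rfl)
  have h0 : (f ⟨(i0.val + 0) % 12, hlt 0⟩).val = 0 := by
    have h1 : (⟨(i0.val + 0) % 12, hlt 0⟩ : Fin 12) = i0 := by
      apply Fin.ext
      show (i0.val + 0) % 12 = i0.val
      have := i0.isLt
      omega
    rw [h1, hi0]
    rfl
  beta_reduce at hs
  rw [h0, check] at hs
  exact absurd hs (by decide)

/-- The negation of the preceding statement: For every d > 2 and n ≤ 4d+1, every oriented graph on n vertices in which each vertex has in-degree d and out-degree d has a directed Hamilton cycle, i.e. a cyclic ordering of all n vertices with an arc from each vertex to the next. -/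
theorem result :
    ¬ (∀ (d n : ℕ), 2 < d → n ≤ 4 * d + 1 →
      ∀ G : Digraph (Fin n),
        (∀ u v : Fin n, G.Adj u v → ¬ G.Adj v u) →
        (∀ v : Fin n, Set.ncard {u : Fin n | G.Adj v u} = d) →
        (∀ v : Fin n, Set.ncard {u : Fin n | G.Adj u v} = d) →
        ∃ f : Fin n → Fin n, Function.Bijective f ∧
          ∀ i j : Fin n, j.val = (i.val + 1) % n → G.Adj (f i) (f j)) := by
  intro H
  obtain ⟨f, hf, h⟩ := H 3 12 (by norm_num) (by norm_num) G asym outdeg indeg
  exact noham f hf h

end Pool.Agent.S07160
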