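import Pool.Statements.S07181
import Pool.Agent.Helper635.LLL

set_option autoImplicit false
open Pool Pool.MP_0dd31c_co

namespace Pool.Agent.S07181

open Pool.Agent.Helper635.LLL

variable {T : Type} [Fintype T]

/-- The red set attached to a choice of one point in every pair. -/
noncomputable def red (q : T × Bool → ℕ) (ω : T → Bool) : Finset ℕ :=
  Finset.univ.image (fun i => q (i, ω i))

lemma mem_red {q : T × Bool → ℕ} {ω : T → Bool} {v : ℕ} :
    v ∈ red q ω ↔ ∃ i, q (i, ω i) = v := by
  simp [red]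

lemma mem_red_q {q : T × Bool → ℕ} (hq : Function.Injective q) {ω : T → Bool} {i : T} {b : Bool} :
    q (i, b) ∈ red q ω ↔ ω i = b := by
  rw [mem_red]
  constructor
  · rintro ⟨j, hj⟩
    have := hq hj
    simp only [Prod.mk.injEq] at this
    rw [← this.1]; exact this.2
  · intro h
    exact ⟨i, by rw [h]⟩

lemma cnt_fixed (S : Finset T) (γ : T → Bool) :
    (cnt (fun ω : T → Bool => ∀ i ∈ S, ω i = γ i)) ≤ 2 ^ (Fintype.card T - S.card) := by
  classical
  have h1 : cnt (fun ω : T → Bool => ∀ i ∈ S, ω i = γ i)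
      ≤ Fintype.card ({x : T // x ∉ S} → Bool) := by
    rw [← Finset.card_univ (α := ({x : T // x ∉ S} → Bool)), cnt]
    refine Finset.card_le_card_of_injOn (fun c => (fun x => c x.1)) ?_ ?_
    · intro c _
      simp
    · intro c hc c' hc' h
      rw [Finset.mem_coe, mem_ev] at hc hc'
      funext x
      by_cases hx : x ∈ S
      · rw [hc x hx, hc' x hx]
      · exact congrFun h ⟨x, hx⟩
  refine h1.trans ?_
  rw [Fintype.card_fun, Fintype.card_bool]
  have h2 : Fintype.card {x : T // x ∉ S} = Fintype.card T - S.card := by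
    rw [Fintype.card_subtype_compl, Fintype.card_coe]
  rw [h2]

/-- The local lemma step: one point of each pair can be chosen such that every edge is
properly coloured. -/
lemma exists_choice (q : T × Bool → ℕ) (hq : Function.Injective q) (U : Finset ℕ)
    (hU : U.card ≤ 1) (F : Finset (Finset ℕ)) (n : ℕ) (hn : 2 ≤ n)
    (hF : ∀ A ∈ F, A.card = n) (hcov : ∀ A ∈ F, ∀ v ∈ A, v ∈ U ∨ ∃ x, q x = v)
    (D : ℕ) (hD1 : 1 ≤ D) (hD : ∀ v, (F.filter (fun A => v ∈ A)).card ≤ D)
    (hcond : 4 * (4 / 2 ^ n : ℝ) * ((2 * n * D : ℕ) : ℝ) ≤ 1) :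
    ∃ ω : T → Bool, ∀ A ∈ F, (A ∩ red q ω).Nonempty ∧ ¬ A ⊆ red q ω := by
  classical
  set S : Finset ℕ → Finset T := fun A =>
    Finset.univ.filter (fun i => q (i, true) ∈ A ∨ q (i, false) ∈ A) with hS
  have memS : ∀ A i, i ∈ S A ↔ (q (i, true) ∈ A ∨ q (i, false) ∈ A) := by
    intro A i; simp [hS]
  have memS' : ∀ A i b, q (i, b) ∈ A → i ∈ S A := by
    intro A i b h
    rw [memS]
    cases b
    · right; exact h
    · left; exact h
  set β : Finset ℕ → T → Bool := fun A i => decide (q (i, true) ∈ A) with hβ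
  have hβA : ∀ A i, i ∈ S A → q (i, β A i) ∈ A := by
    intro A i hi
    rw [memS] at hi
    by_cases h : q (i, true) ∈ A
    · simp [hβ, h]
    · have h' := hi.resolve_left h
      simp [hβ, h, h']
  have hScard : ∀ A ∈ F, (S A).card ≤ n := by
    intro A hA
    rw [← hF A hA]
    refine Finset.card_le_card_of_injOn (fun i => q (i, β A i)) ?_ ?_
    · intro i hi
      exact hβA A i hi
    · intro i _ j _ h
      have := hq h
      simp only [Prod.mk.injEq] at this
      exact this.1
  have key := lll (T := T) (C := Bool) F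
    (fun A ω => ¬ ((A ∩ red q ω).Nonempty ∧ ¬ A ⊆ red q ω)) S ?_ (4 / 2 ^ n) (2 * n * D)
    (by positivity) ?_ ?_ hcond ?_ ?_
  · obtain ⟨ω, hω⟩ := key
    exact ⟨ω, fun A hA => not_not.1 (hω A hA)⟩
  · -- dependence
    intro A hA ω ω' hag hbad hgood
    apply hbad
    have hmem : ∀ v ∈ A, (v ∈ red q ω ↔ v ∈ red q ω') := by
      intro v hv
      rw [mem_red, mem_red]
      constructor
      · rintro ⟨i, hi⟩
        have : i ∈ S A := memS' A i (ω i) (by rw [hi]; exact hv)
        exact ⟨i, by rw [← hag i this]; exact hi⟩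
      · rintro ⟨i, hi⟩
        have : i ∈ S A := memS' A i (ω' i) (by rw [hi]; exact hv)
        exact ⟨i, by rw [hag i this]; exact hi⟩
    obtain ⟨⟨v, hv⟩, hns⟩ := hgood
    rw [Finset.mem_inter] at hv
    refine ⟨⟨v, Finset.mem_inter.2 ⟨hv.1, (hmem v hv.1).2 hv.2⟩⟩, ?_⟩
    intro hsub
    exact hns (fun w hw => (hmem w hw).1 (hsub hw))
  · -- probability
    intro A hA
    by_cases hpair : ∃ i, q (i, true) ∈ A ∧ q (i, false) ∈ A
    · obtain ⟨i, h1, h2⟩ := hpair
      have hb : ∀ b, q (i, b) ∈ A := by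
        intro b; cases b
        · exact h2
        · exact h1
      have hzero : cnt (fun ω : T → Bool => ¬ ((A ∩ red q ω).Nonempty ∧ ¬ A ⊆ red q ω)) = 0 := by
        rw [cnt, Finset.card_eq_zero, Finset.eq_empty_iff_forall_notMem]
        intro ω hω
        rw [mem_ev] at hω
        apply hω
        refine ⟨⟨q (i, ω i), Finset.mem_inter.2 ⟨hb _, (mem_red_q hq).2 rfl⟩⟩, ?_⟩
        intro hsub
        have := (mem_red_q hq).1 (hsub (hb (!ω i)))
        cases h : ω i <;> simp [h] at this
      rw [hzero]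
      push_cast
      positivity
    · push Not at hpair
      have huniq : ∀ i b, q (i, b) ∈ A → b = β A i := by
        intro i b hb
        cases b
        · by_contra hne
          have : q (i, true) ∈ A := by
            by_contra h
            apply hne
            simp [hβ, h]
          exact hpair i this hb
        · simp [hβ, hb]
      have hle : n ≤ 1 + (S A).card := by
        have hsub : A ⊆ U ∪ (S A).image (fun i => q (i, β A i)) := by
          intro v hv
          rw [Finset.mem_union, Finset.mem_image]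
          rcases hcov A hA v hv with h | ⟨⟨i, b⟩, hx⟩
          · left; exact h
          · right
            have hb : q (i, b) ∈ A := by rw [hx]; exact hv
            refine ⟨i, memS' A i b hb, ?_⟩
            rw [← huniq i b hb]; exact hx
        calc n = A.card := (hF A hA).symm
          _ ≤ _ := Finset.card_le_card hsub
          _ ≤ U.card + ((S A).image (fun i => q (i, β A i))).card := Finset.card_union_le _ _
          _ ≤ 1 + (S A).card := add_le_add hU Finset.card_image_le
      have hcnt : cnt (fun ω : T → Bool => ¬ ((A ∩ red q ω).Nonempty ∧ ¬ A ⊆ red q ω))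
          ≤ 2 ^ (Fintype.card T - (S A).card) + 2 ^ (Fintype.card T - (S A).card) := by
        refine le_trans ?_ (add_le_add (cnt_fixed (S A) (β A)) (cnt_fixed (S A) (fun i => ! β A i)))
        rw [cnt, cnt, cnt]
        refine le_trans (Finset.card_le_card ?_) (Finset.card_union_le _ _)
        intro ω hω
        rw [mem_ev] at hω
        rw [Finset.mem_union, mem_ev, mem_ev]
        by_cases hne : (A ∩ red q ω).Nonempty
        · left
          have hsub : A ⊆ red q ω := by
            by_contra h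
            exact hω ⟨hne, h⟩
          intro i hi
          exact (mem_red_q hq).1 (hsub (hβA A i hi))
        · right
          intro i hi
          have hnot : q (i, β A i) ∉ red q ω := by
            intro h
            exact hne ⟨_, Finset.mem_inter.2 ⟨hβA A i hi, h⟩⟩
          rw [mem_red_q hq] at hnot
          cases h1 : ω i <;> cases h2 : β A i <;> simp [h1, h2] at hnot ⊢
      have hST : (S A).card ≤ Fintype.card T := by
        rw [← Finset.card_univ]; exact Finset.card_le_card (Finset.subset_univ _)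
      have hpow : (2 : ℝ) ^ (Fintype.card T - (S A).card) * 2 ^ n ≤ 2 * 2 ^ (Fintype.card T) := by
        calc (2 : ℝ) ^ (Fintype.card T - (S A).card) * 2 ^ n
            = 2 ^ (Fintype.card T - (S A).card + n) := by rw [pow_add]
          _ ≤ 2 ^ (Fintype.card T + 1) := pow_le_pow_right₀ (by norm_num) (by omega)
          _ = 2 * 2 ^ (Fintype.card T) := by rw [pow_succ]; ring
      have hcnt' : (cnt (fun ω : T → Bool => ¬ ((A ∩ red q ω).Nonempty ∧ ¬ A ⊆ red q ω)) : ℝ)
          ≤ 2 ^ (Fintype.card T - (S A).card) + 2 ^ (Fintype.card T - (S A).card) := by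
        exact_mod_cast hcnt
      refine hcnt'.trans ?_
      rw [Fintype.card_fun, Fintype.card_bool]
      push_cast
      rw [div_mul_eq_mul_div, le_div_iff₀ (by positivity)]
      nlinarith
  · -- degree
    intro A hA
    have hsub : (F.filter (fun A' => ¬ Disjoint (S A) (S A'))) ⊆
        (S A).biUnion (fun i => F.filter (fun A' => q (i, true) ∈ A') ∪
          F.filter (fun A' => q (i, false) ∈ A')) := by
      intro A' hA'
      rw [Finset.mem_filter] at hA'
      obtain ⟨hA'F, hnd⟩ := hA'
      rw [Finset.not_disjoint_iff] at hnd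
      obtain ⟨i, hi, hi'⟩ := hnd
      rw [Finset.mem_biUnion]
      refine ⟨i, hi, ?_⟩
      rw [memS] at hi'
      rw [Finset.mem_union, Finset.mem_filter, Finset.mem_filter]
      rcases hi' with h | h
      · left; exact ⟨hA'F, h⟩
      · right; exact ⟨hA'F, h⟩
    calc (F.filter (fun A' => ¬ Disjoint (S A) (S A'))).card
        ≤ _ := Finset.card_le_card hsub
      _ ≤ ∑ i ∈ S A, (F.filter (fun A' => q (i, true) ∈ A') ∪
          F.filter (fun A' => q (i, false) ∈ A')).card := Finset.card_biUnion_le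
      _ ≤ ∑ i ∈ S A, (D + D) := by
        refine Finset.sum_le_sum (fun i _ => ?_)
        exact (Finset.card_union_le _ _).trans (add_le_add (hD _) (hD _))
      _ = (S A).card * (2 * D) := by rw [Finset.sum_const, smul_eq_mul]; ring
      _ ≤ n * (2 * D) := Nat.mul_le_mul_right _ (hScard A hA)
      _ = 2 * n * D := by ring
  · nlinarith
  · exact Fintype.card_pos

lemma eventually_small (c : ℝ) (hc1 : 1 < c) (hc2 : c < 2) :
    ∃ n₀ : ℕ, 2 ≤ n₀ ∧ ∀ n : ℕ, n₀ ≤ n → 32 * ((n : ℝ) * (c / 2) ^ n) ≤ 1 := by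
  have h := tendsto_self_mul_const_pow_of_lt_one (r := c / 2) (by linarith) (by linarith)
  have h2 := h.eventually (ge_mem_nhds (show (0 : ℝ) < 1 / 32 by norm_num))
  obtain ⟨N, hN⟩ := Filter.eventually_atTop.1 h2
  refine ⟨max N 2, le_max_right _ _, fun n hn => ?_⟩
  have := hN n ((le_max_left _ _).trans hn)
  linarith

/-- For every c in (1,2) there is n0 such that for n ≥ n0 every n-uniform finite hypergraph with all degrees at most c^n has a red set of exactly half (floor) of its vertices such that no edge is all red or all blue. -/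
theorem result :
    ∀ c : ℝ, 1 < c → c < 2 →
      ∃ n₀ : ℕ, ∀ n : ℕ, n₀ ≤ n →
        ∀ F : Finset (Finset ℕ),
          (∀ A ∈ F, A.card = n) →
          (∀ v : ℕ, ((F.filter (fun A => v ∈ A)).card : ℝ) ≤ c ^ n) →
          ∃ R : Finset ℕ, R ⊆ F.biUnion id ∧
            R.card = (F.biUnion id).card / 2 ∧
            ∀ A ∈ F, (A ∩ R).Nonempty ∧ ¬ A ⊆ R := by
  intro c hc1 hc2
  obtain ⟨n₀, hn₀, hsmall⟩ := eventually_small c hc1 hc2
  refine ⟨n₀, fun n hn F hF hdeg => ?_⟩
  have hn2 : 2 ≤ n := hn₀.trans hn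
  set V := F.biUnion id with hV
  set N := V.card with hN
  set e : Fin N ≃ V := V.equivFin.symm with he
  have hlt : ∀ x : Fin (N / 2) × Bool, 2 * x.1.val + (if x.2 then 1 else 0) < N := by
    intro x
    have := x.1.2
    split_ifs <;> omega
  set q : Fin (N / 2) × Bool → ℕ := fun x =>
    (e ⟨2 * x.1.val + (if x.2 then 1 else 0), hlt x⟩ : ℕ) with hqdef
  have hq : Function.Injective q := by
    intro x y hxy
    have h1 := e.injective (Subtype.ext hxy)
    rw [Fin.mk.injEq] at h1
    obtain ⟨⟨i, hi⟩, b⟩ := x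
    obtain ⟨⟨j, hj⟩, b'⟩ := y
    simp only at h1
    cases b <;> cases b' <;> simp at h1 ⊢ <;> omega
  have hqV : ∀ x, q x ∈ V := fun x => (e _).2
  set U : Finset ℕ := V.filter (fun v => ¬ ∃ x, q x = v) with hU
  have hUc : U.card ≤ 1 := by
    have himg : (Finset.univ.image q) ⊆ V := by
      intro v hv
      rw [Finset.mem_image] at hv
      obtain ⟨x, _, rfl⟩ := hv
      exact hqV x
    have hcard : (Finset.univ.image q).card = 2 * (N / 2) := by
      rw [Finset.card_image_of_injective _ hq, Finset.card_univ, Fintype.card_prod,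
        Fintype.card_fin, Fintype.card_bool]
      ring
    have hUsub : U = V \ (Finset.univ.image q) := by
      ext v
      simp [hU]
    rw [hUsub, Finset.card_sdiff_of_subset himg, hcard]
    omega
  have hcov : ∀ A ∈ F, ∀ v ∈ A, v ∈ U ∨ ∃ x, q x = v := by
    intro A hA v hv
    by_cases h : ∃ x, q x = v
    · right; exact h
    · left
      rw [hU, Finset.mem_filter]
      exact ⟨Finset.mem_biUnion.2 ⟨A, hA, hv⟩, h⟩
  have hcn : (1 : ℝ) ≤ c ^ n := one_le_pow₀ hc1.le
  have hD1 : 1 ≤ ⌊c ^ n⌋₊ := Nat.le_floor (by simpa using hcn)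
  have hD : ∀ v, (F.filter (fun A => v ∈ A)).card ≤ ⌊c ^ n⌋₊ :=
    fun v => Nat.le_floor (hdeg v)
  have hcond : 4 * (4 / 2 ^ n : ℝ) * ((2 * n * ⌊c ^ n⌋₊ : ℕ) : ℝ) ≤ 1 := by
    have h1 : ((⌊c ^ n⌋₊ : ℕ) : ℝ) ≤ c ^ n := Nat.floor_le (by positivity)
    push_cast
    calc 4 * (4 / 2 ^ n : ℝ) * (2 * n * (⌊c ^ n⌋₊ : ℝ))
        ≤ 4 * (4 / 2 ^ n : ℝ) * (2 * n * c ^ n) := by gcongr
      _ = 32 * ((n : ℝ) * (c / 2) ^ n) := by rw [div_pow]; ring
      _ ≤ 1 := hsmall n hn
  obtain ⟨ω, hω⟩ := exists_choice q hq U hUc F n hn2 hF hcov _ hD1 hD hcond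
  refine ⟨red q ω, ?_, ?_, hω⟩
  · intro v hv
    rw [mem_red] at hv
    obtain ⟨i, rfl⟩ := hv
    exact hqV _
  · rw [red, Finset.card_image_of_injective, Finset.card_univ, Fintype.card_fin]
    intro i j hij
    have := hq hij
    simp only [Prod.mk.injEq] at this
    exact this.1

end Pool.Agent.S07181
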