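import Pool.Statements.S07188
import Pool.Agent.H544R3.SCJ

set_option autoImplicit false
open Pool Pool.MP_0e6637_co

namespace Pool.Agent.S07188

/-- The negation of the preceding statement: Every strictly convex normed real space of dimension at least 2, and every infinite subset M, admits a 2-colouring with no monochromatic isometric copy of M, while one colour never suffices; that is, the chromatic number is exactly 2. -/
theorem result :
    ¬ (∀ (E : Type) [NormedAddCommGroup E] [NormedSpace ℝ E] [FiniteDimensional ℝ E]
      [StrictConvexSpace ℝ E],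
      2 ≤ Module.finrank ℝ E →
      ∀ M : Set E, M.Infinite →
        (∃ c : E → Fin 2, ∀ f : E → E,
            (∀ x ∈ M, ∀ y ∈ M, dist (f x) (f y) = dist x y) →
            ∃ x ∈ M, ∃ y ∈ M, c (f x) ≠ c (f y)) ∧
        ¬ (∃ c : E → Fin 1, ∀ f : E → E,
            (∀ x ∈ M, ∀ y ∈ M, dist (f x) (f y) = dist x y) →
            ∃ x ∈ M, ∃ y ∈ M, c (f x) ≠ c (f y))) := by
  exact Pool.Agent.H544R3.SC.final

end Pool.Agent.S07188
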