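import Pool.Statements.S07193
import Pool.Agent.H377R3.JB.Graph

set_option autoImplicit false
open Pool Pool.MP_0efbd6_co

namespace Pool.Agent.S07193

/-- There is c>0 such that for infinitely many m, every graph with m edges has a vertex bipartition where each part spans fewer than m/4 + sqrt(m/32) - c m^(1/4) edges. -/
theorem result :
    ∃ c : ℝ, 0 < c ∧ ∀ N : ℕ, ∃ m : ℕ, N ≤ m ∧
      ∀ (n : ℕ) (G : SimpleGraph (Fin n)) [DecidableRel G.Adj],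
        ((Finset.univ : Finset (Fin n × Fin n)).filter
            (fun p => p.1 < p.2 ∧ G.Adj p.1 p.2)).card = m →
        ∃ S : Finset (Fin n),
          (((max ((Finset.univ : Finset (Fin n × Fin n)).filter
                (fun p => p.1 < p.2 ∧ G.Adj p.1 p.2 ∧ p.1 ∈ S ∧ p.2 ∈ S)).card
              ((Finset.univ : Finset (Fin n × Fin n)).filter
                (fun p => p.1 < p.2 ∧ G.Adj p.1 p.2 ∧ p.1 ∉ S ∧ p.2 ∉ S)).card : ℕ) : ℝ)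
            < (m : ℝ) / 4 + Real.sqrt ((m : ℝ) / 32) - c * (m : ℝ) ^ ((1 : ℝ) / 4)) := by
  refine ⟨1 / 100, by norm_num, fun N => ?_⟩
  obtain ⟨g, hg⟩ : ∃ g : ℕ, g = N + 1 := ⟨_, rfl⟩
  have hg1 : 1 ≤ g := by omega
  obtain ⟨k, hk⟩ : ∃ k : ℕ, k = 1600 * g ^ 2 := ⟨_, rfl⟩
  refine ⟨2 * k ^ 2, ?_, ?_⟩
  · have h1 : g ≤ k := by rw [hk]; nlinarith
    have h2 : k ≤ 2 * k ^ 2 := by nlinarith
    omega
  intro n G _ hm
  obtain ⟨S, hS1, hS2⟩ := Pool.Agent.H377R3.JB.judicious g k hg1 hk n G hm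
  refine ⟨S, ?_⟩
  rw [Pool.Agent.H377R3.JB.adjw_eq] at hS1 hS2
  have e1 : ((Finset.univ : Finset (Fin n × Fin n)).filter
      (fun p => p.1 < p.2 ∧ G.Adj p.1 p.2 ∧ p.1 ∈ Sᶜ ∧ p.2 ∈ Sᶜ)) =
      ((Finset.univ : Finset (Fin n × Fin n)).filter
      (fun p => p.1 < p.2 ∧ G.Adj p.1 p.2 ∧ p.1 ∉ S ∧ p.2 ∉ S)) := by
    ext p; simp
  rw [e1] at hS2
  set a := ((Finset.univ : Finset (Fin n × Fin n)).filter
      (fun p => p.1 < p.2 ∧ G.Adj p.1 p.2 ∧ p.1 ∈ S ∧ p.2 ∈ S)).card with ha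
  set b := ((Finset.univ : Finset (Fin n × Fin n)).filter
      (fun p => p.1 < p.2 ∧ G.Adj p.1 p.2 ∧ p.1 ∉ S ∧ p.2 ∉ S)).card with hb
  have hmax : 2 * ((max a b : ℕ) : ℤ) < (k : ℤ) ^ 2 + 800 * (g : ℤ) ^ 2 - 2 * g := by
    rcases le_total a b with h | h
    · rw [max_eq_right h]; exact hS2
    · rw [max_eq_left h]; exact hS1
  have hmaxR : 2 * ((max a b : ℕ) : ℝ) < (k : ℝ) ^ 2 + 800 * (g : ℝ) ^ 2 - 2 * g := by
    exact_mod_cast hmax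
  have hkR : (k : ℝ) = 1600 * (g : ℝ) ^ 2 := by rw [hk]; push_cast; ring
  have hg0 : (0 : ℝ) ≤ (g : ℝ) := Nat.cast_nonneg g
  have hk0 : (0 : ℝ) ≤ (k : ℝ) := Nat.cast_nonneg k
  have hm' : ((2 * k ^ 2 : ℕ) : ℝ) = 2 * (k : ℝ) ^ 2 := by push_cast; ring
  have hsqrt : Real.sqrt (((2 * k ^ 2 : ℕ) : ℝ) / 32) = (k : ℝ) / 4 := by
    rw [hm']
    have : 2 * (k : ℝ) ^ 2 / 32 = ((k : ℝ) / 4) ^ 2 := by ring
    rw [this]
    exact Real.sqrt_sq (by positivity)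
  have hroot : ((2 * k ^ 2 : ℕ) : ℝ) ^ ((1 : ℝ) / 4) ≤ 100 * (g : ℝ) := by
    rw [hm', hkR]
    have h1 : 2 * (1600 * (g : ℝ) ^ 2) ^ 2 ≤ (100 * (g : ℝ)) ^ (4 : ℕ) := by
      have h2 : (0 : ℝ) ≤ (g : ℝ) ^ 4 := by positivity
      have h3 : 2 * (1600 * (g : ℝ) ^ 2) ^ 2 = 5120000 * (g : ℝ) ^ 4 := by ring
      have h4 : (100 * (g : ℝ)) ^ (4 : ℕ) = 100000000 * (g : ℝ) ^ 4 := by ring
      rw [h3, h4]
      linarith
    calc (2 * (1600 * (g : ℝ) ^ 2) ^ 2) ^ ((1 : ℝ) / 4)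
        ≤ ((100 * (g : ℝ)) ^ (4 : ℕ)) ^ ((1 : ℝ) / 4) :=
          Real.rpow_le_rpow (by positivity) h1 (by norm_num)
      _ = 100 * (g : ℝ) := by
          rw [← Real.rpow_natCast, ← Real.rpow_mul (by positivity)]
          norm_num
  rw [hsqrt]
  have h3 : 1 / 100 * ((2 * k ^ 2 : ℕ) : ℝ) ^ ((1 : ℝ) / 4) ≤ (g : ℝ) := by linarith
  have h4 : ((2 * k ^ 2 : ℕ) : ℝ) / 4 = (k : ℝ) ^ 2 / 2 := by rw [hm']; ring
  rw [h4]
  have h5 : 800 * (g : ℝ) ^ 2 = (k : ℝ) / 2 := by rw [hkR]; ring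
  rw [h5] at hmaxR
  linarith

end Pool.Agent.S07193
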