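import Pool.Statements.S07220
import Mathlib

set_option autoImplicit false
open Pool Pool.MP_0fb6b1_co

namespace Pool.Agent.S07220

open Finset

variable {m q : ℕ}

/-- The letter of the triple attached to `p = (a, b)` at place `j`: `a`, `b`, `a + b`. -/
def letter (p : ZMod q × ZMod q) (j : Fin 3) : ZMod q :=
  if j = 0 then p.1 else if j = 1 then p.2 else p.1 + p.2

/-- code of a point of the ground set -/
def code (x : (Fin m × Fin 3) × ZMod q) : ℕ :=
  Nat.pair (Nat.pair x.1.1.val x.1.2.val) x.2.val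

lemma code_inj [NeZero q] : Function.Injective (code (m := m) (q := q)) := by
  rintro ⟨⟨i, j⟩, x⟩ ⟨⟨i', j'⟩, x'⟩ h
  simp only [code, Nat.pair_eq_pair] at h
  obtain ⟨⟨h1, h2⟩, h3⟩ := h
  have := ZMod.val_injective q h3
  rw [Fin.ext h1, Fin.ext h2, this]

/-- the set attached to `u` -/
def T [NeZero q] (u : Fin m → ZMod q × ZMod q) : Finset ℕ :=
  (univ : Finset (Fin m × Fin 3)).image (fun k => code (k, letter (u k.1) k.2))

lemma mem_T [NeZero q] (u : Fin m → ZMod q × ZMod q) (k : Fin m × Fin 3) (x : ZMod q) :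
    code (k, x) ∈ T u ↔ x = letter (u k.1) k.2 := by
  simp only [T, mem_image, mem_univ, true_and]
  constructor
  · rintro ⟨k', h⟩
    have := code_inj h
    simp only [Prod.mk.injEq] at this
    obtain ⟨rfl, h2⟩ := this
    exact h2.symm
  · rintro rfl
    exact ⟨k, rfl⟩

lemma card_T [NeZero q] (u : Fin m → ZMod q × ZMod q) : (T u).card = 3 * m := by
  rw [T, card_image_of_injective]
  · simp [Fintype.card_prod, mul_comm]
  · intro k k' h
    have := code_inj h
    simp only [Prod.mk.injEq] at this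
    exact this.1

lemma T_inj [NeZero q] : Function.Injective (T (m := m) (q := q)) := by
  intro u v h
  funext i
  have h0 : letter (u i) 0 = letter (v i) 0 := by
    rw [← mem_T v (i, 0), ← h, mem_T]
  have h1 : letter (u i) 1 = letter (v i) 1 := by
    rw [← mem_T v (i, 1), ← h, mem_T]
  simp only [letter] at h0 h1
  ext
  · simpa using h0
  · simpa using h1

/-- the bad local configuration -/
def bad (p p1 p2 : ZMod q × ZMod q) : Prop :=
  p1.1 = p.1 ∧ p1.2 ≠ p.2 ∧ p2.1 ≠ p.1 ∧ p2.2 = p.2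

instance (p p1 p2 : ZMod q × ZMod q) : Decidable (bad p p1 p2) := by
  unfold bad; infer_instance

lemma not_bad [NeZero q] (u u1 u2 v : Fin m → ZMod q × ZMod q)
    (h : T v ∩ T u = (T u1 ∩ T u) ∪ (T u2 ∩ T u)) (i : Fin m) : ¬ bad (u i) (u1 i) (u2 i) := by
  rintro ⟨h1, h2, h3, h4⟩
  have key : ∀ j : Fin 3, letter (u i) j = letter (v i) j ↔
      (letter (u i) j = letter (u1 i) j ∨ letter (u i) j = letter (u2 i) j) := by
    intro j
    have := Finset.ext_iff.1 h (code ((i, j), letter (u i) j))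
    simp only [mem_inter, mem_union, mem_T, and_true] at this
    exact this
  have k0 := key 0
  have k1 := key 1
  have k2 := key 2
  simp only [letter] at k0 k1 k2
  simp only [Fin.isValue, if_true, h1, true_or, iff_true, one_ne_zero, if_false, h4, or_true,
    Fin.reduceEq] at k0 k1 k2
  rw [← k0, ← k1] at k2
  simp only [true_iff] at k2
  rcases k2 with k2 | k2
  · exact h2 (add_left_cancel k2).symm
  · exact h3 (add_right_cancel k2).symm

/-- number of local non-bad triples -/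
def good (q : ℕ) [NeZero q] : Finset ((ZMod q × ZMod q) × (ZMod q × ZMod q) × (ZMod q × ZMod q)) :=
  univ.filter (fun t => ¬ bad t.1 t.2.1 t.2.2)

lemma good_lt (q : ℕ) [NeZero q] (hq : 2 ≤ q) : (good q).card < (q ^ 2) ^ 3 := by
  have hcard : (univ : Finset ((ZMod q × ZMod q) × (ZMod q × ZMod q) × (ZMod q × ZMod q))).card
      = (q ^ 2) ^ 3 := by
    simp [Fintype.card_prod, ZMod.card]
    ring
  rw [← hcard]
  apply Finset.card_lt_card
  rw [good, Finset.filter_ssubset]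
  have : Fact (1 < q) := ⟨hq⟩
  refine ⟨((0, 0), (0, 1), (1, 0)), mem_univ _, ?_⟩
  simp [bad]

/-- the family -/
def Fam (m q : ℕ) [NeZero q] : Finset (Finset ℕ) := univ.image (T (m := m) (q := q))

lemma card_Fam (m q : ℕ) [NeZero q] : (Fam m q).card = (q ^ 2) ^ m := by
  rw [Fam, card_image_of_injective _ T_inj]
  simp [Fintype.card_prod, ZMod.card, sq]

lemma count (m q : ℕ) [NeZero q] :
    (((Fam m q) ×ˢ (Fam m q) ×ˢ (Fam m q)).filter
            (fun p : Finset ℕ × Finset ℕ × Finset ℕ =>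
              ∃ T ∈ (Fam m q), T ∩ p.1 = (p.2.1 ∩ p.1) ∪ (p.2.2 ∩ p.1))).card ≤
      (good q).card ^ m := by
  classical
  have h1 : ((Fam m q) ×ˢ (Fam m q) ×ˢ (Fam m q)).filter
            (fun p : Finset ℕ × Finset ℕ × Finset ℕ =>
              ∃ T ∈ (Fam m q), T ∩ p.1 = (p.2.1 ∩ p.1) ∪ (p.2.2 ∩ p.1)) ⊆
      (Fintype.piFinset (fun _ : Fin m => good q)).image
        (fun f => (T (fun i => (f i).1), T (fun i => (f i).2.1), T (fun i => (f i).2.2))) := by
    rintro ⟨S, S1, S2⟩ hp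
    simp only [mem_filter, mem_product, Fam, mem_image, mem_univ, true_and] at hp
    obtain ⟨⟨⟨u, rfl⟩, ⟨u1, rfl⟩, ⟨u2, rfl⟩⟩, ⟨_, ⟨v, rfl⟩, hv⟩⟩ := hp
    simp only [mem_image, Fintype.mem_piFinset]
    refine ⟨fun i => (u i, u1 i, u2 i), ?_, rfl⟩
    intro i
    simp only [good, mem_filter, mem_univ, true_and]
    exact not_bad u u1 u2 v hv i
  calc _ ≤ _ := card_le_card h1
    _ ≤ (Fintype.piFinset (fun _ : Fin m => good q)).card := card_image_le
    _ = (good q).card ^ m := by simp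

/-- The negation of the preceding statement: There is a constant K such that, for every family F of w-element sets with at least K^w members, the fraction of triples (S,S1,S2) from F for which some T in F has T∩S=(S1∩S)∪(S2∩S) tends to 1 as w grows, uniformly in F. -/
theorem result :
    ¬ (∃ K : ℝ, ∀ ε : ℝ, 0 < ε → ∃ W : ℕ, ∀ w : ℕ, W ≤ w →
      ∀ F : Finset (Finset ℕ), (∀ A ∈ F, A.card = w) → K ^ w ≤ (F.card : ℝ) →
        (1 - ε) * (F.card : ℝ) ^ 3 ≤
          (((F ×ˢ F ×ˢ F).filter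
            (fun p : Finset ℕ × Finset ℕ × Finset ℕ =>
              ∃ T ∈ F, T ∩ p.1 = (p.2.1 ∩ p.1) ∪ (p.2.2 ∩ p.1))).card : ℝ)) := by
  rintro ⟨K, hK⟩
  obtain ⟨W, hW⟩ := hK (1 / 2) (by norm_num)
  obtain ⟨q₀, hq₀⟩ := exists_nat_ge (|K| ^ 3)
  set q := q₀ + 2 with hq
  have : NeZero q := ⟨by omega⟩
  have hqK : |K| ^ 3 ≤ (q : ℝ) ^ 2 := by
    have h1 : (q₀ : ℝ) ≤ (q : ℝ) := by rw [hq]; push_cast; linarith
    have h2 : (1 : ℝ) ≤ (q : ℝ) := by
      rw [hq]; push_cast
      have : (0 : ℝ) ≤ (q₀ : ℝ) := Nat.cast_nonneg _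
      linarith
    nlinarith
  have hgl : ((good q).card : ℝ) < ((q : ℝ) ^ 2) ^ 3 := by
    have := good_lt q (by omega)
    exact_mod_cast this
  have hQpos : (0 : ℝ) < ((q : ℝ) ^ 2) ^ 3 := by
    have : (0 : ℝ) < (q : ℝ) := by exact_mod_cast (NeZero.pos q)
    positivity
  set r : ℝ := ((good q).card : ℝ) / ((q : ℝ) ^ 2) ^ 3 with hr
  have hr1 : r < 1 := by
    rw [hr, div_lt_one hQpos]; exact hgl
  have hr0 : 0 ≤ r := by positivity
  obtain ⟨m₀, hm₀⟩ := exists_pow_lt_of_lt_one (show (0 : ℝ) < 1 / 2 by norm_num) hr1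
  set m := m₀ + W with hm
  have hm1 : r ^ m < 1 / 2 := by
    calc r ^ m ≤ r ^ m₀ := pow_le_pow_of_le_one hr0 hr1.le (by omega)
      _ < 1 / 2 := hm₀
  have hmain := hW (3 * m) (by omega) (Fam m q) (by
    intro A hA
    simp only [Fam, mem_image, mem_univ, true_and] at hA
    obtain ⟨u, rfl⟩ := hA
    exact card_T u) (by
    rw [card_Fam]
    push_cast
    calc K ^ (3 * m) ≤ |K ^ (3 * m)| := le_abs_self _
      _ = (|K| ^ 3) ^ m := by rw [abs_pow, pow_mul]
      _ ≤ ((q : ℝ) ^ 2) ^ m := by gcongr)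
  have hc := count m q
  have hc' : (((((Fam m q) ×ˢ (Fam m q) ×ˢ (Fam m q)).filter
            (fun p : Finset ℕ × Finset ℕ × Finset ℕ =>
              ∃ T ∈ (Fam m q), T ∩ p.1 = (p.2.1 ∩ p.1) ∪ (p.2.2 ∩ p.1))).card : ℕ) : ℝ) ≤
      ((good q).card : ℝ) ^ m := by exact_mod_cast hc
  have h3 := hmain.trans hc'
  rw [card_Fam] at h3
  push_cast at h3
  have h4 : ((good q).card : ℝ) = r * ((q : ℝ) ^ 2) ^ 3 := by
    rw [hr]; exact (div_mul_cancel₀ _ hQpos.ne').symm
  rw [h4, mul_pow] at h3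
  have h5 : (((q : ℝ) ^ 2) ^ m) ^ 3 = (((q : ℝ) ^ 2) ^ 3) ^ m := by
    exact pow_right_comm _ _ _
  rw [h5] at h3
  have h6 : (0 : ℝ) < (((q : ℝ) ^ 2) ^ 3) ^ m := by positivity
  nlinarith

end Pool.Agent.S07220
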