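import Pool.Statements.S07229
import Pool.Agent.H894R3.Core
import Pool.Agent.H894R3.Simp
import Pool.Agent.H894R3.Fin

set_option autoImplicit false
open MeasureTheory
open Pool Pool.MP_106462_co

namespace Pool.Agent.S07229

/-- For 1≤k≤d and ε>0 there is δ>0 such that every measurable S in R^d of positive finite volume with k-index of convexity at least ε contains the k-skeleton of some d-simplex of volume at least δ·vol(S). -/
theorem result :
    ∀ k d : ℕ, 1 ≤ k → k ≤ d → ∀ ε : ℝ, 0 < ε → ∃ δ : ℝ, 0 < δ ∧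
      ∀ S : Set (EuclideanSpace ℝ (Fin d)), MeasurableSet S → 0 < volume S → volume S < ⊤ →
        ε ≤ (volume {x : Fin (k + 1) → EuclideanSpace ℝ (Fin d) |
                (∀ i, x i ∈ S) ∧ convexHull ℝ (Set.range x) ⊆ S}).toReal
              / (volume S).toReal ^ (k + 1) →
        ∃ X : Fin (d + 1) → EuclideanSpace ℝ (Fin d),
          AffineIndependent ℝ X ∧
          δ * (volume S).toReal ≤ (volume (convexHull ℝ (Set.range X))).toReal ∧
          ∀ s : Finset (Fin (d + 1)), s.card = k + 1 →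
            convexHull ℝ (X '' (s : Set (Fin (d + 1)))) ⊆ S := by
  intro k d hk hkd ε hε
  obtain ⟨k', rfl⟩ : ∃ k', k = k' + 1 := ⟨k - 1, by omega⟩
  obtain ⟨m, rfl⟩ : ∃ m, d = k' + 1 + m := ⟨d - (k' + 1), by omega⟩
  obtain ⟨δ, hδ, hcore⟩ := Pool.Agent.H894R3.Core.core k' m ε hε
  have hvs := Pool.Agent.H894R3.Simp.vs_pos (k' + 1 + m)
  refine ⟨δ * Pool.Agent.H894R3.Simp.vs (k' + 1 + m), by positivity, ?_⟩
  intro S hS hS0 hSfin hEε
  exact Pool.Agent.H894R3.Fin.final k' (k' + 1 + m) (by omega) ε δ hε hδ hcore S hS hS0 hSfin hEε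

end Pool.Agent.S07229
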