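import Pool.Statements.S07316
import Pool.Agent.Helper764.Jump_zero

set_option autoImplicit false
open Pool Pool.MP_150b74_co

namespace Pool.Agent.S07316

open Filter Finset

/-- If every 2-colouring of the 4-subsets of an `n`-set has a monochromatic set with at least `k`
elements, then `k < F 4 n 0`. -/
theorem lt_F (n k : ℕ)
    (h : ∀ χ : Finset (Fin n) → Bool, ∃ S : Finset (Fin n), k ≤ S.card ∧ ∃ b : Bool,
      ∀ e ∈ S.powersetCard 4, χ e = b) : k < Jump764.F 4 n 0 := by
  by_contra hlt
  push Not at hlt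
  have hne : {f : ℕ | ∃ χ : Finset (Fin n) → Bool, Jump764.Balanced 4 n 0 f χ}.Nonempty := by
    refine ⟨n + 1, fun _ => true, ?_⟩
    intro X hX
    have := Finset.card_le_univ X
    rw [Fintype.card_fin] at this
    omega
  obtain ⟨χ, hχ⟩ := Nat.sInf_mem hne
  obtain ⟨S, hS, b, hb⟩ := h χ
  have h1 := hχ S (le_trans hlt hS) (!b)
  rw [zero_mul, Nat.cast_pos, Finset.card_pos] at h1
  obtain ⟨e, he⟩ := h1
  rw [Finset.mem_filter] at he
  have h2 := hb e he.1
  rw [h2] at he
  have h3 := he.2
  cases b <;> simp at h3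

/-- a colour of full weight with minimum degree at least the maximal possible one is a clique -/
theorem mono_of_degree {n : ℕ} {β : Type*} [DecidableEq β] (φ : Finset (Fin n) → β) (j : β)
    (S : Finset (Fin n)) (r : ℕ) (hr : 1 ≤ r)
    (h : ∀ v ∈ S, (((S.card - 1).choose (r - 1) : ℕ) : ℝ) ≤
      (((S.powersetCard r).filter (fun e => v ∈ e ∧ φ e = j)).card : ℝ)) :
    ∀ e ∈ S.powersetCard r, φ e = j := by
  intro e he
  have he' := Finset.mem_powersetCard.1 he
  have hne : e.Nonempty := by
    rw [← Finset.card_pos]; omega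
  obtain ⟨v, hv⟩ := hne
  have hvS : v ∈ S := he'.1 hv
  have h1 := h v hvS
  have h2 : (S.card - 1).choose (r - 1) ≤
      ((S.powersetCard r).filter (fun e => v ∈ e ∧ φ e = j)).card := by exact_mod_cast h1
  -- the number of `r`-subsets containing `v`
  have h3 : ((S.powersetCard r).filter (fun e => v ∈ e)).card = (S.card - 1).choose (r - 1) := by
    have h4 : ((S.powersetCard r).filter (fun e => v ∈ e)) =
        ((S.erase v).powersetCard (r - 1)).image (fun f => insert v f) := by
      ext f
      simp only [Finset.mem_filter, Finset.mem_powersetCard, Finset.mem_image]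
      constructor
      · rintro ⟨⟨h5, h6⟩, h7⟩
        refine ⟨f.erase v, ⟨Finset.erase_subset_erase v h5, ?_⟩, Finset.insert_erase h7⟩
        rw [Finset.card_erase_of_mem h7, h6]
      · rintro ⟨g, ⟨h5, h6⟩, rfl⟩
        have h7 : v ∉ g := fun h8 => by
          have := h5 h8
          simp at this
        refine ⟨⟨?_, ?_⟩, Finset.mem_insert_self v g⟩
        · intro x hx
          rcases Finset.mem_insert.1 hx with rfl | hx
          · exact hvS
          · exact Finset.mem_of_mem_erase (h5 hx)
        · rw [Finset.card_insert_of_notMem h7, h6]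
          omega
    rw [h4, Finset.card_image_of_injOn, Finset.card_powersetCard, Finset.card_erase_of_mem hvS]
    intro f hf g hg hfg
    simp only [Finset.mem_coe,
      Finset.mem_powersetCard] at hf hg
    have hf1 : v ∉ f := fun h8 => by
      have := hf.1 h8
      simp at this
    have hg1 : v ∉ g := fun h8 => by
      have := hg.1 h8
      simp at this
    have := congrArg (fun s => Finset.erase s v) hfg
    simpa [Finset.erase_insert hf1, Finset.erase_insert hg1] using this
  have h5 : ((S.powersetCard r).filter (fun e => v ∈ e ∧ φ e = j)) ⊆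
      ((S.powersetCard r).filter (fun e => v ∈ e)) := by
    intro f hf
    rw [Finset.mem_filter] at hf ⊢
    exact ⟨hf.1, hf.2.1⟩
  have h6 : ((S.powersetCard r).filter (fun e => v ∈ e ∧ φ e = j)) =
      ((S.powersetCard r).filter (fun e => v ∈ e)) :=
    Finset.eq_of_subset_of_card_le h5 (by rw [h3]; exact h2)
  have h7 : e ∈ ((S.powersetCard r).filter (fun e => v ∈ e ∧ φ e = j)) := by
    rw [h6, Finset.mem_filter]
    exact ⟨he, hv⟩
  rw [Finset.mem_filter] at h7
  exact h7.2.2

/-- The negation of the preceding statement: For r≥3, q≥2, ε>0 there is D such that for every ρ in [0,1]^q with sum below q−ε, some C gives, for all k≥1, an n with ln n ≤ C·k^D where every q-colouring of r-sets of [n] has an S of size ≥k and colour j with min colour-j degree in S ≥ ρ_j·C(∣S∣−1,r−1). -/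
theorem result :
    ¬ (∀ r q : ℕ, 3 ≤ r → 2 ≤ q → ∀ ε : ℝ, 0 < ε →
      ∃ D : ℝ, ∀ ρ : Fin q → ℝ, (∀ i, 0 ≤ ρ i ∧ ρ i ≤ 1) → ∑ i, ρ i < (q : ℝ) - ε →
        ∃ C : ℝ, ∀ k : ℕ, 1 ≤ k → ∃ n : ℕ, Real.log (n : ℝ) ≤ C * (k : ℝ) ^ D ∧
          ∀ φ : Finset (Fin n) → Fin q, ∃ S : Finset (Fin n), k ≤ S.card ∧ ∃ j : Fin q,
            ∀ v ∈ S, ρ j * (((S.card - 1).choose (r - 1) : ℕ) : ℝ) ≤
              (((S.powersetCard r).filter (fun e => v ∈ e ∧ φ e = j)).card : ℝ)) := by
  intro H
  obtain ⟨D, hD⟩ := H 4 3 (by norm_num) (by norm_num) (1 / 4) (by norm_num)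
  obtain ⟨C, hC⟩ := hD ![1, 1, 1 / 2] (by
    intro i
    fin_cases i <;> norm_num) (by
    simp [Fin.sum_univ_three]
    norm_num)
  obtain ⟨C0, hC0, hup⟩ := Jump764.M_zero.J_zero 4 (by norm_num)
  -- each admissible `n` for `k` satisfies `k < F 4 n 0`
  have key : ∀ k : ℕ, 4 ≤ k → ∃ n : ℕ, k ≤ n ∧ Real.log (n : ℝ) ≤ C * (k : ℝ) ^ D ∧
      k < Jump764.F 4 n 0 := by
    intro k hk
    obtain ⟨n, hn, hφ⟩ := hC k (by omega)
    have hkn : k ≤ n := by
      obtain ⟨S, hS, -⟩ := hφ (fun _ => 0)
      have := Finset.card_le_univ S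
      rw [Fintype.card_fin] at this
      omega
    refine ⟨n, hkn, hn, lt_F n k ?_⟩
    intro χ
    obtain ⟨S, hS, j, hj⟩ := hφ (fun e => if χ e then 0 else 1)
    refine ⟨S, hS, ?_⟩
    fin_cases j
    · refine ⟨true, ?_⟩
      have h1 := mono_of_degree (fun e => if χ e then (0 : Fin 3) else 1) 0 S 4 (by norm_num)
        (by
          intro v hv
          have := hj v hv
          simpa using this)
      intro e he
      have h2 := h1 e he
      by_contra h3
      simp [h3] at h2
    · refine ⟨false, ?_⟩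
      have h1 := mono_of_degree (fun e => if χ e then (0 : Fin 3) else 1) 1 S 4 (by norm_num)
        (by
          intro v hv
          have := hj v hv
          simpa using this)
      intro e he
      have h2 := h1 e he
      by_contra h3
      simp [h3] at h2
    · exfalso
      have hSne : S.Nonempty := by
        rw [← Finset.card_pos]; omega
      obtain ⟨v, hv⟩ := hSne
      have h1 := hj v hv
      have h2 : ((S.powersetCard 4).filter
          (fun e => v ∈ e ∧ (if χ e then (0 : Fin 3) else 1) = 2)) = ∅ := by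
        apply Finset.filter_eq_empty_iff.2
        intro e _ h3
        rcases h3 with ⟨_, h3⟩
        by_cases h4 : χ e = true
        · simp [h4] at h3
        · simp [h4] at h3
      have h3 : 0 < (S.card - 1).choose 3 := Nat.choose_pos (by omega)
      have h4 : (0 : ℝ) < (((S.card - 1).choose 3 : ℕ) : ℝ) := by exact_mod_cast h3
      have h5 : ((((S.powersetCard 4).filter
          (fun e => v ∈ e ∧ (if χ e then (0 : Fin 3) else 1) = 2)).card : ℕ) : ℝ) = 0 := by
        rw [h2]; simp
      have h6 : (![1, 1, 1 / 2] : Fin 3 → ℝ) 2 * (((S.card - 1).choose 3 : ℕ) : ℝ) ≤ 0 := by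
        have h7 := h1
        simp only [show (4 - 1 : ℕ) = 3 from rfl] at h7
        refine le_trans h7 (le_of_eq ?_)
        exact h5
      simp at h6
      linarith
  rw [Filter.eventually_atTop] at hup
  obtain ⟨N0, hN0⟩ := hup
  -- growth comparison
  have hlim : Tendsto (fun k : ℕ => C0 * Real.log (|C| + 1) + C0 * (|D| + 1) * Real.log (k : ℝ) -
      (k : ℝ)) atTop atBot := by
    have h1 : (fun x : ℝ => C0 * Real.log (|C| + 1) + C0 * (|D| + 1) * Real.log x - x) =
        fun x => -(x - (C0 * Real.log (|C| + 1) + C0 * (|D| + 1) * Real.log x)) := by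
      funext x; ring
    have h2 : (fun x : ℝ => C0 * (|D| + 1) * Real.log x) =o[atTop] (fun x : ℝ => x) :=
      Real.isLittleO_log_id_atTop.const_mul_left _
    have h3 : (fun _ : ℝ => C0 * Real.log (|C| + 1)) =o[atTop] (fun x : ℝ => x) :=
      Asymptotics.isLittleO_const_id_atTop _
    have h4 := h3.add h2
    have h5 : Tendsto (fun x : ℝ => x - (C0 * Real.log (|C| + 1) + C0 * (|D| + 1) * Real.log x))
        atTop atTop := by
      have h6 := (Asymptotics.IsEquivalent.refl (u := fun x : ℝ => x) (l := atTop)).sub_isLittleO h4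
      exact h6.symm.tendsto_atTop tendsto_id
    have h7 : Tendsto (fun x : ℝ => C0 * Real.log (|C| + 1) + C0 * (|D| + 1) * Real.log x - x)
        atTop atBot := by
      rw [h1]
      exact tendsto_neg_atTop_atBot.comp h5
    exact h7.comp tendsto_natCast_atTop_atTop
  obtain ⟨k, hk, hk4⟩ := ((hlim.eventually (eventually_lt_atBot (0 : ℝ))).and
    (eventually_ge_atTop (max N0 4))).exists
  have hkN : N0 ≤ k := le_trans (le_max_left _ _) hk4
  have hk4' : 4 ≤ k := le_trans (le_max_right _ _) hk4
  obtain ⟨n, hkn, hn, hF⟩ := key k hk4'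
  have h1 := hN0 n (le_trans hkN hkn)
  have h2 : (k : ℝ) < C0 * Real.log (Real.log n) := by
    refine lt_of_lt_of_le ?_ h1
    exact_mod_cast hF
  have hk1 : (1 : ℝ) ≤ k := by exact_mod_cast (by omega : 1 ≤ k)
  have hn4 : (4 : ℝ) ≤ n := by exact_mod_cast (le_trans hk4' hkn)
  have hlogpos : 0 < Real.log (n : ℝ) := Real.log_pos (by linarith)
  have h3 : Real.log (n : ℝ) ≤ (|C| + 1) * (k : ℝ) ^ (|D| + 1) := by
    refine le_trans hn ?_
    have h4 : (k : ℝ) ^ D ≤ (k : ℝ) ^ (|D| + 1) :=
      Real.rpow_le_rpow_of_exponent_le hk1 (by linarith [le_abs_self D])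
    have h5 : 0 ≤ (k : ℝ) ^ D := Real.rpow_nonneg (by linarith) _
    calc C * (k : ℝ) ^ D ≤ (|C| + 1) * (k : ℝ) ^ D :=
          mul_le_mul_of_nonneg_right (by linarith [le_abs_self C]) h5
      _ ≤ (|C| + 1) * (k : ℝ) ^ (|D| + 1) :=
          mul_le_mul_of_nonneg_left h4 (by positivity)
  have h4 : Real.log (Real.log (n : ℝ)) ≤ Real.log (|C| + 1) + (|D| + 1) * Real.log k := by
    have h5 := Real.log_le_log hlogpos h3
    rw [Real.log_mul (by positivity) (by positivity), Real.log_rpow (by linarith)] at h5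
    exact h5
  have h5 : C0 * Real.log (Real.log (n : ℝ)) ≤
      C0 * Real.log (|C| + 1) + C0 * (|D| + 1) * Real.log k := by
    have := mul_le_mul_of_nonneg_left h4 hC0.le
    linarith
  linarith

end Pool.Agent.S07316
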