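import Pool.Statements.S07325
import Pool.Agent.H346R3.RR.TheoremC

set_option autoImplicit false
open Pool Pool.MP_15d78c_co

namespace Pool.Agent.S07325

open Pool.Agent.H346R3.RR in
/-- from a decomposition in the sense of the helper files to one in the sense of the statement -/
theorem toFrozen {d : ℕ} {R : Set (Finpartition (Finset.univ : Finset (Fin d)))} {l : ℕ}
    {K : Type} [Field K] {Q : Fin d → Type} [∀ α, Nonempty (Q α)] {T : (∀ α, Q α) → K}
    (h : Dec R l (fun _ => True) T) :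
    ∃ k < l, ∃ S : Fin k → ((∀ α, Q α) → K),
        (∀ i, ∃ P ∈ R, ∃ a : ∀ I : Finset (Fin d), (∀ β : {γ // γ ∈ I}, Q β.1) → K,
            ∀ x : (∀ α, Q α), S i x = ∏ I ∈ P.parts, a I (fun β => x β.1)) ∧
        T = ∑ i, S i := by
  classical
  obtain ⟨k, hk, P, hP, g, hg, hT⟩ := h
  refine ⟨k, hk, fun i x => ∏ I ∈ (P i).parts, g i I x, ?_, ?_⟩
  · intro i
    refine ⟨P i, hP i, fun I y => g i I (fun α => if h : α ∈ I then y ⟨α, h⟩ else
      Classical.arbitrary (Q α)), fun x => ?_⟩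
    apply Finset.prod_congr rfl
    intro I _
    apply hg i I
    intro α hα
    simp [hα]
  · funext x
    rw [Finset.sum_apply]
    exact hT x trivial

open Pool.Agent.H346R3.RR in
/-- from a decomposition of a restriction in the sense of the statement to one in the sense of
the helper files -/
theorem fromFrozen {d : ℕ} {R : Set (Finpartition (Finset.univ : Finset (Fin d)))} {l : ℕ}
    {K : Type} [Field K] {Q : Fin d → Type} {T : (∀ α, Q α) → K} (X : ∀ α, Finset (Q α))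
    (h : ∃ k < l, ∃ S : Fin k → ((∀ α, {q // q ∈ X α}) → K),
        (∀ i, ∃ P ∈ R, ∃ a : ∀ I : Finset (Fin d), (∀ β : {γ // γ ∈ I}, {q // q ∈ X β.1}) → K,
            ∀ y : (∀ α, {q // q ∈ X α}), S i y = ∏ I ∈ P.parts, a I (fun β => y β.1)) ∧
        (fun y => T (fun α => (y α).1)) = ∑ i, S i) :
    Dec R l (fun x => ∀ α, x α ∈ X α) T := by
  classical
  obtain ⟨k, hk, S, hS, hT⟩ := h
  choose P hP a ha using hS
  refine ⟨k, hk, P, hP, fun i I x => if h : ∀ β : {γ // γ ∈ I}, x β.1 ∈ X β.1 then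
    a i I (fun β => ⟨x β.1, h β⟩) else 0, ?_, ?_⟩
  · intro i I x y hxy
    have e : (fun β : {γ // γ ∈ I} => x β.1) = (fun β : {γ // γ ∈ I} => y β.1) := by
      funext β
      exact hxy β.1 β.2
    have key : ∀ u v : (∀ β : {γ // γ ∈ I}, Q β.1), u = v →
        (if h : ∀ β : {γ // γ ∈ I}, u β ∈ X β.1 then
          a i I (fun β => ⟨u β, h β⟩) else 0) =
        (if h : ∀ β : {γ // γ ∈ I}, v β ∈ X β.1 then
          a i I (fun β => ⟨v β, h β⟩) else (0 : K)) := by
      rintro u v rfl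
      rfl
    exact key _ _ e
  · intro x hx
    have h1 := congrFun hT (fun α => ⟨x α, hx α⟩)
    rw [Finset.sum_apply] at h1
    simp only at h1
    rw [h1]
    apply Finset.sum_congr rfl
    intro i _
    rw [ha i]
    apply Finset.prod_congr rfl
    intro I _
    have h2 : ∀ β : {γ // γ ∈ I}, x β.1 ∈ X β.1 := fun β => hx β.1
    change _ = (if h : ∀ β : {γ // γ ∈ I}, x β.1 ∈ X β.1 then
      a i I (fun β => ⟨x β.1, h β⟩) else 0)
    rw [dif_pos h2]

/-- For every d ≥ 2 and non-empty family R of partitions of [d] there is F such that any tensor over any field with R-rank ≥ l has a restriction to a box with sides of size ≤ F(l) that still has R-rank ≥ l. -/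
theorem result :
  ∀ (d : ℕ), 2 ≤ d →
  ∀ (R : Set (Finpartition (Finset.univ : Finset (Fin d)))), R.Nonempty →
  ∃ F : ℕ → ℕ, ∀ (l : ℕ) (K : Type) [Field K] (Q : Fin d → Type)
    [∀ α, Finite (Q α)] [∀ α, Nonempty (Q α)] (T : (∀ α, Q α) → K),
    (∀ k < l, ¬ ∃ S : Fin k → ((∀ α, Q α) → K),
        (∀ i, ∃ P ∈ R, ∃ a : ∀ I : Finset (Fin d), (∀ β : {γ // γ ∈ I}, Q β.1) → K,
            ∀ x : (∀ α, Q α), S i x = ∏ I ∈ P.parts, a I (fun β => x β.1)) ∧
        T = ∑ i, S i) →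
    ∃ X : ∀ α, Finset (Q α), (∀ α, (X α).card ≤ F l) ∧
      ∀ k < l, ¬ ∃ S : Fin k → ((∀ α, {q // q ∈ X α}) → K),
        (∀ i, ∃ P ∈ R, ∃ a : ∀ I : Finset (Fin d), (∀ β : {γ // γ ∈ I}, {q // q ∈ X β.1}) → K,
            ∀ y : (∀ α, {q // q ∈ X α}), S i y = ∏ I ∈ P.parts, a I (fun β => y β.1)) ∧
        (fun y => T (fun α => (y α).1)) = ∑ i, S i := by
  intro d _ R _
  have key : ∀ l : ℕ, ∃ N : ℕ, ∀ (K : Type) [Field K] (Q : Fin d → Type)
      [∀ α, Finite (Q α)] [∀ α, Nonempty (Q α)] (T : (∀ α, Q α) → K),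
      (∀ k < l, ¬ ∃ S : Fin k → ((∀ α, Q α) → K),
        (∀ i, ∃ P ∈ R, ∃ a : ∀ I : Finset (Fin d), (∀ β : {γ // γ ∈ I}, Q β.1) → K,
            ∀ x : (∀ α, Q α), S i x = ∏ I ∈ P.parts, a I (fun β => x β.1)) ∧
        T = ∑ i, S i) →
      ∃ X : ∀ α, Finset (Q α), (∀ α, (X α).card ≤ N) ∧
        ∀ k < l, ¬ ∃ S : Fin k → ((∀ α, {q // q ∈ X α}) → K),
          (∀ i, ∃ P ∈ R, ∃ a : ∀ I : Finset (Fin d), (∀ β : {γ // γ ∈ I}, {q // q ∈ X β.1}) → K,
              ∀ y : (∀ α, {q // q ∈ X α}), S i y = ∏ I ∈ P.parts, a I (fun β => y β.1)) ∧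
          (fun y => T (fun α => (y α).1)) = ∑ i, S i := by
    intro l
    by_contra hcon
    push Not at hcon
    choose K hK Q hfin hne T hT hX using hcon
    obtain ⟨N, hN⟩ := Pool.Agent.H346R3.RR.theoremC K (Q := Q) R l T (by
      intro N X hXc
      obtain ⟨k, hk, S, hS⟩ := hX N X hXc
      exact fromFrozen X ⟨k, hk, S, hS⟩)
    obtain ⟨k, hk, S, hS, hS2⟩ := toFrozen hN
    exact hT N k hk S hS hS2
  choose F hF using key
  exact ⟨F, fun l K _ Q _ _ T h => hF l K Q T h⟩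

end Pool.Agent.S07325
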