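import Pool.Statements.S07344
import Pool.Agent.H221R3.GoldenConfig

set_option autoImplicit false
open Pool Pool.MP_166f70_co

namespace Pool.Agent.S07344

/-- The negation of the preceding statement: For every sign pattern whose least rank among real matrices with that pattern is some r ≥ 3, and whose columns each have at most r zeros, some rational matrix with that pattern also has rank exactly r. -/
theorem result :
    ¬ (∀ (m n r : ℕ) (A : Matrix (Fin m) (Fin n) SignType),
      3 ≤ r →
      (∃ B : Matrix (Fin m) (Fin n) ℝ,
          (∀ i j, SignType.sign (B i j) = A i j) ∧ B.rank = r) →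
      (∀ B : Matrix (Fin m) (Fin n) ℝ,
          (∀ i j, SignType.sign (B i j) = A i j) → r ≤ B.rank) →
      (∀ j : Fin n, (Finset.univ.filter (fun i : Fin m => A i j = 0)).card ≤ r) →
      ∃ C : Matrix (Fin m) (Fin n) ℚ,
        (∀ i j, SignType.sign (C i j) = A i j) ∧ C.rank = r) := by
  intro H
  obtain ⟨Q, hQ, hr⟩ := H 10 12 3 H221R3.Golden.A le_rfl
    ⟨H221R3.Golden.B, H221R3.Golden.B_sign, H221R3.Golden.B_rank⟩
    (fun _ hB => H221R3.Golden.three_le_rank_of_sign hB) H221R3.Golden.A_zeros
  exact H221R3.Golden.no_rat Q hQ hr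

end Pool.Agent.S07344
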