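import Pool.Statements.S07393
import Mathlib
import Pool.Agent.H502R3.TC7

set_option autoImplicit false
open Classical
open Pool Pool.MP_1887ad_co

namespace Pool.Agent.S07393

/-- For every k ≥ 26 and every threshold sequence r_k(n) of random k-SAT, some ε>0 and some online rule choosing one of two uniform random k-clauses per step keep the formula after ⌊(r_k(n)+ε)n⌋ steps satisfiable with probability tending to 1. -/
theorem result :
  ∀ k : ℕ, 26 ≤ k →
  ∀ r : ℕ → ℝ,
    (∀ ε : ℝ, 0 < ε →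
      Filter.Tendsto (fun n : ℕ =>
        ((Finset.univ.filter (fun F : Fin ⌊(r n + ε) * (n : ℝ)⌋₊ → (Fin k ↪ Fin n) × (Fin k → Bool) =>
            ∃ a : Fin n → Bool, ∀ i, ∃ j : Fin k, a ((F i).1 j) = (F i).2 j)).card : ℝ) /
          (Fintype.card (Fin ⌊(r n + ε) * (n : ℝ)⌋₊ → (Fin k ↪ Fin n) × (Fin k → Bool)) : ℝ))
        Filter.atTop (nhds 0) ∧
      Filter.Tendsto (fun n : ℕ =>
        ((Finset.univ.filter (fun F : Fin ⌊(r n - ε) * (n : ℝ)⌋₊ → (Fin k ↪ Fin n) × (Fin k → Bool) =>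
            ∃ a : Fin n → Bool, ∀ i, ∃ j : Fin k, a ((F i).1 j) = (F i).2 j)).card : ℝ) /
          (Fintype.card (Fin ⌊(r n - ε) * (n : ℝ)⌋₊ → (Fin k ↪ Fin n) × (Fin k → Bool)) : ℝ))
        Filter.atTop (nhds 1)) →
    ∃ ε : ℝ, 0 < ε ∧
      ∃ R : (n : ℕ) → Fin ⌊(r n + ε) * (n : ℝ)⌋₊ →
          (Fin ⌊(r n + ε) * (n : ℝ)⌋₊ →
            ((Fin k ↪ Fin n) × (Fin k → Bool)) × ((Fin k ↪ Fin n) × (Fin k → Bool))) → Bool,
        (∀ (n : ℕ) (i : Fin ⌊(r n + ε) * (n : ℝ)⌋₊)
            (ω ω' : Fin ⌊(r n + ε) * (n : ℝ)⌋₊ →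
              ((Fin k ↪ Fin n) × (Fin k → Bool)) × ((Fin k ↪ Fin n) × (Fin k → Bool))),
            (∀ j : Fin ⌊(r n + ε) * (n : ℝ)⌋₊, j ≤ i → ω j = ω' j) → R n i ω = R n i ω') ∧
        Filter.Tendsto (fun n : ℕ =>
          ((Finset.univ.filter (fun ω : Fin ⌊(r n + ε) * (n : ℝ)⌋₊ →
                ((Fin k ↪ Fin n) × (Fin k → Bool)) × ((Fin k ↪ Fin n) × (Fin k → Bool)) =>
              ∃ a : Fin n → Bool, ∀ i, ∃ j : Fin k,
                a ((if R n i ω then (ω i).2 else (ω i).1).1 j) =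
                  (if R n i ω then (ω i).2 else (ω i).1).2 j)).card : ℝ) /
            (Fintype.card (Fin ⌊(r n + ε) * (n : ℝ)⌋₊ →
                ((Fin k ↪ Fin n) × (Fin k → Bool)) × ((Fin k ↪ Fin n) × (Fin k → Bool))) : ℝ))
          Filter.atTop (nhds 1) := by
  intro k hk r hr
  -- the threshold is at most `2 ^ k - 1`
  have hupper : ∀ᶠ n : ℕ in Filter.atTop, r n ≤ 2 ^ k - 1 := by
    have h1 := (hr 1 one_pos).2
    have h2 := h1.eventually (lt_mem_nhds (show (3 / 4 : ℝ) < 1 by norm_num))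
    filter_upwards [h2, Filter.eventually_ge_atTop k] with n hn hkn
    by_contra hcon
    push Not at hcon
    have hn0 : (1 : ℕ) ≤ n := by omega
    have h2k : (2 : ℕ) ≤ 2 ^ k := by
      calc (2 : ℕ) = 2 ^ 1 := by norm_num
        _ ≤ 2 ^ k := Nat.pow_le_pow_right (by norm_num) (by omega)
    have hm : (2 ^ k - 2) * n ≤ ⌊(r n - 1) * (n : ℝ)⌋₊ := by
      apply Nat.le_floor
      push_cast [h2k]
      apply mul_le_mul_of_nonneg_right _ (Nat.cast_nonneg n)
      linarith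
    have h3 := Pool.Agent.H502R3.TwoChoice.frac_le hk hkn hm
    have h4 : ((3 : ℝ) / 4) ^ n ≤ 3 / 4 := by
      calc ((3 : ℝ) / 4) ^ n ≤ (3 / 4) ^ 1 := pow_le_pow_of_le_one (by norm_num) (by norm_num) hn0
        _ = 3 / 4 := pow_one _
    have h5 := h3.trans h4
    exact absurd hn (not_lt.mpr h5)
  refine ⟨1 / 2, by norm_num, fun n i ω =>
    decide ((Pool.Agent.H502R3.TwoChoice.pos (ω i).1.2).card <
      (Pool.Agent.H502R3.TwoChoice.pos (ω i).2.2).card), ?_, ?_⟩
  · intro n i ω ω' h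
    have h' := h i le_rfl
    simp only [h']
  · have hpick : ∀ (n m : ℕ) (ω : Fin m →
        ((Fin k ↪ Fin n) × (Fin k → Bool)) × ((Fin k ↪ Fin n) × (Fin k → Bool))) (i : Fin m),
        (if (decide ((Pool.Agent.H502R3.TwoChoice.pos (ω i).1.2).card <
          (Pool.Agent.H502R3.TwoChoice.pos (ω i).2.2).card)) = true then (ω i).2 else (ω i).1)
          = Pool.Agent.H502R3.TwoChoice.pick (ω i) := by
      intro n m ω i
      unfold Pool.Agent.H502R3.TwoChoice.pick
      by_cases h : (Pool.Agent.H502R3.TwoChoice.pos (ω i).1.2).card <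
          (Pool.Agent.H502R3.TwoChoice.pos (ω i).2.2).card
      · simp [h]
      · simp [h]
    simp only [hpick]
    refine tendsto_of_tendsto_of_tendsto_of_le_of_le'
      Pool.Agent.H502R3.TwoChoice.err_tendsto tendsto_const_nhds ?_ ?_
    · filter_upwards [hupper, Filter.eventually_ge_atTop (11 * k ^ 2)] with n hn hn2
      have hm : ⌊(r n + 1 / 2) * (n : ℝ)⌋₊ ≤ 2 ^ k * n := by
        apply Nat.floor_le_of_le
        push_cast
        apply mul_le_mul_of_nonneg_right _ (Nat.cast_nonneg n)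
        linarith
      have h1 := Pool.Agent.H502R3.TwoChoice.good_frac hk hn2 hm
      unfold Pool.Agent.H502R3.TwoChoice.good at h1
      refine h1.trans (le_of_eq ?_)
      congr!
    · filter_upwards with n
      apply div_le_one_of_le₀ _ (Nat.cast_nonneg _)
      have := Finset.card_le_univ (Finset.univ.filter (fun ω : Fin ⌊(r n + 1 / 2) * (n : ℝ)⌋₊ →
                ((Fin k ↪ Fin n) × (Fin k → Bool)) × ((Fin k ↪ Fin n) × (Fin k → Bool)) =>
              ∃ a : Fin n → Bool, ∀ i, ∃ j : Fin k,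
                a ((Pool.Agent.H502R3.TwoChoice.pick (ω i)).1 j) =
                  (Pool.Agent.H502R3.TwoChoice.pick (ω i)).2 j))
      exact_mod_cast this

end Pool.Agent.S07393
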