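import Pool.Statements.S07416
import Pool.Agent.H470R3.KnI

set_option autoImplicit false
open Pool Pool.MP_1a5e21_co

namespace Pool.Agent.S07416

/-- The negation of the preceding statement: There is c > 0 such that whenever m > w ≥ 1 and some permutation of the w-subsets of an m-set maps every disjoint pair to a non-disjoint pair (two edge-disjoint copies of KG(m,w) in K_N), then w ≥ c·m. -/
theorem result :
    ¬ (∃ c : ℝ, 0 < c ∧ ∀ m w : ℕ, 1 ≤ w → w < m →
      (∃ σ : Equiv.Perm {s : Finset (Fin m) // s.card = w},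
        ∀ s t : {s : Finset (Fin m) // s.card = w},
          Disjoint s.1 t.1 → ¬ Disjoint (σ s).1 (σ t).1) →
      c * (m : ℝ) ≤ (w : ℝ)) := by
  rintro ⟨c, hc, hmain⟩
  obtain ⟨n, hn⟩ := exists_nat_gt (1 / c)
  obtain ⟨m, w, hw1, hwm, hm, σ, hσ⟩ :=
    Pool.Agent.H470R3.Kn.main_packing (n + 4) (by omega)
  have h1 := hmain m w hw1 hwm ⟨σ, hσ⟩
  have hwR : (1 : ℝ) ≤ w := by exact_mod_cast hw1
  have h2 : 1 < c * (n : ℝ) := by
    rw [div_lt_iff₀ hc] at hn
    linarith
  have h3 : 1 < c * ((n : ℝ) + 4) := by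
    have : c * ((n : ℝ) + 4) = c * n + c * 4 := by ring
    rw [this]
    linarith
  rw [hm] at h1
  push_cast at h1
  have h4 : (w : ℝ) < c * (((n : ℝ) + 4) * w) := by
    calc (w : ℝ) = 1 * w := by ring
      _ < (c * ((n : ℝ) + 4)) * w := mul_lt_mul_of_pos_right h3 (by linarith)
      _ = _ := by ring
  linarith

end Pool.Agent.S07416
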