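import Pool.Statements.S07458
import Pool.Agent.H778R3.Flex

set_option autoImplicit false
open Pool Pool.MP_1bc7ab_co

namespace Pool.Agent.S07458

/-- The negation of the preceding statement: For each d there is ε>0 such that for every finite d-degenerate graph with lists of size d+1 and every nonnegative weighting of vertex-color pairs, some proper list coloring collects at least ε times the total weight. -/
theorem result :
    ¬ (∀ d : ℕ, ∃ ε : ℝ, 0 < ε ∧
      ∀ (V : Type) [Fintype V] (G : SimpleGraph V),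
        (∀ S : Finset V, S.Nonempty →
          ∃ v ∈ S, ({u : V | u ∈ S ∧ G.Adj v u}).ncard ≤ d) →
        ∀ L : V → Finset ℕ, (∀ v, (L v).card = d + 1) →
          ∀ w : V → ℕ → ℝ, (∀ v c, 0 ≤ w v c) →
            ∃ φ : V → ℕ, (∀ v, φ v ∈ L v) ∧
              (∀ u v, G.Adj u v → φ u ≠ φ v) ∧
              ε * ∑ v, ∑ c ∈ L v, w v c ≤ ∑ v, w v (φ v)) := by
  classical
  intro h
  obtain ⟨ε, hε, h⟩ := h 2
  obtain ⟨k, hk⟩ := exists_nat_gt (1 / ε)
  have hk' : 1 < ε * k := by
    rw [div_lt_iff₀ hε] at hk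
    linarith
  obtain ⟨φ, hL, hφ, hw⟩ := h (Fin (5 * k + 1)) (Pool.Agent.H778R3.Flex.G k)
    (Pool.Agent.H778R3.Flex.degenerate k) (fun v => Pool.Agent.H778R3.Flex.L v)
    (fun v => Pool.Agent.H778R3.Flex.card_L v)
    (fun v c => if (v : ℕ) % 5 = 4 ∧ c = 2 then 1 else 0)
    (fun v c => by split_ifs <;> norm_num)
  have hsat := Pool.Agent.H778R3.Flex.card_sat φ hL hφ
  have h1 : ∑ v : Fin (5 * k + 1), (if (v : ℕ) % 5 = 4 ∧ φ v = 2 then (1 : ℝ) else 0) ≤ 1 := by
    rw [Finset.sum_ite, Finset.sum_const_zero, add_zero, Finset.sum_const, nsmul_eq_mul, mul_one]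
    exact_mod_cast hsat
  have h2 : ∑ v : Fin (5 * k + 1), ∑ c ∈ Pool.Agent.H778R3.Flex.L v,
      (if (v : ℕ) % 5 = 4 ∧ c = 2 then (1 : ℝ) else 0) = k := by
    have h3 : ∀ v : Fin (5 * k + 1), ∑ c ∈ Pool.Agent.H778R3.Flex.L v,
        (if (v : ℕ) % 5 = 4 ∧ c = 2 then (1 : ℝ) else 0) =
        if (v : ℕ) % 5 = 4 then (1 : ℝ) else 0 := by
      intro v
      by_cases h4 : (v : ℕ) % 5 = 4
      · have hL4 : Pool.Agent.H778R3.Flex.L v = {0, 2, 4} := by
          unfold Pool.Agent.H778R3.Flex.L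
          rw [h4]; rfl
        rw [hL4]
        simp [h4]
      · simp [h4]
    rw [Finset.sum_congr rfl (fun v _ => h3 v), Finset.sum_ite, Finset.sum_const_zero, add_zero,
      Finset.sum_const, nsmul_eq_mul, mul_one]
    exact_mod_cast Pool.Agent.H778R3.Flex.card_dom k
  rw [h2] at hw
  linarith

end Pool.Agent.S07458
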