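import Pool.Statements.S07499

set_option autoImplicit false
open Pool Pool.MP_1d4c69_co

namespace Pool.Agent.S07499

/-- vertex type: 11 positions on a cycle, two twins each -/
abbrev VV := Fin 11 × Bool

/-- adjacency of the twin blow-up of the 11-cycle -/
def adjB (u v : VV) : Bool := (v.1 == u.1 + 1) || (u.1 == v.1 + 1)

/-- the twin blow-up of the 11-cycle -/
def G : SimpleGraph VV where
  Adj u v := adjB u v = true
  symm := ⟨by
    intro u v h
    revert u v
    decide +kernel⟩
  loopless := ⟨by decide +kernel⟩

/-- explicit distance -/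
def D (u v : VV) : ℕ :=
  if u = v then 0
  else if u.1 = v.1 then 2
  else min ((v.1 - u.1 : Fin 11).val) ((u.1 - v.1 : Fin 11).val)

lemma D_self (u : VV) : D u u = 0 := by simp [D]

lemma D_lip : ∀ u v w : VV, adjB u v = true → D u w ≤ D v w + 1 := by decide +kernel

lemma D_le_walk {u v : VV} (p : G.Walk u v) : D u v ≤ p.length := by
  induction p with
  | nil => simp [D_self]
  | @cons a b c h q ih =>
    rw [SimpleGraph.Walk.length_cons]
    have := D_lip a b c h
    omega

lemma reach_step (i : Fin 11) (a b : Bool) : G.Reachable (i, a) (i + 1, b) := by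
  apply SimpleGraph.Adj.reachable
  show adjB (i, a) (i + 1, b) = true
  simp [adjB]

lemma reach_n (n : ℕ) (i : Fin 11) (a b : Bool) :
    G.Reachable (i, a) (i + (Fin.ofNat 11 (n + 1)), b) := by
  induction n generalizing b with
  | zero =>
    exact reach_step i a b
  | succ n ih =>
    refine (ih b).trans ?_
    have h : i + (Fin.ofNat 11 (n + 1 + 1)) = i + (Fin.ofNat 11 (n + 1)) + 1 := by
      ext
      simp [Fin.val_add, Fin.ofNat]
      omega
    rw [h]
    exact reach_step _ _ _

lemma conn : G.Connected := by
  have hp : G.Preconnected := by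
    rintro ⟨i, a⟩ ⟨j, b⟩
    have key : ∀ i j : Fin 11, ∃ n : Fin 11, i + (Fin.ofNat 11 (n.val + 1)) = j := by
      decide +kernel
    obtain ⟨n, hn⟩ := key i j
    rw [← hn]
    exact reach_n _ _ _ _
  exact ⟨hp⟩

lemma D_le_dist (u v : VV) : D u v ≤ G.dist u v := by
  obtain ⟨p, hp⟩ := conn.exists_walk_length_eq_dist u v
  rw [← hp]
  exact D_le_walk p

/-- the candidate multipacking -/
def M0 : Finset VV := {(0, false), (4, false), (8, false)}

lemma M0_card : M0.card = 3 := by decide +kernel

lemma M0_one : ∀ v : VV, (M0.filter (fun u => D v u ≤ 1)).card ≤ 1 := by decide +kernel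

lemma M0_two : ∀ v : VV, (M0.filter (fun u => D v u ≤ 2)).card ≤ 2 := by decide +kernel

lemma close_pairs : ∀ u w : VV, u ≠ w → ∀ k l : Fin 3,
    u.1 + Fin.castLE (by norm_num) k = w.1 + (Fin.castLE (by norm_num) l : Fin 11) →
    ∃ v : VV, (v = u ∨ adjB v u = true) ∧ (v = w ∨ adjB v w = true) := by
  decide +kernel

lemma ball_card : ∀ v : VV, ∀ r : Fin 5, 
    ((Finset.univ : Finset VV).filter (fun u => D u v ≤ r.val)).card ≤ 5 * r.val ∨ r.val = 0 := by
  decide +kernel

lemma dist_le_one {u v : VV} (h : v = u ∨ adjB v u = true) : G.dist v u ≤ 1 := by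
  rcases h with rfl | h
  · simp
  · have : G.Adj v u := h
    rw [SimpleGraph.dist_eq_one_iff_adj.2 this]

/-- There is a finite connected graph whose largest multipacking (every radius-r ball holds at most r of its vertices) has exactly 3 vertices, while every dominating broadcast has total cost at least 5. -/
theorem result :
    ∃ (V : Type) (_ : Fintype V) (G : SimpleGraph V),
      G.Connected ∧
      (∃ M : Finset V, M.card = 3 ∧
        ∀ v : V, ∀ r : ℕ, 1 ≤ r → (M.filter (fun u => G.dist v u ≤ r)).card ≤ r) ∧
      (∀ M : Finset V,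
        (∀ v : V, ∀ r : ℕ, 1 ≤ r → (M.filter (fun u => G.dist v u ≤ r)).card ≤ r) →
        M.card ≤ 3) ∧
      (∀ f : V → ℕ, (∀ u : V, ∃ v : V, 1 ≤ f v ∧ G.dist u v ≤ f v) →
        5 ≤ ∑ v, f v) := by
  refine ⟨VV, inferInstance, G, conn, ⟨M0, M0_card, ?_⟩, ?_, ?_⟩
  · intro v r hr
    by_cases h3 : 3 ≤ r
    · exact (Finset.card_filter_le _ _).trans (by rw [M0_card]; exact h3)
    · have hr' : r = 1 ∨ r = 2 := by omega
      have hsub : (M0.filter (fun u => G.dist v u ≤ r)) ⊆ (M0.filter (fun u => D v u ≤ r)) := by
        intro u hu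
        rw [Finset.mem_filter] at hu ⊢
        exact ⟨hu.1, (D_le_dist v u).trans hu.2⟩
      refine (Finset.card_le_card hsub).trans ?_
      rcases hr' with rfl | rfl
      · exact M0_one v
      · exact M0_two v
  · intro M hM
    have hinj : Set.InjOn (fun p : VV × Fin 3 => p.1.1 + (Fin.castLE (by norm_num) p.2 : Fin 11))
        (M ×ˢ (Finset.univ : Finset (Fin 3)) : Finset (VV × Fin 3)) := by
      rintro ⟨u, k⟩ hu ⟨w, l⟩ hw h
      simp only [Finset.coe_product, Set.mem_prod, Finset.mem_coe, Finset.mem_univ, and_true] at hu hw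
      simp only at h
      by_cases huw : u = w
      · subst huw
        have h2 := add_left_cancel h
        have h3 : k = l := by
          ext
          have := congrArg Fin.val h2
          simpa using this
        rw [h3]
      · exfalso
        obtain ⟨v, hv1, hv2⟩ := close_pairs u w huw k l h
        have h1 := hM v 1 le_rfl
        have hsub : ({u, w} : Finset VV) ⊆ M.filter (fun u => G.dist v u ≤ 1) := by
          intro x hx
          rw [Finset.mem_insert, Finset.mem_singleton] at hx
          rw [Finset.mem_filter]
          rcases hx with rfl | rfl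
          · exact ⟨hu, dist_le_one hv1⟩
          · exact ⟨hw, dist_le_one hv2⟩
        have h2 := Finset.card_le_card hsub
        rw [Finset.card_pair huw] at h2
        omega
    have hc := Finset.card_le_card_of_injOn _ (t := (Finset.univ : Finset (Fin 11)))
      (fun _ _ => Finset.mem_univ _) hinj
    rw [Finset.card_product, Finset.card_univ, Finset.card_univ, Fintype.card_fin,
      Fintype.card_fin] at hc
    omega
  · intro f hf
    by_contra hlt
    push Not at hlt
    have hsub : (Finset.univ : Finset VV) ⊆
        (Finset.univ : Finset VV).biUnion (fun v =>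
          if 1 ≤ f v then (Finset.univ : Finset VV).filter (fun u => D u v ≤ f v) else ∅) := by
      intro u _
      obtain ⟨v, hv1, hv2⟩ := hf u
      rw [Finset.mem_biUnion]
      refine ⟨v, Finset.mem_univ _, ?_⟩
      rw [if_pos hv1, Finset.mem_filter]
      exact ⟨Finset.mem_univ _, (D_le_dist u v).trans hv2⟩
    have h1 := (Finset.card_le_card hsub).trans Finset.card_biUnion_le
    have h2 : ∀ v : VV, (if 1 ≤ f v then (Finset.univ : Finset VV).filter (fun u => D u v ≤ f v)
        else ∅).card ≤ 5 * f v := by
      intro v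
      split_ifs with hv
      · have hfv : f v < 5 := lt_of_le_of_lt (Finset.single_le_sum (f := f)
          (fun _ _ => Nat.zero_le _) (Finset.mem_univ v)) hlt
        rcases ball_card v ⟨f v, hfv⟩ with h | h
        · exact h
        · simp only at h
          omega
      · simp
    have h3 := h1.trans (Finset.sum_le_sum (fun v _ => h2 v))
    rw [← Finset.mul_sum] at h3
    have h4 : (Finset.univ : Finset VV).card = 22 := by decide +kernel
    rw [h4] at h3
    omega

end Pool.Agent.S07499
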