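import Pool.Statements.S07514

set_option autoImplicit false
open Pool Pool.MP_1dd9c6_co

namespace Pool.Agent.S07514

/-- Positions: `(s, b, f, d)` is the sum of `s` copies of `* = {0}`, `b` copies of `*2 = {0, *}`,
`f` copies of `F = {*, *2 + *2, * + *2 + *2 + *2}` and `d` copies of
`D = {F, F + *, * + *2}`. -/
abbrev Pos := ℕ × ℕ × ℕ × ℕ

/-- `Opt g x` : `x` is an option of `g`. -/
def Opt (g x : Pos) : Prop :=
  (1 ≤ g.1 ∧ x = (g.1 - 1, g.2.1, g.2.2.1, g.2.2.2)) ∨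
  (1 ≤ g.2.1 ∧ (x = (g.1, g.2.1 - 1, g.2.2.1, g.2.2.2) ∨
    x = (g.1 + 1, g.2.1 - 1, g.2.2.1, g.2.2.2))) ∨
  (1 ≤ g.2.2.1 ∧ (x = (g.1 + 1, g.2.1, g.2.2.1 - 1, g.2.2.2) ∨
    x = (g.1, g.2.1 + 2, g.2.2.1 - 1, g.2.2.2) ∨
    x = (g.1 + 1, g.2.1 + 3, g.2.2.1 - 1, g.2.2.2))) ∨
  (1 ≤ g.2.2.2 ∧ (x = (g.1, g.2.1, g.2.2.1 + 1, g.2.2.2 - 1) ∨
    x = (g.1 + 1, g.2.1, g.2.2.1 + 1, g.2.2.2 - 1) ∨
    x = (g.1 + 1, g.2.1 + 1, g.2.2.1, g.2.2.2 - 1)))

/-- P-positions with an even number of `*` and no `D`. -/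
def A0 (b f : ℕ) : Prop := (f % 2 = b % 2 ∧ (f + 2 ≤ b ∨ b + 4 ≤ f)) ∨ (b = 0 ∧ f = 3)
/-- P-positions with an even number of `*` and at least one `D`. -/
def A1 (b f : ℕ) : Prop := (f % 2 = b % 2 ∧ (f + 2 ≤ b ∨ b + 4 ≤ f) ∧ ¬ (b = 2 ∧ f = 0)) ∨
    (b = 0 ∧ f = 1) ∨ (b = 1 ∧ f = 0)
/-- P-positions with an odd number of `*` and no `D`. -/
def B0 (b f : ℕ) : Prop := f = b + 1 ∨ (b = 0 ∧ f = 0)
/-- P-positions with an odd number of `*` and at least one `D`. -/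
def B1 (b f : ℕ) : Prop := f = b + 1 ∧ 1 ≤ b

/-- The explicit description of the misere P-positions. -/
def PP (s b f d : ℕ) : Prop :=
  if s % 2 = 0 then (if d = 0 then A0 b f else A1 b f) else (if d = 0 then B0 b f else B1 b f)

theorem pe0 {s : ℕ} (b f : ℕ) (h : s % 2 = 0) : PP s b f 0 ↔ A0 b f := by simp [PP, h]
theorem pe1 {s d : ℕ} (b f : ℕ) (h : s % 2 = 0) (hd : 1 ≤ d) : PP s b f d ↔ A1 b f := by
  have : d ≠ 0 := by omega
  simp [PP, h, this]
theorem po0 {s : ℕ} (b f : ℕ) (h : s % 2 = 1) : PP s b f 0 ↔ B0 b f := by simp [PP, h]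
theorem po1 {s d : ℕ} (b f : ℕ) (h : s % 2 = 1) (hd : 1 ≤ d) : PP s b f d ↔ B1 b f := by
  have : d ≠ 0 := by omega
  simp [PP, h, this]

theorem LA0 (b f : ℕ) (h : ¬ A0 b f) (h0 : 1 ≤ b + f) :
    (1 ≤ b ∧ (A0 (b-1) f ∨ B0 (b-1) f)) ∨
    (1 ≤ f ∧ (B0 b (f-1) ∨ A0 (b+2) (f-1) ∨ B0 (b+3) (f-1))) := by
  simp only [A0] at h
  rcases Nat.lt_trichotomy f b with hfb | hfb | hfb
  · by_cases h1 : f + 3 ≤ b
    · exact Or.inl ⟨by omega, Or.inl (Or.inl ⟨by omega, by omega⟩)⟩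
    · rcases Nat.eq_zero_or_pos f with hf | hf
      · exact Or.inl ⟨by omega, Or.inr (Or.inr ⟨by omega, by omega⟩)⟩
      · exact Or.inr ⟨hf, Or.inr (Or.inl (Or.inl ⟨by omega, by omega⟩))⟩
  · exact Or.inl ⟨by omega, Or.inr (Or.inl (by omega))⟩
  · by_cases h1 : f = b + 1
    · exact Or.inr ⟨by omega, Or.inr (Or.inl (Or.inl ⟨by omega, by omega⟩))⟩
    · by_cases h2 : f = b + 2
      · exact Or.inr ⟨by omega, Or.inl (Or.inl (by omega))⟩
      · rcases Nat.eq_zero_or_pos b with hb | hb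
        · by_cases h5 : f = 5
          · exact Or.inr ⟨by omega, Or.inr (Or.inr (Or.inl (by omega)))⟩
          · exact Or.inr ⟨by omega, Or.inr (Or.inl (Or.inl ⟨by omega, by omega⟩))⟩
        · exact Or.inl ⟨hb, Or.inl (Or.inl ⟨by omega, by omega⟩)⟩

theorem LB0 (b f : ℕ) (h : ¬ B0 b f) : A0 b f ∨
    (1 ≤ b ∧ (B0 (b-1) f ∨ A0 (b-1) f)) ∨
    (1 ≤ f ∧ (A0 b (f-1) ∨ B0 (b+2) (f-1) ∨ A0 (b+3) (f-1))) := by
  by_cases hA : A0 b f
  · exact Or.inl hA
  simp only [B0] at h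
  simp only [A0] at hA
  right
  rcases Nat.lt_trichotomy f b with hfb | hfb | hfb
  · by_cases h1 : f + 3 ≤ b
    · exact Or.inl ⟨by omega, Or.inr (Or.inl ⟨by omega, by omega⟩)⟩
    · rcases Nat.eq_zero_or_pos f with hf | hf
      · exact Or.inl ⟨by omega, Or.inl (Or.inr ⟨by omega, by omega⟩)⟩
      · exact Or.inr ⟨hf, Or.inl (Or.inl ⟨by omega, by omega⟩)⟩
  · exact Or.inl ⟨by omega, Or.inl (Or.inl (by omega))⟩
  · by_cases h2 : f = b + 2
    · exact Or.inr ⟨by omega, Or.inr (Or.inr (Or.inl ⟨by omega, by omega⟩))⟩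
    · rcases Nat.eq_zero_or_pos b with hb | hb
      · exact Or.inr ⟨by omega, Or.inl (Or.inl ⟨by omega, by omega⟩)⟩
      · exact Or.inl ⟨hb, Or.inr (Or.inl ⟨by omega, by omega⟩)⟩

theorem LA1 (b f : ℕ) (h : ¬ A1 b f) (X Y : ℕ → ℕ → Prop)
    (h1 : X 0 1 ∨ Y 0 1) (h2 : Y 1 2) (h3 : X 0 4) (h4 : X 3 1) :
    (1 ≤ b ∧ (A1 (b-1) f ∨ B1 (b-1) f)) ∨
    (1 ≤ f ∧ (B1 b (f-1) ∨ A1 (b+2) (f-1) ∨ B1 (b+3) (f-1))) ∨
    (X b (f+1) ∨ Y b (f+1) ∨ Y (b+1) f) := by
  simp only [A1] at h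
  rcases Nat.lt_trichotomy f b with hfb | hfb | hfb
  · by_cases h20 : b = 2 ∧ f = 0
    · exact Or.inl ⟨by omega, Or.inl (Or.inr (Or.inr ⟨by omega, by omega⟩))⟩
    by_cases h30 : b = 3 ∧ f = 0
    · obtain ⟨rfl, rfl⟩ := h30
      exact Or.inr (Or.inr (Or.inl h4))
    by_cases h1 : f + 3 ≤ b
    · exact Or.inl ⟨by omega, Or.inl (Or.inl ⟨by omega, by omega, by omega⟩)⟩
    · exact Or.inr (Or.inl ⟨by omega, Or.inr (Or.inl (Or.inl ⟨by omega, by omega, by omega⟩))⟩)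
  · rcases Nat.eq_zero_or_pos b with hb | hb
    · subst hfb
      subst hb
      rcases h1 with h1 | h1
      · exact Or.inr (Or.inr (Or.inl h1))
      · exact Or.inr (Or.inr (Or.inr (Or.inl h1)))
    · by_cases hb1 : b = 1
      · exact Or.inl ⟨by omega, Or.inl (Or.inr (Or.inl ⟨by omega, by omega⟩))⟩
      · exact Or.inl ⟨by omega, Or.inr ⟨by omega, by omega⟩⟩
  · by_cases h1 : f = b + 1
    · exact Or.inr (Or.inl ⟨by omega, Or.inr (Or.inl (Or.inl ⟨by omega, by omega, by omega⟩))⟩)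
    · by_cases h2' : f = b + 2
      · rcases Nat.eq_zero_or_pos b with hb | hb
        · subst hb
          subst h2'
          exact Or.inr (Or.inr (Or.inr (Or.inr h2)))
        · exact Or.inr (Or.inl ⟨by omega, Or.inl ⟨by omega, by omega⟩⟩)
      · rcases Nat.eq_zero_or_pos b with hb | hb
        · by_cases h3' : f = 3
          · subst hb
            subst h3'
            exact Or.inr (Or.inr (Or.inl h3))
          · by_cases h5 : f = 5
            · exact Or.inr (Or.inl ⟨by omega, Or.inr (Or.inr ⟨by omega, by omega⟩)⟩)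
            · exact Or.inr (Or.inl ⟨by omega,
                Or.inr (Or.inl (Or.inl ⟨by omega, by omega, by omega⟩))⟩)
        · exact Or.inl ⟨hb, Or.inl (Or.inl ⟨by omega, by omega, by omega⟩)⟩

theorem LB1 (b f : ℕ) (h : ¬ B1 b f) (X Y : ℕ → ℕ → Prop)
    (h1 : Y 0 1 ∨ X 0 1) (h3 : X 0 4) (h4 : X 3 1) : A1 b f ∨
    (1 ≤ b ∧ (B1 (b-1) f ∨ A1 (b-1) f)) ∨
    (1 ≤ f ∧ (A1 b (f-1) ∨ B1 (b+2) (f-1) ∨ A1 (b+3) (f-1))) ∨
    (Y b (f+1) ∨ X b (f+1) ∨ X (b+1) f) := by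
  by_cases hA : A1 b f
  · exact Or.inl hA
  simp only [B1] at h
  simp only [A1] at hA
  right
  rcases Nat.lt_trichotomy f b with hfb | hfb | hfb
  · by_cases h20 : b = 2 ∧ f = 0
    · exact Or.inl ⟨by omega, Or.inr (Or.inr (Or.inr ⟨by omega, by omega⟩))⟩
    by_cases h30 : b = 3 ∧ f = 0
    · obtain ⟨rfl, rfl⟩ := h30
      exact Or.inr (Or.inr (Or.inr (Or.inl h4)))
    by_cases h1 : f + 3 ≤ b
    · exact Or.inl ⟨by omega, Or.inr (Or.inl ⟨by omega, by omega, by omega⟩)⟩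
    · by_cases h21 : b = 2 ∧ f = 1
      · obtain ⟨rfl, rfl⟩ := h21
        exact Or.inr (Or.inr (Or.inr (Or.inr h4)))
      · exact Or.inr (Or.inl ⟨by omega, Or.inl (Or.inl ⟨by omega, by omega, by omega⟩)⟩)
  · rcases Nat.eq_zero_or_pos b with hb | hb
    · subst hfb
      subst hb
      rcases h1 with h1 | h1
      · exact Or.inr (Or.inr (Or.inl h1))
      · exact Or.inr (Or.inr (Or.inr (Or.inl h1)))
    · by_cases hb1 : b = 1
      · exact Or.inl ⟨by omega, Or.inr (Or.inr (Or.inl ⟨by omega, by omega⟩))⟩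
      · exact Or.inl ⟨by omega, Or.inl ⟨by omega, by omega⟩⟩
  · by_cases h2' : f = b + 2
    · exact Or.inr (Or.inl ⟨by omega, Or.inr (Or.inr (Or.inl ⟨by omega, by omega, by omega⟩))⟩)
    · rcases Nat.eq_zero_or_pos b with hb | hb
      · by_cases h3' : f = 3
        · subst hb
          subst h3'
          exact Or.inr (Or.inr (Or.inr (Or.inl h3)))
        · exact Or.inr (Or.inl ⟨by omega, Or.inl (Or.inl ⟨by omega, by omega, by omega⟩)⟩)
      · exact Or.inl ⟨hb, Or.inr (Or.inl ⟨by omega, by omega, by omega⟩)⟩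

def opts (g : Pos) : Set Pos := {x | Opt g x}

def NN (g : Pos) : Prop := ¬ PP g.1 g.2.1 g.2.2.1 g.2.2.2

theorem opts_finite (g : Pos) : (opts g).Finite := by
  apply Set.Finite.subset (s := {(g.1 - 1, g.2.1, g.2.2.1, g.2.2.2),
    (g.1, g.2.1 - 1, g.2.2.1, g.2.2.2), (g.1 + 1, g.2.1 - 1, g.2.2.1, g.2.2.2),
    (g.1 + 1, g.2.1, g.2.2.1 - 1, g.2.2.2), (g.1, g.2.1 + 2, g.2.2.1 - 1, g.2.2.2),
    (g.1 + 1, g.2.1 + 3, g.2.2.1 - 1, g.2.2.2), (g.1, g.2.1, g.2.2.1 + 1, g.2.2.2 - 1),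
    (g.1 + 1, g.2.1, g.2.2.1 + 1, g.2.2.2 - 1), (g.1 + 1, g.2.1 + 1, g.2.2.1, g.2.2.2 - 1)})
  · exact Set.toFinite _
  · intro x hx
    have hx' : Opt g x := hx
    simp only [Opt] at hx'
    simp only [Set.mem_insert_iff, Set.mem_singleton_iff]
    tauto

theorem opts_wf : WellFounded (fun a b : Pos => a ∈ opts b) := by
  have hsub : Subrelation (fun a b : Pos => a ∈ opts b)
      (InvImage (· < ·) (fun g : Pos => g.1 + 2 * g.2.1 + 8 * g.2.2.1 + 10 * g.2.2.2)) := by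
    rintro ⟨a1, a2, a3, a4⟩ ⟨b1, b2, b3, b4⟩ h
    have h' : Opt (b1, b2, b3, b4) (a1, a2, a3, a4) := h
    simp only [Opt, Prod.mk.injEq] at h'
    simp only [InvImage]
    omega
  exact hsub.wf (InvImage.wf _ wellFounded_lt)

theorem opts_add_left (g h x : Pos) (hx : Opt g x) : Opt (g + h) (x + h) := by
  obtain ⟨g1, g2, g3, g4⟩ := g
  obtain ⟨h1, h2, h3, h4⟩ := h
  obtain ⟨x1, x2, x3, x4⟩ := x
  simp only [Opt, Prod.mk.injEq, Prod.mk_add_mk] at hx ⊢
  rcases hx with ⟨h0, rfl, rfl, rfl, rfl⟩ | ⟨h0, hx⟩ | ⟨h0, hx⟩ | ⟨h0, hx⟩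
  · exact Or.inl ⟨by omega, by omega, rfl, rfl, rfl⟩
  · rcases hx with ⟨rfl, rfl, rfl, rfl⟩ | ⟨rfl, rfl, rfl, rfl⟩
    · exact Or.inr (Or.inl ⟨by omega, Or.inl ⟨by omega, by omega, rfl, rfl⟩⟩)
    · exact Or.inr (Or.inl ⟨by omega, Or.inr ⟨by omega, by omega, rfl, rfl⟩⟩)
  · rcases hx with ⟨rfl, rfl, rfl, rfl⟩ | ⟨rfl, rfl, rfl, rfl⟩ | ⟨rfl, rfl, rfl, rfl⟩
    · exact Or.inr (Or.inr (Or.inl ⟨by omega, Or.inl ⟨by omega, by omega, by omega, rfl⟩⟩))
    · exact Or.inr (Or.inr (Or.inl ⟨by omega, Or.inr (Or.inl ⟨by omega, by omega, by omega, rfl⟩)⟩))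
    · exact Or.inr (Or.inr (Or.inl ⟨by omega, Or.inr (Or.inr ⟨by omega, by omega, by omega, rfl⟩)⟩))
  · rcases hx with ⟨rfl, rfl, rfl, rfl⟩ | ⟨rfl, rfl, rfl, rfl⟩ | ⟨rfl, rfl, rfl, rfl⟩
    · exact Or.inr (Or.inr (Or.inr ⟨by omega, Or.inl ⟨by omega, by omega, by omega, by omega⟩⟩))
    · exact Or.inr (Or.inr (Or.inr ⟨by omega,
        Or.inr (Or.inl ⟨by omega, by omega, by omega, by omega⟩)⟩))
    · exact Or.inr (Or.inr (Or.inr ⟨by omega,
        Or.inr (Or.inr ⟨by omega, by omega, by omega, by omega⟩)⟩))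

theorem opts_add_split (g h x : Pos) (hx : Opt (g + h) x) :
    (∃ y, Opt g y ∧ y + h = x) ∨ (∃ y, Opt h y ∧ g + y = x) := by
  obtain ⟨g1, g2, g3, g4⟩ := g
  obtain ⟨h1, h2, h3, h4⟩ := h
  obtain ⟨x1, x2, x3, x4⟩ := x
  simp only [Opt, Prod.mk.injEq, Prod.mk_add_mk] at hx
  rcases hx with ⟨h0, rfl, rfl, rfl, rfl⟩ | ⟨h0, hx⟩ | ⟨h0, hx⟩ | ⟨h0, hx⟩
  · by_cases hg : 1 ≤ g1
    · refine Or.inl ⟨(g1 - 1, g2, g3, g4), Or.inl ⟨hg, rfl⟩, ?_⟩
      have he : g1 - 1 + h1 = g1 + h1 - 1 := by omega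
      simp only [Prod.mk_add_mk, he]
    · have hg' : 1 ≤ h1 := by omega
      refine Or.inr ⟨(h1 - 1, h2, h3, h4), Or.inl ⟨hg', rfl⟩, ?_⟩
      have he : g1 + (h1 - 1) = g1 + h1 - 1 := by omega
      simp only [Prod.mk_add_mk, he]
  · by_cases hg : 1 ≤ g2
    · rcases hx with hx | hx
      · refine Or.inl ⟨(g1, g2 - 1, g3, g4), Or.inr (Or.inl ⟨hg, Or.inl rfl⟩), ?_⟩
        simp only [Prod.mk_add_mk, Prod.mk.injEq]
        omega
      · refine Or.inl ⟨(g1 + 1, g2 - 1, g3, g4), Or.inr (Or.inl ⟨hg, Or.inr rfl⟩), ?_⟩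
        simp only [Prod.mk_add_mk, Prod.mk.injEq]
        omega
    · have hg' : 1 ≤ h2 := by omega
      rcases hx with hx | hx
      · refine Or.inr ⟨(h1, h2 - 1, h3, h4), Or.inr (Or.inl ⟨hg', Or.inl rfl⟩), ?_⟩
        simp only [Prod.mk_add_mk, Prod.mk.injEq]
        omega
      · refine Or.inr ⟨(h1 + 1, h2 - 1, h3, h4), Or.inr (Or.inl ⟨hg', Or.inr rfl⟩), ?_⟩
        simp only [Prod.mk_add_mk, Prod.mk.injEq]
        omega
  · by_cases hg : 1 ≤ g3
    · rcases hx with hx | hx | hx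
      · refine Or.inl ⟨(g1 + 1, g2, g3 - 1, g4),
          Or.inr (Or.inr (Or.inl ⟨hg, Or.inl rfl⟩)), ?_⟩
        simp only [Prod.mk_add_mk, Prod.mk.injEq]
        omega
      · refine Or.inl ⟨(g1, g2 + 2, g3 - 1, g4),
          Or.inr (Or.inr (Or.inl ⟨hg, Or.inr (Or.inl rfl)⟩)), ?_⟩
        simp only [Prod.mk_add_mk, Prod.mk.injEq]
        omega
      · refine Or.inl ⟨(g1 + 1, g2 + 3, g3 - 1, g4),
          Or.inr (Or.inr (Or.inl ⟨hg, Or.inr (Or.inr rfl)⟩)), ?_⟩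
        simp only [Prod.mk_add_mk, Prod.mk.injEq]
        omega
    · have hg' : 1 ≤ h3 := by omega
      rcases hx with hx | hx | hx
      · refine Or.inr ⟨(h1 + 1, h2, h3 - 1, h4),
          Or.inr (Or.inr (Or.inl ⟨hg', Or.inl rfl⟩)), ?_⟩
        simp only [Prod.mk_add_mk, Prod.mk.injEq]
        omega
      · refine Or.inr ⟨(h1, h2 + 2, h3 - 1, h4),
          Or.inr (Or.inr (Or.inl ⟨hg', Or.inr (Or.inl rfl)⟩)), ?_⟩
        simp only [Prod.mk_add_mk, Prod.mk.injEq]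
        omega
      · refine Or.inr ⟨(h1 + 1, h2 + 3, h3 - 1, h4),
          Or.inr (Or.inr (Or.inl ⟨hg', Or.inr (Or.inr rfl)⟩)), ?_⟩
        simp only [Prod.mk_add_mk, Prod.mk.injEq]
        omega
  · by_cases hg : 1 ≤ g4
    · rcases hx with hx | hx | hx
      · refine Or.inl ⟨(g1, g2, g3 + 1, g4 - 1),
          Or.inr (Or.inr (Or.inr ⟨hg, Or.inl rfl⟩)), ?_⟩
        simp only [Prod.mk_add_mk, Prod.mk.injEq]
        omega
      · refine Or.inl ⟨(g1 + 1, g2, g3 + 1, g4 - 1),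
          Or.inr (Or.inr (Or.inr ⟨hg, Or.inr (Or.inl rfl)⟩)), ?_⟩
        simp only [Prod.mk_add_mk, Prod.mk.injEq]
        omega
      · refine Or.inl ⟨(g1 + 1, g2 + 1, g3, g4 - 1),
          Or.inr (Or.inr (Or.inr ⟨hg, Or.inr (Or.inr rfl)⟩)), ?_⟩
        simp only [Prod.mk_add_mk, Prod.mk.injEq]
        omega
    · have hg' : 1 ≤ h4 := by omega
      rcases hx with hx | hx | hx
      · refine Or.inr ⟨(h1, h2, h3 + 1, h4 - 1),
          Or.inr (Or.inr (Or.inr ⟨hg', Or.inl rfl⟩)), ?_⟩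
        simp only [Prod.mk_add_mk, Prod.mk.injEq]
        omega
      · refine Or.inr ⟨(h1 + 1, h2, h3 + 1, h4 - 1),
          Or.inr (Or.inr (Or.inr ⟨hg', Or.inr (Or.inl rfl)⟩)), ?_⟩
        simp only [Prod.mk_add_mk, Prod.mk.injEq]
        omega
      · refine Or.inr ⟨(h1 + 1, h2 + 1, h3, h4 - 1),
          Or.inr (Or.inr (Or.inr ⟨hg', Or.inr (Or.inr rfl)⟩)), ?_⟩
        simp only [Prod.mk_add_mk, Prod.mk.injEq]
        omega

theorem opts_add (g h : Pos) :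
    opts (g + h) = (fun g' => g' + h) '' opts g ∪ (fun h' => g + h') '' opts h := by
  ext x
  constructor
  · intro hx
    rcases opts_add_split g h x hx with ⟨y, hy, he⟩ | ⟨y, hy, he⟩
    · exact Or.inl ⟨y, hy, he⟩
    · exact Or.inr ⟨y, hy, he⟩
  · rintro (⟨y, hy, rfl⟩ | ⟨y, hy, rfl⟩)
    · exact opts_add_left g h y hy
    · have := opts_add_left h g y hy
      change Opt (g + h) (g + y)
      rw [add_comm g h, add_comm g y]
      exact this

/-- a P-position is not an option of a P-position -/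
theorem no_move (s b f d x1 x2 x3 x4 : ℕ) (hx : Opt (s, b, f, d) (x1, x2, x3, x4))
    (h : PP x1 x2 x3 x4) : ¬ PP s b f d := by
  simp only [Opt, Prod.mk.injEq] at hx
  rcases hx with ⟨h0, rfl, rfl, rfl, rfl⟩ | ⟨h0, hx⟩ | ⟨h0, hx⟩ | ⟨h0, hx⟩
  · rcases Nat.mod_two_eq_zero_or_one s with hs | hs
    · rcases Nat.eq_zero_or_pos x4 with hd | hd
      · subst hd
        rw [po0 _ _ (by omega)] at h
        rw [pe0 _ _ hs]
        simp only [A0, B0] at *; omega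
      · rw [po1 _ _ (by omega) hd] at h
        rw [pe1 _ _ hs hd]
        simp only [A1, B1] at *; omega
    · rcases Nat.eq_zero_or_pos x4 with hd | hd
      · subst hd
        rw [pe0 _ _ (by omega)] at h
        rw [po0 _ _ hs]
        simp only [A0, B0] at *; omega
      · rw [pe1 _ _ (by omega) hd] at h
        rw [po1 _ _ hs hd]
        simp only [A1, B1] at *; omega
  · rcases hx with ⟨rfl, rfl, rfl, rfl⟩ | ⟨rfl, rfl, rfl, rfl⟩
    · rcases Nat.mod_two_eq_zero_or_one x1 with hs | hs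
      · rcases Nat.eq_zero_or_pos x4 with hd | hd
        · subst hd
          rw [pe0 _ _ hs] at h ⊢
          simp only [A0] at *; omega
        · rw [pe1 _ _ hs hd] at h ⊢
          simp only [A1] at *; omega
      · rcases Nat.eq_zero_or_pos x4 with hd | hd
        · subst hd
          rw [po0 _ _ hs] at h ⊢
          simp only [B0] at *; omega
        · rw [po1 _ _ hs hd] at h ⊢
          simp only [B1] at *; omega
    · rcases Nat.mod_two_eq_zero_or_one s with hs | hs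
      · rcases Nat.eq_zero_or_pos x4 with hd | hd
        · subst hd
          rw [po0 _ _ (by omega)] at h
          rw [pe0 _ _ hs]
          simp only [A0, B0] at *; omega
        · rw [po1 _ _ (by omega) hd] at h
          rw [pe1 _ _ hs hd]
          simp only [A1, B1] at *; omega
      · rcases Nat.eq_zero_or_pos x4 with hd | hd
        · subst hd
          rw [pe0 _ _ (by omega)] at h
          rw [po0 _ _ hs]
          simp only [A0, B0] at *; omega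
        · rw [pe1 _ _ (by omega) hd] at h
          rw [po1 _ _ hs hd]
          simp only [A1, B1] at *; omega
  · rcases hx with ⟨rfl, rfl, rfl, rfl⟩ | ⟨rfl, rfl, rfl, rfl⟩ | ⟨rfl, rfl, rfl, rfl⟩
    · rcases Nat.mod_two_eq_zero_or_one s with hs | hs
      · rcases Nat.eq_zero_or_pos x4 with hd | hd
        · subst hd
          rw [po0 _ _ (by omega)] at h
          rw [pe0 _ _ hs]
          simp only [A0, B0] at *; omega
        · rw [po1 _ _ (by omega) hd] at h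
          rw [pe1 _ _ hs hd]
          simp only [A1, B1] at *; omega
      · rcases Nat.eq_zero_or_pos x4 with hd | hd
        · subst hd
          rw [pe0 _ _ (by omega)] at h
          rw [po0 _ _ hs]
          simp only [A0, B0] at *; omega
        · rw [pe1 _ _ (by omega) hd] at h
          rw [po1 _ _ hs hd]
          simp only [A1, B1] at *; omega
    · rcases Nat.mod_two_eq_zero_or_one x1 with hs | hs
      · rcases Nat.eq_zero_or_pos x4 with hd | hd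
        · subst hd
          rw [pe0 _ _ hs] at h ⊢
          simp only [A0] at *; omega
        · rw [pe1 _ _ hs hd] at h ⊢
          simp only [A1] at *; omega
      · rcases Nat.eq_zero_or_pos x4 with hd | hd
        · subst hd
          rw [po0 _ _ hs] at h ⊢
          simp only [B0] at *; omega
        · rw [po1 _ _ hs hd] at h ⊢
          simp only [B1] at *; omega
    · rcases Nat.mod_two_eq_zero_or_one s with hs | hs
      · rcases Nat.eq_zero_or_pos x4 with hd | hd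
        · subst hd
          rw [po0 _ _ (by omega)] at h
          rw [pe0 _ _ hs]
          simp only [A0, B0] at *; omega
        · rw [po1 _ _ (by omega) hd] at h
          rw [pe1 _ _ hs hd]
          simp only [A1, B1] at *; omega
      · rcases Nat.eq_zero_or_pos x4 with hd | hd
        · subst hd
          rw [pe0 _ _ (by omega)] at h
          rw [po0 _ _ hs]
          simp only [A0, B0] at *; omega
        · rw [pe1 _ _ (by omega) hd] at h
          rw [po1 _ _ hs hd]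
          simp only [A1, B1] at *; omega
  · rcases hx with ⟨rfl, rfl, rfl, rfl⟩ | ⟨rfl, rfl, rfl, rfl⟩ | ⟨rfl, rfl, rfl, rfl⟩
    · rcases Nat.mod_two_eq_zero_or_one x1 with hs | hs
      · rw [pe1 _ _ hs h0]
        rcases Nat.eq_zero_or_pos (d - 1) with hd | hd
        · rw [hd, pe0 _ _ hs] at h
          simp only [A0, A1] at *; omega
        · rw [pe1 _ _ hs hd] at h
          simp only [A1] at *; omega
      · rw [po1 _ _ hs h0]
        rcases Nat.eq_zero_or_pos (d - 1) with hd | hd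
        · rw [hd, po0 _ _ hs] at h
          simp only [B0, B1] at *; omega
        · rw [po1 _ _ hs hd] at h
          simp only [B1] at *; omega
    · rcases Nat.mod_two_eq_zero_or_one s with hs | hs
      · rw [pe1 _ _ hs h0]
        rcases Nat.eq_zero_or_pos (d - 1) with hd | hd
        · rw [hd, po0 _ _ (by omega)] at h
          simp only [B0, A1] at *; omega
        · rw [po1 _ _ (by omega) hd] at h
          simp only [B1, A1] at *; omega
      · rw [po1 _ _ hs h0]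
        rcases Nat.eq_zero_or_pos (d - 1) with hd | hd
        · rw [hd, pe0 _ _ (by omega)] at h
          simp only [A0, B1] at *; omega
        · rw [pe1 _ _ (by omega) hd] at h
          simp only [A1, B1] at *; omega
    · rcases Nat.mod_two_eq_zero_or_one s with hs | hs
      · rw [pe1 _ _ hs h0]
        rcases Nat.eq_zero_or_pos (d - 1) with hd | hd
        · rw [hd, po0 _ _ (by omega)] at h
          simp only [B0, A1] at *; omega
        · rw [po1 _ _ (by omega) hd] at h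
          simp only [B1, A1] at *; omega
      · rw [po1 _ _ hs h0]
        rcases Nat.eq_zero_or_pos (d - 1) with hd | hd
        · rw [hd, pe0 _ _ (by omega)] at h
          simp only [A0, B1] at *; omega
        · rw [pe1 _ _ (by omega) hd] at h
          simp only [A1, B1] at *; omega

/-- a nonzero position that is not a P-position has a P-position as an option -/
theorem has_move (s b f d : ℕ) (h0 : ¬ (s = 0 ∧ b = 0 ∧ f = 0 ∧ d = 0)) (h : ¬ PP s b f d) :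
    ∃ x1 x2 x3 x4, Opt (s, b, f, d) (x1, x2, x3, x4) ∧ PP x1 x2 x3 x4 := by
  have k1 : 1 ≤ s → Opt (s, b, f, d) (s - 1, b, f, d) := fun hs => Or.inl ⟨hs, rfl⟩
  have k2 : 1 ≤ b → Opt (s, b, f, d) (s, b - 1, f, d) :=
    fun hs => Or.inr (Or.inl ⟨hs, Or.inl rfl⟩)
  have k3 : 1 ≤ b → Opt (s, b, f, d) (s + 1, b - 1, f, d) :=
    fun hs => Or.inr (Or.inl ⟨hs, Or.inr rfl⟩)
  have k4 : 1 ≤ f → Opt (s, b, f, d) (s + 1, b, f - 1, d) :=
    fun hs => Or.inr (Or.inr (Or.inl ⟨hs, Or.inl rfl⟩))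
  have k5 : 1 ≤ f → Opt (s, b, f, d) (s, b + 2, f - 1, d) :=
    fun hs => Or.inr (Or.inr (Or.inl ⟨hs, Or.inr (Or.inl rfl)⟩))
  have k6 : 1 ≤ f → Opt (s, b, f, d) (s + 1, b + 3, f - 1, d) :=
    fun hs => Or.inr (Or.inr (Or.inl ⟨hs, Or.inr (Or.inr rfl)⟩))
  have k7 : 1 ≤ d → Opt (s, b, f, d) (s, b, f + 1, d - 1) :=
    fun hs => Or.inr (Or.inr (Or.inr ⟨hs, Or.inl rfl⟩))
  have k8 : 1 ≤ d → Opt (s, b, f, d) (s + 1, b, f + 1, d - 1) :=
    fun hs => Or.inr (Or.inr (Or.inr ⟨hs, Or.inr (Or.inl rfl)⟩))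
  have k9 : 1 ≤ d → Opt (s, b, f, d) (s + 1, b + 1, f, d - 1) :=
    fun hs => Or.inr (Or.inr (Or.inr ⟨hs, Or.inr (Or.inr rfl)⟩))
  rcases Nat.mod_two_eq_zero_or_one s with hs | hs
  · have hs1 : (s + 1) % 2 = 1 := by omega
    rcases Nat.eq_zero_or_pos d with hd | hd
    · subst hd
      rw [pe0 _ _ hs] at h
      by_cases hbf : 1 ≤ b + f
      · rcases LA0 b f h hbf with ⟨hb, hh | hh⟩ | ⟨hf, hh | hh | hh⟩
        · exact ⟨_, _, _, _, k2 hb, (pe0 _ _ hs).2 hh⟩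
        · exact ⟨_, _, _, _, k3 hb, (po0 _ _ hs1).2 hh⟩
        · exact ⟨_, _, _, _, k4 hf, (po0 _ _ hs1).2 hh⟩
        · exact ⟨_, _, _, _, k5 hf, (pe0 _ _ hs).2 hh⟩
        · exact ⟨_, _, _, _, k6 hf, (po0 _ _ hs1).2 hh⟩
      · have hb : b = 0 := by omega
        have hf : f = 0 := by omega
        subst hb
        subst hf
        have hs0 : 1 ≤ s := by omega
        exact ⟨_, _, _, _, k1 hs0, (po0 _ _ (by omega)).2 (Or.inr ⟨rfl, rfl⟩)⟩
    · rw [pe1 _ _ hs hd] at h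
      rcases Nat.eq_zero_or_pos (d - 1) with hd1 | hd1
      · rcases LA1 b f h A0 B0 (Or.inr (Or.inl rfl)) (Or.inl rfl)
          (Or.inl ⟨by norm_num, by norm_num⟩) (Or.inl ⟨by norm_num, by norm_num⟩) with
          ⟨hb, hh | hh⟩ | ⟨hf, hh | hh | hh⟩ | hh | hh | hh
        · exact ⟨_, _, _, _, k2 hb, (pe1 _ _ hs hd).2 hh⟩
        · exact ⟨_, _, _, _, k3 hb, (po1 _ _ hs1 hd).2 hh⟩
        · exact ⟨_, _, _, _, k4 hf, (po1 _ _ hs1 hd).2 hh⟩
        · exact ⟨_, _, _, _, k5 hf, (pe1 _ _ hs hd).2 hh⟩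
        · exact ⟨_, _, _, _, k6 hf, (po1 _ _ hs1 hd).2 hh⟩
        · exact ⟨_, _, _, _, k7 hd, by rw [hd1]; exact (pe0 _ _ hs).2 hh⟩
        · exact ⟨_, _, _, _, k8 hd, by rw [hd1]; exact (po0 _ _ hs1).2 hh⟩
        · exact ⟨_, _, _, _, k9 hd, by rw [hd1]; exact (po0 _ _ hs1).2 hh⟩
      · rcases LA1 b f h A1 B1 (Or.inl (Or.inr (Or.inl ⟨rfl, rfl⟩))) ⟨rfl, le_rfl⟩
          (Or.inl ⟨by norm_num, by norm_num, by norm_num⟩)
          (Or.inl ⟨by norm_num, by norm_num, by norm_num⟩) with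
          ⟨hb, hh | hh⟩ | ⟨hf, hh | hh | hh⟩ | hh | hh | hh
        · exact ⟨_, _, _, _, k2 hb, (pe1 _ _ hs hd).2 hh⟩
        · exact ⟨_, _, _, _, k3 hb, (po1 _ _ hs1 hd).2 hh⟩
        · exact ⟨_, _, _, _, k4 hf, (po1 _ _ hs1 hd).2 hh⟩
        · exact ⟨_, _, _, _, k5 hf, (pe1 _ _ hs hd).2 hh⟩
        · exact ⟨_, _, _, _, k6 hf, (po1 _ _ hs1 hd).2 hh⟩
        · exact ⟨_, _, _, _, k7 hd, (pe1 _ _ hs hd1).2 hh⟩
        · exact ⟨_, _, _, _, k8 hd, (po1 _ _ hs1 hd1).2 hh⟩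
        · exact ⟨_, _, _, _, k9 hd, (po1 _ _ hs1 hd1).2 hh⟩
  · have hs1 : (s + 1) % 2 = 0 := by omega
    have hs2 : (s - 1) % 2 = 0 := by omega
    have hs0 : 1 ≤ s := by omega
    rcases Nat.eq_zero_or_pos d with hd | hd
    · subst hd
      rw [po0 _ _ hs] at h
      rcases LB0 b f h with hh | ⟨hb, hh | hh⟩ | ⟨hf, hh | hh | hh⟩
      · exact ⟨_, _, _, _, k1 hs0, (pe0 _ _ hs2).2 hh⟩
      · exact ⟨_, _, _, _, k2 hb, (po0 _ _ hs).2 hh⟩
      · exact ⟨_, _, _, _, k3 hb, (pe0 _ _ hs1).2 hh⟩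
      · exact ⟨_, _, _, _, k4 hf, (pe0 _ _ hs1).2 hh⟩
      · exact ⟨_, _, _, _, k5 hf, (po0 _ _ hs).2 hh⟩
      · exact ⟨_, _, _, _, k6 hf, (pe0 _ _ hs1).2 hh⟩
    · rw [po1 _ _ hs hd] at h
      rcases Nat.eq_zero_or_pos (d - 1) with hd1 | hd1
      · rcases LB1 b f h A0 B0 (Or.inl (Or.inl rfl))
          (Or.inl ⟨by norm_num, by norm_num⟩) (Or.inl ⟨by norm_num, by norm_num⟩) with
          hh | ⟨hb, hh | hh⟩ | ⟨hf, hh | hh | hh⟩ | hh | hh | hh
        · exact ⟨_, _, _, _, k1 hs0, (pe1 _ _ hs2 hd).2 hh⟩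
        · exact ⟨_, _, _, _, k2 hb, (po1 _ _ hs hd).2 hh⟩
        · exact ⟨_, _, _, _, k3 hb, (pe1 _ _ hs1 hd).2 hh⟩
        · exact ⟨_, _, _, _, k4 hf, (pe1 _ _ hs1 hd).2 hh⟩
        · exact ⟨_, _, _, _, k5 hf, (po1 _ _ hs hd).2 hh⟩
        · exact ⟨_, _, _, _, k6 hf, (pe1 _ _ hs1 hd).2 hh⟩
        · exact ⟨_, _, _, _, k7 hd, by rw [hd1]; exact (po0 _ _ hs).2 hh⟩
        · exact ⟨_, _, _, _, k8 hd, by rw [hd1]; exact (pe0 _ _ hs1).2 hh⟩
        · exact ⟨_, _, _, _, k9 hd, by rw [hd1]; exact (pe0 _ _ hs1).2 hh⟩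
      · rcases LB1 b f h A1 B1 (Or.inr (Or.inr (Or.inl ⟨rfl, rfl⟩)))
          (Or.inl ⟨by norm_num, by norm_num, by norm_num⟩)
          (Or.inl ⟨by norm_num, by norm_num, by norm_num⟩) with
          hh | ⟨hb, hh | hh⟩ | ⟨hf, hh | hh | hh⟩ | hh | hh | hh
        · exact ⟨_, _, _, _, k1 hs0, (pe1 _ _ hs2 hd).2 hh⟩
        · exact ⟨_, _, _, _, k2 hb, (po1 _ _ hs hd).2 hh⟩
        · exact ⟨_, _, _, _, k3 hb, (pe1 _ _ hs1 hd).2 hh⟩
        · exact ⟨_, _, _, _, k4 hf, (pe1 _ _ hs1 hd).2 hh⟩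
        · exact ⟨_, _, _, _, k5 hf, (po1 _ _ hs hd).2 hh⟩
        · exact ⟨_, _, _, _, k6 hf, (pe1 _ _ hs1 hd).2 hh⟩
        · exact ⟨_, _, _, _, k7 hd, (po1 _ _ hs hd1).2 hh⟩
        · exact ⟨_, _, _, _, k8 hd, (pe1 _ _ hs1 hd1).2 hh⟩
        · exact ⟨_, _, _, _, k9 hd, (pe1 _ _ hs1 hd1).2 hh⟩

theorem NN_iff (g : Pos) : NN g ↔ (opts g = ∅ ∨ ∃ g' ∈ opts g, ¬ NN g') := by
  obtain ⟨s, b, f, d⟩ := g
  constructor
  · intro h
    by_cases h0 : s = 0 ∧ b = 0 ∧ f = 0 ∧ d = 0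
    · left
      obtain ⟨rfl, rfl, rfl, rfl⟩ := h0
      rw [Set.eq_empty_iff_forall_notMem]
      rintro x hx
      have hx' : Opt (0, 0, 0, 0) x := hx
      simp only [Opt] at hx'
      omega
    · right
      obtain ⟨x1, x2, x3, x4, hx, hp⟩ := has_move s b f d h0 h
      exact ⟨(x1, x2, x3, x4), hx, fun hn => hn hp⟩
  · rintro (h | ⟨⟨x1, x2, x3, x4⟩, hx, hn⟩)
    · by_contra hp
      have hp' : PP s b f d := by
        by_contra hq
        exact hp hq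
      have hne : ¬ (s = 0 ∧ b = 0 ∧ f = 0 ∧ d = 0) := by
        rintro ⟨rfl, rfl, rfl, rfl⟩
        rw [pe0 _ _ rfl] at hp'
        simp only [A0] at hp'
        omega
      have : ∃ x, x ∈ opts (s, b, f, d) := by
        rcases Nat.eq_zero_or_pos s with h1 | h1
        · rcases Nat.eq_zero_or_pos b with h2 | h2
          · rcases Nat.eq_zero_or_pos f with h3 | h3
            · rcases Nat.eq_zero_or_pos d with h4 | h4
              · exact absurd ⟨h1, h2, h3, h4⟩ hne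
              · exact ⟨_, Or.inr (Or.inr (Or.inr ⟨h4, Or.inl rfl⟩))⟩
            · exact ⟨_, Or.inr (Or.inr (Or.inl ⟨h3, Or.inl rfl⟩))⟩
          · exact ⟨_, Or.inr (Or.inl ⟨h2, Or.inl rfl⟩)⟩
        · exact ⟨_, Or.inl ⟨h1, rfl⟩⟩
      obtain ⟨x, hx⟩ := this
      rw [h] at hx
      exact hx
    · have hp : PP x1 x2 x3 x4 := by
        by_contra hq
        exact hn hq
      exact no_move s b f d x1 x2 x3 x4 hx hp

/-- The negation of the preceding statement: For any set of finite impartial games closed under sum and options with a game having a move, every maximal subgroup of its misère quotient contains the class of a misère P-position. -/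
theorem result :
    ¬ (∀ (α : Type) (opts : α → Set α) (add : α → α → α) (N : α → Prop),
      (∀ g, (opts g).Finite) →
      WellFounded (fun a b : α => a ∈ opts b) →
      (∀ g h, opts (add g h) = (fun g' => add g' h) '' opts g ∪ (fun h' => add g h') '' opts h) →
      (∀ g, N g ↔ (opts g = ∅ ∨ ∃ g' ∈ opts g, ¬ N g')) →
      (∃ g, (opts g).Nonempty) →
      ∀ E : α, (∀ Z, N (add (add E E) Z) ↔ N (add E Z)) →
        ∃ X : α, (∀ Z, N (add (add X E) Z) ↔ N (add X Z)) ∧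
          (∃ Y : α, ∀ Z, N (add (add X Y) Z) ↔ N (add E Z)) ∧ ¬ N X) := by
  intro H
  have hE : ∀ Z : Pos, NN (((0, 0, 0, 1) : Pos) + (0, 0, 0, 1) + Z) ↔ NN ((0, 0, 0, 1) + Z) := by
    rintro ⟨z1, z2, z3, z4⟩
    simp only [NN, Prod.mk_add_mk]
    rcases Nat.mod_two_eq_zero_or_one (0 + 0 + z1) with hs | hs
    · rw [pe1 _ _ hs (by omega), pe1 _ _ (by omega) (by omega)]
    · rw [po1 _ _ hs (by omega), po1 _ _ (by omega) (by omega)]
  obtain ⟨⟨s, b, f, d⟩, hX, ⟨⟨s', b', f', d'⟩, hY⟩, hN⟩ :=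
    H Pos opts (fun g h => g + h) NN opts_finite opts_wf opts_add NN_iff
      ⟨(1, 0, 0, 0), (0, 0, 0, 0), Or.inl ⟨le_rfl, rfl⟩⟩ (0, 0, 0, 1) hE
  have ht : ∀ z1 z2 z3 : ℕ, PP (s + s' + z1) (b + b' + z2) (f + f' + z3) (d + d' + 1) ↔
      PP (0 + z1) (0 + z2) (0 + z3) (1 + 1) := by
    intro z1 z2 z3
    have := hY (z1, z2, z3, 1)
    simp only [NN, Prod.mk_add_mk] at this
    exact not_iff_not.mp this
  have h0 : b + b' = 0 ∧ f + f' = 0 := by
    rcases Nat.mod_two_eq_zero_or_one (s + s') with hs | hs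
    · have t1 := ht 1 1 2
      rw [po1 _ _ (by omega) (by omega), po1 _ _ (by omega) (by omega)] at t1
      have t2 := ht 0 0 1
      rw [pe1 _ _ (by omega) (by omega), pe1 _ _ (by omega) (by omega)] at t2
      have t3 := t1.2 ⟨rfl, le_rfl⟩
      have t4 := t2.2 (Or.inr (Or.inl ⟨rfl, rfl⟩))
      simp only [B1] at t3
      simp only [A1] at t4
      omega
    · have t1 := ht 0 1 5
      rw [po1 _ _ (by omega) (by omega), pe1 _ _ (by omega) (by omega)] at t1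
      have t2 := ht 0 1 7
      rw [po1 _ _ (by omega) (by omega), pe1 _ _ (by omega) (by omega)] at t2
      have t3 := t1.2 (Or.inl ⟨rfl, Or.inr (by norm_num), by norm_num⟩)
      have t4 := t2.2 (Or.inl ⟨rfl, Or.inr (by norm_num), by norm_num⟩)
      simp only [B1] at t3 t4
      omega
  obtain ⟨hb, hf⟩ := h0
  obtain ⟨rfl, rfl⟩ : b = 0 ∧ b' = 0 := by omega
  obtain ⟨rfl, rfl⟩ : f = 0 ∧ f' = 0 := by omega
  have hN' : PP s 0 0 d := by
    by_contra hq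
    exact hN hq
  rcases Nat.eq_zero_or_pos d with hd | hd
  · subst hd
    have hx1 := hX (0, 0, 0, 0)
    simp only [NN, Prod.mk_add_mk] at hx1
    rcases Nat.mod_two_eq_zero_or_one s with hs | hs
    · rw [pe0 _ _ hs] at hN'
      simp only [A0] at hN'
      omega
    · rw [po1 _ _ (by omega) (by omega), po0 _ _ (by omega)] at hx1
      exact hx1.1 (by simp [B1]) (Or.inr ⟨by simp, by simp⟩)
  · rcases Nat.mod_two_eq_zero_or_one s with hs | hs
    · rw [pe1 _ _ hs hd] at hN'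
      simp only [A1] at hN'
      omega
    · rw [po1 _ _ hs hd] at hN'
      simp only [B1] at hN'
      omega

end Pool.Agent.S07514
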