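import Pool.Statements.S07518

set_option autoImplicit false
universe u
open Pool Pool.MP_1df3f9_co

namespace Pool.Agent.S07518

open Cardinal Ordinal

/-! ### The index poset: levels are copies of `ℕ × ℕ`, stacked downwards -/

@[ext]
structure Q where
  x : ℕ
  y : ℕ
  n : ℕ

instance : LE Q where
  le p q := q.n + 2 ≤ p.n ∨ (p.n = q.n ∧ p.x ≤ q.x ∧ p.y ≤ q.y) ∨
    (p.n = q.n + 1 ∧ min p.x p.y < min q.x q.y)

theorem Q.le_def (p q : Q) : p ≤ q ↔ q.n + 2 ≤ p.n ∨ (p.n = q.n ∧ p.x ≤ q.x ∧ p.y ≤ q.y) ∨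
    (p.n = q.n + 1 ∧ min p.x p.y < min q.x q.y) := Iff.rfl

instance : PartialOrder Q where
  le_refl p := by
    rw [Q.le_def]
    omega
  le_trans p q r h1 h2 := by
    rw [Q.le_def] at *
    omega
  le_antisymm p q h1 h2 := by
    rw [Q.le_def] at *
    have : p.x = q.x ∧ p.y = q.y ∧ p.n = q.n := by omega
    exact Q.ext this.1 this.2.1 this.2.2

/-- the distance to the diagonal -/
def Q.d (q : Q) : ℕ := (q.x - q.y) + (q.y - q.x)

theorem antichain_Q (A : Set Q) (hA : IsAntichain (· ≤ ·) A) : A.Finite := by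
  have hlev : ∀ m : ℕ, {a ∈ A | a.n = m}.Finite := by
    intro m
    have hinj : Set.InjOn (fun a : Q => (a.x, a.y)) {a ∈ A | a.n = m} := by
      intro a ha b hb hab
      simp only [Prod.mk.injEq] at hab
      exact Q.ext hab.1 hab.2 (ha.2.trans hb.2.symm)
    refine Set.Finite.of_finite_image ?_ hinj
    refine IsAntichain.finite_of_partiallyWellOrderedOn (r := (· ≤ ·)) ?_
      (Set.isPWO_of_wellQuasiOrderedLE _)
    rintro _ ⟨a, ha, rfl⟩ _ ⟨b, hb, rfl⟩ hne hle
    have hab : a ≠ b := by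
      rintro rfl
      exact hne rfl
    refine hA ha.1 hb.1 hab ?_
    change a ≤ b
    rw [Q.le_def]
    have h1 := (Prod.mk_le_mk.1 hle).1
    have h2 := (Prod.mk_le_mk.1 hle).2
    exact Or.inr (Or.inl ⟨ha.2.trans hb.2.symm, h1, h2⟩)
  rcases A.eq_empty_or_nonempty with h | ⟨a0, h0⟩
  · rw [h]
    exact Set.finite_empty
  · refine Set.Finite.subset (((hlev (a0.n - 1)).union (hlev a0.n)).union (hlev (a0.n + 1))) ?_
    intro a ha
    by_cases haa : a = a0
    · subst haa
      exact Or.inl (Or.inr ⟨ha, rfl⟩)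
    · have h1 : ¬ a ≤ a0 := hA ha h0 haa
      have h2 : ¬ a0 ≤ a := hA h0 ha (Ne.symm haa)
      rw [Q.le_def] at h1 h2
      have h3 : a.n = a0.n - 1 ∨ a.n = a0.n ∨ a.n = a0.n + 1 := by omega
      rcases h3 with h | h | h
      · exact Or.inl (Or.inl ⟨ha, h⟩)
      · exact Or.inl (Or.inr ⟨ha, h⟩)
      · exact Or.inr ⟨ha, h⟩

/-! ### The combinatorial core -/

/-- A chain `T` in the quadrant `x, y ≥ b`, such that each point of the quadrant outside of `T` is
incomparable with a point of `T` at least as far from the diagonal, lies in a row or a column. -/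
theorem core (b : ℕ) (T : Set (ℕ × ℕ)) (hT : IsChain (· ≤ ·) T)
    (hsub : ∀ p ∈ T, b ≤ p.1 ∧ b ≤ p.2)
    (hker : ∀ x y : ℕ, b ≤ x → b ≤ y → (x, y) ∉ T →
      ∃ p ∈ T, ¬ (x, y) ≤ p ∧ ¬ p ≤ (x, y) ∧ (x - y) + (y - x) ≤ (p.1 - p.2) + (p.2 - p.1)) :
    T.Nonempty ∧ ∀ p ∈ T, min p.1 p.2 = b := by
  have hcmp : ∀ p ∈ T, ∀ q ∈ T, (p.1 ≤ q.1 ∧ p.2 ≤ q.2) ∨ (q.1 ≤ p.1 ∧ q.2 ≤ p.2) := by
    intro p hp q hq
    rcases hT.total hp hq with h | h
    · exact Or.inl h
    · exact Or.inr h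
  have hinf : (∀ x0, ∃ x, x0 ≤ x ∧ (x, b) ∈ T) ∨ (∀ y0, ∃ y, y0 ≤ y ∧ (b, y) ∈ T) := by
    by_contra hcon
    push Not at hcon
    obtain ⟨⟨x0, hx0⟩, ⟨y0, hy0⟩⟩ := hcon
    set x := max (max x0 y0) (b + 1) with hx
    obtain ⟨⟨u, v⟩, huv, h1, h2, h3⟩ := hker x b (by omega) le_rfl (hx0 x (by omega))
    have hb := hsub _ huv
    simp only [Prod.mk_le_mk, not_and, not_le] at h1 h2 h3 hb
    have hu : u < x := by
      by_contra hc
      have := h1 (by omega)
      omega
    have hv : b < v := h2 (by omega)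
    have hvx : x ≤ v := by omega
    obtain ⟨⟨u', v'⟩, huv', h1', h2', h3'⟩ := hker b v le_rfl (by omega) (hy0 v (by omega))
    have hb' := hsub _ huv'
    simp only [Prod.mk_le_mk, not_and, not_le] at h1' h2' h3' hb'
    have hv' : v' < v := h1' (by omega)
    have hu' : b < u' := by
      by_contra hc
      have := h2' (by omega)
      omega
    rcases hcmp _ huv _ huv' with h | h
    · simp only at h
      omega
    · simp only at h
      omega
  rcases hinf with h | h
  · refine ⟨?_, ?_⟩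
    · obtain ⟨x, _, hx⟩ := h 0
      exact ⟨_, hx⟩
    · intro p hp
      obtain ⟨x, hx1, hx2⟩ := h (p.1 + 1)
      have hb := hsub _ hp
      rcases hcmp _ hp _ hx2 with h' | h'
      · simp only at h'
        omega
      · simp only at h'
        omega
  · refine ⟨?_, ?_⟩
    · obtain ⟨y, _, hy⟩ := h 0
      exact ⟨_, hy⟩
    · intro p hp
      obtain ⟨y, hy1, hy2⟩ := h (p.2 + 1)
      have hb := hsub _ hp
      rcases hcmp _ hp _ hy2 with h' | h'
      · simp only at h'
        omega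
      · simp only at h'
        omega

/-- No chain of `Q` dominates all the other points. -/
theorem no_kernel (S : Set Q) (hS : IsChain (· ≤ ·) S)
    (hker : ∀ q : Q, q ∉ S → ∃ p ∈ S, ¬ q ≤ p ∧ ¬ p ≤ q ∧
      (q.n < p.n ∨ (q.n = p.n ∧ q.d ≤ p.d))) : False := by
  -- the trace on each level
  let T : ℕ → Set (ℕ × ℕ) := fun n => {p | (⟨p.1, p.2, n⟩ : Q) ∈ S}
  let M : ℕ → Set ℕ := fun n => {b | ∀ p ∈ T (n + 1), min p.1 p.2 < b}
  have hcomp : ∀ p ∈ S, ∀ q ∈ S, p ≤ q ∨ q ≤ p := fun p hp q hq => hS.total hp hq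
  have hTM : ∀ n, ∀ p ∈ T n, min p.1 p.2 ∈ M n := by
    intro n p hp q hq
    have h := hcomp _ hp _ hq
    rw [Q.le_def, Q.le_def] at h
    simp only at h
    omega
  have hup : ∀ n a b, a ∈ M n → a ≤ b → b ∈ M n := by
    intro n a b ha hab p hp
    exact (ha p hp).trans_le hab
  -- the core lemma on each level
  have hcore : ∀ n b, b ∈ M n → (∀ c ∈ M n, b ≤ c) →
      (T n).Nonempty ∧ ∀ p ∈ T n, min p.1 p.2 = b := by
    intro n b hb hmin
    apply core b (T n)
    · intro p hp q hq _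
      have h := hcomp _ hp _ hq
      rw [Q.le_def, Q.le_def] at h
      simp only at h
      change p ≤ q ∨ q ≤ p
      rw [Prod.le_def, Prod.le_def]
      omega
    · intro p hp
      have := hmin _ (hTM n p hp)
      omega
    · intro x y hx hy hxy
      obtain ⟨p, hpS, h1, h2, h3⟩ := hker ⟨x, y, n⟩ hxy
      rw [Q.le_def] at h1 h2
      simp only at h1 h2 h3
      have hn : p.n = n := by
        rcases h3 with h3 | h3
        · exfalso
          have h4 : p.n = n + 1 := by omega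
          have h5 : (p.x, p.y) ∈ T (n + 1) := by
            change (⟨p.x, p.y, n + 1⟩ : Q) ∈ S
            rw [← h4]
            exact hpS
          have h6 := hb _ h5
          simp only at h6
          omega
        · exact h3.1.symm
      refine ⟨(p.x, p.y), ?_, ?_, ?_, ?_⟩
      · change (⟨p.x, p.y, n⟩ : Q) ∈ S
        rw [← hn]
        exact hpS
      · rw [Prod.mk_le_mk]
        omega
      · rw [Prod.mk_le_mk]
        omega
      · rcases h3 with h3 | h3
        · omega
        · exact h3.2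
  have hMne : ∀ n, (M n).Nonempty := by
    intro n
    by_contra hcon
    have hemp : ∀ b, b ∉ M n := by
      intro b hb
      exact hcon ⟨b, hb⟩
    have hne : (T (n + 1)).Nonempty := by
      by_contra hT
      apply hemp 0
      intro p hp
      exact absurd ⟨p, hp⟩ hT
    obtain ⟨p, hp⟩ := hne
    have hp2 := hTM _ _ hp
    have hex : ∃ b, b ∈ M (n + 1) := ⟨_, hp2⟩
    classical
    have h := hcore (n + 1) (Nat.find hex) (Nat.find_spec hex) (fun c hc => Nat.find_min' hex hc)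
    apply hemp (Nat.find hex + 1)
    intro p hp
    have := h.2 p hp
    omega
  classical
  let β : ℕ → ℕ := fun n => Nat.find (hMne n)
  have hβ : ∀ n, (T n).Nonempty ∧ ∀ p ∈ T n, min p.1 p.2 = β n := fun n =>
    hcore n (β n) (Nat.find_spec (hMne n)) (fun c hc => Nat.find_min' (hMne n) hc)
  have hstep : ∀ n, β (n + 1) < β n := by
    intro n
    obtain ⟨⟨p, hp⟩, h⟩ := hβ (n + 1)
    have h1 := h p hp
    have h2 : β n ∈ M n := Nat.find_spec (hMne n)
    have h3 := h2 p hp
    omega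
  have hall : ∀ n, β n + n ≤ β 0 := by
    intro n
    induction n with
    | zero => omega
    | succ n ih =>
      have := hstep n
      omega
  have := hall (β 0 + 1)
  omega

/-! ### The cardinal weights -/

noncomputable section

/-- the rank of a point -/
def rk (q : Q) : Ordinal.{u} := ω * (q.n : Ordinal.{u}) + (q.d : Ordinal.{u})

theorem rk_lt_succ (q : Q) : rk.{u} q < ω * ((q.n : Ordinal.{u}) + 1) := by
  unfold rk
  rw [mul_add, mul_one]
  exact (add_lt_add_iff_left _).2 (Ordinal.natCast_lt_omega0 _)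

theorem rk_lt_of_level {p q : Q} (h : p.n < q.n) : rk.{u} p < rk.{u} q := by
  refine (rk_lt_succ p).trans_le ?_
  unfold rk
  refine le_trans ?_ (le_add_of_nonneg_right zero_le)
  refine mul_le_mul_right ?_ _
  have h2 : p.n + 1 ≤ q.n := h
  exact_mod_cast h2

theorem rk_lt_of_d {p q : Q} (h : p.n = q.n) (h2 : p.d < q.d) : rk.{u} p < rk.{u} q := by
  unfold rk
  rw [h]
  refine (add_lt_add_iff_left _).2 ?_
  exact_mod_cast h2

theorem rk_lt_omega_sq (q : Q) : rk.{u} q + 1 < (ω : Ordinal.{u}) * ω := by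
  have h1 : rk.{u} q + 1 < ω * ((q.n : Ordinal.{u}) + 1) := by
    unfold rk
    rw [mul_add, mul_one, add_assoc]
    refine (add_lt_add_iff_left _).2 ?_
    have : ((q.d : Ordinal.{u}) + 1) = ((q.d + 1 : ℕ) : Ordinal.{u}) := by push_cast; rfl
    rw [this]
    exact Ordinal.natCast_lt_omega0 _
  refine h1.trans_le ?_
  refine mul_le_mul_right ?_ _
  have : ((q.n : Ordinal.{u}) + 1) = ((q.n + 1 : ℕ) : Ordinal.{u}) := by push_cast; rfl
  rw [this]
  exact (Ordinal.natCast_lt_omega0 _).le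

/-- the cardinality of the block of `q` -/
def wt (q : Q) : Cardinal.{u} := ℵ_ (rk q + 1)

/-- the ambient well order -/
abbrev W : Type u := (ℵ_ (ω * ω) : Cardinal.{u}).ord.ToType

theorem exists_block (q : Q) : ∃ I : Set W.{u}, #I = wt q := by
  apply Cardinal.le_mk_iff_exists_set.1
  rw [Cardinal.mk_ord_toType]
  exact (Cardinal.aleph_le_aleph.2 (rk_lt_omega_sq q).le)

def I (q : Q) : Set W.{u} := (exists_block q).choose

theorem mk_I (q : Q) : #(I.{u} q) = wt q := (exists_block q).choose_spec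

/-- the poset -/
@[ext]
structure P : Type u where
  q : Q
  z : W.{u}
  hz : z ∈ I q

instance : LE P.{u} where
  le a b := a.q < b.q ∨ (a.q = b.q ∧ a.z ≤ b.z)

theorem P.le_def (a b : P.{u}) : a ≤ b ↔ a.q < b.q ∨ (a.q = b.q ∧ a.z ≤ b.z) := Iff.rfl

instance : PartialOrder P.{u} where
  le_refl a := Or.inr ⟨rfl, le_rfl⟩
  le_trans a b c h1 h2 := by
    rw [P.le_def] at *
    rcases h1 with h1 | h1 <;> rcases h2 with h2 | h2
    · exact Or.inl (h1.trans h2)
    · exact Or.inl (h2.1 ▸ h1)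
    · exact Or.inl (h1.1 ▸ h2)
    · exact Or.inr ⟨h1.1.trans h2.1, h1.2.trans h2.2⟩
  le_antisymm a b h1 h2 := by
    rw [P.le_def] at *
    rcases h1 with h1 | h1
    · rcases h2 with h2 | h2
      · exact absurd h1 (not_lt_of_gt h2)
      · exact absurd h1 (by rw [h2.1]; exact lt_irrefl _)
    · rcases h2 with h2 | h2
      · exact absurd h2 (by rw [h1.1]; exact lt_irrefl _)
      · exact P.ext h1.1 (le_antisymm h1.2 h2.2)

theorem antichain_P (A : Set P.{u}) (hA : IsAntichain (· ≤ ·) A) : A.Finite := by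
  have hinj : Set.InjOn (fun a : P.{u} => a.q) A := by
    intro a ha b hb hab
    simp only at hab
    by_contra hne
    rcases le_total a.z b.z with h | h
    · exact hA ha hb hne (Or.inr ⟨hab, h⟩)
    · exact hA hb ha (Ne.symm hne) (Or.inr ⟨hab.symm, h⟩)
  refine Set.Finite.of_finite_image (antichain_Q _ ?_) hinj
  rintro _ ⟨a, ha, rfl⟩ _ ⟨b, hb, rfl⟩ hne hle
  have hab : a ≠ b := by
    rintro rfl
    exact hne rfl
  exact hA ha hb hab (Or.inl (lt_of_le_of_ne hle hne))

/-- The block of `q` in `P`. -/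
def Bl (q : Q) : Set P.{u} := {a | a.q = q}

theorem mk_Bl (q : Q) : #(Bl.{u} q) = wt q := by
  rw [← mk_I q]
  refine Cardinal.mk_congr ⟨fun a => ⟨a.1.z, ?_⟩, fun z => ⟨⟨q, z.1, z.2⟩, rfl⟩, ?_, ?_⟩
  · have h1 : a.1.q = q := a.2
    have h2 := a.1.hz
    rwa [h1] at h2
  · rintro ⟨⟨q', z, hz⟩, h⟩
    have h' : q' = q := h
    subst h'
    rfl
  · rintro ⟨z, hz⟩
    rfl

theorem no_strongly_maximal (C : Set P.{u}) (hC : IsChain (· ≤ ·) C)
    (hmax : ∀ D : Set P.{u}, IsChain (· ≤ ·) D → #↥(D \ C) ≤ #↥(C \ D)) : False := by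
  let S : Set Q := {q | ∃ a ∈ C, a.q = q}
  have hSchain : IsChain (· ≤ ·) S := by
    rintro _ ⟨a, ha, rfl⟩ _ ⟨b, hb, rfl⟩ hne
    rcases hC.total ha hb with h | h
    · rcases (P.le_def a b).1 h with h | h
      · exact Or.inl h.le
      · exact Or.inl h.1.le
    · rcases (P.le_def b a).1 h with h | h
      · exact Or.inr h.le
      · exact Or.inr h.1.le
  refine no_kernel S hSchain ?_
  intro q hq
  by_contra hcon
  push Not at hcon
  -- the improved chain
  let D : Set P.{u} := {a ∈ C | a.q ≤ q ∨ q ≤ a.q} ∪ Bl q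
  have hD : IsChain (· ≤ ·) D := by
    have hcb : ∀ a ∈ C, (a.q ≤ q ∨ q ≤ a.q) → ∀ b : P.{u}, b.q = q → a ≤ b ∨ b ≤ a := by
      intro a ha haq b hb
      have hne : a.q ≠ q := fun h => hq ⟨a, ha, h⟩
      rcases haq with h | h
      · exact Or.inl (Or.inl (by rw [hb]; exact lt_of_le_of_ne h hne))
      · exact Or.inr (Or.inl (by rw [hb]; exact lt_of_le_of_ne h (Ne.symm hne)))
    rintro a (ha | ha) b (hb | hb) hne
    · exact hC.total ha.1 hb.1
    · exact hcb a ha.1 ha.2 b hb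
    · exact (hcb b hb.1 hb.2 a ha).symm
    · have h1 : a.q = q := ha
      have h2 : b.q = q := hb
      rcases le_total a.z b.z with h | h
      · exact Or.inl (Or.inr ⟨h1.trans h2.symm, h⟩)
      · exact Or.inr (Or.inr ⟨h2.trans h1.symm, h⟩)
  have h1 := hmax D hD
  have h2 : wt.{u} q ≤ #↥(D \ C) := by
    rw [← mk_Bl q]
    refine Cardinal.mk_le_mk_of_subset ?_
    intro a ha
    exact ⟨Or.inr ha, fun haC => hq ⟨a, haC, ha⟩⟩
  -- the removed part is small
  let R : Set Q := {p ∈ S | ¬ q ≤ p ∧ ¬ p ≤ q}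
  have h3 : C \ D ⊆ ⋃ p ∈ R, Bl.{u} p := by
    rintro a ⟨haC, haD⟩
    rw [Set.mem_iUnion₂]
    refine ⟨a.q, ⟨⟨a, haC, rfl⟩, ?_, ?_⟩, rfl⟩
    · intro h
      exact haD (Or.inl ⟨haC, Or.inr h⟩)
    · intro h
      exact haD (Or.inl ⟨haC, Or.inl h⟩)
  have h4 : ∀ p ∈ R, #(Bl.{u} p) ≤ ℵ_ (rk.{u} q) := by
    rintro p ⟨hpS, hp1, hp2⟩
    rw [mk_Bl]
    unfold wt
    rw [Cardinal.aleph_le_aleph]
    have h5 := hcon p hpS hp1 hp2
    have h6 : rk.{u} p < rk.{u} q := by
      rcases Nat.lt_or_ge p.n q.n with h | h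
      · exact rk_lt_of_level h
      · have h7 : q.n = p.n := by omega
        exact rk_lt_of_d h7.symm (h5.2 h7)
    exact Order.add_one_le_of_lt h6
  have h5 : #↥(⋃ p ∈ R, Bl.{u} p) ≤ ℵ_ (rk.{u} q) := by
    have hcount : Countable Q := by
      have : Function.Injective (fun q : Q => (q.x, q.y, q.n)) := by
        intro a b hab
        simp only [Prod.mk.injEq] at hab
        exact Q.ext hab.1 hab.2.1 hab.2.2
      exact this.countable
    rw [Set.biUnion_eq_iUnion]
    have e1 : (⋃ x : R, Bl.{u} x.1) = ⋃ x : ULift.{u} R, Bl.{u} x.down.1 := by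
      ext a
      simp
    rw [e1]
    refine (Cardinal.mk_iUnion_le _).trans ?_
    have hR : #(ULift.{u} R) ≤ ℵ₀ := Cardinal.mk_le_aleph0
    calc #(ULift.{u} R) * ⨆ i : ULift.{u} R, #(Bl.{u} i.down.1)
        ≤ ℵ₀ * ℵ_ (rk.{u} q) := by
          refine mul_le_mul' hR ?_
          exact ciSup_le' fun i => h4 _ i.down.2
      _ = ℵ_ (rk.{u} q) := Cardinal.aleph0_mul_eq (Cardinal.aleph0_le_aleph _)
  have h6 : wt.{u} q ≤ ℵ_ (rk.{u} q) :=
    h2.trans (h1.trans ((Cardinal.mk_le_mk_of_subset h3).trans h5))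
  unfold wt at h6
  rw [Cardinal.aleph_le_aleph] at h6
  exact absurd h6 (not_le.2 (Order.lt_add_one_iff.2 le_rfl))

end

/-- The negation of the preceding statement: Every partially ordered set with no infinite antichain has a chain C such that every chain D satisfies: the cardinality of D minus C is at most the cardinality of C minus D. -/
theorem result :
    ¬ (∀ (P : Type u) [PartialOrder P],
      (∀ A : Set P, IsAntichain (· ≤ ·) A → A.Finite) →
      ∃ C : Set P, IsChain (· ≤ ·) C ∧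
        ∀ D : Set P, IsChain (· ≤ ·) D →
          Cardinal.mk ↥(D \ C) ≤ Cardinal.mk ↥(C \ D)) := by
  intro H
  obtain ⟨C, hC, hmax⟩ := H P.{u} antichain_P
  exact no_strongly_maximal C hC hmax

end Pool.Agent.S07518
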