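import Pool.Statements.S07551
import Pool.Agent.H443R3.TT.Transfer

set_option autoImplicit false
open Pool Pool.MP_1edfe5_co

namespace Pool.Agent.S07551

/-- There is a sequence of closed equilateral triangles in the plane, with pairwise distinct positive side lengths, whose union is the whole plane and whose interiors are pairwise disjoint. -/
theorem result :
    ∃ (a b c : ℕ → EuclideanSpace ℝ (Fin 2)) (s : ℕ → ℝ),
      (∀ n, 0 < s n ∧ dist (a n) (b n) = s n ∧ dist (b n) (c n) = s n ∧
        dist (c n) (a n) = s n) ∧
      Function.Injective s ∧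
      (⋃ n, convexHull ℝ ({a n, b n, c n} : Set (EuclideanSpace ℝ (Fin 2)))) = Set.univ ∧
      ∀ m n, m ≠ n →
        Disjoint
          (interior (convexHull ℝ ({a m, b m, c m} : Set (EuclideanSpace ℝ (Fin 2)))))
          (interior (convexHull ℝ ({a n, b n, c n} : Set (EuclideanSpace ℝ (Fin 2))))) := by
  exact Pool.Agent.H443R3.TT.final

end Pool.Agent.S07551
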