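import Pool.Statements.S07566
import Pool.Agent.H424R3.VC2

set_option autoImplicit false
open Pool Pool.MP_1f4382_co

namespace Pool.Agent.S07566

/-- The negation of the preceding statement: For each k there are C, D > 0 such that every tripartite 3-graph on three n-sets with VC₂ dimension below k has, for every ε in (0,1), an ε-graph partition into M ≤ C(1/ε)^D classes per pair, with at most εn³ misclassified triples. -/
theorem result :
    ¬ (∀ k : ℕ, ∃ C D : ℝ, 0 < C ∧ 0 < D ∧
      ∀ ε : ℝ, 0 < ε → ε < 1 →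
      ∀ n : ℕ, ∀ H : Finset (Fin n × Fin n × Fin n),
        (¬ ∃ a b : Fin k → Fin n, ∀ S : Set (Fin k × Fin k), ∃ z : Fin n,
            ∀ i j : Fin k, ((a i, b j, z) ∈ H ↔ (i, j) ∈ S)) →
        ∃ M : ℕ, (M : ℝ) ≤ C * (1 / ε) ^ D ∧
          ∃ e g h : Fin n → Fin n → Fin M, ∃ f : Fin M → Fin M → Fin M → Bool,
            (((Finset.univ : Finset (Fin n × Fin n × Fin n)).filter
                (fun t : Fin n × Fin n × Fin n =>
                  ¬ (t ∈ H ↔ f (e t.1 t.2.1) (g t.1 t.2.2) (h t.2.1 t.2.2) = true))).card : ℝ)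
              ≤ ε * (n : ℝ) ^ 3) :=
  Pool.Agent.H424R3.VC2.main

end Pool.Agent.S07566
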