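import Pool.Statements.S07574

set_option autoImplicit false
open Pool Pool.MP_1f8616_co

namespace Pool.Agent.S07574

theorem chain_sub {C : Set (Σ n : ℕ, Fin n)} (hC : IsChain (· ≤ ·) C) {x : Σ n : ℕ, Fin n}
    (hx : x ∈ C) : C ⊆ Set.range (fun i : Fin x.1 => (⟨x.1, i⟩ : Σ n : ℕ, Fin n)) := by
  intro z hz
  have h1 : x.1 = z.1 := by
    by_cases hxz : x = z
    · rw [hxz]
    rcases hC hx hz hxz with h | h
    · rw [Sigma.le_def] at h
      exact h.1
    · rw [Sigma.le_def] at h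
      exact h.1.symm
  obtain ⟨n, i⟩ := z
  simp only at h1
  subst h1
  exact ⟨i, rfl⟩

theorem chain_finite {C : Set (Σ n : ℕ, Fin n)} (hC : IsChain (· ≤ ·) C) : C.Finite := by
  rcases C.eq_empty_or_nonempty with h | ⟨x, hx⟩
  · rw [h]
    exact Set.finite_empty
  · exact (Set.finite_range _).subset (chain_sub hC hx)

/-- The negation of the preceding statement: Every countable poset with no saturated chain (or its reverse) that is an ω-indexed linear sum of infinite co-wellfounded chains has, for each k≥2, k disjoint chains and a partition into antichains where each antichain A meets at least min(∣A∣,k) chains. -/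
theorem result :
    ¬ (∀ (α : Type) [PartialOrder α] [Countable α],
    (¬ ∃ C : Set α, IsChain (· ≤ ·) C ∧
        (∀ x, x ∉ C → ∀ y ∈ C, ∀ z ∈ C, y < x → x < z → ¬ IsChain (· ≤ ·) (insert x C)) ∧
        ∃ f : α → ℕ,
          ((∀ x ∈ C, ∀ y ∈ C, x ≤ y → f x ≤ f y) ∧
            ∀ i : ℕ, Set.Infinite {x | x ∈ C ∧ f x = i} ∧
              ¬ ∃ s : ℕ → α, StrictMono s ∧ ∀ n, s n ∈ C ∧ f (s n) = i) ∨
          ((∀ x ∈ C, ∀ y ∈ C, x ≤ y → f y ≤ f x) ∧
            ∀ i : ℕ, Set.Infinite {x | x ∈ C ∧ f x = i} ∧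
              ¬ ∃ s : ℕ → α, StrictAnti s ∧ ∀ n, s n ∈ C ∧ f (s n) = i)) →
    ∀ k : ℕ, 2 ≤ k →
      ∃ C : Fin k → Set α, (∀ j, IsChain (· ≤ ·) (C j)) ∧
        Pairwise (fun i j => Disjoint (C i) (C j)) ∧
        ∃ g : α → ℕ, ∀ i : ℕ, IsAntichain (· ≤ ·) {x | g x = i} ∧
          min (Set.encard {x | g x = i}) (k : ℕ∞) ≤
            Set.encard {j : Fin k | (C j ∩ {x | g x = i}).Nonempty}) := by
  intro hall
  obtain ⟨C, hC, -, g, hg⟩ := hall (Σ n : ℕ, Fin n)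
    (by
      rintro ⟨C, hC, -, f, ⟨-, h⟩ | ⟨-, h⟩⟩
      · exact (h 0).1 ((chain_finite hC).subset fun x hx => hx.1)
      · exact (h 0).1 ((chain_finite hC).subset fun x hx => hx.1))
    2 le_rfl
  have hU : (⋃ j, C j).Finite := Set.finite_iUnion fun j => chain_finite (hC j)
  obtain ⟨N, hN⟩ : ∃ N, N = (⋃ j, C j).ncard + 1 := ⟨_, rfl⟩
  have hinj : Function.Injective (fun i : Fin N => g (⟨N, i⟩ : Σ n : ℕ, Fin n)) := by
    intro i j hij
    by_contra hne
    have hanti := (hg (g (⟨N, i⟩ : Σ n : ℕ, Fin n))).1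
    have hne' : (⟨N, i⟩ : Σ n : ℕ, Fin n) ≠ ⟨N, j⟩ := by
      intro h
      apply hne
      simpa using h
    rcases le_total i j with h | h
    · exact hanti (x := ⟨N, i⟩) rfl (y := ⟨N, j⟩) hij.symm hne' (Sigma.mk_le_mk_iff.2 h)
    · exact hanti (x := ⟨N, j⟩) hij.symm (y := ⟨N, i⟩) rfl hne'.symm (Sigma.mk_le_mk_iff.2 h)
  have hsub : Set.range (fun i : Fin N => g (⟨N, i⟩ : Σ n : ℕ, Fin n)) ⊆ g '' (⋃ j, C j) := by
    rintro _ ⟨i, rfl⟩
    have h1 := (hg (g (⟨N, i⟩ : Σ n : ℕ, Fin n))).2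
    have h2 : (1 : ℕ∞) ≤ Set.encard {x | g x = g (⟨N, i⟩ : Σ n : ℕ, Fin n)} := by
      rw [Set.one_le_encard_iff_nonempty]
      exact ⟨⟨N, i⟩, rfl⟩
    have h3 : (1 : ℕ∞) ≤ ((2 : ℕ) : ℕ∞) := by norm_num
    have h4 := (le_min h2 h3).trans h1
    rw [Set.one_le_encard_iff_nonempty] at h4
    obtain ⟨j, x, hx, hgx⟩ := h4
    exact ⟨x, Set.mem_iUnion.2 ⟨j, hx⟩, hgx⟩
  have h5 := Set.ncard_le_ncard hsub (hU.image g)
  rw [← Set.image_univ, Set.ncard_image_of_injective _ hinj, Set.ncard_univ,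
    Nat.card_eq_fintype_card, Fintype.card_fin] at h5
  have h6 := Set.ncard_image_le (f := g) hU
  omega

end Pool.Agent.S07574
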