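import Pool.Statements.S07614

set_option autoImplicit false
open Pool Pool.MP_2117ab_co

namespace Pool.Agent.S07614

/-- The colour of the pair `u v` of vertices of `K_6` (row `u`, column `v`), `3` on the diagonal. -/
def col : Fin 6 → Fin 6 → Fin 4 :=
  ![![3, 1, 0, 2, 0, 0],
    ![1, 3, 0, 0, 2, 1],
    ![0, 0, 3, 1, 2, 1],
    ![2, 0, 1, 3, 1, 2],
    ![0, 2, 2, 1, 3, 2],
    ![0, 1, 1, 2, 2, 3]]

/-- The three spanning trees. -/
def T (i : Fin 3) : SimpleGraph (Fin 6) where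
  Adj u v := col u v = i.castSucc
  symm := ⟨by revert i; decide⟩
  loopless := ⟨by revert i; decide⟩

instance (i : Fin 3) : DecidableRel (T i).Adj := fun u v =>
  inferInstanceAs (Decidable (col u v = i.castSucc))

theorem tree (i : Fin 3) : (T i).IsTree := by
  rw [SimpleGraph.isTree_iff_connected_and_card]
  constructor
  · revert i
    decide
  · rw [Nat.card_eq_fintype_card, Nat.card_eq_fintype_card, ← SimpleGraph.edgeFinset_card]
    revert i
    decide

theorem result :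
    ¬ (∀ (d : ℕ), 3 ≤ d →
    ∀ (V : Type) [Fintype V] (G : SimpleGraph V) (T : Fin d → SimpleGraph V),
      (∀ i, (T i).IsTree) →
      (∀ i j, i ≠ j → Disjoint (T i) (T j)) →
      G = ⨆ i, T i →
      ∃ p : V → Fin d → ℝ, ∀ i : Fin d, ∀ u v : V, G.Adj u v →
        ((T i).Adj u v ↔ ∀ j : Fin d, j ≠ i → |p u j - p v j| < |p u i - p v i|)) := by
  intro h
  have htop : (⊤ : SimpleGraph (Fin 6)) = ⨆ i, T i := by
    ext u v
    rw [SimpleGraph.iSup_adj]
    revert u v
    decide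
  have hdis : ∀ i j, i ≠ j → Disjoint (T i) (T j) := by
    intro i j hij
    rw [SimpleGraph.disjoint_left]
    revert i j
    decide
  obtain ⟨p, hp⟩ := h 3 le_rfl (Fin 6) ⊤ T tree hdis htop
  -- the colour relation is transitive along monotone paths
  have key : ∀ i : Fin 3, ∀ u v w : Fin 6, (T i).Adj u v → (T i).Adj v w → u ≠ w →
      ¬ (T i).Adj u w → (p u i < p v i ∧ p w i < p v i) ∨ (p v i < p u i ∧ p v i < p w i) := by
    intro i u v w huv hvw huw hn
    have h1 := (hp i u v huv.ne).1 huv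
    have h2 := (hp i v w hvw.ne).1 hvw
    by_contra hc
    apply hn
    rw [hp i u w huw]
    intro j hj
    have h3 := h1 j hj
    have h4 := h2 j hj
    have h5 : p u i ≠ p v i := by
      intro h6
      rw [h6, sub_self, abs_zero] at h3
      exact absurd h3 (not_lt.2 (abs_nonneg _))
    have h6 : p v i ≠ p w i := by
      intro h6
      rw [h6, sub_self, abs_zero] at h4
      exact absurd h4 (not_lt.2 (abs_nonneg _))
    have h7 : |p u j - p w j| ≤ |p u j - p v j| + |p v j - p w j| := abs_sub_le _ _ _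
    rcases lt_or_gt_of_ne h5 with h8 | h8 <;> rcases lt_or_gt_of_ne h6 with h9 | h9
    · rw [abs_of_neg (sub_neg.2 h8)] at h3
      rw [abs_of_neg (sub_neg.2 h9)] at h4
      rw [abs_of_neg (sub_neg.2 (h8.trans h9))]
      linarith
    · exact absurd (Or.inl ⟨h8, h9⟩) hc
    · exact absurd (Or.inr ⟨h8, h9⟩) hc
    · rw [abs_of_pos (sub_pos.2 h8)] at h3
      rw [abs_of_pos (sub_pos.2 h9)] at h4
      rw [abs_of_pos (sub_pos.2 (h9.trans h8))]
      linarith
  have a1 := key 0 4 0 2 (by decide) (by decide) (by decide) (by decide)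
  have a2 := key 0 0 2 1 (by decide) (by decide) (by decide) (by decide)
  have a3 := key 0 2 1 3 (by decide) (by decide) (by decide) (by decide)
  have b1 := key 2 0 3 5 (by decide) (by decide) (by decide) (by decide)
  have b2 := key 2 3 5 4 (by decide) (by decide) (by decide) (by decide)
  have b3 := key 2 5 4 1 (by decide) (by decide) (by decide) (by decide)
  have c1 := (hp 0 0 4 (by decide)).1 (by decide) 2 (by decide)
  have c2 := (hp 0 1 3 (by decide)).1 (by decide) 2 (by decide)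
  have c3 := (hp 2 0 3 (by decide)).1 (by decide) 0 (by decide)
  have c4 := (hp 2 1 4 (by decide)).1 (by decide) 0 (by decide)
  have A : (p 0 0 < p 4 0 ∧ p 1 0 < p 3 0) ∨ (p 4 0 < p 0 0 ∧ p 3 0 < p 1 0) := by
    rcases a1 with ⟨x1, x2⟩ | ⟨x1, x2⟩ <;> rcases a2 with ⟨y1, y2⟩ | ⟨y1, y2⟩ <;>
      rcases a3 with ⟨z1, z2⟩ | ⟨z1, z2⟩
    all_goals first
      | exact Or.inl ⟨by linarith, by linarith⟩
      | exact Or.inr ⟨by linarith, by linarith⟩
      | exact absurd x2 (by linarith)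
      | exact absurd y2 (by linarith)
  have B : (p 0 2 < p 3 2 ∧ p 1 2 < p 4 2) ∨ (p 3 2 < p 0 2 ∧ p 4 2 < p 1 2) := by
    rcases b1 with ⟨x1, x2⟩ | ⟨x1, x2⟩ <;> rcases b2 with ⟨y1, y2⟩ | ⟨y1, y2⟩ <;>
      rcases b3 with ⟨z1, z2⟩ | ⟨z1, z2⟩
    all_goals first
      | exact Or.inl ⟨by linarith, by linarith⟩
      | exact Or.inr ⟨by linarith, by linarith⟩
      | exact absurd x2 (by linarith)
      | exact absurd y2 (by linarith)
  have d1 := abs_lt.1 c1
  have d2 := abs_lt.1 c2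
  have d3 := abs_lt.1 c3
  have d4 := abs_lt.1 c4
  rcases A with ⟨x1, x2⟩ | ⟨x1, x2⟩ <;> rcases B with ⟨y1, y2⟩ | ⟨y1, y2⟩
  · rw [abs_of_neg (sub_neg.2 x1)] at d1
    rw [abs_of_neg (sub_neg.2 x2)] at d2
    rw [abs_of_neg (sub_neg.2 y1)] at d3
    rw [abs_of_neg (sub_neg.2 y2)] at d4
    linarith [d1.1, d1.2, d2.1, d2.2, d3.1, d3.2, d4.1, d4.2]
  · rw [abs_of_neg (sub_neg.2 x1)] at d1
    rw [abs_of_neg (sub_neg.2 x2)] at d2
    rw [abs_of_pos (sub_pos.2 y1)] at d3
    rw [abs_of_pos (sub_pos.2 y2)] at d4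
    linarith [d1.1, d1.2, d2.1, d2.2, d3.1, d3.2, d4.1, d4.2]
  · rw [abs_of_pos (sub_pos.2 x1)] at d1
    rw [abs_of_pos (sub_pos.2 x2)] at d2
    rw [abs_of_neg (sub_neg.2 y1)] at d3
    rw [abs_of_neg (sub_neg.2 y2)] at d4
    linarith [d1.1, d1.2, d2.1, d2.2, d3.1, d3.2, d4.1, d4.2]
  · rw [abs_of_pos (sub_pos.2 x1)] at d1
    rw [abs_of_pos (sub_pos.2 x2)] at d2
    rw [abs_of_pos (sub_pos.2 y1)] at d3
    rw [abs_of_pos (sub_pos.2 y2)] at d4
    linarith [d1.1, d1.2, d2.1, d2.2, d3.1, d3.2, d4.1, d4.2]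

end Pool.Agent.S07614
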