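import Pool.Statements.S07615
import Pool.Agent.H789R3.Asm

set_option autoImplicit false
open Pool Pool.MP_2127f1_co

namespace Pool.Agent.S07615

/-- For every Laman graph on n vertices and every generic real planar placement, the complex placements with the same squared edge lengths, counted up to equality of all pairwise squared distances, number at least 2^(n-3). -/
theorem result :
  ∀ n : ℕ, ∀ G : SimpleGraph (Fin n),
    G.edgeSet.ncard = 2 * n - 3 →
    (∀ s : Finset (Fin n), 2 ≤ s.card →
      {e : Sym2 (Fin n) | e ∈ G.edgeSet ∧ ∀ v ∈ e, v ∈ s}.ncard ≤ 2 * s.card - 3) →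
    ∀ p : Fin n → Fin 2 → ℝ,
      AlgebraicIndependent ℚ (fun x : Fin n × Fin 2 => p x.1 x.2) →
      2 ^ (n - 3) ≤ {D : Fin n → Fin n → ℂ | ∃ q : Fin n → Fin 2 → ℂ,
          (∀ u v, G.Adj u v →
            ∑ i, (q u i - q v i) ^ 2 = ∑ i, ((p u i - p v i : ℝ) : ℂ) ^ 2) ∧
          D = fun u v => ∑ i, (q u i - q v i) ^ 2}.ncard := by
  classical
  intro n G hcard hsub p hp
  by_cases hn : n ≤ 2
  · -- small cases: exactly one class
    have hadj : ∀ u v : Fin n, u ≠ v → G.Adj u v := by
      intro u v huv
      have hu := u.2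
      have hv := v.2
      have hne : u.1 ≠ v.1 := fun h => huv (Fin.ext h)
      have hn2 : n = 2 := by omega
      have hcard1 : G.edgeSet.ncard = 1 := by rw [hcard]; omega
      obtain ⟨e, he⟩ := Set.ncard_eq_one.1 hcard1
      have he' : e ∈ G.edgeSet := by rw [he]; rfl
      induction e using Sym2.ind with
      | _ a b =>
        have hab : G.Adj a b := he'
        have hab' : a.1 ≠ b.1 := fun h => hab.ne (Fin.ext h)
        have ha := a.2
        have hb := b.2
        by_cases h1 : a.1 = u.1
        · have h2 : a = u := Fin.ext h1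
          have h3 : b = v := Fin.ext (by omega)
          rw [← h2, ← h3]
          exact hab
        · have h2 : a = v := Fin.ext (by omega)
          have h3 : b = u := Fin.ext (by omega)
          rw [← h2, ← h3]
          exact hab.symm
    have hset : {D : Fin n → Fin n → ℂ | ∃ q : Fin n → Fin 2 → ℂ,
          (∀ u v, G.Adj u v →
            ∑ i, (q u i - q v i) ^ 2 = ∑ i, ((p u i - p v i : ℝ) : ℂ) ^ 2) ∧
          D = fun u v => ∑ i, (q u i - q v i) ^ 2} =
          {fun u v => ∑ i, ((p u i - p v i : ℝ) : ℂ) ^ 2} := by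
      ext D
      constructor
      · rintro ⟨q, hq, rfl⟩
        change _ = _
        funext u v
        by_cases huv : u = v
        · subst huv
          simp
        · exact hq u v (hadj u v huv)
      · intro hD
        refine ⟨fun v i => ((p v i : ℝ) : ℂ), ?_, ?_⟩
        · intro u v _
          simp
        · have hD' : D = fun u v => ∑ i, ((p u i - p v i : ℝ) : ℂ) ^ 2 := hD
          rw [hD']
          funext u v
          simp
    rw [hset, Set.ncard_singleton]
    have : n - 3 = 0 := by omega
    rw [this, pow_zero]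
  · rw [not_le] at hn
    let E : Finset (Sym2 (Fin n)) := G.edgeSet.toFinset
    have hEmem : ∀ e, e ∈ E ↔ e ∈ G.edgeSet := fun e => Set.mem_toFinset
    have hEcard : E.card = 2 * n - 3 := by
      rw [← hcard, Set.ncard_eq_toFinset_card']
    have hne : E.Nonempty := by
      rw [← Finset.card_pos]; omega
    obtain ⟨e0, he0⟩ := hne
    induction e0 using Sym2.ind with
    | _ o w =>
    let pc : Fin n → Fin 2 → ℂ := fun v i => ((p v i : ℝ) : ℂ)
    have hpinj : Function.Injective (MvPolynomial.aeval (R := ℚ)
        (fun x : Fin n × Fin 2 => pc x.1 x.2)) := by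
      rw [injective_iff_map_eq_zero]
      intro P hP
      have h1 : MvPolynomial.aeval (R := ℚ) (fun x : Fin n × Fin 2 => pc x.1 x.2) P =
          ((MvPolynomial.aeval (R := ℚ) (fun x : Fin n × Fin 2 => p x.1 x.2) P : ℝ) : ℂ) := by
        have h2 := MvPolynomial.comp_aeval_apply (R := ℚ) (f := fun x : Fin n × Fin 2 => p x.1 x.2)
          ((Complex.ofRealAm).restrictScalars ℚ) P
        exact h2.symm
      rw [h1] at hP
      have h3 : (MvPolynomial.aeval (R := ℚ) (fun x : Fin n × Fin 2 => p x.1 x.2) P : ℝ) = 0 := by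
        exact_mod_cast hP
      have h4 := hp
      rw [AlgebraicIndependent] at h4
      exact h4 (h3.trans (map_zero _).symm)
    have how : o ≠ w := by
      have h1 : G.Adj o w := (hEmem _).1 he0
      exact h1.ne
    have hpow : H789R3.dC pc s(o, w) ≠ 0 := by
      change ∑ i, (pc o i - pc w i) ^ 2 ≠ 0
      intro h
      have h1 : ∑ i, (p o i - p w i) ^ 2 = 0 := by
        have h2 : ((∑ i, (p o i - p w i) ^ 2 : ℝ) : ℂ) = 0 := by
          rw [← h]
          simp [pc]
        exact_mod_cast h2
      rw [Finset.sum_eq_zero_iff_of_nonneg (fun i _ => sq_nonneg _)] at h1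
      have h2 := h1 0 (Finset.mem_univ _)
      have h3 : p o 0 = p w 0 := by
        have := pow_eq_zero_iff (two_ne_zero) |>.1 h2
        linarith
      have h4 := hp.injective (a₁ := (o, 0)) (a₂ := (w, 0)) h3
      exact how (congrArg Prod.fst h4)
    obtain ⟨hfin, hle⟩ := H789R3.main_lower o w E he0
      (fun e he => by
        have h1 := (hEmem e).1 he
        exact G.not_isDiag_of_mem_edgeSet h1)
      (by rw [hEcard, Fintype.card_fin]; omega)
      (by
        intro S hS
        have h1 := hsub S hS
        have h2 : {e : Sym2 (Fin n) | e ∈ G.edgeSet ∧ ∀ v ∈ e, v ∈ S} =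
            ((E.filter (fun e => ∀ v ∈ e, v ∈ S) : Finset _) : Set (Sym2 (Fin n))) := by
          ext e
          rw [Finset.coe_filter]
          change _ ∧ _ ↔ _ ∧ _
          rw [hEmem]
        rw [h2, Set.ncard_coe_finset] at h1
        have h3 : (E.filter (fun e => ∀ v ∈ e, v ∈ S)).card + 3 ≤ 2 * S.card := by omega
        convert h3)
      pc hpinj hpow
    have hset : {D : Fin n → Fin n → ℂ | ∃ q : Fin n → Fin 2 → ℂ,
          (∀ u v, G.Adj u v →
            ∑ i, (q u i - q v i) ^ 2 = ∑ i, ((p u i - p v i : ℝ) : ℂ) ^ 2) ∧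
          D = fun u v => ∑ i, (q u i - q v i) ^ 2} =
        {D : Fin n → Fin n → ℂ | ∃ q : Fin n → Fin 2 → ℂ,
          (∀ e ∈ E, H789R3.dC q e = H789R3.dC pc e) ∧
          D = fun u v => ∑ i, (q u i - q v i) ^ 2} := by
      ext D
      refine exists_congr (fun q => and_congr_left (fun _ => ?_))
      constructor
      · intro h e he
        induction e using Sym2.ind with
        | _ u v =>
          have h1 : G.Adj u v := (hEmem _).1 he
          change ∑ i, (q u i - q v i) ^ 2 = ∑ i, (pc u i - pc v i) ^ 2
          rw [h u v h1]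
          simp [pc]
      · intro h u v huv
        have h1 : s(u, v) ∈ E := (hEmem _).2 huv
        have h2 := h _ h1
        change ∑ i, (q u i - q v i) ^ 2 = ∑ i, (pc u i - pc v i) ^ 2 at h2
        rw [h2]
        simp [pc]
    rw [hset]
    rw [Fintype.card_fin] at hle
    have h5 : n - 2 = (n - 3) + 1 := by omega
    rw [h5, pow_succ] at hle
    omega

end Pool.Agent.S07615
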