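import Pool.Statements.S07637
import Pool.Agent.H998R3.LM

set_option autoImplicit false
open Pool Pool.MP_22634b_co

namespace Pool.Agent.S07637

/-- There is a dimension n such that every colouring of n-dimensional Euclidean space has three points spaced 1, 1, 2 apart (a congruent copy of {0,1,2}) that are all the same colour or all different colours. -/
theorem result :
    ∃ n : ℕ, ∀ χ : EuclideanSpace ℝ (Fin n) → ℝ,
      ∃ a b c : EuclideanSpace ℝ (Fin n),
        dist a b = 1 ∧ dist b c = 1 ∧ dist a c = 2 ∧
        ((χ a = χ b ∧ χ b = χ c) ∨ (χ a ≠ χ b ∧ χ b ≠ χ c ∧ χ a ≠ χ c)) := by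
  exact Pool.Agent.H998R3.canonical_main

end Pool.Agent.S07637
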