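import Pool.Statements.S07679
import Pool.Agent.H34R3.OrbMain

set_option autoImplicit false
open Pool Pool.MP_244b3b_co

namespace Pool.Agent.S07679

open Pool.Agent.H34R3.Orb Pool.Agent.H34R3.Orb.Grp Module

theorem finrank_iSup_le_sum {ι : Type} [Fintype ι] {K V : Type} [Field K] [AddCommGroup V]
    [Module K V] [FiniteDimensional K V] (U : ι → Submodule K V) :
    finrank K (⨆ i, U i : Submodule K V) ≤ ∑ i, finrank K (U i) := by
  classical
  rw [← Finset.sup_univ_eq_iSup]
  induction (Finset.univ : Finset ι) using Finset.induction_on with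
  | empty => simp
  | insert a s ha ih =>
    rw [Finset.sup_insert, Finset.sum_insert ha]
    exact (Submodule.finrank_add_le_finrank_add_finrank _ _).trans (Nat.add_le_add_left ih _)

/-- For all k and N there is a finite group G such that every finite loopless digraph with all out-degrees at most k and automorphism group isomorphic to G has more than N automorphism orbits. -/
theorem result :
    ∀ k N : ℕ, ∃ (G : Type) (_ : Group G) (_ : Finite G),
      ∀ (V : Type) [Finite V] (X : Digraph V) (φ : G →* Equiv.Perm V),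
        (∀ x, ¬ X.Adj x x) →
        (∀ x, Set.ncard {y | X.Adj x y} ≤ k) →
        Function.Injective φ →
        (∀ σ : Equiv.Perm V, σ ∈ φ.range ↔ ∀ x y, (X.Adj (σ x) (σ y) ↔ X.Adj x y)) →
        ∃ f : Fin (N + 1) → V, ∀ (i j : Fin (N + 1)) (g : G), φ g (f i) = f j → i = j := by
  classical
  intro k N
  obtain ⟨r, hr⟩ : ∃ r, r = 9 * N + 3 * (N * k) + 4 := ⟨_, rfl⟩
  obtain ⟨d, hd⟩ : ∃ d, d = N * (3 * r + k) + 1 := ⟨_, rfl⟩
  have hr0 : 0 < r := by omega
  have hrd : 3 * d < r * r := by
    have h1 : r * r = r * (9 * N) + r * (3 * (N * k) + 4) := by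
      conv_lhs => rw [hr]
      rw [hr]
      ring
    have h2 : 3 * d = r * (9 * N) + (3 * (N * k) + 3) := by rw [hd]; ring
    have h3 : 3 * (N * k) + 4 ≤ r * (3 * (N * k) + 4) := Nat.le_mul_of_pos_left _ hr0
    omega
  have : Fact (Nat.Prime 5) := ⟨by norm_num⟩
  obtain ⟨L, hL⟩ := exists_form (p := 5) (d := d) (r := r) hrd hr0
  refine ⟨Grp L, inferInstance, inferInstance, ?_⟩
  intro V _ X φ _ hdeg hinj hfull
  by_contra hcon
  push Not at hcon
  set z : Grp L := zc L 1 with hzdef
  have hz : ∀ g, g * z = z * g := fun g => zc_comm 1 g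
  have haut : ∀ g x y, X.Adj (φ g x) (φ g y) ↔ X.Adj x y := fun g =>
    (hfull (φ g)).1 ⟨g, rfl⟩
  have hord : ∀ x : Grp L, ∃ n, orderOf x = 5 ^ n := fun x =>
    (IsPGroup.iff_orderOf.1 (isPGroup L)) x
  have h2 : ∀ x : Grp L, (2 : ℕ).Coprime (orderOf x) := by
    intro x
    obtain ⟨n, hn⟩ := hord x
    rw [hn]
    exact Nat.Coprime.pow_right n (by norm_num)
  have h3 : ∀ x : Grp L, (3 : ℕ).Coprime (orderOf x) := by
    intro x
    obtain ⟨n, hn⟩ := hord x
    rw [hn]
    exact Nat.Coprime.pow_right n (by norm_num)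
  -- a moved point
  have hz1 : z ≠ 1 := by
    intro h
    have := congrArg Grp.c h
    simp [hzdef] at this
  obtain ⟨y, hy⟩ : ∃ y, φ z y ≠ y := by
    by_contra hc
    push Not at hc
    apply hz1
    apply hinj
    rw [map_one]
    exact Equiv.ext hc
  have hinv : ∀ v, Rel X φ z y v → ∀ g : Grp L, Rel X φ z y (φ g v) := by
    intro v hv g
    exact hv.trans (class_invariant hz haut (fun σ hσ => (hfull σ).2 hσ) engel h2 h3 v
      ((hv.moved hz).1 hy) g)
  -- the orbits
  have : Finite (Quotient (orbS φ)) := inferInstance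
  have : Fintype (Quotient (orbS φ)) := Fintype.ofFinite _
  have hQ : Fintype.card (Quotient (orbS φ)) ≤ N := by
    by_contra hc
    push Not at hc
    have h4 : Fintype.card (Fin (N + 1)) ≤ Fintype.card (Quotient (orbS φ)) := by
      rw [Fintype.card_fin]; exact hc
    obtain ⟨e⟩ := Function.Embedding.nonempty_of_card_le h4
    obtain ⟨i, j, g, h5, h6⟩ := hcon (fun i => (e i).out)
    apply h6
    apply e.injective
    rw [← Quotient.out_eq (e i), ← Quotient.out_eq (e j)]
    exact Quotient.sound ⟨g, h5⟩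
  -- the pieces
  let K : Quotient (orbS φ) → Subgroup (Grp L) := fun q =>
    Subgroup.comap φ (MulAction.stabilizer (Equiv.Perm V) q.out)
  let U1 : Quotient (orbS φ) → Submodule (ZMod 5) (Fin d → ZMod 5) := fun q =>
    if Rel X φ z y q.out then img (K q) else ⊥
  let U2 : Quotient (orbS φ) → Submodule (ZMod 5) (Fin d → ZMod 5) := fun q =>
    Submodule.span (ZMod 5) ((fun w => (car φ w).v) '' {w | X.Adj q.out w})
  have hU1 : ∀ q, finrank (ZMod 5) (U1 q) ≤ 3 * r := by
    intro q
    by_cases h : Rel X φ z y q.out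
    · have hU : U1 q = img (K q) := if_pos h
      rw [hU]
      apply le_of_lt
      apply img_small hL
      intro h'
      have h5 : φ z q.out = q.out := by
        have := h'
        rw [Subgroup.mem_comap, MulAction.mem_stabilizer_iff, Equiv.Perm.smul_def] at this
        exact this
      exact ((h.moved hz).1 hy) h5
    · have hU : U1 q = ⊥ := if_neg h
      rw [hU, finrank_bot]
      exact Nat.zero_le _
  have hU2 : ∀ q, finrank (ZMod 5) (U2 q) ≤ k := by
    intro q
    have hfin : ((fun w => (car φ w).v) '' {w | X.Adj q.out w}).Finite := Set.toFinite _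
    have := hfin.fintype
    refine (finrank_span_le_card _).trans ?_
    rw [← Set.ncard_eq_toFinset_card']
    exact (Set.ncard_image_le (Set.toFinite _)).trans (hdeg _)
  let Wt : Submodule (ZMod 5) (Fin d → ZMod 5) := ⨆ q, (U1 q ⊔ U2 q)
  let H : Subgroup (Grp L) :=
    { carrier := {g | g.v ∈ Wt}
      one_mem' := Wt.zero_mem
      mul_mem' := fun {a b} ha hb => Wt.add_mem ha hb
      inv_mem' := fun {a} ha => Wt.neg_mem ha }
  have hH : H = ⊤ := by
    apply generation (X := X) (φ := φ) (z := z) hz haut y hy hinv H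
    · exact Wt.zero_mem
    · intro u hu g hg
      have h5 : rep φ u = (Quotient.mk (orbS φ) u).out := rfl
      have h6 : g.v ∈ U1 (Quotient.mk (orbS φ) u) := by
        simp only [U1]
        rw [← h5, if_pos hu]
        exact ⟨g, by
          rw [Subgroup.mem_comap, MulAction.mem_stabilizer_iff, Equiv.Perm.smul_def]
          exact hg, rfl⟩
      exact (le_trans le_sup_left (le_iSup (fun q => U1 q ⊔ U2 q) (Quotient.mk (orbS φ) u))) h6
    · intro u w _ huw
      have h6 : (car φ w).v ∈ U2 (Quotient.mk (orbS φ) u) :=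
        Submodule.subset_span ⟨w, huw, rfl⟩
      exact (le_trans le_sup_right (le_iSup (fun q => U1 q ⊔ U2 q) (Quotient.mk (orbS φ) u))) h6
  have hW : Wt = ⊤ := by
    rw [eq_top_iff]
    intro v _
    have h5 : (⟨v, 0, 0, 0⟩ : Grp L) ∈ H := by rw [hH]; trivial
    exact h5
  have h6 : finrank (ZMod 5) Wt = d := by
    rw [hW, finrank_top, Module.finrank_fin_fun]
  have h7 : finrank (ZMod 5) Wt ≤ ∑ _q : Quotient (orbS φ), (3 * r + k) := by
    refine (finrank_iSup_le_sum _).trans (Finset.sum_le_sum fun q _ => ?_)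
    exact (Submodule.finrank_add_le_finrank_add_finrank _ _).trans
      (Nat.add_le_add (hU1 q) (hU2 q))
  rw [Finset.sum_const, smul_eq_mul, Finset.card_univ, h6] at h7
  have h8 : d ≤ N * (3 * r + k) := h7.trans (Nat.mul_le_mul_right _ hQ)
  omega

end Pool.Agent.S07679
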