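import Pool.Statements.S07740
import Pool.Agent.H642R3.Q.Final

set_option autoImplicit false
open Pool Pool.MP_27266b_co

namespace Pool.Agent.S07740

/-- The negation of the preceding statement: There is a board size n other than 3 and 11 for which the minimum number of queens dominating the n×n board equals (n−1)/2. -/
theorem result :
    ¬ (∃ n : ℕ, n ≠ 3 ∧ n ≠ 11 ∧
      2 * sInf {k : ℕ | ∃ D : Finset (Fin n × Fin n), D.card = k ∧
        ∀ p : Fin n × Fin n, ∃ q ∈ D,
          p.1 = q.1 ∨ p.2 = q.2 ∨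
          (p.1.val : ℤ) - (p.2.val : ℤ) = (q.1.val : ℤ) - (q.2.val : ℤ) ∨
          p.1.val + p.2.val = q.1.val + q.2.val} + 1 = n) := by
  rintro ⟨n, h3, h11, heq⟩
  have hne : {k : ℕ | ∃ D : Finset (Fin n × Fin n), D.card = k ∧
        ∀ p : Fin n × Fin n, ∃ q ∈ D,
          p.1 = q.1 ∨ p.2 = q.2 ∨
          (p.1.val : ℤ) - (p.2.val : ℤ) = (q.1.val : ℤ) - (q.2.val : ℤ) ∨
          p.1.val + p.2.val = q.1.val + q.2.val}.Nonempty :=
    ⟨_, Finset.univ, rfl, fun p => ⟨p, Finset.mem_univ p, Or.inl rfl⟩⟩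
  obtain ⟨D, hD, hdom⟩ := Nat.sInf_mem hne
  rw [← hD] at heq
  clear hD hne
  have hinj : Function.Injective (fun q : Fin n × Fin n => ((q.1.val : ℤ), (q.2.val : ℤ))) := by
    intro p q hpq
    simp only [Prod.mk.injEq] at hpq
    ext
    · omega
    · omega
  have hmain : Pool.Agent.H642R3.Q.Dom D.card
      (D.image (fun q : Fin n × Fin n => ((q.1.val : ℤ), (q.2.val : ℤ)))) Prod.fst Prod.snd := by
    refine ⟨Finset.card_image_of_injective _ hinj, ?_, ?_, ?_⟩
    · intro q hq
      rw [Finset.mem_image] at hq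
      obtain ⟨p, -, rfl⟩ := hq
      have := p.1.isLt
      simp only
      omega
    · intro q hq
      rw [Finset.mem_image] at hq
      obtain ⟨p, -, rfl⟩ := hq
      have := p.2.isLt
      simp only
      omega
    · intro x y hx0 hx1 hy0 hy1
      obtain ⟨q, hq, hh⟩ := hdom (⟨x.toNat, by omega⟩, ⟨y.toNat, by omega⟩)
      refine ⟨_, Finset.mem_image.2 ⟨q, hq, rfl⟩, ?_⟩
      simp only [Fin.ext_iff] at hh ⊢
      omega
  have := Pool.Agent.H642R3.Q.dom_main hmain
  omega

end Pool.Agent.S07740
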