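import Pool.Statements.S07755
-- import your own Pool.Agent.* helpers here

set_option autoImplicit false
open Matrix
open Pool Pool.MP_284e51_co

namespace Pool.Agent.S07755

/-!
Proof.  Work with all functions on the finite subsets of `Fin n` (the exterior algebra of `ℝ^n`).
Let `cob` be the full coboundary and `con v` the contraction with the `v`-th basis vector, so that
`cob (con v F) + con v (cob F) = F`.  For `F` supported on the faces of `K` with `k+1` elements
apply the hypothesis (in its transposed form) to all the contractions `con v F` and sum over `v`: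
`∑_v ‖P cob (con v F)‖² = ∑_v ‖F - P con v (cob F)‖²
   = n ‖F‖² - 2 ‖cob F‖² + ∑_ρ m(ρ) (cob F ρ)² = ‖∂ F‖² + ∑_ρ (m(ρ) - 1) (cob F ρ)²`,
where `m(ρ)` is the number of facets of `ρ` in `K`; `cob F ρ = 0` if `m(ρ) = 0` and `m(ρ) = k+2`
for `ρ ∈ K`.  As `∑_v ‖con v F‖² = (k+1) ‖F‖²` the claim follows.
-/

noncomputable def eps {n : ℕ} (s : Finset (Fin n)) (v : Fin n) : ℝ :=
  (-1 : ℝ) ^ (Finset.filter (fun w => w < v) s).card

lemma eps_mul_self {n : ℕ} (s : Finset (Fin n)) (v : Fin n) : eps s v * eps s v = 1 := by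
  unfold eps
  rw [← pow_add, ← two_mul, pow_mul]; norm_num

noncomputable def cob {n : ℕ} (F : Finset (Fin n) → ℝ) (r : Finset (Fin n)) : ℝ :=
  ∑ v ∈ r, eps r v * F (r.erase v)

noncomputable def con {n : ℕ} (v : Fin n) (F : Finset (Fin n) → ℝ) (s : Finset (Fin n)) : ℝ :=
  if v ∈ s then 0 else eps s v * F (insert v s)

lemma eps_insert_self {n : ℕ} (s : Finset (Fin n)) (v : Fin n) : eps (insert v s) v = eps s v := by
  unfold eps
  rw [Finset.filter_insert, if_neg (lt_irrefl v)]

lemma eps_erase_self {n : ℕ} (s : Finset (Fin n)) (v : Fin n) : eps (s.erase v) v = eps s v := by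
  unfold eps
  congr 2
  ext w
  simp only [Finset.mem_filter, Finset.mem_erase]
  constructor
  · rintro ⟨⟨_, h⟩, h'⟩; exact ⟨h, h'⟩
  · rintro ⟨h, h'⟩; exact ⟨⟨ne_of_lt h', h⟩, h'⟩

/-- sign rule -/
lemma eps_rule {n : ℕ} (s : Finset (Fin n)) (v w : Fin n) (hv : v ∉ s) (hw : w ∈ s) :
    eps s w * eps (s.erase w) v = - (eps s v * eps (insert v s) w) := by
  have hvw : v ≠ w := by rintro rfl; exact hv hw
  rcases lt_or_gt_of_ne hvw with h | h
  · -- v < w
    have h1 : eps (s.erase w) v = eps s v := by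
      unfold eps
      congr 2
      ext u
      simp only [Finset.mem_filter, Finset.mem_erase]
      constructor
      · rintro ⟨⟨_, a⟩, b⟩; exact ⟨a, b⟩
      · rintro ⟨a, b⟩; exact ⟨⟨ne_of_lt (lt_trans b h), a⟩, b⟩
    have h2 : eps (insert v s) w = - eps s w := by
      unfold eps
      rw [Finset.filter_insert, if_pos h, Finset.card_insert_of_notMem, pow_succ]
      · ring
      · simp [hv]
    rw [h1, h2]; ring
  · -- w < v
    have h1 : eps (insert v s) w = eps s w := by
      unfold eps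
      rw [Finset.filter_insert, if_neg (not_lt.mpr h.le)]
    have h2 : eps s v = - eps (s.erase w) v := by
      unfold eps
      have : Finset.filter (fun u => u < v) s = insert w (Finset.filter (fun u => u < v) (s.erase w)) := by
        ext u
        simp only [Finset.mem_filter, Finset.mem_erase, Finset.mem_insert]
        constructor
        · rintro ⟨a, b⟩
          by_cases hu : u = w
          · exact Or.inl hu
          · exact Or.inr ⟨⟨hu, a⟩, b⟩
        · rintro (rfl | ⟨⟨_, a⟩, b⟩)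
          · exact ⟨hw, h⟩
          · exact ⟨a, b⟩
      rw [this, Finset.card_insert_of_notMem, pow_succ]
      · ring
      · simp
    rw [h1, h2]; ring

/-- the Clifford relation -/
lemma clifford {n : ℕ} (F : Finset (Fin n) → ℝ) (v : Fin n) (s : Finset (Fin n)) :
    cob (con v F) s + con v (cob F) s = F s := by
  by_cases hv : v ∈ s
  · have h0 : con v (cob F) s = 0 := by unfold con; rw [if_pos hv]
    rw [h0, add_zero]
    unfold cob
    rw [Finset.sum_eq_single v]
    · unfold con
      rw [if_neg (Finset.notMem_erase v s), Finset.insert_erase hv, eps_erase_self, ← mul_assoc,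
        eps_mul_self, one_mul]
    · intro w hw hwv
      unfold con
      rw [if_pos (Finset.mem_erase.mpr ⟨hwv.symm, hv⟩), mul_zero]
    · intro h; exact absurd hv h
  · unfold con
    rw [if_neg hv]
    unfold cob
    rw [Finset.sum_insert hv, Finset.erase_insert hv, eps_insert_self, mul_add, ← mul_assoc,
      eps_mul_self, one_mul]
    rw [add_comm, add_assoc]
    convert add_zero (F s)
    rw [Finset.mul_sum, ← Finset.sum_add_distrib]
    apply Finset.sum_eq_zero
    intro w hw
    have hvw : v ≠ w := by rintro rfl; exact hv hw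
    have hv' : v ∉ s.erase w := fun h => hv (Finset.mem_of_mem_erase h)
    dsimp only
    rw [if_neg hv', Finset.erase_insert_of_ne hvw, ← mul_assoc, ← mul_assoc, eps_rule s v w hv hw]
    ring

lemma swap {n : ℕ} (v : Fin n) (Φ : Finset (Fin n) → Finset (Fin n) → ℝ) :
    ∑ t : Finset (Fin n), (if v ∈ t then 0 else Φ t (insert v t)) =
      ∑ r : Finset (Fin n), (if v ∈ r then Φ (r.erase v) r else 0) := by
  rw [← Finset.sum_filter_add_sum_filter_not Finset.univ (fun t : Finset (Fin n) => v ∈ t)]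
  rw [← Finset.sum_filter_add_sum_filter_not Finset.univ (fun t : Finset (Fin n) => v ∈ t)
    (fun r => (if v ∈ r then Φ (r.erase v) r else 0))]
  have e1 : ∑ x ∈ Finset.univ.filter (fun t : Finset (Fin n) => v ∈ t),
      (if v ∈ x then 0 else Φ x (insert v x)) = 0 := by
    apply Finset.sum_eq_zero
    intro x hx
    rw [if_pos (Finset.mem_filter.mp hx).2]
  have e2 : ∑ x ∈ Finset.univ.filter (fun t : Finset (Fin n) => ¬ v ∈ t),
      (if v ∈ x then Φ (x.erase v) x else 0) = 0 := by
    apply Finset.sum_eq_zero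
    intro x hx
    rw [if_neg (Finset.mem_filter.mp hx).2]
  rw [e1, e2, zero_add, add_zero]
  refine Finset.sum_bij' (fun t _ => insert v t) (fun r _ => r.erase v) ?_ ?_ ?_ ?_ ?_
  · intro t ht; simp
  · intro r hr; simp
  · intro t ht
    exact Finset.erase_insert (Finset.mem_filter.mp ht).2
  · intro r hr
    exact Finset.insert_erase (Finset.mem_filter.mp hr).2
  · intro t ht
    have := (Finset.mem_filter.mp ht).2
    rw [if_neg this, if_pos (Finset.mem_insert_self v t), Finset.erase_insert this]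

/-- adjointness of `cob` and `∑ v, con v` -/
lemma adj {n : ℕ} (G H : Finset (Fin n) → ℝ) :
    ∑ t : Finset (Fin n), G t * ∑ v, con v H t = ∑ r : Finset (Fin n), cob G r * H r := by
  have h1 : ∑ t : Finset (Fin n), G t * ∑ v, con v H t =
      ∑ v, ∑ t : Finset (Fin n), (if v ∈ t then 0 else G t * (eps t v * H (insert v t))) := by
    simp_rw [Finset.mul_sum]
    rw [Finset.sum_comm]
    apply Finset.sum_congr rfl; intro v _
    apply Finset.sum_congr rfl; intro t _
    unfold con
    split_ifs <;> simp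
  have h2 : ∀ v : Fin n, ∑ t : Finset (Fin n), (if v ∈ t then 0 else G t * (eps t v * H (insert v t))) =
      ∑ r : Finset (Fin n), (if v ∈ r then G (r.erase v) * (eps (r.erase v) v * H r) else 0) :=
    fun v => swap v (fun t r => G t * (eps t v * H r))
  rw [h1]
  simp_rw [h2]
  rw [Finset.sum_comm]
  apply Finset.sum_congr rfl; intro r _
  unfold cob
  rw [Finset.sum_mul, ← Finset.sum_filter]
  have : Finset.univ.filter (fun v => v ∈ r) = r := by ext; simp
  rw [this]
  apply Finset.sum_congr rfl; intro v _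
  rw [eps_erase_self]; ring

lemma cob_sum {n : ℕ} {ι : Type*} (S : Finset ι) (G : ι → Finset (Fin n) → ℝ) (r : Finset (Fin n)) :
    ∑ i ∈ S, cob (G i) r = cob (fun s => ∑ i ∈ S, G i s) r := by
  unfold cob
  rw [Finset.sum_comm]
  apply Finset.sum_congr rfl; intro v _
  rw [Finset.mul_sum]

/-- `n ‖F‖² = ‖cob F‖² + ‖∂ F‖²` -/
lemma pyth {n : ℕ} (F : Finset (Fin n) → ℝ) :
    (n : ℝ) * ∑ t, F t ^ 2 = ∑ r, cob F r ^ 2 + ∑ t, (∑ v, con v F t) ^ 2 := by
  have h1 : ∑ t : Finset (Fin n), F t * ∑ v, con v (cob F) t = ∑ r, cob F r ^ 2 := by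
    rw [adj]; apply Finset.sum_congr rfl; intro r _; ring
  have h2 : ∑ r : Finset (Fin n), cob (fun s => ∑ v, con v F s) r * F r =
      ∑ t, (∑ v, con v F t) ^ 2 := by
    rw [← adj]; apply Finset.sum_congr rfl; intro r _; ring
  rw [← h1, ← h2, ← Finset.sum_add_distrib, Finset.mul_sum]
  apply Finset.sum_congr rfl; intro t _
  rw [← cob_sum, mul_comm _ (F t), ← mul_add, ← Finset.sum_add_distrib]
  have : ∀ v : Fin n, con v (cob F) t + cob (con v F) t = F t := by
    intro v; rw [add_comm]; exact clifford F v t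
  simp_rw [this]
  simp
  ring

section main

variable {n : ℕ} (K : Finset (Finset (Fin n)))

/-- indicator of faces with `m` elements -/
noncomputable def ind (m : ℕ) (s : Finset (Fin n)) : ℝ := if s ∈ K ∧ s.card = m then 1 else 0

lemma con_sq (F : Finset (Fin n) → ℝ) (v : Fin n) (t : Finset (Fin n)) :
    (con v F t) ^ 2 = if v ∈ t then 0 else F (insert v t) ^ 2 := by
  unfold con
  split_ifs
  · simp
  · rw [mul_pow, pow_two (eps t v), eps_mul_self, one_mul]

lemma sum_con_sq (F : Finset (Fin n) → ℝ) (w : Finset (Fin n) → ℝ) :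
    ∑ v, ∑ t : Finset (Fin n), w t * (con v F t) ^ 2 =
      ∑ r : Finset (Fin n), (∑ v ∈ r, w (r.erase v)) * F r ^ 2 := by
  have h1 : ∀ v : Fin n, ∑ t : Finset (Fin n), w t * (con v F t) ^ 2 =
      ∑ t : Finset (Fin n), (if v ∈ t then 0 else w t * F (insert v t) ^ 2) := by
    intro v
    apply Finset.sum_congr rfl; intro t _
    rw [con_sq]; split_ifs <;> simp
  have h2 : ∀ v : Fin n, ∑ t : Finset (Fin n), (if v ∈ t then 0 else w t * F (insert v t) ^ 2) =
      ∑ r : Finset (Fin n), (if v ∈ r then w (r.erase v) * F r ^ 2 else 0) :=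
    fun v => swap v (fun t r => w t * F r ^ 2)
  simp_rw [h1, h2]
  rw [Finset.sum_comm]
  apply Finset.sum_congr rfl; intro r _
  rw [← Finset.sum_filter]
  have : Finset.univ.filter (fun v => v ∈ r) = r := by ext; simp
  rw [this, Finset.sum_mul]

/-- the main inequality in transposed form -/
lemma main_ineq (hK : ∀ s ∈ K, ∀ t : Finset (Fin n), t ⊆ s → t.Nonempty → t ∈ K)
    (k : ℕ) (hk : 1 ≤ k) (c : ℝ)
    (hc : ∀ z : Finset (Fin n) → ℝ,
      ∑ s, ind K (k + 1) s * (cob z s) ^ 2 ≤ c * ∑ s, z s ^ 2)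
    (F : Finset (Fin n) → ℝ) (hF : ∀ s, ¬ (s ∈ K ∧ s.card = k + 1) → F s = 0) :
    ∑ s, ind K (k + 2) s * (cob F s) ^ 2 ≤ c * ∑ s, F s ^ 2 := by
  have h1 : ∑ v : Fin n, ∑ s, ind K (k + 1) s * (cob (con v F) s) ^ 2 ≤
      ∑ v : Fin n, c * ∑ s, (con v F s) ^ 2 :=
    Finset.sum_le_sum (fun v _ => hc (con v F))
  -- right-hand side
  have h2 : ∑ v : Fin n, c * ∑ s, (con v F s) ^ 2 = c * ((k + 1 : ℝ) * ∑ s, F s ^ 2) := by
    rw [← Finset.mul_sum]
    congr 1
    have := sum_con_sq F (fun _ => 1)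
    simp only [one_mul] at this
    rw [this, Finset.mul_sum]
    apply Finset.sum_congr rfl; intro s _
    by_cases hs : s ∈ K ∧ s.card = k + 1
    · simp [hs.2]
    · rw [hF s hs]; simp
  -- left-hand side
  have hFind : ∀ s, ind K (k + 1) s * F s = F s := by
    intro s
    unfold ind
    split_ifs with hs
    · simp
    · rw [hF s hs]; simp
  have h3 : ∑ v : Fin n, ∑ s, ind K (k + 1) s * (cob (con v F) s) ^ 2 =
      (n : ℝ) * ∑ s, F s ^ 2 - 2 * ∑ r, cob F r ^ 2 +
        ∑ r : Finset (Fin n), (∑ v ∈ r, ind K (k + 1) (r.erase v)) * cob F r ^ 2 := by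
    rw [← sum_con_sq]
    have e1 : ∀ (v : Fin n) (s : Finset (Fin n)), ind K (k + 1) s * (cob (con v F) s) ^ 2 =
        F s ^ 2 - 2 * (F s * con v (cob F) s) + ind K (k + 1) s * (con v (cob F) s) ^ 2 := by
      intro v s
      have := clifford F v s
      have e : cob (con v F) s = F s - con v (cob F) s := by linarith
      rw [e]
      have h := hFind s
      calc ind K (k + 1) s * (F s - con v (cob F) s) ^ 2
          = (ind K (k + 1) s * F s) * F s - 2 * ((ind K (k + 1) s * F s) * con v (cob F) s)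
            + ind K (k + 1) s * (con v (cob F) s) ^ 2 := by ring
        _ = _ := by rw [h]; ring
    simp_rw [e1]
    simp_rw [Finset.sum_add_distrib, Finset.sum_sub_distrib]
    have e2 : ∑ v : Fin n, ∑ s : Finset (Fin n), F s ^ 2 = (n : ℝ) * ∑ s, F s ^ 2 := by simp
    have e3 : ∑ v : Fin n, ∑ s : Finset (Fin n), 2 * (F s * con v (cob F) s) =
        2 * ∑ r, cob F r ^ 2 := by
      simp_rw [← Finset.mul_sum]
      congr 1
      rw [Finset.sum_comm]
      simp_rw [← Finset.mul_sum]
      rw [adj]; apply Finset.sum_congr rfl; intro r _; ring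
    rw [e2, e3]
  rw [h2, h3, pyth] at h1
  have h4 : (k + 1 : ℝ) * ∑ s, ind K (k + 2) s * (cob F s) ^ 2 + ∑ r, cob F r ^ 2 ≤
      ∑ r : Finset (Fin n), (∑ v ∈ r, ind K (k + 1) (r.erase v)) * cob F r ^ 2 := by
    rw [Finset.mul_sum, ← Finset.sum_add_distrib]
    apply Finset.sum_le_sum
    intro r _
    have hnn : ∀ v ∈ r, 0 ≤ ind K (k + 1) (r.erase v) := by
      intro v _; unfold ind; split_ifs <;> norm_num
    by_cases hr : r ∈ K ∧ r.card = k + 2
    · have : ∑ v ∈ r, ind K (k + 1) (r.erase v) = (k + 2 : ℝ) := by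
        rw [Finset.sum_congr rfl (g := fun _ => (1 : ℝ))]
        · simp [hr.2]
        · intro v hv
          have hcard : (r.erase v).card = k + 1 := by
            rw [Finset.card_erase_of_mem hv, hr.2]; rfl
          unfold ind
          rw [if_pos]
          refine ⟨hK r hr.1 _ (Finset.erase_subset _ _) ?_, hcard⟩
          rw [← Finset.card_pos, hcard]; omega
      rw [this]
      have hi : ind K (k + 2) r = 1 := by unfold ind; rw [if_pos hr]
      rw [hi]
      nlinarith [sq_nonneg (cob F r)]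
    · have hi : ind K (k + 2) r = 0 := by unfold ind; rw [if_neg hr]
      rw [hi]
      by_cases hm : ∃ v ∈ r, (r.erase v) ∈ K ∧ (r.erase v).card = k + 1
      · obtain ⟨v, hv, hv'⟩ := hm
        have : 1 ≤ ∑ v ∈ r, ind K (k + 1) (r.erase v) := by
          calc (1 : ℝ) = ind K (k + 1) (r.erase v) := by unfold ind; rw [if_pos hv']
            _ ≤ _ := Finset.single_le_sum (f := fun v => ind K (k + 1) (r.erase v)) hnn hv
        nlinarith [sq_nonneg (cob F r)]
      · have : cob F r = 0 := by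
          unfold cob
          apply Finset.sum_eq_zero
          intro v hv
          rw [hF (r.erase v), mul_zero]
          intro h; exact hm ⟨v, hv, h⟩
        rw [this]
        simp
  have h5 : 0 ≤ ∑ t : Finset (Fin n), (∑ v, con v F t) ^ 2 :=
    Finset.sum_nonneg (fun _ _ => sq_nonneg _)
  have h6 : (k + 1 : ℝ) * ∑ s, ind K (k + 2) s * (cob F s) ^ 2 ≤
      (k + 1 : ℝ) * (c * ∑ s, F s ^ 2) := by
    nlinarith
  have hkpos : (0 : ℝ) < k + 1 := by positivity
  exact le_of_mul_le_mul_left h6 hkpos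

end main

/-- transposing a norm bound -/
lemma transpose_bound {ι : Type*} [Fintype ι] [DecidableEq ι] (A : Matrix ι ι ℝ) (c : ℝ)
    (h : ∀ y : ι → ℝ, (A *ᵥ y) ⬝ᵥ (A *ᵥ y) ≤ c * (y ⬝ᵥ y)) (z : ι → ℝ) :
    (Aᵀ *ᵥ z) ⬝ᵥ (Aᵀ *ᵥ z) ≤ c * (z ⬝ᵥ z) := by
  set y := Aᵀ *ᵥ z with hy
  set a := y ⬝ᵥ y with ha
  have ha0 : 0 ≤ a := by
    rw [ha]; unfold dotProduct
    exact Finset.sum_nonneg (fun i _ => mul_self_nonneg _)
  have hz0 : 0 ≤ z ⬝ᵥ z := by
    unfold dotProduct
    exact Finset.sum_nonneg (fun i _ => mul_self_nonneg _)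
  have h1 : a = z ⬝ᵥ (A *ᵥ y) := by
    rw [ha]
    nth_rewrite 1 [hy]
    rw [Matrix.mulVec_transpose, ← Matrix.dotProduct_mulVec]
  have h2 : a ^ 2 ≤ (z ⬝ᵥ z) * ((A *ᵥ y) ⬝ᵥ (A *ᵥ y)) := by
    rw [h1]
    unfold dotProduct
    have := Finset.sum_mul_sq_le_sq_mul_sq Finset.univ z (A *ᵥ y)
    simpa [pow_two] using this
  have h3 := h y
  by_cases hazero : a = 0
  · rw [hazero]
    -- need c * (z ⬝ᵥ z) ≥ 0
    by_cases hzz : z ⬝ᵥ z = 0
    · rw [hzz]; simp
    · have hzpos : 0 < z ⬝ᵥ z := lt_of_le_of_ne hz0 (Ne.symm hzz)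
      have := h z
      have h4 : 0 ≤ (A *ᵥ z) ⬝ᵥ (A *ᵥ z) := by
        unfold dotProduct
        exact Finset.sum_nonneg (fun i _ => mul_self_nonneg _)
      linarith
  · have hapos : 0 < a := lt_of_le_of_ne ha0 (Ne.symm hazero)
    have h4 : a * a ≤ a * (c * (z ⬝ᵥ z)) := by
      calc a * a = a ^ 2 := by ring
        _ ≤ (z ⬝ᵥ z) * ((A *ᵥ y) ⬝ᵥ (A *ᵥ y)) := h2
        _ ≤ (z ⬝ᵥ z) * (c * a) := mul_le_mul_of_nonneg_left h3 hz0
        _ = a * (c * (z ⬝ᵥ z)) := by ring
    exact le_of_mul_le_mul_left h4 hapos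

/-- For every finite simplicial complex and every k ≥ 1, any constant bounding the squared stretch of the boundary map ∂_k also bounds that of ∂_{k+1}; that is, the largest singular value of ∂_{k+1} is at most that of ∂_k. -/
theorem result :
    ∀ (n : ℕ) (K : Finset (Finset (Fin n))),
      (∀ s ∈ K, ∀ t : Finset (Fin n), t ⊆ s → t.Nonempty → t ∈ K) →
      ∀ D : ℕ → Matrix (Finset (Fin n)) (Finset (Fin n)) ℝ,
        (∀ (m : ℕ) (t s : Finset (Fin n)),
          D m t s =
            if s ∈ K ∧ s.card = m then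
              ∑ v ∈ s, (if t = s.erase v then
                (-1 : ℝ) ^ (Finset.filter (fun w => w < v) s).card else 0)
            else 0) →
        ∀ k : ℕ, 1 ≤ k →
          ∀ c : ℝ,
            (∀ y : Finset (Fin n) → ℝ,
              (D (k + 1) *ᵥ y) ⬝ᵥ (D (k + 1) *ᵥ y) ≤ c * (y ⬝ᵥ y)) →
            ∀ x : Finset (Fin n) → ℝ,
              (D (k + 2) *ᵥ x) ⬝ᵥ (D (k + 2) *ᵥ x) ≤ c * (x ⬝ᵥ x) := by
  intro n K hK D hD k hk c hc
  -- the transposed matrices act by the coboundary
  have hDT : ∀ (m : ℕ) (z : Finset (Fin n) → ℝ) (s : Finset (Fin n)),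
      ((D m)ᵀ *ᵥ z) s = ind K m s * cob z s := by
    intro m z s
    unfold Matrix.mulVec dotProduct
    simp only [Matrix.transpose_apply, hD]
    unfold ind
    split_ifs with hs
    · rw [one_mul]
      unfold cob
      simp_rw [Finset.sum_mul]
      rw [Finset.sum_comm]
      apply Finset.sum_congr rfl; intro v _
      rw [Finset.sum_eq_single (s.erase v)]
      · rw [if_pos rfl]; rfl
      · intro t _ ht; rw [if_neg ht, zero_mul]
      · intro h; exact absurd (Finset.mem_univ _) h
    · simp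
  have hind_sq : ∀ (m : ℕ) (s : Finset (Fin n)), ind K m s * ind K m s = ind K m s := by
    intro m s; unfold ind; split_ifs <;> norm_num
  have hnorm : ∀ (m : ℕ) (z : Finset (Fin n) → ℝ),
      ((D m)ᵀ *ᵥ z) ⬝ᵥ ((D m)ᵀ *ᵥ z) = ∑ s, ind K m s * (cob z s) ^ 2 := by
    intro m z
    unfold dotProduct
    apply Finset.sum_congr rfl; intro s _
    rw [hDT]
    calc ind K m s * cob z s * (ind K m s * cob z s)
        = (ind K m s * ind K m s) * (cob z s) ^ 2 := by ring
      _ = _ := by rw [hind_sq]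
  have hdot : ∀ z : Finset (Fin n) → ℝ, z ⬝ᵥ z = ∑ s, z s ^ 2 := by
    intro z; unfold dotProduct; apply Finset.sum_congr rfl; intro s _; ring
  have hc' : ∀ z : Finset (Fin n) → ℝ,
      ∑ s, ind K (k + 1) s * (cob z s) ^ 2 ≤ c * ∑ s, z s ^ 2 := by
    intro z
    have := transpose_bound (D (k + 1)) c hc z
    rwa [hnorm, hdot] at this
  -- c is nonnegative
  have hc0 : 0 ≤ c := by
    have h := hc (fun _ => 1)
    have h1 : 0 ≤ (D (k + 1) *ᵥ (fun _ => 1)) ⬝ᵥ (D (k + 1) *ᵥ (fun _ => 1)) := by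
      unfold dotProduct
      exact Finset.sum_nonneg (fun i _ => mul_self_nonneg _)
    have h2 : (0 : ℝ) < (fun _ : Finset (Fin n) => (1 : ℝ)) ⬝ᵥ (fun _ => 1) := by
      unfold dotProduct
      simp
    by_contra hneg
    push Not at hneg
    nlinarith
  have key : ∀ z : Finset (Fin n) → ℝ,
      ((D (k + 2))ᵀ *ᵥ z) ⬝ᵥ ((D (k + 2))ᵀ *ᵥ z) ≤ c * (z ⬝ᵥ z) := by
    intro z
    rw [hnorm, hdot]
    set F : Finset (Fin n) → ℝ := fun s => if s ∈ K ∧ s.card = k + 1 then z s else 0 with hFdef
    have hF : ∀ s, ¬ (s ∈ K ∧ s.card = k + 1) → F s = 0 := by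
      intro s hs; rw [hFdef]; simp only; rw [if_neg hs]
    have h1 := main_ineq K hK k hk c hc' F hF
    have h2 : ∑ s, ind K (k + 2) s * (cob z s) ^ 2 = ∑ s, ind K (k + 2) s * (cob F s) ^ 2 := by
      apply Finset.sum_congr rfl; intro s _
      by_cases hs : s ∈ K ∧ s.card = k + 2
      · have : cob z s = cob F s := by
          unfold cob
          apply Finset.sum_congr rfl; intro v hv
          have hcard : (s.erase v).card = k + 1 := by
            rw [Finset.card_erase_of_mem hv, hs.2]; rfl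
          have : F (s.erase v) = z (s.erase v) := by
            rw [hFdef]; simp only
            rw [if_pos]
            refine ⟨hK s hs.1 _ (Finset.erase_subset _ _) ?_, hcard⟩
            rw [← Finset.card_pos, hcard]; omega
          rw [this]
        rw [this]
      · have : ind K (k + 2) s = 0 := by unfold ind; rw [if_neg hs]
        rw [this]; simp
    have h3 : ∑ s, F s ^ 2 ≤ ∑ s, z s ^ 2 := by
      apply Finset.sum_le_sum; intro s _
      rw [hFdef]; simp only
      split_ifs
      · exact le_refl _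
      · simp; exact sq_nonneg _
    rw [h2]
    exact le_trans h1 (mul_le_mul_of_nonneg_left h3 hc0)
  intro x
  have := transpose_bound ((D (k + 2))ᵀ) c key x
  rwa [Matrix.transpose_transpose] at this

end Pool.Agent.S07755
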