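import Pool.Statements.S07785

set_option autoImplicit false
open Pool Pool.MP_29c0fe_co

namespace Pool.Agent.S07785

/-- The arc relation of the 9-vertex oriented graph, packed into the bits of a number:
bit `9 * u + v` is set exactly when `u → v` is an arc. -/
def code : ℕ := 380227184710558295549978

def arc (u v : Fin 9) : Bool := Nat.testBit code (9 * u.val + v.val)

/-- For each arc `a → b` a Hamiltonian cycle of the graph with that arc reversed, packed in
base 16. -/
def cyc (a b : Fin 9) : ℕ :=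
  ([0, 5224550976, 0, 14869352976, 19450442256, 0, 0, 0, 0, 0, 0, 21781575216, 0, 8934348336,
    8949086016, 0, 0, 0, 23227274016, 0, 0, 9519269136, 0, 10041390096, 0, 0, 0, 0, 9805587216,
    0, 0, 0, 0, 22032058176, 0, 8917571136, 0, 0, 23223288336, 0, 0, 0, 9772954896, 9787953456,
    0, 8916453456, 0, 0, 0, 0, 0, 0, 23459279376, 23746257936, 0, 0, 0, 0, 0, 9801524496, 0,
    23207621136, 0, 0, 0, 0, 23161418256, 0, 0, 0, 0, 8916588096, 0, 0, 0, 0, 8916396096, 0,
    9804412176, 0, 0] : List ℕ).getD (9 * a.val + b.val) 0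

def cycAt (a b i : Fin 9) : Fin 9 :=
  ⟨(cyc a b / 16 ^ i.val) % 16 % 9, Nat.mod_lt _ (by norm_num)⟩

theorem oriented : ∀ u v : Fin 9, arc u v = true → ¬ arc v u = true := by decide +kernel

theorem cyc_inj : ∀ a b : Fin 9, arc a b = true → ∀ i j : Fin 9,
    cycAt a b i = cycAt a b j → i = j := by decide +kernel

theorem cyc_ham : ∀ a b : Fin 9, arc a b = true → ∀ i : Fin 9,
    (arc (cycAt a b i) (cycAt a b (i + 1)) = true ∧
      ¬ (cycAt a b i = a ∧ cycAt a b (i + 1) = b)) ∨
    (cycAt a b i = b ∧ cycAt a b (i + 1) = a) := by decide +kernel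

set_option synthInstance.maxSize 100000 in
set_option maxRecDepth 100000 in
/-- No closed walk of length 9 visits nine distinct vertices. -/
theorem no_ham : ∀ a : Fin 9,
    ∀ b : Fin 9, arc a b = true → b ≠ a →
    ∀ c : Fin 9, arc b c = true → c ≠ a → c ≠ b →
    ∀ d : Fin 9, arc c d = true → d ≠ a → d ≠ b → d ≠ c →
    ∀ e : Fin 9, arc d e = true → e ≠ a → e ≠ b → e ≠ c → e ≠ d →
    ∀ f : Fin 9, arc e f = true → f ≠ a → f ≠ b → f ≠ c → f ≠ d → f ≠ e →
    ∀ g : Fin 9, arc f g = true → g ≠ a → g ≠ b → g ≠ c → g ≠ d → g ≠ e → g ≠ f →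
    ∀ h : Fin 9, arc g h = true → h ≠ a → h ≠ b → h ≠ c → h ≠ d → h ≠ e → h ≠ f → h ≠ g →
    ∀ k : Fin 9, arc h k = true → k ≠ a → k ≠ b → k ≠ c → k ≠ d → k ≠ e → k ≠ f → k ≠ g →
      k ≠ h → ¬ arc k a = true := by decide +kernel

/-- There is a finite oriented graph with at least one arc and no directed Hamiltonian cycle, such that reversing any single arc yields an oriented graph that has a directed Hamiltonian cycle. -/
theorem result :
    ∃ n : ℕ, ∃ r : Fin n → Fin n → Prop,
      (∀ u v : Fin n, r u v → ¬ r v u) ∧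
      (∃ a b : Fin n, r a b) ∧
      ¬ (∃ σ : Equiv.Perm (Fin n), ∀ i : Fin n, r (σ i) (σ (finRotate n i))) ∧
      ∀ a b : Fin n, r a b →
        ∃ σ : Equiv.Perm (Fin n), ∀ i : Fin n,
          ((r (σ i) (σ (finRotate n i)) ∧ ¬ (σ i = a ∧ σ (finRotate n i) = b)) ∨
            (σ i = b ∧ σ (finRotate n i) = a)) := by
  refine ⟨9, fun u v => arc u v = true, oriented, ⟨0, 1, by decide +kernel⟩, ?_, ?_⟩
  · rintro ⟨σ, hσ⟩
    have hr : ∀ i : Fin 9, finRotate 9 i = i + 1 := fun i => finRotate_apply i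
    have h : ∀ i : Fin 9, arc (σ i) (σ (i + 1)) = true := by
      intro i
      have := hσ i
      rwa [hr] at this
    have ne : ∀ i j : Fin 9, i ≠ j → σ i ≠ σ j := fun i j hij h => hij (σ.injective h)
    exact no_ham (σ 0)
      (σ 1) (h 0) (ne _ _ (by decide))
      (σ 2) (h 1) (ne _ _ (by decide)) (ne _ _ (by decide))
      (σ 3) (h 2) (ne _ _ (by decide)) (ne _ _ (by decide)) (ne _ _ (by decide))
      (σ 4) (h 3) (ne _ _ (by decide)) (ne _ _ (by decide)) (ne _ _ (by decide))
        (ne _ _ (by decide))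
      (σ 5) (h 4) (ne _ _ (by decide)) (ne _ _ (by decide)) (ne _ _ (by decide))
        (ne _ _ (by decide)) (ne _ _ (by decide))
      (σ 6) (h 5) (ne _ _ (by decide)) (ne _ _ (by decide)) (ne _ _ (by decide))
        (ne _ _ (by decide)) (ne _ _ (by decide)) (ne _ _ (by decide))
      (σ 7) (h 6) (ne _ _ (by decide)) (ne _ _ (by decide)) (ne _ _ (by decide))
        (ne _ _ (by decide)) (ne _ _ (by decide)) (ne _ _ (by decide)) (ne _ _ (by decide))
      (σ 8) (h 7) (ne _ _ (by decide)) (ne _ _ (by decide)) (ne _ _ (by decide))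
        (ne _ _ (by decide)) (ne _ _ (by decide)) (ne _ _ (by decide)) (ne _ _ (by decide))
        (ne _ _ (by decide)) (h 8)
  · intro a b hab
    have hinj : Function.Injective (cycAt a b) := fun i j => cyc_inj a b hab i j
    refine ⟨Equiv.ofBijective _ (Finite.injective_iff_bijective.mp hinj), ?_⟩
    intro i
    have hr : finRotate 9 i = i + 1 := finRotate_apply i
    rw [hr]
    exact cyc_ham a b hab i

end Pool.Agent.S07785
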