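import Pool.Statements.S07894
import Pool.Agent.H2CS.Final

set_option autoImplicit false
open Classical
open Pool Pool.MP_2e39f7_co

namespace Pool.Agent.S07894

/-- The negation of the preceding statement: For every ε>0, for all large enough finite abelian groups G of order N, at least a (1−ε) fraction of subsets A give a Cayley sum graph (x~y iff x≠y, x+y∈A) whose chromatic number times clique number is within factor 1±ε of N. -/
theorem result :
    ¬ (∀ ε : ℝ, 0 < ε → ∃ N₀ : ℕ, ∀ (G : Type) [AddCommGroup G] [Fintype G],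
      N₀ ≤ Fintype.card G →
      (1 - ε) * (2 : ℝ) ^ (Fintype.card G) ≤
        ((Finset.univ.filter (fun A : Finset G =>
            |((SimpleGraph.fromRel (fun x y : G => x + y ∈ A)).chromaticNumber.toNat : ℝ) *
              ((SimpleGraph.fromRel (fun x y : G => x + y ∈ A)).cliqueNum : ℝ) /
              (Fintype.card G : ℝ) - 1| ≤ ε)).card : ℝ)) := by
  intro h
  obtain ⟨N0, hN0⟩ := h (1 / 100) (by norm_num)
  obtain ⟨n, hn, hP⟩ := H2CS.exists_bad N0
  have h1 := hN0 (Fin n → ZMod 2) hn
  have h2 := H2CS.Pr_finset (V := Fin n → ZMod 2) (H2CS.Close (Fin n → ZMod 2))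
  rw [h2, div_le_iff₀ (by positivity)] at hP
  have h3 : (1 - 1 / 100) * (2 : ℝ) ^ (Fintype.card (Fin n → ZMod 2)) ≤
      (1 - 3 / 200) * (2 : ℝ) ^ (Fintype.card (Fin n → ZMod 2)) := by
    refine h1.trans (le_trans (le_of_eq ?_) hP)
    congr!
  have h4 : (0 : ℝ) < (2 : ℝ) ^ (Fintype.card (Fin n → ZMod 2)) := by positivity
  linarith

end Pool.Agent.S07894
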