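import Pool.Statements.S07895
import Pool.Agent.H606AC.Count

set_option autoImplicit false
open Classical
open Pool Pool.MP_2e5503_co

namespace Pool.Agent.S07895

/-- For every finite connected graph with minimum degree at least 3, the average size of a connected vertex set, divided by the number of vertices, is strictly greater than 1/2. -/
theorem result :
    ∀ (V : Type) [Fintype V] (G : SimpleGraph V),
      G.Connected → (∀ v : V, 3 ≤ G.degree v) →
      (1 : ℝ) / 2 <
        ((∑ S ∈ (Finset.univ : Finset (Finset V)).filter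
              (fun S : Finset V => (G.induce (S : Set V)).Connected), (S.card : ℝ)) /
          (((Finset.univ : Finset (Finset V)).filter
              (fun S : Finset V => (G.induce (S : Set V)).Connected)).card : ℝ)) /
        (Fintype.card V : ℝ) := by
  intro V _ G hG hdeg
  have hcs : ∀ S : Finset V, (G.induce (S : Set V)).Connected ↔ H606AC.CS G S :=
    fun S => (H606AC.CS_iff S).symm
  simp only [hcs]
  have hne : Nonempty V := hG.nonempty
  obtain ⟨v0⟩ := hne
  have hGu : H606AC.CS G Finset.univ := by
    refine ⟨⟨v0, Finset.mem_univ _⟩, ?_⟩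
    intro X _ hX hXne
    obtain ⟨x, hx⟩ := hX
    have : ∃ y, y ∉ X := by
      by_contra hcon
      push Not at hcon
      exact hXne (Finset.eq_univ_iff_forall.mpr hcon)
    obtain ⟨y, hyX⟩ := this
    obtain ⟨p⟩ := hG.preconnected x y
    obtain ⟨d, hd, hd1, hd2⟩ := p.exists_boundary_dart {w | w ∈ X} hx hyX
    exact ⟨d.fst, hd1, d.snd, Finset.mem_univ _, hd2, d.adj⟩
  have hdeg' : ∀ v : V, 3 ≤ (Finset.univ.filter (G.Adj v)).card := by
    intro v
    have h := hdeg v
    rw [← SimpleGraph.card_neighborFinset_eq_degree] at h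
    refine h.trans (le_of_eq ?_)
    congr 1
    ext w
    simp
  have hmain := H606AC.main_nat hGu hdeg'
  have hn : 0 < Fintype.card V := Fintype.card_pos_iff.mpr ⟨v0⟩
  have hN : 0 < (H606AC.CC G).card := Finset.card_pos.mpr
    ⟨{v0}, H606AC.mem_CC.mpr (H606AC.CS_singleton v0)⟩
  have hCC : (Finset.univ : Finset (Finset V)).filter (fun S : Finset V => H606AC.CS G S) =
      H606AC.CC G := rfl
  rw [hCC]
  have hnR : (0 : ℝ) < (Fintype.card V : ℝ) := by exact_mod_cast hn
  have hNR : (0 : ℝ) < ((H606AC.CC G).card : ℝ) := by exact_mod_cast hN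
  have hmR : (Fintype.card V : ℝ) * ((H606AC.CC G).card : ℝ) + (Fintype.card V : ℝ) ≤
      2 * ∑ S ∈ H606AC.CC G, (S.card : ℝ) := by exact_mod_cast hmain
  rw [div_div, lt_div_iff₀ (mul_pos hNR hnR)]
  nlinarith

end Pool.Agent.S07895
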