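import Pool.Statements.S07938
-- import your own Pool.Agent.* helpers here

set_option autoImplicit false
open Pool Pool.MP_308b22_co

namespace Pool.Agent.S07938

/-- The nine points: arcs `tail → head` of a cubic strongly connected orientation of `K_{3,3}`,
written as `e_tail - e_head` with the sixth coordinate dropped. -/
def arcZ : Fin 9 → Fin 5 → ℤ :=
  ![![1, -1, 0, 0, 0], ![0, 1, -1, 0, 0], ![0, 0, 1, -1, 0], ![0, 0, 0, 1, -1],
    ![0, 0, 0, 0, 1], ![-1, 0, 0, 0, 0], ![1, 0, 0, -1, 0], ![0, 0, 1, 0, 0],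
    ![0, -1, 0, 0, 1]]

/-- Seven potentials. -/
def potZ : Fin 7 → Fin 5 → ℤ :=
  ![![-1, -2, 3, 2, 1], ![-1, 2, 1, -2, 3], ![-1, -3, 1, -2, 2], ![-1, -4, 1, -2, -3],
    ![-1, -2, -3, -4, 1], ![3, -1, 4, 2, 1], ![3, 2, 1, -1, 4]]

/-- Every two-colouring of the nine arcs has a colour class on which one of the potentials is
strictly increasing. -/
theorem colour : ∀ g : Fin 9 → Bool, ∃ k : Fin 7, ∃ c : Bool, ∀ e : Fin 9, g e = c →
    0 < ∑ i : Fin 5, potZ k i * arcZ e i := by
  have key : ∀ g : Fin 9 → Bool, ∃ k : Fin 7, ∃ c : Bool, ∀ e : Fin 9, g e = c →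
      (![445, 502, 501, 493, 375, 477, 471] k : ℕ).testBit e = true := by decide +kernel
  have key2 : ∀ k : Fin 7, ∀ e : Fin 9,
      (![445, 502, 501, 493, 375, 477, 471] k : ℕ).testBit e = true →
      0 < ∑ i : Fin 5, potZ k i * arcZ e i := by decide +kernel
  intro g
  obtain ⟨k, c, h⟩ := key g
  exact ⟨k, c, fun e he => key2 k e (h e he)⟩

/-- The points in `ℝ⁵`. -/
noncomputable def pt (e : Fin 9) : EuclideanSpace ℝ (Fin 5) :=
  WithLp.toLp 2 (fun i => (arcZ e i : ℝ))

theorem pt_apply (e : Fin 9) (i : Fin 5) : pt e i = (arcZ e i : ℝ) := rfl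

theorem arcZ_inj : Function.Injective arcZ := by
  have : ∀ a b : Fin 9, (∀ i, arcZ a i = arcZ b i) → a = b := by decide
  intro a b h
  exact this a b (fun i => congrFun h i)

theorem pt_inj : Function.Injective pt := by
  intro a b h
  apply arcZ_inj
  funext i
  have := congrArg (fun v : EuclideanSpace ℝ (Fin 5) => v i) h
  simp only [pt_apply] at this
  exact_mod_cast this

open Classical in
/-- The set of the nine points. -/
noncomputable def S : Finset (EuclideanSpace ℝ (Fin 5)) := Finset.univ.image pt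

theorem mem_S {x : EuclideanSpace ℝ (Fin 5)} : x ∈ S ↔ ∃ e, pt e = x := by
  classical
  simp [S]

theorem inner_eq (a x : EuclideanSpace ℝ (Fin 5)) :
    (inner ℝ a x : ℝ) = ∑ i, a i * x i := by
  simp [PiLp.inner_apply, mul_comm]

theorem sum5 (f : Fin 5 → ℝ) : ∑ i, f i = f 0 + f 1 + f 2 + f 3 + f 4 := by
  simp [Fin.sum_univ_succ]; ring

/-- Every closed half-space containing `0` holds two of the points. -/
theorem two_le (a : EuclideanSpace ℝ (Fin 5)) (b : ℝ) (hb : 0 ≤ b) :
    2 ≤ (S.filter (fun x => inner ℝ a x ≤ b)).card := by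
  classical
  by_contra hlt
  have hle : (S.filter (fun x => inner ℝ a x ≤ b)).card ≤ 1 := by omega
  rw [Finset.card_le_one] at hle
  have huniq : ∀ e e' : Fin 9, inner ℝ a (pt e) ≤ b → inner ℝ a (pt e') ≤ b → e = e' := by
    intro e e' h h'
    apply pt_inj
    apply hle
    · simp only [Finset.mem_filter]
      exact ⟨mem_S.2 ⟨e, rfl⟩, h⟩
    · simp only [Finset.mem_filter]
      exact ⟨mem_S.2 ⟨e', rfl⟩, h'⟩
  have h0 : inner ℝ a (pt 0) = a 0 - a 1 := by
    rw [inner_eq, sum5]; simp [pt_apply, arcZ]; ring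
  have h1 : inner ℝ a (pt 1) = a 1 - a 2 := by
    rw [inner_eq, sum5]; simp [pt_apply, arcZ]; ring
  have h2 : inner ℝ a (pt 2) = a 2 - a 3 := by
    rw [inner_eq, sum5]; simp [pt_apply, arcZ]; ring
  have h3 : inner ℝ a (pt 3) = a 3 - a 4 := by
    rw [inner_eq, sum5]; simp [pt_apply, arcZ]; ring
  have h4 : inner ℝ a (pt 4) = a 4 := by
    rw [inner_eq, sum5]; simp [pt_apply, arcZ]
  have h5 : inner ℝ a (pt 5) = -a 0 := by
    rw [inner_eq, sum5]; simp [pt_apply, arcZ]
  have h6 : inner ℝ a (pt 6) = a 0 - a 3 := by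
    rw [inner_eq, sum5]; simp [pt_apply, arcZ]; ring
  have h7 : inner ℝ a (pt 7) = a 2 := by
    rw [inner_eq, sum5]; simp [pt_apply, arcZ]
  have h8 : inner ℝ a (pt 8) = a 4 - a 1 := by
    rw [inner_eq, sum5]; simp [pt_apply, arcZ]; ring
  -- some arc of the hexagon is nonpositive
  have hex : ∃ e : Fin 9, inner ℝ a (pt e) ≤ b := by
    by_contra hno
    push Not at hno
    have t0 := hno 0; have t1 := hno 1; have t2 := hno 2; have t3 := hno 3
    have t4 := hno 4; have t5 := hno 5
    rw [h0] at t0; rw [h1] at t1; rw [h2] at t2; rw [h3] at t3; rw [h4] at t4; rw [h5] at t5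
    linarith
  obtain ⟨e, he⟩ := hex
  have hpos : ∀ e' : Fin 9, e' ≠ e → b < inner ℝ a (pt e') := by
    intro e' hne
    by_contra hcon
    push Not at hcon
    exact hne (huniq e' e hcon he)
  -- cycles: C1 = 0,1,2,3,4,5;  C2 = 6,3,4,5;  C3 = 1,2,3,8;  C4 = 0,1,7,5
  fin_cases e
  · -- avoid 0 : C2
    have t3 := hpos 3 (by decide); have t4 := hpos 4 (by decide); have t5 := hpos 5 (by decide)
    have t6 := hpos 6 (by decide)
    rw [h3] at t3; rw [h4] at t4; rw [h5] at t5; rw [h6] at t6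
    linarith
  · have t3 := hpos 3 (by decide); have t4 := hpos 4 (by decide); have t5 := hpos 5 (by decide)
    have t6 := hpos 6 (by decide)
    rw [h3] at t3; rw [h4] at t4; rw [h5] at t5; rw [h6] at t6
    linarith
  · have t3 := hpos 3 (by decide); have t4 := hpos 4 (by decide); have t5 := hpos 5 (by decide)
    have t6 := hpos 6 (by decide)
    rw [h3] at t3; rw [h4] at t4; rw [h5] at t5; rw [h6] at t6
    linarith
  · -- avoid 3 : C4
    have t0 := hpos 0 (by decide); have t1 := hpos 1 (by decide); have t7 := hpos 7 (by decide)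
    have t5 := hpos 5 (by decide)
    rw [h0] at t0; rw [h1] at t1; rw [h5] at t5; rw [h7] at t7
    linarith
  · -- avoid 4 : C4
    have t0 := hpos 0 (by decide); have t1 := hpos 1 (by decide); have t7 := hpos 7 (by decide)
    have t5 := hpos 5 (by decide)
    rw [h0] at t0; rw [h1] at t1; rw [h5] at t5; rw [h7] at t7
    linarith
  · -- avoid 5 : C3
    have t1 := hpos 1 (by decide); have t2 := hpos 2 (by decide); have t3 := hpos 3 (by decide)
    have t8 := hpos 8 (by decide)
    rw [h1] at t1; rw [h2] at t2; rw [h3] at t3; rw [h8] at t8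
    linarith
  · -- avoid 6 : C1
    have t1 := hpos 1 (by decide); have t2 := hpos 2 (by decide); have t3 := hpos 3 (by decide)
    have t8 := hpos 8 (by decide)
    rw [h1] at t1; rw [h2] at t2; rw [h3] at t3; rw [h8] at t8
    linarith
  · have t1 := hpos 1 (by decide); have t2 := hpos 2 (by decide); have t3 := hpos 3 (by decide)
    have t8 := hpos 8 (by decide)
    rw [h1] at t1; rw [h2] at t2; rw [h3] at t3; rw [h8] at t8
    linarith
  · -- avoid 8 : C1
    have t0 := hpos 0 (by decide); have t1 := hpos 1 (by decide); have t7 := hpos 7 (by decide)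
    have t5 := hpos 5 (by decide)
    rw [h0] at t0; rw [h1] at t1; rw [h5] at t5; rw [h7] at t7
    linarith

/-- The `2`-core of the nine points. -/
def core : Set (EuclideanSpace ℝ (Fin 5)) :=
  {z : EuclideanSpace ℝ (Fin 5) |
    ∀ (a : EuclideanSpace ℝ (Fin 5)) (b : ℝ), a ≠ 0 → inner ℝ a z ≤ b →
      2 ≤ (S.filter (fun x => inner ℝ a x ≤ b)).card}

theorem zero_mem_core : (0 : EuclideanSpace ℝ (Fin 5)) ∈ core := by
  intro a b _ hb
  simp only [inner_zero_right] at hb
  exact two_le a b hb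

theorem inner_single_left (i : Fin 5) (r : ℝ) (z : EuclideanSpace ℝ (Fin 5)) :
    (inner ℝ (EuclideanSpace.single i r) z : ℝ) = r * z i := by
  rw [inner_eq]
  rw [Finset.sum_eq_single i]
  · simp
  · intro j _ hj
    simp [hj]
  · simp

/-- Sign constraints on the core. If only one arc has `sg * x_i < 0` then `0 ≤ sg * z_i` on the core. -/
theorem sign_core (i : Fin 5) (sg : ℤ) (hsg : sg ≠ 0)
    (huniq : ∀ e e' : Fin 9, sg * arcZ e i < 0 → sg * arcZ e' i < 0 → e = e')
    {z : EuclideanSpace ℝ (Fin 5)} (hz : z ∈ core) : 0 ≤ (sg : ℝ) * z i := by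
  classical
  by_contra hneg
  push Not at hneg
  have h := hz (EuclideanSpace.single i (sg : ℝ)) ((sg : ℝ) * z i)
    (by
      intro h0
      have := congrArg (fun v : EuclideanSpace ℝ (Fin 5) => v i) h0
      simp at this
      exact hsg this)
    (by rw [inner_single_left])
  have hle : (S.filter (fun x => inner ℝ (EuclideanSpace.single i (sg : ℝ)) x
      ≤ (sg : ℝ) * z i)).card ≤ 1 := by
    rw [Finset.card_le_one]
    intro x hx y hy
    simp only [Finset.mem_filter, inner_single_left] at hx hy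
    obtain ⟨hxS, hx⟩ := hx
    obtain ⟨hyS, hy⟩ := hy
    obtain ⟨e, rfl⟩ := mem_S.1 hxS
    obtain ⟨e', rfl⟩ := mem_S.1 hyS
    rw [pt_apply] at hx hy
    have h1 : (sg * arcZ e i : ℝ) < 0 := lt_of_le_of_lt hx hneg
    have h2 : (sg * arcZ e' i : ℝ) < 0 := lt_of_le_of_lt hy hneg
    have h1' : sg * arcZ e i < 0 := by exact_mod_cast h1
    have h2' : sg * arcZ e' i < 0 := by exact_mod_cast h2
    rw [huniq e e' h1' h2']
  omega

/-- The sign pattern of the core at `0`. -/
def sgn : Fin 5 → ℤ := ![1, -1, 1, -1, 1]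

theorem sgn_uniq : ∀ (i : Fin 5) (e e' : Fin 9), sgn i * arcZ e i < 0 → sgn i * arcZ e' i < 0 →
    e = e' := by decide +kernel

theorem sgn_ne : ∀ i : Fin 5, sgn i ≠ 0 := by decide

theorem zero_mem_extreme :
    (0 : EuclideanSpace ℝ (Fin 5)) ∈ Set.extremePoints ℝ core := by
  refine ⟨zero_mem_core, ?_⟩
  intro x₁ h₁ x₂ h₂ hseg
  obtain ⟨α, β, hα, hβ, _, hsum⟩ := hseg
  ext i
  have s1 := sign_core i (sgn i) (sgn_ne i) (sgn_uniq i) h₁
  have s2 := sign_core i (sgn i) (sgn_ne i) (sgn_uniq i) h₂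
  have hi : α * x₁ i + β * x₂ i = 0 := by
    have := congrArg (fun v : EuclideanSpace ℝ (Fin 5) => v i) hsum
    simpa using this
  have hs : (sgn i : ℝ) ≠ 0 := by exact_mod_cast sgn_ne i
  have h1 : α * ((sgn i : ℝ) * x₁ i) + β * ((sgn i : ℝ) * x₂ i) = 0 := by
    have : α * ((sgn i : ℝ) * x₁ i) + β * ((sgn i : ℝ) * x₂ i)
        = (sgn i : ℝ) * (α * x₁ i + β * x₂ i) := by ring
    rw [this, hi, mul_zero]
  have h2 : 0 ≤ α * ((sgn i : ℝ) * x₁ i) := by positivity
  have h3 : 0 ≤ β * ((sgn i : ℝ) * x₂ i) := by positivity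
  have h4 : α * ((sgn i : ℝ) * x₁ i) = 0 := by linarith
  have h5 : (sgn i : ℝ) * x₁ i = 0 := by
    rcases mul_eq_zero.1 h4 with h | h
    · exact absurd h hα.ne'
    · exact h
  rcases mul_eq_zero.1 h5 with h | h
  · exact absurd h hs
  · simpa using h

/-- `0` is not a Radon point of the nine points. -/
theorem not_divisible : ¬ ∃ f : EuclideanSpace ℝ (Fin 5) → Fin 2, ∀ i : Fin 2,
    (0 : EuclideanSpace ℝ (Fin 5)) ∈ convexHull ℝ
      ((S.filter (fun x => f x = i) : Finset (EuclideanSpace ℝ (Fin 5))) :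
        Set (EuclideanSpace ℝ (Fin 5))) := by
  classical
  rintro ⟨f, hf⟩
  obtain ⟨k, c, hk⟩ := colour (fun e => decide (f (pt e) = 0))
  set u : EuclideanSpace ℝ (Fin 5) := WithLp.toLp 2 (fun i => (potZ k i : ℝ)) with hu
  have hpos : ∀ e : Fin 9, decide (f (pt e) = 0) = c → 0 < (inner ℝ u (pt e) : ℝ) := by
    intro e he
    have h := hk e he
    rw [inner_eq]
    have h' : (0 : ℝ) < ((∑ i : Fin 5, potZ k i * arcZ e i : ℤ) : ℝ) := by exact_mod_cast h
    have h2 : ((∑ i : Fin 5, potZ k i * arcZ e i : ℤ) : ℝ) = ∑ i, u i * pt e i := by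
      push_cast
      rfl
    rw [← h2]
    exact h'
  -- the colour
  have hex : ∃ i : Fin 2, ∀ e : Fin 9, f (pt e) = i → decide (f (pt e) = 0) = c := by
    cases c with
    | true => exact ⟨0, fun e he => by simp [he]⟩
    | false => exact ⟨1, fun e he => by simp [he]⟩
  obtain ⟨i, hi⟩ := hex
  have hsub : convexHull ℝ
      ((S.filter (fun x => f x = i) : Finset (EuclideanSpace ℝ (Fin 5))) :
        Set (EuclideanSpace ℝ (Fin 5))) ⊆ {x | 0 < (inner ℝ u x : ℝ)} := by
    apply convexHull_min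
    · intro x hx
      simp only [Finset.coe_filter, Set.mem_ofPred_eq] at hx
      obtain ⟨hxS, hx⟩ := hx
      obtain ⟨e, rfl⟩ := mem_S.1 hxS
      exact hpos e (hi e hx)
    · intro x hx y hy α β hα hβ hab
      simp only [Set.mem_ofPred_eq] at hx hy ⊢
      rw [inner_add_right, inner_smul_right, inner_smul_right]
      rcases hα.eq_or_lt with h | h
      · have : β = 1 := by linarith
        rw [← h, this]; simpa using hy
      · have : 0 ≤ β * (inner ℝ u y : ℝ) := mul_nonneg hβ hy.le
        have : 0 < α * (inner ℝ u x : ℝ) := mul_pos h hx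
        linarith
  have := hsub (hf i)
  simp at this

/-- The negation of the preceding statement: For d,m ≥ 1 and finite S in R^d, every extreme point of the m-core (points whose every containing closed half-space holds at least m points of S) admits a partition of S into m parts whose convex hulls all contain it. -/
theorem result :
    ¬ (∀ (d m : ℕ), 1 ≤ d → 1 ≤ m → ∀ (S : Finset (EuclideanSpace ℝ (Fin d))),
      ∀ y ∈ Set.extremePoints ℝ
          {z : EuclideanSpace ℝ (Fin d) |
            ∀ (a : EuclideanSpace ℝ (Fin d)) (b : ℝ), a ≠ 0 → inner ℝ a z ≤ b →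
              m ≤ (S.filter (fun x => inner ℝ a x ≤ b)).card},
        ∃ f : EuclideanSpace ℝ (Fin d) → Fin m, ∀ i : Fin m,
          y ∈ convexHull ℝ
            ((S.filter (fun x => f x = i) : Finset (EuclideanSpace ℝ (Fin d))) :
              Set (EuclideanSpace ℝ (Fin d)))) := by
  intro h
  exact not_divisible (h 5 2 (by norm_num) (by norm_num) S 0 zero_mem_extreme)

end Pool.Agent.S07938
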