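import Pool.Statements.S07942
-- import your own Pool.Agent.* helpers here

set_option autoImplicit false
open Pool Pool.MP_30ed83_co

namespace Pool.Agent.S07942

open SimpleGraph

/-- the claw `K_{1,3}` with centre `0` -/
def claw : SimpleGraph (Fin 4) where
  Adj a b := a ≠ b ∧ (a = 0 ∨ b = 0)
  symm := ⟨fun _ _ h => ⟨h.1.symm, h.2.symm⟩⟩
  loopless := ⟨fun _ h => h.1 rfl⟩

theorem claw_colorable : claw.Colorable 2 :=
  ⟨Coloring.mk (fun a => if a = 0 then 0 else 1) (by
    intro a b h
    obtain ⟨hne, h0⟩ := h
    rcases h0 with h0 | h0
    · subst h0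
      simp [Ne.symm hne]
    · subst h0
      simp [hne])⟩

theorem length_induce_walk {V : Type} {G : SimpleGraph V} (s : Set V) {u v : V}
    (w : G.Walk u v) (hw : ∀ x ∈ w.support, x ∈ s) : (w.induce s hw).length = w.length := by
  induction w with
  | nil => rfl
  | cons h p ih => simp [Walk.length_cons, ih]

/-- In a shortest odd closed walk, each vertex has at most two neighbours among the
vertices of the walk: any neighbour is next to it along the walk. -/
theorem nbr_pos {V : Type} [DecidableEq V] {G : SimpleGraph V} {v : V} (w : G.Walk v v)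
    (hodd : Odd w.length)
    (hmin : ∀ (u : V) (p : G.Walk u u), Odd p.length → w.length ≤ p.length)
    {x : V} (hx : x ∈ w.support) (hadj : G.Adj v x) :
    x = w.getVert 1 ∨ x = w.getVert (w.length - 1) := by
  set i := (w.takeUntil x hx).length with hi
  have hsum : (w.takeUntil x hx).length + (w.dropUntil x hx).length = w.length := by
    rw [← Walk.length_append, Walk.take_spec]
  have hgv : w.getVert i = x := Walk.getVert_length_takeUntil hx
  have h1 : Odd (i + 1) → w.length ≤ i + 1 := by
    intro ho
    have := hmin v ((w.takeUntil x hx).concat hadj.symm) (by rw [Walk.length_concat]; exact ho)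
    rwa [Walk.length_concat] at this
  have h2 : Odd ((w.dropUntil x hx).length + 1) →
      w.length ≤ (w.dropUntil x hx).length + 1 := by
    intro ho
    have := hmin v (Walk.cons hadj (w.dropUntil x hx)) (by rw [Walk.length_cons]; exact ho)
    rwa [Walk.length_cons] at this
  rcases Nat.even_or_odd i with hev | hod
  · -- i+1 odd
    have h3 := h1 hev.add_one
    have h4 : i ≠ w.length := by
      intro h
      rw [h] at hev
      exact (Nat.not_even_iff_odd.2 hodd) hev
    right
    have : w.length - 1 = i := by omega
    rw [this, hgv]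
  · have hde : Even (w.dropUntil x hx).length := by
      have h5 : (w.dropUntil x hx).length = w.length - i := by omega
      rw [h5]
      exact Nat.Odd.sub_odd hodd hod
    have h3 := h2 hde.add_one
    have h4 : i ≠ 0 := by
      rintro h
      rw [h] at hod
      simp at hod
    left
    have : i = 1 := by omega
    rw [← this, hgv]

/-- The negation of the preceding statement: For every finite graph F with an edge and every r, some finite graph G has chromatic number above r and clique number equal to F's, and every induced subgraph of G with no induced copy of F has chromatic number at most that of F. -/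
theorem result :
    ¬ (∀ (n : ℕ) (F : SimpleGraph (Fin n)), F ≠ ⊥ →
      ∀ r : ℕ, ∃ (m : ℕ) (G : SimpleGraph (Fin m)),
        (r : ℕ∞) < G.chromaticNumber ∧
        G.cliqueNum = F.cliqueNum ∧
        ∀ s : Set (Fin m), ¬ F.IsIndContained (G.induce s) →
          (G.induce s).chromaticNumber ≤ F.chromaticNumber) := by
  intro h
  have hne : claw ≠ ⊥ := by
    intro hb
    have : claw.Adj 0 1 := ⟨by decide, Or.inl rfl⟩
    rw [hb] at this
    exact this
  obtain ⟨m, G, hχ, -, hG⟩ := h 4 claw hne 2
  have hnc : ¬ G.Colorable 2 := fun hc => not_lt.2 hc.chromaticNumber_le hχ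
  rw [two_colorable_iff_forall_loop_even] at hnc
  push Not at hnc
  -- a shortest odd closed walk
  have hex : ∃ l : ℕ, Odd l ∧ ∃ (u : Fin m) (w : G.Walk u u), w.length = l := by
    obtain ⟨u, w, hw⟩ := hnc
    exact ⟨w.length, Nat.not_even_iff_odd.1 hw, u, w, rfl⟩
  classical
  obtain ⟨hLodd, u, w, hwL⟩ := Nat.find_spec hex
  have hmin : ∀ (u' : Fin m) (p : G.Walk u' u'), Odd p.length → w.length ≤ p.length := by
    intro u' p hp
    rw [hwL]
    exact Nat.find_min' hex ⟨hp, u', p, rfl⟩
  have hodd : Odd w.length := by rw [hwL]; exact hLodd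
  set s : Set (Fin m) := {x | x ∈ w.support} with hs
  have hclaw : ¬ claw.IsIndContained (G.induce s) := by
    rintro ⟨f⟩
    have hadj : ∀ i : Fin 4, i ≠ 0 → G.Adj (f 0 : Fin m) (f i : Fin m) := by
      intro i hi
      have : claw.Adj 0 i := ⟨hi.symm, Or.inl rfl⟩
      have h2 := f.map_adj_iff.2 this
      exact h2
    have h0 : (f 0 : Fin m) ∈ w.support := (f 0).2
    have key : ∀ i : Fin 4, i ≠ 0 →
        (f i : Fin m) = (w.rotate _ h0).getVert 1 ∨
        (f i : Fin m) = (w.rotate _ h0).getVert ((w.rotate _ h0).length - 1) := by
      intro i hi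
      refine nbr_pos (w.rotate _ h0) (by rw [Walk.length_rotate]; exact hodd) ?_ ?_ (hadj i hi)
      · intro u' p hp
        rw [Walk.length_rotate]
        exact hmin u' p hp
      · rw [Walk.mem_support_rotate_iff]
        exact (f i).2
    have hinj : ∀ i j : Fin 4, i ≠ j → (f i : Fin m) ≠ (f j : Fin m) := by
      intro i j hij h
      exact hij (f.injective (Subtype.ext h))
    have k1 := key 1 (by decide)
    have k2 := key 2 (by decide)
    have k3 := key 3 (by decide)
    have n12 := hinj 1 2 (by decide)
    have n13 := hinj 1 3 (by decide)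
    have n23 := hinj 2 3 (by decide)
    rcases k1 with k1 | k1 <;> rcases k2 with k2 | k2 <;> rcases k3 with k3 | k3 <;>
      first
        | exact n12 (k1.trans k2.symm)
        | exact n13 (k1.trans k3.symm)
        | exact n23 (k2.trans k3.symm)
  have hle := (hG s hclaw).trans claw_colorable.chromaticNumber_le
  have hcol : (G.induce s).Colorable 2 := chromaticNumber_le_iff_colorable.1 hle
  rw [two_colorable_iff_forall_loop_even] at hcol
  have hev := hcol _ (w.induce s (fun x hx => hx))
  rw [length_induce_walk] at hev
  exact (Nat.not_even_iff_odd.2 hodd) hev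

end Pool.Agent.S07942
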