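import Pool.Statements.S07947

set_option autoImplicit false
open Classical
open Pool Pool.MP_31464c_co

namespace Pool.Agent.S07947

/-- Two edges of a path at its first vertex coincide. -/
lemma start_unique {V : Type*} {G : SimpleGraph V} {u v : V} (p : G.Walk u v) (hp : p.IsPath)
    (a b : V) (ha : s(u, a) ∈ p.edges) (hb : s(u, b) ∈ p.edges) : a = b := by
  cases p with
  | nil => simp at ha
  | @cons _ w _ h q =>
    rw [SimpleGraph.Walk.cons_isPath_iff] at hp
    rw [SimpleGraph.Walk.edges_cons, List.mem_cons] at ha hb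
    have key : ∀ c, (s(u, c) = s(u, w) ∨ s(u, c) ∈ q.edges) → c = w := by
      intro c hc
      rcases hc with hc | hc
      · rw [Sym2.eq_iff] at hc
        rcases hc with ⟨_, h2⟩ | ⟨h1, h2⟩
        · exact h2
        · rw [h2, h1]
      · exact absurd (SimpleGraph.Walk.fst_mem_support_of_mem_edges _ hc) hp.2
    rw [key a ha, key b hb]

/-- A path has at most two edges at every vertex. -/
lemma no_three {V : Type*} {G : SimpleGraph V} {u v : V} (p : G.Walk u v) (hp : p.IsPath)
    (x a b c : V) (hab : a ≠ b) (hac : a ≠ c) (hbc : b ≠ c)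
    (ha : s(x, a) ∈ p.edges) (hb : s(x, b) ∈ p.edges) (hc : s(x, c) ∈ p.edges) : False := by
  induction p with
  | nil => simp at ha
  | @cons u w v h q ih =>
    by_cases hx : x = u
    · subst hx
      exact hab (start_unique _ hp a b ha hb)
    · have hq := (SimpleGraph.Walk.cons_isPath_iff _ _).1 hp
      rw [SimpleGraph.Walk.edges_cons, List.mem_cons] at ha hb hc
      have key : ∀ d, (s(x, d) = s(u, w) ∨ s(x, d) ∈ q.edges) →
          (x = w ∧ d = u) ∨ s(x, d) ∈ q.edges := by
        intro d hd
        rcases hd with hd | hd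
        · rw [Sym2.eq_iff] at hd
          rcases hd with ⟨h1, _⟩ | ⟨h1, h2⟩
          · exact absurd h1 hx
          · exact Or.inl ⟨h1, h2⟩
        · exact Or.inr hd
      rcases key a ha with ⟨h1, h2⟩ | ha'
      · rcases key b hb with ⟨_, h3⟩ | hb'
        · exact hab (h2.trans h3.symm)
        · rcases key c hc with ⟨_, h4⟩ | hc'
          · exact hac (h2.trans h4.symm)
          · subst h1
            exact hbc (start_unique q hq.1 b c hb' hc')
      · rcases key b hb with ⟨h1, h2⟩ | hb'
        · rcases key c hc with ⟨_, h4⟩ | hc'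
          · exact hbc (h2.trans h4.symm)
          · subst h1
            exact hac (start_unique q hq.1 a c ha' hc')
        · rcases key c hc with ⟨h1, h2⟩ | hc'
          · subst h1
            exact hab (start_unique q hq.1 a b ha' hb')
          · exact ih hq.1 ha' hb' hc'

/-- A walk with no edge leaving `A` that visits `A` stays in `A`. -/
lemma stay {V : Type*} {G : SimpleGraph V} (A : Set V) {u v : V} (p : G.Walk u v)
    (hp : ∀ x y, s(x, y) ∈ p.edges → (x ∈ A ↔ y ∈ A)) :
    ∀ x ∈ p.support, (x ∈ A ↔ u ∈ A) := by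
  induction p with
  | nil =>
    intro x hx
    simp at hx
    rw [hx]
  | @cons u w v h q ih =>
    intro x hx
    rw [SimpleGraph.Walk.support_cons, List.mem_cons] at hx
    rcases hx with rfl | hx
    · rfl
    · rw [ih (fun a b hab => hp a b (by
        rw [SimpleGraph.Walk.edges_cons, List.mem_cons]; exact Or.inr hab)) x hx]
      exact (hp u w (by rw [SimpleGraph.Walk.edges_cons, List.mem_cons]; exact Or.inl rfl)).symm

/-- The disjoint union of a complete graph on four vertices and a triangle. -/
def G : SimpleGraph (Fin 7) where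
  Adj x y := x ≠ y ∧ (x.val < 4 ↔ y.val < 4)
  symm := by
    constructor
    intro x y h
    exact ⟨h.1.symm, h.2.symm⟩
  loopless := by
    constructor
    intro x h
    exact h.1 rfl

lemma nbr (x : Fin 7) [Fintype (G.neighborSet x)] :
    G.neighborFinset x = Finset.univ.filter (fun y => x ≠ y ∧ (x.val < 4 ↔ y.val < 4)) := by
  ext y
  rw [SimpleGraph.mem_neighborFinset, Finset.mem_filter]
  exact ⟨fun h => ⟨Finset.mem_univ _, h⟩, fun h => h.2⟩

lemma deg (x : Fin 7) [Fintype (G.neighborSet x)] :
    G.degree x = if x.val < 4 then 3 else 2 := by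
  rw [← SimpleGraph.card_neighborFinset_eq_degree, nbr]
  have : ∀ z : Fin 7, (@Finset.filter (Fin 7) (fun y => z ≠ y ∧ (z.val < 4 ↔ y.val < 4))
      (fun y => instDecidableAnd) Finset.univ).card = if z.val < 4 then 3 else 2 := by decide
  rw [← this x]

theorem result :
    ∃ (n : ℕ) (G : SimpleGraph (Fin n)),
      ∀ k : ℕ,
        k ≤ max ((Finset.univ.filter (fun x : Fin n => Odd (G.degree x))).card / 2)
                ((G.maxDegree + 2) / 2) →
        ¬ ∃ (u w : Fin k → Fin n)
            (P : ∀ i : Fin k, (⊤ : SimpleGraph (Fin n)).Walk (u i) (w i)),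
            (∀ i, (P i).IsPath) ∧
            ∀ e : Sym2 (Fin n),
              (Odd ((Finset.univ.filter (fun i : Fin k => e ∈ (P i).edges)).card)
                ↔ e ∈ G.edgeSet) := by
  refine ⟨7, G, ?_⟩
  intro k hk
  have hodd : (Finset.univ.filter (fun x : Fin 7 => Odd (G.degree x))).card = 4 := by
    have h1 : (Finset.univ.filter (fun x : Fin 7 => Odd (G.degree x))) =
        (Finset.univ.filter (fun x : Fin 7 => x.val < 4)) := by
      ext x
      simp only [Finset.mem_filter, Finset.mem_univ, true_and, deg]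
      split_ifs with h
      · simp only [h, iff_true]; decide
      · simp only [h, iff_false]; decide
    rw [h1]
    have h2 : (@Finset.filter (Fin 7) (fun x => x.val < 4) (fun x => Nat.decLt _ _)
      Finset.univ).card = 4 := by decide
    rw [← h2]
    congr
  have hmax : G.maxDegree ≤ 3 := by
    apply SimpleGraph.maxDegree_le_of_forall_degree_le
    intro v
    rw [deg]
    split_ifs <;> omega
  rw [hodd] at hk
  have hk2 : k ≤ 2 := by
    refine hk.trans (max_le (by norm_num) ?_)
    omega
  rintro ⟨u, w, P, hP, hE⟩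
  have g01 : s((0 : Fin 7), 1) ∈ G.edgeSet := by
    rw [SimpleGraph.mem_edgeSet]; exact ⟨by decide, by decide⟩
  interval_cases k
  · -- no paths
    have := (hE s((0 : Fin 7), 1)).2 g01
    simp at this
  · -- one path
    have key : ∀ e ∈ G.edgeSet, e ∈ (P 0).edges := by
      intro e he
      have := (hE e).2 he
      by_contra hc
      have h0 : (Finset.univ.filter (fun i : Fin 1 => e ∈ (P i).edges)) = ∅ := by
        ext i
        have hi : i = 0 := Subsingleton.elim _ _
        subst hi
        simp [hc]
      rw [h0] at this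
      simp at this
    refine no_three (P 0) (hP 0) 0 1 2 3 (by decide) (by decide) (by decide) ?_ ?_ ?_
    · exact key _ g01
    · exact key _ (by rw [SimpleGraph.mem_edgeSet]; exact ⟨by decide, by decide⟩)
    · exact key _ (by rw [SimpleGraph.mem_edgeSet]; exact ⟨by decide, by decide⟩)
  · -- two paths
    have hE2 : ∀ e : Sym2 (Fin 7), e ∈ G.edgeSet ↔
        ((e ∈ (P 0).edges ∧ e ∉ (P 1).edges) ∨ (e ∉ (P 0).edges ∧ e ∈ (P 1).edges)) := by
      intro e
      rw [← hE e, Finset.card_filter, Fin.sum_univ_two]
      by_cases h0 : e ∈ (P 0).edges <;> by_cases h1 : e ∈ (P 1).edges <;> simp [h0, h1]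
    -- no edge of either path leaves the four clique
    have hcross : ∀ x y : Fin 7, x.val < 4 → ¬ y.val < 4 →
        s(x, y) ∉ (P 0).edges ∧ s(x, y) ∉ (P 1).edges := by
      intro x y hx hy
      have hnot : s(x, y) ∉ G.edgeSet := by
        rw [SimpleGraph.mem_edgeSet]
        rintro ⟨_, h2⟩
        exact hy (h2.1 hx)
      rw [hE2] at hnot
      by_cases b0 : s(x, y) ∈ (P 0).edges
      swap
      · exact ⟨b0, fun h => hnot (Or.inr ⟨b0, h⟩)⟩
      exfalso
      have b1 : s(x, y) ∈ (P 1).edges := by
        by_contra h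
        exact hnot (Or.inl ⟨b0, h⟩)
      -- three neighbours of x in the clique
      obtain ⟨a, b, c, ha, hb, hc, hab, hac, hbc, hxa, hxb, hxc⟩ :
          ∃ a b c : Fin 7, a.val < 4 ∧ b.val < 4 ∧ c.val < 4 ∧ a ≠ b ∧ a ≠ c ∧ b ≠ c ∧
            x ≠ a ∧ x ≠ b ∧ x ≠ c := by
        revert hx
        clear hnot b0 b1
        revert x
        decide
      have ya : y ≠ a := by rintro rfl; exact hy ha
      have yb : y ≠ b := by rintro rfl; exact hy hb
      have yc : y ≠ c := by rintro rfl; exact hy hc
      have ea := (hE2 s(x, a)).1 (by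
        rw [SimpleGraph.mem_edgeSet]; exact ⟨hxa, by simp [hx, ha]⟩)
      have eb := (hE2 s(x, b)).1 (by
        rw [SimpleGraph.mem_edgeSet]; exact ⟨hxb, by simp [hx, hb]⟩)
      have ec := (hE2 s(x, c)).1 (by
        rw [SimpleGraph.mem_edgeSet]; exact ⟨hxc, by simp [hx, hc]⟩)
      have n0 := no_three (P 0) (hP 0) x y
      have n1 := no_three (P 1) (hP 1) x y
      rcases ea with ⟨a0, _⟩ | ⟨_, a1⟩
      · rcases eb with ⟨b0', _⟩ | ⟨_, b1'⟩
        · exact n0 a b ya yb hab b0 a0 b0'
        · rcases ec with ⟨c0, _⟩ | ⟨_, c1⟩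
          · exact n0 a c ya yc hac b0 a0 c0
          · exact n1 b c yb yc hbc b1 b1' c1
      · rcases eb with ⟨b0', _⟩ | ⟨_, b1'⟩
        · rcases ec with ⟨c0, _⟩ | ⟨_, c1⟩
          · exact n0 b c yb yc hbc b0 b0' c0
          · exact n1 a c ya yc hac b1 a1 c1
        · exact n1 a b ya yb hab b1 a1 b1'
    have hst : ∀ i : Fin 2, ∀ x ∈ (P i).support, (x.val < 4 ↔ (u i).val < 4) := by
      intro i
      refine stay {z : Fin 7 | z.val < 4} (P i) ?_
      intro x y hxy
      have hi : s(x, y) ∈ (P 0).edges ∨ s(x, y) ∈ (P 1).edges := by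
        fin_cases i
        · exact Or.inl hxy
        · exact Or.inr hxy
      constructor
      · intro hx
        by_contra hy
        have := hcross x y hx hy
        rcases hi with hi | hi
        · exact this.1 hi
        · exact this.2 hi
      · intro hy
        by_contra hx
        have := hcross y x hy hx
        rw [Sym2.eq_swap] at this
        rcases hi with hi | hi
        · exact this.1 hi
        · exact this.2 hi
    -- each path visits vertex 0
    have e1 := (hE2 s((0 : Fin 7), 1)).1 g01
    have e2 := (hE2 s((0 : Fin 7), 2)).1 (by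
      rw [SimpleGraph.mem_edgeSet]; exact ⟨by decide, by decide⟩)
    have e3 := (hE2 s((0 : Fin 7), 3)).1 (by
      rw [SimpleGraph.mem_edgeSet]; exact ⟨by decide, by decide⟩)
    have m0 := no_three (P 0) (hP 0) 0 1 2 3 (by decide) (by decide) (by decide)
    have m1 := no_three (P 1) (hP 1) 0 1 2 3 (by decide) (by decide) (by decide)
    have v0 : (0 : Fin 7) ∈ (P 0).support := by
      have : s((0 : Fin 7), 1) ∈ (P 0).edges ∨ s((0 : Fin 7), 2) ∈ (P 0).edges ∨
          s((0 : Fin 7), 3) ∈ (P 0).edges := by
        clear hst hcross hE2 hE m0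
        by_contra h
        push Not at h
        obtain ⟨h1, h2, h3⟩ := h
        exact m1 (e1.resolve_left (fun t => h1 t.1)).2 (e2.resolve_left (fun t => h2 t.1)).2
          (e3.resolve_left (fun t => h3 t.1)).2
      rcases this with h | h | h <;> exact SimpleGraph.Walk.fst_mem_support_of_mem_edges _ h
    have v1 : (0 : Fin 7) ∈ (P 1).support := by
      have : s((0 : Fin 7), 1) ∈ (P 1).edges ∨ s((0 : Fin 7), 2) ∈ (P 1).edges ∨
          s((0 : Fin 7), 3) ∈ (P 1).edges := by
        clear hst hcross hE2 hE m1
        by_contra h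
        push Not at h
        obtain ⟨h1, h2, h3⟩ := h
        exact m0 (e1.resolve_right (fun t => h1 t.2)).1 (e2.resolve_right (fun t => h2 t.2)).1
          (e3.resolve_right (fun t => h3 t.2)).1
      rcases this with h | h | h <;> exact SimpleGraph.Walk.fst_mem_support_of_mem_edges _ h
    have u0 : (u 0).val < 4 := (hst 0 0 v0).1 (by decide)
    have u1 : (u 1).val < 4 := (hst 1 0 v1).1 (by decide)
    have e45 := (hE2 s((4 : Fin 7), 5)).1 (by
      rw [SimpleGraph.mem_edgeSet]; exact ⟨by decide, by decide⟩)
    rcases e45 with ⟨h, _⟩ | ⟨_, h⟩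
    · have := (hst 0 4 (SimpleGraph.Walk.fst_mem_support_of_mem_edges _ h)).2 u0
      revert this; decide
    · have := (hst 1 4 (SimpleGraph.Walk.fst_mem_support_of_mem_edges _ h)).2 u1
      revert this; decide

end Pool.Agent.S07947
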