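import Pool.Statements.S07963
import Pool.Agent.H24R3.ChromRatio4

set_option autoImplicit false
open Pool Pool.MP_31cced_co

namespace Pool.Agent.S07963

/-- For every finite simple graph G on n vertices with clique number ω and every integer λ ≥ n, the number of proper (λ−1)-colourings divided by the number of proper λ-colourings is at most (1−ω/λ)(1−1/λ)^(n−ω). -/
theorem result :
    ∀ (V : Type) [Fintype V] (G : SimpleGraph V) (lam : ℕ),
      Fintype.card V ≤ lam →
      (Nat.card (G.Coloring (Fin (lam - 1))) : ℝ) / (Nat.card (G.Coloring (Fin lam)) : ℝ)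
        ≤ (1 - ((sSup {k : ℕ | ∃ s : Finset V, G.IsNClique k s} : ℕ) : ℝ) / (lam : ℝ))
          * (1 - 1 / (lam : ℝ)) ^ (Fintype.card V - sSup {k : ℕ | ∃ s : Finset V, G.IsNClique k s}) := by
  intro V _ G lam hlam
  classical
  set om : ℕ := sSup {k : ℕ | ∃ s : Finset V, G.IsNClique k s} with hom
  have hbdd : BddAbove {k : ℕ | ∃ s : Finset V, G.IsNClique k s} := by
    refine ⟨Fintype.card V, ?_⟩
    rintro k ⟨s, hs⟩
    rw [← hs.card_eq]
    exact Finset.card_le_univ s
  have hne : {k : ℕ | ∃ s : Finset V, G.IsNClique k s}.Nonempty :=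
    ⟨0, ∅, by simp⟩
  obtain ⟨K, hK⟩ : ∃ s : Finset V, G.IsNClique om s := Nat.sSup_mem hne hbdd
  have hKcard : K.card = om := hK.card_eq
  have hle : ∀ s : Finset V, G.IsClique s → s.card ≤ om := by
    intro s hs
    apply le_csSup hbdd
    exact ⟨s, (SimpleGraph.isNClique_iff G).2 ⟨hs, rfl⟩⟩
  have homle : om ≤ Fintype.card V := by
    rw [← hKcard]; exact Finset.card_le_univ K
  -- right side nonneg
  rcases Nat.eq_zero_or_pos (Fintype.card V) with h0 | hpos
  · -- empty graph
    have hempty : IsEmpty V := Fintype.card_eq_zero_iff.1 h0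
    have hom0 : om = 0 := by omega
    rw [hom0, h0]
    rw [H24R3.CR.card_coloring, H24R3.CR.card_coloring]
    have hc : ∀ m, (H24R3.CR.Col G m).card = 1 := by
      intro m
      rw [Finset.card_eq_one]
      refine ⟨fun v => (hempty.false v).elim, ?_⟩
      ext c
      rw [H24R3.CR.mem_Col, Finset.mem_singleton]
      constructor
      · intro _
        funext v
        exact (hempty.false v).elim
      · intro _ u
        exact (hempty.false u).elim
    rw [hc, hc]
    simp
  · have hlam1 : 1 ≤ lam := le_trans hpos hlam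
    obtain ⟨m, rfl⟩ : ∃ m, lam = m + 1 := ⟨lam - 1, by omega⟩
    rw [Nat.add_sub_cancel]
    rw [H24R3.CR.card_coloring, H24R3.CR.card_coloring]
    have hl0 : (0 : ℝ) < ((m + 1 : ℕ) : ℝ) := by positivity
    have hr1 : 0 ≤ 1 - (om : ℝ) / ((m + 1 : ℕ) : ℝ) := by
      rw [sub_nonneg, div_le_one hl0]
      exact_mod_cast homle.trans hlam
    have hr2 : 0 ≤ 1 - 1 / ((m + 1 : ℕ) : ℝ) := by
      rw [sub_nonneg, div_le_one hl0]
      exact_mod_cast hlam1
    have hrhs : 0 ≤ (1 - (om : ℝ) / ((m + 1 : ℕ) : ℝ))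
        * (1 - 1 / ((m + 1 : ℕ) : ℝ)) ^ (Fintype.card V - om) :=
      mul_nonneg hr1 (pow_nonneg hr2 _)
    rcases Nat.eq_zero_or_pos (H24R3.CR.Col G (m + 1)).card with hz | hz
    · rw [hz]
      simpa using hrhs
    rcases Nat.eq_zero_or_pos m with hm0 | hm0
    · -- m = 0: no colourings with 0 colours
      subst hm0
      have : (H24R3.CR.Col G 0).card = 0 := by
        rw [Finset.card_eq_zero, Finset.eq_empty_iff_forall_notMem]
        intro c _
        obtain ⟨v⟩ : Nonempty V := Fintype.card_pos_iff.1 hpos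
        exact (c v).elim0
      rw [this]
      simpa using hrhs
    have hmain := H24R3.CR.main G m hlam hm0 K hK.isClique (by
      intro a ha
      by_contra hcon
      push Not at hcon
      have hcl : G.IsClique (insert a K : Finset V) := by
        intro x hx y hy hxy
        rw [Finset.mem_coe, Finset.mem_insert] at hx hy
        rcases hx with rfl | hx
        · rcases hy with rfl | hy
          · exact absurd rfl hxy
          · exact hcon y hy
        · rcases hy with rfl | hy
          · exact (hcon x hx).symm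
          · exact hK.isClique hx hy hxy
      have := hle _ hcl
      rw [Finset.card_insert_of_notMem ha, hKcard] at this
      omega)
    rw [hKcard] at hmain
    have hmpos : (0 : ℝ) < (m : ℝ) := by exact_mod_cast hm0
    have hPpos : (0 : ℝ) < ((H24R3.CR.Col G (m + 1)).card : ℝ) := by exact_mod_cast hz
    rw [div_le_iff₀ hPpos]
    set k := Fintype.card V - om with hk
    have hq : (1 - 1 / ((m + 1 : ℕ) : ℝ)) * (1 + 1 / (m : ℝ)) = 1 := by
      push_cast
      field_simp
      ring
    have hq' : (1 - 1 / ((m + 1 : ℕ) : ℝ)) ^ k * (1 + 1 / (m : ℝ)) ^ k = 1 := by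
      rw [← mul_pow, hq, one_pow]
    have h2 : (1 - (om : ℝ) / ((m + 1 : ℕ) : ℝ)) = ((m : ℝ) + 1 - om) / ((m : ℝ) + 1) := by
      push_cast
      field_simp
    rw [h2]
    have h3 := mul_le_mul_of_nonneg_left hmain
      (mul_nonneg (inv_nonneg.2 (by positivity : (0 : ℝ) ≤ (m : ℝ) + 1)) (pow_nonneg hr2 k))
    have h4 : ((m : ℝ) + 1)⁻¹ * (1 - 1 / ((m + 1 : ℕ) : ℝ)) ^ k
        * (((m : ℝ) + 1) * (((H24R3.CR.Col G m).card : ℝ) * (1 + 1 / (m : ℝ)) ^ k))
        = ((H24R3.CR.Col G m).card : ℝ) := by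
      calc _ = (((m : ℝ) + 1)⁻¹ * ((m : ℝ) + 1)) * ((1 - 1 / ((m + 1 : ℕ) : ℝ)) ^ k
                * (1 + 1 / (m : ℝ)) ^ k) * ((H24R3.CR.Col G m).card : ℝ) := by ring
        _ = _ := by
          rw [hq', inv_mul_cancel₀ (by positivity)]
          ring
    rw [h4] at h3
    refine h3.trans (le_of_eq ?_)
    rw [div_eq_mul_inv]
    ring

end Pool.Agent.S07963
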