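import Pool.Statements.S07998
import Pool.Agent.H46R3.RyserCover

set_option autoImplicit false
open Pool Pool.MP_32d4a3_co

namespace Pool.Agent.S07998

/-- The negation of the preceding statement: For 2 ≤ t ≤ r, every finite r-partite r-uniform hypergraph whose edges pairwise share at least t vertices has a vertex cover of size at most floor((r−t)/2)+1, and some such hypergraph needs exactly that many. -/
theorem result :
    ¬ (∀ r t : ℕ, 2 ≤ t → t ≤ r →
      (∀ H : Finset (Fin r → ℕ),
          (∀ e ∈ H, ∀ f ∈ H, t ≤ (Finset.univ.filter (fun i => e i = f i)).card) →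
          ∃ C : Finset (Fin r × ℕ), C.card ≤ (r - t) / 2 + 1 ∧
            ∀ e ∈ H, ∃ i : Fin r, (i, e i) ∈ C) ∧
      (∃ H : Finset (Fin r → ℕ),
          (∀ e ∈ H, ∀ f ∈ H, t ≤ (Finset.univ.filter (fun i => e i = f i)).card) ∧
          ∀ C : Finset (Fin r × ℕ), (∀ e ∈ H, ∃ i : Fin r, (i, e i) ∈ C) →
            (r - t) / 2 + 1 ≤ C.card)) := by
  intro h
  obtain ⟨C, hC, hcov⟩ := (h 31 2 (by norm_num) (by norm_num)).1 H46R3.Ryser.HH
    (fun e he f hf => H46R3.Ryser.HH_int e he f hf)
  exact H46R3.Ryser.no_cover C (by simpa using hC) hcov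

end Pool.Agent.S07998
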