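import Pool.Statements.S08003
-- import your own Pool.Agent.* helpers here
import Pool.Agent.H366R3.SC.Fin
import Pool.Agent.H366R3.SC.T5own
import Pool.Agent.H366R3.SC.T0_helper444
import Pool.Agent.H87R3.SC.T1
import Pool.Agent.H366R3.SC.T2_helper744
import Pool.Agent.H366R3.SC.T3_helper51
import Pool.Agent.H366R3.SC.T4_helper127
import Pool.Agent.H366R3.SC.T6_helper725
import Pool.Agent.H366R3.SC.TK_helper352
import Pool.Agent.H366R3.SC.TK2_helper73
import Pool.Agent.H366R3.SC.T7a_helper787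
import Pool.Agent.H366R3.SC.T7_helper275
import Pool.Agent.H366R3.SC.T8a_helper773
import Pool.Agent.H366R3.SC.T8_helper134
import Pool.Agent.H366R3.SC.T9_helper237
import Pool.Agent.H366R3.SC.T11_helper220
import Pool.Agent.H366R3.SC.T12_helper608
import Pool.Agent.H366R3.SC.T14_helper105

set_option autoImplicit false
open Pool Pool.MP_32fd1f_co

namespace Pool.Agent.S08003

/-- Every finite simple cubic graph that is connected, stays connected after deleting any vertex, and is not K_4 has a family of at most n/2 cycles in which each edge lies in exactly two cycles. -/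
theorem result :
  ∀ (V : Type) [Fintype V] [DecidableEq V] (G : SimpleGraph V) [DecidableRel G.Adj],
    (∀ v : V, G.degree v = 3) →
    G.Connected →
    (∀ v : V, (G.induce {w : V | w ≠ v}).Connected) →
    ¬ Nonempty (G ≃g (⊤ : SimpleGraph (Fin 4))) →
    ∃ k : ℕ, 2 * k ≤ Fintype.card V ∧
      ∃ u : Fin k → V, ∃ c : (i : Fin k) → G.Walk (u i) (u i),
        (∀ i, (c i).IsCycle) ∧
        ∀ e ∈ G.edgeSet,
          (Finset.univ.filter (fun i : Fin k => e ∈ (c i).edges)).card = 2 := by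
  have t1 := Pool.Agent.H87R3.SC.t
  have t3 := Pool.Agent.H366R3.SC.T3H51.t
  have tk := Pool.Agent.H366R3.SC.TKh352.t
  have tk2 := Pool.Agent.H366R3.SC.TK2h73.t
  have t4 := Pool.Agent.H366R3.SC.T4H127.t
  have t5 := Pool.Agent.H366R3.SC.T5own.t
  have t6 := Pool.Agent.H725R3.SCT6.t
  have t7a := Pool.Agent.H366R3.SC.T7a_helper787.t
  have t7 := Pool.Agent.H366R3.SC.T7h275.t
  have t8a := Pool.Agent.H366R3.SC.T8aH773.t
  have t8 := Pool.Agent.H366R3.SC.T8_134.t
  have t9 := Pool.Agent.H366R3.SC.T9_helper237.t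
  have t0 := Pool.Agent.H366R3.SC.T0h444.t
  have t11 := Pool.Agent.H366R3.SC.T11H.t
  have t12 := Pool.Agent.H366R3.SC.T12h608.t
  have t2 := Pool.Agent.H366R3.SC.T2H744.t
  have t14 := Pool.Agent.H366R3.SC.T14_helper105.t
  have h13 := Pool.Agent.H366R3.SC.t13 t1 t3 tk tk2 t4 t5 t6 t7a t7 t8a t8 t9
  have hM := Pool.Agent.H366R3.SC.main t0 t2 t12 (Pool.Agent.H366R3.SC.main3 t0 h13 t11)
  intro V _ _ G _ h3 hc h2 hK
  exact Pool.Agent.H366R3.SC.final G hM t14 h3 hc h2 hK

end Pool.Agent.S08003
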