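import Pool.Statements.S08019
import Pool.Agent.H662R3.Count

set_option autoImplicit false
open Pool Pool.MP_33a8f1_co

namespace Pool.Agent.S08019

/-- For every ε>0 there are n≥1 and positive integers a_1..a_n such that at least (1−ε)n distinct pairs are simultaneously of the forms (a_i,a_{i+1}), (a_j+a_{j+1},a_{j+2}) and (a_k,a_{k+1}+a_{k+2}). -/
theorem result :
    ∀ ε : ℝ, 0 < ε →
      ∃ n : ℕ, 1 ≤ n ∧ ∃ a : ℕ → ℕ,
        (∀ i ∈ Finset.Icc 1 n, 0 < a i) ∧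
        (1 - ε) * (n : ℝ) ≤
          (((((Finset.Icc 1 (n - 1)).image (fun i => (a i, a (i + 1)))) ∩
              ((Finset.Icc 1 (n - 2)).image (fun j => (a j + a (j + 1), a (j + 2))))) ∩
              ((Finset.Icc 1 (n - 2)).image (fun k => (a k, a (k + 1) + a (k + 2))))).card : ℝ) := by
  intro ε hε
  -- reduce to ε ≤ 1
  set η : ℝ := min ε 1 with hη
  have hη0 : 0 < η := lt_min hε one_pos
  have hη1 : η ≤ 1 := min_le_right _ _
  have hηε : η ≤ ε := min_le_left _ _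
  set δ : ℝ := η / 4 with hδ
  have hδ0 : 0 < δ := by positivity
  obtain ⟨K0, hK0⟩ := exists_nat_ge (8 / δ)
  set K : ℕ := K0 + 2 with hK
  obtain ⟨V, W, hne, hinc, h4, h1, h3, h2, i4, i1, i3, i2, hcard⟩ :=
    Pool.Agent.H662R3.core K (by omega)
  have hW : (W.card : ℝ) ≤ (1 + δ) * V.card := by
    have hc : ((K - 1 : ℕ) : ℝ) ^ 2 * W.card ≤ ((K + 1 : ℕ) : ℝ) ^ 2 * V.card := by
      exact_mod_cast hcard
    have e1 : ((K - 1 : ℕ) : ℝ) = (K0 : ℝ) + 1 := by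
      rw [hK]; push_cast; simp
    have e2 : ((K + 1 : ℕ) : ℝ) = (K0 : ℝ) + 3 := by
      rw [hK]; push_cast; ring
    rw [e1, e2] at hc
    have hK0' : 8 ≤ δ * K0 := by
      rw [div_le_iff₀ hδ0] at hK0
      linarith
    have hK00 : (0 : ℝ) ≤ K0 := Nat.cast_nonneg _
    have hkey : ((K0 : ℝ) + 3) ^ 2 ≤ (1 + δ) * ((K0 : ℝ) + 1) ^ 2 := by
      nlinarith [mul_nonneg hδ0.le hK00, mul_le_mul_of_nonneg_right hK0' hK00]
    have hV : (0 : ℝ) ≤ V.card := Nat.cast_nonneg _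
    have h5 : ((K0 : ℝ) + 1) ^ 2 * W.card ≤ ((K0 : ℝ) + 1) ^ 2 * ((1 + δ) * V.card) := by
      calc ((K0 : ℝ) + 1) ^ 2 * W.card ≤ ((K0 : ℝ) + 3) ^ 2 * V.card := hc
        _ ≤ (1 + δ) * ((K0 : ℝ) + 1) ^ 2 * V.card := mul_le_mul_of_nonneg_right hkey hV
        _ = _ := by ring
    exact le_of_mul_le_mul_left h5 (by positivity)
  obtain ⟨n, hn, a, ha, hle⟩ := Pool.Agent.H662R3.finish V W hne hinc h4 h1 h3 h2 i4 i1 i3 i2
    η δ hδ0.le (by rw [hδ]; linarith) hη1 hW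
  refine ⟨n, hn, a, ha, le_trans ?_ hle⟩
  exact mul_le_mul_of_nonneg_right (by linarith) (Nat.cast_nonneg _)

end Pool.Agent.S08019
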