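import Pool.Statements.S08058

set_option autoImplicit false
open Pool Pool.MP_351e72_co

namespace Pool.Agent.S08058

open MvPolynomial

/-- The hyperbolic polynomial `(x y) ^ 112`. -/
noncomputable def h0 : MvPolynomial (Fin 2) ℝ := X 0 ^ 112 * X 1 ^ 112

/-- The operator `1 - D_w`. -/
noncomputable def op (w : Fin 2 → ℝ) : Module.End ℝ (MvPolynomial (Fin 2) ℝ) :=
  (1 : Module.End ℝ (MvPolynomial (Fin 2) ℝ)) - ∑ i : Fin 2,
    w i • (MvPolynomial.pderiv (R := ℝ) i).toLinearMap

lemma step (w : Fin 2 → ℝ) (c : ℝ) (p q : ℕ) :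
    op w (C c * X 0 ^ p * X 1 ^ q) =
      C c * X 0 ^ p * X 1 ^ q - C (c * (w 0 * p)) * X 0 ^ (p - 1) * X 1 ^ q
        - C (c * (w 1 * q)) * X 0 ^ p * X 1 ^ (q - 1) := by
  have h01 : (0 : Fin 2) ≠ 1 := by decide
  have h10 : (1 : Fin 2) ≠ 0 := by decide
  simp only [op, Fin.sum_univ_two, LinearMap.sub_apply, Module.End.one_apply,
    LinearMap.add_apply, LinearMap.smul_apply, 
    Derivation.coeFn_coe, Derivation.leibniz, pderiv_C, Derivation.leibniz_pow,
    pderiv_X_self, pderiv_X_of_ne h10, pderiv_X_of_ne h01, smul_eq_mul, mul_zero, add_zero,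
    zero_add, smul_zero, mul_one, C_mul, map_natCast, smul_eq_C_mul, nsmul_eq_mul]
  ring

lemma h0_eq : h0 = C 1 * X 0 ^ 112 * X 1 ^ 112 := by
  simp [h0]

lemma eval_triple (u v w : Fin 2 → ℝ) (t : ℝ) :
    eval (fun _ => t) (op u (op v (op w h0))) =
      t ^ 221 * (t ^ 3 - 112 * ((u 0 + u 1) + (v 0 + v 1) + (w 0 + w 1)) * t ^ 2
       + (112 * 111 * (u 0 * v 0 + u 0 * w 0 + v 0 * w 0 + u 1 * v 1 + u 1 * w 1 + v 1 * w 1)
          + 112 * 112 * (u 0 * v 1 + u 1 * v 0 + u 0 * w 1 + u 1 * w 0 + v 0 * w 1 + v 1 * w 0)) * t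
       - (112 * 111 * 110 * (u 0 * v 0 * w 0 + u 1 * v 1 * w 1)
          + 112 * 112 * 111 * (u 0 * v 0 * w 1 + u 0 * v 1 * w 0 + u 1 * v 0 * w 0
             + u 0 * v 1 * w 1 + u 1 * v 0 * w 1 + u 1 * v 1 * w 0))) := by
  rw [h0_eq, step]
  simp only [map_sub, step]
  simp only [map_mul, map_pow, eval_C, eval_X]
  push_cast
  ring

/-- The negation of the preceding statement: For h hyperbolic w.r.t. e of degree d and v_j in the closed cone summing to e with traces ≤ ε, every real zero of ∏(1−D_{v_j})h(te) is ≤ some zero of the one for v = (ε/d)e (k times), (1−kε/d)e, then 0s, k=⌊d/ε⌋. -/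
theorem result :
    ¬ (∀ (n d m : ℕ) (h : MvPolynomial (Fin n) ℝ) (e : Fin n → ℝ) (ε : ℝ),
      h.IsHomogeneous d →
      MvPolynomial.eval e h ≠ 0 →
      (∀ (x : Fin n → ℝ) (z : ℂ),
          MvPolynomial.aeval (fun i => z * (e i : ℂ) - (x i : ℂ)) h = 0 → z.im = 0) →
      0 < ε → 0 < m → (d : ℝ) ≤ (m : ℝ) * ε →
      ∀ v : Fin m → Fin n → ℝ,
        (∀ j, ∀ t : ℝ, t < 0 → MvPolynomial.eval (fun i => t * e i - v j i) h ≠ 0) →
        (∑ j, v j = e) →
        (∀ j, (∑ i, v j i * MvPolynomial.eval e (MvPolynomial.pderiv i h))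
              / MvPolynomial.eval e h ≤ ε) →
        ∀ t : ℝ,
          MvPolynomial.eval (fun i => t * e i)
            (((List.ofFn (fun j : Fin m =>
                ((1 : Module.End ℝ (MvPolynomial (Fin n) ℝ)) - ∑ i : Fin n,
                  v j i • (MvPolynomial.pderiv (R := ℝ) i).toLinearMap))).prod :
                Module.End ℝ (MvPolynomial (Fin n) ℝ)) h) = 0 →
          ∃ s : ℝ, t ≤ s ∧
            MvPolynomial.eval (fun i => s * e i)
              (((List.ofFn (fun j : Fin m =>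
                  ((1 : Module.End ℝ (MvPolynomial (Fin n) ℝ)) - ∑ i : Fin n,
                    ((if (j : ℕ) < ⌊(d : ℝ) / ε⌋₊ then ε / (d : ℝ)
                      else if (j : ℕ) = ⌊(d : ℝ) / ε⌋₊
                        then 1 - (⌊(d : ℝ) / ε⌋₊ : ℝ) * ε / (d : ℝ)
                      else 0) * e i) •
                    (MvPolynomial.pderiv (R := ℝ) i).toLinearMap))).prod :
                  Module.End ℝ (MvPolynomial (Fin n) ℝ)) h) = 0) := by
  intro H
  have h01 : (0 : Fin 2) ≠ 1 := by decide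
  have h10 : (1 : Fin 2) ≠ 0 := by decide
  have hev : ∀ w : Fin 2 → ℝ, eval w h0 = w 0 ^ 112 * w 1 ^ 112 := by
    intro w; simp [h0]
  have hd0 : eval (fun _ => (1 : ℝ)) (pderiv 0 h0) = 112 := by
    simp only [h0, Derivation.leibniz, Derivation.leibniz_pow, pderiv_X_self,
      pderiv_X_of_ne h10, smul_eq_mul, map_add, map_mul, map_pow, eval_X, map_zero,
      nsmul_eq_mul, map_natCast, map_one]
    norm_num
  have hd1 : eval (fun _ => (1 : ℝ)) (pderiv 1 h0) = 112 := by
    simp only [h0, Derivation.leibniz, Derivation.leibniz_pow, pderiv_X_self,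
      pderiv_X_of_ne h01, smul_eq_mul, map_add, map_mul, map_pow, eval_X, map_zero,
      nsmul_eq_mul, map_natCast, map_one]
    norm_num
  set v : Fin 3 → Fin 2 → ℝ := ![![3/10, 1/2], ![3/10, 1/2], ![2/5, 0]] with hv
  have hfl : ⌊((224 : ℕ) : ℝ) / (448 / 5 : ℝ)⌋₊ = 2 := by
    rw [Nat.floor_eq_iff (by positivity)]
    norm_num
  have H1 := H 2 224 3 h0 (fun _ => 1) (448 / 5) ?_ ?_ ?_ (by norm_num) (by norm_num)
    (by norm_num) v ?_ ?_ ?_
  · -- conclusion
    have hpert : ∀ t : ℝ, MvPolynomial.eval (fun i : Fin 2 => t * 1)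
            (((List.ofFn (fun j : Fin 3 =>
                ((1 : Module.End ℝ (MvPolynomial (Fin 2) ℝ)) - ∑ i : Fin 2,
                  v j i • (MvPolynomial.pderiv (R := ℝ) i).toLinearMap))).prod :
                Module.End ℝ (MvPolynomial (Fin 2) ℝ)) h0)
          = t ^ 221 * (t ^ 3 - 224 * t ^ 2 + 399784 / 25 * t - 1777776 / 5) := by
      intro t
      have : (((List.ofFn (fun j : Fin 3 =>
                ((1 : Module.End ℝ (MvPolynomial (Fin 2) ℝ)) - ∑ i : Fin 2,
                  v j i • (MvPolynomial.pderiv (R := ℝ) i).toLinearMap))).prod :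
                Module.End ℝ (MvPolynomial (Fin 2) ℝ)) h0)
          = op (v 0) (op (v 1) (op (v 2) h0)) := by
        simp [List.ofFn_succ, op, Module.End.mul_apply]
      rw [this]
      have h2 := eval_triple (v 0) (v 1) (v 2) t
      rw [mul_one, h2]
      simp only [hv, Matrix.cons_val]
      ring
    have href : ∀ s : ℝ, MvPolynomial.eval (fun i : Fin 2 => s * 1)
              (((List.ofFn (fun j : Fin 3 =>
                  ((1 : Module.End ℝ (MvPolynomial (Fin 2) ℝ)) - ∑ i : Fin 2,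
                    ((if (j : ℕ) < ⌊((224 : ℕ) : ℝ) / (448 / 5 : ℝ)⌋₊
                        then (448 / 5 : ℝ) / ((224 : ℕ) : ℝ)
                      else if (j : ℕ) = ⌊((224 : ℕ) : ℝ) / (448 / 5 : ℝ)⌋₊
                        then 1 - (⌊((224 : ℕ) : ℝ) / (448 / 5 : ℝ)⌋₊ : ℝ) * (448 / 5 : ℝ)
                          / ((224 : ℕ) : ℝ)
                      else 0) * 1) •
                    (MvPolynomial.pderiv (R := ℝ) i).toLinearMap))).prod :
                  Module.End ℝ (MvPolynomial (Fin 2) ℝ)) h0)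
          = s ^ 221 * (s ^ 3 - 224 * s ^ 2 + 399616 / 25 * s - 44357376 / 125) := by
      intro s
      rw [hfl]
      have : (((List.ofFn (fun j : Fin 3 =>
                  ((1 : Module.End ℝ (MvPolynomial (Fin 2) ℝ)) - ∑ i : Fin 2,
                    ((if (j : ℕ) < 2
                        then (448 / 5 : ℝ) / ((224 : ℕ) : ℝ)
                      else if (j : ℕ) = 2
                        then 1 - ((2 : ℕ) : ℝ) * (448 / 5 : ℝ)
                          / ((224 : ℕ) : ℝ)
                      else 0) * 1) •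
                    (MvPolynomial.pderiv (R := ℝ) i).toLinearMap))).prod :
                  Module.End ℝ (MvPolynomial (Fin 2) ℝ)) h0)
          = op (fun _ => 2 / 5) (op (fun _ => 2 / 5) (op (fun _ => 1 / 5) h0)) := by
        have e1 : (448 / 5 : ℝ) / ((224 : ℕ) : ℝ) = 2 / 5 := by norm_num
        have e2 : 1 - ((2 : ℕ) : ℝ) * (448 / 5 : ℝ) / ((224 : ℕ) : ℝ) = 1 / 5 := by norm_num
        rw [e1, e2]
        simp [List.ofFn_succ, op, Module.End.mul_apply]
      rw [this, mul_one, eval_triple]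
      ring
    -- a zero of the perturbed polynomial beyond 96
    obtain ⟨t, ht96, ht⟩ : ∃ t : ℝ, 96 ≤ t ∧
        (t ^ 3 - 224 * t ^ 2 + 399784 / 25 * t - 1777776 / 5) = 0 := by
      have hcont : ContinuousOn
          (fun t : ℝ => t ^ 3 - 224 * t ^ 2 + 399784 / 25 * t - 1777776 / 5)
          (Set.Icc 96 224) := by fun_prop
      have := intermediate_value_Icc (show (96 : ℝ) ≤ 224 by norm_num) hcont
      have h0 : (0 : ℝ) ∈ Set.Icc
          ((fun t : ℝ => t ^ 3 - 224 * t ^ 2 + 399784 / 25 * t - 1777776 / 5) 96)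
          ((fun t : ℝ => t ^ 3 - 224 * t ^ 2 + 399784 / 25 * t - 1777776 / 5) 224) := by
        constructor <;> norm_num
      obtain ⟨t, ht, ht0⟩ := this h0
      exact ⟨t, ht.1, ht0⟩
    obtain ⟨s, hs, hs0⟩ := H1 t (by rw [hpert, ht, mul_zero])
    rw [href] at hs0
    have hs96 : 96 ≤ s := ht96.trans hs
    have hpos : 0 < s ^ 3 - 224 * s ^ 2 + 399616 / 25 * s - 44357376 / 125 := by
      obtain ⟨u, hu, rfl⟩ : ∃ u : ℝ, 0 ≤ u ∧ s = 96 + u := ⟨s - 96, by linarith, by ring⟩
      nlinarith [pow_nonneg hu 2, pow_nonneg hu 3]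
    have : 0 < s ^ 221 * (s ^ 3 - 224 * s ^ 2 + 399616 / 25 * s - 44357376 / 125) := by
      have h0 : 0 < s := by linarith
      exact mul_pos (pow_pos h0 221) hpos
    linarith
  · -- homogeneity
    have := (isHomogeneous_X_pow (R := ℝ) (0 : Fin 2) 112).mul
      (isHomogeneous_X_pow (R := ℝ) (1 : Fin 2) 112)
    exact this
  · rw [hev]; norm_num
  · intro x z hz
    have : (z - (x 0 : ℂ)) ^ 112 * (z - (x 1 : ℂ)) ^ 112 = 0 := by
      simpa [h0] using hz
    rcases mul_eq_zero.1 this with h | h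
    · have h' := pow_eq_zero_iff (by norm_num) |>.1 h
      have : z = (x 0 : ℂ) := by linear_combination h'
      rw [this]; simp
    · have h' := pow_eq_zero_iff (by norm_num) |>.1 h
      have : z = (x 1 : ℂ) := by linear_combination h'
      rw [this]; simp
  · intro j t ht
    rw [hev]
    have hnn : ∀ i, 0 ≤ v j i := by
      intro i
      fin_cases j <;> fin_cases i <;> simp [hv] <;> norm_num
    have e0 : t * 1 - v j 0 ≠ 0 := by have := hnn 0; intro h; linarith
    have e1 : t * 1 - v j 1 ≠ 0 := by have := hnn 1; intro h; linarith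
    exact mul_ne_zero (pow_ne_zero _ e0) (pow_ne_zero _ e1)
  · funext i
    rw [Finset.sum_apply, Fin.sum_univ_three]
    fin_cases i <;> simp [hv] <;> norm_num
  · intro j
    rw [Fin.sum_univ_two, hd0, hd1, hev]
    fin_cases j <;> simp [hv] <;> norm_num

end Pool.Agent.S08058
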