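import Pool.Statements.S08064

set_option autoImplicit false
open Pool Pool.MP_3562eb_co

namespace Pool.Agent.S08064

/-- the removed rectangle: residues 0,...,5 modulo 8 in the first q-2 rows. -/
def inD (q : ℕ) (v : ℕ) : Prop := v % 8 < 6 ∧ v < 8 * (q - 2)

instance (q v : ℕ) : Decidable (inD q v) := by unfold inD; infer_instance

/-- val of a difference -/
lemma val_natCast_sub {p : ℕ} [NeZero p] (t : ℕ) (ht : t < p) (a : ZMod p) :
    (((t : ZMod p) - a).val = t - a.val ∧ a.val ≤ t) ∨
    (((t : ZMod p) - a).val = t + p - a.val ∧ t < a.val) := by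
  have ha : a.val < p := a.val_lt
  have hval : ((t : ZMod p)).val = t := ZMod.val_cast_of_lt ht
  rcases le_or_gt a.val t with h | h
  · left
    refine ⟨?_, h⟩
    rw [ZMod.val_sub (by rw [hval]; exact h), hval]
  · right
    refine ⟨?_, h⟩
    have e : (t : ZMod p) - a = ((t + p - a.val : ℕ) : ZMod p) := by
      rw [Nat.cast_sub (by omega), Nat.cast_add, ZMod.natCast_self, ZMod.natCast_zmod_val, add_zero]
    rw [e, ZMod.val_cast_of_lt (by omega)]

/-- The negation of the preceding statement: For each β>0 there are c,n0 so that for any prime p, any A in Z_p with n0 ≤ ∣A∣ = n < (1−β)p/2, and any forbidden set F ⊆ A×A of max degree ≤ d, some B ⊆ A with ∣B∣ ≤ c has at least 2n−2d−1 sums a+b, a∈A, b∈B, (a,b)∉F. -/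
theorem result :
    ¬ (∀ β : ℝ, 0 < β → ∃ c n₀ : ℕ, ∀ p : ℕ, p.Prime →
      ∀ (A : Finset (ZMod p)) (F : Finset (ZMod p × ZMod p)) (d : ℕ),
        n₀ ≤ A.card →
        (A.card : ℝ) < (1 - β) * (p : ℝ) / 2 →
        F ⊆ A ×ˢ A →
        (∀ x : ZMod p, (F.filter (fun q => q.1 = x)).card ≤ d) →
        (∀ x : ZMod p, (F.filter (fun q => q.2 = x)).card ≤ d) →
        ∃ B : Finset (ZMod p), B ⊆ A ∧ B.card ≤ c ∧
          (2 * (A.card : ℤ) - 2 * (d : ℤ) - 1) ≤
            ((((A ×ˢ B) \ F).image (fun q => q.1 + q.2)).card : ℤ)) := by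
  intro H
  obtain ⟨c, n₀, hH⟩ := H (1/4) (by norm_num)
  obtain ⟨p, hp1, hp⟩ := Nat.exists_infinite_primes (8 * n₀ + 400)
  haveI : NeZero p := ⟨by omega⟩
  haveI : Fact p.Prime := ⟨hp⟩
  obtain ⟨q, hq⟩ : ∃ q, q = p / 8 := ⟨_, rfl⟩
  have hq1 : 8 * q ≤ p := by omega
  have hq2 : p < 8 * q + 8 := by omega
  have hqb : n₀ + 40 ≤ q := by omega
  -- the five target sums
  let T : Finset ℕ := {8 * q - 19, 8 * q - 18, 8 * q - 20, 8 * q - 11, 8 * q - 27}
  have hTmem : ∀ t ∈ T, t = 8 * q - 19 ∨ t = 8 * q - 18 ∨ t = 8 * q - 20 ∨ t = 8 * q - 11 ∨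
      t = 8 * q - 27 := by
    intro t ht; simpa [T] using ht
  have hTcard : T.card = 5 := by
    have h1 : (8 * q - 19) ∉ ({8 * q - 18, 8 * q - 20, 8 * q - 11, 8 * q - 27} : Finset ℕ) := by
      simp; omega
    have h2 : (8 * q - 18) ∉ ({8 * q - 20, 8 * q - 11, 8 * q - 27} : Finset ℕ) := by
      simp; omega
    have h3 : (8 * q - 20) ∉ ({8 * q - 11, 8 * q - 27} : Finset ℕ) := by
      simp; omega
    have h4 : (8 * q - 11) ∉ ({8 * q - 27} : Finset ℕ) := by
      simp; omega
    show (insert (8 * q - 19) (insert (8 * q - 18) (insert (8 * q - 20) (insert (8 * q - 11)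
      ({8 * q - 27} : Finset ℕ))))).card = 5
    rw [Finset.card_insert_of_notMem h1, Finset.card_insert_of_notMem h2,
      Finset.card_insert_of_notMem h3, Finset.card_insert_of_notMem h4, Finset.card_singleton]
  have hTlt : ∀ t ∈ T, t < p := by
    intro t ht
    have := hTmem t ht
    omega
  let A : Finset (ZMod p) := Finset.univ.filter (fun x => ¬ inD q x.val)
  have hA : ∀ x : ZMod p, x ∈ A ↔ ¬ inD q x.val := by intro x; simp [A]
  let TT : Finset (ZMod p) := T.image (fun t : ℕ => (t : ZMod p))
  let F : Finset (ZMod p × ZMod p) := (A ×ˢ A).filter (fun x => x.1 + x.2 ∉ TT)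
  have hTTcard : TT.card ≤ 5 := by
    rw [← hTcard]; exact Finset.card_image_le
  -- key: at most one neighbour is missing
  have key : ∀ a : ZMod p, a ∈ A → ∀ t ∈ T, ∀ t' ∈ T, inD q ((t : ZMod p) - a).val →
      inD q ((t' : ZMod p) - a).val → t = t' := by
    intro a ha t ht t' ht' h1 h2
    have ha' := (hA a).1 ha
    have hap : a.val < p := a.val_lt
    have c1 := val_natCast_sub t (hTlt t ht) a
    have c2 := val_natCast_sub t' (hTlt t' ht') a
    have m1 := hTmem t ht
    have m2 := hTmem t' ht'
    unfold inD at ha' h1 h2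
    generalize ((t : ZMod p) - a).val = u at *
    generalize ((t' : ZMod p) - a).val = u' at *
    generalize a.val = v at *
    rcases m1 with m1 | m1 | m1 | m1 | m1 <;> rcases m2 with m2 | m2 | m2 | m2 | m2 <;>
      subst m1 <;> subst m2 <;> first | rfl | (exfalso; omega)
  -- good partners
  have good : ∀ a : ZMod p, a ∈ A → ∃ Q : Finset (ZMod p), Q ⊆ A ∧ Q.card = 4 ∧
      ∀ b ∈ Q, a + b ∈ TT := by
    intro a ha
    let T' : Finset ℕ := T.filter (fun t : ℕ => ¬ inD q ((t : ZMod p) - a).val)
    let T'' : Finset ℕ := T.filter (fun t : ℕ => inD q ((t : ZMod p) - a).val)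
    have hT'' : T''.card ≤ 1 := by
      rw [Finset.card_le_one]
      intro t ht t' ht'
      rw [Finset.mem_filter] at ht ht'
      exact key a ha t ht.1 t' ht'.1 ht.2 ht'.2
    have hsum : T''.card + T'.card = T.card := Finset.card_filter_add_card_filter_not _
    have hT' : 4 ≤ T'.card := by omega
    let Q' := T'.image (fun t : ℕ => (t : ZMod p) - a)
    have hQ' : Q'.card = T'.card := by
      apply Finset.card_image_of_injOn
      intro t ht t' ht' hh
      have ht1 : t ∈ T := (Finset.mem_filter.1 ht).1
      have ht1' : t' ∈ T := (Finset.mem_filter.1 ht').1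
      have hh' : (t : ZMod p) = (t' : ZMod p) := by
        have : (t : ZMod p) - a = (t' : ZMod p) - a := hh
        exact sub_left_injective this
      have h2 := congrArg ZMod.val hh'
      rwa [ZMod.val_cast_of_lt (hTlt t ht1), ZMod.val_cast_of_lt (hTlt t' ht1')] at h2
    obtain ⟨Q, hQsub, hQcard⟩ := Finset.exists_subset_card_eq (s := Q') (n := 4) (by omega)
    refine ⟨Q, ?_, hQcard, ?_⟩
    · intro b hb
      obtain ⟨t, ht, rfl⟩ := Finset.mem_image.1 (hQsub hb)
      rw [hA]
      exact (Finset.mem_filter.1 ht).2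
    · intro b hb
      obtain ⟨t, ht, rfl⟩ := Finset.mem_image.1 (hQsub hb)
      rw [add_sub_cancel]
      exact Finset.mem_image_of_mem _ (Finset.mem_filter.1 ht).1
  -- cardinalities
  have hAlow : n₀ ≤ A.card ∧ 4 ≤ A.card := by
    have : (Finset.range (q - 2)).card ≤ A.card := by
      apply Finset.card_le_card_of_injOn (fun j : ℕ => ((8 * j + 6 : ℕ) : ZMod p))
      · intro j hj
        have hj' : j < q - 2 := Finset.mem_range.1 hj
        show ((8 * j + 6 : ℕ) : ZMod p) ∈ A
        rw [hA, ZMod.val_cast_of_lt (by omega)]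
        unfold inD
        omega
      · intro j hj j' hj' hh
        have hj1 : j < q - 2 := by simpa using hj
        have hj2 : j' < q - 2 := by simpa using hj'
        have h2 := congrArg ZMod.val hh
        simp only at h2
        rw [ZMod.val_cast_of_lt (by omega), ZMod.val_cast_of_lt (by omega)] at h2
        omega
    rw [Finset.card_range] at this
    omega
  have hAup : A.card ≤ 2 * q + 24 := by
    let U : Finset ℕ := ((Finset.range q).image (fun j => 8 * j + 6)) ∪
      ((Finset.range q).image (fun j => 8 * j + 7)) ∪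
      ((Finset.range 24).image (fun j => 8 * (q - 2) + j))
    have hU : A ⊆ U.image (fun n : ℕ => (n : ZMod p)) := by
      intro x hx
      have hx' := (hA x).1 hx
      have hxp : x.val < p := x.val_lt
      rw [Finset.mem_image]
      refine ⟨x.val, ?_, by rw [ZMod.natCast_zmod_val]⟩
      unfold inD at hx'
      simp only [U, Finset.mem_union, Finset.mem_image, Finset.mem_range]
      by_cases h1 : x.val < 8 * (q - 2)
      · left
        have h2 : ¬ x.val % 8 < 6 := fun h => hx' ⟨h, h1⟩
        have h3 : x.val % 8 = 6 ∨ x.val % 8 = 7 := by omega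
        rcases h3 with h3 | h3
        · left; exact ⟨x.val / 8, by omega, by omega⟩
        · right; exact ⟨x.val / 8, by omega, by omega⟩
      · right
        exact ⟨x.val - 8 * (q - 2), by omega, by omega⟩
    calc A.card ≤ (U.image (fun n : ℕ => (n : ZMod p))).card := Finset.card_le_card hU
      _ ≤ U.card := Finset.card_image_le
      _ ≤ (((Finset.range q).image (fun j => 8 * j + 6)) ∪
            ((Finset.range q).image (fun j => 8 * j + 7))).card +
            ((Finset.range 24).image (fun j => 8 * (q - 2) + j)).card := Finset.card_union_le _ _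
      _ ≤ (((Finset.range q).image (fun j => 8 * j + 6)).card +
            ((Finset.range q).image (fun j => 8 * j + 7)).card) +
            ((Finset.range 24).image (fun j => 8 * (q - 2) + j)).card := by
            gcongr; exact Finset.card_union_le _ _
      _ ≤ (q + q) + 24 := by
            have e1 := Finset.card_image_le (s := Finset.range q) (f := fun j => 8 * j + 6)
            have e2 := Finset.card_image_le (s := Finset.range q) (f := fun j => 8 * j + 7)
            have e3 := Finset.card_image_le (s := Finset.range 24) (f := fun j => 8 * (q - 2) + j)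
            rw [Finset.card_range] at e1 e2 e3
            omega
      _ = 2 * q + 24 := by ring
  have hFdeg1 : ∀ x : ZMod p, (F.filter (fun q => q.1 = x)).card ≤ A.card - 4 := by
    intro x
    by_cases hx : x ∈ A
    · obtain ⟨Q, hQA, hQ4, hQ⟩ := good x hx
      have h1 : (F.filter (fun q => q.1 = x)).card ≤ (A \ Q).card := by
        apply Finset.card_le_card_of_injOn (fun y => y.2)
        · intro y hy
          rw [Finset.mem_coe, Finset.mem_filter, Finset.mem_filter, Finset.mem_product] at hy
          obtain ⟨⟨⟨hy1, hy2⟩, hy3⟩, hy4⟩ := hy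
          rw [Finset.mem_coe, Finset.mem_sdiff]
          refine ⟨hy2, fun hy5 => hy3 ?_⟩
          rw [hy4]
          exact hQ _ hy5
        · intro y hy y' hy' hh
          rw [Finset.mem_coe, Finset.mem_filter] at hy hy'
          exact Prod.ext (hy.2.trans hy'.2.symm) hh
      rw [Finset.card_sdiff_of_subset hQA, hQ4] at h1
      exact h1
    · have : F.filter (fun q => q.1 = x) = ∅ := by
        apply Finset.filter_eq_empty_iff.2
        intro y hy hyx
        rw [Finset.mem_filter, Finset.mem_product] at hy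
        exact hx (hyx ▸ hy.1.1)
      rw [this]; simp
  have hFdeg2 : ∀ x : ZMod p, (F.filter (fun q => q.2 = x)).card ≤ A.card - 4 := by
    intro x
    by_cases hx : x ∈ A
    · obtain ⟨Q, hQA, hQ4, hQ⟩ := good x hx
      have h1 : (F.filter (fun q => q.2 = x)).card ≤ (A \ Q).card := by
        apply Finset.card_le_card_of_injOn (fun y => y.1)
        · intro y hy
          rw [Finset.mem_coe, Finset.mem_filter, Finset.mem_filter, Finset.mem_product] at hy
          obtain ⟨⟨⟨hy1, hy2⟩, hy3⟩, hy4⟩ := hy
          rw [Finset.mem_coe, Finset.mem_sdiff]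
          refine ⟨hy1, fun hy5 => hy3 ?_⟩
          rw [hy4, add_comm]
          exact hQ _ hy5
        · intro y hy y' hy' hh
          rw [Finset.mem_coe, Finset.mem_filter] at hy hy'
          exact Prod.ext hh (hy.2.trans hy'.2.symm)
      rw [Finset.card_sdiff_of_subset hQA, hQ4] at h1
      exact h1
    · have : F.filter (fun q => q.2 = x) = ∅ := by
        apply Finset.filter_eq_empty_iff.2
        intro y hy hyx
        rw [Finset.mem_filter, Finset.mem_product] at hy
        exact hx (hyx ▸ hy.1.2)
      rw [this]; simp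
  obtain ⟨B, hBA, hBc, hB⟩ := hH p hp A F (A.card - 4) hAlow.1 (by
      have h1 : (A.card : ℝ) ≤ 2 * (q : ℝ) + 24 := by exact_mod_cast hAup
      have h2 : 8 * (q : ℝ) ≤ (p : ℝ) := by exact_mod_cast hq1
      have h3 : (400 : ℝ) ≤ (p : ℝ) := by
        have : 400 ≤ p := by omega
        exact_mod_cast this
      linarith) (Finset.filter_subset _ _) hFdeg1 hFdeg2
  have hsub : ((A ×ˢ B) \ F).image (fun q => q.1 + q.2) ⊆ TT := by
    intro s hs
    rw [Finset.mem_image] at hs
    obtain ⟨⟨a, b⟩, hab, rfl⟩ := hs
    rw [Finset.mem_sdiff, Finset.mem_product] at hab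
    by_contra hns
    exact hab.2 (Finset.mem_filter.2 ⟨Finset.mem_product.2 ⟨hab.1.1, hBA hab.1.2⟩, hns⟩)
  have hcard := Finset.card_le_card hsub
  have h4 := hAlow.2
  have h5 : ((A.card - 4 : ℕ) : ℤ) = (A.card : ℤ) - 4 := by
    push_cast [Nat.cast_sub h4]; ring
  rw [h5] at hB
  omega

end Pool.Agent.S08064
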