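import Pool.Statements.S08141
import Mathlib
import Pool.Agent.H502R3.QMat5

set_option autoImplicit false
open Pool Pool.MP_389e9c_co

namespace Pool.Agent.S08141

/-- There is a finite field F, an extension K of degree m>1, and an F-linear code of n×m matrices whose shortened-code dimensions are all divisible by m, such that no matrix over K represents the q-matroid with rank (dim C − dim C(V^⊥))/m. -/
theorem result :
    ∃ (F K : Type) (_ : Field F) (_ : Fintype F) (_ : Field K) (_ : Algebra F K) (m n : ℕ),
      1 < m ∧ Module.finrank F K = m ∧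
      ∃ C : Submodule F (Fin n → Fin m → F),
        (∀ W : Submodule F (Fin n → F),
          m ∣ Module.finrank F ↥(C ⊓ ⨅ j : Fin m, Submodule.comap
            (LinearMap.pi (fun i : Fin n =>
              LinearMap.comp (LinearMap.proj j : (Fin m → F) →ₗ[F] F)
                (LinearMap.proj i : (Fin n → Fin m → F) →ₗ[F] (Fin m → F)))) W)) ∧
        ¬ ∃ (k : ℕ) (G : Matrix (Fin k) (Fin n) K),
          ∀ V : Submodule F (Fin n → F),
            m * Module.finrank K (Submodule.span K
              ((fun v : Fin n → F => Matrix.mulVec G (fun i => algebraMap F K (v i))) ''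
                (V : Set (Fin n → F))))
            = Module.finrank F C - Module.finrank F ↥(C ⊓ ⨅ j : Fin m, Submodule.comap
              (LinearMap.pi (fun i : Fin n =>
                LinearMap.comp (LinearMap.proj j : (Fin m → F) →ₗ[F] F)
                  (LinearMap.proj i : (Fin n → Fin m → F) →ₗ[F] (Fin m → F))))
              (⨅ (v : Fin n → F) (_ : v ∈ V), LinearMap.ker
                (∑ i : Fin n, v i • (LinearMap.proj i : (Fin n → F) →ₗ[F] F)))) := by
  classical
  haveI : Fact (Nat.Prime 3) := ⟨Nat.prime_three⟩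
  obtain ⟨lamO, hlam0, hlamdet⟩ :=
    Pool.Agent.H502R3.QMat.exists_lam (L := AlgebraicClosure (ZMod 3))
  let E := IntermediateField.adjoin (ZMod 3) (Set.range lamO)
  haveI hfd : FiniteDimensional (ZMod 3) E := by
    apply IntermediateField.finiteDimensional_adjoin
    intro x _
    exact Algebra.IsIntegral.isIntegral x
  let lam : Fin 9 → E := fun i =>
    ⟨lamO i, IntermediateField.subset_adjoin _ _ (Set.mem_range_self i)⟩
  have hadm : Pool.Agent.H502R3.QMat.Adm lam := by
    refine ⟨fun i h => hlam0 i (congrArg Subtype.val h), fun v hv h => hlamdet v hv ?_⟩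
    have hmap : (algebraMap E (AlgebraicClosure (ZMod 3))).mapMatrix
        (Pool.Agent.H502R3.QMat.M lam v) = Pool.Agent.H502R3.QMat.M lamO v := by
      ext p q
      simp only [RingHom.mapMatrix_apply, Matrix.map_apply, Pool.Agent.H502R3.QMat.M,
        Matrix.of_apply, Pool.Agent.H502R3.QMat.B_apply, map_sum, map_mul]
      rfl
    rw [← hmap, ← RingHom.map_det, h, map_zero]
  have hs : 0 < Module.finrank (ZMod 3) E := Module.finrank_pos
  have hm0 : Module.finrank (ZMod 3) E * 2 ≠ 0 := by omega
  have hcard : Module.finrank (ZMod 3) (Fin 2 → E)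
      = Module.finrank (ZMod 3) (Fin (Module.finrank (ZMod 3) E * 2) → ZMod 3) := by
    rw [← Module.finrank_mul_finrank (ZMod 3) E (Fin 2 → E)]
    simp
  let e : (Fin 2 → E) ≃ₗ[ZMod 3] (Fin (Module.finrank (ZMod 3) E * 2) → ZMod 3) :=
    LinearEquiv.ofFinrankEq _ _ hcard
  refine ⟨ZMod 3, GaloisField 3 (Module.finrank (ZMod 3) E * 2), inferInstance, inferInstance,
    inferInstance, inferInstance, Module.finrank (ZMod 3) E * 2, 9, by omega,
    GaloisField.finrank 3 hm0, LinearMap.range (Pool.Agent.H502R3.QMat.Psi e lam), ?_, ?_⟩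
  · intro W
    have h1 := Pool.Agent.H502R3.QMat.finrank_code e lam hadm (Pool.Agent.H502R3.QMat.perp W)
    rw [Pool.Agent.H502R3.QMat.perp_perp] at h1
    have h2 := Pool.Agent.H502R3.QMat.even_finrank_Kern lam hadm (Pool.Agent.H502R3.QMat.perp W)
    exact Dvd.dvd.trans (mul_dvd_mul_left _ h2) (dvd_of_eq h1.symm)
  · rintro ⟨k, G, hG⟩
    refine Pool.Agent.H502R3.QMat.not_rep G
      (fun V => (6 - Module.finrank E (Pool.Agent.H502R3.QMat.Kern lam V)) / 2) ?_ ?_ ?_
    · intro i j l h1 h2 h3 h4
      simp only [Pool.Agent.H502R3.QMat.finrank_Kern_good lam hadm i j l h1 h2 h3 h4]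
    · intro i j l h1 h2
      simp only [Pool.Agent.H502R3.QMat.finrank_Kern_line lam hadm i j l h1 h2]
    · intro V
      have h1 := hG V
      have h2 := Pool.Agent.H502R3.QMat.finrank_code e lam hadm V
      have h3 := Pool.Agent.H502R3.QMat.finrank_code_top e lam hadm
      obtain ⟨c, hc⟩ := Pool.Agent.H502R3.QMat.even_finrank_Kern lam hadm V
      have h4 : Module.finrank (ZMod 3) E * 2 * Module.finrank (GaloisField 3 (Module.finrank (ZMod 3) E * 2))
          (Submodule.span (GaloisField 3 (Module.finrank (ZMod 3) E * 2))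
            ((fun v : Fin 9 → ZMod 3 => Matrix.mulVec G (fun i => algebraMap (ZMod 3)
              (GaloisField 3 (Module.finrank (ZMod 3) E * 2)) (v i))) '' (V : Set (Fin 9 → ZMod 3))))
          = Module.finrank (ZMod 3) E * 6 - Module.finrank (ZMod 3) E *
            Module.finrank E (Pool.Agent.H502R3.QMat.Kern lam V) := by
        rw [← h3, ← h2]
        exact h1
      simp only [hc] at h4 ⊢
      have h5 : Module.finrank (ZMod 3) E * 6 - Module.finrank (ZMod 3) E * (2 * c)
          = Module.finrank (ZMod 3) E * 2 * (3 - c) := by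
        rw [← Nat.mul_sub]
        have : 6 - 2 * c = 2 * (3 - c) := by omega
        rw [this, mul_assoc]
      rw [h5] at h4
      have h6 := Nat.eq_of_mul_eq_mul_left (Nat.pos_of_ne_zero hm0) h4
      rw [h6]
      omega

end Pool.Agent.S08141
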