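import Pool.Statements.S08187
import Pool.Agent.H997R3.Cube.Upper

set_option autoImplicit false
open Pool Pool.MP_3a81bf_co

namespace Pool.Agent.S08187

/-- For every n ≥ 1, the least degree of an effective chip configuration on the n-cube graph that, after some chip-firing, can lose a chip at any chosen vertex without going negative (the divisorial gonality) is 2^(n-1). -/
theorem result :
    ∀ n : ℕ, 1 ≤ n →
      IsLeast
        {d : ℕ | ∃ D : (Fin n → Bool) → ℕ,
            (∑ x, D x) = d ∧
            ∀ v : Fin n → Bool, ∃ f : (Fin n → Bool) → ℤ,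
              ∀ w : Fin n → Bool,
                0 ≤ (D w : ℤ) - (if w = v then 1 else 0)
                    - ((n : ℤ) * f w - ∑ i : Fin n, f (Function.update w i (!(w i))))}
        (2 ^ (n - 1)) := by
  intro n hn
  constructor
  · obtain ⟨D, hD, h⟩ := Pool.Agent.H997R3.Cube.upper hn
    refine ⟨D, hD, fun v => ?_⟩
    obtain ⟨f, hf⟩ := h v
    refine ⟨f, fun w => ?_⟩
    rw [Pool.Agent.H997R3.Cube.lap_eq]
    exact hf w
  · rintro d ⟨D, hD, h⟩
    have h1 := Pool.Agent.H997R3.Cube.lower (fun w => (D w : ℤ)) (fun w => by positivity)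
      (fun v => by
        obtain ⟨f, hf⟩ := h v
        refine ⟨f, fun w => ?_⟩
        rw [← Pool.Agent.H997R3.Cube.lap_eq]
        exact hf w)
    have h2 : (∑ w, (D w : ℤ)) = (d : ℤ) := by
      rw [← hD]
      push_cast
      rfl
    rw [h2] at h1
    have h3 : 2 ^ n ≤ 2 * d := by exact_mod_cast h1
    have h5 : 2 ^ n = 2 * 2 ^ (n - 1) := by
      rw [← pow_succ']
      congr 1
      omega
    omega

end Pool.Agent.S08187
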