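import Pool.Statements.S08194
import Pool.Agent.H620R3.DVec

set_option autoImplicit false
open Pool Pool.MP_3abe58_co

namespace Pool.Agent.S08194

open Pool.Agent.H620R3.DVec

/-- If the value of `N` at the point with `x_i = 0` and all other coordinates `1` is nonzero, then
`x_i` does not divide `N`. -/
theorem not_dvd_of_eval (N : MvPolynomial (Fin 4) ℚ) (i : Fin 4)
    (h : MvPolynomial.eval (fun j => if j = i then (0 : ℚ) else 1) N ≠ 0) :
    ¬ MvPolynomial.X i ∣ N := by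
  rintro ⟨q, rfl⟩
  apply h
  simp

theorem algebraMap_ne_zero {N : MvPolynomial (Fin 4) ℚ} (h : N ≠ 0) :
    algebraMap (MvPolynomial (Fin 4) ℚ) (FractionRing (MvPolynomial (Fin 4) ℚ)) N ≠ 0 := by
  intro h0
  exact h ((IsFractionRing.injective (MvPolynomial (Fin 4) ℚ)
    (FractionRing (MvPolynomial (Fin 4) ℚ))) (h0.trans (map_zero _).symm))


/-- The negation of the preceding statement: In every coefficient-free cluster algebra of a skew-symmetrizable integer matrix, two cluster monomials with the same denominator vector relative to the initial cluster are equal. -/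
theorem result :
    ¬ (∀ (n : ℕ) (B : Matrix (Fin n) (Fin n) ℤ),
    (∃ D : Fin n → ℤ, (∀ i, 0 < D i) ∧ ∀ i j, D i * B i j = -(D j * B j i)) →
    ∀ μ : (Fin n → FractionRing (MvPolynomial (Fin n) ℚ)) × Matrix (Fin n) (Fin n) ℤ →
        Fin n → (Fin n → FractionRing (MvPolynomial (Fin n) ℚ)) × Matrix (Fin n) (Fin n) ℤ,
    (∀ (s : (Fin n → FractionRing (MvPolynomial (Fin n) ℚ)) × Matrix (Fin n) (Fin n) ℤ) (k : Fin n),
        μ s k =
          (Function.update s.1 k
              ((∏ i, s.1 i ^ (max (s.2 i k) 0).toNat + ∏ i, s.1 i ^ (max (-s.2 i k) 0).toNat) / s.1 k),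
            Matrix.of fun i j =>
              if i = k ∨ j = k then -s.2 i j
              else s.2 i j + Int.sign (s.2 i k) * max (s.2 i k * s.2 k j) 0)) →
    ∀ (l₁ l₂ : List (Fin n)) (m₁ m₂ : Fin n → ℕ) (d : Fin n → ℤ),
    (∃ N : MvPolynomial (Fin n) ℚ, (∀ i, ¬ MvPolynomial.X i ∣ N) ∧
        ∏ i, ((l₁.foldl μ (fun j => algebraMap (MvPolynomial (Fin n) ℚ)
            (FractionRing (MvPolynomial (Fin n) ℚ)) (MvPolynomial.X j), B)).1 i) ^ (m₁ i) =
          algebraMap (MvPolynomial (Fin n) ℚ) (FractionRing (MvPolynomial (Fin n) ℚ)) N /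
            ∏ i, (algebraMap (MvPolynomial (Fin n) ℚ) (FractionRing (MvPolynomial (Fin n) ℚ))
              (MvPolynomial.X i)) ^ (d i)) →
    (∃ N : MvPolynomial (Fin n) ℚ, (∀ i, ¬ MvPolynomial.X i ∣ N) ∧
        ∏ i, ((l₂.foldl μ (fun j => algebraMap (MvPolynomial (Fin n) ℚ)
            (FractionRing (MvPolynomial (Fin n) ℚ)) (MvPolynomial.X j), B)).1 i) ^ (m₂ i) =
          algebraMap (MvPolynomial (Fin n) ℚ) (FractionRing (MvPolynomial (Fin n) ℚ)) N /
            ∏ i, (algebraMap (MvPolynomial (Fin n) ℚ) (FractionRing (MvPolynomial (Fin n) ℚ))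
              (MvPolynomial.X i)) ^ (d i)) →
    ∏ i, ((l₁.foldl μ (fun j => algebraMap (MvPolynomial (Fin n) ℚ)
        (FractionRing (MvPolynomial (Fin n) ℚ)) (MvPolynomial.X j), B)).1 i) ^ (m₁ i) =
      ∏ i, ((l₂.foldl μ (fun j => algebraMap (MvPolynomial (Fin n) ℚ)
        (FractionRing (MvPolynomial (Fin n) ℚ)) (MvPolynomial.X j), B)).1 i) ^ (m₂ i)) := by
  classical
  intro H
  let K := FractionRing (MvPolynomial (Fin 4) ℚ)
  let f : Fin 4 → K := fun j => algebraMap (MvPolynomial (Fin 4) ℚ) K (MvPolynomial.X j)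
  have hf : ∀ j, f j ≠ 0 := fun j => algebraMap_ne_zero (MvPolynomial.X_ne_zero j)
  have h12 : f 1 + f 2 ^ 2 ≠ 0 := by
    have h1 : (MvPolynomial.X 1 + MvPolynomial.X 2 ^ 2 : MvPolynomial (Fin 4) ℚ) ≠ 0 := by
      intro h0
      have := congrArg (MvPolynomial.eval (fun _ => (1 : ℚ))) h0
      simp at this
    have h2 := algebraMap_ne_zero h1
    simpa [f] using h2
  obtain ⟨r1, r2⟩ := run f (hf 0) (hf 1) (hf 2) (hf 3) h12
  have a1 : algebraMap (MvPolynomial (Fin 4) ℚ) K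
      (N1 (MvPolynomial.X 0) (MvPolynomial.X 1) (MvPolynomial.X 2) (MvPolynomial.X 3)) =
      N1 (f 0) (f 1) (f 2) (f 3) := map_N1 (algebraMap (MvPolynomial (Fin 4) ℚ) K) _ _ _ _
  have a2 : algebraMap (MvPolynomial (Fin 4) ℚ) K
      (N2 (MvPolynomial.X 0) (MvPolynomial.X 1) (MvPolynomial.X 2) (MvPolynomial.X 3)) =
      N2 (f 0) (f 1) (f 2) (f 3) := map_N2 (algebraMap (MvPolynomial (Fin 4) ℚ) K) _ _ _ _
  have hden : ∏ i, (f i) ^ ((![3, 3, 1, 1] : Fin 4 → ℤ) i) = f 0 ^ 3 * f 1 ^ 3 * f 2 * f 3 := by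
    rw [Fin.prod_univ_four]
    simp only [Matrix.cons_val]
    norm_cast
    rw [pow_one, pow_one]
  have hprod : ∀ g : Fin 4 → K, ∏ i, g i ^ ((![0, 0, 0, 1] : Fin 4 → ℕ) i) = g 3 := by
    intro g
    rw [Fin.prod_univ_four]
    simp
  have key := H 4 B0 ⟨fun _ => 1, fun _ => by norm_num, by decide⟩ mu (fun s k => rfl)
    [0, 1, 2, 3] [0, 1, 2, 0, 3] ![0, 0, 0, 1] ![0, 0, 0, 1] ![3, 3, 1, 1]
    ⟨N1 (MvPolynomial.X 0) (MvPolynomial.X 1) (MvPolynomial.X 2) (MvPolynomial.X 3), by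
      intro i
      apply not_dvd_of_eval
      fin_cases i <;> simp [N1] <;> norm_num, by
      rw [hprod]
      refine r1.trans ?_
      rw [← a1]
      congr 1
      exact hden.symm⟩
    ⟨N2 (MvPolynomial.X 0) (MvPolynomial.X 1) (MvPolynomial.X 2) (MvPolynomial.X 3), by
      intro i
      apply not_dvd_of_eval
      fin_cases i <;> simp [N2] <;> norm_num, by
      rw [hprod]
      refine r2.trans ?_
      rw [← a2]
      congr 1
      exact hden.symm⟩
  rw [hprod, hprod] at key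
  have key2 := (r1.symm.trans key).trans r2
  have hne : f 0 ^ 3 * f 1 ^ 3 * f 2 * f 3 ≠ 0 :=
    mul_ne_zero (mul_ne_zero (mul_ne_zero (pow_ne_zero _ (hf 0)) (pow_ne_zero _ (hf 1))) (hf 2))
      (hf 3)
  rw [div_left_inj' hne, ← a1, ← a2] at key2
  have key3 := (IsFractionRing.injective (MvPolynomial (Fin 4) ℚ) K) key2
  have key4 := congrArg (MvPolynomial.eval (fun _ => (1 : ℚ))) key3
  simp [N1, N2] at key4
  norm_num at key4

end Pool.Agent.S08194
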