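import Pool.Statements.S08224
import Pool.Agent.H10R3.DiffGame

set_option autoImplicit false
open Pool Pool.MP_3c1ca0_co

namespace Pool.Agent.S08224

open Pool.Agent.H10R3.DiffGame

/-- the difference set -/
def DD : Finset (Fin 2 → ℤ) :=
  (S0.map (fun s : ℕ => (![0, (s : ℤ)] : Fin 2 → ℤ))).toFinset ∪
    (S1.map (fun s : ℕ => (![1, (s : ℤ)] : Fin 2 → ℤ))).toFinset

lemma mem_DD (v : Fin 2 → ℤ) : v ∈ DD ↔
    (∃ s ∈ S0, v 0 = 0 ∧ v 1 = (s : ℤ)) ∨ (∃ s ∈ S1, v 0 = 1 ∧ v 1 = (s : ℤ)) := by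
  unfold DD
  rw [Finset.mem_union, List.mem_toFinset, List.mem_toFinset, List.mem_map, List.mem_map]
  constructor
  · rintro (⟨s, hs, rfl⟩ | ⟨s, hs, rfl⟩)
    · exact Or.inl ⟨s, hs, by simp, by simp⟩
    · exact Or.inr ⟨s, hs, by simp, by simp⟩
  · rintro (⟨s, hs, h0, h1⟩ | ⟨s, hs, h0, h1⟩)
    · refine Or.inl ⟨s, hs, ?_⟩
      funext i; fin_cases i <;> simp [h0, h1]
    · refine Or.inr ⟨s, hs, ?_⟩
      funext i; fin_cases i <;> simp [h0, h1]

/-- The negation of the preceding statement: For every finite set D of integer vectors with positive sums and nonnegative entries, the normal-play losing positions of the subtraction game on ℕ^d with moves x→y, x−y∈D, form a finite union of sets b+ℕp₁+…+ℕpₘ. -/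
theorem result :
    ¬ (∀ (d : ℕ) (D : Finset (Fin d → ℤ)),
      (∀ a ∈ D, 0 < ∑ i, a i) →
      (∀ a ∈ D, ∀ i, 0 ≤ a i) →
      ∀ P : Set (Fin d → ℕ),
        (∀ x : Fin d → ℕ, x ∈ P ↔
          ∀ y : Fin d → ℕ, (fun i => (x i : ℤ) - (y i : ℤ)) ∈ D → y ∉ P) →
        ∃ (k : ℕ) (b : Fin k → Fin d → ℕ) (m : Fin k → ℕ)
          (p : ∀ i : Fin k, Fin (m i) → Fin d → ℕ),
          P = {x | ∃ i : Fin k, ∃ c : Fin (m i) → ℕ, x = b i + ∑ j, c j • p i j}) := by
  intro H
  obtain ⟨k, b, m, p, hP⟩ := H 2 DD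
    (by
      intro a ha
      rw [Fin.sum_univ_two]
      rcases (mem_DD a).1 ha with ⟨s, hs, h0, h1⟩ | ⟨s, hs, h0, h1⟩
      · have := (S0_bd s hs).1; rw [h0, h1]; omega
      · have := (S1_bd s hs).1; rw [h0, h1]; omega)
    (by
      intro a ha i
      rcases (mem_DD a).1 ha with ⟨s, hs, h0, h1⟩ | ⟨s, hs, h0, h1⟩
      · fin_cases i
        · simp [h0]
        · simp [h1]
      · fin_cases i
        · simp [h0]
        · simp [h1])
    {x | pat (x 0) (x 1) = true}
    (by
      intro x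
      rw [Set.mem_ofPred_eq, pat_iff]
      constructor
      · rintro ⟨h, h'⟩ y hy
        rw [Set.mem_ofPred_eq]
        rcases (mem_DD _).1 hy with ⟨s, hs, h0, h1⟩ | ⟨s, hs, h0, h1⟩
        · have e0 : y 0 = x 0 := by omega
          have e1 : y 1 = x 1 - s := by omega
          have := h s hs (by omega)
          rw [e0, e1, this]; simp
        · have e0 : y 0 = x 0 - 1 := by omega
          have e1 : y 1 = x 1 - s := by omega
          have := h' s hs (by omega) (by omega)
          rw [e0, e1, this]; simp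
      · intro h
        refine ⟨fun s hs hle => ?_, fun s hs h1 hle => ?_⟩
        · have := h ![x 0, x 1 - s] ((mem_DD _).2 (Or.inl ⟨s, hs, by simp, by
            simp [Nat.cast_sub hle]⟩))
          simpa using this
        · have := h ![x 0 - 1, x 1 - s] ((mem_DD _).2 (Or.inr ⟨s, hs, by
            simp [Nat.cast_sub h1], by simp [Nat.cast_sub hle]⟩))
          simpa using this)
  -- the special points
  let z : ℕ → Fin 2 → ℕ := fun a => ![2 ^ a - 1, 46 * (2 * 2 ^ a - 1) + 24]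
  have hz : ∀ a, ∃ i : Fin k, ∃ c : Fin (m i) → ℕ, z a = b i + ∑ j, c j • p i j := by
    intro a
    have : z a ∈ {x : Fin 2 → ℕ | pat (x 0) (x 1) = true} := by
      simpa [z] using pat_pow a
    rw [hP] at this
    exact this
  choose ι hι using hz
  obtain ⟨i0, hi0⟩ := Finite.exists_infinite_fiber ι
  have hinf : (ι ⁻¹' {i0}).Infinite := Set.infinite_coe_iff.1 hi0
  have hz' : ∀ n : ℕ, ∃ c : Fin (m i0) → ℕ,
      z (Nat.nth (fun a => ι a = i0) n) = b i0 + ∑ j, c j • p i0 j := by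
    intro n
    have h1 : ι (Nat.nth (fun a => ι a = i0) n) = i0 := Nat.nth_mem_of_infinite hinf n
    have h2 := hι (Nat.nth (fun a => ι a = i0) n)
    rw [h1] at h2
    exact h2
  choose c hc using hz'
  obtain ⟨n, n', hnn, hcc⟩ := wellQuasiOrdered_le c
  set a := Nat.nth (fun a => ι a = i0) n with ha
  set a' := Nat.nth (fun a => ι a = i0) n' with ha'
  have haa : a < a' := Nat.nth_strictMono hinf hnn
  -- the pumped point
  let x : Fin 2 → ℕ := b i0 + ∑ j, (c n j + 2 * (c n' j - c n j)) • p i0 j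
  have hx : x ∈ {x : Fin 2 → ℕ | pat (x 0) (x 1) = true} := by
    rw [hP]
    exact ⟨i0, fun j => c n j + 2 * (c n' j - c n j), rfl⟩
  have hsum : ∀ t, x t + z a t = 2 * z a' t := by
    intro t
    have h1 := congrFun (hc n) t
    have h2 := congrFun (hc n') t
    rw [← ha] at h1
    rw [← ha'] at h2
    rw [h1, h2]
    simp only [x, Pi.add_apply, Finset.sum_apply, Pi.smul_apply, smul_eq_mul]
    have : ∑ j, (c n j + 2 * (c n' j - c n j)) * p i0 j t + ∑ j, c n j * p i0 j t
        = 2 * ∑ j, c n' j * p i0 j t := by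
      rw [← Finset.sum_add_distrib, Finset.mul_sum]
      apply Finset.sum_congr rfl
      intro j _
      have h3 : c n j ≤ c n' j := hcc j
      obtain ⟨e, he⟩ := Nat.exists_eq_add_of_le h3
      rw [he, Nat.add_sub_cancel_left]
      ring
    omega
  have hx0 := hsum 0
  have hx1 := hsum 1
  simp only [z, Matrix.cons_val_zero, Matrix.cons_val_one] at hx0 hx1
  have p1 : 1 ≤ 2 ^ a := Nat.one_le_two_pow
  have p2 : 2 ^ a < 2 ^ a' := Nat.pow_lt_pow_right (by norm_num) haa
  have p3 : 2 ^ (a' + 1) = 2 * 2 ^ a' := by ring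
  have e0 : x 0 = 2 ^ (a' + 1) - 2 ^ a - 1 := by omega
  have e1 : x 1 = 46 * (2 * (2 ^ (a' + 1) - 2 ^ a) - 1) + 24 := by omega
  rw [Set.mem_ofPred_eq, e0, e1, pat_bad a a' haa] at hx
  exact absurd hx (by simp)

end Pool.Agent.S08224
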