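import Pool.Statements.S08235
import Pool.Agent.H891R3.OddBall

set_option autoImplicit false
open Filter Topology
open Pool Pool.MP_3c9ffc_co

namespace Pool.Agent.S08235

/-- There are constants c_p ≥ 0 tending to 0 such that, for each p ≥ 1, every graph on 2α+p vertices with no independent set of size α+1 has an odd cycle of length at most c_p·α + o(α). -/
theorem result :
    ∃ c : ℕ → ℝ, (∀ p, 0 ≤ c p) ∧ Tendsto c atTop (𝓝 0) ∧
      ∀ p : ℕ, 1 ≤ p →
        ∃ e : ℕ → ℝ, Tendsto (fun α : ℕ => e α / (α : ℝ)) atTop (𝓝 0) ∧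
          ∀ α : ℕ, ∀ G : SimpleGraph (Fin (2 * α + p)),
            (∀ s : Finset (Fin (2 * α + p)), G.IsIndepSet (s : Set (Fin (2 * α + p))) → s.card ≤ α) →
            ∃ v : Fin (2 * α + p), ∃ w : G.Walk v v,
              w.IsCycle ∧ Odd w.length ∧ (w.length : ℝ) ≤ c p * (α : ℝ) + e α := by
  classical
  refine ⟨fun p => 8 / Real.sqrt p, fun p => by positivity, ?_, ?_⟩
  · have h1 : Tendsto (fun p : ℕ => Real.sqrt (p : ℝ)) atTop atTop :=
      Real.tendsto_sqrt_atTop.comp tendsto_natCast_atTop_atTop
    exact h1.const_div_atTop 8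
  · intro p hp
    refine ⟨fun _ => 4 * Real.sqrt p + 2, ?_, ?_⟩
    · exact tendsto_const_div_atTop_nhds_zero_nat _
    · intro α G hα
      by_contra hcon
      push Not at hcon
      set X : ℝ := 8 / Real.sqrt p * (α : ℝ) + (4 * Real.sqrt p + 2) with hX
      have hp1 : (1 : ℝ) ≤ p := by exact_mod_cast hp
      have hs1 : (1 : ℝ) ≤ Real.sqrt p := by
        rw [Real.one_le_sqrt]
        exact hp1
      have hspos : (0 : ℝ) < Real.sqrt p := by linarith
      have hX0 : 0 ≤ X := by positivity
      -- choose h with 2 h - 1 ≤ X < 2 h + 1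
      set h : ℕ := ⌊(X + 1) / 2⌋₊ with hh
      have hX1 : (h : ℝ) ≤ (X + 1) / 2 := Nat.floor_le (by positivity)
      have hX2 : (X + 1) / 2 < h + 1 := Nat.lt_floor_add_one _
      have hhpos : 1 ≤ h := by
        rw [hh]
        apply Nat.le_floor
        have : (0 : ℝ) ≤ 8 / Real.sqrt p * (α : ℝ) := by positivity
        push_cast
        linarith
      have hG : ∀ x, ∀ c : G.Walk x x, c.IsCycle → Odd c.length → 2 * h ≤ c.length := by
        intro x c hc ho
        have h1 := hcon x c hc ho
        have h2 : (2 * h : ℝ) - 1 < c.length := by linarith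
        have h3 : 2 * h < c.length + 1 := by
          have : ((2 * h : ℕ) : ℝ) < ((c.length + 1 : ℕ) : ℝ) := by
            push_cast
            linarith
          exact_mod_cast this
        omega
      obtain ⟨A, B, -, -, hA, hB, hineq⟩ :=
        Pool.Agent.H891R3.OddBall.main G h hhpos hG _ Finset.univ rfl
      have hAc := hα A hA
      have hBc := hα B hB
      rw [Finset.card_univ, Fintype.card_fin] at hineq
      have h4 : (2 * α + p) * h ^ 2 ≤ (α + α) * h ^ 2 + 4 * (2 * α + p) * (2 * α + p) := by
        refine hineq.trans ?_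
        gcongr
      have h5 : p * h ^ 2 ≤ (2 * (2 * α + p)) ^ 2 := by nlinarith
      have h6 : (Real.sqrt p * h) ^ 2 ≤ (2 * (2 * α + p) : ℝ) ^ 2 := by
        rw [mul_pow, Real.sq_sqrt (by positivity)]
        exact_mod_cast h5
      have h7 : Real.sqrt p * h ≤ 2 * (2 * α + p) := by
        apply le_of_sq_le_sq _ (by positivity)
        exact h6
      have h8 : Real.sqrt p * (2 * h + 1) ≤ 8 * α + 4 * p + Real.sqrt p := by linarith
      have h9 : Real.sqrt p * X < Real.sqrt p * (2 * h + 1) := by
        apply mul_lt_mul_of_pos_left _ hspos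
        linarith
      have h10 : Real.sqrt p * X = 8 * α + 4 * p + 2 * Real.sqrt p := by
        rw [hX, mul_add, ← mul_assoc, mul_div_assoc', mul_div_cancel_left₀ _ hspos.ne']
        have : Real.sqrt p * Real.sqrt p = p := Real.mul_self_sqrt (by positivity)
        linear_combination 4 * this
      linarith

end Pool.Agent.S08235
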