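-- Proof of the frozen statement S08250: no 3-colourable graph without an induced path on five
-- vertices has a frozen 4-colouring. The proof runs a verified checker on a refutation tree.
import Pool.Statements.S08250
import Pool.Agent.H125R3.FrozenP5Sound
import Pool.Agent.H125R3.FrozenP5Cert

set_option autoImplicit false
open Pool Pool.MP_3d2668_co

namespace Pool.Agent.S08250

open Pool.Agent.H125R3.FrozenP5

theorem codes : ∀ a < 3, ∀ b < 4, ∃ d ∈ ([589824, 1114112, 2162688, 4259840, 655360, 1179648,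
    2228224, 4325376, 786432, 1310720, 2359296, 4456448] : List ℕ),
    ∀ n < 23, (Nat.testBit d n = true ↔ (n = 16 + a ∨ n = 19 + b)) := by
  decide +kernel

theorem code0 : ∀ n < 23, (Nat.testBit 589824 n = true ↔ (n = 16 + 0 ∨ n = 19 + 0)) := by
  decide +kernel

/-- The negation of the preceding statement: There is a finite nonempty graph that is 3-colourable, has no induced 5-vertex path, and has a proper 4-colouring in which every vertex has neighbours of all three colours other than its own. -/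
theorem result :
    ¬ (∃ (V : Type) (_ : Fintype V) (_ : Nonempty V) (G : SimpleGraph V),
      G.Colorable 3 ∧
      IsEmpty (SimpleGraph.pathGraph 5 ↪g G) ∧
      ∃ c : G.Coloring (Fin 4), ∀ v : V, ∀ i : Fin 4, i ≠ c v →
        ∃ w : V, G.Adj v w ∧ c w = i) := by
  rintro ⟨V, _, ⟨v0⟩, G, ⟨C3⟩, hP5, c, hfr⟩
  let c3 : V → ℕ := fun x => (Equiv.swap (C3 v0) 0 (C3 x)).val
  let c4 : V → ℕ := fun x => (Equiv.swap (c v0) 0 (c x)).val
  have h3 : ∀ x y, G.Adj x y → c3 x ≠ c3 y := by
    intro x y hxy he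
    exact C3.valid hxy ((Equiv.swap (C3 v0) 0).injective (Fin.ext he))
  have h4 : ∀ x y, G.Adj x y → c4 x ≠ c4 y := by
    intro x y hxy he
    exact c.valid hxy ((Equiv.swap (c v0) 0).injective (Fin.ext he))
  have b3 : ∀ x, c3 x < 3 := fun x => (Equiv.swap (C3 v0) 0 (C3 x)).isLt
  have b4 : ∀ x, c4 x < 4 := fun x => (Equiv.swap (c v0) 0 (c x)).isLt
  have z3 : c3 v0 = 0 := by simp [c3]
  have z4 : c4 v0 = 0 := by simp [c4]
  have hP : ∀ v : Fin 5 → V, ¬ P5 G v := by
    intro v hv
    obtain ⟨e⟩ := embed_of_P5 G v hv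
    exact hP5.false e
  have hF : ∀ v : V, ∀ j : ℕ, j < 4 → j ≠ c4 v → ∃ w, G.Adj v w ∧ c4 w = j := by
    intro v j hj hne
    obtain ⟨w, hw, hwj⟩ := hfr v (Equiv.swap (c v0) 0 ⟨j, hj⟩) (by
      intro he
      apply hne
      show j = (Equiv.swap (c v0) 0 (c v)).val
      rw [← he, Equiv.swap_apply_self])
    refine ⟨w, hw, ?_⟩
    show (Equiv.swap (c v0) 0 (c w)).val = j
    rw [hwj, Equiv.swap_apply_self]
  have hI0 : Inv G c3 c4 (fun _ => v0) 0 (fun _ => 0) := fun p hp => absurd hp (by omega)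
  have hC0 : Cover G c3 c4 (fun _ => v0) 0 [589824, 1114112, 2162688, 4259840, 655360, 1179648,
    2228224, 4325376, 786432, 1310720, 2359296, 4456448] := by
    intro x
    obtain ⟨d, hd, h⟩ := codes (c3 x) (b3 x) (c4 x) (b4 x)
    refine ⟨d, hd, ?_⟩
    intro n hn
    rw [h n hn]
    constructor
    · intro h; exact Or.inr h
    · rintro (⟨h1, _⟩ | h1)
      · omega
      · exact h1
  have hv0 : Real G c3 c4 (fun _ => v0) 0 v0 589824 := by
    intro n hn
    rw [code0 n hn, z3, z4]
    constructor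
    · intro h; exact Or.inr h
    · rintro (⟨h1, _⟩ | h1)
      · omega
      · exact h1
  have hI1 := inv_ext G c3 c4 hI0 hv0
  have hC1 := cover_upd G c3 c4 (by norm_num) h3 h4 b3 hI0 hC0 (by norm_num) hv0 hP
    (ps := []) (by intro n hn; simp at hn)
  exact check_sound G c3 c4 h3 h4 b3 hP hF cert _ _ 1 _ (by norm_num) hI1 hC1 check_cert

end Pool.Agent.S08250
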