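import Pool.Statements.S08268

set_option autoImplicit false
open Pool Pool.MP_3df3be_co

namespace Pool.Agent.S08268

open Finset

/-- A subsquare of order 4 of a latin square of order 8 splits the square into four blocks. -/
theorem block (L : Fin 8 → Fin 8 → Fin 8) (hr : ∀ i, Function.Bijective (L i))
    (hc : ∀ j, Function.Bijective (fun i => L i j)) (R C S : Finset (Fin 8))
    (hR : R.card = 4) (hC : C.card = 4) (hS : S.card = 4)
    (h : ∀ r ∈ R, ∀ c ∈ C, L r c ∈ S) (r c : Fin 8) :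
    L r c ∈ S ↔ (r ∈ R ↔ c ∈ C) := by
  have h1 : ∀ r ∈ R, C.image (L r) = S := fun r hr' => by
    apply Finset.eq_of_subset_of_card_le
    · intro x hx
      obtain ⟨c, hc', rfl⟩ := Finset.mem_image.1 hx
      exact h r hr' c hc'
    · rw [Finset.card_image_of_injective _ (hr r).1, hC, hS]
  have h2 : ∀ c ∈ C, R.image (fun i => L i c) = S := fun c hc' => by
    apply Finset.eq_of_subset_of_card_le
    · intro x hx
      obtain ⟨r, hr', rfl⟩ := Finset.mem_image.1 hx
      exact h r hr' c hc'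
    · rw [Finset.card_image_of_injective _ (hc c).1, hR, hS]
  have h3 : ∀ r ∈ R, ∀ c, L r c ∈ S → c ∈ C := fun r hr' c hs => by
    rw [← h1 r hr'] at hs
    obtain ⟨c', hc', e⟩ := Finset.mem_image.1 hs
    exact (hr r).1 e ▸ hc'
  have h4 : ∀ c ∈ C, ∀ r, L r c ∈ S → r ∈ R := fun c hc' r hs => by
    rw [← h2 c hc'] at hs
    obtain ⟨r', hr', e⟩ := Finset.mem_image.1 hs
    exact (hc c).1 e ▸ hr'
  by_cases hrR : r ∈ R
  · exact ⟨fun hs => ⟨fun _ => h3 r hrR c hs, fun _ => hrR⟩, fun hi => h r hrR c (hi.1 hrR)⟩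
  · have h5 : C.image (L r) = Sᶜ := by
      apply Finset.eq_of_subset_of_card_le
      · intro x hx
        obtain ⟨c, hc', rfl⟩ := Finset.mem_image.1 hx
        rw [Finset.mem_compl]
        exact fun hs => hrR (h4 c hc' r hs)
      · rw [Finset.card_image_of_injective _ (hr r).1, hC, Finset.card_compl, hS]
        simp
    constructor
    · intro hs
      refine ⟨fun h' => absurd h' hrR, fun hcC => absurd (h4 c hcC r hs) hrR⟩
    · intro hi
      have hcC : c ∉ C := fun h' => hrR (hi.2 h')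
      by_contra hs
      rw [← Finset.mem_compl, ← h5] at hs
      obtain ⟨c', hc', e⟩ := Finset.mem_image.1 hs
      exact hcC ((hr r).1 e ▸ hc')

/-- The negation of the preceding statement: For every n there is a latin square of order n such that, for each m with 1 ≤ m and 2m ≤ n, some m rows and m columns meet in an m×m subarray using only m symbols, i.e. a latin subsquare of order m. -/
theorem result :
    ¬ (∀ n : ℕ, ∃ L : Fin n → Fin n → Fin n,
      (∀ i : Fin n, Function.Bijective (L i)) ∧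
      (∀ j : Fin n, Function.Bijective (fun i : Fin n => L i j)) ∧
      ∀ m : ℕ, 1 ≤ m → 2 * m ≤ n →
        ∃ R C S : Finset (Fin n),
          R.card = m ∧ C.card = m ∧ S.card = m ∧
          ∀ r ∈ R, ∀ c ∈ C, L r c ∈ S) := by
  intro hall
  obtain ⟨L, hr, hc, hm⟩ := hall 8
  obtain ⟨R, C, S, hR, hC, hS, h⟩ := hm 4 (by norm_num) (by norm_num)
  obtain ⟨R', C', S', hR', hC', hS', h'⟩ := hm 3 (by norm_num) (by norm_num)
  have hb := block L hr hc R C S hR hC hS h
  have h1 : ∀ r ∈ R', C'.image (L r) = S' := fun r hr' => by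
    apply Finset.eq_of_subset_of_card_le
    · intro x hx
      obtain ⟨c, hc', rfl⟩ := Finset.mem_image.1 hx
      exact h' r hr' c hc'
    · rw [Finset.card_image_of_injective _ (hr r).1, hC', hS']
  have h2 : ∀ c ∈ C', R'.image (fun i => L i c) = S' := fun c hc' => by
    apply Finset.eq_of_subset_of_card_le
    · intro x hx
      obtain ⟨r, hr', rfl⟩ := Finset.mem_image.1 hx
      exact h' r hr' c hc'
    · rw [Finset.card_image_of_injective _ (hc c).1, hR', hS']
  -- number of symbols of `S'` in `S`, counted along a row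
  have h3 : ∀ r ∈ R', (S'.filter (· ∈ S)).card = (C'.filter (fun c => (r ∈ R ↔ c ∈ C))).card := by
    intro r hr'
    rw [← h1 r hr', Finset.filter_image, Finset.card_image_of_injective _ (hr r).1]
    congr 1
    ext c
    simp [hb r c]
  have h4 : ∀ c ∈ C', (S'.filter (· ∈ S)).card = (R'.filter (fun r => (r ∈ R ↔ c ∈ C))).card := by
    intro c hc'
    rw [← h2 c hc', Finset.filter_image, Finset.card_image_of_injective _ (hc c).1]
    congr 1
    ext r
    simp [hb r c]
  have h5 : ∀ r ∈ R', ∀ r₂ ∈ R', r ∈ R → r₂ ∈ R := by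
    intro r hr' r₂ hr₂' hrR
    by_contra hn
    have e1 := h3 r hr'
    have e2 := h3 r₂ hr₂'
    have e3 := Finset.card_filter_add_card_filter_not (s := C') (fun c => c ∈ C)
    simp only [hrR, true_iff] at e1
    simp only [hn, false_iff] at e2
    omega
  have h6 : ∀ c ∈ C', ∀ c₂ ∈ C', c ∈ C → c₂ ∈ C := by
    intro c hc' c₂ hc₂' hcC
    by_contra hn
    have e1 := h4 c hc'
    have e2 := h4 c₂ hc₂'
    have e3 := Finset.card_filter_add_card_filter_not (s := R') (fun r => r ∈ R)
    simp only [hcC, iff_true] at e1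
    simp only [hn, iff_false] at e2
    omega
  obtain ⟨r₁, hr₁⟩ : R'.Nonempty := Finset.card_pos.1 (by omega)
  obtain ⟨c₁, hc₁⟩ : C'.Nonempty := Finset.card_pos.1 (by omega)
  -- a row outside `R'` in the same class
  obtain ⟨r₀, hr₀, hr₀'⟩ : ∃ r₀, (r₀ ∈ R ↔ r₁ ∈ R) ∧ r₀ ∉ R' := by
    by_contra hno
    push Not at hno
    have : (Finset.univ.filter (fun r => (r ∈ R ↔ r₁ ∈ R))).card ≤ R'.card :=
      Finset.card_le_card (fun r hr' => hno r (Finset.mem_filter.1 hr').2)
    have e : (Finset.univ.filter (fun r => (r ∈ R ↔ r₁ ∈ R))).card = 4 := by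
      by_cases hh : r₁ ∈ R
      · simp [hh, hR]
      · simp only [hh, iff_false]
        have := Finset.card_filter_add_card_filter_not (s := (Finset.univ : Finset (Fin 8)))
          (fun r => r ∈ R)
        simp [hR] at this
        omega
    omega
  -- the symbols of the class of `S'` outside `S'`
  have hcls : ∀ c ∈ C', ∀ r, (r ∈ R ↔ r₁ ∈ R) → (L r c ∈ S ↔ (r₁ ∈ R ↔ c₁ ∈ C)) := by
    intro c hc' r hrr
    rw [hb r c, hrr]
    have : c ∈ C ↔ c₁ ∈ C := ⟨h6 c hc' c₁ hc₁, h6 c₁ hc₁ c hc'⟩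
    rw [this]
  have hsub : C'.image (L r₀) ⊆ (Finset.univ.filter (fun s => (s ∈ S ↔ (r₁ ∈ R ↔ c₁ ∈ C)))) \ S' := by
    intro s hs
    obtain ⟨c, hc', rfl⟩ := Finset.mem_image.1 hs
    rw [Finset.mem_sdiff, Finset.mem_filter]
    refine ⟨⟨Finset.mem_univ _, hcls c hc' r₀ hr₀⟩, fun hs' => ?_⟩
    rw [← h2 c hc'] at hs'
    obtain ⟨r, hr', e⟩ := Finset.mem_image.1 hs'
    exact hr₀' ((hc c).1 e ▸ hr')
  have hsub2 : S' ⊆ (Finset.univ.filter (fun s => (s ∈ S ↔ (r₁ ∈ R ↔ c₁ ∈ C)))) := by
    intro s hs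
    rw [← h1 r₁ hr₁] at hs
    obtain ⟨c, hc', rfl⟩ := Finset.mem_image.1 hs
    rw [Finset.mem_filter]
    exact ⟨Finset.mem_univ _, hcls c hc' r₁ Iff.rfl⟩
  have hcard : (Finset.univ.filter (fun s => (s ∈ S ↔ (r₁ ∈ R ↔ c₁ ∈ C)))).card = 4 := by
    by_cases hh : (r₁ ∈ R ↔ c₁ ∈ C)
    · simp [hh, hS]
    · simp only [hh, iff_false]
      have := Finset.card_filter_add_card_filter_not (s := (Finset.univ : Finset (Fin 8)))
        (fun r => r ∈ S)
      simp [hS] at this
      omega
  have := Finset.card_le_card hsub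
  rw [Finset.card_image_of_injective _ (hr r₀).1, hC', Finset.card_sdiff_of_subset hsub2, hcard,
    hS'] at this
  omega

end Pool.Agent.S08268
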