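import Pool.Statements.S08294
import Pool.Agent.H367R3.ColGraph2

set_option autoImplicit false
open Pool Pool.MP_3ee535_co

namespace Pool.Agent.S08294

open Pool.Agent.H367R3.ColGraph

/-- Back-neighbour masks of `G₁`: a `K₄` with a triangle hung at each vertex, a triangle, three
edges and three isolated vertices. -/
def mask1 : List ℕ := [0, 1, 3, 7, 1, 17, 2, 66, 4, 260, 8, 1032, 0, 4096, 12288, 0, 32768,
  0, 131072, 0, 524288, 0, 0, 0]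

/-- Back-neighbour masks of `G₂`: eight disjoint triangles. -/
def mask2 : List ℕ := [0, 1, 3, 0, 8, 24, 0, 64, 192, 0, 512, 1536, 0, 4096, 12288, 0, 32768,
  98304, 0, 262144, 786432, 0, 2097152, 6291456]

def R1 (i j : ℕ) : Bool := (mask1.getD i 0).testBit j
def R2 (i j : ℕ) : Bool := (mask2.getD i 0).testBit j

def d1 (i : ℕ) : ℕ := [0, 1, 2, 3, 1, 2, 1, 2, 1, 2, 1, 2, 0, 1, 2, 0, 1, 0, 1, 0, 1, 0, 0, 0].getD i 0
def d2 (i : ℕ) : ℕ := i % 3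

set_option maxRecDepth 100000

theorem peo1 : ∀ i < 24, PEO R1 i := by
  unfold PEO
  decide

theorem peo2 : ∀ i < 24, PEO R2 i := by
  unfold PEO
  decide

theorem dg1 : ∀ i < 24, dg R1 i = d1 i := by
  unfold dg
  decide

theorem dg2 : ∀ i < 24, dg R2 i = d2 i := by
  unfold dg
  decide

theorem small1 : ∀ u : Fin 24, ∀ x ∈ Dl R1 d1 u 24, x < 5 := by decide

theorem small2 : ∀ u : Fin 24, ∀ x ∈ Dl R2 d2 u 24, x < 5 := by decide

theorem tab1 : (List.finRange 24).map (fun u : Fin 24 => cnt (Dl R1 d1 u 24)) =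
    [(8, 8, 6, 2, 1), (8, 8, 6, 2, 1), (8, 8, 6, 2, 1), (8, 8, 6, 2, 1), (8, 9, 6, 2, 0),
     (8, 9, 6, 2, 0), (8, 9, 6, 2, 0), (8, 9, 6, 2, 0), (8, 9, 6, 2, 0), (8, 9, 6, 2, 0),
     (8, 9, 6, 2, 0), (8, 9, 6, 2, 0), (8, 9, 6, 2, 0), (8, 9, 6, 2, 0), (8, 9, 6, 2, 0),
     (8, 9, 7, 1, 0), (8, 9, 7, 1, 0), (8, 9, 7, 1, 0), (8, 9, 7, 1, 0), (8, 9, 7, 1, 0),
     (8, 9, 7, 1, 0), (8, 10, 6, 1, 0), (8, 10, 6, 1, 0), (8, 10, 6, 1, 0)] := by decide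

theorem tab2 : (List.finRange 24).map (fun u : Fin 24 => cnt (Dl R2 d2 u 24)) =
    [(8, 8, 8, 1, 0), (8, 8, 8, 1, 0), (8, 8, 8, 1, 0), (8, 8, 8, 1, 0), (8, 8, 8, 1, 0),
     (8, 8, 8, 1, 0), (8, 8, 8, 1, 0), (8, 8, 8, 1, 0), (8, 8, 8, 1, 0), (8, 8, 8, 1, 0),
     (8, 8, 8, 1, 0), (8, 8, 8, 1, 0), (8, 8, 8, 1, 0), (8, 8, 8, 1, 0), (8, 8, 8, 1, 0),
     (8, 8, 8, 1, 0), (8, 8, 8, 1, 0), (8, 8, 8, 1, 0), (8, 8, 8, 1, 0), (8, 8, 8, 1, 0),
     (8, 8, 8, 1, 0), (8, 8, 8, 1, 0), (8, 8, 8, 1, 0), (8, 8, 8, 1, 0)] := by decide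

theorem sum1 (k : ℕ) : ∑ u : Fin 24, (DD R1 k 24 u).card =
    (((List.finRange 24).map (fun u : Fin 24 => cnt (Dl R1 d1 u 24))).map (cval k)).sum := by
  rw [List.map_map, Fin.sum_univ_def]
  congr 1
  apply List.map_congr_left
  intro u _
  rw [card_DD (d := d1) 24 u peo1 dg1, val_eq_cval k _ (small1 u)]
  rfl

theorem sum2 (k : ℕ) : ∑ u : Fin 24, (DD R2 k 24 u).card =
    (((List.finRange 24).map (fun u : Fin 24 => cnt (Dl R2 d2 u 24))).map (cval k)).sum := by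
  rw [List.map_map, Fin.sum_univ_def]
  congr 1
  apply List.map_congr_left
  intro u _
  rw [card_DD (d := d2) 24 u peo2 dg2, val_eq_cval k _ (small2 u)]
  rfl

theorem poly_id (k : ℕ) :
    4 * cval k (8, 8, 6, 2, 1) + 11 * cval k (8, 9, 6, 2, 0) + 6 * cval k (8, 9, 7, 1, 0) +
      3 * cval k (8, 10, 6, 1, 0) = 24 * cval k (8, 8, 8, 1, 0) := by
  rcases Nat.lt_or_ge k 4 with hk | hk
  · have h3 : k - 3 = 0 := by omega
    simp [cval, h3]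
  · obtain ⟨m, rfl⟩ : ∃ m, k = m + 4 := ⟨k - 4, by omega⟩
    have e1 : m + 4 - 1 = m + 3 := by omega
    have e2 : m + 4 - 2 = m + 2 := by omega
    have e3 : m + 4 - 3 = m + 1 := by omega
    have e4 : m + 4 - 4 = m := by omega
    simp only [cval, e1, e2, e3, e4]
    have key : 4 * ((m + 1) * m) + 11 * ((m + 3) * (m + 1)) + 6 * ((m + 3) * (m + 2)) +
        3 * ((m + 3) * (m + 3)) = 24 * ((m + 2) * (m + 2)) := by ring
    calc 4 * ((m + 4) ^ 8 * (m + 3) ^ 8 * (m + 2) ^ 6 * (m + 1) ^ 2 * m ^ 1) +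
          11 * ((m + 4) ^ 8 * (m + 3) ^ 9 * (m + 2) ^ 6 * (m + 1) ^ 2 * m ^ 0) +
          6 * ((m + 4) ^ 8 * (m + 3) ^ 9 * (m + 2) ^ 7 * (m + 1) ^ 1 * m ^ 0) +
          3 * ((m + 4) ^ 8 * (m + 3) ^ 10 * (m + 2) ^ 6 * (m + 1) ^ 1 * m ^ 0)
        = ((m + 4) ^ 8 * (m + 3) ^ 8 * (m + 2) ^ 6 * (m + 1)) *
          (4 * ((m + 1) * m) + 11 * ((m + 3) * (m + 1)) + 6 * ((m + 3) * (m + 2)) +
            3 * ((m + 3) * (m + 3))) := by
          generalize (m + 4) ^ 8 = A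
          generalize hB : (m + 3) = B
          generalize hC : (m + 2) = C
          generalize hD : (m + 1) = D
          ring
      _ = ((m + 4) ^ 8 * (m + 3) ^ 8 * (m + 2) ^ 6 * (m + 1)) * (24 * ((m + 2) * (m + 2))) := by
          rw [key]
      _ = 24 * ((m + 4) ^ 8 * (m + 3) ^ 8 * (m + 2) ^ 8 * (m + 1) ^ 1 * m ^ 0) := by
          generalize (m + 4) ^ 8 = A
          generalize hB : (m + 3) = B
          generalize hC : (m + 2) = C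
          generalize hD : (m + 1) = D
          ring

theorem sum_general (g : ℕ × ℕ × ℕ × ℕ × ℕ → ℕ)
    (h : 4 * g (8, 8, 6, 2, 1) + 11 * g (8, 9, 6, 2, 0) + 6 * g (8, 9, 7, 1, 0) +
      3 * g (8, 10, 6, 1, 0) = 24 * g (8, 8, 8, 1, 0)) :
    (([(8, 8, 6, 2, 1), (8, 8, 6, 2, 1), (8, 8, 6, 2, 1), (8, 8, 6, 2, 1), (8, 9, 6, 2, 0),
     (8, 9, 6, 2, 0), (8, 9, 6, 2, 0), (8, 9, 6, 2, 0), (8, 9, 6, 2, 0), (8, 9, 6, 2, 0),
     (8, 9, 6, 2, 0), (8, 9, 6, 2, 0), (8, 9, 6, 2, 0), (8, 9, 6, 2, 0), (8, 9, 6, 2, 0),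
     (8, 9, 7, 1, 0), (8, 9, 7, 1, 0), (8, 9, 7, 1, 0), (8, 9, 7, 1, 0), (8, 9, 7, 1, 0),
     (8, 9, 7, 1, 0), (8, 10, 6, 1, 0), (8, 10, 6, 1, 0), (8, 10, 6, 1, 0)] :
       List (ℕ × ℕ × ℕ × ℕ × ℕ)).map g).sum =
    (([(8, 8, 8, 1, 0), (8, 8, 8, 1, 0), (8, 8, 8, 1, 0), (8, 8, 8, 1, 0), (8, 8, 8, 1, 0),
     (8, 8, 8, 1, 0), (8, 8, 8, 1, 0), (8, 8, 8, 1, 0), (8, 8, 8, 1, 0), (8, 8, 8, 1, 0),
     (8, 8, 8, 1, 0), (8, 8, 8, 1, 0), (8, 8, 8, 1, 0), (8, 8, 8, 1, 0), (8, 8, 8, 1, 0),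
     (8, 8, 8, 1, 0), (8, 8, 8, 1, 0), (8, 8, 8, 1, 0), (8, 8, 8, 1, 0), (8, 8, 8, 1, 0),
     (8, 8, 8, 1, 0), (8, 8, 8, 1, 0), (8, 8, 8, 1, 0), (8, 8, 8, 1, 0)] :
       List (ℕ × ℕ × ℕ × ℕ × ℕ)).map g).sum := by
  simp only [List.map_cons, List.map_nil, List.sum_cons, List.sum_nil]
  linarith

theorem pairs_eq (k : ℕ) :
    ∑ u : Fin 24, (DD R1 k 24 u).card = ∑ u : Fin 24, (DD R2 k 24 u).card := by
  rw [sum1, sum2, tab1, tab2]
  exact sum_general (cval k) (poly_id k)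

theorem val3 : val 3 (Cl d1 24) ≠ val 3 (Cl d2 24) := by decide

/-- The negation of the preceding statement: For finite graphs G1, G2: if for every k their k-colouring graphs have equally many edges (counted as ordered pairs of proper colourings differing at exactly one vertex), then for every k they have equally many proper k-colourings. -/
theorem result :
    ¬ (∀ (n m : ℕ) (G₁ : SimpleGraph (Fin n)) (G₂ : SimpleGraph (Fin m)),
      (∀ k : ℕ,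
        Nat.card {p : G₁.Coloring (Fin k) × G₁.Coloring (Fin k) //
            Nat.card {v : Fin n // p.1 v ≠ p.2 v} = 1} =
          Nat.card {p : G₂.Coloring (Fin k) × G₂.Coloring (Fin k) //
            Nat.card {v : Fin m // p.1 v ≠ p.2 v} = 1}) →
      ∀ k : ℕ, Nat.card (G₁.Coloring (Fin k)) = Nat.card (G₂.Coloring (Fin k))) := by
  intro h
  have h0 : ∀ k : ℕ,
        Nat.card {p : (GR R1 24).Coloring (Fin k) × (GR R1 24).Coloring (Fin k) //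
            Nat.card {v : Fin 24 // p.1 v ≠ p.2 v} = 1} =
          Nat.card {p : (GR R2 24).Coloring (Fin k) × (GR R2 24).Coloring (Fin k) //
            Nat.card {v : Fin 24 // p.1 v ≠ p.2 v} = 1} := by
    intro k
    rw [card_pairs, card_pairs]
    exact pairs_eq k
  have h1 := h 24 24 (GR R1 24) (GR R2 24) h0 3
  rw [card_coloring, card_coloring, card_PC (d := d1) 24 peo1 dg1,
    card_PC (d := d2) 24 peo2 dg2] at h1
  exact val3 h1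

end Pool.Agent.S08294
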