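import Pool.Statements.S08302
import Pool.Agent.H620R3.OP.Asm
import Pool.Agent.H620R3.OP.Aff
import Pool.Agent.H620R3.OP.Grp
import Pool.Agent.H620R3.OP.Span

set_option autoImplicit false
open Pool Pool.MP_3f311b_co

namespace Pool.Agent.S08302

/-- The negation of the preceding statement: For every finite matrix group G and full-dimensional orbit polytope conv(Gv), some v0 gives a combinatorially equivalent orbit polytope conv(Gv0) all of whose face-preserving vertex permutations are restrictions of affine bijections. -/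
theorem result :
    ¬ (∀ (d : ℕ) (G : Subgroup (Matrix.GeneralLinearGroup (Fin d) ℝ)),
    (G : Set (Matrix.GeneralLinearGroup (Fin d) ℝ)).Finite →
    ∀ (orb : (Fin d → ℝ) → Set (Fin d → ℝ)),
      (∀ w, orb w = {x | ∃ g ∈ G, x = Matrix.mulVec (g : Matrix (Fin d) (Fin d) ℝ) w}) →
    ∀ (facial : Set (Fin d → ℝ) → Set (Fin d → ℝ) → Prop),
      (∀ S A, facial S A ↔ ∃ ℓ : (Fin d → ℝ) →ₗ[ℝ] ℝ, ∃ c : ℝ,
          (∀ x ∈ S, ℓ x ≤ c) ∧ A = {x | x ∈ S ∧ ℓ x = c}) →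
    ∀ v : Fin d → ℝ, affineSpan ℝ (orb v) = ⊤ →
    ∃ v₀ : Fin d → ℝ,
      (∃ f : (Fin d → ℝ) → (Fin d → ℝ), Set.BijOn f (orb v) (orb v₀) ∧
        ∀ A ⊆ orb v, (facial (orb v) A ↔ facial (orb v₀) (f '' A))) ∧
      ∀ σ : (Fin d → ℝ) → (Fin d → ℝ), Set.BijOn σ (orb v₀) (orb v₀) →
        (∀ A ⊆ orb v₀, (facial (orb v₀) A ↔ facial (orb v₀) (σ '' A))) →
        ∃ T : (Fin d → ℝ) ≃ᵃ[ℝ] (Fin d → ℝ), ∀ x ∈ orb v₀, T x = σ x) := by
  exact Pool.Agent.H620R3.OP.main Pool.Agent.H620R3.OP.taskAff Pool.Agent.H620R3.OP.taskGrp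
    Pool.Agent.H620R3.OP.taskSpan

end Pool.Agent.S08302
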