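import Pool.Statements.S08327
import Pool.Agent.H315R3.White.Link

set_option autoImplicit false
open Pool Pool.MP_405c89_co

namespace Pool.Agent.S08327

/-- Take a finite matroid where every rank-size set is a basis or meets a stressed set in more than that set's rank. Then any two n-tuples of bases with the same multiset union are joined by finitely many symmetric exchanges on pairs. -/
theorem result :
    ∀ (α : Type) [Fintype α] [DecidableEq α] (M : Matroid α),
      (∀ (B0 S : Set α), M.IsBase B0 → S ⊆ M.E → S.ncard = B0.ncard →
        (M.IsBase S ∨
          ∃ (A I : Set α), A ⊆ M.E ∧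
            (∀ X Y : Set α, (M.restrict A).IsBase X → Y ⊆ (M.restrict A).E →
              Y.ncard = X.ncard → (M.restrict A).IsBase Y) ∧
            (∀ X Y : Set α, (M.contract A).IsBase X → Y ⊆ (M.contract A).E →
              Y.ncard = X.ncard → (M.contract A).IsBase Y) ∧
            M.IsBasis I A ∧ I.ncard < (S ∩ A).ncard)) →
      ∀ (n : ℕ) (B B' : Fin n → Finset α),
        (∀ i, M.IsBase (↑(B i) : Set α)) →
        (∀ i, M.IsBase (↑(B' i) : Set α)) →
        (Finset.univ.sum (fun i => (B i).val)) = (Finset.univ.sum (fun i => (B' i).val)) →
        Relation.ReflTransGen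
          (fun T T' : Fin n → Finset α =>
            ∃ (i j : Fin n) (a b : α), i ≠ j ∧
              a ∈ T i ∧ a ∉ T j ∧ b ∈ T j ∧ b ∉ T i ∧
              M.IsBase (↑(insert b ((T i).erase a)) : Set α) ∧
              M.IsBase (↑(insert a ((T j).erase b)) : Set α) ∧
              T' = Function.update (Function.update T i (insert b ((T i).erase a))) j
                (insert a ((T j).erase b)))
          B B' := by
  intro α _ _ M hM n B B' hB hB' hsum
  rcases n with _ | n
  · have : B = B' := by
      funext i
      exact i.elim0
    rw [this]
  · have h := Pool.Agent.H315R3.White.tuple_conn (M := Pool.Agent.H315R3.White.sys M)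
      (ι := Fin (n + 1)) _ Finset.univ rfl _ 0 (Finset.mem_univ _) B B'
      (fun i => Pool.Agent.H315R3.White.good_of_base (hB i))
      (fun i => Pool.Agent.H315R3.White.good_of_base (hB' i))
      (fun k hk => absurd (Finset.mem_univ k) hk)
      (by
        intro x
        have h1 := congrArg (Multiset.count x) hsum
        rw [Multiset.count_sum', Multiset.count_sum'] at h1
        have e : ∀ T : Fin (n + 1) → Finset α, Pool.Agent.H315R3.White.cnt T x
            = ∑ i, Multiset.count x (T i).val := by
          intro T
          unfold Pool.Agent.H315R3.White.cnt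
          apply Finset.sum_congr rfl
          intro i _
          rw [Multiset.count_eq_of_nodup (T i).nodup]
          rfl
        rw [e, e]
        exact h1)
      rfl
    have h2 : ∀ T, Pool.Agent.H315R3.White.Reach (Pool.Agent.H315R3.White.sys M)
        (Finset.univ : Finset (Fin (n + 1))) B T → Relation.ReflTransGen
          (fun T T' : Fin (n + 1) → Finset α =>
            ∃ (i j : Fin (n + 1)) (a b : α), i ≠ j ∧
              a ∈ T i ∧ a ∉ T j ∧ b ∈ T j ∧ b ∉ T i ∧
              M.IsBase (↑(insert b ((T i).erase a)) : Set α) ∧
              M.IsBase (↑(insert a ((T j).erase b)) : Set α) ∧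
              T' = Function.update (Function.update T i (insert b ((T i).erase a))) j
                (insert a ((T j).erase b))) B T := by
      intro T hT
      induction hT with
      | refl => exact Relation.ReflTransGen.refl
      | tail _ st ih =>
        obtain ⟨i, j, x, y, _, _, hij, k1, k2, k3, k4, g1, g2, k5⟩ := st
        exact Relation.ReflTransGen.tail ih ⟨i, j, x, y, hij, k1, k2, k3, k4,
          Pool.Agent.H315R3.White.base_of_good hM g1,
          Pool.Agent.H315R3.White.base_of_good hM g2, k5⟩
    exact h2 _ h

end Pool.Agent.S08327
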