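import Pool.Statements.S08363
import Pool.Agent.H228R3.SapFactor

set_option autoImplicit false
open Pool Pool.MP_417dd2_co

namespace Pool.Agent.S08363

open Polynomial Matrix Pool.Agent.H228R3.Sap

/-- The pattern of order twenty: `z6` and seven full blocks of order two. -/
def Z20 : Matrix (Fin 20) (Fin 20) Bool := fun i j =>
  if h : i.val < 6 ∧ j.val < 6 then z6 ⟨i.val, h.1⟩ ⟨j.val, h.2⟩
  else decide (6 ≤ i.val ∧ 6 ≤ j.val ∧ i.val / 2 = j.val / 2)

/-- The index equivalence. -/
def e20 : Fin 6 ⊕ (Fin 2 × Fin 7) ≃ Fin 20 :=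
  (Equiv.sumCongr (Equiv.refl _) ((Equiv.prodComm _ _).trans finProdFinEquiv)).trans
    finSumFinEquiv

theorem Z_ll : ∀ i j : Fin 6, Z20 (e20 (Sum.inl i)) (e20 (Sum.inl j)) = z6 i j := by decide +kernel

theorem Z_lr : ∀ (i : Fin 6) (y : Fin 2 × Fin 7), Z20 (e20 (Sum.inl i)) (e20 (Sum.inr y)) = false := by
  decide +kernel

theorem Z_rl : ∀ (i : Fin 6) (y : Fin 2 × Fin 7), Z20 (e20 (Sum.inr y)) (e20 (Sum.inl i)) = false := by
  decide +kernel

theorem Z_rr : ∀ (x y : Fin 2 × Fin 7), Z20 (e20 (Sum.inr x)) (e20 (Sum.inr y)) =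
    decide (x.2 = y.2) := by
  decide +kernel

/-- There is some n and a reducible n×n zero-nonzero or sign pattern with fewer than 2n nonzero entries such that every monic real polynomial of degree n is the characteristic polynomial of some real matrix with that pattern. -/
theorem result :
    ∃ n : ℕ,
      (∃ Z : Matrix (Fin n) (Fin n) Bool,
        (∃ T : Finset (Fin n), T.Nonempty ∧ T ≠ Finset.univ ∧
            ∀ i, i ∉ T → ∀ j, j ∈ T → Z i j = false) ∧
        (Finset.univ.filter (fun q : Fin n × Fin n => Z q.1 q.2 = true)).card < 2 * n ∧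
        ∀ p : Polynomial ℝ, p.Monic → p.natDegree = n →
          ∃ A : Matrix (Fin n) (Fin n) ℝ,
            (∀ i j, (A i j ≠ 0 ↔ Z i j = true)) ∧ A.charpoly = p) ∨
      (∃ S : Matrix (Fin n) (Fin n) SignType,
        (∃ T : Finset (Fin n), T.Nonempty ∧ T ≠ Finset.univ ∧
            ∀ i, i ∉ T → ∀ j, j ∈ T → S i j = 0) ∧
        (Finset.univ.filter (fun q : Fin n × Fin n => S q.1 q.2 ≠ 0)).card < 2 * n ∧
        ∀ p : Polynomial ℝ, p.Monic → p.natDegree = n →
          ∃ A : Matrix (Fin n) (Fin n) ℝ,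
            (∀ i j, SignType.sign (A i j) = S i j) ∧ A.charpoly = p) := by
  refine ⟨20, Or.inl ⟨Z20, ⟨Finset.univ.filter (fun i : Fin 20 => i.val < 6), ⟨0, by decide⟩,
    by decide, ?_⟩, ?_, ?_⟩⟩
  · decide +kernel
  · decide +kernel
  · intro p hp hdeg
    obtain ⟨g, h, ⟨A, hA, hg⟩, hh, rfl⟩ := exists_factor ⟨hdeg, hp⟩
    obtain ⟨u, v, rfl⟩ := exists_quads 7 h hh
    choose B hB hBc using fun k : Fin 7 => exists_two (u k) (v k)
    set M : Matrix (Fin 6 ⊕ (Fin 2 × Fin 7)) (Fin 6 ⊕ (Fin 2 × Fin 7)) ℝ :=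
      Matrix.fromBlocks A 0 0 (Matrix.blockDiagonal B) with hM
    refine ⟨Matrix.reindex e20 e20 M, ?_, ?_⟩
    · have key : ∀ x y, M x y ≠ 0 ↔ Z20 (e20 x) (e20 y) = true := by
        intro x y
        rcases x with x | x <;> rcases y with y | y
        · rw [Z_ll]
          exact hA x y
        · rw [Z_lr]
          simp [hM]
        · rw [Z_rl]
          simp [hM]
        · rw [Z_rr]
          simp only [hM, Matrix.fromBlocks_apply₂₂, Matrix.blockDiagonal_apply, decide_eq_true_eq]
          by_cases hxy : x.2 = y.2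
          · rw [if_pos hxy]
            exact ⟨fun _ => hxy, fun _ => hB _ _ _⟩
          · rw [if_neg hxy]
            exact ⟨fun h => absurd rfl h, fun h => absurd h hxy⟩
      intro i j
      have := key (e20.symm i) (e20.symm j)
      rw [Equiv.apply_symm_apply, Equiv.apply_symm_apply] at this
      rw [Matrix.reindex_apply, Matrix.submatrix_apply]
      exact this
    · rw [Matrix.charpoly_reindex, hM, Matrix.charpoly_fromBlocks_zero₁₂, hg,
        charpoly_blockDiagonal, Finset.prod_congr rfl fun k _ => hBc k]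

end Pool.Agent.S08363
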