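import Pool.Statements.S08406

set_option autoImplicit false
open Pool Pool.MP_4366b5_co

namespace Pool.Agent.S08406

/-- `Bad H`: the graph `H` has no vertex cover of size at most 5, and it has at least 32 edges or
contains a clique on 7 vertices. -/
def Bad {V : Type} (H : SimpleGraph V) : Prop :=
  (∀ S : Finset V, S.card ≤ 5 → ∃ a b, H.Adj a b ∧ a ∉ S ∧ b ∉ S) ∧
  ((∃ e : Fin 32 → Sym2 V, Function.Injective e ∧ ∀ i, e i ∈ H.edgeSet) ∨
   (∃ g : Fin 7 ↪ V, ∀ i j, i ≠ j → H.Adj (g i) (g j)))

theorem Bad.mono {V W : Type} {H : SimpleGraph V} {H' : SimpleGraph W} (hB : Bad H) (f : V ↪ W)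
    (hf : ∀ a b, H.Adj a b → H'.Adj (f a) (f b)) : Bad H' := by
  classical
  obtain ⟨h1, h2⟩ := hB
  refine ⟨?_, ?_⟩
  · intro S hS
    have hc : (S.preimage f f.injective.injOn).card ≤ 5 := by
      refine le_trans ?_ hS
      refine Finset.card_le_card_of_injOn f ?_ f.injective.injOn
      intro x hx
      simpa using hx
    obtain ⟨a, b, hab, ha, hb⟩ := h1 _ hc
    refine ⟨f a, f b, hf a b hab, ?_, ?_⟩
    · simpa using ha
    · simpa using hb
  · rcases h2 with ⟨e, he, hee⟩ | ⟨g, hg⟩
    · left
      refine ⟨fun i => Sym2.map f (e i), ?_, ?_⟩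
      · intro i j hij
        exact he (Sym2.map.injective f.injective hij)
      · intro i
        show Sym2.map f (e i) ∈ H'.edgeSet
        have := hee i
        revert this
        generalize e i = x
        induction x using Sym2.ind with
        | _ a b =>
          intro h
          rw [SimpleGraph.mem_edgeSet] at h
          rw [Sym2.map_mk, SimpleGraph.mem_edgeSet]
          exact hf a b h
    · right
      exact ⟨g.trans f, fun i j hij => hf _ _ (hg i j hij)⟩

theorem cover_local {V : Type} [DecidableEq V] (H : SimpleGraph V) :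
    ∀ (r : ℕ) (X : Finset V),
      (∀ S : Finset V, S.card ≤ r → ∃ a b, H.Adj a b ∧ a ∉ X ∪ S ∧ b ∉ X ∪ S) →
      ∃ W : Finset V, W.card + 2 ≤ 2 ^ (r + 2) ∧
        ∀ S : Finset V, S.card ≤ r → ∃ a b, H.Adj a b ∧ a ∈ W ∧ b ∈ W ∧ a ∉ X ∪ S ∧ b ∉ X ∪ S := by
  intro r
  induction r with
  | zero =>
    intro X h
    obtain ⟨a, b, hab, ha, hb⟩ := h ∅ (by simp)
    refine ⟨{a, b}, ?_, ?_⟩
    · have := Finset.card_le_two (a := a) (b := b)
      norm_num
      omega
    · intro S hS
      have : S = ∅ := by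
        rw [← Finset.card_eq_zero]
        omega
      subst this
      exact ⟨a, b, hab, by simp, by simp, ha, hb⟩
  | succ r ih =>
    intro X h
    obtain ⟨u, v, huv, hu, hv⟩ := h ∅ (by simp)
    have key : ∀ w : V, w ∉ X → ∃ W : Finset V, W.card + 2 ≤ 2 ^ (r + 2) ∧
        ∀ S : Finset V, S.card ≤ r → ∃ a b, H.Adj a b ∧ a ∈ W ∧ b ∈ W ∧
          a ∉ (insert w X) ∪ S ∧ b ∉ (insert w X) ∪ S := by
      intro w hw
      apply ih
      intro S hS
      obtain ⟨a, b, hab, ha, hb⟩ := h (insert w S) (by
        have := Finset.card_insert_le w S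
        omega)
      refine ⟨a, b, hab, ?_, ?_⟩
      · simp only [Finset.mem_union, Finset.mem_insert] at ha ⊢
        tauto
      · simp only [Finset.mem_union, Finset.mem_insert] at hb ⊢
        tauto
    have hu' : u ∉ X := by
      simp only [Finset.mem_union] at hu
      tauto
    have hv' : v ∉ X := by
      simp only [Finset.mem_union] at hv
      tauto
    obtain ⟨Wu, hWu, hWu'⟩ := key u hu'
    obtain ⟨Wv, hWv, hWv'⟩ := key v hv'
    refine ⟨Wu ∪ Wv ∪ {u, v}, ?_, ?_⟩
    · have h1 := Finset.card_union_le (Wu ∪ Wv) {u, v}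
      have h2 := Finset.card_union_le Wu Wv
      have h3 := Finset.card_le_two (a := u) (b := v)
      have h4 : 2 ^ (r + 1 + 2) = 2 * 2 ^ (r + 2) := by ring
      omega
    · intro S hS
      have red : ∀ (w : V) (W : Finset V), w ∈ S →
          (∀ S : Finset V, S.card ≤ r → ∃ a b, H.Adj a b ∧ a ∈ W ∧ b ∈ W ∧
          a ∉ (insert w X) ∪ S ∧ b ∉ (insert w X) ∪ S) → ∃ a b, H.Adj a b ∧ a ∈ W ∧ b ∈ W ∧
            a ∉ X ∪ S ∧ b ∉ X ∪ S := by
        intro w W hw hW
        obtain ⟨a, b, hab, haW, hbW, ha, hb⟩ := hW (S.erase w) (by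
          rw [Finset.card_erase_of_mem hw]
          omega)
        refine ⟨a, b, hab, haW, hbW, ?_, ?_⟩
        · simp only [Finset.mem_union, Finset.mem_insert, Finset.mem_erase] at ha ⊢
          tauto
        · simp only [Finset.mem_union, Finset.mem_insert, Finset.mem_erase] at hb ⊢
          tauto
      by_cases huS : u ∈ S
      · obtain ⟨a, b, hab, haW, hbW, ha, hb⟩ := red u Wu huS hWu'
        exact ⟨a, b, hab, by simp [haW], by simp [hbW], ha, hb⟩
      · by_cases hvS : v ∈ S
        · obtain ⟨a, b, hab, haW, hbW, ha, hb⟩ := red v Wv hvS hWv'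
          exact ⟨a, b, hab, by simp [haW], by simp [hbW], ha, hb⟩
        · exact ⟨u, v, huv, by simp, by simp, by simp [huS, hu'], by simp [hvS, hv']⟩

theorem Bad.local {V : Type} [Fintype V] (H : SimpleGraph V) (hV : 190 ≤ Fintype.card V)
    (hB : Bad H) : ∃ f : Fin 190 ↪ V, Bad (H.comap f) := by
  classical
  obtain ⟨h1, h2⟩ := hB
  obtain ⟨W1, hW1, hW1'⟩ := cover_local H 5 ∅ (by simpa using h1)
  have hW2 : ∃ W2 : Finset V, W2.card ≤ 64 ∧
      ((∃ e : Fin 32 → Sym2 V, Function.Injective e ∧ (∀ i, e i ∈ H.edgeSet) ∧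
        ∀ i, ∀ x ∈ e i, x ∈ W2) ∨
       (∃ g : Fin 7 ↪ V, (∀ i j, i ≠ j → H.Adj (g i) (g j)) ∧ ∀ i, g i ∈ W2)) := by
    rcases h2 with ⟨e, he, hee⟩ | ⟨g, hg⟩
    · refine ⟨Finset.univ.biUnion fun i => (e i).toFinset, ?_, Or.inl ⟨e, he, hee, ?_⟩⟩
      · refine le_trans Finset.card_biUnion_le ?_
        refine le_trans (Finset.sum_le_sum (g := fun _ => 2) fun i _ => ?_) (by simp)
        rw [Sym2.card_toFinset]
        split_ifs <;> norm_num
      · intro i x hx
        simp only [Finset.mem_biUnion, Finset.mem_univ, true_and]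
        exact ⟨i, by simpa using hx⟩
    · refine ⟨Finset.univ.image g, ?_, Or.inr ⟨g, hg, ?_⟩⟩
      · refine le_trans Finset.card_image_le (by simp)
      · intro i
        simp
  obtain ⟨W2, hW2, hW2'⟩ := hW2
  obtain ⟨W, hWsub, hWcard⟩ : ∃ W : Finset V, W1 ∪ W2 ⊆ W ∧ W.card = 190 := by
    have hc : (W1 ∪ W2).card ≤ 190 := by
      have := Finset.card_union_le W1 W2
      norm_num at hW1
      omega
    obtain ⟨W, h1, h2, h3⟩ := Finset.exists_subsuperset_card_eq (Finset.subset_univ (W1 ∪ W2)) hc
      (by simpa using hV)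
    exact ⟨W, h1, h3⟩
  let eq : W ≃ Fin 190 := W.equivFinOfCardEq hWcard
  let f : Fin 190 ↪ V := eq.symm.toEmbedding.trans (Function.Embedding.subtype _)
  have hf : ∀ x ∈ W, ∃ y, f y = x := by
    intro x hx
    exact ⟨eq ⟨x, hx⟩, by simp [f]⟩
  have hW1W : ∀ x ∈ W1, x ∈ W := fun x hx => hWsub (Finset.mem_union_left _ hx)
  have hW2W : ∀ x ∈ W2, x ∈ W := fun x hx => hWsub (Finset.mem_union_right _ hx)
  refine ⟨f, ?_, ?_⟩
  · intro S hS
    obtain ⟨a, b, hab, haW, hbW, ha, hb⟩ := hW1' (S.map f) (by simpa using hS)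
    obtain ⟨a', rfl⟩ := hf a (hW1W a haW)
    obtain ⟨b', rfl⟩ := hf b (hW1W b hbW)
    refine ⟨a', b', hab, ?_, ?_⟩
    · intro h
      apply ha
      simp [h]
    · intro h
      apply hb
      simp [h]
  · rcases hW2' with ⟨e, he, hee, hem⟩ | ⟨g, hg, hgm⟩
    · left
      have : ∀ i, ∃ x : Sym2 (Fin 190), Sym2.map f x = e i := by
        intro i
        have h3 := hem i
        revert h3
        generalize e i = y
        induction y using Sym2.ind with
        | _ a b =>
          intro h3
          obtain ⟨a', ha'⟩ := hf a (hW2W a (h3 a (by simp)))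
          obtain ⟨b', hb'⟩ := hf b (hW2W b (h3 b (by simp)))
          exact ⟨s(a', b'), by rw [Sym2.map_mk, ha', hb']⟩
      choose e' he' using this
      refine ⟨e', ?_, ?_⟩
      · intro i j hij
        apply he
        rw [← he' i, ← he' j, hij]
      · intro i
        have h3 := hee i
        rw [← he' i] at h3
        revert h3
        generalize e' i = y
        induction y using Sym2.ind with
        | _ a b =>
          intro h3
          rw [Sym2.map_mk, SimpleGraph.mem_edgeSet] at h3
          rw [SimpleGraph.mem_edgeSet]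
          exact h3
    · right
      have : ∀ i, ∃ x : Fin 190, f x = g i := fun i => hf _ (hW2W _ (hgm i))
      choose g' hg' using this
      refine ⟨⟨g', ?_⟩, ?_⟩
      · intro i j hij
        apply g.injective
        rw [← hg' i, ← hg' j, hij]
      · intro i j hij
        show H.Adj (f (g' i)) (f (g' j))
        rw [hg', hg']
        exact hg i j hij

/-- The graph of the edges of `K_N` with colour `i`. -/
def cls {N k : ℕ} (c : Sym2 (Fin N) → Fin k) (i : Fin k) : SimpleGraph (Fin N) where
  Adj a b := a ≠ b ∧ c s(a, b) = i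
  symm := ⟨fun a b h => ⟨h.1.symm, by rw [Sym2.eq_swap]; exact h.2⟩⟩
  loopless := ⟨fun a h => h.1 rfl⟩

theorem not_bad {V : Type} (H : SimpleGraph V) (h : ¬ Bad H)
    (hc : ¬ ∃ S : Finset V, S.card ≤ 5 ∧ ∀ a b, H.Adj a b → a ∈ S ∨ b ∈ S) :
    (¬ ∃ e : Fin 32 → Sym2 V, Function.Injective e ∧ ∀ i, e i ∈ H.edgeSet) ∧
      ¬ ∃ g : Fin 7 ↪ V, ∀ i j, i ≠ j → H.Adj (g i) (g j) := by
  have h1 : ∀ S : Finset V, S.card ≤ 5 → ∃ a b, H.Adj a b ∧ a ∉ S ∧ b ∉ S := by
    intro S hS
    by_contra hcon
    apply hc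
    refine ⟨S, hS, fun a b hab => ?_⟩
    by_contra h2
    push Not at h2
    exact hcon ⟨a, b, hab, h2.1, h2.2⟩
  constructor
  · intro h2
    exact h ⟨h1, Or.inl h2⟩
  · intro h2
    exact h ⟨h1, Or.inr h2⟩

theorem upper {k N : ℕ} (hN : 5 * k + 2 ≤ N) (c : Sym2 (Fin N) → Fin k)
    (h : ∀ i, ¬ Bad (cls c i)) : False := by
  classical
  let P : Fin k → Prop := fun i => ∃ S : Finset (Fin N), S.card ≤ 5 ∧
    ∀ a b, (cls c i).Adj a b → a ∈ S ∨ b ∈ S
  have hS : ∀ i, ∃ S : Finset (Fin N), S.card ≤ (if P i then 5 else 0) ∧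
      (P i → ∀ a b, (cls c i).Adj a b → a ∈ S ∨ b ∈ S) := by
    intro i
    by_cases hi : P i
    · obtain ⟨S, h1, h2⟩ := hi
      have hi : P i := ⟨S, h1, h2⟩
      exact ⟨S, by simp [hi, h1], fun _ => h2⟩
    · exact ⟨∅, by simp, fun h => absurd h hi⟩
  choose S hS1 hS2 using hS
  set B : Finset (Fin k) := Finset.univ.filter fun i => ¬ P i with hB
  set U : Finset (Fin N) := Finset.univ.biUnion S with hU
  have hUc : U.card + 5 * B.card ≤ 5 * k := by
    have h1 : U.card ≤ ∑ i, (if P i then 5 else 0) :=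
      le_trans Finset.card_biUnion_le (Finset.sum_le_sum fun i _ => hS1 i)
    have h2 : (∑ i, (if P i then 5 else 0)) + 5 * B.card = 5 * k := by
      rw [hB, Finset.card_filter, Finset.mul_sum, ← Finset.sum_add_distrib]
      trans ∑ i : Fin k, 5
      · apply Finset.sum_congr rfl
        intro i _
        by_cases hi : P i <;> simp [hi]
      · simp [mul_comm]
    omega
  set R : Finset (Fin N) := Uᶜ with hR
  have hRc : 5 * B.card + 2 ≤ R.card := by
    have : R.card = N - U.card := by
      rw [hR, Finset.card_compl, Fintype.card_fin]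
    omega
  have hcol : ∀ a ∈ R, ∀ b ∈ R, a ≠ b → c s(a, b) ∈ B := by
    intro a ha b hb hab
    rw [hB, Finset.mem_filter]
    refine ⟨Finset.mem_univ _, fun hP => ?_⟩
    rw [hR, Finset.mem_compl, hU, Finset.mem_biUnion] at ha hb
    rcases hS2 _ hP a b ⟨hab, rfl⟩ with h1 | h1
    · exact ha ⟨_, Finset.mem_univ _, h1⟩
    · exact hb ⟨_, Finset.mem_univ _, h1⟩
  have hnb : ∀ i ∈ B, (¬ ∃ e : Fin 32 → Sym2 (Fin N), Function.Injective e ∧
      ∀ j, e j ∈ (cls c i).edgeSet) ∧
      ¬ ∃ g : Fin 7 ↪ Fin N, ∀ j l, j ≠ l → (cls c i).Adj (g j) (g l) := by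
    intro i hi
    rw [hB, Finset.mem_filter] at hi
    exact not_bad _ (h i) hi.2
  rcases Nat.lt_or_ge B.card 2 with hb | hb
  · have hb2 : B.card = 0 ∨ B.card = 1 := by omega
    rcases hb2 with hb2 | hb2
    · have : 1 < R.card := by omega
      obtain ⟨a, ha, b, hb, hab⟩ := Finset.one_lt_card.1 this
      have := hcol a ha b hb hab
      rw [Finset.card_eq_zero] at hb2
      rw [hb2] at this
      simp at this
    · rw [Finset.card_eq_one] at hb2
      obtain ⟨i, hi⟩ := hb2
      have h7 : 7 ≤ R.card := by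
        have : B.card = 1 := by rw [hi]; simp
        omega
      obtain ⟨T, hT, hT7⟩ := Finset.exists_subset_card_eq h7
      apply (hnb i (by rw [hi]; simp)).2
      refine ⟨(T.equivFinOfCardEq hT7).symm.toEmbedding.trans (Function.Embedding.subtype _), ?_⟩
      intro j l hjl
      have hne : ((T.equivFinOfCardEq hT7).symm j : Fin N) ≠ (T.equivFinOfCardEq hT7).symm l := by
        intro h
        apply hjl
        exact (T.equivFinOfCardEq hT7).symm.injective (Subtype.ext h)
      refine ⟨hne, ?_⟩
      have := hcol _ (hT ((T.equivFinOfCardEq hT7).symm j).2) _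
        (hT ((T.equivFinOfCardEq hT7).symm l).2) hne
      rw [hi, Finset.mem_singleton] at this
      exact this
  · set T : Finset (Sym2 (Fin N)) := R.offDiag.image (fun p => s(p.1, p.2)) with hT
    have hTc : T.card = R.card.choose 2 := Sym2.card_image_offDiag R
    have hTB : ∀ x ∈ T, c x ∈ B := by
      intro x hx
      rw [hT, Finset.mem_image] at hx
      obtain ⟨⟨a, b⟩, hab, rfl⟩ := hx
      rw [Finset.mem_offDiag] at hab
      exact hcol a hab.1 b hab.2.1 hab.2.2
    have hle : T.card ≤ 31 * B.card := by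
      rw [Finset.card_eq_sum_card_fiberwise hTB]
      refine le_trans (Finset.sum_le_sum (g := fun _ => 31) fun i hi => ?_) (by simp [mul_comm])
      by_contra hcon
      push Not at hcon
      obtain ⟨T', hT', hT'c⟩ := Finset.exists_subset_card_eq (show 32 ≤ _ from hcon)
      apply (hnb i hi).1
      refine ⟨fun j => (T'.equivFinOfCardEq hT'c).symm j, ?_, ?_⟩
      · intro j l hjl
        exact (T'.equivFinOfCardEq hT'c).symm.injective (Subtype.ext hjl)
      · intro j
        have h1 := hT' ((T'.equivFinOfCardEq hT'c).symm j).2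
        show (((T'.equivFinOfCardEq hT'c).symm j) : Sym2 (Fin N)) ∈ _
        revert h1
        generalize (((T'.equivFinOfCardEq hT'c).symm j) : Sym2 (Fin N)) = x
        intro h1
        rw [Finset.mem_filter, hT, Finset.mem_image] at h1
        obtain ⟨⟨⟨a, b⟩, hab, rfl⟩, h2⟩ := h1
        rw [Finset.mem_offDiag] at hab
        rw [SimpleGraph.mem_edgeSet]
        exact ⟨hab.2.2, h2⟩
    rw [hTc, Nat.choose_two_right] at hle
    have h3 : (5 * B.card + 2) * (5 * B.card + 2 - 1) ≤ R.card * (R.card - 1) :=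
      Nat.mul_le_mul hRc (by omega)
    have h4 : (5 * B.card + 2 - 1) = 5 * B.card + 1 := by omega
    rw [h4] at h3
    have h5 : R.card * (R.card - 1) ≤ 62 * B.card + 1 := by omega
    nlinarith

/-- The join of `K_4` (vertices 0 to 3) and the 5-cycle (vertices 4 to 8). -/
def H0 : SimpleGraph (Fin 9) where
  Adj a b := a ≠ b ∧ (a.val < 4 ∨ b.val < 4 ∨ (a.val - 4 + 1) % 5 = b.val - 4 ∨
    (b.val - 4 + 1) % 5 = a.val - 4)
  symm := ⟨fun a b h => ⟨h.1.symm, by tauto⟩⟩
  loopless := ⟨fun a h => h.1 rfl⟩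

instance : DecidableRel H0.Adj := fun a b => by
  unfold H0
  infer_instance

theorem H0_edges : H0.edgeFinset.card = 31 := by
  decide +kernel

theorem H0_no_clique : ∀ s : Finset (Fin 9), s.card = 7 → ∃ a ∈ s, ∃ b ∈ s, a ≠ b ∧ ¬ H0.Adj a b := by
  decide +kernel

/-- The join of `K_{5p+4}` and the 5-cycle, on `5p+9` vertices. -/
def G0 (p : ℕ) : SimpleGraph (Fin (5 * p + 9)) where
  Adj a b := a ≠ b ∧ (a.val < 5 * p + 4 ∨ b.val < 5 * p + 4 ∨
    (a.val - (5 * p + 4) + 1) % 5 = b.val - (5 * p + 4) ∨
    (b.val - (5 * p + 4) + 1) % 5 = a.val - (5 * p + 4))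
  symm := ⟨fun a b h => ⟨h.1.symm, by tauto⟩⟩
  loopless := ⟨fun a h => h.1 rfl⟩

/-- The colouring of the edges of `G0 p` with `p+1` colours. -/
def c0 (p : ℕ) : Sym2 (Fin (5 * p + 9)) → Fin (p + 1) :=
  Sym2.lift ⟨fun a b => ⟨min (min a.val b.val / 5) p, by omega⟩, fun a b => by
    simp only [min_comm a.val b.val]⟩

/-- A colour class of the colouring `c0`. -/
def cls0 (p : ℕ) (i : Fin (p + 1)) : SimpleGraph (Fin (5 * p + 9)) where
  Adj a b := (G0 p).Adj a b ∧ c0 p s(a, b) = i
  symm := ⟨fun a b h => ⟨h.1.symm, by rw [Sym2.eq_swap]; exact h.2⟩⟩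
  loopless := ⟨fun a h => h.1.1 rfl⟩

/-- The projection of the last 9 vertices. -/
def pr (p : ℕ) (a : Fin (5 * p + 9)) : Fin 9 := ⟨a.val - 5 * p, by omega⟩

theorem cls0_last {p : ℕ} {a b : Fin (5 * p + 9)} {i : Fin (p + 1)} (hi : i.val = p)
    (h : (cls0 p i).Adj a b) : 5 * p ≤ a.val ∧ 5 * p ≤ b.val := by
  have h2 := congrArg Fin.val h.2
  simp only [c0, Sym2.lift_mk, hi] at h2
  omega

theorem cls0_pr {p : ℕ} {a b : Fin (5 * p + 9)} {i : Fin (p + 1)} (hi : i.val = p)
    (h : (cls0 p i).Adj a b) : H0.Adj (pr p a) (pr p b) := by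
  obtain ⟨h1, h2⟩ := cls0_last hi h
  obtain ⟨⟨h3, h4⟩, _⟩ := h
  have h5 : a.val ≠ b.val := fun h => h3 (Fin.ext h)
  refine ⟨?_, ?_⟩
  · intro h
    have := congrArg Fin.val h
    simp only [pr] at this
    omega
  · simp only [pr]
    omega

theorem cls0_not_bad (p : ℕ) (i : Fin (p + 1)) : ¬ Bad (cls0 p i) := by
  classical
  rintro ⟨h1, h2⟩
  rcases Nat.lt_or_ge i.val p with hi | hi
  · have hlt : ∀ j : Fin 5, 5 * i.val + j.val < 5 * p + 9 := fun j => by omega
    have hcard : ((Finset.univ : Finset (Fin 5)).image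
        (fun j : Fin 5 => (⟨5 * i.val + j.val, hlt j⟩ : Fin (5 * p + 9)))).card ≤ 5 :=
      le_trans Finset.card_image_le (by simp)
    obtain ⟨a, b, hab, ha, hb⟩ := h1 _ hcard
    have h3 := congrArg Fin.val hab.2
    simp only [c0, Sym2.lift_mk] at h3
    simp only [Finset.mem_image, Finset.mem_univ, true_and, not_exists] at ha hb
    rcases le_total a.val b.val with h4 | h4
    · rw [min_eq_left h4] at h3
      apply ha ⟨a.val - 5 * i.val, by omega⟩
      apply Fin.ext
      simp only
      omega
    · rw [min_eq_right h4] at h3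
      apply hb ⟨b.val - 5 * i.val, by omega⟩
      apply Fin.ext
      simp only
      omega
  · have hi' : i.val = p := by omega
    rcases h2 with ⟨e, he, hee⟩ | ⟨g, hg⟩
    · have h3 : ∀ j, Sym2.map (pr p) (e j) ∈ H0.edgeFinset := by
        intro j
        rw [SimpleGraph.mem_edgeFinset]
        have := hee j
        revert this
        generalize e j = x
        induction x using Sym2.ind with
        | _ a b =>
          intro h
          rw [SimpleGraph.mem_edgeSet] at h
          rw [Sym2.map_mk, SimpleGraph.mem_edgeSet]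
          exact cls0_pr hi' h
      have h4 : Function.Injective fun j => Sym2.map (pr p) (e j) := by
        intro j l hjl
        apply he
        have h5 := hee j
        have h6 := hee l
        revert hjl h5 h6
        simp only
        generalize e j = x
        generalize e l = y
        induction x using Sym2.ind with
        | _ a b =>
          induction y using Sym2.ind with
          | _ c d =>
            intro h7 h5 h6
            rw [SimpleGraph.mem_edgeSet] at h5 h6
            obtain ⟨ha, hb⟩ := cls0_last hi' h5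
            obtain ⟨hc, hd⟩ := cls0_last hi' h6
            rw [Sym2.map_mk, Sym2.map_mk, Sym2.eq_iff] at h7
            simp only [pr, Fin.mk.injEq] at h7
            rw [Sym2.eq_iff]
            rcases h7 with h7 | h7
            · left
              constructor <;> apply Fin.ext <;> omega
            · right
              constructor <;> apply Fin.ext <;> omega
      have h5 : (Finset.univ : Finset (Fin 32)).card ≤ H0.edgeFinset.card :=
        Finset.card_le_card_of_injOn _ (fun j _ => h3 j) h4.injOn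
      rw [H0_edges] at h5
      simp at h5
    · have hinj : Function.Injective fun j => pr p (g j) := by
        intro j l hjl
        by_contra hne
        have h3 := cls0_pr hi' (hg j l hne)
        simp only at hjl
        rw [hjl] at h3
        exact h3.1 rfl
      obtain ⟨a, ha, b, hb, hab, h3⟩ := H0_no_clique (Finset.univ.image fun j => pr p (g j)) (by
        rw [Finset.card_image_of_injective _ hinj]
        simp)
      simp only [Finset.mem_image, Finset.mem_univ, true_and] at ha hb
      obtain ⟨j, rfl⟩ := ha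
      obtain ⟨l, rfl⟩ := hb
      apply h3
      apply cls0_pr hi'
      apply hg
      rintro rfl
      exact hab rfl

theorem G0_colorable {p N : ℕ} (h : (G0 p).Colorable N) : 5 * (p + 1) + 2 ≤ N := by
  classical
  obtain ⟨C⟩ := h
  let x : Fin 5 → Fin (5 * p + 9) := fun j => ⟨5 * p + 4 + j.val, by omega⟩
  have hx : ∀ j l : Fin 5, ((j.val + 1) % 5 = l.val) → C (x j) ≠ C (x l) := by
    intro j l hjl
    apply C.valid
    refine ⟨?_, ?_⟩
    · intro h
      have := congrArg Fin.val h
      simp only [x] at this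
      omega
    · simp only [x]
      right; right; left
      have h1 : 5 * p + 4 + j.val - (5 * p + 4) = j.val := by omega
      have h2 : 5 * p + 4 + l.val - (5 * p + 4) = l.val := by omega
      rw [h1, h2, hjl]
  obtain ⟨i, j, l, h1, h2, h3⟩ : ∃ i j l : Fin 5, C (x i) ≠ C (x j) ∧ C (x i) ≠ C (x l) ∧
      C (x j) ≠ C (x l) := by
    by_cases h02 : C (x 0) = C (x 2)
    · refine ⟨0, 3, 4, ?_, ?_, ?_⟩
      · rw [h02]
        exact hx 2 3 (by decide)
      · exact (hx 4 0 (by decide)).symm
      · exact hx 3 4 (by decide)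
    · exact ⟨0, 1, 2, hx 0 1 (by decide), h02, hx 1 2 (by decide)⟩
  have huniv : ∀ (a : Fin (5 * p + 4)) (b : Fin (5 * p + 9)), a.val ≠ b.val →
      C (Fin.castLE (by omega) a) ≠ C b := by
    intro a b hab
    apply C.valid
    refine ⟨?_, ?_⟩
    · intro h
      exact hab (congrArg Fin.val h)
    · left
      simp
  let F : Fin (5 * p + 4) ⊕ Fin 3 → Fin N :=
    Sum.elim (fun a => C (Fin.castLE (by omega) a)) ![C (x i), C (x j), C (x l)]
  have hF : Function.Injective F := by
    have hlr : ∀ (a : Fin (5 * p + 4)) (t : Fin 3), F (Sum.inl a) ≠ F (Sum.inr t) := by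
      intro a t
      have : ∀ u : Fin 5, C (Fin.castLE (by omega) a) ≠ C (x u) := by
        intro u
        apply huniv
        simp only [x]
        omega
      fin_cases t
      · exact this i
      · exact this j
      · exact this l
    rintro (a | t) (b | u) hab
    · by_contra hne
      refine huniv a (Fin.castLE (by omega) b) ?_ hab
      intro h
      apply hne
      congr 1
      exact Fin.ext h
    · exact absurd hab (hlr a u)
    · exact absurd hab.symm (hlr b t)
    · congr 1
      fin_cases t <;> fin_cases u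
      all_goals first
        | rfl
        | exact absurd hab h1
        | exact absurd hab h2
        | exact absurd hab h3
        | exact absurd hab.symm h1
        | exact absurd hab.symm h2
        | exact absurd hab.symm h3
  have := Fintype.card_le_of_injective F hF
  simp only [Fintype.card_sum, Fintype.card_fin] at this
  omega

/-- A matching with 95 edges. -/
def M0 : SimpleGraph (Fin 190) where
  Adj a b := a ≠ b ∧ a.val / 2 = b.val / 2
  symm := ⟨fun a b h => ⟨h.1.symm, h.2.symm⟩⟩
  loopless := ⟨fun a h => h.1 rfl⟩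

theorem M0_acyclic : M0.IsAcyclic := by
  rw [SimpleGraph.isAcyclic_iff_forall_adj_isBridge]
  intro v w hvw
  rw [SimpleGraph.isBridge_iff]
  rintro ⟨q⟩
  cases q with
  | nil => exact hvw.1 rfl
  | cons h r =>
    rename_i u
    rw [SimpleGraph.deleteEdges_adj] at h
    obtain ⟨⟨h1, h2⟩, h3⟩ := h
    have : u = w := by
      apply Fin.ext
      have h4 : v.val ≠ w.val := fun h => hvw.1 (Fin.ext h)
      have h5 : v.val ≠ u.val := fun h => h1 (Fin.ext h)
      have h6 := hvw.2
      omega
    subst this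
    exact h3 rfl

theorem M0_bad : Bad M0 := by
  classical
  refine ⟨?_, Or.inl ?_⟩
  · intro S hS
    by_contra hcon
    push Not at hcon
    have : ∀ j : Fin 6, ∃ x ∈ S, x.val / 2 = j.val := by
      intro j
      by_cases h : (⟨2 * j.val, by omega⟩ : Fin 190) ∈ S
      · exact ⟨_, h, by simp⟩
      · refine ⟨_, hcon ⟨2 * j.val, by omega⟩ ⟨2 * j.val + 1, by omega⟩ ⟨?_, ?_⟩ h, ?_⟩
        · intro h
          have := congrArg Fin.val h
          simp only at this
          omega
        · simp only
          omega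
        · simp only
          omega
    choose x hx hx' using this
    have h1 : (Finset.univ : Finset (Fin 6)).card ≤ S.card := by
      refine Finset.card_le_card_of_injOn x (fun j _ => hx j) ?_
      intro j _ l _ hjl
      apply Fin.ext
      rw [← hx' j, ← hx' l, hjl]
    simp at h1
    omega
  · refine ⟨fun i => s(⟨2 * i.val, by omega⟩, ⟨2 * i.val + 1, by omega⟩), ?_, ?_⟩
    · intro i j hij
      simp only [Sym2.eq_iff, Fin.mk.injEq] at hij
      apply Fin.ext
      omega
    · intro i
      rw [SimpleGraph.mem_edgeSet]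
      refine ⟨?_, ?_⟩
      · intro h
        have := congrArg Fin.val h
        simp only at this
        omega
      · simp only
        omega

/-- The negation of the preceding statement: For every finite family of finite graphs containing a forest, there is k0 such that for all k ≥ k0, any graph whose edges can be k-coloured without a monochromatic member has chromatic number at most some N for which K_N is so colourable. -/
theorem result :
    ¬ (∀ (ι : Type) [Fintype ι] (m : ι → ℕ) (H : ∀ i, SimpleGraph (Fin (m i))),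
      (∃ i, (H i).IsAcyclic) →
      ∃ k0 : ℕ, ∀ k : ℕ, k0 ≤ k →
        ∀ (n : ℕ) (G : SimpleGraph (Fin n)) (c : Sym2 (Fin n) → Fin k),
          (∀ i : ι, ¬ ∃ (f : Fin (m i) ↪ Fin n) (col : Fin k),
              ∀ a b : Fin (m i), (H i).Adj a b →
                G.Adj (f a : Fin n) (f b : Fin n) ∧
                  c s((f a : Fin n), (f b : Fin n)) = col) →
          ∃ N : ℕ, G.Colorable N ∧
            ∃ c' : Sym2 (Fin N) → Fin k,
              ∀ i : ι, ¬ ∃ (f : Fin (m i) ↪ Fin N) (col : Fin k),
                ∀ a b : Fin (m i), (H i).Adj a b →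
                  c' s((f a : Fin N), (f b : Fin N)) = col) := by
  classical
  intro hall
  have : Fintype {H : SimpleGraph (Fin 190) // Bad H} := Fintype.ofFinite _
  obtain ⟨k0, hk0⟩ := hall {H : SimpleGraph (Fin 190) // Bad H} (fun _ => 190) (fun i => i.1)
    ⟨⟨M0, M0_bad⟩, M0_acyclic⟩
  obtain ⟨N, hN, c', hc'⟩ := hk0 (k0 + 190 + 1) (by omega) _ (G0 (k0 + 190)) (c0 (k0 + 190)) (by
    rintro ⟨H, hH⟩ ⟨f, col, hf⟩
    exact cls0_not_bad _ col (hH.mono f (fun a b hab => hf a b hab)))
  have h1 := G0_colorable hN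
  refine upper h1 c' ?_
  intro i hi
  obtain ⟨f, hf⟩ := Bad.local (cls c' i) (by rw [Fintype.card_fin]; omega) hi
  exact hc' ⟨_, hf⟩ ⟨f, i, fun a b hab => hab.2⟩

end Pool.Agent.S08406
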