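import Pool.Statements.S08412
import Pool.Agent.H157R3.MMSFinite

set_option autoImplicit false
open MeasureTheory
open Pool Pool.MP_436c60_co

namespace Pool.Agent.S08412

open Pool.Agent.H157R3.MMS

/-- The `j`-th island. -/
noncomputable def isl (j : ℕ) : Set ℝ := Set.Icc (2 * (j : ℝ)) (2 * (j : ℝ) + 1)

theorem isl_disj {j j' : ℕ} (h : j ≠ j') : Disjoint (isl j) (isl j') := by
  rw [Set.disjoint_left]
  rintro x ⟨h1, h2⟩ ⟨h3, h4⟩
  rcases Nat.lt_or_gt_of_ne h with h | h
  · have : (j : ℝ) + 1 ≤ j' := by exact_mod_cast h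
    linarith
  · have : (j' : ℝ) + 1 ≤ j := by exact_mod_cast h
    linarith

theorem vol_isl (j : ℕ) : volume (isl j) = 1 := by
  simp [isl, Real.volume_Icc]

/-- The value measure of agent `i`: uniform density `w i j` on island `j`. -/
noncomputable def mu (i : Fin 3) : Measure ℝ :=
  ∑ j : Fin 12, (w i j : ENNReal) • (volume.restrict (isl j))

theorem mu_apply (i : Fin 3) {s : Set ℝ} (hs : MeasurableSet s) :
    mu i s = ∑ j : Fin 12, (w i j : ENNReal) * volume (s ∩ isl j) := by
  simp only [mu, Measure.coe_finsetSum, Finset.sum_apply, Measure.smul_apply, smul_eq_mul]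
  refine Finset.sum_congr rfl fun j _ => ?_
  rw [Measure.restrict_apply hs]

theorem mu_finite (i : Fin 3) : IsFiniteMeasure (mu i) := by
  constructor
  rw [mu_apply i MeasurableSet.univ]
  refine ENNReal.sum_lt_top.2 fun j _ => ?_
  rw [Set.univ_inter, vol_isl, mul_one]
  exact ENNReal.natCast_lt_top _

theorem mu_ac (i : Fin 3) : mu i ≪ volume := by
  refine Measure.AbsolutelyContinuous.mk fun s hs h0 => ?_
  rw [mu_apply i hs]
  refine Finset.sum_eq_zero fun j _ => ?_
  rw [measure_mono_null Set.inter_subset_left h0, mul_zero]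

/-- The three balanced partitions. -/
def s : Fin 3 → Fin 3 → Fin 4 → Fin 12 :=
  ![![![0, 1, 2, 3], ![4, 5, 6, 7], ![8, 9, 10, 11]],
    ![![0, 1, 4, 8], ![2, 5, 9, 10], ![3, 6, 7, 11]],
    ![![0, 2, 6, 11], ![1, 4, 7, 9], ![3, 5, 8, 10]]]

theorem s_inj : ∀ i p l p' l', s i p l = s i p' l' → p = p' ∧ l = l' := by decide

theorem s_sum : ∀ i p, ∑ l, w i (s i p l) = 4220 := by decide

theorem piece_ge (i p : Fin 3) :
    4220 ≤ mu i (⋃ l, Set.Ioo (2 * ((s i p l : ℕ) : ℝ)) (2 * ((s i p l : ℕ) : ℝ) + 1)) := by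
  have hd : Pairwise (Function.onFun Disjoint
      (fun l => Set.Ioo (2 * ((s i p l : ℕ) : ℝ)) (2 * ((s i p l : ℕ) : ℝ) + 1))) := by
    intro l l' hl
    have hne : ((s i p l : ℕ)) ≠ (s i p l' : ℕ) := by
      intro h
      exact hl (s_inj i p l p l' (Fin.ext h)).2
    exact (isl_disj hne).mono Set.Ioo_subset_Icc_self Set.Ioo_subset_Icc_self
  rw [measure_iUnion hd (fun l => measurableSet_Ioo), tsum_fintype]
  have h1 : ∀ l, ((w i (s i p l) : ℕ) : ENNReal) ≤
      mu i (Set.Ioo (2 * ((s i p l : ℕ) : ℝ)) (2 * ((s i p l : ℕ) : ℝ) + 1)) := by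
    intro l
    rw [mu_apply i measurableSet_Ioo]
    have hle := Finset.single_le_sum (f := fun j : Fin 12 => (w i j : ENNReal) *
      volume (Set.Ioo (2 * ((s i p l : ℕ) : ℝ)) (2 * ((s i p l : ℕ) : ℝ) + 1) ∩ isl j))
      (fun j _ => zero_le) (Finset.mem_univ (s i p l))
    refine le_trans ?_ hle
    have : Set.Ioo (2 * ((s i p l : ℕ) : ℝ)) (2 * ((s i p l : ℕ) : ℝ) + 1) ∩ isl (s i p l)
        = Set.Ioo (2 * ((s i p l : ℕ) : ℝ)) (2 * ((s i p l : ℕ) : ℝ) + 1) :=
      Set.inter_eq_left.2 Set.Ioo_subset_Icc_self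
    simp only [this, Real.volume_Ioo]
    simp
  calc (4220 : ENNReal) = ((∑ l, w i (s i p l) : ℕ) : ENNReal) := by rw [s_sum i p]; norm_num
    _ = ∑ l, ((w i (s i p l) : ℕ) : ENNReal) := by push_cast; rfl
    _ ≤ _ := Finset.sum_le_sum fun l _ => h1 l

theorem w_le : ∀ i j, w i j ≤ 1112 := by decide

theorem main (a b : Fin 3 → Fin 4 → ℝ)
    (hab : ∀ i l, ∃ j : ℕ, j < 12 ∧
        Set.Ioo (a i l) (b i l) ⊆ Set.Icc (2 * (j : ℝ)) (2 * (j : ℝ) + 1))
    (hdis : ∀ i i', i ≠ i' →
        Disjoint (⋃ l, Set.Ioo (a i l) (b i l)) (⋃ l, Set.Ioo (a i' l) (b i' l))) :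
    ∃ i, mu i (⋃ l, Set.Ioo (a i l) (b i l)) < 4220 := by
  classical
  set X : Fin 3 → Set ℝ := fun i => ⋃ l, Set.Ioo (a i l) (b i l) with hX
  have hXm : ∀ i, MeasurableSet (X i) := fun i => MeasurableSet.iUnion fun l => measurableSet_Ioo
  choose J hJlt hJ using hab
  have hx1 : ∀ j : Fin 12, ∑ i, volume (X i ∩ isl j) ≤ 1 := by
    intro j
    have hd : Pairwise (Function.onFun Disjoint (fun i => X i ∩ isl j)) := by
      intro i i' hi
      exact (hdis i i' hi).mono Set.inter_subset_left Set.inter_subset_left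
    have := measure_iUnion (μ := volume) hd (fun i => (hXm i).inter measurableSet_Icc)
    rw [tsum_fintype] at this
    rw [← this, ← vol_isl j]
    exact measure_mono (Set.iUnion_subset fun i => Set.inter_subset_right)
  have hx0 : ∀ i (j : Fin 12), (∀ l, J i l ≠ j) → volume (X i ∩ isl j) = 0 := by
    intro i j h
    have : X i ∩ isl j = ∅ := by
      rw [← Set.disjoint_iff_inter_eq_empty, hX, Set.disjoint_iUnion_left]
      intro l
      exact (isl_disj (h l)).mono_left (hJ i l)
    rw [this, measure_empty]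
  by_cases hsurj : ∀ j : Fin 12, ∃ i l, J i l = j
  · -- every island is touched, exactly once
    let g : Fin 3 × Fin 4 → Fin 12 := fun q => ⟨J q.1 q.2, hJlt q.1 q.2⟩
    have hg : Function.Surjective g := by
      intro j
      obtain ⟨i, l, h⟩ := hsurj j
      exact ⟨(i, l), Fin.ext h⟩
    have hgb : Function.Bijective g :=
      (Fintype.bijective_iff_surjective_and_card g).2 ⟨hg, by simp⟩
    let e : Fin 3 × Fin 4 ≃ Fin 12 := Equiv.ofBijective g hgb
    let f : Fin 12 → Fin 3 := fun j => (e.symm j).1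
    have hf : ∀ i, ∑ j, (if f j = i then 1 else 0) = 4 := by
      intro i
      rw [← e.sum_comp]
      simp only [f, Equiv.symm_apply_apply]
      rw [Fintype.sum_prod_type]
      have hd : ∀ i : Fin 3, (∑ x : Fin 3, ∑ _y : Fin 4, if x = i then 1 else 0) = 4 := by decide
      exact hd i
    obtain ⟨i, hi⟩ := finite_check f hf
    refine ⟨i, ?_⟩
    have hle : mu i (X i) ≤ ((∑ j, (if f j = i then w i j else 0) : ℕ) : ENNReal) := by
      rw [mu_apply i (hXm i)]
      push_cast
      refine Finset.sum_le_sum fun j _ => ?_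
      by_cases hfj : f j = i
      · simp only [hfj, if_true]
        calc (w i j : ENNReal) * volume (X i ∩ isl j) ≤ (w i j : ENNReal) * 1 := by
              gcongr
              rw [← vol_isl j]
              exact measure_mono Set.inter_subset_right
          _ = _ := mul_one _
      · have : ∀ l, J i l ≠ j := by
          intro l hl
          apply hfj
          have : e (i, l) = j := Fin.ext hl
          simp only [f, ← this, Equiv.symm_apply_apply]
        rw [hx0 i j this, mul_zero]
        exact zero_le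
    refine lt_of_le_of_lt hle ?_
    exact_mod_cast hi
  · push Not at hsurj
    obtain ⟨j0, hj0⟩ := hsurj
    by_contra hcon
    push Not at hcon
    have h1 : (12660 : ENNReal) ≤ ∑ i, mu i (X i) := by
      calc (12660 : ENNReal) = ∑ i : Fin 3, (4220 : ENNReal) := by
            simp only [Finset.sum_const, Finset.card_univ, Fintype.card_fin, nsmul_eq_mul]
            norm_num
        _ ≤ _ := Finset.sum_le_sum fun i _ => hcon i
    have h2 : ∑ i, mu i (X i) ≤ 12232 := by
      calc ∑ i, mu i (X i) = ∑ i, ∑ j : Fin 12, (w i j : ENNReal) * volume (X i ∩ isl j) :=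
            Finset.sum_congr rfl fun i _ => mu_apply i (hXm i)
        _ ≤ ∑ i, ∑ j : Fin 12, (1112 : ENNReal) * volume (X i ∩ isl j) := by
            refine Finset.sum_le_sum fun i _ => Finset.sum_le_sum fun j _ => ?_
            gcongr
            exact_mod_cast w_le i j
        _ = ∑ j : Fin 12, (1112 : ENNReal) * ∑ i, volume (X i ∩ isl j) := by
            rw [Finset.sum_comm]
            simp only [Finset.mul_sum]
        _ ≤ ∑ j : Fin 12, (if j = j0 then 0 else 1112 : ENNReal) := by
            refine Finset.sum_le_sum fun j _ => ?_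
            by_cases hj : j = j0
            · subst hj
              have : ∀ i, volume (X i ∩ isl j) = 0 := fun i => hx0 i j (fun l => hj0 i l)
              simp [this]
            · simp only [hj, if_false]
              calc (1112 : ENNReal) * ∑ i, volume (X i ∩ isl j) ≤ 1112 * 1 := by
                    gcongr
                    exact hx1 j
                _ = 1112 := mul_one _
        _ = 12232 := by
            rw [Finset.sum_ite]
            simp only [Finset.sum_const_zero, zero_add, Finset.sum_const, nsmul_eq_mul]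
            rw [Finset.filter_not, Finset.filter_eq', if_pos (Finset.mem_univ _),
              ← Finset.compl_eq_univ_sdiff, Finset.card_compl]
            simp only [Fintype.card_fin, Finset.card_singleton]
            norm_num
    have h3 := h1.trans h2
    norm_num at h3

/-- The negation of the preceding statement: For m,n,k ≥ 2 and any n finite measures with densities on a cake of m separated islands, there is an allocation giving each agent at most k intervals, each within one island, worth at least that agent's k-interval maximin share. -/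
theorem result :
    ¬ (∀ m n k : ℕ, 2 ≤ m → 2 ≤ n → 2 ≤ k →
    ∀ μ : Fin n → Measure ℝ, (∀ i, IsFiniteMeasure (μ i)) → (∀ i, μ i ≪ volume) →
    ∃ a b : Fin n → Fin k → ℝ,
      (∀ i l, ∃ j : ℕ, j < m ∧
        Set.Ioo (a i l) (b i l) ⊆ Set.Icc (2 * (j : ℝ)) (2 * (j : ℝ) + 1)) ∧
      (∀ i i', i ≠ i' →
        Disjoint (⋃ l, Set.Ioo (a i l) (b i l)) (⋃ l, Set.Ioo (a i' l) (b i' l))) ∧
      ∀ i, ∀ c d : Fin n → Fin k → ℝ,
        (∀ p l, ∃ j : ℕ, j < m ∧
          Set.Ioo (c p l) (d p l) ⊆ Set.Icc (2 * (j : ℝ)) (2 * (j : ℝ) + 1)) →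
        (∀ p p', p ≠ p' →
          Disjoint (⋃ l, Set.Ioo (c p l) (d p l)) (⋃ l, Set.Ioo (c p' l) (d p' l))) →
        ∃ p, μ i (⋃ l, Set.Ioo (c p l) (d p l)) ≤ μ i (⋃ l, Set.Ioo (a i l) (b i l))) := by
  intro h
  obtain ⟨a, b, h1, h2, h3⟩ := h 12 3 4 (by norm_num) (by norm_num) (by norm_num) mu mu_finite mu_ac
  obtain ⟨i, hi⟩ := main a b h1 h2
  obtain ⟨p, hp⟩ := h3 i (fun p l => 2 * ((s i p l : ℕ) : ℝ)) (fun p l => 2 * ((s i p l : ℕ) : ℝ) + 1)
    (fun p l => ⟨s i p l, (s i p l).2, Set.Ioo_subset_Icc_self⟩)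
    (fun p p' hpp => by
      rw [Set.disjoint_iUnion_left]
      intro l
      rw [Set.disjoint_iUnion_right]
      intro l'
      have hne : ((s i p l : ℕ)) ≠ (s i p' l' : ℕ) := by
        intro h
        exact hpp (s_inj i p l p' l' (Fin.ext h)).1
      exact (isl_disj hne).mono Set.Ioo_subset_Icc_self Set.Ioo_subset_Icc_self)
  exact absurd ((piece_ge i p).trans hp) (not_le.2 hi)

end Pool.Agent.S08412
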