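import Pool.Statements.S08458

set_option autoImplicit false
open Pool Pool.MP_455b0c_co

namespace Pool.Agent.S08458

/-- Left endpoints (times 10) of the first representation. The 13 elements are, in this order,
`c0, c1, s, c2, c3, X1, X2, y, X', u, v, w2, w3`. -/
def A1 : Fin 13 → ℤ := ![-44, -33, -22, -11, 0, -34, -16, -12, -21, -32, -2, -14, -3]

/-- Lengths (times 10) of the first representation: `1` and `9/5`. -/
def L1 : Fin 13 → ℤ := ![10, 10, 10, 10, 10, 18, 18, 10, 18, 10, 10, 10, 10]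

/-- Left endpoints (times 5) of the second representation. -/
def A2 : Fin 13 → ℤ := ![-34, -28, -22, -6, 0, -29, -14, -7, -18, -24, -2, -9, -3]

/-- Lengths (times 5) of the second representation: `1` and `3`. -/
def L2 : Fin 13 → ℤ := ![5, 5, 15, 5, 5, 15, 15, 5, 15, 5, 5, 5, 5]

/-- The poset. -/
def P (i j : Fin 13) : Prop := A1 i + L1 i < A1 j

instance (i j : Fin 13) : Decidable (P i j) := by unfold P; infer_instance

theorem P_iff2 : ∀ i j, P i j ↔ A2 i + L2 i < A2 j := by decide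

theorem rep {A L : Fin 13 → ℤ} (h : ∀ i j, P i j ↔ A i + L i < A j) {c : ℝ} (hc : 0 < c) :
    ∀ i j, P i j ↔ (A i : ℝ) / c + (L i : ℝ) / c < (A j : ℝ) / c := by
  intro i j
  rw [h i j, ← add_div, div_lt_div_iff_of_pos_right hc]
  exact_mod_cast Iff.rfl

theorem len1 : ∀ i, L1 i = 10 ∨ L1 i = 18 := by decide

theorem len2 : ∀ i, L2 i = 5 ∨ L2 i = 15 := by decide

theorem mem1 : ∃ a L : Fin 13 → ℝ, (∀ i, L i = 1 ∨ L i = 9 / 5) ∧ ∀ i j, P i j ↔ a i + L i < a j := by
  refine ⟨fun i => (A1 i : ℝ) / 10, fun i => (L1 i : ℝ) / 10, ?_,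
    rep (fun i j => Iff.rfl) (by norm_num)⟩
  intro i
  rcases len1 i with h | h
  · left; simp only [h]; norm_num
  · right; simp only [h]; norm_num

theorem mem2 : ∃ a L : Fin 13 → ℝ, (∀ i, L i = 1 ∨ L i = 3) ∧ ∀ i j, P i j ↔ a i + L i < a j := by
  refine ⟨fun i => (A2 i : ℝ) / 5, fun i => (L2 i : ℝ) / 5, ?_, rep P_iff2 (by norm_num)⟩
  intro i
  rcases len2 i with h | h
  · left; simp only [h]; norm_num
  · right; simp only [h]; norm_num

theorem not_semi : ¬ ∃ a : Fin 13 → ℝ, ∀ i j, P i j ↔ a i + 1 < a j := by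
  rintro ⟨a, h⟩
  have h1 : a 5 + 1 < a 7 := (h 5 7).1 (by decide)
  have h2 : a 7 + 1 < a 4 := (h 7 4).1 (by decide)
  have h3 : ¬ (a 5 + 1 < a 6) := fun hc => absurd ((h 5 6).2 hc) (by decide)
  have h4 : ¬ (a 6 + 1 < a 4) := fun hc => absurd ((h 6 4).2 hc) (by decide)
  linarith

theorem not_two : ¬ ∃ a L : Fin 13 → ℝ, (∀ i, L i = 1 ∨ L i = 2) ∧
    ∀ i j, P i j ↔ a i + L i < a j := by
  rintro ⟨a, L, hL, h⟩
  have lo : ∀ i, 1 ≤ L i := fun i => by rcases hL i with h | h <;> rw [h] <;> norm_num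
  have up : ∀ i, L i ≤ 2 := fun i => by rcases hL i with h | h <;> rw [h] <;> norm_num
  have short : ∀ i, L i < 2 → L i = 1 := fun i hi => by
    rcases hL i with h | h
    · exact h
    · rw [h] at hi; exact absurd hi (lt_irrefl _)
  have long : ∀ i, 1 < L i → L i = 2 := fun i hi => by
    rcases hL i with h | h
    · rw [h] at hi; exact absurd hi (lt_irrefl _)
    · exact h
  have lt : ∀ i j, P i j → a i + L i < a j := fun i j => (h i j).1
  have nl : ∀ i j, ¬ P i j → a j ≤ a i + L i := fun i j hij => by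
    by_contra hc
    exact hij ((h i j).2 (not_le.1 hc))
  -- the chain c0 < c1 < s < c2 < c3 against X1 and X2
  have e1 := lt 0 1 (by decide)
  have e2 := lt 1 2 (by decide)
  have e3 := lt 2 3 (by decide)
  have e4 := lt 3 4 (by decide)
  have e5 := nl 0 5 (by decide)
  have e6 := nl 5 6 (by decide)
  have e7 := nl 6 4 (by decide)
  have k1 : L 1 + L 2 + L 3 < L 5 + L 6 := by linarith
  have s2 : L 2 = 1 := short 2 (by linarith [lo 1, lo 3, up 5, up 6])
  -- y is short
  have f1 := lt 5 7 (by decide)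
  have f2 := lt 7 4 (by decide)
  have s7 : L 7 = 1 := short 7 (by linarith [up 6])
  -- X' is long
  have g1 := lt 5 11 (by decide)
  have g2 := lt 11 12 (by decide)
  have g3 := nl 5 8 (by decide)
  have g4 := nl 8 12 (by decide)
  have s8 : L 8 = 2 := long 8 (by linarith [lo 11])
  -- u < X' < v against s and y
  have m1 := lt 9 8 (by decide)
  have m2 := lt 8 10 (by decide)
  have m3 := nl 9 2 (by decide)
  have m4 := nl 2 7 (by decide)
  have m5 := nl 7 10 (by decide)
  linarith

/-- The negation of the preceding statement: For every finite order representable by closed real intervals of two positive lengths but not by intervals of one length, the set of r > 1 for which it is representable with lengths 1 and r is an interval. -/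
theorem result :
    ¬ (∀ (n : ℕ) (P : Fin n → Fin n → Prop),
      (¬ ∃ a : Fin n → ℝ, ∀ i j, P i j ↔ a i + 1 < a j) →
      (∃ s t : ℝ, 0 < s ∧ 0 < t ∧ ∃ a L : Fin n → ℝ,
          (∀ i, L i = s ∨ L i = t) ∧ ∀ i j, P i j ↔ a i + L i < a j) →
      Set.OrdConnected
        {r : ℝ | 1 < r ∧ ∃ a L : Fin n → ℝ,
          (∀ i, L i = 1 ∨ L i = r) ∧ ∀ i j, P i j ↔ a i + L i < a j}) := by
  intro H
  have h := H 13 P not_semi ⟨1, 3, by norm_num, by norm_num, mem2⟩
  have h2 := h.out (x := 9 / 5) (y := 3) ⟨by norm_num, mem1⟩ ⟨by norm_num, mem2⟩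
    (⟨by norm_num, by norm_num⟩ : (2 : ℝ) ∈ Set.Icc (9 / 5) 3)
  exact not_two h2.2

end Pool.Agent.S08458
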