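import Mathlib
import Pool.Statements.S08472

/-! Negation of the statement on quadrangles: an explicit simple arrangement of 16 real projective
lines (80 triangles, 11 pentagons, 25 hexagons, 5 heptagons) with no quadrangle. The cells are
enumerated with a certificate for every sign vector that does not occur. -/

set_option autoImplicit false
open Matrix
open Pool Pool.MP_45d90c_co

namespace Pool.Agent.S08472

/-- integer normals of the 16 lines -/
def T : List (ℤ × ℤ × ℤ) :=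
  [(9, 14, -10), (-16, 19, -15), (-20, -8, -13), (1, -15, -9), (16, -4, -10), (-4, 17, 0),
   (-12, 1, 0), (-8, -19, 1), (20, -17, 1), (20, 12, 1), (12, 2, -17), (1, 7, -10),
   (-12, 6, -19), (-5, -5, -10), (6, -12, -19), (0, 0, 1)]

def a (i : ℕ) : ℤ × ℤ × ℤ := T.getD i (0, 0, 0)

def det3 (p q r : ℤ × ℤ × ℤ) : ℤ :=
  p.1 * (q.2.1 * r.2.2 - q.2.2 * r.2.1) - p.2.1 * (q.1 * r.2.2 - q.2.2 * r.1)
    + p.2.2 * (q.1 * r.2.1 - q.2.1 * r.1)

def sg (b : Bool) : ℤ := if b then 1 else -1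

/-- the sign vector `s` is not the sign vector of a point, because of the dependency between the
normals `i, j, k, l` -/
def bad (s : ℕ → Bool) (i j k l : ℕ) : Bool :=
  let ci := sg (s i) * det3 (a j) (a k) (a l)
  let cj := - (sg (s j) * det3 (a i) (a k) (a l))
  let ck := sg (s k) * det3 (a i) (a j) (a l)
  let cl := - (sg (s l) * det3 (a i) (a j) (a k))
  (decide (0 < ci) && decide (0 < cj) && decide (0 < ck) && decide (0 < cl)) ||
  (decide (ci < 0) && decide (cj < 0) && decide (ck < 0) && decide (cl < 0))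

/-- one step of the enumeration of the cells -/
def stepc (m : ℕ) : List (List Bool) → List ℕ → Option (List (List Bool))
  | [], _ => some []
  | _ :: _, [] => none
  | s :: ss, c :: cs =>
    match stepc m ss cs with
    | none => none
    | some r =>
      if c = 0 then some ((s ++ [true]) :: (s ++ [false]) :: r)
      else
        if decide (c / 2 % 16 < m) && decide (c / 32 % 16 < m) && decide (c / 512 % 16 < m) &&
            bad (fun t => (s ++ [!(c % 2 == 1)]).getD t false) (c / 2 % 16) (c / 32 % 16)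
              (c / 512 % 16) m then
          some ((s ++ [c % 2 == 1]) :: r)
        else none

def run : List (List ℕ) → ℕ → List (List Bool) → Option (List (List Bool))
  | [], _, ps => some ps
  | c :: cs, m, ps =>
    match stepc m ps c with
    | none => none
    | some r => run cs (m + 1) r

/-- the codes of the cell enumeration -/
def codes : List (List ℕ) := [[0],
  [0, 0],
  [0, 0, 1057, 0],
  [0, 0, 1601, 0, 1057, 1569, 0],
  [0, 0, 1569, 1569, 0, 1569, 1569, 1056, 0, 0, 2081],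
  [0, 0, 2113, 2113, 0, 2113, 1600, 1600, 0, 0, 1056, 1568, 1568, 2080, 2080, 0],
  [0, 3232, 0, 0, 0, 2689, 2144, 2144, 0, 1056, 1056, 1056, 1056, 1056, 1056, 0, 2592, 0, 1568, 1568, 1568, 1568],
  [3232, 3232, 0, 0, 3776, 0, 0, 2080, 2080, 2080, 1600, 1600, 2080, 2080, 0, 2625, 3136, 0, 2080, 2080, 1057, 1057, 1569, 1569, 1569, 0, 2593, 3104, 0],
  [3744, 0, 4257, 0, 3232, 3232, 3232, 0, 4320, 0, 0, 2144, 2144, 2144, 0, 3169, 3680, 0, 1601, 1601, 1601, 2113, 2113, 2113, 0, 3137, 0, 3617, 1057, 1057, 1057, 1057, 1057, 1057, 1057, 1057, 1057],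
  [2113, 2113, 2113, 4129, 2113, 2113, 2593, 2593, 2593, 2593, 2593, 2593, 2593, 2593, 2593, 2593, 0, 3681, 2593, 2113, 2113, 2113, 0, 0, 0, 4129, 1601, 2593, 3201, 4129, 0, 0, 4672, 0, 1057, 1057, 1057, 1569, 1569, 1569, 0, 0, 0, 2080, 2080, 2080],
  [1569, 1569, 1569, 1569, 1569, 1569, 1569, 1569, 1569, 1569, 1569, 1569, 1569, 1569, 1569, 1569, 1569, 1569, 1569, 1569, 2081, 2081, 2081, 3617, 3617, 5153, 4673, 5153, 0, 1569, 1569, 1569, 2081, 2081, 2081, 2081, 5153, 0, 0, 5153, 0, 1057, 1057, 1057, 2657, 0, 0, 0, 0, 5377, 0, 0, 5280, 3104, 4224, 0],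
  [1057, 1057, 1057, 1057, 1057, 1057, 1057, 1057, 1057, 1057, 1057, 1057, 1057, 1057, 1057, 1057, 1057, 1057, 1057, 1057, 1057, 1057, 1057, 1057, 1057, 1057, 1057, 1057, 1057, 1057, 1569, 1569, 1569, 3201, 0, 0, 5248, 5313, 0, 0, 5921, 0, 0, 0, 5824, 0, 4641, 3649, 0, 0, 5664, 0, 5664, 0, 5664, 5152, 5152, 4128, 4128, 4128, 2656, 5664, 5152, 2080, 2080, 2080, 2080],
  [3617, 1601, 1601, 1601, 1601, 1601, 2593, 2593, 2593, 2593, 2593, 2593, 2593, 2593, 2593, 2593, 3617, 3617, 1601, 2593, 2113, 2113, 2113, 3617, 3617, 0, 0, 5409, 0, 5664, 0, 4193, 2593, 0, 0, 6176, 0, 6176, 6176, 0, 5184, 6176, 5664, 5664, 4672, 5664, 5664, 3200, 6176, 5184, 6176, 5664, 1057, 1057, 1057, 1057, 0, 6304, 6369, 0, 0, 0, 0, 5856, 1568, 1568, 1568, 1568, 1568, 1568, 1568, 1568, 1568, 1568, 1568, 1568, 1568, 1568, 1568],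
  [1569, 1569, 1569, 1569, 1569, 1569, 1569, 1569, 1569, 1569, 1569, 1569, 1569, 1569, 1569, 1569, 1569, 1569, 1569, 1569, 0, 4737, 3137, 5345, 0, 0, 6720, 5408, 6720, 0, 0, 6720, 5664, 1569, 1569, 1569, 1569, 0, 6848, 6913, 0, 0, 0, 0, 6400, 5184, 2112, 2112, 2112, 2112, 5664, 5664, 2112, 5664, 5664, 2112, 2112, 2112, 2112, 5664, 1057, 1057, 1057, 1057, 6177, 6177, 2657, 3617, 3617, 3617, 3617, 3617, 6177, 6177, 6689, 5729, 0, 6177, 0, 5792, 5152, 5152, 4128, 4128, 4128, 0, 0, 5152, 2080, 2080, 2080, 2080],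
  [1568, 1568, 1568, 1568, 1568, 1568, 1568, 1568, 1568, 1568, 1568, 1568, 1568, 1568, 1568, 1568, 1568, 1568, 1568, 1568, 7200, 2112, 7200, 7200, 3616, 3616, 3616, 7200, 5184, 5184, 6944, 0, 7200, 5184, 7200, 0, 0, 5665, 1568, 1568, 1568, 1568, 7200, 6720, 3200, 7200, 7200, 6400, 7200, 0, 7200, 6720, 7200, 0, 0, 5249, 6720, 0, 0, 6273, 5665, 5665, 4673, 5665, 5665, 0, 6273, 5313, 6273, 5665, 1056, 1056, 1056, 1056, 6176, 6176, 2656, 6176, 6688, 5856, 6688, 0, 6176, 6176, 6688, 0, 0, 7265, 6176, 0, 0, 5729, 5153, 5153, 4129, 4129, 4129, 0, 7329, 5729, 5729, 5153, 2081, 2081, 2081, 2081]]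

/-- the certificates of the cells -/
def certs : List ((ℕ × ℕ × ℕ) ⊕ List (ℕ × ℤ × ℤ × ℤ)) := [
  .inl (4, 5, 7),
  .inl (3, 6, 9),
  .inr [(3, -2, 3, -5), (4, -2, 1, -3), (5, -1, -1, -28), (6, 1, 1, -33), (7, -1, 0, -2)],
  .inl (2, 5, 8),
  .inr [(2, 3, 4, -7), (3, 1, 2, -3), (5, 5, 1, -87), (6, 0, 1, -2), (8, 2, 1, -5)],
  .inl (5, 6, 9),
  .inl (0, 6, 8),
  .inr [(0, -1, -1, -2), (4, -7, -2, -10), (5, -1, 0, -2), (6, 0, -1, -18), (7, -1, -1, -28)],
  .inl (5, 6, 7),
  .inl (1, 7, 9),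
  .inr [(0, 0, -3, -4), (1, 1, -2, -2), (6, -1, -2, -4), (7, 1, -1, -12), (8, 0, -1, -18)],
  .inl (6, 7, 8),
  .inr [(1, 5, -2, -7), (2, 2, 0, -3), (5, 2, 1, -5), (7, 1, -1, -3), (8, 5, 1, -87)],
  .inl (7, 8, 9),
  .inl (5, 8, 9),
  .inr [(5, 1, 1, -33), (6, -1, -1, -28), (7, 0, -1, -18), (8, 1, -1, -12), (9, 5, 1, -87)],
  .inr [(0, -4, 0, -3), (3, -16, 6, -11), (4, -1, 0, -2), (5, -7, -2, -10), (7, -2, 1, -3)],
  .inl (0, 3, 10),
  .inl (3, 4, 7),
  .inl (0, 4, 5),
  .inr [(2, 1, 13, -9), (3, 0, 1, -2), (4, -1, 2, -2), (6, 1, 2, -3), (9, -2, 3, -5)],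
  .inl (2, 4, 14),
  .inl (3, 4, 9),
  .inl (2, 3, 6),
  .inl (3, 7, 10),
  .inr [(0, -4, 1, -2), (3, -8, 2, -5), (7, -5, 2, -3), (10, -16, 6, -11), (14, -6, 2, -3)],
  .inl (0, 7, 14),
  .inl (4, 9, 14),
  .inr [(2, -1, 14, -7), (4, -1, 8, -5), (9, -3, 3, -2), (10, -7, 12, -3), (13, -1, 4, -1)],
  .inl (2, 10, 13),
  .inl (9, 10, 13),
  .inl (2, 9, 15),
  .inr [(2, -4, 14, -1), (9, -6, 9, -1), (10, -1, 4, -1), (13, -7, 12, -3), (15, -3, 5, 1)],
  .inr [(3, -2, 1, -3), (4, -2, 3, -5), (7, -16, 6, -11), (9, -1, 2, -2), (10, -5, 2, -3)],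
  .inl (9, 10, 14),
  .inl (7, 10, 14),
  .inl (0, 13, 15),
  .inr [(0, -6, 3, -1), (7, -6, 2, -3), (9, -7, 12, -3), (10, -3, 3, -2), (13, -6, 9, -1)],
  .inr [(0, -3, 2, 1), (2, -4, 6, 3), (9, -3, 5, 1), (11, -9, 11, 7), (13, -12, 9, 1)],
  .inl (9, 13, 15),
  .inl (0, 2, 11),
  .inr [(1, 12, 3, -8), (2, 2, 1, -5), (3, 4, 3, -4), (5, 2, 0, -3), (8, 3, 4, -7)],
  .inl (1, 3, 13),
  .inl (2, 3, 8),
  .inl (1, 2, 5),
  .inl (2, 6, 14),
  .inr [(2, -1, 8, -5), (4, -1, 14, -7), (6, 2, 17, -10), (13, 0, 7, -3), (14, 1, 13, -9)],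
  .inl (4, 6, 13),
  .inl (3, 8, 13),
  .inr [(1, 14, 6, -7), (3, 5, 2, -3), (8, 1, 2, -1), (12, 3, 2, -1), (13, 4, 3, -4)],
  .inl (8, 12, 14),
  .inl (1, 12, 14),
  .inl (1, 8, 15),
  .inr [(1, 12, 8, -1), (8, 6, 8, -1), (12, 7, 8, -2), (14, 3, 2, -1), (15, 6, 6, 1)],
  .inr [(2, 1, 2, -3), (3, 3, 4, -7), (6, 1, 13, -9), (8, 4, 3, -4), (13, 1, 2, -1)],
  .inl (6, 13, 14),
  .inl (8, 13, 14),
  .inl (4, 12, 15),
  .inr [(4, 1, 7, -1), (6, 0, 7, -3), (8, 7, 8, -2), (12, 6, 8, -1), (13, 2, 17, -10)],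
  .inr [(1, 3, 4, 2), (4, 1, 3, 1), (8, 6, 6, 1), (10, 10, 16, 9), (12, 5, 14, 1)],
  .inl (8, 12, 15),
  .inl (1, 4, 10),
  .inl (2, 4, 13),
  .inl (6, 10, 15),
  .inr [(2, -1, 4, -1), (4, 0, 7, -3), (6, 1, 7, -1), (10, -4, 14, -1), (13, -1, 14, -7)],
  .inr [(2, -3, 5, 1), (6, 1, 9, 2), (9, -4, 6, 3), (10, 0, 9, 1), (11, -7, 12, 8)],
  .inl (2, 10, 15),
  .inl (6, 11, 12),
  .inl (9, 11, 12),
  .inr [(0, -1, 2, 2), (1, 0, 3, 4), (6, 1, 4, 3), (9, -6, 9, 7), (11, 0, 2, 1)],
  .inl (2, 9, 11),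
  .inr [(0, -3, 4, 3), (2, -9, 11, 7), (9, -7, 12, 8), (11, -4, 6, 3), (12, -6, 9, 7)],
  .inl (0, 9, 12),
  .inr [(4, 5, 14, 1), (6, 0, 9, 1), (10, 1, 9, 2), (12, 1, 3, 1), (15, 1, 7, -1)],
  .inl (4, 6, 15),
  .inl (4, 10, 12),
  .inl (6, 10, 12),
  .inr [(1, 4, 7, 5), (4, 10, 16, 9), (6, 0, 2, 1), (10, 1, 3, 1), (11, 1, 4, 3)],
  .inl (1, 6, 11),
  .inr [(0, 6, -9, -7), (1, 1, -1, -3), (2, 2, -1, -2), (7, 5, -2, -7), (9, 1, -2, -2)],
  .inl (0, 2, 12),
  .inl (0, 1, 9),
  .inl (1, 2, 7),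
  .inl (1, 5, 13),
  .inr [(1, 5, 2, -3), (3, 14, 6, -7), (5, 14, 3, -8), (12, 4, 1, -2), (13, 12, 3, -8)],
  .inl (3, 5, 12),
  .inl (2, 7, 12),
  .inr [(0, 9, -11, -7), (2, 3, -4, -3), (7, 3, -1, -2), (11, 3, -2, -1), (12, 2, -1, -2)],
  .inl (7, 11, 13),
  .inl (0, 11, 13),
  .inl (0, 7, 15),
  .inr [(0, 12, -9, -1), (7, 8, -3, -1), (11, 9, -4, -2), (13, 3, -2, -1), (15, 6, -3, 1)],
  .inr [(1, 2, 0, -3), (2, 5, -2, -7), (5, 12, 3, -8), (7, 2, -1, -2), (12, 3, -1, -2)],
  .inl (5, 12, 13),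
  .inl (7, 12, 13),
  .inl (3, 11, 15),
  .inr [(3, 9, 2, -1), (5, 4, 1, -2), (7, 9, -4, -2), (11, 8, -3, -1), (12, 14, 3, -8)],
  .inr [(0, 6, -2, 3), (3, 4, 0, 1), (7, 6, -3, 1), (11, 15, 0, 1), (14, 4, -1, 2)],
  .inl (7, 11, 15),
  .inl (0, 3, 14),
  .inl (1, 3, 12),
  .inl (5, 14, 15),
  .inr [(1, 3, 2, -1), (3, 4, 1, -2), (5, 9, 2, -1), (12, 14, 6, -7), (14, 12, 8, -1)],
  .inr [(1, 6, 6, 1), (5, 5, 1, 1), (8, 3, 4, 2), (10, 7, 8, 6), (11, 2, 1, 1)],
  .inl (1, 14, 15),
  .inl (5, 10, 11),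
  .inl (8, 10, 11),
  .inr [(0, 7, 2, 10), (4, 1, 1, 2), (5, 4, 0, 3), (8, 4, 5, 4), (10, 2, 1, 1)],
  .inl (1, 8, 10),
  .inr [(1, 10, 16, 9), (4, 4, 7, 5), (8, 7, 8, 6), (10, 3, 4, 2), (11, 4, 5, 4)],
  .inl (4, 8, 11),
  .inr [(3, 15, 0, 1), (5, 10, 3, 1), (11, 4, 0, 1), (14, 5, 1, 1), (15, 9, 2, -1)],
  .inl (3, 5, 15),
  .inl (5, 11, 14),
  .inl (3, 11, 14),
  .inr [(0, 8, -2, 5), (3, 4, -1, 2), (5, 2, 1, 1), (10, 4, 0, 3), (11, 5, 1, 1)],
  .inl (0, 5, 10),
  .inl (0, 1, 6),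
  .inl (0, 4, 8),
  .inl (1, 4, 11),
  .inr [(0, 1, 2, 4), (1, 1, 4, 3), (4, 4, 5, 4), (6, 0, 3, 4), (8, 1, 1, 2)]]

/-- value of the `j`-th form at an integer point -/
def dz (j : ℕ) (y : ℤ × ℤ × ℤ) : ℤ := (a j).1 * y.1 + (a j).2.1 * y.2.1 + (a j).2.2 * y.2.2

/-- `y` is an integer point whose sign vector differs from `s` exactly at `i` -/
def isWit (s : List Bool) (i : ℕ) (y : ℤ × ℤ × ℤ) : Bool :=
  (List.range 16).all fun j =>
    if (s.getD j false) != (j == i) then decide (0 < dz j y) else decide (dz j y < 0)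

/-- flip coordinate `i` -/
def flipAt (s : List Bool) (i : ℕ) : ℕ → Bool := fun t => (s.getD t false) != (t == i)

def chk (s : List Bool) : ((ℕ × ℕ × ℕ) ⊕ List (ℕ × ℤ × ℤ × ℤ)) → Bool
  | .inl (i, j, k) => decide (i < 16) && decide (j < 16) && decide (k < 16) &&
      (List.range 16).all fun l =>
        (l == i) || (l == j) || (l == k) || bad (flipAt s l) i j k l
  | .inr ys => decide ((ys.map Prod.fst).Nodup) && decide (ys.length = 5) &&
      ys.all fun y => decide (y.1 < 16) && isWit s y.1 y.2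

def chkAll : List (List Bool) → List ((ℕ × ℕ × ℕ) ⊕ List (ℕ × ℤ × ℤ × ℤ)) → Bool
  | [], _ => true
  | _ :: _, [] => false
  | s :: ss, c :: cs => chk s c && chkAll ss cs

def final : Bool :=
  match run codes 1 [[true]] with
  | none => false
  | some L => chkAll L certs

set_option maxRecDepth 100000 in
theorem final_true : final = true := by decide +kernel

theorem gp : ∀ i j k : Fin 16, i ≠ j → i ≠ k → j ≠ k → det3 (a i) (a j) (a k) ≠ 0 := by
  decide +kernel


/-! ### Soundness -/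

/-- the forms -/
noncomputable def D (i : ℕ) (x : Fin 3 → ℝ) : ℝ :=
  ((a i).1 : ℝ) * x 0 + ((a i).2.1 : ℝ) * x 1 + ((a i).2.2 : ℝ) * x 2

/-- the sign vector of a point -/
noncomputable def f (x : Fin 3 → ℝ) (i : ℕ) : Bool := decide (0 < D i x)

theorem sg_mul {x : Fin 3 → ℝ} {i : ℕ} (h : D i x ≠ 0) : 0 < (sg (f x i) : ℝ) * D i x := by
  unfold sg f
  by_cases h0 : 0 < D i x
  · simp [h0]
  · have : D i x < 0 := lt_of_le_of_ne (not_lt.mp h0) h
    simp [h0, this]

theorem rel (i j k l : ℕ) (x : Fin 3 → ℝ) :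
    (det3 (a j) (a k) (a l) : ℝ) * D i x - (det3 (a i) (a k) (a l) : ℝ) * D j x
      + (det3 (a i) (a j) (a l) : ℝ) * D k x - (det3 (a i) (a j) (a k) : ℝ) * D l x = 0 := by
  simp only [D, det3]
  push_cast
  ring

theorem prod_pos {b : Bool} {d : ℤ} {t : ℝ} (h : 0 < (sg b : ℝ) * t) (hd : 0 < sg b * d) :
    0 < (d : ℝ) * t := by
  cases b
  · simp only [sg, Bool.false_eq_true, if_false] at h hd
    push_cast at h
    have h1 : t < 0 := by linarith
    have h2 : d < 0 := by linarith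
    have h3 : (d : ℝ) < 0 := by exact_mod_cast h2
    exact mul_pos_of_neg_of_neg h3 h1
  · simp only [sg, if_true] at h hd
    push_cast at h
    have h1 : 0 < t := by linarith
    have h2 : 0 < d := by linarith
    have h3 : (0 : ℝ) < d := by exact_mod_cast h2
    exact mul_pos h3 h1

theorem prod_neg {b : Bool} {d : ℤ} {t : ℝ} (h : 0 < (sg b : ℝ) * t) (hd : sg b * d < 0) :
    (d : ℝ) * t < 0 := by
  have h1 : 0 < sg b * (-d) := by linarith
  have h2 := prod_pos h h1
  push_cast at h2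
  linarith

theorem bad_false (x : Fin 3 → ℝ) (s : ℕ → Bool) (i j k l : ℕ) (hi : s i = f x i)
    (hj : s j = f x j) (hk : s k = f x k) (hl : s l = f x l) (di : D i x ≠ 0) (dj : D j x ≠ 0)
    (dk : D k x ≠ 0) (dl : D l x ≠ 0) : bad s i j k l = false := by
  by_contra hcon
  rw [Bool.not_eq_false] at hcon
  have hr := rel i j k l x
  have pi := sg_mul di
  have pj := sg_mul dj
  have pk := sg_mul dk
  have pl := sg_mul dl
  simp only [bad, hi, hj, hk, hl, Bool.or_eq_true, Bool.and_eq_true, decide_eq_true_eq] at hcon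
  rcases hcon with ⟨⟨⟨h1, h2⟩, h3⟩, h4⟩ | ⟨⟨⟨h1, h2⟩, h3⟩, h4⟩
  · have e1 := prod_pos pi h1
    have e2 := prod_neg pj (by linarith : sg (f x j) * det3 (a i) (a k) (a l) < 0)
    have e3 := prod_pos pk h3
    have e4 := prod_neg pl (by linarith : sg (f x l) * det3 (a i) (a j) (a k) < 0)
    linarith
  · have e1 := prod_neg pi h1
    have e2 := prod_pos pj (by linarith : 0 < sg (f x j) * det3 (a i) (a k) (a l))
    have e3 := prod_neg pk h3
    have e4 := prod_pos pl (by linarith : 0 < sg (f x l) * det3 (a i) (a j) (a k))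
    linarith

/-- the list of the first `m` signs -/
noncomputable def sv (x : Fin 3 → ℝ) (m : ℕ) : List Bool := (List.range m).map (f x)

theorem sv_succ (x : Fin 3 → ℝ) (m : ℕ) : sv x (m + 1) = sv x m ++ [f x m] := by
  simp [sv, List.range_succ]

theorem sv_getD (x : Fin 3 → ℝ) (m t : ℕ) (h : t < m) : (sv x m).getD t false = f x t := by
  simp [sv, List.getD, h]

theorem stepc_sound (x : Fin 3 → ℝ) (m : ℕ) (hm : m < 16) (hx : ∀ i < 16, D i x ≠ 0) :
    ∀ (ss : List (List Bool)) (cs : List ℕ) (r : List (List Bool)), stepc m ss cs = some r →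
      sv x m ∈ ss → sv x (m + 1) ∈ r := by
  intro ss
  induction ss with
  | nil => intro cs r _ h; simp at h
  | cons s ss ih =>
    intro cs r hr h
    cases cs with
    | nil => simp [stepc] at hr
    | cons c cs =>
      rw [stepc] at hr
      cases hs : stepc m ss cs with
      | none => rw [hs] at hr; simp at hr
      | some r' =>
        rw [hs] at hr
        dsimp only at hr
        by_cases hc : c = 0
        · rw [if_pos hc] at hr
          injection hr with hr
          subst hr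
          rcases List.mem_cons.mp h with h | h
          · rw [sv_succ, h]
            cases f x m <;> simp
          · have := ih cs r' hs h
            simp [this]
        · rw [if_neg hc] at hr
          split_ifs at hr with hb
          injection hr with hr
          subst hr
          rcases List.mem_cons.mp h with h | h
          · rw [sv_succ, h]
            by_cases he : f x m = (c % 2 == 1)
            · rw [he]; simp
            · exfalso
              have he' : f x m = !(c % 2 == 1) := by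
                revert he
                cases f x m <;> cases (c % 2 == 1) <;> simp
              simp only [Bool.and_eq_true, decide_eq_true_eq] at hb
              obtain ⟨⟨⟨h1, h2⟩, h3⟩, h4⟩ := hb
              have hlist : s ++ [!(c % 2 == 1)] = sv x (m + 1) := by
                rw [sv_succ, h, he']
              rw [hlist] at h4
              have := bad_false x (fun t => (sv x (m + 1)).getD t false) (c / 2 % 16)
                (c / 32 % 16) (c / 512 % 16) m (sv_getD _ _ _ (by omega)) (sv_getD _ _ _ (by omega))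
                (sv_getD _ _ _ (by omega)) (sv_getD _ _ _ (by omega)) (hx _ (by omega))
                (hx _ (by omega)) (hx _ (by omega)) (hx _ hm)
              rw [this] at h4
              exact absurd h4 (by simp)
          · have := ih cs r' hs h
            simp [this]

theorem run_sound (x : Fin 3 → ℝ) (hx : ∀ i < 16, D i x ≠ 0) :
    ∀ (cs : List (List ℕ)) (m : ℕ) (ps r : List (List Bool)), m + cs.length ≤ 16 →
      run cs m ps = some r → sv x m ∈ ps → sv x (m + cs.length) ∈ r := by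
  intro cs
  induction cs with
  | nil =>
    intro m ps r _ h h1
    simp only [run, Option.some.injEq] at h
    subst h
    simpa using h1
  | cons c cs ih =>
    intro m ps r hlen h h1
    rw [run] at h
    cases hs : stepc m ps c with
    | none => rw [hs] at h; simp at h
    | some r' =>
      rw [hs] at h
      dsimp only at h
      simp only [List.length_cons] at hlen
      have h2 := stepc_sound x m (by omega) hx ps c r' hs h1
      have h3 := ih (m + 1) r' r (by omega) h h2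
      simp only [List.length_cons]
      rwa [show m + (cs.length + 1) = m + 1 + cs.length by omega]

theorem chkAll_sound : ∀ (L : List (List Bool)) (C : List ((ℕ × ℕ × ℕ) ⊕ List (ℕ × ℤ × ℤ × ℤ))),
    chkAll L C = true → ∀ s ∈ L, ∃ c, chk s c = true := by
  intro L
  induction L with
  | nil => intro C _ s hs; simp at hs
  | cons s ss ih =>
    intro C hC t ht
    cases C with
    | nil => simp [chkAll] at hC
    | cons c cs =>
      simp only [chkAll, Bool.and_eq_true] at hC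
      rcases List.mem_cons.mp ht with rfl | ht
      · exact ⟨c, hC.1⟩
      · exact ih cs hC.2 t ht

/-- every point with positive first form has a certificate -/
theorem exists_cert (x : Fin 3 → ℝ) (hx : ∀ i < 16, D i x ≠ 0) (h0 : 0 < D 0 x) :
    ∃ c, chk (sv x 16) c = true := by
  have hf := final_true
  unfold final at hf
  cases hr : run codes 1 [[true]] with
  | none => rw [hr] at hf; simp at hf
  | some L =>
    rw [hr] at hf
    dsimp only at hf
    have h1 : sv x 1 ∈ ([[true]] : List (List Bool)) := by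
      simp [sv, f, h0]
    have hl : codes.length = 15 := by decide
    have h2 := run_sound x hx codes 1 [[true]] L (by rw [hl]) hr h1
    rw [hl] at h2
    exact chkAll_sound L certs hf _ h2

/-- the facets of the cell of `x` -/
def F (x : Fin 3 → ℝ) : Set (Fin 16) :=
  {i | ∃ y : Fin 3 → ℝ, D i x * D i y < 0 ∧ ∀ j : Fin 16, j ≠ i → 0 < D j x * D j y}

theorem D_int (j : ℕ) (y : ℤ × ℤ × ℤ) :
    D j ![(y.1 : ℝ), (y.2.1 : ℝ), (y.2.2 : ℝ)] = (dz j y : ℝ) := by
  simp [D, dz]

theorem f_true {x : Fin 3 → ℝ} {i : ℕ} : f x i = true ↔ 0 < D i x := by simp [f]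

theorem f_false {x : Fin 3 → ℝ} {i : ℕ} (h : D i x ≠ 0) : f x i = false ↔ D i x < 0 := by
  simp only [f, decide_eq_false_iff_not, not_lt]
  exact ⟨fun h1 => lt_of_le_of_ne h1 h, le_of_lt⟩

theorem card_ne_four (x : Fin 3 → ℝ) (hx : ∀ i < 16, D i x ≠ 0) (h0 : 0 < D 0 x) :
    (F x).ncard ≠ 4 := by
  obtain ⟨c, hc⟩ := exists_cert x hx h0
  rcases c with ⟨i, j, k⟩ | ys
  · simp only [chk, Bool.and_eq_true, decide_eq_true_eq, List.all_eq_true, List.mem_range,
      Bool.or_eq_true, beq_iff_eq] at hc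
    obtain ⟨⟨⟨hi, hj⟩, hk⟩, hall⟩ := hc
    have hsub : F x ⊆ {⟨i, hi⟩, ⟨j, hj⟩, ⟨k, hk⟩} := by
      rintro l ⟨y, hy1, hy2⟩
      by_contra hl
      simp only [Set.mem_insert_iff, Set.mem_singleton_iff, not_or, Fin.ext_iff] at hl
      obtain ⟨hli, hlj, hlk⟩ := hl
      have hb : bad (flipAt (sv x 16) l) i j k l = true := by
        rcases hall l l.2 with ((h | h) | h) | h
        · exact absurd h hli
        · exact absurd h hlj
        · exact absurd h hlk
        · exact h
      have hyn : ∀ t < 16, D t y ≠ 0 := by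
        intro t ht h
        by_cases htl : (⟨t, ht⟩ : Fin 16) = l
        · have : D l y = 0 := by rw [← htl]; exact h
          rw [this] at hy1; simp at hy1
        · have := hy2 ⟨t, ht⟩ htl
          simp only [h, mul_zero, lt_self_iff_false] at this
      have hsame : ∀ t : ℕ, (ht : t < 16) → (flipAt (sv x 16) l) t = f y t := by
        intro t ht
        unfold flipAt
        rw [sv_getD x 16 t ht]
        have hxt := hx t ht
        have hyt := hyn t ht
        by_cases htl : t = l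
        · have hz : D t x * D t y < 0 := by rw [htl]; exact hy1
          rcases mul_neg_iff.mp hz with ⟨h1, h2⟩ | ⟨h1, h2⟩
          · rw [f_true.mpr h1, (f_false hyt).mpr h2]; simp [htl]
          · rw [(f_false hxt).mpr h1, f_true.mpr h2]; simp [htl]
        · have hz : 0 < D t x * D t y := hy2 ⟨t, ht⟩ (by
            intro h; exact htl (congrArg Fin.val h))
          rcases mul_pos_iff.mp hz with ⟨h1, h2⟩ | ⟨h1, h2⟩
          · rw [f_true.mpr h1, f_true.mpr h2]; simp [htl]
          · rw [(f_false hxt).mpr h1, (f_false hyt).mpr h2]; simp [htl]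
      have := bad_false y (flipAt (sv x 16) l) i j k l (hsame i hi) (hsame j hj) (hsame k hk)
        (hsame l l.2) (hyn i hi) (hyn j hj) (hyn k hk) (hyn l l.2)
      rw [this] at hb
      exact absurd hb (by simp)
    have h3 : (F x).ncard ≤ 3 := by
      refine (Set.ncard_le_ncard hsub (Set.toFinite _)).trans ?_
      refine (Set.ncard_insert_le _ _).trans ?_
      have := Set.ncard_insert_le (⟨j, hj⟩ : Fin 16) {⟨k, hk⟩}
      rw [Set.ncard_singleton] at this
      omega
    omega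
  · simp only [chk, Bool.and_eq_true, decide_eq_true_eq, List.all_eq_true] at hc
    obtain ⟨⟨hnd, hlen⟩, hall⟩ := hc
    have hmem : ∀ i ∈ ys.map Prod.fst, ∃ h : i < 16, (⟨i, h⟩ : Fin 16) ∈ F x := by
      intro i hi
      obtain ⟨y, hy, rfl⟩ := List.mem_map.mp hi
      obtain ⟨h1, h2⟩ := hall y hy
      refine ⟨h1, ![(y.2.1 : ℝ), (y.2.2.1 : ℝ), (y.2.2.2 : ℝ)], ?_, ?_⟩
      · rw [D_int]
        simp only [isWit, List.all_eq_true, List.mem_range] at h2
        have h3 := h2 y.1 h1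
        rw [sv_getD x 16 _ h1] at h3
        by_cases hp : 0 < D y.1 x
        · rw [f_true.mpr hp] at h3
          simp only [beq_self_eq_true, bne_self_eq_false, Bool.false_eq_true, if_false,
            decide_eq_true_eq] at h3
          exact mul_neg_of_pos_of_neg hp (by exact_mod_cast h3)
        · have hp' : D y.1 x < 0 := lt_of_le_of_ne (not_lt.mp hp) (hx _ h1)
          rw [(f_false (hx _ h1)).mpr hp'] at h3
          simp only [beq_self_eq_true, Bool.false_bne, if_true, decide_eq_true_eq] at h3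
          exact mul_neg_of_neg_of_pos hp' (by exact_mod_cast h3)
      · intro j hj
        rw [D_int]
        simp only [isWit, List.all_eq_true, List.mem_range] at h2
        have h3 := h2 j j.2
        rw [sv_getD x 16 _ j.2] at h3
        have hjne : ((j : ℕ) == y.1) = false := by
          rw [beq_eq_false_iff_ne]
          intro h
          exact hj (Fin.ext h)
        by_cases hp : 0 < D j x
        · rw [f_true.mpr hp, hjne] at h3
          simp only [Bool.bne_false, if_true, decide_eq_true_eq] at h3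
          exact mul_pos hp (by exact_mod_cast h3)
        · have hp' : D j x < 0 := lt_of_le_of_ne (not_lt.mp hp) (hx _ j.2)
          rw [(f_false (hx _ j.2)).mpr hp', hjne] at h3
          simp only [bne_self_eq_false, Bool.false_eq_true, if_false, decide_eq_true_eq] at h3
          exact mul_pos_of_neg_of_neg hp' (by exact_mod_cast h3)
    classical
    let S : Finset (Fin 16) := ((ys.map Prod.fst).attach.map
      (fun i => (⟨i.1, (hmem i.1 i.2).1⟩ : Fin 16))).toFinset
    have hSc : S.card = 5 := by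
      rw [List.toFinset_card_of_nodup]
      · simp [hlen]
      · refine (List.nodup_attach.mpr hnd).map ?_
        intro p q hpq
        exact Subtype.ext (congrArg Fin.val hpq)
    have hSF : (S : Set (Fin 16)) ⊆ F x := by
      intro i hi
      simp only [S, List.coe_toFinset, List.mem_map, Set.mem_ofPred_eq] at hi
      obtain ⟨p, -, rfl⟩ := hi
      exact (hmem p.1 p.2).2
    have h5 : 5 ≤ (F x).ncard := by
      rw [← hSc, ← Set.ncard_coe_finset]
      exact Set.ncard_le_ncard hSF (Set.toFinite _)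
    omega

/-- the real normals -/
noncomputable def v (i : Fin 16) : Fin 3 → ℝ := ![((a i).1 : ℝ), ((a i).2.1 : ℝ), ((a i).2.2 : ℝ)]

theorem v_dot (i : Fin 16) (x : Fin 3 → ℝ) : dotProduct (v i) x = D i x := by
  simp [v, D, dotProduct, Fin.sum_univ_three]

theorem v_indep (i j k : Fin 16) (hij : i ≠ j) (hik : i ≠ k) (hjk : j ≠ k) :
    LinearIndependent ℝ ![v i, v j, v k] := by
  have h := gp i j k hij hik hjk
  have hdet : (Matrix.of ![v i, v j, v k]).det ≠ 0 := by
    have e : (Matrix.of ![v i, v j, v k]).det = (det3 (a i) (a j) (a k) : ℝ) := by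
      rw [Matrix.det_fin_three]
      simp [v, det3]
      ring
    rw [e]
    exact_mod_cast h
  have := Matrix.linearIndependent_rows_of_det_ne_zero hdet
  exact this

theorem F_neg (x : Fin 3 → ℝ) : F (-x) = F x := by
  have hD : ∀ (i : ℕ) (z : Fin 3 → ℝ), D i (-z) = - D i z := by
    intro i z
    simp only [D, Pi.neg_apply]
    ring
  ext i
  constructor
  · rintro ⟨y, h1, h2⟩
    refine ⟨-y, ?_, ?_⟩
    · rw [hD] at h1 ⊢; linarith
    · intro j hj
      have := h2 j hj
      rw [hD] at this ⊢; linarith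
  · rintro ⟨y, h1, h2⟩
    refine ⟨-y, ?_, ?_⟩
    · rw [hD, hD]; linarith
    · intro j hj
      have := h2 j hj
      rw [hD, hD]; linarith

theorem main (x : Fin 3 → ℝ) (hx : ∀ i : Fin 16, dotProduct (v i) x ≠ 0) :
    {i : Fin 16 | ∃ y : Fin 3 → ℝ, dotProduct (v i) x * dotProduct (v i) y < 0 ∧
      ∀ j : Fin 16, j ≠ i → 0 < dotProduct (v j) x * dotProduct (v j) y}.ncard ≠ 4 := by
  simp only [v_dot] at hx ⊢
  have hx' : ∀ i < 16, D i x ≠ 0 := fun i hi => hx ⟨i, hi⟩
  change (F x).ncard ≠ 4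
  rcases lt_or_gt_of_ne (hx' 0 (by norm_num)) with h | h
  · rw [← F_neg]
    have hD : ∀ (i : ℕ) (z : Fin 3 → ℝ), D i (-z) = - D i z := by
      intro i z
      simp only [D, Pi.neg_apply]
      ring
    refine card_ne_four (-x) (fun i hi => ?_) ?_
    · rw [hD]; exact neg_ne_zero.mpr (hx' i hi)
    · rw [hD]; linarith
  · exact card_ne_four x hx' h

/-- The negation of the preceding statement: For n ≥ 4 with n ≠ 6, 10, any n lines in the projective plane with no three concurrent (given by normals in ℝ³, any three independent) determine a face bounded by exactly 4 of the lines. -/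
theorem result :
    ¬ (∀ n : ℕ, 4 ≤ n → n ≠ 6 → n ≠ 10 →
      ∀ v : Fin n → (Fin 3 → ℝ),
        (∀ i j k : Fin n, i ≠ j → i ≠ k → j ≠ k →
          LinearIndependent ℝ ![v i, v j, v k]) →
        ∃ x : Fin 3 → ℝ, (∀ i : Fin n, dotProduct (v i) x ≠ 0) ∧
          {i : Fin n | ∃ y : Fin 3 → ℝ,
              dotProduct (v i) x * dotProduct (v i) y < 0 ∧
              ∀ j : Fin n, j ≠ i → 0 < dotProduct (v j) x * dotProduct (v j) y}.ncard = 4) := by
  intro h
  obtain ⟨x, hx, h4⟩ := h 16 (by norm_num) (by norm_num) (by norm_num) v v_indep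
  exact main x hx h4

end Pool.Agent.S08472
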