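import Pool.Statements.S08512
import Pool.Agent.H652R3.GSCounter

set_option autoImplicit false
open Pool Pool.MP_476d97_co

namespace Pool.Agent.S08512

open Pool.Agent.H652R3

theorem nat0 : natProfile (0, 0) = 6163456 := by decide +kernel

theorem nat1 : natProfile (1, 0) = 6458368 := by decide +kernel

/-- The four circulant generators. -/
def sA : Fin 7 → ℤ := ![-1, -1, 1, 1, -1, 1, 1]
def sB : Fin 7 → ℤ := ![-1, 1, -1, 1, -1, 1, 1]
def sC : Fin 7 → ℤ := ![1, 1, 1, -1, -1, -1, -1]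
def sD : Fin 7 → ℤ := ![-1, 1, -1, -1, -1, -1, -1]

/-- The back-diagonal matrix. -/
def bR : Matrix (Fin 7) (Fin 7) ℤ :=
  Matrix.of (fun i j : Fin 7 => if (i : ℕ) + (j : ℕ) + 1 = 7 then (1 : ℤ) else 0)

/-- The Goethals-Seidel matrix. -/
def gsH : Matrix (Fin 4 × Fin 7) (Fin 4 × Fin 7) ℤ :=
  Matrix.of (fun p q : Fin 4 × Fin 7 =>
      (![![Matrix.circulant sA, Matrix.circulant sB * bR, Matrix.circulant sC * bR, Matrix.circulant sD * bR],
         ![Matrix.circulant sB * bR, -Matrix.circulant sA, bR * Matrix.circulant sD, -(bR * Matrix.circulant sC)],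
         ![Matrix.circulant sC * bR, -(bR * Matrix.circulant sD), -Matrix.circulant sA, bR * Matrix.circulant sB],
         ![Matrix.circulant sD * bR, bR * Matrix.circulant sC, -(bR * Matrix.circulant sB), -Matrix.circulant sA]]
        : Fin 4 → Fin 4 → Matrix (Fin 7) (Fin 7) ℤ) p.1 q.1 p.2 q.2)

theorem gs_entries' : ∀ p : (Fin 4 × Fin 7) × (Fin 4 × Fin 7),
    gsH p.1 p.2 = sgn ((rowBits p.1).testBit (7 * p.2.1.val + p.2.2.val)) := by
  decide +kernel

theorem gs_entries (i j : Fin 4 × Fin 7) :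
    gsH i j = sgn ((rowBits i).testBit (7 * j.1.val + j.2.val)) :=
  gs_entries' (i, j)

theorem gs_ident :
    Matrix.circulant sA * (Matrix.circulant sA).transpose
      + Matrix.circulant sB * (Matrix.circulant sB).transpose
      + Matrix.circulant sC * (Matrix.circulant sC).transpose
      + Matrix.circulant sD * (Matrix.circulant sD).transpose
      = ((4 * 7 : ℕ) : ℤ) • (1 : Matrix (Fin 7) (Fin 7) ℤ) := by
  decide +kernel

/-- The negation of the preceding statement: For odd w ≥ 7 and ±1 circulants A,B,C,D with AAᵀ+BBᵀ+CCᵀ+DDᵀ=4wI, the displayed Goethals–Seidel Hadamard matrix is, up to row/column permutation and negation, the matrix of a ±1 2-cocycle on some group of order 4w. -/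
theorem result :
    ¬ (∀ (w : ℕ), 7 ≤ w → Odd w →
  ∀ (a b c d : Fin w → ℤ),
    (∀ i, (a i = 1 ∨ a i = -1) ∧ (b i = 1 ∨ b i = -1) ∧
          (c i = 1 ∨ c i = -1) ∧ (d i = 1 ∨ d i = -1)) →
    Matrix.circulant a * (Matrix.circulant a).transpose
      + Matrix.circulant b * (Matrix.circulant b).transpose
      + Matrix.circulant c * (Matrix.circulant c).transpose
      + Matrix.circulant d * (Matrix.circulant d).transpose
      = ((4 * w : ℕ) : ℤ) • (1 : Matrix (Fin w) (Fin w) ℤ) →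
  ∀ (R : Matrix (Fin w) (Fin w) ℤ),
    R = Matrix.of (fun i j : Fin w => if (i : ℕ) + (j : ℕ) + 1 = w then (1 : ℤ) else 0) →
  ∀ (H : Matrix (Fin 4 × Fin w) (Fin 4 × Fin w) ℤ),
    H = Matrix.of (fun p q : Fin 4 × Fin w =>
      (![![Matrix.circulant a, Matrix.circulant b * R, Matrix.circulant c * R, Matrix.circulant d * R],
         ![Matrix.circulant b * R, -Matrix.circulant a, R * Matrix.circulant d, -(R * Matrix.circulant c)],
         ![Matrix.circulant c * R, -(R * Matrix.circulant d), -Matrix.circulant a, R * Matrix.circulant b],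
         ![Matrix.circulant d * R, R * Matrix.circulant c, -(R * Matrix.circulant b), -Matrix.circulant a]]
        : Fin 4 → Fin 4 → Matrix (Fin w) (Fin w) ℤ) p.1 q.1 p.2 q.2) →
  ∃ (G : Type) (_ : Group G) (ψ : G → G → ℤ) (σ τ : (Fin 4 × Fin w) ≃ G)
    (r s : Fin 4 × Fin w → ℤ),
    (∀ g h : G, ψ g h = 1 ∨ ψ g h = -1) ∧
    (∀ g h k : G, ψ g h * ψ (g * h) k = ψ g (h * k) * ψ h k) ∧
    (∀ i, r i = 1 ∨ r i = -1) ∧
    (∀ j, s j = 1 ∨ s j = -1) ∧
    (∀ i j, H i j = r i * s j * ψ (σ i) (τ j))) := by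
  intro h
  obtain ⟨G, _, ψ, σ, τ, r, s, hψ, hc, hr, hs, hH⟩ :=
    h 7 le_rfl (by decide) sA sB sC sD (by decide) gs_ident bR rfl gsH rfl
  have h1 := rowProfile_const gsH ψ σ τ r s hψ hc hr hs hH (0, 0) (1, 0)
  rw [rowProfile_eq gsH gs_entries, rowProfile_eq gsH gs_entries, nat0, nat1] at h1
  norm_num at h1

end Pool.Agent.S08512
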