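import Pool.Statements.S08517
import Pool.Agent.H229R3.ED.Main

set_option autoImplicit false
open Pool Pool.MP_47ad0a_co

namespace Pool.Agent.S08517

/-- There is a constant c such that for every n, the m-eternal domination number of the n×n grid (guards on distinct vertices, all may move one step per attack) is at most its domination number plus c. -/
theorem result :
    ∃ c : ℕ, ∀ n : ℕ,
      sInf {k : ℕ | ∃ F : Set (Finset (Fin n × Fin n)), F.Nonempty ∧
          (∀ D ∈ F, D.card = k) ∧
          ∀ D ∈ F, ∀ v : Fin n × Fin n, ∃ D' ∈ F, v ∈ D' ∧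
            ∃ f : Fin n × Fin n → Fin n × Fin n,
              Set.InjOn f (D : Set (Fin n × Fin n)) ∧ D.image f = D' ∧
              ∀ x ∈ D, f x = x ∨
                (SimpleGraph.boxProd (SimpleGraph.pathGraph n)
                  (SimpleGraph.pathGraph n)).Adj x (f x)}
        ≤ sInf {k : ℕ | ∃ D : Finset (Fin n × Fin n), D.card = k ∧
            ∀ v : Fin n × Fin n, v ∈ D ∨ ∃ u ∈ D,
              (SimpleGraph.boxProd (SimpleGraph.pathGraph n)
                (SimpleGraph.pathGraph n)).Adj u v} + c := by
  exact Pool.Agent.H229R3.ED.main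

end Pool.Agent.S08517
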