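import Pool.Statements.S08532
import Pool.Agent.H185R3.FlagCode

set_option autoImplicit false
open Pool Pool.MP_480816_co

namespace Pool.Agent.S08532

/-- The negation of the preceding statement: For every real α there is a constant C such that, in every dimension d, any finite set of unit vectors whose distinct pairs have inner product negative or equal to α has at most C·d elements. -/
theorem result :
    ¬ (∀ α : ℝ, ∃ C : ℝ, ∀ d : ℕ, ∀ S : Finset (EuclideanSpace ℝ (Fin d)),
      (∀ x ∈ S, ‖x‖ = 1) →
      (∀ x ∈ S, ∀ y ∈ S, x ≠ y → (inner ℝ x y < 0 ∨ inner ℝ x y = α)) →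
      (S.card : ℝ) ≤ C * (d : ℝ)) :=
  Pool.Agent.H185R3.main_disproof

end Pool.Agent.S08532
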