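import Pool.Statements.S08556
import Pool.Agent.H559R3.Lift

set_option autoImplicit false
open scoped Pointwise
open Pool Pool.MP_491dd2_co

namespace Pool.Agent.S08556

/-- The negation of the preceding statement: For all ε, λ > 0 there is a constant c such that for every prime p and all A, B ⊆ Z_p of equal size n with ∣A+B∣ ≤ λn, some A' ⊆ A with ∣A'∣ ≥ (1−ε)n and B' ⊆ B with ∣B'∣ ≤ c satisfy ∣A'+B'∣ ≥ (1−ε)∣A'+B∣. -/
theorem result :
    ¬ (∀ ε : ℝ, 0 < ε → ∀ lam : ℝ, 0 < lam → ∃ c : ℕ,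
      ∀ p : ℕ, p.Prime → ∀ A B : Finset (ZMod p),
        A.card = B.card →
        ((A + B).card : ℝ) ≤ lam * (A.card : ℝ) →
        ∃ A' : Finset (ZMod p), A' ⊆ A ∧
        ∃ B' : Finset (ZMod p), B' ⊆ B ∧
          (1 - ε) * (A.card : ℝ) ≤ (A'.card : ℝ) ∧
          B'.card ≤ c ∧
          (1 - ε) * ((A' + B).card : ℝ) ≤ ((A' + B').card : ℝ)) := by
  intro h
  obtain ⟨c, hc⟩ := h (1 / 10) (by norm_num) 224 (by norm_num)
  obtain ⟨p, hp, A, B, hAB, hsum, hmain⟩ := Pool.Agent.H559R3.Lift.zmod_version c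
  obtain ⟨A', hA', B', hB', h1, h2, h3⟩ := hc p hp A B hAB (by exact_mod_cast hsum)
  have h1' : (9 * A.card : ℝ) ≤ 10 * A'.card := by linarith
  have h3' : (9 * (A' + B).card : ℝ) ≤ 10 * (A' + B').card := by linarith
  have h1n : 9 * A.card ≤ 10 * A'.card := by exact_mod_cast h1'
  have h3n : 9 * (A' + B).card ≤ 10 * (A' + B').card := by exact_mod_cast h3'
  have := hmain A' hA' B' hB' h1n h2
  omega

end Pool.Agent.S08556
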