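import Pool.Statements.S08582
import Pool.Agent.H407R3.Chev.Loop

set_option autoImplicit false
open Pool Pool.MP_49f151_co

namespace Pool.Agent.S08582

/-- The negation of the preceding statement: For every closed topological disk C and every tiling of the plane by isometric copies of C with disjoint interiors, each tile's neighborhood (union of tiles meeting it) is simply connected. -/
theorem result :
    ¬ (∀ (C : Set (EuclideanSpace ℝ (Fin 2))) (𝒯 : Set (Set (EuclideanSpace ℝ (Fin 2)))),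
      Nonempty (C ≃ₜ Metric.closedBall (0 : EuclideanSpace ℝ (Fin 2)) 1) →
      (∀ T ∈ 𝒯, ∃ f : EuclideanSpace ℝ (Fin 2) ≃ᵢ EuclideanSpace ℝ (Fin 2), T = f '' C) →
      ⋃₀ 𝒯 = Set.univ →
      𝒯.Pairwise (fun A B => Disjoint (interior A) (interior B)) →
      ∀ T ∈ 𝒯, SimplyConnectedSpace (⋃₀ {T' ∈ 𝒯 | (T' ∩ T).Nonempty})) := by
  intro h
  refine H407R3.Chev.not_sc (h H407R3.Chev.proto H407R3.Chev.TT H407R3.Chev.proto_ball ?_ ?_ ?_
    H407R3.Chev.T0 H407R3.Chev.T0_mem)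
  · rintro T ⟨τ, m, n, rfl⟩
    exact ⟨_, H407R3.Chev.tile_eq_mot _ _ _⟩
  · rw [Set.eq_univ_iff_forall]
    intro q
    obtain ⟨p, rfl⟩ := H407R3.Chev.Phi.surjective q
    obtain ⟨τ, m, n, hp⟩ := H407R3.Chev.tileIx_cover p
    exact ⟨_, ⟨τ, m, n, rfl⟩, ⟨p, hp, rfl⟩⟩
  · rintro _ ⟨τ, m, n, rfl⟩ _ ⟨τ', m', n', rfl⟩ hne
    have h1 : ¬ (τ = τ' ∧ m = m' ∧ n = n') := by
      rintro ⟨rfl, rfl, rfl⟩
      exact hne rfl
    have h2 := H407R3.Chev.tileIx_disjoint h1
    have e : ∀ s : Set (ℝ × ℝ), interior (H407R3.Chev.Phi '' s) = H407R3.Chev.Phi '' interior s :=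
      fun s => (H407R3.Chev.Phi.toHomeomorph.image_interior s).symm
    show Disjoint (interior _) (interior _)
    rw [e, e]
    exact (Set.disjoint_image_iff H407R3.Chev.Phi.injective).2 h2

end Pool.Agent.S08582
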