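import Pool.Statements.S08599

/-!
A projective plane of order `9` (it is the Hughes plane) with a quasiregular collineation group
`Γ ≅ ℤ/13 × D₃` of order `78 = 9² - 3` of type (E).  The plane is built from a relative difference
set with parameters `(13, 6, 9, 1)` in `ℤ/13 × D₃` relative to `1 × D₃`.
-/

set_option autoImplicit false
open Pool Pool.MP_4adf9f_co

namespace Pool.Agent.S08599

/-- The cyclic group of order 13, written multiplicatively. -/
abbrev Z := Multiplicative (ZMod 13)

/-- The nonabelian group of order 6. -/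
abbrev S := DihedralGroup 3

/-- The group of order 78. -/
abbrev H := Z × S

/-- The relative difference set, as a partial function `ℤ/13 → D₃`. -/
def kf : ZMod 13 → Option S
  | 0 => none
  | 1 => none
  | 2 => some (.r 0)
  | 3 => none
  | 4 => some (.r 1)
  | 5 => some (.r 2)
  | 6 => some (.r 1)
  | 7 => some (.sr 0)
  | 8 => some (.sr 0)
  | 9 => none
  | 10 => some (.r 0)
  | 11 => some (.sr 0)
  | 12 => some (.r 2)

/-- The points. -/
inductive Pt
  | base : Z → Pt
  | out : H → Pt
  deriving DecidableEq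

/-- The lines. -/
inductive Ln
  | base : Z → Ln
  | out : H → Ln
  deriving DecidableEq

/-- Incidence. -/
def inc : Pt → Ln → Prop
  | .base u, .base z => kf (Multiplicative.toAdd z - Multiplicative.toAdd u) = none
  | .base u, .out c => u = c.1
  | .out x, .base z => x.1 = z
  | .out x, .out c => kf (Multiplicative.toAdd x.1 - Multiplicative.toAdd c.1) = some (c.2⁻¹ * x.2)

instance : Membership Pt Ln := ⟨fun l p => inc p l⟩

def eqvPt : Pt ≃ Z ⊕ H where
  toFun
    | .base u => .inl u
    | .out x => .inr x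
  invFun
    | .inl u => .base u
    | .inr x => .out x
  left_inv := by rintro (_ | _) <;> rfl
  right_inv := by rintro (_ | _) <;> rfl

def eqvLn : Ln ≃ Z ⊕ H where
  toFun
    | .base u => .inl u
    | .out x => .inr x
  invFun
    | .inl u => .base u
    | .inr x => .out x
  left_inv := by rintro (_ | _) <;> rfl
  right_inv := by rintro (_ | _) <;> rfl

instance : Fintype Pt := Fintype.ofEquiv _ eqvPt.symm
instance : Fintype Ln := Fintype.ofEquiv _ eqvLn.symm

theorem card_Pt : Fintype.card Pt = 91 := by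
  rw [Fintype.card_congr eqvPt]; rfl

theorem card_Ln : Fintype.card Ln = 91 := by
  rw [Fintype.card_congr eqvLn]; rfl

/-- the base lines meet -/
theorem base_base : ∀ z z' : ZMod 13, z ≠ z' → ∃ u : ZMod 13, kf (z - u) = none ∧ kf (z' - u) = none := by
  decide +kernel

theorem base_base_unique : ∀ z z' : ZMod 13, z ≠ z' → ∀ u u' : ZMod 13,
    kf (z - u) = none → kf (z' - u) = none → kf (z - u') = none → kf (z' - u') = none → u = u' := by
  decide +kernel

/-- `t * s⁻¹` for `s = kf a`, `t = kf (a - w)`, when both are defined. -/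
def q (w a : ZMod 13) : Option S :=
  match kf a, kf (a - w) with
  | some s, some t => some (t * s⁻¹)
  | _, _ => none

theorem q_eq {w a : ZMod 13} {s t : S} (hs : kf a = some s) (ht : kf (a - w) = some t) :
    q w a = some (t * s⁻¹) := by
  unfold q; rw [hs, ht]

theorem q_some {w a : ZMod 13} {g : S} (h : q w a = some g) :
    ∃ s t : S, kf a = some s ∧ kf (a - w) = some t ∧ t * s⁻¹ = g := by
  unfold q at h
  cases hs : kf a with
  | none => rw [hs] at h; simp at h
  | some s =>
    cases ht : kf (a - w) with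
    | none => rw [hs, ht] at h; simp at h
    | some t => rw [hs, ht] at h; exact ⟨s, t, rfl, rfl, by simpa using h⟩

theorem out_out : ∀ w : ZMod 13, w ≠ 0 → ∀ g : S, ∃ a : ZMod 13, q w a = some g := by
  decide +kernel

theorem out_out_unique : ∀ w : ZMod 13, w ≠ 0 → ∀ a b : ZMod 13,
    q w a ≠ none → q w a = q w b → a = b := by
  decide +kernel

open Multiplicative in
theorem meet : ∀ l₁ l₂ : Ln, l₁ ≠ l₂ → ∃ p : Pt, inc p l₁ ∧ inc p l₂ := by
  have key : ∀ (z : Z) (c : H), ∃ p : Pt, inc p (.base z) ∧ inc p (.out c) := by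
    intro z c
    cases hk : kf (toAdd z - toAdd c.1) with
    | none => exact ⟨.base c.1, hk, rfl⟩
    | some s => exact ⟨.out (z, c.2 * s), rfl, by simp [inc, hk]⟩
  intro l₁ l₂ h
  rcases l₁ with z | c <;> rcases l₂ with z' | c'
  · have hz : toAdd z ≠ toAdd z' := fun e => h (by rw [toAdd.injective e])
    obtain ⟨u, h1, h2⟩ := base_base _ _ hz
    exact ⟨.base (ofAdd u), h1, h2⟩
  · exact key z c'
  · obtain ⟨p, h1, h2⟩ := key z' c
    exact ⟨p, h2, h1⟩
  · by_cases h1 : c.1 = c'.1
    · exact ⟨.base c.1, rfl, h1⟩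
    · have hw : toAdd c'.1 - toAdd c.1 ≠ 0 := fun e => h1 (toAdd.injective (sub_eq_zero.1 e)).symm
      obtain ⟨a, ha⟩ := out_out _ hw (c'.2⁻¹ * c.2)
      obtain ⟨s, t, hs, ht, hg⟩ := q_some ha
      refine ⟨.out (ofAdd (toAdd c.1 + a), c.2 * s), ?_, ?_⟩
      · simp [inc, hs]
      · have e1 : toAdd (ofAdd (toAdd c.1 + a)) - toAdd c'.1 = a - (toAdd c'.1 - toAdd c.1) := by
          simp only [toAdd_ofAdd]; ring
        have e2 : c'.2⁻¹ * (c.2 * s) = t := by
          rw [← mul_assoc, ← hg]; group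
        simp only [inc]
        rw [e1, ht, e2]

open Multiplicative in
theorem meet_unique : ∀ l₁ l₂ : Ln, l₁ ≠ l₂ → ∀ p₁ p₂ : Pt, inc p₁ l₁ → inc p₂ l₁ → inc p₁ l₂ →
    inc p₂ l₂ → p₁ = p₂ := by
  have key : ∀ (z : Z) (c : H) (p₁ p₂ : Pt), inc p₁ (.base z) → inc p₂ (.base z) →
      inc p₁ (.out c) → inc p₂ (.out c) → p₁ = p₂ := by
    intro z c p₁ p₂ h1 h2 h3 h4
    rcases p₁ with u | x <;> rcases p₂ with u' | x' <;> simp only [inc] at h1 h2 h3 h4
    · rw [h3, h4]
    · exfalso
      subst h3 h2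
      rw [h1] at h4
      simp at h4
    · exfalso
      subst h1 h4
      rw [h2] at h3
      simp at h3
    · have e1 : x.1 = x'.1 := h1.trans h2.symm
      rw [e1, h4] at h3
      have e2 : x'.2 = x.2 := by simpa using h3
      rw [Prod.ext e1 e2.symm]
  intro l₁ l₂ h p₁ p₂ h1 h2 h3 h4
  rcases l₁ with z | c <;> rcases l₂ with z' | c'
  · have hz : toAdd z ≠ toAdd z' := fun e => h (by rw [toAdd.injective e])
    rcases p₁ with u | x <;> rcases p₂ with u' | x' <;> simp only [inc] at h1 h2 h3 h4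
    · have := base_base_unique _ _ hz _ _ h1 h3 h2 h4
      rw [toAdd.injective this]
    · exact absurd (congrArg toAdd (h2.symm.trans h4)) hz
    · exact absurd (congrArg toAdd (h1.symm.trans h3)) hz
    · exact absurd (congrArg toAdd (h1.symm.trans h3)) hz
  · exact key z c' p₁ p₂ h1 h2 h3 h4
  · exact key z' c p₁ p₂ h3 h4 h1 h2
  · rcases p₁ with u | x <;> rcases p₂ with u' | x' <;> simp only [inc] at h1 h2 h3 h4
    · rw [h1, h2]
    · exfalso
      have e : c.1 = c'.1 := h1.symm.trans h3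
      rw [e] at h2
      rw [h2] at h4
      have e2 : c.2 = c'.2 := by simpa using h4
      exact h (by rw [Prod.ext e e2])
    · exfalso
      have e : c.1 = c'.1 := h2.symm.trans h4
      rw [e] at h1
      rw [h1] at h3
      have e2 : c.2 = c'.2 := by simpa using h3
      exact h (by rw [Prod.ext e e2])
    · by_cases hc : c.1 = c'.1
      · exfalso
        rw [hc] at h1
        rw [h1] at h3
        have e2 : c.2 = c'.2 := by simpa using h3
        exact h (by rw [Prod.ext hc e2])
      · have hw : toAdd c'.1 - toAdd c.1 ≠ 0 := fun e => hc (toAdd.injective (sub_eq_zero.1 e)).symm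
        have e1 : toAdd x.1 - toAdd c'.1 =
            (toAdd x.1 - toAdd c.1) - (toAdd c'.1 - toAdd c.1) := by ring
        have e2 : toAdd x'.1 - toAdd c'.1 =
            (toAdd x'.1 - toAdd c.1) - (toAdd c'.1 - toAdd c.1) := by ring
        rw [e1] at h3
        rw [e2] at h4
        have q1 := q_eq h1 h3
        have q2 := q_eq h2 h4
        have g1 : c'.2⁻¹ * x.2 * (c.2⁻¹ * x.2)⁻¹ = c'.2⁻¹ * c.2 := by group
        have g2 : c'.2⁻¹ * x'.2 * (c.2⁻¹ * x'.2)⁻¹ = c'.2⁻¹ * c.2 := by group
        rw [g1] at q1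
        rw [g2] at q2
        have ha := out_out_unique _ hw _ _ (by rw [q1]; simp) (q1.trans q2.symm)
        have hx : x.1 = x'.1 := toAdd.injective (sub_left_injective ha)
        rw [ha, h2] at h1
        have e3 : x'.2 = x.2 := by simpa using h1
        rw [Prod.ext hx e3.symm]

theorem mem_iff (p : Pt) (l : Ln) : p ∈ l ↔ inc p l := Iff.rfl

open Multiplicative in
noncomputable instance hasPoints : Configuration.HasPoints Pt Ln where
  exists_point := by
    rintro (z | c)
    · exact ⟨.out (z * ofAdd 1, 1), by simp [mem_iff, inc]; decide⟩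
    · exact ⟨.base (c.1 * ofAdd 1), by simp [mem_iff, inc]; decide⟩
  exists_line := by
    rintro (u | x)
    · exact ⟨.out (u * ofAdd 1, 1), by simp [mem_iff, inc]; decide⟩
    · exact ⟨.base (x.1 * ofAdd 1), by simp [mem_iff, inc]; decide⟩
  eq_or_eq := by
    intro p₁ p₂ l₁ l₂ h1 h2 h3 h4
    by_cases h : l₁ = l₂
    · exact Or.inr h
    · exact Or.inl (meet_unique l₁ l₂ h p₁ p₂ h1 h2 h3 h4)
  mkPoint := fun {l₁ l₂} h => Classical.choose (meet l₁ l₂ h)
  mkPoint_ax := fun {l₁ l₂} h => Classical.choose_spec (meet l₁ l₂ h)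

open Multiplicative in
noncomputable instance plane : Configuration.ProjectivePlane Pt Ln :=
  { hasPoints, Configuration.HasPoints.hasLines (card_Pt.trans card_Ln.symm) with
    exists_config := by
      -- p₁ ∉ l₂, p₁ ∉ l₃, p₂ ∉ l₁, p₂ ∈ l₂, p₂ ∈ l₃, p₃ ∉ l₁, p₃ ∈ l₂, p₃ ∉ l₃
      refine ⟨.out (ofAdd 1, 1), .out (ofAdd 0, 1), .base (ofAdd 0), .out (ofAdd 1, 1),
        .base (ofAdd 0), .out (ofAdd 11, 1), ?_⟩
      simp only [mem_iff, inc]
      decide +kernel }

theorem order_eq : Configuration.ProjectivePlane.order Pt Ln = 9 := by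
  have h := Configuration.ProjectivePlane.card_points Pt Ln
  rw [card_Pt] at h
  nlinarith

/-- The action on points. -/
def actP : H →* Equiv.Perm Pt where
  toFun h :=
    { toFun := fun p => match p with
        | .base u => .base (h.1 * u)
        | .out x => .out (h * x)
      invFun := fun p => match p with
        | .base u => .base (h.1⁻¹ * u)
        | .out x => .out (h⁻¹ * x)
      left_inv := by rintro (u | x) <;> simp
      right_inv := by rintro (u | x) <;> simp }
  map_one' := by ext (u | x) <;> simp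
  map_mul' := by intro a b; ext (u | x) <;> simp [mul_assoc]

/-- The action on lines. -/
def actL : H →* Equiv.Perm Ln where
  toFun h :=
    { toFun := fun p => match p with
        | .base u => .base (h.1 * u)
        | .out x => .out (h * x)
      invFun := fun p => match p with
        | .base u => .base (h.1⁻¹ * u)
        | .out x => .out (h⁻¹ * x)
      left_inv := by rintro (u | x) <;> simp
      right_inv := by rintro (u | x) <;> simp }
  map_one' := by ext (u | x) <;> simp
  map_mul' := by intro a b; ext (u | x) <;> simp [mul_assoc]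

@[simp] theorem actP_base (h : H) (u : Z) : actP h (.base u) = .base (h.1 * u) := rfl
@[simp] theorem actP_out (h : H) (x : H) : actP h (.out x) = .out (h * x) := rfl
@[simp] theorem actL_base (h : H) (u : Z) : actL h (.base u) = .base (h.1 * u) := rfl
@[simp] theorem actL_out (h : H) (x : H) : actL h (.out x) = .out (h * x) := rfl

theorem inc_act (h : H) (p : Pt) (l : Ln) : inc p l ↔ inc (actP h p) (actL h l) := by
  rcases p with u | x <;> rcases l with z | c
  · simp only [actP_base, actL_base, inc, toAdd_mul, add_sub_add_left_eq_sub]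
  · simp [inc]
  · simp [inc]
  · simp only [actP_out, actL_out, inc, Prod.fst_mul, Prod.snd_mul, toAdd_mul,
      add_sub_add_left_eq_sub, mul_inv_rev]
    have : c.2⁻¹ * h.2⁻¹ * (h.2 * x.2) = c.2⁻¹ * x.2 := by group
    rw [this]

/-- The group. -/
def Γ : Subgroup (Equiv.Perm Pt × Equiv.Perm Ln) := (actP.prod actL).range

theorem mem_Γ {g : Equiv.Perm Pt × Equiv.Perm Ln} : g ∈ Γ ↔ ∃ h : H, (actP h, actL h) = g :=
  Iff.rfl

theorem act_injective : Function.Injective (actP.prod actL) := by
  intro a b hab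
  have h1 : actP a = actP b := congrArg Prod.fst hab
  have h2 : actP a (.out 1) = actP b (.out 1) := by rw [h1]
  simpa using h2

theorem card_Γ : Nat.card Γ = 78 := by
  have := Nat.card_congr (MonoidHom.ofInjective act_injective).toEquiv
  rw [Γ, ← this, Nat.card_eq_fintype_card]
  rfl

/-- There is a finite projective plane of square order n=k², n≠4, with a quasiregular collineation group of order n²−√n (>(n²+n+1)/2) having exactly two point orbits, two line orbits, and no fixed points or lines. -/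
theorem result :
    ∃ (P L : Type) (_ : Finite P) (_ : Finite L) (_ : Membership P L)
      (_ : Configuration.ProjectivePlane P L)
      (Γ : Subgroup (Equiv.Perm P × Equiv.Perm L)) (k : ℕ),
      Configuration.ProjectivePlane.order P L = k ^ 2 ∧
      k ^ 2 ≠ 4 ∧
      (∀ g ∈ Γ, ∀ p : P, ∀ l : L, p ∈ l ↔ g.1 p ∈ g.2 l) ∧
      (∀ g ∈ Γ, ∀ p : P, g.1 p = p → ∀ h ∈ Γ, g.1 (h.1 p) = h.1 p) ∧
      (∀ g ∈ Γ, ∀ l : L, g.2 l = l → ∀ h ∈ Γ, g.2 (h.2 l) = h.2 l) ∧
      Nat.card Γ = k ^ 4 - k ∧
      2 * Nat.card Γ > k ^ 4 + k ^ 2 + 1 ∧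
      (∃ p q : P, (¬ ∃ g ∈ Γ, g.1 p = q) ∧
        ∀ r : P, (∃ g ∈ Γ, g.1 p = r) ∨ (∃ g ∈ Γ, g.1 q = r)) ∧
      (∃ l m : L, (¬ ∃ g ∈ Γ, g.2 l = m) ∧
        ∀ r : L, (∃ g ∈ Γ, g.2 l = r) ∨ (∃ g ∈ Γ, g.2 m = r)) ∧
      (∀ p : P, ∃ g ∈ Γ, g.1 p ≠ p) ∧
      (∀ l : L, ∃ g ∈ Γ, g.2 l ≠ l) := by
  refine ⟨Pt, Ln, inferInstance, inferInstance, inferInstance, plane, Γ, 3, order_eq, by norm_num,
    ?_, ?_, ?_, by rw [card_Γ]; rfl, by rw [card_Γ]; norm_num, ?_, ?_, ?_, ?_⟩
  · rintro _ ⟨h, rfl⟩ p l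
    exact inc_act h p l
  · rintro _ ⟨h, rfl⟩ p hp _ ⟨k, rfl⟩
    rcases p with u | x
    · have e : h.1 = 1 := by simpa using hp
      simp [e]
    · have e : h = 1 := by simpa using hp
      simp [e]
  · rintro _ ⟨h, rfl⟩ p hp _ ⟨k, rfl⟩
    rcases p with u | x
    · have e : h.1 = 1 := by simpa using hp
      simp [e]
    · have e : h = 1 := by simpa using hp
      simp [e]
  · refine ⟨.base 1, .out 1, ?_, ?_⟩
    · rintro ⟨_, ⟨h, rfl⟩, hh⟩
      simp at hh
    · rintro (u | x)
      · exact Or.inl ⟨_, ⟨(u, 1), rfl⟩, by simp⟩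
      · exact Or.inr ⟨_, ⟨x, rfl⟩, by simp⟩
  · refine ⟨.base 1, .out 1, ?_, ?_⟩
    · rintro ⟨_, ⟨h, rfl⟩, hh⟩
      simp at hh
    · rintro (u | x)
      · exact Or.inl ⟨_, ⟨(u, 1), rfl⟩, by simp⟩
      · exact Or.inr ⟨_, ⟨x, rfl⟩, by simp⟩
  · have hne : (Multiplicative.ofAdd (1 : ZMod 13)) ≠ 1 := by decide
    rintro (u | x)
    · exact ⟨_, ⟨(Multiplicative.ofAdd 1, 1), rfl⟩, by simpa using hne⟩
    · exact ⟨_, ⟨(Multiplicative.ofAdd 1, 1), rfl⟩, by simpa using hne⟩
  · have hne : (Multiplicative.ofAdd (1 : ZMod 13)) ≠ 1 := by decide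
    rintro (u | x)
    · exact ⟨_, ⟨(Multiplicative.ofAdd 1, 1), rfl⟩, by simpa using hne⟩
    · exact ⟨_, ⟨(Multiplicative.ofAdd 1, 1), rfl⟩, by simpa using hne⟩

end Pool.Agent.S08599
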