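import Pool.Statements.S08639
-- import your own Pool.Agent.* helpers here

set_option autoImplicit false
open Pool Pool.MP_4cf4e3_co

namespace Pool.Agent.S08639

open Filter

attribute [local instance] Ultrafilter.add Ultrafilter.addSemigroup

/-- There is an additively idempotent ultrafilter on the natural numbers which
concentrates on even numbers and is not principal. -/
theorem exists_even_idempotent : ∃ U : Ultrafilter ℕ, U + U = U ∧
    (∀ᶠ m in (U : Filter ℕ), Even m) ∧ ∀ N : ℕ, ∀ᶠ m in (U : Filter ℕ), N < m := by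
  obtain ⟨U, hU, hFS⟩ := Hindman.exists_idempotent_ultrafilter_le_FS (Stream'.const 2 : Stream' ℕ)
  have key : ∀ (a : Stream' ℕ) (m : ℕ), m ∈ Hindman.FS a → (∀ n, a.get n = 2) →
      Even m ∧ 0 < m := by
    intro a m h
    induction h with
    | head' a =>
      intro h2
      have : a.head = 2 := h2 0
      rw [this]; exact ⟨even_two, by norm_num⟩
    | tail' a m h ih =>
      intro h2
      exact ih (fun n => h2 (n + 1))
    | cons' a m h ih =>
      intro h2
      have h3 : a.head = 2 := h2 0
      obtain ⟨h4, h5⟩ := ih (fun n => h2 (n + 1))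
      rw [h3]
      exact ⟨even_two.add h4, by omega⟩
  have hev : ∀ᶠ m in (U : Filter ℕ), Even m ∧ 0 < m := by
    filter_upwards [hFS] with m hm
    exact key _ m hm (fun n => rfl)
  refine ⟨U, hU, hev.mono (fun m h => h.1), ?_⟩
  intro N
  by_contra hN
  rw [← Ultrafilter.frequently_iff_eventually, not_frequently] at hN
  have hfin : {m : ℕ | m ≤ N} ∈ U := by
    filter_upwards [hN] with m hm
    exact not_lt.mp hm
  obtain ⟨x, hx, hUx⟩ := Ultrafilter.eq_pure_of_finite_mem (Set.finite_le_nat N) hfin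
  subst hUx
  have h1 : ∀ᶠ m in ((pure x : Ultrafilter ℕ) : Filter ℕ), m = x := by
    simp
  have h2 := h1
  rw [← hU, Ultrafilter.eventually_add] at h2
  have h3 : x + x = x := by simpa using h2
  have h4 : Even x ∧ 0 < x := by simpa using hev
  omega

/-- For every colouring of the natural numbers with finitely many colours, there is a strictly increasing sequence a and one colour such that for all n<m, both a_n+a_m and a_m−a_n have that colour. -/
theorem result :
    ∀ (k : ℕ) (c : ℕ → Fin k), ∃ a : ℕ → ℕ, StrictMono a ∧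
      ∃ i : Fin k, ∀ n m : ℕ, n < m → c (a n + a m) = i ∧ c (a m - a n) = i := by
  intro k c
  obtain ⟨U, hU, hev, hlarge⟩ := exists_even_idempotent
  -- every finite colouring is constant on a `U`-large set
  have hcol : ∀ f : ℕ → Fin k, ∃ i : Fin k, ∀ᶠ z in (U : Filter ℕ), f z = i := by
    intro f
    have h1 : ∀ᶠ z in (U : Filter ℕ), ∃ i ∈ (Set.univ : Set (Fin k)), f z = i :=
      Eventually.of_forall (fun z => ⟨f z, trivial, rfl⟩)
    obtain ⟨i, -, hi⟩ := (Ultrafilter.eventually_exists_mem_iff Set.finite_univ).1 h1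
    exact ⟨i, hi⟩
  choose g hg using fun y : ℕ => hcol (fun z => c (z - y))
  obtain ⟨i, hi⟩ := hcol g
  have hB : ∀ᶠ y in (U : Filter ℕ), ∀ᶠ z in (U : Filter ℕ), c (z - y) = i := by
    filter_upwards [hi] with y hy
    filter_upwards [hg y] with z hz
    rw [hz, hy]
  -- choose the shift
  obtain ⟨x, hx1, hx2⟩ := (hB.and hev).exists
  obtain ⟨t, ht⟩ := hx2
  have hx3 : ∀ᶠ z in (U : Filter ℕ), ∀ᶠ z' in (U : Filter ℕ), c (z + z' - x) = i := by
    have := hx1
    rw [← hU, Ultrafilter.eventually_add] at this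
    exact this
  have hR : ∀ᶠ z in (U : Filter ℕ), x < z ∧ ∀ᶠ z' in (U : Filter ℕ),
      (c (z + z' - x) = i ∧ c (z' - z) = i ∧ z < z') := by
    filter_upwards [hx3, hB, hlarge x] with z h1 h2 h3
    refine ⟨h3, ?_⟩
    filter_upwards [h1, h2, hlarge z] with z' h4 h5 h6
    exact ⟨h4, h5, h6⟩
  obtain ⟨f, hf1, hf2⟩ := exists_seq_of_forall_finset_exists
    (fun z : ℕ => x < z ∧ ∀ᶠ z' in (U : Filter ℕ),
      (c (z + z' - x) = i ∧ c (z' - z) = i ∧ z < z'))
    (fun z z' : ℕ => c (z + z' - x) = i ∧ c (z' - z) = i ∧ z < z')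
    (by
      intro s hs
      have h1 : ∀ᶠ z' in (U : Filter ℕ), ∀ z ∈ s,
          (c (z + z' - x) = i ∧ c (z' - z) = i ∧ z < z') := by
        rw [eventually_all_finset]
        intro z hz
        exact (hs z hz).2
      obtain ⟨y, hy1, hy2⟩ := (hR.and h1).exists
      exact ⟨y, hy1, hy2⟩)
  refine ⟨fun n => f n - t, ?_, i, ?_⟩
  · intro n m hnm
    have h1 := (hf2 n m hnm).2.2
    have h2 := (hf1 n).1
    show f n - t < f m - t
    omega
  · intro n m hnm
    obtain ⟨h1, h2, h3⟩ := hf2 n m hnm
    have h4 := (hf1 n).1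
    have h5 := (hf1 m).1
    show c (f n - t + (f m - t)) = i ∧ c (f m - t - (f n - t)) = i
    have e1 : f n - t + (f m - t) = f n + f m - x := by omega
    have e2 : f m - t - (f n - t) = f m - f n := by omega
    rw [e1, e2]
    exact ⟨h1, h2⟩

end Pool.Agent.S08639
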