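import Pool.Statements.S08645
import Pool.Agent.H388R3.WBrouwer
import Pool.Agent.H388R3.WSpec

set_option autoImplicit false
open Pool Pool.MP_4d2320_co

namespace Pool.Agent.S08645

/-- For every symmetric nonnegative zero-diagonal real matrix and each k from 1 to n−1, the sum of the k largest Laplacian eigenvalues is at most the total edge weight plus the sum of the C(k+1,2) largest off-diagonal weights. -/
theorem result :
    ∀ (n : ℕ) (A : Matrix (Fin n) (Fin n) ℝ), A.IsSymm → (∀ i j, 0 ≤ A i j) → (∀ i, A i i = 0) →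
      ∀ (hL : (Matrix.diagonal (fun i => ∑ j, A i j) - A).IsHermitian),
      ∀ k : ℕ, 1 ≤ k → k ≤ n - 1 →
      ∀ s : Finset (Fin n), s.card = k →
        ∃ P : Finset (Fin n × Fin n), P.card = (k + 1).choose 2 ∧ (∀ p ∈ P, p.1 < p.2) ∧
          ∑ i ∈ s, hL.eigenvalues i ≤
            (∑ i, ∑ j, if i < j then A i j else 0) + ∑ p ∈ P, A p.1 p.2 := by
  intro n A hA h0 hd hL k hk1 hkn s hs
  classical

  set T := s.filter (fun a => hL.eigenvalues a ≠ 0) with hT
  have hTk : T.card ≤ k := by
    rw [← hs]; exact Finset.card_filter_le _ _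
  have hsum : ∑ i ∈ s, hL.eigenvalues i = ∑ i ∈ T, hL.eigenvalues i := by
    rw [hT, Finset.sum_filter_ne_zero]
  have hAs : ∀ i j, A i j = A j i := fun i j => by
    have := congrFun (congrFun hA j) i
    simpa [Matrix.transpose_apply] using this
  have hcol : ∀ j, ∑ i, (Matrix.diagonal (fun i => ∑ j, A i j) - A) i j = 0 := by
    intro j
    simp only [Matrix.sub_apply, Matrix.diagonal_apply, Finset.sum_sub_distrib]
    rw [Finset.sum_ite_eq' Finset.univ j]
    simp only [Finset.mem_univ, if_true]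
    rw [Finset.sum_congr rfl fun i _ => hAs i j]
    ring
  set P := Pool.H388R3.WB.pr hL T with hP
  have hPs : P.transpose = P := Pool.H388R3.WB.pr_symm hL T
  have hPi : P * P = P := Pool.H388R3.WB.pr_idem hL T
  have hPsym : ∀ a b, P a b = P b a := fun a b => by
    conv_lhs => rw [← hPs]
    rfl
  have hP1 : ∀ i, ∑ j, P i j = 0 := by
    intro i
    simp only [hP, Pool.H388R3.WB.pr, Matrix.of_apply]
    rw [Finset.sum_comm]
    apply Finset.sum_eq_zero
    intro a ha
    rw [← Finset.mul_sum, Pool.H388R3.WB.sum_zero hL hcol a (Finset.mem_filter.1 ha).2, mul_zero]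
  have htr : ∑ i, P i i = T.card := Pool.H388R3.WB.pr_trace hL T
  have hpos := Pool.H388R3.WB.pos_part P hPs hPi hP1
  rw [htr] at hpos
  set c : Fin n × Fin n → ℝ := fun p => P p.1 p.1 + P p.2 p.2 - 2 * P p.1 p.2 - 1 with hc
  set U : Finset (Fin n × Fin n) := Finset.univ.filter (fun p => p.1 < p.2) with hU
  -- general symmetrisation
  have hsym2 : ∀ g : Fin n → Fin n → ℝ, (∀ i j, g i j = g j i) → (∀ i, g i i = 0) →
      ∑ i, ∑ j, g i j = 2 * ∑ p ∈ U, g p.1 p.2 := by
    intro g hg hg0
    have e1 : ∑ p ∈ U, g p.1 p.2 = ∑ i, ∑ j, if i < j then g i j else 0 := by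
      rw [hU, Finset.sum_filter, ← Finset.univ_product_univ, Finset.sum_product]
    have e2 : ∑ i, ∑ j, g i j = (∑ i, ∑ j, if i < j then g i j else 0)
        + ∑ i, ∑ j, if j < i then g i j else 0 := by
      rw [← Finset.sum_add_distrib]
      apply Finset.sum_congr rfl; intro i _
      rw [← Finset.sum_add_distrib]
      apply Finset.sum_congr rfl; intro j _
      rcases lt_trichotomy i j with h | h | h
      · rw [if_pos h, if_neg (not_lt.2 h.le), add_zero]
      · subst h; simp [hg0]
      · rw [if_neg (not_lt.2 h.le), if_pos h, zero_add]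
    have e3 : (∑ i, ∑ j, if j < i then g i j else 0) = ∑ i, ∑ j, if i < j then g i j else 0 := by
      rw [Finset.sum_comm]
      apply Finset.sum_congr rfl; intro i _
      apply Finset.sum_congr rfl; intro j _
      rw [hg j i]
    rw [e2, e3, e1]; ring
  have hUc : U.card = n.choose 2 := by
    have h1 := hsym2 (fun i j => if i = j then 0 else 1)
      (fun i j => by simp [eq_comm]) (fun i => by simp)
    have h2 : ∑ p ∈ U, (if p.1 = p.2 then (0:ℝ) else 1) = U.card := by
      rw [Finset.sum_congr rfl (g := fun _ => (1:ℝ))]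
      · simp
      · intro p hp
        rw [if_neg (ne_of_lt (Finset.mem_filter.1 hp).2)]
    have h3 : ∑ i : Fin n, ∑ j : Fin n, (if i = j then (0:ℝ) else 1) = n * (n - 1) := by
      have : ∀ i : Fin n, ∑ j : Fin n, (if i = j then (0:ℝ) else 1) = n - 1 := by
        intro i
        have e : ∀ j : Fin n, (if i = j then (0:ℝ) else 1) = 1 - (if i = j then 1 else 0) := by
          intro j; split_ifs <;> norm_num
        rw [Finset.sum_congr rfl fun j _ => e j, Finset.sum_sub_distrib]
        simp
      rw [Finset.sum_congr rfl fun i _ => this i]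
      rw [Finset.sum_const, Finset.card_univ, Fintype.card_fin, nsmul_eq_mul]
    rw [h2, h3] at h1
    have h4 : (U.card : ℝ) = ((n.choose 2 : ℕ) : ℝ) := by
      rw [Nat.cast_choose_two]; linarith
    exact_mod_cast h4
  have hkU : (k + 1).choose 2 ≤ U.card := by
    rw [hUc]
    exact Nat.choose_le_choose 2 (by omega)
  have hc1 : ∀ e ∈ U, c e ≤ 1 := by
    intro e he
    have := Pool.H388R3.WB.t_le_two P hPs hPi e.1 e.2 (ne_of_lt (Finset.mem_filter.1 he).2)
    simp only [hc]; linarith
  have hcK : ∑ e ∈ U, max (c e) 0 ≤ (((k + 1).choose 2 : ℕ) : ℝ) := by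
    have h1 := hsym2 (fun i j => max (P i i + P j j - 2 * P i j - 1) 0)
      (fun i j => by
        show max (P i i + P j j - 2 * P i j - 1) 0 = max (P j j + P i i - 2 * P j i - 1) 0
        rw [hPsym j i]; congr 1; ring)
      (fun i => by
        show max (P i i + P i i - 2 * P i i - 1) 0 = 0
        have : P i i + P i i - 2 * P i i - 1 = -1 := by ring
        rw [this]; norm_num)
    have h2 : (T.card : ℝ) ≤ k := by exact_mod_cast hTk
    have h3 : (0:ℝ) ≤ T.card := Nat.cast_nonneg _
    rw [Nat.cast_choose_two]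
    push_cast
    have h4 : ∑ e ∈ U, max (c e) 0 = ∑ p ∈ U, max (P p.1 p.1 + P p.2 p.2 - 2 * P p.1 p.2 - 1) 0 := rfl
    rw [h4]
    nlinarith
  obtain ⟨Q, hQU, hQc, hQ⟩ := Pool.H388R3.WB.knap U (fun p => A p.1 p.2) c
    (fun p => h0 _ _) hc1 ((k + 1).choose 2) hkU hcK
  refine ⟨Q, hQc, fun p hp => (Finset.mem_filter.1 (hQU hp)).2, ?_⟩
  have hE : (∑ i, ∑ j, if i < j then A i j else 0) = ∑ p ∈ U, A p.1 p.2 := by
    rw [hU, Finset.sum_filter, ← Finset.univ_product_univ, Finset.sum_product]
  rw [hE, hsum, Pool.H388R3.WB.sum_eig hL T]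
  have hmain : ∑ i, ∑ j, (Matrix.diagonal (fun i => ∑ j, A i j) - A) i j * P i j
      = ∑ p ∈ U, A p.1 p.2 * (c p + 1) := by
    have e1 : ∑ i, ∑ j, (Matrix.diagonal (fun i => ∑ j, A i j) - A) i j * P i j
        = ∑ i, ∑ j, A i j * P i i - ∑ i, ∑ j, A i j * P i j := by
      rw [← Finset.sum_sub_distrib]
      apply Finset.sum_congr rfl; intro i _
      simp only [Matrix.sub_apply, Matrix.diagonal_apply, sub_mul, Finset.sum_sub_distrib,
        ite_mul, zero_mul, Finset.sum_ite_eq, Finset.mem_univ, if_true]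
      rw [Finset.sum_mul]
    have e2 : ∑ i, ∑ j, A i j * P i i = ∑ i, ∑ j, A i j * P j j := by
      rw [Finset.sum_comm]
      apply Finset.sum_congr rfl; intro i _
      apply Finset.sum_congr rfl; intro j _
      rw [hAs j i]
    have e3 := hsym2 (fun i j => A i j * (P i i + P j j - 2 * P i j))
      (fun i j => by
        show A i j * (P i i + P j j - 2 * P i j) = A j i * (P j j + P i i - 2 * P j i)
        rw [hAs j i, hPsym j i]; ring)
      (fun i => by
        show A i i * (P i i + P i i - 2 * P i i) = 0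
        rw [hd i, zero_mul])
    have e4 : ∑ i, ∑ j, A i j * (P i i + P j j - 2 * P i j)
        = ∑ i, ∑ j, A i j * P i i + ∑ i, ∑ j, A i j * P j j - 2 * ∑ i, ∑ j, A i j * P i j := by
      simp only [Finset.mul_sum, ← Finset.sum_add_distrib, ← Finset.sum_sub_distrib]
      apply Finset.sum_congr rfl; intro i _
      apply Finset.sum_congr rfl; intro j _
      ring
    have e5 : ∑ p ∈ U, A p.1 p.2 * (c p + 1)
        = ∑ p ∈ U, A p.1 p.2 * (P p.1 p.1 + P p.2 p.2 - 2 * P p.1 p.2) := by
      apply Finset.sum_congr rfl; intro p _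
      simp only [hc]; ring
    rw [e5, e1]
    rw [e4] at e3
    linarith
  rw [hmain]
  have : ∑ p ∈ U, A p.1 p.2 * (c p + 1) = ∑ p ∈ U, A p.1 p.2 + ∑ p ∈ U, A p.1 p.2 * c p := by
    rw [← Finset.sum_add_distrib]
    exact Finset.sum_congr rfl fun p _ => by ring
  rw [this]
  linarith

end Pool.Agent.S08645
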