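import Pool.Statements.S08686

set_option autoImplicit false
open Pool Pool.MP_4e7ec3_co

namespace Pool.Agent.S08686

/-- the grid of the eighteen points `i / 17` -/
noncomputable def G : Finset ℝ := (Finset.range 18).image (fun i : ℕ => (i : ℝ) / 17)

lemma mem_G {r : ℝ} : r ∈ G ↔ ∃ i : ℕ, i < 18 ∧ (i : ℝ) / 17 = r := by
  simp [G]

/-- the map: three blocks of six consecutive points, each mapped to its two middle points -/
noncomputable def S (p : ℝ) : ℝ :=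
  if p < 5 / 34 then 3 / 17 else if p < 11 / 34 then 2 / 17 else
  if p < 17 / 34 then 9 / 17 else if p < 23 / 34 then 8 / 17 else
  if p < 29 / 34 then 15 / 17 else 14 / 17

lemma S_mem (p : ℝ) : S p ∈ G := by
  unfold S
  rw [mem_G]
  split_ifs
  · exact ⟨3, by norm_num, by norm_num⟩
  · exact ⟨2, by norm_num, by norm_num⟩
  · exact ⟨9, by norm_num, by norm_num⟩
  · exact ⟨8, by norm_num, by norm_num⟩
  · exact ⟨15, by norm_num, by norm_num⟩
  · exact ⟨14, by norm_num, by norm_num⟩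

lemma S_far (p : ℝ) (hp : p ∈ G) : 1 / 18 < |p - S p| := by
  obtain ⟨i, hi, rfl⟩ := mem_G.1 hp
  unfold S
  interval_cases i <;> norm_num

/-- one step stays in the block of six points starting at `6 j / 17` -/
lemma step (j : ℕ) (hj : j < 3) (y z : ℝ) (hy1 : (6 * j : ℝ) / 17 ≤ y)
    (hy2 : y ≤ (6 * j + 5 : ℝ) / 17)
    (hz : z = S y ∨ (z ∈ G ∧ z < S y ∧ ∀ r ∈ G, r < S y → r ≤ z) ∨
      (z ∈ G ∧ S y < z ∧ ∀ r ∈ G, S y < r → z ≤ r)) :
    (6 * j : ℝ) / 17 ≤ z ∧ z ≤ (6 * j + 5 : ℝ) / 17 := by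
  have hS : (6 * j + 2 : ℝ) / 17 ≤ S y ∧ S y ≤ (6 * j + 3 : ℝ) / 17 := by
    unfold S
    interval_cases j <;> norm_num at hy1 hy2 ⊢ <;> split_ifs <;> constructor <;> linarith
  have hl : (6 * j : ℝ) / 17 ∈ G := mem_G.2 ⟨6 * j, by omega, by push_cast; ring⟩
  have hr : (6 * j + 5 : ℝ) / 17 ∈ G := mem_G.2 ⟨6 * j + 5, by omega, by push_cast; ring⟩
  rcases hz with h | ⟨-, h1, h2⟩ | ⟨-, h1, h2⟩
  · rw [h]; constructor <;> linarith [hS.1, hS.2]
  · refine ⟨h2 _ hl (by linarith [hS.1]), by linarith [hS.2]⟩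
  · refine ⟨by linarith [hS.1], h2 _ hr (by linarith [hS.2])⟩

/-- The negation of the preceding statement: There is a constant k such that for every finite F in [0,1] containing 0 and 1, every ε>0, and every T:F→F moving each point by more than ε, some p₀ in F reaches a point at distance at least 1/3 in at most k/ε steps, each step going to T(p) or a neighbour of T(p) in F. -/
theorem result :
    ¬ (∃ k : ℝ, ∀ (F : Finset ℝ) (ε : ℝ) (T : ℝ → ℝ),
      (∀ p ∈ F, 0 ≤ p ∧ p ≤ 1) → (0 : ℝ) ∈ F → (1 : ℝ) ∈ F → 0 < ε →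
      (∀ p ∈ F, T p ∈ F ∧ ε < |p - T p|) →
      ∃ p₀ ∈ F, ∃ n : ℕ, (n : ℝ) ≤ k / ε ∧
        ∃ x : ℕ → ℝ, x 0 = p₀ ∧
          (∀ i < n,
            x (i + 1) = T (x i) ∨
            (x (i + 1) ∈ F ∧ x (i + 1) < T (x i) ∧
              ∀ r ∈ F, r < T (x i) → r ≤ x (i + 1)) ∨
            (x (i + 1) ∈ F ∧ T (x i) < x (i + 1) ∧
              ∀ r ∈ F, T (x i) < r → x (i + 1) ≤ r)) ∧
          1 / 3 ≤ |x n - p₀|) := by
  rintro ⟨k, hk⟩
  obtain ⟨p₀, hp₀, n, -, x, hx0, hstep, hfar⟩ := hk G (1 / 18) S (by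
      intro p hp
      obtain ⟨i, hi, rfl⟩ := mem_G.1 hp
      constructor
      · positivity
      · rw [div_le_one (by norm_num)]
        have : i ≤ 17 := by omega
        exact_mod_cast this)
    (mem_G.2 ⟨0, by norm_num, by norm_num⟩) (mem_G.2 ⟨17, by norm_num, by norm_num⟩)
    (by norm_num) (fun p hp => ⟨S_mem p, S_far p hp⟩)
  obtain ⟨i, hi, rfl⟩ := mem_G.1 hp₀
  obtain ⟨j, hj, hj1, hj2⟩ : ∃ j : ℕ, j < 3 ∧ 6 * j ≤ i ∧ i ≤ 6 * j + 5 :=
    ⟨i / 6, by omega, by omega, by omega⟩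
  have hj1' : (6 * j : ℝ) ≤ i := by exact_mod_cast hj1
  have hj2' : (i : ℝ) ≤ 6 * j + 5 := by exact_mod_cast hj2
  have key : ∀ m : ℕ, m ≤ n → (6 * j : ℝ) / 17 ≤ x m ∧ x m ≤ (6 * j + 5 : ℝ) / 17 := by
    intro m
    induction m with
    | zero =>
      intro _
      rw [hx0]
      constructor <;> gcongr
    | succ m ih =>
      intro hm
      obtain ⟨h1, h2⟩ := ih (by omega)
      exact step j hj (x m) (x (m + 1)) h1 h2 (hstep m (by omega))
  obtain ⟨h1, h2⟩ := key n le_rfl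
  have h3 : |x n - (i : ℝ) / 17| ≤ 5 / 17 := by
    rw [abs_le]
    have e1 : (i : ℝ) / 17 ≤ (6 * j + 5 : ℝ) / 17 := by gcongr
    have e2 : (6 * j : ℝ) / 17 ≤ (i : ℝ) / 17 := by gcongr
    constructor <;> linarith
  linarith

end Pool.Agent.S08686
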