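import Pool.Statements.S08692

set_option autoImplicit false
open Pool Pool.MP_4ee71e_co

namespace Pool.Agent.S08692

/-- ternary sums with digits in `{-1,0,1}` vanish only if all the digits vanish -/
lemma digits_zero : ∀ (D : ℕ) (d : Fin D → ℤ), (∀ j, d j = -1 ∨ d j = 0 ∨ d j = 1) →
    ∑ j : Fin D, (3 : ℤ) ^ (j : ℕ) * d j = 0 → ∀ j, d j = 0 := by
  intro D
  induction D with
  | zero => intro d _ _ j; exact j.elim0
  | succ D ih =>
    intro d hd hs
    rw [Fin.sum_univ_succ] at hs
    simp only [Fin.val_zero, pow_zero, one_mul, Fin.val_succ] at hs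
    have h3 : ∑ j : Fin D, (3 : ℤ) ^ ((j : ℕ) + 1) * d j.succ
        = 3 * ∑ j : Fin D, (3 : ℤ) ^ (j : ℕ) * d j.succ := by
      rw [Finset.mul_sum]
      refine Finset.sum_congr rfl fun j _ => ?_
      ring
    rw [h3] at hs
    have h0 : d 0 = 0 := by
      rcases hd 0 with h | h | h <;> omega
    have hs' : ∑ j : Fin D, (3 : ℤ) ^ (j : ℕ) * d j.succ = 0 := by
      rw [h0] at hs; omega
    have := ih (fun j => d j.succ) (fun j => hd j.succ) hs'
    intro j
    refine Fin.cases h0 (fun j => this j) j

/-- the difference of two bits -/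
def bd (a b : Bool) : ℤ := (if a then 1 else 0) - (if b then 1 else 0)

lemma bd_cases (a b : Bool) : bd a b = -1 ∨ bd a b = 0 ∨ bd a b = 1 := by
  cases a <;> cases b <;> simp [bd]

lemma bd_eq_zero {a b : Bool} : bd a b = 0 ↔ a = b := by
  cases a <;> cases b <;> simp [bd]

/-- the placement of the cube in which direction `j` has length `3^j` and sign `s j` -/
def place (D : ℕ) (s : Fin D → ℤ) (x : Fin D → Bool) : ℤ :=
  ∑ j : Fin D, (3 : ℤ) ^ (j : ℕ) * (s j * (if x j then 1 else 0))

lemma place_sub (D : ℕ) (s : Fin D → ℤ) (x y : Fin D → Bool) :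
    place D s x - place D s y = ∑ j : Fin D, (3 : ℤ) ^ (j : ℕ) * (s j * bd (x j) (y j)) := by
  unfold place bd
  rw [← Finset.sum_sub_distrib]
  refine Finset.sum_congr rfl fun j _ => ?_
  ring

lemma place_inj (D : ℕ) (s : Fin D → ℤ) (hs : ∀ j, s j = 1 ∨ s j = -1) :
    Function.Injective (place D s) := by
  intro x y hxy
  have h := place_sub D s x y
  rw [hxy, sub_self] at h
  have h2 := digits_zero D (fun j => s j * bd (x j) (y j)) (by
    intro j
    rcases hs j with h | h <;> rcases bd_cases (x j) (y j) with h' | h' | h' <;>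
      simp [h, h']) h.symm
  funext j
  have h3 := h2 j
  simp only [mul_eq_zero] at h3
  rcases h3 with h3 | h3
  · rcases hs j with h | h <;> omega
  · exact bd_eq_zero.mp h3

/-- the sign vector with `-1` only in position `i` -/
def sgn (D : ℕ) (i : Fin D) : Fin D → ℤ := fun j => if j = i then -1 else 1

/-- the cube graph -/
def cube (D : ℕ) : SimpleGraph (Fin D → Bool) where
  Adj x y := ∃ i, x i ≠ y i ∧ ∀ j, j ≠ i → x j = y j
  symm := ⟨by
    rintro x y ⟨i, h1, h2⟩
    exact ⟨i, h1.symm, fun j hj => (h2 j hj).symm⟩⟩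
  loopless := ⟨by
    rintro x ⟨i, h1, _⟩
    exact h1 rfl⟩

lemma place_adj {D : ℕ} (i : Fin D) {x y : Fin D → Bool} (h : (cube D).Adj x y) :
    |place D (fun _ => 1) x - place D (fun _ => 1) y| =
      |place D (sgn D i) x - place D (sgn D i) y| := by
  obtain ⟨k, h1, h2⟩ := h
  rw [place_sub, place_sub]
  rw [Finset.sum_eq_single k (fun j _ hj => by rw [bd_eq_zero.mpr (h2 j hj)]; simp) (by simp),
    Finset.sum_eq_single k (fun j _ hj => by rw [bd_eq_zero.mpr (h2 j hj)]; simp) (by simp)]
  rw [abs_mul, abs_mul, abs_mul, abs_mul]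
  congr 2
  unfold sgn
  split_ifs <;> simp

/-- two vertices whose distances agree in all these placements differ in at most one bit -/
lemma close_of_abs {D : ℕ} (i : Fin D) {x y : Fin D → Bool}
    (h : |place D (fun _ => 1) x - place D (fun _ => 1) y| =
      |place D (sgn D i) x - place D (sgn D i) y|) (hi : x i ≠ y i) : ∀ j, j ≠ i → x j = y j := by
  rw [place_sub, place_sub] at h
  have e1 : ∑ j : Fin D, (3 : ℤ) ^ (j : ℕ) * ((fun _ => 1 : Fin D → ℤ) j * bd (x j) (y j)) =
      (3 : ℤ) ^ (i : ℕ) * bd (x i) (y i) +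
        ∑ j : Fin D, (3 : ℤ) ^ (j : ℕ) * (if j = i then 0 else bd (x j) (y j)) := by
    rw [← Finset.add_sum_erase _ _ (Finset.mem_univ i)]
    rw [← Finset.add_sum_erase (a := i) _ (fun j : Fin D => (3 : ℤ) ^ (j : ℕ) *
      (if j = i then 0 else bd (x j) (y j))) (Finset.mem_univ i)]
    simp only [one_mul, if_true, mul_zero, zero_add]
    congr 1
    refine Finset.sum_congr rfl fun j hj => ?_
    rw [if_neg (Finset.ne_of_mem_erase hj)]
  have e2 : ∑ j : Fin D, (3 : ℤ) ^ (j : ℕ) * (sgn D i j * bd (x j) (y j)) =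
      -((3 : ℤ) ^ (i : ℕ) * bd (x i) (y i)) +
        ∑ j : Fin D, (3 : ℤ) ^ (j : ℕ) * (if j = i then 0 else bd (x j) (y j)) := by
    rw [← Finset.add_sum_erase _ _ (Finset.mem_univ i)]
    rw [← Finset.add_sum_erase (a := i) _ (fun j : Fin D => (3 : ℤ) ^ (j : ℕ) *
      (if j = i then 0 else bd (x j) (y j))) (Finset.mem_univ i)]
    simp only [if_true, mul_zero, zero_add]
    congr 1
    · simp [sgn]
    · refine Finset.sum_congr rfl fun j hj => ?_
      rw [if_neg (Finset.ne_of_mem_erase hj)]
      simp [sgn, Finset.ne_of_mem_erase hj]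
  rw [e1, e2] at h
  set A := (3 : ℤ) ^ (i : ℕ) * bd (x i) (y i) with hA
  set B := ∑ j : Fin D, (3 : ℤ) ^ (j : ℕ) * (if j = i then 0 else bd (x j) (y j)) with hB
  have hA0 : A ≠ 0 := by
    rw [hA]
    refine mul_ne_zero (by positivity) ?_
    rw [Ne, bd_eq_zero]
    exact hi
  have hB0 : B = 0 := by
    rcases abs_eq_abs.mp h with h | h
    · exfalso; apply hA0; linarith
    · linarith
  have := digits_zero D (fun j => if j = i then 0 else bd (x j) (y j)) (by
    intro j
    by_cases hj : j = i
    · simp [hj]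
    · simp only [hj, if_false]; exact bd_cases _ _) hB0
  intro j hj
  have h3 := this j
  simp only [hj, if_false] at h3
  exact bd_eq_zero.mp h3

/-- three distinct vertices of the cube cannot be pairwise adjacent -/
lemma no_triangle {D : ℕ} {x y z : Fin D → Bool} (hxy : (cube D).Adj x y)
    (hyz : (cube D).Adj y z) (hxz : (cube D).Adj x z) : False := by
  obtain ⟨i, hi, hi'⟩ := hxy
  obtain ⟨j, hj, hj'⟩ := hyz
  obtain ⟨k, hk, hk'⟩ := hxz
  by_cases hij : i = j
  · subst hij
    have : ∀ l, x l = z l := by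
      intro l
      by_cases hl : l = i
      · subst hl
        revert hi hj
        cases x l <;> cases y l <;> cases z l <;> simp
      · rw [hi' l hl, hj' l hl]
    exact hk (this k)
  · -- `x` and `z` differ in both `i` and `j`
    have h1 : x i ≠ z i := by rw [← hj' i hij]; exact hi
    have h2 : x j ≠ z j := by rw [hi' j (Ne.symm hij)]; exact hj
    have h3 : i = k := by
      by_contra h
      exact h1 (hk' i h)
    have h4 : j = k := by
      by_contra h
      exact h2 (hk' j h)
    exact hij (h3.trans h4.symm)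

/-- flipping the bit `i` -/
def flip {D : ℕ} (x : Fin D → Bool) (i : Fin D) : Fin D → Bool := Function.update x i (!(x i))

lemma adj_flip {D : ℕ} (x : Fin D → Bool) (i : Fin D) : (cube D).Adj x (flip x i) := by
  refine ⟨i, ?_, fun j hj => ?_⟩
  · simp [flip]
  · simp [flip, hj]

lemma flip_inj {D : ℕ} (x : Fin D → Bool) : Function.Injective (flip x) := by
  intro i j hij
  by_contra hne
  have h := congrFun hij i
  simp [flip, hne] at h

open Classical in
lemma edges_cube (D : ℕ) : D * 2 ^ D ≤ 2 * (cube D).edgeSet.ncard := by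
  have h1 := (cube D).sum_degrees_eq_twice_card_edges
  have h2 : (cube D).edgeSet.ncard = (cube D).edgeFinset.card := by
    rw [← SimpleGraph.coe_edgeFinset, Set.ncard_coe_finset]
  rw [h2, ← h1]
  have h3 : ∀ x : Fin D → Bool, D ≤ (cube D).degree x := by
    intro x
    rw [← SimpleGraph.card_neighborFinset_eq_degree]
    calc D = (Finset.univ.image (flip x)).card := by
            rw [Finset.card_image_of_injective _ (flip_inj x)]; simp
      _ ≤ _ := by
        refine Finset.card_le_card ?_
        intro y hy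
        simp only [Finset.mem_image, Finset.mem_univ, true_and] at hy
        obtain ⟨i, rfl⟩ := hy
        rw [SimpleGraph.mem_neighborFinset]
        exact adj_flip x i
  calc D * 2 ^ D = ∑ _x : Fin D → Bool, D := by simp [mul_comm]
    _ ≤ _ := Finset.sum_le_sum fun x _ => h3 x

/-- The negation of the preceding statement: There is c>0 such that every finite simple graph with at least one edge has a subgraph, globally rigid on the line for injective placements, with at least c times edges divided by vertices many vertices. -/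
theorem result :
    ¬ (∃ c : ℝ, 0 < c ∧
      ∀ (n : ℕ) (G : SimpleGraph (Fin n)), G.edgeSet.Nonempty →
        ∃ H : G.Subgraph,
          (∀ f g : Fin n → ℝ, Set.InjOn f H.verts → Set.InjOn g H.verts →
            (∀ u v : Fin n, H.Adj u v → |f u - f v| = |g u - g v|) →
            ∀ u ∈ H.verts, ∀ v ∈ H.verts, |f u - f v| = |g u - g v|) ∧
          c * (G.edgeSet.ncard : ℝ) / (n : ℝ) ≤ (H.verts.ncard : ℝ)) := by
  rintro ⟨c, hc, hall⟩
  obtain ⟨D, hD⟩ := exists_nat_gt (4 / c)
  have hDpos : 0 < D := by
    have : (0 : ℝ) < D := lt_trans (by positivity) hD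
    exact_mod_cast this
  have hcard : Fintype.card (Fin D → Bool) = 2 ^ D := by simp
  let e : (Fin D → Bool) ≃ Fin (2 ^ D) := Fintype.equivFinOfCardEq hcard
  let G : SimpleGraph (Fin (2 ^ D)) := (cube D).map e.toEmbedding
  have hiso : (cube D) ≃g G := SimpleGraph.Iso.map e (cube D)
  have hGadj : ∀ u v, G.Adj u v ↔ (cube D).Adj (e.symm u) (e.symm v) := by
    intro u v
    constructor
    · rintro h
      rw [SimpleGraph.map_adj] at h
      obtain ⟨a, b, hab, rfl, rfl⟩ := h
      simpa using hab
    · intro h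
      rw [SimpleGraph.map_adj]
      exact ⟨_, _, h, by simp, by simp⟩
  have hedge : G.edgeSet.ncard = (cube D).edgeSet.ncard := by
    have := Nat.card_congr hiso.mapEdgeSet
    rw [← Nat.card_coe_set_eq, ← Nat.card_coe_set_eq]
    exact this.symm
  have hne : G.edgeSet.Nonempty := by
    refine ⟨s(e (fun _ => false), e (flip (fun _ => false) ⟨0, hDpos⟩)), ?_⟩
    rw [SimpleGraph.mem_edgeSet, hGadj]
    simpa using adj_flip (fun _ => false) (⟨0, hDpos⟩ : Fin D)
  obtain ⟨H, hH, hle⟩ := hall (2 ^ D) G hne
  -- any two vertices of `H` are equal or adjacent in the cube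
  have key : ∀ u ∈ H.verts, ∀ v ∈ H.verts, u ≠ v → (cube D).Adj (e.symm u) (e.symm v) := by
    intro u hu v hv huv
    have hne : e.symm u ≠ e.symm v := fun h => huv (e.symm.injective h)
    obtain ⟨i, hi⟩ := Function.ne_iff.mp hne
    refine ⟨i, hi, ?_⟩
    apply close_of_abs i _ hi
    have h1 := hH (fun w => (place D (fun _ => 1) (e.symm w) : ℝ))
      (fun w => (place D (sgn D i) (e.symm w) : ℝ)) ?_ ?_ ?_ u hu v hv
    · have h2 : ((|place D (fun _ => 1) (e.symm u) - place D (fun _ => 1) (e.symm v)| : ℤ) : ℝ) =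
        ((|place D (sgn D i) (e.symm u) - place D (sgn D i) (e.symm v)| : ℤ) : ℝ) := by
        push_cast
        exact h1
      exact_mod_cast h2
    · intro a _ b _ hab
      have : place D (fun _ => 1) (e.symm a) = place D (fun _ => 1) (e.symm b) := by
        simpa using hab
      exact e.symm.injective (place_inj D _ (fun _ => Or.inl rfl) this)
    · intro a _ b _ hab
      have : place D (sgn D i) (e.symm a) = place D (sgn D i) (e.symm b) := by
        simpa using hab
      refine e.symm.injective (place_inj D _ (fun j => ?_) this)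
      unfold sgn
      split_ifs
      · right; rfl
      · left; rfl
    · intro a b hab
      have h3 := place_adj i ((hGadj a b).mp (H.adj_sub hab))
      have h4 : ((|place D (fun _ => 1) (e.symm a) - place D (fun _ => 1) (e.symm b)| : ℤ) : ℝ) =
        ((|place D (sgn D i) (e.symm a) - place D (sgn D i) (e.symm b)| : ℤ) : ℝ) := by
        rw [h3]
      push_cast at h4
      exact h4
  have hcardH : H.verts.ncard ≤ 2 := by
    by_contra hcon
    push Not at hcon
    obtain ⟨a, b, x, ha, hb, hx, hab, hax, hbx⟩ :=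
      (Set.two_lt_ncard_iff (Set.toFinite _)).mp hcon
    exact no_triangle (key a ha b hb hab) (key b hb x hx hbx) (key a ha x hx hax)
  have hE := edges_cube D
  rw [← hedge] at hE
  have hE' : (D : ℝ) * 2 ^ D ≤ 2 * (G.edgeSet.ncard : ℝ) := by exact_mod_cast hE
  have h2 : (H.verts.ncard : ℝ) ≤ 2 := by exact_mod_cast hcardH
  have h3 : (2 : ℝ) < c * (G.edgeSet.ncard : ℝ) / ((2 ^ D : ℕ) : ℝ) := by
    rw [lt_div_iff₀ (by positivity)]
    push_cast
    have h4 : 4 < c * D := by
      rw [div_lt_iff₀ hc] at hD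
      linarith
    have h5 : (0 : ℝ) < 2 ^ D := by positivity
    nlinarith [mul_le_mul_of_nonneg_left hE' hc.le]
  linarith

end Pool.Agent.S08692
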