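import Pool.Statements.S08761
import Pool.Agent.H789R3.Tr

set_option autoImplicit false
open Pool Pool.MP_52d521_co

namespace Pool.Agent.S08761

/-- For a Laman (isostatic) graph in the complex plane, any realisation q with finitely many equivalent realisations up to congruence has at most as many such classes as a generic realisation. -/
theorem result :
    ∀ (V : Type) [Fintype V] (G : SimpleGraph V),
      (G.edgeSet.ncard + 3 = 2 * Fintype.card V ∧
        ∀ S : Finset V, 2 ≤ S.card →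
          {e ∈ G.edgeSet | ∀ v ∈ e, v ∈ S}.ncard + 3 ≤ 2 * S.card) →
      ∀ p q : V → Fin 2 → ℂ,
        AlgebraicIndependent ℚ (fun x : V × Fin 2 => p x.1 x.2) →
        {K : Set (V → Fin 2 → ℂ) | ∃ r : V → Fin 2 → ℂ,
            (∀ u v, G.Adj u v →
              ∑ k : Fin 2, (r u k - r v k) ^ 2 = ∑ k : Fin 2, (q u k - q v k) ^ 2) ∧
            K = {s | ∀ u v,
              ∑ k : Fin 2, (s u k - s v k) ^ 2 = ∑ k : Fin 2, (r u k - r v k) ^ 2}}.Finite →
        {K : Set (V → Fin 2 → ℂ) | ∃ r : V → Fin 2 → ℂ,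
            (∀ u v, G.Adj u v →
              ∑ k : Fin 2, (r u k - r v k) ^ 2 = ∑ k : Fin 2, (q u k - q v k) ^ 2) ∧
            K = {s | ∀ u v,
              ∑ k : Fin 2, (s u k - s v k) ^ 2 = ∑ k : Fin 2, (r u k - r v k) ^ 2}}.encard ≤
        {K : Set (V → Fin 2 → ℂ) | ∃ r : V → Fin 2 → ℂ,
            (∀ u v, G.Adj u v →
              ∑ k : Fin 2, (r u k - r v k) ^ 2 = ∑ k : Fin 2, (p u k - p v k) ^ 2) ∧
            K = {s | ∀ u v,
              ∑ k : Fin 2, (s u k - s v k) ^ 2 = ∑ k : Fin 2, (r u k - r v k) ^ 2}}.encard := by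
  intro V _ G hG p q hp hfin
  classical
  obtain ⟨hcard, hsub⟩ := hG
  haveI : Finite G.edgeSet := inferInstance
  -- two distinct vertices
  have hV : 2 ≤ Fintype.card V := by omega
  obtain ⟨o, w, how⟩ := Fintype.exists_pair_of_one_lt_card (by omega : 1 < Fintype.card V)
  -- classes as images of homs
  have hcl : ∀ q : V → Fin 2 → ℂ,
      {K : Set (V → Fin 2 → ℂ) | ∃ r : V → Fin 2 → ℂ,
            (∀ u v, G.Adj u v →
              ∑ k : Fin 2, (r u k - r v k) ^ 2 = ∑ k : Fin 2, (q u k - q v k) ^ 2) ∧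
            K = {s | ∀ u v,
              ∑ k : Fin 2, (s u k - s v k) ^ 2 = ∑ k : Fin 2, (r u k - r v k) ^ 2}} =
      (fun φ : H789R3.RR V →+* ℂ => {s : V → Fin 2 → ℂ | ∀ u v,
          ∑ k : Fin 2, (s u k - s v k) ^ 2 = φ (H789R3.dR u v)}) ''
        {φ | φ.comp (algebraMap (MvPolynomial G.edgeSet ℚ) (H789R3.RR V)) =
          (H789R3.ev q).comp (algebraMap (MvPolynomial G.edgeSet ℚ) (H789R3.RR V))} := by
    intro q
    ext K
    constructor
    · rintro ⟨r, hr, rfl⟩
      refine ⟨H789R3.ev r, ?_, ?_⟩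
      · refine (H789R3.comp_eq_iff G _ _).2 ?_
        intro u v huv
        rw [H789R3.ev_dR, H789R3.ev_dR]
        exact hr u v huv
      · simp only [H789R3.ev_dR]
    · rintro ⟨φ, hφ, rfl⟩
      obtain ⟨r, rfl⟩ := H789R3.exists_real φ
      have hφ' := (H789R3.comp_eq_iff G _ _).1 hφ
      refine ⟨r, ?_, ?_⟩
      · intro u v huv
        have := hφ' u v huv
        rw [H789R3.ev_dR, H789R3.ev_dR] at this
        exact this
      · simp only [H789R3.ev_dR]
  have hinj : Function.Injective (fun φ : H789R3.RR V →+* ℂ => {s : V → Fin 2 → ℂ | ∀ u v,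
          ∑ k : Fin 2, (s u k - s v k) ^ 2 = φ (H789R3.dR u v)}) := by
    intro φ ψ h
    obtain ⟨r, rfl⟩ := H789R3.exists_real φ
    apply H789R3.hom_ext
    intro u v
    have hr : r ∈ {s : V → Fin 2 → ℂ | ∀ u v,
          ∑ k : Fin 2, (s u k - s v k) ^ 2 = (H789R3.ev r) (H789R3.dR u v)} := by
      intro u v
      rw [H789R3.ev_dR]
    have h' : {s : V → Fin 2 → ℂ | ∀ u v,
          ∑ k : Fin 2, (s u k - s v k) ^ 2 = (H789R3.ev r) (H789R3.dR u v)} =
        {s : V → Fin 2 → ℂ | ∀ u v,
          ∑ k : Fin 2, (s u k - s v k) ^ 2 = ψ (H789R3.dR u v)} := h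
    rw [h'] at hr
    rw [H789R3.ev_dR]
    exact hr u v
  rw [hcl q] at hfin
  rw [hcl q, hcl p, hinj.encard_image, hinj.encard_image]
  have hfin' := (Set.finite_image_iff hinj.injOn).1 hfin
  haveI : Algebra.FiniteType ℚ (H789R3.RR V) := by
    have : (H789R3.RR V).FG :=
      Subalgebra.fg_def.2 ⟨_, Set.finite_range _, rfl⟩
    exact (Subalgebra.fg_iff_finiteType _).1 this
  refine H789R3.encard_le ?_ _ _ ?_ hfin'
  · refine le_trans ?_ (H789R3.trdeg_ge o w how)
    have h1 : Fintype.card {v : V // v ≠ o} = Fintype.card V - 1 := by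
      rw [Fintype.card_subtype_compl, Fintype.card_subtype_eq]
    have h2 : Fintype.card {v : V // v ≠ o ∧ v ≠ w} = Fintype.card V - 2 := by
      rw [Fintype.card_subtype]
      have : (Finset.univ.filter (fun v : V => v ≠ o ∧ v ≠ w)) = (Finset.univ.erase o).erase w := by
        ext v; simp [and_comm]
      rw [this, Finset.card_erase_of_mem (by simp [how.symm]), Finset.card_erase_of_mem (by simp)]
      rw [Finset.card_univ]; omega
    have h3 : Cardinal.mk G.edgeSet = ((G.edgeSet.ncard : ℕ) : Cardinal) := by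
      rw [← Nat.card_coe_set_eq, Nat.cast_card]
    rw [h3, Cardinal.mk_sum, Cardinal.mk_fintype, Cardinal.mk_fintype, h1, h2]
    simp only [Cardinal.lift_natCast]
    norm_cast
    omega
  · intro hA
    have h1 : Function.Injective (H789R3.ev p) := by
      intro x y hxy
      apply Subtype.ext
      exact hp hxy
    exact h1.comp hA

end Pool.Agent.S08761
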