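import Pool.Statements.S08763
import Pool.Agent.H616R3.CrossFin

set_option autoImplicit false
open Pool Pool.MP_52dd64_co

namespace Pool.Agent.S08763

open Pool.Agent.H616R3.Opt Pool.Agent.H616R3.Shift Pool.Agent.H616R3.CrossFin Finset

/-- For all large n, if A and B are families of 3-subsets of an n-set with every A-member meeting every B-member in at most one point, then ∣A∣∣B∣ ≤ γ·C(n,3)², where γ is the max over α in [0,1] of α³(1−α)³+3α⁴(1−α)². -/
theorem result :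
    ∃ N : ℕ, ∀ n : ℕ, N ≤ n → ∀ A B : Finset (Finset (Fin n)),
      (∀ a ∈ A, a.card = 3) → (∀ b ∈ B, b.card = 3) →
      (∀ a ∈ A, ∀ b ∈ B, (a ∩ b).card ≤ 1) →
      ((A.card * B.card : ℕ) : ℝ) ≤
        sSup ((fun α : ℝ => α ^ 3 * (1 - α) ^ 3 + 3 * α ^ 4 * (1 - α) ^ 2) '' Set.Icc (0 : ℝ) 1)
          * ((n.choose 3 : ℕ) : ℝ) ^ 2 := by
  refine ⟨100, ?_⟩
  intro n hn A B hA hB hAB
  -- the graph: pairs covered by A
  let g : Fin n → Fin n → Prop := fun x y => ∃ a ∈ A, x ∈ a ∧ y ∈ a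
  have hg : ∀ x y, g x y → g y x := by
    rintro x y ⟨a, ha, hx, hy⟩
    exact ⟨a, ha, hy, hx⟩
  obtain ⟨l, hl, hln, _, h1, _, h2⟩ := exists_list n (univ : Finset (Fin n)) (by simp) g hg
  have hA' : A ⊆ cl 3 univ g := by
    intro a ha
    rw [mem_cl]
    exact ⟨⟨subset_univ _, hA a ha⟩, fun x hx y hy _ => ⟨a, ha, hx, hy⟩⟩
  have hB' : B ⊆ cl 3 univ (co g) := by
    intro b hb
    rw [mem_cl]
    refine ⟨⟨subset_univ _, hB b hb⟩, ?_⟩
    rintro x hx y hy hxy ⟨a, ha, hxa, hya⟩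
    have h3 := hAB a ha b hb
    have h4 : ({x, y} : Finset (Fin n)) ⊆ a ∩ b := by
      intro z hz
      rw [mem_insert, mem_singleton] at hz
      rcases hz with rfl | rfl
      · exact mem_inter.2 ⟨hxa, hx⟩
      · exact mem_inter.2 ⟨hya, hy⟩
    have h5 := card_le_card h4
    rw [card_pair hxy] at h5
    omega
  have hA2 : (A.card : ℝ) ≤ ((drun Ds.zero l).t true : ℝ) := by
    exact_mod_cast (card_le_card hA').trans h1
  have hB2 : (B.card : ℝ) ≤ ((drun Ds.zero l).t false : ℝ) := by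
    exact_mod_cast (card_le_card hB').trans h2
  have hmain := list_ineq l n hln hl hn
  have hchoose : ((n.choose 3 : ℕ) : ℝ) = (n : ℝ) * ((n : ℝ) - 1) * ((n : ℝ) - 2) / 6 := by
    rw [Nat.cast_choose_eq_descPochhammer_div]
    simp [descPochhammer_succ_right, Nat.factorial]
  have h6 : ((A.card * B.card : ℕ) : ℝ) ≤
      ((drun Ds.zero l).t true : ℝ) * ((drun Ds.zero l).t false : ℝ) := by
    push_cast
    gcongr
  have h7 : ((drun Ds.zero l).t true : ℝ) * ((drun Ds.zero l).t false : ℝ) ≤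
      Γ * ((n.choose 3 : ℕ) : ℝ) ^ 2 := by
    rw [hchoose]
    have : Γ * ((n : ℝ) * ((n : ℝ) - 1) * ((n : ℝ) - 2) / 6) ^ 2 =
      Γ * ((n : ℝ) * ((n : ℝ) - 1) * ((n : ℝ) - 2)) ^ 2 / 36 := by ring
    rw [this]
    linarith
  exact h6.trans h7

end Pool.Agent.S08763
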