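import Pool.Statements.S08775
import Pool.Agent.H912R3.Eq.Fin2

set_option autoImplicit false
open MeasureTheory
open Pool Pool.MP_53c0b7_co

namespace Pool.Agent.S08775

/-- For every convex body K in ℝⁿ whose only interior lattice point is 0, vol K ≤ (n+1)ⁿ/(n!·R(K)ⁿ), where R(K) is the barycenter ratio invariant. Equality holds iff some integer unimodular affine map sends K onto (n+1) times the standard simplex. -/
theorem result :
  ∀ n : ℕ, 1 ≤ n → ∀ K : Set (Fin n → ℝ),
    IsCompact K → Convex ℝ K → (interior K).Nonempty →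
    (0 : Fin n → ℝ) ∈ interior K →
    (∀ x ∈ interior K, (∀ i, ∃ z : ℤ, x i = (z : ℝ)) → x = 0) →
    ∀ b : Fin n → ℝ, b = (volume K).toReal⁻¹ • (∫ x in K, x) →
    ∀ R : ℝ, (b = 0 → R = 1) →
      (∀ t : ℝ, 0 ≤ t → b ≠ 0 → b - t • b ∈ frontier K →
        R = dist (b - t • b) 0 / dist (b - t • b) b) →
      (volume K).toReal ≤ ((n : ℝ) + 1) ^ n / ((n.factorial : ℝ) * R ^ n) ∧
      ((volume K).toReal = ((n : ℝ) + 1) ^ n / ((n.factorial : ℝ) * R ^ n) ↔
        ∃ A : Matrix (Fin n) (Fin n) ℤ, ∃ v : Fin n → ℤ, IsUnit A.det ∧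
          (fun x : Fin n → ℝ => fun i => ∑ j, (A i j : ℝ) * x j + (v i : ℝ)) '' K =
            {y : Fin n → ℝ | (∀ i, 0 ≤ y i) ∧ ∑ i, y i ≤ (n : ℝ) + 1}) := by
  intro n hn K hK hKc hne h0 hL b hb R hR1 hR2
  have hLz : ∀ z : Fin n → ℤ, (fun i => (z i : ℝ)) ∈ interior K → z = 0 := by
    intro z hz
    have h1 := hL _ hz (fun i => ⟨z i, rfl⟩)
    funext i
    have h2 := congrFun h1 i
    simp only [Pi.zero_apply] at h2 ⊢
    exact_mod_cast h2
  have hVpos : 0 < (volume K).toReal := by
    have h1 : 0 < volume K := by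
      have : 0 < volume (interior K) := isOpen_interior.measure_pos volume hne
      exact this.trans_le (measure_mono interior_subset)
    exact ENNReal.toReal_pos h1.ne' hK.measure_lt_top.ne
  have hfac : (0 : ℝ) < n.factorial := by positivity
  have hTx : {y : Fin n → ℝ | (∀ i, 0 ≤ y i) ∧ ∑ i, y i ≤ (n : ℝ) + 1} =
      Pool.Agent.H912R3.Ehr.Tx n (n + 1) := rfl
  rw [hTx]
  -- the image form
  have himage : ∀ (K' : Set (Fin n → ℝ)) (A : Matrix (Fin n) (Fin n) ℤ), IsUnit A.det →
      K' = {x | (fun i => ∑ j, (A i j : ℝ) * x j + 1) ∈ Pool.Agent.H912R3.Ehr.Tx n (n + 1)} →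
      (fun x : Fin n → ℝ => fun i => ∑ j, (A i j : ℝ) * x j + (((fun _ => 1 : Fin n → ℤ) i : ℤ) : ℝ)) '' K' =
        Pool.Agent.H912R3.Ehr.Tx n (n + 1) := by
    intro K' A hA hK'
    apply Set.Subset.antisymm
    · rintro _ ⟨x, hx, rfl⟩
      rw [hK'] at hx
      have hx' : (fun i => ∑ j, (A i j : ℝ) * x j + 1) ∈ Pool.Agent.H912R3.Ehr.Tx n (n + 1) := hx
      simpa using hx'
    · intro y hy
      obtain ⟨x, hx⟩ := Pool.Agent.H912R3.Ehr.exists_real_pre hA (fun i => y i - 1)
      have hxy : (fun i => ∑ j, (A i j : ℝ) * x j + 1) = y := by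
        funext i
        rw [hx i]; ring
      refine ⟨x, ?_, ?_⟩
      · rw [hK']
        show (fun i => ∑ j, (A i j : ℝ) * x j + 1) ∈ Pool.Agent.H912R3.Ehr.Tx n (n + 1)
        rw [hxy]
        exact hy
      · funext i
        have := congrFun hxy i
        simpa using this
  by_cases hb0 : b = 0
  · have hR := hR1 hb0
    subst hR
    have hI : (∫ x in K, x) = 0 := by
      have h1 : (volume K).toReal⁻¹ • (∫ x in K, x) = 0 := by rw [← hb, hb0]
      rcases smul_eq_zero.1 h1 with h | h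
      · exact absurd h (inv_ne_zero hVpos.ne')
      · exact h
    have hz : ∀ i, ∫ x in K, x i = 0 := by
      intro i
      rw [← Pool.Agent.H912R3.Ehr.eval_int hK, hI]
      rfl
    have hbound := Pool.Agent.H912R3.Ehr.ehrhart_int hn hK hKc hz h0 hLz
    rw [one_pow, mul_one]
    refine ⟨hbound, fun h => ?_, ?_⟩
    · obtain ⟨A, hA, hKA⟩ := Pool.Agent.H912R3.Ehr.core_eq hn hK hKc hz h0 hLz h
      exact ⟨A, fun _ => 1, hA, himage K A hA hKA⟩
    · rintro ⟨A, v, hA, himg⟩
      exact (Pool.Agent.H912R3.Ehr.converse hK hLz hA himg).2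
  · obtain ⟨t, ht1, htf⟩ := Pool.Agent.H912R3.Ehr.exists_exit hK h0 hb0
    have hnb : 0 < ‖b‖ := norm_pos_iff.2 hb0
    have hRt : R = (t - 1) / t := by
      rw [hR2 t (by linarith) hb0 htf, dist_zero_right, dist_eq_norm]
      have e1 : b - t • b = (1 - t) • b := by rw [sub_smul, one_smul]
      have e2 : b - t • b - b = (-t) • b := by rw [neg_smul]; abel
      rw [e2, e1, norm_smul, norm_smul, Real.norm_eq_abs, Real.norm_eq_abs, abs_neg,
        abs_of_pos (by linarith : (0 : ℝ) < t), abs_sub_comm, abs_of_pos (by linarith : 0 < t - 1)]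
      field_simp
    have hR0 : 0 < R := by rw [hRt]; exact div_pos (by linarith) (by linarith)
    have hRlt : R < 1 := by rw [hRt, div_lt_one (by linarith)]; linarith
    obtain ⟨c1, c2, c3, c4, c5⟩ := Pool.Agent.H912R3.Ehr.shrink hK hKc hne hb hR0
    set K' : Set (Fin n → ℝ) := (fun x => R • x - R • b) '' K with hK'
    have hxK : b - t • b ∈ K := by
      rw [hK.isClosed.frontier_eq] at htf
      exact htf.1
    have hsub : K' ⊆ K := by
      rintro _ ⟨x, hx, rfl⟩
      have h1 := hKc hx hxK hR0.le (by linarith : 0 ≤ 1 - R) (by ring)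
      have e : R • x + (1 - R) • (b - t • b) = R • x - R • b := by
        have e3 : (1 - R) * (1 - t) = -R := by
          rw [hRt]
          have : t ≠ 0 := by linarith
          field_simp
          ring
        have e1 : b - t • b = (1 - t) • b := by rw [sub_smul, one_smul]
        rw [e1, smul_smul, e3, neg_smul, sub_eq_add_neg]
      rw [e] at h1
      exact h1
    have hLz' : ∀ z : Fin n → ℤ, (fun i => (z i : ℝ)) ∈ interior K' → z = 0 :=
      fun z hz => hLz z (interior_mono hsub hz)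
    have hbound := Pool.Agent.H912R3.Ehr.ehrhart_int hn c1 c2 c3 c4 hLz'
    rw [c5] at hbound
    have hRn : 0 < R ^ n := by positivity
    have e4 : ((n : ℝ) + 1) ^ n / ((n.factorial : ℝ) * R ^ n) =
        (((n : ℝ) + 1) ^ n / n.factorial) / R ^ n := by
      field_simp
    rw [e4]
    refine ⟨?_, fun h => ?_, ?_⟩
    · rw [le_div_iff₀ hRn, mul_comm]
      exact hbound
    · exfalso
      have h1 : volume.real K' = ((n : ℝ) + 1) ^ n / n.factorial := by
        rw [c5, measureReal_def, h, mul_div_cancel₀ _ hRn.ne']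
      obtain ⟨A, hA, hKA⟩ := Pool.Agent.H912R3.Ehr.core_eq hn c1 c2 c3 c4 hLz' h1
      have h2 := Pool.Agent.H912R3.Ehr.no_bigger hn hKc hsub hLz hA hKA
      have h3 : volume.real K ≤ volume.real K' := measureReal_mono h2 c1.measure_lt_top.ne
      rw [c5] at h3
      have h4 : 0 < volume.real K := hVpos
      have h5 : R ^ n < 1 := pow_lt_one₀ hR0.le hRlt (by omega)
      nlinarith
    · rintro ⟨A, v, hA, himg⟩
      exfalso
      obtain ⟨h1, h2⟩ := Pool.Agent.H912R3.Ehr.converse hK hLz hA himg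
      apply hb0
      rw [hb]
      have : (∫ x in K, x) = 0 := by
        funext i
        rw [Pool.Agent.H912R3.Ehr.eval_int hK, h1 i]
        rfl
      rw [this, smul_zero]

end Pool.Agent.S08775
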