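import Pool.Statements.S08780
import Pool.Agent.H842R3.ErdosFalconer2

set_option autoImplicit false
open Pool Pool.MP_53cd62_co

namespace Pool.Agent.S08780

/-- The negation of the preceding statement: For each even d ≥ 2 there are constants C, c > 0 such that for every finite field F of odd characteristic with q elements, every E ⊆ F^d with ∣E∣ ≥ C q^{d/2} has at least c·q distinct values of ∑(x_k − y_k)² over x, y in E. -/
theorem result :
    ¬ (∀ d : ℕ, Even d → 2 ≤ d →
      ∃ C c : ℝ, 0 < C ∧ 0 < c ∧
        ∀ (F : Type) [Field F] [Fintype F] [DecidableEq F], ringChar F ≠ 2 →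
          ∀ E : Finset (Fin d → F),
            C * ((Fintype.card F : ℝ) ^ (d / 2)) ≤ (E.card : ℝ) →
              c * (Fintype.card F : ℝ) ≤
                (((E ×ˢ E).image (fun p => ∑ k, (p.1 k - p.2 k) ^ 2)).card : ℝ)) := by
  intro H
  obtain ⟨C, c, _, hc, H⟩ := H 2 (by decide) le_rfl
  obtain ⟨F, i1, i2, i3, hchar, E, hE1, hE2⟩ := Pool.Agent.H842R3.exists_bad C c hc
  exact absurd (H F hchar E hE1) (not_le.2 hE2)

end Pool.Agent.S08780
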