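import Pool.Statements.S08786

set_option autoImplicit false
open Pool Pool.MP_542d22_co

namespace Pool.Agent.S08786

/-- A directed walk, given as a nonempty list of consecutive edges, that starts in `S` and ends outside
`S` uses an edge leaving `S`. -/
lemma cross {V E : Type} (tail head : E → V) (S : Set V) :
    ∀ (l : List E) (x y : V), l ≠ [] → (∀ e ∈ l.head?, tail e = x) →
      (∀ e ∈ l.getLast?, head e = y) →
      (∀ (k : ℕ) (a b : E), l[k]? = some a → l[k+1]? = some b → head a = tail b) →
      x ∈ S → y ∉ S → ∃ e ∈ l, tail e ∈ S ∧ head e ∉ S := by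
  intro l
  induction l with
  | nil => intro x y h; exact absurd rfl h
  | cons a t ih =>
    intro x y _ h1 h2 h3 hx hy
    have ha : tail a = x := h1 a (by simp)
    by_cases hS : head a ∈ S
    · cases t with
      | nil =>
        have : head a = y := h2 a (by simp)
        exact absurd (this ▸ hS) hy
      | cons b t' =>
        have hab : head a = tail b := h3 0 a b (by simp) (by simp)
        obtain ⟨e, he, h⟩ := ih (head a) y (by simp)
          (by intro e he
              simp at he
              rw [← he]; exact hab.symm)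
          (by intro e he
              apply h2 e
              simpa [List.getLast?_cons_cons] using he)
          (by intro k c d hc hd
              apply h3 (k+1) c d
              · simpa using hc
              · simpa using hd)
          hS hy
        exact ⟨e, List.mem_cons_of_mem _ he, h⟩
    · exact ⟨a, by simp, by rw [ha]; exact hx, hS⟩

/-- The tails of the 24 edges. -/
def tl : Fin 24 → Fin 6 :=
  ![0,0,0,0, 1,1,1,1, 2,2,2,2, 3,3,3,3, 4,4,4,4, 5,5,5,5]

/-- The heads of the 24 edges. -/
def hd : Fin 24 → Fin 6 :=
  ![3,4,4,4, 0,0,3,3, 4,5,5,5, 0,1,1,1, 0,0,0,2, 2,2,4,4]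

/-- For each ordered pair a set containing the first and not the second vertex with only 3 leaving edges. -/
def cut (x y : Fin 6) : Finset (Fin 6) :=
  if y = 0 then (if x = 1 ∨ x = 3 then {1, 3} else {4, 2, 5})
  else if y = 4 then (if x = 2 ∨ x = 5 then {2, 5} else {0, 1, 3})
  else Finset.univ.erase y

lemma cut_spec : ∀ x y : Fin 6, x ≠ y → x ∈ cut x y ∧ y ∉ cut x y ∧
    (Finset.univ.filter (fun e : Fin 24 => tl e ∈ cut x y ∧ hd e ∉ cut x y)).card ≤ 3 := by
  decide +kernel

/-- The negation of the preceding statement: For every r ≥ 1, every finite loopless multidigraph with at least one vertex and all out-degrees at least r has distinct vertices x, y joined by r pairwise edge-disjoint directed walks from x to y. -/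
theorem result :
    ¬ (∀ (r : ℕ), 1 ≤ r → ∀ (V E : Type) [Finite V] [Finite E] [Nonempty V] (tail head : E → V),
      (∀ e, tail e ≠ head e) →
      (∀ v : V, r ≤ Nat.card {e : E // tail e = v}) →
      ∃ x y : V, x ≠ y ∧ ∃ P : Fin r → List E,
        (∀ i, P i ≠ [] ∧ (∀ e ∈ (P i).head?, tail e = x) ∧
          (∀ e ∈ (P i).getLast?, head e = y) ∧
          ∀ (k : ℕ) (a b : E), (P i)[k]? = some a → (P i)[k+1]? = some b → head a = tail b) ∧
        ∀ i j, i ≠ j → ∀ e ∈ P i, e ∉ P j) := by
  intro H
  obtain ⟨x, y, hxy, P, hP, hdis⟩ := H 4 (by norm_num) (Fin 6) (Fin 24) tl hd (by decide)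
    (by
      intro v
      rw [Nat.card_eq_fintype_card, Fintype.card_subtype]
      revert v
      decide +kernel)
  obtain ⟨hxS, hyS, hcard⟩ := cut_spec x y hxy
  have hex : ∀ i : Fin 4, ∃ e ∈ P i, tl e ∈ cut x y ∧ hd e ∉ cut x y := by
    intro i
    obtain ⟨h0, h1, h2, h3⟩ := hP i
    have := cross tl hd (cut x y : Set (Fin 6)) (P i) x y h0 h1 h2 h3 (by exact_mod_cast hxS)
      (by exact_mod_cast hyS)
    simpa using this
  choose f hf1 hf2 using hex
  have hinj : Function.Injective f := by
    intro i j hij
    by_contra hne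
    exact hdis i j hne (f i) (hf1 i) (hij ▸ hf1 j)
  have hle : (Finset.univ : Finset (Fin 4)).card ≤
      (Finset.univ.filter (fun e : Fin 24 => tl e ∈ cut x y ∧ hd e ∉ cut x y)).card :=
    Finset.card_le_card_of_injOn f (by intro i _; simpa using hf2 i) (by intro i _ j _ h; exact hinj h)
  rw [Finset.card_univ, Fintype.card_fin] at hle
  omega

end Pool.Agent.S08786
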