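import Pool.Statements.S08825
import Pool.Agent.H331R3.PPDescent

set_option autoImplicit false
open Pool Pool.MP_5651c1_co

namespace Pool.Agent.S08825

open Pool.Agent.H331R3

/-- For every t there is c>0 such that every finite path-pairable graph on n≥2 vertices with no K_t minor has a vertex of degree at least c·n. -/
theorem result :
    ∀ t : ℕ, ∃ c : ℝ, 0 < c ∧
      ∀ (V : Type) [Fintype V] (G : SimpleGraph V) [DecidableRel G.Adj],
        2 ≤ Fintype.card V →
        (∀ (k : ℕ) (s r : Fin k → V), Function.Injective (Sum.elim s r) →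
          ∃ p : (i : Fin k) → G.Walk (s i) (r i),
            (∀ i, (p i).IsPath) ∧
            ∀ i j, i ≠ j → ∀ e ∈ (p i).edges, e ∉ (p j).edges) →
        (¬ ∃ f : Fin t → Set V,
            (∀ i, (G.induce (f i)).Connected) ∧
            (∀ i j, i ≠ j → Disjoint (f i) (f j)) ∧
            (∀ i j, i ≠ j → ∃ u ∈ f i, ∃ v ∈ f j, G.Adj u v)) →
        ∃ v : V, c * (Fintype.card V : ℝ) ≤ (G.degree v : ℝ) := by
  intro t
  set L : ℕ := 8 * t * (t * (2 ^ t + 1)) with hL
  refine ⟨1 / ((16 * t * (L + 1) + 1 : ℕ) : ℝ), by positivity, ?_⟩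
  intro V _ G _ hn hpp hnm0
  classical
  by_contra hcon
  push Not at hcon
  -- no minor in our sense
  have hnm : ¬ KM G t Finset.univ := by
    rintro ⟨f, _, h2, h3, h4⟩
    apply hnm0
    refine ⟨fun i => (f i : Set V), fun i => (h2 i).induce, ?_, ?_⟩
    · intro i j hij
      exact Finset.disjoint_coe.2 (h3 i j hij)
    · intro i j hij
      obtain ⟨u, hu, v, hv, huv⟩ := h4 i j hij
      exact ⟨u, by exact_mod_cast hu, v, by exact_mod_cast hv, huv⟩
  have ht : 1 ≤ t := by
    by_contra h0
    have : t = 0 := by omega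
    subst this
    exact hnm ⟨fun i => i.elim0, fun i => i.elim0, fun i => i.elim0, fun i => i.elim0,
      fun i => i.elim0⟩
  have hcut := fun A => cut (G := G) hpp A
  set n := Fintype.card V with hnn
  have hdeg : ∀ v, G.degree v = dg G v := by
    intro v
    rw [dg, ← SimpleGraph.card_neighborFinset_eq_degree]
    congr 1
    ext w
    simp
  -- degree bound in naturals
  have hd1 : ∀ v, dg G v * (16 * t * (L + 1) + 1) < n := by
    intro v
    have h := hcon v
    rw [hdeg, one_div, lt_inv_mul_iff₀ (by positivity)] at h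
    rw [mul_comm]
    exact_mod_cast h
  have hne : Nonempty V := Fintype.card_pos_iff.1 (by omega)
  obtain ⟨v0⟩ := hne
  have : Nonempty V := ⟨v0⟩
  have hpos : 1 ≤ dg G v0 := by
    have h := hcut {v0}
    rw [Finset.card_singleton, min_eq_left (by omega)] at h
    have hne : (nb G {v0}).Nonempty := by
      by_contra hc
      rw [Finset.not_nonempty_iff_eq_empty] at hc
      rw [hc] at h
      simp [cost] at h
    obtain ⟨x, hx⟩ := hne
    obtain ⟨_, a, ha, hax⟩ := mem_nb.1 hx
    rw [Finset.mem_singleton] at ha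
    subst ha
    unfold dg
    rw [Nat.one_le_iff_ne_zero, ← Nat.pos_iff_ne_zero, Finset.card_pos]
    exact ⟨x, by simp [hax]⟩
  have hnbig : 16 * t * (L + 1) + 1 < n := by
    have h1 := hd1 v0
    have h2 : 1 * (16 * t * (L + 1) + 1) ≤ dg G v0 * (16 * t * (L + 1) + 1) :=
      Nat.mul_le_mul_right _ hpos
    omega
  set Dm := n / (8 * t * (L + 1)) with hDm
  have hqpos : 0 < 8 * t * (L + 1) := by positivity
  have hDmle : ∀ v, dg G v + 1 ≤ Dm := by
    intro v
    rw [hDm, Nat.le_div_iff_mul_le hqpos]
    have h1 := hd1 v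
    have e1 : 2 * ((dg G v + 1) * (8 * t * (L + 1))) =
      dg G v * (16 * t * (L + 1)) + 16 * t * (L + 1) := by ring
    have e2 : dg G v * (16 * t * (L + 1) + 1) = dg G v * (16 * t * (L + 1)) + dg G v := by ring
    omega
  have hT : 8 * t * ((L + 1) * Dm) ≤ Fintype.card V := by
    rw [← mul_assoc, ← hnn]
    exact Nat.mul_div_le n _
  have hcost : cost G Finset.univ ≤ (2 ^ t + 1) * n := by
    have h1 : cost G Finset.univ = DD G Finset.univ + n := by
      unfold cost DD
      rw [Finset.sum_add_distrib, Finset.sum_const, Finset.card_univ, smul_eq_mul, mul_one]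
      congr 1
    have h2 : DD G Finset.univ < 2 ^ t * n := by
      by_contra hc
      push Not at hc
      exact hnm (mader G t Finset.univ Finset.univ_nonempty (by rwa [Finset.card_univ]))
    rw [h1, add_mul, one_mul]
    omega
  have hLL : 8 * t * (t * cost G Finset.univ) ≤ L * Fintype.card V := by
    calc 8 * t * (t * cost G Finset.univ) ≤ 8 * t * (t * ((2 ^ t + 1) * n)) := by
          apply Nat.mul_le_mul_left
          apply Nat.mul_le_mul_left
          exact hcost
      _ = L * n := by rw [hL]; ring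
  have hL1 : 1 ≤ L := by
    rw [hL]
    have : 0 < 8 * t * (t * (2 ^ t + 1)) := by positivity
    omega
  -- initial state
  obtain ⟨B, hBc, hBbig, hBconn⟩ := giant (G := G) Finset.univ (by
      rw [Finset.card_univ]; omega) (by
    intro A hA _
    have hnb : nb G A = ∅ := by
      rw [Finset.eq_empty_iff_forall_notMem]
      intro x hx
      obtain ⟨hxA, a, ha, hax⟩ := mem_nb.1 hx
      exact hxA (hA.2 a ha x (Finset.mem_univ _) hax)
    have h := hcut A
    rw [hnb] at h
    simp only [cost, Finset.sum_empty] at h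
    omega)
  have hps : PSt G t B ∅ := by
    refine ⟨hBconn, hBbig, by simp, by simp, by simp, by simp, ?_, by simp⟩
    intro x hx
    obtain ⟨hxA, a, ha, hax⟩ := mem_nb.1 hx
    exact absurd (hBc.2 a ha x (Finset.mem_univ _) hax) hxA
  obtain ⟨F', hF'⟩ := hps.clean
  exact no_state hL1 hcut hnm hDmle hT hLL B.card B F' le_rfl hF'

end Pool.Agent.S08825
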