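import Pool.Statements.S08846

set_option autoImplicit false
open Pool Pool.MP_56f0a1_co

namespace Pool.Agent.S08846

/-- The index set of the six variables `x₁, x₂, x₃, y₁, y₂, y₃`. -/
abbrev J : Type := Fin 3 ⊕ Fin 3

/-- The field in which the cluster variables live. -/
abbrev K : Type := FractionRing (MvPolynomial J ℤ)

/-- The six initial variables as elements of the field. -/
noncomputable def v (i : J) : K :=
  algebraMap (MvPolynomial J ℤ) K (MvPolynomial.X i)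

/-- The mutation step of the statement. -/
noncomputable def step (s : (J → K) × Matrix J (Fin 3) ℤ) (m : Fin 3) :
    (J → K) × Matrix J (Fin 3) ℤ :=
  (Function.update s.1 (Sum.inl m)
    ((∏ i, s.1 i ^ (s.2 i m).toNat + ∏ i, s.1 i ^ (-(s.2 i m)).toNat) / s.1 (Sum.inl m)),
   Matrix.of (fun (i : J) (j : Fin 3) =>
     if i = Sum.inl m ∨ j = m then -(s.2 i j)
     else s.2 i j + Int.sign (s.2 i m) * max (s.2 i m * s.2 (Sum.inl m) j) 0))

/-- A vector of six entries. -/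
def six {α : Type} (a b c u w z : α) : J → α := Sum.elim ![a, b, c] ![u, w, z]

/-- Matrices with six rows. -/
def mat (a b c u w z : Fin 3 → ℤ) : Matrix J (Fin 3) ℤ := Matrix.of (six a b c u w z)

theorem prod_six (f : J → K) : ∏ i, f i =
    f (Sum.inl 0) * f (Sum.inl 1) * f (Sum.inl 2) *
      (f (Sum.inr 0) * f (Sum.inr 1) * f (Sum.inr 2)) := by
  rw [Fintype.prod_sum_type, Fin.prod_univ_three, Fin.prod_univ_three]

/-- Matrix mutation. -/
def stepM (M : Matrix J (Fin 3) ℤ) (m : Fin 3) : Matrix J (Fin 3) ℤ :=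
  Matrix.of (fun (i : J) (j : Fin 3) =>
     if i = Sum.inl m ∨ j = m then -(M i j)
     else M i j + Int.sign (M i m) * max (M i m * M (Sum.inl m) j) 0)

theorem step_eq (f : J → K) (M : Matrix J (Fin 3) ℤ) (m : Fin 3) :
    step (f, M) m = (Function.update f (Sum.inl m)
      ((∏ i, f i ^ (M i m).toNat + ∏ i, f i ^ (-(M i m)).toNat) / f (Sum.inl m)), stepM M m) := rfl

theorem upd0 (a b c u w z t : K) :
    Function.update (six a b c u w z) (Sum.inl 0) t = six t b c u w z := by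
  funext i
  rcases i with i | i
  · fin_cases i
    · exact Function.update_self _ _ _
    · exact Function.update_of_ne (by decide) _ _
    · exact Function.update_of_ne (by decide) _ _
  · exact Function.update_of_ne (by simp) _ _

theorem upd1 (a b c u w z t : K) :
    Function.update (six a b c u w z) (Sum.inl 1) t = six a t c u w z := by
  funext i
  rcases i with i | i
  · fin_cases i
    · exact Function.update_of_ne (by decide) _ _
    · exact Function.update_self _ _ _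
    · exact Function.update_of_ne (by decide) _ _
  · exact Function.update_of_ne (by simp) _ _

theorem upd2 (a b c u w z t : K) :
    Function.update (six a b c u w z) (Sum.inl 2) t = six a b t u w z := by
  funext i
  rcases i with i | i
  · fin_cases i
    · exact Function.update_of_ne (by decide) _ _
    · exact Function.update_of_ne (by decide) _ _
    · exact Function.update_self _ _ _
  · exact Function.update_of_ne (by simp) _ _

/-- The two products of the exchange relation. -/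
theorem prods (a b c u w z : K) (k0 k1 k2 k3 k4 k5 : ℤ) (e : J → ℤ)
    (he : e = six k0 k1 k2 k3 k4 k5) :
    ∏ i, (six a b c u w z) i ^ (e i).toNat =
      a ^ k0.toNat * b ^ k1.toNat * c ^ k2.toNat * (u ^ k3.toNat * w ^ k4.toNat * z ^ k5.toNat) := by
  subst he
  rw [prod_six]
  rfl

theorem step1 (a b c u w z : K) :
    step (six a b c u w z, mat ![0, -2, 2] ![2, 0, -2] ![-1, 1, 0] ![1, 0, 0] ![0, 1, 0] ![0, 0, 1]) 2
      = (six a b ((a ^ 2 * z + b ^ 2) / c) u w z,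
        mat ![0, 0, -2] ![0, 0, 2] ![1, -1, 0] ![1, 0, 0] ![0, 1, 0] ![0, 1, -1]) := by
  have hM : stepM (mat ![0, -2, 2] ![2, 0, -2] ![-1, 1, 0] ![1, 0, 0] ![0, 1, 0] ![0, 0, 1]) 2 =
      mat ![0, 0, -2] ![0, 0, 2] ![1, -1, 0] ![1, 0, 0] ![0, 1, 0] ![0, 1, -1] := by decide
  rw [step_eq, hM, prods a b c u w z 2 (-2) 0 0 0 1
      (fun i => mat ![0, -2, 2] ![2, 0, -2] ![-1, 1, 0] ![1, 0, 0] ![0, 1, 0] ![0, 0, 1] i 2)
      (by decide),
    prods a b c u w z (-2) 2 0 0 0 (-1)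
      (fun i => -(mat ![0, -2, 2] ![2, 0, -2] ![-1, 1, 0] ![1, 0, 0] ![0, 1, 0] ![0, 0, 1] i 2))
      (by decide), upd2]
  refine Prod.ext ?_ rfl
  refine congrArg (fun t => six a b t u w z) ?_
  change (a ^ 2 * b ^ 0 * c ^ 0 * (u ^ 0 * w ^ 0 * z ^ 1) +
    a ^ 0 * b ^ 2 * c ^ 0 * (u ^ 0 * w ^ 0 * z ^ 0)) / c = _
  ring

theorem step2 (a b c u w z : K) :
    step (six a b c u w z, mat ![0, 0, -2] ![0, 0, 2] ![1, -1, 0] ![1, 0, 0] ![0, 1, 0] ![0, 1, -1]) 0
      = (six ((c * u + 1) / a) b c u w z,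
        mat ![0, 0, 2] ![0, 0, 2] ![-1, -1, 0] ![-1, 0, 0] ![0, 1, 0] ![0, 1, -1]) := by
  have hM : stepM (mat ![0, 0, -2] ![0, 0, 2] ![1, -1, 0] ![1, 0, 0] ![0, 1, 0] ![0, 1, -1]) 0 =
      mat ![0, 0, 2] ![0, 0, 2] ![-1, -1, 0] ![-1, 0, 0] ![0, 1, 0] ![0, 1, -1] := by decide
  rw [step_eq, hM, prods a b c u w z 0 0 1 1 0 0
      (fun i => mat ![0, 0, -2] ![0, 0, 2] ![1, -1, 0] ![1, 0, 0] ![0, 1, 0] ![0, 1, -1] i 0)
      (by decide),
    prods a b c u w z 0 0 (-1) (-1) 0 0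
      (fun i => -(mat ![0, 0, -2] ![0, 0, 2] ![1, -1, 0] ![1, 0, 0] ![0, 1, 0] ![0, 1, -1] i 0))
      (by decide), upd0]
  refine Prod.ext ?_ rfl
  refine congrArg (fun t => six t b c u w z) ?_
  change (a ^ 0 * b ^ 0 * c ^ 1 * (u ^ 1 * w ^ 0 * z ^ 0) +
    a ^ 0 * b ^ 0 * c ^ 0 * (u ^ 0 * w ^ 0 * z ^ 0)) / a = _
  ring

theorem step3 (a b c u w z : K) :
    step (six a b c u w z, mat ![0, 0, 2] ![0, 0, 2] ![-1, -1, 0] ![-1, 0, 0] ![0, 1, 0] ![0, 1, -1]) 1
      = (six a ((w * z + c) / b) c u w z,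
        mat ![0, 0, 2] ![0, 0, -2] ![-1, 1, 0] ![-1, 0, 0] ![0, -1, 2] ![0, -1, 1]) := by
  have hM : stepM (mat ![0, 0, 2] ![0, 0, 2] ![-1, -1, 0] ![-1, 0, 0] ![0, 1, 0] ![0, 1, -1]) 1 =
      mat ![0, 0, 2] ![0, 0, -2] ![-1, 1, 0] ![-1, 0, 0] ![0, -1, 2] ![0, -1, 1] := by decide
  rw [step_eq, hM, prods a b c u w z 0 0 (-1) 0 1 1
      (fun i => mat ![0, 0, 2] ![0, 0, 2] ![-1, -1, 0] ![-1, 0, 0] ![0, 1, 0] ![0, 1, -1] i 1)
      (by decide),
    prods a b c u w z 0 0 1 0 (-1) (-1)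
      (fun i => -(mat ![0, 0, 2] ![0, 0, 2] ![-1, -1, 0] ![-1, 0, 0] ![0, 1, 0] ![0, 1, -1] i 1))
      (by decide), upd1]
  refine Prod.ext ?_ rfl
  refine congrArg (fun t => six a t c u w z) ?_
  change (a ^ 0 * b ^ 0 * c ^ 0 * (u ^ 0 * w ^ 1 * z ^ 1) +
    a ^ 0 * b ^ 0 * c ^ 1 * (u ^ 0 * w ^ 0 * z ^ 0)) / b = _
  ring

theorem step4 (a b c u w z : K) :
    (step (six a b c u w z,
      mat ![0, 0, 2] ![0, 0, -2] ![-1, 1, 0] ![-1, 0, 0] ![0, -1, 2] ![0, -1, 1]) 2).1 (Sum.inl 2)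
      = (a ^ 2 * (w ^ 2 * z) + b ^ 2) / c := by
  rw [step_eq, prods a b c u w z 2 (-2) 0 0 2 1
      (fun i => mat ![0, 0, 2] ![0, 0, -2] ![-1, 1, 0] ![-1, 0, 0] ![0, -1, 2] ![0, -1, 1] i 2)
      (by decide),
    prods a b c u w z (-2) 2 0 0 (-2) (-1)
      (fun i => -(mat ![0, 0, 2] ![0, 0, -2] ![-1, 1, 0] ![-1, 0, 0] ![0, -1, 2] ![0, -1, 1] i 2))
      (by decide), upd2]
  change (a ^ 2 * b ^ 0 * c ^ 0 * (u ^ 0 * w ^ 2 * z ^ 1) +
    a ^ 0 * b ^ 2 * c ^ 0 * (u ^ 0 * w ^ 0 * z ^ 0)) / c = _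
  ring

/-- The expansion as a finitely supported function. -/
noncomputable def c₀ : (J → ℤ) →₀ ℤ :=
  Finsupp.single (six (-2) (-2) 1 0 2 1) 1 + Finsupp.single (six (-2) 0 0 1 2 1) 2 +
  Finsupp.single (six (-2) 2 (-1) 2 2 1) 1 + Finsupp.single (six 0 (-2) 0 0 1 1) 2 +
  Finsupp.single (six 0 0 (-1) 0 0 0) 1 + Finsupp.single (six 0 0 (-1) 2 2 2) 1 +
  Finsupp.single (six 2 (-2) (-1) 0 0 1) 1

theorem c₀_sum (f : (J → ℤ) → ℤ → K) (h0 : ∀ a, f a 0 = 0)
    (hadd : ∀ a r s, f a (r + s) = f a r + f a s) :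
    c₀.sum f = f (six (-2) (-2) 1 0 2 1) 1 + f (six (-2) 0 0 1 2 1) 2 +
      f (six (-2) 2 (-1) 2 2 1) 1 + f (six 0 (-2) 0 0 1 1) 2 +
      f (six 0 0 (-1) 0 0 0) 1 + f (six 0 0 (-1) 2 2 2) 1 +
      f (six 2 (-2) (-1) 0 0 1) 1 := by
  unfold c₀
  rw [Finsupp.sum_add_index' h0 hadd, Finsupp.sum_add_index' h0 hadd,
    Finsupp.sum_add_index' h0 hadd, Finsupp.sum_add_index' h0 hadd,
    Finsupp.sum_add_index' h0 hadd, Finsupp.sum_add_index' h0 hadd,
    Finsupp.sum_single_index (h0 _), Finsupp.sum_single_index (h0 _),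
    Finsupp.sum_single_index (h0 _), Finsupp.sum_single_index (h0 _),
    Finsupp.sum_single_index (h0 _), Finsupp.sum_single_index (h0 _),
    Finsupp.sum_single_index (h0 _)]

theorem v_ne_zero (i : J) : v i ≠ 0 := by
  unfold v
  intro h
  have h1 := (IsFractionRing.injective (MvPolynomial J ℤ) K) (h.trans (map_zero _).symm)
  exact MvPolynomial.X_ne_zero i h1

theorem D_ne_zero : v (Sum.inl 0) ^ 2 * v (Sum.inr 2) + v (Sum.inl 1) ^ 2 ≠ 0 := by
  unfold v
  rw [← map_pow, ← map_mul, ← map_pow, ← map_add]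
  intro h
  have h1 := (IsFractionRing.injective (MvPolynomial J ℤ) K) (h.trans (map_zero _).symm)
  have h2 := congrArg (MvPolynomial.eval (fun _ => (1 : ℤ))) h1
  simp at h2

theorem c₀_apply_mid : c₀ (six 0 0 (-1) 1 1 1) = 0 := by
  unfold c₀
  simp only [Finsupp.add_apply]
  have h : ∀ (p q : J → ℤ) (r : ℤ), p ≠ q → (Finsupp.single p r) q = 0 := by
    intro p q r hpq
    exact Finsupp.single_eq_of_ne' hpq
  rw [h _ _ _ (by decide), h _ _ _ (by decide), h _ _ _ (by decide), h _ _ _ (by decide),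
    h _ _ _ (by decide), h _ _ _ (by decide), h _ _ _ (by decide)]
  rfl

theorem c₀_apply_lo : c₀ (six 0 0 (-1) 0 0 0) = 1 := by
  unfold c₀
  simp only [Finsupp.add_apply]
  have h : ∀ (p q : J → ℤ) (r : ℤ), p ≠ q → (Finsupp.single p r) q = 0 := by
    intro p q r hpq
    exact Finsupp.single_eq_of_ne' hpq
  rw [h _ _ _ (by decide), h _ _ _ (by decide), h _ _ _ (by decide), h _ _ _ (by decide),
    Finsupp.single_eq_same, h _ _ _ (by decide), h _ _ _ (by decide)]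
  rfl

theorem c₀_apply_hi : c₀ (six 0 0 (-1) 2 2 2) = 1 := by
  unfold c₀
  simp only [Finsupp.add_apply]
  have h : ∀ (p q : J → ℤ) (r : ℤ), p ≠ q → (Finsupp.single p r) q = 0 := by
    intro p q r hpq
    exact Finsupp.single_eq_of_ne' hpq
  rw [h _ _ _ (by decide), h _ _ _ (by decide), h _ _ _ (by decide), h _ _ _ (by decide),
    h _ _ _ (by decide), Finsupp.single_eq_same, h _ _ _ (by decide)]
  rfl

/-- The negation of the preceding statement: For every skew-symmetrizable integer matrix B, every cluster variable obtained by mutations from the principal-coefficient seed has a Laurent expansion in x and y whose support contains every lattice point of its convex hull. -/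
theorem result :
    ¬ (∀ (n : ℕ) (B : Matrix (Fin n) (Fin n) ℤ),
    (∃ d : Fin n → ℤ, (∀ i, 0 < d i) ∧ ∀ i j, d i * B i j = -(d j * B j i)) →
    ∀ (ks : List (Fin n)) (k : Fin n) (c : (Fin n ⊕ Fin n → ℤ) →₀ ℤ),
      (List.foldl
        (fun (s : (Fin n ⊕ Fin n → FractionRing (MvPolynomial (Fin n ⊕ Fin n) ℤ)) ×
                  Matrix (Fin n ⊕ Fin n) (Fin n) ℤ) (m : Fin n) =>
          (Function.update s.1 (Sum.inl m)
            ((∏ i, s.1 i ^ (s.2 i m).toNat + ∏ i, s.1 i ^ (-(s.2 i m)).toNat) / s.1 (Sum.inl m)),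
           Matrix.of (fun (i : Fin n ⊕ Fin n) (j : Fin n) =>
             if i = Sum.inl m ∨ j = m then -(s.2 i j)
             else s.2 i j + Int.sign (s.2 i m) * max (s.2 i m * s.2 (Sum.inl m) j) 0)))
        (fun i => algebraMap (MvPolynomial (Fin n ⊕ Fin n) ℤ)
            (FractionRing (MvPolynomial (Fin n ⊕ Fin n) ℤ)) (MvPolynomial.X i),
         Matrix.fromRows B (1 : Matrix (Fin n) (Fin n) ℤ))
        ks).1 (Sum.inl k)
        = c.sum (fun a r => (r : FractionRing (MvPolynomial (Fin n ⊕ Fin n) ℤ)) *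
            ∏ i, (algebraMap (MvPolynomial (Fin n ⊕ Fin n) ℤ)
              (FractionRing (MvPolynomial (Fin n ⊕ Fin n) ℤ)) (MvPolynomial.X i)) ^ (a i)) →
      ∀ a : Fin n ⊕ Fin n → ℤ,
        (fun i => (a i : ℝ)) ∈ convexHull ℝ
          ((fun b : Fin n ⊕ Fin n → ℤ => fun i => (b i : ℝ)) ''
            (↑c.support : Set (Fin n ⊕ Fin n → ℤ))) →
        a ∈ c.support) := by
  intro H
  have hB := H 3 (Matrix.of ![![0, -2, 2], ![2, 0, -2], ![-1, 1, 0]])
    ⟨![1, 1, 2], by decide, by decide⟩ [2, 0, 1, 2] 2 c₀ ?_ (six 0 0 (-1) 1 1 1) ?_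
  · rw [Finsupp.mem_support_iff] at hB
    exact hB c₀_apply_mid
  · -- the expansion
    have hinit : ((fun i => algebraMap (MvPolynomial (Fin 3 ⊕ Fin 3) ℤ)
            (FractionRing (MvPolynomial (Fin 3 ⊕ Fin 3) ℤ)) (MvPolynomial.X i) : J → K),
         Matrix.fromRows (Matrix.of ![![0, -2, 2], ![2, 0, -2], ![-1, 1, 0]])
           (1 : Matrix (Fin 3) (Fin 3) ℤ)) =
        (six (v (Sum.inl 0)) (v (Sum.inl 1)) (v (Sum.inl 2)) (v (Sum.inr 0)) (v (Sum.inr 1))
          (v (Sum.inr 2)),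
        mat ![0, -2, 2] ![2, 0, -2] ![-1, 1, 0] ![1, 0, 0] ![0, 1, 0] ![0, 0, 1]) := by
      refine Prod.ext ?_ ?_
      · funext i
        rcases i with i | i <;> fin_cases i <;> rfl
      · ext i j
        rcases i with i | i <;> fin_cases i <;> fin_cases j <;> decide
    change (List.foldl step _ [2, 0, 1, 2]).1 (Sum.inl 2) = _
    rw [hinit]
    simp only [List.foldl_cons, List.foldl_nil]
    rw [step1, step2, step3, step4, c₀_sum _ (by simp) (by intro a r s; push_cast; ring)]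
    change _ = (((1 : ℤ) : K) * ∏ i, v i ^ (six (-2) (-2) 1 0 2 1 i : ℤ)) +
      (((2 : ℤ) : K) * ∏ i, v i ^ (six (-2) 0 0 1 2 1 i : ℤ)) +
      (((1 : ℤ) : K) * ∏ i, v i ^ (six (-2) 2 (-1) 2 2 1 i : ℤ)) +
      (((2 : ℤ) : K) * ∏ i, v i ^ (six 0 (-2) 0 0 1 1 i : ℤ)) +
      (((1 : ℤ) : K) * ∏ i, v i ^ (six 0 0 (-1) 0 0 0 i : ℤ)) +
      (((1 : ℤ) : K) * ∏ i, v i ^ (six 0 0 (-1) 2 2 2 i : ℤ)) +
      (((1 : ℤ) : K) * ∏ i, v i ^ (six 2 (-2) (-1) 0 0 1 i : ℤ))
    have ha := v_ne_zero (Sum.inl 0)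
    have hb := v_ne_zero (Sum.inl 1)
    have hc := v_ne_zero (Sum.inl 2)
    have hD := D_ne_zero
    simp only [prod_six]
    simp only [six, Sum.elim_inl, Sum.elim_inr, Matrix.cons_val_zero, Matrix.cons_val_one,
      Matrix.cons_val]
    generalize v (Sum.inl 0) = a at *
    generalize v (Sum.inl 1) = b at *
    generalize v (Sum.inl 2) = c at *
    generalize v (Sum.inr 0) = u at *
    generalize v (Sum.inr 1) = w at *
    generalize v (Sum.inr 2) = z at *
    have e2 : ∀ t : K, t ^ (-2 : ℤ) = (t ^ 2)⁻¹ := by intro t; rw [zpow_neg]; norm_cast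
    have e1 : ∀ t : K, t ^ (-1 : ℤ) = t⁻¹ := by intro t; rw [zpow_neg, zpow_one]
    have f2 : ∀ t : K, t ^ (2 : ℤ) = t ^ 2 := by intro t; norm_cast
    simp only [e2, e1, f2, zpow_zero, zpow_one]
    push_cast
    field_simp
    ring
  · -- the midpoint is in the convex hull
    have hseg : (fun i => ((six 0 0 (-1) 1 1 1 : J → ℤ) i : ℝ)) ∈
        segment ℝ (fun i => ((six 0 0 (-1) 0 0 0 : J → ℤ) i : ℝ))
          (fun i => ((six 0 0 (-1) 2 2 2 : J → ℤ) i : ℝ)) := by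
      refine ⟨1 / 2, 1 / 2, by norm_num, by norm_num, by norm_num, ?_⟩
      funext i
      rcases i with i | i <;> fin_cases i <;> simp [six] <;> norm_num
    refine segment_subset_convexHull ?_ ?_ hseg
    · refine ⟨six 0 0 (-1) 0 0 0, ?_, rfl⟩
      rw [Finset.mem_coe, Finsupp.mem_support_iff, c₀_apply_lo]
      exact one_ne_zero
    · refine ⟨six 0 0 (-1) 2 2 2, ?_, rfl⟩
      rw [Finset.mem_coe, Finsupp.mem_support_iff, c₀_apply_hi]
      exact one_ne_zero

end Pool.Agent.S08846
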