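import Pool.Statements.S08852
import Pool.Agent.H600R3.MD.TaskA
import Pool.Agent.H744R3.MD.TaskB
import Pool.Agent.H116R3.MD.TaskC
import Pool.Agent.Helper25R3.MDTaskD
import Pool.Agent.H296R3.MD.TaskE
import Pool.Agent.H679R3.MD.TaskF
import Pool.Agent.H235R3.MD.TaskG
import Pool.Agent.H823R3.MD.TaskH
import Pool.Agent.H221R3.MD.P1
import Pool.Agent.H221R3.MD.P2
import Pool.Agent.H221R3.MD.P3
import Pool.Agent.H221R3.MD.P4
import Pool.Agent.H221R3.MD.P5

set_option autoImplicit false
open Pool Pool.MP_571698_co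

namespace Pool.Agent.S08852

/-- The negation of the preceding statement: For every connected graph G on q ≥ 2 vertices, the metric dimension of the n-th Cartesian power of G, multiplied by log base q of n and divided by n, tends to 2 as n tends to infinity. -/
theorem result :
    ¬ (∀ q : ℕ, 2 ≤ q → ∀ G : SimpleGraph (Fin q), G.Connected →
      Filter.Tendsto
        (fun n : ℕ =>
          ((sInf {k : ℕ | ∃ S : Finset (Fin n → Fin q), S.card = k ∧
              ∀ x y : Fin n → Fin q, x ≠ y → ∃ s ∈ S,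
                (SimpleGraph.fromRel (fun a b : Fin n → Fin q =>
                    ∃ i : Fin n, G.Adj (a i) (b i) ∧ ∀ j : Fin n, j ≠ i → a j = b j)).dist x s ≠
                (SimpleGraph.fromRel (fun a b : Fin n → Fin q =>
                    ∃ i : Fin n, G.Adj (a i) (b i) ∧ ∀ j : Fin n, j ≠ i → a j = b j)).dist y s} : ℕ) : ℝ)
            * Real.logb (q : ℝ) (n : ℝ) / (n : ℝ))
        Filter.atTop (nhds 2)) := by
  have hP : Pool.Agent.H221R3.MD.TaskP :=
    Pool.Agent.H221R3.MD.taskP5 Pool.Agent.H221R3.MD.taskP1 Pool.Agent.H221R3.MD.taskP2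
      Pool.Agent.H221R3.MD.taskP3 Pool.Agent.H221R3.MD.taskP4
  exact Pool.Agent.H823R3.MD.taskH Pool.Agent.H600R3.MDA.taskA Pool.Agent.H744R3.MD.taskB
    Pool.Agent.H116R3.MD.taskC Pool.Agent.Helper25R3.MD.taskD Pool.Agent.H296R3.MD.taskE
    Pool.Agent.H679R3.MD.taskF Pool.Agent.H235R3.MD.taskG hP

end Pool.Agent.S08852
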