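import Pool.Statements.S08892
import Pool.Agent.H96R3.AE.Game
import Pool.Agent.H96R3.AE.NT4

set_option autoImplicit false
open Pool Pool.MP_58cc54_co

namespace Pool.Agent.S08892

/-- The negation of the preceding statement: For every connected graph H with as many edges as vertices, the largest bias b for which Enforcer wins the strict 1:b Avoider-Enforcer H-game on K_n is between c₁·n^{v/(v−1)} and c₂·n^{v/(v−1)} for all large n. -/
theorem result :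
    ¬ (∀ (V : Type) [Fintype V] [DecidableEq V] (H : SimpleGraph V) [DecidableRel H.Adj],
      H.Connected → H.edgeFinset.card = Fintype.card V →
      ∃ c₁ c₂ : ℝ, 0 < c₁ ∧ 0 < c₂ ∧ ∃ n₀ : ℕ, ∀ n : ℕ, n₀ ≤ n →
        (∃ b : ℕ, c₁ * (n : ℝ) ^ ((Fintype.card V : ℝ) / ((Fintype.card V : ℝ) - 1)) ≤ (b : ℝ) ∧
          ∃ S : Set (Finset (Sym2 (Fin n)) × Finset (Sym2 (Fin n))),
            ((∅ : Finset (Sym2 (Fin n))), (∅ : Finset (Sym2 (Fin n)))) ∈ S ∧
            ∀ p ∈ S,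
              ((Finset.univ.filter (fun e : Sym2 (Fin n) => ¬ e.IsDiag)) \ (p.1 ∪ p.2) = ∅ →
                H.IsContained (SimpleGraph.fromEdgeSet (p.1 : Set (Sym2 (Fin n))))) ∧
              ∀ e ∈ (Finset.univ.filter (fun e : Sym2 (Fin n) => ¬ e.IsDiag)) \ (p.1 ∪ p.2),
                ∃ T : Finset (Sym2 (Fin n)),
                  T ⊆ (Finset.univ.filter (fun e : Sym2 (Fin n) => ¬ e.IsDiag)) \ (insert e (p.1 ∪ p.2)) ∧
                  T.card = min b ((Finset.univ.filter (fun e : Sym2 (Fin n) => ¬ e.IsDiag)) \ (insert e (p.1 ∪ p.2))).card ∧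
                  (insert e p.1, p.2 ∪ T) ∈ S) ∧
        (∀ b : ℕ,
          (∃ S : Set (Finset (Sym2 (Fin n)) × Finset (Sym2 (Fin n))),
            ((∅ : Finset (Sym2 (Fin n))), (∅ : Finset (Sym2 (Fin n)))) ∈ S ∧
            ∀ p ∈ S,
              ((Finset.univ.filter (fun e : Sym2 (Fin n) => ¬ e.IsDiag)) \ (p.1 ∪ p.2) = ∅ →
                H.IsContained (SimpleGraph.fromEdgeSet (p.1 : Set (Sym2 (Fin n))))) ∧
              ∀ e ∈ (Finset.univ.filter (fun e : Sym2 (Fin n) => ¬ e.IsDiag)) \ (p.1 ∪ p.2),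
                ∃ T : Finset (Sym2 (Fin n)),
                  T ⊆ (Finset.univ.filter (fun e : Sym2 (Fin n) => ¬ e.IsDiag)) \ (insert e (p.1 ∪ p.2)) ∧
                  T.card = min b ((Finset.univ.filter (fun e : Sym2 (Fin n) => ¬ e.IsDiag)) \ (insert e (p.1 ∪ p.2))).card ∧
                  (insert e p.1, p.2 ∪ T) ∈ S) →
          (b : ℝ) ≤ c₂ * (n : ℝ) ^ ((Fintype.card V : ℝ) / ((Fintype.card V : ℝ) - 1)))) := by
  intro h
  obtain ⟨c₁, c₂, hc1, _, n₀, hn₀⟩ := h (Fin 3) ⊤ (SimpleGraph.connected_top) (by decide)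
  -- constants
  obtain ⟨k, hk⟩ := exists_nat_ge (1 / c₁ ^ 2)
  have hkc : 1 ≤ (k : ℝ) * c₁ ^ 2 := by
    rwa [div_le_iff₀ (by positivity)] at hk
  have hk1 : 1 ≤ k := by
    rcases Nat.eq_zero_or_pos k with h0 | h0
    · rw [h0] at hkc; norm_num at hkc
    · exact h0
  set S0 := k * (k - 1) + 1 with hS0
  obtain ⟨n, hn, hnt⟩ := Pool.Agent.H96R3.AE.nt_lemma (k + 4) S0 (max n₀ (4 * S0 + 4))
    (by omega) (by omega)
  have hn1 : n₀ ≤ n := (le_max_left _ _).trans hn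
  have hn2 : 4 * S0 + 4 ≤ n := (le_max_right _ _).trans hn
  obtain ⟨⟨b, hb, S, hS⟩, _⟩ := hn₀ n hn1
  have hwin : Pool.Agent.H96R3.AE.IsWin n b S := hS
  have hexp : ((Fintype.card (Fin 3) : ℝ) / ((Fintype.card (Fin 3) : ℝ) - 1)) = 3 / 2 := by
    rw [Fintype.card_fin]; norm_num
  rw [hexp] at hb
  have hnpos : (0 : ℝ) < n := by exact_mod_cast (by omega : 0 < n)
  have hcube : n ^ 3 ≤ k * (b + 1) ^ 2 := by
    have h1 : ((n : ℝ) ^ (3 / 2 : ℝ)) ^ 2 = (n : ℝ) ^ 3 := by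
      rw [← Real.rpow_natCast, ← Real.rpow_mul hnpos.le, ← Real.rpow_natCast]
      norm_num
    have h2 : (c₁ * (n : ℝ) ^ (3 / 2 : ℝ)) ^ 2 ≤ (b : ℝ) ^ 2 := by
      have h0 : 0 ≤ c₁ * (n : ℝ) ^ (3 / 2 : ℝ) := by positivity
      gcongr
    rw [mul_pow, h1] at h2
    have h3 : (n : ℝ) ^ 3 ≤ k * (b + 1) ^ 2 := by
      calc (n : ℝ) ^ 3 = 1 * (n : ℝ) ^ 3 := by ring
        _ ≤ (k * c₁ ^ 2) * (n : ℝ) ^ 3 := by gcongr
        _ = k * (c₁ ^ 2 * (n : ℝ) ^ 3) := by ring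
        _ ≤ k * (b : ℝ) ^ 2 := by gcongr
        _ ≤ k * (b + 1) ^ 2 := by gcongr; linarith
    exact_mod_cast h3
  set N := n.choose 2 with hN
  have h2N : 2 * N = n * (n - 1) := by
    rw [hN, Nat.choose_two_right, Nat.mul_div_cancel' (Nat.even_mul_pred_self n).two_dvd]
  obtain ⟨n', rfl⟩ : ∃ n', n = n' + 1 := ⟨n - 1, by omega⟩
  rw [Nat.add_sub_cancel] at h2N
  have hN1 : 1 ≤ N := by
    have : 0 < (n' + 1) * n' := by
      apply Nat.mul_pos <;> omega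
    omega
  set D := b + 1 with hD
  set r := (N - 1) % D + 1 with hr
  set m := (N - 1) / D with hm
  have hND : N = r + m * D := by
    have h1 := Nat.mod_add_div (N - 1) D
    have h2 : m * D = D * ((N - 1) / D) := by rw [hm]; ring
    omega
  have hrD : r ≤ b + 1 := by
    have := Nat.mod_lt (N - 1) (show 0 < D by omega)
    omega
  have hr1 : r ≤ k * (k - 1) := by
    by_contra hlt
    push Not at hlt
    exact Pool.Agent.H96R3.AE.avoider_wins (n' + 1) b k r m hcube hrD hlt hND S hwin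
  have hDn : D ^ 2 < (n' + 1) ^ 3 := by
    by_contra hlt
    push Not at hlt
    exact Pool.Agent.H96R3.AE.avoider_wins (n' + 1) b 1 r m (by rw [one_mul]; exact hlt) hrD
      (by omega) hND S hwin
  have hD0 : 0 < D ^ 2 := by positivity
  refine hnt r m D (by omega) (by omega) hND ?_ ?_
  · -- lower bound for m
    have h1 : (n' + 1) ^ 2 ≤ 4 * (m * D) := by
      have h2 : 4 * (m * D) + 4 * r = 2 * ((n' + 1) * n') := by omega
      have h3 : r ≤ S0 := by omega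
      have h4 : 4 * S0 + 3 ≤ n' := by omega
      nlinarith
    have h2 : ((n' + 1) ^ 2) ^ 2 ≤ (4 * (m * D)) ^ 2 := Nat.pow_le_pow_left h1 2
    have h3 : (n' + 1) * D ^ 2 ≤ (16 * m ^ 2) * D ^ 2 := by
      calc (n' + 1) * D ^ 2 ≤ (n' + 1) * (n' + 1) ^ 3 := Nat.mul_le_mul_left _ hDn.le
        _ = ((n' + 1) ^ 2) ^ 2 := by ring
        _ ≤ (4 * (m * D)) ^ 2 := h2
        _ = (16 * m ^ 2) * D ^ 2 := by ring
    have h4 : n' + 1 ≤ 16 * m ^ 2 := Nat.le_of_mul_le_mul_right h3 hD0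
    have h5 : 16 ≤ (k + 4) ^ 2 := by nlinarith
    exact h4.trans (Nat.mul_le_mul_right _ h5)
  · have h1 : 2 * (m * D) ≤ (n' + 1) ^ 2 := by
      have : (n' + 1) * n' ≤ (n' + 1) ^ 2 := by nlinarith
      omega
    have h2 : (2 * (m * D)) ^ 2 ≤ ((n' + 1) ^ 2) ^ 2 := Nat.pow_le_pow_left h1 2
    have h3 : (4 * m ^ 2) * D ^ 2 ≤ ((n' + 1) * k) * D ^ 2 := by
      calc (4 * m ^ 2) * D ^ 2 = (2 * (m * D)) ^ 2 := by ring
        _ ≤ ((n' + 1) ^ 2) ^ 2 := h2
        _ = (n' + 1) * (n' + 1) ^ 3 := by ring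
        _ ≤ (n' + 1) * (k * D ^ 2) := Nat.mul_le_mul_left _ hcube
        _ = ((n' + 1) * k) * D ^ 2 := by ring
    have h4 : 4 * m ^ 2 ≤ (n' + 1) * k := Nat.le_of_mul_le_mul_right h3 hD0
    have h5 : (n' + 1) * k ≤ (k + 4) ^ 2 * (n' + 1) := by nlinarith
    omega

end Pool.Agent.S08892
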