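import Pool.Statements.S08925
import Pool.Agent.H228R3.BigM

set_option autoImplicit false
open Pool Pool.MP_5a23e6_co

namespace Pool.Agent.S08925

open Finset Matrix Pool.Agent.H228R3

/-- `d` is the determinant of a zero-one matrix of order `N`. -/
def HasDet (N : ℕ) (d : ℤ) : Prop :=
  ∃ (ι : Type) (_ : Fintype ι) (_ : DecidableEq ι), Fintype.card ι = N ∧
    ∃ E : Matrix ι ι ℤ, (∀ i j, E i j = 0 ∨ E i j = 1) ∧ E.det = d

theorem HasDet.pad {N : ℕ} {d : ℤ} (h : HasDet N d) (k : ℕ) : HasDet (N + k) d := by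
  obtain ⟨ι, hι, hd, hcard, E, hE, hdet⟩ := h
  refine ⟨ι ⊕ Fin k, inferInstance, inferInstance, by simp [hcard],
    Matrix.fromBlocks E 0 0 1, ?_, ?_⟩
  · intro i j
    rcases i with i | i <;> rcases j with j | j
    · exact hE i j
    · exact Or.inl rfl
    · exact Or.inl rfl
    · simp only [Matrix.fromBlocks_apply₂₂, Matrix.one_apply]
      split_ifs
      · exact Or.inr rfl
      · exact Or.inl rfl
  · rw [Matrix.det_fromBlocks_zero₁₂, hdet, Matrix.det_one, mul_one]

theorem HasDet.pm {N : ℕ} {d : ℤ} (h : HasDet N d) :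
    ∃ M : Matrix (Fin (N + 1)) (Fin (N + 1)) ℤ,
      (∀ i j, M i j = 1 ∨ M i j = -1) ∧ M.det = 2 ^ N * ((-1) ^ N * d) := by
  obtain ⟨ι, hι, hd, hcard, E, hE, hdet⟩ := h
  set P : Matrix (Unit ⊕ ι) (Unit ⊕ ι) ℤ :=
    Matrix.fromBlocks 1 (Matrix.of fun _ _ => 1) (Matrix.of fun _ _ => 1)
      (Matrix.of fun i j => 1 - 2 * E i j) with hP
  have hP1 : ∀ i j, P i j = 1 ∨ P i j = -1 := by
    intro i j
    rcases i with i | i <;> rcases j with j | j
    · left
      simp [hP]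
    · exact Or.inl rfl
    · exact Or.inl rfl
    · simp only [hP, Matrix.fromBlocks_apply₂₂, Matrix.of_apply]
      rcases hE i j with h | h <;> rw [h] <;> simp
  have hPdet : P.det = 2 ^ N * ((-1) ^ N * d) := by
    rw [hP, Matrix.det_fromBlocks_one₁₁]
    have h1 : (Matrix.of fun i j => 1 - 2 * E i j) -
        (Matrix.of fun (_ : ι) (_ : Unit) => (1 : ℤ)) * (Matrix.of fun (_ : Unit) (_ : ι) => (1 : ℤ))
        = (-2 : ℤ) • E := by
      ext i j
      simp [Matrix.mul_apply]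
    rw [h1, Matrix.det_smul, hcard, hdet, neg_pow]
    ring
  have e : (Unit ⊕ ι) ≃ Fin (N + 1) := Fintype.equivFinOfCardEq (by simp [hcard]; ring)
  refine ⟨Matrix.reindex e e P, fun i j => hP1 _ _, ?_⟩
  rw [Matrix.det_reindex_self, hPdet]

theorem finite_set (n : ℕ) : Set.Finite {d : ℤ | ∃ M : Matrix (Fin n) (Fin n) ℤ,
            (∀ i j, M i j = 1 ∨ M i j = -1) ∧ M.det = 2 ^ (n - 1) * d} := by
  have h1 : Set.Finite {M : Matrix (Fin n) (Fin n) ℤ | ∀ i j, M i j = 1 ∨ M i j = -1} := by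
    have h2 : Set.Finite (Set.pi Set.univ fun _ : Fin n =>
        Set.pi Set.univ fun _ : Fin n => ({1, -1} : Set ℤ)) :=
      Set.Finite.pi fun _ => Set.Finite.pi fun _ => Set.toFinite _
    refine h2.subset ?_
    intro M hM
    simp only [Set.mem_pi, Set.mem_univ, true_implies]
    exact fun i j => hM i j
  refine (h1.image fun M => M.det / 2 ^ (n - 1)).subset ?_
  rintro d ⟨M, hM, hd⟩
  refine ⟨M, hM, ?_⟩
  simp only
  rw [hd, Int.mul_ediv_cancel_left _ (by positivity)]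

theorem nonempty_set (n : ℕ) (hn : 1 ≤ n) : Set.Nonempty {d : ℤ | ∃ M : Matrix (Fin n) (Fin n) ℤ,
            (∀ i j, M i j = 1 ∨ M i j = -1) ∧ M.det = 2 ^ (n - 1) * d} := by
  have h0 : HasDet (n - 1) 1 :=
    ⟨Fin (n - 1), inferInstance, inferInstance, by simp, 1, fun i j => by
      rw [Matrix.one_apply]
      split_ifs
      · exact Or.inr rfl
      · exact Or.inl rfl, Matrix.det_one⟩
  obtain ⟨k, rfl⟩ : ∃ k, n = k + 1 := ⟨n - 1, by omega⟩
  obtain ⟨M, hM, hd⟩ := h0.pm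
  exact ⟨_, M, hM, hd⟩

/-- There is c>0 such that for every n≥1, the number of distinct values det(M)/2^(n-1), over n×n matrices M with all entries ±1, is at least c·2^n. -/
theorem result :
    ∃ c : ℝ, 0 < c ∧ ∀ n : ℕ, 1 ≤ n →
      c * (2 : ℝ) ^ n ≤
        ((Set.ncard {d : ℤ | ∃ M : Matrix (Fin n) (Fin n) ℤ,
            (∀ i j, M i j = 1 ∨ M i j = -1) ∧ M.det = 2 ^ (n - 1) * d}) : ℝ) := by
  refine ⟨1 / 2 ^ 159, by positivity, fun n hn => ?_⟩
  by_cases hsmall : n ≤ 159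
  · have h1 : (1 : ℝ) / 2 ^ 159 * 2 ^ n ≤ 1 := by
      rw [div_mul_eq_mul_div, one_mul, div_le_one (by positivity)]
      exact pow_le_pow_right₀ (by norm_num) hsmall
    refine h1.trans ?_
    have h2 : 0 < Set.ncard {d : ℤ | ∃ M : Matrix (Fin n) (Fin n) ℤ,
            (∀ i j, M i j = 1 ∨ M i j = -1) ∧ M.det = 2 ^ (n - 1) * d} :=
      (Set.ncard_pos (finite_set n)).2 (nonempty_set n hn)
    exact_mod_cast h2
  · rw [not_le] at hsmall
    obtain ⟨L, k, hk, hL, hn2⟩ : ∃ L k : ℕ, k < 158 ∧ 1 ≤ L ∧ n = 158 * L + 1 + k + 1 :=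
      ⟨(n - 2) / 158, (n - 2) % 158, Nat.mod_lt _ (by norm_num), by omega, by omega⟩
    subst hn2
    set F := Nat.fib (23 * L + 2) with hF
    set D := (-1) ^ (158 * L + 1 + k) * (Am (9 * L)).det with hD
    have hD0 : D ≠ 0 := mul_ne_zero (by
      exact pow_ne_zero _ (by norm_num)) (Am_det_ne_zero _)
    set val : (Fin 10 → Fin (F + 1)) → ℤ := fun x =>
      (∑ j : Fin 10, (((x j).val : ℤ) - NN (23 * L + 1)) * (76644 ^ L) ^ j.val) * D with hval
    have hinj : Function.Injective val := by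
      intro x y hxy
      have := value_inj L hL (NN (23 * L + 1)) D hD0 (fun j => (x j).val) (fun j => (y j).val)
        (fun j => by have := (x j).isLt; omega)
        (fun j => by have := (y j).isLt; omega) hxy
      ext j
      exact congrFun this j
    have hmem : Set.range val ⊆ {d : ℤ | ∃ M : Matrix (Fin (158 * L + 1 + k + 1))
            (Fin (158 * L + 1 + k + 1)) ℤ,
            (∀ i j, M i j = 1 ∨ M i j = -1) ∧ M.det = 2 ^ (158 * L + 1 + k + 1 - 1) * d} := by
      rintro _ ⟨x, rfl⟩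
      obtain ⟨M, hM, hMd⟩ := exists_matrix L hL (fun j => (x j).val)
        (fun j => by have := (x j).isLt; omega)
      have h1 : HasDet (158 * L + 1) M.det :=
        ⟨_, inferInstance, inferInstance, by
          simp only [Fintype.card_sum, Fintype.card_fin, Fintype.card_prod]
          ring, M, hM, rfl⟩
      obtain ⟨P, hP, hPd⟩ := (h1.pad k).pm
      refine ⟨P, hP, ?_⟩
      rw [hPd, hMd, Nat.add_sub_cancel]
      simp only [hval, hD]
      ring
    have hcard : (F + 1) ^ 10 ≤ Set.ncard {d : ℤ | ∃ M : Matrix (Fin (158 * L + 1 + k + 1))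
            (Fin (158 * L + 1 + k + 1)) ℤ,
            (∀ i j, M i j = 1 ∨ M i j = -1) ∧ M.det = 2 ^ (158 * L + 1 + k + 1 - 1) * d} := by
      refine le_trans (le_of_eq ?_) (Set.ncard_le_ncard hmem (finite_set _))
      rw [← Set.image_univ, Set.ncard_image_of_injective _ hinj, Set.ncard_univ, Nat.card_eq_fintype_card]
      simp
    have hpow : 2 ^ (158 * L) ≤ (F + 1) ^ 10 := by
      calc 2 ^ (158 * L) = (2 ^ 158) ^ L := by rw [pow_mul]
        _ ≤ (60000 ^ 10) ^ L := Nat.pow_le_pow_left (by norm_num) _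
        _ = (60000 ^ L) ^ 10 := by rw [← pow_mul, ← pow_mul, mul_comm]
        _ ≤ (F + 1) ^ 10 := Nat.pow_le_pow_left ((fib_lower L).trans (by omega)) _
    have h3 : (2 : ℝ) ^ (158 * L) ≤ ((F + 1) ^ 10 : ℕ) := by exact_mod_cast hpow
    have h4 : (1 : ℝ) / 2 ^ 159 * 2 ^ (158 * L + 1 + k + 1) ≤ 2 ^ (158 * L) := by
      rw [div_mul_eq_mul_div, one_mul, div_le_iff₀ (by positivity), ← pow_add]
      exact pow_le_pow_right₀ (by norm_num) (by omega)
    exact h4.trans (h3.trans (by exact_mod_cast hcard))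

end Pool.Agent.S08925
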