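import Pool.Statements.S09012
import Pool.Agent.H798R3.DirRay

set_option autoImplicit false
open Pool Pool.MP_5d26dc_co

namespace Pool.Agent.S09012

/-- The negation of the preceding statement: For every directed graph: if for each finite k it contains k pairwise edge-disjoint directed double rays, then it contains infinitely many (a sequence of) pairwise edge-disjoint directed double rays. -/
theorem result :
    ¬ (∀ (V : Type) (G : Digraph V),
      (∀ k : ℕ, ∃ R : Fin k → ℤ → V,
        (∀ i, Function.Injective (R i)) ∧
        (∀ i n, G.Adj (R i n) (R i (n + 1))) ∧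
        (∀ i j, i ≠ j → ∀ m n : ℤ,
          ¬ (R i m = R j n ∧ R i (m + 1) = R j (n + 1)))) →
      ∃ R : ℕ → ℤ → V,
        (∀ i, Function.Injective (R i)) ∧
        (∀ i n, G.Adj (R i n) (R i (n + 1))) ∧
        (∀ i j, i ≠ j → ∀ m n : ℤ,
          ¬ (R i m = R j n ∧ R i (m + 1) = R j (n + 1)))) := by
  exact Pool.Agent.H798R3.DirRay.main

end Pool.Agent.S09012
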