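import Pool.Statements.S09015
import Pool.Agent.H445R3.PK6

set_option autoImplicit false
open Pool Pool.MP_5d54aa_co

namespace Pool.Agent.S09015

/-- For every tree on n ≥ 3 vertices, with d_k = ∣coeff of x^k in det(D − xI)∣ / 2^(n−k−2), some index k ≤ n−2 where d_k is maximal satisfies ⌊n/2⌋ ≤ k ≤ ⌈(1−1/√5)n⌉. -/
theorem result :
    ∀ (V : Type) [Fintype V] [DecidableEq V] (G : SimpleGraph V),
      G.IsTree → 3 ≤ Fintype.card V →
      ∀ d : ℕ → ℝ,
        (∀ k : ℕ, d k =
          (((|(Matrix.of fun i j : V => (G.dist i j : ℤ)).charpoly.coeff k|) : ℤ) : ℝ)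
            / (2 : ℝ) ^ (Fintype.card V - k - 2)) →
        ∃ k : ℕ, k ≤ Fintype.card V - 2 ∧
          (∀ j : ℕ, j ≤ Fintype.card V - 2 → d j ≤ d k) ∧
          Fintype.card V / 2 ≤ k ∧
          k ≤ ⌈(1 - 1 / Real.sqrt 5) * (Fintype.card V : ℝ)⌉₊ := by
  intro V _ _ G hG hN d hd
  obtain ⟨n, hn⟩ : ∃ n, Fintype.card V = n + 2 := ⟨Fintype.card V - 2, by omega⟩
  have hn1 : 1 ≤ n := by omega
  obtain ⟨t, e, he⟩ := H445R3.PK.exists_rep (n + 1) V G hG (by omega)
  have hte : t.e = n + 1 := by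
    have h1 := Fintype.card_congr e
    rw [hn, H445R3.PK.card_VV] at h1
    omega
  obtain ⟨κ, hκ, hco⟩ := H445R3.PK.charpoly_coeff t (by omega)
  -- transfer the characteristic polynomial
  have htrans : ∀ k, (((Matrix.of fun i j : V => (G.dist i j : ℤ)).charpoly.coeff k : ℤ) : ℝ)
      = (Matrix.of fun u v : H445R3.PK.VV t => (H445R3.PK.dst t u v : ℝ)).charpoly.coeff k := by
    intro k
    have h1 : (Matrix.of fun u v : H445R3.PK.VV t => (H445R3.PK.dst t u v : ℝ))
        = Matrix.reindex e e ((Matrix.of fun i j : V => (G.dist i j : ℤ)).map (Int.castRingHom ℝ)) := by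
      ext u v
      simp [he]
    rw [h1, Matrix.charpoly_reindex, Matrix.charpoly_map, Polynomial.coeff_map]
    simp
  set P := H445R3.PK.PP t with hP
  have hPnn : ∀ k, k ≤ n → 0 ≤ P.coeff k := fun k hk => H445R3.PK.PP_coeff_nonneg n t hte k hk
  set c : ℝ := |κ| / 2 ^ n with hc
  have hc0 : 0 < c := by
    have := abs_pos.mpr hκ
    positivity
  have hdk : ∀ k, k ≤ n → d k = c * P.coeff k := by
    intro k hk
    rw [hd, hn, Int.cast_abs, htrans]
    have h2 := hco k
    have h3 : (n + 2 - k - 2) = n - k := by omega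
    rw [h3]
    have h4 : |(Matrix.of fun u v : H445R3.PK.VV t => (H445R3.PK.dst t u v : ℝ)).charpoly.coeff k| * 2 ^ k
        = |κ| * P.coeff k := by
      have := congrArg abs h2
      rw [abs_mul, abs_mul, abs_of_nonneg (hPnn k hk), abs_of_pos (by positivity : (0 : ℝ) < 2 ^ k)] at this
      exact this
    have h5 : (2 : ℝ) ^ n = 2 ^ (n - k) * 2 ^ k := by rw [← pow_add]; congr 1; omega
    rw [hc, h5]
    field_simp
    linarith
  set K : ℕ := ⌈(1 - 1 / Real.sqrt 5) * (Fintype.card V : ℝ)⌉₊ with hK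
  have hKle : (1 - 1 / Real.sqrt 5) * ((n : ℝ) + 2) ≤ K := by
    have h1 := Nat.le_ceil ((1 - 1 / Real.sqrt 5) * (Fintype.card V : ℝ))
    rw [← hK, hn] at h1
    push_cast at h1
    exact h1
  have hK2 : (n + 2) / 2 ≤ K := by
    have h1 := H445R3.PK.s5a
    have h2 : 1 / Real.sqrt 5 ≤ 1 / 2 := by
      apply one_div_le_one_div_of_le (by norm_num); linarith
    have h3 : ((n : ℝ) + 2) / 2 ≤ K := by
      have : (0 : ℝ) ≤ (n : ℝ) + 2 := by positivity
      nlinarith
    have h4 : (((n + 2) / 2 : ℕ) : ℝ) ≤ ((n + 2 : ℕ) : ℝ) / 2 := Nat.cast_div_le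
    have h5 : (((n + 2) / 2 : ℕ) : ℝ) ≤ K := by
      push_cast at h4 ⊢
      exact h4.trans h3
    exact_mod_cast h5
  -- monotone up to (n+2)/2
  have hlow : ∀ m, m ≤ (n + 2) / 2 → ∀ j, j ≤ m → P.coeff j ≤ P.coeff m := by
    intro m
    induction m with
    | zero => intro _ j hj; rw [Nat.le_zero.mp hj]
    | succ m ih =>
      intro hm j hj
      rcases Nat.lt_or_ge m j with h | h
      · have : j = m + 1 := by omega
        rw [this]
      · have h1 := ih (by omega) j h
        have h2 := H445R3.PK.PP_lower n hn1 t hte m (by omega)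
        exact h1.trans h2
  -- antitone from K on
  have hup : ∀ i, K + i ≤ n → P.coeff (K + i) ≤ P.coeff K := by
    intro i
    induction i with
    | zero => intro _; exact le_rfl
    | succ i ih =>
      intro hi
      have h1 := ih (by omega)
      have h2 := H445R3.PK.PP_upper n t hte (K + i) (by omega)
        (hKle.trans (by push_cast; linarith [Nat.cast_nonneg (α := ℝ) i]))
      exact h2.trans h1
  obtain ⟨k, hkS, hkmax⟩ := Finset.exists_max_image (Finset.Icc ((n + 2) / 2) (min K n))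
    (fun k => P.coeff k) ⟨(n + 2) / 2, by rw [Finset.mem_Icc]; exact ⟨le_rfl, by
      rw [le_min_iff]; exact ⟨hK2, by omega⟩⟩⟩
  rw [Finset.mem_Icc, le_min_iff] at hkS
  obtain ⟨hk1, hk2, hk3⟩ := hkS
  refine ⟨k, by omega, ?_, by omega, hk2⟩
  intro j hj
  have hj' : j ≤ n := by omega
  rw [hdk j hj', hdk k hk3]
  refine mul_le_mul_of_nonneg_left ?_ hc0.le
  rcases Nat.lt_or_ge j ((n + 2) / 2) with h | h
  · exact (hlow _ le_rfl j h.le).trans (hkmax _ (by
      rw [Finset.mem_Icc, le_min_iff]; exact ⟨le_rfl, hK2, by omega⟩))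
  · rcases Nat.lt_or_ge K j with h' | h'
    · have h1 := hup (j - K) (by omega)
      rw [show K + (j - K) = j by omega] at h1
      exact h1.trans (hkmax K (by
        rw [Finset.mem_Icc, le_min_iff]; exact ⟨hK2, le_rfl, by omega⟩))
    · exact hkmax j (by rw [Finset.mem_Icc, le_min_iff]; exact ⟨h, h', hj'⟩)

end Pool.Agent.S09015
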