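import Pool.Statements.S09051
import Pool.Agent.H112R3.TA.PnC
import Pool.Agent.H112R3.TA.SimMain

set_option autoImplicit false
open Pool Pool.MP_5f0bce_co

namespace Pool.Agent.S09051

/-- For each n ≥ 1 there is k such that every finite graph with no induced n-vertex path and no induced K_{n,n} has a tree decomposition all of whose bags have independence number at most k. -/
theorem result :
    ∀ n : ℕ, 0 < n → ∃ k : ℕ, ∀ (V : Type) [Fintype V] (G : SimpleGraph V),
      ¬ (SimpleGraph.pathGraph n).IsIndContained G →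
      ¬ (completeBipartiteGraph (Fin n) (Fin n)).IsIndContained G →
      ∃ (m : ℕ) (T : SimpleGraph (Fin m)) (B : Fin m → Finset V),
        T.IsTree ∧
        (∀ v : V, ∃ t : Fin m, v ∈ B t) ∧
        (∀ u v : V, G.Adj u v → ∃ t : Fin m, u ∈ B t ∧ v ∈ B t) ∧
        (∀ v : V, ∀ s t : Fin m, v ∈ B s → v ∈ B t →
          ∃ p : T.Walk s t, ∀ x ∈ p.support, v ∈ B x) ∧
        (∀ t : Fin m, ∀ S : Finset V, S ⊆ B t → G.IsIndepSet (S : Set V) → S.card ≤ k) := by
  intro n hn
  refine ⟨Pool.Agent.H112R3.TA.pK n n * (2 * Pool.Agent.H112R3.TA.pC n n + 1) +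
    Pool.Agent.H112R3.TA.pC n n, ?_⟩
  intro V _ G hP hK
  classical
  have h1 : Pool.Agent.H112R3.TA.KF G n := by
    apply Pool.Agent.H112R3.TA.KF_of_not_exists
    rintro ⟨f, hf, hf'⟩
    exact hK ⟨⟨⟨f, hf⟩, fun {x y} => hf' x y⟩⟩
  have h2 : Pool.Agent.H112R3.TA.NP G n := by
    rintro ⟨f, hf⟩
    apply hP
    have hinj : Function.Injective (fun i : Fin n => f i.val) := by
      intro i j hij
      by_contra hne
      rcases lt_or_gt_of_ne (fun h => hne (Fin.ext h)) with h | h
      · exact (hf i.val j.val h j.isLt).2 hij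
      · exact (hf j.val i.val h i.isLt).2 hij.symm
    have hadj : ∀ i j : Fin n, G.Adj (f i.val) (f j.val) ↔ (SimpleGraph.pathGraph n).Adj i j := by
      intro i j
      rw [SimpleGraph.pathGraph_adj]
      rcases lt_trichotomy i.val j.val with h | h | h
      · rw [(hf i.val j.val h j.isLt).1]
        omega
      · rw [h]
        simp
      · rw [G.adj_comm, (hf j.val i.val h i.isLt).1]
        omega
    exact ⟨⟨⟨fun i => f i.val, hinj⟩, fun {i j} => hadj i j⟩⟩
  obtain ⟨r, par, B, hB⟩ := Pool.Agent.H112R3.TA.pn_main hn hn h1 h2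
  obtain ⟨g1, g2, g3, g4, g5⟩ := hB.exists_tree
  exact ⟨r, Pool.Agent.H112R3.TA.parTree r par, fun i => B i, g1, g2, g3, g4, g5⟩

end Pool.Agent.S09051
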