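import Pool.Statements.S09060
import Pool.Agent.H36R3.UMix

set_option autoImplicit false
open Pool Pool.MP_5f1df6_co

namespace Pool.Agent.S09060

open Pool.Agent.H36R3.UMix in
/-- The negation of the preceding statement: For any Cayley graph on (Z/qZ)^d with symmetric connection set avoiding 0, if at some time all entries of exp(-itA) (written via characters) have equal modulus, then every eigenvalue (sum of a character over the connection set) is an integer. -/
theorem result :
    ¬ (∀ (q d : ℕ) [NeZero q] (C : Finset (Fin d → ZMod q)),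
      (0 : Fin d → ZMod q) ∉ C →
      (∀ c ∈ C, -c ∈ C) →
      (∃ t : ℝ, ∀ a b : Fin d → ZMod q,
        ‖∑ y : Fin d → ZMod q,
            Complex.exp (-(Complex.I * (t : ℂ) *
              ∑ c ∈ C, Complex.exp (2 * (Real.pi : ℂ) * Complex.I *
                (((∑ j, c j * y j : ZMod q).val : ℕ) : ℂ) / (q : ℂ)))) *
            Complex.exp (2 * (Real.pi : ℂ) * Complex.I *
              (((∑ j, (a - b) j * y j : ZMod q).val : ℕ) : ℂ) / (q : ℂ))‖ =
        ‖∑ y : Fin d → ZMod q,
            Complex.exp (-(Complex.I * (t : ℂ) *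
              ∑ c ∈ C, Complex.exp (2 * (Real.pi : ℂ) * Complex.I *
                (((∑ j, c j * y j : ZMod q).val : ℕ) : ℂ) / (q : ℂ))))‖) →
      ∀ y : Fin d → ZMod q, ∃ k : ℤ,
        ∑ c ∈ C, Complex.exp (2 * (Real.pi : ℂ) * Complex.I *
          (((∑ j, c j * y j : ZMod q).val : ℕ) : ℂ) / (q : ℂ)) = (k : ℂ)) := by
  intro H
  have hsum : ∀ y : G, ∑ c ∈ C, Complex.exp (2 * (Real.pi : ℂ) * Complex.I *
      (((∑ j, c j * y j : ZMod 5).val : ℕ) : ℂ) / ((5 : ℕ) : ℂ)) = lam y := fun y =>
    Finset.sum_congr rfl fun c _ => e_eq _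
  have h0 : (0 : G) ∉ C := by
    intro h
    rcases Finset.mem_union.1 h with h | h
    · exact (mem_C1 h).1 rfl
    · rcases Finset.mem_union.1 h with h | h
      · exact (mem_C2 h).2 rfl
      · rcases Finset.mem_union.1 h with h | h
        · exact (mem_C3 h).1 rfl
        · revert h; decide
  have hneg : ∀ c ∈ C, -c ∈ C := by
    intro c h
    rcases Finset.mem_union.1 h with h | h
    · obtain ⟨⟨s, v⟩, hq, rfl⟩ := Finset.mem_image.1 h
      obtain ⟨h1, h2⟩ := Finset.mem_product.1 hq
      refine Finset.mem_union_left _ (Finset.mem_image.2 ⟨(-s, v), Finset.mem_product.2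
        ⟨?_, h2⟩, ?_⟩)
      · have := (Finset.mem_filter.1 h1).2
        exact Finset.mem_filter.2 ⟨Finset.mem_univ _, neg_ne_zero.2 this⟩
      · funext i
        fin_cases i <;> simp [f1]
    · rcases Finset.mem_union.1 h with h | h
      · obtain ⟨⟨s, v⟩, hq, rfl⟩ := Finset.mem_image.1 h
        obtain ⟨h1, h2⟩ := Finset.mem_product.1 hq
        refine Finset.mem_union_right _ (Finset.mem_union_left _ (Finset.mem_image.2
          ⟨(-s, v), Finset.mem_product.2 ⟨?_, h2⟩, ?_⟩))
        · have := (Finset.mem_filter.1 h1).2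
          exact Finset.mem_filter.2 ⟨Finset.mem_univ _, neg_ne_zero.2 this⟩
        · funext i
          fin_cases i <;> simp [f2]
      · rcases Finset.mem_union.1 h with h | h
        · obtain ⟨⟨s, v⟩, hq, rfl⟩ := Finset.mem_image.1 h
          obtain ⟨h1, h2⟩ := Finset.mem_product.1 hq
          refine Finset.mem_union_right _ (Finset.mem_union_right _ (Finset.mem_union_left _
            (Finset.mem_image.2 ⟨(-s, v), Finset.mem_product.2 ⟨?_, h2⟩, ?_⟩)))
          · have := (Finset.mem_filter.1 h1).2
            exact Finset.mem_filter.2 ⟨Finset.mem_univ _, neg_ne_zero.2 this⟩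
          · funext i
            fin_cases i <;> simp [f3]
        · refine Finset.mem_union_right _ (Finset.mem_union_right _
            (Finset.mem_union_right _ ?_))
          simp only [C4, Finset.mem_insert, Finset.mem_singleton] at h ⊢
          rcases h with rfl | rfl
          · right; decide
          · left; decide
  have key := H 5 4 C h0 hneg ⟨-(2 * Real.pi / 25), ?_⟩ (![0, 0, 1, 0] : G)
  · obtain ⟨k, hk⟩ := key
    rw [hsum, lam_eq] at hk
    refine golden ⟨k - (5 * (N ![0, 0, 1, 0] : ℤ) - 30), ?_⟩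
    have e2 : (![0, 0, 1, 0] : G) 2 = 1 := rfl
    rw [e2] at hk
    push_cast
    linear_combination hk
  · intro a b
    simp_rw [hsum]
    have h1 := flat (a - b)
    have h2 := flat 0
    have h3 : ∀ u y : G, Complex.exp (2 * (Real.pi : ℂ) * Complex.I *
      (((∑ j, u j * y j : ZMod 5).val : ℕ) : ℂ) / ((5 : ℕ) : ℂ)) = e (∑ j, u j * y j) :=
      fun u y => e_eq _
    simp_rw [h3]
    rw [h1]
    simp only [Pi.zero_apply, zero_mul, Finset.sum_const_zero, AddChar.map_zero_eq_one,
      mul_one] at h2
    rw [h2]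

end Pool.Agent.S09060
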