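import Pool.Statements.S09124
import Pool.Agent.H386R3.SepDim.Main

set_option autoImplicit false
open Pool Pool.MP_6142e4_co

namespace Pool.Agent.S09124

/-- The negation of the preceding statement: There is a constant c such that for every finite graph G, any d vertex orderings separating every pair of disjoint edges satisfy d ≥ log₂ χ(G) − c, i.e. separation dimension ≥ log₂ χ(G) − c. -/
theorem result :
    ¬ (∃ c : ℝ, ∀ (n : ℕ) (G : SimpleGraph (Fin n)) (d : ℕ),
      (∃ f : Fin d → Fin n → ℝ,
        ∀ a b x y : Fin n, G.Adj a b → G.Adj x y →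
          a ≠ x → a ≠ y → b ≠ x → b ≠ y →
          ∃ i : Fin d,
            max (f i a) (f i b) < min (f i x) (f i y) ∨
            max (f i x) (f i y) < min (f i a) (f i b)) →
      Real.logb 2 (G.chromaticNumber.toNat : ℝ) - c ≤ (d : ℝ)) := by
  classical
  rintro ⟨c, hc⟩
  obtain ⟨k, hk⟩ := exists_nat_gt ((2 : ℝ) ^ (4 + c))
  obtain ⟨V, hV, G, f₀, f₁, f₂, f₃, hG, hcol⟩ := Pool.Agent.H386R3.SepDim.exists_good k
  let e := Fintype.equivFin V
  let G' : SimpleGraph (Fin (Fintype.card V)) := G.comap e.symm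
  have hcol' : ¬ G'.Colorable k := by
    intro h
    apply hcol
    obtain ⟨C⟩ := h
    exact ⟨SimpleGraph.Coloring.mk (fun v => C (e v)) (by
      intro v w hvw
      refine C.valid ?_
      simp only [G', SimpleGraph.comap_adj, Equiv.symm_apply_apply]
      exact hvw)⟩
  have hlt : k < G'.chromaticNumber.toNat := by
    by_contra hle
    push Not at hle
    apply hcol'
    have hfin : G'.chromaticNumber ≠ ⊤ := by
      rw [SimpleGraph.chromaticNumber_ne_top_iff_exists]
      exact ⟨_, G'.colorable_of_fintype⟩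
    rw [← SimpleGraph.chromaticNumber_le_iff_colorable]
    rw [← ENat.natCast_toNat hfin]
    exact_mod_cast hle
  have h := hc _ G' 4 ⟨![fun v => (f₀ (e.symm v) : ℝ), fun v => (f₁ (e.symm v) : ℝ),
    fun v => (f₂ (e.symm v) : ℝ), fun v => (f₃ (e.symm v) : ℝ)], ?_⟩
  · have h1 : (2 : ℝ) ^ (4 + c) < (G'.chromaticNumber.toNat : ℝ) := by
      refine hk.trans ?_
      exact_mod_cast hlt
    have h2 := Real.logb_lt_logb (b := 2) (by norm_num) (by positivity) h1
    rw [Real.logb_rpow (by norm_num) (by norm_num)] at h2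
    push_cast at h
    linarith
  · intro a b x y hab hxy h1 h2 h3 h4
    have hs := hG.sep (e.symm a) (e.symm b) (e.symm x) (e.symm y) hab hxy
      (fun h => h1 (e.symm.injective h)) (fun h => h2 (e.symm.injective h))
      (fun h => h3 (e.symm.injective h)) (fun h => h4 (e.symm.injective h))
    have key : ∀ g : V → ℕ, Pool.Agent.H386R3.SepDim.Sep g (e.symm a) (e.symm b) (e.symm x)
        (e.symm y) →
        max (g (e.symm a) : ℝ) (g (e.symm b)) < min (g (e.symm x) : ℝ) (g (e.symm y)) ∨
        max (g (e.symm x) : ℝ) (g (e.symm y)) < min (g (e.symm a) : ℝ) (g (e.symm b)) := by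
      intro g hg
      simp only [max_lt_iff, lt_min_iff, Nat.cast_lt]
      unfold Pool.Agent.H386R3.SepDim.Sep at hg
      omega
    rcases hs with hs | hs | hs | hs
    · exact ⟨0, key _ hs⟩
    · exact ⟨1, key _ hs⟩
    · exact ⟨2, key _ hs⟩
    · exact ⟨3, key _ hs⟩

end Pool.Agent.S09124
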