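import Pool.Statements.S09202
import Pool.Agent.H107R3.StarFinal

set_option autoImplicit false
open Classical
open Pool Pool.MP_640286_co

namespace Pool.Agent.S09202

/-- The negation of the preceding statement: For every connected graph H with at least two vertices, the maximum over proper labelings f of 1-1/λ(T_f)^2 is exactly the critical edge density: blow-ups with all densities above it contain H transversally, and below it some blow-up avoids H. -/
theorem result :
    ¬ (∀ n : ℕ, ∀ H : SimpleGraph (Fin (n+2)), H.Connected →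
    ∃ B : ℝ,
      B = sSup {β : ℝ | ∃ f : Equiv.Perm (Fin (n+2)),
        (∀ k : Fin (n+2), (H.induce {v | f.symm v ≤ k}).Connected) ∧
        ∃ P : Finset (Finset (Fin (n+2))),
          P = Finset.univ.filter (fun S : Finset (Fin (n+2)) => (0 : Fin (n+2)) ∈ S ∧
                ∀ a ∈ S, ∀ b ∈ S, a < b → (∀ c ∈ S, ¬ (a < c ∧ c < b)) → H.Adj (f a) (f b)) ∧
          β = 1 - ((sSup {q : ℝ | ∃ x : Finset (Fin (n+2)) → ℝ,
                (∑ S ∈ P, x S ^ 2) = 1 ∧
                q = ∑ S ∈ P, ∑ T ∈ P,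
                  (if ((∃ m : Fin (n+2), m ∉ S ∧ (∀ a ∈ S, a < m) ∧ T = insert m S) ∨
                       (∃ m : Fin (n+2), m ∉ T ∧ (∀ a ∈ T, a < m) ∧ S = insert m T))
                   then x S * x T else 0)}) ^ 2)⁻¹} ∧
      (∀ m : ℕ, ∀ π : Fin m → Fin (n+2), ∀ G : SimpleGraph (Fin m),
        Function.Surjective π →
        (∀ x y, G.Adj x y → H.Adj (π x) (π y)) →
        (∀ i j, H.Adj i j →
          B < (Nat.card {p : Fin m × Fin m // π p.1 = i ∧ π p.2 = j ∧ G.Adj p.1 p.2} : ℝ) /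
            ((Nat.card {x : Fin m // π x = i} : ℝ) * (Nat.card {x : Fin m // π x = j} : ℝ))) →
        ∃ a : Fin (n+2) → Fin m, (∀ i, π (a i) = i) ∧ ∀ i j, H.Adj i j → G.Adj (a i) (a j)) ∧
      (∀ d : ℝ, d < B →
        ∃ m : ℕ, ∃ π : Fin m → Fin (n+2), ∃ G : SimpleGraph (Fin m),
          Function.Surjective π ∧
          (∀ x y, G.Adj x y → H.Adj (π x) (π y)) ∧
          (∀ i j, H.Adj i j →
            d < (Nat.card {p : Fin m × Fin m // π p.1 = i ∧ π p.2 = j ∧ G.Adj p.1 p.2} : ℝ) /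
              ((Nat.card {x : Fin m // π x = i} : ℝ) * (Nat.card {x : Fin m // π x = j} : ℝ))) ∧
          ¬ ∃ a : Fin (n+2) → Fin m, (∀ i, π (a i) = i) ∧ ∀ i j, H.Adj i j → G.Adj (a i) (a j))) := by
  intro hall
  obtain ⟨B, hB, hforce, _⟩ := hall 43 Pool.Agent.H107R3.Star.HH Pool.Agent.H107R3.Star.HH_conn
  have hle := Pool.Agent.H107R3.Star.B_le Pool.Agent.H107R3.Star.HH (399/100) (by norm_num)
    (by norm_num) Pool.Agent.H107R3.Star.HH_rho
  rw [← hB] at hle
  have hlt : B < 15/16 := lt_of_le_of_lt hle (by norm_num)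
  obtain ⟨a, ha1, ha2⟩ := hforce ((43+2)*16) (fun x => (Pool.Agent.H107R3.Star.dd x).1)
    Pool.Agent.H107R3.Star.GG
    (by
      intro i
      exact ⟨Pool.Agent.H107R3.Star.dd.symm (i, 0), by simp⟩)
    (by
      intro x y h
      exact h.1)
    (by
      intro i j hij
      rw [Pool.Agent.H107R3.Star.card_pairs i j hij, Pool.Agent.H107R3.Star.card_cluster i,
        Pool.Agent.H107R3.Star.card_cluster j]
      refine lt_of_lt_of_le hlt ?_
      norm_num)
  apply Pool.Agent.H107R3.Star.no_transversal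
    (fun v => (Pool.Agent.H107R3.Star.dd (a (Pool.Agent.H107R3.Star.ee.symm v))).2)
  intro u v huv
  have h1 : Pool.Agent.H107R3.Star.HH.Adj (Pool.Agent.H107R3.Star.ee.symm u)
      (Pool.Agent.H107R3.Star.ee.symm v) := by
    rw [Pool.Agent.H107R3.Star.HH_adj, Equiv.apply_symm_apply, Equiv.apply_symm_apply]
    exact huv
  have h2 := (ha2 _ _ h1).2
  have e1 := ha1 (Pool.Agent.H107R3.Star.ee.symm u)
  have e2 := ha1 (Pool.Agent.H107R3.Star.ee.symm v)
  rw [e1, e2, Equiv.apply_symm_apply, Equiv.apply_symm_apply] at h2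
  exact h2

end Pool.Agent.S09202
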