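import Pool.Statements.S09226
import Pool.Agent.H325R3.Cyc11

set_option autoImplicit false
open Pool Pool.MP_659ca2_co

namespace Pool.Agent.S09226

open Pool.Agent.H325R3.Cyc11

/-- `k`-critical, in the form used by the frozen statement -/
def Crit (k : ℕ) {V : Type} (H : SimpleGraph V) : Prop :=
  H.Colorable k ∧ ¬ H.Colorable (k - 1) ∧
    (∀ e ∈ H.edgeSet, (H.deleteEdges {e}).Colorable (k - 1)) ∧ ∀ x, ∃ y, H.Adj x y

/-- the frozen statement applies `Sym2.mk` to one pair, that is, it compares functions -/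
lemma mk_inj {α : Type} {a b : α} (h : Sym2.mk a = Sym2.mk b) : a = b := by
  have h1 := congrFun h a
  rw [Sym2.eq_iff] at h1
  rcases h1 with ⟨h1, -⟩ | ⟨-, h1⟩
  · exact h1
  · exact h1

lemma crit_G0 : Crit 6 G0 := ⟨col6, not_col5, del_col, no_isol⟩

lemma crit_K6 : Crit 6 (⊤ : SimpleGraph (Fin 6)) := by
  refine ⟨?_, ?_, ?_, ?_⟩
  · exact ⟨SimpleGraph.Coloring.mk id (fun {a b} h => h)⟩
  · intro h
    obtain ⟨c⟩ := h
    have hinj : Function.Injective c := by
      intro a b hab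
      by_contra hne
      exact c.valid (v := a) (w := b) hne hab
    have := Fintype.card_le_of_injective c hinj
    simp at this
  · intro e
    induction e using Sym2.ind with
    | _ a b =>
      intro he
      have hab : a ≠ b := he
      have h : ∀ a b : Fin 6, a ≠ b → ∃ c : Fin 6 → Fin 5, ∀ x y : Fin 6, x ≠ y → c x = c y →
          (x = a ∧ y = b) ∨ (x = b ∧ y = a) := by
        intro a b hab
        obtain ⟨g⟩ : Nonempty ({x : Fin 6 // x ≠ a} ≃ Fin 5) := by
          apply Fintype.card_eq.1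
          simp
        refine ⟨fun x => if h : x = a then g ⟨b, hab.symm⟩ else g ⟨x, h⟩, ?_⟩
        intro x y hxy hc
        by_cases hx : x = a
        · have hy : y ≠ a := fun h => hxy (hx.trans h.symm)
          left
          refine ⟨hx, ?_⟩
          simp only [dif_pos hx, dif_neg hy] at hc
          have := g.injective hc
          exact (congrArg Subtype.val this).symm
        · by_cases hy : y = a
          · right
            simp only [dif_neg hx, dif_pos hy] at hc
            have := g.injective hc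
            exact ⟨congrArg Subtype.val this, hy⟩
          · simp only [dif_neg hx, dif_neg hy] at hc
            have := g.injective hc
            exact absurd (congrArg Subtype.val this) hxy
      obtain ⟨c, hc⟩ := h a b hab
      refine ⟨SimpleGraph.Coloring.mk c ?_⟩
      intro x y hxy hcxy
      rw [SimpleGraph.deleteEdges_adj, Set.mem_singleton_iff] at hxy
      apply hxy.2
      rcases hc x y hxy.1.ne hcxy with ⟨rfl, rfl⟩ | ⟨rfl, rfl⟩
      · rfl
      · exact Sym2.eq_swap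
  · intro x
    obtain ⟨y, hy⟩ := exists_ne x
    exact ⟨y, hy.symm⟩

/-- in a critical graph no neighbourhood is contained in the neighbourhood of another vertex -/
lemma nbr_not_sub {V : Type} {G : SimpleGraph V} (hG : Crit 6 G) (u v : V) (huv : u ≠ v)
    (h : ∀ y, G.Adj u y → G.Adj v y) : False := by
  classical
  obtain ⟨y0, hy0⟩ := hG.2.2.2 u
  obtain ⟨c⟩ := hG.2.2.1 s(u, y0) hy0
  apply hG.2.1
  have key : ∀ x y, x ≠ u → y ≠ u → G.Adj x y → c x ≠ c y := by
    intro x y hx hy hxy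
    apply c.valid
    rw [SimpleGraph.deleteEdges_adj, Set.mem_singleton_iff]
    refine ⟨hxy, ?_⟩
    intro he
    rw [Sym2.eq_iff] at he
    rcases he with ⟨h1, -⟩ | ⟨-, h1⟩
    · exact hx h1
    · exact hy h1
  refine ⟨SimpleGraph.Coloring.mk (fun x => if x = u then c v else c x) ?_⟩
  intro x y hxy
  by_cases hx : x = u
  · subst hx
    have hyx : y ≠ x := hxy.ne'
    simp only [if_true, if_neg hyx]
    exact key v y huv.symm hyx (h y hxy)
  · by_cases hy : y = u
    · subst hy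
      simp only [if_true, if_neg hx]
      exact (key v x huv.symm hx (h x hxy.symm)).symm
    · simp only [if_neg hx, if_neg hy]
      exact key x y hx hy hxy

/-- `G0` does not arise from a critical graph by identifying two non-adjacent vertices -/
lemma no_ident {n : ℕ} {G : SimpleGraph (Fin n)} (hG : Crit 6 G) (u v : Fin n)
    (g : Fin n → Fin 11) (huv : u ≠ v) (hnadj : ¬ G.Adj u v)
    (hg : ∀ x y, g x = g y ↔ (x = y ∨ (x = u ∧ y = v) ∨ (x = v ∧ y = u)))
    (hadj : ∀ p q, G0.Adj p q ↔ ∃ x y, G.Adj x y ∧ g x = p ∧ g y = q) : False := by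
  classical
  have hguv : g u = g v := (hg u v).2 (Or.inr (Or.inl ⟨rfl, rfl⟩))
  -- for `s ∈ {u, v}` with partner `t`: some neighbour of `g s` is not seen from `t`
  have claim : ∀ s t : Fin n, s ≠ t → ¬ G.Adj t s →
      (∀ x y, g x = g y → (x = y ∨ (x = s ∧ y = t) ∨ (x = t ∧ y = s))) →
      g s = g t → ∃ a, G0.Adj (g s) a ∧ ∀ x, G.Adj t x → g x ≠ a := by
    intro s t hst hn h1 h2
    by_contra hcon
    push Not at hcon
    refine nbr_not_sub hG s t hst ?_
    intro y hy
    obtain ⟨x, hx, hxy⟩ := hcon (g y) ((hadj _ _).2 ⟨s, y, hy, rfl, rfl⟩)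
    rcases h1 x y hxy with rfl | ⟨rfl, rfl⟩ | ⟨rfl, rfl⟩
    · exact hx
    · exact absurd hx hn
    · exact absurd hx (G.loopless.irrefl _)
  obtain ⟨a, ha, ha'⟩ := claim u v huv (fun h => hnadj h.symm) (fun x y h => (hg x y).1 h) hguv
  obtain ⟨b, hb, hb'⟩ := claim v u huv.symm hnadj (fun x y h => by
    rcases (hg x y).1 h with h | h | h
    · exact Or.inl h
    · exact Or.inr (Or.inr h)
    · exact Or.inr (Or.inl h)) hguv.symm
  rw [← hguv] at hb
  -- `a` is seen from `u`
  have hab : a ≠ b := by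
    obtain ⟨x, y, hxy, hx, hy⟩ := (hadj _ _).1 ha
    rcases (hg x u).1 hx with rfl | ⟨rfl, -⟩ | ⟨rfl, -⟩
    · intro h
      exact hb' y hxy (hy.trans h)
    · intro h
      exact hb' y hxy (hy.trans h)
    · exact absurd hy (ha' y hxy)
  obtain ⟨c, h1, h2, h3⟩ := exists_col (g u) a b ha hb hab
  apply hG.2.1
  refine ⟨SimpleGraph.Coloring.mk
    (fun x => if x = u then c b else if x = v then c a else c (g x)) ?_⟩
  have hgu : ∀ x, x ≠ u → x ≠ v → g x ≠ g u := by
    intro x hx hxv h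
    rcases (hg x u).1 h with h | ⟨h, -⟩ | ⟨h, -⟩
    · exact hx h
    · exact hx h
    · exact hxv h
  have main : ∀ x y, G.Adj x y → x ≠ v → y ≠ u →
      (if x = u then c b else if x = v then c a else c (g x)) ≠
      (if y = u then c b else if y = v then c a else c (g y)) := by
    intro x y hxy hxv hyu
    by_cases hx : x = u
    · subst hx
      have hyv : y ≠ v := fun h => hnadj (h ▸ hxy)
      simp only [if_true, if_neg hyu, if_neg hyv]
      exact (h3 (g y) ((hadj _ _).2 ⟨x, y, hxy, rfl, rfl⟩) (hb' y hxy)).symm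
    · by_cases hy : y = v
      · subst hy
        simp only [if_true, if_neg hx, if_neg hxv, if_neg hyu]
        exact h2 (g x) (by rw [hguv]; exact (hadj _ _).2 ⟨y, x, hxy.symm, rfl, rfl⟩)
          (ha' x hxy.symm)
      · simp only [if_neg hx, if_neg hxv, if_neg hyu, if_neg hy]
        exact h1 _ _ (hgu x hx hxv) (hgu y hyu hy) ((hadj _ _).2 ⟨x, y, hxy, rfl, rfl⟩)
  intro x y hxy
  by_cases hxv : x = v
  · by_cases hyv : y = v
    · exact absurd (hxv.trans hyv.symm) hxy.ne
    · have hxu : x ≠ u := by rw [hxv]; exact huv.symm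
      exact (main y x hxy.symm hyv hxu).symm
  · by_cases hyu : y = u
    · by_cases hxu : x = u
      · exact absurd (hxu.trans hyu.symm) hxy.ne
      · have hyv : y ≠ v := by rw [hyu]; exact huv
        exact (main y x hxy.symm hyv hxu).symm
    · exact main x y hxy hxv hyu

/-- `G0` is not a Hajos join -/
lemma no_join {a b m : ℕ} {G1 : SimpleGraph (Fin a)} {G2 : SimpleGraph (Fin b)}
    {H : SimpleGraph (Fin m)} {x1 y1 : Fin a} {x2 y2 : Fin b}
    {f1 : Fin a → Fin m} {f2 : Fin b → Fin m} (e1 : G1.Adj x1 y1) (e2 : G2.Adj x2 y2)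
    (hf : ∀ i j, f1 i = f2 j ↔ (i = x1 ∧ j = x2))
    (hcov : ∀ p, (∃ i, f1 i = p) ∨ ∃ j, f2 j = p)
    (hadj : ∀ p q, H.Adj p q ↔
        ((∃ i j, G1.Adj i j ∧ Sym2.mk (i, j) ≠ Sym2.mk (x1, y1) ∧ f1 i = p ∧ f1 j = q) ∨
         (∃ i j, G2.Adj i j ∧ Sym2.mk (i, j) ≠ Sym2.mk (x2, y2) ∧ f2 i = p ∧ f2 j = q) ∨
         Sym2.mk (p, q) = Sym2.mk (f1 y1, f2 y2)))
    (hcommon : ∀ p q x, H.Adj p q → ∃ z, z ≠ x ∧ H.Adj p z ∧ H.Adj q z) : False := by
  have hpq : H.Adj (f1 y1) (f2 y2) := (hadj _ _).2 (Or.inr (Or.inr rfl))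
  obtain ⟨z, hzx, hpz, hqz⟩ := hcommon _ _ (f1 x1) hpq
  have hxx : f1 x1 = f2 x2 := (hf x1 x2).2 ⟨rfl, rfl⟩
  rcases hcov z with ⟨i, rfl⟩ | ⟨j, rfl⟩
  · rcases (hadj _ _).1 hqz with ⟨i', j', h1, -, h3, h4⟩ | ⟨i', j', h1, -, h3, h4⟩ | h
    · have := ((hf _ _).1 h3).2
      exact e2.ne this.symm
    · have := ((hf _ _).1 h4.symm).1
      exact hzx (by rw [this])
    · have h' := mk_inj h
      rw [Prod.mk.injEq] at h'
      have := ((hf _ _).1 h'.1.symm).1
      exact e1.ne this.symm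
  · rcases (hadj _ _).1 hpz with ⟨i', j', h1, -, h3, h4⟩ | ⟨i', j', h1, -, h3, h4⟩ | h
    · have := ((hf _ _).1 h4).2
      exact hzx (by rw [this, hxx])
    · have := ((hf _ _).1 h3.symm).1
      exact e1.ne this.symm
    · have h' := mk_inj h
      rw [Prod.mk.injEq] at h'
      rw [h'.2] at hqz
      exact H.loopless.irrefl _ hqz

/-- The negation of the preceding statement: For each k from 4 to 7, every k-critical finite graph can be built from K_k by Hajós joins and identifications of nonadjacent vertices so that every graph produced along the way is k-critical. -/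
theorem result :
    ¬ (∀ k : ℕ, 4 ≤ k → k ≤ 7 →
  ∀ P : (n : ℕ) → SimpleGraph (Fin n) → Prop,
    P k ⊤ →
    (∀ (n : ℕ) (G : SimpleGraph (Fin (n + 1))) (H : SimpleGraph (Fin n))
        (u v : Fin (n + 1)) (f : Fin (n + 1) → Fin n),
      P (n + 1) G → u ≠ v → ¬ G.Adj u v → Function.Surjective f →
      (∀ x y, f x = f y ↔ (x = y ∨ (x = u ∧ y = v) ∨ (x = v ∧ y = u))) →
      (∀ p q, H.Adj p q ↔ ∃ x y, G.Adj x y ∧ f x = p ∧ f y = q) →
      (H.Colorable k ∧ ¬ H.Colorable (k - 1) ∧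
        (∀ e ∈ H.edgeSet, (H.deleteEdges {e}).Colorable (k - 1)) ∧
        ∀ x, ∃ y, H.Adj x y) →
      P n H) →
    (∀ (a b m : ℕ) (G1 : SimpleGraph (Fin a)) (G2 : SimpleGraph (Fin b))
        (H : SimpleGraph (Fin m)) (x1 y1 : Fin a) (x2 y2 : Fin b)
        (f1 : Fin a → Fin m) (f2 : Fin b → Fin m),
      P a G1 → P b G2 → G1.Adj x1 y1 → G2.Adj x2 y2 →
      Function.Injective f1 → Function.Injective f2 →
      (∀ i j, f1 i = f2 j ↔ (i = x1 ∧ j = x2)) →
      (∀ p, (∃ i, f1 i = p) ∨ ∃ j, f2 j = p) →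
      (∀ p q, H.Adj p q ↔
        ((∃ i j, G1.Adj i j ∧ Sym2.mk (i, j) ≠ Sym2.mk (x1, y1) ∧ f1 i = p ∧ f1 j = q) ∨
         (∃ i j, G2.Adj i j ∧ Sym2.mk (i, j) ≠ Sym2.mk (x2, y2) ∧ f2 i = p ∧ f2 j = q) ∨
         Sym2.mk (p, q) = Sym2.mk (f1 y1, f2 y2))) →
      (H.Colorable k ∧ ¬ H.Colorable (k - 1) ∧
        (∀ e ∈ H.edgeSet, (H.deleteEdges {e}).Colorable (k - 1)) ∧
        ∀ x, ∃ y, H.Adj x y) →
      P m H) →
    ∀ (n : ℕ) (G : SimpleGraph (Fin n)),
      (G.Colorable k ∧ ¬ G.Colorable (k - 1) ∧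
        (∀ e ∈ G.edgeSet, (G.deleteEdges {e}).Colorable (k - 1)) ∧
        ∀ x, ∃ y, G.Adj x y) →
      P n G) := by
  intro hall
  have h := hall 6 (by norm_num) (by norm_num)
    (fun n G => Crit 6 G ∧ ¬ Nonempty (G ≃g G0)) ?_ ?_ ?_ 11 G0 crit_G0
  · exact h.2 ⟨SimpleGraph.Iso.refl⟩
  · refine ⟨crit_K6, ?_⟩
    rintro ⟨e⟩
    have := Fintype.card_congr e.toEquiv
    simp at this
  · rintro n G H u v f ⟨hG, -⟩ huv hn hf hff hadj hH
    refine ⟨hH, ?_⟩
    rintro ⟨e⟩
    refine no_ident hG u v (fun x => e (f x)) huv hn ?_ ?_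
    · intro x y
      rw [← hff x y]
      exact e.injective.eq_iff
    · intro p q
      have h1 : G0.Adj p q ↔ H.Adj (e.symm p) (e.symm q) := by
        rw [← e.map_adj_iff]
        simp
      rw [h1, hadj]
      constructor
      · rintro ⟨x, y, hxy, h2, h3⟩
        exact ⟨x, y, hxy, by rw [h2]; simp, by rw [h3]; simp⟩
      · rintro ⟨x, y, hxy, h2, h3⟩
        exact ⟨x, y, hxy, by rw [← h2]; simp, by rw [← h3]; simp⟩
  · rintro a b m G1 G2 H x1 y1 x2 y2 f1 f2 - - e1 e2 - - hf hcov hadj hH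
    refine ⟨hH, ?_⟩
    rintro ⟨e⟩
    refine no_join e1 e2 hf hcov hadj ?_
    intro p q x hpq
    obtain ⟨z, h1, h2, h3⟩ := common (e p) (e q) (e x) (e.map_adj_iff.2 hpq)
    refine ⟨e.symm z, ?_, ?_, ?_⟩
    · intro h
      apply h1
      rw [← h]
      simp
    · rw [← e.map_adj_iff, RelIso.apply_symm_apply]
      exact h2
    · rw [← e.map_adj_iff, RelIso.apply_symm_apply]
      exact h3

end Pool.Agent.S09226
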