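import Pool.Statements.S09234
import Pool.Agent.H356R3.Domatic

set_option autoImplicit false
open Pool Pool.MP_65fa9f_co

namespace Pool.Agent.S09234

/-- The negation of the preceding statement: For finite graphs G, H without isolated vertices: if G□H splits into k dominating sets, then for some j, G or H splits into j dominating sets and k ≤ 2j+1; i.e. d(G□H) ≤ 2max(d(G),d(H))+1. -/
theorem result :
    ¬ (∀ (V W : Type) [Fintype V] [Fintype W] (G : SimpleGraph V) (H : SimpleGraph W),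
      (∀ v, ∃ u, G.Adj v u) → (∀ w, ∃ x, H.Adj w x) →
      ∀ k : ℕ,
        (∃ f : V × W → Fin k, ∀ (i : Fin k) (p : V × W),
            f p = i ∨ ∃ q, (G.boxProd H).Adj p q ∧ f q = i) →
        ∃ j : ℕ,
          ((∃ g : V → Fin j, ∀ (i : Fin j) (v : V), g v = i ∨ ∃ u, G.Adj v u ∧ g u = i) ∨
           (∃ h : W → Fin j, ∀ (i : Fin j) (w : W), h w = i ∨ ∃ x, H.Adj w x ∧ h x = i)) ∧
          k ≤ 2 * j + 1) := by
  intro hall
  have h2 : 2 ≤ 8 := by norm_num
  obtain ⟨j, hj, hkj⟩ := hall (H356R3.Domatic.Vtx 8) (H356R3.Domatic.Vtx 8)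
    (H356R3.Domatic.Gk 8) (H356R3.Domatic.Gk 8)
    (H356R3.Domatic.no_isolated 8 h2) (H356R3.Domatic.no_isolated 8 h2) 8
    ⟨H356R3.Domatic.col (by norm_num), fun i p =>
      Or.inr (H356R3.Domatic.square_total 8 h2 p i)⟩
  have hm : 4 ≤ j := by omega
  rcases hj with ⟨g, hg⟩ | ⟨g, hg⟩
  · exact H356R3.Domatic.no_four 8 j hm g (fun v i => hg i v)
  · exact H356R3.Domatic.no_four 8 j hm g (fun v i => hg i v)

end Pool.Agent.S09234
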