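import Pool.Statements.S09251
import Pool.Agent.H240R3.SimL

set_option autoImplicit false
open scoped Classical
open Pool Pool.MP_6726c7_co

namespace Pool.Agent.S09251

/-- For some C>0, the fraction of pairs of permutations of [n] that can be split into at most ⌈C n^(1/3)⌉ pairs of order-isomorphic subpermutations tends to 1 as n grows. -/
theorem result :
    ∃ C : ℝ, 0 < C ∧ Filter.Tendsto (fun n : ℕ =>
      ((Finset.univ.filter (fun p : Equiv.Perm (Fin n) × Equiv.Perm (Fin n) =>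
        ∃ c : Fin n → Fin ⌈C * (n : ℝ) ^ ((1 : ℝ) / 3)⌉₊, ∃ g : Equiv.Perm (Fin n),
          ∀ a a' : Fin n, c a = c a' →
            ((a < a' ↔ g a < g a') ∧ (p.1 a < p.1 a' ↔ p.2 (g a) < p.2 (g a'))))).card : ℝ)
        / ((n.factorial : ℝ) ^ 2)) Filter.atTop (nhds 1) := by
  refine ⟨2 ^ 70, by positivity, ?_⟩
  have hlow : Filter.Tendsto (fun n : ℕ => 1 - 4 * Pool.Agent.H240R3.err (Nat.log 8 n)) Filter.atTop (nhds 1) := by
    have h := (Pool.Agent.H240R3.err_tendsto.comp Pool.Agent.H240R3.log8_tendsto).const_mul (4 : ℝ)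
    have h2 := h.const_sub (1 : ℝ)
    simpa using h2
  refine tendsto_of_tendsto_of_tendsto_of_le_of_le' hlow tendsto_const_nhds ?_ ?_
  · filter_upwards [Filter.eventually_ge_atTop (8 ^ 120)] with n hn
    have hn0 : n ≠ 0 := by
      intro h; rw [h] at hn; norm_num at hn
    obtain ⟨k, hkdef⟩ : ∃ k, k = Nat.log 8 n := ⟨_, rfl⟩
    rw [← hkdef]
    have hk : 120 ≤ k := by rw [hkdef]; exact Nat.le_log_of_pow_le (by norm_num) hn
    have hn1 : 8 ^ k ≤ n := by rw [hkdef]; exact Nat.pow_log_le_self 8 hn0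
    have hn2 : n < 8 ^ (k + 1) := by rw [hkdef]; exact Nat.lt_pow_succ_log_self (by norm_num) n
    have hK : 2 ^ 70 * 2 ^ k ≤ ⌈(2 : ℝ) ^ 70 * (n : ℝ) ^ ((1 : ℝ) / 3)⌉₊ := by
      have h1 : (2 : ℝ) ^ k ≤ (n : ℝ) ^ ((1 : ℝ) / 3) := by
        have h2 : ((2 : ℝ) ^ k) = ((8 : ℝ) ^ k) ^ ((1 : ℝ) / 3) := by
          have : (8 : ℝ) ^ k = ((2 : ℝ) ^ k) ^ 3 := by
            rw [← pow_mul, mul_comm, pow_mul]; norm_num
          rw [this, ← Real.rpow_natCast ((2 : ℝ) ^ k) 3, ← Real.rpow_mul (by positivity)]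
          norm_num
        rw [h2]
        apply Real.rpow_le_rpow (by positivity) _ (by norm_num)
        exact_mod_cast hn1
      have h3 : ((2 ^ 70 * 2 ^ k : ℕ) : ℝ) ≤ (2 : ℝ) ^ 70 * (n : ℝ) ^ ((1 : ℝ) / 3) := by
        have h4 : ((2 ^ 70 * 2 ^ k : ℕ) : ℝ) = (2 : ℝ) ^ 70 * 2 ^ k := by push_cast; ring
        rw [h4]
        exact mul_le_mul_of_nonneg_left h1 (by positivity)
      exact_mod_cast h3.trans (Nat.le_ceil _)
    have hbad := Pool.Agent.H240R3.bad_perm_frac (n := n) hk hn2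
    set G := (Finset.univ : Finset (Equiv.Perm (Fin n))).filter (fun σ => Pool.Agent.H240R3.GoodPerm n k σ) with hG
    set B := (Finset.univ : Finset (Equiv.Perm (Fin n))).filter (fun σ => ¬ Pool.Agent.H240R3.GoodPerm n k σ) with hB
    have hGB : G.card + B.card = n.factorial := by
      rw [hG, hB, Finset.card_filter_add_card_filter_not, Finset.card_univ, Fintype.card_perm, Fintype.card_fin]
    have hsub : G ×ˢ G ⊆ Finset.univ.filter (fun p : Equiv.Perm (Fin n) × Equiv.Perm (Fin n) =>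
        ∃ c : Fin n → Fin ⌈(2 : ℝ) ^ 70 * (n : ℝ) ^ ((1 : ℝ) / 3)⌉₊, ∃ g : Equiv.Perm (Fin n),
          ∀ a a' : Fin n, c a = c a' →
            ((a < a' ↔ g a < g a') ∧ (p.1 a < p.1 a' ↔ p.2 (g a) < p.2 (g a')))) := by
      rintro ⟨σ, π⟩ hp
      simp only [hG, Finset.mem_product, Finset.mem_filter, Finset.mem_univ, true_and] at hp ⊢
      exact Pool.Agent.H240R3.good_pair hk hn1 hn2 σ π hp.1 hp.2 _ hK
    have hcard := Finset.card_le_card hsub
    rw [Finset.card_product] at hcard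
    have hf : (0 : ℝ) < n.factorial := by exact_mod_cast Nat.factorial_pos n
    have hgb : (G.card : ℝ) + B.card = n.factorial := by exact_mod_cast hGB
    have herr : 0 ≤ Pool.Agent.H240R3.err k := by unfold Pool.Agent.H240R3.err; positivity
    rw [le_div_iff₀ (by positivity)]
    refine le_trans ?_ (by exact_mod_cast hcard : ((G.card : ℝ) * G.card) ≤ _)
    have hg0 : (0 : ℝ) ≤ G.card := Nat.cast_nonneg _
    have hb0 : (0 : ℝ) ≤ B.card := Nat.cast_nonneg _
    have h7 : (n.factorial : ℝ) ^ 2 - 2 * (B.card : ℝ) * n.factorial ≤ (G.card : ℝ) * G.card := by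
      have : (G.card : ℝ) = n.factorial - B.card := by linarith
      rw [this]
      nlinarith [sq_nonneg (B.card : ℝ)]
    have h8 : (B.card : ℝ) * n.factorial ≤ 2 * Pool.Agent.H240R3.err k * (n.factorial : ℝ) * n.factorial :=
      mul_le_mul_of_nonneg_right hbad hf.le
    nlinarith
  · filter_upwards with n
    have hf : (0 : ℝ) < n.factorial := by exact_mod_cast Nat.factorial_pos n
    rw [div_le_one (by positivity)]
    have h1 : (Finset.univ.filter (fun p : Equiv.Perm (Fin n) × Equiv.Perm (Fin n) =>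
        ∃ c : Fin n → Fin ⌈(2 : ℝ) ^ 70 * (n : ℝ) ^ ((1 : ℝ) / 3)⌉₊, ∃ g : Equiv.Perm (Fin n),
          ∀ a a' : Fin n, c a = c a' →
            ((a < a' ↔ g a < g a') ∧ (p.1 a < p.1 a' ↔ p.2 (g a) < p.2 (g a'))))).card ≤ n.factorial ^ 2 := by
      refine le_trans (Finset.card_le_univ _) (le_of_eq ?_)
      rw [Fintype.card_prod, Fintype.card_perm, Fintype.card_fin]
      ring
    exact_mod_cast h1

end Pool.Agent.S09251
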