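import Pool.Statements.S09354

set_option autoImplicit false
open Pool Pool.MP_6d0115_co

namespace Pool.Agent.S09354

open Finset

/-- The D'Arcais polynomials, built from their recursion. -/
noncomputable def DP : ℕ → Polynomial ℚ
  | 0 => 1
  | (n + 1) => Polynomial.C (1 / ((n : ℚ) + 1)) * (Polynomial.X *
      ∑ k : Fin (n + 1), ((ArithmeticFunction.sigma 1 ((k : ℕ) + 1) : ℕ) : Polynomial ℚ) *
        DP (n - (k : ℕ)))
  termination_by n => n
  decreasing_by exact Nat.lt_succ_of_le (Nat.sub_le _ _)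

theorem DP_succ (n : ℕ) : DP (n + 1) = Polynomial.C (1 / ((n : ℚ) + 1)) * (Polynomial.X *
      ∑ k ∈ Finset.Icc 1 (n + 1), ((ArithmeticFunction.sigma 1 k : ℕ) : Polynomial ℚ) *
        DP (n + 1 - k)) := by
  rw [DP]
  congr 2
  rw [Finset.sum_fin_eq_sum_range]
  rw [← Finset.sum_subset (s₁ := Finset.range (n + 1)) (s₂ := Finset.range (n + 1)) (by simp)
    (by intro x hx hx'; exact absurd hx hx')]
  refine Finset.sum_bij (fun k _ => k + 1) ?_ ?_ ?_ ?_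
  · intro a ha
    simp only [Finset.mem_range] at ha
    simp only [Finset.mem_Icc]
    omega
  · intro a _ b _ h
    omega
  · intro b hb
    simp only [Finset.mem_Icc] at hb
    exact ⟨b - 1, by simp only [Finset.mem_range]; omega, by omega⟩
  · intro a ha
    have ha' := Finset.mem_range.1 ha
    rw [dif_pos ha']
    have : n + 1 - (a + 1) = n - a := by omega
    rw [this]

theorem DP_rec (n : ℕ) (hn : 1 ≤ n) : (n : Polynomial ℚ) * DP n =
          Polynomial.X * ∑ k ∈ Finset.Icc 1 n,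
            ((ArithmeticFunction.sigma 1 k : ℕ) : Polynomial ℚ) * DP (n - k) := by
  obtain ⟨m, rfl⟩ : ∃ m, n = m + 1 := ⟨n - 1, by omega⟩
  rw [DP_succ]
  rw [← mul_assoc]
  have h : ((m + 1 : ℕ) : Polynomial ℚ) * Polynomial.C (1 / ((m : ℚ) + 1)) = 1 := by
    rw [← Polynomial.C_eq_natCast, ← Polynomial.C_mul]
    have : ((m + 1 : ℕ) : ℚ) * (1 / ((m : ℚ) + 1)) = 1 := by
      push_cast
      have : (m : ℚ) + 1 ≠ 0 := by positivity
      field_simp
    rw [this, Polynomial.C_1]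
  rw [h, one_mul]

theorem coeff_rec (n k : ℕ) (hn : 1 ≤ n) : (n : ℚ) * (DP n).coeff (k + 1) =
    ∑ j ∈ Finset.Icc 1 n, ((ArithmeticFunction.sigma 1 j : ℕ) : ℚ) * (DP (n - j)).coeff k := by
  have h := congrArg (fun p => Polynomial.coeff p (k + 1)) (DP_rec n hn)
  simp only [Polynomial.coeff_X_mul, Polynomial.finsetSum_coeff] at h
  rw [← Polynomial.C_eq_natCast, Polynomial.coeff_C_mul] at h
  rw [h]
  refine Finset.sum_congr rfl fun j _ => ?_
  rw [← Polynomial.C_eq_natCast, Polynomial.coeff_C_mul]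

theorem coeff_zero (n : ℕ) (hn : 1 ≤ n) : (DP n).coeff 0 = 0 := by
  have h := congrArg (fun p => Polynomial.coeff p 0) (DP_rec n hn)
  simp only [Polynomial.coeff_X_mul_zero] at h
  rw [← Polynomial.C_eq_natCast, Polynomial.coeff_C_mul] at h
  have h2 : (n : ℚ) ≠ 0 := by positivity
  rcases mul_eq_zero.1 h with h | h
  · exact absurd h h2
  · exact h

/-- `σ(n)/n` as a sum of reciprocals of divisors, in the reals. -/
noncomputable def t (n : ℕ) : ℝ := ∑ d ∈ n.divisors, (1 / (d : ℝ))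

theorem t_eq (n : ℕ) (hn : 1 ≤ n) : t n = (ArithmeticFunction.sigma 1 n : ℕ) / (n : ℝ) := by
  unfold t
  rw [← Nat.sum_div_divisors n (fun d => 1 / (d : ℝ))]
  rw [ArithmeticFunction.sigma_one_apply, Nat.cast_sum, Finset.sum_div]
  refine Finset.sum_congr rfl fun d hd => ?_
  have hdn : d ∣ n := Nat.dvd_of_mem_divisors hd
  have hd0 : d ≠ 0 := by
    rintro rfl
    simp at hdn
    omega
  rw [Nat.cast_div hdn (by exact_mod_cast hd0)]
  have h1 : (d : ℝ) ≠ 0 := by exact_mod_cast hd0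
  have h2 : (n : ℝ) ≠ 0 := by positivity
  field_simp

theorem t_ge_one (n : ℕ) (hn : 1 ≤ n) : 1 ≤ t n := by
  unfold t
  have h : (1 : ℝ) / ((1 : ℕ) : ℝ) ≤ ∑ d ∈ n.divisors, (1 / (d : ℝ)) :=
    Finset.single_le_sum (f := fun d : ℕ => 1 / (d : ℝ)) (fun i _ => by positivity)
      (Nat.one_mem_divisors.2 (by omega))
  simpa using h

theorem t_nonneg (n : ℕ) : 0 ≤ t n := Finset.sum_nonneg fun i _ => by positivity

theorem sigma_eq (n : ℕ) (hn : 1 ≤ n) : ((ArithmeticFunction.sigma 1 n : ℕ) : ℝ) = n * t n := by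
  rw [t_eq n hn]
  have h2 : (n : ℝ) ≠ 0 := by positivity
  field_simp

/-- the real coefficients -/
noncomputable def a (n k : ℕ) : ℝ := (((DP n).coeff k : ℚ) : ℝ)

theorem a_rec (n k : ℕ) (hn : 1 ≤ n) : (n : ℝ) * a n (k + 1) =
    ∑ j ∈ Finset.Icc 1 n, ((j : ℝ) * t j) * a (n - j) k := by
  have h := congrArg (fun q : ℚ => (q : ℝ)) (coeff_rec n k hn)
  push_cast at h
  unfold a
  rw [h]
  refine Finset.sum_congr rfl fun j hj => ?_
  rw [← sigma_eq j (Finset.mem_Icc.1 hj).1]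

theorem a_zero (n : ℕ) (hn : 1 ≤ n) : a n 0 = 0 := by
  unfold a
  rw [coeff_zero n hn]
  simp

theorem a_zero_zero : a 0 0 = 1 := by
  unfold a
  rw [DP]
  simp

theorem a_zero_succ (k : ℕ) : a 0 (k + 1) = 0 := by
  unfold a
  rw [DP]
  simp [Polynomial.coeff_one]

theorem a_one (n : ℕ) (hn : 1 ≤ n) : a n 1 = t n := by
  have h := a_rec n 0 hn
  rw [Finset.sum_eq_single n] at h
  · rw [Nat.sub_self, a_zero_zero, mul_one] at h
    have h2 : (n : ℝ) ≠ 0 := by positivity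
    exact mul_left_cancel₀ h2 h
  · intro b hb hbn
    have := Finset.mem_Icc.1 hb
    rw [a_zero _ (by omega), mul_zero]
  · intro h'
    exact absurd (Finset.mem_Icc.2 ⟨hn, le_refl _⟩) h'

/-- upper bound for the second coefficient -/
theorem a_two_le (n : ℕ) (hn : 1 ≤ n) : a n 2 ≤ ∑ j ∈ Finset.Icc 1 n, t j ^ 2 := by
  have h := a_rec n 1 hn
  have hpos : (0 : ℝ) < n := by positivity
  have h1 : (n : ℝ) * a n 2 ≤ n * ∑ j ∈ Finset.Icc 1 (n - 1), t j * t (n - j) := by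
    rw [h]
    obtain ⟨m, rfl⟩ : ∃ m, n = m + 1 := ⟨n - 1, by omega⟩
    rw [Finset.sum_Icc_succ_top (by omega)]
    rw [Nat.sub_self, a_zero_succ 0, mul_zero, add_zero, Finset.mul_sum]
    simp only [Nat.add_sub_cancel]
    refine Finset.sum_le_sum fun j hj => ?_
    have hj' := Finset.mem_Icc.1 hj
    rw [a_one _ (by omega)]
    have hjn : (j : ℝ) ≤ ((m + 1 : ℕ) : ℝ) := by exact_mod_cast (by omega : j ≤ m + 1)
    have h3 : 0 ≤ t j * t (m + 1 - j) := mul_nonneg (t_nonneg _) (t_nonneg _)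
    calc (j : ℝ) * t j * t (m + 1 - j) = j * (t j * t (m + 1 - j)) := by ring
      _ ≤ ((m + 1 : ℕ) : ℝ) * (t j * t (m + 1 - j)) := mul_le_mul_of_nonneg_right hjn h3
  have h2 : a n 2 ≤ ∑ j ∈ Finset.Icc 1 (n - 1), t j * t (n - j) := le_of_mul_le_mul_left h1 hpos
  refine h2.trans ?_
  have h3 : ∑ j ∈ Finset.Icc 1 (n - 1), t j * t (n - j) ≤
      ∑ j ∈ Finset.Icc 1 (n - 1), (t j ^ 2 + t (n - j) ^ 2) / 2 := by
    refine Finset.sum_le_sum fun j _ => ?_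
    nlinarith [sq_nonneg (t j - t (n - j))]
  refine h3.trans ?_
  have h4 : ∑ j ∈ Finset.Icc 1 (n - 1), t (n - j) ^ 2 = ∑ j ∈ Finset.Icc 1 (n - 1), t j ^ 2 := by
    refine Finset.sum_bij (fun j _ => n - j) ?_ ?_ ?_ ?_
    · intro j hj
      have := Finset.mem_Icc.1 hj
      exact Finset.mem_Icc.2 (by omega)
    · intro i hi j hj hij
      have := Finset.mem_Icc.1 hi
      have := Finset.mem_Icc.1 hj
      omega
    · intro j hj
      have := Finset.mem_Icc.1 hj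
      exact ⟨n - j, Finset.mem_Icc.2 (by omega), by omega⟩
    · intro j _
      rfl
  rw [← Finset.sum_div, Finset.sum_add_distrib, h4]
  have h5 : ∑ j ∈ Finset.Icc 1 (n - 1), t j ^ 2 ≤ ∑ j ∈ Finset.Icc 1 n, t j ^ 2 :=
    Finset.sum_le_sum_of_subset_of_nonneg (Finset.Icc_subset_Icc_right (by omega))
      (fun i _ _ => sq_nonneg _)
  linarith

theorem a_nonneg_one (n : ℕ) : 0 ≤ a n 1 := by
  rcases Nat.eq_zero_or_pos n with h | h
  · subst h
    rw [a_zero_succ 0]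
  · rw [a_one n h]
    exact t_nonneg n

theorem a_two_nonneg (n : ℕ) : 0 ≤ a n 2 := by
  rcases Nat.eq_zero_or_pos n with h | h
  · subst h
    rw [a_zero_succ 1]
  · have h1 := a_rec n 1 h
    have h2 : 0 ≤ (n : ℝ) * a n 2 := by
      rw [h1]
      exact Finset.sum_nonneg fun j _ =>
        mul_nonneg (mul_nonneg (Nat.cast_nonneg _) (t_nonneg _)) (a_nonneg_one _)
    have hpos : (0 : ℝ) < n := by exact_mod_cast h
    exact nonneg_of_mul_nonneg_right h2 hpos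

theorem sum_id (n : ℕ) : ∑ j ∈ Finset.Icc 1 n, (j : ℝ) = n * (n + 1) / 2 := by
  induction n with
  | zero => simp
  | succ n ih =>
    rw [Finset.sum_Icc_succ_top (by omega), ih]
    push_cast
    ring

theorem sum_sq (n : ℕ) : ∑ j ∈ Finset.Icc 1 n, (j : ℝ) ^ 2 = n * (n + 1) * (2 * n + 1) / 6 := by
  induction n with
  | zero => simp
  | succ n ih =>
    rw [Finset.sum_Icc_succ_top (by omega), ih]
    push_cast
    ring

theorem a_two_ge (n : ℕ) (hn : 1 ≤ n) : ((n : ℝ) - 1) / 2 ≤ a n 2 := by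
  have h := a_rec n 1 hn
  have hpos : (0 : ℝ) < n := by positivity
  obtain ⟨m, rfl⟩ : ∃ m, n = m + 1 := ⟨n - 1, by omega⟩
  rw [Finset.sum_Icc_succ_top (by omega), Nat.sub_self, a_zero_succ 0, mul_zero, add_zero] at h
  have h1 : ∑ j ∈ Finset.Icc 1 m, (j : ℝ) ≤
      ∑ j ∈ Finset.Icc 1 m, (j : ℝ) * t j * a (m + 1 - j) 1 := by
    refine Finset.sum_le_sum fun j hj => ?_
    have hj' := Finset.mem_Icc.1 hj
    rw [a_one _ (by omega)]
    have h2 := t_ge_one j hj'.1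
    have h3 := t_ge_one (m + 1 - j) (by omega)
    have h4 : (0 : ℝ) ≤ j := Nat.cast_nonneg _
    have h5 : 1 ≤ t j * t (m + 1 - j) := by nlinarith
    calc (j : ℝ) = j * 1 := (mul_one _).symm
      _ ≤ j * (t j * t (m + 1 - j)) := mul_le_mul_of_nonneg_left h5 h4
      _ = _ := by ring
  rw [← h, sum_id] at h1
  have h2 : ((m + 1 : ℕ) : ℝ) * ((((m + 1 : ℕ) : ℝ) - 1) / 2) ≤ ((m + 1 : ℕ) : ℝ) * a (m + 1) 2 := by
    refine le_trans (le_of_eq ?_) h1
    push_cast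
    ring
  exact le_of_mul_le_mul_left h2 hpos

theorem a_three_ge (n : ℕ) (hn : 1 ≤ n) : ((n : ℝ) - 1) * ((n : ℝ) - 2) / 12 ≤ a n 3 := by
  have h := a_rec n 2 hn
  have hpos : (0 : ℝ) < n := by positivity
  obtain ⟨m, rfl⟩ : ∃ m, n = m + 1 := ⟨n - 1, by omega⟩
  rw [Finset.sum_Icc_succ_top (by omega), Nat.sub_self, a_zero_succ 1, mul_zero, add_zero] at h
  have h1 : ∑ j ∈ Finset.Icc 1 m, ((m : ℝ) * j - (j : ℝ) ^ 2) / 2 ≤
      ∑ j ∈ Finset.Icc 1 m, (j : ℝ) * t j * a (m + 1 - j) 2 := by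
    refine Finset.sum_le_sum fun j hj => ?_
    have hj' := Finset.mem_Icc.1 hj
    have h2 := t_ge_one j hj'.1
    have h3 := a_two_ge (m + 1 - j) (by omega)
    have h4 : (0 : ℝ) ≤ j := Nat.cast_nonneg _
    have h5 : (((m + 1 - j : ℕ) : ℝ) - 1) / 2 = ((m : ℝ) - j) / 2 := by
      rw [Nat.cast_sub (by omega)]
      push_cast
      ring
    rw [h5] at h3
    have h6 := a_two_nonneg (m + 1 - j)
    calc ((m : ℝ) * j - (j : ℝ) ^ 2) / 2 = j * (((m : ℝ) - j) / 2) := by ring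
      _ ≤ j * a (m + 1 - j) 2 := mul_le_mul_of_nonneg_left h3 h4
      _ ≤ j * (t j * a (m + 1 - j) 2) := mul_le_mul_of_nonneg_left (by nlinarith) h4
      _ = _ := by ring
  rw [← h, ← Finset.sum_div, Finset.sum_sub_distrib, ← Finset.mul_sum, sum_id, sum_sq] at h1
  have h2 : ((m + 1 : ℕ) : ℝ) * (((((m + 1 : ℕ) : ℝ) - 1) * (((m + 1 : ℕ) : ℝ) - 2) / 12)) ≤
      ((m + 1 : ℕ) : ℝ) * a (m + 1) 3 := by
    refine le_trans (le_of_eq ?_) h1
    push_cast
    ring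
  exact le_of_mul_le_mul_left h2 hpos

/-- the constant -/
noncomputable def K : ℝ := ∑' d : ℕ, (1 / (d : ℝ) ^ (3 / 2 : ℝ))

theorem K_summable : Summable fun d : ℕ => (1 / (d : ℝ) ^ (3 / 2 : ℝ)) :=
  Real.summable_one_div_nat_rpow.2 (by norm_num)

theorem K_nonneg : 0 ≤ K := tsum_nonneg fun d => by positivity

theorem sum_le_K (s : Finset ℕ) : ∑ d ∈ s, (1 / (d : ℝ) ^ (3 / 2 : ℝ)) ≤ K :=
  K_summable.sum_le_tsum s (fun i _ => by positivity)

theorem t_sq_le (n : ℕ) : t n ^ 2 ≤ K * ∑ d ∈ n.divisors, (1 / (d : ℝ) ^ (1 / 2 : ℝ)) := by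
  have h := Finset.sum_mul_sq_le_sq_mul_sq n.divisors (fun d : ℕ => 1 / (d : ℝ) ^ (3 / 4 : ℝ))
    (fun d : ℕ => 1 / (d : ℝ) ^ (1 / 4 : ℝ))
  have e1 : ∑ d ∈ n.divisors, (1 / (d : ℝ) ^ (3 / 4 : ℝ)) * (1 / (d : ℝ) ^ (1 / 4 : ℝ)) = t n := by
    unfold t
    refine Finset.sum_congr rfl fun d hd => ?_
    have hd0 : (0 : ℝ) < d := by exact_mod_cast Nat.pos_of_mem_divisors hd
    rw [one_div_mul_one_div, ← Real.rpow_add hd0]
    norm_num
  have e2 : ∑ d ∈ n.divisors, (1 / (d : ℝ) ^ (3 / 4 : ℝ)) ^ 2 =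
      ∑ d ∈ n.divisors, (1 / (d : ℝ) ^ (3 / 2 : ℝ)) := by
    refine Finset.sum_congr rfl fun d hd => ?_
    have hd0 : (0 : ℝ) < d := by exact_mod_cast Nat.pos_of_mem_divisors hd
    rw [div_pow, one_pow, ← Real.rpow_natCast, ← Real.rpow_mul hd0.le]
    norm_num
  have e3 : ∑ d ∈ n.divisors, (1 / (d : ℝ) ^ (1 / 4 : ℝ)) ^ 2 =
      ∑ d ∈ n.divisors, (1 / (d : ℝ) ^ (1 / 2 : ℝ)) := by
    refine Finset.sum_congr rfl fun d hd => ?_
    have hd0 : (0 : ℝ) < d := by exact_mod_cast Nat.pos_of_mem_divisors hd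
    rw [div_pow, one_pow, ← Real.rpow_natCast, ← Real.rpow_mul hd0.le]
    norm_num
  rw [e1, e2, e3] at h
  refine h.trans (mul_le_mul_of_nonneg_right (sum_le_K _) ?_)
  exact Finset.sum_nonneg fun i _ => by positivity

theorem sum_divisors_swap (n : ℕ) (f : ℕ → ℝ) :
    ∑ j ∈ Finset.Icc 1 n, ∑ d ∈ j.divisors, f d = ∑ d ∈ Finset.Icc 1 n, ((n / d : ℕ) : ℝ) * f d := by
  rw [Finset.sum_comm' (s' := fun d => (Finset.Ioc 0 n).filter (fun j => d ∣ j))
    (t' := Finset.Icc 1 n)]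
  · refine Finset.sum_congr rfl fun d _ => ?_
    rw [Finset.sum_const, Nat.Ioc_filter_dvd_card_eq_div, nsmul_eq_mul]
  · intro j d
    simp only [Finset.mem_Icc, Nat.mem_divisors, Finset.mem_filter, Finset.mem_Ioc]
    constructor
    · rintro ⟨⟨h1, h2⟩, h3, h4⟩
      have := Nat.le_of_dvd (by omega) h3
      have := Nat.pos_of_dvd_of_pos h3 (by omega)
      exact ⟨⟨⟨by omega, h2⟩, h3⟩, by omega, by omega⟩
    · rintro ⟨⟨⟨h1, h2⟩, h3⟩, h4, h5⟩
      exact ⟨⟨by omega, h2⟩, h3, by omega⟩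

theorem sum_t_sq_le (n : ℕ) : ∑ j ∈ Finset.Icc 1 n, t j ^ 2 ≤ K ^ 2 * n := by
  calc ∑ j ∈ Finset.Icc 1 n, t j ^ 2
      ≤ ∑ j ∈ Finset.Icc 1 n, K * ∑ d ∈ j.divisors, (1 / (d : ℝ) ^ (1 / 2 : ℝ)) :=
        Finset.sum_le_sum fun j _ => t_sq_le j
    _ = K * ∑ d ∈ Finset.Icc 1 n, ((n / d : ℕ) : ℝ) * (1 / (d : ℝ) ^ (1 / 2 : ℝ)) := by
        rw [← Finset.mul_sum, sum_divisors_swap]
    _ ≤ K * ∑ d ∈ Finset.Icc 1 n, (n : ℝ) * (1 / (d : ℝ) ^ (3 / 2 : ℝ)) := by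
        refine mul_le_mul_of_nonneg_left (Finset.sum_le_sum fun d hd => ?_) K_nonneg
        have hd0 : (0 : ℝ) < d := by exact_mod_cast (Finset.mem_Icc.1 hd).1
        have h1 : ((n / d : ℕ) : ℝ) ≤ (n : ℝ) / d := Nat.cast_div_le
        calc ((n / d : ℕ) : ℝ) * (1 / (d : ℝ) ^ (1 / 2 : ℝ))
            ≤ (n : ℝ) / d * (1 / (d : ℝ) ^ (1 / 2 : ℝ)) :=
              mul_le_mul_of_nonneg_right h1 (by positivity)
          _ = (n : ℝ) * (1 / ((d : ℝ) ^ (1 : ℝ) * (d : ℝ) ^ (1 / 2 : ℝ))) := by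
              rw [Real.rpow_one]
              field_simp
          _ = (n : ℝ) * (1 / (d : ℝ) ^ (3 / 2 : ℝ)) := by
              rw [← Real.rpow_add hd0]
              norm_num
    _ = K * (n * ∑ d ∈ Finset.Icc 1 n, (1 / (d : ℝ) ^ (3 / 2 : ℝ))) := by
        rw [← Finset.mul_sum (Finset.Icc 1 n) (fun d : ℕ => 1 / (d : ℝ) ^ (3 / 2 : ℝ)) (n : ℝ)]
    _ ≤ K * (n * K) := by
        refine mul_le_mul_of_nonneg_left ?_ K_nonneg
        exact mul_le_mul_of_nonneg_left (sum_le_K _) (Nat.cast_nonneg _)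
    _ = K ^ 2 * n := by ring

theorem t_factorial (M : ℕ) : ∑ i ∈ Finset.range M, (1 / ((i : ℝ) + 1)) ≤ t (M.factorial) := by
  unfold t
  have h : ∑ i ∈ Finset.range M, (1 / ((i : ℝ) + 1)) =
      ∑ d ∈ (Finset.range M).image (fun i : ℕ => i + 1), (1 / (d : ℝ)) := by
    rw [Finset.sum_image (fun a _ b _ hab => Nat.succ_injective hab)]
    refine Finset.sum_congr rfl fun i _ => ?_
    push_cast
    rfl
  rw [h]
  refine Finset.sum_le_sum_of_subset_of_nonneg ?_ (fun i _ _ => by positivity)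
  intro d hd
  obtain ⟨i, hi, rfl⟩ := Finset.mem_image.1 hd
  have := Finset.mem_range.1 hi
  exact Nat.mem_divisors.2 ⟨Nat.dvd_factorial (by omega) (by omega), Nat.factorial_ne_zero _⟩

/-- The negation of the preceding statement: If P_0=1 and n·P_n = x·Σ_{k=1}^n σ(k)P_{n-k} (the D'Arcais polynomials), then for all n and k≥1 the coefficients of P_n satisfy a_{k-1}a_{k+1} ≤ a_k². -/
theorem result :
    ¬ (∀ P : ℕ → Polynomial ℚ, P 0 = 1 →
      (∀ n : ℕ, 1 ≤ n →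
        (n : Polynomial ℚ) * P n =
          Polynomial.X * ∑ k ∈ Finset.Icc 1 n,
            ((ArithmeticFunction.sigma 1 k : ℕ) : Polynomial ℚ) * P (n - k)) →
      ∀ n k : ℕ, 1 ≤ k →
        (P n).coeff (k - 1) * (P n).coeff (k + 1) ≤ (P n).coeff k ^ 2) := by
  intro H
  have H0 := H DP (by rw [DP]) DP_rec
  obtain ⟨M, hM1, hM2⟩ : ∃ M : ℕ, 4 ≤ M ∧
      48 * K ^ 4 < ∑ i ∈ Finset.range M, (1 / ((i : ℝ) + 1)) := by
    have h := Real.tendsto_sum_range_one_div_nat_succ_atTop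
    obtain ⟨M, hM⟩ := ((h.eventually_gt_atTop (48 * K ^ 4)).and
      (Filter.eventually_ge_atTop 4)).exists
    exact ⟨M, hM.2, hM.1⟩
  set n := M.factorial with hn
  have hn4 : 4 ≤ n := hM1.trans (Nat.self_le_factorial M)
  have h1 : a n 1 * a n 3 ≤ a n 2 ^ 2 := by
    have := H0 n 2 (by norm_num)
    simp only [Nat.reduceSub, Nat.reduceAdd] at this
    unfold a
    exact_mod_cast this
  have h2 : a n 2 ≤ K ^ 2 * n := (a_two_le n (by omega)).trans (sum_t_sq_le n)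
  have h3 := a_three_ge n (by omega)
  have h4 : 48 * K ^ 4 < a n 1 := by
    rw [a_one n (by omega)]
    exact hM2.trans_le (t_factorial M)
  have h5 := a_two_nonneg n
  have hn' : (4 : ℝ) ≤ n := by exact_mod_cast hn4
  have h6 : (n : ℝ) ^ 2 / 48 ≤ a n 3 := by
    refine le_trans ?_ h3
    nlinarith
  have h7 : a n 2 ^ 2 ≤ (K ^ 2 * n) ^ 2 := pow_le_pow_left₀ h5 h2 2
  have h8 : 0 ≤ K ^ 4 := by positivity
  have h9 : 48 * K ^ 4 * ((n : ℝ) ^ 2 / 48) < a n 1 * ((n : ℝ) ^ 2 / 48) :=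
    mul_lt_mul_of_pos_right h4 (by positivity)
  have h10 : a n 1 * ((n : ℝ) ^ 2 / 48) ≤ a n 1 * a n 3 :=
    mul_le_mul_of_nonneg_left h6 (a_nonneg_one n)
  have h11 : (K ^ 2 * (n : ℝ)) ^ 2 = 48 * K ^ 4 * ((n : ℝ) ^ 2 / 48) := by ring
  linarith

end Pool.Agent.S09354
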