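import Pool.Statements.S09396
import Pool.Agent.H620R3.NR.Total

set_option autoImplicit false
open Classical
open Pool Pool.MP_6f0325_co

namespace Pool.Agent.S09396

/-- The negation of the preceding statement: For all positive n, r and every N, the N-variable chromatic symmetric function of the incomparability graph of the product of r n-element chains, times the Vandermonde, has nonnegative coefficients on strictly decreasing exponents, i.e. is Schur positive. -/
theorem result :
    ¬ (∀ n r N : ℕ, 0 < n → 0 < r →
      ∀ α : Fin N →₀ ℕ, StrictAnti (⇑α) →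
        0 ≤ MvPolynomial.coeff α
          ((∑ c ∈ (Finset.univ : Finset ((Fin r → Fin n) → Fin N)).filter
                (fun c => ∀ u v : Fin r → Fin n, ¬ u ≤ v → ¬ v ≤ u → c u ≠ c v),
              ∏ v : Fin r → Fin n, (MvPolynomial.X (c v) : MvPolynomial (Fin N) ℤ)) *
            ∏ p ∈ (Finset.univ : Finset (Fin N × Fin N)).filter (fun p => p.1 < p.2),
              (MvPolynomial.X p.1 - MvPolynomial.X p.2 : MvPolynomial (Fin N) ℤ))) := by
  intro h
  have h1 := h 5 2 9 (by norm_num) (by norm_num)
    (Finsupp.equivFunOnFinite.symm ![17, 9, 8, 7, 6, 5, 4, 3, 2]) (by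
      intro a b hab
      simp only [Finsupp.equivFunOnFinite_symm_apply_apply]
      revert a b
      decide)
  rw [Pool.Agent.H620R3.NR.coeff_final _ (fun c => by
      simp only [Finset.mem_filter, Finset.mem_univ, true_and]) _ (by rfl) (by
      intro i
      fin_cases i <;> rfl), Pool.Agent.H620R3.NR.total] at h1
  norm_num at h1

end Pool.Agent.S09396
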