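import Pool.Statements.S09434
import Pool.Agent.H184R3.SP.Final

set_option autoImplicit false
open Pool Pool.MP_710f64_co

namespace Pool.Agent.S09434

/-- The negation of the preceding statement: There is δ>0 such that, for every ε>0 and all large k, any word over the letters 0..⌊(1+δ)k⌋−1 that contains every permutation of length k as a pattern has length at least (1/2−ε)k². -/
theorem result :
    ¬ (∃ δ : ℝ, 0 < δ ∧ ∀ ε : ℝ, 0 < ε → ∃ K : ℕ, ∀ k : ℕ, K ≤ k →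
      ∀ w : List ℕ,
        (∀ x ∈ w, x < ⌊(1 + δ) * (k : ℝ)⌋₊) →
        (∀ σ : Equiv.Perm (Fin k), ∃ e : Fin k → Fin w.length,
          StrictMono e ∧ ∀ i j : Fin k, (w.get (e i) < w.get (e j) ↔ σ i < σ j)) →
        (1 / 2 - ε) * ((k : ℝ) ^ 2) ≤ (w.length : ℝ)) := by
  rintro ⟨δ, hδ, H⟩
  obtain ⟨ε, hε, hmain⟩ := Pool.Agent.H184R3.SP.main δ hδ
  obtain ⟨K, hK⟩ := H ε hε
  obtain ⟨k, hkK, hk0, w, hw1, hw2, hw3⟩ := hmain K
  have h1 := hK k hkK w hw1 hw2
  have hkpos : (0 : ℝ) < (k : ℝ) ^ 2 := by positivity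
  nlinarith

end Pool.Agent.S09434
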