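import Pool.Statements.S09457
import Pool.Agent.H125R3.MixMain

set_option autoImplicit false
open Pool Pool.MP_71d660_co

namespace Pool.Agent.S09457

/-- Every finite 4-chromatic graph with no induced 2K2, no K4, and a triangle has, for each ℓ ≥ 5, a connected ℓ-colouring reconfiguration graph (any proper ℓ-colouring reaches any other by single-vertex recolourings). -/
theorem result :
    ∀ (V : Type) [Fintype V] (G : SimpleGraph V),
      (∀ a b c d : V, G.Adj a b → G.Adj c d → a ≠ c → a ≠ d → b ≠ c → b ≠ d →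
        G.Adj a c ∨ G.Adj a d ∨ G.Adj b c ∨ G.Adj b d) →
      G.CliqueFree 4 →
      ¬ G.CliqueFree 3 →
      G.chromaticNumber = 4 →
      ∀ ℓ : ℕ, 5 ≤ ℓ →
        ∀ c d : G.Coloring (Fin ℓ),
          Relation.ReflTransGen
            (fun c₁ c₂ : G.Coloring (Fin ℓ) => ∃ v : V, ∀ w : V, w ≠ v → c₁ w = c₂ w)
            c d := by
  intro V _ G h1 h2 _ h4 ℓ hℓ c d
  have hcol : G.Colorable 4 := by
    rw [← SimpleGraph.chromaticNumber_le_iff_colorable, h4]
    rfl
  exact Pool.Agent.H125R3.Mixing.main_mixing V G h1 h2 hcol ℓ hℓ c d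

end Pool.Agent.S09457
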