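import Pool.Statements.S09469
import Pool.Agent.H24R3.CSTSPelt

set_option autoImplicit false
open Pool Pool.MP_72c5f4_co

namespace Pool.Agent.S09469

open Pool.Agent.H24R3.CSTS

lemma numeric (M n : ℕ) (h : 144 * M + 200 ≤ n) : n * M ≤ 2 ^ (n / 6) := by
  set k := n / 6 with hk
  set a := k / 2 with ha
  have h1 : n ≤ 6 * k + 5 := by omega
  have h2 : k ≤ 2 * a + 1 := by omega
  have h3 : 12 * M ≤ a + 1 := by omega
  have h4 : a < 2 ^ a := Nat.lt_two_pow_self
  have h5 : k - a < 2 ^ (k - a) := Nat.lt_two_pow_self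
  have h6 : 2 ^ k = 2 ^ a * 2 ^ (k - a) := by
    rw [← pow_add]; congr 1; omega
  have h7 : (a + 1) * (a + 1) ≤ 2 ^ a * 2 ^ (k - a) := by
    apply Nat.mul_le_mul
    · omega
    · omega
  calc n * M ≤ (12 * (a + 1)) * M := Nat.mul_le_mul_right M (by omega)
    _ = (12 * M) * (a + 1) := by ring
    _ ≤ (a + 1) * (a + 1) := Nat.mul_le_mul_right _ h3
    _ ≤ 2 ^ k := by rw [h6]; exact h7

/-- For every M, all sufficiently large n with n ≡ 1 or 3 mod 6 admit at least M pairwise non-isomorphic cyclic Steiner triple systems on Z/nZ, i.e. the number of cyclic STS(n) up to isomorphism tends to infinity. -/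
theorem result :
    ∀ M : ℕ, ∃ N : ℕ, ∀ n : ℕ, N ≤ n → (n % 6 = 1 ∨ n % 6 = 3) →
      ∃ B : Fin M → Finset (Finset (ZMod n)),
        (∀ i, (∀ b ∈ B i, b.card = 3) ∧
          (∀ x y : ZMod n, x ≠ y → ∃! b : Finset (ZMod n), b ∈ B i ∧ x ∈ b ∧ y ∈ b) ∧
          (∀ b ∈ B i, b.image (fun x => x + 1) ∈ B i)) ∧
        (∀ i j, i ≠ j → ¬ ∃ σ : Equiv.Perm (ZMod n),
          ∀ b : Finset (ZMod n), b ∈ B i ↔ b.map σ.toEmbedding ∈ B j) := by
  intro M
  refine ⟨144 * M + 200, ?_⟩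
  intro n hn hmod
  have : NeZero n := ⟨by omega⟩
  obtain ⟨x, y, hc⟩ := exists_data n hmod (by omega)
  exact main_of_cond hc M (numeric M n hn)

end Pool.Agent.S09469
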