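import Pool.Statements.S09572
import Pool.Agent.H972ST.Asm
import Pool.Agent.H972ST.Cover
import Pool.Agent.H972ST.Rho
import Pool.Agent.H972ST.Det
import Pool.Agent.H972ST.Pair
import Pool.Agent.H972ST.WCount
import Pool.Agent.H972ST.Alg1
import Pool.Agent.H972ST.Alg2
import Pool.Agent.H972ST.FixI
import Pool.Agent.H972ST.FixJ
import Pool.Agent.H972ST.Ser1
import Pool.Agent.H972ST.Ser23
import Pool.Agent.H972ST.Rep
import Pool.Agent.H972ST.Hull
import Pool.Agent.H972ST.VCount
import Pool.Agent.H972ST.Fib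
import Pool.Agent.H972ST.FixM
import Pool.Agent.H972ST.Incl
import Pool.Agent.H972ST.Mem

set_option autoImplicit false
open Pointwise
open Pool Pool.MP_769135_co

namespace Pool.Agent.S09572

/-- The negation of the preceding statement: For a finite group acting affinely on ℤⁿ and preserving a full-dimensional lattice polytope, if every coefficient of the equivariant h*-series is a genuine character, then the sum of the coefficients is the character of a permutation action on a finite set. -/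
theorem result :
    ¬ (∀ (n : ℕ) (G : Type) [Group G] [Fintype G]
    (ρ : G →* ((Fin n → ℤ) ≃ᵃ[ℤ] (Fin n → ℤ)))
    (S : Finset (Fin n → ℤ)) (P : Set (Fin n → ℝ)),
    P = convexHull ℝ ((fun x : Fin n → ℤ => fun k => (x k : ℝ)) '' (S : Set (Fin n → ℤ))) →
    (interior P).Nonempty →
    (∀ (g : G) (x : Fin n → ℤ), (fun k => (x k : ℝ)) ∈ P →
        (fun k => ((ρ g x) k : ℝ)) ∈ P) →
    ∀ (h : ℕ → G → ℤ),
    (∀ (i : ℕ) (g : G), h i g =
        ∑ j ∈ Finset.range (i + 1),
          Polynomial.coeff ((1 - Polynomial.X) *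
              Matrix.det (1 - (Polynomial.X : Polynomial ℤ) •
                ((LinearMap.toMatrix'
                  ((ρ g).linear : (Fin n → ℤ) →ₗ[ℤ] (Fin n → ℤ))).map Polynomial.C))) j *
            (({x : Fin n → ℤ | (fun k => (x k : ℝ)) ∈ ((i - j : ℕ) : ℝ) • P ∧
                (ρ g).linear x + (i - j : ℕ) • (ρ g 0) = x}.ncard : ℕ) : ℤ)) →
    (∀ i : ℕ, ∃ V : FDRep ℂ G, ∀ g : G, V.character g = ((h i g : ℤ) : ℂ)) →
    ∃ (X : Type) (_ : Finite X) (_ : MulAction G X), ∀ g : G,
      ∑ i ∈ Finset.range (n + 1), ((h i g : ℤ) : ℂ) =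
        ((Nat.card {x : X // g • x = x} : ℕ) : ℂ)) :=
  Pool.Agent.H972ST.main
    Pool.Agent.H22R3.ST.tRho
    Pool.Agent.H948R3.ST.tCover
    Pool.Agent.H66R3.ST.tHull
    Pool.Agent.H972ST.MemOwn.tMem
    Pool.Agent.H972ST.tDet
    Pool.Agent.H623R3.STPair.tPair
    Pool.Agent.H306R3.ST.tW
    Pool.Agent.H553R3.STV.tV
    Pool.Agent.H377R4.ST.tAlg1
    Pool.Agent.H972ST.tIncl
    Pool.Agent.H023R3.ST.tFib
    Pool.Agent.H972ST.tAlg2
    Pool.Agent.H636R3.STFixM.tFixM
    Pool.Agent.H99R3.STFixI.tFixI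
    Pool.Agent.H119R3.STFixJ.tFixJ
    Pool.Agent.H158I.STSer1.tSer1
    Pool.Agent.H598R5.STSer.tSer2
    Pool.Agent.H598R5.STSer.tSer3
    Pool.Agent.H773.STRep.tRep

end Pool.Agent.S09572
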