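import Pool.Statements.S09587
import Pool.Agent.H430R3.SW.Main

set_option autoImplicit false
open Pool Pool.MP_778a07_co

namespace Pool.Agent.S09587

open Pool.Agent.H430R3.SW Pool.Agent.Helper636.Bw

/-- For every k there is a function f such that every finite graph of sim-width at most k (subcubic branch decomposition, crossing induced matchings of size ≤ k) has chromatic number at most f of its clique number. -/
theorem result :
  ∀ k : ℕ, ∃ f : ℕ → ℕ, ∀ (n : ℕ) (G : SimpleGraph (Fin n)),
    (∃ (m : ℕ) (T : SimpleGraph (Fin m)) (L : Fin n → Fin m),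
      T.IsTree ∧ (∀ x, (T.neighborSet x).ncard ≤ 3) ∧ Function.Injective L ∧
      (∀ x, (T.neighborSet x).ncard ≤ 1 ↔ x ∈ Set.range L) ∧
      ∀ u w : Fin m, T.Adj u w → ∀ (t : ℕ) (a b : Fin t → Fin n),
        Function.Injective a → Function.Injective b →
        (∀ i, (T.deleteEdges {s(u, w)}).Reachable u (L (a i))) →
        (∀ i, ¬ (T.deleteEdges {s(u, w)}).Reachable u (L (b i))) →
        (∀ i, G.Adj (a i) (b i)) →
        (∀ i j, i ≠ j → ¬ G.Adj (a i) (a j) ∧ ¬ G.Adj (b i) (b j) ∧ ¬ G.Adj (a i) (b j)) →
        t ≤ k) →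
    G.chromaticNumber ≤ ((f G.cliqueNum : ℕ) : ℕ∞) := by
  classical
  intro k
  have hram : ∀ w : ℕ, ∃ r : ℕ, ∀ f : ℕ → ℕ → Bool × Bool, ∃ g : Fin (k + w + 1) → ℕ,
      StrictMono g ∧ (∀ i, g i < r) ∧ ∃ a, ∀ i j, i < j → f (g i) (g j) = a := fun w => ramsey _
  choose r hr using hram
  have hmain := fun w => main (r w) w 1
  choose c hc using hmain
  refine ⟨c, ?_⟩
  rintro n G ⟨m, T, L, hT, hdeg, hL, hleaf, hsim⟩
  set w := G.cliqueNum with hw
  -- cliques
  have hclique : ∀ (s : ℕ) (e : Fin s → Fin n), (∀ i j, i < j → G.Adj (e i) (e j)) → s ≤ w := by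
    intro s e he
    have hinj : Function.Injective e := by
      intro i j hij
      by_contra hne
      rcases lt_or_gt_of_ne hne with h | h
      · exact G.loopless.irrefl _ (hij ▸ he i j h)
      · exact G.loopless.irrefl _ (hij ▸ he j i h)
    have hcl : G.IsClique ((Finset.univ.image e : Finset (Fin n)) : Set (Fin n)) := by
      intro x hx y hy hxy
      simp only [Finset.coe_image, Finset.coe_univ, Set.image_univ, Set.mem_range] at hx hy
      obtain ⟨i, rfl⟩ := hx
      obtain ⟨j, rfl⟩ := hy
      have hij : i ≠ j := fun h => hxy (by rw [h])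
      rcases lt_or_gt_of_ne hij with h | h
      · exact he i j h
      · exact (he j i h).symm
    have h1 := hcl.card_le_cliqueNum
    rw [Finset.card_image_of_injective _ hinj, Finset.card_univ, Fintype.card_fin] at h1
    exact h1
  have hCF : CF G Set.univ w := by
    intro e _ hee
    have := hclique (w + 1) e (fun i j hij => hee i j (ne_of_lt hij))
    omega
  have hMB : MB G T L Set.univ (r w) := by
    rintro a b hab ⟨x, y, h1, h2⟩
    let x' : ℕ → Fin n := fun i => if h : i < r w + 1 then x ⟨i, h⟩ else x 0
    let y' : ℕ → Fin n := fun i => if h : i < r w + 1 then y ⟨i, h⟩ else y 0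
    obtain ⟨g, hg, hgr, p, hp⟩ := hr w (fun i j =>
      (decide (G.Adj (x' i) (x' j)), decide (G.Adj (y' i) (y' j))))
    have hx' : ∀ i, x' (g i) = x ⟨g i, by have := hgr i; omega⟩ := by
      intro i
      simp only [x']
      rw [dif_pos]
    have hy' : ∀ i, y' (g i) = y ⟨g i, by have := hgr i; omega⟩ := by
      intro i
      simp only [y']
      rw [dif_pos]
    have h3 : ∀ i j, G.Adj (x' (g i)) (y' (g j)) ↔ i = j := by
      intro i j
      rw [hx', hy', h2, Fin.mk.injEq]
      exact ⟨fun h => hg.injective h, fun h => by rw [h]⟩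
    have hx1 : p.1 = false := by
      by_contra h
      have h4 : p.1 = true := by simpa using h
      have h5 := hclique (k + w + 1) (fun i => x' (g i)) (fun i j hij => by
        have h6 := hp i j hij
        have h7 := congrArg Prod.fst h6
        simp only [h4, decide_eq_true_eq] at h7
        exact h7)
      omega
    have hy1 : p.2 = false := by
      by_contra h
      have h4 : p.2 = true := by simpa using h
      have h5 := hclique (k + w + 1) (fun i => y' (g i)) (fun i j hij => by
        have h6 := hp i j hij
        have h7 := congrArg Prod.snd h6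
        simp only [h4, decide_eq_true_eq] at h7
        exact h7)
      omega
    have hxn : ∀ i j, i ≠ j → ¬ G.Adj (x' (g i)) (x' (g j)) := by
      have h0 : ∀ i j, i < j → ¬ G.Adj (x' (g i)) (x' (g j)) := by
        intro i j hij
        have h7 := congrArg Prod.fst (hp i j hij)
        simpa only [hx1, decide_eq_false_iff_not] using h7
      intro i j hij
      rcases lt_or_gt_of_ne hij with h | h
      · exact h0 i j h
      · exact fun h4 => h0 j i h h4.symm
    have hyn : ∀ i j, i ≠ j → ¬ G.Adj (y' (g i)) (y' (g j)) := by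
      have h0 : ∀ i j, i < j → ¬ G.Adj (y' (g i)) (y' (g j)) := by
        intro i j hij
        have h7 := congrArg Prod.snd (hp i j hij)
        simpa only [hy1, decide_eq_false_iff_not] using h7
      intro i j hij
      rcases lt_or_gt_of_ne hij with h | h
      · exact h0 i j h
      · exact fun h4 => h0 j i h h4.symm
    have hfin := hsim a b hab (k + w + 1) (fun i => x' (g i)) (fun i => y' (g i)) (by
      intro i j hij
      simp only at hij
      refine (h3 i j).1 ?_
      rw [hij]
      exact (h3 j j).2 rfl) (by
      intro i j hij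
      simp only at hij
      refine (h3 i j).1 ?_
      rw [← hij]
      exact (h3 i i).2 rfl) (by
      intro i
      simp only [hx']
      exact (h1 _).2.2.1) (by
      intro i h
      simp only [hy'] at h
      exact rch_excl hT hab h (h1 _).2.2.2)
      (fun i => (h3 i i).2 rfl) (fun i j hij => ⟨hxn i j hij, hyn i j hij,
        fun h => hij ((h3 i j).1 h)⟩)
    omega
  have hfib : ∀ x, Col G {v ∈ Set.univ | L v = x} 1 := by
    intro x
    apply col_indep
    rintro u ⟨_, hu⟩ v ⟨_, hv⟩ huv
    have : u = v := hL (hu.trans hv.symm)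
    subst this
    exact G.loopless.irrefl _ huv
  obtain ⟨f, hf1, hf2⟩ := hc w (Fin n) (Fin m) G T L Set.univ hT hdeg hMB hCF hfib
  have hcol : G.Colorable (c w) := by
    refine ⟨SimpleGraph.Coloring.mk (fun v => (⟨f v, hf1 v trivial⟩ : Fin (c w))) ?_⟩
    intro u v huv h
    exact hf2 u trivial v trivial huv (congrArg Fin.val h)
  exact hcol.chromaticNumber_le

end Pool.Agent.S09587
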