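import Pool.Statements.S09613
import Pool.Agent.H450R3.Ext4

set_option autoImplicit false
open Pool Pool.MP_78b1ee_co

namespace Pool.Agent.S09613

open Pool.Agent.H450R3.Ext

lemma getD_w (p j : ℕ) (hj : j < 16 * p + 13) :
    ((List.range (16 * p + 13)).map (s p)).getD j 0 = s p j := by
  rw [List.getD_eq_getElem?_getD, List.getElem?_map, List.getElem?_range hj]
  rfl

lemma getD_ins (p k : ℕ) (hk : k ≤ 16 * p + 13) (x : ℚ) (j : ℕ) (hj : j < 16 * p + 14) :
    (((List.range (16 * p + 13)).map (s p)).take k ++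
      x :: ((List.range (16 * p + 13)).map (s p)).drop k).getD j 0 = ins (s p) k x j := by
  set w := (List.range (16 * p + 13)).map (s p) with hw
  have hlen : w.length = 16 * p + 13 := by simp [hw]
  have htake : (w.take k).length = k := by simp [hlen]; omega
  unfold ins
  by_cases h1 : j < k
  · rw [if_pos h1, List.getD_append _ _ _ _ (by omega)]
    rw [List.getD_eq_getElem?_getD, List.getElem?_take, if_pos h1, ← List.getD_eq_getElem?_getD]
    exact getD_w p j (by omega)
  · rw [if_neg h1, List.getD_append_right _ _ _ _ (by omega), htake]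
    by_cases h2 : j = k
    · rw [if_pos h2]
      subst h2
      simp
    · rw [if_neg h2]
      obtain ⟨c, hc⟩ : ∃ c, j - k = c + 1 := ⟨j - k - 1, by omega⟩
      rw [hc, List.getD_cons_succ]
      rw [List.getD_eq_getElem?_getD, List.getElem?_drop, ← List.getD_eq_getElem?_getD,
        show k + c = j - 1 by omega]
      exact getD_w p (j - 1) (by omega)

/-- For every N there is a list of distinct rationals of length at least N with no two adjacent order-isomorphic blocks of length at least 2, such that inserting any new value at any position creates such a pair. -/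
theorem result :
    ∀ N : ℕ, ∃ w : List ℚ, N ≤ w.length ∧ w.Nodup ∧
      (¬ ∃ i ℓ : ℕ, 2 ≤ ℓ ∧ i + 2 * ℓ ≤ w.length ∧
          ∀ a < ℓ, ∀ b < ℓ,
            (w.getD (i + a) 0 < w.getD (i + b) 0 ↔
              w.getD (i + ℓ + a) 0 < w.getD (i + ℓ + b) 0)) ∧
      ∀ p : ℕ, p ≤ w.length → ∀ x : ℚ, x ∉ w →
        ∃ i ℓ : ℕ, 2 ≤ ℓ ∧ i + 2 * ℓ ≤ w.length + 1 ∧
          ∀ a < ℓ, ∀ b < ℓ,
            ((w.take p ++ x :: w.drop p).getD (i + a) 0 <
                (w.take p ++ x :: w.drop p).getD (i + b) 0 ↔
              (w.take p ++ x :: w.drop p).getD (i + ℓ + a) 0 <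
                (w.take p ++ x :: w.drop p).getD (i + ℓ + b) 0) := by
  intro N
  have hp : 1 ≤ N + 1 := by omega
  have hlen : ((List.range (16 * (N + 1) + 13)).map (s (N + 1))).length = 16 * (N + 1) + 13 := by
    simp
  refine ⟨(List.range (16 * (N + 1) + 13)).map (s (N + 1)), by rw [hlen]; omega, ?_, ?_, ?_⟩
  · exact List.Nodup.map (fun i j h => s_inj hp i j h) List.nodup_range
  · rintro ⟨i, ℓ, h2, hi, hsq⟩
    rw [hlen] at hi
    refine s_nosq hp i ℓ h2 hi ?_
    intro a ha b hb
    have := hsq a ha b hb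
    rw [getD_w _ _ (by omega), getD_w _ _ (by omega), getD_w _ _ (by omega),
      getD_w _ _ (by omega)] at this
    exact this
  · intro k hk x hx
    rw [hlen] at hk
    have hx' : ∀ i < 16 * (N + 1) + 13, s (N + 1) i ≠ x := by
      intro i hi h
      exact hx (List.mem_map.2 ⟨i, List.mem_range.2 hi, h⟩)
    obtain ⟨i, ℓ, h2, hi, hsq⟩ := s_ins hp k x hk hx'
    refine ⟨i, ℓ, h2, by rw [hlen]; exact hi, ?_⟩
    intro a ha b hb
    have := hsq a ha b hb
    rw [getD_ins _ _ hk _ _ (by omega), getD_ins _ _ hk _ _ (by omega),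
      getD_ins _ _ hk _ _ (by omega), getD_ins _ _ hk _ _ (by omega)]
    exact this

end Pool.Agent.S09613
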