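import Pool.Statements.S09617
-- import your own Pool.Agent.* helpers here

set_option autoImplicit false
open Pool Pool.MP_79384d_co

namespace Pool.Agent.S09617

/-- quadratic character mod 5 on `Fin 5`-values -/
def chi (a : ℕ) : ℤ := if a % 5 = 0 then 0 else if a % 5 = 1 ∨ a % 5 = 4 then 1 else -1

/-- symmetric conference matrix of order 6 -/
def cf (a b : ℕ) : ℤ :=
  if a = b then 0 else if a = 0 ∨ b = 0 then 1 else chi (a + 5 - b)

/-- `(C + I) ⊗ J₃ - I` -/
def M : Matrix (Fin 18) (Fin 18) ℤ := Matrix.of fun i j =>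
  if i = j then 0 else if i.val / 3 = j.val / 3 then 1 else cf (i.val / 3) (j.val / 3)

theorem M_symm : M.transpose = M := by decide +kernel

theorem M_diag : ∀ i, M i i = 0 := by decide +kernel

theorem M_off : ∀ p : Fin 18 × Fin 18, p.1 ≠ p.2 → M p.1 p.2 = 1 ∨ M p.1 p.2 = -1 := by decide +kernel

theorem M_min : M * M * M = 3 * (M * M) + 45 * M + 41 := by decide +kernel

/-- `(C - I) ⊗ J₃` -/
def N : Matrix (Fin 18) (Fin 18) ℤ := Matrix.of fun i j =>
  if i.val / 3 = j.val / 3 then -1 else cf (i.val / 3) (j.val / 3)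

def B : Matrix (Fin 18) (Fin 18) ℤ := Matrix.of fun i j =>
  if i.val / 3 = j.val / 3 then 12 else 0

theorem N_mul : N * (M + 1) = B := by decide +kernel

def w1 : Fin 18 → ℤ := fun i => if i.val / 3 = 0 then 0 else 1
def w2 : Fin 18 → ℤ := fun i => if i.val / 3 = 0 then 1 else 0
def w0 : Fin 18 → ℤ := fun i => if i = 0 then 1 else if i = 1 then -1 else 0

theorem M_w1 : ∀ i, (M.mulVec w1) i = 2 * w1 i + 15 * w2 i := by decide +kernel
theorem M_w2 : ∀ i, (M.mulVec w2) i = 3 * w1 i + 2 * w2 i := by decide +kernel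
theorem M_w0 : ∀ i, (M.mulVec w0) i = - w0 i := by decide +kernel


/-- the real matrix -/
noncomputable def S : Matrix (Fin 18) (Fin 18) ℝ := (Int.castRingHom ℝ).mapMatrix M

theorem S_apply (i j : Fin 18) : S i j = (M i j : ℝ) := rfl

theorem S_min : S * S * S = 3 * (S * S) + 45 * S + 41 := by
  have h := congrArg (fun A : Matrix (Fin 18) (Fin 18) ℤ => (Int.castRingHom ℝ).mapMatrix A) M_min
  simp only [map_mul, map_add, map_ofNat] at h
  exact h

theorem eig_poly (t : ℝ) (v : Fin 18 → ℝ) (hv : v ≠ 0) (h : S.mulVec v = t • v) :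
    (t + 1) * ((t - 2) ^ 2 - 45) = 0 := by
  have h3 : (S * S * S).mulVec v = (t * t * t) • v := by
    rw [← Matrix.mulVec_mulVec, ← Matrix.mulVec_mulVec, h, Matrix.mulVec_smul, h, Matrix.mulVec_smul,
      Matrix.mulVec_smul, h]
    simp only [smul_smul, mul_assoc]
  have h2 : (3 * (S * S) + 45 * S + 41).mulVec v = (3 * (t * t) + 45 * t + 41) • v := by
    have e3 : (3 : Matrix (Fin 18) (Fin 18) ℝ) = (3 : ℝ) • 1 := by
      ext i j; by_cases hij : i = j <;> simp [hij, Matrix.ofNat_apply]
    have e45 : (45 : Matrix (Fin 18) (Fin 18) ℝ) = (45 : ℝ) • 1 := by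
      ext i j; by_cases hij : i = j <;> simp [hij, Matrix.ofNat_apply]
    have e41 : (41 : Matrix (Fin 18) (Fin 18) ℝ) = (41 : ℝ) • 1 := by
      ext i j; by_cases hij : i = j <;> simp [hij, Matrix.ofNat_apply]
    rw [e3, e45, e41, Matrix.add_mulVec, Matrix.add_mulVec, smul_mul_assoc, one_mul, smul_mul_assoc, one_mul,
      Matrix.smul_mulVec, Matrix.smul_mulVec, Matrix.smul_mulVec, Matrix.one_mulVec,
      ← Matrix.mulVec_mulVec, h, Matrix.mulVec_smul, h]
    simp only [smul_smul, add_smul]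
  rw [S_min, h2] at h3
  obtain ⟨i, hi⟩ := Function.ne_iff.mp hv
  have := congrFun h3 i
  simp only [Pi.smul_apply, smul_eq_mul] at this
  have h4 := mul_right_cancel₀ hi this
  linarith [h4, (by ring : (t + 1) * ((t - 2) ^ 2 - 45) = t * t * t - (3 * (t * t) + 45 * t + 41))]

theorem root_iff (t : ℝ) : t ∈ S.charpoly.roots ↔ ∃ v : Fin 18 → ℝ, v ≠ 0 ∧ S.mulVec v = t • v := by
  rw [Polynomial.mem_roots (Matrix.charpoly_monic S).ne_zero, Polynomial.IsRoot.def,
    Matrix.eval_charpoly, ← Matrix.exists_mulVec_eq_zero_iff]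
  refine exists_congr fun v => and_congr_right fun _ => ?_
  rw [Matrix.sub_mulVec, sub_eq_zero, eq_comm]
  have : (Matrix.scalar (Fin 18) t).mulVec v = t • v := by
    ext i; simp [Matrix.scalar_apply, Matrix.mulVec_diagonal]
  rw [this]

theorem S_w (w : Fin 18 → ℤ) (i : Fin 18) :
    S.mulVec (fun j => (w j : ℝ)) i = ((M.mulVec w i : ℤ) : ℝ) := by
  exact (RingHom.map_mulVec (Int.castRingHom ℝ) M w i).symm

theorem root0 : (-1 : ℝ) ∈ S.charpoly.roots := by
  rw [root_iff]
  refine ⟨fun j => (w0 j : ℝ), ?_, ?_⟩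
  · intro h
    have := congrFun h 0
    simp [w0] at this
  · ext i
    rw [S_w, M_w0]
    simp

theorem root1 (r : ℝ) (hr : r ^ 2 = 5) : (2 + 3 * r : ℝ) ∈ S.charpoly.roots := by
  rw [root_iff]
  refine ⟨(fun j => (w1 j : ℝ)) + r • (fun j => (w2 j : ℝ)), ?_, ?_⟩
  · intro h
    have := congrFun h 17
    simp [w1, w2] at this
  · ext i
    rw [Matrix.mulVec_add, Matrix.mulVec_smul]
    simp only [Pi.add_apply, Pi.smul_apply, smul_eq_mul]
    rw [S_w, S_w, M_w1, M_w2]
    push_cast
    linear_combination (3 * (w2 i : ℝ)) * (- hr)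

theorem roots_eq : S.charpoly.roots.toFinset = {-1, 2 + 3 * √5, 2 + 3 * (-√5)} := by
  have h5 : (√5 : ℝ) ^ 2 = 5 := Real.sq_sqrt (by norm_num)
  ext t
  simp only [Multiset.mem_toFinset, Finset.mem_insert, Finset.mem_singleton]
  constructor
  · intro h
    obtain ⟨v, hv, hv2⟩ := (root_iff t).mp h
    have := eig_poly t v hv hv2
    rcases mul_eq_zero.mp this with h1 | h1
    · left; linarith
    · right
      have h2 : (t - (2 + 3 * √5)) * (t - (2 + 3 * (-√5))) = 0 := by
        have : (t - (2 + 3 * √5)) * (t - (2 + 3 * (-√5))) = (t - 2) ^ 2 - 9 * (√5) ^ 2 := by ring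
        rw [this, h5]; linarith
      rcases mul_eq_zero.mp h2 with h3 | h3
      · left; linarith
      · right; linarith
  · rintro (h | h | h)
    · rw [h]; exact root0
    · rw [h]; exact root1 _ h5
    · rw [h]; exact root1 _ (by rw [neg_sq]; exact h5)

theorem card_roots : S.charpoly.roots.toFinset.card = 3 := by
  have h5 : (√5 : ℝ) ^ 2 = 5 := Real.sq_sqrt (by norm_num)
  have hpos : 0 < (√5 : ℝ) := Real.sqrt_pos.mpr (by norm_num)
  have h1 : 1 < (√5 : ℝ) := by nlinarith
  rw [roots_eq]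
  rw [Finset.card_insert_of_notMem, Finset.card_insert_of_notMem, Finset.card_singleton]
  · simp only [Finset.mem_singleton]; intro h; linarith
  · simp only [Finset.mem_insert, Finset.mem_singleton]
    rintro (h | h) <;> nlinarith

theorem no_int_eig (t : Fin 18 → ℤ) (ht : ∀ i, t i = 1 ∨ t i = -1) (d : ℤ)
    (h : ∀ i, M.mulVec t i = d * t i) : False := by
  have hS : S.mulVec (fun j => (t j : ℝ)) = (d : ℝ) • (fun j => (t j : ℝ)) := by
    ext i; rw [S_w, h i]; simp
  have hne : (fun j => (t j : ℝ)) ≠ 0 := by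
    intro h0
    have := congrFun h0 0
    simp at this
    rcases ht 0 with h1 | h1 <;> omega
  have hp := eig_poly _ _ hne hS
  have hp' : (d + 1) * ((d - 2) ^ 2 - 45) = 0 := by exact_mod_cast hp
  have hd : d = -1 := by
    rcases mul_eq_zero.mp hp' with h1 | h1
    · omega
    · exfalso
      have h2 : (d - 2) ^ 2 = 45 := by linarith
      have h3 : -7 < d - 2 := by nlinarith
      have h4 : d - 2 < 7 := by nlinarith
      generalize d - 2 = e at h2 h3 h4
      interval_cases e <;> omega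
  subst hd
  have h1 : (M + 1).mulVec t = 0 := by
    ext i
    rw [Matrix.add_mulVec, Matrix.one_mulVec, Pi.add_apply, h i]
    simp
  have h2 : B.mulVec t = 0 := by
    rw [← N_mul, ← Matrix.mulVec_mulVec, h1, Matrix.mulVec_zero]
  have h3 := congrFun h2 0
  have h4 : B.mulVec t 0 = 12 * (t 0 + t 1 + t 2) := by
    simp [Matrix.mulVec, dotProduct, Fin.sum_univ_succ, B]
    ring
  rw [h4] at h3
  simp only [Pi.zero_apply] at h3
  rcases ht 0 with a | a <;> rcases ht 1 with b | b <;> rcases ht 2 with c | c <;> omega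

/-- There is a Seidel matrix (symmetric, zero diagonal, ±1 off diagonal) of order at least 14 with exactly three distinct eigenvalues such that no ±1 switching of it has constant row sums, i.e. its switching class contains no regular graph. -/
theorem result :
    ∃ n : ℕ, 14 ≤ n ∧ ∃ S : Matrix (Fin n) (Fin n) ℝ,
      S.IsSymm ∧ (∀ i, S i i = 0) ∧
      (∀ i j, i ≠ j → S i j = 1 ∨ S i j = -1) ∧
      S.charpoly.roots.toFinset.card = 3 ∧
      ∀ s : Fin n → ℝ, (∀ i, s i = 1 ∨ s i = -1) →
        ¬ ∃ c : ℝ, ∀ i, ∑ j, s i * S i j * s j = c := by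
  refine ⟨18, by norm_num, S, ?_, ?_, ?_, card_roots, ?_⟩
  · have h := congrArg (fun A : Matrix (Fin 18) (Fin 18) ℤ => (Int.castRingHom ℝ).mapMatrix A) M_symm
    ext i j
    have := congrFun (congrFun h i) j
    simpa [S] using this
  · intro i
    rw [S_apply, M_diag]; simp
  · intro i j hij
    rcases M_off (i, j) hij with h | h
    · left; rw [S_apply]; simp only at h; rw [h]; simp
    · right; rw [S_apply]; simp only at h; rw [h]; simp
  · intro s hs ⟨c, hc⟩
    -- integer version
    have hex : ∀ i, ∃ t : ℤ, (t = 1 ∨ t = -1) ∧ s i = (t : ℝ) := by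
      intro i
      rcases hs i with h | h
      · exact ⟨1, Or.inl rfl, by simp [h]⟩
      · exact ⟨-1, Or.inr rfl, by simp [h]⟩
    choose t ht hst using hex
    have hd : ∀ i, c = ((t i * M.mulVec t i : ℤ) : ℝ) := by
      intro i
      rw [← hc i]
      rw [Int.cast_mul, ← S_w, ← hst i, Matrix.mulVec, dotProduct, Finset.mul_sum]
      refine Finset.sum_congr rfl fun j _ => ?_
      rw [← hst j]; ring
    have hd2 : ∀ i, t i * M.mulVec t i = t 0 * M.mulVec t 0 := by
      intro i
      have := (hd i).symm.trans (hd 0)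
      exact_mod_cast this
    refine no_int_eig t ht (t 0 * M.mulVec t 0) ?_
    intro i
    rw [← hd2 i]
    rcases ht i with h | h <;> rw [h] <;> ring

end Pool.Agent.S09617
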