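import Pool.Statements.S09654
import Pool.Agent.H273R3.PatE

set_option autoImplicit false
open Pool Pool.MP_7ad145_co

namespace Pool.Agent.S09654

/-- The negation of the preceding statement: Fix r,k≥2, a linear k-graph F with ex(n,F)=o(n^k), and a pattern of F with t≥3 classes. For large n, no n-vertex k-graph has more r-edge-colourings avoiding F in that pattern than the complete k-graph, with equality only for it. -/
theorem result :
    ¬ (∀ (r k m t : ℕ), 2 ≤ r → 2 ≤ k → 3 ≤ t →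
  ∀ (F : Finset (Finset (Fin m))),
    (∀ e ∈ F, e.card = k) →
    (∀ e ∈ F, ∀ e' ∈ F, e ≠ e' → (e ∩ e').card ≤ 1) →
    (∀ ε : ℝ, 0 < ε → ∃ N : ℕ, ∀ n : ℕ, N ≤ n → ∀ H : Finset (Finset (Fin n)),
       (∀ e ∈ H, e.card = k) →
       (¬ ∃ φ : Fin m → Fin n, Function.Injective φ ∧ ∀ e ∈ F, e.image φ ∈ H) →
       (H.card : ℝ) ≤ ε * (n : ℝ) ^ k) →
    ∀ (p : Finset (Fin m) → Fin t), (∀ i : Fin t, ∃ e ∈ F, p e = i) →
    ∃ n₀ : ℕ, ∀ n : ℕ, n₀ ≤ n →
      ∀ C : Finset (Finset (Fin n)) → ℕ,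
        (∀ H : Finset (Finset (Fin n)),
          C H = Nat.card {c : Finset (Fin n) → Option (Fin r) //
            (∀ e : Finset (Fin n), c e = none ↔ e ∉ H) ∧
            ¬ ∃ φ : Fin m → Fin n, Function.Injective φ ∧
                (∀ e ∈ F, e.image φ ∈ H) ∧
                (∀ e ∈ F, ∀ e' ∈ F,
                  (c (e.image φ) = c (e'.image φ) ↔ p e = p e'))}) →
        ∀ H : Finset (Finset (Fin n)), (∀ e ∈ H, e.card = k) →
          C H ≤ C (Finset.powersetCard k (Finset.univ : Finset (Fin n))) ∧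
          (C H = C (Finset.powersetCard k (Finset.univ : Finset (Fin n))) ↔
            H = Finset.powersetCard k (Finset.univ : Finset (Fin n)))) := by
  intro hmain
  obtain ⟨n0, h⟩ := hmain 3 2 16 3 (by norm_num) (le_refl 2) (le_refl 3)
    Pool.Agent.H273R3.Pat.F Pool.Agent.H273R3.Pat.F_card Pool.Agent.H273R3.Pat.F_linear
    (by
      intro ε hε
      obtain ⟨N, hN⟩ := exists_nat_gt (22 / ε)
      refine ⟨N, fun n hn H hH hfree => ?_⟩
      have h1 := Pool.Agent.H273R3.Pat.turan_linear H hH hfree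
      have h2 : (H.card : ℝ) ≤ 22 * (n : ℝ) := by exact_mod_cast h1
      have h3 : (N : ℝ) ≤ (n : ℝ) := by exact_mod_cast hn
      have h4 : 22 < ε * (n : ℝ) := by
        have : 22 / ε < (n : ℝ) := lt_of_lt_of_le hN h3
        rw [div_lt_iff₀ hε] at this
        linarith
      have h5 : (0 : ℝ) ≤ (n : ℝ) := Nat.cast_nonneg n
      calc (H.card : ℝ) ≤ 22 * (n : ℝ) := h2
        _ ≤ (ε * (n : ℝ)) * (n : ℝ) := mul_le_mul_of_nonneg_right h4.le h5
        _ = ε * (n : ℝ) ^ 2 := by ring)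
    Pool.Agent.H273R3.Pat.p Pool.Agent.H273R3.Pat.p_surj
  have hs : 15 ≤ n0 + 15 := by omega
  have hbig : n0 ≤ 2 * (2 ^ (n0 + 15) - 1) + 2 := by
    have := Nat.lt_two_pow_self (n := n0 + 15)
    omega
  have h1 := (h (2 * (2 ^ (n0 + 15) - 1) + 2) hbig Pool.Agent.H273R3.Pat.Cn (fun H => rfl)
    (Pool.Agent.H273R3.Pat.H0 (2 * (2 ^ (n0 + 15) - 1)))
    (fun e he => (Finset.mem_powersetCard.mp (Finset.mem_of_mem_erase he)).2)).1
  have h2 := Pool.Agent.H273R3.Pat.compare (n0 + 15) hs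
  exact absurd h1 (not_le.mpr h2)

end Pool.Agent.S09654
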