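import Pool.Statements.S09674
import Pool.Agent.H46R3.ExpGraph

set_option autoImplicit false
open Pool Pool.MP_7c3aa9_co

namespace Pool.Agent.S09674

/-- The negation of the preceding statement: For every graph G of treewidth exactly two, the max number of triples on n points with no copy of the 3-uniform expansion of G is asymptotic to (σ(G)−1)·C(n,2), where σ(G) is the minimum crosscut size of that expansion. -/
theorem result :
    ¬ (∀ (k : ℕ) (G : SimpleGraph (Fin k)),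
    (∃ (m : ℕ) (T : SimpleGraph (Fin m)) (B : Fin m → Finset (Fin k)),
      T.IsTree ∧ (∀ i, (B i).card ≤ 3) ∧ (∀ v, ∃ i, v ∈ B i) ∧
      (∀ u v, G.Adj u v → ∃ i, u ∈ B i ∧ v ∈ B i) ∧
      (∀ v, (T.induce {i | v ∈ B i}).Connected)) →
    ¬ (∃ (m : ℕ) (T : SimpleGraph (Fin m)) (B : Fin m → Finset (Fin k)),
      T.IsTree ∧ (∀ i, (B i).card ≤ 2) ∧ (∀ v, ∃ i, v ∈ B i) ∧
      (∀ u v, G.Adj u v → ∃ i, u ∈ B i ∧ v ∈ B i) ∧
      (∀ v, (T.induce {i | v ∈ B i}).Connected)) →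
    Asymptotics.IsEquivalent Filter.atTop
      (fun n : ℕ => ((sSup {c : ℕ | ∃ H : Finset (Finset (Fin n)),
          (∀ h ∈ H, h.card = 3) ∧
          ¬ (∃ (φ : Fin k → Fin n) (w : Fin k → Fin k → Fin n),
              Function.Injective φ ∧
              (∀ u v, G.Adj u v →
                (∀ x, w u v ≠ φ x) ∧ ({φ u, φ v, w u v} : Finset (Fin n)) ∈ H) ∧
              (∀ u v u' v', G.Adj u v → G.Adj u' v' → w u v = w u' v' →
                (u = u' ∧ v = v') ∨ (u = v' ∧ v = u'))) ∧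
          H.card = c} : ℕ) : ℝ))
      (fun n : ℕ => (((sInf {c : ℕ | ∃ S : Finset (Fin k),
          (∀ u ∈ S, ∀ v ∈ S, ¬ G.Adj u v) ∧
          c = S.card + {e ∈ G.edgeSet | ∀ v ∈ e, v ∉ S}.ncard} : ℕ) : ℝ) - 1)
        * ((n.choose 2 : ℕ) : ℝ))) := by
  intro hall
  have h := hall 29 H46R3.Exp.G H46R3.Exp.width_two H46R3.Exp.not_width_one
  have hσ := H46R3.Exp.sigma_le
  set σ : ℕ := sInf {c : ℕ | ∃ S : Finset (Fin 29),
          (∀ u ∈ S, ∀ v ∈ S, ¬ H46R3.Exp.G.Adj u v) ∧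
          c = S.card + {e ∈ H46R3.Exp.G.edgeSet | ∀ v ∈ e, v ∉ S}.ncard} with hσdef
  have h1 := (h.isLittleO.def (show (0 : ℝ) < 1 / 10 by norm_num)).and
    (Filter.eventually_ge_atTop 400)
  obtain ⟨n, hn, hn400⟩ := h1.exists
  rw [Pi.sub_apply, Real.norm_eq_abs, Real.norm_eq_abs] at hn
  have hlow : 11 * (((n - 12) / 2) * ((n - 12) / 2)) ≤ sSup {c : ℕ | ∃ H : Finset (Finset (Fin n)),
          (∀ h ∈ H, h.card = 3) ∧
          ¬ (∃ (φ : Fin 29 → Fin n) (w : Fin 29 → Fin 29 → Fin n),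
              Function.Injective φ ∧
              (∀ u v, H46R3.Exp.G.Adj u v →
                (∀ x, w u v ≠ φ x) ∧ ({φ u, φ v, w u v} : Finset (Fin n)) ∈ H) ∧
              (∀ u v u' v', H46R3.Exp.G.Adj u v → H46R3.Exp.G.Adj u' v' → w u v = w u' v' →
                (u = u' ∧ v = v') ∨ (u = v' ∧ v = u'))) ∧
          H.card = c} := by
    refine le_csSup ?_ ?_
    · refine ⟨(Finset.univ : Finset (Finset (Fin n))).card, ?_⟩
      rintro c ⟨H, -, -, rfl⟩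
      exact Finset.card_le_card (Finset.subset_univ H)
    · have hM : 12 + 2 * ((n - 12) / 2) ≤ n := by omega
      exact ⟨H46R3.Exp.sys n ((n - 12) / 2) hM, H46R3.Exp.sys_three n _ hM,
        H46R3.Exp.sys_free n _ hM, H46R3.Exp.sys_card n _ hM⟩
  set L : ℕ := sSup {c : ℕ | ∃ H : Finset (Finset (Fin n)),
          (∀ h ∈ H, h.card = 3) ∧
          ¬ (∃ (φ : Fin 29 → Fin n) (w : Fin 29 → Fin 29 → Fin n),
              Function.Injective φ ∧
              (∀ u v, H46R3.Exp.G.Adj u v →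
                (∀ x, w u v ≠ φ x) ∧ ({φ u, φ v, w u v} : Finset (Fin n)) ∈ H) ∧
              (∀ u v u' v', H46R3.Exp.G.Adj u v → H46R3.Exp.G.Adj u' v' → w u v = w u' v' →
                (u = u' ∧ v = v') ∨ (u = v' ∧ v = u'))) ∧
          H.card = c} with hL
  have hch : ((n.choose 2 : ℕ) : ℝ) ≤ (n : ℝ) ^ 2 / 2 := by
    rw [Nat.cast_choose_two]
    have : (0 : ℝ) ≤ n := Nat.cast_nonneg n
    nlinarith
  have hch0 : (0 : ℝ) ≤ ((n.choose 2 : ℕ) : ℝ) := Nat.cast_nonneg _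
  have hs0 : (0 : ℝ) ≤ (σ : ℝ) := Nat.cast_nonneg _
  have hs5 : (σ : ℝ) ≤ 5 := by exact_mod_cast hσ
  have habs : |((σ : ℝ) - 1) * ((n.choose 2 : ℕ) : ℝ)| ≤ 4 * ((n : ℝ) ^ 2 / 2) := by
    rw [abs_mul, abs_of_nonneg hch0]
    have h2 : |(σ : ℝ) - 1| ≤ 4 := by rw [abs_le]; constructor <;> linarith
    exact mul_le_mul h2 hch hch0 (by norm_num)
  have hup : (L : ℝ) ≤ 11 / 10 * (4 * ((n : ℝ) ^ 2 / 2)) := by
    have h3 := (abs_le.1 hn).2
    have h4 := le_abs_self (((σ : ℝ) - 1) * ((n.choose 2 : ℕ) : ℝ))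
    linarith
  have hM2 : ((n : ℝ) - 13) / 2 ≤ (((n - 12) / 2 : ℕ) : ℝ) := by
    have h5 : n ≤ 2 * ((n - 12) / 2) + 13 := by omega
    have h6 : (n : ℝ) ≤ 2 * (((n - 12) / 2 : ℕ) : ℝ) + 13 := by exact_mod_cast h5
    linarith
  have hlow' : 11 * ((((n - 12) / 2 : ℕ) : ℝ) * (((n - 12) / 2 : ℕ) : ℝ)) ≤ (L : ℝ) := by
    exact_mod_cast hlow
  have hn' : (400 : ℝ) ≤ n := by exact_mod_cast hn400
  nlinarith

end Pool.Agent.S09674
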