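import Pool.Statements.S09708

set_option autoImplicit false
open Pool Pool.MP_7e478a_co

namespace Pool.Agent.S09708

/-- two cells attack each other -/
def att {n : ℕ} (x y : Fin 3 → Fin n) : Prop :=
  ∃ t : ℤ, t ≠ 0 ∧ ∃ v : Fin 3 → ℤ, v ≠ 0 ∧
            (∀ i, v i = -1 ∨ v i = 0 ∨ v i = 1) ∧
            ∀ i, ((y i : ℕ) : ℤ) - ((x i : ℕ) : ℤ) = t * v i

/-- the blocking configuration in one slice -/
def QQ (M n : ℕ) : Finset (Fin 3 → Fin n) :=
  Finset.univ.filter (fun p => (p 2 : ℕ) = 0 ∧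
    (((p 0 : ℕ) < M ∧ (p 1 : ℕ) = 2 * (p 0 : ℕ) + 2) ∨
      (M < (p 0 : ℕ) ∧ (p 1 : ℕ) + 2 * M + 1 = 2 * (p 0 : ℕ))))

/-- the linear solution -/
def RR (n : ℕ) : Finset (Fin 3 → Fin n) :=
  Finset.univ.filter (fun p => n ∣ ((p 0 : ℕ) + 3 * (p 1 : ℕ) + 9 * (p 2 : ℕ)))

theorem QQ_noatt (M n : ℕ) (hn : n = 2 * M + 1) (hM : M % 3 = 2) : ∀ x ∈ QQ M n,
    ∀ y ∈ QQ M n, ¬ att x y := by
  intro x hx y hy ⟨t, ht, v, hv, hv1, h⟩
  simp only [QQ, Finset.mem_filter, Finset.mem_univ, true_and] at hx hy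
  have h0 := h 0
  have h1 := h 1
  have h2 := h 2
  obtain ⟨hx2, hx⟩ := hx
  obtain ⟨hy2, hy⟩ := hy
  have hx0 := (x 0).isLt
  have hx1 := (x 1).isLt
  have hy0 := (y 0).isLt
  have hy1 := (y 1).isLt
  have hv2 : v 2 = 0 := by
    rw [hx2, hy2] at h2
    have : t * v 2 = 0 := by rw [← h2]; simp
    rcases mul_eq_zero.mp this with h | h
    · exact absurd h ht
    · exact h
  have hne : ¬ (v 0 = 0 ∧ v 1 = 0) := by
    rintro ⟨a, b⟩
    apply hv
    funext i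
    fin_cases i
    · exact a
    · exact b
    · exact hv2
  rcases hv1 0 with a | a | a <;> rcases hv1 1 with b | b | b <;>
    rw [a] at h0 <;> rw [b] at h1 <;>
    rcases hx with hx | hx <;> rcases hy with hy | hy <;> omega

theorem QQ_card (M n : ℕ) : (QQ M n).card ≤ n := by
  have : (QQ M n).card ≤ (Finset.univ : Finset (Fin n)).card := by
    apply Finset.card_le_card_of_injOn (fun p => p 0)
    · intro p _
      simp
    · intro x hx y hy hxy
      simp only [QQ, Finset.coe_filter, Finset.mem_univ, true_and, Set.mem_ofPred_eq] at hx hy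
      simp only at hxy
      have e0 : (x 0 : ℕ) = (y 0 : ℕ) := by rw [hxy]
      have e1 : (x 1 : ℕ) = (y 1 : ℕ) := by omega
      have e2 : (x 2 : ℕ) = (y 2 : ℕ) := by omega
      funext i
      fin_cases i
      · exact hxy
      · exact Fin.ext e1
      · exact Fin.ext e2
  simpa using this

theorem cop (n : ℕ) (hcop : ∀ a : ℤ, a ∣ 30030 → IsCoprime (n : ℤ) a)
    (w : ℤ) (h1 : -13 ≤ w) (h2 : w ≤ 13) (h0 : w ≠ 0) (t : ℤ)
    (h : (n : ℤ) ∣ t * w) : (n : ℤ) ∣ t := by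
  have hc : IsCoprime (n : ℤ) w := by
    have k2 := hcop 2 (by norm_num)
    have k3 := hcop 3 (by norm_num)
    have k5 := hcop 5 (by norm_num)
    have k7 := hcop 7 (by norm_num)
    have k11 := hcop 11 (by norm_num)
    have k13 := hcop 13 (by norm_num)
    have k1 := hcop 1 (by norm_num)
    have pos : ∀ w : ℤ, 1 ≤ w → w ≤ 13 → IsCoprime (n : ℤ) w := by
      intro w h1 h2
      interval_cases w
      · exact k1
      · exact k2
      · exact k3
      · have := k2.mul_right k2; norm_num at this ⊢; exact this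
      · exact k5
      · have := k2.mul_right k3; norm_num at this ⊢; exact this
      · exact k7
      · have := (k2.mul_right k2).mul_right k2; norm_num at this ⊢; exact this
      · have := k3.mul_right k3; norm_num at this ⊢; exact this
      · have := k2.mul_right k5; norm_num at this ⊢; exact this
      · exact k11
      · have := (k2.mul_right k2).mul_right k3; norm_num at this ⊢; exact this
      · exact k13
    rcases lt_or_gt_of_ne h0 with h | h
    · have := pos (-w) (by omega) (by omega)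
      simpa using this.neg_right
    · exact pos w (by omega) h2
  exact hc.dvd_of_dvd_mul_right h

theorem RR_noatt (n : ℕ) (hcop : ∀ a : ℤ, a ∣ 30030 → IsCoprime (n : ℤ) a) : ∀ x ∈ RR n,
    ∀ y ∈ RR n, ¬ att x y := by
  intro x hx y hy ⟨t, ht, v, hv, hv1, h⟩
  simp only [RR, Finset.mem_filter, Finset.mem_univ, true_and] at hx hy
  have h0 := h 0
  have h1 := h 1
  have h2 := h 2
  have hne : ¬ (v 0 = 0 ∧ v 1 = 0 ∧ v 2 = 0) := by
    rintro ⟨a, b, c⟩
    apply hv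
    funext i
    fin_cases i
    · exact a
    · exact b
    · exact c
  have hxZ : (n : ℤ) ∣
      (((x 0 : ℕ) : ℤ) + 3 * ((x 1 : ℕ) : ℤ) + 9 * ((x 2 : ℕ) : ℤ)) := by
    have := Int.natCast_dvd_natCast.mpr hx
    push_cast at this ⊢
    exact this
  have hyZ : (n : ℤ) ∣
      (((y 0 : ℕ) : ℤ) + 3 * ((y 1 : ℕ) : ℤ) + 9 * ((y 2 : ℕ) : ℤ)) := by
    have := Int.natCast_dvd_natCast.mpr hy
    push_cast at this ⊢
    exact this
  have hd := dvd_sub hyZ hxZ
  have he : (((y 0 : ℕ) : ℤ) + 3 * ((y 1 : ℕ) : ℤ) + 9 * ((y 2 : ℕ) : ℤ)) -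
      (((x 0 : ℕ) : ℤ) + 3 * ((x 1 : ℕ) : ℤ) + 9 * ((x 2 : ℕ) : ℤ)) =
      t * (v 0 + 3 * v 1 + 9 * v 2) := by
    have : (((y 0 : ℕ) : ℤ) + 3 * ((y 1 : ℕ) : ℤ) + 9 * ((y 2 : ℕ) : ℤ)) -
      (((x 0 : ℕ) : ℤ) + 3 * ((x 1 : ℕ) : ℤ) + 9 * ((x 2 : ℕ) : ℤ)) =
      (((y 0 : ℕ) : ℤ) - ((x 0 : ℕ) : ℤ)) + 3 * (((y 1 : ℕ) : ℤ) - ((x 1 : ℕ) : ℤ))
        + 9 * (((y 2 : ℕ) : ℤ) - ((x 2 : ℕ) : ℤ)) := by ring
    rw [this, h0, h1, h2]; ring
  rw [he] at hd
  have hv0' := hv1 0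
  have hv1' := hv1 1
  have hv2' := hv1 2
  have hdt := cop n hcop (v 0 + 3 * v 1 + 9 * v 2) (by omega) (by omega) (by omega) t hd
  have hlt : |t| < (n : ℤ) := by
    have aux : ∀ (i : Fin 3), v i ≠ 0 → |t| < (n : ℤ) := by
      intro i hi
      have hxi := (x i).isLt
      have hyi := (y i).isLt
      have hi' := h i
      rw [abs_lt]
      rcases hv1 i with a | a | a
      · rw [a] at hi'; omega
      · exact absurd a hi
      · rw [a] at hi'; omega
    by_cases a : v 0 = 0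
    · by_cases b : v 1 = 0
      · by_cases c : v 2 = 0
        · exact absurd ⟨a, b, c⟩ hne
        · exact aux 2 c
      · exact aux 1 b
    · exact aux 0 a
  exact ht (Int.eq_zero_of_abs_lt_dvd hdt hlt)

theorem RR_card (n : ℕ) (hn : 0 < n) : n * n ≤ (RR n).card := by
  have : (Finset.univ : Finset (Fin n × Fin n)).card ≤ (RR n).card := by
    apply Finset.card_le_card_of_injOn
      (fun q => (![⟨(9 * n * n + 3 * n * n - 3 * (q.1 : ℕ) - 9 * (q.2 : ℕ)) % n, Nat.mod_lt _ hn⟩,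
        q.1, q.2] : Fin 3 → Fin n))
    · intro q _
      simp only [RR, Finset.coe_filter, Finset.mem_univ, true_and, Set.mem_ofPred_eq]
      show n ∣ (9 * n * n + 3 * n * n - 3 * (q.1 : ℕ) - 9 * (q.2 : ℕ)) % n
        + 3 * (q.1 : ℕ) + 9 * (q.2 : ℕ)
      have h1 := q.1.isLt
      have h2 := q.2.isLt
      have h3 : n ≤ n * n := Nat.le_mul_of_pos_left n hn
      have e : (9 * n * n + 3 * n * n - 3 * (q.1 : ℕ) - 9 * (q.2 : ℕ))
        + 3 * (q.1 : ℕ) + 9 * (q.2 : ℕ) = n * (12 * n) := by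
        have : 9 * n * n + 3 * n * n = n * (12 * n) := by ring
        rw [this]
        have h4 : n * (12 * n) = 12 * (n * n) := by ring
        omega
      have e2 : ((9 * n * n + 3 * n * n - 3 * (q.1 : ℕ) - 9 * (q.2 : ℕ)) % n
        + 3 * (q.1 : ℕ) + 9 * (q.2 : ℕ)) ≡ ((9 * n * n + 3 * n * n - 3 * (q.1 : ℕ) - 9 * (q.2 : ℕ))
        + 3 * (q.1 : ℕ) + 9 * (q.2 : ℕ)) [MOD n] := by
        exact Nat.ModEq.add_right _ (Nat.ModEq.add_right _ (Nat.mod_modEq _ _))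
      rw [e] at e2
      have e3 : n * (12 * n) ≡ 0 [MOD n] := (Nat.modEq_zero_iff_dvd).mpr ⟨12 * n, rfl⟩
      exact (Nat.modEq_zero_iff_dvd).mp (e2.trans e3)
    · intro q _ r _ hqr
      simp only at hqr
      have h1 := congrFun hqr 1
      have h2 := congrFun hqr 2
      exact Prod.ext h1 h2
  simpa using this

theorem main (M n : ℕ) (hn : n = 2 * M + 1) (hM : M % 3 = 2)
    (hcop : ∀ a : ℤ, a ∣ 30030 → IsCoprime (n : ℤ) a) :
    ¬ ∃ P : Finset (Fin 3 → Fin n), QQ M n ⊆ P ∧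
          (∀ x ∈ P, ∀ y ∈ P, ¬ att x y) ∧
          ∀ R : Finset (Fin 3 → Fin n),
            (∀ x ∈ R, ∀ y ∈ R, ¬ att x y) → R.card ≤ P.card := by
  rintro ⟨P, hQP, hP, hmax⟩
  have hR := hmax (RR n) (RR_noatt n hcop)
  have hRc := RR_card n (by omega)
  have hPc : n * n ≤ P.card := hRc.trans hR
  have hinj : Set.InjOn (fun p : Fin 3 → Fin n => (p 1, p 2)) (P : Set _) := by
    intro x hx y hy hxy
    by_contra hne
    apply hP x hx y hy
    simp only [Prod.mk.injEq] at hxy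
    obtain ⟨h1, h2⟩ := hxy
    have h0 : x 0 ≠ y 0 := by
      intro h0
      apply hne
      funext i
      fin_cases i
      · exact h0
      · exact h1
      · exact h2
    have h0' : (x 0 : ℕ) ≠ (y 0 : ℕ) := fun h => h0 (Fin.ext h)
    refine ⟨((y 0 : ℕ) : ℤ) - ((x 0 : ℕ) : ℤ), by omega, ![1, 0, 0], ?_, ?_, ?_⟩
    · intro h
      have := congrFun h 0
      simp at this
    · intro i
      fin_cases i <;> simp
    · intro i
      fin_cases i
      · simp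
      · simp [h1]
      · simp [h2]
  have hsurj : P.image (fun p : Fin 3 → Fin n => (p 1, p 2)) = Finset.univ := by
    apply Finset.eq_univ_of_card
    rw [Finset.card_image_of_injOn hinj]
    apply le_antisymm
    · rw [← Finset.card_image_of_injOn hinj]
      exact Finset.card_le_univ _
    · simpa using hPc
  have hz : (0 : ℕ) < n := by omega
  have hmem : ((⟨0, hz⟩ : Fin n), (⟨0, hz⟩ : Fin n)) ∈
      P.image (fun p : Fin 3 → Fin n => (p 1, p 2)) := by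
    rw [hsurj]; exact Finset.mem_univ _
  obtain ⟨p, hpP, hp⟩ := Finset.mem_image.mp hmem
  simp only [Prod.mk.injEq] at hp
  have hp1 : (p 1 : ℕ) = 0 := by rw [hp.1]
  have hp2 : (p 2 : ℕ) = 0 := by rw [hp.2]
  have hp0 := (p 0).isLt
  rcases lt_trichotomy (p 0 : ℕ) M with hlt | heq | hgt
  · -- column attack
    have hq : (![p 0, ⟨2 * (p 0 : ℕ) + 2, by omega⟩, ⟨0, hz⟩] : Fin 3 → Fin n) ∈ P := by
      apply hQP
      simp only [QQ, Finset.mem_filter, Finset.mem_univ, true_and]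
      refine ⟨rfl, Or.inl ⟨hlt, rfl⟩⟩
    apply hP p hpP _ hq
    refine ⟨2 * ((p 0 : ℕ) : ℤ) + 2, by omega, ![0, 1, 0], ?_, ?_, ?_⟩
    · intro h
      have := congrFun h 1
      simp at this
    · intro i
      fin_cases i <;> simp
    · intro i
      fin_cases i
      · simp
      · simp [hp1]
      · simp [hp2]
  · -- diagonal attack
    obtain ⟨j, hj⟩ : ∃ j, M = 3 * j + 2 := ⟨M / 3, by omega⟩
    have hq : (![⟨j, by omega⟩, ⟨2 * j + 2, by omega⟩, ⟨0, hz⟩] :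
        Fin 3 → Fin n) ∈ P := by
      apply hQP
      simp only [QQ, Finset.mem_filter, Finset.mem_univ, true_and]
      refine ⟨rfl, Or.inl ⟨?_, rfl⟩⟩
      show j < M
      omega
    apply hP p hpP _ hq
    refine ⟨2 * (j : ℤ) + 2, by omega, ![-1, 1, 0], ?_, ?_, ?_⟩
    · intro h
      have := congrFun h 1
      simp at this
    · intro i
      fin_cases i <;> simp
    · intro i
      fin_cases i
      · simp [heq, hj]; ring
      · simp [hp1]
      · simp [hp2]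
  · -- column attack
    have hq : (![p 0, ⟨2 * (p 0 : ℕ) - 2 * M - 1, by omega⟩, ⟨0, hz⟩] :
        Fin 3 → Fin n) ∈ P := by
      apply hQP
      simp only [QQ, Finset.mem_filter, Finset.mem_univ, true_and]
      refine ⟨rfl, Or.inr ⟨hgt, ?_⟩⟩
      show 2 * (p 0 : ℕ) - 2 * M - 1 + 2 * M + 1 = 2 * (p 0 : ℕ)
      omega
    apply hP p hpP _ hq
    refine ⟨((2 * (p 0 : ℕ) - 2 * M - 1 : ℕ) : ℤ), by omega, ![0, 1, 0], ?_, ?_, ?_⟩
    · intro h
      have := congrFun h 1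
      simp at this
    · intro i
      fin_cases i <;> simp
    · intro i
      fin_cases i
      · simp
      · simp [hp1]
      · simp [hp2]

/-- The negation of the preceding statement: For every d ≥ 3 there is c > 0 such that, for all large n, every set of non-attacking queens on the n^d board of size at most n^(d-1)/c extends to a non-attacking set of maximum possible size. -/
theorem result :
    ¬ (∀ d : ℕ, 3 ≤ d → ∃ c : ℝ, 0 < c ∧ ∃ N : ℕ, ∀ n : ℕ, N ≤ n →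
      ∀ Q : Finset (Fin d → Fin n),
        (∀ x ∈ Q, ∀ y ∈ Q, ¬ ∃ t : ℤ, t ≠ 0 ∧ ∃ v : Fin d → ℤ, v ≠ 0 ∧
            (∀ i, v i = -1 ∨ v i = 0 ∨ v i = 1) ∧
            ∀ i, ((y i : ℕ) : ℤ) - ((x i : ℕ) : ℤ) = t * v i) →
        (Q.card : ℝ) ≤ (n : ℝ) ^ (d - 1) / c →
        ∃ P : Finset (Fin d → Fin n), Q ⊆ P ∧
          (∀ x ∈ P, ∀ y ∈ P, ¬ ∃ t : ℤ, t ≠ 0 ∧ ∃ v : Fin d → ℤ, v ≠ 0 ∧
            (∀ i, v i = -1 ∨ v i = 0 ∨ v i = 1) ∧
            ∀ i, ((y i : ℕ) : ℤ) - ((x i : ℕ) : ℤ) = t * v i) ∧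
          ∀ R : Finset (Fin d → Fin n),
            (∀ x ∈ R, ∀ y ∈ R, ¬ ∃ t : ℤ, t ≠ 0 ∧ ∃ v : Fin d → ℤ, v ≠ 0 ∧
              (∀ i, v i = -1 ∨ v i = 0 ∨ v i = 1) ∧
              ∀ i, ((y i : ℕ) : ℤ) - ((x i : ℕ) : ℤ) = t * v i) →
            R.card ≤ P.card) := by
  intro H
  obtain ⟨c, hc, N, hN⟩ := H 3 le_rfl
  obtain ⟨k0, hk0⟩ := exists_nat_ge c
  obtain ⟨k, hNk, hkk⟩ : ∃ k : ℕ, N ≤ k ∧ k0 ≤ k := ⟨max N k0, le_max_left _ _, le_max_right _ _⟩
  have hkc : c ≤ (k : ℝ) := hk0.trans (by exact_mod_cast hkk)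
  obtain ⟨M, hM⟩ : ∃ M : ℕ, M + 1 = 15015 * (k + 1) := ⟨15015 * k + 15014, by ring⟩
  obtain ⟨n, hn⟩ : ∃ n : ℕ, n = 2 * M + 1 := ⟨_, rfl⟩
  have hM3 : M % 3 = 2 := by omega
  have hkn : k ≤ n := by omega
  have hcop : ∀ a : ℤ, a ∣ 30030 → IsCoprime (n : ℤ) a := by
    rintro a ⟨b, hb⟩
    refine ⟨-1, b * (k + 1), ?_⟩
    have e1 : b * (k + 1) * a = 30030 * (k + 1) := by rw [hb]; ring
    have e2 : (n : ℤ) = 2 * (M : ℤ) + 1 := by rw [hn]; push_cast; ring
    have e3 : (M : ℤ) + 1 = 15015 * ((k : ℤ) + 1) := by exact_mod_cast hM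
    rw [e1, e2]
    linarith
  refine main M n hn hM3 hcop (hN n (by omega) (QQ M n) (QQ_noatt M n hn hM3) ?_)
  have h1 := QQ_card M n
  have h2 : (((QQ M n).card : ℕ) : ℝ) ≤ (n : ℝ) := by exact_mod_cast h1
  refine h2.trans ?_
  rw [le_div_iff₀ hc]
  have h3 : c ≤ (n : ℝ) := by
    refine hkc.trans ?_
    exact_mod_cast hkn
  have h4 : (0 : ℝ) ≤ (n : ℝ) := Nat.cast_nonneg _
  show (n : ℝ) * c ≤ (n : ℝ) ^ 2
  rw [sq]
  exact mul_le_mul_of_nonneg_left h3 h4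

end Pool.Agent.S09708
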