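import Pool.Statements.S09751
import Pool.Agent.H294R2.BF.Cube

set_option autoImplicit false
open Pool Pool.MP_802e1f_co

namespace Pool.Agent.S09751

open Finset

/-- The subset of `Fin m` coded by a Boolean vector. -/
def st {m : ℕ} (x : Fin m → Bool) : Finset (Fin m) := univ.filter (fun j => x j = true)

lemma mem_st {m : ℕ} {x : Fin m → Bool} {j : Fin m} : j ∈ st x ↔ x j = true := by simp [st]

lemma st_not {m : ℕ} (x : Fin m → Bool) : st (fun j => !x j) = (st x)ᶜ := by
  ext j
  rw [mem_compl, mem_st, mem_st]
  cases x j <;> simp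

/-- Relevant elements of a function. -/
def rel {m : ℕ} (f : Finset (Fin m) → ℝ) : Set (Fin m) :=
  {g | ∃ S : Finset (Fin m), f S ≠ f (insert g S)}

/-- If a function is 1-Lipschitz and irrelevant elements do not matter, then changing the input
on a set `T` changes the value by at most the number of relevant elements in `T`. -/
lemma change {m : ℕ} (f : Finset (Fin m) → ℝ)
    (hf : ∀ S : Finset (Fin m), ∀ g : Fin m, |f (insert g S) - f S| ≤ 1)
    (R : Finset (Fin m)) (hR : ∀ g, g ∉ R → ∀ S : Finset (Fin m), f (insert g S) = f S) :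
    ∀ (T : Finset (Fin m)) (x y : Fin m → Bool), (∀ j, j ∉ T → x j = y j) →
      |f (st x) - f (st y)| ≤ ((T ∩ R).card : ℝ) := by
  intro T
  induction T using Finset.induction_on with
  | empty =>
    intro x y h
    have : x = y := funext fun j => h j (by simp)
    rw [this]; simp
  | insert a T ha ih =>
    intro x y h
    -- change x at a to agree with y
    set x' := Function.update x a (y a) with hx'
    have h1 : |f (st x') - f (st y)| ≤ ((T ∩ R).card : ℝ) := by
      apply ih
      intro j hj
      by_cases hja : j = a
      · subst hja; simp [hx']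
      · rw [hx', Function.update_of_ne hja]
        exact h j (by simp [hja, hj])
    -- compare x and x'
    have key : ∀ z : Fin m → Bool, ∀ b : Bool,
        |f (st z) - f (st (Function.update z a b))| ≤ (if a ∈ R then (1:ℝ) else 0) := by
      intro z b
      -- both are either the erased set or the inserted set
      set E := (st z).erase a with hE
      have hz : st z = if z a then insert a E else E := by
        ext j
        by_cases hja : j = a
        · subst hja
          cases hb : z j <;> simp [hE, mem_st, hb]
        · cases hb : z a <;> simp [hE, mem_st, hja]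
      have hzb : st (Function.update z a b) = if b then insert a E else E := by
        ext j
        by_cases hja : j = a
        · subst hja
          cases b <;> simp [hE, mem_st]
        · cases b <;> simp [hE, mem_st, hja]
      have hd : |f (insert a E) - f E| ≤ (if a ∈ R then (1:ℝ) else 0) := by
        by_cases haR : a ∈ R
        · rw [if_pos haR]; exact hf E a
        · rw [if_neg haR, hR a haR E]; simp
      have hnn : (0:ℝ) ≤ (if a ∈ R then (1:ℝ) else 0) := by split_ifs <;> norm_num
      rw [hz, hzb]
      cases z a <;> cases b <;> simp only [if_true, if_false, Bool.false_eq_true]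
      · simpa using hnn
      · rw [abs_sub_comm]; exact hd
      · exact hd
      · simpa using hnn
    have h2 := key x (y a)
    have h3 : ((insert a T ∩ R).card : ℝ) = ((T ∩ R).card : ℝ) + (if a ∈ R then (1:ℝ) else 0) := by
      by_cases haR : a ∈ R
      · rw [if_pos haR, Finset.insert_inter_of_mem haR, Finset.card_insert_of_notMem]
        · push_cast; ring
        · simp [ha]
      · rw [if_neg haR, Finset.insert_inter_of_notMem haR]; ring
    rw [h3]
    calc |f (st x) - f (st y)| = |(f (st x) - f (st x')) + (f (st x') - f (st y))| := by ring_nf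
      _ ≤ |f (st x) - f (st x')| + |f (st x') - f (st y)| := abs_add_le _ _
      _ ≤ _ := by linarith

/-- **Main theorem**: discrepancy at most `t` for `t`-sparse families of 1-Lipschitz functions. -/
theorem main_bound (t m n : ℕ) (f : Fin n → Finset (Fin m) → ℝ)
    (hf : ∀ i : Fin n, ∀ S : Finset (Fin m), ∀ g : Fin m, |f i (insert g S) - f i S| ≤ 1)
    (hs : ∀ g : Fin m,
      {i : Fin n | ∃ S : Finset (Fin m), f i S ≠ f i (insert g S)}.ncard ≤ t) :
    ∃ S : Finset (Fin m), ∀ i : Fin n, |f i S - f i Sᶜ| ≤ (t : ℝ) := by
  classical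
  by_contra hcon
  push Not at hcon
  -- the odd functions
  set G : (Fin m → Bool) → Fin n → ℝ := fun x i => f i (st x) - f i (st x)ᶜ with hG
  have hodd : ∀ x i, G (fun j => !x j) i = - G x i := by
    intro x i
    simp only [hG, st_not, compl_compl]; ring
  set bad : (Fin m → Bool) → Finset (Fin n) :=
    fun x => univ.filter (fun i => (t : ℝ) < |G x i|) with hbadd
  have hbinv : ∀ x, bad (fun j => !x j) = bad x := by
    intro x; simp only [hbadd, hodd, abs_neg]
  have hne : ∀ x, (bad x).Nonempty := by
    intro x
    obtain ⟨i, hi⟩ := hcon (st x)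
    exact ⟨i, by simp only [hbadd, mem_filter, mem_univ, true_and]; exact hi⟩
  set ii : (Fin m → Bool) → Fin n := fun x => (bad x).min' (hne x) with hii
  have hbad : ∀ x, (t : ℝ) < |G x (ii x)| := by
    intro x
    have h := Finset.min'_mem _ (hne x)
    exact (Finset.mem_filter.1 h).2
  have hiinv : ∀ x, ii (fun j => !x j) = ii x := by
    intro x
    simp only [hii]
    congr 1
    exact hbinv x
  have ht0 : (0 : ℝ) ≤ t := Nat.cast_nonneg t
  set L : (Fin m → Bool) → Fin n × Bool := fun x => (ii x, decide (0 < G x (ii x))) with hLd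
  have hL : ∀ x, L (fun j => !x j) = ((L x).1, !(L x).2) := by
    intro x
    have h1 : G (fun j => !x j) (ii x) = - G x (ii x) := hodd x _
    have h2 := hbad x
    simp only [hLd, hiinv x, h1, Prod.mk.injEq, true_and]
    by_cases hp : 0 < G x (ii x)
    · have : ¬ (G x (ii x) < 0) := by linarith
      simp [hp, this]
    · have h3 : G x (ii x) < 0 := by
        rcases lt_trichotomy (G x (ii x)) 0 with h | h | h
        · exact h
        · rw [h, abs_zero] at h2; linarith
        · exact absurd h hp
      simp [hp, h3]
  have hpos : ∀ x i, L x = (i, true) → (t : ℝ) < G x i := by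
    intro x i h
    simp only [hLd, Prod.mk.injEq, decide_eq_true_eq] at h
    obtain ⟨h1, h2⟩ := h
    have h3 := hbad x
    rw [abs_of_pos h2] at h3
    rwa [h1] at h3
  have hneg : ∀ x i, L x = (i, false) → G x i < -(t : ℝ) := by
    intro x i h
    simp only [hLd, Prod.mk.injEq, decide_eq_false_iff_not, not_lt] at h
    obtain ⟨h1, h2⟩ := h
    have h3 := hbad x
    rw [abs_of_nonpos h2] at h3
    rw [h1] at h3
    linarith
  obtain ⟨S, x, P, hS, hSP, hP⟩ := H294BF.cube_tucker L hL
  -- relevant sets
  set R : Fin n → Finset (Fin m) :=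
    fun i => univ.filter (fun g => ∃ S : Finset (Fin m), f i S ≠ f i (insert g S)) with hRd
  have hR : ∀ i g, g ∉ R i → ∀ S : Finset (Fin m), f i (insert g S) = f i S := by
    intro i g hg S
    simp only [hRd, mem_filter, mem_univ, true_and, not_exists, not_not] at hg
    exact (hg S).symm
  have hw : ∀ i ∈ P, (t : ℝ) < ((S ∩ R i).card : ℝ) := by
    intro i hi
    obtain ⟨⟨y, hy, hyi⟩, ⟨z, hz, hzi⟩⟩ := hP i hi
    have h1 := hpos y i hyi
    have h2 := hneg z i hzi
    have hyz : ∀ j, j ∉ S → y j = z j := fun j hj => by rw [hy j hj, hz j hj]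
    have h3 := change (f i) (hf i) (R i) (hR i) S y z hyz
    have h4 := change (f i) (hf i) (R i) (hR i) S (fun j => !y j) (fun j => !z j)
      (fun j hj => by rw [hyz j hj])
    rw [st_not, st_not] at h4
    have h5 : G y i - G z i ≤ 2 * ((S ∩ R i).card : ℝ) := by
      have e : G y i - G z i = (f i (st y) - f i (st z)) - (f i (st y)ᶜ - f i (st z)ᶜ) := by
        simp only [hG]; ring
      rw [e]
      have a1 := abs_le.1 h3
      have a2 := abs_le.1 h4
      linarith [a1.2, a2.1]
    linarith
  have hw' : ∀ i ∈ P, t + 1 ≤ (S ∩ R i).card := by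
    intro i hi
    have := hw i hi
    exact_mod_cast this
  have h1 : P.card * (t + 1) ≤ ∑ i ∈ P, (S ∩ R i).card := by
    rw [← smul_eq_mul]
    exact Finset.card_nsmul_le_sum P _ _ hw'
  have h2 : ∑ i ∈ P, (S ∩ R i).card ≤ S.card * t := by
    have e1 : ∀ i, (S ∩ R i).card = ∑ g ∈ S, if g ∈ R i then 1 else 0 := by
      intro i
      rw [← Finset.filter_mem_eq_inter, Finset.card_filter]
    simp only [e1]
    rw [Finset.sum_comm, ← smul_eq_mul]
    apply Finset.sum_le_card_nsmul
    intro g _
    rw [← Finset.card_filter]
    refine le_trans ?_ (hs g)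
    rw [← Set.ncard_coe_finset]
    apply Set.ncard_le_ncard _ (Set.toFinite _)
    intro i hi
    simp only [hRd, coe_filter, mem_filter, mem_univ, true_and, Set.mem_setOf_eq] at hi ⊢
    exact hi.2
  have hPne : 0 < S.card := Finset.card_pos.2 hS
  have h3 : P.card * (t + 1) ≤ P.card * t :=
    (h1.trans h2).trans (Nat.mul_le_mul_right t hSP)
  have h4 : 0 < P.card := lt_of_lt_of_le hPne hSP
  nlinarith

/-- For each t there is a constant C such that every family of 1-Lipschitz functions on subsets of [m], where each element is relevant for at most t functions, admits a set S with ∣f_i(S) − f_i(complement of S)∣ ≤ C for all i. -/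
theorem result :
    ∀ t : ℕ, ∃ C : ℝ, ∀ m n : ℕ, ∀ f : Fin n → Finset (Fin m) → ℝ,
      (∀ i : Fin n, ∀ S : Finset (Fin m), ∀ g : Fin m,
          |f i (insert g S) - f i S| ≤ 1) →
      (∀ g : Fin m,
          {i : Fin n | ∃ S : Finset (Fin m), f i S ≠ f i (insert g S)}.ncard ≤ t) →
      ∃ S : Finset (Fin m), ∀ i : Fin n, |f i S - f i Sᶜ| ≤ C := by
  intro t
  exact ⟨t, fun m n f hf hs => main_bound t m n f hf hs⟩

end Pool.Agent.S09751
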