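import Pool.Statements.S09789
import Pool.Agent.H452R3.Bridge

set_option autoImplicit false
open Pool Pool.MP_81a4d5_co

namespace Pool.Agent.S09789

open Pool.Agent.H452R3 in
/-- For every field K, every ℓ≥1 and every arrangement of distinct hyperplanes in K^ℓ, the polynomial Σ_p Hilb(D^p(A);x)(−x)^p vanishes above degree ∣A∣ and has coefficient 1 at x^∣A∣. -/
theorem result :
    ∀ (K : Type) [Field K] (ℓ : ℕ), 1 ≤ ℓ → ∀ A : Finset (Fin ℓ → K),
      (∀ a ∈ A, a ≠ 0) →
      (∀ a ∈ A, ∀ b ∈ A, a ≠ b → LinearIndependent K ![a, b]) →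
      ∀ n : ℕ, A.card ≤ n →
        (∑ p ∈ Finset.range (ℓ + 1),
          if p ≤ n then
            (-1 : ℤ) ^ p *
              ((Module.finrank K
                (Submodule.span K
                  {c : (Fin p → Fin ℓ) → MvPolynomial (Fin ℓ) K |
                    (∀ i : Fin p → Fin ℓ, ¬ StrictMono i → c i = 0) ∧
                    (∀ i : Fin p → Fin ℓ, (c i).IsHomogeneous (n - p)) ∧
                    ∀ a ∈ A, ∀ f : Fin p → MvPolynomial (Fin ℓ) K, ∀ j : Fin p,
                      f j = (∑ m : Fin ℓ, MvPolynomial.C (a m) * MvPolynomial.X m) →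
                      (∑ m : Fin ℓ, MvPolynomial.C (a m) * MvPolynomial.X m) ∣
                        ∑ i : Fin p → Fin ℓ,
                          c i * (Matrix.of fun r s => MvPolynomial.pderiv (i r) (f s)).det}) : ℕ) : ℤ)
          else 0) = if n = A.card then 1 else 0 := by
  intro K _ ℓ _ A hA hA2 n hn
  have hmain := EF_DD hA hA2 hn
  have hEF : EF ((DD A).restrictScalars K) n =
      ∑ p ∈ Finset.range (n + 1), (-1 : ℤ) ^ p *
        (pc ((DD A).restrictScalars K) p (n - p) : ℤ) := by
    unfold EF
    rw [Finset.Nat.sum_antidiagonal_eq_sum_range_succ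
      (f := fun p j => (-1 : ℤ) ^ p * (pc ((DD A).restrictScalars K) p j : ℤ))]
  have hzero : ∀ p j : ℕ, ℓ < p → pc ((DD A).restrictScalars K) p j = 0 := by
    intro p j hp
    unfold pc
    have : (DD A).restrictScalars K ⊓ GP K ℓ p j = ⊥ := by
      rw [eq_bot_iff]
      intro c hc
      rw [Submodule.mem_bot]
      funext I
      apply hc.2.1 I
      have : I.card ≤ ℓ := by simpa using Finset.card_le_univ I
      omega
    rw [this]
    exact finrank_bot K _
  have hterm : ∀ p : ℕ, (if p ≤ n then
            (-1 : ℤ) ^ p *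
              ((Module.finrank K
                (Submodule.span K
                  {c : (Fin p → Fin ℓ) → MvPolynomial (Fin ℓ) K |
                    (∀ i : Fin p → Fin ℓ, ¬ StrictMono i → c i = 0) ∧
                    (∀ i : Fin p → Fin ℓ, (c i).IsHomogeneous (n - p)) ∧
                    ∀ a ∈ A, ∀ f : Fin p → MvPolynomial (Fin ℓ) K, ∀ j : Fin p,
                      f j = (∑ m : Fin ℓ, MvPolynomial.C (a m) * MvPolynomial.X m) →
                      (∑ m : Fin ℓ, MvPolynomial.C (a m) * MvPolynomial.X m) ∣
                        ∑ i : Fin p → Fin ℓ,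
                          c i * (Matrix.of fun r s => MvPolynomial.pderiv (i r) (f s)).det}) : ℕ) : ℤ)
          else 0) = if p ≤ n then (-1 : ℤ) ^ p *
            (pc ((DD A).restrictScalars K) p (n - p) : ℤ) else 0 := by
    intro p
    split_ifs
    · have h := finrank_FS A p (n - p)
      rw [← h]
      rfl
    · rfl
  rw [Finset.sum_congr rfl (fun p _ => hterm p)]
  rw [← hmain, hEF]
  -- both sums run over `p ≤ min n ℓ`
  rw [← Finset.sum_filter]
  apply Finset.sum_subset_zero_on_sdiff
  · intro p hp
    rw [Finset.mem_filter] at hp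
    rw [Finset.mem_range]
    omega
  · intro p hp
    rw [Finset.mem_sdiff, Finset.mem_filter, Finset.mem_range, Finset.mem_range] at hp
    rw [hzero p (n - p) (by
      by_contra hcon
      exact hp.2 ⟨by omega, by omega⟩)]
    simp
  · intro p _
    rfl

end Pool.Agent.S09789
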