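import Pool.Statements.S09824
import Pool.Agent.H174R3.CC

set_option autoImplicit false
open Pool Pool.MP_836894_co

namespace Pool.Agent.S09824

open Pool.Agent.H174R3.CC

/-- The graph: complement of the blow-up of the 5-cycle in which each vertex is replaced by an
independent set of size 3. -/
def G15 : SimpleGraph (Fin 15) where
  Adj u v := adjN u.val v.val = true
  symm := ⟨by
    have h : ∀ u v : Fin 15, adjN u.val v.val = true → adjN v.val u.val = true := by decide +kernel
    intro u v huv
    exact h u v huv⟩
  loopless := ⟨by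
    have h : ∀ u : Fin 15, ¬ adjN u.val u.val = true := by decide +kernel
    intro u hu
    exact h u hu⟩

theorem adj_iff (u v : Fin 15) : G15.Adj u v ↔ adjN u.val v.val = true := Iff.rfl

theorem adj_shift (a u v : Fin 15) (h : adjN u.val v.val = true) :
    adjN (u - a).val (v - a).val = true := by
  have key : ∀ a u v : Fin 15, adjN u.val v.val = true → adjN (u - a).val (v - a).val = true := by
    decide +kernel
  exact key a u v h

theorem not_colorable : ¬ G15.Colorable 7 := by
  rintro ⟨C⟩
  have hlt : Fintype.card (Fin 7) * 2 < Fintype.card (Fin 15) := by simp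
  obtain ⟨y, hy⟩ := Fintype.exists_lt_card_fiber_of_mul_lt_card (fun v => C v) hlt
  obtain ⟨p, hp, q, hq, r, hr, hpq, hpr, hqr⟩ := Finset.two_lt_card.mp hy
  simp only [Finset.mem_filter, Finset.mem_univ, true_and] at hp hq hr
  have h1 : ¬ G15.Adj p q := fun h => C.valid h (hp.trans hq.symm)
  have h2 : ¬ G15.Adj p r := fun h => C.valid h (hp.trans hr.symm)
  have h3 : ¬ G15.Adj q r := fun h => C.valid h (hq.trans hr.symm)
  rw [adj_iff] at h1 h2 h3
  have key : ∀ p q r : Fin 15, p ≠ q → p ≠ r → q ≠ r →
      ¬ adjN p.val q.val = true → ¬ adjN p.val r.val = true → ¬ adjN q.val r.val = true → False := by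
    decide +kernel
  exact key p q r hpq hpr hqr h1 h2 h3

theorem connected : G15.Connected := by
  have key : ∀ u v : Fin 15, adjN u.val v.val = true ∨
      ∃ w : Fin 15, adjN u.val w.val = true ∧ adjN w.val v.val = true := by decide +kernel
  refine (SimpleGraph.connected_iff_exists_forall_reachable G15).mpr ⟨0, fun v => ?_⟩
  rcases key 0 v with h | ⟨w, h1, h2⟩
  · exact SimpleGraph.Adj.reachable ((adj_iff 0 v).mpr h)
  · exact (SimpleGraph.Adj.reachable ((adj_iff 0 w).mpr h1)).trans
      (SimpleGraph.Adj.reachable ((adj_iff w v).mpr h2))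

theorem ne_top : G15 ≠ ⊤ := by
  intro h
  have h1 : (⊤ : SimpleGraph (Fin 15)).Adj 0 1 := by
    rw [SimpleGraph.top_adj]; decide
  rw [← h] at h1
  have : ¬ adjN (0 : Fin 15).val (1 : Fin 15).val = true := by decide +kernel
  exact this h1

/-- what the table check gives, in terms of residues -/
theorem chk_spec (b c d : Fin 15) (hb : adjN 0 b.val = true) (hcd : adjN c.val d.val = true) :
    chk b.val c.val d.val (look b.val c.val d.val) = true := by
  have h := chkAll_true
  unfold chkAll at h
  rw [List.all_eq_true] at h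
  have h1 := h b.val (List.mem_range.mpr b.isLt)
  rw [hb] at h1
  simp only [Bool.not_true, Bool.false_or] at h1
  rw [List.all_eq_true] at h1
  have h2 := h1 c.val (List.mem_range.mpr c.isLt)
  rw [List.all_eq_true] at h2
  have h3 := h2 d.val (List.mem_range.mpr d.isLt)
  rw [hcd] at h3
  simpa using h3

theorem chk_parts (b c d : Fin 15) (k : ℕ) (h : chk b.val c.val d.val k = true) :
    (∀ v : Fin 15, colN k v.val < 7) ∧ colN k 0 = colN k b.val ∧ colN k c.val = colN k d.val ∧
    (∀ u v : Fin 15, adjN u.val v.val = true → colN k u.val = colN k v.val →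
      relN b.val c.val d.val u.val v.val = true ∨
      ∃ w : Fin 15, relN b.val c.val d.val u.val w.val = true ∧
        relN b.val c.val d.val w.val v.val = true) := by
  unfold chk at h
  simp only [Bool.and_eq_true] at h
  obtain ⟨⟨⟨h1, h2⟩, h3⟩, h4⟩ := h
  rw [List.all_eq_true] at h1 h4
  refine ⟨?_, ?_, ?_, ?_⟩
  · intro v
    have := h1 v.val (List.mem_range.mpr v.isLt)
    exact of_decide_eq_true this
  · exact beq_iff_eq.mp h2
  · exact beq_iff_eq.mp h3
  · intro u v huv hcol
    have h5 := h4 u.val (List.mem_range.mpr u.isLt)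
    rw [List.all_eq_true] at h5
    have h6 := h5 v.val (List.mem_range.mpr v.isLt)
    rw [huv] at h6
    have h7 : (colN k u.val == colN k v.val) = true := beq_iff_eq.mpr hcol
    rw [h7] at h6
    simp only [Bool.not_true, Bool.false_or] at h6
    unfold relT at h6
    rw [Bool.or_eq_true] at h6
    rcases h6 with h6 | h6
    · exact Or.inl h6
    · right
      rw [List.any_eq_true] at h6
      obtain ⟨w, hw, hw2⟩ := h6
      rw [Bool.and_eq_true] at hw2
      exact ⟨⟨w, List.mem_range.mp hw⟩, hw2.1, hw2.2⟩

theorem rel_shift (a b c d x y : Fin 15)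
    (h : relN (b - a).val (c - a).val (d - a).val (x - a).val (y - a).val = true) :
    (x = a ∧ y = b) ∨ (x = b ∧ y = a) ∨ (x = c ∧ y = d) ∨ (x = d ∧ y = c) := by
  unfold relN at h
  simp only [Bool.or_eq_true, Bool.and_eq_true, beq_iff_eq] at h
  have e0 : ∀ z : Fin 15, (z - a).val = 0 → z = a := by
    intro z hz
    have : z - a = 0 := Fin.ext hz
    exact sub_eq_zero.mp this
  have e1 : ∀ z w : Fin 15, (z - a).val = (w - a).val → z = w := by
    intro z w hz
    have : z - a = w - a := Fin.ext hz
    exact sub_left_inj.mp this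
  rcases h with ((h | h) | h) | h
  · exact Or.inl ⟨e0 _ h.1, e1 _ _ h.2⟩
  · exact Or.inr (Or.inl ⟨e1 _ _ h.1, e0 _ h.2⟩)
  · exact Or.inr (Or.inr (Or.inl ⟨e1 _ _ h.1, e1 _ _ h.2⟩))
  · exact Or.inr (Or.inr (Or.inr ⟨e1 _ _ h.1, e1 _ _ h.2⟩))

/-- The negation of the preceding statement: Every finite connected graph in which contracting any one edge or any two edges yields a graph colourable with fewer colours than the chromatic number of G is a complete graph. -/
theorem result :
    ¬ (∀ (n : ℕ) (G : SimpleGraph (Fin n)), G.Connected →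
      (∀ a b c d : Fin n, G.Adj a b → G.Adj c d →
        ∃ k : ℕ, ¬ G.Colorable k ∧
          ∃ col : Fin n → Fin k,
            col a = col b ∧ col c = col d ∧
            (∀ u v : Fin n, G.Adj u v →
              ¬ Relation.ReflTransGen
                  (fun x y : Fin n =>
                    (x = a ∧ y = b) ∨ (x = b ∧ y = a) ∨ (x = c ∧ y = d) ∨ (x = d ∧ y = c))
                  u v →
              col u ≠ col v)) →
      G = ⊤) := by
  intro H
  refine ne_top (H 15 G15 connected ?_)
  intro a b c d hab hcd
  refine ⟨7, not_colorable, ?_⟩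
  have hb : adjN 0 (b - a).val = true := by
    have := adj_shift a a b hab
    simpa using this
  have hc : adjN (c - a).val (d - a).val = true := adj_shift a c d hcd
  obtain ⟨p1, p2, p3, p4⟩ := chk_parts (b - a) (c - a) (d - a) _ (chk_spec (b - a) (c - a) (d - a) hb hc)
  set k := look (b - a).val (c - a).val (d - a).val with hk
  refine ⟨fun v => ⟨colN k (v - a).val, p1 (v - a)⟩, ?_, ?_, ?_⟩
  · apply Fin.ext
    have h0 : (a - a : Fin 15).val = 0 := by simp
    show colN k (a - a).val = colN k (b - a).val
    rw [h0]; exact p2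
  · apply Fin.ext
    exact p3
  · intro u v huv hnot hcol
    apply hnot
    have hcol' : colN k (u - a).val = colN k (v - a).val := congrArg Fin.val hcol
    rcases p4 (u - a) (v - a) (adj_shift a u v huv) hcol' with h | ⟨w, hw1, hw2⟩
    · exact Relation.ReflTransGen.single (rel_shift a b c d u v h)
    · have hw : w = (w + a) - a := by simp
      rw [hw] at hw1 hw2
      exact Relation.ReflTransGen.tail
        (Relation.ReflTransGen.single (rel_shift a b c d u (w + a) hw1))
        (rel_shift a b c d (w + a) v hw2)

end Pool.Agent.S09824
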