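import Pool.Statements.S09825
import Pool.Agent.H240R3.HypH

set_option autoImplicit false
open Classical
open Pool Pool.MP_837616_co

namespace Pool.Agent.S09825

open Pool.Agent.H240R3 in
lemma frac_eq (n : ℕ) :
    ((((Finset.univ : Finset (Fin n)).powersetCard 5).powerset.filter
              (fun H => Function.Injective
                (fun v : Fin n => (H.filter (fun e => v ∈ e)).card))).card : ℝ)
            / (2 : ℝ) ^ (n.choose 5)
      = EE (EK n 5) (fun H =>
      if Function.Injective (fun v : Fin n => deg H v) then (1 : ℝ) else 0) := by
  unfold EE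
  have h3 : (EK n 5).card = n.choose 5 := by
    unfold EK
    rw [Finset.card_powersetCard, Finset.card_univ, Fintype.card_fin]
  rw [h3, Finset.card_filter]
  push_cast
  congr 1

/-- There is c > 0 such that for all large n, at least a c fraction of the 5-uniform hypergraphs on n labeled vertices have pairwise distinct vertex degrees. -/
theorem result :
    ∃ c : ℝ, 0 < c ∧ ∃ N : ℕ, ∀ n : ℕ, N ≤ n →
      c ≤ ((((Finset.univ : Finset (Fin n)).powersetCard 5).powerset.filter
              (fun H => Function.Injective
                (fun v : Fin n => (H.filter (fun e => v ∈ e)).card))).card : ℝ)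
            / (2 : ℝ) ^ (n.choose 5) := by
  obtain ⟨c, hc, N, hN⟩ := Pool.Agent.H240R3.irr_bounded_below
  refine ⟨c, hc, N, fun n hn => ?_⟩
  rw [frac_eq n]
  exact hN n hn

end Pool.Agent.S09825
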