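import Pool.Statements.S09828

set_option autoImplicit false
open Pool Pool.MP_83775f_co

namespace Pool.Agent.S09828

/-- The vertex set of the complete `k`-ary tree of depth `D`: words of length at most `D`;
the parent of `a :: l` is `l`. -/
abbrev TV (k D : ℕ) : Type := {l : List (Fin k) // l.length ≤ D}

noncomputable instance (k D : ℕ) : Fintype (TV k D) :=
  (List.finite_length_le (Fin k) D).fintype

/-- The complete `k`-ary tree of depth `D`. -/
def tree (k D : ℕ) : SimpleGraph (TV k D) where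
  Adj u v := (∃ a, v.1 = a :: u.1) ∨ (∃ a, u.1 = a :: v.1)
  symm := ⟨fun u v h => h.symm⟩
  loopless := ⟨fun u h => by
    rcases h with ⟨a, h⟩ | ⟨a, h⟩ <;> exact absurd (congrArg List.length h) (by simp)⟩

theorem cross {k D : ℕ} (v u u' : TV k D) (hadj : (tree k D).Adj u u')
    (h1 : v.1 <:+ u.1) (h2 : ¬ v.1 <:+ u'.1) : u = v ∧ ∃ a, v.1 = a :: u'.1 := by
  rcases hadj with ⟨a, h⟩ | ⟨a, h⟩
  · exfalso
    apply h2
    rw [h]
    exact h1.trans (List.suffix_cons a u.1)
  · rw [h, List.suffix_cons_iff] at h1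
    rcases h1 with h1 | h1
    · exact ⟨Subtype.ext (h.trans h1.symm), a, h1⟩
    · exact absurd h1 h2

theorem acyclic (k D : ℕ) : (tree k D).IsAcyclic := by
  rw [SimpleGraph.isAcyclic_iff_forall_adj_isBridge]
  have key : ∀ v w : TV k D, (∃ a, v.1 = a :: w.1) → (tree k D).IsBridge s(v, w) := by
    rintro v w ⟨a, ha⟩
    rw [SimpleGraph.isBridge_iff_forall_walk_mem_edges]
    intro p
    obtain ⟨d, hd, h1, h2⟩ := p.exists_boundary_dart {u | v.1 <:+ u.1} (List.suffix_refl _)
      (fun hc => by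
        have := List.IsSuffix.length_le hc
        rw [ha] at this
        simp at this)
    obtain ⟨e1, b, e2⟩ := cross v d.fst d.snd d.adj h1 h2
    have e3 : d.snd = w := by
      apply Subtype.ext
      rw [ha] at e2
      exact (List.cons.inj e2).2.symm
    have h3 : d.edge ∈ p.edges := List.mem_map_of_mem hd
    have h4 : d.edge = s(v, w) := by
      rw [← e3, ← e1]
      rfl
    rw [← h4]
    exact h3
  intro v w h
  rcases h with h | h
  · rw [Sym2.eq_swap]; exact key w v h
  · exact key v w h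

theorem no_minor {V : Type} (G : SimpleGraph V) (hG : G.IsAcyclic) :
    ¬ ∃ (B : Fin 3 → Set V) (P : Fin 3 → Fin 3 → Set V),
          (∀ w, (B w).Nonempty ∧
              ∀ x ∈ B w, ∀ y ∈ B w, ∃ q : G.Walk x y, ∀ z ∈ q.support, z ∈ B w) ∧
          (∀ a b, (⊤ : SimpleGraph (Fin 3)).Adj a b →
              ∃ x ∈ B a, ∃ y ∈ B b, ∃ q : G.Walk x y, ∀ z ∈ q.support, z ∈ P a b) ∧
          (∀ v w, v ≠ w → ∀ x ∈ B v, ∀ y ∈ B w, (3 : ℕ∞) ≤ G.edist x y) ∧
          (∀ a b, (⊤ : SimpleGraph (Fin 3)).Adj a b → ∀ v, v ≠ a → v ≠ b →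
              ∀ x ∈ P a b, ∀ y ∈ B v, (3 : ℕ∞) ≤ G.edist x y) ∧
          (∀ a b c e, (⊤ : SimpleGraph (Fin 3)).Adj a b → (⊤ : SimpleGraph (Fin 3)).Adj c e →
              s(a, b) ≠ s(c, e) →
              ∀ x ∈ P a b, ∀ y ∈ P c e, (3 : ℕ∞) ≤ G.edist x y) := by
  classical
  rintro ⟨B, P, hB, hP, hBB, hPB, hPP⟩
  have no : ∀ z : V, ¬ (3 : ℕ∞) ≤ G.edist z z := by
    intro z; simp
  obtain ⟨x0, hx0, x1, hx1, w1, hw1⟩ := hP 0 1 (by simp)
  obtain ⟨y0, hy0, y2, hy2, w2, hw2⟩ := hP 0 2 (by simp)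
  obtain ⟨z1, hz1, z2, hz2, w3, hw3⟩ := hP 1 2 (by simp)
  obtain ⟨a0, ha0⟩ := (hB 0).2 x0 hx0 y0 hy0
  obtain ⟨a2, ha2⟩ := (hB 2).2 y2 hy2 z2 hz2
  obtain ⟨a1, ha1⟩ := (hB 1).2 z1 hz1 x1 hx1
  set w : G.Walk x0 x1 := a0.append (w2.append (a2.append (w3.reverse.append a1))) with hw
  have hsub : ∀ z ∈ w1.bypass.support, z ∈ B 0 ∪ B 1 := by
    intro z hz
    have hz1 : z ∈ P 0 1 := hw1 z (w1.support_bypass_subset_support hz)
    have heq : w1.bypass = w.bypass := by
      have hs := hG.subsingleton_path x0 x1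
      have : (⟨w1.bypass, w1.bypass_isPath⟩ : G.Path x0 x1) = ⟨w.bypass, w.bypass_isPath⟩ :=
        Subsingleton.elim _ _
      exact congrArg Subtype.val this
    rw [heq] at hz
    have hz2 := w.support_bypass_subset_support hz
    rw [hw] at hz2
    simp only [SimpleGraph.Walk.mem_support_append_iff, SimpleGraph.Walk.support_reverse,
      List.mem_reverse] at hz2
    rcases hz2 with h | h | h | h | h
    · exact Or.inl (ha0 z h)
    · exact absurd (hPP 0 1 0 2 (by simp) (by simp) (by decide) z hz1 z (hw2 z h)) (no z)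
    · exact absurd (hPB 0 1 (by simp) 2 (by decide) (by decide) z hz1 z (ha2 z h)) (no z)
    · exact absurd (hPP 0 1 1 2 (by simp) (by simp) (by decide) z hz1 z (hw3 z h)) (no z)
    · exact Or.inr (ha1 z h)
  have hx1' : x1 ∉ B 0 := fun h => no x1 (hBB 0 1 (by decide) x1 h x1 hx1)
  obtain ⟨d, hd, h1, h2⟩ := w1.bypass.exists_boundary_dart (B 0) hx0 hx1'
  have h3 : d.snd ∈ B 1 := by
    rcases hsub d.snd (SimpleGraph.Walk.dart_snd_mem_support_of_mem_darts _ hd) with h | h
    · exact absurd h h2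
    · exact h
  have h4 := hBB 0 1 (by decide) d.fst h1 d.snd h3
  have h5 : G.edist d.fst d.snd = 1 := SimpleGraph.edist_eq_one_iff_adj.2 d.adj
  rw [h5] at h4
  exact absurd h4 (by decide)

theorem length_lip {k D : ℕ} : ∀ (x y : TV k D) (q : (tree k D).Walk x y),
    y.1.length ≤ x.1.length + q.length := by
  intro x y q
  induction q with
  | nil => simp
  | cons h p ih =>
    rename_i u v w
    have : v.1.length ≤ u.1.length + 1 := by
      rcases h with ⟨a, h⟩ | ⟨a, h⟩
      · rw [h]; simp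
      · rw [h]; simp; omega
    rw [SimpleGraph.Walk.length_cons]
    omega

/-- The negation of the preceding statement: For every finite graph H there are p,d such that every finite graph G with no 3-fat H-minor has a partition into connected parts, each of weak diameter at most d, such that every radius-2 ball meets at most p parts. -/
theorem result :
    ¬ (∀ (W : Type) [Fintype W] (H : SimpleGraph W), ∃ p d : ℕ,
    ∀ (V : Type) [Fintype V] (G : SimpleGraph V),
      (¬ ∃ (B : W → Set V) (P : W → W → Set V),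
          (∀ w, (B w).Nonempty ∧
              ∀ x ∈ B w, ∀ y ∈ B w, ∃ q : G.Walk x y, ∀ z ∈ q.support, z ∈ B w) ∧
          (∀ a b, H.Adj a b →
              ∃ x ∈ B a, ∃ y ∈ B b, ∃ q : G.Walk x y, ∀ z ∈ q.support, z ∈ P a b) ∧
          (∀ v w, v ≠ w → ∀ x ∈ B v, ∀ y ∈ B w, (3 : ℕ∞) ≤ G.edist x y) ∧
          (∀ a b, H.Adj a b → ∀ v, v ≠ a → v ≠ b →
              ∀ x ∈ P a b, ∀ y ∈ B v, (3 : ℕ∞) ≤ G.edist x y) ∧
          (∀ a b c e, H.Adj a b → H.Adj c e → s(a, b) ≠ s(c, e) →
              ∀ x ∈ P a b, ∀ y ∈ P c e, (3 : ℕ∞) ≤ G.edist x y)) →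
      ∃ f : V → V,
        (∀ x y, f x = f y → ∃ q : G.Walk x y, ∀ z ∈ q.support, f z = f x) ∧
        (∀ x y, f x = f y → G.edist x y ≤ (d : ℕ∞)) ∧
        (∀ u, {i : V | ∃ v, G.edist u v ≤ 2 ∧ f v = i}.ncard ≤ p)) := by
  classical
  intro hall
  obtain ⟨p, d, h⟩ := hall (Fin 3) ⊤
  obtain ⟨f, hf1, hf2, hf3⟩ := h (TV p (d + 1)) (tree p (d + 1)) (no_minor _ (acyclic _ _))
  have step : ∀ v : TV p (d + 1), ∀ hv : v.1.length < d + 1,
      ∃ a : Fin p, f ⟨a :: v.1, by simpa using hv⟩ = f v := by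
    intro v hv
    by_contra hcon
    push Not at hcon
    let g : Option (Fin p) → TV p (d + 1) := fun o => match o with
      | none => f v
      | some a => f ⟨a :: v.1, by simpa using hv⟩
    have hadj : ∀ a : Fin p, (tree p (d + 1)).Adj v ⟨a :: v.1, by simpa using hv⟩ :=
      fun a => Or.inl ⟨a, rfl⟩
    have ginj : Function.Injective g := by
      intro o o' hoo
      rcases o with _ | a <;> rcases o' with _ | b
      · rfl
      · exact absurd hoo.symm (hcon b)
      · exact absurd hoo (hcon a)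
      · by_contra hne
        have hab : a ≠ b := fun h => hne (by rw [h])
        have hoo' : f ⟨a :: v.1, by simpa using hv⟩ = f ⟨b :: v.1, by simpa using hv⟩ := hoo
        obtain ⟨q, hq⟩ := hf1 _ _ hoo'
        obtain ⟨e, he, h1, h2⟩ := q.exists_boundary_dart
          {u | (a :: v.1) <:+ u.1} (List.suffix_refl _)
          (fun hc => by
            rw [Set.mem_ofPred_eq, List.suffix_cons_iff] at hc
            rcases hc with hc | hc
            · exact hab (List.cons.inj hc).1
            · have := List.IsSuffix.length_le hc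
              simp at this)
        obtain ⟨-, c, e2⟩ := cross ⟨a :: v.1, by simpa using hv⟩ e.fst e.snd e.adj h1 h2
        have e3 : e.snd = v := Subtype.ext (List.cons.inj e2).2.symm
        have h4 := hq e.snd (SimpleGraph.Walk.dart_snd_mem_support_of_mem_darts _ he)
        rw [e3] at h4
        exact hcon a h4.symm
    have hsub : Set.range g ⊆ {i | ∃ w, (tree p (d + 1)).edist v w ≤ 2 ∧ f w = i} := by
      rintro _ ⟨o, rfl⟩
      rcases o with _ | a
      · exact ⟨v, by simp, rfl⟩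
      · refine ⟨⟨a :: v.1, by simpa using hv⟩, ?_, rfl⟩
        rw [SimpleGraph.edist_eq_one_iff_adj.2 (hadj a)]
        decide
    have h1 := Set.ncard_le_ncard hsub (Set.toFinite _)
    have h2 := hf3 v
    have h3 : (Set.range g).ncard = p + 1 := by
      rw [← Set.image_univ, Set.ncard_image_of_injective _ ginj, Set.ncard_univ]
      simp
    omega
  have hroot : ∀ n : ℕ, n ≤ d + 1 → ∃ v : TV p (d + 1), v.1.length = n ∧
      f v = f ⟨[], by simp⟩ := by
    intro n
    induction n with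
    | zero => intro _; exact ⟨⟨[], by simp⟩, rfl, rfl⟩
    | succ n ih =>
      intro hn
      obtain ⟨v, hv1, hv2⟩ := ih (by omega)
      obtain ⟨a, ha⟩ := step v (by omega)
      exact ⟨⟨a :: v.1, by simp; omega⟩, by simp [hv1], ha.trans hv2⟩
  obtain ⟨v, hv1, hv2⟩ := hroot (d + 1) le_rfl
  obtain ⟨q0, -⟩ := hf1 _ _ hv2.symm
  have hd := hf2 _ _ hv2.symm
  have hreach : (tree p (d + 1)).Reachable (⟨[], by simp⟩ : TV p (d + 1)) v := ⟨q0⟩
  obtain ⟨q, hq⟩ := hreach.exists_walk_length_eq_edist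
  rw [← hq] at hd
  have h1 := length_lip _ _ q
  have h2 : q.length ≤ d := by exact_mod_cast hd
  simp at h1
  omega

end Pool.Agent.S09828
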