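import Pool.Statements.S09850
import Pool.Agent.H455R3.AdditiveGraph

set_option autoImplicit false
open Pool Pool.MP_84c3f1_co

namespace Pool.Agent.S09850

/-- The negation of the preceding statement: There is a constant C such that every finite bipartite graph has a labeling of its vertices by integers 1..C where any two adjacent vertices have different sums of labels over their neighbourhoods. -/
theorem result :
    ¬ (∃ C : ℕ, ∀ (V : Type) [Fintype V] (G : SimpleGraph V) [DecidableRel G.Adj],
      G.Colorable 2 →
        ∃ f : V → ℕ, (∀ v, 1 ≤ f v ∧ f v ≤ C) ∧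
          ∀ u v, G.Adj u v →
            ∑ w ∈ G.neighborFinset u, f w ≠ ∑ w ∈ G.neighborFinset v, f w) := by
  rintro ⟨C, hC⟩
  obtain ⟨V, hV, G, hG, h⟩ := Pool.Agent.H455R3.exists_bipartite (C + 1) (Nat.succ_pos C)
  classical
  obtain ⟨f, hf, hf'⟩ := hC V G hG
  obtain ⟨u, v, huv, he⟩ := h inferInstance f
    (fun v => ⟨(hf v).1, le_trans (hf v).2 (Nat.le_succ C)⟩)
  exact hf' u v huv he

end Pool.Agent.S09850
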