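import Pool.Statements.S09854
import Pool.Agent.H36R3.SymExample

set_option autoImplicit false
open Pool Pool.MP_84ee99_co

namespace Pool.Agent.S09854

open Pool.H36R3.SymR

/-- Core of the argument, phrased with the predicate `Ed`. -/
lemma core (T : Finset E3) (e : {x // x ∈ Finset.univ.image pt} ≃ {x // x ∈ T})
    (hTc : ∀ x ∈ T, x ∉ convexHull ℝ ((T : Set E3) \ {x}))
    (hTi : (interior (convexHull ℝ (T : Set E3))).Nonempty)
    (hadj : ∀ a b : {x // x ∈ Finset.univ.image pt},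
      ((a ≠ b ∧ Ed (Finset.univ.image pt : Finset E3) a.1 b.1) ↔ (e a ≠ e b ∧ Ed T (e a).1 (e b).1)))
    (hdist : ∀ a b : {x // x ∈ Finset.univ.image pt},
      (a ≠ b ∧ Ed (Finset.univ.image pt : Finset E3) a.1 b.1) → dist (e a).1 (e b).1 = dist a.1 b.1)
    (hsym : ∀ σ : {x // x ∈ T} ≃ {x // x ∈ T},
      (∀ a b : {x // x ∈ T}, ((a ≠ b ∧ Ed T a.1 b.1) ↔ (σ a ≠ σ b ∧ Ed T (σ a).1 (σ b).1))) →
      (∀ a b : {x // x ∈ T}, (a ≠ b ∧ Ed T a.1 b.1) → dist (σ a).1 (σ b).1 = dist a.1 b.1) →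
      ∃ g : AffineIsometryEquiv ℝ E3 E3, ∀ a : {x // x ∈ T}, g a.1 = (σ a).1) : False := by
  classical
  have hmem : ∀ i, pt i ∈ Finset.univ.image pt := fun i => Finset.mem_image_of_mem _ (Finset.mem_univ i)
  have hcoe : ((Finset.univ.image pt : Finset E3) : Set E3) = Set.range pt := by
    simp
  obtain ⟨s, hs⟩ : ∃ s : Fin 6 → {x // x ∈ Finset.univ.image pt}, ∀ i, s i = ⟨pt i, hmem i⟩ :=
    ⟨_, fun i => rfl⟩
  have hs1 : ∀ i, (s i).1 = pt i := fun i => by rw [hs]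
  have s_inj : Function.Injective s := by
    intro i j h
    apply pt_inj
    rw [← hs1, ← hs1, h]
  have s_surj : Function.Surjective s := by
    rintro ⟨x, hx⟩
    obtain ⟨i, -, rfl⟩ := Finset.mem_image.1 hx
    exact ⟨i, hs i⟩
  have hSadj : ∀ i j, (s i ≠ s j ∧ Ed (Finset.univ.image pt : Finset E3) (s i).1 (s j).1) ↔
      adj i j = true := by
    intro i j
    rw [hs1, hs1, hcoe]
    constructor
    · rintro ⟨h1, h2⟩
      by_contra h
      have h' : adj i j = false := by simpa using h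
      exact pt_nonedge (fun hij => h1 (by rw [hij])) h' h2
    · intro h
      refine ⟨fun hij => ?_, pt_edge h⟩
      rw [s_inj hij, adj_irrefl] at h
      exact Bool.false_ne_true h
  obtain ⟨r, hr⟩ : ∃ r : Fin 6 → {x // x ∈ T}, ∀ i, r i = e (s i) := ⟨_, fun i => rfl⟩
  have r_inj : Function.Injective r := by
    intro i j h
    rw [hr, hr] at h
    exact s_inj (e.injective h)
  have r_surj : Function.Surjective r := by
    intro x
    obtain ⟨i, hi⟩ := s_surj (e.symm x)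
    exact ⟨i, by rw [hr, hi, Equiv.apply_symm_apply]⟩
  have hTadj : ∀ i j, (r i ≠ r j ∧ Ed T (r i).1 (r j).1) ↔ adj i j = true := by
    intro i j
    rw [hr, hr, ← hadj, hSadj]
  have hTd : ∀ i j, adj i j = true → dist (r i).1 (r j).1 = dist (pt i) (pt j) := by
    intro i j h
    rw [hr, hr, hdist _ _ ((hSadj i j).2 h), hs1, hs1]
  have hTd2 : ∀ i j, adj i j = true → dist (r i).1 (r j).1 ^ 2 = ((sqZ i j : ℤ) : ℝ) := by
    intro i j h
    rw [hTd i j h, pt_dist]
  let E : Fin 6 ≃ {x // x ∈ T} := Equiv.ofBijective r ⟨r_inj, r_surj⟩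
  let τ : Fin 6 ≃ Fin 6 := ⟨tau, tau, tau_tau, tau_tau⟩
  have hE : ∀ i, E i = r i := fun i => rfl
  let σ : {x // x ∈ T} ≃ {x // x ∈ T} := (E.symm.trans τ).trans E
  have hσ : ∀ i, σ (r i) = r (tau i) := by
    intro i
    show E (τ (E.symm (r i))) = _
    rw [← hE i, Equiv.symm_apply_apply]
    rfl
  obtain ⟨g, hg⟩ := hsym σ (by
    intro a b
    obtain ⟨i, rfl⟩ := r_surj a
    obtain ⟨j, rfl⟩ := r_surj b
    rw [hσ, hσ, hTadj, hTadj, adj_tau]) (by
    intro a b
    obtain ⟨i, rfl⟩ := r_surj a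
    obtain ⟨j, rfl⟩ := r_surj b
    intro h
    have h' := (hTadj i j).1 h
    rw [hσ, hσ]
    have e1 := hTd2 i j h'
    have e2 := hTd2 (tau i) (tau j) (by rw [adj_tau]; exact h')
    rw [sq_tau i j h'] at e2
    have e3 : dist (r (tau i)).1 (r (tau j)).1 ^ 2 = dist (r i).1 (r j).1 ^ 2 := by rw [e1, e2]
    exact (pow_left_inj₀ dist_nonneg dist_nonneg two_ne_zero).1 e3)
  have hrange : ((T : Finset E3) : Set E3) = Set.range (fun i => (r i).1) := by
    ext x
    constructor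
    · intro hx
      obtain ⟨i, hi⟩ := r_surj ⟨x, hx⟩
      exact ⟨i, by simp only [hi]⟩
    · rintro ⟨i, rfl⟩
      exact (r i).2
  have t_inj : Function.Injective (fun i => (r i).1) := fun i j h => r_inj (Subtype.ext h)
  have hfin : (Set.range (fun i => (r i).1)).Finite := Set.finite_range _
  rw [hrange] at hTi
  have hpos : ∀ i, ∃ u : E3, ∀ k, k ≠ i → @inner ℝ E3 _ u (r k).1 < @inner ℝ E3 _ u (r i).1 := by
    intro i
    have h1 := hTc (r i).1 (r i).2
    rw [hrange] at h1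
    obtain ⟨u, hu⟩ := exists_support hfin h1
    exact ⟨u, fun k hk => hu _ ⟨k, rfl⟩ (fun h => hk (t_inj h))⟩
  have hne : ∀ i j, i ≠ j → adj i j = false →
      ¬ Ed (Set.range (fun i => (r i).1)) (r i).1 (r j).1 := by
    intro i j hij h hEd
    rw [← hrange] at hEd
    have := (hTadj i j).1 ⟨fun h => hij (r_inj h), hEd⟩
    rw [h] at this
    exact Bool.false_ne_true this
  refine prism_contra (fun i => (r i).1) t_inj hpos hTi
    (hne 0 4 (by decide) (by decide)) (hne 0 5 (by decide) (by decide))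
    (hne 1 3 (by decide) (by decide)) (hne 1 5 (by decide) (by decide))
    (hne 2 3 (by decide) (by decide)) (hne 2 4 (by decide) (by decide))
    ?_ ?_ ?_ ?_ ?_ ?_ ?_ ?_
  · show dist (r 0).1 (r 1).1 ^ 2 = _
    rw [hTd2 0 1 (by decide), show sqZ 0 1 = 21760 by decide +kernel]; norm_num
  · show dist (r 0).1 (r 2).1 ^ 2 = _
    rw [hTd2 0 2 (by decide), show sqZ 0 2 = 165780 by decide +kernel]; norm_num
  · show dist (r 0).1 (r 3).1 ^ 2 = _
    rw [hTd2 0 3 (by decide), show sqZ 0 3 = 41616 by decide +kernel]; norm_num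
  · show dist (r 1).1 (r 4).1 ^ 2 = _
    rw [hTd2 1 4 (by decide), show sqZ 1 4 = 41616 by decide +kernel]; norm_num
  · show dist (r 3).1 (r 4).1 ^ 2 = _
    rw [hTd2 3 4 (by decide), show sqZ 3 4 = 5440 by decide +kernel]; norm_num
  · show dist (r 3).1 (r 5).1 ^ 2 = _
    rw [hTd2 3 5 (by decide), show sqZ 3 5 = 11445 by decide +kernel]; norm_num
  · show dist (r 2).1 (r 5).1 ^ 2 = _
    rw [hTd2 2 5 (by decide), show sqZ 2 5 = 134217 by decide +kernel]; norm_num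
  · show dist (r 0).1 (r 4).1 ^ 2 = dist (r 1).1 (r 3).1 ^ 2
    have h0 := hg (r 0)
    have h4 := hg (r 4)
    rw [hσ] at h0 h4
    have : dist (g (r 0).1) (g (r 4).1) = dist (r 0).1 (r 4).1 := g.dist_map _ _
    rw [h0, h4] at this
    rw [← this]
    rfl

/-- The negation of the preceding statement: Every convex 3-polytope has a combinatorially equivalent convex 3-polytope with equal corresponding edge lengths in which every edge-length-preserving combinatorial automorphism is induced by an isometry of space. -/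
theorem result :
    ¬ (∀ (S : Finset (EuclideanSpace ℝ (Fin 3))),
      (∀ x ∈ S, x ∉ convexHull ℝ ((S : Set (EuclideanSpace ℝ (Fin 3))) \ {x})) →
      (interior (convexHull ℝ (S : Set (EuclideanSpace ℝ (Fin 3))))).Nonempty →
      ∃ (T : Finset (EuclideanSpace ℝ (Fin 3))) (e : {x // x ∈ S} ≃ {x // x ∈ T}),
        (∀ x ∈ T, x ∉ convexHull ℝ ((T : Set (EuclideanSpace ℝ (Fin 3))) \ {x})) ∧
        (interior (convexHull ℝ (T : Set (EuclideanSpace ℝ (Fin 3))))).Nonempty ∧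
        (∀ a b : {x // x ∈ S},
          ((a ≠ b ∧ ∃ u : EuclideanSpace ℝ (Fin 3),
              @inner ℝ (EuclideanSpace ℝ (Fin 3)) _ u a.1 = @inner ℝ (EuclideanSpace ℝ (Fin 3)) _ u b.1 ∧
              ∀ z ∈ S, z ≠ a.1 → z ≠ b.1 →
                @inner ℝ (EuclideanSpace ℝ (Fin 3)) _ u z < @inner ℝ (EuclideanSpace ℝ (Fin 3)) _ u a.1) ↔
           (e a ≠ e b ∧ ∃ u : EuclideanSpace ℝ (Fin 3),
              @inner ℝ (EuclideanSpace ℝ (Fin 3)) _ u (e a).1 = @inner ℝ (EuclideanSpace ℝ (Fin 3)) _ u (e b).1 ∧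
              ∀ z ∈ T, z ≠ (e a).1 → z ≠ (e b).1 →
                @inner ℝ (EuclideanSpace ℝ (Fin 3)) _ u z < @inner ℝ (EuclideanSpace ℝ (Fin 3)) _ u (e a).1))) ∧
        (∀ a b : {x // x ∈ S},
          (a ≠ b ∧ ∃ u : EuclideanSpace ℝ (Fin 3),
              @inner ℝ (EuclideanSpace ℝ (Fin 3)) _ u a.1 = @inner ℝ (EuclideanSpace ℝ (Fin 3)) _ u b.1 ∧
              ∀ z ∈ S, z ≠ a.1 → z ≠ b.1 →
                @inner ℝ (EuclideanSpace ℝ (Fin 3)) _ u z < @inner ℝ (EuclideanSpace ℝ (Fin 3)) _ u a.1) →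
          dist (e a).1 (e b).1 = dist a.1 b.1) ∧
        ∀ σ : {x // x ∈ T} ≃ {x // x ∈ T},
          (∀ a b : {x // x ∈ T},
            ((a ≠ b ∧ ∃ u : EuclideanSpace ℝ (Fin 3),
                @inner ℝ (EuclideanSpace ℝ (Fin 3)) _ u a.1 = @inner ℝ (EuclideanSpace ℝ (Fin 3)) _ u b.1 ∧
                ∀ z ∈ T, z ≠ a.1 → z ≠ b.1 →
                  @inner ℝ (EuclideanSpace ℝ (Fin 3)) _ u z < @inner ℝ (EuclideanSpace ℝ (Fin 3)) _ u a.1) ↔
             (σ a ≠ σ b ∧ ∃ u : EuclideanSpace ℝ (Fin 3),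
                @inner ℝ (EuclideanSpace ℝ (Fin 3)) _ u (σ a).1 = @inner ℝ (EuclideanSpace ℝ (Fin 3)) _ u (σ b).1 ∧
                ∀ z ∈ T, z ≠ (σ a).1 → z ≠ (σ b).1 →
                  @inner ℝ (EuclideanSpace ℝ (Fin 3)) _ u z < @inner ℝ (EuclideanSpace ℝ (Fin 3)) _ u (σ a).1))) →
          (∀ a b : {x // x ∈ T},
            (a ≠ b ∧ ∃ u : EuclideanSpace ℝ (Fin 3),
                @inner ℝ (EuclideanSpace ℝ (Fin 3)) _ u a.1 = @inner ℝ (EuclideanSpace ℝ (Fin 3)) _ u b.1 ∧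
                ∀ z ∈ T, z ≠ a.1 → z ≠ b.1 →
                  @inner ℝ (EuclideanSpace ℝ (Fin 3)) _ u z < @inner ℝ (EuclideanSpace ℝ (Fin 3)) _ u a.1) →
            dist (σ a).1 (σ b).1 = dist a.1 b.1) →
          ∃ g : AffineIsometryEquiv ℝ (EuclideanSpace ℝ (Fin 3)) (EuclideanSpace ℝ (Fin 3)),
            ∀ a : {x // x ∈ T}, g a.1 = (σ a).1) := by
  intro H
  have hcoe : ((Finset.univ.image pt : Finset E3) : Set E3) = Set.range pt := by
    simp
  obtain ⟨T, e, hTc, hTi, hadj, hdist, hsym⟩ := H (Finset.univ.image pt) (by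
    intro x hx hmem
    obtain ⟨i, -, rfl⟩ := Finset.mem_image.1 hx
    obtain ⟨u, hu⟩ := pt_support i
    have hcv : Convex ℝ {z : E3 | @inner ℝ E3 _ u z < @inner ℝ E3 _ u (pt i)} :=
      convex_halfSpace_lt (f := fun z : E3 => @inner ℝ E3 _ u z)
        ⟨fun x y => inner_add_right _ _ _, fun c x => by
          rw [real_inner_smul_right, smul_eq_mul]⟩ _
    have hsub : (((Finset.univ.image pt : Finset E3) : Set E3) \ {pt i}) ⊆
        {z : E3 | @inner ℝ E3 _ u z < @inner ℝ E3 _ u (pt i)} := by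
      rw [hcoe]
      rintro z ⟨⟨k, rfl⟩, hk⟩
      exact hu k (fun h => hk (by rw [h]; rfl))
    have h := convexHull_min hsub hcv hmem
    rw [Set.mem_ofPred_eq] at h
    exact lt_irrefl _ h) (by
    rw [hcoe]; exact pt_interior)
  exact core T e hTc hTi hadj hdist hsym

end Pool.Agent.S09854
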