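import Pool.Statements.S09857
-- import your own Pool.Agent.* helpers here
import Pool.Agent.H758R3.DirMain4

set_option autoImplicit false
open Pool Pool.MP_853269_co

namespace Pool.Agent.S09857

/-- For every prime p and every set A of exactly p points in F_p^3, either A lies in some affine plane, or the lines through the origin spanned by differences of distinct points of A number at least p+1. -/
theorem result :
    ∀ (p : ℕ), p.Prime → ∀ (A : Finset (Fin 3 → ZMod p)), A.card = p →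
      (∃ v : Fin 3 → ZMod p, v ≠ 0 ∧ ∃ c : ZMod p, ∀ a ∈ A, ∑ i, v i * a i = c) ∨
      p + 1 ≤ Set.ncard {W : Submodule (ZMod p) (Fin 3 → ZMod p) |
        ∃ a ∈ A, ∃ b ∈ A, a ≠ b ∧ W = Submodule.span (ZMod p) {a - b}} := by
  intro p hp A hA
  classical
  have : Fact p.Prime := ⟨hp⟩
  by_contra hcon
  rw [not_or] at hcon
  obtain ⟨h1, h2⟩ := hcon
  have hnp : H758R3.Dir.NonPlanar A := by
    intro v hv hc
    apply h1
    obtain ⟨c, hc⟩ := hc
    exact ⟨v, hv, c, fun a ha => hc a ha⟩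
  set DD : Finset (Submodule (ZMod p) (Fin 3 → ZMod p)) :=
    A.offDiag.image (fun q => Submodule.span (ZMod p) {q.1 - q.2}) with hDD
  have hset : {W : Submodule (ZMod p) (Fin 3 → ZMod p) |
        ∃ a ∈ A, ∃ b ∈ A, a ≠ b ∧ W = Submodule.span (ZMod p) {a - b}} = (DD : Set _) := by
    ext W
    simp only [Set.mem_ofPred_eq, hDD, Finset.coe_image, Set.mem_image, Finset.mem_coe, Finset.mem_offDiag]
    constructor
    · rintro ⟨a, ha, b, hb, hab, rfl⟩
      exact ⟨(a, b), ⟨ha, hb, hab⟩, rfl⟩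
    · rintro ⟨⟨a, b⟩, ⟨ha, hb, hab⟩, rfl⟩
      exact ⟨a, ha, b, hb, hab, rfl⟩
  rw [hset, Set.ncard_coe_finset] at h2
  have hrep : ∀ W ∈ DD, ∃ d : Fin 3 → ZMod p, (∃ a ∈ A, ∃ b ∈ A, a ≠ b ∧ d = a - b) ∧
      W = Submodule.span (ZMod p) {d} := by
    intro W hW
    rw [hDD, Finset.mem_image] at hW
    obtain ⟨⟨a, b⟩, hq, rfl⟩ := hW
    rw [Finset.mem_offDiag] at hq
    exact ⟨a - b, ⟨a, hq.1, b, hq.2.1, hq.2.2, rfl⟩, rfl⟩
  choose! r hr1 hr2 using hrep
  set D : Finset (Fin 3 → ZMod p) := DD.image r with hD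
  have hDc : D.card ≤ p := by
    have := Finset.card_image_le (s := DD) (f := r)
    rw [← hD] at this
    omega
  have hdirs : H758R3.Dir.Dirs A D := by
    constructor
    · intro d hd
      rw [hD, Finset.mem_image] at hd
      obtain ⟨W, hW, rfl⟩ := hd
      exact hr1 W hW
    · intro a ha b hb hab
      obtain ⟨W0, hW0⟩ : ∃ W0 : Submodule (ZMod p) (Fin 3 → ZMod p),
        W0 = Submodule.span (ZMod p) {a - b} := ⟨_, rfl⟩
      have hW : W0 ∈ DD := by
        rw [hDD, Finset.mem_image]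
        exact ⟨(a, b), by rw [Finset.mem_offDiag]; exact ⟨ha, hb, hab⟩, hW0.symm⟩
      refine ⟨r W0, Finset.mem_image_of_mem r hW, ?_⟩
      have h3 := hr2 _ hW
      have h4 : r W0 ∈ Submodule.span (ZMod p) {r W0} := Submodule.mem_span_singleton_self _
      rw [← h3] at h4
      have h5 : ∀ x ∈ W0, ∃ c : ZMod p, c • (a - b) = x := by
        intro x hx
        rw [hW0] at hx
        exact Submodule.mem_span_singleton.mp hx
      obtain ⟨c, hc⟩ := h5 _ h4
      refine ⟨c, ?_, hc.symm⟩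
      intro hc0
      rw [hc0, zero_smul] at hc
      obtain ⟨a', _, b', _, hab', hr'⟩ := hr1 _ hW
      rw [← hc] at hr'
      exact hab' (sub_eq_zero.mp hr'.symm)
  have hD0 : ∀ d ∈ D, d ≠ 0 := by
    intro d hd h0
    obtain ⟨a, _, b, _, hab, hd'⟩ := hdirs.rep d hd
    rw [h0] at hd'
    exact hab (sub_eq_zero.mp hd'.symm)
  exact H758R3.Dir.main hdirs hA hnp hDc hD0

end Pool.Agent.S09857
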