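import Pool.Statements.S09866

set_option autoImplicit false
open SimpleGraph
open Pool Pool.MP_85b484_co

namespace Pool.Agent.S09866

/-- neighbour masks: `3j` is the tip `x_j`, `3j+1` and `3j+2` are the two middle vertices of the
diamond with tips `x_j` and `x_{j+1}`, and `x_0 x_4` is an edge -/
def nb (x : ℕ) : ℕ :=
  if x = 0 then 2 ^ 1 + 2 ^ 2 + 2 ^ 12
  else if x = 12 then 2 ^ 10 + 2 ^ 11 + 2 ^ 0
  else if x % 3 = 0 then 2 ^ (x - 2) + 2 ^ (x - 1) + 2 ^ (x + 1) + 2 ^ (x + 2)
  else if x % 3 = 1 then 2 ^ (x - 1) + 2 ^ (x + 1) + 2 ^ (x + 2)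
  else 2 ^ (x - 2) + 2 ^ (x - 1) + 2 ^ (x + 1)

/-- The ring of four diamonds closed by an edge. -/
def G : SimpleGraph (Fin 13) where
  Adj a b := (nb a.val).testBit b.val = true
  symm := ⟨by decide +kernel⟩
  loopless := ⟨by decide +kernel⟩

instance : DecidableRel G.Adj := fun a b =>
  inferInstanceAs (Decidable ((nb a.val).testBit b.val = true))

/-- compatibility of two masks: disjoint and joined by an edge -/
def compat (m m' : ℕ) : Bool :=
  (m &&& m') == 0 && (List.range 13).any fun x => m.testBit x && (nb x &&& m') != 0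

/-- candidate masks -/
def okm (m : ℕ) : Bool :=
  m != 0 && (((List.range 13).filter fun x => m.testBit x).length ≤ 3 : Bool) &&
    (List.range 13).all fun x => !m.testBit x || m == 2 ^ x || (nb x &&& m) != 0

def cands : List ℕ := (List.range 8192).filter okm

def search (L : List ℕ) : Bool :=
  L.any fun a => (L.filter (compat a)).any fun b =>
    ((L.filter (compat a)).filter (compat b)).any fun c =>
      (((L.filter (compat a)).filter (compat b)).filter (compat c)).any fun _ => true

theorem search_false : search cands = false := by decide +kernel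

/-- mask of a set -/
def mk (S : Finset (Fin 13)) : ℕ := Nat.ofBits fun x : Fin 13 => decide (x ∈ S)

lemma mk_lt (S : Finset (Fin 13)) : mk S < 8192 := Nat.ofBits_lt_two_pow _

lemma mk_bit (S : Finset (Fin 13)) (x : Fin 13) : (mk S).testBit x.val = decide (x ∈ S) :=
  Nat.testBit_ofBits_lt _ x.val x.isLt

lemma ne_zero_of_bit {m i : ℕ} (h : m.testBit i = true) : m ≠ 0 := by
  rintro rfl
  simp at h

lemma mk_compat {S S' : Finset (Fin 13)} (hd : Disjoint S S') (h : ∃ u ∈ S, ∃ v ∈ S', G.Adj u v) :
    compat (mk S) (mk S') = true := by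
  unfold compat
  rw [Bool.and_eq_true]
  constructor
  · rw [beq_iff_eq]
    apply Nat.eq_of_testBit_eq
    intro i
    rw [Nat.testBit_land, Nat.zero_testBit]
    by_cases hi : i < 13
    · have h1 := mk_bit S ⟨i, hi⟩
      have h2 := mk_bit S' ⟨i, hi⟩
      simp only at h1 h2
      rw [h1, h2]
      by_cases hS : (⟨i, hi⟩ : Fin 13) ∈ S
      · have := Finset.disjoint_left.1 hd hS
        simp [this]
      · simp [hS]
    · have h1 : (mk S).testBit i = false :=
        Nat.testBit_lt_two_pow (lt_of_lt_of_le (mk_lt S)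
          (by calc 8192 = 2 ^ 13 := by norm_num
                _ ≤ 2 ^ i := Nat.pow_le_pow_right (by norm_num) (by omega)))
      rw [h1]; rfl
  · obtain ⟨u, hu, v, hv, huv⟩ := h
    rw [List.any_eq_true]
    refine ⟨u.val, List.mem_range.2 u.isLt, ?_⟩
    rw [Bool.and_eq_true]
    refine ⟨by rw [mk_bit]; simpa using hu, ?_⟩
    rw [bne_iff_ne]
    apply ne_zero_of_bit (i := v.val)
    rw [Nat.testBit_land, mk_bit]
    have : (nb u.val).testBit v.val = true := huv
    rw [this]
    simpa using hv

lemma mk_mem {S : Finset (Fin 13)} (hc : S.card ≤ 3) (hS : (G.induce (S : Set (Fin 13))).Connected) :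
    mk S ∈ cands := by
  obtain ⟨z, hz⟩ := hS.nonempty
  have hz' : z ∈ S := by exact_mod_cast hz
  unfold cands
  rw [List.mem_filter]
  refine ⟨List.mem_range.2 (mk_lt S), ?_⟩
  unfold okm
  rw [Bool.and_eq_true, Bool.and_eq_true]
  refine ⟨⟨?_, ?_⟩, ?_⟩
  · rw [bne_iff_ne]
    apply ne_zero_of_bit (i := z.val)
    rw [mk_bit]
    simpa using hz'
  · rw [decide_eq_true_iff]
    have h1 : ((List.range 13).filter fun x => (mk S).testBit x).toFinset
        = S.map Fin.valEmbedding := by
      ext i
      rw [List.mem_toFinset, List.mem_filter, Finset.mem_map, List.mem_range]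
      constructor
      · rintro ⟨hi, h2⟩
        have := mk_bit S ⟨i, hi⟩
        simp only at this
        rw [this] at h2
        exact ⟨⟨i, hi⟩, by simpa using h2, rfl⟩
      · rintro ⟨x, hx, rfl⟩
        refine ⟨x.isLt, ?_⟩
        show (mk S).testBit x.val = true
        rw [mk_bit]
        simpa using hx
    have h2 : (((List.range 13).filter fun x => (mk S).testBit x)).Nodup :=
      List.Nodup.filter _ List.nodup_range
    rw [← List.toFinset_card_of_nodup h2, h1, Finset.card_map]
    exact hc
  · rw [List.all_eq_true]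
    intro i hi
    rw [List.mem_range] at hi
    by_cases hx : (⟨i, hi⟩ : Fin 13) ∈ S
    · by_cases hone : S = {(⟨i, hi⟩ : Fin 13)}
      · have h1 : mk S = 2 ^ i := by
          apply Nat.eq_of_testBit_eq
          intro j
          rw [Nat.testBit_two_pow]
          by_cases hj : j < 13
          · have := mk_bit S ⟨j, hj⟩
            simp only at this
            rw [this, hone]
            simp only [Finset.mem_singleton, Fin.mk.injEq]
            by_cases hij : i = j
            · subst hij; simp
            · simp [hij, Ne.symm hij]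
          · have h1 : (mk S).testBit j = false :=
              Nat.testBit_lt_two_pow (lt_of_lt_of_le (mk_lt S)
                (by calc 8192 = 2 ^ 13 := by norm_num
                      _ ≤ 2 ^ j := Nat.pow_le_pow_right (by norm_num) (by omega)))
            rw [h1]
            have : ¬ i = j := by omega
            simp [this]
        rw [h1]
        simp
      · -- there is another element, hence a neighbour
        have hnb : ∃ y ∈ S, G.Adj ⟨i, hi⟩ y := by
          by_contra hcon
          push Not at hcon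
          apply hone
          apply Finset.eq_singleton_iff_unique_mem.2
          refine ⟨hx, fun y hy => ?_⟩
          have hr := hS.preconnected ⟨⟨i, hi⟩, by exact_mod_cast hx⟩ ⟨y, by exact_mod_cast hy⟩
          rw [SimpleGraph.reachable_iff_reflTransGen] at hr
          rcases Relation.ReflTransGen.cases_head hr with h | ⟨w, hw, _⟩
          · exact (congrArg Subtype.val h).symm
          · exact absurd hw (hcon w.1 (by exact_mod_cast w.2))
        obtain ⟨y, hy, hxy⟩ := hnb
        have : (nb i &&& mk S) ≠ 0 := by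
          apply ne_zero_of_bit (i := y.val)
          rw [Nat.testBit_land, mk_bit]
          have h3 : (nb i).testBit y.val = true := hxy
          rw [h3]
          simpa using hy
        have h4 : ((nb i &&& mk S) != 0) = true := by rwa [bne_iff_ne]
        rw [h4]
        simp
    · have := mk_bit S ⟨i, hi⟩
      simp only at this
      rw [this]
      simp [hx]

/-- There is no `K_4`-model with branch sets of size at most three. -/
lemma no_model (f : Fin 4 → Finset (Fin 13)) (h3 : ∀ i, (f i).card ≤ 3)
    (hc : ∀ i, (G.induce ((f i : Finset (Fin 13)) : Set (Fin 13))).Connected)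
    (hp : ∀ i j, i ≠ j → Disjoint (f i) (f j) ∧ ∃ u ∈ f i, ∃ v ∈ f j, G.Adj u v) : False := by
  have hm : ∀ i, mk (f i) ∈ cands := fun i => mk_mem (h3 i) (hc i)
  have hcp : ∀ i j, i ≠ j → compat (mk (f i)) (mk (f j)) = true := fun i j hij =>
    mk_compat (hp i j hij).1 (hp i j hij).2
  have hs : search cands = true := by
    unfold search
    rw [List.any_eq_true]
    refine ⟨mk (f 0), hm 0, ?_⟩
    rw [List.any_eq_true]
    refine ⟨mk (f 1), ?_, ?_⟩
    · rw [List.mem_filter]; exact ⟨hm 1, hcp 0 1 (by decide)⟩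
    rw [List.any_eq_true]
    refine ⟨mk (f 2), ?_, ?_⟩
    · rw [List.mem_filter, List.mem_filter]
      exact ⟨⟨hm 2, hcp 0 2 (by decide)⟩, hcp 1 2 (by decide)⟩
    rw [List.any_eq_true]
    refine ⟨mk (f 3), ?_, rfl⟩
    rw [List.mem_filter, List.mem_filter, List.mem_filter]
    exact ⟨⟨⟨hm 3, hcp 0 3 (by decide)⟩, hcp 1 3 (by decide)⟩, hcp 2 3 (by decide)⟩
  rw [search_false] at hs
  exact absurd hs (by decide)

/-- `G` is not three-colourable. -/
lemma not_col (c : Fin 13 → Fin 3) (hc : ∀ a b, G.Adj a b → c a ≠ c b) : False := by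
  have key : ∀ a b u v : Fin 3, u ≠ v → a ≠ u → a ≠ v → b ≠ u → b ≠ v → a = b := by decide
  have h1 : c 0 = c 3 := key _ _ (c 1) (c 2) (hc _ _ (by decide +kernel)) (hc _ _ (by decide +kernel))
    (hc _ _ (by decide +kernel)) (hc _ _ (by decide +kernel)) (hc _ _ (by decide +kernel))
  have h2 : c 3 = c 6 := key _ _ (c 4) (c 5) (hc _ _ (by decide +kernel)) (hc _ _ (by decide +kernel))
    (hc _ _ (by decide +kernel)) (hc _ _ (by decide +kernel)) (hc _ _ (by decide +kernel))
  have h3 : c 6 = c 9 := key _ _ (c 7) (c 8) (hc _ _ (by decide +kernel)) (hc _ _ (by decide +kernel))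
    (hc _ _ (by decide +kernel)) (hc _ _ (by decide +kernel)) (hc _ _ (by decide +kernel))
  have h4 : c 9 = c 12 := key _ _ (c 10) (c 11) (hc _ _ (by decide +kernel))
    (hc _ _ (by decide +kernel)) (hc _ _ (by decide +kernel)) (hc _ _ (by decide +kernel))
    (hc _ _ (by decide +kernel))
  exact hc 0 12 (by decide +kernel) (h1.trans (h2.trans (h3.trans h4)))

/-- collapse of the two middle vertices of each diamond -/
def g (x : Fin 13) : Fin 13 := if x.val % 3 = 2 then x - 1 else x

lemma g_card : (Finset.univ.image g).card = 9 := by decide +kernel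

lemma g_twin : ∀ x y : Fin 13, x ≠ y → g x = g y →
    G.Adj x y ∧ ∀ z, G.Adj x z → z = y ∨ G.Adj y z := by decide +kernel

/-- In a long cycle two neighbours have no common neighbour and every vertex has a second
neighbour. -/
lemma cyc (n : ℕ) (a b : Fin (n + 4)) (h : (cycleGraph (n + 4)).Adj a b) :
    ∃ c, (cycleGraph (n + 4)).Adj a c ∧ c ≠ b ∧ ¬ (cycleGraph (n + 4)).Adj b c := by
  have e1 : ((1 : Fin (n + 4)) : ℕ) = 1 := by
    rw [Fin.val_one']
    exact Nat.mod_eq_of_lt (by omega)
  have e2 : ((1 + 1 : Fin (n + 4)) : ℕ) = 2 := by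
    rw [Fin.val_add, e1]
    exact Nat.mod_eq_of_lt (by omega)
  have e3 : ((1 + 1 + 1 : Fin (n + 4)) : ℕ) = 3 := by
    rw [Fin.val_add, e1, e2]
    exact Nat.mod_eq_of_lt (by omega)
  have f1 : (1 + 1 : Fin (n + 4)) ≠ 0 := by
    intro h; have := congrArg Fin.val h; rw [e2] at this; simp at this
  have f2 : (1 + 1 : Fin (n + 4)) ≠ 1 := by
    intro h; have := congrArg Fin.val h; rw [e2, e1] at this; simp at this
  have f3 : (1 + 1 + 1 : Fin (n + 4)) ≠ 0 := by
    intro h; have := congrArg Fin.val h; rw [e3] at this; simp at this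
  rcases cycleGraph_adj.1 h with h1 | h1
  · -- a = b + 1, take c = a + 1
    have ha : a = b + 1 := by rw [← h1]; abel
    refine ⟨a + 1, ?_, ?_, ?_⟩
    · rw [cycleGraph_adj]; right; abel
    · intro e
      apply f1
      have : b + 1 + 1 = b := by rw [← ha]; exact e
      calc (1 + 1 : Fin (n + 4)) = (b + 1 + 1) - b := by abel
        _ = 0 := by rw [this]; abel
    · rw [cycleGraph_adj]
      rintro (e | e)
      · apply f3
        have : b - (b + 1 + 1) = 1 := by rw [← ha]; exact e
        calc (1 + 1 + 1 : Fin (n + 4)) = 1 - (b - (b + 1 + 1)) := by abel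
          _ = 0 := by rw [this]; abel
      · apply f2
        have : (b + 1 + 1) - b = 1 := by rw [← ha]; exact e
        calc (1 + 1 : Fin (n + 4)) = (b + 1 + 1) - b := by abel
          _ = 1 := this
  · -- b = a + 1, take c = a - 1
    have hb : b = a + 1 := by rw [← h1]; abel
    refine ⟨a - 1, ?_, ?_, ?_⟩
    · rw [cycleGraph_adj]; left; abel
    · intro e
      apply f1
      rw [hb] at e
      calc (1 + 1 : Fin (n + 4)) = (a + 1) - (a - 1) := by abel
        _ = 0 := by rw [e]; abel
    · rw [cycleGraph_adj, hb]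
      rintro (e | e)
      · apply f2
        calc (1 + 1 : Fin (n + 4)) = (a + 1) - (a - 1) := by abel
          _ = 1 := e
      · apply f3
        calc (1 + 1 + 1 : Fin (n + 4)) = 1 - ((a - 1) - (a + 1)) := by abel
          _ = 0 := by rw [e]; abel

/-- The negation of the preceding statement: For every m ≥ 2 and finite graph G: every induced subgraph has a K_t-model with connected branch sets of size ≤ m for some t it is t-colourable with, iff G has no induced cycle of length 2k+1 with 2k ≥ 3m. -/
theorem result :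
    ¬ (∀ m : ℕ, 2 ≤ m → ∀ (V : Type) [Fintype V] (G : SimpleGraph V),
    (∀ S : Finset V, ∃ t : ℕ, (G.induce (S : Set V)).Colorable t ∧
      ∃ f : Fin t → Finset V,
        (∀ i, f i ⊆ S ∧ (f i).card ≤ m ∧ (G.induce ((f i : Finset V) : Set V)).Connected) ∧
        ∀ i j, i ≠ j → Disjoint (f i) (f j) ∧ ∃ u ∈ f i, ∃ v ∈ f j, G.Adj u v)
    ↔ (∀ k : ℕ, 3 * m ≤ 2 * k → IsEmpty (SimpleGraph.cycleGraph (2 * k + 1) ↪g G))) := by
  intro H
  have hR : ∀ k : ℕ, 3 * 3 ≤ 2 * k → IsEmpty (SimpleGraph.cycleGraph (2 * k + 1) ↪g G) := by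
    intro k hk
    refine ⟨fun e => ?_⟩
    obtain ⟨n, hn⟩ : ∃ n, 2 * k + 1 = n + 4 := ⟨2 * k - 3, by omega⟩
    rw [hn] at e
    have hinj : Function.Injective (fun a => g (e a)) := by
      intro a b hab
      by_contra hne
      have hne' : e a ≠ e b := fun h => hne (e.injective h)
      obtain ⟨h1, h2⟩ := g_twin (e a) (e b) hne' hab
      have h3 : (cycleGraph (n + 4)).Adj a b := e.map_rel_iff.1 h1
      obtain ⟨c, hc1, hc2, hc3⟩ := cyc n a b h3
      rcases h2 (e c) (e.map_rel_iff.2 hc1) with h | h
      · exact hc2 (e.injective h)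
      · exact hc3 (e.map_rel_iff.1 h)
    have hle : Fintype.card (Fin (n + 4)) ≤ 9 := by
      rw [← g_card, ← Finset.card_univ]
      exact Finset.card_le_card_of_injOn _ (fun a _ => Finset.mem_coe.2
        (Finset.mem_image_of_mem g (Finset.mem_univ (e a)))) hinj.injOn
    rw [Fintype.card_fin] at hle
    omega
  obtain ⟨t, hcol, f, hf, hp⟩ := (H 3 (by norm_num) (Fin 13) G).2 hR Finset.univ
  by_cases ht : t ≤ 3
  · have h3 := hcol.mono ht
    obtain ⟨c⟩ := h3
    exact not_col (fun x => c ⟨x, by simp⟩) (fun a b hab => c.valid hab)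
  · have h4 : 4 ≤ t := by omega
    exact no_model (fun i => f (Fin.castLE h4 i)) (fun i => (hf _).2.1) (fun i => (hf _).2.2)
      (fun i j hij => hp _ _ (fun e => hij (Fin.castLE_injective h4 e)))

end Pool.Agent.S09866
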