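import Pool.Statements.S09874

set_option autoImplicit false
open Pool Pool.MP_85fffe_co

namespace Pool.Agent.S09874

open Finset

/-- The ground set, as natural numbers: the numbers `i < m` and the numbers `i + m (m + 1 + j)` with
`i ≠ j`. -/
def XN (m : ℕ) : Finset ℕ :=
  range m ∪ (((range m ×ˢ range m).filter (fun p => p.1 ≠ p.2)).image
    (fun p => p.1 + m * (m + 1 + p.2)))

lemma mem_XN {m x : ℕ} : x ∈ XN m ↔ x < m ∨ ∃ i j, i < m ∧ j < m ∧ i ≠ j ∧ x = i + m * (m + 1 + j) := by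
  unfold XN
  simp only [mem_union, mem_range, mem_image, mem_filter, mem_product, Prod.exists]
  constructor
  · rintro (h | ⟨i, j, ⟨⟨hi, hj⟩, hij⟩, rfl⟩)
    · exact Or.inl h
    · exact Or.inr ⟨i, j, hi, hj, hij, rfl⟩
  · rintro (h | ⟨i, j, hi, hj, hij, rfl⟩)
    · exact Or.inl h
    · exact Or.inr ⟨i, j, ⟨⟨hi, hj⟩, hij⟩, rfl⟩

lemma card_XN (m : ℕ) : (XN m).card ≤ m + m * m := by
  unfold XN
  refine (card_union_le _ _).trans ?_
  rw [card_range]
  refine Nat.add_le_add_left ?_ _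
  refine card_image_le.trans ((card_filter_le _ _).trans ?_)
  rw [card_product, card_range]

lemma key_a {m i j : ℕ} (hi : i < m) (hj : j < m) :
    i + m * (m + 1 + j) ∈ XN m ↔ i ≠ j := by
  rw [mem_XN]
  constructor
  · rintro (h | ⟨s, r, hs, hr, hsr, h⟩)
    · exfalso
      have : m * 1 ≤ m * (m + 1 + j) := Nat.mul_le_mul_left _ (by omega)
      omega
    · have h1 : (i + m * (m + 1 + j)) % m = (s + m * (m + 1 + r)) % m := by rw [h]
      rw [Nat.add_mul_mod_self_left, Nat.add_mul_mod_self_left, Nat.mod_eq_of_lt hi,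
        Nat.mod_eq_of_lt hs] at h1
      subst h1
      have h2 : m * (m + 1 + j) = m * (m + 1 + r) := by omega
      have h3 := Nat.eq_of_mul_eq_mul_left (by omega) h2
      have : j = r := by omega
      subst this
      exact hsr
  · intro h
    exact Or.inr ⟨i, j, hi, hj, h, rfl⟩

lemma key_b {m p q : ℕ} (hp : p < m) (hq : q < m) :
    p + m * (m + 1 + q) + m * (m + 1 + (m - 1)) ∉ XN m := by
  rw [mem_XN]
  rintro (h | ⟨s, r, hs, hr, hsr, h⟩)
  · have : m * 1 ≤ m * (m + 1 + q) := Nat.mul_le_mul_left _ (by omega)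
    omega
  · have h1 : m * (m + 1 + r) ≤ m * (m + 1 + (m - 1)) := Nat.mul_le_mul_left _ (by omega)
    have h2 : m * 1 ≤ m * (m + 1 + q) := Nat.mul_le_mul_left _ (by omega)
    omega

/-- The real ground set. -/
noncomputable def X (m : ℕ) : Finset ℝ := (XN m).image (fun k : ℕ => (k : ℝ))

/-- The pattern attached to a set of indices. -/
noncomputable def P (J : Finset ℕ) : Finset ℝ := (insert 0 J).image (fun k : ℕ => (k : ℝ))

lemma mem_X {m : ℕ} {x : ℝ} : x ∈ X m ↔ ∃ k ∈ XN m, (k : ℝ) = x := by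
  simp [X]

lemma nat_mem_X {m k : ℕ} : (k : ℝ) ∈ X m ↔ k ∈ XN m := by
  rw [mem_X]
  constructor
  · rintro ⟨l, hl, h⟩
    rw [Nat.cast_inj] at h
    rwa [← h]
  · intro h
    exact ⟨k, h, rfl⟩

lemma mem_P {J : Finset ℕ} {x : ℝ} : x ∈ P J ↔ ∃ k : ℕ, (k = 0 ∨ k ∈ J) ∧ (k : ℝ) = x := by
  unfold P
  rw [mem_image]
  constructor
  · rintro ⟨k, hk, h⟩
    exact ⟨k, mem_insert.1 hk, h⟩
  · rintro ⟨k, hk, h⟩
    exact ⟨k, mem_insert.2 hk, h⟩

lemma P_inj {J K : Finset ℕ} (hJ : 0 ∉ J) (hK : 0 ∉ K) (h : P J = P K) : J = K := by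
  have h1 : insert 0 J = insert 0 K := by
    unfold P at h
    exact Finset.image_injective (fun a b hab => by exact_mod_cast hab) h
  calc J = (insert 0 J).erase 0 := (erase_insert hJ).symm
    _ = (insert 0 K).erase 0 := by rw [h1]
    _ = K := erase_insert hK

lemma big (C : ℕ) : C * ((16 * (C + 1)) + (16 * (C + 1)) * (16 * (C + 1))) <
    2 ^ (16 * (C + 1) - 2) := by
  set u := C + 1 with hu
  have h1 : u < 2 ^ u := Nat.lt_two_pow_self
  have hu1 : 1 ≤ u := by omega
  have h2 : 2 ^ (16 * u - 2) = 2 ^ (13 * u - 2) * (2 ^ u) ^ 3 := by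
    rw [← pow_mul, ← pow_add]
    congr 1
    omega
  have h3 : 2 ^ 11 ≤ 2 ^ (13 * u - 2) := Nat.pow_le_pow_right (by norm_num) (by omega)
  have h4 : u ^ 3 < (2 ^ u) ^ 3 := Nat.pow_lt_pow_left h1 (by norm_num)
  have h5 : C ≤ u := by omega
  calc C * (16 * u + 16 * u * (16 * u)) ≤ u * (16 * u + 16 * u * (16 * u)) :=
        Nat.mul_le_mul_right _ h5
    _ ≤ 2 ^ 11 * u ^ 3 := by nlinarith [Nat.mul_le_mul_left (u * u) hu1]
    _ < 2 ^ 11 * (2 ^ u) ^ 3 := by
        exact Nat.mul_lt_mul_of_pos_left h4 (by norm_num)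
    _ ≤ 2 ^ (13 * u - 2) * (2 ^ u) ^ 3 := Nat.mul_le_mul_right _ h3
    _ = 2 ^ (16 * u - 2) := h2.symm

/-- The negation of the preceding statement: There is a constant C such that for every finite set X of n reals, any family of maximally repeated patterns of X, no two of which are translates of each other, has at most C·n members. -/
theorem result :
    ¬ (∃ C : ℕ, ∀ X : Finset ℝ, ∀ S : Finset (Finset ℝ),
      (∀ A ∈ S,
        A.Nonempty ∧ A ⊆ X ∧
        (∃ t : ℝ, t ≠ 0 ∧ A.image (· + t) ⊆ X) ∧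
        (∀ B : Finset ℝ, A ⊂ B →
          ¬ (∀ t : ℝ, A.image (· + t) ⊆ X → B.image (· + t) ⊆ X))) →
      (∀ A ∈ S, ∀ B ∈ S, ∀ t : ℝ, B = A.image (· + t) → A = B) →
      S.card ≤ C * X.card) := by
  rintro ⟨C, hC⟩
  set m := 16 * (C + 1) with hm
  have hm16 : 16 ≤ m := by omega
  have htrans : ∀ (J : Finset ℕ) (j : ℕ), J ⊆ Ico 1 (m - 1) → j < m → j ∉ insert 0 J →
      (P J).image (· + ((m * (m + 1 + j) : ℕ) : ℝ)) ⊆ X m := by
    intro J j hJ hj hjJ x hx
    rw [mem_image] at hx
    obtain ⟨y, hy, rfl⟩ := hx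
    obtain ⟨k, hk, rfl⟩ := mem_P.1 hy
    have hk' : k ∈ insert 0 J := by
      rw [mem_insert]
      exact hk
    have hkm : k < m := by
      rcases hk with rfl | hk
      · omega
      · have := hJ hk
        rw [mem_Ico] at this
        omega
    have : (k : ℝ) + ((m * (m + 1 + j) : ℕ) : ℝ) = ((k + m * (m + 1 + j) : ℕ) : ℝ) := by
      push_cast
      ring
    rw [this, nat_mem_X, key_a hkm hj]
    rintro rfl
    exact hjJ hk'
  have hlast : ∀ J : Finset ℕ, J ⊆ Ico 1 (m - 1) → m - 1 ∉ insert 0 J := by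
    intro J hJ h
    rw [mem_insert] at h
    rcases h with h | h
    · omega
    · have := hJ h
      rw [mem_Ico] at this
      omega
  have key := hC (X m) ((Ico 1 (m - 1)).powerset.image P) ?_ ?_
  · have hcard : ((Ico 1 (m - 1)).powerset.image P).card = 2 ^ (m - 2) := by
      rw [card_image_of_injOn]
      · rw [card_powerset, Nat.card_Ico]
        congr 1
      · intro J hJ K hK h
        rw [coe_powerset, Set.mem_preimage, Set.mem_powerset_iff, coe_subset] at hJ hK
        refine P_inj (fun h0 => ?_) (fun h0 => ?_) h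
        · have := hJ h0
          rw [mem_Ico] at this
          omega
        · have := hK h0
          rw [mem_Ico] at this
          omega
    have hX : (X m).card ≤ m + m * m := card_image_le.trans (card_XN m)
    rw [hcard] at key
    have h1 := big C
    have h2 : C * (X m).card ≤ C * (m + m * m) := Nat.mul_le_mul_left _ hX
    rw [← hm] at h1
    omega
  · intro A hA
    rw [mem_image] at hA
    obtain ⟨J, hJ, rfl⟩ := hA
    rw [mem_powerset] at hJ
    refine ⟨⟨0, mem_P.2 ⟨0, Or.inl rfl, by simp⟩⟩, ?_, ?_, ?_⟩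
    · intro x hx
      obtain ⟨k, hk, rfl⟩ := mem_P.1 hx
      rw [nat_mem_X, mem_XN]
      left
      rcases hk with rfl | hk
      · omega
      · have := hJ hk
        rw [mem_Ico] at this
        omega
    · refine ⟨((m * (m + 1 + (m - 1)) : ℕ) : ℝ), ?_, htrans J (m - 1) hJ (by omega) (hlast J hJ)⟩
      rw [Nat.cast_ne_zero]
      have : m * 1 ≤ m * (m + 1 + (m - 1)) := Nat.mul_le_mul_left _ (by omega)
      omega
    · intro B hAB hB
      obtain ⟨x, hxB, hxA⟩ := exists_of_ssubset hAB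
      have h0 : (P J).image (· + (0 : ℝ)) ⊆ X m := by
        intro y hy
        rw [mem_image] at hy
        obtain ⟨z, hz, rfl⟩ := hy
        obtain ⟨k, hk, rfl⟩ := mem_P.1 hz
        rw [add_zero, nat_mem_X, mem_XN]
        left
        rcases hk with rfl | hk
        · omega
        · have := hJ hk
          rw [mem_Ico] at this
          omega
      have hxX : x ∈ X m := by
        have := hB 0 h0 (mem_image_of_mem _ hxB)
        simpa using this
      obtain ⟨k, hk, rfl⟩ := mem_X.1 hxX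
      rcases mem_XN.1 hk with hkm | ⟨p, q, hp, hq, hpq, rfl⟩
      · have hkJ : k ∉ insert 0 J := by
          intro h
          rw [mem_insert] at h
          exact hxA (mem_P.2 ⟨k, h, rfl⟩)
        have h1 := hB _ (htrans J k hJ hkm hkJ) (mem_image_of_mem _ hxB)
        have h2 : (k : ℝ) + ((m * (m + 1 + k) : ℕ) : ℝ) = ((k + m * (m + 1 + k) : ℕ) : ℝ) := by
          push_cast
          ring
        simp only [h2] at h1
        rw [nat_mem_X, key_a hkm hkm] at h1
        exact h1 rfl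
      · have h1 := hB _ (htrans J (m - 1) hJ (by omega) (hlast J hJ)) (mem_image_of_mem _ hxB)
        have h2 : ((p + m * (m + 1 + q) : ℕ) : ℝ) + ((m * (m + 1 + (m - 1)) : ℕ) : ℝ)
            = ((p + m * (m + 1 + q) + m * (m + 1 + (m - 1)) : ℕ) : ℝ) := by
          push_cast
          ring
        simp only [h2] at h1
        rw [nat_mem_X] at h1
        exact key_b hp hq h1
  · intro A hA B hB t h
    rw [mem_image] at hA hB
    obtain ⟨J, hJ, rfl⟩ := hA
    obtain ⟨K, hK, rfl⟩ := hB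
    have hJ0 : (0 : ℝ) ∈ P J := mem_P.2 ⟨0, Or.inl rfl, by simp⟩
    have hK0 : (0 : ℝ) ∈ P K := mem_P.2 ⟨0, Or.inl rfl, by simp⟩
    have h1 : (0 : ℝ) ≤ t := by
      have : (0 : ℝ) + t ∈ P K := by
        rw [h]
        exact mem_image_of_mem _ hJ0
      obtain ⟨k, _, hk⟩ := mem_P.1 this
      have : (0 : ℝ) ≤ k := Nat.cast_nonneg k
      linarith
    have h2 : t ≤ 0 := by
      rw [h, mem_image] at hK0
      obtain ⟨y, hy, hyt⟩ := hK0
      obtain ⟨k, _, hk⟩ := mem_P.1 hy
      have : (0 : ℝ) ≤ k := Nat.cast_nonneg k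
      linarith
    have ht : t = 0 := le_antisymm h2 h1
    subst ht
    rw [h]
    simp

end Pool.Agent.S09874
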