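import Pool.Statements.S09896
import Pool.Agent.H64R3.Psi6

set_option autoImplicit false
open Pool Pool.MP_86c288_co

namespace Pool.Agent.S09896

/-- The negation of the preceding statement: For all integers 2 ≤ a ≤ b ≤ c ≤ d ≤ e there is a finite graph with clique number a, chromatic number b, Grundy number c, achromatic number d and pseudoachromatic number e. -/
theorem result :
    ¬ (∀ a b c d e : ℕ, 2 ≤ a → a ≤ b → b ≤ c → c ≤ d → d ≤ e →
  ∃ n : ℕ, ∃ G : SimpleGraph (Fin n),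
    ((∃ s : Finset (Fin n), G.IsNClique a s) ∧ ∀ s : Finset (Fin n), ¬ G.IsNClique (a + 1) s) ∧
    G.chromaticNumber = (b : ℕ∞) ∧
    ((∃ f : Fin n → Fin c, Function.Surjective f ∧ (∀ u v, G.Adj u v → f u ≠ f v) ∧
        ∀ v, ∀ j : Fin c, j < f v → ∃ u, G.Adj v u ∧ f u = j) ∧
      ∀ k : ℕ, c < k → ¬ ∃ f : Fin n → Fin k, Function.Surjective f ∧ (∀ u v, G.Adj u v → f u ≠ f v) ∧
        ∀ v, ∀ j : Fin k, j < f v → ∃ u, G.Adj v u ∧ f u = j) ∧
    ((∃ f : Fin n → Fin d, Function.Surjective f ∧ (∀ u v, G.Adj u v → f u ≠ f v) ∧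
        ∀ i j : Fin d, i ≠ j → ∃ u v, G.Adj u v ∧ f u = i ∧ f v = j) ∧
      ∀ k : ℕ, d < k → ¬ ∃ f : Fin n → Fin k, Function.Surjective f ∧ (∀ u v, G.Adj u v → f u ≠ f v) ∧
        ∀ i j : Fin k, i ≠ j → ∃ u v, G.Adj u v ∧ f u = i ∧ f v = j) ∧
    ((∃ f : Fin n → Fin e, Function.Surjective f ∧
        ∀ i j : Fin e, i ≠ j → ∃ u v, G.Adj u v ∧ f u = i ∧ f v = j) ∧
      ∀ k : ℕ, e < k → ¬ ∃ f : Fin n → Fin k, Function.Surjective f ∧
        ∀ i j : Fin k, i ≠ j → ∃ u v, G.Adj u v ∧ f u = i ∧ f v = j)) := by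
  intro H
  obtain ⟨n, G, ⟨-, hcf⟩, hchi, -, -, -, hpsi⟩ := H 2 4 4 4 4 (by norm_num) (by norm_num)
    (by norm_num) (by norm_num) (by norm_num)
  have tf : ∀ a b c, G.Adj a b → G.Adj b c → ¬ G.Adj a c := by
    intro a b c hab hbc hac
    refine hcf {a, b, c} ?_
    rw [SimpleGraph.is3Clique_triple_iff]
    exact ⟨hab, hac, hbc⟩
  have hcol : ¬ G.Colorable 3 := by
    intro h
    have h1 : G.chromaticNumber ≤ (3 : ℕ) := h.chromaticNumber_le
    rw [hchi] at h1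
    have h2 : (4 : ℕ) ≤ 3 := by exact_mod_cast h1
    omega
  obtain ⟨f, hf⟩ := H64R3.Psi.main G tf hcol
  refine hpsi 5 (by norm_num) ⟨f, ?_, ?_⟩
  · intro j
    by_cases hj : j = 0
    · obtain ⟨u, v, -, hu, -⟩ := hf 0 1 (by decide)
      exact ⟨u, by rw [hu, hj]⟩
    · obtain ⟨u, v, -, -, hv⟩ := hf 0 j (Fin.pos_of_ne_zero hj)
      exact ⟨v, hv⟩
  · intro i j hij
    rcases lt_or_gt_of_ne hij with h | h
    · exact hf i j h
    · obtain ⟨u, v, huv, hu, hv⟩ := hf j i h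
      exact ⟨v, u, huv.symm, hv, hu⟩

end Pool.Agent.S09896
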