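import Pool.Statements.S09946
import Pool.Agent.H306R3.HighGirth

set_option autoImplicit false
open Pool Pool.MP_8888ff_co

namespace Pool.Agent.S09946

open Pool.Agent.H306R3

/-- The orders of the forbidden graphs: `N 0 = 4`, and `N (k+1)` is one more than the order of a
`(k+2)`-regular graph all of whose subgraphs on at most `N k` vertices have a vertex of degree at
most one. -/
noncomputable def N : ℕ → {x : ℕ // 1 ≤ x}
  | 0 => ⟨4, by norm_num⟩
  | k + 1 => ⟨(exists_high (k + 2) (N k).1 (by omega) (N k).2).choose + 1, by omega⟩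

lemma N_succ (k : ℕ) : (N (k + 1)).1 =
    (exists_high (k + 2) (N k).1 (by omega) (N k).2).choose + 1 := rfl

lemma N_lt (k : ℕ) : (N k).1 < (N (k + 1)).1 := by
  rw [N_succ]
  have := (exists_high (k + 2) (N k).1 (by omega) (N k).2).choose_spec
  obtain ⟨G, h, _⟩ := this
  omega

lemma N_mono : StrictMono (fun k => (N k).1) := strictMono_nat_of_lt_succ N_lt

/-- The graph behind the step from `N k` to `N (k+1)`. -/
lemma exists_T (k : ℕ) : ∃ (m : ℕ) (G : SimpleGraph (Fin m)), (N (k + 1)).1 = m + 1 ∧ 0 < m ∧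
    (∀ v, (G.neighborSet v).ncard = k + 2) ∧
      ∀ M : ℕ, 0 < M → M ≤ (N k).1 → ∀ K : SimpleGraph (Fin M),
        (∀ v, 2 ≤ (K.neighborSet v).ncard) → ¬ K.IsContained G := by
  obtain ⟨G, h1, h2, h3⟩ := (exists_high (k + 2) (N k).1 (by omega) (N k).2).choose_spec
  exact ⟨_, G, N_succ k, by omega, h2, h3⟩

/-- The family: all graphs of minimum degree at least two whose order is one of the numbers `N k`. -/
def Fam : Set (Σ k : ℕ, SimpleGraph (Fin k)) :=
  {p | (∃ k, p.1 = (N k).1) ∧ ∀ v, 2 ≤ (p.2.neighborSet v).ncard}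

/-- The negation of the preceding statement: For every graph family whose members all contain a cycle and one is bipartite, some c>0 ensures every graph with min degree δ≥1 and max degree Δ has a spanning F-free subgraph of min degree at least c·ex(K_Δ,F)·δ/Δ². -/
theorem result :
    ¬ (∀ F : Set (Σ k : ℕ, SimpleGraph (Fin k)),
      (∀ p ∈ F, ¬ p.2.IsAcyclic) →
      (∃ p ∈ F, p.2.Colorable 2) →
      ∃ c : ℝ, 0 < c ∧
        ∀ δ Δ : ℕ, 1 ≤ δ → δ ≤ Δ →
          ∀ n : ℕ, ∀ G : SimpleGraph (Fin n),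
            (∀ v, δ ≤ (G.neighborSet v).ncard) →
            (∃ v, (G.neighborSet v).ncard = δ) →
            (∀ v, (G.neighborSet v).ncard ≤ Δ) →
            (∃ v, (G.neighborSet v).ncard = Δ) →
            ∀ T : SimpleGraph (Fin Δ),
              (∀ p ∈ F, ¬ p.2.IsContained T) →
              ∃ H : SimpleGraph (Fin n), H ≤ G ∧
                (∀ p ∈ F, ¬ p.2.IsContained H) ∧
                ∀ v, c * (T.edgeSet.ncard : ℝ) * (δ : ℝ) / (Δ : ℝ) ^ 2
                  ≤ ((H.neighborSet v).ncard : ℝ)) := by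
  classical
  intro hall
  have hF1 : ∀ p ∈ Fam, ¬ p.2.IsAcyclic := by
    rintro ⟨M, K⟩ ⟨⟨j, hj⟩, hK⟩
    simp only at hj hK ⊢
    exact not_acyclic (by rw [hj]; exact (N j).2) K hK
  have hF2 : ∃ p ∈ Fam, p.2.Colorable 2 := by
    refine ⟨⟨4, SimpleGraph.cycleGraph 4⟩, ⟨⟨0, rfl⟩, ?_⟩, ?_⟩
    · intro v
      simp only
      rw [← Nat.card_coe_set_eq, Nat.card_eq_fintype_card, SimpleGraph.card_neighborSet_eq_degree,
        SimpleGraph.cycleGraph_degree_three_le]
    · refine ⟨SimpleGraph.Coloring.mk (fun v : Fin 4 => (⟨v.val % 2, Nat.mod_lt _ (by norm_num)⟩ : Fin 2)) ?_⟩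
      decide
  obtain ⟨c, hc, h⟩ := hall Fam hF1 hF2
  · -- the main argument
    obtain ⟨k, hk⟩ := exists_nat_gt (2 / c)
    obtain ⟨m, T, hm, hm0, hdeg, hT⟩ := exists_T k
    have htop : ∀ v : Fin (m + 1), ((⊤ : SimpleGraph (Fin (m + 1))).neighborSet v).ncard = m := by
      intro v
      rw [← Nat.card_coe_set_eq, Nat.card_eq_fintype_card, SimpleGraph.card_neighborSet_eq_degree]
      simp
    have hTfree : ∀ p ∈ Fam, ¬ p.2.IsContained T := by
      rintro ⟨M, K⟩ ⟨⟨j, hj⟩, hK⟩ hcon
      simp only at hj hK hcon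
      rcases le_or_gt j k with hjk | hjk
      · refine hT M ?_ ?_ K hK hcon
        · rw [hj]; exact (N j).2
        · rw [hj]; exact N_mono.monotone hjk
      · obtain ⟨f⟩ := hcon
        have h1 := Fintype.card_le_of_injective f f.injective
        rw [Fintype.card_fin, Fintype.card_fin] at h1
        have h2 : (N (k + 1)).1 ≤ (N j).1 := N_mono.monotone (show k + 1 ≤ j from hjk)
        omega
    obtain ⟨H, -, hHfree, hH⟩ := h m m (by omega) le_rfl (m + 1) ⊤ (fun v => (htop v).ge)
      ⟨0, htop 0⟩ (fun v => (htop v).le) ⟨0, htop 0⟩ T hTfree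
    obtain ⟨v, hv⟩ : ∃ v, (H.neighborSet v).ncard ≤ 1 := by
      by_contra hcon
      push Not at hcon
      exact hHfree ⟨m + 1, H⟩ ⟨⟨k + 1, hm.symm⟩, fun v => hcon v⟩ (SimpleGraph.IsContained.refl _)
    have hv' : ((H.neighborSet v).ncard : ℝ) ≤ 1 := by exact_mod_cast hv
    have hE : 2 * T.edgeSet.ncard = m * (k + 2) := by
      have h1 := T.sum_degrees_eq_twice_card_edges
      have h2 : ∀ v, T.degree v = k + 2 := by
        intro v
        rw [← hdeg v, ← Nat.card_coe_set_eq, Nat.card_eq_fintype_card,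
          SimpleGraph.card_neighborSet_eq_degree]
      simp only [h2, Finset.sum_const, Finset.card_univ, Fintype.card_fin, smul_eq_mul] at h1
      rw [h1, ← SimpleGraph.coe_edgeFinset, Set.ncard_coe_finset]
    have hE' : 2 * (T.edgeSet.ncard : ℝ) = m * (k + 2) := by exact_mod_cast hE
    have hmr : (0 : ℝ) < m := by exact_mod_cast hm0
    have h3 := (hH v).trans hv'
    rw [div_le_iff₀ (by positivity)] at h3
    have h4 : c * (T.edgeSet.ncard : ℝ) * (m : ℝ) = c * (k + 2) / 2 * (m : ℝ) ^ 2 := by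
      have : (T.edgeSet.ncard : ℝ) = m * (k + 2) / 2 := by linarith
      rw [this]; ring
    rw [h4, one_mul] at h3
    have h5 : c * (k + 2) / 2 ≤ 1 := by
      by_contra hcon
      push Not at hcon
      have : (m : ℝ) ^ 2 < c * (k + 2) / 2 * (m : ℝ) ^ 2 := by
        have h6 : (0 : ℝ) < (m : ℝ) ^ 2 := by positivity
        nlinarith
      linarith
    rw [div_lt_iff₀ hc] at hk
    nlinarith

end Pool.Agent.S09946
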