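import Pool.Statements.S09959
import Pool.Agent.H567R3.ZS.Main

set_option autoImplicit false
open Pool Pool.MP_897143_co

namespace Pool.Agent.S09959

/-- Every finite simple 5-regular graph has an edge labelling by nonzero integers of absolute value less than 5 such that the labels on the edges at each vertex sum to zero. -/
theorem result :
    ∀ (V : Type) [Fintype V] [DecidableEq V] (G : SimpleGraph V) [DecidableRel G.Adj],
      G.IsRegularOfDegree 5 →
      ∃ f : Sym2 V → ℤ,
        (∀ e ∈ G.edgeSet, f e ≠ 0 ∧ |f e| < 5) ∧
        ∀ v : V, ∑ w ∈ G.neighborFinset v, f s(v, w) = 0 := by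
  intro V _ _ G _ hG
  exact Pool.Agent.H567R3.ZS.zero_sum_five G hG

end Pool.Agent.S09959
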