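import Pool.Statements.S10033
import Pool.Agent.H598R3.AvAll

set_option autoImplicit false
set_option linter.unusedSectionVars false
open Pool Pool.MP_8c9d81_co

namespace Pool.Agent.S10033

open Pool.Agent.H598R3

variable {F : Type} [Field F] [Fintype F]

/-- coordinates of the points of the model -/
def vec : Pt F → (Fin 3 → F)
  | none => ![1, 0, 0]
  | some (x, some y) => ![x, y, 1]
  | some (x, none) => ![x, 1, 0]

lemma vec_ne (p : Pt F) : vec p ≠ 0 := by
  intro h
  cases p with
  | none =>
    have := congrFun h 0
    simp [vec] at this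
  | some p =>
    obtain ⟨x, r⟩ := p
    cases r with
    | none =>
      have := congrFun h 1
      simp [vec] at this
    | some y =>
      have := congrFun h 2
      simp [vec] at this

/-- the points of the model as points of the projective plane -/
noncomputable def phi (p : Pt F) : Projectivization F (Fin 3 → F) :=
  Projectivization.mk F (vec p) (vec_ne p)

lemma phi_injective : Function.Injective (phi (F := F)) := by
  intro p p' h
  unfold phi at h
  rw [Projectivization.mk_eq_mk_iff] at h
  obtain ⟨a, ha⟩ := h
  have h0 := congrFun ha 0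
  have h1 := congrFun ha 1
  have h2 := congrFun ha 2
  have hane : (a : F) ≠ 0 := a.ne_zero
  simp only [Pi.smul_apply, Units.smul_def, smul_eq_mul] at h0 h1 h2
  rcases p with _ | ⟨x, _ | y⟩ <;> rcases p' with _ | ⟨x', _ | y'⟩ <;>
    simp only [vec, Matrix.cons_val_zero, Matrix.cons_val_one, Matrix.cons_val, mul_one, mul_zero,
      one_ne_zero, zero_ne_one, hane] at h0 h1 h2
  · rfl
  · rw [h1, one_mul] at h0
    rw [h0]
  · rw [h2, one_mul] at h0 h1
    rw [h0, h1]

lemma exists_coeff (W : Submodule F (Fin 3 → F)) (hW : Module.finrank F W = 2) :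
    ∃ a b c : F, (a ≠ 0 ∨ b ≠ 0 ∨ c ≠ 0) ∧ ∀ v : Fin 3 → F, v ∈ W ↔ a * v 0 + b * v 1 + c * v 2 = 0 := by
  have hlt : W < ⊤ := by
    rw [lt_top_iff_ne_top]
    intro h
    rw [h, finrank_top, Module.finrank_fin_fun] at hW
    omega
  obtain ⟨f, hf0, hf⟩ := Submodule.exists_le_ker_of_lt_top W hlt
  have hker : Module.finrank F (LinearMap.ker f) = 2 := by
    have h1 := LinearMap.finrank_range_add_finrank_ker f
    rw [Module.finrank_fin_fun] at h1
    have h2 : Module.finrank F (LinearMap.range f) = 1 := by
      have h3 : LinearMap.range f = ⊤ := LinearMap.range_eq_top.2 (LinearMap.surjective hf0)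
      rw [h3, finrank_top, Module.finrank_self]
    omega
  have hWk : W = LinearMap.ker f := by
    apply Submodule.eq_of_le_of_finrank_eq hf
    rw [hW, hker]
  have hfe : ∀ v : Fin 3 → F, f v = f (Pi.single 0 1) * v 0 + f (Pi.single 1 1) * v 1 +
      f (Pi.single 2 1) * v 2 := by
    intro v
    have h4 : v = v 0 • (Pi.single 0 1 : Fin 3 → F) + v 1 • (Pi.single 1 1 : Fin 3 → F) +
        v 2 • (Pi.single 2 1 : Fin 3 → F) := by
      ext i
      fin_cases i <;> simp
    conv_lhs => rw [h4]
    simp only [map_add, map_smul, smul_eq_mul]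
    ring
  refine ⟨f (Pi.single 0 1), f (Pi.single 1 1), f (Pi.single 2 1), ?_, ?_⟩
  · by_contra hcon
    push Not at hcon
    apply hf0
    ext i
    fin_cases i
    · simpa using hcon.1
    · simpa using hcon.2.1
    · simpa using hcon.2.2
  · intro v
    rw [hWk, LinearMap.mem_ker, hfe]

lemma mem_iff (W : Submodule F (Fin 3 → F)) (p : Pt F) :
    (phi p).submodule ≤ W ↔ vec p ∈ W := by
  unfold phi
  rw [Projectivization.submodule_mk, Submodule.span_singleton_le_iff_mem]

lemma line_cases (W : Submodule F (Fin 3 → F)) (hW : Module.finrank F W = 2) :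
    (∃ u v : F, ∀ p : Pt F, (phi p).submodule ≤ W ↔ OnLin u v p) ∨
    (∃ r : Option F, ∀ p : Pt F, (phi p).submodule ≤ W ↔ OnRow r p) := by
  obtain ⟨a, b, c, hne, hmem⟩ := exists_coeff W hW
  by_cases ha : a = 0
  · right
    by_cases hb : b = 0
    · have hc : c ≠ 0 := by
        rcases hne with h | h | h
        · exact absurd ha h
        · exact absurd hb h
        · exact h
      refine ⟨none, fun p => ?_⟩
      rw [mem_iff, hmem]
      rcases p with _ | ⟨x, _ | y⟩ <;> simp [vec, OnRow, ha, hb, hc]
    · refine ⟨some (-c / b), fun p => ?_⟩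
      rw [mem_iff, hmem]
      rcases p with _ | ⟨x, _ | y⟩
      · simp [vec, OnRow, ha]
      · simp [vec, OnRow, ha, hb]
      · simp only [vec, OnRow, ha, Matrix.cons_val_zero, Matrix.cons_val_one, Matrix.cons_val,
          zero_mul, zero_add, mul_one, reduceCtorEq, Option.some.injEq, Prod.mk.injEq, false_or]
        constructor
        · intro h
          refine ⟨x, rfl, ?_⟩
          rw [eq_div_iff hb]
          linear_combination h
        · rintro ⟨x', -, h⟩
          rw [h]
          field_simp
          ring
  · left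
    refine ⟨-b / a, -c / a, fun p => ?_⟩
    rw [mem_iff, hmem]
    rcases p with _ | ⟨x, _ | y⟩
    · simp [vec, OnLin, ha]
    · simp only [vec, OnLin, Matrix.cons_val_zero, Matrix.cons_val_one, Matrix.cons_val, mul_one,
        mul_zero, add_zero, reduceCtorEq, Option.some.injEq, Prod.mk.injEq, and_true, and_false,
        exists_false, or_false]
      constructor
      · intro h
        rw [eq_div_iff ha]
        linear_combination h
      · intro h
        rw [h]
        field_simp
        ring
    · simp only [vec, OnLin, Matrix.cons_val_zero, Matrix.cons_val_one, Matrix.cons_val, mul_one,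
        reduceCtorEq, Option.some.injEq, Prod.mk.injEq, and_false, false_or]
      constructor
      · intro h
        refine ⟨y, ?_, rfl⟩
        field_simp
        linear_combination h
      · rintro ⟨y', h, rfl⟩
        rw [h]
        field_simp
        ring

/-- There is a constant c such that for every finite field of order q and every k with c√q < k < q+1−c√q, each size m from 0 to q²+q+1 is attained by a point set of PG(2,q) meeting no line in exactly k points. -/
theorem result :
  ∃ c : ℝ, ∀ (F : Type) [Field F] [Fintype F] (k : ℕ),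
    c * Real.sqrt (Fintype.card F : ℝ) < (k : ℝ) →
    (k : ℝ) < (Fintype.card F : ℝ) + 1 - c * Real.sqrt (Fintype.card F : ℝ) →
    ∀ m : ℕ, m ≤ (Fintype.card F) ^ 2 + Fintype.card F + 1 →
      ∃ S : Set (Projectivization F (Fin 3 → F)), S.ncard = m ∧
        ∀ W : Submodule F (Fin 3 → F), Module.finrank F W = 2 →
          (S ∩ {p : Projectivization F (Fin 3 → F) | p.submodule ≤ W}).ncard ≠ k := by
  classical
  refine ⟨100, ?_⟩
  intro F _ _ k h1 h2 m hm
  obtain ⟨S, hS, hrow, hlin⟩ := all_sizes (F := F) k h1 h2 m hm
  refine ⟨phi '' (S : Set (Pt F)), ?_, ?_⟩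
  · rw [Set.ncard_image_of_injective _ phi_injective, Set.ncard_coe_finset, hS]
  · intro W hW
    have key : ∀ P : Pt F → Prop, (∀ p : Pt F, (phi p).submodule ≤ W ↔ P p) →
        (phi '' (S : Set (Pt F)) ∩ {p : Projectivization F (Fin 3 → F) | p.submodule ≤ W}).ncard =
          (S.filter P).card := by
      intro P hP
      have h3 : phi '' (S : Set (Pt F)) ∩
          {p : Projectivization F (Fin 3 → F) | p.submodule ≤ W} =
          phi '' ((S.filter P : Finset (Pt F)) : Set (Pt F)) := by
        ext x
        simp only [Set.mem_inter_iff, Set.mem_image, Finset.mem_coe, Set.mem_setOf_eq,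
          Finset.mem_filter]
        constructor
        · rintro ⟨⟨p, hp, rfl⟩, h⟩
          exact ⟨p, ⟨hp, (hP p).1 h⟩, rfl⟩
        · rintro ⟨p, ⟨hp, h⟩, rfl⟩
          exact ⟨⟨p, hp, rfl⟩, (hP p).2 h⟩
      rw [h3, Set.ncard_image_of_injective _ phi_injective, Set.ncard_coe_finset]
    rcases line_cases W hW with ⟨u, v, h⟩ | ⟨r, h⟩
    · rw [key _ h]
      exact hlin u v
    · rw [key _ h]
      exact hrow r

end Pool.Agent.S10033
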