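import Pool.Statements.S10037
-- import your own Pool.Agent.* helpers here
import Pool.Agent.H122R2.FdF.Main
import Pool.Agent.H122R2.FdF.Count
import Pool.Agent.H122R2.FdF.TaskH2

set_option autoImplicit false
open Classical
open Pool Pool.MP_8cac16_co

namespace Pool.Agent.S10037

theorem choose_three (n : ℕ) :
    ((n.choose 3 : ℕ) : ℝ) = (n : ℝ) ^ 3 / 6 - (n : ℝ) ^ 2 / 2 + (n : ℝ) / 3 := by
  induction n with
  | zero => simp
  | succ n ih =>
    have h2 : ((n.choose 2 : ℕ) : ℝ) = (n : ℝ) * ((n : ℝ) - 1) / 2 := Nat.cast_choose_two ℝ n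
    rw [Nat.choose_succ_succ' n 2]
    push_cast
    rw [ih, h2]
    ring

/-- For every ε>0 and all large n, any oriented graph on n vertices with no induced oriented 4-cycle has at least (4/9−ε)·C(n,3) vertex triples in which some vertex is isolated or has outdegree 2. -/
theorem result :
    ∀ ε : ℝ, ε > 0 → ∃ N : ℕ, ∀ n : ℕ, n ≥ N →
      ∀ R : Fin n → Fin n → Prop,
        (∀ u v, R u v → ¬ R v u) →
        (¬ ∃ a b c d : Fin n, R a b ∧ R b c ∧ R c d ∧ R d a ∧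
            ¬ R a c ∧ ¬ R c a ∧ ¬ R b d ∧ ¬ R d b) →
        (((Finset.univ.powersetCard 3).filter (fun s : Finset (Fin n) =>
            ∃ x ∈ s, (∀ y ∈ s, y ≠ x → (¬ R x y ∧ ¬ R y x)) ∨
                     (∀ y ∈ s, y ≠ x → R x y))).card : ℝ)
          ≥ (4 / 9 - ε) * ((n.choose 3 : ℕ) : ℝ) := by
  intro ε hε
  obtain ⟨N, hN⟩ := exists_nat_gt (8 / ε)
  refine ⟨max N 8, fun n hn R hO hC => ?_⟩
  have hc4 : Pool.Agent.H122R2.FdF.C4Free R := by
    intro a b c d h1 h2 h3 h4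
    by_contra hne
    push Not at hne
    exact hC ⟨a, b, c, d, h1, h2, h3, h4, hne.1, hne.2.1, hne.2.2.1, hne.2.2.2⟩
  have hmain := Pool.Agent.H122R2.FdF.fdf_card R hO fun w hw h1 =>
    Pool.Agent.H122R2.FdF.main_weighted R w hO hc4 hw h1
  have hcard : (((Finset.univ.powersetCard 3).filter (fun s : Finset (Fin n) =>
            ∃ x ∈ s, (∀ y ∈ s, y ≠ x → (¬ R x y ∧ ¬ R y x)) ∨
                     (∀ y ∈ s, y ≠ x → R x y))).card : ℝ) =
      ((Pool.Agent.H122R2.FdF.fdf R).card : ℝ) := by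
    unfold Pool.Agent.H122R2.FdF.fdf
    congr!
  rw [hcard, choose_three]
  have hnN : (N : ℝ) ≤ n := by exact_mod_cast (le_max_left _ _).trans hn
  have hn8 : (8 : ℝ) ≤ n := by exact_mod_cast (le_max_right _ _).trans hn
  have hne : 8 < ε * n := by
    have : 8 / ε < n := lt_of_lt_of_le hN hnN
    rwa [div_lt_iff₀ hε, mul_comm] at this
  have hn0 : (0 : ℝ) < n := by linarith
  -- ε C(n,3) ≥ ε n^3 / 6 - ε n^2/2 = ε n^2 (n - 3)/6 ≥ ε n^3 (5/8)/6 
  have h1 : ε * ((n : ℝ) ^ 3 / 6 - (n : ℝ) ^ 2 / 2 + (n : ℝ) / 3) ≥ ε * n * ((n : ℝ) ^ 2 * (5 / 48)) := by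
    have h3 : (n : ℝ) ^ 3 / 6 - (n : ℝ) ^ 2 / 2 + (n : ℝ) / 3 ≥ n * ((n : ℝ) ^ 2 * (5 / 48)) := by
      nlinarith [mul_nonneg (mul_nonneg hn0.le hn0.le) (sub_nonneg.2 hn8)]
    have := mul_le_mul_of_nonneg_left h3 hε.le
    nlinarith [this]
  have h2 : ε * n * ((n : ℝ) ^ 2 * (5 / 48)) ≥ 8 * ((n : ℝ) ^ 2 * (5 / 48)) := by
    have : (0 : ℝ) ≤ (n : ℝ) ^ 2 * (5 / 48) := by positivity
    exact mul_le_mul_of_nonneg_right hne.le this
  nlinarith [h1, h2, hmain, sq_nonneg (n : ℝ)]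

end Pool.Agent.S10037
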