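import Pool.Statements.S10055

set_option autoImplicit false
open Pool Pool.MP_8d311f_co

namespace Pool.Agent.S10055

/-- The table of an element-valued function on the 64 points of `F_8 x F_8`
(code `4 t + i` stands for `a i` when `t = 0` and for `xa i` when `t = 1`).
The code of `(x, y)` is obtained from the three bits of the product `x y` in `F_8`. -/
def tab : List ℕ :=
  [0, 0, 0, 0, 0, 0, 0, 0, 0, 1, 4, 5, 2, 3, 6, 7, 0, 4, 2, 6, 5, 1, 7, 3, 0, 5, 6, 3, 7, 2, 1, 4,
   0, 2, 5, 7, 6, 4, 3, 1, 0, 3, 1, 2, 4, 7, 5, 6, 0, 6, 7, 1, 3, 5, 4, 2, 0, 7, 3, 4, 1, 6, 2, 5]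

/-- Decoding into the quaternion group of order 8. -/
def dec (c : ℕ) : QuaternionGroup 2 :=
  if c < 4 then QuaternionGroup.a (c : ZMod 4) else QuaternionGroup.xa ((c - 4 : ℕ) : ZMod 4)

/-- The bent function. -/
def h (k : ℕ) : QuaternionGroup 2 := dec (tab.getD k 0)

/-- quotient code -/
def q (c d : ℕ) : ℕ :=
  if c < 4 then
    if d < 4 then (c + (4 - d)) % 4 else 4 + ((2 + d - 4) + (4 - c)) % 4
  else
    if d < 4 then 4 + ((c - 4) + (4 - d)) % 4 else (2 + ((2 + d - 4) + (4 - (c - 4)))) % 4

theorem q_spec : ∀ c < 8, ∀ d < 8, dec c * (dec d)⁻¹ = dec (q c d) := by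
  decide

theorem tab_lt : ∀ k < 64, tab.getD k 0 < 8 := by decide

theorem q_lt : ∀ c < 8, ∀ d < 8, q c d < 8 := by decide

theorem dec_inj : ∀ c < 8, ∀ d < 8, dec c = dec d → c = d := by decide

theorem dec_surj : ∀ g : QuaternionGroup 2, ∃ c < 8, dec c = g := by decide

/-- counting the codes of the quotients -/
def cnt (u e : ℕ) : ℕ :=
  (List.range 64).countP (fun k => q (tab.getD (u ^^^ k) 0) (tab.getD k 0) == e)

theorem cnt_eq : ∀ u < 64, u ≠ 0 → ∀ e < 8, cnt u e = 8 := by
  decide +kernel

/-- exclusive or on `Fin 64` -/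
def xf (i k : Fin 64) : Fin 64 :=
  ⟨i.val ^^^ k.val, Nat.xor_lt_two_pow (n := 6) i.isLt k.isLt⟩

theorem xf_invol (j : Fin 64) : Function.Involutive (xf j) := by
  intro k
  apply Fin.ext
  show j.val ^^^ (j.val ^^^ k.val) = k.val
  rw [← Nat.xor_assoc, Nat.xor_self, Nat.zero_xor]

theorem card_countP (p : ℕ → Bool) :
    Nat.card {k : Fin 64 // p k.val = true} = (List.range 64).countP p := by
  rw [Nat.card_eq_fintype_card, Fintype.card_subtype]
  have h1 : (List.range 64).countP p = ((Finset.range 64).filter (fun k => p k = true)).card := by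
    rw [List.countP_eq_length_filter]
    rw [← List.toFinset_card_of_nodup (List.Nodup.filter _ List.nodup_range)]
    congr 1
    ext k
    simp
  rw [h1]
  apply Finset.card_bij (fun (k : Fin 64) _ => k.val)
  · intro k hk
    simp only [Finset.mem_filter, Finset.mem_univ, true_and] at hk
    simp only [Finset.mem_filter, Finset.mem_range]
    exact ⟨k.isLt, hk⟩
  · intro a _ b _ hab
    exact Fin.ext hab
  · intro b hb
    simp only [Finset.mem_filter, Finset.mem_range] at hb
    exact ⟨⟨b, hb.1⟩, by simpa using hb.2, rfl⟩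

theorem rowcount (i j : Fin 64) (hij : i ≠ j) (g : QuaternionGroup 2) :
    Nat.card {k : Fin 64 // h (xf i k).val * (h (xf j k).val)⁻¹ = g} = 8 := by
  obtain ⟨e, he, rfl⟩ := dec_surj g
  have hu : (xf i j).val ≠ 0 := by
    intro h0
    apply hij
    apply Fin.ext
    exact Nat.xor_eq_zero_iff.mp h0
  have key : ∀ k : Fin 64, h (xf i (xf j k)).val * (h (xf j (xf j k)).val)⁻¹ = dec e ↔
      (fun k : ℕ => q (tab.getD ((xf i j).val ^^^ k) 0) (tab.getD k 0) == e) k.val = true := by
    intro k
    rw [xf_invol j k]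
    have e1 : (xf i (xf j k)).val = (xf i j).val ^^^ k.val := by
      show i.val ^^^ (j.val ^^^ k.val) = (i.val ^^^ j.val) ^^^ k.val
      rw [Nat.xor_assoc]
    have lt1 : (xf i j).val ^^^ k.val < 64 :=
      Nat.xor_lt_two_pow (n := 6) (xf i j).isLt k.isLt
    rw [e1]
    unfold h
    rw [q_spec _ (tab_lt _ lt1) _ (tab_lt _ k.isLt)]
    simp only [beq_iff_eq]
    constructor
    · intro hh
      exact dec_inj _ (q_lt _ (tab_lt _ lt1) _ (tab_lt _ k.isLt)) _ he hh
    · intro hh
      rw [hh]
  have e2 : Nat.card {k : Fin 64 // h (xf i k).val * (h (xf j k).val)⁻¹ = dec e} =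
      Nat.card {k : Fin 64 //
        (fun k : ℕ => q (tab.getD ((xf i j).val ^^^ k) 0) (tab.getD k 0) == e) k.val = true} := by
    apply Nat.card_congr
    refine Equiv.subtypeEquiv (Function.Involutive.toPerm (xf j) (xf_invol j)) ?_
    intro k
    have := key (xf j k)
    rw [xf_invol j k] at this
    exact this
  rw [e2]
  refine (card_countP (fun k : ℕ => q (tab.getD ((xf i j).val ^^^ k) 0) (tab.getD k 0) == e)).trans ?_
  exact cnt_eq _ (xf i j).isLt hu e he

/-- The modified matrix: row `0` is multiplied on the left by `xa 0`. -/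
def c (i : Fin 64) : QuaternionGroup 2 := if i.val = 0 then QuaternionGroup.xa 0 else 1

/-- The modified matrix. -/
def H (i k : Fin 64) : QuaternionGroup 2 := c i * h (xf i k).val

theorem colcount : Fintype.card {k : Fin 64 // H k 9 * (H k 0)⁻¹ = QuaternionGroup.a 1} = 7 := by
  decide +kernel

theorem cardQ : Nat.card (QuaternionGroup 2) = 8 := by
  rw [Nat.card_eq_fintype_card]
  decide

/-- There is a finite group N of order w dividing v and a v×v matrix over N such that, for any two distinct rows, each group element occurs exactly v/w times among the entrywise quotients h_ik h_jk⁻¹, while this fails for some pair of distinct columns. -/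
theorem result :
    ∃ (N : Type) (_ : Group N) (_ : Finite N) (v : ℕ) (H : Fin v → Fin v → N),
      Nat.card N ∣ v ∧
      (∀ i j : Fin v, i ≠ j → ∀ g : N,
        Nat.card {k : Fin v // H i k * (H j k)⁻¹ = g} = v / Nat.card N) ∧
      ¬ (∀ i j : Fin v, i ≠ j → ∀ g : N,
        Nat.card {k : Fin v // H k i * (H k j)⁻¹ = g} = v / Nat.card N) := by
  refine ⟨QuaternionGroup 2, inferInstance, inferInstance, 64, H, ?_, ?_, ?_⟩
  · rw [cardQ]; norm_num
  · intro i j hij g
    rw [cardQ]
    have e1 : Nat.card {k : Fin 64 // H i k * (H j k)⁻¹ = g} =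
        Nat.card {k : Fin 64 // h (xf i k).val * (h (xf j k).val)⁻¹ = (c i)⁻¹ * g * c j} := by
      apply Nat.card_congr
      apply Equiv.subtypeEquivRight
      intro k
      unfold H
      constructor
      · intro hh
        rw [← hh]
        group
      · intro hh
        have : c i * h (xf i k).val * (c j * h (xf j k).val)⁻¹ =
            c i * (h (xf i k).val * (h (xf j k).val)⁻¹) * (c j)⁻¹ := by group
        rw [this, hh]
        group
    rw [e1, rowcount i j hij]
  · intro hh
    have := hh 9 0 (by decide) (QuaternionGroup.a 1)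
    rw [cardQ, Nat.card_eq_fintype_card, colcount] at this
    norm_num at this

end Pool.Agent.S10055
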