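-- Proof of the frozen statement S10062 (negation of the problem statement).
import Pool.Statements.S10062
import Pool.Agent.H77R3.UP5

set_option autoImplicit false
open Pool Pool.MP_8d5faa_co

namespace Pool.Agent.S10062

/-- The negation of the preceding statement: For every ε>0 and all large odd q, the unitary polarity graph of PG(2,q²) (points adjacent when Σ xᵢ yᵢ^q = 0) has a set of at least (1/2−ε)q⁴ points containing no triangle. -/
theorem result :
    ¬ (∀ ε : ℝ, 0 < ε → ∃ N : ℕ, ∀ (q : ℕ) (F : Type) [Field F] [Fintype F],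
      Odd q → N ≤ q → Fintype.card F = q ^ 2 →
      ∃ S : Finset (Projectivization F (Fin 3 → F)),
        (1 / 2 - ε) * (q : ℝ) ^ 4 ≤ (S.card : ℝ) ∧
        ∀ x ∈ S, ∀ y ∈ S, ∀ z ∈ S, x ≠ y → y ≠ z → x ≠ z →
          ¬ ((∑ i : Fin 3, x.rep i * (y.rep i) ^ q) = 0 ∧
             (∑ i : Fin 3, y.rep i * (z.rep i) ^ q) = 0 ∧
             (∑ i : Fin 3, x.rep i * (z.rep i) ^ q) = 0)) := by
  intro h
  obtain ⟨N, hN⟩ := h (1 / 1000) (by norm_num)
  haveI : Fact (Nat.Prime 5) := ⟨by norm_num⟩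
  classical
  let k : ℕ := 2 * (N + 10) + 1
  let q : ℕ := 5 ^ k
  let F := GaloisField 5 (2 * k)
  haveI : Finite F := by infer_instance
  letI : Fintype F := Fintype.ofFinite F
  have hcard : Fintype.card F = q ^ 2 := by
    rw [← Nat.card_eq_fintype_card, GaloisField.card 5 (2 * k) (by omega)]
    show 5 ^ (2 * k) = (5 ^ k) ^ 2
    rw [← pow_mul, mul_comm]
  have hodd : Odd q := Odd.pow (by decide)
  have hNq : N ≤ q := by
    have h1 : k < 5 ^ k := Nat.lt_pow_self (by norm_num)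
    have h2 : N ≤ k := by simp only [k]; omega
    show N ≤ 5 ^ k
    omega
  have hq30 : 30000 ≤ q := by
    have h1 : 5 ^ 21 ≤ 5 ^ k := Nat.pow_le_pow_right (by norm_num) (by simp only [k]; omega)
    show 30000 ≤ 5 ^ k
    exact le_trans (by norm_num) h1
  obtain ⟨S, hS, htri⟩ := hN q F hodd hNq hcard
  let σ : F →+* F := iterateFrobenius F 5 k
  have hσq : ∀ x, σ x = x ^ q := fun x => iterateFrobenius_def 5 k x
  have hσσ : ∀ x, σ (σ x) = x := by
    intro x
    rw [hσq, hσq, ← pow_mul, ← sq, ← hcard]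
    exact FiniteField.pow_card x
  -- q = 5 mod 8
  have hq8 : q % 8 = 5 := by
    show 5 ^ (2 * (N + 10) + 1) % 8 = 5
    rw [pow_succ, pow_mul, Nat.mul_mod, Nat.pow_mod]
    norm_num
  have h5 : (5 : F) = 0 := by
    have := CharP.cast_eq_zero F 5
    exact_mod_cast this
  have h16 : (2 : F) ^ 4 = 1 := by
    have : (2 : F) ^ 4 = 1 + 3 * 5 := by norm_num
    rw [this, h5, mul_zero, add_zero]
  have h20 : (2 : F) ≠ 0 := by
    intro h2
    rw [h2] at h16
    norm_num at h16
  have hring : ringChar F ≠ 2 := by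
    rw [ringChar.eq F 5]
    norm_num
  have hsq : IsSquare (2 : F) := by
    rw [FiniteField.isSquare_iff hring h20, hcard]
    obtain ⟨j, hj⟩ : ∃ j, q = 8 * j + 5 := ⟨q / 8, by omega⟩
    have e : q ^ 2 / 2 = 4 * (8 * j ^ 2 + 10 * j + 3) := by
      have : q ^ 2 = 2 * (4 * (8 * j ^ 2 + 10 * j + 3)) + 1 := by rw [hj]; ring
      omega
    rw [e, pow_mul, h16, one_pow]
  obtain ⟨θ, hθ⟩ := hsq
  have hσθ : σ θ = -θ := by
    rw [hσq]
    obtain ⟨j, hj⟩ : ∃ j, q = 8 * j + 5 := ⟨q / 8, by omega⟩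
    have e : q = 2 * (4 * j + 2) + 1 := by omega
    rw [e, pow_succ, pow_mul, sq, ← hθ, pow_add, pow_mul, h16, one_pow, one_mul]
    have : (2 : F) ^ 2 = -1 + 5 := by norm_num
    rw [this, h5, add_zero]
    ring
  exact Pool.Agent.H77R3.UP.main σ q hσσ hσq hcard hq30 θ hθ.symm hσθ S hS htri

end Pool.Agent.S10062
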