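import Pool.Statements.S10106
-- import your own Pool.Agent.* helpers here

set_option autoImplicit false
open Pool Pool.MP_8f9b2f_co

namespace Pool.Agent.S10106

/-- index type of the cube -/
abbrev Ix (m : ℕ) : Type := Bool ⊕ (Fin m ⊕ Fin m)

abbrev Cu (m : ℕ) : Type := Ix m → Bool

def w1 {m : ℕ} (x : Cu m) : ℕ := (Finset.univ.filter (fun i : Fin m => x (Sum.inr (Sum.inl i)) = true)).card
def w2 {m : ℕ} (x : Cu m) : ℕ := (Finset.univ.filter (fun i : Fin m => x (Sum.inr (Sum.inr i)) = true)).card
def x0 {m : ℕ} (x : Cu m) : Bool := x (Sum.inl false)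
def x1 {m : ℕ} (x : Cu m) : Bool := x (Sum.inl true)

/-- general modification: flip x0 if a, flip x1 if b, flip block 1 if c, block 2 if d -/
def fl {m : ℕ} (a b c d : Bool) (x : Cu m) : Cu m := fun i =>
  match i with
  | Sum.inl false => xor a (x (Sum.inl false))
  | Sum.inl true => xor b (x (Sum.inl true))
  | Sum.inr (Sum.inl j) => xor c (x (Sum.inr (Sum.inl j)))
  | Sum.inr (Sum.inr j) => xor d (x (Sum.inr (Sum.inr j)))

lemma fl_x0 {m : ℕ} (a b c d : Bool) (x : Cu m) : x0 (fl a b c d x) = xor a (x0 x) := rfl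
lemma fl_x1 {m : ℕ} (a b c d : Bool) (x : Cu m) : x1 (fl a b c d x) = xor b (x1 x) := rfl

lemma fl_fl {m : ℕ} (a b c d : Bool) (x : Cu m) : fl a b c d (fl a b c d x) = x := by
  funext i
  rcases i with (_ | _) | (_ | _) <;> simp [fl]

lemma card_flip {m : ℕ} (y : Fin m → Bool) :
    (Finset.univ.filter (fun i : Fin m => (!y i) = true)).card =
      m - (Finset.univ.filter (fun i : Fin m => y i = true)).card := by
  have h := Finset.card_filter_add_card_filter_not (s := (Finset.univ : Finset (Fin m))) (fun i => y i = true)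
  simp only [Finset.card_univ, Fintype.card_fin] at h
  have h2 : (Finset.univ.filter (fun i : Fin m => (!y i) = true)) = (Finset.univ.filter (fun i : Fin m => ¬ y i = true)) := by
    ext i; simp
  rw [h2]; omega

lemma card_le' {m : ℕ} (y : Fin m → Bool) :
    (Finset.univ.filter (fun i : Fin m => y i = true)).card ≤ m := by
  simpa using Finset.card_filter_le (Finset.univ : Finset (Fin m)) (fun i => y i = true)

lemma w1_le {m : ℕ} (x : Cu m) : w1 x ≤ m := card_le' _
lemma w2_le {m : ℕ} (x : Cu m) : w2 x ≤ m := card_le' _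

lemma fl_w1_t {m : ℕ} (a b d : Bool) (x : Cu m) : w1 (fl a b true d x) = m - w1 x := by
  simpa [w1, fl] using card_flip (fun i => x (Sum.inr (Sum.inl i)))
lemma fl_w1_f {m : ℕ} (a b d : Bool) (x : Cu m) : w1 (fl a b false d x) = w1 x := by
  simp [w1, fl]
lemma fl_w2_t {m : ℕ} (a b c : Bool) (x : Cu m) : w2 (fl a b c true x) = m - w2 x := by
  simpa [w2, fl] using card_flip (fun i => x (Sum.inr (Sum.inr i)))
lemma fl_w2_f {m : ℕ} (a b c : Bool) (x : Cu m) : w2 (fl a b c false x) = w2 x := by
  simp [w2, fl]

def F {m : ℕ} (x : Cu m) : Bool :=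
  if 2 * w1 x < m ∧ 2 * w2 x < m then false
  else if (m < 2 * w1 x ∧ 2 * w2 x < m) ∨ (2 * w1 x < m ∧ m < 2 * w2 x) then (x0 x || x1 x)
  else x0 x

def Phi {m : ℕ} (x : Cu m) : Cu m :=
  if 2 * w1 x < m ∧ 2 * w2 x < m then
    (if x1 x = true then fl false false true false x else fl false true false true x)
  else if (m < 2 * w1 x ∧ 2 * w2 x < m) then
    (if x1 x = true then fl false false true false x else fl true false false false x)
  else if (2 * w1 x < m ∧ m < 2 * w2 x) then
    (if x1 x = true then fl false true false true x else fl true false false false x)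
  else fl true false false false x

lemma Phi_Phi {m : ℕ} (x : Cu m) : Phi (Phi x) = x := by
  have a1 := w1_le x
  have a2 := w2_le x
  by_cases hA : 2 * w1 x < m
  · by_cases hB : 2 * w2 x < m
    · by_cases h : x1 x = true
      · have e : Phi x = fl false false true false x := by simp [Phi, hA, hB, h]
        rw [e]
        have h1 : w1 (fl false false true false x) = m - w1 x := fl_w1_t _ _ _ _
        have h2 : w2 (fl false false true false x) = w2 x := fl_w2_f _ _ _ _
        have h3 : x1 (fl false false true false x) = x1 x := by simp [fl_x1]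
        have c1 : ¬ (2 * (m - w1 x) < m ∧ 2 * w2 x < m) := by omega
        have c2 : (m < 2 * (m - w1 x) ∧ 2 * w2 x < m) := by omega
        rw [Phi, h1, h2, h3, if_neg c1, if_pos c2, if_pos h, fl_fl]
      · have e : Phi x = fl false true false true x := by simp [Phi, hA, hB, h]
        rw [e]
        have h1 : w1 (fl false true false true x) = w1 x := fl_w1_f _ _ _ _
        have h2 : w2 (fl false true false true x) = m - w2 x := fl_w2_t _ _ _ _
        have h3 : x1 (fl false true false true x) = true := by simp [fl_x1]; simpa using h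
        have c1 : ¬ (2 * (w1 x) < m ∧ 2 * (m - w2 x) < m) := by omega
        have c2 : ¬ (m < 2 * (w1 x) ∧ 2 * (m - w2 x) < m) := by omega
        have c3 : (2 * w1 x < m ∧ m < 2 * (m - w2 x)) := by omega
        rw [Phi, h1, h2, h3, if_neg c1, if_neg c2, if_pos c3, if_pos rfl, fl_fl]
    · by_cases hC : m < 2 * w2 x
      · by_cases h : x1 x = true
        · have e : Phi x = fl false true false true x := by
            have c1 : ¬ (2 * (w1 x) < m ∧ 2 * (w2 x) < m) := by omega
            have c2 : ¬ (m < 2 * (w1 x) ∧ 2 * (w2 x) < m) := by omega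
            have c3 : (2 * w1 x < m ∧ m < 2 * (w2 x)) := by omega
            rw [Phi, if_neg c1, if_neg c2, if_pos c3, if_pos h]
          rw [e]
          have h1 : w1 (fl false true false true x) = w1 x := fl_w1_f _ _ _ _
          have h2 : w2 (fl false true false true x) = m - w2 x := fl_w2_t _ _ _ _
          have h3 : x1 (fl false true false true x) = false := by simp [fl_x1, h]
          have c1 : (2 * (w1 x) < m ∧ 2 * (m - w2 x) < m) := by omega
          rw [Phi, h1, h2, h3, if_pos c1, if_neg (by simp), fl_fl]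
        · have c1 : ¬ (2 * (w1 x) < m ∧ 2 * (w2 x) < m) := by omega
          have c2 : ¬ (m < 2 * (w1 x) ∧ 2 * (w2 x) < m) := by omega
          have c3 : (2 * w1 x < m ∧ m < 2 * (w2 x)) := by omega
          have e : Phi x = fl true false false false x := by
            rw [Phi, if_neg c1, if_neg c2, if_pos c3, if_neg h]
          rw [e]
          have h1 : w1 (fl true false false false x) = w1 x := fl_w1_f _ _ _ _
          have h2 : w2 (fl true false false false x) = w2 x := fl_w2_f _ _ _ _
          have h3 : x1 (fl true false false false x) = x1 x := by simp [fl_x1]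
          rw [Phi, h1, h2, h3, if_neg c1, if_neg c2, if_pos c3, if_neg h, fl_fl]
      · have c1 : ¬ (2 * (w1 x) < m ∧ 2 * (w2 x) < m) := by omega
        have c2 : ¬ (m < 2 * (w1 x) ∧ 2 * (w2 x) < m) := by omega
        have c3 : ¬ (2 * w1 x < m ∧ m < 2 * (w2 x)) := by omega
        have e : Phi x = fl true false false false x := by
          rw [Phi, if_neg c1, if_neg c2, if_neg c3]
        rw [e]
        have h1 : w1 (fl true false false false x) = w1 x := fl_w1_f _ _ _ _
        have h2 : w2 (fl true false false false x) = w2 x := fl_w2_f _ _ _ _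
        rw [Phi, h1, h2, if_neg c1, if_neg c2, if_neg c3, fl_fl]
  · by_cases hC : m < 2 * w1 x ∧ 2 * w2 x < m
    · by_cases h : x1 x = true
      · have e : Phi x = fl false false true false x := by
          have c1 : ¬ (2 * (w1 x) < m ∧ 2 * (w2 x) < m) := by omega
          rw [Phi, if_neg c1, if_pos hC, if_pos h]
        rw [e]
        have h1 : w1 (fl false false true false x) = m - w1 x := fl_w1_t _ _ _ _
        have h2 : w2 (fl false false true false x) = w2 x := fl_w2_f _ _ _ _
        have h3 : x1 (fl false false true false x) = x1 x := by simp [fl_x1]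
        have c1 : (2 * (m - w1 x) < m ∧ 2 * w2 x < m) := by omega
        rw [Phi, h1, h2, h3, if_pos c1, if_pos h, fl_fl]
      · have c1 : ¬ (2 * (w1 x) < m ∧ 2 * (w2 x) < m) := by omega
        have e : Phi x = fl true false false false x := by
          rw [Phi, if_neg c1, if_pos hC, if_neg h]
        rw [e]
        have h1 : w1 (fl true false false false x) = w1 x := fl_w1_f _ _ _ _
        have h2 : w2 (fl true false false false x) = w2 x := fl_w2_f _ _ _ _
        have h3 : x1 (fl true false false false x) = x1 x := by simp [fl_x1]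
        rw [Phi, h1, h2, h3, if_neg c1, if_pos hC, if_neg h, fl_fl]
    · have c1 : ¬ (2 * (w1 x) < m ∧ 2 * (w2 x) < m) := by omega
      have c3 : ¬ (2 * w1 x < m ∧ m < 2 * (w2 x)) := by omega
      have e : Phi x = fl true false false false x := by
        rw [Phi, if_neg c1, if_neg hC, if_neg c3]
      rw [e]
      have h1 : w1 (fl true false false false x) = w1 x := fl_w1_f _ _ _ _
      have h2 : w2 (fl true false false false x) = w2 x := fl_w2_f _ _ _ _
      rw [Phi, h1, h2, if_neg c1, if_neg hC, if_neg c3, fl_fl]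

lemma F_Phi {m : ℕ} (x : Cu m) : F (Phi x) = !F x := by
  have a1 := w1_le x
  have a2 := w2_le x
  by_cases hAB : 2 * w1 x < m ∧ 2 * w2 x < m
  · have eF : F x = false := by rw [F, if_pos hAB]
    rw [eF]
    by_cases h : x1 x = true
    · have e : Phi x = fl false false true false x := by simp [Phi, hAB, h]
      rw [e, F, fl_w1_t, fl_w2_f, fl_x0, fl_x1, if_neg (by omega), if_pos (by omega), h]
      simp
    · have e : Phi x = fl false true false true x := by simp [Phi, hAB, h]
      rw [e, F, fl_w1_f, fl_w2_t, fl_x0, fl_x1, if_neg (by omega), if_pos (by omega)]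
      simp only [Bool.not_eq_true] at h
      simp [h]
  · by_cases hC : m < 2 * w1 x ∧ 2 * w2 x < m
    · by_cases h : x1 x = true
      · have e : Phi x = fl false false true false x := by
          rw [Phi, if_neg hAB, if_pos hC, if_pos h]
        have eF : F x = true := by rw [F, if_neg hAB, if_pos (Or.inl hC), h]; simp
        rw [e, eF, F, fl_w1_t, fl_w2_f, if_pos (by omega)]; rfl
      · have e : Phi x = fl true false false false x := by
          rw [Phi, if_neg hAB, if_pos hC, if_neg h]
        simp only [Bool.not_eq_true] at h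
        have eF : F x = x0 x := by rw [F, if_neg hAB, if_pos (Or.inl hC), h]; simp
        rw [e, eF, F, fl_w1_f, fl_w2_f, if_neg hAB, if_pos (Or.inl hC), fl_x0, fl_x1, h]; simp
    · by_cases hD : 2 * w1 x < m ∧ m < 2 * w2 x
      · by_cases h : x1 x = true
        · have e : Phi x = fl false true false true x := by
            rw [Phi, if_neg hAB, if_neg hC, if_pos hD, if_pos h]
          have eF : F x = true := by rw [F, if_neg hAB, if_pos (Or.inr hD), h]; simp
          rw [e, eF, F, fl_w1_f, fl_w2_t, if_pos (by omega)]; rfl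
        · have e : Phi x = fl true false false false x := by
            rw [Phi, if_neg hAB, if_neg hC, if_pos hD, if_neg h]
          simp only [Bool.not_eq_true] at h
          have eF : F x = x0 x := by rw [F, if_neg hAB, if_pos (Or.inr hD), h]; simp
          rw [e, eF, F, fl_w1_f, fl_w2_f, if_neg hAB, if_pos (Or.inr hD), fl_x0, fl_x1, h]; simp
      · have e : Phi x = fl true false false false x := by
          rw [Phi, if_neg hAB, if_neg hC, if_neg hD]
        have hn : ¬ ((m < 2 * w1 x ∧ 2 * w2 x < m) ∨ (2 * w1 x < m ∧ m < 2 * w2 x)) := by tauto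
        have eF : F x = x0 x := by rw [F, if_neg hAB, if_neg hn]
        rw [e, eF, F, fl_w1_f, fl_w2_f, if_neg hAB, if_neg hn, fl_x0]; simp

lemma card_F {m : ℕ} (c : Bool) : 2 * (Finset.univ.filter (fun x : Cu m => F x = c)).card = 2 ^ (2 * m + 2) := by
  have h1 : (Finset.univ.filter (fun x : Cu m => F x = c)).card
      = (Finset.univ.filter (fun x : Cu m => ¬ F x = c)).card := by
    apply Finset.card_nbij' Phi Phi
    · intro x hx; simp only [Finset.coe_filter, Finset.mem_univ, true_and, Set.mem_ofPred_eq] at hx ⊢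
      rw [F_Phi, hx]; cases c <;> simp
    · intro x hx; simp only [Finset.coe_filter, Finset.mem_univ, true_and, Set.mem_ofPred_eq] at hx ⊢
      rw [F_Phi]; revert hx; cases c <;> cases F x <;> simp
    · intro x _; exact Phi_Phi x
    · intro x _; exact Phi_Phi x
  have h2 := Finset.card_filter_add_card_filter_not (s := (Finset.univ : Finset (Cu m))) (fun x => F x = c)
  have h3 : (Finset.univ : Finset (Cu m)).card = 2 ^ (2 * m + 2) := by
    simp [Cu, Ix]; ring
  omega

/-- the shallow point -/
def sh {m : ℕ} (x : Cu m) : Cu m := fl (x0 x) (x1 x) false false x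

lemma F_sh {m : ℕ} (x : Cu m) : F (sh x) = false := by
  have h0 : x0 (sh x) = false := by simp [sh, fl_x0]
  have h1 : x1 (sh x) = false := by simp [sh, fl_x1]
  rw [F, h0, h1]; simp

lemma dist_sh {m : ℕ} (x : Cu m) : hammingDist x (sh x) ≤ 2 := by
  have : (Finset.univ.filter (fun i : Ix m => x i ≠ sh x i)) ⊆ {Sum.inl false, Sum.inl true} := by
    intro i hi
    simp only [Finset.mem_filter, Finset.mem_univ, true_and] at hi
    rcases i with (_ | _) | (_ | _)
    · simp
    · simp
    · exact absurd (by simp [sh, fl]) hi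
    · exact absurd (by simp [sh, fl]) hi
  calc hammingDist x (sh x) = (Finset.univ.filter (fun i : Ix m => x i ≠ sh x i)).card := rfl
    _ ≤ ({Sum.inl false, Sum.inl true} : Finset (Ix m)).card := Finset.card_le_card this
    _ ≤ 2 := Finset.card_le_two

def z {m : ℕ} : Cu m := fun _ => false

lemma w_le_dist1 {m : ℕ} (x : Cu m) : w1 x ≤ hammingDist z x := by
  have : (Finset.univ.filter (fun i : Fin m => x (Sum.inr (Sum.inl i)) = true)).map
      ⟨fun i => (Sum.inr (Sum.inl i) : Ix m), fun a b h => by simpa using h⟩ ⊆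
      (Finset.univ.filter (fun i : Ix m => (z i : Bool) ≠ x i)) := by
    intro i hi
    simp only [Finset.mem_map, Finset.mem_filter, Finset.mem_univ, true_and,
      Function.Embedding.coeFn_mk] at hi
    obtain ⟨j, hj, rfl⟩ := hi
    refine Finset.mem_filter.mpr ⟨Finset.mem_univ _, ?_⟩
    intro h
    exact absurd (hj.symm.trans h.symm) (by simp [z])
  have := Finset.card_le_card this
  rw [Finset.card_map] at this
  exact this

lemma w_le_dist2 {m : ℕ} (x : Cu m) : w2 x ≤ hammingDist z x := by
  have : (Finset.univ.filter (fun i : Fin m => x (Sum.inr (Sum.inr i)) = true)).map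
      ⟨fun i => (Sum.inr (Sum.inr i) : Ix m), fun a b h => by simpa using h⟩ ⊆
      (Finset.univ.filter (fun i : Ix m => (z i : Bool) ≠ x i)) := by
    intro i hi
    simp only [Finset.mem_map, Finset.mem_filter, Finset.mem_univ, true_and,
      Function.Embedding.coeFn_mk] at hi
    obtain ⟨j, hj, rfl⟩ := hi
    refine Finset.mem_filter.mpr ⟨Finset.mem_univ _, ?_⟩
    intro h
    exact absurd (hj.symm.trans h.symm) (by simp [z])
  have := Finset.card_le_card this
  rw [Finset.card_map] at this
  exact this

lemma deep {m : ℕ} (x : Cu m) (h : F x = true) : m ≤ 2 * hammingDist z x := by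
  by_contra hc
  have h1 := w_le_dist1 x
  have h2 := w_le_dist2 x
  have : F x = false := by rw [F, if_pos (by omega)]
  rw [this] at h; exact absurd h (by simp)

lemma F_z {m : ℕ} : F (z : Cu m) = false := by
  have : sh (z : Cu m) = z := by
    funext i; rcases i with (_ | _) | (_ | _) <;> simp [sh, fl, z, x0, x1]
  rw [← this]; exact F_sh _

/-- key estimate on the cube over `Ix m` -/
lemma key {m : ℕ} (φ : Cu m ≃ Cu m) (hφ : ∀ x, (!F (φ x)) = F x) (C₁ C₂ : ℝ)
    (h1 : ∀ x y, (hammingDist (φ x) (φ y) : ℝ) ≤ C₁ * (hammingDist x y : ℝ))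
    (h2 : ∀ x y, (hammingDist (φ.symm x) (φ.symm y) : ℝ) ≤ C₂ * (hammingDist x y : ℝ))
    (hC1 : 0 ≤ C₁) (hC2 : 0 ≤ C₂) : (m : ℝ) ^ 2 ≤ 16 * (C₁ * C₂) := by
  have A : (m : ℝ) ≤ 4 * C₁ := by
    -- x = φ⁻¹ z has F = true
    set x := φ.symm z with hx
    have e1 : φ x = z := by simp [hx]
    have e2 : F x = true := by rw [← hφ x, e1, F_z]; rfl
    have e3 : F (φ (sh x)) = true := by
      have := hφ (sh x); rw [F_sh] at this; simpa using this
    have e4 := deep _ e3
    have e5 := h1 x (sh x)
    rw [e1] at e5
    have e6 : (hammingDist x (sh x) : ℝ) ≤ 2 := by exact_mod_cast dist_sh x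
    have e7 : (m : ℝ) ≤ 2 * (hammingDist (z : Cu m) (φ (sh x)) : ℝ) := by exact_mod_cast e4
    nlinarith [mul_le_mul_of_nonneg_left e6 hC1]
  have B : (m : ℝ) ≤ 4 * C₂ := by
    set w := φ z with hw
    have e2 : F w = true := by
      have := hφ z; rw [F_z] at this; simpa using this
    have e1 : φ.symm w = z := by simp [hw]
    have e3 : F (φ.symm (sh w)) = true := by
      rw [← hφ (φ.symm (sh w)), Equiv.apply_symm_apply, F_sh]; rfl
    have e4 := deep _ e3
    have e5 := h2 w (sh w)
    rw [e1] at e5
    have e6 : (hammingDist w (sh w) : ℝ) ≤ 2 := by exact_mod_cast dist_sh w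
    have e7 : (m : ℝ) ≤ 2 * (hammingDist (z : Cu m) (φ.symm (sh w)) : ℝ) := by exact_mod_cast e4
    nlinarith [mul_le_mul_of_nonneg_left e6 hC2]
  have hm : (0:ℝ) ≤ m := Nat.cast_nonneg m
  nlinarith [mul_le_mul A B hm (by linarith)]

/-- reindexing equivalence -/
lemma hd_comp {ι κ : Type} [Fintype ι] [Fintype κ] (e : ι ≃ κ) (x y : κ → Bool) :
    hammingDist (fun i => x (e i)) (fun i => y (e i)) = hammingDist x y := by
  unfold hammingDist
  apply Finset.card_bij (fun a _ => e a)
  · intro a ha; simpa using ha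
  · intro a _ b _ h; exact e.injective h
  · intro b hb; exact ⟨e.symm b, by simpa using hb, by simp⟩

/-- The negation of the preceding statement: There exist α<2 and K such that for every n≥1 and all balanced f,g on {0,1}^n, some bijection φ with g∘φ=f has Hamming-Lipschitz constants of φ and φ⁻¹ whose product is at most K·n^α. -/
theorem result :
    ¬ (∃ α : ℝ, α < 2 ∧ ∃ K : ℝ, ∀ n : ℕ, 1 ≤ n → ∀ f g : (Fin n → Bool) → Bool,
      2 * (Finset.univ.filter (fun x => f x = true)).card = 2 ^ n →
      2 * (Finset.univ.filter (fun x => g x = true)).card = 2 ^ n →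
      ∃ φ : (Fin n → Bool) ≃ (Fin n → Bool), (∀ x, g (φ x) = f x) ∧
        ∃ C₁ C₂ : ℝ, 0 ≤ C₁ ∧ 0 ≤ C₂ ∧
          (∀ x y, (hammingDist (φ x) (φ y) : ℝ) ≤ C₁ * (hammingDist x y : ℝ)) ∧
          (∀ x y, (hammingDist (φ.symm x) (φ.symm y) : ℝ) ≤ C₂ * (hammingDist x y : ℝ)) ∧
          C₁ * C₂ ≤ K * (n : ℝ) ^ α) := by
  rintro ⟨α, hα, K, H⟩
  have main : ∀ m : ℕ, 1 ≤ m → (m : ℝ) ^ 2 ≤ 16 * (K * ((2 * m + 2 : ℕ) : ℝ) ^ α) := by
    intro m hm
    have hc : Fintype.card (Ix m) = 2 * m + 2 := by simp [Ix]; ring
    let e : Ix m ≃ Fin (2 * m + 2) := Fintype.equivFinOfCardEq hc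
    -- equivalence of cubes
    let E : Cu m ≃ (Fin (2 * m + 2) → Bool) := Equiv.arrowCongr e (Equiv.refl Bool)
    have hE : ∀ x : Cu m, ∀ i, E x i = x (e.symm i) := fun x i => rfl
    have hEs : ∀ x, ∀ i, E.symm x i = x (e i) := fun x i => rfl
    have hdE : ∀ x y : Cu m, hammingDist (E x) (E y) = hammingDist x y := by
      intro x y; exact hd_comp e.symm x y
    have hdEs : ∀ x y, hammingDist (E.symm x) (E.symm y) = hammingDist x y := by
      intro x y; exact hd_comp e x y
    have hcard : ∀ c : Bool, 2 * (Finset.univ.filter (fun x : Fin (2 * m + 2) → Bool => F (E.symm x) = c)).card = 2 ^ (2 * m + 2) := by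
      intro c
      rw [← card_F c]
      congr 1
      apply Finset.card_bij (fun a _ => E.symm a)
      · intro a ha; simpa using ha
      · intro a _ b _ h; exact E.symm.injective h
      · intro b hb; exact ⟨E b, by simpa using hb, by simp⟩
    obtain ⟨φ, hφ, C₁, C₂, hC1, hC2, h1, h2, h3⟩ := H (2 * m + 2) (by omega)
      (fun x => F (E.symm x)) (fun x => !F (E.symm x)) (hcard true) (by
        have := hcard false
        simpa using this)
    have hk := key (m := m) ((E.trans φ).trans E.symm) (by
      intro x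
      have := hφ (E x)
      simpa using this) C₁ C₂ (by
      intro x y
      simp only [Equiv.trans_apply]
      rw [hdEs, ← hdE x y]; exact h1 _ _) (by
      intro x y
      have : ∀ a, ((E.trans φ).trans E.symm).symm a = E.symm (φ.symm (E a)) := fun a => rfl
      rw [this, this, hdEs, ← hdE x y]; exact h2 _ _) hC1 hC2
    linarith
  -- asymptotics
  have hlo : (fun x : ℝ => x ^ α) =o[Filter.atTop] (fun x : ℝ => x ^ (2:ℝ)) := by
    rw [Asymptotics.isLittleO_iff_tendsto']
    · have h := tendsto_rpow_neg_atTop (y := 2 - α) (by linarith)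
      refine h.congr' ?_
      filter_upwards [Filter.eventually_gt_atTop 0] with x hx
      rw [← Real.rpow_sub hx]; congr 1; ring
    · filter_upwards [Filter.eventually_gt_atTop 0] with x hx h
      exact absurd h (Real.rpow_pos_of_pos hx _).ne'
  have hε : (0:ℝ) < 1 / (512 * (|K| + 1)) := by positivity
  have hev := (Asymptotics.isLittleO_iff.mp hlo) hε
  have hcast : Filter.Tendsto (fun m : ℕ => ((2 * m + 2 : ℕ) : ℝ)) Filter.atTop Filter.atTop := by
    apply tendsto_natCast_atTop_atTop.comp
    apply Filter.tendsto_atTop_mono (f := fun m : ℕ => m) (fun m => by omega) Filter.tendsto_id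
  obtain ⟨m, hm1, hm2⟩ := ((hcast.eventually hev).and (Filter.eventually_ge_atTop 1)).exists
  have hM := main m hm2
  set N : ℝ := ((2 * m + 2 : ℕ) : ℝ) with hN
  have hNpos : 0 < N := by rw [hN]; positivity
  have hm2' : (1:ℝ) ≤ m := by exact_mod_cast hm2
  have hN4 : N ≤ 4 * m := by rw [hN]; push_cast; linarith
  have hnn : 0 ≤ N ^ α := (Real.rpow_nonneg hNpos.le α)
  rw [Real.norm_of_nonneg hnn, Real.norm_of_nonneg (Real.rpow_nonneg hNpos.le _)] at hm1
  have h2 : N ^ (2:ℝ) = N ^ 2 := by norm_cast
  rw [h2] at hm1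
  have hK : K * N ^ α ≤ (|K| + 1) * (1 / (512 * (|K| + 1)) * N ^ 2) := by
    calc K * N ^ α ≤ (|K| + 1) * N ^ α := by
          apply mul_le_mul_of_nonneg_right _ hnn
          linarith [le_abs_self K]
      _ ≤ _ := by
          apply mul_le_mul_of_nonneg_left hm1
          positivity
  have hK2 : (|K| + 1) * (1 / (512 * (|K| + 1)) * N ^ 2) = N ^ 2 / 512 := by
    have : (|K| + 1) ≠ 0 := by positivity
    field_simp
  rw [hK2] at hK
  have hN2 : N ^ 2 ≤ 16 * (m : ℝ) ^ 2 := by nlinarith
  nlinarith

end Pool.Agent.S10106
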