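import Pool.Statements.S10112
import Pool.Agent.H852.Patch

set_option autoImplicit false
open Pool Pool.MP_90314f_co

namespace Pool.Agent.S10112

open Pool.Agent.H852.Patch

/-- three-dimensional Euclidean space -/
abbrev E3 := EuclideanSpace ℝ (Fin 3)

/-- the embedding of the lattice -/
noncomputable def emb (z : Fin 3 → ℤ) : E3 := WithLp.toLp 2 (fun i => (z i : ℝ))

@[simp] lemma emb_apply (z : Fin 3 → ℤ) (i : Fin 3) : emb z i = z i := rfl

lemma emb_add (z w : Fin 3 → ℤ) : emb (z + w) = emb z + emb w := by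
  ext i; simp

lemma emb_sub (z w : Fin 3 → ℤ) : emb (z - w) = emb z - emb w := by
  ext i; simp

lemma emb_inj {z w : Fin 3 → ℤ} (h : emb z = emb w) : z = w := by
  funext i
  have : emb z i = emb w i := by rw [h]
  simpa using this

/-- the Delone set -/
def XX : Set E3 := {x | ∃ z : Fin 3 → ℤ, x = emb z ∧ ¬ Def z}

lemma emb_mem {z : Fin 3 → ℤ} : emb z ∈ XX ↔ ¬ Def z := by
  constructor
  · rintro ⟨w, hw, hd⟩
    rwa [emb_inj hw]
  · intro h
    exact ⟨z, rfl, h⟩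

lemma apply_le_norm (x : E3) (i : Fin 3) : |x i| ≤ ‖x‖ := by
  have := PiLp.norm_apply_le x i
  simpa using this

lemma sep : ∀ x ∈ XX, ∀ y ∈ XX, x ≠ y → 2 * (1 / 2 : ℝ) ≤ dist x y := by
  rintro _ ⟨z, rfl, -⟩ _ ⟨w, rfl, -⟩ hne
  have hzw : z ≠ w := fun h => hne (by rw [h])
  obtain ⟨i, hi⟩ := Function.ne_iff.1 hzw
  have h1 : (1 : ℝ) ≤ |(z i : ℝ) - w i| := by
    have : (1 : ℤ) ≤ |z i - w i| := Int.one_le_abs (sub_ne_zero.2 hi)
    exact_mod_cast this
  have h2 := apply_le_norm (emb z - emb w) i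
  rw [dist_eq_norm]
  have h3 : (emb z - emb w) i = (z i : ℝ) - w i := by simp
  rw [h3] at h2
  linarith

lemma dens : ∀ z : E3, ∃ x ∈ XX, dist z x ≤ 3 := by
  intro x
  let w : Fin 3 → ℤ := fun i => round (x i)
  have hw : ∀ i, |x i - w i| ≤ 1 / 2 := fun i => abs_sub_round (x i)
  have gen : ∀ w' : Fin 3 → ℤ, (∀ i, |x i - w' i| ≤ 3 / 2) → dist x (emb w') ≤ 3 := by
    intro w' hw'
    rw [EuclideanSpace.dist_eq, Fin.sum_univ_three]
    rw [show (3 : ℝ) = Real.sqrt 9 by rw [show (9 : ℝ) = 3 ^ 2 by norm_num]; simp]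
    apply Real.sqrt_le_sqrt
    have h : ∀ i, dist (x i) ((emb w') i) ^ 2 ≤ 9 / 4 := by
      intro i
      rw [Real.dist_eq, emb_apply]
      have h1 := hw' i
      have h2 : (0 : ℝ) ≤ |x i - w' i| := abs_nonneg _
      nlinarith
    have h0 := h 0
    have h1 := h 1
    have h2 := h 2
    linarith
  by_cases hd : Def w
  · refine ⟨emb (w + ![0, 0, 1]), emb_mem.2 (not_def_succ hd), gen _ ?_⟩
    intro i
    have := hw i
    rw [abs_le] at this ⊢
    fin_cases i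
    · simp at this ⊢; constructor <;> linarith [this.1, this.2]
    · simp at this ⊢; constructor <;> linarith [this.1, this.2]
    · simp at this ⊢; constructor <;> linarith [this.1, this.2]
  · refine ⟨emb w, emb_mem.2 hd, gen _ ?_⟩
    intro i
    have := hw i
    linarith

/-- the patch at a lattice point -/
noncomputable def pat (t : ℝ) (z : Fin 3 → ℤ) : Set E3 :=
  (fun y => y - emb z) '' (XX ∩ Metric.closedBall (emb z) t)

lemma pat_sub {t : ℝ} {z w : Fin 3 → ℤ} (h : Same ⌊t⌋₊ z w) (ht : 0 ≤ t) : pat t z ⊆ pat t w := by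
  rintro _ ⟨_, ⟨⟨y, rfl, hy⟩, hball⟩, rfl⟩
  rw [Metric.mem_closedBall, dist_eq_norm] at hball
  have hu : ∀ i, |(y - z) i| ≤ (⌊t⌋₊ : ℤ) := by
    intro i
    have h1 := apply_le_norm (emb y - emb z) i
    have h2 : (emb y - emb z) i = (((y - z) i : ℤ) : ℝ) := by simp
    rw [h2] at h1
    have h3 : ((|(y - z) i| : ℤ) : ℝ) ≤ t := by
      push_cast at h1 ⊢
      linarith
    have h4 : (|(y - z) i| : ℤ) ≤ ⌊t⌋ := Int.le_floor.2 h3
    rw [← Int.natCast_floor_eq_floor ht] at h4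
    exact h4
  have hd := h (y - z) hu
  have e1 : z + (y - z) = y := by abel
  rw [e1] at hd
  refine ⟨emb (w + (y - z)), ⟨emb_mem.2 (fun hc => hy (hd.2 hc)), ?_⟩, ?_⟩
  · rw [Metric.mem_closedBall, dist_eq_norm, emb_add, add_sub_cancel_left, emb_sub]
    exact hball
  · show emb (w + (y - z)) - emb w = emb y - emb z
    rw [emb_add, add_sub_cancel_left, emb_sub]

lemma pat_eq {t : ℝ} (ht : 0 ≤ t) {z w : Fin 3 → ℤ} (h : Same ⌊t⌋₊ z w) : pat t z = pat t w :=
  Set.Subset.antisymm (pat_sub h ht) (pat_sub (fun u hu => (h u hu).symm) ht)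

lemma patch_count {t : ℝ} (ht : 1 ≤ t) :
    {P : Set E3 | ∃ x ∈ XX, P = (fun y => y - x) '' (XX ∩ Metric.closedBall x t)}.Finite ∧
    (({P : Set E3 | ∃ x ∈ XX, P = (fun y => y - x) '' (XX ∩ Metric.closedBall x t)}.ncard : ℝ)
      ≤ 55 * t ^ 2) := by
  have hn : 1 ≤ ⌊t⌋₊ := Nat.le_floor (by exact_mod_cast ht)
  obtain ⟨h1, h2⟩ := count hn (pat t) (fun z w h => pat_eq (by linarith) h)
  have hsub : {P : Set E3 | ∃ x ∈ XX, P = (fun y => y - x) '' (XX ∩ Metric.closedBall x t)} ⊆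
      Set.range (pat t) := by
    rintro _ ⟨_, ⟨z, rfl, -⟩, rfl⟩
    exact ⟨z, rfl⟩
  refine ⟨h1.subset hsub, ?_⟩
  have h3 := (Set.ncard_le_ncard hsub h1).trans h2
  have h4 : ((⌊t⌋₊ : ℕ) : ℝ) ≤ t := Nat.floor_le (by linarith)
  calc (({P : Set E3 | ∃ x ∈ XX, P = (fun y => y - x) '' (XX ∩ Metric.closedBall x t)}.ncard : ℝ))
      ≤ ((55 * ⌊t⌋₊ ^ 2 : ℕ) : ℝ) := by exact_mod_cast h3
    _ = 55 * ((⌊t⌋₊ : ℕ) : ℝ) ^ 2 := by push_cast; ring
    _ ≤ 55 * t ^ 2 := by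
        have : (0 : ℝ) ≤ ((⌊t⌋₊ : ℕ) : ℝ) := Nat.cast_nonneg _
        nlinarith

lemma not_def_zero : ¬ Def ![0, 0, 0] := by
  rintro ⟨k, hk, -⟩
  have hk' : (0 : ℤ) = 8 ^ k := by simpa using hk
  have : (0 : ℤ) < 8 ^ k := by positivity
  omega

lemma no_per (v : E3) (h : ∀ x : E3, x + v ∈ XX ↔ x ∈ XX) : v = 0 := by
  have h0 : emb ![0, 0, 0] + v ∈ XX := (h _).2 (emb_mem.2 not_def_zero)
  obtain ⟨w, hw, -⟩ := h0
  have hv : v = emb w := by
    have e : emb ![0, 0, 0] = 0 := by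
      ext i; fin_cases i <;> simp
    rw [e, zero_add] at hw
    exact hw
  subst hv
  have h1 : ∀ z, Def (z + w) ↔ Def z := by
    intro z
    have := h (emb z)
    rw [← emb_add, emb_mem, emb_mem] at this
    exact not_iff_not.1 this
  rw [no_period h1]
  ext i; simp

/-- The negation of the preceding statement: For all d, 1≤j≤d and r,R>0 there is c>0 such that any (r,R)-Delone set in R^d whose number of distinct translated t-patches is eventually finite and below c·t^(d−j+1) has j linearly independent translation periods. -/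
theorem result :
    ¬ (∀ (d j : ℕ), 1 ≤ j → j ≤ d → ∀ r R : ℝ, 0 < r → 0 < R →
      ∃ c : ℝ, 0 < c ∧ ∀ X : Set (EuclideanSpace ℝ (Fin d)),
        (∀ x ∈ X, ∀ y ∈ X, x ≠ y → 2 * r ≤ dist x y) →
        (∀ z : EuclideanSpace ℝ (Fin d), ∃ x ∈ X, dist z x ≤ R) →
        (∃ t0 : ℝ, ∀ t : ℝ, t0 < t →
          {P : Set (EuclideanSpace ℝ (Fin d)) |
              ∃ x ∈ X, P = (fun y => y - x) '' (X ∩ Metric.closedBall x t)}.Finite ∧
          (({P : Set (EuclideanSpace ℝ (Fin d)) |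
              ∃ x ∈ X, P = (fun y => y - x) '' (X ∩ Metric.closedBall x t)}.ncard : ℝ)
            < c * t ^ (d - j + 1))) →
        ∃ v : Fin j → EuclideanSpace ℝ (Fin d),
          LinearIndependent ℝ v ∧ ∀ i : Fin j, ∀ x : EuclideanSpace ℝ (Fin d),
            x + v i ∈ X ↔ x ∈ X) := by
  intro H
  obtain ⟨c, hc, hX⟩ := H 3 1 le_rfl (by norm_num) (1 / 2) 3 (by norm_num) (by norm_num)
  obtain ⟨v, hv, hper⟩ := hX XX sep dens ⟨max 1 (55 / c), fun t ht => by
    have ht1 : 1 < t := lt_of_le_of_lt (le_max_left _ _) ht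
    have ht2 : 55 / c < t := lt_of_le_of_lt (le_max_right _ _) ht
    obtain ⟨f1, f2⟩ := patch_count ht1.le
    refine ⟨f1, lt_of_le_of_lt f2 ?_⟩
    rw [div_lt_iff₀ hc] at ht2
    have : (3 - 1 + 1 : ℕ) = 3 := rfl
    rw [this]
    have h2 : 0 < t ^ 2 := by positivity
    calc 55 * t ^ 2 < (t * c) * t ^ 2 := by nlinarith
      _ = c * t ^ 3 := by ring⟩
  exact hv.ne_zero 0 (no_per (v 0) (hper 0))

end Pool.Agent.S10112
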