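import Pool.Statements.S10122
import Pool.Agent.Helper998.VecMatroid

set_option autoImplicit false
open Pool Pool.MP_908e85_co

namespace Pool.Agent.S10122

open Pool.Agent.Helper998.VecMatroid

/-- the sixteen vectors: row `i`, position `j` -/
def vec (a : Fin 4 × Fin 4) : Fin 4 → ZMod 2 := fun c =>
  (if c = a.1 then 1 else 0) + (if a.2 = 3 ∧ a.1 ≠ 3 ∧ c ≠ 3 then 1 else 0)

/-- the four bases, as enumerated families -/
def bas (i : Fin 4) (c : Fin 4) : Fin 4 × Fin 4 :=
  if i = 0 then (if c = 0 then (0, 0) else if c = 1 then (1, 0) else if c = 2 then (2, 0)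
    else (3, 0))
  else if i = 1 then (if c = 0 then (0, 1) else if c = 1 then (1, 1) else if c = 2 then (0, 3)
    else (3, 1))
  else if i = 2 then (if c = 0 then (1, 2) else if c = 1 then (2, 1) else if c = 2 then (1, 3)
    else (3, 2))
  else (if c = 0 then (0, 2) else if c = 1 then (2, 2) else if c = 2 then (2, 3) else (3, 3))

/-- the rows -/
def row (i : Fin 4) : Finset (Fin 4 × Fin 4) := Finset.univ.image fun j : Fin 4 => (i, j)

/-- the bases -/
def base (i : Fin 4) : Finset (Fin 4 × Fin 4) := Finset.univ.image (bas i)

theorem bas_inj : ∀ i : Fin 4, Function.Injective (bas i) := by decide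

theorem bas_li (i : Fin 4) : LinearIndependent (ZMod 2) (fun c => vec (bas i c)) := by
  rw [Fintype.linearIndependent_iff]
  have h : ∀ i : Fin 4, ∀ g : Fin 4 → ZMod 2,
      (∀ c : Fin 4, g 0 * vec (bas i 0) c + g 1 * vec (bas i 1) c + g 2 * vec (bas i 2) c
        + g 3 * vec (bas i 3) c = 0) → ∀ j, g j = 0 := by decide
  intro g hg
  apply h i g
  intro c
  have := congrFun hg c
  simpa [Fin.sum_univ_four] using this

theorem isBase_of_li {B : Set (Fin 4 × Fin 4)} (w : Fin 4 → Fin 4 × Fin 4)
    (hw : B = Set.range w) (hli : LinearIndependent (ZMod 2) (fun c => vec (w c))) :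
    (vecMatroid (ZMod 2) vec).IsBase B := by
  rw [isBase_iff]
  subst hw
  constructor
  · exact (linearIndepOn_range_iff (fun a b hab => hli.injective (by simp [hab])) vec).2 hli
  · have h1 : Submodule.span (ZMod 2) (vec '' Set.range w) = ⊤ := by
      have h2 := hli.span_eq_top_of_card_eq_finrank' (by simp)
      rw [← Set.range_comp]
      exact h2
    rw [h1]
    apply le_antisymm _ le_top
    rw [← h1]
    exact Submodule.span_mono (Set.image_subset_range _ _)

theorem li_of_isBase {w : Fin 4 → Fin 4 × Fin 4} (hw : Function.Injective w)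
    (h : (vecMatroid (ZMod 2) vec).IsBase (Set.range w)) :
    LinearIndependent (ZMod 2) (fun c => vec (w c)) :=
  (linearIndepOn_range_iff hw vec).1 h.indep

/-- The negation of the preceding statement: For even k and a rank-k matroid, if k sets of size k have multiset union equal to that of k bases, then each set's elements can be spread over k columns so every column takes one element per set and forms a basis. -/
theorem result :
    ¬ (∀ (α : Type) (M : Matroid α) (k : ℕ), Even k →
      ∀ (F B : Fin k → Finset α),
        (∀ i, M.IsBase (↑(B i) : Set α)) →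
        (∀ i, (B i).card = k) →
        (∀ i, (F i).card = k) →
        (∑ i, (F i).val = ∑ i, (B i).val) →
        ∃ σ : Fin k → Fin k → α,
          (∀ i, Function.Injective (σ i) ∧ ∀ j, σ i j ∈ F i) ∧
          (∀ j, Function.Injective (fun i => σ i j) ∧
            M.IsBase (Set.range (fun i => σ i j)))) := by
  intro H
  obtain ⟨σ, h1, h2⟩ := H (Fin 4 × Fin 4) (vecMatroid (ZMod 2) vec) 4 (by decide) row base
    (fun i => isBase_of_li (bas i) (by simp [base]) (bas_li i))
    (by decide) (by decide) (by decide)
  -- the position in the row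
  have h3 : ∀ i j, (σ i j).1 = i := by
    intro i j
    have := (h1 i).2 j
    simp only [row, Finset.mem_image, Finset.mem_univ, true_and] at this
    obtain ⟨a, ha⟩ := this
    rw [← ha]
  -- the parity bit
  let b : Fin 4 → Fin 4 → ℕ := fun i j => if (σ i j).2 = 3 then 1 else 0
  -- in each row exactly one bit is one
  have h4 : ∀ i, ∑ j, b i j = 1 := by
    intro i
    have hinj : Function.Injective fun j => (σ i j).2 := by
      intro a c hac
      apply (h1 i).1
      exact Prod.ext (by rw [h3, h3]) hac
    have hbij : Function.Bijective fun j => (σ i j).2 := Finite.injective_iff_bijective.1 hinj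
    have := Fintype.sum_bijective (fun j => (σ i j).2) hbij (fun j => b i j)
      (fun c : Fin 4 => if c = 3 then 1 else 0) (fun j => rfl)
    rw [this]
    simp
  -- in each column the sum of the bits is even
  have h5 : ∀ j, Even (b 0 j + b 1 j + b 2 j) := by
    intro j
    have hli := li_of_isBase (h2 j).1 (h2 j).2
    rw [Fintype.linearIndependent_iff] at hli
    by_contra hodd
    have h6 := hli (fun i => if i = 3 then 0 else 1) ?_ 0
    · simp at h6
    · have e : ∀ i, σ i j = (i, (σ i j).2) := fun i => Prod.ext (h3 i j) rfl
      rw [Fin.sum_univ_four]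
      simp only [Fin.isValue, Fin.reduceEq, if_false, if_true, one_smul, zero_smul, add_zero]
      rw [e 0, e 1, e 2]
      have key : ∀ x y z : Fin 4, ¬ Even ((if x = 3 then 1 else 0) + (if y = 3 then 1 else 0)
          + (if z = 3 then 1 else 0)) → vec (0, x) + vec (1, y) + vec (2, z) = 0 := by
        decide
      exact key _ _ _ hodd
  have h7 : Even (∑ j, (b 0 j + b 1 j + b 2 j)) := Finset.even_sum _ fun j _ => h5 j
  rw [Finset.sum_add_distrib, Finset.sum_add_distrib, h4, h4, h4] at h7
  revert h7
  decide

end Pool.Agent.S10122
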