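import Pool.Statements.S10123
import Pool.Agent.H388R3.CornersPhi

/-!
Fourier-uniform sets with fewer than the expected number of corners: take a Fourier-uniform
function `φ : ℤ/N → {1,-1}` of mean close to `1/5` and `A = {(x,y) : φ(x) φ(y) φ(x+y) = -1}`.
-/

set_option autoImplicit false
open Pool Pool.MP_9095c8_co

namespace Pool.Agent.S10123

open Finset Pool.Agent.H388R3.Corners

theorem ind3 (P Q R : Prop) [Decidable P] [Decidable Q] [Decidable R] :
    (if P ∧ Q ∧ R then (1 : ℝ) else 0) =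
      (if P then (1 : ℝ) else 0) * (if Q then (1 : ℝ) else 0) * (if R then (1 : ℝ) else 0) := by
  by_cases hP : P <;> by_cases hQ : Q <;> by_cases hR : R <;> simp [hP, hQ, hR]

theorem main (t : ℝ) (ht : 0 < t) (ht1 : t ≤ 1 / 100000) (M : ℕ) : ∃ N : ℕ, M ≤ N ∧
    ∃ _ : NeZero N, ∃ A : Finset (ZMod N × ZMod N),
      |(A.card : ℝ) / (N : ℝ) ^ 2 - 62 / 125| ≤ t ∧
      (∀ r : ZMod N × ZMod N, r ≠ 0 →
        ‖∑ x ∈ A, (ZMod.stdAddChar (r.1 * x.1 + r.2 * x.2) : ℂ)‖ ≤ t * (N : ℝ) ^ 2) ∧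
      (((Finset.univ : Finset (ZMod N × ZMod N × ZMod N)).filter
          (fun t : ZMod N × ZMod N × ZMod N =>
            (t.1, t.2.1) ∈ A ∧ (t.1 + t.2.2, t.2.1) ∈ A ∧ (t.1, t.2.1 + t.2.2) ∈ A)).card : ℝ)
        ≤ ((62 / 125) ^ 3 - 1 / 2500) * (N : ℝ) ^ 3 := by
  classical
  obtain ⟨N, hMN, hodd, hNe, φ, hφ, hη, hμ⟩ := exists_phi (t / 2) (by positivity) M
  have ht2 : 0 ≤ t / 2 := by positivity
  have hN : (0 : ℝ) < N := by exact_mod_cast Nat.pos_of_ne_zero (NeZero.ne N)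
  set g : ZMod N × ZMod N → ℝ := fun p => φ p.1 * φ p.2 * φ (p.1 + p.2) with hg
  have hg1 : ∀ p, g p = 1 ∨ g p = -1 := by
    intro p
    have h : g p ^ 2 = 1 := by
      simp only [hg, mul_pow, hφ]
      norm_num
    exact sq_eq_one_iff.1 h
  have hind : ∀ p, (if g p = -1 then (1 : ℝ) else 0) = (1 - g p) / 2 := by
    intro p
    rcases hg1 p with h | h <;> rw [h] <;> norm_num
  -- the two main estimates
  have hT := T0_bound φ hφ ht2 hη
  have hAC := AC_bound φ hφ hη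
  set S : ℝ := ∑ x, φ x with hS
  obtain ⟨hT1, hT2⟩ := abs_le.1 hT
  obtain ⟨hμ1, hμ2⟩ := abs_le.1 hμ
  -- normalised quantities
  obtain ⟨μ, hμS⟩ : ∃ μ : ℝ, S = μ * N := ⟨S / N, by field_simp⟩
  have hm1 : μ ≤ 1 / 5 + t / 2 := by
    rw [hμS] at hμ2
    have : μ * N ≤ (1 / 5 + t / 2) * N := by nlinarith
    exact le_of_mul_le_mul_right this hN
  have hm2 : 1 / 5 - t / 2 ≤ μ := by
    rw [hμS] at hμ1
    have : (1 / 5 - t / 2) * N ≤ μ * N := by nlinarith
    exact le_of_mul_le_mul_right this hN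
  obtain ⟨τ, hτ⟩ : ∃ τ : ℝ, T0 φ = τ * (N : ℝ) ^ 2 := ⟨T0 φ / N ^ 2, by field_simp⟩
  have hτ1 : τ ≤ μ ^ 3 + t / 2 := by
    rw [hμS, hτ] at hT2
    have : τ * (N : ℝ) ^ 3 ≤ (μ ^ 3 + t / 2) * (N : ℝ) ^ 3 := by nlinarith
    exact le_of_mul_le_mul_right this (by positivity)
  have hτ2 : μ ^ 3 - t / 2 ≤ τ := by
    rw [hμS, hτ] at hT1
    have : (μ ^ 3 - t / 2) * (N : ℝ) ^ 3 ≤ τ * (N : ℝ) ^ 3 := by nlinarith
    exact le_of_mul_le_mul_right this (by positivity)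
  obtain ⟨β, hβ⟩ : ∃ β : ℝ, ∑ d : ZMod N, AC φ d ^ 2 = β * (N : ℝ) ^ 3 :=
    ⟨(∑ d : ZMod N, AC φ d ^ 2) / N ^ 3, by field_simp⟩
  have hβ1 : β ≤ μ ^ 4 + (t / 2) ^ 2 := by
    rw [hμS, hβ] at hAC
    have : β * (N : ℝ) ^ 4 ≤ (μ ^ 4 + (t / 2) ^ 2) * (N : ℝ) ^ 4 := by nlinarith
    exact le_of_mul_le_mul_right this (by positivity)
  have hμpos : 0 < μ := by linarith
  have hcube1 : μ ^ 3 ≤ 1 / 125 + t / 4 := by
    have h1 : μ ^ 3 ≤ (1 / 5 + t / 2) ^ 3 := by gcongr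
    have h2 : (1 / 5 + t / 2) ^ 3 ≤ 1 / 125 + t / 4 := by nlinarith [sq_nonneg t, pow_pos ht 3]
    linarith
  have hcube2 : 1 / 125 - t / 4 ≤ μ ^ 3 := by
    have h0 : 0 ≤ 1 / 5 - t / 2 := by linarith
    have h1 : (1 / 5 - t / 2) ^ 3 ≤ μ ^ 3 := by gcongr
    have h2 : 1 / 125 - t / 4 ≤ (1 / 5 - t / 2) ^ 3 := by nlinarith [sq_nonneg t, pow_pos ht 3]
    linarith
  have hfour : μ ^ 4 ≤ 1 / 625 + t / 4 := by
    have h1 : μ ^ 4 ≤ (1 / 5 + t / 2) ^ 4 := by gcongr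
    have h2 : (1 / 5 + t / 2) ^ 4 ≤ 1 / 625 + t / 4 := by
      nlinarith [sq_nonneg t, pow_pos ht 3, pow_pos ht 4]
    linarith
  refine ⟨N, hMN, hNe, univ.filter (fun p => g p = -1), ?_, ?_, ?_⟩
  · -- density
    have hcard : ((univ.filter (fun p => g p = -1)).card : ℝ) = ((N : ℝ) ^ 2 - T0 φ) / 2 := by
      rw [Finset.card_filter]
      push_cast
      simp_rw [hind]
      rw [← Finset.sum_div, Finset.sum_sub_distrib]
      congr 1
      congr 1
      · simp [ZMod.card, sq]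
      · rw [Fintype.sum_prod_type]
        rfl
    rw [hcard, hτ]
    have : ((N : ℝ) ^ 2 - τ * (N : ℝ) ^ 2) / 2 / (N : ℝ) ^ 2 = (1 - τ) / 2 := by
      field_simp
    rw [this, abs_le]
    constructor <;> linarith
  · -- Fourier coefficients
    intro r hr
    have hsum : ∑ x ∈ univ.filter (fun p => g p = -1),
        (ZMod.stdAddChar (r.1 * x.1 + r.2 * x.2) : ℂ) = - TT φ r.1 r.2 / 2 := by
      rw [Finset.sum_filter]
      have h1 : ∀ p : ZMod N × ZMod N, (if g p = -1 then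
          (ZMod.stdAddChar (r.1 * p.1 + r.2 * p.2) : ℂ) else 0) =
          ZMod.stdAddChar (r.1 * p.1 + r.2 * p.2) / 2 -
            (g p : ℂ) * ZMod.stdAddChar (r.1 * p.1 + r.2 * p.2) / 2 := by
        intro p
        rcases hg1 p with h | h <;> rw [h]
        · norm_num
        · norm_num
          ring
      simp_rw [h1]
      rw [Finset.sum_sub_distrib, ← Finset.sum_div, ← Finset.sum_div]
      have h2 : ∑ p : ZMod N × ZMod N, (ZMod.stdAddChar (r.1 * p.1 + r.2 * p.2) : ℂ) = 0 := by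
        rw [Fintype.sum_prod_type]
        simp_rw [AddChar.map_add_eq_mul]
        rw [← Finset.sum_mul_sum]
        simp_rw [mul_comm r.1, mul_comm r.2]
        rw [sum_char, sum_char]
        by_cases h : r.1 = 0
        · have h' : r.2 ≠ 0 := fun h' => hr (Prod.ext h h')
          rw [if_neg h', mul_zero]
        · rw [if_neg h, zero_mul]
      have h3 : ∑ p : ZMod N × ZMod N, (g p : ℂ) * ZMod.stdAddChar (r.1 * p.1 + r.2 * p.2) =
          TT φ r.1 r.2 := by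
        rw [Fintype.sum_prod_type]
        rfl
      rw [h2, h3]
      ring
    rw [hsum]
    have hb := TT_bound φ hφ ht2 hη r.1 r.2
    have hF : ‖FR φ 0 * (FR φ r.1 * FR φ r.2)‖ ≤ (t / 2) * (N : ℝ) ^ 3 := by
      rw [norm_mul, norm_mul]
      have h0 := FR_le φ hφ 0
      have h1 := FR_le φ hφ r.1
      have h2 := FR_le φ hφ r.2
      by_cases h : r.1 = 0
      · have h' : r.2 ≠ 0 := fun h' => hr (Prod.ext h h')
        have h3 := hη _ h'
        calc ‖FR φ 0‖ * (‖FR φ r.1‖ * ‖FR φ r.2‖) ≤ N * (N * (t / 2 * N)) := by gcongr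
          _ = _ := by ring
      · have h3 := hη _ h
        calc ‖FR φ 0‖ * (‖FR φ r.1‖ * ‖FR φ r.2‖) ≤ N * ((t / 2 * N) * N) := by gcongr
          _ = _ := by ring
    have hn : ‖(N : ℂ) * TT φ r.1 r.2‖ ≤ t * (N : ℝ) ^ 3 := by
      calc ‖(N : ℂ) * TT φ r.1 r.2‖ = ‖((N : ℂ) * TT φ r.1 r.2 -
            FR φ 0 * (FR φ r.1 * FR φ r.2)) + FR φ 0 * (FR φ r.1 * FR φ r.2)‖ := by ring_nf
        _ ≤ _ := norm_add_le _ _
        _ ≤ (t / 2) * (N : ℝ) ^ 3 + (t / 2) * (N : ℝ) ^ 3 := add_le_add hb hF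
        _ = _ := by ring
    rw [norm_mul, Complex.norm_natCast] at hn
    have hn2 : ‖TT φ r.1 r.2‖ ≤ t * (N : ℝ) ^ 2 := by
      have : (N : ℝ) * ‖TT φ r.1 r.2‖ ≤ (N : ℝ) * (t * (N : ℝ) ^ 2) := by nlinarith
      exact le_of_mul_le_mul_left this hN
    rw [norm_div, norm_neg]
    have : ‖(2 : ℂ)‖ = 2 := by norm_num
    rw [this]
    have := norm_nonneg (TT φ r.1 r.2)
    linarith
  · -- corners
    have hcard : (((Finset.univ : Finset (ZMod N × ZMod N × ZMod N)).filter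
          (fun t : ZMod N × ZMod N × ZMod N =>
            (t.1, t.2.1) ∈ univ.filter (fun p => g p = -1) ∧
            (t.1 + t.2.2, t.2.1) ∈ univ.filter (fun p => g p = -1) ∧
            (t.1, t.2.1 + t.2.2) ∈ univ.filter (fun p => g p = -1))).card : ℝ) =
        (∑ x : ZMod N, ∑ y : ZMod N, ∑ d : ZMod N,
          (1 - φ x * φ y * φ (x + y)) * (1 - φ (x + d) * φ y * φ (x + d + y)) *
          (1 - φ x * φ (y + d) * φ (x + (y + d)))) / 8 := by
      rw [Finset.card_filter]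
      push_cast
      simp only [Finset.mem_filter, Finset.mem_univ, true_and]
      rw [Fintype.sum_prod_type]
      simp_rw [Fintype.sum_prod_type]
      rw [Finset.sum_div]
      refine Finset.sum_congr rfl fun x _ => ?_
      rw [Finset.sum_div]
      refine Finset.sum_congr rfl fun y _ => ?_
      rw [Finset.sum_div]
      refine Finset.sum_congr rfl fun d _ => ?_
      have h1 := hind (x, y)
      have h2 := hind (x + d, y)
      have h3 := hind (x, y + d)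
      rw [ind3, h1, h2, h3]
      simp only [hg]
      ring
    rw [hcard, corner_sum φ hφ hodd, hτ, hβ, ← hS, hμS]
    have : ((N : ℝ) ^ 3 - 3 * N * (τ * (N : ℝ) ^ 2) + 3 * (β * (N : ℝ) ^ 3) - (μ * N) ^ 3) / 8 =
        ((1 - 3 * τ + 3 * β - μ ^ 3) / 8) * (N : ℝ) ^ 3 := by ring
    rw [this]
    apply mul_le_mul_of_nonneg_right _ (by positivity)
    have ht3 : (t / 2) ^ 2 ≤ t / 4 := by nlinarith
    norm_num
    linarith

/-- There are α, δ > 0 such that for every ε > 0 and arbitrarily large N, some A in (Z/NZ)^2 has density within ε of α, all nontrivial Fourier coefficients at most ε, and at most (α^3 − δ)N^3 corners (x,y,d). -/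
theorem result :
    ∃ α δ : ℝ, 0 < α ∧ 0 < δ ∧
      ∀ ε : ℝ, 0 < ε → ∀ M : ℕ, ∃ n : ℕ, M ≤ n + 1 ∧
        ∃ A : Finset (ZMod (n + 1) × ZMod (n + 1)),
          |(A.card : ℝ) / ((n : ℝ) + 1) ^ 2 - α| ≤ ε ∧
          (∀ r : ZMod (n + 1) × ZMod (n + 1), r ≠ 0 →
            ‖∑ x ∈ A, Complex.exp (2 * (Real.pi : ℂ) * Complex.I *
                (((r.1 * x.1 + r.2 * x.2 : ZMod (n + 1)).val : ℂ)) / ((n : ℂ) + 1))‖
              ≤ ε * ((n : ℝ) + 1) ^ 2) ∧
          (((Finset.univ : Finset (ZMod (n + 1) × ZMod (n + 1) × ZMod (n + 1))).filter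
              (fun t : ZMod (n + 1) × ZMod (n + 1) × ZMod (n + 1) =>
                (t.1, t.2.1) ∈ A ∧ (t.1 + t.2.2, t.2.1) ∈ A ∧ (t.1, t.2.1 + t.2.2) ∈ A)).card : ℝ)
            ≤ (α ^ 3 - δ) * ((n : ℝ) + 1) ^ 3 := by
  refine ⟨62 / 125, 1 / 2500, by norm_num, by norm_num, ?_⟩
  intro ε hε M
  obtain ⟨N, hMN, hNe, A, h1, h2, h3⟩ := main (min ε (1 / 100000)) (by positivity)
    (min_le_right _ _) M
  have hle : min ε (1 / 100000) ≤ ε := min_le_left _ _
  obtain ⟨n, rfl⟩ : ∃ n, N = n + 1 := Nat.exists_eq_succ_of_ne_zero (NeZero.ne N)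
  have hcast : (((n + 1 : ℕ)) : ℝ) = (n : ℝ) + 1 := by push_cast; ring
  rw [hcast] at h1 h2 h3
  refine ⟨n, hMN, A, h1.trans hle, ?_, ?_⟩
  · intro r hr
    have h := (h2 r hr).trans (mul_le_mul_of_nonneg_right hle (by positivity))
    have e : ∑ x ∈ A, Complex.exp (2 * (Real.pi : ℂ) * Complex.I *
                (((r.1 * x.1 + r.2 * x.2 : ZMod (n + 1)).val : ℂ)) / ((n : ℂ) + 1)) =
        ∑ x ∈ A, (ZMod.stdAddChar (r.1 * x.1 + r.2 * x.2) : ℂ) := by
      refine Finset.sum_congr rfl fun x _ => ?_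
      rw [ZMod.stdAddChar_apply, ZMod.toCircle_apply]
      push_cast
      rfl
    rw [e]
    exact h
  · convert h3 using 3

end Pool.Agent.S10123
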