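import Pool.Statements.S10141
import Pool.Agent.H891R3.HalfCage2

set_option autoImplicit false
open Pool Pool.MP_9137bf_co

namespace Pool.Agent.S10141

/-- With ρ the real root of x^3-x-2, for every ε>0 and all large g, every finite connected graph with half its vertices of degree 2, half of degree 3, and girth at least g has at least ρ^((1-ε)g/2) vertices. -/
theorem result :
  ∀ ρ : ℝ, ρ ^ 3 - ρ - 2 = 0 →
  ∀ ε : ℝ, 0 < ε →
  ∃ g₀ : ℕ, ∀ g : ℕ, g₀ ≤ g →
  ∀ (V : Type) [Fintype V] [DecidableEq V] (G : SimpleGraph V) [DecidableRel G.Adj],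
    G.Connected →
    (∀ v, G.degree v = 2 ∨ G.degree v = 3) →
    2 * (Finset.univ.filter (fun v => G.degree v = 2)).card = Fintype.card V →
    (g : ℕ∞) ≤ G.egirth →
    ρ ^ ((1 - ε) * (g : ℝ) / 2) ≤ (Fintype.card V : ℝ) := by
  intro ρ hρ ε hε
  have hρ1 := Pool.Agent.H891R3.HalfCage.rho_gt hρ
  have hρpos : 0 < ρ := by linarith
  have hlog := Pool.Agent.H891R3.HalfCage.log_rho_pos hρ
  refine ⟨max 4 (⌈4 / ε⌉₊), ?_⟩
  intro g hg V _ _ G _ hconn hdeg hhalf hgirth
  have hg4 : 4 ≤ g := le_trans (le_max_left _ _) hg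
  have hgε : 4 / ε ≤ (g : ℝ) := by
    have h1 : ⌈4 / ε⌉₊ ≤ g := le_trans (le_max_right _ _) hg
    exact (Nat.le_ceil _).trans (by exact_mod_cast h1)
  have hgε' : 4 ≤ ε * (g : ℝ) := by
    rw [div_le_iff₀ hε] at hgε
    linarith
  have : Nonempty V := hconn.nonempty
  set r : ℕ := (g - 2) / 2 with hr
  have hr2 : 2 * r + 2 ≤ g := by omega
  have hr3 : g ≤ 2 * r + 3 := by omega
  have hmain := Pool.Agent.H891R3.HalfCage.main G hρ hdeg hhalf r (by
    refine le_trans ?_ hgirth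
    exact_mod_cast hr2)
  have hcard : (0 : ℝ) < (Fintype.card V : ℝ) := by exact_mod_cast Fintype.card_pos
  rw [← Real.log_le_log_iff (Real.rpow_pos_of_pos hρpos _) hcard, Real.log_rpow hρpos]
  refine le_trans ?_ hmain
  apply mul_le_mul_of_nonneg_right _ hlog.le
  have : (g : ℝ) ≤ 2 * r + 3 := by exact_mod_cast hr3
  nlinarith

end Pool.Agent.S10141
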