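import Pool.Statements.S10161

set_option autoImplicit false
open Pool Pool.MP_9219e0_co

namespace Pool.Agent.S10161

open Finset in
lemma sum_choose_le (M N K : ℕ) (hK : 1 ≤ K) :
    ((∑ k ∈ Finset.Iic N, M.choose k : ℕ) : ℝ) ≤ (K : ℝ) ^ N * (1 + 1 / (K : ℝ)) ^ M := by
  have hK0 : (0 : ℝ) < K := by exact_mod_cast (by omega : 0 < K)
  have hK1 : (1 : ℝ) ≤ K := by exact_mod_cast hK
  have h1 : (1 + 1 / (K : ℝ)) ^ M
      = ∑ k ∈ Finset.range (M + 1), (M.choose k : ℝ) * (1 / (K : ℝ)) ^ k := by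
    rw [add_comm, add_pow]
    apply Finset.sum_congr rfl
    intro k _
    simp
    ring
  have h2 : ∑ k ∈ Finset.Iic N, (M.choose k : ℝ) * (1 / (K : ℝ)) ^ k
      ≤ ∑ k ∈ Finset.range (max M N + 1), (M.choose k : ℝ) * (1 / (K : ℝ)) ^ k := by
    apply Finset.sum_le_sum_of_subset_of_nonneg
    · intro k hk
      rw [Finset.mem_Iic] at hk
      rw [Finset.mem_range]
      have := le_max_right M N
      omega
    · intro k _ _
      positivity
  have h3 : ∑ k ∈ Finset.range (max M N + 1), (M.choose k : ℝ) * (1 / (K : ℝ)) ^ k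
      = ∑ k ∈ Finset.range (M + 1), (M.choose k : ℝ) * (1 / (K : ℝ)) ^ k := by
    symm
    apply Finset.sum_subset
    · intro k hk
      rw [Finset.mem_range] at hk ⊢
      have := le_max_left M N
      omega
    · intro k _ hk
      rw [Finset.mem_range] at hk
      rw [Nat.choose_eq_zero_of_lt (by omega)]
      simp
  rw [h1, ← h3]
  refine le_trans ?_ (mul_le_mul_of_nonneg_left h2 (by positivity))
  push_cast
  rw [Finset.mul_sum]
  apply Finset.sum_le_sum
  intro k hk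
  rw [Finset.mem_Iic] at hk
  have hc : (0 : ℝ) ≤ (M.choose k : ℝ) := by positivity
  have h4 : (1 : ℝ) ≤ (K : ℝ) ^ N * (1 / (K : ℝ)) ^ k := by
    rw [one_div, inv_pow]
    rw [← div_eq_mul_inv, le_div_iff₀ (by positivity), one_mul]
    exact pow_le_pow_right₀ hK1 hk
  nlinarith

/-- the numerical core -/
lemma numeric (M N d P : ℕ) (hP : P ≤ ∑ k ∈ Finset.Iic N, M.choose k) (h : 2 ^ M ≤ P ^ d) :
    M ≤ 8 * (d + 1) ^ 2 * N := by
  set e := d + 1 with he
  have hS1 : 1 ≤ ∑ k ∈ Finset.Iic N, M.choose k := by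
    have : M.choose 0 ≤ ∑ k ∈ Finset.Iic N, M.choose k :=
      Finset.single_le_sum (f := fun k => M.choose k) (fun _ _ => Nat.zero_le _) (by simp)
    simpa using this
  have h1 : 2 ^ M ≤ (∑ k ∈ Finset.Iic N, M.choose k) ^ e := by
    calc 2 ^ M ≤ P ^ d := h
      _ ≤ (∑ k ∈ Finset.Iic N, M.choose k) ^ d := Nat.pow_le_pow_left hP d
      _ ≤ (∑ k ∈ Finset.Iic N, M.choose k) ^ e := Nat.pow_le_pow_right hS1 (by omega)
  set K := 4 * e with hKdef
  have hK1 : 1 ≤ K := by omega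
  have h2 := sum_choose_le M N K hK1
  have hKR : (0 : ℝ) < (K : ℝ) := by exact_mod_cast (by omega : 0 < K)
  have h3 : (2 : ℝ) ^ M ≤ ((K : ℝ) ^ N * (1 + 1 / (K : ℝ)) ^ M) ^ e := by
    calc (2 : ℝ) ^ M = ((2 ^ M : ℕ) : ℝ) := by push_cast; rfl
      _ ≤ (((∑ k ∈ Finset.Iic N, M.choose k) ^ e : ℕ) : ℝ) := by exact_mod_cast h1
      _ = ((∑ k ∈ Finset.Iic N, M.choose k : ℕ) : ℝ) ^ e := by push_cast; rfl
      _ ≤ _ := by gcongr
  have h4 : (1 + 1 / (K : ℝ)) ^ (2 * e) ≤ 2 := by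
    have h5 : (1 + 1 / (K : ℝ)) ≤ Real.exp (1 / (K : ℝ)) := by
      have := Real.add_one_le_exp (1 / (K : ℝ))
      linarith
    calc (1 + 1 / (K : ℝ)) ^ (2 * e) ≤ (Real.exp (1 / (K : ℝ))) ^ (2 * e) := by gcongr
      _ = Real.exp (((2 * e : ℕ) : ℝ) * (1 / (K : ℝ))) := by rw [← Real.exp_nat_mul]
      _ = Real.exp (1 / 2) := by
          congr 1
          rw [hKdef]
          have : (e : ℝ) ≠ 0 := by
            have : (0 : ℝ) < e := by exact_mod_cast (by omega : 0 < e)
            exact this.ne'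
          push_cast
          field_simp
          norm_num
      _ ≤ 2 := by
          have h6 : Real.exp (1 / 2) ^ 2 ≤ 2 ^ 2 := by
            rw [← Real.exp_nat_mul]
            have : ((2 : ℕ) : ℝ) * (1 / 2) = 1 := by norm_num
            rw [this]
            have := Real.exp_one_lt_d9
            norm_num
            linarith
          exact le_of_sq_le_sq h6 (by norm_num)
  have h7 : (4 : ℝ) ^ M ≤ (K : ℝ) ^ (2 * e * N) * 2 ^ M := by
    calc (4 : ℝ) ^ M = ((2 : ℝ) ^ M) ^ 2 := by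
            rw [← pow_mul, mul_comm, pow_mul]; norm_num
      _ ≤ (((K : ℝ) ^ N * (1 + 1 / (K : ℝ)) ^ M) ^ e) ^ 2 := by gcongr
      _ = (K : ℝ) ^ (2 * e * N) * ((1 + 1 / (K : ℝ)) ^ (2 * e)) ^ M := by
          rw [← pow_mul, mul_pow, ← pow_mul, ← pow_mul, ← pow_mul]
          congr 2 <;> ring
      _ ≤ (K : ℝ) ^ (2 * e * N) * 2 ^ M := by gcongr
  have h8 : (2 : ℝ) ^ M ≤ (K : ℝ) ^ (2 * e * N) := by
    have h9 : (4 : ℝ) ^ M = 2 ^ M * 2 ^ M := by rw [← mul_pow]; norm_num
    rw [h9] at h7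
    exact le_of_mul_le_mul_right h7 (by positivity)
  have h10 : (2 : ℕ) ^ M ≤ K ^ (2 * e * N) := by exact_mod_cast h8
  have h11 : K ≤ 2 ^ K := Nat.lt_two_pow_self.le
  have h12 : (2 : ℕ) ^ M ≤ 2 ^ (K * (2 * e * N)) := by
    calc (2 : ℕ) ^ M ≤ K ^ (2 * e * N) := h10
      _ ≤ (2 ^ K) ^ (2 * e * N) := Nat.pow_le_pow_left h11 _
      _ = 2 ^ (K * (2 * e * N)) := by rw [← pow_mul]
  have h13 : M ≤ K * (2 * e * N) := (Nat.pow_le_pow_iff_right (by norm_num)).1 h12
  calc M ≤ K * (2 * e * N) := h13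
    _ = 8 * e ^ 2 * N := by rw [hKdef]; ring

/-- a set of edges shattered by comparison patterns has at most as many edges as there are vertices -/
lemma shatter_card {m n : ℕ} {α : Type*} [Fintype α] [DecidableEq α]
    (l : α → Fin m) (r : α → Fin n) (F : Finset (Finset α))
    (hF : ∀ u ∈ F, ∃ h : (Fin m ⊕ Fin n) → ℕ, Function.Injective h ∧
      ∀ p : α, p ∈ u ↔ h (Sum.inl (l p)) < h (Sum.inr (r p)))
    (T : Finset α) (hT : F.Shatters T) : T.card ≤ m + n := by
  by_contra hcon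
  push Not at hcon
  let v : T → ((Fin m ⊕ Fin n) → ℚ) := fun p =>
    Pi.single (Sum.inl (l p.1)) (1 : ℚ) - Pi.single (Sum.inr (r p.1)) (1 : ℚ)
  have hnl : ¬ LinearIndependent ℚ v := by
    intro hli
    have h1 := hli.fintype_card_le_finrank
    simp at h1
    omega
  rw [Fintype.not_linearIndependent_iff] at hnl
  obtain ⟨g, hg, p0, hp0⟩ := hnl
  let t : Finset α := (T.attach.filter (fun p => 0 < g p)).image Subtype.val
  have ht : t ⊆ T := by
    intro x hx
    simp only [t, Finset.mem_image, Finset.mem_filter] at hx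
    obtain ⟨y, _, rfl⟩ := hx
    exact y.2
  obtain ⟨u, hu, hut⟩ := hT ht
  obtain ⟨h, hinj, hh⟩ := hF u hu
  have hmem : ∀ p : T, p.1 ∈ u ↔ 0 < g p := by
    intro p
    have h1 : p.1 ∈ T ∩ u ↔ p.1 ∈ t := by rw [hut]
    rw [Finset.mem_inter] at h1
    have h2 : p.1 ∈ t ↔ 0 < g p := by
      simp only [t, Finset.mem_image, Finset.mem_filter]
      constructor
      · rintro ⟨y, ⟨_, hy⟩, hyp⟩
        have : y = p := Subtype.ext hyp
        rwa [this] at hy
      · intro hp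
        exact ⟨p, ⟨Finset.mem_attach _ _, hp⟩, rfl⟩
    rw [← h2, ← h1]
    exact ⟨fun h3 => ⟨p.2, h3⟩, fun h3 => h3.2⟩
  have hsum : ∑ p : T, g p * ((h (Sum.inl (l p.1)) : ℚ) - (h (Sum.inr (r p.1)) : ℚ)) = 0 := by
    have h1 : ∑ x : Fin m ⊕ Fin n, (h x : ℚ) * (∑ p : T, g p • v p) x = 0 := by
      rw [hg]; simp
    rw [← h1]
    simp only [Finset.sum_apply, Pi.smul_apply, smul_eq_mul, Finset.mul_sum]
    rw [Finset.sum_comm]
    apply Finset.sum_congr rfl
    intro p _
    have h2 : ∀ x : Fin m ⊕ Fin n, (h x : ℚ) * (g p * v p x)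
        = g p * ((h x : ℚ) * (Pi.single (Sum.inl (l p.1)) (1 : ℚ) : (Fin m ⊕ Fin n) → ℚ) x)
          - g p * ((h x : ℚ) * (Pi.single (Sum.inr (r p.1)) (1 : ℚ) : (Fin m ⊕ Fin n) → ℚ) x) := by
      intro x
      simp only [v, Pi.sub_apply]
      ring
    rw [Finset.sum_congr rfl (fun x _ => h2 x), Finset.sum_sub_distrib, ← Finset.mul_sum,
      ← Finset.mul_sum]
    have h3 : ∀ y : Fin m ⊕ Fin n, ∑ x : Fin m ⊕ Fin n,
        ((h x : ℚ) * (Pi.single y (1 : ℚ) : (Fin m ⊕ Fin n) → ℚ) x) = (h y : ℚ) := by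
      intro y
      rw [Finset.sum_eq_single y]
      · simp
      · intro b _ hb
        simp [Pi.single_eq_of_ne hb]
      · intro hy
        exact absurd (Finset.mem_univ y) hy
    rw [h3, h3]
    ring
  have hterm : ∀ p : T, g p * ((h (Sum.inl (l p.1)) : ℚ) - (h (Sum.inr (r p.1)) : ℚ)) ≤ 0 ∧
      (g p ≠ 0 → g p * ((h (Sum.inl (l p.1)) : ℚ) - (h (Sum.inr (r p.1)) : ℚ)) < 0) := by
    intro p
    have hne : h (Sum.inl (l p.1)) ≠ h (Sum.inr (r p.1)) := by
      intro h1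
      have := hinj h1
      simp at this
    rcases lt_trichotomy (g p) 0 with hneg | hz | hpos
    · have h1 : ¬ (p.1 ∈ u) := by
        rw [hmem p]; exact not_lt.2 hneg.le
      rw [hh] at h1
      have h2 : h (Sum.inr (r p.1)) < h (Sum.inl (l p.1)) := by omega
      have h3 : (0 : ℚ) < (h (Sum.inl (l p.1)) : ℚ) - (h (Sum.inr (r p.1)) : ℚ) := by
        rw [sub_pos]; exact_mod_cast h2
      have h4 := mul_neg_of_neg_of_pos hneg h3
      exact ⟨h4.le, fun _ => h4⟩
    · rw [hz]; simp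
    · have h1 : p.1 ∈ u := (hmem p).2 hpos
      rw [hh] at h1
      have h3 : (h (Sum.inl (l p.1)) : ℚ) - (h (Sum.inr (r p.1)) : ℚ) < 0 := by
        rw [sub_neg]; exact_mod_cast h1
      have h4 := mul_neg_of_pos_of_neg hpos h3
      exact ⟨h4.le, fun _ => h4⟩
  have hlt : ∑ p : T, g p * ((h (Sum.inl (l p.1)) : ℚ) - (h (Sum.inr (r p.1)) : ℚ)) < 0 := by
    have := Finset.sum_lt_sum (s := Finset.univ)
      (f := fun p : T => g p * ((h (Sum.inl (l p.1)) : ℚ) - (h (Sum.inr (r p.1)) : ℚ)))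
      (g := fun _ => (0 : ℚ)) (fun p _ => (hterm p).1) ⟨p0, Finset.mem_univ _, (hterm p0).2 hp0⟩
    simpa using this
  rw [hsum] at hlt
  exact lt_irrefl _ hlt

/-- For every subgraph-closed class of bipartite graphs whose associated height-2 posets (lower side below adjacent upper vertices) all have dimension at most some d, there is D with every member having at most D times its vertex count edges. -/
theorem result :
    ∀ C : (m : ℕ) → (n : ℕ) → (Fin m → Fin n → Prop) → Prop,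
      (∀ (m n : ℕ) (R : Fin m → Fin n → Prop) (m' n' : ℕ) (R' : Fin m' → Fin n' → Prop)
          (e : Fin m' ↪ Fin m) (g : Fin n' ↪ Fin n),
          C m n R → (∀ a b, R' a b → R (e a) (g b)) → C m' n' R') →
      (∃ d : ℕ, ∀ (m n : ℕ) (R : Fin m → Fin n → Prop), C m n R →
          ∃ f : Fin d → (Fin m ⊕ Fin n) → ℕ,
            (∀ i, Function.Injective (f i)) ∧
            ∀ x y : Fin m ⊕ Fin n, x ≠ y →
              ((∃ a b, x = Sum.inl a ∧ y = Sum.inr b ∧ R a b) ↔ ∀ i, f i x < f i y)) →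
      ∃ D : ℕ, ∀ (m n : ℕ) (R : Fin m → Fin n → Prop), C m n R →
        Set.ncard {p : Fin m × Fin n | R p.1 p.2} ≤ D * (m + n) := by
  intro C hC hdim
  obtain ⟨d, hd⟩ := hdim
  refine ⟨8 * (d + 1) ^ 2, ?_⟩
  intro m n R hR
  classical
  let α : Type := {p : Fin m × Fin n // R p.1 p.2}
  have : Fintype α := Subtype.fintype _
  let F : Finset (Finset α) := Finset.univ.filter (fun S : Finset α =>
    ∃ h : (Fin m ⊕ Fin n) → ℕ, Function.Injective h ∧
      ∀ p : α, p ∈ S ↔ h (Sum.inl p.1.1) < h (Sum.inr p.1.2))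
  have hF : ∀ u ∈ F, ∃ h : (Fin m ⊕ Fin n) → ℕ, Function.Injective h ∧
      ∀ p : α, p ∈ u ↔ h (Sum.inl p.1.1) < h (Sum.inr p.1.2) := by
    intro u hu
    simpa [F] using hu
  have hvc : F.vcDim ≤ m + n := by
    unfold Finset.vcDim
    apply Finset.sup_le
    intro T hT
    rw [Finset.mem_shatterer] at hT
    exact shatter_card (fun p : α => p.1.1) (fun p : α => p.1.2) F hF T hT
  have hcard : F.card ≤ ∑ k ∈ Finset.Iic (m + n), (Fintype.card α).choose k := by
    calc F.card ≤ F.shatterer.card := Finset.card_le_card_shatterer F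
      _ ≤ ∑ k ∈ Finset.Iic F.vcDim, (Fintype.card α).choose k := Finset.card_shatterer_le_sum_vcDim
      _ ≤ ∑ k ∈ Finset.Iic (m + n), (Fintype.card α).choose k := by
          apply Finset.sum_le_sum_of_subset
          exact Finset.Iic_subset_Iic.2 hvc
  -- every subgraph is the intersection of d patterns
  have hsub : ∀ S : Finset α, ∃ f : Fin d → (Fin m ⊕ Fin n) → ℕ,
      (∀ i, Function.Injective (f i)) ∧
      ∀ p : α, p ∈ S ↔ ∀ i, f i (Sum.inl p.1.1) < f i (Sum.inr p.1.2) := by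
    intro S
    let R' : Fin m → Fin n → Prop := fun a b => ∃ h : R a b, (⟨(a, b), h⟩ : α) ∈ S
    have hCR : C m n R' := by
      refine hC m n R m n R' (Function.Embedding.refl _) (Function.Embedding.refl _) hR ?_
      rintro a b ⟨h, _⟩
      exact h
    obtain ⟨f, hf1, hf2⟩ := hd m n R' hCR
    refine ⟨f, hf1, ?_⟩
    intro p
    rw [← hf2 (Sum.inl p.1.1) (Sum.inr p.1.2) (by simp)]
    constructor
    · intro hp
      exact ⟨p.1.1, p.1.2, rfl, rfl, p.2, hp⟩
    · rintro ⟨a, b, h1, h2, h3, h4⟩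
      have ha : p.1.1 = a := Sum.inl.inj h1
      have hb : p.1.2 = b := Sum.inr.inj h2
      subst ha; subst hb
      exact h4
  choose f hf1 hf2 using hsub
  let φ : Finset α → (Fin d → {u : Finset α // u ∈ F}) := fun S i =>
    ⟨Finset.univ.filter (fun p : α => f S i (Sum.inl p.1.1) < f S i (Sum.inr p.1.2)), by
      simp only [F, Finset.mem_filter, Finset.mem_univ, true_and]
      exact ⟨f S i, hf1 S i, fun p => Iff.rfl⟩⟩
  have hφ : Function.Injective φ := by
    intro S S' hSS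
    ext p
    rw [hf2 S p, hf2 S' p]
    have key : ∀ i, (f S i (Sum.inl p.1.1) < f S i (Sum.inr p.1.2)) ↔
        (f S' i (Sum.inl p.1.1) < f S' i (Sum.inr p.1.2)) := by
      intro i
      have h1 := congrArg (fun w : Fin d → {u : Finset α // u ∈ F} => p ∈ (w i).1) hSS
      simpa [φ] using h1
    exact forall_congr' key
  have h2 : 2 ^ Fintype.card α ≤ F.card ^ d := by
    have h3 := Fintype.card_le_of_injective φ hφ
    rw [Fintype.card_finset, Fintype.card_fun, Fintype.card_fin, Fintype.card_coe] at h3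
    exact h3
  have h4 := numeric (Fintype.card α) (m + n) d F.card hcard h2
  have h5 : Set.ncard {p : Fin m × Fin n | R p.1 p.2} = Fintype.card α := by
    rw [← Nat.card_coe_set_eq, ← Nat.card_eq_fintype_card]
    rfl
  rw [h5]
  exact h4

end Pool.Agent.S10161
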