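import Pool.Statements.S10198
import Pool.Agent.H356R3.Domatic

set_option autoImplicit false
open Pool Pool.MP_94225f_co

namespace Pool.Agent.S10198

/-- The negation of the preceding statement: For finite nonempty graphs G, H without isolated vertices, if the Cartesian product splits into k total dominating sets, then for some m with k ≤ 2m+1, G or H splits into m dominating sets; that is, d_t(G□H) ≤ 2max(d(G),d(H))+1. -/
theorem result :
    ¬ (∀ (V W : Type) [Fintype V] [Fintype W] [Nonempty V] [Nonempty W]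
      (G : SimpleGraph V) (H : SimpleGraph W),
      (∀ v : V, ∃ u : V, G.Adj v u) →
      (∀ w : W, ∃ u : W, H.Adj w u) →
      ∀ k : ℕ,
        (∃ f : V × W → Fin k, ∀ x : V × W, ∀ i : Fin k,
            ∃ y : V × W, (SimpleGraph.boxProd G H).Adj x y ∧ f y = i) →
        ∃ m : ℕ, k ≤ 2 * m + 1 ∧
          ((∃ c : V → Fin m, ∀ v : V, ∀ i : Fin m,
              ∃ u : V, (u = v ∨ G.Adj v u) ∧ c u = i) ∨
           (∃ c : W → Fin m, ∀ w : W, ∀ i : Fin m,
              ∃ u : W, (u = w ∨ H.Adj w u) ∧ c u = i))) := by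
  intro hall
  have h2 : 2 ≤ 8 := by norm_num
  obtain ⟨m, hkm, hm⟩ := hall (H356R3.Domatic.Vtx 8) (H356R3.Domatic.Vtx 8)
    (H356R3.Domatic.Gk 8) (H356R3.Domatic.Gk 8)
    (H356R3.Domatic.no_isolated 8 h2) (H356R3.Domatic.no_isolated 8 h2) 8
    ⟨H356R3.Domatic.col (by norm_num), fun p i => H356R3.Domatic.square_total 8 h2 p i⟩
  have hm4 : 4 ≤ m := by omega
  have conv : ∀ c : H356R3.Domatic.Vtx 8 → Fin m,
      (∀ v : H356R3.Domatic.Vtx 8, ∀ i : Fin m,
        ∃ u, (u = v ∨ (H356R3.Domatic.Gk 8).Adj v u) ∧ c u = i) →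
      ∀ v : H356R3.Domatic.Vtx 8, ∀ i : Fin m,
        c v = i ∨ ∃ u, (H356R3.Domatic.Gk 8).Adj v u ∧ c u = i := by
    intro c hc v i
    obtain ⟨u, hu | hu, hcu⟩ := hc v i
    · left
      rw [← hu]
      exact hcu
    · exact Or.inr ⟨u, hu, hcu⟩
  rcases hm with ⟨c, hc⟩ | ⟨c, hc⟩
  · exact H356R3.Domatic.no_four 8 m hm4 c (conv c hc)
  · exact H356R3.Domatic.no_four 8 m hm4 c (conv c hc)

end Pool.Agent.S10198
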