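import Pool.Statements.S10231
import Pool.Agent.H460SR.Final

set_option autoImplicit false
open Pool Pool.MP_9571c3_co

namespace Pool.Agent.S10231

/-- For every d ≥ 3 there are k and a finite nonempty k-uniform hypergraph H with all degrees at least d such that, on the countably infinite complete k-uniform hypergraph, neither player has a strategy guaranteeing they claim a copy of H first. -/
theorem result :
  ∀ d : ℕ, 3 ≤ d → ∃ (k n : ℕ) (H : Finset (Finset (Fin n))), 0 < n ∧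
    (∀ e ∈ H, e.card = k) ∧
    (∀ v : Fin n, d ≤ (H.filter (fun e => v ∈ e)).card) ∧
    (¬ ∃ s : List (Finset ℕ) → Finset ℕ, ∀ m : ℕ → Finset ℕ,
        (∀ i : ℕ, Even i → m i = s (List.ofFn (fun j : Fin i => m j))) →
        (∀ i : ℕ, Odd i → (m i).card = k ∧ ∀ j < i, m j ≠ m i) →
        ∃ N : ℕ, Even N ∧
          (∀ i ≤ N, Even i → (m i).card = k ∧ ∀ j < i, m j ≠ m i) ∧
          (∃ f : Fin n → ℕ, Function.Injective f ∧
              ∀ e ∈ H, ∃ i ≤ N, Even i ∧ m i = e.image f) ∧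
          ¬ (∃ f : Fin n → ℕ, Function.Injective f ∧
              ∀ e ∈ H, ∃ i < N, Odd i ∧ m i = e.image f)) ∧
    (¬ ∃ t : List (Finset ℕ) → Finset ℕ, ∀ m : ℕ → Finset ℕ,
        (∀ i : ℕ, Odd i → m i = t (List.ofFn (fun j : Fin i => m j))) →
        (∀ i : ℕ, Even i → (m i).card = k ∧ ∀ j < i, m j ≠ m i) →
        ∃ N : ℕ, Odd N ∧
          (∀ i ≤ N, Odd i → (m i).card = k ∧ ∀ j < i, m j ≠ m i) ∧
          (∃ f : Fin n → ℕ, Function.Injective f ∧
              ∀ e ∈ H, ∃ i ≤ N, Odd i ∧ m i = e.image f) ∧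
          ¬ (∃ f : Fin n → ℕ, Function.Injective f ∧
              ∀ e ∈ H, ∃ i < N, Even i ∧ m i = e.image f)) := by
  intro d hd
  have hg : 4 * d + 10 ≤ 4 * d + 10 := le_refl _
  refine ⟨3 * (4 * d + 10) + 2, Fintype.card (Pool.Agent.H460SR.VT d (4 * d + 10)),
    Pool.Agent.H460SR.HF d (4 * d + 10), ?_, Pool.Agent.H460SR.HF_card hd hg,
    Pool.Agent.H460SR.HF_deg hd hg, ?_, ?_⟩
  · exact Fintype.card_pos_iff.2 ⟨Pool.Agent.H460SR.jz⟩
  · rintro ⟨s, hs⟩
    obtain ⟨m, h1, h2, h3⟩ := Pool.Agent.H460SR.game' hd hg s 0 (Or.inl rfl)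
    obtain ⟨N, hN, hleg, ⟨f, hf, hfe⟩, hno⟩ := hs m
      (fun i hi => h1 i (Nat.even_iff.1 hi))
      (fun i hi => h2 i (by rw [Nat.odd_iff.1 hi]; norm_num))
    have hA : Pool.Agent.H460SR.Copy d (4 * d + 10) (Pool.Agent.H460SR.aset 0 (N + 1) m) := by
      rw [← Pool.Agent.H460SR.copy_iff hd hg]
      refine ⟨f, hf, fun e he => ?_⟩
      obtain ⟨i, hi, hi2, hie⟩ := hfe e he
      rw [← hie]
      unfold Pool.Agent.H460SR.aset
      refine Finset.mem_image.2 ⟨i, ?_, rfl⟩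
      rw [Finset.mem_filter, Finset.mem_range]
      exact ⟨by omega, Nat.even_iff.1 hi2⟩
    have hD := h3 N (Nat.even_iff.1 hN) (fun i hi hi2 => hleg i hi (Nat.even_iff.2 hi2)) hA
    rw [← Pool.Agent.H460SR.copy_iff hd hg] at hD
    obtain ⟨f', hf', hfe'⟩ := hD
    apply hno
    refine ⟨f', hf', fun e he => ?_⟩
    have := hfe' e he
    unfold Pool.Agent.H460SR.dset at this
    obtain ⟨i, hi, hie⟩ := Finset.mem_image.1 this
    rw [Finset.mem_filter, Finset.mem_range] at hi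
    exact ⟨i, hi.1, Nat.odd_iff.2 (by omega), hie⟩
  · rintro ⟨t, ht⟩
    obtain ⟨m, h1, h2, h3⟩ := Pool.Agent.H460SR.game' hd hg t 1 (Or.inr rfl)
    obtain ⟨N, hN, hleg, ⟨f, hf, hfe⟩, hno⟩ := ht m
      (fun i hi => h1 i (Nat.odd_iff.1 hi))
      (fun i hi => h2 i (by rw [Nat.even_iff.1 hi]; norm_num))
    have hA : Pool.Agent.H460SR.Copy d (4 * d + 10) (Pool.Agent.H460SR.aset 1 (N + 1) m) := by
      rw [← Pool.Agent.H460SR.copy_iff hd hg]
      refine ⟨f, hf, fun e he => ?_⟩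
      obtain ⟨i, hi, hi2, hie⟩ := hfe e he
      rw [← hie]
      unfold Pool.Agent.H460SR.aset
      refine Finset.mem_image.2 ⟨i, ?_, rfl⟩
      rw [Finset.mem_filter, Finset.mem_range]
      exact ⟨by omega, Nat.odd_iff.1 hi2⟩
    have hD := h3 N (Nat.odd_iff.1 hN) (fun i hi hi2 => hleg i hi (Nat.odd_iff.2 hi2)) hA
    rw [← Pool.Agent.H460SR.copy_iff hd hg] at hD
    obtain ⟨f', hf', hfe'⟩ := hD
    apply hno
    refine ⟨f', hf', fun e he => ?_⟩
    have := hfe' e he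
    unfold Pool.Agent.H460SR.dset at this
    obtain ⟨i, hi, hie⟩ := Finset.mem_image.1 this
    rw [Finset.mem_filter, Finset.mem_range] at hi
    exact ⟨i, hi.1, Nat.even_iff.2 (by omega), hie⟩

end Pool.Agent.S10231
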