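import Pool.Statements.S10285
-- import your own Pool.Agent.* helpers here
import Pool.Agent.H750R3.RealRoots

set_option autoImplicit false
open Pool Pool.MP_977251_co

namespace Pool.Agent.S10285

/-- For every n ≥ 2 and each sign s = ±1, every complex root of the sum of t^des(π) over permutations of n letters with sign s is real, i.e. both descent polynomials (alternating group and its complement) are real-rooted. -/
theorem result :
    ∀ n : ℕ, 2 ≤ n → ∀ s : ℤˣ, ∀ z : ℂ,
      Polynomial.aeval z
        (∑ π ∈ (Finset.univ : Finset (Equiv.Perm (Fin n))).filter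
              (fun π => Equiv.Perm.sign π = s),
          (Polynomial.X : Polynomial ℝ) ^
            ((Finset.univ : Finset (Fin n × Fin n)).filter
              (fun p => p.2.val = p.1.val + 1 ∧ π p.2 < π p.1)).card) = 0 →
      z.im = 0 := by
  intro n hn s z hz
  obtain ⟨k, rfl⟩ : ∃ k, n = k + 1 := ⟨n - 1, by omega⟩
  apply Pool.Agent.H750R3.P_real k (by omega) s z
  rw [← hz]
  congr 1
  unfold Pool.Agent.H750R3.P
  refine Finset.sum_congr rfl fun π _ => ?_
  congr 1
  unfold Pool.Agent.H750R3.desc
  refine Finset.card_bij (fun a _ => if h : a.val + 1 < k + 1 then (a, ⟨a.val + 1, h⟩) else (a, a))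
    ?_ ?_ ?_
  · intro a ha
    simp only [Finset.mem_filter, Finset.mem_univ, true_and] at ha ⊢
    obtain ⟨l, h1, h2⟩ := ha
    have h3 : a.val + 1 < k + 1 := by rw [← h1]; exact l.isLt
    rw [dif_pos h3]
    refine ⟨rfl, ?_⟩
    have h4 : (⟨a.val + 1, h3⟩ : Fin (k+1)) = l := Fin.ext h1.symm
    simp only [h4]
    exact h2
  · intro a _ b _ hab
    split_ifs at hab <;> exact (Prod.ext_iff.1 hab).1
  · rintro ⟨a, b⟩ hab
    simp only [Finset.mem_filter, Finset.mem_univ, true_and] at hab ⊢
    obtain ⟨h1, h2⟩ := hab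
    have h3 : a.val + 1 < k + 1 := by rw [← h1]; exact b.isLt
    refine ⟨a, ⟨b, h1, h2⟩, ?_⟩
    rw [dif_pos h3]
    exact Prod.ext rfl (Fin.ext h1.symm)

end Pool.Agent.S10285
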