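import Pool.Statements.S10292
import Pool.Agent.H891R3.HardCore

set_option autoImplicit false
open Classical
open Pool Pool.MP_97ae25_co

namespace Pool.Agent.S10292

/-- The negation of the preceding statement: For every ε>0 there is D such that every finite triangle-free graph with minimum degree at least D has independence number at least (2−ε) times the average size of a uniformly random independent set. -/
theorem result :
    ¬ (∀ ε : ℝ, 0 < ε → ∃ D : ℕ, ∀ (V : Type) [Fintype V] [DecidableEq V] (G : SimpleGraph V) [DecidableRel G.Adj],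
    G.CliqueFree 3 → D ≤ G.minDegree →
    (2 - ε) * (∑ s ∈ Finset.filter (fun s : Finset V => G.IsIndepSet (↑s : Set V)) (Finset.univ : Finset (Finset V)),
        ((Finset.card s : ℕ) : ℝ))
      ≤ (G.indepNum : ℝ) *
        ((Finset.card (Finset.filter (fun s : Finset V => G.IsIndepSet (↑s : Set V)) (Finset.univ : Finset (Finset V))) : ℕ) : ℝ)) := by
  intro h
  obtain ⟨D, hD⟩ := h (1 / 4) (by norm_num)
  -- use D + 1 hubs on each side
  obtain ⟨m, hm, hlt⟩ := Pool.Agent.H891R3.HardCore.exists_m (D + 1)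
  have hmin := Pool.Agent.H891R3.HardCore.minDeg (m := m) (D := D + 1) (by omega) hm
  have h1 := hD (Pool.Agent.H891R3.HardCore.Vt m (D + 1)) (Pool.Agent.H891R3.HardCore.gr m (D + 1))
    (Pool.Agent.H891R3.HardCore.cliqueFree m (D + 1)) (by
      refine le_trans (Nat.le_succ D) ?_
      convert hmin)
  have hS := Pool.Agent.H891R3.HardCore.sum_ge m (D + 1)
  have hN := Pool.Agent.H891R3.HardCore.card_IS_le m (D + 1)
  have hα := Pool.Agent.H891R3.HardCore.indepNum_le m (D + 1)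
  have hN' : (((Pool.Agent.H891R3.HardCore.IS m (D + 1)).card : ℕ) : ℝ)
      ≤ 3 ^ m + 2 * 2 ^ (m + 2 * (D + 1)) := by exact_mod_cast hN
  have hα' : (((Pool.Agent.H891R3.HardCore.gr m (D + 1)).indepNum : ℕ) : ℝ)
      ≤ (m : ℝ) + 2 * ((D + 1 : ℕ) : ℝ) := by exact_mod_cast hα
  have h2 : (2 - 1 / 4 : ℝ) * (∑ s ∈ Pool.Agent.H891R3.HardCore.IS m (D + 1), ((s.card : ℕ) : ℝ))
      ≤ (((Pool.Agent.H891R3.HardCore.gr m (D + 1)).indepNum : ℕ) : ℝ) *
        (((Pool.Agent.H891R3.HardCore.IS m (D + 1)).card : ℕ) : ℝ) := by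
    unfold Pool.Agent.H891R3.HardCore.IS
    convert h1
  have h3 : (((Pool.Agent.H891R3.HardCore.gr m (D + 1)).indepNum : ℕ) : ℝ) *
        (((Pool.Agent.H891R3.HardCore.IS m (D + 1)).card : ℕ) : ℝ)
      ≤ ((m : ℝ) + 2 * ((D + 1 : ℕ) : ℝ)) * (3 ^ m + 2 * 2 ^ (m + 2 * (D + 1))) := by
    apply mul_le_mul hα' hN' (Nat.cast_nonneg _) (by positivity)
  have h4 : (2 - 1 / 4 : ℝ) * (m * ((2 / 3) * 3 ^ m))
      ≤ (2 - 1 / 4 : ℝ) * (∑ s ∈ Pool.Agent.H891R3.HardCore.IS m (D + 1), ((s.card : ℕ) : ℝ)) := by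
    apply mul_le_mul_of_nonneg_left hS (by norm_num)
  have h5 : (2 - 1 / 4 : ℝ) = 7 / 4 := by norm_num
  rw [h5] at h2 h4
  linarith

end Pool.Agent.S10292
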