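import Pool.Statements.S10323
import Pool.Agent.H729R3.TreePart
import Pool.Agent.H729R3.Geo

set_option autoImplicit false
open Pool Pool.MP_993692_co

namespace Pool.Agent.S10323

open Pool.Agent.H729R3

/-- For all k, ℓ there is D such that every finite graph with treewidth ≤ k and max degree ≤ ℓ has a straight-line plane drawing with distinct vertex points and no vertex on a non-incident edge, using at most D distinct edge lengths. -/
theorem result :
    ∀ k ℓ : ℕ, ∃ D : ℕ, ∀ (V : Type) [Fintype V] (G : SimpleGraph V),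
      (∃ (ι : Type) (_ : Fintype ι) (T : SimpleGraph ι) (B : ι → Finset V),
        T.IsTree ∧ (∀ i, (B i).card ≤ k + 1) ∧ (∀ v, ∃ i, v ∈ B i) ∧
        (∀ u v, G.Adj u v → ∃ i, u ∈ B i ∧ v ∈ B i) ∧
        (∀ v i j, v ∈ B i → v ∈ B j → ∃ q : T.Walk i j, ∀ x ∈ q.support, v ∈ B x)) →
      (∀ v, (G.neighborSet v).ncard ≤ ℓ) →
      ∃ p : V → EuclideanSpace ℝ (Fin 2), Function.Injective p ∧
        (∀ u v w, G.Adj u v → w ≠ u → w ≠ v → p w ∉ segment ℝ (p u) (p v)) ∧
        {d : ℝ | ∃ u v, G.Adj u v ∧ dist (p u) (p v) = d}.ncard ≤ D := by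
  intro k ℓ
  obtain ⟨w, D, hw, htp⟩ := tree_partition k ℓ
  obtain ⟨α, hα1, hαt⟩ := exists_alpha
  refine ⟨Fintype.card (Option (Fin D) × Fin w × Fin w), ?_⟩
  intro V _ G htd hdeg
  classical
  obtain ⟨x, i, hinj, hlett, hrel⟩ := htp V G htd hdeg
  have hpn : ∀ m : ℕ, ‖α ^ m‖ = 1 := fun m => by rw [norm_pow, hα1, one_pow]
  let A : V → ℂ := fun v => α ^ (w * (x v).length + (i v : ℕ))
  let b : V → ℂ := fun v => bb α w (x v)
  have hAeq : ∀ u v, A u = A v → (x u).length = (x v).length ∧ i u = i v := by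
    intro u v h
    exact exp_inj w _ _ _ _ (pow_inj α hαt _ _ h)
  have hb : ∀ u v, u ≠ v → A u = A v → b u ≠ b v := by
    intro u v huv hA h
    obtain ⟨h1, h2⟩ := hAeq u v hA
    exact huv (hinj u v (bb_inj α hαt w hw _ _ h1 h) h2)
  have hadj : ∀ u v, G.Adj u v → A u ≠ A v := by
    intro u v huv h
    obtain ⟨h1, h2⟩ := hAeq u v h
    rcases hrel u v huv with h3 | ⟨a, h3⟩ | ⟨a, h3⟩
    · exact huv.ne (hinj u v h3 h2)
    · rw [h3, List.length_append] at h1
      simp at h1
    · rw [h3, List.length_append] at h1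
      simp at h1
  obtain ⟨s, hs1, hs2⟩ := placement G.Adj A b (fun v => hpn _) hb hadj
  let e : ℂ ≃ₗᵢ[ℝ] EuclideanSpace ℝ (Fin 2) := Complex.orthonormalBasisOneI.repr
  let P : V → ℂ := fun v => A v * s + b v
  refine ⟨fun v => e (P v), ?_, ?_, ?_⟩
  · intro u v huv
    by_contra hne
    exact hs1 u v hne (e.injective huv)
  · intro u v z huv hzu hzv hmem
    apply hs2 u v z huv hzu hzv
    obtain ⟨a, c, ha, hc, hac, h⟩ := hmem
    refine ⟨a, c, ha, hc, hac, ?_⟩
    apply e.injective
    rw [map_add, e.map_smul, e.map_smul]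
    exact h
  · let f : Option (Fin D) × Fin w × Fin w → ℝ := fun q =>
      match q with
      | (none, i1, i2) => ‖(α ^ (i1 : ℕ) - α ^ (i2 : ℕ)) * s‖
      | (some a, i1, i2) => ‖α ^ (i1 : ℕ) * s - (α ^ (w + (i2 : ℕ)) * s + (a : ℕ))‖
    have hsub : {d : ℝ | ∃ u v, G.Adj u v ∧ dist (e (P u)) (e (P v)) = d} ⊆ Set.range f := by
      rintro d ⟨u, v, huv, rfl⟩
      rw [e.dist_map, dist_eq_norm]
      have key : ∀ u v : V, ∀ a, x v = x u ++ [a] → ∃ q, f q = ‖P u - P v‖ := by
        intro u v a h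
        have haD : a < D := hlett v a (by rw [h]; simp)
        refine ⟨(some ⟨a, haD⟩, i u, i v), ?_⟩
        have e1 : P u - P v = α ^ (w * (x u).length) *
            (α ^ (i u : ℕ) * s - (α ^ (w + (i v : ℕ)) * s + (a : ℂ))) := by
          simp only [P, A, b]
          rw [h, bb_append, List.length_append, List.length_singleton]
          ring
        rw [e1, norm_mul, hpn, one_mul]
      rcases hrel u v huv with h | ⟨a, h⟩ | ⟨a, h⟩
      · refine ⟨(none, i u, i v), ?_⟩
        have e1 : P u - P v = α ^ (w * (x v).length) *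
            ((α ^ (i u : ℕ) - α ^ (i v : ℕ)) * s) := by
          simp only [P, A, b]
          rw [h]
          ring
        rw [e1, norm_mul, hpn, one_mul]
      · exact key u v a h
      · obtain ⟨q, hq⟩ := key v u a h
        exact ⟨q, by rw [hq, norm_sub_rev]⟩
    refine (Set.ncard_le_ncard hsub (Set.toFinite _)).trans ?_
    rw [← Set.image_univ]
    refine (Set.ncard_image_le (Set.toFinite _)).trans ?_
    rw [Set.ncard_univ, Nat.card_eq_fintype_card]

end Pool.Agent.S10323
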