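import Pool.Statements.S10336
import Pool.Agent.H683R3.IndepPoly

set_option autoImplicit false
open Classical
open Pool Pool.MP_99d978_co

namespace Pool.Agent.S10336

open Pool.Agent.H683R3

/-- adjacency masks of a 4-regular triangle-free graph on 20 vertices -/
def m20 : List ℕ := [528450, 9221, 34946, 41040, 526600, 27136, 278537, 20740, 263312, 590880,
  131842, 4148, 67713, 262186, 131296, 196620, 299520, 574464, 74048, 131601]

def a20 (v w : Fin 20) : Bool := (m20.getD v.1 0).testBit w.1

/-- the 20-vertex graph -/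
def G20 : SimpleGraph (Fin 20) where
  Adj v w := a20 v w = true
  symm := ⟨by decide +kernel⟩
  loopless := ⟨by decide +kernel⟩

/-- adjacency masks of the Robertson graph -/
def m19 : List ℕ := [49164, 12328, 335873, 83, 67080, 212994, 262536, 25152, 100416, 163984,
  22544, 140544, 295938, 2182, 1185, 4865, 308, 264736, 135236]

def a19 (v w : Fin 19) : Bool := (m19.getD v.1 0).testBit w.1

/-- the Robertson graph -/
def G19 : SimpleGraph (Fin 19) where
  Adj v w := a19 v w = true
  symm := ⟨by decide +kernel⟩
  loopless := ⟨by decide +kernel⟩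

/-- the circulant graph -/
def c13 (v w : ZMod 13) : Bool := decide (v ≠ w ∧ ((v - w = 1 ∨ v - w = 5) ∨ (w - v = 1 ∨ w - v = 5)))

lemma reg20 : G20.IsRegularOfDegree 4 := by
  intro v
  have h : ∀ v : Fin 20, (Finset.univ.filter (fun w => a20 v w = true)).card = 4 := by
    decide +kernel
  rw [← h v, ← SimpleGraph.card_neighborFinset_eq_degree]
  congr 1
  ext w
  rw [SimpleGraph.mem_neighborFinset, Finset.mem_filter]
  exact ⟨fun h => ⟨Finset.mem_univ _, h⟩, fun h => h.2⟩

lemma reg19 : G19.IsRegularOfDegree 4 := by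
  intro v
  have h : ∀ v : Fin 19, (Finset.univ.filter (fun w => a19 v w = true)).card = 4 := by
    decide +kernel
  rw [← h v, ← SimpleGraph.card_neighborFinset_eq_degree]
  congr 1
  ext w
  rw [SimpleGraph.mem_neighborFinset, Finset.mem_filter]
  exact ⟨fun h => ⟨Finset.mem_univ _, h⟩, fun h => h.2⟩

lemma tri20 : G20.CliqueFree 3 := by
  have h : ∀ a b : Fin 20, a20 a b = true → ∀ c : Fin 20, a20 a c = true → a20 b c = true → False := by
    decide +kernel
  intro s hs
  rw [SimpleGraph.is3Clique_iff] at hs
  obtain ⟨a, b, c, hab, hac, hbc, -⟩ := hs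
  exact h a b hab c hac hbc

lemma girth19 : (5 : ℕ∞) ≤ G19.egirth := by
  have h3 : ∀ a b : Fin 19, a19 a b = true → ∀ c : Fin 19, a19 b c = true → a19 c a = true → False := by
    decide +kernel
  have h4 : ∀ a b : Fin 19, a19 a b = true → ∀ c : Fin 19, a19 b c = true →
      ∀ d : Fin 19, a19 c d = true → a19 d a = true → a = c ∨ b = d := by
    decide +kernel
  rw [SimpleGraph.le_egirth]
  intro a w hw
  have hl := hw.three_le_length
  by_contra hcon
  have hlt : w.length < 5 := by
    rw [not_le] at hcon
    exact_mod_cast hcon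
  have hnd := hw.support_nodup
  cases w with
  | nil => simp at hl
  | cons e1 w1 =>
    cases w1 with
    | nil => simp at hl
    | cons e2 w2 =>
      cases w2 with
      | nil => simp at hl
      | cons e3 w3 =>
        cases w3 with
        | nil => exact h3 _ _ e1 _ e2 e3
        | cons e4 w4 =>
          cases w4 with
          | nil =>
            rcases h4 _ _ e1 _ e2 _ e3 e4 with h | h
            · subst h
              simp at hnd
            · subst h
              simp at hnd
          | cons e5 w5 => simp at hlt; omega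

lemma ev20 : ev a20 2 20 (List.finRange 20) = (72225, 359800) := by
  decide +kernel

lemma ev13 : ev c13 2 13 ([0,1,2,3,4,5,6,7,8,9,10,11,12] : List (ZMod 13)) = (1483, 4810) := by
  decide +kernel

noncomputable def P (x : ℝ) : ℝ := 90*x^6 + 729*x^5 - 188*x^4 - 1632*x^3 - 1247*x^2 - 363*x - 38

lemma P_pos (x : ℝ) (hx : 2 < x) : 0 < P x := by
  obtain ⟨t, ht, rfl⟩ : ∃ t : ℝ, 0 < t ∧ x = 2 + t := ⟨x - 2, by linarith, by ring⟩
  have : P (2 + t) = 90*t^6 + 1809*t^5 + 12502*t^4 + 40424*t^3 + 64369*t^2 + 44649*t + 7272 := by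
    unfold P
    ring
  rw [this]
  positivity

lemma exists_largest : ∃ L : ℝ, P L = 0 ∧ (∀ x, P x = 0 → x ≤ L) ∧ L ≤ 2 := by
  have hc : Continuous P := by unfold P; fun_prop
  have hcl : IsClosed {x | P x = 0} := isClosed_singleton.preimage hc
  have hub : ∀ x, P x = 0 → x ≤ 2 := by
    intro x hx
    by_contra h
    have := P_pos x (by linarith)
    linarith
  have hne : {x | P x = 0}.Nonempty := by
    have h1 : P 1 ≤ 0 := by unfold P; norm_num
    have h2 : 0 ≤ P 2 := by unfold P; norm_num
    have := intermediate_value_Icc (show (1:ℝ) ≤ 2 by norm_num) hc.continuousOn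
    obtain ⟨x, _, hx⟩ := this ⟨h1, h2⟩
    exact ⟨x, hx⟩
  have hbdd : BddAbove {x | P x = 0} := ⟨2, fun x hx => hub x hx⟩
  have hmem := hcl.csSup_mem hne hbdd
  exact ⟨_, hmem, fun x hx => le_csSup hbdd hx, hub _ hmem⟩

/-- The negation of the preceding statement: Let L be the largest real root of the sextic. For every finite 4-regular triangle-free G and λ>0: if λ≤L, G's occupancy fraction is at least the Robertson graph's (4-regular, girth 5, 19 vertices); if λ≥L, at least that of the circulant on Z13 with jumps ±1,±5. -/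
theorem result :
    ¬ (∀ L : ℝ,
      90*L^6 + 729*L^5 - 188*L^4 - 1632*L^3 - 1247*L^2 - 363*L - 38 = 0 →
      (∀ x : ℝ, 90*x^6 + 729*x^5 - 188*x^4 - 1632*x^3 - 1247*x^2 - 363*x - 38 = 0 → x ≤ L) →
      ∀ (V : Type) [Fintype V] [Nonempty V] (G : SimpleGraph V),
        G.IsRegularOfDegree 4 → G.CliqueFree 3 →
        ∀ H : SimpleGraph (Fin 19), H.IsRegularOfDegree 4 → (5 : ℕ∞) ≤ H.egirth →
        ∀ l : ℝ, 0 < l →
          (l ≤ L →
            (∑ I : Finset (Fin 19), if H.IsIndepSet (I : Set (Fin 19)) then (I.card : ℝ) * l ^ I.card else 0) /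
              ((Fintype.card (Fin 19) : ℝ) *
                ∑ I : Finset (Fin 19), if H.IsIndepSet (I : Set (Fin 19)) then l ^ I.card else 0)
            ≤
            (∑ I : Finset V, if G.IsIndepSet (I : Set V) then (I.card : ℝ) * l ^ I.card else 0) /
              ((Fintype.card V : ℝ) *
                ∑ I : Finset V, if G.IsIndepSet (I : Set V) then l ^ I.card else 0)) ∧
          (L ≤ l →
            (∑ I : Finset (ZMod 13),
                if (SimpleGraph.fromRel (fun x y : ZMod 13 => x - y = 1 ∨ x - y = 5)).IsIndepSet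
                    (I : Set (ZMod 13))
                then (I.card : ℝ) * l ^ I.card else 0) /
              ((Fintype.card (ZMod 13) : ℝ) *
                ∑ I : Finset (ZMod 13),
                  if (SimpleGraph.fromRel (fun x y : ZMod 13 => x - y = 1 ∨ x - y = 5)).IsIndepSet
                      (I : Set (ZMod 13))
                  then l ^ I.card else 0)
            ≤
            (∑ I : Finset V, if G.IsIndepSet (I : Set V) then (I.card : ℝ) * l ^ I.card else 0) /
              ((Fintype.card V : ℝ) *
                ∑ I : Finset V, if G.IsIndepSet (I : Set V) then l ^ I.card else 0))) := by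
  intro hall
  obtain ⟨L, hL, hmax, hL2⟩ := exists_largest
  have h := (hall L hL hmax (Fin 20) G20 reg20 tri20 G19 reg19 girth19 2 (by norm_num)).2 hL2
  have e20 := eval G20 a20 (fun v w => Iff.rfl) 2 20 (List.finRange 20) (by simp)
    (List.nodup_finRange 20) (fun v => List.mem_finRange v) 72225 359800 ev20
  have e13 := eval (SimpleGraph.fromRel (fun x y : ZMod 13 => x - y = 1 ∨ x - y = 5)) c13
    (fun v w => by simp [c13, SimpleGraph.fromRel_adj]) 2 13
    ([0,1,2,3,4,5,6,7,8,9,10,11,12] : List (ZMod 13)) (by simp) (by decide +kernel)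
    (by decide +kernel) 1483 4810 ev13
  unfold Zs Ds at e20 e13
  rw [Finset.powerset_univ] at e20 e13
  norm_num at e20 e13
  have h' : (4810 : ℝ) / (13 * 1483) ≤ 359800 / (20 * 72225) := by
    rw [e13.1, e13.2] at h
    rw [← e20.1, ← e20.2]
    have c20 : (Fintype.card (Fin 20) : ℝ) = 20 := by simp
    have c13' : (Fintype.card (ZMod 13) : ℝ) = 13 := by simp
    rw [c20, c13'] at h
    convert h using 4 <;>
      (rename_i x _; by_cases hx : G20.IsIndepSet (x : Set (Fin 20)) <;> simp [hx])
  norm_num at h'

end Pool.Agent.S10336
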