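import Pool.Statements.S10340

set_option autoImplicit false
set_option linter.unreachableTactic false
set_option linter.unusedTactic false
open Pool Pool.MP_9a0e7c_co

namespace Pool.Agent.S10340

/-- The inclusion of the 3-space into the 5-space. -/
noncomputable def inc : EuclideanSpace ℝ (Fin 3) →ₗᵢ[ℝ] EuclideanSpace ℝ (Fin 5) where
  toFun x := !₂[x 0, x 1, x 2, 0, 0]
  map_add' x y := by
    ext i; fin_cases i <;> simp
  map_smul' c x := by
    ext i; fin_cases i <;> simp
  norm_map' x := by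
    show ‖(!₂[x 0, x 1, x 2, 0, 0] : EuclideanSpace ℝ (Fin 5))‖ = ‖x‖
    rw [EuclideanSpace.norm_eq, EuclideanSpace.norm_eq]
    simp [Fin.sum_univ_succ]

/-- First configuration. -/
noncomputable def pp : Fin 9 → EuclideanSpace ℝ (Fin 3) :=
  ![!₂[1,0,0], !₂[0,1,0], !₂[0,0,1], !₂[1/3,2/3,2/3], !₂[1,0,0], !₂[0,1,0], !₂[0,0,1],
    !₂[2/3,1/3,-2/3], !₂[2/3,-2/3,1/3]]

/-- Second configuration: the last five points are replaced by their antipodes. -/
noncomputable def qq : Fin 9 → EuclideanSpace ℝ (Fin 3) :=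
  ![!₂[1,0,0], !₂[0,1,0], !₂[0,0,1], !₂[1/3,2/3,2/3], !₂[-1,0,0], !₂[0,-1,0], !₂[0,0,-1],
    !₂[-2/3,-1/3,2/3], !₂[-2/3,2/3,-1/3]]

lemma pp_norm : ∀ i, ‖pp i‖ = 1 := by
  intro i
  fin_cases i <;> simp [pp, EuclideanSpace.norm_eq, Fin.sum_univ_succ] <;> norm_num

lemma qq_norm : ∀ i, ‖qq i‖ = 1 := by
  intro i
  fin_cases i <;> simp [qq, EuclideanSpace.norm_eq, Fin.sum_univ_succ] <;> norm_num

lemma inner3 (x y : EuclideanSpace ℝ (Fin 3)) :
    inner ℝ x y = x 0 * y 0 + x 1 * y 1 + x 2 * y 2 := by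
  simp [PiLp.inner_apply, Fin.sum_univ_succ]
  ring

lemma dist_sq_unit {E : Type*} [NormedAddCommGroup E] [InnerProductSpace ℝ E] (x y : E)
    (hx : ‖x‖ = 1) (hy : ‖y‖ = 1) : dist x y ^ 2 = 2 - 2 * inner ℝ x y := by
  rw [dist_eq_norm, norm_sub_sq_real, hx, hy]; ring

/-- The negation of the preceding statement. Counterexample with 9 points: a rigid frame A and a rigid frame B,
where q replaces B by its antipodal image; all cross inner products are forced to be a common multiple of the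
original ones, and at the moment this multiple vanishes there would be six orthonormal vectors in 5-space.
Frozen wording: For any two N-point configurations on the 2-sphere, placed in the 4-sphere, there is a continuous piecewise-analytic motion in the 4-sphere from one to the other along which every pairwise distance changes monotonically. -/
theorem result :
    ¬ (∀ (N : ℕ) (p q : Fin N → EuclideanSpace ℝ (Fin 3)),
    (∀ i, ‖p i‖ = 1) → (∀ i, ‖q i‖ = 1) →
    ∀ ι : EuclideanSpace ℝ (Fin 3) →ₗᵢ[ℝ] EuclideanSpace ℝ (Fin 5),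
    ∃ m : ℝ → Fin N → EuclideanSpace ℝ (Fin 5),
      m 0 = (fun i => ι (p i)) ∧ m 1 = (fun i => ι (q i)) ∧
      ContinuousOn m (Set.Icc 0 1) ∧
      (∀ t ∈ Set.Icc (0:ℝ) 1, ∀ i, ‖m t i‖ = 1) ∧
      (∃ (K : ℕ) (s : ℕ → ℝ), s 0 = 0 ∧ s K = 1 ∧ (∀ k < K, s k < s (k+1)) ∧
         ∀ k < K, AnalyticOn ℝ m (Set.Icc (s k) (s (k+1)))) ∧
      ∀ i j, MonotoneOn (fun t => dist (m t i) (m t j)) (Set.Icc 0 1) ∨
             AntitoneOn (fun t => dist (m t i) (m t j)) (Set.Icc 0 1)) := by
  intro H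
  obtain ⟨m, h0, h1, hc, hn, -, hm⟩ := H 9 pp qq pp_norm qq_norm inc
  -- inner products which agree at both ends are constant
  have key : ∀ t ∈ Set.Icc (0:ℝ) 1, ∀ i j, inner ℝ (pp i) (pp j) = inner ℝ (qq i) (qq j) →
      inner ℝ (m t i) (m t j) = inner ℝ (pp i) (pp j) := by
    intro t ht i j hij
    have z : (0:ℝ) ∈ Set.Icc (0:ℝ) 1 := by simp
    have o : (1:ℝ) ∈ Set.Icc (0:ℝ) 1 := by simp
    have d0 : dist (m 0 i) (m 0 j) ^ 2 = 2 - 2 * inner ℝ (pp i) (pp j) := by
      rw [dist_sq_unit _ _ (hn 0 z i) (hn 0 z j), h0]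
      simp
    have d1 : dist (m 1 i) (m 1 j) ^ 2 = 2 - 2 * inner ℝ (qq i) (qq j) := by
      rw [dist_sq_unit _ _ (hn 1 o i) (hn 1 o j), h1]
      simp
    have d01 : dist (m 0 i) (m 0 j) = dist (m 1 i) (m 1 j) := by
      have : dist (m 0 i) (m 0 j) ^ 2 = dist (m 1 i) (m 1 j) ^ 2 := by rw [d0, d1, hij]
      exact (sq_eq_sq₀ dist_nonneg dist_nonneg).1 this
    have dt : dist (m t i) (m t j) = dist (m 0 i) (m 0 j) := by
      rcases hm i j with h | h
      · have a := h z ht ht.1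
        have b := h ht o ht.2
        simp only at a b
        linarith
      · have a := h z ht ht.1
        have b := h ht o ht.2
        simp only at a b
        linarith
    have d2 := dist_sq_unit _ _ (hn t ht i) (hn t ht j)
    rw [dt, d0] at d2
    linarith
  -- the intermediate value theorem
  have hcont : ContinuousOn (fun t => inner ℝ (m t 0) (m t 4)) (Set.Icc (0:ℝ) 1) := by
    have c0 : ContinuousOn (fun t => m t 0) (Set.Icc (0:ℝ) 1) :=
      (continuous_apply (0 : Fin 9)).comp_continuousOn hc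
    have c4 : ContinuousOn (fun t => m t 4) (Set.Icc (0:ℝ) 1) :=
      (continuous_apply (4 : Fin 9)).comp_continuousOn hc
    exact c0.inner c4
  have hv0 : inner ℝ (m 0 0) (m 0 4) = (1:ℝ) := by
    rw [h0]; show inner ℝ (inc (pp 0)) (inc (pp 4)) = (1:ℝ); rw [LinearIsometry.inner_map_map, inner3]; simp [pp]
  have hv1 : inner ℝ (m 1 0) (m 1 4) = (-1:ℝ) := by
    rw [h1]; show inner ℝ (inc (qq 0)) (inc (qq 4)) = (-1:ℝ); rw [LinearIsometry.inner_map_map, inner3]; simp [qq]
  obtain ⟨t, ht, hz⟩ : ∃ t ∈ Set.Icc (0:ℝ) 1, inner ℝ (m t 0) (m t 4) = (0:ℝ) := by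
    have := intermediate_value_Icc' (zero_le_one' ℝ) hcont
    have h2 : (0:ℝ) ∈ Set.Icc (inner ℝ (m 1 0) (m 1 4)) (inner ℝ (m 0 0) (m 0 4)) := by
      rw [hv0, hv1]; norm_num
    obtain ⟨t, ht, h⟩ := this h2
    exact ⟨t, ht, h⟩
  have key' := key t ht
  have nn := hn t ht
  have kk : ∀ i j, inner ℝ (pp i) (pp j) = inner ℝ (qq i) (qq j) →
      inner ℝ (m t i) (m t j) = inner ℝ (pp i) (pp j) := fun i j h => key' i j h
  -- linear relations
  have vanish : ∀ v : EuclideanSpace ℝ (Fin 5), inner ℝ v v = (0:ℝ) → v = 0 := by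
    intro v hv; exact inner_self_eq_zero.1 hv
  have s00 : inner ℝ (m t 0) (m t 0) = (1:ℝ) := by rw [real_inner_self_eq_norm_sq, nn]; norm_num
  have s11 : inner ℝ (m t 1) (m t 1) = (1:ℝ) := by rw [real_inner_self_eq_norm_sq, nn]; norm_num
  have s22 : inner ℝ (m t 2) (m t 2) = (1:ℝ) := by rw [real_inner_self_eq_norm_sq, nn]; norm_num
  have s33 : inner ℝ (m t 3) (m t 3) = (1:ℝ) := by rw [real_inner_self_eq_norm_sq, nn]; norm_num
  have s44 : inner ℝ (m t 4) (m t 4) = (1:ℝ) := by rw [real_inner_self_eq_norm_sq, nn]; norm_num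
  have s55 : inner ℝ (m t 5) (m t 5) = (1:ℝ) := by rw [real_inner_self_eq_norm_sq, nn]; norm_num
  have s66 : inner ℝ (m t 6) (m t 6) = (1:ℝ) := by rw [real_inner_self_eq_norm_sq, nn]; norm_num
  have s77 : inner ℝ (m t 7) (m t 7) = (1:ℝ) := by rw [real_inner_self_eq_norm_sq, nn]; norm_num
  have s88 : inner ℝ (m t 8) (m t 8) = (1:ℝ) := by rw [real_inner_self_eq_norm_sq, nn]; norm_num
  have s01 : inner ℝ (m t 0) (m t 1) = (0:ℝ) := by
    rw [kk 0 1 (by simp [inner3, pp, qq] <;> norm_num)]; simp [inner3, pp] <;> norm_num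
  have s02 : inner ℝ (m t 0) (m t 2) = (0:ℝ) := by
    rw [kk 0 2 (by simp [inner3, pp, qq] <;> norm_num)]; simp [inner3, pp] <;> norm_num
  have s12 : inner ℝ (m t 1) (m t 2) = (0:ℝ) := by
    rw [kk 1 2 (by simp [inner3, pp, qq] <;> norm_num)]; simp [inner3, pp] <;> norm_num
  have s45 : inner ℝ (m t 4) (m t 5) = (0:ℝ) := by
    rw [kk 4 5 (by simp [inner3, pp, qq] <;> norm_num)]; simp [inner3, pp] <;> norm_num
  have s46 : inner ℝ (m t 4) (m t 6) = (0:ℝ) := by
    rw [kk 4 6 (by simp [inner3, pp, qq] <;> norm_num)]; simp [inner3, pp] <;> norm_num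
  have s56 : inner ℝ (m t 5) (m t 6) = (0:ℝ) := by
    rw [kk 5 6 (by simp [inner3, pp, qq] <;> norm_num)]; simp [inner3, pp] <;> norm_num
  have s05 : inner ℝ (m t 0) (m t 5) = (0:ℝ) := by
    rw [kk 0 5 (by simp [inner3, pp, qq] <;> norm_num)]; simp [inner3, pp] <;> norm_num
  have s06 : inner ℝ (m t 0) (m t 6) = (0:ℝ) := by
    rw [kk 0 6 (by simp [inner3, pp, qq] <;> norm_num)]; simp [inner3, pp] <;> norm_num
  have s14 : inner ℝ (m t 1) (m t 4) = (0:ℝ) := by
    rw [kk 1 4 (by simp [inner3, pp, qq] <;> norm_num)]; simp [inner3, pp] <;> norm_num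
  have s16 : inner ℝ (m t 1) (m t 6) = (0:ℝ) := by
    rw [kk 1 6 (by simp [inner3, pp, qq] <;> norm_num)]; simp [inner3, pp] <;> norm_num
  have s24 : inner ℝ (m t 2) (m t 4) = (0:ℝ) := by
    rw [kk 2 4 (by simp [inner3, pp, qq] <;> norm_num)]; simp [inner3, pp] <;> norm_num
  have s25 : inner ℝ (m t 2) (m t 5) = (0:ℝ) := by
    rw [kk 2 5 (by simp [inner3, pp, qq] <;> norm_num)]; simp [inner3, pp] <;> norm_num
  have s03 : inner ℝ (m t 0) (m t 3) = (1/3:ℝ) := by
    rw [kk 0 3 (by simp [inner3, pp, qq] <;> norm_num)]; simp [inner3, pp] <;> norm_num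
  have s13 : inner ℝ (m t 1) (m t 3) = (2/3:ℝ) := by
    rw [kk 1 3 (by simp [inner3, pp, qq] <;> norm_num)]; simp [inner3, pp] <;> norm_num
  have s23 : inner ℝ (m t 2) (m t 3) = (2/3:ℝ) := by
    rw [kk 2 3 (by simp [inner3, pp, qq] <;> norm_num)]; simp [inner3, pp] <;> norm_num
  have s47 : inner ℝ (m t 4) (m t 7) = (2/3:ℝ) := by
    rw [kk 4 7 (by simp [inner3, pp, qq] <;> norm_num)]; simp [inner3, pp] <;> norm_num
  have s57 : inner ℝ (m t 5) (m t 7) = (1/3:ℝ) := by
    rw [kk 5 7 (by simp [inner3, pp, qq] <;> norm_num)]; simp [inner3, pp] <;> norm_num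
  have s67 : inner ℝ (m t 6) (m t 7) = (-2/3:ℝ) := by
    rw [kk 6 7 (by simp [inner3, pp, qq] <;> norm_num)]; simp [inner3, pp] <;> norm_num
  have s48 : inner ℝ (m t 4) (m t 8) = (2/3:ℝ) := by
    rw [kk 4 8 (by simp [inner3, pp, qq] <;> norm_num)]; simp [inner3, pp] <;> norm_num
  have s58 : inner ℝ (m t 5) (m t 8) = (-2/3:ℝ) := by
    rw [kk 5 8 (by simp [inner3, pp, qq] <;> norm_num)]; simp [inner3, pp] <;> norm_num
  have s68 : inner ℝ (m t 6) (m t 8) = (1/3:ℝ) := by
    rw [kk 6 8 (by simp [inner3, pp, qq] <;> norm_num)]; simp [inner3, pp] <;> norm_num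
  have s37 : inner ℝ (m t 3) (m t 7) = (0:ℝ) := by
    rw [kk 3 7 (by simp [inner3, pp, qq] <;> norm_num)]; simp [inner3, pp] <;> norm_num
  have s38 : inner ℝ (m t 3) (m t 8) = (0:ℝ) := by
    rw [kk 3 8 (by simp [inner3, pp, qq] <;> norm_num)]; simp [inner3, pp] <;> norm_num
  have e3 : m t 3 = (1/3:ℝ) • m t 0 + (2/3:ℝ) • m t 1 + (2/3:ℝ) • m t 2 := by
    rw [← sub_eq_zero]
    apply vanish
    simp only [inner_sub_left, inner_sub_right, inner_add_left, inner_add_right,
      real_inner_smul_left, real_inner_smul_right,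
      real_inner_comm (m t 0) (m t 3), real_inner_comm (m t 1) (m t 3),
      real_inner_comm (m t 2) (m t 3), real_inner_comm (m t 0) (m t 1),
      real_inner_comm (m t 0) (m t 2), real_inner_comm (m t 1) (m t 2),
      s00, s11, s22, s33, s01, s02, s12, s03, s13, s23]
    norm_num
  have e7 : m t 7 = (2/3:ℝ) • m t 4 + (1/3:ℝ) • m t 5 + (-2/3:ℝ) • m t 6 := by
    rw [← sub_eq_zero]
    apply vanish
    simp only [inner_sub_left, inner_sub_right, inner_add_left, inner_add_right,
      real_inner_smul_left, real_inner_smul_right,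
      real_inner_comm (m t 4) (m t 7), real_inner_comm (m t 5) (m t 7),
      real_inner_comm (m t 6) (m t 7), real_inner_comm (m t 4) (m t 5),
      real_inner_comm (m t 4) (m t 6), real_inner_comm (m t 5) (m t 6),
      s44, s55, s66, s77, s45, s46, s56, s47, s57, s67]
    norm_num
  have e8 : m t 8 = (2/3:ℝ) • m t 4 + (-2/3:ℝ) • m t 5 + (1/3:ℝ) • m t 6 := by
    rw [← sub_eq_zero]
    apply vanish
    simp only [inner_sub_left, inner_sub_right, inner_add_left, inner_add_right,
      real_inner_smul_left, real_inner_smul_right,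
      real_inner_comm (m t 4) (m t 8), real_inner_comm (m t 5) (m t 8),
      real_inner_comm (m t 6) (m t 8), real_inner_comm (m t 4) (m t 5),
      real_inner_comm (m t 4) (m t 6), real_inner_comm (m t 5) (m t 6),
      s44, s55, s66, s88, s45, s46, s56, s48, s58, s68]
    norm_num
  rw [e3, e7] at s37
  rw [e3, e8] at s38
  simp only [inner_add_left, inner_add_right, real_inner_smul_left, real_inner_smul_right,
    s05, s06, s14, s16, s24, s25, hz] at s37 s38
  have z15 : inner ℝ (m t 1) (m t 5) = (0:ℝ) := by linarith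
  have z26 : inner ℝ (m t 2) (m t 6) = (0:ℝ) := by linarith
  -- six orthonormal vectors in a five-dimensional space
  let w : Fin 6 → EuclideanSpace ℝ (Fin 5) := ![m t 0, m t 1, m t 2, m t 4, m t 5, m t 6]
  have hw : Orthonormal ℝ w := by
    rw [orthonormal_iff_ite]
    intro i j
    fin_cases i <;> fin_cases j <;>
      simp [w, nn, s01, s02, s12, s45, s46, s56, s05, s06, s14, s16, s24, s25, hz, z15, z26,
        real_inner_comm (m t 0) (m t 1), real_inner_comm (m t 0) (m t 2),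
        real_inner_comm (m t 1) (m t 2), real_inner_comm (m t 4) (m t 5),
        real_inner_comm (m t 4) (m t 6), real_inner_comm (m t 5) (m t 6),
        real_inner_comm (m t 0) (m t 4), real_inner_comm (m t 0) (m t 5),
        real_inner_comm (m t 0) (m t 6), real_inner_comm (m t 1) (m t 4),
        real_inner_comm (m t 1) (m t 5), real_inner_comm (m t 1) (m t 6),
        real_inner_comm (m t 2) (m t 4), real_inner_comm (m t 2) (m t 5),
        real_inner_comm (m t 2) (m t 6)]
  have := hw.linearIndependent.fintype_card_le_finrank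
  simp at this

end Pool.Agent.S10340
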