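-- Counterexample: six disjoint double stars, seven edge classes of size six, maximum degree four.
import Pool.Statements.S10384

set_option autoImplicit false
open Pool Pool.MP_9beb5c_co

namespace Pool.Agent.S10384

/-- Adjacency inside one double star: centres `0` and `1`, leaves `2,3,4` at `0`
and leaves `5,6,7` at `1`. -/
def adjB (s t : Fin 8) : Bool :=
  (s == 0 && (t == 1 || t == 2 || t == 3 || t == 4)) ||
  (s == 1 && (t == 0 || t == 5 || t == 6 || t == 7)) ||
  (t == 0 && (s == 1 || s == 2 || s == 3 || s == 4)) ||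
  (t == 1 && (s == 0 || s == 5 || s == 6 || s == 7))

theorem adjB_symm : ∀ s t, adjB s t = adjB t s := by decide

theorem adjB_irrefl : ∀ s, adjB s s = false := by decide

/-- Six disjoint double stars. -/
def H : SimpleGraph (Fin 6 × Fin 8) where
  Adj a b := a.1 = b.1 ∧ adjB a.2 b.2 = true
  symm := ⟨fun a b h => ⟨h.1.symm, by rw [adjB_symm]; exact h.2⟩⟩
  loopless := ⟨fun a h => by
    have := h.2
    rw [adjB_irrefl] at this
    exact Bool.noConfusion this⟩

instance : DecidableRel H.Adj := fun a b =>
  inferInstanceAs (Decidable (a.1 = b.1 ∧ adjB a.2 b.2 = true))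

/-- The colouring on ordered pairs. -/
def colF (a b : Fin 6 × Fin 8) : ℕ :=
  if (a.2 = 0 ∧ b.2 = 1) ∨ (a.2 = 1 ∧ b.2 = 0) then 0 else max a.1.val b.1.val + 1

theorem colF_symm (a b : Fin 6 × Fin 8) : colF a b = colF b a := by
  unfold colF
  have h : ((a.2 = 0 ∧ b.2 = 1) ∨ (a.2 = 1 ∧ b.2 = 0)) ↔
      ((b.2 = 0 ∧ a.2 = 1) ∨ (b.2 = 1 ∧ a.2 = 0)) := by tauto
  simp only [h, max_comm]

/-- The colouring on unordered pairs. -/
def col : Sym2 (Fin 6 × Fin 8) → ℕ := Sym2.lift ⟨colF, colF_symm⟩

@[simp] theorem col_mk (a b : Fin 6 × Fin 8) : col s(a, b) = colF a b := rfl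

theorem deg_le (v : Fin 6 × Fin 8) : H.degree v ≤ 4 := by
  have key : ∀ s : Fin 8, (Finset.univ.filter (fun t : Fin 8 => adjB s t = true)).card ≤ 4 := by
    decide
  have hsub : H.neighborFinset v ⊆
      (Finset.univ.filter (fun t : Fin 8 => adjB v.2 t = true)).image (fun t => (v.1, t)) := by
    intro w hw
    rw [SimpleGraph.mem_neighborFinset] at hw
    obtain ⟨h1, h2⟩ := hw
    rw [Finset.mem_image]
    exact ⟨w.2, by simpa using h2, by ext <;> simp [h1]⟩
  calc H.degree v = (H.neighborFinset v).card := rfl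
    _ ≤ _ := Finset.card_le_card hsub
    _ ≤ _ := Finset.card_image_le
    _ ≤ 4 := key v.2

theorem maxDeg_le : H.maxDegree ≤ 4 := by
  apply SimpleGraph.maxDegree_le_of_forall_degree_le
  exact deg_le

/-- The class of the central edges has at least six edges. -/
theorem card_zero : 6 ≤ (H.edgeFinset.filter (fun e => col e = 0)).card := by
  have hsub : (Finset.univ : Finset (Fin 6)).image (fun j => s(((j, 0) : Fin 6 × Fin 8), (j, 1))) ⊆
      H.edgeFinset.filter (fun e => col e = 0) := by
    intro e he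
    rw [Finset.mem_image] at he
    obtain ⟨j, -, rfl⟩ := he
    rw [Finset.mem_filter, SimpleGraph.mem_edgeFinset, SimpleGraph.mem_edgeSet]
    exact ⟨⟨rfl, rfl⟩, rfl⟩
  have hcard : ((Finset.univ : Finset (Fin 6)).image
      (fun j => s(((j, 0) : Fin 6 × Fin 8), (j, 1)))).card = 6 := by
    rw [Finset.card_image_of_injective]
    · simp
    · intro j k h
      simp only [Sym2.eq_iff, Prod.mk.injEq] at h
      rcases h with h | h
      · exact h.1.1
      · exact h.1.1
  exact hcard.symm.le.trans (Finset.card_le_card hsub)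

/-- The six leaf edges in one double star. -/
def leafEdge (j : Fin 6) (t : Fin 6) : Sym2 (Fin 6 × Fin 8) :=
  s((j, if t.val < 3 then 0 else 1), (j, ⟨t.val + 2, by omega⟩))

theorem card_succ (j : Fin 6) :
    6 ≤ (H.edgeFinset.filter (fun e => col e = j.val + 1)).card := by
  have hsub : (Finset.univ : Finset (Fin 6)).image (leafEdge j) ⊆
      H.edgeFinset.filter (fun e => col e = j.val + 1) := by
    intro e he
    rw [Finset.mem_image] at he
    obtain ⟨t, -, rfl⟩ := he
    rw [Finset.mem_filter, SimpleGraph.mem_edgeFinset]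
    revert t j
    unfold leafEdge
    simp only [SimpleGraph.mem_edgeSet, col_mk]
    intro j t
    constructor
    · refine ⟨rfl, ?_⟩
      have key : ∀ t : Fin 6, adjB (if t.val < 3 then 0 else 1) ⟨t.val + 2, by omega⟩ = true := by
        decide
      exact key t
    · unfold colF
      rw [if_neg]
      · simp
      · have key : ∀ t : Fin 6, ¬ (((if t.val < 3 then (0 : Fin 8) else 1) = 0 ∧
            (⟨t.val + 2, by omega⟩ : Fin 8) = 1) ∨
            ((if t.val < 3 then (0 : Fin 8) else 1) = 1 ∧ (⟨t.val + 2, by omega⟩ : Fin 8) = 0)) := by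
          decide
        exact key t
  have hcard : ((Finset.univ : Finset (Fin 6)).image (leafEdge j)).card = 6 := by
    rw [Finset.card_image_of_injective]
    · simp
    · intro t u h
      unfold leafEdge at h
      simp only [Sym2.eq_iff, Prod.mk.injEq, true_and] at h
      revert t u
      decide
  exact hcard.symm.le.trans (Finset.card_le_card hsub)

/-- An edge of colour zero is a central edge. -/
theorem of_col_zero {e : Sym2 (Fin 6 × Fin 8)} (he : e ∈ H.edgeSet) (hc : col e = 0) :
    ∃ j : Fin 6, (j, (0 : Fin 8)) ∈ e ∧ (j, (1 : Fin 8)) ∈ e := by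
  induction e with
  | _ a b =>
    rw [SimpleGraph.mem_edgeSet] at he
    obtain ⟨h1, -⟩ := he
    rw [col_mk] at hc
    unfold colF at hc
    split_ifs at hc with h
    rcases h with ⟨ha, hb⟩ | ⟨ha, hb⟩
    · refine ⟨a.1, ?_, ?_⟩
      · rw [Sym2.mem_iff]; left; ext <;> simp [ha]
      · rw [Sym2.mem_iff]; right; ext <;> simp [hb, h1]
    · refine ⟨a.1, ?_, ?_⟩
      · rw [Sym2.mem_iff]; right; ext <;> simp [hb, h1]
      · rw [Sym2.mem_iff]; left; ext <;> simp [ha]

theorem adjB_centre : ∀ s t : Fin 8, adjB s t = true → s = 0 ∨ s = 1 ∨ t = 0 ∨ t = 1 := by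
  decide

/-- An edge of colour `j + 1` touches one of the centres of the `j`-th double star. -/
theorem of_col_succ {e : Sym2 (Fin 6 × Fin 8)} (he : e ∈ H.edgeSet) (j : Fin 6)
    (hc : col e = j.val + 1) :
    (j, (0 : Fin 8)) ∈ e ∨ (j, (1 : Fin 8)) ∈ e := by
  induction e with
  | _ a b =>
    rw [SimpleGraph.mem_edgeSet] at he
    obtain ⟨h1, h2⟩ := he
    rw [col_mk] at hc
    unfold colF at hc
    split_ifs at hc with h
    have hj : a.1 = j := by
      have : max a.1.val b.1.val = j.val := by omega
      rw [← h1, max_self] at this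
      exact Fin.ext this
    have hj' : b.1 = j := h1 ▸ hj
    rcases adjB_centre _ _ h2 with h | h | h | h
    · left; rw [Sym2.mem_iff]; left; ext <;> simp [h, hj]
    · right; rw [Sym2.mem_iff]; left; ext <;> simp [h, hj]
    · left; rw [Sym2.mem_iff]; right; ext <;> simp [h, hj']
    · right; rw [Sym2.mem_iff]; right; ext <;> simp [h, hj']

/-- The negation of the preceding statement: For every finite simple graph and every partition of its edges into classes, some matching contains at least floor(∣class∣/(max degree + 2)) edges from each class. -/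
theorem result :
    ¬ (∀ (V : Type) [Fintype V] [DecidableEq V] (G : SimpleGraph V) [DecidableRel G.Adj]
      (c : Sym2 V → ℕ),
      ∃ M : Finset (Sym2 V), M ⊆ G.edgeFinset ∧
        (∀ v : V, ∀ e ∈ M, ∀ f ∈ M, v ∈ e → v ∈ f → e = f) ∧
        ∀ i : ℕ, (G.edgeFinset.filter (fun e => c e = i)).card / (G.maxDegree + 2)
          ≤ (M.filter (fun e => c e = i)).card) := by
  intro hall
  obtain ⟨M, hM, hmat, hbig⟩ := hall (Fin 6 × Fin 8) H col
  have hne : ∀ i : ℕ, 6 ≤ (H.edgeFinset.filter (fun e => col e = i)).card →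
      ∃ e ∈ M, col e = i := by
    intro i hi
    have h1 := hbig i
    have h2 : 1 ≤ (H.edgeFinset.filter (fun e => col e = i)).card / (H.maxDegree + 2) := by
      rw [Nat.one_le_div_iff (by omega)]
      have := maxDeg_le
      omega
    have h3 : 0 < (M.filter (fun e => col e = i)).card := by omega
    obtain ⟨e, he⟩ := Finset.card_pos.mp h3
    rw [Finset.mem_filter] at he
    exact ⟨e, he.1, he.2⟩
  obtain ⟨e, heM, he0⟩ := hne 0 card_zero
  have heE : e ∈ H.edgeSet := SimpleGraph.mem_edgeFinset.mp (hM heM)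
  obtain ⟨j, hj0, hj1⟩ := of_col_zero heE he0
  obtain ⟨f, hfM, hfj⟩ := hne (j.val + 1) (card_succ j)
  have hfE : f ∈ H.edgeSet := SimpleGraph.mem_edgeFinset.mp (hM hfM)
  have hef : e = f := by
    rcases of_col_succ hfE j hfj with h | h
    · exact hmat _ e heM f hfM hj0 h
    · exact hmat _ e heM f hfM hj1 h
  rw [← hef, he0] at hfj
  omega

end Pool.Agent.S10384
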