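import Pool.Statements.S10390
import Mathlib

set_option autoImplicit false
open Pool Pool.MP_9c2e29_co

namespace Pool.Agent.S10390

/-- Position of a vertex on the six-cycle `1,3,2,4,6,7`; the vertices `0` and `5` are not on it. -/
def cyc : Fin 8 → ℕ := ![10, 0, 2, 1, 3, 20, 4, 5]

/-- Non-adjacent pairs: consecutive vertices of the six-cycle. -/
def nadj (u v : Fin 8) : Bool :=
  cyc u + 1 == cyc v || cyc v + 1 == cyc u || (cyc u == 0 && cyc v == 5) ||
    (cyc v == 0 && cyc u == 5)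

/-- The complete graph on eight vertices minus a six-cycle. -/
def G : SimpleGraph (Fin 8) where
  Adj u v := u ≠ v ∧ nadj u v = false
  symm := ⟨by decide⟩
  loopless := ⟨by decide⟩

instance : DecidableRel G.Adj := fun u v => inferInstanceAs (Decidable (u ≠ v ∧ nadj u v = false))

def X : Fin 8 → ℤ := ![0, 0, 5, 2, 3, 3, 1, 5]
def Y : Fin 8 → ℤ := ![0, 4, 1, 3, 1, 6, 3, 6]

def dxt : Fin 8 → Fin 8 → ℤ :=
  ![![0, 0, -2, 2, 3, 3, 1, -2],
    ![0, 0, -2, 0, -4, 3, 1, 0],
    ![0, 0, 0, 0, 0, -2, 3, 0],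
    ![0, 0, 0, 0, 1, 1, -1, 3],
    ![0, 0, 0, 0, 0, 0, 0, 2],
    ![0, 0, 0, 0, 0, 0, -2, 2],
    ![0, 0, 0, 0, 0, 0, 0, 0],
    ![0, 0, 0, 0, 0, 0, 0, 0]]

def dyt : Fin 8 → Fin 8 → ℤ :=
  ![![0, -3, 1, 3, 1, -1, 3, -1],
    ![0, 0, -3, 0, -3, 2, -1, 0],
    ![0, 0, 0, 0, 0, -2, 2, -2],
    ![0, 0, 0, 0, -2, 3, 0, 3],
    ![0, 0, 0, 0, 0, -2, 0, 5],
    ![0, 0, 0, 0, 0, 0, -3, 0],
    ![0, 0, 0, 0, 0, 0, 0, 0],
    ![0, 0, 0, 0, 0, 0, 0, 0]]

/-- The segment from `(ax, ay)` in direction `(dx, dy)` lies on one side of the line through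
`(cx, cy)` in direction `(ex, ey)`. -/
def side (ax ay dx dy cx cy ex ey : ℤ) : Bool :=
  let fa := ex * (ay - cy) - ey * (ax - cx)
  let fb := ex * (ay + dy - cy) - ey * (ax + dx - cx)
  (decide (0 ≤ fa) && decide (0 ≤ fb) && decide (0 < fa + fb)) ||
    (decide (fa ≤ 0) && decide (fb ≤ 0) && decide (fa + fb < 0))

lemma side_false {ax ay dx dy cx cy ex ey : ℤ} {s t : ℝ} (hs0 : 0 < s) (hs1 : s < 1)
    (h1 : (ax : ℝ) + s * dx = cx + t * ex) (h2 : (ay : ℝ) + s * dy = cy + t * ey)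
    (h : side ax ay dx dy cx cy ex ey = true) : False := by
  simp only [side, Bool.or_eq_true, Bool.and_eq_true, decide_eq_true_eq] at h
  have key : (1 - s) * ((ex : ℝ) * (ay - cy) - ey * (ax - cx)) +
      s * ((ex : ℝ) * (ay + dy - cy) - ey * (ax + dx - cx)) = 0 := by
    have e1 : (ay : ℝ) + s * dy - cy = t * ey := by linarith
    have e2 : (ax : ℝ) + s * dx - cx = t * ex := by linarith
    have : (1 - s) * ((ex : ℝ) * (ay - cy) - ey * (ax - cx)) +
      s * ((ex : ℝ) * (ay + dy - cy) - ey * (ax + dx - cx)) =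
        ex * (ay + s * dy - cy) - ey * (ax + s * dx - cx) := by ring
    rw [this, e1, e2]
    ring
  rcases h with ⟨⟨ha, hb⟩, hc⟩ | ⟨⟨ha, hb⟩, hc⟩
  · have ha' : (0 : ℝ) ≤ (ex : ℝ) * (ay - cy) - ey * (ax - cx) := by exact_mod_cast ha
    have hb' : (0 : ℝ) ≤ (ex : ℝ) * (ay + dy - cy) - ey * (ax + dx - cx) := by exact_mod_cast hb
    have hc' : (0 : ℝ) < ((ex : ℝ) * (ay - cy) - ey * (ax - cx)) +
        ((ex : ℝ) * (ay + dy - cy) - ey * (ax + dx - cx)) := by exact_mod_cast hc
    rcases ha'.lt_or_eq with h | h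
    · have := mul_pos (sub_pos.2 hs1) h
      have := mul_nonneg hs0.le hb'
      linarith
    · rw [← h] at hc'
      have hb2 : (0 : ℝ) < (ex : ℝ) * (ay + dy - cy) - ey * (ax + dx - cx) := by linarith
      have := mul_pos hs0 hb2
      have := mul_nonneg (sub_pos.2 hs1).le ha'
      linarith
  · have ha' : (ex : ℝ) * (ay - cy) - ey * (ax - cx) ≤ 0 := by exact_mod_cast ha
    have hb' : (ex : ℝ) * (ay + dy - cy) - ey * (ax + dx - cx) ≤ 0 := by exact_mod_cast hb
    have hc' : ((ex : ℝ) * (ay - cy) - ey * (ax - cx)) +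
        ((ex : ℝ) * (ay + dy - cy) - ey * (ax + dx - cx)) < 0 := by exact_mod_cast hc
    rcases ha'.lt_or_eq with h | h
    · have := mul_pos (sub_pos.2 hs1) (neg_pos.2 h)
      have := mul_nonneg hs0.le (neg_nonneg.2 hb')
      linarith
    · rw [h] at hc'
      have hb2 : (ex : ℝ) * (ay + dy - cy) - ey * (ax + dx - cx) < 0 := by linarith
      have := mul_pos hs0 (neg_pos.2 hb2)
      have := mul_nonneg (sub_pos.2 hs1).le (neg_nonneg.2 ha')
      linarith

/-- The range of translations. -/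
def rng : List ℤ := [-2, -1, 0, 1, 2]

lemma mem_rng {m : ℤ} (h1 : -3 < m) (h2 : m < 3) : m ∈ rng := by
  have : m = -2 ∨ m = -1 ∨ m = 0 ∨ m = 1 ∨ m = 2 := by omega
  rcases this with rfl | rfl | rfl | rfl | rfl <;> decide

/-- All pairs of distinct edges are separated. -/
def chkE : Bool :=
  (List.finRange 8).all fun u => (List.finRange 8).all fun v =>
    !(decide (u < v) && !(nadj u v)) ||
    (List.finRange 8).all fun u' => (List.finRange 8).all fun v' =>
      !(decide (u' < v') && !(nadj u' v')) || (decide (u = u') && decide (v = v')) ||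
      rng.all fun m => rng.all fun k =>
        side (X u) (Y u) (dxt u v) (dyt u v) (X u' + 7 * m) (Y u' + 7 * k) (dxt u' v') (dyt u' v')
        || side (X u' + 7 * m) (Y u' + 7 * k) (dxt u' v') (dyt u' v') (X u) (Y u) (dxt u v)
          (dyt u v)

lemma chkE_true : chkE = true := by decide +kernel

/-- The point `(qx, qy)` is not on the closed segment from the origin to `(dx, dy)`. -/
def off (qx qy dx dy : ℤ) : Bool :=
  decide (dx * qy - dy * qx ≠ 0) || decide (qx * dx + qy * dy < 0) ||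
    decide (dx * dx + dy * dy < qx * dx + qy * dy)

lemma off_false {qx qy dx dy : ℤ} {s : ℝ} (hs0 : 0 < s) (hs1 : s < 1)
    (h1 : (qx : ℝ) = s * dx) (h2 : (qy : ℝ) = s * dy) (h : off qx qy dx dy = true) : False := by
  simp only [off, Bool.or_eq_true, decide_eq_true_eq] at h
  rcases h with (h | h) | h
  · apply h
    have : (dx : ℝ) * qy - dy * qx = 0 := by rw [h1, h2]; ring
    exact_mod_cast this
  · have h' : (qx : ℝ) * dx + qy * dy < 0 := by exact_mod_cast h
    rw [h1, h2] at h'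
    have := mul_nonneg hs0.le (add_nonneg (mul_self_nonneg (dx : ℝ)) (mul_self_nonneg (dy : ℝ)))
    linarith
  · have h' : (dx : ℝ) * dx + dy * dy < qx * dx + qy * dy := by exact_mod_cast h
    rw [h1, h2] at h'
    have := mul_nonneg (sub_pos.2 hs1).le
      (add_nonneg (mul_self_nonneg (dx : ℝ)) (mul_self_nonneg (dy : ℝ)))
    linarith

/-- No vertex other than the ends lies on an edge. -/
def chkV : Bool :=
  (List.finRange 8).all fun u => (List.finRange 8).all fun v =>
    !(decide (u < v) && !(nadj u v)) ||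
    (List.finRange 8).all fun w => decide (w = u) || decide (w = v) ||
      rng.all fun m => rng.all fun k =>
        off (X w + 7 * m - X u) (Y w + 7 * k - Y u) (dxt u v) (dyt u v)

lemma chkV_true : chkV = true := by decide +kernel

/-! ### The drawing -/

abbrev T2 : Type := AddCircle (1 : ℝ) × AddCircle (1 : ℝ)

noncomputable def pos (u : Fin 8) : T2 := (((X u : ℝ) / 7 : ℝ), ((Y u : ℝ) / 7 : ℝ))

noncomputable def segf (u v : Fin 8) (t : unitInterval) : T2 :=
  ((((X u : ℝ) + t.1 * dxt u v) / 7 : ℝ), (((Y u : ℝ) + t.1 * dyt u v) / 7 : ℝ))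

lemma segf_cont (u v : Fin 8) : Continuous (segf u v) := by
  unfold segf
  apply Continuous.prodMk
  · exact (AddCircle.continuous_mk' 1).comp (by fun_prop)
  · exact (AddCircle.continuous_mk' 1).comp (by fun_prop)

lemma coe_eq {a b : ℝ} (h : ((a / 7 : ℝ) : AddCircle (1 : ℝ)) = ((b / 7 : ℝ) : AddCircle (1 : ℝ))) :
    ∃ m : ℤ, a = b + 7 * m := by
  have h1 : ((a / 7 - b / 7 : ℝ) : AddCircle (1 : ℝ)) = 0 := by
    rw [AddCircle.coe_sub, h, sub_self]
  rw [AddCircle.coe_eq_zero_iff] at h1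
  obtain ⟨n, hn⟩ := h1
  refine ⟨n, ?_⟩
  simp only [zsmul_eq_mul, mul_one] at hn
  linarith

lemma eq_coe {a b : ℝ} (m : ℤ) (h : a = b + 7 * m) :
    ((a / 7 : ℝ) : AddCircle (1 : ℝ)) = ((b / 7 : ℝ) : AddCircle (1 : ℝ)) := by
  have h1 : ((a / 7 - b / 7 : ℝ) : AddCircle (1 : ℝ)) = 0 := by
    rw [AddCircle.coe_eq_zero_iff]
    refine ⟨m, ?_⟩
    simp only [zsmul_eq_mul, mul_one]
    rw [h]
    ring
  rw [AddCircle.coe_sub] at h1
  exact sub_eq_zero.1 h1

lemma X_bd : ∀ u, 0 ≤ X u ∧ X u ≤ 6 := by decide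
lemma Y_bd : ∀ u, 0 ≤ Y u ∧ Y u ≤ 6 := by decide
lemma XY_inj : ∀ u v, X u = X v → Y u = Y v → u = v := by decide
lemma d_bd : ∀ u v, -5 ≤ dxt u v ∧ dxt u v ≤ 5 ∧ -5 ≤ dyt u v ∧ dyt u v ≤ 5 := by decide
lemma d_ne : ∀ u v, u < v → nadj u v = false → dxt u v ≠ 0 ∨ dyt u v ≠ 0 := by decide
lemma d_end : ∀ u v, u < v → nadj u v = false →
    (X v - X u - dxt u v) % 7 = 0 ∧ (Y v - Y u - dyt u v) % 7 = 0 := by decide

lemma mul_bd {s : ℝ} {d : ℤ} (h0 : 0 ≤ s) (h1 : s ≤ 1) (hd : -5 ≤ d) (hd' : d ≤ 5) :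
    -5 ≤ s * d ∧ s * d ≤ 5 := by
  have e1 : (-5 : ℝ) ≤ d := by exact_mod_cast hd
  have e2 : (d : ℝ) ≤ 5 := by exact_mod_cast hd'
  constructor <;> nlinarith

lemma pos_inj : Function.Injective pos := by
  intro u v h
  simp only [pos, Prod.mk.injEq] at h
  obtain ⟨m, hm⟩ := coe_eq h.1
  obtain ⟨k, hk⟩ := coe_eq h.2
  have hm' : X u = X v + 7 * m := by exact_mod_cast hm
  have hk' : Y u = Y v + 7 * k := by exact_mod_cast hk
  have := X_bd u
  have := X_bd v
  have := Y_bd u
  have := Y_bd v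
  exact XY_inj u v (by omega) (by omega)

lemma segf_zero (u v : Fin 8) : segf u v 0 = pos u := by
  simp [segf, pos]

lemma segf_one (u v : Fin 8) (h : u < v) (h' : nadj u v = false) : segf u v 1 = pos v := by
  obtain ⟨h1, h2⟩ := d_end u v h h'
  obtain ⟨m, hm⟩ := Int.dvd_of_emod_eq_zero h1
  obtain ⟨k, hk⟩ := Int.dvd_of_emod_eq_zero h2
  simp only [segf, pos, Prod.mk.injEq]
  constructor
  · apply eq_coe (-m)
    have : ((X v - X u - dxt u v : ℤ) : ℝ) = ((7 * m : ℤ) : ℝ) := by rw [hm]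
    push_cast at this ⊢
    linarith
  · apply eq_coe (-k)
    have : ((Y v - Y u - dyt u v : ℤ) : ℝ) = ((7 * k : ℤ) : ℝ) := by rw [hk]
    push_cast at this ⊢
    linarith

lemma segf_inj (u v : Fin 8) (h : u < v) (h' : nadj u v = false) :
    Function.Injective (segf u v) := by
  intro s t hst
  simp only [segf, Prod.mk.injEq] at hst
  obtain ⟨m, hm⟩ := coe_eq hst.1
  obtain ⟨k, hk⟩ := coe_eq hst.2
  obtain ⟨b1, b2, b3, b4⟩ := d_bd u v
  have s0 := s.2.1
  have s1 := s.2.2
  have t0 := t.2.1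
  have t1 := t.2.2
  have em : (s.1 - t.1) * dxt u v = 7 * m := by linarith
  have ek : (s.1 - t.1) * dyt u v = 7 * k := by linarith
  have c1 : (-5 : ℝ) ≤ dxt u v := by exact_mod_cast b1
  have c2 : (dxt u v : ℝ) ≤ 5 := by exact_mod_cast b2
  have c3 : (-5 : ℝ) ≤ dyt u v := by exact_mod_cast b3
  have c4 : (dyt u v : ℝ) ≤ 5 := by exact_mod_cast b4
  have hab : |s.1 - t.1| ≤ 1 := by rw [abs_le]; constructor <;> linarith
  have hm0 : m = 0 := by
    have h3 : |(7 : ℝ) * m| ≤ 5 := by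
      rw [← em, abs_mul]
      have : |(dxt u v : ℝ)| ≤ 5 := by rw [abs_le]; constructor <;> linarith
      have := mul_le_mul hab this (abs_nonneg _) zero_le_one
      linarith
    rw [abs_le] at h3
    have h4 : (-1 : ℝ) < m := by linarith
    have h5 : (m : ℝ) < 1 := by linarith
    have h4' : -1 < m := by exact_mod_cast h4
    have h5' : m < 1 := by exact_mod_cast h5
    omega
  have hk0 : k = 0 := by
    have h3 : |(7 : ℝ) * k| ≤ 5 := by
      rw [← ek, abs_mul]
      have : |(dyt u v : ℝ)| ≤ 5 := by rw [abs_le]; constructor <;> linarith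
      have := mul_le_mul hab this (abs_nonneg _) zero_le_one
      linarith
    rw [abs_le] at h3
    have h4 : (-1 : ℝ) < k := by linarith
    have h5 : (k : ℝ) < 1 := by linarith
    have h4' : -1 < k := by exact_mod_cast h4
    have h5' : k < 1 := by exact_mod_cast h5
    omega
  subst hm0 hk0
  simp only [Int.cast_zero, mul_zero] at em ek
  have : s.1 - t.1 = 0 := by
    rcases d_ne u v h h' with hd | hd
    · rcases mul_eq_zero.1 em with h6 | h6
      · exact h6
      · exact absurd (by exact_mod_cast h6) hd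
    · rcases mul_eq_zero.1 ek with h6 | h6
      · exact h6
      · exact absurd (by exact_mod_cast h6) hd
  exact Subtype.ext (by linarith)

lemma int_bd {m : ℤ} {r : ℝ} (h : (7 : ℝ) * m = r) (h1 : -21 < r) (h2 : r < 21) : m ∈ rng := by
  apply mem_rng
  · have : (-3 : ℝ) < m := by linarith
    exact_mod_cast this
  · have : (m : ℝ) < 3 := by linarith
    exact_mod_cast this

lemma chkE_spec (u v u' v' : Fin 8) (h : u < v) (ha : nadj u v = false) (h' : u' < v')
    (ha' : nadj u' v' = false) (hne : ¬ (u = u' ∧ v = v')) (m k : ℤ) (hm : m ∈ rng)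
    (hk : k ∈ rng) :
    side (X u) (Y u) (dxt u v) (dyt u v) (X u' + 7 * m) (Y u' + 7 * k) (dxt u' v') (dyt u' v')
      = true ∨
    side (X u' + 7 * m) (Y u' + 7 * k) (dxt u' v') (dyt u' v') (X u) (Y u) (dxt u v)
          (dyt u v) = true := by
  have h0 := chkE_true
  unfold chkE at h0
  rw [List.all_eq_true] at h0
  have h1 := h0 u (List.mem_finRange u)
  rw [List.all_eq_true] at h1
  have h2 := h1 v (List.mem_finRange v)
  simp only [h, ha, decide_true, Bool.not_false, Bool.and_self, Bool.not_true, Bool.false_or]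
    at h2
  rw [List.all_eq_true] at h2
  have h3 := h2 u' (List.mem_finRange u')
  rw [List.all_eq_true] at h3
  have h4 := h3 v' (List.mem_finRange v')
  have hne' : (decide (u = u') && decide (v = v')) = false := by
    rw [Bool.and_eq_false_iff]
    by_cases hu : u = u'
    · right
      have : v ≠ v' := fun hv => hne ⟨hu, hv⟩
      simp [this]
    · left
      simp [hu]
  simp only [h', ha', hne', decide_true, Bool.not_false, Bool.and_self, Bool.not_true,
    Bool.false_or] at h4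
  rw [List.all_eq_true] at h4
  have h5 := h4 m hm
  rw [List.all_eq_true] at h5
  have h6 := h5 k hk
  rwa [Bool.or_eq_true] at h6

lemma chkV_spec (u v w : Fin 8) (h : u < v) (ha : nadj u v = false) (hwu : w ≠ u) (hwv : w ≠ v)
    (m k : ℤ) (hm : m ∈ rng) (hk : k ∈ rng) :
    off (X w + 7 * m - X u) (Y w + 7 * k - Y u) (dxt u v) (dyt u v) = true := by
  have h0 := chkV_true
  unfold chkV at h0
  rw [List.all_eq_true] at h0
  have h1 := h0 u (List.mem_finRange u)
  rw [List.all_eq_true] at h1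
  have h2 := h1 v (List.mem_finRange v)
  simp only [h, ha, decide_true, Bool.not_false, Bool.and_self, Bool.not_true, Bool.false_or]
    at h2
  rw [List.all_eq_true] at h2
  have h3 := h2 w (List.mem_finRange w)
  simp only [hwu, hwv, decide_false, Bool.false_or] at h3
  rw [List.all_eq_true] at h3
  have h5 := h3 m hm
  rw [List.all_eq_true] at h5
  exact h5 k hk

lemma nocross (u v u' v' : Fin 8) (h : u < v) (ha : nadj u v = false) (h' : u' < v')
    (ha' : nadj u' v' = false) (hne : ¬ (u = u' ∧ v = v')) (s t : unitInterval)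
    (s0 : 0 < s.1) (s1 : s.1 < 1) (t0 : 0 < t.1) (t1 : t.1 < 1) :
    segf u v s ≠ segf u' v' t := by
  intro heq
  simp only [segf, Prod.mk.injEq] at heq
  obtain ⟨m, hm⟩ := coe_eq heq.1
  obtain ⟨k, hk⟩ := coe_eq heq.2
  obtain ⟨b1, b2, b3, b4⟩ := d_bd u v
  obtain ⟨b1', b2', b3', b4'⟩ := d_bd u' v'
  have mb1 := mul_bd s0.le s1.le b1 b2
  have mb2 := mul_bd s0.le s1.le b3 b4
  have mb3 := mul_bd t0.le t1.le b1' b2'
  have mb4 := mul_bd t0.le t1.le b3' b4'
  have x1 : (0 : ℝ) ≤ X u := by exact_mod_cast (X_bd u).1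
  have x2 : (X u : ℝ) ≤ 6 := by exact_mod_cast (X_bd u).2
  have x3 : (0 : ℝ) ≤ X u' := by exact_mod_cast (X_bd u').1
  have x4 : (X u' : ℝ) ≤ 6 := by exact_mod_cast (X_bd u').2
  have y1 : (0 : ℝ) ≤ Y u := by exact_mod_cast (Y_bd u).1
  have y2 : (Y u : ℝ) ≤ 6 := by exact_mod_cast (Y_bd u).2
  have y3 : (0 : ℝ) ≤ Y u' := by exact_mod_cast (Y_bd u').1
  have y4 : (Y u' : ℝ) ≤ 6 := by exact_mod_cast (Y_bd u').2
  have hmr : m ∈ rng := int_bd (r := 7 * m) rfl (by linarith [mb1.1, mb3.2])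
    (by linarith [mb1.2, mb3.1])
  have hkr : k ∈ rng := int_bd (r := 7 * k) rfl (by linarith [mb2.1, mb4.2])
    (by linarith [mb2.2, mb4.1])
  rcases chkE_spec u v u' v' h ha h' ha' hne m k hmr hkr with hc | hc
  · exact side_false (s := s.1) (t := t.1) s0 s1 (by push_cast; linarith)
      (by push_cast; linarith) hc
  · exact side_false (s := t.1) (t := s.1) t0 t1 (by push_cast; linarith)
      (by push_cast; linarith) hc

lemma novertex (u v w : Fin 8) (h : u < v) (ha : nadj u v = false) (s : unitInterval)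
    (s0 : 0 < s.1) (s1 : s.1 < 1) : segf u v s ≠ pos w := by
  intro heq
  by_cases hwu : w = u
  · rw [hwu, ← segf_zero u v] at heq
    have := segf_inj u v h ha heq
    rw [this] at s0
    simp at s0
  by_cases hwv : w = v
  · rw [hwv, ← segf_one u v h ha] at heq
    have := segf_inj u v h ha heq
    rw [this] at s1
    simp at s1
  simp only [segf, pos, Prod.mk.injEq] at heq
  obtain ⟨m, hm⟩ := coe_eq heq.1
  obtain ⟨k, hk⟩ := coe_eq heq.2
  obtain ⟨b1, b2, b3, b4⟩ := d_bd u v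
  have mb1 := mul_bd s0.le s1.le b1 b2
  have mb2 := mul_bd s0.le s1.le b3 b4
  have x1 : (0 : ℝ) ≤ X u := by exact_mod_cast (X_bd u).1
  have x2 : (X u : ℝ) ≤ 6 := by exact_mod_cast (X_bd u).2
  have x3 : (0 : ℝ) ≤ X w := by exact_mod_cast (X_bd w).1
  have x4 : (X w : ℝ) ≤ 6 := by exact_mod_cast (X_bd w).2
  have y1 : (0 : ℝ) ≤ Y u := by exact_mod_cast (Y_bd u).1
  have y2 : (Y u : ℝ) ≤ 6 := by exact_mod_cast (Y_bd u).2
  have y3 : (0 : ℝ) ≤ Y w := by exact_mod_cast (Y_bd w).1
  have y4 : (Y w : ℝ) ≤ 6 := by exact_mod_cast (Y_bd w).2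
  have hmr : m ∈ rng := int_bd (r := 7 * m) rfl (by linarith [mb1.1])
    (by linarith [mb1.2])
  have hkr : k ∈ rng := int_bd (r := 7 * k) rfl (by linarith [mb2.1])
    (by linarith [mb2.2])
  exact off_false (s := s.1) s0 s1 (by push_cast; linarith) (by push_cast; linarith)
    (chkV_spec u v w h ha hwu hwv m k hmr hkr)

noncomputable def gam (u v : Fin 8) : C(unitInterval, T2) :=
  if u < v then ⟨segf u v, segf_cont u v⟩
  else ⟨fun t => segf v u (unitInterval.symm t),
    (segf_cont v u).comp unitInterval.continuous_symm⟩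

lemma nadj_symm : ∀ u v, nadj u v = nadj v u := by decide

lemma gam_cases (u v : Fin 8) (h : G.Adj u v) :
    (u < v ∧ nadj u v = false ∧ ∀ t, gam u v t = segf u v t) ∨
    (v < u ∧ nadj v u = false ∧ ∀ t, gam u v t = segf v u (unitInterval.symm t)) := by
  obtain ⟨hne, hn⟩ := h
  rcases lt_or_gt_of_ne hne with hlt | hlt
  · left
    refine ⟨hlt, hn, fun t => ?_⟩
    simp [gam, hlt]
  · right
    refine ⟨hlt, by rw [← nadj_symm]; exact hn, fun t => ?_⟩
    have : ¬ u < v := not_lt.2 hlt.le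
    simp [gam, this]

lemma symm_pos {t : unitInterval} (h : t.1 < 1) : 0 < (unitInterval.symm t).1 := by
  rw [unitInterval.coe_symm_eq]; linarith

lemma symm_lt {t : unitInterval} (h : 0 < t.1) : (unitInterval.symm t).1 < 1 := by
  rw [unitInterval.coe_symm_eq]; linarith

lemma toroidal : ∃ (p : Fin 8 → AddCircle (1:ℝ) × AddCircle (1:ℝ))
         (γ : Fin 8 → Fin 8 → C(unitInterval, AddCircle (1:ℝ) × AddCircle (1:ℝ))),
         Function.Injective p ∧
         (∀ u v, G.Adj u v → γ u v 0 = p u ∧ γ u v 1 = p v ∧ Function.Injective (γ u v)) ∧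
         (∀ (u v w : Fin 8) (t : unitInterval), G.Adj u v → 0 < (t:ℝ) → (t:ℝ) < 1 →
            γ u v t ≠ p w) ∧
         (∀ (u v u' v' : Fin 8) (s t : unitInterval), G.Adj u v → G.Adj u' v' →
            ¬ ((u = u' ∧ v = v') ∨ (u = v' ∧ v = u')) →
            0 < (s:ℝ) → (s:ℝ) < 1 → 0 < (t:ℝ) → (t:ℝ) < 1 → γ u v s ≠ γ u' v' t) := by
  refine ⟨pos, gam, pos_inj, ?_, ?_, ?_⟩
  · intro u v h
    rcases gam_cases u v h with ⟨h1, h2, h3⟩ | ⟨h1, h2, h3⟩
    · refine ⟨by rw [h3, segf_zero], by rw [h3, segf_one u v h1 h2], ?_⟩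
      intro s t hst
      rw [h3, h3] at hst
      exact segf_inj u v h1 h2 hst
    · refine ⟨by rw [h3, unitInterval.symm_zero, segf_one v u h1 h2],
        by rw [h3, unitInterval.symm_one, segf_zero], ?_⟩
      intro s t hst
      rw [h3, h3] at hst
      have := congrArg unitInterval.symm (segf_inj v u h1 h2 hst)
      simpa using this
  · intro u v w t h t0 t1
    rcases gam_cases u v h with ⟨h1, h2, h3⟩ | ⟨h1, h2, h3⟩
    · rw [h3]
      exact novertex u v w h1 h2 t t0 t1
    · rw [h3]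
      exact novertex v u w h1 h2 _ (symm_pos t1) (symm_lt t0)
  · intro u v u' v' s t h h' hne s0 s1 t0 t1
    rw [not_or] at hne
    rcases gam_cases u v h with ⟨h1, h2, h3⟩ | ⟨h1, h2, h3⟩ <;>
      rcases gam_cases u' v' h' with ⟨h1', h2', h3'⟩ | ⟨h1', h2', h3'⟩ <;> rw [h3, h3']
    · exact nocross u v u' v' h1 h2 h1' h2' hne.1 s t s0 s1 t0 t1
    · exact nocross u v v' u' h1 h2 h1' h2' hne.2 s _ s0 s1 (symm_pos t1) (symm_lt t0)
    · exact nocross v u u' v' h1 h2 h1' h2' (fun hh => hne.2 ⟨hh.2, hh.1⟩) _ t (symm_pos s1)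
        (symm_lt s0) t0 t1
    · exact nocross v u v' u' h1 h2 h1' h2' (fun hh => hne.1 ⟨hh.2, hh.1⟩) _ _ (symm_pos s1)
        (symm_lt s0) (symm_pos t1) (symm_lt t0)

/-! ### The two colourings -/

/-- First colouring: classes `{1,3}`, `{2,4}`, `{6,7}`, `{0}`, `{5}`. -/
def c1 : Fin 8 → Fin 5 := ![3, 0, 1, 0, 1, 4, 2, 2]
/-- Second colouring: classes `{2,3}`, `{4,6}`, `{1,7}`, `{0}`, `{5}`. -/
def c2 : Fin 8 → Fin 5 := ![3, 2, 0, 0, 1, 4, 1, 2]

lemma c1_proper : ∀ u v, G.Adj u v → c1 u ≠ c1 v := by decide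
lemma c2_proper : ∀ u v, G.Adj u v → c2 u ≠ c2 v := by decide

lemma conn : ∀ u v, c1 u ≠ c1 v → G.Adj u v ∨ ∃ w w', G.Adj u w ∧ G.Adj w w' ∧ G.Adj w' v ∧
    c1 w = c1 v ∧ c1 w' = c1 u := by decide

/-- `c` has the same colour classes as `c1`. -/
def Same (c : Fin 8 → Fin 5) : Prop := ∀ u v, c u = c v ↔ c1 u = c1 v

/-- The subgraph of two colours. -/
def K (c : Fin 8 → Fin 5) (a b : Fin 5) : SimpleGraph (Fin 8) :=
  SimpleGraph.fromRel (fun y z => G.Adj y z ∧ (c y = a ∨ c y = b) ∧ (c z = a ∨ c z = b))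

lemma K_adj {c : Fin 8 → Fin 5} {a b : Fin 5} {y z : Fin 8} (h : G.Adj y z)
    (hy : c y = a ∨ c y = b) (hz : c z = a ∨ c z = b) : (K c a b).Adj y z := by
  unfold K
  rw [SimpleGraph.fromRel_adj]
  exact ⟨h.ne, Or.inl ⟨h, hy, hz⟩⟩

lemma reach_ne {c : Fin 8 → Fin 5} (hc : Same c) {a b : Fin 5} {u v : Fin 8}
    (hu : c u = a ∨ c u = b) (hv : c v = a ∨ c v = b) (hne : c u ≠ c v) :
    (K c a b).Reachable u v := by
  have h1 : c1 u ≠ c1 v := fun h => hne ((hc u v).2 h)
  rcases conn u v h1 with h | ⟨w, w', h2, h3, h4, h5, h6⟩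
  · exact (K_adj h hu hv).reachable
  · have hw : c w = a ∨ c w = b := by rw [(hc w v).2 h5]; exact hv
    have hw' : c w' = a ∨ c w' = b := by rw [(hc w' u).2 h6]; exact hu
    exact (K_adj h2 hu hw).reachable.trans
      ((K_adj h3 hw hw').reachable.trans (K_adj h4 hw' hv).reachable)

/-- A vertex in each class. -/
def rep : Fin 5 → Fin 8 := ![1, 2, 6, 0, 5]

lemma surj {c : Fin 8 → Fin 5} (hc : Same c) : Function.Surjective c := by
  have hrep : ∀ i j, c1 (rep i) = c1 (rep j) → i = j := by decide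
  have hinj : Function.Injective (c ∘ rep) := by
    intro i j hij
    exact hrep i j ((hc (rep i) (rep j)).1 hij)
  have hs := Finite.injective_iff_surjective.1 hinj
  intro b
  obtain ⟨i, hi⟩ := hs b
  exact ⟨rep i, hi⟩

lemma reach {c : Fin 8 → Fin 5} (hc : Same c) {a b : Fin 5} (hab : a ≠ b) {u v : Fin 8}
    (hu : c u = a ∨ c u = b) (hv : c v = a ∨ c v = b) : (K c a b).Reachable u v := by
  by_cases hne : c u = c v
  · rcases hu with hu | hu
    · obtain ⟨w, hw⟩ := surj hc b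
      have h1 : c u ≠ c w := by rw [hu, hw]; exact hab
      have h2 : c w ≠ c v := by rw [← hne]; exact h1.symm
      exact (reach_ne hc (Or.inl hu) (Or.inr hw) h1).trans
        (reach_ne hc (Or.inr hw) hv h2)
    · obtain ⟨w, hw⟩ := surj hc a
      have h1 : c u ≠ c w := by rw [hu, hw]; exact hab.symm
      have h2 : c w ≠ c v := by rw [← hne]; exact h1.symm
      exact (reach_ne hc (Or.inr hu) (Or.inl hw) h1).trans
        (reach_ne hc (Or.inl hw) hv h2)
  · exact reach_ne hc hu hv hne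

lemma reach_color {c : Fin 8 → Fin 5} {a b : Fin 5} {x v : Fin 8}
    (h : (K c a b).Reachable x v) (hx : ¬ (c x = a ∨ c x = b)) : x = v := by
  obtain ⟨w⟩ := h
  cases w with
  | nil => rfl
  | cons h' _ =>
    exfalso
    unfold K at h'
    rw [SimpleGraph.fromRel_adj] at h'
    rcases h'.2 with h2 | h2
    · exact hx h2.2.1
    · exact hx h2.2.2

lemma step {c c' : Fin 8 → Fin 5} (hc : Same c) (a b : Fin 5) (x : Fin 8)
    (h : ∀ v : Fin 8, ((K c a b).Reachable x v → c' v = Equiv.swap a b (c v)) ∧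
      (¬ (K c a b).Reachable x v → c' v = c v)) : Same c' := by
  have hcase : (∀ v, c' v = c v) ∨ (∀ v, c' v = Equiv.swap a b (c v)) := by
    by_cases hab : a = b
    · left
      intro v
      by_cases hr : (K c a b).Reachable x v
      · rw [(h v).1 hr, hab, Equiv.swap_self]
        rfl
      · exact (h v).2 hr
    by_cases hx : c x = a ∨ c x = b
    · right
      intro v
      by_cases hv : c v = a ∨ c v = b
      · exact (h v).1 (reach hc hab hx hv)
      · rw [not_or] at hv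
        have hsw : Equiv.swap a b (c v) = c v := Equiv.swap_apply_of_ne_of_ne hv.1 hv.2
        by_cases hr : (K c a b).Reachable x v
        · exact (h v).1 hr
        · rw [(h v).2 hr, hsw]
    · left
      intro v
      by_cases hr : (K c a b).Reachable x v
      · have := reach_color hr hx
        subst this
        rw [(h x).1 hr]
        rw [not_or] at hx
        exact Equiv.swap_apply_of_ne_of_ne hx.1 hx.2
      · exact (h v).2 hr
  intro u v
  rcases hcase with h1 | h1
  · rw [h1, h1]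
    exact hc u v
  · rw [h1, h1, (Equiv.swap a b).injective.eq_iff]
    exact hc u v

/-- The negation of the preceding statement: For every finite graph that embeds in the torus, any two proper 5-colorings can be transformed into each other by a finite sequence of Kempe chain swaps (swapping two colors on one connected two-colored component). -/
theorem result :
    ¬ (∀ (V : Type) [Fintype V] (G : SimpleGraph V),
      (∃ (p : V → AddCircle (1:ℝ) × AddCircle (1:ℝ))
         (γ : V → V → C(unitInterval, AddCircle (1:ℝ) × AddCircle (1:ℝ))),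
         Function.Injective p ∧
         (∀ u v, G.Adj u v → γ u v 0 = p u ∧ γ u v 1 = p v ∧ Function.Injective (γ u v)) ∧
         (∀ (u v w : V) (t : unitInterval), G.Adj u v → 0 < (t:ℝ) → (t:ℝ) < 1 →
            γ u v t ≠ p w) ∧
         (∀ (u v u' v' : V) (s t : unitInterval), G.Adj u v → G.Adj u' v' →
            ¬ ((u = u' ∧ v = v') ∨ (u = v' ∧ v = u')) →
            0 < (s:ℝ) → (s:ℝ) < 1 → 0 < (t:ℝ) → (t:ℝ) < 1 → γ u v s ≠ γ u' v' t)) →
      ∀ c₁ c₂ : G.Coloring (Fin 5),
        Relation.ReflTransGen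
          (fun c c' : V → Fin 5 => ∃ (a b : Fin 5) (x : V), ∀ v : V,
            ((SimpleGraph.fromRel (fun y z => G.Adj y z ∧ (c y = a ∨ c y = b) ∧
                (c z = a ∨ c z = b))).Reachable x v → c' v = Equiv.swap a b (c v)) ∧
            (¬ (SimpleGraph.fromRel (fun y z => G.Adj y z ∧ (c y = a ∨ c y = b) ∧
                (c z = a ∨ c z = b))).Reachable x v → c' v = c v))
          (⇑c₁) (⇑c₂)) := by
  intro H
  have h := H (Fin 8) G toroidal (SimpleGraph.Coloring.mk c1 (fun {u v} huv => c1_proper u v huv))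
    (SimpleGraph.Coloring.mk c2 (fun {u v} huv => c2_proper u v huv))
  have hsame : ∀ c : Fin 8 → Fin 5, Relation.ReflTransGen
          (fun c c' : Fin 8 → Fin 5 => ∃ (a b : Fin 5) (x : Fin 8), ∀ v : Fin 8,
            ((SimpleGraph.fromRel (fun y z => G.Adj y z ∧ (c y = a ∨ c y = b) ∧
                (c z = a ∨ c z = b))).Reachable x v → c' v = Equiv.swap a b (c v)) ∧
            (¬ (SimpleGraph.fromRel (fun y z => G.Adj y z ∧ (c y = a ∨ c y = b) ∧
                (c z = a ∨ c z = b))).Reachable x v → c' v = c v)) c1 c → Same c := by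
    intro c hc
    induction hc with
    | refl => exact fun u v => Iff.rfl
    | tail _ hstep ih =>
      obtain ⟨a, b, x, hx⟩ := hstep
      exact step ih a b x hx
  have h2 := hsame c2 h
  have h3 := (h2 1 7).1 (by decide)
  revert h3
  decide

end Pool.Agent.S10390
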