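import Pool.Statements.S10425
import Pool.Agent.H511R3.HLCount

set_option autoImplicit false
open Pool Pool.MP_9e1b23_co

namespace Pool.Agent.S10425

open Finset Pool.Agent.H511R3

/-- Vertices of the spherically symmetric tree with branching numbers `16, 1, 19`. -/
abbrev V2 : Type := Unit ⊕ (Fin 16 ⊕ (Fin 16 ⊕ (Fin 16 × Fin 19)))

/-- Its adjacency. -/
def R2 : V2 → V2 → Bool
  | Sum.inl _, Sum.inr (Sum.inl _) => true
  | Sum.inr (Sum.inl _), Sum.inl _ => true
  | Sum.inr (Sum.inl i), Sum.inr (Sum.inr (Sum.inl j)) => decide (i = j)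
  | Sum.inr (Sum.inr (Sum.inl i)), Sum.inr (Sum.inl j) => decide (i = j)
  | Sum.inr (Sum.inr (Sum.inl i)), Sum.inr (Sum.inr (Sum.inr j)) => decide (i = j.1)
  | Sum.inr (Sum.inr (Sum.inr i)), Sum.inr (Sum.inr (Sum.inl j)) => decide (i.1 = j)
  | _, _ => false

lemma R2_symm (x y : V2) : R2 x y = R2 y x := by
  rcases x with x | x | x | x <;> rcases y with y | y | y | y <;> simp [R2, eq_comm]

def AA (x y : V2) : ℕ := if R2 x y = true then 1 else 0

/-- Number of walks. -/
def ww : ℕ → V2 → ℕ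
  | 0, _ => 1
  | k + 1, x => ∑ y, AA x y * ww k y

def vec : ℕ → ℕ × ℕ × ℕ × ℕ
  | 0 => (1, 1, 1, 1)
  | k + 1 => (16 * (vec k).2.1, (vec k).1 + (vec k).2.2.1,
      (vec k).2.1 + 19 * (vec k).2.2.2, (vec k).2.2.1)

def val (v : ℕ × ℕ × ℕ × ℕ) : V2 → ℕ
  | Sum.inl _ => v.1
  | Sum.inr (Sum.inl _) => v.2.1
  | Sum.inr (Sum.inr (Sum.inl _)) => v.2.2.1
  | Sum.inr (Sum.inr (Sum.inr _)) => v.2.2.2

lemma ww_eq : ∀ (k : ℕ) (x : V2), ww k x = val (vec k) x
  | 0, x => by rcases x with x | x | x | x <;> rfl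
  | k + 1, x => by
    unfold ww
    simp_rw [ww_eq k]
    rcases x with x | x | x | x
    · simp [AA, R2, val, vec, Fintype.sum_sum_type, Fintype.sum_prod_type]
    · simp [AA, R2, val, vec, Fintype.sum_sum_type, Fintype.sum_prod_type]
    · simp only [AA, R2, val, vec, Fintype.sum_sum_type, Fintype.sum_prod_type]
      rw [Finset.sum_comm (s := (univ : Finset (Fin 16))) (t := (univ : Finset (Fin 19)))]
      simp
    · simp [AA, R2, val, vec, Fintype.sum_sum_type, Fintype.sum_prod_type]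

lemma sum_fin_succ {V : Type} [Fintype V] (n : ℕ) (g : (Fin (n + 1) → V) → ℕ) :
    ∑ f : Fin (n + 1) → V, g f = ∑ x : V, ∑ f : Fin n → V, g (Fin.cons x f) := by
  rw [← (Fin.consEquiv (fun _ : Fin (n + 1) => V)).sum_comp, Fintype.sum_prod_type]
  rfl

/-- The tree `E7`. -/
def E7 : SimpleGraph (Fin 7) :=
  SimpleGraph.fromRel (fun i j => (i, j) ∈ ([(0, 1), (0, 2), (2, 3), (0, 4), (4, 5), (5, 6)] :
    List (Fin 7 × Fin 7)))

instance : DecidableRel E7.Adj := fun a b => by unfold E7; infer_instance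

lemma cnt_E7 : Cnt E7 (fun x y => R2 x y = true) = 3279168 := by
  have h1 : Cnt E7 (fun x y => R2 x y = true) = ∑ f : Fin 7 → V2,
      AA (f 0) (f 1) * (AA (f 0) (f 2) * AA (f 2) (f 3)) *
        (AA (f 0) (f 4) * (AA (f 4) (f 5) * AA (f 5) (f 6))) := by
    classical
    unfold Cnt
    rw [Nat.card_eq_fintype_card, Fintype.card_subtype, card_filter]
    apply sum_congr rfl
    intro f _
    have : (∀ u v, E7.Adj u v → R2 (f u) (f v) = true) ↔
        (R2 (f 0) (f 1) = true ∧ R2 (f 0) (f 2) = true ∧ R2 (f 2) (f 3) = true ∧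
          R2 (f 0) (f 4) = true ∧ R2 (f 4) (f 5) = true ∧ R2 (f 5) (f 6) = true) := by
      constructor
      · intro h
        exact ⟨h 0 1 (by decide), h 0 2 (by decide), h 2 3 (by decide), h 0 4 (by decide),
          h 4 5 (by decide), h 5 6 (by decide)⟩
      · rintro ⟨h1, h2, h3, h4, h5, h6⟩ u v huv
        have huv' := huv.2
        simp only [List.mem_cons, Prod.mk.injEq, List.not_mem_nil, or_false] at huv'
        rcases huv' with (⟨rfl, rfl⟩ | ⟨rfl, rfl⟩ | ⟨rfl, rfl⟩ | ⟨rfl, rfl⟩ | ⟨rfl, rfl⟩ |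
          ⟨rfl, rfl⟩) | (⟨rfl, rfl⟩ | ⟨rfl, rfl⟩ | ⟨rfl, rfl⟩ | ⟨rfl, rfl⟩ | ⟨rfl, rfl⟩ |
          ⟨rfl, rfl⟩)
        · exact h1
        · exact h2
        · exact h3
        · exact h4
        · exact h5
        · exact h6
        · rw [R2_symm]; exact h1
        · rw [R2_symm]; exact h2
        · rw [R2_symm]; exact h3
        · rw [R2_symm]; exact h4
        · rw [R2_symm]; exact h5
        · rw [R2_symm]; exact h6
    rw [if_congr this rfl rfl]
    unfold AA
    generalize R2 (f 0) (f 1) = b1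
    generalize R2 (f 0) (f 2) = b2
    generalize R2 (f 2) (f 3) = b3
    generalize R2 (f 0) (f 4) = b4
    generalize R2 (f 4) (f 5) = b5
    generalize R2 (f 5) (f 6) = b6
    cases b1 <;> cases b2 <;> cases b3 <;> cases b4 <;> cases b5 <;> cases b6 <;> simp
  have h2 : (∑ f : Fin 7 → V2,
      AA (f 0) (f 1) * (AA (f 0) (f 2) * AA (f 2) (f 3)) *
        (AA (f 0) (f 4) * (AA (f 4) (f 5) * AA (f 5) (f 6))))
      = ∑ x0, ∑ x1, ∑ x2, ∑ x3, ∑ x4, ∑ x5, ∑ x6,
        AA x0 x1 * (AA x0 x2 * AA x2 x3) * (AA x0 x4 * (AA x4 x5 * AA x5 x6)) := by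
    simp_rw [sum_fin_succ]
    simp only [Finset.univ_unique, sum_singleton]
    rfl
  have h3 : (∑ x0, ∑ x1, ∑ x2, ∑ x3, ∑ x4, ∑ x5, ∑ x6,
        AA x0 x1 * (AA x0 x2 * AA x2 x3) * (AA x0 x4 * (AA x4 x5 * AA x5 x6)))
      = ∑ x0, ww 1 x0 * ww 2 x0 * ww 3 x0 := by
    apply sum_congr rfl
    intro x0 _
    simp only [← mul_sum, ← sum_mul]
    simp only [ww, mul_one]
  rw [h1, h2, h3]
  simp_rw [ww_eq]
  have v1 : vec 1 = (16, 2, 20, 1) := by decide
  have v2 : vec 2 = (32, 36, 21, 20) := by decide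
  have v3 : vec 3 = (576, 53, 416, 21) := by decide
  rw [v1, v2, v3]
  simp only [Fintype.sum_sum_type, Fintype.sum_prod_type, val, sum_const, card_univ,
    Fintype.card_fin, smul_eq_mul, Fintype.card_unit]
  norm_num

lemma path_list : ∀ u v : Fin 7, u.val + 1 = v.val ∨ v.val + 1 = u.val →
    (u, v) ∈ ([(0, 1), (1, 2), (2, 3), (3, 4), (4, 5), (5, 6)] : List (Fin 7 × Fin 7)) ∨
    (v, u) ∈ ([(0, 1), (1, 2), (2, 3), (3, 4), (4, 5), (5, 6)] : List (Fin 7 × Fin 7)) := by
  decide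

lemma cnt_P7 : Cnt (SimpleGraph.pathGraph 7) (fun x y => R2 x y = true) = 3279680 := by
  have h1 : Cnt (SimpleGraph.pathGraph 7) (fun x y => R2 x y = true) = ∑ f : Fin 7 → V2,
      (AA (f 0) (f 1) * (AA (f 1) (f 2) * (AA (f 2) (f 3) *
        (AA (f 3) (f 4) * (AA (f 4) (f 5) * AA (f 5) (f 6)))))) := by
    classical
    unfold Cnt
    rw [Nat.card_eq_fintype_card, Fintype.card_subtype, card_filter]
    apply sum_congr rfl
    intro f _
    have : (∀ u v, (SimpleGraph.pathGraph 7).Adj u v → R2 (f u) (f v) = true) ↔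
        (R2 (f 0) (f 1) = true ∧ R2 (f 1) (f 2) = true ∧ R2 (f 2) (f 3) = true ∧
          R2 (f 3) (f 4) = true ∧ R2 (f 4) (f 5) = true ∧ R2 (f 5) (f 6) = true) := by
      simp only [SimpleGraph.pathGraph_adj]
      constructor
      · intro h
        exact ⟨h 0 1 (by decide), h 1 2 (by decide), h 2 3 (by decide), h 3 4 (by decide),
          h 4 5 (by decide), h 5 6 (by decide)⟩
      · rintro ⟨h1, h2, h3, h4, h5, h6⟩ u v huv
        have huv' := path_list u v huv
        simp only [List.mem_cons, Prod.mk.injEq, List.not_mem_nil, or_false] at huv'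
        rcases huv' with (⟨rfl, rfl⟩ | ⟨rfl, rfl⟩ | ⟨rfl, rfl⟩ | ⟨rfl, rfl⟩ | ⟨rfl, rfl⟩ |
          ⟨rfl, rfl⟩) | (⟨rfl, rfl⟩ | ⟨rfl, rfl⟩ | ⟨rfl, rfl⟩ | ⟨rfl, rfl⟩ | ⟨rfl, rfl⟩ |
          ⟨rfl, rfl⟩)
        · exact h1
        · exact h2
        · exact h3
        · exact h4
        · exact h5
        · exact h6
        · rw [R2_symm]; exact h1
        · rw [R2_symm]; exact h2
        · rw [R2_symm]; exact h3
        · rw [R2_symm]; exact h4
        · rw [R2_symm]; exact h5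
        · rw [R2_symm]; exact h6
    rw [if_congr this rfl rfl]
    unfold AA
    generalize R2 (f 0) (f 1) = b1
    generalize R2 (f 1) (f 2) = b2
    generalize R2 (f 2) (f 3) = b3
    generalize R2 (f 3) (f 4) = b4
    generalize R2 (f 4) (f 5) = b5
    generalize R2 (f 5) (f 6) = b6
    cases b1 <;> cases b2 <;> cases b3 <;> cases b4 <;> cases b5 <;> cases b6 <;> simp
  have h2 : (∑ f : Fin 7 → V2,
      (AA (f 0) (f 1) * (AA (f 1) (f 2) * (AA (f 2) (f 3) *
        (AA (f 3) (f 4) * (AA (f 4) (f 5) * AA (f 5) (f 6)))))))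
      = ∑ x0, ∑ x1, ∑ x2, ∑ x3, ∑ x4, ∑ x5, ∑ x6,
        (AA x0 x1 * (AA x1 x2 * (AA x2 x3 * (AA x3 x4 * (AA x4 x5 * AA x5 x6))))) := by
    simp_rw [sum_fin_succ]
    simp only [Finset.univ_unique, sum_singleton]
    rfl
  have h3 : (∑ x0, ∑ x1, ∑ x2, ∑ x3, ∑ x4, ∑ x5, ∑ x6,
        (AA x0 x1 * (AA x1 x2 * (AA x2 x3 * (AA x3 x4 * (AA x4 x5 * AA x5 x6))))))
      = ∑ x0, ww 6 x0 := by
    apply sum_congr rfl
    intro x0 _
    simp only [← mul_sum]
    simp only [ww, mul_one]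
  rw [h1, h2, h3]
  simp_rw [ww_eq]
  simp [val, vec, Fintype.sum_sum_type, Fintype.sum_prod_type]

lemma E7_tree : E7.IsTree := by
  rw [SimpleGraph.isTree_iff_connected_and_card]
  constructor
  · have hr : ∀ v, E7.Reachable 0 v := by
      have a01 : E7.Adj 0 1 := by decide
      have a02 : E7.Adj 0 2 := by decide
      have a23 : E7.Adj 2 3 := by decide
      have a04 : E7.Adj 0 4 := by decide
      have a45 : E7.Adj 4 5 := by decide
      have a56 : E7.Adj 5 6 := by decide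
      intro v
      fin_cases v
      · exact SimpleGraph.Reachable.refl _
      · exact a01.reachable
      · exact a02.reachable
      · exact a02.reachable.trans a23.reachable
      · exact a04.reachable
      · exact a04.reachable.trans a45.reachable
      · exact (a04.reachable.trans a45.reachable).trans a56.reachable
    exact (SimpleGraph.connected_iff_exists_forall_reachable _).mpr ⟨0, hr⟩
  · rw [Nat.card_eq_fintype_card, Nat.card_eq_fintype_card, ← SimpleGraph.edgeFinset_card]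
    decide

theorem result :
    ∃ (V : Type) (_ : Finite V) (R : V → V → Prop),
      (∀ a b, R a b → R b a) ∧
      ∃ α β : ℕ, α < β ∧
        (∃ T : SimpleGraph (Fin α), T.IsTree ∧
          Nat.card {f : Fin α → V // ∀ u v, T.Adj u v → R (f u) (f v)} <
            Nat.card {f : Fin α → V //
              ∀ u v, (SimpleGraph.pathGraph α).Adj u v → R (f u) (f v)}) ∧
        ∀ n : ℕ, β ≤ n → ∀ T : SimpleGraph (Fin n), T.IsTree →
          Nat.card {f : Fin n → V //
              ∀ u v, (SimpleGraph.pathGraph n).Adj u v → R (f u) (f v)} ≤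
            Nat.card {f : Fin n → V // ∀ u v, T.Adj u v → R (f u) (f v)} := by
  obtain ⟨q, hq⟩ : ∃ q : ℕ, q = 674 := ⟨_, rfl⟩
  obtain ⟨m, hm⟩ : ∃ m : ℕ, m = q ^ 7 := ⟨_, rfl⟩
  set R1 : Bool × Fin q → Bool × Fin q → Prop := fun x y => R0 x.1 y.1 with hR1
  set R : (Bool × Fin q) ⊕ (Fin m × V2) → (Bool × Fin q) ⊕ (Fin m × V2) → Prop :=
    RU m R1 (fun x y => R2 x y = true) with hR
  have hcnt : ∀ (n : ℕ) (T : SimpleGraph (Fin n)), T.Connected →
      Cnt T R = q ^ n * Cnt T R0 + m * Cnt T (fun x y => R2 x y = true) := by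
    intro n T hT
    rw [hR, cnt_union T hT, hR1, cnt_mul]
  refine ⟨(Bool × Fin q) ⊕ (Fin m × V2), inferInstance, R, ?_, 7, 70, by norm_num, ?_, ?_⟩
  · rintro (a | a) (b | b) h
    · exact fun h' => h ⟨h'.2, h'.1⟩
    · exact h.elim
    · exact h.elim
    · exact ⟨h.1.symm, by
        change R2 b.2 a.2 = true
        rw [R2_symm]
        exact h.2⟩
  · refine ⟨E7, E7_tree, ?_⟩
    change Cnt E7 R < Cnt (SimpleGraph.pathGraph 7) R
    rw [hcnt 7 E7 E7_tree.connected, hcnt 7 _ (SimpleGraph.pathGraph_connected 6), cnt_E7, cnt_P7]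
    have h1 : Cnt E7 R0 ≤ 128 := by
      have := cnt_le E7 R0
      simpa using this
    have h2 : q ^ 7 * Cnt E7 R0 ≤ m * 128 := by
      rw [hm]; exact Nat.mul_le_mul_left _ h1
    have h3 : 0 < m := by rw [hm, hq]; positivity
    omega
  · intro n hn T hT
    change Cnt (SimpleGraph.pathGraph n) R ≤ Cnt T R
    rcases tree_cases T hT with ⟨p, hp⟩ | h
    · rw [cnt_path T R p hp]
    · have hn0 : 0 < n := by omega
      have hconn : (SimpleGraph.pathGraph n).Connected := by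
        obtain ⟨k, rfl⟩ : ∃ k, n = k + 1 := ⟨n - 1, by omega⟩
        exact SimpleGraph.pathGraph_connected k
      rw [hcnt n T hT.connected, hcnt n _ hconn, ind_path n hn0]
      have h1 : Cnt (SimpleGraph.pathGraph n) (fun x y => R2 x y = true) ≤ 337 ^ n := by
        have := cnt_le (SimpleGraph.pathGraph n) (fun x y => R2 x y = true)
        simpa using this
      have h2 : m ≤ 2 ^ n := by
        calc m = 674 ^ 7 := by rw [hm, hq]
          _ ≤ 2 ^ 70 := by norm_num
          _ ≤ 2 ^ n := Nat.pow_le_pow_right (by norm_num) hn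
      have h3 : m * Cnt (SimpleGraph.pathGraph n) (fun x y => R2 x y = true) ≤ q ^ n := by
        calc m * Cnt (SimpleGraph.pathGraph n) (fun x y => R2 x y = true)
            ≤ 2 ^ n * 337 ^ n := Nat.mul_le_mul h2 h1
          _ = q ^ n := by rw [← Nat.mul_pow, hq]
      calc q ^ n * Nat.fib (n + 2) + m * Cnt (SimpleGraph.pathGraph n) (fun x y => R2 x y = true)
          ≤ q ^ n * Nat.fib (n + 2) + q ^ n := Nat.add_le_add_left h3 _
        _ = q ^ n * (Nat.fib (n + 2) + 1) := by ring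
        _ ≤ q ^ n * Cnt T R0 := Nat.mul_le_mul_left _ h
        _ ≤ _ := Nat.le_add_right _ _

end Pool.Agent.S10425
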