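import Pool.Statements.S10441
import Pool.Agent.H620R3.SPZ

set_option autoImplicit false
open Pool Pool.MP_9ef6ec_co

namespace Pool.Agent.S10441

/-- For every complex q with 0 < ∣q−1∣ < 5/27 and every finite simple graph with no K4 minor (i.e. series-parallel), the chromatic polynomial, written as the sum over edge subsets A of (−1)^∣A∣ q^(components of A), is nonzero at q. -/
theorem result :
    ∀ (q : ℂ), 0 < ‖q - 1‖ → ‖q - 1‖ < (5 / 27 : ℝ) →
      ∀ (n : ℕ) (G : SimpleGraph (Fin n)) [DecidableRel G.Adj],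
        (¬ ∃ f : Fin 4 → Set (Fin n),
            (∀ i j, i ≠ j → Disjoint (f i) (f j)) ∧
            (∀ i, (G.induce (f i)).Connected) ∧
            (∀ i j, i ≠ j → ∃ u ∈ f i, ∃ v ∈ f j, G.Adj u v)) →
        (∑ A ∈ G.edgeFinset.powerset,
            ((-1 : ℂ) ^ A.card *
              q ^ Nat.card (SimpleGraph.fromEdgeSet (↑A : Set (Sym2 (Fin n)))).ConnectedComponent)) ≠ 0 := by
  classical
  intro q h0 h1 n G _ hK
  obtain ⟨S, hS⟩ := Pool.Agent.H620R3.SP.exists_good q h0 h1
  let v : Sym2 (Fin n) → ℂ := fun e => if e ∈ G.edgeSet then -1 else 0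
  have hsupp : Pool.Agent.H620R3.SP.supp v = G := by
    ext u w
    rw [Pool.Agent.H620R3.SP.supp_adj]
    constructor
    · rintro ⟨h, -⟩
      by_contra hn
      apply h
      have : s(u, w) ∉ G.edgeSet := hn
      simp [v, this]
    · intro h
      refine ⟨?_, h.ne⟩
      have : s(u, w) ∈ G.edgeSet := h
      simp [v, this]
  have hmain := Pool.Agent.H620R3.SP.Z_ne_zero q S hS _ v le_rfl ?_ ?_ ?_
  · have hsum : Pool.Agent.H620R3.SP.Z q v = ∑ A ∈ G.edgeFinset.powerset,
        ((-1 : ℂ) ^ A.card *
          q ^ Nat.card (SimpleGraph.fromEdgeSet (↑A : Set (Sym2 (Fin n)))).ConnectedComponent) := by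
      unfold Pool.Agent.H620R3.SP.Z
      symm
      rw [← Finset.sum_subset (Finset.subset_univ G.edgeFinset.powerset)]
      · refine Finset.sum_congr rfl fun A hA => ?_
        rw [Finset.mem_powerset] at hA
        have hp : ∏ e ∈ A, v e = (-1 : ℂ) ^ A.card := by
          rw [Finset.prod_congr rfl (g := fun _ => (-1 : ℂ)), Finset.prod_const]
          intro e he
          have : e ∈ G.edgeSet := SimpleGraph.mem_edgeFinset.1 (hA he)
          simp [v, this]
        rw [hp]
        rfl
      · intro A _ hA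
        rw [Finset.mem_powerset, Finset.not_subset] at hA
        obtain ⟨e, he, hne⟩ := hA
        have : e ∉ G.edgeSet := fun h => hne (SimpleGraph.mem_edgeFinset.2 h)
        rw [Finset.prod_eq_zero he (by simp [v, this]), zero_mul]
    rw [← hsum]
    exact hmain
  · rw [hsupp]
    rintro ⟨f, hc, hd, ha⟩
    exact hK ⟨f, hd, hc, ha⟩
  · intro u
    have : s(u, u) ∉ G.edgeSet := by
      intro h
      exact (G.irrefl h)
    simp [v, this]
  · intro e he
    by_cases h : e ∈ G.edgeSet
    · simp only [v, h, if_true]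
      exact hS.neg_one
    · exact absurd (by simp [v, h]) he

end Pool.Agent.S10441
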