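import Pool.Statements.S10454
import Pool.Agent.H785R3.OddIndex

set_option autoImplicit false
open Pool Pool.MP_9fba86_co

namespace Pool.Agent.S10454

/-- The negation of the preceding statement: Some constant d exists such that every finite 2-connected graph (connected, at least 3 vertices, no cut vertex) of odd order with minimum degree at least d has a 3-edge-colouring where each colour meets each vertex in zero or an odd number of edges. -/
theorem result :
    ¬ (∃ d : ℕ, ∀ (V : Type) [Fintype V] (G : SimpleGraph V),
      G.Connected →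
      3 ≤ Fintype.card V →
      (∀ v : V, (G.induce {w : V | w ≠ v}).Connected) →
      Odd (Fintype.card V) →
      (∀ v : V, d ≤ (G.neighborSet v).ncard) →
      ∃ c : Sym2 V → Fin 3, ∀ (v : V) (i : Fin 3),
        {w : V | G.Adj v w ∧ c s(v, w) = i}.ncard = 0 ∨
          Odd {w : V | G.Adj v w ∧ c s(v, w) = i}.ncard) := by
  rintro ⟨d, hd⟩
  obtain ⟨c, hc⟩ := hd (Pool.Agent.H785R3.OddIndex.VT (2 * (d + 1)))
    (Pool.Agent.H785R3.OddIndex.G (2 * (d + 1)))
    (Pool.Agent.H785R3.OddIndex.conn (by omega) _ id Function.injective_id (fun _ _ h => h)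
      (Sum.inl 0) (fun w _ => ⟨w, rfl⟩))
    (by simp)
    (fun v => Pool.Agent.H785R3.OddIndex.conn (by omega) _ Subtype.val Subtype.val_injective
      (fun _ _ h => h) v (fun w hw => ⟨⟨w, hw⟩, rfl⟩))
    (by
      simp only [Fintype.card_sum, Fintype.card_prod, Fintype.card_fin]
      exact ⟨3 * (d + 1) + 1, by ring⟩)
    (by
      intro v
      rcases v with i | ⟨k, x⟩
      · have := Pool.Agent.H785R3.OddIndex.deg_hub (s := 2 * (d + 1)) i
        have h2 : ((Pool.Agent.H785R3.OddIndex.G (2 * (d + 1))).neighborSet
            (Sum.inl i)).ncard = 2 * (2 * (d + 1)) := this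
        rw [h2]; omega
      · have := Pool.Agent.H785R3.OddIndex.deg_blob (s := 2 * (d + 1)) (by omega) k x
        have h2 : ((Pool.Agent.H785R3.OddIndex.G (2 * (d + 1))).neighborSet
            (Sum.inr (k, x))).ncard = 2 * (d + 1) + 1 := this
        rw [h2]; omega)
  exact Pool.Agent.H785R3.OddIndex.no_colouring (by omega) ⟨d + 1, by ring⟩ c hc

end Pool.Agent.S10454
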