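import Pool.Statements.S10540
import Pool.Agent.H520R3.Avg

set_option autoImplicit false
open Pool Pool.MP_a39d1e_co

namespace Pool.Agent.S10540

open Finset

/-- For every number `m` of colours there are squared distances `D j` such that no colouring of a
suitable box of `ℤ⁹` with colours `0, …, m-1` has the property that colour `j` avoids `√(D j)`. -/
lemma main_ind (m : ℕ) : ∃ (D : ℕ → ℕ) (R : ℕ), 1 ≤ R ∧ (∀ j < m, 1 ≤ D j) ∧
    ∀ c : (Fin 9 → ℕ) → ℕ, (∀ x, (∀ i, x i < R) → c x < m) →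
      ∃ x y : Fin 9 → ℕ, (∀ i, x i < R) ∧ (∀ i, y i < R) ∧ c x = c y ∧
        ∑ i, ((y i : ℤ) - x i) ^ 2 = D (c x) := by
  induction m with
  | zero =>
    refine ⟨fun _ => 1, 1, le_rfl, fun _ _ => le_rfl, ?_⟩
    intro c hc
    exact absurd (hc (fun _ => 0) (fun _ => by norm_num)) (Nat.not_lt_zero _)
  | succ m ih =>
    obtain ⟨D, R, hR, hD, hcol⟩ := ih
    obtain ⟨Q, lam, H, hQ, hlam, hH, havg⟩ := Pool.Agent.H520R3.avg R hR
    refine ⟨fun j => if j < m then Q ^ 2 * D j else lam, H, hH, ?_, ?_⟩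
    · intro j _
      simp only
      split_ifs with h
      · exact Nat.mul_pos (pow_pos hQ 2) (hD j h)
      · exact hlam
    · intro c hc
      by_cases hall : ∀ x : Fin 9 → ℕ, (∀ i, x i + Q * R ≤ H) →
        ∃ p : Fin 9 → ℕ, (∀ i, p i < R) ∧ c (fun i => x i + Q * p i) = m
      · obtain ⟨a, b, ha, hb, hca, hcb, hab⟩ := havg (fun x => c x = m) hall
        refine ⟨a, b, ha, hb, by rw [hca, hcb], ?_⟩
        rw [hab]
        simp only [hca, lt_irrefl, if_false]
      · push Not at hall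
        obtain ⟨x, hx, hxp⟩ := hall
        have hlt : ∀ p : Fin 9 → ℕ, (∀ i, p i < R) → ∀ i, x i + Q * p i < H := by
          intro p hp i
          have h1 : Q * p i < Q * R := Nat.mul_lt_mul_of_pos_left (hp i) hQ
          have := hx i
          omega
        have hc' : ∀ p : Fin 9 → ℕ, (∀ i, p i < R) → c (fun i => x i + Q * p i) < m := by
          intro p hp
          have h1 := hc (fun i => x i + Q * p i) (hlt p hp)
          have h2 := hxp p hp
          omega
        obtain ⟨p, p', hp, hp', hcp, hsum⟩ := hcol (fun p => c (fun i => x i + Q * p i)) hc'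
        refine ⟨fun i => x i + Q * p i, fun i => x i + Q * p' i, hlt p hp, hlt p' hp', hcp, ?_⟩
        simp only [if_pos (hc' p hp)]
        push_cast
        rw [← hsum, mul_sum]
        apply sum_congr rfl
        intro i _
        ring

/-- The negation of the preceding statement: For all k ≥ 1 and n ≥ 2 there is m ≥ 1 such that for every k×m array D of positive reals, ℝⁿ can be colored with m colors so that no two points of color j lie at any distance listed in column j of D. -/
theorem result :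
    ¬ (∀ k n : ℕ, 1 ≤ k → 2 ≤ n →
      ∃ m : ℕ, 1 ≤ m ∧
        ∀ D : Fin k → Fin m → ℝ, (∀ i j, 0 < D i j) →
          ∃ T : EuclideanSpace ℝ (Fin n) → Fin m,
            ∀ (i : Fin k) (j : Fin m) (x y : EuclideanSpace ℝ (Fin n)),
              dist x y = D i j → ¬ (T x = j ∧ T y = j)) := by
  intro h
  obtain ⟨m, hm, hcol⟩ := h 1 9 le_rfl (by norm_num)
  obtain ⟨D, R, hR, hD, hmain⟩ := main_ind m
  obtain ⟨T, hT⟩ := hcol (fun _ j => Real.sqrt (D j)) (by
    intro _ j
    apply Real.sqrt_pos.2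
    exact_mod_cast hD j j.isLt)
  set emb : (Fin 9 → ℕ) → EuclideanSpace ℝ (Fin 9) := fun x => WithLp.toLp 2 (fun i => (x i : ℝ))
    with hemb
  obtain ⟨x, y, _, _, hxy, hsum⟩ := hmain (fun x => (T (emb x) : ℕ)) (fun x _ => (T (emb x)).isLt)
  have hxy' : T (emb x) = T (emb y) := Fin.ext hxy
  refine hT 0 (T (emb x)) (emb x) (emb y) ?_ ⟨rfl, hxy'.symm⟩
  rw [EuclideanSpace.dist_eq]
  congr 1
  have h1 : ((∑ i, ((y i : ℤ) - x i) ^ 2 : ℤ) : ℝ) = ((D (T (emb x)) : ℤ) : ℝ) := by
    rw [hsum]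
  push_cast at h1
  rw [← h1]
  apply sum_congr rfl
  intro i _
  rw [Real.dist_eq, sq_abs]
  change ((x i : ℝ) - (y i : ℝ)) ^ 2 = _
  ring

end Pool.Agent.S10540
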