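import Pool.Statements.S10543
import Pool.Agent.H117R3.BatonC

set_option autoImplicit false
open Pool Pool.MP_a3e24b_co

namespace Pool.Agent.S10543

open Pool.Agent.H117R3.Baton Finset

/-- growth comparison -/
lemma eventually_large (ρ : ℝ) (hρ : 1 < ρ) (A : ℝ) :
    ∃ N : ℕ, ∀ n : ℕ, N ≤ n → A * (n:ℝ) ^ 2 + 9 < ρ ^ n := by
  have h1 : Filter.Tendsto (fun n : ℕ => (n:ℝ) ^ 2 / ρ ^ n) Filter.atTop (nhds 0) :=
    tendsto_pow_const_div_const_pow_of_one_lt 2 hρ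
  have h2 : Filter.Tendsto (fun n : ℕ => (n:ℝ) ^ 0 / ρ ^ n) Filter.atTop (nhds 0) :=
    tendsto_pow_const_div_const_pow_of_one_lt 0 hρ
  have h3 := (h1.const_mul A).add (h2.const_mul 9)
  simp only [mul_zero, add_zero] at h3
  have h4 := (h3.eventually (gt_mem_nhds (show (0:ℝ) < 1 by norm_num)))
  rw [Filter.eventually_atTop] at h4
  obtain ⟨N, hN⟩ := h4
  refine ⟨N, fun n hn => ?_⟩
  have h5 := hN n hn
  have hpos : (0:ℝ) < ρ ^ n := by positivity
  have e : A * ((n:ℝ) ^ 2 / ρ ^ n) + 9 * ((n:ℝ) ^ 0 / ρ ^ n) = (A * (n:ℝ) ^ 2 + 9) / ρ ^ n := by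
    field_simp
  rw [e, div_lt_one hpos] at h5
  exact h5

/-- the colouring in a fixed dimension -/
lemma colouring (n b t : ℕ) (hn : 1 ≤ n) (hb : 1 ≤ b)
    (h : 8 * ((b + 3 : ℝ) / b) ^ n * (n * (4 * n * (b + 3) + 2)) < t) :
    ∃ c : (Fin n → ℝ) → Fin t,
      ∀ f : Fin (2 * b + 4 + 1) → (Fin n → ℝ),
        (∀ i j : Fin (2 * b + 4 + 1),
          ∑ s : Fin n, |f i s - f j s| = |((i : ℕ) : ℝ) - ((j : ℕ) : ℝ)|) →
        ∃ i j : Fin (2 * b + 4 + 1), c (f i) ≠ c (f j) := by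
  classical
  set L : ℕ := 2 * (2 * (n * (b + 3)) + 1) with hL
  have : NeZero L := ⟨by omega⟩
  have hLbig : n * (b + 1) + n * (b + 3) < L := by
    rw [hL]; nlinarith
  have hL2 : 2 * (n * (b + 1)) < L := by
    rw [hL]; nlinarith
  set G := (Fin n → ZMod L) with hG
  set g : ℕ := Fintype.card G with hg
  have hgL : g = L ^ n := by
    rw [hg]
    change Fintype.card (Fin n → ZMod L) = L ^ n
    rw [Fintype.card_pi]
    simp [ZMod.card]
  set bb : ℕ := (tball n L (n * (b + 1))).card with hbb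
  set bb' : ℕ := (tball n L (n * (b + 3))).card with hbb'
  have hb1 : bb = (ball n (n * (b + 1))).card := card_tball_eq n L _ hL2
  have hb2 : bb' ≤ (ball n (n * (b + 3))).card := card_tball_le n L _
  have hbb'pos : 0 < bb' := by
    rw [hbb', Finset.card_pos]
    exact ⟨0, mem_tball.mpr ⟨0, by simp; positivity, by funext i; simp [proj]⟩⟩
  have hratio : b ^ n * bb' ≤ (b + 3) ^ n * bb := by
    rw [hb1]
    exact (Nat.mul_le_mul_left _ hb2).trans (ball_ratio n b)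
  have hg2 : 2 * bb' ≤ g := by
    have h1 := hb2.trans (card_ball_le_pow n (n * (b + 3)))
    rw [hgL, hL, mul_pow]
    obtain ⟨n', rfl⟩ : ∃ n', n = n' + 1 := ⟨n - 1, by omega⟩
    have h2 : 2 ≤ 2 ^ (n' + 1) := by
      rw [pow_succ]
      have := Nat.one_le_two_pow (n := n')
      omega
    exact Nat.mul_le_mul h2 h1
  have hgpos : 0 < g := by omega
  set m : ℕ := g / (2 * bb') with hm
  set K : ℕ := m * (bb * (g - bb') ^ (m - 1)) with hK
  have hprop : (bb : ℝ) / (8 * bb') ≤ ((K : ℕ) : ℝ) / ((g : ℝ) ^ m) :=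
    proportion hgpos hbb'pos hg2 hm
  have hCcard : Fintype.card (Fin m → G) = g ^ m := by
    rw [Fintype.card_pi]
    simp [hg]
  have hCpos : 0 < Fintype.card (Fin m → G) := by
    rw [hCcard]; positivity
  have hcount : ∀ z : G, K ≤ (univ.filter (fun c : Fin m → G =>
      Served n L (n * (b + 1)) (n * (b + 3)) m c z)).card := by
    intro z
    have := count_centres (tball n L (n * (b + 1))) (tball n L (n * (b + 3)))
      (tball_mono (by nlinarith)) m z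
    refine this.trans (le_of_eq ?_)
    congr
  have hbr : (0:ℝ) < b := by exact_mod_cast hb
  have hbb'r : (0:ℝ) < bb' := by exact_mod_cast hbb'pos
  have hδ : (1:ℝ) / (8 * ((b + 3 : ℝ) / b) ^ n) ≤ ((K : ℕ) : ℝ) / ((g : ℝ) ^ m) := by
    refine le_trans ?_ hprop
    have hr : ((b:ℝ)) ^ n * bb' ≤ ((b:ℝ) + 3) ^ n * bb := by exact_mod_cast hratio
    rw [div_pow, div_le_div_iff₀ (by positivity) (by positivity)]
    have hbn : (0:ℝ) < (b:ℝ) ^ n := by positivity
    have : 1 * (8 * (bb':ℝ)) * (b:ℝ) ^ n ≤ (bb:ℝ) * (8 * (((b:ℝ) + 3) ^ n / (b:ℝ) ^ n)) * (b:ℝ) ^ n := by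
      have e : (bb:ℝ) * (8 * (((b:ℝ) + 3) ^ n / (b:ℝ) ^ n)) * (b:ℝ) ^ n = 8 * (((b:ℝ) + 3) ^ n * bb) := by
        field_simp
      rw [e]
      nlinarith
    exact le_of_mul_le_mul_right this hbn
  set δ : ℝ := ((K : ℕ) : ℝ) / ((g : ℝ) ^ m) with hδdef
  have hδ1 : δ ≤ 1 := by
    rw [hδdef, div_le_one (by positivity)]
    have h1 := (hcount 0).trans (Finset.card_le_univ _)
    rw [hCcard] at h1
    exact_mod_cast h1
  have hgr : (0:ℝ) < g := by exact_mod_cast hgpos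
  have hfin : (Fintype.card G : ℝ) * (1 - (K:ℝ) / Fintype.card (Fin m → G)) ^ t < 1 := by
    rw [hCcard]
    push_cast
    change (g:ℝ) * (1 - δ) ^ t < 1
    have h1 : (1 - δ) ^ t ≤ Real.exp (-δ) ^ t :=
      pow_le_pow_left₀ (by linarith) (Real.one_sub_le_exp_neg δ) t
    rw [← Real.exp_nat_mul] at h1
    have h2 : (g:ℝ) ≤ Real.exp (n * L) := by
      rw [hgL]
      push_cast
      rw [Real.exp_nat_mul]
      apply pow_le_pow_left₀ (by positivity)
      have := Real.add_one_le_exp (L:ℝ)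
      linarith
    calc (g:ℝ) * (1 - δ) ^ t ≤ Real.exp (n * L) * Real.exp (t * -δ) := by
          apply mul_le_mul h2 h1 (by apply pow_nonneg; linarith) (Real.exp_pos _).le
      _ = Real.exp (n * L - t * δ) := by rw [← Real.exp_add]; congr 1; ring
      _ < 1 := by
          rw [Real.exp_lt_one_iff]
          have hLr : (L:ℝ) = 4 * n * (b + 3) + 2 := by
            rw [hL]; push_cast; ring
          have hq : (0:ℝ) < 8 * ((b + 3 : ℝ) / b) ^ n := by positivity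
          have h3 : (n:ℝ) * L < t * (1 / (8 * ((b + 3 : ℝ) / b) ^ n)) := by
            rw [hLr, mul_one_div, lt_div_iff₀ hq]
            linarith
          have h4 : (t:ℝ) * (1 / (8 * ((b + 3 : ℝ) / b) ^ n)) ≤ t * δ :=
            mul_le_mul_of_nonneg_left hδ (Nat.cast_nonneg t)
          linarith
  obtain ⟨cs, hcs⟩ := exists_cover
    (fun (c : Fin m → G) z => Served n L (n * (b + 1)) (n * (b + 3)) m c z) t K hCpos hcount hfin
  choose col hcol using hcs
  refine ⟨fun x => col (proj n L (cell n x)), fun f hf => ?_⟩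
  by_contra hcon
  push Not at hcon
  apply no_baton hn hLbig (cs (col (proj n L (cell n (f 0))))) f hf
  intro i
  rw [hcon 0 i]
  exact hcol _

/-- For every ε>0 there is k such that, for all η>0 and all large n, R^n can be coloured with at most (1+ε+η)^n colours so that no k+1 points at l1-distances ∣i−j∣ from each other, i.e. a unit baton, are all the same colour. -/
theorem result :
    ∀ ε : ℝ, 0 < ε → ∃ k : ℕ, ∀ η : ℝ, 0 < η → ∃ N : ℕ, ∀ n : ℕ, N ≤ n →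
      ∃ m : ℕ, (m : ℝ) ≤ (1 + ε + η) ^ n ∧
        ∃ c : (Fin n → ℝ) → Fin m,
          ∀ f : Fin (k + 1) → (Fin n → ℝ),
            (∀ i j : Fin (k + 1),
              ∑ t : Fin n, |f i t - f j t| = |((i : ℕ) : ℝ) - ((j : ℕ) : ℝ)|) →
            ∃ i j : Fin (k + 1), c (f i) ≠ c (f j) := by
  intro ε hε
  obtain ⟨b, hb⟩ := exists_nat_gt (3 / ε)
  have hbpos : (0:ℝ) < b := lt_trans (by positivity) hb
  have hb1 : 1 ≤ b := by
    have : 0 < b := by exact_mod_cast hbpos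
    omega
  have hbε : (b + 3 : ℝ) / b ≤ 1 + ε := by
    rw [div_le_iff₀ hbpos]
    rw [div_lt_iff₀ hε] at hb
    nlinarith
  refine ⟨2 * b + 4, fun η hη => ?_⟩
  set ρ : ℝ := (1 + ε + η) / (1 + ε) with hρ
  have hρ1 : 1 < ρ := by
    rw [hρ, one_lt_div (by linarith)]
    linarith
  obtain ⟨N, hN⟩ := eventually_large ρ hρ1 (8 * (4 * (b + 3) + 2))
  refine ⟨N + 1, fun n hn => ?_⟩
  have hn1 : 1 ≤ n := by omega
  have hbig := hN n (by omega)
  refine ⟨⌊(1 + ε + η) ^ n⌋₊, Nat.floor_le (by positivity), ?_⟩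
  apply colouring n b _ hn1 hb1
  have hfl := Nat.lt_floor_add_one ((1 + ε + η) ^ n)
  have hnr : (1:ℝ) ≤ n := by exact_mod_cast hn1
  have h1 : ((b + 3 : ℝ) / b) ^ n ≤ (1 + ε) ^ n := pow_le_pow_left₀ (by positivity) hbε n
  have h2 : (1 + ε + η) ^ n = ρ ^ n * (1 + ε) ^ n := by
    rw [hρ, div_pow]
    field_simp
  have h3 : (1:ℝ) ≤ (1 + ε) ^ n := one_le_pow₀ (by linarith)
  have h4 : (n:ℝ) * (4 * n * (b + 3) + 2) ≤ (4 * (b + 3) + 2) * (n:ℝ) ^ 2 := by nlinarith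
  have h5 : 8 * ((b + 3 : ℝ) / b) ^ n * (n * (4 * n * (b + 3) + 2)) ≤
      (1 + ε) ^ n * (8 * (4 * (b + 3) + 2) * (n:ℝ) ^ 2) := by
    calc 8 * ((b + 3 : ℝ) / b) ^ n * (n * (4 * n * (b + 3) + 2))
        ≤ 8 * (1 + ε) ^ n * ((4 * (b + 3) + 2) * (n:ℝ) ^ 2) := by gcongr
      _ = _ := by ring
  have h6 : (1 + ε) ^ n * (8 * (4 * (b + 3) + 2) * (n:ℝ) ^ 2 + 9) < (1 + ε) ^ n * ρ ^ n := by
    apply mul_lt_mul_of_pos_left hbig
    linarith
  nlinarith

end Pool.Agent.S10543
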