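import Pool.Statements.S10582
-- import your own Pool.Agent.* helpers here

set_option autoImplicit false
open Pool Pool.MP_a55b46_co

namespace Pool.Agent.S10582

/-- The bipartite pattern between the clique `K = {0,…,14}` and the independent set `W = {15,…,39}`:
every `W`-vertex sees exactly `6` vertices of `K`, every `K`-vertex sees exactly `10` vertices of `W`. -/
def pat (i j : ℕ) : Bool := decide ((i + 9 * j) % 15 < 6)

/-- Boolean adjacency. -/
def adjB (u v : Fin 40) : Bool :=
  (decide (u.val < 15) && decide (v.val < 15) && decide (u ≠ v)) ||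
  (decide (u.val < 15) && decide (15 ≤ v.val) && pat u.val v.val) ||
  (decide (v.val < 15) && decide (15 ≤ u.val) && pat v.val u.val)

/-- The graph. -/
def G : SimpleGraph (Fin 40) where
  Adj u v := adjB u v = true
  symm := ⟨by
    intro u v h
    simp only [adjB, Bool.or_eq_true, Bool.and_eq_true, decide_eq_true_eq] at h ⊢
    rcases h with (⟨⟨h1, h2⟩, h3⟩ | ⟨⟨h1, h2⟩, h3⟩) | ⟨⟨h1, h2⟩, h3⟩
    · exact Or.inl (Or.inl ⟨⟨h2, h1⟩, h3.symm⟩)
    · exact Or.inr ⟨⟨h1, h2⟩, h3⟩
    · exact Or.inl (Or.inr ⟨⟨h1, h2⟩, h3⟩)⟩
  loopless := ⟨by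
    intro u h
    simp only [adjB, Bool.or_eq_true, Bool.and_eq_true, decide_eq_true_eq] at h
    rcases h with (⟨⟨h1, h2⟩, h3⟩ | ⟨⟨h1, h2⟩, h3⟩) | ⟨⟨h1, h2⟩, h3⟩
    · exact h3 rfl
    · omega
    · omega⟩

theorem adj_iff (u v : Fin 40) : G.Adj u v ↔ adjB u v = true := Iff.rfl

theorem adj_KK {u v : Fin 40} (hu : u.val < 15) (hv : v.val < 15) (h : u ≠ v) : G.Adj u v := by
  rw [adj_iff]; simp [adjB, hu, hv, h]

theorem not_adj_WW {u v : Fin 40} (hu : 15 ≤ u.val) (hv : 15 ≤ v.val) : ¬ G.Adj u v := by
  rw [adj_iff]
  have h1 : ¬ u.val < 15 := by omega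
  have h2 : ¬ v.val < 15 := by omega
  simp [adjB, h1, h2]

def CW (w : Fin 40) : Finset (Fin 40) :=
  Finset.univ.filter (fun v => v = w ∨ adjB v w = true)

def IK (w : Fin 40) : Finset (Fin 40) :=
  Finset.univ.filter (fun v => v = w ∨ (15 ≤ v.val ∧ adjB v w = false))

theorem card_CW : ∀ w : Fin 40, 15 ≤ w.val → 6 < (CW w).card := by decide +kernel

theorem card_IK : ∀ w : Fin 40, w.val < 15 → 15 < (IK w).card := by decide +kernel

theorem card_K : 6 < (Finset.univ.filter (fun v : Fin 40 => v.val < 15)).card := by decide +kernel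

theorem card_W : 15 < (Finset.univ.filter (fun v : Fin 40 => 15 ≤ v.val)).card := by decide +kernel

theorem clique_large (s : Finset (Fin 40))
    (hs : Maximal (fun t : Finset (Fin 40) => G.IsClique (t : Set (Fin 40))) s) : 6 < s.card := by
  by_cases hw : ∃ w ∈ s, 15 ≤ w.val
  · obtain ⟨w, hws, hw15⟩ := hw
    have hsub : s ⊆ CW w := by
      intro v hv
      simp only [CW, Finset.mem_filter, Finset.mem_univ, true_and]
      by_cases hvw : v = w
      · exact Or.inl hvw
      · exact Or.inr (hs.prop (by exact_mod_cast hv) (by exact_mod_cast hws) hvw)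
    have hcl : G.IsClique ((CW w : Finset (Fin 40)) : Set (Fin 40)) := by
      intro a ha b hb hab
      simp only [CW, Finset.coe_filter, Finset.mem_univ, true_and, Set.mem_ofPred_eq] at ha hb
      have key : ∀ x : Fin 40, adjB x w = true → x.val < 15 := by
        intro x hx
        by_contra hx'
        exact not_adj_WW (by omega) hw15 ((adj_iff x w).2 hx)
      rcases ha with rfl | ha
      · rcases hb with rfl | hb
        · exact absurd rfl hab
        · exact ((adj_iff _ _).2 hb).symm
      · rcases hb with rfl | hb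
        · exact (adj_iff _ _).2 ha
        · exact adj_KK (key a ha) (key b hb) hab
    have := hs.le_of_ge hcl hsub
    exact lt_of_lt_of_le (card_CW w hw15) (Finset.card_le_card this)
  · push Not at hw
    have hsub : s ⊆ Finset.univ.filter (fun v : Fin 40 => v.val < 15) := by
      intro v hv
      simpa using hw v hv
    have hcl : G.IsClique ((Finset.univ.filter (fun v : Fin 40 => v.val < 15) :
        Finset (Fin 40)) : Set (Fin 40)) := by
      intro a ha b hb hab
      simp only [Finset.coe_filter, Finset.mem_univ, true_and, Set.mem_ofPred_eq] at ha hb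
      exact adj_KK ha hb hab
    have := hs.le_of_ge hcl hsub
    exact lt_of_lt_of_le card_K (Finset.card_le_card this)

theorem indep_large (s : Finset (Fin 40))
    (hs : Maximal (fun t : Finset (Fin 40) => G.IsIndepSet (t : Set (Fin 40))) s) :
    15 < s.card := by
  by_cases hw : ∃ w ∈ s, w.val < 15
  · obtain ⟨w, hws, hw15⟩ := hw
    have hsub : s ⊆ IK w := by
      intro v hv
      simp only [IK, Finset.mem_filter, Finset.mem_univ, true_and]
      by_cases hvw : v = w
      · exact Or.inl hvw
      · right
        have hna : ¬ G.Adj v w := hs.prop (by exact_mod_cast hv) (by exact_mod_cast hws) hvw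
        refine ⟨?_, ?_⟩
        · by_contra hv'
          exact hna (adj_KK (by omega) hw15 hvw)
        · rw [adj_iff] at hna
          simpa using hna
    have hcl : G.IsIndepSet ((IK w : Finset (Fin 40)) : Set (Fin 40)) := by
      intro a ha b hb hab
      simp only [IK, Finset.coe_filter, Finset.mem_univ, true_and, Set.mem_ofPred_eq] at ha hb
      rcases ha with rfl | ha
      · rcases hb with rfl | hb
        · exact absurd rfl hab
        · intro h
          have := h.symm
          rw [adj_iff, hb.2] at this
          exact absurd this (by simp)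
      · rcases hb with rfl | hb
        · intro h
          rw [adj_iff, ha.2] at h
          exact absurd h (by simp)
        · exact not_adj_WW ha.1 hb.1
    have := hs.le_of_ge hcl hsub
    exact lt_of_lt_of_le (card_IK w hw15) (Finset.card_le_card this)
  · push Not at hw
    have hsub : s ⊆ Finset.univ.filter (fun v : Fin 40 => 15 ≤ v.val) := by
      intro v hv
      simpa using hw v hv
    have hcl : G.IsIndepSet ((Finset.univ.filter (fun v : Fin 40 => 15 ≤ v.val) :
        Finset (Fin 40)) : Set (Fin 40)) := by
      intro a ha b hb hab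
      simp only [Finset.coe_filter, Finset.mem_univ, true_and, Set.mem_ofPred_eq] at ha hb
      exact not_adj_WW ha hb
    have := hs.le_of_ge hcl hsub
    exact lt_of_lt_of_le card_W (Finset.card_le_card this)

/-- The negation of the preceding statement: For 2 ≤ ℓ < ⌊m/2⌋ and any (α,β) in N_m minimizing the gap between αℓ and β, the least order of a graph whose maximal cliques all exceed ℓ vertices and maximal independent sets all exceed m vertices is ℓ+m+β+αℓ, plus 1 if m≠αβ. -/
theorem result :
    ¬ (∀ ℓ m : ℕ, 2 ≤ ℓ → ℓ < m / 2 →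
      ∀ α β : ℕ, (0 < α ∧ α ≤ β ∧ α * β ≤ m ∧ m ≤ α * (β + 1)) →
        (∀ a b : ℕ, 0 < a → a ≤ b → a * b ≤ m → m ≤ a * (b + 1) →
          |((α * ℓ : ℕ) : ℤ) - (β : ℤ)| ≤ |((a * ℓ : ℕ) : ℤ) - (b : ℤ)|) →
        IsLeast
          {n : ℕ | ∃ G : SimpleGraph (Fin n),
            (∀ s : Finset (Fin n),
              Maximal (fun t : Finset (Fin n) => G.IsClique (t : Set (Fin n))) s → ℓ < s.card) ∧
            (∀ s : Finset (Fin n),
              Maximal (fun t : Finset (Fin n) => G.IsIndepSet (t : Set (Fin n))) s → m < s.card)}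
          (ℓ + m + β + α * ℓ + (if m = α * β then 0 else 1))) := by
  intro H
  have h := H 6 15 (by norm_num) (by norm_num) 2 7 (by norm_num) ?_
  · have hmem : (40 : ℕ) ∈ {n : ℕ | ∃ G : SimpleGraph (Fin n),
            (∀ s : Finset (Fin n),
              Maximal (fun t : Finset (Fin n) => G.IsClique (t : Set (Fin n))) s → 6 < s.card) ∧
            (∀ s : Finset (Fin n),
              Maximal (fun t : Finset (Fin n) => G.IsIndepSet (t : Set (Fin n))) s →
                15 < s.card)} := ⟨G, clique_large, indep_large⟩
    have h2 := h.2 hmem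
    norm_num at h2
  · intro a b ha hab h1 h2
    have ha3 : a ≤ 3 := by nlinarith
    have hb15 : b ≤ 15 := by nlinarith
    interval_cases a
    · have : 14 ≤ b := by omega
      interval_cases b <;> norm_num
    · have : 7 ≤ b := by omega
      have : b ≤ 7 := by omega
      interval_cases b; norm_num
    · have : 4 ≤ b := by omega
      have : b ≤ 5 := by omega
      interval_cases b <;> norm_num

end Pool.Agent.S10582
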