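import Pool.Statements.S10590
import Pool.Agent.H674R3.DPGauge

set_option autoImplicit false
open Pool Pool.MP_a59ce0_co

namespace Pool.Agent.S10590

open Pool.Agent.H674R3.DP

/-- the square of the seven-cycle -/
def G7 : SimpleGraph (Fin 7) := SimpleGraph.fromRel (fun u v => v = u + 1 ∨ v = u + 2)

theorem G7_adj (u v : Fin 7) (h : G7.Adj u v) :
    ∃ e : E, (src e = u ∧ tgt e = v) ∨ (src e = v ∧ tgt e = u) := by
  rw [G7, SimpleGraph.fromRel_adj] at h
  obtain ⟨-, (h | h) | (h | h)⟩ := h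
  · exact ⟨(u, false), Or.inl ⟨rfl, h.symm⟩⟩
  · exact ⟨(u, true), Or.inl ⟨rfl, h.symm⟩⟩
  · exact ⟨(v, false), Or.inr ⟨rfl, h.symm⟩⟩
  · exact ⟨(v, true), Or.inr ⟨rfl, h.symm⟩⟩

theorem G7_of_e : ∀ e : E, G7.Adj (src e) (tgt e) ∧ G7.Adj (tgt e) (src e) := by
  intro e
  have h : G7.Adj (src e) (tgt e) := by
    rw [G7, SimpleGraph.fromRel_adj]
    refine ⟨src_ne_tgt e, Or.inl ?_⟩
    obtain ⟨i, b⟩ := e
    cases b
    · exact Or.inl rfl
    · exact Or.inr rfl
  exact ⟨h, h.symm⟩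

theorem e_uniq : ∀ e e' : E, src e = src e' → tgt e = tgt e' → e = e' := by decide +kernel

theorem e_uniq' : ∀ e e' : E, src e = tgt e' → tgt e = src e' → False := by decide +kernel

/-- extend a partial matching to a permutation -/
theorem extend {m : ℕ} (R : Fin m → Fin m → Prop) (h1 : ∀ i j j', R i j → R i j' → j = j')
    (h2 : ∀ i i' j, R i j → R i' j → i = i') :
    ∃ σ : Equiv.Perm (Fin m), ∀ i j, R i j → σ i = j := by
  classical
  let p : Fin m → Prop := fun i => ∃ j, R i j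
  let q : Fin m → Prop := fun j => ∃ i, R i j
  let e : {x // p x} ≃ {x // q x} :=
    { toFun := fun x => ⟨x.2.choose, ⟨x.1, x.2.choose_spec⟩⟩
      invFun := fun y => ⟨y.2.choose, ⟨y.1, y.2.choose_spec⟩⟩
      left_inv := by
        intro x
        apply Subtype.ext
        exact h2 _ _ _ (⟨x.1, x.2.choose_spec⟩ : ∃ i, R i x.2.choose).choose_spec x.2.choose_spec
      right_inv := by
        intro y
        apply Subtype.ext
        exact h1 _ _ _ (⟨y.1, y.2.choose_spec⟩ : ∃ j, R y.2.choose j).choose_spec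
          y.2.choose_spec }
  refine ⟨e.extendSubtype, fun i j hij => ?_⟩
  have hp : p i := ⟨j, hij⟩
  rw [Equiv.extendSubtype_apply_of_mem e i hp]
  exact h1 _ _ _ hp.choose_spec hij

theorem fx_nonneg {m : ℕ} (σ : Equiv.Perm (Fin m)) : 0 ≤ fx σ := by
  unfold fx dl
  exact Finset.sum_nonneg (fun a _ => by split_ifs <;> norm_num)

theorem fx_le {m : ℕ} (σ : Equiv.Perm (Fin m)) : fx σ ≤ m := by
  have := sum_nz_fx σ
  have h : 0 ≤ ∑ a : Fin m, nz a (σ a) := by
    unfold nz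
    exact Finset.sum_nonneg (fun a _ => by split_ifs <;> norm_num)
  linarith

theorem fx_zero {m : ℕ} (σ : Equiv.Perm (Fin m)) (h : fx σ = 0) : ∀ a, σ a ≠ a := by
  intro a ha
  unfold fx at h
  rw [Finset.sum_eq_zero_iff_of_nonneg (fun a _ => by unfold dl; split_ifs <;> norm_num)] at h
  have := h a (Finset.mem_univ _)
  rw [ha, dl_self] at this
  norm_num at this

theorem fx_full {m : ℕ} (σ : Equiv.Perm (Fin m)) (h : fx σ = m) : ∀ a, σ a = a := by
  have h1 := sum_nz_fx σ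
  rw [h, sub_self] at h1
  intro a
  rw [Finset.sum_eq_zero_iff_of_nonneg (fun a _ => by unfold nz; split_ifs <;> norm_num)] at h1
  have := h1 a (Finset.mem_univ _)
  by_contra hne
  rw [nz_of_ne (fun h => hne h.symm)] at this
  norm_num at this

theorem even_of_fpf {m : ℕ} (σ : Equiv.Perm (Fin m)) (h1 : ∀ a, σ a ≠ a)
    (h2 : ∀ a, σ (σ a) = a) : Even m := by
  have h : ∑ a : Fin m, (1 : ZMod 2) = 0 := by
    refine Finset.sum_involution (fun a _ => σ a) (fun a _ => by decide) (fun a _ _ => h1 a)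
      (fun a _ => Finset.mem_univ _) (fun a _ => h2 a)
  simp only [Finset.sum_const, Finset.card_univ, Fintype.card_fin, nsmul_eq_mul, mul_one] at h
  exact even_iff_two_dvd.2 ((ZMod.natCast_eq_zero_iff m 2).1 h)

theorem F0_lower {m : ℕ} (hm : 78 ≤ m) (σ : Equiv.Perm (Fin m)) :
    F0 m 0 m ≤ F0 m (fx σ) (fx (σ * σ)) ∧ (Odd m → F0 m 0 m < F0 m (fx σ) (fx (σ * σ))) := by
  have hx := fx_nonneg σ
  have hy := fx_le (σ * σ)
  have hm' : (78 : ℤ) ≤ m := by exact_mod_cast hm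
  have hdiff : F0 m (fx σ) (fx (σ * σ)) - F0 m 0 m
      = fx σ * ((5 * (m : ℤ) - 16) * (m - 2) ^ 2 + (m ^ 2 - 8 * m + 15) * (2 * m - 4)
        + (m - 3) + 1) + (m - fx (σ * σ)) := by
    unfold F0; ring
  have hc : (0 : ℤ) < (5 * (m : ℤ) - 16) * (m - 2) ^ 2 + (m ^ 2 - 8 * m + 15) * (2 * m - 4)
        + (m - 3) + 1 := by
    have e1 : (0 : ℤ) ≤ (5 * (m : ℤ) - 16) * (m - 2) ^ 2 := by
      apply mul_nonneg <;> nlinarith
    have e2 : (0 : ℤ) ≤ ((m : ℤ) ^ 2 - 8 * m + 15) * (2 * m - 4) := by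
      apply mul_nonneg <;> nlinarith
    linarith
  constructor
  · have : 0 ≤ fx σ * ((5 * (m : ℤ) - 16) * (m - 2) ^ 2 + (m ^ 2 - 8 * m + 15) * (2 * m - 4)
        + (m - 3) + 1) := mul_nonneg hx hc.le
    linarith
  · intro hodd
    by_contra hcon
    push Not at hcon
    have h0 : 0 ≤ fx σ * ((5 * (m : ℤ) - 16) * (m - 2) ^ 2 + (m ^ 2 - 8 * m + 15) * (2 * m - 4)
        + (m - 3) + 1) := mul_nonneg hx hc.le
    have h1 : fx σ * ((5 * (m : ℤ) - 16) * (m - 2) ^ 2 + (m ^ 2 - 8 * m + 15) * (2 * m - 4)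
        + (m - 3) + 1) = 0 := by linarith
    have h2 : fx (σ * σ) = m := by linarith
    have h3 : fx σ = 0 := by
      rcases mul_eq_zero.1 h1 with h | h
      · exact h
      · exact absurd h hc.ne'
    have := even_of_fpf σ (fx_zero σ h3) (fun a => fx_full (σ * σ) h2 a)
    exact (Nat.not_even_iff_odd.2 hodd) this

/-- lower bound for every cover -/
theorem cover_lower {m : ℕ} (hm : 78 ≤ m) (M : Fin 7 → Fin 7 → Fin m → Fin m → Prop)
    (hadj : ∀ u v i j, M u v i j → G7.Adj u v) (hsym : ∀ u v i j, M u v i j → M v u j i)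
    (h1 : ∀ u v i j j', M u v i j → M u v i j' → j = j')
    (h2 : ∀ u v i i' j, M u v i j → M u v i' j → i = i') :
    F0 m 0 m ≤ (Set.ncard {f : Fin 7 → Fin m | ∀ u v, ¬ M u v (f u) (f v)} : ℤ) ∧
    (Odd m → F0 m 0 m < (Set.ncard {f : Fin 7 → Fin m | ∀ u v, ¬ M u v (f u) (f v)} : ℤ)) := by
  classical
  have hπ : ∀ e : E, ∃ σ : Equiv.Perm (Fin m), ∀ i j, M (src e) (tgt e) i j → σ i = j :=
    fun e => extend _ (h1 _ _) (h2 _ _)
  choose π hπ using hπ
  have hsub : ((Finset.univ.filter (fun f : Fin 7 → Fin m => ∀ e, ¬ X π e f) :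
      Finset (Fin 7 → Fin m)) : Set (Fin 7 → Fin m)) ⊆
      {f : Fin 7 → Fin m | ∀ u v, ¬ M u v (f u) (f v)} := by
    intro f hf u v hM
    have hf2 : ∀ e, ¬ X π e f := by simpa using hf
    obtain ⟨e, ⟨ha, hb⟩ | ⟨ha, hb⟩⟩ := G7_adj u v (hadj _ _ _ _ hM)
    · apply hf2 e
      unfold X
      subst ha; subst hb
      exact (hπ e _ _ hM).symm
    · apply hf2 e
      unfold X
      subst ha; subst hb
      exact (hπ e _ _ (hsym _ _ _ _ hM)).symm
  have hle : cnt π ≤ Set.ncard {f : Fin 7 → Fin m | ∀ u v, ¬ M u v (f u) (f v)} := by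
    have := Set.ncard_le_ncard hsub (Set.toFinite _)
    rw [Set.ncard_coe_finset] at this
    exact this
  have hle2 := (cnt_cons_le π hm).trans hle
  rw [cnt_cons] at hle2
  have hle3 : (((Finset.univ.filter (good (hol fun i => π (i, false)))).card : ℕ) : ℤ) ≤
      (Set.ncard {f : Fin 7 → Fin m | ∀ u v, ¬ M u v (f u) (f v)} : ℤ) := by exact_mod_cast hle2
  rw [good_sum] at hle3
  obtain ⟨g1, g2⟩ := F0_lower hm (hol fun i => π (i, false))
  exact ⟨g1.trans hle3, fun h => (g2 h).trans_le hle3⟩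

/-- the cover given by permutations on the edges -/
theorem cover_of {m : ℕ} (π : E → Equiv.Perm (Fin m)) :
    ∃ M : Fin 7 → Fin 7 → Fin m → Fin m → Prop,
      (∀ u v i j, M u v i j → G7.Adj u v) ∧ (∀ u v i j, M u v i j → M v u j i) ∧
      (∀ u v i j j', M u v i j → M u v i j' → j = j') ∧
      (∀ u v i i' j, M u v i j → M u v i' j → i = i') ∧
      cnt π = Set.ncard {f : Fin 7 → Fin m | ∀ u v, ¬ M u v (f u) (f v)} := by
  classical
  refine ⟨fun u v i j => (∃ e, src e = u ∧ tgt e = v ∧ π e i = j) ∨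
    (∃ e, src e = v ∧ tgt e = u ∧ π e j = i), ?_, ?_, ?_, ?_, ?_⟩
  · rintro u v i j (⟨e, rfl, rfl, -⟩ | ⟨e, rfl, rfl, -⟩)
    · exact (G7_of_e e).1
    · exact (G7_of_e e).2
  · rintro u v i j (h | h)
    · exact Or.inr h
    · exact Or.inl h
  · rintro u v i j j' (⟨e, ha, hb, hc⟩ | ⟨e, ha, hb, hc⟩) (⟨e', ha', hb', hc'⟩ | ⟨e', ha', hb', hc'⟩)
    · have := e_uniq e e' (ha.trans ha'.symm) (hb.trans hb'.symm)
      subst this
      exact hc.symm.trans hc'
    · exact (e_uniq' e e' (ha.trans hb'.symm) (hb.trans ha'.symm)).elim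
    · exact (e_uniq' e e' (ha.trans hb'.symm) (hb.trans ha'.symm)).elim
    · have := e_uniq e e' (ha.trans ha'.symm) (hb.trans hb'.symm)
      subst this
      exact (π e).injective (hc.trans hc'.symm)
  · rintro u v i i' j (⟨e, ha, hb, hc⟩ | ⟨e, ha, hb, hc⟩) (⟨e', ha', hb', hc'⟩ | ⟨e', ha', hb', hc'⟩)
    · have := e_uniq e e' (ha.trans ha'.symm) (hb.trans hb'.symm)
      subst this
      exact (π e).injective (hc.trans hc'.symm)
    · exact (e_uniq' e e' (ha.trans hb'.symm) (hb.trans ha'.symm)).elim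
    · exact (e_uniq' e e' (ha.trans hb'.symm) (hb.trans ha'.symm)).elim
    · have := e_uniq e e' (ha.trans ha'.symm) (hb.trans hb'.symm)
      subst this
      exact hc.symm.trans hc'
  · rw [cnt, ← Set.ncard_coe_finset]
    congr 1
    ext f
    simp only [Finset.coe_filter, Finset.mem_univ, true_and, Set.mem_ofPred_eq]
    constructor
    · rintro h u v (⟨e, rfl, rfl, hc⟩ | ⟨e, rfl, rfl, hc⟩)
      · exact h e hc.symm
      · exact h e hc.symm
    · intro h e hX
      exact h (src e) (tgt e) (Or.inl ⟨e, rfl, rfl, hX.symm⟩)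

/-- a fixed-point-free involution -/
theorem exists_fpf (k : ℕ) : ∃ σ : Equiv.Perm (Fin (k * 2)), fx σ = 0 ∧
    fx (σ * σ) = ((k * 2 : ℕ) : ℤ) := by
  let τ : Equiv.Perm (Fin k × Fin 2) := Equiv.prodCongr (Equiv.refl _) (Equiv.swap 0 1)
  let σ : Equiv.Perm (Fin (k * 2)) := (finProdFinEquiv.symm.trans τ).trans finProdFinEquiv
  have h1 : ∀ a, σ a ≠ a := by
    intro a h
    have h2 : τ (finProdFinEquiv.symm a) = finProdFinEquiv.symm a := by
      rw [Equiv.eq_symm_apply]; exact h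
    have h3 : Equiv.swap (0 : Fin 2) 1 (finProdFinEquiv.symm a).2 = (finProdFinEquiv.symm a).2 :=
      congrArg Prod.snd h2
    revert h3
    generalize (finProdFinEquiv.symm a).2 = t
    revert t
    decide
  have h2 : ∀ a, (σ * σ) a = a := by
    intro a
    change finProdFinEquiv (τ (finProdFinEquiv.symm (finProdFinEquiv (τ (finProdFinEquiv.symm a)))))
      = a
    rw [Equiv.symm_apply_apply]
    have : ∀ x, τ (τ x) = x := by
      rintro ⟨x, t⟩
      change (x, Equiv.swap (0 : Fin 2) 1 (Equiv.swap (0 : Fin 2) 1 t)) = (x, t)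
      rw [Equiv.swap_apply_self]
    rw [this, Equiv.apply_symm_apply]
  refine ⟨σ, ?_, ?_⟩
  · unfold fx
    exact Finset.sum_eq_zero (fun a _ => dl_of_ne (h1 a).symm)
  · unfold fx
    rw [Finset.sum_congr rfl (fun a _ => (by rw [h2 a]; exact dl_self a : dl a ((σ * σ) a) = 1))]
    simp

/-- the limiting polynomial along even `m` -/
noncomputable def qp : Polynomial ℝ :=
  ((Polynomial.X - 4) * (Polynomial.X ^ 2 - 5 * Polynomial.X + 8) + 2 * (Polynomial.X - 2)) *
    (Polynomial.X * (Polynomial.X - 1) * (Polynomial.X - 2) ^ 2)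
  - (5 * Polynomial.X - 16) * (Polynomial.X * (Polynomial.X - 2) ^ 2)
  + (Polynomial.X ^ 2 - 8 * Polynomial.X + 15) *
    (Polynomial.X * (Polynomial.X - 3) * (Polynomial.X - 2))
  - (Polynomial.X * (Polynomial.X - 3) + Polynomial.X)

theorem qp_eval (m : ℕ) : qp.eval (m : ℝ) = ((F0 m 0 m : ℤ) : ℝ) := by
  unfold qp F0
  simp only [Polynomial.eval_sub, Polynomial.eval_add, Polynomial.eval_mul, Polynomial.eval_X,
    Polynomial.eval_pow, Polynomial.eval_ofNat, Polynomial.eval_one]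
  push_cast
  ring

/-- The negation of the preceding statement: For every finite graph G, the DP color function (minimum over all m-fold correspondence covers of the number of independent transversals) agrees with some real polynomial in m for all sufficiently large m. -/
theorem result :
    ¬ (∀ (n : ℕ) (G : SimpleGraph (Fin n)), ∃ N : ℕ, ∃ p : Polynomial ℝ, ∀ m : ℕ, N ≤ m →
      (((sInf {k : ℕ | ∃ M : Fin n → Fin n → Fin m → Fin m → Prop,
          (∀ u v i j, M u v i j → G.Adj u v) ∧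
          (∀ u v i j, M u v i j → M v u j i) ∧
          (∀ u v i j j', M u v i j → M u v i j' → j = j') ∧
          (∀ u v i i' j, M u v i j → M u v i' j → i = i') ∧
          k = Set.ncard {f : Fin n → Fin m | ∀ u v, ¬ M u v (f u) (f v)}} : ℕ) : ℝ)
        = p.eval (m : ℝ))) := by
  intro H
  obtain ⟨N, p, hp⟩ := H 7 G7
  -- even values
  have heven : ∀ k : ℕ, 78 ≤ k → N ≤ k → p.eval ((k * 2 : ℕ) : ℝ) = qp.eval ((k * 2 : ℕ) : ℝ) := by
    intro k hk hN
    rw [← hp (k * 2) (by omega), qp_eval]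
    set S := {x : ℕ | ∃ M : Fin 7 → Fin 7 → Fin (k * 2) → Fin (k * 2) → Prop,
          (∀ u v i j, M u v i j → G7.Adj u v) ∧
          (∀ u v i j, M u v i j → M v u j i) ∧
          (∀ u v i j j', M u v i j → M u v i j' → j = j') ∧
          (∀ u v i i' j, M u v i j → M u v i' j → i = i') ∧
          x = Set.ncard {f : Fin 7 → Fin (k * 2) | ∀ u v, ¬ M u v (f u) (f v)}} with hS
    obtain ⟨σ, hσ1, hσ2⟩ := exists_fpf k
    let ρ : Fin 7 → Equiv.Perm (Fin (k * 2)) := fun i => if i = 6 then σ else 1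
    have hρ : hol ρ = σ := by
      unfold hol
      simp [ρ]
    obtain ⟨M, m1, m2, m3, m4, m5⟩ := cover_of (cons ρ)
    have hmem : cnt (cons ρ) ∈ S := ⟨M, m1, m2, m3, m4, m5⟩
    have hcnt : ((cnt (cons ρ) : ℕ) : ℤ) = F0 ((k * 2 : ℕ) : ℤ) 0 ((k * 2 : ℕ) : ℤ) := by
      rw [cnt_cons, good_sum, hρ, hσ1, hσ2]
    have hle : sInf S ≤ cnt (cons ρ) := Nat.sInf_le hmem
    obtain ⟨M', n1, n2, n3, n4, n5⟩ := Nat.sInf_mem (⟨_, hmem⟩ : S.Nonempty)
    have hge := (cover_lower (m := k * 2) (by omega) M' n1 n2 n3 n4).1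
    rw [← n5] at hge
    have hle' : ((sInf S : ℕ) : ℤ) ≤ F0 ((k * 2 : ℕ) : ℤ) 0 ((k * 2 : ℕ) : ℤ) := by
      rw [← hcnt]; exact_mod_cast hle
    have heq := le_antisymm hle' hge
    exact_mod_cast heq
  -- hence p is the polynomial qp
  have hpq : p = qp := by
    refine Polynomial.eq_of_infinite_eval_eq p qp ?_
    have hinf : Set.Infinite (Set.range (fun k : ℕ => (((k + 78 + N) * 2 : ℕ) : ℝ))) := by
      apply Set.infinite_range_of_injective
      intro a b hab
      have hab' : (((a + 78 + N) * 2 : ℕ) : ℝ) = (((b + 78 + N) * 2 : ℕ) : ℝ) := hab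
      have : (a + 78 + N) * 2 = (b + 78 + N) * 2 := by exact_mod_cast hab'
      omega
    refine hinf.mono ?_
    rintro _ ⟨k, rfl⟩
    exact heven (k + 78 + N) (by omega) (by omega)
  -- an odd value
  set m := 2 * (78 + N) + 1 with hm
  have hodd : Odd m := ⟨78 + N, rfl⟩
  have hval := hp m (by omega)
  rw [hpq, qp_eval] at hval
  set S := {x : ℕ | ∃ M : Fin 7 → Fin 7 → Fin m → Fin m → Prop,
          (∀ u v i j, M u v i j → G7.Adj u v) ∧
          (∀ u v i j, M u v i j → M v u j i) ∧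
          (∀ u v i j j', M u v i j → M u v i j' → j = j') ∧
          (∀ u v i i' j, M u v i j → M u v i' j → i = i') ∧
          x = Set.ncard {f : Fin 7 → Fin m | ∀ u v, ¬ M u v (f u) (f v)}} with hS
  obtain ⟨M, m1, m2, m3, m4, m5⟩ := cover_of (fun _ : E => (1 : Equiv.Perm (Fin m)))
  have hmem : cnt (fun _ : E => (1 : Equiv.Perm (Fin m))) ∈ S := ⟨M, m1, m2, m3, m4, m5⟩
  obtain ⟨M', n1, n2, n3, n4, n5⟩ := Nat.sInf_mem (⟨_, hmem⟩ : S.Nonempty)
  have hgt := (cover_lower (m := m) (by omega) M' n1 n2 n3 n4).2 hodd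
  rw [← n5] at hgt
  have hval' : ((sInf S : ℕ) : ℤ) = F0 m 0 m := by exact_mod_cast hval
  omega

end Pool.Agent.S10590
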