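import Pool.Statements.S10592
import Pool.Agent.H304R3.Ultra

set_option autoImplicit false
open Pool Pool.MP_a5a405_co

namespace Pool.Agent.S10592

/-- The negation of the preceding statement: Fix nonzero integers a_i, b_i, c_i and n ≥ 1. Every finite colouring gives nonzero one-colour x_i, y_i, w_i, z_i with a_i x_i + b_i y_i = c_i w_i z_i^n for all i iff some rational n-th power lies in every set {a_i/c_i, b_i/c_i, (a_i+b_i)/c_i}. -/
theorem result :
    ¬ (∀ (k : ℕ) (a b c : Fin k → ℤ) (n : ℕ),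
      (∀ i, a i ≠ 0 ∧ b i ≠ 0 ∧ c i ≠ 0) → 1 ≤ n →
      ((∀ (r : ℕ) (χ : ℤ → Fin r), ∃ (x y w z : Fin k → ℤ) (col : Fin r),
          ∀ i, x i ≠ 0 ∧ y i ≠ 0 ∧ w i ≠ 0 ∧ z i ≠ 0 ∧
            a i * x i + b i * y i = c i * w i * z i ^ n ∧
            χ (x i) = col ∧ χ (y i) = col ∧ χ (w i) = col ∧ χ (z i) = col) ↔
        ∃ q : ℚ, ∀ i, q ^ n = (a i : ℚ) / (c i : ℚ) ∨ q ^ n = (b i : ℚ) / (c i : ℚ) ∨
          q ^ n = ((a i : ℚ) + (b i : ℚ)) / (c i : ℚ))) := by
  intro h
  have h1 := (h 2 ![1, 1] ![-1, 1] ![2, 1] 1 (by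
    intro i
    fin_cases i <;> simp) le_rfl).mp (by
      intro r χ
      obtain ⟨col, ⟨x, y, w, z, hx, hy, hw, hz, he, c1, c2, c3, c4⟩,
        ⟨x', y', w', z', hx', hy', hw', hz', he', c1', c2', c3', c4'⟩⟩ :=
        Pool.Agent.H304R3.Ultra.two_equations r (fun n => χ (n : ℤ))
      refine ⟨![(x : ℤ), (x' : ℤ)], ![(y : ℤ), (y' : ℤ)], ![(w : ℤ), (w' : ℤ)],
        ![(z : ℤ), (z' : ℤ)], col, ?_⟩
      intro i
      fin_cases i
      · refine ⟨by simpa using (by omega : x ≠ 0), by simpa using (by omega : y ≠ 0),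
          by simpa using (by omega : w ≠ 0), by simpa using (by omega : z ≠ 0), ?_, c1, c2, c3, c4⟩
        have : (x : ℤ) = y + 2 * w * z := by exact_mod_cast he
        simp
        rw [this]
        ring
      · refine ⟨by simpa using (by omega : x' ≠ 0), by simpa using (by omega : y' ≠ 0),
          by simpa using (by omega : w' ≠ 0), by simpa using (by omega : z' ≠ 0), ?_,
          c1', c2', c3', c4'⟩
        have : (x' : ℤ) + y' = w' * z' := by exact_mod_cast he'
        simp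
        rw [this])
  obtain ⟨q, hq⟩ := h1
  have h2 := hq 0
  have h3 := hq 1
  simp at h2 h3
  rcases h2 with h2 | h2 | h2 <;> rcases h3 with h3 | h3 <;> rw [h2] at h3 <;> norm_num at h3

end Pool.Agent.S10592
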