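import Pool.Statements.S10616

set_option autoImplicit false
open Pool Pool.MP_a6f6ae_co

namespace Pool.Agent.S10616

/-- The Apery numbers for zeta(2). -/
def aperyB (n : ℕ) : ℕ :=
  ∑ k ∈ Finset.range (n + 1), (n.choose k) ^ 2 * ((n + k).choose k)

/-- Coefficients of the test polynomial. -/
def cf : Fin 11 → ℤ :=
  ![197571622345, -897660649809, 1390027262944, -1057701415635, 460495210729, -123687092931, 21202563294, -2325507359, 157957414, -6051995, 100000]

set_option maxRecDepth 100000 in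
theorem cert : (∑ i : Fin 11, ∑ j : Fin 11, cf i * cf j * (aperyB ((i : ℕ) + (j : ℕ) + 1) : ℤ)) < 0 := by
  decide +kernel

theorem no_measure :
    ¬ ∃ μ : MeasureTheory.Measure ℝ, μ (Set.Iio 0) = 0 ∧ ∀ n : ℕ,
      ∫⁻ x, ENNReal.ofReal (x ^ n) ∂μ =
        ((∑ k ∈ Finset.range (n + 1), (n.choose k) ^ 2 * ((n + k).choose k) : ℕ) : ENNReal) := by
  rintro ⟨μ, hμ, hm⟩
  have hae : ∀ᵐ x ∂μ, 0 ≤ x := by
    rw [MeasureTheory.ae_iff]
    have : {x : ℝ | ¬ 0 ≤ x} = Set.Iio 0 := by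
      ext x; simp
    rw [this]; exact hμ
  have hmeas : ∀ n : ℕ, MeasureTheory.AEStronglyMeasurable (fun x : ℝ => x ^ n) μ := fun n =>
    (measurable_id.pow_const n).aestronglyMeasurable
  have hnn : ∀ n : ℕ, 0 ≤ᵐ[μ] (fun x : ℝ => x ^ n) := by
    intro n
    filter_upwards [hae] with x hx
    exact pow_nonneg hx n
  have hint : ∀ n : ℕ, MeasureTheory.Integrable (fun x : ℝ => x ^ n) μ := by
    intro n
    refine ⟨hmeas n, ?_⟩
    rw [MeasureTheory.hasFiniteIntegral_iff_ofReal (hnn n), hm n]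
    exact ENNReal.natCast_lt_top _
  have hmom : ∀ n : ℕ, ∫ x, x ^ n ∂μ = (aperyB n : ℝ) := by
    intro n
    rw [MeasureTheory.integral_eq_lintegral_of_nonneg_ae (hnn n) (hmeas n), hm n]
    rw [ENNReal.toReal_natCast]; rfl
  have key : 0 ≤ ∫ x, x * (∑ i : Fin 11, (cf i : ℝ) * x ^ (i : ℕ)) ^ 2 ∂μ := by
    apply MeasureTheory.integral_nonneg_of_ae
    filter_upwards [hae] with x hx
    exact mul_nonneg hx (sq_nonneg _)
  have hexp : (fun x : ℝ => x * (∑ i : Fin 11, (cf i : ℝ) * x ^ (i : ℕ)) ^ 2) =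
      fun x : ℝ => ∑ i : Fin 11, ∑ j : Fin 11, ((cf i : ℝ) * (cf j : ℝ)) * x ^ ((i : ℕ) + (j : ℕ) + 1) := by
    funext x
    rw [sq, Finset.sum_mul_sum, Finset.mul_sum]
    apply Finset.sum_congr rfl
    intro i _
    rw [Finset.mul_sum]
    apply Finset.sum_congr rfl
    intro j _
    ring
  rw [hexp, MeasureTheory.integral_finsetSum] at key
  · have h2 : ∀ i : Fin 11, ∫ x, ∑ j : Fin 11, ((cf i : ℝ) * (cf j : ℝ)) * x ^ ((i : ℕ) + (j : ℕ) + 1) ∂μ
        = ∑ j : Fin 11, ((cf i : ℝ) * (cf j : ℝ)) * (aperyB ((i : ℕ) + (j : ℕ) + 1) : ℝ) := by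
      intro i
      rw [MeasureTheory.integral_finsetSum]
      · apply Finset.sum_congr rfl
        intro j _
        rw [MeasureTheory.integral_const_mul, hmom]
      · intro j _
        exact (hint _).const_mul _
    simp only [h2] at key
    have h3 : ((∑ i : Fin 11, ∑ j : Fin 11, cf i * cf j * (aperyB ((i : ℕ) + (j : ℕ) + 1) : ℤ) : ℤ) : ℝ) < 0 := by
      exact_mod_cast cert
    push_cast at h3
    linarith
  · intro i _
    apply MeasureTheory.integrable_finsetSum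
    intro j _
    exact (hint _).const_mul _

/-- The negation of the preceding statement: There is a measure on the nonnegative reals whose n-th moments are the Apéry numbers A_n = sum of C(n,k)^2 C(n+k,k)^2, and another whose n-th moments are B_n = sum of C(n,k)^2 C(n+k,k), for all n. -/
theorem result :
    ¬ ((∃ μ : MeasureTheory.Measure ℝ, μ (Set.Iio 0) = 0 ∧ ∀ n : ℕ,
      ∫⁻ x, ENNReal.ofReal (x ^ n) ∂μ =
        ((∑ k ∈ Finset.range (n + 1), (n.choose k) ^ 2 * ((n + k).choose k) ^ 2 : ℕ) : ENNReal)) ∧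
    (∃ μ : MeasureTheory.Measure ℝ, μ (Set.Iio 0) = 0 ∧ ∀ n : ℕ,
      ∫⁻ x, ENNReal.ofReal (x ^ n) ∂μ =
        ((∑ k ∈ Finset.range (n + 1), (n.choose k) ^ 2 * ((n + k).choose k) : ℕ) : ENNReal))) := by
  rintro ⟨_, h⟩
  exact no_measure h

end Pool.Agent.S10616
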