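import Pool.Statements.S10620
import Pool.Agent.H783R3.ZeroOneBaire
import Pool.Agent.H783R3.ZeroOneSup

set_option autoImplicit false
open Pool Pool.MP_a73857_co

namespace Pool.Agent.S10620

open Pool.Agent.H783R3 Set

/-- The sup norm as a continuous function. -/
def supC : C(Fin 2 → ℝ, ℝ) := ⟨fun x => ‖x‖, continuous_norm⟩

/-- The Euclidean norm as a continuous function. -/
noncomputable def eucC : C(Fin 2 → ℝ, ℝ) :=
  ⟨fun x => ‖(WithLp.toLp 2 x : EuclideanSpace ℝ (Fin 2))‖,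
    continuous_norm.comp (PiLp.continuous_toLp 2 _)⟩

theorem sup_isNrm : IsNrm 2 supC := by
  refine ⟨?_, ?_, ?_⟩
  · intro x hx
    exact norm_eq_zero.1 hx
  · intro x y
    exact norm_add_le x y
  · intro c x
    exact norm_smul c x

theorem euc_isNrm : IsNrm 2 eucC := by
  refine ⟨?_, ?_, ?_⟩
  · intro x hx
    have h1 : ‖(WithLp.toLp 2 x : EuclideanSpace ℝ (Fin 2))‖ = 0 := hx
    rw [norm_eq_zero] at h1
    exact (WithLp.toLp_eq_zero 2).1 h1
  · intro x y
    show ‖(WithLp.toLp 2 (x + y) : EuclideanSpace ℝ (Fin 2))‖ ≤ _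
    rw [WithLp.toLp_add]
    exact norm_add_le _ _
  · intro c x
    show ‖(WithLp.toLp 2 (c • x) : EuclideanSpace ℝ (Fin 2))‖ = _
    rw [WithLp.toLp_smul]
    exact norm_smul _ _

theorem euc_sq (x : Fin 2 → ℝ) : eucC x ^ 2 = x 0 ^ 2 + x 1 ^ 2 := by
  show ‖(WithLp.toLp 2 x : EuclideanSpace ℝ (Fin 2))‖ ^ 2 = _
  rw [EuclideanSpace.norm_sq_eq]
  simp

/-- The Euclidean unit circle. -/
def circ : Set (Fin 2 → ℝ) := {x | x 0 ^ 2 + x 1 ^ 2 = 1}

theorem circ_compact : IsCompact circ := by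
  apply Metric.isCompact_of_isClosed_isBounded
  · exact isClosed_eq (by fun_prop) continuous_const
  · rw [isBounded_iff_forall_norm_le]
    refine ⟨1, ?_⟩
    intro x hx
    have hx' : x 0 ^ 2 + x 1 ^ 2 = 1 := hx
    apply norm_fin2_le zero_le_one
    · rw [← sq_le_one_iff_abs_le_one]
      nlinarith [sq_nonneg (x 1)]
    · rw [← sq_le_one_iff_abs_le_one]
      nlinarith [sq_nonneg (x 0)]

theorem main : ¬ Xor'
        ({N : {f : C(Fin 2 → ℝ, ℝ) // IsNrm 2 f} |
            ∃ φ : Fin 10 → (Fin 2 → ℝ), Function.Injective φ ∧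
              ∀ u v, HG.Adj u v → N.1 (φ u - φ v) = 1} ∈ residual _)
        ({N : {f : C(Fin 2 → ℝ, ℝ) // IsNrm 2 f} |
            ¬ ∃ φ : Fin 10 → (Fin 2 → ℝ), Function.Injective φ ∧
              ∀ u v, HG.Adj u v → N.1 (φ u - φ v) = 1} ∈ residual _) := by
  have hB : BaireSpace {f : C(Fin 2 → ℝ, ℝ) // IsNrm 2 f} := baire_nrm 2
  -- first set is not residual
  have h1 : ¬ ({N : {f : C(Fin 2 → ℝ, ℝ) // IsNrm 2 f} |
            ∃ φ : Fin 10 → (Fin 2 → ℝ), Function.Injective φ ∧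
              ∀ u v, HG.Adj u v → N.1 (φ u - φ v) = 1} ∈ residual _) := by
    intro h
    have hd := dense_of_mem_residual h
    have hopen : IsOpen {N : {f : C(Fin 2 → ℝ, ℝ) // IsNrm 2 f} |
        MapsTo N.1 circ (Ioo (99 / 100) (1009 / 1000))} :=
      (ContinuousMap.isOpen_setOfPred_mapsTo circ_compact isOpen_Ioo).preimage
        continuous_subtype_val
    obtain ⟨N, hN1, hN2⟩ := hd.inter_open_nonempty _ hopen ⟨⟨eucC, euc_isNrm⟩, by
      intro x hx
      have hx' : x 0 ^ 2 + x 1 ^ 2 = 1 := hx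
      have h2 := euc_sq x
      rw [hx'] at h2
      have h3 : (0 : ℝ) ≤ eucC x :=
        norm_nonneg (WithLp.toLp 2 x : EuclideanSpace ℝ (Fin 2))
      have h4 : eucC x = 1 := by
        have h5 : (eucC x - 1) * (eucC x + 1) = 0 := by linear_combination h2
        rcases mul_eq_zero.1 h5 with h | h <;> linarith
      show eucC x ∈ Ioo _ _
      rw [h4]
      constructor <;> norm_num⟩
    obtain ⟨φ, inj, hadj⟩ := hN2
    have hs : IsSemi 2 N.1 := ⟨N.2.2.1, N.2.2.2⟩
    have scal : ∀ x : Fin 2 → ℝ, 0 < x 0 ^ 2 + x 1 ^ 2 → ∃ y ∈ circ,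
        N.1 x ^ 2 = (x 0 ^ 2 + x 1 ^ 2) * N.1 y ^ 2 := by
      intro x hx
      have hr : 0 < Real.sqrt (x 0 ^ 2 + x 1 ^ 2) := Real.sqrt_pos.2 hx
      have hr2 : Real.sqrt (x 0 ^ 2 + x 1 ^ 2) ^ 2 = x 0 ^ 2 + x 1 ^ 2 := Real.sq_sqrt hx.le
      refine ⟨(Real.sqrt (x 0 ^ 2 + x 1 ^ 2))⁻¹ • x, ?_, ?_⟩
      · show (((Real.sqrt (x 0 ^ 2 + x 1 ^ 2))⁻¹ • x) 0) ^ 2 +
          (((Real.sqrt (x 0 ^ 2 + x 1 ^ 2))⁻¹ • x) 1) ^ 2 = 1
        simp only [Pi.smul_apply, smul_eq_mul, mul_pow, inv_pow]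
        rw [hr2, ← mul_add, inv_mul_cancel₀ hx.ne']
      · rw [N.2.2.2, mul_pow, sq_abs, inv_pow, hr2]
        field_simp
    refine euclid_excl N.1 N.2.2.1 N.2.2.2 (semi_nonneg hs) ?_ ?_ φ inj hadj
    · intro x
      rcases (by positivity : 0 ≤ x 0 ^ 2 + x 1 ^ 2).lt_or_eq with hx | hx
      · obtain ⟨y, hy, e⟩ := scal x hx
        have hy1 := (hN1 hy).1
        rw [e, mul_comm]
        apply mul_le_mul_of_nonneg_left _ hx.le
        nlinarith
      · rw [← hx, mul_zero]
        exact sq_nonneg _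
    · intro x
      rcases (by positivity : 0 ≤ x 0 ^ 2 + x 1 ^ 2).lt_or_eq with hx | hx
      · obtain ⟨y, hy, e⟩ := scal x hx
        have hy1 := (hN1 hy).1
        have hy2 := (hN1 hy).2
        rw [e, mul_comm (102 / 100 : ℝ)]
        apply mul_le_mul_of_nonneg_left _ hx.le
        nlinarith
      · have h0 : x 0 = 0 := by nlinarith [sq_nonneg (x 0), sq_nonneg (x 1)]
        have h1 : x 1 = 0 := by nlinarith [sq_nonneg (x 0), sq_nonneg (x 1)]
        have hx0 : x = 0 := by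
          ext i
          fin_cases i
          · exact h0
          · exact h1
        have : N.1 x = 0 := by
          rw [hx0]
          have := N.2.2.2 0 0
          simpa using this
        rw [this, ← hx]
        norm_num
  have h2 : ¬ ({N : {f : C(Fin 2 → ℝ, ℝ) // IsNrm 2 f} |
            ¬ ∃ φ : Fin 10 → (Fin 2 → ℝ), Function.Injective φ ∧
              ∀ u v, HG.Adj u v → N.1 (φ u - φ v) = 1} ∈ residual _) := by
    intro h
    have hd := dense_of_mem_residual h
    have hopen : IsOpen {N : {f : C(Fin 2 → ℝ, ℝ) // IsNrm 2 f} |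
        MapsTo N.1 (Metric.sphere (0 : Fin 2 → ℝ) 1) (Ioo (999 / 1000) (1001 / 1000))} :=
      (isOpen_mapsTo_sphere 2 _ isOpen_Ioo).preimage continuous_subtype_val
    obtain ⟨N, hN1, hN2⟩ := hd.inter_open_nonempty _ hopen ⟨⟨supC, sup_isNrm⟩, by
      intro x hx
      have h4 : supC x = 1 := by
        show ‖x‖ = 1
        simpa using hx
      show supC x ∈ Ioo _ _
      rw [h4]
      constructor <;> norm_num⟩
    apply hN2
    have hs : IsSemi 2 N.1 := ⟨N.2.2.1, N.2.2.2⟩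
    have scal : ∀ x : Fin 2 → ℝ, x ≠ 0 → ∃ y ∈ Metric.sphere (0 : Fin 2 → ℝ) 1,
        N.1 x = ‖x‖ * N.1 y := by
      intro x hx
      have hr : ‖x‖ ≠ 0 := norm_ne_zero_iff.2 hx
      refine ⟨‖x‖⁻¹ • x, ?_, ?_⟩
      · simp [norm_smul, hr]
      · rw [N.2.2.2, abs_of_nonneg (by positivity)]
        field_simp
    have hz : N.1 0 = 0 := by
      have := N.2.2.2 0 0
      simpa using this
    refine sup_incl N.1 N.1.continuous N.2.2.2 ?_ ?_
    · intro x
      by_cases hx : x = 0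
      · rw [hx, hz]; simp
      · obtain ⟨y, hy, e⟩ := scal x hx
        rw [e, mul_comm]
        exact mul_le_mul_of_nonneg_left (hN1 hy).1.le (norm_nonneg _)
    · intro x
      by_cases hx : x = 0
      · rw [hx, hz]; simp
      · obtain ⟨y, hy, e⟩ := scal x hx
        rw [e, mul_comm]
        exact mul_le_mul_of_nonneg_right (hN1 hy).2.le (norm_nonneg _)
  intro hx
  rcases hx with ⟨h, _⟩ | ⟨h, _⟩
  · exact h1 h
  · exact h2 h

/-- The negation of the preceding statement: For every d ≥ 2 and finite graph H, exactly one holds: comeagre-many norms on ℝ^d have a unit distance graph containing H as a subgraph, or comeagre-many have one not containing H. Norms carry the topology of uniform convergence on compacts. -/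
theorem result :
    ¬ (∀ d : ℕ, 2 ≤ d → ∀ n : ℕ, ∀ H : SimpleGraph (Fin n),
      Xor'
        ({N : {f : C(Fin d → ℝ, ℝ) //
              (∀ x, f x = 0 → x = 0) ∧
              (∀ x y, f (x + y) ≤ f x + f y) ∧
              (∀ (c : ℝ) x, f (c • x) = |c| * f x)} |
            ∃ φ : Fin n → (Fin d → ℝ), Function.Injective φ ∧
              ∀ u v, H.Adj u v → N.1 (φ u - φ v) = 1} ∈ residual _)
        ({N : {f : C(Fin d → ℝ, ℝ) //
              (∀ x, f x = 0 → x = 0) ∧
              (∀ x y, f (x + y) ≤ f x + f y) ∧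
              (∀ (c : ℝ) x, f (c • x) = |c| * f x)} |
            ¬ ∃ φ : Fin n → (Fin d → ℝ), Function.Injective φ ∧
              ∀ u v, H.Adj u v → N.1 (φ u - φ v) = 1} ∈ residual _)) := by
  intro h
  exact main (h 2 le_rfl 10 HG)

end Pool.Agent.S10620
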