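import Pool.Statements.S10628
import Pool.Agent.H445R3.LiftCount

set_option autoImplicit false
open Pool Pool.MP_a76d3a_co

namespace Pool.Agent.S10628

/-- The negation of the preceding statement: For every finite bipartite graph G, every 2-lift H of G, and every nonnegative symmetric weight matrix A, the weighted homomorphism count of H into A is at most that of G squared, i.e. that of two disjoint copies of G. -/
theorem result :
    ¬ (∀ (V : Type) [Fintype V] [DecidableEq V] (G : SimpleGraph V) [DecidableRel G.Adj],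
      G.Colorable 2 →
      ∀ (H : SimpleGraph (V × Bool)) [DecidableRel H.Adj],
        (∃ s : V → V → Bool, (∀ u v, s u v = s v u) ∧
          ∀ u v : V, ∀ i j : Bool,
            H.Adj (u, i) (v, j) ↔ (G.Adj u v ∧ j = xor i (s u v))) →
        ∀ (n : ℕ) (A : Sym2 (Fin n) → ℝ), (∀ z, 0 ≤ A z) →
          (∑ φ : V × Bool → Fin n, ∏ e ∈ H.edgeFinset, A (Sym2.map φ e)) ≤
            (∑ φ : V → Fin n, ∏ e ∈ G.edgeFinset, A (Sym2.map φ e)) ^ 2) := by
  intro h
  have h1 := h Pool.Agent.H445R3.V14 Pool.Agent.H445R3.G14 Pool.Agent.H445R3.G14_colorable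
    Pool.Agent.H445R3.H28 ⟨Pool.Agent.H445R3.sg, Pool.Agent.H445R3.sg_symm,
      fun u v i j => Iff.rfl⟩ 3 (fun z => (Pool.Agent.H445R3.NA z : ℝ)) (fun z => Nat.cast_nonneg _)
  rw [Pool.Agent.H445R3.ZG_eq, Pool.Agent.H445R3.ZH_eq, Pool.Agent.H445R3.ZG_nat,
    Pool.Agent.H445R3.ZH_nat, Pool.Agent.H445R3.ZG_val, Pool.Agent.H445R3.ZH_val] at h1
  norm_num at h1

end Pool.Agent.S10628
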