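import Pool.Statements.S10662
import Pool.Agent.H368R3.Final

set_option autoImplicit false
open Pool Pool.MP_a8e1ec_co

namespace Pool.Agent.S10662

open Pool.Agent.H368R3.Rigid Pool.Agent.H368R3.Final in
/-- The negation of the preceding statement: Every locally finite graph whose automorphism group has finitely many vertex orbits, with a component containing two edges, has an edge-coloring with two differently colored edges in one component, whose color-preserving automorphisms have finitely many vertex orbits. -/
theorem result :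
    ¬ (∀ (V : Type) (G : SimpleGraph V),
      (∀ v : V, (G.neighborSet v).Finite) →
      (∃ S : Finset V, ∀ v : V, ∃ s ∈ S, ∃ φ : G ≃g G, φ s = v) →
      (∃ u v w x : V, G.Adj u v ∧ G.Adj w x ∧ G.Reachable u w ∧ s(u, v) ≠ s(w, x)) →
      ∃ (C : Type) (c : Sym2 V → C),
        (∃ u v w x : V, G.Adj u v ∧ G.Adj w x ∧ G.Reachable u w ∧ c s(u, v) ≠ c s(w, x)) ∧
        (∃ S : Finset V, ∀ v : V, ∃ s ∈ S, ∃ φ : G ≃g G,
          (∀ a b : V, G.Adj a b → c s(φ a, φ b) = c s(a, b)) ∧ φ s = v)) := by
  intro hall
  obtain ⟨C, c, ⟨u, v, w, x, huv, hwx, -, hne⟩, hS⟩ :=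
    hall (VV y) Pool.Agent.H368R3.Final.G
      (fun v => Set.finite_of_ncard_ne_zero (by rw [four]; norm_num))
      ⟨{cs y 1}, fun v => ⟨cs y 1, Finset.mem_singleton_self _, trans _ _⟩⟩
      (by
        refine ⟨cs y 1, cs y (1 * ex Pool.Agent.H368R3.Final.x true), cs y 1,
          cs y (1 * ex Pool.Agent.H368R3.Final.x false), adj_ex good 1 true, adj_ex good 1 false,
          SimpleGraph.Reachable.refl _, fun h => ?_⟩
        rw [Sym2.congr_right] at h
        have := N1 good h
        simp at this)
  exact hne ((edge_const c hS u v huv).trans (edge_const c hS w x hwx).symm)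

end Pool.Agent.S10662
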