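import Pool.Statements.S10673
import Pool.Agent.H800R3.Roudneff

set_option autoImplicit false
open Pool Pool.MP_a97014_co

namespace Pool.Agent.S10673

/-- For d ≥ 2 and n ≥ 2d+1, every uniform rank-(d+1) chirotope on n elements has at most 2·∑_{i=0}^{d-2} C(n-1,i) complete topes (topes all of whose one-element flips are topes), i.e. at most that sum of complete cells up to antipode. -/
theorem result :
  ∀ (d n : ℕ), 2 ≤ d → 2 * d + 1 ≤ n →
  ∀ χ : (Fin (d + 1) → Fin n) → ℤ,
    (∀ x, χ x = 0 ∨ χ x = 1 ∨ χ x = -1) →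
    (∀ x, χ x ≠ 0 ↔ Function.Injective x) →
    (∀ (x : Fin (d + 1) → Fin n) (σ : Equiv.Perm (Fin (d + 1))),
      χ (x ∘ σ) = ((Equiv.Perm.sign σ : ℤˣ) : ℤ) * χ x) →
    (∀ (x : Fin (d + 1) → Fin n) (i j : Fin (d + 1)) (a b c e : Fin n), i ≠ j →
      ¬ (χ (Function.update (Function.update x i a) j b) *
            χ (Function.update (Function.update x i c) j e) =
          -(χ (Function.update (Function.update x i a) j c) *
            χ (Function.update (Function.update x i b) j e)) ∧
         -(χ (Function.update (Function.update x i a) j c) *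
            χ (Function.update (Function.update x i b) j e)) =
          χ (Function.update (Function.update x i a) j e) *
            χ (Function.update (Function.update x i b) j c) ∧
         χ (Function.update (Function.update x i a) j b) *
            χ (Function.update (Function.update x i c) j e) ≠ 0)) →
    (Finset.univ.filter (fun T : Finset (Fin n) =>
      ∀ U : Finset (Fin n), (U = T ∨ ∃ e : Fin n, U = symmDiff T {e}) →
        ∀ y : Fin (d + 2) → Fin n, Function.Injective y →
          ∃ i j : Fin (d + 2),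
            (if y i ∈ U then (-1 : ℤ) else 1) *
                ((-1 : ℤ) ^ (i : ℕ) * χ (y ∘ i.succAbove)) = 1 ∧
            (if y j ∈ U then (-1 : ℤ) else 1) *
                ((-1 : ℤ) ^ (j : ℕ) * χ (y ∘ j.succAbove)) = -1)).card
      ≤ 2 * ∑ i ∈ Finset.range (d - 1), (n - 1).choose i := by
  classical
  intro d n hd hn χ hχ _ _ _
  set S : Finset (Fin n) → Prop := fun U => ∀ y : Fin (d + 2) → Fin n, Function.Injective y →
          ∃ i j : Fin (d + 2),
            (if y i ∈ U then (-1 : ℤ) else 1) *
                ((-1 : ℤ) ^ (i : ℕ) * χ (y ∘ i.succAbove)) = 1 ∧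
            (if y j ∈ U then (-1 : ℤ) else 1) *
                ((-1 : ℤ) ^ (j : ℕ) * χ (y ∘ j.succAbove)) = -1 with hS
  have hcompl : ∀ T, S T → S Tᶜ := by
    intro T hT y hy
    obtain ⟨i, j, h1, h2⟩ := hT y hy
    have key : ∀ k : Fin (d + 2), (if y k ∈ Tᶜ then (-1 : ℤ) else 1) =
        - (if y k ∈ T then (-1 : ℤ) else 1) := by
      intro k; by_cases h : y k ∈ T <;> simp [h]
    refine ⟨j, i, ?_, ?_⟩
    · rw [key, neg_mul, h2]; norm_num
    · rw [key, neg_mul, h1]
  have hnot : ∀ Y : Finset (Fin n), d + 2 ≤ Y.card → H800R3.Roud.NotShatter S Y := by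
    intro Y hY
    obtain ⟨Y', hY', hcard⟩ := Finset.exists_subset_card_eq hY
    let y : Fin (d + 2) → Fin n := fun i => Y'.orderEmbOfFin hcard i
    have hy : Function.Injective y := (Y'.orderEmbOfFin hcard).injective
    have hyY : ∀ i, y i ∈ Y := fun i => hY' (Finset.orderEmbOfFin_mem Y' hcard i)
    let c : Fin (d + 2) → ℤ := fun i => (-1 : ℤ) ^ (i : ℕ) * χ (y ∘ i.succAbove)
    refine ⟨Finset.univ.filter (fun v => ∃ i, y i = v ∧ c i = -1), ?_⟩
    intro T hT
    obtain ⟨i, j, h1, h2⟩ := hT y hy
    refine ⟨y j, hyY j, ?_⟩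
    have hmem : (y j ∈ Finset.univ.filter (fun v => ∃ i, y i = v ∧ c i = -1)) ↔ c j = -1 := by
      rw [Finset.mem_filter]
      constructor
      · rintro ⟨_, k, hk, hck⟩
        rw [← hy hk]; exact hck
      · intro h; exact ⟨Finset.mem_univ _, j, rfl, h⟩
    rw [hmem]
    have h3 : (if y j ∈ T then (-1 : ℤ) else 1) * c j = -1 := h2
    by_cases h : y j ∈ T
    · rw [if_pos h] at h3
      intro h4
      have := h4.mp h
      omega
    · rw [if_neg h] at h3
      intro h4
      exact h (h4.mpr (by omega))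
  have hmain := H800R3.Roud.count (S := S) (d := d) (by omega) hn hcompl hnot
  refine le_trans (le_of_eq ?_) hmain
  congr 1
  ext T
  simp only [Finset.mem_filter, Finset.mem_univ, true_and]
  constructor
  · intro h
    refine ⟨h T (Or.inl rfl), fun e => h _ (Or.inr ⟨e, rfl⟩)⟩
  · rintro ⟨h1, h2⟩ U (rfl | ⟨e, rfl⟩)
    · exact h1
    · exact h2 e

end Pool.Agent.S10673
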