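import Pool.Statements.S10676
-- import your own Pool.Agent.* helpers here

set_option autoImplicit false
open Pool Pool.MP_a9902f_co

namespace Pool.Agent.S10676

/-- The 30 element factor containing 0, 21, 55. -/
def Rl : List ℕ := [0, 15, 21, 45, 55, 75, 105, 135, 195, 201, 285, 315, 355, 375, 381, 405, 435, 450, 465, 495, 561, 585, 615, 645, 655, 735, 741, 765, 795, 825]

/-- The 30 element factor containing 0 and 1. -/
def Sl : List ℕ := [0, 1, 28, 29, 100, 101, 128, 153, 200, 225, 252, 253, 325, 352, 353, 425, 452, 477, 504, 576, 577, 604, 676, 677, 704, 729, 776, 801, 828, 829]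

theorem surj_check : (List.range 900).all (fun x => Rl.any fun a => Sl.any fun b =>
    Nat.beq ((a + b) % 900) x) = true := by decide +kernel

theorem cardR : Rl.toFinset.card = 30 := by decide +kernel

theorem cardS : Sl.toFinset.card = 30 := by decide +kernel

theorem surj (x : ZMod 900) : ∃ a ∈ Rl, ∃ b ∈ Sl, ((a + b : ℕ) : ZMod 900) = x := by
  have h := surj_check
  rw [List.all_eq_true] at h
  have hx := h x.val (List.mem_range.2 (ZMod.val_lt x))
  rw [List.any_eq_true] at hx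
  obtain ⟨a, ha, hb⟩ := hx
  rw [List.any_eq_true] at hb
  obtain ⟨b, hb, hab⟩ := hb
  refine ⟨a, ha, b, hb, ?_⟩
  have h1 : (a + b) % 900 = x.val := Nat.eq_of_beq_eq_true hab
  have h2 : ((a + b : ℕ) : ZMod 900) = (((a + b) % 900 : ℕ) : ZMod 900) := by
    rw [ZMod.natCast_mod]
  rw [h2, h1, ZMod.natCast_zmod_val]

theorem key : ∀ x : ZMod 900, ∃! rs : ℕ × ℕ,
    rs.1 ∈ Rl.toFinset ∧ rs.2 ∈ Sl.toFinset ∧ (((rs.1 + rs.2 : ℕ)) : ZMod 900) = x := by
  classical
  let f : (↥(Rl.toFinset ×ˢ Sl.toFinset)) → ZMod 900 := fun p => ((p.1.1 + p.1.2 : ℕ) : ZMod 900)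
  have hf : Function.Surjective f := by
    intro x
    obtain ⟨a, ha, b, hb, hab⟩ := surj x
    exact ⟨⟨(a, b), Finset.mem_product.2 ⟨List.mem_toFinset.2 ha, List.mem_toFinset.2 hb⟩⟩, hab⟩
  have hcard : Fintype.card (↥(Rl.toFinset ×ˢ Sl.toFinset)) = Fintype.card (ZMod 900) := by
    rw [Fintype.card_coe, Finset.card_product, cardR, cardS, ZMod.card]
  have hb : Function.Bijective f := (Fintype.bijective_iff_surjective_and_card f).2 ⟨hf, hcard⟩
  intro x
  obtain ⟨p, hp⟩ := hf x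
  refine ⟨p.1, ⟨(Finset.mem_product.1 p.2).1, (Finset.mem_product.1 p.2).2, hp⟩, ?_⟩
  rintro ⟨a, b⟩ ⟨ha, hb', hab⟩
  have := hb.1 (a₁ := ⟨(a, b), Finset.mem_product.2 ⟨ha, hb'⟩⟩) (a₂ := p) (by rw [hp]; exact hab)
  exact congrArg Subtype.val this

/-- The negation of the preceding statement: For coprime p,q ≥ 2 there is no n ≥ 1 and no finite sets R,S of naturals with 0,p,q in R and 0,1 in S such that every residue mod n is r+s mod n for exactly one pair (r,s) in R×S. -/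
theorem result :
    ¬ (∀ p q : ℕ, 2 ≤ p → 2 ≤ q → Nat.Coprime p q →
      ¬ ∃ n : ℕ, 1 ≤ n ∧ ∃ R S : Finset ℕ,
        0 ∈ R ∧ p ∈ R ∧ q ∈ R ∧ 0 ∈ S ∧ 1 ∈ S ∧
        ∀ x : ZMod n, ∃! rs : ℕ × ℕ,
          rs.1 ∈ R ∧ rs.2 ∈ S ∧ (((rs.1 + rs.2 : ℕ)) : ZMod n) = x) := by
  intro h
  refine h 21 55 (by norm_num) (by norm_num) (by norm_num) ⟨900, by norm_num, Rl.toFinset, Sl.toFinset,
    by decide, by decide, by decide, by decide, by decide, key⟩

end Pool.Agent.S10676
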