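import Pool.Statements.S10690
import Pool.Agent.H594R3.Ex3

set_option autoImplicit false
open Classical
open Pool Pool.MP_aa61ff_co

namespace Pool.Agent.S10690

/-- the ground set of the example: the binary projective space of rank 7 and three further points -/
lemma example_exists : ∃ (n : ℕ) (v : Fin n → (Fin 7 → ZMod 2) × ZMod 2 × ZMod 2)
    (a b : Fin 7 → ZMod 2), a ≠ 0 ∧ b ≠ 0 ∧ a ≠ b ∧ Set.range v = H594R3.Ex.E0 a := by
  let a : Fin 7 → ZMod 2 := Pi.single 0 1
  let b : Fin 7 → ZMod 2 := Pi.single 1 1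
  have hfin : Finite (H594R3.Ex.E0 a) := Set.toFinite _
  obtain ⟨n, ⟨e⟩⟩ := Finite.exists_equiv_fin (H594R3.Ex.E0 a)
  refine ⟨n, fun i => (e.symm i : (Fin 7 → ZMod 2) × ZMod 2 × ZMod 2), a, b, ?_, ?_, ?_, ?_⟩
  · intro h
    have := congrFun h 0
    simp [a] at this
  · intro h
    have := congrFun h 1
    simp [b] at this
  · intro h
    have := congrFun h 0
    simp [a, b] at this
  · ext x
    constructor
    · rintro ⟨i, rfl⟩
      exact (e.symm i).2
    · intro hx
      exact ⟨e ⟨x, hx⟩, by simp⟩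

/-- The negation of the preceding statement: For every finite matroid, the coefficient sequence of its inverse Kazhdan–Lusztig polynomial is log-concave and has no internal zeros. Here Q is characterised as the incidence-algebra inverse, up to signs, of the KL polynomials defined via characteristic polynomials of flat intervals. -/
theorem result :
    ¬ (∀ (n : ℕ) (M : Matroid (Fin n)), M.E = Set.univ →
  ∀ (P Q : Finset (Fin n) → Finset (Fin n) → Polynomial ℤ),
  (∀ F : Finset (Fin n), M.IsFlat (F : Set (Fin n)) → P F F = 1 ∧ Q F F = 1) →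
  (∀ F G : Finset (Fin n), M.IsFlat (F : Set (Fin n)) → M.IsFlat (G : Set (Fin n)) → F ⊂ G →
     2 * (P F G).natDegree < (M.eRk (G : Set (Fin n))).toNat - (M.eRk (F : Set (Fin n))).toNat ∧
     Polynomial.reflect ((M.eRk (G : Set (Fin n))).toNat - (M.eRk (F : Set (Fin n))).toNat) (P F G) =
       ∑ H ∈ Finset.univ.filter
           (fun H : Finset (Fin n) => M.IsFlat (H : Set (Fin n)) ∧ F ⊆ H ∧ H ⊆ G),
         (∑ A ∈ (H \ F).powerset,
            (-1 : Polynomial ℤ) ^ A.card *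
              Polynomial.X ^ ((M.eRk (H : Set (Fin n))).toNat
                - (M.eRk ((A ∪ F : Finset (Fin n)) : Set (Fin n))).toNat)) * P H G ∧
     ∑ H ∈ Finset.univ.filter
           (fun H : Finset (Fin n) => M.IsFlat (H : Set (Fin n)) ∧ F ⊆ H ∧ H ⊆ G),
         (-1 : Polynomial ℤ) ^ ((M.eRk (H : Set (Fin n))).toNat - (M.eRk (F : Set (Fin n))).toNat)
           * P F H * Q H G = 0) →
  ∀ L : Finset (Fin n), (L : Set (Fin n)) = M.closure ∅ →
  (∀ i : ℕ, (Q L Finset.univ).coeff i * (Q L Finset.univ).coeff (i + 2)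
      ≤ (Q L Finset.univ).coeff (i + 1) ^ 2) ∧
  (∀ i j k : ℕ, i < j → j < k → (Q L Finset.univ).coeff i ≠ 0 →
      (Q L Finset.univ).coeff k ≠ 0 → (Q L Finset.univ).coeff j ≠ 0)) := by
  intro hall
  obtain ⟨n, v, a, b, ha, hb, hab, hr⟩ := example_exists
  have hE : (H594R3.TM.mat v (H594R3.Ex.L b) H594R3.Ex.L_ne_bot).E = Set.univ := H594R3.TM.mat_E
  obtain ⟨P, Q, h1, h2, h3⟩ := H594R3.KL.exists_PQ hE
  have hB : Module.finrank (ZMod 2) (Fin 7 → ZMod 2) = 7 := by simp
  have hc := H594R3.Ex.cert ha hb hab hr (by rw [hB]; norm_num)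
  have h4 := h3 _ _ _ hc
  have hcl : ((∅ : Finset (Fin n)) : Set (Fin n)) = (H594R3.TM.mat v (H594R3.Ex.L b) H594R3.Ex.L_ne_bot).closure ∅ := by
    rw [Finset.coe_empty]
    have h5 : (H594R3.TM.mat v (H594R3.Ex.L b) H594R3.Ex.L_ne_bot).IsFlat ((∅ : Finset (Fin n)) : Set (Fin n)) :=
      H594R3.KL.mem_flats.1 hc.bot_mem
    rw [Finset.coe_empty] at h5
    exact h5.closure.symm
  have h6 := (hall n (H594R3.TM.mat v (H594R3.Ex.L b) H594R3.Ex.L_ne_bot) hE P Q h1 h2 ∅ hcl).1 1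
  rw [h4, ← H594R3.Ex.Gf_top hr, H594R3.Ex.rank_Gf hr H594R3.Ex.valid_top, H594R3.Ex.vv, H594R3.Ex.dat_Gf ha hr H594R3.Ex.valid_top] at h6
  simp only at h6
  rw [finrank_top, hB] at h6
  have h7 : H594R3.Ex.eps (true, true, true) = 1 := rfl
  have h8 : H594R3.Ex.Vv (true, true, true) 7 = [7340032, 6701056, 2142720, 703080] := rfl
  rw [h7, h8, show ((-1 : Polynomial ℤ)) ^ (7 + 1) = 1 by norm_num, one_mul, H594R3.Ex.coeff_ofL, H594R3.Ex.coeff_ofL,
    H594R3.Ex.coeff_ofL] at h6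
  norm_num at h6

end Pool.Agent.S10690
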