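import Pool.Statements.S10693
import Pool.Agent.H24R3.EulRec

set_option autoImplicit false
open Pool Pool.MP_aa6e80_co

namespace Pool.Agent.S10693

open Pool.Agent.H24R3.Eul

/-- the Eulerian number of the statement -/
def C (n k : ℕ) : ℕ :=
  ((Finset.univ : Finset (Equiv.Perm (Fin n))).filter
            (fun σ => ((Finset.univ : Finset (Fin n × Fin n)).filter
              (fun p => p.2.val = p.1.val + 1 ∧ σ p.2 < σ p.1)).card = k)).card

lemma card_eq {n : ℕ} (σ : Equiv.Perm (Fin (n + 1))) :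
    ((Finset.univ : Finset (Fin (n + 1) × Fin (n + 1))).filter
              (fun p => p.2.val = p.1.val + 1 ∧ σ p.2 < σ p.1)).card =
    ((Finset.univ : Finset (Fin n)).filter (fun i => σ i.succ < σ i.castSucc)).card := by
  symm
  apply Finset.card_bij (fun i _ => (i.castSucc, i.succ))
  · intro i hi
    simp only [Finset.mem_filter, Finset.mem_univ, true_and] at hi ⊢
    exact ⟨by simp, hi⟩
  · intro i _ j _ hij
    have := (Prod.mk.inj hij).1
    exact Fin.castSucc_injective _ this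
  · rintro ⟨a, b⟩ hab
    simp only [Finset.mem_filter, Finset.mem_univ, true_and] at hab
    obtain ⟨h1, h2⟩ := hab
    have ha : a.val < n := by have := b.2; omega
    refine ⟨⟨a.val, ha⟩, ?_, ?_⟩
    · simp only [Finset.mem_filter, Finset.mem_univ, true_and]
      have e1 : (⟨a.val, ha⟩ : Fin n).succ = b := Fin.ext (by simp [h1])
      have e2 : (⟨a.val, ha⟩ : Fin n).castSucc = a := Fin.ext (by simp)
      rw [e1, e2]; exact h2
    · apply Prod.ext
      · exact Fin.ext (by simp)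
      · exact Fin.ext (by simp [h1])

lemma C_succ (n k : ℕ) : (C (n + 1) k : ℤ) = E n k := by
  unfold C E
  congr 2
  apply Finset.filter_congr
  intro σ _
  rw [card_eq σ]

lemma C_zero_zero : C 0 0 = 1 := by decide
lemma C_zero_succ (k : ℕ) : C 0 (k + 1) = 0 := by
  unfold C
  rw [Finset.card_eq_zero, Finset.filter_eq_empty_iff]
  intro σ _ h
  rw [Finset.card_eq_succ] at h
  obtain ⟨a, -, -⟩ := h
  exact a.1.elim0

lemma C_one_zero : C 1 0 = 1 := by decide

lemma C_big (n k : ℕ) (h : n < k) : C n k = 0 := by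
  cases n with
  | zero =>
    obtain ⟨j, rfl⟩ : ∃ j, k = j + 1 := ⟨k - 1, by omega⟩
    exact C_zero_succ j
  | succ n =>
    have := C_succ n k
    rw [E_big n k (by omega)] at this
    exact_mod_cast this

lemma C_rec_zero (n : ℕ) : C (n + 1) 0 = C n 0 := by
  cases n with
  | zero => rw [C_one_zero, C_zero_zero]
  | succ n =>
    have h1 := C_succ (n + 1) 0
    have h2 := C_succ n 0
    rw [E_succ_zero, ← h2] at h1
    exact_mod_cast h1

lemma C_rec (n k : ℕ) (hk : k ≤ n) :
    (C (n + 1) (k + 1) : ℝ) = ((k : ℝ) + 2) * C n (k + 1) + ((n : ℝ) - k) * C n k := by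
  cases n with
  | zero =>
    have hk0 : k = 0 := by omega
    subst hk0
    have h1 : C 1 1 = 0 := by decide
    rw [show (0 : ℕ) + 1 = 1 from rfl, h1, C_zero_succ 0]
    simp
  | succ n =>
    by_cases hkn : k ≤ n
    · have h1 := C_succ (n + 1) (k + 1)
      rw [E_rec n k hkn, ← C_succ n (k + 1), ← C_succ n k] at h1
      have h2 : ((C (n + 1 + 1) (k + 1) : ℤ) : ℝ) =
          (((k : ℤ) + 2) * (C (n + 1) (k + 1) : ℤ) + ((n : ℤ) + 1 - k) * (C (n + 1) k : ℤ) : ℤ) := by
        rw [h1]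
      push_cast at h2 ⊢
      exact h2
    · have hk' : k = n + 1 := by omega
      subst hk'
      have h1 := C_succ (n + 1) (n + 1 + 1)
      rw [E_big (n + 1) (n + 1 + 1) (by omega)] at h1
      have h2 := C_succ n (n + 1 + 1)
      rw [E_big n (n + 1 + 1) (by omega)] at h2
      have h3 : C (n + 1 + 1) (n + 1 + 1) = 0 := by exact_mod_cast h1
      have h4 : C (n + 1) (n + 1 + 1) = 0 := by exact_mod_cast h2
      rw [h3, h4]
      push_cast
      ring

lemma func (n : ℕ) (g : ℕ → ℝ) :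
    ∑ k ∈ Finset.range (n + 1 + 1), (C (n + 1) k : ℝ) * g k =
      ∑ k ∈ Finset.range (n + 1), (C n k : ℝ) * (((k : ℝ) + 1) * g k + ((n : ℝ) - k) * g (k + 1)) := by
  rw [Finset.sum_range_succ' _ (n + 1), C_rec_zero]
  have h1 : ∑ k ∈ Finset.range (n + 1), (C (n + 1) (k + 1) : ℝ) * g (k + 1) =
      ∑ k ∈ Finset.range (n + 1), (((k : ℝ) + 2) * C n (k + 1) * g (k + 1)) +
      ∑ k ∈ Finset.range (n + 1), (((n : ℝ) - k) * C n k * g (k + 1)) := by
    rw [← Finset.sum_add_distrib]
    apply Finset.sum_congr rfl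
    intro k hk
    rw [C_rec n k (by have := Finset.mem_range.mp hk; omega)]
    ring
  have h2 : ∑ k ∈ Finset.range (n + 1), (((k : ℝ) + 2) * C n (k + 1) * g (k + 1)) + (C n 0 : ℝ) * g 0 =
      ∑ k ∈ Finset.range (n + 1), ((k : ℝ) + 1) * C n k * g k := by
    have e1 := Finset.sum_range_succ' (fun k : ℕ => ((k : ℝ) + 1) * C n k * g k) (n + 1)
    have e2 := Finset.sum_range_succ (fun k : ℕ => ((k : ℝ) + 1) * C n k * g k) (n + 1)
    rw [C_big n (n + 1) (by omega)] at e2
    rw [e2] at e1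
    simp only [Nat.cast_zero, mul_zero, zero_mul, add_zero] at e1
    rw [e1]
    push_cast
    congr 1
    · apply Finset.sum_congr rfl
      intro k _
      ring
    · ring
  rw [h1, add_right_comm, h2, ← Finset.sum_add_distrib]
  apply Finset.sum_congr rfl
  intro k _
  ring

/-- For every nonnegative log-convex real sequence x, the sequence z_n = sum over k from 0 to n of A(n,k) x_k is log-convex, where A(n,k) counts permutations of n elements with exactly k descents. -/
theorem result :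
    ∀ x : ℕ → ℝ, (∀ n, 0 ≤ x n) → (∀ k, x (k + 1) ^ 2 ≤ x k * x (k + 2)) →
      ∀ z : ℕ → ℝ,
        (∀ n, z n = ∑ k ∈ Finset.range (n + 1),
          (((Finset.univ : Finset (Equiv.Perm (Fin n))).filter
            (fun σ => ((Finset.univ : Finset (Fin n × Fin n)).filter
              (fun p => p.2.val = p.1.val + 1 ∧ σ p.2 < σ p.1)).card = k)).card : ℝ) * x k) →
        ∀ n, z (n + 1) ^ 2 ≤ z n * z (n + 2) := by
  intro x hx hlc z hz n
  have hz' : ∀ n, z n = ∑ k ∈ Finset.range (n + 1), (C n k : ℝ) * x k := hz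
  have e1 : z (n + 1) = ∑ k ∈ Finset.range (n + 1), (C n k : ℝ) *
      (((k : ℝ) + 1) * x k + ((n : ℝ) - k) * x (k + 1)) := by
    rw [hz', func]
  have e2 : z (n + 2) = ∑ k ∈ Finset.range (n + 1), (C n k : ℝ) *
      (((k : ℝ) + 1) * (((k : ℝ) + 1) * x k + (((n : ℝ) + 1) - k) * x (k + 1)) + ((n : ℝ) - k) *
        (((k : ℝ) + 2) * x (k + 1) + ((n : ℝ) - k) * x (k + 2))) := by
    rw [hz', show n + 2 + 1 = (n + 1) + 1 + 1 by ring, show n + 2 = n + 1 + 1 by ring,
      func (n + 1) x, func n]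
    apply Finset.sum_congr rfl
    intro k _
    push_cast
    ring
  rw [e1, e2, hz' n]
  apply Finset.sum_sq_le_sum_mul_sum_of_sq_le_mul
  · intro k _
    exact mul_nonneg (Nat.cast_nonneg _) (hx k)
  · intro k hk
    have hkn : (k : ℝ) ≤ n := by
      have := Finset.mem_range.mp hk
      exact_mod_cast Nat.lt_succ_iff.mp this
    have h0 := hx k
    have h1 := hx (k + 1)
    have h2 := hx (k + 2)
    have hk0 : (0 : ℝ) ≤ k := Nat.cast_nonneg _
    have hq : (0 : ℝ) ≤ (n : ℝ) - k := by linarith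
    have hq1 : (0 : ℝ) ≤ (n : ℝ) + 1 - k := by linarith
    positivity
  · intro k hk
    have hkn : (k : ℝ) ≤ n := by
      have := Finset.mem_range.mp hk
      exact_mod_cast Nat.lt_succ_iff.mp this
    have h0 := hx k
    have h1 := hx (k + 1)
    have h2 := hx (k + 2)
    have hk0 : (0 : ℝ) ≤ k := Nat.cast_nonneg _
    have hq : (0 : ℝ) ≤ (n : ℝ) - k := by linarith
    have hc := hlc k
    have hC : (0 : ℝ) ≤ (C n k : ℝ) ^ 2 := sq_nonneg _
    have key : (((k : ℝ) + 1) * x k + ((n : ℝ) - k) * x (k + 1)) ^ 2 ≤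
        x k * (((k : ℝ) + 1) * (((k : ℝ) + 1) * x k + (((n : ℝ) + 1) - k) * x (k + 1)) + ((n : ℝ) - k) *
        (((k : ℝ) + 2) * x (k + 1) + ((n : ℝ) - k) * x (k + 2))) := by
      have e : x k * (((k : ℝ) + 1) * (((k : ℝ) + 1) * x k + (((n : ℝ) + 1) - k) * x (k + 1)) + ((n : ℝ) - k) *
        (((k : ℝ) + 2) * x (k + 1) + ((n : ℝ) - k) * x (k + 2))) -
        (((k : ℝ) + 1) * x k + ((n : ℝ) - k) * x (k + 1)) ^ 2 =
        ((n : ℝ) + 1) * (x k * x (k + 1)) + ((n : ℝ) - k) ^ 2 * (x k * x (k + 2) - x (k + 1) ^ 2) := by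
        ring
      have p1 : 0 ≤ ((n : ℝ) + 1) * (x k * x (k + 1)) := by positivity
      have p2 : 0 ≤ ((n : ℝ) - k) ^ 2 * (x k * x (k + 2) - x (k + 1) ^ 2) :=
        mul_nonneg (sq_nonneg _) (by linarith)
      linarith
    calc ((C n k : ℝ) * (((k : ℝ) + 1) * x k + ((n : ℝ) - k) * x (k + 1))) ^ 2
        = (C n k : ℝ) ^ 2 * (((k : ℝ) + 1) * x k + ((n : ℝ) - k) * x (k + 1)) ^ 2 := by ring
      _ ≤ (C n k : ℝ) ^ 2 * _ := mul_le_mul_of_nonneg_left key hC
      _ = _ := by ring

end Pool.Agent.S10693
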