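import Pool.Statements.S10745
import Pool.Agent.H186R3.Del4

set_option autoImplicit false
open Pool Pool.MP_ac7d6b_co

namespace Pool.Agent.S10745

/-- There is a constant c such that for all d ≥ 2, every Delone set in R^d with covering radius R whose ρ-clusters are all congruent, for some ρ > c·d²·log d·R, is a regular system (its symmetry group is transitive). -/
theorem result :
    ∃ c : ℝ, ∀ d : ℕ, 2 ≤ d → ∀ R : ℝ, 0 < R → ∀ ρ : ℝ,
      c * ((d : ℝ) ^ 2 * Real.log (d : ℝ)) * R < ρ →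
      ∀ X : Set (EuclideanSpace ℝ (Fin d)),
        (∃ r : ℝ, 0 < r ∧ ∀ x ∈ X, ∀ y ∈ X, x ≠ y → r ≤ dist x y) →
        (∀ p : EuclideanSpace ℝ (Fin d), ∃ x ∈ X, dist p x ≤ R) →
        (∀ x ∈ X, ∀ y ∈ X, ∃ g : EuclideanSpace ℝ (Fin d) ≃ᵢ EuclideanSpace ℝ (Fin d),
            g x = y ∧ g '' (X ∩ Metric.closedBall x ρ) = X ∩ Metric.closedBall y ρ) →
        ∀ x ∈ X, ∀ y ∈ X, ∃ g : EuclideanSpace ℝ (Fin d) ≃ᵢ EuclideanSpace ℝ (Fin d),
            g x = y ∧ g '' X = X := by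
  refine ⟨100, ?_⟩
  intro d hd R hR ρ hρ X hsep hcov htr
  obtain ⟨r, hr, hsep⟩ := hsep
  have htr' : ∀ x ∈ X, ∀ y ∈ X, ∃ g : EuclideanSpace ℝ (Fin d) ≃ᵢ EuclideanSpace ℝ (Fin d),
      g x = y ∧ Pool.Agent.H186R3.Del.LS X g x ρ := by
    intro x hx y hy
    obtain ⟨g, hg1, hg2⟩ := htr x hx y hy
    refine ⟨g, hg1, ?_⟩
    rw [Pool.Agent.H186R3.Del.LS_iff, hg1]
    exact hg2
  have hfr : Module.finrank ℝ (EuclideanSpace ℝ (Fin d)) = d := by simp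
  apply Pool.Agent.H186R3.Del.main hr hR hsep hcov htr'
  rw [hfr]
  have hd2 : (2 : ℝ) ≤ d := by exact_mod_cast hd
  have hlog : (1 : ℝ) / 2 ≤ Real.log d := by
    have h1 : Real.log 2 ≤ Real.log d := Real.log_le_log (by norm_num) hd2
    have h2 := Real.log_two_gt_d9
    linarith
  have h3 : (9 * (d : ℝ) ^ 2 + 11 * d + 8) ≤ 100 * ((d : ℝ) ^ 2 * Real.log d) := by
    have h4 : (d : ℝ) ^ 2 * (1 / 2) ≤ (d : ℝ) ^ 2 * Real.log d :=
      mul_le_mul_of_nonneg_left hlog (by positivity)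
    nlinarith
  have h5 : (9 * (d : ℝ) ^ 2 + 11 * d + 8) * R ≤ 100 * ((d : ℝ) ^ 2 * Real.log d) * R :=
    mul_le_mul_of_nonneg_right h3 hR.le
  linarith

end Pool.Agent.S10745
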