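import Pool.Statements.S10760
import Pool.Agent.H267R3.Myc
import Pool.Agent.H267R3.Simple

set_option autoImplicit false
open Pool Pool.MP_ace675_co

namespace Pool.Agent.S10760

/-- The negation of the preceding statement: For every finite triangle-free graph H with minimum degree d ≥ 1, the least minimum degree among 2-colour Ramsey-minimal graphs for H is exactly 2d−1: some minimal one attains it and none goes below. -/
theorem result :
    ¬ (∀ (n : ℕ) (H : SimpleGraph (Fin n)) (d : ℕ), H.CliqueFree 3 → 1 ≤ d →
      (∀ v : Fin n, d ≤ (H.neighborSet v).ncard) →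
      (∃ v : Fin n, (H.neighborSet v).ncard = d) →
      (∃ (m : ℕ) (G : SimpleGraph (Fin m)),
          ((∀ c : Fin m → Fin m → Bool, (∀ x y : Fin m, c x y = c y x) →
              ∃ b : Bool, ∃ f : Fin n → Fin m, Function.Injective f ∧
                ∀ u v : Fin n, H.Adj u v → G.Adj (f u) (f v) ∧ c (f u) (f v) = b) ∧
           (∀ v : Fin m, ∃ w : Fin m, G.Adj v w) ∧
           (∀ G' : SimpleGraph (Fin m), G' < G →
              ¬ (∀ c : Fin m → Fin m → Bool, (∀ x y : Fin m, c x y = c y x) →
                  ∃ b : Bool, ∃ f : Fin n → Fin m, Function.Injective f ∧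
                    ∀ u v : Fin n, H.Adj u v → G'.Adj (f u) (f v) ∧ c (f u) (f v) = b))) ∧
          (∀ v : Fin m, 2 * d - 1 ≤ (G.neighborSet v).ncard) ∧
          (∃ v : Fin m, (G.neighborSet v).ncard = 2 * d - 1)) ∧
      (∀ (m : ℕ) (G : SimpleGraph (Fin m)),
          ((∀ c : Fin m → Fin m → Bool, (∀ x y : Fin m, c x y = c y x) →
              ∃ b : Bool, ∃ f : Fin n → Fin m, Function.Injective f ∧
                ∀ u v : Fin n, H.Adj u v → G.Adj (f u) (f v) ∧ c (f u) (f v) = b) ∧
           (∀ v : Fin m, ∃ w : Fin m, G.Adj v w) ∧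
           (∀ G' : SimpleGraph (Fin m), G' < G →
              ¬ (∀ c : Fin m → Fin m → Bool, (∀ x y : Fin m, c x y = c y x) →
                  ∃ b : Bool, ∃ f : Fin n → Fin m, Function.Injective f ∧
                    ∀ u v : Fin n, H.Adj u v → G'.Adj (f u) (f v) ∧ c (f u) (f v) = b))) →
          ∀ v : Fin m, 2 * d - 1 ≤ (G.neighborSet v).ncard)) := by
  intro hall
  obtain ⟨a, K, ha, tf, nc, conn, two⟩ := Pool.Agent.H267R3.exists_graph
  let e : (Fin a ⊕ Bool) ≃ Fin (Fintype.card (Fin a ⊕ Bool)) := Fintype.equivFin _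
  set n := Fintype.card (Fin a ⊕ Bool) with hn
  set Hs := Pool.Agent.H267R3.plusEdge K with hHs
  set H : SimpleGraph (Fin n) := Hs.comap e.symm with hH
  have hHadj : ∀ x y, H.Adj x y ↔ Hs.Adj (e.symm x) (e.symm y) := fun x y => Iff.rfl
  have htf : H.CliqueFree 3 := by
    intro s hs
    rw [SimpleGraph.is3Clique_iff] at hs
    obtain ⟨x, y, z, hxy, hxz, hyz, -⟩ := hs
    rw [hHadj] at hxy hxz hyz
    generalize e.symm x = p at *
    generalize e.symm y = q at *
    generalize e.symm z = r at *
    rcases p with (p | p) <;> rcases q with (q | q) <;> rcases r with (r | r)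
    · exact tf p q r hxy hyz hxz
    · exact hxz
    · exact hxy
    · exact hxy
    · exact hxy
    · exact hxy
    · exact hxz
    · have h1 : p ≠ q := hxy
      have h2 : p ≠ r := hxz
      have h3 : q ≠ r := hyz
      revert h1 h2 h3
      cases p <;> cases q <;> cases r <;> simp
  have hdeg : ∀ v : Fin n, 1 ≤ (H.neighborSet v).ncard := by
    intro v
    rw [Nat.succ_le_iff, Set.ncard_pos]
    rcases hv : e.symm v with (p | p)
    · obtain ⟨w, -, -, hw, -⟩ := two p
      refine ⟨e (.inl w), ?_⟩
      rw [SimpleGraph.mem_neighborSet, hHadj, hv, Equiv.symm_apply_apply]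
      exact hw
    · refine ⟨e (.inr (!p)), ?_⟩
      rw [SimpleGraph.mem_neighborSet, hHadj, hv, Equiv.symm_apply_apply]
      have : p ≠ !p := by cases p <;> simp
      exact this
  have hone : ∃ v : Fin n, (H.neighborSet v).ncard = 1 := by
    refine ⟨e (.inr true), ?_⟩
    rw [Set.ncard_eq_one]
    refine ⟨e (.inr false), ?_⟩
    ext w
    rw [SimpleGraph.mem_neighborSet, hHadj, Set.mem_singleton_iff]
    rw [← Equiv.symm_apply_eq]
    generalize e.symm w = q
    rw [Equiv.symm_apply_apply]
    rcases q with (q | q)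
    · constructor
      · intro h
        exact absurd h (by intro h; exact h)
      · intro h
        simp at h
    · constructor
      · intro h
        have h : true ≠ q := h
        cases q
        · rfl
        · exact absurd rfl h
      · intro h
        have : q = false := by simpa using h
        subst this
        exact (by decide : true ≠ false)
  obtain ⟨⟨m, G, ⟨hR, -, hmin⟩, -, v, hv⟩, -⟩ := hall n H 1 htf le_rfl hdeg hone
  -- translate the Ramsey property
  have trans : ∀ G' : SimpleGraph (Fin m),
      (∀ c : Fin m → Fin m → Bool, (∀ x y : Fin m, c x y = c y x) →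
        ∃ b : Bool, ∃ f : Fin n → Fin m, Function.Injective f ∧
          ∀ u v : Fin n, H.Adj u v → G'.Adj (f u) (f v) ∧ c (f u) (f v) = b) ↔
      Pool.Agent.H267R3.Ram K G' := by
    intro G'
    constructor
    · intro h c hc
      obtain ⟨b, f, hf, hH'⟩ := h c hc
      refine ⟨b, f ∘ e, hf.comp e.injective, ?_⟩
      intro u v huv
      apply hH'
      rw [hHadj]
      simpa using huv
    · intro h c hc
      obtain ⟨b, f, hf, hH'⟩ := h c hc
      refine ⟨b, f ∘ e.symm, hf.comp e.symm.injective, ?_⟩
      intro u v huv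
      exact hH' _ _ huv
  have hv' : (G.neighborSet v).ncard = 1 := by simpa using hv
  obtain ⟨u, hu⟩ := Set.ncard_eq_one.1 hv'
  refine Pool.Agent.H267R3.core K ha nc conn two G ((trans G).1 hR) ?_ v u ?_
  · intro G' hG' h
    exact hmin G' hG' ((trans G').2 h)
  · intro w
    rw [← SimpleGraph.mem_neighborSet, hu, Set.mem_singleton_iff]


end Pool.Agent.S10760
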