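import Pool.Statements.S10780
import Pool.Agent.H174R3.TC

set_option autoImplicit false
open Pool Pool.MP_ae0825_co

namespace Pool.Agent.S10780

/-- The negation of the preceding statement: For 2 ≤ r ≤ 9, q ≥ r, n ≥ r: any n-vertex graph with as many edges as the Turán graph T_r(n) but not isomorphic to it has strictly fewer proper q-colorings than T_r(n). -/
theorem result :
    ¬ (∀ r q n : ℕ, 2 ≤ r → r ≤ 9 → r ≤ q → r ≤ n →
      ∀ G : SimpleGraph (Fin n),
        Nat.card G.edgeSet = Nat.card (SimpleGraph.turanGraph n r).edgeSet →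
        IsEmpty (G ≃g SimpleGraph.turanGraph n r) →
        Nat.card (G.Coloring (Fin q)) <
          Nat.card ((SimpleGraph.turanGraph n r).Coloring (Fin q))) := by
  intro hall
  have h := hall 9 13 (700 * 9) (by norm_num) (by norm_num) (by norm_num) (by norm_num)
    Pool.Agent.H174R3.TC.G Pool.Agent.H174R3.TC.edges_eq Pool.Agent.H174R3.TC.not_iso
  exact absurd Pool.Agent.H174R3.TC.final (not_le.mpr h)

end Pool.Agent.S10780
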