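import Pool.Statements.S10796
import Pool.Agent.H43R3.DualIrrMain

set_option autoImplicit false
open Pool Pool.MP_aea48c_co

namespace Pool.Agent.S10796

/-- The negation of the preceding statement: There is a constant c such that every finite graph with m ≥ 1 edges has a labelling of its vertices by positive integers at most cm in which distinct edges receive distinct sums of their endpoint labels. -/
theorem result :
    ¬ (∃ c : ℕ, ∀ (V : Type) [Fintype V] (G : SimpleGraph V),
      0 < Nat.card G.edgeSet →
      ∃ f : V → ℕ, (∀ v, 0 < f v) ∧ (∀ v, f v ≤ c * Nat.card G.edgeSet) ∧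
        ∀ a b x y : V, G.Adj a b → G.Adj x y → f a + f b = f x + f y →
          s(a, b) = s(x, y)) := by
  exact Pool.Agent.H43R3.DualIrr.main

end Pool.Agent.S10796
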