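import Pool.Statements.S10828

set_option autoImplicit false
open Pool Pool.MP_b020eb_co

namespace Pool.Agent.S10828

/-- Out-neighbour table of a 3-regular oriented graph on 16 vertices.  The two halves `0..7` and `8..15`
are joined only by the directed 4-cycle `0 → 8 → 1 → 9 → 0`. -/
def outs : Fin 16 → List (Fin 16) :=
  ![[4, 7, 8], [3, 6, 9], [1, 4, 5], [2, 4, 6], [5, 6, 7], [0, 3, 7], [0, 2, 5], [1, 2, 3],
    [1, 12, 15], [0, 11, 14], [9, 12, 13], [10, 12, 14], [13, 14, 15], [8, 11, 15], [8, 10, 13],
    [9, 10, 11]]

/-- adjacency -/
def adj (u v : Fin 16) : Prop := v ∈ outs u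

instance : DecidableRel adj := fun u v => inferInstanceAs (Decidable (v ∈ outs u))

/-- closed walks: `walk x` covers every vertex different from `x` and avoids `x` -/
def walk : Fin 16 → List (Fin 16) :=
  ![[2, 1, 3, 4, 5, 7, 1, 6, 2, 1, 9, 11, 10, 12, 13, 8, 15, 9, 14, 8, 1, 3, 2],
    [0, 4, 5, 3, 2, 4, 6, 0, 7, 2, 5, 0, 8, 12, 13, 11, 10, 9, 14, 8, 15, 9, 0],
    [0, 4, 5, 3, 6, 0, 7, 1, 9, 11, 10, 12, 13, 8, 15, 9, 14, 10, 9, 0],
    [0, 4, 5, 7, 1, 6, 2, 1, 9, 11, 10, 12, 13, 8, 15, 9, 14, 10, 9, 0],
    [0, 7, 1, 3, 2, 5, 0, 8, 12, 13, 11, 10, 9, 14, 8, 15, 9, 0, 7, 1, 6, 0],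
    [0, 4, 6, 2, 1, 3, 4, 7, 1, 9, 11, 10, 12, 13, 8, 15, 9, 14, 10, 9, 0],
    [0, 4, 5, 3, 2, 1, 9, 11, 10, 12, 13, 8, 15, 9, 14, 10, 9, 0, 7, 1, 9, 0],
    [0, 4, 5, 3, 2, 1, 6, 0, 8, 12, 13, 11, 10, 9, 14, 8, 15, 9, 0],
    [0, 4, 5, 3, 2, 1, 6, 0, 7, 1, 9, 11, 10, 12, 13, 15, 9, 14, 10, 9, 0],
    [0, 4, 5, 3, 2, 1, 6, 0, 7, 1, 6, 0, 8, 12, 13, 11, 10, 12, 14, 8, 15, 10, 13, 8, 1, 6, 0],
    [0, 4, 5, 3, 2, 1, 6, 0, 7, 1, 9, 11, 12, 13, 8, 15, 9, 14, 8, 1, 6, 0],
    [0, 4, 5, 3, 2, 1, 6, 0, 7, 1, 9, 14, 8, 12, 13, 15, 10, 9, 0],
    [0, 4, 5, 3, 2, 1, 6, 0, 7, 1, 9, 11, 10, 13, 8, 15, 9, 14, 10, 9, 0],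
    [0, 4, 5, 3, 2, 1, 6, 0, 7, 1, 9, 11, 10, 12, 14, 8, 15, 9, 0],
    [0, 4, 5, 3, 2, 1, 6, 0, 7, 1, 9, 11, 10, 12, 13, 8, 15, 9, 0],
    [0, 4, 5, 3, 2, 1, 6, 0, 7, 1, 9, 11, 10, 12, 13, 8, 12, 14, 10, 9, 0]]

/-- `R`-chain as a recursive proposition -/
def Chn {α : Type} (R : α → α → Prop) : α → List α → Prop
  | _, [] => True
  | a, b :: l => R a b ∧ Chn R b l

instance decChn {α : Type} (R : α → α → Prop) [DecidableRel R] :
    ∀ (l : List α) (a : α), Decidable (Chn R a l)
  | [], _ => isTrue trivial
  | b :: l, _ => @instDecidableAnd _ _ _ (decChn R l b)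

theorem chn_from {α : Type} {R : α → α → Prop} :
    ∀ (l : List α) (a : α), Chn R a l → ∀ b ∈ a :: l, Relation.ReflTransGen R a b
  | [], a, _, b, hb => by
      simp only [List.mem_singleton] at hb
      subst hb
      exact Relation.ReflTransGen.refl
  | c :: l, a, h, b, hb => by
      rcases List.mem_cons.1 hb with rfl | hb
      · exact Relation.ReflTransGen.refl
      · exact Relation.ReflTransGen.head h.1 (chn_from l c h.2 b hb)

theorem chn_to {α : Type} {R : α → α → Prop} :
    ∀ (l : List α) (a : α), Chn R a l → ∀ b ∈ a :: l,
      Relation.ReflTransGen R b ((a :: l).getLast (by simp))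
  | [], a, _, b, hb => by
      simp only [List.mem_singleton] at hb
      subst hb
      exact Relation.ReflTransGen.refl
  | c :: l, a, h, b, hb => by
      rw [List.getLast_cons (by simp)]
      rcases List.mem_cons.1 hb with rfl | hb
      · exact Relation.ReflTransGen.head h.1 (chn_to l c h.2 c (by simp))
      · exact chn_to l c h.2 b hb

theorem walk_ok : ∀ x : Fin 16,
    Chn (fun a b => adj a b ∧ a ≠ x ∧ b ≠ x) ((walk x).headD 0) (walk x).tail ∧
    (∀ v, v ≠ x → v ∈ (walk x).headD 0 :: (walk x).tail) ∧
    ((walk x).headD 0 :: (walk x).tail).getLast (by simp) = (walk x).headD 0 := by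
  decide +kernel

theorem strong (x u v : Fin 16) (hu : u ≠ x) (hv : v ≠ x) :
    Relation.ReflTransGen (fun a b => adj a b ∧ a ≠ x ∧ b ≠ x) u v := by
  obtain ⟨h1, h2, h3⟩ := walk_ok x
  have ha := chn_to _ _ h1 u (h2 u hu)
  rw [h3] at ha
  exact ha.trans (chn_from _ _ h1 v (h2 v hv))

theorem outdeg (u : Fin 16) : Set.ncard {v | adj u v} = 3 := by
  have h : ∀ u : Fin 16, (Finset.univ.filter (fun v => adj u v)).card = 3 := by decide +kernel
  rw [← h u, ← Set.ncard_coe_finset]
  congr 1
  ext v
  simp

theorem indeg (v : Fin 16) : Set.ncard {u | adj u v} = 3 := by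
  have h : ∀ v : Fin 16, (Finset.univ.filter (fun u => adj u v)).card = 3 := by decide +kernel
  rw [← h v, ← Set.ncard_coe_finset]
  congr 1
  ext u
  simp

theorem nohc (σ : Equiv.Perm (Fin 16)) (h : ∀ i : Fin 16, adj (σ i) (σ (finRotate 16 i))) : False := by
  -- the successor map
  obtain ⟨s, hs⟩ : ∃ s : Fin 16 → Fin 16, ∀ v, s v = σ (finRotate 16 (σ.symm v)) := ⟨_, fun _ => rfl⟩
  have hadj : ∀ v, adj v (s v) := by
    intro v
    have := h (σ.symm v)
    rw [Equiv.apply_symm_apply] at this
    rw [hs]
    exact this
  have hinj : ∀ v w, s v = s w → v = w := by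
    intro v w hvw
    rw [hs, hs] at hvw
    exact σ.symm.injective ((finRotate 16).injective (σ.injective hvw))
  -- a nonempty set closed under `s` is everything
  have hcl : ∀ S : Finset (Fin 16), S.Nonempty → (∀ v ∈ S, s v ∈ S) → ∀ v, v ∈ S := by
    intro S ⟨v0, hv0⟩ hS v
    have hk : ∀ k : ℕ, σ ((fun a : Fin 16 => a + 1)^[k] (σ.symm v0)) ∈ S := by
      intro k
      induction k with
      | zero => simpa using hv0
      | succ k ih =>
        have := hS _ ih
        rw [hs, Equiv.symm_apply_apply, finRotate_apply] at this
        rw [Function.iterate_succ_apply']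
        exact this
    have hr : ∀ i j : Fin 16, ∃ k : Fin 16, (fun a : Fin 16 => a + 1)^[k.val] i = j := by
      decide +kernel
    obtain ⟨k, hk'⟩ := hr (σ.symm v0) (σ.symm v)
    have := hk k.val
    rw [hk', Equiv.apply_symm_apply] at this
    exact this
  -- pigeonhole
  have hpg : ∀ S T : Finset (Fin 16), (∀ v ∈ S, s v ∈ T) → S.card ≤ T.card := by
    intro S T hST
    exact Finset.card_le_card_of_injOn s hST (fun v _ w _ hvw => hinj v w hvw)
  have hexA : ∀ v w : Fin 16, adj v w → v.val < 8 → w.val < 8 ∨ (v = 0 ∧ w = 8) ∨ (v = 1 ∧ w = 9) := by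
    decide +kernel
  have hexB : ∀ v w : Fin 16, adj v w → ¬ v.val < 8 → ¬ w.val < 8 ∨ (v = 8 ∧ w = 1) ∨ (v = 9 ∧ w = 0) := by
    decide +kernel
  by_cases p0 : s 0 = 8
  · by_cases p1 : s 1 = 9
    · -- two exits
      by_cases q0 : s 8 = 1
      · by_cases q1 : s 9 = 0
        · have := hcl {0, 8, 1, 9} (by simp) (by
            intro v hv
            simp only [Finset.mem_insert, Finset.mem_singleton] at hv
            rcases hv with rfl | rfl | rfl | rfl
            · rw [p0]; decide
            · rw [q0]; decide
            · rw [p1]; decide
            · rw [q1]; decide) 2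
          revert this
          decide
        · have := hpg (Finset.univ.filter (fun v : Fin 16 => ¬ v.val < 8 ∧ v ≠ 8))
            (Finset.univ.filter (fun v : Fin 16 => ¬ v.val < 8 ∧ v ≠ 8 ∧ v ≠ 9)) (by
              intro v hv
              simp only [Finset.mem_filter, Finset.mem_univ, true_and] at hv ⊢
              refine ⟨?_, ?_, ?_⟩
              · rcases hexB _ _ (hadj v) hv.1 with h1 | h1 | h1
                · exact h1
                · exact absurd h1.1 hv.2
                · exact absurd (h1.1 ▸ h1.2) q1
              · intro h1
                have := hinj v 0 (by rw [h1, p0])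
                subst this
                exact hv.1 (by decide)
              · intro h1
                have := hinj v 1 (by rw [h1, p1])
                subst this
                exact hv.1 (by decide))
          revert this
          decide
      · have := hpg (Finset.univ.filter (fun v : Fin 16 => ¬ v.val < 8 ∧ v ≠ 9))
            (Finset.univ.filter (fun v : Fin 16 => ¬ v.val < 8 ∧ v ≠ 8 ∧ v ≠ 9)) (by
              intro v hv
              simp only [Finset.mem_filter, Finset.mem_univ, true_and] at hv ⊢
              refine ⟨?_, ?_, ?_⟩
              · rcases hexB _ _ (hadj v) hv.1 with h1 | h1 | h1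
                · exact h1
                · exact absurd (h1.1 ▸ h1.2) q0
                · exact absurd h1.1 hv.2
              · intro h1
                have := hinj v 0 (by rw [h1, p0])
                subst this
                exact hv.1 (by decide)
              · intro h1
                have := hinj v 1 (by rw [h1, p1])
                subst this
                exact hv.1 (by decide))
        revert this
        decide
    · -- one exit 0 → 8
      by_cases q0 : s 8 = 1
      · by_cases q1 : s 9 = 0
        · have := hpg (Finset.univ.filter (fun v : Fin 16 => v.val < 8 ∧ v ≠ 0))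
            (Finset.univ.filter (fun v : Fin 16 => v.val < 8 ∧ v ≠ 0 ∧ v ≠ 1)) (by
              intro v hv
              simp only [Finset.mem_filter, Finset.mem_univ, true_and] at hv ⊢
              refine ⟨?_, ?_, ?_⟩
              · rcases hexA _ _ (hadj v) hv.1 with h1 | h1 | h1
                · exact h1
                · exact absurd h1.1 hv.2
                · exact absurd (h1.1 ▸ h1.2) p1
              · intro h1
                have := hinj v 9 (by rw [h1, q1])
                subst this
                exact absurd hv.1 (by decide)
              · intro h1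
                have := hinj v 8 (by rw [h1, q0])
                subst this
                exact absurd hv.1 (by decide))
          revert this
          decide
        · -- closed set B \ {8}
          have := hcl (Finset.univ.filter (fun v : Fin 16 => ¬ v.val < 8 ∧ v ≠ 8)) ⟨10, by decide⟩ (by
              intro v hv
              simp only [Finset.mem_filter, Finset.mem_univ, true_and] at hv ⊢
              refine ⟨?_, ?_⟩
              · rcases hexB _ _ (hadj v) hv.1 with h1 | h1 | h1
                · exact h1
                · exact absurd h1.1 hv.2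
                · exact absurd (h1.1 ▸ h1.2) q1
              · intro h1
                have := hinj v 0 (by rw [h1, p0])
                subst this
                exact hv.1 (by decide)) 2
          revert this
          decide
      · by_cases q1 : s 9 = 0
        · -- closed set A \ {0}
          have := hcl (Finset.univ.filter (fun v : Fin 16 => v.val < 8 ∧ v ≠ 0)) ⟨2, by decide⟩ (by
              intro v hv
              simp only [Finset.mem_filter, Finset.mem_univ, true_and] at hv ⊢
              refine ⟨?_, ?_⟩
              · rcases hexA _ _ (hadj v) hv.1 with h1 | h1 | h1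
                · exact h1
                · exact absurd h1.1 hv.2
                · exact absurd (h1.1 ▸ h1.2) p1
              · intro h1
                have := hinj v 9 (by rw [h1, q1])
                subst this
                exact absurd hv.1 (by decide)) 10
          revert this
          decide
        · have := hcl (Finset.univ.filter (fun v : Fin 16 => ¬ v.val < 8)) ⟨10, by decide⟩ (by
              intro v hv
              simp only [Finset.mem_filter, Finset.mem_univ, true_and] at hv ⊢
              rcases hexB _ _ (hadj v) hv with h1 | h1 | h1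
              · exact h1
              · exact absurd (h1.1 ▸ h1.2) q0
              · exact absurd (h1.1 ▸ h1.2) q1) 2
          revert this
          decide
  · by_cases p1 : s 1 = 9
    · by_cases q0 : s 8 = 1
      · by_cases q1 : s 9 = 0
        · have := hpg (Finset.univ.filter (fun v : Fin 16 => v.val < 8 ∧ v ≠ 1))
            (Finset.univ.filter (fun v : Fin 16 => v.val < 8 ∧ v ≠ 0 ∧ v ≠ 1)) (by
              intro v hv
              simp only [Finset.mem_filter, Finset.mem_univ, true_and] at hv ⊢
              refine ⟨?_, ?_, ?_⟩
              · rcases hexA _ _ (hadj v) hv.1 with h1 | h1 | h1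
                · exact h1
                · exact absurd (h1.1 ▸ h1.2) p0
                · exact absurd h1.1 hv.2
              · intro h1
                have := hinj v 9 (by rw [h1, q1])
                subst this
                exact absurd hv.1 (by decide)
              · intro h1
                have := hinj v 8 (by rw [h1, q0])
                subst this
                exact absurd hv.1 (by decide))
          revert this
          decide
        · -- closed set A \ {1}
          have := hcl (Finset.univ.filter (fun v : Fin 16 => v.val < 8 ∧ v ≠ 1)) ⟨2, by decide⟩ (by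
              intro v hv
              simp only [Finset.mem_filter, Finset.mem_univ, true_and] at hv ⊢
              refine ⟨?_, ?_⟩
              · rcases hexA _ _ (hadj v) hv.1 with h1 | h1 | h1
                · exact h1
                · exact absurd (h1.1 ▸ h1.2) p0
                · exact absurd h1.1 hv.2
              · intro h1
                have := hinj v 8 (by rw [h1, q0])
                subst this
                exact absurd hv.1 (by decide)) 10
          revert this
          decide
      · by_cases q1 : s 9 = 0
        · -- closed set B \ {9}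
          have := hcl (Finset.univ.filter (fun v : Fin 16 => ¬ v.val < 8 ∧ v ≠ 9)) ⟨10, by decide⟩ (by
              intro v hv
              simp only [Finset.mem_filter, Finset.mem_univ, true_and] at hv ⊢
              refine ⟨?_, ?_⟩
              · rcases hexB _ _ (hadj v) hv.1 with h1 | h1 | h1
                · exact h1
                · exact absurd (h1.1 ▸ h1.2) q0
                · exact absurd h1.1 hv.2
              · intro h1
                have := hinj v 1 (by rw [h1, p1])
                subst this
                exact hv.1 (by decide)) 2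
          revert this
          decide
        · have := hcl (Finset.univ.filter (fun v : Fin 16 => ¬ v.val < 8)) ⟨10, by decide⟩ (by
              intro v hv
              simp only [Finset.mem_filter, Finset.mem_univ, true_and] at hv ⊢
              rcases hexB _ _ (hadj v) hv with h1 | h1 | h1
              · exact h1
              · exact absurd (h1.1 ▸ h1.2) q0
              · exact absurd (h1.1 ▸ h1.2) q1) 2
          revert this
          decide
    · have := hcl (Finset.univ.filter (fun v : Fin 16 => v.val < 8)) ⟨2, by decide⟩ (by
              intro v hv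
              simp only [Finset.mem_filter, Finset.mem_univ, true_and] at hv ⊢
              rcases hexA _ _ (hadj v) hv with h1 | h1 | h1
              · exact h1
              · exact absurd (h1.1 ▸ h1.2) p0
              · exact absurd (h1.1 ▸ h1.2) p1) 10
      revert this
      decide

/-- The negation of the preceding statement: For every d>2, every oriented graph on n≤6d vertices with all in- and out-degrees equal to d, at least 3 vertices, and strongly connected after deleting any one vertex, has a directed Hamilton cycle. -/
theorem result :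
    ¬ (∀ (d n : ℕ) (adj : Fin n → Fin n → Prop),
      2 < d → n ≤ 6 * d →
      (∀ u v, adj u v → ¬ adj v u) →
      (∀ u, Set.ncard {v | adj u v} = d) →
      (∀ v, Set.ncard {u | adj u v} = d) →
      3 ≤ n →
      (∀ x u v, u ≠ x → v ≠ x →
        Relation.ReflTransGen (fun a b => adj a b ∧ a ≠ x ∧ b ≠ x) u v) →
      ∃ σ : Equiv.Perm (Fin n), ∀ i : Fin n, adj (σ i) (σ (finRotate n i))) := by
  intro H
  obtain ⟨σ, hσ⟩ := H 3 16 adj (by norm_num) (by norm_num) (by decide +kernel) outdeg indeg (by norm_num)
    strong
  exact nohc σ hσ

end Pool.Agent.S10828
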