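import Pool.Statements.S10842
-- import your own Pool.Agent.* helpers here
import Pool.Agent.H908R3.Disc.Main
import Pool.Agent.H908R3.Disc.TaskA
import Pool.Agent.H908R3.Disc.TaskB
import Pool.Agent.H908R3.Disc.TaskC
import Pool.Agent.H908R3.Disc.TaskD
import Pool.Agent.H908R3.Disc.TaskD2
import Pool.Agent.H908R3.Disc.Case0
import Pool.Agent.H908R3.Disc.Case1
import Pool.Agent.H908R3.Disc.Case2
import Pool.Agent.H908R3.Disc.Case3
import Pool.Agent.H908R3.Disc.Case4
import Pool.Agent.H908R3.Disc.Case5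
import Pool.Agent.H908R3.Disc.Case6
import Pool.Agent.H908R3.Disc.Case7
import Pool.Agent.H908R3.Disc.Case8
import Pool.Agent.H908R3.Disc.Case9
import Pool.Agent.H908R3.Disc.CaseR
import Pool.Agent.H908R3.Disc.CaseR8
import Pool.Agent.H908R3.Disc.CaseR9
import Pool.Agent.H908R3.Disc.CaseT

set_option autoImplicit false
open Metric
open Pool Pool.MP_b0bf97_co

namespace Pool.Agent.S10842

/-- The negation of the preceding statement: The closed unit disc in the Euclidean plane can be split into three pairwise disjoint sets, each mapped onto the others by isometries of the plane. -/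
theorem result :
    ¬ (∃ A B C : Set (EuclideanSpace ℝ (Fin 2)),
      A ∪ B ∪ C = Metric.closedBall (0 : EuclideanSpace ℝ (Fin 2)) 1 ∧
      Disjoint A B ∧ Disjoint A C ∧ Disjoint B C ∧
      (∃ f : EuclideanSpace ℝ (Fin 2) ≃ᵢ EuclideanSpace ℝ (Fin 2), f '' A = B) ∧
      (∃ g : EuclideanSpace ℝ (Fin 2) ≃ᵢ EuclideanSpace ℝ (Fin 2), g '' A = C)) :=
  Pool.Agent.H908R3.Disc.final Pool.Agent.H908R3.Disc.taskA Pool.Agent.H908R3.Disc.taskB
    Pool.Agent.H908R3.Disc.taskC Pool.Agent.H908R3.Disc.taskD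
    (fun _ _ _ _ _ _ _ h => Pool.Agent.H908R3.Disc.mirror h)
    Pool.Agent.H908R3.Disc.case0 Pool.Agent.H908R3.Disc.case1 Pool.Agent.H908R3.Disc.case2
    Pool.Agent.H908R3.Disc.case3 Pool.Agent.H908R3.Disc.case4 Pool.Agent.H908R3.Disc.case5
    Pool.Agent.H908R3.Disc.case6 Pool.Agent.H908R3.Disc.case7 Pool.Agent.H908R3.Disc.case8
    Pool.Agent.H908R3.Disc.case9 Pool.Agent.H908R3.Disc.caseR Pool.Agent.H908R3.Disc.caseR8
    Pool.Agent.H908R3.Disc.caseR9 Pool.Agent.H908R3.Disc.caseT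

end Pool.Agent.S10842
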