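import Pool.Statements.S10855
import Pool.Agent.H460TS.Main

set_option autoImplicit false
open Pool Pool.MP_b0fea6_co

namespace Pool.Agent.S10855

/-- There is a constant c such that any finite family of Jordan arcs in the plane can be properly coloured with k+c colours if each two arcs meet at most once, each two arcs can be pulled apart by arbitrarily small moves, and each point lies on at most k arcs. -/
theorem result :
    ∃ c : ℕ, ∀ k n : ℕ, ∀ γ : Fin n → (unitInterval → ℝ × ℝ),
      (∀ i, Continuous (γ i) ∧ Function.Injective (γ i)) →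
      (∀ i j, i ≠ j → (Set.range (γ i) ∩ Set.range (γ j)).Subsingleton) →
      (∀ i j, i ≠ j → ∀ ε : ℝ, 0 < ε →
        ∃ α β : unitInterval → ℝ × ℝ, Continuous α ∧ Continuous β ∧
          (∀ t, dist (α t) (γ i t) < ε) ∧ (∀ t, dist (β t) (γ j t) < ε) ∧
          Disjoint (Set.range α) (Set.range β)) →
      (∀ p : ℝ × ℝ, {i : Fin n | p ∈ Set.range (γ i)}.ncard ≤ k) →
      ∃ f : Fin n → Fin (k + c), ∀ i j, i ≠ j →
        (Set.range (γ i) ∩ Set.range (γ j)).Nonempty → f i ≠ f j :=
  ⟨Pool.Agent.H460TS.C0, Pool.Agent.H460TS.main⟩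

end Pool.Agent.S10855
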