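import Pool.Statements.S10902
-- import your own Pool.Agent.* helpers here

set_option autoImplicit false
open Pool Pool.MP_b33253_co

namespace Pool.Agent.S10902

/-- The negation of the preceding statement: For every colouring of the rationals with finitely many colours there are rationals x and d, with d nonzero, such that x, x+d, x+1/d and x+d+1/d all have the same colour. -/
theorem result :
    ¬ (∀ (r : ℕ) (c : ℚ → Fin r), ∃ x d : ℚ, d ≠ 0 ∧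
      c (x + d) = c x ∧ c (x + 1 / d) = c x ∧ c (x + d + 1 / d) = c x) := by
  intro h
  obtain ⟨x, d, hd, h1, h2, h3⟩ := h 4 (fun x => ((⌊x ^ 2⌋ : ℤ) : ZMod 4))
  have e1 : ((⌊(x + d) ^ 2⌋ : ℤ) : ZMod 4) = ((⌊x ^ 2⌋ : ℤ) : ZMod 4) := h1
  have e2 : ((⌊(x + 1 / d) ^ 2⌋ : ℤ) : ZMod 4) = ((⌊x ^ 2⌋ : ℤ) : ZMod 4) := h2
  have e3 : ((⌊(x + d + 1 / d) ^ 2⌋ : ℤ) : ZMod 4) = ((⌊x ^ 2⌋ : ℤ) : ZMod 4) := h3
  have key : (((⌊(x + d + 1 / d) ^ 2⌋ - ⌊(x + d) ^ 2⌋ - ⌊(x + 1 / d) ^ 2⌋ + ⌊x ^ 2⌋ : ℤ)) : ZMod 4) = 0 := by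
    push_cast
    rw [e1, e2, e3]
    ring
  rw [ZMod.intCast_zmod_eq_zero_iff_dvd] at key
  have hid : (x + d + 1 / d) ^ 2 - (x + d) ^ 2 - (x + 1 / d) ^ 2 + x ^ 2 = 2 := by
    field_simp
    ring
  have a1 := Int.floor_le ((x + d + 1 / d) ^ 2)
  have a2 := Int.lt_floor_add_one ((x + d + 1 / d) ^ 2)
  have b1 := Int.floor_le ((x + d) ^ 2)
  have b2 := Int.lt_floor_add_one ((x + d) ^ 2)
  have c1 := Int.floor_le ((x + 1 / d) ^ 2)
  have c2 := Int.lt_floor_add_one ((x + 1 / d) ^ 2)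
  have d1 := Int.floor_le (x ^ 2)
  have d2 := Int.lt_floor_add_one (x ^ 2)
  set A : ℤ := ⌊(x + d + 1 / d) ^ 2⌋
  set B : ℤ := ⌊(x + d) ^ 2⌋
  set C : ℤ := ⌊(x + 1 / d) ^ 2⌋
  set D : ℤ := ⌊x ^ 2⌋
  have l1 : (0 : ℚ) < ((A - B - C + D : ℤ) : ℚ) := by push_cast; linarith
  have l2 : ((A - B - C + D : ℤ) : ℚ) < 4 := by push_cast; linarith
  have m1 : 0 < A - B - C + D := by exact_mod_cast l1
  have m2 : A - B - C + D < 4 := by exact_mod_cast l2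
  obtain ⟨t, ht⟩ := key
  push_cast at ht
  omega

end Pool.Agent.S10902
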