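import Pool.Statements.S10921
import Pool.Agent.H223R3.Kalai.Main

set_option autoImplicit false
open Pool Pool.MP_b4409b_co

namespace Pool.Agent.S10921

/-- For r≥2, every tight r-tree T with t edges, and every r-uniform hypergraph on n vertices with no copy of T, the number of edges is at most (t−1)/r times C(n, r−1). -/
theorem result :
    ∀ (r t : ℕ), 2 ≤ r → 1 ≤ t →
    ∀ (e : ℕ → Finset ℕ),
      (∀ i, i < t → (e i).card = r) →
      (∀ i, 0 < i → i < t →
        ∃ v ∈ e i, (∀ j, j < i → v ∉ e j) ∧ ∃ j, j < i ∧ e i \ {v} ⊆ e j) →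
    ∀ (n : ℕ) (H : Finset (Finset (Fin n))),
      (∀ h ∈ H, h.card = r) →
      (¬ ∃ f : ℕ → Fin n,
          Set.InjOn f {x : ℕ | ∃ i, i < t ∧ x ∈ e i} ∧
          ∀ i, i < t → (e i).image f ∈ H) →
      (H.card : ℝ) ≤ ((t : ℝ) - 1) / (r : ℝ) * ((n.choose (r - 1) : ℕ) : ℝ) := by
  intro r t hr ht e hcard hstep n H hH hno
  obtain ⟨d, rfl⟩ : ∃ d, r = d + 1 := ⟨r - 1, by omega⟩
  rcases Nat.eq_zero_or_pos n with rfl | hn
  · have hHe : H = ∅ := by
      rw [Finset.eq_empty_iff_forall_notMem]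
      intro h hh
      have h1 := hH h hh
      have h2 : h.card ≤ Fintype.card (Fin 0) := Finset.card_le_univ h
      rw [Fintype.card_fin] at h2
      omega
    rw [hHe, Finset.card_empty]
    have h3 : (1 : ℝ) ≤ (t : ℝ) := by exact_mod_cast ht
    have h4 : (0 : ℝ) ≤ (t : ℝ) - 1 := by linarith
    push_cast
    positivity
  · haveI : Nonempty (Fin n) := ⟨⟨0, hn⟩⟩
    have hk := H223R3.Kalai.kalai (d := d) (V := Fin n) e t ht (hcard 0 ht) ?_ H hH ?_
    · rw [Fintype.card_fin] at hk
      have h1 := H223R3.Kalai.real_bound _ _ _ _ hk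
      simpa using h1
    · intro i hi hit
      obtain ⟨v, hv, hnew, j, hj, hsub⟩ := hstep i hi hit
      refine ⟨j, hj, e i \ {v}, hsub, ?_, v, ?_, ?_⟩
      · rw [Finset.card_sdiff_of_subset (Finset.singleton_subset_iff.2 hv), hcard i hit,
          Finset.card_singleton]
        omega
      · rw [Finset.mem_biUnion]
        rintro ⟨k, hk, hvk⟩
        exact hnew k (Finset.mem_range.1 hk) hvk
      · ext x
        by_cases hx : x = v
        · subst hx; simp [hv]
        · simp [hx]
    · rintro ⟨f, f1, f2⟩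
      apply hno
      refine ⟨f, ?_, f2⟩
      intro x hx y hy hxy
      apply f1 _ _ hxy
      · obtain ⟨i, hi, hxi⟩ := hx
        rw [Finset.mem_coe, Finset.mem_biUnion]
        exact ⟨i, Finset.mem_range.2 hi, hxi⟩
      · obtain ⟨i, hi, hxi⟩ := hy
        rw [Finset.mem_coe, Finset.mem_biUnion]
        exact ⟨i, Finset.mem_range.2 hi, hxi⟩

end Pool.Agent.S10921
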