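import Pool.Statements.S11006
import Pool.Agent.H160R3.B3

set_option autoImplicit false
open scoped Pointwise
open Pool Pool.MP_b7cbb2_co

namespace Pool.Agent.S11006

open Pool.Agent.H160R3 Pool.Agent.H160R3.B3

theorem gm_mul : gm * gm = 1 := by decide

/-- the involution as an element of GL -/
def gGL : Matrix.GeneralLinearGroup (Fin 4) ℤ := ⟨gm, gm, gm_mul, gm_mul⟩

theorem gGL_mul : gGL * gGL = 1 := by
  apply Units.ext
  exact gm_mul

/-- the action of the group with two elements -/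
def rho : ℤˣ →* Matrix.GeneralLinearGroup (Fin 4) ℤ where
  toFun u := if u = 1 then 1 else gGL
  map_one' := by simp
  map_mul' := by
    intro a b
    rcases Int.units_eq_one_or a with rfl | rfl <;> rcases Int.units_eq_one_or b with rfl | rfl
    · simp
    · simp
    · simp
    · have h : (-1 : ℤˣ) ≠ 1 := by decide
      rw [if_neg h, gGL_mul]
      simp

theorem rho_one : ((rho 1 : Matrix.GeneralLinearGroup (Fin 4) ℤ) : Matrix (Fin 4) (Fin 4) ℤ) = 1 := by
  rw [map_one]; rfl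

theorem rho_neg : ((rho (-1) : Matrix.GeneralLinearGroup (Fin 4) ℤ) : Matrix (Fin 4) (Fin 4) ℤ) = gm := by
  have h : (-1 : ℤˣ) ≠ 1 := by decide
  show ((if (-1 : ℤˣ) = 1 then 1 else gGL : Matrix.GeneralLinearGroup (Fin 4) ℤ) : Matrix (Fin 4) (Fin 4) ℤ) = gm
  rw [if_neg h]
  rfl

/-- the vertex set -/
def V : Finset (Fin 4 → ℤ) := Finset.univ.image v6

theorem V_image : ((fun v : Fin 4 → ℤ => fun j => ((v j : ℤ) : ℝ)) '' (V : Set (Fin 4 → ℤ)))
    = Set.range fun i : Fin 6 => fun j => ((v6 i j : ℤ) : ℝ) := by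
  rw [V, Finset.coe_image, Finset.coe_univ, Set.image_univ, ← Set.range_comp]
  rfl

theorem V_inv (g : ℤˣ) (v : Fin 4 → ℤ) (hv : v ∈ V) :
    Matrix.mulVec (rho g : Matrix (Fin 4) (Fin 4) ℤ) v ∈ V := by
  rcases Int.units_eq_one_or g with rfl | rfl
  · rw [rho_one, Matrix.one_mulVec]; exact hv
  · rw [rho_neg]
    revert v
    decide

theorem vspan : vectorSpan ℝ P6 = ⊤ := by
  have hP : ∀ i : Fin 6, (fun j => ((v6 i j : ℤ) : ℝ)) ∈ P6 :=
    fun i => subset_convexHull ℝ _ ⟨i, rfl⟩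
  have hs : ∀ i j : Fin 6, (fun k => ((v6 i k : ℤ) : ℝ)) - (fun k => ((v6 j k : ℤ) : ℝ)) ∈
      vectorSpan ℝ P6 := fun i j => vsub_mem_vectorSpan ℝ (hP i) (hP j)
  rw [eq_top_iff]
  intro x _
  have e : x = (x 2) • ((fun k => ((v6 1 k : ℤ) : ℝ)) - (fun k => ((v6 0 k : ℤ) : ℝ)))
      + (x 3) • ((fun k => ((v6 3 k : ℤ) : ℝ)) - (fun k => ((v6 2 k : ℤ) : ℝ)))
      + (x 0) • ((fun k => ((v6 4 k : ℤ) : ℝ)) - (fun k => ((v6 0 k : ℤ) : ℝ)))
      + (x 1) • ((fun k => ((v6 4 k : ℤ) : ℝ)) - (fun k => ((v6 2 k : ℤ) : ℝ))) := by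
    funext j
    fin_cases j <;> simp [v6]
  rw [e]
  exact Submodule.add_mem _ (Submodule.add_mem _ (Submodule.add_mem _
    (Submodule.smul_mem _ _ (hs _ _)) (Submodule.smul_mem _ _ (hs _ _)))
    (Submodule.smul_mem _ _ (hs _ _))) (Submodule.smul_mem _ _ (hs _ _))

theorem count_one (m : ℕ) :
    ((Set.ncard {x : Fin 4 → ℤ | (fun j => ((x j : ℤ) : ℝ)) ∈ (m : ℝ) • P6 ∧
      Matrix.mulVec (1 : Matrix (Fin 4) (Fin 4) ℤ) x = x} : ℕ) : ℤ) =
      PowerSeries.coeff m (ser hT) := by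
  rw [coeff_ser]
  congr 1
  rw [← Nat.card_coe_set_eq]
  apply Nat.card_congr
  exact
    { toFun := fun x => ⟨⟨(x.1, m), (mem_iff _ _).1 x.2.1⟩, rfl⟩
      invFun := fun t => ⟨t.1.1.1, (mem_iff _ _).2 (by
        have h1 := t.1.2
        have h2 : t.1.1.2 = m := t.2
        rw [h2] at h1; exact h1), by rw [Matrix.one_mulVec]⟩
      left_inv := fun x => rfl
      right_inv := by
        rintro ⟨⟨⟨x, m'⟩, h⟩, rfl⟩
        rfl }

theorem count_neg (m : ℕ) :
    ((Set.ncard {x : Fin 4 → ℤ | (fun j => ((x j : ℤ) : ℝ)) ∈ (m : ℝ) • P6 ∧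
      Matrix.mulVec gm x = x} : ℕ) : ℤ) =
      PowerSeries.coeff m (ser hTg) := by
  rw [coeff_ser]
  congr 1
  rw [← Nat.card_coe_set_eq]
  apply Nat.card_congr
  exact
    { toFun := fun x => ⟨⟨(x.1, m), (mem_iff _ _).1 x.2.1, x.2.2⟩, rfl⟩
      invFun := fun t => ⟨t.1.1.1, (mem_iff _ _).2 (by
        have h1 := t.1.2.1
        have h2 : t.1.1.2 = m := t.2
        rw [h2] at h1; exact h1), t.1.2.2⟩
      left_inv := fun x => rfl
      right_inv := by
        rintro ⟨⟨⟨x, m'⟩, h⟩, rfl⟩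
        rfl }

theorem det_one' : (Matrix.det (1 - (Polynomial.X : Polynomial ℤ) •
      (1 : Matrix (Fin 4) (Fin 4) ℤ).map Polynomial.C) : Polynomial ℤ) = (1 - Polynomial.X) ^ 4 := by
  have : (1 - (Polynomial.X : Polynomial ℤ) • (1 : Matrix (Fin 4) (Fin 4) ℤ).map Polynomial.C)
      = (1 - Polynomial.X : Polynomial ℤ) • (1 : Matrix (Fin 4) (Fin 4) (Polynomial ℤ)) := by
    rw [Matrix.map_one _ (by simp) (by simp), sub_smul, one_smul]
  rw [this, Matrix.det_smul, Matrix.det_one]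
  simp

theorem det_neg' : (Matrix.det (1 - (Polynomial.X : Polynomial ℤ) •
      gm.map Polynomial.C) : Polynomial ℤ) = (1 - Polynomial.X) ^ 2 * (1 + Polynomial.X) ^ 2 := by
  simp [Matrix.det_succ_row_zero, Fin.sum_univ_succ, gm, Fin.succAbove, Matrix.one_apply]
  ring

theorem result :
    ¬ (∀ (G : Type) [Group G] [Fintype G] (n : ℕ)
      (ρ : G →* Matrix.GeneralLinearGroup (Fin n) ℤ)
      (V : Finset (Fin n → ℤ)) (P : Set (Fin n → ℝ)),
      V.Nonempty →
      (∀ g : G, ∀ v ∈ V,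
        Matrix.mulVec (ρ g : Matrix (Fin n) (Fin n) ℤ) v ∈ V) →
      P = convexHull ℝ
        ((fun v : Fin n → ℤ => fun j => ((v j : ℤ) : ℝ)) '' (V : Set (Fin n → ℤ))) →
      ∀ (d : ℕ) (ι : (Fin d → ℤ) →ₗ[ℤ] (Fin n → ℤ))
        (σ : G → Matrix (Fin d) (Fin d) ℤ) (Φ : G → PowerSeries ℤ),
      Function.Injective ι →
      (∀ x : Fin n → ℤ,
        (∃ y : Fin d → ℤ, ι y = x) ↔
          (fun j => ((x j : ℤ) : ℝ)) ∈ vectorSpan ℝ P) →
      (∀ (g : G) (y : Fin d → ℤ),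
        ι (Matrix.mulVec (σ g) y) =
          Matrix.mulVec (ρ g : Matrix (Fin n) (Fin n) ℤ) (ι y)) →
      (∀ g : G, Φ g =
        PowerSeries.mk (fun m : ℕ =>
          ((Set.ncard {x : Fin n → ℤ |
              (fun j => ((x j : ℤ) : ℝ)) ∈ (m : ℝ) • P ∧
              Matrix.mulVec (ρ g : Matrix (Fin n) (Fin n) ℤ) x = x} : ℕ) : ℤ))
        * (1 - PowerSeries.X)
        * ((Matrix.det (1 - (Polynomial.X : Polynomial ℤ) •
              (σ g).map Polynomial.C) : Polynomial ℤ) : PowerSeries ℤ)) →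
      (∃ N : ℕ, ∀ g : G, ∀ i : ℕ, N ≤ i →
        PowerSeries.coeff (R := ℤ) i (Φ g) = 0) →
      ∀ i : ℕ, 0 < PowerSeries.coeff (R := ℤ) i (Φ 1) →
        (∑ g : G, PowerSeries.coeff (R := ℤ) i (Φ g)) ≠ 0) := by
  intro H
  set Φ : ℤˣ → PowerSeries ℤ := fun g =>
        PowerSeries.mk (fun m : ℕ =>
          ((Set.ncard {x : Fin 4 → ℤ |
              (fun j => ((x j : ℤ) : ℝ)) ∈ (m : ℝ) • P6 ∧
              Matrix.mulVec (rho g : Matrix (Fin 4) (Fin 4) ℤ) x = x} : ℕ) : ℤ))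
        * (1 - PowerSeries.X)
        * ((Matrix.det (1 - (Polynomial.X : Polynomial ℤ) •
              ((rho g : Matrix (Fin 4) (Fin 4) ℤ)).map Polynomial.C) : Polynomial ℤ) : PowerSeries ℤ)
    with hΦ
  have h1 : Φ 1 = 1 + PowerSeries.X + PowerSeries.X ^ 2 := by
    simp only [hΦ]
    rw [rho_one, det_one']
    have e : PowerSeries.mk (fun m : ℕ =>
          ((Set.ncard {x : Fin 4 → ℤ |
              (fun j => ((x j : ℤ) : ℝ)) ∈ (m : ℝ) • P6 ∧
              Matrix.mulVec (1 : Matrix (Fin 4) (Fin 4) ℤ) x = x} : ℕ) : ℤ)) = ser hT := by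
      ext m
      rw [PowerSeries.coeff_mk, count_one]
    rw [e, ← ser_T]
    push_cast
    ring
  have h2 : Φ (-1) = 1 - PowerSeries.X + PowerSeries.X ^ 2 := by
    have h3 : Φ (-1) * (1 + PowerSeries.X) = (1 - PowerSeries.X + PowerSeries.X ^ 2) * (1 + PowerSeries.X) := by
      simp only [hΦ]
      rw [rho_neg, det_neg']
      have e : PowerSeries.mk (fun m : ℕ =>
            ((Set.ncard {x : Fin 4 → ℤ |
                (fun j => ((x j : ℤ) : ℝ)) ∈ (m : ℝ) • P6 ∧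
                Matrix.mulVec gm x = x} : ℕ) : ℤ)) = ser hTg := by
        ext m
        rw [PowerSeries.coeff_mk, count_neg]
      rw [e]
      have := ser_Tg
      push_cast
      linear_combination this
    have hne : (1 + PowerSeries.X : PowerSeries ℤ) ≠ 0 := by
      intro h
      have := congrArg (PowerSeries.coeff 0) h
      simp at this
    exact mul_right_cancel₀ hne h3
  have key := H ℤˣ 4 rho V P6 ⟨v6 0, Finset.mem_image_of_mem _ (Finset.mem_univ _)⟩ V_inv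
    (by rw [V_image]; rfl) 4 LinearMap.id (fun g => (rho g : Matrix (Fin 4) (Fin 4) ℤ)) Φ
    (fun _ _ h => h) (by
      intro x
      rw [vspan]
      exact ⟨fun _ => Submodule.mem_top, fun _ => ⟨x, rfl⟩⟩)
    (fun g y => rfl) (fun g => rfl) ⟨3, by
      intro g i hi
      rcases Int.units_eq_one_or g with rfl | rfl
      · rw [h1]
        simp [PowerSeries.coeff_X, PowerSeries.coeff_X_pow, PowerSeries.coeff_one]
        omega
      · rw [h2]
        simp [PowerSeries.coeff_X, PowerSeries.coeff_X_pow, PowerSeries.coeff_one]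
        omega⟩ 1 (by
      rw [h1]
      simp [PowerSeries.coeff_X, PowerSeries.coeff_X_pow, PowerSeries.coeff_one])
  apply key
  have hu : (Finset.univ : Finset ℤˣ) = {1, -1} := by decide
  rw [hu, Finset.sum_pair (by decide), h1, h2]
  simp [PowerSeries.coeff_X, PowerSeries.coeff_X_pow, PowerSeries.coeff_one]

end Pool.Agent.S11006
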