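-- Proof of the frozen statement S11007.
import Pool.Statements.S11007
import Pool.Agent.H177R3.Hyp2

set_option autoImplicit false
open Pool Pool.MP_b7e382_co

namespace Pool.Agent.S11007

open Pool.H177R3.Hyp in
/-- every vertex is selected with probability at least `p / 2` -/
lemma prob_lower {V : Type} [Fintype V] [DecidableEq V] (E : Finset (Finset V)) (d r : ℕ)
    (hr : 3 ≤ r) (hcard : ∀ e ∈ E, e.card = r)
    (htri : ¬ ∃ e ∈ E, ∃ f ∈ E, ∃ g ∈ E, ∃ u v w : V,
            u ∈ e ∧ u ∈ f ∧ v ∈ f ∧ v ∈ g ∧ w ∈ e ∧ w ∈ g ∧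
            u ∉ g ∧ v ∉ e ∧ w ∉ f)
    (p : ℝ) (hp : 0 < p) (hpd : 0 < (d : ℝ) * p ^ (r - 1))
    (hK : 4 * ((d : ℝ) * p ^ (r - 1)) ≤ Real.log (1 / 2) - Real.log p)
    (l₁ l₂ : List V) (v : V) (hnd : (l₁ ++ v :: l₂).Nodup)
    (hd : (E.filter (fun e => v ∈ e ∧ e ⊆ insert v l₁.toFinset)).card ≤ d) :
    p / 2 ≤ Ex E (l₁ ++ v :: l₂) ∅ (fun _ => p) (fun J _ => if v ∈ J then 1 else 0) := by
  classical
  have hnd1 : l₁.Nodup := (List.nodup_append.mp hnd).1
  have hvl : v ∉ l₁ := by
    intro hv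
    exact (List.nodup_append.mp hnd).2.2 v hv v List.mem_cons_self rfl
  rw [Ex_append]
  -- lower bound by the selection probability of `v`
  have h1 : Ex E l₁ ∅ (fun _ => p) (fun _ w' => q (w' v)) ≤
      Ex E l₁ ∅ (fun _ => p)
        (fun I' w' => Ex E (v :: l₂) I' w' (fun J _ => if v ∈ J then 1 else 0)) := by
    apply Ex_mono
    intro I w
    simp only [Ex]
    rw [Ex_mem E l₂ v (insert v I) _ (Finset.mem_insert_self _ _), mul_one]
    have hq := q_le_half (w v)
    have h2 : 0 ≤ Ex E l₂ I (w0 E I w v) (fun J _ => if v ∈ J then (1:ℝ) else 0) := by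
      apply Ex_nonneg
      intro J _
      split_ifs <;> norm_num
    have h3 := mul_nonneg (show 0 ≤ 1 - q (w v) by linarith) h2
    linarith
  refine le_trans ?_ h1
  have h2 : Ex E l₁ ∅ (fun _ => p) (fun _ w' => q (w' v)) =
      p * Qx E v l₁ ∅ (fun _ => p)
        (fun _ w' => if 0 ≤ w' v ∧ w' v ≤ 1 / 2 then (1:ℝ) else 0) := by
    rw [← Ex_tilt E v l₁ (fun _ w' => if 0 ≤ w' v ∧ w' v ≤ 1 / 2 then (1:ℝ) else 0) ∅
      (fun _ => p)]
    congr 1
    funext I w
    unfold q
    by_cases hc : 0 ≤ w v ∧ w v ≤ 1 / 2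
    · rw [if_pos hc, if_pos hc, one_mul]
    · rw [if_neg hc, if_neg hc, zero_mul]
  rw [h2]
  set bad : ℝ := Qx E v l₁ ∅ (fun _ => p)
        (fun _ w' => if 0 ≤ w' v ∧ w' v ≤ 1 / 2 then (0:ℝ) else 1) with hbad
  have h3 : Qx E v l₁ ∅ (fun _ => p)
        (fun _ w' => if 0 ≤ w' v ∧ w' v ≤ 1 / 2 then (1:ℝ) else 0) = 1 - bad := by
    have hc1 := Qx_const E v l₁ 1 ∅ (fun _ => p)
    have hc2 := Qx_sub E v l₁ (fun _ _ => (1:ℝ))
      (fun _ w' => if 0 ≤ w' v ∧ w' v ≤ 1 / 2 then (0:ℝ) else 1) ∅ (fun _ => p)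
    rw [hc1] at hc2
    rw [hbad, ← hc2]
    congr 1
    funext I w
    by_cases hc : 0 ≤ w v ∧ w v ≤ 1 / 2
    · rw [if_pos hc, if_pos hc, sub_zero]
    · rw [if_neg hc, if_neg hc, sub_self]
  rw [h3]
  have h4 := Qx_log E v p (Real.log (1 / 2) - Real.log p) hp rfl l₁ ∅ (fun _ => p) (le_refl p)
  rw [← hbad, sub_self, zero_add] at h4
  have h5 := G_le_sum E v l₁.toFinset l₁ ∅ (fun _ => p) (Finset.empty_subset _)
    (fun z hz => List.mem_toFinset.mpr hz)
  have h6 : ∑ e ∈ E.filter (fun e => v ∈ e ∧ e ⊆ insert v l₁.toFinset),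
      GA E v (e.erase v) l₁ ∅ (fun _ => p) ≤ (d : ℝ) * p ^ (r - 1) := by
    have h7 : ∀ e ∈ E.filter (fun e => v ∈ e ∧ e ⊆ insert v l₁.toFinset),
        GA E v (e.erase v) l₁ ∅ (fun _ => p) ≤ p ^ (r - 1) := by
      intro e he
      rw [Finset.mem_filter] at he
      obtain ⟨heE, hve, hsub⟩ := he
      have hins : insert v (e.erase v) = e := Finset.insert_erase hve
      refine (GA_le_M E v (e.erase v) (Finset.notMem_erase v e) (by rw [hins]; exact heE) htri l₁
        ∅ (fun _ => p) (fun _ => hp.le) hnd1 hvl (by simp) (by simp)).trans ?_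
      unfold M
      rw [Finset.prod_congr rfl (g := fun _ => p)]
      · rw [Finset.prod_const, Finset.card_erase_of_mem hve, hcard e heE]
      · intro u hu
        rw [Finset.mem_erase] at hu
        have := hsub hu.2
        rw [Finset.mem_insert] at this
        rw [if_pos (List.mem_toFinset.mp (this.resolve_left hu.1))]
    refine (Finset.sum_le_sum h7).trans ?_
    rw [Finset.sum_const, nsmul_eq_mul]
    apply mul_le_mul_of_nonneg_right
    · exact_mod_cast hd
    · positivity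
  have hbad2 : bad ≤ 1 / 2 := by
    have h8 : (Real.log (1 / 2) - Real.log p) * bad ≤ 2 * ((d : ℝ) * p ^ (r - 1)) := by
      linarith
    have h9 : 0 < Real.log (1 / 2) - Real.log p := by linarith
    by_contra hcon
    push Not at hcon
    have h10 := mul_lt_mul_of_pos_left hcon h9
    linarith
  nlinarith

open Pool.H177R3.Hyp in
/-- For each r ≥ 3 there is c > 0 such that every finite r-uniform, d-degenerate (d ≥ 2), triangle-free hypergraph has a fractional coloring by independent sets of total weight at most c·(d/log d)^(1/(r−1)). -/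
theorem result :
    ∀ r : ℕ, 3 ≤ r → ∃ c : ℝ, 0 < c ∧
      ∀ (V : Type) [Fintype V] [DecidableEq V] (E : Finset (Finset V)) (d : ℕ),
        2 ≤ d →
        (∀ e ∈ E, e.card = r) →
        (∀ S : Finset V, S.Nonempty →
          ∃ v ∈ S, (E.filter (fun e => v ∈ e ∧ e ⊆ S)).card ≤ d) →
        (¬ ∃ e ∈ E, ∃ f ∈ E, ∃ g ∈ E, ∃ u v w : V,
            u ∈ e ∧ u ∈ f ∧ v ∈ f ∧ v ∈ g ∧ w ∈ e ∧ w ∈ g ∧
            u ∉ g ∧ v ∉ e ∧ w ∉ f) →
        ∃ wt : Finset V → ℝ,
          (∀ S, 0 ≤ wt S) ∧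
          (∀ S, wt S ≠ 0 → ∀ e ∈ E, ¬ e ⊆ S) ∧
          (∀ v : V, 1 ≤ ∑ S : Finset V, (if v ∈ S then wt S else 0)) ∧
          (∑ S : Finset V, wt S) ≤
            c * ((d : ℝ) / Real.log (d : ℝ)) ^ (1 / ((r : ℝ) - 1)) := by
  intro r hr
  have hrR : (3:ℝ) ≤ (r:ℝ) := by exact_mod_cast hr
  set k : ℝ := (r : ℝ) - 1 with hk
  have hk2 : 2 ≤ k := by rw [hk]; linarith
  have hkpos : 0 < k := by linarith
  set κ : ℝ := 1 / (8 * k) * (2:ℝ) ^ (-k) with hκ
  have h2k : (2:ℝ) ^ (-k) ≤ 1 := by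
    apply Real.rpow_le_one_of_one_le_of_nonpos (by norm_num) (by linarith)
  have h2kpos : (0:ℝ) < (2:ℝ) ^ (-k) := by positivity
  have hκpos : 0 < κ := by rw [hκ]; positivity
  have hκ1 : κ ≤ 1 / (8 * k) := by
    rw [hκ]
    have : 0 < 1 / (8 * k) := by positivity
    nlinarith
  have hκ2 : κ ≤ (2:ℝ) ^ (-k) := by
    rw [hκ]
    have : 1 / (8 * k) ≤ 1 := by
      rw [div_le_one (by positivity)]; linarith
    nlinarith
  refine ⟨2 * κ ^ (-(1 / k)), by positivity, ?_⟩
  intro V _ _ E d hd hcard hdeg htri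
  have hdR : (2:ℝ) ≤ (d:ℝ) := by exact_mod_cast hd
  have hdpos : (0:ℝ) < (d:ℝ) := by linarith
  have hlogd : 0 < Real.log (d:ℝ) := Real.log_pos (by linarith)
  set t : ℝ := κ * (Real.log d / d) with ht
  have htpos : 0 < t := by rw [ht]; positivity
  set p : ℝ := t ^ (1 / k) with hp
  have hppos : 0 < p := by rw [hp]; positivity
  have hpk : p ^ (r - 1) = t := by
    rw [hp, ← Real.rpow_natCast, ← Real.rpow_mul htpos.le]
    have : ((r - 1 : ℕ) : ℝ) = k := by
      rw [Nat.cast_sub (by omega)]; rw [hk]; norm_num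
    rw [this, one_div_mul_cancel hkpos.ne', Real.rpow_one]
  have hdp : (d : ℝ) * p ^ (r - 1) = κ * Real.log d := by
    rw [hpk, ht]; field_simp
  have hKK : 4 * ((d : ℝ) * p ^ (r - 1)) ≤ Real.log (1 / 2) - Real.log p := by
    rw [hdp]
    have hlogp : Real.log p = (1 / k) * (Real.log κ + (Real.log (Real.log d) - Real.log d)) := by
      rw [hp, Real.log_rpow htpos, ht, Real.log_mul hκpos.ne' (by positivity),
        Real.log_div hlogd.ne' hdpos.ne']
    have hll : Real.log (Real.log d) ≤ Real.log d / 2 := by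
      have h1 := Real.log_le_sub_one_of_pos (show 0 < Real.log d / 2 by positivity)
      rw [Real.log_div hlogd.ne' (by norm_num)] at h1
      have h2 : Real.log 2 ≤ 1 := by
        have := Real.log_two_lt_d9; linarith
      linarith
    have hlκ : Real.log κ ≤ - (k * Real.log 2) := by
      have := Real.log_le_log hκpos hκ2
      rw [Real.log_rpow (by norm_num)] at this
      linarith
    have hhalf : Real.log (1 / 2) = - Real.log 2 := by
      rw [one_div, Real.log_inv]
    rw [hlogp, hhalf]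
    have h3 : (1 / k) * (Real.log κ + (Real.log (Real.log d) - Real.log d)) ≤
        (1 / k) * (-(k * Real.log 2) - Real.log d / 2) := by
      apply mul_le_mul_of_nonneg_left _ (by positivity)
      linarith
    have h4 : (1 / k) * (-(k * Real.log 2) - Real.log d / 2) =
        - Real.log 2 - Real.log d * (1 / (2 * k)) := by
      field_simp
    have h5 : 4 * (κ * Real.log d) ≤ Real.log d * (1 / (2 * k)) := by
      have h6 : 4 * κ ≤ 1 / (2 * k) := by
        have : 4 * (1 / (8 * k)) = 1 / (2 * k) := by field_simp; norm_num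
        linarith
      nlinarith
    rw [h4] at h3
    linarith
  have hpd : 0 < (d : ℝ) * p ^ (r - 1) := by positivity
  obtain ⟨L, hLnd, hLmem, hL⟩ := exists_order E d hdeg _ (Finset.univ : Finset V) rfl
  refine ⟨fun S => (2 / p) * Ex E L ∅ (fun _ => p) (fun J _ => if J = S then 1 else 0),
    ?_, ?_, ?_, ?_⟩
  · intro S
    apply mul_nonneg (by positivity)
    apply Ex_nonneg
    intro J _
    split_ifs <;> norm_num
  · intro S hS e he hsub
    apply hS
    show (2 / p) * Ex E L ∅ (fun _ => p) (fun J _ => if J = S then 1 else 0) = 0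
    rw [Ex_indep E L _ _ ∅ (fun _ => p) hLnd (by simp), mul_zero]
    · intro e' he' hsub'
      have h1 : e' = ∅ := Finset.subset_empty.mp hsub'
      have h2 := hcard e' he'
      rw [h1, Finset.card_empty] at h2
      omega
    · intro u _ e' he' hue' hx
      exfalso
      have h2 := hcard e' he'
      have h3 : e' ⊆ {u} := by
        intro x hxe
        rw [Finset.mem_singleton]
        by_contra hxu
        exact absurd (hx x hxe hxu) (Finset.notMem_empty x)
      have h4 := Finset.card_le_card h3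
      rw [Finset.card_singleton] at h4
      omega
    · intro J w hJ
      rw [if_neg]
      rintro rfl
      exact hJ e he hsub
  · intro v
    have hvL : v ∈ L := (hLmem v).2 (Finset.mem_univ v)
    obtain ⟨l₁, l₂, hsplit⟩ := List.append_of_mem hvL
    have h1 := prob_lower E d r hr hcard htri p hppos hpd hKK l₁ l₂ v (hsplit ▸ hLnd)
      (hL l₁ l₂ v hsplit)
    rw [← hsplit] at h1
    have h2 : ∑ S : Finset V, (if v ∈ S then
        (2 / p) * Ex E L ∅ (fun _ => p) (fun J _ => if J = S then 1 else 0) else 0) =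
        (2 / p) * Ex E L ∅ (fun _ => p) (fun J _ => if v ∈ J then 1 else 0) := by
      rw [← Ex_sum E L (fun J => if v ∈ J then (1:ℝ) else 0) ∅ (fun _ => p), Finset.mul_sum]
      apply Finset.sum_congr rfl
      intro S _
      split_ifs <;> ring
    rw [h2]
    have h3 : (2 / p) * (p / 2) = 1 := by field_simp
    calc (1:ℝ) = (2 / p) * (p / 2) := h3.symm
      _ ≤ _ := mul_le_mul_of_nonneg_left h1 (by positivity)
  · have h2 : ∑ S : Finset V, (2 / p) * Ex E L ∅ (fun _ => p) (fun J _ => if J = S then 1 else 0)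
        = 2 / p := by
      have h3 := Ex_sum E L (fun _ => (1:ℝ)) ∅ (fun _ => p)
      rw [Ex_const] at h3
      rw [← Finset.mul_sum]
      simp only [one_mul] at h3
      rw [h3, mul_one]
    rw [h2, hp, ht]
    have h4 : (0:ℝ) < (d:ℝ) / Real.log d := by positivity
    have h5 : κ * (Real.log d / d) = κ * ((d:ℝ) / Real.log d)⁻¹ := by
      rw [inv_div]
    rw [h5, Real.mul_rpow hκpos.le (by positivity), Real.inv_rpow h4.le, Real.rpow_neg hκpos.le]
    apply le_of_eq
    field_simp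

end Pool.Agent.S11007
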