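import Pool.Statements.S11031
import Pool.Agent.H149R3.GK.Aut
import Pool.Agent.H149R3.GK.Lab_helper407
import Pool.Agent.H32R3.GK.PM
import Pool.Agent.H610R3.GK.Cyc
import Pool.Agent.H996R3.GK.Flow
import Pool.Agent.H884R4.GKFin

set_option autoImplicit false
open Pool Pool.MP_b918dd_co

namespace Pool.Agent.S11031

/-- For every finite simple cubic graph G with no bridge, the Cartesian product of G with K_3 has a 1-factorization: perfect matchings such that each edge lies in exactly one of them. -/
theorem result :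
    ∀ (V : Type) [Fintype V] [DecidableEq V] (G : SimpleGraph V) [DecidableRel G.Adj],
      G.IsRegularOfDegree 3 →
      (∀ e : Sym2 V, ¬ G.IsBridge e) →
      ∃ (k : ℕ) (M : Fin k → (SimpleGraph.boxProd G (⊤ : SimpleGraph (Fin 3))).Subgraph),
        (∀ i, (M i).IsPerfectMatching) ∧
        ∀ e ∈ (SimpleGraph.boxProd G (⊤ : SimpleGraph (Fin 3))).edgeSet,
          ∃! i, e ∈ (M i).edgeSet :=
  Pool.Agent.H149R3.GK.final Pool.Agent.H149R3.GK.taskAut Pool.Agent.H32R3.GK.taskPM
    Pool.Agent.H610R3.GK.taskCyc Pool.Agent.H149R3.GK.LabH407.taskLab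
    Pool.Agent.H996R3.GK.taskFlow Pool.Agent.H149R3.GK.taskFin

end Pool.Agent.S11031
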