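import Pool.Statements.S11046
import Pool.Agent.H99R3.QP

set_option autoImplicit false
open Pool Pool.MP_b9906a_co

namespace Pool.Agent.S11046

/-- The negation of the preceding statement: For n>5, if q-polynomials f,g on F_{q^n} with max linearity field F_q have equal images of f(x)/x, then either one ΓL(2,q^n) map sends both graphs to graphs of αx^{q^i}, βx^{q^j} with gcd(i,n)=gcd(j,n)=1 and equal norms, or g(x) equals f(lx)/l or f̂(lx)/l. -/
theorem result :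
    ¬ (∀ (q n : ℕ) (K : Type) [Field K] [Fintype K],
      IsPrimePow q → Fintype.card K = q ^ n → 5 < n →
      ∀ (a b : Fin n → K),
        (∀ t : ℕ, t ∣ n → 1 < t →
          ¬ ∀ μ : K, μ ^ (q ^ t) = μ → ∀ x : K,
            (∑ k : Fin n, a k * (μ * x) ^ (q ^ (k : ℕ))) = μ * ∑ k : Fin n, a k * x ^ (q ^ (k : ℕ))) →
        (∀ t : ℕ, t ∣ n → 1 < t →
          ¬ ∀ μ : K, μ ^ (q ^ t) = μ → ∀ x : K,
            (∑ k : Fin n, b k * (μ * x) ^ (q ^ (k : ℕ))) = μ * ∑ k : Fin n, b k * x ^ (q ^ (k : ℕ))) →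
        {z : K | ∃ x : K, x ≠ 0 ∧ z = (∑ k : Fin n, a k * x ^ (q ^ (k : ℕ))) / x} =
          {z : K | ∃ x : K, x ≠ 0 ∧ z = (∑ k : Fin n, b k * x ^ (q ^ (k : ℕ))) / x} →
        (∃ (σ : K ≃+* K) (c₁ c₂ c₃ c₄ α β : K) (i j : ℕ),
            c₁ * c₄ - c₂ * c₃ ≠ 0 ∧ Nat.Coprime i n ∧ Nat.Coprime j n ∧
            Set.range (fun x : K =>
              (c₁ * σ x + c₂ * σ (∑ k : Fin n, a k * x ^ (q ^ (k : ℕ))),
               c₃ * σ x + c₄ * σ (∑ k : Fin n, a k * x ^ (q ^ (k : ℕ))))) =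
              Set.range (fun y : K => (y, α * y ^ (q ^ i))) ∧
            Set.range (fun x : K =>
              (c₁ * σ x + c₂ * σ (∑ k : Fin n, b k * x ^ (q ^ (k : ℕ))),
               c₃ * σ x + c₄ * σ (∑ k : Fin n, b k * x ^ (q ^ (k : ℕ))))) =
              Set.range (fun y : K => (y, β * y ^ (q ^ j))) ∧
            (∏ k ∈ Finset.range n, α ^ (q ^ k)) = ∏ k ∈ Finset.range n, β ^ (q ^ k)) ∨
        (∃ l : K, l ≠ 0 ∧
            ((∀ x : K, (∑ k : Fin n, b k * x ^ (q ^ (k : ℕ))) =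
                (∑ k : Fin n, a k * (l * x) ^ (q ^ (k : ℕ))) / l) ∨
             (∀ x : K, (∑ k : Fin n, b k * x ^ (q ^ (k : ℕ))) =
                (∑ k : Fin n, (a k) ^ (q ^ (n - (k : ℕ))) * (l * x) ^ (q ^ (n - (k : ℕ)))) / l)))) := by
  intro H
  haveI : Fintype (GaloisField 2 6) := Fintype.ofFinite _
  have hK : Fintype.card (GaloisField 2 6) = 2 ^ 6 := by
    rw [← Nat.card_eq_fintype_card, GaloisField.card 2 6 (by norm_num)]
  obtain ⟨w, hw⟩ := Pool.Agent.H99R3.QP.exists_w hK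
  have := H 2 6 (GaloisField 2 6) (Nat.prime_two.isPrimePow) hK (by norm_num)
    (Pool.Agent.H99R3.QP.ca w) (Pool.Agent.H99R3.QP.cb w)
  simp only [Pool.Agent.H99R3.QP.sum_a hK, Pool.Agent.H99R3.QP.sum_b hK,
    Pool.Agent.H99R3.QP.sum_ah hK] at this
  rcases this (Pool.Agent.H99R3.QP.lin_f hK w hw) (Pool.Agent.H99R3.QP.lin_g hK w hw)
    (Pool.Agent.H99R3.QP.image_eq hK w) with h | h
  · obtain ⟨σ, c₁, c₂, c₃, c₄, α, β, i, j, hc, hi, hj, h1, h2, h3⟩ := h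
    exact Pool.Agent.H99R3.QP.not_a hK w hw σ c₁ c₂ c₃ c₄ α i hc hi h1
  · obtain ⟨l, hl, h | h⟩ := h
    · exact Pool.Agent.H99R3.QP.not_b1 hK w hw l hl h
    · exact Pool.Agent.H99R3.QP.not_b2 hK w hw l hl h


end Pool.Agent.S11046
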