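import Pool.Statements.S11077
import Pool.Agent.H363R3.NonrepContract2

set_option autoImplicit false
open Pool Pool.MP_bae42e_co

namespace Pool.Agent.S11077

open Pool.Agent.H363R3.NonrepContract

/-- In the quotient by a matching, two vertices are identified only if they are equal or matched. -/
theorem quot_eq {V : Type} (G : SimpleGraph V) (M : G.Subgraph) (hM : M.IsMatching) (u v : V)
    (h : Quot.mk M.Adj u = Quot.mk M.Adj v) : u = v ∨ M.Adj u v := by
  have h1 := Quot.eqvGen_exact h
  clear h
  induction h1 with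
  | rel x y h => exact Or.inr h
  | refl x => exact Or.inl rfl
  | symm x y _ ih =>
    rcases ih with h | h
    · exact Or.inl h.symm
    · exact Or.inr h.symm
  | trans x y z _ _ ih1 ih2 =>
    rcases ih1 with h1 | h1
    · rw [h1]; exact ih2
    · rcases ih2 with h2 | h2
      · rw [← h2]; exact Or.inr h1
      · obtain ⟨w, _, hw⟩ := hM h1.symm.fst_mem
        left
        rw [hw x h1.symm, hw z h2]

/-- Labelled lifts of the vertices of the quotient. -/
theorem exists_labels {V : Type} (G : SimpleGraph V) (M : G.Subgraph) (hM : M.IsMatching) :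
    ∃ e : Quot M.Adj → Bool → V,
      (∀ x b, Quot.mk M.Adj (e x b) = x) ∧
      (∀ x, e x false = e x true ∨ G.Adj (e x false) (e x true)) ∧
      (∀ u, ∃ b, e (Quot.mk M.Adj u) b = u) := by
  classical
  have hp : ∀ v : V, ∃ w : V, (w = v ∨ M.Adj v w) ∧ ∀ w', M.Adj v w' → w' = w := by
    intro v
    by_cases hv : v ∈ M.verts
    · obtain ⟨w, hw1, hw2⟩ := hM hv
      exact ⟨w, Or.inr hw1, fun w' hw' => hw2 w' hw'⟩
    · exact ⟨v, Or.inl rfl, fun w' hw' => absurd hw'.fst_mem hv⟩
  choose g hg1 hg2 using hp
  refine ⟨fun x b => if b then g (Quot.out x) else Quot.out x, ?_, ?_, ?_⟩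
  · intro x b
    cases b
    · exact Quot.out_eq x
    · show Quot.mk M.Adj (g (Quot.out x)) = x
      rcases hg1 (Quot.out x) with h | h
      · rw [h]; exact Quot.out_eq x
      · rw [← Quot.sound h]; exact Quot.out_eq x
  · intro x
    show Quot.out x = g (Quot.out x) ∨ G.Adj (Quot.out x) (g (Quot.out x))
    rcases hg1 (Quot.out x) with h | h
    · exact Or.inl h.symm
    · exact Or.inr h.adj_sub
  · intro u
    rcases quot_eq G M hM _ _ (Quot.out_eq (Quot.mk M.Adj u)) with h | h
    · exact ⟨false, h⟩
    · exact ⟨true, (hg2 _ _ h).symm⟩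

/-- There is f such that for every finite graph G with a nonrepetitive k-colouring and every matching M of G, the graph G/M obtained by contracting the edges of M has a nonrepetitive f(k)-colouring. -/
theorem result :
    ∃ f : ℕ → ℕ, ∀ (V : Type) [Fintype V] (G : SimpleGraph V) (M : G.Subgraph),
      M.IsMatching → ∀ k : ℕ,
        (∃ c : V → Fin k, ∀ (u v : V) (p : G.Walk u v), p.IsPath →
          Even p.support.length →
          (p.support.map c).take (p.support.length / 2) ≠
            (p.support.map c).drop (p.support.length / 2)) →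
        ∃ c : Quot M.Adj → Fin (f k),
          ∀ (a b : Quot M.Adj)
            (p : (SimpleGraph.fromRel (fun x y : Quot M.Adj =>
                ∃ u v : V, Quot.mk M.Adj u = x ∧ Quot.mk M.Adj v = y ∧ G.Adj u v)).Walk a b),
            p.IsPath → Even p.support.length →
            (p.support.map c).take (p.support.length / 2) ≠
              (p.support.map c).drop (p.support.length / 2) := by
  refine ⟨fun k => Nat.card ((Fin k × Fin k) × K1 (Fin k)), ?_⟩
  intro V _ G M hM k ⟨c, hc⟩
  have hNR : NR G c := nr_of_walk G c hc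
  obtain ⟨e, he1, he2, he3⟩ := exists_labels G M hM
  obtain ⟨Φ, hΦ⟩ := nr_contract G
    (SimpleGraph.fromRel (fun x y : Quot M.Adj =>
      ∃ u v : V, Quot.mk M.Adj u = x ∧ Quot.mk M.Adj v = y ∧ G.Adj u v)) e c hNR he2
    (by
      intro x y b b' h
      rw [← he1 x b, ← he1 y b', h])
    (by
      intro x y h
      rw [SimpleGraph.fromRel_adj] at h
      rcases h.2 with ⟨u, v, hu, hv, huv⟩ | ⟨u, v, hu, hv, huv⟩
      · obtain ⟨p, hp⟩ := he3 u
        obtain ⟨q, hq⟩ := he3 v
        rw [hu] at hp
        rw [hv] at hq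
        exact ⟨p, q, by rw [hp, hq]; exact huv⟩
      · obtain ⟨p, hp⟩ := he3 u
        obtain ⟨q, hq⟩ := he3 v
        rw [hu] at hp
        rw [hv] at hq
        exact ⟨q, p, by rw [hp, hq]; exact huv.symm⟩)
  let ε := Finite.equivFin ((Fin k × Fin k) × K1 (Fin k))
  refine ⟨fun x => ε (Φ x), ?_⟩
  intro a b p hp hev
  refine walk_of_nr _ (fun x => ε (Φ x)) ?_ a b p hp hev
  intro l₁ l₂ h1 h2 h3 h4
  refine hΦ l₁ l₂ h1 h2 h3 ?_
  have h5 : (l₁.map Φ).map ε = (l₂.map Φ).map ε := by
    rw [List.map_map, List.map_map]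
    exact h4
  exact List.map_injective_iff.2 ε.injective h5

end Pool.Agent.S11077
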