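import Pool.Statements.S11127
import Pool.Agent.H240R3.HypG

set_option autoImplicit false
open Pool Pool.MP_bd7745_co

namespace Pool.Agent.S11127

open Pool.Agent.H240R3 in
open Classical in
lemma frac_eq (n k : ℕ) :
    ((((Finset.univ : Finset (Fin n)).powersetCard k).powerset.filter
              (fun H => ∃ v w : Fin n, v ≠ w ∧
                (H.filter (fun e => v ∈ e)).card = (H.filter (fun e => w ∈ e)).card)).card : ℝ)
            / ((((Finset.univ : Finset (Fin n)).powersetCard k).powerset.card : ℝ))
      = 1 - EE (EK n k) (fun H =>
      if Function.Injective (fun v : Fin n => deg H v) then (1 : ℝ) else 0) := by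
  have h1 : ((((Finset.univ : Finset (Fin n)).powersetCard k).powerset.filter
              (fun H => ∃ v w : Fin n, v ≠ w ∧
                (H.filter (fun e => v ∈ e)).card = (H.filter (fun e => w ∈ e)).card)).card : ℝ)
      = ∑ H ∈ (EK n k).powerset,
        (1 - (if Function.Injective (fun v : Fin n => deg H v) then (1 : ℝ) else 0)) := by
    rw [Finset.card_filter]
    push_cast
    refine Finset.sum_congr rfl (fun H _ => ?_)
    by_cases hinj : Function.Injective (fun v : Fin n => deg H v)
    · rw [if_pos hinj, if_neg, sub_self]
      rintro ⟨v, w, hvw, heq⟩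
      exact hvw (hinj heq)
    · rw [if_neg hinj, if_pos, sub_zero]
      by_contra hcon
      apply hinj
      intro v w hvw
      by_contra hne
      exact hcon ⟨v, w, hne, hvw⟩
  rw [h1, Finset.sum_sub_distrib]
  unfold EE
  rw [Finset.sum_const, nsmul_eq_mul, mul_one, Finset.card_powerset, Finset.card_powerset]
  have h2 : (2 : ℝ) ^ (EK n k).card ≠ 0 := by positivity
  have h3 : (((Finset.univ : Finset (Fin n)).powersetCard k).card) = (EK n k).card := rfl
  rw [h3]
  push_cast
  rw [sub_div, div_self h2]

/-- For k = 3 and k = 4: among all k-uniform hypergraphs on n labelled vertices, the fraction having two distinct vertices of equal degree tends to 1 as n → ∞. -/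
theorem result :
    ∀ k : ℕ, (k = 3 ∨ k = 4) →
      Filter.Tendsto
        (fun n : ℕ =>
          ((((Finset.univ : Finset (Fin n)).powersetCard k).powerset.filter
              (fun H => ∃ v w : Fin n, v ≠ w ∧
                (H.filter (fun e => v ∈ e)).card = (H.filter (fun e => w ∈ e)).card)).card : ℝ)
            / ((((Finset.univ : Finset (Fin n)).powersetCard k).powerset.card : ℝ)))
        Filter.atTop (nhds 1) := by
  intro k hk
  have h := (Pool.Agent.H240R3.irr_tendsto_zero k hk).const_sub 1
  rw [sub_zero] at h
  refine h.congr ?_
  intro n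
  rw [← frac_eq n k]

end Pool.Agent.S11127
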