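import Pool.Statements.S11139
import Pool.Agent.H856R3.AsdMinor
import Pool.Agent.H856R3.AsdFinal

set_option autoImplicit false
open Pool Pool.MP_bdfe62_co

namespace Pool.Agent.S11139

/-- Every subgraph-closed class of finite graphs with bounded asymptotic dimension has bounded expansion: for some g, every r-shallow minor H of a graph in the class has at most g(r) times as many edges as vertices. -/
theorem result :
  ∀ C : ∀ n : ℕ, SimpleGraph (Fin n) → Prop,
    (∀ (n m : ℕ) (H : SimpleGraph (Fin n)) (G : SimpleGraph (Fin m)) (φ : H →g G),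
        Function.Injective φ → C m G → C n H) →
    (∃ d : ℕ, ∃ f : ℕ → ℕ, ∀ (m : ℕ) (G : SimpleGraph (Fin m)), C m G → ∀ r : ℕ,
        ∃ c : Fin m → Fin (d + 1), ∀ u v : Fin m,
          Relation.ReflTransGen (fun a b => c a = c b ∧ G.edist a b ≤ (r : ℕ∞)) u v →
          G.edist u v ≤ (f r : ℕ∞)) →
    ∃ g : ℕ → ℕ, ∀ (m : ℕ) (G : SimpleGraph (Fin m)), C m G →
      ∀ (r k : ℕ) (H : SimpleGraph (Fin k)),
      (∃ B : Fin k → Finset (Fin m), ∃ ctr : Fin k → Fin m,
        (∀ i j, i ≠ j → Disjoint (B i) (B j)) ∧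
        (∀ i, ctr i ∈ B i) ∧
        (∀ i, ∀ x ∈ B i, ∃ p : G.Walk (ctr i) x, p.length ≤ r ∧ ∀ y ∈ p.support, y ∈ B i) ∧
        (∀ i j, H.Adj i j → ∃ x ∈ B i, ∃ y ∈ B j, G.Adj x y)) →
      H.edgeSet.ncard ≤ g r * k := by
  intro C hmono had
  obtain ⟨d, f, hf⟩ := had
  choose g hg using fun r : ℕ =>
    Pool.Agent.H856R3.degree_bound d (fun ρ => f ((2 * r + 1) * ρ))
  refine ⟨g, ?_⟩
  intro m G hG r k H hH
  obtain ⟨B, ctr, hdisj, hctr, hrad, hadj⟩ := hH
  have hSAD : Pool.Agent.H856R3.SAD G d f := by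
    intro G' hG' ρ
    have hC : C m G' := hmono m m G' G (SimpleGraph.Hom.ofLE hG') (fun _ _ h => h) hG
    exact hf m G' hC ρ
  exact hg r k H (Pool.Agent.H856R3.SAD_minor G H B d f hSAD r ctr hdisj hctr hrad hadj)

end Pool.Agent.S11139
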