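import Pool.Statements.S11193
import Pool.Agent.H931R3.NGMain

set_option autoImplicit false
open Pool Pool.MP_c044fe_co

namespace Pool.Agent.S11193

open Pool.Agent.H931R3.NG in
/-- extending a placement of the non-isolated part to all of `G`. -/
lemma extend {k : ℕ} (G : SimpleGraph (Fin k)) {β : Type} [Fintype β] (T : ℕ)
    (R : β → β → Prop)
    (h : Cop (G.comap (Subtype.val : {v : Fin k // ∃ u, G.Adj v u} → Fin k)) T R Finset.univ)
    (hT : T * k ≤ Fintype.card β) :
    ∃ f : Fin T × Fin k → β, Function.Injective f ∧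
      ∀ p q : Fin T × Fin k, p.1 = q.1 → G.Adj p.2 q.2 → R (f p) (f q) := by
  classical
  obtain ⟨f, h1, _, h3⟩ := h
  rcases isEmpty_or_nonempty β with hβ | ⟨⟨b0⟩⟩
  · have hTk : T * k = 0 := by
      have : Fintype.card β = 0 := Fintype.card_eq_zero
      omega
    have hemp : IsEmpty (Fin T × Fin k) := by
      rw [← Fintype.card_eq_zero_iff]
      simpa using hTk
    exact ⟨fun p => (hemp.false p).elim, fun p => (hemp.false p).elim,
      fun p => (hemp.false p).elim⟩
  let f0 : Fin T × Fin k → β := fun p =>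
    if hp : ∃ u, G.Adj p.2 u then f (p.1, ⟨p.2, hp⟩) else b0
  let s : Finset (Fin T × Fin k) := Finset.univ.filter (fun p => ∃ u, G.Adj p.2 u)
  have hs : ∀ p, p ∈ s ↔ ∃ u, G.Adj p.2 u := by intro p; simp [s]
  have hinj : Set.InjOn f0 s := by
    intro p hp q hq hpq
    rw [Finset.mem_coe, hs] at hp hq
    simp only [f0, dif_pos hp, dif_pos hq] at hpq
    have := h1 hpq
    simp only [Prod.mk.injEq, Subtype.mk.injEq] at this
    exact Prod.ext this.1 this.2
  have hcs : (s.image f0).card ≤ T * k := by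
    calc (s.image f0).card ≤ s.card := Finset.card_image_le
      _ ≤ Fintype.card (Fin T × Fin k) := Finset.card_le_univ _
      _ = T * k := by simp
  obtain ⟨t, ht1, ht2⟩ := Finset.exists_superset_card_eq hcs hT
  obtain ⟨g, hg⟩ := Finset.exists_equiv_extend_of_card_eq (α := Fin T × Fin k) (t := t)
    (by rw [ht2]; simp) (s := s) (f := f0) ht1 hinj
  refine ⟨fun p => (g p : β), ?_, ?_⟩
  · intro p q hpq
    exact g.injective (Subtype.ext hpq)
  · intro p q hpq hG
    have hp : ∃ u, G.Adj p.2 u := ⟨_, hG⟩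
    have hq : ∃ u, G.Adj q.2 u := ⟨_, hG.symm⟩
    have e1 : (g p : β) = f (p.1, ⟨p.2, hp⟩) := by
      rw [hg p ((hs p).mpr hp)]; simp only [f0, dif_pos hp]
    have e2 : (g q : β) = f (q.1, ⟨q.2, hq⟩) := by
      rw [hg q ((hs q).mpr hq)]; simp only [f0, dif_pos hq]
    show R (g p : β) (g q : β)
    rw [e1, e2]
    exact h3 _ _ hpq hG

open Pool.Agent.H931R3.NG in
lemma restrict {k : ℕ} (G : SimpleGraph (Fin k)) {β : Type} (T : ℕ)
    {R : β → β → Prop} (f : Fin T × Fin k → β) (hf : Function.Injective f)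
    (h : ∀ p q : Fin T × Fin k, p.1 = q.1 → G.Adj p.2 q.2 → R (f p) (f q)) :
    ∃ f' : Fin T × {v : Fin k // ∃ u, G.Adj v u} → β, Function.Injective f' ∧
      ∀ p q : Fin T × {v : Fin k // ∃ u, G.Adj v u}, p.1 = q.1 →
        (G.comap (Subtype.val : {v : Fin k // ∃ u, G.Adj v u} → Fin k)).Adj p.2 q.2 →
          R (f' p) (f' q) := by
  refine ⟨fun p => f (p.1, p.2.val), ?_, ?_⟩
  · intro p q hpq
    have := hf hpq
    simp only [Prod.mk.injEq] at this
    exact Prod.ext this.1 (Subtype.ext this.2)
  · intro p q hpq hG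
    exact h _ _ hpq hG

/-- For every graph G on k≥1 vertices, for all large n, every graph F such that every 2-colouring of F's edges has a monochromatic copy of nG contains floor(r(nG)/k) vertex-disjoint copies of G. -/
theorem result :
    ∀ k : ℕ, 0 < k → ∀ G : SimpleGraph (Fin k), ∃ n₀ : ℕ, ∀ n : ℕ, n₀ ≤ n →
      ∀ m : ℕ, ∀ F : SimpleGraph (Fin m),
        (∀ c : Fin m → Fin m → Bool, (∀ x y : Fin m, c x y = c y x) →
          ∃ b : Bool, ∃ f : Fin n × Fin k → Fin m,
            Function.Injective f ∧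
              ∀ p q : Fin n × Fin k, p.1 = q.1 → G.Adj p.2 q.2 →
                F.Adj (f p) (f q) ∧ c (f p) (f q) = b) →
        ∃ f : Fin (sInf {N : ℕ | ∀ c : Fin N → Fin N → Bool,
                (∀ x y : Fin N, c x y = c y x) → ∃ b : Bool,
                ∃ g : Fin n × Fin k → Fin N, Function.Injective g ∧
                  ∀ p q : Fin n × Fin k, p.1 = q.1 → G.Adj p.2 q.2 →
                    c (g p) (g q) = b} / k) × Fin k → Fin m,
          Function.Injective f ∧
            ∀ p q : Fin (sInf {N : ℕ | ∀ c : Fin N → Fin N → Bool,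
                (∀ x y : Fin N, c x y = c y x) → ∃ b : Bool,
                ∃ g : Fin n × Fin k → Fin N, Function.Injective g ∧
                  ∀ p q : Fin n × Fin k, p.1 = q.1 → G.Adj p.2 q.2 →
                    c (g p) (g q) = b} / k) × Fin k,
              p.1 = q.1 → G.Adj p.2 q.2 → F.Adj (f p) (f q) := by
  classical
  intro k hk G
  have main : ∃ n₀ : ℕ, ∀ n : ℕ, n₀ ≤ n → ∀ m : ℕ, ∀ F : SimpleGraph (Fin m),
        (∀ c : Fin m → Fin m → Bool, (∀ x y : Fin m, c x y = c y x) →
          ∃ b : Bool, ∃ f : Fin n × Fin k → Fin m,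
            Function.Injective f ∧
              ∀ p q : Fin n × Fin k, p.1 = q.1 → G.Adj p.2 q.2 →
                F.Adj (f p) (f q) ∧ c (f p) (f q) = b) →
        ∃ f : Fin (Pool.Agent.H931R3.NG.ram G n / k) × Fin k → Fin m,
          Function.Injective f ∧
            ∀ p q : Fin (Pool.Agent.H931R3.NG.ram G n / k) × Fin k,
              p.1 = q.1 → G.Adj p.2 q.2 → F.Adj (f p) (f q) := by
    set H : SimpleGraph {v : Fin k // ∃ u, G.Adj v u} :=
      G.comap (Subtype.val : {v : Fin k // ∃ u, G.Adj v u} → Fin k) with hH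
    have hiso : ∀ v, ∃ u, H.Adj v u := by
      rintro ⟨v, u, hu⟩
      exact ⟨⟨u, v, hu.symm⟩, hu⟩
    -- the Ramsey number of `nG` is at most `m` whenever some `F` on `m` vertices arrows `nG`
    have hram : ∀ n m (F : SimpleGraph (Fin m)),
        (∀ c : Fin m → Fin m → Bool, (∀ x y : Fin m, c x y = c y x) →
          ∃ b : Bool, ∃ f : Fin n × Fin k → Fin m,
            Function.Injective f ∧
              ∀ p q : Fin n × Fin k, p.1 = q.1 → G.Adj p.2 q.2 →
                F.Adj (f p) (f q) ∧ c (f p) (f q) = b) →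
        Pool.Agent.H931R3.NG.ram G n ≤ m := by
      intro n m F hF
      apply Nat.sInf_le
      intro c hc
      obtain ⟨b, f, h1, h2⟩ := hF c hc
      exact ⟨b, f, h1, fun p q hp hq => (h2 p q hp hq).2⟩
    have hramle : ∀ n, Pool.Agent.H931R3.NG.ram G n ≤
        max (Pool.Agent.H931R3.NG.ram H n) (n * k) := by
      intro n
      apply Nat.sInf_le
      intro c hc
      obtain ⟨b, hb⟩ := Pool.Agent.H931R3.NG.ram_arrow H n c hc Finset.univ (by simp)
      obtain ⟨f, h1, h2⟩ := extend G n (fun x y => c x y = b) hb (by simp)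
      exact ⟨b, f, h1, h2⟩
    have hcardH : Fintype.card {v : Fin k // ∃ u, G.Adj v u} ≤ k := by
      have := Fintype.card_subtype_le (fun v : Fin k => ∃ u, G.Adj v u)
      simpa using this
    have hcop : ∀ n m (F : SimpleGraph (Fin m)),
        (∀ c : Fin m → Fin m → Bool, (∀ x y : Fin m, c x y = c y x) →
          ∃ b : Bool, ∃ f : Fin n × Fin k → Fin m,
            Function.Injective f ∧
              ∀ p q : Fin n × Fin k, p.1 = q.1 → G.Adj p.2 q.2 →
                F.Adj (f p) (f q) ∧ c (f p) (f q) = b) →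
        Pool.Agent.H931R3.NG.Cop H n F.Adj Finset.univ := by
      intro n m F hF
      obtain ⟨b, f, h1, h2⟩ := hF (fun _ _ => true) (fun _ _ => rfl)
      obtain ⟨f', h3, h4⟩ := restrict G n (R := F.Adj) f h1 (fun p q hp hq => (h2 p q hp hq).1)
      exact ⟨f', h3, fun _ => Finset.mem_univ _, h4⟩
    rcases isEmpty_or_nonempty {v : Fin k // ∃ u, G.Adj v u} with hemp | hne
    · refine ⟨0, fun n _ m F hF => ?_⟩
      apply extend G _ F.Adj
      · refine ⟨fun p => (hemp.false p.2).elim, fun p => (hemp.false p.2).elim,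
          fun p => (hemp.false p.2).elim, fun p => (hemp.false p.2).elim⟩
      · rw [Fintype.card_fin]
        exact (Nat.div_mul_le_self _ _).trans (hram n m F hF)
    · obtain ⟨n₀, hn₀⟩ := Pool.Agent.H931R3.NG.main_noiso H hiso
      refine ⟨n₀, fun n hn m F hF => ?_⟩
      apply extend G _ F.Adj
      · by_cases hcase : Pool.Agent.H931R3.NG.ram G n ≤ n * k
        · refine (hcop n m F hF).le ?_
          exact Nat.div_le_of_le_mul (by rw [mul_comm]; exact hcase)
        · have h1 : Pool.Agent.H931R3.NG.ram G n ≤ Pool.Agent.H931R3.NG.ram H n := by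
            have := hramle n
            rcases le_max_iff.mp this with h | h
            · exact h
            · exact absurd h hcase
          have h2 := hn₀ n hn (Fin m) F (by
            intro c hc
            obtain ⟨b, f, h3, h4⟩ := hF c hc
            obtain ⟨f', h5, h6⟩ := restrict G n (R := fun x y => F.Adj x y ∧ c x y = b) f h3 h4
            exact ⟨b, f', h5, h6⟩)
          refine h2.le ?_
          exact (Nat.div_le_div_left hcardH Fintype.card_pos).trans (Nat.div_le_div_right h1)
      · rw [Fintype.card_fin]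
        exact (Nat.div_mul_le_self _ _).trans (hram n m F hF)
  exact main

end Pool.Agent.S11193
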