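import Pool.Statements.S11215
import Pool.Agent.H901R3.Coinv8

set_option autoImplicit false
open Pool Pool.MP_c0e2a0_co

namespace Pool.Agent.S11215

open MvPolynomial in
lemma ideal_eq (n k : ℕ) : Ideal.span {p : MvPolynomial (Fin k × Fin n) ℂ |
      (∀ σ : Equiv.Perm (Fin n),
        MvPolynomial.rename (fun x : Fin k × Fin n => (x.1, σ x.2)) p = p) ∧
      MvPolynomial.coeff 0 p = 0} = H901R3.IJ ℂ (Fin k) (H901R3.one' (Fin n)) := by
  apply le_antisymm
  · rw [Ideal.span_le]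
    rintro p ⟨h1, h2⟩
    exact H901R3.inv_mem p h1 h2
  · rw [Ideal.span_le]
    rintro _ ⟨f, rfl⟩
    apply Ideal.subset_span
    exact ⟨fun σ => H901R3.act_PJ σ f,
      H901R3.coeff_zero_of_mem (Ideal.subset_span (Set.mem_range_self f))⟩

/-- For all n,k≥1, every subgroup H of S_n and every multidegree a with ∣a∣≤n: the degree-a H-fixed dimension of coinvariants times invariants equals that of the polynomial ring, i.e. F_n^(k)·h_n[P_k] agrees with h_n[P_k z] up to q-degree n. -/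
theorem result :
  ∀ n k : ℕ, 1 ≤ n → 1 ≤ k →
  ∀ (I : Ideal (MvPolynomial (Fin k × Fin n) ℂ)),
    I = Ideal.span {p : MvPolynomial (Fin k × Fin n) ℂ |
      (∀ σ : Equiv.Perm (Fin n),
        MvPolynomial.rename (fun x : Fin k × Fin n => (x.1, σ x.2)) p = p) ∧
      MvPolynomial.coeff 0 p = 0} →
  ∀ (Fix : Subgroup (Equiv.Perm (Fin n)) → Submodule ℂ (MvPolynomial (Fin k × Fin n) ℂ)),
    (∀ H : Subgroup (Equiv.Perm (Fin n)), Fix H =
      ⨅ σ ∈ H, LinearMap.ker
        (AlgHom.toLinearMap (MvPolynomial.rename (R := ℂ)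
            (fun x : Fin k × Fin n => (x.1, σ x.2)))
          - LinearMap.id)) →
  ∀ (Deg : (Fin k → ℕ) → Submodule ℂ (MvPolynomial (Fin k × Fin n) ℂ)),
    (∀ m : Fin k → ℕ, Deg m = MvPolynomial.weightedHomogeneousSubmodule ℂ
      (fun x : Fin k × Fin n => (Pi.single x.1 (1 : ℕ) : Fin k → ℕ)) m) →
  ∀ (H : Subgroup (Equiv.Perm (Fin n))) (a : Fin k → ℕ), ∑ i, a i ≤ n →
    ∑ b : Fin k → Fin (n + 1),
      (if (∀ i, (b i : ℕ) ≤ a i) then
        (((Module.finrank ℂ ↥(Deg (fun i => (b i : ℕ)) ⊓ Fix H) : ℤ)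
          - (Module.finrank ℂ ↥(Deg (fun i => (b i : ℕ)) ⊓ Fix H
                ⊓ Submodule.restrictScalars ℂ I) : ℤ))
         * (Module.finrank ℂ ↥(Deg (a - fun i => (b i : ℕ)) ⊓ Fix ⊤) : ℤ))
      else 0)
    = (Module.finrank ℂ ↥(Deg a ⊓ Fix H) : ℤ) := by
  intro n k _ _ I hI Fix hFix Deg hDeg H a ha
  have hV : ∀ (G : Subgroup (Equiv.Perm (Fin n))) (b : Fin k → ℕ),
      Deg b ⊓ Fix G = H901R3.VV ℂ G b := by
    intro G b
    ext v
    rw [Submodule.mem_inf, hDeg, hFix, H901R3.mem_VV]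
    apply and_congr Iff.rfl
    simp only [Submodule.mem_iInf, LinearMap.mem_ker, LinearMap.sub_apply, LinearMap.id_apply,
      sub_eq_zero]
    rfl
  have hVI : ∀ (G : Subgroup (Equiv.Perm (Fin n))) (b : Fin k → ℕ),
      Deg b ⊓ Fix G ⊓ Submodule.restrictScalars ℂ I = H901R3.VI ℂ G b := by
    intro G b
    rw [hV, hI, ideal_eq]
    rfl
  have hVf : ∀ (G : Subgroup (Equiv.Perm (Fin n))) (b : Fin k → ℕ),
      Module.finrank ℂ ↥(Deg b ⊓ Fix G) = Module.finrank ℂ ↥(H901R3.VV (κ := Fin k) ℂ G b) := by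
    intro G b; rw [hV]
  have hVIf : ∀ (G : Subgroup (Equiv.Perm (Fin n))) (b : Fin k → ℕ),
      Module.finrank ℂ ↥(Deg b ⊓ Fix G ⊓ Submodule.restrictScalars ℂ I) =
        Module.finrank ℂ ↥(H901R3.VI (κ := Fin k) ℂ G b) := by
    intro G b; rw [hVI]
  simp only [hVf, hVIf]
  rw [H901R3.main_dim (K := ℂ) H a (by simpa using ha)]
  rw [← Finset.sum_filter]
  have han : ∀ i, a i ≤ n := fun i =>
    (Finset.single_le_sum (f := a) (fun _ _ => Nat.zero_le _) (Finset.mem_univ i)).trans ha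
  refine Finset.sum_bij' (fun b _ => (fun i => (b i : ℕ)))
    (fun c _ => fun i => (Fin.ofNat (n + 1) (c i))) ?_ ?_ ?_ ?_ ?_
  · intro b hb
    rw [Finset.mem_filter] at hb
    exact Finset.mem_Iic.2 hb.2
  · intro c hc
    rw [Finset.mem_filter]
    refine ⟨Finset.mem_univ _, fun i => ?_⟩
    have h1 : c i ≤ a i := Finset.mem_Iic.1 hc i
    have h2 := han i
    rw [Fin.val_ofNat, Nat.mod_eq_of_lt (by omega)]
    exact h1
  · intro b _
    funext i
    apply Fin.ext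
    rw [Fin.val_ofNat, Nat.mod_eq_of_lt (b i).2]
  · intro c hc
    funext i
    have h1 : c i ≤ a i := Finset.mem_Iic.1 hc i
    have h2 := han i
    simp only
    rw [Fin.val_ofNat, Nat.mod_eq_of_lt (by omega)]
  · intro b _
    rfl

end Pool.Agent.S11215
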