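import Pool.Statements.S11218
import Pool.Agent.H122R3.Fur

set_option autoImplicit false
open Pool Pool.MP_c0f93d_co

namespace Pool.Agent.S11218

/-- The negation of the preceding statement: For every n and every finite family of n-subsets of ℕ that is pairwise intersecting and maximal (any n-set meeting all members is a member), the union of the family has at most as many elements as the family has members. -/
theorem result :
    ¬ (∀ (n : ℕ) (F : Finset (Finset ℕ)),
      (∀ A ∈ F, A.card = n) →
      (∀ A ∈ F, ∀ B ∈ F, (A ∩ B).Nonempty) →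
      (∀ B : Finset ℕ, B.card = n → (∀ A ∈ F, (A ∩ B).Nonempty) → B ∈ F) →
      (F.biUnion id).card ≤ F.card) := by
  intro h
  have h1 := h 5 Pool.Agent.H122R3.Fur.Fam Pool.Agent.H122R3.Fur.fam_card
    Pool.Agent.H122R3.Fur.fam_inter Pool.Agent.H122R3.Fur.fam_max
  rw [Pool.Agent.H122R3.Fur.fam_union, Pool.Agent.H122R3.Fur.fam_size] at h1
  omega

end Pool.Agent.S11218
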