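import Pool.Statements.S11238
import Pool.Agent.H700R3.CosetStability

set_option autoImplicit false
open Pool Pool.MP_c1e4cd_co

namespace Pool.Agent.S11238

/-- The negation of the preceding statement: Some C₀>0 works for all n≥1: if A⊆S_n, c=∣A∣/(n-1)!, and 1_A is within mean-square εc/n of the span of 1-coset indicators, then 1_A is within C₀εc/n of a union of round(c) distinct 1-cosets, and ∣c−round(c)∣≤C₀ε. -/
theorem result :
    ¬ (∃ C₀ : ℝ, 0 < C₀ ∧ ∀ n : ℕ, 1 ≤ n → ∀ A : Finset (Equiv.Perm (Fin n)), ∀ ε : ℝ, 0 ≤ ε →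
    (∃ a : Fin n → Fin n → ℝ,
      (1 / (n.factorial : ℝ)) * ∑ σ : Equiv.Perm (Fin n),
          ((if σ ∈ A then (1:ℝ) else 0) - ∑ i : Fin n, a i (σ i)) ^ 2
        ≤ ε * ((A.card : ℝ) / ((n - 1).factorial : ℝ)) / n) →
    ∃ S : Finset (Fin n × Fin n),
      (S.card : ℤ) = round ((A.card : ℝ) / ((n - 1).factorial : ℝ)) ∧
      (1 / (n.factorial : ℝ)) * ∑ σ : Equiv.Perm (Fin n),
          ((if σ ∈ A then (1:ℝ) else 0) - (if ∃ p ∈ S, σ p.1 = p.2 then (1:ℝ) else 0)) ^ 2
        ≤ C₀ * ε * ((A.card : ℝ) / ((n - 1).factorial : ℝ)) / n ∧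
      |(A.card : ℝ) / ((n - 1).factorial : ℝ)
          - ((round ((A.card : ℝ) / ((n - 1).factorial : ℝ)) : ℤ) : ℝ)| ≤ C₀ * ε) := by
  classical
  rintro ⟨C₀, hC, H⟩
  obtain ⟨m, hm⟩ := exists_nat_gt (C₀ + 1)
  have hm1 : 1 ≤ m := by
    rcases Nat.eq_zero_or_pos m with h | h
    · subst h; norm_num at hm; linarith
    · exact h
  obtain ⟨n, hn⟩ : ∃ n : ℕ, n = 2 * m ^ 2 + 2 := ⟨_, rfl⟩
  have hmm : m ≤ m ^ 2 := by nlinarith
  have hn2 : 2 ≤ n := by omega
  obtain ⟨J, -, hJ⟩ := Finset.exists_subset_card_eq (s := (Finset.univ : Finset (Fin n))) (n := m)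
    (by rw [Finset.card_univ, Fintype.card_fin]; omega)
  obtain ⟨K, hKJ, hK⟩ := Finset.exists_subset_card_eq (s := (Finset.univ : Finset (Fin n)) \ J)
    (n := m) (by
      rw [Finset.card_sdiff_of_subset (Finset.subset_univ _), Finset.card_univ,
        Fintype.card_fin, hJ]; omega)
  have hdisj : Disjoint J K := by
    rw [Finset.disjoint_left]
    intro x hx hxK
    have := hKJ hxK
    rw [Finset.mem_sdiff] at this
    exact this.2 hx
  let i0 : Fin n := ⟨0, by omega⟩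
  let i1 : Fin n := ⟨1, by omega⟩
  have h01 : i0 ≠ i1 := by
    intro h
    have := congrArg Fin.val h
    simp [i0, i1] at this
  set X := Finset.univ.filter (fun σ : Equiv.Perm (Fin n) => σ i0 ∈ J) with hX
  set Y := Finset.univ.filter (fun σ : Equiv.Perm (Fin n) => σ i1 ∈ K) with hY
  have hXc := Pool.Agent.H700R3.CosetStability.count_single_set i0 J
  have hYc := Pool.Agent.H700R3.CosetStability.count_single_set i1 K
  have hXYc := Pool.Agent.H700R3.CosetStability.count_pair_set i0 i1 h01 J K hdisj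
  have hXY : Finset.univ.filter (fun σ : Equiv.Perm (Fin n) => σ i0 ∈ J ∧ σ i1 ∈ K) = X ∩ Y := by
    rw [hX, hY, Finset.filter_and]
  rw [hXY] at hXYc
  rw [← hX] at hXc
  rw [← hY] at hYc
  rw [hJ] at hXc hXYc
  rw [hK] at hYc hXYc
  have hunion := Finset.card_union_add_card_inter X Y
  obtain ⟨N, hN⟩ : ∃ N : ℕ, n = N + 1 := ⟨n - 1, by omega⟩
  have hfac : (n.factorial : ℝ) = n * ((n - 1).factorial : ℝ) := by
    rw [hN, Nat.factorial_succ]; push_cast; simp
  have hF : (0 : ℝ) < ((n - 1).factorial : ℝ) := by exact_mod_cast Nat.factorial_pos _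
  set F : ℝ := ((n - 1).factorial : ℝ) with hFdef
  have hnpos : (0 : ℝ) < n := by exact_mod_cast (by omega : 0 < n)
  have hn1 : ((n - 1 : ℕ) : ℝ) = 2 * (m : ℝ) ^ 2 + 1 := by
    have : n - 1 = 2 * m ^ 2 + 1 := by omega
    rw [this]; push_cast; ring
  have hXr : (X.card : ℝ) = m * F := by
    have h : (X.card : ℝ) * n = m * (n.factorial : ℝ) := by exact_mod_cast hXc
    rw [hfac] at h
    have : (X.card : ℝ) * n = (m * F) * n := by rw [h]; ring
    exact mul_right_cancel₀ (ne_of_gt hnpos) this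
  have hYr : (Y.card : ℝ) = m * F := by
    have h : (Y.card : ℝ) * n = m * (n.factorial : ℝ) := by exact_mod_cast hYc
    rw [hfac] at h
    have : (Y.card : ℝ) * n = (m * F) * n := by rw [h]; ring
    exact mul_right_cancel₀ (ne_of_gt hnpos) this
  have hD : (0 : ℝ) < 2 * (m : ℝ) ^ 2 + 1 := by positivity
  have hXYr : ((X ∩ Y).card : ℝ) = m ^ 2 / (2 * (m : ℝ) ^ 2 + 1) * F := by
    have h : ((X ∩ Y).card : ℝ) * (n * ((n - 1 : ℕ) : ℝ)) = m * m * (n.factorial : ℝ) := by
      exact_mod_cast hXYc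
    rw [hfac, hn1] at h
    have h2 : ((X ∩ Y).card : ℝ) * (2 * (m : ℝ) ^ 2 + 1) = m ^ 2 * F := by
      have : (((X ∩ Y).card : ℝ) * (2 * (m : ℝ) ^ 2 + 1)) * n = (m ^ 2 * F) * n := by
        linarith
      exact mul_right_cancel₀ (ne_of_gt hnpos) this
    field_simp
    linarith
  have hunionr : ((X ∪ Y).card : ℝ) + ((X ∩ Y).card : ℝ) = (X.card : ℝ) + (Y.card : ℝ) := by
    exact_mod_cast hunion
  set δ : ℝ := m ^ 2 / (2 * (m : ℝ) ^ 2 + 1) with hδ
  have hδpos : 0 < δ := by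
    rw [hδ]
    have : (0 : ℝ) < m := by exact_mod_cast hm1
    positivity
  have hδlt : δ < 1 / 2 := by
    rw [hδ, div_lt_iff₀ hD]
    linarith
  set q : ℝ := ((X ∪ Y).card : ℝ) / F with hq
  have hqval : q = 2 * m - δ := by
    rw [hq, div_eq_iff (ne_of_gt hF)]
    rw [hXr, hYr, hXYr] at hunionr
    linarith
  have hmr : (1 : ℝ) ≤ m := by exact_mod_cast hm1
  have hqpos : 0 < q := by rw [hqval]; linarith
  have hround : round q = 2 * (m : ℤ) := by
    rw [round_eq, Int.floor_eq_iff]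
    rw [hqval]
    push_cast
    constructor <;> linarith
  -- the main sum
  have hsum : (1 / (n.factorial : ℝ)) * ∑ σ : Equiv.Perm (Fin n),
      ((if σ ∈ X ∪ Y then (1:ℝ) else 0) - ∑ i : Fin n,
        (fun i j => (if i = i0 then (if j ∈ J then (1:ℝ) else 0) else 0) +
          (if i = i1 then (if j ∈ K then (1:ℝ) else 0) else 0)) i (σ i)) ^ 2 = δ / n := by
    have h1 : ∀ σ : Equiv.Perm (Fin n),
        ((if σ ∈ X ∪ Y then (1:ℝ) else 0) - ∑ i : Fin n,
        (fun i j => (if i = i0 then (if j ∈ J then (1:ℝ) else 0) else 0) +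
          (if i = i1 then (if j ∈ K then (1:ℝ) else 0) else 0)) i (σ i)) ^ 2
        = if σ ∈ X ∩ Y then (1:ℝ) else 0 := by
      intro σ
      simp only [Finset.sum_add_distrib, Finset.sum_ite_eq', Finset.mem_univ, if_true]
      have hx : (σ i0 ∈ J) = (σ ∈ X) := by simp [hX]
      have hy : (σ i1 ∈ K) = (σ ∈ Y) := by simp [hY]
      simp only [hx, hy, Finset.mem_union, Finset.mem_inter]
      by_cases h1 : σ ∈ X <;> by_cases h2 : σ ∈ Y <;> simp [h1, h2]
    rw [Finset.sum_congr rfl (fun σ _ => h1 σ)]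
    rw [Finset.sum_ite_mem, Finset.univ_inter, Finset.sum_const, nsmul_eq_mul, mul_one, hXYr, hfac]
    field_simp
  obtain ⟨S, -, -, h3⟩ := H n (by omega) (X ∪ Y) (δ / q) (by positivity)
    ⟨fun i j => (if i = i0 then (if j ∈ J then (1:ℝ) else 0) else 0) +
          (if i = i1 then (if j ∈ K then (1:ℝ) else 0) else 0), by
    refine le_trans (le_of_eq hsum) ?_
    rw [← hFdef, ← hq]
    rw [div_mul_cancel₀ _ (ne_of_gt hqpos)]⟩
  rw [← hFdef, ← hq, hround] at h3
  push_cast at h3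
  rw [hqval] at h3
  have h4 : (2 * (m:ℝ) - δ - 2 * m) = -δ := by ring
  rw [h4, abs_neg, abs_of_pos hδpos, ← hqval] at h3
  have h5 : δ * q ≤ C₀ * δ := by
    have : C₀ * (δ / q) * q = C₀ * δ := by field_simp
    calc δ * q ≤ C₀ * (δ / q) * q := by
          apply mul_le_mul_of_nonneg_right h3 hqpos.le
      _ = C₀ * δ := this
  have h6 : q ≤ C₀ := by
    have : q * δ ≤ C₀ * δ := by linarith
    exact le_of_mul_le_mul_right this hδpos
  rw [hqval] at h6
  linarith

end Pool.Agent.S11238
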