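import Pool.Statements.S11254
import Pool.Agent.H167R3.InvMain

set_option autoImplicit false
open Pool Pool.MP_c24a34_co

namespace Pool.Agent.S11254

open Pool.Agent.H167R3.Inv in
/-- The negation of the preceding statement: For finite oriented graphs D_1..D_k each with inversion number 1 or even, the inversion number of their join (disjoint union plus all arcs from D_i to D_j for i<j) equals the sum of their inversion numbers. -/
theorem result :
    ¬ (∀ (k : ℕ) (n : Fin k → ℕ) (D : (i : Fin k) → Digraph (Fin (n i))),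
    (∀ (i : Fin k) (a b : Fin (n i)), (D i).Adj a b → ¬ (D i).Adj b a) →
    (∀ i : Fin k,
      sInf {m : ℕ | ∃ X : Fin m → Set (Fin (n i)), ∃ f : Fin (n i) → ℕ, ∀ u v : Fin (n i),
        ((D i).Adj u v ∧ Even (Nat.card {j : Fin m // u ∈ X j ∧ v ∈ X j})) ∨
        ((D i).Adj v u ∧ Odd (Nat.card {j : Fin m // u ∈ X j ∧ v ∈ X j})) → f u < f v} = 1 ∨
      Even (sInf {m : ℕ | ∃ X : Fin m → Set (Fin (n i)), ∃ f : Fin (n i) → ℕ, ∀ u v : Fin (n i),
        ((D i).Adj u v ∧ Even (Nat.card {j : Fin m // u ∈ X j ∧ v ∈ X j})) ∨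
        ((D i).Adj v u ∧ Odd (Nat.card {j : Fin m // u ∈ X j ∧ v ∈ X j})) → f u < f v})) →
    sInf {m : ℕ | ∃ X : Fin m → Set (Σ i : Fin k, Fin (n i)),
        ∃ f : (Σ i : Fin k, Fin (n i)) → ℕ, ∀ u v : (Σ i : Fin k, Fin (n i)),
        ((u.1 < v.1 ∨ ∃ (i : Fin k) (a b : Fin (n i)),
            u = ⟨i, a⟩ ∧ v = ⟨i, b⟩ ∧ (D i).Adj a b) ∧
          Even (Nat.card {j : Fin m // u ∈ X j ∧ v ∈ X j})) ∨
        ((v.1 < u.1 ∨ ∃ (i : Fin k) (a b : Fin (n i)),
            v = ⟨i, a⟩ ∧ u = ⟨i, b⟩ ∧ (D i).Adj a b) ∧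
          Odd (Nat.card {j : Fin m // u ∈ X j ∧ v ∈ X j})) → f u < f v}
    = ∑ i : Fin k,
      sInf {m : ℕ | ∃ X : Fin m → Set (Fin (n i)), ∃ f : Fin (n i) → ℕ, ∀ u v : Fin (n i),
        ((D i).Adj u v ∧ Even (Nat.card {j : Fin m // u ∈ X j ∧ v ∈ X j})) ∨
        ((D i).Adj v u ∧ Odd (Nat.card {j : Fin m // u ∈ X j ∧ v ∈ X j})) → f u < f v}) := by
  obtain ⟨A, B, x, y, hAo, hBo, hA, hB, hxy, hAx, hBy⟩ :=
    exists_pair 128 65 6303 8128 (by norm_num) (by norm_num)
      (numeric 7 128 6303 8128 (by norm_num) (by norm_num))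
  intro H
  -- the two digraphs
  have hinv : ∀ i : Fin 2, sInf (InvSet ((if i = 0 then (⟨A⟩ : Digraph (Fin 128)) else ⟨B⟩).Adj)) = 66 := by
    intro i
    by_cases h : i = 0
    · rw [if_pos h]
      exact hA
    · rw [if_neg h]
      exact hB
  have h := H 2 (fun _ => 128) (fun i => if i = 0 then ⟨A⟩ else ⟨B⟩) (by
    intro i a b
    by_cases h : i = 0
    · simp only [h, if_true]
      exact hAo a b
    · simp only [h, if_false]
      exact hBo a b) (by
    intro i
    right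
    have h1 := hinv i
    unfold InvSet at h1
    rw [h1]
    decide)
  have hsum : (∑ i : Fin 2, sInf (InvSet ((if i = 0 then (⟨A⟩ : Digraph (Fin 128)) else ⟨B⟩).Adj))) =
      132 := by
    rw [Finset.sum_congr rfl fun i _ => hinv i]
    simp
  have h' := h.trans hsum
  have hle := Nat.sInf_le (join_mem (W := Σ _ : Fin 2, Fin 128) x y hxy (fun w => w.1) (fun w => w.2) A B
    (fun u v => u.1 < v.1 ∨ ∃ (i : Fin 2) (a b : Fin 128),
      u = ⟨i, a⟩ ∧ v = ⟨i, b⟩ ∧ (if i = 0 then (⟨A⟩ : Digraph (Fin 128)) else ⟨B⟩).Adj a b) hAx hBy (by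
      intro u v huv
      rcases huv with h1 | ⟨i, a, b, rfl, rfl, h1⟩
      · exact Or.inl h1
      · right
        by_cases h2 : i = 0
        · left
          rw [if_pos h2] at h1
          exact ⟨h2, h2, h1⟩
        · right
          rw [if_neg h2] at h1
          have h3 : i = 1 := by
            have : ∀ t : Fin 2, t ≠ 0 → t = 1 := by decide
            exact this i h2
          exact ⟨h3, h3, h1⟩))
  unfold InvSet at hle
  rw [h'] at hle
  exact absurd hle (by norm_num)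

end Pool.Agent.S11254
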