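import Pool.Statements.S11258

set_option autoImplicit false
open Pool Pool.MP_c26b0d_co

namespace Pool.Agent.S11258

/-! The counterexample: two copies of a 9-vertex graph with vertices of degree 2, 4, ..., 4, glued
at their vertices of degree 2. It is 4-regular with 17 vertices, vertex 0 is a cut vertex, its
domination number is 5, and deleting any four edges does not raise it. -/

/-- The adjacency matrix, packed into the bits of a number. -/
def code : ℕ := 345799420306570464226264599561098644118538545734645104793185450682169600437984944998472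

def adjB (u v : Fin 17) : Bool := Nat.testBit code (17 * u.val + v.val)

theorem adjB_symm : ∀ u v : Fin 17, adjB u v = true → adjB v u = true := by decide +kernel

theorem adjB_irrefl : ∀ u : Fin 17, ¬ adjB u u = true := by decide +kernel

/-- The graph. -/
def G : SimpleGraph (Fin 17) where
  Adj u v := adjB u v = true
  symm := ⟨fun u v h => adjB_symm u v h⟩
  loopless := ⟨fun u h => adjB_irrefl u h⟩

instance : DecidableRel G.Adj := fun u v => by
  change Decidable (adjB u v = true); infer_instance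

/-- Dominating sets of size five used by the certificate. -/
def Ds : List (List (Fin 17)) :=
  [[0, 1, 5, 9, 13], [0, 4, 7, 9, 13], [0, 2, 8, 9, 13], [3, 5, 6, 9, 13], [0, 3, 8, 9, 13], [0,
  3, 7, 9, 13], [0, 3, 5, 10, 16], [0, 3, 5, 9, 13], [3, 6, 7, 9, 13], [2, 3, 4, 9, 13], [0, 7,
  8, 9, 13], [0, 3, 7, 10, 16], [0, 6, 7, 9, 13], [0, 2, 8, 12, 15], [0, 2, 8, 10, 16], [0, 2,
  8, 11, 13], [0, 2, 8, 11, 15], [3, 6, 8, 9, 13], [1, 3, 4, 9, 13], [1, 4, 6, 9, 13], [1, 3, 5,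
  9, 13], [0, 5, 6, 9, 13], [0, 5, 7, 9, 13], [0, 4, 7, 12, 15], [0, 4, 7, 10, 16], [0, 2, 8,
  11, 16], [0, 4, 7, 11, 15], [2, 4, 6, 9, 13], [1, 2, 6, 9, 13], [0, 3, 8, 10, 16], [0, 6, 8,
  9, 13], [0, 3, 5, 11, 13], [0, 3, 5, 11, 15], [1, 2, 3, 9, 13], [0, 3, 7, 12, 15], [0, 5, 8,
  9, 13], [3, 4, 7, 9, 13], [2, 3, 8, 9, 13], [0, 3, 7, 11, 13], [0, 3, 7, 11, 15], [0, 1, 5,
  12, 15], [0, 1, 5, 10, 16], [1, 5, 11, 13, 14], [0, 1, 5, 11, 13], [0, 1, 5, 11, 16], [0, 1,
  5, 11, 15], [1, 5, 11, 14, 15], [1, 5, 10, 11, 12], [0, 1, 5, 15, 16], [0, 1, 5, 14, 15], [1,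
  5, 11, 14, 16], [1, 5, 9, 11, 12], [1, 5, 9, 12, 14], [1, 5, 9, 11, 13], [0, 1, 5, 13, 14],
  [0, 1, 5, 13, 15], [1, 5, 10, 12, 14], [1, 5, 9, 10, 14], [0, 1, 5, 14, 16], [1, 5, 9, 10,
  11], [0, 1, 5, 13, 16], [1, 5, 11, 12, 15], [1, 5, 10, 11, 16]]

/-- The certificate: indices into `Ds`, in depth-first order. -/
def cert : List ℕ :=
  [0, 1, 2, 3, 4, 5, 6, 7, 6, 7, 5, 3, 4, 5, 6, 7, 6, 7, 8, 9, 10, 11, 5, 11, 5, 12, 7, 13, 6,
  6, 11, 14, 14, 14, 14, 6, 6, 11, 15, 15, 14, 14, 16, 17, 2, 2, 8, 18, 18, 11, 5, 11, 5, 3, 18,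
  18, 6, 7, 6, 7, 13, 6, 6, 11, 6, 14, 14, 14, 7, 7, 5, 7, 2, 2, 14, 6, 6, 11, 6, 15, 15, 14, 7,
  7, 5, 7, 2, 2, 14, 16, 2, 7, 19, 7, 19, 14, 14, 2, 4, 4, 20, 14, 14, 2, 21, 21, 18, 18, 14,
  14, 3, 22, 18, 6, 7, 6, 7, 23, 13, 6, 6, 11, 14, 14, 13, 6, 6, 11, 6, 14, 14, 14, 14, 14, 6,
  24, 14, 14, 15, 15, 16, 24, 14, 14, 15, 15, 16, 15, 14, 14, 14, 15, 24, 14, 14, 16, 16, 16,
  24, 14, 6, 6, 11, 15, 15, 14, 6, 6, 11, 6, 15, 15, 14, 14, 14, 6, 23, 15, 15, 15, 15, 25, 15,
  26, 15, 15, 13, 25, 13, 15, 16, 13, 15, 24, 14, 14, 13, 13, 13, 24, 14, 14, 25, 25, 23, 16,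
  16, 16, 16, 2, 1, 27, 5, 27, 11, 11, 1, 27, 19, 3, 11, 11, 1, 4, 5, 28, 28, 11, 11, 5, 1, 28,
  13, 11, 11, 11, 14, 14, 14, 14, 11, 11, 11, 15, 15, 14, 14, 16, 2, 1, 3, 4, 5, 6, 7, 6, 7, 3,
  4, 5, 6, 7, 6, 7, 4, 17, 9, 10, 29, 4, 29, 4, 30, 7, 23, 6, 6, 29, 6, 6, 6, 24, 6, 6, 29, 31,
  31, 6, 6, 32, 1, 7, 7, 28, 28, 6, 6, 8, 1, 1, 17, 33, 33, 29, 4, 29, 4, 3, 33, 33, 6, 7, 6, 7,
  34, 24, 29, 24, 6, 6, 6, 11, 1, 4, 1, 7, 7, 7, 11, 24, 29, 24, 6, 31, 31, 11, 1, 4, 1, 7, 7,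
  7, 6, 32, 1, 5, 5, 20, 11, 11, 1, 21, 21, 33, 33, 24, 24, 3, 33, 35, 6, 7, 6, 7, 13, 23, 6, 6,
  29, 6, 6, 6, 34, 24, 29, 24, 6, 6, 6, 11, 24, 6, 14, 6, 6, 15, 15, 16, 14, 6, 6, 15, 15, 16,
  15, 14, 14, 14, 15, 14, 6, 6, 16, 16, 16, 14, 24, 6, 6, 29, 31, 31, 6, 11, 24, 29, 24, 6, 31,
  31, 11, 24, 6, 13, 31, 31, 15, 15, 25, 15, 16, 31, 31, 13, 25, 13, 15, 16, 13, 15, 14, 6, 6,
  13, 13, 13, 14, 6, 6, 25, 25, 13, 32, 32, 16, 16, 2, 1, 9, 12, 9, 24, 24, 1, 1, 30, 12, 33,
  33, 24, 24, 1, 1, 9, 18, 3, 24, 24, 33, 13, 24, 24, 24, 14, 14, 14, 14, 24, 24, 24, 15, 15,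
  14, 14, 16, 2, 17, 9, 9, 29, 4, 29, 4, 28, 17, 35, 33, 29, 4, 29, 4, 9, 33, 36, 13, 29, 29,
  14, 14, 14, 14, 29, 29, 15, 15, 14, 14, 16, 1, 8, 9, 9, 11, 5, 11, 5, 8, 22, 18, 11, 5, 11, 5,
  19, 9, 18, 37, 23, 11, 11, 11, 11, 11, 24, 11, 11, 38, 38, 11, 11, 39, 40, 23, 13, 6, 6, 11,
  14, 14, 13, 6, 6, 11, 6, 14, 14, 14, 14, 14, 6, 24, 14, 14, 15, 15, 16, 24, 14, 14, 15, 15,
  16, 15, 14, 14, 14, 15, 13, 11, 11, 11, 14, 14, 13, 23, 6, 6, 29, 6, 6, 6, 34, 24, 29, 24, 6,
  6, 6, 11, 24, 6, 14, 6, 6, 15, 15, 16, 14, 6, 6, 15, 15, 16, 15, 14, 14, 14, 15, 13, 24, 24,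
  24, 14, 14, 13, 29, 29, 14, 14, 23, 11, 11, 11, 11, 41, 24, 14, 14, 15, 15, 16, 14, 14, 6, 6,
  15, 15, 16, 14, 14, 11, 42, 15, 43, 15, 43, 44, 45, 45, 42, 15, 43, 15, 43, 44, 45, 46, 16,
  45, 16, 45, 47, 48, 49, 43, 50, 41, 24, 14, 14, 15, 15, 16, 15, 14, 41, 41, 43, 43, 45, 43,
  14, 6, 6, 15, 15, 16, 15, 14, 41, 41, 43, 43, 45, 43, 14, 11, 41, 46, 16, 45, 16, 45, 51, 51,
  42, 15, 43, 15, 43, 51, 51, 41, 14, 14, 43, 52, 43, 52, 41, 14, 14, 44, 44, 53, 41, 14, 14,
  54, 54, 51, 51, 42, 15, 43, 15, 43, 55, 51, 41, 24, 14, 14, 16, 16, 16, 14, 14, 6, 6, 16, 16,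
  16, 14, 14, 11, 40, 16, 16, 56, 45, 56, 40, 16, 16, 56, 52, 42, 40, 16, 16, 44, 45, 57, 57,
  45, 40, 57, 41, 24, 14, 6, 6, 11, 15, 15, 14, 6, 6, 11, 6, 15, 15, 14, 14, 14, 6, 23, 15, 15,
  15, 15, 25, 15, 26, 15, 15, 13, 25, 13, 15, 16, 13, 15, 14, 11, 11, 11, 15, 15, 14, 24, 6, 6,
  29, 31, 31, 6, 11, 24, 29, 24, 6, 31, 31, 11, 24, 6, 13, 31, 31, 15, 15, 25, 15, 16, 31, 31,
  13, 25, 13, 15, 16, 13, 15, 14, 24, 24, 24, 15, 15, 14, 29, 29, 15, 15, 24, 11, 11, 38, 38,
  40, 23, 15, 15, 15, 15, 25, 15, 13, 31, 31, 15, 15, 25, 15, 15, 38, 42, 15, 43, 15, 43, 44,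
  45, 42, 15, 43, 15, 43, 44, 45, 44, 50, 25, 44, 25, 44, 47, 48, 58, 43, 40, 15, 15, 43, 43,
  57, 57, 46, 40, 26, 15, 15, 13, 25, 13, 15, 16, 43, 43, 40, 44, 40, 43, 16, 31, 31, 13, 25,
  13, 15, 16, 43, 43, 40, 44, 40, 43, 15, 38, 40, 50, 25, 44, 25, 44, 59, 59, 42, 15, 43, 15,
  43, 59, 59, 40, 16, 16, 45, 45, 53, 40, 13, 13, 54, 54, 59, 59, 42, 15, 43, 15, 43, 59, 60,
  41, 24, 14, 14, 13, 13, 13, 14, 14, 6, 6, 13, 13, 13, 14, 14, 11, 40, 13, 13, 47, 49, 47, 40,
  40, 13, 13, 58, 49, 59, 59, 40, 40, 13, 13, 47, 51, 42, 59, 41, 24, 14, 14, 25, 25, 14, 14, 6,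
  6, 25, 25, 14, 14, 11, 50, 25, 44, 25, 44, 47, 47, 57, 50, 25, 44, 25, 44, 60, 59, 47, 59, 61,
  40, 23, 16, 16, 16, 16, 16, 13, 32, 32, 16, 16, 16, 16, 39, 46, 16, 45, 16, 45, 47, 47, 46,
  16, 45, 16, 45, 55, 51, 52, 47, 51, 62]

/-- The code of the edge `wx`. -/
def ec (w x : Fin 17) : ℕ := if w.val < x.val then 17 * w.val + x.val else 17 * x.val + w.val

/-- The codes of the edges between `w` and `D`. -/
def mask (D : List (Fin 17)) (w : Fin 17) : List ℕ := (D.filter (adjB w)).map (ec w)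

/-- Insert all codes of `m` into `F`. -/
def addAll (F m : List ℕ) : List ℕ := m.foldl (fun F c => if F.contains c then F else c :: F) F

def chk : ℕ → List ℕ → List ℕ → Option (List ℕ)
  | 0, _, _ => none
  | _ + 1, _, [] => none
  | k + 1, F, d :: ct =>
    (List.finRange 17).foldl (fun acc w =>
      match acc with
      | none => none
      | some c =>
        if (Ds.getD d []).contains w then some c else
        if 4 < (addAll F (mask (Ds.getD d []) w)).length then some c else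
          chk k (addAll F (mask (Ds.getD d []) w)) c) (some ct)

theorem chk_cert : (chk 6 [] cert).isSome = true := by decide +kernel

/-- Lower bound on the domination number by depth-first search. -/
def dchk : ℕ → List (Fin 17) → Bool
  | 0, _ => true
  | k + 1, C =>
    match (List.finRange 17).find? (fun v => !(C.contains v) && C.all (fun x => !(adjB v x))) with
    | none => false
    | some v => (List.finRange 17).all (fun x => (!(x == v) && !(adjB v x)) || dchk k (x :: C))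

theorem dchk_five : dchk 5 [] = true := by decide +kernel

/-! ### Soundness of the domination lower bound -/

theorem dchk_sound (D0 : Finset (Fin 17)) (hD0 : ∀ v : Fin 17, v ∈ D0 ∨ ∃ u ∈ D0, G.Adj u v) :
    ∀ (k : ℕ) (C : List (Fin 17)), C.Nodup → (∀ c ∈ C, c ∈ D0) → dchk k C = true →
      C.length + k ≤ D0.card := by
  intro k
  induction k with
  | zero =>
    intro C hC hsub _
    have h1 : C.toFinset ⊆ D0 := fun x hx => hsub x (List.mem_toFinset.mp hx)
    have h2 := Finset.card_le_card h1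
    rw [List.toFinset_card_of_nodup hC] at h2
    simpa using h2
  | succ k ih =>
    intro C hC hsub h
    rw [dchk] at h
    cases hf : (List.finRange 17).find?
        (fun v => !(C.contains v) && C.all (fun x => !(adjB v x))) with
    | none => rw [hf] at h; exact absurd h (by simp)
    | some v =>
      rw [hf] at h
      have hv := List.find?_some hf
      simp only [Bool.and_eq_true, Bool.not_eq_true', List.all_eq_true] at hv
      obtain ⟨hv1, hv2⟩ := hv
      have hvC : v ∉ C := by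
        intro hc
        rw [List.contains_iff_mem.mpr hc] at hv1
        exact Bool.noConfusion hv1
      simp only [List.all_eq_true] at h
      obtain ⟨x, hxD, hx⟩ : ∃ x ∈ D0, x = v ∨ adjB v x = true := by
        rcases hD0 v with hv | ⟨u, hu, hadj⟩
        · exact ⟨v, hv, Or.inl rfl⟩
        · exact ⟨u, hu, Or.inr (adjB_symm _ _ hadj)⟩
      have hxC : x ∉ C := by
        intro hc
        rcases hx with rfl | hx
        · exact hvC hc
        · rw [hv2 x hc] at hx
          exact Bool.noConfusion hx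
      have hxk := h x (List.mem_finRange x)
      have hxk' : dchk k (x :: C) = true := by
        rcases hx with rfl | hx
        · simpa using hxk
        · simpa [hx] using hxk
      have := ih (x :: C) (List.nodup_cons.mpr ⟨hxC, hC⟩)
        (fun c hc => by
          rcases List.mem_cons.mp hc with rfl | hc
          · exact hxD
          · exact hsub c hc) hxk'
      rw [List.length_cons] at this
      omega

/-! ### Soundness of the edge-deletion certificate -/

/-- A valid edge code. -/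
def Valid (c : ℕ) : Prop := ∃ w x : Fin 17, w < x ∧ c = 17 * w.val + x.val

/-- The edge with a given code. -/
def dec (c : ℕ) : Sym2 (Fin 17) :=
  s(⟨c / 17 % 17, Nat.mod_lt _ (by norm_num)⟩, ⟨c % 17, Nat.mod_lt _ (by norm_num)⟩)

theorem dec_code (w x : Fin 17) : dec (17 * w.val + x.val) = s(w, x) := by
  unfold dec
  have hw := w.isLt
  have hx := x.isLt
  have h1 : (17 * w.val + x.val) / 17 % 17 = w.val := by omega
  have h2 : (17 * w.val + x.val) % 17 = x.val := by omega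
  have e1 : (⟨(17 * w.val + x.val) / 17 % 17, Nat.mod_lt _ (by norm_num)⟩ : Fin 17) = w :=
    Fin.ext h1
  have e2 : (⟨(17 * w.val + x.val) % 17, Nat.mod_lt _ (by norm_num)⟩ : Fin 17) = x :=
    Fin.ext h2
  rw [e1, e2]

theorem dec_inj {c c' : ℕ} (hc : Valid c) (hc' : Valid c') (h : dec c = dec c') : c = c' := by
  obtain ⟨w, x, hwx, rfl⟩ := hc
  obtain ⟨w', x', hwx', rfl⟩ := hc'
  rw [dec_code, dec_code, Sym2.eq_iff] at h
  rcases h with ⟨rfl, rfl⟩ | ⟨rfl, rfl⟩
  · rfl
  · exact absurd hwx (not_lt.mpr hwx'.le)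

theorem dec_ec (w x : Fin 17) : dec (ec w x) = s(w, x) := by
  unfold ec
  split_ifs
  · exact dec_code w x
  · rw [dec_code, Sym2.eq_swap]

theorem valid_ec {w x : Fin 17} (h : w ≠ x) : Valid (ec w x) := by
  unfold ec
  split_ifs with h1
  · exact ⟨w, x, h1, rfl⟩
  · refine ⟨x, w, ?_, rfl⟩
    have h2 : x.val ≤ w.val := not_lt.mp h1
    exact lt_of_le_of_ne h2 (fun h3 => h h3.symm)

theorem addAll_spec (P : ℕ → Prop) : ∀ (m F : List ℕ), F.Nodup → (∀ c ∈ F, P c) →
    (∀ c ∈ m, P c) → (addAll F m).Nodup ∧ ∀ c ∈ addAll F m, P c := by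
  intro m
  induction m with
  | nil => intro F h1 h2 _; exact ⟨h1, h2⟩
  | cons a m ih =>
    intro F h1 h2 h3
    unfold addAll
    rw [List.foldl_cons]
    by_cases ha : F.contains a
    · rw [if_pos ha]
      exact ih F h1 h2 (fun c hc => h3 c (List.mem_cons_of_mem _ hc))
    · rw [if_neg ha]
      refine ih (a :: F) (List.nodup_cons.mpr ⟨?_, h1⟩) ?_
        (fun c hc => h3 c (List.mem_cons_of_mem _ hc))
      · intro h
        exact ha (List.contains_iff_mem.mpr h)
      · intro c hc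
        rcases List.mem_cons.mp hc with rfl | hc
        · exact h3 _ List.mem_cons_self
        · exact h2 c hc

theorem length_le {Fs : Finset (Sym2 (Fin 17))} {F : List ℕ} (h1 : F.Nodup)
    (h2 : ∀ c ∈ F, Valid c ∧ dec c ∈ Fs) : F.length ≤ Fs.card := by
  have h3 : (F.map dec).Nodup := by
    rw [List.nodup_map_iff_inj_on h1]
    intro x hx y hy hxy
    exact dec_inj (h2 x hx).1 (h2 y hy).1 hxy
  have h4 : (F.map dec).toFinset ⊆ Fs := by
    intro e he
    rw [List.mem_toFinset, List.mem_map] at he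
    obtain ⟨c, hc, rfl⟩ := he
    exact (h2 c hc).2
  have h5 := Finset.card_le_card h4
  rw [List.toFinset_card_of_nodup h3, List.length_map] at h5
  exact h5

theorem foldl_none {α β : Type} (f : Option β → α → Option β) (hf : ∀ a, f none a = none) :
    ∀ L : List α, L.foldl f none = none := by
  intro L
  induction L with
  | nil => rfl
  | cons a L ih => rw [List.foldl_cons, hf, ih]

theorem foldl_some {α β : Type} (f : Option β → α → Option β) (hf : ∀ a, f none a = none) :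
    ∀ (L : List α) (c0 r : β), L.foldl f (some c0) = some r → ∀ w ∈ L,
      ∃ c r', f (some c) w = some r' := by
  intro L
  induction L with
  | nil => intro c0 r _ w hw; exact absurd hw (by simp)
  | cons a L ih =>
    intro c0 r h w hw
    rw [List.foldl_cons] at h
    cases hfa : f (some c0) a with
    | none =>
      rw [hfa, foldl_none f hf] at h
      exact absurd h (by simp)
    | some c1 =>
      rcases List.mem_cons.mp hw with rfl | hw
      · exact ⟨c0, c1, hfa⟩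
      · rw [hfa] at h
        exact ih c1 r h w hw

theorem Ds_len : ∀ D ∈ Ds, D.length ≤ 5 := by decide +kernel

theorem getD_len (d : ℕ) : (Ds.getD d []).length ≤ 5 := by
  rw [List.getD_eq_getElem?_getD]
  cases h : Ds[d]? with
  | none => simp
  | some D =>
    simp only [Option.getD_some]
    exact Ds_len D (List.mem_of_getElem? h)

theorem chk_sound (Fs : Finset (Sym2 (Fin 17))) (hF : Fs.card ≤ 4) :
    ∀ (k : ℕ) (F : List ℕ) (ct r : List ℕ), F.Nodup → (∀ c ∈ F, Valid c ∧ dec c ∈ Fs) →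
      chk k F ct = some r →
      ∃ D : List (Fin 17), D.length ≤ 5 ∧
        ∀ w : Fin 17, w ∉ D → ∃ x ∈ D, adjB w x = true ∧ s(w, x) ∉ Fs := by
  intro k
  induction k with
  | zero => intro F ct r _ _ h; rw [chk] at h; exact absurd h (by simp)
  | succ k ih =>
    intro F ct r h1 h2 h
    cases ct with
    | nil => rw [chk] at h; exact absurd h (by simp)
    | cons d ct =>
      by_contra hno
      have hD : ∃ w : Fin 17, w ∉ Ds.getD d [] ∧
          ∀ x ∈ Ds.getD d [], adjB w x = true → s(w, x) ∈ Fs := by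
        by_contra hcon
        apply hno
        refine ⟨Ds.getD d [], getD_len d, ?_⟩
        intro w hw
        by_contra hx
        apply hcon
        refine ⟨w, hw, ?_⟩
        intro x hxD hadj
        by_contra hnot
        exact hx ⟨x, hxD, hadj, hnot⟩
      obtain ⟨w, hw, hall⟩ := hD
      rw [chk] at h
      obtain ⟨c, r', hc⟩ := foldl_some _ (fun a => rfl) _ _ _ h w (List.mem_finRange w)
      simp only at hc
      have hnc : ¬ (Ds.getD d []).contains w = true := fun h => hw (List.contains_iff_mem.mp h)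
      rw [if_neg hnc] at hc
      have hspec := addAll_spec (fun c => Valid c ∧ dec c ∈ Fs) (mask (Ds.getD d []) w) F h1 h2
        (by
          intro c hc
          unfold mask at hc
          rw [List.mem_map] at hc
          obtain ⟨x, hx, rfl⟩ := hc
          rw [List.mem_filter] at hx
          refine ⟨valid_ec ?_, ?_⟩
          · rintro rfl
            exact hw hx.1
          · rw [dec_ec]
            exact hall x hx.1 hx.2)
      have hlen := length_le hspec.1 hspec.2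
      rw [if_neg (by omega)] at hc
      exact hno (ih _ _ _ hspec.1 hspec.2 hc)

/-! ### Connectivity -/

def rank (v : Fin 17) : ℕ :=
  ([0, 2, 2, 1, 2, 3, 1, 3, 3, 2, 2, 1, 2, 3, 1, 3, 3] : List ℕ).getD v.val 0

theorem rank_spec : ∀ v : Fin 17, v = 0 ∨ ∃ u : Fin 17, adjB v u = true ∧ rank u < rank v := by
  decide +kernel

theorem G_connected : G.Connected := by
  have : Nonempty (Fin 17) := ⟨0⟩
  have h0 : ∀ (n : ℕ) (v : Fin 17), rank v ≤ n → G.Reachable v 0 := by
    intro n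
    induction n with
    | zero =>
      intro v hv
      rcases rank_spec v with rfl | ⟨u, -, hu⟩
      · exact SimpleGraph.Reachable.refl _
      · omega
    | succ n ih =>
      intro v hv
      rcases rank_spec v with rfl | ⟨u, hadj, hu⟩
      · exact SimpleGraph.Reachable.refl _
      · exact (SimpleGraph.Adj.reachable (show G.Adj v u from hadj)).trans (ih u (by omega))
  refine SimpleGraph.Connected.mk ?_
  intro a b
  exact (h0 _ a le_rfl).trans (h0 _ b le_rfl).symm

theorem sep : ∀ u v : Fin 17, u ≠ 0 → v ≠ 0 → adjB u v = true → (u.val ≤ 8 ↔ v.val ≤ 8) := by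
  decide +kernel

theorem not_connected : ¬ (G.induce ((↑({0} : Finset (Fin 17)) : Set (Fin 17))ᶜ)).Connected := by
  intro hc
  have h1 : (1 : Fin 17) ∈ ((↑({0} : Finset (Fin 17)) : Set (Fin 17))ᶜ) := by simp
  have h9 : (9 : Fin 17) ∈ ((↑({0} : Finset (Fin 17)) : Set (Fin 17))ᶜ) := by
    simp only [Finset.coe_singleton, Set.mem_compl_iff, Set.mem_singleton_iff]
    decide
  obtain ⟨w⟩ := hc.preconnected ⟨1, h1⟩ ⟨9, h9⟩
  have key : ∀ {a b : ((↑({0} : Finset (Fin 17)) : Set (Fin 17))ᶜ : Set (Fin 17))}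
      (_ : (G.induce ((↑({0} : Finset (Fin 17)) : Set (Fin 17))ᶜ)).Walk a b),
      (a.val.val ≤ 8 ↔ b.val.val ≤ 8) := by
    intro a b w
    induction w with
    | nil => exact Iff.rfl
    | @cons u v w h p ih =>
      have hu : u.val ≠ 0 := by
        have := u.2
        simpa using this
      have hv : v.val ≠ 0 := by
        have := v.2
        simpa using this
      exact (sep u.val v.val hu hv h).trans ih
  have h := (key w).mp (show (1 : Fin 17).val ≤ 8 by decide)
  exact absurd h (show ¬ (9 : Fin 17).val ≤ 8 by decide)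

theorem degree_le : ∀ v : Fin 17, G.degree v ≤ 4 := by decide +kernel

/-- The negation of the preceding statement: For every finite connected graph G on at least 2 vertices, some set of at most Δ(G)+κ(G)−1 edges can be deleted so that the domination number strictly increases; that is, b(G) ≤ Δ(G)+κ(G)−1. -/
theorem result :
    ¬ (∀ (V : Type) [Fintype V] [DecidableEq V] (G : SimpleGraph V) [DecidableRel G.Adj],
      G.Connected → 2 ≤ Fintype.card V →
      ∀ S : Finset V,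
        (¬ (G.induce ((↑S : Set V)ᶜ)).Connected ∨ Sᶜ.card ≤ 1) →
        ∃ F : Finset (Sym2 V),
          (↑F : Set (Sym2 V)) ⊆ G.edgeSet ∧
          F.card + 1 ≤ G.maxDegree + S.card ∧
          ∃ D0 : Finset V,
            (∀ v : V, v ∈ D0 ∨ ∃ u ∈ D0, G.Adj u v) ∧
            ∀ D : Finset V,
              (∀ v : V, v ∈ D ∨ ∃ u ∈ D, (G.deleteEdges (↑F : Set (Sym2 V))).Adj u v) →
              D0.card < D.card) := by
  intro hall
  obtain ⟨F, -, hF, D0, hD0, hD⟩ := hall (Fin 17) G G_connected (by simp) {0}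
    (Or.inl not_connected)
  have hmax : G.maxDegree ≤ 4 := SimpleGraph.maxDegree_le_of_forall_degree_le G 4 degree_le
  rw [Finset.card_singleton] at hF
  have hF4 : F.card ≤ 4 := by omega
  have h5 := dchk_sound D0 hD0 5 [] List.nodup_nil (by simp) dchk_five
  obtain ⟨r, hr⟩ := Option.isSome_iff_exists.mp chk_cert
  obtain ⟨D, hlen, hdom⟩ := chk_sound F hF4 6 [] cert r List.nodup_nil (by simp) hr
  have := hD D.toFinset (by
    intro v
    by_cases hv : v ∈ D
    · exact Or.inl (List.mem_toFinset.mpr hv)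
    · right
      obtain ⟨x, hx, hadj, hnot⟩ := hdom v hv
      refine ⟨x, List.mem_toFinset.mpr hx, ?_⟩
      rw [SimpleGraph.deleteEdges_adj]
      refine ⟨adjB_symm _ _ hadj, ?_⟩
      rw [Sym2.eq_swap]
      exact_mod_cast hnot)
  have h6 := List.toFinset_card_le D
  rw [List.length_nil] at h5
  omega

end Pool.Agent.S11258
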