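import Pool.Statements.S11286
-- import your own Pool.Agent.* helpers here

set_option autoImplicit false
open Pool Pool.MP_c40d78_co

namespace Pool.Agent.S11286

/-- Integer coordinates of the six points: rows `0,1,2` are `a_i = (49 e_i, 7 e_i)`, rows `3,4,5` are
`b_i = (e_i, -7 e_i)` where `e_0 = (2,-1,-1)` and its cyclic shifts. -/
def P : Fin 6 → Fin 6 → ℤ :=
  ![![98, -49, -49, 14, -7, -7], ![-49, 98, -49, -7, 14, -7], ![-49, -49, 98, -7, -7, 14],
    ![2, -1, -1, -14, 7, 7], ![-1, 2, -1, 7, -14, 7], ![-1, -1, 2, 7, 7, -14]]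

noncomputable def pt (i : Fin 6) : EuclideanSpace ℝ (Fin 6) := WithLp.toLp 2 (fun k => (P i k : ℝ))

theorem dist_pt (i j : Fin 6) :
    dist (pt i) (pt j) = Real.sqrt ((∑ k, (P i k - P j k) ^ 2 : ℤ) : ℝ) := by
  rw [EuclideanSpace.dist_eq]
  congr 1
  push_cast
  apply Finset.sum_congr rfl
  intro k _
  rw [Real.dist_eq, sq_abs]
  rfl

/-- class of a point: `0` for the `a`s, `1` for the `b`s -/
def cls (i : Fin 6) : ℕ := if i.val < 3 then 0 else 1

theorem intdist : ∀ i j : Fin 6, i ≠ j →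
    (∑ k, (P i k - P j k) ^ 2 : ℤ) = (if cls i + cls j = 0 then 44100 else if cls i + cls j = 1 then 15000 else 900) := by
  decide

def sw : Equiv.Perm (Fin 6) := Function.Involutive.toPerm (fun i => i + 3) (by intro i; revert i; decide)

noncomputable def w (i : Fin 6) : ℝ := if cls i = 0 then 105 else Real.sqrt 15000 - 105

theorem sq1 : Real.sqrt 44100 = 210 := by
  rw [show (44100 : ℝ) = 210 ^ 2 by norm_num]
  exact Real.sqrt_sq (by norm_num)

theorem sq2 : Real.sqrt 900 = 30 := by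
  rw [show (900 : ℝ) = 30 ^ 2 by norm_num]
  exact Real.sqrt_sq (by norm_num)

theorem sq3 : (120 : ℝ) ≤ Real.sqrt 15000 := by
  apply Real.le_sqrt_of_sq_le
  norm_num

theorem dist_le (i j : Fin 6) (h : i ≠ j) : dist (pt i) (pt j) ≤ w i + w j := by
  rw [dist_pt, intdist i j h]
  unfold w
  have h1 := sq1
  have h2 := sq2
  have h3 := sq3
  have hi : cls i = 0 ∨ cls i = 1 := by unfold cls; split_ifs <;> simp
  have hj : cls j = 0 ∨ cls j = 1 := by unfold cls; split_ifs <;> simp
  rcases hi with hi | hi <;> rcases hj with hj | hj <;> simp [hi, hj] <;> linarith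

theorem dist_sw (i : Fin 6) : dist (pt i) (pt (sw i)) = w i + w (sw i) := by
  have hne : i ≠ sw i := by revert i; decide
  rw [dist_pt, intdist i _ hne]
  have hc : (cls i = 0 ∧ cls (sw i) = 1) ∨ (cls i = 1 ∧ cls (sw i) = 0) := by revert i; decide
  unfold w
  rcases hc with ⟨h1, h2⟩ | ⟨h1, h2⟩ <;> simp [h1, h2]

theorem ball_inner {d : ℕ} (x a b : EuclideanSpace ℝ (Fin d))
    (h : dist x (midpoint ℝ a b) < dist a b / 2) : inner ℝ (x - a) (x - b) < 0 := by
  have hm : x - midpoint ℝ a b = (1/2 : ℝ) • ((x - a) + (x - b)) := by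
    rw [midpoint_eq_smul_add, invOf_eq_inv]
    module
  have hd : a - b = (x - b) - (x - a) := by abel
  rw [dist_eq_norm, dist_eq_norm, hm, hd] at h
  rw [norm_smul] at h
  generalize x - a = u at *
  generalize x - b = v at *
  have h2 : ‖u + v‖ < ‖v - u‖ := by
    have : ‖(1/2 : ℝ)‖ = 1/2 := by norm_num
    rw [this] at h
    linarith
  have h3 : ‖u + v‖ ^ 2 < ‖v - u‖ ^ 2 := by
    have := norm_nonneg (u + v)
    nlinarith
  rw [norm_add_sq_real, norm_sub_sq_real] at h3
  have h4 : inner ℝ v u = inner ℝ u v := real_inner_comm u v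
  linarith

/-- The negation of the preceding statement: For any dimension d and any 2n distinct points in R^d, every perfect matching maximizing the total Euclidean length of its edges has a point lying in all open balls whose diameters are the matched edges. -/
theorem result :
    ¬ (∀ (d n : ℕ) (p : Fin (2 * n) → EuclideanSpace ℝ (Fin d)), Function.Injective p →
      ∀ σ : Equiv.Perm (Fin (2 * n)), (∀ i, σ (σ i) = i) → (∀ i, σ i ≠ i) →
        (∀ τ : Equiv.Perm (Fin (2 * n)), (∀ i, τ (τ i) = i) → (∀ i, τ i ≠ i) →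
          ∑ i, dist (p i) (p (τ i)) ≤ ∑ i, dist (p i) (p (σ i))) →
        ∃ x : EuclideanSpace ℝ (Fin d), ∀ i,
          dist x (midpoint ℝ (p i) (p (σ i))) < dist (p i) (p (σ i)) / 2) := by
  intro H
  have hinj : Function.Injective pt := by
    intro i j hij
    by_contra hne
    have h0 : dist (pt i) (pt j) = 0 := by rw [hij, dist_self]
    rw [dist_pt, intdist i j hne] at h0
    have h1 := sq1
    have h2 := sq2
    have h3 := sq3
    split_ifs at h0
    · norm_num at h0
    · push_cast at h0; linarith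
    · norm_num at h0
  obtain ⟨x, hx⟩ := H 6 3 pt hinj sw (by decide) (by decide) (by
    intro τ _ hτ
    have e1 : ∑ i, dist (pt i) (pt (τ i)) ≤ ∑ i, (w i + w (τ i)) :=
      Finset.sum_le_sum fun i _ => dist_le i (τ i) (fun h => hτ i h.symm)
    have e2 : ∑ i, dist (pt i) (pt (sw i)) = ∑ i, (w i + w (sw i)) :=
      Finset.sum_congr rfl fun i _ => dist_sw i
    have e3 : ∑ i, w (τ i) = ∑ i, w i := Equiv.sum_comp τ w
    have e4 : ∑ i, w (sw i) = ∑ i, w i := Equiv.sum_comp sw w
    have e5 : ∑ i, (w i + w (τ i)) = ∑ i, w i + ∑ i, w (τ i) := Finset.sum_add_distrib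
    have e6 : ∑ i, (w i + w (sw i)) = ∑ i, w i + ∑ i, w (sw i) := Finset.sum_add_distrib
    show ∑ i : Fin 6, dist (pt i) (pt (τ i)) ≤ ∑ i : Fin 6, dist (pt i) (pt (sw i))
    rw [e2, e6, e4]
    rw [e5, e3] at e1
    exact e1)
  have h0 := ball_inner _ _ _ (hx 0)
  have h1 := ball_inner _ _ _ (hx 1)
  have h2 := ball_inner _ _ _ (hx 2)
  have s0 : sw 0 = 3 := by decide
  have s1 : sw 1 = 4 := by decide
  have s2 : sw 2 = 5 := by decide
  change inner ℝ (x - pt 0) (x - pt (sw 0)) < 0 at h0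
  change inner ℝ (x - pt 1) (x - pt (sw 1)) < 0 at h1
  change inner ℝ (x - pt 2) (x - pt (sw 2)) < 0 at h2
  rw [s0] at h0
  rw [s1] at h1
  rw [s2] at h2
  simp only [PiLp.inner_apply, Fin.sum_univ_six, pt, P] at h0 h1 h2
  simp at h0 h1 h2
  nlinarith [sq_nonneg (x 0), sq_nonneg (x 1), sq_nonneg (x 2), sq_nonneg (x 3), sq_nonneg (x 4), sq_nonneg (x 5)]

end Pool.Agent.S11286
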