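import Pool.Statements.S11381
-- import your own Pool.Agent.* helpers here
import Pool.Agent.H160R3.Geo3

set_option autoImplicit false
open scoped Pointwise
open Pool Pool.MP_c81765_co

namespace Pool.Agent.S11381

open Matrix Finset Pool.Agent.H160R3.Alg Pool.Agent.H160R3.Geo in
theorem coc {n : ℕ} {G : Type} [Group G] (ρ : G →* Matrix.GeneralLinearGroup (Fin n) ℤ)
    (t : G → (Fin n → ℤ)) (ht : ∀ g h : G, t (g * h) = (ρ g).val.mulVec (t h) + t g) (g : G)
    (i : ℕ) : (Nm (ρ g).val i).mulVec (t g) = t (g ^ i) := by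
  induction i with
  | zero =>
    have h1 := ht 1 1
    rw [mul_one, map_one, Units.val_one, Matrix.one_mulVec] at h1
    have h2 : t 1 = 0 := by
      have : t 1 + 0 = t 1 + t 1 := by rw [add_zero]; exact h1
      exact (add_left_cancel this).symm
    simp [Nm, h2]
  | succ i ih =>
    rw [pow_succ' g, ht, ← ih, Nm, Finset.sum_range_succ', pow_zero, Matrix.add_mulVec,
      Matrix.one_mulVec, Matrix.mulVec_mulVec, Nm, Finset.mul_sum]
    congr 2
    apply Finset.sum_congr rfl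
    intro j _
    rw [pow_succ']

/-- For a finite group acting by affine lattice maps on Z^n and a full-dimensional invariant lattice polytope P, each g gives (dim P^g)! times the lattice-normalized volume of P^g, times det(I−ρ(g)) off the fixed space, divided by ind(P^g): a natural number. -/
theorem result :
    ∀ (n : ℕ) (G : Type) [Group G] [Fintype G]
      (ρ : G →* Matrix.GeneralLinearGroup (Fin n) ℤ) (t : G → (Fin n → ℤ)),
      (∀ g h : G, t (g * h) = (ρ g).val.mulVec (t h) + t g) →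
      ∀ (S : Finset (Fin n → ℤ)) (P : Set (Fin n → ℝ)),
      P = convexHull ℝ ((fun (z : Fin n → ℤ) (i : Fin n) => (z i : ℝ)) '' (S : Set (Fin n → ℤ))) →
      affineSpan ℝ P = ⊤ →
      (∀ g : G, (fun x : Fin n → ℝ =>
          ((ρ g).val.map (Int.cast : ℤ → ℝ)).mulVec x + (fun i => (t g i : ℝ))) '' P = P) →
      ∀ g : G,
      ∀ Pg : Set (Fin n → ℝ),
      Pg = {x : Fin n → ℝ | x ∈ P ∧
        ((ρ g).val.map (Int.cast : ℤ → ℝ)).mulVec x + (fun i => (t g i : ℝ)) = x} →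
      ∀ ind : ℕ,
      ind = sInf {k : ℕ | 0 < k ∧ ∃ z : Fin n → ℤ,
        (fun i => (z i : ℝ)) ∈ affineSpan ℝ ((k : ℝ) • Pg)} →
      ∀ d : ℕ, d = Module.finrank ℝ (affineSpan ℝ Pg).direction →
      ∀ D : ℤ,
      D = Polynomial.eval 1 (Polynomial.divByMonic (ρ g).val.charpoly
            ((Polynomial.X - Polynomial.C (1 : ℤ)) ^ ((ρ g).val.charpoly.rootMultiplicity 1))) →
      ∃ N : ℕ, Filter.Tendsto
        (fun m : ℕ => (d.factorial : ℝ) *
          ((Set.ncard {z : Fin n → ℤ |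
              (fun i => (z i : ℝ)) ∈ (((m * ind : ℕ) : ℝ)) • Pg} : ℝ) /
            (((m * ind : ℕ) : ℝ)) ^ d) * (D : ℝ) / (ind : ℝ))
        Filter.atTop (nhds (N : ℝ)) := by
  intro n G _ _ ρ t ht S P hP hspan hinv g Pg hPg ind hind d hd D hD
  have hA : (ρ g).val ^ Fintype.card G = 1 := by
    rw [← Units.val_pow_eq_pow_val, ← map_pow, pow_card_eq_one, map_one, Units.val_one]
  have hτ : (Pool.Agent.H160R3.Alg.Nm (ρ g).val (Fintype.card G)).mulVec (t g) = 0 := by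
    rw [coc ρ t ht g, pow_card_eq_one]
    have h := coc ρ t ht g 0
    rw [pow_zero] at h
    rw [← h]
    simp [Pool.Agent.H160R3.Alg.Nm]
  let F : Pool.Agent.H160R3.Geo.Aff n :=
    { A := (ρ g).val, τ := t g, N := Fintype.card G, hN := Fintype.card_pos, hA := hA, hτ := hτ }
  obtain ⟨r, ⟨DD⟩⟩ := Pool.Agent.H160R3.Alg.exists_dat (A := F.A) (N := F.N) F.hA
  have hinv' : ∀ x ∈ P, F.T x ∈ P := by
    intro x hx
    rw [← hinv g]
    exact ⟨x, hx, rfl⟩
  have hPg' : Pg = Pool.Agent.H160R3.Geo.PT F P := hPg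
  have hconv : Convex ℝ P := by rw [hP]; exact convex_convexHull ℝ _
  have hdr : d = r := by
    rw [hd, hPg']
    exact Pool.Agent.H160R3.Geo.finrank_span F DD hconv hinv' hspan
  have hDD := DD.D_eq F.hN F.hA
  have hlevk : ∀ k : ℕ, 0 < k → ((∃ z : Fin n → ℤ,
      (fun i => (z i : ℝ)) ∈ affineSpan ℝ ((k : ℝ) • Pg)) ↔ Pool.Agent.H160R3.Geo.Lev F k) := by
    intro k hk
    have h1 := Pool.Agent.H160R3.Geo.span_fixed F hconv hinv' hspan hk
    have h2 : ∀ x : Fin n → ℝ, x ∈ affineSpan ℝ ((k : ℝ) • Pg) ↔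
        x ∈ Pool.Agent.H160R3.Geo.Fixk F k := by
      intro x
      rw [← h1, hPg']
      rfl
    constructor
    · rintro ⟨z, hz⟩
      exact ⟨z, (Pool.Agent.H160R3.Geo.lev_iff F k z).1 ((h2 _).1 hz)⟩
    · rintro ⟨z, hz⟩
      exact ⟨z, (h2 _).2 ((Pool.Agent.H160R3.Geo.lev_iff F k z).2 hz)⟩
  have hne : {k : ℕ | 0 < k ∧ ∃ z : Fin n → ℤ,
        (fun i => (z i : ℝ)) ∈ affineSpan ℝ ((k : ℝ) • Pg)}.Nonempty :=
    ⟨F.N, F.hN, (hlevk F.N F.hN).2 (Pool.Agent.H160R3.Geo.lev_N F)⟩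
  have hmem := Nat.sInf_mem hne
  rw [← hind] at hmem
  have hmin : ∀ j, 0 < j → Pool.Agent.H160R3.Geo.Lev F j → ind ≤ j := by
    intro j hj hlj
    rw [hind]
    exact Nat.sInf_le ⟨hj, (hlevk j hj).2 hlj⟩
  obtain ⟨N, hN⟩ := Pool.Agent.H160R3.Geo.main_limit F DD (S := S) hP hinv' hmem.1
    ((hlevk ind hmem.1).1 hmem.2) hmin
  refine ⟨N, ?_⟩
  have hDr : (D : ℝ) = ((DD.JJ.relIndex DD.K.toAddSubgroup : ℕ) : ℝ) := by
    have h1 : D = ((DD.JJ.relIndex DD.K.toAddSubgroup : ℕ) : ℤ) := hD.trans hDD.1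
    rw [h1, Int.cast_natCast]
  rw [hDr, hdr, hPg']
  exact hN

end Pool.Agent.S11381
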