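import Pool.Statements.S11390
import Pool.Agent.H624R3.CP.Final
import Pool.Agent.H624R3.CP.LATA
import Pool.Agent.H624R3.CP.LATB_helper444
import Pool.Agent.H624R3.CP.PACK
import Pool.Agent.H710R3.CPLat
import Pool.Agent.H71R3.CP.Ball
import Pool.Agent.H99R3.CPVBP
import Pool.Agent.H927R2.CPBset
import Pool.Agent.H253MB.CP.INF
import Pool.Agent.H388R3.CP.Good
import Pool.Agent.H787R3.CP.DETI
import Pool.Agent.H884R3.CP.COUNT
import Pool.Agent.H133R3.CP.COUNTZ
import Pool.Agent.H783R3.CP.SUB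
import Pool.Agent.H823R3.CP.IVal
import Pool.Agent.H756R3.CP.LP
import Pool.Agent.H821R3.CP.STAR
import Pool.Agent.H872R3.CP.COV
import Pool.Agent.H271R3.CP.Num
import Pool.Agent.H996R3.CP.Fin
import Pool.Agent.H612K.CP.Rset3
import Pool.Agent.H466R3.CP_Step
import Pool.Agent.H880R3.CP.TaskSPEC

set_option autoImplicit false
open Pool Pool.MP_c83c77_co

namespace Pool.Agent.S11390

/-- The negation of the preceding statement: For every d ≥ 1 and every compact convex K in R^d with nonempty interior, the product of its covering minima (with respect to the integer lattice) times the volume of K is at least (d+1)/2^d. -/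
theorem result :
    ¬ (∀ d : ℕ, 1 ≤ d → ∀ K : Set (Fin d → ℝ), Convex ℝ K → IsCompact K → (interior K).Nonempty →
      (∏ i : Fin d, sInf {μ : ℝ | 0 < μ ∧
          ∀ A : AffineSubspace ℝ (Fin d → ℝ), (A : Set (Fin d → ℝ)).Nonempty →
            Module.finrank ℝ A.direction = d - (i.val + 1) →
            ∃ x ∈ K, ∃ z : Fin d → ℤ, μ • x + (fun j => (z j : ℝ)) ∈ A})
        * (MeasureTheory.volume K).toReal ≥ ((d : ℝ) + 1) / 2 ^ d) := by
  have hB : H624R3.CP.TaskBALL := Pool.Agent.H71R3.CP.taskBALL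
  have hBS : H624R3.CP.TaskBSET := Pool.Agent.H927R2.CPBset.taskBSET
  have hRS : H624R3.CP.TaskRSET := Pool.Agent.H612K.CP.taskRSET Pool.Agent.H253MB.CP.taskINF
    Pool.Agent.H624R3.CP.taskVBP hBS
  have hLAT : H624R3.CP.TaskLAT := Pool.Agent.H710R3.CPLat.taskLAT Pool.Agent.H624R3.CP.taskLATA
    Pool.Agent.H624R3.CP.LATBh444.taskLATB
  have hGOOD : H624R3.CP.TaskGOOD := Pool.Agent.H388R3.CP.taskGOOD hLAT hB hBS hRS
  have hPACK : H624R3.CP.TaskPACK := Pool.Agent.H624R3.CP.PACK.pack_ok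
  have hSTEP : H624R3.CP.TaskSTEP := Pool.Agent.H466R3.CPStep.taskSTEP Pool.Agent.H787R3.CP.taskDETI
  have hCOUNT : H624R3.CP.TaskCOUNT := Pool.Agent.H884R3.CP.taskCOUNT hSTEP hPACK
  have hCOUNTZ : H624R3.CP.TaskCOUNTZ := Pool.Agent.H624R3.CP.CountzH133.taskCOUNTZ hPACK
  have hIVAL : H624R3.CP.TaskIVAL := Pool.Agent.H823R3.CP.taskIVAL
  have hSUB : H624R3.CP.TaskSUB := Pool.Agent.H783R3.CP.taskSUB Pool.Agent.H880R3.CP.taskSPEC
  have hLP : H624R3.CP.TaskLP := Pool.Agent.H756R3.CP.taskLP hSUB hIVAL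
  have hSTAR : H624R3.CP.TaskSTAR := Pool.Agent.H821R3.CP.taskSTAR
  have hCOV : H624R3.CP.TaskCOV := Pool.Agent.H872R3.CP.taskCOV hLP hSTAR hIVAL hB
  have hNUM : H624R3.CP.TaskNUM := Pool.Agent.H271CP.taskNUM
  have hFIN : H624R3.CP.TaskFIN := Pool.Agent.H996R3.CPFin.taskFIN hB
  exact Pool.Agent.H624R3.CP.final hB hGOOD hCOUNT hCOUNTZ hCOV hNUM hFIN

end Pool.Agent.S11390
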