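import Pool.Statements.S11415
import Pool.Agent.H62R3.Crit4Gadget
import Pool.Agent.H62R3.Crit4Extract

set_option autoImplicit false
open Pool Pool.MP_c9ead3_co

namespace Pool.Agent.S11415

/-- There are constants c1, c2 > 0 such that for arbitrarily large n some connected 4-chromatic edge-critical graph on n vertices has at least c1 n^2 edges and every bipartite subgraph misses at least c2 n^2 of its edges. -/
theorem result :
    ∃ c₁ c₂ : ℝ, 0 < c₁ ∧ 0 < c₂ ∧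
      ∀ N : ℕ, ∃ n : ℕ, N ≤ n ∧ ∃ G : SimpleGraph (Fin n),
        G.Connected ∧
        G.chromaticNumber = 4 ∧
        (∀ e ∈ G.edgeSet, (G.deleteEdges {e}).Colorable 3) ∧
        c₁ * (n : ℝ) ^ 2 ≤ (Nat.card G.edgeSet : ℝ) ∧
        ∀ H : SimpleGraph (Fin n), H ≤ G → H.Colorable 2 →
          c₂ * (n : ℝ) ^ 2 ≤ (Nat.card ↥(G.edgeSet \ H.edgeSet) : ℝ) := by
  refine ⟨1 / 2000, 1 / 2000, by norm_num, by norm_num, fun N => ?_⟩
  obtain ⟨n, hmn, hn, K, hK1, hK2, hK3, hK4⟩ :=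
    Pool.Agent.H62R3.Crit4.extract (Pool.Agent.H62R3.Crit4.G N)
      (Pool.Agent.H62R3.Crit4.not_colorable N) (2 * N + 1)
      (fun i s => Pool.Agent.H62R3.Crit4.vA N i ⟨(s : ℕ) + 1, by omega⟩)
      (by
        intro i s j t h
        simp only [Pool.Agent.H62R3.Crit4.vA, Sum.inl.injEq, Prod.mk.injEq, Fin.mk.injEq,
          Nat.add_right_cancel_iff] at h
        exact ⟨h.1, Fin.ext h.2⟩)
      (by
        intro i s t
        exact Pool.Agent.H62R3.Crit4.delete_colorable N i ⟨(s : ℕ) + 1, by omega⟩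
          ⟨(t : ℕ) + 1, by omega⟩ (Nat.succ_pos _) (Nat.succ_pos _)
          (by show (s : ℕ) + 1 < 2 * N + 2; omega) (by show (t : ℕ) + 1 < 2 * N + 2; omega))
  rw [Pool.Agent.H62R3.Crit4.card_Vt] at hn
  have key : (1 / 2000 : ℝ) * (n : ℝ) ^ 2 ≤ (((2 * N + 1) * (2 * N + 1) : ℕ) : ℝ) := by
    have h1 : (n : ℝ) ≤ 33 * (2 * N + 1) := by
      have : n ≤ 33 * (2 * N + 1) := by omega
      exact_mod_cast this
    have h2 : (0 : ℝ) ≤ n := Nat.cast_nonneg n
    have h3 : (n : ℝ) ^ 2 ≤ (33 * (2 * N + 1)) ^ 2 := pow_le_pow_left₀ h2 h1 2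
    push_cast
    nlinarith [sq_nonneg ((2 * N + 1 : ℝ))]
  refine ⟨n, by omega, K, hK1, hK2, hK3, ?_, ?_⟩
  · refine key.trans ?_
    have hbot : (⊥ : SimpleGraph (Fin n)).Colorable 2 :=
      ⟨SimpleGraph.Coloring.mk (fun _ => 0) (fun {a b} h => absurd h (by simp))⟩
    have := hK4 ⊥ hbot
    simp only [SimpleGraph.edgeSet_bot, Set.sdiff_empty] at this
    exact_mod_cast this
  · intro H _ hH
    refine key.trans ?_
    exact_mod_cast hK4 H hH

end Pool.Agent.S11415
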