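import Pool.Statements.S11429
import Pool.Agent.H184R3.Main

set_option autoImplicit false
open Pool Pool.MP_ca7d6d_co

namespace Pool.Agent.S11429

open Finset Pool.Agent.H184R3

/-- Inside an N-shape, any choice of levels at given positions is realized. -/
theorem get {n N k : ℕ} {P : Set (Fin n → Fin n)} {t : Bool} {p : Fin N → Fin n}
    (hp : StrictMono p) (hc : ∀ c : Fin N → Fin 3, ∃ g ∈ P,
      ∀ i j : Fin N, g (p i) < g (p j) ↔ wt N t (c i) i < wt N t (c j) j)
    {f : Fin k → Fin n} (hf : StrictMono f) (hfX : ∀ i, f i ∈ Finset.univ.image p)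
    (lv : Fin k → Fin 3) : ∃ q : Fin k → Fin N, StrictMono q ∧ ∃ g ∈ P,
      ∀ i j : Fin k, g (f i) < g (f j) ↔ wt N t (lv i) (q i) < wt N t (lv j) (q j) := by
  have h1 : ∀ i, ∃ a, p a = f i := fun i => by
    obtain ⟨a, -, ha⟩ := Finset.mem_image.1 (hfX i)
    exact ⟨a, ha⟩
  choose q hq using h1
  have hqm : StrictMono q := by
    intro i j hij
    have h2 : f i < f j := hf hij
    rw [← hq i, ← hq j] at h2
    exact hp.lt_iff_lt.1 h2
  refine ⟨q, hqm, ?_⟩
  obtain ⟨g, hg, hgc⟩ := hc (Function.extend q lv (fun _ => 0))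
  refine ⟨g, hg, ?_⟩
  intro i j
  rw [← hq i, ← hq j, hgc, hqm.injective.extend_apply, hqm.injective.extend_apply]


/-- For each N>6 there is C such that any set of permutations of n points, where every N positions contain 5 or 6 positions at which no member shows any rotation of 13524, 14253, 123654 or 145632, has at most C^n members. -/
theorem result :
  ∀ N : ℕ, 6 < N → ∃ C : ℝ, ∀ n : ℕ, ∀ P : Finset (Equiv.Perm (Fin n)),
    (∀ X : Finset (Fin n), X.card = N →
      ((∃ f : Fin 5 → Fin n, StrictMono f ∧ (∀ i, f i ∈ X) ∧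
          ∀ π ∈ P, ∀ r : Fin 5, ¬ ∀ i j : Fin 5,
            (π (f i) < π (f j) ↔
              (![1, 3, 5, 2, 4] : Fin 5 → ℕ) (i + r) < (![1, 3, 5, 2, 4] : Fin 5 → ℕ) (j + r))) ∨
       (∃ f : Fin 5 → Fin n, StrictMono f ∧ (∀ i, f i ∈ X) ∧
          ∀ π ∈ P, ∀ r : Fin 5, ¬ ∀ i j : Fin 5,
            (π (f i) < π (f j) ↔
              (![1, 4, 2, 5, 3] : Fin 5 → ℕ) (i + r) < (![1, 4, 2, 5, 3] : Fin 5 → ℕ) (j + r))) ∨
       (∃ f : Fin 6 → Fin n, StrictMono f ∧ (∀ i, f i ∈ X) ∧
          ∀ π ∈ P, ∀ r : Fin 6, ¬ ∀ i j : Fin 6,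
            (π (f i) < π (f j) ↔
              (![1, 2, 3, 6, 5, 4] : Fin 6 → ℕ) (i + r) < (![1, 2, 3, 6, 5, 4] : Fin 6 → ℕ) (j + r))) ∨
       (∃ f : Fin 6 → Fin n, StrictMono f ∧ (∀ i, f i ∈ X) ∧
          ∀ π ∈ P, ∀ r : Fin 6, ¬ ∀ i j : Fin 6,
            (π (f i) < π (f j) ↔
              (![1, 4, 5, 6, 3, 2] : Fin 6 → ℕ) (i + r) < (![1, 4, 5, 6, 3, 2] : Fin 6 → ℕ) (j + r))))) →
    (P.card : ℝ) ≤ C ^ n := by
  intro N _
  obtain ⟨K, hK⟩ := main_bound N
  refine ⟨(K : ℝ), fun n P hP => ?_⟩
  let P' : Finset (Fin n → Fin n) :=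
    P.image (fun (π : Equiv.Perm (Fin n)) => (fun x => π x : Fin n → Fin n))
  have hcard : P'.card = P.card :=
    Finset.card_image_of_injective P
      (fun (π π' : Equiv.Perm (Fin n)) h => Equiv.ext (fun x => congrFun h x))
  have hmain : P'.card ≤ K ^ n := by
    apply hK
    · intro f hf
      obtain ⟨π, -, rfl⟩ := Finset.mem_image.1 hf
      exact π.injective
    · rintro ⟨t, p, hp, hc⟩
      rcases hP (Finset.univ.image p) (by
          rw [Finset.card_image_of_injective _ hp.injective, Finset.card_univ, Fintype.card_fin])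
        with ⟨f, hf, hfX, hno⟩ | ⟨f, hf, hfX, hno⟩ | ⟨f, hf, hfX, hno⟩ | ⟨f, hf, hfX, hno⟩
      · cases t with
        | true =>
          obtain ⟨q, hq, g, hg, hgc⟩ := get hp hc hf hfX ![1, 0, 1, 2, 0]
          obtain ⟨π, hπ, rfl⟩ := Finset.mem_image.1 (Finset.mem_coe.1 hg)
          refine hno π hπ 4 ?_
          have q0 : (q 0 : ℕ) < q 1 := hq (by decide)
          have q1 : (q 1 : ℕ) < q 2 := hq (by decide)
          have q2 : (q 2 : ℕ) < q 3 := hq (by decide)
          have q3 : (q 3 : ℕ) < q 4 := hq (by decide)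
          have qN := (q 4).2
          intro i j
          rw [hgc i j]
          fin_cases i <;> fin_cases j <;> simp [wt] <;> omega
        | false =>
          obtain ⟨q, hq, g, hg, hgc⟩ := get hp hc hf hfX ![0, 2, 0, 1, 0]
          obtain ⟨π, hπ, rfl⟩ := Finset.mem_image.1 (Finset.mem_coe.1 hg)
          refine hno π hπ 1 ?_
          have q0 : (q 0 : ℕ) < q 1 := hq (by decide)
          have q1 : (q 1 : ℕ) < q 2 := hq (by decide)
          have q2 : (q 2 : ℕ) < q 3 := hq (by decide)
          have q3 : (q 3 : ℕ) < q 4 := hq (by decide)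
          have qN := (q 4).2
          intro i j
          rw [hgc i j]
          fin_cases i <;> fin_cases j <;> simp [wt] <;> omega
      · cases t with
        | true =>
          obtain ⟨q, hq, g, hg, hgc⟩ := get hp hc hf hfX ![0, 1, 0, 2, 0]
          obtain ⟨π, hπ, rfl⟩ := Finset.mem_image.1 (Finset.mem_coe.1 hg)
          refine hno π hπ 0 ?_
          have q0 : (q 0 : ℕ) < q 1 := hq (by decide)
          have q1 : (q 1 : ℕ) < q 2 := hq (by decide)
          have q2 : (q 2 : ℕ) < q 3 := hq (by decide)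
          have q3 : (q 3 : ℕ) < q 4 := hq (by decide)
          have qN := (q 4).2
          intro i j
          rw [hgc i j]
          fin_cases i <;> fin_cases j <;> simp [wt] <;> omega
        | false =>
          obtain ⟨q, hq, g, hg, hgc⟩ := get hp hc hf hfX ![0, 2, 1, 0, 1]
          obtain ⟨π, hπ, rfl⟩ := Finset.mem_image.1 (Finset.mem_coe.1 hg)
          refine hno π hπ 2 ?_
          have q0 : (q 0 : ℕ) < q 1 := hq (by decide)
          have q1 : (q 1 : ℕ) < q 2 := hq (by decide)
          have q2 : (q 2 : ℕ) < q 3 := hq (by decide)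
          have q3 : (q 3 : ℕ) < q 4 := hq (by decide)
          have qN := (q 4).2
          intro i j
          rw [hgc i j]
          fin_cases i <;> fin_cases j <;> simp [wt] <;> omega
      · cases t with
        | true =>
          obtain ⟨q, hq, g, hg, hgc⟩ := get hp hc hf hfX ![0, 0, 0, 1, 1, 0]
          obtain ⟨π, hπ, rfl⟩ := Finset.mem_image.1 (Finset.mem_coe.1 hg)
          refine hno π hπ 0 ?_
          have q0 : (q 0 : ℕ) < q 1 := hq (by decide)
          have q1 : (q 1 : ℕ) < q 2 := hq (by decide)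
          have q2 : (q 2 : ℕ) < q 3 := hq (by decide)
          have q3 : (q 3 : ℕ) < q 4 := hq (by decide)
          have q4 : (q 4 : ℕ) < q 5 := hq (by decide)
          have qN := (q 5).2
          intro i j
          rw [hgc i j]
          fin_cases i <;> fin_cases j <;> simp [wt] <;> omega
        | false =>
          obtain ⟨q, hq, g, hg, hgc⟩ := get hp hc hf hfX ![0, 1, 1, 2, 2, 1]
          obtain ⟨π, hπ, rfl⟩ := Finset.mem_image.1 (Finset.mem_coe.1 hg)
          refine hno π hπ 0 ?_
          have q0 : (q 0 : ℕ) < q 1 := hq (by decide)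
          have q1 : (q 1 : ℕ) < q 2 := hq (by decide)
          have q2 : (q 2 : ℕ) < q 3 := hq (by decide)
          have q3 : (q 3 : ℕ) < q 4 := hq (by decide)
          have q4 : (q 4 : ℕ) < q 5 := hq (by decide)
          have qN := (q 5).2
          intro i j
          rw [hgc i j]
          fin_cases i <;> fin_cases j <;> simp [wt] <;> omega
      · cases t with
        | true =>
          obtain ⟨q, hq, g, hg, hgc⟩ := get hp hc hf hfX ![0, 1, 2, 2, 1, 0]
          obtain ⟨π, hπ, rfl⟩ := Finset.mem_image.1 (Finset.mem_coe.1 hg)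
          refine hno π hπ 0 ?_
          have q0 : (q 0 : ℕ) < q 1 := hq (by decide)
          have q1 : (q 1 : ℕ) < q 2 := hq (by decide)
          have q2 : (q 2 : ℕ) < q 3 := hq (by decide)
          have q3 : (q 3 : ℕ) < q 4 := hq (by decide)
          have q4 : (q 4 : ℕ) < q 5 := hq (by decide)
          have qN := (q 5).2
          intro i j
          rw [hgc i j]
          fin_cases i <;> fin_cases j <;> simp [wt] <;> omega
        | false =>
          obtain ⟨q, hq, g, hg, hgc⟩ := get hp hc hf hfX ![0, 1, 1, 0, 0, 0]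
          obtain ⟨π, hπ, rfl⟩ := Finset.mem_image.1 (Finset.mem_coe.1 hg)
          refine hno π hπ 1 ?_
          have q0 : (q 0 : ℕ) < q 1 := hq (by decide)
          have q1 : (q 1 : ℕ) < q 2 := hq (by decide)
          have q2 : (q 2 : ℕ) < q 3 := hq (by decide)
          have q3 : (q 3 : ℕ) < q 4 := hq (by decide)
          have q4 : (q 4 : ℕ) < q 5 := hq (by decide)
          have qN := (q 5).2
          intro i j
          rw [hgc i j]
          fin_cases i <;> fin_cases j <;> simp [wt] <;> omega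
  rw [← hcard]
  exact_mod_cast hmain

end Pool.Agent.S11429
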