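import Pool.Statements.S11432
import Pool.Agent.H273R3.RainbowB

set_option autoImplicit false
open Pool Pool.MP_ca83f8_co

namespace Pool.Agent.S11432

open Finset Pool.Agent.H273R3.RainbowA Pool.Agent.H273R3.RainbowB

/-- The Turan number of three disjoint triangles, as a function of the number of vertices. -/
noncomputable def exF (n : ℕ) : ℕ := sSup {t : ℕ | ∃ G : Finset (Finset (Fin n)),
          (∀ e ∈ G, e.card = 2) ∧
          (¬ ∃ φ : Fin 9 ↪ Fin n, ∀ e ∈ F9, e.map φ ∈ G) ∧ G.card = t}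

lemma exF_le (n : ℕ) : exF n ≤ n ^ 2 / 4 + 6 * n := by
  apply csSup_le
  · refine ⟨0, ∅, by simp, ?_, rfl⟩
    rintro ⟨φ, h⟩
    have := h {0, 1} (by decide +kernel)
    simp at this
  · rintro t ⟨G, hG, hf, rfl⟩
    exact card_le_of_free G hG hf

lemma le_exF (n : ℕ) (G : Finset (Finset (Fin n))) (hG : ∀ e ∈ G, e.card = 2)
    (hf : ¬ ∃ φ : Fin 9 ↪ Fin n, ∀ e ∈ F9, e.map φ ∈ G) : G.card ≤ exF n := by
  apply le_csSup
  · refine ⟨n ^ 2 / 4 + 6 * n, ?_⟩
    rintro t ⟨G, hG, hf, rfl⟩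
    exact card_le_of_free G hG hf
  · exact ⟨G, hG, hf, rfl⟩

lemma bip (n : ℕ) : (n / 2) * (n / 2) ≤ exF n := by
  classical
  let G : Finset (Finset (Fin n)) :=
    (Finset.powersetCard 2 Finset.univ).filter
      (fun e => ∃ u ∈ e, ∃ v ∈ e, u.val < n / 2 ∧ n / 2 ≤ v.val)
  have h1 : ∀ e ∈ G, e.card = 2 := by
    intro e he
    rw [Finset.mem_filter, Finset.mem_powersetCard] at he
    exact he.1.2
  have h2 : ¬ ∃ φ : Fin 9 ↪ Fin n, ∀ e ∈ F9, e.map φ ∈ G := by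
    rintro ⟨φ, h⟩
    have k1 := h {0, 1} (by decide +kernel)
    have k2 := h {0, 2} (by decide +kernel)
    have k3 := h {1, 2} (by decide +kernel)
    simp only [G, Finset.mem_filter, Finset.map_insert, Finset.map_singleton,
      Finset.mem_insert, Finset.mem_singleton, exists_eq_or_imp, exists_eq_left] at k1 k2 k3
    omega
  refine le_trans ?_ (le_exF n G h1 h2)
  have hinj : (Finset.univ : Finset (Fin (n / 2) × Fin (n / 2))).card ≤ G.card := by
    refine Finset.card_le_card_of_injOn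
      (fun p => {⟨p.1.val, by omega⟩, ⟨n / 2 + p.2.val, by omega⟩}) ?_ ?_
    · intro p _
      simp only [G, Finset.coe_filter, Set.mem_setOf_eq, Finset.mem_powersetCard]
      refine ⟨⟨Finset.subset_univ _, Finset.card_pair ?_⟩,
        ⟨p.1.val, by omega⟩, by simp, ⟨n / 2 + p.2.val, by omega⟩, by simp, ?_, ?_⟩
      · intro h
        have := congrArg Fin.val h
        simp at this
        omega
      · exact p.1.isLt
      · show n / 2 ≤ n / 2 + p.2.val
        omega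
    · intro p _ p' _ h
      simp only at h
      have h1 : (⟨p.1.val, by omega⟩ : Fin n) ∈
          ({⟨p'.1.val, by omega⟩, ⟨n / 2 + p'.2.val, by omega⟩} : Finset (Fin n)) := by
        rw [← h]; simp
      have h2 : (⟨n / 2 + p.2.val, by omega⟩ : Fin n) ∈
          ({⟨p'.1.val, by omega⟩, ⟨n / 2 + p'.2.val, by omega⟩} : Finset (Fin n)) := by
        rw [← h]; simp
      simp only [Finset.mem_insert, Finset.mem_singleton, Fin.mk.injEq] at h1 h2
      have b1 := p.1.isLt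
      have b2 := p'.1.isLt
      ext
      · omega
      · omega
  calc (n / 2) * (n / 2) = (Finset.univ : Finset (Fin (n / 2) × Fin (n / 2))).card := by
        rw [Finset.card_univ, Fintype.card_prod, Fintype.card_fin]
    _ ≤ _ := hinj

lemma bip_real (n : ℕ) (hn : 4 ≤ n) : (1 / 16 : ℝ) * (n : ℝ) ^ 2 ≤ (exF n : ℝ) := by
  have h := bip n
  have h1 : (n : ℝ) ≤ 4 * ((n / 2 : ℕ) : ℝ) := by
    have : n ≤ 4 * (n / 2) := by omega
    exact_mod_cast this
  have h2 : ((n / 2 : ℕ) : ℝ) * ((n / 2 : ℕ) : ℝ) ≤ (exF n : ℝ) := by exact_mod_cast h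
  have h0 : (0 : ℝ) ≤ (n : ℝ) := Nat.cast_nonneg n
  nlinarith

/-- The negation of the preceding statement: For k≥2 and a linear k-uniform F with Turán number at least c·n^k, for all large r and large n every n-vertex k-graph has at most r^ex(n,F) r-colourings without a rainbow copy of F, with equality iff it is F-extremal. -/
theorem result :
    ¬ (∀ (k m : ℕ) (F : Finset (Finset (Fin m))) (ex : ℕ → ℕ), 2 ≤ k →
      (∀ e ∈ F, e.card = k) →
      (∀ e ∈ F, ∀ f ∈ F, e ≠ f → (e ∩ f).card ≤ 1) →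
      (∀ n : ℕ, ex n = sSup {t : ℕ | ∃ G : Finset (Finset (Fin n)),
          (∀ e ∈ G, e.card = k) ∧
          (¬ ∃ φ : Fin m ↪ Fin n, ∀ e ∈ F, e.map φ ∈ G) ∧ G.card = t}) →
      (∃ c : ℝ, 0 < c ∧ ∃ N : ℕ, ∀ n ≥ N, c * (n : ℝ) ^ k ≤ (ex n : ℝ)) →
      ∃ r0 : ℕ, ∀ r ≥ r0, ∃ n0 : ℕ, ∀ n ≥ n0, ∀ H : Finset (Finset (Fin n)),
        (∀ e ∈ H, e.card = k) →
        (Nat.card {c : {x // x ∈ H} → Fin r //
            ¬ ∃ φ : Fin m ↪ Fin n, (∀ e ∈ F, e.map φ ∈ H) ∧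
              ∀ e ∈ F, ∀ f ∈ F, ∀ x y : {x // x ∈ H},
                x.1 = e.map φ → y.1 = f.map φ → e ≠ f → c x ≠ c y} ≤ r ^ ex n ∧
        (Nat.card {c : {x // x ∈ H} → Fin r //
            ¬ ∃ φ : Fin m ↪ Fin n, (∀ e ∈ F, e.map φ ∈ H) ∧
              ∀ e ∈ F, ∀ f ∈ F, ∀ x y : {x // x ∈ H},
                x.1 = e.map φ → y.1 = f.map φ → e ≠ f → c x ≠ c y} = r ^ ex n ↔
          ((¬ ∃ φ : Fin m ↪ Fin n, ∀ e ∈ F, e.map φ ∈ H) ∧ H.card = ex n)))) := by
  intro hmain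
  obtain ⟨r0, hr0⟩ := hmain 2 9 F9 exF (le_refl 2) F9_card F9_linear (fun n => rfl)
    ⟨1 / 16, by norm_num, 4, fun n hn => bip_real n hn⟩
  obtain ⟨n0, hn0⟩ := hr0 (r0 + 2) (by omega)
  set q : ℕ := 12 * (r0 + 2) + 2 + n0 with hq
  have h1 := (hn0 (2 * q) (by omega) (K q) (fun e he => (Finset.mem_powersetCard.mp he).2)).1
  have h2 := lower r0 q
  have h3 := (h2.trans h1)
  have h4 : exF (2 * q) ≤ q ^ 2 + 12 * q := by
    refine (exF_le (2 * q)).trans ?_
    have : (2 * q) ^ 2 / 4 = q ^ 2 := by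
      rw [mul_pow]; norm_num
    rw [this]; omega
  have h5 : (r0 + 2) ^ exF (2 * q) ≤ (r0 + 2) ^ (q ^ 2 + 12 * q) :=
    Nat.pow_le_pow_right (by omega) h4
  have h6 := h3.trans h5
  rw [pow_add] at h6
  have h7 : 2 ^ (q * (2 * q - 1) - q ^ 2) ≤ (r0 + 2) ^ (12 * q) :=
    Nat.le_of_mul_le_mul_left h6 (by positivity)
  have h8 : (r0 + 2) ^ (12 * q) ≤ 2 ^ ((r0 + 2) * (12 * q)) := by
    rw [pow_mul 2]
    exact Nat.pow_le_pow_left (Nat.lt_two_pow_self).le _
  have h9 : q * (2 * q - 1) - q ^ 2 ≤ (r0 + 2) * (12 * q) :=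
    (Nat.pow_le_pow_iff_right (by norm_num)).mp (h7.trans h8)
  have h10 : q * (2 * q - 1) - q ^ 2 = q * (q - 1) := by
    obtain ⟨p, hp⟩ : ∃ p, q = p + 1 := ⟨q - 1, by omega⟩
    rw [hp]
    have e1 : 2 * (p + 1) - 1 = 2 * p + 1 := by omega
    have e2 : p + 1 - 1 = p := by omega
    rw [e1, e2]
    have : (p + 1) * (2 * p + 1) = (p + 1) * p + (p + 1) ^ 2 := by ring
    omega
  rw [h10] at h9
  have h11 : q * (q - 1) ≤ q * (12 * (r0 + 2)) := by
    calc q * (q - 1) ≤ (r0 + 2) * (12 * q) := h9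
      _ = q * (12 * (r0 + 2)) := by ring
  have h12 : q - 1 ≤ 12 * (r0 + 2) := Nat.le_of_mul_le_mul_left h11 (by omega)
  omega

end Pool.Agent.S11432
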