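import Pool.Statements.S11450
import Pool.Agent.Helper998.VecMatroid

set_option autoImplicit false
open Pool Pool.MP_cb399b_co

namespace Pool.Agent.S11450

open Pool.Agent.Helper998.VecMatroid

/-- the nine binary vectors -/
def vec : Fin 9 → Fin 4 → ZMod 2 :=
  ![![0, 0, 0, 1], ![1, 0, 0, 0], ![1, 0, 0, 1], ![0, 1, 0, 0], ![0, 1, 1, 0], ![1, 1, 0, 0],
    ![1, 1, 1, 0], ![1, 0, 1, 1], ![1, 0, 1, 1]]

/-- some circuits -/
def circ : List (Finset (Fin 9)) :=
  [{7, 8}, {0, 1, 2}, {1, 3, 5}, {1, 4, 6}, {0, 3, 6, 8}, {0, 4, 5, 8}, {2, 3, 4, 8}, {2, 5, 6, 8},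
    {0, 3, 6, 7}, {0, 4, 5, 7}, {2, 3, 4, 7}, {2, 5, 6, 7}]

set_option maxRecDepth 100000 in
theorem circ_zero : ∀ c ∈ circ, c.Nonempty ∧ ∀ j, ∑ i ∈ c, vec i j = 0 := by decide

set_option maxRecDepth 100000 in
theorem comb : ∀ b : Fin 9 → Bool, b 1 = false → b 7 = false → ∃ c ∈ circ,
    (∀ i ∈ c, b i = true) ∨ (∀ i ∈ c, i ≠ 1 ∧ b i = false) ∨ (∀ i ∈ c, i ≠ 7 ∧ b i = false) := by
  decide

theorem not_li {A : Set (Fin 9)} (hA : LinearIndepOn (ZMod 2) vec A) {c : Finset (Fin 9)}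
    (hc : c ∈ circ) (hcA : (c : Set (Fin 9)) ⊆ A) : False := by
  have h1 := hA.mono hcA
  rw [linearIndepOn_finset_iff] at h1
  obtain ⟨⟨i, hi⟩, h0⟩ := circ_zero c hc
  have h2 := h1 (fun _ => 1) (by
    simp only [one_smul]
    funext j
    rw [Finset.sum_apply]
    exact h0 j) i hi
  simp at h2

theorem isBase_of_li {B : Set (Fin 9)} (w : Fin 4 → Fin 9)
    (hw : B = Set.range w) (hli : LinearIndependent (ZMod 2) (fun c => vec (w c))) :
    (vecMatroid (ZMod 2) vec).IsBase B := by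
  rw [isBase_iff]
  subst hw
  constructor
  · exact (linearIndepOn_range_iff (fun a b hab => hli.injective (by simp [hab])) vec).2 hli
  · have h1 : Submodule.span (ZMod 2) (vec '' Set.range w) = ⊤ := by
      have h2 := hli.span_eq_top_of_card_eq_finrank' (by simp)
      rw [← Set.range_comp]
      exact h2
    rw [h1]
    apply le_antisymm _ le_top
    rw [← h1]
    exact Submodule.span_mono (Set.image_subset_range _ _)

/-- the two partitions -/
def w1 : Fin 2 → Fin 4 → Fin 9 := ![![0, 2, 3, 7], ![4, 5, 6, 8]]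
def w2 : Fin 2 → Fin 4 → Fin 9 := ![![0, 1, 3, 6], ![2, 4, 5, 8]]

theorem li_of (w : Fin 4 → Fin 9)
    (h : ∀ g : Fin 4 → ZMod 2, (∀ c : Fin 4, g 0 * vec (w 0) c + g 1 * vec (w 1) c
      + g 2 * vec (w 2) c + g 3 * vec (w 3) c = 0) → ∀ j, g j = 0) :
    LinearIndependent (ZMod 2) (fun c => vec (w c)) := by
  rw [Fintype.linearIndependent_iff]
  intro g hg
  apply h g
  intro c
  have := congrFun hg c
  simpa [Fin.sum_univ_four] using this

theorem li1 (i : Fin 2) : LinearIndependent (ZMod 2) (fun c => vec (w1 i c)) := by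
  apply li_of
  revert i
  decide

theorem li2 (i : Fin 2) : LinearIndependent (ZMod 2) (fun c => vec (w2 i c)) := by
  apply li_of
  revert i
  decide

/-- The negation of the preceding statement: For a finite matroid of rank r on E with ∣E∣ = kr+1, k ≥ 2, if E minus x and E minus y each split into k disjoint bases, then there are such splittings of both that have a basis in common. -/
theorem result :
    ¬ (∀ (α : Type) (M : Matroid α) (k : ℕ), 2 ≤ k → M.E.Finite →
      M.E.encard = (k : ℕ∞) * M.eRank + 1 →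
      ∀ x y : α, x ∈ M.E → y ∈ M.E →
      (∃ B : Fin k → Set α, (∀ i, M.IsBase (B i)) ∧
          (∀ i j, i ≠ j → Disjoint (B i) (B j)) ∧
          (⋃ i, B i) = M.E \ {x}) →
      (∃ B : Fin k → Set α, (∀ i, M.IsBase (B i)) ∧
          (∀ i j, i ≠ j → Disjoint (B i) (B j)) ∧
          (⋃ i, B i) = M.E \ {y}) →
      ∃ P Q : Fin k → Set α,
        (∀ i, M.IsBase (P i)) ∧ (∀ i j, i ≠ j → Disjoint (P i) (P j)) ∧
          (⋃ i, P i) = M.E \ {x} ∧
        (∀ i, M.IsBase (Q i)) ∧ (∀ i j, i ≠ j → Disjoint (Q i) (Q j)) ∧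
          (⋃ i, Q i) = M.E \ {y} ∧
        ∃ i j, P i = Q j) := by
  intro H
  have hb1 : ∀ i, (vecMatroid (ZMod 2) vec).IsBase (Set.range (w1 i)) :=
    fun i => isBase_of_li (w1 i) rfl (li1 i)
  have hb2 : ∀ i, (vecMatroid (ZMod 2) vec).IsBase (Set.range (w2 i)) :=
    fun i => isBase_of_li (w2 i) rfl (li2 i)
  have hcard : (vecMatroid (ZMod 2) vec).E.encard
      = ((2 : ℕ) : ℕ∞) * (vecMatroid (ZMod 2) vec).eRank + 1 := by
    rw [← (hb1 0).encard_eq_eRank]
    have e1 : (Set.range (w1 0)).encard = 4 := by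
      rw [show Set.range (w1 0) = ((({0, 2, 3, 7} : Finset (Fin 9))) : Set (Fin 9)) by
        ext a; simp [w1]; tauto]
      rw [Set.encard_coe_eq_coe_finsetCard]
      rfl
    rw [e1, vecMatroid_E]
    rw [← Finset.coe_univ, Set.encard_coe_eq_coe_finsetCard]
    simp
    norm_num
  obtain ⟨P, Q, hP, -, hPu, hQ, -, hQu, i, j, hij⟩ := H (Fin 9) (vecMatroid (ZMod 2) vec) 2 le_rfl
    (Set.toFinite _) hcard 1 7 (Set.mem_univ _) (Set.mem_univ _)
    ⟨fun i => Set.range (w1 i), hb1, by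
      intro a b hab
      rw [Set.disjoint_left]
      rintro t ⟨c, rfl⟩ ⟨d, hd⟩
      revert a b c d
      decide, by
      ext t
      simp only [Set.mem_iUnion, Set.mem_range, vecMatroid_E, Set.mem_sdiff, Set.mem_univ,
        Set.mem_singleton_iff, true_and]
      revert t
      decide⟩
    ⟨fun i => Set.range (w2 i), hb2, by
      intro a b hab
      rw [Set.disjoint_left]
      rintro t ⟨c, rfl⟩ ⟨d, hd⟩
      revert a b c d
      decide, by
      ext t
      simp only [Set.mem_iUnion, Set.mem_range, vecMatroid_E, Set.mem_sdiff, Set.mem_univ,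
        Set.mem_singleton_iff, true_and]
      revert t
      decide⟩
  classical
  have h1 : (1 : Fin 9) ∉ P i := by
    intro h
    have : (1 : Fin 9) ∈ ⋃ i, P i := Set.mem_iUnion.2 ⟨i, h⟩
    rw [hPu] at this
    exact this.2 rfl
  have h7 : (7 : Fin 9) ∉ P i := by
    intro h
    rw [hij] at h
    have : (7 : Fin 9) ∈ ⋃ i, Q i := Set.mem_iUnion.2 ⟨j, h⟩
    rw [hQu] at this
    exact this.2 rfl
  have hA1 : ∀ t : Fin 9, t ≠ 1 → t ∉ P i → t ∈ P (1 - i) := by
    intro t ht hti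
    have : t ∈ ⋃ i, P i := by
      rw [hPu]
      exact ⟨Set.mem_univ _, ht⟩
    obtain ⟨k, hk⟩ := Set.mem_iUnion.1 this
    have hki : k ≠ i := by
      rintro rfl
      exact hti hk
    have key : ∀ k j : Fin 2, k ≠ j → k = 1 - j := by decide
    rwa [← key k i hki]
  have hA2 : ∀ t : Fin 9, t ≠ 7 → t ∉ P i → t ∈ Q (1 - j) := by
    intro t ht hti
    rw [hij] at hti
    have : t ∈ ⋃ i, Q i := by
      rw [hQu]
      exact ⟨Set.mem_univ _, ht⟩
    obtain ⟨k, hk⟩ := Set.mem_iUnion.1 this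
    have hki : k ≠ j := by
      rintro rfl
      exact hti hk
    have key : ∀ k j : Fin 2, k ≠ j → k = 1 - j := by decide
    rwa [← key k j hki]
  obtain ⟨c, hc, h⟩ := comb (fun t => decide (t ∈ P i)) (by simpa using h1) (by simpa using h7)
  rcases h with h | h | h
  · exact not_li (hP i).indep hc fun t ht => by simpa using h t ht
  · exact not_li (hP (1 - i)).indep hc fun t ht => hA1 t (h t ht).1 (by simpa using (h t ht).2)
  · exact not_li (hQ (1 - j)).indep hc fun t ht => hA2 t (h t ht).1 (by simpa using (h t ht).2)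

end Pool.Agent.S11450
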