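import Pool.Statements.S11467
import Pool.Agent.H554R3.CubeMain

set_option autoImplicit false
open Pool Pool.MP_cc0bf2_co

namespace Pool.Agent.S11467

/-- There is a constant C such that for every n and every 2-colouring of the edges of the n-cube, the average over vertices of the minimum number of colour changes along a path to the antipodal vertex is at most C√n. -/
theorem result :
    ∃ C : ℝ, ∀ n : ℕ, ∀ c : (Fin n → Bool) → (Fin n → Bool) → Bool,
      (∀ x y, c x y = c y x) →
      ∃ f : (Fin n → Bool) → ℕ,
        (∀ v : Fin n → Bool, ∃ k : ℕ, ∃ p : ℕ → (Fin n → Bool),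
          p 0 = v ∧ p k = (fun i => !(v i)) ∧
          (∀ i, i < k → hammingDist (p i) (p (i + 1)) = 1) ∧
          ((Finset.range (k - 1)).filter
            (fun i => c (p i) (p (i + 1)) ≠ c (p (i + 1)) (p (i + 2)))).card
            ≤ f v) ∧
        (∑ v : Fin n → Bool, (f v : ℝ)) / (2 : ℝ) ^ n ≤ C * Real.sqrt (n : ℝ) :=
  ⟨3, fun n c hc => Pool.Agent.H554R3.CubeFlow.main n c hc⟩

end Pool.Agent.S11467
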