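import Pool.Statements.S11473
import Pool.Agent.H346R3.LMD.Main

set_option autoImplicit false
open Pool Pool.MP_cc29fe_co

namespace Pool.Agent.S11473

/-- Every finite connected graph with n vertices and clique number ω, where n ≥ ω+1 ≥ 4, has a set of at most (ω−2)/(ω−1)·n vertices distinguishing every adjacent pair by distance, i.e. local metric dimension ≤ (ω−2)n/(ω−1). -/
theorem result :
    ∀ (V : Type) [Fintype V] (G : SimpleGraph V), G.Connected →
      ∀ ω : ℕ, (∃ s : Finset V, G.IsNClique ω s) → G.CliqueFree (ω + 1) →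
        4 ≤ ω + 1 → ω + 1 ≤ Fintype.card V →
        ∃ W : Finset V,
          (∀ u v : V, G.Adj u v → ∃ w ∈ W, G.dist u w ≠ G.dist v w) ∧
          (W.card : ℝ) ≤ ((ω : ℝ) - 2) / ((ω : ℝ) - 1) * (Fintype.card V : ℝ) := by
  intro V _ G hG ω _ hcf h4 hcard
  classical
  obtain ⟨k, rfl⟩ : ∃ k, ω = k + 1 := ⟨ω - 1, by omega⟩
  have hk : 2 ≤ k := by omega
  obtain ⟨c, hc⟩ := Pool.Agent.H346R3.LMD.exists_good hG hk hcf hcard
  -- a large colour class
  obtain ⟨j, hj⟩ : ∃ j : Fin k, Fintype.card V ≤
      k * (Finset.univ.filter (fun v => c v = j)).card := by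
    by_contra hcon
    push Not at hcon
    have h1 : Fintype.card V = ∑ j : Fin k, (Finset.univ.filter (fun v => c v = j)).card := by
      rw [← Finset.card_univ]
      exact Finset.card_eq_sum_card_fiberwise (fun _ _ => Finset.mem_coe.mpr (Finset.mem_univ _))
    have h2 : ∑ j : Fin k, k * (Finset.univ.filter (fun v => c v = j)).card <
        ∑ _j : Fin k, Fintype.card V := by
      apply Finset.sum_lt_sum_of_nonempty
      · exact ⟨⟨0, by omega⟩, Finset.mem_univ _⟩
      · intro j _
        exact hcon j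
    rw [← Finset.mul_sum, ← h1, Finset.sum_const, Finset.card_univ, Fintype.card_fin,
      smul_eq_mul] at h2
    exact lt_irrefl _ h2
  refine ⟨Finset.univ.filter (fun v => c v ≠ j), ?_, ?_⟩
  · intro u v huv
    by_cases hu : c u = j
    · by_cases hv : c v = j
      · obtain ⟨z, -, hz1, hz2⟩ := hc u (Finset.mem_univ _) v (Finset.mem_univ _) huv
          (by rw [hu, hv])
        refine ⟨z, Finset.mem_filter.mpr ⟨Finset.mem_univ _, by rw [← hu]; exact hz1⟩, ?_⟩
        intro hd
        apply hz2
        rw [G.adj_comm z u, G.adj_comm z v, ← SimpleGraph.dist_eq_one_iff_adj,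
          ← SimpleGraph.dist_eq_one_iff_adj, hd]
      · refine ⟨v, Finset.mem_filter.mpr ⟨Finset.mem_univ _, hv⟩, ?_⟩
        rw [SimpleGraph.dist_self, SimpleGraph.dist_eq_one_iff_adj.mpr huv]
        exact one_ne_zero
    · refine ⟨u, Finset.mem_filter.mpr ⟨Finset.mem_univ _, hu⟩, ?_⟩
      rw [SimpleGraph.dist_self, SimpleGraph.dist_eq_one_iff_adj.mpr huv.symm]
      exact zero_ne_one
  · have h1 : (Finset.univ.filter (fun v => c v = j)).card +
        (Finset.univ.filter (fun v => c v ≠ j)).card = Fintype.card V := by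
      rw [← Finset.card_univ]
      exact Finset.card_filter_add_card_filter_not (fun v => c v = j)
    have h1' : ((Finset.univ.filter (fun v => c v = j)).card : ℝ) +
        ((Finset.univ.filter (fun v => c v ≠ j)).card : ℝ) = (Fintype.card V : ℝ) := by
      exact_mod_cast h1
    have h2' : (Fintype.card V : ℝ) ≤
        (k : ℝ) * ((Finset.univ.filter (fun v => c v = j)).card : ℝ) := by
      exact_mod_cast hj
    have hkp : (0 : ℝ) < (k : ℝ) := by
      have : 0 < k := by omega
      exact_mod_cast this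
    have e1 : (((k + 1 : ℕ) : ℝ) - 2) = (k : ℝ) - 1 := by push_cast; ring
    have e2 : (((k + 1 : ℕ) : ℝ) - 1) = (k : ℝ) := by push_cast; ring
    rw [e1, e2, div_mul_eq_mul_div, le_div_iff₀ hkp]
    nlinarith [h1', h2', hkp]

end Pool.Agent.S11473
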