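import Pool.Statements.S11511
import Pool.Agent.H17R3.DRC

set_option autoImplicit false
open Pool Pool.MP_cdedfe_co

namespace Pool.Agent.S11511

/-- For every 0<c<1 there are ε>0 and C>0 such that, for all large n, any n subsets of an n-element set each of size at least cn contain at least C√n of them whose pairwise intersections all exceed εn. -/
theorem result :
    ∀ c : ℝ, 0 < c → c < 1 →
      ∃ ε : ℝ, 0 < ε ∧ ∃ C : ℝ, 0 < C ∧ ∃ N : ℕ, ∀ n : ℕ, N ≤ n →
        ∀ A : Fin n → Finset (Fin n), (∀ k, c * (n : ℝ) ≤ ((A k).card : ℝ)) →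
          ∃ I : Finset (Fin n), C * Real.sqrt (n : ℝ) ≤ (I.card : ℝ) ∧
            ∀ i ∈ I, ∀ j ∈ I, i ≠ j → ε * (n : ℝ) < (((A i ∩ A j).card : ℕ) : ℝ) := by
  intro c hc hc1
  refine ⟨c ^ 3, by positivity, c / 4, by positivity, 1, ?_⟩
  intro n hn A hA
  have hnR : (1 : ℝ) ≤ (n : ℝ) := by exact_mod_cast hn
  -- the least `j` with `c ^ (2 j) n ≤ 1 / 2`
  have hex : ∃ j : ℕ, c ^ (2 * j) * (n : ℝ) ≤ 1 / 2 := by
    have h2 : c ^ 2 < 1 := by nlinarith
    obtain ⟨j, hj⟩ := exists_pow_lt_of_lt_one (show (0 : ℝ) < 1 / (2 * n) by positivity) h2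
    refine ⟨j, ?_⟩
    rw [pow_mul]
    have : (c ^ 2) ^ j * (n : ℝ) ≤ 1 / (2 * n) * n :=
      mul_le_mul_of_nonneg_right hj.le (by positivity)
    calc (c ^ 2) ^ j * (n : ℝ) ≤ 1 / (2 * n) * n := this
      _ = 1 / 2 := by field_simp
  classical
  let j := Nat.find hex
  have hj : c ^ (2 * j) * (n : ℝ) ≤ 1 / 2 := Nat.find_spec hex
  have hjpos : j ≠ 0 := by
    intro h0
    rw [h0] at hj
    simp at hj
    linarith
  obtain ⟨i, hi⟩ : ∃ i, j = i + 1 := Nat.exists_eq_succ_of_ne_zero hjpos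
  have hi1 : 1 / 2 < c ^ (2 * i) * (n : ℝ) := by
    have := Nat.find_min hex (show i < Nat.find hex by
      have : Nat.find hex = i + 1 := hi
      omega)
    push Not at this
    exact this
  obtain ⟨I, hI, hI2⟩ := Pool.Agent.H17R3.DRC.drc (V := Fin n) (S := Fin n) A c (c ^ 3) hc.le
    (by positivity) (by rw [Fintype.card_fin]; omega) (by simpa using hA) j
  refine ⟨I, ?_, ?_⟩
  · refine le_trans ?_ hI
    rw [Fintype.card_fin]
    -- `c ^ j n - c ^ (3 j) n ^ 2 ≥ c ^ j n / 2`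
    have h1 : c ^ j * (n : ℝ) - (c ^ 3) ^ j * (n : ℝ) ^ 2 =
        c ^ j * n * (1 - c ^ (2 * j) * n) := by
      have : (c ^ 3) ^ j = c ^ j * c ^ (2 * j) := by
        rw [← pow_mul, ← pow_add]
        congr 1
        ring
      rw [this]
      ring
    rw [h1]
    have h2 : c ^ j * n * (1 / 2) ≤ c ^ j * n * (1 - c ^ (2 * j) * n) :=
      mul_le_mul_of_nonneg_left (by linarith) (by positivity)
    refine le_trans ?_ h2
    -- `c ^ i * √n ≥ 1 / 2`
    have h3 : 1 / 2 ≤ c ^ i * Real.sqrt n := by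
      have hs : Real.sqrt n * Real.sqrt n = n := Real.mul_self_sqrt (by positivity)
      have h4 : 1 / 2 < (c ^ i * Real.sqrt n) ^ 2 := by
        calc (1 : ℝ) / 2 < c ^ (2 * i) * (n : ℝ) := hi1
          _ = (c ^ i * Real.sqrt n) ^ 2 := by
            rw [mul_pow, ← pow_mul, sq (Real.sqrt n), hs, mul_comm i 2]
      by_contra hcon
      push Not at hcon
      have h5 : 0 ≤ c ^ i * Real.sqrt n := by positivity
      nlinarith
    have hs : Real.sqrt n * Real.sqrt n = n := Real.mul_self_sqrt (by positivity)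
    have h6 : c ^ j * (n : ℝ) * (1 / 2) = c / 2 * Real.sqrt n * (c ^ i * Real.sqrt n) := by
      rw [hi, pow_succ]
      calc c ^ i * c * (n : ℝ) * (1 / 2) = c ^ i * c * (Real.sqrt n * Real.sqrt n) * (1 / 2) := by
            rw [hs]
        _ = _ := by ring
    rw [h6]
    have h7 : 0 ≤ c / 2 * Real.sqrt n := by positivity
    calc c / 4 * Real.sqrt n = c / 2 * Real.sqrt n * (1 / 2) := by ring
      _ ≤ c / 2 * Real.sqrt n * (c ^ i * Real.sqrt n) := mul_le_mul_of_nonneg_left h3 h7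
  · intro u hu v hv huv
    have := hI2 u hu v hv huv
    rwa [Fintype.card_fin] at this

end Pool.Agent.S11511
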