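import Pool.Statements.S11538
import Pool.Agent.H984R3.Color

set_option autoImplicit false
open Pool Pool.MP_cf6cc5_co

namespace Pool.Agent.S11538

open Pool.Agent.H984R3

lemma exists_param (D : ℕ) : ∃ a : ℕ, 1 ≤ a ∧ 8 * D * a ^ 2 + 8 ≤ 2 ^ a := by
  have h1 : ∀ n : ℕ, 1 ≤ n → n ^ 2 ≤ 4 * 2 ^ n := by
    intro n hn
    have h2 : n < 2 ^ n := Nat.lt_two_pow_self
    induction n with
    | zero => simp
    | succ n ih =>
      rcases Nat.eq_zero_or_pos n with h0 | h0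
      · subst h0; norm_num
      · have h3 := ih h0 Nat.lt_two_pow_self
        rcases Nat.lt_or_ge n 3 with h4 | h4
        · interval_cases n <;> norm_num
        · have h5 : (n + 1) ^ 2 ≤ 2 * n ^ 2 := by nlinarith
          calc (n + 1) ^ 2 ≤ 2 * n ^ 2 := h5
            _ ≤ 2 * (4 * 2 ^ n) := by omega
            _ = 4 * 2 ^ (n + 1) := by ring
  -- take `a = 2 * b` with `b` large: `8 D (2b)^2 + 8 ≤ 4^b`
  refine ⟨2 * (128 * (D + 1)), by omega, ?_⟩
  set b := 128 * (D + 1) with hb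
  have h2 : b < 2 ^ b := Nat.lt_two_pow_self
  have h3 : b ^ 2 ≤ 4 * 2 ^ b := h1 b (by omega)
  have h4 : 128 * D + 128 = b := by omega
  clear_value b
  calc 8 * D * (2 * b) ^ 2 + 8 = 32 * D * b ^ 2 + 8 := by ring
    _ ≤ 32 * D * (4 * 2 ^ b) + 8 := by gcongr
    _ = 128 * D * 2 ^ b + 8 := by ring
    _ ≤ 128 * D * 2 ^ b + 128 * 2 ^ b := by
        have : 1 ≤ 2 ^ b := Nat.one_le_two_pow
        omega
    _ = (128 * D + 128) * 2 ^ b := by rw [Nat.add_mul]
    _ = b * 2 ^ b := by rw [h4]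
    _ ≤ 2 ^ b * 2 ^ b := Nat.mul_le_mul_right _ h2.le
    _ = 2 ^ (2 * b) := by rw [← pow_add, two_mul]

/-- The negation of the preceding statement: For each q ≥ 3 there is c such that every ordered matching M on n vertices has an N ≤ n^(c log n) where every q-colouring of pairs of {0..N-1} contains an order-preserving monochromatic copy of M. -/
theorem result :
    ¬ (∀ q : ℕ, 3 ≤ q → ∃ c : ℝ, ∀ n : ℕ, ∀ M : SimpleGraph (Fin n),
      (∀ v w w' : Fin n, M.Adj v w → M.Adj v w' → w = w') →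
      ∃ N : ℕ, (N : ℝ) ≤ (n : ℝ) ^ (c * Real.log n) ∧
        ∀ col : Fin N → Fin N → Fin q,
          ∃ f : Fin n → Fin N, StrictMono f ∧
            ∃ i : Fin q, ∀ a b : Fin n, a < b → M.Adj a b → col (f a) (f b) = i) := by
  intro hmain
  obtain ⟨c, hc⟩ := hmain 3 (le_refl 3)
  obtain ⟨C0, hC0⟩ := exists_nat_ge c
  set C := C0 + 1 with hCdef
  have hC : c ≤ (C : ℝ) := by rw [hCdef]; push_cast; linarith
  have hC1 : 1 ≤ C := by omega
  obtain ⟨a, ha1, ha⟩ := exists_param (2704 * C)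
  set h := 2704 * C * a with hh
  have hh1 : 1 ≤ h := by
    rw [hh]
    exact Nat.one_le_iff_ne_zero.2 (by positivity)
  have hah : 8 * (a * h) + 8 ≤ 2 ^ a := by
    calc 8 * (a * h) + 8 = 8 * (2704 * C) * a ^ 2 + 8 := by rw [hh]; ring
      _ ≤ 2 ^ a := ha
  have hhah : h ≤ a * h := Nat.le_mul_of_pos_left h ha1
  have hh8 : 8 * (h + 1) ≤ 2 ^ a := by omega
  have hh2 : h ≤ 2 ^ a := by omega
  set ρ := a * h with hρ
  set κ := 26 * (a * h) with hκ
  set H := h * (h + 1) with hH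
  obtain ⟨τ, hτ⟩ := Rect.exists_rect ρ (2 ^ a) (by omega)
  obtain ⟨β, hβ⟩ := Rect.exists_rect (ρ * h) (2 ^ (2 * a)) (by
    have h1 : (8 * (a * h) + 8) ^ 2 ≤ (2 ^ a) ^ 2 := Nat.pow_le_pow_left hah 2
    have h2 : (2 ^ a) ^ 2 = 2 ^ (2 * a) := by rw [← pow_mul, mul_comm]
    rw [h2] at h1
    refine le_trans ?_ h1
    have h3 : h ≤ a * h := hhah
    calc 4 * (ρ * h) + 4 = 4 * ((a * h) * h) + 4 := by rw [hρ]
      _ ≤ 4 * ((a * h) * (a * h)) + 4 := by gcongr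
      _ ≤ (8 * (a * h) + 8) ^ 2 := by nlinarith [Nat.zero_le (a * h)])
  have hk : 0 < 2 ^ κ := by positivity
  obtain ⟨N, hN, hcol⟩ := hc (2 ^ κ * 2 ^ κ) (Color.M (2 ^ κ) hk)
    (fun v w w' => Color.M_unique (2 ^ κ) hk v w w')
  -- the size of `N`
  have hNle : N ≤ (2 ^ ρ) ^ H := by
    have hlog : Real.log ((2 ^ κ * 2 ^ κ : ℕ) : ℝ) = (2 * κ : ℝ) * Real.log 2 := by
      push_cast
      rw [Real.log_mul (by positivity) (by positivity), Real.log_pow]
      ring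
    have hpos : (0 : ℝ) < ((2 ^ κ * 2 ^ κ : ℕ) : ℝ) := by positivity
    have hl2 : Real.log 2 ≤ 1 := by
      have := Real.log_two_lt_d9
      linarith
    have hl0 : 0 < Real.log 2 := Real.log_pos (by norm_num)
    have hkey : (4 * C * κ ^ 2 : ℝ) ≤ (ρ * H : ℕ) := by
      have h1 : 4 * C * κ ^ 2 ≤ ρ * H := by
        calc 4 * C * κ ^ 2 = (2704 * C * a) * (a * h ^ 2) := by rw [hκ]; ring
          _ = h * (a * h ^ 2) := by rw [← hh]
          _ = (a * h) * (h * h) := by ring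
          _ ≤ (a * h) * (h * (h + 1)) := by gcongr; omega
          _ = ρ * H := by rw [hρ, hH]
      exact_mod_cast h1
    have h1 : (N : ℝ) ≤ (((2 ^ ρ) ^ H : ℕ) : ℝ) := by
      calc (N : ℝ) ≤ ((2 ^ κ * 2 ^ κ : ℕ) : ℝ) ^ (c * Real.log ((2 ^ κ * 2 ^ κ : ℕ) : ℝ)) := hN
        _ = Real.exp (Real.log ((2 ^ κ * 2 ^ κ : ℕ) : ℝ)
              * (c * Real.log ((2 ^ κ * 2 ^ κ : ℕ) : ℝ))) := by
            rw [Real.rpow_def_of_pos hpos]
        _ ≤ Real.exp (Real.log 2 * (ρ * H : ℕ)) := by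
            apply Real.exp_le_exp.2
            rw [hlog]
            have h2 : (0 : ℝ) ≤ (2 * κ : ℝ) * Real.log 2 := by positivity
            calc (2 * κ : ℝ) * Real.log 2 * (c * ((2 * κ : ℝ) * Real.log 2))
                = c * ((2 * κ : ℝ) * Real.log 2) ^ 2 := by ring
              _ ≤ C * ((2 * κ : ℝ) * Real.log 2) ^ 2 := by gcongr
              _ = Real.log 2 * ((4 * C * κ ^ 2 : ℝ) * Real.log 2) := by ring
              _ ≤ Real.log 2 * ((4 * C * κ ^ 2 : ℝ) * 1) := by gcongr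
              _ ≤ Real.log 2 * (ρ * H : ℕ) := by
                  rw [mul_one]
                  gcongr
        _ = (((2 ^ ρ) ^ H : ℕ) : ℝ) := by
            rw [← pow_mul]
            push_cast
            rw [← Real.rpow_def_of_pos (by norm_num : (0 : ℝ) < 2)]
            rw [← Nat.cast_mul, Real.rpow_natCast]
    exact_mod_cast h1
  obtain ⟨f, hf, i, hi⟩ := hcol (fun x y => Color.col (2 ^ ρ) h H τ β (x : ℕ) (y : ℕ))
  have hhR : (0 : ℝ) < h := by exact_mod_cast hh1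
  set u : ℝ := 1 + 1 / (h : ℝ) with hu
  have hu1 : 1 ≤ u := by
    have : 0 < 1 / (h : ℝ) := by positivity
    linarith
  have hu2 : 2 ≤ u ^ h := by
    have h1 := one_add_mul_le_pow (a := 1 / (h : ℝ)) (by
      have : 0 < 1 / (h : ℝ) := by positivity
      linarith) h
    have h2 : 1 + (h : ℝ) * (1 / (h : ℝ)) = 2 := by
      field_simp
      norm_num
    rw [h2] at h1
    exact h1
  have hu4 : u ^ h ≤ 4 := by
    have h1 : u ≤ Real.exp (1 / (h : ℝ)) := by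
      have := Real.add_one_le_exp (1 / (h : ℝ))
      linarith
    calc u ^ h ≤ Real.exp (1 / (h : ℝ)) ^ h := by gcongr
      _ = Real.exp ((h : ℝ) * (1 / (h : ℝ))) := by rw [← Real.exp_nat_mul]
      _ = Real.exp 1 := by
          congr 1
          field_simp
      _ ≤ 4 := by
          have := Real.exp_one_lt_d9
          linarith
  refine Color.no_copy hk (R := 2 ^ ρ) (h := h) (H := H) (fun v => (f v : ℕ)) ?_ ρ (2 ^ a)
    (2 ^ (2 * a)) rfl hh1 ?_ Nat.one_le_two_pow τ β hτ hβ (u ^ (4 * a)) ?_ ?_ ?_ ?_ i ?_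
  · intro x y hxy
    exact hf hxy
  · rw [hH]
    exact Nat.le_mul_of_pos_right h (by omega)
  · -- `1 + 1/h ≤ q`
    exact le_self_pow₀ hu1 (by omega)
  · -- `hq2`
    calc ((4 * (h + 1) * (2 * 2 ^ a) * 2 ^ (2 * a) : ℕ) : ℝ)
        = ((8 * (h + 1) * 2 ^ (3 * a) : ℕ) : ℝ) := by
          congr 1
          have : 2 ^ (3 * a) = 2 ^ a * 2 ^ (2 * a) := by rw [← pow_add]; congr 1; ring
          rw [this]; ring
      _ ≤ ((2 ^ a * 2 ^ (3 * a) : ℕ) : ℝ) := by
          exact_mod_cast Nat.mul_le_mul_right _ hh8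
      _ = (2 : ℝ) ^ (4 * a) := by
          push_cast
          rw [← pow_add]; congr 1; ring
      _ ≤ (u ^ h) ^ (4 * a) := by gcongr
      _ = (u ^ (4 * a)) ^ h := by rw [← pow_mul, ← pow_mul, mul_comm]
      _ ≤ (u ^ (4 * a)) ^ (h + 1) := by
          apply pow_le_pow_right₀ (one_le_pow₀ hu1) (by omega)
  · -- `hbig`
    have hqH : (u ^ (4 * a)) ^ H ≤ (2 : ℝ) ^ (8 * a * (h + 1)) := by
      calc (u ^ (4 * a)) ^ H = (u ^ h) ^ (4 * a * (h + 1)) := by
            rw [← pow_mul, ← pow_mul]; congr 1; rw [hH]; ring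
        _ ≤ (4 : ℝ) ^ (4 * a * (h + 1)) := by gcongr
        _ = (2 : ℝ) ^ (8 * a * (h + 1)) := by
            rw [show (4 : ℝ) = 2 ^ 2 by norm_num, ← pow_mul]; congr 1; ring
    have hnat : 4 * (h + 1) * (2 * 2 ^ a) * (h * (2 * 2 ^ a) ^ h * (2 ^ ρ * (2 * 2 ^ κ)))
        ≤ 2 ^ (3 * a + (a + 1) * h + ρ + (κ + 1)) := by
      calc 4 * (h + 1) * (2 * 2 ^ a) * (h * (2 * 2 ^ a) ^ h * (2 ^ ρ * (2 * 2 ^ κ)))
          = (8 * (h + 1)) * 2 ^ a * h * ((2 * 2 ^ a) ^ h) * 2 ^ ρ * (2 * 2 ^ κ) := by ring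
        _ ≤ 2 ^ a * 2 ^ a * 2 ^ a * ((2 * 2 ^ a) ^ h) * 2 ^ ρ * (2 * 2 ^ κ) := by gcongr
        _ = 2 ^ (3 * a + (a + 1) * h + ρ + (κ + 1)) := by
            have e1 : (2 * 2 ^ a) ^ h = 2 ^ ((a + 1) * h) := by
              rw [pow_mul 2 (a + 1) h, pow_succ' 2 a]
            have e2 : 2 * 2 ^ κ = 2 ^ (κ + 1) := by rw [pow_succ']
            rw [e1, e2, ← pow_add, ← pow_add, ← pow_add, ← pow_add, ← pow_add]
            congr 1
            ring
    calc ((4 * (h + 1) * (2 * 2 ^ a) * (h * (2 * 2 ^ a) ^ h * (2 ^ ρ * (2 * 2 ^ κ))) : ℕ) : ℝ)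
          * (u ^ (4 * a)) ^ H
        ≤ ((2 ^ (3 * a + (a + 1) * h + ρ + (κ + 1)) : ℕ) : ℝ)
            * (2 : ℝ) ^ (8 * a * (h + 1)) := by
          have : ((4 * (h + 1) * (2 * 2 ^ a) * (h * (2 * 2 ^ a) ^ h * (2 ^ ρ * (2 * 2 ^ κ))) : ℕ) : ℝ)
              ≤ ((2 ^ (3 * a + (a + 1) * h + ρ + (κ + 1)) : ℕ) : ℝ) := by exact_mod_cast hnat
          gcongr
      _ = (2 : ℝ) ^ (3 * a + (a + 1) * h + ρ + (κ + 1) + 8 * a * (h + 1)) := by
          push_cast
          rw [← pow_add]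
      _ < (2 : ℝ) ^ (κ + κ) := by
          apply pow_lt_pow_right₀ (by norm_num)
          rw [hρ, hκ]
          have e1 : a ≤ a * h := Nat.le_mul_of_pos_right a hh1
          have e2 : 1 ≤ a * h := by nlinarith
          have e3 : (a + 1) * h = a * h + h := by ring
          have e4 : 8 * a * (h + 1) = 8 * (a * h) + 8 * a := by ring
          rw [e3, e4]
          omega
      _ = ((2 ^ κ * 2 ^ κ : ℕ) : ℝ) := by
          push_cast
          rw [← pow_add]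
  · intro v
    exact lt_of_lt_of_le (f v).2 hNle
  · intro x y hxy hadj
    exact hi x y hxy hadj

end Pool.Agent.S11538
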