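import Pool.Statements.S11541
import Pool.Agent.Helper4.Main2

set_option autoImplicit false
open Pointwise
open Pool Pool.MP_cf8024_co

namespace Pool.Agent.S11541

/-- For every K>0 there is C such that for all n≥1, every nonempty A in F_2^n with density at least 1/2−K/√n has sumset A+A containing a coset x+V of a subspace V of codimension at most C. -/
theorem result :
    ∀ K : ℝ, 0 < K → ∃ C : ℕ, ∀ n : ℕ, 1 ≤ n →
      ∀ A : Finset (Fin n → ZMod 2), A.Nonempty →
        (1 / 2 : ℝ) - K / Real.sqrt (n : ℝ) ≤ (A.card : ℝ) / (2 : ℝ) ^ n →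
          ∃ V : Submodule (ZMod 2) (Fin n → ZMod 2), ∃ x : Fin n → ZMod 2,
            n ≤ Module.finrank (ZMod 2) V + C ∧
            ∀ v ∈ V, x + v ∈ A + A := by
  intro K hK
  refine ⟨⌊200 * K ^ 2⌋₊ + 1, fun n hn A hA hcard => ?_⟩
  have hn0 : (0 : ℝ) < n := by exact_mod_cast hn
  have hs : 0 < Real.sqrt (n : ℝ) := Real.sqrt_pos.2 hn0
  set ε : ℝ := K / Real.sqrt (n : ℝ) with hε
  have hε0 : 0 < ε := by positivity
  have hcard' : (1 / 2 - ε) * 2 ^ n ≤ (A.card : ℝ) := by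
    rw [le_div_iff₀ (by positivity)] at hcard
    exact hcard
  have hkey : 200 * ε ^ 2 * n = 200 * K ^ 2 := by
    rw [hε, div_pow, Real.sq_sqrt hn0.le]
    field_simp
  obtain ⟨V, hV, hV2⟩ := Pool.Agent.Helper4.subspace_in_sumset2 A hA ε hε0 hcard'
    (⌊200 * K ^ 2⌋₊ + 1) (by
      rw [hkey]
      push_cast
      exact Nat.lt_floor_add_one (200 * K ^ 2))
  refine ⟨V, 0, hV, fun v hv => ?_⟩
  rw [zero_add]
  exact hV2 v hv

end Pool.Agent.S11541
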