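import Pool.Statements.S11608
import Pool.Agent.H29R3.UniqFact

set_option autoImplicit false
open Pool Pool.MP_d1f9c8_co

namespace Pool.Agent.S11608

open Pool.Agent.H29R3.UniqFact

lemma Ah_RC_induce {V : Type} [Finite V] (G : SimpleGraph V) (S : Set V) :
    Ah RC (G.induce S) ↔ (S.ncard ≤ 4 ∨ ∃ T : Set V, T ⊆ S ∧ T.ncard ≤ 3 ∧ (S \ T).ncard ≤ 3 ∧
      (∀ u ∈ T, ∀ v ∈ T, ¬ G.Adj u v) ∧ (∀ u ∈ S \ T, ∀ v ∈ S \ T, ¬ G.Adj u v)) := by
  constructor
  · rintro ⟨r, K, hK, ⟨e⟩⟩
    have hc : S.ncard = r := by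
      rw [← Nat.card_coe_set_eq, Nat.card_congr e.toEquiv, Nat.card_eq_fintype_card, Fintype.card_fin]
    rcases hK with h | ⟨T, h1, h2, h3, h4⟩
    · left; omega
    · right
      refine ⟨(fun x : Fin r => (e.symm x).1) '' T, ?_, ?_, ?_, ?_, ?_⟩
      · rintro _ ⟨x, -, rfl⟩
        exact (e.symm x).2
      · exact (Set.ncard_image_le (Set.toFinite _)).trans h1
      · refine le_trans ?_ h2
        refine le_trans (Set.ncard_le_ncard (t := (fun x : Fin r => (e.symm x).1) '' Tᶜ) ?_
          (Set.toFinite _)) (Set.ncard_image_le (Set.toFinite _))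
        rintro x ⟨hx1, hx2⟩
        refine ⟨e ⟨x, hx1⟩, ?_, ?_⟩
        · intro hT
          exact hx2 ⟨_, hT, by simp⟩
        · simp
      · rintro _ ⟨x, hx, rfl⟩ _ ⟨y, hy, rfl⟩ hadj
        have h5 : (G.induce S).Adj (e.symm x) (e.symm y) := hadj
        rw [e.symm.map_rel_iff] at h5
        exact h3 x hx y hy h5
      · intro u hu v hv hadj
        have h5 : (G.induce S).Adj ⟨u, hu.1⟩ ⟨v, hv.1⟩ := hadj
        rw [← e.map_rel_iff] at h5
        refine h4 _ ?_ _ ?_ h5
        · intro hT
          exact hu.2 ⟨_, hT, by simp⟩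
        · intro hT
          exact hv.2 ⟨_, hT, by simp⟩
  · intro h
    obtain ⟨b, ⟨g⟩⟩ := Finite.exists_equiv_fin S
    have hc : S.ncard = b := by
      rw [← Nat.card_coe_set_eq, Nat.card_congr g, Nat.card_eq_fintype_card, Fintype.card_fin]
    refine ⟨b, (G.induce S).comap g.symm, ?_, ⟨⟨g, by intro a b; simp [SimpleGraph.comap_adj]⟩⟩⟩
    rcases h with h | ⟨T, h0, h1, h2, h3, h4⟩
    · left; omega
    · right
      refine ⟨{x | (g.symm x).1 ∈ T}, ?_, ?_, ?_, ?_⟩
      · refine le_trans ?_ h1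
        exact Set.ncard_le_ncard_of_injOn (fun x => (g.symm x).1) (fun x hx => hx)
          (fun x _ y _ h => g.symm.injective (Subtype.ext h)) (Set.toFinite _)
      · refine le_trans ?_ h2
        exact Set.ncard_le_ncard_of_injOn (fun x => (g.symm x).1)
          (fun x hx => ⟨(g.symm x).2, hx⟩)
          (fun x _ y _ h => g.symm.injective (Subtype.ext h)) (Set.toFinite _)
      · intro u hu v hv hadj
        exact h3 _ hu _ hv hadj
      · intro u hu v hv hadj
        exact h4 _ ⟨(g.symm u).2, hu⟩ _ ⟨(g.symm v).2, hv⟩ hadj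

/-- the product identity `P · P · P = P · R` -/
lemma cube_iff {n : ℕ} (G : SimpleGraph (Fin n)) :
    MPr (fun _ : Fin 3 => PC) G ↔ ∃ S : Set (Fin n), Ah PC (G.induce S) ∧ Ah RC (G.induce Sᶜ) := by
  classical
  constructor
  · rintro ⟨c, hc⟩
    have hc' := fun i => (Ah_PC_induce G _).1 (hc i)
    have key : ∀ i j k : Fin 3, i ≠ j → i ≠ k → j ≠ k →
        (({v | c v = i}.ncard ≤ 2 ∧ {v | c v = j}.ncard ≤ 2) ∨
        (({v | c v = i}.ncard ≤ 3 ∧ ∀ u ∈ {v | c v = i}, ∀ v ∈ {v | c v = i}, ¬ G.Adj u v) ∧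
        ({v | c v = j}.ncard ≤ 3 ∧ ∀ u ∈ {v | c v = j}, ∀ v ∈ {v | c v = j}, ¬ G.Adj u v))) →
        ∃ S : Set (Fin n), Ah PC (G.induce S) ∧ Ah RC (G.induce Sᶜ) := by
      intro i j k hij hik hjk h
      have hcompl : {v | c v = k}ᶜ = {v | c v = i} ∪ {v | c v = j} := by
        ext v
        simp only [Set.mem_compl_iff, Set.mem_ofPred_eq, Set.mem_union]
        generalize c v = x
        clear h hc hc'
        revert i j k x
        decide
      have hdiff : {v | c v = k}ᶜ \ {v | c v = i} = {v | c v = j} := by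
        rw [hcompl]
        ext v
        simp only [Set.mem_sdiff, Set.mem_ofPred_eq, Set.mem_union]
        constructor
        · rintro ⟨h1 | h1, h2⟩
          · exact absurd h1 h2
          · exact h1
        · intro h1
          exact ⟨Or.inr h1, fun h2 => hij (h2.symm.trans h1)⟩
      refine ⟨{v | c v = k}, hc k, ?_⟩
      rw [Ah_RC_induce]
      rcases h with ⟨h1, h2⟩ | ⟨⟨h1, h2⟩, ⟨h3, h4⟩⟩
      · left
        rw [hcompl]
        exact (Set.ncard_union_le _ _).trans (by omega)
      · right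
        refine ⟨{v | c v = i}, ?_, h1, ?_, h2, ?_⟩
        · rw [hcompl]; exact Set.subset_union_left
        · rw [hdiff]; exact h3
        · rw [hdiff]; exact h4
    rcases hc' 0 with h0 | h0 <;> rcases hc' 1 with h1 | h1 <;> rcases hc' 2 with h2 | h2
    · exact key 0 1 2 (by decide) (by decide) (by decide) (Or.inl ⟨h0, h1⟩)
    · exact key 0 1 2 (by decide) (by decide) (by decide) (Or.inl ⟨h0, h1⟩)
    · exact key 0 2 1 (by decide) (by decide) (by decide) (Or.inl ⟨h0, h2⟩)
    · exact key 1 2 0 (by decide) (by decide) (by decide) (Or.inr ⟨h1, h2⟩)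
    · exact key 1 2 0 (by decide) (by decide) (by decide) (Or.inl ⟨h1, h2⟩)
    · exact key 0 2 1 (by decide) (by decide) (by decide) (Or.inr ⟨h0, h2⟩)
    · exact key 0 1 2 (by decide) (by decide) (by decide) (Or.inr ⟨h0, h1⟩)
    · exact key 0 1 2 (by decide) (by decide) (by decide) (Or.inr ⟨h0, h1⟩)
  · rintro ⟨S, h1, h2⟩
    -- split the complement into two sets
    have hT : ∃ T : Set (Fin n), T ⊆ Sᶜ ∧ Ah PC (G.induce T) ∧ Ah PC (G.induce (Sᶜ \ T)) := by
      rw [Ah_RC_induce] at h2
      rcases h2 with h2 | ⟨T, h0, h3, h4, h5, h6⟩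
      · by_cases hle : Sᶜ.ncard ≤ 2
        · refine ⟨∅, Set.empty_subset _, ?_, ?_⟩
          · rw [Ah_PC_induce]; left; simp
          · rw [Ah_PC_induce]; left; simpa using hle
        · obtain ⟨T, hT1, hT2⟩ := Set.exists_subset_card_eq (s := Sᶜ) (n := 2) (by omega)
          refine ⟨T, hT1, ?_, ?_⟩
          · rw [Ah_PC_induce]; left; omega
          · rw [Ah_PC_induce]; left
            rw [Set.ncard_diff hT1 (Set.toFinite _)]
            omega
      · refine ⟨T, h0, ?_, ?_⟩
        · rw [Ah_PC_induce]; right; exact ⟨h3, h5⟩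
        · rw [Ah_PC_induce]; right; exact ⟨h4, h6⟩
    obtain ⟨T, hT0, hT1, hT2⟩ := hT
    refine ⟨fun v => if v ∈ S then 0 else if v ∈ T then 1 else 2, ?_⟩
    intro i
    fin_cases i
    · convert h1 using 2
      all_goals first
        | (ext v
           simp only [Fin.zero_eta, Set.mem_ofPred_eq]
           by_cases hS : v ∈ S
           · simp [hS]
           · by_cases hT : v ∈ T
             · simp [hS, hT]
             · simp [hS, hT])
        | skip
    · convert hT1 using 2
      all_goals first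
        | (ext v
           simp only [Fin.mk_one, Set.mem_ofPred_eq]
           by_cases hS : v ∈ S
           · have : v ∉ T := fun h => hT0 h hS
             simp [hS, this]
           · by_cases hT : v ∈ T
             · simp [hS, hT]
             · simp [hS, hT])
        | skip
    · convert hT2 using 2
      all_goals first
        | (ext v
           simp only [Fin.reduceFinMk, Set.mem_ofPred_eq, Set.mem_sdiff, Set.mem_compl_iff]
           by_cases hS : v ∈ S
           · simp [hS]
           · by_cases hT : v ∈ T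
             · simp [hS, hT]
             · simp [hS, hT])
        | skip

lemma square_ne : ¬ ∀ (n : ℕ) (G : SimpleGraph (Fin n)), (RC n G ↔ MPr (fun _ : Fin 2 => PC) G) := by
  intro h
  let G : SimpleGraph (Fin 5) := SimpleGraph.fromRel (fun u _ => (u : ℕ) < 2)
  have hadj : ∀ u v : Fin 5, G.Adj u v ↔ (u ≠ v ∧ ((u : ℕ) < 2 ∨ (v : ℕ) < 2)) := by
    intro u v
    exact SimpleGraph.fromRel_adj _ _ _
  have h1 : MPr (fun _ : Fin 2 => PC) G := by
    refine ⟨fun v => if (v : ℕ) < 2 then 0 else 1, ?_⟩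
    intro i
    rw [Ah_PC_induce]
    fin_cases i
    · left
      have : {v : Fin 5 | (if (v : ℕ) < 2 then (0 : Fin 2) else 1) = 0} = ({0, 1} : Set (Fin 5)) := by
        ext v
        fin_cases v <;> simp
      show {v : Fin 5 | (if (v : ℕ) < 2 then (0 : Fin 2) else 1) = 0}.ncard ≤ 2
      rw [this]
      refine (Set.ncard_insert_le _ _).trans ?_
      rw [Set.ncard_singleton]
    · right
      have : {v : Fin 5 | (if (v : ℕ) < 2 then (0 : Fin 2) else 1) = 1} = ({2, 3, 4} : Set (Fin 5)) := by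
        ext v
        fin_cases v <;> simp
      show {v : Fin 5 | (if (v : ℕ) < 2 then (0 : Fin 2) else 1) = 1}.ncard ≤ 3 ∧
        ∀ u ∈ {v : Fin 5 | (if (v : ℕ) < 2 then (0 : Fin 2) else 1) = 1},
        ∀ w ∈ {v : Fin 5 | (if (v : ℕ) < 2 then (0 : Fin 2) else 1) = 1}, ¬ G.Adj u w
      rw [this]
      constructor
      · refine (Set.ncard_insert_le _ _).trans ?_
        have h5 := Set.ncard_insert_le (3 : Fin 5) {4}
        rw [Set.ncard_singleton] at h5
        omega
      · intro u hu v hv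
        rw [hadj]
        revert u v
        simp only [Set.mem_insert_iff, Set.mem_singleton_iff]
        decide
  have h2 := (h 5 G).2 h1
  rcases h2 with h2 | ⟨S, -, -, h3, h4⟩
  · omega
  · have a01 : G.Adj 0 1 := (hadj _ _).2 (by decide)
    have a02 : G.Adj 0 2 := (hadj _ _).2 (by decide)
    have a12 : G.Adj 1 2 := (hadj _ _).2 (by decide)
    by_cases s0 : (0 : Fin 5) ∈ S <;> by_cases s1 : (1 : Fin 5) ∈ S <;> by_cases s2 : (2 : Fin 5) ∈ S
    · exact h3 _ s0 _ s1 a01
    · exact h3 _ s0 _ s1 a01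
    · exact h3 _ s0 _ s2 a02
    · exact h4 _ s1 _ s2 a12
    · exact h3 _ s1 _ s2 a12
    · exact h4 _ s0 _ s2 a02
    · exact h4 _ s0 _ s1 a01
    · exact h4 _ s0 _ s1 a01

/-- The negation of the preceding statement: Among subgraph-closed classes of finite graphs, with product = vertex partition into parts in the factors, any two factorizations of a class into irreducible factors (contain K1, not a product of two such classes) agree up to reordering. -/
theorem result :
    ¬ (∀ (m k : ℕ) (Ps : Fin m → (n : ℕ) → SimpleGraph (Fin n) → Prop)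
      (Qs : Fin k → (n : ℕ) → SimpleGraph (Fin n) → Prop),
      (∀ i : Fin m,
        (∀ (a b : ℕ) (G : SimpleGraph (Fin a)) (H : SimpleGraph (Fin b)) (f : H →g G),
          Function.Injective f → Ps i a G → Ps i b H) ∧
        Ps i 1 ⊥ ∧
        ∀ A B : (n : ℕ) → SimpleGraph (Fin n) → Prop,
          (∀ (a b : ℕ) (G : SimpleGraph (Fin a)) (H : SimpleGraph (Fin b)) (f : H →g G),
            Function.Injective f → A a G → A b H) →
          (∀ (a b : ℕ) (G : SimpleGraph (Fin a)) (H : SimpleGraph (Fin b)) (f : H →g G),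
            Function.Injective f → B a G → B b H) →
          A 1 ⊥ → B 1 ⊥ →
          ¬ ∀ (n : ℕ) (G : SimpleGraph (Fin n)),
            (Ps i n G ↔ ∃ S : Set (Fin n),
              (∃ (r : ℕ) (K : SimpleGraph (Fin r)), A r K ∧ Nonempty (G.induce S ≃g K)) ∧
              (∃ (r : ℕ) (K : SimpleGraph (Fin r)), B r K ∧ Nonempty (G.induce Sᶜ ≃g K)))) →
      (∀ j : Fin k,
        (∀ (a b : ℕ) (G : SimpleGraph (Fin a)) (H : SimpleGraph (Fin b)) (f : H →g G),
          Function.Injective f → Qs j a G → Qs j b H) ∧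
        Qs j 1 ⊥ ∧
        ∀ A B : (n : ℕ) → SimpleGraph (Fin n) → Prop,
          (∀ (a b : ℕ) (G : SimpleGraph (Fin a)) (H : SimpleGraph (Fin b)) (f : H →g G),
            Function.Injective f → A a G → A b H) →
          (∀ (a b : ℕ) (G : SimpleGraph (Fin a)) (H : SimpleGraph (Fin b)) (f : H →g G),
            Function.Injective f → B a G → B b H) →
          A 1 ⊥ → B 1 ⊥ →
          ¬ ∀ (n : ℕ) (G : SimpleGraph (Fin n)),
            (Qs j n G ↔ ∃ S : Set (Fin n),
              (∃ (r : ℕ) (K : SimpleGraph (Fin r)), A r K ∧ Nonempty (G.induce S ≃g K)) ∧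
              (∃ (r : ℕ) (K : SimpleGraph (Fin r)), B r K ∧ Nonempty (G.induce Sᶜ ≃g K)))) →
      (∀ (n : ℕ) (G : SimpleGraph (Fin n)),
        (∃ c : Fin n → Fin m, ∀ i : Fin m, ∃ (r : ℕ) (K : SimpleGraph (Fin r)),
            Ps i r K ∧ Nonempty (G.induce {v | c v = i} ≃g K)) ↔
        (∃ c : Fin n → Fin k, ∀ j : Fin k, ∃ (r : ℕ) (K : SimpleGraph (Fin r)),
            Qs j r K ∧ Nonempty (G.induce {v | c v = j} ≃g K))) →
      ∃ σ : Fin m ≃ Fin k, ∀ (i : Fin m) (n : ℕ) (G : SimpleGraph (Fin n)),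
        (Ps i n G ↔ Qs (σ i) n G)) := by
  intro H
  have hbR : ∀ (n : ℕ) (G : SimpleGraph (Fin n)), RC n G → n ≤ 6 := by
    intro n G h
    rcases h with h | ⟨S, h1, h2, -, -⟩
    · omega
    · have hcard : S.ncard + Sᶜ.ncard = n := by
        rw [Set.ncard_add_ncard_compl, Nat.card_eq_fintype_card, Fintype.card_fin]
      omega
  obtain ⟨m, RR, hRR, hR⟩ := exists_fact 6 RC RC_hered (Or.inl (by norm_num)) hbR
  obtain ⟨σ, hσ⟩ := H 3 (1 + m) (fun _ => PC) (Fin.append (fun _ : Fin 1 => PC) RR)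
    (fun _ => PC_irr)
    (fun i => by
      refine Fin.addCases (fun i => ?_) (fun j => ?_) i
      · rw [Fin.append_left]; exact PC_irr
      · rw [Fin.append_right]; exact hRR j)
    (fun n G => by
      have h1 := cube_iff G
      have h2 := MPr_append (Ps := fun _ : Fin 1 => PC) (Qs := RR) (fun _ => PC_hered)
        (fun i => (hRR i).1) G
      refine h1.trans (Iff.trans ?_ h2.symm)
      refine exists_congr fun S => ?_
      rw [MPr_one PC_hered, Ah_iff_MPr (fun i => (hRR i).1) hR])
  have hcard := Fintype.card_congr σ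
  rw [Fintype.card_fin, Fintype.card_fin] at hcard
  obtain rfl : m = 2 := by omega
  have hRR2 : RR = fun _ => PC := by
    funext j n G
    have h := hσ (σ.symm (Fin.natAdd 1 j)) n G
    rw [Equiv.apply_symm_apply, Fin.append_right] at h
    exact propext h.symm
  subst hRR2
  exact square_ne hR

end Pool.Agent.S11608
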