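import Pool.Statements.S11612
import Pool.Agent.H430R3.Helly

set_option autoImplicit false
open Pool Pool.MP_d20af1_co

namespace Pool.Agent.S11612

open Pool.Agent.H430R3

/-- `v_i = i` for `i < 5` form a pentagon, `w_i = 5 + i` is joined to `v_{i-1}` and `v_{i+1}`. -/
def adjB (a b : Fin 10) : Bool :=
  if a.val < 5 then
    if b.val < 5 then (a.val + 1) % 5 == b.val || (b.val + 1) % 5 == a.val
    else (b.val + 1) % 5 == a.val || (b.val + 4) % 5 == a.val
  else
    if b.val < 5 then (a.val + 1) % 5 == b.val || (a.val + 4) % 5 == b.val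
    else false

/-- The complete graph on five vertices, five of whose edges are subdivided. -/
def G : SimpleGraph (Fin 10) where
  Adj a b := adjB a b = true
  symm := ⟨by decide⟩
  loopless := ⟨by decide⟩

instance : DecidableRel G.Adj := fun a b => inferInstanceAs (Decidable (adjB a b = true))

lemma star_conn {n : ℕ} (r : Fin n) (S : Set (Fin n)) (h : r ∈ S ∨ ∃ x, S = {x}) :
    ((SimpleGraph.starGraph r).induce S).Connected := by
  rcases h with h | ⟨x, rfl⟩
  · rw [SimpleGraph.connected_iff_exists_forall_reachable]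
    refine ⟨⟨r, h⟩, fun w => ?_⟩
    by_cases hw : (w : Fin n) = r
    · have : w = ⟨r, h⟩ := Subtype.ext hw
      rw [this]
    · apply SimpleGraph.Adj.reachable
      show (SimpleGraph.starGraph r).Adj r w
      rw [SimpleGraph.starGraph_adj]
      exact ⟨fun e => hw e.symm, Or.inl rfl⟩
  · haveI : Nonempty ({x} : Set (Fin n)) := ⟨⟨x, rfl⟩⟩
    haveI : Subsingleton ({x} : Set (Fin n)) := ⟨fun a b => Subtype.ext (a.2.trans b.2.symm)⟩
    exact { preconnected := fun a b => by rw [Subsingleton.elim a b] }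

/-- first decomposition -/
def B1 : Fin 6 → Finset (Fin 10) :=
  ![{0, 1, 2, 3, 4}, {5, 4, 1}, {6, 0, 2}, {7, 1, 3}, {8, 2, 4}, {9, 3, 0}]

/-- second decomposition -/
def B2 : Fin 2 → Finset (Fin 10) :=
  ![{0, 5, 2, 3, 1, 7, 6}, {0, 5, 2, 3, 4, 8, 9}]

/-- colouring -/
def col : Fin 2 → Fin 10 → Fin 2 :=
  ![fun x => if x = 1 ∨ x = 3 ∨ x = 6 then 0 else 1,
    fun x => if x = 4 ∨ x = 2 ∨ x = 9 then 0 else 1]

lemma conn1 (v : Fin 10) : ((SimpleGraph.starGraph (0 : Fin 6)).induce
    {i : Fin 6 | v ∈ B1 i}).Connected := by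
  apply star_conn
  have h : v ∈ B1 0 ∨ ∃ x, ∀ i, v ∈ B1 i ↔ i = x := by
    revert v; decide
  rcases h with h | ⟨x, hx⟩
  · exact Or.inl h
  · right
    refine ⟨x, ?_⟩
    ext i
    simp only [Set.mem_setOf_eq, Set.mem_singleton_iff]
    exact hx i

lemma conn2 (v : Fin 10) : ((SimpleGraph.starGraph (0 : Fin 2)).induce
    {i : Fin 2 | v ∈ B2 i}).Connected := by
  apply star_conn
  have h : v ∈ B2 0 ∨ ∃ x, ∀ i, v ∈ B2 i ↔ i = x := by
    revert v; decide
  rcases h with h | ⟨x, hx⟩
  · exact Or.inl h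
  · right
    refine ⟨x, ?_⟩
    ext i
    simp only [Set.mem_setOf_eq, Set.mem_singleton_iff]
    exact hx i

/-- The negation of the preceding statement: For every finite graph G and all a, k: if G has a tree decomposition whose bags all have independence number at most a, and one whose bags all induce k-colorable subgraphs, then G has a tree decomposition with all bags of size at most a·k. -/
theorem result :
    ¬ (∀ (V : Type) [Fintype V] (G : SimpleGraph V) (a k : ℕ),
      (∃ (n : ℕ) (T : SimpleGraph (Fin n)) (B : Fin n → Finset V),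
        T.IsTree ∧
        (∀ u v : V, G.Adj u v → ∃ i, u ∈ B i ∧ v ∈ B i) ∧
        (∀ v : V, (T.induce {i : Fin n | v ∈ B i}).Connected) ∧
        (∀ i : Fin n, ∀ S : Finset V, S ⊆ B i → G.IsIndepSet (S : Set V) → S.card ≤ a)) →
      (∃ (n : ℕ) (T : SimpleGraph (Fin n)) (B : Fin n → Finset V),
        T.IsTree ∧
        (∀ u v : V, G.Adj u v → ∃ i, u ∈ B i ∧ v ∈ B i) ∧
        (∀ v : V, (T.induce {i : Fin n | v ∈ B i}).Connected) ∧
        (∀ i : Fin n, (G.induce (B i : Set V)).Colorable k)) →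
      (∃ (n : ℕ) (T : SimpleGraph (Fin n)) (B : Fin n → Finset V),
        T.IsTree ∧
        (∀ u v : V, G.Adj u v → ∃ i, u ∈ B i ∧ v ∈ B i) ∧
        (∀ v : V, (T.induce {i : Fin n | v ∈ B i}).Connected) ∧
        (∀ i : Fin n, (B i).card ≤ a * k))) := by
  intro H
  obtain ⟨n, T, B, hT, hadj, hconn, hcard⟩ := H (Fin 10) G 2 2
    ⟨6, SimpleGraph.starGraph 0, B1, SimpleGraph.isTree_starGraph 0, by decide, conn1, by
      intro i S hS hI
      have key : ∀ i, ∀ S ∈ (B1 i).powerset, (∀ x ∈ S, ∀ y ∈ S, ¬ G.Adj x y) → S.card ≤ 2 := by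
        decide +kernel
      refine key i S (Finset.mem_powerset.2 hS) fun x hx y hy hxy => ?_
      exact hI (by exact_mod_cast hx) (by exact_mod_cast hy) hxy.ne hxy⟩
    ⟨2, SimpleGraph.starGraph 0, B2, SimpleGraph.isTree_starGraph 0, by decide, conn2, by
      intro i
      refine ⟨SimpleGraph.Coloring.mk (fun x => col i x.1) ?_⟩
      intro x y hxy
      have key : ∀ i, ∀ a ∈ B2 i, ∀ b ∈ B2 i, G.Adj a b → col i a ≠ col i b := by
        decide +kernel
      exact key i x.1 (by exact_mod_cast x.2) y.1 (by exact_mod_cast y.2) hxy⟩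
  -- branch sets {v_i, w_{i+1}}
  let w : Fin 5 → Fin 10 := ![6, 7, 8, 9, 5]
  let v : Fin 5 → Fin 10 := ![0, 1, 2, 3, 4]
  have hvw : ∀ i, G.Adj (v i) (w i) := by decide
  have hpair : ∀ i j : Fin 5, ∃ x ∈ ({v i, w i} : Finset (Fin 10)),
      ∃ y ∈ ({v j, w j} : Finset (Fin 10)), x = y ∨ G.Adj x y := by decide
  obtain ⟨t, ht⟩ := helly hT (fun i : Fin 5 => {s | v i ∈ B s} ∪ {s | w i ∈ B s})
    (fun i => by
      apply SimpleGraph.induce_union_connected (hconn _).preconnected (hconn _).preconnected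
      obtain ⟨s, hs1, hs2⟩ := hadj _ _ (hvw i)
      exact ⟨s, hs1, hs2⟩)
    (fun i j => by
      obtain ⟨x, hx, y, hy, hxy⟩ := hpair i j
      have hmem : ∀ (i : Fin 5) (x : Fin 10), x ∈ ({v i, w i} : Finset (Fin 10)) →
          ∀ s, x ∈ B s → s ∈ ({s | v i ∈ B s} ∪ {s | w i ∈ B s} : Set (Fin n)) := by
        intro i x hx s hs
        rw [Finset.mem_insert, Finset.mem_singleton] at hx
        rcases hx with rfl | rfl
        · exact Or.inl hs
        · exact Or.inr hs
      rcases hxy with rfl | hxy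
      · obtain ⟨⟨s, hs⟩⟩ := (hconn x).nonempty
        exact ⟨s, hmem i x hx s hs, hmem j x hy s hs⟩
      · obtain ⟨s, hs1, hs2⟩ := hadj _ _ hxy
        exact ⟨s, hmem i x hx s hs1, hmem j y hy s hs2⟩)
  -- the bag at t has at least five elements
  have h5 : 5 ≤ (B t).card := by
    choose f hf using fun i : Fin 5 => (show ∃ x, x ∈ B t ∧ (x = v i ∨ x = w i) by
      rcases ht i with h | h
      · exact ⟨_, h, Or.inl rfl⟩
      · exact ⟨_, h, Or.inr rfl⟩)
    have hinj : Function.Injective f := by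
      intro i j hij
      have h1 := (hf i).2
      have h2 := (hf j).2
      rw [hij] at h1
      have key : ∀ i j : Fin 5, ∀ x : Fin 10, (x = v i ∨ x = w i) → (x = v j ∨ x = w j) →
          i = j := by decide
      exact key i j _ h1 h2
    have := Finset.card_le_card_of_injOn (s := Finset.univ) (t := B t) f
      (fun i _ => (hf i).1) (hinj.injOn)
    simpa using this
  have := hcard t
  omega

end Pool.Agent.S11612
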