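import Pool.Statements.S11622
import Pool.Agent.H377R3.EN.Spec
import Pool.Agent.H377R3.EN.Tree

set_option autoImplicit false
open Pool Pool.MP_d26300_co

namespace Pool.Agent.S11622

open Pool.Agent.H377R3.EN Matrix

lemma transport {V : Type} [Fintype V] [DecidableEq V] (G : SimpleGraph V) [DecidableRel G.Adj]
    (hG : G.IsTree) (N : ℕ) (hN : Fintype.card V = N) :
    ∃ (T : SimpleGraph (Fin N)) (_ : DecidableRel T.Adj), T.IsTree ∧
      (T.adjMatrix ℝ).charpoly = (G.adjMatrix ℝ).charpoly := by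
  let e : V ≃ Fin N := Fintype.equivFinOfCardEq hN
  refine ⟨G.comap e.symm, fun a b => inferInstanceAs (Decidable (G.Adj (e.symm a) (e.symm b))),
    ?_, ?_⟩
  · exact (SimpleGraph.Iso.comap e.symm G).isTree_iff.mpr hG
  · rw [← Matrix.charpoly_reindex e]
    congr 1

/-! ### the tree `T`: corona of a star -/

abbrev VT : Type := Fin 202 ⊕ Fin 202

def pT : VT → VT
  | Sum.inl _ => Sum.inl 0
  | Sum.inr i => Sum.inl i

def rkT : VT → ℕ
  | Sum.inl i => if i = 0 then 0 else 1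
  | Sum.inr _ => 2

lemma rkT_lt (v : VT) (hv : v ≠ Sum.inl 0) : rkT (pT v) < rkT v := by
  rcases v with i | i
  · have hi : i ≠ 0 := fun h => hv (by rw [h])
    simp [pT, rkT, hi]
  · simp only [pT, rkT]
    split_ifs <;> omega

noncomputable instance : DecidableRel (pg pT (Sum.inl 0)).Adj := Classical.decRel _

noncomputable def AT : Matrix VT VT ℝ := (pg pT (Sum.inl 0)).adjMatrix ℝ

lemma AT_charpoly : (pg pT (Sum.inl 0)).adjMatrix ℝ = AT := rfl

lemma AT_apply (a b : VT) : AT a b = if (pg pT (Sum.inl 0)).Adj a b then 1 else 0 := rfl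

lemma AT_herm : AT.IsHermitian := by
  have := (pg pT (Sum.inl 0)).isSymm_adjMatrix (α := ℝ)
  rw [Matrix.IsHermitian, Matrix.conjTranspose_eq_transpose_of_trivial]
  exact this

lemma energy_T : (AT.charpoly.roots.map (fun x : ℝ => |x|)).sum ≤ 434 := by
  obtain ⟨W, hs, hn, he⟩ := energy_upper AT_herm
  rw [he]
  unfold AT
  rw [pg_sum pT _ rkT rkT_lt W hs]
  have hle1 : ∀ a b, W a b ≤ 1 := by
    intro a b
    have h1 : W a b ^ 2 ≤ ∑ b, W a b ^ 2 :=
      Finset.single_le_sum (f := fun b => W a b ^ 2) (fun _ _ => sq_nonneg _) (Finset.mem_univ b)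
    nlinarith [hn a]
  have hsum : ∑ v ∈ Finset.univ.erase (Sum.inl 0 : VT), W v (pT v)
      = ∑ i ∈ Finset.univ.erase (0 : Fin 202), W (Sum.inl 0) (Sum.inl i)
        + ∑ i : Fin 202, W (Sum.inr i) (Sum.inl i) := by
    have h1 := Finset.sum_erase_add (Finset.univ : Finset VT) (fun v => W v (pT v))
      (Finset.mem_univ (Sum.inl 0))
    have h2 := Finset.sum_erase_add (Finset.univ : Finset (Fin 202))
      (fun i => W (Sum.inl 0) (Sum.inl i)) (Finset.mem_univ 0)
    rw [Fintype.sum_sum_type] at h1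
    simp only [pT] at h1
    have h3 : ∑ i : Fin 202, W (Sum.inl i) (Sum.inl 0) = ∑ i, W (Sum.inl 0) (Sum.inl i) := by
      apply Finset.sum_congr rfl
      intro i _
      exact hs _ _
    simp only [pT]
    linarith
  rw [hsum]
  have hA : ∑ i : Fin 202, W (Sum.inr i) (Sum.inl i) ≤ 202 := by
    calc ∑ i : Fin 202, W (Sum.inr i) (Sum.inl i) ≤ ∑ i : Fin 202, (1 : ℝ) :=
          Finset.sum_le_sum (fun i _ => hle1 _ _)
      _ = 202 := by simp
  have hB : ∑ i ∈ Finset.univ.erase (0 : Fin 202), W (Sum.inl 0) (Sum.inl i) ≤ 15 := by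
    set s := ∑ i ∈ Finset.univ.erase (0 : Fin 202), W (Sum.inl 0) (Sum.inl i) with hsdef
    have h1 : s ^ 2 ≤ 201 * ∑ i ∈ Finset.univ.erase (0 : Fin 202), W (Sum.inl 0) (Sum.inl i) ^ 2 := by
      have := sq_sum_le_card_mul_sum_sq (s := Finset.univ.erase (0 : Fin 202))
        (f := fun i => W (Sum.inl 0) (Sum.inl i))
      have hc : ((Finset.univ.erase (0 : Fin 202)).card : ℝ) = 201 := by
        rw [Finset.card_erase_of_mem (Finset.mem_univ _)]
        simp
      rw [hc] at this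
      exact this
    have h2 : ∑ i ∈ Finset.univ.erase (0 : Fin 202), W (Sum.inl 0) (Sum.inl i) ^ 2 ≤ 1 := by
      have h3 := hn (Sum.inl 0)
      rw [Fintype.sum_sum_type] at h3
      have h4 : ∑ i ∈ Finset.univ.erase (0 : Fin 202), W (Sum.inl 0) (Sum.inl i) ^ 2
          ≤ ∑ i : Fin 202, W (Sum.inl 0) (Sum.inl i) ^ 2 :=
        Finset.sum_le_sum_of_subset_of_nonneg (Finset.erase_subset _ _)
          (fun _ _ _ => sq_nonneg _)
      have h5 : 0 ≤ ∑ i : Fin 202, W (Sum.inl 0) (Sum.inr i) ^ 2 :=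
        Finset.sum_nonneg (fun _ _ => sq_nonneg _)
      linarith
    nlinarith
  linarith

lemma det_T : |AT.det| = 1 := by
  obtain ⟨St, hSt⟩ : ∃ St : Matrix (Fin 202) (Fin 202) ℝ, AT = Matrix.fromBlocks St
      (1 : Matrix (Fin 202) (Fin 202) ℝ) (1 : Matrix (Fin 202) (Fin 202) ℝ)
      (0 : Matrix (Fin 202) (Fin 202) ℝ) := by
    refine ⟨fun i j => AT (Sum.inl i) (Sum.inl j), ?_⟩
    ext a b
    rcases a with i | i <;> rcases b with j | j
    · rfl
    · show AT (Sum.inl i) (Sum.inr j) = (1 : Matrix (Fin 202) (Fin 202) ℝ) i j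
      rw [Matrix.one_apply, AT_apply]
      have : (pg pT (Sum.inl 0)).Adj (Sum.inl i) (Sum.inr j) ↔ i = j := by
        rw [pg_adj]
        simp [pT, eq_comm]
      simp only [this]
    · show AT (Sum.inr i) (Sum.inl j) = (1 : Matrix (Fin 202) (Fin 202) ℝ) i j
      rw [Matrix.one_apply, AT_apply]
      have : (pg pT (Sum.inl 0)).Adj (Sum.inr i) (Sum.inl j) ↔ i = j := by
        rw [pg_adj]
        simp [pT]
      simp only [this]
    · show AT (Sum.inr i) (Sum.inr j) = (0 : Matrix (Fin 202) (Fin 202) ℝ) i j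
      rw [Matrix.zero_apply, AT_apply]
      have : ¬ (pg pT (Sum.inl 0)).Adj (Sum.inr i) (Sum.inr j) := by
        rw [pg_adj]
        simp [pT]
      simp [this]
  have hfac : AT = Matrix.fromBlocks (0 : Matrix (Fin 202) (Fin 202) ℝ)
        (1 : Matrix (Fin 202) (Fin 202) ℝ) (1 : Matrix (Fin 202) (Fin 202) ℝ)
        (0 : Matrix (Fin 202) (Fin 202) ℝ) *
      Matrix.fromBlocks (1 : Matrix (Fin 202) (Fin 202) ℝ)
        (0 : Matrix (Fin 202) (Fin 202) ℝ) St (1 : Matrix (Fin 202) (Fin 202) ℝ) := by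
    rw [hSt, Matrix.fromBlocks_multiply]
    simp
  have hsq : (Matrix.fromBlocks (0 : Matrix (Fin 202) (Fin 202) ℝ)
        (1 : Matrix (Fin 202) (Fin 202) ℝ) (1 : Matrix (Fin 202) (Fin 202) ℝ)
        (0 : Matrix (Fin 202) (Fin 202) ℝ)).det ^ 2 = 1 := by
    rw [sq, ← Matrix.det_mul, Matrix.fromBlocks_multiply]
    simp
  rw [hfac, Matrix.det_mul, Matrix.det_fromBlocks_zero₁₂]
  simp only [Matrix.det_one, mul_one]
  have h0 := abs_nonneg (Matrix.fromBlocks (0 : Matrix (Fin 202) (Fin 202) ℝ)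
        (1 : Matrix (Fin 202) (Fin 202) ℝ) (1 : Matrix (Fin 202) (Fin 202) ℝ)
        (0 : Matrix (Fin 202) (Fin 202) ℝ)).det
  have h1 := sq_abs (Matrix.fromBlocks (0 : Matrix (Fin 202) (Fin 202) ℝ)
        (1 : Matrix (Fin 202) (Fin 202) ℝ) (1 : Matrix (Fin 202) (Fin 202) ℝ)
        (0 : Matrix (Fin 202) (Fin 202) ℝ)).det
  rw [hsq] at h1
  nlinarith

/-! ### the tree `S`: 100 copies of `P₄` and three leaves attached to a centre -/

abbrev VS : Type := Fin 4 ⊕ (Fin 100 × Fin 4)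

def pS : VS → VS
  | Sum.inl _ => Sum.inl 0
  | Sum.inr (_, 0) => Sum.inl 0
  | Sum.inr (b, 1) => Sum.inr (b, 0)
  | Sum.inr (b, 2) => Sum.inr (b, 1)
  | Sum.inr (b, 3) => Sum.inr (b, 2)

def rkS : VS → ℕ
  | Sum.inl i => if i = 0 then 0 else 1
  | Sum.inr (_, k) => 1 + k.val

lemma rkS_lt (v : VS) (hv : v ≠ Sum.inl 0) : rkS (pS v) < rkS v := by
  rcases v with i | ⟨b, k⟩
  · have hi : i ≠ 0 := fun h => hv (by rw [h])
    simp [pS, rkS, hi]
  · fin_cases k <;> simp [pS, rkS]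

noncomputable instance : DecidableRel (pg pS (Sum.inl 0)).Adj := Classical.decRel _

noncomputable def AS : Matrix VS VS ℝ := (pg pS (Sum.inl 0)).adjMatrix ℝ

lemma AS_charpoly : (pg pS (Sum.inl 0)).adjMatrix ℝ = AS := rfl

lemma AS_apply (a b : VS) : AS a b = if (pg pS (Sum.inl 0)).Adj a b then 1 else 0 := rfl

lemma AS_herm : AS.IsHermitian := by
  have := (pg pS (Sum.inl 0)).isSymm_adjMatrix (α := ℝ)
  rw [Matrix.IsHermitian, Matrix.conjTranspose_eq_transpose_of_trivial]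
  exact this

/-- symmetric orthogonal 4×4 matrix -/
noncomputable def M4 : Matrix (Fin 4) (Fin 4) ℝ :=
  !![0, 4/5, 0, -3/5; 4/5, 0, 3/5, 0; 0, 3/5, 0, 4/5; -3/5, 0, 4/5, 0]

noncomputable def BS : VS → VS → ℝ
  | Sum.inr (b, i), Sum.inr (c, j) => if b = c then M4 i j else 0
  | _, _ => 0

lemma M4_symm (i j : Fin 4) : M4 i j = M4 j i := by
  fin_cases i <;> fin_cases j <;> simp [M4]

lemma BS_symm (a b : VS) : BS a b = BS b a := by
  rcases a with i | ⟨b1, k⟩ <;> rcases b with j | ⟨b2, l⟩ <;> simp only [BS]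
  by_cases h : b1 = b2
  · subst h; simp [M4_symm k l]
  · rw [if_neg h, if_neg (Ne.symm h)]

set_option maxRecDepth 100000 in
lemma energy_S : 440 ≤ (AS.charpoly.roots.map (fun x : ℝ => |x|)).sum := by
  refine le_trans ?_ (energy_lower AS_herm BS ?_)
  · unfold AS
    rw [pg_sum pS _ rkS rkS_lt BS BS_symm]
    have h1 := Finset.sum_erase_add (Finset.univ : Finset VS) (fun v => BS v (pS v))
      (Finset.mem_univ (Sum.inl 0 : VS))
    rw [Fintype.sum_sum_type, Fintype.sum_prod_type] at h1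
    have h2 : ∀ b : Fin 100, ∑ k : Fin 4, BS (Sum.inr (b, k)) (pS (Sum.inr (b, k))) = 11 / 5 := by
      intro b
      rw [Fin.sum_univ_four]
      simp [pS, BS, M4]
      norm_num
    simp only [h2] at h1
    have h3 : ∑ i : Fin 4, BS (Sum.inl i) (pS (Sum.inl i)) = 0 := by
      simp [BS]
    rw [h3] at h1
    have h4 : BS (Sum.inl 0) (pS (Sum.inl 0)) = 0 := rfl
    have h5 : ∑ _b : Fin 100, (11 / 5 : ℝ) = 220 := by
      rw [Finset.sum_const, Finset.card_univ, Fintype.card_fin]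
      norm_num
    rw [h4, h5] at h1
    linarith
  · intro x
    have e1 : ∑ a, ∑ b, BS a b * (x a * x b)
        = ∑ b : Fin 100, 2 * (4/5 * (x (Sum.inr (b,0)) * x (Sum.inr (b,1)))
            - 3/5 * (x (Sum.inr (b,0)) * x (Sum.inr (b,3)))
            + 3/5 * (x (Sum.inr (b,2)) * x (Sum.inr (b,1)))
            + 4/5 * (x (Sum.inr (b,2)) * x (Sum.inr (b,3)))) := by
      rw [Fintype.sum_sum_type]
      simp only [Fintype.sum_sum_type, Fintype.sum_prod_type, BS, zero_mul,
        Finset.sum_const_zero, zero_add]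
      apply Finset.sum_congr rfl
      intro b _
      simp only [ite_mul, zero_mul]
      rw [Fin.sum_univ_four]
      simp only [Fin.sum_univ_four, Finset.sum_add_distrib, Finset.sum_ite_eq, Finset.mem_univ, if_true]
      simp [M4]
      ring
    rw [e1]
    have e2 : ∑ a, x a ^ 2 ≥ ∑ b : Fin 100, (x (Sum.inr (b,0)) ^ 2 + x (Sum.inr (b,1)) ^ 2
        + x (Sum.inr (b,2)) ^ 2 + x (Sum.inr (b,3)) ^ 2) := by
      rw [Fintype.sum_sum_type, Fintype.sum_prod_type]
      simp only [Fin.sum_univ_four]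
      have : 0 ≤ x (Sum.inl 0) ^ 2 + x (Sum.inl 1) ^ 2 + x (Sum.inl 2) ^ 2 + x (Sum.inl 3) ^ 2 := by
        positivity
      linarith
    refine le_trans (Finset.abs_sum_le_sum_abs _ _) (le_trans ?_ e2)
    apply Finset.sum_le_sum
    intro b _
    set x0 := x (Sum.inr (b,0))
    set x1 := x (Sum.inr (b,1))
    set x2 := x (Sum.inr (b,2))
    set x3 := x (Sum.inr (b,3))
    rw [abs_le]
    constructor
    · nlinarith [sq_nonneg (4/5 * x0 + 3/5 * x2 + x1), sq_nonneg (-3/5 * x0 + 4/5 * x2 + x3)]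
    · nlinarith [sq_nonneg (4/5 * x0 + 3/5 * x2 - x1), sq_nonneg (-3/5 * x0 + 4/5 * x2 - x3)]

lemma det_S : AS.det = 0 := by
  have h12 : (Sum.inl 1 : VS) ≠ Sum.inl 2 := by simp
  apply Matrix.det_zero_of_row_eq h12
  funext v
  rw [AS_apply, AS_apply]
  have : (pg pS (Sum.inl 0)).Adj (Sum.inl 1) v ↔ (pg pS (Sum.inl 0)).Adj (Sum.inl 2) v := by
    rw [pg_adj, pg_adj]
    rcases v with i | ⟨b, k⟩
    · fin_cases i <;> simp [pS]
    · fin_cases k <;> simp [pS]
  simp only [this]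

/-- The negation of the preceding statement: For trees T, S on the same even number of vertices: if the product of absolute adjacency eigenvalues is 1 for T and 0 for S, then the sum of absolute eigenvalues (energy) of T is strictly larger than that of S. -/
theorem result :
    ¬ (∀ (n : ℕ) (T S : SimpleGraph (Fin n)) [DecidableRel T.Adj] [DecidableRel S.Adj],
      Even n → T.IsTree → S.IsTree →
      ((T.adjMatrix ℝ).charpoly.roots.map (fun x : ℝ => |x|)).prod = 1 →
      ((S.adjMatrix ℝ).charpoly.roots.map (fun x : ℝ => |x|)).prod = 0 →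
      ((S.adjMatrix ℝ).charpoly.roots.map (fun x : ℝ => |x|)).sum <
        ((T.adjMatrix ℝ).charpoly.roots.map (fun x : ℝ => |x|)).sum) := by
  intro hall
  obtain ⟨T, dT, hT, hTc⟩ := transport (pg pT (Sum.inl 0)) (pg_isTree pT _ rkT rkT_lt) 404
    (by simp)
  obtain ⟨S, dS, hS, hSc⟩ := transport (pg pS (Sum.inl 0)) (pg_isTree pS _ rkS rkS_lt) 404
    (by simp)
  rw [AT_charpoly] at hTc
  rw [AS_charpoly] at hSc
  have h := hall 404 T S (by decide) hT hS
    (by rw [hTc, prod_roots_eq AT_herm, det_T])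
    (by rw [hSc, prod_roots_eq AS_herm, det_S, abs_zero])
  rw [hTc, hSc] at h
  have h1 := energy_T
  have h2 := energy_S
  linarith

end Pool.Agent.S11622
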