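import Pool.Statements.S11655
import Pool.Agent.H388R3.ChgInf

/-!
Dense infinite `C_h[g]`-sequences: random subset of a set free of three-term progressions,
deletion, and compactness. In a 3AP-free set the translates `X + k_i` are automatically disjoint,
and `p(x_i + k_j) ≤ p(u)^θ p(v)^(1-θ)` decouples the expected number of bad configurations.
-/

set_option autoImplicit false
open Filter
open Pool Pool.MP_d33b86_co

namespace Pool.Agent.S11655

open Pool.Agent.H388R3.Chg

/-- a violation of the `C_h[g]` property produces an admissible tuple -/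
theorem no_translates {a b : ℕ} (A : Set ℤ)
    (hA : ∀ t : ℤ × (Fin a ⊕ Fin b → ℤ), Adm t → ¬ (∀ n ∈ ent t, n ∈ A))
    (X : Finset ℤ) (hX : X.card = a + 1) (k : Fin (b + 1) → ℤ) (hk : Function.Injective k) :
    ¬ (∀ i : Fin (b + 1), ∀ x ∈ X, x + k i ∈ A) := by
  intro hcon
  have hXne : X.Nonempty := by
    rw [← Finset.card_pos]; omega
  set x0 := X.min' hXne with hx0
  have hx0X : x0 ∈ X := X.min'_mem hXne
  obtain ⟨i0, hi0⟩ := Finite.exists_min k
  have hcard1 : (X.erase x0).card = a := by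
    rw [Finset.card_erase_of_mem hx0X, hX]; rfl
  have hcard2 : (Finset.univ.erase i0).card = b := by
    rw [Finset.card_erase_of_mem (Finset.mem_univ _), Finset.card_univ, Fintype.card_fin]; rfl
  let e1 : Fin a ≃ X.erase x0 := (Finset.equivFinOfCardEq hcard1).symm
  let e2 : Fin b ≃ (Finset.univ.erase i0 : Finset (Fin (b + 1))) :=
    (Finset.equivFinOfCardEq hcard2).symm
  let t : ℤ × (Fin a ⊕ Fin b → ℤ) := (x0 + k i0, fun s => s.elim
    (fun i => ((e1 i : ℤ)) + k i0) (fun l => x0 + k (e2 l : Fin (b + 1))))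
  have he1 : ∀ i, (e1 i : ℤ) ∈ X ∧ x0 < (e1 i : ℤ) := by
    intro i
    have h := (e1 i).2
    rw [Finset.mem_erase] at h
    refine ⟨h.2, lt_of_le_of_ne (X.min'_le _ h.2) (Ne.symm h.1)⟩
  have he2 : ∀ l, k i0 < k (e2 l : Fin (b + 1)) := by
    intro l
    have h := (e2 l).2
    rw [Finset.mem_erase] at h
    exact lt_of_le_of_ne (hi0 _) (fun h' => h.1 (hk h').symm)
  apply hA t
  · refine ⟨?_, ?_, ?_⟩
    · rintro (i | l)
      · have := (he1 i).2
        show x0 + k i0 < (e1 i : ℤ) + k i0
        omega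
      · have := he2 l
        show x0 + k i0 < x0 + k (e2 l : Fin (b + 1))
        omega
    · intro i i' h
      have h' : (e1 i : ℤ) + k i0 = (e1 i' : ℤ) + k i0 := h
      exact e1.injective (Subtype.ext (by omega))
    · intro l l' h
      have h' : x0 + k (e2 l : Fin (b + 1)) = x0 + k (e2 l' : Fin (b + 1)) := h
      exact e2.injective (Subtype.ext (hk (by omega)))
  · intro n hn
    unfold ent at hn
    obtain ⟨⟨o1, o2⟩, _, rfl⟩ := Finset.mem_image.1 hn
    cases o1 with
    | none =>
      cases o2 with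
      | none =>
        have := hcon i0 x0 hx0X
        simpa [xx, kk, t] using this
      | some l =>
        have := hcon (e2 l : Fin (b + 1)) x0 hx0X
        simpa [xx, kk, t] using this
    | some i =>
      cases o2 with
      | none =>
        have := hcon i0 (e1 i : ℤ) (he1 i).1
        have e : xx t (some i) + kk t none = (e1 i : ℤ) + k i0 := by
          simp only [xx, kk, t, Option.elim, Sum.elim_inl]
          ring
        show xx t (some i) + kk t none ∈ A
        rw [e]
        exact this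
      | some l =>
        have := hcon (e2 l : Fin (b + 1)) (e1 i : ℤ) (he1 i).1
        have e : xx t (some i) + kk t (some l) = (e1 i : ℤ) + k (e2 l : Fin (b + 1)) := by
          simp only [xx, kk, t, Option.elim, Sum.elim_inl, Sum.elim_inr]
          ring
        show xx t (some i) + kk t (some l) ∈ A
        rw [e]
        exact this

/-- For all integers g ≥ h ≥ 2 there is an infinite set A of positive integers containing no g distinct translates of any h-element set, such that for every ε>0, eventually ∣A ∩ [1,n]∣ ≥ n^(α(g,h)−ε). -/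
theorem result :
    ∀ g h : ℕ, 2 ≤ h → h ≤ g →
      ∃ A : Set ℤ,
        A ⊆ {n : ℤ | 1 ≤ n} ∧ A.Infinite ∧
        (∀ X : Finset ℤ, X.card = h → ∀ k : Fin g → ℤ, Function.Injective k →
          ¬ (∀ i : Fin g, ∀ x ∈ X, x + k i ∈ A)) ∧
        ∀ ε : ℝ, 0 < ε →
          ∀ᶠ n : ℕ in atTop,
            (n : ℝ) ^ ((1 - 1 / (h : ℝ)) * (1 - 1 / (g : ℝ)) *
                (1 + 1 / ((h : ℝ) * (g : ℝ) - 1)) - ε)
              ≤ ((A ∩ Set.Icc (1 : ℤ) (n : ℤ)).ncard : ℝ) := by
  classical
  intro g h hh hg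
  obtain ⟨a, rfl⟩ : ∃ a, h = a + 1 := ⟨h - 1, by omega⟩
  obtain ⟨b, rfl⟩ : ∃ b, g = b + 1 := ⟨g - 1, by omega⟩
  have ha : 1 ≤ a := by omega
  have hb : 1 ≤ b := by omega
  obtain ⟨A, hA1, hA2, hA3⟩ := inf_exists ha hb
  refine ⟨A, hA1, ?_, ?_, ?_⟩
  · -- infinite
    intro hfin
    obtain ⟨M, hM⟩ := hfin.bddAbove
    obtain ⟨J, hJ⟩ : ∃ J, J = max (J0 a b) M.toNat := ⟨_, rfl⟩
    have hJ0 : J0 a b ≤ J := by rw [hJ]; exact le_max_left _ _
    have h1 := hA3 J hJ0
    have h2 : 0 < ((Dd (mm a b) J).filter (fun n => n ∈ A)).card := by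
      have := BB_pos a b J
      have h3 : (0 : ℝ) < (((Dd (mm a b) J).filter (fun n => n ∈ A)).card : ℝ) := by linarith
      exact_mod_cast h3
    obtain ⟨n, hn⟩ := Finset.card_pos.1 h2
    rw [Finset.mem_filter] at hn
    have h4 := (Dd_bounds (two_le_mm ha hb) ((one_le_J0 a b).trans hJ0) hn.1).1
    have h5 := hM hn.2
    have h6 : M.toNat ≤ J := by rw [hJ]; exact le_max_right _ _
    have h7 : J < 2 ^ (mm a b * J ^ 2) := by
      have h8 : J ≤ mm a b * J ^ 2 := by
        have := two_le_mm ha hb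
        nlinarith [Nat.le_self_pow (two_ne_zero) J]
      exact lt_of_lt_of_le Nat.lt_two_pow_self (Nat.pow_le_pow_right (by norm_num) h8)
    have h9 : M ≤ (M.toNat : ℤ) := Int.self_le_toNat M
    have h10 : ((J : ℕ) : ℤ) < ((2 ^ (mm a b * J ^ 2) : ℕ) : ℤ) := by exact_mod_cast h7
    have h11 : ((M.toNat : ℕ) : ℤ) ≤ (J : ℤ) := by exact_mod_cast h6
    omega
  · intro X hX k hk
    exact no_translates A hA2 X hX k hk
  · intro ε hε
    have hgr := growth ha hb A (fun J hJ =>
      ⟨(Dd (mm a b) J).filter (fun n => n ∈ A), by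
        intro n hn
        exact (Finset.mem_filter.1 hn).2, Finset.filter_subset _ _, hA3 J hJ⟩) ε hε
    have ha' : (1 : ℝ) ≤ a := by exact_mod_cast ha
    have hb' : (1 : ℝ) ≤ b := by exact_mod_cast hb
    have e : (1 - 1 / ((a + 1 : ℕ) : ℝ)) * (1 - 1 / ((b + 1 : ℕ) : ℝ)) *
                (1 + 1 / (((a + 1 : ℕ) : ℝ) * ((b + 1 : ℕ) : ℝ) - 1)) =
        ((a : ℝ) * b) / (a * b + (a + b)) := by
      push_cast
      have h1 : ((a : ℝ) + 1) * (b + 1) - 1 = a * b + (a + b) := by ring
      rw [h1]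
      have h2 : (a : ℝ) * b + (a + b) ≠ 0 := by positivity
      field_simp
      ring
    rw [e]
    exact hgr

end Pool.Agent.S11655
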