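import Pool.Statements.S11707
import Pool.Agent.H798R3.Eppa3


set_option autoImplicit false
open Classical
open Pool Pool.MP_d61016_co

namespace Pool.Agent.S11707

open Pool.Agent.H798R3.Eppa

/-- Every finite three-graph A embeds as an induced substructure in some finite three-graph B such that every partial automorphism of A extends to an automorphism of B. -/
theorem result :
    ∀ (n : ℕ) (rA : Fin n → Fin n → Prop) (HA : Finset (Finset (Fin n))),
      (Equivalence rA ∧ (∀ a b c, rA a b ∨ rA b c ∨ rA a c) ∧
        (∀ e ∈ HA, e.card = 4 ∧ ∀ v ∈ e, (e.filter (fun w => rA v w)).card = 2) ∧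
        (∀ S : Finset (Fin n), S.card = 5 →
          (∀ v ∈ S, (S.filter (fun w => rA v w)).card ≤ 3) →
          Even (HA.filter (fun e => e ⊆ S)).card)) →
      ∃ (m : ℕ) (rB : Fin m → Fin m → Prop) (HB : Finset (Finset (Fin m))),
        (Equivalence rB ∧ (∀ a b c, rB a b ∨ rB b c ∨ rB a c) ∧
          (∀ e ∈ HB, e.card = 4 ∧ ∀ v ∈ e, (e.filter (fun w => rB v w)).card = 2) ∧
          (∀ S : Finset (Fin m), S.card = 5 →
            (∀ v ∈ S, (S.filter (fun w => rB v w)).card ≤ 3) →
            Even (HB.filter (fun e => e ⊆ S)).card)) ∧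
        ∃ f : Fin n ↪ Fin m,
          (∀ x y, rA x y ↔ rB (f x) (f y)) ∧
          (∀ e : Finset (Fin n), e ∈ HA ↔ e.map f ∈ HB) ∧
          ∀ (S : Finset (Fin n)) (p : Fin n → Fin n),
            Set.InjOn p (S : Set (Fin n)) →
            (∀ x ∈ S, ∀ y ∈ S, rA x y ↔ rA (p x) (p y)) →
            (∀ e ⊆ S, e ∈ HA ↔ e.image p ∈ HA) →
            ∃ σ : Fin m ≃ Fin m,
              (∀ x y, rB x y ↔ rB (σ x) (σ y)) ∧
              (∀ e : Finset (Fin m), e ∈ HB ↔ e.map σ.toEmbedding ∈ HB) ∧
              ∀ x ∈ S, σ (f x) = f (p x) := by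
  intro n rA HA hyp
  obtain ⟨hEq, h3, h4, h5⟩ := hyp
  obtain ⟨c, E, hc, hEs, hHA⟩ := exists_rep hEq h3 h4 h5
  -- the vertex set of the extension
  let W : Type := (Fin n × Bool) × (Fin n → ZMod 2)
  let clsW : W → Bool := fun w => w.1.2
  let EdW : W → W → ZMod 2 := fun u v => u.2 v.1.1 + v.2 u.1.1
  let eW : W ≃ Fin (Fintype.card W) := Fintype.equivFin W
  let cls : Fin (Fintype.card W) → Bool := fun v => clsW (eW.symm v)
  let Ed : Fin (Fintype.card W) → Fin (Fintype.card W) → ZMod 2 :=
    fun x y => EdW (eW.symm x) (eW.symm y)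
  have hEdWs : ∀ x y, EdW x y = EdW y x := fun x y => add_comm _ _
  have hEds : ∀ x y, Ed x y = Ed y x := fun x y => hEdWs _ _
  -- the valuation of a vertex of A
  let val : Fin n → Fin n → ZMod 2 := fun a j => if c a = true ∧ c j = false then E a j else 0
  let f0 : Fin n → W := fun a => ((a, c a), val a)
  have hf0 : Function.Injective f0 := by
    intro a b hab
    exact congrArg (fun w : W => w.1.1) hab
  have hval : ∀ a b, c a ≠ c b → val a b + val b a = E a b := by
    intro a b hab
    simp only [val]
    cases ha : c a <;> cases hb : c b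
    · exact absurd (ha.trans hb.symm) hab
    · simp [hEs b a]
    · simp
    · exact absurd (ha.trans hb.symm) hab
  refine ⟨Fintype.card W, fun x y => cls x = cls y,
    Finset.univ.filter (fun e => Hyp cls Ed e), ⟨?_, ?_, ?_, ?_⟩,
    ⟨fun a => eW (f0 a), eW.injective.comp hf0⟩, ?_, ?_, ?_⟩
  · exact ⟨fun _ => rfl, fun h => h.symm, fun h h' => h.trans h'⟩
  · intro a b c'
    show cls a = cls b ∨ cls b = cls c' ∨ cls a = cls c'
    cases cls a <;> cases cls b <;> cases cls c' <;> simp
  · intro e he
    have he' := (Finset.mem_filter.1 he).2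
    refine ⟨Hyp_card he', fun v _ => ?_⟩
    convert Hyp_filter he' v
  · intro S hS hS3
    have := parity cls Ed hEds S hS (by
      intro v hv
      convert hS3 v hv)
    convert this
  · intro x y
    show rA x y ↔ clsW (eW.symm (eW (f0 x))) = clsW (eW.symm (eW (f0 y)))
    rw [Equiv.symm_apply_apply, Equiv.symm_apply_apply, hc]
  · intro e
    rw [hHA, Finset.mem_filter]
    simp only [Finset.mem_univ, true_and]
    apply transfer0 (t := fun _ => 0)
    · intro v
      show clsW (eW.symm (eW (f0 v))) = c v
      rw [Equiv.symm_apply_apply]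
    · intro x y hxy
      show EdW (eW.symm (eW (f0 x))) (eW.symm (eW (f0 y))) = _
      rw [Equiv.symm_apply_apply, Equiv.symm_apply_apply, add_zero, add_zero]
      exact hval x y hxy
  · intro S p hp hpr hpH
    -- the class shift
    obtain ⟨s, hs⟩ : ∃ s : Bool, ∀ x ∈ S, c (p x) = xor (c x) s := by
      by_cases hne : S.Nonempty
      · obtain ⟨x0, hx0⟩ := hne
        refine ⟨xor (c x0) (c (p x0)), ?_⟩
        intro x hx
        have h1 := hpr x hx x0 hx0
        rw [hc, hc] at h1
        revert h1
        cases c x <;> cases c x0 <;> cases c (p x) <;> cases c (p x0) <;> simp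
      · refine ⟨false, ?_⟩
        intro x hx
        exact absurd ⟨x, hx⟩ hne
    -- extending permutations
    have hτ : ∀ b : Bool, ∃ τ : Fin n ≃ Fin n, ∀ x ∈ S, c x = b → τ x = p x := by
      intro b
      obtain ⟨τ, hτ⟩ := extend_perm p (S.filter (fun x => c x = b))
        (fun x hx y hy h => hp (by simpa using (Finset.mem_filter.1 hx).1)
          (by simpa using (Finset.mem_filter.1 hy).1) h)
      exact ⟨τ, fun x hx hcx => hτ x (Finset.mem_filter.2 ⟨hx, hcx⟩)⟩
    choose τ hτ using hτ
    -- curls are preserved
    have hcurl : ∀ x ∈ S, ∀ x' ∈ S, ∀ y ∈ S, ∀ y' ∈ S, c x = true → c x' = true →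
        c y = false → c y' = false →
        (E x y + E x y' + (E x' y + E x' y')) = 
        (E (p x) (p y) + E (p x) (p y') + (E (p x') (p y) + E (p x') (p y'))) := by
      intro x hx x' hx' y hy y' hy' cx cx' cy cy'
      by_cases e1 : x = x'
      · subst e1
        rw [z2_self, z2_self]
      by_cases e2 : y = y'
      · subst e2
        simp only [z2_self]
      apply z2_eq_of_iff
      rw [← Hyp_quad (cls := c) e1 e2 cx cx' cy cy', ← hHA]
      rw [hpH {x, x', y, y'} (by
        intro w hw
        simp only [Finset.mem_insert, Finset.mem_singleton] at hw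
        rcases hw with rfl | rfl | rfl | rfl <;> assumption)]
      rw [hHA]
      have : ({x, x', y, y'} : Finset (Fin n)).image p = {p x, p x', p y, p y'} := by
        simp [Finset.image_insert]
      rw [this]
      apply Hyp_quad' hEs
      · intro h
        exact e1 (hp (by simpa using hx) (by simpa using hx') h)
      · intro h
        exact e2 (hp (by simpa using hy) (by simpa using hy') h)
      · rw [hs x hx, hs x' hx', cx, cx']
      · rw [hs y hy, hs y' hy', cy, cy']
      · rw [hs x hx, hs y hy, cx, cy]
        cases s <;> decide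
    -- the switching function
    obtain ⟨t, ht⟩ : ∃ t : Fin n → ZMod 2, ∀ x ∈ S, ∀ y ∈ S, c x = true → c y = false →
        E (p x) (p y) = E x y + t x + t y := by
      by_cases h1 : ∃ x ∈ S, c x = true
      · by_cases h2 : ∃ y ∈ S, c y = false
        · obtain ⟨x0, hx0, cx0⟩ := h1
          obtain ⟨y0, hy0, cy0⟩ := h2
          refine ⟨fun v => if c v = true then E (p v) (p y0) + E v y0
            else E (p x0) (p v) + E x0 v + (E (p x0) (p y0) + E x0 y0), ?_⟩
          intro x hx y hy cx cy
          have h := hcurl x hx x0 hx0 y hy y0 hy0 cx cx0 cy cy0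
          simp only [cx, cy, if_true]
          rw [if_neg (by decide)]
          have e1 := z2_self (E x y0)
          have e2 := z2_self (E (p x) (p y0))
          have e3 := z2_self (E (p x0) (p y0))
          have e4 := z2_self (E (p x0) (p y))
          have e5 := z2_self (E x0 y)
          have e6 := z2_self (E x0 y0)
          linear_combination -h - e2 - e3 - e4
        · refine ⟨fun _ => 0, ?_⟩
          intro x _ y hy _ cy
          exact absurd ⟨y, hy, cy⟩ h2
      · refine ⟨fun _ => 0, ?_⟩
        intro x hx y _ cx _
        exact absurd ⟨x, hx, cx⟩ h1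
    -- the flips
    let G : Fin n → Fin n → ZMod 2 := fun i j =>
      if i ∈ S ∧ c i = true then val i j + t i + val (p i) (τ false j)
      else if j ∈ S ∧ c j = false then val j i + t j + val (p j) (τ true i) else 0
    let Fl : Fin n × Bool → Fin n → ZMod 2 := fun v j => if v.2 = true then G v.1 j else G j v.1
    let t' : Fin n × Bool → ZMod 2 := fun v => if v.1 ∈ S ∧ c v.1 = v.2 then t v.1 else 0
    let Θ : W → W := fun w => ((τ w.1.2 w.1.1, xor w.1.2 s),
      fun j' => w.2 ((τ (!w.1.2)).symm j') + Fl w.1 ((τ (!w.1.2)).symm j') + t' w.1)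
    have hΘinj : Function.Injective Θ := by
      rintro ⟨⟨i, b⟩, χ⟩ ⟨⟨i', b'⟩, χ'⟩ h
      have hb : xor b s = xor b' s := congrArg (fun w : W => w.1.2) h
      have hb' : b = b' := by
        revert hb
        cases b <;> cases b' <;> cases s <;> simp
      subst hb'
      have hi : τ b i = τ b i' := congrArg (fun w : W => w.1.1) h
      have hi' : i = i' := (τ b).injective hi
      subst hi'
      have hx : ∀ j, χ j = χ' j := by
        intro j
        have := congrArg (fun w : W => w.2 (τ (!b) j)) h
        simp only [Θ, Equiv.symm_apply_apply] at this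
        exact add_right_cancel (add_right_cancel this)
      have : χ = χ' := funext hx
      rw [this]
    let ΘE : W ≃ W := Equiv.ofBijective Θ (Finite.injective_iff_bijective.1 hΘinj)
    have hΘcls : ∀ w, clsW (Θ w) = xor (clsW w) s := fun w => rfl
    have hΘEd : ∀ w w', clsW w ≠ clsW w' → EdW (Θ w) (Θ w') = EdW w w' + t' w.1 + t' w'.1 := by
      rintro ⟨⟨i, b⟩, χ⟩ ⟨⟨i', b'⟩, χ'⟩ hne
      have hbb : b ≠ b' := hne
      have key : ∀ (i i' : Fin n) (χ χ' : Fin n → ZMod 2),
          EdW (Θ ((i, true), χ)) (Θ ((i', false), χ')) =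
          EdW ((i, true), χ) ((i', false), χ') + t' (i, true) + t' (i', false) := by
        intro i i' χ χ'
        simp only [EdW, Θ, Bool.not_true, Bool.not_false, Equiv.symm_apply_apply, Fl, if_true]
        rw [if_neg (by decide)]
        have := z2_self (G i i')
        linear_combination this
      cases b <;> cases b'
      · exact absurd rfl hbb
      · rw [hEdWs, hEdWs ((i, false), χ), key]
        ring
      · exact key _ _ _ _
      · exact absurd rfl hbb
    have hΘf : ∀ x ∈ S, Θ (f0 x) = f0 (p x) := by
      intro x hx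
      have h1 : (τ (c x) x, xor (c x) s) = (p x, c (p x)) := by
        rw [hτ (c x) x hx rfl, hs x hx]
      have h2 : (fun j' => val x ((τ (!(c x))).symm j') + Fl (x, c x) ((τ (!(c x))).symm j') +
          t' (x, c x)) = val (p x) := by
        funext j'
        obtain ⟨j, rfl⟩ := (τ (!(c x))).surjective j'
        rw [Equiv.symm_apply_apply]
        have ht' : t' (x, c x) = t x := by
          show (if x ∈ S ∧ c x = c x then t x else 0) = t x
          rw [if_pos ⟨hx, rfl⟩]
        rw [ht']
        cases hcx : c x with
        | true =>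
          simp only [Fl, if_true, G, Bool.not_true]
          rw [if_pos ⟨hx, hcx⟩]
          have e1 := z2_self (val x j)
          have e2 := z2_self (t x)
          linear_combination e1 + e2
        | false =>
          simp only [Fl, Bool.not_false]
          rw [if_neg (by decide)]
          simp only [G]
          by_cases hj : j ∈ S ∧ c j = true
          · rw [if_pos hj]
            rw [hτ true j hj.1 hj.2, hτ false x hx hcx]
            have h3 := ht j hj.1 x hx hj.2 hcx
            have h4 := hval j x (by rw [hj.2, hcx]; decide)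
            have h5 := hval (p j) (p x) (by
              rw [hs j hj.1, hs x hx, hj.2, hcx]
              cases s <;> decide)
            have e1 := z2_self (t x)
            have e2 := z2_self (t j)
            have e3 := z2_self (val (p j) (p x))
            have e4 := z2_self (E j x)
            have e5 := z2_self (val (p x) (p j))
            have e6 := z2_self (val j x)
            have e7 := z2_self (val x j)
            linear_combination h4 + h5 + h3 + e4 + e1 + e2 - e5
          · rw [if_neg hj, if_pos ⟨hx, hcx⟩]
            have e1 := z2_self (val x j)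
            have e2 := z2_self (t x)
            linear_combination e1 + e2
      show ((τ (c x) x, xor (c x) s), (fun j' => val x ((τ (!(c x))).symm j') +
        Fl (x, c x) ((τ (!(c x))).symm j') + t' (x, c x))) = ((p x, c (p x)), val (p x))
      rw [h1, h2]
    refine ⟨eW.symm.trans (ΘE.trans eW), ?_, ?_, ?_⟩
    · intro x y
      show cls x = cls y ↔ clsW (eW.symm (eW (Θ (eW.symm x)))) = clsW (eW.symm (eW (Θ (eW.symm y))))
      rw [Equiv.symm_apply_apply, Equiv.symm_apply_apply, hΘcls, hΘcls]
      show clsW _ = clsW _ ↔ _
      cases clsW (eW.symm x) <;> cases clsW (eW.symm y) <;> cases s <;> simp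
    · intro e
      simp only [Finset.mem_filter, Finset.mem_univ, true_and]
      apply transfer hEds _ s _ (fun v => t' (eW.symm v).1)
      · intro x y hxy
        show EdW (eW.symm (eW (Θ (eW.symm x)))) (eW.symm (eW (Θ (eW.symm y)))) = _
        rw [Equiv.symm_apply_apply, Equiv.symm_apply_apply]
        exact hΘEd _ _ hxy
      · intro v
        show clsW (eW.symm (eW (Θ (eW.symm v)))) = _
        rw [Equiv.symm_apply_apply]
    · intro x hx
      show eW (Θ (eW.symm (eW (f0 x)))) = eW (f0 (p x))
      rw [Equiv.symm_apply_apply, hΘf x hx]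

end Pool.Agent.S11707
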