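import Pool.Statements.S11730
-- import your own Pool.Agent.* helpers here

set_option autoImplicit false
open MeasureTheory
open Pool Pool.MP_d7a99c_co

namespace Pool.Agent.S11730

/-- First coordinates (times `10000`) of the 27 test points. -/
def xs : List ℤ := [-1145, -917, -755, -656, -283, 347, 719, 906, 968, 1005, 1113, 1586, 1878, 1944, 2404, 2431, 2459, 2486, 2817, 3010, 3093, 3727, 3797, 3943, 4205, 4388, 4554]

/-- Second coordinates (times `10000`) of the 27 test points. -/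
def ys : List ℤ := [-426, -164, 23, -1349, -2052, -3238, -3941, -4292, 2008, -4384, -875, 2719, -3178, 3131, 200, 3693, -2374, 3610, 3116, 2827, 2704, 1756, -525, -324, 38, 767, 520]

def X (e : Fin 27) : ℤ := xs.getD e.val 0
def Y (e : Fin 27) : ℤ := ys.getD e.val 0

/-- Scaled projections on the three normals `(1,0)`, `(8,15)/17`, `(-12,35)/37`. -/
def pr1 (e : Fin 27) : ℤ := X e
def pr2 (e : Fin 27) : ℤ := 8 * X e + 15 * Y e
def pr3 (e : Fin 27) : ℤ := -12 * X e + 35 * Y e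

/-- Witness tables. -/
def wx : List (List ℕ) := [
  [15, 15, 15, 15, 15, 15, 15, 15, 14, 15, 15, 8, 15, 11, 10, 17, 15, 13, 13, 13, 13, 11, 14, 14, 14, 8, 8],
  [15, 15, 15, 15, 15, 15, 15, 15, 0, 15, 15, 0, 15, 11, 0, 17, 15, 13, 13, 13, 13, 11, 0, 0, 0, 0, 0],
  [15, 15, 15, 15, 15, 15, 15, 15, 1, 15, 15, 1, 15, 11, 1, 17, 15, 13, 13, 13, 13, 11, 1, 1, 1, 1, 1],
  [15, 15, 15, 15, 15, 15, 15, 15, 2, 15, 15, 2, 15, 11, 2, 17, 15, 13, 13, 13, 13, 11, 2, 2, 2, 2, 2],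
  [15, 15, 15, 15, 15, 15, 15, 15, 2, 15, 15, 2, 15, 21, 2, 17, 15, 13, 13, 13, 13, 2, 2, 2, 2, 2, 2],
  [17, 17, 17, 17, 17, 17, 17, 17, 2, 17, 2, 2, 17, 21, 2, 17, 17, 18, 19, 20, 21, 2, 2, 2, 2, 2, 2],
  [18, 18, 1, 18, 18, 18, 18, 18, 2, 18, 2, 2, 18, 21, 2, 18, 18, 18, 19, 20, 21, 2, 2, 2, 2, 2, 2],
  [19, 0, 1, 19, 19, 19, 19, 19, 2, 19, 2, 2, 19, 21, 2, 19, 19, 19, 19, 20, 21, 2, 2, 2, 2, 2, 2],
  [20, 0, 1, 20, 20, 20, 20, 20, 2, 20, 2, 2, 20, 21, 2, 20, 20, 20, 20, 20, 21, 2, 2, 2, 2, 2, 2],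
  [3, 0, 1, 21, 21, 8, 8, 8, 2, 8, 2, 8, 21, 8, 2, 8, 3, 8, 8, 8, 8, 8, 2, 2, 2, 8, 8],
  [3, 0, 1, 21, 21, 8, 8, 8, 2, 8, 2, 8, 21, 8, 2, 8, 3, 8, 8, 8, 8, 8, 2, 2, 2, 8, 8],
  [3, 0, 1, 21, 21, 8, 8, 8, 2, 8, 2, 8, 21, 8, 2, 8, 3, 8, 8, 8, 8, 8, 2, 2, 2, 8, 8],
  [3, 0, 1, 11, 11, 11, 11, 11, 2, 11, 2, 8, 11, 11, 2, 11, 3, 11, 11, 11, 11, 11, 2, 2, 2, 8, 8],
  [3, 0, 1, 11, 11, 11, 11, 11, 2, 11, 2, 8, 11, 11, 2, 11, 3, 11, 11, 11, 11, 11, 2, 2, 2, 8, 8],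
  [3, 0, 1, 13, 13, 13, 13, 13, 2, 13, 2, 8, 13, 11, 2, 13, 3, 13, 13, 13, 13, 11, 2, 2, 2, 8, 8],
  [3, 0, 1, 13, 13, 13, 13, 13, 2, 13, 2, 8, 13, 11, 2, 13, 3, 13, 13, 13, 13, 11, 2, 2, 2, 8, 8],
  [15, 15, 15, 15, 15, 15, 15, 15, 2, 15, 15, 8, 15, 11, 2, 13, 15, 13, 13, 13, 13, 11, 2, 2, 2, 8, 8],
  [15, 15, 15, 15, 15, 15, 15, 15, 2, 15, 15, 8, 15, 11, 2, 13, 15, 13, 13, 13, 13, 11, 2, 2, 2, 8, 8],
  [15, 15, 15, 15, 15, 15, 15, 15, 2, 15, 15, 8, 15, 11, 2, 17, 15, 13, 13, 13, 13, 11, 2, 2, 2, 8, 8],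
  [15, 15, 15, 15, 15, 15, 15, 15, 2, 15, 15, 8, 15, 11, 2, 17, 15, 13, 13, 13, 13, 11, 2, 2, 2, 8, 8],
  [15, 15, 15, 15, 15, 15, 15, 15, 2, 15, 15, 8, 15, 11, 2, 17, 15, 13, 13, 13, 13, 11, 2, 2, 2, 8, 8],
  [15, 15, 15, 15, 15, 15, 15, 15, 2, 15, 15, 8, 15, 11, 2, 17, 15, 13, 13, 13, 13, 11, 2, 2, 2, 8, 8],
  [15, 15, 15, 15, 15, 15, 15, 15, 2, 15, 15, 8, 15, 11, 2, 17, 15, 13, 13, 13, 13, 11, 2, 2, 2, 8, 8],
  [15, 15, 15, 15, 15, 15, 15, 15, 2, 15, 15, 8, 15, 11, 2, 17, 15, 13, 13, 13, 13, 11, 2, 2, 2, 8, 8],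
  [15, 15, 15, 15, 15, 15, 15, 15, 2, 15, 15, 8, 15, 11, 2, 17, 15, 13, 13, 13, 13, 11, 2, 2, 2, 8, 8],
  [15, 15, 15, 15, 15, 15, 15, 15, 2, 15, 15, 8, 15, 11, 2, 17, 15, 13, 13, 13, 13, 11, 2, 2, 2, 8, 8],
  [15, 15, 15, 15, 15, 15, 15, 15, 2, 15, 15, 8, 15, 11, 2, 17, 15, 13, 13, 13, 13, 11, 2, 2, 2, 8, 8]]

def wy : List (List ℕ) := [
  [9, 9, 9, 9, 9, 9, 9, 9, 9, 22, 9, 9, 9, 9, 9, 9, 9, 9, 9, 9, 9, 9, 9, 9, 9, 9, 9],
  [12, 12, 12, 12, 25, 24, 23, 22, 12, 22, 12, 12, 25, 12, 12, 12, 12, 12, 12, 12, 12, 12, 12, 12, 12, 12, 12],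
  [12, 12, 12, 12, 25, 24, 23, 22, 12, 22, 12, 12, 25, 12, 12, 12, 12, 12, 12, 12, 12, 12, 12, 12, 12, 12, 12],
  [12, 12, 12, 12, 25, 24, 23, 22, 12, 22, 12, 12, 25, 12, 12, 12, 12, 12, 12, 12, 12, 12, 12, 12, 12, 12, 12],
  [12, 12, 12, 12, 25, 24, 23, 22, 12, 22, 12, 12, 25, 12, 12, 12, 12, 12, 12, 12, 12, 12, 12, 12, 12, 12, 12],
  [16, 16, 16, 4, 25, 24, 23, 22, 16, 22, 16, 16, 4, 16, 16, 16, 4, 16, 16, 16, 16, 16, 16, 16, 16, 16, 16],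
  [5, 5, 5, 5, 5, 24, 23, 22, 5, 22, 5, 5, 5, 5, 5, 5, 5, 5, 5, 5, 5, 5, 5, 5, 5, 5, 5],
  [6, 6, 6, 6, 6, 6, 23, 22, 6, 22, 6, 6, 6, 6, 6, 6, 6, 6, 6, 6, 6, 6, 6, 6, 6, 6, 6],
  [7, 7, 7, 7, 7, 7, 7, 22, 7, 22, 7, 7, 7, 7, 7, 7, 7, 7, 7, 7, 7, 7, 7, 7, 7, 7, 7],
  [7, 7, 7, 7, 7, 7, 7, 22, 7, 22, 7, 7, 7, 7, 7, 7, 7, 7, 7, 7, 7, 7, 7, 7, 7, 7, 7],
  [9, 9, 9, 9, 9, 9, 9, 9, 9, 22, 9, 9, 9, 9, 9, 9, 9, 9, 9, 9, 9, 9, 9, 9, 9, 9, 9],
  [9, 9, 9, 9, 9, 9, 9, 9, 9, 22, 9, 9, 9, 9, 9, 9, 9, 9, 9, 9, 9, 9, 9, 9, 9, 9, 9],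
  [9, 9, 9, 9, 9, 9, 9, 9, 9, 24, 9, 9, 9, 9, 9, 9, 9, 9, 9, 9, 9, 9, 9, 9, 9, 9, 9],
  [9, 9, 9, 9, 9, 9, 9, 9, 9, 24, 9, 9, 9, 9, 9, 9, 9, 9, 9, 9, 9, 9, 9, 9, 9, 9, 9],
  [9, 9, 9, 9, 9, 9, 9, 9, 9, 26, 9, 9, 9, 9, 9, 9, 9, 9, 9, 9, 9, 9, 9, 9, 9, 9, 9],
  [9, 9, 9, 9, 9, 9, 9, 9, 9, 26, 9, 9, 9, 9, 9, 9, 9, 9, 9, 9, 9, 9, 9, 9, 9, 9, 9],
  [9, 9, 9, 9, 9, 9, 9, 9, 9, 26, 9, 9, 9, 9, 9, 9, 9, 9, 9, 9, 9, 9, 9, 9, 9, 9, 9],
  [9, 9, 9, 9, 9, 9, 9, 9, 9, 14, 9, 9, 9, 9, 9, 9, 9, 9, 9, 9, 9, 9, 9, 9, 9, 9, 9],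
  [9, 9, 9, 9, 9, 9, 9, 9, 9, 14, 9, 9, 9, 9, 9, 9, 9, 9, 9, 9, 9, 9, 9, 9, 9, 9, 9],
  [9, 9, 9, 9, 9, 9, 9, 9, 9, 14, 9, 9, 9, 9, 9, 9, 9, 9, 9, 9, 9, 9, 9, 9, 9, 9, 9],
  [9, 9, 9, 9, 9, 9, 9, 9, 9, 14, 9, 9, 9, 9, 9, 9, 9, 9, 9, 9, 9, 9, 9, 9, 9, 9, 9],
  [9, 9, 9, 9, 9, 9, 9, 9, 9, 14, 9, 9, 9, 9, 9, 9, 9, 9, 9, 9, 9, 9, 9, 9, 9, 9, 9],
  [9, 9, 9, 9, 9, 9, 9, 9, 9, 14, 9, 9, 9, 9, 9, 9, 9, 9, 9, 9, 9, 9, 9, 9, 9, 9, 9],
  [9, 9, 9, 9, 9, 9, 9, 9, 9, 22, 9, 9, 9, 9, 9, 9, 9, 9, 9, 9, 9, 9, 9, 9, 9, 9, 9],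
  [9, 9, 9, 9, 9, 9, 9, 9, 9, 22, 9, 9, 9, 9, 9, 9, 9, 9, 9, 9, 9, 9, 9, 9, 9, 9, 9],
  [9, 9, 9, 9, 9, 9, 9, 9, 9, 22, 9, 9, 9, 9, 9, 9, 9, 9, 9, 9, 9, 9, 9, 9, 9, 9, 9],
  [9, 9, 9, 9, 9, 9, 9, 9, 9, 22, 9, 9, 9, 9, 9, 9, 9, 9, 9, 9, 9, 9, 9, 9, 9, 9, 9]]

def gx (a b : Fin 27) : Fin 27 := Fin.ofNat 27 ((wx.getD a.val []).getD b.val 0)
def gy (a b : Fin 27) : Fin 27 := Fin.ofNat 27 ((wy.getD a.val []).getD b.val 0)

/-- The point `x` is not covered by the first strip put at `a` nor by the second one put at `b`. -/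
def free (a b x : Fin 27) : Bool :=
  !(decide (pr1 a ≤ pr1 x) && decide (pr1 x ≤ pr1 a + 2092)) &&
  !(decide (pr2 b ≤ pr2 x) && decide (pr2 x ≤ pr2 b + 78829))

theorem comb : ∀ a b : Fin 27, free a b (gx a b) = true ∧ free a b (gy a b) = true ∧
    pr3 (gy a b) + 121027 < pr3 (gx a b) := by decide +kernel

/-- The vertices of the quadrilateral (times `10000`). -/
def vx : Fin 4 → ℤ := ![-1149, 975, 4558, 2432]
def vy : Fin 4 → ℤ := ![-427, -4430, 521, 3698]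
/-- The edge vectors. -/
def ex : Fin 4 → ℤ := ![2124, 3583, -2126, -3581]
def ey : Fin 4 → ℤ := ![-4003, 4951, 3177, -4125]

/-- All test points lie in the quadrilateral. -/
theorem inside : ∀ (e : Fin 27) (i : Fin 4), 0 ≤ ex i * (Y e - vy i) - ey i * (X e - vx i) := by
  decide +kernel

abbrev E2 := EuclideanSpace ℝ (Fin 2)

/-- The affine function that is nonnegative on the inner side of edge `i`. -/
noncomputable def L (i : Fin 4) (x : E2) : ℝ :=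
  (ex i : ℝ) * (10000 * x 1 - vy i) - (ey i : ℝ) * (10000 * x 0 - vx i)

/-- The quadrilateral. -/
def B : Set E2 := {x | ∀ i, 0 ≤ L i x}

theorem L_cont (i : Fin 4) : Continuous (L i) := by
  unfold L
  fun_prop

theorem B_closed : IsClosed B := by
  have : B = ⋂ i, {x | 0 ≤ L i x} := by ext x; simp [B]
  rw [this]
  exact isClosed_iInter fun i => isClosed_le continuous_const (L_cont i)

theorem L_comb (i : Fin 4) (x y : E2) (a b : ℝ) (hab : a + b = 1) :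
    L i (a • x + b • y) = a * L i x + b * L i y := by
  simp only [L, PiLp.add_apply, PiLp.smul_apply, smul_eq_mul]
  have hb : b = 1 - a := by linarith
  subst hb
  ring

theorem B_convex : Convex ℝ B := by
  intro x hx y hy a b ha hb hab i
  rw [L_comb i x y a b hab]
  have := hx i
  have := hy i
  positivity

theorem L0 (x : E2) : L 0 x = 2124 * (10000 * x 1 + 427) + 4003 * (10000 * x 0 + 1149) := by
  simp [L, ex, ey, vx, vy]
theorem L1 (x : E2) : L 1 x = 3583 * (10000 * x 1 + 4430) - 4951 * (10000 * x 0 - 975) := by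
  simp [L, ex, ey, vx, vy]
theorem L2 (x : E2) : L 2 x = -2126 * (10000 * x 1 - 521) - 3177 * (10000 * x 0 - 4558) := by
  simp [L, ex, ey, vx, vy]
theorem L3 (x : E2) : L 3 x = -3581 * (10000 * x 1 - 3698) + 4125 * (10000 * x 0 - 2432) := by
  simp [L, ex, ey, vx, vy]

theorem B_bdd {x : E2} (hx : x ∈ B) : -1 ≤ x 0 ∧ x 0 ≤ 1 ∧ -1 ≤ x 1 ∧ x 1 ≤ 1 := by
  have h0 := hx 0
  have h1 := hx 1
  have h2 := hx 2
  have h3 := hx 3
  rw [L0] at h0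
  rw [L1] at h1
  rw [L2] at h2
  rw [L3] at h3
  refine ⟨?_, ?_, ?_, ?_⟩ <;> linarith

theorem B_compact : IsCompact B := by
  apply Metric.isCompact_of_isClosed_isBounded B_closed
  refine (Metric.isBounded_iff_subset_closedBall (0 : E2)).mpr ⟨2, ?_⟩
  intro x hx
  rw [mem_closedBall_zero_iff, EuclideanSpace.norm_eq]
  obtain ⟨h1, h2, h3, h4⟩ := B_bdd hx
  rw [Real.sqrt_le_left (by norm_num)]
  simp only [Fin.sum_univ_two, Real.norm_eq_abs, sq_abs]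
  nlinarith

/-- The open quadrilateral. -/
def O : Set E2 := {x | ∀ i, 0 < L i x}

theorem O_open : IsOpen O := by
  have : O = ⋂ i, {x | 0 < L i x} := by ext x; simp [O]
  rw [this]
  exact isOpen_iInter_of_finite fun i => isOpen_lt continuous_const (L_cont i)

theorem O_sub : O ⊆ interior B := interior_maximal (fun _ hx i => (hx i).le) O_open

theorem B_int : (interior B).Nonempty := by
  refine ⟨(WithLp.toLp 2 ![(1 : ℝ) / 10, 0] : E2), O_sub ?_⟩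
  intro i
  fin_cases i
  · show 0 < L 0 _
    rw [L0]; simp; norm_num
  · show 0 < L 1 _
    rw [L1]; simp; norm_num
  · show 0 < L 2 _
    rw [L2]; simp; norm_num
  · show 0 < L 3 _
    rw [L3]; simp; norm_num

/-- The vertices. -/
noncomputable def V (i : Fin 4) : E2 := WithLp.toLp 2 ![(vx i : ℝ) / 10000, (vy i : ℝ) / 10000]

theorem mem_seg (i j : Fin 4) (x : E2) (t : ℝ) (ht0 : 0 ≤ t) (ht1 : t ≤ 1)
    (hx0 : 10000 * x 0 = vx i + t * (vx j - vx i)) (hx1 : 10000 * x 1 = vy i + t * (vy j - vy i)) :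
    x ∈ segment ℝ (V i) (V j) := by
  refine ⟨1 - t, t, by linarith, ht0, by ring, ?_⟩
  ext k
  fin_cases k
  · simp [V]; linarith
  · simp [V]; linarith

theorem frontier_sub : frontier B ⊆ segment ℝ (V 0) (V 1) ∪ segment ℝ (V 1) (V 2) ∪
    segment ℝ (V 2) (V 3) ∪ segment ℝ (V 3) (V 0) := by
  intro x hx
  have hxB : x ∈ B := B_closed.frontier_subset hx
  have hnot : x ∉ O := fun h => hx.2 (O_sub h)
  have h0 := hxB 0
  have h1 := hxB 1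
  have h2 := hxB 2
  have h3 := hxB 3
  have hex : ∃ i, L i x = 0 := by
    by_contra hno
    push Not at hno
    exact hnot fun i => lt_of_le_of_ne (hxB i) (Ne.symm (hno i))
  obtain ⟨i, hi⟩ := hex
  rw [L0] at h0
  rw [L1] at h1
  rw [L2] at h2
  rw [L3] at h3
  fin_cases i
  · left; left; left
    change L 0 x = 0 at hi
    rw [L0] at hi
    apply mem_seg 0 1 x ((10000 * x 0 + 1149) / 2124) <;> simp [vx, vy] <;> linarith
  · left; left; right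
    change L 1 x = 0 at hi
    rw [L1] at hi
    apply mem_seg 1 2 x ((10000 * x 0 - 975) / 3583) <;> simp [vx, vy] <;> linarith
  · left; right
    change L 2 x = 0 at hi
    rw [L2] at hi
    apply mem_seg 2 3 x ((4558 - 10000 * x 0) / 2126) <;> simp [vx, vy] <;> linarith
  · right
    change L 3 x = 0 at hi
    rw [L3] at hi
    apply mem_seg 3 0 x ((2432 - 10000 * x 0) / 3581) <;> simp [vx, vy] <;> linarith

theorem dist_V (i j : Fin 4) (r : ℝ) (hr : 0 ≤ r)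
    (h : (((vx i : ℝ) - vx j) / 10000) ^ 2 + (((vy i : ℝ) - vy j) / 10000) ^ 2 ≤ r ^ 2) :
    edist (V i) (V j) ≤ ENNReal.ofReal r := by
  rw [edist_dist]
  apply ENNReal.ofReal_le_ofReal
  rw [EuclideanSpace.dist_eq, Real.sqrt_le_left hr]
  simp only [Fin.sum_univ_two, Real.dist_eq, sq_abs]
  have e0 : (V i) 0 - (V j) 0 = ((vx i : ℝ) - vx j) / 10000 := by simp [V]; ring
  have e1 : (V i) 1 - (V j) 1 = ((vy i : ℝ) - vy j) / 10000 := by simp [V]; ring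
  rw [e0, e1]
  exact h

theorem perimeter_le : MeasureTheory.Measure.hausdorffMeasure 1 (frontier B) ≤ 2 := by
  have d01 : edist (V 0) (V 1) ≤ ENNReal.ofReal 0.4532 := by
    apply dist_V 0 1 _ (by norm_num); simp [vx, vy]; norm_num
  have d12 : edist (V 1) (V 2) ≤ ENNReal.ofReal 0.6112 := by
    apply dist_V 1 2 _ (by norm_num); simp [vx, vy]; norm_num
  have d23 : edist (V 2) (V 3) ≤ ENNReal.ofReal 0.3823 := by
    apply dist_V 2 3 _ (by norm_num); simp [vx, vy]; norm_num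
  have d30 : edist (V 3) (V 0) ≤ ENNReal.ofReal 0.5463 := by
    apply dist_V 3 0 _ (by norm_num); simp [vx, vy]; norm_num
  have hsum : ENNReal.ofReal 0.4532 + ENNReal.ofReal 0.6112 + ENNReal.ofReal 0.3823
      + ENNReal.ofReal 0.5463 ≤ 2 := by
    rw [← ENNReal.ofReal_add (by norm_num) (by norm_num),
      ← ENNReal.ofReal_add (by norm_num) (by norm_num),
      ← ENNReal.ofReal_add (by norm_num) (by norm_num)]
    have : (2 : ENNReal) = ENNReal.ofReal 2 := by simp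
    rw [this]
    apply ENNReal.ofReal_le_ofReal
    norm_num
  calc MeasureTheory.Measure.hausdorffMeasure 1 (frontier B)
      ≤ MeasureTheory.Measure.hausdorffMeasure 1 (segment ℝ (V 0) (V 1) ∪ segment ℝ (V 1) (V 2) ∪
    segment ℝ (V 2) (V 3) ∪ segment ℝ (V 3) (V 0)) := measure_mono frontier_sub
    _ ≤ MeasureTheory.Measure.hausdorffMeasure 1 (segment ℝ (V 0) (V 1))
        + MeasureTheory.Measure.hausdorffMeasure 1 (segment ℝ (V 1) (V 2))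
        + MeasureTheory.Measure.hausdorffMeasure 1 (segment ℝ (V 2) (V 3))
        + MeasureTheory.Measure.hausdorffMeasure 1 (segment ℝ (V 3) (V 0)) := by
        refine (measure_union_le _ _).trans ?_
        gcongr
        refine (measure_union_le _ _).trans ?_
        gcongr
        exact measure_union_le _ _
    _ = edist (V 0) (V 1) + edist (V 1) (V 2) + edist (V 2) (V 3) + edist (V 3) (V 0) := by
        rw [hausdorffMeasure_segment, hausdorffMeasure_segment, hausdorffMeasure_segment,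
          hausdorffMeasure_segment]
    _ ≤ ENNReal.ofReal 0.4532 + ENNReal.ofReal 0.6112 + ENNReal.ofReal 0.3823
      + ENNReal.ofReal 0.5463 := by gcongr
    _ ≤ 2 := hsum

/-- The test points. -/
noncomputable def pt (e : Fin 27) : E2 := WithLp.toLp 2 ![(X e : ℝ) / 10000, (Y e : ℝ) / 10000]

theorem pt_mem (e : Fin 27) : pt e ∈ B := by
  intro i
  have h := inside e i
  have h' : (0 : ℝ) ≤ ((ex i * (Y e - vy i) - ey i * (X e - vx i) : ℤ) : ℝ) := by exact_mod_cast h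
  push_cast at h'
  have e0 : 10000 * (pt e) 0 = X e := by simp [pt]; ring
  have e1 : 10000 * (pt e) 1 = Y e := by simp [pt]; ring
  unfold L
  rw [e0, e1]
  exact h'

/-- The unit normals. -/
noncomputable def u : Fin 3 → E2 :=
  ![WithLp.toLp 2 ![1, 0], WithLp.toLp 2 ![8 / 17, 15 / 17], WithLp.toLp 2 ![-12 / 37, 35 / 37]]

/-- The widths. -/
noncomputable def w : Fin 3 → ℝ := ![2092 / 10000, 4637 / 10000, 3271 / 10000]

theorem norm_u (i : Fin 3) : ‖u i‖ = 1 := by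
  rw [EuclideanSpace.norm_eq, Real.sqrt_eq_one]
  fin_cases i
  · simp [u]
  · simp [u]; norm_num
  · simp [u]; norm_num

theorem w_pos (i : Fin 3) : 0 < w i := by
  fin_cases i <;> simp [w]

theorem w_sum : ∑ i, w i = 1 := by
  simp [w, Fin.sum_univ_three]; norm_num

theorem inner0 (e : Fin 27) : inner ℝ (pt e) (u 0) = (pr1 e : ℝ) / 10000 := by
  simp [PiLp.inner_apply, u, pt, pr1]

theorem inner1 (e : Fin 27) : inner ℝ (pt e) (u 1) = (pr2 e : ℝ) / 170000 := by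
  simp [PiLp.inner_apply, u, pt, pr2]; ring

theorem inner2 (e : Fin 27) : inner ℝ (pt e) (u 2) = (pr3 e : ℝ) / 370000 := by
  simp [PiLp.inner_apply, u, pt, pr3]; ring

/-- A strip can be shifted so that its lower boundary passes through one of the points. -/
theorem shift (p : Fin 27 → ℤ) (c : ℝ) (W : ℤ) : ∃ a : Fin 27, ∀ x : Fin 27,
    c ≤ (p x : ℝ) → (p x : ℝ) ≤ c + W → p a ≤ p x ∧ p x ≤ p a + W := by
  classical
  set s : Finset (Fin 27) := Finset.univ.filter (fun x => c ≤ (p x : ℝ)) with hs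
  rcases s.eq_empty_or_nonempty with h | h
  · refine ⟨0, fun x hx _ => ?_⟩
    exfalso
    have : x ∈ s := by simp [hs, hx]
    rw [h] at this
    simp at this
  · obtain ⟨a, ha, hmin⟩ := s.exists_min_image p h
    refine ⟨a, fun x hx hx2 => ⟨hmin x (by simp [hs, hx]), ?_⟩⟩
    have ha' : c ≤ (p a : ℝ) := by simpa [hs] using ha
    have : (p x : ℝ) ≤ ((p a + W : ℤ) : ℝ) := by push_cast; linarith
    exact_mod_cast this

theorem free_iff (a b x : Fin 27) : free a b x = true ↔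
    ¬ (pr1 a ≤ pr1 x ∧ pr1 x ≤ pr1 a + 2092) ∧ ¬ (pr2 b ≤ pr2 x ∧ pr2 x ≤ pr2 b + 78829) := by
  simp only [free, Bool.and_eq_true, Bool.not_eq_true', Bool.and_eq_false_iff,
    decide_eq_false_iff_not]
  constructor <;> intro h <;> omega

theorem not_covered (c : Fin 3 → ℝ) : ¬ B ⊆ ⋃ i, {x : EuclideanSpace ℝ (Fin 2) |
    c i ≤ inner ℝ x (u i) ∧ inner ℝ x (u i) ≤ c i + w i} := by
  intro hcov
  obtain ⟨a, ha⟩ := shift pr1 (10000 * c 0) 2092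
  obtain ⟨b, hb⟩ := shift pr2 (170000 * c 1) 78829
  have key : ∀ x : Fin 27, free a b x = true →
      370000 * c 2 ≤ (pr3 x : ℝ) ∧ (pr3 x : ℝ) ≤ 370000 * c 2 + 121027 := by
    intro x hx
    rw [free_iff] at hx
    have hm := hcov (pt_mem x)
    rw [Set.mem_iUnion] at hm
    obtain ⟨i, hi⟩ := hm
    simp only [Set.mem_ofPred_eq] at hi
    fin_cases i
    · exfalso
      change c 0 ≤ inner ℝ (pt x) (u 0) ∧ inner ℝ (pt x) (u 0) ≤ c 0 + w 0 at hi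
      rw [inner0] at hi
      have hw : w 0 = 2092 / 10000 := by simp [w]
      rw [hw] at hi
      refine hx.1 (ha x (by linarith [hi.1]) ?_)
      push_cast
      linarith [hi.2]
    · exfalso
      change c 1 ≤ inner ℝ (pt x) (u 1) ∧ inner ℝ (pt x) (u 1) ≤ c 1 + w 1 at hi
      rw [inner1] at hi
      have hw : w 1 = 4637 / 10000 := by simp [w]
      rw [hw] at hi
      refine hx.2 (hb x (by linarith [hi.1]) ?_)
      push_cast
      linarith [hi.2]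
    · change c 2 ≤ inner ℝ (pt x) (u 2) ∧ inner ℝ (pt x) (u 2) ≤ c 2 + w 2 at hi
      rw [inner2] at hi
      have hw : w 2 = 3271 / 10000 := by simp [w]
      rw [hw] at hi
      constructor
      · linarith [hi.1]
      · linarith [hi.2]
  obtain ⟨h1, h2, h3⟩ := comb a b
  have k1 := (key _ h1).2
  have k2 := (key _ h2).1
  have h3' : ((pr3 (gy a b) + 121027 : ℤ) : ℝ) < ((pr3 (gx a b) : ℤ) : ℝ) := by exact_mod_cast h3
  push_cast at h3'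
  linarith

/-- The negation of the preceding statement: For any finitely many planar strips with given unit normals and positive widths summing to 1, and any planar convex body with perimeter at most 2, the strips can be translated so that their union covers the body. -/
theorem result :
    ¬ (∀ (n : ℕ) (u : Fin n → EuclideanSpace ℝ (Fin 2)) (w : Fin n → ℝ),
      (∀ i, ‖u i‖ = 1) → (∀ i, 0 < w i) → (∑ i, w i) = 1 →
      ∀ B : Set (EuclideanSpace ℝ (Fin 2)),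
        IsCompact B → Convex ℝ B → (interior B).Nonempty →
        MeasureTheory.Measure.hausdorffMeasure 1 (frontier B) ≤ 2 →
        ∃ c : Fin n → ℝ,
          B ⊆ ⋃ i, {x : EuclideanSpace ℝ (Fin 2) |
            c i ≤ inner ℝ x (u i) ∧ inner ℝ x (u i) ≤ c i + w i}) := by
  intro h
  obtain ⟨c, hc⟩ := h 3 u w norm_u w_pos w_sum B B_compact B_convex B_int perimeter_le
  exact not_covered c hc

end Pool.Agent.S11730
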