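import Pool.Statements.S11749
import Pool.Agent.H927R3.Nu2Final

set_option autoImplicit false
open Classical
open Pool Pool.MP_d883e0_co

namespace Pool.Agent.S11749

/-- There exist c>0 and C such that for every n≥1 some triangle-free graph on n vertices has complement whose real adjacency matrix has rank at most C·n^(1−c), i.e. ν_2(n)=O(n^(1−c)). -/
theorem result :
    ∃ c : ℝ, 0 < c ∧ ∃ C : ℝ, 0 < C ∧
      ∀ n : ℕ, 1 ≤ n →
        ∃ G : SimpleGraph (Fin n), G.CliqueFree 3 ∧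
          (((Gᶜ).adjMatrix ℝ).rank : ℝ) ≤ C * (n : ℝ) ^ (1 - c) := by
  obtain ⟨c, hc, C, hC, h⟩ := Pool.Agent.H927R3.Nu2.main
  refine ⟨c, hc, C, hC, fun n hn => ?_⟩
  obtain ⟨G, hG, hr⟩ := h n hn
  exact ⟨G, hG, hr⟩

end Pool.Agent.S11749
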