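import Pool.Statements.S11787
import Pool.Agent.H388R3.ABexp

set_option autoImplicit false
open Pool Pool.MP_d9da44_co

namespace Pool.Agent.S11787

/-- four cubes already sum to everything -/
theorem four (n : ℕ) (T : Fin 4 → ((Fin n → ZMod 3) ≃ₗ[ZMod 3] (Fin n → ZMod 3)))
    (y : Fin n → ZMod 3) : ∃ x : Fin 4 → Fin n → ZMod 3,
      (∀ j i, x j i = 0 ∨ x j i = 1) ∧ ∑ j, T j (x j) = y := by
  classical
  obtain ⟨S, hS⟩ := Pool.H388R3.AB.four_bases n (fun j => (Pi.basisFun (ZMod 3) (Fin n)).map (T j)) y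
  refine ⟨fun j i => if (j, i) ∈ S then 1 else 0, ?_, ?_⟩
  · intro j i
    by_cases h : (j, i) ∈ S
    · right; simp [h]
    · left; simp [h]
  · rw [← hS]
    have h1 : ∀ j : Fin 4, T j (fun i => if (j, i) ∈ S then (1 : ZMod 3) else 0) =
        ∑ i : Fin n, if (j, i) ∈ S then T j (Pi.single i 1) else 0 := by
      intro j
      have h2 : (fun i => if (j, i) ∈ S then (1 : ZMod 3) else 0) =
          ∑ i : Fin n, (if (j, i) ∈ S then (Pi.single i (1 : ZMod 3)) else 0) := by
        ext k
        rw [Finset.sum_apply]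
        rw [Finset.sum_eq_single k]
        · by_cases h : (j, k) ∈ S <;> simp [h]
        · intro i _ hik
          by_cases h : (j, i) ∈ S
          · simp [h, Pi.single_apply, Ne.symm hik]
          · simp [h]
        · intro h; exact absurd (Finset.mem_univ k) h
      rw [h2, map_sum]
      refine Finset.sum_congr rfl fun i _ => ?_
      by_cases h : (j, i) ∈ S <;> simp [h]
    simp only [h1]
    rw [← Finset.sum_product']
    rw [← Finset.sum_filter]
    have h3 : (Finset.univ ×ˢ Finset.univ : Finset (Fin 4 × Fin n)).filter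
        (fun x => (x.1, x.2) ∈ S) = S := by
      ext x; simp
    rw [h3]
    refine Finset.sum_congr rfl fun x _ => ?_
    simp

/-- For every n, any 100 invertible linear maps of F_3^n, and any target vector v, v is a sum of the images of 100 vectors with all coordinates in {0,1}, i.e. the 100 image cubes sum to all of F_3^n. -/
theorem result :
    ∀ n : ℕ, ∀ T : Fin 100 → ((Fin n → ZMod 3) ≃ₗ[ZMod 3] (Fin n → ZMod 3)),
      ∀ v : Fin n → ZMod 3, ∃ x : Fin 100 → Fin n → ZMod 3,
        (∀ i j, x i j = 0 ∨ x i j = 1) ∧ ∑ i, T i (x i) = v := by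
  intro n T v
  obtain ⟨x, hx, hs⟩ := four n (fun j => T (Fin.castLE (by norm_num) j)) v
  refine ⟨fun i => if h : i.1 < 4 then x ⟨i.1, h⟩ else 0, ?_, ?_⟩
  · intro i j
    by_cases h : i.1 < 4
    · simp only [h, dif_pos]; exact hx _ _
    · simp only [h, dif_neg, not_false_iff]; left; rfl
  · rw [← hs]
    have key : ∀ f : Fin (4 + 96) → (Fin n → ZMod 3),
        (∀ i : Fin 96, f (Fin.natAdd 4 i) = 0) → ∑ i, f i = ∑ i : Fin 4, f (Fin.castAdd 96 i) := by
      intro f hf
      rw [Fin.sum_univ_add, Finset.sum_eq_zero (fun i _ => hf i), add_zero]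
    have := key (fun i : Fin 100 => T i (if h : i.1 < 4 then x ⟨i.1, h⟩ else 0)) (by
      intro i
      have h : ¬ ((Fin.natAdd 4 i : Fin (4 + 96)).1 < 4) := by simp
      simp only [h, dif_neg, not_false_iff, map_zero])
    refine this.trans ?_
    refine Finset.sum_congr rfl fun j _ => ?_
    have h : (Fin.castAdd 96 j : Fin (4 + 96)).1 < 4 := by simp
    simp only [h, dif_pos]
    rfl

end Pool.Agent.S11787
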