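import Pool.Statements.S11792
import Pool.Agent.H112R3.SubstGlue

set_option autoImplicit false
open Pool Pool.MP_da1f04_co

namespace Pool.Agent.S11792

/-- The negation of the preceding statement: If a class of finite graphs is χ-bounded (induced subgraphs with no (m+1)-clique are f(m)-colourable), then for each k its closure under isomorphism, substitution and gluing along at most k vertices is also χ-bounded. -/
theorem result :
    ¬ (∀ (C : ∀ n : ℕ, SimpleGraph (Fin n) → Prop),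
      (∃ f : ℕ → ℕ, ∀ (n : ℕ) (G : SimpleGraph (Fin n)), C n G →
        ∀ (s : Set (Fin n)) (m : ℕ), (G.induce s).CliqueFree (m + 1) →
          (G.induce s).Colorable (f m)) →
      ∀ k : ℕ, ∃ f : ℕ → ℕ, ∀ (n : ℕ) (G : SimpleGraph (Fin n)),
        (∀ P : ∀ n : ℕ, SimpleGraph (Fin n) → Prop,
          (∀ (n₀ : ℕ) (G₀ : SimpleGraph (Fin n₀)), C n₀ G₀ → P n₀ G₀) →
          (∀ (n₁ n₂ : ℕ) (G₁ : SimpleGraph (Fin n₁)) (G₂ : SimpleGraph (Fin n₂)),
            P n₁ G₁ → Nonempty (SimpleGraph.Iso G₁ G₂) → P n₂ G₂) →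
          (∀ (a b n₀ : ℕ) (G₁ : SimpleGraph (Fin a)) (G₂ : SimpleGraph (Fin b))
            (H : SimpleGraph (Fin n₀)) (v : Fin a) (p : Fin n₀ → Fin a) (q : Fin b → Fin n₀),
            P a G₁ → P b G₂ → Function.Injective q → Function.Surjective p →
            (∀ x, p x = v ↔ x ∈ Set.range q) →
            (∀ x y, p x = p y → p x ≠ v → x = y) →
            (∀ x y, (p x ≠ v ∨ p y ≠ v) → (H.Adj x y ↔ G₁.Adj (p x) (p y))) →
            (∀ i j, H.Adj (q i) (q j) ↔ G₂.Adj i j) →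
            P n₀ H) →
          (∀ (a b n₀ : ℕ) (G₁ : SimpleGraph (Fin a)) (G₂ : SimpleGraph (Fin b))
            (H : SimpleGraph (Fin n₀)) (f₁ : Fin a → Fin n₀) (f₂ : Fin b → Fin n₀),
            P a G₁ → P b G₂ → Function.Injective f₁ → Function.Injective f₂ →
            (∀ i j, H.Adj (f₁ i) (f₁ j) ↔ G₁.Adj i j) →
            (∀ i j, H.Adj (f₂ i) (f₂ j) ↔ G₂.Adj i j) →
            (∀ x, x ∈ Set.range f₁ ∨ x ∈ Set.range f₂) →
            (Set.range f₁ ∩ Set.range f₂).ncard ≤ k →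
            (∀ x y, x ∉ Set.range f₂ → y ∉ Set.range f₁ → ¬ H.Adj x y) →
            P n₀ H) →
          P n G) →
        ∀ (s : Set (Fin n)) (m : ℕ), (G.induce s).CliqueFree (m + 1) →
          (G.induce s).Colorable (f m)) := by
  intro hall
  obtain ⟨f, hf⟩ := hall (fun n _ => n ≤ 2) ⟨fun _ => 2, by
    intro n G hn s m _
    refine SimpleGraph.Colorable.mono hn ?_
    exact ⟨SimpleGraph.Coloring.mk (fun x => x.1) (fun {v w} hvw h => by
      have : v = w := Subtype.ext h
      subst this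
      exact (G.induce s).loopless.irrefl _ hvw)⟩⟩ 2
  obtain ⟨V, hV, H, h1, h2, h3⟩ := Pool.Agent.H112R3.SubstGlue.exists_graph (f 2)
  obtain ⟨n, G, ⟨e⟩⟩ := Pool.Agent.H112R3.SubstGlue.exists_fin H
  have hcol := hf n G (fun P hb hi hs hg => h1 P ⟨hb, hi, hs, hg⟩ n G ⟨e⟩) Set.univ 2 (by
    intro t ht
    rw [SimpleGraph.isNClique_iff] at ht
    obtain ⟨a, b, c, hab, hac, hbc, rfl⟩ := Finset.card_eq_three.1 ht.2
    have hcl := ht.1
    have ab : (G.induce Set.univ).Adj a b := hcl (by simp) (by simp) hab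
    have ac : (G.induce Set.univ).Adj a c := hcl (by simp) (by simp) hac
    have bc : (G.induce Set.univ).Adj b c := hcl (by simp) (by simp) hbc
    exact h2 (e a) (e b) (e c) (e.map_adj_iff.2 ab) (e.map_adj_iff.2 bc) (e.map_adj_iff.2 ac))
  apply h3
  obtain ⟨φ⟩ := hcol
  exact ⟨(φ.comp (SimpleGraph.induceUnivIso G).symm.toHom).comp e.symm.toHom⟩

end Pool.Agent.S11792
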