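import Pool.Statements.S11804

set_option autoImplicit false
open Pool Pool.MP_da9eaf_co

namespace Pool.Agent.S11804

/-- Strict separation of every point by a linear functional gives convex independence. -/
theorem convexIndependent_of_functional {ι V : Type*} [AddCommGroup V] [Module ℝ V]
    (p : ι → V)
    (h : ∀ x : ι, ∃ φ : V →ₗ[ℝ] ℝ, ∀ y : ι, y ≠ x → φ (p x) < φ (p y)) :
    ConvexIndependent ℝ p := by
  intro s x hx
  by_contra hxs
  obtain ⟨φ, hφ⟩ := h x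
  have hconv : Convex ℝ {z : V | φ (p x) < φ z} := convex_halfSpace_gt φ.isLinear (φ (p x))
  have hsub : p '' s ⊆ {z : V | φ (p x) < φ z} := by
    rintro _ ⟨y, hy, rfl⟩
    apply hφ
    rintro rfl
    exact hxs hy
  have h3 := convexHull_min hsub hconv hx
  simp at h3

/-- Points of different classes. -/
theorem core_ne (M ε K s t s' t' : ℝ) (hM : 1 ≤ M) (hs : 1 ≤ s) (ht : 1 ≤ t) (hs' : 1 ≤ s')
    (ht' : 1 ≤ t') (hsM : s ≤ M) (htM : t ≤ M) (hsM' : s' ≤ M) (htM' : t' ≤ M)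
    (hε : ε = 1 / (32 * M ^ 3)) (hK : K = 64 * M ^ 5)
    (hr : 1 / M ^ 2 ≤ |1 / (s' * t') - 1 / (s * t)|) :
    (1 / s + 1 / t + ε * (s ^ 2 + t ^ 2) + K * (1 / (s * t)) ^ 2 / 2)
      - (1 / (s * t) + 2 * ε * (s + t)) * (s + t + K * (1 / (s * t)))
    < (1 / s' + 1 / t' + ε * (s' ^ 2 + t' ^ 2) + K * (1 / (s' * t')) ^ 2 / 2)
      - (1 / (s * t) + 2 * ε * (s + t)) * (s' + t' + K * (1 / (s' * t'))) := by
  have hM0 : 0 < M := by linarith
  have hε0 : 0 < ε := by rw [hε]; positivity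
  have hK0 : 0 < K := by rw [hK]; positivity
  set r := 1 / (s * t) with hrdef
  set r' := 1 / (s' * t') with hrdef'
  set δ := r' - r with hδ
  have hr1 : r ≤ 1 := by
    rw [hrdef, div_le_one (by positivity)]; nlinarith
  have hr0 : 0 < r := by rw [hrdef]; positivity
  have hδ2 : 1 / M ^ 4 ≤ δ ^ 2 := by
    have h1 : (1 / M ^ 2) ^ 2 ≤ |δ| ^ 2 := by
      apply pow_le_pow_left₀ (by positivity) hr
    rw [sq_abs] at h1
    calc 1 / M ^ 4 = (1 / M ^ 2) ^ 2 := by rw [div_pow]; ring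
      _ ≤ _ := h1
  have hu : s + t ≤ 2 * M := by linarith
  have hu0 : 0 < s + t := by linarith
  -- the error term
  have herr : 4 * ε * (s + t) * |δ| ≤ δ ^ 2 / 4 := by
    have h1 : 4 * ε * (s + t) ≤ (1 / M ^ 2) / 4 := by
      have : 4 * ε * (s + t) ≤ 4 * ε * (2 * M) := by
        apply mul_le_mul_of_nonneg_left hu (by positivity)
      have h2 : 4 * ε * (2 * M) = (1 / M ^ 2) / 4 := by
        rw [hε]; field_simp; norm_num
      linarith
    have h3 : 4 * ε * (s + t) ≤ |δ| / 4 := by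
      have : (1 / M ^ 2) / 4 ≤ |δ| / 4 := by linarith
      linarith
    have h4 : 4 * ε * (s + t) * |δ| ≤ |δ| / 4 * |δ| :=
      mul_le_mul_of_nonneg_right h3 (abs_nonneg _)
    have h5 : |δ| / 4 * |δ| = δ ^ 2 / 4 := by
      rw [← sq_abs δ]; ring
    linarith
  have herr2 : 4 * ε * (s + t) * δ ≤ δ ^ 2 / 4 := by
    have : 4 * ε * (s + t) * δ ≤ 4 * ε * (s + t) * |δ| := by
      apply mul_le_mul_of_nonneg_left (le_abs_self _) (by positivity)
    linarith
  have hKpart : 24 * M ≤ K / 2 * (δ ^ 2 - 4 * ε * (s + t) * δ) := by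
    have h1 : 3 / 4 * (1 / M ^ 4) ≤ δ ^ 2 - 4 * ε * (s + t) * δ := by linarith
    have h2 : K / 2 * (3 / 4 * (1 / M ^ 4)) ≤ K / 2 * (δ ^ 2 - 4 * ε * (s + t) * δ) :=
      mul_le_mul_of_nonneg_left h1 (by positivity)
    have h3 : K / 2 * (3 / 4 * (1 / M ^ 4)) = 24 * M := by
      rw [hK]; field_simp; norm_num
    linarith
  have hεM : ε * M ^ 2 ≤ 1 / 32 := by
    have : ε * M ^ 2 = (1 / 32) * (1 / M) := by rw [hε]; field_simp
    rw [this]
    have h1 : 1 / M ≤ 1 := by rw [div_le_one hM0]; exact hM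
    linarith
  have hεM1 : ε * M ≤ 1 / 32 := by nlinarith
  have ha : 1 / s ≤ 1 := by rw [div_le_one (by linarith)]; exact hs
  have hb : 1 / t ≤ 1 := by rw [div_le_one (by linarith)]; exact ht
  have ha' : 0 < 1 / s' := by positivity
  have hb' : 0 < 1 / t' := by positivity
  have hquad : ε * (s ^ 2 + t ^ 2) ≤ 1 / 16 := by
    have h1 : s ^ 2 ≤ M ^ 2 := by nlinarith
    have h2 : t ^ 2 ≤ M ^ 2 := by nlinarith
    nlinarith
  have hquad' : 0 ≤ ε * (s' ^ 2 + t' ^ 2) := by positivity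
  have hσ : r + 2 * ε * (s + t) ≤ 9 / 8 := by
    have : 2 * ε * (s + t) ≤ 2 * ε * (2 * M) :=
      mul_le_mul_of_nonneg_left hu (by positivity)
    linarith
  have hσ0 : 0 < r + 2 * ε * (s + t) := by positivity
  have hlin : (r + 2 * ε * (s + t)) * (s' + t') ≤ 9 / 8 * (2 * M) := by
    apply mul_le_mul hσ (by linarith) (by linarith) (by norm_num)
  have hlin0 : 0 < (r + 2 * ε * (s + t)) * (s + t) := by positivity
  have key : (1 / s' + 1 / t' + ε * (s' ^ 2 + t' ^ 2) + K * r' ^ 2 / 2)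
      - (r + 2 * ε * (s + t)) * (s' + t' + K * r')
      - ((1 / s + 1 / t + ε * (s ^ 2 + t ^ 2) + K * r ^ 2 / 2)
      - (r + 2 * ε * (s + t)) * (s + t + K * r))
      = (1 / s' + 1 / t' + ε * (s' ^ 2 + t' ^ 2)) - (r + 2 * ε * (s + t)) * (s' + t')
        - (1 / s + 1 / t + ε * (s ^ 2 + t ^ 2)) + (r + 2 * ε * (s + t)) * (s + t)
        + K / 2 * (δ ^ 2 - 4 * ε * (s + t) * δ) := by
    rw [hδ]; ring
  rw [← sub_pos, key]
  generalize (r + 2 * ε * (s + t)) * (s' + t') = A1 at *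
  generalize (r + 2 * ε * (s + t)) * (s + t) = A2 at *
  generalize ε * (s' ^ 2 + t' ^ 2) = A3 at *
  generalize ε * (s ^ 2 + t ^ 2) = A4 at *
  generalize K / 2 * (δ ^ 2 - 4 * ε * (s + t) * δ) = A5 at *
  linarith

/-- Points of the same class. -/
theorem core_eq (ε K s t s' t' : ℝ) (hs : 0 < s) (ht : 0 < t) (hs' : 0 < s')
    (ht' : 0 < t') (hε : 0 < ε) (hq : s' * t' = s * t) (hu : s + t ≠ s' + t') :
    (1 / s + 1 / t + ε * (s ^ 2 + t ^ 2) + K * (1 / (s * t)) ^ 2 / 2)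
      - (1 / (s * t) + 2 * ε * (s + t)) * (s + t + K * (1 / (s * t)))
    < (1 / s' + 1 / t' + ε * (s' ^ 2 + t' ^ 2) + K * (1 / (s' * t')) ^ 2 / 2)
      - (1 / (s * t) + 2 * ε * (s + t)) * (s' + t' + K * (1 / (s' * t'))) := by
  have h1 : 1 / s + 1 / t = (s + t) * (1 / (s * t)) := by field_simp; ring
  have h2 : 1 / s' + 1 / t' = (s' + t') * (1 / (s * t)) := by
    rw [← hq]; field_simp; ring
  have h3 : s ^ 2 + t ^ 2 = (s + t) ^ 2 - 2 * (s * t) := by ring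
  have h4 : s' ^ 2 + t' ^ 2 = (s' + t') ^ 2 - 2 * (s * t) := by rw [← hq]; ring
  rw [h1, h2, h3, h4, hq]
  have h5 : 0 < ε * ((s' + t') - (s + t)) ^ 2 := by
    apply mul_pos hε
    apply sq_pos_of_ne_zero
    intro h; apply hu; linarith
  nlinarith [h5]

/-- The gap between reciprocals of powers of two. -/
theorem gap (a b c : ℕ) (hab : a ≠ b) (ha : a ≤ c) (hb : b ≤ c) :
    1 / (2 : ℝ) ^ c ≤ |1 / (2 : ℝ) ^ a - 1 / (2 : ℝ) ^ b| := by
  wlog h : a < b generalizing a b with H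
  · rw [abs_sub_comm]
    exact H b a (Ne.symm hab) hb ha (by omega)
  have h1 : 1 / (2 : ℝ) ^ b ≤ 1 / (2 : ℝ) ^ (a + 1) := by
    apply one_div_le_one_div_of_le (by positivity)
    exact pow_le_pow_right₀ (by norm_num) h
  have h2 : 1 / (2 : ℝ) ^ (a + 1) = 1 / (2 : ℝ) ^ a / 2 := by
    rw [pow_succ]; field_simp
  have h3 : 1 / (2 : ℝ) ^ c ≤ 1 / (2 : ℝ) ^ b := by
    apply one_div_le_one_div_of_le (by positivity)
    exact pow_le_pow_right₀ (by norm_num) hb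
  have h4 : 0 < 1 / (2 : ℝ) ^ a := by positivity
  rw [abs_of_pos (by linarith)]
  linarith

/-- The embedding. -/
noncomputable def emb (h : ℕ) (v : Fin (5 * h)) : Fin 2 → ℝ :=
  if v.1 < 2 * h then
    ![(2 : ℝ) ^ v.1, 1 / (2 : ℝ) ^ v.1 + 1 / (32 * ((2 : ℝ) ^ (2 * h)) ^ 3) * ((2 : ℝ) ^ v.1) ^ 2]
  else
    ![64 * ((2 : ℝ) ^ (2 * h)) ^ 5 * (1 / (2 : ℝ) ^ (v.1 - 2 * h)),
      64 * ((2 : ℝ) ^ (2 * h)) ^ 5 * (1 / (2 : ℝ) ^ (v.1 - 2 * h)) ^ 2 / 2]

theorem emb_injective (h : ℕ) : Function.Injective (emb h) := by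
  have hinj : ∀ a b : ℕ, (2 : ℝ) ^ a = (2 : ℝ) ^ b → a = b := fun a b hab =>
    pow_right_injective₀ (by norm_num) (by norm_num) hab
  have hmix : ∀ v w : Fin (5 * h), v.1 < 2 * h → ¬ w.1 < 2 * h →
      (2 : ℝ) ^ v.1 ≠ 64 * ((2 : ℝ) ^ (2 * h)) ^ 5 * (1 / (2 : ℝ) ^ (w.1 - 2 * h)) := by
    intro v w hv hw heq
    have h1 : (2 : ℝ) ^ v.1 * (2 : ℝ) ^ (w.1 - 2 * h) = 64 * ((2 : ℝ) ^ (2 * h)) ^ 5 := by
      rw [heq]; field_simp
    have h2 : (64 : ℝ) = 2 ^ 6 := by norm_num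
    rw [h2, ← pow_mul, ← pow_add, ← pow_add] at h1
    have h3 := hinj _ _ h1
    have := w.2
    omega
  intro v w hvw
  have e0 := congrFun hvw 0
  unfold emb at e0
  by_cases hv : v.1 < 2 * h <;> by_cases hw : w.1 < 2 * h
  · simp only [hv, hw, if_true, Matrix.cons_val_zero] at e0
    exact Fin.ext (hinj _ _ e0)
  · simp only [hv, hw, if_true, if_false, Matrix.cons_val_zero] at e0
    exact absurd e0 (hmix v w hv hw)
  · simp only [hv, hw, if_true, if_false, Matrix.cons_val_zero] at e0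
    exact absurd e0.symm (hmix w v hw hv)
  · simp only [hv, hw, if_false, Matrix.cons_val_zero] at e0
    have h1 : 1 / (2 : ℝ) ^ (v.1 - 2 * h) = 1 / (2 : ℝ) ^ (w.1 - 2 * h) := by
      have : (64 * ((2 : ℝ) ^ (2 * h)) ^ 5) ≠ 0 := by positivity
      exact mul_left_cancel₀ this e0
    have h2 : (2 : ℝ) ^ (v.1 - 2 * h) = (2 : ℝ) ^ (w.1 - 2 * h) := by
      have := congrArg (fun x => 1 / x) h1
      simpa using this
    have h3 := hinj _ _ h2
    apply Fin.ext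
    omega

/-- The edge attached to a pair. -/
def edge (h : ℕ) (x : Fin h × Fin h) : Finset (Fin (5 * h)) :=
  {⟨x.1.1, by have := x.1.2; omega⟩, ⟨h + x.2.1, by have := x.2.2; omega⟩,
    ⟨2 * h + (x.1.1 + (h + x.2.1)), by have := x.1.2; have := x.2.2; omega⟩}

theorem edge_card (h : ℕ) (x : Fin h × Fin h) : (edge h x).card = 3 := by
  have h1 := x.1.2
  have h2 := x.2.2
  unfold edge
  rw [Finset.card_insert_of_notMem, Finset.card_insert_of_notMem, Finset.card_singleton]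
  · simp only [Finset.mem_singleton, Fin.mk.injEq]; omega
  · simp only [Finset.mem_insert, Finset.mem_singleton, Fin.mk.injEq]; omega

theorem edge_injective (h : ℕ) : Function.Injective (edge h) := by
  intro x y hxy
  have h1 := x.1.2
  have h2 := x.2.2
  have h3 := y.1.2
  have h4 := y.2.2
  have m1 : (⟨x.1.1, by omega⟩ : Fin (5 * h)) ∈ edge h y := by
    rw [← hxy]; unfold edge; simp
  have m2 : (⟨h + x.2.1, by omega⟩ : Fin (5 * h)) ∈ edge h y := by
    rw [← hxy]; unfold edge; simp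
  unfold edge at m1 m2
  simp only [Finset.mem_insert, Finset.mem_singleton, Fin.mk.injEq] at m1 m2
  apply Prod.ext
  · apply Fin.ext; omega
  · apply Fin.ext; omega

theorem sum_edge (h : ℕ) (x : Fin h × Fin h) (f : Fin (5 * h) → (Fin 2 → ℝ)) :
    ∑ v ∈ edge h x, f v = f ⟨x.1.1, by have := x.1.2; omega⟩
      + (f ⟨h + x.2.1, by have := x.2.2; omega⟩
        + f ⟨2 * h + (x.1.1 + (h + x.2.1)), by have := x.1.2; have := x.2.2; omega⟩) := by
  have h1 := x.1.2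
  have h2 := x.2.2
  unfold edge
  rw [Finset.sum_insert, Finset.sum_insert, Finset.sum_singleton]
  · simp only [Finset.mem_singleton, Fin.mk.injEq]; omega
  · simp only [Finset.mem_insert, Finset.mem_singleton, Fin.mk.injEq]; omega

/-- The linear functional `y - σ x`. -/
noncomputable def fun2 (σ : ℝ) : (Fin 2 → ℝ) →ₗ[ℝ] ℝ :=
  LinearMap.proj 1 - σ • LinearMap.proj 0

theorem fun2_apply (σ : ℝ) (z : Fin 2 → ℝ) : fun2 σ z = z 1 - σ * z 0 := by
  simp [fun2]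

theorem fun2_sum (h : ℕ) (x : Fin h × Fin h) (σ : ℝ) :
    fun2 σ (∑ v ∈ edge h x, emb h v)
      = (1 / (2 : ℝ) ^ x.1.1 + 1 / (2 : ℝ) ^ (h + x.2.1)
          + 1 / (32 * ((2 : ℝ) ^ (2 * h)) ^ 3) * (((2 : ℝ) ^ x.1.1) ^ 2 + ((2 : ℝ) ^ (h + x.2.1)) ^ 2)
          + 64 * ((2 : ℝ) ^ (2 * h)) ^ 5
            * (1 / ((2 : ℝ) ^ x.1.1 * (2 : ℝ) ^ (h + x.2.1))) ^ 2 / 2)
        - σ * ((2 : ℝ) ^ x.1.1 + (2 : ℝ) ^ (h + x.2.1)
          + 64 * ((2 : ℝ) ^ (2 * h)) ^ 5
            * (1 / ((2 : ℝ) ^ x.1.1 * (2 : ℝ) ^ (h + x.2.1)))) := by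
  have h1 := x.1.2
  have h2 := x.2.2
  have e1 : x.1.1 < 2 * h := by omega
  have e2 : h + x.2.1 < 2 * h := by omega
  have e3 : ¬ (2 * h + (x.1.1 + (h + x.2.1)) < 2 * h) := by omega
  rw [fun2_apply, sum_edge]
  simp only [emb, e1, e2, e3, if_true, if_false, Pi.add_apply, Matrix.cons_val_zero,
    Matrix.cons_val_one, Nat.add_sub_cancel_left, pow_add]
  ring

theorem emb_convexIndependent (h : ℕ) :
    ConvexIndependent ℝ (fun e : ↥(Finset.univ.image (edge h)) => ∑ v ∈ e.1, emb h v) := by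
  apply convexIndependent_of_functional
  intro e
  obtain ⟨x, -, hx⟩ := Finset.mem_image.1 e.2
  refine ⟨fun2 (1 / ((2 : ℝ) ^ x.1.1 * (2 : ℝ) ^ (h + x.2.1))
    + 2 * (1 / (32 * ((2 : ℝ) ^ (2 * h)) ^ 3)) * ((2 : ℝ) ^ x.1.1 + (2 : ℝ) ^ (h + x.2.1))), ?_⟩
  intro e' hne
  obtain ⟨y, -, hy⟩ := Finset.mem_image.1 e'.2
  have hxy : y ≠ x := by
    rintro rfl
    apply hne
    apply Subtype.ext
    rw [← hx, ← hy]
  have h1 := x.1.2
  have h2 := x.2.2
  have h3 := y.1.2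
  have h4 := y.2.2
  simp only [← hx, ← hy]
  rw [fun2_sum, fun2_sum]
  have pos : ∀ n : ℕ, (1 : ℝ) ≤ 2 ^ n := fun n => one_le_pow₀ (by norm_num)
  have le : ∀ n : ℕ, n ≤ 2 * h → (2 : ℝ) ^ n ≤ 2 ^ (2 * h) := fun n hn =>
    pow_le_pow_right₀ (by norm_num) hn
  by_cases hl : x.1.1 + (h + x.2.1) = y.1.1 + (h + y.2.1)
  · apply core_eq _ _ _ _ _ _ (by positivity) (by positivity) (by positivity) (by positivity)
      (by positivity)
    · rw [← pow_add, ← pow_add, hl]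
    · intro heq
      have hprod : (2 : ℝ) ^ x.1.1 * 2 ^ (h + x.2.1) = 2 ^ y.1.1 * 2 ^ (h + y.2.1) := by
        rw [← pow_add, ← pow_add, hl]
      have h5 : ((2 : ℝ) ^ x.1.1 - 2 ^ y.1.1) * ((2 : ℝ) ^ x.1.1 - 2 ^ (h + y.2.1)) = 0 := by
        have e : (2 : ℝ) ^ (h + x.2.1) = 2 ^ y.1.1 + 2 ^ (h + y.2.1) - 2 ^ x.1.1 := by linarith
        rw [e] at hprod
        nlinarith
      rcases mul_eq_zero.1 h5 with h6 | h6
      · have h7 : x.1.1 = y.1.1 :=
          pow_right_injective₀ (by norm_num : (0:ℝ) < 2) (by norm_num) (sub_eq_zero.1 h6)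
        apply hxy
        apply Prod.ext
        · apply Fin.ext; omega
        · apply Fin.ext; omega
      · have h7 : x.1.1 = h + y.2.1 :=
          pow_right_injective₀ (by norm_num : (0:ℝ) < 2) (by norm_num) (sub_eq_zero.1 h6)
        omega
  · apply core_ne ((2 : ℝ) ^ (2 * h)) _ _ _ _ _ _ (pos _) (pos _) (pos _) (pos _) (pos _)
      (le _ (by omega)) (le _ (by omega)) (le _ (by omega)) (le _ (by omega)) rfl rfl
    rw [← pow_mul, ← pow_add, ← pow_add]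
    apply gap
    · exact fun h' => hl h'.symm
    · omega
    · omega

/-- The negation of the preceding statement: For 2≤d≤k there is a rational α with d-1<α<d such that the maximum number of edges of a k-uniform hypergraph on n vertices with an injective embedding into R^d whose edge barycenters are in convex position is Θ(n^α). -/
theorem result :
    ¬ (∀ d k : ℕ, 2 ≤ d → d ≤ k →
      ∃ α : ℚ, ((d : ℝ) - 1 < (α : ℝ)) ∧ ((α : ℝ) < (d : ℝ)) ∧
        ∃ c C : ℝ, 0 < c ∧ 0 < C ∧ ∃ N : ℕ, ∀ n : ℕ, N ≤ n →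
          (∀ E : Finset (Finset (Fin n)), (∀ e ∈ E, e.card = k) →
              (∃ f : Fin n → (Fin d → ℝ), Function.Injective f ∧
                  ConvexIndependent ℝ (fun e : ↥E => ∑ v ∈ e.1, f v)) →
              (E.card : ℝ) ≤ C * (n : ℝ) ^ (α : ℝ)) ∧
          (∃ E : Finset (Finset (Fin n)), (∀ e ∈ E, e.card = k) ∧
              (∃ f : Fin n → (Fin d → ℝ), Function.Injective f ∧
                  ConvexIndependent ℝ (fun e : ↥E => ∑ v ∈ e.1, f v)) ∧
              c * (n : ℝ) ^ (α : ℝ) ≤ (E.card : ℝ))) := by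
  intro H
  obtain ⟨α, -, hα2, c, C, -, hC, N, hN⟩ := H 2 3 le_rfl (by norm_num)
  have hα2' : (α : ℝ) < 2 := by exact_mod_cast hα2
  -- the upper bound applied to the construction
  have key : ∀ h : ℕ, N ≤ h → (h : ℝ) ^ 2 ≤ C * ((5 * h : ℕ) : ℝ) ^ (α : ℝ) := by
    intro h hh
    have h1 := (hN (5 * h) (by omega)).1 (Finset.univ.image (edge h)) (by
      intro e he
      obtain ⟨x, -, rfl⟩ := Finset.mem_image.1 he
      exact edge_card h x) ⟨emb h, emb_injective h, emb_convexIndependent h⟩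
    rw [Finset.card_image_of_injective _ (edge_injective h)] at h1
    simp only [Finset.card_univ, Fintype.card_prod, Fintype.card_fin] at h1
    push_cast at h1 ⊢
    nlinarith [h1]
  -- contradiction with α < 2
  have hpos : 0 < 2 - (α : ℝ) := by linarith
  have ht : Filter.Tendsto (fun h : ℕ => ((h : ℝ)) ^ (2 - (α : ℝ))) Filter.atTop Filter.atTop :=
    (tendsto_rpow_atTop hpos).comp tendsto_natCast_atTop_atTop
  obtain ⟨h, hh⟩ := ((ht.eventually_gt_atTop (C * (5 : ℝ) ^ (α : ℝ))).and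
    (Filter.eventually_ge_atTop (max N 1))).exists
  have hN' : N ≤ h := le_trans (le_max_left _ _) hh.2
  have h1' : 1 ≤ h := le_trans (le_max_right _ _) hh.2
  have hpos' : (0 : ℝ) < h := by exact_mod_cast h1'
  have h2 := key h hN'
  push_cast at h2
  rw [Real.mul_rpow (by norm_num) hpos'.le] at h2
  have h3 : (h : ℝ) ^ (2 - (α : ℝ)) * (h : ℝ) ^ (α : ℝ) = (h : ℝ) ^ 2 := by
    rw [← Real.rpow_add hpos']
    simp
  have h4 : 0 < (h : ℝ) ^ (α : ℝ) := Real.rpow_pos_of_pos hpos' _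
  have h5 := mul_lt_mul_of_pos_right hh.1 h4
  rw [h3] at h5
  nlinarith [h5, h2]

end Pool.Agent.S11804
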