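import Pool.Statements.S11816

set_option autoImplicit false
open Pool Pool.MP_daf6f7_co

namespace Pool.Agent.S11816

/-- The dual of the wheel with five spokes: the ten vertices are the edges of the wheel, and the
six edges are the stars of the six wheel vertices (hub first). -/
def wheelDual : Fin 6 → Finset (Fin 10) :=
  ![{0, 1, 2, 3, 4}, {0, 5, 9}, {1, 5, 6}, {2, 6, 7}, {3, 7, 8}, {4, 8, 9}]

lemma hyp_holds : ∀ S : Finset (Fin 6), ∃ M ⊆ S,
        (∀ i ∈ M, ∀ j ∈ M, i ≠ j → Disjoint (wheelDual i) (wheelDual j)) ∧
        S.card ≤ M.card *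
          (Finset.univ.sup (fun v : Fin 10 =>
            (S.filter (fun i => v ∈ wheelDual i)).card) + 1) := by
  decide +kernel

lemma sup_eq : Finset.univ.sup
    (fun v : Fin 10 => (Finset.univ.filter (fun i : Fin 6 => v ∈ wheelDual i)).card) = 2 := by
  decide +kernel

lemma no_col : ¬ ∃ c : Fin 6 → Fin 3,
    ∀ i j, i ≠ j → c i = c j → Disjoint (wheelDual i) (wheelDual j) := by
  decide +kernel

/-- The negation of the preceding statement: For any finite hypergraph (edges may repeat) in which every subfamily of edges has a matching of size at least its edge count divided by its max degree plus one, the edges can be colored with max degree plus one colors so same-colored edges are disjoint. -/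
theorem result :
    ¬ (∀ (V : Type) [Fintype V] [DecidableEq V] (m : ℕ) (e : Fin m → Finset V),
    (∀ i, (e i).Nonempty) →
    (∀ S : Finset (Fin m), ∃ M ⊆ S,
        (∀ i ∈ M, ∀ j ∈ M, i ≠ j → Disjoint (e i) (e j)) ∧
        S.card ≤ M.card *
          (Finset.univ.sup (fun v : V => (S.filter (fun i => v ∈ e i)).card) + 1)) →
    ∃ c : Fin m → Fin (Finset.univ.sup
        (fun v : V => (Finset.univ.filter (fun i : Fin m => v ∈ e i)).card) + 1),
      ∀ i j, i ≠ j → c i = c j → Disjoint (e i) (e j)) := by
  intro h
  have h2 := h (Fin 10) 6 wheelDual (by decide +kernel) hyp_holds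
  rw [sup_eq] at h2
  exact no_col h2

end Pool.Agent.S11816
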