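import Pool.Statements.S11829
import Pool.Agent.H671S.PE2

set_option autoImplicit false
open Pool Pool.MP_db9276_co

namespace Pool.Agent.S11829

/-- For every finite colouring of the naturals there is a strictly increasing sequence of positive integers a_n such that all products a_n·a_m and all powers a_m^(a_n), for n<m, have the same single colour. -/
theorem result :
    ∀ (k : ℕ) (c : ℕ → Fin k), ∃ a : ℕ → ℕ, StrictMono a ∧ 0 < a 0 ∧
      ∃ i : Fin k, ∀ n m : ℕ, n < m → c (a n * a m) = i ∧ c (a m ^ a n) = i := by
  intro k c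
  obtain ⟨b, i, hb, h⟩ := Pool.Agent.H671S.PE.exists_seq (κ := Fin k) fun x => c (2 ^ x)
  refine ⟨fun n => 2 ^ b n, fun n m hnm => Nat.pow_lt_pow_right (by norm_num) (hb hnm),
    by positivity, i, fun n m hnm => ⟨?_, ?_⟩⟩
  · have := (h n m hnm).1
    simpa [pow_add] using this
  · have := (h n m hnm).2
    show c ((2 ^ b m) ^ 2 ^ b n) = i
    rw [← pow_mul, mul_comm]
    exact this

end Pool.Agent.S11829
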