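import Pool.Statements.S11834
import Pool.Agent.H315R3.IngRep

set_option autoImplicit false
open Pool Pool.MP_dbb207_co

namespace Pool.Agent.S11834

/-- The negation of the preceding statement: Take a matroid on a finite set whose bases are the invertible column sets of a matrix over a ring with unit subgroup G containing −1, where every normalized form has entries in G or 0. Then every four subsets of it satisfy Ingleton's rank inequality. -/
theorem result :
    ¬ (∀ (R : Type) [Ring R] [Nontrivial R] (G : Subgroup Rˣ), (-1 : Rˣ) ∈ G →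
    ∀ (E : Type) [Fintype E] (r : ℕ) (A : Matrix (Fin r) E R),
      (∀ (b : Fin r ↪ E) (N : Matrix (Fin r) (Fin r) R),
          N * A.submatrix id ⇑b = 1 → A.submatrix id ⇑b * N = 1 →
          ∀ (i : Fin r) (j : E), (N * A) i j = 0 ∨ ∃ g ∈ G, (g : R) = (N * A) i j) →
      ∀ M : Matroid E, M.E = Set.univ →
        (∀ B : Set E, M.IsBase B ↔
            ∃ b : Fin r ↪ E, Set.range ⇑b = B ∧ IsUnit (A.submatrix id ⇑b)) →
        ∀ P Q S T : Set E,
          M.eRk P + M.eRk Q + M.eRk (P ∪ Q ∪ S) + M.eRk (P ∪ Q ∪ T) + M.eRk (S ∪ T) ≤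
            M.eRk (P ∪ Q) + M.eRk (P ∪ S) + M.eRk (P ∪ T) + M.eRk (Q ∪ S) + M.eRk (Q ∪ T)) := by
  intro hall
  obtain ⟨A, hA1, hA2⟩ := Pool.Agent.H315R3.exists_rep
  have h1 := hall Pool.Agent.H315R3.RR ⊤ (Subgroup.mem_top _) Pool.Agent.H315R3.Et 10 A
    (by
      intro b N hN1 hN2 i j
      rcases hA1 b N hN1 hN2 i j with h | h
      · exact Or.inl h
      · exact Or.inr ⟨h.unit, Subgroup.mem_top _, h.unit_spec⟩)
    Pool.Agent.H315R3.MM rfl
    (by
      intro B
      rw [Pool.Agent.H315R3.MM_isBase]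
      constructor
      · rintro ⟨F, rfl, hF⟩
        have hcard : F.card = 10 := ((Pool.Agent.H315R3.isB_iff F).1 hF).1
        let e := F.equivFinOfCardEq hcard
        let b : Fin 10 ↪ Pool.Agent.H315R3.Et :=
          ⟨fun i => (e.symm i : Pool.Agent.H315R3.Et), fun i j hij =>
            e.symm.injective (Subtype.ext hij)⟩
        have hmap : Finset.univ.map b = F := by
          ext x
          rw [Pool.Agent.H315R3.mem_map]
          constructor
          · rintro ⟨i, rfl⟩
            exact (e.symm i).2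
          · intro hx
            refine ⟨e ⟨x, hx⟩, ?_⟩
            show ((e.symm (e ⟨x, hx⟩) : {y // y ∈ F}) : Pool.Agent.H315R3.Et) = x
            rw [Equiv.symm_apply_apply]
        refine ⟨b, ?_, (hA2 b).2 (hmap ▸ hF)⟩
        rw [← hmap, Finset.coe_map, Finset.coe_univ, Set.image_univ]
      · rintro ⟨b, rfl, hb⟩
        refine ⟨Finset.univ.map b, ?_, (hA2 b).1 hb⟩
        rw [Finset.coe_map, Finset.coe_univ, Set.image_univ])
    (Pool.Agent.H315R3.setT 0) (Pool.Agent.H315R3.setT 1) (Pool.Agent.H315R3.setT 2)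
    (Pool.Agent.H315R3.setT 3)
  exact Pool.Agent.H315R3.ingleton_fails h1

end Pool.Agent.S11834
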