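-- A seven-vertex graph with a rational partial correlation matrix all of whose
-- positive semidefinite completions are irrational.
import Pool.Statements.S11842

set_option autoImplicit false
open Pool Pool.MP_dc0d0a_co

namespace Pool.Agent.S11842

open Matrix

/-- Edge table: `0,1,2,3` is a four-cycle, `4` hangs on `0,1`, `5` on `2,3`, `4` is adjacent to
`5`, and `6` is adjacent to `2` and `4`. -/
def E : Fin 7 → Fin 7 → Bool :=
  ![![false, true, false, true, true, false, false],
    ![true, false, true, false, true, false, false],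
    ![false, true, false, true, false, true, true],
    ![true, false, true, false, false, true, false],
    ![true, true, false, false, false, true, true],
    ![false, false, true, true, true, false, false],
    ![false, false, true, false, true, false, false]]

theorem E_symm : ∀ i j, E i j = E j i := by decide

theorem E_irrefl : ∀ i, E i i = false := by decide

/-- The graph. -/
def G : SimpleGraph (Fin 7) where
  Adj i j := E i j = true
  symm := ⟨fun i j h => by rw [E_symm]; exact h⟩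
  loopless := ⟨fun i h => by rw [E_irrefl] at h; exact Bool.noConfusion h⟩

/-- The rational values. -/
def x : Matrix (Fin 7) (Fin 7) ℚ :=
  !![1, 0, 0, -3/4, 4/5, 0, 0;
     0, 1, -3/4, 0, 3/5, 0, 0;
     0, -3/4, 1, 0, 0, -4/5, 1/2;
     -3/4, 0, 0, 1, 0, 3/5, 0;
     4/5, 3/5, 0, 0, 1, -2/5, 17/20;
     0, 0, -4/5, 3/5, -2/5, 1, 0;
     0, 0, 1/2, 0, 17/20, 0, 1]

/-- The coordinates of a real realisation (`s` is the square root of `37`). -/
noncomputable def V (s : ℝ) : Matrix (Fin 3) (Fin 7) ℝ :=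
  !![1, 0, (35 - 3 * s) / 32, -3/4, 4/5, (3 * s - 53) / 40, (65 + 25 * s) / 224;
     0, 1, -3/4, (5 - s) / 6, 3/5, (11 - s) / 10, (173 - 25 * s) / 168;
     0, 0, 1, 2 * (s + 1) / 9, 0, (2 * s - 10) / 15, (17 * s - 37) / 126]

/-- The weights of the three coordinates. -/
noncomputable def W (s : ℝ) : Fin 3 → ℝ := ![1, 1, 15 * (7 * s - 37) / 512]

/-- The real completion. -/
noncomputable def X (s : ℝ) : Matrix (Fin 7) (Fin 7) ℝ := (V s)ᴴ * diagonal (W s) * V s

theorem X_apply (s : ℝ) (i j : Fin 7) :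
    X s i j = V s 0 i * V s 0 j + V s 1 i * V s 1 j +
      15 * (7 * s - 37) / 512 * (V s 2 i * V s 2 j) := by
  unfold X
  rw [Matrix.mul_assoc, Matrix.mul_apply]
  simp only [Matrix.conjTranspose_apply, Matrix.diagonal_mul, star_trivial, Fin.sum_univ_three, W]
  simp
  ring

theorem X_psd (s : ℝ) (hs : 37 / 7 ≤ s) : (X s).PosSemidef := by
  unfold X
  apply PosSemidef.conjTranspose_mul_mul_same
  rw [posSemidef_diagonal_iff]
  intro i
  fin_cases i
  · simp [W]
  · simp [W]
  · simp only [W]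
    simp
    linarith

theorem X_diag (s : ℝ) (h2 : s ^ 2 = 37) (i : Fin 7) : X s i i = 1 := by
  have h3 : s ^ 3 = 37 * s := by rw [pow_succ, h2]
  rw [X_apply]
  fin_cases i <;> simp [V] <;> ring_nf <;> first | done | (rw [h3, h2]; ring) | (rw [h2]; ring)

theorem X_edge (s : ℝ) (h2 : s ^ 2 = 37) (i j : Fin 7) (h : G.Adj i j) :
    X s i j = (x i j : ℝ) := by
  have h3 : s ^ 3 = 37 * s := by rw [pow_succ, h2]
  rw [X_apply]
  change E i j = true at h
  revert h
  fin_cases i <;> fin_cases j <;> simp [V, x, E] <;> ring_nf <;>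
    first | done | (rw [h3, h2]; ring) | (rw [h2]; ring)

/-- Kernel vectors of a positive semidefinite quadratic form. -/
theorem kernel {Y : Matrix (Fin 7) (Fin 7) ℝ} (hY : Y.PosSemidef) (v : Fin 7 → ℝ)
    (hv : v ⬝ᵥ (Y *ᵥ v) = 0) : Y *ᵥ v = 0 := by
  have := (hY.dotProduct_mulVec_zero_iff v).mp (by simpa using hv)
  exact this

/-- The values of a completion at the degenerate pairs. -/
theorem no_rational (Y : Matrix (Fin 7) (Fin 7) ℚ)
    (hY : (Y.map (fun q : ℚ => (q : ℝ))).PosSemidef) (hd : ∀ i, Y i i = 1)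
    (he : ∀ i j, G.Adj i j → Y i j = x i j) : False := by
  have hsym : ∀ i j, Y i j = Y j i := by
    intro i j
    have := hY.isHermitian.apply i j
    simp only [Matrix.map_apply, star_trivial] at this
    exact_mod_cast this.symm
  have hQ : ∀ v : Fin 7 → ℝ, 0 ≤ v ⬝ᵥ (Y.map (fun q : ℚ => (q : ℝ)) *ᵥ v) := by
    intro v
    simpa using hY.dotProduct_mulVec_nonneg v
  have e01 : Y 0 1 = 0 := he 0 1 rfl
  have e10 : Y 1 0 = 0 := he 1 0 rfl
  have e12 : Y 1 2 = -3/4 := he 1 2 rfl
  have e21 : Y 2 1 = -3/4 := he 2 1 rfl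
  have e23 : Y 2 3 = 0 := he 2 3 rfl
  have e32 : Y 3 2 = 0 := he 3 2 rfl
  have e03 : Y 0 3 = -3/4 := he 0 3 rfl
  have e30 : Y 3 0 = -3/4 := he 3 0 rfl
  have e04 : Y 0 4 = 4/5 := he 0 4 rfl
  have e40 : Y 4 0 = 4/5 := he 4 0 rfl
  have e14 : Y 1 4 = 3/5 := he 1 4 rfl
  have e41 : Y 4 1 = 3/5 := he 4 1 rfl
  have e25 : Y 2 5 = -4/5 := he 2 5 rfl
  have e52 : Y 5 2 = -4/5 := he 5 2 rfl
  have e35 : Y 3 5 = 3/5 := he 3 5 rfl
  have e53 : Y 5 3 = 3/5 := he 5 3 rfl
  have e45 : Y 4 5 = -2/5 := he 4 5 rfl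
  have e54 : Y 5 4 = -2/5 := he 5 4 rfl
  have e46 : Y 4 6 = 17/20 := he 4 6 rfl
  have e64 : Y 6 4 = 17/20 := he 6 4 rfl
  have e26 : Y 2 6 = 1/2 := he 2 6 rfl
  have e62 : Y 6 2 = 1/2 := he 6 2 rfl
  have hd0 := hd 0
  have hd1 := hd 1
  have hd2 := hd 2
  have hd3 := hd 3
  have hd4 := hd 4
  have hd5 := hd 5
  have hd6 := hd 6
  have s20 := hsym 2 0
  have s31 := hsym 3 1
  have s42 := hsym 4 2
  have s50 := hsym 5 0
  have s51 := hsym 5 1
  have s43 := hsym 4 3
  -- the vertex `4` is a combination of the vertices `0` and `1`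
  have k4 := kernel hY ![-4/5, -3/5, 0, 0, 1, 0, 0] (by
    simp [dotProduct, mulVec, Fin.sum_univ_succ, hd0, hd1, hd4, e01, e10, e04, e40, e14, e41]
    norm_num)
  -- the vertex `5` is a combination of the vertices `2` and `3`
  have k5 := kernel hY ![0, 0, 4/5, -3/5, 0, 1, 0] (by
    simp [dotProduct, mulVec, Fin.sum_univ_succ, hd2, hd3, hd5, e23, e32, e25, e52, e35, e53]
    norm_num)
  have a1 := congrFun k4 2
  have a2 := congrFun k4 5
  have b1 := congrFun k5 0
  have b2 := congrFun k5 1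
  simp [mulVec, dotProduct, Fin.sum_univ_succ, s20, s50, s51, e21, e54, e03, e12]
    at a1 a2 b1 b2
  generalize hp : (Y 0 2 : ℝ) = p at *
  generalize hs : (Y 1 3 : ℝ) = t at *
  have hA : ∀ a : ℝ, 0 ≤ (2 - 2 * p) * (a * a) + 3 * a + (2 - 2 * t) := by
    intro a
    have := hQ ![a, 1, -a, -1, 0, 0, 0]
    simp [dotProduct, mulVec, Fin.sum_univ_succ, s20, s31, hd0, hd1, hd2, hd3, e01, e10, e12, e21,
      e23, e32, e03, e30, hp, hs] at this
    linarith
  have hB : ∀ a : ℝ, 0 ≤ (111 / 400) * (a * a) + (2 * ((Y 2 4 : ℝ) - 17 / 40)) * a + 3 / 4 := by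
    intro a
    have := hQ ![0, 0, 1, 0, a, 0, -(17 / 20) * a - 1 / 2]
    simp [dotProduct, mulVec, Fin.sum_univ_succ, s42, hd2, hd4, hd6, e46, e64, e26, e62] at this
    linarith
  have hA' := discrim_le_zero hA
  have hB' := discrim_le_zero hB
  unfold discrim at hA' hB'
  have hYt : (Y 2 4 : ℝ) = 4 / 5 * p - 9 / 20 := by linarith
  have htp : t = (16 * p - 10) / 9 := by linarith
  rw [hYt] at hB'
  rw [htp] at hA'
  have hfin : (32 * p - 35) ^ 2 = 333 := by
    apply le_antisymm
    · nlinarith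
    · nlinarith
  have hirr : Irrational (√(37 : ℝ)) := by
    have h37 : Nat.Prime 37 := by norm_num
    exact_mod_cast h37.irrational_sqrt
  apply hirr
  refine ⟨|(32 * Y 0 2 - 35) / 3|, ?_⟩
  rw [eq_comm, Real.sqrt_eq_iff_mul_self_eq (by norm_num) (by positivity)]
  push_cast
  rw [abs_mul_abs_self, hp]
  linarith

/-- The negation of the preceding statement: For every finite graph and rational edge values, if some real positive semidefinite matrix with ones on the diagonal matches the values on edges, then some rational such positive semidefinite matrix also matches them. -/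
theorem result :
    ¬ (∀ (n : ℕ) (G : SimpleGraph (Fin n)) (x : Fin n → Fin n → ℚ),
      (∃ X : Matrix (Fin n) (Fin n) ℝ, X.PosSemidef ∧ (∀ i, X i i = 1) ∧
          ∀ i j, G.Adj i j → X i j = (x i j : ℝ)) →
      ∃ Y : Matrix (Fin n) (Fin n) ℚ,
        (Y.map (fun q : ℚ => (q : ℝ))).PosSemidef ∧ (∀ i, Y i i = 1) ∧
          ∀ i j, G.Adj i j → Y i j = x i j) := by
  intro hall
  have h2 : (√(37 : ℝ)) ^ 2 = 37 := Real.sq_sqrt (by norm_num)
  have h3 : 37 / 7 ≤ √(37 : ℝ) := by
    apply Real.le_sqrt_of_sq_le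
    norm_num
  obtain ⟨Y, hY, hd, he⟩ := hall 7 G x
    ⟨X (√37), X_psd _ h3, X_diag _ h2, X_edge _ h2⟩
  exact no_rational Y hY hd he

end Pool.Agent.S11842
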