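import Pool.Statements.S11843
import Pool.Agent.H567R3.ZG.Fin

set_option autoImplicit false
open Pool Pool.MP_dc0d65_co

namespace Pool.Agent.S11843

/-- Every finite simple r-regular graph with r at least 3 has an edge labelling by nonzero integers of absolute value below 5 such that the labels on edges at each vertex sum to zero. -/
theorem result :
    ∀ (V : Type) [Fintype V] [DecidableEq V] (G : SimpleGraph V) [DecidableRel G.Adj]
      (r : ℕ), 3 ≤ r → G.IsRegularOfDegree r →
      ∃ f : Sym2 V → ℤ,
        (∀ e ∈ G.edgeSet, f e ≠ 0 ∧ |f e| < 5) ∧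
        ∀ v : V, ∑ w ∈ G.neighborFinset v, f s(v, w) = 0 := by
  intro V _ _ G _ r hr hG
  exact Pool.Agent.H567R3.ZG.zero_sum G r hr hG

end Pool.Agent.S11843
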