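import Pool.Statements.S11866

set_option autoImplicit false
open Classical
open Pool Pool.MP_dcf9ac_co

namespace Pool.Agent.S11866

/-- The twenty edges of a triangle-free graph on twelve vertices with independence number four. -/
def edgeList : List (ℕ × ℕ) :=
  [(0, 5), (0, 8), (0, 10), (0, 11), (1, 7), (1, 10), (1, 11), (2, 3), (2, 4), (2, 11), (3, 6),
   (3, 10), (4, 8), (4, 9), (4, 10), (5, 7), (5, 9), (6, 8), (6, 9), (7, 8)]

/-- Number of edges inside the vertex set coded by the bits of `m`. -/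
def cntE (m : ℕ) : ℕ :=
  edgeList.foldr (fun p a => (m.testBit p.1 && m.testBit p.2).toNat + a) 0

/-- Number of vertices in the vertex set coded by the bits of `m`. -/
def cntV (m : ℕ) : ℕ :=
  [0, 1, 2, 3, 4, 5, 6, 7, 8, 9, 10, 11].foldr (fun i a => (m.testBit i).toNat + a) 0

def chk (m : ℕ) : Bool :=
  (Nat.ble (cntV m) 2 || Nat.ble (cntE m + 4) (2 * cntV m)) &&
    (! (Nat.beq (cntV m) 5) || Nat.ble 1 (cntE m))

def chkAll : ℕ → Bool
  | 0 => true
  | n + 1 => chk n && chkAll n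

lemma chkAll_spec : ∀ n, chkAll n = true → ∀ m < n, chk m = true := by
  intro n
  induction n with
  | zero => intro _ m hm; omega
  | succ n ih =>
    intro h m hm
    rw [chkAll, Bool.and_eq_true] at h
    rcases Nat.lt_succ_iff_lt_or_eq.1 hm with h' | h'
    · exact ih h.2 m h'
    · rw [h']; exact h.1

lemma chkAll_ok : chkAll 4096 = true := by decide +kernel

def adjB (i j : Fin 12) : Bool :=
  decide (((i : ℕ), (j : ℕ)) ∈ edgeList) || decide (((j : ℕ), (i : ℕ)) ∈ edgeList)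

/-- The graph. -/
def G12 : SimpleGraph (Fin 12) where
  Adj i j := adjB i j = true
  symm := ⟨by decide +kernel⟩
  loopless := ⟨by decide +kernel⟩

/-- The code of a vertex set. -/
def code (S : Finset (Fin 12)) : ℕ := Nat.ofBits (fun i : Fin 12 => decide (i ∈ S))

lemma code_lt (S : Finset (Fin 12)) : code S < 4096 := Nat.ofBits_lt_two_pow _

lemma code_bit (S : Finset (Fin 12)) (i : ℕ) (h : i < 12) :
    (code S).testBit i = decide ((⟨i, h⟩ : Fin 12) ∈ S) :=
  Nat.testBit_ofBits_lt _ _ h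

lemma card_eq (S : Finset (Fin 12)) : S.card = cntV (code S) := by
  have h1 : S.card = ∑ i : Fin 12, (decide (i ∈ S)).toNat := by
    rw [Finset.card_eq_sum_ones, ← Finset.sum_filter_add_sum_filter_not Finset.univ (fun i => i ∈ S)]
    have h2 : ∑ x ∈ Finset.univ.filter (fun i : Fin 12 => i ∉ S), (decide (x ∈ S)).toNat = 0 := by
      apply Finset.sum_eq_zero
      intro x hx
      rw [Finset.mem_filter] at hx
      simp [hx.2]
    rw [h2, add_zero]
    have h3 : Finset.univ.filter (fun i : Fin 12 => i ∈ S) = S := by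
      ext x; simp
    rw [h3]
    apply Finset.sum_congr rfl
    intro x hx
    simp [hx]
  rw [h1]
  simp only [Fin.sum_univ_succ, Fin.sum_univ_zero, cntV, List.foldr]
  rw [code_bit S 0 (by norm_num), code_bit S 1 (by norm_num), code_bit S 2 (by norm_num),
    code_bit S 3 (by norm_num), code_bit S 4 (by norm_num), code_bit S 5 (by norm_num),
    code_bit S 6 (by norm_num), code_bit S 7 (by norm_num), code_bit S 8 (by norm_num),
    code_bit S 9 (by norm_num), code_bit S 10 (by norm_num), code_bit S 11 (by norm_num)]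
  rfl

/-- The forty arcs. -/
def arcs : List (Fin 12 × Fin 12) :=
  [(0, 5), (0, 8), (0, 10), (0, 11), (1, 7), (1, 10), (1, 11), (2, 3), (2, 4), (2, 11), (3, 6),
   (3, 10), (4, 8), (4, 9), (4, 10), (5, 7), (5, 9), (6, 8), (6, 9), (7, 8),
   (5, 0), (8, 0), (10, 0), (11, 0), (7, 1), (10, 1), (11, 1), (3, 2), (4, 2), (11, 2), (6, 3),
   (10, 3), (8, 4), (9, 4), (10, 4), (7, 5), (9, 5), (8, 6), (9, 6), (8, 7)]

lemma arcs_nodup : arcs.Nodup := by decide +kernel

lemma mem_arcs (p : Fin 12 × Fin 12) : p ∈ arcs ↔ adjB p.1 p.2 = true := by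
  revert p
  decide +kernel

lemma edges_eq (S : Finset (Fin 12)) :
    (Finset.univ.filter (fun p : Fin 12 × Fin 12 =>
      p.1 ∈ S ∧ p.2 ∈ S ∧ G12.Adj p.1 p.2)).card = 2 * cntE (code S) := by
  have h1 : (Finset.univ.filter (fun p : Fin 12 × Fin 12 =>
      p.1 ∈ S ∧ p.2 ∈ S ∧ G12.Adj p.1 p.2)) =
      (arcs.toFinset).filter (fun p => p.1 ∈ S ∧ p.2 ∈ S) := by
    ext p
    simp only [Finset.mem_filter, Finset.mem_univ, true_and, List.mem_toFinset, mem_arcs]
    constructor
    · rintro ⟨a, b, c⟩; exact ⟨c, a, b⟩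
    · rintro ⟨c, a, b⟩; exact ⟨a, b, c⟩
  have h2 : ∀ p : Fin 12 × Fin 12, (if p.1 ∈ S ∧ p.2 ∈ S then 1 else 0) =
      ((code S).testBit p.1 && (code S).testBit p.2).toNat := by
    intro p
    rw [code_bit S p.1 p.1.2, code_bit S p.2 p.2.2]
    by_cases h : p.1 ∈ S <;> by_cases h' : p.2 ∈ S <;> simp [h, h']
  rw [h1, Finset.card_filter, Finset.sum_congr rfl (fun p _ => h2 p),
    List.sum_toFinset _ arcs_nodup]
  generalize code S = m
  simp only [arcs, cntE, edgeList, List.map_cons, List.map_nil, List.sum_cons, List.sum_nil,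
    List.foldr]
  simp only [Fin.isValue, Fin.coe_ofNat_eq_mod, Nat.reduceMod]
  rw [Bool.and_comm (m.testBit 5) (m.testBit 0), Bool.and_comm (m.testBit 8) (m.testBit 0),
    Bool.and_comm (m.testBit 10) (m.testBit 0), Bool.and_comm (m.testBit 11) (m.testBit 0),
    Bool.and_comm (m.testBit 7) (m.testBit 1), Bool.and_comm (m.testBit 10) (m.testBit 1),
    Bool.and_comm (m.testBit 11) (m.testBit 1), Bool.and_comm (m.testBit 3) (m.testBit 2),
    Bool.and_comm (m.testBit 4) (m.testBit 2), Bool.and_comm (m.testBit 11) (m.testBit 2),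
    Bool.and_comm (m.testBit 6) (m.testBit 3), Bool.and_comm (m.testBit 10) (m.testBit 3),
    Bool.and_comm (m.testBit 8) (m.testBit 4), Bool.and_comm (m.testBit 9) (m.testBit 4),
    Bool.and_comm (m.testBit 10) (m.testBit 4), Bool.and_comm (m.testBit 7) (m.testBit 5),
    Bool.and_comm (m.testBit 9) (m.testBit 5), Bool.and_comm (m.testBit 8) (m.testBit 6),
    Bool.and_comm (m.testBit 9) (m.testBit 6), Bool.and_comm (m.testBit 8) (m.testBit 7)]
  ring

lemma chk_code (S : Finset (Fin 12)) : chk (code S) = true :=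
  chkAll_spec 4096 chkAll_ok _ (code_lt S)

lemma sparse (S : Finset (Fin 12)) (h : 3 ≤ S.card) :
    (Finset.univ.filter (fun p : Fin 12 × Fin 12 =>
      p.1 ∈ S ∧ p.2 ∈ S ∧ G12.Adj p.1 p.2)).card + 8 ≤ 4 * S.card := by
  have hc := chk_code S
  rw [chk, Bool.and_eq_true, Bool.or_eq_true, Nat.ble_eq, Nat.ble_eq, ← card_eq] at hc
  rw [edges_eq]
  omega

lemma cliqueFree : G12ᶜ.CliqueFree 5 := by
  intro S hS
  have hc := chk_code S
  rw [chk, Bool.and_eq_true, Bool.or_eq_true, Bool.or_eq_true, Nat.ble_eq, Nat.ble_eq,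
    Nat.ble_eq, ← card_eq, hS.card_eq] at hc
  have h1 : 1 ≤ cntE (code S) := by
    rcases hc.2 with h | h
    · simp at h
    · exact h
  have h2 := edges_eq S
  have h3 : 0 < (Finset.univ.filter (fun p : Fin 12 × Fin 12 =>
      p.1 ∈ S ∧ p.2 ∈ S ∧ G12.Adj p.1 p.2)).card := by omega
  obtain ⟨p, hp⟩ := Finset.card_pos.1 h3
  rw [Finset.mem_filter] at hp
  have h4 := hS.isClique hp.2.1 hp.2.2.1 hp.2.2.2.ne
  rw [SimpleGraph.compl_adj] at h4
  exact h4.2 hp.2.2.2

/-- The negation of the preceding statement: For r ≥ 2 and k ≥ 3, the least 2-density among graphs on k(r-1) vertices with no independent set of size r is exactly (k+1)/2: every such graph has 2-density at least this, and some such graph attains it. -/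
theorem result :
    ¬ (∀ r k : ℕ, 2 ≤ r → 3 ≤ k →
      (∀ G : SimpleGraph (Fin (k * (r - 1))), Gᶜ.CliqueFree r →
        ∃ S : Finset (Fin (k * (r - 1))), 3 ≤ S.card ∧
          ((k : ℝ) + 1) / 2 ≤
            ((((Finset.univ.filter (fun p : Fin (k * (r - 1)) × Fin (k * (r - 1)) =>
                p.1 ∈ S ∧ p.2 ∈ S ∧ G.Adj p.1 p.2)).card : ℝ) / 2 - 1) /
              ((S.card : ℝ) - 2))) ∧
      (∃ G : SimpleGraph (Fin (k * (r - 1))), Gᶜ.CliqueFree r ∧
        ∀ S : Finset (Fin (k * (r - 1))), 3 ≤ S.card →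
          ((((Finset.univ.filter (fun p : Fin (k * (r - 1)) × Fin (k * (r - 1)) =>
                p.1 ∈ S ∧ p.2 ∈ S ∧ G.Adj p.1 p.2)).card : ℝ) / 2 - 1) /
              ((S.card : ℝ) - 2)) ≤ ((k : ℝ) + 1) / 2)) := by
  intro H
  obtain ⟨S, hS, hle⟩ := (H 5 3 (by norm_num) (by norm_num)).1 G12 cliqueFree
  have hsp := sparse S hS
  have hsp' : ((Finset.univ.filter (fun p : Fin 12 × Fin 12 =>
      p.1 ∈ S ∧ p.2 ∈ S ∧ G12.Adj p.1 p.2)).card : ℝ) + 8 ≤ 4 * (S.card : ℝ) := by
    exact_mod_cast hsp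
  have hS' : (3 : ℝ) ≤ (S.card : ℝ) := by exact_mod_cast hS
  have hpos : (0 : ℝ) < (S.card : ℝ) - 2 := by linarith
  change (((3 : ℕ) : ℝ) + 1) / 2 ≤ ((((Finset.univ.filter (fun p : Fin 12 × Fin 12 =>
      p.1 ∈ S ∧ p.2 ∈ S ∧ G12.Adj p.1 p.2)).card : ℝ) / 2 - 1) / ((S.card : ℝ) - 2)) at hle
  rw [le_div_iff₀ hpos] at hle
  push_cast at hle
  linarith

end Pool.Agent.S11866
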