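import Pool.Statements.S11885

set_option autoImplicit false
open Classical
open Pool Pool.MP_dd5ef2_co

namespace Pool.Agent.S11885

open Finset

/-- Second moment of a sum of `s` independent uniform samples of a centred function. -/
lemma second_moment (n : ℕ) (b : Fin n → ℝ) (hb : ∑ k, b k = 0) (hb1 : ∀ k, (b k) ^ 2 ≤ 1)
    (s : ℕ) : ∑ K : Fin s → Fin n, (∑ t, b (K t)) ^ 2 ≤ s * (n : ℝ) ^ s := by
  induction s with
  | zero => simp
  | succ s ih =>
    have h1 : ∑ K : Fin (s + 1) → Fin n, (∑ t, b (K t)) ^ 2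
        = ∑ k : Fin n, ∑ K : Fin s → Fin n, (b k + ∑ t, b (K t)) ^ 2 := by
      rw [← (Fin.consEquiv (fun _ : Fin (s + 1) => Fin n)).sum_comp, Fintype.sum_prod_type]
      apply sum_congr rfl
      intro k _
      apply sum_congr rfl
      intro K _
      rw [Fin.sum_univ_succ]
      simp [Fin.consEquiv]
    have h2 : ∀ k : Fin n, ∑ K : Fin s → Fin n, (b k + ∑ t, b (K t)) ^ 2
        = (n : ℝ) ^ s * (b k) ^ 2 + 2 * (b k * ∑ K : Fin s → Fin n, ∑ t, b (K t))
          + ∑ K : Fin s → Fin n, (∑ t, b (K t)) ^ 2 := by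
      intro k
      have : ∀ K : Fin s → Fin n, (b k + ∑ t, b (K t)) ^ 2
          = (b k) ^ 2 + 2 * (b k * ∑ t, b (K t)) + (∑ t, b (K t)) ^ 2 := by
        intro K; ring
      simp_rw [this]
      rw [sum_add_distrib, sum_add_distrib, ← mul_sum, ← mul_sum]
      simp
    rw [h1]
    simp_rw [h2]
    rw [sum_add_distrib, sum_add_distrib, ← mul_sum, ← mul_sum, ← sum_mul, hb]
    simp only [zero_mul, mul_zero, add_zero, sum_const, card_univ, Fintype.card_fin,
      nsmul_eq_mul]
    have h3 : ∑ k, (b k) ^ 2 ≤ (n : ℝ) := by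
      calc ∑ k, (b k) ^ 2 ≤ ∑ _k : Fin n, (1 : ℝ) := sum_le_sum (fun k _ => hb1 k)
        _ = n := by simp
    have h4 : (n : ℝ) ^ s * ∑ k, (b k) ^ 2 ≤ (n : ℝ) ^ s * n :=
      mul_le_mul_of_nonneg_left h3 (by positivity)
    have h5 : (n : ℝ) * ∑ K : Fin s → Fin n, (∑ t, b (K t)) ^ 2 ≤ n * (s * (n : ℝ) ^ s) :=
      mul_le_mul_of_nonneg_left ih (by positivity)
    calc (n : ℝ) ^ s * ∑ k, (b k) ^ 2 + (n : ℝ) * ∑ K : Fin s → Fin n, (∑ t, b (K t)) ^ 2
        ≤ (n : ℝ) ^ s * n + n * (s * (n : ℝ) ^ s) := add_le_add h4 h5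
      _ = ((s + 1 : ℕ) : ℝ) * (n : ℝ) ^ (s + 1) := by push_cast; ring

/-- Indicator that `i` and `j` agree at `k`. -/
noncomputable def agr {n : ℕ} (G : SimpleGraph (Fin n)) (i j k : Fin n) : ℝ :=
  if (G.Adj i k ↔ G.Adj j k) then 1 else 0

/-- Fraction of vertices where `i`, `j` agree. -/
noncomputable def PP {n : ℕ} (G : SimpleGraph (Fin n)) (i j : Fin n) : ℝ :=
  (∑ k, agr G i j k) / n

/-- The revealed rows. -/
noncomputable def rev {n s : ℕ} (G : SimpleGraph (Fin n)) (K : Fin s → Fin n) :
    Fin n → Fin s → Bool := fun i t => decide (G.Adj i (K t))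

/-- Predicted agreement from the revealed rows. -/
noncomputable def pp {n s : ℕ} (r : Fin n → Fin s → Bool) (i j : Fin n) : ℝ :=
  (∑ t, (if r i t = r j t then (1 : ℝ) else 0)) / s

noncomputable def qq {n s : ℕ} (r : Fin n → Fin s → Bool) (i j : Fin n) (b : Bool) : ℝ :=
  if b then 1 - pp r i j else pp r i j

lemma pp_nonneg {n s : ℕ} (r : Fin n → Fin s → Bool) (i j : Fin n) : 0 ≤ pp r i j := by
  unfold pp
  apply div_nonneg _ (by positivity)
  apply sum_nonneg
  intro t _
  split_ifs <;> norm_num

lemma pp_le_one {n s : ℕ} (r : Fin n → Fin s → Bool) (i j : Fin n) : pp r i j ≤ 1 := by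
  unfold pp
  apply div_le_one_of_le₀ _ (by positivity)
  calc ∑ t, (if r i t = r j t then (1 : ℝ) else 0) ≤ ∑ _t : Fin s, (1 : ℝ) := by
        apply sum_le_sum
        intro t _
        split_ifs <;> norm_num
    _ = s := by simp

lemma qq_nonneg {n s : ℕ} (r : Fin n → Fin s → Bool) (i j : Fin n) (b : Bool) :
    0 ≤ qq r i j b := by
  have h1 := pp_nonneg r i j
  have h2 := pp_le_one r i j
  unfold qq
  split_ifs <;> linarith

lemma agr_mem {n : ℕ} (G : SimpleGraph (Fin n)) (i j k : Fin n) :
    0 ≤ agr G i j k ∧ agr G i j k ≤ 1 := by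
  unfold agr
  split_ifs <;> norm_num

lemma PP_mem {n : ℕ} (G : SimpleGraph (Fin n)) (i j : Fin n) :
    0 ≤ PP G i j ∧ PP G i j ≤ 1 := by
  unfold PP
  constructor
  · exact div_nonneg (sum_nonneg (fun k _ => (agr_mem G i j k).1)) (by positivity)
  · apply div_le_one_of_le₀ _ (by positivity)
    calc ∑ k, agr G i j k ≤ ∑ _k : Fin n, (1 : ℝ) := sum_le_sum (fun k _ => (agr_mem G i j k).2)
      _ = n := by simp

/-- The factor of the frozen statement. -/
noncomputable def phi {n : ℕ} (G : SimpleGraph (Fin n)) (i j : Fin n) : ℝ :=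
  (((Finset.univ.filter (fun k : Fin n => k ≠ i ∧ k ≠ j ∧
                Even ((if G.Adj i j then 1 else 0) + (if G.Adj i k then 1 else 0)
                  + (if G.Adj j k then 1 else 0) : ℕ))).card : ℝ) / ((n : ℝ) - 2))

lemma phi_nonneg {n : ℕ} (hn : 3 ≤ n) (G : SimpleGraph (Fin n)) (i j : Fin n) :
    0 ≤ phi G i j := by
  have : (3 : ℝ) ≤ n := by exact_mod_cast hn
  unfold phi
  apply div_nonneg (by positivity) (by linarith)

lemma phi_le {n : ℕ} (hn : 3 ≤ n) (G : SimpleGraph (Fin n)) (i j : Fin n) (hij : i ≠ j) :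
    phi G i j ≤ if G.Adj i j then 1 - PP G i j else PP G i j := by
  have hn' : (3 : ℝ) ≤ n := by exact_mod_cast hn
  have hP := PP_mem G i j
  have hS : ∑ k, agr G i j k = n * PP G i j := by
    unfold PP; field_simp
  unfold phi
  rw [div_le_iff₀ (by linarith)]
  rw [card_eq_sum_ones, Nat.cast_sum, sum_filter]
  by_cases h : G.Adj i j
  · have h' : G.Adj j i := h.symm
    have key : ∑ k : Fin n, (if k ≠ i ∧ k ≠ j ∧
                Even ((if G.Adj i j then 1 else 0) + (if G.Adj i k then 1 else 0)
                  + (if G.Adj j k then 1 else 0) : ℕ) then ((1 : ℕ) : ℝ) else 0)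
        = ∑ k : Fin n, ((1 - agr G i j k) - (if k = i then 1 else 0) - (if k = j then 1 else 0)) := by
      apply sum_congr rfl
      intro k _
      unfold agr
      by_cases hki : k = i
      · subst hki
        simp [h', hij]
      · by_cases hkj : k = j
        · subst hkj
          simp [h, hki]
        · by_cases h1 : G.Adj i k <;> by_cases h2 : G.Adj j k <;>
            simp [hki, hkj, h, h1, h2, Nat.even_add_one]
    rw [key, sum_sub_distrib, sum_sub_distrib, sum_sub_distrib, hS]
    simp [h]
    nlinarith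
  · have h' : ¬ G.Adj j i := fun h' => h h'.symm
    have key : ∑ k : Fin n, (if k ≠ i ∧ k ≠ j ∧
                Even ((if G.Adj i j then 1 else 0) + (if G.Adj i k then 1 else 0)
                  + (if G.Adj j k then 1 else 0) : ℕ) then ((1 : ℕ) : ℝ) else 0)
        = ∑ k : Fin n, ((agr G i j k) - (if k = i then 1 else 0) - (if k = j then 1 else 0)) := by
      apply sum_congr rfl
      intro k _
      unfold agr
      by_cases hki : k = i
      · subst hki
        simp [h', hij]
      · by_cases hkj : k = j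
        · subst hkj
          simp [h, hki]
        · by_cases h1 : G.Adj i k <;> by_cases h2 : G.Adj j k <;>
            simp [hki, hkj, h, h1, h2, Nat.even_add_one]
    rw [key, sum_sub_distrib, sum_sub_distrib, hS]
    simp [h]
    nlinarith

/-- For every graph there is a good sample. -/
lemma exists_sample {n : ℕ} (hn : 3 ≤ n) (s : ℕ) (hs : 0 < s) (G : SimpleGraph (Fin n)) :
    ∃ K : Fin s → Fin n, ∑ i, ∑ j, (pp (rev G K) i j - PP G i j) ^ 2 ≤ (n : ℝ) ^ 2 / s := by
  have hn' : (3 : ℝ) ≤ n := by exact_mod_cast hn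
  have hs' : (0 : ℝ) < s := by exact_mod_cast hs
  have : Nonempty (Fin n) := ⟨⟨0, by omega⟩⟩
  have hval : ∀ (K : Fin s → Fin n) (i j : Fin n),
      pp (rev G K) i j - PP G i j = (∑ t, (agr G i j (K t) - PP G i j)) / s := by
    intro K i j
    unfold pp
    rw [sum_sub_distrib]
    simp only [sum_const, card_univ, Fintype.card_fin, nsmul_eq_mul]
    rw [sub_div, mul_div_cancel_left₀ _ hs'.ne']
    congr 2
    apply sum_congr rfl
    intro t _
    unfold agr rev
    congr 1
    simp
  have hpair : ∀ i j : Fin n, ∑ K : Fin s → Fin n, (pp (rev G K) i j - PP G i j) ^ 2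
      ≤ (n : ℝ) ^ s / s := by
    intro i j
    have h0 : ∑ k, (agr G i j k - PP G i j) = 0 := by
      rw [sum_sub_distrib]
      simp only [sum_const, card_univ, Fintype.card_fin, nsmul_eq_mul]
      unfold PP
      field_simp
      ring
    have h1 : ∀ k, (agr G i j k - PP G i j) ^ 2 ≤ 1 := by
      intro k
      have ha := agr_mem G i j k
      have hP := PP_mem G i j
      have : |agr G i j k - PP G i j| ≤ 1 := by
        rw [abs_le]; constructor <;> linarith
      calc (agr G i j k - PP G i j) ^ 2 = |agr G i j k - PP G i j| ^ 2 := (sq_abs _).symm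
        _ ≤ 1 := pow_le_one₀ (abs_nonneg _) this
    have h2 := second_moment n (fun k => agr G i j k - PP G i j) h0 h1 s
    have h3 : ∑ K : Fin s → Fin n, (pp (rev G K) i j - PP G i j) ^ 2
        = (∑ K : Fin s → Fin n, (∑ t, (agr G i j (K t) - PP G i j)) ^ 2) / (s : ℝ) ^ 2 := by
      rw [sum_div]
      apply sum_congr rfl
      intro K _
      rw [hval, div_pow]
    rw [h3, div_le_div_iff₀ (by positivity) hs']
    calc (∑ K : Fin s → Fin n, (∑ t, (agr G i j (K t) - PP G i j)) ^ 2) * s
        ≤ (s * (n : ℝ) ^ s) * s := mul_le_mul_of_nonneg_right h2 hs'.le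
      _ = (n : ℝ) ^ s * s ^ 2 := by ring
  have hsum : ∑ K : Fin s → Fin n, ∑ i, ∑ j, (pp (rev G K) i j - PP G i j) ^ 2
      ≤ ∑ _K : Fin s → Fin n, (n : ℝ) ^ 2 / s := by
    rw [sum_comm]
    calc ∑ i, ∑ K : Fin s → Fin n, ∑ j, (pp (rev G K) i j - PP G i j) ^ 2
        = ∑ i, ∑ j, ∑ K : Fin s → Fin n, (pp (rev G K) i j - PP G i j) ^ 2 := by
          apply sum_congr rfl
          intro i _
          rw [sum_comm]
      _ ≤ ∑ _i : Fin n, ∑ _j : Fin n, (n : ℝ) ^ s / s := by
          apply sum_le_sum
          intro i _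
          apply sum_le_sum
          intro j _
          exact hpair i j
      _ = ∑ _K : Fin s → Fin n, (n : ℝ) ^ 2 / s := by
          simp
          ring
  obtain ⟨K, _, hK⟩ := exists_le_of_sum_le (Finset.univ_nonempty) hsum
  exact ⟨K, hK⟩

/-- Pointwise comparison of the product for a graph with the product for the revealed rows of
a good sample. -/
lemma prod_le {n : ℕ} (hn : 3 ≤ n) (s : ℕ) (hs : 0 < s) (G : SimpleGraph (Fin n))
    (η τ : ℝ) (hη : 0 < η) (hτ : 0 < τ) :
    ∃ K : Fin s → Fin n,
      (∏ i : Fin n, ∏ j : Fin n, (if i < j then phi G i j else 1)) ≤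
      Real.exp ((n : ℝ) ^ 2 * (τ + 1 / (s * τ)) / η) *
        ∏ i : Fin n, ∏ j : Fin n,
          (if i < j then qq (rev G K) i j (decide (G.Adj i j)) + η else 1) := by
  obtain ⟨K, hK⟩ := exists_sample hn s hs G
  have hs' : (0 : ℝ) < s := by exact_mod_cast hs
  refine ⟨K, ?_⟩
  set d : Fin n → Fin n → ℝ := fun i j => pp (rev G K) i j - PP G i j with hd
  have hstep : (∏ i : Fin n, ∏ j : Fin n, (if i < j then phi G i j else 1)) ≤
      ∏ i : Fin n, ∏ j : Fin n, (Real.exp (|d i j| / η) *
        (if i < j then qq (rev G K) i j (decide (G.Adj i j)) + η else 1)) := by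
    apply prod_le_prod
    · intro i _
      apply prod_nonneg
      intro j _
      split_ifs
      · exact phi_nonneg hn G i j
      · norm_num
    · intro i _
      apply prod_le_prod
      · intro j _
        split_ifs
        · exact phi_nonneg hn G i j
        · norm_num
      · intro j _
        have hd0 : 0 ≤ |d i j| / η := by positivity
        have hexp : 1 + |d i j| / η ≤ Real.exp (|d i j| / η) := by
          have := Real.add_one_le_exp (|d i j| / η)
          linarith
        split_ifs with hij
        · have h1 := phi_le hn G i j (ne_of_lt hij)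
          have hq : (if G.Adj i j then 1 - PP G i j else PP G i j) ≤
              qq (rev G K) i j (decide (G.Adj i j)) + |d i j| := by
            unfold qq
            by_cases h : G.Adj i j
            · simp only [h, if_true, decide_true]
              have := le_abs_self (d i j)
              simp only [hd] at this ⊢
              linarith
            · simp only [h, if_false, decide_false, Bool.false_eq_true]
              have := neg_abs_le (d i j)
              simp only [hd] at this ⊢
              linarith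
          have hqn := qq_nonneg (rev G K) i j (decide (G.Adj i j))
          calc phi G i j ≤ qq (rev G K) i j (decide (G.Adj i j)) + |d i j| := h1.trans hq
            _ ≤ (1 + |d i j| / η) * (qq (rev G K) i j (decide (G.Adj i j)) + η) := by
                have : |d i j| / η * η = |d i j| := by field_simp
                have h5 : 0 ≤ |d i j| / η * qq (rev G K) i j (decide (G.Adj i j)) :=
                  mul_nonneg hd0 hqn
                nlinarith
            _ ≤ Real.exp (|d i j| / η) * (qq (rev G K) i j (decide (G.Adj i j)) + η) :=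
                mul_le_mul_of_nonneg_right hexp (by linarith)
        · have : (1 : ℝ) ≤ Real.exp (|d i j| / η) := by linarith
          linarith
  refine hstep.trans ?_
  have hsplit : ∏ i : Fin n, ∏ j : Fin n, (Real.exp (|d i j| / η) *
        (if i < j then qq (rev G K) i j (decide (G.Adj i j)) + η else 1))
      = Real.exp (∑ i, ∑ j, |d i j| / η) * ∏ i : Fin n, ∏ j : Fin n,
        (if i < j then qq (rev G K) i j (decide (G.Adj i j)) + η else 1) := by
    simp_rw [prod_mul_distrib]
    congr 1
    rw [Real.exp_sum]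
    apply prod_congr rfl
    intro i _
    rw [Real.exp_sum]
  rw [hsplit]
  apply mul_le_mul_of_nonneg_right
  · apply Real.exp_le_exp.mpr
    have h1 : ∀ i j, |d i j| ≤ τ + (d i j) ^ 2 / τ := by
      intro i j
      have h2 : 0 ≤ |d i j| := abs_nonneg _
      have h3 : (d i j) ^ 2 = |d i j| ^ 2 := (sq_abs _).symm
      rw [h3]
      rw [← sub_nonneg]
      have : τ + |d i j| ^ 2 / τ - |d i j| = ((τ - |d i j|) ^ 2 + τ * |d i j|) / τ := by
        field_simp; ring
      rw [this]
      positivity
    have h4 : ∑ i, ∑ j, |d i j| / η ≤ ∑ i : Fin n, ∑ j : Fin n, (τ + (d i j) ^ 2 / τ) / η := by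
      apply sum_le_sum
      intro i _
      apply sum_le_sum
      intro j _
      exact div_le_div_of_nonneg_right (h1 i j) hη.le
    refine h4.trans ?_
    have h5 : ∑ i : Fin n, ∑ j : Fin n, (τ + (d i j) ^ 2 / τ) / η
        = ((n : ℝ) ^ 2 * τ + (∑ i, ∑ j, (d i j) ^ 2) / τ) / η := by
      simp_rw [← sum_div, sum_add_distrib, ← sum_div]
      simp
      ring
    rw [h5]
    apply div_le_div_of_nonneg_right _ hη.le
    have h6 : (∑ i, ∑ j, (d i j) ^ 2) / τ ≤ ((n : ℝ) ^ 2 / s) / τ :=
      div_le_div_of_nonneg_right hK hτ.le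
    have h7 : ((n : ℝ) ^ 2 / s) / τ = (n : ℝ) ^ 2 * (1 / (s * τ)) := by
      field_simp
    rw [mul_add]
    linarith
  · apply prod_nonneg
    intro i _
    apply prod_nonneg
    intro j _
    split_ifs
    · have := qq_nonneg (rev G K) i j (decide (G.Adj i j))
      linarith
    · norm_num

/-- Sum over all graphs of a product of nonnegative functions of the edge bits. -/
lemma sum_graph_le {n : ℕ} (f : Fin n → Fin n → Bool → ℝ) (hf : ∀ i j b, 0 ≤ f i j b) :
    ∑ G : SimpleGraph (Fin n), ∏ i : Fin n, ∏ j : Fin n,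
      (if i < j then f i j (decide (G.Adj i j)) else 1)
    ≤ ∏ i : Fin n, ∏ j : Fin n, (if i < j then f i j false + f i j true else 1) := by
  set g : Fin n × Fin n → Bool → ℝ := fun p b =>
    if p.1 < p.2 then f p.1 p.2 b else (if b then 0 else 1) with hg
  have hg0 : ∀ p b, 0 ≤ g p b := by
    intro p b
    simp only [hg]
    split_ifs
    · exact hf _ _ _
    · exact le_refl _
    · norm_num
  have h1 : ∏ i : Fin n, ∏ j : Fin n, (if i < j then f i j false + f i j true else 1)
      = ∏ p : Fin n × Fin n, ∑ b : Bool, g p b := by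
    rw [← univ_product_univ, prod_product]
    apply prod_congr rfl
    intro i _
    apply prod_congr rfl
    intro j _
    simp only [hg, Fintype.sum_bool]
    by_cases hij : i < j
    · simp only [hij, if_true]
      ring
    · simp [hij]
  rw [h1, Finset.prod_univ_sum]
  set X : SimpleGraph (Fin n) → (Fin n × Fin n → Bool) := fun G p =>
    if p.1 < p.2 then decide (G.Adj p.1 p.2) else false with hX
  have hXinj : Function.Injective X := by
    intro G H hGH
    ext i j
    have hlt : ∀ a b : Fin n, a < b → (G.Adj a b ↔ H.Adj a b) := by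
      intro a b hab
      have := congrFun hGH (a, b)
      simp only [hX, hab, if_true] at this
      simpa using this
    rcases lt_trichotomy i j with h | h | h
    · exact hlt i j h
    · subst h; simp
    · rw [G.adj_comm, H.adj_comm]; exact hlt j i h
  have h2 : ∀ G : SimpleGraph (Fin n), ∏ i : Fin n, ∏ j : Fin n,
      (if i < j then f i j (decide (G.Adj i j)) else 1) = ∏ p : Fin n × Fin n, g p (X G p) := by
    intro G
    rw [← univ_product_univ, prod_product]
    apply prod_congr rfl
    intro i _
    apply prod_congr rfl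
    intro j _
    simp only [hg, hX]
    split_ifs <;> simp_all
  simp_rw [h2]
  rw [← sum_image (f := fun x => ∏ p : Fin n × Fin n, g p (x p)) (s := univ) (g := X)
    (fun a _ b _ hab => hXinj hab)]
  apply sum_le_sum_of_subset_of_nonneg
  · intro x _
    simp
  · intro x _ _
    exact prod_nonneg (fun p _ => hg0 p _)

/-- The finite bound. -/
lemma main_bound {n : ℕ} (hn : 3 ≤ n) (s : ℕ) (hs : 0 < s) (η τ : ℝ) (hη : 0 < η)
    (hτ : 0 < τ) :
    (∑ G : SimpleGraph (Fin n), ∏ i : Fin n, ∏ j : Fin n,
      (if i < j then phi G i j else 1)) ≤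
    Real.exp ((n : ℝ) ^ 2 * (τ + 1 / (s * τ)) / η) *
      ((n : ℝ) ^ s * ((2 : ℝ) ^ (n * s) * Real.exp (2 * η * (n : ℝ) ^ 2))) := by
  set E := Real.exp ((n : ℝ) ^ 2 * (τ + 1 / (s * τ)) / η) with hE
  have hE0 : 0 < E := Real.exp_pos _
  have hnn : ∀ (r : Fin n → Fin s → Bool) (G : SimpleGraph (Fin n)), 0 ≤
      ∏ i : Fin n, ∏ j : Fin n, (if i < j then qq r i j (decide (G.Adj i j)) + η else 1) := by
    intro r G
    apply prod_nonneg
    intro i _
    apply prod_nonneg
    intro j _
    split_ifs
    · have := qq_nonneg r i j (decide (G.Adj i j))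
      linarith
    · norm_num
  have h1 : ∀ G : SimpleGraph (Fin n),
      (∏ i : Fin n, ∏ j : Fin n, (if i < j then phi G i j else 1)) ≤
      E * ∑ K : Fin s → Fin n, ∑ r : Fin n → Fin s → Bool,
        ∏ i : Fin n, ∏ j : Fin n, (if i < j then qq r i j (decide (G.Adj i j)) + η else 1) := by
    intro G
    obtain ⟨K, hK⟩ := prod_le hn s hs G η τ hη hτ
    refine hK.trans ?_
    apply mul_le_mul_of_nonneg_left _ hE0.le
    have h2 := single_le_sum (f := fun r : Fin n → Fin s → Bool =>
      ∏ i : Fin n, ∏ j : Fin n, (if i < j then qq r i j (decide (G.Adj i j)) + η else 1))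
      (fun r _ => hnn r G) (mem_univ (rev G K))
    refine h2.trans ?_
    exact single_le_sum (f := fun _K : Fin s → Fin n => ∑ r : Fin n → Fin s → Bool,
        ∏ i : Fin n, ∏ j : Fin n, (if i < j then qq r i j (decide (G.Adj i j)) + η else 1))
      (fun K _ => sum_nonneg (fun r _ => hnn r G)) (mem_univ K)
  have h3 : ∀ r : Fin n → Fin s → Bool, ∑ G : SimpleGraph (Fin n),
      ∏ i : Fin n, ∏ j : Fin n, (if i < j then qq r i j (decide (G.Adj i j)) + η else 1)
      ≤ Real.exp (2 * η * (n : ℝ) ^ 2) := by
    intro r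
    refine (sum_graph_le (fun i j b => qq r i j b + η)
      (fun i j b => by have := qq_nonneg r i j b; linarith)).trans ?_
    calc ∏ i : Fin n, ∏ j : Fin n,
          (if i < j then (qq r i j false + η) + (qq r i j true + η) else 1)
        ≤ ∏ _i : Fin n, ∏ _j : Fin n, Real.exp (2 * η) := by
          have hexp : 1 + 2 * η ≤ Real.exp (2 * η) := by
            have := Real.add_one_le_exp (2 * η)
            linarith
          apply prod_le_prod
          · intro i _
            apply prod_nonneg
            intro j _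
            split_ifs
            · have h5 := qq_nonneg r i j false
              have h6 := qq_nonneg r i j true
              linarith
            · norm_num
          · intro i _
            apply prod_le_prod
            · intro j _
              split_ifs
              · have h5 := qq_nonneg r i j false
                have h6 := qq_nonneg r i j true
                linarith
              · norm_num
            · intro j _
              split_ifs
              · unfold qq
                simp
                linarith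
              · linarith
      _ = Real.exp (2 * η * (n : ℝ) ^ 2) := by
          simp only [prod_const, card_univ, Fintype.card_fin]
          rw [← Real.exp_nat_mul, ← Real.exp_nat_mul]
          congr 1
          ring
  calc (∑ G : SimpleGraph (Fin n), ∏ i : Fin n, ∏ j : Fin n, (if i < j then phi G i j else 1))
      ≤ ∑ G : SimpleGraph (Fin n), E * ∑ K : Fin s → Fin n, ∑ r : Fin n → Fin s → Bool,
        ∏ i : Fin n, ∏ j : Fin n, (if i < j then qq r i j (decide (G.Adj i j)) + η else 1) :=
        sum_le_sum (fun G _ => h1 G)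
    _ = E * ∑ K : Fin s → Fin n, ∑ r : Fin n → Fin s → Bool, ∑ G : SimpleGraph (Fin n),
        ∏ i : Fin n, ∏ j : Fin n, (if i < j then qq r i j (decide (G.Adj i j)) + η else 1) := by
        rw [← mul_sum, sum_comm]
        congr 1
        apply sum_congr rfl
        intro K _
        rw [sum_comm]
    _ ≤ E * ∑ _K : Fin s → Fin n, ∑ _r : Fin n → Fin s → Bool,
          Real.exp (2 * η * (n : ℝ) ^ 2) := by
        apply mul_le_mul_of_nonneg_left _ hE0.le
        apply sum_le_sum
        intro K _
        apply sum_le_sum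
        intro r _
        exact h3 r
    _ = _ := by
        simp only [sum_const, card_univ, Fintype.card_fun, Fintype.card_fin, Fintype.card_bool,
          nsmul_eq_mul]
        push_cast
        rw [← pow_mul, mul_comm s n]

theorem result :
    ∀ ε : ℝ, 0 < ε → ∃ N : ℕ, ∀ n : ℕ, N ≤ n →
      (∑ G : SimpleGraph (Fin n),
        ∏ i : Fin n, ∏ j : Fin n,
          (if i < j then
            (((Finset.univ.filter (fun k : Fin n => k ≠ i ∧ k ≠ j ∧
                Even ((if G.Adj i j then 1 else 0) + (if G.Adj i k then 1 else 0)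
                  + (if G.Adj j k then 1 else 0) : ℕ))).card : ℝ) / ((n : ℝ) - 2))
          else 1)) ≤ (2 : ℝ) ^ (ε * (n : ℝ) ^ 2) := by
  intro ε hε
  have hl2 : 0 < Real.log 2 := Real.log_pos (by norm_num)
  have hl2' : Real.log 2 ≤ 1 := by
    have := Real.log_two_lt_d9
    linarith
  set e := ε * Real.log 2 with he
  have he0 : 0 < e := mul_pos hε hl2
  set η := e / 8 with hη
  have hη0 : 0 < η := by positivity
  set τ := η * e / 8 with hτ
  have hτ0 : 0 < τ := by positivity
  obtain ⟨s, hs⟩ := exists_nat_gt (8 / (τ * η * e))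
  have hs0' : (0 : ℝ) < s := lt_trans (by positivity) hs
  have hs0 : 0 < s := by exact_mod_cast hs0'
  obtain ⟨N, hN⟩ := exists_nat_gt (2 * (2 * (s : ℝ)) / e)
  refine ⟨max N 3, fun n hn => ?_⟩
  have hn3 : 3 ≤ n := le_trans (le_max_right _ _) hn
  have hnN : (N : ℝ) ≤ n := by exact_mod_cast le_trans (le_max_left _ _) hn
  have hn0 : (3 : ℝ) ≤ n := by exact_mod_cast hn3
  refine (main_bound hn3 s hs0 η τ hη0 hτ0).trans ?_
  have hlogn : Real.log n ≤ n := (Real.log_le_sub_one_of_pos (by linarith)).trans (by linarith)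
  have e1 : (n : ℝ) ^ s = Real.exp (s * Real.log n) := by
    rw [Real.exp_nat_mul, Real.exp_log (by linarith)]
  have e2 : (2 : ℝ) ^ (n * s) = Real.exp ((n * s : ℕ) * Real.log 2) := by
    rw [Real.exp_nat_mul, Real.exp_log (by norm_num)]
  have e3 : (2 : ℝ) ^ (ε * (n : ℝ) ^ 2) = Real.exp (e * (n : ℝ) ^ 2) := by
    rw [Real.rpow_def_of_pos (by norm_num)]
    congr 1
    rw [he]; ring
  rw [e1, e2, e3, ← Real.exp_add, ← Real.exp_add, ← Real.exp_add]
  apply Real.exp_le_exp.mpr
  push_cast
  have f1 : (n : ℝ) ^ 2 * (τ + 1 / (s * τ)) / η ≤ (n : ℝ) ^ 2 * (e / 4) := by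
    have g1 : τ / η = e / 8 := by rw [hτ]; field_simp
    have g2 : 1 / (s * τ) / η ≤ e / 8 := by
      rw [div_div, div_le_div_iff₀ (by positivity) (by norm_num)]
      rw [div_lt_iff₀ (by positivity)] at hs
      nlinarith
    have : (n : ℝ) ^ 2 * (τ + 1 / (s * τ)) / η = (n : ℝ) ^ 2 * (τ / η + 1 / (s * τ) / η) := by
      ring
    rw [this]
    apply mul_le_mul_of_nonneg_left _ (by positivity)
    linarith
  have f2 : (s : ℝ) * Real.log n ≤ s * n := mul_le_mul_of_nonneg_left hlogn hs0'.le
  have f3 : (n : ℝ) * s * Real.log 2 ≤ n * s := by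
    have : (0 : ℝ) ≤ n * s := by positivity
    nlinarith
  have f4 : (2 : ℝ) * s * n ≤ (e / 2) * (n : ℝ) ^ 2 := by
    have h5 : 2 * (2 * (s : ℝ)) / e < n := lt_of_lt_of_le hN hnN
    rw [div_lt_iff₀ he0] at h5
    nlinarith
  have f5 : 2 * η * (n : ℝ) ^ 2 = (e / 4) * (n : ℝ) ^ 2 := by rw [hη]; ring
  nlinarith

end Pool.Agent.S11885
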