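import Pool.Statements.S11957
import Pool.Agent.H693R3.SpecDir4

set_option autoImplicit false
open Pool Pool.MP_dfdf13_co

namespace Pool.Agent.S11957

lemma tendsto_eps (k : ℕ) :
    Filter.Tendsto (fun p : ℕ => 4 * H693R3.SpecDir.eta p k + 2 / (p : ℝ)) Filter.atTop
      (nhds 0) := by
  have h1 : Filter.Tendsto (fun x : ℝ => x ^ (-(1 / 2 ^ k : ℝ)) * (1 + Real.log x))
      Filter.atTop (nhds 0) := by
    have e1 : Filter.Tendsto (fun x : ℝ => x ^ (-(1 / 2 ^ k : ℝ))) Filter.atTop (nhds 0) :=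
      tendsto_rpow_neg_atTop (by positivity)
    have e2 : Filter.Tendsto (fun x : ℝ => Real.log x / x ^ ((1 / 2 ^ k : ℝ))) Filter.atTop
        (nhds 0) :=
      (isLittleO_log_rpow_atTop (by positivity)).tendsto_div_nhds_zero
    have e3 := e1.add e2
    rw [add_zero] at e3
    refine e3.congr' ?_
    filter_upwards [Filter.eventually_gt_atTop 0] with x hx
    rw [Real.rpow_neg hx.le]
    field_simp
  have h2 : Filter.Tendsto (fun p : ℕ => H693R3.SpecDir.eta p k) Filter.atTop (nhds 0) := by
    unfold H693R3.SpecDir.eta H693R3.SpecDir.sav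
    exact h1.comp tendsto_natCast_atTop_atTop
  have h3 : Filter.Tendsto (fun p : ℕ => 2 / (p : ℝ)) Filter.atTop (nhds 0) :=
    tendsto_const_nhds.div_atTop tendsto_natCast_atTop_atTop
  have h4 := (h2.const_mul 4).add h3
  simpa using h4

/-- For every k ≥ 4 there is p₀ such that for all primes p > p₀, no point set S in the plane over 𝔽_p with p dividing ∣S∣ has exactly k directions in which some line meets S in other than ∣S∣/p points. -/
theorem result :
    ∀ k : ℕ, 4 ≤ k → ∃ p₀ : ℕ, ∀ p : ℕ, p.Prime → p₀ < p →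
      ∀ S : Finset (ZMod p × ZMod p), p ∣ S.card →
        {d : Option (ZMod p) | ∃ b : ZMod p,
            (S.filter (fun q => d.elim q.1 (fun m => q.2 - m * q.1) = b)).card * p
              ≠ S.card}.ncard ≠ k := by
  intro k hk
  have h1 := (tendsto_eps k).eventually (gt_mem_nhds (show (0:ℝ) < 1 / 144 by norm_num))
  obtain ⟨p₀, hp₀⟩ := Filter.eventually_atTop.mp h1
  refine ⟨p₀, fun p hp hlt S hS => ?_⟩
  haveI : Fact p.Prime := ⟨hp⟩
  exact H693R3.SpecDir.core k hk (hp₀ p hlt.le) S hS

end Pool.Agent.S11957
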