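import Pool.Statements.S11987
import Pool.Agent.H63R3.NicheCk

set_option autoImplicit false
open Pool Pool.MP_e11724_co

namespace Pool.Agent.S11987

open Pool.Agent.H63R3.Niche

/-- number of a vertex: `0, …, 7` for the graph, `8, 9, …` for the added isolated vertices -/
def code {k : ℕ} : Fin 8 ⊕ Fin k → ℕ
  | .inl a => a.1
  | .inr b => 8 + b.1

theorem code_inj {k : ℕ} {x y : Fin 8 ⊕ Fin k} (h : code x = code y) : x = y := by
  cases x with
  | inl a =>
    cases y with
    | inl b =>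
      have : a = b := Fin.ext h
      rw [this]
    | inr b =>
      simp only [code] at h
      have := a.2
      omega
  | inr a =>
    cases y with
    | inl b =>
      simp only [code] at h
      have := b.2
      omega
    | inr b =>
      simp only [code] at h
      have : a = b := Fin.ext (by omega)
      rw [this]

/-- the graph with niche number three -/
def gr : SimpleGraph (Fin 8) where
  Adj a b := adjB a.1 b.1 = true
  symm := by
    have : ∀ a b : Fin 8, adjB a.1 b.1 = true → adjB b.1 a.1 = true := by decide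
    exact ⟨this⟩
  loopless := by
    have : ∀ a : Fin 8, ¬ adjB a.1 a.1 = true := by decide
    exact ⟨this⟩

/-- the arcs of a digraph realising the graph with three more isolated vertices -/
def arcs : List (ℕ × ℕ) :=
  [(0, 4), (0, 5), (1, 10), (2, 9), (3, 0), (4, 10), (5, 4), (5, 7), (6, 0), (6, 3), (6, 7), (7, 9),
    (8, 1), (8, 2), (8, 6)]

def rk (i : ℕ) : ℕ := [3, 1, 1, 2, 5, 4, 1, 6, 0, 8, 9].getD i 0

def D3 : Digraph (Fin 8 ⊕ Fin 3) where
  Adj x y := memE arcs (code x) (code y) = true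

theorem D3_rk : ∀ x y : Fin 8 ⊕ Fin 3, memE arcs (code x) (code y) = true →
    rk (code x) < rk (code y) := by
  decide +kernel

theorem D3_trans (x y : Fin 8 ⊕ Fin 3) (h : Relation.TransGen D3.Adj x y) :
    rk (code x) < rk (code y) := by
  induction h with
  | single h => exact D3_rk _ _ h
  | tail _ h ih => exact lt_trans ih (D3_rk _ _ h)

theorem D3_niche : ∀ x y : Fin 8 ⊕ Fin 3, x ≠ y →
    ((∃ z : Fin 8 ⊕ Fin 3, (memE arcs (code x) (code z) = true ∧ memE arcs (code y) (code z) = true) ∨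
      (memE arcs (code z) (code x) = true ∧ memE arcs (code z) (code y) = true)) ↔
      ∃ a b : Fin 8, x = Sum.inl a ∧ y = Sum.inl b ∧ adjB a.1 b.1 = true) := by
  decide +kernel

theorem E_lt : ∀ p ∈ E, p.1 < 8 ∧ p.2 < 8 ∧ p.1 ≠ p.2 ∧ adjB p.1 p.2 = true := by decide

/-- a digraph whose niche graph is the graph with at most two more isolated vertices -/
def model (k : ℕ) (hk : k ≤ 2) (D : Digraph (Fin 8 ⊕ Fin k))
    (h1 : ∀ x, ¬ Relation.TransGen D.Adj x x)
    (h2 : ∀ x y : Fin 8 ⊕ Fin k, x ≠ y →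
          ((∃ z, (D.Adj x z ∧ D.Adj y z) ∨ (D.Adj z x ∧ D.Adj z y)) ↔
            ∃ a b : Fin 8, x = Sum.inl a ∧ y = Sum.inl b ∧ gr.Adj a b)) : Model where
  A i j := ∃ u v, code u = i ∧ code v = j ∧ D.Adj u v
  O i j := ∃ u v, code u = i ∧ code v = j ∧ Relation.TransGen D.Adj u v
  ao := by
    rintro x y ⟨u, v, hu, hv, h⟩
    exact ⟨u, v, hu, hv, .single h⟩
  ir := by
    rintro x ⟨u, v, hu, hv, h⟩
    have : u = v := code_inj (hu.trans hv.symm)
    subst this
    exact h1 u h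
  tr := by
    rintro x y z ⟨u, v, hu, hv, h⟩ ⟨u', v', hu', hv', h'⟩
    have : v = u' := code_inj (hv.trans hu'.symm)
    subst this
    exact ⟨u, v', hu, hv', h.trans h'⟩
  np := by
    rintro x y a hxy hadj ⟨u, v, hu, hv, h⟩ ⟨u', v', hu', hv', h'⟩
    have : v = v' := code_inj (hv.trans hv'.symm)
    subst this
    have hne : u ≠ u' := by
      rintro rfl
      exact hxy (hu.symm.trans hu')
    obtain ⟨a', b', ha', hb', hab⟩ := (h2 u u' hne).1 ⟨v, Or.inl ⟨h, h'⟩⟩
    subst ha' hb'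
    have hab' : adjB a'.1 b'.1 = true := hab
    simp only [code] at hu hu'
    rw [hu, hu', hadj] at hab'
    exact Bool.false_ne_true hab'
  nq := by
    rintro x y a hxy hadj ⟨v, u, hv, hu, h⟩ ⟨v', u', hv', hu', h'⟩
    have : v = v' := code_inj (hv.trans hv'.symm)
    subst this
    have hne : u ≠ u' := by
      rintro rfl
      exact hxy (hu.symm.trans hu')
    obtain ⟨a', b', ha', hb', hab⟩ := (h2 u u' hne).1 ⟨v, Or.inr ⟨h, h'⟩⟩
    subst ha' hb'
    have hab' : adjB a'.1 b'.1 = true := hab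
    simp only [code] at hu hu'
    rw [hu, hu', hadj] at hab'
    exact Bool.false_ne_true hab'
  cov := by
    intro p hp
    obtain ⟨q1, q2, q3, q4⟩ := E_lt p hp
    have hne : (Sum.inl ⟨p.1, q1⟩ : Fin 8 ⊕ Fin k) ≠ Sum.inl ⟨p.2, q2⟩ := by
      intro h
      simp only [Sum.inl.injEq, Fin.mk.injEq] at h
      exact q3 h
    obtain ⟨z, hz⟩ := (h2 _ _ hne).2 ⟨_, _, rfl, rfl, q4⟩
    refine ⟨code z, ?_, ?_⟩
    · cases z with
      | inl a => simp only [code]; have := a.2; omega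
      | inr b => simp only [code]; have := b.2; omega
    · rcases hz with ⟨ha, hb⟩ | ⟨ha, hb⟩
      · exact Or.inl ⟨⟨_, _, rfl, rfl, ha⟩, ⟨_, _, rfl, rfl, hb⟩⟩
      · exact Or.inr ⟨⟨_, _, rfl, rfl, ha⟩, ⟨_, _, rfl, rfl, hb⟩⟩

/-- There is a finite graph G such that G plus k isolated vertices is the niche graph of an acyclic digraph for some k, but not for k = 0, 1 or 2; that is, 2 < n(G) < ∞. -/
theorem result :
    ∃ (V : Type) (_ : Fintype V) (G : SimpleGraph V),
      (∃ k : ℕ, ∃ D : Digraph (V ⊕ Fin k),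
        (∀ x, ¬ Relation.TransGen D.Adj x x) ∧
        ∀ x y : V ⊕ Fin k, x ≠ y →
          ((∃ z, (D.Adj x z ∧ D.Adj y z) ∨ (D.Adj z x ∧ D.Adj z y)) ↔
            ∃ a b : V, x = Sum.inl a ∧ y = Sum.inl b ∧ G.Adj a b)) ∧
      ∀ k : ℕ, k ≤ 2 → ¬ ∃ D : Digraph (V ⊕ Fin k),
        (∀ x, ¬ Relation.TransGen D.Adj x x) ∧
        ∀ x y : V ⊕ Fin k, x ≠ y →
          ((∃ z, (D.Adj x z ∧ D.Adj y z) ∨ (D.Adj z x ∧ D.Adj z y)) ↔
            ∃ a b : V, x = Sum.inl a ∧ y = Sum.inl b ∧ G.Adj a b) := by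
  refine ⟨Fin 8, inferInstance, gr, ⟨3, D3, ?_, ?_⟩, ?_⟩
  · intro x h
    exact lt_irrefl _ (D3_trans x x h)
  · exact D3_niche
  · rintro k hk ⟨D, h1, h2⟩
    exact no_model (model k hk D h1 h2)

end Pool.Agent.S11987
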