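import Pool.Statements.S11998
import Pool.Agent.H135R3.CritCheck

set_option autoImplicit false
open Pool Pool.MP_e1ba52_co

namespace Pool.Agent.S11998

/-- the cells of the critical set -/
def cells : List (ℕ × ℕ) :=
  [(0, 2), (0, 3), (0, 4), (2, 0), (2, 4), (2, 5), (3, 0), (3, 3), (3, 4), (4, 0), (4, 2), (4, 3), (4, 4), (4, 5), (5, 2), (5, 4), (5, 5)]
/-- the other cells, in the order of the search -/
def order : List (ℕ × ℕ) :=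
  [(4, 1), (1, 4), (5, 3), (5, 1), (5, 0), (1, 0), (0, 0), (0, 1), (0, 5), (2, 3), (1, 3), (1, 5), (3, 5), (3, 1), (2, 1), (1, 2), (1, 1), (2, 2), (3, 2)]
/-- for every cell of the critical set another latin square that agrees on the others -/
def wit : List (List (List ℕ)) := [
  [[0, 1, 5, 3, 4, 2], [1, 2, 3, 4, 5, 0], [2, 3, 4, 5, 0, 1], [3, 4, 2, 0, 1, 5], [4, 5, 0, 1, 2, 3], [5, 0, 1, 2, 3, 4]],
  [[1, 3, 2, 5, 4, 0], [0, 1, 3, 4, 5, 2], [2, 4, 5, 3, 0, 1], [3, 2, 4, 0, 1, 5], [4, 5, 0, 1, 2, 3], [5, 0, 1, 2, 3, 4]],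
  [[1, 4, 2, 3, 5, 0], [0, 1, 3, 5, 4, 2], [2, 3, 5, 4, 0, 1], [3, 2, 4, 0, 1, 5], [4, 5, 0, 1, 2, 3], [5, 0, 1, 2, 3, 4]],
  [[1, 0, 2, 3, 4, 5], [2, 1, 3, 4, 5, 0], [5, 3, 4, 2, 0, 1], [3, 4, 5, 0, 1, 2], [4, 5, 0, 1, 2, 3], [0, 2, 1, 5, 3, 4]],
  [[5, 1, 2, 3, 4, 0], [1, 3, 4, 2, 0, 5], [2, 0, 3, 4, 5, 1], [3, 4, 5, 0, 1, 2], [4, 5, 0, 1, 2, 3], [0, 2, 1, 5, 3, 4]],
  [[5, 0, 2, 3, 4, 1], [1, 3, 4, 2, 5, 0], [2, 1, 3, 4, 0, 5], [3, 4, 5, 0, 1, 2], [4, 5, 0, 1, 2, 3], [0, 2, 1, 5, 3, 4]],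
  [[1, 0, 2, 3, 4, 5], [3, 1, 4, 2, 5, 0], [2, 3, 5, 4, 0, 1], [5, 4, 3, 0, 1, 2], [4, 5, 0, 1, 2, 3], [0, 2, 1, 5, 3, 4]],
  [[1, 0, 2, 3, 4, 5], [0, 1, 3, 4, 5, 2], [2, 3, 4, 5, 0, 1], [3, 4, 5, 2, 1, 0], [4, 5, 0, 1, 2, 3], [5, 2, 1, 0, 3, 4]],
  [[1, 0, 2, 3, 4, 5], [5, 4, 3, 2, 1, 0], [2, 3, 5, 4, 0, 1], [3, 1, 4, 0, 5, 2], [4, 5, 0, 1, 2, 3], [0, 2, 1, 5, 3, 4]],
  [[1, 0, 2, 3, 4, 5], [4, 1, 3, 2, 5, 0], [2, 3, 5, 4, 0, 1], [3, 5, 4, 0, 1, 2], [5, 4, 0, 1, 2, 3], [0, 2, 1, 5, 3, 4]],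
  [[5, 1, 2, 3, 4, 0], [1, 3, 0, 4, 5, 2], [2, 4, 3, 5, 0, 1], [3, 2, 4, 0, 1, 5], [4, 0, 5, 1, 2, 3], [0, 5, 1, 2, 3, 4]],
  [[1, 5, 2, 3, 4, 0], [0, 4, 3, 1, 5, 2], [2, 3, 5, 4, 0, 1], [3, 2, 4, 0, 1, 5], [4, 1, 0, 5, 2, 3], [5, 0, 1, 2, 3, 4]],
  [[1, 5, 2, 3, 4, 0], [0, 1, 3, 4, 2, 5], [2, 3, 4, 5, 0, 1], [3, 4, 5, 0, 1, 2], [4, 2, 0, 1, 5, 3], [5, 0, 1, 2, 3, 4]],
  [[5, 1, 2, 3, 4, 0], [1, 0, 4, 2, 5, 3], [2, 5, 3, 4, 0, 1], [3, 4, 5, 0, 1, 2], [4, 3, 0, 1, 2, 5], [0, 2, 1, 5, 3, 4]],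
  [[5, 1, 2, 3, 4, 0], [0, 3, 1, 4, 5, 2], [2, 4, 3, 5, 0, 1], [3, 2, 4, 0, 1, 5], [4, 5, 0, 1, 2, 3], [1, 0, 5, 2, 3, 4]],
  [[5, 1, 2, 3, 4, 0], [1, 0, 5, 4, 3, 2], [2, 4, 3, 5, 0, 1], [3, 2, 4, 0, 1, 5], [4, 5, 0, 1, 2, 3], [0, 3, 1, 2, 5, 4]],
  [[1, 0, 2, 3, 4, 5], [0, 1, 3, 2, 5, 4], [2, 3, 4, 5, 0, 1], [3, 4, 5, 0, 1, 2], [4, 5, 0, 1, 2, 3], [5, 2, 1, 4, 3, 0]]]

/-- the critical set as a finite set -/
def crit : Finset (Fin 6 × Fin 6) :=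
  Finset.univ.filter fun c => cells.contains (c.1.val, c.2.val)

open Pool.Agent.H135R3.CritCheck in
/-- the witness squares work -/
def goodWit (c : Fin 6 × Fin 6) (M : Fin 6 → Fin 6 → Fin 6) : Prop :=
  (∀ i, Function.Injective (M i)) ∧ (∀ j, Function.Injective (fun i => M i j)) ∧
    (∀ d ∈ crit.erase c, M d.1 d.2 = d.1 + d.2) ∧ M c.1 c.2 ≠ c.1 + c.2

instance (c : Fin 6 × Fin 6) (M : Fin 6 → Fin 6 → Fin 6) : Decidable (goodWit c M) := by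
  unfold goodWit; infer_instance

open Pool.Agent.H135R3.CritCheck in
theorem wit_ok : ∀ c ∈ crit, ∃ T ∈ wit, goodWit c (tab 6 (by norm_num) T) := by
  decide +kernel

/-- The negation of the preceding statement: For every n ≥ 1, the largest size of a critical set of the cyclic latin square (i,j) ↦ i+j mod n is exactly n(n-1)/2. A critical set is a set of cells forcing a unique completion, where removing any one cell destroys uniqueness. -/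
theorem result :
    ¬ (∀ n : ℕ, 1 ≤ n →
      IsGreatest
        {k : ℕ | ∃ S : Finset (Fin n × Fin n),
          (∀ M : Fin n → Fin n → Fin n,
              (∀ i, Function.Injective (M i)) →
              (∀ j, Function.Injective (fun i => M i j)) →
              (∀ c ∈ S, M c.1 c.2 = c.1 + c.2) →
              M = fun i j => i + j) ∧
          (∀ c ∈ S, ∃ M : Fin n → Fin n → Fin n,
              (∀ i, Function.Injective (M i)) ∧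
              (∀ j, Function.Injective (fun i => M i j)) ∧
              (∀ d ∈ S.erase c, M d.1 d.2 = d.1 + d.2) ∧
              M ≠ fun i j => i + j) ∧
          S.card = k}
        (n * (n - 1) / 2)) := by
  intro h
  have h6 := (h 6 (by norm_num)).2
  have : (17 : ℕ) ≤ 6 * (6 - 1) / 2 := by
    apply h6
    refine ⟨crit, ?_, ?_, by decide +kernel⟩
    · exact Pool.Agent.H135R3.CritCheck.unique_of crit cells order (by decide +kernel)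
        (by decide +kernel) (by decide +kernel) (by decide +kernel)
    · intro c hc
      obtain ⟨T, -, h1, h2, h3, h4⟩ := wit_ok c hc
      exact ⟨_, h1, h2, h3, fun e => h4 (by rw [e])⟩
  norm_num at this

end Pool.Agent.S11998
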