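import Pool.Statements.S12006
import Pool.Agent.H558R3.HexFinal

set_option autoImplicit false
open Pool Pool.MP_e1e3b8_co

namespace Pool.Agent.S12006

/-- The negation of the preceding statement: For every continuous injective map from the circle into the plane, some invertible real-affine map of the plane sends all six vertices of the regular hexagon onto points of the curve. -/
theorem result :
    ¬ (∀ f : Circle → ℂ, Continuous f → Function.Injective f →
      ∃ A : AffineEquiv ℝ ℂ ℂ, ∀ k : Fin 6,
        A (Complex.exp (2 * (Real.pi : ℂ) * Complex.I * ((k : ℕ) : ℂ) / 6)) ∈ Set.range f) := by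
  intro h
  obtain ⟨A, hA⟩ := h Pool.Agent.H558R3.Hex.curve Pool.Agent.H558R3.Hex.curve_cont
    Pool.Agent.H558R3.Hex.curve_inj
  exact Pool.Agent.H558R3.Hex.final A hA

end Pool.Agent.S12006
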