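import Pool.Statements.S12013
import Pool.Agent.H565.Cyc.Final

set_option autoImplicit false
open Pool Pool.MP_e23409_co

namespace Pool.Agent.S12013

/-- For every n ≥ 3, if each vertex of the n-cycle gets a list of at least 4 colours, one can choose colours from the lists so that no path with an even number of vertices has first-half colours equal to second-half colours. -/
theorem result :
    ∀ n : ℕ, 3 ≤ n →
      ∀ L : Fin n → Finset ℕ, (∀ v, 4 ≤ (L v).card) →
        ∃ c : Fin n → ℕ, (∀ v, c v ∈ L v) ∧
          ∀ (u v : Fin n) (p : (SimpleGraph.cycleGraph n).Walk u v),
            p.IsPath → Even p.support.length →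
              (p.support.map c).take (p.support.length / 2) ≠
                (p.support.map c).drop (p.support.length / 2) := by
  exact Pool.Agent.H565.Cyc.main

end Pool.Agent.S12013
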