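import Pool.Statements.S12030

set_option autoImplicit false
open Pool Pool.MP_e2957e_co

namespace Pool.Agent.S12030

open Finset Equiv

/-- The 1-coset of permutations sending `i` to `j`. -/
def T {m : ℕ} (i j : Fin (m + 2)) : Finset (Perm (Fin (m + 2))) := univ.filter (fun σ => σ i = j)

theorem mem_T {m : ℕ} {i j : Fin (m + 2)} {σ : Perm (Fin (m + 2))} : σ ∈ T i j ↔ σ i = j := by
  simp [T]

theorem card_T_eq {m : ℕ} (i j j' : Fin (m + 2)) : (T i j).card = (T i j').card := by
  refine Finset.card_bij (fun σ _ => swap j j' * σ) ?_ ?_ ?_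
  · intro σ hσ
    rw [mem_T] at hσ ⊢
    simp [Perm.mul_apply, hσ]
  · intro a _ b _ h
    exact mul_left_cancel h
  · intro σ hσ
    rw [mem_T] at hσ
    refine ⟨swap j j' * σ, ?_, ?_⟩
    · rw [mem_T]
      simp [Perm.mul_apply, hσ]
    · rw [← mul_assoc, swap_mul_self, one_mul]

theorem card_T {m : ℕ} (i j : Fin (m + 2)) : (T i j).card = (m + 1).factorial := by
  have h : (univ : Finset (Perm (Fin (m + 2)))).card = ∑ j' : Fin (m + 2), (T i j').card := by
    rw [Finset.card_eq_sum_card_fiberwise (f := fun σ : Perm (Fin (m + 2)) => σ i)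
      (t := (univ : Finset (Fin (m + 2)))) (fun _ _ => mem_coe.2 (mem_univ _))]
    rfl
  rw [Finset.sum_congr rfl (fun j' _ => card_T_eq i j' j), Finset.sum_const, Finset.card_univ,
    Fintype.card_perm, Finset.card_univ, Fintype.card_fin, smul_eq_mul, Nat.factorial_succ] at h
  exact (Nat.eq_of_mul_eq_mul_left (by omega) h).symm

theorem card_TT_eq {m : ℕ} (i k j l l' : Fin (m + 2)) (hl : l ≠ j) (hl' : l' ≠ j) :
    (T i j ∩ T k l).card = (T i j ∩ T k l').card := by
  refine Finset.card_bij (fun σ _ => swap l l' * σ) ?_ ?_ ?_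
  · intro σ hσ
    rw [mem_inter, mem_T, mem_T] at hσ ⊢
    refine ⟨?_, ?_⟩
    · rw [Perm.mul_apply, hσ.1, swap_apply_of_ne_of_ne hl.symm hl'.symm]
    · simp [Perm.mul_apply, hσ.2]
  · intro a _ b _ h
    exact mul_left_cancel h
  · intro σ hσ
    rw [mem_inter, mem_T, mem_T] at hσ
    refine ⟨swap l l' * σ, ?_, ?_⟩
    · rw [mem_inter, mem_T, mem_T]
      refine ⟨?_, ?_⟩
      · rw [Perm.mul_apply, hσ.1, swap_apply_of_ne_of_ne hl.symm hl'.symm]
      · simp [Perm.mul_apply, hσ.2]
    · rw [← mul_assoc, swap_mul_self, one_mul]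

theorem card_TT {m : ℕ} (i k j l : Fin (m + 2)) (hik : i ≠ k) (hl : l ≠ j) :
    (T i j ∩ T k l).card = m.factorial := by
  have h : (T i j).card = ∑ l' : Fin (m + 2), (T i j ∩ T k l').card := by
    rw [Finset.card_eq_sum_card_fiberwise (f := fun σ : Perm (Fin (m + 2)) => σ k)
      (t := (univ : Finset (Fin (m + 2)))) (fun _ _ => mem_coe.2 (mem_univ _))]
    refine Finset.sum_congr rfl fun l' _ => ?_
    congr 1
    ext σ
    simp [T]
  rw [← Finset.add_sum_erase univ _ (mem_univ j)] at h
  have h0 : (T i j ∩ T k j).card = 0 := by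
    rw [Finset.card_eq_zero, Finset.eq_empty_iff_forall_notMem]
    intro σ hσ
    rw [mem_inter, mem_T, mem_T] at hσ
    exact hik (σ.injective (hσ.1.trans hσ.2.symm))
  rw [h0, zero_add, Finset.sum_congr rfl (fun l' hl' => card_TT_eq i k j l' l (mem_erase.1 hl').1 hl),
    Finset.sum_const, Finset.card_erase_of_mem (mem_univ _), Finset.card_univ, Fintype.card_fin,
    card_T, smul_eq_mul] at h
  have h2 : m + 2 - 1 = m + 1 := by omega
  rw [h2, Nat.factorial_succ] at h
  exact (Nat.eq_of_mul_eq_mul_left (by omega) h).symm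

/-- The exceptional family `T 0 0 ∪ T 1 1 ∪ (T 0 1 ∩ T 1 0)`. -/
def A' (m : ℕ) : Finset (Perm (Fin (m + 2))) := (T 0 0 ∪ T 1 1) ∪ (T 0 1 ∩ T 1 0)

def A (m : ℕ) : Finset (Perm (Fin (m + 2))) := univ \ A' m

theorem zero_ne_one' (m : ℕ) : (0 : Fin (m + 2)) ≠ 1 := by
  simp

theorem card_A' (m : ℕ) : (A' m).card = 2 * (m + 1).factorial := by
  unfold A'
  rw [Finset.card_union_of_disjoint]
  · have h := Finset.card_union_add_card_inter (T (0 : Fin (m + 2)) 0) (T 1 1)
    rw [card_T, card_T, card_TT 0 1 0 1 (zero_ne_one' m) (zero_ne_one' m).symm] at h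
    rw [card_TT 0 1 1 0 (zero_ne_one' m) (zero_ne_one' m)]
    omega
  · rw [Finset.disjoint_left]
    intro σ hσ h
    rw [mem_union, mem_T, mem_T] at hσ
    rw [mem_inter, mem_T, mem_T] at h
    rcases hσ with h1 | h1
    · exact zero_ne_one' m (h1.symm.trans h.1)
    · exact zero_ne_one' m (h.2.symm.trans h1)

theorem card_A (m : ℕ) : (A m).card = m * (m + 1).factorial := by
  unfold A
  rw [Finset.card_sdiff_of_subset (subset_univ _), Finset.card_univ, Fintype.card_perm,
    Fintype.card_fin, card_A', Nat.factorial_succ (m + 1)]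
  rw [← Nat.sub_mul]
  rfl

/-- The pairs `p < q` containing `a`: at most `m + 1`. -/
theorem card_pairs (m : ℕ) (a : Fin (m + 2)) :
    (univ.filter (fun p : Fin (m + 2) × Fin (m + 2) => p.1 < p.2 ∧ (p.1 = a ∨ p.2 = a))).card
      ≤ m + 1 := by
  have h : (univ.erase a : Finset (Fin (m + 2))).card = m + 1 := by
    rw [Finset.card_erase_of_mem (mem_univ _), Finset.card_univ, Fintype.card_fin]
    omega
  rw [← h]
  refine Finset.card_le_card_of_injOn (fun p => if p.1 = a then p.2 else p.1) ?_ ?_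
  · intro p hp
    simp only [coe_filter, mem_univ, true_and, Set.mem_ofPred_eq] at hp
    simp only [coe_erase, coe_univ, Set.mem_sdiff, Set.mem_univ, Set.mem_singleton_iff, true_and]
    by_cases h1 : p.1 = a
    · rw [if_pos h1]
      rw [← h1]
      exact hp.1.ne'
    · rw [if_neg h1]
      exact h1
  · intro p hp q hq hpq
    simp only [coe_filter, mem_univ, true_and, Set.mem_ofPred_eq] at hp hq
    obtain ⟨p1, p2⟩ := p
    obtain ⟨q1, q2⟩ := q
    simp only at hp hq hpq
    by_cases h1 : p1 = a <;> by_cases h2 : q1 = a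
    · rw [if_pos h1, if_pos h2] at hpq
      rw [h1, h2, hpq]
    · rw [if_pos h1, if_neg h2] at hpq
      exfalso
      have h3 : q2 = a := by tauto
      have h4 := hp.1
      have h5 := hq.1
      rw [h1, hpq] at h4
      rw [h3] at h5
      exact lt_asymm h4 h5
    · rw [if_neg h1, if_pos h2] at hpq
      exfalso
      have h3 : p2 = a := by tauto
      have h4 := hp.1
      have h5 := hq.1
      rw [h3, hpq] at h4
      rw [h2] at h5
      exact lt_asymm h4 h5
    · rw [if_neg h1, if_neg h2] at hpq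
      have h3 : p2 = a := by tauto
      have h4 : q2 = a := by tauto
      rw [h3, h4, hpq]

theorem mem_A' {m : ℕ} {σ : Perm (Fin (m + 2))} :
    σ ∈ A' m ↔ (σ 0 = 0 ∨ σ 1 = 1) ∨ (σ 0 = 1 ∧ σ 1 = 0) := by
  unfold A'
  rw [mem_union, mem_union, mem_inter, mem_T, mem_T, mem_T, mem_T]

theorem mem_A {m : ℕ} {σ : Perm (Fin (m + 2))} : σ ∈ A m ↔ σ ∉ A' m := by
  unfold A
  simp

/-- If `swap p q` does not move `a`, then `τ * swap p q` and `τ` agree at `a`. -/
theorem swap_fix {m : ℕ} (τ : Perm (Fin (m + 2))) (p q a : Fin (m + 2)) (h1 : p ≠ a) (h2 : q ≠ a) :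
    (τ * swap p q) a = τ a := by
  rw [Perm.mul_apply, swap_apply_of_ne_of_ne h1.symm h2.symm]

theorem boundary_le (m : ℕ) :
    (((A m) ×ˢ (Finset.univ.filter (fun p : Fin (m + 2) × Fin (m + 2) => p.1 < p.2))).filter
            (fun x => x.1 * Equiv.swap x.2.1 x.2.2 ∉ A m)).card ≤
      2 * (m + 1) * (m + 1).factorial + 2 * (m + 1) * m.factorial := by
  set P0 := univ.filter (fun p : Fin (m + 2) × Fin (m + 2) => p.1 < p.2 ∧ (p.1 = 0 ∨ p.2 = 0))
    with hP0
  set P1 := univ.filter (fun p : Fin (m + 2) × Fin (m + 2) => p.1 < p.2 ∧ (p.1 = 1 ∨ p.2 = 1))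
    with hP1
  have hb0 : P0.card ≤ m + 1 := card_pairs m 0
  have hb1 : P1.card ≤ m + 1 := card_pairs m 1
  have key : (((A m) ×ˢ (Finset.univ.filter (fun p : Fin (m + 2) × Fin (m + 2) => p.1 < p.2))).filter
            (fun x => x.1 * Equiv.swap x.2.1 x.2.2 ∉ A m)).card ≤
      (((T (m := m) 0 0 ×ˢ P0) ∪ (T (m := m) 1 1 ×ˢ P1)) ∪
        (((T (m := m) 0 1 ∩ T 1 0) ×ˢ P0) ∪ ((T (m := m) 0 1 ∩ T 1 0) ×ˢ P1))).card := by
    refine Finset.card_le_card_of_injOn (fun x => (x.1 * Equiv.swap x.2.1 x.2.2, x.2)) ?_ ?_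
    · rintro ⟨σ, p, q⟩ hx
      simp only [coe_filter, mem_product, mem_filter, mem_univ, true_and, Set.mem_ofPred_eq] at hx
      obtain ⟨⟨hσ, hpq⟩, hx2⟩ := hx
      rw [mem_A] at hx2
      push Not at hx2
      rw [mem_A] at hσ
      set τ := σ * swap p q with hτ
      have hστ : σ = τ * swap p q := by
        rw [hτ, mul_assoc, swap_mul_self, mul_one]
      have e0 : p ≠ 0 → q ≠ 0 → σ 0 = τ 0 := by
        intro h1 h2
        rw [hστ]
        exact swap_fix τ p q 0 h1 h2
      have e1 : p ≠ 1 → q ≠ 1 → σ 1 = τ 1 := by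
        intro h1 h2
        rw [hστ]
        exact swap_fix τ p q 1 h1 h2
      rw [mem_A'] at hσ hx2
      simp only [coe_union, Set.mem_union, mem_coe, mem_product, mem_inter, mem_T, hP0, hP1,
        mem_filter, mem_univ, true_and, hpq]
      have f0 : (p = 0 ∨ q = 0) ∨ σ 0 = τ 0 := by
        by_cases h1 : p = 0
        · exact Or.inl (Or.inl h1)
        · by_cases h2 : q = 0
          · exact Or.inl (Or.inr h2)
          · exact Or.inr (e0 h1 h2)
      have f1 : (p = 1 ∨ q = 1) ∨ σ 1 = τ 1 := by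
        by_cases h1 : p = 1
        · exact Or.inl (Or.inl h1)
        · by_cases h2 : q = 1
          · exact Or.inl (Or.inr h2)
          · exact Or.inr (e1 h1 h2)
      rcases hx2 with (h | h) | h
      · rcases f0 with f | f
        · exact Or.inl (Or.inl ⟨h, f⟩)
        · exact absurd (Or.inl (Or.inl (f.trans h))) hσ
      · rcases f1 with f | f
        · exact Or.inl (Or.inr ⟨h, f⟩)
        · exact absurd (Or.inl (Or.inr (f.trans h))) hσ
      · rcases f0 with f | f
        · exact Or.inr (Or.inl ⟨h, f⟩)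
        · rcases f1 with g | g
          · exact Or.inr (Or.inr ⟨h, g⟩)
          · exact absurd (Or.inr ⟨f.trans h.1, g.trans h.2⟩) hσ
    · rintro ⟨σ, p, q⟩ _ ⟨σ', p', q'⟩ _ h
      simp only [Prod.mk.injEq] at h
      obtain ⟨h1, h2, h3⟩ := h
      subst h2
      subst h3
      have := mul_right_cancel h1
      rw [this]
  refine key.trans ?_
  refine (Finset.card_union_le _ _).trans ?_
  have k1 : ((T (0 : Fin (m + 2)) 0 ×ˢ P0) ∪ (T 1 1 ×ˢ P1)).card ≤ 2 * (m + 1) * (m + 1).factorial := by
    refine (Finset.card_union_le _ _).trans ?_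
    rw [Finset.card_product, Finset.card_product, card_T, card_T]
    nlinarith [Nat.factorial_pos (m + 1)]
  have k2 : (((T 0 1 ∩ T 1 0) ×ˢ P0) ∪ ((T (0 : Fin (m + 2)) 1 ∩ T 1 0) ×ˢ P1)).card ≤
      2 * (m + 1) * m.factorial := by
    refine (Finset.card_union_le _ _).trans ?_
    rw [Finset.card_product, Finset.card_product, card_TT 0 1 1 0 (zero_ne_one' m) (zero_ne_one' m)]
    nlinarith [Nat.factorial_pos m]
  exact Nat.add_le_add k1 k2

/-- A 1-coset other than `T 0 0`, `T 1 1`, `T 0 1`, `T 1 0` meets `A` in few elements. -/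
theorem inter_le (m : ℕ) (i j : Fin (m + 2)) (h1 : (i, j) ≠ (0, 1)) (h2 : (i, j) ≠ (1, 0)) :
    (T i j ∩ A m).card + m.factorial ≤ (m + 1).factorial := by
  by_cases hc : i ≠ 0 ∧ j ≠ 0
  · have h := card_TT i 0 j 0 hc.1 hc.2.symm
    rw [← h, ← card_T i j, ← Finset.card_union_of_disjoint]
    · exact Finset.card_le_card (union_subset inter_subset_left inter_subset_left)
    · rw [Finset.disjoint_left]
      intro σ hσ hσ'
      rw [mem_inter, mem_A, mem_A'] at hσ
      rw [mem_inter, mem_T, mem_T] at hσ'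
      exact hσ.2 (Or.inl (Or.inl hσ'.2))
  · have hc1 : i ≠ 1 ∧ j ≠ 1 := by
      constructor
      · rintro rfl
        apply h2
        have : j = 0 := by
          by_contra hj
          exact hc ⟨(zero_ne_one' m).symm, hj⟩
        rw [this]
      · rintro rfl
        apply h1
        have : i = 0 := by
          by_contra hi
          exact hc ⟨hi, (zero_ne_one' m).symm⟩
        rw [this]
    have h := card_TT i 1 j 1 hc1.1 hc1.2.symm
    rw [← h, ← card_T i j, ← Finset.card_union_of_disjoint]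
    · exact Finset.card_le_card (union_subset inter_subset_left inter_subset_left)
    · rw [Finset.disjoint_left]
      intro σ hσ hσ'
      rw [mem_inter, mem_A, mem_A'] at hσ
      rw [mem_inter, mem_T, mem_T] at hσ'
      exact hσ.2 (Or.inl (Or.inr hσ'.2))

theorem symm_ge (m : ℕ) (hm : 2 ≤ m) (P : Finset (Fin (m + 2) × Fin (m + 2))) (hP : P.card = m) :
    (m - 2) * m.factorial ≤ (symmDiff (A m)
      (Finset.univ.filter (fun σ : Equiv.Perm (Fin (m + 2)) => ∃ p ∈ P, σ p.1 = p.2))).card := by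
  set B := Finset.univ.filter (fun σ : Equiv.Perm (Fin (m + 2)) => ∃ p ∈ P, σ p.1 = p.2) with hB
  by_cases h0 : (0, 0) ∈ P ∨ (1, 1) ∈ P
  · have hsub : ∃ a : Fin (m + 2), T a a ⊆ symmDiff (A m) B := by
      rcases h0 with h0 | h0
      · refine ⟨0, ?_⟩
        intro σ hσ
        rw [mem_T] at hσ
        rw [Finset.mem_symmDiff]
        right
        refine ⟨?_, ?_⟩
        · rw [hB, mem_filter]
          exact ⟨mem_univ _, _, h0, hσ⟩
        · rw [mem_A, mem_A']
          push Not
          exact Or.inl (Or.inl hσ)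
      · refine ⟨1, ?_⟩
        intro σ hσ
        rw [mem_T] at hσ
        rw [Finset.mem_symmDiff]
        right
        refine ⟨?_, ?_⟩
        · rw [hB, mem_filter]
          exact ⟨mem_univ _, _, h0, hσ⟩
        · rw [mem_A, mem_A']
          push Not
          exact Or.inl (Or.inr hσ)
    obtain ⟨a, ha⟩ := hsub
    have := Finset.card_le_card ha
    rw [card_T] at this
    refine le_trans ?_ this
    rw [Nat.factorial_succ]
    exact Nat.mul_le_mul_right _ (by omega)
  · push Not at h0
    have hAB : (A m ∩ B).card ≤ ∑ p ∈ P, (T p.1 p.2 ∩ A m).card := by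
      refine le_trans (Finset.card_le_card ?_) Finset.card_biUnion_le
      intro σ hσ
      rw [mem_inter, hB, mem_filter] at hσ
      obtain ⟨h1, _, p, hp, h2⟩ := hσ
      rw [mem_biUnion]
      exact ⟨p, hp, mem_inter.2 ⟨mem_T.2 h2, h1⟩⟩
    set E : Finset (Fin (m + 2) × Fin (m + 2)) := {(0, 1), (1, 0)} with hE
    have hEc : E.card ≤ 2 := Finset.card_le_two
    have hsum : ∑ p ∈ P, (T p.1 p.2 ∩ A m).card + (m - 2) * m.factorial ≤
        m * (m + 1).factorial := by
      have hs1 : ∑ p ∈ P \ E, ((T p.1 p.2 ∩ A m).card + m.factorial) ≤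
          ∑ p ∈ P \ E, (m + 1).factorial := by
        refine Finset.sum_le_sum fun p hp => ?_
        rw [mem_sdiff, hE] at hp
        have hp2 := hp.2
        simp only [mem_insert, mem_singleton, not_or] at hp2
        exact inter_le m p.1 p.2 hp2.1 hp2.2
      have hs2 : ∑ p ∈ P ∩ E, (T p.1 p.2 ∩ A m).card ≤ ∑ p ∈ P ∩ E, (m + 1).factorial := by
        refine Finset.sum_le_sum fun p _ => ?_
        rw [← card_T p.1 p.2]
        exact Finset.card_le_card inter_subset_left
      have hs3 := Finset.sum_inter_add_sum_sdiff P E (fun p => (T p.1 p.2 ∩ A m).card)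
      rw [Finset.sum_add_distrib, Finset.sum_const, Finset.sum_const, smul_eq_mul, smul_eq_mul] at hs1
      rw [Finset.sum_const, smul_eq_mul] at hs2
      have hs4 := Finset.card_sdiff_add_card_inter P E
      rw [hP] at hs4
      have hs5 : (P ∩ E).card ≤ 2 := (Finset.card_le_card inter_subset_right).trans hEc
      have hs6 : (m - 2) * m.factorial ≤ (P \ E).card * m.factorial :=
        Nat.mul_le_mul_right _ (by omega)
      calc ∑ p ∈ P, (T p.1 p.2 ∩ A m).card + (m - 2) * m.factorial
          = ∑ p ∈ P \ E, (T p.1 p.2 ∩ A m).card + ∑ p ∈ P ∩ E, (T p.1 p.2 ∩ A m).card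
            + (m - 2) * m.factorial := by rw [← hs3]; omega
        _ ≤ (P \ E).card * (m + 1).factorial + (P ∩ E).card * (m + 1).factorial := by omega
        _ = m * (m + 1).factorial := by rw [← add_mul, hs4]
    have hcard := Finset.card_sdiff_add_card_inter (A m) B
    rw [card_A] at hcard
    have hsub : A m \ B ⊆ symmDiff (A m) B := by
      intro σ hσ
      rw [mem_sdiff] at hσ
      rw [Finset.mem_symmDiff]
      exact Or.inl hσ
    have := Finset.card_le_card hsub
    omega

/-- The negation of the preceding statement: There is an absolute C₁>0 such that any A⊂S_n of size c(n−1)! whose transposition-graph edge boundary is at most ∣A∣(n!−∣A∣)/(n−1)!+δn∣A∣ lies within symmetric difference C₁cδ(n−1)! of a union of c distinct 1-cosets {σ: σ(i)=j}. -/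
theorem result :
    ¬ (∃ C₁ : ℝ, 0 < C₁ ∧
      ∀ (n : ℕ), 1 ≤ n →
      ∀ (c : ℕ) (δ : ℝ), 0 ≤ δ →
      ∀ A : Finset (Equiv.Perm (Fin n)),
        A.card = c * Nat.factorial (n - 1) →
        ((((A ×ˢ (Finset.univ.filter (fun p : Fin n × Fin n => p.1 < p.2))).filter
            (fun x => x.1 * Equiv.swap x.2.1 x.2.2 ∉ A)).card : ℕ) : ℝ)
          ≤ (A.card : ℝ) * ((Nat.factorial n : ℝ) - (A.card : ℝ)) / (Nat.factorial (n - 1) : ℝ)
            + δ * (n : ℝ) * (A.card : ℝ) →
        ∃ P : Finset (Fin n × Fin n), P.card = c ∧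
          ((symmDiff A (Finset.univ.filter (fun σ : Equiv.Perm (Fin n) => ∃ p ∈ P, σ p.1 = p.2))).card : ℝ)
            ≤ C₁ * (c : ℝ) * δ * (Nat.factorial (n - 1) : ℝ)) := by
  rintro ⟨C, hC, H⟩
  obtain ⟨m, hm⟩ := exists_nat_gt (4 * C + 2)
  have hm2 : 2 ≤ m := by
    have : (2 : ℝ) < m := by linarith
    exact_mod_cast this.le
  have hmR : (2 : ℝ) ≤ m := by exact_mod_cast hm2
  have hfac : ((m + 1).factorial : ℝ) = (m + 1) * m.factorial := by
    rw [Nat.factorial_succ]
    push_cast
    ring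
  have hfac2 : ((m + 2).factorial : ℝ) = (m + 2) * ((m + 1) * m.factorial) := by
    rw [Nat.factorial_succ, Nat.factorial_succ]
    push_cast
    ring
  have hfpos : (0 : ℝ) < m.factorial := by exact_mod_cast Nat.factorial_pos m
  have hA : ((A m).card : ℝ) = m * ((m + 1) * m.factorial) := by
    rw [card_A]
    push_cast
    rw [hfac]
  have hsub : m + 2 - 1 = m + 1 := by omega
  obtain ⟨P, hP, hle⟩ := H (m + 2) (by omega) m (4 / (m * (m + 2))) (by positivity) (A m)
    (by rw [card_A, hsub]) (by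
      have hb : ((((((A m) ×ˢ (Finset.univ.filter (fun p : Fin (m + 2) × Fin (m + 2) => p.1 < p.2))).filter
            (fun x => x.1 * Equiv.swap x.2.1 x.2.2 ∉ A m)).card : ℕ) : ℝ)) ≤
          2 * (m + 1) * ((m + 1) * m.factorial) + 2 * (m + 1) * m.factorial := by
        rw [← hfac]
        exact_mod_cast boundary_le m
      refine hb.trans ?_
      rw [hsub, hA, hfac, hfac2]
      push_cast
      have hmpos : (0 : ℝ) < m := by linarith
      rw [← sub_nonneg]
      have : (m : ℝ) * ((m + 1) * m.factorial) * ((m + 2) * ((m + 1) * m.factorial) -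
          m * ((m + 1) * m.factorial)) / ((m + 1) * m.factorial) +
          4 / (m * (m + 2)) * (m + 2) * (m * ((m + 1) * m.factorial)) -
          (2 * (m + 1) * ((m + 1) * m.factorial) + 2 * (m + 1) * m.factorial) = 0 := by
        field_simp
        ring
      rw [this])
  have hge := symm_ge m hm2 P hP
  have hge' : (((m - 2) * m.factorial : ℕ) : ℝ) ≤ C * m * (4 / (m * (m + 2))) * ((m + 1) * m.factorial) := by
    rw [hsub, hfac] at hle
    refine le_trans ?_ hle
    exact_mod_cast hge
  rw [Nat.cast_mul, Nat.cast_sub hm2] at hge'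
  have hmpos : (0 : ℝ) < m := by linarith
  have h1 : C * m * (4 / (m * (m + 2))) * ((m + 1) * m.factorial) ≤ (4 * C) * m.factorial := by
    have e : C * m * (4 / (m * (m + 2))) * ((m + 1) * m.factorial) =
        (4 * C) * m.factorial * ((m + 1) / (m + 2)) := by
      field_simp
    rw [e]
    have h2 : ((m : ℝ) + 1) / (m + 2) ≤ 1 := by
      rw [div_le_one (by positivity)]
      linarith
    exact mul_le_of_le_one_right (by positivity) h2
  have h3 := hge'.trans h1
  have h4 := le_of_mul_le_mul_right h3 hfpos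
  push_cast at h4
  linarith

end Pool.Agent.S12030
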