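import Pool.Statements.S12052
import Pool.Agent.H127R3.Dow7

set_option autoImplicit false
open Pool Pool.MP_e385a0_co

namespace Pool.Agent.S12052

/-- The negation of the preceding statement: If a finite matroid embeds in the rank-r Dowling geometry over some infinite group, encoded as a gain-graph frame matroid, then it also embeds in the rank-r Dowling geometry over some finite group. -/
theorem result :
    ¬ (∀ (n r : ℕ) (M : Matroid (Fin n)) (A : Type) [Group A], Infinite A →
      (∃ f : Fin n → Fin r ⊕ (A × {p : Fin r × Fin r // p.1 < p.2}),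
        Set.InjOn f M.E ∧
        ∀ X ⊆ M.E, (M.Indep X ↔
          ∀ T : Finset (Fin r ⊕ (A × {p : Fin r × Fin r // p.1 < p.2})),
            (↑T ⊆ f '' X) → T.Nonempty →
              (T.card ≤ (T.biUnion (fun e => Sum.elim (fun i => ({i} : Finset (Fin r)))
                  (fun x => ({x.2.1.1, x.2.1.2} : Finset (Fin r))) e)).card ∧
               (((∀ i : Fin r, Sum.inl i ∉ T) ∧
                  ∃ φ : Fin r → A, ∀ x : A × {p : Fin r × Fin r // p.1 < p.2},
                    Sum.inr x ∈ T → x.1 = φ x.2.1.1 * (φ x.2.1.2)⁻¹) →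
                T.card + 1 ≤ (T.biUnion (fun e => Sum.elim (fun i => ({i} : Finset (Fin r)))
                  (fun x => ({x.2.1.1, x.2.1.2} : Finset (Fin r))) e)).card)))) →
      ∃ (A' : Type) (_ : Group A'), Finite A' ∧
        ∃ f : Fin n → Fin r ⊕ (A' × {p : Fin r × Fin r // p.1 < p.2}),
          Set.InjOn f M.E ∧
          ∀ X ⊆ M.E, (M.Indep X ↔
            ∀ T : Finset (Fin r ⊕ (A' × {p : Fin r × Fin r // p.1 < p.2})),
              (↑T ⊆ f '' X) → T.Nonempty →
                (T.card ≤ (T.biUnion (fun e => Sum.elim (fun i => ({i} : Finset (Fin r)))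
                    (fun x => ({x.2.1.1, x.2.1.2} : Finset (Fin r))) e)).card ∧
                 (((∀ i : Fin r, Sum.inl i ∉ T) ∧
                    ∃ φ : Fin r → A', ∀ x : A' × {p : Fin r × Fin r // p.1 < p.2},
                      Sum.inr x ∈ T → x.1 = φ x.2.1.1 * (φ x.2.1.2)⁻¹) →
                  T.card + 1 ≤ (T.biUnion (fun e => Sum.elim (fun i => ({i} : Finset (Fin r)))
                    (fun x => ({x.2.1.1, x.2.1.2} : Finset (Fin r))) e)).card)))) := by
  intro h
  obtain ⟨n, M, hM, hneg⟩ := Pool.Agent.H127R3.Dow.main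
  obtain ⟨A', hG, hfin, f, hf, hX⟩ := h n 3 M (Equiv.Perm ℚ)
    Pool.Agent.H127R3.Dow.perm_infinite hM
  exact hneg A' hG hfin ⟨f, hf, hX⟩

end Pool.Agent.S12052
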