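import Pool.Statements.S12147
import Pool.Agent.H41R2.WI.Main

set_option autoImplicit false
open scoped Pointwise
open Pool Pool.MP_e807fe_co

namespace Pool.Agent.S12147

/-- For every nonempty compact convex K in ℝ^d with intrinsic volumes V_i (given by the Steiner formula), the number of integer points in K is at most the sum over i of κ_i κ_{d−i}/κ_d · V_i(K), where κ_j is the unit j-ball volume. -/
theorem result :
    ∀ d : ℕ, ∀ K : Set (EuclideanSpace ℝ (Fin d)),
      IsCompact K → Convex ℝ K → K.Nonempty →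
      ∀ V : ℕ → ℝ,
        (∀ t : ℝ, 0 ≤ t →
          (MeasureTheory.volume (K + Metric.closedBall (0 : EuclideanSpace ℝ (Fin d)) t)).toReal
            = ∑ i ∈ Finset.range (d + 1),
                (Real.pi ^ (((d - i : ℕ) : ℝ) / 2) / Real.Gamma (((d - i : ℕ) : ℝ) / 2 + 1))
                  * V i * t ^ (d - i)) →
        ((Set.ncard {z : Fin d → ℤ | WithLp.toLp 2 (fun j => (z j : ℝ)) ∈ K} : ℕ) : ℝ)
          ≤ ∑ i ∈ Finset.range (d + 1),
              (Real.pi ^ ((i : ℝ) / 2) / Real.Gamma ((i : ℝ) / 2 + 1))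
                * (Real.pi ^ (((d - i : ℕ) : ℝ) / 2) / Real.Gamma (((d - i : ℕ) : ℝ) / 2 + 1))
                / (Real.pi ^ ((d : ℝ) / 2) / Real.Gamma ((d : ℝ) / 2 + 1))
                * V i := by
  intro d K hK hC hN V hV
  rcases Nat.eq_zero_or_pos d with rfl | hd
  · have h0 := hV 0 le_rfl
    have e1 : (K + Metric.closedBall (0 : EuclideanSpace ℝ (Fin 0)) 0) =
        parallelepiped (EuclideanSpace.basisFun (Fin 0) ℝ) := by
      rw [Subsingleton.eq_univ_of_nonempty (s := K + Metric.closedBall _ 0)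
          (hN.add ⟨0, by simp⟩),
        Subsingleton.eq_univ_of_nonempty (s := parallelepiped (EuclideanSpace.basisFun (Fin 0) ℝ))
          ⟨0, by
            rw [mem_parallelepiped_iff]
            exact ⟨0, by simp, by simp⟩⟩]
    rw [e1, (EuclideanSpace.basisFun (Fin 0) ℝ).volume_parallelepiped] at h0
    have hz : ((Set.ncard {z : Fin 0 → ℤ | WithLp.toLp 2 (fun j => (z j : ℝ)) ∈ K} : ℕ) : ℝ) ≤ 1 := by
      have : (Set.ncard {z : Fin 0 → ℤ | WithLp.toLp 2 (fun j => (z j : ℝ)) ∈ K}) ≤ 1 :=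
        (Set.ncard_le_one_iff (Set.toFinite _)).2 fun _ _ => Subsingleton.elim _ _
      exact_mod_cast this
    refine hz.trans (le_of_eq ?_)
    simp at h0 ⊢
    linarith
  · exact H41WI.main d K V hd ⟨hK, hC, hN⟩ hV

end Pool.Agent.S12147
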