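import Pool.Statements.S12152
-- import your own Pool.Agent.* helpers here

set_option autoImplicit false
open SimpleGraph
open Pool Pool.MP_e821ef_co

namespace Pool.Agent.S12152

/-! The space: a star (hedgehog) whose rays `[0,∞)` are indexed by the subsets of the plane. -/

/-- index set of the rays: all subsets of the plane -/
abbrev J : Type := Set (ℝ × ℝ)

/-- The star: pairs `(j,s)` with `s ≥ 0`; the centre is `(∅,0)`. -/
structure H where
  /-- ray of a point -/
  ray : J
  /-- distance to the centre -/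
  ht : ℝ
  ht_nonneg : 0 ≤ ht
  ray_of_ht : ht = 0 → ray = ∅

lemma H.ext' {p q : H} (h1 : p.ray = q.ray) (h2 : p.ht = q.ht) : p = q := by
  cases p; cases q; cases h1; cases h2; rfl

/-- the centre -/
def ctr : H := ⟨∅, 0, le_refl _, fun _ => rfl⟩

open Classical in
noncomputable instance : MetricSpace H where
  dist p q := if p.ray = q.ray then |p.ht - q.ht| else p.ht + q.ht
  dist_self p := by simp
  dist_comm p q := by
    by_cases h : p.ray = q.ray
    · simp [h, abs_sub_comm]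
    · simp [h, Ne.symm h, add_comm]
  dist_triangle p q r := by
    have hp := p.ht_nonneg
    have hq := q.ht_nonneg
    have hr := r.ht_nonneg
    by_cases h1 : p.ray = q.ray
    · by_cases h2 : q.ray = r.ray
      · simp only [h1, h2, if_true]
        exact abs_sub_le _ _ _
      · simp only [h1, h2, if_true, if_false]
        have := le_abs_self (p.ht - q.ht)
        linarith
    · by_cases h2 : q.ray = r.ray
      · have h3 : ¬ p.ray = r.ray := h2 ▸ h1
        simp only [h2, h3, if_true, if_false]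
        have := neg_abs_le (q.ht - r.ht)
        linarith
      · simp only [h1, h2, if_false]
        by_cases h3 : p.ray = r.ray
        · simp only [h3, if_true]
          rw [abs_le]; constructor <;> linarith
        · simp only [h3, if_false]; linarith
  eq_of_dist_eq_zero {p q} h := by
    change (if p.ray = q.ray then |p.ht - q.ht| else p.ht + q.ht) = 0 at h
    have hp := p.ht_nonneg
    have hq := q.ht_nonneg
    by_cases h1 : p.ray = q.ray
    · rw [if_pos h1] at h
      exact H.ext' h1 (by linarith [abs_eq_zero.1 h])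
    · rw [if_neg h1] at h
      exact absurd ((p.ray_of_ht (by linarith)).trans (q.ray_of_ht (by linarith)).symm) h1

lemma dist_same {p q : H} (h : p.ray = q.ray) : dist p q = |p.ht - q.ht| := by
  change (if p.ray = q.ray then |p.ht - q.ht| else p.ht + q.ht) = _
  rw [if_pos h]

lemma dist_diff {p q : H} (h : p.ray ≠ q.ray) : dist p q = p.ht + q.ht := by
  change (if p.ray = q.ray then |p.ht - q.ht| else p.ht + q.ht) = _
  rw [if_neg h]

lemma dist_ge (p q : H) : |p.ht - q.ht| ≤ dist p q := by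
  have hp := p.ht_nonneg
  have hq := q.ht_nonneg
  by_cases h : p.ray = q.ray
  · rw [dist_same h]
  · rw [dist_diff h, abs_le]; constructor <;> linarith

lemma dist_le (p q : H) : dist p q ≤ p.ht + q.ht := by
  have hp := p.ht_nonneg
  have hq := q.ht_nonneg
  by_cases h : p.ray = q.ray
  · rw [dist_same h, abs_le]; constructor <;> linarith
  · rw [dist_diff h]

open Classical in
/-- the point at height `s` on the ray `j` (the centre if `s ≤ 0`) -/
noncomputable def pt (j : J) (s : ℝ) : H :=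
  if h : 0 < s then ⟨j, s, h.le, fun h0 => absurd h0 h.ne'⟩ else ctr

lemma pt_pos (j : J) {s : ℝ} (h : 0 < s) : (pt j s).ray = j ∧ (pt j s).ht = s := by
  unfold pt; rw [dif_pos h]; exact ⟨rfl, rfl⟩

lemma pt_nonpos (j : J) {s : ℝ} (h : s ≤ 0) : pt j s = ctr := by
  unfold pt; rw [dif_neg (not_lt.2 h)]

lemma ctr_ht : ctr.ht = 0 := rfl

lemma pt_self (p : H) : pt p.ray p.ht = p := by
  rcases p.ht_nonneg.eq_or_lt with h | h
  · rw [pt_nonpos _ h.symm.le]
    exact H.ext' (p.ray_of_ht h.symm).symm (by rw [ctr_ht]; exact h)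
  · exact H.ext' (pt_pos _ h).1 (pt_pos _ h).2

lemma pt_lip (j : J) (s t : ℝ) : dist (pt j s) (pt j t) ≤ |s - t| := by
  rcases le_or_gt s 0 with hs | hs
  · rcases le_or_gt t 0 with ht | ht
    · rw [pt_nonpos _ hs, pt_nonpos _ ht, _root_.dist_self]; positivity
    · refine (dist_le _ _).trans ?_
      rw [pt_nonpos _ hs, ctr_ht, (pt_pos j ht).2]
      have := neg_abs_le (s - t)
      linarith
  · rcases le_or_gt t 0 with ht | ht
    · refine (dist_le _ _).trans ?_
      rw [pt_nonpos _ ht, ctr_ht, (pt_pos j hs).2]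
      have := le_abs_self (s - t)
      linarith
    · rw [dist_same (by rw [(pt_pos j hs).1, (pt_pos j ht).1]), (pt_pos j hs).2, (pt_pos j ht).2]

/-- the line through the centre made of two rays -/
noncomputable def line (j k : J) (v : ℝ) : H := if 0 ≤ v then pt j v else pt k (-v)

lemma line_lip (j k : J) (s t : ℝ) : dist (line j k s) (line j k t) ≤ |s - t| := by
  have key : ∀ (a b : J) (u v : ℝ), 0 ≤ u → v ≤ 0 → dist (pt a u) (pt b (-v)) ≤ |u - v| := by
    intro a b u v hu hv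
    have h1 : (pt a u).ht ≤ u := by
      rcases hu.eq_or_lt with h | h
      · rw [pt_nonpos _ h.symm.le, ctr_ht]; exact hu
      · rw [(pt_pos a h).2]
    have h2 : (pt b (-v)).ht ≤ -v := by
      rcases hv.eq_or_lt with h | h
      · rw [pt_nonpos _ (by linarith), ctr_ht]; linarith
      · rw [(pt_pos b (by linarith : 0 < -v)).2]
    have := dist_le (pt a u) (pt b (-v))
    have := le_abs_self (u - v)
    linarith
  unfold line
  by_cases hs : 0 ≤ s
  · by_cases ht : 0 ≤ t
    · rw [if_pos hs, if_pos ht]; exact pt_lip _ _ _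
    · rw [if_pos hs, if_neg ht]; exact key _ _ _ _ hs (not_le.1 ht).le
  · by_cases ht : 0 ≤ t
    · rw [if_neg hs, if_pos ht, _root_.dist_comm, abs_sub_comm]; exact key _ _ _ _ ht (not_le.1 hs).le
    · rw [if_neg hs, if_neg ht]
      refine (pt_lip _ _ _).trans (le_of_eq ?_)
      rw [← abs_neg]; congr 1; ring

/-- a Lipschitz parametrised curve gives a path of bounded variation -/
lemma path_of_lip {x y : H} (F : ℝ → H) (L : NNReal) (hL : (L : ℝ) ≤ dist x y)
    (hF : LipschitzWith L F) (h0 : F 0 = x) (h1 : F 1 = y) (ε : ℝ) (hε : 0 < ε) :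
    ∃ γ : Path x y,
        eVariationOn (fun t : unitInterval => γ t) Set.univ ≤ ENNReal.ofReal (dist x y + ε) := by
  refine ⟨⟨⟨fun t : unitInterval => F t, hF.continuous.comp continuous_subtype_val⟩,
    by simpa using h0, by simpa using h1⟩, ?_⟩
  have e1 : eVariationOn (fun t : unitInterval => F (t : ℝ)) Set.univ ≤
      L * eVariationOn (fun t : unitInterval => (t : ℝ)) Set.univ :=
    LipschitzOnWith.comp_eVariationOn_le (f := F) (g := fun t : unitInterval => (t : ℝ))
      (t := Set.univ) hF.lipschitzOnWith (Set.mapsTo_univ _ _)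
  have e2 : eVariationOn (fun t : unitInterval => (t : ℝ)) Set.univ ≤ ENNReal.ofReal (1 - 0) := by
    have hm : MonotoneOn (fun t : unitInterval => (t : ℝ)) Set.univ := fun a _ b _ h => h
    have := (hm.eVariationOn_eq (Set.mem_univ (0 : unitInterval))
      (Set.mem_univ (1 : unitInterval))).le
    have hu : (Set.univ ∩ Set.Icc (0 : unitInterval) 1) = Set.univ := by
      ext t; simp [unitInterval.le_one']
    rw [hu] at this
    simpa using this
  calc eVariationOn (fun t : unitInterval => F (t : ℝ)) Set.univ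
      ≤ L * eVariationOn (fun t : unitInterval => (t : ℝ)) Set.univ := e1
    _ ≤ L * ENNReal.ofReal (1 - 0) := by gcongr
    _ = ENNReal.ofReal L := by simp
    _ ≤ ENNReal.ofReal (dist x y + ε) := ENNReal.ofReal_le_ofReal (by linarith)

lemma length_space (x y : H) (ε : ℝ) (hε : 0 < ε) : ∃ γ : Path x y,
        eVariationOn (fun t : unitInterval => γ t) Set.univ ≤ ENNReal.ofReal (dist x y + ε) := by
  have hx := x.ht_nonneg
  have hy := y.ht_nonneg
  by_cases h : x.ray = y.ray
  · refine path_of_lip (fun u => pt x.ray (x.ht + u * (y.ht - x.ht))) (nndist x y) (by simp)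
      (LipschitzWith.of_dist_le_mul fun u v => ?_) (by simpa using pt_self x) ?_ ε hε
    · refine (pt_lip _ _ _).trans (le_of_eq ?_)
      rw [coe_nndist, dist_same h, Real.dist_eq, ← abs_mul, ← abs_neg]
      congr 1; ring
    · have := pt_self y
      rw [← h] at this
      simpa using this
  · refine path_of_lip (fun u => line x.ray y.ray (x.ht + u * (-y.ht - x.ht))) (nndist x y)
      (by simp) (LipschitzWith.of_dist_le_mul fun u v => ?_) ?_ ?_ ε hε
    · refine (line_lip _ _ _ _).trans (le_of_eq ?_)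
      rw [coe_nndist, dist_diff h, Real.dist_eq]
      have : x.ht + u * (-y.ht - x.ht) - (x.ht + v * (-y.ht - x.ht))
        = -((x.ht + y.ht) * (u - v)) := by ring
      rw [this, abs_neg, abs_mul, abs_of_nonneg (by linarith : 0 ≤ x.ht + y.ht)]
    · unfold line; simp only [zero_mul, add_zero, if_pos hx]; exact pt_self x
    · have e : x.ht + 1 * (-y.ht - x.ht) = - y.ht := by ring
      simp only [e]
      unfold line
      rcases hy.eq_or_lt with h0 | h0
      · have hy0 : y = ctr := H.ext' (y.ray_of_ht h0.symm) h0.symm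
        rw [← h0]; simp only [neg_zero, le_refl, if_true]
        rw [pt_nonpos _ le_rfl, hy0]
      · rw [if_neg (by linarith), neg_neg]; exact pt_self y

/-- a preconnected set missing the centre lies on one ray -/
lemma one_ray {C : Set H} (hC : IsPreconnected C) (ho : ctr ∉ C) {p q : H} (hp : p ∈ C)
    (hq : q ∈ C) : p.ray = q.ray := by
  have hball : ∀ r s : H, dist r s < r.ht → s.ray = r.ray := by
    intro r s h
    by_contra hne
    rw [dist_diff (Ne.symm hne)] at h
    linarith [s.ht_nonneg]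
  have hpos : ∀ r : H, r ∈ C → 0 < r.ht := by
    intro r hr
    rcases r.ht_nonneg.eq_or_lt with h | h
    · exact absurd hr (by rw [show r = ctr from H.ext' (r.ray_of_ht h.symm) h.symm]; exact ho)
    · exact h
  have hpos' : ∀ r s : H, dist r s < r.ht → 0 < s.ht := by
    intro r s h
    have := dist_ge r s
    have := le_abs_self (r.ht - s.ht)
    linarith
  have hU : IsOpen {r : H | 0 < r.ht ∧ r.ray = p.ray} := by
    rw [Metric.isOpen_iff]
    rintro r ⟨hr, hr'⟩
    refine ⟨r.ht, hr, fun s hs => ?_⟩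
    rw [Metric.mem_ball, _root_.dist_comm] at hs
    exact ⟨hpos' r s hs, (hball r s hs).trans hr'⟩
  have hV : IsOpen {r : H | 0 < r.ht ∧ r.ray ≠ p.ray} := by
    rw [Metric.isOpen_iff]
    rintro r ⟨hr, hr'⟩
    refine ⟨r.ht, hr, fun s hs => ?_⟩
    rw [Metric.mem_ball, _root_.dist_comm] at hs
    exact ⟨hpos' r s hs, by rw [hball r s hs]; exact hr'⟩
  by_contra hne
  obtain ⟨r, -, hr1, hr2⟩ := hC _ _ hU hV (fun r hr => by
      by_cases h : r.ray = p.ray
      · exact Or.inl ⟨hpos r hr, h⟩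
      · exact Or.inr ⟨hpos r hr, h⟩)
    ⟨p, hp, hpos p hp, rfl⟩ ⟨q, hq, hpos q hq, fun h => hne h.symm⟩
  exact hr2.2 hr1.2

/-- ... and is an interval of that ray -/
lemma between {C : Set H} (hC : IsPreconnected C) (ho : ctr ∉ C) {p q r : H} (hp : p ∈ C)
    (hq : q ∈ C) (hr : r.ray = p.ray) (h1 : min p.ht q.ht ≤ r.ht) (h2 : r.ht ≤ max p.ht q.ht) :
    r ∈ C := by
  have hcont : Continuous (fun s : H => s.ht) := by
    refine (LipschitzWith.of_dist_le_mul (K := 1) fun s t => ?_).continuous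
    rw [Real.dist_eq, NNReal.coe_one, one_mul]
    exact dist_ge s t
  have him : IsPreconnected ((fun s : H => s.ht) '' C) := hC.image _ hcont.continuousOn
  have hoc := him.ordConnected
  have : r.ht ∈ (fun s : H => s.ht) '' C := by
    refine hoc.uIcc_subset ⟨p, hp, rfl⟩ ⟨q, hq, rfl⟩ ?_
    exact ⟨h1, h2⟩
  obtain ⟨s, hs, hs'⟩ := this
  have : s = r := H.ext' ((one_ray hC ho hs hp).trans hr.symm) hs'
  rwa [← this]

lemma comb5 : ∀ (v0 a b : Fin 5), ∃ u x y z : Fin 5,
    [u, x, y, z].Nodup ∧ v0 ∉ [u, x, y, z] ∧ s(a, b) ∉ [s(u, x), s(u, y), s(u, z)] := by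
  decide +kernel

/-- opposite sides of `K₃,₃` -/
def opp (p q : Fin 3 ⊕ Fin 3) : Bool := p.isLeft != q.isLeft

/-- the finite check behind `comb33` -/
def good (v0 a b u x y z : Fin 3 ⊕ Fin 3) : Bool :=
  decide ([u, x, y, z].Nodup) && decide (v0 ≠ u) && decide (v0 ≠ x) && decide (v0 ≠ y) &&
  decide (v0 ≠ z) && decide (s(a, b) ≠ s(u, x)) && decide (s(a, b) ≠ s(u, y)) &&
  decide (s(a, b) ≠ s(u, z)) && (opp u x && opp u y && opp u z)

lemma comb33' : ∀ (v0 a b : Fin 3 ⊕ Fin 3), ∃ u x y z : Fin 3 ⊕ Fin 3,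
    good v0 a b u x y z = true := by
  decide +kernel

lemma comb33 (v0 a b : Fin 3 ⊕ Fin 3) : ∃ u x y z : Fin 3 ⊕ Fin 3,
    [u, x, y, z].Nodup ∧ v0 ∉ [u, x, y, z] ∧ s(a, b) ∉ [s(u, x), s(u, y), s(u, z)] ∧
    opp u x = true ∧ opp u y = true ∧ opp u z = true := by
  obtain ⟨u, x, y, z, h⟩ := comb33' v0 a b
  unfold good at h
  simp only [Bool.and_eq_true, decide_eq_true_eq] at h
  obtain ⟨⟨⟨⟨⟨⟨⟨⟨h1, h2⟩, h3⟩, h4⟩, h5⟩, h6⟩, h7⟩, h8⟩, ⟨h9, h10⟩, h11⟩ := h
  refine ⟨u, x, y, z, h1, ?_, ?_, h9, h10, h11⟩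
  · simp only [List.mem_cons, List.not_mem_nil, or_false, not_or]
    exact ⟨h2, h3, h4, h5⟩
  · simp only [List.mem_cons, List.not_mem_nil, or_false, not_or]
    exact ⟨h6, h7, h8⟩

/-- The core: no configuration of three neighbours away from the centre. -/
lemma core {V : Type} {Δ : SimpleGraph V} {B : V → Set H} {P : V → V → Set H}
    (hB : ∀ v, IsConnected (B v))
    (hBd : ∀ v v', v ≠ v' → Disjoint (B v) (B v'))
    (hP : ∀ u w, Δ.Adj u w → 
       ∃ g : unitInterval → H, Continuous g ∧ Set.range g = P u w ∧ g 0 ∈ B u ∧ g 1 ∈ B w)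
    (hPB : ∀ u w v, Δ.Adj u w → v ≠ u → v ≠ w → Disjoint (P u w) (B v))
    (u x y z : V) (hxy : x ≠ y) (hyz : y ≠ z) (hxz : x ≠ z)
    (hux : Δ.Adj u x) (huy : Δ.Adj u y) (huz : Δ.Adj u z)
    (ou : ctr ∉ B u) (ox : ctr ∉ B x) (oy : ctr ∉ B y) (oz : ctr ∉ B z)
    (oux : ctr ∉ P u x) (ouy : ctr ∉ P u y) (ouz : ctr ∉ P u z) : False := by
  obtain ⟨pu, hpu⟩ := (hB u).nonempty
  have hC : ∀ w, Δ.Adj u w → ctr ∉ B w → ctr ∉ P u w →
      IsPreconnected (B u ∪ P u w ∪ B w) ∧ ctr ∉ (B u ∪ P u w ∪ B w) := by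
    intro w hw h1 h2
    obtain ⟨g, hg, hgr, hg0, hg1⟩ := hP u w hw
    have hPp : IsPreconnected (P u w) := by
      rw [← hgr]; exact isPreconnected_range hg
    refine ⟨IsPreconnected.union (g 1) (Or.inr (hgr ▸ Set.mem_range_self _)) hg1
      (IsPreconnected.union (g 0) hg0 (hgr ▸ Set.mem_range_self _)
        (hB u).isPreconnected hPp) (hB w).isPreconnected, ?_⟩
    rintro ((h | h) | h)
    · exact ou h
    · exact h2 h
    · exact h1 h
  have hray : ∀ w, Δ.Adj u w → ctr ∉ B w → ctr ∉ P u w → ∀ q ∈ B w, q.ray = pu.ray := by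
    intro w hw h1 h2 q hq
    exact one_ray (hC w hw h1 h2).1 (hC w hw h1 h2).2 (Or.inr hq) (Or.inl (Or.inl hpu))
  have hbet : ∀ w v, Δ.Adj u w → Δ.Adj u v → w ≠ v → ctr ∉ B w → ctr ∉ P u w →
      ctr ∉ B v → ctr ∉ P u v → ∀ q ∈ B w, ∀ r ∈ B v,
      ¬ (min pu.ht q.ht ≤ r.ht ∧ r.ht ≤ max pu.ht q.ht) := by
    intro w v hw hv hwv h1 h2 h3 h4 q hq r hr hcon
    have := between (hC w hw h1 h2).1 (hC w hw h1 h2).2 (p := pu) (q := q) (r := r)
      (Or.inl (Or.inl hpu)) (Or.inr hq) (hray v hv h3 h4 r hr) hcon.1 hcon.2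
    rcases this with (h | h) | h
    · exact Set.disjoint_left.1 (hBd u v hv.ne) h hr
    · exact Set.disjoint_left.1 (hPB u w v hw hv.ne' hwv.symm) h hr
    · exact Set.disjoint_left.1 (hBd w v hwv) h hr
  obtain ⟨px, hpx⟩ := (hB x).nonempty
  obtain ⟨py, hpy⟩ := (hB y).nonempty
  obtain ⟨pz, hpz⟩ := (hB z).nonempty
  -- two neighbours cannot lie on the same side of `u`
  have hup : ∀ w v, Δ.Adj u w → Δ.Adj u v → w ≠ v → ctr ∉ B w → ctr ∉ P u w →
      ctr ∉ B v → ctr ∉ P u v → ∀ q ∈ B w, ∀ r ∈ B v, pu.ht ≤ q.ht → pu.ht ≤ r.ht → False := by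
    intro w v hw hv hwv h1 h2 h3 h4 q hq r hr h5 h6
    rcases le_total q.ht r.ht with h | h
    · exact hbet v w hv hw hwv.symm h3 h4 h1 h2 r hr q hq
        ⟨(min_le_left _ _).trans h5, h.trans (le_max_right _ _)⟩
    · exact hbet w v hw hv hwv h1 h2 h3 h4 q hq r hr
        ⟨(min_le_left _ _).trans h6, h.trans (le_max_right _ _)⟩
  have hdn : ∀ w v, Δ.Adj u w → Δ.Adj u v → w ≠ v → ctr ∉ B w → ctr ∉ P u w →
      ctr ∉ B v → ctr ∉ P u v → ∀ q ∈ B w, ∀ r ∈ B v, q.ht ≤ pu.ht → r.ht ≤ pu.ht → False := by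
    intro w v hw hv hwv h1 h2 h3 h4 q hq r hr h5 h6
    rcases le_total q.ht r.ht with h | h
    · exact hbet w v hw hv hwv h1 h2 h3 h4 q hq r hr
        ⟨(min_le_right _ _).trans h, h6.trans (le_max_left _ _)⟩
    · exact hbet v w hv hw hwv.symm h3 h4 h1 h2 r hr q hq
        ⟨(min_le_right _ _).trans h, h5.trans (le_max_left _ _)⟩
  rcases le_total pu.ht px.ht with h1 | h1 <;> rcases le_total pu.ht py.ht with h2 | h2 <;>
  rcases le_total pu.ht pz.ht with h3 | h3
  · exact hup x y hux huy hxy ox oux oy ouy px hpx py hpy h1 h2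
  · exact hup x y hux huy hxy ox oux oy ouy px hpx py hpy h1 h2
  · exact hup x z hux huz hxz ox oux oz ouz px hpx pz hpz h1 h3
  · exact hdn y z huy huz hyz oy ouy oz ouz py hpy pz hpz h2 h3
  · exact hup y z huy huz hyz oy ouy oz ouz py hpy pz hpz h2 h3
  · exact hdn x z hux huz hxz ox oux oz ouz px hpx pz hpz h1 h3
  · exact hdn x y hux huy hxy ox oux oy ouy px hpx py hpy h1 h2
  · exact hdn x y hux huy hxy ox oux oy ouy px hpx py hpy h1 h2

/-- The star has no `K`-fat `K₅`- or `K₃,₃`-minor, already for `K = 1`. -/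
lemma no_minor (V : Type) [Fintype V] (Δ : SimpleGraph V)
    (hΔ : Nonempty (SimpleGraph.Iso Δ (⊤ : SimpleGraph (Fin 5))) ∨
          Nonempty (SimpleGraph.Iso Δ (completeBipartiteGraph (Fin 3) (Fin 3)))) :
       ¬ ∀ K : ℝ, 0 < K → ∃ (B : V → Set H) (P : V → V → Set H),
           (∀ v, IsConnected (B v)) ∧
           (∀ v v', v ≠ v' → Disjoint (B v) (B v')) ∧
           (∀ u w, Δ.Adj u w → P u w = P w u ∧
              ∃ g : unitInterval → H, Continuous g ∧ Function.Injective g ∧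
                Set.range g = P u w ∧ g 0 ∈ B u ∧ g 1 ∈ B w ∧
                P u w ∩ (⋃ v, B v) = {g 0, g 1}) ∧
           (∀ u w u' w', Δ.Adj u w → Δ.Adj u' w' → s(u, w) ≠ s(u', w') →
              Disjoint (P u w) (P u' w') ∧ ∀ y ∈ P u w, ∀ z ∈ P u' w', K ≤ Dist.dist y z) ∧
           (∀ v v', v ≠ v' → ∀ y ∈ B v, ∀ z ∈ B v', K ≤ Dist.dist y z) ∧
           (∀ u w v, Δ.Adj u w → v ≠ u → v ≠ w →
              ∀ y ∈ P u w, ∀ z ∈ B v, K ≤ Dist.dist y z) := by
  intro hall
  obtain ⟨B, P, hB, hBd, hP, hPd, -, hPB⟩ := hall 1 one_pos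
  have hPB' : ∀ u w v, Δ.Adj u w → v ≠ u → v ≠ w → Disjoint (P u w) (B v) := by
    intro u w v h1 h2 h3
    rw [Set.disjoint_left]
    intro a ha hb
    have := hPB u w v h1 h2 h3 a ha a hb
    rw [_root_.dist_self] at this
    linarith
  have hP' : ∀ u w, Δ.Adj u w → 
       ∃ g : unitInterval → H, Continuous g ∧ Set.range g = P u w ∧ g 0 ∈ B u ∧ g 1 ∈ B w := by
    intro u w h
    obtain ⟨-, g, h1, -, h2, h3, h4, -⟩ := hP u w h
    exact ⟨g, h1, h2, h3, h4⟩
  have hne : Nonempty V := by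
    rcases hΔ with ⟨⟨e⟩⟩ | ⟨⟨e⟩⟩
    · exact ⟨e.symm 0⟩
    · exact ⟨e.symm (Sum.inl 0)⟩
  -- the bad vertex and the bad edge
  obtain ⟨v0, hv0⟩ : ∃ v0 : V, ∀ v, v ≠ v0 → ctr ∉ B v := by
    by_cases h : ∃ v, ctr ∈ B v
    · obtain ⟨v, hv⟩ := h
      exact ⟨v, fun w hw hw' => Set.disjoint_left.1 (hBd w v hw) hw' hv⟩
    · exact ⟨Classical.arbitrary V, fun w _ hw => h ⟨w, hw⟩⟩
  obtain ⟨a, b, hab⟩ : ∃ a b : V, ∀ u w, Δ.Adj u w → s(a, b) ≠ s(u, w) → ctr ∉ P u w := by
    by_cases h : ∃ a b, Δ.Adj a b ∧ ctr ∈ P a b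
    · obtain ⟨a, b, h1, h2⟩ := h
      exact ⟨a, b, fun u w h3 h4 h5 => Set.disjoint_left.1 (hPd a b u w h1 h3 h4).1 h2 h5⟩
    · exact ⟨Classical.arbitrary V, Classical.arbitrary V, fun w u h1 _ h2 => h ⟨w, u, h1, h2⟩⟩
  have fin : ∀ u x y z : V, [u, x, y, z].Nodup → v0 ∉ [u, x, y, z] →
      s(a, b) ∉ [s(u, x), s(u, y), s(u, z)] → Δ.Adj u x → Δ.Adj u y → Δ.Adj u z → False := by
    intro u x y z h1 h2 h3 h4 h5 h6
    simp only [List.nodup_cons, List.mem_cons, List.not_mem_nil, or_false, not_or] at h1 h2 h3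
    exact core hB hBd hP' hPB' u x y z h1.2.1.1 h1.2.2.1 h1.2.1.2 h4 h5 h6
      (hv0 _ (Ne.symm h2.1)) (hv0 _ (Ne.symm h2.2.1)) (hv0 _ (Ne.symm h2.2.2.1))
      (hv0 _ (Ne.symm h2.2.2.2)) (hab _ _ h4 h3.1) (hab _ _ h5 h3.2.1) (hab _ _ h6 h3.2.2)
  rcases hΔ with ⟨⟨e⟩⟩ | ⟨⟨e⟩⟩
  · obtain ⟨u, x, y, z, h1, h2, h3⟩ := comb5 (e v0) (e a) (e b)
    have hn : [e.symm u, e.symm x, e.symm y, e.symm z].Nodup := by
      have := h1.map e.symm.injective
      simpa using this
    have hadj : ∀ p q : Fin 5, p ≠ q → Δ.Adj (e.symm p) (e.symm q) := by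
      intro p q h
      rw [SimpleGraph.Iso.map_adj_iff]
      exact h
    refine fin (e.symm u) (e.symm x) (e.symm y) (e.symm z) hn ?_ ?_ (hadj _ _ ?_) (hadj _ _ ?_)
      (hadj _ _ ?_)
    · intro h
      apply h2
      have := List.mem_map_of_mem (f := e) h
      simpa using this
    · intro h
      apply h3
      have := List.mem_map_of_mem (f := Sym2.map e) h
      simpa using this
    · simp only [List.nodup_cons, List.mem_cons, not_or] at h1; exact h1.1.1
    · simp only [List.nodup_cons, List.mem_cons, not_or] at h1; exact h1.1.2.1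
    · simp only [List.nodup_cons, List.mem_cons, not_or] at h1; exact h1.1.2.2.1
  · obtain ⟨u, x, y, z, h1, h2, h3, h4, h5, h6⟩ := comb33 (e v0) (e a) (e b)
    have hn : [e.symm u, e.symm x, e.symm y, e.symm z].Nodup := by
      have := h1.map e.symm.injective
      simpa using this
    have hadj : ∀ p q : Fin 3 ⊕ Fin 3, opp p q = true → Δ.Adj (e.symm p) (e.symm q) := by
      intro p q h
      rw [SimpleGraph.Iso.map_adj_iff]
      unfold opp at h
      rcases p with p | p <;> rcases q with q | q <;> simp at h ⊢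
    refine fin (e.symm u) (e.symm x) (e.symm y) (e.symm z) hn ?_ ?_ (hadj _ _ h4) (hadj _ _ h5)
      (hadj _ _ h6)
    · intro h
      apply h2
      have := List.mem_map_of_mem (f := e) h
      simpa using this
    · intro h
      apply h3
      have := List.mem_map_of_mem (f := Sym2.map e) h
      simpa using this

/-- The negation of the preceding statement: A length space is quasi-isometric to some planar graph with edge weights in (0,1] (weighted path metric on vertices) if and only if, for K equal to K5 or K3,3, it fails to have K-fat minors of that graph for every K>0. -/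
theorem result :
    ¬ (∀ (X : Type) [MetricSpace X],
    (∀ x y : X, ∀ ε : ℝ, 0 < ε → ∃ γ : Path x y,
        eVariationOn (fun t : unitInterval => γ t) Set.univ ≤ ENNReal.ofReal (dist x y + ε)) →
    ((∃ (W : Type) (G : SimpleGraph W) (wt : Sym2 W → ℝ),
        G.Preconnected ∧
        (∀ e ∈ G.edgeSet, 0 < wt e ∧ wt e ≤ 1) ∧
        (∃ (φ : W → ℝ × ℝ) (α : W → W → unitInterval → ℝ × ℝ),
          Function.Injective φ ∧
          (∀ a b, G.Adj a b → Continuous (α a b) ∧ Function.Injective (α a b) ∧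
              α a b 0 = φ a ∧ α a b 1 = φ b ∧
              ∀ t : unitInterval, 0 < t → t < 1 → ∀ c, α a b t ≠ φ c) ∧
          (∀ a b a' b', G.Adj a b → G.Adj a' b' → s(a, b) ≠ s(a', b') →
              ∀ t t' : unitInterval, 0 < t → t < 1 → 0 < t' → t' < 1 →
                α a b t ≠ α a' b' t')) ∧
        ∃ (f : X → W) (M A : ℝ), 1 ≤ M ∧ 0 ≤ A ∧
          (∀ x y : X,
            M⁻¹ * dist x y - A ≤ (⨅ p : G.Walk (f x) (f y), (p.edges.map wt).sum) ∧
            (⨅ p : G.Walk (f x) (f y), (p.edges.map wt).sum) ≤ M * dist x y + A) ∧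
          ∀ b : W, ∃ x : X, (⨅ p : G.Walk (f x) b, (p.edges.map wt).sum) ≤ A)
     ↔
     ∀ (V : Type) [Fintype V] (Δ : SimpleGraph V),
       (Nonempty (SimpleGraph.Iso Δ (⊤ : SimpleGraph (Fin 5))) ∨
          Nonempty (SimpleGraph.Iso Δ (completeBipartiteGraph (Fin 3) (Fin 3)))) →
       ¬ ∀ K : ℝ, 0 < K → ∃ (B : V → Set X) (P : V → V → Set X),
           (∀ v, IsConnected (B v)) ∧
           (∀ v v', v ≠ v' → Disjoint (B v) (B v')) ∧
           (∀ u w, Δ.Adj u w → P u w = P w u ∧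
              ∃ g : unitInterval → X, Continuous g ∧ Function.Injective g ∧
                Set.range g = P u w ∧ g 0 ∈ B u ∧ g 1 ∈ B w ∧
                P u w ∩ (⋃ v, B v) = {g 0, g 1}) ∧
           (∀ u w u' w', Δ.Adj u w → Δ.Adj u' w' → s(u, w) ≠ s(u', w') →
              Disjoint (P u w) (P u' w') ∧ ∀ y ∈ P u w, ∀ z ∈ P u' w', K ≤ dist y z) ∧
           (∀ v v', v ≠ v' → ∀ y ∈ B v, ∀ z ∈ B v', K ≤ dist y z) ∧
           (∀ u w v, Δ.Adj u w → v ≠ u → v ≠ w →
              ∀ y ∈ P u w, ∀ z ∈ B v, K ≤ dist y z))) := by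
  intro hmain
  obtain ⟨W, G, wt, hG, hwt, ⟨φ, -, hφ, -⟩, f, M, A, hM, hA, hf, -⟩ :=
    (hmain H length_space).2 (fun V _ Δ h => no_minor V Δ h)
  -- walks from a vertex to itself have infimum at most 0
  have hnn : ∀ (a b : W) (p : G.Walk a b), 0 ≤ (p.edges.map wt).sum := by
    intro a b p
    apply List.sum_nonneg
    intro r hr
    obtain ⟨e, he, rfl⟩ := List.mem_map.1 hr
    exact (hwt e (p.edges_subset_edgeSet he)).1.le
  have key : ∀ a b : W, a = b → (⨅ p : G.Walk a b, (p.edges.map wt).sum) ≤ 0 := by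
    rintro a _ rfl
    refine ciInf_le_of_le ⟨0, ?_⟩ (Walk.nil : G.Walk a a) (by simp)
    rintro _ ⟨p, rfl⟩
    exact hnn _ _ p
  have hMA : 0 < M * A + 1 := by positivity
  -- the points at height `M A + 1` on the various rays are separated by `f`
  have hinj : Function.Injective (fun j : Set (ℝ × ℝ) => φ (f (pt j (M * A + 1)))) := by
    intro j k hjk
    by_contra hne
    have h1 := key _ _ (hφ hjk)
    have h2 := (hf (pt j (M * A + 1)) (pt k (M * A + 1))).1
    rw [dist_diff (by rw [(pt_pos j hMA).1, (pt_pos k hMA).1]; exact hne), (pt_pos j hMA).2,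
      (pt_pos k hMA).2] at h2
    have h3 : M⁻¹ * (M * A + 1 + (M * A + 1)) - A = A + 2 * M⁻¹ := by
      field_simp; ring
    rw [h3] at h2
    have : 0 < M⁻¹ := by positivity
    linarith
  exact Function.cantor_injective _ hinj

end Pool.Agent.S12152
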