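import Pool.Statements.S12159
import Pool.Agent.H36R3.PuncB
import Pool.Agent.H36R3.PuncC

set_option autoImplicit false
open Pool Pool.MP_e84a22_co

namespace Pool.Agent.S12159

open Pool.Agent.H36R3.Punc

/-- the three parts of space: tiles in the first, second and third direction -/
def part (K L : ℤ) (σ R : ℤ → ℤ) (d : Fin 3) : Set (Fin 3 → ℤ) :=
  {p | (d = 0 ∧ ((p 0 ∉ S0 K L ∧ ¬ PF K L σ (p 1) (p 2)) ∨
      (p 0 - 2 * (K + L) ∉ S0 K L ∧ ¬ PB K L σ (p 1) (p 2)) ∨
      (p 0 - (K + L) ∉ S0 K L ∧ (p 1) % (K + L + 1) = R (p 2) % (K + L + 1)))) ∨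
    (d = 1 ∧ p 0 - (K + L) ∉ S0 K L ∧ (p 1) % (K + L + 1) ≠ R (p 2) % (K + L + 1)) ∨
    (d = 2 ∧ ((p 0 ∉ S0 K L ∧ PF K L σ (p 1) (p 2)) ∨
      (p 0 - 2 * (K + L) ∉ S0 K L ∧ PB K L σ (p 1) (p 2))))}

theorem part_cover (K L : ℤ) (hK : 1 ≤ K) (hL : 1 ≤ L) (σ R : ℤ → ℤ) (x : Fin 3 → ℤ) :
    ∃! d, x ∈ part K L σ R d := by
  have h := S0_cover K L hK hL (x 0)
  have key : ∃ d, x ∈ part K L σ R d ∧ ∀ d', x ∈ part K L σ R d' → d' = d := by
    unfold part
    simp only [Set.mem_ofPred_eq]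
    rcases h with ⟨a, b, c⟩ | ⟨a, b, c⟩ | ⟨a, b, c⟩
    · simp only [a, b, c, not_true_eq_false, not_false_eq_true, true_and, false_and, or_false,
        false_or, and_false]
      by_cases hP : PF K L σ (x 1) (x 2)
      · refine ⟨2, by simp [hP], ?_⟩
        intro d' hd'; simpa [hP] using hd'
      · refine ⟨0, by simp [hP], ?_⟩
        intro d' hd'; simpa [hP] using hd'
    · simp only [a, b, c, not_true_eq_false, not_false_eq_true, true_and, false_and, or_false,
        false_or, and_false]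
      by_cases hP : PB K L σ (x 1) (x 2)
      · refine ⟨2, by simp [hP], ?_⟩
        intro d' hd'; simpa [hP] using hd'
      · refine ⟨0, by simp [hP], ?_⟩
        intro d' hd'; simpa [hP] using hd'
    · simp only [a, b, c, not_true_eq_false, not_false_eq_true, true_and, false_and, or_false,
        false_or, and_false]
      by_cases hP : (x 1) % (K + L + 1) = R (x 2) % (K + L + 1)
      · refine ⟨0, by simp [hP], ?_⟩
        intro d' hd'; simpa [hP] using hd'
      · refine ⟨1, by simp [hP], ?_⟩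
        intro d' hd'; simpa [hP] using hd'
  obtain ⟨d, h1, h2⟩ := key
  exact ⟨d, h1, h2⟩

theorem til_const (K L : ℤ) (p : Prop) (S : Set ℤ) (h : p → Til K L S) :
    Til K L {s | p ∧ s ∈ S} := by
  by_cases hp : p
  · exact til_congr (by ext s; simp [hp]) (h hp)
  · exact til_congr (by ext s; simp [hp]) (til_empty K L)

theorem part_til (K L : ℤ) (hK : 1 ≤ K) (hL : 1 ≤ L) (σ R : ℤ → ℤ)
    (hσ : ∀ c, σ c = 0 ∨ σ c = 1)
    (hR : ∀ t y, (PF K L σ y t ↔ PB K L σ y t) ↔ y % (K + L + 1) ≠ R t % (K + L + 1))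
    (d : Fin 3) (x : Fin 3 → ℤ) :
    Til K L {s | Function.update x d s ∈ part K L σ R d} := by
  have T0 := til_S0 K L hK hL
  have T1 := til_shift K L (K + L) _ T0
  have T2 := til_shift K L (2 * (K + L)) _ T0
  fin_cases d
  · -- first direction
    have hR' := hR (x 2) (x 1)
    by_cases hw : (x 1) % (K + L + 1) = R (x 2) % (K + L + 1)
    · have hxor : ¬ (PF K L σ (x 1) (x 2) ↔ PB K L σ (x 1) (x 2)) := fun h => (hR'.1 h) hw
      by_cases hP : PF K L σ (x 1) (x 2)
      · have hB : ¬ PB K L σ (x 1) (x 2) := fun h => hxor ⟨fun _ => h, fun _ => hP⟩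
        refine til_congr ?_ T0
        ext s
        rcases S0_cover K L hK hL s with ⟨a, b, c⟩ | ⟨a, b, c⟩ | ⟨a, b, c⟩ <;>
          simp [part, hP, hB, hw, a, b, c]
      · have hB : PB K L σ (x 1) (x 2) := by
          by_contra h
          exact hxor ⟨fun h' => (hP h').elim, fun h' => (h h').elim⟩
        refine til_congr ?_ T2
        ext s
        rcases S0_cover K L hK hL s with ⟨a, b, c⟩ | ⟨a, b, c⟩ | ⟨a, b, c⟩ <;>
          simp [part, hP, hB, hw, a, b, c]
    · have hiff := hR'.2 hw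
      by_cases hP : PF K L σ (x 1) (x 2)
      · have hB := hiff.1 hP
        refine til_congr ?_ (til_empty K L)
        ext s
        simp [part, hP, hB, hw]
      · have hB : ¬ PB K L σ (x 1) (x 2) := fun h => hP (hiff.2 h)
        refine til_congr ?_ T1
        ext s
        rcases S0_cover K L hK hL s with ⟨a, b, c⟩ | ⟨a, b, c⟩ | ⟨a, b, c⟩ <;>
          simp [part, hP, hB, hw, a, b, c]
  · have h := til_const K L (x 0 - (K + L) ∉ S0 K L) _ (fun _ => til_mod K L (R (x 2)) hK hL)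
    refine til_congr ?_ h
    ext s
    simp [part]
  · by_cases h0 : x 0 ∉ S0 K L
    · have hc := S0_cover K L hK hL (x 0)
      have h2 : x 0 - 2 * (K + L) ∈ S0 K L := by
        rcases hc with h | h | h
        · exact h.2.1
        · exact (h0 h.1).elim
        · exact (h0 h.1).elim
      refine til_congr ?_ (til_PF K L hK hL σ hσ (x 1))
      ext s
      simp [part, h0, h2]
    · have h0' : x 0 ∈ S0 K L := not_not.1 h0
      have h := til_const K L (x 0 - 2 * (K + L) ∉ S0 K L) _ (fun _ => til_PB K L hK hL σ hσ (x 1))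
      refine til_congr ?_ h
      ext s
      simp [part, h0']

/-- For all k, ℓ ≥ 1, ℤ³ can be partitioned into copies of the tile {0..k−1} ∪ {k+1..k+ℓ}, each translated and laid along one of the three coordinate axes in either direction. -/
theorem result :
    ∀ k ℓ : ℕ, 1 ≤ k → 1 ≤ ℓ →
      ∃ C : Set ((Fin 3 → ℤ) × ℤ × Fin 3),
        (∀ c ∈ C, c.2.1 = 1 ∨ c.2.1 = -1) ∧
        ∀ x : Fin 3 → ℤ, ∃! c : (Fin 3 → ℤ) × ℤ × Fin 3,
          c ∈ C ∧
          ∃ i : ℤ, ((0 ≤ i ∧ i < (k : ℤ)) ∨ ((k : ℤ) < i ∧ i ≤ (k : ℤ) + (ℓ : ℤ))) ∧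
            x = c.1 + (c.2.1 * i) • (Pi.single c.2.2 (1 : ℤ) : Fin 3 → ℤ) := by
  intro k ℓ hk hl
  have hK : (1 : ℤ) ≤ k := by exact_mod_cast hk
  have hL : (1 : ℤ) ≤ ℓ := by exact_mod_cast hl
  obtain ⟨σ, D', hσ, hs⟩ := exists_sigma ((k : ℤ) + ℓ + 2) (by omega)
  choose R hR using row (k : ℤ) (ℓ : ℤ) hK hL σ D' hσ hs
  exact assemble (k : ℤ) (ℓ : ℤ) (part k ℓ σ R) (part_cover k ℓ hK hL σ R)
    (part_til k ℓ hK hL σ R hσ hR)

end Pool.Agent.S12159
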