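import Pool.Statements.S12187
import Pool.Agent.H217R3.Beer.Final

set_option autoImplicit false
open Pool Pool.MP_e9a110_co

namespace Pool.Agent.S12187

/-- For every ε>0 there is δ>0 such that every measurable planar set S of finite positive area with Beer index at least ε admits a bounded convex set C with area at least δ times the area of S and boundary contained in S. -/
theorem result :
    ∀ ε : ℝ, 0 < ε → ∃ δ : ℝ, 0 < δ ∧
      ∀ S : Set (ℝ × ℝ), MeasurableSet S → 0 < MeasureTheory.volume S →
        MeasureTheory.volume S < ⊤ →
        ENNReal.ofReal ε * (MeasureTheory.volume S) ^ 2 ≤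
          MeasureTheory.volume {p : (ℝ × ℝ) × (ℝ × ℝ) | segment ℝ p.1 p.2 ⊆ S} →
        ∃ C : Set (ℝ × ℝ), Convex ℝ C ∧ Bornology.IsBounded C ∧
          ENNReal.ofReal δ * MeasureTheory.volume S ≤ MeasureTheory.volume C ∧
          frontier C ⊆ S := by
  exact Pool.Agent.H217R3.Beer.core

end Pool.Agent.S12187
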