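import Pool.Statements.S12199
import Pool.Agent.H417R3.Relax

set_option autoImplicit false
open Pool Pool.MP_ea35a0_co

namespace Pool.Agent.S12199

lemma asymp (ε : ℝ) (hε : 0 < ε) : ∃ M : ℕ, 1 ≤ M ∧ ∀ m : ℕ, M ≤ m →
    1 ≤ (1 + ε) * (2 * (m : ℝ) ^ 2 / Real.pi ^ 2) * (1 - Real.cos (Real.pi / m)) := by
  obtain ⟨M, hM⟩ := exists_nat_ge (4 + 4 / ε)
  have hM4 : (4 : ℝ) ≤ M := by
    have : 0 < 4 / ε := by positivity
    linarith
  refine ⟨M, by exact_mod_cast (by linarith : (1 : ℝ) ≤ M), ?_⟩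
  intro m hm
  have hmM : (M : ℝ) ≤ m := by exact_mod_cast hm
  have hm4 : (4 : ℝ) ≤ m := hM4.trans hmM
  have hm0 : (0 : ℝ) < m := by linarith
  have hpi := Real.pi_pos
  have hpi4 := Real.pi_le_four
  set x : ℝ := Real.pi / m with hx
  have hx0 : 0 < x := by positivity
  have hx1 : x ≤ 1 := by
    rw [hx, div_le_one hm0]
    linarith
  have hcos := Real.cos_bound (x := x) (by rw [abs_of_pos hx0]; exact hx1)
  rw [abs_of_pos hx0] at hcos
  have h1 := (abs_le.mp hcos).2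
  have h2 : x ^ 2 / 2 - x ^ 4 * (5 / 96) ≤ 1 - Real.cos x := by linarith
  have h3 : 2 * (m : ℝ) ^ 2 / Real.pi ^ 2 = 2 / x ^ 2 := by
    rw [hx]
    field_simp
  rw [h3]
  have h4 : (1 + ε) * (2 / x ^ 2) * (x ^ 2 / 2 - x ^ 4 * (5 / 96)) ≤
      (1 + ε) * (2 / x ^ 2) * (1 - Real.cos x) := by
    apply mul_le_mul_of_nonneg_left h2
    positivity
  refine le_trans ?_ h4
  have h5 : (1 + ε) * (2 / x ^ 2) * (x ^ 2 / 2 - x ^ 4 * (5 / 96)) =
      (1 + ε) * (1 - x ^ 2 * (5 / 48)) := by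
    field_simp
    ring
  rw [h5]
  -- `x ^ 2 ≤ x ≤ 4 / m ≤ ε / (1 + ε)`
  have h6 : x ^ 2 ≤ x := by nlinarith
  have h7 : x ≤ 4 / m := by
    rw [hx]
    apply div_le_div_of_nonneg_right hpi4 hm0.le
  have h8 : 4 / (m : ℝ) ≤ ε / (1 + ε) := by
    rw [div_le_div_iff₀ hm0 (by linarith)]
    have h9 : 4 + 4 / ε ≤ m := hM.trans hmM
    have h10 : ε * (4 + 4 / ε) ≤ ε * m := mul_le_mul_of_nonneg_left h9 hε.le
    have h11 : ε * (4 + 4 / ε) = 4 * (1 + ε) := by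
      field_simp
      ring
    linarith
  have h12 : x ^ 2 * (5 / 48) ≤ ε / (1 + ε) := by
    have : 0 ≤ x ^ 2 := by positivity
    nlinarith
  have h13 : (1 + ε) * (1 - ε / (1 + ε)) = 1 := by
    field_simp
    ring
  nlinarith

/-- For every ε>0, every connected graph with enough edges m has simple-random-walk relaxation time (degree-weighted variance over edge Dirichlet form) at most (1+ε)·2m²/π², i.e. the path is asymptotically extremal. -/
theorem result :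
    ∀ ε : ℝ, ε > 0 → ∃ M : ℕ, ∀ (n : ℕ) (G : SimpleGraph (Fin n)) [DecidableRel G.Adj],
      G.Connected → M ≤ G.edgeFinset.card →
      ∀ f : Fin n → ℝ, ∃ c : ℝ,
        ∑ v, (G.degree v : ℝ) * (f v - c) ^ 2 ≤
          (1 + ε) * (2 * (G.edgeFinset.card : ℝ) ^ 2 / Real.pi ^ 2) *
            ((1 / 2 : ℝ) * ∑ u, ∑ v, (if G.Adj u v then (f u - f v) ^ 2 else 0)) := by
  intro ε hε
  obtain ⟨M, hM1, hM⟩ := asymp ε hε
  refine ⟨M, ?_⟩
  intro n G _ hG hcard f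
  have hm : 1 ≤ G.edgeFinset.card := hM1.trans hcard
  have hdeg : ∑ v, (G.degree v : ℝ) = 2 * G.edgeFinset.card := by
    have := G.sum_degrees_eq_twice_card_edges
    exact_mod_cast this
  have hdeg0 : ∑ v, (G.degree v : ℝ) ≠ 0 := by
    rw [hdeg]
    have : (1 : ℝ) ≤ G.edgeFinset.card := by exact_mod_cast hm
    linarith
  refine ⟨(∑ v, (G.degree v : ℝ) * f v) / ∑ v, (G.degree v : ℝ), ?_⟩
  set c : ℝ := (∑ v, (G.degree v : ℝ) * f v) / ∑ v, (G.degree v : ℝ) with hc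
  have hzero : ∑ v, (G.degree v : ℝ) * (f v - c) = 0 := by
    simp only [mul_sub, Finset.sum_sub_distrib, ← Finset.sum_mul]
    rw [hc, mul_div_cancel₀ _ hdeg0, sub_self]
  have key := Pool.Agent.H417R3.gap_bound hG hm (fun v => f v - c) hzero
  simp only [sub_sub_sub_cancel_right] at key
  set D : ℝ := (1 / 2 : ℝ) * ∑ u, ∑ v, (if G.Adj u v then (f u - f v) ^ 2 else 0) with hD
  set W : ℝ := ∑ v, (G.degree v : ℝ) * (f v - c) ^ 2 with hW
  have hW0 : 0 ≤ W := Finset.sum_nonneg fun v _ => by positivity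
  have h1 := hM _ hcard
  have hK : 0 ≤ (1 + ε) * (2 * (G.edgeFinset.card : ℝ) ^ 2 / Real.pi ^ 2) := by positivity
  calc W = 1 * W := (one_mul W).symm
    _ ≤ ((1 + ε) * (2 * (G.edgeFinset.card : ℝ) ^ 2 / Real.pi ^ 2) *
          (1 - Real.cos (Real.pi / G.edgeFinset.card))) * W :=
        mul_le_mul_of_nonneg_right h1 hW0
    _ = (1 + ε) * (2 * (G.edgeFinset.card : ℝ) ^ 2 / Real.pi ^ 2) *
          ((1 - Real.cos (Real.pi / G.edgeFinset.card)) * W) := by ring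
    _ ≤ (1 + ε) * (2 * (G.edgeFinset.card : ℝ) ^ 2 / Real.pi ^ 2) * D :=
        mul_le_mul_of_nonneg_left key hK

end Pool.Agent.S12199
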