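import Pool.Statements.S12216
import Pool.Agent.H330R3.PEnergy

set_option autoImplicit false
open Classical
open Pool Pool.MP_eaf560_co

namespace Pool.Agent.S12216

/-- The negation of the preceding statement: For every real p ≥ 3, every finite simple graph G and distinct non-adjacent vertices u, v, the sum of p-th powers of positive adjacency eigenvalues of G plus edge uv is at least that of G. -/
theorem result :
    ¬ (∀ p : ℝ, 3 ≤ p → ∀ (n : ℕ) (G : SimpleGraph (Fin n)) (u v : Fin n), u ≠ v → ¬ G.Adj u v →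
      ((((G ⊔ SimpleGraph.edge u v).adjMatrix ℝ).charpoly.roots.filter (fun x => 0 < x)).map
          (fun x => x ^ p)).sum ≥
        (((G.adjMatrix ℝ).charpoly.roots.filter (fun x => 0 < x)).map (fun x => x ^ p)).sum) := by
  intro H
  have h := H 3 le_rfl 82 H330R3.PEnergy.GG 0 81 (by decide) (by
    show ¬ (H330R3.PEnergy.nn 0 (H330R3.PEnergy.cls 0) (H330R3.PEnergy.cls 81) = 1)
    decide)
  have h0 : (H330R3.PEnergy.GG.adjMatrix ℝ) =
      (H330R3.PEnergy.MM 0).submatrix H330R3.PEnergy.cls H330R3.PEnergy.cls := by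
    ext x y
    rw [SimpleGraph.adjMatrix_apply]
    exact H330R3.PEnergy.adj_GG x y
  have h1 : ((H330R3.PEnergy.GG ⊔ SimpleGraph.edge 0 81).adjMatrix ℝ) =
      (H330R3.PEnergy.MM 1).submatrix H330R3.PEnergy.cls H330R3.PEnergy.cls := by
    ext x y
    rw [SimpleGraph.adjMatrix_apply]
    exact H330R3.PEnergy.adj_GG_edge x y
  have hd := H330R3.PEnergy.drop
  rw [h0] at h
  erw [h1] at h
  refine absurd h (not_le.2 ?_)
  have e : ∀ P : Polynomial ℝ, H330R3.PEnergy.posr P = P.roots.filter (fun x => 0 < x) := by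
    intro P
    unfold H330R3.PEnergy.posr
    congr
  rw [e, e] at hd
  convert hd using 3

end Pool.Agent.S12216
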