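import Pool.Statements.S12292
import Pool.Agent.H267R3.Block

set_option autoImplicit false
open Pool Pool.MP_eee601_co

namespace Pool.Agent.S12292

/-- The negation of the preceding statement: For each d≥3 there is ε>0 such that for every graph H, all large enough connected graphs G with max degree ≤d and bandwidth ≤ε∣G∣ satisfy R(G,H) ≤ (χ(H)−1)(∣G∣−1)+σ(H), i.e. are H-good. -/
theorem result :
    ¬ (∀ d : ℕ, 3 ≤ d → ∃ ε : ℝ, 0 < ε ∧
    ∀ k : ℕ, 1 ≤ k → ∀ H : SimpleGraph (Fin k), ∃ n₀ : ℕ, ∀ n : ℕ, n₀ ≤ n →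
      ∀ G : SimpleGraph (Fin n), G.Connected →
        (∀ v : Fin n, (G.neighborSet v).ncard ≤ d) →
        (∃ π : Fin n ≃ Fin n, ∀ u v : Fin n, G.Adj u v →
            |((π u : ℕ) : ℝ) - ((π v : ℕ) : ℝ)| ≤ ε * (n : ℝ)) →
        ∀ c : Fin k → Fin H.chromaticNumber.toNat,
          (∀ u v : Fin k, H.Adj u v → c u ≠ c v) →
          ∀ i : Fin H.chromaticNumber.toNat,
            ∀ N : ℕ, N = (H.chromaticNumber.toNat - 1) * (n - 1)
                + (Finset.univ.filter (fun v : Fin k => c v = i)).card →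
            ∀ F : SimpleGraph (Fin N),
              (∃ f : Fin n → Fin N, Function.Injective f ∧
                  ∀ u v : Fin n, G.Adj u v → F.Adj (f u) (f v)) ∨
              (∃ g : Fin k → Fin N, Function.Injective g ∧
                  ∀ u v : Fin k, H.Adj u v → Fᶜ.Adj (g u) (g v))) := by
  intro hall
  obtain ⟨ε, hε, h⟩ := hall 34 (by norm_num)
  obtain ⟨m0, hm0⟩ := exists_nat_ge (1 / ε)
  obtain ⟨m, hm⟩ : ∃ m, m = m0 + 1 := ⟨_, rfl⟩
  have hm1 : 1 ≤ m := by omega
  have hεm : 1 ≤ ε * m := by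
    have h1 : 1 / ε ≤ (m : ℝ) := by
      rw [hm]; push_cast; linarith
    rw [div_le_iff₀ hε] at h1
    linarith
  obtain ⟨r, hr1, hr⟩ := Pool.Agent.H267R3.main_construction m hm1
  obtain ⟨n₀, hn₀⟩ := h r hr1 ⊤
  obtain ⟨n, hn0, b, hnb, hb0, G, hconn, hdeg, hband, F, hF1, hF2⟩ := hr n₀
  have hχ : (⊤ : SimpleGraph (Fin r)).chromaticNumber.toNat = r := by
    rw [SimpleGraph.chromaticNumber_top, Fintype.card_fin]
    rfl
  have h1 := hn₀ n hn0 G hconn hdeg ⟨Equiv.refl _, fun u v huv => ?_⟩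
    (Fin.cast hχ.symm) (by
      intro u v huv hc
      exact huv.ne (Fin.cast_injective _ hc)) (Fin.cast hχ.symm ⟨0, hr1⟩)
    ((r - 1) * (n - 1) + 1) (by
      have hm1' : (r - 1) * (n - 1) =
          ((⊤ : SimpleGraph (Fin r)).chromaticNumber.toNat - 1) * (n - 1) :=
        congrArg (fun x => (x - 1) * (n - 1)) hχ.symm
      refine congrArg₂ (· + ·) hm1' ?_
      symm
      rw [Finset.card_eq_one]
      refine ⟨⟨0, hr1⟩, ?_⟩
      ext v
      rw [Finset.mem_filter, Finset.mem_singleton]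
      constructor
      · rintro ⟨-, hv⟩
        exact Fin.cast_injective _ hv
      · rintro rfl
        exact ⟨Finset.mem_univ _, rfl⟩) F
  · rcases h1 with h1 | ⟨g, hg, hadj⟩
    · exact hF1 h1
    · exact hF2 ⟨g, hg, fun u v huv => hadj u v huv⟩
  · have h2 := hband u v huv
    have h3 : (b : ℝ) ≤ ε * (n : ℝ) := by
      rw [hnb]
      push_cast
      have hb' : (0 : ℝ) ≤ b := by positivity
      nlinarith
    simp only [Equiv.refl_apply]
    linarith


end Pool.Agent.S12292
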