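import Pool.Statements.S12297
import Pool.Agent.H324R3.QueensData
import Pool.Agent.H324R3.QueensSmall
import Pool.Agent.H324R3.QueensUpper

set_option autoImplicit false
open Pool Pool.MP_ef2397_co

namespace Pool.Agent.S12297

/-- For every positive n with gcd(n,12) equal to 6 or 12, the largest set of queens on the n×n torus board, pairwise sharing no row, column, or wrapped diagonal (i+j or i−j mod n), has exactly n−2 queens. -/
theorem result :
    ∀ n : ℕ, 0 < n → (Nat.gcd n 12 = 6 ∨ Nat.gcd n 12 = 12) →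
      IsGreatest
        {k : ℕ | ∃ S : Finset (ZMod n × ZMod n), S.card = k ∧
          ∀ p ∈ S, ∀ q ∈ S, p ≠ q →
            p.1 ≠ q.1 ∧ p.2 ≠ q.2 ∧ p.1 + p.2 ≠ q.1 + q.2 ∧ p.1 - p.2 ≠ q.1 - q.2}
        (n - 2) := by
  intro n hn hg
  have h6 : 6 ∣ n := by
    rcases hg with hg | hg
    · rw [← hg]; exact Nat.gcd_dvd_left n 12
    · exact (by norm_num : 6 ∣ 12).trans (hg ▸ Nat.gcd_dvd_left n 12)
  obtain ⟨m, rfl⟩ := h6
  have hm : 0 < m := by omega
  constructor
  · show ∃ S : Finset (ZMod (6 * m) × ZMod (6 * m)), S.card = 6 * m - 2 ∧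
          ∀ p ∈ S, ∀ q ∈ S, p ≠ q →
            p.1 ≠ q.1 ∧ p.2 ≠ q.2 ∧ p.1 + p.2 ≠ q.1 + q.2 ∧ p.1 - p.2 ≠ q.1 - q.2
    by_cases hm10 : m < 10
    · interval_cases m
      · exact Pool.Agent.H324R3.queens_of_smc Pool.Agent.H324R3.sq6_ok
      · exact Pool.Agent.H324R3.queens_of_smc Pool.Agent.H324R3.sq12_ok
      · exact Pool.Agent.H324R3.queens_of_smc Pool.Agent.H324R3.sq18_ok
      · exact Pool.Agent.H324R3.queens_of_smc Pool.Agent.H324R3.sq24_ok
      · exact Pool.Agent.H324R3.queens_of_smc Pool.Agent.H324R3.sq30_ok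
      · exact Pool.Agent.H324R3.queens_of_smc Pool.Agent.H324R3.sq36_ok
      · exact Pool.Agent.H324R3.queens_of_smc Pool.Agent.H324R3.sq42_ok
      · exact Pool.Agent.H324R3.queens_of_smc Pool.Agent.H324R3.sq48_ok
      · exact Pool.Agent.H324R3.queens_of_smc Pool.Agent.H324R3.sq54_ok
    · rcases Nat.even_or_odd' m with ⟨k, hk | hk⟩
      · exact Pool.Agent.H324R3.queens_of_check Pool.Agent.H324R3.famA_ok (k : ℤ)
          (by omega) (6 * m) (by push_cast; omega) (by omega)
      · exact Pool.Agent.H324R3.queens_of_check Pool.Agent.H324R3.famB_ok (k : ℤ)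
          (by omega) (6 * m) (by push_cast; omega) (by omega)
  · rintro c ⟨S, rfl, hS⟩
    exact Pool.Agent.H324R3.upper hm S hS

end Pool.Agent.S12297
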