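import Pool.Statements.S12323
import Pool.Agent.H595R3.Flat4

set_option autoImplicit false
open Pool Pool.MP_f03f2f_co

namespace Pool.Agent.S12323

open Pool.Agent.H595R3.Flat

/-- For r≥1, s≥2r+1 and 0≤k<⌊(s−1)/r⌋: take multigraphs where every s-set spans at most a·C(s,2)+t_r(s)+k edges. Their max product of multiplicities, raised to 1/C(n,2), tends to a^{1/r}(a+1)^{(r−1)/r}. -/
theorem result :
    ∀ r a s : ℕ, 1 ≤ r → 2 * r + 1 ≤ s → ∀ k : ℕ, k + 1 ≤ (s - 1) / r →
      Filter.Tendsto
        (fun n : ℕ =>
          (sSup {x : ℝ | ∃ w : Sym2 (Fin n) → ℕ,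
              (∀ S : Finset (Fin n), S.card = s →
                ∑ e ∈ S.sym2.filter (fun e => ¬ e.IsDiag), w e ≤
                  a * s.choose 2 +
                    ((Finset.univ : Finset (Fin s × Fin s)).filter
                      (fun p => p.1 < p.2 ∧ p.1.val % r ≠ p.2.val % r)).card + k) ∧
              x = ∏ e ∈ (Finset.univ : Finset (Sym2 (Fin n))).filter (fun e => ¬ e.IsDiag),
                    (w e : ℝ)}) ^ ((1 : ℝ) / (n.choose 2 : ℝ)))
        Filter.atTop
        (nhds ((a : ℝ) ^ ((1 : ℝ) / r) * ((a : ℝ) + 1) ^ (((r : ℝ) - 1) / r))) := by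
  intro r a s hr hs k hk
  set Q : ℕ := a * s.choose 2 +
    ((Finset.univ : Finset (Fin s × Fin s)).filter
      (fun p => p.1 < p.2 ∧ p.1.val % r ≠ p.2.val % r)).card + k with hQdef
  have hQtr : Q = a * s.choose 2 + tr r s + k := rfl
  set X : ℕ → Set ℝ := fun n => {x : ℝ | ∃ w : Sym2 (Fin n) → ℕ,
              (∀ S : Finset (Fin n), S.card = s →
                ∑ e ∈ S.sym2.filter (fun e => ¬ e.IsDiag), w e ≤ Q) ∧
              x = ∏ e ∈ (Finset.univ : Finset (Sym2 (Fin n))).filter (fun e => ¬ e.IsDiag),
                    (w e : ℝ)} with hX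
  change Filter.Tendsto (fun n : ℕ => (sSup (X n)) ^ ((1 : ℝ) / (n.choose 2 : ℝ))) Filter.atTop _
  set p : ℕ := r * a + r - 1 with hp
  have hG : Q < G p r (s - 1) := by
    have h := G_eq a r (s - 1) hr
    have hs1 : s - 1 + 1 = s := by omega
    rw [hs1] at h
    rw [h, hQtr]
    have : k < (s - 1) / r := hk
    exact Nat.add_lt_add_left this _
  -- the sum bound
  have hsum : ∀ n : ℕ, s ≤ n → ∀ w : Sym2 (Fin n) → ℕ,
      (∀ S : Finset (Fin n), S.card = s →
        ∑ e ∈ S.sym2.filter (fun e => ¬ e.IsDiag), w e ≤ Q) →
      r * W w Finset.univ ≤ p * n.choose 2 + 2 * r * Q * n := by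
    intro n hn w hw
    exact main_sum w s Q p r hr (by omega) hG Finset.univ (fun S _ hS => hw S hS) n
      Finset.univ (Finset.Subset.refl _) (by simp) hn
  -- the Turan weighting belongs to the family
  have hmem : ∀ n : ℕ, (∏ e ∈ OD n, (w0 a (fun i : Fin n => i.val % r) e : ℝ)) ∈ X n := by
    intro n
    refine ⟨w0 a (fun i : Fin n => i.val % r), ?_, rfl⟩
    intro S hS
    have h := W_w0_le a r hr (fun i : Fin n => i.val % r)
      (fun x => Nat.mod_lt _ (by omega)) s S hS
    have h' : W (w0 a (fun i : Fin n => i.val % r)) S ≤ Q := by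
      rw [hQtr]; omega
    exact h'
  have hrR : (0 : ℝ) < r := by exact_mod_cast hr
  rcases Nat.eq_zero_or_pos a with ha | ha
  · -- a = 0 : everything vanishes eventually
    have hlim : ((a : ℝ) ^ ((1 : ℝ) / r) * ((a : ℝ) + 1) ^ (((r : ℝ) - 1) / r)) = 0 := by
      rw [ha]
      simp only [Nat.cast_zero]
      rw [Real.zero_rpow (by positivity)]
      simp
    rw [hlim]
    apply Filter.Tendsto.congr' _ tendsto_const_nhds
    filter_upwards [Filter.eventually_ge_atTop (s + 4 * r * Q + 2)] with n hn
    have hXn : X n = {0} := by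
      ext x
      constructor
      · rintro ⟨w, hw, rfl⟩
        rw [Set.mem_singleton_iff]
        by_contra hne
        have hall : ∀ e ∈ OD n, w e ≠ 0 := by
          intro e he h0
          exact hne (Finset.prod_eq_zero he (by rw [h0]; simp))
        have h1 : n.choose 2 ≤ W w Finset.univ := by
          rw [W_univ, ← card_OD n, Finset.card_eq_sum_ones]
          exact Finset.sum_le_sum (fun e he => Nat.pos_of_ne_zero (hall e he))
        have h2 := hsum n (by omega) w hw
        have hp0 : p = r - 1 := by rw [hp, ha]; simp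
        have h3 : r * n.choose 2 ≤ (r - 1) * n.choose 2 + 2 * r * Q * n := by
          rw [← hp0]; exact (Nat.mul_le_mul_left r h1).trans h2
        have h4 : n.choose 2 ≤ 2 * r * Q * n := by
          have : r * n.choose 2 = (r - 1) * n.choose 2 + n.choose 2 := by
            conv_lhs => rw [show r = (r - 1) + 1 by omega]
            ring
          omega
        have h5 : 2 * n.choose 2 = n * (n - 1) := by
          rw [Nat.choose_two_right]
          exact Nat.mul_div_cancel' (Nat.even_mul_pred_self n).two_dvd
        have h6 : n * (n - 1) ≤ n * (4 * r * Q) := by nlinarith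
        have h7 : n - 1 ≤ 4 * r * Q := Nat.le_of_mul_le_mul_left h6 (by omega)
        omega
      · rintro h
        rw [Set.mem_singleton_iff] at h
        have h1 := hmem n
        have h0 : (∏ e ∈ OD n, (w0 a (fun i : Fin n => i.val % r) e : ℝ)) = 0 := by
          -- use the pair (0, r)
          have hn1 : r < n := by nlinarith [Nat.zero_le (4 * r * Q)]
          apply Finset.prod_eq_zero (i := s(⟨0, by omega⟩, ⟨r, hn1⟩))
          · simp only [Finset.mem_filter, Finset.mem_univ, true_and, Sym2.mk_isDiag_iff,
              Fin.mk.injEq]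
            omega
          · rw [w0_mk]; simp [ha]
        rw [h, ← h0]
        exact h1
    rw [hXn, csSup_singleton]
    have hc : 0 < n.choose 2 := Nat.choose_pos (by omega)
    rw [Real.zero_rpow]
    have : (0 : ℝ) < n.choose 2 := by exact_mod_cast hc
    positivity
  · -- a ≥ 1
    have haR : (0 : ℝ) < a := by exact_mod_cast ha
    have ha1R : (0 : ℝ) < (a : ℝ) + 1 := by positivity
    set c : ℝ := Real.log ((a : ℝ) + 1) - Real.log a with hc
    have hcpos : 0 < c := by
      rw [hc, sub_pos]
      exact Real.log_lt_log haR (by linarith)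
    set L : ℝ := (a : ℝ) ^ ((1 : ℝ) / r) * ((a : ℝ) + 1) ^ (((r : ℝ) - 1) / r) with hL
    have hLexp : L = Real.exp (Real.log a + ((r : ℝ) - 1) / r * c) := by
      rw [hL, Real.rpow_def_of_pos haR, Real.rpow_def_of_pos ha1R, ← Real.exp_add]
      congr 1
      rw [hc]
      field_simp
      ring
    have hpR : (p : ℝ) = r * a + r - 1 := by
      rw [hp, Nat.cast_sub (by nlinarith [Nat.zero_le (r * a)])]
      push_cast
      ring
    -- bounds
    have hbound : ∀ n : ℕ, s ≤ n →
        L ≤ (sSup (X n)) ^ ((1 : ℝ) / (n.choose 2 : ℝ)) ∧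
        (sSup (X n)) ^ ((1 : ℝ) / (n.choose 2 : ℝ)) ≤
          L * Real.exp ((2 * Q * n / (n.choose 2 : ℝ)) * c) := by
      intro n hn
      have hN : 0 < n.choose 2 := Nat.choose_pos (by omega)
      have hNR : (0 : ℝ) < n.choose 2 := by exact_mod_cast hN
      set N : ℝ := (n.choose 2 : ℝ) with hNdef
      set B : ℝ := Real.exp (N * Real.log a + (((r : ℝ) - 1) / r * N + 2 * Q * n) * c) with hB
      have hup : ∀ x ∈ X n, x ≤ B := by
        rintro x ⟨w, hw, rfl⟩
        refine (prod_le n a ha w).trans ?_
        rw [hB]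
        apply Real.exp_le_exp.2
        have h := hsum n hn w hw
        have hR : (r : ℝ) * W w Finset.univ ≤ (r * a + r - 1) * N + 2 * r * Q * n := by
          rw [← hpR, hNdef]; exact_mod_cast h
        have h2 : (W w Finset.univ : ℝ) - a * N ≤ ((r : ℝ) - 1) / r * N + 2 * Q * n := by
          have e : ((r : ℝ) - 1) / r * N + 2 * Q * n + a * N
              = ((r * a + r - 1) * N + 2 * r * Q * n) / r := by
            field_simp; ring
          have : (W w Finset.univ : ℝ) ≤ ((r * a + r - 1) * N + 2 * r * Q * n) / r := by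
            rw [le_div_iff₀ hrR]; linarith
          linarith
        have := mul_le_mul_of_nonneg_right h2 hcpos.le
        linarith
      have hbdd : BddAbove (X n) := ⟨B, hup⟩
      have hne : (X n).Nonempty := ⟨_, hmem n⟩
      have hsB : sSup (X n) ≤ B := csSup_le hne hup
      have hlow : Real.exp (N * Real.log a + (((r : ℝ) - 1) / r * N) * c) ≤ sSup (X n) := by
        refine le_trans ?_ (le_csSup hbdd (hmem n))
        rw [prod_w0 n a r ha]
        apply Real.exp_le_exp.2
        have h := W_w0_fin a r n hr
        have hR : (r * a + r - 1) * N ≤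
            (r : ℝ) * W (w0 a (fun i : Fin n => i.val % r)) Finset.univ := by
          rw [← hpR, hNdef]; exact_mod_cast h
        have h2 : ((r : ℝ) - 1) / r * N ≤
            (W (w0 a (fun i : Fin n => i.val % r)) Finset.univ : ℝ) - a * N := by
          have e : ((r : ℝ) - 1) / r * N + a * N = ((r * a + r - 1) * N) / r := by
            field_simp; ring
          have : ((r * a + r - 1) * N) / r ≤
              (W (w0 a (fun i : Fin n => i.val % r)) Finset.univ : ℝ) := by
            rw [div_le_iff₀ hrR]; linarith
          linarith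
        have := mul_le_mul_of_nonneg_right h2 hcpos.le
        linarith
      have hs0 : 0 ≤ sSup (X n) := (Real.exp_pos _).le.trans hlow
      have hexp0 : 0 ≤ (1 : ℝ) / N := by positivity
      constructor
      · have h1 := Real.rpow_le_rpow (Real.exp_pos _).le hlow hexp0
        refine le_trans (le_of_eq ?_) h1
        rw [hLexp, ← Real.exp_mul]
        congr 1
        field_simp
      · have h1 := Real.rpow_le_rpow hs0 hsB hexp0
        refine h1.trans (le_of_eq ?_)
        rw [hB, hLexp, ← Real.exp_mul, ← Real.exp_add]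
        congr 1
        field_simp
        ring
    -- squeeze
    have hlimit : Filter.Tendsto
        (fun n : ℕ => L * Real.exp ((2 * Q * n / (n.choose 2 : ℝ)) * c)) Filter.atTop (nhds L) := by
      have h1 : Filter.Tendsto (fun n : ℕ => (2 * Q * n / (n.choose 2 : ℝ))) Filter.atTop
          (nhds 0) := by
        have h2 : Filter.Tendsto (fun n : ℕ => (4 * (Q : ℝ)) / ((n : ℝ) - 1)) Filter.atTop
            (nhds 0) := by
          apply Filter.Tendsto.div_atTop tendsto_const_nhds
          exact Filter.tendsto_atTop_add_const_right _ (-1) tendsto_natCast_atTop_atTop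
        apply h2.congr'
        filter_upwards [Filter.eventually_ge_atTop 2] with n hn
        rw [Nat.cast_choose_two]
        have hn' : (2 : ℝ) ≤ n := by exact_mod_cast hn
        have h3 : (n : ℝ) - 1 ≠ 0 := by linarith
        have h4 : (n : ℝ) ≠ 0 := by linarith
        field_simp
        ring
      have h2 : Filter.Tendsto (fun n : ℕ => L * Real.exp ((2 * Q * n / (n.choose 2 : ℝ)) * c))
          Filter.atTop (nhds (L * Real.exp (0 * c))) :=
        (Real.continuous_exp.continuousAt.tendsto.comp (h1.mul_const c)).const_mul L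
      simpa using h2
    refine tendsto_of_tendsto_of_tendsto_of_le_of_le' tendsto_const_nhds hlimit ?_ ?_
    · filter_upwards [Filter.eventually_ge_atTop s] with n hn
      exact (hbound n hn).1
    · filter_upwards [Filter.eventually_ge_atTop s] with n hn
      exact (hbound n hn).2

end Pool.Agent.S12323
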