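import Pool.Statements.S12360
import Pool.Agent.H368R3.Final

set_option autoImplicit false
open Pool Pool.MP_f17f26_co

namespace Pool.Agent.S12360

open Pool.Agent.H368R3.Rigid Pool.Agent.H368R3.Final in
/-- The negation of the preceding statement: Every connected infinite 4-regular vertex-transitive graph has a spanning 2-regular subgraph H whose stabilizer in the automorphism group of the graph has only finitely many orbits on vertices. -/
theorem result :
    ¬ (∀ (V : Type) (G : SimpleGraph V), Infinite V → G.Connected →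
      (∀ v : V, (G.neighborSet v).ncard = 4) →
      (∀ u v : V, ∃ φ : G ≃g G, φ u = v) →
      ∃ H : SimpleGraph V, H ≤ G ∧ (∀ v : V, (H.neighborSet v).ncard = 2) ∧
        ∃ S : Finset V, ∀ v : V, ∃ s ∈ S, ∃ φ : G ≃g G,
          (∀ x y : V, H.Adj (φ x) (φ y) ↔ H.Adj x y) ∧ φ s = v) := by
  intro hall
  obtain ⟨H, hHG, hH2, hS⟩ := hall (VV y) Pool.Agent.H368R3.Final.G inf conn four trans
  have h1 : (H.neighborSet (cs y 1)).Nonempty := by
    apply Set.nonempty_of_ncard_ne_zero
    rw [hH2]
    norm_num
  obtain ⟨v, hv⟩ := h1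
  have h2 := subgraph_all H hHG hS _ _ hv
  have h3 : H = Pool.Agent.H368R3.Final.G := le_antisymm hHG h2
  have h4 := hH2 (cs y 1)
  rw [h3, four] at h4
  omega

end Pool.Agent.S12360
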