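import Pool.Statements.S12365
import Pool.Agent.H18R3.Switch

set_option autoImplicit false
open Pool Pool.MP_f1eca3_co

namespace Pool.Agent.S12365

/-- For every n and every n×n matrix of ±1 entries, there are row signs and column signs (each ±1) such that the absolute value of the total sum of the sign-flipped matrix is at most 2. -/
theorem result :
    ∀ n : ℕ, ∀ A : Fin n → Fin n → ℤ, (∀ i j, A i j = 1 ∨ A i j = -1) →
      ∃ r c : Fin n → ℤ, (∀ i, r i = 1 ∨ r i = -1) ∧ (∀ j, c j = 1 ∨ c j = -1) ∧
        |∑ i, ∑ j, r i * A i j * c j| ≤ 2 := by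
  intro n A hA
  exact Pool.Agent.H18R3.Switch.main n A hA

end Pool.Agent.S12365
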