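import Pool.Statements.S12369
import Pool.Agent.H367R3.GSLin

set_option autoImplicit false
open Pool Pool.MP_f210e3_co

namespace Pool.Agent.S12369

/-- The Lorentz pairing with the vector attached to a sphere. -/
noncomputable def pairing (d : ℕ) (x : EuclideanSpace ℝ (Fin (d + 1)) × ℝ × ℝ) :
    (EuclideanSpace ℝ (Fin (d + 1)) × ℝ × ℝ) →ₗ[ℝ] ℝ where
  toFun y := 2 * inner ℝ x.1 y.1 - x.2.1 * y.2.2 - x.2.2 * y.2.1
  map_add' y z := by
    simp only [Prod.fst_add, Prod.snd_add, inner_add_right]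
    ring
  map_smul' c y := by
    simp only [Prod.smul_fst, Prod.smul_snd, inner_smul_right, smul_eq_mul, RingHom.id_apply]
    ring

/-- The vector of a sphere. -/
noncomputable def vec (d : ℕ) (s : EuclideanSpace ℝ (Fin (d + 1)) × ℝ) :
    EuclideanSpace ℝ (Fin (d + 1)) × ℝ × ℝ := (s.1, ‖s.1‖ ^ 2 - s.2 ^ 2, 1)

theorem pairing_vec (d : ℕ) (s t : EuclideanSpace ℝ (Fin (d + 1)) × ℝ) :
    pairing d (vec d s) (vec d t) = s.2 ^ 2 + t.2 ^ 2 - dist s.1 t.1 ^ 2 := by
  rw [dist_eq_norm, norm_sub_sq_real]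
  show 2 * inner ℝ s.1 t.1 - (‖s.1‖ ^ 2 - s.2 ^ 2) * 1 - 1 * (‖t.1‖ ^ 2 - t.2 ^ 2) = _
  ring

/-- For every d ≥ 1, tree T and k, there is c such that any finite family of distinct d-spheres in R^(d+1) whose orthogonality graph has no induced T and no K_k has that graph c-colourable. -/
theorem result :
    ∀ d : ℕ, 1 ≤ d →
      ∀ m : ℕ, ∀ T : SimpleGraph (Fin m), T.IsTree →
        ∀ k : ℕ, ∃ c : ℕ,
          ∀ n : ℕ, ∀ S : Fin n → EuclideanSpace ℝ (Fin (d + 1)) × ℝ,
            Function.Injective S →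
            (∀ i, 0 < (S i).2) →
            ¬ Nonempty (T ↪g SimpleGraph.fromRel
                (fun i j : Fin n => dist (S i).1 (S j).1 ^ 2 = (S i).2 ^ 2 + (S j).2 ^ 2)) →
            (SimpleGraph.fromRel
                (fun i j : Fin n => dist (S i).1 (S j).1 ^ 2 = (S i).2 ^ 2 + (S j).2 ^ 2)).CliqueFree k →
            (SimpleGraph.fromRel
                (fun i j : Fin n => dist (S i).1 (S j).1 ^ 2 = (S i).2 ^ 2 + (S j).2 ^ 2)).Colorable c := by
  intro d _ m T hT k
  obtain ⟨c, hc⟩ := Pool.Agent.H367R3.gyarfas_sumner_stable.{0} (d + 3 + 2) k m T hT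
  refine ⟨c, ?_⟩
  intro n S _ hpos hTG hk
  refine hc (Fin n) _ ?_ hk hTG
  apply Pool.Agent.H367R3.no_halfGraph_of_pairing _ (fun i => vec d (S i))
    (fun i => pairing d (vec d (S i))) _ (D := d + 3)
  · rw [Module.finrank_prod, Module.finrank_prod]
    simp
  · intro i j
    rw [pairing_vec, SimpleGraph.fromRel_adj]
    constructor
    · rintro ⟨_, h | h⟩
      · rw [h]
        ring
      · rw [dist_comm, h]
        ring
    · intro h
      refine ⟨?_, Or.inl (by linarith)⟩
      rintro rfl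
      rw [dist_self] at h
      have := hpos i
      nlinarith

end Pool.Agent.S12369
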