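import Pool.Statements.S12385
import Pool.Agent.H132R3.EvenCount

set_option autoImplicit false
open Pool Pool.MP_f2fe2b_co

namespace Pool.Agent.S12385

/-- For all 1 ≤ k ≤ n, the even binary tree with n leaves (child leaf-counts differ by at most 1 at every vertex) has at least as many leaf subsets inducing the even tree with k leaves as any rooted binary tree with n leaves. -/
theorem result :
    ∀ k n : ℕ, 1 ≤ k → k ≤ n →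
    ∀ (F : Finset (Finset (Fin k))) (E T : Finset (Finset (Fin n))),
      ((∀ A ∈ F, A.Nonempty) ∧ (Finset.univ ∈ F) ∧ (∀ i : Fin k, ({i} : Finset (Fin k)) ∈ F) ∧
        (∀ A ∈ F, ∀ B ∈ F, A ⊆ B ∨ B ⊆ A ∨ Disjoint A B) ∧
        (∀ A ∈ F, 2 ≤ A.card → ∃ B ∈ F, ∃ D ∈ F, Disjoint B D ∧ B ∪ D = A) ∧
        (∀ A ∈ F, ∀ B ∈ F, B ⊂ A → (∀ D ∈ F, B ⊆ D → D ⊆ A → D = B ∨ D = A) →
          A.card ≤ 2 * B.card + 1 ∧ 2 * B.card ≤ A.card + 1)) →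
      ((∀ A ∈ E, A.Nonempty) ∧ (Finset.univ ∈ E) ∧ (∀ i : Fin n, ({i} : Finset (Fin n)) ∈ E) ∧
        (∀ A ∈ E, ∀ B ∈ E, A ⊆ B ∨ B ⊆ A ∨ Disjoint A B) ∧
        (∀ A ∈ E, 2 ≤ A.card → ∃ B ∈ E, ∃ D ∈ E, Disjoint B D ∧ B ∪ D = A) ∧
        (∀ A ∈ E, ∀ B ∈ E, B ⊂ A → (∀ D ∈ E, B ⊆ D → D ⊆ A → D = B ∨ D = A) →
          A.card ≤ 2 * B.card + 1 ∧ 2 * B.card ≤ A.card + 1)) →
      ((∀ A ∈ T, A.Nonempty) ∧ (Finset.univ ∈ T) ∧ (∀ i : Fin n, ({i} : Finset (Fin n)) ∈ T) ∧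
        (∀ A ∈ T, ∀ B ∈ T, A ⊆ B ∨ B ⊆ A ∨ Disjoint A B) ∧
        (∀ A ∈ T, 2 ≤ A.card → ∃ B ∈ T, ∃ D ∈ T, Disjoint B D ∧ B ∪ D = A)) →
      {L : Finset (Fin n) | ∃ f : Fin k → Fin n, Function.Injective f ∧
          Finset.univ.image f = L ∧
          ∀ B : Finset (Fin k), B ∈ F ↔ (B.Nonempty ∧ ∃ A ∈ T, B.image f = A ∩ L)}.ncard
        ≤
      {L : Finset (Fin n) | ∃ f : Fin k → Fin n, Function.Injective f ∧
          Finset.univ.image f = L ∧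
          ∀ B : Finset (Fin k), B ∈ F ↔ (B.Nonempty ∧ ∃ A ∈ E, B.image f = A ∩ L)}.ncard := by
  intro k n hk hkn F E T ⟨hF1, hF2, _, hF4, hF5, hF6⟩ ⟨hE1, hE2, _, hE4, hE5, hE6⟩
    ⟨hT1, hT2, _, hT4, hT5⟩
  obtain ⟨tF, wF, lF, fF⟩ := H132R3.BT.exists_tree hF1 hF4 hF5 _ Finset.univ hF2 rfl
  obtain ⟨tE, wE, lE, fE⟩ := H132R3.BT.exists_tree hE1 hE4 hE5 _ Finset.univ hE2 rfl
  obtain ⟨tT, wT, lT, fT⟩ := H132R3.BT.exists_tree hT1 hT4 hT5 _ Finset.univ hT2 rfl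
  have fF' : ∀ B, B ∈ tF.fam ↔ B ∈ F := fun B => by rw [fF]; simp
  have fE' : ∀ B, B ∈ tE.fam ↔ B ∈ E := fun B => by rw [fE]; simp
  have fT' : ∀ B, B ∈ tT.fam ↔ B ∈ T := fun B => by rw [fT]; simp
  have famF : tF.fam = F := Finset.ext fF'
  have famE : tE.fam = E := Finset.ext fE'
  have evF : tF.even := H132R3.BT.even_of_evenFam wF (by rw [famF]; exact hF6)
  have evE : tE.even := H132R3.BT.even_of_evenFam wE (by rw [famE]; exact hE6)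
  have hc : 1 ≤ Fintype.card (Fin k) := by rwa [Fintype.card_fin]
  have cT := H132R3.BT.copies_eq wF evF lF fF' hF6 wT fT' (by rw [lT]; simp) hc
  have cE := H132R3.BT.copies_eq wF evF lF fF' hF6 wE fE' (by rw [lE]; simp) hc
  rw [cT, cE, Set.ncard_coe_finset, Set.ncard_coe_finset, Fintype.card_fin,
    H132R3.BT.card_S_eq tE wE evE k hk, lE]
  refine (H132R3.BT.card_S_le tT wT k hk).trans (le_of_eq ?_)
  rw [lT]

end Pool.Agent.S12385
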