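import Pool.Statements.S12391
import Pool.Agent.H600R3.MaeharaClose

set_option autoImplicit false
open Pool Pool.MP_f35a22_co

namespace Pool.Agent.S12391

open Pool.Agent.H600R3

/-- lift of a centre to five coordinates -/
noncomputable def lift (c : EuclideanSpace ℝ (Fin 3)) : Fin 5 → ℝ :=
  ![1, c 0 ^ 2 + c 1 ^ 2 + c 2 ^ 2, c 0, c 1, c 2]

/-- the sphere functional of a point -/
noncomputable def phi (p : EuclideanSpace ℝ (Fin 3)) : (Fin 5 → ℝ) →ₗ[ℝ] ℝ where
  toFun X := (p 0 ^ 2 + p 1 ^ 2 + p 2 ^ 2 - 1) * X 0 + X 1 - 2 * p 0 * X 2 - 2 * p 1 * X 3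
    - 2 * p 2 * X 4
  map_add' X Y := by simp only [Pi.add_apply]; ring
  map_smul' r X := by simp only [Pi.smul_apply, smul_eq_mul, RingHom.id_apply]; ring

lemma dist_eq_one_iff (p c : EuclideanSpace ℝ (Fin 3)) :
    dist p c = 1 ↔ sqd (fun i => p i) (fun i => c i) = 1 := by
  rw [EuclideanSpace.dist_eq, Fin.sum_univ_three]
  simp only [Real.dist_eq, sq_abs]
  unfold sqd
  rw [Real.sqrt_eq_one]

lemma phi_lift (p c : EuclideanSpace ℝ (Fin 3)) :
    phi p (lift c) = sqd (fun i => p i) (fun i => c i) - 1 := by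
  simp [phi, lift, sqd]
  ring

lemma lift_injective : Function.Injective lift := by
  intro c c' h
  ext i
  have h2 := congrFun h 2
  have h3 := congrFun h 3
  have h4 := congrFun h 4
  simp [lift] at h2 h3 h4
  fin_cases i
  · exact h2
  · exact h3
  · exact h4

lemma mem_sphere_of_phi (p c : EuclideanSpace ℝ (Fin 3)) (h : phi p (lift c) = 0) :
    p ∈ Metric.sphere c 1 := by
  rw [Metric.mem_sphere, dist_eq_one_iff]
  rw [phi_lift] at h
  linarith

lemma phi_of_mem_sphere (p c : EuclideanSpace ℝ (Fin 3)) (h : p ∈ Metric.sphere c 1) :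
    phi p (lift c) = 0 := by
  rw [Metric.mem_sphere, dist_eq_one_iff] at h
  rw [phi_lift, h]; ring

/-- For any set of at least 5 distinct centers in 3-space, if every 4 of the unit spheres around them share a common point, then one point lies on all of these unit spheres. -/
theorem result :
    ∀ S : Set (EuclideanSpace ℝ (Fin 3)),
      5 ≤ S.encard →
      (∀ T : Set (EuclideanSpace ℝ (Fin 3)), T ⊆ S → T.encard = 4 →
        ∃ p : EuclideanSpace ℝ (Fin 3), ∀ c ∈ T, p ∈ Metric.sphere c 1) →
      ∃ p : EuclideanSpace ℝ (Fin 3), ∀ c ∈ S, p ∈ Metric.sphere c 1 := by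
  intro S hS h4
  obtain ⟨b, hbS, hspan, hli⟩ := exists_linearIndependent ℝ (lift '' S)
  have hbfin : b.Finite := hli.setFinite
  -- the preimage
  obtain ⟨T, hTS, hTb⟩ : ∃ T ⊆ S, lift '' T = b := by
    obtain ⟨T, hT1, hT2⟩ := Set.subset_image_iff.mp hbS
    exact ⟨T, hT1, hT2⟩
  have hTenc : T.encard = b.encard := by
    rw [← hTb, lift_injective.encard_image]
  have hb5 : b.ncard ≤ 5 := by
    have h1 : b.ncard ≤ Module.finrank ℝ (Fin 5 → ℝ) := by
      have _ := hbfin.fintype
      have h0 := hli.fintype_card_le_finrank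
      rw [← Nat.card_eq_fintype_card] at h0
      exact h0
    simpa using h1
  have hextend : ∀ p : EuclideanSpace ℝ (Fin 3), (∀ c ∈ T, p ∈ Metric.sphere c 1) →
      ∀ c ∈ S, p ∈ Metric.sphere c 1 := by
    intro p hp c hc
    apply mem_sphere_of_phi
    have hker : Submodule.span ℝ (lift '' S) ≤ LinearMap.ker (phi p) := by
      rw [← hspan, Submodule.span_le, ← hTb]
      rintro _ ⟨c', hc', rfl⟩
      exact phi_of_mem_sphere p c' (hp c' hc')
    exact hker (Submodule.subset_span ⟨c, hc, rfl⟩)
  rcases Nat.lt_or_ge b.ncard 5 with hlt | hge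
  · -- at most four
    have hTle : T.encard ≤ 4 := by
      rw [hTenc, ← hbfin.cast_ncard_eq]
      exact_mod_cast Nat.lt_succ_iff.mp hlt
    have h4S : (4 : ℕ∞) ≤ S.encard := le_trans (by norm_num) hS
    obtain ⟨T', hTT', hT'S, hT'⟩ := Set.exists_superset_subset_encard_eq hTS hTle h4S
    obtain ⟨p, hp⟩ := h4 T' hT'S hT'
    exact ⟨p, hextend p (fun c hc => hp c (hTT' hc))⟩
  · have hb : b.ncard = 5 := le_antisymm hb5 hge
    have hT5 : T.encard = 5 := by
      rw [hTenc, ← hbfin.cast_ncard_eq, hb]; rfl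
    have hTfin : T.Finite := Set.finite_of_encard_eq_coe (k := 5) hT5
    have hTn : T.ncard = 5 := by
      rw [Set.ncard_def, hT5]; rfl
    -- enumeration
    have _ := hTfin.fintype
    have hcard : Fintype.card T = 5 := by
      rw [← Nat.card_eq_fintype_card]; exact hTn
    let e : Fin 5 ≃ T := (Fintype.equivFinOfCardEq hcard).symm
    have hp : ∀ i : Fin 5, ∃ p : EuclideanSpace ℝ (Fin 3), ∀ c ∈ T \ {(e i : EuclideanSpace ℝ (Fin 3))},
        p ∈ Metric.sphere c 1 := by
      intro i
      apply h4 _ (Set.sdiff_subset.trans hTS)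
      have := Set.encard_sdiff_singleton_add_one (e i).2
      rw [hT5] at this
      have h5 : (5 : ℕ∞) = 4 + 1 := by norm_num
      rw [h5] at this
      exact WithTop.add_right_cancel ENat.one_ne_top this
    choose p hp using hp
    by_cases hall : ∀ i, sqd (fun k => p i k) (fun k => (e i : EuclideanSpace ℝ (Fin 3)) k) ≠ 1
    · exfalso
      refine five_false (fun i k => (e i : EuclideanSpace ℝ (Fin 3)) k) (fun i k => p i k) ?_ ?_ hall
      · intro hcontra
        have : (e 0 : EuclideanSpace ℝ (Fin 3)) = e 1 := by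
          ext k
          exact congrFun hcontra k
        have := e.injective (Subtype.ext this)
        exact absurd this (by decide)
      · intro i j hij
        have hmem : (e j : EuclideanSpace ℝ (Fin 3)) ∈ T \ {(e i : EuclideanSpace ℝ (Fin 3))} := by
          refine ⟨(e j).2, ?_⟩
          intro hcontra
          have : e j = e i := Subtype.ext hcontra
          exact hij (e.injective this).symm
        have := hp i _ hmem
        rw [Metric.mem_sphere, dist_eq_one_iff] at this
        exact this
    · push Not at hall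
      obtain ⟨i, hi⟩ := hall
      refine ⟨p i, hextend (p i) ?_⟩
      intro c hc
      by_cases hci : c = e i
      · rw [hci, Metric.mem_sphere, dist_eq_one_iff]; exact hi
      · exact hp i c ⟨hc, hci⟩

end Pool.Agent.S12391
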