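import Pool.Statements.S12427
import Pool.Agent.H609R3.QLCMain

set_option autoImplicit false
open Pool Pool.MP_f59cb1_co

namespace Pool.Agent.S12427

/-- With A_n(q) = sum over k ≤ n of C(n,k)^2 C(n+k,k) q^k, for every n ≥ 1 every coefficient of A_{n+1}(q)A_{n-1}(q) − A_n(q)^2 is nonnegative (q-log-convexity). -/
theorem result :
    ∀ A : ℕ → Polynomial ℤ,
      (∀ n : ℕ, A n = ∑ k ∈ Finset.range (n + 1),
          Polynomial.monomial k (((n.choose k : ℤ)) ^ 2 * ((n + k).choose k : ℤ))) →
      ∀ n i : ℕ, 0 ≤ (A (n + 2) * A n - A (n + 1) ^ 2).coeff i := by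
  intro A hA n i
  have hcoeff : ∀ m k : ℕ, (A m).coeff k = Pool.Agent.H609R3.QLC.a m k := by
    intro m k
    rw [hA m, Polynomial.finset_sum_coeff]
    simp only [Polynomial.coeff_monomial]
    unfold Pool.Agent.H609R3.QLC.a
    rcases Nat.lt_or_ge m k with h | h
    · rw [Finset.sum_eq_zero]
      · rw [Nat.choose_eq_zero_of_lt h]; simp
      · intro x hx
        rw [if_neg]
        rintro rfl
        simp at hx
        omega
    · rw [Finset.sum_eq_single k]
      · simp
      · intro b _ hb
        rw [if_neg hb]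
      · intro hk
        exfalso
        apply hk
        simp
        omega
  rw [Polynomial.coeff_sub, sq, Polynomial.coeff_mul, Polynomial.coeff_mul,
    ← Finset.sum_sub_distrib]
  simp only [hcoeff]
  exact Pool.Agent.H609R3.QLC.conv_nonneg n i

end Pool.Agent.S12427
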