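import Pool.Statements.S12466

set_option autoImplicit false
open Pool Pool.MP_f7a12b_co

namespace Pool.Agent.S12466

open Finset

/-- For each family `Φ` of fewer than `d` subsets of a set with at least `d * 2 ^ d` elements there
is a set of `d` elements on which every member of `Φ` is constant. -/
theorem exists_mono (d m : ℕ) (hm : d * 2 ^ d ≤ m) (Φ : Finset (Finset (Fin m)))
    (hΦ : Φ.card < d) :
    ∃ A : Finset (Fin m), d ≤ A.card ∧ ∀ ω ∈ Φ, (∀ h ∈ A, h ∈ ω) ∨ (∀ h ∈ A, h ∉ ω) := by
  classical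
  have hmaps : ∀ h ∈ (Finset.univ : Finset (Fin m)), Φ.filter (fun ω => h ∈ ω) ∈ Φ.powerset := by
    intro h _
    exact Finset.mem_powerset.2 (Finset.filter_subset _ _)
  have hcard : Φ.powerset.card * d ≤ (Finset.univ : Finset (Fin m)).card := by
    rw [Finset.card_powerset, Finset.card_univ, Fintype.card_fin]
    calc 2 ^ Φ.card * d ≤ 2 ^ d * d := by
          exact Nat.mul_le_mul_right _ (Nat.pow_le_pow_right (by norm_num) hΦ.le)
      _ = d * 2 ^ d := Nat.mul_comm _ _
      _ ≤ m := hm
  have hne : Φ.powerset.Nonempty := ⟨∅, Finset.empty_mem_powerset _⟩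
  obtain ⟨P, _, hP⟩ := Finset.exists_le_card_fiber_of_mul_le_card_of_maps_to hmaps hne hcard
  refine ⟨_, hP, ?_⟩
  intro ω hω
  by_cases hωP : ω ∈ P
  · left
    intro h hh
    have h1 := (Finset.mem_filter.1 hh).2
    rw [← h1] at hωP
    exact (Finset.mem_filter.1 hωP).2
  · right
    intro h hh hmem
    have h1 := (Finset.mem_filter.1 hh).2
    apply hωP
    rw [← h1]
    exact Finset.mem_filter.2 ⟨hω, hmem⟩

/-- The negation of the preceding statement: There is f such that for every k ≥ 1, every finite nonempty loopless digraph with minimum out-degree ≥ f(k) has a proper vertex subset X, with every vertex outside X having an out-neighbour in X, such that the digraph with X deleted has minimum out-degree ≥ k. -/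
theorem result :
    ¬ (∃ f : ℕ → ℕ, ∀ k : ℕ, 1 ≤ k →
      ∀ (V : Type) [Fintype V] [Nonempty V] (D : Digraph V),
        (∀ v, ¬ D.Adj v v) →
        (∀ v, f k ≤ {w : V | D.Adj v w}.ncard) →
        ∃ X : Set V, X ≠ Set.univ ∧
          (∀ y, y ∉ X → ∃ x ∈ X, D.Adj y x) ∧
          (∀ v, v ∉ X → k ≤ {w : V | w ∉ X ∧ D.Adj v w}.ncard)) := by
  classical
  rintro ⟨f, hf⟩
  -- the required out-degree
  obtain ⟨d, hd1, hd2⟩ : ∃ d : ℕ, f 2 ≤ d ∧ 1 ≤ d := ⟨f 2 + 1, by omega, by omega⟩
  obtain ⟨m, hm⟩ : ∃ m : ℕ, m = d * 2 ^ d := ⟨_, rfl⟩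
  have hA : ∀ Φ : Finset (Finset (Fin m)), ∃ A : Finset (Fin m), Φ.card < d →
      d ≤ A.card ∧ ∀ ω ∈ Φ, (∀ h ∈ A, h ∈ ω) ∨ (∀ h ∈ A, h ∉ ω) := by
    intro Φ
    by_cases hΦ : Φ.card < d
    · obtain ⟨A, hA⟩ := exists_mono d m hm.ge Φ hΦ
      exact ⟨A, fun _ => hA⟩
    · exact ⟨∅, fun h => absurd h hΦ⟩
  choose A hA using hA
  let adj : (Fin m ⊕ Finset (Finset (Fin m))) → (Fin m ⊕ Finset (Finset (Fin m))) → Prop :=
    fun a b => match a, b with
      | Sum.inl _, Sum.inl _ => False
      | Sum.inl _, Sum.inr Ψ => ∃ ω, Ψ = Finset.univ.erase ω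
      | Sum.inr Φ, Sum.inr Ψ => d ≤ Φ.card ∧ ∃ ω ∈ Φ, Ψ = Φ.erase ω
      | Sum.inr Φ, Sum.inl h => Φ.card < d ∧ h ∈ A Φ
  let D : Digraph (Fin m ⊕ Finset (Finset (Fin m))) := ⟨adj⟩
  have hD1 : ∀ h h', ¬ D.Adj (Sum.inl h) (Sum.inl h') := fun h h' hh => hh
  have hD2 : ∀ h Ψ, D.Adj (Sum.inl h) (Sum.inr Ψ) ↔ ∃ ω, Ψ = Finset.univ.erase ω :=
    fun h Ψ => Iff.rfl
  have hD3 : ∀ Φ Ψ, D.Adj (Sum.inr Φ) (Sum.inr Ψ) ↔ d ≤ Φ.card ∧ ∃ ω ∈ Φ, Ψ = Φ.erase ω :=
    fun Φ Ψ => Iff.rfl
  have hD4 : ∀ Φ h, D.Adj (Sum.inr Φ) (Sum.inl h) ↔ Φ.card < d ∧ h ∈ A Φ :=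
    fun Φ h => Iff.rfl
  have hcardΩ : d ≤ (Finset.univ : Finset (Finset (Fin m))).card := by
    rw [Finset.card_univ, Fintype.card_finset, Fintype.card_fin]
    have h1 : d ≤ m := by
      rw [hm]; exact Nat.le_mul_of_pos_right _ (by positivity)
    exact h1.trans (Nat.lt_two_pow_self).le
  obtain ⟨X, hX1, hX2, hX3⟩ := hf 2 (by norm_num) _ D
    (by
      intro v hv
      rcases v with h | Φ
      · exact hD1 h h hv
      · obtain ⟨_, ω, hω, h1⟩ := (hD3 Φ Φ).1 hv
        have := Finset.card_erase_lt_of_mem hω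
        rw [← h1] at this
        exact lt_irrefl _ this)
    (by
      intro v
      refine hd1.trans ?_
      rcases v with h | Φ
      · have h1 : ((Finset.univ : Finset (Finset (Fin m))).image
            (fun ω => (Sum.inr (Finset.univ.erase ω) : Fin m ⊕ Finset (Finset (Fin m))))).card
            = (Finset.univ : Finset (Finset (Fin m))).card := by
          apply Finset.card_image_of_injOn
          intro a _ b _ hab
          have h2 : (Finset.univ : Finset (Finset (Fin m))).erase a = Finset.univ.erase b :=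
            Sum.inr_injective hab
          by_contra hne
          have h3 : a ∈ (Finset.univ : Finset (Finset (Fin m))).erase b :=
            Finset.mem_erase.2 ⟨hne, Finset.mem_univ _⟩
          rw [← h2] at h3
          exact (Finset.mem_erase.1 h3).1 rfl
        have h4 : ((((Finset.univ : Finset (Finset (Fin m))).image
            (fun ω => (Sum.inr (Finset.univ.erase ω) : Fin m ⊕ Finset (Finset (Fin m))))) :
              Finset _) : Set (Fin m ⊕ Finset (Finset (Fin m)))) ⊆ {w | D.Adj (Sum.inl h) w} := by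
          intro w hw
          rw [Finset.mem_coe, Finset.mem_image] at hw
          obtain ⟨ω, _, rfl⟩ := hw
          exact (hD2 h _).2 ⟨ω, rfl⟩
        have h5 := Set.ncard_le_ncard h4 (Set.toFinite _)
        rw [Set.ncard_coe_finset, h1] at h5
        exact hcardΩ.trans h5
      · by_cases hΦ : Φ.card < d
        · have h1 : ((A Φ).image
              (fun h => (Sum.inl h : Fin m ⊕ Finset (Finset (Fin m))))).card = (A Φ).card := by
            apply Finset.card_image_of_injOn
            intro a _ b _ hab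
            exact Sum.inl_injective hab
          have h4 : ((((A Φ).image
              (fun h => (Sum.inl h : Fin m ⊕ Finset (Finset (Fin m))))) :
                Finset _) : Set (Fin m ⊕ Finset (Finset (Fin m)))) ⊆
                {w | D.Adj (Sum.inr Φ) w} := by
            intro w hw
            rw [Finset.mem_coe, Finset.mem_image] at hw
            obtain ⟨h, hh, rfl⟩ := hw
            exact (hD4 Φ h).2 ⟨hΦ, hh⟩
          have h5 := Set.ncard_le_ncard h4 (Set.toFinite _)
          rw [Set.ncard_coe_finset, h1] at h5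
          exact (hA Φ hΦ).1.trans h5
        · have hΦ' : d ≤ Φ.card := not_lt.1 hΦ
          have h1 : (Φ.image
              (fun ω => (Sum.inr (Φ.erase ω) : Fin m ⊕ Finset (Finset (Fin m))))).card
              = Φ.card := by
            apply Finset.card_image_of_injOn
            intro a ha b hb hab
            have h2 : Φ.erase a = Φ.erase b := Sum.inr_injective hab
            by_contra hne
            have h3 : a ∈ Φ.erase b := Finset.mem_erase.2 ⟨hne, ha⟩
            rw [← h2] at h3
            exact (Finset.mem_erase.1 h3).1 rfl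
          have h4 : (((Φ.image
              (fun ω => (Sum.inr (Φ.erase ω) : Fin m ⊕ Finset (Finset (Fin m))))) :
                Finset _) : Set (Fin m ⊕ Finset (Finset (Fin m)))) ⊆
                {w | D.Adj (Sum.inr Φ) w} := by
            intro w hw
            rw [Finset.mem_coe, Finset.mem_image] at hw
            obtain ⟨ω, hω, rfl⟩ := hw
            exact (hD3 Φ _).2 ⟨hΦ', ω, hω, rfl⟩
          have h5 := Set.ncard_le_ncard h4 (Set.toFinite _)
          rw [Set.ncard_coe_finset, h1] at h5
          exact hΦ'.trans h5)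
  -- two distinct surviving out-neighbours of every vertex outside `X`
  have htwo : ∀ v, v ∉ X → ∃ a b, a ≠ b ∧ a ∉ X ∧ b ∉ X ∧ D.Adj v a ∧ D.Adj v b := by
    intro v hv
    have h1 := hX3 v hv
    have h2 : 1 < {w | w ∉ X ∧ D.Adj v w}.ncard := by omega
    obtain ⟨a, ha, b, hb, hab⟩ := (Set.one_lt_ncard (Set.toFinite _)).1 h2
    exact ⟨a, b, hab, ha.1, hb.1, ha.2, hb.2⟩
  -- the trace of the complement of `X` on the hubs
  obtain ⟨ω₀, hω₀⟩ : ∃ ω₀ : Finset (Fin m), ∀ h, h ∈ ω₀ ↔ Sum.inl h ∉ X :=
    ⟨Finset.univ.filter (fun h => Sum.inl h ∉ X), fun h => by simp⟩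
  have key : ∀ n : ℕ, ∀ Φ : Finset (Finset (Fin m)), Φ.card = n → ω₀ ∈ Φ → Sum.inr Φ ∈ X := by
    intro n
    induction n with
    | zero =>
      intro Φ hΦ hmem
      rw [Finset.card_eq_zero] at hΦ
      rw [hΦ] at hmem
      exact absurd hmem (Finset.notMem_empty _)
    | succ n ih =>
      intro Φ hΦ hmem
      by_contra hnot
      by_cases hlt : Φ.card < d
      · rcases (hA Φ hlt).2 ω₀ hmem with hin | hout
        · obtain ⟨x, hxX, hadj⟩ := hX2 _ hnot
          rcases x with h | Ψ
          · have h1 := ((hD4 Φ h).1 hadj).2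
            exact (hω₀ h).1 (hin h h1) hxX
          · have h1 := ((hD3 Φ Ψ).1 hadj).1
            omega
        · obtain ⟨a, b, hab, haX, hbX, haadj, hbadj⟩ := htwo _ hnot
          rcases a with h | Ψ
          · have h1 := ((hD4 Φ h).1 haadj).2
            exact hout h h1 ((hω₀ h).2 haX)
          · have h1 := ((hD3 Φ Ψ).1 haadj).1
            omega
      · have hge : d ≤ Φ.card := not_lt.1 hlt
        have huniq : ∀ a, a ∉ X → D.Adj (Sum.inr Φ) a → a = Sum.inr (Φ.erase ω₀) := by
          intro a haX hadj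
          rcases a with h | Ψ
          · exact absurd ((hD4 Φ h).1 hadj).1 hlt
          · obtain ⟨_, ω, hω, rfl⟩ := (hD3 Φ Ψ).1 hadj
            by_cases hωω : ω = ω₀
            · rw [hωω]
            · exfalso
              apply haX
              apply ih
              · rw [Finset.card_erase_of_mem hω, hΦ]; rfl
              · exact Finset.mem_erase.2 ⟨fun h => hωω h.symm, hmem⟩
        obtain ⟨a, b, hab, haX, hbX, haadj, hbadj⟩ := htwo _ hnot
        exact hab ((huniq a haX haadj).trans (huniq b hbX hbadj).symm)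
  -- all hubs are in `X`
  have hhub : ∀ h, Sum.inl h ∈ X := by
    intro h
    by_contra hnot
    have huniq : ∀ a, a ∉ X → D.Adj (Sum.inl h) a → a = Sum.inr (Finset.univ.erase ω₀) := by
      intro a haX hadj
      rcases a with h' | Ψ
      · exact absurd hadj (hD1 h h')
      · obtain ⟨ω, rfl⟩ := (hD2 h Ψ).1 hadj
        by_cases hωω : ω = ω₀
        · rw [hωω]
        · exfalso
          apply haX
          apply key _ _ rfl
          exact Finset.mem_erase.2 ⟨fun h => hωω h.symm, Finset.mem_univ _⟩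
    obtain ⟨a, b, hab, haX, hbX, haadj, hbadj⟩ := htwo _ hnot
    exact hab ((huniq a haX haadj).trans (huniq b hbX hbadj).symm)
  -- all nodes are in `X`
  have hnode : ∀ n : ℕ, ∀ Φ : Finset (Finset (Fin m)), Φ.card = n → Sum.inr Φ ∈ X := by
    intro n
    induction n with
    | zero =>
      intro Φ hΦ
      by_contra hnot
      obtain ⟨a, b, hab, haX, hbX, haadj, hbadj⟩ := htwo _ hnot
      rcases a with h | Ψ
      · exact haX (hhub h)
      · have h1 := ((hD3 Φ Ψ).1 haadj).1
        omega
    | succ n ih =>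
      intro Φ hΦ
      by_contra hnot
      obtain ⟨a, b, hab, haX, hbX, haadj, hbadj⟩ := htwo _ hnot
      rcases a with h | Ψ
      · exact haX (hhub h)
      · obtain ⟨_, ω, hω, rfl⟩ := (hD3 Φ Ψ).1 haadj
        apply haX
        apply ih
        rw [Finset.card_erase_of_mem hω, hΦ]; rfl
  apply hX1
  ext v
  simp only [Set.mem_univ, iff_true]
  rcases v with h | Φ
  · exact hhub h
  · exact hnode _ Φ rfl

end Pool.Agent.S12466
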