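import Pool.Statements.S12499
import Pool.Agent.H972R4.PlanarTuran.Main

set_option autoImplicit false
open Pool Pool.MP_f90287_co

namespace Pool.Agent.S12499

/-- There is N such that for every ω ≥ N and every finite graph with clique number ω and planar vectors nonnegatively correlated on edges, the sum over edges of squared inner products is at most (1−1/ω)/2 times the sum of squared inner products over all ordered vertex pairs. -/
theorem result :
    ∃ N : ℕ, ∀ ω : ℕ, N ≤ ω →
      ∀ (V : Type) [Fintype V] (G : SimpleGraph V) [DecidableRel G.Adj],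
        G.CliqueFree (ω + 1) →
        (∃ s : Finset V, G.IsNClique ω s) →
        ∀ v : V → ℝ × ℝ,
          (∀ i j, G.Adj i j → 0 ≤ (v i).1 * (v j).1 + (v i).2 * (v j).2) →
          (∑ i, ∑ j, if G.Adj i j then ((v i).1 * (v j).1 + (v i).2 * (v j).2) ^ 2 else 0)
            ≤ (1 - 1 / (ω : ℝ)) * ∑ i, ∑ j, ((v i).1 * (v j).1 + (v i).2 * (v j).2) ^ 2 := by
  refine ⟨2, fun ω hω V _ G _ hG _ v hv => ?_⟩
  classical
  have h := Pool.Agent.H972R4.PlanarTuran.main G ω hω hG v
  refine le_trans (le_of_eq ?_) h
  refine Finset.sum_congr rfl fun i _ => Finset.sum_congr rfl fun j _ => ?_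
  by_cases hij : G.Adj i j
  · rw [if_pos hij, if_pos hij, max_eq_right (hv i j hij)]
  · rw [if_neg hij, if_neg hij]

end Pool.Agent.S12499
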