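import Pool.Statements.S12504

set_option autoImplicit false
open Pool Pool.MP_f90e5e_co

namespace Pool.Agent.S12504

/-- The three colour involutions on two disjoint copies of the necklace of two diamonds. -/
def f1 : Fin 16 → Fin 16 := ![1, 0, 3, 2, 5, 4, 7, 6, 9, 8, 11, 10, 13, 12, 15, 14]
def f2 : Fin 16 → Fin 16 := ![2, 3, 0, 1, 6, 7, 4, 5, 10, 11, 8, 9, 14, 15, 12, 13]
def f3 : Fin 16 → Fin 16 := ![7, 2, 1, 4, 3, 6, 5, 0, 15, 10, 9, 12, 11, 14, 13, 8]

lemma inv1 : ∀ x, f1 (f1 x) = x := by decide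
lemma inv2 : ∀ x, f2 (f2 x) = x := by decide
lemma inv3 : ∀ x, f3 (f3 x) = x := by decide
lemma ne1 : ∀ x, f1 x ≠ x := by decide
lemma ne2 : ∀ x, f2 x ≠ x := by decide
lemma ne3 : ∀ x, f3 x ≠ x := by decide

/-- The perfect matching of the complete graph given by a fixed point free involution. -/
def mk (f : Fin 16 → Fin 16) (hi : ∀ x, f (f x) = x) (hn : ∀ x, f x ≠ x) :
    (⊤ : SimpleGraph (Fin 16)).Subgraph where
  verts := Set.univ
  Adj x y := f x = y
  adj_sub := by
    intro x y h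
    simp only [SimpleGraph.top_adj]
    intro hxy
    exact hn x (h.trans hxy.symm)
  edge_vert := by intro x y _; trivial
  symm := by
    constructor
    intro x y h
    rw [← h, hi]

lemma mk_perfect (f : Fin 16 → Fin 16) (hi : ∀ x, f (f x) = x) (hn : ∀ x, f x ≠ x) :
    (mk f hi hn).IsPerfectMatching := by
  refine ⟨?_, ?_⟩
  · intro v _
    refine ⟨f v, rfl, fun y hy => ?_⟩
    exact Eq.symm (show f v = y from hy)
  · intro v
    trivial

lemma mk_mem (f : Fin 16 → Fin 16) (hi : ∀ x, f (f x) = x) (hn : ∀ x, f x ≠ x) (x y : Fin 16) :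
    s(x, y) ∈ (mk f hi hn).edgeSet ↔ f x = y := Iff.rfl

lemma mk_disj (f g : Fin 16 → Fin 16) (hi : ∀ x, f (f x) = x) (hn : ∀ x, f x ≠ x)
    (hi' : ∀ x, g (g x) = x) (hn' : ∀ x, g x ≠ x) (h : ∀ x, f x ≠ g x) :
    Disjoint (mk f hi hn).edgeSet (mk g hi' hn').edgeSet := by
  rw [Set.disjoint_left]
  intro e
  induction e with
  | _ x y =>
    intro h1 h2
    rw [mk_mem] at h1 h2
    exact h x (h1.trans h2.symm)

def G : SimpleGraph (Fin 16) where
  Adj x y := f1 x = y ∨ f2 x = y ∨ f3 x = y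
  symm := by
    constructor
    intro x y h
    rcases h with h | h | h
    · left; rw [← h, inv1]
    · right; left; rw [← h, inv2]
    · right; right; rw [← h, inv3]
  loopless := by
    constructor
    intro x h
    rcases h with h | h | h
    · exact ne1 x h
    · exact ne2 x h
    · exact ne3 x h

lemma comp (p01 p23 p45 p67 q02 q13 q46 q57 r12 r34 r56 r70 : ℕ)
    (h0 : p01 + q02 + r70 ≤ 1) (h1 : p01 + q13 + r12 ≤ 1) (h2 : p23 + q02 + r12 ≤ 1)
    (h3 : p23 + q13 + r34 ≤ 1) (h4 : p45 + q46 + r34 ≤ 1) (h5 : p45 + q57 + r56 ≤ 1)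
    (h6 : p67 + q46 + r56 ≤ 1) (h7 : p67 + q57 + r70 ≤ 1) :
    (p01 + p23 + p45 + p67) + (q02 + q13 + q46 + q57) + (r12 + r34 + r56 + r70) ≤ 4 ∧
    ((p01 + p23 + p45 + p67) + (q02 + q13 + q46 + q57) + (r12 + r34 + r56 + r70) = 4 →
      r12 + r34 + r56 + r70 = 4 ∨ (r12 + r34 + r56 + r70 = 0 ∧ p01 + p23 + p45 + p67 ≠ 1)) := by
  omega

lemma ncard_eq (f : Fin 16 → Fin 16) (hi : ∀ x, f (f x) = x) (hn : ∀ x, f x ≠ x)
    (S : Set (Sym2 (Fin 16))) (R : Finset (Fin 16)) (hR : ∀ x, x ∈ R ∨ f x ∈ R)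
    (hR' : ∀ x ∈ R, f x ∉ R) [DecidablePred (· ∈ S)] :
    (S ∩ (mk f hi hn).edgeSet).ncard = ∑ z ∈ R, (if s(z, f z) ∈ S then 1 else 0) := by
  have h1 : S ∩ (mk f hi hn).edgeSet = ↑((R.filter (fun z => s(z, f z) ∈ S)).image
      (fun z => s(z, f z))) := by
    ext e
    induction e with
    | _ x y =>
      simp only [Set.mem_inter_iff, mk_mem, Finset.coe_image, Finset.coe_filter, Set.mem_image,
        Set.mem_ofPred_eq]
      constructor
      · rintro ⟨hS, hf⟩
        rcases hR x with h | h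
        · exact ⟨x, ⟨h, by rw [hf]; exact hS⟩, by rw [hf]⟩
        · refine ⟨y, ⟨by rw [← hf]; exact h, ?_⟩, ?_⟩
          · rw [← hf, hi, Sym2.eq_swap, hf]; exact hS
          · rw [← hf, hi, Sym2.eq_swap]
      · rintro ⟨z, ⟨_, hS⟩, hz⟩
        rw [hz] at hS
        refine ⟨hS, ?_⟩
        rw [Sym2.eq_iff] at hz
        rcases hz with ⟨rfl, h⟩ | ⟨rfl, h⟩
        · exact h
        · rw [← h, hi]
  rw [h1, Set.ncard_coe_finset, Finset.card_image_of_injOn, Finset.card_filter]
  intro x hx y hy hxy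
  simp only [Finset.coe_filter, Set.mem_ofPred_eq] at hx hy
  simp only [Sym2.eq_iff] at hxy
  rcases hxy with ⟨h, _⟩ | ⟨h, _⟩
  · exact h
  · exact absurd (h ▸ hx.1) (hR' y hy.1)

theorem result :
    ¬ (∀ (V : Type) [Fintype V] (n : ℕ), Fintype.card V = 2 * n →
    ∀ (M₁ M₂ M₃ : (⊤ : SimpleGraph V).Subgraph),
      M₁.IsPerfectMatching → M₂.IsPerfectMatching → M₃.IsPerfectMatching →
      Disjoint M₁.edgeSet M₂.edgeSet → Disjoint M₁.edgeSet M₃.edgeSet →
      Disjoint M₂.edgeSet M₃.edgeSet →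
      ∀ G : SimpleGraph V, G.edgeSet = M₁.edgeSet ∪ M₂.edgeSet ∪ M₃.edgeSet →
      (∃ c : G.ConnectedComponent,
        IsEmpty (G.induce c.supp ≃g (⊤ : SimpleGraph (Fin 4)))) →
      ∀ a₁ a₂ a₃ : ℕ, a₁ + a₂ + a₃ + 1 = n →
      ∃ M : G.Subgraph, M.IsMatching ∧
        (M.edgeSet ∩ M₁.edgeSet).ncard = a₁ ∧
        (M.edgeSet ∩ M₂.edgeSet).ncard = a₂ ∧
        (M.edgeSet ∩ M₃.edgeSet).ncard = a₃) := by
  intro H
  obtain ⟨M, hM, c1, c2, c3⟩ := H (Fin 16) 8 (by simp) (mk f1 inv1 ne1) (mk f2 inv2 ne2)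
    (mk f3 inv3 ne3) (mk_perfect _ _ _) (mk_perfect _ _ _) (mk_perfect _ _ _)
    (mk_disj _ _ _ _ _ _ (by decide)) (mk_disj _ _ _ _ _ _ (by decide))
    (mk_disj _ _ _ _ _ _ (by decide)) G (by
      ext e
      induction e with
      | _ x y =>
        simp only [Set.mem_union, mk_mem, SimpleGraph.mem_edgeSet]
        constructor
        · rintro (h | h | h)
          · exact Or.inl (Or.inl h)
          · exact Or.inl (Or.inr h)
          · exact Or.inr h
        · rintro ((h | h) | h)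
          · exact Or.inl h
          · exact Or.inr (Or.inl h)
          · exact Or.inr (Or.inr h))
    ⟨G.connectedComponentMk 0, ⟨fun φ => by
      have a01 : G.Adj 0 1 := Or.inl (by decide)
      have a02 : G.Adj 0 2 := Or.inr (Or.inl (by decide))
      have a07 : G.Adj 0 7 := Or.inr (Or.inr (by decide))
      have a13 : G.Adj 1 3 := Or.inr (Or.inl (by decide))
      have r : ∀ i : Fin 5, (![0, 1, 2, 3, 7] : Fin 5 → Fin 16) i ∈
          (G.connectedComponentMk 0).supp := by
        intro i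
        rw [SimpleGraph.ConnectedComponent.mem_supp_iff, SimpleGraph.ConnectedComponent.eq]
        fin_cases i
        · exact SimpleGraph.Reachable.refl _
        · exact a01.reachable.symm
        · exact a02.reachable.symm
        · exact (a01.reachable.trans a13.reachable).symm
        · exact a07.reachable.symm
      let g : Fin 5 → Fin 4 := fun i => φ ⟨_, r i⟩
      have hinj : ∀ i j : Fin 5, (![0, 1, 2, 3, 7] : Fin 5 → Fin 16) i =
          (![0, 1, 2, 3, 7] : Fin 5 → Fin 16) j → i = j := by decide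
      have hg : Function.Injective g := by
        intro i j hij
        have := φ.injective hij
        simp only [Subtype.mk.injEq] at this
        exact hinj i j this
      have := Fintype.card_le_of_injective g hg
      simp at this⟩⟩ 1 3 3 (by norm_num)
  classical
  have key : ∀ v x y : Fin 16, M.Adj v x → M.Adj v y → x = y := by
    intro v x y hx hy
    obtain ⟨w, _, hw⟩ := hM (M.edge_vert hx)
    rw [hw x hx, hw y hy]
  rw [ncard_eq f1 inv1 ne1 _ {0, 2, 4, 6, 8, 10, 12, 14} (by decide) (by decide)] at c1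
  rw [ncard_eq f2 inv2 ne2 _ {0, 1, 4, 5, 8, 9, 12, 13} (by decide) (by decide)] at c2
  rw [ncard_eq f3 inv3 ne3 _ {1, 3, 5, 7, 9, 11, 13, 15} (by decide) (by decide)] at c3
  rw [Finset.sum_insert (by decide), Finset.sum_insert (by decide), Finset.sum_insert (by decide),
    Finset.sum_insert (by decide), Finset.sum_insert (by decide), Finset.sum_insert (by decide),
    Finset.sum_insert (by decide), Finset.sum_singleton] at c1 c2 c3
  simp only [SimpleGraph.Subgraph.mem_edgeSet] at c1 c2 c3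
  change (if M.Adj 0 1 then 1 else 0) + ((if M.Adj 2 3 then 1 else 0) +
    ((if M.Adj 4 5 then 1 else 0) + ((if M.Adj 6 7 then 1 else 0) +
    ((if M.Adj 8 9 then 1 else 0) + ((if M.Adj 10 11 then 1 else 0) +
    ((if M.Adj 12 13 then 1 else 0) + (if M.Adj 14 15 then 1 else 0))))))) = 1 at c1
  change (if M.Adj 0 2 then 1 else 0) + ((if M.Adj 1 3 then 1 else 0) +
    ((if M.Adj 4 6 then 1 else 0) + ((if M.Adj 5 7 then 1 else 0) +
    ((if M.Adj 8 10 then 1 else 0) + ((if M.Adj 9 11 then 1 else 0) +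
    ((if M.Adj 12 14 then 1 else 0) + (if M.Adj 13 15 then 1 else 0))))))) = 3 at c2
  change (if M.Adj 1 2 then 1 else 0) + ((if M.Adj 3 4 then 1 else 0) +
    ((if M.Adj 5 6 then 1 else 0) + ((if M.Adj 7 0 then 1 else 0) +
    ((if M.Adj 9 10 then 1 else 0) + ((if M.Adj 11 12 then 1 else 0) +
    ((if M.Adj 13 14 then 1 else 0) + (if M.Adj 15 8 then 1 else 0))))))) = 3 at c3
  have am : ∀ v x y z : Fin 16, x ≠ y → x ≠ z → y ≠ z →
      (if M.Adj v x then 1 else 0) + (if M.Adj v y then 1 else 0) +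
        (if M.Adj v z then 1 else 0) ≤ 1 := by
    intro v x y z hxy hxz hyz
    by_cases h1 : M.Adj v x
    · have h2 : ¬ M.Adj v y := fun h => hxy (key v x y h1 h)
      have h3 : ¬ M.Adj v z := fun h => hxz (key v x z h1 h)
      simp [h1, h2, h3]
    · by_cases h2 : M.Adj v y
      · have h3 : ¬ M.Adj v z := fun h => hyz (key v y z h2 h)
        simp [h1, h2, h3]
      · simp only [h1, h2, if_false]
        split_ifs <;> omega
  have sy : ∀ x y : Fin 16, (if M.Adj x y then 1 else 0) = (if M.Adj y x then 1 else (0 : ℕ)) := by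
    intro x y
    simp only [M.adj_comm x y]
  have k0 := am 0 1 2 7 (by decide) (by decide) (by decide)
  have k1 := am 1 0 3 2 (by decide) (by decide) (by decide)
  have k2 := am 2 3 0 1 (by decide) (by decide) (by decide)
  have k3 := am 3 2 1 4 (by decide) (by decide) (by decide)
  have k4 := am 4 5 6 3 (by decide) (by decide) (by decide)
  have k5 := am 5 4 7 6 (by decide) (by decide) (by decide)
  have k6 := am 6 7 4 5 (by decide) (by decide) (by decide)
  have k7 := am 7 6 5 0 (by decide) (by decide) (by decide)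
  have l0 := am 8 9 10 15 (by decide) (by decide) (by decide)
  have l1 := am 9 8 11 10 (by decide) (by decide) (by decide)
  have l2 := am 10 11 8 9 (by decide) (by decide) (by decide)
  have l3 := am 11 10 9 12 (by decide) (by decide) (by decide)
  have l4 := am 12 13 14 11 (by decide) (by decide) (by decide)
  have l5 := am 13 12 15 14 (by decide) (by decide) (by decide)
  have l6 := am 14 15 12 13 (by decide) (by decide) (by decide)
  have l7 := am 15 14 13 8 (by decide) (by decide) (by decide)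
  rw [sy 0 7] at k0
  rw [sy 1 0] at k1
  rw [sy 2 0, sy 2 1] at k2
  rw [sy 3 2, sy 3 1] at k3
  rw [sy 4 3] at k4
  rw [sy 5 4] at k5
  rw [sy 6 4, sy 6 5] at k6
  rw [sy 7 6, sy 7 5] at k7
  rw [sy 8 15] at l0
  rw [sy 9 8] at l1
  rw [sy 10 8, sy 10 9] at l2
  rw [sy 11 10, sy 11 9] at l3
  rw [sy 12 11] at l4
  rw [sy 13 12] at l5
  rw [sy 14 12, sy 14 13] at l6
  rw [sy 15 14, sy 15 13] at l7
  have A := comp _ _ _ _ _ _ _ _ _ _ _ _ k0 k1 k2 k3 k4 k5 k6 k7
  have B := comp _ _ _ _ _ _ _ _ _ _ _ _ l0 l1 l2 l3 l4 l5 l6 l7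
  clear k0 k1 k2 k3 k4 k5 k6 k7 l0 l1 l2 l3 l4 l5 l6 l7 am sy key
  generalize (if M.Adj 0 1 then 1 else 0) = p0 at *
  generalize (if M.Adj 2 3 then 1 else 0) = p1 at *
  generalize (if M.Adj 4 5 then 1 else 0) = p2 at *
  generalize (if M.Adj 6 7 then 1 else 0) = p3 at *
  generalize (if M.Adj 8 9 then 1 else 0) = p4 at *
  generalize (if M.Adj 10 11 then 1 else 0) = p5 at *
  generalize (if M.Adj 12 13 then 1 else 0) = p6 at *
  generalize (if M.Adj 14 15 then 1 else 0) = p7 at *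
  generalize (if M.Adj 0 2 then 1 else 0) = q0 at *
  generalize (if M.Adj 1 3 then 1 else 0) = q1 at *
  generalize (if M.Adj 4 6 then 1 else 0) = q2 at *
  generalize (if M.Adj 5 7 then 1 else 0) = q3 at *
  generalize (if M.Adj 8 10 then 1 else 0) = q4 at *
  generalize (if M.Adj 9 11 then 1 else 0) = q5 at *
  generalize (if M.Adj 12 14 then 1 else 0) = q6 at *
  generalize (if M.Adj 13 15 then 1 else 0) = q7 at *
  generalize (if M.Adj 1 2 then 1 else 0) = r0 at *
  generalize (if M.Adj 3 4 then 1 else 0) = r1 at *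
  generalize (if M.Adj 5 6 then 1 else 0) = r2 at *
  generalize (if M.Adj 7 0 then 1 else 0) = r3 at *
  generalize (if M.Adj 9 10 then 1 else 0) = r4 at *
  generalize (if M.Adj 11 12 then 1 else 0) = r5 at *
  generalize (if M.Adj 13 14 then 1 else 0) = r6 at *
  generalize (if M.Adj 15 8 then 1 else 0) = r7 at *
  obtain ⟨A1, A2⟩ := A
  obtain ⟨B1, B2⟩ := B
  omega

end Pool.Agent.S12504
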