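import Pool.Statements.S12532
import Pool.Agent.H434R3.Luneburg

set_option autoImplicit false
open Pool Pool.MP_fa71e0_co

namespace Pool.Agent.S12532

open Configuration Pool.Agent.H434R3.TransPlane Pool.Agent.H434R3.Luneburg

/-- The stabiliser of the origin in the full collineation group, acting on the dual plane. -/
def stab {V ι : Type} [AddCommGroup V] (W : ι → AddSubgroup V) :
    Subgroup (Equiv.Perm (Ln W) × Equiv.Perm (Pt V ι)) where
  carrier := {g | (∀ (l : Ln W) (p : Pt V ι), p ∈ l ↔ g.2 p ∈ g.1 l) ∧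
    g.2 (aff 0 : Pt V ι) = (aff 0 : Pt V ι)}
  mul_mem' := by
    rintro ⟨a, b⟩ ⟨c, d⟩ ⟨h1, h2⟩ ⟨h3, h4⟩
    refine ⟨fun l p => ?_, ?_⟩
    · exact (h3 l p).trans (h1 (c l) (d p))
    · show b (d _) = _
      exact (congrArg b h4).trans h2
  one_mem' := ⟨fun _ _ => Iff.rfl, rfl⟩
  inv_mem' := by
    rintro ⟨a, b⟩ ⟨h1, h2⟩
    refine ⟨fun l p => ?_, ?_⟩
    · have := h1 (a.symm l) (b.symm p)
      simp only [Equiv.apply_symm_apply] at this
      exact this.symm
    · show b.symm _ = _
      rw [Equiv.symm_apply_eq]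
      exact h2.symm

/-- Incidence of the dual plane. -/
@[reducible] def dualMem {V ι : Type} [AddCommGroup V] (W : ι → AddSubgroup V) :
    Membership (Ln W) (Pt V ι) := instMembershipDual (Pt V ι) (Ln W)

/-- The dual of the translation plane. -/
@[reducible] noncomputable def dualPlane {V ι : Type} [AddCommGroup V] {W : ι → AddSubgroup V}
    (hW : IsSpread W) : @ProjectivePlane (Ln W) (Pt V ι) (dualMem W) :=
  @ProjectivePlane.instDual (Pt V ι) (Ln W) _ (plane hW)

section

variable {F : Type} [Field F] [CharP F 2] [Fintype F]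

/-- A line through the origin is the component of its slope. -/
lemma through_zero {V ι : Type} [AddCommGroup V] {W : ι → AddSubgroup V} (l : Ln W)
    (h : (aff 0 : Pt V ι) ∈ l) : ∃ i, l = line W i 0 := by
  rcases ln_cases l with ⟨i, v, rfl⟩ | rfl
  · refine ⟨i, ?_⟩
    rw [aff_mem_line] at h
    rw [eq_comm, line_eq_iff]
    exact h
  · exact absurd h aff_not_mem_linf

/-- The main computation: in the Lüneburg plane of order 64 no collineation fixes all lines through
the origin and all points of the line `x = 0` and moves the line at infinity to the line through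
`(1, 0)` parallel to `x = 0`. -/
lemma no_elation (h8 : ∀ x : F, x ^ 8 = x) (γ : F) (hγ0 : γ ≠ 0) (hγ1 : γ ≠ 1)
    (α : Equiv.Perm (Ln (comp (F := F)))) (β : Equiv.Perm (Pt (Vec F) (Option (F × F))))
    (hinc : ∀ (l : Ln (comp (F := F))) (p : Pt (Vec F) (Option (F × F))), p ∈ l ↔ β p ∈ α l)
    (h1 : ∀ l : Ln (comp (F := F)), (aff 0 : Pt (Vec F) (Option (F × F))) ∈ l → α l = l)
    (h2 : ∀ p : Pt (Vec F) (Option (F × F)), p ∈ line (comp (F := F)) none 0 → β p = p)
    (h3 : α (linf (comp (F := F))) = line (comp (F := F)) none (0, 0, 1, 0)) : False := by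
  have two := two0 (F := F)
  have hS := spread h8
  -- images of the points at infinity
  have hinf : ∀ a c : F, β (inf (some (a, c))) = aff (c, a ^ 4, 1, 0) := by
    intro a c
    have e1 : (inf (some (a, c)) : Pt (Vec F) (Option (F × F))) ∈
        line (comp (F := F)) (some (a, c)) 0 := rfl
    have e2 : (inf (some (a, c)) : Pt (Vec F) (Option (F × F))) ∈ linf (comp (F := F)) := trivial
    have e3 := (hinc _ _).1 e1
    have e4 := (hinc _ _).1 e2
    rw [h1 _ (by rw [aff_mem_line]; simp)] at e3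
    rw [h3] at e4
    rcases pt_cases (β (inf (some (a, c)))) with ⟨⟨y1, y2, x1, x2⟩, h⟩ | ⟨k, h⟩
    · rw [h] at e3 e4 ⊢
      rw [aff_mem_line] at e3 e4
      have e3' : (-y1, -y2, -x1, -x2) ∈ comp (F := F) (some (a, c)) := by simpa using e3
      have e4' : (-y1 + 0, -y2 + 0, -x1 + 1, -x2 + 0) ∈ comp (F := F) none := e4
      rw [mem_some] at e3'
      rw [mem_none] at e4'
      obtain ⟨f1, f2⟩ := e4'
      have hx1 : x1 = 1 := by linear_combination -f1
      have hx2 : x2 = 0 := by linear_combination -f2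
      subst hx1
      subst hx2
      have g1 : y1 = c := by linear_combination -e3'.1
      have g2 : y2 = a ^ 4 := by linear_combination -e3'.2
      rw [g1, g2]
    · rw [h] at e3 e4
      rw [inf_mem_line] at e3 e4
      rw [← e3] at e4
      exact absurd e4 (by simp)
  have hax : ∀ b1 b2 : F, β (aff (b1, b2, 0, 0)) = aff (b1, b2, 0, 0) := by
    intro b1 b2
    apply h2
    rw [aff_mem_line]
    show (-b1 + 0, -b2 + 0, -(0 : F) + 0, -(0 : F) + 0) ∈ comp (F := F) none
    rw [mem_none]
    simp
  -- the lines through the point `A = (0, 0, 0, 1)` with slope `(0, c)`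
  have hline : ∀ c : F, α (line (comp (F := F)) (some (0, c)) (c ^ 4, c, 0, 0)) =
      line (comp (F := F)) (some (c ^ 2, c + c ^ 4)) (c ^ 4, c, 0, 0) := by
    intro c
    have e1 : (inf (some (0, c)) : Pt (Vec F) (Option (F × F))) ∈
        line (comp (F := F)) (some (0, c)) (c ^ 4, c, 0, 0) := rfl
    have e2 : (aff (c ^ 4, c, 0, 0) : Pt (Vec F) (Option (F × F))) ∈
        line (comp (F := F)) (some (0, c)) (c ^ 4, c, 0, 0) := by
      rw [aff_mem_line, neg_add_cancel]; exact zero_mem _
    have e3 := (hinc _ _).1 e1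
    have e4 := (hinc _ _).1 e2
    rw [hinf] at e3
    rw [hax] at e4
    have e5 : (aff (c ^ 4, c, 0, 0) : Pt (Vec F) (Option (F × F))) ∈
        line (comp (F := F)) (some (c ^ 2, c + c ^ 4)) (c ^ 4, c, 0, 0) := by
      rw [aff_mem_line, neg_add_cancel]; exact zero_mem _
    have e6 : (aff (c, 0 ^ 4, 1, 0) : Pt (Vec F) (Option (F × F))) ∈
        line (comp (F := F)) (some (c ^ 2, c + c ^ 4)) (c ^ 4, c, 0, 0) := by
      rw [aff_mem_line]
      show (-c + c ^ 4, -(0 ^ 4 : F) + c, -(1 : F) + 0, -(0 : F) + 0) ∈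
        comp (F := F) (some (c ^ 2, c + c ^ 4))
      rw [mem_some]
      have h8c := h8 c
      constructor
      · linear_combination c ^ 4 * two
      · linear_combination h8c + c * two
    rcases eq_or_eq' hS e3 e4 e6 e5 with h | h
    · rw [aff_inj] at h
      simp at h
    · exact h
  -- the image of the point `A`
  have hA0 : (aff (0, 0, 0, 1) : Pt (Vec F) (Option (F × F))) ∈
      line (comp (F := F)) (some (0, 0)) 0 := by
    rw [aff_mem_line]
    show (-(0 : F) + 0, -(0 : F) + 0, -(0 : F) + 0, -(1 : F) + 0) ∈ comp (F := F) (some (0, 0))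
    rw [mem_some]
    simp
  have hAc : ∀ c : F, (aff (0, 0, 0, 1) : Pt (Vec F) (Option (F × F))) ∈
      line (comp (F := F)) (some (0, c)) (c ^ 4, c, 0, 0) := by
    intro c
    rw [aff_mem_line]
    show (-(0 : F) + c ^ 4, -(0 : F) + c, -(0 : F) + 0, -(1 : F) + 0) ∈ comp (F := F) (some (0, c))
    rw [mem_some]
    constructor
    · linear_combination c ^ 4 * two
    · linear_combination c * two
  have k0 := (hinc _ _).1 hA0
  rw [h1 _ (by rw [aff_mem_line]; simp)] at k0
  have k1 := (hinc _ _).1 (hAc 1)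
  have k2 := (hinc _ _).1 (hAc γ)
  rw [hline] at k1 k2
  rcases pt_cases (β (aff (0, 0, 0, 1))) with ⟨⟨y1, y2, x1, x2⟩, h⟩ | ⟨k, h⟩
  · rw [h] at k0 k1 k2
    rw [aff_mem_line] at k0 k1 k2
    have k0' : (-y1, -y2, -x1, -x2) ∈ comp (F := F) (some (0, 0)) := by simpa using k0
    have k1' : (-y1 + 1 ^ 4, -y2 + 1, -x1 + 0, -x2 + 0) ∈
      comp (F := F) (some (1 ^ 2, 1 + 1 ^ 4)) := k1
    have k2' : (-y1 + γ ^ 4, -y2 + γ, -x1 + 0, -x2 + 0) ∈
      comp (F := F) (some (γ ^ 2, γ + γ ^ 4)) := k2
    rw [mem_some] at k0' k1' k2'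
    have hy1 : y1 = 0 := by linear_combination -k0'.1
    have hy2 : y2 = 0 := by linear_combination -k0'.2
    subst hy1
    subst hy2
    obtain ⟨a1, a2⟩ := k1'
    obtain ⟨b1, b2⟩ := k2'
    have h8γ := h8 γ
    have hx1 : x1 = 1 := by linear_combination a2 - (1 + x2) * two
    have hx2 : x2 = 1 := by
      linear_combination a1 - (1 + x1 + 8 * x2) * two
    subst hx1
    subst hx2
    -- second equation
    have e : γ ^ 4 = γ := by
      linear_combination b2 + (-1) * h8γ + (-2 * γ) * two
    have e7 : γ ^ 8 = γ ^ 2 := by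
      have : γ ^ 8 = (γ ^ 4) ^ 2 := by ring
      rw [this, e]
    have e8 : γ * (γ - 1) = 0 := by
      rw [h8γ] at e7
      linear_combination -e7
    rcases mul_eq_zero.1 e8 with h | h
    · exact hγ0 h
    · exact hγ1 (sub_eq_zero.1 h)
  · rw [h] at k0 k1
    rw [inf_mem_line] at k0 k1
    rw [← k0] at k1
    simp at k1

end

/-- The negation of the preceding statement: In a finite projective plane, if a collineation group fixes a line ℓ and is doubly transitive on its points, then for each c on ℓ, elations with centre c and axis ℓ move any point ≠ c of a line M ≠ ℓ through c to any other such point. -/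
theorem result :
    ¬ (∀ (P L : Type) [Membership P L] [Configuration.ProjectivePlane P L] [Finite P] [Finite L]
    (Γ : Subgroup (Equiv.Perm P × Equiv.Perm L)) (ℓ : L),
    (∀ g ∈ Γ, ∀ (p : P) (m : L), (p ∈ m ↔ g.1 p ∈ g.2 m)) →
    (∀ g ∈ Γ, g.2 ℓ = ℓ) →
    (∀ a b c d : P, a ∈ ℓ → b ∈ ℓ → c ∈ ℓ → d ∈ ℓ → a ≠ b → c ≠ d →
      ∃ g ∈ Γ, g.1 a = c ∧ g.1 b = d) →
    ∀ c : P, c ∈ ℓ → ∀ M : L, M ≠ ℓ → c ∈ M →
      ∀ x y : P, x ∈ M → y ∈ M → x ≠ c → y ≠ c →
        ∃ σ : Equiv.Perm P × Equiv.Perm L,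
          (∀ (p : P) (m : L), (p ∈ m ↔ σ.1 p ∈ σ.2 m)) ∧
          (∀ p : P, p ∈ ℓ → σ.1 p = p) ∧
          (∀ m : L, c ∈ m → σ.2 m = m) ∧
          σ.1 x = y) := by
  classical
  intro H
  have : Fintype (GaloisField 2 3) := Fintype.ofFinite _
  have hcard : Fintype.card (GaloisField 2 3) = 8 := by
    rw [← Nat.card_eq_fintype_card, GaloisField.card 2 3 (by norm_num)]
    norm_num
  have h8 : ∀ x : GaloisField 2 3, x ^ 8 = x := by
    intro x
    have := FiniteField.pow_card x
    rwa [hcard] at this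
  obtain ⟨γ, hγ⟩ : ∃ γ : GaloisField 2 3, γ ∉ ({0, 1} : Finset (GaloisField 2 3)) := by
    by_contra hcon
    push Not at hcon
    have : Finset.univ ⊆ ({0, 1} : Finset (GaloisField 2 3)) := fun x _ => hcon x
    have h2 := Finset.card_le_card this
    rw [Finset.card_univ, hcard] at h2
    have h3 : ({0, 1} : Finset (GaloisField 2 3)).card ≤ 2 := Finset.card_le_two
    omega
  have hγ0 : γ ≠ 0 := by rintro rfl; simp at hγ
  have hγ1 : γ ≠ 1 := by rintro rfl; simp at hγ
  have hS := spread h8
  have : Finite (Pt (Vec (GaloisField 2 3)) (Option (GaloisField 2 3 × GaloisField 2 3))) := by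
    unfold Pt; infer_instance
  have : Finite (Ln (comp (F := GaloisField 2 3))) := by
    unfold Ln; infer_instance
  obtain ⟨⟨α, β⟩, hinc, hfix, hax, hmove⟩ := @H (Ln (comp (F := GaloisField 2 3)))
    (Pt (Vec (GaloisField 2 3)) (Option (GaloisField 2 3 × GaloisField 2 3)))
    (dualMem _) (dualPlane hS) inferInstance inferInstance
    (stab (comp (F := GaloisField 2 3)))
    (aff 0 : Pt (Vec (GaloisField 2 3)) (Option (GaloisField 2 3 × GaloisField 2 3)))
    (fun g hg => hg.1) (fun g hg => hg.2)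
    (by
      intro a b c d ha hb hc hd hab hcd
      obtain ⟨i, rfl⟩ := through_zero a ha
      obtain ⟨j, rfl⟩ := through_zero b hb
      obtain ⟨k, rfl⟩ := through_zero c hc
      obtain ⟨l, rfl⟩ := through_zero d hd
      obtain ⟨g, π, hg, h1, h2⟩ := two_trans h8 i j k l (fun h => hab (by rw [h]))
        (fun h => hcd (by rw [h]))
      refine ⟨(collL hg, collP g π), ⟨fun l p => coll_inc hg p l, ?_⟩, ?_, ?_⟩
      · show collP g π (aff 0) = aff 0
        rw [collP_aff, map_zero]
      · show collL hg (line _ i 0) = _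
        rw [collL_line, h1, map_zero]
      · show collL hg (line _ j 0) = _
        rw [collL_line, h2, map_zero])
    (line (comp (F := GaloisField 2 3)) none 0)
    (by
      show (aff 0 : Pt (Vec (GaloisField 2 3)) (Option (GaloisField 2 3 × GaloisField 2 3))) ∈
        line (comp (F := GaloisField 2 3)) none 0
      rw [aff_mem_line]; simp)
    (inf none : Pt (Vec (GaloisField 2 3)) (Option (GaloisField 2 3 × GaloisField 2 3)))
    (fun h => aff_ne_inf h.symm)
    (by
      show (inf none : Pt (Vec (GaloisField 2 3)) (Option (GaloisField 2 3 × GaloisField 2 3))) ∈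
        line (comp (F := GaloisField 2 3)) none 0
      exact rfl)
    (linf (comp (F := GaloisField 2 3))) (line (comp (F := GaloisField 2 3)) none (0, 0, 1, 0))
    (by
      show (inf none : Pt (Vec (GaloisField 2 3)) (Option (GaloisField 2 3 × GaloisField 2 3))) ∈
        linf (comp (F := GaloisField 2 3))
      exact trivial)
    (by
      show (inf none : Pt (Vec (GaloisField 2 3)) (Option (GaloisField 2 3 × GaloisField 2 3))) ∈
        line (comp (F := GaloisField 2 3)) none (0, 0, 1, 0)
      exact rfl)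
    (fun h => line_ne_linf h.symm)
    (by
      intro h
      have h2 := line_eq_iff.1 h
      have h3 : (-(0 : GaloisField 2 3) + 0, -(0 : GaloisField 2 3) + 0,
        -(1 : GaloisField 2 3) + 0, -(0 : GaloisField 2 3) + 0) ∈
        comp (F := GaloisField 2 3) none := h2
      rw [mem_none] at h3
      simp at h3)
  exact no_elation h8 γ hγ0 hγ1 α β (fun l p => hinc l p) (fun l hl => hfix l hl)
    (fun p hp => hax p hp) hmove

end Pool.Agent.S12532
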