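import Pool.Statements.S12609
import Pool.Agent.H972R4.Fano.Main

set_option autoImplicit false
open Pool Pool.MP_fd57bd_co

namespace Pool.Agent.S12609

/-- For every n, every n-by-n matrix with entries 0 or 1 having at most 3n nonzero entries has determinant at most 24 raised to the power n/7. -/
theorem result :
    ∀ n : ℕ, ∀ A : Matrix (Fin n) (Fin n) ℤ,
      (∀ i j, A i j = 0 ∨ A i j = 1) →
      (Finset.univ.filter (fun p : Fin n × Fin n => A p.1 p.2 ≠ 0)).card ≤ 3 * n →
      ((A.det : ℤ) : ℝ) ≤ (24 : ℝ) ^ ((n : ℝ) / 7) := by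
  intro n A hA hc
  exact Pool.Agent.H972R4.Fano.fano_bound n A hA hc

end Pool.Agent.S12609
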