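import Pool.Statements.S12632
import Pool.Agent.H327R3.TeraoMain

set_option autoImplicit false
open Pool Pool.MP_feb289_co

namespace Pool.Agent.S12632

/-- The negation of the preceding statement: For any field K and any two central arrangements of distinct hyperplanes in K^l whose intersection lattices are order-isomorphic, if the module of logarithmic derivations of the first is free over K[x_1..x_l], so is that of the second. -/
theorem result :
    ¬ (∀ (K : Type) [Field K] (l n m : ℕ) (A : Matrix (Fin n) (Fin l) K)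
      (B : Matrix (Fin m) (Fin l) K),
      (∀ i j : Fin n, i ≠ j → ∀ c : K, A i ≠ c • A j) → (∀ i : Fin n, A i ≠ 0) →
      (∀ i j : Fin m, i ≠ j → ∀ c : K, B i ≠ c • B j) → (∀ i : Fin m, B i ≠ 0) →
      Nonempty
        (↥(Set.range (fun s : Finset (Fin n) =>
            ⨅ i ∈ s, LinearMap.ker ((LinearMap.proj i : (Fin n → K) →ₗ[K] K).comp
              (Matrix.mulVecLin A))))
          ≃o
         ↥(Set.range (fun s : Finset (Fin m) =>
            ⨅ i ∈ s, LinearMap.ker ((LinearMap.proj i : (Fin m → K) →ₗ[K] K).comp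
              (Matrix.mulVecLin B))))) →
      Module.Free (MvPolynomial (Fin l) K)
        ↥(Submodule.comap (Matrix.mulVecLin (A.map MvPolynomial.C))
          (Submodule.pi Set.univ (fun i : Fin n =>
            (Ideal.span {(Matrix.mulVec (A.map MvPolynomial.C)
                (fun j => (MvPolynomial.X j : MvPolynomial (Fin l) K))) i} :
              Submodule (MvPolynomial (Fin l) K) (MvPolynomial (Fin l) K))))) →
      Module.Free (MvPolynomial (Fin l) K)
        ↥(Submodule.comap (Matrix.mulVecLin (B.map MvPolynomial.C))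
          (Submodule.pi Set.univ (fun i : Fin m =>
            (Ideal.span {(Matrix.mulVec (B.map MvPolynomial.C)
                (fun j => (MvPolynomial.X j : MvPolynomial (Fin l) K))) i} :
              Submodule (MvPolynomial (Fin l) K) (MvPolynomial (Fin l) K)))))) := by
  intro H
  have : Fact (Nat.Prime 11) := ⟨by norm_num⟩
  have : CharP (AlgebraicClosure (ZMod 11)) 11 := inferInstance
  obtain ⟨i, hi⟩ := IsAlgClosed.exists_pow_nat_eq (-1 : AlgebraicClosure (ZMod 11)) (n := 2)
    (by norm_num)
  rw [sq] at hi
  refine Pool.Agent.H327R3.Terao.B_not_free i hi ?_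
  exact H (AlgebraicClosure (ZMod 11)) 3 27 27
    (Pool.Agent.H327R3.Terao.mat (Pool.Agent.H327R3.Terao.PA i))
    (Pool.Agent.H327R3.Terao.mat (Pool.Agent.H327R3.Terao.PB i))
    (fun a b hab c => Pool.Agent.H327R3.Terao.mat_ne_smul _
      (Pool.Agent.H327R3.Terao.PA_inj i hi) a b hab c)
    (fun a => Pool.Agent.H327R3.Terao.mat_ne_zero _ a)
    (fun a b hab c => Pool.Agent.H327R3.Terao.mat_ne_smul _
      (Pool.Agent.H327R3.Terao.PB_inj i hi) a b hab c)
    (fun a => Pool.Agent.H327R3.Terao.mat_ne_zero _ a)
    (Pool.Agent.H327R3.Terao.lattice_iso _ _ (Pool.Agent.H327R3.Terao.PA_inj i hi)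
      (Pool.Agent.H327R3.Terao.PB_inj i hi) (Pool.Agent.H327R3.Terao.det_same i hi))
    (Pool.Agent.H327R3.Terao.A_free i hi)

end Pool.Agent.S12632
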