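import Pool.Statements.S12636

set_option autoImplicit false
open Filter Topology
open Pool Pool.MP_fef54c_co

namespace Pool.Agent.S12636

/-- the counterexample: coin weighing with the weights `0`, `1`, `3` -/
def W : Matrix (Fin 3) (Fin 2) ℤ := !![0, 0; 0, 1; 0, 3]

/-- centred digit -/
def u (a : Fin 4) : ℤ := 2 * (a : ℤ) - 3

/-- centred row sum over the support of `s` -/
def R {n : ℕ} (s : Fin n → Fin 2) (y : Fin n → Fin 4) : ℤ := ∑ l, if s l = 1 then u (y l) else 0

/-- the difference sets of `{0, 1, 3}` and of `{0, 1, 2, 3}` are equal -/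
lemma exists_pair : ∀ a b : Fin 4, ∃ i j : Fin 3, (∀ t : Fin 2,
    W i t - W j t = if t = 1 then (a : ℤ) - (b : ℤ) else 0) ∧ (i = j → a = b) := by
  decide

lemma inj_of_inj {n : ℕ} (S : Finset (Fin n → Fin 2))
    (h : Function.Injective (fun (x : Fin n → Fin 3) (s : S) =>
      ∑ l : Fin n, W (x l) ((s : Fin n → Fin 2) l))) :
    Function.Injective (fun (y : Fin n → Fin 4) (s : S) => R (s : Fin n → Fin 2) y) := by
  intro y y' hyy
  choose i j hij1 hij2 using exists_pair
  have key : (fun l => i (y l) (y' l)) = fun l => j (y l) (y' l) := by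
    apply h
    funext s
    have hs : R (s : Fin n → Fin 2) y = R (s : Fin n → Fin 2) y' := congrFun hyy s
    have h1 : ∑ l : Fin n, (W (i (y l) (y' l)) ((s : Fin n → Fin 2) l) -
        W (j (y l) (y' l)) ((s : Fin n → Fin 2) l)) = 0 := by
      have h2 : 2 * ∑ l : Fin n, (W (i (y l) (y' l)) ((s : Fin n → Fin 2) l) -
        W (j (y l) (y' l)) ((s : Fin n → Fin 2) l)) = R (s : Fin n → Fin 2) y -
          R (s : Fin n → Fin 2) y' := by
        unfold R
        rw [← Finset.sum_sub_distrib, Finset.mul_sum]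
        refine Finset.sum_congr rfl fun l _ => ?_
        rw [hij1]
        split_ifs
        · unfold u; ring
        · simp
      rw [hs, sub_self] at h2
      omega
    rw [Finset.sum_sub_distrib, sub_eq_zero] at h1
    exact h1
  funext l
  exact hij2 _ _ (congrFun key l)

lemma sum_exp_le (t : ℝ) : ∑ a : Fin 4, Real.exp (t * (u a : ℝ)) ≤ 4 * Real.exp (9 * t ^ 2 / 2) := by
  have h1 : ∑ a : Fin 4, Real.exp (t * (u a : ℝ)) = 2 * Real.cosh t + 2 * Real.cosh (3 * t) := by
    rw [Fin.sum_univ_four, Real.cosh_eq, Real.cosh_eq]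
    have e0 : ((u 0 : ℤ) : ℝ) = -3 := by norm_num [u]
    have e1 : ((u 1 : ℤ) : ℝ) = -1 := by norm_num [u]
    have e2 : ((u 2 : ℤ) : ℝ) = 1 := by norm_num [u]
    have e3 : ((u 3 : ℤ) : ℝ) = 3 := by
      simp only [u]; norm_num
    rw [e0, e1, e2, e3, show t * (-3) = -(3 * t) by ring, show t * (-1) = -t by ring,
      show t * 1 = t by ring, show t * 3 = 3 * t by ring]
    ring
  rw [h1]
  have h2 := Real.cosh_le_exp_half_sq t
  have h3 := Real.cosh_le_exp_half_sq (3 * t)
  have h4 : Real.exp (t ^ 2 / 2) ≤ Real.exp (9 * t ^ 2 / 2) := by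
    apply Real.exp_le_exp.2; nlinarith [sq_nonneg t]
  have h5 : (3 * t) ^ 2 / 2 = 9 * t ^ 2 / 2 := by ring
  rw [h5] at h3
  linarith

lemma sum_exp_R {n : ℕ} (s : Fin n → Fin 2) (t : ℝ) :
    ∑ y : Fin n → Fin 4, Real.exp (t * (R s y : ℝ)) ≤ 4 ^ n * Real.exp (9 * t ^ 2 / 2 * n) := by
  have h1 : ∀ y : Fin n → Fin 4, Real.exp (t * (R s y : ℝ)) =
      ∏ l, (if s l = 1 then Real.exp (t * (u (y l) : ℝ)) else 1) := by
    intro y
    unfold R
    rw [Int.cast_sum, Finset.mul_sum, Real.exp_sum]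
    refine Finset.prod_congr rfl fun l _ => ?_
    split_ifs <;> simp
  simp_rw [h1]
  have h2 := Finset.prod_univ_sum (fun _ : Fin n => (Finset.univ : Finset (Fin 4)))
    (fun l a => (if s l = 1 then Real.exp (t * (u a : ℝ)) else 1))
  rw [Fintype.piFinset_univ] at h2
  rw [← h2]
  have h3 : (4 : ℝ) ^ n * Real.exp (9 * t ^ 2 / 2 * n) =
      ∏ _l : Fin n, (4 * Real.exp (9 * t ^ 2 / 2)) := by
    rw [Finset.prod_const, Finset.card_univ, Fintype.card_fin, mul_pow, ← Real.exp_nat_mul]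
    congr 2
    ring
  rw [h3]
  refine Finset.prod_le_prod (fun l _ => Finset.sum_nonneg fun a _ => ?_) fun l _ => ?_
  · split_ifs <;> positivity
  · split_ifs
    · exact sum_exp_le t
    · have h4 : 1 ≤ Real.exp (9 * t ^ 2 / 2) := Real.one_le_exp (by positivity)
      have h5 : ∑ _j : Fin 4, (1 : ℝ) = 4 := by simp
      rw [h5]
      linarith

lemma card_tail {n : ℕ} (s : Fin n → Fin 2) (t T : ℝ) :
    ((Finset.univ.filter fun y : Fin n → Fin 4 => t * T ≤ t * (R s y : ℝ)).card : ℝ) ≤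
      4 ^ n * Real.exp (9 * t ^ 2 / 2 * n - t * T) := by
  have h1 := sum_exp_R s t
  have h2 : ((Finset.univ.filter fun y : Fin n → Fin 4 => t * T ≤ t * (R s y : ℝ)).card : ℝ) *
      Real.exp (t * T) ≤ ∑ y : Fin n → Fin 4, Real.exp (t * (R s y : ℝ)) := by
    calc _ = ∑ y ∈ (Finset.univ.filter fun y : Fin n → Fin 4 => t * T ≤ t * (R s y : ℝ)),
          Real.exp (t * T) := by rw [Finset.sum_const, nsmul_eq_mul]
      _ ≤ ∑ y ∈ (Finset.univ.filter fun y : Fin n → Fin 4 => t * T ≤ t * (R s y : ℝ)),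
          Real.exp (t * (R s y : ℝ)) :=
        Finset.sum_le_sum fun y hy => Real.exp_le_exp.2 (Finset.mem_filter.1 hy).2
      _ ≤ _ := Finset.sum_le_sum_of_subset_of_nonneg (Finset.filter_subset _ _)
          fun _ _ _ => (Real.exp_pos _).le
  rw [Real.exp_sub, ← mul_div_assoc, le_div_iff₀ (Real.exp_pos _)]
  linarith

lemma card_tail_abs {n : ℕ} (hn : 0 < n) (s : Fin n → Fin 2) (T : ℝ) (hT : 0 < T) :
    ((Finset.univ.filter fun y : Fin n → Fin 4 => T ≤ |(R s y : ℝ)|).card : ℝ) ≤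
      2 * 4 ^ n * Real.exp (- T ^ 2 / (18 * n)) := by
  have hn' : (0 : ℝ) < n := by exact_mod_cast hn
  set t : ℝ := T / (9 * n) with ht
  have ht0 : 0 < t := by positivity
  have h1 := card_tail s t T
  have h2 := card_tail s (-t) (-T)
  have e1 : 9 * t ^ 2 / 2 * n - t * T = - T ^ 2 / (18 * n) := by
    rw [ht]; field_simp; ring
  have e2 : 9 * (-t) ^ 2 / 2 * n - (-t) * (-T) = - T ^ 2 / (18 * n) := by
    rw [ht]; field_simp; ring
  rw [e1] at h1
  rw [e2] at h2
  have h3 : (Finset.univ.filter fun y : Fin n → Fin 4 => T ≤ |(R s y : ℝ)|) ⊆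
      (Finset.univ.filter fun y : Fin n → Fin 4 => t * T ≤ t * (R s y : ℝ)) ∪
      (Finset.univ.filter fun y : Fin n → Fin 4 => (-t) * (-T) ≤ (-t) * (R s y : ℝ)) := by
    intro y hy
    rw [Finset.mem_filter] at hy
    rw [Finset.mem_union, Finset.mem_filter, Finset.mem_filter]
    rcases le_abs.1 hy.2 with h | h
    · left; exact ⟨Finset.mem_univ _, mul_le_mul_of_nonneg_left h ht0.le⟩
    · right
      refine ⟨Finset.mem_univ _, ?_⟩
      have := mul_le_mul_of_nonneg_left h ht0.le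
      linarith
  have h4 : ((Finset.univ.filter fun y : Fin n → Fin 4 => T ≤ |(R s y : ℝ)|).card : ℝ) ≤
      ((Finset.univ.filter fun y : Fin n → Fin 4 => t * T ≤ t * (R s y : ℝ)).card : ℝ) +
      ((Finset.univ.filter fun y : Fin n → Fin 4 => (-t) * (-T) ≤ (-t) * (R s y : ℝ)).card : ℝ) := by
    exact_mod_cast (Finset.card_le_card h3).trans (Finset.card_union_le _ _)
  linarith

/-- The counting bound. -/
lemma counting {n : ℕ} (hn : 0 < n) (S : Finset (Fin n → Fin 2))
    (h : Function.Injective (fun (y : Fin n → Fin 4) (s : S) => R (s : Fin n → Fin 2) y))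
    (T : ℝ) (hT : 0 < T) (hS : 4 * (S.card : ℝ) * Real.exp (- T ^ 2 / (18 * n)) ≤ 1) :
    (4 : ℝ) ^ n ≤ 2 * (2 * T + 1) ^ S.card := by
  classical
  set G := (Finset.univ.filter fun y : Fin n → Fin 4 => ∀ s ∈ S, |(R s y : ℝ)| < T) with hG
  -- the good set is large
  have h1 : (4 : ℝ) ^ n / 2 ≤ G.card := by
    have h2 : (Finset.univ : Finset (Fin n → Fin 4)) ⊆ G ∪
        S.biUnion fun s => (Finset.univ.filter fun y : Fin n → Fin 4 => T ≤ |(R s y : ℝ)|) := by
      intro y _
      rw [Finset.mem_union, Finset.mem_biUnion]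
      by_cases hy : ∀ s ∈ S, |(R s y : ℝ)| < T
      · left; exact Finset.mem_filter.2 ⟨Finset.mem_univ _, hy⟩
      · right
        push Not at hy
        obtain ⟨s, hs, hs2⟩ := hy
        exact ⟨s, hs, Finset.mem_filter.2 ⟨Finset.mem_univ _, hs2⟩⟩
    have h3 : ((Finset.univ : Finset (Fin n → Fin 4)).card : ℝ) ≤ G.card +
        ∑ s ∈ S, ((Finset.univ.filter fun y : Fin n → Fin 4 => T ≤ |(R s y : ℝ)|).card : ℝ) := by
      have h4 := (Finset.card_le_card h2).trans (Finset.card_union_le _ _)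
      have h5 := h4.trans (Nat.add_le_add_left Finset.card_biUnion_le _)
      exact_mod_cast h5
    have h6 : ∑ s ∈ S, ((Finset.univ.filter fun y : Fin n → Fin 4 => T ≤ |(R s y : ℝ)|).card : ℝ)
        ≤ (S.card : ℝ) * (2 * 4 ^ n * Real.exp (- T ^ 2 / (18 * n))) := by
      rw [← nsmul_eq_mul, ← Finset.sum_const]
      exact Finset.sum_le_sum fun s _ => card_tail_abs hn s T hT
    have h7 : ((Finset.univ : Finset (Fin n → Fin 4)).card : ℝ) = 4 ^ n := by
      rw [Finset.card_univ, Fintype.card_fun, Fintype.card_fin, Fintype.card_fin]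
      push_cast
      rfl
    have h8 : (0 : ℝ) < 4 ^ n := by positivity
    have h9 := mul_le_mul_of_nonneg_left hS (by positivity : (0 : ℝ) ≤ 4 ^ n / 2)
    rw [h7] at h3
    nlinarith
  -- the good set is small
  have h10 : (G.card : ℝ) ≤ (2 * T + 1) ^ S.card := by
    set I : Finset ℤ := Finset.Icc (-⌊T⌋) ⌊T⌋ with hI
    have h11 : G.card ≤ (Fintype.piFinset fun _ : S => I).card := by
      refine Finset.card_le_card_of_injOn (fun (y : Fin n → Fin 4) (s : S) => R (s : Fin n → Fin 2) y)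
        ?_ (h.injOn)
      intro y hy
      rw [Finset.mem_coe] at hy ⊢
      rw [Fintype.mem_piFinset]
      intro s
      have h12 := (Finset.mem_filter.1 hy).2 (s : Fin n → Fin 2) s.2
      rw [abs_lt] at h12
      rw [hI, Finset.mem_Icc]
      refine ⟨?_, Int.le_floor.2 h12.2.le⟩
      have : - (R (s : Fin n → Fin 2) y) ≤ ⌊T⌋ := by
        apply Int.le_floor.2
        push_cast
        linarith [h12.1]
      linarith
    rw [Fintype.card_piFinset, Finset.prod_const, Finset.card_univ, Fintype.card_coe] at h11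
    have h13 : (I.card : ℝ) ≤ 2 * T + 1 := by
      rw [hI, Int.card_Icc]
      have h14 : 0 ≤ ⌊T⌋ := Int.floor_nonneg.2 hT.le
      have h15 : ((⌊T⌋ + 1 - -⌊T⌋).toNat : ℤ) = 2 * ⌊T⌋ + 1 := by
        rw [Int.toNat_of_nonneg (by linarith)]; ring
      have h16 : (((⌊T⌋ + 1 - -⌊T⌋).toNat : ℤ) : ℝ) = 2 * (⌊T⌋ : ℝ) + 1 := by
        rw [h15]; push_cast; ring
      rw [Int.cast_natCast] at h16
      rw [h16]
      linarith [Int.floor_le T]
    calc (G.card : ℝ) ≤ ((I.card ^ S.card : ℕ) : ℝ) := by exact_mod_cast h11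
      _ = (I.card : ℝ) ^ S.card := by push_cast; rfl
      _ ≤ _ := pow_le_pow_left₀ (by positivity) h13 _
  linarith

/-- The negation of the preceding statement: For every p×q integer matrix with p ≥ 2 whose distinct rows never differ by a constant vector, the least size of S ⊆ [q]^n making the row-sum map on [p]^n injective, times log base p of n, divided by n, tends to 2. -/
theorem result :
    ¬ (∀ (p q : ℕ) (M : Matrix (Fin p) (Fin q) ℤ),
      2 ≤ p →
      (∀ i j : Fin p, i ≠ j → ∃ s t : Fin q, M i s - M j s ≠ M i t - M j t) →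
      Tendsto
        (fun n : ℕ =>
          ((sInf {k : ℕ | ∃ S : Finset (Fin n → Fin q), S.card = k ∧
              Function.Injective
                (fun (x : Fin n → Fin p) (s : S) =>
                  ∑ l : Fin n, M (x l) ((s : Fin n → Fin q) l))} : ℕ) : ℝ)
            * Real.logb (p : ℝ) (n : ℝ) / (n : ℝ))
        atTop (𝓝 2)) := by
  intro hall
  have hlim := hall 3 2 W (by norm_num) (by decide)
  -- eventually the value lies strictly between 1 and 41/20
  have hlow : ∀ᶠ n : ℕ in atTop, (1 : ℝ) < ((sInf {k : ℕ | ∃ S : Finset (Fin n → Fin 2), S.card = k ∧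
              Function.Injective
                (fun (x : Fin n → Fin 3) (s : S) =>
                  ∑ l : Fin n, W (x l) ((s : Fin n → Fin 2) l))} : ℕ) : ℝ)
            * Real.logb ((3 : ℕ) : ℝ) (n : ℝ) / (n : ℝ) :=
    hlim.eventually (lt_mem_nhds (by norm_num))
  have hupp : ∀ᶠ n : ℕ in atTop, ((sInf {k : ℕ | ∃ S : Finset (Fin n → Fin 2), S.card = k ∧
              Function.Injective
                (fun (x : Fin n → Fin 3) (s : S) =>
                  ∑ l : Fin n, W (x l) ((s : Fin n → Fin 2) l))} : ℕ) : ℝ)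
            * Real.logb ((3 : ℕ) : ℝ) (n : ℝ) / (n : ℝ) < 41 / 20 :=
    hlim.eventually (gt_mem_nhds (by norm_num))
  have hlog : Tendsto (fun n : ℕ => Real.log (n : ℝ)) atTop atTop :=
    Real.tendsto_log_atTop.comp tendsto_natCast_atTop_atTop
  have hlog1 := hlog.eventually (eventually_ge_atTop (1000 : ℝ))
  have hexp : ∀ᶠ n : ℕ in atTop, 4 * (n : ℝ) * Real.exp (- ((n : ℝ) ^ (3 / 5 : ℝ)) ^ 2 / (18 * n)) ≤ 1 := by
    have h1 : Tendsto (fun x : ℝ => x ^ (5 : ℝ) * Real.exp (-(1 / 18) * x)) atTop (𝓝 0) :=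
      tendsto_rpow_mul_exp_neg_mul_atTop_nhds_zero 5 (1 / 18) (by norm_num)
    have h2 : Tendsto (fun n : ℕ => (n : ℝ) ^ (1 / 5 : ℝ)) atTop atTop :=
      (tendsto_rpow_atTop (by norm_num)).comp tendsto_natCast_atTop_atTop
    have h3 := (h1.comp h2).eventually (gt_mem_nhds (show (0 : ℝ) < 1 / 4 by norm_num))
    filter_upwards [h3, eventually_gt_atTop 0] with n hn hn0
    have hn' : (0 : ℝ) < n := by exact_mod_cast hn0
    simp only [Function.comp] at hn
    rw [← Real.rpow_mul hn'.le, show (1 / 5 : ℝ) * 5 = 1 by norm_num, Real.rpow_one] at hn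
    have h4 : - ((n : ℝ) ^ (3 / 5 : ℝ)) ^ 2 / (18 * n) = -(1 / 18) * (n : ℝ) ^ (1 / 5 : ℝ) := by
      rw [← Real.rpow_natCast, ← Real.rpow_mul hn'.le]
      have h5 : (n : ℝ) ^ ((3 / 5 : ℝ) * ((2 : ℕ) : ℝ)) = (n : ℝ) ^ (1 / 5 : ℝ) * n := by
        rw [← Real.rpow_add_one hn'.ne']
        norm_num
      rw [h5]
      field_simp
    rw [h4]
    linarith
  obtain ⟨n, h1, h2, h3, h4, h5⟩ := (hlow.and (hupp.and (hlog1.and (hexp.and
    (eventually_gt_atTop 0))))).exists
  have hn' : (0 : ℝ) < n := by exact_mod_cast h5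
  set A := {k : ℕ | ∃ S : Finset (Fin n → Fin 2), S.card = k ∧
              Function.Injective
                (fun (x : Fin n → Fin 3) (s : S) =>
                  ∑ l : Fin n, W (x l) ((s : Fin n → Fin 2) l))} with hA
  have hne : A.Nonempty := by
    by_contra hcon
    rw [Set.not_nonempty_iff_eq_empty] at hcon
    rw [hcon] at h1
    simp at h1
    linarith
  obtain ⟨S, hS1, hS2⟩ := Nat.sInf_mem hne
  rw [← hS1] at h2
  have hl3 : 0 < Real.log 3 := Real.log_pos (by norm_num)
  have hl3' : Real.log 3 ≤ 8 / 5 * Real.log 2 := by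
    have h6 : Real.log ((3 : ℝ) ^ 5) ≤ Real.log ((2 : ℝ) ^ 8) :=
      Real.log_le_log (by norm_num) (by norm_num)
    rw [Real.log_pow, Real.log_pow] at h6
    push_cast at h6
    linarith
  have hln : 0 < Real.log n := by linarith
  have h18 := Real.log_two_gt_d9
  have h19 := Real.log_two_lt_d9
  have h20 : Real.log 3 ≤ 11 / 10 + 1 / 100 := by linarith
  have hm : (S.card : ℝ) * Real.log n < 41 / 20 * n * Real.log 3 := by
    rw [Real.logb, div_lt_iff₀ hn', ← mul_div_assoc] at h2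
    push_cast at h2
    rw [div_lt_iff₀ hl3] at h2
    exact h2
  have hmn : (S.card : ℝ) ≤ n := by
    by_contra hcon
    push Not at hcon
    have h6 := mul_lt_mul_of_pos_right hcon hln
    have h7 := mul_le_mul_of_nonneg_left h3 hn'.le
    have h8 := mul_le_mul_of_nonneg_left h20 hn'.le
    linarith
  have hT : (0 : ℝ) < (n : ℝ) ^ (3 / 5 : ℝ) := by positivity
  have hcnt := counting h5 S (inj_of_inj S hS2) ((n : ℝ) ^ (3 / 5 : ℝ)) hT (by
    refine le_trans ?_ h4
    have h7 := Real.exp_pos (- ((n : ℝ) ^ (3 / 5 : ℝ)) ^ 2 / (18 * n))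
    nlinarith)
  -- take logarithms
  have h8 : (n : ℝ) * Real.log 4 ≤ Real.log 2 + S.card * Real.log (2 * (n : ℝ) ^ (3 / 5 : ℝ) + 1) := by
    have h9 := Real.log_le_log (by positivity) hcnt
    rw [Real.log_pow, Real.log_mul (by norm_num) (by positivity), Real.log_pow] at h9
    exact h9
  have h10 : Real.log (2 * (n : ℝ) ^ (3 / 5 : ℝ) + 1) ≤ Real.log 3 + 3 / 5 * Real.log n := by
    rw [← Real.log_rpow hn', ← Real.log_mul (by norm_num) (by positivity)]
    apply Real.log_le_log (by positivity)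
    have h11 : (1 : ℝ) ≤ (n : ℝ) ^ (3 / 5 : ℝ) :=
      Real.one_le_rpow (by exact_mod_cast h5) (by norm_num)
    linarith
  have h12 : (S.card : ℝ) * Real.log (2 * (n : ℝ) ^ (3 / 5 : ℝ) + 1) ≤
      S.card * Real.log 3 + 3 / 5 * (41 / 20 * n * Real.log 3) := by
    have h13 := mul_le_mul_of_nonneg_left h10 (by positivity : (0 : ℝ) ≤ S.card)
    nlinarith
  have h14 : (S.card : ℝ) * 1000 ≤ 41 / 20 * n * Real.log 3 := by
    have h15 := mul_le_mul_of_nonneg_left h3 (by positivity : (0 : ℝ) ≤ S.card)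
    linarith
  have h16 : Real.log 4 = 2 * Real.log 2 := by
    rw [show (4 : ℝ) = 2 ^ 2 by norm_num, Real.log_pow]
    push_cast
    ring
  have h17 : (1000 : ℝ) ≤ n := by
    have := Real.log_le_sub_one_of_pos hn'
    linarith
  have h21 : (S.card : ℝ) * Real.log 3 ≤ n / 300 := by
    have h22 : (S.card : ℝ) * 1000 * Real.log 3 ≤ 41 / 20 * n * Real.log 3 * Real.log 3 :=
      mul_le_mul_of_nonneg_right h14 hl3.le
    have h23 : Real.log 3 * Real.log 3 ≤ 5 / 4 := by nlinarith
    have h24 := mul_le_mul_of_nonneg_left h23 (by positivity : (0 : ℝ) ≤ 41 / 20 * n)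
    nlinarith
  have h25 : (n : ℝ) * Real.log 3 ≤ n * (8 / 5 * Real.log 2) :=
    mul_le_mul_of_nonneg_left hl3' hn'.le
  have h26 : (n : ℝ) * 0.69 ≤ n * Real.log 2 := mul_le_mul_of_nonneg_left (by linarith) hn'.le
  rw [h16] at h8
  nlinarith

end Pool.Agent.S12636
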