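import Pool.Statements.S12654
-- import your own Pool.Agent.* helpers here

set_option autoImplicit false
open Pool Pool.MP_ffc190_co

namespace Pool.Agent.S12654

/-- Three short arcs placed along three pairwise skew edges of a cube; arc number `j`. -/
noncomputable def base (s : ℝ) : Fin 3 → ℝ := ![1 / 2 + s, s ^ 2 / 2, 1 - s ^ 2 / 2]

/-- The point with parameter `s` on the `j`-th arc. -/
noncomputable def P (j : Fin 3) (s : ℝ) : EuclideanSpace ℝ (Fin 3) :=
  WithLp.toLp 2 (fun i => base s (i - j))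

/-- Coefficients of the separating functional. -/
noncomputable def fb (s t : ℝ) : Fin 3 → ℝ := ![s * (1 + t), -(t * (1 - s)), 1 + s * t]

/-- The functional maximal at `P j s` and minimal at `P (j+1) t`. -/
noncomputable def F (j : Fin 3) (s t : ℝ) : EuclideanSpace ℝ (Fin 3) →ₗ[ℝ] ℝ where
  toFun x := ∑ i, fb s t (i - j) * x i
  map_add' x y := by
    simp only [PiLp.add_apply, mul_add, Finset.sum_add_distrib]
  map_smul' c x := by
    simp only [PiLp.smul_apply, smul_eq_mul, RingHom.id_apply, Finset.mul_sum]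
    refine Finset.sum_congr rfl fun i _ => ?_
    ring

theorem F_apply (j : Fin 3) (s t : ℝ) (x : EuclideanSpace ℝ (Fin 3)) :
    F j s t x = ∑ i, fb s t (i - j) * x i := rfl

theorem P_apply (j : Fin 3) (s : ℝ) (i : Fin 3) : P j s i = base s (i - j) := rfl

/-- Value of the functional on an arc only depends on the difference of the indices. -/
theorem F_P (j l : Fin 3) (s t r : ℝ) :
    F j s t (P (j + l) r) = ∑ i, fb s t i * base r (i - l) := by
  rw [F_apply]
  simp only [P_apply]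
  rw [← Equiv.sum_comp (Equiv.addRight j)]
  refine Finset.sum_congr rfl fun i _ => ?_
  simp only [Equiv.coe_addRight]
  congr 2 <;> abel

theorem F_P0 (j : Fin 3) (s t r : ℝ) :
    F j s t (P j r) = s * (1 + t) * (1 / 2 + r) - t * (1 - s) * (r ^ 2 / 2)
      + (1 + s * t) * (1 - r ^ 2 / 2) := by
  have h := F_P j 0 s t r
  rw [add_zero] at h
  rw [h, Fin.sum_univ_three]
  simp [fb, base]
  ring

theorem F_P1 (j : Fin 3) (s t r : ℝ) :
    F j s t (P (j + 1) r) = s * (1 + t) * (1 - r ^ 2 / 2) - t * (1 - s) * (1 / 2 + r)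
      + (1 + s * t) * (r ^ 2 / 2) := by
  rw [F_P j 1 s t r, Fin.sum_univ_three]
  have h0 : (0 : Fin 3) - 1 = 2 := by decide
  have h1 : (1 : Fin 3) - 1 = 0 := by decide
  have h2 : (2 : Fin 3) - 1 = 1 := by decide
  rw [h0, h1, h2]
  simp [fb, base]
  ring

theorem F_P2 (j : Fin 3) (s t r : ℝ) :
    F j s t (P (j + 2) r) = s * (1 + t) * (r ^ 2 / 2) - t * (1 - s) * (1 - r ^ 2 / 2)
      + (1 + s * t) * (1 / 2 + r) := by
  rw [F_P j 2 s t r, Fin.sum_univ_three]
  have h0 : (0 : Fin 3) - 2 = 1 := by decide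
  have h1 : (1 : Fin 3) - 2 = 2 := by decide
  have h2 : (2 : Fin 3) - 2 = 0 := by decide
  rw [h0, h1, h2]
  simp [fb, base]
  ring

theorem F_max0 (j : Fin 3) {s t r : ℝ} (ht : 0 ≤ t) (hr : r ≠ s) :
    F j s t (P j r) < F j s t (P j s) := by
  rw [F_P0, F_P0]
  have h : 0 < (s - r) ^ 2 := by
    have : s - r ≠ 0 := sub_ne_zero.2 (Ne.symm hr)
    positivity
  nlinarith [mul_pos (show (0 : ℝ) < 1 + t by linarith) h]

theorem F_min1 (j : Fin 3) {s t r : ℝ} (hs1 : s ≤ 1 / 10) :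
    F j s t (P (j + 1) t) ≤ F j s t (P (j + 1) r) := by
  rw [F_P1, F_P1]
  have h : 0 ≤ (t - r) ^ 2 := sq_nonneg _
  nlinarith [mul_nonneg (show (0 : ℝ) ≤ 1 - s by linarith) h]

/-- bounds on the values -/
theorem F_P0_ge (j : Fin 3) {s t r : ℝ} (hs : 0 ≤ s) (hs1 : s ≤ 1 / 10) (ht : 0 ≤ t)
    (ht1 : t ≤ 1 / 10) (hr : 0 ≤ r) (hr1 : r ≤ 1 / 10) :
    9 / 10 ≤ F j s t (P j r) := by
  rw [F_P0]
  have h1 : 0 ≤ s * (1 + t) * (1 / 2 + r) := by positivity
  have h2 : t * (1 - s) * (r ^ 2 / 2) ≤ 1 / 10 * 1 * ((1 / 10) ^ 2 / 2) := by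
    have : r ^ 2 ≤ (1 / 10) ^ 2 := by nlinarith
    have h1s : 0 ≤ 1 - s := by linarith
    gcongr
    linarith
  have h3 : 1 * (1 - (1 / 10) ^ 2 / 2) ≤ (1 + s * t) * (1 - r ^ 2 / 2) := by
    have : r ^ 2 ≤ (1 / 10) ^ 2 := by nlinarith
    have hst : 0 ≤ s * t := by positivity
    gcongr
    · linarith
  linarith

theorem F_P1_le (j : Fin 3) {s t r : ℝ} (hs : 0 ≤ s) (hs1 : s ≤ 1 / 10) (ht : 0 ≤ t)
    (ht1 : t ≤ 1 / 10) (hr : 0 ≤ r) (hr1 : r ≤ 1 / 10) :
    F j s t (P (j + 1) r) ≤ 2 / 10 := by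
  rw [F_P1]
  have hr2 : r ^ 2 ≤ (1 / 10) ^ 2 := by nlinarith
  have h1 : s * (1 + t) * (1 - r ^ 2 / 2) ≤ 1 / 10 * (1 + 1 / 10) * 1 := by
    have : 0 ≤ r ^ 2 := sq_nonneg r
    have h1r : 0 ≤ 1 - r ^ 2 / 2 := by linarith
    gcongr
    linarith
  have h2 : 0 ≤ t * (1 - s) * (1 / 2 + r) := by
    have h1s : 0 ≤ 1 - s := by linarith
    positivity
  have h3 : (1 + s * t) * (r ^ 2 / 2) ≤ (1 + 1 / 10 * (1 / 10)) * ((1 / 10) ^ 2 / 2) := by
    gcongr
  linarith

theorem F_P2_mem (j : Fin 3) {s t r : ℝ} (hs : 0 ≤ s) (hs1 : s ≤ 1 / 10) (ht : 0 ≤ t)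
    (ht1 : t ≤ 1 / 10) (hr : 0 ≤ r) (hr1 : r ≤ 1 / 10) :
    4 / 10 ≤ F j s t (P (j + 2) r) ∧ F j s t (P (j + 2) r) ≤ 7 / 10 := by
  rw [F_P2]
  have hr2 : r ^ 2 ≤ (1 / 10) ^ 2 := by nlinarith
  have hr0 : 0 ≤ r ^ 2 := sq_nonneg r
  have h1s : 0 ≤ 1 - s := by linarith
  have h1r : 0 ≤ 1 - r ^ 2 / 2 := by linarith
  have h1 : s * (1 + t) * (r ^ 2 / 2) ≤ 1 / 10 * (1 + 1 / 10) * ((1 / 10) ^ 2 / 2) := by
    gcongr
  have h1' : 0 ≤ s * (1 + t) * (r ^ 2 / 2) := by positivity
  have h2 : t * (1 - s) * (1 - r ^ 2 / 2) ≤ 1 / 10 * 1 * 1 := by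
    gcongr
    · linarith
    · linarith
  have h2' : 0 ≤ t * (1 - s) * (1 - r ^ 2 / 2) := by positivity
  have h3 : (1 + s * t) * (1 / 2 + r) ≤ (1 + 1 / 10 * (1 / 10)) * (1 / 2 + 1 / 10) := by
    gcongr
  have h3' : 1 / 2 ≤ (1 + s * t) * (1 / 2 + r) := by
    nlinarith [mul_nonneg hs ht, mul_nonneg (mul_nonneg hs ht) hr]
  constructor <;> linarith

/-- The parameters. -/
noncomputable def par (k : ℕ) (i : Fin k) : ℝ := (i : ℝ) / (10 * k)

theorem par_nonneg (k : ℕ) (i : Fin k) : 0 ≤ par k i := by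
  unfold par; positivity

theorem par_le (k : ℕ) (i : Fin k) : par k i ≤ 1 / 10 := by
  unfold par
  have hi : (i : ℝ) < k := by exact_mod_cast i.2
  have hk : (0 : ℝ) < k := lt_of_le_of_lt (by positivity) hi
  rw [div_le_div_iff₀ (by positivity) (by norm_num)]
  nlinarith

theorem par_inj (k : ℕ) : Function.Injective (par k) := by
  intro i i' h
  unfold par at h
  have hi : (i : ℝ) < k := by exact_mod_cast i.2
  have hk : (0 : ℝ) < k := lt_of_le_of_lt (by positivity) hi
  have h2 : (i : ℝ) = i' := by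
    field_simp at h
    exact h
  exact Fin.ext (by exact_mod_cast h2)

/-- The point with index `(j,i)`. -/
noncomputable def pt (k : ℕ) (a : Fin 3 × Fin k) : EuclideanSpace ℝ (Fin 3) := P a.1 (par k a.2)

theorem cases3 (j l : Fin 3) : l = j ∨ l = j + 1 ∨ l = j + 2 := by
  revert j l; decide

/-- `pt a` strictly maximises `F a.1 (par a.2) t`. -/
theorem pt_max (k : ℕ) (a b : Fin 3 × Fin k) (t : ℝ) (ht : 0 ≤ t) (ht1 : t ≤ 1 / 10)
    (hab : b ≠ a) : F a.1 (par k a.2) t (pt k b) < F a.1 (par k a.2) t (pt k a) := by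
  have hA := F_P0_ge a.1 (par_nonneg k a.2) (par_le k a.2) ht ht1 (par_nonneg k a.2) (par_le k a.2)
  rcases cases3 a.1 b.1 with h | h | h
  · have hne : par k b.2 ≠ par k a.2 := by
      intro hh
      exact hab (Prod.ext h (par_inj k hh))
    have := F_max0 a.1 (s := par k a.2) (t := t) (r := par k b.2) ht hne
    simp only [pt]
    rw [h]
    exact this
  · have := F_P1_le a.1 (par_nonneg k a.2) (par_le k a.2) ht ht1 (par_nonneg k b.2) (par_le k b.2)
    simp only [pt]
    rw [h]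
    linarith
  · have := (F_P2_mem a.1 (par_nonneg k a.2) (par_le k a.2) ht ht1 (par_nonneg k b.2)
      (par_le k b.2)).2
    simp only [pt]
    rw [h]
    linarith

theorem pt_inj (k : ℕ) : Function.Injective (pt k) := by
  intro a b h
  by_contra hne
  have := pt_max k a b 0 le_rfl (by norm_num) (Ne.symm hne)
  rw [h] at this
  exact lt_irrefl _ this

/-- `pt b` with `b.1 = a.1 + 1` minimises `F a.1 (par a.2) (par b.2)`. -/
theorem pt_min (k : ℕ) (a b c : Fin 3 × Fin k) (hb : b.1 = a.1 + 1) :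
    F a.1 (par k a.2) (par k b.2) (pt k b) ≤ F a.1 (par k a.2) (par k b.2) (pt k c) := by
  have hB := F_P1_le a.1 (par_nonneg k a.2) (par_le k a.2) (par_nonneg k b.2) (par_le k b.2)
    (par_nonneg k b.2) (par_le k b.2)
  simp only [pt]
  rw [hb]
  rcases cases3 a.1 c.1 with h | h | h
  · have := F_P0_ge a.1 (par_nonneg k a.2) (par_le k a.2) (par_nonneg k b.2) (par_le k b.2)
      (par_nonneg k c.2) (par_le k c.2)
    rw [h]; linarith
  · rw [h]
    exact F_min1 a.1 (par_le k a.2)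
  · have := (F_P2_mem a.1 (par_nonneg k a.2) (par_le k a.2) (par_nonneg k b.2) (par_le k b.2)
      (par_nonneg k c.2) (par_le k c.2)).1
    rw [h]; linarith

open Classical in
/-- The point set. -/
noncomputable def S (k : ℕ) : Finset (EuclideanSpace ℝ (Fin 3)) :=
  Finset.univ.image (pt k)

theorem mem_S {k : ℕ} {x : EuclideanSpace ℝ (Fin 3)} : x ∈ S k ↔ ∃ a, pt k a = x := by
  classical
  simp [S]

theorem card_S (k : ℕ) : (S k).card = 3 * k := by
  classical
  rw [S, Finset.card_image_of_injective _ (pt_inj k)]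
  simp

theorem extreme (k : ℕ) : ∀ x ∈ S k, x ∈ Set.extremePoints ℝ
    (convexHull ℝ (S k : Set (EuclideanSpace ℝ (Fin 3)))) := by
  intro x hx
  obtain ⟨a, rfl⟩ := mem_S.1 hx
  set f := F a.1 (par k a.2) 0 with hf
  have hC : Convex ℝ {y : EuclideanSpace ℝ (Fin 3) | f y < f (pt k a) ∨ y = pt k a} := by
    intro y hy z hz α β hα hβ hab
    simp only [Set.mem_ofPred_eq] at hy hz ⊢
    rw [map_add, map_smul, map_smul, smul_eq_mul, smul_eq_mul]
    have hM : α * f (pt k a) + β * f (pt k a) = f (pt k a) := by rw [← add_mul, hab, one_mul]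
    rcases hy with hy | hy
    · rcases hz with hz | hz
      · left
        rcases hα.eq_or_lt with h | h
        · have hb1 : β = 1 := by linarith
          rw [← h, hb1]; linarith
        · have e1 := mul_pos h (sub_pos.2 hy)
          have e2 := mul_nonneg hβ (sub_pos.2 hz).le
          rw [mul_sub] at e1 e2
          linarith
      · subst hz
        rcases hα.eq_or_lt with h | h
        · right
          have hb1 : β = 1 := by linarith
          rw [← h, hb1]; simp
        · left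
          have e1 := mul_pos h (sub_pos.2 hy)
          rw [mul_sub] at e1
          linarith
    · subst hy
      rcases hz with hz | hz
      · rcases hβ.eq_or_lt with h | h
        · right
          have hb1 : α = 1 := by linarith
          rw [← h, hb1]; simp
        · left
          have e1 := mul_pos h (sub_pos.2 hz)
          rw [mul_sub] at e1
          linarith
      · right
        rw [hz, ← add_smul, hab, one_smul]
  have hsub : convexHull ℝ (S k : Set (EuclideanSpace ℝ (Fin 3))) ⊆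
      {y : EuclideanSpace ℝ (Fin 3) | f y < f (pt k a) ∨ y = pt k a} := by
    apply convexHull_min _ hC
    intro y hy
    obtain ⟨b, rfl⟩ := mem_S.1 hy
    by_cases hba : b = a
    · right; rw [hba]
    · left
      exact pt_max k a b 0 le_rfl (by norm_num) hba
  refine ⟨subset_convexHull ℝ _ hx, ?_⟩
  intro y hy z hz hseg
  obtain ⟨α, β, hα, hβ, hab, hsum⟩ := hseg
  have hy' := hsub hy
  have hz' := hsub hz
  simp only [Set.mem_ofPred_eq] at hy' hz'
  rcases hy' with h | h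
  · exfalso
    have hz2 : f z ≤ f (pt k a) := by
      rcases hz' with h' | h'
      · exact h'.le
      · rw [h']
    have : α * f y + β * f z = f (pt k a) := by
      rw [← hsum, map_add, map_smul, map_smul, smul_eq_mul, smul_eq_mul]
    have hM : α * f (pt k a) + β * f (pt k a) = f (pt k a) := by rw [← add_mul, hab, one_mul]
    have e1 := mul_pos hα (sub_pos.2 h)
    have e2 := mul_nonneg hβ.le (sub_nonneg.2 hz2)
    rw [mul_sub] at e1 e2
    linarith
  · exact h

theorem vecspan (k : ℕ) (hk : 2 ≤ k) :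
    vectorSpan ℝ (S k : Set (EuclideanSpace ℝ (Fin 3))) = ⊤ := by
  by_contra hne
  obtain ⟨f, hf0, hf⟩ := Submodule.exists_le_ker_of_lt_top _ (lt_top_iff_ne_top.2 hne)
  set i0 : Fin k := ⟨0, by omega⟩
  set i1 : Fin k := ⟨1, by omega⟩
  have hp0 : par k i0 = 0 := by simp [par, i0]
  set s := par k i1 with hs
  have hs0 : s ≠ 0 := by
    intro h
    have := par_inj k (hs.symm.trans (h.trans hp0.symm))
    simp [i0, i1, Fin.ext_iff] at this
  have hmem : ∀ j : Fin 3, f (pt k (j, i1) - pt k (j, i0)) = 0 := by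
    intro j
    have h1 : pt k (j, i1) ∈ (S k : Set (EuclideanSpace ℝ (Fin 3))) := mem_S.2 ⟨_, rfl⟩
    have h0 : pt k (j, i0) ∈ (S k : Set (EuclideanSpace ℝ (Fin 3))) := mem_S.2 ⟨_, rfl⟩
    have := hf (vsub_mem_vectorSpan ℝ h1 h0)
    simpa using this
  set α := f (EuclideanSpace.single 0 1) with hα
  set β := f (EuclideanSpace.single 1 1) with hβ
  set γ := f (EuclideanSpace.single 2 1) with hγ
  have hrep : ∀ x : EuclideanSpace ℝ (Fin 3), f x = x 0 * α + x 1 * β + x 2 * γ := by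
    intro x
    have hx : x = x 0 • EuclideanSpace.single (0 : Fin 3) (1 : ℝ) + x 1 • EuclideanSpace.single 1 1
        + x 2 • EuclideanSpace.single 2 1 := by
      ext i
      fin_cases i <;> simp
    conv_lhs => rw [hx]
    rw [map_add, map_add, map_smul, map_smul, map_smul]
    simp only [smul_eq_mul]
    rfl
  have e0 := hmem 0
  have e1 := hmem 1
  have e2 := hmem 2
  rw [hrep] at e0 e1 e2
  simp only [pt, PiLp.sub_apply, P_apply, hp0] at e0 e1 e2
  rw [← hs] at e0 e1 e2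
  have a00 : (0 : Fin 3) - 0 = 0 := by decide
  have a01 : (0 : Fin 3) - 1 = 2 := by decide
  have a02 : (0 : Fin 3) - 2 = 1 := by decide
  have a10 : (1 : Fin 3) - 0 = 1 := by decide
  have a11 : (1 : Fin 3) - 1 = 0 := by decide
  have a12 : (1 : Fin 3) - 2 = 2 := by decide
  have a20 : (2 : Fin 3) - 0 = 2 := by decide
  have a21 : (2 : Fin 3) - 1 = 1 := by decide
  have a22 : (2 : Fin 3) - 2 = 0 := by decide
  rw [a00, a10, a20] at e0
  rw [a01, a11, a21] at e1
  rw [a02, a12, a22] at e2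
  simp [base] at e0 e1 e2
  -- e0 : s α + s²/2 β - s²/2 γ = 0 etc
  have g0 : α + s / 2 * β - s / 2 * γ = 0 := by
    have : s * (α + s / 2 * β - s / 2 * γ) = 0 := by linear_combination e0
    exact (mul_eq_zero.1 this).resolve_left hs0
  have g1 : β + s / 2 * γ - s / 2 * α = 0 := by
    have : s * (β + s / 2 * γ - s / 2 * α) = 0 := by linear_combination e1
    exact (mul_eq_zero.1 this).resolve_left hs0
  have g2 : γ + s / 2 * α - s / 2 * β = 0 := by
    have : s * (γ + s / 2 * α - s / 2 * β) = 0 := by linear_combination e2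
    exact (mul_eq_zero.1 this).resolve_left hs0
  have hdet : 1 + 3 * (s / 2) ^ 2 ≠ 0 := by positivity
  have hα0 : α = 0 := by
    have : (1 + 3 * (s / 2) ^ 2) * α = 0 := by
      linear_combination (1 + (s / 2) ^ 2) * g0 + ((s / 2) ^ 2 - s / 2) * g1
        + ((s / 2) ^ 2 + s / 2) * g2
    exact (mul_eq_zero.1 this).resolve_left hdet
  have hβ0 : β = 0 := by
    have : (1 + 3 * (s / 2) ^ 2) * β = 0 := by
      linear_combination (1 + (s / 2) ^ 2) * g1 + ((s / 2) ^ 2 - s / 2) * g2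
        + ((s / 2) ^ 2 + s / 2) * g0
    exact (mul_eq_zero.1 this).resolve_left hdet
  have hγ0 : γ = 0 := by
    have : (1 + 3 * (s / 2) ^ 2) * γ = 0 := by
      linear_combination (1 + (s / 2) ^ 2) * g2 + ((s / 2) ^ 2 - s / 2) * g0
        + ((s / 2) ^ 2 + s / 2) * g1
    exact (mul_eq_zero.1 this).resolve_left hdet
  apply hf0
  ext x
  rw [hrep, hα0, hβ0, hγ0]
  simp

theorem affspan (k : ℕ) (hk : 2 ≤ k) :
    affineSpan ℝ (S k : Set (EuclideanSpace ℝ (Fin 3))) = ⊤ := by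
  have hne : (S k : Set (EuclideanSpace ℝ (Fin 3))).Nonempty :=
    ⟨pt k (0, ⟨0, by omega⟩), mem_S.2 ⟨_, rfl⟩⟩
  rw [AffineSubspace.affineSpan_eq_top_iff_vectorSpan_eq_top_of_nonempty ℝ _ _ hne]
  exact vecspan k hk

/-- The set of ordered antipodal pairs. -/
def anti (T : Finset (EuclideanSpace ℝ (Fin 3))) :
    Set (EuclideanSpace ℝ (Fin 3) × EuclideanSpace ℝ (Fin 3)) :=
  {p : EuclideanSpace ℝ (Fin 3) × EuclideanSpace ℝ (Fin 3) |
    p.1 ∈ T ∧ p.2 ∈ T ∧ p.1 ≠ p.2 ∧
    ∃ f : EuclideanSpace ℝ (Fin 3) →ₗ[ℝ] ℝ,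
      f p.2 < f p.1 ∧ ∀ z ∈ T, f p.2 ≤ f z ∧ f z ≤ f p.1}

theorem anti_subset (T : Finset (EuclideanSpace ℝ (Fin 3))) :
    anti T ⊆ ((T ×ˢ T : Finset _) : Set _) := by
  intro p hp
  simp only [Finset.coe_product, Set.mem_prod, Finset.mem_coe]
  exact ⟨hp.1, hp.2.1⟩

theorem anti_finite (T : Finset (EuclideanSpace ℝ (Fin 3))) : (anti T).Finite :=
  (Finset.finite_toSet _).subset (anti_subset T)

theorem anti_le (T : Finset (EuclideanSpace ℝ (Fin 3))) : (anti T).ncard ≤ T.card * T.card := by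
  have := Set.ncard_le_ncard (anti_subset T) (Finset.finite_toSet _)
  rwa [Set.ncard_coe_finset, Finset.card_product] at this

theorem pair_anti (k : ℕ) (a b : Fin 3 × Fin k) (hab : a.1 ≠ b.1) :
    (pt k a, pt k b) ∈ anti (S k) := by
  have hne : a ≠ b := fun h => hab (by rw [h])
  refine ⟨mem_S.2 ⟨a, rfl⟩, mem_S.2 ⟨b, rfl⟩, fun h => hne (pt_inj k h), ?_⟩
  rcases cases3 a.1 b.1 with h | h | h
  · exact absurd h.symm hab
  · refine ⟨F a.1 (par k a.2) (par k b.2), pt_max k a b _ (par_nonneg k _) (par_le k _)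
      (Ne.symm hne), ?_⟩
    intro z hz
    obtain ⟨c, rfl⟩ := mem_S.1 hz
    refine ⟨pt_min k a b c h, ?_⟩
    by_cases hca : c = a
    · rw [hca]
    · exact (pt_max k a c _ (par_nonneg k _) (par_le k _) hca).le
  · -- a.1 = b.1 + 1
    have h' : a.1 = b.1 + 1 := by
      rw [h]
      have : ∀ j : Fin 3, j = j + 2 + 1 := by decide
      exact this _
    refine ⟨-F b.1 (par k b.2) (par k a.2), ?_, ?_⟩
    · simp only [LinearMap.neg_apply, neg_lt_neg_iff]
      exact pt_max k b a _ (par_nonneg k _) (par_le k _) hne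
    · intro z hz
      obtain ⟨c, rfl⟩ := mem_S.1 hz
      simp only [LinearMap.neg_apply, neg_le_neg_iff]
      refine ⟨?_, pt_min k b a c h'⟩
      by_cases hcb : c = b
      · rw [hcb]
      · exact (pt_max k b c _ (par_nonneg k _) (par_le k _) hcb).le

theorem anti_ge (k : ℕ) : 6 * k ^ 2 ≤ (anti (S k)).ncard := by
  classical
  set D : Finset ((Fin 3 × Fin 3) × (Fin k × Fin k)) :=
    (Finset.univ.filter (fun q : Fin 3 × Fin 3 => q.1 ≠ q.2)) ×ˢ Finset.univ with hD
  have hcard : D.card = 6 * k ^ 2 := by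
    rw [hD, Finset.card_product]
    have h6 : (Finset.univ.filter (fun q : Fin 3 × Fin 3 => q.1 ≠ q.2)).card = 6 := by decide
    rw [h6]
    simp [sq]
  set g : (Fin 3 × Fin 3) × (Fin k × Fin k) →
      EuclideanSpace ℝ (Fin 3) × EuclideanSpace ℝ (Fin 3) :=
    fun q => (pt k (q.1.1, q.2.1), pt k (q.1.2, q.2.2)) with hg
  have hginj : Function.Injective g := by
    intro q q' h
    simp only [hg, Prod.mk.injEq] at h
    have h1 := pt_inj k h.1
    have h2 := pt_inj k h.2
    simp only [Prod.mk.injEq] at h1 h2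
    ext <;> simp [h1, h2]
  have himg : ((D.image g : Finset _) : Set _) ⊆ anti (S k) := by
    intro p hp
    simp only [Finset.coe_image, Set.mem_image, Finset.mem_coe] at hp
    obtain ⟨q, hq, rfl⟩ := hp
    apply pair_anti
    simp only [hD, Finset.mem_product, Finset.mem_filter, Finset.mem_univ, true_and,
      and_true] at hq
    exact hq
  have := Set.ncard_le_ncard himg (anti_finite _)
  rw [Set.ncard_coe_finset, Finset.card_image_of_injective _ hginj, hcard] at this
  exact this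

/-- The negation of the preceding statement: For every d ≥ 2, let e(d,n) be the max number of antipodal vertex pairs of a d-polytope with n vertices (vertices on distinct parallel supporting hyperplanes); then e(d,n)/n² tends to 1/2 − 1/2^(d−1). -/
theorem result :
    ¬ (∀ d : ℕ, 2 ≤ d →
      Filter.Tendsto
        (fun n : ℕ =>
          ((sSup {m : ℕ | ∃ S : Finset (EuclideanSpace ℝ (Fin d)),
              S.card = n ∧
              affineSpan ℝ (S : Set (EuclideanSpace ℝ (Fin d))) = ⊤ ∧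
              (∀ x ∈ S, x ∈ Set.extremePoints ℝ
                (convexHull ℝ (S : Set (EuclideanSpace ℝ (Fin d))))) ∧
              m = {p : EuclideanSpace ℝ (Fin d) × EuclideanSpace ℝ (Fin d) |
                    p.1 ∈ S ∧ p.2 ∈ S ∧ p.1 ≠ p.2 ∧
                    ∃ f : EuclideanSpace ℝ (Fin d) →ₗ[ℝ] ℝ,
                      f p.2 < f p.1 ∧ ∀ z ∈ S, f p.2 ≤ f z ∧ f z ≤ f p.1}.ncard}
            : ℕ) : ℝ) / 2 / (n : ℝ) ^ 2)
        Filter.atTop
        (nhds ((1 : ℝ) / 2 - 1 / 2 ^ (d - 1)))) := by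
  intro h
  have h3 := h 3 (by norm_num)
  set e : ℕ → ℕ := fun n => sSup {m : ℕ | ∃ S : Finset (EuclideanSpace ℝ (Fin 3)),
              S.card = n ∧
              affineSpan ℝ (S : Set (EuclideanSpace ℝ (Fin 3))) = ⊤ ∧
              (∀ x ∈ S, x ∈ Set.extremePoints ℝ
                (convexHull ℝ (S : Set (EuclideanSpace ℝ (Fin 3))))) ∧
              m = {p : EuclideanSpace ℝ (Fin 3) × EuclideanSpace ℝ (Fin 3) |
                    p.1 ∈ S ∧ p.2 ∈ S ∧ p.1 ≠ p.2 ∧
                    ∃ f : EuclideanSpace ℝ (Fin 3) →ₗ[ℝ] ℝ,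
                      f p.2 < f p.1 ∧ ∀ z ∈ S, f p.2 ≤ f z ∧ f z ≤ f p.1}.ncard} with he
  have hlim : (1 : ℝ) / 2 - 1 / 2 ^ (3 - 1) < 3 / 10 := by norm_num
  have hev := h3.eventually (gt_mem_nhds hlim)
  rw [Filter.eventually_atTop] at hev
  obtain ⟨N, hN⟩ := hev
  set k := N + 2 with hk
  have hbig := hN (3 * k) (by omega)
  have hge : 6 * k ^ 2 ≤ e (3 * k) := by
    refine le_trans (anti_ge k) ?_
    refine le_csSup ?_ ?_
    · refine ⟨(3 * k) * (3 * k), ?_⟩
      rintro m ⟨T, hT, _, _, rfl⟩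
      have := anti_le T
      rw [hT] at this
      exact this
    · exact ⟨S k, card_S k, affspan k (by omega), extreme k, rfl⟩
  have hge' : (6 * (k : ℝ) ^ 2) ≤ (e (3 * k) : ℝ) := by exact_mod_cast hge
  have hk0 : (0 : ℝ) < k := by
    have : 0 < k := by omega
    exact_mod_cast this
  have h1 : (1 : ℝ) / 3 ≤ (e (3 * k) : ℝ) / 2 / ((3 * k : ℕ) : ℝ) ^ 2 := by
    rw [le_div_iff₀ (by push_cast; positivity)]
    push_cast
    nlinarith
  have h2 : (e (3 * k) : ℝ) / 2 / ((3 * k : ℕ) : ℝ) ^ 2 < 3 / 10 := hbig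
  linarith

end Pool.Agent.S12654
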