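import Pool.Statements.S12678
import Pool.Agent.H250R3.Fin

set_option autoImplicit false
open Pool Pool.MP_034e58_gt

namespace Pool.Agent.S12678

/-- The negation of the preceding statement: In every connected, separable, Hausdorff space locally homeomorphic to Euclidean n-space, each nonempty open set is homeomorphic to some open set that is dense in the whole space. -/
theorem result :
    ¬ (∀ (n : ℕ) (M : Type) [TopologicalSpace M]
      [ChartedSpace (EuclideanSpace ℝ (Fin n)) M]
      [T2Space M] [ConnectedSpace M] [TopologicalSpace.SeparableSpace M],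
      ∀ U : Set M, IsOpen U → U.Nonempty →
        ∃ V : Set M, IsOpen V ∧ Dense V ∧ Nonempty (U ≃ₜ V)) := by
  intro h
  obtain ⟨M, i1, i2, h1, h2, h3, U, hU, hne, hV⟩ := Pool.Agent.H250R3.counterexample
  obtain ⟨V, hVo, hVd, hh⟩ := h 2 M U hU hne
  exact hV V hVo hVd hh

end Pool.Agent.S12678
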