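import Pool.Statements.S12717
import Pool.Agent.H48R3.CP.Limit
import Pool.Agent.H48R3.CP.Upper

set_option autoImplicit false
open MeasureTheory
open Pool Pool.MP_08f2bd_gt

namespace Pool.Agent.S12717

/-- There is ε>0 such that for every d≥1 and every λ within ε of 1/2, the least relative perimeter, defined distributionally, of a measurable subset of the open unit d-cube with volume λ is exactly 1. -/
theorem result :
    ∃ ε : ℝ, 0 < ε ∧ ∀ d : ℕ, 1 ≤ d → ∀ t : ℝ, 1 / 2 - ε ≤ t → t ≤ 1 / 2 + ε →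
      (∀ E : Set (Fin d → ℝ), MeasurableSet E →
          E ⊆ {x : Fin d → ℝ | ∀ i, 0 < x i ∧ x i < 1} →
          volume E = ENNReal.ofReal t →
          ∀ r : ℝ, r < 1 →
            ∃ φ : (Fin d → ℝ) → (Fin d → ℝ),
              ContDiff ℝ 1 φ ∧ HasCompactSupport φ ∧
              tsupport φ ⊆ {x : Fin d → ℝ | ∀ i, 0 < x i ∧ x i < 1} ∧
              (∀ x, ∑ i, (φ x i) ^ 2 ≤ 1) ∧
              r < ∫ x in E, (∑ i, fderiv ℝ (fun y => φ y i) x (Pi.single i (1 : ℝ) : Fin d → ℝ))) ∧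
      (∃ E : Set (Fin d → ℝ), MeasurableSet E ∧
          E ⊆ {x : Fin d → ℝ | ∀ i, 0 < x i ∧ x i < 1} ∧
          volume E = ENNReal.ofReal t ∧
          ∀ φ : (Fin d → ℝ) → (Fin d → ℝ),
            ContDiff ℝ 1 φ → HasCompactSupport φ →
            tsupport φ ⊆ {x : Fin d → ℝ | ∀ i, 0 < x i ∧ x i < 1} →
            (∀ x, ∑ i, (φ x i) ^ 2 ≤ 1) →
            ∫ x in E, (∑ i, fderiv ℝ (fun y => φ y i) x (Pi.single i (1 : ℝ) : Fin d → ℝ)) ≤ 1) := by
  refine ⟨1 / 1000, by norm_num, ?_⟩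
  intro d hd t ht0 ht1
  have hs : (H48R3.CP.s0 : ℝ) = 499 / 1000 := rfl
  constructor
  · intro E hE hEU hvol r hr
    exact H48R3.CP.lower E hE hEU t hvol (by rw [hs]; linarith) (by rw [hs]; linarith) r hr
  · obtain ⟨n, rfl⟩ : ∃ n, d = n + 1 := ⟨d - 1, by omega⟩
    exact H48R3.CP.upper n t (by linarith) (by linarith)

end Pool.Agent.S12717
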