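import Pool.Statements.S12719
import Pool.Agent.H60R3.SubInf

set_option autoImplicit false
open Pool Pool.MP_09a6d0_gt

namespace Pool.Agent.S12719

/-- Every T1 space with a base in which each infinite subfamily with nonempty intersection has two distinct members, one contained in the other, is metacompact: every open cover has an open refinement with each point in only finitely many members. -/
theorem result :
    ∀ (X : Type) [TopologicalSpace X] [T1Space X] (B : Set (Set X)),
      TopologicalSpace.IsTopologicalBasis B →
      (∀ L : Set (Set X), L ⊆ B → L.Infinite → (⋂₀ L).Nonempty →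
        ∃ A ∈ L, ∃ C ∈ L, A ≠ C ∧ A ⊆ C) →
      ∀ U : Set (Set X), (∀ u ∈ U, IsOpen u) → ⋃₀ U = Set.univ →
        ∃ V : Set (Set X), (∀ v ∈ V, IsOpen v) ∧ ⋃₀ V = Set.univ ∧
          (∀ v ∈ V, ∃ u ∈ U, v ⊆ u) ∧
          ∀ x : X, {v ∈ V | x ∈ v}.Finite := by
  intro X _ _ B hB H U hU hUc
  exact Pool.Agent.H60R3.SubInf.metacompact B hB H U hU hUc

end Pool.Agent.S12719
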