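import Pool.Statements.S12734
import Pool.Agent.H490R3.Sec.Final

set_option autoImplicit false
open scoped Pointwise
open Pool Pool.MP_0b6b0e_gt

namespace Pool.Agent.S12734

/-- The negation of the preceding statement: For all n≥2 and 1≤i≤n−1, among convex bodies in R^n with the origin inside (Hausdorff metric), those sharing all i-dimensional central section volumes with some other body L, L≠K and L≠−K, form a meagre set. -/
theorem result :
    ¬ (∀ n : ℕ, 2 ≤ n → ∀ i : ℕ, 1 ≤ i → i ≤ n - 1 →
      IsMeagre {K : {K : ConvexBody (EuclideanSpace ℝ (Fin n)) //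
                    (0 : EuclideanSpace ℝ (Fin n)) ∈
                      interior (K : Set (EuclideanSpace ℝ (Fin n)))} |
        ∃ L : ConvexBody (EuclideanSpace ℝ (Fin n)),
          (0 : EuclideanSpace ℝ (Fin n)) ∈
              interior (L : Set (EuclideanSpace ℝ (Fin n))) ∧
          (L : Set (EuclideanSpace ℝ (Fin n))) ≠
              (K.1 : Set (EuclideanSpace ℝ (Fin n))) ∧
          (L : Set (EuclideanSpace ℝ (Fin n))) ≠
              -(K.1 : Set (EuclideanSpace ℝ (Fin n))) ∧
          ∀ S : Submodule ℝ (EuclideanSpace ℝ (Fin n)), Module.finrank ℝ S = i →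
            MeasureTheory.Measure.hausdorffMeasure (i : ℝ)
                ((L : Set (EuclideanSpace ℝ (Fin n))) ∩
                  (S : Set (EuclideanSpace ℝ (Fin n)))) =
            MeasureTheory.Measure.hausdorffMeasure (i : ℝ)
                ((K.1 : Set (EuclideanSpace ℝ (Fin n))) ∩
                  (S : Set (EuclideanSpace ℝ (Fin n))))}) := by
  intro h
  have h2 := h 2 le_rfl 1 le_rfl (by norm_num)
  refine Pool.Agent.H490R3.Sec.not_meagre (h2.mono ?_)
  rintro K ⟨L, hL0, hL1, hL2, hL3⟩
  refine ⟨L, hL0, hL1, hL2, ?_⟩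
  intro S hS
  obtain ⟨v, hv0, hv⟩ := finrank_eq_one_iff'.mp hS
  have hspan : S = Submodule.span ℝ {(v : EuclideanSpace ℝ (Fin 2))} := by
    apply le_antisymm
    · intro w hw
      obtain ⟨c, hc⟩ := hv ⟨w, hw⟩
      rw [Submodule.mem_span_singleton]
      exact ⟨c, by simpa using congrArg Subtype.val hc⟩
    · rw [Submodule.span_singleton_le_iff_mem]
      exact v.2
  have hne : (v : EuclideanSpace ℝ (Fin 2)) ≠ 0 := fun h => hv0 (Subtype.ext h)
  rw [hspan, Nat.cast_one]
  exact hL3 _ hne

end Pool.Agent.S12734
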