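import Pool.Statements.S12767
import Pool.Agent.H262.LS5

set_option autoImplicit false
open Pool Pool.MP_11262c_gt

namespace Pool.Agent.S12767

/-- Every Lindelöf scattered space that embeds into C_p(K) (pointwise topology) for some compact Hausdorff K is a countable union of subspaces each discrete in its own subspace topology. -/
theorem result :
    ∀ (X : Type) [TopologicalSpace X],
      (∃ (K : Type) (_ : TopologicalSpace K), CompactSpace K ∧ T2Space K ∧
        ∃ f : X → (K → ℝ), Topology.IsEmbedding f ∧ ∀ x, Continuous (f x)) →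
      LindelofSpace X →
      (∀ S : Set X, S.Nonempty → ∃ x ∈ S, ∃ U : Set X, IsOpen U ∧ U ∩ S = {x}) →
      ∃ D : ℕ → Set X, (⋃ n, D n) = Set.univ ∧ ∀ n, DiscreteTopology (D n) := by
  classical
  intro X _ hX hL hsc
  obtain ⟨D, hD1, hD2⟩ := Pool.H262.LS.sigma_discrete X hX hL hsc
  refine ⟨D, hD1, ?_⟩
  intro n
  rw [discreteTopology_iff_isOpen_singleton]
  rintro ⟨x, hx⟩
  obtain ⟨U, hU, hUx⟩ := hD2 n x hx
  have h1 : IsOpen ((Subtype.val : D n → X) ⁻¹' U) := hU.preimage continuous_subtype_val
  have h2 : ((Subtype.val : D n → X) ⁻¹' U) = {⟨x, hx⟩} := by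
    ext ⟨y, hy⟩
    constructor
    · intro h
      have h3 : y ∈ U ∩ D n := ⟨h, hy⟩
      rw [hUx] at h3
      exact Subtype.ext h3
    · intro h
      have h3 : y = x := congrArg Subtype.val h
      have h4 : x ∈ U ∩ D n := by rw [hUx]; rfl
      rw [← h3] at h4
      exact h4.1
  rw [← h2]
  exact h1

end Pool.Agent.S12767
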