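import Pool.Statements.S12783

set_option autoImplicit false
open Pool Pool.MP_133c96_gt

namespace Pool.Agent.S12783

open Set Topology

/-- picking points one after another -/
noncomputable def q {K : Type} (g : Set K → K) : Ordinal.{0} → K :=
  WellFounded.fix (wellFounded_lt) (fun α ih => g {x | ∀ β (h : β < α), ih β h ≠ x})

theorem q_eq {K : Type} (g : Set K → K) (α : Ordinal.{0}) :
    q g α = g {x | ∀ β, β < α → q g β ≠ x} := by
  unfold q
  rw [WellFounded.fix_eq]

/-- A scattered space has an injective ordinal rank whose initial segments are neighbourhoods. -/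
theorem exists_rank (K : Type) [TopologicalSpace K]
    (hs : ∀ S : Set K, S.Nonempty → ∃ x ∈ S, ∃ U : Set K, IsOpen U ∧ U ∩ S = {x}) :
    ∃ r : K → Ordinal.{0}, Function.Injective r ∧
      ∀ x, ∃ U : Set K, IsOpen U ∧ x ∈ U ∧ ∀ y ∈ U, r y ≤ r x := by
  classical
  rcases isEmpty_or_nonempty K with hK | hK
  · exact ⟨fun _ => 0, fun x => (hK.false x).elim, fun x => (hK.false x).elim⟩
  have : ∀ S : Set K, ∃ x, S.Nonempty → (x ∈ S ∧ ∃ U : Set K, IsOpen U ∧ U ∩ S = {x}) := by
    intro S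
    by_cases h : S.Nonempty
    · obtain ⟨x, hx, U, hU⟩ := hs S h
      exact ⟨x, fun _ => ⟨hx, U, hU⟩⟩
    · exact ⟨hK.some, fun h' => absurd h' h⟩
  choose g hg using this
  have hne : ∀ a b, a < b → ({x | ∀ β, β < b → q g β ≠ x} : Set K).Nonempty →
      q g a ≠ q g b := by
    intro a b hab hb
    have h1 := (hg _ hb).1
    rw [← q_eq g b] at h1
    exact h1 a hab
  have hex : ∃ α, ¬ ({x | ∀ β, β < α → q g β ≠ x} : Set K).Nonempty := by
    by_contra hcon
    push Not at hcon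
    apply not_injective_of_ordinal (q g)
    intro a b hab
    rcases lt_trichotomy a b with h | h | h
    · exact absurd hab (hne a b h (hcon b))
    · exact h
    · exact absurd hab.symm (hne b a h (hcon a))
  obtain ⟨α₀, hα₀, hmin⟩ := WellFounded.has_min (wellFounded_lt (α := Ordinal.{0}))
    {α | ¬ ({x | ∀ β, β < α → q g β ≠ x} : Set K).Nonempty} hex
  have hlt : ∀ α, α < α₀ → ({x | ∀ β, β < α → q g β ≠ x} : Set K).Nonempty := by
    intro α hα
    by_contra h
    exact hmin α h hα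
  have hsurj : ∀ x : K, ∃ β, β < α₀ ∧ q g β = x := by
    intro x
    by_contra hcon
    push Not at hcon
    exact hα₀ ⟨x, hcon⟩
  choose r hr hqr using hsurj
  refine ⟨r, fun x y hxy => ?_, fun x => ?_⟩
  · rw [← hqr x, ← hqr y, hxy]
  · obtain ⟨h1, U, hU, hUS⟩ := hg _ (hlt (r x) (hr x))
    rw [← q_eq g (r x), hqr x] at hUS h1
    refine ⟨U, hU, ?_, fun y hy => ?_⟩
    · have : x ∈ U ∩ {z | ∀ β, β < r x → q g β ≠ z} := by rw [hUS]; rfl
      exact this.1
    · by_contra hlt'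
      push Not at hlt'
      have : y ∈ U ∩ {z | ∀ β, β < r x → q g β ≠ z} := by
        refine ⟨hy, fun β hβ hq => ?_⟩
        have h3 : q g (r y) = q g β := by rw [hqr, hq]
        exact hne β (r y) (hβ.trans hlt') (hlt _ (hr y)) h3.symm
      rw [hUS] at this
      rw [this] at hlt'
      exact lt_irrefl _ hlt'

/-- In a compact set the rank attains its maximum. -/
theorem exists_max {K : Type} [TopologicalSpace K] (r : K → Ordinal.{0})
    (hr : ∀ x, ∃ U : Set K, IsOpen U ∧ x ∈ U ∧ ∀ y ∈ U, r y ≤ r x)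
    (b : Set K) (hb : IsCompact b) (hne : b.Nonempty) : ∃ x ∈ b, ∀ y ∈ b, r y ≤ r x := by
  have hopen : ∀ z, IsOpen {y | r y ≤ r z} := by
    intro z
    rw [isOpen_iff_forall_mem_open]
    intro x hx
    obtain ⟨U, hU, hxU, h⟩ := hr x
    exact ⟨U, fun y hy => (h y hy).trans hx, hU, hxU⟩
  have : Nonempty b := hne.to_subtype
  obtain ⟨z, hz⟩ := hb.elim_directed_cover (fun z : b => {y | r y ≤ r z.1})
    (fun z => hopen z.1) (fun x hx => mem_iUnion.2 ⟨⟨x, hx⟩, le_refl (r x)⟩) (by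
      intro z w
      rcases le_total (r z.1) (r w.1) with h | h
      · exact ⟨w, fun y hy => le_trans hy h, fun y hy => hy⟩
      · exact ⟨z, fun y hy => hy, fun y hy => le_trans hy h⟩)
  exact ⟨z.1, z.2, fun y hy => hz hy⟩

/-- scattered Hausdorff spaces are totally disconnected -/
theorem totallyDisconnected (K : Type) [TopologicalSpace K] [T2Space K]
    (hs : ∀ S : Set K, S.Nonempty → ∃ x ∈ S, ∃ U : Set K, IsOpen U ∧ U ∩ S = {x}) :
    TotallyDisconnectedSpace K := by
  refine ⟨fun S _ hS => ?_⟩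
  rcases S.eq_empty_or_nonempty with h | h
  · rw [h]; exact subsingleton_empty
  obtain ⟨x, hx, U, hU, hUS⟩ := hs S h
  by_contra hns
  rw [not_subsingleton_iff] at hns
  obtain ⟨y, hy, hyx⟩ := hns.exists_ne x
  have h1 : ({x}ᶜ : Set K) ∩ S ⊆ ({x}ᶜ : Set K) := inter_subset_left
  obtain ⟨z, hzS, hzU, hzx⟩ := hS U {x}ᶜ hU isOpen_compl_singleton
    (fun z hz => by
      by_cases h : z = x
      · left; rw [h]
        have : x ∈ U ∩ S := by rw [hUS]; rfl
        exact this.1
      · right; exact h)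
    ⟨x, hx, by
      have : x ∈ U ∩ S := by rw [hUS]; rfl
      exact this.1⟩ ⟨y, hy, hyx⟩
  have : z ∈ U ∩ S := ⟨hzU, hzS⟩
  rw [hUS] at this
  exact hzx this

section closing

variable {K : Type}

/-- countable closing off of a family of sets under intersections, complements and a countable
family of operations applied to tuples of distinguished points -/
def stage (mx : Set K → K) (β : (n : ℕ) → (Fin n → K) → Fin n → ℕ → Set K) : ℕ → Set (Set K)
  | 0 => {univ}
  | m + 1 => stage mx β m ∪ image2 (· ∩ ·) (stage mx β m) (stage mx β m) ∪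
      compl '' (stage mx β m) ∪
      range (fun p : (Σ n : ℕ, (Fin n → (mx '' (stage mx β m) : Set K)) × Fin n × ℕ) =>
        β p.1 (fun i => (p.2.1 i).1) p.2.2.1 p.2.2.2)

theorem stage_countable (mx : Set K → K) (β : (n : ℕ) → (Fin n → K) → Fin n → ℕ → Set K)
    (m : ℕ) : (stage mx β m).Countable := by
  induction m with
  | zero => exact countable_singleton _
  | succ m ih =>
    have h1 : (mx '' (stage mx β m)).Countable := ih.image _
    have : Countable (mx '' (stage mx β m) : Set K) := h1.to_subtype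
    exact ((ih.union (ih.image2 ih _)).union (ih.image _)).union (countable_range _)

theorem stage_mono (mx : Set K → K) (β : (n : ℕ) → (Fin n → K) → Fin n → ℕ → Set K) :
    Monotone (stage mx β) := by
  apply monotone_nat_of_le_succ
  intro m b hb
  exact Or.inl (Or.inl (Or.inl hb))

end closing

/-- open sets of the modification contain countable intersections of clopen sets -/
theorem nhds_basis {K X : Type} [TopologicalSpace K] [CompactSpace K] [T2Space K]
    [TotallyDisconnectedSpace K] (e : X ≃ K) (V : Set X)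
    (hV : TopologicalSpace.GenerateOpen
      {S : Set X | ∃ U : ℕ → Set K, (∀ n, IsOpen (U n)) ∧ S = e ⁻¹' (⋂ n, U n)} V) :
    ∀ x ∈ V, ∃ C : ℕ → Set K, (∀ n, IsClopen (C n)) ∧ (∀ n, e x ∈ C n) ∧
      ∀ y : X, (∀ n, e y ∈ C n) → y ∈ V := by
  induction hV with
  | basic S hS =>
    obtain ⟨U, hU, rfl⟩ := hS
    intro x hx
    have hx' : ∀ n, e x ∈ U n := by simpa using hx
    have : ∀ n, ∃ C : Set K, IsClopen C ∧ e x ∈ C ∧ C ⊆ U n := by
      intro n
      obtain ⟨C, hC, hxC, hCU⟩ := compact_exists_isClopen_in_isOpen (hU n) (hx' n)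
      exact ⟨C, hC, hxC, hCU⟩
    choose C hC hxC hCU using this
    exact ⟨C, hC, hxC, fun y hy => mem_iInter.2 fun n => hCU n (hy n)⟩
  | univ =>
    intro x _
    exact ⟨fun _ => univ, fun _ => isClopen_univ, fun _ => mem_univ _, fun _ _ => mem_univ _⟩
  | inter S T _ _ ihS ihT =>
    intro x hx
    obtain ⟨C, hC, hxC, hCS⟩ := ihS x hx.1
    obtain ⟨D, hD, hxD, hDT⟩ := ihT x hx.2
    exact ⟨fun n => C n ∩ D n, fun n => (hC n).inter (hD n), fun n => ⟨hxC n, hxD n⟩,
      fun y hy => ⟨hCS y fun n => (hy n).1, hDT y fun n => (hy n).2⟩⟩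
  | sUnion 𝒮 _ ih =>
    rintro x ⟨S, hS, hxS⟩
    obtain ⟨C, hC, hxC, hCS⟩ := ih S hS x hxS
    exact ⟨C, hC, hxC, fun y hy => ⟨S, hS, hCS y hy⟩⟩

/-- For every scattered compact Hausdorff K, its ω-modification (same set, topology generated by Gδ sets) is Sokolov: for closed F_n ⊆ X^n there is a continuous f: X→X with countable-network image and f^n(F_n) ⊆ F_n for all n. -/
theorem result :
    ∀ (K : Type) [TopologicalSpace K] [CompactSpace K] [T2Space K]
      (X : Type) [tX : TopologicalSpace X] (e : X ≃ K),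
      (∀ S : Set K, S.Nonempty → ∃ x ∈ S, ∃ U : Set K, IsOpen U ∧ U ∩ S = {x}) →
      tX = TopologicalSpace.generateFrom
        {S : Set X | ∃ U : ℕ → Set K, (∀ n, IsOpen (U n)) ∧ S = e ⁻¹' (⋂ n, U n)} →
      ∀ F : (n : ℕ) → Set (Fin n → X), (∀ n, IsClosed (F n)) →
        ∃ f : X → X, Continuous f ∧
          (∃ N : Set (Set X), N.Countable ∧
            ∀ x ∈ Set.range f, ∀ U : Set X, IsOpen U → x ∈ U →
              ∃ A ∈ N, x ∈ A ∧ A ⊆ Set.range f ∩ U) ∧
          ∀ n : ℕ, ∀ x ∈ F n, (fun i => f (x i)) ∈ F n := by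
  intro K _ _ _ X tX e hs htX F hF
  classical
  rcases isEmpty_or_nonempty K with hKe | hKne
  · have : IsEmpty X := e.isEmpty
    refine ⟨id, continuous_id, ⟨∅, countable_empty, fun x => (this.false x).elim⟩, fun n x hx => hx⟩
  have hTD := totallyDisconnected K hs
  obtain ⟨r, hrinj, hr⟩ := exists_rank K hs
  -- maximum points
  have hmx : ∀ b : Set K, ∃ x : K, IsClopen b → b.Nonempty → (x ∈ b ∧ ∀ y ∈ b, r y ≤ r x) := by
    intro b
    by_cases hb : IsClopen b ∧ b.Nonempty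
    · obtain ⟨x, hx, h⟩ := exists_max r hr b hb.1.1.isCompact hb.2
      exact ⟨x, fun _ _ => ⟨hx, h⟩⟩
    · exact ⟨hKne.some, fun h1 h2 => absurd ⟨h1, h2⟩ hb⟩
  choose mx hmx using hmx
  -- separating tuples from the closed sets
  have hβ : ∀ (n : ℕ) (γ : Fin n → K), ∃ C : Fin n → ℕ → Set K, (∀ i k, IsClopen (C i k)) ∧
      ((fun i => e.symm (γ i)) ∉ F n → (∀ i k, γ i ∈ C i k) ∧
        ∀ x : Fin n → X, (∀ i k, e (x i) ∈ C i k) → x ∉ F n) := by
    intro n γ
    by_cases hγ : (fun i => e.symm (γ i)) ∈ F n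
    · exact ⟨fun _ _ => univ, fun _ _ => isClopen_univ, fun h => absurd hγ h⟩
    · have hop : IsOpen ((F n)ᶜ) := (hF n).isOpen_compl
      rw [isOpen_pi_iff] at hop
      obtain ⟨I, u, hu, huF⟩ := hop (fun i => e.symm (γ i)) hγ
      have h1 : ∀ i : Fin n, ∃ C : ℕ → Set K, (∀ k, IsClopen (C k)) ∧ (∀ k, γ i ∈ C k) ∧
          (i ∈ I → ∀ y : X, (∀ k, e y ∈ C k) → y ∈ u i) := by
        intro i
        by_cases hi : i ∈ I
        · have ho : TopologicalSpace.GenerateOpen
            {S : Set X | ∃ U : ℕ → Set K, (∀ n, IsOpen (U n)) ∧ S = e ⁻¹' (⋂ n, U n)} (u i) := by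
            have := (hu i hi).1
            rw [htX] at this
            exact this
          obtain ⟨C, hC, hxC, hCV⟩ := nhds_basis e (u i) ho _ (hu i hi).2
          refine ⟨C, hC, fun k => by simpa using hxC k, fun _ => hCV⟩
        · exact ⟨fun _ => univ, fun _ => isClopen_univ, fun _ => mem_univ _, fun h => absurd h hi⟩
      choose C hC hγC hCu using h1
      refine ⟨C, hC, fun _ => ⟨hγC, fun x hx hxF => ?_⟩⟩
      exact huF (fun i hi => hCu i hi (x i) (hx i)) hxF
  choose β hβcl hβ using hβ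
  set B : Set (Set K) := ⋃ m, stage mx β m with hB
  have hBc : B.Countable := countable_iUnion fun m => stage_countable mx β m
  have hmono := stage_mono mx β
  have hclopen : ∀ m, ∀ b ∈ stage mx β m, IsClopen b := by
    intro m
    induction m with
    | zero => intro b hb; rw [show b = univ from hb]; exact isClopen_univ
    | succ m ih =>
      rintro b (((hb | hb) | hb) | hb)
      · exact ih b hb
      · obtain ⟨c, hc, d, hd, rfl⟩ := hb
        exact (ih c hc).inter (ih d hd)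
      · obtain ⟨c, hc, rfl⟩ := hb
        exact (ih c hc).compl
      · obtain ⟨p, rfl⟩ := hb
        exact hβcl _ _ _ _
  have hBcl : ∀ b ∈ B, IsClopen b := by
    intro b hb
    obtain ⟨m, hm⟩ := mem_iUnion.1 hb
    exact hclopen m b hm
  have hBuniv : (univ : Set K) ∈ B := mem_iUnion.2 ⟨0, rfl⟩
  have hBinter : ∀ b ∈ B, ∀ c ∈ B, b ∩ c ∈ B := by
    intro b hb c hc
    obtain ⟨m, hm⟩ := mem_iUnion.1 hb
    obtain ⟨l, hl⟩ := mem_iUnion.1 hc
    refine mem_iUnion.2 ⟨max m l + 1, Or.inl (Or.inl (Or.inr ⟨b, ?_, c, ?_, rfl⟩))⟩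
    · exact hmono (le_max_left _ _) hm
    · exact hmono (le_max_right _ _) hl
  have hBcompl : ∀ b ∈ B, bᶜ ∈ B := by
    intro b hb
    obtain ⟨m, hm⟩ := mem_iUnion.1 hb
    exact mem_iUnion.2 ⟨m + 1, Or.inl (Or.inr ⟨b, hm, rfl⟩)⟩
  have hBβ : ∀ (n : ℕ) (γ : Fin n → K), (∀ i, γ i ∈ mx '' B) → ∀ i k, β n γ i k ∈ B := by
    intro n γ hγ i k
    have h1 : ∀ i, ∃ m, γ i ∈ mx '' (stage mx β m) := by
      intro i
      obtain ⟨b, hb, hbi⟩ := hγ i
      obtain ⟨m, hm⟩ := mem_iUnion.1 hb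
      exact ⟨m, b, hm, hbi⟩
    choose m hm using h1
    obtain ⟨M, hM⟩ : ∃ M, ∀ i, m i ≤ M := ⟨Finset.univ.sup m, fun i => Finset.le_sup (Finset.mem_univ i)⟩
    refine mem_iUnion.2 ⟨M + 1, Or.inr ⟨⟨n, fun i => ⟨γ i, ?_⟩, i, k⟩, rfl⟩⟩
    exact image_mono (hmono (hM i)) (hm i)
  -- every point is equivalent to a distinguished point
  have hrep : ∀ x : K, ∃ γ ∈ mx '' {b ∈ B | b.Nonempty}, ∀ b ∈ B, (x ∈ b ↔ γ ∈ b) := by
    intro x
    have hne : (r '' (mx '' {b ∈ B | x ∈ b})).Nonempty :=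
      ⟨_, _, ⟨univ, ⟨hBuniv, mem_univ _⟩, rfl⟩, rfl⟩
    obtain ⟨α, hα, hmin⟩ := WellFounded.has_min (wellFounded_lt (α := Ordinal.{0})) _ hne
    obtain ⟨γ, ⟨b, ⟨hbB, hxb⟩, rfl⟩, rfl⟩ := hα
    have hmin' : ∀ c ∈ B, x ∈ c → r (mx b) ≤ r (mx c) := by
      intro c hc hxc
      exact not_lt.1 (hmin _ ⟨mx c, ⟨c, ⟨hc, hxc⟩, rfl⟩, rfl⟩)
    have key : ∀ c ∈ B, x ∈ c → mx b ∈ c := by
      intro c hc hxc
      have h1 := hBinter b hbB c hc
      have h2 := hmx (b ∩ c) (hBcl _ h1) ⟨x, hxb, hxc⟩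
      have h3 := hmx b (hBcl _ hbB) ⟨x, hxb⟩
      have h4 := hmin' (b ∩ c) h1 ⟨hxb, hxc⟩
      have h5 := h3.2 _ h2.1.1
      have h6 : mx b = mx (b ∩ c) := hrinj (le_antisymm h4 h5)
      rw [h6]
      exact h2.1.2
    refine ⟨mx b, ⟨b, ⟨hbB, ⟨x, hxb⟩⟩, rfl⟩, fun c hc => ⟨key c hc, fun h => ?_⟩⟩
    by_contra hxc
    exact key cᶜ (hBcompl c hc) hxc h
  choose ρ hρM hρ using hrep
  have huniq : ∀ γ ∈ mx '' {b ∈ B | b.Nonempty}, ∀ γ' ∈ mx '' {b ∈ B | b.Nonempty},
      (∀ b ∈ B, (γ ∈ b ↔ γ' ∈ b)) → γ = γ' := by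
    rintro _ ⟨b, ⟨hb, hbne⟩, rfl⟩ _ ⟨c, ⟨hc, hcne⟩, rfl⟩ h
    have h1 := hmx b (hBcl b hb) hbne
    have h2 := hmx c (hBcl c hc) hcne
    exact hrinj (le_antisymm (h2.2 _ ((h c hc).2 h2.1)) (h1.2 _ ((h b hb).1 h1.1)))
  refine ⟨fun x => e.symm (ρ (e x)), ?_, ?_, ?_⟩
  · -- continuity
    obtain ⟨g, hg⟩ := hBc.exists_eq_range ⟨univ, hBuniv⟩
    rw [continuous_iff_continuousAt]
    intro x
    have hop : IsOpen {y : X | ∀ b ∈ B, (e y ∈ b ↔ e x ∈ b)} := by
      rw [htX]
      apply TopologicalSpace.GenerateOpen.basic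
      refine ⟨fun n => if e x ∈ g n then g n else (g n)ᶜ, fun n => ?_, ?_⟩
      · have hgn : IsClopen (g n) := hBcl _ (by rw [hg]; exact mem_range_self n)
        dsimp only
        split_ifs
        · exact hgn.2
        · exact hgn.compl.2
      · ext y
        simp only [mem_ofPred_eq, mem_preimage, mem_iInter]
        constructor
        · intro h n
          have h1 := h (g n) (by rw [hg]; exact mem_range_self n)
          split_ifs with h2
          · exact h1.2 h2
          · exact fun h3 => h2 (h1.1 h3)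
        · intro h b hb
          rw [hg] at hb
          obtain ⟨n, rfl⟩ := hb
          have h1 := h n
          split_ifs at h1 with h2
          · exact ⟨fun _ => h2, fun _ => h1⟩
          · exact ⟨fun h3 => absurd h3 h1, fun h3 => absurd h3 h2⟩
    have hev : (fun y => e.symm (ρ (e y))) =ᶠ[𝓝 x] fun _ => e.symm (ρ (e x)) := by
      filter_upwards [hop.mem_nhds (fun b _ => Iff.rfl)] with y hy
      congr 1
      apply huniq _ (hρM _) _ (hρM _)
      intro b hb
      rw [← hρ (e y) b hb, ← hρ (e x) b hb]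
      exact hy b hb
    exact (continuousAt_const (y := e.symm (ρ (e x)))).congr hev.symm
  · -- countable network
    have hc : (range fun x => e.symm (ρ (e x))).Countable := by
      have h1 : (mx '' {b ∈ B | b.Nonempty}).Countable :=
        (hBc.mono (fun b hb => hb.1)).image _
      refine (h1.image e.symm).mono ?_
      rintro _ ⟨x, rfl⟩
      exact ⟨_, hρM _, rfl⟩
    refine ⟨(fun y => {y}) '' (range fun x => e.symm (ρ (e x))), hc.image _, ?_⟩
    intro x hx U _ hxU
    exact ⟨{x}, ⟨x, hx, rfl⟩, rfl, by rintro y rfl; exact ⟨hx, hxU⟩⟩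
  · -- invariance
    intro n x hx
    by_contra hcon
    have h1 := hβ n (fun i => ρ (e (x i))) hcon
    have h2 : ∀ i, ρ (e (x i)) ∈ mx '' B := by
      intro i
      obtain ⟨b, hb, h⟩ := hρM (e (x i))
      exact ⟨b, hb.1, h⟩
    refine h1.2 x (fun i k => ?_) hx
    have h3 := hBβ n (fun i => ρ (e (x i))) h2 i k
    exact (hρ (e (x i)) _ h3).2 (h1.1 i k)

end Pool.Agent.S12783
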