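import Pool.Statements.S12883
import Pool.Agent.H712R3.ChordD

set_option autoImplicit false
open Pool Pool.MP_223099_gt

namespace Pool.Agent.S12883

open Pool.Agent.H712R3.Chord

/-- For every convex n-gon, the sum over sides of side length divided by the longest chord parallel to that side is at least 3. Equality holds only when the polygon is a triangle with its three corners cut off at the same ratio t in [0,1/2], by lines parallel to the opposite sides. -/
theorem result :
    ∀ n : ℕ, 3 ≤ n → ∀ v : Fin n → ℝ × ℝ,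
      (∀ i j : Fin n, j ≠ i → j ≠ finRotate n i →
        0 < ((v (finRotate n i)).1 - (v i).1) * ((v j).2 - (v i).2)
            - ((v (finRotate n i)).2 - (v i).2) * ((v j).1 - (v i).1)) →
      ∀ b : Fin n → ℝ,
        (∀ i : Fin n, b i = sSup {r : ℝ | ∃ x ∈ convexHull ℝ (Set.range v),
            ∃ y ∈ convexHull ℝ (Set.range v), ∃ c : ℝ,
              y - x = c • (v (finRotate n i) - v i) ∧ r = dist x y}) →
        3 ≤ ∑ i : Fin n, dist (v i) (v (finRotate n i)) / b i ∧
        (∑ i : Fin n, dist (v i) (v (finRotate n i)) / b i = 3 →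
          ∃ A B C : ℝ × ℝ, AffineIndependent ℝ ![A, B, C] ∧
            ∃ t : ℝ, 0 ≤ t ∧ t ≤ 1 / 2 ∧
              convexHull ℝ (Set.range v) =
                convexHull ℝ ({A + t • (B - A), A + t • (C - A),
                  B + t • (A - B), B + t • (C - B),
                  C + t • (A - C), C + t • (B - C)} : Set (ℝ × ℝ))) := by
  intro n hn v hconv b hb
  obtain ⟨m, rfl⟩ : ∃ m, n = m + 1 := ⟨n - 1, by omega⟩
  have hm : 2 ≤ m := by omega
  simp only [finRotate_succ_apply] at hconv hb ⊢
  have hC : Conv v := hconv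
  set P := convexHull ℝ (Set.range v) with hP
  have hPc : IsCompact P := (Set.finite_range v).isCompact_convexHull ℝ
  have hvP : ∀ i, v i ∈ P := fun i => subset_convexHull ℝ _ ⟨i, rfl⟩
  have hpos := W_pos v hm hC
  -- the first functional, constant on the first edge
  obtain ⟨a, ha, ha01, hamin⟩ : ∃ a : ℝ × ℝ, W v a = 1 ∧ lf a (v 1) = lf a (v 0) ∧
      ∀ j, lf a (v 0) ≤ lf a (v j) := by
    have hz : (0 : Fin (m + 1)) + 1 = 1 := by simp
    set a0 : ℝ × ℝ := (-((v 1).2 - (v 0).2), (v 1).1 - (v 0).1) with ha0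
    have hne : a0 ≠ 0 := by
      intro h
      have h1 : -((v 1).2 - (v 0).2) = 0 := congrArg Prod.fst h
      have h2 : (v 1).1 - (v 0).1 = 0 := congrArg Prod.snd h
      have := hC.ne_succ hm 0
      rw [hz] at this
      exact this (Prod.ext (by linarith) (by linarith))
    have hW0 := hpos a0 hne
    refine ⟨(W v a0)⁻¹ • a0, ?_, ?_, ?_⟩
    · rw [W_smul v _ _ (inv_nonneg.2 hW0.le), inv_mul_cancel₀ hW0.ne']
    · rw [lf_smul_left, lf_smul_left]
      congr 1
      simp only [lf, ha0]; ring
    · intro j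
      rw [lf_smul_left, lf_smul_left]
      refine mul_le_mul_of_nonneg_left ?_ (inv_nonneg.2 hW0.le)
      by_cases hj0 : j = 0
      · rw [hj0]
      by_cases hj1 : j = 1
      · rw [hj1]
        apply le_of_eq
        simp only [lf, ha0]; ring
      · have := hC 0 j hj0 (by rw [hz]; exact hj1)
        rw [hz] at this
        simp only [lf, ha0]
        linarith
  obtain ⟨c, hc, hac, hdet⟩ := exists_hex v hpos a ha
  obtain ⟨μa, a1, a2, ⟨ja, a3⟩, ⟨ka, a4⟩⟩ := width_one v a ha
  obtain ⟨μc, c1, c2, ⟨jc, c3⟩, ⟨kc, c4⟩⟩ := width_one v c hc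
  obtain ⟨μs, s1, s2, ⟨js, s3⟩, ⟨ks, s4⟩⟩ := width_one v (a + c) hac
  have ha0 : lf a (v 0) = μa := le_antisymm (by rw [← a3]; exact hamin ja) (a1 0)
  set D := a.1 * c.2 - a.2 * c.1 with hD
  -- the hexagonal norm of an edge
  set N : Fin (m + 1) → ℝ := fun i => max |lf a (v (i + 1) - v i)|
    (max |lf c (v (i + 1) - v i)| |lf a (v (i + 1) - v i) + lf c (v (i + 1) - v i)|) with hN
  have hNhalf : ∀ i, N i = (|lf a (v (i + 1) - v i)| + |lf c (v (i + 1) - v i)| +
      |lf (a + c) (v (i + 1) - v i)|) / 2 := by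
    intro i
    rw [lf_add_left, ← max_half]
  have hNpos : ∀ i, 0 < N i := by
    intro i
    have hne := hC.ne_succ hm i
    rcases lt_or_eq_of_le (show 0 ≤ N i from le_trans (abs_nonneg _) (le_max_left _ _)) with h | h
    · exact h
    exfalso
    have h1 : |lf a (v (i + 1) - v i)| = 0 :=
      le_antisymm (by rw [h]; exact le_max_left _ _) (abs_nonneg _)
    have h2 : |lf c (v (i + 1) - v i)| = 0 :=
      le_antisymm (by rw [h]; exact le_trans (le_max_left _ _) (le_max_right _ _)) (abs_nonneg _)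
    rw [abs_eq_zero, lf] at h1 h2
    have g1 : D * (v (i + 1) - v i).1 = 0 := by rw [hD]; linear_combination c.2 * h1 - a.2 * h2
    have g2 : D * (v (i + 1) - v i).2 = 0 := by rw [hD]; linear_combination a.1 * h2 - c.1 * h1
    have g3 := (mul_eq_zero.1 g1).resolve_left hdet.ne'
    have g4 := (mul_eq_zero.1 g2).resolve_left hdet.ne'
    apply hne
    refine Prod.ext ?_ ?_
    · rw [Prod.fst_sub] at g3; linarith
    · rw [Prod.snd_sub] at g4; linarith
  have hbd : ∀ (f : ℝ × ℝ) (μ : ℝ), (∀ i, μ ≤ lf f (v i)) → (∀ i, lf f (v i) ≤ μ + 1) →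
      ∀ x ∈ P, ∀ y ∈ P, ∀ (r : ℝ) (e : ℝ × ℝ), y - x = r • e → |r| * |lf f e| ≤ 1 := by
    intro f μ h1 h2 x hx y hy r e hr
    have hx' := lf_hull v f μ (μ + 1) h1 h2 hx
    have hy' := lf_hull v f μ (μ + 1) h1 h2 hy
    rw [← abs_mul, ← lf_smul_left]
    have e1 : lf (r • f) e = lf f y - lf f x := by
      rw [lf_smul_left, ← lf_smul, ← hr, lf_sub]
    rw [e1, abs_le]
    constructor <;> linarith [hx'.1, hx'.2, hy'.1, hy'.2]
  have hratio : ∀ i, N i ≤ dist (v i) (v (i + 1)) / b i ∧
      (dist (v i) (v (i + 1)) / b i = N i →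
        ∃ x ∈ P, ∃ y ∈ P, y - x = (N i)⁻¹ • (v (i + 1) - v i)) := by
    intro i
    have := ratio_bound hPc (hvP i) (hvP (i + 1)) (hC.ne_succ hm i) (N i) (hNpos i) (by
      intro x hx y hy r hr
      have h1 := hbd a μa a1 a2 x hx y hy r _ hr
      have h2 := hbd c μc c1 c2 x hx y hy r _ hr
      have h3 := hbd (a + c) μs s1 s2 x hx y hy r _ hr
      rw [lf_add_left] at h3
      simp only [hN]
      rw [mul_max_of_nonneg _ _ (abs_nonneg r), mul_max_of_nonneg _ _ (abs_nonneg r)]
      exact max_le h1 (max_le h2 h3))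
    rw [hb i]
    exact this
  have hsumN : 3 ≤ ∑ i, N i := by
    have w1 := W_sum v a
    have w2 := W_sum v c
    have w3 := W_sum v (a + c)
    have : ∑ i, N i = (∑ i, |lf a (v (i + 1) - v i)| + ∑ i, |lf c (v (i + 1) - v i)| +
        ∑ i, |lf (a + c) (v (i + 1) - v i)|) / 2 := by
      rw [← Finset.sum_add_distrib, ← Finset.sum_add_distrib, Finset.sum_div]
      exact Finset.sum_congr rfl fun i _ => hNhalf i
    rw [this]
    linarith
  have hsumle : ∑ i, N i ≤ ∑ i, dist (v i) (v (i + 1)) / b i :=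
    Finset.sum_le_sum fun i _ => (hratio i).1
  refine ⟨hsumN.trans hsumle, fun heq => ?_⟩
  have hNeq : ∀ i, dist (v i) (v (i + 1)) / b i = N i := by
    have h1 : ∑ i, N i = ∑ i, dist (v i) (v (i + 1)) / b i := by linarith
    have h2 := (Finset.sum_eq_sum_iff_of_le (fun i _ => (hratio i).1)).1 h1
    intro i
    exact (h2 i (Finset.mem_univ i)).symm
  -- normalised coordinates
  set s := μs - μa - μc with hs
  let La : ℝ × ℝ →ₗ[ℝ] ℝ × ℝ :=
    { toFun := fun z => (lf a z, lf c z)
      map_add' := by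
        intro x y
        simp only [lf, Prod.fst_add, Prod.snd_add, Prod.mk_add_mk]
        exact Prod.ext (by simp only; ring) (by simp only; ring)
      map_smul' := by
        intro r x
        simp only [lf, Prod.smul_fst, Prod.smul_snd, smul_eq_mul, RingHom.id_apply,
          Prod.smul_mk]
        exact Prod.ext (by simp only; ring) (by simp only; ring) }
  let T : ℝ × ℝ →ᵃ[ℝ] ℝ × ℝ :=
    { toFun := fun z => (lf a z - μa, lf c z - μc)
      linear := La
      map_vadd' := by
        intro p w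
        show (lf a (w + p) - μa, lf c (w + p) - μc) = (lf a w, lf c w) + (lf a p - μa, lf c p - μc)
        simp only [lf, Prod.fst_add, Prod.snd_add, Prod.mk_add_mk]
        exact Prod.ext (by simp only; ring) (by simp only; ring) }
  have hT : ∀ z, T z = (lf a z - μa, lf c z - μc) := fun z => rfl
  let Lb : ℝ × ℝ →ₗ[ℝ] ℝ × ℝ :=
    { toFun := fun w => ((c.2 * w.1 - a.2 * w.2) / D, (a.1 * w.2 - c.1 * w.1) / D)
      map_add' := by
        intro x y
        simp only [Prod.fst_add, Prod.snd_add, Prod.mk_add_mk]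
        exact Prod.ext (by simp only; ring) (by simp only; ring)
      map_smul' := by
        intro r x
        simp only [Prod.smul_fst, Prod.smul_snd, smul_eq_mul, RingHom.id_apply,
          Prod.smul_mk]
        exact Prod.ext (by simp only; ring) (by simp only; ring) }
  let R : ℝ × ℝ →ᵃ[ℝ] ℝ × ℝ :=
    { toFun := fun w => ((c.2 * (w.1 + μa) - a.2 * (w.2 + μc)) / D,
        (a.1 * (w.2 + μc) - c.1 * (w.1 + μa)) / D)
      linear := Lb
      map_vadd' := by
        intro p w
        show ((c.2 * ((w + p).1 + μa) - a.2 * ((w + p).2 + μc)) / D,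
          (a.1 * ((w + p).2 + μc) - c.1 * ((w + p).1 + μa)) / D) =
          ((c.2 * w.1 - a.2 * w.2) / D, (a.1 * w.2 - c.1 * w.1) / D) +
          ((c.2 * (p.1 + μa) - a.2 * (p.2 + μc)) / D, (a.1 * (p.2 + μc) - c.1 * (p.1 + μa)) / D)
        simp only [Prod.fst_add, Prod.snd_add, Prod.mk_add_mk]
        exact Prod.ext (by simp only; ring) (by simp only; ring) }
  have hR : ∀ w, R w = ((c.2 * (w.1 + μa) - a.2 * (w.2 + μc)) / D,
        (a.1 * (w.2 + μc) - c.1 * (w.1 + μa)) / D) := fun w => rfl
  have hD0 : D ≠ 0 := hdet.ne'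
  have hRT : ∀ z, R (T z) = z := by
    intro z
    rw [hT, hR]
    refine Prod.ext ?_ ?_
    · show (c.2 * (lf a z - μa + μa) - a.2 * (lf c z - μc + μc)) / D = z.1
      rw [div_eq_iff hD0, hD]; simp only [lf]; ring
    · show (a.1 * (lf c z - μc + μc) - c.1 * (lf a z - μa + μa)) / D = z.2
      rw [div_eq_iff hD0, hD]; simp only [lf]; ring
  set V : Fin (m + 1) → ℝ × ℝ := fun i => T (v i) with hV
  have hVrange : Set.range V = T '' Set.range v := by
    rw [← Set.range_comp]; rfl
  have hTP : T '' P = convexHull ℝ (Set.range V) := by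
    rw [hVrange, hP, AffineMap.image_convexHull]
  have hPR : P = R '' convexHull ℝ (Set.range V) := by
    rw [← hTP, Set.image_image]
    simp only [hRT, Set.image_id']
  have hVconv : Conv V := by
    intro i j h1 h2
    have := hC i j h1 h2
    show 0 < ((lf a (v (i + 1)) - μa) - (lf a (v i) - μa)) *
        ((lf c (v j) - μc) - (lf c (v i) - μc)) -
        ((lf c (v (i + 1)) - μc) - (lf c (v i) - μc)) * ((lf a (v j) - μa) - (lf a (v i) - μa))
    have e : ((lf a (v (i + 1)) - μa) - (lf a (v i) - μa)) *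
        ((lf c (v j) - μc) - (lf c (v i) - μc)) -
        ((lf c (v (i + 1)) - μc) - (lf c (v i) - μc)) * ((lf a (v j) - μa) - (lf a (v i) - μa)) =
        D * (((v (i + 1)).1 - (v i).1) * ((v j).2 - (v i).2)
            - ((v (i + 1)).2 - (v i).2) * ((v j).1 - (v i).1)) := by
      rw [hD]; simp only [lf]; ring
    rw [e]
    exact mul_pos hdet this
  have hVa : ∀ i, (V i).1 = lf a (v i) - μa := fun i => rfl
  have hVc : ∀ i, (V i).2 = lf c (v i) - μc := fun i => rfl
  have hVs : ∀ i, (V i).1 + (V i).2 = lf (a + c) (v i) - μa - μc := fun i => by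
    rw [hVa, hVc, lf_add_left]; ring
  obtain ⟨hs0, hs1, m1, m2, m3, m4, m5, m6⟩ := normalized hm hVconv s
    (fun i => by rw [hVa]; linarith [a1 i]) (fun i => by rw [hVa]; linarith [a2 i])
    ⟨ka, by rw [hVa, a4]; ring⟩ (by rw [hVa, ha0]; ring) (by rw [hVa, ha01, ha0]; ring)
    (fun i => by rw [hVc]; linarith [c1 i]) (fun i => by rw [hVc]; linarith [c2 i])
    (fun i => by rw [hVs]; linarith [s1 i]) (fun i => by rw [hVs]; linarith [s2 i])
    ⟨js, by rw [hVs, s3]⟩ ⟨ks, by rw [hVs, s4]; ring⟩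
    (by
      intro i
      obtain ⟨x, hx, y, hy, hxy⟩ := (hratio i).2 (hNeq i)
      refine ⟨T x, by rw [← hTP]; exact ⟨x, hx, rfl⟩, T y, by rw [← hTP]; exact ⟨y, hy, rfl⟩, ?_⟩
      have e1 : (V (i + 1)).1 - (V i).1 = lf a (v (i + 1) - v i) := by
        rw [hVa, hVa, lf_sub]; ring
      have e2 : (V (i + 1)).2 - (V i).2 = lf c (v (i + 1) - v i) := by
        rw [hVc, hVc, lf_sub]; ring
      rw [e1, e2]
      show T y - T x = (N i)⁻¹ • (V (i + 1) - V i)
      have f1 : lf a y - lf a x = (N i)⁻¹ * lf a (v (i + 1) - v i) := by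
        rw [← lf_sub, hxy, lf_smul]
      have f2 : lf c y - lf c x = (N i)⁻¹ * lf c (v (i + 1) - v i) := by
        rw [← lf_sub, hxy, lf_smul]
      refine Prod.ext ?_ ?_
      · show (lf a y - μa) - (lf a x - μa) = (N i)⁻¹ * ((V (i + 1)).1 - (V i).1)
        rw [e1, ← f1]; ring
      · show (lf c y - μc) - (lf c x - μc) = (N i)⁻¹ * ((V (i + 1)).2 - (V i).2)
        rw [e2, ← f2]; ring)
  -- the hull of the six points
  have hsix : convexHull ℝ (Set.range V) = convexHull ℝ ({(s, 0), (0, s), (1, 0), (1, s),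
      (0, 1), (s, 1)} : Set (ℝ × ℝ)) := by
    apply Set.Subset.antisymm
    · apply convexHull_min _ (convex_convexHull ℝ _)
      rintro _ ⟨i, rfl⟩
      have hsub := subset_convexHull ℝ ({(s, 0), (0, s), (1, 0), (1, s),
        (0, 1), (s, 1)} : Set (ℝ × ℝ))
      have : V i = ((V i).1, (V i).2) := rfl
      rw [this]
      refine hexagon_mem (convex_convexHull ℝ _) hs0 hs1 (hsub (by simp)) (hsub (by simp))
        (hsub (by simp)) (hsub (by simp)) (hsub (by simp)) (hsub (by simp)) ?_ ?_ ?_ ?_ ?_ ?_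
      · rw [hVa]; linarith [a1 i]
      · rw [hVa]; linarith [a2 i]
      · rw [hVc]; linarith [c1 i]
      · rw [hVc]; linarith [c2 i]
      · rw [hVs]; linarith [s1 i]
      · rw [hVs]; linarith [s2 i]
    · apply convexHull_min _ (convex_convexHull ℝ _)
      intro z hz
      simp only [Set.mem_insert_iff, Set.mem_singleton_iff] at hz
      rcases hz with rfl | rfl | rfl | rfl | rfl | rfl <;> assumption
  have hr : (0 : ℝ) < s + 1 := by linarith
  refine ⟨R (0, 0), R (s + 1, 0), R (0, s + 1), ?_, s / (s + 1), by positivity, ?_, ?_⟩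
  · rw [affineIndependent_iff_not_collinear_set]
    intro hcol
    rw [collinear_iff_of_mem (p₀ := R (0, 0)) (by simp)] at hcol
    obtain ⟨w, hw⟩ := hcol
    obtain ⟨r1, h1⟩ := hw (R (s + 1, 0)) (by simp)
    obtain ⟨r2, h2⟩ := hw (R (0, s + 1)) (by simp)
    have g1 := congrArg Prod.fst h1
    have g2 := congrArg Prod.snd h1
    have g3 := congrArg Prod.fst h2
    have g4 := congrArg Prod.snd h2
    simp only [hR, vadd_eq_add, Prod.fst_add, Prod.snd_add, Prod.smul_fst, Prod.smul_snd,
      smul_eq_mul] at g1 g2 g3 g4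
    have k1 : c.2 * (s + 1) / D = r1 * w.1 := by linear_combination g1
    have k2 : -(c.1 * (s + 1)) / D = r1 * w.2 := by linear_combination g2
    have k3 : -(a.2 * (s + 1)) / D = r2 * w.1 := by linear_combination g3
    have k4 : a.1 * (s + 1) / D = r2 * w.2 := by linear_combination g4
    have k5 : (c.2 * (s + 1) / D) * (a.1 * (s + 1) / D) -
        (-(c.1 * (s + 1)) / D) * (-(a.2 * (s + 1)) / D) = 0 := by
      rw [k1, k2, k3, k4]; ring
    have k6 : (c.2 * (s + 1) / D) * (a.1 * (s + 1) / D) -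
        (-(c.1 * (s + 1)) / D) * (-(a.2 * (s + 1)) / D) =
        (s + 1) ^ 2 * (a.1 * c.2 - a.2 * c.1) / D ^ 2 := by ring
    rw [k6, ← hD] at k5
    have : 0 < (s + 1) ^ 2 * D / D ^ 2 := by positivity
    linarith
  · rw [div_le_div_iff₀ hr (by norm_num)]; linarith
  · rw [hPR, hsix, AffineMap.image_convexHull]
    congr 1
    simp only [Set.image_insert_eq, Set.image_singleton]
    have q1 : R (s, 0) = R (0, 0) + (s / (s + 1)) • (R (s + 1, 0) - R (0, 0)) := by
      simp only [hR]
      refine Prod.ext ?_ ?_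
      · simp only [Prod.fst_add, Prod.fst_sub, Prod.smul_fst, smul_eq_mul]
        field_simp; ring
      · simp only [Prod.snd_add, Prod.snd_sub, Prod.smul_snd, smul_eq_mul]
        field_simp; ring
    have q2 : R (0, s) = R (0, 0) + (s / (s + 1)) • (R (0, s + 1) - R (0, 0)) := by
      simp only [hR]
      refine Prod.ext ?_ ?_
      · simp only [Prod.fst_add, Prod.fst_sub, Prod.smul_fst, smul_eq_mul]
        field_simp; ring
      · simp only [Prod.snd_add, Prod.snd_sub, Prod.smul_snd, smul_eq_mul]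
        field_simp; ring
    have q3 : R (1, 0) = R (s + 1, 0) + (s / (s + 1)) • (R (0, 0) - R (s + 1, 0)) := by
      simp only [hR]
      refine Prod.ext ?_ ?_
      · simp only [Prod.fst_add, Prod.fst_sub, Prod.smul_fst, smul_eq_mul]
        field_simp; ring
      · simp only [Prod.snd_add, Prod.snd_sub, Prod.smul_snd, smul_eq_mul]
        field_simp; ring
    have q4 : R (1, s) = R (s + 1, 0) + (s / (s + 1)) • (R (0, s + 1) - R (s + 1, 0)) := by
      simp only [hR]
      refine Prod.ext ?_ ?_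
      · simp only [Prod.fst_add, Prod.fst_sub, Prod.smul_fst, smul_eq_mul]
        field_simp; ring
      · simp only [Prod.snd_add, Prod.snd_sub, Prod.smul_snd, smul_eq_mul]
        field_simp; ring
    have q5 : R (0, 1) = R (0, s + 1) + (s / (s + 1)) • (R (0, 0) - R (0, s + 1)) := by
      simp only [hR]
      refine Prod.ext ?_ ?_
      · simp only [Prod.fst_add, Prod.fst_sub, Prod.smul_fst, smul_eq_mul]
        field_simp; ring
      · simp only [Prod.snd_add, Prod.snd_sub, Prod.smul_snd, smul_eq_mul]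
        field_simp; ring
    have q6 : R (s, 1) = R (0, s + 1) + (s / (s + 1)) • (R (s + 1, 0) - R (0, s + 1)) := by
      simp only [hR]
      refine Prod.ext ?_ ?_
      · simp only [Prod.fst_add, Prod.fst_sub, Prod.smul_fst, smul_eq_mul]
        field_simp; ring
      · simp only [Prod.snd_add, Prod.snd_sub, Prod.smul_snd, smul_eq_mul]
        field_simp; ring
    rw [q1, q2, q3, q4, q5, q6]

end Pool.Agent.S12883
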