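import Pool.Statements.S12893
-- import your own Pool.Agent.* helpers here
import Pool.Agent.H859R3.CircFinal

set_option autoImplicit false
open Pool Pool.MP_23eee6_gt

namespace Pool.Agent.S12893

/-- There is a discrete, torsion-free, infinitely generated Fuchsian group of the first kind and a non-affine quasisymmetric conjugacy of it to another Möbius group under which no element representing a simple closed geodesic gets a larger trace, i.e. no simple curve is lengthened. -/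
theorem result :
    ∃ Γ : Subgroup (Matrix.SpecialLinearGroup (Fin 2) ℝ),
      (∃ ε : ℝ, 0 < ε ∧ ∀ g ∈ Γ,
        (∀ i j : Fin 2, |(g : Matrix (Fin 2) (Fin 2) ℝ) i j - (1 : Matrix (Fin 2) (Fin 2) ℝ) i j| < ε) →
          g = 1) ∧
      (∀ g ∈ Γ, ∀ n : ℕ, 0 < n →
        (((g ^ n : Matrix.SpecialLinearGroup (Fin 2) ℝ) : Matrix (Fin 2) (Fin 2) ℝ) = 1 ∨
          ((g ^ n : Matrix.SpecialLinearGroup (Fin 2) ℝ) : Matrix (Fin 2) (Fin 2) ℝ) = -1) →
        ((g : Matrix (Fin 2) (Fin 2) ℝ) = 1 ∨ (g : Matrix (Fin 2) (Fin 2) ℝ) = -1)) ∧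
      ¬ Γ.FG ∧
      (∀ x : ℝ, (x : ℂ) ∈ closure (Set.range (fun g : Γ =>
        ((((g : Matrix.SpecialLinearGroup (Fin 2) ℝ) : Matrix (Fin 2) (Fin 2) ℝ) 0 0 : ℂ) * Complex.I
            + (((g : Matrix.SpecialLinearGroup (Fin 2) ℝ) : Matrix (Fin 2) (Fin 2) ℝ) 0 1 : ℂ)) /
          ((((g : Matrix.SpecialLinearGroup (Fin 2) ℝ) : Matrix (Fin 2) (Fin 2) ℝ) 1 0 : ℂ) * Complex.I
            + (((g : Matrix.SpecialLinearGroup (Fin 2) ℝ) : Matrix (Fin 2) (Fin 2) ℝ) 1 1 : ℂ))))) ∧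
      ∃ h : ℝ → ℝ, StrictMono h ∧ Continuous h ∧ Function.Surjective h ∧
        (∃ M : ℝ, ∀ x t : ℝ, 0 < t →
          h (x + t) - h x ≤ M * (h x - h (x - t)) ∧ h x - h (x - t) ≤ M * (h (x + t) - h x)) ∧
        (¬ ∃ a b : ℝ, ∀ x : ℝ, h x = a * x + b) ∧
        ∀ g ∈ Γ, ∃ g' : Matrix.SpecialLinearGroup (Fin 2) ℝ,
          (∀ x : ℝ,
            (g : Matrix (Fin 2) (Fin 2) ℝ) 1 0 * x + (g : Matrix (Fin 2) (Fin 2) ℝ) 1 1 ≠ 0 →
              ((g' : Matrix (Fin 2) (Fin 2) ℝ) 1 0 * h x + (g' : Matrix (Fin 2) (Fin 2) ℝ) 1 1 ≠ 0 ∧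
                h (((g : Matrix (Fin 2) (Fin 2) ℝ) 0 0 * x + (g : Matrix (Fin 2) (Fin 2) ℝ) 0 1) /
                    ((g : Matrix (Fin 2) (Fin 2) ℝ) 1 0 * x + (g : Matrix (Fin 2) (Fin 2) ℝ) 1 1)) =
                  ((g' : Matrix (Fin 2) (Fin 2) ℝ) 0 0 * h x + (g' : Matrix (Fin 2) (Fin 2) ℝ) 0 1) /
                    ((g' : Matrix (Fin 2) (Fin 2) ℝ) 1 0 * h x + (g' : Matrix (Fin 2) (Fin 2) ℝ) 1 1))) ∧
          ((2 < |Matrix.trace (g : Matrix (Fin 2) (Fin 2) ℝ)| ∧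
              ∀ k ∈ Γ, 2 ≤ Matrix.trace
                ((g * (k * g * k⁻¹) * g⁻¹ * (k * g * k⁻¹)⁻¹ : Matrix.SpecialLinearGroup (Fin 2) ℝ) :
                  Matrix (Fin 2) (Fin 2) ℝ)) →
            |Matrix.trace (g' : Matrix (Fin 2) (Fin 2) ℝ)| ≤ |Matrix.trace (g : Matrix (Fin 2) (Fin 2) ℝ)|) := by
  obtain ⟨ι, hcount, A, B, φ, M, hsurj, hrr, hsep, hl, hu, hr, hd, hb⟩ := H859R3.exists_config
  obtain ⟨h, L, E, hmono, hsurjh, hcont⟩ := H859R3.exists_homeo M hsurj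
  have hinf : Infinite ι := H859R3.infinite_of_dense A hr hd
  refine ⟨H859R3.GamP A (fun _ => True), ⟨1 / 10, by norm_num, ?_⟩, ?_, ?_, ?_, h, hmono, hcont,
    hsurjh, ⟨46656, ?_⟩, ?_, ?_⟩
  · intro g hg hn
    exact H859R3.Gam_discrete A _ (fun j => by have := hr j; linarith) g hg hn
  · intro g hg n hn hp
    exact H859R3.Gam_torsion A _ g hg n hn hp
  · exact H859R3.Gam_not_fg A
  · intro x
    rw [Metric.mem_closure_iff]
    intro ε hε
    obtain ⟨W, hW, hW2⟩ := A.orbit_near hr hd x ε hε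
    have hdet : (H859R3.wd A.mat W).det = 1 := by
      rw [H859R3.wd_det _ A.mat_det]
      exact (Nat.even_iff.2 hW).neg_one_pow
    let g : Matrix.SpecialLinearGroup (Fin 2) ℝ := ⟨H859R3.wd A.mat W, hdet⟩
    have hg : g ∈ H859R3.GamP A (fun _ => True) :=
      H859R3.mem_GamP.2 ⟨W, hW, fun _ _ => trivial, rfl⟩
    refine ⟨_, ⟨⟨g, hg⟩, rfl⟩, ?_⟩
    rw [dist_comm, dist_eq_norm]
    exact hW2
  · have hK : H859R3.Cmp A B φ h := ⟨M, L, E, hrr, hsep, hl, hu, hmono⟩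
    intro x t ht
    have h1 := hK.qs hcont x t
    have h2 := hK.qs hcont x (-t)
    have m1 : h x < h (x + t) := hmono (by linarith)
    have m2 : h (x - t) < h x := hmono (by linarith)
    have e1 : x + -t = x - t := by ring
    have e2 : x - -t = x + t := by ring
    rw [e1, e2] at h2
    rw [abs_of_pos (by linarith), abs_of_pos (by linarith)] at h1
    rw [abs_of_neg (by linarith), abs_of_neg (by linarith)] at h2
    constructor <;> linarith
  · exact H859R3.not_affine M L hrr hr hd hb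
  · intro g hg
    obtain ⟨W, hW, -, hW2⟩ := H859R3.mem_GamP.1 hg
    have hdet : (H859R3.wd B.mat W).det = 1 := by
      rw [H859R3.wd_det _ B.mat_det]
      exact (Nat.even_iff.2 hW).neg_one_pow
    refine ⟨⟨H859R3.wd B.mat W, hdet⟩, ?_, ?_⟩
    · intro x hx
      rw [hW2] at hx ⊢
      exact H859R3.Gam_equiv L.mid hmono.injective E W x hx
    · intro _
      rw [hW2]
      exact H859R3.trace_le hrr (H859R3.Dc_of M hrr hu) W.length W le_rfl

end Pool.Agent.S12893
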