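import Pool.Statements.S12964
import Pool.Agent.H985.CoxB

set_option autoImplicit false
open Matrix
open Pool Pool.MP_2ee781_gt

namespace Pool.Agent.S12964

open Pool.Agent.H985.CoxA in
/-- The Hausdorff premeasure of the fundamental region is finite. -/
lemma H_finite (diam : Set (Fin 3 → ℝ) → ENNReal)
    (hdiam : ∀ U, diam U = ⨆ x ∈ U, ⨆ y ∈ U, ENNReal.ofReal (Pool.Agent.H985.CoxA.d x y))
    (H : Set (Fin 3 → ℝ) → ENNReal)
    (hH : ∀ F, H F = ⨆ (r : ℝ) (_ : 0 < r), ⨅ (U : ℕ → Set (Fin 3 → ℝ))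
        (_ : F ⊆ ⋃ i, U i) (_ : ∀ i, U i ⊆ C ∧ diam (U i) ≤ ENNReal.ofReal r),
        ∑' i, diam (U i) ^ 2) : H F < ⊤ := by
  classical
  have key : H F ≤ ENNReal.ofReal 300 := by
    rw [hH]
    apply iSup₂_le
    intro r hr
    obtain ⟨m, hm⟩ := exists_nat_gt (5 / r)
    have hm0 : 0 < m := by
      have : (0:ℝ) < m := lt_trans (by positivity) hm
      exact_mod_cast this
    have hm' : (0:ℝ) < m := by exact_mod_cast hm0
    have h5 : 5 / (m:ℝ) ≤ r := by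
      rw [div_lt_iff₀ hr] at hm
      rw [div_le_iff₀ hm']; linarith
    let s : Idx m → Set (Fin 3 → ℝ) := fun i => box m i.1 i.2.1 i.2.2.1 i.2.2.2
    have : Encodable (Idx m) := Encodable.ofCountable _
    have hd : ∀ i : Idx m, diam (s i) ≤ ENNReal.ofReal (5 / (2 ^ i.2.1 * m)) := by
      intro i
      rw [hdiam]
      apply iSup₂_le
      intro x hx
      apply iSup₂_le
      intro y hy
      exact ENNReal.ofReal_le_ofReal (d_le_box hm0 hx hy)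
    have hd0 : diam ∅ = 0 := by rw [hdiam]; simp
    refine iInf_le_of_le (fun n => ⋃ b ∈ Encodable.decode₂ (Idx m) n, s b) ?_
    refine iInf_le_of_le ?_ ?_
    · rw [Encodable.iUnion_decode₂]
      intro x hx
      obtain ⟨j, k, a, b, hb⟩ := F_subset_boxes hm0 hx
      exact Set.mem_iUnion.mpr ⟨(j, ⟨k, a, b⟩), hb⟩
    refine iInf_le_of_le ?_ ?_
    · intro i
      apply Encodable.iUnion_decode₂_cases (C := fun U => U ⊆ C ∧ diam U ≤ ENNReal.ofReal r)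
      · exact ⟨Set.empty_subset _, by rw [hd0]; exact zero_le⟩
      · intro i
        refine ⟨box_subset _ _ _ _ _, (hd i).trans (ENNReal.ofReal_le_ofReal (le_trans ?_ h5))⟩
        apply div_le_div_of_nonneg_left (by norm_num) hm'
        have : (1:ℝ) ≤ 2 ^ i.2.1 := one_le_pow₀ (by norm_num)
        nlinarith
    · have e := tsum_iUnion_decode₂ (fun U => diam U ^ 2) (by simp [hd0]) s
      rw [e]
      refine le_trans (ENNReal.tsum_le_tsum fun i => ?_) (tsum_bound m hm0)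
      exact pow_le_pow_left' (hd i) 2
  exact lt_of_le_of_lt key ENNReal.ofReal_lt_top

/-- The negation of the preceding statement: If a faithful det ±1 linear image of a Coxeter group is discrete, preserves a properly convex open cone, and has a finite-Hilbert-volume quotient, then each generator is a reflection and the group is the reflection group of a Coxeter polytope with facets indexed by the generators. -/
theorem result :
    ¬ (∀ (n : ℕ), 1 ≤ n →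
  ∀ (B W : Type) [Group W] (M : CoxeterMatrix B) (cs : CoxeterSystem M W)
    (ρ : W →* (Matrix (Fin (n+1)) (Fin (n+1)) ℝ)ˣ),
    Function.Injective ρ →
    (∀ w, (ρ w).val.det = 1 ∨ (ρ w).val.det = -1) →
  ∀ (C : Set (Fin (n+1) → ℝ)),
    IsOpen C → Convex ℝ C → C.Nonempty →
    (∀ x ∈ C, ∀ t : ℝ, 0 < t → t • x ∈ C) →
    (∀ x v : Fin (n+1) → ℝ, v ≠ 0 → ∃ t : ℝ, x + t • v ∉ closure C) →
    (∀ (w : W) (x : Fin (n+1) → ℝ), x ∈ C → (ρ w).val *ᵥ x ∈ C) →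
    (∃ ε : ℝ, 0 < ε ∧ ∀ w : W,
      (∀ i j, |(ρ w).val i j - (1 : Matrix (Fin (n+1)) (Fin (n+1)) ℝ) i j| < ε) → ρ w = 1) →
  ∀ (d : (Fin (n+1) → ℝ) → (Fin (n+1) → ℝ) → ℝ),
    (∀ x y, d x y = (1/2) * Real.log (sInf {t : ℝ | t • y - x ∈ closure C}
                                        * sInf {t : ℝ | t • x - y ∈ closure C})) →
  ∀ (diam : Set (Fin (n+1) → ℝ) → ENNReal),
    (∀ U, diam U = ⨆ x ∈ U, ⨆ y ∈ U, ENNReal.ofReal (d x y)) →
  ∀ (H : Set (Fin (n+1) → ℝ) → ENNReal),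
    (∀ F, H F = ⨆ (r : ℝ) (_ : 0 < r), ⨅ (U : ℕ → Set (Fin (n+1) → ℝ))
        (_ : F ⊆ ⋃ i, U i) (_ : ∀ i, U i ⊆ C ∧ diam (U i) ≤ ENNReal.ofReal r),
        ∑' i, diam (U i) ^ n) →
    (∃ F ⊆ C, (∀ x ∈ C, ∃ w : W, (ρ w).val *ᵥ x ∈ F) ∧ H F < ⊤) →
  (∀ b : B, ∃ α v : Fin (n+1) → ℝ, α ⬝ᵥ v = 2 ∧
      (ρ (cs.simple b)).val = 1 - Matrix.vecMulVec v α) ∧
  (Finite B ∧ ∃ α v : B → Fin (n+1) → ℝ,
     (∀ b, α b ⬝ᵥ v b = 2 ∧ (ρ (cs.simple b)).val = 1 - Matrix.vecMulVec (v b) (α b)) ∧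
     (∃ x : Fin (n+1) → ℝ, ∀ b, α b ⬝ᵥ x < 0) ∧
     (∀ b, ∃ x : Fin (n+1) → ℝ, α b ⬝ᵥ x = 0 ∧ ∀ c, c ≠ b → α c ⬝ᵥ x < 0) ∧
     (∀ w : W, ρ w ≠ 1 → ∀ x : Fin (n+1) → ℝ, (∀ b, α b ⬝ᵥ x < 0) →
        ¬ ∀ b, α b ⬝ᵥ ((ρ w).val *ᵥ x) < 0))) := by
  intro h
  have h1 := h 2 (by norm_num) (Fin 3) Pool.Agent.H985.CoxA.M.Group Pool.Agent.H985.CoxA.M
    Pool.Agent.H985.CoxA.M.toCoxeterSystem Pool.Agent.H985.CoxA.ρ
    Pool.Agent.H985.CoxA.ρ_injective (fun w => Or.inl (Pool.Agent.H985.CoxA.ρ_det w))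
    Pool.Agent.H985.CoxA.C Pool.Agent.H985.CoxA.isOpen_C Pool.Agent.H985.CoxA.convex_C
    Pool.Agent.H985.CoxA.nonempty_C Pool.Agent.H985.CoxA.cone_C
    Pool.Agent.H985.CoxA.proper_C (fun w x hx => Pool.Agent.H985.CoxA.ρ_mem w x hx)
    ⟨1, one_pos, fun w hw => Pool.Agent.H985.CoxA.ρ_disc w hw⟩
    Pool.Agent.H985.CoxA.d (fun _ _ => rfl) _ (fun _ => rfl) _ (fun _ => rfl)
    ⟨Pool.Agent.H985.CoxA.F, fun x hx => hx.1, Pool.Agent.H985.CoxA.F_covers,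
      H_finite _ (fun _ => rfl) _ (fun _ => rfl)⟩
  obtain ⟨α, v, hαv, hv⟩ := h1.1 0
  have h2 := congrArg Matrix.trace hv
  rw [Matrix.trace_sub, Matrix.trace_vecMulVec, Matrix.trace_one] at h2
  have h3 : (Pool.Agent.H985.CoxA.ρ (Pool.Agent.H985.CoxA.M.toCoxeterSystem.simple 0)).val.trace
      = -1 := by
    rw [Pool.Agent.H985.CoxA.ρ_simple_val, Pool.Agent.H985.CoxA.trace_AR]
  have h4 : v ⬝ᵥ α = 2 := by rw [dotProduct_comm]; exact hαv
  rw [h4] at h2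
  have h5 := h3.symm.trans h2
  norm_num at h5

end Pool.Agent.S12964
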