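import Pool.Statements.S13000
import Pool.Agent.H479R3.SR
import Pool.Agent.H479R3.SRGroup

set_option autoImplicit false
open Pool Pool.MP_34ba9c_gt

namespace Pool.Agent.S13000

/-- The negation of the preceding statement: For every Tychonoff space X with base point x₀, if the Graev free topological group F(X) is an s-group (its topology is the finest group topology making some set of its null sequences converge to 1), then X is sequential. -/
theorem result :
    ¬ (∀ (X : Type) [TopologicalSpace X] [T35Space X] (x₀ : X)
    (τ : TopologicalSpace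
      (FreeGroup X ⧸ Subgroup.normalClosure ({FreeGroup.of x₀} : Set (FreeGroup X)))),
    τ = (GroupTopology.coinduced
          (fun x : X => (QuotientGroup.mk (FreeGroup.of x) :
            FreeGroup X ⧸ Subgroup.normalClosure ({FreeGroup.of x₀} : Set (FreeGroup X))))).toTopologicalSpace →
    (∃ S : Set (ℕ → FreeGroup X ⧸ Subgroup.normalClosure ({FreeGroup.of x₀} : Set (FreeGroup X))),
      (∀ u ∈ S, Filter.Tendsto u Filter.atTop (@nhds _ τ 1)) ∧
      τ = (sInf {t : GroupTopology
              (FreeGroup X ⧸ Subgroup.normalClosure ({FreeGroup.of x₀} : Set (FreeGroup X))) |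
              ∀ u ∈ S, Filter.Tendsto u Filter.atTop (@nhds _ t.toTopologicalSpace 1)}).toTopologicalSpace) →
    SequentialSpace X) := by
  intro h
  apply Pool.Agent.H479R3.SR.not_sequential
  refine h Pool.Agent.H479R3.SR.Pt Pool.Agent.H479R3.SR.Pt.p _ rfl ?_
  exact Pool.Agent.H479R3.SRGroup.main
    (fun g hg => Pool.Agent.H479R3.SR.continuous_of_seq hg) _

end Pool.Agent.S13000
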