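import Pool.Statements.S13007
-- import your own Pool.Agent.* helpers here

set_option autoImplicit false
open Pool Pool.MP_35943b_gt

namespace Pool.Agent.S13007

/-!
# Asymptotic property C for graph products

Outline.  `APC` is a colour form of asymptotic property C for an integer valued distance.
* `APC.add` : if two distances on the same set have APC, so does their sum (the product theorem).
* `APC_FP` : if `K` has APC for a length function, then the free product of arbitrarily many copies
  of `K` (index set possibly infinite) has APC for the free product length: the folding map to `K` is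
  1-Lipschitz, and the part of the free product lying over a bounded subset of `K` is cut by
  annuli of the underlying tree into two disjoint bounded families at every scale.
* For every vertex `v` the graph product acts on `N_v`, the free product of copies of `G_v` indexed by
  the cosets of the link subgroup of `v` (`exists_Psi`); this gives a length function `L_v` with APC.
* `min_word` : in a shortest word for `h`, the `v`-syllables are exactly the syllables of the reduced
  word of `h • 1` in `N_v`; hence the sum of all `L_v` is proper.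
-/

/-- Colour form of asymptotic property C for a distance function `d : X → X → ℕ`. -/
def APC {X : Type} (d : X → X → ℕ) : Prop :=
  ∀ R : ℕ → ℕ, ∃ (n B : ℕ) (T : Type) (c : X → ℕ) (κ : X → T),
    (∀ x, c x < n) ∧
    (∀ x y, c x = c y → d x y ≤ R (c x) → κ x = κ y) ∧
    (∀ x y, c x = c y → κ x = κ y → d x y ≤ B)

lemma APC.comap {X Y : Type} {d : Y → Y → ℕ} (h : APC d) (f : X → Y) :
    APC (fun x y => d (f x) (f y)) := by
  intro R
  obtain ⟨n, B, T, c, κ, h1, h2, h3⟩ := h R
  exact ⟨n, B, T, c ∘ f, κ ∘ f, fun x => h1 _, fun x y => h2 _ _, fun x y => h3 _ _⟩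

lemma APC.add {X : Type} {d₁ d₂ : X → X → ℕ} (h₁ : APC d₁) (h₂ : APC d₂) :
    APC (fun x y => d₁ x y + d₂ x y) := by
  intro R
  unfold APC at h₂
  choose n₂ B₂ T₂ c₂ κ₂ h21 h22 h23 using h₂
  let o : ℕ → ℕ := fun k => Nat.rec 0 (fun _ o => o + n₂ (fun j => R (o + j))) k
  let S : ℕ → (ℕ → ℕ) := fun k j => R (o k + j)
  have ho : ∀ k, o (k+1) = o k + n₂ (S k) := fun k => rfl
  have hmono : Monotone o := monotone_nat_of_le_succ (fun k => by rw [ho]; exact Nat.le_add_right _ _)
  let r : ℕ → ℕ := fun k => ∑ i ∈ Finset.range (o (k+1)), R i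
  obtain ⟨n, B, T, c, κ, h1, h2, h3⟩ := h₁ r
  have hlt : ∀ x, o (c x) + c₂ (S (c x)) x < o (c x + 1) := by
    intro x; rw [ho]; exact Nat.add_lt_add_left (h21 _ _) _
  have key : ∀ x y, o (c x) + c₂ (S (c x)) x = o (c y) + c₂ (S (c y)) y → c x = c y := by
    intro x y hxy
    rcases lt_trichotomy (c x) (c y) with h | h | h
    · have h1 := hlt x
      have h2 : o (c x + 1) ≤ o (c y) := hmono h
      omega
    · exact h
    · have h1 := hlt y
      have h2 : o (c y + 1) ≤ o (c x) := hmono h
      omega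
  refine ⟨o n, B + ∑ k ∈ Finset.range n, B₂ (S k), T × (Σ k : ℕ, T₂ (S k)),
    fun x => o (c x) + c₂ (S (c x)) x, fun x => (κ x, ⟨c x, κ₂ (S (c x)) x⟩), ?_, ?_, ?_⟩
  · intro x
    exact lt_of_lt_of_le (hlt x) (hmono (h1 x))
  · intro x y hxy hd
    have hc := key x y hxy
    have hR : R (o (c x) + c₂ (S (c x)) x) ≤ r (c x) :=
      Finset.single_le_sum (f := R) (fun i _ => Nat.zero_le _) (Finset.mem_range.2 (hlt x))
    have hκ : κ x = κ y := h2 x y hc (by dsimp only at hd; omega)
    have hcy : c₂ (S (c x)) x = c₂ (S (c x)) y := by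
      dsimp only at hxy; rw [← hc] at hxy; omega
    have hκ2 : κ₂ (S (c x)) x = κ₂ (S (c x)) y := by
      apply h22 (S (c x)) x y hcy
      change d₂ x y ≤ R (o (c x) + c₂ (S (c x)) x)
      dsimp only at hd; omega
    dsimp only
    rw [hκ, hκ2, hc]
  · intro x y hxy hk
    have hc := key x y hxy
    have hcy : c₂ (S (c x)) x = c₂ (S (c x)) y := by
      dsimp only at hxy; rw [← hc] at hxy; omega
    simp only [Prod.mk.injEq] at hk
    obtain ⟨hk1, hk2⟩ := hk
    have hb1 := h3 x y hc hk1
    have hκ2 : κ₂ (S (c x)) x = κ₂ (S (c x)) y := by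
      rw [← hc] at hk2
      simpa using hk2
    have hb2 := h23 (S (c x)) x y hcy hκ2
    have hb3 : B₂ (S (c x)) ≤ ∑ k ∈ Finset.range n, B₂ (S k) :=
      Finset.single_le_sum (f := fun k => B₂ (S k)) (fun i _ => Nat.zero_le _)
        (Finset.mem_range.2 (h1 x))
    dsimp only
    omega

lemma APC.sum {X V : Type} (s : Finset V) (d : V → X → X → ℕ) (h : ∀ v, APC (d v)) :
    APC (fun x y => ∑ v ∈ s, d v x y) := by
  classical
  induction s using Finset.induction_on with
  | empty =>
    intro R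
    exact ⟨1, 0, Unit, fun _ => 0, fun _ => (), by simp, by simp, by simp⟩
  | insert a s ha ih =>
    have := (h a).add ih
    simpa [Finset.sum_insert ha] using this

/-- A proper length function. -/
structure PL (G : Type) [Group G] where
  len : G → ℕ
  one : len 1 = 0
  eq_one : ∀ x, len x = 0 → x = 1
  mul : ∀ x y, len (x * y) ≤ len x + len y
  inv : ∀ x, len x⁻¹ = len x
  fin : ∀ R, {x | len x ≤ R}.Finite

lemma finite_list_prod {G : Type} [Group G] (S : Set G) (hS : S.Finite) (n : ℕ) :
    {x : G | ∃ l : List G, l.length ≤ n ∧ (∀ a ∈ l, a ∈ S) ∧ l.prod = x}.Finite := by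
  induction n with
  | zero =>
    refine Set.Finite.subset (Set.finite_singleton (1 : G)) ?_
    rintro x ⟨l, h1, h2, rfl⟩
    have : l = [] := List.length_eq_zero_iff.1 (by omega)
    subst this; simp
  | succ n ih =>
    refine Set.Finite.subset ((Set.finite_singleton (1 : G)).union
      (Set.Finite.image2 (fun a b : G => a * b) hS ih)) ?_
    rintro x ⟨l, h1, h2, rfl⟩
    cases l with
    | nil => left; simp
    | cons a l =>
      right
      refine ⟨a, h2 a (by simp), l.prod, ⟨l, ?_, ?_, rfl⟩, by simp⟩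
      · simpa using h1
      · intro b hb; exact h2 b (by simp [hb])

theorem exists_PL (G : Type) [Group G] [Countable G] : Nonempty (PL G) := by
  classical
  obtain ⟨e, he⟩ := Countable.exists_injective_nat G
  let ω : G → ℕ := fun x => e x + e x⁻¹ + 1
  have hωinv : ∀ x, ω x⁻¹ = ω x := by intro x; simp only [ω, inv_inv]; omega
  let wt : List G → ℕ := fun l => (l.map ω).sum
  have hex : ∀ x : G, ∃ m, ∃ l : List G, l.prod = x ∧ wt l = m := fun x => ⟨_, [x], by simp, rfl⟩
  let len : G → ℕ := fun x => Nat.find (hex x)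
  have hlen : ∀ x, ∃ l : List G, l.prod = x ∧ wt l = len x := fun x => Nat.find_spec (hex x)
  have hle : ∀ l : List G, len l.prod ≤ wt l := fun l => Nat.find_min' (hex l.prod) ⟨l, rfl, rfl⟩
  have hlw : ∀ l : List G, l.length ≤ wt l := by
    intro l
    induction l with
    | nil => simp
    | cons a l ih => simp only [wt, List.map_cons, List.sum_cons, List.length_cons] at ih ⊢; simp only [ω] at ih ⊢; omega
  have hmem : ∀ l : List G, ∀ a ∈ l, ω a ≤ wt l := by
    intro l a ha
    exact List.single_le_sum (by simp) _ (List.mem_map_of_mem ha)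
  refine ⟨⟨len, ?_, ?_, ?_, ?_, ?_⟩⟩
  · have := hle []
    simpa [wt] using this
  · intro x hx
    obtain ⟨l, h1, h2⟩ := hlen x
    have h3 := hlw l
    have : l = [] := List.length_eq_zero_iff.1 (by omega)
    rw [← h1, this]; simp
  · intro x y
    obtain ⟨l, h1, h2⟩ := hlen x
    obtain ⟨m, h3, h4⟩ := hlen y
    have := hle (l ++ m)
    simp only [wt, List.prod_append, List.map_append, List.sum_append, h1, h3] at this h2 h4
    omega
  · have hi : ∀ x, len x⁻¹ ≤ len x := by
      intro x
      obtain ⟨l, h1, h2⟩ := hlen x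
      have := hle ((l.map (·⁻¹)).reverse)
      rw [← List.prod_inv_reverse, h1] at this
      have h5 : wt ((l.map (·⁻¹)).reverse) = wt l := by
        simp only [wt, List.map_reverse, List.sum_reverse, List.map_map]
        congr 1
        apply List.map_congr_left
        intro a _
        exact hωinv a
      omega
    intro x
    apply le_antisymm (hi x)
    have := hi x⁻¹
    rwa [inv_inv] at this
  · intro R
    have hS : {x : G | ω x ≤ R}.Finite := by
      refine Set.Finite.of_finite_image (f := e) (Set.Finite.subset (Set.finite_Iic R) ?_) (he.injOn)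
      rintro _ ⟨x, hx, rfl⟩
      simp only [Set.mem_ofPred_eq, ω] at hx
      simp only [Set.mem_Iic]; omega
    refine Set.Finite.subset (finite_list_prod _ hS R) ?_
    intro x hx
    obtain ⟨l, h1, h2⟩ := hlen x
    have hx' : len x ≤ R := hx
    refine ⟨l, by have := hlw l; omega, ?_, h1⟩
    intro a ha
    have := hmem l a ha
    simp only [Set.mem_ofPred_eq]; omega

section FreeProduct
open Monoid

/-- free product of `I` copies of `K`. -/
abbrev FP (I K : Type) [Group K] := CoprodI (fun _ : I => K)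

/-- syllable. -/
abbrev Sy (I K : Type) := Σ _ : I, K

variable {I K : Type} [Group K]

/-- inclusion. -/
def inc (i : I) : K →* FP I K := CoprodI.of (M := fun _ : I => K) (i := i)

/-- evaluate a list. -/
def ev (u : List (Sy I K)) : FP I K := (u.map (fun l => inc l.1 l.2)).prod

@[simp] lemma ev_nil : ev ([] : List (Sy I K)) = 1 := rfl
@[simp] lemma ev_cons (a : Sy I K) (u : List (Sy I K)) : ev (a :: u) = inc a.1 a.2 * ev u := by
  simp [ev]
lemma ev_append (u v : List (Sy I K)) : ev (u ++ v) = ev u * ev v := by simp [ev]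

open Classical in
/-- reduced word. -/
noncomputable def red (n : FP I K) : List (Sy I K) := (CoprodI.Word.equiv n).toList

lemma ev_red (n : FP I K) : ev (red n) = n := by
  classical
  have := CoprodI.Word.equiv.symm_apply_apply n
  exact this

lemma red_inj {m n : FP I K} (h : red m = red n) : m = n := by
  rw [← ev_red m, ← ev_red n, h]

lemma red_one : red (1 : FP I K) = [] := by
  classical
  simp [red, CoprodI.Word.equiv]

/-- a list that is reduced is the reduced word of its evaluation. -/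
lemma red_ev (u : List (Sy I K)) (h1 : ∀ l ∈ u, l.2 ≠ 1)
    (h2 : u.IsChain fun l l' => l.1 ≠ l'.1) : red (ev u) = u := by
  classical
  have := CoprodI.Word.equiv.apply_symm_apply (⟨u, h1, h2⟩ : CoprodI.Word (fun _ : I => K))
  have h3 : (CoprodI.Word.equiv.symm (⟨u, h1, h2⟩ : CoprodI.Word (fun _ : I => K))) = ev u := rfl
  rw [h3] at this
  simp only [red, this]

lemma red_ne_one (n : FP I K) : ∀ l ∈ red n, l.2 ≠ 1 := by
  classical
  exact (CoprodI.Word.equiv n).ne_one

lemma red_chain (n : FP I K) : (red n).IsChain fun l l' => l.1 ≠ l'.1 := by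
  classical
  exact (CoprodI.Word.equiv n).chain_ne

lemma red_step (i : I) (x : K) (n : FP I K) :
    (red (inc i x * n) = red n ∧ x = 1) ∨
    (red (inc i x * n) = ⟨i, x⟩ :: red n ∧ x ≠ 1 ∧ ∀ l ∈ (red n).head?, i ≠ l.1) ∨
    (∃ s t, red n = ⟨i, s⟩ :: t ∧ red (inc i x * n) = ⟨i, x * s⟩ :: t ∧ x ≠ 1) ∨
    (∃ s, red n = ⟨i, s⟩ :: red (inc i x * n) ∧ x * s = 1 ∧ x ≠ 1) := by
  classical
  by_cases hx : x = 1
  · left; subst hx; simp
  right
  have hn1 := red_ne_one n
  have hn2 := red_chain n
  have hev := ev_red n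
  rcases hL : red n with _ | ⟨⟨j, s⟩, t⟩
  · left
    rw [hL] at hev
    refine ⟨?_, hx, by simp⟩
    rw [← hev]
    have := red_ev [(⟨i, x⟩ : Sy I K)] (by simpa using hx) (by simp)
    simpa using this
  · rw [hL] at hn1 hn2 hev
    by_cases hij : i = j
    · subst hij
      right
      have hev' : inc i x * n = inc i (x * s) * ev t := by
        rw [← hev]; simp [mul_assoc]
      have ht1 : ∀ l ∈ t, l.2 ≠ 1 := fun l hl => hn1 l (by simp [hl])
      have ht2 : t.IsChain fun l l' => l.1 ≠ l'.1 := hn2.tail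
      by_cases hxs : x * s = 1
      · right
        refine ⟨s, ?_, hxs, hx⟩
        rw [hev', hxs]; simp [red_ev t ht1 ht2]
      · left
        refine ⟨s, t, rfl, ?_, hx⟩
        rw [hev']
        have := red_ev ((⟨i, x * s⟩ : Sy I K) :: t) (by
          intro l hl
          rcases List.mem_cons.1 hl with rfl | hl
          · exact hxs
          · exact ht1 l hl) (by
          rw [List.isChain_cons] at hn2 ⊢
          exact ⟨fun y hy => hn2.1 y hy, hn2.2⟩)
        simpa using this
    · left
      refine ⟨?_, hx, by simpa using hij⟩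
      have := red_ev ((⟨i, x⟩ : Sy I K) :: ⟨j, s⟩ :: t) (by
          intro l hl
          rcases List.mem_cons.1 hl with rfl | hl
          · exact hx
          · exact hn1 l hl) (by
          rw [List.isChain_cons]
          exact ⟨by simpa using hij, hn2⟩)
      rw [ev_cons, hev] at this
      exact this

variable (len : K → ℕ)

/-- weight of a list. -/
def wt (u : List (Sy I K)) : ℕ := (u.map (fun l => len l.2)).sum

@[simp] lemma wt_nil : wt len ([] : List (Sy I K)) = 0 := rfl
@[simp] lemma wt_cons (a : Sy I K) (u : List (Sy I K)) : wt len (a :: u) = len a.2 + wt len u := by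
  simp [wt]
lemma wt_append (u v : List (Sy I K)) : wt len (u ++ v) = wt len u + wt len v := by simp [wt]

/-- product of the second components. -/
def PP (u : List (Sy I K)) : K := (u.map (fun l => l.2)).prod

@[simp] lemma PP_nil : PP ([] : List (Sy I K)) = 1 := rfl
@[simp] lemma PP_cons (a : Sy I K) (u : List (Sy I K)) : PP (a :: u) = a.2 * PP u := by simp [PP]
lemma PP_append (u v : List (Sy I K)) : PP (u ++ v) = PP u * PP v := by simp [PP]

/-- folding map. -/
def fold : FP I K →* K := CoprodI.lift (fun _ => MonoidHom.id K)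

lemma fold_ev (u : List (Sy I K)) : fold (ev u) = PP u := by
  induction u with
  | nil => simp
  | cons a u ih => rw [ev_cons, map_mul, ih, PP_cons]; simp [fold, inc]

lemma fold_red (n : FP I K) : PP (red n) = fold n := by rw [← fold_ev, ev_red]

section
variable {len : K → ℕ}
  (hlen1 : len 1 = 0) (hlen0 : ∀ x, len x = 0 → x = 1)
  (hlenm : ∀ x y, len (x * y) ≤ len x + len y) (hleni : ∀ x, len x⁻¹ = len x)
include hlen1 hlenm

lemma len_PP_le (u : List (Sy I K)) : len (PP u) ≤ wt len u := by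
  induction u with
  | nil => simp [hlen1]
  | cons a u ih =>
    rw [PP_cons, wt_cons]
    exact (hlenm _ _).trans (by omega)

lemma wt_red_step (i : I) (x : K) (n : FP I K) :
    wt len (red (inc i x * n)) ≤ len x + wt len (red n) := by
  rcases red_step i x n with h | h | ⟨s, t, h1, h2, h3⟩ | ⟨s, h1, h2, h3⟩
  · rw [h.1]; omega
  · rw [h.1, wt_cons]
  · rw [h1, h2, wt_cons, wt_cons]
    have := hlenm x s
    dsimp only; omega
  · rw [h1, wt_cons]; omega

lemma wt_red_ev_mul (u : List (Sy I K)) (n : FP I K) :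
    wt len (red (ev u * n)) ≤ wt len u + wt len (red n) := by
  induction u with
  | nil => simp
  | cons a u ih =>
    rw [ev_cons, wt_cons, mul_assoc]
    have := wt_red_step hlen1 hlenm a.1 a.2 (ev u * n)
    omega

lemma wt_red_ev (u : List (Sy I K)) : wt len (red (ev u)) ≤ wt len u := by
  have := wt_red_ev_mul hlen1 hlenm u 1
  rw [red_one, mul_one] at this
  simpa using this

lemma wt_red_mul (m n : FP I K) :
    wt len (red (m * n)) ≤ wt len (red m) + wt len (red n) := by
  have := wt_red_ev_mul hlen1 hlenm (red m) n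
  rwa [ev_red] at this

include hleni in
lemma wt_red_ev_inv (u : List (Sy I K)) : wt len (red (ev u)⁻¹) ≤ wt len u := by
  induction u with
  | nil => simp [red_one]
  | cons a u ih =>
    rw [ev_cons, wt_cons, mul_inv_rev, ← map_inv]
    have h1 := wt_red_mul hlen1 hlenm (ev u)⁻¹ (inc a.1 a.2⁻¹)
    have h2 := wt_red_ev hlen1 hlenm [(⟨a.1, a.2⁻¹⟩ : Sy I K)]
    rw [ev_cons, ev_nil, mul_one, wt_cons, wt_nil] at h2
    simp only [hleni] at h2
    omega

end

section good
variable (good : K → Prop)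

open Classical in
/-- good depth. -/
noncomputable def dlt : List (Sy I K) → ℕ
  | [] => 0
  | (_ :: t) => if good (PP t) then dlt t + 1 else 0

open Classical in
/-- bottom. -/
noncomputable def bot : List (Sy I K) → List (Sy I K) × Option I
  | [] => ([], none)
  | (x :: t) => if good (PP t) then bot t else (t, some x.1)

/-- suffix of length `m`. -/
def rt (m : ℕ) (w : List (Sy I K)) : List (Sy I K) := w.drop (w.length - m)

lemma rt_cons (m : ℕ) (x : Sy I K) (w : List (Sy I K)) (h : m ≤ w.length) :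
    rt m (x :: w) = rt m w := by
  simp only [rt, List.length_cons]
  rw [Nat.succ_sub h]; rfl

/-- one step between good points. -/
lemma step_good (i : I) (x : K) (n : FP I K) (h1 : good (PP (red n)))
    (h2 : good (PP (red (inc i x * n)))) :
    bot good (red (inc i x * n)) = bot good (red n) ∧
    dlt good (red (inc i x * n)) ≤ dlt good (red n) + 1 ∧
    dlt good (red n) ≤ dlt good (red (inc i x * n)) + 1 ∧
    (red (inc i x * n)).length + dlt good (red n) = (red n).length + dlt good (red (inc i x * n)) ∧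
    (red n).length ≤ (red (inc i x * n)).length + 1 ∧
    (∀ m, m + 1 ≤ (red n).length → rt m (red (inc i x * n)) = rt m (red n)) := by
  rcases red_step i x n with h | h | ⟨s, t, ha, hb, h3⟩ | ⟨s, ha, hb, h3⟩
  · rw [h.1]; simp
  · rw [h.1]
    refine ⟨?_, ?_, ?_, ?_, ?_, ?_⟩
    · simp [bot, h1]
    · simp [dlt, h1]
    · simp [dlt, h1]; omega
    · simp [dlt, h1]; omega
    · simp; omega
    · intro m hm
      exact rt_cons m _ _ (by omega)
  · rw [ha, hb]
    refine ⟨?_, ?_, ?_, ?_, ?_, ?_⟩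
    · simp [bot]
    · simp [dlt]
    · simp [dlt]
    · simp [dlt]
    · simp
    · intro m hm
      rw [rt_cons m _ _ (by simpa using hm), rt_cons m _ _ (by simpa using hm)]
  · rw [ha]
    refine ⟨?_, ?_, ?_, ?_, ?_, ?_⟩
    · simp [bot, h2]
    · simp [dlt, h2]; omega
    · simp [dlt, h2]
    · simp [dlt, h2]; omega
    · simp
    · intro m hm
      rw [rt_cons m _ _ (by simpa using hm)]

variable {len : K → ℕ}
  (hlen1 : len 1 = 0) (hlen0 : ∀ x, len x = 0 → x = 1)
  (hlenm : ∀ x y, len (x * y) ≤ len x + len y) (hleni : ∀ x, len x⁻¹ = len x)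
include hlen1 hlenm

lemma path_good (r : ℕ) (n : FP I K) (hg : ∀ k, len k ≤ r → good (k * PP (red n)))
    (u : List (Sy I K)) (hu : wt len u ≤ r) :
    bot good (red (ev u * n)) = bot good (red n) ∧
    dlt good (red (ev u * n)) ≤ dlt good (red n) + u.length ∧
    dlt good (red n) ≤ dlt good (red (ev u * n)) + u.length ∧
    (red (ev u * n)).length + dlt good (red n) = (red n).length + dlt good (red (ev u * n)) ∧
    (red n).length ≤ (red (ev u * n)).length + u.length ∧
    (∀ m, m + u.length ≤ (red n).length → rt m (red (ev u * n)) = rt m (red n)) := by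
  induction u with
  | nil => simp
  | cons a u ih =>
    rw [wt_cons] at hu
    obtain ⟨i1, i2, i3, i4, i5, i6⟩ := ih (by omega)
    have key : ∀ v : List (Sy I K), wt len v ≤ r → good (PP (red (ev v * n))) := by
      intro v hv
      rw [fold_red, map_mul, fold_ev, ← fold_red]
      exact hg _ ((len_PP_le hlen1 hlenm v).trans hv)
    obtain ⟨j1, j2, j3, j4, j5, j6⟩ := step_good good a.1 a.2 (ev u * n)
      (key u (by omega)) (by
        have := key (a :: u) (by rw [wt_cons]; omega)
        rwa [ev_cons, mul_assoc] at this)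
    rw [ev_cons, mul_assoc]
    refine ⟨j1.trans i1, ?_, ?_, ?_, ?_, ?_⟩
    · simp; omega
    · simp; omega
    · omega
    · simp; omega
    · intro m hm
      simp only [List.length_cons] at hm
      rw [j6 m (by omega), i6 m (by omega)]


omit hlen1 hlenm in
lemma dlt_le_length (w : List (Sy I K)) : dlt good w ≤ w.length := by
  induction w with
  | nil => simp [dlt]
  | cons x t ih =>
    simp only [dlt, List.length_cons]
    split_ifs <;> omega

omit hlen1 hlenm in
lemma down_good (D : ℕ) (hD : ∀ p q, good p → good q → len (p * q⁻¹) ≤ D)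
    (w : List (Sy I K)) (hw : good (PP w)) :
    ∀ k ≤ dlt good w, good (PP (w.drop k)) ∧ wt len (w.take k) ≤ k * D := by
  induction w with
  | nil => intro k hk; simp [dlt] at hk; subst hk; simpa using hw
  | cons x t ih =>
    intro k hk
    cases k with
    | zero => simpa using hw
    | succ k =>
      by_cases hg : good (PP t)
      · simp only [dlt, hg, if_true] at hk
        obtain ⟨h1, h2⟩ := ih hg k (by omega)
        refine ⟨by simpa using h1, ?_⟩
        simp only [List.take_succ_cons, wt_cons]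
        have : len x.2 ≤ D := by
          have := hD _ _ hw hg
          rw [PP_cons] at this; simpa using this
        rw [Nat.succ_mul]; omega
      · simp [dlt, hg] at hk

omit hlen1 hlenm in
lemma bot_spec (w : List (Sy I K)) :
    (w.drop (dlt good w) = [] ∧ bot good w = ([], none)) ∨
    (∃ x t, w.drop (dlt good w) = x :: t ∧ bot good w = (t, some x.1)) := by
  induction w with
  | nil => left; simp [dlt, bot]
  | cons x t ih =>
    by_cases hg : good (PP t)
    · simp only [dlt, bot, hg, if_true, List.drop_succ_cons]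
      exact ih
    · right
      exact ⟨x, t, by simp [dlt, hg], by simp [bot, hg]⟩

end good

lemma div_parity (x y S : ℕ) (h1 : x ≤ y + S) (h2 : y ≤ x + S)
    (h3 : (x / (S + 1)) % 2 = (y / (S + 1)) % 2) : x / (S + 1) = y / (S + 1) := by
  have e1 : x / (S+1) ≤ y / (S+1) + 1 := by
    calc x / (S+1) ≤ (y + (S+1)) / (S+1) := Nat.div_le_div_right (by omega)
      _ = y / (S+1) + 1 := Nat.add_div_right _ (by omega)
  have e2 : y / (S+1) ≤ x / (S+1) + 1 := by
    calc y / (S+1) ≤ (x + (S+1)) / (S+1) := Nat.div_le_div_right (by omega)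
      _ = x / (S+1) + 1 := Nat.add_div_right _ (by omega)
  omega

lemma length_le_wt {len : K → ℕ} (hlen0 : ∀ x, len x = 0 → x = 1) (u : List (Sy I K))
    (hu : ∀ l ∈ u, l.2 ≠ 1) : u.length ≤ wt len u := by
  induction u with
  | nil => simp
  | cons a u ih =>
    rw [wt_cons, List.length_cons]
    have h1 := ih (fun l hl => hu l (by simp [hl]))
    have h2 : len a.2 ≠ 0 := fun h => hu a (by simp) (hlen0 _ h)
    omega

theorem APC_FP (P : PL K) (h : APC (fun x y : K => P.len (x * y⁻¹))) :
    APC (fun a b : FP I K => wt P.len (red (a * b⁻¹))) := by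
  classical
  intro R
  let S : ℕ → ℕ := fun j => R (2*j) + R (2*j+1)
  obtain ⟨n, B, T, c, κ, h1, h2, h3⟩ := h S
  let good : ℕ → T → K → Prop := fun j τ p => ∃ z, c z = j ∧ κ z = τ ∧ P.len (z * p⁻¹) ≤ S j
  let D : ℕ → ℕ := fun j => 2 * S j + B
  have hlinv : ∀ x y, P.len (x * y⁻¹) = P.len (y * x⁻¹) := by
    intro x y
    rw [← P.inv (x * y⁻¹)]; simp
  have hltri : ∀ x y z, P.len (x * z⁻¹) ≤ P.len (x * y⁻¹) + P.len (y * z⁻¹) := by
    intro x y z
    have := P.mul (x * y⁻¹) (y * z⁻¹)
    simpa [mul_assoc] using this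
  have hD : ∀ j τ p q, good j τ p → good j τ q → P.len (p * q⁻¹) ≤ D j := by
    rintro j τ p q ⟨z, hz1, hz2, hz3⟩ ⟨z', hz1', hz2', hz3'⟩
    have e1 := h3 z z' (hz1.trans hz1'.symm) (hz2.trans hz2'.symm)
    have e2 := hltri p z q
    have e3 := hltri z z' q
    rw [hlinv p z] at e2
    simp only [D]; dsimp only at e1; omega
  let gd : FP I K → K → Prop := fun a => good (c (fold a)) (κ (fold a))
  have hgd : ∀ a, gd a (PP (red a)) := by
    intro a
    refine ⟨fold a, rfl, rfl, ?_⟩
    rw [fold_red, mul_inv_cancel, P.one]; exact Nat.zero_le _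
  let q : FP I K → ℕ := fun a => dlt (gd a) (red a) / (S (c (fold a)) + 1)
  let ms : FP I K → ℕ := fun a =>
    ((red a).length - dlt (gd a) (red a)) + (q a * (S (c (fold a)) + 1) - S (c (fold a)))
  let M : ℕ := ∑ j ∈ Finset.range n, S j
  have hM : ∀ a : FP I K, S (c (fold a)) ≤ M := fun a =>
    Finset.single_le_sum (f := S) (fun i _ => Nat.zero_le _) (Finset.mem_range.2 (h1 _))
  refine ⟨2 * n, (2 * M) * (2 * M + B) + (2 * M + B) + (2 * M) * (2 * M + B),
    T × ℕ × (List (Sy I K) × Option I) × List (Sy I K),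
    fun a => 2 * c (fold a) + q a % 2,
    fun a => (κ (fold a), q a, bot (gd a) (red a), if q a = 0 then [] else rt (ms a) (red a)),
    ?_, ?_, ?_⟩
  · intro a
    have := h1 (fold a)
    dsimp only; omega
  · intro a b hab hd
    dsimp only at hab hd
    have hc : c (fold a) = c (fold b) := by omega
    have hq2 : q a % 2 = q b % 2 := by omega
    have hS : R (2 * c (fold a) + q a % 2) ≤ S (c (fold b)) := by
      rw [← hc]
      rcases Nat.mod_two_eq_zero_or_one (q a) with h0 | h0
      · rw [h0, add_zero]; exact Nat.le_add_right _ _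
      · rw [h0]; exact Nat.le_add_left _ _
    have hu : wt P.len (red (a * b⁻¹)) ≤ S (c (fold b)) := hd.trans hS
    have hκ : κ (fold a) = κ (fold b) := by
      apply h2 _ _ hc
      rw [hc]
      have := len_PP_le P.one P.mul (red (a * b⁻¹))
      rw [fold_red, map_mul, map_inv] at this
      exact this.trans hu
    have hgab : gd a = gd b := by simp only [gd, hc, hκ]
    have hpath := path_good (gd b) P.one P.mul (S (c (fold b))) b (by
      intro k hk
      refine ⟨fold b, rfl, rfl, ?_⟩
      rw [fold_red]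
      have : fold b * (k * fold b)⁻¹ = k⁻¹ := by group
      rw [this, P.inv]; exact hk) (red (a * b⁻¹)) hu
    rw [ev_red, inv_mul_cancel_right] at hpath
    obtain ⟨i1, i2, i3, i4, i5, i6⟩ := hpath
    have hl := length_le_wt P.eq_one (red (a * b⁻¹)) (red_ne_one _)
    have hqq : q a = q b := by
      have := div_parity (dlt (gd b) (red a)) (dlt (gd b) (red b)) (S (c (fold b)))
        (by omega) (by omega) (by
          have := hq2
          simp only [q, hgab, hc] at this
          exact this)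
      simp only [q, hgab, hc]
      exact this
    have hla := dlt_le_length (gd b) (red a)
    have hlb := dlt_le_length (gd b) (red b)
    have hms : ms a = ms b := by
      simp only [ms, hqq, hgab, hc]
      omega
    dsimp only
    rw [hκ, hqq, hgab, i1, hms]
    by_cases hq0 : q b = 0
    · simp [hq0]
    · have hqM : q b * (S (c (fold b)) + 1) ≤ dlt (gd b) (red b) := Nat.div_mul_le_self _ _
      have hq1 : S (c (fold b)) + 1 ≤ q b * (S (c (fold b)) + 1) :=
        Nat.le_mul_of_pos_left _ (Nat.pos_of_ne_zero hq0)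
      have : rt (ms b) (red a) = rt (ms b) (red b) := by
        apply i6
        simp only [ms]
        omega
      rw [this]
  · intro a b hab hk
    dsimp only at hab
    simp only [Prod.mk.injEq] at hk
    obtain ⟨hκ, hqq, hbot, hrt⟩ := hk
    have hc : c (fold a) = c (fold b) := by omega
    have hgab : gd a = gd b := by simp only [gd, hc, hκ]
    have hDM : D (c (fold b)) ≤ 2 * M + B := by
      have := hM b
      simp only [D]; omega
    -- main reduction
    suffices hmain : ∃ ka kb, ka ≤ dlt (gd b) (red a) ∧ kb ≤ dlt (gd b) (red b) ∧ ka ≤ 2 * M ∧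
        kb ≤ 2 * M ∧ wt P.len (red (ev ((red a).drop ka) * (ev ((red b).drop kb))⁻¹)) ≤
          2 * M + B by
      obtain ⟨ka, kb, hka, hkb, hka', hkb', hX⟩ := hmain
      obtain ⟨_, ha2⟩ := down_good (gd b) (len := P.len) (D (c (fold b))) (hD _ _) (red a)
        (by rw [← hgab]; exact hgd a) ka hka
      obtain ⟨_, hb2⟩ := down_good (gd b) (len := P.len) (D (c (fold b))) (hD _ _) (red b)
        (hgd b) kb hkb
      have ha3 : wt P.len ((red a).take ka) ≤ (2 * M) * (2 * M + B) :=
        ha2.trans (Nat.mul_le_mul hka' hDM)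
      have hb3 : wt P.len ((red b).take kb) ≤ (2 * M) * (2 * M + B) :=
        hb2.trans (Nat.mul_le_mul hkb' hDM)
      have hea : a = ev ((red a).take ka) * ev ((red a).drop ka) := by
        rw [← ev_append, List.take_append_drop, ev_red]
      have heb : b = ev ((red b).take kb) * ev ((red b).drop kb) := by
        rw [← ev_append, List.take_append_drop, ev_red]
      have hab' : a * b⁻¹ = ev ((red a).take ka) *
          (ev ((red a).drop ka) * (ev ((red b).drop kb))⁻¹) * (ev ((red b).take kb))⁻¹ := by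
        conv_lhs => rw [hea, heb]
        group
      have e1 := wt_red_mul P.one P.mul (ev ((red a).take ka) *
          (ev ((red a).drop ka) * (ev ((red b).drop kb))⁻¹)) (ev ((red b).take kb))⁻¹
      have e2 := wt_red_mul P.one P.mul (ev ((red a).take ka))
          (ev ((red a).drop ka) * (ev ((red b).drop kb))⁻¹)
      have e3 := wt_red_ev P.one P.mul ((red a).take ka)
      have e4 := wt_red_ev_inv P.one P.mul P.inv ((red b).take kb)
      dsimp only
      rw [hab']
      omega
    have hSM := hM b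
    have hla := dlt_le_length (gd b) (red a)
    have hlb := dlt_le_length (gd b) (red b)
    by_cases hq0 : q b = 0
    · have hqa0 : q a = 0 := hqq.trans hq0
      have hda : dlt (gd b) (red a) < S (c (fold b)) + 1 := by
        simp only [q, hgab, hc] at hqa0
        exact (Nat.div_eq_zero_iff_lt (by omega)).1 hqa0
      have hdb : dlt (gd b) (red b) < S (c (fold b)) + 1 := by
        simp only [q] at hq0
        exact (Nat.div_eq_zero_iff_lt (by omega)).1 hq0
      refine ⟨_, _, le_rfl, le_rfl, by omega, by omega, ?_⟩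
      rw [hgab] at hbot
      obtain ⟨hga, _⟩ := down_good (gd b) (len := P.len) (D (c (fold b))) (hD _ _) (red a)
        (by rw [← hgab]; exact hgd a) _ le_rfl
      obtain ⟨hgb, _⟩ := down_good (gd b) (len := P.len) (D (c (fold b))) (hD _ _) (red b)
        (hgd b) _ le_rfl
      have hDab := hD _ _ _ _ hga hgb
      rcases bot_spec (gd b) (red a) with ⟨sa1, sa2⟩ | ⟨x, t, sa1, sa2⟩ <;>
      rcases bot_spec (gd b) (red b) with ⟨sb1, sb2⟩ | ⟨x', t', sb1, sb2⟩
      · rw [sa1, sb1]; simp [red_one]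
      · rw [sa2, sb2] at hbot; simp at hbot
      · rw [sa2, sb2] at hbot; simp at hbot
      · rw [sa2, sb2] at hbot
        simp only [Prod.mk.injEq, Option.some.injEq] at hbot
        obtain ⟨ht, hx⟩ := hbot
        subst ht
        obtain ⟨i, y⟩ := x
        obtain ⟨i', y'⟩ := x'
        dsimp only at hx
        subst hx
        rw [sa1, sb1] at hDab ⊢
        have e1 : ev ((⟨i, y⟩ : Sy I K) :: t) * (ev ((⟨i, y'⟩ : Sy I K) :: t))⁻¹ =
            ev [(⟨i, y * y'⁻¹⟩ : Sy I K)] := by
          simp [mul_assoc]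
        have e2 : PP ((⟨i, y⟩ : Sy I K) :: t) * (PP ((⟨i, y'⟩ : Sy I K) :: t))⁻¹ = y * y'⁻¹ := by
          simp [mul_assoc]
        rw [e2] at hDab
        rw [e1]
        have e3 := wt_red_ev P.one P.mul [(⟨i, y * y'⁻¹⟩ : Sy I K)]
        simp only [wt_cons, wt_nil] at e3
        omega
    · have hqa0 : q a ≠ 0 := by rw [hqq]; exact hq0
      have hqMa : q a * (S (c (fold b)) + 1) ≤ dlt (gd b) (red a) := by
        simp only [q, hgab, hc]
        exact Nat.div_mul_le_self _ _
      have hqMb : q b * (S (c (fold b)) + 1) ≤ dlt (gd b) (red b) := Nat.div_mul_le_self _ _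
      have hqMa' : dlt (gd b) (red a) < (q a + 1) * (S (c (fold b)) + 1) := by
        simp only [q, hgab, hc]
        rw [Nat.add_mul, one_mul]
        exact Nat.lt_div_mul_add (by omega)
      have hqMb' : dlt (gd b) (red b) < (q b + 1) * (S (c (fold b)) + 1) := by
        simp only [q]
        rw [Nat.add_mul, one_mul]
        exact Nat.lt_div_mul_add (by omega)
      have hq1 : S (c (fold b)) + 1 ≤ q b * (S (c (fold b)) + 1) :=
        Nat.le_mul_of_pos_left _ (Nat.pos_of_ne_zero hq0)
      rw [Nat.add_mul, one_mul] at hqMa' hqMb'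
      rw [hqq] at hqMa hqMa'
      rw [if_neg hqa0, if_neg hq0] at hrt
      refine ⟨(red a).length - ms a, (red b).length - ms b, ?_, ?_, ?_, ?_, ?_⟩
      · simp only [ms, hgab, hc]; omega
      · simp only [ms]; omega
      · simp only [ms, hgab, hc, hqq]; omega
      · simp only [ms]; omega
      · have : (red a).drop ((red a).length - ms a) = (red b).drop ((red b).length - ms b) := hrt
        rw [this]; simp [red_one]

end FreeProduct


section Maps
open Monoid
variable {I K : Type} [Group K]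

/-- change of index. -/
def mp (f : I → I) : FP I K →* FP I K := CoprodI.lift (fun i => inc (f i))

lemma mp_inc (f : I → I) (i : I) (x : K) : mp f (inc i x) = inc (f i) x := by
  simp [mp, inc]

lemma mp_ev (f : I → I) (u : List (Sy I K)) :
    mp f (ev u) = ev (u.map (fun l => (⟨f l.1, l.2⟩ : Sy I K))) := by
  induction u with
  | nil => simp
  | cons a u ih => rw [ev_cons, map_mul, ih, mp_inc, List.map_cons, ev_cons]

lemma mp_id (n : FP I K) : mp (fun i => i) n = n := by
  rw [← ev_red n, mp_ev]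
  simp

lemma mp_comp (f g : I → I) (n : FP I K) : mp f (mp g n) = mp (fun i => f (g i)) n := by
  rw [← ev_red n, mp_ev, mp_ev, mp_ev]
  simp [Function.comp_def]

lemma red_mp (f : I → I) (hf : Function.Injective f) (n : FP I K) :
    red (mp f n) = (red n).map (fun l => (⟨f l.1, l.2⟩ : Sy I K)) := by
  conv_lhs => rw [← ev_red n, mp_ev]
  apply red_ev
  · intro l hl
    obtain ⟨l', hl', rfl⟩ := List.mem_map.1 hl
    exact red_ne_one n l' hl'
  · rw [List.isChain_map]
    refine (red_chain n).imp ?_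
    intro a b hab h
    exact hab (hf h)

lemma wt_map (len : K → ℕ) (f : I → I) (u : List (Sy I K)) :
    wt len (u.map (fun l => (⟨f l.1, l.2⟩ : Sy I K))) = wt len u := by
  simp [wt, Function.comp_def]

end Maps

section GraphProduct
open Monoid

variable {V : Type} (Γ : SimpleGraph V) {G : V → Type} [∀ v, Group (G v)]
  {H : Type} [Group H] (ι : ∀ v, G v →* H)

/-- evaluation of words in the graph product. -/
def evH (w : List (Σ v, G v)) : H := (w.map (fun l => ι l.1 l.2)).prod

@[simp] lemma evH_nil : evH ι ([] : List (Σ v, G v)) = 1 := rfl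
@[simp] lemma evH_cons (a : Σ v, G v) (w : List (Σ v, G v)) :
    evH ι (a :: w) = ι a.1 a.2 * evH ι w := by simp [evH]
lemma evH_append (w w' : List (Σ v, G v)) : evH ι (w ++ w') = evH ι w * evH ι w' := by
  simp [evH]

/-- the universal property -/
def Univ : Prop := ∀ (K : Type) [Group K] (φ : ∀ v, G v →* K),
        (∀ v w, Γ.Adj v w → ∀ (g : G v) (h : G w), Commute (φ v g) (φ w h)) →
        ∃! f : H →* K, ∀ v, f.comp (ι v) = φ v

/-- the commutation relations -/
def Comm : Prop := ∀ v w, Γ.Adj v w → ∀ (g : G v) (h : G w), Commute (ι v g) (ι w h)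

variable {Γ} {ι}

lemma exists_word (hc : Comm Γ ι) (hu : Univ Γ ι) (h : H) : ∃ w, evH ι w = h := by
  let S : Subgroup H :=
    { carrier := {h | ∃ w, evH ι w = h}
      mul_mem' := by
        rintro a b ⟨w, rfl⟩ ⟨w', rfl⟩
        exact ⟨w ++ w', evH_append ι w w'⟩
      one_mem' := ⟨[], rfl⟩
      inv_mem' := by
        rintro a ⟨w, rfl⟩
        refine ⟨(w.map (fun l => (⟨l.1, l.2⁻¹⟩ : Σ v, G v))).reverse, ?_⟩
        induction w with
        | nil => simp
        | cons a w ih => simp [evH_append, ih] }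
  have hS : ∀ v x, ι v x ∈ S := fun v x => ⟨[⟨v, x⟩], by simp⟩
  obtain ⟨f, hf, _⟩ := hu S (fun v => (ι v).codRestrict S (hS v)) (by
    intro v w hvw g h
    have := hc v w hvw g h
    apply Subtype.ext
    exact this)
  obtain ⟨f0, hf0, huniq⟩ := hu H ι hc
  have h1 : S.subtype.comp f = f0 := huniq _ (by
    intro v
    have := hf v
    ext x
    have h2 := DFunLike.congr_fun this x
    simp only [MonoidHom.comp_apply] at h2 ⊢
    rw [h2]; rfl)
  have h2 : MonoidHom.id H = f0 := huniq _ (by intro v; ext x; rfl)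
  have h3 : (S.subtype.comp f) h = h := by rw [h1, ← h2]; rfl
  rw [← h3]
  exact (f h).2

lemma exists_retraction (hc : Comm Γ ι) (hu : Univ Γ ι) (p : V → Prop) [DecidablePred p] :
    ∃ ρ : H →* H, ∀ v x, ρ (ι v x) = if p v then ι v x else 1 := by
  obtain ⟨f, hf, _⟩ := hu H (fun v => if p v then ι v else 1) (by
    intro v w hvw g h
    by_cases h1 : p v <;> by_cases h2 : p w
    · simp only [h1, h2, if_true]; exact hc v w hvw g h
    · simp [h1, h2]
    · simp [h1, h2]
    · simp [h1, h2])
  refine ⟨f, ?_⟩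
  intro v x
  have := DFunLike.congr_fun (hf v) x
  simp only [MonoidHom.comp_apply] at this
  rw [this]
  by_cases h1 : p v <;> simp [h1]

variable (Γ ι) in
/-- the link subgroup -/
def LK (v₀ : V) : Subgroup H := Subgroup.closure {h | ∃ u x, Γ.Adj v₀ u ∧ h = ι u x}

variable (Γ ι) in
/-- the coset space -/
abbrev CS (v₀ : V) : Type := H ⧸ LK Γ ι v₀

variable (Γ ι) in
/-- action by change of index -/
def actH (v₀ : V) : H →* Equiv.Perm (FP (CS Γ ι v₀) (G v₀)) where
  toFun h :=
    { toFun := mp (fun i => h • i)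
      invFun := mp (fun i => h⁻¹ • i)
      left_inv := by
        intro n
        rw [mp_comp]
        simp only [inv_smul_smul]
        exact mp_id n
      right_inv := by
        intro n
        rw [mp_comp]
        simp only [smul_inv_smul]
        exact mp_id n }
  map_one' := by
    ext n
    simp only [one_smul, Equiv.coe_fn_mk, Equiv.Perm.coe_one, id_eq]
    exact mp_id n
  map_mul' := by
    intro g h
    ext n
    simp only [Equiv.coe_fn_mk, Equiv.Perm.coe_mul, Function.comp_apply]
    rw [mp_comp]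
    simp only [mul_smul]

lemma actH_apply (v₀ : V) (h : H) (n : FP (CS Γ ι v₀) (G v₀)) :
    actH Γ ι v₀ h n = mp (fun i => h • i) n := rfl

variable (Γ ι) in
/-- left multiplication. -/
def actL (v₀ : V) : G v₀ →* Equiv.Perm (FP (CS Γ ι v₀) (G v₀)) :=
  (MulAction.toPermHom (FP (CS Γ ι v₀) (G v₀)) (FP (CS Γ ι v₀) (G v₀))).comp
    (inc (((1 : H) : CS Γ ι v₀)))

lemma actL_apply (v₀ : V) (x : G v₀) (n : FP (CS Γ ι v₀) (G v₀)) :
    actL Γ ι v₀ x n = inc (((1 : H) : CS Γ ι v₀)) x * n := rfl

lemma exists_Psi (hc : Comm Γ ι) (hu : Univ Γ ι) (v₀ : V) :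
    ∃ Ψ : H →* Equiv.Perm (FP (CS Γ ι v₀) (G v₀)),
      (∀ x n, Ψ (ι v₀ x) n = inc (((1 : H) : CS Γ ι v₀)) x * n) ∧
      (∀ u x n, u ≠ v₀ → Ψ (ι u x) n = mp (fun i => ι u x • i) n) := by
  classical
  have hcom : ∀ w, Γ.Adj v₀ w → ∀ (g : G v₀) (h : G w),
      Commute (actL Γ ι v₀ g) (actH Γ ι v₀ (ι w h)) := by
    intro w hw g h
    have hfix : ι w h • (((1 : H) : CS Γ ι v₀)) = (((1 : H) : CS Γ ι v₀)) := by
      change ((ι w h * 1 : H) : CS Γ ι v₀) = _
      rw [mul_one, QuotientGroup.eq]
      rw [mul_one]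
      exact inv_mem (Subgroup.subset_closure ⟨w, h, hw, rfl⟩)
    apply Equiv.ext
    intro n
    simp only [Equiv.Perm.coe_mul, Function.comp_apply]
    rw [actL_apply, actH_apply, actH_apply, actL_apply, map_mul, mp_inc, hfix]
  obtain ⟨Ψ, hΨ, _⟩ := hu (Equiv.Perm (FP (CS Γ ι v₀) (G v₀)))
    (Function.update (fun u => (actH Γ ι v₀).comp (ι u)) v₀ (actL Γ ι v₀)) (by
    intro v w hvw g h
    by_cases h1 : v = v₀
    · subst h1
      have h2 : w ≠ v := hvw.ne'
      rw [Function.update_self, Function.update_of_ne h2]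
      exact hcom w hvw g h
    · by_cases h2 : w = v₀
      · subst h2
        rw [Function.update_self, Function.update_of_ne h1]
        exact (hcom v hvw.symm h g).symm
      · rw [Function.update_of_ne h2, Function.update_of_ne h1]
        exact (hc v w hvw g h).map (actH Γ ι v₀))
  refine ⟨Ψ, ?_, ?_⟩
  · intro x n
    have := DFunLike.congr_fun (hΨ v₀) x
    rw [Function.update_self, MonoidHom.comp_apply] at this
    rw [this]; rfl
  · intro u x n hu0
    have := DFunLike.congr_fun (hΨ u) x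
    rw [Function.update_of_ne hu0, MonoidHom.comp_apply] at this
    rw [this]; rfl

/-- minimal words -/
def MinW (ι : ∀ v, G v →* H) (w : List (Σ v, G v)) : Prop :=
  ∀ w', evH ι w' = evH ι w → w.length ≤ w'.length

lemma exists_minW (hc : Comm Γ ι) (hu : Univ Γ ι) (h : H) : ∃ w, evH ι w = h ∧ MinW ι w := by
  classical
  have hex : ∃ m, ∃ w, evH ι w = h ∧ w.length = m := by
    obtain ⟨w, hw⟩ := exists_word hc hu h
    exact ⟨_, w, hw, rfl⟩
  obtain ⟨w, hw, hl⟩ := Nat.find_spec hex
  refine ⟨w, hw, ?_⟩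
  intro w' hw'
  rw [hl]
  exact Nat.find_min' hex ⟨w', by rw [hw', hw], rfl⟩

lemma MinW.sub {a b c : List (Σ v, G v)} (h : MinW ι (a ++ b ++ c)) : MinW ι b := by
  intro w' hw'
  have := h (a ++ w' ++ c) (by simp only [evH_append, hw'])
  simp only [List.length_append] at this
  omega

lemma MinW.ne_one {w : List (Σ v, G v)} (h : MinW ι w) : ∀ l ∈ w, l.2 ≠ 1 := by
  intro l hl h1
  obtain ⟨a, b, rfl⟩ := List.append_of_mem hl
  have := h (a ++ b) (by simp [evH_append, h1])
  simp at this

lemma link_of_mem (hc : Comm Γ ι) (hu : Univ Γ ι) (v₀ : V) (β : List (Σ v, G v))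
    (hβ : MinW ι β) (hm : evH ι β ∈ LK Γ ι v₀) : ∀ l ∈ β, Γ.Adj v₀ l.1 := by
  classical
  obtain ⟨ρ, hρ⟩ := exists_retraction hc hu (fun u => Γ.Adj v₀ u)
  have h1 : ∀ c ∈ LK Γ ι v₀, ρ c = c := by
    intro c hc'
    induction hc' using Subgroup.closure_induction with
    | mem x hx =>
      obtain ⟨u, x, hu', rfl⟩ := hx
      rw [hρ, if_pos hu']
    | one => simp
    | mul x y _ _ hx hy => rw [map_mul, hx, hy]
    | inv x _ hx => rw [map_inv, hx]
  have h2 : ∀ w : List (Σ v, G v), ρ (evH ι w) = evH ι (w.filter (fun l => Γ.Adj v₀ l.1)) := by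
    intro w
    induction w with
    | nil => simp
    | cons a w ih =>
      rw [evH_cons, map_mul, ih, hρ]
      by_cases ha : Γ.Adj v₀ a.1
      · rw [List.filter_cons_of_pos (by simpa using ha), evH_cons, if_pos ha]
      · rw [List.filter_cons_of_neg (by simpa using ha), if_neg ha, one_mul]
  have h3 := hβ _ ((h2 β).symm.trans (h1 _ hm))
  have h4 : (β.filter (fun l => Γ.Adj v₀ l.1)).length = β.length :=
    le_antisymm (List.length_filter_le _ _) h3
  intro l hl
  have := List.length_filter_eq_length_iff.1 h4 l hl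
  simpa using this

lemma evH_comm (hc : Comm Γ ι) (v₀ : V) (β : List (Σ v, G v)) (hβ : ∀ l ∈ β, Γ.Adj v₀ l.1)
    (x : G v₀) : ι v₀ x * evH ι β = evH ι β * ι v₀ x := by
  induction β with
  | nil => simp
  | cons a β ih =>
    rw [evH_cons, ← mul_assoc, (hc v₀ a.1 (hβ a (by simp)) x a.2).eq, mul_assoc,
      ih (fun l hl => hβ l (by simp [hl])), mul_assoc]

lemma min_word (hc : Comm Γ ι) (hu : Univ Γ ι) (P : ∀ v, PL (G v)) (v₀ : V)
    [DecidableEq V]
    (Ψ : H →* Equiv.Perm (FP (CS Γ ι v₀) (G v₀)))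
    (hΨ1 : ∀ x n, Ψ (ι v₀ x) n = inc (((1 : H) : CS Γ ι v₀)) x * n)
    (hΨ2 : ∀ u x n, u ≠ v₀ → Ψ (ι u x) n = mp (fun i => ι u x • i) n)
    (w : List (Σ v, G v)) (hw : MinW ι w) :
    wt (P v₀).len (red (Ψ (evH ι w) 1)) =
      (w.map (fun l => if l.1 = v₀ then (P l.1).len l.2 else 0)).sum ∧
    ∀ l ∈ (red (Ψ (evH ι w) 1)).head?, ∃ β γ, w = β ++ ⟨v₀, l.2⟩ :: γ ∧
      l.1 = ((evH ι β : H) : CS Γ ι v₀) := by
  induction w with
  | nil => simp [red_one]
  | cons a w ih =>
    obtain ⟨u, x⟩ := a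
    have hw' : MinW ι w := by
      have : (⟨u, x⟩ : Σ v, G v) :: w = [⟨u, x⟩] ++ w ++ [] := by simp
      rw [this] at hw
      exact hw.sub
    obtain ⟨ih1, ih2⟩ := ih hw'
    have hx : x ≠ 1 := hw.ne_one ⟨u, x⟩ (by simp)
    have hmul : Ψ (evH ι (⟨u, x⟩ :: w)) 1 = Ψ (ι u x) (Ψ (evH ι w) 1) := by
      rw [evH_cons, map_mul]; rfl
    rw [hmul]
    by_cases hu0 : u = v₀
    · subst hu0
      rw [hΨ1]
      have hcontra : ∀ s, (∃ β γ, w = β ++ (⟨u, s⟩ : Σ v, G v) :: γ ∧
          (((1 : H) : CS Γ ι u)) = ((evH ι β : H) : CS Γ ι u)) → False := by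
        rintro s ⟨β, γ, hwβ, hmem⟩
        rw [QuotientGroup.eq, inv_one, one_mul] at hmem
        have hβmin : MinW ι β := by
          have : β ++ (⟨u, s⟩ : Σ v, G v) :: γ = [] ++ β ++ ((⟨u, s⟩ : Σ v, G v) :: γ) := by simp
          rw [hwβ, this] at hw'
          exact hw'.sub
        have hadj := link_of_mem hc hu u β hβmin hmem
        have := hw (β ++ (⟨u, x * s⟩ : Σ v, G v) :: γ) (by
          rw [hwβ]
          simp only [evH_append, evH_cons, map_mul]
          rw [← mul_assoc (ι u x) (evH ι β), evH_comm hc u β hadj x]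
          simp only [mul_assoc])
        rw [hwβ] at this
        simp at this
      rcases red_step (((1 : H) : CS Γ ι u)) x (Ψ (evH ι w) 1) with
        h | h | ⟨s, t, ha, hb, h3⟩ | ⟨s, ha, hb, h3⟩
      · exact absurd h.2 hx
      · rw [h.1]
        refine ⟨?_, ?_⟩
        · rw [wt_cons, ih1]; simp
        · intro l hl
          simp only [List.head?_cons, Option.mem_some_iff] at hl
          subst hl
          exact ⟨[], w, rfl, rfl⟩
      · exact (hcontra s (ih2 ⟨(((1 : H) : CS Γ ι u)), s⟩ (by rw [ha]; rfl))).elim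
      · exact (hcontra s (ih2 ⟨(((1 : H) : CS Γ ι u)), s⟩ (by rw [ha]; rfl))).elim
    · rw [hΨ2 u x _ hu0]
      have hinj : Function.Injective (fun i : CS Γ ι v₀ => ι u x • i) := MulAction.injective _
      rw [red_mp _ hinj]
      refine ⟨?_, ?_⟩
      · rw [wt_map, ih1]; simp [hu0]
      · intro l hl
        rw [List.head?_map] at hl
        simp only [Option.mem_def, Option.map_eq_some_iff] at hl
        obtain ⟨l', hl', rfl⟩ := hl
        obtain ⟨β, γ, h1, h2⟩ := ih2 l' hl'
        refine ⟨⟨u, x⟩ :: β, γ, by rw [h1]; rfl, ?_⟩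
        dsimp only
        rw [h2]; rw [evH_cons]; rfl


lemma Psi_isom (hc : Comm Γ ι) (hu : Univ Γ ι) (len : ∀ v, G v → ℕ) (v₀ : V)
    (Ψ : H →* Equiv.Perm (FP (CS Γ ι v₀) (G v₀)))
    (hΨ1 : ∀ x n, Ψ (ι v₀ x) n = inc (((1 : H) : CS Γ ι v₀)) x * n)
    (hΨ2 : ∀ u x n, u ≠ v₀ → Ψ (ι u x) n = mp (fun i => ι u x • i) n)
    (h : H) (a b : FP (CS Γ ι v₀) (G v₀)) :
    wt (len v₀) (red ((Ψ h a)⁻¹ * Ψ h b)) = wt (len v₀) (red (a⁻¹ * b)) := by
  obtain ⟨w, rfl⟩ := exists_word hc hu h
  induction w with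
  | nil => simp
  | cons l w ih =>
    obtain ⟨u, x⟩ := l
    have hmul : ∀ n, Ψ (evH ι (⟨u, x⟩ :: w)) n = Ψ (ι u x) (Ψ (evH ι w) n) := by
      intro n; rw [evH_cons, map_mul]; rfl
    rw [hmul, hmul, ← ih]
    by_cases hu0 : u = v₀
    · subst hu0
      rw [hΨ1, hΨ1]
      congr 2
      group
    · rw [hΨ2 u x _ hu0, hΨ2 u x _ hu0, ← map_inv, ← map_mul,
        red_mp _ (MulAction.injective _), wt_map]

lemma length_le_sum [Fintype V] [DecidableEq V] (P : ∀ v, PL (G v)) (w : List (Σ v, G v))
    (hw : ∀ l ∈ w, l.2 ≠ 1) :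
    w.length ≤ ∑ v, (w.map (fun l => if l.1 = v then (P l.1).len l.2 else 0)).sum := by
  induction w with
  | nil => simp
  | cons a w ih =>
    simp only [List.map_cons, List.sum_cons, Finset.sum_add_distrib, List.length_cons]
    have h1 := ih (fun l hl => hw l (by simp [hl]))
    have h2 : (P a.1).len a.2 ≠ 0 := fun h => hw a (by simp) ((P a.1).eq_one _ h)
    have h3 : ∑ v, (if a.1 = v then (P a.1).len a.2 else 0) = (P a.1).len a.2 := by simp
    rw [h3]
    omega

lemma mem_le_sum [DecidableEq V] (P : ∀ v, PL (G v)) (w : List (Σ v, G v)) (l : Σ v, G v)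
    (hl : l ∈ w) :
    (P l.1).len l.2 ≤ (w.map (fun l' => if l'.1 = l.1 then (P l'.1).len l'.2 else 0)).sum := by
  have : (fun l' : Σ v, G v => if l'.1 = l.1 then (P l'.1).len l'.2 else 0) l ∈
      w.map (fun l' => if l'.1 = l.1 then (P l'.1).len l'.2 else 0) := List.mem_map_of_mem hl
  have := List.single_le_sum (by simp) _ this
  simpa using this

end GraphProduct

theorem main (V : Type) [Fintype V] (Γ : SimpleGraph V) (G : V → Type) [∀ v, Group (G v)]
      [∀ v, Countable (G v)] (H : Type) [Group H] (ι : ∀ v, G v →* H)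
      (hc : ∀ v w, Γ.Adj v w → ∀ (g : G v) (h : G w), Commute (ι v g) (ι w h))
      (hu : ∀ (K : Type) [Group K] (φ : ∀ v, G v →* K),
        (∀ v w, Γ.Adj v w → ∀ (g : G v) (h : G w), Commute (φ v g) (φ w h)) →
        ∃! f : H →* K, ∀ v, f.comp (ι v) = φ v)
      (hG : ∀ v, ∀ F : ℕ → Finset (G v), ∃ n : ℕ, ∃ 𝒰 : Fin n → Set (Set (G v)),
        ∃ L : Finset (G v),
          (∀ i, ∀ U ∈ 𝒰 i, ∀ x ∈ U, ∀ y ∈ U, x⁻¹ * y ∈ L) ∧
          (∀ i : Fin n, ∀ U ∈ 𝒰 i, ∀ U' ∈ 𝒰 i, U ≠ U' →
            ∀ x ∈ U, ∀ y ∈ U', x⁻¹ * y ∉ F i.val) ∧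
          (∀ x : G v, ∃ i, ∃ U ∈ 𝒰 i, x ∈ U)) 
      (F : ℕ → Finset H) : ∃ n : ℕ, ∃ 𝒰 : Fin n → Set (Set H),
        ∃ L : Finset H,
          (∀ i, ∀ U ∈ 𝒰 i, ∀ x ∈ U, ∀ y ∈ U, x⁻¹ * y ∈ L) ∧
          (∀ i : Fin n, ∀ U ∈ 𝒰 i, ∀ U' ∈ 𝒰 i, U ≠ U' →
            ∀ x ∈ U, ∀ y ∈ U', x⁻¹ * y ∉ F i.val) ∧
          (∀ x : H, ∃ i, ∃ U ∈ 𝒰 i, x ∈ U) := by
  classical
  have hc' : Comm Γ ι := hc
  have hu' : Univ Γ ι := fun K _ φ h => hu K φ h
  have hP : ∀ v, Nonempty (PL (G v)) := fun v => exists_PL (G v)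
  obtain ⟨P⟩ : Nonempty (∀ v, PL (G v)) := ⟨fun v => Classical.choice (hP v)⟩
  -- APC of the vertex groups
  have hA : ∀ v, APC (fun x y : G v => (P v).len (x⁻¹ * y)) := by
    intro v R
    obtain ⟨n, 𝒰, L, h1, h2, h3⟩ := hG v (fun i => ((P v).fin (R i)).toFinset)
    choose i U hU hx using h3
    refine ⟨n, L.sup (P v).len, Set (G v), fun x => (i x).val, U, fun x => (i x).2, ?_, ?_⟩
    · intro x y hxy hd
      by_contra hne
      have hi : i x = i y := Fin.ext hxy
      have := h2 (i x) (U x) (hU x) (U y) (by rw [hi]; exact hU y) hne x (hx x) y (hx y)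
      apply this
      simpa using hd
    · intro x y hxy hk
      have := h1 (i x) (U x) (hU x) x (hx x) y (by rw [hk]; exact hx y)
      exact Finset.le_sup (f := (P v).len) this
  have hA' : ∀ v, APC (fun x y : G v => (P v).len (x * y⁻¹)) := by
    intro v
    have := (hA v).comap (fun x => x⁻¹)
    simpa using this
  choose Ψ hΨ1 hΨ2 using fun v => exists_Psi hc' hu' v
  let Lv : ∀ v, H → ℕ := fun v h => wt (P v).len (red (Ψ v h 1))
  have hLv : ∀ v x y, Lv v (x⁻¹ * y) =
      wt (P v).len (red ((Ψ v x 1)⁻¹ * ((Ψ v y 1)⁻¹)⁻¹)) := by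
    intro v x y
    have h1 : Ψ v y 1 = Ψ v x (Ψ v (x⁻¹ * y) 1) := by
      rw [← Equiv.Perm.mul_apply, ← map_mul, mul_inv_cancel_left]
    rw [inv_inv, h1]
    have := Psi_isom hc' hu' (fun v => (P v).len) v (Ψ v) (hΨ1 v) (hΨ2 v) x 1
      (Ψ v (x⁻¹ * y) 1)
    rw [this]; simp [Lv]
  have hAv : ∀ v, APC (fun x y : H => Lv v (x⁻¹ * y)) := by
    intro v
    have h1 := (APC_FP (I := CS Γ ι v) (P v) (hA' v)).comap (fun h : H => (Ψ v h 1)⁻¹)
    have h2 : (fun x y : H => Lv v (x⁻¹ * y)) = (fun x y : H =>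
        wt (P v).len (red ((Ψ v x 1)⁻¹ * ((Ψ v y 1)⁻¹)⁻¹))) := by
      funext x y; exact hLv v x y
    rw [h2]; exact h1
  have hsum := APC.sum Finset.univ (fun v (x y : H) => Lv v (x⁻¹ * y)) hAv
  -- properness
  have hproper : ∀ R, {h : H | ∑ v, Lv v h ≤ R}.Finite := by
    intro R
    have hS : (⋃ v, ι v '' {x | (P v).len x ≤ R}).Finite :=
      Set.finite_iUnion (fun v => ((P v).fin R).image _)
    refine Set.Finite.subset (finite_list_prod _ hS R) ?_
    intro h hh
    obtain ⟨w, rfl, hw⟩ := exists_minW hc' hu' h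
    have hLw : ∀ v, Lv v (evH ι w) =
        (w.map (fun l => if l.1 = v then (P l.1).len l.2 else 0)).sum := fun v =>
      (min_word hc' hu' P v (Ψ v) (hΨ1 v) (hΨ2 v) w hw).1
    have hh' : ∑ v, Lv v (evH ι w) ≤ R := hh
    refine ⟨w.map (fun l => ι l.1 l.2), ?_, ?_, rfl⟩
    · rw [List.length_map]
      have := length_le_sum P w hw.ne_one
      simp only [hLw] at hh'
      exact this.trans hh'
    · intro a ha
      obtain ⟨l, hl, rfl⟩ := List.mem_map.1 ha
      refine Set.mem_iUnion.2 ⟨l.1, l.2, ?_, rfl⟩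
      have h1 := mem_le_sum P w l hl
      rw [← hLw] at h1
      have h2 : Lv l.1 (evH ι w) ≤ ∑ v, Lv v (evH ι w) :=
        Finset.single_le_sum (f := fun v => Lv v (evH ι w)) (fun i _ => Nat.zero_le _)
          (Finset.mem_univ _)
      exact (h1.trans h2).trans hh'
  obtain ⟨n, B, T, c, κ, h1, h2, h3⟩ := hsum (fun i => (F i).sup (fun h => ∑ v, Lv v h))
  refine ⟨n, fun i => {U | ∃ t, U = {x | c x = i ∧ κ x = t}}, (hproper B).toFinset, ?_, ?_, ?_⟩
  · rintro i U ⟨t, rfl⟩ x ⟨hx1, hx2⟩ y ⟨hy1, hy2⟩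
    have := h3 x y (hx1.trans hy1.symm) (hx2.trans hy2.symm)
    simpa using this
  · rintro i U ⟨t, rfl⟩ U' ⟨t', rfl⟩ hne x ⟨hx1, hx2⟩ y ⟨hy1, hy2⟩ hmem
    apply hne
    have : κ x = κ y := by
      apply h2 x y (hx1.trans hy1.symm)
      rw [hx1]
      exact Finset.le_sup (f := fun h => ∑ v, Lv v h) hmem
    rw [← hx2, ← hy2, this]
  · intro x
    exact ⟨⟨c x, h1 x⟩, {y | c y = c x ∧ κ y = κ x}, ⟨κ x, rfl⟩, rfl, rfl⟩

/-- For a finite graph with countable vertex groups, if every vertex group has asymptotic property C (finite-set form), then the graph product, given by its universal property, also has asymptotic property C. -/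
theorem result :
    ∀ (V : Type) [Fintype V] (Γ : SimpleGraph V) (G : V → Type) [∀ v, Group (G v)]
      [∀ v, Countable (G v)] (H : Type) [Group H] (ι : ∀ v, G v →* H),
      (∀ v w, Γ.Adj v w → ∀ (g : G v) (h : G w), Commute (ι v g) (ι w h)) →
      (∀ (K : Type) [Group K] (φ : ∀ v, G v →* K),
        (∀ v w, Γ.Adj v w → ∀ (g : G v) (h : G w), Commute (φ v g) (φ w h)) →
        ∃! f : H →* K, ∀ v, f.comp (ι v) = φ v) →
      (∀ v, ∀ F : ℕ → Finset (G v), ∃ n : ℕ, ∃ 𝒰 : Fin n → Set (Set (G v)),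
        ∃ L : Finset (G v),
          (∀ i, ∀ U ∈ 𝒰 i, ∀ x ∈ U, ∀ y ∈ U, x⁻¹ * y ∈ L) ∧
          (∀ i : Fin n, ∀ U ∈ 𝒰 i, ∀ U' ∈ 𝒰 i, U ≠ U' →
            ∀ x ∈ U, ∀ y ∈ U', x⁻¹ * y ∉ F i.val) ∧
          (∀ x : G v, ∃ i, ∃ U ∈ 𝒰 i, x ∈ U)) →
      (∀ F : ℕ → Finset H, ∃ n : ℕ, ∃ 𝒰 : Fin n → Set (Set H),
        ∃ L : Finset H,
          (∀ i, ∀ U ∈ 𝒰 i, ∀ x ∈ U, ∀ y ∈ U, x⁻¹ * y ∈ L) ∧
          (∀ i : Fin n, ∀ U ∈ 𝒰 i, ∀ U' ∈ 𝒰 i, U ≠ U' →
            ∀ x ∈ U, ∀ y ∈ U', x⁻¹ * y ∉ F i.val) ∧
          (∀ x : H, ∃ i, ∃ U ∈ 𝒰 i, x ∈ U)) := by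
  intro V _ Γ G _ _ H _ ι hc hu hG F
  exact main V Γ G H ι hc hu hG F

end Pool.Agent.S13007
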