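import Pool.Statements.S13033
import Pool.Agent.H705R3.Fin
-- import your own Pool.Agent.* helpers here

set_option autoImplicit false
open Pool Pool.MP_3a8a48_gt

namespace Pool.Agent.S13033

/-- For every m≥2, n<m and convex body K in R^m, (m−n) times the n-th intrinsic volume of K (as a Steiner coefficient) is at most the sum of the n-th intrinsic volumes of K's projections onto the m coordinate hyperplanes. -/
theorem result :
    ∀ m : ℕ, 2 ≤ m → ∀ n : ℕ, n < m →
    ∀ K : Set (EuclideanSpace ℝ (Fin m)),
      IsCompact K → Convex ℝ K → (interior K).Nonempty →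
      ∀ a : ℕ → ℝ, ∀ b : Fin m → ℕ → ℝ,
        (∀ t : ℝ, 0 ≤ t →
          (MeasureTheory.volume (Metric.cthickening t K)).toReal =
            ∑ j ∈ Finset.range (m + 1),
              (MeasureTheory.volume
                (Metric.ball (0 : EuclideanSpace ℝ (Fin (m - j))) 1)).toReal
                * a j * t ^ (m - j)) →
        (∀ i : Fin m, ∀ t : ℝ, 0 ≤ t →
          (MeasureTheory.volume (Metric.cthickening t
            ((fun x : EuclideanSpace ℝ (Fin m) =>
                x - (inner ℝ x (EuclideanSpace.single i (1 : ℝ))) •
                  EuclideanSpace.single i (1 : ℝ)) '' K))).toReal =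
            ∑ j ∈ Finset.range (m + 1),
              (MeasureTheory.volume
                (Metric.ball (0 : EuclideanSpace ℝ (Fin (m - j))) 1)).toReal
                * b i j * t ^ (m - j)) →
        ((m : ℝ) - (n : ℝ)) * a n ≤ ∑ i : Fin m, b i n := by
  intro m hm n hn K hKc hK _ a b ha hb
  obtain ⟨m', rfl⟩ : ∃ m', m = m' + 1 := ⟨m - 1, by omega⟩
  refine Pool.Agent.H705R3.final hKc hK a b ?_ ?_ n hn
  · intro t ht
    rw [Pool.Agent.H705R3.St_eval]
    exact ha t ht
  · intro i t ht
    rw [Pool.Agent.H705R3.St_eval]
    exact hb i t ht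


end Pool.Agent.S13033
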