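import Pool.Statements.S13138
import Pool.Agent.H73R3.Chain

set_option autoImplicit false
open scoped Manifold
open Pool Pool.MP_4bb23b_gt

namespace Pool.Agent.S13138

/-- The negation of the preceding statement: For nonempty smooth manifolds X, Y: if X×Y has a totally skew embedding in R^N, then X and Y have totally skew embeddings in R^a and R^b with a+b ≤ N+1, i.e. N(X×Y) ≥ N(X)+N(Y)−1. -/
theorem result :
    ¬ (∀ (n m : ℕ) (X Y : Type) [TopologicalSpace X] [ChartedSpace (EuclideanSpace ℝ (Fin n)) X]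
    [IsManifold (𝓡 n) ((⊤ : ℕ∞) : WithTop ℕ∞) X] [T2Space X] [SecondCountableTopology X] [Nonempty X]
    [TopologicalSpace Y] [ChartedSpace (EuclideanSpace ℝ (Fin m)) Y]
    [IsManifold (𝓡 m) ((⊤ : ℕ∞) : WithTop ℕ∞) Y] [T2Space Y] [SecondCountableTopology Y] [Nonempty Y]
    (N : ℕ),
    (∃ f : X × Y → EuclideanSpace ℝ (Fin N),
      ContMDiff ((𝓡 n).prod (𝓡 m)) (𝓡 N) ((⊤ : ℕ∞) : WithTop ℕ∞) f ∧ Topology.IsEmbedding f ∧
      ∀ p q : X × Y, p ≠ q →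
        ∀ (u v : EuclideanSpace ℝ (Fin n) × EuclideanSpace ℝ (Fin m)) (t : ℝ),
          fderiv ℝ (f ∘ (extChartAt ((𝓡 n).prod (𝓡 m)) p).symm)
              (extChartAt ((𝓡 n).prod (𝓡 m)) p p) u
            + fderiv ℝ (f ∘ (extChartAt ((𝓡 n).prod (𝓡 m)) q).symm)
              (extChartAt ((𝓡 n).prod (𝓡 m)) q q) v
            + t • (f q - f p) = 0 → u = 0 ∧ v = 0 ∧ t = 0) →
    ∃ a b : ℕ, a + b ≤ N + 1 ∧
      (∃ g : X → EuclideanSpace ℝ (Fin a),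
        ContMDiff (𝓡 n) (𝓡 a) ((⊤ : ℕ∞) : WithTop ℕ∞) g ∧ Topology.IsEmbedding g ∧
        ∀ x y : X, x ≠ y →
          ∀ (u v : EuclideanSpace ℝ (Fin n)) (t : ℝ),
            fderiv ℝ (g ∘ (extChartAt (𝓡 n) x).symm) (extChartAt (𝓡 n) x x) u
              + fderiv ℝ (g ∘ (extChartAt (𝓡 n) y).symm) (extChartAt (𝓡 n) y y) v
              + t • (g y - g x) = 0 → u = 0 ∧ v = 0 ∧ t = 0) ∧
      (∃ h : Y → EuclideanSpace ℝ (Fin b),
        ContMDiff (𝓡 m) (𝓡 b) ((⊤ : ℕ∞) : WithTop ℕ∞) h ∧ Topology.IsEmbedding h ∧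
        ∀ x y : Y, x ≠ y →
          ∀ (u v : EuclideanSpace ℝ (Fin m)) (t : ℝ),
            fderiv ℝ (h ∘ (extChartAt (𝓡 m) x).symm) (extChartAt (𝓡 m) x x) u
              + fderiv ℝ (h ∘ (extChartAt (𝓡 m) y).symm) (extChartAt (𝓡 m) y y) v
              + t • (h y - h x) = 0 → u = 0 ∧ v = 0 ∧ t = 0)) := by
  intro H
  have step : ∀ k N : ℕ, Pool.Agent.H73R3.TSE (k + 2) N →
      ∃ b : ℕ, b + 3 ≤ N ∧ Pool.Agent.H73R3.TSE (k + 1) b := by
    intro k N hN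
    obtain ⟨F, hF1, hF2, hF3⟩ := Pool.Agent.H73R3.prod_of_TSE k N hN
    have hman : IsManifold (𝓡 1) ((⊤ : ℕ∞) : WithTop ℕ∞) Pool.Agent.H73R3.S1 :=
      IsManifold.of_le (n := ((⊤ : WithTop ℕ∞))) le_top
    have hne : Nonempty Pool.Agent.H73R3.S1 := ⟨Pool.Agent.H73R3.angS 0⟩
    obtain ⟨a, b, hab, ⟨g, hg1, hg2, hg3⟩, ⟨h, hh1, hh2, hh3⟩⟩ :=
      H 1 (k + 1) Pool.Agent.H73R3.S1 (EuclideanSpace ℝ (Fin (k + 1))) N ⟨F, hF1, hF2, hF3⟩
    have ha : 4 ≤ a := Pool.Agent.H73R3.circle_ge_four g hg1 hg2.injective hg3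
    refine ⟨b, by omega, h, ?_, hh2, ?_⟩
    · rw [← contMDiff_iff_contDiff]
      exact hh1
    · intro x y hxy u v t heq
      apply hh3 x y hxy u v t
      simpa only [extChartAt_model_space_eq_id, PartialEquiv.refl_symm, PartialEquiv.refl_coe,
        Function.comp_id, id_eq] using heq
  obtain ⟨b5, h5, t5⟩ := step 4 17 Pool.Agent.H73R3.tse_6_17
  obtain ⟨b4, h4, t4⟩ := step 3 b5 t5
  obtain ⟨b3, h3, t3⟩ := step 2 b4 t4
  obtain ⟨b2, h2, t2⟩ := step 1 b3 t3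
  obtain ⟨b1, h1, t1⟩ := step 0 b2 t2
  obtain ⟨f, hf1, hf2, hf3⟩ := t1
  have hxy : (0 : EuclideanSpace ℝ (Fin 1)) ≠ EuclideanSpace.single 0 1 := by
    intro h
    have := congrArg (fun z : EuclideanSpace ℝ (Fin 1) => z 0) h
    simp at this
  have := Pool.Agent.H73R3.three_le (by simp) _ _ _ (hf3 0 (EuclideanSpace.single 0 1) hxy)
  omega

end Pool.Agent.S13138
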