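import Pool.Statements.S13150
import Pool.Agent.H262.Erd3

set_option autoImplicit false
open Pool Pool.MP_4f0e62_gt

namespace Pool.Agent.S13150

/-- The negation of the preceding statement: For every n ≥ 1 and every nonempty separable metrizable space locally homeomorphic to open subsets of the n-dimensional Menger compactum, its homeomorphism group with the compact-open topology is homeomorphic to complete Erdős space. -/
theorem result :
    ¬ (∀ (n : ℕ), 1 ≤ n →
    ∀ (M : Type) [TopologicalSpace M] [TopologicalSpace.MetrizableSpace M]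
      [TopologicalSpace.SeparableSpace M] [Nonempty M],
      (∀ x : M, ∃ V : Set M, IsOpen V ∧ x ∈ V ∧
        ∃ U : Set {y : Fin (2 * n + 1) → ℝ |
            ∀ k : ℕ, ∃ a : Fin (2 * n + 1) → ℕ,
              (∀ i, a i < 3 ^ k ∧ (a i : ℝ) / 3 ^ k ≤ y i ∧ y i ≤ ((a i : ℝ) + 1) / 3 ^ k) ∧
              ∀ j < k, (Finset.univ.filter (fun i => a i / 3 ^ j % 3 = 1)).card ≤ n},
          IsOpen U ∧ Nonempty (V ≃ₜ U)) →
      Nonempty (@Homeomorph (M ≃ₜ M)
        {x : lp (fun _ : ℕ => ℝ) 2 | ∀ i : ℕ, (x : ℕ → ℝ) i = 0 ∨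
            ∃ k : ℕ, 0 < k ∧ (x : ℕ → ℝ) i = 1 / (k : ℝ)}
        (TopologicalSpace.induced (fun g : M ≃ₜ M => ContinuousMap.mk (⇑g) g.continuous)
          inferInstance)
        inferInstance)) := by
  intro H
  have H1 := H 1 le_rfl
  clear H
  -- the Menger curve
  let X : Type := {y : Fin (2 * 1 + 1) → ℝ |
            ∀ k : ℕ, ∃ a : Fin (2 * 1 + 1) → ℕ,
              (∀ i, a i < 3 ^ k ∧ (a i : ℝ) / 3 ^ k ≤ y i ∧ y i ≤ ((a i : ℝ) + 1) / 3 ^ k) ∧
              ∀ j < k, (Finset.univ.filter (fun i => a i / 3 ^ j % 3 = 1)).card ≤ 1}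
  have hne : Nonempty X := by
    refine ⟨⟨fun _ => 0, ?_⟩⟩
    intro k
    refine ⟨fun _ => 0, ?_, ?_⟩
    · intro i
      refine ⟨by positivity, by simp, ?_⟩
      positivity
    · intro j _
      simp
  have hX := H1 X (by
    intro x
    refine ⟨Set.univ, isOpen_univ, Set.mem_univ _, Set.univ, isOpen_univ, ?_⟩
    exact ⟨Homeomorph.refl _⟩)
  have hNX := H1 (ℕ × X) (by
    rintro ⟨m, x⟩
    refine ⟨{m} ×ˢ Set.univ, (isOpen_discrete _).prod isOpen_univ, ⟨rfl, Set.mem_univ _⟩,
      Set.univ, isOpen_univ, ?_⟩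
    exact ⟨{ toFun := fun p => ⟨p.1.2, Set.mem_univ _⟩
             invFun := fun y => ⟨(m, y.1), rfl, Set.mem_univ _⟩
             left_inv := by
               rintro ⟨⟨j, y⟩, hj, hy⟩
               have hj' : j = m := hj
               subst hj'
               rfl
             right_inv := by
               rintro ⟨y, hy⟩
               rfl
             continuous_toFun := by fun_prop
             continuous_invFun := by fun_prop }⟩)
  obtain ⟨Φ₁⟩ := hX
  obtain ⟨Φ₂⟩ := hNX
  exact Pool.Agent.H262.Erd.not_both Φ₁ Φ₂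

end Pool.Agent.S13150
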