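import Pool.Statements.S13204
import Pool.Agent.H104R3.Span2

set_option autoImplicit false
open Pool Pool.MP_58de27_gt

namespace Pool.Agent.S13204

open Pool.Agent.H104R3.Span Metric Set

/-- connected sets at distance more than one with equal projections do not exist -/
lemma span_le {ε : ℝ} (hε : 1 < ε) (Z : Set (Y × Y)) (hZ : IsConnected Z)
    (hproj : Prod.fst '' Z = Prod.snd '' Z) (hd : ∀ p ∈ Z, ε ≤ dist p.1 p.2) : False := by
  have hr := r_pos
  set g : Y × Y → S × S := fun p => (hom.symm p.1, hom.symm p.2) with hg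
  have hgc : Continuous g :=
    (hom.symm.continuous.comp continuous_fst).prodMk (hom.symm.continuous.comp continuous_snd)
  set Z' := g '' Z with hZ'
  have hZ'conn : IsConnected Z' := hZ.image _ hgc.continuousOn
  have hf : Prod.fst '' Z' = hom.symm '' (Prod.fst '' Z) := by
    rw [hZ', ← image_comp, ← image_comp]
    rfl
  have hs : Prod.snd '' Z' = hom.symm '' (Prod.snd '' Z) := by
    rw [hZ', ← image_comp, ← image_comp]
    rfl
  have hproj' : Prod.fst '' Z' = Prod.snd '' Z' := by rw [hf, hs, hproj]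
  have hD : ∀ p ∈ Z', ε ≤ D p.1 p.2 := by
    rintro p ⟨q, hq, rfl⟩
    have h1 := hd q hq
    have h2 := dist_hom (hom.symm q.1) (hom.symm q.2)
    rw [Homeomorph.apply_symm_apply, Homeomorph.apply_symm_apply] at h2
    show ε ≤ D (hom.symm q.1) (hom.symm q.2)
    rw [← h2]
    exact h1
  have hw : ∀ p ∈ Z', 0 < w p.1 p.2 := by
    intro p hp
    have h1 := hD p hp
    unfold D at h1
    have := min_le_left 1 (dist p.1 p.2 / r)
    linarith
  have hfar : ∀ p ∈ Z', r ≤ dist p.1 p.2 := by
    intro p hp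
    by_contra hlt
    push Not at hlt
    have h1 := hw p hp
    rw [w_near (by linarith)] at h1
    exact lt_irrefl _ h1
  have hthick : Z' ⊆ thickening r A ∪ thickening r B := by
    intro p hp
    have h1 := hw p hp
    unfold w at h1
    rw [lt_max_iff] at h1
    rcases h1 with h1 | h1
    · exact absurd h1 (lt_irrefl _)
    rw [sub_pos, div_lt_one hr] at h1
    rw [← thickening_union]
    have hp' : p = (p.1, p.2) := rfl
    rw [mem_thickening_iff]
    obtain ⟨q, hq, hdq⟩ := (infDist_lt_iff (A_nonempty.mono subset_union_left)).1 h1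
    exact ⟨q, hq, hdq⟩
  have hdist : ∀ U V : Set (S × S), ∀ p ∈ thickening r U, p.1 ∈ cthickening r (Prod.fst '' U) := by
    intro U V p hp
    rw [mem_thickening_iff] at hp
    obtain ⟨q, hq, hdq⟩ := hp
    apply thickening_subset_cthickening
    rw [mem_thickening_iff]
    exact ⟨q.1, ⟨q, hq, rfl⟩, lt_of_le_of_lt (by rw [Prod.dist_eq]; exact le_max_left _ _) hdq⟩
  have hdist2 : ∀ U : Set (S × S), ∀ p ∈ thickening r U, p.2 ∈ cthickening r (Prod.snd '' U) := by
    intro U p hp
    rw [mem_thickening_iff] at hp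
    obtain ⟨q, hq, hdq⟩ := hp
    apply thickening_subset_cthickening
    rw [mem_thickening_iff]
    exact ⟨q.2, ⟨q, hq, rfl⟩, lt_of_le_of_lt (by rw [Prod.dist_eq]; exact le_max_right _ _) hdq⟩
  have hBA : Prod.fst '' B = Prod.snd '' A := by
    unfold B
    rw [← image_comp]
    rfl
  have hor := hZ'conn.isPreconnected.subset_or_subset isOpen_thickening isOpen_thickening r_disj hthick
  have hW : Prod.fst '' Z' ⊆ cthickening r (Prod.snd '' A) := by
    rcases hor with h | h
    · rw [hproj']
      rintro x ⟨p, hp, rfl⟩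
      exact hdist2 A p (h hp)
    · rintro x ⟨p, hp, rfl⟩
      rw [← hBA]
      exact hdist B B p (h hp)
  exact no_conn hZ'conn hproj' isClosed_cthickening r_half hW hr hfar

/-- The negation of the preceding statement: For every simple closed curve C in a metric space, the span of C (sup of ε with a connected Z in C×C, equal projections, all pairs at distance ≥ ε) equals the semi-span (same, second projection contained in first). -/
theorem result :
    ¬ (∀ (X : Type) [MetricSpace X] (C : Set X),
      Nonempty (↥C ≃ₜ ↥(Metric.sphere (0 : ℂ) 1)) →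
      sSup {ε : ℝ | ∃ Z : Set (X × X), Z ⊆ C ×ˢ C ∧ IsConnected Z ∧
          Prod.fst '' Z = Prod.snd '' Z ∧ ∀ p ∈ Z, ε ≤ dist p.1 p.2}
        = sSup {ε : ℝ | ∃ Z : Set (X × X), Z ⊆ C ×ˢ C ∧ IsConnected Z ∧
          Prod.snd '' Z ⊆ Prod.fst '' Z ∧ ∀ p ∈ Z, ε ≤ dist p.1 p.2}) := by
  intro hall
  have h := hall Y univ ⟨(Homeomorph.Set.univ Y).trans hom.symm⟩
  have hr := r_pos
  have h1 : sSup {ε : ℝ | ∃ Z : Set (Y × Y), Z ⊆ univ ×ˢ univ ∧ IsConnected Z ∧
          Prod.fst '' Z = Prod.snd '' Z ∧ ∀ p ∈ Z, ε ≤ dist p.1 p.2} ≤ 1 := by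
    apply Real.sSup_le _ zero_le_one
    rintro ε ⟨Z, -, hZ, hproj, hd⟩
    by_contra hlt
    push Not at hlt
    exact span_le hlt Z hZ hproj hd
  have h2 : (2 : ℝ) ≤ sSup {ε : ℝ | ∃ Z : Set (Y × Y), Z ⊆ univ ×ˢ univ ∧ IsConnected Z ∧
          Prod.snd '' Z ⊆ Prod.fst '' Z ∧ ∀ p ∈ Z, ε ≤ dist p.1 p.2} := by
    apply le_csSup
    · refine ⟨2, ?_⟩
      rintro ε ⟨Z, -, hZ, -, hd⟩
      obtain ⟨z, hz⟩ := hZ.nonempty
      exact (hd z hz).trans (D_le_two _ _)
    · set g : S × S → Y × Y := fun p => (hom p.1, hom p.2) with hg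
      have hgc : Continuous g :=
        (hom.continuous.comp continuous_fst).prodMk (hom.continuous.comp continuous_snd)
      refine ⟨g '' A, fun p _ => ⟨mem_univ _, mem_univ _⟩, A_conn.image _ hgc.continuousOn, ?_, ?_⟩
      · have : Prod.fst '' (g '' A) = univ := by
          have e1 : Prod.fst '' (g '' A) = hom '' (Prod.fst '' A) := by
            rw [← image_comp, ← image_comp]
            rfl
          rw [e1, fst_A, image_univ]
          exact hom.surjective.range_eq
        rw [this]
        exact subset_univ _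
      · rintro p ⟨q, hq, rfl⟩
        show (2 : ℝ) ≤ D q.1 q.2
        unfold D w
        have hq' : q ∈ A ∪ B := Or.inl hq
        have e1 : infDist (q.1, q.2) (A ∪ B) = 0 := infDist_zero_of_mem hq'
        rw [e1]
        have e2 := r_diag q hq'
        rw [min_eq_left (by rw [one_le_div hr]; linarith)]
        simp
        norm_num
  rw [h] at h1
  linarith

end Pool.Agent.S13204
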