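import Pool.Statements.S13226
import Pool.Agent.H275R3.OhFin

set_option autoImplicit false
open scoped MeasureTheory
open Pool Pool.MP_5a8125_gt

namespace Pool.Agent.S13226

/-- The negation of the preceding statement: For all 1≤k≤n and 0<a≤b, the torus in C^n with k circle radii a and n−k radii b has n-dim volume no larger than its image under any compactly supported Hamiltonian flow. -/
theorem result :
    ¬ (∀ (n k : ℕ) (a b : ℝ), 1 ≤ k → k ≤ n → 0 < a → a ≤ b →
      ∀ (H : ℝ → EuclideanSpace ℂ (Fin n) → ℝ)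
        (φ : ℝ → EuclideanSpace ℂ (Fin n) → EuclideanSpace ℂ (Fin n)),
        ContDiff ℝ ((⊤ : ℕ∞) : WithTop ℕ∞) (Function.uncurry H) →
        HasCompactSupport (Function.uncurry H) →
        (∀ x, φ 0 x = x) →
        (∀ (t : ℝ) (x : EuclideanSpace ℂ (Fin n)),
          ∃ v : EuclideanSpace ℂ (Fin n),
            HasDerivAt (fun s => φ s x) v t ∧
            ∀ w : EuclideanSpace ℂ (Fin n),
              fderiv ℝ (H t) (φ t x) w = (inner ℂ v w).im) →
        μH[(n : ℝ)] {z : EuclideanSpace ℂ (Fin n) |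
            ∀ i : Fin n, ‖z i‖ = if (i : ℕ) < k then a else b}
          ≤ μH[(n : ℝ)] (φ 1 '' {z : EuclideanSpace ℂ (Fin n) |
            ∀ i : Fin n, ‖z i‖ = if (i : ℕ) < k then a else b})) := by
  intro hall
  obtain ⟨b, hb, H, φ, h1, h2, h3, h4, h5⟩ := Pool.Agent.H275R3.main
  have hT : {z : EuclideanSpace ℂ (Fin 3) | ∀ i : Fin 3, ‖z i‖ = if (i : ℕ) < 1 then (1 : ℝ) else b}
      = Pool.Agent.H275R3.TT b := by
    ext z
    constructor
    · intro hz
      have e0 := hz 0
      have e1 := hz 1
      have e2 := hz 2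
      simp at e0 e1 e2
      exact ⟨e0, e1, e2⟩
    · rintro ⟨e0, e1, e2⟩ i
      fin_cases i
      · simpa using e0
      · simpa using e1
      · simpa using e2
  have := hall 3 1 1 b le_rfl (by norm_num) one_pos hb H φ h1 h2 h3 h4
  rw [hT] at this
  exact absurd this (not_le.2 h5)

end Pool.Agent.S13226
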