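import Pool.Statements.S13236
import Pool.Agent.H855R3.HC.Geo5

set_option autoImplicit false
open Pool Pool.MP_5b78b3_gt

namespace Pool.Agent.S13236

/-- The homothety conjecture is false in the plane: a body with five-fold symmetry, bifurcating from
the disk, has a convex floating body homothetic to itself without being an ellipse. -/
theorem result :
    ¬ (∀ (d : ℕ) (K : Set (EuclideanSpace ℝ (Fin d))) (δ : ℝ) (c : ℝ)
      (x : EuclideanSpace ℝ (Fin d)),
      IsCompact K → Convex ℝ K → (interior K).Nonempty → 0 < δ → 0 < c →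
      (⋂ (u : EuclideanSpace ℝ (Fin d)) (t : ℝ) (_ : u ≠ 0)
          (_ : MeasureTheory.volume (K \ {y | inner ℝ u y ≤ t}) ≤ ENNReal.ofReal δ),
          {y : EuclideanSpace ℝ (Fin d) | inner ℝ u y ≤ t})
        = (fun y => c • y + x) '' K →
      ∃ A : EuclideanSpace ℝ (Fin d) ≃ᵃ[ℝ] EuclideanSpace ℝ (Fin d),
        K = A '' Metric.closedBall 0 1) := by
  intro h
  obtain ⟨e, he, he', v, hg, hb, hell, heq⟩ := H855HC.exists_solution
  obtain ⟨hc, hc'⟩ := H855HC.cc_bounds he he'
  have S : H855HC.Sol (H855HC.cc e) v := ⟨hc, hc', hg, hb, heq⟩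
  obtain ⟨A, hA⟩ := h 2 (H855HC.KK v) (H855HC.A2 (H855HC.cc e) v 0 / 2)
    ((√(1 + H855HC.cc e ^ 2))⁻¹) 0 S.KK_compact (H855HC.KK_convex v) S.KK_interior S.A2_pos
    (by positivity) S.floating
  exact S.not_ellipse hell A hA

end Pool.Agent.S13236
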