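import Pool.Statements.S13286

/-!
The space `X` is a countable dense subset of the Cantor cube `{0,1}^I` with `I` uncountable.  In a
compactification `K` choose for every `i` disjoint closed sets `C1 i`, `C0 i` such that `C1 i`
contains a basic neighbourhood of a fixed point `p` of `X` and `C0 i` contains all the points `x` of
`X` with `x i ≠ p i`.  A recursion of length `ω₁` selects coordinates `f ξ` such that, by density of
`X` and compactness of `K`, there are points `y ξ` in `C1 (f η)` for `η < ξ` and in `C0 (f η)` for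
`ξ ≤ η`.  The closure of `{y ξ}` is a closed nonseparable subspace of `K`.
-/

set_option autoImplicit false
open Topology
open Pool Pool.MP_64adfd_gt

namespace Pool.Agent.S13286

/-- the coordinates -/
abbrev I : Type := ℕ → Bool

/-- the points of the countable dense set -/
def code (c : Σ n : ℕ, Finset (Fin n → Bool)) : I → Bool :=
  fun i => decide ((fun k : Fin c.1 => i k) ∈ c.2)

/-- the countable dense set -/
def X0 : Set (I → Bool) := Set.range code

lemma X0_countable : X0.Countable := Set.countable_range _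

lemma separate (s : Finset I) : ∃ n : ℕ, ∀ i ∈ s, ∀ j ∈ s, (∀ k < n, i k = j k) → i = j := by
  have h : ∀ q ∈ s ×ˢ s, ∀ᶠ n : ℕ in Filter.atTop, (∀ k < n, q.1 k = q.2 k) → q.1 = q.2 := by
    intro q _
    by_cases hq : q.1 = q.2
    · exact Filter.Eventually.of_forall fun _ _ => hq
    · obtain ⟨k, hk⟩ := Function.ne_iff.mp hq
      filter_upwards [Filter.eventually_gt_atTop k] with n hn h
      exact absurd (h k hn) hk
  obtain ⟨n, hn⟩ := ((Finset.eventually_all _).mpr h).exists
  exact ⟨n, fun i hi j hj => hn (i, j) (Finset.mk_mem_product hi hj)⟩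

lemma X0_dense (s : Finset I) (v : I → Bool) : ∃ x ∈ X0, ∀ i ∈ s, x i = v i := by
  classical
  obtain ⟨n, hn⟩ := separate s
  set S : Finset (Fin n → Bool) := (s.filter (fun i => v i = true)).image
    (fun i => fun k : Fin n => i k) with hS
  refine ⟨code ⟨n, S⟩, ⟨_, rfl⟩, fun i hi => ?_⟩
  have key : ((fun k : Fin n => i k) ∈ S) ↔ v i = true := by
    rw [hS, Finset.mem_image]
    constructor
    · rintro ⟨j, hj, hji⟩
      rw [Finset.mem_filter] at hj
      have : i = j := hn i hi j hj.1 fun k hk => (congrFun hji ⟨k, hk⟩).symm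
      rw [this]
      exact hj.2
    · intro h
      exact ⟨i, Finset.mem_filter.mpr ⟨hi, h⟩, rfl⟩
  change decide ((fun k : Fin n => i k) ∈ S) = v i
  by_cases h : v i = true
  · rw [h]
    simpa using key.mpr h
  · have h2 : v i = false := by simpa using h
    rw [h2, decide_eq_false_iff_not]
    exact fun h3 => h (key.mp h3)

/-- the index type `ω₁` -/
abbrev W : Type := (Cardinal.aleph 1).ord.ToType

lemma W_uncountable : ¬ (Set.univ : Set W).Countable := by
  rw [← Cardinal.le_aleph0_iff_set_countable, Cardinal.mk_univ, Cardinal.mk_ord_toType, not_le]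
  exact Cardinal.aleph0_lt_aleph_one

lemma W_Iio (ξ : W) : (Set.Iio ξ).Countable := by
  rw [← Cardinal.le_aleph0_iff_set_countable]
  have h := Cardinal.mk_Iio_toType_ord_lt (c := Cardinal.aleph 1) ξ
  have h1 : (Cardinal.aleph 1 : Cardinal.{0}) = Order.succ Cardinal.aleph0 := by
    rw [← Cardinal.aleph_zero, ← Cardinal.aleph_succ]
    simp
  exact Order.lt_succ_iff.mp (lt_of_lt_of_eq h h1)

lemma W_bound (C : Set W) (hC : C.Countable) : ∃ δ : W, ∀ c ∈ C, c < δ := by
  by_contra h
  push Not at h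
  refine W_uncountable ?_
  have h1 : (⋃ c ∈ C, Set.Iic c).Countable := by
    refine hC.biUnion fun c _ => ?_
    have : Set.Iic c = Set.Iio c ∪ {c} := by
      ext x
      simp [le_iff_lt_or_eq]
    rw [this]
    exact (W_Iio c).union (Set.countable_singleton c)
  refine h1.mono fun δ _ => ?_
  obtain ⟨c, hc, hδ⟩ := h δ
  exact Set.mem_biUnion hc hδ

lemma I_uncountable : ¬ (Set.univ : Set I).Countable := by
  rw [← Cardinal.le_aleph0_iff_set_countable, Cardinal.mk_univ, not_le]
  have : Cardinal.mk I = 2 ^ Cardinal.aleph0 := by simp [I]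
  rw [this]
  exact Cardinal.cantor _

/-- selection of coordinates -/
lemma exists_seq (a : I → Finset I) : ∃ f : W → I, ∀ ξ η : W, η < ξ → f ξ ∉ a (f η) := by
  have ex : ∀ (ξ : W) (g : (η : W) → η < ξ → I), ∃ i : I, ∀ η (h : η < ξ), i ∉ a (g η h) := by
    intro ξ g
    by_contra hc
    push Not at hc
    refine I_uncountable ?_
    have : Countable (Set.Iio ξ) := (W_Iio ξ).to_subtype
    have h1 : (⋃ η : Set.Iio ξ, (a (g η.1 η.2) : Set I)).Countable :=
      Set.countable_iUnion fun η => Finset.countable_toSet _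
    refine h1.mono fun i _ => ?_
    obtain ⟨η, h, hi⟩ := hc i
    exact Set.mem_iUnion.mpr ⟨⟨η, h⟩, hi⟩
  let F : (ξ : W) → ((η : W) → η < ξ → I) → I := fun ξ g => Classical.choose (ex ξ g)
  have hwf : WellFounded (fun η ξ : W => η < ξ) := wellFounded_lt
  refine ⟨hwf.fix F, fun ξ η h => ?_⟩
  rw [hwf.fix_eq F ξ]
  exact Classical.choose_spec (ex ξ fun η _ => hwf.fix F η) η h

/-- The negation of the preceding statement: For every infinite cardinal τ and Tychonoff space X whose closed subsets each have a dense subset of size at most τ, there is a compact Hausdorff space containing X as a dense embedded subspace whose closed subsets also each have a dense subset of size at most τ. -/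
theorem result :
    ¬ (∀ (τ : Cardinal.{0}), Cardinal.aleph0 ≤ τ →
    ∀ (X : Type) [TopologicalSpace X] [T35Space X],
      (∀ Y : Set X, IsClosed Y → ∃ D : Set X, D ⊆ Y ∧ Cardinal.mk D ≤ τ ∧ Y ⊆ closure D) →
      ∃ (K : Type) (_ : TopologicalSpace K), CompactSpace K ∧ T2Space K ∧
        ∃ f : X → K, Topology.IsEmbedding f ∧ DenseRange f ∧
          ∀ Y : Set K, IsClosed Y → ∃ D : Set K, D ⊆ Y ∧ Cardinal.mk D ≤ τ ∧ Y ⊆ closure D) := by
  classical
  intro H
  obtain ⟨K, _, _, _, e, he, -, hsep⟩ := H Cardinal.aleph0 le_rfl X0 (fun Y _ => by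
    refine ⟨Y, subset_rfl, ?_, subset_closure⟩
    have : Countable X0 := X0_countable.to_subtype
    exact Cardinal.mk_le_aleph0_iff.mpr inferInstance)
  have p : X0 := ⟨code ⟨0, ∅⟩, ⟨_, rfl⟩⟩
  -- the closed sets
  have hC : ∀ i : I, ∃ (C1 C0 : Set K) (a : Finset I), IsClosed C1 ∧ IsClosed C0 ∧
      (∀ y, y ∈ C1 → y ∉ C0) ∧ (∀ x : X0, (∀ j ∈ a, x.1 j = p.1 j) → e x ∈ C1) ∧
      (∀ x : X0, x.1 i ≠ p.1 i → e x ∈ C0) := by
    intro i
    have hP : IsOpen {x : X0 | x.1 i = p.1 i} := by
      have hc : Continuous (fun x : X0 => x.1 i) := (continuous_apply i).comp continuous_subtype_val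
      exact (isOpen_discrete {p.1 i}).preimage hc
    obtain ⟨V, hVo, hV⟩ := he.isInducing.isOpen_iff.mp hP
    have hpV : e p ∈ V := by
      have : p ∈ e ⁻¹' V := by
        rw [hV]
        rfl
      exact this
    obtain ⟨C1, hC1n, hC1c, hC1V⟩ := exists_mem_nhds_isClosed_subset (hVo.mem_nhds hpV)
    have hU : IsOpen (e ⁻¹' interior C1) := isOpen_interior.preimage he.continuous
    obtain ⟨U, hUo, hUe⟩ := isOpen_induced_iff.mp hU
    have hpU : p.1 ∈ U := by
      have h1 : p ∈ (Subtype.val : X0 → I → Bool) ⁻¹' U := by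
        rw [hUe]
        exact mem_interior_iff_mem_nhds.mpr hC1n
      exact h1
    obtain ⟨a, u, hu, hau⟩ := isOpen_pi_iff.mp hUo p.1 hpU
    refine ⟨C1, Vᶜ, a, hC1c, hVo.isClosed_compl, fun y hy hy' => hy' (hC1V hy), fun x hx => ?_,
      fun x hx hxV => ?_⟩
    · have hxU : x.1 ∈ U := hau fun j hj => by
        rw [hx j hj]
        exact (hu j hj).2
      have h1 : x ∈ (Subtype.val : X0 → I → Bool) ⁻¹' U := hxU
      rw [hUe] at h1
      exact interior_subset h1
    · have h1 : x ∈ e ⁻¹' V := hxV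
      rw [hV] at h1
      exact hx h1
  choose C1 C0 a hC1 hC0 hdisj ha1 ha0 using hC
  obtain ⟨f, hf⟩ := exists_seq a
  -- the points
  have hy : ∀ ξ : W, ∃ y : K, (∀ η < ξ, y ∈ C1 (f η)) ∧ (∀ η, ξ ≤ η → y ∈ C0 (f η)) := by
    intro ξ
    have h1 : (⋂ η : W, (if η < ξ then C1 (f η) else C0 (f η))).Nonempty := by
      refine CompactSpace.iInter_nonempty (fun η => ?_) (fun s => ?_)
      · split_ifs
        · exact hC1 _
        · exact hC0 _
      · set A : Finset I := (s.filter (fun η => η < ξ)).biUnion (fun η => a (f η)) with hA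
        set B : Finset I := (s.filter (fun η => ¬ η < ξ)).image f with hB
        obtain ⟨x, hx, hxv⟩ := X0_dense (A ∪ B) (fun i => if i ∈ A then p.1 i else !(p.1 i))
        refine ⟨e ⟨x, hx⟩, Set.mem_iInter₂.mpr fun η hη => ?_⟩
        split_ifs with hlt
        · refine ha1 _ _ fun j hj => ?_
          have hjA : j ∈ A := by
            rw [hA, Finset.mem_biUnion]
            exact ⟨η, Finset.mem_filter.mpr ⟨hη, hlt⟩, hj⟩
          have := hxv j (Finset.mem_union_left _ hjA)
          simpa [hjA] using this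
        · refine ha0 _ _ ?_
          have hB' : f η ∈ B := by
            rw [hB, Finset.mem_image]
            exact ⟨η, Finset.mem_filter.mpr ⟨hη, hlt⟩, rfl⟩
          have hnA : f η ∉ A := by
            rw [hA, Finset.mem_biUnion]
            rintro ⟨η', hη', hmem⟩
            rw [Finset.mem_filter] at hη'
            exact hf η η' (lt_of_lt_of_le hη'.2 (not_lt.mp hlt)) hmem
          have := hxv (f η) (Finset.mem_union_right _ hB')
          rw [if_neg hnA] at this
          change x (f η) ≠ p.1 (f η)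
          rw [this]
          cases p.1 (f η) <;> decide
    obtain ⟨y, hy⟩ := h1
    rw [Set.mem_iInter] at hy
    refine ⟨y, fun η hη => ?_, fun η hη => ?_⟩
    · have := hy η
      rwa [if_pos hη] at this
    · have := hy η
      rwa [if_neg (not_lt.mpr hη)] at this
  choose y hy1 hy0 using hy
  -- the closed subspace
  obtain ⟨D, hDF, hDc, hFD⟩ := hsep (closure (Set.range y)) isClosed_closure
  have hDcount : D.Countable := Cardinal.le_aleph0_iff_set_countable.mp hDc
  have hor : ∀ d ∈ closure (Set.range y), ∀ ξ : W, d ∈ C1 (f ξ) ∨ d ∈ C0 (f ξ) := by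
    intro d hd ξ
    have h1 : Set.range y ⊆ C1 (f ξ) ∪ C0 (f ξ) := by
      rintro _ ⟨η, rfl⟩
      rcases lt_or_ge ξ η with h | h
      · exact Or.inl (hy1 η ξ h)
      · exact Or.inr (hy0 η ξ h)
    exact closure_minimal h1 ((hC1 _).union (hC0 _)) hd
  have hmono : ∀ d ∈ closure (Set.range y), ∀ ξ η : W, η < ξ → d ∈ C1 (f ξ) → d ∈ C1 (f η) := by
    intro d hd ξ η hηξ hdξ
    have h1 : Set.range y ⊆ C1 (f η) ∪ C0 (f ξ) := by
      rintro _ ⟨ζ, rfl⟩
      rcases lt_or_ge ξ ζ with h | h
      · exact Or.inl (hy1 ζ η (hηξ.trans h))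
      · exact Or.inr (hy0 ζ ξ h)
    rcases closure_minimal h1 ((hC1 _).union (hC0 _)) hd with h | h
    · exact h
    · exact absurd h (hdisj _ _ hdξ)
  -- bound
  have hb : ∀ d : K, ∃ ξ : W, (∃ η, d ∉ C1 (f η)) → d ∉ C1 (f ξ) := by
    intro d
    by_cases h : ∃ η, d ∉ C1 (f η)
    · obtain ⟨η, hη⟩ := h
      exact ⟨η, fun _ => hη⟩
    · obtain ⟨δ, -⟩ := W_bound ∅ Set.countable_empty
      exact ⟨δ, fun h' => absurd h' h⟩
  choose b hb using hb
  obtain ⟨δ, hδ⟩ := W_bound (b '' D) (hDcount.image b)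
  obtain ⟨δ', hδ'⟩ := W_bound {δ} (Set.countable_singleton δ)
  have hδδ' : δ < δ' := hδ' δ rfl
  have hmem : y δ' ∈ closure D := hFD (subset_closure ⟨δ', rfl⟩)
  have hopen : IsOpen (C0 (f δ) ∪ C1 (f δ'))ᶜ := ((hC0 _).union (hC1 _)).isOpen_compl
  have hyo : y δ' ∈ (C0 (f δ) ∪ C1 (f δ'))ᶜ := by
    rintro (h | h)
    · exact hdisj _ _ (hy1 δ' δ hδδ') h
    · exact hdisj _ _ h (hy0 δ' δ' le_rfl)
  obtain ⟨d, hd1, hdD⟩ := mem_closure_iff.mp hmem _ hopen hyo
  have hdF := hDF hdD
  have h1 : d ∈ C1 (f δ) := by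
    rcases hor d hdF δ with h | h
    · exact h
    · exact absurd (Or.inl h) hd1
  have h2 : d ∉ C1 (f δ') := fun h => hd1 (Or.inr h)
  exact hb d ⟨δ', h2⟩ (hmono d hdF δ (b d) (hδ _ ⟨d, hdD, rfl⟩) h1)

end Pool.Agent.S13286
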