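import Pool.Statements.S13340
import Pool.Agent.H479R3.RC10

set_option autoImplicit false
open Pool Pool.MP_6d476a_gt

namespace Pool.Agent.S13340

/-- The negation of the preceding statement: Every compact set of first-Baire-class real functions on Baire space (pointwise topology) is homeomorphic to a compact set of scatteredly continuous functions on Baire space (pointwise topology). -/
theorem result :
    ¬ (∀ S : Set ((ℕ → ℕ) → ℝ), IsCompact S →
      (∀ f ∈ S, ∃ u : ℕ → (ℕ → ℕ) → ℝ, (∀ n, Continuous (u n)) ∧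
          ∀ x, Filter.Tendsto (fun n => u n x) Filter.atTop (nhds (f x))) →
      ∃ T : Set ((ℕ → ℕ) → ℝ), IsCompact T ∧
        (∀ g ∈ T, ∀ A : Set (ℕ → ℕ), A.Nonempty → ∃ a ∈ A, ContinuousWithinAt g A a) ∧
        Nonempty (S ≃ₜ T)) := by
  classical
  intro hall
  obtain ⟨p, hpc, hpi⟩ := H479R3.RC.exists_pi
  let S : Set ((ℕ → ℕ) → ℝ) := (fun (g : ℝ → ℝ) (y : ℕ → ℕ) => g (p y)) '' H479R3.RC.Mon
  have hcomp : Continuous (fun (g : ℝ → ℝ) (y : ℕ → ℕ) => g (p y)) :=
    continuous_pi (fun y => continuous_apply (p y))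
  have hScomp : IsCompact S := H479R3.RC.isCompact_Mon.image hcomp
  have hSB : ∀ f ∈ S, ∃ u : ℕ → (ℕ → ℕ) → ℝ, (∀ n, Continuous (u n)) ∧
      ∀ x, Filter.Tendsto (fun n => u n x) Filter.atTop (nhds (f x)) := by
    rintro _ ⟨g, hg, rfl⟩
    apply H479R3.RC.baire_one_of_countable
    have h1 : {s | ¬ ContinuousAt g s}.Countable := hg.1.countable_not_continuousAt
    refine (h1.preimage_of_injOn (hpi.injOn)).mono ?_
    intro y hy hcon
    exact hy (ContinuousAt.comp (f := p) (g := g) hcon hpc.continuousAt)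
  obtain ⟨T, hT, hTSC, ⟨φ⟩⟩ := hall S hScomp hSB
  have hmemS : ∀ g ∈ H479R3.RC.Mon, (fun y => g (p y)) ∈ S := fun g hg => ⟨g, hg, rfl⟩
  let E : (ℕ → ℕ) → (ℝ → ℝ) → ℝ := fun y g =>
    if h : (fun y => g (p y)) ∈ S then (φ ⟨_, h⟩ : (ℕ → ℕ) → ℝ) y else 0
  have hEval : ∀ g (hg : g ∈ H479R3.RC.Mon) y, E y g =
      (φ ⟨fun y => g (p y), hmemS g hg⟩ : (ℕ → ℕ) → ℝ) y := by
    intro g hg y
    simp only [E, dif_pos (hmemS g hg)]
  refine H479R3.RC.main_contra (E := E) ?_ ?_ hpc hpi ?_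
  · intro y
    rw [continuousOn_iff_continuous_domRestrict]
    have h1 : Set.domRestrict H479R3.RC.Mon (E y) = fun g : H479R3.RC.Mon =>
        (φ ⟨fun y => (g : ℝ → ℝ) (p y), hmemS g g.2⟩ : (ℕ → ℕ) → ℝ) y := by
      funext g
      exact hEval g g.2 y
    rw [h1]
    have h2 : Continuous (fun g : H479R3.RC.Mon =>
        (⟨fun y => (g : ℝ → ℝ) (p y), hmemS g g.2⟩ : S)) :=
      (hcomp.comp continuous_subtype_val).subtype_mk _
    exact (continuous_apply y).comp (continuous_subtype_val.comp (φ.continuous.comp h2))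
  · intro g hg A hA
    have h1 : (fun y => E y g) = (φ ⟨fun y => g (p y), hmemS g hg⟩ : (ℕ → ℕ) → ℝ) := by
      funext y
      exact hEval g hg y
    rw [h1]
    exact hTSC _ (φ ⟨fun y => g (p y), hmemS g hg⟩).2 A hA
  · intro y
    by_contra hno
    push Not at hno
    have m0 : H479R3.RC.st1 (p y) 1 0 ∈ H479R3.RC.Mon := H479R3.RC.st1_mem le_rfl zero_le_one
    have m1 : H479R3.RC.st1 (p y) 1 1 ∈ H479R3.RC.Mon := H479R3.RC.st1_mem zero_le_one le_rfl
    have h1 : φ ⟨fun y' => H479R3.RC.st1 (p y) 1 0 (p y'), hmemS _ m0⟩ =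
        φ ⟨fun y' => H479R3.RC.st1 (p y) 1 1 (p y'), hmemS _ m1⟩ := by
      apply Subtype.ext
      funext a
      rw [← hEval _ m0 a, ← hEval _ m1 a]
      exact hno a
    have h2 := congrArg Subtype.val (φ.injective h1)
    have h3 := congrFun h2 y
    simp [H479R3.RC.st1] at h3

end Pool.Agent.S13340
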