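import Pool.Statements.S13358
import Pool.Agent.H506R3.MagB.M8

set_option autoImplicit false
open Classical
open Filter Topology Pointwise
open Pool Pool.MP_6e5b56_gt

namespace Pool.Agent.S13358

/-- The negation of the preceding statement: For compact convex A, B in Euclidean n-space with A∪B convex, magnitude(t(A∪B)) + magnitude(t(A∩B)) − magnitude(tA) − magnitude(tB) tends to 0 as t→∞, where magnitude is the sup over finite subsets of the sum of entries of inverse exp(−distance) matrices. -/
theorem result :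
    ¬ (∀ n : ℕ, ∀ mag : Set (EuclideanSpace ℝ (Fin n)) → ℝ,
      (∀ S : Set (EuclideanSpace ℝ (Fin n)),
        mag S = ⨆ F : Finset (EuclideanSpace ℝ (Fin n)),
          ⨆ (_ : (↑F : Set (EuclideanSpace ℝ (Fin n))) ⊆ S),
            ∑ i : ↥F, ∑ j : ↥F,
              (Matrix.of (fun x y : ↥F => Real.exp (-dist x.1 y.1)))⁻¹ i j) →
      ∀ A B : Set (EuclideanSpace ℝ (Fin n)),
        IsCompact A → IsCompact B → Convex ℝ A → Convex ℝ B → Convex ℝ (A ∪ B) →
        Tendsto (fun t : ℝ => mag (t • (A ∪ B)) + mag (t • (A ∩ B)) - mag (t • A) - mag (t • B))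
          atTop (𝓝 0)) := by
  intro h
  apply Pool.Agent.H506R3.MagB.final
  have h2 := h 2 Pool.Agent.H506R3.MagB.Mg (fun S => by
    unfold Pool.Agent.H506R3.MagB.Mg Pool.Agent.H506R3.MagB.fs Pool.Agent.H506R3.MagB.ZM
    congr!)
  exact h2

end Pool.Agent.S13358
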