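import Pool.Statements.S13364
import Mathlib

set_option autoImplicit false
open Pool Pool.MP_6f431b_gt

namespace Pool.Agent.S13364

open Set Filter Topology

/-- the irrational numbers, with the topology of the real line -/
abbrev P : Type := {x : ℝ // Irrational x}

/-- the irrational numbers, discrete -/
structure D where
  val : P

instance : TopologicalSpace D := ⊥
instance : DiscreteTopology D := ⟨rfl⟩

/-- the Michael line -/
structure ML where
  val : ℝ

instance : TopologicalSpace ML where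
  IsOpen U := ∀ x ∈ U, ¬ Irrational x.val → ML.mk ⁻¹' U ∈ 𝓝 x.val
  isOpen_univ := fun _ _ _ => univ_mem
  isOpen_inter := fun _ _ hU hV x hx hq => inter_mem (hU x hx.1 hq) (hV x hx.2 hq)
  isOpen_sUnion := fun _ hS x ⟨U, hU, hx⟩ hq =>
    mem_of_superset (hS U hU x hx hq) fun _ hy => ⟨U, hU, hy⟩

theorem open_ml {U : Set ML} :
    IsOpen U ↔ ∀ x ∈ U, ¬ Irrational x.val → ML.mk ⁻¹' U ∈ 𝓝 x.val := Iff.rfl

theorem open_singleton (x : ML) (hx : Irrational x.val) : IsOpen ({x} : Set ML) := by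
  rw [open_ml]
  rintro y rfl hy
  exact absurd hx hy

/-- real neighbourhoods are neighbourhoods in the Michael line -/
theorem continuous_val : Continuous ML.val := by
  rw [continuous_def]
  intro V hV
  rw [open_ml]
  intro x hx _
  exact hV.mem_nhds hx

/-- the closed set -/
def A : Set (OnePoint D × P) := {p | ∀ d : D, p.1 = (d : OnePoint D) → p.2 = d.val}

theorem isOpen_pt (d : D) : IsOpen ({(d : OnePoint D)} : Set (OnePoint D)) := by
  have h : ({(d : OnePoint D)} : Set (OnePoint D)) = ((↑) : D → OnePoint D) '' {d} := by simp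
  rw [h]
  exact OnePoint.isOpenEmbedding_coe.isOpenMap _ (isOpen_discrete _)

theorem isClosed_A : IsClosed A := by
  have h : A = ⋂ d : D, ({p | p.1 ≠ (d : OnePoint D)} ∪ {p | p.2 = d.val}) := by
    ext p
    simp only [A, mem_ofPred_eq, mem_iInter, mem_union]
    exact forall_congr' fun d => imp_iff_not_or
  rw [h]
  refine isClosed_iInter fun d => IsClosed.union ?_ ?_
  · have : IsOpen {p : OnePoint D × P | p.1 ∈ ({(d : OnePoint D)} : Set (OnePoint D))} :=
      (isOpen_pt d).preimage continuous_fst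
    exact isOpen_compl_iff.mp (by
      convert this using 1
      ext p
      simp)
  · exact isClosed_eq continuous_snd continuous_const

open Classical in
/-- the function -/
noncomputable def g (p : (OnePoint D × P) × ML) : ℝ :=
  if ∃ d : D, p.1.1 = (d : OnePoint D) ∧ p.2 = ⟨d.val.1⟩ then 1 else 0

/-- neighbourhoods of the point at infinity are cofinite -/
theorem nhds_infty (s : Finset D) : {k : OnePoint D | ∀ d ∈ s, k ≠ (d : OnePoint D)} ∈
    𝓝 (OnePoint.infty : OnePoint D) := by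
  have h : {k : OnePoint D | ∀ d ∈ s, k ≠ (d : OnePoint D)} = ⋂ d ∈ s, {k | k ≠ (d : OnePoint D)} := by
    ext; simp
  rw [h, Filter.biInter_finset_mem]
  intro d _
  exact isOpen_ne.mem_nhds (OnePoint.infty_ne_coe d)

theorem finite_compl {W : Set (OnePoint D)} (hW : W ∈ 𝓝 (OnePoint.infty : OnePoint D)) :
    {d : D | (d : OnePoint D) ∉ W}.Finite := by
  obtain ⟨V, hVW, hV, hinf⟩ := mem_nhds_iff.mp hW
  have h1 : IsCompact (((↑) : D → OnePoint D) ⁻¹' V)ᶜ :=
    ((OnePoint.isOpen_def).mp hV).1 hinf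
  exact (isCompact_iff_finite.mp h1).subset fun d hd hd' => hd (hVW hd')

open Classical in
theorem continuousOn_g : ContinuousOn g (A ×ˢ (univ : Set ML)) := by
  rintro ⟨⟨k, m⟩, y⟩ ⟨hA, -⟩
  -- a neighbourhood on which `g` is constant on the set
  suffices h : ∃ N ∈ 𝓝 (((k, m), y) : (OnePoint D × P) × ML), ∀ p ∈ N, p ∈ A ×ˢ (univ : Set ML) →
      g p = g ((k, m), y) by
    obtain ⟨N, hN, h⟩ := h
    refine ContinuousWithinAt.congr_of_eventuallyEq (f := fun _ => g ((k, m), y))
      continuousWithinAt_const ?_ rfl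
    rw [eventuallyEq_nhdsWithin_iff]
    filter_upwards [hN] with p hp hpA
    exact h p hp hpA
  by_cases hy : Irrational y.val
  · -- `y` is isolated
    have hV : ({y} : Set ML) ∈ 𝓝 y := (open_singleton y hy).mem_nhds rfl
    let d₀ : D := ⟨⟨y.val, hy⟩⟩
    have key : ∀ (k' : OnePoint D) (m' : P), g ((k', m'), y) = if k' = (d₀ : OnePoint D) then 1 else 0 := by
      intro k' m'
      unfold g
      congr 1
      apply propext
      constructor
      · rintro ⟨d, hd, hyd⟩
        have : d = d₀ := by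
          rcases d with ⟨⟨d, hd'⟩⟩
          simp only [d₀, D.mk.injEq]
          apply Subtype.ext
          exact (congrArg ML.val hyd).symm
        rw [← this]
        exact hd
      · intro h
        exact ⟨d₀, h, rfl⟩
    by_cases hk : k = (d₀ : OnePoint D)
    · refine ⟨({(d₀ : OnePoint D)} ×ˢ univ) ×ˢ {y}, prod_mem_nhds (prod_mem_nhds ?_ univ_mem) hV, ?_⟩
      · rw [hk]
        exact (isOpen_pt d₀).mem_nhds rfl
      · rintro ⟨⟨k', m'⟩, y'⟩ ⟨⟨hk', -⟩, hy'⟩ _
        obtain rfl : y' = y := hy'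
        have hk'' : k' = (d₀ : OnePoint D) := hk'
        rw [key, key, hk, hk'']
    · refine ⟨({(d₀ : OnePoint D)}ᶜ ×ˢ univ) ×ˢ {y}, prod_mem_nhds (prod_mem_nhds ?_ univ_mem) hV, ?_⟩
      · exact isOpen_compl_singleton.mem_nhds hk
      · rintro ⟨⟨k', m'⟩, y'⟩ ⟨⟨hk', -⟩, hy'⟩ _
        obtain rfl : y' = y := hy'
        have hk'' : k' ≠ (d₀ : OnePoint D) := hk'
        rw [key, key, if_neg hk, if_neg hk'']
  · -- `y` is rational: separate `m` from `y`
    have hmy : m.1 ≠ y.val := fun h => hy (h ▸ m.2)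
    obtain ⟨U, V, hU, hV, hmU, hyV, hUV⟩ := t2_separation hmy
    refine ⟨(univ ×ˢ (Subtype.val ⁻¹' U)) ×ˢ (ML.val ⁻¹' V), prod_mem_nhds (prod_mem_nhds univ_mem
      ((hU.preimage continuous_subtype_val).mem_nhds hmU))
      ((hV.preimage continuous_val).mem_nhds hyV), ?_⟩
    have h0 : g ((k, m), y) = 0 := by
      unfold g
      rw [if_neg]
      rintro ⟨d, hd, hyd⟩
      apply hy
      have h1 : y.val = d.val.1 := congrArg ML.val hyd
      rw [h1]
      exact d.val.2
    rintro ⟨⟨k', m'⟩, y'⟩ ⟨⟨-, hm'⟩, hy'⟩ ⟨hA', -⟩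
    rw [h0]
    unfold g
    rw [if_neg]
    rintro ⟨d, hd, hyd⟩
    have h1 : m' = d.val := hA' d hd
    have h2 : y'.val = m'.1 := by rw [h1]; exact congrArg ML.val hyd
    have h3 : m'.1 ∈ V := h2 ▸ hy'
    exact (disjoint_left.mp hUV) hm' h3

theorem no_extension (G : (OnePoint D × P) × ML → ℝ) (hG : Continuous G)
    (hGg : EqOn G g (A ×ˢ (univ : Set ML))) : False := by
  have hinf : ∀ (m : P) (y : ML), G ((OnePoint.infty, m), y) = 0 := by
    intro m y
    have hmem : (((OnePoint.infty, m), y) : (OnePoint D × P) × ML) ∈ A ×ˢ (univ : Set ML) :=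
      ⟨fun d hd => absurd hd (OnePoint.infty_ne_coe d), mem_univ _⟩
    rw [hGg hmem]
    unfold g
    rw [if_neg]
    rintro ⟨d, hd, -⟩
    exact OnePoint.infty_ne_coe d hd
  have hdiag : ∀ d : D, G (((d : OnePoint D), d.val), ⟨d.val.1⟩) = 1 := by
    intro d
    have hmem : ((((d : OnePoint D), d.val), ⟨d.val.1⟩) : (OnePoint D × P) × ML) ∈
        A ×ˢ (univ : Set ML) := by
      refine ⟨fun d' hd' => ?_, mem_univ _⟩
      have : d = d' := OnePoint.coe_injective hd'
      rw [this]
    rw [hGg hmem]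
    unfold g
    rw [if_pos ⟨d, rfl, rfl⟩]
  have hne : Nonempty P := ⟨⟨Real.sqrt 2, irrational_sqrt_two⟩⟩
  let u : ℕ → P := TopologicalSpace.denseSeq P
  have hu : DenseRange u := TopologicalSpace.denseRange_denseSeq P
  let Pn : ℕ → Set ℝ := fun n => {x | ∃ h : Irrational x,
    1 / 2 < G (((⟨⟨x, h⟩⟩ : D), u n), ⟨x⟩)}
  have hcov : ∀ x : ℝ, Irrational x → ∃ n, x ∈ Pn n := by
    intro x hx
    let d : D := ⟨⟨x, hx⟩⟩
    have hc : Continuous fun m : P => G (((d : OnePoint D), m), ⟨x⟩) :=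
      hG.comp ((continuous_const.prodMk continuous_id).prodMk continuous_const)
    have hop : IsOpen {m : P | 1 / 2 < G (((d : OnePoint D), m), ⟨x⟩)} :=
      isOpen_lt continuous_const hc
    have hne' : {m : P | 1 / 2 < G (((d : OnePoint D), m), ⟨x⟩)}.Nonempty :=
      ⟨d.val, by
        rw [mem_ofPred_eq, hdiag d]
        norm_num⟩
    obtain ⟨n, hn⟩ := hu.exists_mem_open hop hne'
    exact ⟨n, hx, hn⟩
  have hcl : ∀ (n : ℕ) (q : ℝ), ¬ Irrational q → q ∉ closure (Pn n) := by
    intro n q hq hmem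
    have hc : Continuous fun p : OnePoint D × ML => G ((p.1, u n), p.2) :=
      hG.comp ((continuous_fst.prodMk continuous_const).prodMk continuous_snd)
    have hnh : {p : OnePoint D × ML | G ((p.1, u n), p.2) < 1 / 2} ∈
        𝓝 ((OnePoint.infty, ⟨q⟩) : OnePoint D × ML) := by
      have hop : IsOpen {p : OnePoint D × ML | G ((p.1, u n), p.2) < 1 / 2} :=
        isOpen_lt hc continuous_const
      refine hop.mem_nhds ?_
      rw [mem_ofPred_eq, hinf]
      norm_num
    rw [nhds_prod_eq, mem_prod_iff] at hnh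
    obtain ⟨W, hW, V, hV, hWV⟩ := hnh
    have hfin := finite_compl hW
    obtain ⟨V', hV'V, hV'o, hqV'⟩ := mem_nhds_iff.mp hV
    have hV2 : ML.mk ⁻¹' V' ∈ 𝓝 q := (open_ml.mp hV'o) ⟨q⟩ hqV' hq
    have hfin2 : ((fun d : D => d.val.1) '' {d : D | (d : OnePoint D) ∉ W}).Finite := hfin.image _
    have hN : (ML.mk ⁻¹' V') ∩ ((fun d : D => d.val.1) '' {d : D | (d : OnePoint D) ∉ W})ᶜ ∈ 𝓝 q := by
      refine inter_mem hV2 (hfin2.isClosed.isOpen_compl.mem_nhds ?_)
      rintro ⟨d, -, hd⟩
      exact hq (hd ▸ d.val.2)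
    obtain ⟨x, ⟨hxV, hxF⟩, hx, hxG⟩ := mem_closure_iff_nhds.mp hmem _ hN
    have hxW : (((⟨⟨x, hx⟩⟩ : D)) : OnePoint D) ∈ W := by
      by_contra hcon
      exact hxF ⟨⟨⟨x, hx⟩⟩, hcon, rfl⟩
    have h1 : G (((⟨⟨x, hx⟩⟩ : D), u n), ⟨x⟩) < 1 / 2 := hWV (mk_mem_prod hxW (hV'V hxV))
    linarith
  -- Baire category
  let F : ℕ ⊕ ℚ → Set ℝ := Sum.elim (fun n => closure (Pn n)) (fun q => {(q : ℝ)})
  have hF : ∀ i, IsClosed (F i) := by
    rintro (n | q)
    · exact isClosed_closure
    · exact isClosed_singleton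
  have hFU : (⋃ i, F i) = univ := by
    refine eq_univ_of_forall fun x => ?_
    by_cases hx : Irrational x
    · obtain ⟨n, hn⟩ := hcov x hx
      exact mem_iUnion.mpr ⟨Sum.inl n, subset_closure hn⟩
    · unfold Irrational at hx
      push Not at hx
      obtain ⟨q, hq⟩ := hx
      exact mem_iUnion.mpr ⟨Sum.inr q, hq.symm⟩
  obtain ⟨i, z, hz⟩ := nonempty_interior_of_iUnion_of_closed hF hFU
  rcases i with n | q
  · obtain ⟨q, hq⟩ := Rat.denseRange_cast.exists_mem_open isOpen_interior ⟨z, hz⟩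
    exact hcl n (q : ℝ) (Rat.not_irrational q) (interior_subset hq)
  · have : interior ({(q : ℝ)} : Set ℝ) = ∅ := interior_singleton _
    have hz' : z ∈ interior ({(q : ℝ)} : Set ℝ) := hz
    rw [this] at hz'
    exact hz'

/-- The negation of the preceding statement: For every Hausdorff perfect preimage of a metrizable space X (a paracompact p-space), closed A in X, and space Y, every continuous map from A×Y into a real Banach space extends continuously to X×Y. -/
theorem result :
    ¬ (∀ (X : Type) [TopologicalSpace X] [T2Space X],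
      (∃ (M : Type) (tM : TopologicalSpace M),
          TopologicalSpace.MetrizableSpace M ∧ ∃ f : X → M, IsProperMap f) →
      ∀ A : Set X, IsClosed A →
      ∀ (Y : Type) [TopologicalSpace Y]
        (E : Type) [NormedAddCommGroup E] [NormedSpace ℝ E] [CompleteSpace E]
        (g : X × Y → E),
        ContinuousOn g (A ×ˢ (Set.univ : Set Y)) →
        ∃ G : X × Y → E, Continuous G ∧ Set.EqOn G g (A ×ˢ (Set.univ : Set Y))) := by
  intro H
  obtain ⟨G, hG, hGg⟩ := H (OnePoint D × P) ⟨P, inferInstance, inferInstance, Prod.snd,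
    isProperMap_snd_of_compactSpace⟩ A isClosed_A ML ℝ g continuousOn_g
  exact no_extension G hG hGg

end Pool.Agent.S13364
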