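import Pool.Statements.S13377
import Pool.Agent.H432R3.PSp

set_option autoImplicit false
open Pool Pool.MP_717cd6_gt

namespace Pool.Agent.S13377

/-- There is a regular T1 topological space in which countable intersections of open sets are open, yet some non-closed set A contains no subset that is discrete in itself and has a closure point outside A. -/
theorem result :
    ∃ (X : Type) (t : TopologicalSpace X),
      T3Space X ∧
      (∀ U : ℕ → Set X, (∀ n, IsOpen (U n)) → IsOpen (⋂ n, U n)) ∧
      ¬ (∀ A : Set X, ¬ IsClosed A →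
          ∃ D : Set X, D ⊆ A ∧ DiscreteTopology D ∧ (closure D \ A).Nonempty) := by
  obtain ⟨g, hg⟩ := Pool.H432R3.PSp.exists_inj
  have hcount : ¬ (Set.univ : Set (Set Pool.H432R3.PSp.XX × Pool.H432R3.PSp.XX)).Countable := by
    intro h
    have h1 : (Set.univ : Set (Set Pool.H432R3.PSp.XX)).Countable := by
      have := h.image Prod.fst
      refine this.mono ?_
      intro s _
      exact ⟨(s, (fun _ _ => true, fun _ => ∅)), Set.mem_univ _, rfl⟩
    rw [Set.countable_univ_iff] at h1
    have h2 : Cardinal.mk (Set Pool.H432R3.PSp.XX) ≤ Cardinal.aleph0 := Cardinal.mk_le_aleph0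
    rw [Cardinal.mk_set] at h2
    have h3 : Infinite Pool.H432R3.PSp.XX := by
      haveI : Infinite (ℕ → Set ℕ) := Pi.infinite_of_left
      exact Prod.infinite_of_right
    have h4 := Cardinal.aleph0_le_mk Pool.H432R3.PSp.XX
    exact absurd (lt_of_le_of_lt h4 (Cardinal.cantor _)) (not_lt.2 h2)
  obtain ⟨t, h1, h2, h3⟩ := Pool.H432R3.PSp.main_of_family
    (fun i => Pool.H432R3.PSp.ek (g i)) hcount (by
      intro p hp
      obtain ⟨x, hx⟩ := Pool.H432R3.PSp.ek_indep (g '' p.1) (hp.image g)
        (fun Y => ∃ i ∈ p.1, g i = Y ∧ p.2 i)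
      refine ⟨x, ?_⟩
      intro i hi
      refine (hx (g i) (Set.mem_image_of_mem g hi)).trans ?_
      constructor
      · rintro ⟨j, _, hj, h⟩
        rw [← hg hj]
        exact h
      · intro h
        exact ⟨i, hi, rfl, h⟩)
  exact ⟨Pool.H432R3.PSp.XX, t, h1, h2, h3⟩

end Pool.Agent.S13377
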