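import Pool.Statements.S13392
import Pool.Agent.H289R3.FS.Main
import Pool.Agent.H289R3.FS.Proper
import Pool.Agent.H289R3.FS.Lift
import Pool.Agent.H164R3.FS.Eta
import Pool.Agent.H318R3.FS.D
import Pool.Agent.H589R3.FSQ
import Pool.Agent.H482.FS.Torus6
import Pool.Agent.H418R3.FSSection

set_option autoImplicit false
open Pool Pool.MP_74810d_gt

namespace Pool.Agent.S13392

/-- The negation of the preceding statement: For every n ≥ 1 and every simply connected second countable Hausdorff topological n-manifold Q, some smooth flow on R^(n+1) has orbit space, with the quotient topology, homeomorphic to Q. -/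
theorem result :
    ¬ (∀ n : ℕ, 1 ≤ n →
      ∀ (Q : Type) [TopologicalSpace Q] [T2Space Q] [SecondCountableTopology Q]
        [ChartedSpace (EuclideanSpace ℝ (Fin n)) Q] [SimplyConnectedSpace Q],
        ∃ Φ : ℝ → EuclideanSpace ℝ (Fin (n + 1)) → EuclideanSpace ℝ (Fin (n + 1)),
          ContDiff ℝ (⊤ : ℕ∞)
              (fun p : ℝ × EuclideanSpace ℝ (Fin (n + 1)) => Φ p.1 p.2) ∧
          (∀ x, Φ 0 x = x) ∧
          (∀ (s t : ℝ) (x : EuclideanSpace ℝ (Fin (n + 1))), Φ (s + t) x = Φ s (Φ t x)) ∧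
          Nonempty
            (Quot (fun x y : EuclideanSpace ℝ (Fin (n + 1)) => ∃ t : ℝ, Φ t x = y) ≃ₜ Q)) :=
  Pool.Agent.H289R3.FS.not_main_of Pool.Agent.H482.FS.taskTorus6
    Pool.Agent.H289R3.FS.taskProper Pool.Agent.H289R3.FS.taskSection
    (Pool.Agent.H289R3.FS.taskD Pool.Agent.H289R3.FS.taskLift Pool.Agent.H164R3.FS.Eta.taskEta)
    Pool.Agent.H589R3.FSQ.taskQ

end Pool.Agent.S13392
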