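import Pool.Statements.S13409
import Pool.Agent.H545R3.JonesT2

set_option autoImplicit false
open Pool Pool.MP_78e9bd_gt

namespace Pool.Agent.S13409

/-- For every compact connected Hausdorff space S: if Jones's T is continuous on the nonempty closed sets with the Vietoris topology, then T(A ∪ B) = T(A) ∪ T(B) for all closed A, B. -/
theorem result :
    ∀ (S : Type) [TopologicalSpace S] [CompactSpace S] [T2Space S] [ConnectedSpace S],
      @ContinuousOn (Set S) (Set S)
        (TopologicalSpace.generateFrom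
          ({𝒰 : Set (Set S) | ∃ U : Set S, IsOpen U ∧ 𝒰 = {A : Set S | A ⊆ U}} ∪
           {𝒰 : Set (Set S) | ∃ U : Set S, IsOpen U ∧ 𝒰 = {A : Set S | (A ∩ U).Nonempty}}))
        (TopologicalSpace.generateFrom
          ({𝒰 : Set (Set S) | ∃ U : Set S, IsOpen U ∧ 𝒰 = {A : Set S | A ⊆ U}} ∪
           {𝒰 : Set (Set S) | ∃ U : Set S, IsOpen U ∧ 𝒰 = {A : Set S | (A ∩ U).Nonempty}}))
        (fun A : Set S => {p : S | ∀ W : Set S, IsCompact W → IsConnected W →
            W ∈ nhds p → (W ∩ A).Nonempty})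
        {A : Set S | IsClosed A ∧ A.Nonempty} →
      ∀ A B : Set S, IsClosed A → IsClosed B →
        {p : S | ∀ W : Set S, IsCompact W → IsConnected W → W ∈ nhds p → (W ∩ (A ∪ B)).Nonempty} =
          {p : S | ∀ W : Set S, IsCompact W → IsConnected W → W ∈ nhds p → (W ∩ A).Nonempty} ∪
          {p : S | ∀ W : Set S, IsCompact W → IsConnected W → W ∈ nhds p → (W ∩ B).Nonempty} := by
  intro S _ _ _ _ h A B hA hB
  have h' : @ContinuousOn (Set S) (Set S) (TopologicalSpace.vietoris S) (TopologicalSpace.vietoris S)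
      (Pool.Agent.H545R3.JonesT.T : Set S → Set S) {A : Set S | IsClosed A ∧ A.Nonempty} := by
    have h2 : @ContinuousOn (Set S) (Set S) (Pool.Agent.H545R3.JonesT.tau S)
      (Pool.Agent.H545R3.JonesT.tau S)
      (Pool.Agent.H545R3.JonesT.T : Set S → Set S) {A : Set S | IsClosed A ∧ A.Nonempty} := h
    rw [Pool.Agent.H545R3.JonesT.tau_eq] at h2
    exact h2
  exact Pool.Agent.H545R3.JonesT.additive (Pool.Agent.H545R3.JonesT.lsc_of_continuousOn h') A B hA hB

end Pool.Agent.S13409
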