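import Pool.Statements.S13411
import Pool.Agent.H16R3.Jam.Main
-- import your own Pool.Agent.* helpers here

set_option autoImplicit false
open Pool Pool.MP_79ad04_gt

namespace Pool.Agent.S13411

/-- There is a spanning code of distinct unit vectors with minimal distance d that is jammed but not infinitesimally jammed. Jammed: every nearby code with minimal distance ≥ d is a rotation of it. Not infinitesimally jammed: some tangent motion not shrinking contact distances to first order is not an i -/
theorem result :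
    ∃ (n N : ℕ) (x : Fin N → EuclideanSpace ℝ (Fin n)) (d : ℝ),
      Function.Injective x ∧
      (∀ i, ‖x i‖ = 1) ∧
      0 < d ∧
      (∀ i j, i ≠ j → d ≤ dist (x i) (x j)) ∧
      (∃ i j, i ≠ j ∧ dist (x i) (x j) = d) ∧
      Submodule.span ℝ (Set.range x) = ⊤ ∧
      (∃ ε : ℝ, 0 < ε ∧
        ∀ y : Fin N → EuclideanSpace ℝ (Fin n),
          (∀ i, ‖y i‖ = 1) →
          (∀ i, dist (y i) (x i) < ε) →
          (∀ i j, i ≠ j → d ≤ dist (y i) (y j)) →
          ∃ g : EuclideanSpace ℝ (Fin n) ≃ₗᵢ[ℝ] EuclideanSpace ℝ (Fin n),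
            ∀ i, y i = g (x i)) ∧
      ¬ (∀ v : Fin N → EuclideanSpace ℝ (Fin n),
          (∀ i, inner ℝ (x i) (v i) = 0) →
          (∀ i j, i ≠ j → dist (x i) (x j) = d →
            0 ≤ inner ℝ (x i - x j) (v i - v j)) →
          ∃ A : EuclideanSpace ℝ (Fin n) →ₗ[ℝ] EuclideanSpace ℝ (Fin n),
            (∀ u w, inner ℝ (A u) w = - inner ℝ u (A w)) ∧
            ∀ i, v i = A (x i)) := by
  classical
  obtain ⟨ε, hε, hjam⟩ := H16Jam.jam_final
  set e : H16Jam.Idx ≃ Fin (Fintype.card H16Jam.Idx) := Fintype.equivFin _ with he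
  have hc1 : H16Jam.cc < 1 := by linarith [H16Jam.cc_hi]
  have hle : ∀ i j : H16Jam.Idx, i ≠ j → inner ℝ (H16Jam.xx i) (H16Jam.xx j) ≤ H16Jam.cc := by
    intro i j hij
    rcases H16Jam.pair_cases i j hij with h | h
    · exact h.2.le
    · exact h.2.le
  have hdpos : 0 < Real.sqrt (2 - 2 * H16Jam.cc) := Real.sqrt_pos.mpr (by linarith)
  have hdist : ∀ i j : H16Jam.Idx, i ≠ j →
      Real.sqrt (2 - 2 * H16Jam.cc) ≤ dist (H16Jam.xx i) (H16Jam.xx j) := by
    intro i j hij
    rw [H16Jam.dist_unit (H16Jam.xx_norm i) (H16Jam.xx_norm j)]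
    exact Real.sqrt_le_sqrt (by linarith [hle i j hij])
  have hinj : Function.Injective H16Jam.xx := by
    intro i j hij
    by_contra hne
    have := hdist i j hne
    rw [hij, dist_self] at this
    linarith
  refine ⟨10, Fintype.card H16Jam.Idx, fun i => H16Jam.xx (e.symm i), Real.sqrt (2 - 2 * H16Jam.cc),
    hinj.comp e.symm.injective, fun i => H16Jam.xx_norm _, hdpos, ?_, ?_, ?_, ⟨ε, hε, ?_⟩, ?_⟩
  · intro i j hij
    exact hdist _ _ (fun h => hij (e.symm.injective h))
  · refine ⟨e (Sum.inr (Sum.inl 0)), e (Sum.inr (Sum.inr 0)), ?_, ?_⟩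
    · intro h
      have := e.injective h
      simp at this
    · simp only [Equiv.symm_apply_apply]
      rw [H16Jam.dist_unit (H16Jam.xx_norm _) (H16Jam.xx_norm _), (H16Jam.RSc 0 0).2]
  · have : Set.range (fun i => H16Jam.xx (e.symm i)) = Set.range H16Jam.xx :=
      e.symm.surjective.range_comp H16Jam.xx
    rw [this]; exact H16Jam.xx_span
  · intro y hy hyx hyd
    obtain ⟨g, hg⟩ := hjam (fun i => y (e i)) (fun i => hy _) (fun i => by
      have := hyx (e i)
      simpa using this) (fun i j hij => by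
      have h1 := hyd (e i) (e j) (fun h => hij (e.injective h))
      rw [H16Jam.dist_unit (hy _) (hy _)] at h1
      by_contra hcon
      push Not at hcon
      have h2 : Real.sqrt (2 - 2 * inner ℝ (y (e i)) (y (e j))) < Real.sqrt (2 - 2 * H16Jam.cc) := by
        rcases le_or_gt 0 (2 - 2 * inner ℝ (y (e i)) (y (e j))) with h3 | h3
        · exact Real.sqrt_lt_sqrt h3 (by linarith)
        · rw [Real.sqrt_eq_zero_of_nonpos h3.le]; exact hdpos
      linarith)
    refine ⟨g, fun i => ?_⟩
    have := hg (e.symm i)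
    simpa using this
  · intro hcon
    have hkey := hcon (fun i => H16Jam.vv (e.symm i)) (fun i => H16Jam.Hvd _) (by
      intro i j hij hd
      have hne : e.symm i ≠ e.symm j := fun h => hij (e.symm.injective h)
      have hcc : inner ℝ (H16Jam.xx (e.symm i)) (H16Jam.xx (e.symm j)) = H16Jam.cc := by
        rw [H16Jam.dist_unit (H16Jam.xx_norm _) (H16Jam.xx_norm _)] at hd
        have h1 : 0 < 2 - 2 * inner ℝ (H16Jam.xx (e.symm i)) (H16Jam.xx (e.symm j)) := by
          have := hle _ _ hne
          linarith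
        have h2 : Real.sqrt (2 - 2 * inner ℝ (H16Jam.xx (e.symm i)) (H16Jam.xx (e.symm j))) ^ 2 =
            Real.sqrt (2 - 2 * H16Jam.cc) ^ 2 := by rw [hd]
        rw [Real.sq_sqrt h1.le, Real.sq_sqrt (by linarith)] at h2
        linarith
      have hΩ : 0 < H16Jam.Ω (e.symm i) (e.symm j) := by
        rcases H16Jam.pair_cases _ _ hne with h | h
        · exact h.1
        · exact absurd hcc h.2.ne
      have hH := H16Jam.HvC _ _ hne hΩ
      unfold H16Jam.HH at hH
      rw [inner_sub_left, inner_sub_right, inner_sub_right, H16Jam.Hvd, H16Jam.Hvd]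
      have h3 := real_inner_comm (H16Jam.vv (e.symm i)) (H16Jam.xx (e.symm j))
      linarith)
    obtain ⟨A, hA, hv⟩ := hkey
    exact H16Jam.vv_not_rot ⟨A, hA, fun i => by
      have := hv (e i)
      simpa using this⟩

end Pool.Agent.S13411
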