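import Pool.Statements.S13419
import Pool.Agent.H960R3.Rect

set_option autoImplicit false
open Pool Pool.MP_7aa44c_gt

namespace Pool.Agent.S13419

open Set Topology Filter

/-- Every Tychonoff space that is rectifiable and is a p-space (via open families in its Stone–Čech compactification) is a D-space: every neighbourhood assignment has a closed discrete kernel whose neighbourhoods cover the space. -/
theorem result :
    ∀ (X : Type) [TopologicalSpace X] [T35Space X],
      (∃ (e : X) (φ : X × X ≃ₜ X × X),
          (∀ p : X × X, (φ p).1 = p.1) ∧ ∀ x : X, φ (x, x) = (x, e)) →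
      (∃ γ : ℕ → Set (Set (StoneCech X)),
          (∀ n, ∀ U ∈ γ n, IsOpen U) ∧
          (∀ n, ∀ x : X, ∃ U ∈ γ n, stoneCechUnit x ∈ U) ∧
          ∀ x : X, (⋂ n, ⋃₀ {U | U ∈ γ n ∧ stoneCechUnit x ∈ U}) ⊆
            Set.range (stoneCechUnit : X → StoneCech X)) →
      ∀ N : X → Set X, (∀ x, N x ∈ nhds x) →
        ∃ D : Set X, IsClosed D ∧ DiscreteTopology D ∧ (⋃ x ∈ D, N x) = Set.univ := by
  intro X _ _ hr hp N hN
  obtain ⟨e, φ, hφ1, hφ2⟩ := hr
  obtain ⟨γ, hγo, hγc, hγ⟩ := hp
  let j : X → StoneCech X := stoneCechUnit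
  have hj : IsEmbedding j := isEmbedding_stoneCechUnit
  choose G hG hGe using fun n => hγc n e
  -- closed neighbourhoods of `j e`
  have step : ∀ (n : ℕ) (c : {c : Set (StoneCech X) // c ∈ 𝓝 (j e) ∧ IsClosed c}),
      ∃ c' : {c : Set (StoneCech X) // c ∈ 𝓝 (j e) ∧ IsClosed c},
        c'.1 ⊆ interior c.1 ∩ G n := by
    intro n c
    have h1 : interior c.1 ∩ G n ∈ 𝓝 (j e) :=
      inter_mem (interior_mem_nhds.2 c.2.1) ((hγo n _ (hG n)).mem_nhds (hGe n))
    obtain ⟨t, ht, htc, hts⟩ := exists_mem_nhds_isClosed_subset h1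
    exact ⟨⟨t, ht, htc⟩, hts⟩
  choose f hf using step
  let c : ℕ → {c : Set (StoneCech X) // c ∈ 𝓝 (j e) ∧ IsClosed c} := fun n =>
    Nat.rec ⟨Set.univ, univ_mem, isClosed_univ⟩ (fun n c => f n c) n
  have hc : ∀ n, (c (n + 1)).1 ⊆ interior (c n).1 ∩ G n := fun n => hf n (c n)
  have hanti : Antitone fun n => (c n).1 :=
    antitone_nat_of_succ_le fun n => ((hc n).trans inter_subset_left).trans interior_subset
  let K' : Set (StoneCech X) := ⋂ n, (c n).1
  have hK'c : IsCompact K' := (isClosed_iInter fun n => (c n).2.2).isCompact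
  have hK'r : K' ⊆ Set.range j := by
    refine Subset.trans ?_ (hγ e)
    intro z hz
    refine mem_iInter.2 fun n => ?_
    exact mem_sUnion.2 ⟨G n, ⟨hG n, hGe n⟩, (hc n (mem_iInter.1 hz (n + 1))).2⟩
  have hKi : ∀ n, K' ⊆ interior (c n).1 := fun n z hz =>
    (hc n (mem_iInter.1 hz (n + 1))).1
  let d : Pool.Agent.H960R3.Rect.Data X :=
    { p := fun z => (φ.symm z).2
      q := fun z => (φ z).2
      e := e
      hp := continuous_snd.comp φ.symm.continuous
      hq := continuous_snd.comp φ.continuous
      pq := by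
        intro x y
        have h1 : φ (x, y) = (x, (φ (x, y)).2) := Prod.ext (hφ1 _) rfl
        rw [← h1, φ.symm_apply_apply]
      qp := by
        intro x y
        have h0 : (φ.symm (x, y)).1 = x := by
          have := hφ1 (φ.symm (x, y))
          rw [φ.apply_symm_apply] at this
          exact this.symm
        have h1 : φ.symm (x, y) = (x, (φ.symm (x, y)).2) := Prod.ext h0 rfl
        rw [← h1, φ.apply_symm_apply]
      qe := by
        intro x
        rw [hφ2]
      K := j ⁻¹' K'
      hK := hj.isInducing.isCompact_preimage' hK'c hK'r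
      eK := mem_iInter.2 fun n => mem_of_mem_nhds (c n).2.1
      U := fun n => j ⁻¹' interior (c n).1
      C := fun n => j ⁻¹' (c n).1
      hU := fun n => isOpen_interior.preimage hj.continuous
      hC := fun n => (c n).2.2.preimage hj.continuous
      KU := fun n => preimage_mono (hKi n)
      UC := fun n => preimage_mono interior_subset
      CU := fun n => preimage_mono ((hc n).trans inter_subset_left)
      base := by
        intro O hO hKO
        obtain ⟨O', hO', rfl⟩ := hj.isInducing.isOpen_iff.1 hO
        have hKO' : K' ⊆ O' := by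
          intro z hz
          obtain ⟨x, rfl⟩ := hK'r hz
          exact hKO hz
        obtain ⟨n, hn⟩ := exists_subset_nhds_of_isCompact' (V := fun n => (c n).1)
          (directed_of_isDirected_le fun m n h => hanti h)
          (fun n => (c n).2.2.isCompact) (fun n => (c n).2.2)
          (U := O') (fun x hx => hO'.mem_nhds (hKO' hx))
        exact ⟨n, preimage_mono (interior_subset.trans hn)⟩
      inter := by
        intro x hx
        exact mem_iInter.2 fun n => interior_subset (hx n) }
  exact d.dspace N hN

end Pool.Agent.S13419
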