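import Pool.Statements.S13467
import Pool.Agent.H859R3.BraidFinal

set_option autoImplicit false
open Pool Pool.MP_813774_gt

namespace Pool.Agent.S13467

/-- For every n≥2 there is a time-oriented Lorentz metric on the configuration space of n unordered points in the disk such that a nontrivial braid is positive exactly when some future time-like piecewise smooth loop at the base point represents it. -/
theorem result :
  ∀ n : ℕ, 2 ≤ n →
  ∃ (g : (Fin n → ℂ) → (Fin n → ℂ) →L[ℝ] (Fin n → ℂ) →L[ℝ] ℝ)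
    (T : (Fin n → ℂ) → (Fin n → ℂ)),
    ContDiffOn ℝ ((⊤ : ℕ∞) : WithTop ℕ∞) g
      {f : Fin n → ℂ | Function.Injective f ∧ ∀ m, ‖f m‖ < 1} ∧
    ContinuousOn T {f : Fin n → ℂ | Function.Injective f ∧ ∀ m, ‖f m‖ < 1} ∧
    (∀ x : Fin n → ℂ, Function.Injective x → (∀ m, ‖x m‖ < 1) →
      ∀ v w : Fin n → ℂ, g x v w = g x w v) ∧
    (∀ x : Fin n → ℂ, Function.Injective x → (∀ m, ‖x m‖ < 1) →
      ∀ ρ : Equiv.Perm (Fin n), ∀ v w : Fin n → ℂ,
        g (fun m => x (ρ m)) (fun m => v (ρ m)) (fun m => w (ρ m)) = g x v w) ∧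
    (∀ x : Fin n → ℂ, Function.Injective x → (∀ m, ‖x m‖ < 1) →
      ∀ ρ : Equiv.Perm (Fin n), T (fun m => x (ρ m)) = fun m => T x (ρ m)) ∧
    (∀ x : Fin n → ℂ, Function.Injective x → (∀ m, ‖x m‖ < 1) →
      g x (T x) (T x) < 0 ∧
      ∀ v : Fin n → ℂ, v ≠ 0 → g x (T x) v = 0 → 0 < g x v v) ∧
    ∀ (P q : {f : Fin n → ℂ // Function.Injective f ∧ ∀ m, ‖f m‖ < 1}),
      (∀ m : Fin n, P.1 m = (((2 * ((m : ℕ) : ℝ) + 1) / (n : ℝ) - 1 : ℝ) : ℂ)) →
      (∃ ρ : Equiv.Perm (Fin n), ∀ m, q.1 m = P.1 (ρ m)) →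
      ∀ c : Path P q,
        (¬ ∃ d : Path P q, d.Homotopic c ∧ ∀ t, d t = P) →
        ((∃ Γ : Path P q, Γ.Homotopic c ∧ ∃ k : ℕ, 1 ≤ k ∧ ∀ j : ℕ, j < k →
            ∃ i : ℕ, i + 1 < n ∧ ∃ ρ : Equiv.Perm (Fin n),
              ∀ (t : unitInterval) (s : ℝ), 0 ≤ s → s ≤ 1 →
                (t : ℝ) = ((j : ℝ) + s) / (k : ℝ) →
                ∀ m : Fin n, (Γ t).1 m =
                  if ((ρ m : ℕ)) = i then
                    (((2 * (i : ℝ) + 2) / (n : ℝ) - 1 : ℝ) : ℂ)
                      - ((1 / (n : ℝ) : ℝ) : ℂ) *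
                        Complex.exp ((Real.pi : ℂ) * (s : ℂ) * Complex.I)
                  else if ((ρ m : ℕ)) = i + 1 then
                    (((2 * (i : ℝ) + 2) / (n : ℝ) - 1 : ℝ) : ℂ)
                      + ((1 / (n : ℝ) : ℝ) : ℂ) *
                        Complex.exp ((Real.pi : ℂ) * (s : ℂ) * Complex.I)
                  else (((2 * ((ρ m : ℕ) : ℝ) + 1) / (n : ℝ) - 1 : ℝ) : ℂ)) ↔
         (∃ d : Path P q, d.Homotopic c ∧ ∃ (k : ℕ) (τ : ℕ → ℝ),
            τ 0 = 0 ∧ τ k = 1 ∧ ∀ j : ℕ, j < k →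
              τ j < τ (j + 1) ∧
              ContDiffOn ℝ ((⊤ : ℕ∞) : WithTop ℕ∞) (fun t : ℝ => (d.extend t).1)
                (Set.Icc (τ j) (τ (j + 1))) ∧
              ∀ t ∈ Set.Icc (τ j) (τ (j + 1)),
                g ((d.extend t).1)
                  (derivWithin (fun t : ℝ => (d.extend t).1) (Set.Icc (τ j) (τ (j + 1))) t)
                  (derivWithin (fun t : ℝ => (d.extend t).1) (Set.Icc (τ j) (τ (j + 1))) t) < 0 ∧
                g ((d.extend t).1)
                  (derivWithin (fun t : ℝ => (d.extend t).1) (Set.Icc (τ j) (τ (j + 1))) t)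
                  (T ((d.extend t).1)) < 0)) := by
  intro n hn
  have hF : Fact (2 ≤ n) := ⟨hn⟩
  refine ⟨Pool.Agent.H859R3.gL, Pool.Agent.H859R3.TT, Pool.Agent.H859R3.gL_contDiffOn hn,
    Pool.Agent.H859R3.TT_continuous.continuousOn, ?_, ?_, ?_, ?_, ?_⟩
  · intro x _ _ v w
    rw [Pool.Agent.H859R3.gL_apply, Pool.Agent.H859R3.gL_apply, Pool.Agent.H859R3.GG_symm]
  · intro x _ _ ρ v w
    rw [Pool.Agent.H859R3.gL_apply, Pool.Agent.H859R3.gL_apply, Pool.Agent.H859R3.GG_perm]
  · intro x _ _ ρ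
    rfl
  · intro x hx hx'
    refine ⟨?_, ?_⟩
    · rw [Pool.Agent.H859R3.gL_apply]
      exact Pool.Agent.H859R3.GG_TT_neg hn hx hx'
    · intro v hv h
      rw [Pool.Agent.H859R3.gL_apply] at h ⊢
      exact Pool.Agent.H859R3.GG_pos_perp hn hx hx' hv h
  · intro P q hP hq c hc
    obtain ⟨ρ, hρ⟩ := hq
    have eP : P = Pool.Agent.H859R3.base 1 := by
      apply Subtype.ext
      funext m
      rw [hP m]
      rfl
    have eq : q = Pool.Agent.H859R3.base ρ := by
      apply Subtype.ext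
      funext m
      rw [hρ m, hP (ρ m)]
      rfl
    subst eP
    subst eq
    constructor
    · rintro ⟨Γ, hΓ, k, hk, hform⟩
      have hk' : (0 : ℝ) < k := by exact_mod_cast hk
      refine ⟨Γ, hΓ, k, fun j => (j : ℝ) / k, by simp, by field_simp, ?_⟩
      intro j hj
      obtain ⟨i, hi, ρ', hw⟩ := hform j hj
      have hjk : (j : ℝ) + 1 ≤ k := by exact_mod_cast hj
      have hj0 : (0 : ℝ) ≤ j := by positivity
      have hlt : (j : ℝ) / k < ((j + 1 : ℕ) : ℝ) / k := by
        apply div_lt_div_of_pos_right _ hk'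
        push_cast
        linarith
      have hval : ∀ t ∈ Set.Icc ((j : ℝ) / k) (((j + 1 : ℕ) : ℝ) / k),
          (Γ.extend t).1 = Pool.Agent.H859R3.htf ρ' i ((k : ℝ) * t - j) := by
        intro t ht
        have h1 : (j : ℝ) ≤ k * t := by
          have := (div_le_iff₀ hk').1 ht.1
          linarith
        have h2 : (k : ℝ) * t ≤ j + 1 := by
          have := (le_div_iff₀ hk').1 ht.2
          push_cast at this
          linarith
        have ht0 : 0 ≤ t := by
          by_contra hcon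
          push Not at hcon
          nlinarith
        have ht1 : t ≤ 1 := by
          by_contra hcon
          push Not at hcon
          nlinarith
        rw [Path.extend_apply Γ ⟨ht0, ht1⟩]
        funext m
        apply hw ⟨t, ht0, ht1⟩ ((k : ℝ) * t - j) (by linarith) (by linarith)
        simp only
        field_simp
        ring
      have hder : ∀ t : ℝ, HasDerivAt
          (fun t : ℝ => Pool.Agent.H859R3.htf ρ' i ((k : ℝ) * t - j))
          ((k : ℝ) • (Real.pi • Pool.Agent.H859R3.hv ρ' i ((k : ℝ) * t - j))) t := by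
        intro t
        have h1 : HasDerivAt (fun t : ℝ => (k : ℝ) * t - j) (k : ℝ) t := by
          simpa using ((hasDerivAt_id t).const_mul (k : ℝ)).sub_const (j : ℝ)
        exact (Pool.Agent.H859R3.htf_hasDerivAt ρ' i ((k : ℝ) * t - j)).scomp t h1
      refine ⟨hlt, ?_, ?_⟩
      · apply ContDiffOn.congr _ hval
        apply ContDiff.contDiffOn
        apply (Pool.Agent.H859R3.htf_contDiff ρ' i).comp
        exact (contDiff_const.mul contDiff_id).sub contDiff_const
      · intro t ht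
        have hdw : derivWithin (fun t : ℝ => (Γ.extend t).1)
            (Set.Icc ((j : ℝ) / k) (((j + 1 : ℕ) : ℝ) / k)) t =
            (k : ℝ) • (Real.pi • Pool.Agent.H859R3.hv ρ' i ((k : ℝ) * t - j)) := by
          rw [derivWithin_congr hval (hval t ht)]
          exact (hder t).hasDerivWithinAt.derivWithin (uniqueDiffOn_Icc hlt t ht)
        have hkp : 0 < (k : ℝ) * Real.pi := by positivity
        rw [hdw, hval t ht, smul_smul]
        constructor
        · rw [map_smul, map_smul, ContinuousLinearMap.smul_apply, Pool.Agent.H859R3.gL_apply]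
          have := Pool.Agent.H859R3.twist_neg hn ρ' hi ((k : ℝ) * t - j)
          have h3 := mul_neg_of_pos_of_neg hkp this
          exact mul_neg_of_pos_of_neg hkp h3
        · rw [map_smul, ContinuousLinearMap.smul_apply, Pool.Agent.H859R3.gL_apply]
          have := Pool.Agent.H859R3.twist_T_neg hn ρ' hi ((k : ℝ) * t - j)
          exact mul_neg_of_pos_of_neg hkp this
    · rintro ⟨d, hd, k, τ, h0, h1, hj⟩
      have hloc := Pool.Agent.H859R3.locPos_of_timelike hn d h0 h1 hj
      have hpos := Pool.Agent.H859R3.pos_of_locPos d hloc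
      rcases hpos.word with ⟨Γ, hΓ, hconst⟩ | ⟨Γ, hΓ, k, hk, hw⟩
      · exact absurd ⟨Γ, (Path.Homotopic.Quotient.eq.1 hΓ).trans hd, hconst⟩ hc
      · refine ⟨Γ, (Path.Homotopic.Quotient.eq.1 hΓ).trans hd, k, hk, ?_⟩
        intro j hj
        obtain ⟨i, hi, ρ', hρ'⟩ := hw j hj
        refine ⟨i, hi, ρ', ?_⟩
        intro t s hs0 hs1 hts m
        rw [hρ' t s hs0 hs1 hts]
        rfl

end Pool.Agent.S13467
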