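import Pool.Statements.S13493
import Pool.Agent.H262.CE5

set_option autoImplicit false
open Topology
open Pool Pool.MP_874bf8_gt

namespace Pool.Agent.S13493

/-- Every space that embeds in C_p(K) for a compact K, is a G_δ subset of a compact Hausdorff space (Čech-complete), and is scattered, is a countable union of discrete subspaces. -/
theorem result :
    ∀ (X : Type) [TopologicalSpace X],
      (∃ (K : Type) (_ : TopologicalSpace K), CompactSpace K ∧ T2Space K ∧
        ∃ f : X → (K → ℝ), IsEmbedding f ∧ ∀ x, Continuous (f x)) →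
      (∃ (Y : Type) (_ : TopologicalSpace Y), CompactSpace Y ∧ T2Space Y ∧
        ∃ e : X → Y, IsEmbedding e ∧ IsGδ (Set.range e)) →
      (∀ S : Set X, S.Nonempty → ∃ x ∈ S, ∃ U : Set X, IsOpen U ∧ U ∩ S = {x}) →
      ∃ D : ℕ → Set X, (⋃ n, D n) = Set.univ ∧
        ∀ n, ∀ x ∈ D n, ∃ U : Set X, IsOpen U ∧ U ∩ D n = {x} := by
  intro X _ hX hY hsc
  exact Pool.H262.CE.cech X hX hY hsc

end Pool.Agent.S13493
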