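import Pool.Statements.S13580

/-!
Counterexample in dimension three: `φ x = (x₀, x₁, x₂ + x₀² + x₁²)`, extended by `φ ∞ = ∞`.
-/

set_option autoImplicit false
open Pool Pool.MP_925f0d_gt

namespace Pool.Agent.S13580

/-- the shear `x ↦ x + (x₀² + x₁²) e₂` -/
def shear (x : Fin 3 → ℝ) : Fin 3 → ℝ := ![x 0, x 1, x 2 + (x 0 ^ 2 + x 1 ^ 2)]

/-- its inverse -/
def unshear (x : Fin 3 → ℝ) : Fin 3 → ℝ := ![x 0, x 1, x 2 - (x 0 ^ 2 + x 1 ^ 2)]

lemma shear_0 (x : Fin 3 → ℝ) : shear x 0 = x 0 := rfl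
lemma shear_1 (x : Fin 3 → ℝ) : shear x 1 = x 1 := rfl
lemma shear_2 (x : Fin 3 → ℝ) : shear x 2 = x 2 + (x 0 ^ 2 + x 1 ^ 2) := rfl

/-- the shear as a homeomorphism -/
def H : (Fin 3 → ℝ) ≃ₜ (Fin 3 → ℝ) where
  toFun := shear
  invFun := unshear
  left_inv := by
    intro x
    funext i
    fin_cases i
    · rfl
    · rfl
    · show x 2 + (x 0 ^ 2 + x 1 ^ 2) - (x 0 ^ 2 + x 1 ^ 2) = x 2
      ring
  right_inv := by
    intro x
    funext i
    fin_cases i
    · rfl
    · rfl
    · show x 2 - (x 0 ^ 2 + x 1 ^ 2) + (x 0 ^ 2 + x 1 ^ 2) = x 2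
      ring
  continuous_toFun := by
    refine continuous_pi fun i => ?_
    fin_cases i
    · exact continuous_apply 0
    · exact continuous_apply 1
    · show Continuous fun x : Fin 3 → ℝ => x 2 + (x 0 ^ 2 + x 1 ^ 2)
      fun_prop
  continuous_invFun := by
    refine continuous_pi fun i => ?_
    fin_cases i
    · exact continuous_apply 0
    · exact continuous_apply 1
    · show Continuous fun x : Fin 3 → ℝ => x 2 - (x 0 ^ 2 + x 1 ^ 2)
      fun_prop

/-- the map on the one point compactification -/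
def Phi : OnePoint (Fin 3 → ℝ) → OnePoint (Fin 3 → ℝ) := OnePoint.map shear

lemma Phi_some (x : Fin 3 → ℝ) : Phi (OnePoint.some x) = OnePoint.some (shear x) := rfl

lemma Phi_cont : Continuous Phi := H.onePointCongr.continuous

lemma some_inj {x y : Fin 3 → ℝ} (h : (OnePoint.some x : OnePoint (Fin 3 → ℝ)) = OnePoint.some y) :
    x = y := OnePoint.coe_injective h

lemma Phi_eqn (x : Fin 3 → ℝ) (z : ℝ) (hz : z ≠ 0) :
    (Option.map (fun v : Fin 3 → ℝ => (1 - z) • v) (Phi (OnePoint.some x)) :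
        OnePoint (Fin 3 → ℝ)) =
      Phi (Option.map (fun v : Fin 3 → ℝ => ((1 - z) / z) • v)
        (Phi (OnePoint.some (z • x)))) := by
  rw [Phi_some, Phi_some]
  change (OnePoint.some ((1 - z) • shear x) : OnePoint (Fin 3 → ℝ)) =
    OnePoint.some (shear (((1 - z) / z) • shear (z • x)))
  congr 1
  funext i
  fin_cases i
  · show (1 - z) * x 0 = (1 - z) / z * (z * x 0)
    field_simp
  · show (1 - z) * x 1 = (1 - z) / z * (z * x 1)
    field_simp
  · show (1 - z) * (x 2 + (x 0 ^ 2 + x 1 ^ 2)) =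
      (1 - z) / z * (z * x 2 + ((z * x 0) ^ 2 + (z * x 1) ^ 2)) +
        (((1 - z) / z * (z * x 0)) ^ 2 + ((1 - z) / z * (z * x 1)) ^ 2)
    field_simp
    ring

/-- The negation of the preceding statement: For k≥3, every continuous self-map φ of the one-point compactification of ℝ^k with (1−z)φ(x)=φ(φ(zx)(1−z)/z) for real z≠0,1 is the identity, constant 0, constant ∞, or conjugate by a 1-homogeneous homeomorphism to φ_1 or some φ_∞ with d≠0, Σd=0. -/
theorem result :
    ¬ (∀ k : ℕ, 3 ≤ k → ∀ φ : OnePoint (Fin k → ℝ) → OnePoint (Fin k → ℝ), Continuous φ →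
    (∀ (x : Fin k → ℝ) (z : ℝ), z ≠ 0 → z ≠ 1 →
      (Option.map (fun v : Fin k → ℝ => (1 - z) • v) (φ (OnePoint.some x)) : OnePoint (Fin k → ℝ)) =
        φ (Option.map (fun v : Fin k → ℝ => ((1 - z) / z) • v) (φ (OnePoint.some (z • x))))) →
    (∀ p, φ p = p) ∨ (∀ p, φ p = OnePoint.some 0) ∨ (∀ p, φ p = OnePoint.infty) ∨
    ∃ ℓ : (Fin k → ℝ) ≃ₜ (Fin k → ℝ), (∀ (c : ℝ) (x : Fin k → ℝ), ℓ (c • x) = c • ℓ x) ∧
      ((∀ x : Fin k → ℝ, φ (OnePoint.some (ℓ x)) =
          if ∑ i, (x i + 1) ^ 2 = 0 then OnePoint.infty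
          else OnePoint.some (ℓ (fun j => (∑ i, x i ^ 2 + (k : ℝ) * x j) / ∑ i, (x i + 1) ^ 2))) ∨
       ∃ d : Fin k → ℝ, d ≠ 0 ∧ ∑ i, d i = 0 ∧
         ∀ x : Fin k → ℝ, φ (OnePoint.some (ℓ x)) =
           OnePoint.some (ℓ (fun j => d j * (∑ i, x i) ^ 2 + x j)))) := by
  intro hall
  rcases hall 3 le_rfl Phi Phi_cont (fun x z hz _ => Phi_eqn x z hz) with h | h | h | h
  · -- not the identity
    have h1 := some_inj (h (OnePoint.some ![1, 0, 0]))
    have h2 := congrFun h1 2
    rw [shear_2] at h2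
    simp at h2
  · -- not the constant zero
    have h1 := some_inj (h (OnePoint.some ![1, 0, 0]))
    have h2 := congrFun h1 0
    rw [shear_0] at h2
    simp at h2
  · exact OnePoint.coe_ne_infty _ (h (OnePoint.some 0))
  · obtain ⟨ℓ, hhom, h | h⟩ := h
    · have h1 := h (fun _ => -1)
      have h2 : (∑ _i : Fin 3, ((-1 : ℝ) + 1) ^ 2) = 0 := by simp
      rw [if_pos h2] at h1
      exact OnePoint.coe_ne_infty _ h1
    · obtain ⟨d, hd, hsum, h⟩ := h
      -- fixed points of the model are sent to fixed points of the shear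
      have key : ∀ x : Fin 3 → ℝ, ∑ i, x i = 0 → ℓ x 0 = 0 ∧ ℓ x 1 = 0 := by
        intro x hx
        have h1 := h x
        have h2 : (fun j => d j * (∑ i, x i) ^ 2 + x j) = x := by
          funext j
          rw [hx]; ring
        rw [h2] at h1
        have h3 := congrFun (some_inj h1) 2
        rw [shear_2] at h3
        have h4 : ℓ x 0 ^ 2 + ℓ x 1 ^ 2 = 0 := by linarith
        constructor
        · nlinarith [sq_nonneg (ℓ x 0), sq_nonneg (ℓ x 1)]
        · nlinarith [sq_nonneg (ℓ x 0), sq_nonneg (ℓ x 1)]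
      set u : Fin 3 → ℝ := ![1, -1, 0] with hu
      set v : Fin 3 → ℝ := ![0, 1, -1] with hv
      have hsu : ∑ i, u i = 0 := by rw [hu, Fin.sum_univ_three]; simp
      have hsv : ∑ i, v i = 0 := by rw [hv, Fin.sum_univ_three]; simp
      have ku := key u hsu
      have kv := key v hsv
      have heq : ℓ (ℓ v 2 • u) = ℓ (ℓ u 2 • v) := by
        rw [hhom, hhom]
        funext i
        fin_cases i
        · show ℓ v 2 * ℓ u 0 = ℓ u 2 * ℓ v 0
          rw [ku.1, kv.1]; ring
        · show ℓ v 2 * ℓ u 1 = ℓ u 2 * ℓ v 1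
          rw [ku.2, kv.2]; ring
        · show ℓ v 2 * ℓ u 2 = ℓ u 2 * ℓ v 2
          ring
      have h5 := ℓ.injective heq
      have h6 : ℓ v 2 = 0 := by
        have := congrFun h5 0
        simpa [hu, hv] using this
      have h0 : ℓ 0 = 0 := by
        have := hhom 0 0
        simpa using this
      have h7 : ℓ v = ℓ 0 := by
        rw [h0]
        funext i
        fin_cases i
        · exact kv.1
        · exact kv.2
        · exact h6
      have h8 := congrFun (ℓ.injective h7) 1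
      simp [hv] at h8

end Pool.Agent.S13580
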