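import Pool.Statements.S13589
import Pool.Agent.H312R3.TrapFlat

set_option autoImplicit false
open Pool Pool.MP_93ef73_gt

namespace Pool.Agent.S13589

open scoped ENNReal NNReal
open MeasureTheory Metric Pool.Agent.Helper752 Pool.Agent.H312R3

theorem ux_sq (i : Fin 5) : ux i ^ 2 + uy i ^ 2 = 1 ∨ (ux i = 0 ∧ uy i = 0) := by
  have h := sq3
  fin_cases i
  · left; simp [ux, uy]; nlinarith
  · left; simp [ux, uy]; nlinarith
  · left; simp [ux, uy]; nlinarith
  · left; simp [ux, uy]; nlinarith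
  · right; simp [ux, uy]

theorem hit_dir (i : Fin 5) {p : E2} (h : dist (yy i) p ≤ rr) :
    0 ≤ ux i * (p 0 - zx i) + uy i * (p 1 - zy i) := by
  rcases ux_sq i with h1 | h1
  · have h2 := lin_le (ux i) (uy i) h1.le (yy i) p
    have e0 : (yy i) 0 = zx i + rr * ux i := by simp [yy]
    have e1 : (yy i) 1 = zy i + rr * uy i := by simp [yy]
    rw [e0, e1] at h2
    have h3 : ux i * (zx i + rr * ux i - p 0) + uy i * (zy i + rr * uy i - p 1)
        = rr * (ux i ^ 2 + uy i ^ 2) - (ux i * (p 0 - zx i) + uy i * (p 1 - zy i)) := by ring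
    rw [h3, h1, mul_one] at h2
    linarith
  · rw [h1.1, h1.2]; simp

theorem hit_close (i : Fin 5) {p : E2} (h : dist (yy i) p ≤ rr) :
    |p 0 - zx i| ≤ 1 / 50 ∧ |p 1 - zy i| ≤ 1 / 50 := by
  have e0 : (yy i) 0 = zx i + rr * ux i := by simp [yy]
  have e1 : (yy i) 1 = zy i + rr * uy i := by simp [yy]
  have hr : rr = 1 / 100 := rfl
  have hu : |ux i| ≤ 1 ∧ |uy i| ≤ 1 := by
    rcases ux_sq i with h1 | h1
    · exact ⟨abs_le_one_iff_mul_self_le_one.2 (by nlinarith [sq_nonneg (uy i)]),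
        abs_le_one_iff_mul_self_le_one.2 (by nlinarith [sq_nonneg (ux i)])⟩
    · rw [h1.1, h1.2]; simp
  have a1 := lin_le 1 0 (by norm_num) (yy i) p
  have a2 := lin_le (-1) 0 (by norm_num) (yy i) p
  have a3 := lin_le 0 1 (by norm_num) (yy i) p
  have a4 := lin_le 0 (-1) (by norm_num) (yy i) p
  rw [e0, e1] at a1 a2 a3 a4
  obtain ⟨⟨b1, b2⟩, ⟨b3, b4⟩⟩ := And.intro (abs_le.1 hu.1) (abs_le.1 hu.2)
  rw [hr] at a1 a2 a3 a4 h
  constructor
  · rw [abs_le]; constructor <;> linarith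
  · rw [abs_le]; constructor <;> linarith

theorem hit {W : Set E2} (hW : IsCompact W) (hne : W.Nonempty) (y : E2)
    (h : infDist y W ≤ rr) : ∃ p ∈ W, dist y p ≤ rr := by
  obtain ⟨p, hp, hd⟩ := hW.exists_infDist_eq_dist hne y
  exact ⟨p, hp, by rw [← hd]; exact h⟩

/-- There exist d, a nonempty compact totally disconnected A in R^d with two distinct Steiner trees S, T, no terminal interior to segments in both, and nonempty compact M (∣M∣=∣A∣ if A finite) and r>0 with S an r-minimizer for M. -/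
theorem result :
  ∃ (d : ℕ) (A S T M : Set (EuclideanSpace ℝ (Fin d))) (r : ℝ),
    IsCompact A ∧ A.Nonempty ∧ IsTotallyDisconnected A ∧
    (IsCompact S ∧ IsConnected S ∧ A ⊆ S ∧
      MeasureTheory.Measure.hausdorffMeasure 1 S < ⊤ ∧
      ∀ S' : Set (EuclideanSpace ℝ (Fin d)), IsCompact S' → IsConnected S' → A ⊆ S' →
        MeasureTheory.Measure.hausdorffMeasure 1 S ≤ MeasureTheory.Measure.hausdorffMeasure 1 S') ∧
    (IsCompact T ∧ IsConnected T ∧ A ⊆ T ∧
      MeasureTheory.Measure.hausdorffMeasure 1 T < ⊤ ∧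
      ∀ S' : Set (EuclideanSpace ℝ (Fin d)), IsCompact S' → IsConnected S' → A ⊆ S' →
        MeasureTheory.Measure.hausdorffMeasure 1 T ≤ MeasureTheory.Measure.hausdorffMeasure 1 S') ∧
    S ≠ T ∧
    IsCompact M ∧ M.Nonempty ∧ 0 < r ∧
    (A.Finite → M.Finite ∧ M.ncard = A.ncard) ∧
    (¬ ∃ a ∈ A,
        (∃ x y : EuclideanSpace ℝ (Fin d), x ≠ y ∧ segment ℝ x y ⊆ S ∧ a ∈ openSegment ℝ x y) ∧
        (∃ x y : EuclideanSpace ℝ (Fin d), x ≠ y ∧ segment ℝ x y ⊆ T ∧ a ∈ openSegment ℝ x y)) ∧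
    (∀ y ∈ M, Metric.infDist y S ≤ r) ∧
    ∀ W : Set (EuclideanSpace ℝ (Fin d)), IsCompact W → IsConnected W →
      (∀ y ∈ M, Metric.infDist y W ≤ r) →
        MeasureTheory.Measure.hausdorffMeasure 1 S ≤ MeasureTheory.Measure.hausdorffMeasure 1 W := by
  have low : ∀ S' : Set E2, IsCompact S' → IsConnected S' → Set.range ww ⊆ S' →
      ENNReal.ofReal 4 ≤ μH[1] S' := by
    intro S' h1 h2 h3
    refine lower_bound_four h1 h2 fun i hi => ?_
    have h4 : ww i ∈ S' := h3 ⟨i, rfl⟩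
    have h5 : wx i = zx i ∧ wy i = zy i := by
      fin_cases i <;> simp [wx, zx, wy, zy] at hi ⊢
    rw [← h5.1, ← h5.2]
    exact h4
  refine ⟨2, Set.range ww, SS, TT, Set.range yy, rr, (Set.finite_range ww).isCompact,
    ⟨ww 0, 0, rfl⟩, (Set.finite_range ww).countable.isTotallyDisconnected,
    ⟨compact_tree _ _ _ _ _ _, conn_tree _ _ _ _ _ _, ?_, ?_, ?_⟩,
    ⟨compact_tree _ _ _ _ _ _, conn_tree _ _ _ _ _ _, ?_, ?_, ?_⟩, SS_ne_TT,
    (Set.finite_range yy).isCompact, ⟨yy 0, 0, rfl⟩, by norm_num [rr], ?_, ?_, ?_, ?_⟩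
  · rintro _ ⟨i, rfl⟩; exact ww_SS i
  · exact SS_len.trans_lt ENNReal.ofReal_lt_top
  · intro S' h1 h2 h3
    exact SS_len.trans (low S' h1 h2 h3)
  · rintro _ ⟨i, rfl⟩; exact ww_TT i
  · exact TT_len.trans_lt ENNReal.ofReal_lt_top
  · intro S' h1 h2 h3
    exact TT_len.trans (low S' h1 h2 h3)
  · intro _
    refine ⟨Set.finite_range yy, ?_⟩
    rw [Set.ncard_range_of_injective yy_inj, Set.ncard_range_of_injective ww_inj]
  · rintro ⟨_, ⟨i, rfl⟩, h1, _⟩
    exact not_interior_SS i h1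
  · rintro _ ⟨i, rfl⟩
    have hd : ∀ q ∈ SS, dist (yy i) q ≤ rr → infDist (yy i) SS ≤ rr := fun q hq h =>
      (infDist_le_dist_of_mem hq).trans h
    have hz : (!₂[zx i, zy i] : E2) ∈ SS := by
      fin_cases i
      · exact ww_SS 0
      · exact ww_SS 1
      · exact ww_SS 2
      · exact ww_SS 3
      · exact Or.inr (left_mem_segment ℝ _ _)
    refine hd _ hz (dist_le_of _ _ _ _ _ (by norm_num [rr]) ?_)
    have : (zx i + rr * ux i - zx i) ^ 2 + (zy i + rr * uy i - zy i) ^ 2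
        = rr ^ 2 * (ux i ^ 2 + uy i ^ 2) := by ring
    rw [this]
    rcases ux_sq i with h | h
    · rw [h, mul_one]
    · rw [h.1, h.2]; nlinarith [sq_nonneg rr]
  · intro W h1 h2 h3
    have hh : ∀ i, ∃ p ∈ W, dist (yy i) p ≤ rr := fun i => hit h1 h2.nonempty (yy i) (h3 _ ⟨i, rfl⟩)
    choose p hp hd using hh
    refine SS_len.trans (lower_bound_five h1 h2 p hp (fun i => hit_dir i (hd i)) ?_)
    exact ⟨fun i => (hit_close i (hd i)).1, fun i => (hit_close i (hd i)).2⟩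

end Pool.Agent.S13589
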