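import Pool.Statements.S13596
import Pool.Agent.H191R3.SpokedSine

set_option autoImplicit false
open Pool Pool.MP_94b191_gt

namespace Pool.Agent.S13596

/-- The negation of the preceding statement: Every continuum in which any two points are joined by a uniform family of paths covering the space has, for any two points, a uniform family of arcs between them covering the union of all arcs joining them. -/
theorem result :
    ¬ (∀ (X : Type) [MetricSpace X] [CompactSpace X] [ConnectedSpace X],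
      (∀ a b : X, ∃ P : Set (Path a b),
          (∀ ε : ℝ, ε > 0 → ∃ n : ℕ, ∀ p ∈ P, ∃ t : Fin (n + 1) → unitInterval,
              t 0 = 0 ∧ t (Fin.last n) = 1 ∧ StrictMono t ∧
              ∀ i : Fin n, Metric.diam (⇑p '' Set.Icc (t i.castSucc) (t i.succ)) ≤ ε) ∧
          (⋃ p ∈ P, Set.range ⇑p) = Set.univ) →
      (∀ a b : X, ∃ P : Set (Path a b),
          (∀ p ∈ P, Function.Injective ⇑p) ∧
          (∀ ε : ℝ, ε > 0 → ∃ n : ℕ, ∀ p ∈ P, ∃ t : Fin (n + 1) → unitInterval,
              t 0 = 0 ∧ t (Fin.last n) = 1 ∧ StrictMono t ∧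
              ∀ i : Fin n, Metric.diam (⇑p '' Set.Icc (t i.castSucc) (t i.succ)) ≤ ε) ∧
          (⋃ p ∈ P, Set.range ⇑p) =
            ⋃ (q : Path a b) (_ : Function.Injective ⇑q), Set.range ⇑q)) := by
  intro h
  obtain ⟨P, hinj, hunif, hcov⟩ := h H191R3.XX
    (fun a b => H191R3.uniform_of_LJ (K := 8) (by norm_num) H191R3.apex H191R3.LJ_all a b)
    H191R3.apex H191R3.foot
  obtain ⟨n, hn⟩ := hunif (1 / 2) (by norm_num)
  obtain ⟨u, hu⟩ := H191R3.arcPath_mid (n + 1)
  have hmem : H191R3.arcPath (n + 1) u ∈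
      ⋃ (q : Path H191R3.apex H191R3.foot) (_ : Function.Injective ⇑q), Set.range ⇑q := by
    rw [Set.mem_iUnion₂]
    exact ⟨H191R3.arcPath (n + 1), H191R3.arcPath_injective (n + 1), u, rfl⟩
  rw [← hcov, Set.mem_iUnion₂] at hmem
  obtain ⟨p, hp, s, hs⟩ := hmem
  obtain ⟨t, h0, h1, -, hd⟩ := hn p hp
  exact H191R3.obstruction n p (hinj p hp) ⟨s, by rw [hs]; exact hu⟩ t h0 h1 hd

end Pool.Agent.S13596
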