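import Pool.Statements.S13705
import Pool.Agent.H69R3.Cube2

set_option autoImplicit false
open Pool Pool.MP_a58584_gt

namespace Pool.Agent.S13705

/-- Every non-metrizable Tychonoff space X that is t-embedded (has a pointwise-continuous extender of continuous real functions) in every Tychonoff space containing it as a closed subspace contains a copy of the Cantor cube {0,1}^ω₁. -/
theorem result :
    ∀ (X : Type) [TopologicalSpace X] [T35Space X],
      (∀ (Z : Type) [TopologicalSpace Z] [T35Space Z] (e : X → Z),
        Topology.IsClosedEmbedding e →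
        ∃ φ : {f : X → ℝ // Continuous f} → {g : Z → ℝ // Continuous g},
          Continuous φ ∧ ∀ (f : {f : X → ℝ // Continuous f}) (x : X), (φ f).1 (e x) = f.1 x) →
      ¬ TopologicalSpace.MetrizableSpace X →
      ∀ (I : Type), Cardinal.mk I = Cardinal.aleph 1 →
        ∃ h : (I → Bool) → X, Topology.IsEmbedding h := by
  classical
  intro X _ _ hext hnm I hI
  by_contra hno
  -- `X` is t-extral
  have hX : Pool.Agent.H69R3.TExtral X := by
    rintro Y _ _ A hA ⟨H⟩
    obtain ⟨φ, hφ, hφe⟩ := hext Y (fun x => (H x : Y))
      (hA.isClosedEmbedding_subtypeVal.comp H.isClosedEmbedding)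
    refine ⟨fun f => φ ⟨fun x => f.1 (H x), f.2.comp H.continuous⟩, ?_, ?_⟩
    · refine hφ.comp (Continuous.subtype_mk (continuous_pi fun x => ?_) _)
      exact (continuous_apply (H x)).comp continuous_subtype_val
    · intro f a
      have h1 := hφe ⟨fun x => f.1 (H x), f.2.comp H.continuous⟩ (H.symm a)
      simp only [Homeomorph.apply_symm_apply] at h1
      exact h1
  obtain ⟨hc, κ, e, ψ, he, hψ, hψe⟩ := Pool.Agent.H69R3.extral_cube hX
  apply hnm
  refine Pool.Agent.H69R3.metrizable_of_cube2 ?_ e he ψ hψ hψe
  -- an injective continuous image of an uncountable Cantor cube gives the embedding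
  intro S _ g hg hinj
  apply hno
  have h3 : Cardinal.mk I ≤ Cardinal.mk S := by
    rw [hI, Cardinal.aleph_one_le_iff]
    exact Cardinal.aleph0_lt_mk_iff.2 inferInstance
  obtain ⟨ι⟩ := h3
  have hq : Continuous fun (d : I → Bool) (s : S) =>
      if hs : ∃ i, ι i = s then d hs.choose else false := by
    apply continuous_pi
    intro s
    by_cases hs : ∃ i, ι i = s
    · simp only [hs, dif_pos]
      exact continuous_apply _
    · simp only [hs, dif_neg, not_false_eq_true]
      exact continuous_const
  have hqi : Function.Injective fun (d : I → Bool) (s : S) =>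
      if hs : ∃ i, ι i = s then d hs.choose else false := by
    intro d d' hdd
    funext i
    have h4 := congrFun hdd (ι i)
    have hs : ∃ i', ι i' = ι i := ⟨i, rfl⟩
    simp only [hs, dif_pos] at h4
    have h5 : hs.choose = i := ι.injective hs.choose_spec
    rwa [h5] at h4
  exact ⟨_, ((hg.comp hq).isClosedEmbedding (hinj.comp hqi)).isEmbedding⟩

end Pool.Agent.S13705
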