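import Pool.Statements.S13710
import Pool.Agent.H191R3.Neck

set_option autoImplicit false
open Pool Pool.MP_a6a8af_gt

namespace Pool.Agent.S13710

open Set Topology Pool.Agent.H191R3

/-- the composite parametrization of the quotient by the plane -/
noncomputable def q (w : ℝ × ℝ) : NY := cov (parX w)

theorem quot_q : IsQuotientMap q := quot_cov.comp quot_parX

theorem q_s (s θ : ℝ) : q (s + 2 * Real.pi, θ) = q (s, θ) :=
  congrArg cov (Subtype.ext (par_s s θ))

theorem q_θ (s θ : ℝ) : q (s, θ + 2 * Real.pi) = q (s, θ) :=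
  congrArg cov (Subtype.ext (par_θ s θ))

theorem q_flip (s θ : ℝ) : q (Real.pi - s, θ + Real.pi) = q (s, θ) := by
  have : parX (Real.pi - s, θ + Real.pi) = invX (parX (s, θ)) := Subtype.ext (par_flip s θ)
  unfold q
  rw [this, cov_invX]

theorem q_pole {s : ℝ} (hs : Real.sin s = 0) (θ θ' : ℝ) : q (s, θ) = q (s, θ') :=
  congrArg cov (Subtype.ext (par_pole hs θ θ'))

theorem const_of_int {D : ℝ × ℝ → ℝ} (hD : Continuous D)
    (h : ∀ w, ((D w : ℝ) : UnitAddCircle) = 0) (w w' : ℝ × ℝ) : D w = D w' := by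
  refine isPreconnected_univ.constant_of_mapsTo (T := range ((↑) : ℤ → ℝ)) ?_ hD.continuousOn ?_
    (mem_univ w) (mem_univ w')
  · exact Int.isClosedEmbedding_coe_real.isEmbedding.isDiscrete_range
  · intro z _
    have := h z
    rw [AddCircle.coe_eq_zero_iff] at this
    obtain ⟨n, hn⟩ := this
    exact ⟨n, by simpa using hn⟩

theorem lift_exists (g : NY → UnitAddCircle) (hg : Continuous g) :
    ∃ h : NY → ℝ, Continuous h ∧ ∀ y, ((h y : ℝ) : UnitAddCircle) = g y := by
  have hq : Continuous q := quot_q.continuous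
  obtain ⟨e₀, he₀⟩ := QuotientAddGroup.mk_surjective (g (q (0, 0)))
  obtain ⟨H, ⟨-, hH⟩, -⟩ := (AddCircle.isCoveringMap_coe (1 : ℝ)).existsUnique_continuousMap_lifts
    (⟨fun w => g (q w), hg.comp hq⟩ : C(ℝ × ℝ, UnitAddCircle)) (0, 0) e₀ he₀
  have hHc : Continuous H := H.continuous
  have hHg : ∀ w, ((H w : ℝ) : UnitAddCircle) = g (q w) := fun w => congrFun hH w
  -- constancy on poles
  have hpole : ∀ s : ℝ, Real.sin s = 0 → ∀ θ θ' : ℝ, H (s, θ) = H (s, θ') := by
    intro s hs θ θ'
    exact const_of_int (D := fun w => H (s, w.2) - H (s, 0)) (by fun_prop)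
      (fun w => by rw [AddCircle.coe_sub, hHg, hHg, q_pole hs w.2 0, sub_self]) (0, θ) (0, θ') |>
      sub_left_injective
  have hθ : ∀ s θ : ℝ, H (s, θ + 2 * Real.pi) = H (s, θ) := by
    intro s θ
    have h1 := const_of_int (D := fun w => H (w.1, w.2 + 2 * Real.pi) - H (w.1, w.2))
      (by fun_prop)
      (fun w => by rw [AddCircle.coe_sub, hHg, hHg, q_θ w.1 w.2, sub_self]) (s, θ) (0, 0)
    have h2 := hpole 0 Real.sin_zero (0 + 2 * Real.pi) 0
    simp only at h1
    rw [h2, sub_self] at h1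
    linarith
  have hflip : ∀ s θ : ℝ, H (Real.pi - s, θ + Real.pi) = H (s, θ) := by
    have h1 : ∀ s θ : ℝ, H (Real.pi - s, θ + Real.pi) - H (s, θ) =
        H (Real.pi - 0, 0 + Real.pi) - H (0, 0) := by
      intro s θ
      exact const_of_int (D := fun w => H (Real.pi - w.1, w.2 + Real.pi) - H (w.1, w.2))
        (by fun_prop)
        (fun w => by rw [AddCircle.coe_sub, hHg, hHg, q_flip w.1 w.2, sub_self]) (s, θ) (0, 0)
    intro s θ
    have h2 := h1 s θ
    have h3 := h1 (Real.pi - s) (θ + Real.pi)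
    have h4 : H (Real.pi - (Real.pi - s), θ + Real.pi + Real.pi) = H (s, θ) := by
      rw [← hθ s θ]
      congr 2
      · ring
      · ring
    rw [h4] at h3
    linarith
  have hs : ∀ s θ : ℝ, H (s + 2 * Real.pi, θ) = H (s, θ) := by
    have h1 : ∀ s θ : ℝ, H (s + 2 * Real.pi, θ) - H (s, θ) = H (0 + 2 * Real.pi, 0) - H (0, 0) := by
      intro s θ
      exact const_of_int (D := fun w => H (w.1 + 2 * Real.pi, w.2) - H (w.1, w.2))
        (by fun_prop)
        (fun w => by rw [AddCircle.coe_sub, hHg, hHg, q_s w.1 w.2, sub_self]) (s, θ) (0, 0)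
    intro s θ
    have h2 := h1 s θ
    have h3 := h1 (Real.pi - (s + 2 * Real.pi)) (θ + Real.pi)
    have h4 : H (Real.pi - (s + 2 * Real.pi) + 2 * Real.pi, θ + Real.pi) = H (s, θ) := by
      rw [← hflip s θ]
      congr 2
      ring
    rw [h4, hflip] at h3
    linarith
  have hsZ : ∀ (k : ℤ) (s θ : ℝ), H (s + k * (2 * Real.pi), θ) = H (s, θ) := by
    intro k s θ
    have hp : Function.Periodic (fun s : ℝ => H (s, θ)) (2 * Real.pi) := fun s => hs s θ
    exact hp.int_mul k s
  have hθZ : ∀ (k : ℤ) (s θ : ℝ), H (s, θ + k * (2 * Real.pi)) = H (s, θ) := by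
    intro k s θ
    have hp : Function.Periodic (fun θ : ℝ => H (s, θ)) (2 * Real.pi) := fun θ => hθ s θ
    exact hp.int_mul k θ
  have hpar : ∀ w w' : ℝ × ℝ, par w = par w' → H w = H w' := by
    rintro ⟨s, θ⟩ ⟨s', θ'⟩ h
    have e1 : Real.cos s = Real.cos s' := congrArg Prod.fst h
    have e2 : Real.sin s = Real.sin s' := congrArg (fun x => x.2.1) h
    have e3 : (Real.sin s : ℂ) * Complex.exp ((θ : ℂ) * Complex.I) =
      (Real.sin s' : ℂ) * Complex.exp ((θ' : ℂ) * Complex.I) := congrArg (fun x => x.2.2) h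
    obtain ⟨k, hk⟩ := Real.Angle.angle_eq_iff_two_pi_dvd_sub.mp (Real.Angle.cos_sin_inj e1 e2)
    have hs' : s = s' + k * (2 * Real.pi) := by linarith
    have h1 : H (s, θ) = H (s', θ) := by rw [hs', hsZ]
    rw [h1]
    by_cases h0 : Real.sin s' = 0
    · exact hpole s' h0 θ θ'
    · have h0' : (Real.sin s' : ℂ) ≠ 0 := by exact_mod_cast h0
      rw [e2] at e3
      have e4 := mul_left_cancel₀ h0' e3
      obtain ⟨n, hn⟩ := Complex.exp_eq_exp_iff_exists_int.mp e4
      have e5 : (θ : ℂ) = θ' + n * (2 * Real.pi) := by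
        have : (θ : ℂ) * Complex.I = (θ' + n * (2 * Real.pi)) * Complex.I := by rw [hn]; ring
        exact mul_right_cancel₀ Complex.I_ne_zero this
      have e6 : θ = θ' + n * (2 * Real.pi) := by exact_mod_cast e5
      rw [e6, hθZ]
  have hfib : ∀ w w' : ℝ × ℝ, q w = q w' → H w = H w' := by
    rintro ⟨s, θ⟩ ⟨s', θ'⟩ h
    rcases cov_fiber h with h1 | h1
    · exact (hpar _ _ (congrArg Subtype.val h1)).symm
    · have h2 : par (s', θ') = par (Real.pi - s, θ + Real.pi) := by
        rw [par_flip]; exact congrArg Subtype.val h1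
      rw [hpar _ _ h2, hflip]
  let Q : C(ℝ × ℝ, NY) := ⟨q, hq⟩
  have hQ : IsQuotientMap Q := quot_q
  have hf : Function.FactorsThrough H Q := fun w w' h => hfib w w' h
  refine ⟨hQ.lift H hf, (hQ.lift H hf).continuous, ?_⟩
  intro y
  obtain ⟨w, rfl⟩ := hQ.surjective y
  have : (hQ.lift H hf) (Q w) = H w := by
    have := hQ.lift_comp H hf
    exact congrArg (fun F : C(ℝ × ℝ, ℝ) => F w) this
  rw [this, hHg]
  rfl

/-- The negation of the preceding statement: If X is a locally connected metric continuum that is a union of two subcontinua with disconnected intersection, and f is a local homeomorphism of X onto a metric space Y, then Y is also such a union. -/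
theorem result :
    ¬ (∀ (X Y : Type) [MetricSpace X] [CompactSpace X] [ConnectedSpace X]
      [LocallyConnectedSpace X] [MetricSpace Y] (f : X → Y),
      IsLocalHomeomorph f → Function.Surjective f →
      (∃ A B : Set X, IsClosed A ∧ IsClosed B ∧ IsConnected A ∧ IsConnected B ∧
          A ∪ B = Set.univ ∧ ¬ IsConnected (A ∩ B)) →
      (∃ A B : Set Y, IsClosed A ∧ IsClosed B ∧ IsConnected A ∧ IsConnected B ∧
          A ∪ B = Set.univ ∧ ¬ IsConnected (A ∩ B))) := by
  intro h
  obtain ⟨A, B, hA, hB, hAc, hBc, hAB, hn⟩ := h NX NY cov isLocalHomeomorph_cov surjective_cov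
    ⟨upper, lower, upper_closed, lower_closed, upper_connected, lower_connected,
      upper_union_lower, not_connected_inter⟩
  apply hn
  refine ⟨?_, unicoherent_of_lift lift_exists hA hB hAc.isPreconnected hBc.isPreconnected hAB⟩
  have : ConnectedSpace NY := surjective_cov.connectedSpace continuous_cov
  by_contra hcon
  rw [Set.not_nonempty_iff_eq_empty] at hcon
  have hp : IsPreconnected (univ : Set NY) := isPreconnected_univ
  rw [isPreconnected_closed_iff] at hp
  obtain ⟨x, -, hx⟩ := hp A B hA hB (by rw [hAB]) (by simpa using hAc.nonempty)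
    (by simpa using hBc.nonempty)
  rw [hcon] at hx
  exact hx

end Pool.Agent.S13710
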