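import Pool.Statements.S13729
import Pool.Agent.H790.Last

set_option autoImplicit false
open Pool Pool.MP_a96c68_gt

namespace Pool.Agent.S13729

/-- There is a smooth Riemannian metric on the 2-sphere and an injective unit-speed geodesic ray (locally distance-realizing) whose distance to the image of every simple closed geodesic does not tend to 0. -/
theorem result :
    ∃ G : EuclideanSpace ℝ (Fin 3) → (EuclideanSpace ℝ (Fin 3) →L[ℝ] (EuclideanSpace ℝ (Fin 3) →L[ℝ] ℝ)),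
      ContDiff ℝ ((⊤ : ℕ∞) : WithTop ℕ∞) G ∧
      (∀ x ∈ Metric.sphere (0 : EuclideanSpace ℝ (Fin 3)) 1, ∀ v w : EuclideanSpace ℝ (Fin 3),
          inner ℝ x v = (0:ℝ) → inner ℝ x w = (0:ℝ) → G x v w = G x w v) ∧
      (∀ x ∈ Metric.sphere (0 : EuclideanSpace ℝ (Fin 3)) 1, ∀ v : EuclideanSpace ℝ (Fin 3),
          inner ℝ x v = (0:ℝ) → v ≠ 0 → 0 < G x v v) ∧
      ∃ c : ℝ → EuclideanSpace ℝ (Fin 3),
        (∀ t : ℝ, 0 ≤ t → c t ∈ Metric.sphere (0 : EuclideanSpace ℝ (Fin 3)) 1) ∧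
        Set.InjOn c (Set.Ici 0) ∧
        (∀ t ∈ Set.Ici (0:ℝ), ∃ ε > (0:ℝ), ∀ s₁ ∈ Set.Ici (0:ℝ), ∀ s₂ ∈ Set.Ici (0:ℝ),
          t - ε < s₁ → s₁ ≤ s₂ → s₂ < t + ε →
          (∀ σ : ℝ → EuclideanSpace ℝ (Fin 3), ContDiff ℝ 1 σ →
              (∀ u ∈ Set.Icc (0:ℝ) 1, σ u ∈ Metric.sphere (0 : EuclideanSpace ℝ (Fin 3)) 1) →
              σ 0 = c s₁ → σ 1 = c s₂ →
              s₂ - s₁ ≤ ∫ u in (0:ℝ)..1, Real.sqrt (G (σ u) (deriv σ u) (deriv σ u))) ∧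
          (∀ δ > (0:ℝ), ∃ σ : ℝ → EuclideanSpace ℝ (Fin 3), ContDiff ℝ 1 σ ∧
              (∀ u ∈ Set.Icc (0:ℝ) 1, σ u ∈ Metric.sphere (0 : EuclideanSpace ℝ (Fin 3)) 1) ∧
              σ 0 = c s₁ ∧ σ 1 = c s₂ ∧
              (∫ u in (0:ℝ)..1, Real.sqrt (G (σ u) (deriv σ u) (deriv σ u))) < s₂ - s₁ + δ)) ∧
        ¬ ∃ γ : ℝ → EuclideanSpace ℝ (Fin 3), ∃ L > (0:ℝ),
          (∀ t : ℝ, γ t ∈ Metric.sphere (0 : EuclideanSpace ℝ (Fin 3)) 1) ∧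
          (∀ t : ℝ, γ (t + L) = γ t) ∧
          Set.InjOn γ (Set.Ico 0 L) ∧
          (∀ t : ℝ, ∃ ε > (0:ℝ), ∀ s₁ s₂ : ℝ,
            t - ε < s₁ → s₁ ≤ s₂ → s₂ < t + ε →
            (∀ σ : ℝ → EuclideanSpace ℝ (Fin 3), ContDiff ℝ 1 σ →
                (∀ u ∈ Set.Icc (0:ℝ) 1, σ u ∈ Metric.sphere (0 : EuclideanSpace ℝ (Fin 3)) 1) →
                σ 0 = γ s₁ → σ 1 = γ s₂ →
                s₂ - s₁ ≤ ∫ u in (0:ℝ)..1, Real.sqrt (G (σ u) (deriv σ u) (deriv σ u))) ∧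
            (∀ δ > (0:ℝ), ∃ σ : ℝ → EuclideanSpace ℝ (Fin 3), ContDiff ℝ 1 σ ∧
                (∀ u ∈ Set.Icc (0:ℝ) 1, σ u ∈ Metric.sphere (0 : EuclideanSpace ℝ (Fin 3)) 1) ∧
                σ 0 = γ s₁ ∧ σ 1 = γ s₂ ∧
                (∫ u in (0:ℝ)..1, Real.sqrt (G (σ u) (deriv σ u) (deriv σ u))) < s₂ - s₁ + δ)) ∧
          Filter.Tendsto (fun t => Metric.infDist (c t) (Set.range γ)) Filter.atTop (nhds 0) := by
  have hω : Irrational (Real.sqrt 2 - 1) := by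
    have := irrational_sqrt_two.sub_intCast 1
    simpa using this
  have hθ : ∀ i j : ℤ, (1/3 : ℝ) ≠ i + j * (Real.sqrt 2 - 1) := by
    intro i j h
    by_cases hj : j = 0
    · rw [hj] at h
      have h2 : ((3 * i : ℤ) : ℝ) = ((1 : ℤ) : ℝ) := by push_cast at h ⊢; linarith
      have h3 : 3 * i = 1 := by exact_mod_cast h2
      omega
    · apply hω
      refine ⟨(1/3 - (i:ℚ)) / j, ?_⟩
      have hj' : (j:ℝ) ≠ 0 := by exact_mod_cast hj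
      push_cast
      field_simp
      linarith
  have h1 : (0:ℝ) < Real.sqrt 2 - 1 := by
    have : (1:ℝ) < Real.sqrt 2 := by
      rw [Real.lt_sqrt (by norm_num)]; norm_num
    linarith
  have h2 : Real.sqrt 2 - 1 < (1:ℝ) := by
    have : Real.sqrt 2 < (2:ℝ) := by
      rw [Real.sqrt_lt' (by norm_num)]; norm_num
    linarith
  obtain ⟨b, a, L⟩ := H790.exists_leaf (H790.stm (Real.sqrt 2 - 1) (1/3)) (H790.stm_step h1 h2)
  refine ⟨H790.GG, H790.GG_contDiff, ?_, ?_, H790.cc (H790.stm (Real.sqrt 2 - 1) (1/3)) b a, ?_, H790.cc_injOn hω hθ L, ?_, ?_⟩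
  · intro x _ v w _ _
    exact H790.GG_symm x v w
  · intro x hx v hv hne
    rw [mem_sphere_zero_iff_norm] at hx
    exact H790.GG_pos hx hv hne
  · intro t _
    rw [mem_sphere_zero_iff_norm]
    exact H790.norm_cc t
  · intro t ht
    obtain ⟨ε, hε, h⟩ := H790.cc_local L (s0 := t) ht
    refine ⟨ε, hε, ?_⟩
    intro s₁ hs1 s₂ hs2 g1 g2 g3
    obtain ⟨k1, σ, k2, k3, k4, k5, k6⟩ := h s₁ hs1 s₂ hs2 g1 g2 g3
    refine ⟨k1, ?_⟩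
    intro δ hδ
    refine ⟨σ, k2, k3, k4, k5, ?_⟩
    have k7 : (∫ u in (0:ℝ)..1, Real.sqrt (H790.GG (σ u) (deriv σ u) (deriv σ u))) = s₂ - s₁ := k6
    rw [k7]
    linarith
  · rintro ⟨γ, P, hP, _, hper, _, hγ, hlim⟩
    refine H790.no_limit hω hθ L hP hper ?_ hlim
    intro t
    obtain ⟨ε, hε, h⟩ := hγ t
    refine ⟨ε, hε, ?_⟩
    intro s₁ s₂ g1 g2 g3
    exact (h s₁ s₂ g1 g2 g3).2

end Pool.Agent.S13729
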