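import Pool.Statements.S13736
import Pool.Agent.H821R3.Fin

set_option autoImplicit false
open scoped Pointwise
open Pool Pool.MP_aac655_gt

namespace Pool.Agent.S13736

/-- The negation of the preceding statement: For n ≥ 2, if an irreducible continuous SL(n,ℝ)-representation W admits a nontrivial invariant Minkowski valuation on bodies with 0 inside that is upper semicontinuous but not continuous, then W is isomorphic to Sym^p V or Sym^p V* for some p. -/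
theorem result :
    ¬ (∀ (n : ℕ), 2 ≤ n → ∀ (m : ℕ)
    (ρ : Matrix.SpecialLinearGroup (Fin n) ℝ →* Matrix.GeneralLinearGroup (Fin m) ℝ),
    Continuous (fun A : {A : Matrix (Fin n) (Fin n) ℝ // A.det = 1} =>
      (ρ (⟨A.1, A.2⟩ : Matrix.SpecialLinearGroup (Fin n) ℝ)).val) →
    0 < m →
    (∀ U : Submodule ℝ (Fin m → ℝ),
      (∀ T : Matrix.SpecialLinearGroup (Fin n) ℝ, ∀ w ∈ U, Matrix.mulVec (ρ T).val w ∈ U) →
      U = ⊥ ∨ U = ⊤) →
    (∃ Φ : Set (Fin n → ℝ) → Set (Fin m → ℝ),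
      (∀ K : Set (Fin n → ℝ), IsCompact K → Convex ℝ K → (0 : Fin n → ℝ) ∈ interior K →
        (Φ K).Nonempty ∧ IsCompact (Φ K) ∧ Convex ℝ (Φ K)) ∧
      (∀ (T : Matrix.SpecialLinearGroup (Fin n) ℝ) (K : Set (Fin n → ℝ)),
        IsCompact K → Convex ℝ K → (0 : Fin n → ℝ) ∈ interior K →
        Matrix.mulVec (ρ T).val ''
          Φ (Matrix.mulVec ((T⁻¹ : Matrix.SpecialLinearGroup (Fin n) ℝ) :
              Matrix (Fin n) (Fin n) ℝ) '' K) = Φ K) ∧
      (∀ K L : Set (Fin n → ℝ),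
        IsCompact K → Convex ℝ K → (0 : Fin n → ℝ) ∈ interior K →
        IsCompact L → Convex ℝ L → (0 : Fin n → ℝ) ∈ interior L →
        Convex ℝ (K ∪ L) → Φ (K ∪ L) + Φ (K ∩ L) = Φ K + Φ L) ∧
      (∃ K : Set (Fin n → ℝ), IsCompact K ∧ Convex ℝ K ∧ (0 : Fin n → ℝ) ∈ interior K ∧
        Φ K ≠ {0}) ∧
      (∀ D : Set (Fin m → ℝ), IsCompact D → Convex ℝ D → (0 : Fin m → ℝ) ∈ interior D →
        ∀ (Ks : ℕ → Set (Fin n → ℝ)) (K : Set (Fin n → ℝ)),
          (∀ j, IsCompact (Ks j) ∧ Convex ℝ (Ks j) ∧ (0 : Fin n → ℝ) ∈ interior (Ks j)) →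
          IsCompact K → Convex ℝ K → (0 : Fin n → ℝ) ∈ interior K →
          Filter.Tendsto (fun j => Metric.hausdorffDist (Ks j) K) Filter.atTop (nhds 0) →
          ∃ j0 : ℕ, ∀ j, j0 ≤ j → Φ (Ks j) ⊆ Φ K + D) ∧
      ¬ (∀ (Ks : ℕ → Set (Fin n → ℝ)) (K : Set (Fin n → ℝ)),
          (∀ j, IsCompact (Ks j) ∧ Convex ℝ (Ks j) ∧ (0 : Fin n → ℝ) ∈ interior (Ks j)) →
          IsCompact K → Convex ℝ K → (0 : Fin n → ℝ) ∈ interior K →
          Filter.Tendsto (fun j => Metric.hausdorffDist (Ks j) K) Filter.atTop (nhds 0) →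
          Filter.Tendsto (fun j => Metric.hausdorffDist (Φ (Ks j)) (Φ K))
            Filter.atTop (nhds 0))) →
    ∃ p : ℕ,
      (∃ e : (Fin m → ℝ) ≃ₗ[ℝ] MvPolynomial.homogeneousSubmodule (Fin n) ℝ p,
        ∀ (T : Matrix.SpecialLinearGroup (Fin n) ℝ) (w : Fin m → ℝ),
          ((e (Matrix.mulVec (ρ T).val w) : MvPolynomial.homogeneousSubmodule (Fin n) ℝ p) :
              MvPolynomial (Fin n) ℝ) =
            MvPolynomial.bind₁
              (fun i : Fin n => (∑ j : Fin n,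
                MvPolynomial.C (((T : Matrix.SpecialLinearGroup (Fin n) ℝ) :
                  Matrix (Fin n) (Fin n) ℝ) j i) * MvPolynomial.X j : MvPolynomial (Fin n) ℝ))
              ((e w : MvPolynomial.homogeneousSubmodule (Fin n) ℝ p) : MvPolynomial (Fin n) ℝ)) ∨
      (∃ e : (Fin m → ℝ) ≃ₗ[ℝ] MvPolynomial.homogeneousSubmodule (Fin n) ℝ p,
        ∀ (T : Matrix.SpecialLinearGroup (Fin n) ℝ) (w : Fin m → ℝ),
          ((e (Matrix.mulVec (ρ T).val w) : MvPolynomial.homogeneousSubmodule (Fin n) ℝ p) :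
              MvPolynomial (Fin n) ℝ) =
            MvPolynomial.bind₁
              (fun i : Fin n => (∑ j : Fin n,
                MvPolynomial.C (((T⁻¹ : Matrix.SpecialLinearGroup (Fin n) ℝ) :
                  Matrix (Fin n) (Fin n) ℝ) i j) * MvPolynomial.X j : MvPolynomial (Fin n) ℝ))
              ((e w : MvPolynomial.homogeneousSubmodule (Fin n) ℝ p) : MvPolynomial (Fin n) ℝ))) := by
  intro H
  have key := H 3 (by norm_num) 8 Pool.Agent.H821R3.rho Pool.Agent.H821R3.rho_continuous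
    (by norm_num) Pool.Agent.H821R3.rho_irreducible
  have hn : 0 < 3 := by norm_num
  have hne : Pool.Agent.H821R3.Phi Pool.Agent.H821R3.vv (Pool.Agent.H821R3.eball 3) ≠ {0} :=
    Pool.Agent.H821R3.Phi_eball_ne Pool.Agent.H821R3.vv_continuous hn 0 1
      Pool.Agent.H821R3.lent Pool.Agent.H821R3.lent_vv
  suffices hex : _ by
    obtain ⟨p, h⟩ := key hex
    rcases h with ⟨e, -⟩ | ⟨e, -⟩
    · exact Pool.Agent.H821R3.no_sym p e
    · exact Pool.Agent.H821R3.no_sym p e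
  refine ⟨Pool.Agent.H821R3.Phi Pool.Agent.H821R3.vv, ?_, ?_, ?_, ?_, ?_, ?_⟩
  · intro K h1 h2 h3
    exact Pool.Agent.H821R3.Phi_body ⟨h1, h2, h3⟩ hn Pool.Agent.H821R3.vv_continuous
  · intro T K h1 h2 h3
    exact Pool.Agent.H821R3.Phi_vv_invariant T ⟨h1, h2, h3⟩
  · intro K L h1 h2 h3 h4 h5 h6 h7
    exact Pool.Agent.H821R3.Phi_valuation ⟨h1, h2, h3⟩ ⟨h4, h5, h6⟩ h7 hn
      Pool.Agent.H821R3.vv_continuous
  · have hB := Pool.Agent.H821R3.eball_body 3
    exact ⟨_, hB.cpt, hB.cvx, hB.int, hne⟩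
  · intro D _ _ hD Ks K hKs h1 h2 h3 ht
    exact Pool.Agent.H821R3.Phi_usc (fun j => ⟨(hKs j).1, (hKs j).2.1, (hKs j).2.2⟩)
      ⟨h1, h2, h3⟩ hn ht Pool.Agent.H821R3.vv_continuous hD
  · intro hc
    obtain ⟨Ks, hKs, ht, hnt⟩ := Pool.Agent.H821R3.not_continuous_Phi
      Pool.Agent.H821R3.vv_continuous (by norm_num) hne
    have hB := Pool.Agent.H821R3.eball_body 3
    exact hnt (hc Ks _ (fun j => ⟨(hKs j).cpt, (hKs j).cvx, (hKs j).int⟩) hB.cpt hB.cvx hB.int ht)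

end Pool.Agent.S13736
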