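import Pool.Statements.S13768
import Pool.Agent.H261R3.WS.Asm
-- import your own Pool.Agent.* helpers here

set_option autoImplicit false
open Topology Filter
open Pool Pool.MP_b098a7_gt

namespace Pool.Agent.S13768

/-- The negation of the preceding statement: If a complete geodesic metric space has, at every hinge, a limiting angle at least the Euclidean comparison angle, then its comparison angles at any point p toward any three other points sum to at most 2π (i.e. it is Alex(0)). -/
theorem result :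
    ¬ (∀ (X : Type) [MetricSpace X] [CompleteSpace X],
      (∀ x y : X, ∃ γ : ℝ → X, γ 0 = x ∧ γ (dist x y) = y ∧
        ∀ s ∈ Set.Icc (0:ℝ) (dist x y), ∀ t ∈ Set.Icc (0:ℝ) (dist x y),
          dist (γ s) (γ t) = |s - t|) →
      (∀ p x y : X, x ≠ p → y ≠ p →
        ∀ γ δ : ℝ → X,
          (γ 0 = p ∧ γ (dist p x) = x ∧
            ∀ s ∈ Set.Icc (0:ℝ) (dist p x), ∀ t ∈ Set.Icc (0:ℝ) (dist p x),
              dist (γ s) (γ t) = |s - t|) →
          (δ 0 = p ∧ δ (dist p y) = y ∧
            ∀ s ∈ Set.Icc (0:ℝ) (dist p y), ∀ t ∈ Set.Icc (0:ℝ) (dist p y),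
              dist (δ s) (δ t) = |s - t|) →
          ∃ α : ℝ,
            Filter.Tendsto
              (fun q : ℝ × ℝ =>
                Real.arccos ((dist p (γ q.1) ^ 2 + dist p (δ q.2) ^ 2
                    - dist (γ q.1) (δ q.2) ^ 2) /
                  (2 * dist p (γ q.1) * dist p (δ q.2))))
              (nhdsWithin (0:ℝ) (Set.Ioi 0) ×ˢ nhdsWithin (0:ℝ) (Set.Ioi 0))
              (nhds α) ∧
            Real.arccos ((dist p x ^ 2 + dist p y ^ 2 - dist x y ^ 2) /
              (2 * dist p x * dist p y)) ≤ α) →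
      ∀ p x₁ x₂ x₃ : X, x₁ ≠ p → x₂ ≠ p → x₃ ≠ p →
        Real.arccos ((dist p x₁ ^ 2 + dist p x₂ ^ 2 - dist x₁ x₂ ^ 2) /
            (2 * dist p x₁ * dist p x₂)) +
          Real.arccos ((dist p x₂ ^ 2 + dist p x₃ ^ 2 - dist x₂ x₃ ^ 2) /
            (2 * dist p x₂ * dist p x₃)) +
          Real.arccos ((dist p x₃ ^ 2 + dist p x₁ ^ 2 - dist x₃ x₁ ^ 2) /
            (2 * dist p x₃ * dist p x₁)) ≤ 2 * Real.pi) :=
  H261WS.frozen

end Pool.Agent.S13768
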