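import Pool.Statements.S13772

set_option autoImplicit false
open Pool Pool.MP_b1ea19_gt

namespace Pool.Agent.S13772

open Set Topology Filter

/-- the graph map of the topologist's sine curve -/
noncomputable def g (x : ℝ) : ℝ × ℝ := (x, Real.sin (1 / x))

/-- the closed topologist's sine curve -/
def S : Set (ℝ × ℝ) := closure (g '' Ioc 0 1)

theorem g_cont : ContinuousOn g (Ioi 0) := by
  unfold g
  refine continuousOn_id.prodMk ?_
  refine Real.continuous_sin.comp_continuousOn ?_
  refine continuousOn_const.div continuousOn_id ?_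
  intro x hx
  exact ne_of_gt hx

theorem g_bound (x : ℝ) (hx : x ∈ Ioc (0 : ℝ) 1) : g x ∈ Icc (0 : ℝ) 1 ×ˢ Icc (-1 : ℝ) 1 := by
  refine ⟨⟨hx.1.le, hx.2⟩, ?_⟩
  exact ⟨Real.neg_one_le_sin _, Real.sin_le_one _⟩

theorem S_sub : S ⊆ Icc (0 : ℝ) 1 ×ˢ Icc (-1 : ℝ) 1 := by
  apply closure_minimal
  · rintro _ ⟨x, hx, rfl⟩
    exact g_bound x hx
  · exact isClosed_Icc.prod isClosed_Icc

theorem S_compact : IsCompact S :=
  (isCompact_Icc.prod isCompact_Icc).of_isClosed_subset isClosed_closure S_sub

theorem S_conn : IsConnected S := by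
  apply IsConnected.closure
  refine (isConnected_Ioc (by norm_num)).image _ (g_cont.mono ?_)
  intro x hx
  exact hx.1

theorem S_pos {p : ℝ × ℝ} (hp : p ∈ S) (h0 : 0 < p.1) : p = g p.1 := by
  have hopen : IsOpen {q : ℝ × ℝ | p.1 / 2 < q.1} := isOpen_lt continuous_const continuous_fst
  have h1 : p ∈ closure (g '' Icc (p.1 / 2) 1) := by
    have h2 := hopen.inter_closure (t := g '' Ioc 0 1) ⟨(by show p.1 / 2 < p.1; linarith), hp⟩
    refine closure_mono ?_ h2
    rintro _ ⟨hq, x, hx, rfl⟩
    exact ⟨x, ⟨le_of_lt hq, hx.2⟩, rfl⟩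
  have h3 : IsClosed (g '' Icc (p.1 / 2) 1) := by
    refine (isCompact_Icc.image_of_continuousOn (g_cont.mono ?_)).isClosed
    intro x hx
    exact lt_of_lt_of_le (by linarith : (0 : ℝ) < p.1 / 2) hx.1
  rw [h3.closure_eq] at h1
  obtain ⟨x, _, hx⟩ := h1
  have : p.1 = x := by rw [← hx]; rfl
  rw [this, hx]

theorem S_zero {p : ℝ × ℝ} (hp : p ∈ S) {b : ℝ} (hb : p.1 < b) : p ∈ closure (g '' Ioo 0 b) := by
  have hopen : IsOpen {q : ℝ × ℝ | q.1 < b} := isOpen_lt continuous_fst continuous_const
  have h2 := hopen.inter_closure (t := g '' Ioc 0 1) ⟨hb, hp⟩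
  refine closure_mono ?_ h2
  rintro _ ⟨hq, x, hx, rfl⟩
  exact ⟨x, ⟨hx.1, hq⟩, rfl⟩

theorem S_nonneg {p : ℝ × ℝ} (hp : p ∈ S) : 0 ≤ p.1 := (S_sub hp).1.1

abbrev X := S

noncomputable def px (p : X) : ℝ := p.1.1
noncomputable def py (p : X) : ℝ := p.1.2

theorem px_cont : Continuous px := continuous_fst.comp continuous_subtype_val
theorem py_cont : Continuous py := continuous_snd.comp continuous_subtype_val

theorem px_nonneg (p : X) : 0 ≤ px p := S_nonneg p.2

theorem eq_of_px {p q : X} (h : px p = px q) (h0 : 0 < px p) : p = q := by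
  apply Subtype.ext
  have h1 := S_pos p.2 h0
  have h2 := S_pos q.2 (by rw [← show px q = q.1.1 from rfl, ← h]; exact h0)
  rw [h1, h2]
  show g (px p) = g (px q)
  rw [h]

theorem precon_iff (R : Set X) : IsPreconnected R ↔ IsPreconnected (Subtype.val '' R) :=
  (IsInducing.subtypeVal.isPreconnected_image).symm

theorem g_precon {a b : ℝ} (ha : 0 ≤ a) : IsPreconnected (g '' Ioo a b) := by
  refine isPreconnected_Ioo.image _ (g_cont.mono ?_)
  intro x hx
  exact lt_of_le_of_lt ha hx.1

/-- description of the open part of a subcontinuum -/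
theorem part_eq {C : Set X} (hC : IsPreconnected C) {a b : ℝ} (ha : 0 ≤ a)
    (haC : ∃ p ∈ C, px p ≤ a) (hbC : ∃ p ∈ C, b ≤ px p) :
    Subtype.val '' {p : X | p ∈ C ∧ a < px p ∧ px p < b} = g '' Ioo a b := by
  ext q
  constructor
  · rintro ⟨p, ⟨_, h1, h2⟩, rfl⟩
    exact ⟨px p, ⟨h1, h2⟩, (S_pos p.2 (lt_of_le_of_lt ha h1)).symm⟩
  · rintro ⟨x, hx, rfl⟩
    have hoc : (px '' C).OrdConnected := (hC.image _ px_cont.continuousOn).ordConnected
    obtain ⟨p1, hp1, h1⟩ := haC
    obtain ⟨p2, hp2, h2⟩ := hbC
    have : x ∈ px '' C := hoc.out (mem_image_of_mem _ hp1) (mem_image_of_mem _ hp2)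
      ⟨h1.trans hx.1.le, hx.2.le.trans h2⟩
    obtain ⟨p, hp, hpx⟩ := this
    refine ⟨p, ⟨hp, ?_, ?_⟩, ?_⟩
    · rw [hpx]; exact hx.1
    · rw [hpx]; exact hx.2
    · have := S_pos p.2 (show 0 < px p by rw [hpx]; exact lt_of_le_of_lt ha hx.1)
      rw [this]
      show g (px p) = g x
      rw [hpx]

/-- the local separating points, as in the statement -/
def L (C : Set X) : Set X := {p : X | p ∈ C ∧ ∃ V : Set X, IsOpen V ∧ p ∈ V ∧
          ¬ IsPreconnected (connectedComponentIn (V ∩ C) p \ {p})}

theorem hyp (C : Set X) (hCc : IsCompact C) (hC : IsConnected C) : IsPreconnected (L C) := by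
  obtain ⟨pa, hpa, ha⟩ := hCc.exists_isMinOn hC.nonempty px_cont.continuousOn
  obtain ⟨pb, hpb, hb⟩ := hCc.exists_isMaxOn hC.nonempty px_cont.continuousOn
  have ha' : ∀ p ∈ C, px pa ≤ px p := fun p hp => ha hp
  have hb' : ∀ p ∈ C, px p ≤ px pb := fun p hp => hb hp
  have hsub : L C ⊆ C := fun p hp => hp.1
  rcases (px_nonneg pb).eq_or_lt with h0 | h0
  · -- vertical segment
    have hx0 : ∀ p ∈ C, px p = 0 := fun p hp =>
      le_antisymm ((hb' p hp).trans h0.symm.le) (px_nonneg p)
    obtain ⟨pc, hpc, hc⟩ := hCc.exists_isMinOn hC.nonempty py_cont.continuousOn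
    obtain ⟨pd, hpd, hd⟩ := hCc.exists_isMaxOn hC.nonempty py_cont.continuousOn
    have hc' : ∀ p ∈ C, py pc ≤ py p := fun p hp => hc hp
    have hd' : ∀ p ∈ C, py p ≤ py pd := fun p hp => hd hp
    have hinj : ∀ p ∈ C, ∀ q ∈ C, py p = py q → p = q := by
      intro p hp q hq h
      apply Subtype.ext
      apply Prod.ext
      · show px p = px q
        rw [hx0 p hp, hx0 q hq]
      · exact h
    rcases (hc' pd hpd).eq_or_lt with hcd | hcd
    · apply Set.Subsingleton.isPreconnected
      intro p hp q hq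
      apply hinj p (hsub hp) q (hsub hq)
      have h1 := hc' p (hsub hp)
      have h2 := hd' p (hsub hp)
      have h3 := hc' q (hsub hq)
      have h4 := hd' q (hsub hq)
      linarith
    · have hoc : (py '' C).OrdConnected :=
        (hC.isPreconnected.image _ py_cont.continuousOn).ordConnected
      set R : Set X := {p : X | p ∈ C ∧ py pc < py p ∧ py p < py pd} with hR
      have hRval : Subtype.val '' R = ({0} : Set ℝ) ×ˢ Ioo (py pc) (py pd) := by
        ext q
        constructor
        · rintro ⟨p, ⟨h1, h2, h3⟩, rfl⟩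
          exact ⟨hx0 p h1, h2, h3⟩
        · rintro ⟨h1, h2⟩
          have : q.2 ∈ py '' C := hoc.out (mem_image_of_mem _ hpc) (mem_image_of_mem _ hpd)
            ⟨h2.1.le, h2.2.le⟩
          obtain ⟨p, hp, hpq⟩ := this
          refine ⟨p, ⟨hp, by rw [hpq]; exact h2.1, by rw [hpq]; exact h2.2⟩, ?_⟩
          apply Prod.ext
          · show px p = q.1
            rw [hx0 p hp, show q.1 = 0 from h1]
          · exact hpq
      have hRpre : IsPreconnected R := by
        rw [precon_iff, hRval]
        exact isPreconnected_singleton.prod isPreconnected_Ioo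
      refine hRpre.subset_closure ?_ ?_
      · intro p hp
        refine ⟨hp.1, univ, isOpen_univ, mem_univ _, ?_⟩
        rw [univ_inter, hC.isPreconnected.connectedComponentIn hp.1]
        intro hcon
        have hoc2 : (py '' (C \ {p})).OrdConnected :=
          (hcon.image _ py_cont.continuousOn).ordConnected
        have h1 : pc ∈ C \ {p} := ⟨hpc, fun h => by
          have := hp.2.1; rw [show pc = p from h] at this; exact lt_irrefl _ this⟩
        have h2 : pd ∈ C \ {p} := ⟨hpd, fun h => by
          have := hp.2.2; rw [show pd = p from h] at this; exact lt_irrefl _ this⟩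
        obtain ⟨q, hq, hqp⟩ := hoc2.out (mem_image_of_mem _ h1) (mem_image_of_mem _ h2)
          ⟨hp.2.1.le, hp.2.2.le⟩
        exact hq.2 (hinj q hq.1 p hp.1 hqp)
      · intro p hp
        rw [closure_subtype, hRval, closure_prod_eq, closure_singleton, closure_Ioo hcd.ne]
        exact ⟨hx0 p (hsub hp), hc' p (hsub hp), hd' p (hsub hp)⟩
  · rcases (ha' pb hpb).eq_or_lt with hab | hab
    · apply Set.Subsingleton.isPreconnected
      intro p hp q hq
      have h1 := ha' p (hsub hp)
      have h2 := hb' p (hsub hp)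
      have h3 := ha' q (hsub hq)
      have h4 := hb' q (hsub hq)
      exact eq_of_px (by linarith) (by linarith)
    · set R : Set X := {p : X | p ∈ C ∧ px pa < px p ∧ px p < px pb} with hR
      have hRval : Subtype.val '' R = g '' Ioo (px pa) (px pb) :=
        part_eq hC.isPreconnected (px_nonneg pa) ⟨pa, hpa, le_rfl⟩ ⟨pb, hpb, le_rfl⟩
      have hRpre : IsPreconnected R := by
        rw [precon_iff, hRval]
        exact g_precon (px_nonneg pa)
      refine hRpre.subset_closure ?_ ?_
      · intro p hp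
        have hp0 : 0 < px p := lt_of_le_of_lt (px_nonneg pa) hp.2.1
        refine ⟨hp.1, {q : X | px p / 2 < px q}, isOpen_lt continuous_const px_cont,
          (by show px p / 2 < px p; linarith), ?_⟩
        intro hcon
        set e := max (px pa) (px p / 2) with he
        have hep : e < px p := max_lt hp.2.1 (by linarith)
        have he0 : 0 ≤ e := (px_nonneg pa).trans (le_max_left _ _)
        set R' : Set X := {q : X | q ∈ C ∧ e < px q ∧ px q < px pb} with hR'
        have hR'val : Subtype.val '' R' = g '' Ioo e (px pb) :=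
          part_eq hC.isPreconnected he0 ⟨pa, hpa, le_max_left _ _⟩ ⟨pb, hpb, le_rfl⟩
        have hR'pre : IsPreconnected R' := by
          rw [precon_iff, hR'val]
          exact g_precon he0
        have hsubK : R' ⊆ connectedComponentIn ({q : X | px p / 2 < px q} ∩ C) p := by
          apply hR'pre.subset_connectedComponentIn
          · exact ⟨hp.1, hep, hp.2.2⟩
          · intro q hq
            exact ⟨lt_of_le_of_lt (le_max_right _ _) hq.2.1, hq.1⟩
        have hoc2 := (hcon.image _ px_cont.continuousOn).ordConnected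
        have hget : ∀ x, e < x → x < px pb → x ≠ px p →
            x ∈ px '' (connectedComponentIn ({q : X | px p / 2 < px q} ∩ C) p \ {p}) := by
          intro x hx1 hx2 hx3
          have : g x ∈ Subtype.val '' R' := by rw [hR'val]; exact ⟨x, ⟨hx1, hx2⟩, rfl⟩
          obtain ⟨q, hq, hqx⟩ := this
          have hqx' : px q = x := by
            show q.1.1 = x
            rw [hqx]; rfl
          refine ⟨q, ⟨hsubK hq, ?_⟩, hqx'⟩
          intro h
          rw [show q = p from h] at hqx'
          exact hx3 hqx'.symm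
        have h1 := hget ((e + px p) / 2) (by linarith) (by linarith [hp.2.2]) (by linarith)
        have h2 := hget ((px p + px pb) / 2) (by linarith [hp.2.2]) (by linarith [hp.2.2])
          (by linarith [hp.2.2])
        obtain ⟨q, hq, hqp⟩ := hoc2.out h1 h2
          (show px p ∈ Icc ((e + px p) / 2) ((px p + px pb) / 2) from
            ⟨by linarith, by linarith [hp.2.2]⟩)
        exact hq.2 (eq_of_px hqp.symm hp0).symm
      · intro p hp
        rw [closure_subtype, hRval]
        have hpC := hsub hp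
        have h1 := ha' p hpC
        have h2 := hb' p hpC
        rcases (px_nonneg p).eq_or_lt with hp0 | hp0
        · have hpa0 : px pa = 0 := le_antisymm (h1.trans hp0.symm.le) (px_nonneg pa)
          rw [hpa0]
          exact S_zero p.2 (show px p < px pb by rw [← hp0]; exact h0)
        · have hpg : (p : ℝ × ℝ) = g (px p) := S_pos p.2 hp0
          rw [hpg]
          have hcl : px p ∈ closure (Ioo (px pa) (px pb)) := by
            rw [closure_Ioo hab.ne]; exact ⟨h1, h2⟩
          have hcw : ContinuousWithinAt g (Ioo (px pa) (px pb)) (px p) :=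
            (g_cont.continuousAt (Ioi_mem_nhds hp0)).continuousWithinAt
          exact hcw.mem_closure_image hcl

theorem S_zero_mem : ∃ p : X, px p = 0 := by
  have h : Tendsto (fun n : ℕ => ((1 : ℝ) / ((n : ℝ) + 1))) atTop (𝓝 0) :=
    tendsto_one_div_add_atTop_nhds_zero_nat
  have hmem : ∀ n : ℕ, g (1 / ((n : ℝ) + 1)) ∈ S := by
    intro n
    apply subset_closure
    refine ⟨_, ⟨by positivity, ?_⟩, rfl⟩
    rw [div_le_one (by positivity)]
    have : (0 : ℝ) ≤ n := Nat.cast_nonneg n
    linarith
  obtain ⟨q, hq, φ, hφ, hlim⟩ := S_compact.tendsto_subseq hmem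
  refine ⟨⟨q, hq⟩, ?_⟩
  have h1 : Tendsto (fun n => (g (1 / ((φ n : ℝ) + 1))).1) atTop (𝓝 q.1) :=
    (continuous_fst.tendsto _).comp hlim
  have h2 : Tendsto (fun n => (g (1 / ((φ n : ℝ) + 1))).1) atTop (𝓝 0) :=
    h.comp hφ.tendsto_atTop
  exact tendsto_nhds_unique h1 h2

theorem no_path (F : ℝ → X) (hF : Continuous F) (h0 : ∃ t, px (F t) = 0) (h1 : ∃ t, px (F t) ≠ 0) :
    False := by
  set Z : Set ℝ := {t | px (F t) = 0} with hZ
  have hpF : Continuous fun t => px (F t) := px_cont.comp hF
  have hqF : Continuous fun t => py (F t) := py_cont.comp hF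
  have hcl : IsClosed Z := isClosed_eq hpF continuous_const
  have hop : IsOpen Z := by
    rw [Metric.isOpen_iff]
    intro t0 ht0
    have hc := hqF.continuousAt (x := t0)
    rw [Metric.continuousAt_iff] at hc
    obtain ⟨δ, hδ, hd⟩ := hc (1 / 2) (by norm_num)
    refine ⟨δ, hδ, ?_⟩
    intro t1 ht1
    by_contra hne
    have hpos : 0 < px (F t1) := lt_of_le_of_ne (px_nonneg _) (Ne.symm hne)
    have hpre : IsPreconnected (Metric.ball t0 δ) := (convex_ball t0 δ).isPreconnected
    have hoc := (hpre.image _ hpF.continuousOn).ordConnected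
    have hget : ∀ x, 0 < x → x < px (F t1) → ∃ t ∈ Metric.ball t0 δ, px (F t) = x := by
      intro x hx1 hx2
      exact hoc.out (mem_image_of_mem _ (Metric.mem_ball_self hδ)) (mem_image_of_mem _ ht1)
        ⟨by show px (F t0) ≤ x; rw [show px (F t0) = 0 from ht0]; exact hx1.le, hx2.le⟩
    have hval : ∀ x, 0 < x → x < px (F t1) →
        |Real.sin (1 / x) - py (F t0)| < 1 / 2 := by
      intro x hx1 hx2
      obtain ⟨t, ht, htx⟩ := hget x hx1 hx2
      have h3 := hd (Metric.mem_ball.1 ht)
      rw [Real.dist_eq] at h3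
      have h4 : py (F t) = Real.sin (1 / x) := by
        have := S_pos (F t).2 (show 0 < px (F t) by rw [htx]; exact hx1)
        show (F t).1.2 = _
        rw [this]
        show Real.sin (1 / (px (F t))) = _
        rw [htx]
      rw [← h4]; exact h3
    obtain ⟨n, hn⟩ := exists_nat_gt (1 / px (F t1))
    have hnpos : (0 : ℝ) < n := lt_trans (by positivity) hn
    have hpi := Real.pi_gt_three
    have hlt : ∀ c : ℝ, 0 < c → 0 < 1 / (c + n * (2 * Real.pi)) ∧
        1 / (c + n * (2 * Real.pi)) < px (F t1) := by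
      intro c hc0
      have hden : (n : ℝ) < c + n * (2 * Real.pi) := by nlinarith
      refine ⟨by positivity, ?_⟩
      rw [div_lt_iff₀ (by positivity)]
      rw [div_lt_iff₀ hpos] at hn
      nlinarith
    have hA := hval _ (hlt (Real.pi / 2) (by positivity)).1 (hlt (Real.pi / 2) (by positivity)).2
    have hB := hval _ (hlt (Real.pi / 2 + Real.pi) (by positivity)).1
      (hlt (Real.pi / 2 + Real.pi) (by positivity)).2
    rw [one_div_one_div, Real.sin_add_nat_mul_two_pi, Real.sin_pi_div_two] at hA
    rw [one_div_one_div, Real.sin_add_nat_mul_two_pi, Real.sin_add_pi, Real.sin_pi_div_two] at hB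
    rw [abs_lt] at hA hB
    linarith [hA.1, hA.2, hB.1, hB.2]
  have huniv : Z = univ := by
    rcases isClopen_iff.1 ⟨hcl, hop⟩ with h | h
    · obtain ⟨t, ht⟩ := h0
      rw [h] at hZ
      exact absurd (show t ∈ Z from ht) (by rw [h]; exact notMem_empty _)
    · exact h
  obtain ⟨t, ht⟩ := h1
  exact ht (show t ∈ Z by rw [huniv]; exact mem_univ _)

/-- The negation of the preceding statement: If X is a continuum in which every subcontinuum C has a connected set of local separating points, then any two distinct points of any connected subset of X are joined by an arc lying inside that subset. -/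
theorem result :
    ¬ (∀ (X : Type) [MetricSpace X] [CompactSpace X] [ConnectedSpace X],
      (∀ C : Set X, IsCompact C → IsConnected C →
        IsPreconnected {p : X | p ∈ C ∧ ∃ V : Set X, IsOpen V ∧ p ∈ V ∧
          ¬ IsPreconnected (connectedComponentIn (V ∩ C) p \ {p})}) →
      ∀ A : Set X, IsConnected A → ∀ x ∈ A, ∀ y ∈ A, x ≠ y →
        ∃ f : unitInterval → X, Continuous f ∧ Function.Injective f ∧
          f 0 = x ∧ f 1 = y ∧ Set.range f ⊆ A) := by
  intro h
  haveI : CompactSpace X := isCompact_iff_compactSpace.1 S_compact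
  haveI : ConnectedSpace X := isConnected_iff_connectedSpace.1 S_conn
  obtain ⟨p, hp⟩ := S_zero_mem
  have hq : g 1 ∈ S := subset_closure ⟨1, ⟨by norm_num, le_rfl⟩, rfl⟩
  have hpq : p ≠ (⟨g 1, hq⟩ : X) := by
    intro h1
    rw [h1] at hp
    have : (1 : ℝ) = 0 := hp
    norm_num at this
  obtain ⟨f, hf, _, hf0, hf1, _⟩ := h X hyp univ isConnected_univ p (mem_univ _) ⟨g 1, hq⟩
    (mem_univ _) hpq
  refine no_path (fun t => f (projIcc 0 1 zero_le_one t)) (hf.comp continuous_projIcc) ⟨0, ?_⟩
    ⟨1, ?_⟩
  · show px (f (projIcc 0 1 zero_le_one 0)) = 0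
    rw [projIcc_left]
    exact (congrArg px hf0).trans hp
  · show px (f (projIcc 0 1 zero_le_one 1)) ≠ 0
    rw [projIcc_right]
    have : px (f 1) = 1 := congrArg px hf1
    rw [show (⟨1, right_mem_Icc.2 zero_le_one⟩ : unitInterval) = 1 from rfl, this]
    norm_num

end Pool.Agent.S13772
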