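import Pool.Statements.S13788
import Pool.Agent.H26R3.MartinLower
import Pool.Agent.H26R3.MartinCover

set_option autoImplicit false
open Matrix
open Pool Pool.MP_b3e290_gt

namespace Pool.Agent.S13788

/-- The negation of the preceding statement: In the hyperboloid model of H³, every discrete subgroup of SO⁺(3,1) has quotient diameter at least that of H³ modulo the group generated by the even part of the 3‑5‑3 tetrahedral reflection group and its diagram symmetry. -/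
theorem result :
    ¬ (∀ e : Fin 4 → (Fin 4 → ℝ),
    (∀ i, e i ⬝ᵥ (Matrix.diagonal ![(-1 : ℝ), 1, 1, 1] *ᵥ e i) = 1) →
    e 0 ⬝ᵥ (Matrix.diagonal ![(-1 : ℝ), 1, 1, 1] *ᵥ e 1) = -(1 / 2) →
    e 1 ⬝ᵥ (Matrix.diagonal ![(-1 : ℝ), 1, 1, 1] *ᵥ e 2) = -Real.cos (Real.pi / 5) →
    e 2 ⬝ᵥ (Matrix.diagonal ![(-1 : ℝ), 1, 1, 1] *ᵥ e 3) = -(1 / 2) →
    e 0 ⬝ᵥ (Matrix.diagonal ![(-1 : ℝ), 1, 1, 1] *ᵥ e 2) = 0 →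
    e 0 ⬝ᵥ (Matrix.diagonal ![(-1 : ℝ), 1, 1, 1] *ᵥ e 3) = 0 →
    e 1 ⬝ᵥ (Matrix.diagonal ![(-1 : ℝ), 1, 1, 1] *ᵥ e 3) = 0 →
  ∀ t : Matrix (Fin 4) (Fin 4) ℝ,
    t *ᵥ e 0 = e 3 → t *ᵥ e 1 = e 2 → t *ᵥ e 2 = e 1 → t *ᵥ e 3 = e 0 →
  ∀ Γ : Subgroup (Matrix.GeneralLinearGroup (Fin 4) ℝ),
    (∀ g ∈ Γ,
      (g : Matrix (Fin 4) (Fin 4) ℝ)ᵀ * Matrix.diagonal ![(-1 : ℝ), 1, 1, 1]
          * (g : Matrix (Fin 4) (Fin 4) ℝ) = Matrix.diagonal ![(-1 : ℝ), 1, 1, 1] ∧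
      (g : Matrix (Fin 4) (Fin 4) ℝ).det = 1 ∧
      0 < (g : Matrix (Fin 4) (Fin 4) ℝ) 0 0) →
    DiscreteTopology
      ((fun g : Matrix.GeneralLinearGroup (Fin 4) ℝ => (g : Matrix (Fin 4) (Fin 4) ℝ)) ''
        (Γ : Set (Matrix.GeneralLinearGroup (Fin 4) ℝ))) →
  ∀ c : ℝ, ∀ x₀ y₀ : Fin 4 → ℝ,
    x₀ ⬝ᵥ (Matrix.diagonal ![(-1 : ℝ), 1, 1, 1] *ᵥ x₀) = -1 → 0 < x₀ 0 →
    y₀ ⬝ᵥ (Matrix.diagonal ![(-1 : ℝ), 1, 1, 1] *ᵥ y₀) = -1 → 0 < y₀ 0 →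
    (∀ g ∈ Submonoid.closure
        {m : Matrix (Fin 4) (Fin 4) ℝ |
          (∃ i j : Fin 4,
            m = ((1 : Matrix (Fin 4) (Fin 4) ℝ) - (2 : ℝ) • Matrix.vecMulVec (e i)
                    (Matrix.diagonal ![(-1 : ℝ), 1, 1, 1] *ᵥ e i)) *
                ((1 : Matrix (Fin 4) (Fin 4) ℝ) - (2 : ℝ) • Matrix.vecMulVec (e j)
                    (Matrix.diagonal ![(-1 : ℝ), 1, 1, 1] *ᵥ e j))) ∨ m = t},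
      c ≤ -(x₀ ⬝ᵥ (Matrix.diagonal ![(-1 : ℝ), 1, 1, 1] *ᵥ (g *ᵥ y₀)))) →
    ∀ c' : ℝ, c' < c →
      ∃ x y : Fin 4 → ℝ,
        x ⬝ᵥ (Matrix.diagonal ![(-1 : ℝ), 1, 1, 1] *ᵥ x) = -1 ∧ 0 < x 0 ∧
        y ⬝ᵥ (Matrix.diagonal ![(-1 : ℝ), 1, 1, 1] *ᵥ y) = -1 ∧ 0 < y 0 ∧
        ∀ g ∈ Γ, c' ≤ -(x ⬝ᵥ (Matrix.diagonal ![(-1 : ℝ), 1, 1, 1] *ᵥ
                    ((g : Matrix (Fin 4) (Fin 4) ℝ) *ᵥ y)))) := by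
  intro H
  have hJ : ∀ x y : Fin 4 → ℝ, x ⬝ᵥ (Matrix.diagonal ![(-1 : ℝ), 1, 1, 1] *ᵥ y)
      = Pool.Agent.H26R3.LB x y := fun _ _ => rfl
  have h := H Pool.Agent.H26R3.ee Pool.Agent.H26R3.eeii Pool.Agent.H26R3.ee01
    (by
      rw [hJ, Pool.Agent.H26R3.ee12, Real.cos_pi_div_five]
      unfold Pool.Agent.H26R3.gf
      ring)
    Pool.Agent.H26R3.ee23 Pool.Agent.H26R3.ee02 Pool.Agent.H26R3.ee03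
    Pool.Agent.H26R3.ee13 Pool.Agent.H26R3.tm Pool.Agent.H26R3.tm_e0
    Pool.Agent.H26R3.tm_e1 Pool.Agent.H26R3.tm_e2 Pool.Agent.H26R3.tm_e3
    Pool.Agent.H26R3.Gam
    (fun g hg => ⟨Pool.Agent.H26R3.Gam_JJ hg, Pool.Agent.H26R3.Gam_det hg,
      Pool.Agent.H26R3.Gam_pos hg⟩)
    Pool.Agent.H26R3.Gam_discrete 1.4285 Pool.Agent.H26R3.X0 Pool.Agent.H26R3.Y0
    Pool.Agent.H26R3.X0X0 Pool.Agent.H26R3.X0_pos Pool.Agent.H26R3.Y0Y0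
    Pool.Agent.H26R3.Y0_pos (fun g hg => Pool.Agent.H26R3.lower_bound hg) 1.4284
    (by norm_num)
  obtain ⟨x, y, hx, hx0, hy, hy0, hall⟩ := h
  obtain ⟨g, hg, hlt⟩ := Pool.Agent.H26R3.diam_bound hx hx0 hy hy0
  have := hall g hg
  rw [hJ] at this
  linarith

end Pool.Agent.S13788
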