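import Pool.Statements.S13885

set_option autoImplicit false
open Pool Pool.MP_c36963_gt

namespace Pool.Agent.S13885

/-- There exists r : ℂ → ℂ mapping the closed unit disk into the unit circle, fixing the circle, with connected fibers in the disk, such that only finitely many circle points y fail: for all circle sequences s_n → y, every point of the Kuratowski lim sup of the fibers r⁻¹(s_n) lies in r⁻¹(y). -/
theorem result :
    ∃ r : ℂ → ℂ,
      (∀ z ∈ Metric.closedBall (0:ℂ) 1, r z ∈ Metric.sphere (0:ℂ) 1) ∧
      (∀ y ∈ Metric.sphere (0:ℂ) 1, r y = y) ∧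
      (∀ y ∈ Metric.sphere (0:ℂ) 1,
        IsConnected {z : ℂ | z ∈ Metric.closedBall (0:ℂ) 1 ∧ r z = y}) ∧
      Set.Finite {y : ℂ | y ∈ Metric.sphere (0:ℂ) 1 ∧
        ¬ (∀ s : ℕ → ℂ, (∀ n, s n ∈ Metric.sphere (0:ℂ) 1) →
            Filter.Tendsto s Filter.atTop (nhds y) →
            ∀ x : ℂ, (∀ ε : ℝ, ε > 0 → ∀ N : ℕ, ∃ n : ℕ, n ≥ N ∧
                ∃ z : ℂ, z ∈ Metric.closedBall (0:ℂ) 1 ∧ r z = s n ∧ dist z x < ε) →
              r x = y)} := by
  classical
  have h1 : (1 : ℂ) ∈ Metric.sphere (0 : ℂ) 1 := by simp
  refine ⟨fun z => if z ∈ Metric.sphere (0 : ℂ) 1 then z else 1, ?_, ?_, ?_, ?_⟩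
  · intro z _
    by_cases hz : z ∈ Metric.sphere (0 : ℂ) 1
    · simp only [if_pos hz]; exact hz
    · simp only [if_neg hz]; exact h1
  · intro y hy
    simp only [if_pos hy]
  · intro y hy
    by_cases hy1 : y = 1
    · subst hy1
      have hset : {z : ℂ | z ∈ Metric.closedBall (0:ℂ) 1 ∧
          (if z ∈ Metric.sphere (0 : ℂ) 1 then z else 1) = 1} = insert 1 (Metric.ball (0 : ℂ) 1) := by
        ext z
        constructor
        · rintro ⟨hz, hz1⟩
          by_cases hs : z ∈ Metric.sphere (0 : ℂ) 1
          · rw [if_pos hs] at hz1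
            exact Or.inl hz1
          · right
            rw [Metric.mem_closedBall] at hz
            rw [Metric.mem_sphere] at hs
            exact Metric.mem_ball.mpr (lt_of_le_of_ne hz hs)
        · rintro (rfl | hz)
          · exact ⟨Metric.sphere_subset_closedBall h1, by rw [if_pos h1]⟩
          · refine ⟨Metric.ball_subset_closedBall hz, ?_⟩
            rw [if_neg]
            intro hs
            rw [Metric.mem_sphere] at hs
            rw [Metric.mem_ball] at hz
            linarith
      rw [hset]
      refine (Metric.isConnected_ball (x := (0 : ℂ)) one_pos).subset_closure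
        (Set.subset_insert _ _) ?_
      intro z hz
      rw [closure_ball (0 : ℂ) one_ne_zero]
      rcases hz with rfl | hz
      · exact Metric.sphere_subset_closedBall h1
      · exact Metric.ball_subset_closedBall hz
    · have hset : {z : ℂ | z ∈ Metric.closedBall (0:ℂ) 1 ∧
          (if z ∈ Metric.sphere (0 : ℂ) 1 then z else 1) = y} = {y} := by
        ext z
        constructor
        · rintro ⟨_, hz1⟩
          by_cases hs : z ∈ Metric.sphere (0 : ℂ) 1
          · rw [if_pos hs] at hz1
            exact hz1
          · rw [if_neg hs] at hz1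
            exact absurd hz1.symm hy1
        · rintro rfl
          exact ⟨Metric.sphere_subset_closedBall hy, by rw [if_pos hy]⟩
      rw [hset]
      exact isConnected_singleton
  · refine (Set.finite_singleton (1 : ℂ)).subset ?_
    rintro y ⟨hy, hbad⟩
    by_contra hy1
    apply hbad
    intro s hs hlim x hx
    have hne : ∀ᶠ n in Filter.atTop, s n ≠ 1 := hlim.eventually_ne hy1
    obtain ⟨N0, hN0⟩ := Filter.eventually_atTop.mp hne
    have hxy : x = y := by
      by_contra hxy
      have hpos : 0 < dist y x := dist_pos.mpr (Ne.symm hxy)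
      obtain ⟨N1, hN1⟩ := Metric.tendsto_atTop.mp hlim (dist y x / 2) (by linarith)
      obtain ⟨n, hn, z, _, hz2, hz3⟩ := hx (dist y x / 2) (by linarith) (max N0 N1)
      have hn0 := hN0 n (le_trans (le_max_left _ _) hn)
      have hn1 := hN1 n (le_trans (le_max_right _ _) hn)
      have hzs : z = s n := by
        by_cases hsz : z ∈ Metric.sphere (0 : ℂ) 1
        · simpa only [if_pos hsz] using hz2
        · simp only [if_neg hsz] at hz2
          exact absurd hz2.symm hn0
      rw [hzs] at hz3
      have h4 := dist_triangle_left y x (s n)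
      linarith
    rw [hxy]
    simp only [if_pos hy]

end Pool.Agent.S13885
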