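import Pool.Statements.S13913
import Pool.Agent.H262.LS6

set_option autoImplicit false
open Pool Pool.MP_c6464f_gt

namespace Pool.Agent.S13913

/-- Let L be a Tychonoff, Lindelöf, scattered space and K a compact subset of C_p(L). Then every subspace Y of C_p(K) is weakly θ-refinable: each open cover has an open refinement split into countably many families, with each point in some family lying in at least one but only finitely many members. -/
theorem result :
  ∀ (L : Type) [TopologicalSpace L] [T35Space L] [LindelofSpace L],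
    (∀ S : Set L, S.Nonempty → ∃ x ∈ S, ∃ U : Set L, IsOpen U ∧ U ∩ S = {x}) →
    ∀ K : Set {f : L → ℝ // Continuous f}, IsCompact K →
    ∀ Y : Set {g : K → ℝ // Continuous g},
    ∀ 𝒰 : Set (Set Y), (∀ U ∈ 𝒰, IsOpen U) → ⋃₀ 𝒰 = Set.univ →
    ∃ 𝒢 : ℕ → Set (Set Y), (∀ n, ∀ G ∈ 𝒢 n, IsOpen G ∧ ∃ U ∈ 𝒰, G ⊆ U) ∧
      ∀ y : Y, ∃ n, (∃ G ∈ 𝒢 n, y ∈ G) ∧ {G ∈ 𝒢 n | y ∈ G}.Finite := by
  intro L _ _ _ hsc K hK Y 𝒰 hU hcov
  exact Pool.H262.LS.theta L hsc K hK Y 𝒰 hU hcov

end Pool.Agent.S13913
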