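import Pool.Statements.S13964
import Pool.Agent.H624R3.AQ.Fin

set_option autoImplicit false
open MeasureTheory
open Pool Pool.MP_ce3260_gt

namespace Pool.Agent.S13964

/-- The negation of the preceding statement: For every n ≥ 2, 0 ≤ i ≤ j ≤ n−1 and convex body K in ℝⁿ, κ_n^j Φ_i(K)^(n−j) ≤ κ_n^i Φ_j(K)^(n−i), with equality for i<j exactly when K is an ellipsoid; the Grassmannian average is computed via spans of Gaussian vectors. -/
theorem result :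
    ¬ (∀ n : ℕ, 2 ≤ n →
  ∀ κ : ℕ → ℝ, (∀ m : ℕ, κ m = (volume {x : Fin m → ℝ | ∑ t, x t ^ 2 ≤ 1}).toReal) →
  ∀ Φ : ℕ → Set (Fin n → ℝ) → ℝ,
   (∀ (i : ℕ) (K : Set (Fin n → ℝ)), Φ i K = κ n / κ (n - i) *
      (∫ A : Fin (n - i) → Fin n → ℝ,
        ((volume ((fun x : Fin n → ℝ => (Matrix.of A).mulVec x) '' K)).toReal /
            Real.sqrt ((Matrix.of A * (Matrix.of A).transpose).det)) ^ (-(n : ℝ))
        ∂(Measure.pi (fun _ : Fin (n - i) =>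
            Measure.pi (fun _ : Fin n => ProbabilityTheory.gaussianReal 0 1)))) ^ (-(1 : ℝ) / n)) →
  ∀ i j : ℕ, i ≤ j → j ≤ n - 1 →
  ∀ K : Set (Fin n → ℝ), IsCompact K → Convex ℝ K → (interior K).Nonempty →
    κ n ^ j * Φ i K ^ (n - j) ≤ κ n ^ i * Φ j K ^ (n - i) ∧
    (i < j → (κ n ^ j * Φ i K ^ (n - j) = κ n ^ i * Φ j K ^ (n - i) ↔
      ∃ M : Matrix (Fin n) (Fin n) ℝ, M.det ≠ 0 ∧ ∃ c : Fin n → ℝ,
        K = (fun x : Fin n → ℝ => M.mulVec x + c) '' {x : Fin n → ℝ | ∑ t, x t ^ 2 ≤ 1}))) := by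
  intro hall
  obtain ⟨M, hM8, hGt, hmain⟩ := Pool.Agent.H624R3.AQ.num_main
  have hpi := Real.pi_pos
  set n : ℕ := 2 * M with hn
  have hn0 : (1 : ℕ) ≤ n := by omega
  have hκpos : 0 < Real.pi ^ M / (M.factorial : ℝ) := by positivity
  have hκn : (volume {x : Fin n → ℝ | ∑ t, x t ^ 2 ≤ 1}).toReal = Real.pi ^ M / M.factorial := by
    rw [Pool.Agent.H624R3.AQ.kap_vol, hn, Pool.Agent.H624R3.AQ.kap_even M (by omega),
      ENNReal.toReal_ofReal hκpos.le]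
  have hκ8 : (volume {x : Fin 8 → ℝ | ∑ t, x t ^ 2 ≤ 1}).toReal = Real.pi ^ 4 / Nat.factorial 4 := by
    rw [Pool.Agent.H624R3.AQ.kap_vol]
    have := Pool.Agent.H624R3.AQ.kap_even 4 (by norm_num)
    have h8 : (2 * 4 : ℕ) = 8 := by norm_num
    rw [h8] at this
    rw [this, ENNReal.toReal_ofReal (by positivity)]
  have hκ1 : (volume {x : Fin 1 → ℝ | ∑ t, x t ^ 2 ≤ 1}).toReal = 2 := by
    rw [Pool.Agent.H624R3.AQ.kap_one]; rfl
  have h := hall n (by omega)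
    (fun m => (volume {x : Fin m → ℝ | ∑ t, x t ^ 2 ≤ 1}).toReal) (fun _ => rfl)
    (fun i K => (volume {x : Fin n → ℝ | ∑ t, x t ^ 2 ≤ 1}).toReal /
      (volume {x : Fin (n - i) → ℝ | ∑ t, x t ^ 2 ≤ 1}).toReal *
      (∫ A : Fin (n - i) → Fin n → ℝ, Pool.Agent.H624R3.AQ.fr (n - i) n K A
        ∂(Measure.pi (fun _ : Fin (n - i) =>
            Measure.pi (fun _ : Fin n => ProbabilityTheory.gaussianReal 0 1)))) ^ (-(1 : ℝ) / n))
    (fun i K => rfl) (n - 8) (n - 1) (by omega) le_rfl (Pool.Agent.H624R3.AQ.C n)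
    (Pool.Agent.H624R3.AQ.C_compact n) (Pool.Agent.H624R3.AQ.C_convex n)
    (Pool.Agent.H624R3.AQ.C_interior n)
  have h1 := h.1
  have f1 : n - (n - 8) = 8 := by omega
  have f2 : n - (n - 1) = 1 := by omega
  have g1 : ∀ k : ℕ, k = 8 → (volume {x : Fin k → ℝ | ∑ t, x t ^ 2 ≤ 1}).toReal =
      Real.pi ^ 4 / Nat.factorial 4 := by
    rintro k rfl; exact hκ8
  have g2 : ∀ k : ℕ, k = 1 → (volume {x : Fin k → ℝ | ∑ t, x t ^ 2 ≤ 1}).toReal = 2 := by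
    rintro k rfl; exact hκ1
  have g3 : ∀ k l : ℕ, k = l → ∫ A : Fin k → Fin n → ℝ,
      Pool.Agent.H624R3.AQ.fr k n (Pool.Agent.H624R3.AQ.C n) A
        ∂(Measure.pi (fun _ : Fin k =>
            Measure.pi (fun _ : Fin n => ProbabilityTheory.gaussianReal 0 1))) =
      (Pool.Agent.H624R3.AQ.GI l n).toReal := by
    rintro k l rfl; exact Pool.Agent.H624R3.AQ.integral_fr k n
  rw [g1 _ f1, g2 _ f2, g3 _ _ f1, g3 _ _ f2, hκn] at h1
  have hI1 : (Pool.Agent.H624R3.AQ.GI 1 n).toReal = (Real.pi ^ M / (M.factorial : ℝ))⁻¹ := by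
    rw [Pool.Agent.H624R3.AQ.GI_one n hn0, hn, Pool.Agent.H624R3.AQ.kap_ball M (by omega),
      ENNReal.toReal_inv, ENNReal.toReal_ofReal hκpos.le]
  have hI8 : 0 < (Pool.Agent.H624R3.AQ.GI 8 n).toReal :=
    ENNReal.toReal_pos (Pool.Agent.H624R3.AQ.GI_pos 8 n (by norm_num) hM8) hGt
  exact Pool.Agent.H624R3.AQ.final n hM8 _ _ _ _ hκpos (by positivity) hI8 hI1 hmain h1

end Pool.Agent.S13964
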