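import Pool.Statements.S14018
import Pool.Agent.H120R3.CaUmb

set_option autoImplicit false
open Pool Pool.MP_d5a045_gt

namespace Pool.Agent.S14018

/-- The negation of the preceding statement: Any compact smooth surface in 3-space homeomorphic to a sphere, given as a regular zero set of a smooth function, has two distinct umbilics, i.e. points where the Hessian restricted to the tangent plane is a multiple of the metric. -/
theorem result :
    ¬ (∀ F : EuclideanSpace ℝ (Fin 3) → ℝ,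
    (∀ n : ℕ, ContDiff ℝ n F) →
    IsCompact {x : EuclideanSpace ℝ (Fin 3) | F x = 0} →
    (∀ x : EuclideanSpace ℝ (Fin 3), F x = 0 → fderiv ℝ F x ≠ 0) →
    Nonempty (↥{x : EuclideanSpace ℝ (Fin 3) | F x = 0} ≃ₜ
      ↥(Metric.sphere (0 : EuclideanSpace ℝ (Fin 3)) 1)) →
    ∃ p q : EuclideanSpace ℝ (Fin 3), F p = 0 ∧ F q = 0 ∧ p ≠ q ∧
      (∃ c : ℝ, ∀ u v : EuclideanSpace ℝ (Fin 3),
        fderiv ℝ F p u = 0 → fderiv ℝ F p v = 0 →
          fderiv ℝ (fderiv ℝ F) p u v = c * inner ℝ u v) ∧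
      (∃ c : ℝ, ∀ u v : EuclideanSpace ℝ (Fin 3),
        fderiv ℝ F q u = 0 → fderiv ℝ F q v = 0 →
          fderiv ℝ (fderiv ℝ F) q u v = c * inner ℝ u v)) := by
  intro h
  obtain ⟨F, h1, h2, h3, h4, h5⟩ := Pool.Agent.H120R3.Ca.final_surface
  exact h5 (h F h1 h2 h3 h4)

end Pool.Agent.S14018
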