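import Pool.Statements.S14030
import Pool.Agent.H73W.Final

set_option autoImplicit false
open scoped Manifold
open Pool Pool.MP_d70b2d_gt

namespace Pool.Agent.S14030

/-- The negation of the preceding statement: Every compact smooth n-manifold with n>1 has a smooth totally skew embedding into R^N with N = 4n − 2·(number of 1s in binary n) + 1: distinct points have disjoint affine tangent spaces whose directions are linearly independent. -/
theorem result :
    ¬ (∀ (n : ℕ), 1 < n →
    ∀ (N : ℕ), N = 4 * n - 2 * (Nat.digits 2 n).sum + 1 →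
    ∀ (M : Type) [TopologicalSpace M] [T2Space M] [CompactSpace M]
      [ChartedSpace (EuclideanSpace ℝ (Fin n)) M]
      [IsManifold (𝓡 n) ((⊤ : ℕ∞) : WithTop ℕ∞) M],
    ∃ f : M → EuclideanSpace ℝ (Fin N),
      ContMDiff (𝓡 n) 𝓘(ℝ, EuclideanSpace ℝ (Fin N)) ((⊤ : ℕ∞) : WithTop ℕ∞) f ∧
      (∀ x y : M, x ≠ y →
        ∀ (a : TangentSpace (𝓡 n) x) (b : TangentSpace (𝓡 n) y) (t : ℝ),
          t • (f x - f y)
            + id (α := EuclideanSpace ℝ (Fin N))
                (mfderiv (𝓡 n) 𝓘(ℝ, EuclideanSpace ℝ (Fin N)) f x a)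
            = id (α := EuclideanSpace ℝ (Fin N))
                (mfderiv (𝓡 n) 𝓘(ℝ, EuclideanSpace ℝ (Fin N)) f y b) →
          t = 0 ∧ a = 0 ∧ b = 0)) := by
  intro H
  obtain ⟨f, hf, hTS⟩ := H 3 (by norm_num) 9 (by norm_num) Pool.Agent.H73W.MM
  exact Pool.Agent.H73W.no_embedding f hf hTS

end Pool.Agent.S14030
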