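import Pool.Statements.S14047
import Mathlib
import Pool.Agent.H162R3.BD.Main

set_option autoImplicit false
open Pool Pool.MP_d985ac_gt

namespace Pool.Agent.S14047

open Set Filter Topology
open Pool.Agent.Helper639.Ebl (C0 al C0.sigma)
open Pool.Agent.H162R3.BD

theorem seqCl_image {Z W : Type*} [TopologicalSpace Z] [TopologicalSpace W] {A : Set Z}
    (hA : SeqCl A) (g : Z → W) (hg : Continuous g) : SeqCl (g '' A) := by
  intro f hf
  choose s hs hsf using hf
  obtain ⟨a, ha, hcl⟩ := hA s hs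
  refine ⟨g a, ⟨a, ha, rfl⟩, fun V hV => ?_⟩
  refine (hcl _ (hg.continuousAt hV)).mono fun n hn => ?_
  rw [← hsf n]
  exact hn

theorem c0_comp {X Y : Type} [TopologicalSpace X] [TopologicalSpace Y] {Γ : Type} {v : X → Γ → ℝ}
    (h : C0 v) (g : Y → X) (hg : Continuous g) : C0 (fun y => v (g y)) :=
  ⟨fun γ => (h.cont γ).comp hg, fun _ γ => h.bd _ γ, fun _ ε hε => h.fin _ ε hε⟩

/-- For a Tychonoff space X with a dense countable union of bounded sets, every countably compact set of continuous functions in C_p(X) is compact and embeds into c_0(Γ) with the pointwise topology, i.e. is Eberlein compact. -/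
theorem result :
    ∀ (X : Type) [TopologicalSpace X] [T35Space X],
      (∃ A : ℕ → Set X,
          (∀ n, ∀ f : X → ℝ, Continuous f → ∃ C : ℝ, ∀ x ∈ A n, |f x| ≤ C) ∧
          Dense (⋃ n, A n)) →
      ∀ K : Set (X → ℝ), (∀ f ∈ K, Continuous f) →
        (∀ U : ℕ → Set (X → ℝ), (∀ n, IsOpen (U n)) → K ⊆ ⋃ n, U n →
            ∃ N : ℕ, K ⊆ ⋃ n ∈ Finset.range N, U n) →
        IsCompact K ∧
          ∃ (Γ : Type) (e : K → (Γ → ℝ)), Topology.IsEmbedding e ∧
            ∀ k : K, ∀ ε : ℝ, 0 < ε → {γ : Γ | ε ≤ |e k γ|}.Finite := by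
  intro X _ _ hX K hKc hKcov
  obtain ⟨A, hA, hdense⟩ := hX
  have hKseq : SeqCl K := seqCl_of_cover K hKcov
  let C : Type := {f : X → ℝ // Continuous f}
  let Kn : ℕ → Set (C → ℝ) := fun n => closure (ev '' A n)
  have hKn : ∀ n, CompactSpace (Kn n) := fun n =>
    isCompact_iff_compactSpace.mp (compact_ev (A n) (hA n))
  let J : Type := X ⊕ (Σ n, Kn n)
  let Θ : C → J → ℝ := fun f j => Sum.elim (fun x => f.1 x) (fun p => p.2.1 f) j
  let Kt : Set (J → ℝ) := Θ '' {f : C | f.1 ∈ K}
  -- the extended set is sequentially clustering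
  have hKt : SeqCl Kt := by
    intro f hf
    choose g hg hgf using hf
    obtain ⟨a, ha, hcl⟩ := hKseq (fun n => (g n).1) (fun n => hg n)
    let a' : C := ⟨a, hKc a ha⟩
    have hσ : ∀ j : J, ∃ x : X, (∀ n, Θ (g n) j = (g n).1 x) ∧ Θ a' j = a x := by
      rintro (x | ⟨n, y⟩)
      · exact ⟨x, fun n => rfl, rfl⟩
      · obtain ⟨x, hx⟩ := agree (A n) (hA n) y.1 y.2
          (fun k => Nat.casesOn k a' g)
        exact ⟨x, fun k => (hx (k + 1)).symm, (hx 0).symm⟩
    choose σ hσ1 hσ2 using hσ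
    have hP : Continuous (fun h : X → ℝ => h ∘ σ) :=
      continuous_pi fun j => continuous_apply (σ j)
    have hPa : a ∘ σ = Θ a' := funext fun j => (hσ2 j).symm
    refine ⟨Θ a', ⟨a', ha, rfl⟩, fun W hW => ?_⟩
    rw [← hPa] at hW
    refine (hcl _ (hP.continuousAt hW)).mono fun n hn => ?_
    have h1 : (g n).1 ∘ σ = f n := by
      rw [← hgf n]
      exact funext fun j => (hσ1 j n).symm
    rw [← h1]
    exact hn
  -- the traces on the compact sets
  let R : (n : ℕ) → (J → ℝ) → (Kn n → ℝ) := fun n h y => h (Sum.inr ⟨n, y⟩)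
  have hR : ∀ n, Continuous (R n) := fun n => continuous_pi fun y => continuous_apply _
  have hB : ∀ n, SeqCl (R n '' Kt) := fun n => seqCl_image hKt (R n) (hR n)
  have hBc : ∀ n, ∀ h ∈ R n '' Kt, Continuous h := by
    rintro n _ ⟨_, ⟨f, _, rfl⟩, rfl⟩
    exact (continuous_apply f).comp continuous_subtype_val
  let E : ℕ → Type := fun n => closure (R n '' Kt)
  have hE : ∀ n, CompactSpace (E n) := fun n =>
    isCompact_iff_compactSpace.mp (compact_closure _ (hB n))
  have hal : ∀ n, ∃ (Γ : Type) (h : E n → Γ → ℝ), C0 h ∧ Function.Injective h := by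
    intro n
    refine al (F := Kn n) (fun (e : E n) (y : Kn n) => e.1 y) (fun y => ?_) (fun e => ?_) ?_
    · exact (continuous_apply y).comp continuous_subtype_val
    · exact continuous_of_compact _ (hBc n) (hB n) e.1 e.2
    · intro e e' h
      exact Subtype.ext (funext h)
  choose Γ h hC0 hinj using hal
  let G : Type := (n : ℕ) → E n
  let H : G → (Σ n, Γ n) → ℝ := fun g p => h p.1 (g p.1) p.2 / ((p.1 : ℝ) + 1)
  have hH : C0 H := by
    have h1 : ∀ n, C0 (fun g : G => h n (g n)) := fun n => c0_comp (hC0 n) _ (continuous_apply n)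
    exact C0.sigma h1
  have hHinj : Function.Injective H := by
    intro g g' hgg
    funext n
    apply hinj n
    funext γ
    have h1 := congrFun hgg ⟨n, γ⟩
    have h2 : ((n : ℝ) + 1) ≠ 0 := by positivity
    exact (div_left_inj' h2).mp h1
  have hcG : CompactSpace G := inferInstance
  let ψ : Kt → G := fun q n => ⟨R n q.1, subset_closure ⟨q.1, q.2, rfl⟩⟩
  have hψ : Continuous ψ :=
    continuous_pi fun n => Continuous.subtype_mk ((hR n).comp continuous_subtype_val) _
  have hψi : Function.Injective ψ := by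
    rintro ⟨_, f, hf, rfl⟩ ⟨_, f', hf', rfl⟩ hff
    have h1 : f = f' := by
      apply Subtype.ext
      have hd : (⋃ n, A n) ⊆ {x | f.1 x = f'.1 x} := by
        intro x hx
        obtain ⟨n, hn⟩ := mem_iUnion.mp hx
        have h2 := congrArg Subtype.val (congrFun hff n)
        exact congrFun h2 (⟨ev x, subset_closure ⟨x, hn, rfl⟩⟩ : Kn n)
      have h3 : IsClosed {x | f.1 x = f'.1 x} := isClosed_eq f.2 f'.2
      have h4 := closure_minimal hd h3
      rw [hdense.closure_eq] at h4
      exact funext fun x => h4 (mem_univ x)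
    subst h1
    rfl
  have hQ : SeqCl (univ : Set Kt) := by
    intro f _
    obtain ⟨a, ha, hcl⟩ := hKt (fun n => (f n).1) (fun n => (f n).2)
    refine ⟨⟨a, ha⟩, mem_univ _, fun W hW => ?_⟩
    rw [nhds_subtype_eq_comap, mem_comap] at hW
    obtain ⟨V, hV, hVW⟩ := hW
    exact (hcl V hV).mono fun n hn => hVW hn
  have hcKt : CompactSpace Kt := compact_of_seqCl hH hHinj hQ ψ hψ hψi
  -- back to `X`
  let ρ : (J → ℝ) → (X → ℝ) := fun h x => h (Sum.inl x)
  have hρ : Continuous ρ := continuous_pi fun x => continuous_apply _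
  have hKimg : ρ '' Kt = K := by
    ext k
    constructor
    · rintro ⟨_, ⟨f, hf, rfl⟩, rfl⟩
      exact hf
    · intro hk
      exact ⟨Θ ⟨k, hKc k hk⟩, ⟨⟨k, hKc k hk⟩, hk, rfl⟩, rfl⟩
  have hK : IsCompact K := by
    rw [← hKimg]
    exact (isCompact_iff_compactSpace.mpr hcKt).image hρ
  refine ⟨hK, ?_⟩
  have hcK : CompactSpace K := isCompact_iff_compactSpace.mp hK
  let ρ' : Kt → K := fun q => ⟨ρ q.1, hKimg ▸ ⟨q.1, q.2, rfl⟩⟩
  have hρ' : Continuous ρ' := Continuous.subtype_mk (hρ.comp continuous_subtype_val) _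
  have hbij : Function.Bijective ρ' := by
    constructor
    · rintro ⟨_, f, hf, rfl⟩ ⟨_, f', hf', rfl⟩ hff
      have h0 := Subtype.ext_iff.mp hff
      have h1 : f = f' := Subtype.ext h0
      subst h1
      rfl
    · rintro ⟨k, hk⟩
      exact ⟨⟨Θ ⟨k, hKc k hk⟩, ⟨k, hKc k hk⟩, hk, rfl⟩, rfl⟩
  let φ : Kt ≃ₜ K := Continuous.homeoOfEquivCompactToT2 (f := Equiv.ofBijective ρ' hbij) hρ'
  let e : K → ((Σ n, Γ n) → ℝ) := fun k => H (ψ (φ.symm k))
  have he : Continuous e := (continuous_pi hH.cont).comp (hψ.comp φ.symm.continuous)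
  have hei : Function.Injective e := hHinj.comp (hψi.comp φ.symm.injective)
  exact ⟨Σ n, Γ n, e, (he.isClosedEmbedding hei).isEmbedding, fun k ε hε => hH.fin _ ε hε⟩

end Pool.Agent.S14047
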