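import Pool.Statements.S14076
import Pool.Agent.H506R3.Ret.Main

set_option autoImplicit false
open Pool Pool.MP_dc63d3_gt

namespace Pool.Agent.S14076

/-- The negation of the preceding statement: For every real Hilbert space there is a constant C such that, for each n ≥ 2, some retraction from nonempty subsets of at most n points onto those of at most n−1 points is C-Lipschitz for the Hausdorff distance. -/
theorem result :
    ¬ (∀ (H : Type) [NormedAddCommGroup H] [InnerProductSpace ℝ H] [CompleteSpace H],
      ∃ C : ℝ, ∀ n : ℕ, 2 ≤ n →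
        ∃ r : Finset H → Finset H,
          (∀ s : Finset H, s.Nonempty → s.card ≤ n →
              (r s).Nonempty ∧ (r s).card ≤ n - 1) ∧
          (∀ s : Finset H, s.Nonempty → s.card ≤ n - 1 → r s = s) ∧
          (∀ s t : Finset H, s.Nonempty → s.card ≤ n → t.Nonempty → t.card ≤ n →
              Metric.hausdorffDist ((r s : Finset H) : Set H) ((r t : Finset H) : Set H)
                ≤ C * Metric.hausdorffDist ((s : Finset H) : Set H) ((t : Finset H) : Set H))) := by
  intro h
  obtain ⟨C, hC⟩ := h ℂ
  obtain ⟨j, hj⟩ := exists_nat_gt ((|C| + 1) * (2 * Real.pi) * 4)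
  have hj0 : (0 : ℝ) ≤ j := Nat.cast_nonneg j
  obtain ⟨r, r1, r2, r3⟩ := hC (2 * j + 1 + 2) (by omega)
  apply Pool.Agent.H506R3.Ret.no_retr |C| (abs_nonneg C) (2 * j + 1) ⟨j, rfl⟩ _ r
  · intro s hs hc
    exact r1 s hs hc
  · intro s hs hc
    exact r2 s hs hc
  · intro s t hs hsc ht htc
    refine (r3 s t hs hsc ht htc).trans ?_
    exact mul_le_mul_of_nonneg_right (le_abs_self C) Metric.hausdorffDist_nonneg
  · push_cast
    rw [div_le_iff₀ (by positivity)]
    linarith

end Pool.Agent.S14076
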