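import Pool.Statements.S14091
import Pool.Agent.H645R3.LM
-- import your own Pool.Agent.* helpers here

set_option autoImplicit false
open Pool Pool.MP_de131a_gt

namespace Pool.Agent.S14091

open Cardinal Filter Topology in
/-- character bound, multiplicative form -/
theorem char_le_mul {G : Type} [CommGroup G] [τ : TopologicalSpace G] [IsTopologicalGroup G]
    [T2Space G] {κ : Cardinal.{0}} (hκ : ℵ₀ ≤ κ)
    (h : ∃ U ∈ nhds (1 : G), ∀ σ : TopologicalSpace G,
          @IsTopologicalGroup G σ _ → @T2Space G σ → τ ≤ σ → U ∈ @nhds G σ 1 → σ = τ)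
    (hT : ∀ A : Set G, ∀ x ∈ closure A, ∃ B ⊆ A, Cardinal.mk B ≤ κ ∧ x ∈ closure B) :
    ∃ 𝓑 : Set (Set G), (nhds (1 : G)).HasBasis (fun s => s ∈ 𝓑) id ∧ Cardinal.mk 𝓑 ≤ κ := by
  obtain ⟨U, hU, hmin⟩ := h
  have hT2 : T2Space (Additive G) := (inferInstance : T2Space G)
  refine H645.char_le (G := Additive G) hκ (U : Set (Additive G)) hU ?_ hT
  intro σ h1 h2 h3 h4
  refine hmin σ ?_ h2 h3 h4
  have hm : @ContinuousMul G σ _ := @ContinuousMul.mk G σ _ h1.toContinuousAdd.continuous_add
  have hi : @ContinuousInv G σ _ := @ContinuousInv.mk G σ _ h1.toContinuousNeg.continuous_neg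
  exact @IsTopologicalGroup.mk G σ _ hm hi

/-- For every Hausdorff abelian topological group that is locally minimal (some identity neighbourhood forbids strictly coarser Hausdorff group topologies in which it stays a neighbourhood), its tightness equals its character. -/
theorem result :
    ∀ (G : Type) [CommGroup G] [τ : TopologicalSpace G] [IsTopologicalGroup G] [T2Space G],
      (∃ U ∈ nhds (1 : G), ∀ σ : TopologicalSpace G,
          @IsTopologicalGroup G σ _ → @T2Space G σ → τ ≤ σ → U ∈ @nhds G σ 1 → σ = τ) →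
      sInf {κ : Cardinal | ∀ A : Set G, ∀ x ∈ closure A,
              ∃ B ⊆ A, Cardinal.mk B ≤ κ ∧ x ∈ closure B}
        = sInf {κ : Cardinal | ∃ 𝓑 : Set (Set G),
              (nhds (1 : G)).HasBasis (fun s => s ∈ 𝓑) id ∧ Cardinal.mk 𝓑 = κ} := by
  intro G _ τ _ _ hmin
  set T : Set Cardinal.{0} := {κ : Cardinal | ∀ A : Set G, ∀ x ∈ closure A,
              ∃ B ⊆ A, Cardinal.mk B ≤ κ ∧ x ∈ closure B} with hTdef
  set C : Set Cardinal.{0} := {κ : Cardinal | ∃ 𝓑 : Set (Set G),
              (nhds (1 : G)).HasBasis (fun s => s ∈ 𝓑) id ∧ Cardinal.mk 𝓑 = κ} with hCdef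
  have hTne : T.Nonempty := ⟨Cardinal.mk G, fun A x hx => ⟨A, subset_rfl, Cardinal.mk_set_le A, hx⟩⟩
  have hCne : C.Nonempty := by
    refine ⟨_, {s | s ∈ nhds (1 : G)}, ?_, rfl⟩
    exact (nhds (1 : G)).basis_sets
  by_cases hd : ({1} : Set G) ∈ nhds (1 : G)
  · -- discrete case
    have hopen : ∀ x : G, ({x} : Set G) ∈ nhds x := by
      intro x
      have h1 : (fun y : G => x⁻¹ * y) ⁻¹' ({1} : Set G) ∈ nhds x := by
        have hc : ContinuousAt (fun y : G => x⁻¹ * y) x := by fun_prop
        apply hc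
        simpa using hd
      refine Filter.mem_of_superset h1 ?_
      intro y hy
      have : x⁻¹ * y = 1 := hy
      rw [Set.mem_singleton_iff]
      rw [inv_mul_eq_one] at this
      exact this.symm
    have hcl : ∀ (A : Set G) (x : G), x ∈ closure A → x ∈ A := by
      intro A x hx
      rw [mem_closure_iff_nhds] at hx
      obtain ⟨y, hy, hyA⟩ := hx _ (hopen x)
      rw [Set.mem_singleton_iff] at hy
      rwa [← hy]
    have hT1 : sInf T = 1 := by
      apply le_antisymm
      · apply csInf_le'
        intro A x hx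
        refine ⟨{x}, by simpa using hcl A x hx, ?_, subset_closure rfl⟩
        rw [Cardinal.mk_singleton]
      · have hmem := csInf_mem hTne
        obtain ⟨B, hB, hBc, hxB⟩ := hmem {1} 1 (subset_closure rfl)
        have : (1 : G) ∈ B := hcl _ _ hxB
        refine le_trans ?_ hBc
        rw [Cardinal.one_le_iff_ne_zero, Cardinal.mk_ne_zero_iff]
        exact ⟨⟨1, this⟩⟩
    have hC1 : sInf C = 1 := by
      apply le_antisymm
      · apply csInf_le'
        refine ⟨{{1}}, ?_, Cardinal.mk_singleton _⟩
        refine ⟨fun t => ?_⟩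
        constructor
        · intro ht
          refine ⟨{1}, rfl, ?_⟩
          intro y hy
          simp only [id, Set.mem_singleton_iff] at hy
          rw [hy]
          exact mem_of_mem_nhds ht
        · rintro ⟨i, hi, hit⟩
          rw [Set.mem_singleton_iff] at hi
          subst hi
          exact Filter.mem_of_superset hd hit
      · obtain ⟨𝓑, hB, hBc⟩ := csInf_mem hCne
        rw [← hBc, Cardinal.one_le_iff_ne_zero, Cardinal.mk_ne_zero_iff]
        obtain ⟨i, hi, _⟩ := hB.mem_iff.1 Filter.univ_mem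
        exact ⟨⟨i, hi⟩⟩
    rw [hT1, hC1]
  · -- nondiscrete case
    apply le_antisymm
    · apply csInf_le'
      obtain ⟨𝓑, hB, hBc⟩ := csInf_mem hCne
      intro A x hx
      rw [mem_closure_iff_nhds] at hx
      have hpre : ∀ V ∈ nhds (1 : G), (fun y : G => x⁻¹ * y) ⁻¹' V ∈ nhds x := by
        intro V hV
        have hc : ContinuousAt (fun y : G => x⁻¹ * y) x := by fun_prop
        apply hc
        simpa using hV
      have hex : ∀ V : 𝓑, ∃ y ∈ A, x⁻¹ * y ∈ V.1 := by
        intro V
        obtain ⟨y, hy, hyA⟩ := hx _ (hpre V.1 (hB.mem_of_mem V.2))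
        exact ⟨y, hyA, hy⟩
      choose f hfA hf using hex
      refine ⟨Set.range f, ?_, ?_, ?_⟩
      · rintro _ ⟨V, rfl⟩
        exact hfA V
      · rw [← hBc]
        exact Cardinal.mk_range_le
      · rw [mem_closure_iff_nhds]
        intro W hW
        have h2 : (fun y : G => x * y) ⁻¹' W ∈ nhds (1 : G) := by
          have hc : ContinuousAt (fun y : G => x * y) 1 := by fun_prop
          apply hc
          simpa using hW
        obtain ⟨V, hV, hVW⟩ := hB.mem_iff.1 h2
        refine ⟨f ⟨V, hV⟩, ?_, ⟨_, rfl⟩⟩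
        have := hVW (hf ⟨V, hV⟩)
        simpa using this
    · have hmem := csInf_mem hTne
      have hinf : Cardinal.aleph0 ≤ sInf T := by
        by_contra hlt
        push Not at hlt
        apply hd
        have h3 : (1 : G) ∉ closure ({1}ᶜ : Set G) := by
          intro hcl
          obtain ⟨B, hB, hBc, hxB⟩ := hmem _ 1 hcl
          have hfin : B.Finite := Cardinal.lt_aleph0_iff_set_finite.1 (lt_of_le_of_lt hBc hlt)
          rw [hfin.isClosed.closure_eq] at hxB
          exact hB hxB rfl
        rw [closure_compl, Set.mem_compl_iff, not_not] at h3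
        exact mem_interior_iff_mem_nhds.1 h3
      obtain ⟨𝓑, hB, hBc⟩ := char_le_mul hinf hmin hmem
      exact le_trans (csInf_le' ⟨𝓑, hB, rfl⟩) hBc

end Pool.Agent.S14091
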