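import Pool.Statements.S14094
import Pool.Agent.H241R3.SGroup3

set_option autoImplicit false
open Pool Pool.MP_de3f93_gt

namespace Pool.Agent.S14094

/-- The negation of the preceding statement: Every Hausdorff topological group of countable tightness that is an s-group and whose closed subgroups are all s-groups (sequentially continuous homomorphisms into Hausdorff groups are continuous) is a sequential space. -/
theorem result :
    ¬ (∀ (G : Type) [Group G] [TopologicalSpace G] [IsTopologicalGroup G] [T2Space G],
      (∀ (H : Type) [Group H] [TopologicalSpace H] [IsTopologicalGroup H] [T2Space H]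
          (f : G →* H), SeqContinuous (f : G → H) → Continuous (f : G → H)) →
      (∀ (A : Set G), ∀ x ∈ closure A, ∃ B : Set G, B ⊆ A ∧ B.Countable ∧ x ∈ closure B) →
      (∀ K : Subgroup G, IsClosed (K : Set G) →
        ∀ (H : Type) [Group H] [TopologicalSpace H] [IsTopologicalGroup H] [T2Space H]
          (f : K →* H), SeqContinuous (f : K → H) → Continuous (f : K → H)) →
      SequentialSpace G) := by
  intro h
  refine Pool.Agent.H241R3.SG.not_sequentialSpace
    (@h Pool.Agent.H241R3.SG.G _ _ _ _ ?_ ?_ ?_)
  · intro H _ _ _ _ f hf
    exact Pool.Agent.H241R3.SG.continuous_of_seqContinuous f hf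
  · intro A x hx
    exact ⟨A, subset_rfl, A.to_countable, hx⟩
  · intro K hK H _ _ _ _ f hf
    exact Pool.Agent.H241R3.SG.continuous_sub K hK f hf

end Pool.Agent.S14094
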