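import Pool.Statements.S14110
import Pool.Agent.H73W.RP

set_option autoImplicit false
open Pool Pool.MP_dfaa5d_gt

namespace Pool.Agent.S14110

/-- The negation of the preceding statement: For distinct exponents r_i with n = sum of 2^r_i at least 2, the product of RP^(2^r_i) totally skew embeds in R^N (via antipodally invariant smooth maps on sphere products) exactly when N ≥ 4n − 2·(binary digit sum of n) + 1. -/
theorem result :
    ¬ (∀ S : Finset ℕ, 2 ≤ ∑ r ∈ S, 2 ^ r → ∀ N : ℕ,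
    ((∃ f : ((i : ↥S) → EuclideanSpace ℝ (Fin (2 ^ (i : ℕ) + 1))) → EuclideanSpace ℝ (Fin N),
      ContDiff ℝ ((⊤ : ℕ∞) : WithTop ℕ∞) f ∧
      (∀ x : (i : ↥S) → EuclideanSpace ℝ (Fin (2 ^ (i : ℕ) + 1)),
        (∀ i, ‖x i‖ = 1) → ∀ i, f (Function.update x i (-x i)) = f x) ∧
      (∀ x : (i : ↥S) → EuclideanSpace ℝ (Fin (2 ^ (i : ℕ) + 1)),
        (∀ i, ‖x i‖ = 1) →
        ∀ u : (i : ↥S) → EuclideanSpace ℝ (Fin (2 ^ (i : ℕ) + 1)),
          (∀ i, inner ℝ (x i) (u i) = 0) → fderiv ℝ f x u = 0 → u = 0) ∧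
      (∀ x y : (i : ↥S) → EuclideanSpace ℝ (Fin (2 ^ (i : ℕ) + 1)),
        (∀ i, ‖x i‖ = 1) → (∀ i, ‖y i‖ = 1) →
        ¬ (∀ i, y i = x i ∨ y i = -x i) →
        ∀ u w : (i : ↥S) → EuclideanSpace ℝ (Fin (2 ^ (i : ℕ) + 1)),
          (∀ i, inner ℝ (x i) (u i) = 0) → (∀ i, inner ℝ (y i) (w i) = 0) →
          ∀ t : ℝ, fderiv ℝ f x u + fderiv ℝ f y w + t • (f y - f x) = 0 →
            u = 0 ∧ w = 0 ∧ t = 0)) ↔
      4 * (∑ r ∈ S, 2 ^ r) - 2 * (Nat.digits 2 (∑ r ∈ S, 2 ^ r)).sum + 1 ≤ N)) := by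
  intro H
  have hs : ∑ r ∈ ({0, 1} : Finset ℕ), 2 ^ r = 3 := by decide
  have h := (H {0, 1} (by rw [hs]; norm_num) 9).mpr (by rw [hs]; norm_num)
  obtain ⟨f, hf, hinv, _, hTS⟩ := h
  exact Pool.Agent.H73W.no_RP f hf hinv hTS

end Pool.Agent.S14110
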