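import Pool.Statements.S14147
import Pool.Agent.H506R3.Mag.Fin

set_option autoImplicit false
open Classical
open Pool Pool.MP_e62a5f_gt

namespace Pool.Agent.S14147

open Matrix Finset Pool.Agent.H506R3.Mag

variable {U : Type} [NormedAddCommGroup U]

/-- similarity matrix -/
noncomputable def ZZ (X : Finset U) : Matrix ↥X ↥X ℝ :=
  Matrix.of fun (x y : ↥X) => Real.exp (-‖(x : U) - (y : U)‖)

/-- magnitude -/
noncomputable def mg (X : Finset U) : ℝ := ∑ i, ∑ j, (ZZ X)⁻¹ i j

lemma mg_eq (X : Finset U) : mg X = 1 ⬝ᵥ ((ZZ X)⁻¹ *ᵥ 1) := sum_inv_eq _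

/-- energy of a vector on `X` -/
noncomputable def en (X : Finset U) (v : ↥X → ℝ) : ℝ :=
  ∑ i, ∑ j, v i * v j * Real.exp (-‖(i : U) - (j : U)‖)

lemma en_eq (X : Finset U) (v : ↥X → ℝ) : v ⬝ᵥ (ZZ X *ᵥ v) = en X v := quad_eq _ _

lemma cs_mg {X : Finset U} (h : (ZZ X).PosDef) (v : ↥X → ℝ) : (∑ i, v i) ^ 2 ≤ mg X * en X v := by
  have h1 := posdef_cs h 1 v
  rw [← mg_eq, en_eq] at h1
  have h2 : (1 : ↥X → ℝ) ⬝ᵥ v = ∑ i, v i := by simp [dotProduct]
  rwa [h2] at h1

lemma cs_pt {X : Finset U} (h : (ZZ X).PosDef) (v : ↥X → ℝ) (x : ↥X) :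
    (v x) ^ 2 ≤ ((ZZ X)⁻¹ x x) * en X v := by
  have h1 := posdef_cs h (Pi.single x 1) v
  rw [en_eq] at h1
  simpa using h1

lemma mg_ge_one {X : Finset U} (h : (ZZ X).PosDef) (hX : X.Nonempty) : 1 ≤ mg X := by
  obtain ⟨x, hx⟩ := hX
  have h1 := cs_mg h (Pi.single (⟨x, hx⟩ : ↥X) 1)
  have h2 : en X (Pi.single (⟨x, hx⟩ : ↥X) 1) = 1 := by
    rw [← en_eq]
    simp [ZZ]
  rw [h2] at h1
  simpa using h1

lemma en_nonneg {X : Finset U} (h : (ZZ X).PosDef) (v : ↥X → ℝ) : 0 ≤ en X v := by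
  rw [← en_eq]
  have := h.posSemidef.dotProduct_mulVec_nonneg v
  simpa using this

/-- the weighting -/
noncomputable def wt (X : Finset U) : ↥X → ℝ := (ZZ X)⁻¹ *ᵥ 1

lemma sum_wt (X : Finset U) : ∑ i, wt X i = mg X := by
  rw [mg_eq]; simp [wt, dotProduct]

lemma en_wt {X : Finset U} (h : (ZZ X).PosDef) : en X (wt X) = mg X := by
  rw [← en_eq, mg_eq]
  exact weighting _ h

/-- lower semicontinuity estimate -/
lemma lower {X Y : Finset U} (hX : (ZZ X).PosDef) (hY : (ZZ Y).PosDef) (hYn : Y.Nonempty)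
    (y : ↥X → ↥Y) {r : ℝ} (hr : 0 ≤ r) (hy : ∀ x : ↥X, ‖(x : U) - (y x : U)‖ ≤ r) :
    mg X - 2 * r * (∑ x, |wt X x|) ^ 2 ≤ mg Y := by
  have h1 := cs_mg hY (fun j => ∑ x with y x = j, wt X x)
  have h2 : ∑ j, ∑ x with y x = j, wt X x = mg X := by
    rw [← sum_wt X]
    exact Finset.sum_fiberwise_of_maps_to (fun _ _ => mem_univ _) _
  have h3 : en Y (fun j => ∑ x with y x = j, wt X x) =
      ∑ x, ∑ x', wt X x * wt X x' * Real.exp (-‖(y x : U) - (y x' : U)‖) := by
    unfold en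
    rw [← Finset.sum_fiberwise_of_maps_to (s := univ) (t := univ) (g := y) (fun _ _ => mem_univ _)
      (fun x => ∑ x', wt X x * wt X x' * Real.exp (-‖(y x : U) - (y x' : U)‖))]
    refine Finset.sum_congr rfl fun j _ => ?_
    have h4 : ∀ x, ∑ x', wt X x * wt X x' * Real.exp (-‖(y x : U) - (y x' : U)‖) =
        ∑ l, wt X x * (∑ x' with y x' = l, wt X x') * Real.exp (-‖(y x : U) - (l : U)‖) := by
      intro x
      rw [← Finset.sum_fiberwise_of_maps_to (s := univ) (t := univ) (g := y)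
        (fun _ _ => mem_univ _)
        (fun x' => wt X x * wt X x' * Real.exp (-‖(y x : U) - (y x' : U)‖))]
      refine Finset.sum_congr rfl fun l _ => ?_
      rw [Finset.mul_sum, Finset.sum_mul]
      refine Finset.sum_congr rfl fun x' hx' => ?_
      rw [(mem_filter.1 hx').2]
    simp_rw [h4]
    rw [Finset.sum_comm]
    refine Finset.sum_congr rfl fun l _ => ?_
    rw [Finset.sum_mul, Finset.sum_mul]
    refine Finset.sum_congr rfl fun x hx => ?_
    rw [(mem_filter.1 hx).2]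
  have h5 : en Y (fun j => ∑ x with y x = j, wt X x) ≤ mg X + 2 * r * (∑ x, |wt X x|) ^ 2 := by
    rw [h3, ← en_wt hX]
    unfold en
    have h6 : 2 * r * (∑ x, |wt X x|) ^ 2 = ∑ x, ∑ x', (|wt X x| * |wt X x'|) * (2 * r) := by
      rw [sq, Finset.sum_mul_sum, Finset.mul_sum]
      refine Finset.sum_congr rfl fun x _ => ?_
      rw [Finset.mul_sum]
      refine Finset.sum_congr rfl fun x' _ => ?_
      ring
    rw [h6, ← Finset.sum_add_distrib]
    refine Finset.sum_le_sum fun x _ => ?_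
    rw [← Finset.sum_add_distrib]
    refine Finset.sum_le_sum fun x' _ => ?_
    have h7 : |Real.exp (-‖(y x : U) - (y x' : U)‖) - Real.exp (-‖(x : U) - (x' : U)‖)| ≤ 2 * r := by
      have h8 : |‖(y x : U) - (y x' : U)‖ - ‖(x : U) - (x' : U)‖| ≤ 2 * r := by
        refine (abs_norm_sub_norm_le _ _).trans ?_
        have h9 : ((y x : U) - (y x' : U)) - ((x : U) - (x' : U)) =
          ((x' : U) - (y x' : U)) - ((x : U) - (y x : U)) := by abel
        rw [h9]
        refine (norm_sub_le _ _).trans ?_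
        linarith [hy x, hy x']
      rcases le_total ‖(y x : U) - (y x' : U)‖ ‖(x : U) - (x' : U)‖ with h | h
      · have := exp_diff (norm_nonneg _) h
        rw [abs_sub_comm] at this
        refine this.trans ?_
        have := (abs_le.1 h8).1
        linarith
      · have := exp_diff (norm_nonneg _) h
        refine this.trans ?_
        have := (abs_le.1 h8).2
        linarith
    have h8 : |wt X x * wt X x' * (Real.exp (-‖(y x : U) - (y x' : U)‖) -
        Real.exp (-‖(x : U) - (x' : U)‖))| ≤ |wt X x| * |wt X x'| * (2 * r) := by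
      rw [abs_mul, abs_mul]
      gcongr
    have := (abs_le.1 h8).2
    linarith
  rw [h2] at h1
  have hMY := mg_ge_one hY hYn
  set E := 2 * r * (∑ x, |wt X x|) ^ 2 with hE
  have hE0 : 0 ≤ E := by positivity
  have h6 : mg X ^ 2 ≤ mg Y * (mg X + E) := h1.trans (by gcongr)
  by_contra hcon
  push Not at hcon
  have h7 : 0 < mg X + E := by linarith
  have h8 : mg Y * (mg X + E) < (mg X - E) * (mg X + E) := by gcongr
  nlinarith [sq_nonneg E]

variable [NormedSpace ℝ U] [FiniteDimensional ℝ U]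

/-- transfer of the main inequality -/
lemma transfer (hpd : ∀ X : Finset U, (ZZ X).PosDef) :
    ∃ C : ℝ, 0 ≤ C ∧ ∀ (X Y : Finset U) (b : ↥Y → ↥X) (r : ℝ), 0 ≤ r →
      (∀ i : ↥Y, ‖(i : U) - (b i : U)‖ ≤ r) → ∀ w : ↥Y → ℝ,
      en X (fun k => ∑ i with b i = k, w i) -
        (C * r * X.card) * (∑ k, |∑ i with b i = k, w i|) ^ 2 ≤ en Y w := by
  let V := EuclideanSpace ℝ (Fin (Module.finrank ℝ U))
  let L : U ≃L[ℝ] V := toEuclidean
  let N : V → ℝ := fun v => ‖L.symm v‖
  have hc : Continuous N := by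
    have := L.symm.continuous
    fun_prop
  obtain ⟨K, hK0, hK⟩ : ∃ K : ℝ, 0 < K ∧ ∀ u : U, ‖L u‖ ≤ K * ‖u‖ := by
    refine ⟨‖(L : U →L[ℝ] V)‖ + 1, by positivity, fun u => ?_⟩
    have := (L : U →L[ℝ] V).le_opNorm u
    have h2 : ‖L u‖ ≤ ‖(L : U →L[ℝ] V)‖ * ‖u‖ := this
    nlinarith [norm_nonneg u]
  have hlow : ∀ v, (1 / K) * ‖v‖ ≤ N v := by
    intro v
    have := hK (L.symm v)
    rw [L.apply_symm_apply] at this
    rw [one_div, inv_mul_le_iff₀ hK0]
    exact this
  have hNs : ∀ (t : ℝ) v, N (t • v) = |t| * N v := by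
    intro t v
    show ‖L.symm (t • v)‖ = |t| * ‖L.symm v‖
    rw [map_smul, norm_smul, Real.norm_eq_abs]
  have hpsd : PSDFun fun v : V => Real.exp (-N v) := by
    intro s w
    let T : Finset U := s.map L.symm.toEquiv.toEmbedding
    have h1 := en_nonneg (hpd T) (fun t => w (L t))
    have h2 : en T (fun t => w (L t)) = ∑ x ∈ s, ∑ y ∈ s, w x * w y * Real.exp (-N (x - y)) := by
      unfold en
      rw [Finset.sum_coe_sort T (fun i : U => ∑ j : ↥T, w (L i) * w (L j) *
        Real.exp (-‖(i : U) - (j : U)‖))]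
      rw [Finset.sum_map]
      refine Finset.sum_congr rfl fun x _ => ?_
      rw [Finset.sum_coe_sort T (fun j : U => w (L (L.symm.toEquiv.toEmbedding x)) * w (L j) *
        Real.exp (-‖(L.symm.toEquiv.toEmbedding x : U) - (j : U)‖))]
      rw [Finset.sum_map]
      refine Finset.sum_congr rfl fun y _ => ?_
      show w (L (L.symm x)) * w (L (L.symm y)) * Real.exp (-‖L.symm x - L.symm y‖) = _
      rw [L.apply_symm_apply, L.apply_symm_apply, ← map_sub]
    rw [← h2]
    exact h1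
  obtain ⟨C, hC, hmain⟩ := main_ineq hc (by positivity : 0 < 1 / K) hlow hNs hpsd
  refine ⟨C * K, by positivity, fun X Y b r hr hbr w => ?_⟩
  have h1 := hmain (↥Y) (↥X) (fun i => L i) (fun k => L k) b (K * r) (by positivity) (by
    intro i
    rw [← map_sub]
    exact (hK _).trans (by gcongr; exact hbr i)) w
  have h2 : ∀ u v : U, N (L u - L v) = ‖u - v‖ := by
    intro u v
    show ‖L.symm (L u - L v)‖ = _
    rw [← map_sub, L.symm_apply_apply]
  simp_rw [h2] at h1
  rw [Fintype.card_coe] at h1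
  have h3 : C * (K * r) * (X.card : ℝ) = C * K * r * X.card := by ring
  rw [h3] at h1
  exact h1

/-- In any finite-dimensional real normed space where every finite subset has a positive definite matrix exp(-distance), the magnitude (sum of entries of the inverse matrix) of nonempty finite subsets is continuous in the Hausdorff distance. -/
theorem result :
    ∀ (U : Type) [NormedAddCommGroup U] [NormedSpace ℝ U] [FiniteDimensional ℝ U],
      (∀ X : Finset U,
        (Matrix.of fun (x y : ↥X) => Real.exp (-‖(x : U) - (y : U)‖)).PosDef) →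
      ∀ X : Finset U, X.Nonempty → ∀ ε : ℝ, 0 < ε → ∃ δ : ℝ, 0 < δ ∧
        ∀ Y : Finset U, Y.Nonempty →
          Metric.hausdorffDist (X : Set U) (Y : Set U) < δ →
          |(∑ i, ∑ j,
              (Matrix.of fun (x y : ↥Y) => Real.exp (-‖(x : U) - (y : U)‖))⁻¹ i j) -
            (∑ i, ∑ j,
              (Matrix.of fun (x y : ↥X) => Real.exp (-‖(x : U) - (y : U)‖))⁻¹ i j)| < ε := by
  intro U _ _ _ hpd' X hX ε hε
  have hpd : ∀ X : Finset U, (ZZ X).PosDef := hpd'
  obtain ⟨C, hC, htr⟩ := transfer hpd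
  set W := (∑ x, |wt X x|) ^ 2 with hW
  set L := (∑ x, Real.sqrt ((ZZ X)⁻¹ x x)) ^ 2 with hL
  have hW0 : 0 ≤ W := by positivity
  have hL0 : 0 ≤ L := by positivity
  have hMX := mg_ge_one (hpd X) hX
  set A := C * X.card * L with hA
  have hA0 : 0 ≤ A := by positivity
  set δ := min (1 / (2 * (1 + A))) (ε / (4 * (1 + W + A * mg X))) with hδ
  have hAM : 0 ≤ A * mg X := by positivity
  have hδ0 : 0 < δ := by
    rw [hδ]
    apply lt_min <;> positivity
  refine ⟨δ, hδ0, fun Y hY hd => ?_⟩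
  have hfin : Metric.hausdorffEDist (X : Set U) (Y : Set U) ≠ ⊤ :=
    Metric.hausdorffEDist_ne_top_of_nonempty_of_bounded (by simpa using hX) (by simpa using hY)
      X.finite_toSet.isBounded Y.finite_toSet.isBounded
  have hy : ∀ x : ↥X, ∃ y : ↥Y, ‖(x : U) - (y : U)‖ ≤ δ := by
    intro x
    obtain ⟨y, hy, hxy⟩ := Metric.exists_dist_lt_of_hausdorffDist_lt (x := (x : U))
      (by exact_mod_cast x.2) hd hfin
    exact ⟨⟨y, by exact_mod_cast hy⟩, by rw [← dist_eq_norm]; exact hxy.le⟩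
  have hb : ∀ y : ↥Y, ∃ x : ↥X, ‖(y : U) - (x : U)‖ ≤ δ := by
    intro y
    obtain ⟨x, hx, hxy⟩ := Metric.exists_dist_lt_of_hausdorffDist_lt' (y := (y : U))
      (by exact_mod_cast y.2) hd hfin
    exact ⟨⟨x, by exact_mod_cast hx⟩, by rw [norm_sub_rev, ← dist_eq_norm]; exact hxy.le⟩
  choose y hy using hy
  choose b hb using hb
  have hlow := lower (hpd X) (hpd Y) hY y hδ0.le hy
  have hup1 := htr X Y b δ hδ0.le hb (wt Y)
  rw [en_wt (hpd Y)] at hup1
  set m : ↥X → ℝ := fun k => ∑ i with b i = k, wt Y i with hm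
  have hsum : ∑ k, m k = mg Y := by
    rw [← sum_wt Y]
    exact Finset.sum_fiberwise_of_maps_to (fun _ _ => mem_univ _) _
  have hup2 := cs_mg (hpd X) m
  rw [hsum] at hup2
  have hen := en_nonneg (hpd X) m
  have hup3 : (∑ k, |m k|) ^ 2 ≤ L * en X m := by
    have h1 : ∀ k, |m k| ≤ Real.sqrt ((ZZ X)⁻¹ k k) * Real.sqrt (en X m) := by
      intro k
      rw [← Real.sqrt_sq_eq_abs, ← Real.sqrt_mul' _ hen]
      exact Real.sqrt_le_sqrt (cs_pt (hpd X) m k)
    have h2 : ∑ k, |m k| ≤ (∑ k, Real.sqrt ((ZZ X)⁻¹ k k)) * Real.sqrt (en X m) := by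
      rw [Finset.sum_mul]
      exact Finset.sum_le_sum fun k _ => h1 k
    calc (∑ k, |m k|) ^ 2 ≤ ((∑ k, Real.sqrt ((ZZ X)⁻¹ k k)) * Real.sqrt (en X m)) ^ 2 := by
          have : 0 ≤ ∑ k, |m k| := Finset.sum_nonneg fun _ _ => abs_nonneg _
          gcongr
      _ = L * en X m := by rw [mul_pow, Real.sq_sqrt hen]
  have hMY := mg_ge_one (hpd Y) hY
  have hδ1 : δ * (2 * (1 + A)) ≤ 1 := by
    have := min_le_left (1 / (2 * (1 + A))) (ε / (4 * (1 + W + A * mg X)))
    rw [← hδ, le_div_iff₀ (by positivity)] at this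
    exact this
  have hδ2 : δ * (4 * (1 + W + A * mg X)) ≤ ε := by
    have := min_le_right (1 / (2 * (1 + A))) (ε / (4 * (1 + W + A * mg X)))
    rw [← hδ, le_div_iff₀ (by positivity)] at this
    exact this
  have hΛL : (C * δ * X.card) * L = δ * A := by rw [hA]; ring
  have hup := upper_num (MX := mg X) (MY := mg Y) (q := en X m) (s := (∑ k, |m k|) ^ 2)
    (Λ := C * δ * X.card) (L := L) (by linarith) hup1 hup3 hup2 (by positivity) hL0
    (by rw [hΛL]; nlinarith) (by linarith)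
  rw [hΛL] at hup
  show |mg Y - mg X| < ε
  have e1 : 2 * δ * W < ε := by nlinarith
  have e2 : 2 * (δ * A) * mg X < ε := by nlinarith
  rw [abs_lt]
  constructor <;> linarith

end Pool.Agent.S14147
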