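import Pool.Statements.S14157
import Pool.Agent.Helper300.JonesT

set_option autoImplicit false
open Pool Pool.MP_e81b80_gt

namespace Pool.Agent.S14157

/-- For a Hausdorff continuum S, if Jones's function T is continuous on nonempty closed sets (Vietoris topology), then the sets T({p}) partition S into a continuous decomposition whose quotient space is locally connected. -/
theorem result :
    ∀ (S : Type) [TopologicalSpace S] [CompactSpace S] [ConnectedSpace S] [T2Space S]
      (T : Set S → Set S) (V : TopologicalSpace (Set S)),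
      (∀ A : Set S, T A = {x : S | ∀ W : Set S, IsClosed W → IsConnected W →
          x ∈ interior W → (W ∩ A).Nonempty}) →
      V = TopologicalSpace.generateFrom
          ({𝒰 : Set (Set S) | ∃ U : Set S, IsOpen U ∧ 𝒰 = {A : Set S | A ⊆ U}} ∪
           {𝒰 : Set (Set S) | ∃ U : Set S, IsOpen U ∧ 𝒰 = {A : Set S | (A ∩ U).Nonempty}}) →
      @Continuous {A : Set S // IsClosed A ∧ A.Nonempty} (Set S)
          (TopologicalSpace.induced Subtype.val V) V (fun A => T A.1) →
      (∀ p q : S, T {p} = T {q} ∨ Disjoint (T {p}) (T {q})) ∧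
      @Continuous S (Set S) _ V (fun p => T {p}) ∧
      ∀ r : S → S → Prop, (∀ p q : S, r p q ↔ T {p} = T {q}) →
        LocallyConnectedSpace (Quot r) := by
  intro S _ _ _ _ T V hT hV hcont
  have hfun : T = Pool.Agent.Helper300.JonesT.T := by
    funext A
    rw [hT A]
    ext p
    simp only [Pool.Agent.Helper300.JonesT.T, Set.mem_ofPred_eq, mem_interior_iff_mem_nhds]
  rw [← Pool.Agent.Helper300.JonesT.vietoris_eq] at hV
  subst hV
  subst hfun
  have hon : @ContinuousOn (Set S) (Set S) (TopologicalSpace.vietoris S)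
      (TopologicalSpace.vietoris S) Pool.Agent.Helper300.JonesT.T
      {A : Set S | IsClosed A ∧ A.Nonempty} := by
    let _ : TopologicalSpace (Set S) := TopologicalSpace.vietoris S
    exact continuousOn_iff_continuous_restrict.2 hcont
  have h := Pool.Agent.Helper300.JonesT.LSC_of_continuousOn hon
  refine ⟨?_, ?_, ?_⟩
  · intro p q
    by_cases hd : Disjoint (Pool.Agent.Helper300.JonesT.T ({p} : Set S))
      (Pool.Agent.Helper300.JonesT.T ({q} : Set S))
    · exact Or.inr hd
    · left
      obtain ⟨z, hz1, hz2⟩ := Set.not_disjoint_iff.1 hd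
      rw [← Pool.Agent.Helper300.JonesT.T_eq_of_mem h hz1,
        ← Pool.Agent.Helper300.JonesT.T_eq_of_mem h hz2]
  · let _ : TopologicalSpace (Set S) := TopologicalSpace.vietoris S
    have h1 : Continuous (fun p : S => (⟨{p}, isClosed_singleton, Set.singleton_nonempty p⟩ :
        {A : Set S // IsClosed A ∧ A.Nonempty})) :=
      (TopologicalSpace.vietoris.continuous_singleton).subtype_mk _
    exact hcont.comp h1
  · intro r hr
    have hrr : ∀ p q : S, r p q ↔ q ∈ Pool.Agent.Helper300.JonesT.T ({p} : Set S) := by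
      intro p q
      rw [hr]
      constructor
      · intro he
        rw [he]; exact Pool.Agent.Helper300.JonesT.self_mem_T q
      · intro hq
        exact (Pool.Agent.Helper300.JonesT.T_eq_of_mem h hq).symm
    have heqv : Equivalence r := by
      constructor
      · intro x; rw [hr]
      · intro x y hxy; rw [hr] at hxy ⊢; exact hxy.symm
      · intro x y z hxy hyz; rw [hr] at hxy hyz ⊢; exact hxy.trans hyz
    have hmk : ∀ x y : S, Quot.mk r x = Quot.mk r y ↔ r x y := by
      intro x y
      rw [Quot.eq, heqv.eqvGen_iff]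
    have hopen : ∀ U : Set S, IsOpen U → IsOpen (Quot.mk r '' U) := by
      intro U hU
      rw [← isQuotientMap_quot_mk.isOpen_preimage]
      have : Quot.mk r ⁻¹' (Quot.mk r '' U) =
          {x : S | (Pool.Agent.Helper300.JonesT.T ({x} : Set S) ∩ U).Nonempty} := by
        ext x
        constructor
        · rintro ⟨u, hu, hux⟩
          exact ⟨u, (hrr x u).1 ((hmk x u).1 hux.symm), hu⟩
        · rintro ⟨u, hu1, hu2⟩
          exact ⟨u, hu2, ((hmk x u).2 ((hrr x u).2 hu1)).symm⟩
      rw [this]
      exact Pool.Agent.Helper300.JonesT.isOpen_T_inter h hU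
    rw [locallyConnectedSpace_iff_connected_subsets]
    intro z O hO
    obtain ⟨x, rfl⟩ := Quot.exists_rep z
    obtain ⟨O', hO'O, hO', hxO'⟩ := mem_nhds_iff.1 hO
    have hpre : IsOpen (Quot.mk r ⁻¹' O') := hO'.preimage continuous_quot_mk
    have hsub : Pool.Agent.Helper300.JonesT.T ({x} : Set S) ⊆ Quot.mk r ⁻¹' O' := by
      intro y hy
      show Quot.mk r y ∈ O'
      rw [← (hmk x y).2 ((hrr x y).2 hy)]
      exact hxO'
    obtain ⟨K, hK1, hK2, hK3, hK4⟩ :=
      Pool.Agent.Helper300.JonesT.exists_small_continuum h hpre hsub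
    refine ⟨Quot.mk r '' K, ?_, ?_, ?_⟩
    · refine Filter.mem_of_superset ((hopen _ isOpen_interior).mem_nhds
        ⟨x, mem_interior_iff_mem_nhds.2 hK3, rfl⟩) (Set.image_mono interior_subset)
    · exact hK2.isPreconnected.image _ continuous_quot_mk.continuousOn
    · rintro _ ⟨y, hy, rfl⟩
      exact hO'O (hK4 hy)

end Pool.Agent.S14157
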