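import Pool.Statements.S14163
import Pool.Agent.H162R3.NW3

set_option autoImplicit false
open Pool Pool.MP_eb94e1_gt

namespace Pool.Agent.S14163

open Pool.Agent.H162R3.NW Set Topology Cardinal

/-- the well-order of type `ω₂` -/
abbrev W2 : Type := (Order.succ (ℵ_ 1)).ord.ToType

/-- the well-order of type `ω₁` -/
abbrev W1 : Type := (Order.succ ℵ₀).ord.ToType

theorem bdd2 (S : Set W2) (hS : #S ≤ ℵ_ 1) : ∃ b, ∀ s ∈ S, s < b :=
  bdd _ (Cardinal.aleph0_le_aleph 1) S hS

theorem exists_succ (w : W2) : ∃ s : W2, w < s ∧ ∀ ξ, w < ξ → s ≤ ξ := by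
  obtain ⟨b, hb⟩ := bdd2 {w} (by
    rw [Cardinal.mk_singleton]
    exact Cardinal.one_le_aleph0.trans (Cardinal.aleph0_le_aleph 1))
  have hne : (Ioi w).Nonempty := ⟨b, hb w rfl⟩
  exact ⟨WellFounded.min wellFounded_lt _ hne, WellFounded.min_mem wellFounded_lt _ hne,
    fun ξ hξ => not_lt.1 (WellFounded.not_lt_min wellFounded_lt (Ioi w) hξ)⟩

theorem not_uc_succ (w s : W2) (h1 : w < s) (h2 : ∀ ξ, w < ξ → s ≤ ξ) :
    ¬ UC (s : WithTop W2) := by
  intro h
  obtain ⟨γ, hγ, h3⟩ := h {(w : WithTop W2)} (Set.countable_singleton _) (by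
    rintro c rfl
    exact WithTop.coe_lt_coe.2 h1)
  obtain ⟨γ, rfl⟩ := WithTop.ne_top_iff_exists.1 (ne_top_of_lt hγ)
  have h4 := WithTop.coe_lt_coe.1 (h3 _ rfl)
  exact absurd (h2 γ h4) (not_le.2 (WithTop.coe_lt_coe.1 hγ))

/-- There is a normal T1 space in which every open cover has a countable subfamily with dense union, but some family of disjoint nonempty open sets is not met entirely by any Lindelöf subset. -/
theorem result :
    ∃ (X : Type) (_ : TopologicalSpace X), T4Space X ∧
      (∀ 𝒰 : Set (Set X), (∀ U ∈ 𝒰, IsOpen U) → ⋃₀ 𝒰 = Set.univ →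
        ∃ 𝒱 ⊆ 𝒰, 𝒱.Countable ∧ Dense (⋃₀ 𝒱)) ∧
      (∃ 𝒰 : Set (Set X), (∀ U ∈ 𝒰, IsOpen U ∧ U.Nonempty) ∧ 𝒰.PairwiseDisjoint id ∧
        ∀ L : Set X, IsLindelof L → ∃ U ∈ 𝒰, Disjoint U L) := by
  classical
  choose s hs1 hs2 using exists_succ
  have hinj : Function.Injective s := by
    intro a b hab
    rcases lt_trichotomy a b with h | h | h
    · have := (hs2 a b h).trans_lt (hs1 b)
      rw [hab] at this
      exact absurd this (lt_irrefl _)
    · exact h
    · have := (hs2 b a h).trans_lt (hs1 a)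
      rw [hab] at this
      exact absurd this (lt_irrefl _)
  refine ⟨Y (WithTop W2), inferInstance, { toT1Space := inferInstance, toNormalSpace := normal },
    weakLindelof, ?_⟩
  let Wf : W2 → Set (Y (WithTop W2)) := fun w =>
    {y | (y.1 (s w)).2 = true ∧ (y.1 w).1 = true ∧ (y.1 ⊤).1 = false}
  refine ⟨Wf '' {w : W2 | UC (w : WithTop W2)}, ?_, ?_, ?_⟩
  · rintro _ ⟨w, hw, rfl⟩
    constructor
    · have h1 : ∀ x : WithTop W2, Continuous fun y : Y (WithTop W2) => (y.1 x).1 := fun x =>
        continuous_fst.comp ((continuous_apply x).comp continuous_subtype_val)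
      have h2 : ∀ x : WithTop W2, Continuous fun y : Y (WithTop W2) => (y.1 x).2 := fun x =>
        continuous_snd.comp ((continuous_apply x).comp continuous_subtype_val)
      exact ((isOpen_discrete {true}).preimage (h2 (s w))).inter
        (((isOpen_discrete {true}).preimage (h1 w)).inter
          ((isOpen_discrete {false}).preimage (h1 ⊤)))
    · have hc1 : Co (fun x : WithTop W2 => decide (x ≤ (w : WithTop W2))) := by
        intro x hx
        rcases lt_or_ge (w : WithTop W2) x with h | h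
        · refine ⟨w, h, fun ξ h1 h2 => ?_⟩
          simp only
          rw [decide_eq_false (not_le.2 h1), decide_eq_false (not_le.2 h)]
        · obtain ⟨γ, hγ, -⟩ := hx ∅ Set.countable_empty (by simp)
          refine ⟨γ, hγ, fun ξ h1 h2 => ?_⟩
          simp only
          rw [decide_eq_true (h2.trans h), decide_eq_true h]
      have hc2 : Co (fun x : WithTop W2 => decide (x = (s w : WithTop W2))) := by
        intro x hx
        rcases lt_trichotomy (s w : WithTop W2) x with h | h | h
        · refine ⟨s w, h, fun ξ h1 h2 => ?_⟩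
          simp only
          rw [decide_eq_false h1.ne', decide_eq_false h.ne']
        · rw [← h] at hx
          exact absurd hx (not_uc_succ w (s w) (hs1 w) (hs2 w))
        · obtain ⟨γ, hγ, -⟩ := hx ∅ Set.countable_empty (by simp)
          refine ⟨γ, hγ, fun ξ h1 h2 => ?_⟩
          simp only
          rw [decide_eq_false (h2.trans_lt h).ne, decide_eq_false h.ne]
      refine ⟨⟨fun x => (decide (x ≤ (w : WithTop W2)), decide (x = (s w : WithTop W2))),
        hc1.pair hc2, fun ξ η h1 h2 => ?_⟩, ?_, ?_, ?_⟩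
      · simp only [decide_eq_true_eq] at h1 h2
        rw [h1, h2]
      · simp
      · simp
      · simp
  · rintro _ ⟨w, hw, rfl⟩ _ ⟨w', hw', rfl⟩ hne
    have hww : w ≠ w' := fun h => hne (by rw [h])
    show Disjoint (Wf w) (Wf w')
    rw [Set.disjoint_left]
    rintro y ⟨h1, -⟩ ⟨h2, -⟩
    exact hww (hinj (WithTop.coe_injective (y.2.2 _ _ h1 h2)))
  · intro L hL
    by_contra hcon
    push Not at hcon
    refine no_lindelof (W₁ := W1) (W₂ := W2) ?_ ?_ ?_ ?_ bdd2 L hL ?_
    · rw [Cardinal.mk_toType, Cardinal.card_ord, Cardinal.succ_aleph0]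
    · intro i
      rw [← Cardinal.le_aleph0_iff_set_countable]
      exact Order.lt_succ_iff.1 (Cardinal.mk_Iio_toType_ord_lt i)
    · intro S hS
      exact bdd ℵ₀ le_rfl S (Cardinal.le_aleph0_iff_set_countable.2 hS)
    · intro w
      exact Order.lt_succ_iff.1 (Cardinal.mk_Iio_toType_ord_lt w)
    · intro w hw
      have h1 := hcon (Wf w) ⟨w, hw, rfl⟩
      rw [Set.not_disjoint_iff] at h1
      obtain ⟨y, hy, hyL⟩ := h1
      exact ⟨y, hyL, hy.2.1, hy.2.2⟩

end Pool.Agent.S14163
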