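import Pool.Statements.S14166
import Pool.Agent.H764R3.Cube

set_option autoImplicit false
open Pool Pool.MP_eb94e6_gt

namespace Pool.Agent.S14166

/-- The negation of the preceding statement: For every compact Hausdorff space X, the supremum over dense D of the least number of discrete sets whose union is dense in D equals the least number of disjoint families of nonempty open sets whose union is a π-base of X. -/
theorem result :
    ¬ (∀ (X : Type) [TopologicalSpace X], CompactSpace X → T2Space X →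
      (⨆ D : {D : Set X // Dense D},
          sInf {κ : Cardinal.{0} | ∃ (ι : Type) (A : ι → Set X),
            Cardinal.mk ι = κ ∧
            (∀ i, A i ⊆ D.1 ∧ DiscreteTopology ↥(A i)) ∧
            D.1 ⊆ closure (⋃ i, A i)}) =
      sInf {κ : Cardinal.{0} | ∃ (ι : Type) (C : ι → Set (Set X)),
        Cardinal.mk ι = κ ∧
        (∀ i, (C i).PairwiseDisjoint id) ∧
        (∀ i, ∀ U ∈ C i, IsOpen U ∧ U.Nonempty) ∧
        ∀ V : Set X, IsOpen V → V.Nonempty → ∃ i, ∃ U ∈ C i, U ⊆ V}) := by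
  intro H
  have h := H Pool.Agent.H764R3.Cube.X inferInstance inferInstance
  have h1 : (⨆ D : {D : Set Pool.Agent.H764R3.Cube.X // Dense D},
          sInf {κ : Cardinal.{0} | ∃ (ι : Type) (A : ι → Set Pool.Agent.H764R3.Cube.X),
            Cardinal.mk ι = κ ∧
            (∀ i, A i ⊆ D.1 ∧ DiscreteTopology ↥(A i)) ∧
            D.1 ⊆ closure (⋃ i, A i)}) ≤ Cardinal.aleph0 := by
    refine ciSup_le' fun D => csInf_le' ?_
    obtain ⟨F, hF1, hF2⟩ := Pool.Agent.H764R3.Cube.dSeparable (fun _ => D.1) (fun _ => D.2)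
    refine ⟨ℕ, F, Cardinal.mk_nat, hF1, ?_⟩
    rw [hF2.closure_eq]
    exact Set.subset_univ _
  rw [h] at h1
  obtain ⟨ι, C, hι, hC1, hC2, hC3⟩ := csInf_mem (s := {κ : Cardinal.{0} |
      ∃ (ι : Type) (C : ι → Set (Set Pool.Agent.H764R3.Cube.X)),
        Cardinal.mk ι = κ ∧
        (∀ i, (C i).PairwiseDisjoint id) ∧
        (∀ i, ∀ U ∈ C i, IsOpen U ∧ U.Nonempty) ∧
        ∀ V : Set Pool.Agent.H764R3.Cube.X, IsOpen V → V.Nonempty → ∃ i, ∃ U ∈ C i, U ⊆ V}) (by
    refine ⟨_, {U : Set Pool.Agent.H764R3.Cube.X // IsOpen U ∧ U.Nonempty}, fun U => {U.1}, rfl,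
      ?_, ?_, ?_⟩
    · intro U
      exact Set.pairwiseDisjoint_singleton _ _
    · intro U V hV
      rw [Set.mem_singleton_iff.1 hV]
      exact U.2
    · intro V hV1 hV2
      exact ⟨⟨V, hV1, hV2⟩, V, rfl, subset_rfl⟩)
  rw [← hι] at h1
  have : Countable ι := Cardinal.mk_le_aleph0_iff.1 h1
  exact Pool.Agent.H764R3.Cube.no_pibase ι C hC1 hC2 hC3

end Pool.Agent.S14166
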