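import Pool.Statements.S14174
import Pool.Agent.H278R3.BMLower

set_option autoImplicit false
open Pool Pool.MP_ecb7d4_gt

namespace Pool.Agent.S14174

theorem result :
    ¬ (∀ (m n : ℕ), 2 ≤ m → m < n →
    ∀ D : Finset (Fin n × Fin m), (∀ j : Fin m, ∃ i : Fin n, (i, j) ∈ D) →
    ∀ K : Set (ℝ × ℝ), IsCompact K → K.Nonempty →
    K = ⋃ d ∈ D, (fun p : ℝ × ℝ =>
          ((p.1 + ((d.1 : ℕ) : ℝ)) / (n : ℝ), (p.2 + ((d.2 : ℕ) : ℝ)) / (m : ℝ))) '' K →
    ∀ (Y : Type) [MetricSpace Y] (f : K → Y), Function.Injective f →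
    (∃ η : ℝ → ℝ, η 0 = 0 ∧ ContinuousOn η (Set.Ici 0) ∧ StrictMonoOn η (Set.Ici 0) ∧
      ∀ x a b : K, ∀ t : ℝ, 0 ≤ t → dist x a ≤ t * dist x b →
        dist (f x) (f a) ≤ η t * dist (f x) (f b)) →
    dimH (Set.univ : Set K) ≤ dimH (Set.range f)) := by
  intro h
  obtain ⟨mY, hY, hη⟩ := Pool.Agent.H278R3.exists_new_metric
  have h1 := @h 8 64 (by norm_num) (by norm_num) Pool.Agent.H278R3.DD
    (fun j => ⟨⟨0, by norm_num⟩, Pool.Agent.H278R3.DD_zero_mem _ rfl j⟩)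
    Pool.Agent.H278R3.KK Pool.Agent.H278R3.KK_compact Pool.Agent.H278R3.KK_nonempty
    Pool.Agent.H278R3.KK_eq Pool.Agent.H278R3.KK mY id Function.injective_id hη
  have h2 := Pool.Agent.H278R3.dim_upper mY hY
  have h3 := Pool.Agent.H278R3.dim_lower
  have h4 : dimH (Set.univ : Set Pool.Agent.H278R3.KK) = dimH Pool.Agent.H278R3.KK := by
    have := (isometry_subtype_coe (s := Pool.Agent.H278R3.KK)).dimH_image Set.univ
    rw [← this, Set.image_univ, Subtype.range_coe]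
  rw [Set.range_id, h4] at h1
  have h5 := h3.trans (h1.trans h2)
  rw [ENNReal.coe_le_coe, ← NNReal.coe_le_coe] at h5
  push_cast at h5
  norm_num at h5

end Pool.Agent.S14174
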