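import Pool.Statements.S14257
-- import your own Pool.Agent.* helpers here
import Pool.Agent.H275R3.PSType
import Pool.Agent.H275R3.PSGL
import Pool.Agent.H275R3.PSFam

set_option autoImplicit false
open Pool Pool.MP_f7c3cd_gt

namespace Pool.Agent.S14257

/-- Every proper system of at most continuum many congruences among at most continuum many (nonempty index set) sets has a solution: a partition of the hyperbolic plane where each congruence holds via some hyperbolic isometry. -/
theorem result :
    ∀ (I M : Type) (L R : M → Set I),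
      Nonempty I →
      Cardinal.mk I ≤ Cardinal.continuum →
      Cardinal.mk M ≤ Cardinal.continuum →
      (∀ i, (L i).Nonempty ∧ L i ≠ Set.univ ∧ (R i).Nonempty ∧ R i ≠ Set.univ) →
      ∃ A : I → Set UpperHalfPlane,
        Pairwise (fun j k => Disjoint (A j) (A k)) ∧
        (⋃ j, A j) = Set.univ ∧
        ∀ i, ∃ g : IsometryEquiv UpperHalfPlane UpperHalfPlane,
          g '' (⋃ j ∈ L i, A j) = ⋃ j ∈ R i, A j := by
  classical
  intro I M L R hI _ hM hLR
  obtain ⟨i0⟩ := hI
  -- the partition attached to a type function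
  suffices h : ∃ τ : UpperHalfPlane → I, ∀ i, ∃ g : IsometryEquiv UpperHalfPlane UpperHalfPlane,
      ∀ x, τ x ∈ L i ↔ τ (g x) ∈ R i by
    obtain ⟨τ, hτ⟩ := h
    refine ⟨fun j => {x | τ x = j}, ?_, ?_, ?_⟩
    · intro j k hjk
      rw [Set.disjoint_left]
      intro x hx hx'
      rw [Set.mem_ofPred_eq] at hx hx'
      exact hjk (hx.symm.trans hx')
    · ext x
      simp
    · intro i
      obtain ⟨g, hg⟩ := hτ i
      refine ⟨g, ?_⟩
      ext y
      simp only [Set.mem_image, Set.mem_iUnion, Set.mem_ofPred_eq, exists_prop, exists_eq_right']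
      constructor
      · rintro ⟨x, hx, rfl⟩
        exact (hg x).1 hx
      · intro hy
        refine ⟨g.symm y, ?_, g.apply_symm_apply y⟩
        rw [hg, g.apply_symm_apply]
        exact hy
  by_cases hMe : Nonempty M
  swap
  · rw [not_nonempty_iff] at hMe
    exact ⟨fun _ => i0, fun i => (hMe.false i).elim⟩
  obtain ⟨φ, hφ1, hφ2, hφ3⟩ := H275R3.PS.exists_family M hM (fun e => (i0 ∈ L e ↔ i0 ∈ R e))
  let act : MulAction (FreeGroup M) UpperHalfPlane := MulAction.compHom UpperHalfPlane φ
  have hact : ∀ (w : FreeGroup M) (x : UpperHalfPlane), w • x = φ w • x := fun w x => rfl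
  have hdet0 : ∀ w, (φ w).val.det ≠ 0 := by
    intro w
    have := (φ w).det.ne_zero
    exact this
  -- orientation-reversing elements have no fixed points
  have hfix : ∀ (w : FreeGroup M) (x : UpperHalfPlane), w • x = x → 0 < (φ w).val.det := by
    intro w x hx
    by_contra h
    have hneg : (φ w).val.det < 0 := lt_of_le_of_ne (not_lt.1 h) (hdet0 w)
    have htr : (φ w).val.trace = 0 :=
      (UpperHalfPlane.exists_gl_smul_eq_self_iff_trace_eq_zero hneg).1 ⟨x, hx⟩
    have hsq : (φ (w ^ 2)).val = (-(φ w).val.det) • (1 : Matrix (Fin 2) (Fin 2) ℝ) := by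
      rw [map_pow, Units.val_pow_eq_pow_val]
      rw [Matrix.trace_fin_two] at htr
      rw [pow_two, Matrix.det_fin_two]
      have e1 : (φ w).val 1 1 = - (φ w).val 0 0 := by linarith
      ext i j
      fin_cases i <;> fin_cases j <;>
        simp [Matrix.mul_apply, Fin.sum_univ_two, e1] <;> ring
    have h1 : w ^ 2 = 1 := hφ3 _ ⟨_, hsq⟩
    have h2 : w = 1 := by
      have h3 : w ^ 2 = 1 ^ 2 := by rw [h1, one_pow]
      exact pow_left_injective two_ne_zero h3
    rw [h2, map_one] at hneg
    simp at hneg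
    linarith
  have hstab : ∀ (x : UpperHalfPlane) (z z' : FreeGroup M), z • x = x → z' • x = x →
      z * z' = z' * z := by
    intro x z z' hz hz'
    have h1 := H275R3.PS.commute_of_fix (hfix z x hz) (hfix z' x hz') hz hz'
    have h2 : φ (z * z' * (z' * z)⁻¹) = 1 := by
      rw [map_mul, map_inv, map_mul, map_mul, h1, mul_inv_cancel]
    have h3 := hφ3 _ ⟨1, by rw [h2, one_smul]; rfl⟩
    exact mul_inv_eq_one.1 h3
  -- the sign potential
  let base : UpperHalfPlane → UpperHalfPlane := fun x =>
    (Quotient.out (Quotient.mk (MulAction.orbitRel (FreeGroup M) UpperHalfPlane) x))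
  have hbase : ∀ x, ∃ u : FreeGroup M, u • base x = x := by
    intro x
    have h1 : Quotient.mk (MulAction.orbitRel (FreeGroup M) UpperHalfPlane) (base x)
        = Quotient.mk (MulAction.orbitRel (FreeGroup M) UpperHalfPlane) x := Quotient.out_eq _
    have h2 := Quotient.exact h1
    have h3 : base x ∈ MulAction.orbit (FreeGroup M) x := h2
    obtain ⟨u, hu⟩ := h3
    refine ⟨u⁻¹, ?_⟩
    rw [← hu]; simp
  choose U hU using hbase
  have hbase2 : ∀ (g : FreeGroup M) (x : UpperHalfPlane), base (g • x) = base x := by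
    intro g x
    have h1 : Quotient.mk (MulAction.orbitRel (FreeGroup M) UpperHalfPlane) (g • x)
        = Quotient.mk (MulAction.orbitRel (FreeGroup M) UpperHalfPlane) x := by
      apply Quotient.sound
      exact ⟨g, rfl⟩
    simp only [base, h1]
  have hs : ∀ (e : M) (x : UpperHalfPlane),
      (0 < (φ (U ((FreeGroup.of e) • x))).val.det) ↔
        (0 < (φ (U x)).val.det ↔ (i0 ∈ L e ↔ i0 ∈ R e)) := by
    intro e x
    rw [← hφ1 e]
    set z : FreeGroup M := (FreeGroup.of e * U x)⁻¹ * U ((FreeGroup.of e) • x) with hz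
    have hz1 : z • base x = base x := by
      have h1 := hU ((FreeGroup.of e) • x)
      rw [hbase2] at h1
      rw [hz, mul_smul, h1, inv_smul_eq_iff, mul_smul, hU x]
    have hzpos := hfix z _ hz1
    have h3 : U ((FreeGroup.of e) • x) = FreeGroup.of e * U x * z := by rw [hz]; group
    rw [h3, map_mul, map_mul, Units.val_mul, Units.val_mul, Matrix.det_mul, Matrix.det_mul,
      mul_pos_iff_of_pos_right hzpos]
    rcases lt_or_gt_of_ne (hdet0 (FreeGroup.of e)) with h4 | h4
    · rcases lt_or_gt_of_ne (hdet0 (U x)) with h5 | h5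
      · have h6 := mul_pos_of_neg_of_neg h4 h5
        have h7 : ¬ 0 < (φ (FreeGroup.of e)).val.det := not_lt.2 h4.le
        have h8 : ¬ 0 < (φ (U x)).val.det := not_lt.2 h5.le
        tauto
      · have h6 : ¬ 0 < (φ (FreeGroup.of e)).val.det * (φ (U x)).val.det :=
          not_lt.2 (mul_neg_of_neg_of_pos h4 h5).le
        have h7 : ¬ 0 < (φ (FreeGroup.of e)).val.det := not_lt.2 h4.le
        tauto
    · rw [mul_pos_iff_of_pos_left h4]
      simp only [h4, iff_true]
  obtain ⟨τ, hτ⟩ := H275R3.PS.exists_types hstab L R i0 hLR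
    (fun x => 0 < (φ (U x)).val.det) hs
  exact ⟨τ, fun i => ⟨H275R3.PS.glIso (φ (FreeGroup.of i)), fun x => hτ i x⟩⟩

end Pool.Agent.S14257
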