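import Pool.Statements.S14275
import Pool.Agent.Helper75.GS.P_los

set_option autoImplicit false
open Pool Pool.MP_faf39c_gt

namespace Pool.Agent.S14275

/-- the coarsest topology making all homomorphisms to the discrete group of integers continuous -/
@[instance_reducible] def TT (G : Type) [AddCommGroup G] : TopologicalSpace G :=
  ⨅ f : G →+ ℤ, TopologicalSpace.induced f inferInstance

/-- sequences of bits -/
abbrev I : Type := ℕ → Bool

/-- step functions -/
def step (p : Σ n : ℕ, ((Fin n → Bool) →₀ ℤ)) : I → ℤ := fun α => p.2 (fun i => α i)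

theorem exists_sep (F : Finset I) : ∃ n : ℕ, ∀ α ∈ F, ∀ β ∈ F,
    (∀ i : Fin n, α i = β i) → α = β := by
  classical
  have h : ∀ p : I × I, ∃ n : ℕ, (∀ i : Fin n, p.1 i = p.2 i) → p.1 = p.2 := by
    intro p
    by_cases hp : p.1 = p.2
    · exact ⟨0, fun _ => hp⟩
    · obtain ⟨m, hm⟩ := Function.ne_iff.mp hp
      exact ⟨m + 1, fun hh => absurd (hh ⟨m, by omega⟩) hm⟩
  choose N hN using h
  refine ⟨(F ×ˢ F).sup N, fun α hα β hβ hab => hN (α, β) ?_⟩
  intro i
  have hle : N (α, β) ≤ (F ×ˢ F).sup N :=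
    Finset.le_sup (f := N) (Finset.mk_mem_product hα hβ)
  exact hab ⟨i, lt_of_lt_of_le i.2 hle⟩

theorem dense_pi : Dense (Set.range step) := by
  classical
  rw [dense_iff_inter_open]
  rintro U hU ⟨x, hx⟩
  rw [isOpen_pi_iff] at hU
  obtain ⟨F, u, hu, hsub⟩ := hU x hx
  obtain ⟨n, hn⟩ := exists_sep F
  let g : (Fin n → Bool) → ℤ := fun s =>
    if h : ∃ α ∈ F, (fun i : Fin n => α i) = s then x h.choose else 0
  refine ⟨step ⟨n, Finsupp.equivFunOnFinite.symm g⟩, ?_, ⟨_, rfl⟩⟩
  apply hsub
  intro α hα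
  have h : ∃ β ∈ F, (fun i : Fin n => β i) = (fun i : Fin n => α i) := ⟨α, hα, rfl⟩
  have e : step ⟨n, Finsupp.equivFunOnFinite.symm g⟩ α = x α := by
    show g (fun i : Fin n => α i) = x α
    simp only [g]
    rw [dif_pos h]
    congr 1
    apply hn _ h.choose_spec.1 _ hα
    intro i
    exact congrFun h.choose_spec.2 i
  rw [e]
  exact (hu α hα).2

theorem hom_cont (h : (I → ℤ) →+ ℤ) : Continuous h := by
  classical
  obtain ⟨F, hF⟩ := Pool.Agent.Helper75.GS.los I (fun α n => α n) (fun a b hab => hab) h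
  have key : ∀ f g : I → ℤ, (∀ α ∈ F, f α = g α) → h f = h g := by
    intro f g hfg
    have := hF (f - g) (fun α hα => by simp [hfg α hα])
    rw [map_sub] at this
    linarith
  rw [continuous_discrete_rng]
  intro c
  rw [isOpen_pi_iff]
  intro f hf
  refine ⟨F, fun α => {f α}, fun α _ => ⟨isOpen_discrete _, rfl⟩, ?_⟩
  intro g hg
  rw [Set.mem_preimage, Set.mem_singleton_iff] at hf ⊢
  rw [← hf]
  exact key g f (fun α hα => hg α hα)

theorem pi_le : (inferInstance : TopologicalSpace (I → ℤ)) ≤ TT (I → ℤ) := by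
  unfold TT
  rw [le_iInf_iff]
  intro h
  exact continuous_iff_le_induced.mp (hom_cont h)

/-- There is a rule giving every abelian group a group topology, with all homomorphisms continuous, and an infinite abelian group that is Hausdorff in it and has a dense subset D with 2^∣D∣ < ∣G∣. -/
theorem result :
    ∃ T : (G : Type) → [AddCommGroup G] → TopologicalSpace G,
      (∀ (G : Type) [AddCommGroup G], @IsTopologicalAddGroup G (T G) _) ∧
      (∀ (G H : Type) [AddCommGroup G] [AddCommGroup H] (f : G →+ H),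
          @Continuous G H (T G) (T H) f) ∧
      ∃ (G : Type) (_ : AddCommGroup G), Infinite G ∧ @T2Space G (T G) ∧
        ∃ D : Set G, @Dense G (T G) D ∧
          (2 : Cardinal) ^ Cardinal.mk ↥D < Cardinal.mk G := by
  refine ⟨fun G _ => TT G, ?_, ?_, I → ℤ, inferInstance, inferInstance, ?_, Set.range step, ?_, ?_⟩
  · intro G _
    apply topologicalAddGroup_iInf
    intro f
    exact topologicalAddGroup_induced f
  · intro G H _ _ f
    unfold TT
    rw [continuous_iInf_rng]
    intro g
    rw [continuous_induced_rng]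
    apply continuous_iInf_dom (i := g.comp f)
    exact continuous_induced_dom
  · let _ : TopologicalSpace (I → ℤ) := TT (I → ℤ)
    refine ⟨fun x y hxy => ?_⟩
    obtain ⟨α, hα⟩ := Function.ne_iff.mp hxy
    have hc : @Continuous (I → ℤ) ℤ (TT (I → ℤ)) inferInstance (Pi.evalAddMonoidHom (fun _ : I => ℤ) α) := by
      apply continuous_iInf_dom (i := Pi.evalAddMonoidHom (fun _ : I => ℤ) α)
      exact continuous_induced_dom
    obtain ⟨u, v, hu, hv, hxu, hyv, huv⟩ := t2_separation (show (Pi.evalAddMonoidHom (fun _ : I => ℤ) α) x ≠ (Pi.evalAddMonoidHom (fun _ : I => ℤ) α) y from hα)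
    exact ⟨_, _, hu.preimage hc, hv.preimage hc, hxu, hyv, huv.preimage _⟩
  · have h1 := dense_pi
    intro x
    have h2 := h1 x
    rw [@mem_closure_iff _ (TT (I → ℤ))]
    intro o ho hxo
    rw [mem_closure_iff] at h2
    exact h2 o (pi_le o ho) hxo
  · have hD : Cardinal.mk (Set.range step) ≤ Cardinal.aleph0 := by
      rw [Cardinal.le_aleph0_iff_set_countable]
      exact Set.countable_range _
    calc (2 : Cardinal) ^ Cardinal.mk (Set.range step) ≤ 2 ^ Cardinal.aleph0 :=
          Cardinal.power_le_power_left (by norm_num) hD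
      _ < 2 ^ ((2 : Cardinal) ^ Cardinal.aleph0) := Cardinal.cantor _
      _ = 2 ^ Cardinal.mk I := by simp [I]
      _ ≤ Cardinal.mk ℤ ^ Cardinal.mk I := by
          apply Cardinal.power_le_power_right
          simp
      _ = Cardinal.mk (I → ℤ) := by simp

end Pool.Agent.S14275
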