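import Pool.Statements.S14325
import Pool.Agent.H534R3.Red
import Pool.Agent.H534R3.PiThree

set_option autoImplicit false
open Pool Pool.MP_0447a2_lc

namespace Pool.Agent.S14325

open Pool.Agent.H534R3

/-- For a monic irreducible integer P whose p>1 roots of modulus >1 are all real, in any order, and 0<a<p, the set of ξ in R^a making the sum of ξ_i α_i^n u.d. mod 1 is Π⁰₃ and every Π⁰₃ subset of Baire space continuously reduces to it. -/
theorem result :
    ∀ (P : Polynomial ℤ), P.Monic → Irreducible P →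
      (∀ z : ℂ, Polynomial.aeval z P = 0 → 1 < ‖z‖ → z.im = 0) →
      ∀ (p : ℕ) (α : Fin p → ℝ), Function.Injective α →
        Set.range α = {x : ℝ | Polynomial.aeval x P = 0 ∧ 1 < |x|} →
        1 < p →
        ∀ (a : ℕ), 0 < a → ∀ (hap : a < p),
          ∀ A : Set (Fin a → ℝ),
            A = {ξ : Fin a → ℝ | ∀ s t : ℝ, 0 ≤ s → s ≤ t → t ≤ 1 →
              Filter.Tendsto
                (fun N : ℕ =>
                  (((Finset.range N).filter (fun n =>
                      s ≤ Int.fract (∑ i : Fin a, ξ i * α (Fin.castLE hap.le i) ^ n) ∧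
                      Int.fract (∑ i : Fin a, ξ i * α (Fin.castLE hap.le i) ^ n) < t)).card : ℝ)
                    / (N : ℝ))
                Filter.atTop (nhds (t - s))} →
            (∃ F : ℕ → ℕ → Set (Fin a → ℝ), (∀ i j, IsClosed (F i j)) ∧ A = ⋂ i, ⋃ j, F i j) ∧
            (∀ B : Set (ℕ → ℕ),
              (∃ G : ℕ → ℕ → Set (ℕ → ℕ), (∀ i j, IsClosed (G i j)) ∧ B = ⋂ i, ⋃ j, G i j) →
              ∃ f : (ℕ → ℕ) → (Fin a → ℝ), Continuous f ∧ B = f ⁻¹' A) := by
  intro P _ _ _ p α _ hαr _ a ha hap A hA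
  constructor
  · obtain ⟨F, hF, hAF⟩ := UDist.ud_piThree
      (fun (ξ : Fin a → ℝ) (n : ℕ) => ∑ i : Fin a, ξ i * α (Fin.castLE hap.le i) ^ n)
      (fun n => by fun_prop)
    exact ⟨F, hF, hA.trans hAF⟩
  · rintro B ⟨G, hG, hB⟩
    obtain ⟨h, hh, hhB⟩ := UDist.reduce_closed (fun y : ℕ → ℕ => y) Topology.IsInducing.id G hG
    set i₀ : Fin a := ⟨0, ha⟩ with hi₀
    set α₀ : ℝ := α (Fin.castLE hap.le i₀) with hα₀
    have hα₀1 : 1 < |α₀| := by
      have h1 : α₀ ∈ Set.range α := ⟨_, rfl⟩
      rw [hαr] at h1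
      exact h1.2
    obtain ⟨g, hg, hg1, hg2⟩ := UDist.reduce_family (fun _ => α₀) (fun _ => hα₀1)
    refine ⟨fun y i => if i = i₀ then g (h y) else 0, ?_, ?_⟩
    · refine continuous_pi fun i => ?_
      by_cases hi : i = i₀
      · simp only [hi, if_true]
        exact hg.comp hh
      · simp only [hi, if_false]
        exact continuous_const
    · ext y
      have hsum : ∀ n : ℕ, ∑ i : Fin a, (if i = i₀ then g (h y) else 0) *
          α (Fin.castLE hap.le i) ^ n = g (h y) * α₀ ^ n := by
        intro n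
        rw [Finset.sum_eq_single i₀]
        · rw [if_pos rfl]
        · intro i _ hi
          rw [if_neg hi, zero_mul]
        · intro h'
          exact absurd (Finset.mem_univ _) h'
      have hmem : (fun i => if i = i₀ then g (h y) else 0) ∈ A ↔
          UDist.UD (fun n => g (h y) * α₀ ^ n) := by
        rw [hA]
        change UDist.UD (fun n => ∑ i : Fin a, (if i = i₀ then g (h y) else 0) *
          α (Fin.castLE hap.le i) ^ n) ↔ _
        simp_rw [hsum]
      rw [Set.mem_preimage, hmem, hB, hhB]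
      constructor
      · intro h1
        exact hg1 _ h1 0
      · intro h1
        by_contra h2
        exact hg2 _ h2 h1

end Pool.Agent.S14325
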