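import Pool.Statements.S14335
import Pool.Agent.Helper737.Final

set_option autoImplicit false
open Pool Pool.MP_064548_lc

namespace Pool.Agent.S14335

/-- In `K[W, Z]` the form `a ^ 2 - Z * b ^ 2` is anisotropic. -/
theorem aniso {K : Type} [Field K] (a b : MvPolynomial (Fin 2) K)
    (h : a ^ 2 - MvPolynomial.X 1 * b ^ 2 = 0) : a = 0 ∧ b = 0 := by
  have h' : a ^ 2 = MvPolynomial.X 1 * b ^ 2 := sub_eq_zero.1 h
  by_cases hb : b = 0
  · subst hb
    refine ⟨?_, rfl⟩
    have : a ^ 2 = 0 := by rw [h']; ring
    exact pow_eq_zero_iff (two_ne_zero) |>.1 this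
  · exfalso
    have ha : a ≠ 0 := by
      rintro rfl
      have h0 : (MvPolynomial.X 1 : MvPolynomial (Fin 2) K) * b ^ 2 = 0 := by rw [← h']; ring
      rcases mul_eq_zero.1 h0 with h1 | h1
      · exact MvPolynomial.X_ne_zero 1 h1
      · exact hb (pow_eq_zero_iff (two_ne_zero) |>.1 h1)
    have e := congrArg MvPolynomial.totalDegree h'
    rw [sq, sq, MvPolynomial.totalDegree_mul_of_isDomain ha ha,
      MvPolynomial.totalDegree_mul_of_isDomain (MvPolynomial.X_ne_zero 1) (mul_ne_zero hb hb),
      MvPolynomial.totalDegree_mul_of_isDomain hb hb, MvPolynomial.totalDegree_X] at e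
    omega

/-- One polynomial whose zeros are the common zeros of a list of polynomials. -/
noncomputable def comb {K σ : Type} [Field K] :
    List (MvPolynomial σ (MvPolynomial (Fin 2) K)) → MvPolynomial σ (MvPolynomial (Fin 2) K)
  | [] => 0
  | p :: L => p ^ 2 - MvPolynomial.C (MvPolynomial.X 1) * (comb L) ^ 2

theorem eval_comb {K σ : Type} [Field K] (v : σ → MvPolynomial (Fin 2) K) :
    ∀ L : List (MvPolynomial σ (MvPolynomial (Fin 2) K)),
      MvPolynomial.eval v (comb L) = 0 ↔ ∀ p ∈ L, MvPolynomial.eval v p = 0
  | [] => by simp [comb]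
  | p :: L => by
    rw [comb, map_sub, map_mul, map_pow, map_pow, MvPolynomial.eval_C]
    constructor
    · intro h
      obtain ⟨h1, h2⟩ := aniso _ _ h
      intro q hq
      rcases List.mem_cons.1 hq with rfl | hq
      · exact h1
      · exact (eval_comb v L).1 h2 q hq
    · intro h
      rw [h p (List.mem_cons_self), (eval_comb v L).2 fun q hq => h q (List.mem_cons_of_mem _ hq)]
      ring

/-- The renaming of the variables. -/
def ren (n m : ℕ) : Option (Fin n ⊕ Fin m) → Option (Fin (n + 1)) ⊕ Fin m
  | none => Sum.inl none
  | some (Sum.inl a) => Sum.inl (some a.castSucc)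
  | some (Sum.inr b) => Sum.inr b


/-- For every finite field K there are n ≥ 1 and a polynomial equation over K[W,Z] defining α(f,g) with g in K[Z]^n, such that every f has some g with α(f,g) and each g is related to only finitely many f. -/
theorem result :
    ∀ (K : Type) [Field K] [Finite K],
      ∃ n : ℕ, 0 < n ∧ ∃ k : ℕ,
        ∃ P : MvPolynomial (Option (Fin n) ⊕ Fin k) (MvPolynomial (Fin 2) K),
          (∀ f : MvPolynomial (Fin 2) K, ∃ g : Fin n → Polynomial K,
            ∃ y : Fin k → MvPolynomial (Fin 2) K,
              MvPolynomial.eval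
                (Sum.elim
                  (fun o : Option (Fin n) =>
                    Option.elim o f
                      (fun i => Polynomial.aeval (MvPolynomial.X 1 : MvPolynomial (Fin 2) K) (g i)))
                  y) P = 0) ∧
          (∀ g : Fin n → Polynomial K,
            {f : MvPolynomial (Fin 2) K |
              ∃ y : Fin k → MvPolynomial (Fin 2) K,
                MvPolynomial.eval
                  (Sum.elim
                    (fun o : Option (Fin n) =>
                      Option.elim o f
                        (fun i => Polynomial.aeval (MvPolynomial.X 1 : MvPolynomial (Fin 2) K) (g i)))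
                    y) P = 0}.Finite) := by
  intro K _ _
  haveI : Fintype K := Fintype.ofFinite K
  obtain ⟨n, m, k, P, h1, h2⟩ := Pool.Agent.Helper737.FF.main K
  have key : ∀ (f : MvPolynomial (Fin 2) K) (g : Fin (n + 1) → Polynomial K)
      (y : Fin m → MvPolynomial (Fin 2) K),
      MvPolynomial.eval
        (Sum.elim
          (fun o : Option (Fin (n + 1)) =>
            Option.elim o f
              (fun i => Polynomial.aeval (MvPolynomial.X 1 : MvPolynomial (Fin 2) K) (g i)))
          y) (MvPolynomial.rename (ren n m) (comb (List.ofFn P))) = 0 ↔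
      ∀ j : Fin k,
            MvPolynomial.eval
              (fun i => Option.elim i f
                (Sum.elim (fun a => Polynomial.aeval (MvPolynomial.X 1 : MvPolynomial (Fin 2) K)
                  (g a.castSucc)) y))
              (P j) = 0 := by
    intro f g y
    rw [MvPolynomial.eval_rename]
    have e : (Sum.elim
          (fun o : Option (Fin (n + 1)) =>
            Option.elim o f
              (fun i => Polynomial.aeval (MvPolynomial.X 1 : MvPolynomial (Fin 2) K) (g i)))
          y) ∘ ren n m = (fun i => Option.elim i f
                (Sum.elim (fun a => Polynomial.aeval (MvPolynomial.X 1 : MvPolynomial (Fin 2) K)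
                  (g a.castSucc)) y)) := by
      funext i
      rcases i with _ | (a | b) <;> rfl
    rw [e, eval_comb]
    constructor
    · intro h j
      exact h _ (List.mem_ofFn.2 ⟨j, rfl⟩)
    · intro h p hp
      obtain ⟨j, rfl⟩ := List.mem_ofFn.1 hp
      exact h j
  refine ⟨n + 1, Nat.succ_pos n, m, MvPolynomial.rename (ren n m) (comb (List.ofFn P)), ?_, ?_⟩
  · intro f
    obtain ⟨g, y, h⟩ := h1 f
    refine ⟨Fin.snoc g 0, y, ?_⟩
    rw [key]
    intro j
    have e : (fun a : Fin n => Polynomial.aeval (MvPolynomial.X 1 : MvPolynomial (Fin 2) K)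
        ((Fin.snoc g 0 : Fin (n + 1) → Polynomial K) a.castSucc)) =
        fun a => Polynomial.aeval (MvPolynomial.X 1 : MvPolynomial (Fin 2) K) (g a) := by
      funext a
      rw [Fin.snoc_castSucc]
    rw [e]
    exact h j
  · intro g
    refine (h2 fun a => g a.castSucc).subset ?_
    rintro f ⟨y, hy⟩
    exact ⟨y, (key f g y).1 hy⟩

end Pool.Agent.S14335
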