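import Pool.Statements.S14341
import Pool.Agent.H139R3.BO.Fin

set_option autoImplicit false
open Pool Pool.MP_07d4a7_lc

namespace Pool.Agent.S14341

open Pool.Agent.H139R3 Pool.Agent.H139R3.BO in
/-- Every countable Borel equivalence relation on a standard Borel space Borel-reduces to isomorphism of finitely generated bi-orderable groups, coded as marked quotients of the free group on countably many generators. -/
theorem result :
  ∀ (X : Type) [MeasurableSpace X] [StandardBorelSpace X] (E : X → X → Prop),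
    Equivalence E → MeasurableSet {p : X × X | E p.1 p.2} →
    (∀ x : X, {y : X | E x y}.Countable) →
    ∃ f : X → (FreeGroup ℕ → Bool), Measurable f ∧
      (∀ x : X,
        (∀ g : FreeGroup ℕ, f x g = true ↔
            g ∈ Subgroup.normalClosure {h : FreeGroup ℕ | f x h = true}) ∧
        (∃ n : ℕ, ∀ i : ℕ, n ≤ i → f x (FreeGroup.of i) = true) ∧
        (∃ o : LinearOrder (FreeGroup ℕ ⧸ Subgroup.normalClosure {h : FreeGroup ℕ | f x h = true}),
          ∀ a b c : FreeGroup ℕ ⧸ Subgroup.normalClosure {h : FreeGroup ℕ | f x h = true},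
            o.le a b → o.le (c * a) (c * b) ∧ o.le (a * c) (b * c))) ∧
      ∀ x y : X, E x y ↔
        Nonempty ((FreeGroup ℕ ⧸ Subgroup.normalClosure {h : FreeGroup ℕ | f x h = true}) ≃*
          (FreeGroup ℕ ⧸ Subgroup.normalClosure {h : FreeGroup ℕ | f y h = true})) := by
  classical
  intro Y _ _ R hR hm hc
  obtain ⟨s, hsm, hs, hsR⟩ := FM.feldman_moore R hR hm hc
  obtain ⟨d, hd, hdinj⟩ :=
    MeasurableSpace.measurable_injection_nat_bool_of_countablySeparated (Y × ℤ)
  let X : Y → F → ℕ → Bool := fun y c n => d (ac s hs c⁻¹ (y, 0)) n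
  have hX : ∀ c n, Measurable (fun y => X y c n) := fun c n =>
    (measurable_pi_apply n).comp (hd.comp ((measurable_ac s hs hsm c⁻¹).comp
      (measurable_id.prodMk measurable_const)))
  let f : Y → (FreeGroup ℕ → Bool) := fun y h => decide (rX (PX (X y)) h = 1)
  have hf : ∀ y h, f y h = true ↔ rX (PX (X y)) h = 1 := fun y h => decide_eq_true_iff
  have hker : ∀ y, Subgroup.normalClosure {h : FreeGroup ℕ | f y h = true} =
      (rX (PX (X y))).ker := by
    intro y
    have e : {h : FreeGroup ℕ | f y h = true} = ((rX (PX (X y))).ker : Set (FreeGroup ℕ)) := by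
      ext h
      show f y h = true ↔ rX (PX (X y)) h = 1
      exact hf y h
    rw [e]
    exact Subgroup.normalClosure_eq_self _
  have hiso : ∀ y, Nonempty ((FreeGroup ℕ ⧸ Subgroup.normalClosure {h : FreeGroup ℕ | f y h = true})
      ≃* (rX (PX (X y))).range) := fun y => ⟨quoRange _ _ (hker y)⟩
  refine ⟨f, ?_, ?_, ?_⟩
  · rw [measurable_pi_iff]
    intro h
    refine measurable_to_bool ?_
    have e : (fun y => f y h) ⁻¹' {true} = {y | rX (PX (X y)) h = 1} := by
      ext y
      exact hf y h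
    rw [e]
    exact measurable_rX X hX h
  · intro y
    refine ⟨?_, ⟨4, ?_⟩, ?_⟩
    · intro g
      rw [hker, hf]
      rfl
    · intro i hi
      rw [hf, rX_of]
      match i, hi with
      | (n + 4), _ => rfl
    · obtain ⟨φ⟩ := hiso y
      exact exists_order (PX (X y)) (((rX (PX (X y))).range.subtype).comp φ.toMonoidHom)
        (Subtype.val_injective.comp φ.injective)
  · intro y z
    have h1 : Nonempty ((FreeGroup ℕ ⧸ Subgroup.normalClosure {h : FreeGroup ℕ | f y h = true}) ≃*
          (FreeGroup ℕ ⧸ Subgroup.normalClosure {h : FreeGroup ℕ | f z h = true})) ↔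
        Nonempty ((rX (PX (X y))).range ≃* (rX (PX (X z))).range) := by
      obtain ⟨φ⟩ := hiso y
      obtain ⟨ψ⟩ := hiso z
      constructor
      · rintro ⟨t⟩
        exact ⟨(φ.symm.trans t).trans ψ⟩
      · rintro ⟨t⟩
        exact ⟨(φ.trans t).trans ψ.symm⟩
    rw [h1]
    constructor
    · intro h
      obtain ⟨k, hk⟩ := (hsR y z).1 h
      refine iso_of_shift _ _ ((ga ^ k)⁻¹ * gb * ga ^ k) ?_
      intro c n
      show d (ac s hs c⁻¹ (y, 0)) n = d (ac s hs (((ga ^ k)⁻¹ * gb * ga ^ k) * c)⁻¹ (z, 0)) n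
      have e : ac s hs ((ga ^ k)⁻¹ * gb * ga ^ k)⁻¹ (z, 0) = (y, 0) := by
        rw [map_inv, Equiv.Perm.inv_eq_iff_eq, ac_move, hk]
      rw [mul_inv_rev, map_mul, Equiv.Perm.mul_apply, e]
    · intro h
      obtain ⟨c0, hc0⟩ := shift_of_iso _ _ h
      have h2 : (y, (0 : ℤ)) = ac s hs c0⁻¹ (z, 0) := by
        apply hdinj
        funext n
        have h3 : d (ac s hs 1⁻¹ (y, 0)) n = d (ac s hs (c0 * 1)⁻¹ (z, 0)) n := hc0 1 n
        rw [inv_one, map_one, mul_one] at h3
        exact h3
      have h4 := ac_rel s hs R hR (fun n x => (hsR x _).2 ⟨n, rfl⟩) c0⁻¹ (z, 0)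
      rw [← h2] at h4
      exact hR.symm h4

end Pool.Agent.S14341
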