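import Pool.Statements.S14396
-- import your own Pool.Agent.* helpers here
import Pool.Agent.H367R2.H10.Fin3

set_option autoImplicit false
open Pool Pool.MP_11ee63_lc

namespace Pool.Agent.S14396

open Polynomial Pool.Agent.H367R2.H10

/-- homogenisation with integer coefficients, variable `0` is the denominator -/
def homZ (D : ℕ) (l : List (ℤ × List ℕ)) : List (ℤ × List ℕ) :=
  l.map fun m => (m.1, m.2.map (fun i => i + 1) ++ List.replicate (D - m.2.length) 0)

theorem evL_homZ {K : Type} [Field K] (y z : ℕ → K) (hyz : ∀ i, y (i + 1) = y 0 * z i) (D : ℕ)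
    (l : List (ℤ × List ℕ)) (hD : ∀ m ∈ l, m.2.length ≤ D) :
    evL y (homZ D l) = y 0 ^ D * evL z l := by
  induction l with
  | nil => simp [homZ, evL]
  | cons m l ih =>
    have ih' := ih fun m' hm' => hD m' (List.mem_cons_of_mem _ hm')
    have hm := hD m (List.mem_cons_self ..)
    have e1 : homZ D (m :: l) =
        (m.1, m.2.map (fun i => i + 1) ++ List.replicate (D - m.2.length) 0) :: homZ D l := rfl
    rw [e1, evL_cons, evL_cons, mul_add, ← ih']
    rw [List.map_append, List.prod_append, prod_shift y z hyz, List.map_replicate,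
      List.prod_replicate]
    have h0 : y 0 ^ D = y 0 ^ m.2.length * y 0 ^ (D - m.2.length) := by
      rw [← pow_add]
      congr 1
      omega
    rw [h0]
    ring

theorem evL_homZ_eq {K : Type} [Field K] (y z : ℕ → K) (hyz : ∀ i, y (i + 1) = y 0 * z i)
    (hy : y 0 ≠ 0) (D : ℕ) (l : List (ℤ × List ℕ)) (hD : ∀ m ∈ l, m.2.length ≤ D) :
    evL y (homZ D l) = 0 ↔ evL z l = 0 := by
  rw [evL_homZ y z hyz D l hD, mul_eq_zero]
  constructor
  · rintro (h | h)
    · exact absurd h (pow_ne_zero _ hy)
    · exact h
  · exact Or.inr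

/-- the equation `x 2 * x 0 ^ (e - 1) = x 1 ^ e` -/
def powEqZ (e : ℕ) : List (ℤ × List ℕ) :=
  [(1, 2 :: List.replicate (e - 1) 0), (-1, List.replicate e 1)]

theorem evL_powEqZ {K : Type} [Field K] (y z : ℕ → K) (hyz : ∀ i, y (i + 1) = y 0 * z i)
    (hy : y 0 ≠ 0) (e : ℕ) (he : 0 < e) :
    evL y (powEqZ e) = 0 ↔ evL z (powEq e) = 0 := by
  have h2 : y 2 = y 0 * z 1 := hyz 1
  have h1 : y 1 = y 0 * z 0 := hyz 0
  have h3 : y 0 ^ e = y 0 * y 0 ^ (e - 1) := by
    rw [← pow_succ']
    congr 1
    omega
  have key : evL y (powEqZ e) = y 0 ^ e * evL z (powEq e) := by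
    rw [evL_powEq]
    simp only [evL, powEqZ, List.map_cons, List.map_nil, List.prod_cons, List.sum_cons,
      List.sum_nil, add_zero, List.map_replicate, List.prod_replicate]
    rw [h2, h1, mul_pow, mul_sub, h3]
    push_cast
    ring
  rw [key, mul_eq_zero]
  constructor
  · rintro (h | h)
    · exact absurd h (pow_ne_zero _ hy)
    · exact h
  · exact Or.inr

/-- For every prime `p` the existential theory of `F_p[t]_(t)` is undecidable. -/
theorem main (p : ℕ) [Fact p.Prime] : ¬ ComputablePred
        (fun q : List (List (ℤ × List ℕ)) × List (ℤ × List ℕ) =>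
          ∃ a b : ℕ → Polynomial (ZMod p),
            (∀ i, (b i).eval 0 ≠ 0) ∧
            (∀ f ∈ q.1,
              (f.map (fun m => (m.1 : RatFunc (ZMod p)) *
                (m.2.map (fun i =>
                  algebraMap (Polynomial (ZMod p)) (RatFunc (ZMod p)) (a i) /
                  algebraMap (Polynomial (ZMod p)) (RatFunc (ZMod p)) (b i))).prod)).sum = 0) ∧
            (q.2.map (fun m => (m.1 : RatFunc (ZMod p)) *
                (m.2.map (fun i =>
                  algebraMap (Polynomial (ZMod p)) (RatFunc (ZMod p)) (a i) /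
                  algebraMap (Polynomial (ZMod p)) (RatFunc (ZMod p)) (b i))).prod)).sum ≠ 0) := by
  classical
  obtain ⟨S, H, hS, hH, h⟩ := main_Fp p
  obtain ⟨N, L0, hN, hb, hL⟩ := exists_system S hS
  have hp : 0 < p := (Fact.out : p.Prime).pos
  have henc : Computable fun n : ℕ =>
      ((powEqZ (p ^ n) :: L0.map (fun l => homZ (degB l) l), [((1 : ℤ), [0])]) :
        List (List (ℤ × List ℕ)) × List (ℤ × List ℕ)) := by
    have h0 : Computable fun n : ℕ => p ^ n - 1 :=
      (Primrec.nat_sub.to_comp.comp (computable_pow p) (Computable.const 1))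
    have h1 : Computable fun n : ℕ => List.replicate (p ^ n - 1) 0 :=
      (computable_replicate 0).comp h0
    have h2 : Computable fun n : ℕ => ((1 : ℤ), 2 :: List.replicate (p ^ n - 1) 0) :=
      (Computable.const (1 : ℤ)).pair (Computable.list_cons.comp (Computable.const 2) h1)
    have h3 : Computable fun n : ℕ => ((-1 : ℤ), List.replicate (p ^ n) 1) :=
      (Computable.const (-1 : ℤ)).pair ((computable_replicate 1).comp (computable_pow p))
    have h4 : Computable fun n : ℕ => powEqZ (p ^ n) :=
      Computable.list_cons.comp h2 (Computable.list_cons.comp h3 (Computable.const []))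
    exact (Computable.list_cons.comp h4 (Computable.const _)).pair (Computable.const _)
  refine not_computablePred_of_reduction H hH _ _ henc fun n => ?_
  rw [h n]
  have h4 := hL (p ^ n) (fun _ => True)
  simp only [true_and] at h4
  rw [h4]
  constructor
  · rintro ⟨z, hz0, hz1, hz2⟩
    obtain ⟨b, hbz⟩ := IsLocalization.exist_integer_multiples_of_finset
      (nonZeroDivisors (ZMod p)[X]) ((Finset.range N).image z)
    have ha : ∀ i, ∃ a : (ZMod p)[X], algebraMap (ZMod p)[X] (RatFunc (ZMod p)) a =
        algebraMap (ZMod p)[X] (RatFunc (ZMod p)) b * z i := by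
      intro i
      by_cases hi : i < N
      · obtain ⟨a, ha⟩ := hbz (z i) (Finset.mem_image_of_mem z (Finset.mem_range.2 hi))
        refine ⟨a, ?_⟩
        rw [ha, Algebra.smul_def]
      · exact ⟨0, by rw [hz0 i (by omega), map_zero, mul_zero]⟩
    choose a ha using ha
    let A : ℕ → (ZMod p)[X] := fun i => Nat.casesOn i (b : (ZMod p)[X]) fun j => a j
    let y : ℕ → RatFunc (ZMod p) := fun i =>
      algebraMap (ZMod p)[X] (RatFunc (ZMod p)) (A i) /
        algebraMap (ZMod p)[X] (RatFunc (ZMod p)) ((fun _ : ℕ => (1 : (ZMod p)[X])) i)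
    have hy : ∀ i, y i = algebraMap (ZMod p)[X] (RatFunc (ZMod p)) (A i) := by
      intro i
      show algebraMap (ZMod p)[X] (RatFunc (ZMod p)) (A i) /
        algebraMap (ZMod p)[X] (RatFunc (ZMod p)) 1 = _
      rw [map_one, div_one]
    have hx0 : y 0 = algebraMap (ZMod p)[X] (RatFunc (ZMod p)) b := hy 0
    have hx1 : ∀ i, y (i + 1) = y 0 * z i := by
      intro i
      rw [hx0, ← ha]
      exact hy (i + 1)
    have hb0 : y 0 ≠ 0 := by
      rw [hx0]
      intro h0
      have := (map_eq_zero_iff _ (IsFractionRing.injective (ZMod p)[X] (RatFunc (ZMod p)))).1 h0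
      exact nonZeroDivisors.ne_zero b.2 this
    refine ⟨A, fun _ => 1, fun i => ?_, ?_, ?_⟩
    · simp
    · show ∀ f ∈ powEqZ (p ^ n) :: L0.map (fun l => homZ (degB l) l), evL y f = 0
      rw [List.forall_mem_cons]
      refine ⟨(evL_powEqZ y z hx1 hb0 _ (pow_pos hp n)).2 hz1, fun e he => ?_⟩
      obtain ⟨l, hl, rfl⟩ := List.mem_map.1 he
      exact (evL_homZ_eq y z hx1 hb0 _ l (le_degB l)).2 (hz2 l hl)
    · show evL y [((1 : ℤ), [0])] ≠ 0
      simpa [evL] using hb0
  · rintro ⟨a, b, hb', hx, hx0⟩
    let y : ℕ → RatFunc (ZMod p) := fun i =>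
      algebraMap (ZMod p)[X] (RatFunc (ZMod p)) (a i) /
        algebraMap (ZMod p)[X] (RatFunc (ZMod p)) (b i)
    have hx' : ∀ f ∈ powEqZ (p ^ n) :: L0.map (fun l => homZ (degB l) l), evL y f = 0 := hx
    have hx0' : evL y [((1 : ℤ), [0])] ≠ 0 := hx0
    have hd : y 0 ≠ 0 := by
      intro h0
      apply hx0'
      simp [evL, h0]
    let z : ℕ → RatFunc (ZMod p) := fun i => y (i + 1) / y 0
    have hyz : ∀ i, y (i + 1) = y 0 * z i := by
      intro i
      show _ = y 0 * (y (i + 1) / y 0)
      rw [mul_div_cancel₀ _ hd]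
    rw [List.forall_mem_cons] at hx'
    have hz1 : evL z (powEq (p ^ n)) = 0 := (evL_powEqZ y z hyz hd _ (pow_pos hp n)).1 hx'.1
    have hz2 : ∀ l ∈ L0, evL z l = 0 := fun l hl =>
      (evL_homZ_eq y z hyz hd _ l (le_degB l)).1 (hx'.2 _ (List.mem_map_of_mem hl))
    -- cut the variables off beyond `N`
    refine ⟨fun i => if i < N then z i else 0, fun i hi => if_neg (by omega), ?_, ?_⟩
    · rw [evL_powEq] at hz1 ⊢
      rw [if_pos (by omega), if_pos (by omega)]
      exact hz1
    · intro l hl
      rw [← hz2 l hl]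
      unfold evL
      congr 1
      apply List.map_congr_left
      intro m hm
      congr 2
      apply List.map_congr_left
      intro i hi
      exact if_pos (hb l hl m hm i hi)


/-- The negation of the preceding statement: For every prime p, it is algorithmically decidable whether a given finite system of integer polynomial equations plus one inequation has a solution in F_p[t]_(t), i.e. whether the existential ring theory of F_p[t]_(t) is decidable. -/
theorem result :
    ¬ (∀ (p : ℕ) [Fact p.Prime],
      ComputablePred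
        (fun q : List (List (ℤ × List ℕ)) × List (ℤ × List ℕ) =>
          ∃ a b : ℕ → Polynomial (ZMod p),
            (∀ i, (b i).eval 0 ≠ 0) ∧
            (∀ f ∈ q.1,
              (f.map (fun m => (m.1 : RatFunc (ZMod p)) *
                (m.2.map (fun i =>
                  algebraMap (Polynomial (ZMod p)) (RatFunc (ZMod p)) (a i) /
                  algebraMap (Polynomial (ZMod p)) (RatFunc (ZMod p)) (b i))).prod)).sum = 0) ∧
            (q.2.map (fun m => (m.1 : RatFunc (ZMod p)) *
                (m.2.map (fun i =>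
                  algebraMap (Polynomial (ZMod p)) (RatFunc (ZMod p)) (a i) /
                  algebraMap (Polynomial (ZMod p)) (RatFunc (ZMod p)) (b i))).prod)).sum ≠ 0)) := by
  intro hall
  exact main 2 (hall 2)

end Pool.Agent.S14396
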