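import Pool.Statements.S14398
import Pool.Agent.H715R3.MedvE

set_option autoImplicit false
open Pool Pool.MP_1220fe_lc

namespace Pool.Agent.S14398

/-- The negation of the preceding statement: For every infinite, finitely generated, recursively presented group G: G is not virtually free iff the Medvedev degrees of nonempty SFTs on G are exactly the degrees of nonempty Π⁰₁ subsets of Cantor space. -/
theorem result :
    ¬ (∀ (red : Set (ℕ → ℕ) → Set (ℕ → ℕ) → Prop),
      red = (fun P Q => ∃ f : List ℕ → List ℕ, Computable f ∧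
          (∀ σ τ : List ℕ, σ <+: τ → f σ <+: f τ) ∧
          ∀ y ∈ Q, ∃ x ∈ P, ∀ n : ℕ, ∃ m : ℕ, ∀ i < n,
            (f (List.ofFn fun j : Fin m => y j.val))[i]? = some (x i)) →
    ∀ (pi : (List ℕ → Bool) → Set (ℕ → ℕ)),
      pi = (fun c => {x : ℕ → ℕ | (∀ n, x n ≤ 1) ∧
          ∀ m : ℕ, c (List.ofFn fun j : Fin m => x j.val) = false}) →
    ∀ (G : Type) [Group G] [Infinite G] (r : ℕ) (gens : Fin r → G),
      Subgroup.closure (Set.range gens) = ⊤ →
      REPred (fun w : List (Fin r × Bool) =>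
        (w.map fun p => cond p.2 (gens p.1) (gens p.1)⁻¹).prod = 1) →
    ∀ (S : (k : ℕ) → List (Finset G × (G → Fin k)) → Set (ℕ → ℕ)),
      S = (fun k F => {y : ℕ → ℕ | ∃ x : G → Fin k,
          (∀ g : G, ∀ q ∈ F, ¬ ∀ h ∈ q.1, x (g * h) = q.2 h) ∧
          ∀ n : ℕ, y n = (Encodable.decode n : Option (List (Fin r × Bool))).elim 0
            (fun w => (x (w.map fun p => cond p.2 (gens p.1) (gens p.1)⁻¹).prod).val)}) →
    ((¬ ∃ H : Subgroup G, H.FiniteIndex ∧ IsFreeGroup H) ↔
      ((∀ (k : ℕ) (F : List (Finset G × (G → Fin k))), (S k F).Nonempty →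
          ∃ c : List ℕ → Bool, Computable c ∧ (pi c).Nonempty ∧
            red (pi c) (S k F) ∧ red (S k F) (pi c)) ∧
       (∀ c : List ℕ → Bool, Computable c → (pi c).Nonempty →
          ∃ (k : ℕ) (F : List (Finset G × (G → Fin k))), (S k F).Nonempty ∧
            red (pi c) (S k F) ∧ red (S k F) (pi c))))) := by
  classical
  intro h
  have h1 := h _ rfl _ rfl Pool.Agent.H715R3.Medv.GG 36 Pool.Agent.H715R3.Medv.gens
    Pool.Agent.H715R3.Medv.gens_closure Pool.Agent.H715R3.Medv.ev_re _ rfl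
  have h2 := (h1.1 Pool.Agent.H715R3.Medv.not_virtually_free).2
  let c : List ℕ → Bool := fun τ => decide (Pool.Agent.H715R3.Medv.Kill τ)
  have hc : Computable c := Pool.Agent.H715R3.Medv.Kill_primrec.decide.to_comp
  have hmem : ∀ z : ℕ → ℕ, ((∀ n, z n ≤ 1) ∧
      ∀ m : ℕ, c (List.ofFn fun j : Fin m => z j.val) = false) ↔ z ∈ Pool.Agent.H715R3.Medv.PP := by
    intro z
    constructor
    · rintro ⟨a, b⟩; exact ⟨a, fun m => of_decide_eq_false (b m)⟩
    · rintro ⟨a, b⟩; exact ⟨a, fun m => decide_eq_false (b m)⟩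
  obtain ⟨z0, hz0⟩ := Pool.Agent.H715R3.Medv.PP_nonempty
  obtain ⟨k, F, hne, ⟨g, hg, hgm, hgr⟩, ⟨f, hf, hfm, hfr⟩⟩ := h2 c hc ⟨z0, (hmem z0).2 hz0⟩
  by_cases hcst : ∃ x : Pool.Agent.H715R3.Medv.GG → Fin k,
      (∀ a : Pool.Agent.H715R3.Medv.GG, ∀ q ∈ F, ¬ ∀ b ∈ q.1, x (a * b) = q.2 b) ∧ ∀ a, x a = x 1
  · obtain ⟨x, hx, hx1⟩ := hcst
    let y : ℕ → ℕ := fun n => (Encodable.decode n : Option (List (Fin 36 × Bool))).elim 0
      (fun _ => (x 1).val)
    have hy : Computable y := by
      have hd : Computable (fun n : ℕ => (Encodable.decode n : Option (List (Fin 36 × Bool)))) :=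
        Computable.decode
      have h3 : Computable₂ (fun (_ : ℕ) (_ : List (Fin 36 × Bool)) => (x 1).val) :=
        Computable.const _
      refine Computable.of_eq (Computable.option_casesOn hd (Computable.const 0) h3) ?_
      intro n
      simp only [y]
      cases (Encodable.decode n : Option (List (Fin 36 × Bool))) <;> rfl
    obtain ⟨z, hz, hzr⟩ := hgr y ⟨x, hx, fun n => by
      simp only [y]
      congr 1
      funext w
      exact congrArg Fin.val (hx1 _).symm⟩
    exact Pool.Agent.H715R3.Medv.no_computable_reduction hg hgm hy ((hmem z).1 hz) hzr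
  · apply Pool.Agent.H715R3.Medv.no_reduction hf hfm
    intro z hz
    obtain ⟨y, ⟨x, hx, hyx⟩, hyr⟩ := hfr z ((hmem z).2 hz)
    refine ⟨y, fun a => (x a).val, fun w => ?_, ?_, hyr⟩
    · rw [hyx, Encodable.encodek]
      rfl
    · by_contra hcon
      push Not at hcon
      exact hcst ⟨x, hx, fun a => Fin.ext (hcon a)⟩

end Pool.Agent.S14398
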