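import Pool.Statements.S14403
import Pool.Agent.H561R3.Fin

set_option autoImplicit false
open Pool Pool.MP_14681b_lc

namespace Pool.Agent.S14403

/-- For any optimal plain machine and any two sequences that escape every Martin-Löf test relative to the halting problem (given as Sigma-2 tests), some constant d makes infinitely many n have both length-n prefixes of plain complexity at least n minus d. -/
theorem result :
  ∀ U : List Bool →. List Bool,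
    Partrec U →
    (∀ M : List Bool →. List Bool, Partrec M →
      ∃ c : ℕ, ∀ p σ : List Bool, σ ∈ M p →
        ∃ q : List Bool, σ ∈ U q ∧ q.length ≤ p.length + c) →
    ∀ X Y : ℕ → Bool,
      (¬ ∃ R : ℕ × List Bool × ℕ × ℕ → Bool, Computable R ∧
          (∀ k : ℕ, ∀ S : Finset (List Bool),
            (∀ σ ∈ S, ∃ a : ℕ, ∀ b : ℕ, R (k, σ, a, b) = true) →
            ∑ σ ∈ S, ((1:ℝ)/2) ^ σ.length ≤ ((1:ℝ)/2) ^ k) ∧
          ∀ k : ℕ, ∃ n : ℕ, ∃ a : ℕ, ∀ b : ℕ,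
            R (k, List.ofFn (fun i : Fin n => X i), a, b) = true) →
      (¬ ∃ R : ℕ × List Bool × ℕ × ℕ → Bool, Computable R ∧
          (∀ k : ℕ, ∀ S : Finset (List Bool),
            (∀ σ ∈ S, ∃ a : ℕ, ∀ b : ℕ, R (k, σ, a, b) = true) →
            ∑ σ ∈ S, ((1:ℝ)/2) ^ σ.length ≤ ((1:ℝ)/2) ^ k) ∧
          ∀ k : ℕ, ∃ n : ℕ, ∃ a : ℕ, ∀ b : ℕ,
            R (k, List.ofFn (fun i : Fin n => Y i), a, b) = true) →
      ∃ d : ℕ, ∃ᶠ n in Filter.atTop,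
        (∀ q : List Bool, List.ofFn (fun i : Fin n => X i) ∈ U q → n ≤ q.length + d) ∧
        (∀ q : List Bool, List.ofFn (fun i : Fin n => Y i) ∈ U q → n ≤ q.length + d) := by
  intro U hU _ X Y hX hY
  obtain ⟨Q, hQ, hmono, hBQ⟩ := Pool.Agent.H561R3.s1_Bd hU
  have hB : ∀ d x, Pool.Agent.H561R3.Bd U d x ↔ ∃ n, Q (d, x) n := fun d x => hBQ (d, x)
  have hcount := Pool.Agent.H561R3.count_Bd U
  have hinv := Pool.Agent.H561R3.inv_all hB hmono hcount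
  obtain ⟨R, hR, hRW⟩ := Pool.Agent.H561R3.exists_R hQ
    (fun d m => Pool.Agent.H561R3.canon_of_inv hB (hinv d m))
  have hwt : ∀ k : ℕ, ∀ S : Finset (List Bool),
      (∀ σ ∈ S, ∃ a : ℕ, ∀ b : ℕ, R (k, σ, a, b) = true) →
      ∑ σ ∈ S, ((1:ℝ)/2) ^ σ.length ≤ ((1:ℝ)/2) ^ k := by
    intro k S hS
    exact Pool.Agent.H561R3.weight_W hB hmono hcount k S fun σ hσ => (hRW k σ).2 (hS σ hσ)
  have key : ∀ Z : ℕ → Bool,
      (¬ ∃ R : ℕ × List Bool × ℕ × ℕ → Bool, Computable R ∧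
          (∀ k : ℕ, ∀ S : Finset (List Bool),
            (∀ σ ∈ S, ∃ a : ℕ, ∀ b : ℕ, R (k, σ, a, b) = true) →
            ∑ σ ∈ S, ((1:ℝ)/2) ^ σ.length ≤ ((1:ℝ)/2) ^ k) ∧
          ∀ k : ℕ, ∃ n : ℕ, ∃ a : ℕ, ∀ b : ℕ,
            R (k, List.ofFn (fun i : Fin n => Z i), a, b) = true) →
      ∃ k, ∀ n, ¬ Pool.Agent.H561R3.W Q (k, Pool.Agent.H561R3.pre Z n) := by
    intro Z hZ
    by_contra hcon
    push Not at hcon
    refine hZ ⟨R, hR, hwt, fun k => ?_⟩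
    obtain ⟨n, hn⟩ := hcon k
    exact ⟨n, (hRW k _).1 hn⟩
  obtain ⟨k, hk⟩ := key X hX
  obtain ⟨k', hk'⟩ := key Y hY
  obtain ⟨d, hd⟩ := Pool.Agent.H561R3.pair_main hB hmono hcount hk hk'
  refine ⟨d, hd.mono ?_⟩
  rintro n ⟨h1, h2⟩
  constructor
  · intro q hq
    by_contra h3
    exact h1 ⟨q, hq, by rw [Pool.Agent.H561R3.length_pre]; omega⟩
  · intro q hq
    by_contra h3
    exact h2 ⟨q, hq, by rw [Pool.Agent.H561R3.length_pre]; omega⟩

end Pool.Agent.S14403
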