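import Pool.Statements.S14412
import Pool.Agent.H815R3.StarHeight

set_option autoImplicit false
open Pool Pool.MP_15f063_lc

namespace Pool.Agent.S14412

/-- The negation of the preceding statement: The language A2 = (στ*σ ∪ τσ*τ(στ*σ)*τσ*τ)* over {σ,τ} has generalized star height exactly two: it lies in the level-2 Boolean-concatenation-star hierarchy but not in level 1. -/
theorem result :
    ¬ (∀ (cat : Set (List Bool) → Set (List Bool) → Set (List Bool))
      (st : Set (List Bool) → Set (List Bool))
      (Cl : Set (Set (List Bool)) → Set (Set (List Bool))),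
      (∀ L M, cat L M = Set.image2 (fun x y => x ++ y) L M) →
      (∀ L, st L = {w | ∃ l : List (List Bool), (∀ x ∈ l, x ∈ L) ∧ w = l.flatten}) →
      (∀ G, Cl G = {L | ∀ S : Set (Set (List Bool)), G ⊆ S →
          (∅ : Set (List Bool)) ∈ S →
          ({[]} : Set (List Bool)) ∈ S →
          ({[false]} : Set (List Bool)) ∈ S →
          ({[true]} : Set (List Bool)) ∈ S →
          (∀ X ∈ S, ∀ Y ∈ S, X ∪ Y ∈ S) →
          (∀ X ∈ S, ∀ Y ∈ S, cat X Y ∈ S) →
          (∀ X ∈ S, Xᶜ ∈ S) → L ∈ S}) →
      (st (cat (cat ({[false]} : Set (List Bool)) (st {[true]})) {[false]} ∪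
            cat (cat (cat (cat ({[true]} : Set (List Bool)) (st {[false]})) {[true]})
                  (st (cat (cat ({[false]} : Set (List Bool)) (st {[true]})) {[false]})))
                (cat (cat ({[true]} : Set (List Bool)) (st {[false]})) {[true]}))
          ∈ Cl (st '' Cl (st '' Cl ∅)) ∧
       st (cat (cat ({[false]} : Set (List Bool)) (st {[true]})) {[false]} ∪
            cat (cat (cat (cat ({[true]} : Set (List Bool)) (st {[false]})) {[true]})
                  (st (cat (cat ({[false]} : Set (List Bool)) (st {[true]})) {[false]})))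
                (cat (cat ({[true]} : Set (List Bool)) (st {[false]})) {[true]}))
          ∉ Cl (st '' Cl ∅))) := by
  intro h
  exact (h Pool.Agent.H815R3.StarHeight.cat Pool.Agent.H815R3.StarHeight.st
    Pool.Agent.H815R3.StarHeight.Cl (fun _ _ => rfl) (fun _ => rfl) (fun _ => rfl)).2
    Pool.Agent.H815R3.StarHeight.A2_mem

end Pool.Agent.S14412
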