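import Pool.Statements.S14430
import Pool.Agent.H781R3.RSGame
import Pool.Agent.H781R3.RSNum

set_option autoImplicit false
open Pool Pool.MP_1a0bc6_lc

namespace Pool.Agent.S14430

/-- The negation of the preceding statement: In every finite concurrent stochastic game where player 1 wants to reach T and player 2 wants to avoid U, for each start state and ε>0 there are stationary strategies from which no stationary deviation gains either player more than ε. -/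
theorem result :
    ¬ (∀ (S A B : Type) [Fintype S] [Fintype A] [Fintype B] [Nonempty A] [Nonempty B]
      (δ : S → A → B → S → ℝ),
      (∀ s a b t, 0 ≤ δ s a b t) → (∀ s a b, ∑ t, δ s a b t = 1) →
      ∀ (T U : Set S) (s₀ : S) (ε : ℝ), 0 < ε →
      ∃ σ : S → A → ℝ, ∃ τ : S → B → ℝ,
        (∀ s a, 0 ≤ σ s a) ∧ (∀ s, ∑ a, σ s a = 1) ∧
        (∀ s b, 0 ≤ τ s b) ∧ (∀ s, ∑ b, τ s b = 1) ∧
        (∀ σ' : S → A → ℝ, (∀ s a, 0 ≤ σ' s a) → (∀ s, ∑ a, σ' s a = 1) →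
          (⨆ n : ℕ, (fun x : S → ℝ => T.indicator (fun _ => (1 : ℝ)) +
              Tᶜ.indicator (fun s => ∑ t, (∑ a, ∑ b, σ' s a * τ s b * δ s a b t) * x t))^[n] 0 s₀)
            ≤ (⨆ n : ℕ, (fun x : S → ℝ => T.indicator (fun _ => (1 : ℝ)) +
              Tᶜ.indicator (fun s => ∑ t, (∑ a, ∑ b, σ s a * τ s b * δ s a b t) * x t))^[n] 0 s₀) + ε) ∧
        (∀ τ' : S → B → ℝ, (∀ s b, 0 ≤ τ' s b) → (∀ s, ∑ b, τ' s b = 1) →
          (⨆ n : ℕ, (fun x : S → ℝ => U.indicator (fun _ => (1 : ℝ)) +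
              Uᶜ.indicator (fun s => ∑ t, (∑ a, ∑ b, σ s a * τ s b * δ s a b t) * x t))^[n] 0 s₀)
            ≤ (⨆ n : ℕ, (fun x : S → ℝ => U.indicator (fun _ => (1 : ℝ)) +
              Uᶜ.indicator (fun s => ∑ t, (∑ a, ∑ b, σ s a * τ' s b * δ s a b t) * x t))^[n] 0 s₀) + ε)) := by
  intro H
  obtain ⟨σ, τ, hσ, hσ1, hτ, hτ1, h1, h2⟩ := H (Fin 7) (Fin 2) (Fin 2) H781R3.rsD H781R3.rsD_nonneg
    H781R3.rsD_sum {3, 4} {3, 5} 0 (1/100) (by norm_num)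
  obtain ⟨w0, w1, w2, hw0, e0, p1, q1, p2, q2, e1, e2, hmin⟩ :=
    H781R3.rs_T σ τ hσ hσ1 hτ hτ1 {3, 4} (1/4) (1/2) (Or.inl ⟨rfl, rfl, rfl⟩)
  obtain ⟨l0, l1, l2, hl0, f0, r1, t1, r2, t2, f1, f2, lmin⟩ :=
    H781R3.rs_T σ τ hσ hσ1 hτ hτ1 {3, 5} (3/4) 0 (Or.inr ⟨rfl, rfl, rfl⟩)
  rw [hw0] at h1
  rw [hl0] at h2
  -- pure stationary strategies
  have pz_nonneg : ∀ (s : Fin 7) (a : Fin 2), (0:ℝ) ≤ (fun _ => ![1, 0] : Fin 7 → Fin 2 → ℝ) s a := by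
    intro s a
    fin_cases a <;> simp
  have pz_sum : ∀ (s : Fin 7), ∑ a : Fin 2, (fun _ => ![1, 0] : Fin 7 → Fin 2 → ℝ) s a = 1 := by
    intro s
    rw [Fin.sum_univ_two]
    simp
  have po_nonneg : ∀ (s : Fin 7) (a : Fin 2), (0:ℝ) ≤ (fun _ => ![0, 1] : Fin 7 → Fin 2 → ℝ) s a := by
    intro s a
    fin_cases a <;> simp
  have po_sum : ∀ (s : Fin 7), ∑ a : Fin 2, (fun _ => ![0, 1] : Fin 7 → Fin 2 → ℝ) s a = 1 := by
    intro s
    rw [Fin.sum_univ_two]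
    simp
  have s1 := hτ1 1
  have u1 := hσ1 1
  have u2 := hσ1 2
  rw [Fin.sum_univ_two] at s1 u1 u2
  have a0 := hσ 1 0
  have a1 := hσ 1 1
  have b0 := hτ 1 0
  have b1 := hτ 1 1
  have c0 := hσ 2 0
  have c1 := hσ 2 1
  have hx0 : σ 1 0 = 1 - σ 1 1 := by linarith
  have hy0 : τ 1 0 = 1 - τ 1 1 := by linarith
  have hq' : σ 2 1 = 1 - σ 2 0 := by linarith
  rcases b1.eq_or_lt with hy | hy
  · -- player 2 never quits
    obtain ⟨w0', w1', w2', hw0', g1, -, -, -, -, g2, g3, -⟩ :=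
      H781R3.rs_T (fun _ => ![0, 1]) τ po_nonneg po_sum hτ hτ1 {3, 4}
        (1/4) (1/2) (Or.inl ⟨rfl, rfl, rfl⟩)
    have g0 := h1 (fun _ => ![0, 1]) po_nonneg po_sum
    rw [hw0'] at g0
    obtain ⟨l0', l1', l2', hl0', k1, -, -, -, -, -, -, k2⟩ :=
      H781R3.rs_T σ (fun _ => ![0, 1]) hσ hσ1 po_nonneg po_sum {3, 5}
        (3/4) 0 (Or.inr ⟨rfl, rfl, rfl⟩)
    have k0 := h2 (fun _ => ![0, 1]) po_nonneg po_sum
    rw [hl0'] at k0
    clear h1 h2 hw0 hl0 H hσ hσ1 hτ hτ1 hw0' hl0'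
    have hy0' : τ 1 0 = 1 := by linarith
    have hy1' : τ 1 1 = 0 := hy.symm
    simp only [hx0, hy0', hy1', hq'] at e2 hmin f1 f2 g2 g3 k2
    refine H781R3.rs_num0 (σ 1 1) (σ 2 0) w0 w1 w2 l0 l1 l2 w0' w1' w2' l0' l1' l2' a1 (by linarith)
      c0 e0 e2 ?_ f0 ?_ ?_ g0 g1 ?_ ?_ k0 k1 ?_
    · intro v1 v2 h1 h2 h3 h4
      exact hmin v1 v2 h1 h2 (by linarith) h4
    · linarith
    · linarith
    · simpa using g2
    · simpa using g3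
    · intro v1 v2 h1 h2 h3 h4
      exact k2 v1 v2 h1 h2 (by simp; linarith) (by linarith)
  · -- player 2 quits with positive probability
    obtain ⟨w0', w1', w2', hw0', g1, -, -, -, -, g2, g3, -⟩ :=
      H781R3.rs_T (fun _ => ![1, 0]) τ pz_nonneg pz_sum hτ hτ1 {3, 4}
        (1/4) (1/2) (Or.inl ⟨rfl, rfl, rfl⟩)
    have g0 := h1 (fun _ => ![1, 0]) pz_nonneg pz_sum
    rw [hw0'] at g0
    obtain ⟨l0', l1', l2', hl0', k1, -, -, -, -, -, -, k2⟩ :=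
      H781R3.rs_T σ (fun _ => ![1, 0]) hσ hσ1 pz_nonneg pz_sum {3, 5}
        (3/4) 0 (Or.inr ⟨rfl, rfl, rfl⟩)
    have k0 := h2 (fun _ => ![1, 0]) pz_nonneg pz_sum
    rw [hl0'] at k0
    clear h1 h2 hw0 hl0 H hσ hσ1 hτ hτ1 hw0' hl0'
    simp only [hx0, hy0, hq'] at e2 hmin f1 f2 g2 g3 k2
    refine H781R3.rs_num1 (σ 1 1) (τ 1 1) (σ 2 0) w0 w1 w2 l0 l1 l2 w0' w1' w2' l0' l1' l2' a1
      (by linarith) hy (by linarith) c0 (by linarith) r1 r2 e0 hmin f0 f1 ?_ g0 g1 ?_ ?_ k0 k1 ?_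
    · linarith
    · simpa using g2
    · simpa using g3
    · intro v1 v2 h1 h2 h3 h4
      exact k2 v1 v2 h1 h2 (by simp; linarith) (by linarith)

end Pool.Agent.S14430
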