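import Pool.Statements.S14438
import Pool.Agent.H572R3.Half

set_option autoImplicit false
open Classical
open Pool Pool.MP_1b0fb5_lc

namespace Pool.Agent.S14438

/-- The negation of the preceding statement: For any finitely many Martin-Löf random reals a_i and b_j, with no a_i Turing equivalent to any b_j, there is a Martin-Löf random c whose degree is at density-Hausdorff distance 1/2 from each a_i's degree and 1 from each b_j's degree. -/
theorem result :
    ¬ (∀ (R : (ℕ → Bool) → Prop) (E : (ℕ → Bool) → (ℕ → Bool) → Prop)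
    (δ H : (ℕ → Bool) → (ℕ → Bool) → ℝ),
    (∀ X : ℕ → Bool, R X ↔ ¬ ∃ f : ℕ → ℕ → Option (List Bool), Computable₂ f ∧
      (∀ n M L : ℕ,
        ((Finset.univ : Finset (Fin L → Bool)).filter (fun τ =>
          ∃ j < M, ∃ σ : List Bool, f n j = some σ ∧ σ.length ≤ L ∧
            ∀ i : Fin L, (i : ℕ) < σ.length → σ.getD i false = τ i)).card * 2 ^ n ≤ 2 ^ L) ∧
      ∀ n : ℕ, ∃ j : ℕ, ∃ σ : List Bool, f n j = some σ ∧ σ = (List.range σ.length).map X) →
    (∀ X Y : ℕ → Bool, E X Y ↔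
      (TuringReducible (fun n => Part.some (X n).toNat) (fun n => Part.some (Y n).toNat) ∧
       TuringReducible (fun n => Part.some (Y n).toNat) (fun n => Part.some (X n).toNat))) →
    (∀ X Y : ℕ → Bool, δ X Y = Filter.limsup
      (fun n : ℕ => (((Finset.range n).filter (fun i => X i ≠ Y i)).card : ℝ) / (n : ℝ))
      Filter.atTop) →
    (∀ X Y : ℕ → Bool, H X Y = max
      (sSup {r : ℝ | ∃ X' : ℕ → Bool, E X' X ∧ r = sInf {s : ℝ | ∃ Y' : ℕ → Bool, E Y' Y ∧ s = δ X' Y'}})
      (sSup {r : ℝ | ∃ Y' : ℕ → Bool, E Y' Y ∧ r = sInf {s : ℝ | ∃ X' : ℕ → Bool, E X' X ∧ s = δ X' Y'}})) →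
    ∀ (m k : ℕ) (a : Fin m → ℕ → Bool) (b : Fin k → ℕ → Bool),
      (∀ i, R (a i)) → (∀ j, R (b j)) → (∀ i j, ¬ E (a i) (b j)) →
      ∃ c : ℕ → Bool, R c ∧ (∀ i, H (a i) c = 1 / 2) ∧ (∀ j, H (b j) c = 1)) := by
  intro hmain
  have key := hmain
    (fun X => ¬ ∃ f : ℕ → ℕ → Option (List Bool), Computable₂ f ∧
      (∀ n M L : ℕ,
        ((Finset.univ : Finset (Fin L → Bool)).filter (fun τ =>
          ∃ j < M, ∃ σ : List Bool, f n j = some σ ∧ σ.length ≤ L ∧
            ∀ i : Fin L, (i : ℕ) < σ.length → σ.getD i false = τ i)).card * 2 ^ n ≤ 2 ^ L) ∧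
      ∀ n : ℕ, ∃ j : ℕ, ∃ σ : List Bool, f n j = some σ ∧ σ = (List.range σ.length).map X)
    (fun X Y => (TuringReducible (fun n => Part.some (X n).toNat) (fun n => Part.some (Y n).toNat) ∧
       TuringReducible (fun n => Part.some (Y n).toNat) (fun n => Part.some (X n).toNat)))
    (fun X Y => Filter.limsup
      (fun n : ℕ => (((Finset.range n).filter (fun i => X i ≠ Y i)).card : ℝ) / (n : ℝ))
      Filter.atTop)
    (fun X Y => max (H572R3.supInf X Y) (H572R3.supInf Y X))
    (fun X => Iff.rfl) (fun X Y => Iff.rfl) (fun X Y => rfl) ?_ 2 1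
  · obtain ⟨Z, hZ⟩ := H572R3.exists_random
    have hRR : ∀ X : ℕ → Bool, H572R3.RR X → ¬ ∃ f : ℕ → ℕ → Option (List Bool), Computable₂ f ∧
      (∀ n M L : ℕ,
        ((Finset.univ : Finset (Fin L → Bool)).filter (fun τ =>
          ∃ j < M, ∃ σ : List Bool, f n j = some σ ∧ σ.length ≤ L ∧
            ∀ i : Fin L, (i : ℕ) < σ.length → σ.getD i false = τ i)).card * 2 ^ n ≤ 2 ^ L) ∧
      ∀ n : ℕ, ∃ j : ℕ, ∃ σ : List Bool, f n j = some σ ∧ σ = (List.range σ.length).map X := by
      intro X hX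
      rintro ⟨f, h1, h2, h3⟩
      refine hX ⟨f, h1, ?_, h3⟩
      intro n M L
      refine le_trans (le_of_eq ?_) (h2 n M L)
      congr 1
      rw [Set.ncard_eq_toFinset_card', ← Set.toFinset_ofPred]
      congr 1
      ext τ
      simp only [Set.mem_toFinset]
      rfl
    -- the three degrees
    let a₂ : ℕ → Bool := Z
    let b₀ : ℕ → Bool := H572R3.ev0 Z
    let a₁ : ℕ → Bool := H572R3.ev0 (H572R3.ev0 Z)
    have rb : H572R3.RR b₀ := H572R3.RR_ev0 hZ
    have ra : H572R3.RR a₁ := H572R3.RR_ev0 rb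
    have n1 : ¬ H572R3.BR a₂ b₀ := H572R3.not_le_half hZ
    have n2 : ¬ H572R3.BR b₀ a₁ := H572R3.not_le_half rb
    have l1 : H572R3.BR b₀ a₂ := H572R3.ev0_le Z
    have l2 : H572R3.BR a₁ b₀ := H572R3.ev0_le (H572R3.ev0 Z)
    obtain ⟨c, _, hc1, hc2⟩ := key (fun i => if i = 0 then a₁ else a₂) (fun _ => b₀)
      (by
        intro i
        by_cases h : i = 0
        · simp only [h, if_true]; exact hRR _ ra
        · simp only [h, if_false]; exact hRR _ hZ)
      (fun _ => hRR _ rb)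
      (by
        intro i j
        by_cases h : i = 0
        · simp only [h, if_true]
          rintro ⟨_, h2⟩
          exact n2 (H572R3.BR_iff.2 h2)
        · simp only [h, if_false]
          rintro ⟨h1, _⟩
          exact n1 (H572R3.BR_iff.2 h1))
    have e1 := hc1 0
    have e2 := hc1 1
    have e3 := hc2 0
    simp only [if_true] at e1
    rw [if_neg (by decide)] at e2
    have b1 : H572R3.supInf c a₁ ≤ 1 / 2 := (le_max_right _ _).trans e1.le
    have b2 : H572R3.supInf a₂ c ≤ 1 / 2 := (le_max_left _ _).trans e2.le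
    have b3 : H572R3.supInf b₀ c ≤ 1 / 2 := (H572R3.supInf_mono c l1).trans b2
    have b4 : H572R3.supInf c b₀ ≤ 1 / 2 := (H572R3.supInf_anti c l2).trans b1
    have b5 : max (H572R3.supInf b₀ c) (H572R3.supInf c b₀) ≤ 1 / 2 := max_le b3 b4
    have : (1 : ℝ) ≤ 1 / 2 := e3.symm.le.trans b5
    norm_num at this
  · intro X Y
    have hE : ∀ A B : ℕ → Bool,
        (TuringReducible (fun n => Part.some (A n).toNat) (fun n => Part.some (B n).toNat) ∧
         TuringReducible (fun n => Part.some (B n).toNat) (fun n => Part.some (A n).toNat)) ↔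
        (H572R3.BR A B ∧ H572R3.BR B A) := fun A B => by
      rw [H572R3.BR_iff, H572R3.BR_iff]
    have hd : ∀ A B : ℕ → Bool, Filter.limsup
      (fun n : ℕ => (((Finset.range n).filter (fun i => A i ≠ B i)).card : ℝ) / (n : ℝ))
      Filter.atTop = H572R3.dlt A B := by
      intro A B
      unfold H572R3.dlt H572R3.dis
      congr 1
    simp only [hE, hd]
    unfold H572R3.supInf
    refine congrArg₂ max rfl (congrArg sSup ?_)
    ext r
    simp only [Set.mem_ofPred_eq]
    constructor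
    · rintro ⟨X', h1, h2⟩
      refine ⟨X', h1, ?_⟩
      rw [h2]
      congr 1
      ext s
      simp only [Set.mem_ofPred_eq]
      constructor
      · rintro ⟨Y', h3, h4⟩
        exact ⟨Y', h3, by rw [h4, H572R3.dlt_symm]⟩
      · rintro ⟨Y', h3, h4⟩
        exact ⟨Y', h3, by rw [h4, H572R3.dlt_symm]⟩
    · rintro ⟨X', h1, h2⟩
      refine ⟨X', h1, ?_⟩
      rw [h2]
      congr 1
      ext s
      simp only [Set.mem_ofPred_eq]
      constructor
      · rintro ⟨Y', h3, h4⟩
        exact ⟨Y', h3, by rw [h4, H572R3.dlt_symm]⟩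
      · rintro ⟨Y', h3, h4⟩
        exact ⟨Y', h3, by rw [h4, H572R3.dlt_symm]⟩

end Pool.Agent.S14438
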