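import Pool.Statements.S14455
import Pool.Agent.H817R3.Scheme

set_option autoImplicit false
open Pool Pool.MP_20ee74_lc

namespace Pool.Agent.S14455

/-- In a Polish space with no isolated points, take any family of meager finite-arity relations with fewer members than cov(meager). Then some nowhere meager set A exists such that no tuple of distinct points of A lies in any of the relations. -/
theorem result :
    ∀ (X : Type) [TopologicalSpace X] [PolishSpace X],
      (∀ x : X, (nhdsWithin x {x}ᶜ).NeBot) →
      ∀ (ι : Type) (n : ι → ℕ) (R : ∀ i, Set (Fin (n i) → X)),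
        (∀ i, IsMeagre (R i)) →
        (∀ M : ι → Set ℝ, (∀ i, IsMeagre (M i)) → (⋃ i, M i) ≠ Set.univ) →
        ∃ A : Set X,
          (∀ U : Set X, IsOpen U → U.Nonempty → ¬ IsMeagre (A ∩ U)) ∧
          ∀ (i : ι) (x : Fin (n i) → X), Function.Injective x →
            (∀ k, x k ∈ A) → x ∉ R i := by
  intro X _ _ hcr ι n R hR hcov
  rcases isEmpty_or_nonempty X with hX | hX
  · refine ⟨∅, ?_, ?_⟩
    · rintro U _ ⟨x, _⟩
      exact (IsEmpty.false x).elim
    · intro i x _ _
      obtain ⟨O, _, hOd, _, hOx⟩ := Pool.Agent.H817R3.exists_seq_of_isMeagre (hR i)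
      apply hOx
      intro m
      haveI : Nonempty (Fin (n i) → X) := ⟨x⟩
      obtain ⟨y, hy⟩ := (hOd m).nonempty
      rwa [Subsingleton.elim x y]
  · letI := TopologicalSpace.upgradeIsCompletelyMetrizable X
    exact Pool.Agent.H817R3.exists_free hcr n R hR hcov

end Pool.Agent.S14455
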