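import Pool.Statements.S14476
import Pool.Agent.H534R3.Farah

set_option autoImplicit false
open Pool Pool.MP_220cb1_lc

namespace Pool.Agent.S14476

/-- The negation of the preceding statement: Every ideal on ℕ (closed under subsets and unions, containing all finite sets) that is Π⁰₃ in Cantor space equals {S : for all n there is k with S minus {0..k-1} in K_n} for some hereditary compact sets K_n. -/
theorem result :
    ¬ (∀ I : Set (ℕ → Bool),
      (∀ x ∈ I, ∀ y : ℕ → Bool, y ≤ x → y ∈ I) →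
      (∀ x ∈ I, ∀ y ∈ I, x ⊔ y ∈ I) →
      (∀ x : ℕ → Bool, {n : ℕ | x n = true}.Finite → x ∈ I) →
      (∃ C : ℕ → ℕ → Set (ℕ → Bool), (∀ i j, IsClosed (C i j)) ∧ I = ⋂ i, ⋃ j, C i j) →
      ∃ K : ℕ → Set (ℕ → Bool),
        (∀ n, IsCompact (K n)) ∧
        (∀ n, ∀ x ∈ K n, ∀ y : ℕ → Bool, y ≤ x → y ∈ K n) ∧
        I = {x : ℕ → Bool | ∀ n : ℕ, ∃ k : ℕ, (fun m => x m && decide (k ≤ m)) ∈ K n}) := by
  intro H
  obtain ⟨K, hK, hher, hI⟩ := H {x | Pool.Agent.H534R3.Farah.Idl (Pool.Agent.H534R3.Farah.S x)}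
    (fun x hx y hy => hx.mono fun τ hτ => by
      have := hy (Pool.Agent.H534R3.Farah.e τ)
      rw [Bool.le_iff_imp] at this
      exact this hτ)
    (fun x hx y hy => by
      have h := Pool.Agent.H534R3.Farah.Idl.union hx hy
      refine h.mono fun τ hτ => ?_
      have h' : (x (Pool.Agent.H534R3.Farah.e τ) || y (Pool.Agent.H534R3.Farah.e τ)) = true := hτ
      rw [Bool.or_eq_true] at h'
      exact h')
    (fun x hx => Pool.Agent.H534R3.Farah.Idl.of_finite (by
      refine Set.Finite.of_finite_image (f := Pool.Agent.H534R3.Farah.e) (hx.subset ?_)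
        Pool.Agent.H534R3.Farah.e.injective.injOn
      rintro _ ⟨τ, hτ, rfl⟩
      exact hτ))
    Pool.Agent.H534R3.Farah.exists_pi3
  refine Pool.Agent.H534R3.Farah.main K (fun n => (hK n).isClosed) hher fun X => ?_
  have h := Set.ext_iff.1 hI (Pool.Agent.H534R3.Farah.code X)
  simp only [Set.mem_ofPred_eq, Pool.Agent.H534R3.Farah.S_code] at h
  exact h

end Pool.Agent.S14476
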