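import Pool.Statements.S14496
import Pool.Agent.H453R3.Final

set_option autoImplicit false
open MeasureTheory
open scoped Manifold ContDiff
open Pool Pool.MP_2602dd_lc

namespace Pool.Agent.S14496

/-- The negation of the preceding statement: For every compact connected boundaryless smooth manifold of dimension at least 2 with a smooth volume, measure isomorphism of smooth ergodic volume-preserving diffeomorphisms is Borel bi-reducible with isomorphism of countable binary relations on ℕ. -/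
theorem result :
    ¬ (∀ (n : ℕ), 2 ≤ n →
  ∀ (M : Type) [TopologicalSpace M] [ChartedSpace (EuclideanSpace ℝ (Fin n)) M]
    [IsManifold (𝓡 n) ∞ M] [CompactSpace M] [ConnectedSpace M] [T2Space M]
    [MeasurableSpace M] [BorelSpace M] (ν : Measure M),
    (∀ e ∈ atlas (EuclideanSpace ℝ (Fin n)) M, ∃ ρ : EuclideanSpace ℝ (Fin n) → ℝ,
        ContDiffOn ℝ ∞ ρ e.target ∧ (∀ y ∈ e.target, 0 < ρ y) ∧
        Measure.map (⇑e) (ν.restrict e.source) =
          (volume.withDensity (fun y => ENNReal.ofReal (ρ y))).restrict e.target) →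
    (∃ f : {T : Diffeomorph (𝓡 n) (𝓡 n) M M ∞ //
              MeasurePreserving (⇑T) ν ν ∧ Ergodic (⇑T) ν} → (ℕ → ℕ → Bool),
       @Measurable {T : Diffeomorph (𝓡 n) (𝓡 n) M M ∞ //
              MeasurePreserving (⇑T) ν ν ∧ Ergodic (⇑T) ν} (ℕ → ℕ → Bool)
         (MeasurableSpace.comap
           (fun T : {T : Diffeomorph (𝓡 n) (𝓡 n) M M ∞ //
              MeasurePreserving (⇑T) ν ν ∧ Ergodic (⇑T) ν} => (⇑T.1 : M → M))
           (inferInstance : MeasurableSpace (M → M)))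
         (inferInstance : MeasurableSpace (ℕ → ℕ → Bool)) f ∧
       ∀ S T : {T : Diffeomorph (𝓡 n) (𝓡 n) M M ∞ //
              MeasurePreserving (⇑T) ν ν ∧ Ergodic (⇑T) ν},
         (∃ φ ψ : M → M, MeasurePreserving φ ν ν ∧ MeasurePreserving ψ ν ν ∧
            ψ ∘ φ =ᵐ[ν] id ∧ φ ∘ ψ =ᵐ[ν] id ∧ φ ∘ (⇑S.1) =ᵐ[ν] (⇑T.1) ∘ φ) ↔
         (∃ σ : Equiv.Perm ℕ, ∀ i j : ℕ, f S i j = f T (σ i) (σ j))) ∧
    (∃ g : (ℕ → ℕ → Bool) → {T : Diffeomorph (𝓡 n) (𝓡 n) M M ∞ //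
              MeasurePreserving (⇑T) ν ν ∧ Ergodic (⇑T) ν},
       @Measurable (ℕ → ℕ → Bool) {T : Diffeomorph (𝓡 n) (𝓡 n) M M ∞ //
              MeasurePreserving (⇑T) ν ν ∧ Ergodic (⇑T) ν}
         (inferInstance : MeasurableSpace (ℕ → ℕ → Bool))
         (MeasurableSpace.comap
           (fun T : {T : Diffeomorph (𝓡 n) (𝓡 n) M M ∞ //
              MeasurePreserving (⇑T) ν ν ∧ Ergodic (⇑T) ν} => (⇑T.1 : M → M))
           (inferInstance : MeasurableSpace (M → M))) g ∧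
       ∀ G H : ℕ → ℕ → Bool,
         (∃ σ : Equiv.Perm ℕ, ∀ i j : ℕ, G i j = H (σ i) (σ j)) ↔
         (∃ φ ψ : M → M, MeasurePreserving φ ν ν ∧ MeasurePreserving ψ ν ν ∧
            ψ ∘ φ =ᵐ[ν] id ∧ φ ∘ ψ =ᵐ[ν] id ∧
            φ ∘ (⇑(g G).1) =ᵐ[ν] (⇑(g H).1) ∘ φ))) := by
  intro H
  letI := Pool.Agent.H453R3.csT2
  haveI := Pool.Agent.H453R3.imT2
  obtain ⟨⟨f, hf, hfi⟩, -⟩ := H 2 le_rfl Pool.Agent.H453R3.T2
    (volume : Measure Pool.Agent.H453R3.T2) Pool.Agent.H453R3.dens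
  have he : ∀ c : ℕ → ℝ, ∀ n, Pool.Agent.H453R3.lam c (2 * n) = 1 :=
    fun c n => Pool.Agent.H453R3.lam_even c n
  have hl : ∀ c : ℕ → ℝ, ∀ k, |Pool.Agent.H453R3.lam c k| ≤ 1 :=
    fun c => Pool.Agent.H453R3.abs_lam_le c
  let G : (ℕ → ℝ) → {T : Diffeomorph (𝓡 2) (𝓡 2) Pool.Agent.H453R3.T2 Pool.Agent.H453R3.T2 ∞ //
      MeasurePreserving (⇑T) volume volume ∧ Ergodic (⇑T) volume} := fun c =>
    ⟨Pool.Agent.H453R3.TD (Pool.Agent.H453R3.lam c) (hl c),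
      Pool.Agent.H453R3.mp_TT _ (hl c), Pool.Agent.H453R3.ergodic_TT _ (hl c) (he c)⟩
  have hGc : ∀ c, (⇑(G c).1 : Pool.Agent.H453R3.T2 → Pool.Agent.H453R3.T2) =
      Pool.Agent.H453R3.TT (Pool.Agent.H453R3.lam c) := fun c => rfl
  refine Pool.Agent.H453R3.turb_false (fun c => f (G c)) ?_ ?_ ?_
  · refine hf.comp ?_
    refine measurable_comap_iff.2 ?_
    refine measurable_pi_lambda _ fun p => ?_
    exact Pool.Agent.H453R3.measurable_TT p
  · intro x y hxy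
    refine (hfi (G x) (G y)).1 ?_
    exact Pool.Agent.H453R3.iso_of_summable _ _ (hl x) (hl y)
      (Pool.Agent.H453R3.summable_lam_sub x y hxy)
  · intro x y hg hσ
    obtain ⟨φ, ψ, hφ, -, -, -, hi⟩ := (hfi (G x) (G y)).2 hσ
    exact Pool.Agent.H453R3.not_iso_of_gen x y hg φ hφ hi


end Pool.Agent.S14496
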