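import Pool.Statements.S14509
import Pool.Agent.H393R3.Ramsey217

set_option autoImplicit false
open Pool Pool.MP_287fcc_lc

namespace Pool.Agent.S14509

/-- Some n>4 admits a coloring of pairs with n−1 colors, all used, no monochromatic triangle, every non-(i,i) color path realized over each i-edge, that no bijection onto a finite field matches with the index-(n−1) coset coloring of differences. -/
theorem result :
  ∃ n : ℕ, 4 < n ∧ ∃ (U : Type) (c : U → U → Fin (n - 1)),
    (∀ x y, c x y = c y x) ∧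
    (∀ i : Fin (n - 1), ∃ x y, x ≠ y ∧ c x y = i) ∧
    (∀ x y z, x ≠ y → y ≠ z → x ≠ z → ¬ (c x y = c y z ∧ c y z = c x z)) ∧
    (∀ x y, x ≠ y → ∀ j k : Fin (n - 1), ¬ (j = c x y ∧ k = c x y) →
        ∃ z, z ≠ x ∧ z ≠ y ∧ c x z = j ∧ c z y = k) ∧
    ¬ ∃ (F : Type) (_ : Field F) (_ : Fintype F) (e : U ≃ F) (H : Subgroup Fˣ),
        H.index = n - 1 ∧
        ∀ x y x' y', x ≠ y → x' ≠ y' →
          (c x y = c x' y' ↔ ∃ h ∈ H, e x - e y = (h : F) * (e x' - e y')) := by
  refine ⟨7, by norm_num, Fin 217, Pool.Agent.H393R3.Ramsey217.c,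
    Pool.Agent.H393R3.Ramsey217.c_symm, Pool.Agent.H393R3.Ramsey217.c_surj,
    Pool.Agent.H393R3.Ramsey217.c_mono, Pool.Agent.H393R3.Ramsey217.c_rich, ?_⟩
  rintro ⟨F, hF, hfin, e, H, -, -⟩
  have hcard : Fintype.card F = 217 := by
    rw [← Fintype.card_congr e]
    exact Fintype.card_fin 217
  have h := @FiniteField.isPrimePow_card F hF hfin
  rw [hcard] at h
  exact Pool.Agent.H393R3.Ramsey217.not_isPrimePow_217 h

end Pool.Agent.S14509
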