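import Pool.Statements.S14541
import Pool.Agent.H181R3.Mink.Three
import Pool.Agent.H181R3.Mink.Model
import Pool.Agent.H181R3.Mink.Formula

set_option autoImplicit false
open Pool Pool.MP_2ea006_lc

namespace Pool.Agent.S14541

/-- Some formula built from atoms with not, and, strict future and strict past diamonds (irreflexive causal light-cone order) is satisfiable in 3-dimensional Minkowski spacetime but not in 4-dimensional, or vice versa. -/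
theorem result :
  ∃ (f : (ℕ → Set (Fin 3 → ℝ)) → Set (Fin 3 → ℝ))
    (g : (ℕ → Set (Fin 4 → ℝ)) → Set (Fin 4 → ℝ)),
    (∀ S : Set (((ℕ → Set (Fin 3 → ℝ)) → Set (Fin 3 → ℝ)) ×
                ((ℕ → Set (Fin 4 → ℝ)) → Set (Fin 4 → ℝ))),
      (∀ k : ℕ, ((fun v => v k), (fun w => w k)) ∈ S) →
      (∀ p ∈ S, ((fun v => (p.1 v)ᶜ), (fun w => (p.2 w)ᶜ)) ∈ S) →
      (∀ p ∈ S, ∀ q ∈ S,
        ((fun v => p.1 v ∩ q.1 v), (fun w => p.2 w ∩ q.2 w)) ∈ S) →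
      (∀ p ∈ S,
        ((fun v => {x : Fin 3 → ℝ | ∃ y ∈ p.1 v, x ≠ y ∧ x 0 ≤ y 0 ∧
              ∑ i : Fin 2, (y i.succ - x i.succ) ^ 2 ≤ (y 0 - x 0) ^ 2}),
         (fun w => {x : Fin 4 → ℝ | ∃ y ∈ p.2 w, x ≠ y ∧ x 0 ≤ y 0 ∧
              ∑ i : Fin 3, (y i.succ - x i.succ) ^ 2 ≤ (y 0 - x 0) ^ 2})) ∈ S) →
      (∀ p ∈ S,
        ((fun v => {x : Fin 3 → ℝ | ∃ y ∈ p.1 v, y ≠ x ∧ y 0 ≤ x 0 ∧
              ∑ i : Fin 2, (x i.succ - y i.succ) ^ 2 ≤ (x 0 - y 0) ^ 2}),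
         (fun w => {x : Fin 4 → ℝ | ∃ y ∈ p.2 w, y ≠ x ∧ y 0 ≤ x 0 ∧
              ∑ i : Fin 3, (x i.succ - y i.succ) ^ 2 ≤ (x 0 - y 0) ^ 2})) ∈ S) →
      (f, g) ∈ S) ∧
    ¬ ((∃ (v : ℕ → Set (Fin 3 → ℝ)) (x : Fin 3 → ℝ), x ∈ f v) ↔
       (∃ (w : ℕ → Set (Fin 4 → ℝ)) (y : Fin 4 → ℝ), y ∈ g w)) := by
  open Pool.Agent.H181R3.Mink in
  refine ⟨fun v => ev (n := 2) v main, fun w => ev (n := 3) w main, ?_, ?_⟩
  · intro S hatom hneg hand hfut hpst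
    have key : ∀ a : Fm, ((fun v => ev (n := 2) v a), (fun w => ev (n := 3) w a)) ∈ S := by
      intro a
      induction a with
      | atom k => exact hatom k
      | neg a ih => exact hneg _ ih
      | and a b iha ihb => exact hand _ iha _ ihb
      | fut a ih => exact hfut _ ih
      | pst a ih => exact hpst _ ih
    exact key main
  · intro hiff
    have h3 : ¬ ∃ (v : ℕ → Set (Fin 3 → ℝ)) (x : Fin 3 → ℝ), x ∈ ev (n := 2) v main := by
      rintro ⟨v, x, hx⟩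
      obtain ⟨h1, h2, h3⟩ := (main_iff v x).1 hx
      exact no_cfg3 _ h2 h1 h3
    apply h3
    rw [hiff]
    obtain ⟨c, h1, h2, h3⟩ := cfg4
    let w : ℕ → Set (Fin (3 + 1) → ℝ) := fun k => if h : k < 4 then c ⟨k, h⟩ else ∅
    have hw : colours w = c := by
      funext i
      show (if h : i.val < 4 then c ⟨i.val, h⟩ else ∅) = c i
      rw [dif_pos i.isLt]
    refine ⟨w, 0, (main_iff w 0).2 ?_⟩
    rw [hw]
    exact ⟨h2, h1, h3⟩

end Pool.Agent.S14541
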