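import Pool.Statements.S14559
import Pool.Agent.H448R3.Dec

set_option autoImplicit false
open Pool Pool.MP_349b57_lc

namespace Pool.Agent.S14559

open Pool.Agent.H448R3 Pool.Agent.Helper743

theorem bit_eq (b : Bool) : (if b then 1 else 0) = bit b := by cases b <;> rfl

theorem agree_card (Y C : ℕ → Bool) (n : ℕ) :
    ((Finset.range n).filter (fun k => Y k = C k)).card =
      er (fun j => bit (Y j)) (fun j => bit (!(C j))) n := by
  induction n with
  | zero => rfl
  | succ n ih =>
    rw [Finset.range_add_one, Finset.filter_insert, er_succ, ← ih]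
    by_cases h : Y n = C n
    · rw [if_pos h, Finset.card_insert_of_notMem (by simp), if_neg]
      rw [h]
      cases C n <;> simp [bit]
    · rw [if_neg h, if_pos]
      · rfl
      · revert h
        cases Y n <;> cases C n <;> simp [bit]

theorem dens_nonneg (Y C : ℕ → Bool) (n : ℕ) :
    0 ≤ ((((Finset.range n).filter (fun k => Y k = C k)).card : ℝ) / (n : ℝ)) := by positivity

theorem dens_le_one (Y C : ℕ → Bool) (n : ℕ) :
    ((((Finset.range n).filter (fun k => Y k = C k)).card : ℝ) / (n : ℝ)) ≤ 1 := by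
  refine div_le_one_of_le₀ ?_ (Nat.cast_nonneg n)
  have h1 : ((Finset.range n).filter (fun k => Y k = C k)).card ≤ n := by
    refine (Finset.card_filter_le _ _).trans ?_
    simp
  exact_mod_cast h1

theorem bdd_ge (Y C : ℕ → Bool) : Filter.IsBoundedUnder (· ≥ ·) Filter.atTop
    (fun n : ℕ => ((((Finset.range n).filter (fun k => Y k = C k)).card : ℝ) / (n : ℝ))) :=
  ⟨0, Filter.eventually_map.2 (Filter.Eventually.of_forall fun n => dens_nonneg Y C n)⟩

theorem bdd_le (Y C : ℕ → Bool) : Filter.IsBoundedUnder (· ≤ ·) Filter.atTop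
    (fun n : ℕ => ((((Finset.range n).filter (fun k => Y k = C k)).card : ℝ) / (n : ℝ))) :=
  ⟨1, Filter.eventually_map.2 (Filter.Eventually.of_forall fun n => dens_le_one Y C n)⟩

/-- For every set X: if for every ε>0 some Y Turing-below X agrees with every computable set on lower density at most ε, then some Y Turing-below X agrees with every computable set on lower density exactly 0. -/
theorem result :
    ∀ X : ℕ → Bool,
      (∀ ε : ℝ, 0 < ε → ∃ Y : ℕ → Bool,
        TuringReducible (fun n => Part.some (if Y n then 1 else 0))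
          (fun n => Part.some (if X n then 1 else 0)) ∧
        ∀ C : ℕ → Bool, Computable C →
          Filter.liminf
            (fun n : ℕ => ((((Finset.range n).filter (fun k => Y k = C k)).card : ℝ) / (n : ℝ)))
            Filter.atTop ≤ ε) →
      ∃ Y : ℕ → Bool,
        TuringReducible (fun n => Part.some (if Y n then 1 else 0))
          (fun n => Part.some (if X n then 1 else 0)) ∧
        ∀ C : ℕ → Bool, Computable C →
          Filter.liminf
            (fun n : ℕ => ((((Finset.range n).filter (fun k => Y k = C k)).card : ℝ) / (n : ℝ)))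
            Filter.atTop = 0 := by
  intro X hX
  obtain ⟨Y0, hY0, hd⟩ := hX (1 / 256) (by norm_num)
  have hred : ∀ Y : ℕ → Bool, TuringReducible (fun n => Part.some (if Y n then 1 else 0))
      (fun n => Part.some (if X n then 1 else 0)) ↔
      TR (fun n => bit (Y n)) (fun n => bit (X n)) := by
    intro Y
    rw [TR_iff]
    have e1 : ((fun n => Part.some (if Y n then 1 else 0)) : ℕ →. ℕ) =
        ((fun n => bit (Y n) : ℕ → ℕ) : ℕ →. ℕ) := by
      funext n; rw [bit_eq]; rfl
    have e2 : ((fun n => Part.some (if X n then 1 else 0)) : ℕ →. ℕ) =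
        ((fun n => bit (X n) : ℕ → ℕ) : ℕ →. ℕ) := by
      funext n; rw [bit_eq]; rfl
    rw [e1, e2]
  have hy0 := (hred Y0).1 hY0
  obtain ⟨cw, hcw, hcode⟩ := exists_cw
  -- the hypothesis in terms of `er`
  have hy : ∀ D : ℕ → ℕ, Computable D → (∀ j, D j ≤ 1) → ∀ n, ∃ m, n ≤ m ∧
      er (fun j => bit (Y0 j)) D m * 128 < m := by
    intro D hD hD1 n
    let C : ℕ → Bool := fun j => !(D j == 1)
    have hC : Computable C := cnot (cbeqN hD (Computable.const 1))
    have hDC : ∀ j, bit (!(C j)) = D j := by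
      intro j
      show bit (!(!(D j == 1))) = D j
      rw [Bool.not_not]
      have := hD1 j
      rcases Nat.le_one_iff_eq_zero_or_eq_one.1 this with h | h
      · rw [h]; rfl
      · rw [h]; rfl
    have h1 := hd C hC
    have h2 : Filter.liminf
        (fun n : ℕ => ((((Finset.range n).filter (fun k => Y0 k = C k)).card : ℝ) / (n : ℝ)))
        Filter.atTop < 1 / 128 := lt_of_le_of_lt h1 (by norm_num)
    have h3 := Filter.frequently_lt_of_liminf_lt (bdd_le Y0 C).isCoboundedUnder_ge h2
    obtain ⟨m, hm, hlt⟩ := (Filter.frequently_atTop.1 h3) (n + 1)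
    refine ⟨m, by omega, ?_⟩
    rw [agree_card] at hlt
    have h4 : er (fun j => bit (Y0 j)) (fun j => bit (!(C j))) m =
        er (fun j => bit (Y0 j)) D m := er_congr (fun _ _ => rfl) (fun j _ => hDC j)
    rw [h4] at hlt
    have hmpos : (0 : ℝ) < m := by
      have : 0 < m := by omega
      exact_mod_cast this
    rw [div_lt_iff₀ hmpos] at hlt
    have h5 : ((er (fun j => bit (Y0 j)) D m : ℕ) : ℝ) * 128 < m := by linarith
    exact_mod_cast h5
  have hF : TR (decK cw (fun j => bit (Y0 j))) (fun n => bit (X n)) := decK_rec hcw hy0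
  obtain ⟨p, v, hp, hv, ⟨t0, hcnt⟩, hpv⟩ := dich hF (fun W hW hW1 n => ioe hcw hcode hy W hW hW1 n)
  obtain ⟨y, hyr, hy1, hya⟩ := alloc hp hv t0 hcnt
  let Y : ℕ → Bool := fun n => (y n == 1)
  have hYy : ∀ j, bit (Y j) = y j := by
    intro j
    show bit (y j == 1) = y j
    rcases Nat.le_one_iff_eq_zero_or_eq_one.1 (hy1 j) with h | h
    · rw [h]; rfl
    · rw [h]; rfl
  refine ⟨Y, (hred Y).2 ?_, ?_⟩
  · have e1 : (fun n => bit (Y n)) = y := funext hYy
    rw [e1]
    exact hyr
  · intro C hC
    refine le_antisymm ?_ ?_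
    · refine le_of_forall_pos_le_add ?_
      intro δ hδ
      rw [zero_add]
      refine Filter.liminf_le_of_frequently_le ?_ (bdd_ge Y C)
      rw [Filter.frequently_atTop]
      intro n
      obtain ⟨N, hN⟩ := exists_nat_gt (1 / δ)
      have ha : Computable fun j => bit (!(C j)) := cbit (cnot hC)
      have ha1 : ∀ j, (fun j => bit (!(C j))) j ≤ 1 := by
        intro j
        show bit _ ≤ 1
        cases (!(C j)) <;> simp [bit]
      obtain ⟨b, t, hnt, htb, herr⟩ := hya _ ha1 (hpv _ ha ha1) (n + N)
      have hb : b < 2 ^ b := Nat.lt_pow_self (by norm_num)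
      have ht : t < 2 ^ t := Nat.lt_pow_self (by norm_num)
      refine ⟨2 ^ b, by omega, ?_⟩
      rw [agree_card]
      have h4 : er (fun j => bit (Y j)) (fun j => bit (!(C j))) (2 ^ b) =
          er y (fun j => bit (!(C j))) (2 ^ b) := er_congr (fun j _ => hYy j) (fun _ _ => rfl)
      rw [h4]
      have hpos : (0 : ℝ) < ((2 ^ b : ℕ) : ℝ) := by positivity
      rw [div_le_iff₀ hpos]
      have h5 : ((er y (fun j => bit (!(C j))) (2 ^ b) : ℕ) : ℝ) * ((2 ^ t : ℕ) : ℝ) ≤
          ((2 ^ b : ℕ) : ℝ) := by exact_mod_cast herr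
      have h6 : (1 : ℝ) ≤ δ * ((2 ^ t : ℕ) : ℝ) := by
        have h7 : (1 / δ : ℝ) < ((2 ^ t : ℕ) : ℝ) := by
          refine lt_trans hN ?_
          have : N < 2 ^ t := by omega
          exact_mod_cast this
        rw [div_lt_iff₀ hδ] at h7
        linarith
      have h8 : (0 : ℝ) ≤ ((er y (fun j => bit (!(C j))) (2 ^ b) : ℕ) : ℝ) := by positivity
      generalize ((er y (fun j => bit (!(C j))) (2 ^ b) : ℕ) : ℝ) = e at *
      generalize ((2 ^ t : ℕ) : ℝ) = T at *
      generalize ((2 ^ b : ℕ) : ℝ) = B at *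
      calc e = e * 1 := (mul_one e).symm
        _ ≤ e * (δ * T) := mul_le_mul_of_nonneg_left h6 h8
        _ = δ * (e * T) := by ring
        _ ≤ δ * B := mul_le_mul_of_nonneg_left h5 hδ.le
    · refine Filter.le_liminf_of_le (bdd_le Y C).isCoboundedUnder_ge ?_
      exact Filter.Eventually.of_forall fun n => dens_nonneg Y C n

end Pool.Agent.S14559
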