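import Pool.Statements.S14568
import Pool.Agent.H448R3.Gen2
import Pool.Agent.H448R3.Col

set_option autoImplicit false
open Classical
open Pool Pool.MP_354b3e_lc

namespace Pool.Agent.S14568

open Pool.Agent Pool.Agent.H448R3

/-- the list decoded from the code of a finite set has the same elements -/
theorem mem_decode (s : Finset ℕ) (y : ℕ) :
    y ∈ (Encodable.decode (α := List ℕ) (Encodable.encode s)).getD [] ↔ y ∈ s := by
  have h1 : Encodable.decode (α := Multiset ℕ) (Encodable.encode (s.1 : Multiset ℕ)) = some s.1 :=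
    Encodable.encodek _
  have h2 : Encodable.encode s = Encodable.encode (s.1 : Multiset ℕ) := rfl
  rw [h2]
  have h3 : Encodable.decode (α := Multiset ℕ) (Encodable.encode (s.1 : Multiset ℕ)) =
    ((↑) : List ℕ → Multiset ℕ) <$>
      Encodable.decode (α := List ℕ) (Encodable.encode (s.1 : Multiset ℕ)) := rfl
  rw [h3] at h1
  cases h : Encodable.decode (α := List ℕ) (Encodable.encode (s.1 : Multiset ℕ)) with
  | none => rw [h] at h1; simp at h1
  | some l =>
    rw [h] at h1
    have h4 : (l : Multiset ℕ) = s.1 := by simpa using h1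
    rw [Option.getD_some, ← Finset.mem_val, ← h4, Multiset.mem_coe]

/-- the least strict upper bound of a list -/
def lb (l : List ℕ) : ℕ := l.foldl (fun m y => max m (y + 1)) 0

theorem lb_comp : Computable lb := by
  have h : Primrec lb := by
    have h3 : Primrec₂ fun (_ : List ℕ) (p : ℕ × ℕ) => max p.1 (p.2 + 1) :=
      (Primrec.nat_max.comp (Primrec.fst.comp Primrec.snd)
        (Primrec.succ.comp (Primrec.snd.comp Primrec.snd))).to₂
    exact (Primrec.list_foldl (f := fun l : List ℕ => l) (g := fun _ => 0)
      (h := fun _ p => max p.1 (p.2 + 1)) Primrec.id (Primrec.const 0) h3)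
  exact h.to_comp

theorem lb_aux (l : List ℕ) : ∀ m, m ≤ l.foldl (fun m y => max m (y + 1)) m ∧
    (∀ y ∈ l, y < l.foldl (fun m y => max m (y + 1)) m) ∧
    (l.foldl (fun m y => max m (y + 1)) m = m ∨
      ∃ y ∈ l, l.foldl (fun m y => max m (y + 1)) m = y + 1) := by
  induction l with
  | nil => intro m; simp
  | cons a l ih =>
    intro m
    obtain ⟨h1, h2, h3⟩ := ih (max m (a + 1))
    refine ⟨le_trans (le_max_left _ _) h1, ?_, ?_⟩
    · intro y hy
      rcases List.mem_cons.1 hy with rfl | hy
      · exact lt_of_lt_of_le (Nat.lt_succ_self _) (le_trans (le_max_right _ _) h1)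
      · exact h2 y hy
    · rcases h3 with h3 | ⟨y, hy, h3⟩
      · rw [List.foldl_cons, h3]
        rcases le_total m (a + 1) with h | h
        · right; exact ⟨a, List.mem_cons_self, max_eq_right h⟩
        · left; exact max_eq_left h
      · right; exact ⟨y, List.mem_cons_of_mem _ hy, h3⟩

/-- The negation of the preceding statement: For every noncomputable A Turing-below the halting set there is a computable, locally finite, planar graph on ℕ whose neighbour lists are A-computable, with chromatic number 2, but with no computable proper colouring using finitely many colours. -/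
theorem result :
    ¬ (∀ A : Set ℕ,
      ¬ ComputablePred (fun n : ℕ => n ∈ A) →
      TuringReducible (fun n : ℕ => Part.some (if n ∈ A then (1 : ℕ) else 0))
        (fun n : ℕ => Part.some
          (if ((Denumerable.ofNat Nat.Partrec.Code n).eval n).Dom then (1 : ℕ) else 0)) →
      ∃ G : SimpleGraph ℕ,
        ComputablePred (fun p : ℕ × ℕ => G.Adj p.1 p.2) ∧
        (∃ N : ℕ → Finset ℕ, (∀ x y : ℕ, G.Adj x y ↔ y ∈ N x) ∧
          TuringReducible (fun x : ℕ => Part.some (Encodable.encode (N x)))
            (fun n : ℕ => Part.some (if n ∈ A then (1 : ℕ) else 0))) ∧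
        (∃ f : ℕ → EuclideanSpace ℝ (Fin 2), Function.Injective f ∧
          ∃ γ : ∀ u v : ℕ, Path (f u) (f v),
            (∀ u v : ℕ, G.Adj u v → Function.Injective (fun t : unitInterval => γ u v t)) ∧
            (∀ u v w : ℕ, G.Adj u v → ∀ t : unitInterval, γ u v t = f w → w = u ∨ w = v) ∧
            (∀ u v u' v' : ℕ, G.Adj u v → G.Adj u' v' →
              Sym2.mk (u, v) ≠ Sym2.mk (u', v') →
              ∀ t t' : unitInterval, γ u v t = γ u' v' t' →
                ∃ w : ℕ, (w = u ∨ w = v) ∧ (w = u' ∨ w = v') ∧ γ u v t = f w)) ∧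
        G.chromaticNumber = 2 ∧
        ∀ k : ℕ, ∀ c : ℕ → ℕ, Computable c → (∀ x, c x < k) →
          ∃ x y : ℕ, G.Adj x y ∧ c x = c y) := by
  intro H
  have hchi : (fun n : ℕ => Part.some (if n ∈ GS then (1 : ℕ) else 0)) =
      ((gG : ℕ → ℕ) : ℕ →. ℕ) := by
    funext n
    show Part.some _ = Part.some _
    congr 1
    unfold gG
    cases hg : G n with
    | true => exact if_pos hg
    | false => exact if_neg (fun hh : G n = true => by rw [hg] at hh; exact absurd hh (by simp))
  have hred : TuringReducible (fun n : ℕ => Part.some (if n ∈ GS then (1 : ℕ) else 0))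
        (fun n : ℕ => Part.some
          (if ((Denumerable.ofNat Nat.Partrec.Code n).eval n).Dom then (1 : ℕ) else 0)) := by
    rw [hchi]
    exact Helper743.TR_iff.1 gG_TR_KD
  obtain ⟨Gr, hAdj, ⟨N, hN, hNred⟩, _, hcn, hcol⟩ := H GS GS_not_computable hred
  rw [hchi] at hNred
  -- the bound on the neighbours
  let F : ℕ → ℕ := fun x => Encodable.encode (N x)
  have hF : Helper743.TR F gG := Helper743.TR_iff.2 hNred
  let b : ℕ → ℕ := fun x => lb ((Encodable.decode (α := List ℕ) (F x)).getD [])
  have hbTR : Helper743.TR b gG := by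
    have h1 : Computable fun z : ℕ => lb ((Encodable.decode (α := List ℕ) z).getD []) :=
      lb_comp.comp (Computable.option_getD Computable.decode (Computable.const []))
    exact (Helper743.Computable.recT h1).comp hF
  have hb1 : ∀ x y, Gr.Adj x y → y < b x := by
    intro x y hxy
    have h1 : y ∈ (Encodable.decode (α := List ℕ) (F x)).getD [] :=
      (mem_decode (N x) y).2 ((hN x y).1 hxy)
    exact (lb_aux _ 0).2.1 y h1
  have hb2 : ∀ x, b x = 0 ∨ (b x ≠ 0 ∧ Gr.Adj x (b x - 1)) := by
    intro x
    rcases (lb_aux ((Encodable.decode (α := List ℕ) (F x)).getD []) 0).2.2 with h | ⟨y, hy, h⟩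
    · exact Or.inl h
    · right
      have h' : b x = y + 1 := h
      refine ⟨by omega, ?_⟩
      rw [h', Nat.add_sub_cancel]
      exact (hN x y).2 ((mem_decode (N x) y).1 hy)
  obtain ⟨adj, hadjc, hadj⟩ : ∃ adj : ℕ → ℕ → Bool, Computable₂ adj ∧
      ∀ x y, adj x y = true ↔ Gr.Adj x y := by
    obtain ⟨inst, h⟩ := hAdj
    refine ⟨fun x y => decide (Gr.Adj x y), ?_, fun x y => by simp⟩
    refine h.of_eq ?_
    intro p
    exact (decide_eq_decide.2 Iff.rfl)
  have hbre : REPred fun p : ℕ × ℕ => b p.1 ≠ p.2 := by
    let q : ℕ × ℕ → ℕ → Bool := fun p n =>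
      ((!(p.2 == 0)) && !(adj p.1 (p.2 - 1))) || ((!(decide (n < p.2))) && adj p.1 n)
    have hq : Computable₂ q := by
      have a1 : Computable fun r : (ℕ × ℕ) × ℕ => r.1.1 := Computable.fst.comp Computable.fst
      have a2 : Computable fun r : (ℕ × ℕ) × ℕ => r.1.2 := Computable.snd.comp Computable.fst
      have a3 : Computable fun r : (ℕ × ℕ) × ℕ => r.2 := Computable.snd
      have a4 : Computable fun r : (ℕ × ℕ) × ℕ => r.1.2 - 1 :=
        Primrec.nat_sub.to_comp.comp a2 (Computable.const 1)
      exact cor (cand (cnot (cbeqN a2 (Computable.const 0))) (cnot (hadjc.comp a1 a4)))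
        (cand (cnot (clt a3 a2)) (hadjc.comp a1 a3))
    refine (re_of_ex hq).of_eq ?_
    rintro ⟨x, c⟩
    show (∃ n, q (x, c) n = true) ↔ b x ≠ c
    constructor
    · rintro ⟨n, hn⟩ heq
      simp only [q, Bool.or_eq_true, Bool.and_eq_true, Bool.not_eq_true', beq_eq_false_iff_ne,
        decide_eq_false_iff_not] at hn
      rcases hn with ⟨h1, h2⟩ | ⟨h1, h2⟩
      · rcases hb2 x with h | ⟨_, h⟩
        · exact h1 (by omega)
        · rw [heq] at h
          rw [(hadj x (c - 1)).2 h] at h2
          exact absurd h2 (by simp)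
      · have := hb1 x n ((hadj x n).1 h2)
        omega
    · intro hne
      by_cases h0 : ∃ n, ¬ n < c ∧ Gr.Adj x n
      · obtain ⟨n, h1, h2⟩ := h0
        refine ⟨n, ?_⟩
        simp only [q, Bool.or_eq_true, Bool.and_eq_true, Bool.not_eq_true', beq_eq_false_iff_ne,
          decide_eq_false_iff_not]
        exact Or.inr ⟨h1, (hadj x n).2 h2⟩
      · refine ⟨0, ?_⟩
        simp only [q, Bool.or_eq_true, Bool.and_eq_true, Bool.not_eq_true', beq_eq_false_iff_ne,
          decide_eq_false_iff_not]
        left
        push Not at h0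
        have hlt : b x < c := by
          rcases hb2 x with h | ⟨hz, h⟩
          · omega
          · have h3 := mt (h0 (b x - 1)) (not_not.2 h)
            omega
        refine ⟨by omega, ?_⟩
        rw [← Bool.not_eq_true]
        intro hh
        have := hb1 x (c - 1) ((hadj x (c - 1)).1 hh)
        omega
  have hbc : Computable b := generic_comp hbTR hbre
  -- the 2-colouring
  have hcolble : Gr.Colorable 2 := by
    have h1 : Gr.chromaticNumber ≤ (2 : ℕ) := by rw [hcn]; rfl
    exact SimpleGraph.chromaticNumber_le_iff_colorable.1 h1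
  obtain ⟨C⟩ := hcolble
  obtain ⟨c, hcc, hc4, hcp⟩ := exists_colouring Gr hAdj b hbc hb1
    (fun x => decide (C x = 0)) (by
      intro x y hxy heq
      have h1 := C.valid hxy
      simp only [decide_eq_decide] at heq
      apply h1
      have hx : (C x).val < 2 := (C x).isLt
      have hy : (C y).val < 2 := (C y).isLt
      have ex : C x = 0 ↔ (C x).val = 0 := by
        constructor
        · intro h; rw [h]; rfl
        · intro h; exact Fin.ext h
      have ey : C y = 0 ↔ (C y).val = 0 := by
        constructor
        · intro h; rw [h]; rfl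
        · intro h; exact Fin.ext h
      rw [ex, ey] at heq
      exact Fin.ext (by omega))
  obtain ⟨x, y, h1, h2⟩ := hcol 4 c hcc hc4
  exact hcp x y h1 h2

end Pool.Agent.S14568
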