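import Pool.Statements.S14613
import Pool.Agent.H25R3.Kerdock.Core
-- import your own Pool.Agent.* helpers here

set_option autoImplicit false
open Pool Pool.MP_3ca114_lc

namespace Pool.Agent.S14613

open Finset Pool.Agent.H25R3.Kerdock

theorem card_eq_two_pow {W : Type*} [AddCommGroup W] [Module (ZMod 2) W] [Finite W] :
    Nat.card W = 2 ^ Module.finrank (ZMod 2) W := by
  have : Fintype W := Fintype.ofFinite _
  have : Module.Finite (ZMod 2) W := Module.Finite.of_finite
  have h := Module.card_eq_pow_finrank (K := ZMod 2) (V := W)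
  rw [Nat.card_eq_fintype_card, h]
  simp

theorem partA (k : ℕ) (hk : 2 ≤ k) (C : Submodule (ZMod 2) (Fin (4 ^ k) → ZMod 2))
    (hC : ∀ x ∈ C, ∀ y ∈ C, x ≠ y → 6 ≤ hammingDist x y) :
    Nat.card C ≤ 2 ^ (4 ^ k - 4 * k - 1) := by
  classical
  have h16 : 4 * k + 1 ≤ 4 ^ k := by
    induction k, hk using Nat.le_induction with
    | base => norm_num
    | succ k hk ih =>
      have h1 : 4 * k + 1 ≤ 4 ^ k := by
        clear ih C hC
        induction k, hk using Nat.le_induction with
        | base => norm_num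
        | succ j hj ih2 => rw [pow_succ]; omega
      rw [pow_succ]; omega
  by_contra hcon
  push Not at hcon
  rw [card_eq_two_pow] at hcon
  have hfr : 4 ^ k - 4 * k - 1 < Module.finrank (ZMod 2) C :=
    (Nat.pow_lt_pow_iff_right (by norm_num)).1 hcon
  have hpos : 0 < 4 ^ k := by positivity
  let z : Fin (4 ^ k) := ⟨0, hpos⟩
  let e0 : Fin (4 ^ k) → ZMod 2 := Pi.single z 1
  have he0 : e0 ∉ C := by
    intro h
    have h1 := hC e0 h 0 C.zero_mem (by
      intro h0
      have := congrFun h0 z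
      simp [e0] at this)
    have h2 : hammingDist e0 0 ≤ 1 := by
      unfold hammingDist
      rw [Finset.card_le_one]
      intro a ha b hb
      have key : ∀ i, i ∈ (Finset.univ.filter fun i => e0 i ≠ (0 : Fin (4 ^ k) → ZMod 2) i) →
          i = z := by
        intro i hi
        rw [Finset.mem_filter] at hi
        by_contra hne
        apply hi.2
        simp [e0, hne]
      rw [key a ha, key b hb]
    omega
  let C' : Submodule (ZMod 2) (Fin (4 ^ k) → ZMod 2) := C ⊔ Submodule.span (ZMod 2) {e0}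
  have hlt : C < C' := by
    refine lt_of_le_of_ne le_sup_left ?_
    intro h
    apply he0
    rw [h]
    exact Submodule.mem_sup_right (Submodule.mem_span_singleton_self e0)
  have hfr' : Module.finrank (ZMod 2) C < Module.finrank (ZMod 2) C' :=
    Submodule.finrank_lt_finrank_of_lt hlt
  have hq := Submodule.finrank_quotient_add_finrank C'
  rw [Module.finrank_fin_fun] at hq
  have : Finite ((Fin (4 ^ k) → ZMod 2) ⧸ C') := Quotient.finite _
  have : Fintype ((Fin (4 ^ k) → ZMod 2) ⧸ C') := Fintype.ofFinite _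
  have hcQ : 2 * Fintype.card ((Fin (4 ^ k) → ZMod 2) ⧸ C') ≤ (4 ^ k) ^ 2 := by
    rw [← Nat.card_eq_fintype_card, card_eq_two_pow]
    have h1 : (4 ^ k) ^ 2 = 2 ^ (4 * k) := by
      rw [← pow_mul, show (4 : ℕ) = 2 ^ 2 by norm_num, ← pow_mul]
      congr 1; ring
    rw [h1, mul_comm, ← pow_succ]
    apply Nat.pow_le_pow_right (by norm_num)
    omega
  let p : Fin (4 ^ k) → ((Fin (4 ^ k) → ZMod 2) ⧸ C') := fun i => C'.mkQ (Pi.single i 1)
  have hw : ∀ t : Finset (Fin (4 ^ k)), ∀ j, (∑ i ∈ t, Pi.single (M := fun _ => ZMod 2) i 1) j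
      = if j ∈ t then (1 : ZMod 2) else 0 := by
    intro t j
    rw [Finset.sum_apply]
    simp [Pi.single_apply]
  have hmain : ∀ t : Finset (Fin (4 ^ k)), 1 < t.card → t.card ≤ 4 → ∑ i ∈ t, p i ≠ 0 := by
    intro t ht1 ht4 hsum
    have h1 : ∑ i ∈ t, p i = C'.mkQ (∑ i ∈ t, Pi.single (M := fun _ => ZMod 2) i 1) := by
      rw [map_sum]
    rw [h1] at hsum
    have h2 : (∑ i ∈ t, Pi.single (M := fun _ => ZMod 2) i 1) ∈ C' :=
      (Submodule.Quotient.mk_eq_zero C').1 hsum
    obtain ⟨c, hcC, y, hy, hcy⟩ := Submodule.mem_sup.1 h2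
    obtain ⟨a, rfl⟩ := Submodule.mem_span_singleton.1 hy
    obtain ⟨i, hit, hiz⟩ := Finset.exists_mem_ne ht1 z
    have hci : c i = 1 := by
      have h3 := congrFun hcy i
      rw [hw, if_pos hit] at h3
      simpa [e0, hiz] using h3
    have hc0 : c ≠ 0 := by
      intro h
      rw [h] at hci
      exact zero_ne_one hci
    have h4 := hC c hcC 0 C.zero_mem hc0
    have h5 : hammingDist c 0 ≤ (insert z t).card := by
      unfold hammingDist
      apply Finset.card_le_card
      intro j hj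
      rw [Finset.mem_filter] at hj
      by_contra hjn
      rw [Finset.mem_insert, not_or] at hjn
      apply hj.2
      have h3 := congrFun hcy j
      rw [hw, if_neg hjn.2] at h3
      simpa [e0, hjn.1] using h3
    have h6 := Finset.card_insert_le z t
    omega
  refine lemA (Q := (Fin (4 ^ k) → ZMod 2) ⧸ C') (fun q => add_self_V q) k hk
    (Fintype.card_fin _) hcQ p ?_ ?_
  · intro t ht; exact hmain t (by omega) (by omega)
  · intro t ht; exact hmain t (by omega) (by omega)

theorem sum_chi_eq {N : ℕ} (x : Fin N → ZMod 2) :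
    ∑ i, chi (x i) = (N : ℤ) - 2 * (hammingDist x 0 : ℤ) := by
  unfold hammingDist
  have h1 : ∀ i, chi (x i) = 1 - 2 * (if x i ≠ (0 : Fin N → ZMod 2) i then (1 : ℤ) else 0) := by
    intro i
    have : ∀ a : ZMod 2, chi a = 1 - 2 * (if a ≠ 0 then (1 : ℤ) else 0) := by decide
    exact this _
  rw [Finset.sum_congr rfl (fun i _ => h1 i), Finset.sum_sub_distrib, ← Finset.mul_sum,
    Finset.sum_boole]
  simp

theorem partB (k : ℕ) (hk : 3 ≤ k) (C : Submodule (ZMod 2) (Fin (4 ^ k) → ZMod 2))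
    (hC : ∀ x ∈ C, ∀ y ∈ C, x ≠ y → 4 ^ k ≤ 2 * hammingDist x y + 2 ^ k) :
    Nat.card C ≤ 2 ^ (4 * k - 1) := by
  classical
  by_contra hcon
  push Not at hcon
  rw [card_eq_two_pow] at hcon
  have hfr : 4 * k - 1 < Module.finrank (ZMod 2) C :=
    (Nat.pow_lt_pow_iff_right (by norm_num)).1 hcon
  obtain ⟨f, hf⟩ := exists_linearIndependent_of_le_finrank (R := ZMod 2) (M := C) (n := 4 * k)
    (by omega)
  rw [linearIndependent_iff_injective_fintypeLinearCombination] at hf
  let φ : (Fin (4 * k) → ZMod 2) →ₗ[ZMod 2] (Fin (4 ^ k) → ZMod 2) :=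
    C.subtype ∘ₗ Fintype.linearCombination (ZMod 2) f
  have hφmem : ∀ c, φ c ∈ C := fun c => (Fintype.linearCombination (ZMod 2) f c).2
  have hφinj : Function.Injective φ := fun a b hab => hf (Subtype.ext hab)
  have hφne : ∀ c, c ≠ 0 → φ c ≠ 0 := by
    intro c hc h
    apply hc
    apply hφinj
    rw [h, map_zero]
  let p0 : Fin (4 ^ k) → ((Fin (4 * k) → ZMod 2) →ₗ[ZMod 2] ZMod 2) :=
    fun i => (LinearMap.proj i) ∘ₗ φ
  have hz : 0 < 4 * k := by omega
  let q : (Fin (4 * k) → ZMod 2) →ₗ[ZMod 2] ZMod 2 := LinearMap.proj ⟨0, hz⟩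
  have hq : q ≠ 0 := by
    intro h
    have h1 := LinearMap.congr_fun h (fun _ => 1)
    exact one_ne_zero h1
  refine kerdock_core k hk (Fintype.card_fin _) ?_ (fun i => if p0 i = 0 then q else p0 i) ?_ ?_
  · rw [Fintype.card_fun, ZMod.card, Fintype.card_fin, show (4 : ℕ) ^ k = 2 ^ (2 * k) by
      rw [pow_mul]; norm_num, ← pow_mul]
    congr 1; ring
  · intro i
    split_ifs with h
    · exact hq
    · exact h
  · intro c hc
    have h1 : SS (fun i => if p0 i = 0 then q else p0 i) c ≤ ∑ i, chi (φ c i) := by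
      unfold SS
      refine Finset.sum_le_sum (fun i _ => ?_)
      dsimp only
      split_ifs with h
      · have h2 : φ c i = 0 := LinearMap.congr_fun h c
        rw [h2, chi_zero]
        rcases chi_cases (q c) with h3 | h3 <;> rw [h3] <;> norm_num
      · exact le_refl _
    rw [sum_chi_eq] at h1
    have h2 := hC (φ c) (hφmem c) 0 C.zero_mem (hφne c hc)
    have h3 : ((4 ^ k : ℕ) : ℤ) ≤ 2 * (hammingDist (φ c) 0 : ℤ) + 2 ^ k := by
      exact_mod_cast h2
    linarith

theorem partA' (N k : ℕ) (hN : N = 4 ^ k) (hk : 2 ≤ k) (C : Submodule (ZMod 2) (Fin N → ZMod 2))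
    (hC : ∀ x ∈ C, ∀ y ∈ C, x ≠ y → 6 ≤ hammingDist x y) :
    Nat.card C ≤ 2 ^ (N - 4 * k - 1) := by
  subst hN
  exact partA k hk C hC

theorem partB' (N k : ℕ) (hN : N = 4 ^ k) (hk : 3 ≤ k) (C : Submodule (ZMod 2) (Fin N → ZMod 2))
    (hC : ∀ x ∈ C, ∀ y ∈ C, x ≠ y → 4 ^ k ≤ 2 * hammingDist x y + 2 ^ k) :
    Nat.card C ≤ 2 ^ (4 * k - 1) := by
  subst hN
  exact partB k hk C hC

/-- For every even m ≥ 4: every binary linear code of length 2^m with minimum distance 6 has at most 2^(2^m−2m−1) words, and every one with minimum distance 2^(m−1)−2^((m−2)/2) has at most 2^(2m−1) words. -/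
theorem result :
    ∀ m : ℕ, Even m → 4 ≤ m →
      (∀ C : Submodule (ZMod 2) (Fin (2 ^ m) → ZMod 2),
          (∀ x ∈ C, ∀ y ∈ C, x ≠ y → 6 ≤ hammingDist x y) →
          (∃ x ∈ C, ∃ y ∈ C, x ≠ y ∧ hammingDist x y = 6) →
          Nat.card C ≤ 2 ^ (2 ^ m - 2 * m - 1)) ∧
      (∀ C : Submodule (ZMod 2) (Fin (2 ^ m) → ZMod 2),
          (∀ x ∈ C, ∀ y ∈ C, x ≠ y →
              2 ^ (m - 1) - 2 ^ ((m - 2) / 2) ≤ hammingDist x y) →
          (∃ x ∈ C, ∃ y ∈ C, x ≠ y ∧
              hammingDist x y = 2 ^ (m - 1) - 2 ^ ((m - 2) / 2)) →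
          Nat.card C ≤ 2 ^ (2 * m - 1)) := by
  intro m hm h4
  obtain ⟨k, rfl⟩ := hm
  have hN : 2 ^ (k + k) = 4 ^ k := by
    rw [← two_mul, pow_mul]; norm_num
  refine ⟨fun C hC _ => ?_, fun C hC _ => ?_⟩
  · have h := partA' _ k hN (by omega) C hC
    rwa [show 4 * k = 2 * (k + k) by ring] at h
  · have e1 : (k + k - 2) / 2 = k - 1 := by omega
    rw [e1] at hC
    have e2 : 2 ^ (k + k - 1) * 2 = 4 ^ k := by
      rw [← pow_succ, ← hN]; congr 1; omega
    have e3 : 2 ^ (k - 1) * 2 = 2 ^ k := by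
      rw [← pow_succ]; congr 1; omega
    rcases Nat.lt_or_ge k 3 with hk | hk
    · have hk2 : k = 2 := by omega
      subst hk2
      have h := partA' _ 2 hN (le_refl _) C (fun x hx y hy hxy => by
        have := hC x hx y hy hxy
        norm_num at this
        exact this)
      norm_num at h ⊢
      exact h
    · have h := partB' _ k hN hk C (fun x hx y hy hxy => by
        have := hC x hx y hy hxy
        omega)
      rwa [show 4 * k = 2 * (k + k) by ring] at h

end Pool.Agent.S14613
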