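import Pool.Statements.S14615
import Pool.Agent.H476R3.Iso.Dbl
import Pool.Agent.H377R3.IsoRE
import Pool.Agent.H476R3.Gamma
import Pool.Agent.H476R3.Iso.Code

set_option autoImplicit false
open Pool Pool.MP_3d45c4_lc

namespace Pool.Agent.S14615

open Pool.Agent.H476R3.Iso.HC Pool.Agent.H476R3.Iso.Dbl

/-- Isomorphism of finitely presented groups, as a relation on codes of finite presentations, is computably enumerable, and every c.e. equivalence relation on ℕ computably reduces to it. -/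
theorem result :
    ∀ E : ℕ × List (List (ℕ × Bool)) → ℕ × List (List (ℕ × Bool)) → Prop,
      (∀ a b, E a b ↔ Nonempty
        (PresentedGroup {g : FreeGroup (Fin a.1) | ∃ w ∈ a.2, g = FreeGroup.mk
            (w.filterMap (fun q => if h : q.1 < a.1 then some ((⟨q.1, h⟩ : Fin a.1), q.2) else none))}
          ≃* PresentedGroup {g : FreeGroup (Fin b.1) | ∃ w ∈ b.2, g = FreeGroup.mk
            (w.filterMap (fun q => if h : q.1 < b.1 then some ((⟨q.1, h⟩ : Fin b.1), q.2) else none))})) →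
      REPred (fun p : (ℕ × List (List (ℕ × Bool))) × (ℕ × List (List (ℕ × Bool))) => E p.1 p.2) ∧
      ∀ R : ℕ → ℕ → Prop, Equivalence R → REPred (fun p : ℕ × ℕ => R p.1 p.2) →
        ∃ f : ℕ → ℕ × List (List (ℕ × Bool)), Computable f ∧ ∀ x y, R x y ↔ E (f x) (f y) := by
  intro E hE
  refine ⟨Pool.Agent.H377R3.IsoRE.iso_re E hE, ?_⟩
  intro R hR hRE
  obtain ⟨X, hX, rels, A, x, t, N, hr, hA, hxt, hN, hRN⟩ :=
    Pool.Agent.H476R3.Gamma.exists_gamma R hR hRE
  obtain ⟨f, hf, hfe⟩ :=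
    Pool.Agent.H476R3.Iso.Code.exists_code rels A hr hA x t N hN
  refine ⟨f, hf, fun n m => ?_⟩
  obtain ⟨en⟩ := hfe n
  obtain ⟨em⟩ := hfe m
  have h1 : E (f n) (f m) ↔ Nonempty
      (MG rels A x t ((FreeGroup.of x ^ N n)⁻¹ * FreeGroup.of t * FreeGroup.of x ^ N n) ≃*
        MG rels A x t ((FreeGroup.of x ^ N m)⁻¹ * FreeGroup.of t * FreeGroup.of x ^ N m)) := by
    rw [hE]
    exact ⟨fun ⟨e⟩ => ⟨(en.symm.trans e).trans em⟩, fun ⟨e⟩ => ⟨(en.trans e).trans em.symm⟩⟩
  have hg : (FreeGroup.of x ^ N n)⁻¹ * FreeGroup.of t * FreeGroup.of x ^ N n ∈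
      Subgroup.closure {FreeGroup.of x, FreeGroup.of t} := by
    have hx : FreeGroup.of x ∈ Subgroup.closure {FreeGroup.of x, FreeGroup.of t} :=
      Subgroup.subset_closure (by simp)
    have ht : FreeGroup.of t ∈ Subgroup.closure {FreeGroup.of x, FreeGroup.of t} :=
      Subgroup.subset_closure (by simp)
    exact mul_mem (mul_mem (inv_mem (pow_mem hx _)) ht) (pow_mem hx _)
  rw [h1, iso_iff rels A x t hxt hg]
  constructor
  · intro h
    exact (hRN m n).mp (hR.symm h)
  · intro h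
    exact hR.symm ((hRN m n).mpr h)

end Pool.Agent.S14615
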