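import Pool.Statements.S14625
import Pool.Agent.H534R3.CircNull
import Pool.Agent.H534R3.Rot

set_option autoImplicit false
open Pool Pool.MP_4045d2_lc

namespace Pool.Agent.S14625

/-- For every n ≥ 2, the group of orientation-preserving homeomorphisms of the n-sphere (compact-open topology) is the union of a meagre set and a Haar null set, i.e. a set inside a Borel set all of whose two-sided translates are null for one probability measure. -/
theorem result :
  ∀ n : ℕ, 2 ≤ n →
  ∀ S : Set (EuclideanSpace ℝ (Fin (n + 1))), S = Metric.sphere 0 1 →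
  ∀ G : Set C(S, S),
    G = {f : C(S, S) | Function.Bijective (f : S → S) ∧
          ContinuousMap.Homotopic f (ContinuousMap.id (↥S))} →
  ∀ m : MeasurableSpace G, m = borel G →
  ∃ M N : Set G, M ∪ N = Set.univ ∧ IsMeagre M ∧
    ∃ B : Set G, N ⊆ B ∧ MeasurableSet B ∧
    ∃ μ : MeasureTheory.Measure G, MeasureTheory.IsProbabilityMeasure μ ∧
      ∀ g h : G,
        μ {x : G | ∃ b ∈ B,
          (x : C(S, S)) = (g : C(S, S)).comp ((b : C(S, S)).comp (h : C(S, S)))} = 0 := by
  intro n hn S hS G hG m hm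
  obtain ⟨d, rfl⟩ : ∃ d, n = d + 1 := ⟨n - 1, by omega⟩
  subst hS
  subst hG
  exact Pool.Agent.H534R3.CircNull.decompose (X := Pool.Agent.H534R3.Rot.SS d)
    {f | Function.Bijective f ∧ ContinuousMap.Homotopic f (ContinuousMap.id _)}
    (fun f hf => hf.1) Pool.Agent.H534R3.Rot.RS Pool.Agent.H534R3.Rot.continuous_RS
    (fun s => ⟨Pool.Agent.H534R3.Rot.RS_bijective s, Pool.Agent.H534R3.Rot.RS_homotopic s⟩)
    Pool.Agent.H534R3.Rot.RS_zero Pool.Agent.H534R3.Rot.RS_add 1 one_pos
    Pool.Agent.H534R3.Rot.sphere_big m hm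

end Pool.Agent.S14625
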