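import Pool.Statements.S14633
import Pool.Agent.Helper446.Deg

set_option autoImplicit false
open Pool Pool.MP_40fdec_lc

namespace Pool.Agent.S14633

open Pool.Agent.Helper446 Pool.Agent.Helper446.Oracle Pool.Agent.Helper446.Defs
open Nat.Partrec (Code)

/-- The column of a position. -/
def col (n : ℕ) : ℕ := n.unpair.1

/-- The position of the code of a pair. -/
def pos (y : ℕ) : ℕ := y.unpair.1

/-- The value of the code of a pair. -/
def val (y : ℕ) : ℕ := y.unpair.2

/-- The axiom with the use `u` for `x` belongs to the operator given by `c`. -/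
def op (c : Code) (x u : ℕ) : Prop := (c.eval (Nat.pair x u)).Dom

/-- The finite set `u` is consistent with `h` on the columns below `k`. -/
def Con (h : ℕ → ℕ) (k u : ℕ) : Prop :=
  ∀ y, u.testBit y = true → col (pos y) < k → h (pos y) ≠ val y

/-- The operator splits. -/
def Split (c : Code) (h : ℕ → ℕ) (k : ℕ) (p : ℕ × ℕ × ℕ) : Prop :=
  op c (2 * p.1) p.2.1 ∧ op c (2 * p.1 + 1) p.2.2 ∧ Con h k p.2.1 ∧ Con h k p.2.2

/-- The elements of the finite set coded by `u`. -/
def bits (u : ℕ) : Finset ℕ := (Finset.range u).filter fun y => u.testBit y = true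

theorem mem_bits {u y : ℕ} : y ∈ bits u ↔ u.testBit y = true := by
  unfold bits
  rw [Finset.mem_filter, Finset.mem_range]
  constructor
  · exact fun h => h.2
  · intro h
    refine ⟨?_, h⟩
    have h1 : 2 ^ y ≤ u := Nat.ge_two_pow_of_testBit h
    exact lt_of_lt_of_le (Nat.lt_two_pow_self) h1

open Classical in
/-- The new forbidden set. -/
noncomputable def nextF (k : ℕ) (s : (ℕ → ℕ) × Finset ℕ) : Finset ℕ :=
  if h : ∃ p, Split (Denumerable.ofNat Code k) s.1 k p then
    s.2 ∪ (bits h.choose.2.1 ∪ bits h.choose.2.2) else s.2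

open Classical in
/-- The next state. -/
noncomputable def next (Z : ℕ → Set ℕ) (k : ℕ) (s : (ℕ → ℕ) × Finset ℕ) :
    (ℕ → ℕ) × Finset ℕ :=
  (fun n => if col n = k then
    (if ∃ y ∈ nextF k s, pos y = n then (nextF k s).sup val + 1 else chiN (Z k) n.unpair.2)
    else s.1 n, nextF k s)

/-- The sequence of states. -/
noncomputable def st (Z : ℕ → Set ℕ) : ℕ → (ℕ → ℕ) × Finset ℕ
  | 0 => (fun _ => 0, ∅)
  | k + 1 => next Z k (st Z k)

/-- The function built. -/
noncomputable def fn (Z : ℕ → Set ℕ) (n : ℕ) : ℕ := (st Z (col n + 1)).1 n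

variable {Z : ℕ → Set ℕ}

theorem st_eq {n : ℕ} : ∀ k, col n < k → (st Z k).1 n = fn Z n := by
  intro k
  induction k with
  | zero => intro h; omega
  | succ k ih =>
    intro h
    rcases Nat.lt_succ_iff_lt_or_eq.1 h with h1 | h1
    · rw [← ih h1]
      show (if col n = k then _ else (st Z k).1 n) = _
      rw [if_neg (by omega)]
    · subst h1
      rfl

theorem subset_nextF (k : ℕ) (s : (ℕ → ℕ) × Finset ℕ) : s.2 ⊆ nextF k s := by
  unfold nextF
  split_ifs with h
  · exact Finset.subset_union_left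
  · exact Finset.Subset.refl _

theorem st_mono {j k : ℕ} (h : j ≤ k) : (st Z j).2 ⊆ (st Z k).2 := by
  induction k with
  | zero => rw [Nat.le_zero.1 h]
  | succ k ih =>
    rcases Nat.le_succ_iff.1 h with h1 | h1
    · exact (ih h1).trans (subset_nextF k _)
    · rw [h1]

theorem con_congr {h h' : ℕ → ℕ} {k u : ℕ} (hh : ∀ n, col n < k → h n = h' n) :
    Con h k u ↔ Con h' k u := by
  unfold Con
  constructor
  · intro h1 y hy hk
    rw [← hh _ hk]; exact h1 y hy hk
  · intro h1 y hy hk
    rw [hh _ hk]; exact h1 y hy hk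

theorem inv (k : ℕ) : ∀ y ∈ (st Z k).2, col (pos y) < k → (st Z k).1 (pos y) ≠ val y := by
  induction k with
  | zero => intro y hy h; omega
  | succ k ih =>
    intro y hy h
    have hy' : y ∈ nextF k (st Z k) := hy
    show (if col (pos y) = k then (if ∃ y' ∈ nextF k (st Z k), pos y' = pos y then
      (nextF k (st Z k)).sup val + 1 else chiN (Z k) (pos y).unpair.2)
      else (st Z k).1 (pos y)) ≠ val y
    by_cases hk : col (pos y) = k
    · rw [if_pos hk, if_pos ⟨y, hy', rfl⟩]
      have := Finset.le_sup (f := val) hy'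
      omega
    · rw [if_neg hk]
      have hk' : col (pos y) < k := by omega
      unfold nextF at hy'
      split_ifs at hy' with hs
      · rcases Finset.mem_union.1 hy' with h1 | h1
        · exact ih y h1 hk'
        · have hsp := hs.choose_spec
          rcases Finset.mem_union.1 h1 with h2 | h2
          · exact hsp.2.2.1 y (mem_bits.1 h2) hk'
          · exact hsp.2.2.2 y (mem_bits.1 h2) hk'
      · exact ih y hy' hk'

theorem fn_ne {k y : ℕ} (hy : y ∈ (st Z k).2) : fn Z (pos y) ≠ val y := by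
  have h1 : y ∈ (st Z (max k (col (pos y) + 1))).2 := st_mono (le_max_left _ _) hy
  have h2 : col (pos y) < max k (col (pos y) + 1) := by
    have := le_max_right k (col (pos y) + 1)
    omega
  rw [← st_eq _ h2]
  exact inv _ y h1 h2

/-- If the `k`-th operator splits over `fn`, then it is inconsistent on the complement of the
graph. -/
theorem split_spec {k : ℕ} {p : ℕ × ℕ × ℕ}
    (h : Split (Denumerable.ofNat Code k) (fn Z) k p) :
    ∃ n u v, op (Denumerable.ofNat Code k) (2 * n) u ∧
      op (Denumerable.ofNat Code k) (2 * n + 1) v ∧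
      (∀ y, u.testBit y = true → fn Z (pos y) ≠ val y) ∧
      ∀ y, v.testBit y = true → fn Z (pos y) ≠ val y := by
  have hc : ∀ u, Con (st Z k).1 k u ↔ Con (fn Z) k u := fun u =>
    con_congr fun n hn => st_eq k hn
  have h1 : ∃ p, Split (Denumerable.ofNat Code k) (st Z k).1 k p :=
    ⟨p, h.1, h.2.1, (hc _).2 h.2.2.1, (hc _).2 h.2.2.2⟩
  have hF : (st Z (k + 1)).2 = (st Z k).2 ∪ (bits h1.choose.2.1 ∪ bits h1.choose.2.2) := by
    show nextF k (st Z k) = _
    unfold nextF
    rw [dif_pos h1]
  have hsp := h1.choose_spec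
  refine ⟨h1.choose.1, h1.choose.2.1, h1.choose.2.2, hsp.1, hsp.2.1, fun y hy => ?_,
    fun y hy => ?_⟩
  · refine fn_ne (k := k + 1) ?_
    rw [hF]
    exact Finset.mem_union_right _ (Finset.mem_union_left _ (mem_bits.2 hy))
  · refine fn_ne (k := k + 1) ?_
    rw [hF]
    exact Finset.mem_union_right _ (Finset.mem_union_right _ (mem_bits.2 hy))

/-- Column `i` is the characteristic function of `Z i` up to finitely many values. -/
theorem column (i : ℕ) : ∃ N, ∀ j, N ≤ j → fn Z (Nat.pair i j) = chiN (Z i) j := by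
  refine ⟨((st Z (i + 1)).2.sup fun y => (pos y).unpair.2) + 1, fun j hj => ?_⟩
  have hcol : col (Nat.pair i j) = i := by simp [col]
  unfold fn
  rw [hcol]
  show (if col (Nat.pair i j) = i then (if ∃ y' ∈ nextF i (st Z i), pos y' = Nat.pair i j then
      (nextF i (st Z i)).sup val + 1 else chiN (Z i) (Nat.pair i j).unpair.2)
      else (st Z i).1 (Nat.pair i j)) = _
  rw [if_pos hcol, Nat.unpair_pair, if_neg]
  rintro ⟨y, hy, hy2⟩
  have h1 : (pos y).unpair.2 ≤ (st Z (i + 1)).2.sup fun y => (pos y).unpair.2 :=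
    Finset.le_sup (f := fun y => (pos y).unpair.2) (show y ∈ (st Z (i + 1)).2 from hy)
  rw [hy2, Nat.unpair_pair] at h1
  simp only at h1
  omega

theorem indicator_eq (A : Set ℕ) : (fun n => Part.some (A.indicator (fun _ => (1 : ℕ)) n)) =
    chi A := by
  funext n
  unfold chi chiN
  congr 1

/-- The join of two sets. -/
def join (X Y : Set ℕ) : Set ℕ := {n : ℕ | (n % 2 = 0 ∧ n / 2 ∈ X) ∨ (n % 2 = 1 ∧ n / 2 ∈ Y)}

theorem rein_left {X Y : Set ℕ} : REIn (join X Y) (fun x => x ∈ X) ∧
    REIn (join X Y) fun x => x ∉ X := by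
  have h : ∀ x : ℕ, 2 * x ∈ join X Y ↔ x ∈ X := by
    intro x
    unfold join
    simp only [Set.mem_ofPred_eq]
    have h1 : 2 * x % 2 = 0 := by omega
    have h2 : 2 * x / 2 = x := by omega
    rw [h1, h2]
    simp
  constructor
  · exact (REIn.mem (A := join X Y) (f := fun x : ℕ => 2 * x) (by fun_prop)).of_eq h
  · exact (REIn.not_mem (A := join X Y) (f := fun x : ℕ => 2 * x) (by fun_prop)).of_eq
      fun x => not_congr (h x)

theorem rein_right {X Y : Set ℕ} : REIn (join X Y) (fun x => x ∈ Y) ∧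
    REIn (join X Y) fun x => x ∉ Y := by
  have h : ∀ x : ℕ, 2 * x + 1 ∈ join X Y ↔ x ∈ Y := by
    intro x
    unfold join
    simp only [Set.mem_ofPred_eq]
    have h1 : (2 * x + 1) % 2 = 1 := by omega
    have h2 : (2 * x + 1) / 2 = x := by omega
    rw [h1, h2]
    simp
  constructor
  · exact (REIn.mem (A := join X Y) (f := fun x : ℕ => 2 * x + 1) (by fun_prop)).of_eq h
  · exact (REIn.not_mem (A := join X Y) (f := fun x : ℕ => 2 * x + 1) (by fun_prop)).of_eq
      fun x => not_congr (h x)

/-- The graph of `fn` on the columns below `k` is computable from a member of the ideal. -/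
theorem graph_rein {I : Set (Set ℕ)} (hj : ∀ X Y : Set ℕ, X ∈ I → Y ∈ I → join X Y ∈ I)
    (hZ : ∀ i, Z i ∈ I) (k : ℕ) : ∃ W ∈ I, REIn W fun p : ℕ × ℕ =>
      col p.1 < k → fn Z p.1 ≠ p.2 := by
  induction k with
  | zero =>
    refine ⟨Z 0, hZ 0, (REIn.of_re (RE.const True)).of_eq fun p => ?_⟩
    constructor
    · intro _ h; omega
    · intro _; trivial
  | succ k ih =>
    obtain ⟨W, hW, hR⟩ := ih
    refine ⟨join W (Z k), hj _ _ hW (hZ k), ?_⟩
    have h1 : REIn (join W (Z k)) fun p : ℕ × ℕ => col p.1 < k → fn Z p.1 ≠ p.2 :=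
      Pool.Agent.Helper446.Deg.REIn.trans hR rein_left.1 rein_left.2
    obtain ⟨N, hN⟩ := column (Z := Z) k
    let L : List ℕ := (List.range N).map fun j => fn Z (Nat.pair k j)
    have h2 : REIn (join W (Z k)) fun p : ℕ × ℕ => p.1.unpair.1 ≠ k ∨
        ((p.1.unpair.2 < N ∧ L[p.1.unpair.2]? ≠ some p.2) ∨
          (N ≤ p.1.unpair.2 ∧ ((p.1.unpair.2 ∈ Z k ∧ p.2 ≠ 1) ∨
            (p.1.unpair.2 ∉ Z k ∧ p.2 ≠ 0)))) := by
      refine REIn.or (REIn.of_re (RE.ne (by fun_prop) (by fun_prop))) (REIn.or ?_ ?_)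
      · exact REIn.of_re (RE.and (RE.lt (by fun_prop) (by fun_prop))
          (RE.ne (by fun_prop) (by fun_prop)))
      · refine REIn.and (REIn.of_re (RE.le (by fun_prop) (by fun_prop))) (REIn.or ?_ ?_)
        · exact REIn.and (rein_right.1.comp (f := fun p : ℕ × ℕ => p.1.unpair.2) (by fun_prop))
            (REIn.of_re (RE.ne (by fun_prop) (by fun_prop)))
        · exact REIn.and (rein_right.2.comp (f := fun p : ℕ × ℕ => p.1.unpair.2) (by fun_prop))
            (REIn.of_re (RE.ne (by fun_prop) (by fun_prop)))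
    refine (h1.and h2).of_eq fun p => ?_
    obtain ⟨n, m⟩ := p
    have key : (n.unpair.1 ≠ k ∨ ((n.unpair.2 < N ∧ L[n.unpair.2]? ≠ some m) ∨
          (N ≤ n.unpair.2 ∧ ((n.unpair.2 ∈ Z k ∧ m ≠ 1) ∨
            (n.unpair.2 ∉ Z k ∧ m ≠ 0))))) ↔ (col n = k → fn Z n ≠ m) := by
      by_cases hk : n.unpair.1 = k
      · have hn : n = Nat.pair k n.unpair.2 := by rw [← hk, Nat.pair_unpair]
        generalize n.unpair.2 = j at *
        subst hn
        have hc : col (Nat.pair k j) = k := by simp [col]
        simp only [hc, ne_eq, not_true_eq_false, false_or, forall_const, hk]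
        rcases Nat.lt_or_ge j N with hj | hj
        · have hL : L[j]? = some (fn Z (Nat.pair k j)) := by
            simp [L, hj]
          rw [hL]
          constructor
          · rintro (⟨-, h⟩ | ⟨h, -⟩)
            · exact fun h' => h (by rw [h'])
            · omega
          · intro h
            left
            refine ⟨hj, fun h' => h ?_⟩
            simpa using h'
        · rw [hN j hj]
          by_cases hz : j ∈ Z k
          · rw [chiN_eq_one.2 hz]
            simp [hz, hj, eq_comm]
          · rw [chiN_eq_zero.2 hz]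
            simp [hz, hj, eq_comm]
      · constructor
        · intro _ h; exact absurd h hk
        · intro _; exact Or.inl hk
    show _ ∧ _ ↔ _
    simp only
    rw [key]
    constructor
    · rintro ⟨h3, h4⟩ h5
      rcases Nat.lt_succ_iff_lt_or_eq.1 h5 with h6 | h6
      exacts [h3 h6, h4 h6]
    · intro h3
      exact ⟨fun h4 => h3 (by omega), fun h4 => h3 (by omega)⟩

theorem con_rein {W : Set ℕ} {k : ℕ} (h : REIn W fun p : ℕ × ℕ => col p.1 < k → fn Z p.1 ≠ p.2)
    (hb : ComputablePred fun p : ℕ × ℕ => p.1.testBit p.2 = true) :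
    REIn W fun u => Con (fn Z) k u := by
  have h1 : REIn W fun u : ℕ => ∀ y < u, u.testBit y = false ∨
      (col (pos y) < k → fn Z (pos y) ≠ val y) := by
    refine REIn.all_lt (S := fun (u y : ℕ) => u.testBit y = false ∨
      (col (pos y) < k → fn Z (pos y) ≠ val y)) ?_ (by fun_prop)
    refine REIn.or (REIn.of_re ?_) ?_
    · refine hb.not.to_re.of_eq fun p => ?_
      simp
    · exact h.comp (f := fun p : ℕ × ℕ => (p.2.unpair.1, p.2.unpair.2)) (by fun_prop)
  refine h1.of_eq fun u => ?_
  unfold Con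
  constructor
  · intro h2 y hy hk
    have hlt : y < u := lt_of_lt_of_le Nat.lt_two_pow_self (Nat.ge_two_pow_of_testBit hy)
    rcases h2 y hlt with h3 | h3
    · rw [h3] at hy; exact absurd hy (by simp)
    · exact h3 hk
  · intro h2 y _
    by_cases hy : u.testBit y = true
    · exact Or.inr (h2 y hy)
    · left; simpa using hy

/-- Every countable nonempty family of sets closed under Turing reducibility and join equals, for some total f, the family of sets X with X ⊕ Xᶜ enumeration reducible to the complement of the graph of f. -/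
theorem result :
    ∀ I : Set (Set ℕ), I.Countable → I.Nonempty →
      (∀ X Y : Set ℕ, X ∈ I →
        TuringReducible (fun n => Part.some (Y.indicator (fun _ => (1 : ℕ)) n))
          (fun n => Part.some (X.indicator (fun _ => (1 : ℕ)) n)) → Y ∈ I) →
      (∀ X Y : Set ℕ, X ∈ I → Y ∈ I →
        {n : ℕ | (n % 2 = 0 ∧ n / 2 ∈ X) ∨ (n % 2 = 1 ∧ n / 2 ∈ Y)} ∈ I) →
      ∃ f : ℕ → ℕ, ∀ X : Set ℕ, X ∈ I ↔
        ∃ g : ℕ →. ℕ, Partrec g ∧
          ∀ x : ℕ, ((x % 2 = 0 ∧ x / 2 ∈ X) ∨ (x % 2 = 1 ∧ x / 2 ∉ X)) ↔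
            ∃ u : ℕ, (g (Nat.pair x u)).Dom ∧
              ∀ y : ℕ, u.testBit y = true → f (Nat.unpair y).1 ≠ (Nat.unpair y).2 := by
  intro I hcount hne hred hjoin
  obtain ⟨Z, hZ⟩ := hcount.exists_eq_range hne
  have hZI : ∀ i, Z i ∈ I := fun i => hZ ▸ Set.mem_range_self i
  have hj : ∀ X Y : Set ℕ, X ∈ I → Y ∈ I → join X Y ∈ I := hjoin
  have hbc : Computable fun p : ℕ × ℕ => p.1.testBit p.2 := by
    have hpow : Primrec fun n : ℕ => 2 ^ n := by
      have h := Primrec.nat_rec₁ (f := fun _ r : ℕ => r * 2) 1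
        (Primrec.nat_mul.comp Primrec.snd (Primrec.const 2))
      refine h.of_eq fun n => ?_
      induction n with
      | zero => rfl
      | succ n ih => simp only [pow_succ, ← ih]
    have h1 : Primrec fun p : ℕ × ℕ => decide (p.1 / 2 ^ p.2 % 2 = 1) :=
      (Primrec.eq.decide).comp (Primrec.nat_mod.comp (Primrec.nat_div.comp Primrec.fst
        (hpow.comp Primrec.snd)) (Primrec.const 2)) (Primrec.const 1)
    refine h1.to_comp.of_eq fun p => ?_
    rw [Nat.testBit_eq_decide_div_mod_eq]
  have hb : ComputablePred fun p : ℕ × ℕ => p.1.testBit p.2 = true :=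
    ComputablePred.computable_iff.2 ⟨_, hbc, rfl⟩
  refine ⟨fn Z, fun X => ⟨fun hX => ?_, ?_⟩⟩
  · -- members of the ideal are in the cospectrum
    rw [hZ] at hX
    obtain ⟨i, rfl⟩ := hX
    obtain ⟨N, hN⟩ := column (Z := Z) i
    let T : List ℕ := (List.range (2 * N)).filter fun x => by
      classical exact decide ((x % 2 = 0 ∧ x / 2 ∈ Z i) ∨ (x % 2 = 1 ∧ x / 2 ∉ Z i))
    let R : ℕ → Prop := fun v =>
      (2 * N ≤ v.unpair.1 ∧ ∃ j : ℕ,
        (v.unpair.1 = 2 * j ∧ v.unpair.2 = 2 ^ Nat.pair (Nat.pair i j) 0) ∨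
        (v.unpair.1 = 2 * j + 1 ∧ v.unpair.2 = 2 ^ Nat.pair (Nat.pair i j) 1)) ∨
      (v.unpair.2 = 0 ∧ v.unpair.1 ∈ T)
    have hpow : Computable fun n : ℕ => 2 ^ n := by
      have h := Primrec.nat_rec₁ (f := fun _ r : ℕ => r * 2) 1
        (Primrec.nat_mul.comp Primrec.snd (Primrec.const 2))
      refine h.to_comp.of_eq fun n => ?_
      induction n with
      | zero => rfl
      | succ n ih => simp only [pow_succ, ← ih]
    have hR : REPred R := by
      refine RE.or (RE.and (RE.le (by fun_prop) (by fun_prop)) ?_)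
        (RE.and (RE.eq (by fun_prop) (by fun_prop)) (RE.mem_list (by fun_prop) (by fun_prop)))
      refine RE.exN (p := fun (v j : ℕ) => (v.unpair.1 = 2 * j ∧ v.unpair.2 =
        2 ^ Nat.pair (Nat.pair i j) 0) ∨
        (v.unpair.1 = 2 * j + 1 ∧ v.unpair.2 = 2 ^ Nat.pair (Nat.pair i j) 1)) ?_
      refine RE.or (RE.and (RE.eq (by fun_prop) (by fun_prop)) (RE.eq (by fun_prop) ?_))
        (RE.and (RE.eq (by fun_prop) (by fun_prop)) (RE.eq (by fun_prop) ?_))
      · exact hpow.comp (g := fun v : ℕ × ℕ => Nat.pair (Nat.pair i v.2) 0) (by fun_prop)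
      · exact hpow.comp (g := fun v : ℕ × ℕ => Nat.pair (Nat.pair i v.2) 1) (by fun_prop)
    refine ⟨fun v => (Part.assert (R v) fun _ => Part.some ()).map fun _ => 0, ?_, ?_⟩
    · exact Partrec.map hR (Computable.const 0).to₂
    · intro x
      have hdom : ∀ u, ((Part.assert (R (Nat.pair x u)) fun _ => Part.some ()).map
          fun _ => (0 : ℕ)).Dom ↔ R (Nat.pair x u) := by
        intro u
        simp only [Part.map_Dom]
        constructor
        · rintro ⟨h, -⟩; exact h
        · intro h; exact ⟨h, trivial⟩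
      simp only [hdom, R, Nat.unpair_pair]
      rcases Nat.lt_or_ge x (2 * N) with hx | hx
      · have hT : x ∈ T ↔ ((x % 2 = 0 ∧ x / 2 ∈ Z i) ∨ (x % 2 = 1 ∧ x / 2 ∉ Z i)) := by
          simp [T, hx]
        rw [← hT]
        constructor
        · intro h
          exact ⟨0, Or.inr ⟨rfl, h⟩, fun y hy => by simp at hy⟩
        · rintro ⟨u, (⟨h, -⟩ | ⟨-, h⟩), -⟩
          · omega
          · exact h
      · have hT : x ∉ T := by
          simp only [T, List.mem_filter, List.mem_range]
          omega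
        have hbit : ∀ a b : ℕ, (2 ^ a).testBit b = true ↔ a = b := by
          intro a b
          rw [Nat.testBit_two_pow]
          simp
        rcases Nat.even_or_odd' x with ⟨j, rfl | rfl⟩
        · have hj2 : N ≤ j := by omega
          have h1 : 2 * j % 2 = 0 := by omega
          have h2 : 2 * j / 2 = j := by omega
          have hfj := hN j hj2
          rw [h1, h2]
          constructor
          · rintro (⟨-, h⟩ | ⟨h, -⟩)
            · refine ⟨2 ^ Nat.pair (Nat.pair i j) 0, Or.inl ⟨hx, j, Or.inl ⟨rfl, rfl⟩⟩, ?_⟩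
              intro y hy
              rw [← (hbit _ _).1 hy, Nat.unpair_pair]
              simp only
              rw [hfj, chiN_eq_one.2 h]
              omega
            · omega
          · rintro ⟨u, (⟨-, j', (⟨h3, h4⟩ | ⟨h3, h4⟩)⟩ | ⟨-, h3⟩), h5⟩
            · have hjj : j = j' := by omega
              subst hjj
              left
              refine ⟨rfl, ?_⟩
              have h6 := h5 (Nat.pair (Nat.pair i j) 0) (by rw [h4]; exact (hbit _ _).2 rfl)
              rw [Nat.unpair_pair] at h6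
              simp only at h6
              rw [hfj] at h6
              by_contra hcon
              exact h6 (chiN_eq_zero.2 hcon)
            · omega
            · exact absurd h3 hT
        · have hj2 : N ≤ j := by omega
          have h1 : (2 * j + 1) % 2 = 1 := by omega
          have h2 : (2 * j + 1) / 2 = j := by omega
          have hfj := hN j hj2
          rw [h1, h2]
          constructor
          · rintro (⟨h, -⟩ | ⟨-, h⟩)
            · omega
            · refine ⟨2 ^ Nat.pair (Nat.pair i j) 1, Or.inl ⟨hx, j, Or.inr ⟨rfl, rfl⟩⟩, ?_⟩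
              intro y hy
              rw [← (hbit _ _).1 hy, Nat.unpair_pair]
              simp only
              rw [hfj, chiN_eq_zero.2 h]
              omega
          · rintro ⟨u, (⟨-, j', (⟨h3, h4⟩ | ⟨h3, h4⟩)⟩ | ⟨-, h3⟩), h5⟩
            · omega
            · have hjj : j = j' := by omega
              subst hjj
              right
              refine ⟨rfl, ?_⟩
              have h6 := h5 (Nat.pair (Nat.pair i j) 1) (by rw [h4]; exact (hbit _ _).2 rfl)
              rw [Nat.unpair_pair] at h6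
              simp only at h6
              rw [hfj] at h6
              intro hcon
              exact h6 (chiN_eq_one.2 hcon)
            · exact absurd h3 hT
  · rintro ⟨g, hg, hX⟩
    obtain ⟨c, hc⟩ := Code.exists_code.1 (Partrec.nat_iff.1 hg)
    let k := Encodable.encode c
    have hk : Denumerable.ofNat Code k = c := Denumerable.ofNat_encode c
    obtain ⟨W, hW, hgr⟩ := graph_rein hj hZI k
    have hcon := con_rein hgr hb
    have hop : ∀ x u, op c x u ↔ (g (Nat.pair x u)).Dom := by
      intro x u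
      unfold op
      rw [hc]
    have hfull : ∀ x u, (g (Nat.pair x u)).Dom →
        (∀ y : ℕ, u.testBit y = true → fn Z (Nat.unpair y).1 ≠ (Nat.unpair y).2) →
        ((x % 2 = 0 ∧ x / 2 ∈ X) ∨ (x % 2 = 1 ∧ x / 2 ∉ X)) :=
      fun x u h1 h2 => (hX x).2 ⟨u, h1, h2⟩
    have hpos : ∀ n, n ∈ X → ∃ u, op c (2 * n) u ∧ Con (fn Z) k u := by
      intro n hn
      obtain ⟨u, h1, h2⟩ := (hX (2 * n)).1 (Or.inl ⟨by omega, by
        rw [show 2 * n / 2 = n by omega]; exact hn⟩)
      exact ⟨u, (hop _ _).2 h1, fun y hy _ => h2 y hy⟩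
    have hneg : ∀ n, n ∉ X → ∃ u, op c (2 * n + 1) u ∧ Con (fn Z) k u := by
      intro n hn
      obtain ⟨u, h1, h2⟩ := (hX (2 * n + 1)).1 (Or.inr ⟨by omega, by
        rw [show (2 * n + 1) / 2 = n by omega]; exact hn⟩)
      exact ⟨u, (hop _ _).2 h1, fun y hy _ => h2 y hy⟩
    have hno : ∀ p, ¬ Split c (fn Z) k p := by
      intro p hp
      rw [← hk] at hp
      obtain ⟨n, u, v, h1, h2, h3, h4⟩ := split_spec hp
      rw [hk] at h1 h2
      have h5 := hfull _ _ ((hop _ _).1 h1) h3
      have h6 := hfull _ _ ((hop _ _).1 h2) h4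
      rw [show 2 * n / 2 = n by omega] at h5
      rw [show (2 * n + 1) / 2 = n by omega] at h6
      rcases h5 with ⟨-, h5⟩ | ⟨h5, -⟩
      · rcases h6 with ⟨h6, -⟩ | ⟨-, h6⟩
        · omega
        · exact h6 h5
      · omega
    have hX1 : REIn W fun n => n ∈ X := by
      have h1 : REIn W fun n : ℕ => ∃ u, op c (2 * n) u ∧ Con (fn Z) k u := by
        refine REIn.ex (S := fun n u => op c (2 * n) u ∧ Con (fn Z) k u) (REIn.and ?_ ?_)
        · refine REIn.of_re ?_
          have h2 : REPred fun v : ℕ => (g v).Dom := hg.dom_re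
          exact (RE.comp h2 (f := fun p : ℕ × ℕ => Nat.pair (2 * p.1) p.2) (by fun_prop)).of_eq
            fun p => (hop _ _).symm
        · exact hcon.comp (f := fun p : ℕ × ℕ => p.2) (by fun_prop)
      refine h1.of_eq fun n => ⟨?_, hpos n⟩
      rintro ⟨u, h2, h3⟩
      by_contra hn
      obtain ⟨v, h4, h5⟩ := hneg n hn
      exact hno (n, u, v) ⟨h2, h4, h3, h5⟩
    have hX2 : REIn W fun n => n ∉ X := by
      have h1 : REIn W fun n : ℕ => ∃ u, op c (2 * n + 1) u ∧ Con (fn Z) k u := by
        refine REIn.ex (S := fun n u => op c (2 * n + 1) u ∧ Con (fn Z) k u) (REIn.and ?_ ?_)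
        · refine REIn.of_re ?_
          have h2 : REPred fun v : ℕ => (g v).Dom := hg.dom_re
          exact (RE.comp h2 (f := fun p : ℕ × ℕ => Nat.pair (2 * p.1 + 1) p.2)
            (by fun_prop)).of_eq fun p => (hop _ _).symm
        · exact hcon.comp (f := fun p : ℕ × ℕ => p.2) (by fun_prop)
      refine h1.of_eq fun n => ⟨?_, hneg n⟩
      rintro ⟨u, h2, h3⟩ hn
      obtain ⟨v, h4, h5⟩ := hpos n hn
      exact hno (n, v, u) ⟨h4, h2, h5, h3⟩
    refine hred W X hW ?_
    rw [indicator_eq, indicator_eq]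
    exact turingReducible_iff.2 ⟨hX1, hX2⟩

end Pool.Agent.S14633
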