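import Pool.Statements.S14653
import Pool.Agent.H572R3.Force3

set_option autoImplicit false
open MeasureTheory
open Pool Pool.MP_471da3_lc

namespace Pool.Agent.S14653

/-- There are noncomputable A, B such that for almost every random X every X-computable function is eventually dominated by an A-computable one (likewise for B), and every function computable from both A and B is computable. -/
theorem result :
    ∃ A B : ℕ → ℕ,
      (∀ᵐ X ∂(Measure.infinitePi (fun _ : ℕ => (PMF.uniformOfFintype Bool).toMeasure)),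
        ∀ g : ℕ → ℕ, TuringReducible (PFun.lift g) (PFun.lift (fun n => (X n).toNat)) →
          ∃ f : ℕ → ℕ, TuringReducible (PFun.lift f) (PFun.lift A) ∧
            ∀ᶠ n in Filter.atTop, g n ≤ f n) ∧
      (∀ᵐ X ∂(Measure.infinitePi (fun _ : ℕ => (PMF.uniformOfFintype Bool).toMeasure)),
        ∀ g : ℕ → ℕ, TuringReducible (PFun.lift g) (PFun.lift (fun n => (X n).toNat)) →
          ∃ f : ℕ → ℕ, TuringReducible (PFun.lift f) (PFun.lift B) ∧
            ∀ᶠ n in Filter.atTop, g n ≤ f n) ∧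
      ¬ Computable A ∧ ¬ Computable B ∧
      ∀ C : ℕ → ℕ, TuringReducible (PFun.lift C) (PFun.lift A) →
        TuringReducible (PFun.lift C) (PFun.lift B) → Computable C := by
  have key : ∀ h : ℕ → ℕ, (∀ᵐ X ∂Pool.Agent.H572R3.coin, ∀ g : ℕ → ℕ,
      Pool.Agent.Helper743.TR g (Pool.Agent.H572R3.nb X) →
        ∃ f : ℕ → ℕ, Pool.Agent.Helper743.TR f h ∧ ∀ᶠ n in Filter.atTop, g n ≤ f n) →
      (∀ᵐ X ∂(Measure.infinitePi (fun _ : ℕ => (PMF.uniformOfFintype Bool).toMeasure)),
        ∀ g : ℕ → ℕ, TuringReducible (PFun.lift g) (PFun.lift (fun n => (X n).toNat)) →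
          ∃ f : ℕ → ℕ, TuringReducible (PFun.lift f) (PFun.lift h) ∧
            ∀ᶠ n in Filter.atTop, g n ≤ f n) := by
    intro h hh
    filter_upwards [hh] with X hX g hg
    obtain ⟨f, hf1, hf2⟩ := hX g (Pool.Agent.Helper743.TR_iff.2 hg)
    exact ⟨f, Pool.Agent.Helper743.TR_iff.1 hf1, hf2⟩
  obtain ⟨A, hA1, -, hA2⟩ := Pool.Agent.H572R3.forcing ∅ Set.countable_empty
    (fun C hC => absurd hC (Set.notMem_empty C))
  obtain ⟨B, hB1, hB2, hB3⟩ := Pool.Agent.H572R3.forcing
    {C | Pool.Agent.Helper743.TR C A ∧ ¬ Computable C}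
    ((Pool.Agent.H572R3.countable_TR A).mono (fun C hC => hC.1)) (fun C hC => hC.2)
  refine ⟨A, B, key A hA2, key B hB3, hA1, hB1, ?_⟩
  intro C hCA hCB
  by_contra hne
  exact hB2 C ⟨Pool.Agent.Helper743.TR_iff.2 hCA, hne⟩ (Pool.Agent.Helper743.TR_iff.2 hCB)

end Pool.Agent.S14653
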