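import Pool.Statements.S14684
import Pool.Agent.H669R3.XPFinal

set_option autoImplicit false
open Pool Pool.MP_4f56fb_lc

namespace Pool.Agent.S14684

/-- embedding of the equation constraints into the constraints of the frozen statement -/
def emb (c : (ℕ × ℕ × ℕ) ⊕ (ℕ × ℕ × ℕ) ⊕ ℕ) :
    (ℕ × ℕ × ℕ) ⊕ (ℕ × ℕ × ℕ) ⊕ (ℕ × ℕ) ⊕ ℕ :=
  Sum.elim (fun t => Sum.inl t) (Sum.elim (fun t => Sum.inr (Sum.inl t))
    (fun i => Sum.inr (Sum.inr (Sum.inr i)))) c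

theorem emb2_primrec : Primrec (fun s : (ℕ × ℕ × ℕ) ⊕ ℕ =>
    (Sum.elim (fun t => Sum.inr (Sum.inl t)) (fun i => Sum.inr (Sum.inr (Sum.inr i))) s :
      (ℕ × ℕ × ℕ) ⊕ (ℕ × ℕ × ℕ) ⊕ (ℕ × ℕ) ⊕ ℕ)) := by
  have h1 : Primrec₂ (fun (_ : (ℕ × ℕ × ℕ) ⊕ ℕ) (t : ℕ × ℕ × ℕ) =>
      (Sum.inr (Sum.inl t) : (ℕ × ℕ × ℕ) ⊕ (ℕ × ℕ × ℕ) ⊕ (ℕ × ℕ) ⊕ ℕ)) :=
    (Primrec.sumInr.comp (Primrec.sumInl.comp Primrec.snd)).to₂
  have h2 : Primrec₂ (fun (_ : (ℕ × ℕ × ℕ) ⊕ ℕ) (i : ℕ) =>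
      (Sum.inr (Sum.inr (Sum.inr i)) : (ℕ × ℕ × ℕ) ⊕ (ℕ × ℕ × ℕ) ⊕ (ℕ × ℕ) ⊕ ℕ)) :=
    (Primrec.sumInr.comp (Primrec.sumInr.comp (Primrec.sumInr.comp Primrec.snd))).to₂
  refine (Primrec.sumCasesOn Primrec.id h1 h2).of_eq ?_
  rintro (t | i) <;> rfl

theorem emb_primrec : Primrec emb := by
  have h1 : Primrec₂ (fun (_ : (ℕ × ℕ × ℕ) ⊕ (ℕ × ℕ × ℕ) ⊕ ℕ) (t : ℕ × ℕ × ℕ) =>
      (Sum.inl t : (ℕ × ℕ × ℕ) ⊕ (ℕ × ℕ × ℕ) ⊕ (ℕ × ℕ) ⊕ ℕ)) :=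
    (Primrec.sumInl.comp Primrec.snd).to₂
  refine (Primrec.sumCasesOn Primrec.id h1 (emb2_primrec.comp Primrec.snd).to₂).of_eq ?_
  rintro (t | t | i) <;> rfl

/-- The negation of the preceding statement: There is an algorithm deciding whether a finite system of constraints x=y+z, x=y·2^z, x≤y, x=1 has a solution in positive naturals, i.e. the existential theory of (N>0; +, x·2^y, ≤, 1) is decidable. -/
theorem result :
    ¬ (ComputablePred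
      (fun L : List ((ℕ × ℕ × ℕ) ⊕ (ℕ × ℕ × ℕ) ⊕ (ℕ × ℕ) ⊕ ℕ) =>
        ∃ v : ℕ → ℕ, (∀ n, 0 < v n) ∧
          ∀ c ∈ L,
            Sum.elim (fun t : ℕ × ℕ × ℕ => v t.1 = v t.2.1 + v t.2.2)
              (Sum.elim (fun t : ℕ × ℕ × ℕ => v t.1 = v t.2.1 * 2 ^ v t.2.2)
                (Sum.elim (fun p : ℕ × ℕ => v p.1 ≤ v p.2)
                  (fun i : ℕ => v i = 1))) c)) := by
  intro h
  apply Pool.Agent.H669R3.XP.system_undecidable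
  refine ComputablePred.computable_of_manyOneReducible ?_ h
  refine ⟨fun L => L.map emb, (Primrec.list_map Primrec.id (emb_primrec.comp Primrec.snd).to₂).to_comp,
    fun L => ?_⟩
  refine exists_congr fun v => and_congr_right fun _ => ?_
  constructor
  · intro hc c hc'
    rw [List.mem_map] at hc'
    obtain ⟨c, hc', rfl⟩ := hc'
    have := hc c hc'
    rcases c with t | t | i <;> exact this
  · intro hc c hc'
    have := hc _ (List.mem_map_of_mem hc')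
    rcases c with t | t | i <;> exact this

end Pool.Agent.S14684
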