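import Pool.Statements.S14705
import Pool.Agent.H182R3.AM.Count

set_option autoImplicit false
open Pool Pool.MP_5436b5_lc

namespace Pool.Agent.S14705

/-- There is c>0 such that for all large n some n-state always-marking 1-limited automaton has the property that every equivalent deterministic always-marking 1-limited automaton has at least 2^(cn) states. -/
theorem result :
    ∃ c : ℝ, 0 < c ∧ ∃ N : ℕ, ∀ n : ℕ, N ≤ n →
      ∃ k : ℕ,
      ∃ δL : Fin n → Finset (Fin n × Bool),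
      ∃ δR : Fin n → Finset (Fin n × Bool),
      ∃ δU : Fin n → Fin k → Finset (Fin n × Bool),
      ∃ δM : Fin n → Fin k → Finset (Fin n × Bool),
      ∃ qI : Fin n, ∃ F : Finset (Fin n),
      ∀ m : ℕ,
      ∀ eL : Fin m → Finset (Fin m × Bool),
      ∀ eR : Fin m → Finset (Fin m × Bool),
      ∀ eU : Fin m → Fin k → Finset (Fin m × Bool),
      ∀ eM : Fin m → Fin k → Finset (Fin m × Bool),
      ∀ pI : Fin m, ∀ G : Finset (Fin m),
        (∀ p, (eL p).card ≤ 1) → (∀ p, (eR p).card ≤ 1) →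
        (∀ p a, (eU p a).card ≤ 1) → (∀ p a, (eM p a).card ≤ 1) →
        (∀ w : List (Fin k),
          (∃ q : Fin n, ∃ i j : ℕ,
            Relation.ReflTransGen
              (fun x y : Fin n × ℕ × ℕ =>
                (x.2.1 = 0 ∧ (y.1, true) ∈ δL x.1 ∧ y.2.1 = 1 ∧ y.2.2 = x.2.2) ∨
                (x.2.1 = w.length + 1 ∧ (y.1, false) ∈ δR x.1 ∧
                  y.2.1 = w.length ∧ y.2.2 = x.2.2) ∨
                (∃ a : Fin k, 1 ≤ x.2.1 ∧ w[x.2.1 - 1]? = some a ∧
                  ∃ b : Bool,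
                    (y.1, b) ∈ (if x.2.1 ≤ x.2.2 then δM x.1 a else δU x.1 a) ∧
                    y.2.1 = (if b then x.2.1 + 1 else x.2.1 - 1) ∧
                    y.2.2 = max x.2.2 x.2.1))
              (qI, 1, 0) (q, i, j) ∧
            i = w.length + 1 ∧ ∃ q' ∈ F, (q', true) ∈ δR q)
          ↔
          (∃ q : Fin m, ∃ i j : ℕ,
            Relation.ReflTransGen
              (fun x y : Fin m × ℕ × ℕ =>
                (x.2.1 = 0 ∧ (y.1, true) ∈ eL x.1 ∧ y.2.1 = 1 ∧ y.2.2 = x.2.2) ∨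
                (x.2.1 = w.length + 1 ∧ (y.1, false) ∈ eR x.1 ∧
                  y.2.1 = w.length ∧ y.2.2 = x.2.2) ∨
                (∃ a : Fin k, 1 ≤ x.2.1 ∧ w[x.2.1 - 1]? = some a ∧
                  ∃ b : Bool,
                    (y.1, b) ∈ (if x.2.1 ≤ x.2.2 then eM x.1 a else eU x.1 a) ∧
                    y.2.1 = (if b then x.2.1 + 1 else x.2.1 - 1) ∧
                    y.2.2 = max x.2.2 x.2.1))
              (pI, 1, 0) (q, i, j) ∧
            i = w.length + 1 ∧ ∃ q' ∈ G, (q', true) ∈ eR q)) →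
        (2 : ℝ) ^ (c * (n : ℝ)) ≤ (m : ℝ) := by
  classical
  refine ⟨1 / 24, by norm_num, 100, fun n hn => ?_⟩
  -- parameters
  set M := (n - 2) / 12 with hM
  have hM5 : 5 ≤ M := by omega
  have hcardQ : Fintype.card (Pool.Agent.H182R3.AM.Q0 (2 * M) × Bool) ≤ Fintype.card (Fin n) := by
    simp only [Pool.Agent.H182R3.AM.Q0, Fintype.card_prod, Fintype.card_option, Fintype.card_sum,
      Fintype.card_fin, Fintype.card_bool]
    omega
  obtain ⟨e⟩ := Function.Embedding.nonempty_of_card_le hcardQ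
  set α : Pool.Agent.H182R3.AM.Alph (2 * M) ≃
      Fin (Fintype.card (Pool.Agent.H182R3.AM.Alph (2 * M))) := Fintype.equivFin _ with hα
  set W := (Pool.Agent.H182R3.AM.wit (2 * M)).map e α with hW
  refine ⟨_, W.dL, W.dR, W.dU, W.dM, W.init, W.fin, ?_⟩
  intro m eL eR eU eM pI G d1 d2 d3 d4 hacc
  set D : Pool.Agent.H182R3.AM.Mach (Fin m)
      (Fin (Fintype.card (Pool.Agent.H182R3.AM.Alph (2 * M)))) := ⟨eL, eR, eU, eM, pI, G⟩ with hD
  have hacc' : ∀ w, W.Accepts w ↔ D.Accepts w := hacc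
  have hdet : D.Det := ⟨d1, d2, d3, d4⟩
  have hcount := Pool.Agent.H182R3.AM.count α D hdet (by
    intro x T i
    rw [← hacc', hW, Pool.Agent.H182R3.AM.Mach.map_accepts]
    exact Pool.Agent.H182R3.AM.yT_spec T x i)
  have hnum := Pool.Agent.H182R3.AM.numeric M m hM5 hcount
  have h1 : (1 / 24 : ℝ) * (n : ℝ) ≤ (M : ℝ) := by
    have : n ≤ 24 * M := by omega
    have h2 : (n : ℝ) ≤ 24 * (M : ℝ) := by exact_mod_cast this
    linarith
  calc (2 : ℝ) ^ (1 / 24 * (n : ℝ)) ≤ (2 : ℝ) ^ (M : ℝ) :=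
        Real.rpow_le_rpow_of_exponent_le (by norm_num) h1
    _ = ((2 ^ M : ℕ) : ℝ) := by rw [Real.rpow_natCast]; push_cast; rfl
    _ ≤ (m : ℝ) := by exact_mod_cast hnum

end Pool.Agent.S14705
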