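import Pool.Statements.S14725
import Pool.Agent.H448R5.Fin

set_option autoImplicit false
open Pool Pool.MP_56bf04_lc

namespace Pool.Agent.S14725

/-- Isomorphism of automatic equivalence relations, on an effective indexing of automata presentations with invalid codes forming one class, is a Π⁰₁ relation, and every Π⁰₁ equivalence relation on ℕ computably reduces to it. -/
theorem result :
  ∀ (Dom : (Finset (ℕ × ℕ × ℕ) × ℕ × Finset ℕ) × (Finset (ℕ × (Option ℕ × Option ℕ) × ℕ) × ℕ × Finset ℕ) → Set (List ℕ))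
    (Rel : (Finset (ℕ × ℕ × ℕ) × ℕ × Finset ℕ) × (Finset (ℕ × (Option ℕ × Option ℕ) × ℕ) × ℕ × Finset ℕ) → List ℕ → List ℕ → Prop)
    (Good : (Finset (ℕ × ℕ × ℕ) × ℕ × Finset ℕ) × (Finset (ℕ × (Option ℕ × Option ℕ) × ℕ) × ℕ × Finset ℕ) → Prop)
    (E : ℕ → ℕ → Prop),
  (∀ p w, w ∈ Dom p ↔
      w ∈ (⟨fun q a => {q' | (q, a, q') ∈ p.1.1}, {p.1.2.1}, (p.1.2.2 : Set ℕ)⟩ : NFA ℕ ℕ).accepts) →
  (∀ p (u v : List ℕ), Rel p u v ↔
      (List.map (fun i => (u[i]?, v[i]?)) (List.range (max u.length v.length))) ∈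
        (⟨fun q a => {q' | (q, a, q') ∈ p.2.1}, {p.2.2.1}, (p.2.2.2 : Set ℕ)⟩ :
          NFA (Option ℕ × Option ℕ) ℕ).accepts) →
  (∀ p, Good p ↔
      ((∀ u ∈ Dom p, Rel p u u) ∧
       (∀ u ∈ Dom p, ∀ v ∈ Dom p, Rel p u v → Rel p v u) ∧
       (∀ u ∈ Dom p, ∀ v ∈ Dom p, ∀ w ∈ Dom p, Rel p u v → Rel p v w → Rel p u w))) →
  (∀ n m : ℕ, E n m ↔
      (((¬ ∃ p : (Finset (ℕ × ℕ × ℕ) × ℕ × Finset ℕ) × (Finset (ℕ × (Option ℕ × Option ℕ) × ℕ) × ℕ × Finset ℕ),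
            Encodable.decode n = some p ∧ Good p) ∧
        (¬ ∃ q : (Finset (ℕ × ℕ × ℕ) × ℕ × Finset ℕ) × (Finset (ℕ × (Option ℕ × Option ℕ) × ℕ) × ℕ × Finset ℕ),
            Encodable.decode m = some q ∧ Good q)) ∨
       ∃ p q : (Finset (ℕ × ℕ × ℕ) × ℕ × Finset ℕ) × (Finset (ℕ × (Option ℕ × Option ℕ) × ℕ) × ℕ × Finset ℕ),
         Encodable.decode n = some p ∧ Encodable.decode m = some q ∧ Good p ∧ Good q ∧
         ∃ f : List ℕ → List ℕ, Set.BijOn f (Dom p) (Dom q) ∧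
           ∀ u ∈ Dom p, ∀ v ∈ Dom p, (Rel p u v ↔ Rel q (f u) (f v)))) →
  (∃ P : ℕ × ℕ × ℕ → Prop, ComputablePred P ∧ ∀ x y, E x y ↔ ∀ t, P (x, y, t)) ∧
  ∀ R : ℕ → ℕ → Prop, Equivalence R →
    (∃ P : ℕ × ℕ × ℕ → Prop, ComputablePred P ∧ ∀ x y, R x y ↔ ∀ t, P (x, y, t)) →
    ∃ f : ℕ → ℕ, Computable f ∧ ∀ x y, R x y ↔ E (f x) (f y) := by
  intro Dom Rel Good E hDom hRel hGood hE
  have h1 : Dom = H448R4.domP := by
    funext p; ext w; exact hDom p w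
  have h2 : Rel = H448R4.relP := by
    funext p u v; exact propext (hRel p u v)
  have h3 : ∀ p, Good p ↔ H448R4.EqOn' (H448R4.domP p) (H448R4.relP p) := by
    intro p; rw [hGood p, h1, h2]; exact Iff.rfl
  have h4 : ∀ n m : ℕ, E n m ↔
      (((¬ ∃ p : H448R4.PT, Encodable.decode n = some p ∧
          H448R4.EqOn' (H448R4.domP p) (H448R4.relP p)) ∧
        (¬ ∃ q : H448R4.PT, Encodable.decode m = some q ∧
          H448R4.EqOn' (H448R4.domP q) (H448R4.relP q))) ∨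
      ∃ p q : H448R4.PT, Encodable.decode n = some p ∧ Encodable.decode m = some q ∧
        H448R4.EqOn' (H448R4.domP p) (H448R4.relP p) ∧
        H448R4.EqOn' (H448R4.domP q) (H448R4.relP q) ∧
        H448R4.SIso (H448R4.domP p) (H448R4.domP q) (H448R4.relP p) (H448R4.relP q)) := by
    intro n m
    rw [hE n m, h1, h2]
    simp only [h3]
    exact Iff.rfl
  refine ⟨⟨fun r => H448R5.PX r = true, ?_, fun x y => ?_⟩, ?_⟩
  · exact Computable.computablePred (by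
      have : Computable fun r : ℕ × ℕ × ℕ => H448R5.PX r := H448R5.PX_c
      simpa using this)
  · rw [h4, ← H448R5.PX_spec]
  · intro R hR hP
    obtain ⟨f, hf, hf1, hf2⟩ := H448R4.completeness hR hP
    refine ⟨f, hf, fun x y => ?_⟩
    obtain ⟨p, hp, hp'⟩ := hf1 x
    obtain ⟨q, hq, hq'⟩ := hf1 y
    rw [h4, hf2 x y p q hp hq]
    constructor
    · intro h
      exact Or.inr ⟨p, q, hp, hq, hp', hq', h⟩
    · rintro (⟨h, _⟩ | ⟨p', q', e1, e2, _, _, h⟩)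
      · exact absurd ⟨p, hp, hp'⟩ h
      · rw [hp, Option.some.injEq] at e1
        rw [hq, Option.some.injEq] at e2
        subst e1; subst e2
        exact h

end Pool.Agent.S14725
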