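import Pool.Statements.S14755
-- import your own Pool.Agent.* helpers here
import Pool.Agent.H591R3.PC2

set_option autoImplicit false
open Pool Pool.MP_5d599c_lc

namespace Pool.Agent.S14755

/-- Some finite abelian group Y with at least 2 elements and some polynomial p positive on positive integers make this true: for finite distributions of unit-norm degree-≤d functions on Y^N with average influences ≤1/p(d), some f, g in the supports have f·g not identically zero. -/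
theorem result :
  ∃ (Y : Type) (_ : AddCommGroup Y) (_ : Fintype Y), 2 ≤ Fintype.card Y ∧
  ∃ p : Polynomial ℝ, (∀ n : ℕ, 1 ≤ n → 0 < p.eval (n : ℝ)) ∧
  ∀ d N : ℕ, 1 ≤ d → 1 ≤ N →
  ∀ (m₁ m₂ : ℕ) (f : Fin m₁ → (Fin N → Y) → ℂ) (u : Fin m₁ → ℝ)
    (g : Fin m₂ → (Fin N → Y) → ℂ) (v : Fin m₂ → ℝ),
    (∀ k, 0 < u k) → ∑ k, u k = 1 → (∀ k, 0 < v k) → ∑ k, v k = 1 →
    (∀ h ∈ Set.range f ∪ Set.range g,
        (∑ x, ‖h x‖ ^ 2) / (Fintype.card Y : ℝ) ^ N = 1 ∧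
        ∀ χ : Fin N → AddChar Y ℂ, d < {i | χ i ≠ 1}.ncard →
          (∑ x, h x * star (∏ i, χ i (x i))) = 0) →
    (∀ i : Fin N,
        ∑ k, u k * (∑ᶠ (χ : Fin N → AddChar Y ℂ) (_ : χ i ≠ 1),
          ‖(∑ x, f k x * star (∏ j, χ j (x j))) / (Fintype.card Y : ℂ) ^ N‖ ^ 2)
          ≤ 1 / p.eval (d : ℝ)) →
    (∀ i : Fin N,
        ∑ k, v k * (∑ᶠ (χ : Fin N → AddChar Y ℂ) (_ : χ i ≠ 1),
          ‖(∑ x, g k x * star (∏ j, χ j (x j))) / (Fintype.card Y : ℂ) ^ N‖ ^ 2)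
          ≤ 1 / p.eval (d : ℝ)) →
    ∃ k l x, f k x * g l x ≠ 0 := by
  classical
  refine ⟨ZMod 2, inferInstance, inferInstance, by rw [ZMod.card], ?_⟩
  refine ⟨Polynomial.C 16384 * (Polynomial.X + 1) ^ 8, ?_, ?_⟩
  · intro n _
    simp only [Polynomial.eval_mul, Polynomial.eval_C, Polynomial.eval_pow, Polynomial.eval_add,
      Polynomial.eval_X, Polynomial.eval_one]
    positivity
  · intro d N _ _ m₁ m₂ f u g v hu hu1 hv hv1 hfg hfi hgi
    have hp : (Polynomial.C 16384 * (Polynomial.X + 1) ^ 8 : Polynomial ℝ).eval (d : ℝ) =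
        16384 * ((d : ℝ) + 1) ^ 8 := by
      simp only [Polynomial.eval_mul, Polynomial.eval_C, Polynomial.eval_pow, Polynomial.eval_add,
        Polynomial.eval_X, Polynomial.eval_one]
    rw [hp] at hfi hgi
    have hc2 : (Fintype.card (ZMod 2) : ℂ) = 2 := by rw [ZMod.card]; norm_num
    have hr2 : (Fintype.card (ZMod 2) : ℝ) = 2 := by rw [ZMod.card]; norm_num
    rw [hr2] at hfg
    rw [hc2] at hfi hgi
    have key : ∀ h ∈ Set.range f ∪ Set.range g,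
        (∑ S, ‖Pool.Agent.H591R3.PC.FF h S‖ ^ 2 = 1) ∧
        ∀ S : Finset (Fin N), d < S.card → Pool.Agent.H591R3.PC.FF h S = 0 := by
      intro h hh
      obtain ⟨h1, h2⟩ := hfg h hh
      refine ⟨by rw [Pool.Agent.H591R3.PC.FF_norm]; exact h1, ?_⟩
      intro S hS
      unfold Pool.Agent.H591R3.PC.FF
      rw [h2 _ (by rw [Pool.Agent.H591R3.PC.cs_ncard]; exact hS), zero_div]
    have main : ∀ (m : ℕ) (f : Fin m → (Fin N → ZMod 2) → ℂ) (u : Fin m → ℝ),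
        (∀ k, 0 < u k) → ∑ k, u k = 1 →
        (∀ k, (∑ S, ‖Pool.Agent.H591R3.PC.FF (f k) S‖ ^ 2 = 1) ∧
          ∀ S : Finset (Fin N), d < S.card → Pool.Agent.H591R3.PC.FF (f k) S = 0) →
        (∀ i : Fin N, ∑ k, u k * (∑ᶠ (χ : Fin N → AddChar (ZMod 2) ℂ) (_ : χ i ≠ 1),
          ‖(∑ x, f k x * star (∏ j, χ j (x j))) / 2 ^ N‖ ^ 2)
          ≤ 1 / (16384 * ((d : ℝ) + 1) ^ 8)) →
        (∀ k S, Pool.Agent.H591R3.PC.cc f u k S ≠ 0 → S.card ≤ d) ∧
        (∑ k, ∑ S, Pool.Agent.H591R3.PC.cc f u k S ^ 2 = 1) ∧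
        (∀ i : Fin N, ∑ k, ∑ S ∈ Finset.univ.filter (fun S : Finset (Fin N) => i ∈ S),
          Pool.Agent.H591R3.PC.cc f u k S ^ 2 ≤ 1 / 16384 / ((d : ℝ) + 1) ^ 8) := by
      intro m f u hu hu1 hf hi
      refine ⟨?_, ?_, ?_⟩
      · intro k S hS
        by_contra hcon
        push Not at hcon
        apply hS
        unfold Pool.Agent.H591R3.PC.cc
        rw [(hf k.1).2 S hcon]
        simp
      · rw [Pool.Agent.H591R3.PC.cc_sum f u hu]
        simp only [(hf _).1, mul_one, hu1]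
      · intro i
        rw [Pool.Agent.H591R3.PC.cc_sum f u hu]
        have h1 := hi i
        rw [div_div]
        refine le_trans (Finset.sum_le_sum fun k _ => ?_) h1
        exact mul_le_mul_of_nonneg_left (Pool.Agent.H591R3.PC.inf_le (f k) i) (hu k).le
    obtain ⟨a1, a2, a3⟩ := main m₁ f u hu hu1 (fun k => key _ (Or.inl ⟨k, rfl⟩)) hfi
    obtain ⟨b1, b2, b3⟩ := main m₂ g v hv hv1 (fun k => key _ (Or.inr ⟨k, rfl⟩)) hgi
    obtain ⟨k, l, x, hx⟩ := Pool.Agent.H591R3.PC.compat d _ _ a1 b1 a2 b2 a3 b3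
    refine ⟨k.1, l.1, Pool.Agent.H591R3.PC.tv x, fun h0 => hx ?_⟩
    rcases mul_eq_zero.1 h0 with h | h
    · rw [Pool.Agent.H591R3.PC.cc_fn f u k x h, zero_mul]
    · rw [Pool.Agent.H591R3.PC.cc_fn g v l x h, mul_zero]


end Pool.Agent.S14755
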