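import Pool.Statements.S14767
import Pool.Agent.H684R3.DefN

set_option autoImplicit false
open Pool Pool.MP_5f3cbe_lc

namespace Pool.Agent.S14767

open Pool.Agent.H684R3 in
theorem TT_eq (f : ℂ → ℂ) (r : ℝ) : (2 * Real.pi)⁻¹ *
    ∫ θ in (0:ℝ)..(2 * Real.pi),
      Real.posLog ‖f ((r : ℂ) * Complex.exp ((θ : ℂ) * Complex.I))‖ = TT f r := by
  rw [TT, Real.circleAverage_def, smul_eq_mul]
  simp only [circleMap, zero_add]

open Pool.Agent.H684R3 in
theorem GB_iff (f : ℂ → ℂ) : GB f ↔ Asymptotics.IsBigO (nhdsWithin (1:ℝ) (Set.Iio 1))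
            (fun r : ℝ => (2 * Real.pi)⁻¹ *
              ∫ θ in (0:ℝ)..(2 * Real.pi),
                Real.posLog ‖f ((r : ℂ) * Complex.exp ((θ : ℂ) * Complex.I))‖)
            (fun r : ℝ => Real.log (1 - r)⁻¹) := by
  simp only [TT_eq]
  have hlog : ∀ r : ℝ, 0 < r → r < 1 → 0 ≤ Real.log (1 - r)⁻¹ := by
    intro r h0 h1
    exact Real.log_nonneg ((one_le_inv₀ (by linarith)).2 (by linarith))
  constructor
  · rintro ⟨C, r₀, hr₀, h⟩
    refine Asymptotics.IsBigO.of_bound C ?_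
    have h1 : Set.Ioo (max r₀ 0) 1 ∈ nhdsWithin (1:ℝ) (Set.Iio 1) :=
      Ioo_mem_nhdsLT (max_lt hr₀ one_pos)
    filter_upwards [h1] with r hr
    have hr0 : r₀ < r := lt_of_le_of_lt (le_max_left _ _) hr.1
    have hr0' : 0 < r := lt_of_le_of_lt (le_max_right _ _) hr.1
    rw [Real.norm_eq_abs, Real.norm_eq_abs, abs_of_nonneg (TT_nonneg f r),
      abs_of_nonneg (hlog r hr0' hr.2)]
    exact h r hr0 hr.2
  · intro h
    obtain ⟨C, hC⟩ := h.bound
    obtain ⟨l, hl, hl'⟩ := (mem_nhdsLT_iff_exists_Ioo_subset' (zero_lt_one)).1 hC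
    refine ⟨C, max l 0, max_lt hl one_pos, fun r hr hr1 => ?_⟩
    have hr0 : l < r := lt_of_le_of_lt (le_max_left _ _) hr
    have hr0' : 0 < r := lt_of_le_of_lt (le_max_right _ _) hr
    have := hl' ⟨hr0, hr1⟩
    simp only [Set.mem_setOf_eq] at this
    rw [Real.norm_eq_abs, Real.norm_eq_abs, abs_of_nonneg (TT_nonneg f r),
      abs_of_nonneg (hlog r hr0' hr1)] at this
    exact this

/-- There is a parameter-free first-order ring formula that, in the ring of holomorphic functions on the unit disc, holds of f exactly when its Nevanlinna characteristic T(r,f) is not O(log 1/(1-r)) as r tends to 1 from below. -/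
theorem result :
    ∃ φ : FirstOrder.Language.ring.Formula (Fin 1),
      ∀ f : ↥(Subring.closure {g : ℂ → ℂ | DifferentiableOn ℂ g (Metric.ball (0:ℂ) 1) ∧
                ∀ z ∉ Metric.ball (0:ℂ) 1, g z = g 0}),
        (@FirstOrder.Language.Formula.Realize FirstOrder.Language.ring
            ↥(Subring.closure {g : ℂ → ℂ | DifferentiableOn ℂ g (Metric.ball (0:ℂ) 1) ∧
                ∀ z ∉ Metric.ball (0:ℂ) 1, g z = g 0})
            (FirstOrder.Ring.compatibleRingOfRing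
              ↥(Subring.closure {g : ℂ → ℂ | DifferentiableOn ℂ g (Metric.ball (0:ℂ) 1) ∧
                ∀ z ∉ Metric.ball (0:ℂ) 1, g z = g 0})).toStructure
            (Fin 1) φ (fun _ => f)) ↔
        ¬ Asymptotics.IsBigO (nhdsWithin (1:ℝ) (Set.Iio 1))
            (fun r : ℝ => (2 * Real.pi)⁻¹ *
              ∫ θ in (0:ℝ)..(2 * Real.pi),
                Real.posLog ‖(f : ℂ → ℂ) ((r : ℂ) * Complex.exp ((θ : ℂ) * Complex.I))‖)
            (fun r : ℝ => Real.log (1 - r)⁻¹) := by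
  letI inst : FirstOrder.Ring.CompatibleRing Pool.Agent.H684R3.HD :=
    FirstOrder.Ring.compatibleRingOfRing Pool.Agent.H684R3.HD
  have h : Pool.Agent.H684R3.Def1 (fun f : Pool.Agent.H684R3.HD => ¬ Pool.Agent.H684R3.NF f) :=
    Pool.Agent.H684R3.PDef.not Pool.Agent.H684R3.def1_NF
  obtain ⟨φ, hφ⟩ := Pool.Agent.H684R3.formula_of_def1 h
  refine ⟨φ, fun f => ?_⟩
  rw [← GB_iff, ← Pool.Agent.H684R3.NF_iff]
  exact hφ f

end Pool.Agent.S14767
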