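import Pool.Statements.S14778
import Pool.Agent.H794R3.Disk.Geo
import Pool.Agent.H794R3.Disk.NonIso

set_option autoImplicit false
open Pool Pool.MP_5fb53e_lc

namespace Pool.Agent.S14778

open Pool.Agent.H794R3.Disk

/-- The negation of the preceding statement: There is a fixed k such that every disk graph is identified up to isomorphism by k-variable counting logic: any finite graph on which Duplicator wins the bijective k-pebble game against it is isomorphic to it. -/
theorem result :
    ¬ (∃ k : ℕ, ∀ (n : ℕ) (G : SimpleGraph (Fin n)),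
      (∃ c : Fin n → EuclideanSpace ℝ (Fin 2), ∃ r : Fin n → ℝ,
          (∀ i, 0 < r i) ∧
          ∀ i j, i ≠ j → (G.Adj i j ↔ dist (c i) (c j) ≤ r i + r j)) →
      ∀ (m : ℕ) (H : SimpleGraph (Fin m)),
        (∃ P : Set ((Fin k → Fin n) × (Fin k → Fin m)),
          (∀ p ∈ P, ∀ i j : Fin k,
              (p.1 i = p.1 j ↔ p.2 i = p.2 j) ∧
              (G.Adj (p.1 i) (p.1 j) ↔ H.Adj (p.2 i) (p.2 j))) ∧
          (∀ p ∈ P, ∀ i : Fin k, ∃ f : Fin n ≃ Fin m, ∀ v : Fin n,
              (Function.update p.1 i v, Function.update p.2 i (f v)) ∈ P) ∧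
          (∃ f : Fin n ≃ Fin m, ∀ v : Fin n,
              ((fun _ : Fin k => v), (fun _ : Fin k => f v)) ∈ P)) →
        Nonempty (G ≃g H)) := by
  classical
  rintro ⟨k, hk⟩
  let N := k + 2
  have : NeZero N := ⟨by omega⟩
  have : Fact (1 < N) := ⟨by omega⟩
  have h1 : (1 : ZMod N) ≠ 0 := one_ne_zero
  let rk : Gad N → ℕ := fun g => (Fintype.equivFin (Gad N) g).val
  have hrk : Function.Injective rk := fun a b h =>
    (Fintype.equivFin (Gad N)).injective (Fin.ext h)
  let e : Vx N ≃ Fin (Fintype.card (Vx N)) := Fintype.equivFin (Vx N)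
  obtain ⟨c, r, hr, hcr⟩ := exists_disks rk hrk
  obtain ⟨g1, g2, g3⟩ := game k N (by omega) rk
  have key := hk (Fintype.card (Vx N)) ((gr rk tw0).comap e.symm)
    ⟨fun i => c (e.symm i), fun i => r (e.symm i), fun i => hr _, fun i j hij =>
      hcr _ _ (fun h => hij (e.symm.injective h))⟩
    (Fintype.card (Vx N)) ((gr rk tw1).comap e.symm)
    ⟨{p | (fun i => e.symm (p.1 i), fun i => e.symm (p.2 i)) ∈ Pos k N}, ?_, ?_, ?_⟩
  · obtain ⟨φ⟩ := key
    exact noniso h1 rk hrk ⟨((SimpleGraph.Iso.comap e.symm (gr rk tw0)).symm.trans φ).trans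
      (SimpleGraph.Iso.comap e.symm (gr rk tw1))⟩
  · intro p hp i j
    have := g1 _ hp i j
    simp only [EmbeddingLike.apply_eq_iff_eq] at this
    exact this
  · intro p hp i
    obtain ⟨f, hf⟩ := g2 _ hp i
    refine ⟨(e.symm.trans f).trans e, fun v => ?_⟩
    have := hf (e.symm v)
    simp only [Set.mem_ofPred_eq]
    convert this using 2
    · ext j
      by_cases hj : j = i
      · subst hj; simp
      · simp [Function.update_of_ne hj]
    · ext j
      by_cases hj : j = i
      · subst hj; simp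
      · simp [Function.update_of_ne hj]
  · obtain ⟨f, hf⟩ := g3
    refine ⟨(e.symm.trans f).trans e, fun v => ?_⟩
    have := hf (e.symm v)
    simp only [Set.mem_ofPred_eq]
    simpa using this

end Pool.Agent.S14778
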