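import Pool.Statements.S14841
import Pool.Agent.H731R3.Emb

set_option autoImplicit false
open Topology
open Pool Pool.MP_686501_lc

namespace Pool.Agent.S14841

/-- Every non-archimedean abelian Polish group all of whose continuous Polish actions have Borel orbit relations embeds as a closed subgroup of a countable product of countable discrete abelian groups whose continuous Polish actions also all have Borel orbit relations. -/
theorem result :
  ∀ (G : Type) [AddCommGroup G] [TopologicalSpace G] [PolishSpace G] [NonarchimedeanAddGroup G],
    (∀ (X : Type) [TopologicalSpace X] [PolishSpace X] [AddAction G X] [ContinuousVAdd G X],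
      @MeasurableSet (X × X) (borel (X × X)) {p : X × X | ∃ g : G, g +ᵥ p.1 = p.2}) →
    ∃ (H : ℕ → Type) (_ : ∀ n, AddCommGroup (H n)) (_ : ∀ n, TopologicalSpace (H n)),
      (∀ n, DiscreteTopology (H n)) ∧ (∀ n, Countable (H n)) ∧
      (∀ (X : Type) [TopologicalSpace X] [PolishSpace X] [AddAction ((n : ℕ) → H n) X]
          [ContinuousVAdd ((n : ℕ) → H n) X],
        @MeasurableSet (X × X) (borel (X × X))
          {p : X × X | ∃ g : ((n : ℕ) → H n), g +ᵥ p.1 = p.2}) ∧
      ∃ f : G →+ ((n : ℕ) → H n), Topology.IsClosedEmbedding f := by
  intro G _ _ _ _ hG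
  exact Pool.Agent.H731R3.Tame.main G hG

end Pool.Agent.S14841
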