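import Pool.Statements.S14933
import Pool.Agent.H84R3.Asym
-- import your own Pool.Agent.* helpers here

set_option autoImplicit false
open Filter Topology
open Pool Pool.MP_7a0c2d_lc

namespace Pool.Agent.S14933

open Pool.Agent.H84R3

/-- block lemma -/
lemma block (α : ℝ) (hα : 1 < |α|) (s M : ℕ) (hs : 1 ≤ s) (hs2 : 2 ≤ |α| ^ s)
    (hsM : ∀ a : ℝ, ∃ t ∈ Set.Icc a (a+1), ∀ t', |t' - t| * |α| ^ s ≤ 1 → 2 * (s : ℝ) ≤ Fj M t')
    (j l : ℕ) (hj : 1 ≤ j) (hl : 1 ≤ l) (hl2 : 2 ≤ |α| ^ l)
    (hlj : ∀ a : ℝ, ∃ t ∈ Set.Icc a (a+1), ∀ t', |t' - t| * |α| ^ l ≤ 1 →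
      ∀ k : ℕ, 1 ≤ k → k ≤ j → ‖∑ n ∈ Finset.range l, ex (k * (t' * α ^ n))‖ ≤ (l : ℝ) / j)
    (u b N : ℕ) (c : ℝ) :
    ∃ c' : ℝ, ∀ ξ : ℝ, |ξ - c'| * |α| ^ (N + u * l + b * s) ≤ 1 → |ξ - c| * |α| ^ N ≤ 1 ∧
      (∀ k m : ℕ, 1 ≤ k → k ≤ j → m ≤ u * l →
        ‖∑ i ∈ Finset.Ico N (N + m), ex (k * (ξ * α ^ i))‖ ≤ (m : ℝ) / j + l) ∧
      2 * ((b * s : ℕ) : ℝ) ≤ ∑ i ∈ Finset.Ico (N + u * l) (N + u * l + b * s), Fj M (ξ * α ^ i) := by
  obtain ⟨c1, hc1⟩ := iterate_moves α hα (fun t' => ∀ k : ℕ, 1 ≤ k → k ≤ j →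
    ‖∑ n ∈ Finset.range l, ex (k * (t' * α ^ n))‖ ≤ (l : ℝ) / j) l hl2 hlj u N c
  obtain ⟨c2, hc2⟩ := iterate_moves α hα (fun t' => 2 * (s : ℝ) ≤ Fj M t') s hs2 hsM b (N + u * l) c1
  refine ⟨c2, fun ξ hξ => ?_⟩
  obtain ⟨h1, h2⟩ := hc2 ξ hξ
  obtain ⟨h3, h4⟩ := hc1 ξ h1
  refine ⟨h3, fun k m hk1 hk2 hm => ?_, ?_⟩
  · exact uniform_block_sum α ξ l j u N k hl hj (fun i hi => h4 i hi k hk1 hk2) m hm
  · exact biased_block_sum α ξ s M b (N + u * l) hs h2

/-- Main construction -/
theorem construction (α : ℝ) (hα : 1 < |α|) :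
    ∃ f : (ℕ → ℕ) → ℝ, Continuous f ∧ ∀ y : ℕ → ℕ,
      (∀ k : ℕ, 1 ≤ k → Tendsto (fun N => A (fun n => f y * α ^ n) k N) atTop (𝓝 0)) ↔
        Tendsto y atTop atTop := by
  have hβ0 : 0 < |α| := by linarith
  obtain ⟨s, M, hs, hM, hs2, hsM⟩ := biased_move α hα
  have hU : ∀ n : ℕ, _ := fun n => uniform_move α hα (n+1) (by omega)
  choose l hl1 hl2 hlj using hU
  -- the lengths
  let P : ℕ → ℕ := fun n => Nat.rec 0
    (fun n p => p + (2 * (n + 1) * p + (n + 2) * l (n+1) + (n + 1) * s) * l n) n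
  have hP0 : P 0 = 0 := rfl
  let u : ℕ → ℕ := fun n => 2 * (n + 1) * P n + (n + 2) * l (n+1) + (n + 1) * s
  have hPS : ∀ n, P (n+1) = P n + u n * l n := fun n => rfl
  let b : ℕ → ℕ → ℕ := fun n v => (u n * l n) / (s * (v + 1))
  -- block lemma
  have hblock : ∀ (n v N : ℕ) (c : ℝ), ∃ c' : ℝ, ∀ ξ : ℝ,
      |ξ - c'| * |α| ^ (N + u n * l n + b n v * s) ≤ 1 → |ξ - c| * |α| ^ N ≤ 1 ∧
      (∀ k m : ℕ, 1 ≤ k → k ≤ n + 1 → m ≤ u n * l n →
        ‖∑ i ∈ Finset.Ico N (N + m), ex (k * (ξ * α ^ i))‖ ≤ (m : ℝ) / ((n + 1 : ℕ) : ℝ) + l n) ∧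
      2 * ((b n v * s : ℕ) : ℝ) ≤ ∑ i ∈ Finset.Ico (N + u n * l n) (N + u n * l n + b n v * s),
        Fj M (ξ * α ^ i) := by
    intro n v N c
    exact block α hα s M hs hs2 hsM (n+1) (l n) (by omega) (hl1 n) (hl2 n) (hlj n) (u n) (b n v) N c
  choose Φ hΦ using hblock
  -- states
  let st : (ℕ → ℕ) → ℕ → ℕ × ℝ := fun y n => Nat.rec (0, 0)
    (fun n p => (p.1 + u n * l n + b n (y n) * s, Φ n (y n) p.1 p.2)) n
  have hst0 : ∀ y, st y 0 = (0, 0) := fun y => rfl
  have hstS1 : ∀ y n, (st y (n+1)).1 = (st y n).1 + u n * l n + b n (y n) * s := fun y n => rfl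
  have hstS2 : ∀ y n, (st y (n+1)).2 = Φ n (y n) (st y n).1 (st y n).2 := fun y n => rfl
  have hupos : ∀ n, 1 ≤ u n * l n := by
    intro n
    have h1 : 1 ≤ u n := by
      have : 1 ≤ (n + 1) * s := by nlinarith
      show 1 ≤ 2 * (n + 1) * P n + (n + 2) * l (n+1) + (n + 1) * s
      omega
    have := hl1 n
    nlinarith
  have hTge : ∀ y n, n ≤ (st y n).1 := by
    intro y n
    induction n with
    | zero => exact Nat.zero_le _
    | succ n ih =>
      rw [hstS1]
      have := hupos n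
      omega
  -- nested intervals
  let Iv : (ℕ → ℕ) → ℕ → Set ℝ := fun y n => {ξ | |ξ - (st y n).2| * |α| ^ (st y n).1 ≤ 1}
  have hIvsub : ∀ y n, Iv y (n+1) ⊆ Iv y n := by
    intro y n ξ hξ
    have h1 : |ξ - (st y (n+1)).2| * |α| ^ (st y (n+1)).1 ≤ 1 := hξ
    rw [hstS1, hstS2] at h1
    exact (hΦ n (y n) (st y n).1 (st y n).2 ξ h1).1
  have hIvclosed : ∀ y n, IsClosed (Iv y n) := by
    intro y n
    apply isClosed_le _ continuous_const
    fun_prop
  have hIvne : ∀ y n, (Iv y n).Nonempty := by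
    intro y n
    refine ⟨(st y n).2, ?_⟩
    show |(st y n).2 - (st y n).2| * |α| ^ (st y n).1 ≤ 1
    simp
  have hIv0 : ∀ y, Iv y 0 ⊆ Metric.closedBall 0 1 := by
    intro y ξ hξ
    have h1 : |ξ - (st y 0).2| * |α| ^ (st y 0).1 ≤ 1 := hξ
    rw [hst0] at h1
    simp only [sub_zero, pow_zero, mul_one] at h1
    rw [Metric.mem_closedBall, dist_zero_right, Real.norm_eq_abs]
    exact h1
  have hex : ∀ y, ∃ ξ, ∀ n, ξ ∈ Iv y n := by
    intro y
    have h1 := IsCompact.nonempty_iInter_of_sequence_nonempty_isCompact_isClosed (Iv y)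
      (hIvsub y) (hIvne y)
      ((isCompact_closedBall (0:ℝ) 1).of_isClosed_subset (hIvclosed y 0) (hIv0 y)) (hIvclosed y)
    obtain ⟨ξ, hξ⟩ := h1
    exact ⟨ξ, fun n => Set.mem_iInter.1 hξ n⟩
  choose f hf using hex
  refine ⟨f, ?_, ?_⟩
  · -- continuity
    have hstloc : ∀ n (y y' : ℕ → ℕ), (∀ i < n, y i = y' i) → st y n = st y' n := by
      intro n
      induction n with
      | zero => intro y y' _; rfl
      | succ n ih =>
        intro y y' hyy'
        have h1 := ih y y' (fun i hi => hyy' i (by omega))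
        have h2 := hyy' n (by omega)
        apply Prod.ext
        · rw [hstS1, hstS1, h1, h2]
        · rw [hstS2, hstS2, h1, h2]
    rw [continuous_iff_continuousAt]
    intro y
    rw [Metric.continuousAt_iff']
    intro ε hε
    have h1 : Tendsto (fun n : ℕ => 2 * |α|⁻¹ ^ n) atTop (𝓝 (2 * 0)) :=
      (tendsto_pow_atTop_nhds_zero_of_lt_one (by positivity) (inv_lt_one_of_one_lt₀ hα)).const_mul 2
    rw [mul_zero] at h1
    obtain ⟨n, hn⟩ := (h1.eventually_lt_const hε).exists
    have h2 : {y' : ℕ → ℕ | ∀ i < n, y i = y' i} ∈ 𝓝 y := by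
      have h3 : {y' : ℕ → ℕ | ∀ i < n, y i = y' i} = ⋂ i ∈ Finset.range n, {y' : ℕ → ℕ | y i = y' i} := by
        ext y'; simp
      rw [h3]
      apply (Filter.biInter_finset_mem _).2
      intro i _
      have h4 : IsOpen {y' : ℕ → ℕ | y i = y' i} := by
        have : {y' : ℕ → ℕ | y i = y' i} = (fun y' : ℕ → ℕ => y' i) ⁻¹' {y i} := by
          ext y'; simp [eq_comm]
        rw [this]
        exact (isOpen_discrete _).preimage (continuous_apply i)
      exact h4.mem_nhds rfl
    filter_upwards [h2] with y' hy'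
    have g1 : |f y - (st y n).2| * |α| ^ (st y n).1 ≤ 1 := hf y n
    have g2 : |f y' - (st y' n).2| * |α| ^ (st y' n).1 ≤ 1 := hf y' n
    rw [← hstloc n y y' hy'] at g2
    have g3 : |α| ^ n ≤ |α| ^ (st y n).1 := pow_le_pow_right₀ hα.le (hTge y n)
    have hpn : 0 < |α| ^ n := by positivity
    have g4 : ∀ z : ℝ, |z| * |α| ^ (st y n).1 ≤ 1 → |z| ≤ |α|⁻¹ ^ n := by
      intro z hz
      rw [inv_pow, ← one_div, le_div_iff₀ hpn]
      exact (mul_le_mul_of_nonneg_left g3 (abs_nonneg z)).trans hz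
    have g5 := g4 _ g1
    have g6 := g4 _ g2
    rw [Real.dist_eq]
    calc |f y' - f y| = |(f y' - (st y n).2) - (f y - (st y n).2)| := by ring_nf
      _ ≤ |f y' - (st y n).2| + |f y - (st y n).2| := abs_sub _ _
      _ ≤ 2 * |α|⁻¹ ^ n := by linarith
      _ < ε := hn
  · intro y
    -- block data
    have hBD : BlockData (fun n => f y * α ^ n) y (fun n => u n * l n) (fun n => b n (y n) * s)
        (fun n => (st y n).1) l M s := by
      have hprops : ∀ n, (∀ k m : ℕ, 1 ≤ k → k ≤ n + 1 → m ≤ u n * l n →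
        ‖∑ i ∈ Finset.Ico (st y n).1 ((st y n).1 + m), ex (k * (f y * α ^ i))‖ ≤
          (m : ℝ) / ((n + 1 : ℕ) : ℝ) + l n) ∧
      2 * ((b n (y n) * s : ℕ) : ℝ) ≤ ∑ i ∈ Finset.Ico ((st y n).1 + u n * l n)
        ((st y n).1 + u n * l n + b n (y n) * s), Fj M (f y * α ^ i) := by
        intro n
        have h1 : |f y - (st y (n+1)).2| * |α| ^ (st y (n+1)).1 ≤ 1 := hf y (n+1)
        rw [hstS1, hstS2] at h1
        exact (hΦ n (y n) (st y n).1 (st y n).2 (f y) h1).2
      have hQ1 : ∀ n, b n (y n) * s * (y n + 1) ≤ u n * l n := by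
        intro n
        have := Nat.div_mul_le_self (u n * l n) (s * (y n + 1))
        calc b n (y n) * s * (y n + 1) = (u n * l n) / (s * (y n + 1)) * (s * (y n + 1)) := by
              rw [mul_assoc]
          _ ≤ u n * l n := this
      have hTP : ∀ n, (st y n).1 ≤ 2 * P n := by
        intro n
        induction n with
        | zero => rw [hst0]; simp
        | succ n ih =>
          rw [hstS1, hPS]
          have h2 := hQ1 n
          have h3 : b n (y n) * s ≤ b n (y n) * s * (y n + 1) := Nat.le_mul_of_pos_right _ (by omega)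
          omega
      have hul : ∀ n, u n ≤ u n * l n := fun n => Nat.le_mul_of_pos_right _ (by have := hl1 n; omega)
      have hlu : ∀ n, (n + 1) * l n ≤ u n * l n := by
        intro n
        apply Nat.mul_le_mul_right
        have : n + 1 ≤ (n + 1) * s := Nat.le_mul_of_pos_right _ (by omega)
        show n + 1 ≤ 2 * (n + 1) * P n + (n + 2) * l (n+1) + (n + 1) * s
        omega
      refine ⟨rfl, fun n => hstS1 y n, fun n => (hprops n).1, fun n => (hprops n).2, hQ1, ?_, ?_, ?_,
        hlu, ?_, hs, hM⟩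
      · intro n
        -- R ≤ (y+1) (Q + s)
        have h1 : u n * l n < s * (y n + 1) * (b n (y n) + 1) := Nat.lt_mul_div_succ _ (by positivity)
        calc u n * l n ≤ s * (y n + 1) * (b n (y n) + 1) := h1.le
          _ = (y n + 1) * (b n (y n) * s + s) := by ring
      · intro n
        calc (n + 1) * (st y n).1 ≤ (n + 1) * (2 * P n) := Nat.mul_le_mul_left _ (hTP n)
          _ = 2 * (n + 1) * P n := by ring
          _ ≤ u n := by
              show 2 * (n + 1) * P n ≤ 2 * (n + 1) * P n + (n + 2) * l (n+1) + (n + 1) * s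
              omega
          _ ≤ u n * l n := hul n
      · intro n hn
        obtain ⟨m, rfl⟩ : ∃ m, n = m + 1 := ⟨n - 1, by omega⟩
        calc (m + 1 + 1) * l (m+1) ≤ u m := by
              show (m + 2) * l (m+1) ≤ 2 * (m + 1) * P m + (m + 2) * l (m+1) + (m + 1) * s
              omega
          _ ≤ u m * l m := hul m
          _ ≤ (st y (m+1)).1 := by rw [hstS1]; omega
      · intro n
        calc (n + 1) * s ≤ u n := by
              show (n + 1) * s ≤ 2 * (n + 1) * P n + (n + 2) * l (n+1) + (n + 1) * s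
              omega
          _ ≤ u n * l n := hul n
    constructor
    · intro h
      exact hBD.tendsto_y_of_tendsto h
    · intro h k hk
      exact hBD.tendsto_of_tendsto h k hk

/-- every Pi-0-3 subset of Baire space reduces continuously to the set of sequences tending
to infinity -/
theorem pi03_reduction (B : Set (ℕ → ℕ)) (G : ℕ → ℕ → Set (ℕ → ℕ)) (hG : ∀ i j, IsClosed (G i j))
    (hB : B = ⋂ i, ⋃ j, G i j) :
    ∃ g : (ℕ → ℕ) → (ℕ → ℕ), Continuous g ∧ ∀ z, z ∈ B ↔ Tendsto (g z) atTop atTop := by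
  classical
  -- meets z i n j : the cylinder of z at n meets one of G i 0, ..., G i j
  let meets : (ℕ → ℕ) → ℕ → ℕ → ℕ → Prop := fun z i n j =>
    n < j ∨ ∃ j' ≤ j, ∃ w ∈ G i j', ∀ q < n, w q = z q
  have hmex : ∀ z i n, ∃ j, meets z i n j := fun z i n => ⟨n + 1, Or.inl (Nat.lt_succ_self n)⟩
  let J : (ℕ → ℕ) → ℕ → ℕ → ℕ := fun z i n => Nat.find (hmex z i n)
  have hJspec : ∀ z i n, meets z i n (J z i n) := fun z i n => Nat.find_spec (hmex z i n)
  have hJle : ∀ z i n j, meets z i n j → J z i n ≤ j := fun z i n j h => Nat.find_min' (hmex z i n) h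
  have hJmono : ∀ z i n, J z i n ≤ J z i (n+1) := by
    intro z i n
    apply hJle
    rcases hJspec z i (n+1) with h | ⟨j', hj', w, hw, hwz⟩
    · left; omega
    · right; exact ⟨j', hj', w, hw, fun q hq => hwz q (by omega)⟩
  have hJmono' : ∀ z i n m, n ≤ m → J z i n ≤ J z i m := by
    intro z i n m hnm
    exact monotone_nat_of_le_succ (hJmono z i) hnm
  have hJloc : ∀ z z' i n, (∀ q < n, z q = z' q) → J z i n = J z' i n := by
    intro z z' i n hzz
    apply le_antisymm
    · apply hJle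
      rcases hJspec z' i n with h | ⟨j', hj', w, hw, hwz⟩
      · left; exact h
      · right; exact ⟨j', hj', w, hw, fun q hq => by rw [hwz q hq, hzz q hq]⟩
    · apply hJle
      rcases hJspec z i n with h | ⟨j', hj', w, hw, hwz⟩
      · left; exact h
      · right; exact ⟨j', hj', w, hw, fun q hq => by rw [hwz q hq, hzz q hq]⟩
  -- membership and boundedness
  have hin : ∀ z i, z ∈ ⋃ j, G i j → ∃ b, ∀ n, J z i n ≤ b := by
    intro z i hz
    obtain ⟨j, hj⟩ := Set.mem_iUnion.1 hz
    exact ⟨j, fun n => hJle z i n j (Or.inr ⟨j, le_rfl, z, hj, fun q _ => rfl⟩)⟩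
  have hout : ∀ z i, z ∉ ⋃ j, G i j → ∀ b, ∃ n, b < J z i n := by
    intro z i hz b
    -- for each j ≤ b a cylinder of z misses G i j
    have h1 : ∀ j, ∃ n, ∀ w, (∀ q < n, w q = z q) → w ∉ G i j := by
      intro j
      have h2 : z ∈ (G i j)ᶜ := fun hc => hz (Set.mem_iUnion.2 ⟨j, hc⟩)
      have ho : IsOpen (G i j)ᶜ := (hG i j).isOpen_compl
      rw [isOpen_pi_iff] at ho
      obtain ⟨F, u, hu, hFu⟩ := ho z h2
      refine ⟨F.sup id + 1, fun w hw hc => ?_⟩
      have : w ∈ (G i j)ᶜ := by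
        apply hFu
        intro q hq
        have hq1 : q < F.sup id + 1 := Nat.lt_succ_of_le (Finset.le_sup (f := id) hq)
        rw [hw q hq1]
        exact (hu q hq).2
      exact this hc
    choose m hm using h1
    refine ⟨(Finset.range (b+1)).sup m + b, ?_⟩
    by_contra hc
    push Not at hc
    rcases hJspec z i ((Finset.range (b+1)).sup m + b) with h | ⟨j', hj', w, hw, hwz⟩
    · omega
    · have hj'b : j' ∈ Finset.range (b+1) := Finset.mem_range.2 (by omega)
      have h3 : m j' ≤ (Finset.range (b+1)).sup m := Finset.le_sup hj'b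
      exact hm j' w (fun q hq => hwz q (by omega)) hw
  -- the map
  let g : (ℕ → ℕ) → ℕ → ℕ := fun z p =>
    if J z p.unpair.1 (p.unpair.2 + 1) ≠ J z p.unpair.1 p.unpair.2 then p.unpair.1 else p
  refine ⟨g, ?_, ?_⟩
  · apply continuous_pi
    intro p
    rw [continuous_iff_continuousAt]
    intro z
    have h2 : {z' : ℕ → ℕ | ∀ q < p.unpair.2 + 1, z q = z' q} ∈ 𝓝 z := by
      have h3 : {z' : ℕ → ℕ | ∀ q < p.unpair.2 + 1, z q = z' q} =
          ⋂ q ∈ Finset.range (p.unpair.2 + 1), {z' : ℕ → ℕ | z q = z' q} := by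
        ext y'; simp
      rw [h3]
      apply (Filter.biInter_finset_mem _).2
      intro i _
      have h4 : IsOpen {y' : ℕ → ℕ | z i = y' i} := by
        have : {y' : ℕ → ℕ | z i = y' i} = (fun y' : ℕ → ℕ => y' i) ⁻¹' {z i} := by
          ext y'; simp [eq_comm]
        rw [this]
        exact (isOpen_discrete _).preimage (continuous_apply i)
      exact h4.mem_nhds rfl
    apply ContinuousAt.congr (continuousAt_const (y := g z p))
    filter_upwards [h2] with z' hz'
    have e1 := hJloc z z' p.unpair.1 (p.unpair.2 + 1) hz'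
    have e2 := hJloc z z' p.unpair.1 p.unpair.2 (fun q hq => hz' q (by omega))
    simp only [g]
    rw [e1, e2]
  · intro z
    rw [hB, Set.mem_iInter]
    constructor
    · intro hz
      rw [tendsto_atTop_atTop]
      intro v
      -- for each i < v there is a bound after which J z i is constant
      have h1 : ∀ i, ∃ n0, ∀ n ≥ n0, J z i (n+1) = J z i n := by
        intro i
        obtain ⟨b, hb⟩ := hin z i (hz i)
        by_contra hcon
        push Not at hcon
        have h2 : ∀ c : ℕ, ∃ n, c ≤ J z i n := by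
          intro c
          induction c with
          | zero => exact ⟨0, Nat.zero_le _⟩
          | succ c ih =>
            obtain ⟨n, hn⟩ := ih
            obtain ⟨m, hm, hm2⟩ := hcon n
            refine ⟨m + 1, ?_⟩
            have h3 := hJmono z i m
            have h4 := hJmono' z i n m hm
            omega
        obtain ⟨n, hn⟩ := h2 (b+1)
        have := hb n
        omega
      choose n0 hn0 using h1
      refine ⟨v + (Finset.range (v+1)).sup (fun i => (Finset.range (n0 i + 1)).sup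
        (fun n => Nat.pair i n + 1)), fun p hp => ?_⟩
      show v ≤ (if J z p.unpair.1 (p.unpair.2 + 1) ≠ J z p.unpair.1 p.unpair.2 then p.unpair.1 else p)
      split_ifs with hne
      · by_contra hlt
        push Not at hlt
        have h2 : p.unpair.2 < n0 p.unpair.1 := by
          by_contra hc
          push Not at hc
          exact hne (hn0 p.unpair.1 p.unpair.2 hc)
        have h3 : Nat.pair p.unpair.1 p.unpair.2 + 1 ≤
            (Finset.range (n0 p.unpair.1 + 1)).sup (fun n => Nat.pair p.unpair.1 n + 1) :=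
          Finset.le_sup (f := fun n => Nat.pair p.unpair.1 n + 1) (Finset.mem_range.2 (by omega))
        have h4 : (Finset.range (n0 p.unpair.1 + 1)).sup (fun n => Nat.pair p.unpair.1 n + 1) ≤
            (Finset.range (v+1)).sup (fun i => (Finset.range (n0 i + 1)).sup
              (fun n => Nat.pair i n + 1)) :=
          Finset.le_sup (f := fun i => (Finset.range (n0 i + 1)).sup
              (fun n => Nat.pair i n + 1)) (Finset.mem_range.2 (by omega))
        rw [Nat.pair_unpair] at h3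
        omega
      · omega
    · intro ht i
      by_contra hzi
      have hub := hout z i hzi
      rw [tendsto_atTop_atTop] at ht
      obtain ⟨p0, hp0⟩ := ht (i+1)
      -- find a change beyond p0
      have h1 : ∃ n ≥ p0, J z i (n+1) ≠ J z i n := by
        by_contra hcon
        push Not at hcon
        have h2 : ∀ k, J z i (p0 + k) = J z i p0 := by
          intro k
          induction k with
          | zero => rfl
          | succ k ih => rw [← add_assoc, hcon (p0 + k) (by omega), ih]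
        obtain ⟨n, hn⟩ := hub (J z i p0)
        rcases le_total n p0 with h | h
        · have := hJmono' z i n p0 h
          omega
        · obtain ⟨k, rfl⟩ := Nat.exists_eq_add_of_le h
          rw [h2 k] at hn
          omega
      obtain ⟨n, hn, hne⟩ := h1
      have h2 : p0 ≤ Nat.pair i n := hn.trans (Nat.right_le_pair i n)
      have h3 := hp0 (Nat.pair i n) h2
      have h4 : g z (Nat.pair i n) = i := by
        simp only [g, Nat.unpair_pair]
        rw [if_pos hne]
      rw [h4] at h3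
      omega

/-- For every real α with ∣α∣>1, the set of reals ξ with ξαⁿ uniformly distributed mod 1 is a countable intersection of F-sigma sets, and every such set in Baire space is its continuous preimage. -/
theorem result :
    ∀ α : ℝ, 1 < |α| →
      ∀ A : Set ℝ,
        A = {ξ : ℝ | ∀ a b : ℝ, 0 ≤ a → a ≤ b → b ≤ 1 →
              Tendsto
                (fun N : ℕ =>
                  (((Finset.range N).filter
                      (fun n => a ≤ Int.fract (ξ * α ^ n) ∧ Int.fract (ξ * α ^ n) < b)).card : ℝ)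
                    / (N : ℝ))
                atTop (𝓝 (b - a))} →
        (∃ F : ℕ → ℕ → Set ℝ, (∀ i j, IsClosed (F i j)) ∧ A = ⋂ i, ⋃ j, F i j) ∧
        (∀ B : Set (ℕ → ℕ),
          (∃ G : ℕ → ℕ → Set (ℕ → ℕ), (∀ i j, IsClosed (G i j)) ∧ B = ⋂ i, ⋃ j, G i j) →
          ∃ f : (ℕ → ℕ) → ℝ, Continuous f ∧ f ⁻¹' A = B) := by
  intro α hα S hS
  have hmem : ∀ ξ : ℝ, ξ ∈ S ↔ ∀ k : ℕ, 1 ≤ k →
      Tendsto (fun N => A (fun n => ξ * α ^ n) k N) atTop (𝓝 0) := by
    intro ξ
    rw [hS]
    constructor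
    · intro h k hk
      exact weyl_of_ud (fun n => ξ * α ^ n) h k hk
    · intro h
      exact ud_of_weyl (fun n => ξ * α ^ n) h
  constructor
  · -- F-sigma-delta
    let F : ℕ → ℕ → Set ℝ := fun p j => ⋂ N : {N : ℕ // j ≤ N},
      {ξ : ℝ | ‖A (fun n => ξ * α ^ n) (p.unpair.1 + 1) N‖ ≤ 1 / ((p.unpair.2 : ℝ) + 1)}
    refine ⟨F, ?_, ?_⟩
    · intro p j
      apply isClosed_iInter
      intro N
      apply isClosed_le _ continuous_const
      apply Continuous.norm
      unfold A
      apply Continuous.div_const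
      apply continuous_finsetSum
      intro n _
      exact continuous_ex.comp (by fun_prop)
    · ext ξ
      rw [hmem, Set.mem_iInter]
      constructor
      · intro h p
        have h1 := h (p.unpair.1 + 1) (by omega)
        rw [Metric.tendsto_atTop] at h1
        obtain ⟨j, hj⟩ := h1 (1 / ((p.unpair.2 : ℝ) + 1)) (by positivity)
        refine Set.mem_iUnion.2 ⟨j, Set.mem_iInter.2 (fun N => ?_)⟩
        have h2 := hj N.1 N.2
        rw [dist_zero_right] at h2
        exact h2.le
      · intro h k hk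
        rw [Metric.tendsto_atTop]
        intro ε hε
        obtain ⟨m, hm⟩ := exists_nat_one_div_lt hε
        obtain ⟨j, hj⟩ := Set.mem_iUnion.1 (h (Nat.pair (k-1) m))
        refine ⟨j, fun N hN => ?_⟩
        have h2 := Set.mem_iInter.1 hj ⟨N, hN⟩
        simp only [Nat.unpair_pair, Set.mem_ofPred_eq] at h2
        have h3 : k - 1 + 1 = k := by omega
        rw [h3] at h2
        rw [dist_zero_right]
        exact lt_of_le_of_lt h2 hm
  · rintro B ⟨G, hG, hB⟩
    obtain ⟨g, hg, hgB⟩ := pi03_reduction B G hG hB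
    obtain ⟨f, hf, hfA⟩ := construction α hα
    refine ⟨f ∘ g, hf.comp hg, ?_⟩
    ext z
    rw [Set.mem_preimage, Function.comp, hmem, hfA, hgB]

end Pool.Agent.S14933
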