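import Pool.Statements.S14935
import Pool.Agent.H534R3.GamGrp
import Pool.Agent.H534R3.NonBorel

set_option autoImplicit false
open Pool Pool.MP_7a8588_lc

namespace Pool.Agent.S14935

open Pool.Agent.H534R3 Pool.Agent.H534R3.GamGrp

/-- The property of sets of naturals. -/
def Phi (D : Set ℕ) : Prop :=
  (∀ m : ℕ, ∃ i, m ≤ i ∧ 2 * i + 1 ∈ D) ∧
  ∃ m : ℕ, ∀ i j : ℕ, m ≤ i → i < j → 2 * i + 1 ∈ D → 2 * j + 1 ∈ D → 2 * Nat.pair i j ∈ D

/-- The set of torsion primes read off from the characteristic function. -/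
def Ds (f : F → Bool) : Set ℕ :=
  {k | ∃ w : F, w ∈ derivedSeries F 2 ∧ f w = false ∧ f (w ^ p k) = true}

theorem ms (w : F) (b : Bool) : MeasurableSet {f : F → Bool | f w = b} :=
  measurableSet_eq_fun (measurable_pi_apply w) measurable_const

theorem ms_Ds (k : ℕ) : MeasurableSet {f : F → Bool | k ∈ Ds f} := by
  have : {f : F → Bool | k ∈ Ds f} =
      ⋃ w ∈ {w : F | w ∈ derivedSeries F 2},
        ({f : F → Bool | f w = false} ∩ {f : F → Bool | f (w ^ p k) = true}) := by
    ext f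
    simp only [Ds, Set.mem_ofPred_eq, Set.mem_iUnion, Set.mem_inter_iff, exists_prop]
  rw [this]
  exact MeasurableSet.biUnion (Set.to_countable _) fun w _ => (ms w _).inter (ms _ _)

theorem ms_Phi : MeasurableSet {f : F → Bool | Phi (Ds f)} := by
  have h1 : {f : F → Bool | Phi (Ds f)} =
      (⋂ m : ℕ, ⋃ i : ℕ, {f : F → Bool | m ≤ i ∧ 2 * i + 1 ∈ Ds f}) ∩
      ⋃ m : ℕ, ⋂ i : ℕ, ⋂ j : ℕ, {f : F → Bool | m ≤ i → i < j → 2 * i + 1 ∈ Ds f →
        2 * j + 1 ∈ Ds f → 2 * Nat.pair i j ∈ Ds f} := by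
    ext f
    simp only [Phi, Set.mem_ofPred_eq, Set.mem_iUnion, Set.mem_inter_iff, Set.mem_iInter]
  rw [h1]
  refine MeasurableSet.inter ?_ ?_
  · refine MeasurableSet.iInter fun m => MeasurableSet.iUnion fun i => ?_
    by_cases h : m ≤ i
    · simpa only [h, true_and] using ms_Ds _
    · simp only [h, false_and]
      exact MeasurableSet.const _
  · refine MeasurableSet.iUnion fun m => MeasurableSet.iInter fun i => MeasurableSet.iInter fun j => ?_
    by_cases h : m ≤ i
    · by_cases h' : i < j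
      · simp only [h, h', true_imp_iff]
        exact (ms_Ds _).imp ((ms_Ds _).imp (ms_Ds _))
      · simp only [h, h', true_imp_iff, false_imp_iff]
        exact MeasurableSet.const _
    · simp only [h, false_imp_iff]
      exact MeasurableSet.const _

/-- The characteristic functions of normal subgroups. -/
def IsN (f : F → Bool) : Prop := ∃ N : Subgroup F, N.Normal ∧ ∀ g, f g = true ↔ g ∈ N

theorem ms_IsN : MeasurableSet {f : F → Bool | IsN f} := by
  have h1 : {f : F → Bool | IsN f} =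
      {f : F → Bool | f 1 = true} ∩ (⋂ a : F, ⋂ b : F, {f : F → Bool | f a = true → f b = true →
        f (a * b) = true}) ∩ (⋂ a : F, {f : F → Bool | f a = true → f (a⁻¹) = true}) ∩
        (⋂ a : F, ⋂ b : F, {f : F → Bool | f a = true → f (b * a * b⁻¹) = true}) := by
    ext f
    simp only [Set.mem_inter_iff, Set.mem_iInter, Set.mem_ofPred_eq]
    constructor
    · rintro ⟨N, hN, h⟩
      refine ⟨⟨⟨?_, ?_⟩, ?_⟩, ?_⟩
      · exact (h 1).2 (one_mem N)
      · intro a b ha hb
        exact (h _).2 (mul_mem ((h a).1 ha) ((h b).1 hb))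
      · intro a ha
        exact (h _).2 (inv_mem ((h a).1 ha))
      · intro a b ha
        exact (h _).2 (hN.conj_mem _ ((h a).1 ha) _)
    · rintro ⟨⟨⟨h1, h2⟩, h3⟩, h4⟩
      refine ⟨{ carrier := {g | f g = true}
                mul_mem' := fun {a b} ha hb => h2 a b ha hb
                one_mem' := h1
                inv_mem' := fun {a} ha => h3 a ha }, ⟨fun a ha b => h4 a b ha⟩, fun g => Iff.rfl⟩
  rw [h1]
  refine MeasurableSet.inter (MeasurableSet.inter (MeasurableSet.inter (ms _ _) ?_) ?_) ?_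
  · exact MeasurableSet.iInter fun a => MeasurableSet.iInter fun b =>
      (ms _ _).imp ((ms _ _).imp (ms _ _))
  · exact MeasurableSet.iInter fun a => (ms _ _).imp (ms _ _)
  · exact MeasurableSet.iInter fun a => MeasurableSet.iInter fun b => (ms _ _).imp (ms _ _)

theorem Ds_eq {f : F → Bool} {N : Subgroup F} (h : ∀ g, f g = true ↔ g ∈ N) : Ds f = DD N := by
  ext k
  simp only [Ds, DD, Set.mem_ofPred_eq]
  refine exists_congr fun w => and_congr_right fun _ => and_congr ?_ (h _)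
  rw [← h w, Bool.not_eq_true]

/-- The set of primes attached to a graph. -/
def DE (E : ℕ → Bool) : Set ℕ := {k | (∃ i, k = 2 * i + 1) ∨ ∃ c, k = 2 * c ∧ E c = true}

open Classical in
/-- The characteristic function attached to a graph. -/
noncomputable def Th (E : ℕ → Bool) : F → Bool := fun w => decide (w ∈ NN (DE E))

theorem Th_iff (E : ℕ → Bool) (w : F) : Th E w = true ↔ w ∈ NN (DE E) := by
  simp [Th]

theorem Th_meas : Measurable Th := by
  refine measurable_pi_iff.2 fun w => ?_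
  refine measurable_to_bool ?_
  have h0 : (fun E => Th E w) ⁻¹' {true} = {E : ℕ → Bool | w ∈ NN (DE E)} := by
    ext E
    simp only [Set.mem_preimage, Set.mem_singleton_iff, Set.mem_ofPred_eq, Th_iff]
  rw [h0]
  by_cases hw : ∃ h, π w = Gam.E h
  · obtain ⟨h, hh⟩ := hw
    have h1 : {E : ℕ → Bool | w ∈ NN (DE E)} =
        ⋂ k : ℕ, {E : ℕ → Bool | k ∈ DE E → ((p k : ℕ) : ℤ) ∣ h.coeff (k : ℤ)} := by
      ext E
      simp only [Set.mem_iInter, Set.mem_ofPred_eq]
      constructor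
      · rintro ⟨h', e1, e2⟩ k hk
        rw [Gam.E_inj (hh.symm.trans e1)]
        exact e2 k hk
      · intro H
        exact ⟨h, hh, H⟩
    rw [h1]
    refine MeasurableSet.iInter fun k => MeasurableSet.imp ?_ (MeasurableSet.const _)
    have h2 : {E : ℕ → Bool | k ∈ DE E} =
        {E : ℕ → Bool | ∃ i, k = 2 * i + 1} ∪ ⋃ c : ℕ, {E : ℕ → Bool | k = 2 * c ∧ E c = true} := by
      ext E
      simp only [DE, Set.mem_union, Set.mem_iUnion, Set.mem_ofPred_eq]
    change MeasurableSet {E : ℕ → Bool | k ∈ DE E}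
    rw [h2]
    refine (MeasurableSet.const _).union (MeasurableSet.iUnion fun c => ?_)
    by_cases hc : k = 2 * c
    · simp only [hc, true_and]
      exact measurableSet_eq_fun (measurable_pi_apply c) measurable_const
    · simp only [hc, false_and]
      exact MeasurableSet.const _
  · have h1 : {E : ℕ → Bool | w ∈ NN (DE E)} = ∅ := by
      ext E
      simp only [Set.mem_ofPred_eq, Set.mem_empty_iff_false, iff_false]
      rintro ⟨h, hh, -⟩
      exact hw ⟨h, hh⟩
    rw [h1]
    exact MeasurableSet.empty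

/-- The residual condition. -/
def Res (N : Subgroup F) : Prop :=
  ∀ g : F, g ∉ N → ∃ M : Subgroup F, M.Normal ∧ N ≤ M ∧ g ∉ M ∧ Phi (DD M)

theorem Res_iff (E : ℕ → Bool) : Res (NN (DE E)) ↔ NonBorel.Clique E := by
  constructor
  · intro H
    have hwa : wa ∉ NN (DE E) := by
      rintro ⟨h, hh, -⟩
      rw [π_wa] at hh
      have := congrArg Gam.f hh
      simp at this
    obtain ⟨M, _, hNM, _, h1, m, h2⟩ := H wa hwa
    have hsub := DD_anti hNM
    refine ⟨{i | m ≤ i ∧ 2 * i + 1 ∈ DD M}, ?_, ?_⟩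
    · rw [Set.infinite_iff_exists_gt]
      intro a
      obtain ⟨i, hi, hi'⟩ := h1 (max m (a + 1))
      exact ⟨i, ⟨le_trans (le_max_left _ _) hi, hi'⟩, lt_of_lt_of_le (Nat.lt_succ_self a) (le_trans (le_max_right _ _) hi)⟩
    · rintro i ⟨hi, hi'⟩ j ⟨hj, hj'⟩ hij
      have h3 := hsub (h2 i j hi hij hi' hj')
      rcases h3 with ⟨c, hc⟩ | ⟨c, hc, hc'⟩
      · omega
      · have : Nat.pair i j = c := by omega
        rw [this]
        exact hc'
  · rintro ⟨A, hA, hE⟩ g hg
    have hk₀ : ∃ k₀ ∈ DE E, g ∉ NN {k₀} := by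
      by_cases hw : ∃ h, π g = Gam.E h
      · obtain ⟨h, hh⟩ := hw
        have h1 : ¬ GamGrp.Div (DE E) h := fun h' => hg ⟨h, hh, h'⟩
        unfold GamGrp.Div at h1
        push Not at h1
        obtain ⟨k, hk, hk'⟩ := h1
        refine ⟨k, hk, ?_⟩
        rintro ⟨h', e1, e2⟩
        rw [Gam.E_inj (hh.symm.trans e1)] at hk'
        exact hk' (e2 k rfl)
      · refine ⟨1, Or.inl ⟨0, rfl⟩, ?_⟩
        rintro ⟨h, hh, -⟩
        exact hw ⟨h, hh⟩
    obtain ⟨k₀, hk₀, hg₀⟩ := hk₀
    set D' : Set ℕ := {k | k = k₀ ∨ (∃ i ∈ A, k = 2 * i + 1) ∨ ∃ c, k = 2 * c ∧ E c = true} with hD'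
    refine ⟨NN D', inferInstance, NN_mono ?_, fun h => hg₀ (NN_mono ?_ h), ?_⟩
    · rintro k (rfl | ⟨i, -, rfl⟩ | ⟨c, rfl, hc⟩)
      · exact hk₀
      · exact Or.inl ⟨i, rfl⟩
      · exact Or.inr ⟨c, rfl, hc⟩
    · rintro k hk
      exact Or.inl hk
    · rw [DD_NN]
      refine ⟨fun m => ?_, k₀ + 1, ?_⟩
      · obtain ⟨i, hi, hi'⟩ := (Set.infinite_iff_exists_gt.1 hA) m
        exact ⟨i, hi'.le, Or.inr (Or.inl ⟨i, hi, rfl⟩)⟩
      · intro i j hi hij h1 h2
        have key : ∀ i : ℕ, k₀ + 1 ≤ i → 2 * i + 1 ∈ D' → i ∈ A := by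
          rintro i hi (h | ⟨i', hi', h⟩ | ⟨c, h, -⟩)
          · omega
          · have : i = i' := by omega
            rw [this]
            exact hi'
          · omega
        exact Or.inr (Or.inr ⟨_, rfl, hE i (key i hi h1) j (key j (by omega) h2) hij⟩)

/-- For some n there is an isomorphism-invariant group property P, Borel in the space of n-generated marked groups, such that the just-non-P marked groups or the residually P marked groups form a non-Borel set. -/
theorem result :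
    ∃ n : ℕ, ∃ S : Set (Subgroup (FreeGroup (Fin n))),
      (∀ (N M : Subgroup (FreeGroup (Fin n))) [N.Normal] [M.Normal],
          Nonempty ((FreeGroup (Fin n) ⧸ N) ≃* (FreeGroup (Fin n) ⧸ M)) → (N ∈ S ↔ M ∈ S)) ∧
      @MeasurableSet (FreeGroup (Fin n) → Bool) (borel (FreeGroup (Fin n) → Bool))
        {f : FreeGroup (Fin n) → Bool | ∃ N : Subgroup (FreeGroup (Fin n)),
          N.Normal ∧ N ∈ S ∧ ∀ g, f g = true ↔ g ∈ N} ∧
      (¬ @MeasurableSet (FreeGroup (Fin n) → Bool) (borel (FreeGroup (Fin n) → Bool))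
          {f : FreeGroup (Fin n) → Bool | ∃ N : Subgroup (FreeGroup (Fin n)),
            N.Normal ∧ N ∉ S ∧
            (∀ M : Subgroup (FreeGroup (Fin n)), M.Normal → N < M → M ∈ S) ∧
            ∀ g, f g = true ↔ g ∈ N} ∨
       ¬ @MeasurableSet (FreeGroup (Fin n) → Bool) (borel (FreeGroup (Fin n) → Bool))
          {f : FreeGroup (Fin n) → Bool | ∃ N : Subgroup (FreeGroup (Fin n)),
            N.Normal ∧
            (∀ g : FreeGroup (Fin n), g ∉ N →
              ∃ M : Subgroup (FreeGroup (Fin n)), M.Normal ∧ N ≤ M ∧ g ∉ M ∧ M ∈ S) ∧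
            ∀ g, f g = true ↔ g ∈ N}) := by
  have hb : borel (F → Bool) = MeasurableSpace.pi := BorelSpace.measurable_eq.symm
  refine ⟨3, {N | Phi (DD N)}, ?_, ?_, Or.inr ?_⟩
  · rintro N M _ _ ⟨e⟩
    change Phi (DD N) ↔ Phi (DD M)
    rw [DD_iso e]
  · rw [hb]
    have h1 : {f : F → Bool | ∃ N : Subgroup F, N.Normal ∧ N ∈ {N | Phi (DD N)} ∧
        ∀ g, f g = true ↔ g ∈ N} = {f : F → Bool | IsN f} ∩ {f : F → Bool | Phi (Ds f)} := by
      ext f
      constructor
      · rintro ⟨N, h1, h2, h3⟩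
        refine ⟨⟨N, h1, h3⟩, ?_⟩
        change Phi (Ds f)
        rw [Ds_eq h3]
        exact h2
      · rintro ⟨⟨N, h1, h3⟩, h2⟩
        refine ⟨N, h1, ?_, h3⟩
        change Phi (Ds f) at h2
        rw [Ds_eq h3] at h2
        exact h2
    rw [h1]
    exact ms_IsN.inter ms_Phi
  · rw [hb]
    intro hm
    apply NonBorel.clique_not_measurable
    have h1 := Th_meas hm
    convert h1 using 1
    ext E
    change NonBorel.Clique E ↔ ∃ N : Subgroup F, N.Normal ∧
      (∀ g : F, g ∉ N → ∃ M : Subgroup F, M.Normal ∧ N ≤ M ∧ g ∉ M ∧ Phi (DD M)) ∧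
      ∀ g, Th E g = true ↔ g ∈ N
    rw [← Res_iff]
    constructor
    · intro h
      exact ⟨_, inferInstance, h, Th_iff E⟩
    · rintro ⟨N, -, h2, h3⟩
      have : N = NN (DE E) := by
        ext g
        rw [← h3 g, Th_iff]
      rw [this] at h2
      exact h2

end Pool.Agent.S14935
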