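import Pool.Statements.S14998

set_option autoImplicit false
open Pool Pool.MP_855a95_lc

namespace Pool.Agent.S14998

/-- The negation of the preceding statement: There is a symmetric colouring of pairs of countable ordinals by natural numbers with no monochromatic triangle such that for every partition of ω₁ into countably many pieces, some piece has every colour appearing on one of its pairs. -/
theorem result :
    ¬ (∃ c : {o : Ordinal.{0} // o < (Cardinal.aleph 1).ord} →
        {o : Ordinal.{0} // o < (Cardinal.aleph 1).ord} → ℕ,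
      (∀ a b, c a b = c b a) ∧
      (∀ a b d, a ≠ b → b ≠ d → a ≠ d → ¬ (c a b = c b d ∧ c a b = c a d)) ∧
      ∀ f : {o : Ordinal.{0} // o < (Cardinal.aleph 1).ord} → ℕ,
        ∃ i : ℕ, ∀ n : ℕ, ∃ a b, a ≠ b ∧ f a = i ∧ f b = i ∧ c a b = n) := by
  rintro ⟨c, hsymm, htri, hpart⟩
  classical
  -- the pieces: `{z}` and, for every colour `i`, the set of all `a ≠ z` with `c z a = i`
  let z : {o : Ordinal.{0} // o < (Cardinal.aleph 1).ord} :=
    ⟨0, by
      rw [Cardinal.lt_ord, Ordinal.card_zero]
      exact Cardinal.aleph_pos 1⟩
  obtain ⟨i, hi⟩ := hpart (fun a => if a = z then 0 else c z a + 1)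
  rcases i with _ | k
  · obtain ⟨a, b, hab, ha, hb, -⟩ := hi 0
    have h1 : a = z := by
      by_contra h
      simp [h] at ha
    have h2 : b = z := by
      by_contra h
      simp [h] at hb
    exact hab (h1.trans h2.symm)
  · obtain ⟨a, b, hab, ha, hb, hk⟩ := hi k
    have h1 : a ≠ z := by
      intro h
      simp [h] at ha
    have h2 : b ≠ z := by
      intro h
      simp [h] at hb
    have h3 : c z a = k := by simpa [h1] using ha
    have h4 : c z b = k := by simpa [h2] using hb
    refine htri z a b h1.symm hab h2.symm ⟨?_, ?_⟩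
    · rw [h3, hk]
    · rw [h3, h4]

end Pool.Agent.S14998
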