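import Pool.Statements.S14999
import Pool.Agent.H587R3.Core

set_option autoImplicit false
open Pool Pool.MP_8565d5_lc

namespace Pool.Agent.S14999

open Finset Pool.Agent.H587R3

/-- The exponents of binary weight at most two, without those of the form `2^i + 2^(i+1)`
(cyclically). -/
def DD (t : ℕ) : Finset ℕ :=
  ({0} ∪ (range t).image (fun i => 2 ^ i)) ∪
    ((range t ×ˢ range t).filter (fun p => p.1 + 2 ≤ p.2 ∧ p.2 + 2 ≤ p.1 + t)).image
      (fun p => 2 ^ p.1 + 2 ^ p.2)

lemma mem_DD {t d : ℕ} : d ∈ DD t ↔ d = 0 ∨ (∃ i < t, d = 2 ^ i) ∨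
    ∃ a b, a + 2 ≤ b ∧ b < t ∧ b + 2 ≤ a + t ∧ d = 2 ^ a + 2 ^ b := by
  unfold DD
  simp only [mem_union, mem_singleton, mem_image, mem_range, mem_filter, mem_product]
  constructor
  · rintro ((h | ⟨i, hi, rfl⟩) | ⟨⟨a, b⟩, ⟨⟨ha, hb⟩, h1, h2⟩, rfl⟩)
    · exact Or.inl h
    · exact Or.inr (Or.inl ⟨i, hi, rfl⟩)
    · exact Or.inr (Or.inr ⟨a, b, h1, hb, h2, rfl⟩)
  · rintro (h | ⟨i, hi, rfl⟩ | ⟨a, b, h1, hb, h2, rfl⟩)
    · exact Or.inl (Or.inl h)
    · exact Or.inl (Or.inr ⟨i, hi, rfl⟩)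
    · exact Or.inr ⟨(a, b), ⟨⟨by simp; omega, hb⟩, h1, h2⟩, rfl⟩

lemma digsum_two_mul (d : ℕ) : (Nat.digits 2 (2 * d)).sum = (Nat.digits 2 d).sum := by
  rcases Nat.eq_zero_or_pos d with h | h
  · subst h; simp
  · rw [Nat.digits_def' (by norm_num) (by omega)]
    simp

lemma digsum_two_mul_add_one (d : ℕ) :
    (Nat.digits 2 (2 * d + 1)).sum = (Nat.digits 2 d).sum + 1 := by
  rw [Nat.digits_def' (by norm_num) (by omega)]
  have h1 : (2 * d + 1) % 2 = 1 := by omega
  have h2 : (2 * d + 1) / 2 = d := by omega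
  rw [h1, h2, List.sum_cons]; ring

lemma digsum_pow (i : ℕ) : (Nat.digits 2 (2 ^ i)).sum = 1 := by
  induction i with
  | zero => simp
  | succ i ih => rw [pow_succ, mul_comm, digsum_two_mul, ih]

lemma digsum_pow_add (a b : ℕ) (h : a < b) : (Nat.digits 2 (2 ^ a + 2 ^ b)).sum = 2 := by
  induction a generalizing b with
  | zero =>
    obtain ⟨c, rfl⟩ : ∃ c, b = c + 1 := ⟨b - 1, by omega⟩
    have : 2 ^ 0 + 2 ^ (c + 1) = 2 * 2 ^ c + 1 := by rw [pow_succ]; ring
    rw [this, digsum_two_mul_add_one, digsum_pow]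
  | succ a ih =>
    obtain ⟨c, rfl⟩ : ∃ c, b = c + 1 := ⟨b - 1, by omega⟩
    have : 2 ^ (a + 1) + 2 ^ (c + 1) = 2 * (2 ^ a + 2 ^ c) := by rw [pow_succ, pow_succ]; ring
    rw [this, digsum_two_mul, ih c (by omega)]

lemma DD_bound {t d : ℕ} (h : d ∈ DD t) :
    d < 2 ^ t ∧ (Nat.digits 2 d).sum ≤ 2 := by
  rw [mem_DD] at h
  rcases h with rfl | ⟨i, hi, rfl⟩ | ⟨a, b, h1, hb, h2, rfl⟩
  · simp
  · exact ⟨Nat.pow_lt_pow_right (by norm_num) hi, by rw [digsum_pow]; norm_num⟩
  · refine ⟨?_, by rw [digsum_pow_add a b (by omega)]⟩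
    have h3 : 2 ^ a < 2 ^ b := Nat.pow_lt_pow_right (by norm_num) (by omega)
    have h4 : 2 ^ (b + 1) ≤ 2 ^ t := Nat.pow_le_pow_right (by norm_num) (by omega)
    rw [pow_succ] at h4
    omega

lemma three_notMem (t : ℕ) : 3 ∉ DD t := by
  rw [mem_DD]
  rintro (h | ⟨i, hi, h⟩ | ⟨a, b, h1, hb, h2, h⟩)
  · omega
  · rcases i with _ | _ | i
    · simp at h
    · simp at h
    · have : 2 ^ (i + 2) = 4 * 2 ^ i := by rw [pow_add]; ring
      have h5 : 1 ≤ 2 ^ i := Nat.one_le_two_pow
      rw [show i + 1 + 1 = i + 2 by ring] at h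
      omega
  · have h5 : 2 ^ 2 ≤ 2 ^ b := Nat.pow_le_pow_right (by norm_num) (by omega)
    have h6 : (2 : ℕ) ^ 2 = 4 := by norm_num
    have h7 : 1 ≤ 2 ^ a := Nat.one_le_two_pow
    omega

lemma DD_double {t d : ℕ} (ht : 5 ≤ t) (h : d ∈ DD t) (hd : d ≠ 0) :
    (2 * d - 1) % (2 ^ t - 1) + 1 ∈ DD t := by
  have hbig : 2 ^ 5 ≤ 2 ^ t := Nat.pow_le_pow_right (by norm_num) ht
  have hred : ∀ m, 1 ≤ m → m ≤ 2 ^ t - 1 → (m - 1) % (2 ^ t - 1) + 1 = m := by
    intro m h1 h2
    rw [Nat.mod_eq_of_lt (by omega)]; omega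
  have hdbl : ∀ i, i + 1 < t → 2 * 2 ^ i = 2 ^ (i + 1) := fun i _ => by rw [pow_succ]; ring
  rw [mem_DD] at h
  rcases h with rfl | ⟨i, hi, rfl⟩ | ⟨a, b, h1, hb, h2, rfl⟩
  · exact absurd rfl hd
  · rcases Nat.lt_or_ge (i + 1) t with h3 | h3
    · rw [hdbl i h3]
      have h4 : 2 ^ (i + 1) ≤ 2 ^ (t - 1) := Nat.pow_le_pow_right (by norm_num) (by omega)
      have h5 : 2 ^ t = 2 * 2 ^ (t - 1) := by rw [← pow_succ']; congr 1; omega
      have h6 : 1 ≤ 2 ^ (i + 1) := Nat.one_le_two_pow
      have h7 : 2 ^ 1 ≤ 2 ^ (t - 1) := Nat.pow_le_pow_right (by norm_num) (by omega)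
      rw [hred _ h6 (by omega), mem_DD]
      exact Or.inr (Or.inl ⟨i + 1, h3, rfl⟩)
    · have h5 : 2 * 2 ^ i = 2 ^ t := by rw [← pow_succ']; congr 1; omega
      rw [h5, Nat.mod_self, mem_DD]
      exact Or.inr (Or.inl ⟨0, by omega, by simp⟩)
  · rcases Nat.lt_or_ge (b + 1) t with h3 | h3
    · have e : 2 * (2 ^ a + 2 ^ b) = 2 ^ (a + 1) + 2 ^ (b + 1) := by
        rw [mul_add, hdbl a (by omega), hdbl b h3]
      rw [e]
      have h4 : 2 ^ (b + 1) ≤ 2 ^ (t - 1) := Nat.pow_le_pow_right (by norm_num) (by omega)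
      have h4' : 2 ^ (a + 1) < 2 ^ (b + 1) := Nat.pow_lt_pow_right (by norm_num) (by omega)
      have h5 : 2 ^ t = 2 * 2 ^ (t - 1) := by rw [← pow_succ']; congr 1; omega
      have h6 : 1 ≤ 2 ^ (a + 1) := Nat.one_le_two_pow
      rw [hred _ (by omega) (by omega), mem_DD]
      exact Or.inr (Or.inr ⟨a + 1, b + 1, by omega, by omega, by omega, rfl⟩)
    · have e : 2 * (2 ^ a + 2 ^ b) = 2 ^ (a + 1) + 2 ^ t := by
        rw [mul_add, hdbl a (by omega)]
        congr 1
        rw [← pow_succ']; congr 1; omega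
      rw [e]
      have h6 : 1 ≤ 2 ^ (a + 1) := Nat.one_le_two_pow
      have h4 : 2 ^ (a + 1) ≤ 2 ^ (t - 1) := Nat.pow_le_pow_right (by norm_num) (by omega)
      have h5 : 2 ^ t = 2 * 2 ^ (t - 1) := by rw [← pow_succ']; congr 1; omega
      have h7 : 2 ^ 4 ≤ 2 ^ (t - 1) := Nat.pow_le_pow_right (by norm_num) (by omega)
      have e2 : 2 ^ (a + 1) + 2 ^ t - 1 = 2 ^ (a + 1) + (2 ^ t - 1) := by omega
      rw [e2, Nat.add_mod_right, Nat.mod_eq_of_lt (by omega), mem_DD]
      exact Or.inr (Or.inr ⟨0, a + 1, by omega, by omega, by omega, by simp; ring⟩)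

lemma DD_shadow {t d : ℕ} (h : d ∈ DD t) (e : ℕ)
    (he : ∀ i : ℕ, e.testBit i = true → d.testBit i = true) : e ∈ DD t := by
  rw [mem_DD] at h
  rcases h with rfl | ⟨i, hi, rfl⟩ | ⟨a, b, h1, hb, h2, rfl⟩
  · have : e = 0 := by
      apply Nat.eq_of_testBit_eq
      intro i
      have := he i
      simp only [Nat.zero_testBit] at this ⊢
      simpa using this
    rw [mem_DD]; exact Or.inl this
  · have hb : ∀ j, e.testBit j = true → j = i := by
      intro j hj
      have := he j hj
      rw [Nat.testBit_two_pow] at this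
      simpa [eq_comm] using this
    rw [mem_DD]
    by_cases h0 : e.testBit i = true
    · right; left
      refine ⟨i, hi, ?_⟩
      apply Nat.eq_of_testBit_eq
      intro j
      rw [Nat.testBit_two_pow]
      by_cases hj : i = j
      · subst hj; simp [h0]
      · have : e.testBit j = false := by
          by_contra hc
          exact hj (hb j (by simpa using hc)).symm
        simp [this, hj]
    · left
      apply Nat.eq_of_testBit_eq
      intro j
      rw [Nat.zero_testBit]
      by_contra hc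
      have h3 := hb j (by simpa using hc)
      subst h3
      exact h0 (by simpa using hc)
  · have htb : ∀ j, (2 ^ a + 2 ^ b).testBit j = (decide (a = j) || decide (b = j)) := by
      intro j
      have e1 : 2 ^ a + 2 ^ b = 2 ^ b ||| 2 ^ a := by
        rw [Nat.add_comm]
        have := Nat.two_pow_add_eq_or_of_lt (i := b) (b := 2 ^ a)
          (Nat.pow_lt_pow_right (by norm_num) (by omega)) 1
        simpa using this
      rw [e1, Nat.testBit_or, Nat.testBit_two_pow, Nat.testBit_two_pow, Bool.or_comm]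
    have hb' : ∀ j, e.testBit j = true → j = a ∨ j = b := by
      intro j hj
      have h3 := he j hj
      rw [htb, Bool.or_eq_true, decide_eq_true_eq, decide_eq_true_eq] at h3
      rcases h3 with h3 | h3
      · exact Or.inl h3.symm
      · exact Or.inr h3.symm
    have hfalse : ∀ j, j ≠ a → j ≠ b → e.testBit j = false := by
      intro j h3 h4
      by_contra hc
      rcases hb' j (by simpa using hc) with h5 | h5
      · exact h3 h5
      · exact h4 h5
    rw [mem_DD]
    by_cases ha0 : e.testBit a = true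
    · by_cases hb0 : e.testBit b = true
      · right; right
        refine ⟨a, b, h1, hb, h2, ?_⟩
        apply Nat.eq_of_testBit_eq
        intro j
        rw [htb]
        by_cases hj : a = j
        · subst hj; simp [ha0]
        · by_cases hj' : b = j
          · subst hj'; simp [hb0]
          · simp [hj, hj', hfalse j (Ne.symm hj) (Ne.symm hj')]
      · right; left
        refine ⟨a, by omega, ?_⟩
        apply Nat.eq_of_testBit_eq
        intro j
        rw [Nat.testBit_two_pow]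
        by_cases hj : a = j
        · subst hj; simp [ha0]
        · by_cases hj' : b = j
          · subst hj'; simp [hb0, hj]
          · simp [hj, hfalse j (Ne.symm hj) (Ne.symm hj')]
    · by_cases hb0 : e.testBit b = true
      · right; left
        refine ⟨b, hb, ?_⟩
        apply Nat.eq_of_testBit_eq
        intro j
        rw [Nat.testBit_two_pow]
        by_cases hj : a = j
        · subst hj
          have : b ≠ a := by omega
          simp [ha0, this]
        · by_cases hj' : b = j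
          · subst hj'; simp [hb0]
          · simp [hj', hfalse j (Ne.symm hj) (Ne.symm hj')]
      · left
        apply Nat.eq_of_testBit_eq
        intro j
        rw [Nat.zero_testBit]
        by_cases hj : a = j
        · subst hj; simpa using ha0
        · by_cases hj' : b = j
          · subst hj'; simpa using hb0
          · exact hfalse j (Ne.symm hj) (Ne.symm hj')

lemma DD_shift {t a b l : ℕ} (h1 : a + 2 ≤ b) (hb : b < t) (h2 : b + 2 ≤ a + t) (hl : l < t) :
    2 ^ ((a + l) % t) + 2 ^ ((b + l) % t) ∈ DD t := by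
  have hmod : ∀ m, t ≤ m → m < 2 * t → m % t = m - t := by
    intro m h3 h4
    rw [Nat.mod_eq_sub_mod h3, Nat.mod_eq_of_lt (by omega)]
  rw [mem_DD]
  right; right
  rcases Nat.lt_or_ge (b + l) t with h3 | h3
  · rw [Nat.mod_eq_of_lt (by omega : a + l < t), Nat.mod_eq_of_lt h3]
    exact ⟨a + l, b + l, by omega, h3, by omega, rfl⟩
  · rw [hmod (b + l) h3 (by omega)]
    rcases Nat.lt_or_ge (a + l) t with h4 | h4
    · rw [Nat.mod_eq_of_lt h4]
      exact ⟨b + l - t, a + l, by omega, h4, by omega, by ring⟩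
    · rw [hmod (a + l) h4 (by omega)]
      exact ⟨a + l - t, b + l - t, by omega, by omega, by omega, rfl⟩

section field

variable {t : ℕ}

/-- The functions with exponents in `D`. -/
def Mem (t : ℕ) (D : Finset ℕ) (f : GaloisField 2 t → ZMod 2) : Prop :=
  ∃ c : ℕ → GaloisField 2 t, ∀ x : GaloisField 2 t,
    algebraMap (ZMod 2) (GaloisField 2 t) (f x) = ∑ d ∈ D, c d * x ^ d

/-- The submodule of functions with exponents in `D`. -/
def PP (t : ℕ) (D : Finset ℕ) : Submodule (ZMod 2) (GaloisField 2 t → ZMod 2) where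
  carrier := {f | Mem t D f}
  add_mem' := by
    rintro f g ⟨c, hc⟩ ⟨c', hc'⟩
    refine ⟨c + c', fun x => ?_⟩
    rw [Pi.add_apply, map_add, hc, hc', ← Finset.sum_add_distrib]
    apply Finset.sum_congr rfl
    intro d _
    rw [Pi.add_apply]; ring
  zero_mem' := ⟨0, fun x => by simp⟩
  smul_mem' := by
    rintro r f ⟨c, hc⟩
    refine ⟨fun d => algebraMap (ZMod 2) (GaloisField 2 t) r * c d, fun x => ?_⟩
    rw [Pi.smul_apply, smul_eq_mul, map_mul, hc, Finset.mul_sum]
    apply Finset.sum_congr rfl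
    intro d _
    ring

/-- The absolute trace. -/
noncomputable def tr (y : GaloisField 2 t) : ZMod 2 := Algebra.trace (ZMod 2) (GaloisField 2 t) y

lemma algebraMap_tr (ht : t ≠ 0) (y : GaloisField 2 t) :
    algebraMap (ZMod 2) (GaloisField 2 t) (tr y) = ∑ l ∈ range t, y ^ 2 ^ l := by
  unfold tr
  rw [FiniteField.algebraMap_trace_eq_sum_pow, GaloisField.finrank 2 ht, Nat.card_zmod]

lemma pow_card (ht : t ≠ 0) (x : GaloisField 2 t) : x ^ 2 ^ t = x := by
  have := Fintype.ofFinite (GaloisField 2 t)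
  have h := FiniteField.pow_card x
  rwa [← Nat.card_eq_fintype_card, GaloisField.card 2 t ht] at h

lemma pow_mod (ht : t ≠ 0) (x : GaloisField 2 t) (m : ℕ) : x ^ 2 ^ m = x ^ 2 ^ (m % t) := by
  conv_lhs => rw [← Nat.div_add_mod m t]
  rw [pow_add, pow_mul]
  congr 1
  generalize m / t = q
  induction q with
  | zero => simp
  | succ q ih => rw [Nat.mul_succ, pow_add, pow_mul, ih, pow_card ht]

/-- A sum of monomials with exponents in `D` is a function with exponents in `D`. -/
lemma mem_of_sum {D : Finset ℕ} (f : GaloisField 2 t → ZMod 2) {n : ℕ}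
    (u : ℕ → GaloisField 2 t) (e : ℕ → ℕ) (he : ∀ l < n, e l ∈ D)
    (hf : ∀ x, algebraMap (ZMod 2) (GaloisField 2 t) (f x) = ∑ l ∈ range n, u l * x ^ e l) :
    f ∈ PP t D := by
  classical
  refine ⟨fun d => ∑ l ∈ (range n).filter (fun l => e l = d), u l, fun x => ?_⟩
  rw [hf, ← Finset.sum_fiberwise_of_maps_to (t := D) (g := e)
    (fun l hl => he l (Finset.mem_range.1 hl))]
  apply Finset.sum_congr rfl
  intro d _
  rw [Finset.sum_mul]
  apply Finset.sum_congr rfl
  intro l hl
  rw [(Finset.mem_filter.1 hl).2]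

lemma tr_mem (ht : t ≠ 0) {a b : ℕ} (h1 : a + 2 ≤ b) (hb : b < t) (h2 : b + 2 ≤ a + t)
    (u : GaloisField 2 t) :
    (fun x : GaloisField 2 t => tr (u * x ^ (2 ^ a + 2 ^ b))) ∈ PP t (DD t) := by
  apply mem_of_sum (n := t) _ (fun l => u ^ 2 ^ l)
    (fun l => 2 ^ ((a + l) % t) + 2 ^ ((b + l) % t)) (fun l hl => DD_shift h1 hb h2 hl)
  intro x
  rw [algebraMap_tr ht]
  apply Finset.sum_congr rfl
  intro l _
  have e1 : (x ^ (2 ^ a + 2 ^ b)) ^ 2 ^ l = x ^ 2 ^ (a + l) * x ^ 2 ^ (b + l) := by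
    rw [← pow_mul, ← pow_add, pow_add 2 a l, pow_add 2 b l, add_mul]
  rw [mul_pow, e1, pow_mod ht x (a + l), pow_mod ht x (b + l), ← pow_add]

lemma tr_cube_notMem (ht : 5 ≤ t) :
    (fun x : GaloisField 2 t => tr (x ^ 3)) ∉ PP t (DD t) := by
  rintro ⟨c, hc⟩
  have ht0 : t ≠ 0 := by omega
  have := Fintype.ofFinite (GaloisField 2 t)
  have hcard : Fintype.card (GaloisField 2 t) = 2 ^ t := by
    rw [← Nat.card_eq_fintype_card, GaloisField.card 2 t ht0]
  obtain ⟨s, rfl⟩ : ∃ s, t = s + 1 := ⟨t - 1, by omega⟩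
  set q : Polynomial (GaloisField 2 (s + 1)) :=
    (∑ l ∈ range s, Polynomial.X ^ (3 * 2 ^ l)) + Polynomial.X ^ (1 + 2 ^ s) -
      ∑ d ∈ DD (s + 1), Polynomial.C (c d) * Polynomial.X ^ d with hq
  have heval : ∀ x : GaloisField 2 (s + 1), q.eval x = 0 := by
    intro x
    have h1 := hc x
    simp only at h1
    rw [algebraMap_tr ht0, Finset.sum_range_succ] at h1
    have h2 : (x ^ 3) ^ 2 ^ s = x ^ (1 + 2 ^ s) := by
      rw [← pow_mul]
      have : 3 * 2 ^ s = 2 ^ (s + 1) + 2 ^ s := by rw [pow_succ]; ring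
      rw [this, pow_add, pow_card ht0]
      ring
    rw [h2] at h1
    rw [hq, Polynomial.eval_sub, Polynomial.eval_add, Polynomial.eval_finsetSum,
      Polynomial.eval_finsetSum]
    simp only [Polynomial.eval_pow, Polynomial.eval_X, Polynomial.eval_mul, Polynomial.eval_C]
    rw [← h1]
    simp only [← pow_mul]
    ring
  have h2s : 2 ^ (s + 1) = 2 * 2 ^ s := by rw [pow_succ]; ring
  have hs1 : 2 ^ 4 ≤ 2 ^ s := Nat.pow_le_pow_right (by norm_num) (by omega)
  have hdeg : q.natDegree < Fintype.card (GaloisField 2 (s + 1)) := by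
    rw [hcard]
    apply lt_of_le_of_lt (b := 2 ^ (s + 1) - 1) _ (by omega)
    rw [hq]
    apply (Polynomial.natDegree_sub_le _ _).trans
    apply max_le
    · apply (Polynomial.natDegree_add_le _ _).trans
      apply max_le
      · apply Polynomial.natDegree_sum_le_of_forall_le
        intro l hl
        apply (Polynomial.natDegree_X_pow_le _).trans
        have h3 : 2 ^ (l + 1) ≤ 2 ^ s :=
          Nat.pow_le_pow_right (by norm_num) (Finset.mem_range.1 hl)
        rw [pow_succ] at h3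
        omega
      · apply (Polynomial.natDegree_X_pow_le _).trans
        omega
    · apply Polynomial.natDegree_sum_le_of_forall_le
      intro d hd
      apply (Polynomial.natDegree_C_mul_X_pow_le _ _).trans
      have := (DD_bound hd).1
      omega
  have hq0 : q = 0 := by
    apply Polynomial.eq_zero_of_natDegree_lt_card_of_eval_eq_zero q (f := id)
      Function.injective_id heval hdeg
  have hcoef : q.coeff 3 = 1 := by
    rw [hq, Polynomial.coeff_sub, Polynomial.coeff_add, Polynomial.finsetSum_coeff,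
      Polynomial.finsetSum_coeff]
    have e1 : ∑ b ∈ range s, (Polynomial.X ^ (3 * 2 ^ b) :
        Polynomial (GaloisField 2 (s + 1))).coeff 3 = 1 := by
      rw [Finset.sum_eq_single 0]
      · simp
      · intro b _ hb
        rw [Polynomial.coeff_X_pow, if_neg]
        have h3 : 2 ^ 1 ≤ 2 ^ b := Nat.pow_le_pow_right (by norm_num) (by omega)
        omega
      · intro h0
        exact absurd (Finset.mem_range.2 (by omega)) h0
    have e2 : (Polynomial.X ^ (1 + 2 ^ s) : Polynomial (GaloisField 2 (s + 1))).coeff 3 = 0 := by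
      rw [Polynomial.coeff_X_pow, if_neg]
      omega
    have e3 : ∑ b ∈ DD (s + 1), (Polynomial.C (c b) * Polynomial.X ^ b :
        Polynomial (GaloisField 2 (s + 1))).coeff 3 = 0 := by
      apply Finset.sum_eq_zero
      intro d hd
      rw [Polynomial.coeff_C_mul_X_pow, if_neg]
      rintro rfl
      exact three_notMem _ hd
    rw [e1, e2, e3]; ring
  rw [hq0] at hcoef
  simp at hcoef

/-- The nondegeneracy of the trace. -/
lemma eq_zero_of_tr {y : GaloisField 2 t} (h : ∀ u : GaloisField 2 t, tr (u * y) = 0) : y = 0 := by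
  have h1 := (traceForm_nondegenerate (ZMod 2) (GaloisField 2 t)).1 y
  apply h1
  intro u
  rw [Algebra.traceForm_apply, mul_comm]
  exact h u

/-- Every `k`-point restriction of `tr (x ^ 3)` agrees with a member of the property. -/
lemma agree (ht : 5 ≤ t) {k : ℕ} (hk : k + 2 < t) (α : Fin k → GaloisField 2 t) :
    ∃ f ∈ PP t (DD t), ∀ i, f (α i) = tr (α i ^ 3) := by
  have ht0 : t ≠ 0 := by omega
  let res : (GaloisField 2 t → ZMod 2) →ₗ[ZMod 2] (Fin k → ZMod 2) :=
    { toFun := fun f i => f (α i)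
      map_add' := fun f g => rfl
      map_smul' := fun r f => rfl }
  by_contra hcon
  push Not at hcon
  have hv : (fun i => tr (α i ^ 3)) ∉ (PP t (DD t)).map res := by
    rintro ⟨f, hf, hfe⟩
    obtain ⟨i, hi⟩ := hcon f hf
    exact hi (congrFun hfe i)
  obtain ⟨w, hw, hw3⟩ := exists_functional _ _ hv
  set W : Fin k → GaloisField 2 t := fun i => algebraMap (ZMod 2) (GaloisField 2 t) (w i) with hW
  have htrsum : ∀ (u : GaloisField 2 t) (e : ℕ),
      tr (u * ∑ l, W l * α l ^ e) = ∑ l, w l * tr (u * α l ^ e) := by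
    intro u e
    unfold tr
    rw [Finset.mul_sum, map_sum]
    apply Finset.sum_congr rfl
    intro l _
    have : u * (W l * α l ^ e) = w l • (u * α l ^ e) := by
      rw [hW, Algebra.smul_def]; ring
    rw [this, map_smul, smul_eq_mul]
  have hzero : ∀ a b, a + 2 ≤ b → b < t → b + 2 ≤ a + t →
      ∑ l, W l * α l ^ (2 ^ a + 2 ^ b) = 0 := by
    intro a b h1 hb h2
    apply eq_zero_of_tr
    intro u
    rw [htrsum]
    exact hw _ ⟨_, tr_mem ht0 h1 hb h2 u, rfl⟩
  have h3 : ∑ l, W l * α l ^ 3 ≠ 0 := by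
    intro h0
    apply hw3
    have := htrsum 1 3
    rw [h0] at this
    simp only [one_mul, mul_zero] at this
    rw [← this]
    unfold tr
    simp
  have hfrob : ∀ i : ℕ, ∑ l, W l * α l ^ (2 ^ i + 2 ^ (i + 1)) = (∑ l, W l * α l ^ 3) ^ 2 ^ i := by
    intro i
    have := Fact.mk Nat.prime_two
    rw [sum_pow_char_pow]
    apply Finset.sum_congr rfl
    intro l _
    rw [mul_pow, ← pow_mul]
    congr 1
    · rw [hW]
      simp only
      rw [← map_pow, ZMod.pow_card_pow]
    · congr 1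
      rw [pow_succ]; ring
  have := card_of_moments (K := GaloisField 2 t) (n := t - 2) W α (fun i => i) (fun j => j + 1)
    (by
      intro i j hij
      apply hzero
      · have : (i : ℕ) < j := hij
        omega
      · have := j.2; omega
      · have := j.2; omega)
    (by
      intro i
      rw [hfrob]
      exact pow_ne_zero _ h3)
  rw [Fintype.card_fin] at this
  omega

end field

/-- For every k there is a prime t and a proper subset D of the weight-at-most-2 exponents below 2^t, closed under doubling mod 2^t−1 and under binary shadows, such that the F_2-valued functions on F_{2^t} spanned by x^d, d in D, admit no characterization by k-point constraints. -/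
theorem result :
    ∀ k : ℕ, ∃ t : ℕ, t.Prime ∧ ∃ D : Finset ℕ,
      (∀ d ∈ D, d < 2 ^ t ∧ (Nat.digits 2 d).sum ≤ 2) ∧
      (∃ d : ℕ, d < 2 ^ t ∧ (Nat.digits 2 d).sum ≤ 2 ∧ d ∉ D) ∧
      (∀ d ∈ D, d ≠ 0 → (2 * d - 1) % (2 ^ t - 1) + 1 ∈ D) ∧
      (∀ d ∈ D, ∀ e : ℕ, (∀ i : ℕ, e.testBit i = true → d.testBit i = true) → e ∈ D) ∧
      ¬ ∃ C : Set ((Fin k → GaloisField 2 t) × Set (Fin k → ZMod 2)),
          ∀ f : GaloisField 2 t → ZMod 2,
            ((∃ c : ℕ → GaloisField 2 t, ∀ x : GaloisField 2 t,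
                algebraMap (ZMod 2) (GaloisField 2 t) (f x) = ∑ d ∈ D, c d * x ^ d) ↔
              ∀ p ∈ C, (fun i => f (p.1 i)) ∈ p.2) := by
  intro k
  obtain ⟨t, htk, htp⟩ := Nat.exists_infinite_primes (k + 5)
  refine ⟨t, htp, DD t, fun d hd => DD_bound hd, ⟨3, ?_, ?_, three_notMem t⟩,
    fun d hd h0 => DD_double (by omega) hd h0, fun d hd e he => DD_shadow hd e he, ?_⟩
  · calc 3 < 2 ^ 2 := by norm_num
      _ ≤ 2 ^ t := Nat.pow_le_pow_right (by norm_num) (by omega)
  · simp
  · rintro ⟨C, hC⟩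
    apply tr_cube_notMem (t := t) (by omega)
    apply (hC _).2
    intro p hp
    obtain ⟨f, hf, hfe⟩ := agree (t := t) (by omega) (k := k) (by omega) p.1
    have h1 := (hC f).1 hf p hp
    have h2 : (fun i => f (p.1 i)) = fun i => tr (p.1 i ^ 3) := funext hfe
    rw [h2] at h1
    exact h1

end Pool.Agent.S14999
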