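import Pool.Statements.S15001
import Pool.Agent.H538R3.TypeDigraph

set_option autoImplicit false
open Pool Pool.MP_856e04_lc

namespace Pool.Agent.S15001

open Pool.Agent.H538R3.TypeDigraph

theorem pigeon {J C : Type} [LinearOrder J] [WellFoundedLT J] (lam : Cardinal.{0})
    (hreg : lam.IsRegular) (hJ : Cardinal.mk J = lam)
    (hseg : ∀ b : J, Cardinal.mk (Set.Iic b) < lam) (hC : Cardinal.mk C < lam) (g : J → C) :
    ∃ c0, ∀ b : J, ∃ z, b < z ∧ g z = c0 := by
  obtain ⟨a, ha⟩ := Cardinal.infinite_pigeonhole_card g lam (le_of_eq hJ.symm) hreg.aleph0_le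
    (by rw [hreg.cof_ord]; exact hC)
  refine ⟨a, fun b => ?_⟩
  by_contra hcon
  push Not at hcon
  have hsub : g ⁻¹' {a} ⊆ Set.Iic b := by
    intro z hz
    by_contra hzb
    exact hcon z (not_le.mp hzb) hz
  exact absurd (lt_of_le_of_lt (Cardinal.mk_le_mk_of_subset hsub) (hseg b)) (not_lt.mpr ha)

/-- For every infinite cardinal κ and every n, there is a loopless digraph on κ vertices with no directed cycle of length below n, such that every colouring with fewer than κ colours has a monochromatic directed cycle. -/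
theorem result : ∀ κ : Cardinal.{0}, Cardinal.aleph0 ≤ κ → ∀ n : ℕ,
    ∃ (V : Type) (D : Digraph V),
      Cardinal.mk V = κ ∧
      (∀ v : V, ¬ D.Adj v v) ∧
      (∀ k : ℕ, k + 1 < n → ∀ f : Fin (k + 1) → V, Function.Injective f →
        ¬ ∀ i : Fin (k + 1), D.Adj (f i) (f (i + 1))) ∧
      (∀ (C : Type) (c : V → C), Cardinal.mk C < κ →
        ∃ k : ℕ, ∃ f : Fin (k + 1) → V, Function.Injective f ∧
          (∀ i : Fin (k + 1), D.Adj (f i) (f (i + 1))) ∧
          ∀ i j : Fin (k + 1), c (f i) = c (f j)) := by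
  intro κ hκ n
  refine ⟨Fin (n + 1) → κ.ord.ToType, ⟨fun x y => Adj x y⟩, ?_, ?_, ?_, ?_⟩
  · rw [← Cardinal.power_def, Cardinal.mk_fin, Cardinal.mk_ord_toType]
    exact Cardinal.power_nat_eq hκ (by omega)
  · rintro x ⟨-, -, -, h⟩
    rcases h with h | h
    · exact lt_irrefl _ (h 0)
    · exact lt_irrefl _ (h 0 0)
  · intro k hk f _ hadj
    exact no_short_cycle (n + 1) k (by omega) f hadj
  · intro C c hC
    -- a regular cardinal between
    obtain ⟨lam, hreg, hClam, hlamκ⟩ : ∃ lam : Cardinal.{0}, lam.IsRegular ∧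
        Cardinal.mk C < lam ∧ lam ≤ κ := by
      rcases lt_or_ge (Cardinal.mk C) Cardinal.aleph0 with h | h
      · exact ⟨Cardinal.aleph0, Cardinal.isRegular_aleph0, h, hκ⟩
      · exact ⟨Order.succ (Cardinal.mk C), Cardinal.isRegular_succ h, Order.lt_succ _,
          Order.succ_le_of_lt hC⟩
    have hle : lam.ord ≤ κ.ord := Cardinal.ord_le_ord.mpr hlamκ
    let e : lam.ord.ToType ≤i κ.ord.ToType := Ordinal.initialSegToType hle
    have hne : lam.ord ≠ 0 := by
      intro h
      have : lam = 0 := by rw [← Cardinal.card_ord lam, h, Ordinal.card_zero]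
      exact absurd (this ▸ hreg.aleph0_le) (not_le.mpr Cardinal.aleph0_pos)
    have : Nonempty lam.ord.ToType := by
      rw [Ordinal.nonempty_toType_iff]; exact hne
    obtain ⟨d⟩ := (inferInstance : Nonempty lam.ord.ToType)
    have hseg : ∀ b : lam.ord.ToType, Cardinal.mk (Set.Iic b) < lam := by
      intro b
      have h1 : Cardinal.mk (Set.Iio b) < lam := Cardinal.mk_Iio_toType_ord_lt b
      have h2 : Set.Iic b = Set.Iio b ∪ {b} := by
        ext z; simp [le_iff_lt_or_eq]
      rw [h2]
      refine lt_of_le_of_lt (Cardinal.mk_union_le _ _) ?_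
      refine Cardinal.add_lt_of_lt hreg.aleph0_le h1 ?_
      rw [Cardinal.mk_singleton]
      exact lt_of_lt_of_le Cardinal.one_lt_aleph0 hreg.aleph0_le
    have hp : ∀ g : lam.ord.ToType → C, ∃ c0, ∀ b, ∃ z, b < z ∧ g z = c0 := fun g =>
      pigeon lam hreg (Cardinal.mk_ord_toType lam) hseg hClam g
    have hnm : ∀ b : lam.ord.ToType, ∃ z, b < z := by
      intro b
      by_contra hcon
      push Not at hcon
      have h1 : Set.Iic b = Set.univ := by ext z; simp [hcon z]
      have h2 := hseg b
      rw [h1, Cardinal.mk_univ, Cardinal.mk_ord_toType] at h2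
      exact lt_irrefl _ h2
    obtain ⟨f, hinj, hadj, hcol⟩ := exists_mono_cycle (C := C) (n + 1) (by omega) d hnm hp
      (fun x => c (fun i => e (x i)))
    have hlt : ∀ a b : lam.ord.ToType, a < b → e a < e b := fun a b h => e.strictMono h
    refine ⟨n + 1, fun t i => e (f t i), ?_, ?_, ?_⟩
    · intro t t' h
      apply hinj
      funext i
      exact e.injective (congrFun h i)
    · intro t
      obtain ⟨h1, h2, h3, h4⟩ := hadj t
      refine ⟨fun i j hij => hlt _ _ (h1 hij), fun i j hij => hlt _ _ (h2 hij),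
        fun i j hij => hlt _ _ (h3 i j hij), ?_⟩
      rcases h4 with h4 | h4
      · exact Or.inl fun j => hlt _ _ (h4 j)
      · exact Or.inr fun i j => hlt _ _ (h4 i j)
    · intro t t'
      exact hcol t t'

end Pool.Agent.S15001
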