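import Pool.Statements.S15033
import Pool.Agent.H119R3.Transducer

set_option autoImplicit false
open Pool Pool.MP_8b69ee_lc

namespace Pool.Agent.S15033

/-- For every non-regular language L over a finite alphabet that is the commutative closure of a regular set, the commutative closure of {a^m b^n : m ≠ n} equals h(g⁻¹(L) ∩ R) for some morphisms g, h and regular R, i.e. lies in the rational cone of L. -/
theorem result :
    ∀ (A : Type) [Finite A] (L : Language A),
      (∃ (σ : Type) (_ : Finite σ) (M : DFA A σ),
          ∀ w : List A, w ∈ L ↔ ∃ v : List A, v ∈ M.accepts ∧ w.Perm v) →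
      (¬ ∃ (σ : Type) (_ : Finite σ) (M : DFA A σ),
          ∀ w : List A, w ∈ L ↔ w ∈ M.accepts) →
      ∃ (C : Type) (_ : Finite C) (g : C → List A) (h : C → List (Fin 2))
        (τ : Type) (_ : Finite τ) (M : DFA C τ),
        ∀ x : List (Fin 2),
          (∃ m n : ℕ, m ≠ n ∧ x.Perm (List.replicate m (0 : Fin 2) ++ List.replicate n (1 : Fin 2))) ↔
            ∃ w : List C, w ∈ M.accepts ∧ w.flatMap g ∈ L ∧ w.flatMap h = x := by
  intro A _ L hL hnr
  classical
  obtain ⟨σ, _, M, hM⟩ := hL
  have hS := Pool.Agent.H119R3.parikh_dfa M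
  set S : Set (A → ℕ) := {x : A → ℕ | ∃ w ∈ M.accepts, x = Pool.Agent.H119R3.pk w} with hSdef
  have hLS : ∀ w : List A, w ∈ L ↔ Pool.Agent.H119R3.pk w ∈ S := by
    intro w
    rw [hM]
    constructor
    · rintro ⟨v, hv, hwv⟩
      exact ⟨v, hv, Pool.Agent.H119R3.pk_perm.1 hwv⟩
    · rintro ⟨v, hv, hwv⟩
      exact ⟨v, hv, Pool.Agent.H119R3.pk_perm.2 hwv⟩
  obtain ⟨D, hD, hev⟩ := Pool.Agent.H119R3.semilinear_evConst S hS
  by_cases hper : ∀ i : A, ∃ N, ∀ x : A → ℕ, N ≤ x i → (x ∈ S ↔ x + Pi.single i D ∈ S)
  · exact absurd (Pool.Agent.H119R3.regular_of_periodic L S hLS D hD hper) hnr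
  push Not at hper
  obtain ⟨i, hi⟩ := hper
  rcases Pool.Agent.H119R3.frontier S hS D i (hev i) with ⟨N, hN⟩ | ⟨z, v, c, hc, hcase⟩
  · obtain ⟨x, hx, hx'⟩ := hi N
    have := hN x hx
    tauto
  set d : A → ℕ := Pi.single i D with hd
  rcases hcase with hcase | hcase
  · -- everything above the line is out, the line is in
    apply Pool.Agent.H119R3.transducer L S hLS (z + d) (c • d) v d
    have key : ∀ a b : ℕ, (∃ r : ℕ, z + d + a • (c • d) + b • v + r • d ∈ S) ↔ a < b := by
      intro a b
      constructor
      · rintro ⟨r, hr⟩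
        by_contra hab
        push Not at hab
        obtain ⟨k, rfl⟩ := Nat.exists_eq_add_of_le hab
        have e : z + d + (b + k) • (c • d) + b • v + r • d =
            z + b • (v + c • d) + (k * c + r + 1) • d := by
          simp only [add_smul, smul_add, smul_smul, one_smul, add_mul]
          abel
        rw [e, hcase] at hr
        omega
      · intro hab
        obtain ⟨k, rfl⟩ := Nat.exists_eq_add_of_lt hab
        have hkc : 1 ≤ (k + 1) * c := Nat.mul_pos (Nat.succ_pos _) hc
        obtain ⟨q, hq⟩ := Nat.exists_eq_add_of_le hkc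
        refine ⟨q, ?_⟩
        have e : z + d + a • (c • d) + (a + k + 1) • v + q • d =
            z + (a + k + 1) • (v + c • d) + 0 • d := by
          have e1 : z + (a + k + 1) • (v + c • d) + 0 • d =
              z + (a + k + 1) • v + a • (c • d) + ((k + 1) * c) • d := by
            simp only [add_smul, smul_add, smul_smul, one_smul, zero_smul, add_mul, one_mul]
            abel
          rw [e1, hq]
          simp only [add_smul, one_smul]
          abel
        rw [e, hcase]
    intro a b
    rw [key, key]
    omega
  · -- everything above the line is in, the line is out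
    apply Pool.Agent.H119R3.transducer L S hLS z (c • d) v 0
    have key1 : ∀ a b : ℕ, b < a → z + a • (c • d) + b • v ∈ S := by
      intro a b hab
      obtain ⟨k, rfl⟩ := Nat.exists_eq_add_of_lt hab
      have e : z + (b + k + 1) • (c • d) + b • v =
          z + b • (v + c • d) + ((k + 1) * c) • d := by
        simp only [add_smul, smul_add, smul_smul, add_mul, one_mul]
        abel
      rw [e]
      by_contra hcon
      rw [hcase] at hcon
      have : 0 < (k + 1) * c := Nat.mul_pos (Nat.succ_pos _) hc
      omega
    have key2 : ∀ a : ℕ, z + a • (c • d) + a • v ∉ S := by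
      intro a
      have e : z + a • (c • d) + a • v = z + a • (v + c • d) + 0 • d := by
        simp only [smul_add, zero_smul]
        abel
      rw [e, hcase]
    intro a b
    simp only [smul_zero, add_zero, exists_const]
    constructor
    · intro hab
      rcases Nat.lt_or_gt_of_ne hab with h | h
      · exact Or.inr (key1 b a h)
      · exact Or.inl (key1 a b h)
    · rintro (h | h) rfl
      · exact key2 a h
      · exact key2 a h

end Pool.Agent.S15033
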