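import Pool.Statements.S15079
import Pool.Agent.Results.MP_04d4af_lc.NoBox

set_option autoImplicit false
open Pool Pool.MP_95c9ea_lc

namespace Pool.Agent.S15079

/-- For every singular cardinal κ there is a 2-coloring of triples of ordinals below κ⁺ such that no three subsets of κ⁺, each of order type κ, span a product on which the coloring is constant. -/
theorem result :
    ∀ κ : Cardinal.{0}, Cardinal.aleph0 ≤ κ → ¬ κ.IsRegular →
      ∃ c : Ordinal.{0} → Ordinal.{0} → Ordinal.{0} → Fin 2,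
        ∀ H I J : Set Ordinal.{0},
          H ⊆ Set.Iio (Order.succ κ).ord →
          I ⊆ Set.Iio (Order.succ κ).ord →
          J ⊆ Set.Iio (Order.succ κ).ord →
          Nonempty (↥H ≃o ↥(Set.Iio κ.ord)) →
          Nonempty (↥I ≃o ↥(Set.Iio κ.ord)) →
          Nonempty (↥J ≃o ↥(Set.Iio κ.ord)) →
          ¬ ∃ i : Fin 2, ∀ a ∈ H, ∀ b ∈ I, ∀ d ∈ J, c a b d = i := by
  classical
  intro κ hκ _
  obtain ⟨c, hc⟩ := Pool.Agent.Results.MP_04d4af_lc.NoBox.result κ hκ
    (Order.succ κ).ord.ToType (Order.succ κ).ord.ToType (Order.succ κ).ord.ToType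
    (Cardinal.mk_ord_toType _) (Cardinal.mk_ord_toType _) (Cardinal.mk_ord_toType _)
  have hpos : 0 < (Order.succ κ).ord := by
    rw [Cardinal.ord_pos] 
    exact lt_of_lt_of_le (Cardinal.aleph0_pos.trans_le hκ) (Order.le_succ κ)
  let g : Ordinal.{0} → (Order.succ κ).ord.ToType := fun o =>
    if h : o < (Order.succ κ).ord then Ordinal.ToType.mk ⟨o, h⟩ else Ordinal.ToType.mk ⟨0, hpos⟩
  have hg : Set.InjOn g (Set.Iio (Order.succ κ).ord) := by
    intro a ha b hb hab
    have ha' : a < (Order.succ κ).ord := ha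
    have hb' : b < (Order.succ κ).ord := hb
    simp only [g, dif_pos ha', dif_pos hb'] at hab
    have := Ordinal.ToType.mk.injective hab
    exact congrArg Subtype.val this
  have hcard : ∀ H : Set Ordinal.{0}, H ⊆ Set.Iio (Order.succ κ).ord →
      Nonempty (↥H ≃o ↥(Set.Iio κ.ord)) → Cardinal.mk ↥(g '' H) = κ := by
    intro H hH ⟨e⟩
    have h1 := Cardinal.mk_image_eq_of_injOn_lift g H (hg.mono hH)
    have h2 : Cardinal.mk ↥H = Cardinal.lift.{1} κ := by
      have e2 : ↥H ≃ κ.ord.ToType := e.toEquiv.trans (Ordinal.ToType.mk (o := κ.ord)).toEquiv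
      have := Cardinal.mk_congr_lift e2
      rw [Cardinal.mk_ord_toType] at this
      simpa using this
    rw [h2] at h1
    have h3 : Cardinal.lift.{1} (Cardinal.mk ↥(g '' H)) = Cardinal.lift.{1} κ := by
      simpa using h1
    exact Cardinal.lift_injective h3
  refine ⟨fun a b d => c (g a, g b, g d), ?_⟩
  rintro H I J hH hI hJ eH eI eJ ⟨i, hi⟩
  apply hc i (g '' H) (g '' I) (g '' J) (hcard H hH eH) (hcard I hI eI) (hcard J hJ eJ)
  rintro _ ⟨a, ha, rfl⟩ _ ⟨b, hb, rfl⟩ _ ⟨d, hd, rfl⟩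
  exact hi a ha b hb d hd

end Pool.Agent.S15079
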