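import Pool.Statements.S15144
import Pool.Agent.Helper743.FC

set_option autoImplicit false
open Pool Pool.MP_a2ec29_lc

namespace Pool.Agent.S15144

open Pool.Agent.Helper743 Nat.Partrec

/-- the sets given by a finite set of toggles are the finite and cofinite ones -/
lemma toggle_FC (S : Finset ℕ) (b : Bool) :
    FC {x : ℕ | Xor' (b = true) (Odd (S.filter (fun s => s ≤ x)).card)} := by
  obtain ⟨M, hM⟩ : ∃ M, ∀ s ∈ S, s ≤ M := ⟨S.sup id, fun s hs => Finset.le_sup (f := id) hs⟩
  have h : ∀ x, M ≤ x → S.filter (fun s => s ≤ x) = S := by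
    intro x hx
    rw [Finset.filter_eq_self]
    intro s hs
    exact (hM s hs).trans hx
  by_cases hb : Xor' (b = true) (Odd S.card)
  · right
    apply (Set.finite_Iio M).subset
    intro x hx
    by_contra hlt
    simp only [Set.mem_Iio, not_lt] at hlt
    apply hx
    show Xor' (b = true) (Odd (S.filter (fun s => s ≤ x)).card)
    rw [h x hlt]
    exact hb
  · left
    apply (Set.finite_Iio M).subset
    intro x hx
    by_contra hlt
    simp only [Set.mem_Iio, not_lt] at hlt
    apply hb
    have hx' : Xor' (b = true) (Odd (S.filter (fun s => s ≤ x)).card) := hx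
    rw [h x hlt] at hx'
    exact hx'

lemma FC_toggle {X : Set ℕ} (hX : FC X) : ∃ S : Finset ℕ, ∃ b : Bool,
    X = {x : ℕ | Xor' (b = true) (Odd (S.filter (fun s => s ≤ x)).card)} := by
  obtain ⟨k, hk⟩ := exists_FC good_le hX
  refine ⟨(Finset.range k).filter (fun s => k.testBit s = true), false, ?_⟩
  rw [← hk]
  ext x
  show PP (fun a b : ℕ => a ≤ b) k x = true ↔ _
  unfold PP cnt
  rw [decide_eq_true_iff]
  show _ ↔ Xor' (false = true) (Odd _)
  have e : ((Finset.range k).filter (fun s => k.testBit s = true ∧ s ≤ x)) =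
      (((Finset.range k).filter (fun s => k.testBit s = true)).filter (fun s => s ≤ x)) := by
    rw [Finset.filter_filter]
  rw [e]
  simp [Xor', Nat.odd_iff]

/-- a list of toggles gives a cofinite set iff a parity is odd -/
lemma list_toggle (l' : ℕ → ℕ) (L : List ℕ) (b : Bool) :
    {x : ℕ | Xor' (b = true) (Odd (L.filter (fun s => decide (l' s ≤ x))).length)}.Infinite ↔
      Xor' (b = true) (Odd L.length) := by
  obtain ⟨M, hM⟩ : ∃ M, ∀ s ∈ L, l' s ≤ M := by
    induction L with
    | nil => exact ⟨0, by simp⟩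
    | cons a L ih =>
      obtain ⟨M, hM⟩ := ih
      refine ⟨max M (l' a), ?_⟩
      intro s hs
      rcases List.mem_cons.1 hs with h | h
      · subst h; exact le_max_right _ _
      · exact (hM s h).trans (le_max_left _ _)
  have h : ∀ x, M ≤ x → L.filter (fun s => decide (l' s ≤ x)) = L := by
    intro x hx
    rw [List.filter_eq_self]
    intro s hs
    exact decide_eq_true ((hM s hs).trans hx)
  by_cases hb : Xor' (b = true) (Odd L.length)
  · simp only [hb, iff_true]
    apply (Set.Ici_infinite M).mono
    intro x hx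
    show Xor' (b = true) (Odd (L.filter (fun s => decide (l' s ≤ x))).length)
    rw [h x hx]
    exact hb
  · simp only [hb, iff_false, Set.not_infinite]
    apply (Set.finite_Iio M).subset
    intro x hx
    by_contra hlt
    simp only [Set.mem_Iio, not_lt] at hlt
    apply hb
    have hx' : Xor' (b = true) (Odd (L.filter (fun s => decide (l' s ≤ x))).length) := hx
    rw [h x hlt] at hx'
    exact hx'

/-- an embedding of the algebra onto the finite and cofinite sets preserves finiteness -/
lemma fin_pres (ψ : FCA → Set ℕ) (hinj : Function.Injective ψ)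
    (hsup : ∀ a b, ψ (a ⊔ b) = ψ a ∪ ψ b) (hrange : ∀ X, FC X → X ∈ Set.range ψ) (Y : FCA)
    (hY : (Y : Set ℕ).Finite) : (ψ Y).Finite := by
  by_contra hinf
  have hinf : (ψ Y).Infinite := hinf
  have hs : ∀ w : ℕ, ∃ Z : FCA, ψ Z = {w} := fun w => hrange {w} (Or.inl (Set.finite_singleton w))
  choose Z hZ using hs
  have hle : ∀ w ∈ ψ Y, (Z w : Set ℕ) ⊆ Y := by
    intro w hw
    have h1 : ψ (Z w ⊔ Y) = ψ Y := by
      rw [hsup, hZ]
      exact Set.union_eq_self_of_subset_left (Set.singleton_subset_iff.2 hw)
    have h2 := hinj h1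
    have h3 : ((Z w ⊔ Y : FCA) : Set ℕ) = (Y : Set ℕ) := by rw [h2]
    have h4 : ((Z w ⊔ Y : FCA) : Set ℕ) = (Z w : Set ℕ) ∪ (Y : Set ℕ) := rfl
    rw [h4] at h3
    exact Set.union_eq_right.1 h3
  have hfin : {A : Set ℕ | A ⊆ (Y : Set ℕ)}.Finite := hY.finite_subsets
  have hinj2 : Set.InjOn (fun w => (Z w : Set ℕ)) (ψ Y) := by
    intro a _ b _ hab
    have h1 : Z a = Z b := Subtype.ext hab
    have h2 : ({a} : Set ℕ) = {b} := by rw [← hZ a, ← hZ b, h1]
    exact Set.singleton_injective h2
  exact hinf (Set.Finite.of_finite_image (hfin.subset (by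
    rintro A ⟨w, hw, rfl⟩
    exact hle w hw)) hinj2)

/-- the true stages are not computable -/
lemma tr_not_computable (t : ℕ → Bool) (ht : Computable t) (h : ∀ s, t s = true ↔ tr s) : False := by
  have hex : ∀ k : ℕ, ∃ s, t s = true ∧ 2 * k + 1 < g s := by
    intro k
    obtain ⟨M, hM⟩ := g_large (2 * k + 2)
    obtain ⟨s, hs1, hs2⟩ := exists_tr M
    exact ⟨s, (h s).2 hs2, by have := hM s hs1; omega⟩
  classical
  have hP : ComputablePred (fun q : ℕ × ℕ => t q.2 = true ∧ 2 * q.1 + 1 < g q.2) := by
    have h1 : Computable (fun q : ℕ × ℕ => t q.2) := ht.comp Computable.snd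
    have h2 : Computable (fun q : ℕ × ℕ => decide (2 * q.1 + 1 < g q.2)) :=
      (Primrec.nat_lt.comp (Primrec.succ.comp (Primrec.nat_mul.comp (Primrec.const 2) Primrec.fst))
        (g_primrec.comp Primrec.snd)).decide.to_comp
    exact Computable.computablePred ((Primrec.and.to_comp.comp h1 h2).of_eq (by
      intro q
      rw [Bool.eq_iff_iff]
      simp))
  have hc := Computable.find (α := ℕ) (P := fun k s => t s = true ∧ 2 * k + 1 < g s) hP hex
  have hE : Computable (fun q : ℕ × ℕ => decide (∃ u < q.2, g u = 2 * q.1 + 1)) := by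
    have h : PrimrecRel (fun (u x : ℕ) => g u = 2 * x + 1) :=
      Primrec.eq.comp (g_primrec.comp Primrec.fst)
        (Primrec.succ.comp (Primrec.nat_mul.comp (Primrec.const 2) Primrec.snd))
    have h2 : PrimrecRel (fun (b x : ℕ) => ∃ u ∈ List.range b, g u = 2 * x + 1) :=
      PrimrecPred.of_eq (h.exists_mem_list.comp (Primrec.list_range.comp Primrec.fst) Primrec.snd)
        (by intro q; rfl)
    have h3 : PrimrecPred (fun q : ℕ × ℕ => ∃ u < q.2, g u = 2 * q.1 + 1) :=
      (h2.comp Primrec.snd Primrec.fst).of_eq (by intro q; simp [List.mem_range])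
    exact h3.decide.to_comp
  have hD : Computable (fun k : ℕ => decide (∃ u < Nat.find (hex k), g u = 2 * k + 1)) :=
    hE.comp (Computable.id.pair hc)
  have hH : ComputablePred (fun c : Code => (Code.eval c 0).Dom) := by
    have h1 : Computable (fun c : Code => Nat.pair (Encodable.encode c) 0) :=
      Primrec₂.natPair.to_comp.comp Computable.encode (Computable.const 0)
    refine Computable.computablePred ((hD.comp h1).of_eq ?_)
    intro c
    have h2 := Nat.find_spec (hex (Nat.pair (Encodable.encode c) 0))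
    have h3 := tr_decides ((h _).1 h2.1) h2.2
    rw [Nat.unpair_pair] at h3
    simp only [Denumerable.ofNat_encode] at h3
    rw [Bool.eq_iff_iff, decide_eq_true_iff, decide_eq_true_iff]
    exact h3.symm
  exact ComputablePred.halting_problem 0 hH


/-- The negation of the preceding statement: Take any computable infinite linear order L and computable Boolean algebra B isomorphic to the algebra of finite unions of half-open intervals of L. Then some computable copy of L makes B computably isomorphic to that copy's interval algebra. -/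
theorem result :
    ¬ (∀ (β : Type) [LinearOrder β] (l : ℕ ≃ β),
      ComputablePred (fun p : ℕ × ℕ => l p.1 ≤ l p.2) →
      ∀ (α : Type) [BooleanAlgebra α] (e : ℕ ≃ α),
        Computable₂ (fun m n : ℕ => e.symm (e m ⊔ e n)) →
        Computable₂ (fun m n : ℕ => e.symm (e m ⊓ e n)) →
        Computable (fun n : ℕ => e.symm (e n)ᶜ) →
        (∃ φ : α → Set β, Function.Injective φ ∧
            (∀ a b, φ (a ⊔ b) = φ a ∪ φ b) ∧
            (∀ a, φ aᶜ = (φ a)ᶜ) ∧
            Set.range φ = {X : Set β | ∃ S : Finset β, ∃ b : Bool,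
              X = {x : β | Xor' (b = true) (Odd (S.filter (fun s => s ≤ x)).card)}}) →
        ∃ l' : ℕ ≃ β, ComputablePred (fun p : ℕ × ℕ => l' p.1 ≤ l' p.2) ∧
          ∃ ψ : α → Set β, Function.Injective ψ ∧
            (∀ a b, ψ (a ⊔ b) = ψ a ∪ ψ b) ∧
            (∀ a, ψ aᶜ = (ψ a)ᶜ) ∧
            Set.range ψ = {X : Set β | ∃ S : Finset β, ∃ b : Bool,
              X = {x : β | Xor' (b = true) (Odd (S.filter (fun s => s ≤ x)).card)}} ∧
            ∃ c : ℕ → List ℕ × Bool, Computable c ∧
              ∀ n : ℕ, ψ (e n) = {x : β | Xor' ((c n).2 = true)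
                (Odd ((c n).1.filter (fun s => decide (l' s ≤ x))).length)}) := by
  intro H
  classical
  have h1 : ComputablePred (fun p : ℕ × ℕ => (Equiv.refl ℕ) p.1 ≤ (Equiv.refl ℕ) p.2) :=
    PrimrecPred.computablePred Primrec.nat_le
  obtain ⟨l', _, ψ, hinj, hsup, hcompl, hrange, c, hc, hψ⟩ := H ℕ (Equiv.refl ℕ) h1 FCA
    (ee good_le') (ee_sup good_le') (ee_inf good_le') (ee_compl good_le')
    ⟨fun a => (a : Set ℕ), Subtype.val_injective, fun a b => rfl, fun a => rfl, by
      ext X
      constructor
      · rintro ⟨a, rfl⟩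
        exact FC_toggle a.2
      · rintro ⟨S, b, rfl⟩
        exact ⟨⟨_, toggle_FC S b⟩, rfl⟩⟩
  have hrange' : ∀ X, FC X → X ∈ Set.range ψ := by
    intro X hX
    rw [hrange]
    exact FC_toggle hX
  have hinf : ∀ Y : FCA, (Y : Set ℕ).Infinite ↔ (ψ Y).Infinite := by
    intro Y
    constructor
    · intro h
      have h2 : ((Yᶜ : FCA) : Set ℕ).Finite := by
        rcases Y.2 with h3 | h3
        · exact absurd h3 h
        · exact h3
      have h4 := fin_pres ψ hinj hsup hrange' _ h2
      rw [hcompl] at h4
      intro h5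
      exact Set.infinite_univ ((h5.union h4).subset (by intro x _; exact em _))
    · intro h h2
      exact h (fin_pres ψ hinj hsup hrange' _ h2)
  refine tr_not_computable
    (fun s => xor (c (2 ^ s)).2 (decide ((c (2 ^ s)).1.length % 2 = 1))) ?_ ?_
  · have hpow : Primrec₂ (fun m n : ℕ => m ^ n) := Primrec₂.unpaired'.1 Nat.Primrec.pow
    have p2 : Primrec (fun n : ℕ => 2 ^ n) := hpow.comp (Primrec.const 2) Primrec.id
    have h2 : Computable (fun s : ℕ => c (2 ^ s)) := hc.comp p2.to_comp
    have h3 : Computable (fun s : ℕ => decide ((c (2 ^ s)).1.length % 2 = 1)) := by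
      have h4 : Primrec (fun n : ℕ => decide (n % 2 = 1)) :=
        (Primrec.eq.comp (Primrec.nat_mod.comp Primrec.id (Primrec.const 2))
          (Primrec.const 1)).decide
      exact h4.to_comp.comp (Computable.list_length.comp (Computable.fst.comp h2))
    exact (Primrec.dom_bool₂ xor).to_comp.comp (Computable.snd.comp h2) h3
  · intro s
    rw [tr_iff_infinite, ← ee_val good_le', hinf, hψ, list_toggle (fun s => l' s)]
    simp only [Nat.odd_iff]
    cases (c (2 ^ s)).2 <;> by_cases h : (c (2 ^ s)).1.length % 2 = 1 <;> simp [Xor', h]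

end Pool.Agent.S15144
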