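import Pool.Statements.S15167
import Pool.Agent.H731R3.Uni3
-- import your own Pool.Agent.* helpers here

set_option autoImplicit false
open Pool Pool.MP_a5f47e_lc

namespace Pool.Agent.S15167

/-- There is a non-archimedean abelian Polish group U, all of whose continuous actions on Polish spaces have Borel orbit relations, such that every non-archimedean abelian Polish group with the same property embeds into U as a topological group. -/
theorem result :
    ∃ (U : Type) (_ : CommGroup U) (_ : TopologicalSpace U) (_ : NonarchimedeanGroup U)
      (_ : PolishSpace U),
      (∀ (X : Type) [TopologicalSpace X] [PolishSpace X] [MulAction U X] [ContinuousSMul U X],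
        @MeasurableSet (X × X) (borel (X × X)) {p : X × X | ∃ g : U, g • p.1 = p.2}) ∧
      ∀ (G : Type) [CommGroup G] [TopologicalSpace G] [NonarchimedeanGroup G] [PolishSpace G],
        (∀ (X : Type) [TopologicalSpace X] [PolishSpace X] [MulAction G X] [ContinuousSMul G X],
          @MeasurableSet (X × X) (borel (X × X)) {p : X × X | ∃ g : G, g • p.1 = p.2}) →
        ∃ f : G →* U, Topology.IsEmbedding (f : G → U) := by
  exact Pool.Agent.H731R3.Tame.exists_universal

end Pool.Agent.S15167
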