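import Pool.Statements.S15207
import Pool.Agent.H572R3.KG3

set_option autoImplicit false
open Pool Pool.MP_ad67df_lc

namespace Pool.Agent.S15207

/-- For every Martin-Löf random set A there is a random B, Turing-incomparable with A, such that the Hausdorff distance between their degrees (pseudometric: upper density of symmetric difference) equals 1. -/
theorem result :
  ∀ A : ℕ → Bool,
    (∀ f : ℕ → Option (ℕ × List Bool), Computable f →
      (∀ n L : ℕ, {τ : Fin L → Bool | ∃ k : ℕ, ∃ σ : List Bool,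
          f k = some (n, σ) ∧ List.IsPrefix σ (List.ofFn τ)}.ncard * 2 ^ n ≤ 2 ^ L) →
      ∃ n : ℕ, ∀ k : ℕ, ∀ σ : List Bool, f k = some (n, σ) →
        List.ofFn (fun i : Fin σ.length => A i.val) ≠ σ) →
    ∃ B : ℕ → Bool,
      (∀ f : ℕ → Option (ℕ × List Bool), Computable f →
        (∀ n L : ℕ, {τ : Fin L → Bool | ∃ k : ℕ, ∃ σ : List Bool,
            f k = some (n, σ) ∧ List.IsPrefix σ (List.ofFn τ)}.ncard * 2 ^ n ≤ 2 ^ L) →
        ∃ n : ℕ, ∀ k : ℕ, ∀ σ : List Bool, f k = some (n, σ) →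
          List.ofFn (fun i : Fin σ.length => B i.val) ≠ σ) ∧
      ¬ TuringReducible (fun n => Part.some (B n).toNat) (fun n => Part.some (A n).toNat) ∧
      ¬ TuringReducible (fun n => Part.some (A n).toNat) (fun n => Part.some (B n).toNat) ∧
      ((∀ ε : ℝ, 0 < ε → ∃ X : ℕ → Bool,
          TuringReducible (fun n => Part.some (X n).toNat) (fun n => Part.some (A n).toNat) ∧
          TuringReducible (fun n => Part.some (A n).toNat) (fun n => Part.some (X n).toNat) ∧
          ∀ Y : ℕ → Bool,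
            TuringReducible (fun n => Part.some (Y n).toNat) (fun n => Part.some (B n).toNat) →
            TuringReducible (fun n => Part.some (B n).toNat) (fun n => Part.some (Y n).toNat) →
            Filter.limsup (fun m : ℕ =>
              ((((Finset.range m).filter (fun k => X k ≠ Y k)).card : ℝ) / (m : ℝ)))
              Filter.atTop ≥ 1 - ε) ∨
       (∀ ε : ℝ, 0 < ε → ∃ Y : ℕ → Bool,
          TuringReducible (fun n => Part.some (Y n).toNat) (fun n => Part.some (B n).toNat) ∧
          TuringReducible (fun n => Part.some (B n).toNat) (fun n => Part.some (Y n).toNat) ∧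
          ∀ X : ℕ → Bool,
            TuringReducible (fun n => Part.some (X n).toNat) (fun n => Part.some (A n).toNat) →
            TuringReducible (fun n => Part.some (A n).toNat) (fun n => Part.some (X n).toNat) →
            Filter.limsup (fun m : ℕ =>
              ((((Finset.range m).filter (fun k => X k ≠ Y k)).card : ℝ) / (m : ℝ)))
              Filter.atTop ≥ 1 - ε)) := by
  intro A hA
  have hmain : ∃ B : ℕ → Bool, Pool.Agent.H572R3.FR B ∧ ¬ Pool.Agent.H572R3.BR A B ∧
      ∃ Y, Pool.Agent.H572R3.BR Y B ∧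
        ∀ X, Pool.Agent.H572R3.BR X A → 1 ≤ Pool.Agent.H572R3.dlt X Y := by
    by_cases h : ∃ a : ℕ → ℕ → ℕ, Computable₂ a ∧
        ∀ x, ∃ T, ∀ t, T ≤ t → a x t = Pool.Agent.H572R3.nb A x
    · obtain ⟨a, ha, hlim⟩ := h
      exact Pool.Agent.H572R3.distB ha hlim (Pool.Agent.H572R3.FR_noncomp hA)
    · exact Pool.Agent.H572R3.caseA h
  obtain ⟨B, hB1, hB2, Y, hY1, hY2⟩ := hmain
  have hself : Pool.Agent.H572R3.dlt Y Y = 0 := by
    unfold Pool.Agent.H572R3.dlt Pool.Agent.H572R3.dis
    simp
  refine ⟨B, hB1, ?_, ?_, Or.inr ?_⟩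
  · intro h
    have h1 : Pool.Agent.H572R3.BR B A := Pool.Agent.H572R3.BR_iff.2 h
    have h2 := hY2 Y (hY1.trans h1)
    rw [hself] at h2
    norm_num at h2
  · intro h
    exact hB2 (Pool.Agent.H572R3.BR_iff.2 h)
  · intro ε hε
    refine ⟨Pool.Agent.H572R3.codeIn B Y,
      Pool.Agent.H572R3.BR_iff.1 (Pool.Agent.H572R3.codeIn_le
        (Pool.Agent.H572R3.BR.refl B) hY1),
      Pool.Agent.H572R3.BR_iff.1 (Pool.Agent.H572R3.le_codeIn B Y), ?_⟩
    intro X hX _
    have h1 := hY2 X (Pool.Agent.H572R3.BR_iff.2 hX)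
    rw [← Pool.Agent.H572R3.dlt_codeIn' B Y X] at h1
    have h2 : Pool.Agent.H572R3.dlt X (Pool.Agent.H572R3.codeIn B Y) ≥ 1 - ε := by linarith
    exact h2

end Pool.Agent.S15207
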