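import Pool.Statements.S15235
import Pool.Agent.H437R3.NormLim
import Pool.Agent.H437R3.Embed

set_option autoImplicit false
open Pool Pool.MP_b0cc33_lc

namespace Pool.Agent.S15235

open Pool.Agent.H437R3 Pool.Agent.Helper446 Encodable

/-- The word with a given index. -/
def wd (m : ℕ) (i : ℕ) : List (Fin m × Bool) := (decode (α := List (Fin m × Bool)) i).getD []

lemma wd_encode (m : ℕ) (w : List (Fin m × Bool)) : wd m (encode w) = w := by simp [wd]

lemma wd_c (m : ℕ) : Computable (wd m) :=
  Computable.option_getD Computable.decode (Computable.const [])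

lemma wd_comp {m : ℕ} {α : Type} [Primcodable α] {f : α → ℕ} (hf : Computable f) :
    Computable fun x => wd m (f x) := (wd_c m).comp hf

lemma invRev_c (m : ℕ) : Computable (FreeGroup.invRev : List (Fin m × Bool) → _) := by
  have h1 : Primrec fun w : List (Fin m × Bool) => (w.map fun g : Fin m × Bool => (g.1, !g.2)) := by
    refine Primrec.list_map Primrec.id ?_
    exact (Primrec.pair (Primrec.fst.comp Primrec.snd)
      (Primrec.not.comp (Primrec.snd.comp Primrec.snd))).to₂
  exact (Primrec.list_reverse.comp h1).to_comp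

lemma div_comp {α : Type} [Primcodable α] {f g : α → ℕ} (hf : Computable f) (hg : Computable g) :
    Computable fun x => f x / g x := Primrec.nat_div.to_comp.comp hf hg


/-- Every finitely generated group F_n/N whose non-identity words form a c.e. set embeds, as a group of isometries each computable on a dense sequence, into some complete metric space with a dense sequence having computable distances. -/
theorem result :
    ∀ (n : ℕ) (N : Subgroup (FreeGroup (Fin n))), N.Normal →
      REPred (fun w : List (Fin n × Bool) => FreeGroup.mk w ∉ N) →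
      ∃ (X : Type) (_ : MetricSpace X) (_ : CompleteSpace X) (s : ℕ → X),
        DenseRange s ∧
        (∃ q : ℕ × ℕ × ℕ → ℕ, Computable q ∧
          ∀ i j k : ℕ, |dist (s i) (s j) - (q (i, j, k) : ℝ) / 2 ^ k| ≤ 1 / 2 ^ k) ∧
        ∃ φ : FreeGroup (Fin n) →* (X ≃ᵢ X), φ.ker = N ∧
          ∀ g : FreeGroup (Fin n), ∃ h : ℕ × ℕ → ℕ, Computable h ∧
            ∀ i k : ℕ, dist (φ g (s i)) (s (h (i, k))) ≤ 1 / 2 ^ k := by
  intro m N hN hre
  classical
  -- the enumeration of the free group
  let v : ℕ → FreeGroup (Fin m) := fun i => FreeGroup.mk (wd m i)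
  have hve : ∀ w : List (Fin m × Bool), v (encode w) = FreeGroup.mk w := fun w => by
    show FreeGroup.mk (wd m (encode w)) = _
    rw [wd_encode]
  have hv : Function.Surjective v := by
    intro g
    obtain ⟨w, rfl⟩ := Quot.exists_rep g
    exact ⟨encode w, hve w⟩
  have hre2 : REPred fun x : ℕ × List ℕ => (v x.1)⁻¹ * (x.2.map v).prod ∉ N := by
    have hc : Computable fun x : ℕ × List ℕ => x.2.foldl (fun acc j => acc ++ wd m j)
        (FreeGroup.invRev (wd m x.1)) := by
      refine RE.list_foldl (f := fun x : ℕ × List ℕ => x.2)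
        (g := fun x => FreeGroup.invRev (wd m x.1)) (h := fun _ y => y.1 ++ wd m y.2)
        Computable.snd ((invRev_c m).comp ((wd_c m).comp Computable.fst)) ?_
      exact Computable.list_append.comp (Computable.fst.comp Computable.snd)
        ((wd_c m).comp (Computable.snd.comp Computable.snd))
    have hmk : ∀ (L : List ℕ) (w : List (Fin m × Bool)),
        FreeGroup.mk (L.foldl (fun acc j => acc ++ wd m j) w) =
          FreeGroup.mk w * (L.map v).prod := by
      intro L
      induction L with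
      | nil => intro w; simp
      | cons j L ih =>
        intro w
        rw [List.foldl_cons, ih, ← FreeGroup.mul_mk, List.map_cons, List.prod_cons, mul_assoc]
    refine (RE.comp hre hc).of_eq fun x => ?_
    rw [hmk, ← FreeGroup.inv_mk]
  obtain ⟨ρ, f, hf, hρ0, hρN, hρt, hρa⟩ := norm_lim v hv N hN hre2
  -- invariance
  have hinv : ∀ g g' : FreeGroup (Fin m), g⁻¹ * g' ∈ N → ρ g ≤ ρ g' := by
    intro g g' h
    have h1 := hρt g' ((g⁻¹ * g')⁻¹)
    have h2 : ρ ((g⁻¹ * g')⁻¹) = 0 := (hρN _).2 (N.inv_mem h)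
    have e : g' * (g⁻¹ * g')⁻¹ = g := by group
    rw [e, h2, add_zero] at h1
    exact h1
  have hinv' : ∀ g g' : FreeGroup (Fin m), g⁻¹ * g' ∈ N → ρ g = ρ g' := fun g g' h =>
    le_antisymm (hinv g g' h) (hinv g' g (by
      have := N.inv_mem h
      simpa using this))
  have hinvl : ∀ g g' : FreeGroup (Fin m), g⁻¹ * g' ∈ N → ρ g⁻¹ = ρ g'⁻¹ := by
    intro g g' h
    apply hinv'
    have h1 := hN.conj_mem _ (N.inv_mem h) g
    have e : g * (g⁻¹ * g')⁻¹ * g⁻¹ = (g⁻¹)⁻¹ * g'⁻¹ := by group
    rw [e] at h1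
    exact h1
  let D : FreeGroup (Fin m) ⧸ N → ℝ := fun x => ρ x.out + ρ (x.out)⁻¹
  have hD : ∀ g : FreeGroup (Fin m), D (g : FreeGroup (Fin m) ⧸ N) = ρ g + ρ g⁻¹ := by
    intro g
    have h1 : (g : FreeGroup (Fin m))⁻¹ * (g : FreeGroup (Fin m) ⧸ N).out ∈ N := by
      rw [← QuotientGroup.eq]
      exact (QuotientGroup.out_eq' _).symm
    show ρ (g : FreeGroup (Fin m) ⧸ N).out + ρ ((g : FreeGroup (Fin m) ⧸ N).out)⁻¹ = _
    rw [← hinv' _ _ h1, ← hinvl _ _ h1]
  obtain ⟨X, _, _, ι, Φ, hι, hιi, hιd, hΦ⟩ := embed (FreeGroup (Fin m) ⧸ N) D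
    (by
      have := hD 1
      rw [QuotientGroup.mk_one] at this
      rw [this, inv_one, (hρN 1).2 N.one_mem, add_zero])
    (by
      intro x
      obtain ⟨g, rfl⟩ := QuotientGroup.mk_surjective x
      intro h
      rw [hD] at h
      have h1 : ρ g = 0 := by
        have := hρ0 g
        have := hρ0 g⁻¹
        linarith
      exact (QuotientGroup.eq_one_iff g).2 ((hρN g).1 h1))
    (by
      intro x
      obtain ⟨g, rfl⟩ := QuotientGroup.mk_surjective x
      rw [← QuotientGroup.mk_inv, hD, hD, inv_inv, add_comm])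
    (by
      intro x y
      obtain ⟨g, rfl⟩ := QuotientGroup.mk_surjective x
      obtain ⟨g', rfl⟩ := QuotientGroup.mk_surjective y
      rw [← QuotientGroup.mk_mul, hD, hD, hD, mul_inv_rev]
      have h1 := hρt g g'
      have h2 := hρt g'⁻¹ g⁻¹
      linarith)
  refine ⟨X, inferInstance, inferInstance, fun i => ι (v i : FreeGroup (Fin m) ⧸ N), ?_, ?_, ?_⟩
  · have h1 : Function.Surjective fun i => (v i : FreeGroup (Fin m) ⧸ N) :=
      (QuotientGroup.mk_surjective).comp hv
    have h2 : Set.range (fun i => ι (v i : FreeGroup (Fin m) ⧸ N)) = Set.range ι :=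
      h1.range_comp ι
    show Dense (Set.range fun i => ι (v i : FreeGroup (Fin m) ⧸ N))
    rw [h2]
    exact hι
  · -- the distances
    let e : ℕ → ℕ → ℕ := fun i j => encode (FreeGroup.invRev (wd m i) ++ wd m j)
    have he : ∀ i j, v (e i j) = (v i)⁻¹ * v j := by
      intro i j
      show v (encode (FreeGroup.invRev (wd m i) ++ wd m j)) = _
      rw [hve, ← FreeGroup.mul_mk, ← FreeGroup.inv_mk]
    have hec : Computable fun x : ℕ × ℕ => e x.1 x.2 := by
      have h1 : Computable fun x : ℕ × ℕ => FreeGroup.invRev (wd m x.1) ++ wd m x.2 :=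
        Computable.list_append.comp ((invRev_c m).comp ((wd_c m).comp Computable.fst))
          ((wd_c m).comp Computable.snd)
      exact Computable.encode.comp h1
    let M : ℕ × ℕ × ℕ → ℕ := fun x => e x.1 x.2.1 + e x.2.1 x.1 + x.2.2 + 5
    let Q : ℕ × ℕ × ℕ → ℕ := fun x =>
      ((gd (f (M x)) (e x.1 x.2.1) + gd (f (M x)) (e x.2.1 x.1)) * 2 ^ (x.2.2 + 3) / 2 ^ (M x) + 1) / 8
    have hc1 : Computable fun x : ℕ × ℕ × ℕ => e x.1 x.2.1 :=
      hec.comp (g := fun x : ℕ × ℕ × ℕ => (x.1, x.2.1)) (by fun_prop)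
    have hc2 : Computable fun x : ℕ × ℕ × ℕ => e x.2.1 x.1 :=
      hec.comp (g := fun x : ℕ × ℕ × ℕ => (x.2.1, x.1)) (by fun_prop)
    have hcM : Computable M := by
      show Computable fun x : ℕ × ℕ × ℕ => e x.1 x.2.1 + e x.2.1 x.1 + x.2.2 + 5
      have h3 : Computable fun x : ℕ × ℕ × ℕ => x.2.2 := by fun_prop
      have h4 := Primrec.nat_add.to_comp.comp (Primrec.nat_add.to_comp.comp hc1 hc2) h3
      exact Primrec.nat_add.to_comp.comp h4 (Computable.const 5)
    have hcg1 : Computable fun x : ℕ × ℕ × ℕ => gd (f (M x)) (e x.1 x.2.1) :=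
      gd_comp (hf.comp hcM) hc1
    have hcg2 : Computable fun x : ℕ × ℕ × ℕ => gd (f (M x)) (e x.2.1 x.1) :=
      gd_comp (hf.comp hcM) hc2
    refine ⟨Q, ?_, ?_⟩
    · refine div_comp (Computable.succ.comp (div_comp (Primrec.nat_mul.to_comp.comp
        (Primrec.nat_add.to_comp.comp hcg1 hcg2) ?_) ?_)) (Computable.const 8)
      · exact two_pow_comp (f := fun x : ℕ × ℕ × ℕ => x.2.2 + 3) (by fun_prop)
      · exact two_pow_comp hcM
    · intro i j k
      have hd : dist (ι (v i : FreeGroup (Fin m) ⧸ N)) (ι (v j : FreeGroup (Fin m) ⧸ N)) =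
          ρ (v (e i j)) + ρ (v (e j i)) := by
        rw [hιd, ← QuotientGroup.mk_inv, ← QuotientGroup.mk_mul, hD, he, he, mul_inv_rev, inv_inv]
      rw [hd]
      have hM1 : e i j < M (i, j, k) := by
        show e i j < e i j + e j i + k + 5
        omega
      have hM2 : e j i < M (i, j, k) := by
        show e j i < e i j + e j i + k + 5
        omega
      have hMk : k + 5 ≤ M (i, j, k) := by
        show k + 5 ≤ e i j + e j i + k + 5
        omega
      obtain ⟨a1, b1⟩ := hρa _ _ hM1
      obtain ⟨a2, b2⟩ := hρa _ _ hM2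
      show |ρ (v (e i j)) + ρ (v (e j i)) -
        ((((gd (f (M (i, j, k))) (e i j) + gd (f (M (i, j, k))) (e j i)) * 2 ^ (k + 3) /
          2 ^ (M (i, j, k)) + 1) / 8 : ℕ) : ℝ) / 2 ^ k| ≤ 1 / 2 ^ k
      generalize M (i, j, k) = n at *
      generalize gd (f n) (e i j) = A at *
      generalize gd (f n) (e j i) = B at *
      generalize ρ (v (e i j)) = x at *
      generalize ρ (v (e j i)) = y at *
      -- arithmetic
      obtain ⟨d, rfl⟩ : ∃ d, n = k + 5 + d := ⟨n - (k + 5), by omega⟩
      have hk : (0 : ℝ) < 2 ^ k := by positivity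
      have hn : (0 : ℝ) < 2 ^ (k + 5 + d) := by positivity
      have hdp : (0 : ℝ) < 2 ^ d := by positivity
      have e1 : (A + B) * 2 ^ (k + 3) / 2 ^ (k + 5 + d) = (A + B) / 2 ^ (d + 2) := by
        have : 2 ^ (k + 5 + d) = 2 ^ (d + 2) * 2 ^ (k + 3) := by rw [← pow_add]; congr 1; omega
        rw [this]
        exact Nat.mul_div_mul_right _ _ (by positivity)
      rw [e1]
      set m0 := (A + B) / 2 ^ (d + 2) with hm0
      have h1 : m0 * 2 ^ (d + 2) ≤ A + B := Nat.div_mul_le_self _ _
      have h2 : A + B < (m0 + 1) * 2 ^ (d + 2) := by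
        have := Nat.lt_div_mul_add (a := A + B) (b := 2 ^ (d + 2)) (by positivity)
        rw [← hm0] at this
        linarith
      set q := (m0 + 1) / 8 with hq
      have h3 : 8 * q ≤ m0 + 1 := by omega
      have h4 : m0 + 1 ≤ 8 * q + 7 := by omega
      have h1' : (m0 : ℝ) * 2 ^ (d + 2) ≤ A + B := by exact_mod_cast h1
      have h2' : (A : ℝ) + B + 1 ≤ (m0 + 1) * 2 ^ (d + 2) := by exact_mod_cast h2
      have h3' : 8 * (q : ℝ) ≤ m0 + 1 := by exact_mod_cast h3
      have h4' : (m0 : ℝ) + 1 ≤ 8 * q + 7 := by exact_mod_cast h4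
      have e2 : (2 : ℝ) ^ (k + 5 + d) = 2 ^ k * 32 * 2 ^ d := by rw [pow_add, pow_add]; norm_num
      rw [e2] at a1 a2 b1 b2 hn
      rw [div_le_iff₀ hn] at a1 a2
      rw [le_div_iff₀ hn] at b1 b2
      have e3 : (2 : ℝ) ^ (d + 2) = 4 * 2 ^ d := by rw [pow_add]; ring
      rw [e3] at h1' h2'
      have hd1 : (1 : ℝ) ≤ 2 ^ d := one_le_pow₀ (by norm_num)
      rw [abs_le]
      set K : ℝ := 2 ^ k with hK
      set P : ℝ := 2 ^ d with hP
      have lowS : (m0 : ℝ) ≤ (x + y) * K * 8 := by
        by_contra hcon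
        push Not at hcon
        have : (x + y) * K * 8 * (4 * P) < m0 * (4 * P) := by
          apply mul_lt_mul_of_pos_right hcon
          positivity
        nlinarith
      have upS : (x + y) * K * 8 ≤ m0 + 2 := by
        by_contra hcon
        push Not at hcon
        have : (m0 + 2 : ℝ) * (4 * P) < (x + y) * K * 8 * (4 * P) := by
          apply mul_lt_mul_of_pos_right hcon
          positivity
        nlinarith
      constructor
      · rw [neg_le_sub_iff_le_add, ← sub_nonneg]
        have e4 : x + y + 1 / K - (q : ℝ) / K = ((x + y) * K * 8 + 8 - 8 * q) / (8 * K) := by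
          field_simp
        rw [e4]
        apply div_nonneg _ (by positivity)
        linarith
      · rw [← sub_nonneg]
        have e4 : 1 / K - (x + y - (q : ℝ) / K) = (8 * q + 8 - (x + y) * K * 8) / (8 * K) := by
          field_simp
          ring
        rw [e4]
        apply div_nonneg _ (by positivity)
        linarith
  · refine ⟨Φ.comp (QuotientGroup.mk' N), ?_, ?_⟩
    · ext g
      rw [MonoidHom.mem_ker]
      constructor
      · intro h
        have h1 : Φ (g : FreeGroup (Fin m) ⧸ N) = 1 := h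
        have h2 := hΦ (g : FreeGroup (Fin m) ⧸ N) 1
        rw [h1, mul_one] at h2
        have h3 : ι 1 = ι (g : FreeGroup (Fin m) ⧸ N) := h2
        exact (QuotientGroup.eq_one_iff g).1 (hιi h3).symm
      · intro h
        have h1 : (g : FreeGroup (Fin m) ⧸ N) = 1 := (QuotientGroup.eq_one_iff g).2 h
        show Φ (g : FreeGroup (Fin m) ⧸ N) = 1
        rw [h1, map_one]
    · intro g
      obtain ⟨w, rfl⟩ := Quot.exists_rep g
      refine ⟨fun x => encode (w ++ wd m x.1), ?_, ?_⟩
      · have h1 : Computable fun x : ℕ × ℕ => w ++ wd m x.1 :=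
          Computable.list_append.comp (Computable.const w) ((wd_c m).comp Computable.fst)
        exact Computable.encode.comp h1
      · intro i k
        have h1 : v (encode (w ++ wd m i)) = FreeGroup.mk w * v i := by
          rw [hve, ← FreeGroup.mul_mk]
        have h2 : (Φ.comp (QuotientGroup.mk' N)) (FreeGroup.mk w) (ι (v i : FreeGroup (Fin m) ⧸ N)) =
            ι (v (encode (w ++ wd m i)) : FreeGroup (Fin m) ⧸ N) := by
          rw [h1, QuotientGroup.mk_mul]
          exact hΦ _ _
        show dist ((Φ.comp (QuotientGroup.mk' N)) (FreeGroup.mk w)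
          (ι (v i : FreeGroup (Fin m) ⧸ N))) (ι (v (encode (w ++ wd m i)) :
            FreeGroup (Fin m) ⧸ N)) ≤ _
        rw [h2, dist_self]
        positivity

end Pool.Agent.S15235
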