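import Pool.Statements.S15245
import Pool.Agent.H829R3.Strong

set_option autoImplicit false
open Pool Pool.MP_b25485_lc

namespace Pool.Agent.S15245

/-- For every countably infinite field F, every full block filter on the countable-dimensional F-vector space that is a (p)-filter is also a strong (p)-filter, i.e. every (p⁺)-filter is a strong (p⁺)-filter. -/
theorem result :
  ∀ (F : Type) [Field F] [Countable F] [Infinite F] (𝓕 : Filter (ℕ →₀ F)),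
    𝓕.NeBot →
    ({0}ᶜ : Set (ℕ →₀ F)) ∈ 𝓕 →
    (∀ V : Submodule F (ℕ →₀ F), FiniteDimensional F ((ℕ →₀ F) ⧸ V) →
        ((V : Set (ℕ →₀ F)) \ {0}) ∈ 𝓕) →
    (∀ A ∈ 𝓕, ∃ X : ℕ → (ℕ →₀ F),
        (∀ n, X n ≠ 0 ∧ ∀ i ∈ (X n).support, ∀ j ∈ (X (n+1)).support, i < j) ∧
        ((Submodule.span F (Set.range X) : Set (ℕ →₀ F)) \ {0}) ∈ 𝓕 ∧
        ((Submodule.span F (Set.range X) : Set (ℕ →₀ F)) \ {0}) ⊆ A) →
    (∀ D : Set (ℕ →₀ F),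
        (∀ X : ℕ → (ℕ →₀ F),
          (∀ n, X n ≠ 0 ∧ ∀ i ∈ (X n).support, ∀ j ∈ (X (n+1)).support, i < j) →
          ((Submodule.span F (Set.range X) : Set (ℕ →₀ F)) \ {0}) ∈ 𝓕 →
          ∃ V : Submodule F (ℕ →₀ F), ¬ FiniteDimensional F V ∧
            ((V : Set (ℕ →₀ F)) \ {0}) ⊆ ((Submodule.span F (Set.range X) : Set (ℕ →₀ F)) \ {0}) ∧
            ((V : Set (ℕ →₀ F)) \ {0}) ⊆ D) →
        D ∈ 𝓕) →
    (∀ Xs : ℕ → ℕ → (ℕ →₀ F),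
        (∀ m, (∀ n, Xs m n ≠ 0 ∧ ∀ i ∈ (Xs m n).support, ∀ j ∈ (Xs m (n+1)).support, i < j) ∧
          ((Submodule.span F (Set.range (Xs m)) : Set (ℕ →₀ F)) \ {0}) ∈ 𝓕) →
        ∃ X : ℕ → (ℕ →₀ F),
          (∀ n, X n ≠ 0 ∧ ∀ i ∈ (X n).support, ∀ j ∈ (X (n+1)).support, i < j) ∧
          ((Submodule.span F (Set.range X) : Set (ℕ →₀ F)) \ {0}) ∈ 𝓕 ∧
          ∀ m, ∃ k : ℕ, Submodule.span F (Set.range (fun n : ℕ => X (n + k))) ≤
            Submodule.span F (Set.range (Xs m))) →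
    (∀ Y : List (ℕ →₀ F) → ℕ → (ℕ →₀ F),
        (∀ l, (∀ n, Y l n ≠ 0 ∧ ∀ i ∈ (Y l n).support, ∀ j ∈ (Y l (n+1)).support, i < j) ∧
          ((Submodule.span F (Set.range (Y l)) : Set (ℕ →₀ F)) \ {0}) ∈ 𝓕) →
        ∃ X : ℕ → (ℕ →₀ F),
          (∀ n, X n ≠ 0 ∧ ∀ i ∈ (X n).support, ∀ j ∈ (X (n+1)).support, i < j) ∧
          ((Submodule.span F (Set.range X) : Set (ℕ →₀ F)) \ {0}) ∈ 𝓕 ∧
          ∀ k : ℕ, Submodule.span F (Set.range (fun n : ℕ => X (n + k))) ≤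
            Submodule.span F (Set.range (Y (List.ofFn (fun i : Fin k => X i.val))))) := by
  intro F _ _ _ 𝓕 _ _ hcof hbase hfull hp Y hY
  have hgap : Pool.Agent.H829R3.GapProp 𝓕 := fun h hh hs S hS =>
    Pool.Agent.H829R3.gap_infinite (𝓕 := 𝓕) hbase hfull hh hs hS
  exact Pool.Agent.H829R3.strong_of_gap hcof hp hgap Y hY

end Pool.Agent.S15245
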