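import Pool.Statements.S15265
import Pool.Agent.H534R3.HM

set_option autoImplicit false
open Pool Pool.MP_b60ee2_lc

namespace Pool.Agent.S15265

open Filter Topology MeasureTheory Pool.Agent.H534R3.HM in
/-- Every uncountable abelian Polish group is the union of two sets A and B. A lies in a Borel set that some continuous image of a nonempty compact metrizable space sees as meager in every translate. B lies in a Borel set that some probability measure gives measure zero in every translate. -/
theorem result :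
    ∀ (G : Type) [TopologicalSpace G] [AddCommGroup G] [IsTopologicalAddGroup G]
      [PolishSpace G] [MeasurableSpace G] [BorelSpace G],
      Uncountable G →
      ∃ A B : Set G, A ∪ B = Set.univ ∧
        (∃ C : Set G, MeasurableSet C ∧ A ⊆ C ∧
          ∃ (K : Type) (t : TopologicalSpace K),
            CompactSpace K ∧ TopologicalSpace.MetrizableSpace K ∧ Nonempty K ∧
            ∃ f : K → G, Continuous f ∧
              ∀ g : G, IsMeagre (f ⁻¹' ((fun x => x + g) ⁻¹' C))) ∧
        (∃ C : Set G, MeasurableSet C ∧ B ⊆ C ∧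
          ∃ μ : MeasureTheory.Measure G, MeasureTheory.IsProbabilityMeasure μ ∧
            ∀ g : G, μ ((fun x => x + g) ⁻¹' C) = 0) := by
  intro G _ _ _ _ _ _ hG
  obtain ⟨φ, F, hφ, hFc, hF⟩ : ∃ (φ : (i : ℕ) → ZMod (2 ^ (i + 1)) → G) (F : KK → G),
      (∀ i, Function.Injective (φ i)) ∧ Continuous F ∧
      ∀ (t : KK) (i : ℕ) (c : ZMod (2 ^ (i + 1))),
        F (t + Pi.single i c) = F t + (φ i (t i + c) - φ i (t i)) := by
    letI := TopologicalSpace.upgradeIsCompletelyMetrizable G
    obtain ⟨φ, hφ, h1⟩ := exists_seq (G := G)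
    obtain ⟨F, hFc, hF⟩ := exists_limit φ h1
    exact ⟨φ, F, hφ, hFc, fun t i c => limit_add_single φ F hF t i c⟩
  choose U hU h1 h2 using fun i => exists_marker' (φ i) (hφ i)
  obtain ⟨m, hm, ν, hν, hinv⟩ := exists_haar
  set B : Set G := ⋂ k : ℕ, ⋃ i : ℕ, ⋃ _ : k ≤ i, U i with hB
  have hBm : MeasurableSet B := MeasurableSet.iInter fun k => MeasurableSet.iUnion fun i =>
    MeasurableSet.iUnion fun _ => hU i
  refine ⟨Bᶜ, B, Set.compl_union_self B, ⟨Bᶜ, hBm.compl, subset_rfl, KK × KK, inferInstance,
    inferInstance, inferInstance, inferInstance, fun p => F p.1 - F p.2,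
    (hFc.comp continuous_fst).sub (hFc.comp continuous_snd), fun g => ?_⟩,
    ⟨B, hBm, subset_rfl, ν.map F, ?_, fun g => ?_⟩⟩
  · have : (fun p : KK × KK => F p.1 - F p.2) ⁻¹' ((fun x => x + g) ⁻¹' Bᶜ) =
        ⋃ k : ℕ, {p : KK × KK | ∀ i ≥ k, F p.1 - F p.2 + g ∉ U i} := by
      ext p
      simp [hB]
    rw [this]
    exact isMeagre_iUnion fun k => meagre_bad φ F hFc hF U hU h2 g k
  · exact Measure.isProbabilityMeasure_map hFc.measurable.aemeasurable
  · rw [Measure.map_apply hFc.measurable ((measurable_add_const g) hBm)]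
    have hle : ∀ i, ν {t | F t + g ∈ U i} ≤ (2 ^ (i + 1))⁻¹ := fun i =>
      measure_bound ν hinv φ F hFc hF i (U i) (hU i) (h1 i) g
    have hsum : ∑' i, ν {t | F t + g ∈ U i} ≠ ⊤ := by
      refine ne_top_of_le_ne_top ?_ (ENNReal.tsum_le_tsum hle)
      have : ∀ i : ℕ, ((2 : ENNReal) ^ (i + 1))⁻¹ = 2⁻¹ ^ (i + 1) := fun i => by
        rw [ENNReal.inv_pow]
      simp_rw [this]
      rw [ENNReal.tsum_geometric_add_one]
      norm_num
    have h3 := measure_limsup_atTop_eq_zero hsum
    refine measure_mono_null ?_ h3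
    intro t ht
    rw [Filter.mem_limsup_iff_frequently_mem, Filter.frequently_atTop]
    intro k
    have := Set.mem_iInter.1 ht k
    simp only [Set.mem_iUnion, exists_prop] at this
    exact this

end Pool.Agent.S15265
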