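import Pool.Statements.S15353

set_option autoImplicit false
open Pool Pool.MP_cc69c8_lc

namespace Pool.Agent.S15353

/-- Dominating family (mod finite). -/
private def Dom (D : Set (ℕ → ℕ)) : Prop :=
  ∀ f : ℕ → ℕ, ∃ g ∈ D, ∀ᶠ n in Filter.atTop, f n ≤ g n

/-- The coded graph function of `f`: it is pointwise at least `f` and two different `f`s have
eventually different codes. -/
private def cd (f : ℕ → ℕ) (i : ℕ) : ℕ :=
  Nat.pair (f i) (Encodable.encode (List.map f (List.range (i + 1))))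

private lemma le_cd (f : ℕ → ℕ) (i : ℕ) : f i ≤ cd f i := Nat.left_le_pair _ _

private lemma cd_inj {f g : ℕ → ℕ} {i : ℕ} (h : cd f i = cd g i) : ∀ j ≤ i, f j = g j := by
  unfold cd at h
  rw [Nat.pair_eq_pair] at h
  have h2 := Encodable.encode_injective h.2
  intro j hj
  have := List.map_inj_left.1 h2 j (by simp; omega)
  exact this

/-- The graph of the coded function. -/
private def gr (f : ℕ → ℕ) : Set ℕ := Set.range (fun i => Nat.pair i (cd f i))

/-- The `i`-th column. -/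
private def col (i : ℕ) : Set ℕ := Set.range (fun j => Nat.pair i j)

private lemma gr_infinite (f : ℕ → ℕ) : (gr f).Infinite := by
  apply Set.infinite_range_of_injective
  intro i j h
  simp only [Nat.pair_eq_pair] at h
  exact h.1

private lemma col_infinite (i : ℕ) : (col i).Infinite := by
  apply Set.infinite_range_of_injective
  intro a b h
  simp only [Nat.pair_eq_pair] at h
  exact h.2

private lemma gr_inter {f g : ℕ → ℕ} (h : f ≠ g) : (gr f ∩ gr g).Finite := by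
  obtain ⟨k, hk⟩ := Function.ne_iff.1 h
  apply Set.Finite.subset (Set.Finite.image (fun i => Nat.pair i (cd f i)) (Set.finite_lt_nat k))
  rintro x ⟨⟨i, rfl⟩, ⟨j, hj⟩⟩
  simp only [Nat.pair_eq_pair] at hj
  obtain ⟨rfl, hj⟩ := hj
  refine ⟨j, ?_, rfl⟩
  by_contra hlt
  simp only [Set.mem_ofPred_eq, not_lt] at hlt
  exact hk (cd_inj hj.symm k hlt)

private lemma col_inter {i j : ℕ} (h : i ≠ j) : (col i ∩ col j).Finite := by
  have : col i ∩ col j = ∅ := by
    ext x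
    simp only [Set.mem_inter_iff, Set.mem_empty_iff_false, iff_false, not_and]
    rintro ⟨a, rfl⟩ ⟨b, hb⟩
    simp only [Nat.pair_eq_pair] at hb
    exact h hb.1.symm
  rw [this]
  exact Set.finite_empty

private lemma col_gr (i : ℕ) (f : ℕ → ℕ) : (col i ∩ gr f).Finite := by
  apply Set.Finite.subset (Set.finite_singleton (Nat.pair i (cd f i)))
  rintro x ⟨⟨a, rfl⟩, ⟨b, hb⟩⟩
  simp only [Nat.pair_eq_pair] at hb
  obtain ⟨rfl, hb⟩ := hb
  simp [← hb]

/-- The almost disjoint family. -/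
private def fam (D : Set (ℕ → ℕ)) : Set (Set ℕ) := Set.range col ∪ gr '' D

/-- Existence of a dominating family of least cardinality that is closed under adding constants,
hence dominating everywhere. -/
private lemma exists_min :
    ∃ D : Set (ℕ → ℕ), Dom D ∧ (∀ D', Dom D' → Cardinal.mk D ≤ Cardinal.mk D') ∧
      (∀ f : ℕ → ℕ, ∃ g ∈ D, ∀ n, f n ≤ g n) ∧ Cardinal.aleph0 ≤ Cardinal.mk D := by
  classical
  -- the set of cardinals of dominating families
  let S : Set Cardinal.{0} := {c | ∃ D : Set (ℕ → ℕ), Dom D ∧ Cardinal.mk D = c}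
  have hS : S.Nonempty := ⟨_, Set.univ, fun f => ⟨f, Set.mem_univ _, Filter.Eventually.of_forall
    (fun n => le_rfl)⟩, rfl⟩
  obtain ⟨D₀, hD₀, hc⟩ := csInf_mem hS
  have hmin : ∀ D', Dom D' → Cardinal.mk D₀ ≤ Cardinal.mk D' := by
    intro D' hD'
    rw [hc]
    exact csInf_le' ⟨D', hD', rfl⟩
  -- every dominating family is infinite
  have hinf : ∀ D', Dom D' → Cardinal.aleph0 ≤ Cardinal.mk D' := by
    intro D' hD'
    by_contra hlt
    rw [not_le, Cardinal.lt_aleph0_iff_set_finite] at hlt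
    obtain ⟨g, hg, hgg⟩ := hD' (fun n => (∑ h ∈ hlt.toFinset, h n) + 1)
    obtain ⟨n, hn⟩ := hgg.exists
    have : g n ≤ ∑ h ∈ hlt.toFinset, h n :=
      Finset.single_le_sum (f := fun h : ℕ → ℕ => h n) (fun _ _ => Nat.zero_le _)
        (by simpa using hg)
    omega
  let D : Set (ℕ → ℕ) := (fun p : (ℕ → ℕ) × ℕ => fun n => p.1 n + p.2) '' (D₀ ×ˢ Set.univ)
  have hever : ∀ f : ℕ → ℕ, ∃ g ∈ D, ∀ n, f n ≤ g n := by
    intro f
    obtain ⟨g, hg, hgg⟩ := hD₀ f
    obtain ⟨N, hN⟩ := Filter.eventually_atTop.1 hgg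
    refine ⟨_, ⟨(g, ∑ i ∈ Finset.range N, f i), ⟨hg, Set.mem_univ _⟩, rfl⟩, ?_⟩
    intro n
    by_cases h : N ≤ n
    · have := hN n h
      simp only
      omega
    · have : f n ≤ ∑ i ∈ Finset.range N, f i :=
        Finset.single_le_sum (f := f) (fun _ _ => Nat.zero_le _) (by simpa using h)
      simp only
      omega
  have hD : Dom D := by
    intro f
    obtain ⟨g, hg, h⟩ := hever f
    exact ⟨g, hg, Filter.Eventually.of_forall h⟩
  have hle : Cardinal.mk D ≤ Cardinal.mk D₀ := by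
    calc Cardinal.mk D ≤ Cardinal.mk (D₀ ×ˢ (Set.univ : Set ℕ) : Set ((ℕ → ℕ) × ℕ)) :=
          Cardinal.mk_image_le
      _ = Cardinal.mk D₀ * Cardinal.aleph0 := by
          rw [Cardinal.mk_setProd, Cardinal.mk_univ]
          simp
      _ = Cardinal.mk D₀ := Cardinal.mul_aleph0_eq (hinf _ hD₀)
  exact ⟨D, hD, fun D' hD' => hle.trans (hmin D' hD'), hever, hinf _ hD⟩

private lemma mk_fam (D : Set (ℕ → ℕ)) (hD : Cardinal.aleph0 ≤ Cardinal.mk D) :
    Cardinal.mk (fam D) = Cardinal.mk D := by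
  have hinj : Set.InjOn gr D := by
    intro f _ g _ h
    by_contra hne
    have := gr_inter hne
    rw [h, Set.inter_self] at this
    exact gr_infinite g this
  apply le_antisymm
  · calc Cardinal.mk (fam D) ≤ Cardinal.mk (Set.range col) + Cardinal.mk (gr '' D) :=
          Cardinal.mk_union_le _ _
      _ ≤ Cardinal.aleph0 + Cardinal.mk D := by
          gcongr
          · exact (Set.countable_range col).le_aleph0
          · exact Cardinal.mk_image_le
      _ = Cardinal.mk D := Cardinal.add_eq_right hD hD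
  · calc Cardinal.mk D = Cardinal.mk (gr '' D) := (Cardinal.mk_image_eq_of_injOn _ _ hinj).symm
      _ ≤ Cardinal.mk (fam D) := Cardinal.mk_le_mk_of_subset Set.subset_union_right

/-- There is an almost disjoint family of infinite subsets of ℕ, of cardinality equal to the dominating number, whose Mrówka–Isbell space Ψ(A) is not selectively (a). -/
theorem result :
  ∃ A : Set (Set ℕ),
    (∀ a ∈ A, a.Infinite) ∧ (∀ a ∈ A, ∀ b ∈ A, a ≠ b → (a ∩ b).Finite) ∧
    (∃ D : Set (ℕ → ℕ), (∀ f : ℕ → ℕ, ∃ g ∈ D, ∀ᶠ n in Filter.atTop, f n ≤ g n) ∧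
        Cardinal.mk D = Cardinal.mk A) ∧
    (∀ D : Set (ℕ → ℕ), (∀ f : ℕ → ℕ, ∃ g ∈ D, ∀ᶠ n in Filter.atTop, f n ≤ g n) →
        Cardinal.mk A ≤ Cardinal.mk D) ∧
    ∀ t : TopologicalSpace (ℕ ⊕ A),
      t = TopologicalSpace.generateFrom
        ({s : Set (ℕ ⊕ A) | ∃ n : ℕ, s = {Sum.inl n}} ∪
         {s : Set (ℕ ⊕ A) | ∃ a : A, ∃ F : Set ℕ, F.Finite ∧
            s = insert (Sum.inr a) (Sum.inl '' ((a : Set ℕ) \ F))}) →
      ¬ (∀ U : ℕ → Set (Set (ℕ ⊕ A)),
          (∀ n, (∀ u ∈ U n, @IsOpen _ t u) ∧ ⋃₀ U n = Set.univ) →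
          ∀ Dn : Set (ℕ ⊕ A), @Dense _ t Dn →
          ∃ F : ℕ → Set (ℕ ⊕ A),
            (∀ n, F n ⊆ Dn ∧ ∀ x, ∃ V : Set (ℕ ⊕ A), @IsOpen _ t V ∧ x ∈ V ∧ V ∩ F n ⊆ {x}) ∧
            ∀ x, ∃ n, ∃ u ∈ U n, x ∈ u ∧ (u ∩ F n).Nonempty) := by
  classical
  obtain ⟨D, hD, hmin, hever, hinf⟩ := exists_min
  have hmk := mk_fam D hinf
  have hInf : ∀ a ∈ fam D, a.Infinite := by
    rintro a (⟨i, rfl⟩ | ⟨f, _, rfl⟩)
    · exact col_infinite i
    · exact gr_infinite f
  refine ⟨fam D, hInf, ?_, ⟨D, hD, hmk.symm⟩, ?_, ?_⟩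
  · rintro a (⟨i, rfl⟩ | ⟨f, _, rfl⟩) b (⟨j, rfl⟩ | ⟨g, _, rfl⟩) hne
    · exact col_inter (fun h => hne (by rw [h]))
    · exact col_gr i g
    · rw [Set.inter_comm]; exact col_gr j f
    · exact gr_inter (fun h => hne (by rw [h]))
  · intro D' hD'
    rw [hmk]
    exact hmin D' hD'
  intro t ht H
  -- neighbourhoods of points of the family
  have hnhd : ∀ V : Set (ℕ ⊕ (fam D)), @IsOpen _ t V → ∀ a : fam D, Sum.inr a ∈ V →
      ∃ F : Set ℕ, F.Finite ∧ ∀ m ∈ (a : Set ℕ) \ F, (Sum.inl m : ℕ ⊕ (fam D)) ∈ V := by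
    intro V hV a haV
    rw [ht] at hV
    have hV' : TopologicalSpace.GenerateOpen _ V := hV
    induction hV' with
    | basic s hs =>
      rcases hs with ⟨n, rfl⟩ | ⟨b, F, hF, rfl⟩
      · simp at haV
      · simp only [Set.mem_insert_iff, Sum.inr.injEq, Set.mem_image, reduceCtorEq, and_false,
          exists_false, or_false] at haV
        subst haV
        refine ⟨F, hF, fun m hm => Set.mem_insert_of_mem _ ⟨m, hm, rfl⟩⟩
    | univ => exact ⟨∅, Set.finite_empty, fun m _ => Set.mem_univ _⟩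
    | inter s t hs ht ihs iht =>
      obtain ⟨F, hF, h1⟩ := ihs hs haV.1
      obtain ⟨G, hG, h2⟩ := iht ht haV.2
      refine ⟨F ∪ G, hF.union hG, fun m hm => ⟨h1 m ⟨hm.1, fun h => hm.2 (Or.inl h)⟩,
        h2 m ⟨hm.1, fun h => hm.2 (Or.inr h)⟩⟩⟩
    | sUnion S hS ih =>
      obtain ⟨s, hs, has⟩ := haV
      obtain ⟨F, hF, h1⟩ := ih s hs (hS s hs) has
      exact ⟨F, hF, fun m hm => ⟨s, hs, h1 m hm⟩⟩
  -- basic open sets
  have hop1 : ∀ n : ℕ, @IsOpen _ t ({Sum.inl n} : Set (ℕ ⊕ (fam D))) := by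
    intro n
    rw [ht]
    exact TopologicalSpace.isOpen_generateFrom_of_mem (Or.inl ⟨n, rfl⟩)
  have hop2 : ∀ (a : fam D) (F : Set ℕ), F.Finite →
      @IsOpen _ t (insert (Sum.inr a) (Sum.inl '' ((a : Set ℕ) \ F)) : Set (ℕ ⊕ (fam D))) := by
    intro a F hF
    rw [ht]
    exact TopologicalSpace.isOpen_generateFrom_of_mem (Or.inr ⟨a, F, hF, rfl⟩)
  -- the finite sets used by the covers
  let Fs : ℕ → fam D → Set ℕ := fun n a =>
    if {m | m ∈ (a : Set ℕ) ∧ (Nat.unpair m).1 < n}.Finite then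
      {m | m ∈ (a : Set ℕ) ∧ (Nat.unpair m).1 < n} else ∅
  have hFs : ∀ n a, (Fs n a).Finite := by
    intro n a
    simp only [Fs]
    split_ifs with h
    · exact h
    · exact Set.finite_empty
  let U : ℕ → Set (Set (ℕ ⊕ (fam D))) := fun n =>
    {u | ∃ k : ℕ, u = {Sum.inl k}} ∪
    {u | ∃ a : fam D, u = insert (Sum.inr a) (Sum.inl '' ((a : Set ℕ) \ Fs n a))}
  have hU : ∀ n, (∀ u ∈ U n, @IsOpen _ t u) ∧ ⋃₀ U n = Set.univ := by
    intro n
    constructor
    · rintro u (⟨k, rfl⟩ | ⟨a, rfl⟩)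
      · exact hop1 k
      · exact hop2 a _ (hFs n a)
    · apply Set.eq_univ_of_forall
      rintro (k | a)
      · exact ⟨{Sum.inl k}, Or.inl ⟨k, rfl⟩, rfl⟩
      · exact ⟨_, Or.inr ⟨a, rfl⟩, Set.mem_insert _ _⟩
  have hdense : @Dense _ t (Set.range (Sum.inl : ℕ → ℕ ⊕ (fam D))) := by
    let _ := t
    rw [dense_iff_inter_open]
    rintro V hV ⟨x, hx⟩
    rcases x with k | a
    · exact ⟨Sum.inl k, hx, k, rfl⟩
    · obtain ⟨F, hF, h⟩ := hnhd V hV a hx
      obtain ⟨m, hm⟩ := ((hInf a a.2).sdiff hF).nonempty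
      exact ⟨Sum.inl m, h m hm, m, rfl⟩
  obtain ⟨F, hF, hcov⟩ := H U hU _ hdense
  -- traces on members of the family are finite
  have hfin : ∀ n (a : fam D), {m | m ∈ (a : Set ℕ) ∧ Sum.inl m ∈ F n}.Finite := by
    intro n a
    obtain ⟨V, hV, hx, hsub⟩ := (hF n).2 (Sum.inr a)
    obtain ⟨G, hG, h⟩ := hnhd V hV a hx
    apply hG.subset
    rintro m ⟨hm, hmF⟩
    by_contra hmG
    have := hsub ⟨h m ⟨hm, hmG⟩, hmF⟩
    simp at this
  have hb : ∀ n i, ∃ b : ℕ, ∀ j, (Sum.inl (Nat.pair i j) : ℕ ⊕ (fam D)) ∈ F n → j < b := by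
    intro n i
    obtain ⟨b, hb⟩ := (hfin n ⟨col i, Or.inl ⟨i, rfl⟩⟩).bddAbove
    refine ⟨b + 1, fun j hj => ?_⟩
    have h1 : Nat.pair i j ≤ b := hb ⟨⟨j, rfl⟩, hj⟩
    have h2 : j ≤ Nat.pair i j := Nat.right_le_pair _ _
    omega
  choose h hh using hb
  obtain ⟨f, hfD, hf⟩ := hever (fun i => ∑ n ∈ Finset.range (i + 1), h n i)
  obtain ⟨n, u, hu, hxu, y, hyu, hyF⟩ := hcov (Sum.inr ⟨gr f, Or.inr ⟨f, hfD, rfl⟩⟩)
  rcases hu with ⟨k, rfl⟩ | ⟨a, rfl⟩
  · simp at hxu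
  · simp only [Set.mem_insert_iff, Sum.inr.injEq, Set.mem_image, reduceCtorEq, and_false,
      exists_false, or_false] at hxu
    subst hxu
    rcases hyu with rfl | ⟨m, ⟨hm, hmF⟩, rfl⟩
    · obtain ⟨k, hk⟩ := (hF n).1 hyF
      simp at hk
    · -- m ∈ gr f, outside the finite set, yet in F n
      have hfinite : {m | m ∈ gr f ∧ (Nat.unpair m).1 < n}.Finite := by
        apply Set.Finite.subset
          (Set.Finite.image (fun i => Nat.pair i (cd f i)) (Set.finite_lt_nat n))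
        rintro x ⟨⟨i, rfl⟩, hi⟩
        refine ⟨i, ?_, rfl⟩
        simpa using hi
      have hmF' : m ∉ {m | m ∈ gr f ∧ (Nat.unpair m).1 < n} := by
        simp only [Fs] at hmF
        rw [if_pos hfinite] at hmF
        exact hmF
      obtain ⟨i, rfl⟩ := hm
      have hni : n ≤ i := by
        by_contra hlt
        exact hmF' ⟨⟨i, rfl⟩, by simpa using not_le.1 hlt⟩
      have h1 := hh n i _ hyF
      have h2 : h n i ≤ ∑ n ∈ Finset.range (i + 1), h n i :=
        Finset.single_le_sum (f := fun n => h n i) (fun _ _ => Nat.zero_le _)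
          (by simp; omega)
      have h3 := hf i
      have h4 := le_cd f i
      omega

end Pool.Agent.S15353
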