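import Pool.Statements.S15363
import Pool.Agent.H765R3.ChainSearch

set_option autoImplicit false
open Polynomial
open Pool Pool.MP_cd9e74_lc

/-!
A polynomial of degree `789` with `12` product steps, while every addition chain for `789` has
length at least `13`.

With `G = x^16`, `A = x^4`, `B = x`, `P = (G + A)(G + B)`, `U = P^8`, `Q = U G`, `F = Q U` and
`E = (Q - P)(U + G + A + B)` one has `F - E = U A B + P (G + A + B)`, because
`G (G + A + B) - P = - A B`.  So one product step yields a polynomial of degree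
`deg U + deg A + deg B = 261`, and `F (F - E)` has degree `528 + 261 = 789`.
-/

namespace Pool.Agent.S15363

/-- the program -/
noncomputable def v : ℕ → Polynomial ℤ
  | 0 => 1
  | 1 => X
  | 2 => X ^ 2
  | 3 => X ^ 4
  | 4 => X ^ 8
  | 5 => X ^ 16
  | 6 => X ^ 16 + X ^ 4
  | 7 => X ^ 16 + X
  | 8 => (X ^ 16 + X ^ 4) * (X ^ 16 + X)
  | 9 => ((X ^ 16 + X ^ 4) * (X ^ 16 + X)) ^ 2
  | 10 => ((X ^ 16 + X ^ 4) * (X ^ 16 + X)) ^ 4
  | 11 => ((X ^ 16 + X ^ 4) * (X ^ 16 + X)) ^ 8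
  | 12 => ((X ^ 16 + X ^ 4) * (X ^ 16 + X)) ^ 8 * X ^ 16
  | 13 => ((X ^ 16 + X ^ 4) * (X ^ 16 + X)) ^ 16 * X ^ 16
  | 14 => ((X ^ 16 + X ^ 4) * (X ^ 16 + X)) ^ 8 * X ^ 16 - (X ^ 16 + X ^ 4) * (X ^ 16 + X)
  | 15 => ((X ^ 16 + X ^ 4) * (X ^ 16 + X)) ^ 8 + (X ^ 16 + X)
  | 16 => ((X ^ 16 + X ^ 4) * (X ^ 16 + X)) ^ 8 + (X ^ 16 + X) + X ^ 4
  | 17 => (((X ^ 16 + X ^ 4) * (X ^ 16 + X)) ^ 8 * X ^ 16 - (X ^ 16 + X ^ 4) * (X ^ 16 + X)) *
      (((X ^ 16 + X ^ 4) * (X ^ 16 + X)) ^ 8 + (X ^ 16 + X) + X ^ 4)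
  | 18 => ((X ^ 16 + X ^ 4) * (X ^ 16 + X)) ^ 8 * X ^ 5 +
      (X ^ 16 + X ^ 4) * (X ^ 16 + X) * (X ^ 16 + X ^ 4 + X)
  | 19 => (((X ^ 16 + X ^ 4) * (X ^ 16 + X)) ^ 16 * X ^ 16) *
      (((X ^ 16 + X ^ 4) * (X ^ 16 + X)) ^ 8 * X ^ 5 +
      (X ^ 16 + X ^ 4) * (X ^ 16 + X) * (X ^ 16 + X ^ 4 + X))
  | _ => 0

/-- the operations -/
def op : ℕ → Fin 3
  | 4 => 0
  | 5 => 0
  | 12 => 1
  | 13 => 0
  | 14 => 0
  | 16 => 1
  | _ => 2

/-- the first arguments -/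
def ia : ℕ → ℕ
  | 0 => 1
  | 1 => 2
  | 2 => 3
  | 3 => 4
  | 4 => 5
  | 5 => 5
  | 6 => 6
  | 7 => 8
  | 8 => 9
  | 9 => 10
  | 10 => 11
  | 11 => 12
  | 12 => 12
  | 13 => 11
  | 14 => 15
  | 15 => 14
  | 16 => 13
  | 17 => 13
  | _ => 0

/-- the second arguments -/
def ib : ℕ → ℕ
  | 0 => 1
  | 1 => 2
  | 2 => 3
  | 3 => 4
  | 4 => 3
  | 5 => 1
  | 6 => 7
  | 7 => 8
  | 8 => 9
  | 9 => 10
  | 10 => 5
  | 11 => 11
  | 12 => 8
  | 13 => 7
  | 14 => 3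
  | 15 => 16
  | 16 => 17
  | 17 => 18
  | _ => 0

theorem monic_P : ((X ^ 16 + X ^ 4) * (X ^ 16 + X) : Polynomial ℤ).Monic := by
  apply Monic.mul <;> monicity!

theorem natDegree_P : ((X ^ 16 + X ^ 4) * (X ^ 16 + X) : Polynomial ℤ).natDegree = 32 := by
  rw [Monic.natDegree_mul (by monicity!) (by monicity!)]
  have h1 : (X ^ 16 + X ^ 4 : Polynomial ℤ).natDegree = 16 := by compute_degree!
  have h2 : (X ^ 16 + X : Polynomial ℤ).natDegree = 16 := by compute_degree!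
  rw [h1, h2]

theorem monic_F : (((X ^ 16 + X ^ 4) * (X ^ 16 + X)) ^ 16 * X ^ 16 : Polynomial ℤ).Monic :=
  (monic_P.pow 16).mul (monic_X_pow 16)

theorem natDegree_F :
    (((X ^ 16 + X ^ 4) * (X ^ 16 + X)) ^ 16 * X ^ 16 : Polynomial ℤ).natDegree = 528 := by
  rw [(monic_P.pow 16).natDegree_mul (monic_X_pow 16), monic_P.natDegree_pow, natDegree_P,
    natDegree_X_pow]

theorem natDegree_W1 :
    (((X ^ 16 + X ^ 4) * (X ^ 16 + X)) ^ 8 * X ^ 5 : Polynomial ℤ).natDegree = 261 := by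
  rw [(monic_P.pow 8).natDegree_mul (monic_X_pow 5), monic_P.natDegree_pow, natDegree_P,
    natDegree_X_pow]

theorem natDegree_W2 :
    ((X ^ 16 + X ^ 4) * (X ^ 16 + X) * (X ^ 16 + X ^ 4 + X) : Polynomial ℤ).natDegree = 48 := by
  rw [monic_P.natDegree_mul (by monicity!), natDegree_P]
  have h1 : (X ^ 16 + X ^ 4 + X : Polynomial ℤ).natDegree = 16 := by compute_degree!
  rw [h1]

theorem monic_W : (((X ^ 16 + X ^ 4) * (X ^ 16 + X)) ^ 8 * X ^ 5 +
      (X ^ 16 + X ^ 4) * (X ^ 16 + X) * (X ^ 16 + X ^ 4 + X) : Polynomial ℤ).Monic := by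
  apply Monic.add_of_left ((monic_P.pow 8).mul (monic_X_pow 5))
  apply degree_lt_degree
  rw [natDegree_W1, natDegree_W2]
  norm_num

theorem natDegree_W : (((X ^ 16 + X ^ 4) * (X ^ 16 + X)) ^ 8 * X ^ 5 +
      (X ^ 16 + X ^ 4) * (X ^ 16 + X) * (X ^ 16 + X ^ 4 + X) : Polynomial ℤ).natDegree = 261 := by
  rw [natDegree_add_eq_left_of_natDegree_lt, natDegree_W1]
  rw [natDegree_W1, natDegree_W2]
  norm_num

theorem natDegree_q : (v 19).natDegree = 789 := by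
  show ((((X ^ 16 + X ^ 4) * (X ^ 16 + X)) ^ 16 * X ^ 16) *
      (((X ^ 16 + X ^ 4) * (X ^ 16 + X)) ^ 8 * X ^ 5 +
      (X ^ 16 + X ^ 4) * (X ^ 16 + X) * (X ^ 16 + X ^ 4 + X)) : Polynomial ℤ).natDegree = 789
  rw [monic_F.natDegree_mul monic_W, natDegree_F, natDegree_W]

/-- There is an integer polynomial q of degree at least 1, computed by a straight-line +,−,× program from 1 and x, whose number of product steps is smaller than the length of every addition chain for deg q. -/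
theorem result :
    ∃ (q : Polynomial ℤ) (m : ℕ) (v : ℕ → Polynomial ℤ) (op : ℕ → Fin 3) (a b : ℕ → ℕ),
      1 ≤ q.natDegree ∧
      v 0 = 1 ∧ v 1 = Polynomial.X ∧
      (∀ k, k < m →
        a k < k + 2 ∧ b k < k + 2 ∧
        (op k = 0 → v (k + 2) = v (a k) + v (b k)) ∧
        (op k = 1 → v (k + 2) = v (a k) - v (b k)) ∧
        (op k = 2 → v (k + 2) = v (a k) * v (b k))) ∧
      (∃ t, t < m + 2 ∧ v t = q) ∧
      (∀ (r : ℕ) (c : ℕ → ℕ),
        c 0 = 1 →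
        (∀ k, 1 ≤ k → k ≤ r → ∃ i j, i < k ∧ j < k ∧ c k = c i + c j) →
        c r = q.natDegree →
        ((Finset.range m).filter (fun k => op k = 2)).card < r) := by
  refine ⟨v 19, 18, v, op, ia, ib, ?_, rfl, rfl, ?_, ⟨19, by norm_num, rfl⟩, ?_⟩
  · rw [natDegree_q]; norm_num
  · intro k hk
    interval_cases k <;>
      refine ⟨by decide, by decide, fun h => ?_, fun h => ?_, fun h => ?_⟩ <;>
      first
        | exact absurd h (by decide)
        | (simp only [v, ia, ib]; done)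
        | (simp only [v, ia, ib]; ring)
  · intro r c h0 hc hr
    rw [natDegree_q] at hr
    have h := H765R3.ChainSearch.chain789 r c h0 hc hr
    have hcount : ((Finset.range 18).filter (fun k => op k = 2)).card = 12 := by decide
    rw [hcount]
    exact h

end Pool.Agent.S15363
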