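import Pool.Statements.S15395
import Pool.Agent.H641R3.PC.Final
import Pool.Agent.H641R3.PC.E

set_option autoImplicit false
open Pool Pool.MP_d2e85a_lc

namespace Pool.Agent.S15395

/-- For every noncomputable set B there is a B-computable set of binary strings whose infinite paths form a nonempty class, and every such path is Turing-incomparable with B. -/
theorem result :
    ∀ B : ℕ → Bool, ¬ Computable B →
      ∃ T : ℕ → Bool,
        RecursiveIn {fun n => Part.some (if B n then 1 else 0)}
          (fun n => Part.some (if T n then 1 else 0)) ∧
        (∃ f : ℕ → Bool, ∀ n : ℕ,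
          T (Encodable.encode (List.ofFn (fun i : Fin n => f i))) = true) ∧
        ∀ f : ℕ → Bool,
          (∀ n : ℕ, T (Encodable.encode (List.ofFn (fun i : Fin n => f i))) = true) →
            (¬ RecursiveIn {fun n => Part.some (if B n then 1 else 0)}
                (fun n => Part.some (if f n then 1 else 0)) ∧
             ¬ RecursiveIn {fun n => Part.some (if f n then 1 else 0)}
                (fun n => Part.some (if B n then 1 else 0))) := by
  exact Pool.Agent.H641R3.PC.main
    (fun h => Pool.Agent.H641R3.PC.treeA_computable h)
    (fun h e => Pool.Agent.H641R3.PC.treeQ_computable h e)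
    (fun h e j q => Pool.Agent.H641R3.PC.cq_computable h e j q)
    (fun h e j τ => Pool.Agent.H641R3.PC.apx_computable h e j τ)

end Pool.Agent.S15395
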