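import Pool.Statements.S15399
import Pool.Agent.H557R3.GLPTrans

set_option autoImplicit false
open Pool Pool.MP_d338c6_lc

namespace Pool.Agent.S15399

/-- In GLP, for every formula φ in variables p₀…p_{n−1}: if some substitution σ makes ⊢σψ equivalent to φ⊢ψ for all ψ (exact), then some σ has ⊢σφ and φ⊢pᵢ↔σpᵢ for all i (projective). -/
theorem result :
  ∀ (L : FirstOrder.Language.{0, 0}) (c0 : L.Functions 0) (cimp : L.Functions 2)
    (cbox : ℕ → L.Functions 1),
    (∀ f : L.Functions 0, f = c0) →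
    (∀ f : L.Functions 2, f = cimp) →
    Function.Bijective cbox →
    (∀ n : ℕ, 3 ≤ n → IsEmpty (L.Functions n)) →
    ∀ (bot : L.Term ℕ) (imp : L.Term ℕ → L.Term ℕ → L.Term ℕ) (box : ℕ → L.Term ℕ → L.Term ℕ),
    bot = FirstOrder.Language.Term.func c0 ![] →
    (∀ a b : L.Term ℕ, imp a b = FirstOrder.Language.Term.func cimp ![a, b]) →
    (∀ (k : ℕ) (a : L.Term ℕ), box k a = FirstOrder.Language.Term.func (cbox k) ![a]) →
    ∀ Der : Set (L.Term ℕ) → L.Term ℕ → Prop,
    (∀ (Γ : Set (L.Term ℕ)) (ψ : L.Term ℕ),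
      Der Γ ψ ↔
        ∀ S : Set (L.Term ℕ),
          Γ ⊆ S →
          (∀ a b, imp a (imp b a) ∈ S) →
          (∀ a b c, imp (imp a (imp b c)) (imp (imp a b) (imp a c)) ∈ S) →
          (∀ a, imp (imp (imp a bot) bot) a ∈ S) →
          (∀ (k : ℕ) a b, imp (box k (imp a b)) (imp (box k a) (box k b)) ∈ S) →
          (∀ (k : ℕ) a, imp (box k (imp (box k a) a)) (box k a) ∈ S) →
          (∀ (m k : ℕ) a, m ≤ k → imp (box m a) (box k a) ∈ S) →
          (∀ (m k : ℕ) a, m < k →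
            imp (imp (box m (imp a bot)) bot) (box k (imp (box m (imp a bot)) bot)) ∈ S) →
          (∀ a b, a ∈ S → imp a b ∈ S → b ∈ S) →
          (∀ (k : ℕ) a, a ∈ S → box k a ∈ S) →
          ψ ∈ S) →
    ∀ (n : ℕ) (φ : L.Term (Fin n)),
      (∃ σ : Fin n → L.Term ℕ,
        ∀ ψ : L.Term (Fin n),
          Der ∅ (ψ.subst σ) ↔ Der {φ.relabel Fin.val} (ψ.relabel Fin.val)) →
      ∃ σ : Fin n → L.Term ℕ,
        Der ∅ (φ.subst σ) ∧
        ∀ i : Fin n,
          Der {φ.relabel Fin.val}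
            (imp (FirstOrder.Language.Term.var i.val : L.Term ℕ) (σ i)) ∧
          Der {φ.relabel Fin.val}
            (imp (σ i) (FirstOrder.Language.Term.var i.val : L.Term ℕ)) := by
  intro L c0 cimp cbox h0 h2 h1 h3 bot imp box hbot himp hbox Der hDer n φ hσ
  -- abbreviation for the translation
  have hsurjN : ∀ t : L.Term ℕ, ∃ x : H557R3.GLP.Fm ℕ, H557R3.GLP.ofFm c0 cimp cbox x = t :=
    H557R3.GLP.ofFm_surj c0 cimp cbox h0 h2 h1 h3
  have hsurjF : ∀ t : L.Term (Fin n), ∃ x : H557R3.GLP.Fm (Fin n),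
      H557R3.GLP.ofFm c0 cimp cbox x = t :=
    H557R3.GLP.ofFm_surj c0 cimp cbox h0 h2 h1 h3
  have hinjN : Function.Injective (H557R3.GLP.ofFm (α := ℕ) c0 cimp cbox) :=
    H557R3.GLP.ofFm_inj c0 cimp cbox h1
  set F : H557R3.GLP.Fm ℕ → L.Term ℕ := H557R3.GLP.ofFm c0 cimp cbox with hF
  have hFbot : F H557R3.GLP.Fm.bot = bot := by rw [hbot]; rfl
  have hFimp : ∀ a b, F (H557R3.GLP.Fm.imp a b) = imp (F a) (F b) := by
    intro a b; rw [himp]; rfl
  have hFbox : ∀ k a, F (H557R3.GLP.Fm.box k a) = box k (F a) := by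
    intro k a; rw [hbox]; rfl
  -- derivability
  have hder : ∀ (Γ : Set (L.Term ℕ)) (x : H557R3.GLP.Fm ℕ),
      Der Γ (F x) ↔ H557R3.GLP.Der {a | F a ∈ Γ} x := by
    intro Γ x
    rw [hDer]
    constructor
    · intro h
      have key := h (F '' {a | H557R3.GLP.Der {a | F a ∈ Γ} a}) ?_ ?_ ?_ ?_ ?_ ?_ ?_ ?_ ?_ ?_
      · obtain ⟨a, ha, hax⟩ := key
        rw [← hinjN hax]
        exact ha
      · intro t ht
        obtain ⟨a, rfl⟩ := hsurjN t
        exact ⟨a, H557R3.GLP.Der.hyp ht, rfl⟩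
      · intro a b
        obtain ⟨a, rfl⟩ := hsurjN a
        obtain ⟨b, rfl⟩ := hsurjN b
        exact ⟨_, H557R3.GLP.Der.ax1 a b, by simp only [hFimp]⟩
      · intro a b c
        obtain ⟨a, rfl⟩ := hsurjN a
        obtain ⟨b, rfl⟩ := hsurjN b
        obtain ⟨c, rfl⟩ := hsurjN c
        exact ⟨_, H557R3.GLP.Der.ax2 a b c, by simp only [hFimp]⟩
      · intro a
        obtain ⟨a, rfl⟩ := hsurjN a
        exact ⟨_, H557R3.GLP.Der.ax3 a, by simp only [hFimp, hFbot]⟩
      · intro k a b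
        obtain ⟨a, rfl⟩ := hsurjN a
        obtain ⟨b, rfl⟩ := hsurjN b
        exact ⟨_, H557R3.GLP.Der.axK k a b, by simp only [hFimp, hFbox]⟩
      · intro k a
        obtain ⟨a, rfl⟩ := hsurjN a
        exact ⟨_, H557R3.GLP.Der.axL k a, by simp only [hFimp, hFbox]⟩
      · intro m k a hmk
        obtain ⟨a, rfl⟩ := hsurjN a
        exact ⟨_, H557R3.GLP.Der.axM m k a hmk, by simp only [hFimp, hFbox]⟩
      · intro m k a hmk
        obtain ⟨a, rfl⟩ := hsurjN a
        exact ⟨_, H557R3.GLP.Der.axN m k a hmk, by simp only [hFimp, hFbox, hFbot]⟩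
      · rintro a b ⟨a', ha', rfl⟩ ⟨c, hc, hcb⟩
        obtain ⟨b', rfl⟩ := hsurjN b
        rw [← hFimp] at hcb
        rw [hinjN hcb] at hc
        exact ⟨b', H557R3.GLP.Der.mp ha' hc, rfl⟩
      · rintro k a ⟨a', ha', rfl⟩
        exact ⟨_, H557R3.GLP.Der.nec k ha', by simp only [hFbox]⟩
    · intro h S hΓ s1 s2 s3 s4 s5 s6 s7 s8 s9
      induction h with
      | hyp h => exact hΓ h
      | ax1 a b => simp only [hFimp]; exact s1 _ _
      | ax2 a b c => simp only [hFimp]; exact s2 _ _ _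
      | ax3 a => simp only [hFimp, hFbot]; exact s3 _
      | axK k a b => simp only [hFimp, hFbox]; exact s4 _ _ _
      | axL k a => simp only [hFimp, hFbox]; exact s5 _ _
      | axM m k a h => simp only [hFimp, hFbox]; exact s6 _ _ _ h
      | axN m k a h => simp only [hFimp, hFbox, hFbot]; exact s7 _ _ _ h
      | mp _ _ ih1 ih2 =>
        rw [hFimp] at ih2
        exact s8 _ _ ih1 ih2
      | nec k _ ih =>
        rw [hFbox]
        exact s9 _ _ ih
  -- the formula and the exact substitution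
  obtain ⟨φ', rfl⟩ := hsurjF φ
  obtain ⟨σ, hσ⟩ := hσ
  choose σ' hσ' using fun i => hsurjN (σ i)
  have hsub : ∀ (f : Fin n → H557R3.GLP.Fm ℕ) (x : H557R3.GLP.Fm (Fin n)),
      (H557R3.GLP.ofFm c0 cimp cbox x).subst (fun i => F (f i)) = F (x.subst f) := by
    intro f x
    exact (H557R3.GLP.ofFm_subst c0 cimp cbox f x).symm
  have hrel : ∀ x : H557R3.GLP.Fm (Fin n),
      (H557R3.GLP.ofFm c0 cimp cbox x).relabel Fin.val =
        F (x.subst fun i => H557R3.GLP.Fm.var i.val) := by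
    intro x
    exact (H557R3.GLP.ofFm_relabel c0 cimp cbox Fin.val x).symm
  have hσeq : σ = fun i => F (σ' i) := funext fun i => (hσ' i).symm
  have hset : ∀ x : H557R3.GLP.Fm ℕ, {a | F a ∈ ({F x} : Set (L.Term ℕ))} = {x} := by
    intro x
    ext a
    constructor
    · intro h
      exact hinjN h
    · intro h
      rw [Set.mem_singleton_iff.1 h]
      exact Set.mem_singleton _
  have hset0 : {a | F a ∈ (∅ : Set (L.Term ℕ))} = ∅ := by
    ext a
    simp
  -- transfer of the exactness hypothesis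
  have hσ2 : ∀ x : H557R3.GLP.Fm (Fin n), H557R3.GLP.Der ∅ (x.subst σ') ↔
      H557R3.GLP.Der {φ'.subst fun i => H557R3.GLP.Fm.var i.val}
        (x.subst fun i => H557R3.GLP.Fm.var i.val) := by
    intro x
    have h := hσ (H557R3.GLP.ofFm c0 cimp cbox x)
    rw [hσeq, hsub, hrel, hrel, hder, hder, hset, hset0] at h
    exact h
  -- back to the language with `n` variables
  have hback : ∀ x y : H557R3.GLP.Fm (Fin n),
      H557R3.GLP.Der {y.subst fun i => H557R3.GLP.Fm.var i.val}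
        (x.subst fun i => H557R3.GLP.Fm.var i.val) → H557R3.GLP.Der {y} x := by
    intro x y h
    let g : ℕ → H557R3.GLP.Fm (Fin n) := fun i =>
      if hi : i < n then H557R3.GLP.Fm.var ⟨i, hi⟩ else H557R3.GLP.Fm.bot
    have hg : ∀ z : H557R3.GLP.Fm (Fin n),
        (z.subst fun i => (H557R3.GLP.Fm.var i.val : H557R3.GLP.Fm ℕ)).subst g = z := by
      intro z
      rw [H557R3.GLP.Fm.subst_subst]
      have : (fun i : Fin n => (H557R3.GLP.Fm.var i.val : H557R3.GLP.Fm ℕ).subst g) =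
          H557R3.GLP.Fm.var := by
        funext i
        simp [g]
      rw [this, H557R3.GLP.Fm.subst_id]
    have h2 := H557R3.GLP.Der.subst (Δ := {y}) g (by
      intro a ha
      rw [Set.mem_singleton_iff.1 ha, hg]
      exact H557R3.GLP.Der.hyp rfl) h
    rwa [hg] at h2
  obtain ⟨T, hT1, hT2⟩ := H557R3.GLP.exact_projective φ' σ'
    ((hσ2 φ').2 (H557R3.GLP.Der.hyp rfl)) (fun ψ h => hback ψ φ' ((hσ2 ψ).1 h))
  refine ⟨fun i => F ((T i).subst fun j => H557R3.GLP.Fm.var j.val), ?_, ?_⟩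
  · rw [hsub, hder, hset0, ← H557R3.GLP.Fm.subst_subst]
    exact hT1.subst' _
  · intro i
    have hvar : (FirstOrder.Language.Term.var i.val : L.Term ℕ) =
        F (H557R3.GLP.Fm.var i.val) := rfl
    have hup : ∀ x : H557R3.GLP.Fm (Fin n), H557R3.GLP.Der {φ'} x →
        H557R3.GLP.Der {φ'.subst fun i => (H557R3.GLP.Fm.var i.val : H557R3.GLP.Fm ℕ)}
          (x.subst fun i => H557R3.GLP.Fm.var i.val) := by
      intro x h
      refine H557R3.GLP.Der.subst _ ?_ h
      intro a ha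
      rw [Set.mem_singleton_iff.1 ha]
      exact H557R3.GLP.Der.hyp rfl
    constructor
    · rw [hvar, hrel, ← hFimp, hder, hset]
      exact hup _ (hT2 i).1
    · rw [hvar, hrel, ← hFimp, hder, hset]
      exact hup _ (hT2 i).2

end Pool.Agent.S15399
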