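import Pool.Statements.S15401
-- import your own Pool.Agent.* helpers here

set_option autoImplicit false
open Filter Topology
open Pool Pool.MP_d33a1c_lc

namespace Pool.Agent.S15401

/-- agreement of two sets of integers below `n` -/
def Agree (n : ℕ) (S T : Set ℕ) : Prop := ∀ q < n, (q ∈ S ↔ q ∈ T)

lemma Agree.refl (n : ℕ) (S : Set ℕ) : Agree n S S := fun _ _ => Iff.rfl

lemma Agree.symm {n : ℕ} {S T : Set ℕ} (h : Agree n S T) : Agree n T S :=
  fun q hq => (h q hq).symm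

lemma Agree.trans {n : ℕ} {S T U : Set ℕ} (h : Agree n S T) (h' : Agree n T U) : Agree n S U :=
  fun q hq => (h q hq).trans (h' q hq)

lemma Agree.mono {m n : ℕ} {S T : Set ℕ} (h : Agree n S T) (hm : m ≤ n) : Agree m S T :=
  fun q hq => h q (lt_of_lt_of_le hq hm)

/-- combinatorial closedness -/
def Cl (E : Set (Set ℕ)) : Prop := ∀ S, S ∉ E → ∃ l, ∀ S', Agree l S' S → S' ∉ E

/-- limits of coherent sequences -/
lemma exists_limit (b : ℕ → Set ℕ) (m : ℕ → ℕ) (hm : ∀ n, m n < m (n+1))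
    (h : ∀ n, Agree (m n) (b (n+1)) (b n)) :
    ∃ T : Set ℕ, ∀ n, Agree (m n) T (b n) := by
  have hmono : StrictMono m := strictMono_nat_of_lt_succ hm
  have hcoh : ∀ n k, Agree (m n) (b (n+k)) (b n) := by
    intro n k
    induction k with
    | zero => exact Agree.refl _ _
    | succ k ih =>
      have h1 : Agree (m n) (b (n+k+1)) (b (n+k)) :=
        (h (n+k)).mono (hmono.monotone (Nat.le_add_right n k))
      exact h1.trans ih
  have hcoh' : ∀ n n', n ≤ n' → Agree (m n) (b n') (b n) := by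
    intro n n' hn
    obtain ⟨k, rfl⟩ := Nat.exists_eq_add_of_le hn
    exact hcoh n k
  refine ⟨{q | q ∈ b (q+1)}, ?_⟩
  intro n q hq
  have hq1 : q < m (q+1) := lt_of_lt_of_le (Nat.lt_succ_self q) (hmono.id_le (q+1))
  show q ∈ b (q+1) ↔ q ∈ b n
  rcases le_total n (q+1) with hle | hle
  · exact hcoh' n (q+1) hle q hq
  · exact (hcoh' (q+1) n hle q hq1).symm

section Step1

variable (I : Set (Set ℕ)) (E : ℕ → ℕ → Set (Set ℕ))

/-- `E` contains no cone `[b', k'; A]` inside `[b, k; A]` -/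
def NoInt (F : Set (Set ℕ)) (b : Set ℕ) (k : ℕ) (A : Set ℕ) : Prop :=
  ∀ k' ≥ k, ∀ b' : Set ℕ, Agree k b' b → (∀ q ∈ b', k ≤ q → q ∈ A) →
    ∃ t : Set ℕ, Agree k' t b' ∧ (∀ q ∈ t, k' ≤ q → q ∈ A) ∧ t ∉ F

lemma step1 (hun : ∀ A ∈ I, ∀ B ∈ I, A ∪ B ∈ I)
    (hI : ∀ S, S ∈ I ↔ ∀ i, ∃ j, S ∈ E i j) (A : Set ℕ) (hA : A ∉ I) :
    ∃ (i : ℕ) (b : Finset ℕ) (k : ℕ), ∀ j, NoInt (E i j) (↑b) k A := by
  by_contra hcon
  push Not at hcon
  -- every cone contains a subcone inside some `E i j`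
  have key : ∀ (i : ℕ) (b : Set ℕ) (k : ℕ), ∃ (b' : Set ℕ) (k' : ℕ), k ≤ k' ∧ Agree k b' b ∧
      (∀ q ∈ b', k ≤ q → q ∈ A) ∧
      (∃ j, ∀ T, Agree k' T b' → (∀ q ∈ T, k' ≤ q → q ∈ A) → T ∈ E i j) := by
    intro i b k
    have hfin : {q | q ∈ b ∧ q < k}.Finite := (Set.finite_lt_nat k).subset (fun q hq => hq.2)
    obtain ⟨j, hj⟩ := hcon i hfin.toFinset k
    unfold NoInt at hj
    push Not at hj
    obtain ⟨k', hk', b', hb', hb'A, hj⟩ := hj
    refine ⟨b', k', hk', ?_, hb'A, j, ?_⟩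
    · intro q hq
      rw [hb' q hq]
      simp [hq]
    · intro T hT hTA
      exact hj T hT hTA
  -- one step of the construction
  have step : ∀ (i : ℕ) (s : Set ℕ × ℕ), ∃ s' : Set ℕ × ℕ, (∀ q ∈ s.1, q ∈ A) →
      (s.2 < s'.2 ∧ Agree s.2 s'.1 s.1 ∧ (∀ q ∈ s'.1, q ∈ A) ∧
        (∃ j, ∀ T, Agree s'.2 T s'.1 → (∀ q ∈ T, q ∈ A) → T ∈ E i j) ∧
        (∃ j, ∀ T, Agree s'.2 T (A \ s'.1) → (∀ q ∈ T, q ∈ A) → T ∈ E i j)) := by
    rintro i ⟨b, k⟩
    obtain ⟨b1, k1, hk1, hb1, hb1A, j1, hj1⟩ := key i b k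
    obtain ⟨b2, k2, hk2, hb2, hb2A, j2, hj2⟩ := key i (A \ b1) (k1)
    refine ⟨({q | q ∈ A ∧ (q < k1 → q ∈ b1) ∧ (k1 ≤ q → q ∉ b2)}, k2 + 1), ?_⟩
    intro hbA
    simp only at hbA
    refine ⟨by simp only; omega, ?_, fun q hq => hq.1, ⟨j1, ?_⟩, ⟨j2, ?_⟩⟩
    · intro q hq
      simp only at hq
      have hq1 : q < k1 := by omega
      have hnq : ¬ (k1 ≤ q) := by omega
      show (q ∈ A ∧ (q < k1 → q ∈ b1) ∧ (k1 ≤ q → q ∉ b2)) ↔ q ∈ b
      constructor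
      · rintro ⟨_, h2, _⟩
        exact (hb1 q hq).mp (h2 hq1)
      · intro h
        exact ⟨hbA q h, fun _ => (hb1 q hq).mpr h, fun hc => absurd hc hnq⟩
    · intro T hT hTA
      apply hj1 T
      · intro q hq
        have hqk : q < k2 + 1 := by omega
        rw [hT q hqk]
        have hnq : ¬ (k1 ≤ q) := by omega
        show (q ∈ A ∧ (q < k1 → q ∈ b1) ∧ (k1 ≤ q → q ∉ b2)) ↔ q ∈ b1
        constructor
        · rintro ⟨_, h2, _⟩; exact h2 hq
        · intro h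
          refine ⟨?_, fun _ => h, fun hc => absurd hc hnq⟩
          by_cases hqk0 : q < k
          · exact hbA q ((hb1 q hqk0).mp h)
          · exact hb1A q h (not_lt.mp hqk0)
      · intro q hq _
        exact hTA q hq
    · intro T hT hTA
      apply hj2 T
      · intro q hq
        rw [hT q (by simp only; omega)]
        by_cases hq1 : q < k1
        · rw [hb2 q hq1]
          have hnq : ¬ (k1 ≤ q) := by omega
          show (q ∈ A ∧ ¬ (q ∈ A ∧ (q < k1 → q ∈ b1) ∧ (k1 ≤ q → q ∉ b2))) ↔ (q ∈ A ∧ q ∉ b1)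
          constructor
          · rintro ⟨h1, h2⟩
            refine ⟨h1, fun h3 => h2 ⟨h1, fun _ => h3, fun hc => absurd hc hnq⟩⟩
          · rintro ⟨h1, h2⟩
            exact ⟨h1, fun h3 => h2 (h3.2.1 hq1)⟩
        · have hq1' : k1 ≤ q := not_lt.mp hq1
          show (q ∈ A ∧ ¬ (q ∈ A ∧ (q < k1 → q ∈ b1) ∧ (k1 ≤ q → q ∉ b2))) ↔ q ∈ b2
          constructor
          · rintro ⟨h1, h2⟩
            by_contra h3
            exact h2 ⟨h1, fun hc => absurd hc hq1, fun _ => h3⟩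
          · intro h
            exact ⟨hb2A q h hq1', fun h3 => h3.2.2 hq1' h⟩
      · intro q hq _
        exact hTA q hq
  choose f hf using step
  let s : ℕ → Set ℕ × ℕ := fun n => Nat.rec (∅, 0) (fun n s => f n s) n
  have hsS : ∀ n, s (n+1) = f n (s n) := fun n => rfl
  have hinv : ∀ n, ∀ q ∈ (s n).1, q ∈ A := by
    intro n
    induction n with
    | zero => intro q hq; exact absurd hq (Set.notMem_empty q)
    | succ n ih => rw [hsS]; exact (hf n (s n) ih).2.2.1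
  have hR : ∀ n, (s n).2 < (s (n+1)).2 ∧ Agree (s n).2 (s (n+1)).1 (s n).1 ∧
        (∃ j, ∀ T, Agree (s (n+1)).2 T (s (n+1)).1 → (∀ q ∈ T, q ∈ A) → T ∈ E n j) ∧
        (∃ j, ∀ T, Agree (s (n+1)).2 T (A \ (s (n+1)).1) → (∀ q ∈ T, q ∈ A) → T ∈ E n j) := by
    intro n
    have := hf n (s n) (hinv n)
    rw [← hsS] at this
    exact ⟨this.1, this.2.1, this.2.2.2.1, this.2.2.2.2⟩
  obtain ⟨T, hT⟩ := exists_limit (fun n => (s n).1) (fun n => (s n).2) (fun n => (hR n).1)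
    (fun n => (hR n).2.1)
  have hm : StrictMono (fun n => (s n).2) := strictMono_nat_of_lt_succ (fun n => (hR n).1)
  have hTA : ∀ q ∈ T, q ∈ A := by
    intro q hq
    have h1 : q < (s (q+1)).2 := lt_of_lt_of_le (Nat.lt_succ_self q) (hm.id_le (q+1))
    exact hinv (q+1) q ((hT (q+1) q h1).mp hq)
  have hT1 : T ∈ I := by
    rw [hI]
    intro i
    obtain ⟨j, hj⟩ := (hR i).2.2.1
    exact ⟨j, hj T (hT (i+1)) hTA⟩
  have hT2 : A \ T ∈ I := by
    rw [hI]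
    intro i
    obtain ⟨j, hj⟩ := (hR i).2.2.2
    refine ⟨j, hj (A \ T) ?_ (fun q hq => hq.1)⟩
    intro q hq
    have := hT (i+1) q hq
    simp only [Set.mem_sdiff]
    rw [this]
  apply hA
  have : T ∪ (A \ T) = A := by
    ext q
    constructor
    · rintro (h | h)
      · exact hTA q h
      · exact h.1
    · intro h
      by_cases hq : q ∈ T
      · left; exact hq
      · right; exact ⟨h, hq⟩
  rw [← this]
  exact hun T hT1 _ hT2

end Step1

section Baire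

variable {X : Type} [TopologicalSpace X] [SecondCountableTopology X]

/-- `x` restricted to `A` converges to `ζ` -/
def Tends (x : ℕ → X) (A : Set ℕ) (ζ : X) : Prop :=
  ∀ V : Set X, IsOpen V → ζ ∈ V → ∃ k, ∀ q ∈ A, k ≤ q → x q ∈ V

lemma baire_lemma (x : ℕ → X) (I : Set (Set ℕ)) (F : ℕ → Set (Set ℕ)) (hF : ∀ j, Cl (F j))
    (hIF : ∀ S ∈ I, ∃ j, S ∈ F j) (η : X) (hη : ∀ A, Tends x A η → A ∈ I)
    (V : Set X) (hV : IsOpen V) (hηV : η ∈ V) (b : Set ℕ) (m : ℕ) :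
    ∃ (b' : Set ℕ) (m' : ℕ) (V' : Set X), m < m' ∧ IsOpen V' ∧ η ∈ V' ∧ V' ⊆ V ∧
      Agree m b' b ∧ (∀ q ∈ b', m ≤ q → q < m' → x q ∈ V) ∧
      (∀ S, Agree m' S b' → (∀ q ∈ S, m' ≤ q → x q ∈ V') → ∃ j, S ∈ F j) := by
  by_contra hcon
  push Not at hcon
  obtain ⟨W, hW⟩ := (nhds_basis_opens η).exists_antitone_subbasis
  -- state: (b, m, V)
  have step : ∀ (j : ℕ) (s : Set ℕ × ℕ × Set X), ∃ s' : Set ℕ × ℕ × Set X,
      (m < s.2.1 ∧ IsOpen s.2.2 ∧ η ∈ s.2.2 ∧ s.2.2 ⊆ V ∧ Agree m s.1 b ∧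
        (∀ q ∈ s.1, m ≤ q → q < s.2.1 → x q ∈ V)) →
      ((m < s'.2.1 ∧ IsOpen s'.2.2 ∧ η ∈ s'.2.2 ∧ s'.2.2 ⊆ V ∧ Agree m s'.1 b ∧
        (∀ q ∈ s'.1, m ≤ q → q < s'.2.1 → x q ∈ V)) ∧
        s.2.1 < s'.2.1 ∧ Agree s.2.1 s'.1 s.1 ∧ s'.2.2 ⊆ s.2.2 ∧ s'.2.2 ⊆ W j ∧
        (∀ q ∈ s'.1, s.2.1 ≤ q → x q ∈ s'.2.2) ∧
        (∀ S, Agree s'.2.1 S s'.1 → S ∉ F j)) := by
    rintro j ⟨b1, m1, V1⟩
    by_cases hinv : (m < m1 ∧ IsOpen V1 ∧ η ∈ V1 ∧ V1 ⊆ V ∧ Agree m b1 b ∧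
        (∀ q ∈ b1, m ≤ q → q < m1 → x q ∈ V))
    · obtain ⟨h1, h2, h3, h4, h5, h6⟩ := hinv
      have hWj := hW.1 j
      obtain ⟨hWη, hWo⟩ := hWj
      obtain ⟨S, hS1, hS2, hS3⟩ := hcon b1 m1 (V1 ∩ W j) h1 (h2.inter hWo) ⟨h3, hWη⟩
        (Set.inter_subset_left.trans h4) h5 h6
      obtain ⟨l, hl⟩ := hF j S (hS3 j)
      refine ⟨(S, max l (m1+1), V1 ∩ W j), fun _ => ⟨⟨?_, h2.inter hWo, ⟨h3, hWη⟩,
        Set.inter_subset_left.trans h4, ?_, ?_⟩, ?_, hS1, Set.inter_subset_left,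
        Set.inter_subset_right, hS2, ?_⟩⟩
      · simp only; omega
      · exact (hS1.mono h1.le).trans h5
      · intro q hq hmq _
        by_cases hq1 : q < m1
        · exact h6 q ((hS1 q hq1).mp hq) hmq hq1
        · exact h4 (hS2 q hq (not_lt.mp hq1)).1
      · simp only; omega
      · intro S' hS'
        exact hl S' (hS'.mono (le_max_left _ _))
    · exact ⟨(b1, m1, V1), fun h => absurd h hinv⟩
  choose f hf using step
  let s : ℕ → Set ℕ × ℕ × Set X := fun n =>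
    Nat.rec ({q | q ∈ b ∧ q < m}, m + 1, V) (fun n s => f n s) n
  have hs0 : s 0 = ({q | q ∈ b ∧ q < m}, m + 1, V) := rfl
  have hsS : ∀ n, s (n+1) = f n (s n) := fun n => rfl
  have hinv : ∀ n, (m < (s n).2.1 ∧ IsOpen (s n).2.2 ∧ η ∈ (s n).2.2 ∧ (s n).2.2 ⊆ V ∧
      Agree m (s n).1 b ∧ (∀ q ∈ (s n).1, m ≤ q → q < (s n).2.1 → x q ∈ V)) := by
    intro n
    induction n with
    | zero =>
      rw [hs0]
      refine ⟨by simp only; omega, hV, hηV, subset_rfl, ?_, ?_⟩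
      · intro q hq
        simp [hq]
      · rintro q ⟨_, hq⟩ h2 _
        omega
    | succ n ih => rw [hsS]; exact (hf n (s n) ih).1
  have hR : ∀ n, (s n).2.1 < (s (n+1)).2.1 ∧ Agree (s n).2.1 (s (n+1)).1 (s n).1 ∧
      (s (n+1)).2.2 ⊆ (s n).2.2 ∧ (s (n+1)).2.2 ⊆ W n ∧
        (∀ q ∈ (s (n+1)).1, (s n).2.1 ≤ q → x q ∈ (s (n+1)).2.2) ∧
        (∀ S, Agree (s (n+1)).2.1 S (s (n+1)).1 → S ∉ F n) := by
    intro n
    have := hf n (s n) (hinv n)
    rw [← hsS] at this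
    exact this.2
  obtain ⟨T, hT⟩ := exists_limit (fun n => (s n).1) (fun n => (s n).2.1) (fun n => (hR n).1)
    (fun n => (hR n).2.1)
  have hm : StrictMono (fun n => (s n).2.1) := strictMono_nat_of_lt_succ (fun n => (hR n).1)
  have hTF : ∀ j, T ∉ F j := fun j => (hR j).2.2.2.2.2 T (hT (j+1))
  have hVanti : Antitone (fun n => (s n).2.2) := antitone_nat_of_succ_le (fun n => (hR n).2.2.1)
  have hTn : ∀ n, ∀ q ∈ T, (s n).2.1 ≤ q → x q ∈ (s (n+1)).2.2 := by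
    intro n q hq hnq
    -- find the stage at which q is decided
    have hex : ∃ p, q < (s p).2.1 := ⟨q+1, lt_of_lt_of_le (Nat.lt_succ_self q) (hm.id_le (q+1))⟩
    classical
    obtain ⟨p, hp, hmin⟩ : ∃ p, q < (s p).2.1 ∧ ∀ p' < p, ¬ (q < (s p').2.1) :=
      ⟨Nat.find hex, Nat.find_spec hex, fun p' hp' => Nat.find_min hex hp'⟩
    have hpn : n < p := by
      by_contra hc
      have : (s p).2.1 ≤ (s n).2.1 := hm.monotone (not_lt.mp hc)
      omega
    obtain ⟨p', rfl⟩ : ∃ p', p = p' + 1 := ⟨p - 1, by omega⟩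
    have hq1 : (s p').2.1 ≤ q := not_lt.mp (hmin p' (Nat.lt_succ_self p'))
    have hq2 : q ∈ (s (p'+1)).1 := (hT (p'+1) q hp).mp hq
    have hq3 := (hR p').2.2.2.2.1 q hq2 hq1
    exact hVanti (show n + 1 ≤ p' + 1 by omega) hq3
  have hTend : Tends x T η := by
    intro U hU hηU
    obtain ⟨j, hj⟩ := hW.2.mem_iff.mp (hU.mem_nhds hηU)
    refine ⟨(s j).2.1, fun q hq hjq => hj ?_⟩
    exact (hR j).2.2.2.1 (hTn j q hq hjq)
  obtain ⟨j, hj⟩ := hIF T (hη T hTend)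
  exact hTF j hj

end Baire

section Main

variable {X : Type} [TopologicalSpace X]

/-- covered by an F-sigma subset of `L` -/
def Small (L Y : Set X) : Prop :=
  ∃ D : Set (Set X), D.Countable ∧ (∀ d ∈ D, IsClosed d) ∧ Y ⊆ ⋃₀ D ∧ ⋃₀ D ⊆ L

lemma Small.mono {L Y Y' : Set X} (h : Small L Y) (hY : Y' ⊆ Y) : Small L Y' := by
  obtain ⟨D, h1, h2, h3, h4⟩ := h
  exact ⟨D, h1, h2, hY.trans h3, h4⟩

lemma Small.iUnion {L : Set X} {ι : Type} [Countable ι] {Y : ι → Set X}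
    (h : ∀ i, Small L (Y i)) : Small L (⋃ i, Y i) := by
  choose D h1 h2 h3 h4 using h
  refine ⟨⋃ i, D i, Set.countable_iUnion h1, ?_, ?_, ?_⟩
  · intro d hd
    obtain ⟨i, hi⟩ := Set.mem_iUnion.mp hd
    exact h2 i d hi
  · apply Set.iUnion_subset
    intro i q hq
    obtain ⟨d, hd, hqd⟩ := h3 i hq
    exact ⟨d, Set.mem_iUnion.mpr ⟨i, hd⟩, hqd⟩
  · rintro q ⟨d, hd, hqd⟩
    obtain ⟨i, hi⟩ := Set.mem_iUnion.mp hd
    exact h4 i ⟨d, hi, hqd⟩

lemma Small.union {L Y Y' : Set X} (h : Small L Y) (h' : Small L Y') : Small L (Y ∪ Y') := by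
  rw [Set.union_eq_iUnion]
  apply Small.iUnion
  intro b
  cases b
  · exact h'
  · exact h

lemma small_of_closure {L Y : Set X} (h : closure Y ⊆ L) : Small L Y :=
  ⟨{closure Y}, Set.countable_singleton _, by
    intro d hd; rw [Set.mem_singleton_iff] at hd; rw [hd]; exact isClosed_closure, by
    rw [Set.sUnion_singleton]; exact subset_closure, by rw [Set.sUnion_singleton]; exact h⟩

/-- the derivative: either the projection is small or there is a nonempty kernel -/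
lemma exists_kernel [SecondCountableTopology X] (L : Set X) (Z : Set (Set ℕ × X))
    (hns : ¬ Small L (Prod.snd '' Z)) :
    ∃ Z1 : Set (Set ℕ × X), Z1 ⊆ Z ∧ Z1.Nonempty ∧
      ∀ z ∈ Z1, ∀ (l : ℕ) (V : Set X), IsOpen V → z.2 ∈ V →
        ∃ η, η ∉ L ∧ η ∈ closure (Prod.snd '' (Z1 ∩ {p | Agree l p.1 z.1 ∧ p.2 ∈ V})) := by
  let ι := ℕ × Finset ℕ × (TopologicalSpace.countableBasis X)
  haveI : Countable (TopologicalSpace.countableBasis X) :=
    (TopologicalSpace.countable_countableBasis X).to_subtype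
  let O : ι → Set (Set ℕ × X) := fun i => {p | Agree i.1 p.1 (↑i.2.1) ∧ p.2 ∈ (i.2.2 : Set X)}
  let Z1 : Set (Set ℕ × X) := {z | z ∈ Z ∧ ∀ i, z ∈ O i → ¬ Small L (Prod.snd '' (Z ∩ O i))}
  let κ := {i : ι // Small L (Prod.snd '' (Z ∩ O i))}
  have hκ : Small L (⋃ i : κ, Prod.snd '' (Z ∩ O i.1)) := Small.iUnion (fun i => i.2)
  have hcover : ∀ P : Set (Set ℕ × X), Prod.snd '' (Z ∩ P) ⊆
      Prod.snd '' (Z1 ∩ P) ∪ (⋃ i : κ, Prod.snd '' (Z ∩ O i.1)) := by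
    rintro P _ ⟨z, ⟨hz, hzP⟩, rfl⟩
    by_cases h : z ∈ Z1
    · left; exact ⟨z, ⟨h, hzP⟩, rfl⟩
    · right
      have h' : ∃ i, z ∈ O i ∧ Small L (Prod.snd '' (Z ∩ O i)) := by
        by_contra hc
        push Not at hc
        exact h ⟨hz, hc⟩
      obtain ⟨i, hi, hs⟩ := h'
      exact Set.mem_iUnion.mpr ⟨⟨i, hs⟩, z, ⟨hz, hi⟩, rfl⟩
  refine ⟨Z1, fun z hz => hz.1, ?_, ?_⟩
  · by_contra hemp
    rw [Set.not_nonempty_iff_eq_empty] at hemp
    apply hns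
    have := hcover Set.univ
    rw [hemp] at this
    simp only [Set.inter_univ, Set.image_empty, Set.empty_union] at this
    exact hκ.mono this
  · intro z hz l V hV hzV
    obtain ⟨U, hU, hzU, hUV⟩ :=
      (TopologicalSpace.isBasis_countableBasis X).exists_subset_of_mem_open hzV hV
    have hfin : {q | q ∈ z.1 ∧ q < l}.Finite := (Set.finite_lt_nat l).subset (fun q hq => hq.2)
    let i : ι := (l, hfin.toFinset, ⟨U, hU⟩)
    have hag : Agree l z.1 (↑hfin.toFinset) := by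
      intro q hq
      simp [hq]
    have hzi : z ∈ O i := ⟨hag, hzU⟩
    have h1 : ¬ Small L (Prod.snd '' (Z1 ∩ O i)) := by
      intro hs
      exact hz.2 i hzi ((hs.union hκ).mono (hcover (O i)))
    have h2 : ¬ (closure (Prod.snd '' (Z1 ∩ O i)) ⊆ L) := fun hc => h1 (small_of_closure hc)
    obtain ⟨η, hη1, hη2⟩ := Set.not_subset.mp h2
    refine ⟨η, hη2, closure_mono ?_ hη1⟩
    apply Set.image_mono
    rintro p ⟨hp1, hp2, hp3⟩
    exact ⟨hp1, hp2.trans hag.symm, hUV hp3⟩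

/-- states of the fusion -/
structure St (X : Type) where
  A : Set ℕ
  ζ : X
  b : Set ℕ
  t : Set ℕ
  m : ℕ
  V : Set X

lemma main_small [SecondCountableTopology X] [RegularSpace X] (x : ℕ → X)
    (I : Set (Set ℕ)) (E : ℕ → ℕ → Set (Set ℕ)) (hE : ∀ i j, Cl (E i j))
    (hdown : ∀ A ∈ I, ∀ B : Set ℕ, B ⊆ A → B ∈ I)
    (hun : ∀ A ∈ I, ∀ B ∈ I, A ∪ B ∈ I)
    (hfin : ∀ A : Set ℕ, A.Finite → A ∈ I)
    (hI : ∀ S, S ∈ I ↔ ∀ i, ∃ j, S ∈ E i j)
    (L : Set X) (hL : L = {ζ | ∃ A, A ∉ I ∧ Tends x A ζ})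
    (i : ℕ) (b0 : Set ℕ) (k : ℕ) (Z : Set (Set ℕ × X))
    (hZ : ∀ z ∈ Z, Tends x z.1 z.2 ∧ ∀ j, NoInt (E i j) b0 k z.1) :
    Small L (Prod.snd '' Z) := by
  by_contra hns
  obtain ⟨Z1, hZ1, ⟨z0, hz0⟩, hker⟩ := exists_kernel L Z hns
  have step : ∀ (n : ℕ) (s : St X), ∃ s' : St X,
      ((s.A, s.ζ) ∈ Z1 ∧ IsOpen s.V ∧ s.ζ ∈ s.V ∧ k ≤ s.m ∧ Agree k s.t b0 ∧
        (∀ q ∈ s.t, k ≤ q → q < s.m → q ∈ s.A ∧ q ∈ s.b)) →
      (((s'.A, s'.ζ) ∈ Z1 ∧ IsOpen s'.V ∧ s'.ζ ∈ s'.V ∧ k ≤ s'.m ∧ Agree k s'.t b0 ∧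
        (∀ q ∈ s'.t, k ≤ q → q < s'.m → q ∈ s'.A ∧ q ∈ s'.b)) ∧
        s.m < s'.m ∧ Agree s.m s'.b s.b ∧ Agree s.m s'.t s.t ∧ s'.V ⊆ s.V ∧
        (∀ q ∈ s'.b, s.m ≤ q → q < s'.m → x q ∈ s.V) ∧
        (∀ S, Agree s'.m S s'.b → (∀ q ∈ S, s'.m ≤ q → x q ∈ s'.V) → ∃ j, S ∈ E n j) ∧
        (∀ T, Agree s'.m T s'.t → T ∉ E i n)) := by
    rintro n s
    by_cases hinv : ((s.A, s.ζ) ∈ Z1 ∧ IsOpen s.V ∧ s.ζ ∈ s.V ∧ k ≤ s.m ∧ Agree k s.t b0 ∧
        (∀ q ∈ s.t, k ≤ q → q < s.m → q ∈ s.A ∧ q ∈ s.b))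
    · obtain ⟨h1, h2, h3, h4, h5, h6⟩ := hinv
      obtain ⟨hT, hN⟩ := hZ _ (hZ1 h1)
      simp only at hT hN
      obtain ⟨k1, hk1⟩ := hT s.V h2 h3
      -- extend t
      obtain ⟨t1, ht1, ht1A, ht1E⟩ := hN n (max k1 s.m) (le_trans h4 (le_max_right _ _))
        {q | q ∈ s.t ∧ q < s.m} (by
          intro q hq
          have : q < s.m := lt_of_lt_of_le hq h4
          simp only [Set.mem_ofPred_eq, this, and_true]
          exact h5 q hq) (by
          rintro q ⟨hq1, hq2⟩ hkq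
          exact (h6 q hq1 hkq hq2).1)
      obtain ⟨l, hl⟩ := hE i n t1 ht1E
      -- m1: everything fixed below m1
      set m1 : ℕ := max (max k1 s.m) l with hm1
      have hm1k1 : max k1 s.m ≤ m1 := le_max_left _ _
      have hm1l : l ≤ m1 := le_max_right _ _
      have hsm1 : s.m ≤ m1 := le_trans (le_max_right _ _) hm1k1
      -- new t and b
      set t2 : Set ℕ := {q | q ∈ t1 ∧ q < m1} with ht2
      have ht2a : Agree m1 t2 t1 := by
        intro q hq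
        simp [ht2, hq]
      set b2 : Set ℕ := {q | (q < s.m ∧ q ∈ s.b) ∨ (s.m ≤ q ∧ q ∈ t2)} with hb2
      -- open set V2 with closure in s.V
      obtain ⟨W, hW, hWc, hWV⟩ := exists_mem_nhds_isClosed_subset (h2.mem_nhds h3)
      have hζW : s.ζ ∈ interior W := mem_interior_iff_mem_nhds.mpr hW
      obtain ⟨η, hηL, hηcl⟩ := hker (s.A, s.ζ) h1 m1 (interior W) isOpen_interior hζW
      have hηV : η ∈ s.V := by
        apply hWV
        apply hWc.closure_subset_iff.mpr _ hηcl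
        rintro _ ⟨p, ⟨_, _, hp⟩, rfl⟩
        exact interior_subset hp
      have hηI : ∀ A, Tends x A η → A ∈ I := by
        intro A hA
        by_contra hAI
        apply hηL
        rw [hL]
        exact ⟨A, hAI, hA⟩
      obtain ⟨b', m', V', hm', hV', hηV', hV'V, hb', hb'x, hb'F⟩ :=
        baire_lemma x I (E n) (hE n) (fun S hS => (hI S).mp hS n) η hηI s.V h2 hηV b2 m1
      obtain ⟨_, ⟨⟨A', ζ'⟩, ⟨hz1, hz2, hz3⟩, rfl⟩, hzV'⟩ :=
        Set.inter_nonempty_iff_exists_left.mp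
          (by
            have := mem_closure_iff.mp hηcl V' hV' hηV'
            rw [Set.inter_comm] at this
            exact this)
      simp only at hz2 hz3 hzV'
      have ht2t : Agree s.m t2 s.t := by
        intro q hq
        rw [ht2a q (lt_of_lt_of_le hq hsm1), ht1 q (lt_of_lt_of_le hq (le_max_right _ _))]
        simp [hq]
      have ht2A : ∀ q ∈ t2, k ≤ q → q ∈ s.A := by
        intro q hq hkq
        by_cases hqm : q < s.m
        · exact (h6 q ((ht2t q hqm).mp hq) hkq hqm).1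
        · by_cases hq2 : q < max k1 s.m
          · have h7 : q ∈ t1 := (ht2a q (lt_of_lt_of_le hq2 hm1k1)).mp hq
            have h8 := (ht1 q hq2).mp h7
            exact absurd h8.2 hqm
          · exact ht1A q hq.1 (not_lt.mp hq2)
      have ht2k1 : ∀ q ∈ t2, s.m ≤ q → max k1 s.m ≤ q := by
        intro q hq hqm
        by_contra hq2
        have hq2' : q < max k1 s.m := not_le.mp hq2
        have h7 : q ∈ t1 := (ht2a q (lt_of_lt_of_le hq2' hm1k1)).mp hq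
        have h8 := ((ht1 q hq2').mp h7).2
        omega
      refine ⟨⟨A', ζ', b', t2, m', V'⟩, fun _ => ⟨⟨hz1, hV', hzV', ?_, ?_, ?_⟩, ?_, ?_, ?_, hV'V,
        ?_, hb'F, ?_⟩⟩
      · simp only; omega
      · intro q hq
        rw [ht2t q (lt_of_lt_of_le hq h4)]
        exact h5 q hq
      · intro q hq hkq _
        simp only at hq ⊢
        have hqm1 : q < m1 := hq.2
        refine ⟨(hz2 q hqm1).mpr (ht2A q hq hkq), (hb' q hqm1).mpr ?_⟩
        by_cases hqm : q < s.m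
        · left
          exact ⟨hqm, (h6 q ((ht2t q hqm).mp hq) hkq hqm).2⟩
        · right
          exact ⟨not_lt.mp hqm, hq⟩
      · simp only; omega
      · intro q hq
        simp only
        rw [hb' q (lt_of_lt_of_le hq hsm1)]
        have hnq : ¬ (s.m ≤ q) := not_le.mpr hq
        simp [hb2, hq, hnq]
      · exact ht2t
      · intro q hq hqm hqm'
        simp only at hq hqm'
        by_cases hqm1 : q < m1
        · have h7 := (hb' q hqm1).mp hq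
          rcases h7 with h7 | h7
          · omega
          · have h8 : q ∈ s.A := ht2A q h7.2 (le_trans h4 hqm)
            exact hk1 q h8 (le_trans (le_max_left _ _) (ht2k1 q h7.2 hqm))
        · exact hb'x q hq (not_lt.mp hqm1) hqm'
      · intro T hT
        apply hl T
        have h7 : Agree l T t2 := hT.mono (by simp only; omega)
        exact h7.trans (ht2a.mono hm1l)
    · exact ⟨s, fun h => absurd h hinv⟩
  choose f hf using step
  let s0 : St X := ⟨z0.1, z0.2, ∅, b0, k, Set.univ⟩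
  let s : ℕ → St X := fun n => Nat.rec s0 (fun n s => f n s) n
  have hs0 : s 0 = s0 := rfl
  have hsS : ∀ n, s (n+1) = f n (s n) := fun n => rfl
  have hinv : ∀ n, (((s n).A, (s n).ζ) ∈ Z1 ∧ IsOpen (s n).V ∧ (s n).ζ ∈ (s n).V ∧ k ≤ (s n).m ∧
      Agree k (s n).t b0 ∧
        (∀ q ∈ (s n).t, k ≤ q → q < (s n).m → q ∈ (s n).A ∧ q ∈ (s n).b)) := by
    intro n
    induction n with
    | zero =>
      rw [hs0]
      refine ⟨hz0, isOpen_univ, Set.mem_univ _, le_rfl, Agree.refl _ _, ?_⟩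
      intro q _ h1 h2
      simp only [s0] at h2
      omega
    | succ n ih => rw [hsS]; exact (hf n (s n) ih).1
  have hR : ∀ n, (s n).m < (s (n+1)).m ∧ Agree (s n).m (s (n+1)).b (s n).b ∧
      Agree (s n).m (s (n+1)).t (s n).t ∧ (s (n+1)).V ⊆ (s n).V ∧
        (∀ q ∈ (s (n+1)).b, (s n).m ≤ q → q < (s (n+1)).m → x q ∈ (s n).V) ∧
        (∀ S, Agree (s (n+1)).m S (s (n+1)).b → (∀ q ∈ S, (s (n+1)).m ≤ q → x q ∈ (s (n+1)).V) →
          ∃ j, S ∈ E n j) ∧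
        (∀ T, Agree (s (n+1)).m T (s (n+1)).t → T ∉ E i n) := by
    intro n
    have := hf n (s n) (hinv n)
    rw [← hsS] at this
    exact this.2
  have hm : StrictMono (fun n => (s n).m) := strictMono_nat_of_lt_succ (fun n => (hR n).1)
  have hVanti : Antitone (fun n => (s n).V) := antitone_nat_of_succ_le (fun n => (hR n).2.2.2.1)
  obtain ⟨B, hB⟩ := exists_limit (fun n => (s n).b) (fun n => (s n).m) (fun n => (hR n).1)
    (fun n => (hR n).2.1)
  obtain ⟨T, hT⟩ := exists_limit (fun n => (s n).t) (fun n => (s n).m) (fun n => (hR n).1)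
    (fun n => (hR n).2.2.1)
  have hBn : ∀ n, ∀ q ∈ B, (s n).m ≤ q → x q ∈ (s n).V := by
    intro n q hq hnq
    have hex : ∃ p, q < (s p).m := ⟨q+1, lt_of_lt_of_le (Nat.lt_succ_self q) (hm.id_le (q+1))⟩
    classical
    obtain ⟨p, hp, hmin⟩ : ∃ p, q < (s p).m ∧ ∀ p' < p, ¬ (q < (s p').m) :=
      ⟨Nat.find hex, Nat.find_spec hex, fun p' hp' => Nat.find_min hex hp'⟩
    have hpn : n < p := by
      by_contra hc
      have : (s p).m ≤ (s n).m := hm.monotone (not_lt.mp hc)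
      omega
    obtain ⟨p', rfl⟩ : ∃ p', p = p' + 1 := ⟨p - 1, by omega⟩
    have hq1 : (s p').m ≤ q := not_lt.mp (hmin p' (Nat.lt_succ_self p'))
    have hq2 : q ∈ (s (p'+1)).b := (hB (p'+1) q hp).mp hq
    have hq3 := (hR p').2.2.2.2.1 q hq2 hq1 hp
    exact hVanti (show n ≤ p' by omega) hq3
  have hBI : B ∈ I := by
    rw [hI]
    intro n
    exact (hR n).2.2.2.2.2.1 B (hB (n+1)) (hBn (n+1))
  have hTI : T ∉ I := by
    intro h
    obtain ⟨j, hj⟩ := (hI T).mp h i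
    exact (hR j).2.2.2.2.2.2 T (hT (j+1)) hj
  apply hTI
  have hTB : T ⊆ {q | q < k} ∪ B := by
    intro q hq
    by_cases hqk : q < k
    · left; exact hqk
    · right
      have h1 : q < (s (q+1)).m := lt_of_lt_of_le (Nat.lt_succ_self q) (hm.id_le (q+1))
      have h2 : q ∈ (s (q+1)).t := (hT (q+1) q h1).mp hq
      have h3 := ((hinv (q+1)).2.2.2.2.2 q h2 (not_lt.mp hqk) h1).2
      exact (hB (q+1) q h1).mpr h3
  exact hdown _ (hun _ (hfin _ (Set.finite_lt_nat k)) _ hBI) T hTB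

end Main

/-- For every Polish space X, every proper ideal on ω containing all finite sets that is Π^0_3 in Cantor space, and every sequence in X, the set of limits of subsequences indexed by sets outside the ideal is F_σ. -/
theorem result :
    ∀ (X : Type) [TopologicalSpace X] [PolishSpace X] (I : Set (Set ℕ)),
      (∀ A ∈ I, ∀ B : Set ℕ, B ⊆ A → B ∈ I) →
      (∀ A ∈ I, ∀ B ∈ I, A ∪ B ∈ I) →
      (∀ A : Set ℕ, A.Finite → A ∈ I) →
      (Set.univ : Set ℕ) ∉ I →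
      (∃ C : ℕ → ℕ → Set (ℕ → Bool), (∀ i j, IsClosed (C i j)) ∧
        {f : ℕ → Bool | {n : ℕ | f n = true} ∈ I} = ⋂ i, ⋃ j, C i j) →
      ∀ x : ℕ → X, ∃ D : ℕ → Set X, (∀ j, IsClosed (D j)) ∧
        {ℓ : X | ∃ A : Set ℕ, A ∉ I ∧ Tendsto x (atTop ⊓ 𝓟 A) (𝓝 ℓ)} = ⋃ j, D j := by
  intro X _ _ I hdown hun hfin _ ⟨C, hC, hIC⟩ x
  classical
  let ch : Set ℕ → ℕ → Bool := fun S n => decide (n ∈ S)
  let E : ℕ → ℕ → Set (Set ℕ) := fun i j => {S | ch S ∈ C i j}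
  have hE : ∀ i j, Cl (E i j) := by
    intro i j S hS
    have ho : IsOpen (C i j)ᶜ := (hC i j).isOpen_compl
    rw [isOpen_pi_iff] at ho
    obtain ⟨F, u, hu, hFu⟩ := ho (ch S) hS
    refine ⟨F.sup id + 1, fun S' hS' hc => ?_⟩
    have : ch S' ∈ (C i j)ᶜ := by
      apply hFu
      intro q hq
      have hq1 : q < F.sup id + 1 := Nat.lt_succ_of_le (Finset.le_sup (f := id) hq)
      have : ch S' q = ch S q := by
        simp only [ch]
        rw [decide_eq_decide]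
        exact hS' q hq1
      rw [this]
      exact (hu q hq).2
    exact this hc
  have hI : ∀ S, S ∈ I ↔ ∀ i, ∃ j, S ∈ E i j := by
    intro S
    have h1 : {n : ℕ | ch S n = true} = S := by
      ext n; simp [ch]
    have h2 : (ch S ∈ {f : ℕ → Bool | {n : ℕ | f n = true} ∈ I}) ↔ S ∈ I := by
      simp only [Set.mem_ofPred_eq]
      rw [h1]
    rw [← h2, hIC]
    simp only [Set.mem_iInter, Set.mem_iUnion, E, Set.mem_ofPred_eq]
  have htend : ∀ (A : Set ℕ) (ℓ : X), Tendsto x (atTop ⊓ 𝓟 A) (𝓝 ℓ) ↔ Tends x A ℓ := by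
    intro A ℓ
    constructor
    · intro h V hV hℓ
      have h1 := h.eventually (hV.mem_nhds hℓ)
      rw [Filter.eventually_inf_principal, Filter.eventually_atTop] at h1
      obtain ⟨k, hk⟩ := h1
      exact ⟨k, fun q hq hkq => hk q hkq hq⟩
    · intro h
      rw [tendsto_nhds]
      intro V hV hℓ
      obtain ⟨k, hk⟩ := h V hV hℓ
      show ∀ᶠ q in atTop ⊓ 𝓟 A, x q ∈ V
      rw [Filter.eventually_inf_principal, Filter.eventually_atTop]
      exact ⟨k, fun q hkq hq => hk q hq hkq⟩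
  set L : Set X := {ζ | ∃ A, A ∉ I ∧ Tends x A ζ} with hL
  have hLeq : {ℓ : X | ∃ A : Set ℕ, A ∉ I ∧ Tendsto x (atTop ⊓ 𝓟 A) (𝓝 ℓ)} = L := by
    ext ℓ
    simp only [htend, hL, Set.mem_ofPred_eq]
  letI := TopologicalSpace.upgradeIsCompletelyMetrizable X
  have hpieces : ∀ p : ℕ × Finset ℕ × ℕ, Small L (Prod.snd ''
      {z : Set ℕ × X | Tends x z.1 z.2 ∧ ∀ j, NoInt (E p.1 j) (↑p.2.1) p.2.2 z.1}) := by
    intro p
    exact main_small x I E hE hdown hun hfin hI L hL p.1 (↑p.2.1) p.2.2 _ (fun z hz => hz)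
  have hLsmall : Small L L := by
    apply (Small.iUnion hpieces).mono
    rintro ζ ⟨A, hA, hAζ⟩
    obtain ⟨i, b, k, h⟩ := step1 I E hun hI A hA
    exact Set.mem_iUnion.mpr ⟨(i, b, k), (A, ζ), ⟨hAζ, h⟩, rfl⟩
  obtain ⟨D, h1, h2, h3, h4⟩ := hLsmall
  obtain ⟨g, hg⟩ := (h1.insert ∅).exists_eq_range (Set.insert_nonempty _ _)
  refine ⟨g, ?_, ?_⟩
  · intro j
    have : g j ∈ insert ∅ D := by rw [hg]; exact ⟨j, rfl⟩
    rcases this with h | h
    · rw [h]; exact isClosed_empty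
    · exact h2 _ h
  · rw [hLeq]
    have h5 : ⋃ j, g j = ⋃₀ (insert ∅ D) := by rw [hg, Set.sUnion_range]
    rw [h5, Set.sUnion_insert, Set.empty_union]
    exact Set.Subset.antisymm h3 h4

end Pool.Agent.S15401
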