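import Pool.Statements.S15409
import Pool.Agent.H358R3.LE1
import Pool.Agent.H358R3.Zab6

set_option autoImplicit false
open FirstOrder
open Pool Pool.MP_d409f8_lc

namespace Pool.Agent.S15409

open Pool.Agent.H358R3 in
/-- `ℚ^ab` as a subfield. -/
theorem mem_qab (z : ℂ) : z ∈ Qab ↔ z ∈ Subfield.closure {z : ℂ | ∃ n : ℕ, 0 < n ∧ z ^ n = 1} := by
  constructor
  · intro hz
    unfold Qab at hz
    induction hz using IntermediateField.adjoin_induction with
    | mem x hx =>
      obtain ⟨n, hn, hx⟩ := hx
      exact Subfield.subset_closure ⟨n, Nat.pos_of_ne_zero hn, hx⟩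
    | algebraMap q => 
      rw [eq_ratCast]
      exact SubfieldClass.ratCast_mem _ q
    | add x y _ _ h1 h2 => exact add_mem h1 h2
    | inv x _ h1 => exact inv_mem h1
    | mul x y _ _ h1 h2 => exact mul_mem h1 h2
  · intro hz
    have h : Subfield.closure {z : ℂ | ∃ n : ℕ, 0 < n ∧ z ^ n = 1} ≤ Qab.toSubfield := by
      rw [Subfield.closure_le]
      rintro x ⟨n, hn, hx⟩
      exact root_mem hn.ne' hx
    exact h hz

open Pool.Agent.H358R3 in
/-- The two descriptions of the ring of abelian integers agree. -/
noncomputable def equivZab (A : Subring ℂ) (hA : A = (integralClosure ℤ ℂ).toSubring ⊓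
          (Subfield.closure {z : ℂ | ∃ n : ℕ, 0 < n ∧ z ^ n = 1}).toSubring) : Zab ≃+* A := by
  have hm : ∀ x : Zab, ((x : Qab) : ℂ) ∈ A := by
    intro x
    rw [hA]
    refine ⟨?_, (mem_qab _).1 (x : Qab).2⟩
    exact (x.2 : IsIntegral ℤ (x : Qab)).map (Qab.val.restrictScalars ℤ)
  refine RingEquiv.ofBijective (((Qab.val : Qab →+* ℂ).comp (algebraMap Zab Qab)).codRestrict A hm) ⟨?_, ?_⟩
  · intro x y hxy
    have h := congrArg (fun z : A => (z : ℂ)) hxy
    exact Subtype.ext (Subtype.ext h)
  · rintro ⟨z, hz⟩
    have hz' := hz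
    rw [hA] at hz'
    obtain ⟨h1, h2⟩ := hz'
    have h3 : z ∈ Qab := (mem_qab z).2 h2
    have h4 : IsIntegral ℤ (⟨z, h3⟩ : Qab) :=
      (isIntegral_algHom_iff (Qab.val.restrictScalars ℤ) (Subtype.val_injective)).1 h1
    exact ⟨⟨⟨z, h3⟩, h4⟩, Subtype.ext rfl⟩

/-- The set of Gödel numbers of ring-language sentences true in the ring of algebraic integers of the field generated over ℚ by all roots of unity (that is, ℤ^ab) is not computable; so Th(ℤ^ab) is undecidable. -/
theorem result :
    ∀ A : Subring ℂ,
      A = (integralClosure ℤ ℂ).toSubring ⊓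
          (Subfield.closure {z : ℂ | ∃ n : ℕ, 0 < n ∧ z ^ n = 1}).toSubring →
      ∀ e : (Σ i, FirstOrder.Language.ring.Functions i) → ℕ, Function.Injective e →
        ¬ ComputablePred (fun n : ℕ =>
          ∃ φ : FirstOrder.Language.ring.Sentence,
            Encodable.encode
                (φ.listEncode.map
                  (Sum.map
                    (fun t => (⟨t.1, t.2.listEncode.map (Sum.map id e)⟩ :
                      Σ k : ℕ, List ((Empty ⊕ Fin k) ⊕ ℕ)))
                    (Sum.map (fun r => r.1) id))) = n ∧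
            @FirstOrder.Language.Sentence.Realize FirstOrder.Language.ring ↥A
              (FirstOrder.Ring.compatibleRingOfRing ↥A).toStructure φ) := by
  intro A hA e he hc
  refine Pool.Agent.H358R3.LE.undecidable_lc
    (Pool.Agent.H358R3.Df.d_nat_of_int Pool.Agent.H358R3.int_definable) e he ?_
  have h : (fun n : ℕ =>
      ∃ φ : FirstOrder.Language.ring.Sentence,
            Encodable.encode
                (φ.listEncode.map
                  (Sum.map
                    (fun t => (⟨t.1, t.2.listEncode.map (Sum.map id e)⟩ :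
                      Σ k : ℕ, List ((Empty ⊕ Fin k) ⊕ ℕ)))
                    (Sum.map (fun r => r.1) id))) = n ∧
            @FirstOrder.Language.Sentence.Realize FirstOrder.Language.ring ↥A
              (FirstOrder.Ring.compatibleRingOfRing ↥A).toStructure φ) =
      (fun n : ℕ => ∃ φ : FirstOrder.Language.ring.Sentence,
        Encodable.encode (Pool.Agent.H358R3.LE.lc e φ) = n ∧
        @FirstOrder.Language.Sentence.Realize FirstOrder.Language.ring Pool.Agent.H358R3.Zab
              (FirstOrder.Ring.compatibleRingOfRing _).toStructure φ) := by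
    funext n
    apply propext
    constructor
    · rintro ⟨φ, h1, h2⟩
      exact ⟨φ, h1, (Pool.Agent.H358R3.LE.realize_iff_of_ringEquiv (equivZab A hA) φ).2 h2⟩
    · rintro ⟨φ, h1, h2⟩
      exact ⟨φ, h1, (Pool.Agent.H358R3.LE.realize_iff_of_ringEquiv (equivZab A hA) φ).1 h2⟩
  rw [h] at hc
  exact hc

end Pool.Agent.S15409
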