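import Pool.Statements.S15440
import Pool.Agent.H938R3.Alpha

set_option autoImplicit false
open Pool Pool.MP_d6e56f_lc

namespace Pool.Agent.S15440

open Pool.Agent.H938R3 Pool.Agent.Helper227 Encodable

/-- the group `ℤ × ℤ`, written multiplicatively -/
abbrev GG : Type := Multiplicative (ℤ × ℤ)

/-- the standard numbering -/
def nu : ℕ ≃ GG := (Denumerable.eqv (ℤ × ℤ)).symm.trans Multiplicative.ofAdd

theorem nu_apply (n : ℕ) : Multiplicative.toAdd (nu n) = pr n := rfl

theorem nu_symm (x : GG) : nu.symm x = encode (Multiplicative.toAdd x) := rfl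

/-- the order induced by the real number `alp LA` -/
@[reducible] noncomputable def ordI : LinearOrder GG :=
  @LinearOrder.lift' GG ℝ _ (fun x => lf LA (Multiplicative.toAdd x))
    (fun _ _ h => Multiplicative.toAdd.injective (lf_inj LA not_computable_LA h))

theorem le_def (x y : GG) : ordI.le x y ↔
    lf LA (Multiplicative.toAdd x) ≤ lf LA (Multiplicative.toAdd y) := Iff.rfl

theorem mul_comp : Computable₂ (fun m n : ℕ => nu.symm (nu m * nu n)) := by
  refine Primrec.to_comp ?_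
  have h1 : Primrec fun x : ℕ × ℕ => pr x.1 := (Primrec.ofNat (ℤ × ℤ)).comp Primrec.fst
  have h2 : Primrec fun x : ℕ × ℕ => pr x.2 := (Primrec.ofNat (ℤ × ℤ)).comp Primrec.snd
  exact Primrec.encode.comp ((prim_int_add.comp (Primrec.fst.comp h1) (Primrec.fst.comp h2)).pair
    (prim_int_add.comp (Primrec.snd.comp h1) (Primrec.snd.comp h2)))

theorem oracle_eq : (fun k : ℕ => Part.some
    (@ite ℕ (ordI.le (nu (Nat.unpair k).1) (nu (Nat.unpair k).2)) (ordI.toDecidableLE _ _) 1 0)) =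
    chi (ordB LA) := by
  funext k
  unfold chi
  congr 1
  have h : ordI.le (nu (Nat.unpair k).1) (nu (Nat.unpair k).2) ↔ ordB LA k = true := by
    rw [le_def, ordB_iff, df, lf_sub, sub_nonneg]
    exact Iff.rfl
  by_cases h2 : ordB LA k = true
  · rw [if_pos (h.2 h2), h2]
    rfl
  · rw [if_neg (fun h3 => h2 (h.1 h3))]
    rw [Bool.not_eq_true] at h2
    rw [h2]
    rfl

theorem low (S : Set ℕ) (hS : ∃ f : ℕ →. ℕ, TuringReducible f (chi (ordB LA)) ∧
    ∀ n : ℕ, n ∈ S ↔ (f n).Dom) :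
    ∃ g : ℕ → ℕ → Bool, Computable₂ g ∧ ∀ n : ℕ, ∀ᶠ s in Filter.atTop, (g n s = true ↔ n ∈ S) := by
  obtain ⟨f, hf, hS⟩ := hS
  have hf' : Nat.RecursiveIn {chi (ordB LA)} f := by
    unfold TuringReducible at hf
    rwa [RecursiveIn.iff_nat] at hf
  obtain ⟨G, hG, _, he⟩ := recIn_graph hf'
  have hG1 : S1 fun x : List Bool × ℕ => ∃ m : ℕ, G (x.1, x.2, m) := by
    refine S1.ex (hG.comp ?_)
    exact (Primrec.fst.comp Primrec.fst).pair ((Primrec.snd.comp Primrec.fst).pair Primrec.snd)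
  obtain ⟨G', hG', hm', he'⟩ := transfer LA not_computable_LA _ hG1
  obtain ⟨g, hg, hlim⟩ := low_LA G' hG' hm'
  refine ⟨g, hg, fun n => ?_⟩
  filter_upwards [hlim n] with s hs
  rw [hs, ← he' n, hS, Part.dom_iff_mem]
  constructor
  · rintro ⟨s, m, h⟩
    exact ⟨m, (he n m).2 ⟨s, h⟩⟩
  · rintro ⟨m, h⟩
    obtain ⟨s, h⟩ := (he n m).1 h
    exact ⟨s, m, h⟩

/-- powers, on codes -/
def pw (μ : ℕ ≃ GG) (m0 m : ℕ) (k : ℕ) : ℕ := Nat.rec (motive := fun _ => ℕ) m0
    (fun _ x => μ.symm (μ x * μ m)) k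

theorem pw_spec (μ : ℕ ≃ GG) (m0 m : ℕ) (h0 : μ m0 = 1) (k : ℕ) :
    μ (pw μ m0 m k) = (μ m) ^ k := by
  induction k with
  | zero => simpa [pw] using h0
  | succ k ih =>
    have : pw μ m0 m (k + 1) = μ.symm (μ (pw μ m0 m k) * μ m) := rfl
    rw [this, Equiv.apply_symm_apply, ih, pow_succ]

theorem pw_comp (μ : ℕ ≃ GG) (h1 : Computable₂ (fun m n : ℕ => μ.symm (μ m * μ n))) (m0 m : ℕ) :
    Computable (pw μ m0 m) := by
  refine Computable.nat_rec (f := fun k : ℕ => k) (g := fun _ => m0)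
    (h := fun _ q => μ.symm (μ q.2 * μ m)) Computable.id (Computable.const _) ?_
  exact h1.comp (Computable.snd.comp Computable.snd) (Computable.const _)

theorem comp_pred {q : ℕ × ℕ → Prop} (hq : ComputablePred q) {f g : ℕ → ℕ} (hf : Computable f)
    (hg : Computable g) : ComputablePred (fun x : ℕ × ℕ => q (f x.1, g x.2)) := by
  obtain ⟨hd, hcd⟩ := hq
  exact ⟨fun x => hd _, hcd.comp ((hf.comp Computable.fst).pair (hg.comp Computable.snd))⟩

theorem no_copy (μ : ℕ ≃ GG) (h1 : Computable₂ (fun m n : ℕ => μ.symm (μ m * μ n)))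
    (h2 : ComputablePred (fun p : ℕ × ℕ => ordI.le (μ p.1) (μ p.2))) : False := by
  apply not_computable_LA
  set m0 := μ.symm 1 with hm0
  have hm1 : μ m0 = 1 := by rw [hm0, Equiv.apply_symm_apply]
  set a := μ.symm (Multiplicative.ofAdd ((1, 0) : ℤ × ℤ)) with ha
  set b := μ.symm (Multiplicative.ofAdd ((0, 1) : ℤ × ℤ)) with hb
  have hP := comp_pred (f := pw μ m0 a) (g := fun n => pw μ m0 b (4 ^ n)) h2 (pw_comp μ h1 m0 a)
    ((pw_comp μ h1 m0 b).comp prim_pow4.to_comp)
  refine comp_of_cut LA _ hP ?_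
  intro k n
  have e1 : μ (pw μ m0 a k) = Multiplicative.ofAdd ((k, 0) : ℤ × ℤ) := by
    rw [pw_spec _ _ _ hm1, ha, Equiv.apply_symm_apply, ← ofAdd_nsmul]
    simp
  have e2 : μ (pw μ m0 b (4 ^ n)) = Multiplicative.ofAdd ((0, (4 ^ n : ℕ)) : ℤ × ℤ) := by
    rw [pw_spec _ _ _ hm1, hb, Equiv.apply_symm_apply, ← ofAdd_nsmul]
    simp
  show ordI.le (μ (pw μ m0 a k)) (μ (pw μ m0 b (4 ^ n))) ↔ _
  rw [e1, e2, le_def]
  simp [lf]

/-- The negation of the preceding statement: Every computable group on ℕ with a two-sided invariant linear order of low Turing degree (all sets c.e. in the order are limit computable) has a presentation on ℕ where both multiplication and the order are computable. -/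
theorem result :
    ¬ (∀ (G : Type) [Group G] [LinearOrder G] (ν : ℕ ≃ G),
      (∀ a b c : G, a ≤ b → c * a ≤ c * b ∧ a * c ≤ b * c) →
      Computable₂ (fun m n : ℕ => ν.symm (ν m * ν n)) →
      (∀ S : Set ℕ,
        (∃ f : ℕ →. ℕ,
          TuringReducible f
            (fun k : ℕ => Part.some
              (if ν (Nat.unpair k).1 ≤ ν (Nat.unpair k).2 then 1 else 0 : ℕ)) ∧
          ∀ n : ℕ, n ∈ S ↔ (f n).Dom) →
        ∃ g : ℕ → ℕ → Bool, Computable₂ g ∧
          ∀ n : ℕ, ∀ᶠ s in Filter.atTop, (g n s = true ↔ n ∈ S)) →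
      ∃ μ : ℕ ≃ G,
        Computable₂ (fun m n : ℕ => μ.symm (μ m * μ n)) ∧
        ComputablePred (fun p : ℕ × ℕ => μ p.1 ≤ μ p.2)) := by
  intro H
  have h := @H GG _ ordI nu ?_ mul_comp ?_
  · obtain ⟨μ, h1, h2⟩ := h
    exact no_copy μ h1 h2
  · intro a b c hab
    have hab' := (le_def a b).1 hab
    constructor
    · refine (le_def _ _).2 ?_
      rw [toAdd_mul, toAdd_mul, lf_add, lf_add]
      linarith
    · refine (le_def _ _).2 ?_
      rw [toAdd_mul, toAdd_mul, lf_add, lf_add]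
      linarith
  · intro S hS
    rw [oracle_eq] at hS
    exact low S hS

end Pool.Agent.S15440
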