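import Pool.Statements.S15480
import Pool.Agent.H534R3.Wave
import Pool.Agent.H534R3.Sel
import Pool.Agent.H534R3.Pos

set_option autoImplicit false
open Pool Pool.MP_dd30de_lc

namespace Pool.Agent.S15480

open Pool.Agent.H534R3
open scoped InnerProductSpace

/-- The Hilbert space. -/
abbrev HH : Type := lp (fun _ : ℕ => ℂ) 2

/-- The standard basis. -/
noncomputable def e (n : ℕ) : HH := lp.single 2 n (1 : ℂ)

theorem inner_e (n : ℕ) (φ : HH) : ⟪e n, φ⟫_ℂ = φ n := by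
  rw [e, lp.inner_single_left]
  simp

theorem e_orthonormal : Orthonormal ℂ e := by
  rw [orthonormal_iff_ite]
  intro i j
  rw [inner_e, e, lp.single_apply]
  by_cases hij : i = j
  · rw [if_pos hij, hij, Pi.single_eq_same]
  · rw [if_neg hij, Pi.single_eq_of_ne hij]

theorem e_total (pos : ℕ × ℤ → ℕ) (hpos : Function.Surjective pos) (ψ : HH)
    (h : ∀ k, ⟪e (pos k), ψ⟫_ℂ = 0) : ψ = 0 := by
  ext m
  obtain ⟨k, rfl⟩ := hpos m
  have := h k
  rw [inner_e] at this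
  exact this

theorem exists_shift (b : ℕ × ℤ → HH) (hb : Orthonormal ℂ b)
    (htot : ∀ ψ, (∀ k, ⟪b k, ψ⟫_ℂ = 0) → ψ = 0) :
    ∃ (f : HilbertBasis (ℕ × ℤ) ℂ HH) (S : HH ≃ₗᵢ[ℂ] HH), (∀ k, f k = b k) ∧
      ∀ j n, S (b (j, n)) = b (j, n + 1) := by
  classical
  have hbot : ∀ c : ℕ × ℤ → HH, (∀ ψ, (∀ k, ⟪c k, ψ⟫_ℂ = 0) → ψ = 0) →
      (Submodule.span ℂ (Set.range c))ᗮ = ⊥ := by
    intro c hc
    rw [Submodule.eq_bot_iff]
    intro ψ hψ
    exact hc ψ fun k => (Submodule.mem_orthogonal _ _).1 hψ _ (Submodule.subset_span ⟨k, rfl⟩)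
  set c : ℕ × ℤ → HH := fun k => b (k.1, k.2 + 1) with hc
  have hco : Orthonormal ℂ c := hb.comp (fun k : ℕ × ℤ => ((k.1, k.2 + 1) : ℕ × ℤ))
    fun k k' h => by
      rw [Prod.mk.injEq] at h
      exact Prod.ext h.1 (by have := h.2; omega)
  have hct : ∀ ψ, (∀ k, ⟪c k, ψ⟫_ℂ = 0) → ψ = 0 := by
    intro ψ hψ
    refine htot ψ fun k => ?_
    have := hψ (k.1, k.2 - 1)
    simp only [hc, sub_add_cancel] at this
    exact this
  set f := HilbertBasis.mkOfOrthogonalEqBot hb (hbot b htot) with hf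
  set f' := HilbertBasis.mkOfOrthogonalEqBot hco (hbot c hct) with hf'
  have hfb : ∀ k, f k = b k := fun k => by rw [hf, HilbertBasis.coe_mkOfOrthogonalEqBot]
  have hfc : ∀ k, f' k = c k := fun k => by rw [hf', HilbertBasis.coe_mkOfOrthogonalEqBot]
  refine ⟨f, f.repr.trans f'.repr.symm, hfb, fun j n => ?_⟩
  rw [← hfb, LinearIsometryEquiv.trans_apply, f.repr_self, f'.repr_symm_single, hfc]

/-- The unitary group. -/
abbrev UU : Type := unitary (lp (fun _ : ℕ => ℂ) 2 →L[ℂ] lp (fun _ : ℕ => ℂ) 2)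

/-- The squares of the absolute values of the entries. -/
noncomputable def r (x : UU) (m n : ℕ) : ℝ := ‖(x.1 (e n)) m‖ ^ 2

theorem r_hasSum (y : HH) (hy : ‖y‖ = 1) : HasSum (fun m => ‖y m‖ ^ 2) 1 := by
  have h1 := lp.hasSum_norm (p := 2) (by norm_num) y
  rw [hy] at h1
  simpa using h1

theorem r_inv (x : UU) (m n : ℕ) : r x m n = ‖((Unitary.linearIsometryEquiv x)⁻¹ (e m)) n‖ ^ 2 := by
  set y := Unitary.linearIsometryEquiv x with hy
  have h1 : r x m n = ‖(y (e n)) m‖ ^ 2 := rfl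
  rw [h1, ← inner_e m, ← inner_e n]
  have h2 : ⟪e m, y (e n)⟫_ℂ = ⟪y⁻¹ (e m), e n⟫_ℂ := by
    rw [← LinearIsometryEquiv.inner_map_map y (y⁻¹ (e m)) (e n)]
    congr 1
    exact (y.apply_symm_apply _).symm
  rw [h2, ← inner_conj_symm, RCLike.norm_conj]

theorem key (M : MeasurableSpace UU)
    (hM : M = MeasurableSpace.comap (fun U : UU => fun n : ℕ => U.1 (lp.single 2 n (1 : ℂ)))
        (@MeasurableSpace.pi ℕ (fun _ => HH) (fun _ => borel HH)))
    (μ : @MeasureTheory.Measure UU M) (hμ : @MeasureTheory.IsProbabilityMeasure UU M μ) :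
    ∃ a s : ℕ → ℕ, a 0 = 1 ∧ (∀ i, a i ≤ s i ∧ s i < a (i + 1) ∧ a i + 2 ≤ a (i + 1)) ∧
      μ {x | ∀ i, Sel.Good r (a i) (s i) (a (i + 1)) ((1 / 64 * (1 / 4) ^ i) ^ 2) x} ≠ 0 := by
  refine @Sel.select UU M μ hμ r ?_ ?_ ?_ ?_ (fun i => (1 / 64 * (1 / 4) ^ i) ^ 2) fun i => by positivity
  · intro m n
    have h1 : @Measurable UU (ℕ → HH) M (@MeasurableSpace.pi ℕ (fun _ => HH) (fun _ => borel HH))
        (fun U : UU => fun n : ℕ => U.1 (lp.single 2 n (1 : ℂ))) := by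
      rw [hM]
      exact comap_measurable _
    have h2 : @Measurable (ℕ → HH) HH (@MeasurableSpace.pi ℕ (fun _ => HH) (fun _ => borel HH))
        (borel HH) (fun v => v n) := @measurable_pi_apply ℕ (fun _ => HH) (fun _ => borel HH) n
    have h3 : @Measurable HH ℝ (borel HH) _ (fun h : HH => ‖h m‖ ^ 2) := by
      let _ : MeasurableSpace HH := borel HH
      have : BorelSpace HH := ⟨rfl⟩
      have h4 : Continuous (fun h : HH => ‖h m‖ ^ 2) := by
        have h5 : (fun h : HH => ‖h m‖ ^ 2) = fun h : HH => ‖⟪e m, h⟫_ℂ‖ ^ 2 := by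
          funext h
          rw [inner_e]
        rw [h5]
        exact ((continuous_const.inner continuous_id).norm).pow 2
      exact h4.measurable
    exact h3.comp (h2.comp h1)
  · intro x m n
    exact sq_nonneg _
  · intro x n
    refine r_hasSum (x.1 (e n)) ?_
    have : x.1 (e n) = Unitary.linearIsometryEquiv x (e n) := rfl
    rw [this, LinearIsometryEquiv.norm_map]
    exact e_orthonormal.1 n
  · intro x n
    simp_rw [r_inv]
    refine r_hasSum _ ?_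
    rw [LinearIsometryEquiv.norm_map]
    exact e_orthonormal.1 n

/-- Good unitaries are conjugate to the shift after a translation. -/
theorem good_conj (S₀ : HH ≃ₗᵢ[ℂ] HH) (f₀ : HilbertBasis (ℕ × ℤ) ℂ HH)
    (hf₀ : ∀ j n, S₀ (f₀ (j, n)) = f₀ (j, n + 1)) (a s : ℕ → ℕ) (ha0 : a 0 = 1)
    (h : ∀ i, a i ≤ s i ∧ s i < a (i + 1) ∧ a i + 2 ≤ a (i + 1)) :
    ∃ S : HH ≃ₗᵢ[ℂ] HH, ∀ x : UU,
      (∀ i, Sel.Good r (a i) (s i) (a (i + 1)) ((1 / 64 * (1 / 4) ^ i) ^ 2) x) →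
      IsConj S₀ (S * Unitary.linearIsometryEquiv x) := by
  obtain ⟨pos, P, M, hbij, hposp, hposm, hPd, hMd, hPr, hMr, hinf, hPc, hMc⟩ :=
    Pos.exists_pos a s ha0 h
  have hbo : Orthonormal ℂ (fun k => e (pos k)) := e_orthonormal.comp pos hbij.1
  obtain ⟨-, S, -, hS⟩ := exists_shift (fun k => e (pos k)) hbo (e_total pos hbij.2)
  refine ⟨S, fun x hx => ?_⟩
  set δ : ℕ × ℕ → ℝ := fun k => (1 / 64) * (1 / 2) ^ (k.1 + k.2) * (1 / 2) ^ (Nat.pair k.1 k.2) with hδ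
  have hδi : ∀ (k : ℕ × ℕ) (i : ℕ), 2 * Nat.pair k.1 k.2 ≤ i →
      1 - (δ k) ^ 2 ≤ 1 - (1 / 64 * (1 / 4 : ℝ) ^ i) ^ 2 := by
    intro k i hi
    have h1 : (1 / 64 * (1 / 4 : ℝ) ^ i) ≤ δ k := by
      simp only [hδ]
      rw [mul_assoc]
      refine mul_le_mul_of_nonneg_left ?_ (by norm_num)
      rw [← pow_add]
      have h2 : (1 / 4 : ℝ) ^ i = (1 / 2) ^ (2 * i) := by
        rw [pow_mul]
        norm_num
      rw [h2]
      refine pow_le_pow_of_le_one (by norm_num) (by norm_num) ?_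
      have h3 := Nat.left_le_pair k.1 k.2
      have h4 := Nat.right_le_pair k.1 k.2
      omega
    have h2 : (0 : ℝ) ≤ 1 / 64 * (1 / 4 : ℝ) ^ i := by positivity
    nlinarith
  have hsum : ∀ (g : ℕ → ℝ) (_ : ∀ m, 0 ≤ g m) (I : Finset ℕ) (Q : Finset (ℕ × ℕ))
      (q : ℕ × ℕ → ℕ) (_ : ∀ m ∈ I, ∃ k' ∈ Q, q k' = m), ∑ m ∈ I, g m ≤ ∑ k' ∈ Q, g (q k') := by
    classical
    intro g hg I Q q hq
    have h1 : I ⊆ Q.image q := by
      intro m hm
      obtain ⟨k', hk', h2⟩ := hq m hm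
      exact Finset.mem_image.2 ⟨k', hk', h2⟩
    refine (Finset.sum_le_sum_of_subset_of_nonneg h1 fun m _ _ => hg m).trans ?_
    exact Finset.sum_image_le_of_nonneg fun m _ => hg m
  obtain ⟨f, hf⟩ := Wave.main_det (fun k => e (pos k)) hbo (e_total pos hbij.2) S
    (Unitary.linearIsometryEquiv x) hS P M hPd hMd hPr hMr hinf δ (fun k => rfl) (by
      intro k
      have h1 := (hx (2 * Nat.pair k.1 k.2)).1
      refine (hδi k _ le_rfl).trans (h1.trans ?_)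
      have h2 := hsum (fun m => r x m (s (2 * Nat.pair k.1 k.2))) (fun m => sq_nonneg _)
        (Finset.Ico (a (2 * Nat.pair k.1 k.2)) (a (2 * Nat.pair k.1 k.2 + 1))) (P k)
        (fun k' => pos (k'.1, (k'.2 : ℤ))) (hPc k)
      refine h2.trans (le_of_eq (Finset.sum_congr rfl fun k' _ => ?_))
      rw [hposp, inner_e]
      rfl) (by
      intro k
      have h1 := (hx (2 * Nat.pair k.1 k.2 + 1)).2
      refine (hδi k _ (Nat.le_succ _)).trans (h1.trans ?_)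
      have h2 := hsum (fun m => r x (s (2 * Nat.pair k.1 k.2 + 1)) m) (fun m => sq_nonneg _)
        (Finset.Ico (a (2 * Nat.pair k.1 k.2 + 1)) (a (2 * Nat.pair k.1 k.2 + 1 + 1))) (M k)
        (fun k' => pos (k'.1, -(k'.2 : ℤ))) (hMc k)
      refine h2.trans (le_of_eq (Finset.sum_congr rfl fun k' _ => ?_))
      rw [hposm, inner_e, r_inv])
  exact Wave.shift_conj S₀ _ f₀ f hf₀ hf

/-- The negation of the preceding statement: Every conjugacy class in the unitary group of ℓ² (strong operator Borel structure) lies in a Borel set B with a probability measure μ such that μ{x : g·x·h ∈ B} = 0 for all unitaries g, h, i.e. every conjugacy class is Haar null. -/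
theorem result :
    ¬ (∀ M : MeasurableSpace (unitary (lp (fun _ : ℕ => ℂ) 2 →L[ℂ] lp (fun _ : ℕ => ℂ) 2)),
      M = MeasurableSpace.comap
        (fun U : unitary (lp (fun _ : ℕ => ℂ) 2 →L[ℂ] lp (fun _ : ℕ => ℂ) 2) =>
          fun n : ℕ => U.1 (lp.single 2 n (1 : ℂ)))
        (@MeasurableSpace.pi ℕ (fun _ => lp (fun _ : ℕ => ℂ) 2)
          (fun _ => borel (lp (fun _ : ℕ => ℂ) 2))) →
      ∀ a : unitary (lp (fun _ : ℕ => ℂ) 2 →L[ℂ] lp (fun _ : ℕ => ℂ) 2),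
        ∃ B : Set (unitary (lp (fun _ : ℕ => ℂ) 2 →L[ℂ] lp (fun _ : ℕ => ℂ) 2)),
          @MeasurableSet _ M B ∧ {x | IsConj a x} ⊆ B ∧
          ∃ μ : @MeasureTheory.Measure
              (unitary (lp (fun _ : ℕ => ℂ) 2 →L[ℂ] lp (fun _ : ℕ => ℂ) 2)) M,
            @MeasureTheory.IsProbabilityMeasure
              (unitary (lp (fun _ : ℕ => ℂ) 2 →L[ℂ] lp (fun _ : ℕ => ℂ) 2)) M μ ∧
            ∀ g h : unitary (lp (fun _ : ℕ => ℂ) 2 →L[ℂ] lp (fun _ : ℕ => ℂ) 2),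
              μ {x | g * x * h ∈ B} = 0) := by
  intro hall
  set pos₀ : ℕ × ℤ ≃ ℕ := Denumerable.eqv (ℕ × ℤ) with hpos₀
  obtain ⟨f₀, S₀, hf₀, hS₀⟩ := exists_shift (fun k => e (pos₀ k))
    (e_orthonormal.comp pos₀ pos₀.injective) (e_total pos₀ pos₀.surjective)
  have hf₀' : ∀ j n, S₀ (f₀ (j, n)) = f₀ (j, n + 1) := fun j n => by
    rw [hf₀, hf₀]
    exact hS₀ j n
  obtain ⟨B, -, hB, μ, hμ, hnull⟩ := hall _ rfl (Unitary.linearIsometryEquiv.symm S₀)
  obtain ⟨a, s, ha0, h, hne⟩ := key _ rfl μ hμ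
  obtain ⟨S, hS⟩ := good_conj S₀ f₀ hf₀' a s ha0 h
  apply hne
  have h0 := hnull (Unitary.linearIsometryEquiv.symm S) 1
  refine le_antisymm (le_of_le_of_eq (MeasureTheory.measure_mono fun x hx => ?_) h0) bot_le
  change Unitary.linearIsometryEquiv.symm S * x * 1 ∈ B
  apply hB
  change IsConj _ _
  have h1 := (Unitary.linearIsometryEquiv.symm.toMonoidHom
    (M := HH ≃ₗᵢ[ℂ] HH) (N := UU)).map_isConj (hS x hx)
  have h2 : (Unitary.linearIsometryEquiv.symm : (HH ≃ₗᵢ[ℂ] HH) ≃* UU)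
      (S * Unitary.linearIsometryEquiv x) = Unitary.linearIsometryEquiv.symm S * x * 1 := by
    rw [map_mul, MulEquiv.symm_apply_apply, mul_one]
  rw [← h2]
  exact h1

end Pool.Agent.S15480
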