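import Pool.Statements.S15498
import Pool.Agent.H166R3.HD.Final

set_option autoImplicit false
open Pool Pool.MP_e12961_lc

namespace Pool.Agent.S15498

/-- The negation of the preceding statement: For every hyperimmune-free degree and every hyperimmune PA degree, the Hausdorff distance between them under the upper-density-of-disagreement pseudometric on Cantor space is 1. -/
theorem result :
    ¬ (∀ X Y : ℕ → Bool,
      (∀ f : ℕ → ℕ,
          TuringReducible (fun n => Part.some (f n)) (fun n => Part.some (X n).toNat) →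
          ∃ g : ℕ → ℕ, Computable g ∧ ∀ n, f n ≤ g n) →
      (¬ ∀ f : ℕ → ℕ,
          TuringReducible (fun n => Part.some (f n)) (fun n => Part.some (Y n).toNat) →
          ∃ g : ℕ → ℕ, Computable g ∧ ∀ n, f n ≤ g n) →
      (∃ f : ℕ → ℕ,
          TuringReducible (fun n => Part.some (f n)) (fun n => Part.some (Y n).toNat) ∧
          (∀ n, f n ≤ 1) ∧
          ∀ c : Nat.Partrec.Code, ∀ y : ℕ,
            y ∈ c.eval (Encodable.encode c) → f (Encodable.encode c) ≠ y) →
      ((∀ ε : ℝ, 0 < ε → ∃ A : ℕ → Bool,
          (TuringReducible (fun n => Part.some (A n).toNat) (fun n => Part.some (X n).toNat) ∧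
           TuringReducible (fun n => Part.some (X n).toNat) (fun n => Part.some (A n).toNat)) ∧
          ∀ B : ℕ → Bool,
            (TuringReducible (fun n => Part.some (B n).toNat) (fun n => Part.some (Y n).toNat) ∧
             TuringReducible (fun n => Part.some (Y n).toNat) (fun n => Part.some (B n).toNat)) →
            1 - ε ≤ Filter.limsup
              (fun n : ℕ => ((((Finset.range n).filter (fun k => A k ≠ B k)).card : ℝ) / (n : ℝ)))
              Filter.atTop) ∨
       (∀ ε : ℝ, 0 < ε → ∃ B : ℕ → Bool,
          (TuringReducible (fun n => Part.some (B n).toNat) (fun n => Part.some (Y n).toNat) ∧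
           TuringReducible (fun n => Part.some (Y n).toNat) (fun n => Part.some (B n).toNat)) ∧
          ∀ A : ℕ → Bool,
            (TuringReducible (fun n => Part.some (A n).toNat) (fun n => Part.some (X n).toNat) ∧
             TuringReducible (fun n => Part.some (X n).toNat) (fun n => Part.some (A n).toNat)) →
            1 - ε ≤ Filter.limsup
              (fun n : ℕ => ((((Finset.range n).filter (fun k => A k ≠ B k)).card : ℝ) / (n : ℝ)))
              Filter.atTop))) := by
  intro hall
  have key : ∀ f g : ℕ → ℕ, Pool.Agent.Helper743.TR f g ↔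
      TuringReducible (fun n => Part.some (f n)) (fun n => Part.some (g n)) :=
    fun f g => Pool.Agent.Helper743.TR_iff
  obtain ⟨X, Y, h1, h2, h3, h4, h5⟩ := Pool.Agent.H166R3.HD.main
  obtain ⟨f, hf, hb⟩ := h2
  obtain ⟨f', hf', hb'⟩ := h3
  rcases hall X Y (fun f hf => h1 f ((key _ _).2 hf)) (fun hcon => by
      obtain ⟨g, hg, hle⟩ := hcon f ((key _ _).1 hf)
      obtain ⟨n, hn⟩ := hb g hg
      exact absurd (hle n) (not_le.2 hn)) ⟨f', (key _ _).1 hf', hb'⟩ with h | h
  · obtain ⟨A, hA, hB⟩ := h (1/16) (by norm_num)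
    obtain ⟨B', hB', hlim⟩ := h4 A ((key _ _).2 hA.1)
    have h9 := (hB B' ⟨(key _ _).1 hB'.1, (key _ _).1 hB'.2⟩).trans hlim
    norm_num at h9
  · obtain ⟨B, hB, hA⟩ := h (1/16) (by norm_num)
    obtain ⟨A', hA', hlim⟩ := h5 B ((key _ _).2 hB.1)
    have h9 := (hA A' ⟨(key _ _).1 hA'.1, (key _ _).1 hA'.2⟩).trans hlim
    norm_num at h9

end Pool.Agent.S15498
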