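import Pool.Statements.S15504
-- import your own Pool.Agent.* helpers here

set_option autoImplicit false
open Pool Pool.MP_e1e357_lc

namespace Pool.Agent.S15504

/-- agreement below `n` of the point `xs q` with `D` -/
def Near (xs : ℕ → Set ℕ) (n q : ℕ) (D : Set ℕ) : Prop := ∀ i < n, (i ∈ xs q ↔ i ∈ D)

/-- accumulation points of the sequence `xs` along `S` -/
def der (xs : ℕ → Set ℕ) (S : Set ℕ) : Set (Set ℕ) :=
  {D | ∀ n, {q | q ∈ S ∧ Near xs n q D}.Infinite}

/-- convergence of the sequence `xs` along `T` to `D` -/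
def Conv (xs : ℕ → Set ℕ) (T D : Set ℕ) : Prop := ∀ n, {q | q ∈ T ∧ ¬ Near xs n q D}.Finite

lemma Near.mono {xs : ℕ → Set ℕ} {m n q : ℕ} {D : Set ℕ} (h : Near xs n q D) (hm : m ≤ n) :
    Near xs m q D := fun i hi => h i (lt_of_lt_of_le hi hm)

lemma der_mono (xs : ℕ → Set ℕ) {S S' : Set ℕ} (h : S ⊆ S') : der xs S ⊆ der xs S' := by
  intro D hD n
  exact (hD n).mono (fun q hq => ⟨h hq.1, hq.2⟩)

lemma der_union (xs : ℕ → Set ℕ) (S T : Set ℕ) : der xs (S ∪ T) ⊆ der xs S ∪ der xs T := by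
  intro D hD
  by_contra hcon
  rw [Set.mem_union, not_or] at hcon
  obtain ⟨h1, h2⟩ := hcon
  simp only [der, Set.mem_ofPred_eq, not_forall, Set.not_infinite] at h1 h2
  obtain ⟨n, hn⟩ := h1
  obtain ⟨m, hm⟩ := h2
  apply hD (max n m)
  apply (hn.union hm).subset
  rintro q ⟨hq | hq, hq2⟩
  · left; exact ⟨hq, hq2.mono (le_max_left _ _)⟩
  · right; exact ⟨hq, hq2.mono (le_max_right _ _)⟩

lemma conv_der {xs : ℕ → Set ℕ} {T D : Set ℕ} (h : Conv xs T D) : der xs T ⊆ {D} := by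
  intro E hE
  rw [Set.mem_singleton_iff]
  ext i
  have h1 := hE (i+1)
  have h2 := h (i+1)
  have h3 : ({q | q ∈ T ∧ Near xs (i+1) q E} \ {q | q ∈ T ∧ ¬ Near xs (i+1) q D}).Infinite :=
    h1.diff h2
  obtain ⟨q, hq1, hq2⟩ := h3.nonempty
  have hq3 : Near xs (i+1) q D := by
    by_contra hc
    exact hq2 ⟨hq1.1, hc⟩
  rw [← hq1.2 i (Nat.lt_succ_self i), hq3 i (Nat.lt_succ_self i)]

lemma conv_mem_der {xs : ℕ → Set ℕ} {T D S : Set ℕ} (h : Conv xs T D) (hS : (S ∩ T).Infinite) :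
    D ∈ der xs S := by
  intro n
  have h3 : ((S ∩ T) \ {q | q ∈ T ∧ ¬ Near xs n q D}).Infinite := hS.diff (h n)
  apply h3.mono
  rintro q ⟨hq1, hq2⟩
  refine ⟨hq1.1, ?_⟩
  by_contra hc
  exact hq2 ⟨hq1.2, hc⟩

lemma der_finite (xs : ℕ → Set ℕ) {S : Set ℕ} (h : S.Finite) : der xs S = ∅ := by
  rw [Set.eq_empty_iff_forall_notMem]
  intro D hD
  exact (hD 0) (h.subset (fun q hq => hq.1))

lemma cone_uncountable (D : Set ℕ) (n : ℕ) :
    ¬ ({E : Set ℕ | ∀ i < n, (i ∈ E ↔ i ∈ D)}).Countable := by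
  intro hc
  have hinj : Function.Injective
      (fun S : Set ℕ => (⟨{i | (i < n ∧ i ∈ D) ∨ (n ≤ i ∧ i - n ∈ S)}, by
        intro i hi
        simp only [Set.mem_ofPred_eq]
        constructor
        · rintro (h | h)
          · exact h.2
          · omega
        · intro h; left; exact ⟨hi, h⟩⟩ : {E : Set ℕ | ∀ i < n, (i ∈ E ↔ i ∈ D)})) := by
    intro S S' h
    have h' := congrArg Subtype.val h
    simp only at h'
    ext i
    have := Set.ext_iff.mp h' (i + n)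
    simp only [Set.mem_ofPred_eq] at this
    have h1 : ¬ (i + n < n) := by omega
    have h2 : n ≤ i + n := by omega
    simpa [h1, h2] using this
  haveI : Countable {E : Set ℕ | ∀ i < n, (i ∈ E ↔ i ∈ D)} := hc.to_subtype
  have hcount : Countable (Set ℕ) := hinj.countable
  obtain ⟨f, hf⟩ := exists_surjective_nat (Set ℕ)
  exact Function.cantor_surjective f hf

lemma cone_minus_infinite {xs : ℕ → Set ℕ} (hx : ∀ F : Set ℕ, F.Finite → {q | xs q = F}.Infinite)
    {C : Set ℕ} (hC : (der xs C).Countable) (D : Set ℕ) (n : ℕ) :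
    {q | Near xs n q D ∧ q ∉ C}.Infinite := by
  by_contra hfin
  rw [Set.not_infinite] at hfin
  apply cone_uncountable D n
  apply hC.mono
  intro E hE m
  have h1 : {q | xs q = {i | i < max m n ∧ i ∈ E}}.Infinite :=
    hx _ ((Set.finite_lt_nat (max m n)).subset (fun i hi => hi.1))
  apply (h1.diff hfin).mono
  rintro q ⟨hq1, hq2⟩
  have hq1' : xs q = {i | i < max m n ∧ i ∈ E} := hq1
  have hnear : Near xs (max m n) q E := by
    intro i hi
    rw [hq1']
    simp only [Set.mem_ofPred_eq]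
    constructor
    · rintro ⟨_, h⟩; exact h
    · intro h; exact ⟨hi, h⟩
  refine ⟨?_, hnear.mono (le_max_left _ _)⟩
  by_contra hqC
  apply hq2
  refine ⟨?_, hqC⟩
  intro i hi
  rw [hnear i (lt_of_lt_of_le hi (le_max_right _ _))]
  exact hE i hi

lemma der_biUnion_countable {xs : ℕ → Set ℕ} (C : ℕ → Set ℕ) (hC : ∀ i, (der xs (C i)).Countable)
    (n : ℕ) : (der xs {q | ∃ i ≤ n, q ∈ C i}).Countable := by
  induction n with
  | zero =>
    apply (hC 0).mono
    apply der_mono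
    rintro q ⟨i, hi, hq⟩
    have : i = 0 := by omega
    rwa [this] at hq
  | succ n ih =>
    apply ((ih.union (hC (n+1)))).mono
    refine subset_trans (der_mono xs ?_) (der_union xs _ _)
    rintro q ⟨i, hi, hq⟩
    rcases Nat.lt_or_ge i (n+1) with h | h
    · left; exact ⟨i, by omega, hq⟩
    · right
      have : i = n + 1 := by omega
      rwa [this] at hq

lemma exists_T {xs : ℕ → Set ℕ} (hx : ∀ F : Set ℕ, F.Finite → {q | xs q = F}.Infinite)
    (C : ℕ → Set ℕ) (hC : ∀ i, (der xs (C i)).Countable) (D : Set ℕ) :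
    ∃ T : Set ℕ, T.Infinite ∧ Conv xs T D ∧ ∀ i, (C i ∩ T).Finite := by
  have key : ∀ n, ∃ᶠ q in Filter.atTop, (Near xs n q D ∧ ∀ i ≤ n, q ∉ C i) := by
    intro n
    rw [Nat.frequently_atTop_iff_infinite]
    have h := cone_minus_infinite hx (der_biUnion_countable C hC n) D n
    apply h.mono
    rintro q ⟨hq1, hq2⟩
    refine ⟨hq1, ?_⟩
    intro i hi hqi
    exact hq2 ⟨i, hi, hqi⟩
  obtain ⟨φ, hφ, hφ2⟩ := Filter.extraction_forall_of_frequently key
  refine ⟨Set.range φ, Set.infinite_range_of_injective hφ.injective, ?_, ?_⟩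
  · intro n
    apply ((Set.finite_lt_nat n).image φ).subset
    rintro q ⟨⟨j, rfl⟩, hj⟩
    refine ⟨j, ?_, rfl⟩
    by_contra hjn
    have hjn' : n ≤ j := not_lt.mp hjn
    exact hj ((hφ2 j).1.mono hjn')
  · intro i
    apply ((Set.finite_lt_nat i).image φ).subset
    rintro q ⟨hq, ⟨j, rfl⟩⟩
    refine ⟨j, ?_, rfl⟩
    by_contra hji
    have hji' : i ≤ j := not_lt.mp hji
    exact (hφ2 j).2 i hji' hq

/-- partial solutions of the kernel problem -/
def Good (xs : ℕ → Set ℕ) : Set (Set (Set ℕ × Set ℕ)) :=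
  {G | (∀ p ∈ G, (der xs p.1).Countable ∧ p.2.Infinite ∧ Conv xs p.2 p.1) ∧
    (∀ p ∈ G, ∀ r ∈ G, (r.1 ∩ p.2).Finite) ∧
    (∀ p ∈ G, ∀ D ∈ der xs p.1, (der xs D).Countable →
      (∃ T, (D, T) ∈ G) ∨ ∃ r ∈ G, (D ∩ r.2).Infinite)}

lemma exists_maximal_good (xs : ℕ → Set ℕ) : ∃ G, Maximal (· ∈ Good xs) G := by
  apply zorn_subset
  intro c hc hchain
  refine ⟨⋃₀ c, ?_, fun s hs => Set.subset_sUnion_of_mem hs⟩
  refine ⟨?_, ?_, ?_⟩
  · rintro p ⟨G, hG, hp⟩
    exact (hc hG).1 p hp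
  · rintro p ⟨G, hG, hp⟩ r ⟨G', hG', hr⟩
    rcases hchain.total hG hG' with h | h
    · exact (hc hG').2.1 p (h hp) r hr
    · exact (hc hG).2.1 p hp r (h hr)
  · rintro p ⟨G, hG, hp⟩ D hD hDc
    rcases (hc hG).2.2 p hp D hD hDc with ⟨T, hT⟩ | ⟨r, hr, hr2⟩
    · left; exact ⟨T, G, hG, hT⟩
    · right; exact ⟨r, ⟨G, hG, hr⟩, hr2⟩

lemma good_complete {xs : ℕ → Set ℕ} (hx : ∀ F : Set ℕ, F.Finite → {q | xs q = F}.Infinite)
    {G : Set (Set ℕ × Set ℕ)} (hG : Maximal (· ∈ Good xs) G) (S₀ : Set ℕ)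
    (hS₀ : (der xs S₀).Countable) :
    (∃ T, (S₀, T) ∈ G) ∨ ∃ r ∈ G, (S₀ ∩ r.2).Infinite := by
  by_contra hcon
  set U : Set (Set ℕ) := {D | (der xs D).Countable ∧
    ¬ ((∃ T, (D, T) ∈ G) ∨ ∃ r ∈ G, (D ∩ r.2).Infinite)} with hU
  have hS₀U : S₀ ∈ U := ⟨hS₀, hcon⟩
  -- closure
  let Ks : ℕ → Set (Set ℕ) := fun n => Nat.rec {S₀} (fun _ K => ⋃ C ∈ K, (der xs C ∩ U)) n
  have hKs0 : Ks 0 = {S₀} := rfl
  have hKsS : ∀ n, Ks (n+1) = ⋃ C ∈ Ks n, (der xs C ∩ U) := fun n => rfl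
  have hKsU : ∀ n, Ks n ⊆ U := by
    intro n
    cases n with
    | zero => rw [hKs0]; intro D hD; rw [Set.mem_singleton_iff] at hD; rw [hD]; exact hS₀U
    | succ n =>
      rw [hKsS]
      intro D hD
      simp only [Set.mem_iUnion] at hD
      obtain ⟨C, _, hD⟩ := hD
      exact hD.2
  have hKsc : ∀ n, (Ks n).Countable := by
    intro n
    induction n with
    | zero => rw [hKs0]; exact Set.countable_singleton _
    | succ n ih =>
      rw [hKsS]
      apply ih.biUnion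
      intro C hC
      exact ((hKsU n hC).1).mono Set.inter_subset_left
  set K : Set (Set ℕ) := ⋃ n, Ks n with hK
  have hKc : K.Countable := Set.countable_iUnion hKsc
  have hKU : K ⊆ U := Set.iUnion_subset hKsU
  have hS₀K : S₀ ∈ K := Set.mem_iUnion.mpr ⟨0, by rw [hKs0]; exact rfl⟩
  have hKcl : ∀ C ∈ K, ∀ D ∈ der xs C, D ∈ U → D ∈ K := by
    intro C hC D hD hDU
    obtain ⟨n, hn⟩ := Set.mem_iUnion.mp hC
    refine Set.mem_iUnion.mpr ⟨n+1, ?_⟩
    rw [hKsS]
    exact Set.mem_biUnion hn ⟨hD, hDU⟩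
  obtain ⟨f, hf⟩ := hKc.exists_eq_range ⟨S₀, hS₀K⟩
  have hfc : ∀ i, (der xs (f i)).Countable := by
    intro i
    have : f i ∈ K := by rw [hf]; exact ⟨i, rfl⟩
    exact (hKU this).1
  have hT : ∀ D : Set ℕ, ∃ T : Set ℕ, T.Infinite ∧ Conv xs T D ∧ ∀ i, (f i ∩ T).Finite :=
    fun D => exists_T hx f hfc D
  choose τ hτ1 hτ2 hτ3 using hT
  have hτK : ∀ D : Set ℕ, ∀ C ∈ K, (C ∩ τ D).Finite := by
    intro D C hC
    rw [hf] at hC
    obtain ⟨i, rfl⟩ := hC
    exact hτ3 D i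
  set G' : Set (Set ℕ × Set ℕ) := G ∪ (fun D => (D, τ D)) '' K with hG'
  obtain ⟨hg1, hg2, hg3⟩ := hG.prop
  have hG'good : G' ∈ Good xs := by
    refine ⟨?_, ?_, ?_⟩
    · rintro p (hp | ⟨D, hD, rfl⟩)
      · exact hg1 p hp
      · exact ⟨(hKU hD).1, hτ1 D, hτ2 D⟩
    · rintro p (hp | ⟨D, hD, rfl⟩) r (hr | ⟨C, hC, rfl⟩)
      · exact hg2 p hp r hr
      · -- C in K, p in G
        by_contra hinf
        exact (hKU hC).2 (Or.inr ⟨p, hp, hinf⟩)
      · -- D in K, r in G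
        by_contra hinf
        have hDder : D ∈ der xs r.1 := conv_mem_der (hτ2 D) hinf
        exact (hKU hD).2 (hg3 r hr D hDder (hKU hD).1)
      · exact hτK D C hC
    · rintro p hp D hD hDc
      by_cases hDU : D ∈ U
      · left
        rcases hp with hp | ⟨C, hC, rfl⟩
        · exact absurd (hg3 p hp D hD hDc) hDU.2
        · exact ⟨τ D, Or.inr ⟨D, hKcl C hC D hD hDU, rfl⟩⟩
      · have h1 : (∃ T, (D, T) ∈ G) ∨ ∃ r ∈ G, (D ∩ r.2).Infinite := by
          by_contra h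
          exact hDU ⟨hDc, h⟩
        rcases h1 with ⟨T, hT⟩ | ⟨r, hr, hr2⟩
        · left; exact ⟨T, Or.inl hT⟩
        · right; exact ⟨r, Or.inl hr, hr2⟩
  have hsub : G ⊆ G' := Set.subset_union_left
  have hle : G' ⊆ G := hG.le_of_ge hG'good hsub
  have hmem : (S₀, τ S₀) ∈ G := hle (Or.inr ⟨S₀, hS₀K, rfl⟩)
  exact hcon (Or.inl ⟨τ S₀, hmem⟩)

theorem exists_self_limit_ideal (x : ℕ → ℕ → Bool)
    (hx' : ∀ F : Set ℕ, F.Finite → {q | {i | x q i = true} = F}.Infinite) :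
    ∃ I : Set (Set ℕ),
      (∀ A B : Set ℕ, A ∈ I → B ⊆ A → B ∈ I) ∧
      (∀ A B : Set ℕ, A ∈ I → B ∈ I → A ∪ B ∈ I) ∧
      (∀ A : Set ℕ, A.Finite → A ∈ I) ∧
      (Set.univ : Set ℕ) ∉ I ∧
        {ℓ : ℕ → Bool | ∃ A : Set ℕ, A ∉ I ∧
            Filter.Tendsto x (Filter.atTop ⊓ Filter.principal A) (nhds ℓ)}
          = {f : ℕ → Bool | {n : ℕ | f n = true} ∈ I} := by
  set xs : ℕ → Set ℕ := fun q => {i | x q i = true} with hxs
  have hx : ∀ F : Set ℕ, F.Finite → {q | xs q = F}.Infinite := hx'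
  obtain ⟨G, hG⟩ := exists_maximal_good xs
  obtain ⟨hg1, hg2, hg3⟩ := hG.prop
  set I : Set (Set ℕ) := {A | ∃ T, (A, T) ∈ G} with hI
  have hIiff : ∀ A : Set ℕ, A ∈ I ↔ ((der xs A).Countable ∧ ∀ r ∈ G, (A ∩ r.2).Finite) := by
    intro A
    constructor
    · rintro ⟨T, hT⟩
      exact ⟨(hg1 _ hT).1, fun r hr => hg2 r hr _ hT⟩
    · rintro ⟨h1, h2⟩
      rcases good_complete hx hG A h1 with h | ⟨r, hr, hr2⟩
      · exact h
      · exact absurd (h2 r hr) hr2
  have htend : ∀ (A : Set ℕ) (ℓ : ℕ → Bool),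
      Filter.Tendsto x (Filter.atTop ⊓ Filter.principal A) (nhds ℓ) ↔
        Conv xs A {n | ℓ n = true} := by
    intro A ℓ
    rw [tendsto_pi_nhds]
    constructor
    · intro h n
      have h1 : ∀ i < n, {q | q ∈ A ∧ ¬ (x q i = ℓ i)}.Finite := by
        intro i _
        have h2 := h i
        rw [nhds_discrete, Filter.tendsto_pure, Filter.eventually_inf_principal,
          ← Nat.cofinite_eq_atTop, Filter.eventually_cofinite] at h2
        apply h2.subset
        rintro q ⟨hq1, hq2⟩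
        simp only [Set.mem_ofPred_eq]
        exact fun hc => hq2 (hc hq1)
      have h3 : (⋃ i ∈ Set.Iio n, {q | q ∈ A ∧ ¬ (x q i = ℓ i)}).Finite :=
        (Set.finite_Iio n).biUnion (fun i hi => h1 i hi)
      apply h3.subset
      rintro q ⟨hq1, hq2⟩
      simp only [Near, not_forall] at hq2
      obtain ⟨i, hi, hq3⟩ := hq2
      refine Set.mem_biUnion (show i ∈ Set.Iio n from hi) ⟨hq1, ?_⟩
      intro hc
      apply hq3
      show x q i = true ↔ ℓ i = true
      rw [hc]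
    · intro h i
      rw [nhds_discrete, Filter.tendsto_pure, Filter.eventually_inf_principal,
          ← Nat.cofinite_eq_atTop, Filter.eventually_cofinite]
      apply (h (i+1)).subset
      intro q hq
      simp only [Set.mem_ofPred_eq, Classical.not_imp] at hq
      refine ⟨hq.1, ?_⟩
      intro hc
      apply hq.2
      have h4 : (x q i = true ↔ ℓ i = true) := hc i (Nat.lt_succ_self i)
      cases hxi : x q i <;> cases hli : ℓ i <;> simp_all
  refine ⟨I, ?_, ?_, ?_, ?_, ?_⟩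
  · intro A B hA hBA
    rw [hIiff] at hA ⊢
    exact ⟨hA.1.mono (der_mono xs hBA),
      fun r hr => (hA.2 r hr).subset (Set.inter_subset_inter_left _ hBA)⟩
  · intro A B hA hB
    rw [hIiff] at hA hB ⊢
    refine ⟨(hA.1.union hB.1).mono (der_union xs A B), fun r hr => ?_⟩
    rw [Set.union_inter_distrib_right]
    exact (hA.2 r hr).union (hB.2 r hr)
  · intro A hA
    rw [hIiff]
    refine ⟨by rw [der_finite xs hA]; exact Set.countable_empty, fun r _ => hA.subset Set.inter_subset_left⟩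
  · intro h
    rw [hIiff] at h
    have := (cone_minus_infinite hx h.1 ∅ 0).nonempty
    obtain ⟨q, _, hq⟩ := this
    exact hq (Set.mem_univ q)
  · ext ℓ
    simp only [Set.mem_ofPred_eq]
    constructor
    · rintro ⟨A, hA, hconv⟩
      rw [htend] at hconv
      have h1 : (der xs A).Countable := (Set.countable_singleton _).mono (conv_der hconv)
      have h2 : ∃ r ∈ G, (A ∩ r.2).Infinite := by
        by_contra hc
        apply hA
        rw [hIiff]
        refine ⟨h1, fun r hr => ?_⟩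
        by_contra hinf
        exact hc ⟨r, hr, hinf⟩
      obtain ⟨r, hr, hr2⟩ := h2
      have h3 : r.1 ∈ der xs A := conv_mem_der (hg1 r hr).2.2 hr2
      have h4 : r.1 = {n | ℓ n = true} := conv_der hconv h3
      exact ⟨r.2, by rw [← h4]; exact hr⟩
    · rintro ⟨T, hT⟩
      refine ⟨T, ?_, (htend T ℓ).mpr (hg1 _ hT).2.2⟩
      intro hTI
      rw [hIiff] at hTI
      have h1 := hTI.2 _ hT
      rw [Set.inter_self] at h1
      exact (hg1 _ hT).2.1 h1

/-- The negation of the preceding statement: For every ideal I on ℕ (containing finite sets, not ℕ) and every sequence in Cantor space, its set of I-limit points (limits along sets not in I) is never exactly I, viewed as a subset of Cantor space. -/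
theorem result :
    ¬ (∀ I : Set (Set ℕ),
      (∀ A B : Set ℕ, A ∈ I → B ⊆ A → B ∈ I) →
      (∀ A B : Set ℕ, A ∈ I → B ∈ I → A ∪ B ∈ I) →
      (∀ A : Set ℕ, A.Finite → A ∈ I) →
      (Set.univ : Set ℕ) ∉ I →
      ∀ x : ℕ → (ℕ → Bool),
        {ℓ : ℕ → Bool | ∃ A : Set ℕ, A ∉ I ∧
            Filter.Tendsto x (Filter.atTop ⊓ Filter.principal A) (nhds ℓ)}
          ≠ {f : ℕ → Bool | {n : ℕ | f n = true} ∈ I}) := by
  intro hall
  -- the sequence: every finite set is the value at infinitely many indices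
  obtain ⟨f, hf⟩ := exists_surjective_nat (Finset ℕ × ℕ)
  let x : ℕ → ℕ → Bool := fun q n => decide (n ∈ (f q).1)
  have hx : ∀ F : Set ℕ, F.Finite → {q | {i | x q i = true} = F}.Infinite := by
    intro F hF
    choose g hg using fun m : ℕ => hf (hF.toFinset, m)
    have h1 : Set.range g ⊆ {q | {i | x q i = true} = F} := by
      rintro q ⟨m, rfl⟩
      ext i
      have h2 := hg m
      simp only [Set.mem_ofPred_eq, x, h2]
      simp
    apply Set.Infinite.mono h1
    apply Set.infinite_range_of_injective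
    intro m m' h
    have h3 := hg m
    rw [h, hg m'] at h3
    exact (Prod.mk.inj h3).2.symm
  obtain ⟨I, h1, h2, h3, h4, h5⟩ := exists_self_limit_ideal x hx
  exact hall I h1 h2 h3 h4 x h5

end Pool.Agent.S15504
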