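import Pool.Statements.S15538

set_option autoImplicit false
open FirstOrder FirstOrder.Language
open Pool Pool.MP_e6168a_lc

namespace Pool.Agent.S15538

/-- Relation symbols: one 4-ary symbol `T`, four 4-ary symbols `S i`, one unary symbol `U`. -/
inductive R : ℕ → Type
  | T : R 4
  | S : Fin 4 → R 4
  | U : R 1

/-- The signature. -/
def LL : FirstOrder.Language.{0, 0} := ⟨fun _ => Empty, R⟩

/-- The data of a structure. -/
abbrev Dat (n : ℕ) : Type :=
  ((Fin 4 → Fin n) → Prop) × (Fin 4 → (Fin 4 → Fin n) → Prop) × ((Fin 1 → Fin n) → Prop)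

/-- The relations of the structure with given data. -/
def relOf {n : ℕ} (d : Dat n) : ∀ {l : ℕ}, R l → (Fin l → Fin n) → Prop
  | _, R.T, x => d.1 x
  | _, R.S i, x => d.2.1 i x
  | _, R.U, x => d.2.2 x

/-- The structure with given data. -/
@[reducible] def mkS {n : ℕ} (d : Dat n) : LL.Structure (Fin n) where
  funMap := fun f => Empty.elim f
  RelMap := fun r x => relOf d r x

/-- The data of a given structure. -/
def dat {n : ℕ} (M : LL.Structure (Fin n)) : Dat n :=
  (fun t => @Structure.RelMap LL (Fin n) M 4 R.T t,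
    fun i t => @Structure.RelMap LL (Fin n) M 4 (R.S i) t,
    fun t => @Structure.RelMap LL (Fin n) M 1 R.U t)

theorem mkS_dat {n : ℕ} (M : LL.Structure (Fin n)) : mkS (dat M) = M := by
  apply FirstOrder.Language.Structure.ext
  · funext l f
    exact Empty.elim f
  · funext l r x
    cases r <;> rfl

/-- Structures are the same as data. -/
def eqv (n : ℕ) : LL.Structure (Fin n) ≃ Dat n where
  toFun := dat
  invFun := mkS
  left_inv := mkS_dat
  right_inv := fun _ => rfl

/-- Forbidden pattern: a `T`-tuple together with an `S i`-tuple, or with a `U`-element. -/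
@[reducible] def F1 (y : Option (Fin 4)) : LL.Structure (Fin 8) :=
  mkS (fun x => x = ![0, 1, 2, 3], fun i x => y = some i ∧ x = ![4, 5, 6, 7],
    fun x => y = none ∧ x = ![4])

/-- Forbidden pattern: an element in position `0` of an `S i`-tuple and in position `1` of
an `S j`-tuple. -/
@[reducible] def F2 (i j : Fin 4) : LL.Structure (Fin 8) :=
  mkS (fun _ => False, fun k x => (k = i ∧ x = ![0, 1, 2, 3]) ∨ (k = j ∧ x = ![4, 0, 5, 6]),
    fun _ => False)

/-- Index type of the forbidden family. -/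
abbrev Idx : Type := Option (Fin 4) ⊕ (Fin 4 × Fin 4)

/-- The forbidden family. -/
@[reducible] def FF : Idx → LL.Structure (Fin 8)
  | Sum.inl y => F1 y
  | Sum.inr p => F2 p.1 p.2

/-- The combinatorial description of the class. -/
def Good {n : ℕ} (d : Dat n) : Prop :=
  ((∃ t, d.1 t) → (∀ i t, ¬ d.2.1 i t) ∧ ∀ t, ¬ d.2.2 t) ∧
    ∀ i j t t', d.2.1 i t → d.2.1 j t' → t 0 ≠ t' 1

theorem good_iff {n : ℕ} (d : Dat n) :
    (∀ i : Idx, IsEmpty (@FirstOrder.Language.Hom LL (Fin 8) (Fin n) (FF i) (mkS d))) ↔ Good d := by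
  constructor
  · intro h
    refine ⟨?_, ?_⟩
    · rintro ⟨t, ht⟩
      refine ⟨?_, ?_⟩
      · intro i s hs
        refine (h (Sum.inl (some i))).false ?_
        refine @Hom.mk LL (Fin 8) (Fin n) (FF (Sum.inl (some i))) (mkS d)
          ![t 0, t 1, t 2, t 3, s 0, s 1, s 2, s 3] ?_ ?_
        · intro l f; exact Empty.elim f
        · intro l r x hx
          cases r with
          | T =>
            have hx' : x = ![0, 1, 2, 3] := hx
            subst hx'
            show d.1 _
            convert ht using 1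
            funext k
            fin_cases k <;> rfl
          | S k =>
            have hx' : some i = some k ∧ x = ![4, 5, 6, 7] := hx
            obtain ⟨h1, h2⟩ := hx'
            obtain rfl : i = k := by simpa using h1
            subst h2
            show d.2.1 i _
            convert hs using 1
            funext k
            fin_cases k <;> rfl
          | U =>
            have hx' : some i = none ∧ x = ![4] := hx
            simp at hx'
      · intro s hs
        refine (h (Sum.inl none)).false ?_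
        refine @Hom.mk LL (Fin 8) (Fin n) (FF (Sum.inl none)) (mkS d)
          ![t 0, t 1, t 2, t 3, s 0, s 0, s 0, s 0] ?_ ?_
        · intro l f; exact Empty.elim f
        · intro l r x hx
          cases r with
          | T =>
            have hx' : x = ![0, 1, 2, 3] := hx
            subst hx'
            show d.1 _
            convert ht using 1
            funext k
            fin_cases k <;> rfl
          | S k =>
            have hx' : none = some k ∧ x = ![4, 5, 6, 7] := hx
            simp at hx'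
          | U =>
            have hx' : (none : Option (Fin 4)) = none ∧ x = ![4] := hx
            obtain ⟨-, h2⟩ := hx'
            subst h2
            show d.2.2 _
            convert hs using 1
            funext k
            fin_cases k
            rfl
    · intro i j t s ht hs hts
      refine (h (Sum.inr (i, j))).false ?_
      refine @Hom.mk LL (Fin 8) (Fin n) (FF (Sum.inr (i, j))) (mkS d)
        ![t 0, t 1, t 2, t 3, s 0, s 2, s 3, t 0] ?_ ?_
      · intro l f; exact Empty.elim f
      · intro l r x hx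
        cases r with
        | T => exact False.elim hx
        | S k =>
          have hx' : (k = i ∧ x = ![0, 1, 2, 3]) ∨ (k = j ∧ x = ![4, 0, 5, 6]) := hx
          rcases hx' with ⟨rfl, rfl⟩ | ⟨rfl, rfl⟩
          · show d.2.1 k _
            convert ht using 1
            funext m
            fin_cases m <;> rfl
          · show d.2.1 k _
            convert hs using 1
            funext m
            fin_cases m
            · rfl
            · exact hts
            · rfl
            · rfl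
        | U => exact False.elim hx
  · rintro ⟨h1, h2⟩ i
    refine ⟨fun f => ?_⟩
    rcases i with y | ⟨i, j⟩
    · have hT : d.1 _ := @Hom.map_rel' LL (Fin 8) (Fin n) (FF (Sum.inl y)) (mkS d) f 4 R.T
        ![0, 1, 2, 3] rfl
      obtain ⟨hS, hU⟩ := h1 ⟨_, hT⟩
      rcases y with _ | i
      · exact hU _ (@Hom.map_rel' LL (Fin 8) (Fin n) (FF (Sum.inl none)) (mkS d) f 1 R.U
          ![4] ⟨rfl, rfl⟩)
      · exact hS i _ (@Hom.map_rel' LL (Fin 8) (Fin n) (FF (Sum.inl (some i))) (mkS d) f 4 (R.S i)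
          ![4, 5, 6, 7] ⟨rfl, rfl⟩)
    · have ha : d.2.1 i _ := @Hom.map_rel' LL (Fin 8) (Fin n) (FF (Sum.inr (i, j))) (mkS d) f 4
        (R.S i) ![0, 1, 2, 3] (Or.inl ⟨rfl, rfl⟩)
      have hb : d.2.1 j _ := @Hom.map_rel' LL (Fin 8) (Fin n) (FF (Sum.inr (i, j))) (mkS d) f 4
        (R.S j) ![4, 0, 5, 6] (Or.inr ⟨rfl, rfl⟩)
      exact h2 i j _ _ ha hb rfl

/-- The matrix of the sentence. -/
def phi0 : LL.BoundedFormula Empty 4 :=
  Relations.boundedFormula (L := LL) (n := 4) (l := 4) (show LL.Relations 4 from R.T)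
    (fun i : Fin 4 => (Term.var (Sum.inr i) : LL.Term (Empty ⊕ Fin 4)))

/-- The sentence: there is a `T`-tuple. -/
def phi : LL.Sentence := phi0.exs

theorem realize_phi {n : ℕ} (d : Dat n) :
    (@Sentence.Realize LL (Fin n) (mkS d) phi) ↔ ∃ t, d.1 t :=
  (@BoundedFormula.realize_exs LL (Fin n) (mkS d) Empty 4 phi0 default).trans Iff.rfl

/-- Tuples compatible with a set `A`. -/
abbrev PA {n : ℕ} (A : Fin n → Prop) : Type := {t : Fin 4 → Fin n // A (t 0) ∧ ¬ A (t 1)}

/-- Coordinates of compatible tuples. -/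
def PAeqv {n : ℕ} (A : Fin n → Prop) :
    PA A ≃ {x // A x} × {x // ¬ A x} × Fin n × Fin n where
  toFun t := (⟨t.1 0, t.2.1⟩, ⟨t.1 1, t.2.2⟩, t.1 2, t.1 3)
  invFun p := ⟨![p.1.1, p.2.1.1, p.2.2.1, p.2.2.2], p.1.2, p.2.1.2⟩
  left_inv := by
    rintro ⟨t, h1, h2⟩
    apply Subtype.ext
    funext k
    fin_cases k <;> rfl
  right_inv := by
    rintro ⟨⟨a, ha⟩, ⟨b, hb⟩, c, e⟩
    rfl

theorem card_PA {n : ℕ} (A : Fin n → Prop) :
    Nat.card (PA A) = Nat.card {x // A x} * (n - Nat.card {x // A x}) * n ^ 2 := by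
  classical
  rw [Nat.card_congr (PAeqv A)]
  rw [Nat.card_eq_fintype_card, Nat.card_eq_fintype_card, Fintype.card_prod, Fintype.card_prod,
    Fintype.card_prod, Fintype.card_fin, Fintype.card_subtype_compl, Fintype.card_fin]
  ring

/-- Good data with a `T`-tuple. -/
abbrev XT (n : ℕ) : Type := {d : Dat n // Good d ∧ ∃ t, d.1 t}

/-- Good data without a `T`-tuple. -/
abbrev ZT (n : ℕ) : Type := {d : Dat n // Good d ∧ ¬ ∃ t, d.1 t}

/-- Good data. -/
abbrev YT (n : ℕ) : Type := {d : Dat n // Good d}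

theorem card_pred (α : Type) [Finite α] : Nat.card (α → Prop) = 2 ^ Nat.card α := by
  classical
  have := Fintype.ofFinite α
  rw [Nat.card_eq_fintype_card, Nat.card_eq_fintype_card, Fintype.card_fun, Fintype.card_prop]

theorem X_le (n : ℕ) : Nat.card (XT n) ≤ 2 ^ n ^ 4 := by
  have h : Nat.card ((Fin 4 → Fin n) → Prop) = 2 ^ n ^ 4 := by
    rw [card_pred, Nat.card_eq_fintype_card, Fintype.card_fun, Fintype.card_fin, Fintype.card_fin]
  rw [← h]
  refine Nat.card_le_card_of_injective (fun d => d.1.1) ?_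
  rintro ⟨⟨a, b, c⟩, ⟨hd1, hd2⟩, hd3⟩ ⟨⟨a', b', c'⟩, ⟨hd1', hd2'⟩, hd3'⟩ h
  have haa : a = a' := h
  obtain ⟨h1, h2⟩ := hd1 hd3
  obtain ⟨h1', h2'⟩ := hd1' hd3'
  have hb : b = b' := by
    funext i t
    exact propext ⟨fun hh => (h1 i t hh).elim, fun hh => (h1' i t hh).elim⟩
  have hc : c = c' := by
    funext t
    exact propext ⟨fun hh => (h2 t hh).elim, fun hh => (h2' t hh).elim⟩
  subst haa hb hc
  rfl

open Classical in
theorem le_X (n : ℕ) : 2 ^ n ^ 4 ≤ Nat.card (XT n) + 1 := by
  have h : Nat.card ((Fin 4 → Fin n) → Prop) = 2 ^ n ^ 4 := by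
    rw [card_pred, Nat.card_eq_fintype_card, Fintype.card_fun, Fintype.card_fin, Fintype.card_fin]
  rw [← h, ← Finite.card_option]
  refine Nat.card_le_card_of_injective
    (fun f => if hf : ∃ t, f t then
      some (⟨(f, fun _ _ => False, fun _ => False),
        ⟨fun _ => ⟨fun _ _ => id, fun _ => id⟩, fun _ _ _ _ hh => hh.elim⟩, hf⟩ : XT n)
      else none) ?_
  intro f g hfg
  by_cases hf : ∃ t, f t
  · by_cases hg : ∃ t, g t
    · simp only [hf, hg, dif_pos, Option.some.injEq, Subtype.mk.injEq, Prod.mk.injEq] at hfg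
      exact hfg.1
    · simp [hf, hg] at hfg
  · by_cases hg : ∃ t, g t
    · simp [hf, hg] at hfg
    · funext t
      exact propext ⟨fun hh => (hf ⟨t, hh⟩).elim, fun hh => (hg ⟨t, hh⟩).elim⟩

/-- The space of all choices on a compatible set. -/
abbrev Ch {n : ℕ} (A : Fin n → Prop) : Type := (Fin 4 → PA A → Prop) × ((Fin 1 → Fin n) → Prop)

theorem card_Ch {n : ℕ} (A : Fin n → Prop) :
    Nat.card (Ch A) = 2 ^ (4 * (Nat.card {x // A x} * (n - Nat.card {x // A x}) * n ^ 2)
      + n) := by
  have h1 : Nat.card (Fin 1 → Fin n) = n := by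
    rw [Nat.card_fun, Nat.card_fin, Nat.card_fin, pow_one]
  rw [Nat.card_prod, card_pred, h1, Nat.card_fun, card_pred, card_PA, Nat.card_fin,
    ← pow_mul, pow_add]
  congr 2
  ring

/-- Data built from choices. -/
def mkD {n : ℕ} (A : Fin n → Prop) (c : Ch A) : Dat n :=
  (fun _ => False, fun i t => ∃ h : A (t 0) ∧ ¬ A (t 1), c.1 i ⟨t, h⟩, c.2)

theorem mkD_good {n : ℕ} (A : Fin n → Prop) (c : Ch A) : Good (mkD A c) := by
  refine ⟨?_, ?_⟩
  · rintro ⟨t, ht⟩
    exact ht.elim
  · rintro i j t t' ⟨h, -⟩ ⟨h', -⟩ he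
    exact h'.2 (he ▸ h.1)

theorem mkD_inj {n : ℕ} (A : Fin n → Prop) : Function.Injective (mkD A) := by
  rintro ⟨c1, c2⟩ ⟨c1', c2'⟩ h
  have h1 : (fun (i : Fin 4) (t : Fin 4 → Fin n) => ∃ h : A (t 0) ∧ ¬ A (t 1), c1 i ⟨t, h⟩) =
    (fun (i : Fin 4) (t : Fin 4 → Fin n) => ∃ h : A (t 0) ∧ ¬ A (t 1), c1' i ⟨t, h⟩) :=
    congrArg (fun d : Dat n => d.2.1) h
  have h2 : c2 = c2' := congrArg (fun d : Dat n => d.2.2) h
  subst h2
  have : c1 = c1' := by
    funext i t
    have := congrFun (congrFun h1 i) t.1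
    simp only [eq_iff_iff] at this
    apply propext
    constructor
    · intro hh
      obtain ⟨_, h3⟩ := this.1 ⟨t.2, hh⟩
      exact h3
    · intro hh
      obtain ⟨_, h3⟩ := this.2 ⟨t.2, hh⟩
      exact h3
  subst this
  rfl

theorem le_Y (k : ℕ) : 2 ^ ((2 * k) ^ 4 + 2 * k) ≤ Nat.card (YT (2 * k)) := by
  classical
  let A : Fin (2 * k) → Prop := fun x => x.val < k
  have hA : Nat.card {x // A x} = k := by
    rw [Nat.card_eq_fintype_card, Fintype.card_subtype]
    have : (Finset.univ.filter (fun x : Fin (2 * k) => x.val < k)).card = k := by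
      rw [Fin.card_filter_val_lt]
      omega
    exact this
  have h1 := card_Ch A
  rw [hA] at h1
  have h2 : 4 * (k * (2 * k - k) * (2 * k) ^ 2) + 2 * k = (2 * k) ^ 4 + 2 * k := by
    have : 2 * k - k = k := by omega
    rw [this]
    ring
  rw [h2] at h1
  rw [← h1]
  refine Nat.card_le_card_of_injective (fun c => (⟨mkD A c, mkD_good A c⟩ : YT (2 * k))) ?_
  intro c c' h
  exact mkD_inj A (Subtype.mk.inj h)

theorem four_mul_le (n a : ℕ) (hn : n % 2 = 1) (ha : a ≤ n) : 4 * (a * (n - a)) + 1 ≤ n ^ 2 := by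
  obtain ⟨b, rfl⟩ := Nat.exists_eq_add_of_le ha
  rw [Nat.add_sub_cancel_left]
  rcases lt_or_ge a b with h | h
  · obtain ⟨c, rfl⟩ := Nat.exists_eq_add_of_lt h
    nlinarith
  · obtain ⟨c, rfl⟩ := Nat.exists_eq_add_of_le h
    have : 1 ≤ c := by omega
    nlinarith

/-- The set read off from good data. -/
def setOf {n : ℕ} (d : Dat n) : Fin n → Prop := fun x => ∃ i t, d.2.1 i t ∧ t 0 = x

theorem Z_le (n : ℕ) (hn : n % 2 = 1) : Nat.card (ZT n) ≤ 2 ^ (n ^ 4 - n ^ 2 + 2 * n) := by
  classical
  have h1 : Nat.card (ZT n) ≤ Nat.card (Σ A : Fin n → Prop, Ch A) := by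
    refine Nat.card_le_card_of_injective
      (fun d => ⟨setOf d.1, (fun i t => d.1.2.1 i t.1, d.1.2.2)⟩) ?_
    rintro ⟨⟨a, b, c⟩, ⟨hd1, hd2⟩, hd3⟩ ⟨⟨a', b', c'⟩, ⟨hd1', hd2'⟩, hd3'⟩ h
    have haa : a = a' := by
      funext t
      exact propext ⟨fun hh => (hd3 ⟨t, hh⟩).elim, fun hh => (hd3' ⟨t, hh⟩).elim⟩
    subst haa
    rw [Sigma.mk.injEq] at h
    obtain ⟨h2, h3⟩ := h
    have key : ∀ (A A' : Fin n → Prop) (hA : A = A') (x : Ch A) (y : Ch A'), HEq x y →
        (∀ i t (h : A (t 0) ∧ ¬ A (t 1)) (h' : A' (t 0) ∧ ¬ A' (t 1)),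
          x.1 i ⟨t, h⟩ = y.1 i ⟨t, h'⟩) ∧ x.2 = y.2 := by
      intro A A' hA x y hxy
      subst hA
      have := eq_of_heq hxy
      subst this
      exact ⟨fun _ _ _ _ => rfl, rfl⟩
    obtain ⟨h4, h5⟩ := key _ _ h2 _ _ h3
    have hc : c = c' := h5
    subst hc
    have hin : ∀ i t, b i t → setOf (a, b, c) (t 0) ∧ ¬ setOf (a, b, c) (t 1) := by
      intro i t ht
      refine ⟨⟨i, t, ht, rfl⟩, ?_⟩
      rintro ⟨j, s, hs, hst⟩
      exact hd2 j i s t hs ht hst
    have hin' : ∀ i t, b' i t → setOf (a, b', c) (t 0) ∧ ¬ setOf (a, b', c) (t 1) := by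
      intro i t ht
      refine ⟨⟨i, t, ht, rfl⟩, ?_⟩
      rintro ⟨j, s, hs, hst⟩
      exact hd2' j i s t hs ht hst
    have hb : b = b' := by
      funext i t
      apply propext
      constructor
      · intro ht
        have h6 := hin i t ht
        have h7 := h6
        rw [h2] at h7
        have := h4 i t h6 h7
        exact (show b i t = b' i t from this) ▸ ht
      · intro ht
        have h6 := hin' i t ht
        have h7 := h6
        rw [← h2] at h7
        have := h4 i t h7 h6
        exact (show b i t = b' i t from this).symm ▸ ht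
    subst hb
    rfl
  refine h1.trans ?_
  rw [Nat.card_sigma]
  have h2 : ∀ A : Fin n → Prop, Nat.card (Ch A) ≤ 2 ^ (n ^ 4 - n ^ 2 + n) := by
    intro A
    rw [card_Ch]
    apply Nat.pow_le_pow_right (by norm_num)
    apply Nat.add_le_add_right
    have h3 : Nat.card {x // A x} ≤ n := by
      rw [Nat.card_eq_fintype_card]
      simpa using Fintype.card_subtype_le A
    have h4 := four_mul_le n _ hn h3
    have h5 : (4 * (Nat.card {x // A x} * (n - Nat.card {x // A x})) + 1) * n ^ 2
      ≤ n ^ 2 * n ^ 2 := Nat.mul_le_mul_right _ h4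
    have h6 : n ^ 2 * n ^ 2 = n ^ 4 := by ring
    rw [h6] at h5
    have h7 : (4 * (Nat.card {x // A x} * (n - Nat.card {x // A x})) + 1) * n ^ 2 =
      4 * (Nat.card {x // A x} * (n - Nat.card {x // A x}) * n ^ 2) + n ^ 2 := by ring
    omega
  calc ∑ A : Fin n → Prop, Nat.card (Ch A) ≤ ∑ _A : Fin n → Prop, 2 ^ (n ^ 4 - n ^ 2 + n) :=
        Finset.sum_le_sum (fun A _ => h2 A)
    _ = 2 ^ (n ^ 4 - n ^ 2 + 2 * n) := by
        rw [Finset.sum_const, Finset.card_univ, Fintype.card_fun, Fintype.card_prop,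
          Fintype.card_fin, smul_eq_mul, ← pow_add]
        congr 1
        ring

theorem Y_eq (n : ℕ) : Nat.card (YT n) = Nat.card (XT n) + Nat.card (ZT n) := by
  classical
  rw [← Nat.card_sum]
  refine Nat.card_congr ?_
  refine (Equiv.sumCompl (fun d : YT n => ∃ t, d.1.1 t)).symm.trans ?_
  refine Equiv.sumCongr ?_ ?_
  · exact Equiv.subtypeSubtypeEquivSubtypeInter (fun d : Dat n => Good d) (fun d => ∃ t, d.1 t)
  · exact Equiv.subtypeSubtypeEquivSubtypeInter (fun d : Dat n => Good d) (fun d => ¬ ∃ t, d.1 t)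

/-- The number of structures in the class is the number of good data. -/
theorem card_class (n : ℕ) (P : Dat n → Prop) (Q : LL.Structure (Fin n) → Prop)
    (h : ∀ d, Q (mkS d) ↔ P d) :
    Nat.card {M : LL.Structure (Fin n) // Q M} = Nat.card {d : Dat n // P d} := by
  refine Nat.card_congr ?_
  refine (Equiv.subtypeEquiv (eqv n) ?_)
  intro M
  have := h (dat M)
  rw [mkS_dat] at this
  exact this

/-- The negation of the preceding statement: For every finite relational signature, finite forbidden family and first-order sentence φ: among labeled structures on n points admitting no homomorphism from any forbidden structure, the fraction satisfying φ converges as n grows. -/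
theorem result :
    ¬ (∀ (L : FirstOrder.Language.{0, 0}), (∀ l, IsEmpty (L.Functions l)) →
      Finite (Σ l, L.Relations l) →
      ∀ (k : ℕ) (m : Fin k → ℕ) (S : (i : Fin k) → L.Structure (Fin (m i))) (φ : L.Sentence),
        ∃ c : ℝ, Filter.Tendsto
          (fun n : ℕ =>
            (Nat.card {M : L.Structure (Fin n) //
                (∀ i, IsEmpty (@FirstOrder.Language.Hom L (Fin (m i)) (Fin n) (S i) M)) ∧
                  Fin n ⊨ φ} : ℝ) /
            (Nat.card {M : L.Structure (Fin n) //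
                ∀ i, IsEmpty (@FirstOrder.Language.Hom L (Fin (m i)) (Fin n) (S i) M)} : ℝ))
          Filter.atTop (nhds c)) := by
  intro H
  have hfin : Finite (Σ l, LL.Relations l) := by
    refine Finite.of_surjective (fun o : Option (Option (Fin 4)) => (match o with
      | none => ⟨1, R.U⟩
      | some none => ⟨4, R.T⟩
      | some (some i) => ⟨4, R.S i⟩ : Σ l, LL.Relations l)) ?_
    rintro ⟨l, r⟩
    cases r with
    | T => exact ⟨some none, rfl⟩
    | S i => exact ⟨some (some i), rfl⟩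
    | U => exact ⟨none, rfl⟩
  let e : Fin (Fintype.card Idx) ≃ Idx := (Fintype.equivFin Idx).symm
  obtain ⟨c, hc⟩ := H LL (fun l => (inferInstance : IsEmpty Empty)) hfin (Fintype.card Idx)
    (fun _ => 8) (fun i => FF (e i)) phi
  have hall : ∀ (n : ℕ) (d : Dat n),
      (∀ i, IsEmpty (@FirstOrder.Language.Hom LL (Fin 8) (Fin n) (FF (e i)) (mkS d))) ↔
        Good d := by
    intro n d
    rw [← good_iff]
    constructor
    · intro h i
      have := h (e.symm i)
      rwa [Equiv.apply_symm_apply] at this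
    · intro h i
      exact h (e i)
  have hX : ∀ n : ℕ, Nat.card {M : LL.Structure (Fin n) //
      (∀ i, IsEmpty (@FirstOrder.Language.Hom LL (Fin 8) (Fin n) (FF (e i)) M)) ∧
        @Sentence.Realize LL (Fin n) M phi} = Nat.card (XT n) := by
    intro n
    apply card_class n (fun d => Good d ∧ ∃ t, d.1 t)
    intro d
    exact and_congr (hall n d) (realize_phi d)
  have hY : ∀ n : ℕ, Nat.card {M : LL.Structure (Fin n) //
      (∀ i, IsEmpty (@FirstOrder.Language.Hom LL (Fin 8) (Fin n) (FF (e i)) M))} =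
        Nat.card (YT n) := by
    intro n
    apply card_class n (fun d => Good d)
    intro d
    exact hall n d
  have hc' : Filter.Tendsto (fun n : ℕ => (Nat.card (XT n) : ℝ) / (Nat.card (YT n) : ℝ))
      Filter.atTop (nhds c) := by
    refine hc.congr ?_
    intro n
    have h1 := hX n
    have h2 := hY n
    exact congrArg₂ (fun a b : ℕ => (a : ℝ) / (b : ℝ)) h1 h2
  have hlow : c ≤ 1 / 4 := by
    refine le_of_tendsto_of_frequently hc' ?_
    rw [Filter.frequently_atTop]
    intro N
    refine ⟨2 * (N + 1), by omega, ?_⟩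
    have h1 := X_le (2 * (N + 1))
    have h2 := le_Y (N + 1)
    have h3 : 4 * 2 ^ (2 * (N + 1)) ^ 4 ≤ Nat.card (YT (2 * (N + 1))) := by
      refine le_trans ?_ h2
      rw [pow_add, mul_comm]
      apply Nat.mul_le_mul_left
      calc 4 = 2 ^ 2 := by norm_num
        _ ≤ 2 ^ (2 * (N + 1)) := Nat.pow_le_pow_right (by norm_num) (by omega)
    have h4 : 4 * Nat.card (XT (2 * (N + 1))) ≤ Nat.card (YT (2 * (N + 1))) := by omega
    have h5 : 0 < Nat.card (YT (2 * (N + 1))) :=
      lt_of_lt_of_le (by positivity) h3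
    have h6 : (0 : ℝ) < (Nat.card (YT (2 * (N + 1))) : ℝ) := by exact_mod_cast h5
    rw [div_le_iff₀ h6]
    have h7 : (4 : ℝ) * (Nat.card (XT (2 * (N + 1))) : ℝ) ≤ (Nat.card (YT (2 * (N + 1))) : ℝ) := by
      exact_mod_cast h4
    linarith
  have hhigh : 1 / 2 ≤ c := by
    refine ge_of_tendsto_of_frequently hc' ?_
    rw [Filter.frequently_atTop]
    intro N
    refine ⟨2 * N + 3, by omega, ?_⟩
    have h1 := le_X (2 * N + 3)
    have h2 := Z_le (2 * N + 3) (by omega)
    have h3 := Y_eq (2 * N + 3)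
    have h4 : Nat.card (ZT (2 * N + 3)) + 1 ≤ 2 ^ (2 * N + 3) ^ 4 := by
      have h5 : (2 * N + 3) ^ 4 - (2 * N + 3) ^ 2 + 2 * (2 * N + 3) + 1 ≤ (2 * N + 3) ^ 4 := by
        have h6 : (2 * N + 3) ^ 2 ≤ (2 * N + 3) ^ 4 := Nat.pow_le_pow_right (by omega) (by norm_num)
        have h7 : 2 * (2 * N + 3) + 1 ≤ (2 * N + 3) ^ 2 := by nlinarith
        omega
      have h8 : 2 ^ ((2 * N + 3) ^ 4 - (2 * N + 3) ^ 2 + 2 * (2 * N + 3) + 1)
        ≤ 2 ^ (2 * N + 3) ^ 4 := Nat.pow_le_pow_right (by norm_num) h5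
      rw [pow_succ] at h8
      have h9 : 0 < 2 ^ ((2 * N + 3) ^ 4 - (2 * N + 3) ^ 2 + 2 * (2 * N + 3)) := by positivity
      omega
    have h5 : Nat.card (YT (2 * N + 3)) ≤ 2 * Nat.card (XT (2 * N + 3)) := by omega
    have h6 : 0 < Nat.card (YT (2 * N + 3)) := by
      have : 0 < 2 ^ (2 * N + 3) ^ 4 := by positivity
      have h7 : 2 ≤ 2 ^ (2 * N + 3) ^ 4 := by
        calc 2 = 2 ^ 1 := by norm_num
          _ ≤ 2 ^ (2 * N + 3) ^ 4 := Nat.pow_le_pow_right (by norm_num)
            (Nat.one_le_pow _ _ (by omega))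
      omega
    have h7 : (0 : ℝ) < (Nat.card (YT (2 * N + 3)) : ℝ) := by exact_mod_cast h6
    rw [le_div_iff₀ h7]
    have h8 : (Nat.card (YT (2 * N + 3)) : ℝ) ≤ 2 * (Nat.card (XT (2 * N + 3)) : ℝ) := by
      exact_mod_cast h5
    linarith
  linarith

end Pool.Agent.S15538
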