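import Pool.Statements.S15540
import Pool.Agent.H837R3.KL.Rule

set_option autoImplicit false
open Pool Pool.MP_e634ee_lc

namespace Pool.Agent.S15540

/-- The negation of the preceding statement: For every KL-stochastic binary sequence A and every partial computable KL selection rule whose run on A is total, never rescans a place, and selects infinitely many bits, the selected subsequence is again KL-stochastic. -/
theorem result :
    ¬ (∀ KL : (ℕ → Bool) → Prop,
      (∀ X : ℕ → Bool, KL X ↔
        ∀ f : List Bool →. ℕ × Bool, Partrec f →
        ∀ pos : ℕ → ℕ, ∀ sel : ℕ → Bool,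
          (∀ k : ℕ, f (List.ofFn (fun i : Fin k => X (pos i))) = Part.some (pos k, sel k)) →
          Function.Injective pos →
          Set.Infinite {k : ℕ | sel k = true} →
          Filter.Tendsto
            (fun m : ℕ =>
              (((Finset.range m).filter
                (fun j => X (pos (Nat.nth (fun k => sel k = true) j)) = true)).card : ℝ) / (m : ℝ))
            Filter.atTop (nhds (1 / 2 : ℝ))) →
      ∀ A : ℕ → Bool, KL A →
      ∀ f : List Bool →. ℕ × Bool, Partrec f →
      ∀ pos : ℕ → ℕ, ∀ sel : ℕ → Bool,
        (∀ k : ℕ, f (List.ofFn (fun i : Fin k => A (pos i))) = Part.some (pos k, sel k)) →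
        Function.Injective pos →
        Set.Infinite {k : ℕ | sel k = true} →
        KL (fun j : ℕ => A (pos (Nat.nth (fun k => sel k = true) j)))) := by
  intro h
  obtain ⟨A, hA1, hA2⟩ := Pool.Agent.H837R3.KL.exists_A
  have h1 := h Pool.Agent.H837R3.KL.Sto (fun X => Iff.rfl) A hA1
    (fun w => Part.some (Encodable.encode w, true))
    (Computable.pair Computable.encode (Computable.const true)).partrec
    (Pool.Agent.H837R3.KL.posA A) (fun _ => true)
    (fun k => by
      have := Pool.Agent.H837R3.KL.hist_posA A k
      unfold Pool.Agent.H837R3.KL.hist at this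
      rw [this]
      rfl)
    (Pool.Agent.H837R3.KL.posA_inj A)
    (by simpa using Set.infinite_univ)
  apply hA2
  have h2 : (fun j : ℕ => A (Pool.Agent.H837R3.KL.posA A
      (Nat.nth (fun k : ℕ => (fun _ : ℕ => true) k = true) j))) =
      Pool.Agent.H837R3.KL.pathB A := by
    funext j
    have h3 : Nat.nth (fun k : ℕ => (fun _ : ℕ => true) k = true) j = j := by
      simp only
      exact Nat.nth_true j
    rw [h3]
    rfl
  rw [h2] at h1
  exact h1

end Pool.Agent.S15540
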