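import Pool.Statements.S15544
import Pool.Agent.H671S.Main

set_option autoImplicit false
open FirstOrder FirstOrder.Language
open Pool Pool.MP_e693fe_lc

namespace Pool.Agent.S15544

open Pool.Agent.H671S

section

variable {L : FirstOrder.Language.{0, 0}} [L.Structure ℕ] {n : ℕ} {K : Type}

theorem dfn_formula {k : ℕ} (φ : L.Formula (Fin k × Fin n)) {α : Type} (σ : Fin k → α) :
    Dfn L (fun w : α → Fin n → ℕ => φ.Realize (fun p => w (σ p.1) p.2)) := by
  have h0 : (∅ : Set ℕ).Definable L (Set.ofPred φ.Realize) := Set.empty_definable_iff.2 ⟨φ, rfl⟩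
  exact Set.Definable.preimage_comp (fun p : Fin k × Fin n => (σ p.1, p.2)) h0

theorem dfn_domain (φ : L.Formula (Fin n)) {α : Type} (i : α) :
    Dfn L (fun w : α → Fin n → ℕ => φ.Realize (w i)) := by
  have h0 : (∅ : Set ℕ).Definable L (Set.ofPred φ.Realize) := Set.empty_definable_iff.2 ⟨φ, rfl⟩
  exact Set.Definable.preimage_comp (fun p : Fin n => (i, p)) h0

end

/-- The negation of the preceding statement: There is a first-order structure on ℕ, with the usual order definable, in which every formula has finite VC-dimension, and in which an infinite field is interpretable via a definable set, definable equivalence and definable addition and multiplication. -/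
theorem result :
    ¬ (∃ (L : FirstOrder.Language.{0, 0}) (S : L.Structure ℕ),
      (∃ φ : L.Formula (Fin 2), ∀ v : Fin 2 → ℕ, φ.Realize v ↔ v 0 < v 1) ∧
      (∀ (n m : ℕ) (φ : L.Formula (Fin n ⊕ Fin m)), ∃ k : ℕ,
        ∀ A : Finset (Fin n → ℕ), A.card = k →
          ∃ B ⊆ A, ∀ b : Fin m → ℕ,
            ¬ (∀ a ∈ A, (a ∈ B ↔ φ.Realize (Sum.elim a b)))) ∧
      (∃ (K : Type) (_ : Field K), Infinite K ∧
        ∃ (n : ℕ) (D : L.Formula (Fin n)) (f : (Fin n → ℕ) → K),
          (∀ x : K, ∃ a : Fin n → ℕ, D.Realize a ∧ f a = x) ∧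
          (∃ E : L.Formula (Fin 2 × Fin n), ∀ a b : Fin n → ℕ,
            D.Realize a → D.Realize b →
              (E.Realize (fun p => ![a, b] p.1 p.2) ↔ f a = f b)) ∧
          (∃ Ad : L.Formula (Fin 3 × Fin n), ∀ a b c : Fin n → ℕ,
            D.Realize a → D.Realize b → D.Realize c →
              (Ad.Realize (fun p => ![a, b, c] p.1 p.2) ↔ f a + f b = f c)) ∧
          (∃ Mu : L.Formula (Fin 3 × Fin n), ∀ a b c : Fin n → ℕ,
            D.Realize a → D.Realize b → D.Realize c →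
              (Mu.Realize (fun p => ![a, b, c] p.1 p.2) ↔ f a * f b = f c)))) := by
  rintro ⟨L, inst, ⟨lt, hlt⟩, hnip, K, fK, hinf, n, D, f, hsurj, ⟨E, hE⟩, ⟨Ad, hAd⟩, ⟨Mu, hMu⟩⟩
  have hltd : (∅ : Set ℕ).Definable L {v : Fin 2 → ℕ | v 0 < v 1} := by
    rw [Set.empty_definable_iff]
    refine ⟨lt, ?_⟩
    ext v
    exact (hlt v).symm
  have defD : ∀ {α : Type} (i : α), Dfn L (fun w : α → Fin n → ℕ => D.Realize (w i)) :=
    fun i => dfn_domain D i
  let I : Interp L n K :=
    { D := D.Realize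
      f := f
      surj := hsurj
      defD := defD
      defE := fun {α} i j => by
        refine (((defD i).and (defD j)).and (dfn_formula E ![i, j])).congr fun w => ?_
        have e : (fun p : Fin 2 × Fin n => w ((![i, j] : Fin 2 → α) p.1) p.2) =
            fun p => ![w i, w j] p.1 p.2 := by
          funext p
          obtain ⟨s, q⟩ := p
          fin_cases s <;> rfl
        rw [e]
        constructor
        · rintro ⟨⟨h1, h2⟩, h3⟩
          exact ⟨h1, h2, (hE _ _ h1 h2).1 h3⟩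
        · rintro ⟨h1, h2, h3⟩
          exact ⟨⟨h1, h2⟩, (hE _ _ h1 h2).2 h3⟩ }
  have e3 : ∀ {α : Type} (i j k : α) (w : α → Fin n → ℕ),
      (fun p : Fin 3 × Fin n => w ((![i, j, k] : Fin 3 → α) p.1) p.2) =
        fun p => ![w i, w j, w k] p.1 p.2 := by
    intro α i j k w
    funext p
    obtain ⟨s, q⟩ := p
    fin_cases s <;> rfl
  refine Interp.no_infinite_field (I := I) hltd (fun {α} i j k => ?_) (fun {α} i j k => ?_) hnip
  · refine ((((defD i).and (defD j)).and (defD k)).and (dfn_formula Ad ![i, j, k])).congr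
      fun w => ?_
    rw [e3]
    constructor
    · rintro ⟨⟨⟨h1, h2⟩, h3⟩, h4⟩
      exact ⟨h1, h2, h3, (hAd _ _ _ h1 h2 h3).1 h4⟩
    · rintro ⟨h1, h2, h3, h4⟩
      exact ⟨⟨⟨h1, h2⟩, h3⟩, (hAd _ _ _ h1 h2 h3).2 h4⟩
  · refine ((((defD i).and (defD j)).and (defD k)).and (dfn_formula Mu ![i, j, k])).congr
      fun w => ?_
    rw [e3]
    constructor
    · rintro ⟨⟨⟨h1, h2⟩, h3⟩, h4⟩
      exact ⟨h1, h2, h3, (hMu _ _ _ h1 h2 h3).1 h4⟩
    · rintro ⟨h1, h2, h3, h4⟩
      exact ⟨⟨⟨h1, h2⟩, h3⟩, (hMu _ _ _ h1 h2 h3).2 h4⟩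

end Pool.Agent.S15544
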