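import Pool.Statements.S15550

set_option autoImplicit false
open Pool Pool.MP_e6ce3e_lc

namespace Pool.Agent.S15550

open Set Cardinal

/-- In a linear order all of whose well-ordered subsets are countable, the set of the points above
`x` at countable distance from `x` is countable. -/
theorem upper_countable {L : Type} [LinearOrder L]
    (h1 : ∀ S : Set L, S.WellFoundedOn (· < ·) → S.Countable) (x : L) :
    {y : L | x ≤ y ∧ (Icc x y).Countable}.Countable := by
  classical
  set U : Set L := {y : L | x ≤ y ∧ (Icc x y).Countable} with hU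
  let W' : Set U := {a | ∀ b : U, WellOrderingRel b a → b < a}
  have hcof : IsCofinal W' := isCofinal_setOfPred_imp_lt (WellOrderingRel : U → U → Prop)
  let W : Set L := Subtype.val '' W'
  have hwf : W.WellFoundedOn (· < ·) := by
    rw [Set.wellFoundedOn_iff]
    have hsub : ∀ a b : L, (a < b ∧ a ∈ W ∧ b ∈ W) →
        ∃ (ha : a ∈ U) (hb : b ∈ U), WellOrderingRel (⟨a, ha⟩ : U) ⟨b, hb⟩ := by
      rintro a b ⟨hab, ⟨a', ha', rfl⟩, ⟨b', hb', rfl⟩⟩
      refine ⟨a'.2, b'.2, ?_⟩
      rcases trichotomous_of (WellOrderingRel : U → U → Prop) a' b' with h | h | h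
      · exact h
      · subst h
        exact absurd hab (lt_irrefl _)
      · exact absurd (ha' b' h) (not_lt_of_gt hab)
    have hwfr : WellFounded (fun a b : L => ∃ (ha : a ∈ U) (hb : b ∈ U),
        WellOrderingRel (⟨a, ha⟩ : U) ⟨b, hb⟩) := by
      constructor
      have key : ∀ u : U, Acc (fun a b : L => ∃ (ha : a ∈ U) (hb : b ∈ U),
          WellOrderingRel (⟨a, ha⟩ : U) ⟨b, hb⟩) u.1 := by
        intro u
        induction u using (IsWellFounded.wf (r := (WellOrderingRel : U → U → Prop))).induction with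
        | _ u ih =>
          constructor
          rintro y ⟨hy, _, hr⟩
          exact ih ⟨y, hy⟩ hr
      intro a
      by_cases ha : a ∈ U
      · exact key ⟨a, ha⟩
      · constructor
        rintro y ⟨_, hb, _⟩
        exact absurd hb ha
    refine Subrelation.wf ?_ hwfr
    intro a b hab
    exact hsub a b hab
  have hWc : W.Countable := h1 W hwf
  have hcover : U ⊆ ⋃ w ∈ W, Icc x w := by
    intro y hy
    obtain ⟨w, hw, hyw⟩ := hcof ⟨y, hy⟩
    simp only [mem_iUnion]
    exact ⟨w.1, ⟨w, hw, rfl⟩, hy.1, hyw⟩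
  refine Countable.mono hcover (hWc.biUnion ?_)
  rintro w ⟨w', _, rfl⟩
  exact w'.2.2

theorem lower_countable {L : Type} [LinearOrder L]
    (h2 : ∀ S : Set L, S.WellFoundedOn (· > ·) → S.Countable) (x : L) :
    {y : L | y ≤ x ∧ (Icc y x).Countable}.Countable := by
  have := upper_countable (L := Lᵒᵈ) (fun S hS => h2 S hS) (OrderDual.toDual x)
  refine Countable.mono ?_ this
  intro y hy
  refine ⟨hy.1, ?_⟩
  have h3 := hy.2
  refine Countable.mono ?_ h3
  intro z hz
  exact ⟨hz.2, hz.1⟩

/-- being at countable distance -/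
def near (L : Type) [LinearOrder L] : Setoid L where
  r x y := (uIcc x y).Countable
  iseqv :=
    { refl := fun x => by simp
      symm := fun {x y} h => by rw [uIcc_comm]; exact h
      trans := fun {x y z} h h' => (h.union h').mono uIcc_subset_uIcc_union_uIcc }

theorem class_countable {L : Type} [LinearOrder L]
    (h1 : ∀ S : Set L, S.WellFoundedOn (· < ·) → S.Countable)
    (h2 : ∀ S : Set L, S.WellFoundedOn (· > ·) → S.Countable) (x : L) :
    {y : L | (near L).r x y}.Countable := by
  refine Countable.mono ?_ ((upper_countable h1 x).union (lower_countable h2 x))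
  intro y hy
  have hy' : (uIcc x y).Countable := hy
  rcases le_total x y with h | h
  · left
    rw [uIcc_of_le h] at hy'
    exact ⟨h, hy'⟩
  · right
    rw [uIcc_of_ge h] at hy'
    exact ⟨h, hy'⟩

/-- An uncountable short order contains a copy of the rationals any two points of which are at
uncountable distance. -/
theorem exists_emb {L : Type} [LinearOrder L]
    (h1 : ∀ S : Set L, S.WellFoundedOn (· < ·) → S.Countable)
    (h2 : ∀ S : Set L, S.WellFoundedOn (· > ·) → S.Countable)
    (h3 : ¬ (univ : Set L).Countable) :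
    ∃ e : ℚ ↪o L, ∀ p q : ℚ, p < q → ¬ (Icc (e p) (e q)).Countable := by
  classical
  let rep : L → L := fun x => (Quotient.mk (near L) x).out
  have hrep : ∀ x, (near L).r (rep x) x := fun x => Quotient.mk_out (s := near L) x
  have hrr : ∀ x y, (near L).r x y → rep x = rep y := by
    intro x y h
    have : Quotient.mk (near L) x = Quotient.mk (near L) y := Quotient.sound h
    simp only [rep, this]
  let R : Set L := range rep
  have hfar : ∀ a b : R, a < b → ¬ (Icc a.1 b.1).Countable := by
    rintro ⟨_, x, rfl⟩ ⟨_, y, rfl⟩ hab hc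
    have hlt : rep x < rep y := hab
    have h : (near L).r (rep x) (rep y) := by
      change (uIcc (rep x) (rep y)).Countable
      rw [uIcc_of_le hlt.le]
      exact hc
    have h4 : (near L).r x y :=
      (near L).iseqv.trans ((near L).iseqv.symm (hrep x)) ((near L).iseqv.trans h (hrep y))
    exact absurd (hrr x y h4) (ne_of_lt hlt)
  have hnt : Nontrivial R := by
    by_contra hcon
    rw [not_nontrivial_iff_subsingleton] at hcon
    have hne : (univ : Set L).Nonempty := by
      by_contra h
      rw [not_nonempty_iff_eq_empty] at h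
      rw [h] at h3
      exact h3 countable_empty
    obtain ⟨x, _⟩ := hne
    apply h3
    refine Countable.mono ?_ (class_countable h1 h2 x)
    intro y _
    have : rep x = rep y := congrArg Subtype.val (hcon.elim (⟨rep x, x, rfl⟩ : R) ⟨rep y, y, rfl⟩)
    have h5 := hrep y
    rw [← this] at h5
    exact (near L).iseqv.trans ((near L).iseqv.symm (hrep x)) h5
  have hdense : DenselyOrdered R := by
    constructor
    intro a b hab
    have hunc := hfar a b hab
    have hex : ∃ z ∈ Icc a.1 b.1, ¬ (near L).r a.1 z ∧ ¬ (near L).r b.1 z := by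
      by_contra hcon
      push Not at hcon
      apply hunc
      refine Countable.mono ?_ ((class_countable h1 h2 a.1).union (class_countable h1 h2 b.1))
      intro z hz
      by_cases h : (near L).r a.1 z
      · left; exact h
      · right; exact hcon z hz h
    obtain ⟨z, hz, hza, hzb⟩ := hex
    have hz1 := hrep z
    refine ⟨⟨rep z, z, rfl⟩, ?_, ?_⟩
    · change a.1 < rep z
      by_contra hcon
      push Not at hcon
      apply hza
      have hz2 : (uIcc (rep z) z).Countable := hz1
      rw [uIcc_of_le (hcon.trans hz.1)] at hz2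
      change (uIcc a.1 z).Countable
      rw [uIcc_of_le hz.1]
      exact hz2.mono (Icc_subset_Icc_left hcon)
    · change rep z < b.1
      by_contra hcon
      push Not at hcon
      apply hzb
      have hz2 : (uIcc (rep z) z).Countable := hz1
      rw [uIcc_of_ge (hz.2.trans hcon)] at hz2
      change (uIcc b.1 z).Countable
      rw [uIcc_of_ge hz.2]
      exact hz2.mono (Icc_subset_Icc_right hcon)
  obtain ⟨e⟩ := Order.embedding_from_countable_to_dense ℚ R
  refine ⟨e.trans (OrderEmbedding.subtype _), ?_⟩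
  intro p q hpq
  exact hfar (e p) (e q) (e.lt_iff_lt.2 hpq)

/-- The negation of the preceding statement: There is a linear order L with no uncountable well-ordered or reverse-well-ordered subset, of size at least aleph_1, mapping monotonically onto every size-aleph_1 linear order embeddable in it, but with no monotone surjection onto the rationals. -/
theorem result :
    ¬ (∃ (L : Type) (_ : LinearOrder L),
      (∀ S : Set L, S.WellFoundedOn (· < ·) → S.Countable) ∧
      (∀ S : Set L, S.WellFoundedOn (· > ·) → S.Countable) ∧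
      Cardinal.aleph 1 ≤ Cardinal.mk L ∧
      (∀ (K : Type) [LinearOrder K], Cardinal.mk K = Cardinal.aleph 1 →
          Nonempty (K ↪o L) → ∃ f : L → K, Monotone f ∧ Function.Surjective f) ∧
      ¬ ∃ f : L → ℚ, Monotone f ∧ Function.Surjective f) := by
  classical
  rintro ⟨L, inst, h1, h2, h3, h4, h5⟩
  have hunc : ¬ (univ : Set L).Countable := by
    intro h
    have hc : Cardinal.mk L ≤ Cardinal.aleph0 := by
      rw [← Cardinal.mk_univ]
      exact Cardinal.le_aleph0_iff_set_countable.2 h
    have : Cardinal.aleph 1 ≤ Cardinal.aleph0 := h3.trans hc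
    exact absurd this (not_le_of_gt Cardinal.aleph0_lt_aleph_one)
  obtain ⟨e, he⟩ := exists_emb h1 h2 hunc
  have h01 := he 0 1 (by norm_num)
  have hcard : Cardinal.aleph 1 ≤ Cardinal.mk (Icc (e 0) (e 1) : Set L) := by
    rw [← Cardinal.succ_aleph0]
    rw [Order.succ_le_iff]
    by_contra hcon
    exact h01 (Cardinal.le_aleph0_iff_set_countable.1 (not_lt.1 hcon))
  obtain ⟨J, hJsub, hJ⟩ := Cardinal.le_mk_iff_exists_subset.1 hcard
  let D1 : Set L := e '' Iio 0
  let D2 : Set L := e '' Ioi 1
  let K : Set L := D1 ∪ J ∪ D2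
  have hD1 : D1.Countable := (Set.to_countable (Iio (0 : ℚ))).image e
  have hD2 : D2.Countable := (Set.to_countable (Ioi (1 : ℚ))).image e
  have hK : Cardinal.mk K = Cardinal.aleph 1 := by
    apply le_antisymm
    · have hu1 : Cardinal.mk (D1 ∪ J : Set L) ≤ Cardinal.aleph 1 := by
        refine (Cardinal.mk_union_le _ _).trans ?_
        rw [hJ]
        exact Cardinal.add_le_of_le (Cardinal.aleph0_le_aleph 1)
          ((Cardinal.le_aleph0_iff_set_countable.2 hD1).trans (Cardinal.aleph0_le_aleph 1)) le_rfl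
      refine (Cardinal.mk_union_le _ _).trans ?_
      exact Cardinal.add_le_of_le (Cardinal.aleph0_le_aleph 1) hu1
          ((Cardinal.le_aleph0_iff_set_countable.2 hD2).trans (Cardinal.aleph0_le_aleph 1))
    · rw [← hJ]
      exact Cardinal.mk_le_mk_of_subset (fun x hx => Or.inl (Or.inr hx))
  obtain ⟨f, hf, hfs⟩ := h4 K hK ⟨OrderEmbedding.subtype _⟩
  -- collapse `J` to one point
  have hJ0 : ∀ x ∈ J, e 0 ≤ x := fun x hx => (hJsub hx).1
  have hJ1 : ∀ x ∈ J, x ≤ e 1 := fun x hx => (hJsub hx).2
  have hex : ∀ x : K, ∃ r : ℚ, (x.1 = e r ∧ r < 0) ∨ (r = 0 ∧ x.1 ∈ J) ∨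
      (x.1 = e (r + 1) ∧ 0 < r) := by
    rintro ⟨x, (hx | hx) | hx⟩
    · obtain ⟨r, hr, rfl⟩ := hx
      exact ⟨r, Or.inl ⟨rfl, hr⟩⟩
    · exact ⟨0, Or.inr (Or.inl ⟨rfl, hx⟩)⟩
    · obtain ⟨r, hr, rfl⟩ := hx
      have hr' : (1 : ℚ) < r := hr
      exact ⟨r - 1, Or.inr (Or.inr ⟨by simp, by linarith⟩)⟩
  choose g hg using hex
  have hgm : Monotone g := by
    intro x y hxy
    have hxy' : x.1 ≤ y.1 := hxy
    by_contra hcon
    push Not at hcon
    rcases hg x with ⟨hx1, hx2⟩ | ⟨hx1, hx2⟩ | ⟨hx1, hx2⟩ <;>
    rcases hg y with ⟨hy1, hy2⟩ | ⟨hy1, hy2⟩ | ⟨hy1, hy2⟩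
    · rw [hx1, hy1, e.le_iff_le] at hxy'
      linarith
    · linarith
    · linarith
    · have := hJ0 x.1 hx2
      have h6 : e (g y) < e 0 := e.lt_iff_lt.2 hy2
      rw [hy1] at hxy'
      exact absurd (this.trans hxy') (not_le_of_gt h6)
    · linarith
    · linarith
    · rw [hx1, hy1, e.le_iff_le] at hxy'
      linarith
    · have := hJ1 y.1 hy2
      rw [hx1] at hxy'
      have h6 := hxy'.trans this
      rw [e.le_iff_le] at h6
      linarith
    · rw [hx1, hy1, e.le_iff_le] at hxy'
      linarith
  have hgs : Function.Surjective g := by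
    intro r
    rcases lt_trichotomy r 0 with hr | hr | hr
    · refine ⟨⟨e r, Or.inl (Or.inl ⟨r, hr, rfl⟩)⟩, ?_⟩
      rcases hg ⟨e r, Or.inl (Or.inl ⟨r, hr, rfl⟩)⟩ with ⟨hx1, hx2⟩ | ⟨hx1, hx2⟩ | ⟨hx1, hx2⟩
      · exact (e.injective hx1).symm
      · have := hJ0 _ hx2
        simp only [e.le_iff_le] at this
        linarith
      · have := e.injective hx1
        linarith
    · subst hr
      have hne : J.Nonempty := by
        by_contra h
        rw [not_nonempty_iff_eq_empty] at h
        rw [h] at hJ
        simp at hJ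
        exact absurd hJ.symm (Cardinal.aleph_pos 1).ne'
      obtain ⟨x, hx⟩ := hne
      refine ⟨⟨x, Or.inl (Or.inr hx)⟩, ?_⟩
      rcases hg ⟨x, Or.inl (Or.inr hx)⟩ with ⟨hx1, hx2⟩ | ⟨hx1, hx2⟩ | ⟨hx1, hx2⟩
      · have := hJ0 _ hx
        simp only at hx1
        rw [hx1, e.le_iff_le] at this
        linarith
      · exact hx1
      · have := hJ1 _ hx
        simp only at hx1
        rw [hx1, e.le_iff_le] at this
        linarith
    · have hr1 : (1 : ℚ) < r + 1 := by linarith
      refine ⟨⟨e (r + 1), Or.inr ⟨r + 1, hr1, rfl⟩⟩, ?_⟩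
      rcases hg ⟨e (r + 1), Or.inr ⟨r + 1, hr1, rfl⟩⟩ with
        ⟨hx1, hx2⟩ | ⟨hx1, hx2⟩ | ⟨hx1, hx2⟩
      · have := e.injective hx1
        linarith
      · have := hJ1 _ hx2
        simp only [e.le_iff_le] at this
        linarith
      · have := e.injective hx1
        linarith
  exact h5 ⟨g ∘ f, hgm.comp hf, hgs.comp hfs⟩

end Pool.Agent.S15550
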