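import Pool.Statements.S15573
import Pool.Agent.H84R3.VTop

set_option autoImplicit false
open Pool Pool.MP_eb5c78_lc

namespace Pool.Agent.S15573

/-- For any Polish group acting continuously on a Polish space, nonempty open v, countable α≥1 and Σ⁰_α set P, some finer Polish topology makes the Vaught transform of P open, keeps the action continuous, and has a countable basis of Σ⁰_α sets. -/
theorem result :
    ∀ (G X : Type) [tG : TopologicalSpace G] [Group G] [IsTopologicalGroup G] [PolishSpace G]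
      (τ : TopologicalSpace X), @PolishSpace X τ →
      ∀ (a : G × X → X), (∀ x : X, a (1, x) = x) →
        (∀ (g h : G) (x : X), a (g * h, x) = a (g, a (h, x))) →
        @Continuous (G × X) X
          (TopologicalSpace.induced Prod.fst tG ⊓ TopologicalSpace.induced Prod.snd τ) τ a →
      ∀ (v : Set G), IsOpen v → v.Nonempty →
      ∀ (α : Ordinal.{0}), 1 ≤ α → α < (Cardinal.aleph.{0} 1).ord →
      ∀ (P : Set X),
        (∀ S : Ordinal.{0} → Set (Set X),
          (∀ γ : Ordinal.{0}, 1 ≤ γ → ∀ U : Set X, @IsOpen X τ U → U ∈ S γ) →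
          (∀ γ : Ordinal.{0}, ∀ f : ℕ → Set X,
            (∀ n : ℕ, ∃ β : Ordinal.{0}, 1 ≤ β ∧ β < γ ∧ (f n)ᶜ ∈ S β) →
              (⋃ n, f n) ∈ S γ) →
          P ∈ S α) →
      ∃ t : TopologicalSpace X, @PolishSpace X t ∧ t ≤ τ ∧
        @IsOpen X t {x : X | ¬ IsMeagre {g : G | g ∈ v ∧ a (g, x) ∈ P}} ∧
        @Continuous (G × X) X
          (TopologicalSpace.induced Prod.fst tG ⊓ TopologicalSpace.induced Prod.snd t) t a ∧
        ∃ B : Set (Set X), B.Countable ∧ @TopologicalSpace.IsTopologicalBasis X t B ∧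
          ∀ b ∈ B,
            (∀ S : Ordinal.{0} → Set (Set X),
              (∀ γ : Ordinal.{0}, 1 ≤ γ → ∀ U : Set X, @IsOpen X τ U → U ∈ S γ) →
              (∀ γ : Ordinal.{0}, ∀ f : ℕ → Set X,
                (∀ n : ℕ, ∃ β : Ordinal.{0}, 1 ≤ β ∧ β < γ ∧ (f n)ᶜ ∈ S β) →
                  (⋃ n, f n) ∈ S γ) →
              b ∈ S α) := by
  intro G X tG _ _ _ τ hτ a _ham1 ham hc v hv _hvne α hα1 _hα P hP
  obtain ⟨_, t, ht, htτ, htS, hact, htV⟩ : Pool.Agent.H84R3.GoodV τ a α P := by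
    refine hP (fun γ => {A | Pool.Agent.H84R3.GoodV τ a γ A}) ?_ ?_
    · intro γ hγ U hU
      exact Pool.Agent.H84R3.goodV_open τ hτ a hc hγ hU
    · intro γ f hf
      exact Pool.Agent.H84R3.goodV_step τ hτ a ham hc f hf
  obtain ⟨B, hB1, hB2, hB3⟩ := Pool.Agent.H84R3.hasSub_basis hτ hα1 htS
  exact ⟨t, ht, htτ, (htV v hv).1, hact, B, hB1, hB2, hB3⟩

end Pool.Agent.S15573
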