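import Pool.Statements.S15593
import Pool.Agent.H84R6.Asm
import Pool.Agent.H84R6.Deg2

set_option autoImplicit false
open Pool Pool.MP_ef54cf_lc

namespace Pool.Agent.S15593

/-- There is a countable group acting continuously on Baire space and a Borel bijection Φ from Cantor space onto Baire space sending Turing equivalence exactly to orbit equivalence, with Φ(x) Turing-equivalent to the jump of x for all x above some z. -/
theorem result :
    ∃ (G : Type) (_ : Group G) (_ : Countable G) (_ : MulAction G (ℕ → ℕ)),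
      (∀ g : G, Continuous (fun y : ℕ → ℕ => g • y)) ∧
      ∃ Φ : (ℕ → Bool) ≃ᵐ (ℕ → ℕ),
        (∀ x y : ℕ → Bool,
          (RecursiveIn {PFun.lift (fun n => (x n).toNat)} (PFun.lift (fun n => (y n).toNat)) ∧
           RecursiveIn {PFun.lift (fun n => (y n).toNat)} (PFun.lift (fun n => (x n).toNat)))
            ↔ ∃ g : G, g • Φ x = Φ y) ∧
        ∃ z : ℕ → Bool, ∀ x : ℕ → Bool,
          RecursiveIn {PFun.lift (fun n => (x n).toNat)} (PFun.lift (fun n => (z n).toNat)) →
          ∃ A : Set ℕ,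
            (∃ f : ℕ →. ℕ, RecursiveIn {PFun.lift (fun n => (x n).toNat)} f ∧
                ∀ n, n ∈ A ↔ (f n).Dom) ∧
            (∀ B : Set ℕ,
              (∃ f : ℕ →. ℕ, RecursiveIn {PFun.lift (fun n => (x n).toNat)} f ∧
                  ∀ n, n ∈ B ↔ (f n).Dom) →
              RecursiveIn {PFun.lift (A.indicator (fun _ => (1 : ℕ)))}
                (PFun.lift (B.indicator (fun _ => (1 : ℕ))))) ∧
            RecursiveIn {PFun.lift (A.indicator (fun _ => (1 : ℕ)))} (PFun.lift (Φ x)) ∧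
            RecursiveIn {PFun.lift (Φ x)} (PFun.lift (A.indicator (fun _ => (1 : ℕ)))) := by
  obtain ⟨G, h1, h2, h3, hc, Φ, h4, h5⟩ := Pool.Agent.H84R6.main
  refine ⟨G, h1, h2, h3, hc, Φ, ?_, Pool.Agent.H84R6.zz, ?_⟩
  · intro x y
    rw [← h4 x y]
    constructor
    · rintro ⟨h6, h7⟩
      exact ⟨Pool.Agent.H84R6.tle_iff.1 h6, Pool.Agent.H84R6.tle_iff.1 h7⟩
    · rintro ⟨h6, h7⟩
      exact ⟨Pool.Agent.H84R6.tle_iff.2 h6, Pool.Agent.H84R6.tle_iff.2 h7⟩
  · intro x hx
    obtain ⟨x1, h6, h7, h8⟩ := h5 x (Pool.Agent.H84R6.tle_iff.1 hx)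
    exact Pool.Agent.H84R6.jump_clause h6 h7 h8

end Pool.Agent.S15593
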