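import Pool.Statements.S15622
import Pool.Agent.H168DD.PIMain

set_option autoImplicit false
open Pool Pool.MP_f548aa_lc

namespace Pool.Agent.S15622

/-- The negation of the preceding statement: For any two Π^0_1 classes P, Q of infinite binary sequences, neither the whole space, the posets under inclusion of Π^0_1 classes containing P and of those containing Q are order-isomorphic. -/
theorem result :
    ¬ (∀ P Q : Set (ℕ → Bool),
      (∃ T : List Bool → Bool, Computable T ∧
          P = {x : ℕ → Bool | ∀ n : ℕ, T ((List.range n).map x) = true}) →
      (∃ T : List Bool → Bool, Computable T ∧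
          Q = {x : ℕ → Bool | ∀ n : ℕ, T ((List.range n).map x) = true}) →
      P ≠ Set.univ → Q ≠ Set.univ →
      Nonempty
        ({S : Set (ℕ → Bool) //
            (∃ T : List Bool → Bool, Computable T ∧
              S = {x : ℕ → Bool | ∀ n : ℕ, T ((List.range n).map x) = true}) ∧ P ⊆ S} ≃o
         {S : Set (ℕ → Bool) //
            (∃ T : List Bool → Bool, Computable T ∧
              S = {x : ℕ → Bool | ∀ n : ℕ, T ((List.range n).map x) = true}) ∧ Q ⊆ S})) := by
  exact Pool.Agent.H572R4.final Pool.Agent.H572R4.taskA1 Pool.Agent.H168DD.PID2.taskA2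
    Pool.Agent.H168DD.PIMain.hmain

end Pool.Agent.S15622
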