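import Pool.Statements.S15651
import Pool.Agent.H454R3.QP

set_option autoImplicit false
open Pool Pool.MP_fccb05_lc

namespace Pool.Agent.S15651

/-- There is an effective Π⁰₂ subspace of P(ℕ) (given by c.e. U, V) whose points are pairwise ⊆-incomparable (T₁), containing a point A that is enumeration-equivalent to no cototal set C (C ≤ₑ complement of C). -/
theorem result :
    ∃ (U V : ℕ × List ℕ → Prop), REPred U ∧ REPred V ∧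
      (∀ X Y : Set ℕ,
        (∀ i : ℕ, (∃ l : List ℕ, U (i, l) ∧ ∀ k ∈ l, k ∈ X) →
          ∃ l : List ℕ, V (i, l) ∧ ∀ k ∈ l, k ∈ X) →
        (∀ i : ℕ, (∃ l : List ℕ, U (i, l) ∧ ∀ k ∈ l, k ∈ Y) →
          ∃ l : List ℕ, V (i, l) ∧ ∀ k ∈ l, k ∈ Y) →
        X ⊆ Y → X = Y) ∧
      ∃ A : Set ℕ,
        (∀ i : ℕ, (∃ l : List ℕ, U (i, l) ∧ ∀ k ∈ l, k ∈ A) →
          ∃ l : List ℕ, V (i, l) ∧ ∀ k ∈ l, k ∈ A) ∧
        ∀ C : Set ℕ,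
          (∃ W : ℕ × List ℕ → Prop, REPred W ∧
            ∀ n : ℕ, n ∈ C ↔ ∃ l : List ℕ, W (n, l) ∧ ∀ k ∈ l, k ∉ C) →
          ¬ ((∃ W : ℕ × List ℕ → Prop, REPred W ∧
                ∀ n : ℕ, n ∈ A ↔ ∃ l : List ℕ, W (n, l) ∧ ∀ k ∈ l, k ∈ C) ∧
             (∃ W : ℕ × List ℕ → Prop, REPred W ∧
                ∀ n : ℕ, n ∈ C ↔ ∃ l : List ℕ, W (n, l) ∧ ∀ k ∈ l, k ∈ A)) := by
  obtain ⟨y, hy⟩ := Pool.Agent.H454R3.QP.exists_point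
  refine ⟨Pool.Agent.H454R3.QP.U, Pool.Agent.H454R3.QP.V, Pool.Agent.H454R3.QP.U_re,
    Pool.Agent.H454R3.QP.V_re, fun X Y hX hY hXY => ?_, Pool.Agent.H454R3.QP.code y, ?_, ?_⟩
  · exact Pool.Agent.H454R3.QP.antichain (Pool.Agent.H454R3.QP.sp_good hX)
      (Pool.Agent.H454R3.QP.sp_good hY) hXY
  · exact Pool.Agent.H454R3.QP.good_sp (Pool.Agent.H454R3.QP.code_good y)
  · rintro C ⟨Wc, hWc, hc⟩ ⟨⟨Wb, hWb, hb⟩, ⟨Wa, hWa, ha⟩⟩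
    obtain ⟨c, hc'⟩ := Pool.Agent.H454R3.QP.exists_ap hWc
    obtain ⟨b, hb'⟩ := Pool.Agent.H454R3.QP.exists_ap hWb
    obtain ⟨a, ha'⟩ := Pool.Agent.H454R3.QP.exists_ap hWa
    have hC : Pool.Agent.H454R3.QP.Ap a (Pool.Agent.H454R3.QP.code y) = C := by
      rw [ha']; ext n; exact (ha n).symm
    refine hy (a, b, c) ⟨?_, ?_⟩
    · show Pool.Agent.H454R3.QP.Ap a _ = Pool.Agent.H454R3.QP.Ap c
        (Pool.Agent.H454R3.QP.Ap a (Pool.Agent.H454R3.QP.code y))ᶜ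
      rw [hC, hc']; ext n; exact hc n
    · show _ = Pool.Agent.H454R3.QP.Ap b
        (Pool.Agent.H454R3.QP.Ap a (Pool.Agent.H454R3.QP.code y))
      rw [hC, hb']; ext n; exact hb n

end Pool.Agent.S15651
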