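import Pool.Statements.S15657
import Pool.Agent.H454R3.Spec.Final

set_option autoImplicit false
open Pool Pool.MP_fed070_lc

open Pool.Agent.H454R3.Spec Pool.Agent.Helper578.JD Pool.Agent.Helper578.JD.Oracle
open Pool.Agent.Helper578.JD.Defs

namespace Pool.Agent.S15657

/-- For every computable, computably bounded tree T, some computable commutative ring with unity has a bijection from the infinite paths of T onto its prime ideals (as 0/1 characteristic functions) in which each path is Turing equivalent to its image. -/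
theorem result :
  ∀ (T : List ℕ → Bool) (g : List ℕ → ℕ), Computable T → Computable g →
    (∀ σ τ : List ℕ, σ <+: τ → T τ = true → T σ = true) →
    (∀ (σ : List ℕ) (i : ℕ), T (σ ++ [i]) = true → i < g σ) →
    ∃ (U : ℕ → Bool) (add mul : ℕ → ℕ → ℕ) (neg : ℕ → ℕ) (zero one : ℕ),
      Computable U ∧ Computable₂ add ∧ Computable₂ mul ∧ Computable neg ∧
      U zero = true ∧ U one = true ∧
      (∀ a b, U a = true → U b = true → U (add a b) = true ∧ U (mul a b) = true) ∧
      (∀ a, U a = true → U (neg a) = true) ∧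
      (∀ a b c, U a = true → U b = true → U c = true →
        add (add a b) c = add a (add b c) ∧ mul (mul a b) c = mul a (mul b c) ∧
        mul a (add b c) = add (mul a b) (mul a c)) ∧
      (∀ a b, U a = true → U b = true → add a b = add b a ∧ mul a b = mul b a) ∧
      (∀ a, U a = true → add zero a = a ∧ add a (neg a) = zero ∧ mul one a = a) ∧
      ∃ F : (ℕ → ℕ) → (ℕ → ℕ),
        Set.BijOn F {f : ℕ → ℕ | ∀ n, T ((List.range n).map f) = true}
          {χ : ℕ → ℕ | (∀ n, χ n = 0 ∨ χ n = 1) ∧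
            (∀ n, χ n = 1 → U n = true) ∧
            χ zero = 1 ∧ χ one = 0 ∧
            (∀ a b, χ a = 1 → χ b = 1 → χ (add a b) = 1) ∧
            (∀ a b, U a = true → χ b = 1 → χ (mul a b) = 1) ∧
            (∀ a b, U a = true → U b = true → χ (mul a b) = 1 → χ a = 1 ∨ χ b = 1)} ∧
        ∀ f : ℕ → ℕ, (∀ n, T ((List.range n).map f) = true) →
          TuringEquivalent (PFun.lift f) (PFun.lift (F f)) := by
  intro T g hT hg hcl hb
  classical
  let T' : Set (List ℕ) := {σ | T σ = true}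
  have hT' : ComputablePred (· ∈ T') := by
    refine ⟨Classical.decPred _, hT.of_eq fun σ => ?_⟩
    by_cases h : T σ = true
    · rw [h]
      exact (@decide_eq_true (σ ∈ T') (Classical.decPred _ σ) h).symm
    · have h2 : T σ = false := by simpa using h
      rw [h2]
      exact (@decide_eq_false (σ ∈ T') (Classical.decPred _ σ) h).symm
  have hcl' : ∀ σ τ : List ℕ, σ <+: τ → τ ∈ T' → σ ∈ T' := fun σ τ h h' => hcl σ τ h h'
  have hb' : ∀ (σ : List ℕ) (i : ℕ), σ ++ [i] ∈ T' → i < g σ := fun σ i h => hb σ i h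
  have hpaths : ∀ f : ℕ → ℕ, f ∈ paths T' ↔ ∀ n, T ((List.range n).map f) = true := fun f => Iff.rfl
  by_cases hne : (paths T').Nonempty
  · obtain ⟨U, inst, hU, F, hF, hdeg⟩ := main hcl' hT' hg hb' hne
    obtain ⟨decU, hdU⟩ := hU.univ
    obtain ⟨fa, hfa, ea⟩ := hU.add
    obtain ⟨fm, hfm, em⟩ := hU.mul
    obtain ⟨fn, hfn, en⟩ := hU.neg
    have hUt : ∀ n : ℕ, (decide (n ∈ U) : Bool) = true ↔ n ∈ U := fun n => decide_eq_true_iff
    have hdU' : Computable fun n : ℕ => (decide (n ∈ U) : Bool) := by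
      refine hdU.of_eq fun n => ?_
      exact decide_eq_decide.2 Iff.rfl
    refine ⟨fun n => decide (n ∈ U), fa, fm, fn, ((0 : U) : ℕ), ((1 : U) : ℕ), hdU', hfa, hfm, hfn,
      (hUt _).2 (0 : U).2, (hUt _).2 (1 : U).2, ?_, ?_, ?_, ?_, ?_, ?_⟩
    · intro a b ha hb
      simp only [hUt] at ha hb ⊢
      refine ⟨?_, ?_⟩
      · have := ea ⟨a, ha⟩ ⟨b, hb⟩
        rw [← this]; exact Subtype.property _
      · have := em ⟨a, ha⟩ ⟨b, hb⟩
        rw [← this]; exact Subtype.property _
    · intro a ha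
      simp only [hUt] at ha ⊢
      have := en ⟨a, ha⟩
      rw [← this]; exact Subtype.property _
    · intro a b c ha hb hc
      simp only [hUt] at ha hb hc
      have e1 := ea ⟨a, ha⟩ ⟨b, hb⟩
      have e2 := ea (⟨a, ha⟩ + ⟨b, hb⟩) ⟨c, hc⟩
      have e3 := ea ⟨b, hb⟩ ⟨c, hc⟩
      have e4 := ea ⟨a, ha⟩ (⟨b, hb⟩ + ⟨c, hc⟩)
      have m1 := em ⟨a, ha⟩ ⟨b, hb⟩
      have m2 := em (⟨a, ha⟩ * ⟨b, hb⟩) ⟨c, hc⟩
      have m3 := em ⟨b, hb⟩ ⟨c, hc⟩
      have m4 := em ⟨a, ha⟩ (⟨b, hb⟩ * ⟨c, hc⟩)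
      have d1 := em ⟨a, ha⟩ (⟨b, hb⟩ + ⟨c, hc⟩)
      have d2 := em ⟨a, ha⟩ ⟨c, hc⟩
      have d3 := ea (⟨a, ha⟩ * ⟨b, hb⟩) (⟨a, ha⟩ * ⟨c, hc⟩)
      simp only at e1 e2 e3 e4 m1 m2 m3 m4 d1 d2 d3
      refine ⟨?_, ?_, ?_⟩
      · rw [← e1, ← e2, ← e3, ← e4, add_assoc]
      · rw [← m1, ← m2, ← m3, ← m4, mul_assoc]
      · rw [← e3, ← d1, ← m1, ← d2, ← d3, mul_add]
    · intro a b ha hb
      simp only [hUt] at ha hb
      have e1 := ea ⟨a, ha⟩ ⟨b, hb⟩
      have e2 := ea ⟨b, hb⟩ ⟨a, ha⟩
      have m1 := em ⟨a, ha⟩ ⟨b, hb⟩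
      have m2 := em ⟨b, hb⟩ ⟨a, ha⟩
      simp only at e1 e2 m1 m2
      refine ⟨?_, ?_⟩
      · rw [← e1, ← e2, add_comm]
      · rw [← m1, ← m2, mul_comm]
    · intro a ha
      simp only [hUt] at ha
      have e1 := ea 0 ⟨a, ha⟩
      have e2 := en ⟨a, ha⟩
      have e3 := ea ⟨a, ha⟩ (-⟨a, ha⟩)
      have e4 := em 1 ⟨a, ha⟩
      simp only at e1 e2 e3 e4
      refine ⟨?_, ?_, ?_⟩
      · rw [← e1, zero_add]
      · rw [← e2, ← e3, add_neg_cancel]
      · rw [← e4, one_mul]
    · let F' : (ℕ → ℕ) → (ℕ → ℕ) := fun f =>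
        if h : f ∈ paths T' then chiN ((F ⟨f, h⟩ : SpecSet U) : Set ℕ) else f
      have hF' : ∀ (f : ℕ → ℕ) (h : f ∈ paths T'),
          F' f = chiN ((F ⟨f, h⟩ : SpecSet U) : Set ℕ) := fun f h => dif_pos h
      refine ⟨F', ⟨?_, ?_, ?_⟩, ?_⟩
      · intro f hf
        have hf' : f ∈ paths T' := hf
        show _ ∧ _
        rw [hF' f hf']
        obtain ⟨S, p, hp, hS⟩ := F ⟨f, hf'⟩
        have hmem : ∀ n, chiN S n = 1 ↔ ∃ x : U, x ∈ p ∧ (x : ℕ) = n := by
          intro n
          rw [chiN_eq_one, hS]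
          exact Iff.rfl
        have hmemU : ∀ x : U, chiN S (x : ℕ) = 1 ↔ x ∈ p := by
          intro x
          rw [hmem]
          constructor
          · rintro ⟨y, hy, hyx⟩
            rwa [Subtype.ext hyx] at hy
          · exact fun h => ⟨x, h, rfl⟩
        refine ⟨fun n => ?_, fun n hn => ?_, ?_, ?_, ?_, ?_, ?_⟩
        · by_cases h : n ∈ S
          · exact Or.inr (chiN_eq_one.2 h)
          · exact Or.inl (chiN_eq_zero.2 h)
        · obtain ⟨x, _, rfl⟩ := (hmem n).1 hn
          exact (hUt _).2 x.2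
        · exact (hmemU 0).2 p.zero_mem
        · refine chiN_eq_zero.2 fun h => ?_
          have h1 := (hmemU 1).1 (chiN_eq_one.2 h)
          exact hp.ne_top (p.eq_top_iff_one.2 h1)
        · intro a b ha hb
          obtain ⟨x, hx, rfl⟩ := (hmem a).1 ha
          obtain ⟨y, hy, rfl⟩ := (hmem b).1 hb
          rw [← ea x y]
          exact (hmemU _).2 (p.add_mem hx hy)
        · intro a b ha hb
          obtain ⟨y, hy, rfl⟩ := (hmem b).1 hb
          have ha' := (hUt _).1 ha
          have := em ⟨a, ha'⟩ y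
          simp only at this
          rw [← this]
          exact (hmemU _).2 (p.mul_mem_left _ hy)
        · intro a b ha hb hab
          have ha' := (hUt _).1 ha
          have hb' := (hUt _).1 hb
          have := em ⟨a, ha'⟩ ⟨b, hb'⟩
          simp only at this
          rw [← this] at hab
          rcases hp.mem_or_mem ((hmemU _).1 hab) with h | h
          · exact Or.inl ((hmemU ⟨a, ha'⟩).2 h)
          · exact Or.inr ((hmemU ⟨b, hb'⟩).2 h)
      · intro f hf f' hf' hff
        have h1 : f ∈ paths T' := hf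
        have h2 : f' ∈ paths T' := hf'
        rw [hF' f h1, hF' f' h2] at hff
        have h3 : ((F ⟨f, h1⟩ : SpecSet U) : Set ℕ) = ((F ⟨f', h2⟩ : SpecSet U) : Set ℕ) := by
          ext n
          rw [← chiN_eq_one, hff, chiN_eq_one]
        have h4 := hF.1 (Subtype.ext h3)
        exact congrArg Subtype.val h4
      · rintro χ ⟨c1, c2, c3, c4, c5, c6, c7⟩
        let p : Ideal U :=
          { carrier := {x | χ (x : ℕ) = 1}
            zero_mem' := c3
            add_mem' := by
              intro x y hx hy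
              show χ ((x + y : U) : ℕ) = 1
              rw [ea x y]
              exact c5 _ _ hx hy
            smul_mem' := by
              intro x y hy
              show χ ((x * y : U) : ℕ) = 1
              rw [em x y]
              exact c6 _ _ ((hUt _).2 x.2) hy }
        have hpm : ∀ x : U, x ∈ p ↔ χ (x : ℕ) = 1 := fun x => Iff.rfl
        have hp : p.IsPrime := by
          refine ⟨?_, ?_⟩
          · rw [Ne, Ideal.eq_top_iff_one, hpm, c4]
            exact zero_ne_one
          · intro x y hxy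
            rw [hpm, em x y] at hxy
            exact c7 _ _ ((hUt _).2 x.2) ((hUt _).2 y.2) hxy
        obtain ⟨f, hf⟩ := hF.2 ⟨Subtype.val '' (p : Set U), p, hp, rfl⟩
        refine ⟨f, f.2, ?_⟩
        rw [hF' _ f.2]
        have h5 : ((F ⟨(f : ℕ → ℕ), f.2⟩ : SpecSet U) : Set ℕ) = Subtype.val '' (p : Set U) := by
          have : (F ⟨(f : ℕ → ℕ), f.2⟩ : SpecSet U) = F f := rfl
          rw [this, hf]
        rw [h5]
        funext n
        rcases c1 n with h | h
        · rw [h]
          refine chiN_eq_zero.2 ?_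
          rintro ⟨x, hx, rfl⟩
          have : χ (x : ℕ) = 1 := hx
          rw [h] at this
          exact zero_ne_one this
        · rw [h]
          refine chiN_eq_one.2 ?_
          exact ⟨⟨n, (hUt n).1 (c2 n h)⟩, h, rfl⟩
      · intro f hf
        have h1 : f ∈ paths T' := hf
        rw [hF' f h1]
        exact hdeg ⟨f, h1⟩
  · refine ⟨fun n => decide (n = 0), fun _ _ => 0, fun _ _ => 0, fun _ => 0, 0, 0, ?_,
      Computable.const 0, Computable.const 0, Computable.const 0, by simp, by simp, by simp,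
      by simp, by simp, by simp, ?_, fun f => f, ⟨?_, ?_, ?_⟩, ?_⟩
    · exact (Primrec.eq.decide.comp Primrec.id (Primrec.const 0)).to_comp
    · intro a ha
      have : a = 0 := by simpa using ha
      simp [this]
    · intro f hf
      exact absurd ⟨f, hf⟩ hne
    · intro f hf
      exact absurd ⟨f, hf⟩ hne
    · rintro χ ⟨_, _, c3, c4, _⟩
      rw [c3] at c4
      exact absurd c4 one_ne_zero
    · intro f hf
      exact absurd ⟨f, hf⟩ hne

end Pool.Agent.S15657
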