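import Pool.Statements.S15670
import Pool.Agent.H792R3.Asm

set_option autoImplicit false
open MeasureTheory
open Pool Pool.MP_0d4f18_mp

namespace Pool.Agent.S15670

/-- The negation of the preceding statement: If V is limit-periodic and some vector's spectral measure for H_V has a nonzero absolutely continuous part, then for every W in the hull of V, every spectral measure of H_W is absolutely continuous. Spectral measures are identified by their moments. -/
theorem result :
    ¬ (∀ V : ℤ → ℝ,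
      (∀ ε : ℝ, 0 < ε → ∃ p : ℤ, p ≠ 0 ∧ ∃ Q : ℤ → ℝ,
          Function.Periodic Q p ∧ ∀ n : ℤ, |V n - Q n| < ε) →
      (∃ φ : ℤ → ℂ, Summable (fun n : ℤ => ‖φ n‖ ^ 2) ∧
        ∃ μ : Measure ℝ, IsFiniteMeasure μ ∧
          (∀ k : ℕ, Integrable (fun x : ℝ => x ^ k) μ ∧
            ((∫ x, x ^ k ∂μ : ℝ) : ℂ) =
              ∑' n : ℤ, (starRingEnd ℂ) (φ n) *
                (Nat.iterate (fun ψ : ℤ → ℂ => fun m : ℤ =>
                  ψ (m + 1) + ψ (m - 1) + (V m : ℂ) * ψ m) k φ) n) ∧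
          ¬ μ ⟂ₘ volume) →
      ∀ W : ℤ → ℝ,
        (∀ ε : ℝ, 0 < ε → ∃ k : ℤ, ∀ n : ℤ, |W n - V (n + k)| < ε) →
        ∀ φ : ℤ → ℂ, Summable (fun n : ℤ => ‖φ n‖ ^ 2) →
          ∀ μ : Measure ℝ, IsFiniteMeasure μ →
            (∀ k : ℕ, Integrable (fun x : ℝ => x ^ k) μ ∧
              ((∫ x, x ^ k ∂μ : ℝ) : ℂ) =
                ∑' n : ℤ, (starRingEnd ℂ) (φ n) *
                  (Nat.iterate (fun ψ : ℤ → ℂ => fun m : ℤ =>
                    ψ (m + 1) + ψ (m - 1) + (W m : ℂ) * ψ m) k φ) n) →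
            μ ≪ volume) := by
  intro hall
  obtain ⟨V, hlp, hac, Ψ, E, hΨ0, hΨs, hΨ⟩ := Pool.Agent.H792R3.main_pot
  set φ : ℤ → ℂ := fun n => (Ψ n : ℂ) with hφ
  have hφs : Summable (fun n : ℤ => ‖φ n‖ ^ 2) := by
    refine hΨs.congr (fun n => ?_)
    simp only [hφ, Complex.norm_real, Real.norm_eq_abs, sq_abs]
  set C : ℝ := ∑' n, Ψ n ^ 2 with hC
  have hC0 : 0 < C := by
    refine lt_of_lt_of_le (by positivity : 0 < Ψ 0 ^ 2) ?_
    exact hΨs.le_tsum 0 (fun n _ => sq_nonneg _)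
  set μ : Measure ℝ := ENNReal.ofReal C • Measure.dirac E with hμ
  have hfin : IsFiniteMeasure μ := by
    rw [hμ]
    constructor
    simp
  have hit : ∀ k : ℕ, (Nat.iterate (fun ψ : ℤ → ℂ => fun m : ℤ =>
      ψ (m + 1) + ψ (m - 1) + (V m : ℂ) * ψ m) k φ) = fun n => (E : ℂ) ^ k * φ n := by
    intro k
    induction k with
    | zero => funext n; simp
    | succ k ih =>
      rw [Function.iterate_succ_apply', ih]
      funext n
      have h1 := hΨ n
      have h2 : φ (n + 1) + φ (n - 1) + (V n : ℂ) * φ n = (E : ℂ) * φ n := by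
        simp only [hφ]
        exact_mod_cast h1
      rw [pow_succ]
      linear_combination (E : ℂ) ^ k * h2
  have hmom : ∀ k : ℕ, Integrable (fun x : ℝ => x ^ k) μ ∧
      ((∫ x, x ^ k ∂μ : ℝ) : ℂ) =
        ∑' n : ℤ, (starRingEnd ℂ) (φ n) *
          (Nat.iterate (fun ψ : ℤ → ℂ => fun m : ℤ =>
            ψ (m + 1) + ψ (m - 1) + (V m : ℂ) * ψ m) k φ) n := by
    intro k
    constructor
    · rw [hμ]
      apply Integrable.smul_measure _ ENNReal.ofReal_ne_top
      exact integrable_dirac (by simp)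
    · rw [hit, hμ, integral_smul_measure, integral_dirac, ENNReal.toReal_ofReal hC0.le,
        smul_eq_mul]
      have h1 : ∀ n, (starRingEnd ℂ) (φ n) * ((E : ℂ) ^ k * φ n) = ((E ^ k * Ψ n ^ 2 : ℝ) : ℂ) := by
        intro n
        simp only [hφ, Complex.conj_ofReal]
        push_cast
        ring
      simp_rw [h1]
      rw [← Complex.ofReal_tsum, tsum_mul_left, ← hC]
      push_cast
      ring
  have hself : ∀ ε : ℝ, 0 < ε → ∃ k : ℤ, ∀ n : ℤ, |V n - V (n + k)| < ε :=
    fun ε hε => ⟨0, fun n => by simpa using hε⟩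
  have key := hall V hlp hac V hself φ hφs μ hfin hmom
  have h1 : μ {E} = 0 := key (by simp)
  rw [hμ] at h1
  simp only [Measure.smul_apply, Measure.dirac_apply_of_mem (Set.mem_singleton E), smul_eq_mul,
    mul_one, ENNReal.ofReal_eq_zero] at h1
  linarith

end Pool.Agent.S15670
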