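import Pool.Statements.S15686
import Pool.Agent.H40R3.Hald1
import Pool.Agent.H40R3.Hald2

set_option autoImplicit false
open Pool Pool.MP_1f8098_mp

namespace Pool.Agent.S15686

open Pool.Agent.H40R3.Hald in
/-- The negation of the preceding statement: For each ℓ≥2 there is c>0 such that for all N, every symmetric (ℓ even) or antisymmetric (ℓ odd) LLL state of degree ≤ℓN(N−1)/2 orthogonal to the kernel of the relative-angular-momentum-(ℓ−2) pair Hamiltonian has energy ≥ c times its squared norm. -/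
theorem result :
    ¬ (∀ ℓ : ℕ, 2 ≤ ℓ → ∃ c : ℝ, 0 < c ∧ ∀ N : ℕ, ∀ ψ : MvPolynomial (Fin N) ℂ,
      (∀ σ : Equiv.Perm (Fin N),
        MvPolynomial.rename (⇑σ) ψ = (((Equiv.Perm.sign σ : ℤ) : ℂ) ^ ℓ) • ψ) →
      ψ.totalDegree ≤ ℓ * N * (N - 1) / 2 →
      (∀ φ : MvPolynomial (Fin N) ℂ,
        (∀ σ : Equiv.Perm (Fin N),
          MvPolynomial.rename (⇑σ) φ = (((Equiv.Perm.sign σ : ℤ) : ℂ) ^ ℓ) • φ) →
        φ.totalDegree ≤ ℓ * N * (N - 1) / 2 →
        (∀ i j : Fin N, i < j →
          ∀ α ∈ (MvPolynomial.aeval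
              (fun k : Fin N => (if k = i then
                  MvPolynomial.C (((Real.sqrt 2 : ℝ) : ℂ)⁻¹) *
                    (MvPolynomial.X i + MvPolynomial.X j)
                else if k = j then
                  MvPolynomial.C (((Real.sqrt 2 : ℝ) : ℂ)⁻¹) *
                    (MvPolynomial.X i - MvPolynomial.X j)
                else MvPolynomial.X k : MvPolynomial (Fin N) ℂ)) φ).support,
            α j ≠ ℓ - 2) →
        φ.support.sum (fun α => (starRingEnd ℂ) (MvPolynomial.coeff α φ) *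
          MvPolynomial.coeff α ψ * ∏ k : Fin N, ((Nat.factorial (α k) : ℕ) : ℂ)) = 0) →
      c * ψ.support.sum (fun α => ‖MvPolynomial.coeff α ψ‖ ^ 2 *
          ∏ k : Fin N, ((Nat.factorial (α k) : ℕ) : ℝ)) ≤
        ∑ i : Fin N, ∑ j : Fin N,
          (if i < j then
            (Finset.filter (fun α => α j = ℓ - 2)
              (MvPolynomial.aeval
                (fun k : Fin N => (if k = i then
                    MvPolynomial.C (((Real.sqrt 2 : ℝ) : ℂ)⁻¹) *
                      (MvPolynomial.X i + MvPolynomial.X j)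
                  else if k = j then
                    MvPolynomial.C (((Real.sqrt 2 : ℝ) : ℂ)⁻¹) *
                      (MvPolynomial.X i - MvPolynomial.X j)
                  else MvPolynomial.X k : MvPolynomial (Fin N) ℂ)) ψ).support).sum
              (fun α => ‖MvPolynomial.coeff α
                  (MvPolynomial.aeval
                    (fun k : Fin N => (if k = i then
                        MvPolynomial.C (((Real.sqrt 2 : ℝ) : ℂ)⁻¹) *
                          (MvPolynomial.X i + MvPolynomial.X j)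
                      else if k = j then
                        MvPolynomial.C (((Real.sqrt 2 : ℝ) : ℂ)⁻¹) *
                          (MvPolynomial.X i - MvPolynomial.X j)
                      else MvPolynomial.X k : MvPolynomial (Fin N) ℂ)) ψ)‖ ^ 2 *
                ∏ k : Fin N, ((Nat.factorial (α k) : ℕ) : ℝ))
          else 0)) := by
  intro H
  obtain ⟨c, hc, H⟩ := H 4 (by norm_num)
  -- choose N
  have hlim := tendsto_pow_const_div_const_pow_of_one_lt 4 (one_lt_two : (1 : ℝ) < 2)
  have hev : ∀ᶠ n : ℕ in Filter.atTop, (n : ℝ) ^ 4 / 2 ^ n < c / 8 :=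
    hlim.eventually (gt_mem_nhds (by positivity))
  obtain ⟨N, hN1, hN3⟩ := (hev.and (Filter.eventually_ge_atTop 3)).exists
  have hs4 : ∀ σ : Equiv.Perm (Fin N), (((Equiv.Perm.sign σ : ℤ) : ℂ) ^ 4) = 1 := by
    intro σ
    rcases Int.units_eq_one_or (Equiv.Perm.sign σ) with h | h <;> rw [h] <;> norm_num
  have h1 := H N (psi N) (by intro σ; rw [hs4, one_smul]; exact psi_symm σ)
    (psi_deg (by omega)) (by
      intro φ hφ _ hφk
      apply psi_orth hN3 φ
      · intro σ
        have := hφ σ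
        rwa [hs4, one_smul] at this
      · intro i j hij β hβ
        by_contra hne
        exact hφk i j hij β (MvPolynomial.mem_support_iff.2 hne) hβ)
  have h2 := psi_norm hN3
  have h3 : ∑ i : Fin N, ∑ j : Fin N,
          (if i < j then
            (Finset.filter (fun α : Fin N →₀ ℕ => α j = 2) (T i j (psi N)).support).sum
              (fun α => ‖MvPolynomial.coeff α (T i j (psi N))‖ ^ 2 *
                ∏ k : Fin N, ((Nat.factorial (α k) : ℕ) : ℝ))
          else 0) ≤ ∑ _i : Fin N, ∑ _j : Fin N,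
            (1 / 2 : ℝ) ^ N * 2 * (N * (N - 1)) * (Nat.factorial N : ℝ) := by
    apply Finset.sum_le_sum
    intro i _
    apply Finset.sum_le_sum
    intro j _
    have hN1' : (1 : ℝ) ≤ N := by exact_mod_cast (by omega : 1 ≤ N)
    by_cases hij : i < j
    · rw [if_pos hij]
      exact pair_energy hN3 i j hij.ne
    · rw [if_neg hij]
      have : (0 : ℝ) ≤ (N : ℝ) - 1 := by linarith
      positivity
  have h4 : c * ((1 / 4 : ℝ) * (Nat.factorial N : ℝ)) ≤
      ∑ _i : Fin N, ∑ _j : Fin N, (1 / 2 : ℝ) ^ N * 2 * (N * (N - 1)) * (Nat.factorial N : ℝ) :=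
    (mul_le_mul_of_nonneg_left h2 hc.le).trans (h1.trans h3)
  simp only [Finset.sum_const, Finset.card_univ, Fintype.card_fin, nsmul_eq_mul] at h4
  have hf : (0 : ℝ) < (Nat.factorial N : ℝ) := by exact_mod_cast Nat.factorial_pos N
  have h5 : c * (1 / 4) ≤ (N : ℝ) * (N * ((1 / 2 : ℝ) ^ N * 2 * (N * (N - 1)))) := by
    have : (c * (1 / 4)) * (Nat.factorial N : ℝ) ≤
        ((N : ℝ) * (N * ((1 / 2 : ℝ) ^ N * 2 * (N * (N - 1))))) * (Nat.factorial N : ℝ) := by
      calc _ = c * ((1 / 4 : ℝ) * (Nat.factorial N : ℝ)) := by ring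
        _ ≤ _ := h4
        _ = _ := by ring
    exact le_of_mul_le_mul_right this hf
  have h6 : (N : ℝ) * (N * ((1 / 2 : ℝ) ^ N * 2 * (N * (N - 1)))) ≤ 2 * ((N : ℝ) ^ 4 / 2 ^ N) := by
    have hp : (0 : ℝ) < (1 / 2 : ℝ) ^ N := by positivity
    have hN0 : (0 : ℝ) ≤ N := by positivity
    have e : (N : ℝ) ^ 4 / 2 ^ N = (1 / 2 : ℝ) ^ N * (N : ℝ) ^ 4 := by
      rw [one_div, inv_pow, div_eq_mul_inv, mul_comm]
    rw [e]
    have : (N : ℝ) * (N * ((1 / 2 : ℝ) ^ N * 2 * (N * (N - 1)))) =
        2 * ((1 / 2 : ℝ) ^ N * ((N : ℝ) ^ 4 - (N : ℝ) ^ 3)) := by ring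
    rw [this]
    have h7 : (N : ℝ) ^ 4 - (N : ℝ) ^ 3 ≤ (N : ℝ) ^ 4 := by
      have : (0 : ℝ) ≤ (N : ℝ) ^ 3 := by positivity
      linarith
    have := mul_le_mul_of_nonneg_left h7 hp.le
    linarith
  linarith

end Pool.Agent.S15686
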