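import Pool.Statements.S15704
import Pool.Agent.H508R3.Mixed

set_option autoImplicit false
open Pool Pool.MP_3ab43d_mp

namespace Pool.Agent.S15704

open Pool.Agent.H508R3

/-- The negation of the preceding statement: For every limit-periodic real potential V on ℤ, if the discrete Schrödinger operator has nonempty absolutely continuous spectrum, then its spectrum is purely absolutely continuous (spectral measures of δ_0 and δ_1 are absolutely continuous). -/
theorem result :
    ¬ (∀ V : ℤ → ℝ,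
      (∀ ε : ℝ, 0 < ε → ∃ p : ℕ, 0 < p ∧ ∃ W : ℤ → ℝ,
          (∀ n : ℤ, W (n + (p : ℤ)) = W n) ∧ ∀ n : ℤ, |V n - W n| < ε) →
      ∀ μ0 μ1 : MeasureTheory.Measure ℝ,
        MeasureTheory.IsFiniteMeasure μ0 →
        MeasureTheory.IsFiniteMeasure μ1 →
        (∀ n : ℕ, MeasureTheory.Integrable (fun x : ℝ => x ^ n) μ0 ∧
          ∫ x, x ^ n ∂μ0 =
            ((fun u : ℤ → ℝ => fun m : ℤ => u (m + 1) + u (m - 1) + V m * u m)^[n]
              (Pi.single (0 : ℤ) (1 : ℝ) : ℤ → ℝ)) 0) →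
        (∀ n : ℕ, MeasureTheory.Integrable (fun x : ℝ => x ^ n) μ1 ∧
          ∫ x, x ^ n ∂μ1 =
            ((fun u : ℤ → ℝ => fun m : ℤ => u (m + 1) + u (m - 1) + V m * u m)^[n]
              (Pi.single (1 : ℤ) (1 : ℝ) : ℤ → ℝ)) 1) →
        ¬ MeasureTheory.Measure.MutuallySingular (μ0 + μ1) MeasureTheory.volume →
        MeasureTheory.Measure.AbsolutelyContinuous (μ0 + μ1) MeasureTheory.volume) := by
  intro hall
  obtain ⟨V, H, μ0, μ1, E, hV, hH, f0, f1, i0, i1, -, m0, m1, hat, hac⟩ := mixed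
  have h := hall V hV μ0 μ1 f0 f1 (fun n => ⟨i0 n, m0 n⟩) (fun n => ⟨i1 n, m1 n⟩) (by
    intro hs
    exact hac (MeasureTheory.Measure.MutuallySingular.add_left_iff.mp hs).1)
  have h2 : (μ0 + μ1) {E} = 0 := h (Real.volume_singleton)
  rw [MeasureTheory.Measure.add_apply] at h2
  exact hat (add_eq_zero.mp h2).1

end Pool.Agent.S15704
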