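import Pool.Statements.S15715
import Pool.Agent.H908R3.Vir.Final

set_option autoImplicit false
open Pool Pool.MP_436870_mp

namespace Pool.Agent.S15715

open Pool.Agent.H908R3.Vir

/-- For all equal masses m>0 and E>0 there is ε>0 such that no bounded, collision-free, all-time planar three-body solution with centre of mass 0, angular momentum 0 and energy −E keeps U(q(t)) strictly between 2(E−ε) and 2(E+ε) for all t. -/
theorem result :
    ∀ m : ℝ, 0 < m → ∀ E : ℝ, 0 < E → ∃ ε : ℝ, 0 < ε ∧
      ∀ q : ℝ → Fin 3 → ℂ,
        (∀ i, ContDiff ℝ 2 (fun s => q s i)) →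
        (∀ t : ℝ, ∀ i j : Fin 3, i ≠ j → q t i ≠ q t j) →
        (∀ t : ℝ, ∑ i, q t i = 0) →
        (∀ t : ℝ, ∀ i : Fin 3,
          m • deriv (deriv (fun s => q s i)) t =
            ∑ j ∈ Finset.univ.erase i,
              (m * m / ‖q t j - q t i‖ ^ 3) • (q t j - q t i)) →
        (∀ t : ℝ, (1 / 2 : ℝ) * ∑ i, m * ‖deriv (fun s => q s i) t‖ ^ 2
            - ∑ i, ∑ j ∈ Finset.Ioi i, m * m / ‖q t i - q t j‖ = -E) →
        (∀ t : ℝ, ∑ i, m * ((starRingEnd ℂ) (q t i) * deriv (fun s => q s i) t).im = 0) →
        (∃ C : ℝ, ∀ t : ℝ, ∀ i : Fin 3, ‖q t i‖ ≤ C) →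
        ¬ (∀ t : ℝ,
            2 * (E - ε) < ∑ i, ∑ j ∈ Finset.Ioi i, m * m / ‖q t i - q t j‖ ∧
            ∑ i, ∑ j ∈ Finset.Ioi i, m * m / ‖q t i - q t j‖ < 2 * (E + ε)) := by
  intro m hm E hE
  obtain ⟨η, hη, hno⟩ := no_near hm (div_pos hE hm)
  refine ⟨η * m / 2, by positivity, ?_⟩
  intro q hq hne hsum hNewton hEn hJ _ hband
  -- the force function
  have hS : ∀ t, ∑ i, ∑ j ∈ Finset.Ioi i, m * m / ‖q t i - q t j‖
      = m * U m (q t 0) (q t 1) (q t 2) := by
    intro t
    have e0 : (Finset.Ioi (0 : Fin 3)) = {1, 2} := by decide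
    have e1 : (Finset.Ioi (1 : Fin 3)) = {2} := by decide
    have e2 : (Finset.Ioi (2 : Fin 3)) = ∅ := by decide
    rw [Fin.sum_univ_three, e0, e1, e2, Finset.sum_pair (by decide), Finset.sum_singleton,
      Finset.sum_empty]
    unfold U
    rw [norm_sub_rev (q t 1) (q t 0), norm_sub_rev (q t 2) (q t 1)]
    ring
  have hd1 : ∀ i t, HasDerivAt (fun s => q s i) (deriv (fun s => q s i) t) t := fun i t =>
    ((hq i).differentiable (by norm_num)).differentiableAt.hasDerivAt
  have hd2 : ∀ i t, HasDerivAt (deriv (fun s => q s i)) (deriv (deriv (fun s => q s i)) t) t := by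
    intro i t
    have h1 : ContDiff ℝ 1 (deriv (fun s => q s i)) := by
      have : ContDiff ℝ (1 + 1) (fun s => q s i) := by
        have := hq i
        norm_num
        exact this
      exact ((contDiff_succ_iff_deriv (n := 1)).1 this).2.2
    exact (h1.differentiable (by norm_num)).differentiableAt.hasDerivAt
  have hacc : ∀ t, ∀ i j k : Fin 3, i ≠ j → i ≠ k → j ≠ k →
      deriv (deriv (fun s => q s i)) t = acc m (q t i) (q t j) (q t k) := by
    intro t i j k hij hik hjk
    have h1 := hNewton t i
    have e : Finset.univ.erase i = {j, k} := by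
      have key : ∀ i j k : Fin 3, i ≠ j → i ≠ k → j ≠ k → Finset.univ.erase i = {j, k} := by
        decide
      exact key i j k hij hik hjk
    rw [e, Finset.sum_pair hjk] at h1
    have h2 : m • deriv (deriv (fun s => q s i)) t = m • acc m (q t i) (q t j) (q t k) := by
      rw [h1]
      unfold acc
      rw [smul_add, smul_smul, smul_smul, mul_div_assoc, mul_div_assoc]
    exact smul_right_injective ℂ hm.ne' h2
  refine hno (fun t => q t 0) (fun t => q t 1) (fun t => q t 2) (deriv fun s => q s 0)
    (deriv fun s => q s 1) (deriv fun s => q s 2) ?_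
  have hsol : Sol m (fun t => q t 0) (fun t => q t 1) (fun t => q t 2) (deriv fun s => q s 0)
    (deriv fun s => q s 1) (deriv fun s => q s 2) :=
    { mpos := hm
      ab := fun t => sub_ne_zero.2 (hne t 1 0 (by decide))
      bc := fun t => sub_ne_zero.2 (hne t 2 1 (by decide))
      ca := fun t => sub_ne_zero.2 (hne t 0 2 (by decide))
      sum := fun t => by
        have := hsum t
        rwa [Fin.sum_univ_three] at this
      da := hd1 0
      db := hd1 1
      dc := hd1 2
      dva := fun t => by
        have := hd2 0 t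
        rwa [hacc t 0 1 2 (by decide) (by decide) (by decide)] at this
      dvb := fun t => by
        have := hd2 1 t
        rwa [hacc t 1 2 0 (by decide) (by decide) (by decide)] at this
      dvc := fun t => by
        have := hd2 2 t
        rwa [hacc t 2 0 1 (by decide) (by decide) (by decide)] at this }
  exact {
    toSol := hsol
    hU := fun t => by
      have h1 := hband t
      rw [hS t] at h1
      have e : m * (E / m) = E := by field_simp
      rw [abs_le]
      constructor
      · have : m * (2 * (E / m) - η) ≤ m * U m (q t 0) (q t 1) (q t 2) := by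
          have : m * (2 * (E / m) - η) = 2 * (E - η * m / 2) := by
            rw [mul_sub, mul_left_comm, e]; ring
          linarith [h1.1]
        have := le_of_mul_le_mul_left this hm
        linarith
      · have : m * U m (q t 0) (q t 1) (q t 2) ≤ m * (2 * (E / m) + η) := by
          have : m * (2 * (E / m) + η) = 2 * (E + η * m / 2) := by
            rw [mul_add, mul_left_comm, e]; ring
          linarith [h1.2]
        have := le_of_mul_le_mul_left this hm
        linarith
    hK := fun t => by
      have h1 := hEn t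
      rw [hS t, Fin.sum_univ_three] at h1
      rw [dot_self, dot_self, dot_self]
      have h2 : m * (‖deriv (fun s => q s 0) t‖ ^ 2 + ‖deriv (fun s => q s 1) t‖ ^ 2
          + ‖deriv (fun s => q s 2) t‖ ^ 2) = m * (2 * (U m (q t 0) (q t 1) (q t 2) - E / m)) := by
        have e : m * (E / m) = E := by field_simp
        linear_combination 2 * h1 + 2 * e
      exact mul_left_cancel₀ hm.ne' h2
    hJ := fun t => by
      have h1 := hJ t
      rw [Fin.sum_univ_three] at h1
      simp only [Complex.mul_im, Complex.conj_re, Complex.conj_im] at h1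
      have h2 : m * (crs (q t 0) (deriv (fun s => q s 0) t) + crs (q t 1) (deriv (fun s => q s 1) t)
          + crs (q t 2) (deriv (fun s => q s 2) t)) = m * 0 := by
        unfold crs
        linear_combination h1
      exact mul_left_cancel₀ hm.ne' h2 }

end Pool.Agent.S15715
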