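import Pool.Statements.S15740
import Pool.Agent.H221R3.StM

set_option autoImplicit false
open Pool Pool.MP_73239e_mp

namespace Pool.Agent.S15740

/-- The negation of the preceding statement: For λ>0 and irrational α in (0,1), the spectrum of the Sturmian operator with frequency α and that with frequency {1/α} have open neighbourhoods related by a C¹ diffeomorphism that carries one spectrum onto the other. -/
theorem result :
    ¬ (∀ lam : ℝ, 0 < lam → ∀ α : ℝ, Irrational α → 0 < α → α < 1 →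
      ∀ H₁ H₂ : lp (fun _ : ℤ => ℂ) 2 →L[ℂ] lp (fun _ : ℤ => ℂ) 2,
        (∀ (ψ : lp (fun _ : ℤ => ℂ) 2) (n : ℤ),
            H₁ ψ n = ψ (n + 1) + ψ (n - 1)
              + ((if 1 - α ≤ Int.fract ((n : ℝ) * α) then lam else 0 : ℝ) : ℂ) * ψ n) →
        (∀ (ψ : lp (fun _ : ℤ => ℂ) 2) (n : ℤ),
            H₂ ψ n = ψ (n + 1) + ψ (n - 1)
              + ((if 1 - Int.fract α⁻¹ ≤ Int.fract ((n : ℝ) * Int.fract α⁻¹) then lam else 0 : ℝ) : ℂ)
                * ψ n) →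
        ∃ U V : Set ℝ, IsOpen U ∧ IsOpen V ∧
          {E : ℝ | (E : ℂ) ∈ spectrum ℂ H₁} ⊆ U ∧
          {E : ℝ | (E : ℂ) ∈ spectrum ℂ H₂} ⊆ V ∧
          ∃ f g : ℝ → ℝ, Set.MapsTo f U V ∧ Set.MapsTo g V U ∧ Set.InvOn g f U V ∧
            ContDiffOn ℝ 1 f U ∧ ContDiffOn ℝ 1 g V ∧
            f '' {E : ℝ | (E : ℂ) ∈ spectrum ℂ H₁} = {E : ℝ | (E : ℂ) ∈ spectrum ℂ H₂}) := by
  intro hcon
  obtain ⟨α, h1, h2, h3, h4⟩ := H221R3.Sturm.not_diffeo (lam := 1) one_ne_zero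
  obtain ⟨U, V, hU, hV, hSU, hSV, f, g, hf, hg, hinv, cf, cg, him⟩ :=
    hcon 1 one_pos α h1 h2 h3 (H221R3.Sturm.HO 1 α) (H221R3.Sturm.HO 1 (Int.fract α⁻¹))
      (fun ψ n => H221R3.Sturm.HO_apply 1 α ψ n)
      (fun ψ n => H221R3.Sturm.HO_apply 1 (Int.fract α⁻¹) ψ n)
  exact h4 U V f g hU hV hSU cf cg hf (fun x hx => hinv.1 hx) him

end Pool.Agent.S15740
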