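import Pool.Statements.S15746
import Pool.Agent.H508R3.Mixed

set_option autoImplicit false
open MeasureTheory
open Pool Pool.MP_7b7407_mp

namespace Pool.Agent.S15746

open Pool.Agent.H508R3

/-- The negation of the preceding statement: For every limit-periodic real potential V on ℤ, the operator ψ(n+1)+ψ(n−1)+V(n)ψ(n) on ℓ²(ℤ) has pure spectral type: all spectral measures are absolutely continuous, or all pure point, or all singular continuous. -/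
theorem result :
    ¬ (∀ V : ℤ → ℝ,
    (∀ ε : ℝ, 0 < ε → ∃ p : ℕ, 0 < p ∧ ∃ W : ℤ → ℝ,
        (∀ n : ℤ, W (n + (p : ℤ)) = W n) ∧ ∀ n : ℤ, |V n - W n| < ε) →
    ∀ H : lp (fun _ : ℤ => ℂ) 2 →L[ℂ] lp (fun _ : ℤ => ℂ) 2,
      (∀ ψ : lp (fun _ : ℤ => ℂ) 2, ∀ n : ℤ,
          (H ψ) n = ψ (n + 1) + ψ (n - 1) + (V n : ℂ) * ψ n) →
      ((∀ ψ : lp (fun _ : ℤ => ℂ) 2, ∀ μ : Measure ℝ, IsFiniteMeasure μ →
          (∀ k : ℕ, Integrable (fun x : ℝ => x ^ k) μ) →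
          (∀ k : ℕ, ∫ x, (x : ℂ) ^ k ∂μ = inner ℂ ψ ((H ^ k) ψ)) →
          μ ≪ volume) ∨
       (∀ ψ : lp (fun _ : ℤ => ℂ) 2, ∀ μ : Measure ℝ, IsFiniteMeasure μ →
          (∀ k : ℕ, Integrable (fun x : ℝ => x ^ k) μ) →
          (∀ k : ℕ, ∫ x, (x : ℂ) ^ k ∂μ = inner ℂ ψ ((H ^ k) ψ)) →
          ∃ S : Set ℝ, S.Countable ∧ μ Sᶜ = 0) ∨
       (∀ ψ : lp (fun _ : ℤ => ℂ) 2, ∀ μ : Measure ℝ, IsFiniteMeasure μ →
          (∀ k : ℕ, Integrable (fun x : ℝ => x ^ k) μ) →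
          (∀ k : ℕ, ∫ x, (x : ℂ) ^ k ∂μ = inner ℂ ψ ((H ^ k) ψ)) →
          (μ ⟂ₘ volume ∧ ∀ x : ℝ, μ {x} = 0)))) := by
  intro hall
  obtain ⟨V, H, μ0, μ1, E, hV, hH, f0, f1, i0, i1, hin, m0, m1, hat, hac⟩ := mixed
  have hin' : ∀ k : ℕ, ∫ x, (x : ℂ) ^ k ∂μ0 = inner ℂ (lp.single 2 (0 : ℤ) (1 : ℂ) :
      lp (fun _ : ℤ => ℂ) 2) ((H ^ k) (lp.single 2 (0 : ℤ) (1 : ℂ) : lp (fun _ : ℤ => ℂ) 2)) := by
    intro k
    rw [← hin k, ← integral_complex_ofReal]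
    congr 1
    funext x
    push_cast
    rfl
  rcases hall V hV H hH with h | h | h
  · have h2 : μ0 {E} = 0 := h _ μ0 f0 i0 hin' (Real.volume_singleton)
    exact hat h2
  · obtain ⟨S, hS, hS0⟩ := h _ μ0 f0 i0 hin'
    apply hac
    refine ⟨Sᶜ, hS.measurableSet.compl, hS0, ?_⟩
    rw [compl_compl]
    exact hS.measure_zero _
  · exact hac (h _ μ0 f0 i0 hin').1

end Pool.Agent.S15746
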