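import Pool.Statements.S15758
import Pool.Agent.H221R3.StN

set_option autoImplicit false
open Pool Pool.MP_8e2a40_mp

namespace Pool.Agent.S15758

/-- The negation of the preceding statement: For coupling λ>0 and irrational α, β in (0,1) whose continued fraction digits agree after shifting, the Sturmian spectra are mapped onto each other by a C^1 diffeomorphism between open neighborhoods of them. -/
theorem result :
    ¬ (∀ (lam : ℝ), 0 < lam →
    ∀ (Sig : ℝ → Set ℝ),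
      (∀ (γ E : ℝ), E ∈ Sig γ ↔
        ¬ (∀ u : ℤ → ℂ, Memℓp u 2 →
            ∃! v : ℤ → ℂ, Memℓp v 2 ∧
              ∀ n : ℤ, v (n + 1) + v (n - 1)
                + (((lam * (if 1 - γ ≤ Int.fract ((n : ℝ) * γ) then (1 : ℝ) else 0) - E : ℝ)) : ℂ) * v n
                = u n)) →
    ∀ (α β : ℝ), Irrational α → Irrational β → α ∈ Set.Ioo (0 : ℝ) 1 → β ∈ Set.Ioo (0 : ℝ) 1 →
      (∃ m n : ℕ, ∀ i : ℕ,
        Stream'.Seq.get? (GenContFract.of β).partDens (i + m)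
          = Stream'.Seq.get? (GenContFract.of α).partDens (i + n)) →
      ∃ U₁ U₂ : Set ℝ, IsOpen U₁ ∧ IsOpen U₂ ∧ Sig α ⊆ U₁ ∧ Sig β ⊆ U₂ ∧
        ∃ f g : ℝ → ℝ, ContDiffOn ℝ 1 f U₁ ∧ ContDiffOn ℝ 1 g U₂ ∧
          Set.MapsTo f U₁ U₂ ∧ Set.MapsTo g U₂ U₁ ∧
          (∀ x ∈ U₁, g (f x) = x) ∧ (∀ y ∈ U₂, f (g y) = y) ∧
          f '' Sig α = Sig β) := by
  intro hcon
  obtain ⟨α, h1, h2, h3, h4⟩ := H221R3.Sturm.not_diffeo (lam := 1) one_ne_zero
  have hβ : Irrational (Int.fract α⁻¹) := by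
    rw [Int.fract]
    exact h1.inv.sub_intCast _
  have hβ0 : 0 < Int.fract α⁻¹ := by
    rcases (Int.fract_nonneg α⁻¹).lt_or_eq with h | h
    · exact h
    · exfalso
      rw [← h] at hβ
      exact hβ ⟨0, by simp⟩
  obtain ⟨U, V, hU, hV, hSU, hSV, f, g, cf, cg, hf, hg, hgf, hfg, him⟩ :=
    hcon 1 one_pos (H221R3.Sturm.Sp 1) (fun γ E => H221R3.Sturm.mem_Sp_iff γ E) α (Int.fract α⁻¹)
      h1 hβ ⟨h2, h3⟩ ⟨hβ0, Int.fract_lt_one _⟩
      ⟨0, 1, fun i => H221R3.Sturm.cf_shift h2 h3 h1 i⟩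
  exact h4 U V f g hU hV hSU cf cg hf hgf him

end Pool.Agent.S15758
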