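import Pool.Statements.S15765
import Pool.Agent.H7R3.Mag.MP
-- import your own Pool.Agent.* helpers here

set_option autoImplicit false
open Pool Pool.MP_97ca50_mp

namespace Pool.Agent.S15765

open MeasureTheory Pool.Agent.H7R3.Mag in
/-- the field energy controls the square of the `ℓ¹` norm of the field -/
lemma field_bound {A : E3 → E3} (hA : ContDiff ℝ ((⊤ : ℕ∞) : WithTop ℕ∞) A)
    (hAs : HasCompactSupport A) :
    ∫ y, Bn A y ^ 2 ≤ 3 * ∫ y, (1 / 2 : ℝ) * ∑ j : Fin 3, ∑ k : Fin 3,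
                ((fderiv ℝ A y (EuclideanSpace.single j (1 : ℝ))) k
                  - (fderiv ℝ A y (EuclideanSpace.single k (1 : ℝ))) j) ^ 2 := by
  have one : ((1:ℕ∞) : WithTop ℕ∞) ≤ ((⊤ : ℕ∞) : WithTop ℕ∞) := by exact_mod_cast le_top
  have hBc := fun j k => continuous_Bf (hA.of_le one) j k
  have hBs := fun j k => compact_Bf hAs j k
  have hBn := continuous_Bn (hA.of_le one)
  have e1 : ∀ y, (1 / 2 : ℝ) * ∑ j : Fin 3, ∑ k : Fin 3,
                ((fderiv ℝ A y (EuclideanSpace.single j (1 : ℝ))) k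
                  - (fderiv ℝ A y (EuclideanSpace.single k (1 : ℝ))) j) ^ 2
      = Bf A 0 1 y ^ 2 + Bf A 0 2 y ^ 2 + Bf A 1 2 y ^ 2 := by
    intro y
    simp only [Fin.sum_univ_three, Bf, ee]
    ring
  simp only [e1]
  have iB : ∀ j k, Integrable fun y => Bf A j k y ^ 2 := fun j k => by
    have hcc : Continuous fun y => Bf A j k y ^ 2 := (hBc j k).pow 2
    exact hcc.integrable_of_hasCompactSupport
      ((hBs j k).comp_left (g := fun t : ℝ => t ^ 2) (by simp))
  have iN : Integrable fun y => Bn A y ^ 2 := by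
    have hcc : Continuous fun y => Bn A y ^ 2 := hBn.pow 2
    exact hcc.integrable_of_hasCompactSupport
      ((compact_Bn hAs).comp_left (g := fun t : ℝ => t ^ 2) (by simp))
  rw [← integral_const_mul]
  refine integral_mono iN ((((iB 0 1).add (iB 0 2)).add (iB 1 2)).const_mul 3) fun y => ?_
  show Bn A y ^ 2 ≤ 3 * (Bf A 0 1 y ^ 2 + Bf A 0 2 y ^ 2 + Bf A 1 2 y ^ 2)
  unfold Bn
  nlinarith [sq_nonneg (|Bf A 0 1 y| - |Bf A 0 2 y|), sq_nonneg (|Bf A 0 1 y| - |Bf A 1 2 y|),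
    sq_nonneg (|Bf A 0 2 y| - |Bf A 1 2 y|), sq_abs (Bf A 0 1 y), sq_abs (Bf A 0 2 y),
    sq_abs (Bf A 1 2 y)]

/-- For every ε>0 there is zc>0 such that for all N and 0≤z<zc, the Pauli energy Σ‖σ·(p_i+A)ψ‖² − zΣ⟨∣x_i∣⁻¹⟩ + ε∫∣curl A∣², without e–e repulsion, is bounded below over smooth compactly supported antisymmetric normalized ψ and smooth compactly supported A. -/
theorem result :
    ∀ ε : ℝ, 0 < ε → ∃ zc : ℝ, 0 < zc ∧ ∀ N : ℕ, ∀ z : ℝ, 0 ≤ z → z < zc →
      ∃ C : ℝ, ∀ (ψ : (Fin N → EuclideanSpace ℝ (Fin 3)) → (Fin N → Fin 2) → ℂ)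
        (A : EuclideanSpace ℝ (Fin 3) → EuclideanSpace ℝ (Fin 3)),
        (∀ s, ContDiff ℝ ((⊤ : ℕ∞) : WithTop ℕ∞) (fun x => ψ x s)) →
        (∀ s, HasCompactSupport (fun x => ψ x s)) →
        (∀ (σ : Equiv.Perm (Fin N)) (x : Fin N → EuclideanSpace ℝ (Fin 3)) (s : Fin N → Fin 2),
          ψ (x ∘ σ) (s ∘ σ) = ((Equiv.Perm.sign σ : ℤ) : ℂ) * ψ x s) →
        (∫ x, ∑ s, ‖ψ x s‖ ^ 2) = 1 →
        ContDiff ℝ ((⊤ : ℕ∞) : WithTop ℕ∞) A →
        HasCompactSupport A →
        C ≤ (∑ i : Fin N, ∫ x, ∑ s : Fin N → Fin 2,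
              ‖∑ k : Fin 3, ∑ t : Fin 2,
                ((![!![0, 1; 1, 0], !![0, -Complex.I; Complex.I, 0], !![1, 0; 0, -1]] :
                    Fin 3 → Matrix (Fin 2) (Fin 2) ℂ) k (s i) t) *
                  ((-Complex.I) * fderiv ℝ (fun y => ψ y (Function.update s i t)) x
                      (Pi.single i (EuclideanSpace.single k (1 : ℝ)) :
                        Fin N → EuclideanSpace ℝ (Fin 3))
                    + ((A (x i) k : ℝ) : ℂ) * ψ x (Function.update s i t))‖ ^ 2)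
            - z * (∑ i : Fin N, ∫ x, ∑ s : Fin N → Fin 2, ‖ψ x s‖ ^ 2 / ‖x i‖)
            + ε * ∫ y, (1 / 2 : ℝ) * ∑ j : Fin 3, ∑ k : Fin 3,
                ((fderiv ℝ A y (EuclideanSpace.single j (1 : ℝ))) k
                  - (fderiv ℝ A y (EuclideanSpace.single k (1 : ℝ))) j) ^ 2 := by
  intro ε hε
  obtain ⟨C, hC, hmb⟩ := Pool.Agent.H7R3.Mag.many_body
  refine ⟨ε / (6 * C ^ 2), by positivity, ?_⟩
  intro N z hz0 hz
  refine ⟨-(z ^ 2 * C ^ 2 * N), ?_⟩
  intro ψ A hψ hs ha h1 hA hAs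
  have hfield := field_bound hA hAs
  set F : ℝ := ∫ y, (1 / 2 : ℝ) * ∑ j : Fin 3, ∑ k : Fin 3,
                ((fderiv ℝ A y (EuclideanSpace.single j (1 : ℝ))) k
                  - (fderiv ℝ A y (EuclideanSpace.single k (1 : ℝ))) j) ^ 2 with hF
  have hF0 : 0 ≤ F := MeasureTheory.integral_nonneg fun y => by positivity
  cases N with
  | zero =>
    simp only [Finset.univ_eq_empty, Finset.sum_empty]
    simp
    positivity
  | succ n =>
    set Kin : ℝ := ∑ i : Fin (n + 1), ∫ x, ∑ s : Fin (n + 1) → Fin 2,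
              ‖∑ k : Fin 3, ∑ t : Fin 2,
                ((![!![0, 1; 1, 0], !![0, -Complex.I; Complex.I, 0], !![1, 0; 0, -1]] :
                    Fin 3 → Matrix (Fin 2) (Fin 2) ℂ) k (s i) t) *
                  ((-Complex.I) * fderiv ℝ (fun y => ψ y (Function.update s i t)) x
                      (Pi.single i (EuclideanSpace.single k (1 : ℝ)) :
                        Fin (n + 1) → EuclideanSpace ℝ (Fin 3))
                    + ((A (x i) k : ℝ) : ℂ) * ψ x (Function.update s i t))‖ ^ 2 with hKin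
    set Cou : ℝ := ∑ i : Fin (n + 1), ∫ x, ∑ s : Fin (n + 1) → Fin 2, ‖ψ x s‖ ^ 2 / ‖x i‖
      with hCou
    have hKin0 : 0 ≤ Kin := Finset.sum_nonneg fun i _ =>
      MeasureTheory.integral_nonneg fun x => Finset.sum_nonneg fun s _ => by positivity
    rcases hz0.eq_or_lt with h0 | hzpos
    · subst h0
      have : 0 ≤ ε * F := by positivity
      simp
      linarith
    · have hL : 0 < 1 / (C * z) := by positivity
      have h := hmb n ψ A (1 / (C * z)) hL hψ hs ha h1 hA hAs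
      have h' : Cou ≤ C * (1 / (C * z) * Kin + ((n:ℝ) + 1) * (1 / (C * z))⁻¹
          + 2 * C * ∫ x, Pool.Agent.H7R3.Mag.Bn A x ^ 2) := h
      have h2 : z * Cou ≤ Kin + z ^ 2 * C ^ 2 * ((n:ℝ) + 1)
          + 2 * C ^ 2 * z * ∫ x, Pool.Agent.H7R3.Mag.Bn A x ^ 2 := by
        refine (mul_le_mul_of_nonneg_left h' hzpos.le).trans (le_of_eq ?_)
        field_simp
      have h3 : 2 * C ^ 2 * z * ∫ x, Pool.Agent.H7R3.Mag.Bn A x ^ 2 ≤ ε * F := by
        have h4 : 2 * C ^ 2 * z * ∫ x, Pool.Agent.H7R3.Mag.Bn A x ^ 2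
            ≤ 2 * C ^ 2 * z * (3 * F) := by gcongr
        have h5 : z * (6 * C ^ 2) ≤ ε := by
          rw [lt_div_iff₀ (by positivity)] at hz
          exact hz.le
        have h6 : z * (6 * C ^ 2) * F ≤ ε * F := by gcongr
        linarith
      push_cast
      linarith

end Pool.Agent.S15765
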