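import Pool.Statements.S15772
import Mathlib

set_option autoImplicit false
open Pool Pool.MP_a47312_mp

namespace Pool.Agent.S15772

/-!
The counterexample: `Δ = 24`, `g² = 51/2`, parity `s = -1`, `n = 0`.  Both `[0,1)` and `[1,2)`
contain (at least) two shifted eigenvalues.
-/

/-- `a_k = k + s (-1)^k Δ - e` for `s = -1`, `Δ = 24`. -/
noncomputable def a (e : ℝ) (k : ℕ) : ℝ := (k : ℝ) + (-1) * (-1 : ℝ) ^ k * 24 - e

/-- The solution of the three term recurrence, normalised so that it is polynomial in `e`. -/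
noncomputable def w (e : ℝ) : ℕ → ℝ
  | 0 => 1
  | 1 => a e 0
  | (k + 2) => a e (k + 1) * w e (k + 1) - ((k : ℝ) + 1) * (51 / 2) * w e k

lemma w_succ_succ (e : ℝ) (k : ℕ) :
    w e (k + 2) = a e (k + 1) * w e (k + 1) - ((k : ℝ) + 1) * (51 / 2) * w e k := by
  rw [w]

lemma continuous_a (k : ℕ) : Continuous fun e => a e k := by
  unfold a
  fun_prop

lemma continuous_w (k : ℕ) : Continuous fun e => w e k := by
  induction k using Nat.strong_induction_on with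
  | _ k ih =>
    match k with
    | 0 => simpa [w] using continuous_const
    | 1 => simpa [w] using continuous_a 0
    | (k + 2) =>
      have h1 := ih (k + 1) (by omega)
      have h0 := ih k (by omega)
      have ha := continuous_a (k + 1)
      simp only [w_succ_succ]
      exact (ha.mul h1).sub (continuous_const.mul h0)

/-- positive cone -/
def P (e : ℝ) (k : ℕ) : Prop := 0 < w e k ∧ (k : ℝ) / 2 * w e k < w e (k + 1)

/-- negative cone -/
def N (e : ℝ) (k : ℕ) : Prop := w e k < 0 ∧ w e (k + 1) < (k : ℝ) / 2 * w e k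

lemma a_lower {e : ℝ} (he : e ≤ -47 / 2) (k : ℕ) : (k : ℝ) - 1 / 2 ≤ a e k := by
  unfold a
  rcases neg_one_pow_eq_or ℝ k with h | h <;> rw [h] <;> linarith

lemma P_succ {e : ℝ} (he : e ≤ -47 / 2) {k : ℕ} (hk : 204 ≤ k) (h : P e k) : P e (k + 1) := by
  obtain ⟨h0, h1⟩ := h
  have hk' : (204 : ℝ) ≤ k := by exact_mod_cast hk
  have ha := a_lower he (k + 1)
  push_cast at ha
  have hw1 : 0 < w e (k + 1) := lt_trans (by positivity) h1
  refine ⟨hw1, ?_⟩
  rw [show k + 1 + 1 = k + 2 from rfl, w_succ_succ]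
  push_cast
  -- `w_k < 2/k w_{k+1}`
  have h2 : ((k : ℝ) + 1) * (51 / 2) * w e k < ((k : ℝ) + 1) / 4 * w e (k + 1) := by
    have h3 : (51 / 2 : ℝ) * w e k ≤ 1 / 4 * ((k : ℝ) / 2 * w e k) := by
      nlinarith
    have h4 : (51 / 2 : ℝ) * w e k < 1 / 4 * w e (k + 1) := by linarith
    nlinarith
  have h5 : (((k : ℝ) + 1) - 1 / 2) * w e (k + 1) ≤ a e (k + 1) * w e (k + 1) :=
    mul_le_mul_of_nonneg_right ha hw1.le
  nlinarith

lemma P_of_cross {e : ℝ} (he : e ≤ -47 / 2) {k : ℕ} (hk : 204 ≤ k) (h0 : w e k ≤ 0)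
    (h1 : 0 < w e (k + 1)) : P e (k + 1) := by
  have hk' : (204 : ℝ) ≤ k := by exact_mod_cast hk
  have ha := a_lower he (k + 1)
  push_cast at ha
  refine ⟨h1, ?_⟩
  rw [show k + 1 + 1 = k + 2 from rfl, w_succ_succ]
  push_cast
  have h5 : (((k : ℝ) + 1) - 1 / 2) * w e (k + 1) ≤ a e (k + 1) * w e (k + 1) :=
    mul_le_mul_of_nonneg_right ha h1.le
  have h6 : ((k : ℝ) + 1) * (51 / 2) * w e k ≤ 0 :=
    mul_nonpos_of_nonneg_of_nonpos (by positivity) h0
  nlinarith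

lemma N_succ {e : ℝ} (he : e ≤ -47 / 2) {k : ℕ} (hk : 204 ≤ k) (h : N e k) : N e (k + 1) := by
  obtain ⟨h0, h1⟩ := h
  have hk' : (204 : ℝ) ≤ k := by exact_mod_cast hk
  have ha := a_lower he (k + 1)
  push_cast at ha
  have hw1 : w e (k + 1) < 0 := lt_trans h1 (mul_neg_of_pos_of_neg (by positivity) h0)
  refine ⟨hw1, ?_⟩
  rw [show k + 1 + 1 = k + 2 from rfl, w_succ_succ]
  push_cast
  have h2 : ((k : ℝ) + 1) / 4 * w e (k + 1) < ((k : ℝ) + 1) * (51 / 2) * w e k := by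
    have h3 : 1 / 4 * ((k : ℝ) / 2 * w e k) ≤ (51 / 2 : ℝ) * w e k := by
      nlinarith
    have h4 : 1 / 4 * w e (k + 1) < (51 / 2 : ℝ) * w e k := by linarith
    nlinarith
  have h5 : a e (k + 1) * w e (k + 1) ≤ (((k : ℝ) + 1) - 1 / 2) * w e (k + 1) :=
    mul_le_mul_of_nonpos_right ha hw1.le
  nlinarith

lemma N_of_cross {e : ℝ} (he : e ≤ -47 / 2) {k : ℕ} (hk : 204 ≤ k) (h0 : 0 ≤ w e k)
    (h1 : w e (k + 1) < 0) : N e (k + 1) := by
  have hk' : (204 : ℝ) ≤ k := by exact_mod_cast hk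
  have ha := a_lower he (k + 1)
  push_cast at ha
  refine ⟨h1, ?_⟩
  rw [show k + 1 + 1 = k + 2 from rfl, w_succ_succ]
  push_cast
  have h5 : a e (k + 1) * w e (k + 1) ≤ (((k : ℝ) + 1) - 1 / 2) * w e (k + 1) :=
    mul_le_mul_of_nonpos_right ha h1.le
  have h6 : 0 ≤ ((k : ℝ) + 1) * (51 / 2) * w e k := by positivity
  nlinarith

lemma P_mono {e : ℝ} (he : e ≤ -47 / 2) {k : ℕ} (hk : 204 ≤ k) (h : P e k) (m : ℕ) :
    P e (k + m) := by
  induction m with
  | zero => exact h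
  | succ m ih => exact P_succ he (le_trans hk (Nat.le_add_right k m)) ih

lemma N_mono {e : ℝ} (he : e ≤ -47 / 2) {k : ℕ} (hk : 204 ≤ k) (h : N e k) (m : ℕ) :
    N e (k + m) := by
  induction m with
  | zero => exact h
  | succ m ih => exact N_succ he (le_trans hk (Nat.le_add_right k m)) ih

/-- If `e` is in neither cone, the solution decays. -/
lemma decay {e : ℝ} (he : e ≤ -47 / 2) (h : ∀ k, 204 ≤ k → ¬ P e k ∧ ¬ N e k) {k : ℕ}
    (hk : 204 ≤ k) : |w e (k + 1)| ≤ 102 * |w e k| := by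
  have hk' : (204 : ℝ) ≤ k := by exact_mod_cast hk
  have ha := a_lower he (k + 1)
  push_cast at ha
  have hnP := (h (k + 1) (by omega)).1
  have hnN := (h (k + 1) (by omega)).2
  rcases lt_trichotomy (w e (k + 1)) 0 with h1 | h1 | h1
  · -- negative
    have h0 : w e k < 0 := by
      by_contra hcon
      exact hnN (N_of_cross he hk (not_lt.mp hcon) h1)
    have h2 : (((k + 1 : ℕ)) : ℝ) / 2 * w e (k + 1) ≤ w e (k + 2) := by
      by_contra hcon
      exact hnN ⟨h1, not_le.mp hcon⟩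
    rw [w_succ_succ] at h2
    push_cast at h2
    rw [abs_of_neg h1, abs_of_neg h0]
    have h5 : a e (k + 1) * w e (k + 1) ≤ (((k : ℝ) + 1) - 1 / 2) * w e (k + 1) :=
      mul_le_mul_of_nonpos_right ha h1.le
    have h6 : ((k : ℝ) + 1) * (51 / 2 * w e k) ≤ ((k : ℝ) + 1) * (1 / 4 * w e (k + 1)) := by
      nlinarith
    have h7 := le_of_mul_le_mul_left h6 (by positivity)
    linarith
  · rw [h1]; simp
  · have h0 : 0 < w e k := by
      by_contra hcon
      exact hnP (P_of_cross he hk (not_lt.mp hcon) h1)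
    have h2 : w e (k + 2) ≤ (((k + 1 : ℕ)) : ℝ) / 2 * w e (k + 1) := by
      by_contra hcon
      exact hnP ⟨h1, not_le.mp hcon⟩
    rw [w_succ_succ] at h2
    push_cast at h2
    rw [abs_of_pos h1, abs_of_pos h0]
    have h5 : (((k : ℝ) + 1) - 1 / 2) * w e (k + 1) ≤ a e (k + 1) * w e (k + 1) :=
      mul_le_mul_of_nonneg_right ha h1.le
    have h6 : ((k : ℝ) + 1) * (1 / 4 * w e (k + 1)) ≤ ((k : ℝ) + 1) * (51 / 2 * w e k) := by
      nlinarith
    have h7 := le_of_mul_le_mul_left h6 (by positivity)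
    linarith

/-- Two energies in opposite cones enclose an energy lying in neither cone. -/
lemma exists_mid {p q : ℝ} (hpq : p ≤ q) (hq : q ≤ -47 / 2)
    (h : (P p 204 ∧ N q 204) ∨ (N p 204 ∧ P q 204)) :
    ∃ e, p < e ∧ e < q ∧ ∀ k, 204 ≤ k → ¬ P e k ∧ ¬ N e k := by
  set U : Set ℝ := ⋃ k : ℕ, ⋃ _ : 204 ≤ k, {e | P e k} with hU
  set V : Set ℝ := ⋃ k : ℕ, ⋃ _ : 204 ≤ k, {e | N e k} with hV
  have hUo : IsOpen U := by
    refine isOpen_iUnion fun k => isOpen_iUnion fun _ => ?_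
    have h1 : IsOpen {e : ℝ | 0 < w e k} := isOpen_lt continuous_const (continuous_w k)
    have h2 : IsOpen {e : ℝ | (k : ℝ) / 2 * w e k < w e (k + 1)} :=
      isOpen_lt (continuous_const.mul (continuous_w k)) (continuous_w (k + 1))
    exact h1.inter h2
  have hVo : IsOpen V := by
    refine isOpen_iUnion fun k => isOpen_iUnion fun _ => ?_
    have h1 : IsOpen {e : ℝ | w e k < 0} := isOpen_lt (continuous_w k) continuous_const
    have h2 : IsOpen {e : ℝ | w e (k + 1) < (k : ℝ) / 2 * w e k} :=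
      isOpen_lt (continuous_w (k + 1)) (continuous_const.mul (continuous_w k))
    exact h1.inter h2
  have hdisj : ∀ e ∈ Set.Icc p q, ¬ (e ∈ U ∧ e ∈ V) := by
    rintro e ⟨_, he⟩ ⟨hu, hv⟩
    have he' : e ≤ -47 / 2 := he.trans hq
    simp only [hU, hV, Set.mem_iUnion] at hu hv
    obtain ⟨k, hk, hPk⟩ := hu
    obtain ⟨l, hl, hNl⟩ := hv
    have h1 := (P_mono he' hk hPk l).1
    have h2 := (N_mono he' hl hNl k).1
    rw [add_comm] at h2
    linarith
  have hmemU : ∀ e, P e 204 → e ∈ U := fun e he => by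
    simp only [hU, Set.mem_iUnion]
    exact ⟨204, le_rfl, he⟩
  have hmemV : ∀ e, N e 204 → e ∈ V := fun e he => by
    simp only [hV, Set.mem_iUnion]
    exact ⟨204, le_rfl, he⟩
  have key : ∃ e ∈ Set.Icc p q, e ∉ U ∧ e ∉ V := by
    by_contra hcon
    push Not at hcon
    have hsub : Set.Icc p q ⊆ U ∪ V := fun e he => by
      by_cases hu : e ∈ U
      · exact Or.inl hu
      · exact Or.inr (hcon e he hu)
    have hp' : p ∈ Set.Icc p q := ⟨le_rfl, hpq⟩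
    have hq' : q ∈ Set.Icc p q := ⟨hpq, le_rfl⟩
    have hpre : IsPreconnected (Set.Icc p q) := isPreconnected_Icc
    rcases h with ⟨h1, h2⟩ | ⟨h1, h2⟩
    · obtain ⟨e, he, hu, hv⟩ := hpre U V hUo hVo hsub ⟨p, hp', hmemU p h1⟩ ⟨q, hq', hmemV q h2⟩
      exact hdisj e he ⟨hu, hv⟩
    · obtain ⟨e, he, hu, hv⟩ := hpre U V hUo hVo hsub ⟨q, hq', hmemU q h2⟩ ⟨p, hp', hmemV p h1⟩
      exact hdisj e he ⟨hu, hv⟩
  obtain ⟨e, ⟨hpe, heq⟩, hu, hv⟩ := key
  have hpne : e ≠ p := by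
    rintro rfl
    rcases h with ⟨h1, _⟩ | ⟨h1, _⟩
    · exact hu (hmemU _ h1)
    · exact hv (hmemV _ h1)
  have hqne : e ≠ q := by
    rintro rfl
    rcases h with ⟨_, h1⟩ | ⟨_, h1⟩
    · exact hv (hmemV _ h1)
    · exact hu (hmemU _ h1)
  refine ⟨e, lt_of_le_of_ne hpe (Ne.symm hpne), lt_of_le_of_ne heq hqne, fun k hk => ⟨?_, ?_⟩⟩
  · intro hP
    exact hu (by simp only [hU, Set.mem_iUnion]; exact ⟨k, hk, hP⟩)
  · intro hN
    exact hv (by simp only [hV, Set.mem_iUnion]; exact ⟨k, hk, hN⟩)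

/-- The coupling constant. -/
noncomputable def g : ℝ := Real.sqrt (51 / 2)

lemma g_pos : 0 < g := Real.sqrt_pos.mpr (by norm_num)

lemma g_sq : g ^ 2 = 51 / 2 := Real.sq_sqrt (by norm_num)

/-- Normalising weights `g^k √(k!)`. -/
noncomputable def wt : ℕ → ℝ
  | 0 => 1
  | (k + 1) => g * Real.sqrt ((k : ℝ) + 1) * wt k

lemma wt_succ (k : ℕ) : wt (k + 1) = g * Real.sqrt ((k : ℝ) + 1) * wt k := by rw [wt]

lemma wt_pos (k : ℕ) : 0 < wt k := by
  induction k with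
  | zero => simp [wt]
  | succ k ih =>
    rw [wt_succ]
    have := g_pos
    have : 0 < Real.sqrt ((k : ℝ) + 1) := Real.sqrt_pos.mpr (by positivity)
    positivity

/-- The eigenvector. -/
noncomputable def u (e : ℝ) (k : ℕ) : ℝ := (-1 : ℝ) ^ k * w e k / wt k

lemma u_eq (e : ℝ) (k : ℕ) :
    ((k : ℝ) + (-1) * (-1 : ℝ) ^ k * 24) * u e k
      + g * (Real.sqrt (k : ℝ) * u e (k - 1) + Real.sqrt ((k : ℝ) + 1) * u e (k + 1))
      = e * u e k := by
  match k with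
  | 0 =>
    have hg := g_pos.ne'
    simp only [u, w, wt, a]
    simp
    field_simp
    ring
  | (k + 1) =>
    have hg := g_pos.ne'
    have hwt := (wt_pos k).ne'
    have hs1 : Real.sqrt ((k : ℝ) + 1) ≠ 0 := (Real.sqrt_pos.mpr (by positivity)).ne'
    have hs2 : Real.sqrt ((k : ℝ) + 1 + 1) ≠ 0 := (Real.sqrt_pos.mpr (by positivity)).ne'
    have hsq : Real.sqrt ((k : ℝ) + 1) ^ 2 = (k : ℝ) + 1 := Real.sq_sqrt (by positivity)
    have hg2 := g_sq
    have e1 : u e (k + 1 + 1) = (-1 : ℝ) ^ k * w e (k + 2) /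
        (g * Real.sqrt ((k : ℝ) + 1 + 1) * (g * Real.sqrt ((k : ℝ) + 1) * wt k)) := by
      unfold u
      rw [wt_succ (k + 1), wt_succ k]
      push_cast
      ring
    have e2 : u e (k + 1) = - ((-1 : ℝ) ^ k * w e (k + 1)) /
        (g * Real.sqrt ((k : ℝ) + 1) * wt k) := by
      unfold u
      rw [wt_succ k]
      ring
    have e3 : u e (k + 1 - 1) = (-1 : ℝ) ^ k * w e k / wt k := by
      unfold u
      simp
    rw [e1, e2, e3, w_succ_succ]
    push_cast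
    have ha : a e (k + 1) = ((k : ℝ) + 1) + (-1) * (-1 : ℝ) ^ (k + 1) * 24 - e := by
      unfold a; push_cast; ring
    rw [ha]
    field_simp
    rw [hsq, hg2]
    ring

lemma u_zero (e : ℝ) : u e 0 = 1 := by simp [u, w, wt]

lemma u_summable {e : ℝ} (he : e ≤ -47 / 2) (h : ∀ k, 204 ≤ k → ¬ P e k ∧ ¬ N e k) :
    Summable fun k => u e k ^ 2 := by
  refine summable_of_ratio_norm_eventually_le (r := 1 / 2) (by norm_num) ?_
  filter_upwards [Filter.eventually_ge_atTop 1000] with k hk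
  have hk' : (1000 : ℝ) ≤ k := by exact_mod_cast hk
  have hd := decay he h (show 204 ≤ k by omega)
  have h1 : ‖u e (k + 1) ^ 2‖ = |w e (k + 1)| ^ 2 / (wt (k + 1)) ^ 2 := by
    unfold u
    rw [Real.norm_eq_abs, abs_of_nonneg (sq_nonneg _), div_pow, mul_pow, sq_abs]
    have : ((-1 : ℝ) ^ (k + 1)) ^ 2 = 1 := by rw [← pow_mul, mul_comm, pow_mul]; simp
    rw [this, one_mul]
  have h2 : ‖u e k ^ 2‖ = |w e k| ^ 2 / (wt k) ^ 2 := by
    unfold u
    rw [Real.norm_eq_abs, abs_of_nonneg (sq_nonneg _), div_pow, mul_pow, sq_abs]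
    have : ((-1 : ℝ) ^ k) ^ 2 = 1 := by rw [← pow_mul, mul_comm, pow_mul]; simp
    rw [this, one_mul]
  rw [h1, h2, wt_succ, mul_pow, mul_pow, g_sq, Real.sq_sqrt (by positivity)]
  have hwt := wt_pos k
  rw [div_le_iff₀ (by positivity)]
  have h3 : |w e (k + 1)| ^ 2 ≤ (102 * |w e k|) ^ 2 := by
    gcongr
  refine h3.trans ?_
  have h4 : 1 / 2 * (|w e k| ^ 2 / wt k ^ 2) * (51 / 2 * ((k : ℝ) + 1) * wt k ^ 2)
      = (51 / 4 * ((k : ℝ) + 1)) * |w e k| ^ 2 := by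
    field_simp
    ring
  rw [h4, mul_pow]
  have : (102 : ℝ) ^ 2 ≤ 51 / 4 * ((k : ℝ) + 1) := by nlinarith
  exact mul_le_mul_of_nonneg_right this (by positivity)

/-! ### The certified computation -/

/-- Integer version of the recurrence: `(2^k w_k, 2^(k+1) w_{k+1})` at `e = c/2`. -/
def Zs (c : ℤ) : ℕ → ℤ × ℤ
  | 0 => (1, -48 - c)
  | (k + 1) =>
    ((Zs c k).2,
      (2 * ((k : ℤ) + 1) + (if k % 2 = 0 then 48 else -48) - c) * (Zs c k).2
        - 102 * ((k : ℤ) + 1) * (Zs c k).1)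

lemma Zs_spec (c : ℤ) (k : ℕ) :
    ((Zs c k).1 : ℝ) = 2 ^ k * w ((c : ℝ) / 2) k ∧
      ((Zs c k).2 : ℝ) = 2 ^ (k + 1) * w ((c : ℝ) / 2) (k + 1) := by
  induction k with
  | zero =>
    constructor
    · simp [Zs, w]
    · simp [Zs, w, a]; ring
  | succ k ih =>
    obtain ⟨h1, h2⟩ := ih
    refine ⟨?_, ?_⟩
    · rw [← h2]; rfl
    · have h3 : (Zs c (k + 1)).2 = (2 * ((k : ℤ) + 1) + (if k % 2 = 0 then 48 else -48) - c)
          * (Zs c k).2 - 102 * ((k : ℤ) + 1) * (Zs c k).1 := rfl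
      rw [h3, show k + 1 + 1 = k + 2 from rfl, w_succ_succ]
      have ha : a ((c : ℝ) / 2) (k + 1)
          = ((k : ℝ) + 1) + (if k % 2 = 0 then 24 else -24) - (c : ℝ) / 2 := by
        unfold a
        push_cast
        rcases Nat.even_or_odd k with hk | hk
        · have : k % 2 = 0 := Nat.even_iff.mp hk
          rw [if_pos this, pow_succ, hk.neg_one_pow]; ring
        · have : k % 2 = 1 := Nat.odd_iff.mp hk
          rw [if_neg (by omega), pow_succ, hk.neg_one_pow]; ring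
      rw [ha]
      push_cast
      rw [h1, h2]
      split_ifs <;> ring

/-- sign test in `ℤ` -/
def posTest (c : ℤ) : Bool := decide (0 < (Zs c 204).1 ∧ 204 * (Zs c 204).1 < (Zs c 204).2)

/-- sign test in `ℤ` -/
def negTest (c : ℤ) : Bool := decide ((Zs c 204).1 < 0 ∧ (Zs c 204).2 < 204 * (Zs c 204).1)

lemma P_of_test {c : ℤ} (h : posTest c = true) : P ((c : ℝ) / 2) 204 := by
  have h' : 0 < (Zs c 204).1 ∧ 204 * (Zs c 204).1 < (Zs c 204).2 := by
    simpa [posTest] using h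
  obtain ⟨h1, h2⟩ := h'
  obtain ⟨s1, s2⟩ := Zs_spec c 204
  have h1' : (0 : ℝ) < ((Zs c 204).1 : ℝ) := by exact_mod_cast h1
  have h2' : (204 : ℝ) * ((Zs c 204).1 : ℝ) < ((Zs c 204).2 : ℝ) := by exact_mod_cast h2
  rw [s1] at h1'
  rw [s1, s2] at h2'
  have hp : (0 : ℝ) < 2 ^ 204 := by positivity
  refine ⟨pos_of_mul_pos_right h1' hp.le, ?_⟩
  have h3 : (2 : ℝ) ^ (204 + 1) * ((204 : ℝ) / 2 * w ((c : ℝ) / 2) 204)
      < 2 ^ (204 + 1) * w ((c : ℝ) / 2) (204 + 1) := by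
    calc (2 : ℝ) ^ (204 + 1) * ((204 : ℝ) / 2 * w ((c : ℝ) / 2) 204)
        = 204 * (2 ^ 204 * w ((c : ℝ) / 2) 204) := by ring
      _ < _ := h2'
  have := lt_of_mul_lt_mul_left h3 (by positivity)
  exact_mod_cast this

lemma N_of_test {c : ℤ} (h : negTest c = true) : N ((c : ℝ) / 2) 204 := by
  have h' : (Zs c 204).1 < 0 ∧ (Zs c 204).2 < 204 * (Zs c 204).1 := by
    simpa [negTest] using h
  obtain ⟨h1, h2⟩ := h'
  obtain ⟨s1, s2⟩ := Zs_spec c 204
  have h1' : ((Zs c 204).1 : ℝ) < 0 := by exact_mod_cast h1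
  have h2' : ((Zs c 204).2 : ℝ) < (204 : ℝ) * ((Zs c 204).1 : ℝ) := by exact_mod_cast h2
  rw [s1] at h1'
  rw [s1, s2] at h2'
  have hp : (0 : ℝ) < 2 ^ 204 := by positivity
  refine ⟨?_, ?_⟩
  · by_contra hcon
    have := mul_nonneg hp.le (not_lt.mp hcon)
    linarith
  have h3 : (2 : ℝ) ^ (204 + 1) * w ((c : ℝ) / 2) (204 + 1)
      < 2 ^ (204 + 1) * ((204 : ℝ) / 2 * w ((c : ℝ) / 2) 204) := by
    calc (2 : ℝ) ^ (204 + 1) * w ((c : ℝ) / 2) (204 + 1)
        < 204 * (2 ^ 204 * w ((c : ℝ) / 2) 204) := h2'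
      _ = _ := by ring
  have := lt_of_mul_lt_mul_left h3 (by positivity)
  exact_mod_cast this

lemma test0 : negTest (-51) = true := by decide +kernel
lemma test1 : posTest (-50) = true := by decide +kernel
lemma test2 : negTest (-49) = true := by decide +kernel
lemma test3 : posTest (-48) = true := by decide +kernel
lemma test4 : negTest (-47) = true := by decide +kernel

/-- the point spectrum in the parity sector -/
def E : Set ℝ := {e : ℝ | ∃ u : ℕ → ℝ, u ≠ 0 ∧ Summable (fun k => u k ^ 2) ∧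
            ∀ k : ℕ, ((k : ℝ) + (-1) * (-1 : ℝ) ^ k * 24) * u k
              + g * (Real.sqrt (k : ℝ) * u (k - 1) + Real.sqrt ((k : ℝ) + 1) * u (k + 1))
              = e * u k}

lemma mem_E {e : ℝ} (he : e ≤ -47 / 2) (h : ∀ k, 204 ≤ k → ¬ P e k ∧ ¬ N e k) : e ∈ E := by
  refine ⟨u e, ?_, u_summable he h, u_eq e⟩
  intro h0
  have := u_zero e
  rw [h0] at this
  simp at this

/-- The negation of the preceding statement: For g, Δ > 0 and each parity sector of the Rabi model, written as a Jacobi matrix on ℓ²(ℕ), each [n,n+1) with n ≥ 0 holds 0, 1 or 2 shifted eigenvalues e+g², and no two adjacent intervals both hold 2 or both hold 0. -/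
theorem result :
    ¬ (∀ g Δ : ℝ, 0 < g → 0 < Δ → ∀ s : ℝ, (s = 1 ∨ s = -1) →
    ∀ E : Set ℝ,
      E = {e : ℝ | ∃ u : ℕ → ℝ, u ≠ 0 ∧ Summable (fun k => u k ^ 2) ∧
            ∀ k : ℕ, ((k : ℝ) + s * (-1 : ℝ) ^ k * Δ) * u k
              + g * (Real.sqrt (k : ℝ) * u (k - 1) + Real.sqrt ((k : ℝ) + 1) * u (k + 1))
              = e * u k} →
    ∀ n : ℕ,
      ({e : ℝ | e ∈ E ∧ (n : ℝ) ≤ e + g ^ 2 ∧ e + g ^ 2 < (n : ℝ) + 1}).encard ≤ 2 ∧
      ¬ (({e : ℝ | e ∈ E ∧ (n : ℝ) ≤ e + g ^ 2 ∧ e + g ^ 2 < (n : ℝ) + 1}).encard = 2 ∧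
         ({e : ℝ | e ∈ E ∧ ((n + 1 : ℕ) : ℝ) ≤ e + g ^ 2 ∧ e + g ^ 2 < ((n + 1 : ℕ) : ℝ) + 1}).encard = 2) ∧
      ¬ (({e : ℝ | e ∈ E ∧ (n : ℝ) ≤ e + g ^ 2 ∧ e + g ^ 2 < (n : ℝ) + 1}).encard = 0 ∧
         ({e : ℝ | e ∈ E ∧ ((n + 1 : ℕ) : ℝ) ≤ e + g ^ 2 ∧ e + g ^ 2 < ((n + 1 : ℕ) : ℝ) + 1}).encard = 0)) := by
  intro H
  have h := H g 24 g_pos (by norm_num) (-1) (Or.inr rfl) E rfl
  have hg2 := g_sq
  have t0 := N_of_test test0
  have t1 := P_of_test test1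
  have t2 := N_of_test test2
  have t3 := P_of_test test3
  have t4 := N_of_test test4
  push_cast at t0 t1 t2 t3 t4
  obtain ⟨e1, a1, b1, c1⟩ := exists_mid (p := -51 / 2) (q := -50 / 2) (by norm_num) (by norm_num)
    (Or.inr ⟨t0, t1⟩)
  obtain ⟨e2, a2, b2, c2⟩ := exists_mid (p := -50 / 2) (q := -49 / 2) (by norm_num) (by norm_num)
    (Or.inl ⟨t1, t2⟩)
  obtain ⟨e3, a3, b3, c3⟩ := exists_mid (p := -49 / 2) (q := -48 / 2) (by norm_num) (by norm_num)
    (Or.inr ⟨t2, t3⟩)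
  obtain ⟨e4, a4, b4, c4⟩ := exists_mid (p := -48 / 2) (q := -47 / 2) (by norm_num) (by norm_num)
    (Or.inl ⟨t3, t4⟩)
  have m1 : e1 ∈ E := mem_E (by linarith) c1
  have m2 : e2 ∈ E := mem_E (by linarith) c2
  have m3 : e3 ∈ E := mem_E (by linarith) c3
  have m4 : e4 ∈ E := mem_E (by linarith) c4
  have h0 := h 0
  have h1 := h 1
  obtain ⟨u0, v0, -⟩ := h0
  obtain ⟨u1, -, -⟩ := h1
  have l0 : (2 : ℕ∞) ≤ ({e : ℝ | e ∈ E ∧ ((0 : ℕ) : ℝ) ≤ e + g ^ 2 ∧
      e + g ^ 2 < ((0 : ℕ) : ℝ) + 1}).encard := by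
    have hne : e1 ≠ e2 := by
      intro heq
      rw [heq] at b1
      linarith
    rw [← Set.encard_pair hne]
    refine Set.encard_le_encard ?_
    intro x hx
    rcases hx with rfl | hx
    · refine ⟨m1, ?_, ?_⟩ <;> rw [hg2] <;> push_cast <;> linarith
    · rw [Set.mem_singleton_iff] at hx
      subst hx
      refine ⟨m2, ?_, ?_⟩ <;> rw [hg2] <;> push_cast <;> linarith
  have l1 : (2 : ℕ∞) ≤ ({e : ℝ | e ∈ E ∧ ((0 + 1 : ℕ) : ℝ) ≤ e + g ^ 2 ∧
      e + g ^ 2 < ((0 + 1 : ℕ) : ℝ) + 1}).encard := by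
    have hne : e3 ≠ e4 := by
      intro heq
      rw [heq] at b3
      linarith
    rw [← Set.encard_pair hne]
    refine Set.encard_le_encard ?_
    intro x hx
    rcases hx with rfl | hx
    · refine ⟨m3, ?_, ?_⟩ <;> rw [hg2] <;> push_cast <;> linarith
    · rw [Set.mem_singleton_iff] at hx
      subst hx
      refine ⟨m4, ?_, ?_⟩ <;> rw [hg2] <;> push_cast <;> linarith
  exact v0 ⟨le_antisymm u0 l0, le_antisymm (by simpa using u1) l1⟩

end Pool.Agent.S15772
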