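import Pool.Statements.S15777
import Pool.Agent.H508R3.Gordon
import Pool.Agent.H508R3.SpecZ

set_option autoImplicit false
open MeasureTheory
open Pool Pool.MP_ad681e_mp

namespace Pool.Agent.S15777

open Pool.Agent.H508R3 Filter Topology

theorem exists_hyp : ∃ (m : ℕ → ℕ) (τ : ℕ → ℝ) (J : ℕ → ℕ), Hyp m τ J ∧ ∀ k, 3 ≤ m k := by
  set τ : ℕ → ℝ := fun k => if k = 0 then 10 else (1 / 4) ^ k with hτ
  have hpos : ∀ k, 0 < τ k := by
    intro k
    simp only [hτ]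
    split_ifs
    · norm_num
    · positivity
  have hJ : ∀ k, ∃ J : ℕ, (2 : ℝ) ^ (k + 6) / τ (k + 1) < (1 + τ k) ^ J := fun k =>
    pow_unbounded_of_one_lt _ (by have := hpos k; linarith)
  choose J hJ using hJ
  refine ⟨fun k => 2 * J k + 3, τ, J, ⟨by simp [hτ], by simp [hτ]; norm_num, hpos, ?_, ?_, ?_, ?_⟩, ?_⟩
  · intro k
    rcases Nat.eq_zero_or_pos k with h | h
    · subst h; simp [hτ]; norm_num
    · have h0 := h.ne'
      simp only [hτ, if_neg h0, if_neg (Nat.succ_ne_zero k)]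
      have : (0 : ℝ) < (1 / 4) ^ k := by positivity
      rw [pow_succ]
      linarith
  · intro k; show 1 ≤ 2 * J k + 3; omega
  · intro k
    have := NN_pos (fun k => 2 * J k + 3) k
    show 2 * J k + 1 ≤ (2 * J k + 3) * NN (fun k => 2 * J k + 3) k
    calc 2 * J k + 1 ≤ (2 * J k + 3) * 1 := by omega
      _ ≤ (2 * J k + 3) * NN (fun k => 2 * J k + 3) k := Nat.mul_le_mul_left _ this
  · intro k
    have h1 := (hJ k).le
    rw [div_le_iff₀ (hpos (k + 1))] at h1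
    linarith
  · intro k; show 3 ≤ 2 * J k + 3; omega

/-- Some limit-periodic potential V on ℤ and some W in its hull give Schrödinger operators whose maximal spectral measures differ in whether a pure point, singular continuous, or absolutely continuous component is present. -/
theorem result :
    ∃ V W : ℤ → ℝ,
      (∀ ε : ℝ, 0 < ε → ∃ P : ℤ → ℝ,
          (∃ p : ℤ, 0 < p ∧ ∀ n : ℤ, P (n + p) = P n) ∧ ∀ n : ℤ, |V n - P n| < ε) ∧
      (∀ ε : ℝ, 0 < ε → ∃ k : ℤ, ∀ n : ℤ, |W n - V (n + k)| < ε) ∧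
      ∃ μ ν : Measure ℝ, IsFiniteMeasure μ ∧ IsFiniteMeasure ν ∧
        (∀ k : ℕ, Integrable (fun x : ℝ => x ^ k) μ ∧
          ∫ x, x ^ k ∂μ =
            ((fun ψ : ℤ → ℝ => fun n : ℤ => ψ (n + 1) + ψ (n - 1) + V n * ψ n)^[k]
                (fun m : ℤ => if m = 0 then (1 : ℝ) else 0)) 0 +
            ((fun ψ : ℤ → ℝ => fun n : ℤ => ψ (n + 1) + ψ (n - 1) + V n * ψ n)^[k]
                (fun m : ℤ => if m = 1 then (1 : ℝ) else 0)) 1) ∧
        (∀ k : ℕ, Integrable (fun x : ℝ => x ^ k) ν ∧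
          ∫ x, x ^ k ∂ν =
            ((fun ψ : ℤ → ℝ => fun n : ℤ => ψ (n + 1) + ψ (n - 1) + W n * ψ n)^[k]
                (fun m : ℤ => if m = 0 then (1 : ℝ) else 0)) 0 +
            ((fun ψ : ℤ → ℝ => fun n : ℤ => ψ (n + 1) + ψ (n - 1) + W n * ψ n)^[k]
                (fun m : ℤ => if m = 1 then (1 : ℝ) else 0)) 1) ∧
        (¬ ((∃ x : ℝ, μ {x} ≠ 0) ↔ (∃ x : ℝ, ν {x} ≠ 0)) ∨
         ¬ ((∃ S : Set ℝ, MeasurableSet S ∧ volume S = 0 ∧ (∀ x ∈ S, μ {x} = 0) ∧ μ S ≠ 0) ↔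
            (∃ S : Set ℝ, MeasurableSet S ∧ volume S = 0 ∧ (∀ x ∈ S, ν {x} = 0) ∧ ν S ≠ 0)) ∨
         ¬ ((¬ μ.MutuallySingular volume) ↔ (¬ ν.MutuallySingular volume))) := by
  obtain ⟨m, τ, J, h, hm⟩ := exists_hyp
  obtain ⟨E, ψ, hψ, hψ0, hψs⟩ := exists_eigen h
  have hVb : ∀ n, |Vinf m τ n| ≤ 20 := by
    intro n
    have := Vinf_near h 0 n
    simpa [Vk] using this
  have hWb : ∀ n, |Wg m τ n| ≤ 20 := by
    intro n
    have := tail_le h (fun j => ind m j (n + xx m (j + 1))) (fun j => ind_nonneg m j _)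
      (fun j => ind_le_one m j _) 0
    unfold Wg
    rw [abs_neg]
    simpa using this
  obtain ⟨HV, hHV, hHVs⟩ := Pool.Agent.Helper434.PSCplx.exists_H (Vinf m τ) hVb
  obtain ⟨HW, hHW, hHWs⟩ := Pool.Agent.Helper434.PSCplx.exists_H (Wg m τ) hWb
  obtain ⟨μ0, a1, a2, -, a4, a5, -, -⟩ := spec_site (Vinf m τ) 20 hVb HV hHV hHVs 0
  obtain ⟨μ1, b1, b2, -, b4, -, -, -⟩ := spec_site (Vinf m τ) 20 hVb HV hHV hHVs 1
  obtain ⟨ν0, c1, c2, -, c4, -, c6, -⟩ := spec_site (Wg m τ) 20 hWb HW hHW hHWs 0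
  obtain ⟨ν1, d1, d2, -, d4, -, d6, -⟩ := spec_site (Wg m τ) 20 hWb HW hHW hHWs 1
  refine ⟨Vinf m τ, Wg m τ, Vinf_lp h, Wg_hull h, μ0 + μ1, ν0 + ν1, inferInstance, inferInstance,
    ?_, ?_, Or.inl ?_⟩
  · intro k
    refine ⟨(a2 k).add_measure (b2 k), ?_⟩
    rw [integral_add_measure (a2 k) (b2 k), a4, b4]
    rfl
  · intro k
    refine ⟨(c2 k).add_measure (d2 k), ?_⟩
    rw [integral_add_measure (c2 k) (d2 k), c4, d4]
    rfl
  · intro hiff
    have h1 : ∃ x, (μ0 + μ1) {x} ≠ 0 := by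
      refine ⟨E, ?_⟩
      have hne : ψ 0 ≠ 0 := by
        intro h0
        rw [h0] at hψ0
        norm_num at hψ0
      have := a5 E ψ hψ hψs hne
      rw [Measure.add_apply]
      intro h0
      exact this (by simpa using (add_eq_zero.mp h0).1)
    obtain ⟨x, hx⟩ := hiff.mp h1
    rw [Measure.add_apply] at hx
    have h2 : ∃ u : ℤ → ℝ, (∀ n, HE (Wg m τ) x u n = 0) ∧ Tendsto u cofinite (𝓝 0) ∧
        ∃ n, u n ≠ 0 := by
      by_cases h3 : ν0 {x} = 0
      · apply d6 x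
        intro h4
        apply hx
        rw [h3, h4, add_zero]
      · exact c6 x h3
    obtain ⟨u, hu, hu0, n, hn⟩ := h2
    apply hn
    refine gordon (Wg m τ) x (fun k => NN m k) (fun k => ?_) (fun k n h1 h2 => ?_) u hu hu0 n
    · have := NN_ge h k
      show k ≤ NN m k
      omega
    · exact Wg_periodic hm k n h1 h2

end Pool.Agent.S15777
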