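import Pool.Statements.S15793
import Pool.Agent.H508R3.NonCantor

set_option autoImplicit false
open Pool Pool.MP_c9a3a4_mp

namespace Pool.Agent.S15793

open Pool.Agent.H508R3

lemma mem_of_finsupp (f : ℤ → ℝ) (a b : ℤ) (h : ∀ n, n < a ∨ b < n → f n = 0) :
    Memℓp (fun n : ℤ => ((f n : ℝ) : ℂ)) 2 := by
  apply memℓp_gen
  apply summable_of_ne_finset_zero (s := Finset.Icc a b)
  intro n hn
  rw [h n (by simp only [Finset.mem_Icc] at hn; omega)]
  simp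

lemma norm_of_finsupp (f : ℤ → ℝ) (a b : ℤ) (h : ∀ n, n < a ∨ b < n → f n = 0)
    (F : lp (fun _ : ℤ => ℂ) 2) (hF : ∀ n, F n = ((f n : ℝ) : ℂ)) :
    ‖F‖ ^ 2 = ∑ n ∈ Finset.Icc a b, f n ^ 2 := by
  have h1 := lp.norm_rpow_eq_tsum (p := 2) (by norm_num) F
  have h5 : (2 : ENNReal).toReal = ((2 : ℕ) : ℝ) := by norm_num
  rw [h5] at h1
  simp only [Real.rpow_natCast] at h1
  rw [h1, tsum_eq_sum (s := Finset.Icc a b)]
  · apply Finset.sum_congr rfl
    intro n _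
    rw [hF, Complex.norm_real, Real.norm_eq_abs, sq_abs]
  · intro n hn
    rw [hF, h n (by simp only [Finset.mem_Icc] at hn; omega)]
    simp

/-- For every non-periodic limit-periodic potential V on the integers and every ε>0, there is a non-periodic limit-periodic V' uniformly ε-close to V such that the spectrum of the Schrödinger operator Δ+V' on ℓ²(ℤ) is not a Cantor set. -/
theorem result :
  ∀ V : ℤ → ℝ,
    (∀ ε : ℝ, 0 < ε → ∃ p : ℕ, 0 < p ∧ ∃ W : ℤ → ℝ,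
        (∀ n : ℤ, W (n + (p : ℤ)) = W n) ∧ ∀ n : ℤ, |V n - W n| < ε) →
    ¬ (∃ p : ℕ, 0 < p ∧ ∀ n : ℤ, V (n + (p : ℤ)) = V n) →
    ∀ ε : ℝ, 0 < ε → ∃ V' : ℤ → ℝ,
      (∀ δ : ℝ, 0 < δ → ∃ p : ℕ, 0 < p ∧ ∃ W : ℤ → ℝ,
          (∀ n : ℤ, W (n + (p : ℤ)) = W n) ∧ ∀ n : ℤ, |V' n - W n| < δ) ∧
      ¬ (∃ p : ℕ, 0 < p ∧ ∀ n : ℤ, V' (n + (p : ℤ)) = V' n) ∧
      (∀ n : ℤ, |V n - V' n| < ε) ∧
      ∀ S : Set ℝ,
        S = {E : ℝ | ¬ ((∃ R : lp (fun _ : ℤ => ℂ) 2 →L[ℂ] lp (fun _ : ℤ => ℂ) 2,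
              ∀ φ : lp (fun _ : ℤ => ℂ) 2, ∀ n : ℤ,
                R φ (n + 1) + R φ (n - 1) + ((V' n : ℂ) - (E : ℂ)) * R φ n = φ n) ∧
            (∀ ψ : ℤ → ℂ, Memℓp ψ 2 →
              (∀ n : ℤ, ψ (n + 1) + ψ (n - 1) + ((V' n : ℂ) - (E : ℂ)) * ψ n = 0) →
              ψ = 0))} →
        ¬ (S.Nonempty ∧ IsCompact S ∧ Perfect S ∧ IsTotallyDisconnected S) := by
  intro V hV _ ε hε
  obtain ⟨p, hp, W, hW, hWV⟩ := hV (ε / 2) (by positivity)
  obtain ⟨V', c, d, hcd, h1, h2, h3, h4⟩ := limit_exists W p hp hW (ε / 2) (by positivity)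
  refine ⟨V', h1, h2, ?_, ?_⟩
  · intro n
    have g1 := hWV n
    have g2 := h3 n
    have g3 := abs_sub_le (V n) (W n) (V' n)
    linarith
  · rintro S rfl ⟨-, -, -, htd⟩
    have hsub : Set.Icc c d ⊆ {E : ℝ | ¬ ((∃ R : lp (fun _ : ℤ => ℂ) 2 →L[ℂ] lp (fun _ : ℤ => ℂ) 2,
              ∀ φ : lp (fun _ : ℤ => ℂ) 2, ∀ n : ℤ,
                R φ (n + 1) + R φ (n - 1) + ((V' n : ℂ) - (E : ℂ)) * R φ n = φ n) ∧
            (∀ ψ : ℤ → ℂ, Memℓp ψ 2 →
              (∀ n : ℤ, ψ (n + 1) + ψ (n - 1) + ((V' n : ℂ) - (E : ℂ)) * ψ n = 0) →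
              ψ = 0))} := by
      rintro E ⟨hcE, hEd⟩ ⟨⟨R, hR⟩, hinj⟩
      set δ : ℝ := 1 / (2 * (‖R‖ + 1)) with hδ
      have hRn := norm_nonneg R
      have hδpos : 0 < δ := by rw [hδ]; positivity
      obtain ⟨ψ, a, b, g1, g2, g3⟩ := h4 E hcE hEd δ hδpos
      set Ψ : lp (fun _ : ℤ => ℂ) 2 := ⟨fun n => ((ψ n : ℝ) : ℂ), mem_of_finsupp ψ a b g1⟩ with hΨ
      have hΨn : ∀ n, Ψ n = ((ψ n : ℝ) : ℂ) := fun n => rfl
      have gHE : ∀ n, n < a - 1 ∨ b + 1 < n → HE V' E ψ n = 0 := by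
        intro n hn
        simp only [HE]
        rw [g1 n (by omega), g1 (n + 1) (by omega), g1 (n - 1) (by omega)]
        ring
      set X : lp (fun _ : ℤ => ℂ) 2 :=
        ⟨fun n => ((HE V' E ψ n : ℝ) : ℂ), mem_of_finsupp _ (a - 1) (b + 1) gHE⟩ with hX
      have hXn : ∀ n, X n = ((HE V' E ψ n : ℝ) : ℂ) := fun n => rfl
      have hnΨ := norm_of_finsupp ψ a b g1 Ψ hΨn
      have hnX := norm_of_finsupp (HE V' E ψ) (a - 1) (b + 1) gHE X hXn
      have hRX : R X = Ψ := by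
        have hz : (fun n => (R X - Ψ) n) = (0 : ℤ → ℂ) := by
          apply hinj
          · exact lp.memℓp (R X - Ψ)
          · intro n
            have e1 := hR X n
            simp only [lp.coeFn_sub, Pi.sub_apply, hΨn]
            rw [hXn] at e1
            simp only [HE] at e1
            push_cast at e1
            linear_combination e1
        have hz' : R X - Ψ = 0 := by
          ext n
          exact congrFun hz n
        exact sub_eq_zero.mp hz'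
      have hle : ‖Ψ‖ ≤ ‖R‖ * ‖X‖ := by
        rw [← hRX]; exact R.le_opNorm X
      have hXle : ‖X‖ ≤ δ * ‖Ψ‖ := by
        apply le_of_sq_le_sq _ (by positivity)
        rw [mul_pow, hnX, hnΨ]
        exact g3
      have hΨpos : 0 < ‖Ψ‖ := by
        rw [← hnΨ] at g2
        by_contra hcon
        have : ‖Ψ‖ = 0 := le_antisymm (not_lt.mp hcon) (norm_nonneg _)
        rw [this] at g2
        norm_num at g2
      have h5 : ‖R‖ * δ < 1 := by
        rw [hδ, mul_one_div, div_lt_one (by positivity)]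
        linarith
      have h6 : ‖R‖ * ‖X‖ ≤ ‖R‖ * (δ * ‖Ψ‖) := mul_le_mul_of_nonneg_left hXle hRn
      nlinarith
    have hss := htd (Set.Icc c d) hsub isPreconnected_Icc
    have := hss (Set.left_mem_Icc.mpr hcd.le) (Set.right_mem_Icc.mpr hcd.le)
    linarith

end Pool.Agent.S15793
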