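import Pool.Statements.S15806
import Pool.Agent.H508R3.SC10

set_option autoImplicit false
open Pool Pool.MP_dd0251_mp

namespace Pool.Agent.S15806

/-- The negation of the preceding statement: For every bounded Jacobi matrix with positive off-diagonal entries, the set where its spectral measure has positive Lebesgue density equals, up to a null set, the set of energies E where the transfer matrices stay bounded along a subsequence. -/
theorem result :
    ¬ (∀ (a b : ℕ → ℝ), (∀ n, 0 < a n) → (∃ C : ℝ, ∀ n, |a n| ≤ C ∧ |b n| ≤ C) →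
    ∀ μ : MeasureTheory.Measure ℝ,
      (∀ k : ℕ, MeasureTheory.Integrable (fun x : ℝ => x ^ k) μ) →
      (∀ k : ℕ, ∫ x, x ^ k ∂μ =
          ((Matrix.of fun i j : Fin (k + 1) =>
              if i.val = j.val then b i.val
              else if j.val = i.val + 1 then a i.val
              else if i.val = j.val + 1 then a j.val
              else (0 : ℝ)) ^ k) 0 0) →
      MeasureTheory.volume
        (symmDiff {E : ℝ | 0 < μ.rnDeriv MeasureTheory.volume E}
          {E : ℝ | ∃ C : ℝ, ∀ N : ℕ, ∃ n ≥ N, ∀ i j : Fin 2,
            |(((List.range n).reverse.map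
                (fun m => (a m)⁻¹ • !![E - b m, -1; a m ^ 2, 0])).prod) i j| ≤ C}) = 0) := by
  intro h
  obtain ⟨b, nj, μ, hb, _, hint, hmom, hae⟩ := Pool.Agent.H508R3.SC.potential_measure
  have h0 := h (fun _ => 1) b (fun _ => one_pos)
    ⟨11, fun n => ⟨by norm_num, hb n⟩⟩ μ hint hmom
  have hpos := Pool.Agent.H508R3.SC.SI_pos
  have hnull : MeasureTheory.volume (Pool.Agent.H508R3.SC.SI) = 0 := by
    have hSm : MeasurableSet Pool.Agent.H508R3.SC.SI := measurableSet_Icc
    rw [MeasureTheory.ae_restrict_iff' hSm] at hae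
    have h1 : ∀ᵐ E ∂(MeasureTheory.volume : MeasureTheory.Measure ℝ),
        E ∉ Pool.Agent.H508R3.SC.SI := by
      have h2 := MeasureTheory.measure_eq_zero_iff_ae_notMem.mp h0
      filter_upwards [hae, h2] with E h3 h4 h5
      obtain ⟨h6, h7, h8⟩ := h3 h5
      apply h4
      refine Or.inr ⟨h8, ?_⟩
      intro h9
      have h10 : 0 < μ.rnDeriv MeasureTheory.volume E := h9
      rw [h6] at h10
      exact lt_irrefl _ h10
    exact MeasureTheory.measure_eq_zero_iff_ae_notMem.mpr h1
  exact hpos.ne' hnull

end Pool.Agent.S15806
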