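import Pool.Statements.S15812
import Pool.Agent.H792R3.LPf
import Pool.Agent.Helper434.PSCplx

set_option autoImplicit false
open MeasureTheory
open Pool Pool.MP_e37829_mp

namespace Pool.Agent.S15812

/-- The negation of the preceding statement: For every Cantor group, minimal translation and continuous real f, the operators H_ω all have the same spectral type: having eigenvalues, having absolutely continuous spectrum, and having singular continuous spectrum each hold for all ω or for none. -/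
theorem result :
    ¬ (∀ (Ω : Type) [TopologicalSpace Ω] [AddCommGroup Ω] [IsTopologicalAddGroup Ω]
      [CompactSpace Ω] [T2Space Ω] [TopologicalSpace.MetrizableSpace Ω]
      [TotallyDisconnectedSpace Ω] [Nonempty Ω],
      (∀ x : Ω, ¬ IsOpen ({x} : Set Ω)) →
      ∀ (α : Ω), Dense (Set.range (fun n : ℤ => n • α)) →
      ∀ (f : C(Ω, ℝ))
        (H : Ω → (lp (fun _ : ℤ => ℂ) 2 →L[ℂ] lp (fun _ : ℤ => ℂ) 2)),
        (∀ (ω : Ω) (ψ : lp (fun _ : ℤ => ℂ) 2) (n : ℤ),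
          (H ω ψ) n = ψ (n + 1) + ψ (n - 1) + ((f (n • α + ω) : ℝ) : ℂ) * ψ n) →
        ∀ ω ω' : Ω,
          ((∃ ψ : lp (fun _ : ℤ => ℂ) 2, ψ ≠ 0 ∧ ∃ E : ℝ, H ω ψ = (E : ℂ) • ψ) →
            (∃ ψ : lp (fun _ : ℤ => ℂ) 2, ψ ≠ 0 ∧ ∃ E : ℝ, H ω' ψ = (E : ℂ) • ψ)) ∧
          ((∃ (ψ : lp (fun _ : ℤ => ℂ) 2) (μ : Measure ℝ), IsFiniteMeasure μ ∧
              (∀ k : ℕ, Integrable (fun x : ℝ => x ^ k) μ ∧
                (∑' n : ℤ, star (ψ n) * (((⇑(H ω))^[k] ψ) n)) =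
                  (((∫ x, x ^ k ∂μ) : ℝ) : ℂ)) ∧
              μ ≠ 0 ∧ μ.AbsolutelyContinuous volume) →
            (∃ (ψ : lp (fun _ : ℤ => ℂ) 2) (μ : Measure ℝ), IsFiniteMeasure μ ∧
              (∀ k : ℕ, Integrable (fun x : ℝ => x ^ k) μ ∧
                (∑' n : ℤ, star (ψ n) * (((⇑(H ω'))^[k] ψ) n)) =
                  (((∫ x, x ^ k ∂μ) : ℝ) : ℂ)) ∧
              μ ≠ 0 ∧ μ.AbsolutelyContinuous volume)) ∧
          ((∃ (ψ : lp (fun _ : ℤ => ℂ) 2) (μ : Measure ℝ), IsFiniteMeasure μ ∧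
              (∀ k : ℕ, Integrable (fun x : ℝ => x ^ k) μ ∧
                (∑' n : ℤ, star (ψ n) * (((⇑(H ω))^[k] ψ) n)) =
                  (((∫ x, x ^ k ∂μ) : ℝ) : ℂ)) ∧
              μ ≠ 0 ∧ μ.MutuallySingular volume ∧ ∀ x : ℝ, μ {x} = 0) →
            (∃ (ψ : lp (fun _ : ℤ => ℂ) 2) (μ : Measure ℝ), IsFiniteMeasure μ ∧
              (∀ k : ℕ, Integrable (fun x : ℝ => x ^ k) μ ∧
                (∑' n : ℤ, star (ψ n) * (((⇑(H ω'))^[k] ψ) n)) =
                  (((∫ x, x ^ k ∂μ) : ℝ) : ℂ)) ∧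
              μ ≠ 0 ∧ μ.MutuallySingular volume ∧ ∀ x : ℝ, μ {x} = 0))) := by
  intro hall
  obtain ⟨w, hw⟩ := Pool.Agent.H792R3.exists_omega
  let f : C(ℤ_[2], ℝ) := ⟨Pool.Agent.H792R3.samp, Pool.Agent.H792R3.continuous_samp⟩
  have hbdd : ∃ C : ℝ, ∀ x : ℤ_[2], |Pool.Agent.H792R3.samp x| ≤ C := by
    obtain ⟨C, hC⟩ := isCompact_univ.exists_bound_of_continuousOn
      (Pool.Agent.H792R3.continuous_samp.continuousOn (s := Set.univ))
    exact ⟨C, fun x => hC x (Set.mem_univ x)⟩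
  obtain ⟨C, hC⟩ := hbdd
  have hH : ∀ ω : ℤ_[2], ∃ H : lp (fun _ : ℤ => ℂ) 2 →L[ℂ] lp (fun _ : ℤ => ℂ) 2,
      ∀ (ψ : lp (fun _ : ℤ => ℂ) 2) (n : ℤ), H ψ n = ψ (n + 1) + ψ (n - 1) +
        ((Pool.Agent.H792R3.samp (n • (1 : ℤ_[2]) + ω) : ℝ) : ℂ) * ψ n := by
    intro ω
    obtain ⟨H, h1, -⟩ := Pool.Agent.Helper434.PSCplx.exists_H
      (fun n : ℤ => Pool.Agent.H792R3.samp (n • (1 : ℤ_[2]) + ω)) (C := C) (fun m => hC _)
    exact ⟨H, h1⟩
  choose H hH using hH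
  have hdisc : ∀ x : ℤ_[2], ¬ IsOpen ({x} : Set ℤ_[2]) := by
    intro x hx
    rw [Metric.isOpen_singleton_iff] at hx
    obtain ⟨ε, hε, hx⟩ := hx
    obtain ⟨n, hn⟩ := exists_pow_lt_of_lt_one hε (show (1 / 2 : ℝ) < 1 by norm_num)
    have h1 : x + (2 : ℤ_[2]) ^ n = x := by
      apply hx
      rw [dist_eq_norm, add_sub_cancel_left]
      have h2 : ‖(2 : ℤ_[2]) ^ n‖ = (1 / 2 : ℝ) ^ n := by
        rw [norm_pow]
        congr 1
        have := PadicInt.norm_p (p := 2)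
        push_cast at this
        rw [this]; norm_num
      rw [h2]; exact hn
    have h2 : (2 : ℤ_[2]) ^ n = 0 := by simp at h1
    have h3 : (2 : ℤ_[2]) ≠ 0 := by norm_num
    exact pow_ne_zero n h3 h2
  have hdense : Dense (Set.range (fun n : ℤ => n • (1 : ℤ_[2]))) := by
    have h1 := PadicInt.denseRange_intCast (p := 2)
    have h2 : (fun n : ℤ => n • (1 : ℤ_[2])) = (Int.cast : ℤ → ℤ_[2]) := by
      funext n; exact zsmul_one n
    rw [h2]
    exact h1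
  have key := (hall ℤ_[2] hdisc 1 hdense f H hH 0 w).1
  have hmem : Memℓp (fun n : ℤ => (Pool.Agent.H792R3.psi n : ℂ)) 2 := by
    apply memℓp_gen
    have h1 := Pool.Agent.H792R3.psi_sq_summable
    refine h1.congr (fun n => ?_)
    rw [Complex.norm_real, Real.norm_eq_abs]
    norm_num
  have heig : ∃ ψ : lp (fun _ : ℤ => ℂ) 2, ψ ≠ 0 ∧ ∃ E : ℝ, H 0 ψ = (E : ℂ) • ψ := by
    refine ⟨⟨_, hmem⟩, ?_, 0, ?_⟩
    · intro h0
      have h1 := congrFun (congrArg (fun u : lp (fun _ : ℤ => ℂ) 2 => (u : ℤ → ℂ)) h0) 0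
      have h2 : (Pool.Agent.H792R3.psi 0 : ℂ) = 0 := h1
      have h3 : Pool.Agent.H792R3.psi 0 = 0 := by exact_mod_cast h2
      exact (Real.exp_pos _).ne' h3
    · ext n
      rw [hH]
      have h1 := Pool.Agent.H792R3.psi_eq n
      have h2 : Pool.Agent.H792R3.samp (n • (1 : ℤ_[2]) + 0) = Pool.Agent.H792R3.pot n := by
        rw [add_zero, zsmul_one, Pool.Agent.H792R3.samp_int]
      rw [h2]
      have h3 : ((Pool.Agent.H792R3.psi (n + 1) + Pool.Agent.H792R3.psi (n - 1) +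
        Pool.Agent.H792R3.pot n * Pool.Agent.H792R3.psi n : ℝ) : ℂ) = 0 := by rw [h1]; simp
      push_cast at h3
      rw [lp.coeFn_smul, Pi.smul_apply]
      change (Pool.Agent.H792R3.psi (n + 1) : ℂ) + Pool.Agent.H792R3.psi (n - 1) +
        (Pool.Agent.H792R3.pot n : ℂ) * Pool.Agent.H792R3.psi n = _
      rw [h3]
      simp
  obtain ⟨ψ, hψ, E, hE⟩ := key heig
  apply hψ
  have hz : (ψ : ℤ → ℂ) = 0 := by
    apply Pool.Agent.H792R3.gordon
      (fun n => (E : ℂ) - ((Pool.Agent.H792R3.samp ((n : ℤ_[2]) + w) : ℝ) : ℂ))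
    · intro n
      have h1 := congrFun (congrArg (fun u : lp (fun _ : ℤ => ℂ) 2 => (u : ℤ → ℂ)) hE) n
      simp only at h1
      rw [hH, lp.coeFn_smul, Pi.smul_apply, smul_eq_mul, zsmul_one] at h1
      linear_combination h1
    · have h1 : Summable fun n : ℤ => ‖ψ n‖ ^ (2 : ENNReal).toReal :=
        (lp.memℓp ψ).summable (by norm_num)
      have h2 : Filter.Tendsto (fun n : ℤ => ‖ψ n‖ ^ (2 : ENNReal).toReal) Filter.cofinite
        (nhds 0) := h1.tendsto_cofinite_zero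
      have h3 : Filter.Tendsto (fun n : ℤ => Real.sqrt (‖ψ n‖ ^ (2 : ENNReal).toReal))
        Filter.cofinite (nhds (Real.sqrt 0)) := (Real.continuous_sqrt.tendsto 0).comp h2
      rw [Real.sqrt_zero] at h3
      rw [tendsto_zero_iff_norm_tendsto_zero]
      refine h3.congr (fun n => ?_)
      norm_num
    · intro N
      refine ⟨16 ^ N, (Nat.lt_pow_self (by norm_num)).le, fun n h1 h2 => ?_⟩
      have := Pool.Agent.H792R3.samp_per w hw N n (by push_cast at h1; exact h1)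
        (by push_cast at h2; exact h2)
      push_cast at this ⊢
      rw [this]
  ext n
  exact congrFun hz n

end Pool.Agent.S15812
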