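import Pool.Statements.S15828
import Pool.Agent.H120R3.CheckersMain

set_option autoImplicit false
open Pool Pool.MP_f387d3_mp

namespace Pool.Agent.S15828

/-- The negation of the preceding statement: In the basic Feynman checkers model, with P(x,t) the squared norm of the checker-path amplitude at time t=n+1, there is a constant C such that every maximiser x of P(·,t) is within C of t/√2, for all t. -/
theorem result :
    ¬ (∃ C : ℝ, ∀ n : ℕ, ∀ x : ℤ,
      (∀ y : ℤ,
        (2:ℝ) ^ (-(n:ℤ)) *
          ‖∑ s ∈ Finset.univ.filter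
              (fun s : Fin (n+1) → Bool =>
                s 0 = true ∧ ∑ i, (if s i then (1:ℤ) else -1) = y),
            (-Complex.I) ^ ((Finset.univ.filter
              (fun i : Fin n => s i.castSucc ≠ s i.succ)).card)‖ ^ 2
        ≤
        (2:ℝ) ^ (-(n:ℤ)) *
          ‖∑ s ∈ Finset.univ.filter
              (fun s : Fin (n+1) → Bool =>
                s 0 = true ∧ ∑ i, (if s i then (1:ℤ) else -1) = x),
            (-Complex.I) ^ ((Finset.univ.filter
              (fun i : Fin n => s i.castSucc ≠ s i.succ)).card)‖ ^ 2) →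
      |(x:ℝ) - ((n:ℝ) + 1) / Real.sqrt 2| ≤ C) := by
  rintro ⟨C, hC⟩
  obtain ⟨N0, hN0⟩ := Pool.Agent.H120R3.Checkers.P_lt C
  have key : ∀ n : ℕ, ∀ x : ℤ,
      (∀ y : ℤ, ‖Pool.Agent.H120R3.Checkers.amp n true y‖ ^ 2 ≤
        ‖Pool.Agent.H120R3.Checkers.amp n true x‖ ^ 2) →
      |(x:ℝ) - ((n:ℝ) + 1) / Real.sqrt 2| ≤ C := by
    intro n x h
    apply hC n x
    intro y
    apply mul_le_mul_of_nonneg_left _ (by positivity)
    exact h y
  -- a maximiser
  set n : ℕ := N0 + 1 with hn
  obtain ⟨x, -, hx⟩ := Finset.exists_max_image (Finset.Icc (-(n + 1 : ℤ)) (n + 1))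
    (fun y => ‖Pool.Agent.H120R3.Checkers.amp n true y‖ ^ 2)
    ⟨(n + 1 : ℤ), by simp only [Finset.mem_Icc]; omega⟩
  have hmax : ∀ y : ℤ, ‖Pool.Agent.H120R3.Checkers.amp n true y‖ ^ 2 ≤
      ‖Pool.Agent.H120R3.Checkers.amp n true x‖ ^ 2 := by
    intro y
    by_cases hy : Pool.Agent.H120R3.Checkers.amp n true y = 0
    · rw [hy]
      have h2 := sq_nonneg ‖Pool.Agent.H120R3.Checkers.amp n true x‖
      rw [norm_zero]
      linarith
    · have := Pool.Agent.H120R3.Checkers.amp_support n true y hy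
      exact hx y (by simp only [Finset.mem_Icc]; exact ⟨this.2.1, this.1⟩)
  have hxne : Pool.Agent.H120R3.Checkers.amp n true x ≠ 0 := by
    intro h0
    have h1 := hmax (n + 1)
    rw [(Pool.Agent.H120R3.Checkers.amp_top n).1, h0] at h1
    norm_num at h1
  have hsup := Pool.Agent.H120R3.Checkers.amp_support n true x hxne
  have hb := key n x hmax
  have hlt := hN0 N0 le_rfl x (by
    have e : ((n : ℝ) + 1) = (N0 : ℝ) + 2 := by rw [hn]; push_cast; ring
    rw [← e]
    exact hb) (by
    have := hsup.2.2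
    rw [hn] at this
    push_cast at this
    omega)
  have := hmax (x - 2)
  rw [← hn] at hlt
  linarith

end Pool.Agent.S15828
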