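import Pool.Statements.S15846
import Pool.Agent.H428R3.SN.Final

set_option autoImplicit false
open Filter
open Pool Pool.MP_016e95_nt

namespace Pool.Agent.S15846

/-- The negation of the preceding statement: There exist a base b≥2 and a non-constant polynomial taking ℕ to ℕ such that concatenating the base-b digits of f(2),f(3),f(5),… gives a number that, in every base b^m, has digit-count deviations with limsup √(b^m−1)/b^m and liminf −√(b^m−1)/b^m. -/
theorem result :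
    ¬ (∃ b : ℕ, 2 ≤ b ∧ ∃ f : Polynomial ℚ, 0 < f.degree ∧ ∃ g : ℕ → ℕ,
    (∀ n : ℕ, 1 ≤ n → 1 ≤ g n ∧ ((g n : ℚ) = f.eval (n : ℚ))) ∧
    ∃ d : ℕ → ℕ,
      (∀ j i : ℕ, i < (Nat.digits b (g (Nat.nth Nat.Prime j))).length →
        d ((∑ t ∈ Finset.range j, (Nat.digits b (g (Nat.nth Nat.Prime t))).length) + i)
          = ((Nat.digits b (g (Nat.nth Nat.Prime j))).reverse).getD i 0) ∧
      ∀ m : ℕ, 1 ≤ m → ∀ k : ℕ, k < b ^ m → ∀ ε : ℝ, 0 < ε →
        (∀ᶠ n in atTop,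
          ((((Finset.range n).filter (fun j => ∑ i ∈ Finset.range m, d (m * j + i) * b ^ (m - 1 - i) = k)).card : ℝ)
              - (n : ℝ) / (b : ℝ) ^ m) / Real.sqrt (2 * (n : ℝ) * Real.log (Real.log (n : ℝ)))
            ≤ Real.sqrt ((b : ℝ) ^ m - 1) / (b : ℝ) ^ m + ε) ∧
        (∃ᶠ n in atTop,
          Real.sqrt ((b : ℝ) ^ m - 1) / (b : ℝ) ^ m - ε ≤
          ((((Finset.range n).filter (fun j => ∑ i ∈ Finset.range m, d (m * j + i) * b ^ (m - 1 - i) = k)).card : ℝ)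
              - (n : ℝ) / (b : ℝ) ^ m) / Real.sqrt (2 * (n : ℝ) * Real.log (Real.log (n : ℝ)))) ∧
        (∀ᶠ n in atTop,
          -(Real.sqrt ((b : ℝ) ^ m - 1) / (b : ℝ) ^ m) - ε ≤
          ((((Finset.range n).filter (fun j => ∑ i ∈ Finset.range m, d (m * j + i) * b ^ (m - 1 - i) = k)).card : ℝ)
              - (n : ℝ) / (b : ℝ) ^ m) / Real.sqrt (2 * (n : ℝ) * Real.log (Real.log (n : ℝ)))) ∧
        (∃ᶠ n in atTop,
          ((((Finset.range n).filter (fun j => ∑ i ∈ Finset.range m, d (m * j + i) * b ^ (m - 1 - i) = k)).card : ℝ)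
              - (n : ℝ) / (b : ℝ) ^ m) / Real.sqrt (2 * (n : ℝ) * Real.log (Real.log (n : ℝ)))
            ≤ -(Real.sqrt ((b : ℝ) ^ m - 1) / (b : ℝ) ^ m) + ε)) := by
  rintro ⟨b, hb, f, hf, g, hg, d, hd, hmain⟩
  refine Pool.Agent.H428R3.SN.final b hb f hf g hg d hd (fun m hm => ?_)
  obtain ⟨h1, -, h3, -⟩ := hmain m hm 0 (by positivity) 1 one_pos
  exact Pool.Agent.H428R3.SN.disc_bound b m hb
    (fun n => ((((Finset.range n).filter (fun j => ∑ i ∈ Finset.range m, d (m * j + i) * b ^ (m - 1 - i) = 0)).card : ℕ) : ℝ))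
    h1 h3

end Pool.Agent.S15846
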