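import Pool.Statements.S15888

set_option autoImplicit false
open Pool Pool.MP_0426f4_nt

namespace Pool.Agent.S15888

/-- One step of the multiscale construction. -/
theorem step (N m g : ℕ) (hN : 2 * (m + g) = N + m) (A : Finset ℕ)
    (hA1 : ∀ x ∈ A, 2 * x < 2 ^ m)
    (hA2 : ∀ x ∈ A, ∀ x' ∈ A, ∀ j w : ℕ, j < m → w * 2 ^ N < (2 ^ j) ^ 2 →
      ¬ (x + 2 ^ j ≤ x' + w ∧ x' ≤ x + 2 ^ j + w)) :
    ∃ B : Finset ℕ, (∀ x ∈ B, 2 * x < 2 ^ (m + g)) ∧
      (∀ x ∈ B, ∀ x' ∈ B, ∀ j w : ℕ, j < m + g → w * 2 ^ N < (2 ^ j) ^ 2 →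
      ¬ (x + 2 ^ j ≤ x' + w ∧ x' ≤ x + 2 ^ j + w)) ∧ A.card * 2 ^ g ≤ B.card * 6 := by
  classical
  obtain ⟨P, hP⟩ : ∃ P : ℕ, P = 2 ^ m := ⟨_, rfl⟩
  have hPpos : 0 < P := by rw [hP]; positivity
  obtain ⟨Y, hY⟩ : ∃ Y : ℕ, Y = (2 ^ g - 1) / 6 + 1 := ⟨_, rfl⟩
  have hg1 : 1 ≤ 2 ^ g := Nat.one_le_two_pow
  have hYb : ∀ y, y < Y → 6 * y + 1 ≤ 2 ^ g := by
    intro y hy
    omega
  have hYc : 2 ^ g ≤ Y * 6 := by omega
  let f : ℕ × ℕ → ℕ := fun p => p.1 + 3 * P * p.2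
  have hinj : Set.InjOn f ((A ×ˢ Finset.range Y : Finset (ℕ × ℕ)) : Set (ℕ × ℕ)) := by
    rintro ⟨x, y⟩ hxy ⟨x', y'⟩ hxy' h
    simp only [Finset.coe_product, Set.mem_prod, Finset.mem_coe, Finset.mem_range] at hxy hxy'
    have h1 := hA1 x hxy.1
    have h2 := hA1 x' hxy'.1
    simp only [f] at h
    rw [← hP] at h1 h2
    have hyy : y = y' := by
      rcases lt_trichotomy y y' with hlt | heq | hgt
      · exfalso
        have : 3 * P * y + 3 * P ≤ 3 * P * y' := by nlinarith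
        omega
      · exact heq
      · exfalso
        have : 3 * P * y' + 3 * P ≤ 3 * P * y := by nlinarith
        omega
    subst hyy
    have : x = x' := by omega
    rw [this]
  refine ⟨(A ×ˢ Finset.range Y).image f, ?_, ?_, ?_⟩
  · intro z hz
    rw [Finset.mem_image] at hz
    obtain ⟨⟨x, y⟩, hxy, rfl⟩ := hz
    rw [Finset.mem_product] at hxy
    have h1 := hA1 x hxy.1
    have h2 := hYb y (Finset.mem_range.1 hxy.2)
    simp only [f]
    rw [pow_add, ← hP]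
    rw [← hP] at h1
    nlinarith
  · intro z hz z' hz' j w hj hw hcon
    rw [Finset.mem_image] at hz hz'
    obtain ⟨⟨x, y⟩, hxy, rfl⟩ := hz
    obtain ⟨⟨x', y'⟩, hxy', rfl⟩ := hz'
    rw [Finset.mem_product] at hxy hxy'
    have h1 := hA1 x hxy.1
    have h2 := hA1 x' hxy'.1
    simp only [f] at hcon
    rw [← hP] at h1 h2
    by_cases hjm : j < m
    · -- small scale
      have hwj : w ≤ 2 ^ j := by
        by_contra hlt
        push Not at hlt
        have h5 : 2 ^ j ≤ 2 ^ N := Nat.pow_le_pow_right (by norm_num) (by omega)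
        have h6 : 2 ^ j * 2 ^ j ≤ w * 2 ^ N := Nat.mul_le_mul hlt.le h5
        rw [sq] at hw
        exact absurd hw (not_lt.2 h6)
      have hjP : 2 * 2 ^ j ≤ P := by
        rw [hP, ← pow_succ']
        exact Nat.pow_le_pow_right (by norm_num) (by omega)
      rcases lt_trichotomy y y' with hlt | heq | hgt
      · have : 3 * P * y + 3 * P ≤ 3 * P * y' := by nlinarith
        omega
      · subst heq
        exact hA2 x hxy.1 x' hxy'.1 j w hjm hw ⟨by omega, by omega⟩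
      · have : 3 * P * y' + 3 * P ≤ 3 * P * y := by nlinarith
        omega
    · push Not at hjm
      -- 4 w < P
      have hw4 : 4 * w < P := by
        by_contra hge
        push Not at hge
        have h3 : (2 ^ j) ^ 2 * 4 ≤ P * 2 ^ N := by
          rw [hP, ← pow_add, ← pow_mul]
          calc 2 ^ (j * 2) * 4 = 2 ^ (j * 2 + 2) := by rw [pow_add]; norm_num
            _ ≤ 2 ^ (m + N) := Nat.pow_le_pow_right (by norm_num) (by omega)
        have h7 : P * 2 ^ N ≤ 4 * (w * 2 ^ N) := by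
          rw [← mul_assoc]
          exact Nat.mul_le_mul_right _ hge
        omega
      -- 2^j = P * (3 q + r), r = 1, 2
      have h2j : 2 ^ j = P * 2 ^ (j - m) := by
        rw [hP, ← pow_add]; congr 1; omega
      have hmod : 2 ^ (j - m) % 3 = 1 ∨ 2 ^ (j - m) % 3 = 2 := by
        have : ¬ (2 ^ (j - m) % 3 = 0) := by
          intro h0
          have := Nat.dvd_of_mod_eq_zero h0
          have := (Nat.prime_three).dvd_of_dvd_pow this
          omega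
        omega
      obtain ⟨Q, hQ⟩ : ∃ Q : ℕ, Q = 2 ^ (j - m) := ⟨_, rfl⟩
      rw [← hQ] at hmod h2j
      rw [h2j] at hcon
      -- integers
      have hcon1 : (x : ℤ) + 3 * P * y + P * Q ≤ x' + 3 * P * y' + w := by exact_mod_cast hcon.1
      have hcon2 : (x' : ℤ) + 3 * P * y' ≤ x + 3 * P * y + P * Q + w := by exact_mod_cast hcon.2
      have h1' : 2 * (x : ℤ) < P := by exact_mod_cast h1
      have h2' : 2 * (x' : ℤ) < P := by exact_mod_cast h2
      have hw4' : 4 * (w : ℤ) < P := by exact_mod_cast hw4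
      have hPpos' : (0 : ℤ) < P := by exact_mod_cast hPpos
      obtain ⟨u, hu⟩ : ∃ u : ℤ, u = 3 * (y' : ℤ) - 3 * y - Q := ⟨_, rfl⟩
      have hu0 : u ≠ 0 := by omega
      have hx0 : (0 : ℤ) ≤ x := by positivity
      have hx0' : (0 : ℤ) ≤ x' := by positivity
      have hw0 : (0 : ℤ) ≤ w := by positivity
      have e1 : (P : ℤ) * u = 3 * P * y' - 3 * P * y - P * Q := by rw [hu]; ring
      rcases lt_or_gt_of_ne hu0 with hneg | hpos
      · have : (P : ℤ) * u ≤ - P := by nlinarith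
        linarith
      · have : (P : ℤ) ≤ P * u := by nlinarith
        linarith
  · rw [Finset.card_image_of_injOn hinj, Finset.card_product, Finset.card_range]
    calc A.card * 2 ^ g ≤ A.card * (Y * 6) := Nat.mul_le_mul_left _ hYc
      _ = A.card * Y * 6 := by ring

/-- The construction after `k` steps, `m_k = 2^K - 2^(K-k)`. -/
theorem build (K : ℕ) : ∀ k : ℕ, k ≤ K → ∃ A : Finset ℕ,
      (∀ x ∈ A, 2 * x < 2 ^ (2 ^ K - 2 ^ (K - k))) ∧
      (∀ x ∈ A, ∀ x' ∈ A, ∀ j w : ℕ, j < 2 ^ K - 2 ^ (K - k) →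
        w * 2 ^ (2 ^ K) < (2 ^ j) ^ 2 →
        ¬ (x + 2 ^ j ≤ x' + w ∧ x' ≤ x + 2 ^ j + w)) ∧
      2 ^ (2 ^ K - 2 ^ (K - k)) ≤ A.card * 6 ^ k := by
  intro k
  induction k with
  | zero =>
    intro _
    refine ⟨{0}, ?_, ?_, ?_⟩
    · intro x hx
      simp only [Finset.mem_singleton] at hx
      subst hx
      positivity
    · intro x hx x' hx' j w hj
      simp at hj
    · simp
  | succ k ih =>
    intro hk
    obtain ⟨A, h1, h2, h3⟩ := ih (by omega)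
    have hpow : 2 ^ (K - k) = 2 * 2 ^ (K - (k + 1)) := by
      rw [← pow_succ']; congr 1; omega
    have hle : 2 ^ (K - k) ≤ 2 ^ K := Nat.pow_le_pow_right (by norm_num) (by omega)
    have hle0 : 0 < 2 ^ (K - (k + 1)) := by positivity
    obtain ⟨B, hB1, hB2, hB3⟩ := step (2 ^ K) (2 ^ K - 2 ^ (K - k)) (2 ^ (K - (k + 1)))
      (by omega) A h1 h2
    have he : 2 ^ K - 2 ^ (K - k) + 2 ^ (K - (k + 1)) = 2 ^ K - 2 ^ (K - (k + 1)) := by omega
    rw [he] at hB1 hB2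
    refine ⟨B, hB1, hB2, ?_⟩
    rw [← he, pow_add]
    calc 2 ^ (2 ^ K - 2 ^ (K - k)) * 2 ^ 2 ^ (K - (k + 1))
        ≤ (A.card * 6 ^ k) * 2 ^ 2 ^ (K - (k + 1)) := Nat.mul_le_mul_right _ h3
      _ = (A.card * 2 ^ 2 ^ (K - (k + 1))) * 6 ^ k := by ring
      _ ≤ (B.card * 6) * 6 ^ k := Nat.mul_le_mul_right _ hB3
      _ = B.card * 6 ^ (k + 1) := by ring

theorem numeric (K : ℕ) (hK : 8 ≤ K) :
    (2 : ℝ) * 6 ^ K ≤ Real.log ((2 ^ (2 ^ K) : ℕ) : ℝ) ^
      Real.log (Real.log ((2 ^ (2 ^ K) : ℕ) : ℝ)) := by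
  have hlog2 : (0.6931471803 : ℝ) < Real.log 2 := Real.log_two_gt_d9
  have hn : Real.log ((2 ^ (2 ^ K) : ℕ) : ℝ) = 2 ^ K * Real.log 2 := by
    push_cast
    rw [Real.log_pow]
    push_cast
    ring
  rw [hn]
  obtain ⟨X, hX⟩ : ∃ X : ℝ, X = 2 ^ K * Real.log 2 := ⟨_, rfl⟩
  rw [← hX]
  have hXlow : (0.69 : ℝ) * 2 ^ K ≤ X := by
    rw [hX]
    have : (0 : ℝ) < 2 ^ K := by positivity
    nlinarith
  have h256 : (256 : ℝ) ≤ 2 ^ K := by
    calc (256 : ℝ) = 2 ^ 8 := by norm_num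
      _ ≤ 2 ^ K := pow_le_pow_right₀ (by norm_num) hK
  have hX1 : (176 : ℝ) ≤ X := by nlinarith
  have hXpos : 0 < X := by linarith
  have hloglog : (4 : ℝ) ≤ Real.log X := by
    rw [Real.le_log_iff_exp_le hXpos]
    have he : Real.exp 1 < 2.7182818286 := Real.exp_one_lt_d9
    have h4 : Real.exp 4 = Real.exp 1 ^ 4 := by
      rw [← Real.exp_nat_mul]; norm_num
    rw [h4]
    have hp : 0 < Real.exp 1 := Real.exp_pos 1
    calc Real.exp 1 ^ 4 ≤ (2.7182818286 : ℝ) ^ 4 := pow_le_pow_left₀ hp.le he.le 4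
      _ ≤ 176 := by norm_num
      _ ≤ X := hX1
  calc (2 : ℝ) * 6 ^ K ≤ X ^ 4 := by
        have h16 : X ^ 4 ≥ (0.69 * 2 ^ K) ^ 4 := pow_le_pow_left₀ (by positivity) hXlow 4
        have h17 : ((0.69 : ℝ) * 2 ^ K) ^ 4 = 0.69 ^ 4 * (16 ^ K) := by
          rw [mul_pow, ← pow_mul, mul_comm K 4, pow_mul]; norm_num
        have h18 : (16 : ℝ) ^ K = 6 ^ K * (16 / 6) ^ K := by
          rw [← mul_pow]; norm_num
        have h19 : ((16 / 6 : ℝ)) ^ 8 ≤ (16 / 6) ^ K := pow_le_pow_right₀ (by norm_num) hK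
        have h20 : (1000 : ℝ) ≤ (16 / 6) ^ 8 := by norm_num
        have h6 : (0 : ℝ) < 6 ^ K := by positivity
        rw [h17, h18] at h16
        nlinarith
    _ = X ^ (4 : ℝ) := by norm_cast
    _ ≤ X ^ Real.log X := Real.rpow_le_rpow_of_exponent_le (by linarith) hloglog

/-- The negation of the preceding statement: For each t ≥ 3 and all large n, every A ⊆ [1,n] that meets no blocks b+id..b+id+w (i=1..t−1) simultaneously, for d a power of 2 and wn<d², has (∣A∣/n)·(log n)^(log log n) < 1. -/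
theorem result :
    ¬ (∀ t : ℕ, 3 ≤ t → ∃ n₀ : ℕ, ∀ n : ℕ, n₀ ≤ n → ∀ A : Finset ℕ, A ⊆ Finset.Icc 1 n →
      (∀ j w : ℕ, w * n < (2 ^ j) ^ 2 →
        ¬ ∃ b : ℕ, ∀ i ∈ Finset.Icc 1 (t - 1),
          ∃ a ∈ A, b + i * 2 ^ j ≤ a ∧ a ≤ b + i * 2 ^ j + w) →
      (A.card : ℝ) / n * Real.log n ^ Real.log (Real.log n) < 1) := by
  classical
  intro H
  obtain ⟨n₀, hn₀⟩ := H 3 le_rfl
  obtain ⟨K, hK⟩ : ∃ K : ℕ, K = n₀ + 8 := ⟨_, rfl⟩
  obtain ⟨A, hA1, hA2, hA3⟩ := build K K le_rfl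
  rw [Nat.sub_self, pow_zero] at hA1 hA2 hA3
  have hK1 : K < 2 ^ K := Nat.lt_two_pow_self
  have hN1 : 2 ^ K < 2 ^ (2 ^ K) := Nat.lt_two_pow_self
  have hsplit : 2 ^ (2 ^ K) = 2 * 2 ^ (2 ^ K - 1) := by
    rw [← pow_succ']; congr 1; omega
  have hmain := hn₀ (2 ^ (2 ^ K)) (by omega) (A.image (fun x => x + 1)) ?_ ?_
  · have hcard : (A.image (fun x => x + 1)).card = A.card :=
      Finset.card_image_of_injective _ (fun a b h => by simpa using h)
    rw [hcard] at hmain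
    have hnum := numeric K (by omega)
    have hcast : ((2 ^ (2 ^ K - 1) : ℕ) : ℝ) ≤ (A.card : ℝ) * 6 ^ K := by exact_mod_cast hA3
    have hnpos : (0 : ℝ) < ((2 ^ (2 ^ K) : ℕ) : ℝ) := by positivity
    have hsplit' : ((2 ^ (2 ^ K) : ℕ) : ℝ) = 2 * ((2 ^ (2 ^ K - 1) : ℕ) : ℝ) := by
      exact_mod_cast hsplit
    have hge : (1 : ℝ) ≤ (A.card : ℝ) / ((2 ^ (2 ^ K) : ℕ) : ℝ) * (2 * 6 ^ K) := by
      rw [div_mul_eq_mul_div, le_div_iff₀ hnpos, one_mul]
      nlinarith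
    have hdpos : (0 : ℝ) ≤ (A.card : ℝ) / ((2 ^ (2 ^ K) : ℕ) : ℝ) := by positivity
    have := mul_le_mul_of_nonneg_left hnum hdpos
    linarith
  · intro a ha
    rw [Finset.mem_image] at ha
    obtain ⟨x, hx, rfl⟩ := ha
    have := hA1 x hx
    rw [Finset.mem_Icc]
    omega
  · rintro j w hw ⟨b, hb⟩
    obtain ⟨a₁, ha₁, h11, h12⟩ := hb 1 (by simp)
    obtain ⟨a₂, ha₂, h21, h22⟩ := hb 2 (by simp)
    rw [Finset.mem_image] at ha₁ ha₂
    obtain ⟨x, hx, rfl⟩ := ha₁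
    obtain ⟨x', hx', rfl⟩ := ha₂
    have hx2 := hA1 x' hx'
    by_cases hj : j < 2 ^ K - 1
    · exact hA2 x hx x' hx' j w hj hw ⟨by omega, by omega⟩
    · push Not at hj
      have : 2 ^ (2 ^ K - 1) ≤ 2 ^ j := Nat.pow_le_pow_right (by norm_num) hj
      omega

end Pool.Agent.S15888
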