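import Pool.Statements.S15893
import Pool.Agent.H493R3.FinalTW

set_option autoImplicit false
open Pool Pool.MP_0496af_nt

namespace Pool.Agent.S15893

/-- Some transcendental real ξ has every w_n(ξ) finite, has w_n(ξ)/n unbounded (so it is a T-number), and is normal: in every base b ≥ 2, every block of k digits appears with limiting frequency b^(-k). -/
theorem result :
    ∃ ξ : ℝ, Transcendental ℤ ξ ∧
      (∀ n : ℕ, 1 ≤ n → ∃ W : ℝ,
        Set.Finite {P : Polynomial ℤ | P.natDegree ≤ n ∧ 0 < |Polynomial.aeval ξ P| ∧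
          |Polynomial.aeval ξ P| ≤
            ((P.support.sup (fun i => (P.coeff i).natAbs) : ℕ) : ℝ) ^ (-W)}) ∧
      (∀ M : ℝ, ∃ n : ℕ, 1 ≤ n ∧ ∃ w : ℝ, M * (n : ℝ) < w ∧
        Set.Infinite {P : Polynomial ℤ | P.natDegree ≤ n ∧ 0 < |Polynomial.aeval ξ P| ∧
          |Polynomial.aeval ξ P| ≤
            ((P.support.sup (fun i => (P.coeff i).natAbs) : ℕ) : ℝ) ^ (-w)}) ∧
      (∀ b : ℕ, 2 ≤ b → ∀ k : ℕ, 1 ≤ k → ∀ d : Fin k → Fin b,
        Filter.Tendsto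
          (fun N : ℕ =>
            (((Finset.range N).filter (fun j : ℕ => ∀ i : Fin k,
                ⌊ξ * (b : ℝ) ^ (j + 1 + (i : ℕ))⌋ % (b : ℤ) = (((d i : ℕ)) : ℤ))).card : ℝ)
              / (N : ℝ))
          Filter.atTop (nhds (1 / (b : ℝ) ^ k))) := by
  obtain ⟨V, hVe⟩ : ∃ V : ℕ → ℕ, V = fun j => 22 * (j + 2) ^ 2 := ⟨_, rfl⟩
  obtain ⟨ξ, hξ0, hξ1, hup, hlow, hweyl⟩ := Pool.Agent.H493R3.mainTW V (fun j => by
    rw [hVe]
    have : 1 ≤ (j + 2) ^ 2 := Nat.one_le_pow _ _ (by omega)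
    simp only
    omega)
  have hupE : ∀ n : ℕ, ∃ c : ℝ, 0 < c ∧ ∀ P : Polynomial ℤ, P ≠ 0 → P.natDegree ≤ n →
      c ≤ |Polynomial.aeval ξ P| * (Pool.Agent.Helper35.ht P : ℝ) ^ (40 * (n + 1) ^ 2) := by
    intro n
    apply hup n
    · have : n + 1 ≤ (n + 1) ^ 2 := Nat.le_self_pow (by norm_num) _
      omega
    · intro j hj
      rw [hVe]
      have : (j + 2) ^ 2 ≤ (n + 1) ^ 2 := Nat.pow_le_pow_left (by omega) 2
      simp only
      omega
  refine ⟨ξ, ?_, ?_, ?_, ?_⟩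
  · rintro ⟨P, hP, h0⟩
    obtain ⟨c, hc, hcc⟩ := hupE P.natDegree
    have := hcc P hP le_rfl
    rw [h0, abs_zero, zero_mul] at this
    linarith
  · intro n hn
    obtain ⟨c, hc, hcc⟩ := hupE n
    refine ⟨((40 * (n + 1) ^ 2 : ℕ) : ℝ) + 1, ?_⟩
    by_contra hinf
    have h1 : ((40 * (n + 1) ^ 2 : ℕ) : ℝ) + 1 ∈ Pool.Agent.Helper35.WSet ξ n := by
      unfold Pool.Agent.Helper35.WSet
      refine Set.Infinite.mono ?_ hinf
      rintro P ⟨h1, h2, h3⟩
      refine ⟨?_, h1, h2, h3⟩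
      rintro rfl
      simp at h2
    have h2 := Pool.Agent.Helper35.WSet_le ξ n _ c hc hcc _ h1
    linarith
  · intro M
    obtain ⟨j, hj⟩ := exists_nat_ge |M|
    refine ⟨j + 1, by omega, (V j : ℝ) - 2, ?_, ?_⟩
    · have h1 : M ≤ j := (le_abs_self M).trans hj
      have hj0 : (0 : ℝ) ≤ j := Nat.cast_nonneg j
      rw [hVe]
      push_cast
      nlinarith
    · have h1 := hlow j ((V j : ℝ) - 2) (by linarith)
      unfold Pool.Agent.Helper35.WSet at h1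
      refine Set.Infinite.mono ?_ h1
      rintro P ⟨_, h2, h3, h4⟩
      exact ⟨h2, h3, h4⟩
  · intro b hb k _ d
    have h1 := Pool.Agent.H493R3.block_freq b hb ξ (fun h hh => hweyl b h hb hh) k d
    convert h1 using 6

end Pool.Agent.S15893
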