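import Pool.Statements.S15993
import Pool.Agent.H680R3.EX.Final

set_option autoImplicit false
open Pool Pool.MP_0c2c5b_nt

namespace Pool.Agent.S15993

/-- For all n≥2, τ>1, 0<c1<c2 there is a real ξ within c2·H(α)^(-(n+1)τ) of infinitely many real algebraic α of degree exactly n, but within c1·H(α)^(-(n+1)τ) of only finitely many such α (H = naive height). -/
theorem result :
    ∀ n : ℕ, 2 ≤ n → ∀ τ c₁ c₂ : ℝ, 1 < τ → 0 < c₁ → c₁ < c₂ →
      ∃ ξ : ℝ,
        {α : ℝ | (minpoly ℚ α).natDegree = n ∧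
          ∃ P : Polynomial ℤ, P.IsPrimitive ∧ P.natDegree = n ∧
            Polynomial.aeval α P = 0 ∧
            |ξ - α| < c₂ * (((P.support.sup (fun i => (P.coeff i).natAbs) : ℕ) : ℝ)) ^
              (-(((n : ℝ) + 1) * τ))}.Infinite ∧
        {α : ℝ | (minpoly ℚ α).natDegree = n ∧
          ∃ P : Polynomial ℤ, P.IsPrimitive ∧ P.natDegree = n ∧
            Polynomial.aeval α P = 0 ∧
            |ξ - α| < c₁ * (((P.support.sup (fun i => (P.coeff i).natAbs) : ℕ) : ℝ)) ^
              (-(((n : ℝ) + 1) * τ))}.Finite := by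
  exact Pool.Agent.H680R3.EX.main'

end Pool.Agent.S15993
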