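-- Proof of frozen statement S16050 (the negation): n = 211 admits no such colouring.
import Pool.Statements.S16050
import Pool.Agent.H742R3.KMMain

set_option autoImplicit false
open Pool Pool.MP_0f64a9_nt

namespace Pool.Agent.S16050

/-- The negation of the preceding statement: For every positive integer n there is a coloring of the positive integers with n colors such that for every positive a, the numbers a, 2a, ..., na have pairwise distinct colors. -/
theorem result :
    ¬ (∀ n : ℕ, 0 < n →
      ∃ c : ℕ → Fin n, ∀ a : ℕ, 0 < a →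
        Set.InjOn (fun i : ℕ => c (i * a)) (Set.Icc 1 n)) := by
  intro h
  obtain ⟨c, hc⟩ := h 211 (by norm_num)
  apply Pool.Agent.H742R3.KMAlg.no_col (fun m => c (m : ℕ))
  intro a i hi j hj hij
  have h1 := hc (a : ℕ) a.pos
  have hi2 : i + 1 ∈ Set.Icc 1 211 := ⟨by omega, by omega⟩
  have hj2 : j + 1 ∈ Set.Icc 1 211 := ⟨by omega, by omega⟩
  have h2 : c ((i + 1) * (a : ℕ)) = c ((j + 1) * (a : ℕ)) := hij
  have := h1 hi2 hj2 h2
  omega

end Pool.Agent.S16050
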