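import Pool.Statements.S16181
import Pool.Agent.H411R3.Liou
import Pool.Agent.H411R3.Legen

set_option autoImplicit false
open Pool Pool.MP_192724_nt

namespace Pool.Agent.S16181

open Pool.Agent.H411R3.Liou Pool.Agent.H411R3.Legen

/-- the case where -d is not a perfect square -/
lemma nonsq_case {d N : ℤ} (hd : d ≠ 0) (hns : ∀ t : ℤ, t ^ 2 ≠ -d)
    (h : ∀ n : ℤ, N ≤ n → 0 < n ^ 2 + d → lam (n ^ 2 + d) = 1) : False := by
  obtain ⟨p, hp, hmod, hsq⟩ := exists_prime hd
  obtain ⟨X, Y, w, hw, hXY⟩ := exists_rep hd hns hp hmod hsq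
  have hpz : (0 : ℤ) < p := by exact_mod_cast hp.pos
  have hpos : 0 < X ^ 2 + d * Y ^ 2 := by rw [hXY]; positivity
  have h1 := all_values (all_of_eventually h) X Y hpos
  rw [hXY, lam_mul (ne_of_gt hpz) (pow_ne_zero 2 hw), lam_sq hw, lam_prime hp] at h1
  norm_num at h1

/-- the case d = -k^2 -/
lemma sq_case {k N : ℤ} (hk : 0 < k)
    (h : ∀ n : ℤ, N ≤ n → 0 < n ^ 2 + -(k ^ 2) → lam (n ^ 2 + -(k ^ 2)) = 1) : False := by
  have h1 : ∀ m : ℤ, 1 ≤ m → N ≤ m → lam m = lam (m + 2 * k) := by
    intro m hm1 hmN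
    have hid : (m + k) ^ 2 + -(k ^ 2) = m * (m + 2 * k) := by ring
    have hpos : 0 < (m + k) ^ 2 + -(k ^ 2) := by rw [hid]; positivity
    have h2 := h (m + k) (by linarith) hpos
    rw [hid, lam_mul (by omega) (by omega)] at h2
    rcases lam_eq_or m with e | e <;> rcases lam_eq_or (m + 2 * k) with e' | e' <;>
      rw [e, e'] at h2 <;> rw [e, e'] <;> norm_num at h2
  set T : ℤ := max 1 N with hT
  have hT1 : 1 ≤ T := le_max_left _ _
  have hTN : N ≤ T := le_max_right _ _
  have h2 : ∀ t : ℤ, T ≤ t → lam t = lam (t + 1) := by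
    intro t ht
    have hkt : t ≤ 2 * k * t := by nlinarith
    have h3 := h1 (2 * k * t) (by linarith) (by linarith)
    have e : 2 * k * t + 2 * k = 2 * k * (t + 1) := by ring
    have hk0 : 2 * k ≠ 0 := by omega
    have e1 : lam (2 * k * t) = lam (2 * k) * lam t := lam_mul hk0 (by omega)
    have e2 : lam (2 * k * (t + 1)) = lam (2 * k) * lam (t + 1) := lam_mul hk0 (by omega)
    rw [e, e1, e2] at h3
    rcases lam_eq_or (2 * k) with e | e
    · rw [e] at h3; linarith
    · rw [e] at h3; linarith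
  have h3 : ∀ m : ℕ, lam (T + m) = lam T := by
    intro m
    induction m with
    | zero => simp
    | succ m ih =>
      rw [← ih, h2 (T + m) (by omega)]
      push_cast
      ring_nf
  have h4 : lam (2 * T) = lam T := by
    have := h3 T.toNat
    rw [Int.toNat_of_nonneg (by omega)] at this
    rw [← this]; ring_nf
  have h5 : lam (2 : ℤ) = -1 := by
    have := lam_prime Nat.prime_two
    simpa using this
  rw [lam_mul (by norm_num) (by omega), h5] at h4
  rcases lam_eq_or T with e | e <;> rw [e] at h4 <;> norm_num at h4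

/-- For every nonzero integer d, there are infinitely many n ≥ 1 such that n²+d is positive and has an odd number of prime factors counted with multiplicity, i.e. the Liouville function of n²+d equals −1. -/
theorem result :
    ∀ d : ℤ, d ≠ 0 →
      Set.Infinite {n : ℕ | 1 ≤ n ∧ 0 < (n : ℤ) ^ 2 + d ∧
        (-1 : ℤ) ^ (ArithmeticFunction.cardFactors (((n : ℤ) ^ 2 + d).toNat)) = -1} := by
  intro d hd
  by_contra hfin
  rw [Set.not_infinite] at hfin
  obtain ⟨B, hB⟩ := hfin.bddAbove
  have h : ∀ n : ℤ, (B : ℤ) + 1 ≤ n → 0 < n ^ 2 + d → lam (n ^ 2 + d) = 1 := by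
    intro n hn hpos
    rcases lam_eq_or (n ^ 2 + d) with e | e
    · exact e
    · exfalso
      have hn0 : 0 ≤ n := by omega
      have hmem : n.toNat ∈ {n : ℕ | 1 ≤ n ∧ 0 < (n : ℤ) ^ 2 + d ∧
          (-1 : ℤ) ^ (ArithmeticFunction.cardFactors (((n : ℤ) ^ 2 + d).toNat)) = -1} := by
        refine ⟨by omega, ?_, ?_⟩
        · rw [Int.toNat_of_nonneg hn0]; exact hpos
        · rw [Int.toNat_of_nonneg hn0]
          have : (n ^ 2 + d).toNat = (n ^ 2 + d).natAbs := by omega
          rw [this]
          exact e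
      have := hB hmem
      omega
  by_cases hns : ∀ t : ℤ, t ^ 2 ≠ -d
  · exact nonsq_case hd hns h
  · push Not at hns
    obtain ⟨t, ht⟩ := hns
    have htd : d = -(|t| ^ 2) := by rw [sq_abs]; linarith
    have ht0 : 0 < |t| := by
      rw [abs_pos]
      intro h0
      rw [h0] at ht
      apply hd
      linarith
    rw [htd] at h
    exact sq_case ht0 h

end Pool.Agent.S16181
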