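import Pool.Statements.S16186
import Pool.Agent.H58W.Fin2

set_option autoImplicit false
open Pool Pool.MP_19fd7d_nt

namespace Pool.Agent.S16186

open Pool.Agent.H58W Pool.Agent.Helper259.AbsHt in
theorem result :
    ¬ (∀ h : AlgebraicClosure ℚ → ℝ,
      (∀ β : AlgebraicClosure ℚ, h β =
        Real.log (((sInf {n : ℕ | 0 < n ∧ ∀ i : ℕ, ((n : ℚ) * (minpoly ℚ β).coeff i).den = 1} : ℕ) : ℝ) *
          (Polynomial.map (algebraMap ℚ ℂ) (minpoly ℚ β)).mahlerMeasure) /
          ((minpoly ℚ β).natDegree : ℝ)) →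
    ∀ Φ : RatFunc (AlgebraicClosure ℚ) → AlgebraicClosure ℚ × AlgebraicClosure ℚ →
        AlgebraicClosure ℚ × AlgebraicClosure ℚ,
      (∀ (f : RatFunc (AlgebraicClosure ℚ)) (z : AlgebraicClosure ℚ × AlgebraicClosure ℚ),
        Φ f z =
          (∑ i ∈ Finset.range (max f.num.natDegree f.denom.natDegree + 1),
              f.num.coeff i * z.1 ^ i * z.2 ^ (max f.num.natDegree f.denom.natDegree - i),
           ∑ i ∈ Finset.range (max f.num.natDegree f.denom.natDegree + 1),
              f.denom.coeff i * z.1 ^ i * z.2 ^ (max f.num.natDegree f.denom.natDegree - i))) →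
    ∀ (K : IntermediateField ℚ (AlgebraicClosure ℚ)) [NumberField K]
      (F : IntermediateField K (AlgebraicClosure ℚ)),
      IsGalois K F →
      (∀ f : RatFunc (AlgebraicClosure ℚ),
        2 ≤ max f.num.natDegree f.denom.natDegree →
        ∃ c : ℝ, 0 < c ∧
          Set.Finite {α : AlgebraicClosure ℚ | α ∈ F ∧ ∃ L : ℝ,
            Filter.Tendsto
              (fun n : ℕ => h (((Φ f)^[n] (α, 1)).1 / ((Φ f)^[n] (α, 1)).2) /
                ((max f.num.natDegree f.denom.natDegree : ℕ) : ℝ) ^ n)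
              Filter.atTop (nhds L) ∧ L < c}) →
      Set.Infinite {v : IsDedekindDomain.HeightOneSpectrum (NumberField.RingOfIntegers K) |
        ∀ ι : AlgebraicClosure ℚ →ₐ[K] AlgebraicClosure (v.adicCompletion K),
          FiniteDimensional (v.adicCompletion K)
            (IntermediateField.adjoin (v.adicCompletion K)
              (ι '' (F : Set (AlgebraicClosure ℚ))))}) := by
  intro H
  obtain ⟨F₀, hstab, husb, hloc⟩ := exists_field
  have hNF : NumberField (⊥ : IntermediateField ℚ (AlgebraicClosure ℚ)) :=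
    { to_charZero := inferInstance
      to_finiteDimensional := inferInstance }
  let F : IntermediateField (⊥ : IntermediateField ℚ (AlgebraicClosure ℚ)) (AlgebraicClosure ℚ) :=
    IntermediateField.extendScalars (bot_le : ⊥ ≤ F₀)
  have hFmem : ∀ x, x ∈ F ↔ x ∈ F₀ := fun x => Iff.rfl
  have hGal : IsGalois (⊥ : IntermediateField ℚ (AlgebraicClosure ℚ)) F :=
    gal_of_stable F₀ hstab
  have hH := H hM (fun β => rfl) (fun f z => lift f.num f.denom
    (max f.num.natDegree f.denom.natDegree) z) (fun f z => rfl) ⊥ F hGal ?_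
  · exact hH (finite_places F₀ hloc)
  · intro f hf
    refine ⟨1, one_pos, ?_⟩
    obtain ⟨m, hm⟩ := small_limit_bound f.num f.denom _ rfl hf (RatFunc.isCoprime_num_denom f)
    refine (husb m).subset ?_
    rintro α ⟨hα, L, hL, hL1⟩
    exact ⟨hα, fun D hD => hm D α hD L hL1 hL⟩

end Pool.Agent.S16186
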