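import Pool.Statements.S16229
import Pool.Agent.H180R3.LunarLimit

set_option autoImplicit false
open Pool Pool.MP_1d41ea_nt

namespace Pool.Agent.S16229

/-- For every base b ≥ 2, the number of k-digit base-b lunar primes (n ≠ b−1 whose only lunar factorizations involve the identity b−1) is asymptotic to (b−1)^2·b^(k−2) as k → ∞. -/
theorem result :
    ∀ b : ℕ, 2 ≤ b →
      Asymptotics.IsEquivalent Filter.atTop
        (fun k : ℕ =>
          (({n : ℕ | b ^ (k - 1) ≤ n ∧ n < b ^ k ∧ n ≠ b - 1 ∧
              ∀ a c : ℕ,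
                (∀ m : ℕ, n / b ^ m % b =
                  (Finset.range (m + 1)).sup
                    (fun i => min (a / b ^ i % b) (c / b ^ (m - i) % b))) →
                a = b - 1 ∨ c = b - 1} : Set ℕ).ncard : ℝ))
        (fun k : ℕ => ((b : ℝ) - 1) ^ 2 * (b : ℝ) ^ ((k : ℤ) - 2)) := by
  intro b hb
  exact Pool.Agent.H180R3.Lunar.main b hb

end Pool.Agent.S16229
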