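import Pool.Statements.S16380
import Pool.Agent.H431R3.CohnMain

set_option autoImplicit false
open Pool Pool.MP_2a7493_nt

namespace Pool.Agent.S16380

/-- The negation of the preceding statement: For every odd prime p and every f on ZMod p with f(0)=0, f(1)=1, ∣f(a)∣=1 for a≠0, and autocorrelation −1 at each nonzero shift (and p−1 at shift 0), f equals some multiplicative character of ZMod p. -/
theorem result :
    ¬ (∀ p : ℕ, p.Prime → p ≠ 2 →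
      ∀ f : ZMod p → ℂ,
        f 0 = 0 → f 1 = 1 →
        (∀ a : ZMod p, a ≠ 0 → ‖f a‖ = 1) →
        (∀ h : ZMod p, h ≠ 0 →
          ∑ a ∈ Finset.range p, f (a : ZMod p) * starRingEnd ℂ (f ((a : ZMod p) + h)) = -1) →
        (∑ a ∈ Finset.range p, f (a : ZMod p) * starRingEnd ℂ (f (a : ZMod p)) = (p : ℂ) - 1) →
        ∃ χ : MulChar (ZMod p) ℂ, ∀ a : ZMod p, f a = χ a) := by
  intro H
  obtain ⟨d1, d2, h11, h22, e0, e1, hn⟩ := Pool.Agent.H431R3.Cohn.exists_d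
  have hd1 : ‖d1‖ = 1 := by
    have h := congrArg (fun x : ℂ => ‖x‖) h11
    simp only [norm_mul, RCLike.norm_conj, norm_one] at h
    nlinarith [norm_nonneg d1]
  have hd2 : ‖d2‖ = 1 := by
    have h := congrArg (fun x : ℂ => ‖x‖) h22
    simp only [norm_mul, RCLike.norm_conj, norm_one] at h
    nlinarith [norm_nonneg d2]
  obtain ⟨χ, hχ⟩ := H 13 (by norm_num) (by norm_num) (Pool.Agent.H431R3.Cohn.f d1 d2)
    (Pool.Agent.H431R3.Cohn.f0 d1 d2) (Pool.Agent.H431R3.Cohn.f1 d1 d2)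
    (by
      intro a ha
      have hcases : a = 0 ∨ a = 1 ∨ a = 2 ∨ a = 3 ∨ a = 4 ∨ a = 5 ∨ a = 6 ∨ a = 7 ∨ a = 8 ∨ a = 9 ∨
          a = 10 ∨ a = 11 ∨ a = 12 := by
        revert a; decide
      rcases hcases with h | h | h | h | h | h | h | h | h | h | h | h | h
      · exact absurd h ha
      · rw [h, Pool.Agent.H431R3.Cohn.f1]; simp
      · rw [h, Pool.Agent.H431R3.Cohn.f2]; simp [hd1, hd2]
      · rw [h, Pool.Agent.H431R3.Cohn.f3]; simp [hd1, hd2]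
      · rw [h, Pool.Agent.H431R3.Cohn.f4]; simp [hd1, hd2]
      · rw [h, Pool.Agent.H431R3.Cohn.f5]; simp [hd1, hd2]
      · rw [h, Pool.Agent.H431R3.Cohn.f6]; simp [hd1, hd2]
      · rw [h, Pool.Agent.H431R3.Cohn.f7]; simp [hd1, hd2]
      · rw [h, Pool.Agent.H431R3.Cohn.f8]; simp [hd1, hd2]
      · rw [h, Pool.Agent.H431R3.Cohn.f9]; simp [hd1, hd2]
      · rw [h, Pool.Agent.H431R3.Cohn.f10]; simp [hd1, hd2]
      · rw [h, Pool.Agent.H431R3.Cohn.f11]; simp [hd1, hd2]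
      · rw [h, Pool.Agent.H431R3.Cohn.f12]; simp [hd1, hd2])
    (by
      intro a ha
      have hcases : a = 0 ∨ a = 1 ∨ a = 2 ∨ a = 3 ∨ a = 4 ∨ a = 5 ∨ a = 6 ∨ a = 7 ∨ a = 8 ∨ a = 9 ∨
          a = 10 ∨ a = 11 ∨ a = 12 := by
        revert a; decide
      rcases hcases with h | h | h | h | h | h | h | h | h | h | h | h | h
      · exact absurd h ha
      · rw [h]; exact Pool.Agent.H431R3.Cohn.C1 d1 d2 h11 h22 e0 e1
      · rw [h]; exact Pool.Agent.H431R3.Cohn.C2 d1 d2 h11 h22 e0 e1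
      · rw [h]; exact Pool.Agent.H431R3.Cohn.C3 d1 d2 h11 h22 e0 e1
      · rw [h]; exact Pool.Agent.H431R3.Cohn.C4 d1 d2 h11 h22 e0 e1
      · rw [h]; exact Pool.Agent.H431R3.Cohn.C5 d1 d2 h11 h22 e0 e1
      · rw [h]; exact Pool.Agent.H431R3.Cohn.C6 d1 d2 h11 h22 e0 e1
      · rw [h]; exact Pool.Agent.H431R3.Cohn.C7 d1 d2 h11 h22 e0 e1
      · rw [h]; exact Pool.Agent.H431R3.Cohn.C8 d1 d2 h11 h22 e0 e1
      · rw [h]; exact Pool.Agent.H431R3.Cohn.C9 d1 d2 h11 h22 e0 e1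
      · rw [h]; exact Pool.Agent.H431R3.Cohn.C10 d1 d2 h11 h22 e0 e1
      · rw [h]; exact Pool.Agent.H431R3.Cohn.C11 d1 d2 h11 h22 e0 e1
      · rw [h]; exact Pool.Agent.H431R3.Cohn.C12 d1 d2 h11 h22 e0 e1)
    (by exact_mod_cast Pool.Agent.H431R3.Cohn.C0 d1 d2 h11 h22)
  apply hn
  have hI : Complex.I ^ 2 = -1 := Complex.I_sq
  have m24 : χ 2 * χ 4 = χ 8 := by rw [← map_mul]; rfl
  have m22 : χ 2 * χ 2 = χ 4 := by rw [← map_mul]; rfl
  have m44 : χ 4 * χ 4 = χ 3 := by rw [← map_mul]; rfl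
  rw [← hχ, ← hχ, ← hχ, Pool.Agent.H431R3.Cohn.f2, Pool.Agent.H431R3.Cohn.f4,
    Pool.Agent.H431R3.Cohn.f8] at m24
  rw [← hχ, ← hχ, Pool.Agent.H431R3.Cohn.f2, Pool.Agent.H431R3.Cohn.f4] at m22
  rw [← hχ, ← hχ, Pool.Agent.H431R3.Cohn.f3, Pool.Agent.H431R3.Cohn.f4] at m44
  refine ⟨?_, ?_, ?_⟩
  · linear_combination Complex.I * m24 + (d1 * d2 + (-1)) * hI
  · linear_combination (-1) * m22 + d1 ^ 2 * hI
  · linear_combination m44

end Pool.Agent.S16380
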