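import Pool.Statements.S16523
import Pool.Agent.H963R5.Main

set_option autoImplicit false
open Pool Pool.MP_33a4a7_nt

namespace Pool.Agent.S16523

open MeasureTheory Filter Metric Pool.Agent.H963R5

theorem trunc_not_summable (ψ : ℕ → ℝ) (hψ : ∀ q, 0 ≤ ψ q)
    (hs : ¬ Summable (fun q : ℕ => ψ q ^ 2)) :
    ¬ Summable (fun q : ℕ => (min (ψ q) (1 / 16)) ^ 2) := by
  intro h
  apply hs
  have h0 := h.tendsto_atTop_zero
  have h1 : ∀ᶠ q : ℕ in atTop, (min (ψ q) (1 / 16)) ^ 2 < (1 / 16 : ℝ) ^ 2 :=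
    h0.eventually (gt_mem_nhds (by norm_num))
  apply Summable.of_norm_bounded_eventually_nat h
  filter_upwards [h1] with q hq
  have h2 : min (ψ q) (1 / 16) < 1 / 16 := lt_of_pow_lt_pow_left₀ 2 (by norm_num) hq
  have h3 : ψ q < 1 / 16 := by
    by_contra hcon
    push Not at hcon
    rw [min_eq_right hcon] at h2
    exact lt_irrefl _ h2
  rw [min_eq_left h3.le, Real.norm_eq_abs, abs_of_nonneg (sq_nonneg _)]

theorem exists_family (φ : ℕ → ℝ) (hφ : ∀ q, 0 ≤ φ q)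
    (hs : ¬ Summable (fun q : ℕ => φ q ^ 2)) (V : ℝ) (Q : ℕ) :
    ∃ F : Finset ℕ, (∀ q ∈ F, Q ≤ q ∧ 0 < φ q) ∧ V ≤ ∑ q ∈ F, φ q ^ 2 := by
  classical
  have ht := (not_summable_iff_tendsto_nat_atTop_of_nonneg (fun q => sq_nonneg (φ q))).mp hs
  obtain ⟨N, hNQ, hN⟩ := ((ht.eventually_ge_atTop (V + ∑ q ∈ Finset.range Q, φ q ^ 2)).and
    (eventually_ge_atTop Q)).exists.imp (fun N h => (⟨h.2, h.1⟩ : Q ≤ N ∧ _))
  refine ⟨(Finset.Ico Q N).filter (fun q => 0 < φ q), ?_, ?_⟩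
  · intro q hq
    rw [Finset.mem_filter, Finset.mem_Ico] at hq
    exact ⟨hq.1.1, hq.2⟩
  · have h1 : ∑ q ∈ (Finset.Ico Q N).filter (fun q => 0 < φ q), φ q ^ 2
        = ∑ q ∈ Finset.Ico Q N, φ q ^ 2 := by
      apply Finset.sum_filter_of_ne
      intro q _ hne
      rcases (hφ q).eq_or_lt with h | h
      · exfalso; apply hne; rw [← h]; norm_num
      · exact h
    rw [h1, Finset.sum_Ico_eq_sub _ hNQ]
    linarith

theorem full_tail (y : ℝ × ℝ) (φ : ℕ → ℝ) (hφ : ∀ q, 0 ≤ φ q) (hφ16 : ∀ q, φ q ≤ 1 / 16)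
    (hs : ¬ Summable (fun q : ℕ => φ q ^ 2)) (Q₀ : ℕ) :
    ∀ᵐ x ∂(volume : Measure (ℝ × ℝ)), x ∈ ⋃ q ∈ {q : ℕ | Q₀ ≤ q ∧ 0 < q}, Aq y φ q := by
  have hopen : IsOpen (⋃ q ∈ {q : ℕ | Q₀ ≤ q ∧ 0 < q}, Aq y φ q) :=
    isOpen_biUnion (fun q _ => Aq_open y φ q)
  apply full_of_density _ hopen.measurableSet (1 / 80000) (by norm_num) 1 one_pos
  intro x ρ hρ hρ1
  obtain ⟨F, hF, hV⟩ := exists_family φ hφ hs
    ((2304 + 2048 * (2 * (⌊1 / ρ⌋₊ : ℝ) + 1)) / ρ ^ 2) (max (max Q₀ 1) ⌈(48 / ρ) ^ 2⌉₊)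
  have key := family_bound y (x.1 - ρ / 2, x.2 - ρ / 2) ρ hρ hρ1 φ F
    (fun q hq => ⟨(hF q hq).2, hφ16 q⟩)
    (by
      intro q hq
      have h1 := (hF q hq).1
      have h2 : 1 ≤ q := le_trans (le_trans (le_max_right Q₀ 1) (le_max_left _ _)) h1
      have h3 : ⌈(48 / ρ) ^ 2⌉₊ ≤ q := le_trans (le_max_right _ _) h1
      have h4 : (48 / ρ) ^ 2 ≤ (q : ℝ) := le_trans (Nat.le_ceil _) (by exact_mod_cast h3)
      have h5 : 48 / ρ ≤ Real.sqrt q := Real.le_sqrt_of_sq_le h4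
      refine ⟨h2, ?_⟩
      rwa [div_le_iff₀ hρ] at h5)
    hV _ hopen.measurableSet
    (by
      intro q hq
      have h1 := (hF q hq).1
      have h2 : 1 ≤ q := le_trans (le_trans (le_max_right Q₀ 1) (le_max_left _ _)) h1
      have h3 : Q₀ ≤ q := le_trans (le_trans (le_max_left Q₀ 1) (le_max_left _ _)) h1
      exact Set.subset_biUnion_of_mem (u := fun q => Aq y φ q)
        (show q ∈ {q : ℕ | Q₀ ≤ q ∧ 0 < q} from ⟨h3, h2⟩))
  have e : ((x.1 - ρ / 2, x.2 - ρ / 2) : ℝ × ℝ).1 + ρ / 2 = x.1 := by simp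
  have e' : ((x.1 - ρ / 2, x.2 - ρ / 2) : ℝ × ℝ).2 + ρ / 2 = x.2 := by simp
  rw [e, e'] at key
  rw [volume_real_closedBall x ρ hρ.le]
  refine le_trans (le_of_eq ?_) key
  ring

/-- For every y in R^2 and every nonnegative psi on N with sum of psi(q)^2 infinite, almost every x in [0,1]^2 has infinitely many q ≥ 1 with some integer vector a making the sup-norm of qx − a − y less than psi(q). -/
theorem result :
    ∀ (y : ℝ × ℝ) (ψ : ℕ → ℝ), (∀ q, 0 ≤ ψ q) →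
      ¬ Summable (fun q : ℕ => ψ q ^ 2) →
      ∀ᵐ x ∂(MeasureTheory.volume.restrict (Set.Icc (0 : ℝ × ℝ) 1)),
        {q : ℕ | 0 < q ∧ ∃ a : ℤ × ℤ,
          ‖(q : ℝ) • x - ((a.1 : ℝ), (a.2 : ℝ)) - y‖ < ψ q}.Infinite := by
  intro y ψ hψ hs
  apply ae_restrict_of_ae
  have h1 : ∀ Q₀ : ℕ, ∀ᵐ x ∂(volume : Measure (ℝ × ℝ)),
      x ∈ ⋃ q ∈ {q : ℕ | Q₀ ≤ q ∧ 0 < q}, Aq y (fun q => min (ψ q) (1 / 16)) q := fun Q₀ =>
    full_tail y (fun q => min (ψ q) (1 / 16)) (fun q => le_min (hψ q) (by norm_num))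
      (fun q => min_le_right _ _) (trunc_not_summable ψ hψ hs) Q₀
  filter_upwards [ae_all_iff.mpr h1] with x hx
  apply Set.infinite_of_forall_exists_gt
  intro Q
  have h2 := hx (Q + 1)
  simp only [Set.mem_iUnion, exists_prop, Set.mem_setOf_eq] at h2
  obtain ⟨q, ⟨hq1, hq2⟩, a, ha⟩ := h2
  exact ⟨q, ⟨hq2, a, lt_of_lt_of_le ha (min_le_left _ _)⟩, by omega⟩

end Pool.Agent.S16523
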