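import Pool.Statements.S16546
import Pool.Agent.H221R3.PsiNum

set_option autoImplicit false
open Pool Pool.MP_3519bc_nt

namespace Pool.Agent.S16546

open Pool.Agent.H221R3 in
/-- The negation of the preceding statement: There is k>0 and constants C, M such that for all real x with ∣x∣≥M, the limit of partial sums of 2/√n·cos(π((3n−1)/4 − x/n)) over n≥1 has absolute value at most C·(log∣x∣)^k. -/
theorem result :
    ¬ (∃ k : ℝ, 0 < k ∧ ∃ C M : ℝ, ∀ x : ℝ, M ≤ |x| → ∀ S : ℝ,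
      Filter.Tendsto
        (fun N : ℕ => ∑ n ∈ Finset.Icc 1 N,
          2 / Real.sqrt (n : ℝ) *
            Real.cos (Real.pi * ((3 * (n : ℝ) - 1) / 4 - x / (n : ℝ))))
        Filter.atTop (nhds S) →
      |S| ≤ C * (Real.log |x|) ^ k) := by
  rintro ⟨k, hk, C, M, H⟩
  obtain ⟨K, hK⟩ := exists_nat_ge k
  -- 2^z ≤ TT (QQ (z^4)) ≤ 2 |C| (12 z^4)^K + 300 eventually
  have hev : ∀ᶠ z : ℕ in Filter.atTop, (2 : ℝ) ^ z ≤ 2 * (|C| * (12 * (z : ℝ) ^ 4) ^ K) + 300 := by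
    obtain ⟨m, hm⟩ := exists_nat_ge M
    filter_upwards [eventually_card, Filter.eventually_ge_atTop (max 2 m)] with z hz hz2
    have hz1 : 2 ≤ z := (le_max_left _ _).trans hz2
    have hzm : m ≤ z := (le_max_right _ _).trans hz2
    have hzr : (2 : ℝ) ≤ z := by exact_mod_cast hz1
    have hT := two_pow_le_TT z (by omega) hz
    have hQz : z ≤ QQ (z ^ 4) := by
      calc z ≤ 2 ^ z := Nat.lt_two_pow_self.le
        _ ≤ 2 ^ (z ^ 3) := Nat.pow_le_pow_right (by norm_num) (by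
            calc z = z ^ 1 := (pow_one z).symm
              _ ≤ z ^ 3 := Nat.pow_le_pow_right (by omega) (by norm_num))
        _ ≤ 2 ^ (oddP (z ^ 4)).card := Nat.pow_le_pow_right (by norm_num) hz
        _ ≤ QQ (z ^ 4) := two_pow_card_le _
    have hQr : (z : ℝ) ≤ (QQ (z ^ 4) : ℝ) := by exact_mod_cast hQz
    have hQ4 : ((QQ (z ^ 4) : ℕ) : ℝ) ≤ 4 ^ (z ^ 4) := by exact_mod_cast QQ_le (z ^ 4)
    refine hT.trans ?_
    refine TT_le (QQ (z ^ 4)) (QQ_odd _) (by omega) (|C| * (12 * (z : ℝ) ^ 4) ^ K) ?_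
    intro x hx1 hx2 S hS
    have hx0 : (32 : ℝ) ≤ x := by linarith
    have hxa : |x| = x := abs_of_pos (by linarith)
    have hxM : M ≤ |x| := by
      rw [hxa]
      have : (m : ℝ) ≤ z := by exact_mod_cast hzm
      linarith
    have h1 := H x hxM S hS
    rw [hxa] at h1
    have hlog0 : 0 ≤ Real.log x := Real.log_nonneg (by linarith)
    have hlog : Real.log x ≤ 12 * (z : ℝ) ^ 4 := by
      have h2 : x ≤ 4 ^ (2 + 6 * z ^ 4) := by
        calc x ≤ 16 * (QQ (z ^ 4) : ℝ) ^ 6 := hx2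
          _ ≤ 16 * ((4 : ℝ) ^ (z ^ 4)) ^ 6 := by
              apply mul_le_mul_of_nonneg_left _ (by norm_num)
              exact pow_le_pow_left₀ (Nat.cast_nonneg _) hQ4 6
          _ = 4 ^ (2 + 6 * z ^ 4) := by
              rw [← pow_mul, pow_add]; norm_num; ring
      have h3 : Real.log x ≤ ((2 + 6 * z ^ 4 : ℕ) : ℝ) * Real.log 4 := by
        rw [← Real.log_pow]
        exact Real.log_le_log (by linarith) h2
      have h4 : Real.log 4 ≤ 1.4 := by
        have : (4 : ℝ) = 2 ^ 2 := by norm_num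
        rw [this, Real.log_pow]
        have := Real.log_two_lt_d9
        push_cast
        linarith
      have h5 : (16 : ℝ) ≤ (z : ℝ) ^ 4 := by
        calc (16 : ℝ) = 2 ^ 4 := by norm_num
          _ ≤ (z : ℝ) ^ 4 := pow_le_pow_left₀ (by norm_num) hzr 4
      have h6 : ((2 + 6 * z ^ 4 : ℕ) : ℝ) * Real.log 4 ≤ ((2 + 6 * z ^ 4 : ℕ) : ℝ) * 1.4 :=
        mul_le_mul_of_nonneg_left h4 (Nat.cast_nonneg _)
      push_cast at h3 h6
      linarith
    have hone : (1 : ℝ) ≤ 12 * (z : ℝ) ^ 4 := by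
      have : (1 : ℝ) ≤ (z : ℝ) ^ 4 := one_le_pow₀ (by linarith)
      linarith
    calc |S| ≤ C * Real.log x ^ k := h1
      _ ≤ |C| * Real.log x ^ k :=
          mul_le_mul_of_nonneg_right (le_abs_self C) (Real.rpow_nonneg hlog0 k)
      _ ≤ |C| * (12 * (z : ℝ) ^ 4) ^ k :=
          mul_le_mul_of_nonneg_left (Real.rpow_le_rpow hlog0 hlog hk.le) (abs_nonneg C)
      _ ≤ |C| * (12 * (z : ℝ) ^ 4) ^ (K : ℝ) :=
          mul_le_mul_of_nonneg_left (Real.rpow_le_rpow_of_exponent_le hone hK) (abs_nonneg C)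
      _ = |C| * (12 * (z : ℝ) ^ 4) ^ K := by rw [Real.rpow_natCast]
  -- but 2^z beats every polynomial
  set A : ℝ := 2 * (|C| * 12 ^ K) + 300 with hA
  have hA0 : 0 < A := by positivity
  have hlim := tendsto_pow_const_div_const_pow_of_one_lt (4 * K) (show (1 : ℝ) < 2 by norm_num)
  have hsmall : ∀ᶠ z : ℕ in Filter.atTop, (z : ℝ) ^ (4 * K) / 2 ^ z < 1 / A :=
    hlim.eventually_lt_const (by positivity)
  obtain ⟨z, hz1, hz2, hz3⟩ := (hev.and (hsmall.and (Filter.eventually_ge_atTop 1))).exists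
  have hz0 : (1 : ℝ) ≤ z := by exact_mod_cast hz3
  have h2 : (0 : ℝ) < 2 ^ z := by positivity
  rw [div_lt_div_iff₀ h2 hA0, one_mul] at hz2
  have h3 : (1 : ℝ) ≤ (z : ℝ) ^ (4 * K) := one_le_pow₀ hz0
  have h4 : (12 * (z : ℝ) ^ 4) ^ K = 12 ^ K * (z : ℝ) ^ (4 * K) := by
    rw [mul_pow, ← pow_mul]
  rw [h4] at hz1
  have h5 : (z : ℝ) ^ (4 * K) * A =
      2 * (|C| * (12 ^ K * (z : ℝ) ^ (4 * K))) + 300 * (z : ℝ) ^ (4 * K) := by
    rw [hA]; ring
  linarith

end Pool.Agent.S16546
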