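import Pool.Statements.S16580

set_option autoImplicit false
open Filter
open Pool Pool.MP_37fc1f_nt

namespace Pool.Agent.S16580

/-!
Counterexample.  Let `y = y(x)` be the real root of `y^3 - 15 y = 2 x` with `y(2) = 4`.  It satisfies
`(x^2 - 125) y'' + x y' - y / 9 = 0`, so its (rational) Taylor coefficients at `x = 2` satisfy a
second order recurrence whose characteristic roots are governed by the two conjugate singularities
`x = 5 √5` and `x = - 5 √5`.  The branch through `(2, 4)` is regular at the nearer singularity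
`5 √5` and singular at the farther one, so its coefficients form a rational minimal solution.
With `R k` below, `y^(k+1) = (-1)^k (2/3)^(k+1) R k (y) / (y^2 - 5)^(2 k + 1)`; all coefficients of
`R k` are nonnegative, so the Taylor coefficients alternate in sign.
-/

open Polynomial in
/-- Numerators of the derivatives of the branch. -/
noncomputable def R : ℕ → Polynomial ℚ
  | 0 => 1
  | (k + 1) => C (2 * (2 * (k : ℚ) + 1)) * X * R k - (X ^ 2 - C 5) * derivative (R k)

open Polynomial in
theorem R_succ (k : ℕ) :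
    R (k + 1) = C (2 * (2 * (k : ℚ) + 1)) * X * R k - (X ^ 2 - C 5) * derivative (R k) := rfl

open Polynomial in
theorem R_coeff (k : ℕ) :
    (∀ j, 0 ≤ (R k).coeff j) ∧ (∀ j, k < j → (R k).coeff j = 0) ∧ 0 < (R k).coeff k := by
  induction k with
  | zero =>
    refine ⟨fun j => ?_, fun j hj => ?_, ?_⟩
    · simp only [R, coeff_one]
      split_ifs <;> norm_num
    · simp only [R, coeff_one]
      rw [if_neg (by omega)]
    · simp [R]
  | succ k ih =>
    obtain ⟨h1, h2, h3⟩ := ih
    have e0 : (R (k + 1)).coeff 0 = 5 * (R k).coeff 1 := by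
      rw [R_succ, coeff_sub, mul_assoc, coeff_C_mul, coeff_X_mul_zero, sub_mul, coeff_sub,
        coeff_C_mul, coeff_derivative, mul_coeff_zero]
      simp
    have e1 : (R (k + 1)).coeff 1 =
        2 * (2 * (k : ℚ) + 1) * (R k).coeff 0 + 5 * (2 * (R k).coeff 2) := by
      rw [R_succ, coeff_sub, mul_assoc, coeff_C_mul, coeff_X_mul, sub_mul, coeff_sub,
        coeff_C_mul, coeff_derivative, show (X : Polynomial ℚ) ^ 2 * derivative (R k)
          = X * (X * derivative (R k)) by ring, show (1 : ℕ) = 0 + 1 from rfl, coeff_X_mul,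
        coeff_X_mul_zero]
      push_cast
      ring
    have e2 : ∀ j, (R (k + 1)).coeff (j + 2) =
        (2 * (2 * (k : ℚ) + 1) - ((j : ℚ) + 1)) * (R k).coeff (j + 1)
          + 5 * (((j : ℚ) + 3) * (R k).coeff (j + 3)) := by
      intro j
      rw [R_succ, coeff_sub, mul_assoc, coeff_C_mul, coeff_X_mul, sub_mul, coeff_sub,
        coeff_C_mul, coeff_derivative, coeff_X_pow_mul, coeff_derivative]
      push_cast
      ring
    refine ⟨fun j => ?_, fun j hj => ?_, ?_⟩
    · match j with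
      | 0 => rw [e0]; have := h1 1; positivity
      | 1 =>
        rw [e1]
        have a := h1 0
        have b := h1 2
        positivity
      | (j + 2) =>
        rw [e2]
        have b := h1 (j + 3)
        have a := h1 (j + 1)
        rcases le_or_gt (j + 1) k with hjk | hjk
        · have hc : ((j : ℚ) + 1) ≤ k := by exact_mod_cast hjk
          have hk : (0 : ℚ) ≤ k := Nat.cast_nonneg k
          have : 0 ≤ 2 * (2 * (k : ℚ) + 1) - ((j : ℚ) + 1) := by linarith
          positivity
        · rw [h2 (j + 1) hjk, mul_zero, zero_add]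
          have : (0 : ℚ) ≤ (j : ℚ) + 3 := by positivity
          positivity
    · match j with
      | 0 => omega
      | 1 => omega
      | (j + 2) =>
        rw [e2, h2 (j + 1) (by omega), h2 (j + 3) (by omega)]
        ring
    · match k, h1, h2, h3, e0, e1, e2 with
      | 0, h1, h2, h3, e0, e1, e2 =>
        rw [e1]
        have b := h1 2
        positivity
      | (k + 1), h1, h2, h3, e0, e1, e2 =>
        rw [e2 k]
        have b := h1 (k + 3)
        have : 0 < 2 * (2 * ((k + 1 : ℕ) : ℚ) + 1) - ((k : ℚ) + 1) := by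
          push_cast
          have : (0 : ℚ) ≤ k := Nat.cast_nonneg k
          linarith
        have h4 : 0 < (2 * (2 * ((k + 1 : ℕ) : ℚ) + 1) - ((k : ℚ) + 1)) * (R (k + 1)).coeff (k + 1) :=
          mul_pos this h3
        have h5 : 0 ≤ 5 * (((k : ℚ) + 3) * (R (k + 1)).coeff (k + 3)) := by positivity
        linarith

open Polynomial in
theorem R_eval_pos (k : ℕ) : 0 < (R k).eval 4 := by
  obtain ⟨h1, -, h3⟩ := R_coeff k
  rw [eval_eq_sum_range]
  apply Finset.sum_pos'
  · intro i _
    have := h1 i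
    positivity
  · refine ⟨k, ?_, ?_⟩
    · rw [Finset.mem_range]
      exact Nat.lt_succ_of_le (le_natDegree_of_ne_zero h3.ne')
    · positivity

open Polynomial in
theorem R_succ' (k : ℕ) :
    (X ^ 2 - 5) * derivative (R k) = 2 * (2 * (k : Polynomial ℚ) + 1) * X * R k - R (k + 1) := by
  rw [R_succ]
  simp only [map_mul, map_add, map_ofNat, map_one, map_natCast]
  ring

open Polynomial in
theorem R_rec (n : ℕ) :
    (X ^ 2 - 20) * R (n + 2) - 3 * (2 * ((n : Polynomial ℚ) + 1) + 1) * (X ^ 3 - 15 * X) * R (n + 1)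
      + (9 * ((n : Polynomial ℚ) + 1) ^ 2 - 1) * (X ^ 2 - 5) ^ 2 * R n = 0 := by
  induction n with
  | zero =>
    have h1 : R 1 = 2 * X := by
      rw [R_succ]
      simp only [R, map_mul, map_add, map_ofNat, map_one, Nat.cast_zero, derivative_one, map_zero]
      ring
    have h2 : R 2 = 10 * X ^ 2 + 10 := by
      rw [R_succ, h1]
      simp only [derivative_mul, derivative_ofNat, derivative_X, zero_mul, zero_add, mul_one]
      simp only [map_mul, map_add, map_ofNat, map_one, Nat.cast_one]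
      ring
    rw [h2, h1]
    simp only [R, Nat.cast_zero]
    ring
  | succ n ih =>
    have hd := congrArg derivative ih
    simp only [derivative_add, derivative_sub, derivative_mul, derivative_X,
      derivative_pow, derivative_zero, derivative_ofNat, derivative_natCast, derivative_one,
      zero_mul, zero_add, mul_zero, mul_one, sub_zero, add_zero, Nat.cast_ofNat,
      map_ofNat] at hd
    have r0 := R_succ' n
    have r1 := R_succ' (n + 1)
    have r2 := R_succ' (n + 2)
    simp only [Nat.cast_add, Nat.cast_one, Nat.cast_ofNat] at r0 r1 r2 ⊢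
    rw [show n + 1 + 2 = n + 2 + 1 from rfl, show n + 1 + 1 = n + 2 from rfl] at *
    linear_combination (-(X ^ 2 - 5)) * hd + 2 * (2 * ((n : Polynomial ℚ) + 1) + 1) * X * ih
      + (X ^ 2 - 20) * r2
      - 3 * (2 * ((n : Polynomial ℚ) + 1) + 1) * (X ^ 3 - 15 * X) * r1
      + (9 * ((n : Polynomial ℚ) + 1) ^ 2 - 1) * (X ^ 2 - 5) ^ 2 * r0

/-- The minimal rational solution. -/
noncomputable def V : ℕ → ℚ
  | 0 => 0
  | (n + 1) => (-2 / 33) ^ (n + 1) * (R n).eval 4 / ((n + 1).factorial : ℚ)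

theorem V_rec (n : ℕ) : V (n + 3) = (2 * (2 * ((n : ℚ) + 1) + 1)) / (11 * ((n : ℚ) + 3)) * V (n + 2)
    + (9 * ((n : ℚ) + 1) ^ 2 - 1) / (9 * ((n : ℚ) + 2) * ((n : ℚ) + 3)) * V (n + 1) := by
  have h := congrArg (Polynomial.eval (4 : ℚ)) (R_rec n)
  simp only [Polynomial.eval_add, Polynomial.eval_sub, Polynomial.eval_mul, Polynomial.eval_pow,
    Polynomial.eval_X, Polynomial.eval_natCast, Polynomial.eval_ofNat, Polynomial.eval_one,
    Polynomial.eval_zero] at h
  have h' : (R (n + 2)).eval 4 = -3 * (2 * ((n : ℚ) + 1) + 1) * (R (n + 1)).eval 4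
      + 121 / 4 * (9 * ((n : ℚ) + 1) ^ 2 - 1) * (R n).eval 4 := by linarith
  simp only [V, h', Nat.factorial_succ (n + 2), Nat.factorial_succ (n + 1)]
  have hf : ((n + 1).factorial : ℚ) ≠ 0 := by positivity
  push_cast
  have h1 : (n : ℚ) + 1 ≠ 0 := by positivity
  have h2 : (n : ℚ) + 2 ≠ 0 := by positivity
  have h3 : (n : ℚ) + 3 ≠ 0 := by positivity
  have h2' : (n : ℚ) + 1 + 1 ≠ 0 := by positivity
  have h3' : (n : ℚ) + 2 + 1 ≠ 0 := by positivity
  rw [show (n : ℚ) + 1 + 1 = n + 2 by ring, show (n : ℚ) + 2 + 1 = n + 3 by ring]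
  field_simp
  ring

theorem V_sign (n : ℕ) : 0 < - V (n + 2) / V (n + 1) := by
  have h1 := R_eval_pos n
  have h2 := R_eval_pos (n + 1)
  have e : - V (n + 2) / V (n + 1) = (2 / 33) * (R (n + 1)).eval 4 / ((R n).eval 4 * ((n : ℚ) + 2)) := by
    simp only [V, Nat.factorial_succ (n + 1)]
    have hf : ((n + 1).factorial : ℚ) ≠ 0 := by positivity
    have h3 : (n : ℚ) + 2 ≠ 0 := by positivity
    have h4 : ((-2 / 33 : ℚ)) ^ (n + 1) ≠ 0 := pow_ne_zero _ (by norm_num)
    push_cast
    rw [show (n : ℚ) + 1 + 1 = n + 2 by ring]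
    rw [pow_succ (-2 / 33 : ℚ) (n + 1)]
    field_simp
  rw [e]
  positivity

/-- The dominant rational solution. -/
noncomputable def W : ℕ → ℚ
  | 0 => 1
  | 1 => 1
  | 2 => 1
  | (n + 3) => (2 * (2 * ((n : ℚ) + 1) + 1)) / (11 * ((n : ℚ) + 3)) * W (n + 2)
    + (9 * ((n : ℚ) + 1) ^ 2 - 1) / (9 * ((n : ℚ) + 2) * ((n : ℚ) + 3)) * W (n + 1)

theorem W_pos (n : ℕ) : 0 < W (n + 1) ∧ 0 < W (n + 2) := by
  induction n with
  | zero => simp [W]
  | succ n ih =>
    refine ⟨ih.2, ?_⟩
    rw [show n + 1 + 2 = n + 3 from rfl, W]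
    have h1 := ih.1
    have h2 := ih.2
    have hn : (0 : ℚ) ≤ n := Nat.cast_nonneg n
    have h3 : (0 : ℚ) < 9 * ((n : ℚ) + 1) ^ 2 - 1 := by nlinarith
    positivity

/-- Forward contraction. -/
theorem fwd {g e : ℕ → ℝ} {κ G : ℝ} (hκ0 : 0 ≤ κ) (hκ1 : κ < 1) (hg0 : ∀ n, 0 ≤ g n)
    (hgG : ∀ n, g n ≤ G) (he : Tendsto e atTop (nhds 0))
    (h : ∀ᶠ n in atTop, g (n + 1) ≤ κ * g n + e n) : Tendsto g atTop (nhds 0) := by
  have hG : 0 ≤ G := (hg0 0).trans (hgG 0)
  rw [Metric.tendsto_atTop]
  intro ε hε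
  have h1 : ∀ᶠ n in atTop, e n ≤ (1 - κ) * (ε / 2) := by
    have : 0 < (1 - κ) * (ε / 2) := mul_pos (by linarith) (by linarith)
    exact (he.eventually (ge_mem_nhds this))
  obtain ⟨N, hN⟩ := eventually_atTop.1 (h.and h1)
  have key : ∀ k, g (N + k) ≤ ε / 2 + κ ^ k * G := by
    intro k
    induction k with
    | zero => have := hgG N; simp; linarith
    | succ k ih =>
      have a := (hN (N + k) (by omega)).1
      have b := (hN (N + k) (by omega)).2
      rw [show N + (k + 1) = N + k + 1 by ring]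
      calc g (N + k + 1) ≤ κ * g (N + k) + e (N + k) := a
        _ ≤ κ * (ε / 2 + κ ^ k * G) + (1 - κ) * (ε / 2) := by gcongr
        _ = ε / 2 + κ ^ (k + 1) * G := by ring
  have hlim : Tendsto (fun k : ℕ => κ ^ k * G) atTop (nhds 0) := by
    simpa using (tendsto_pow_atTop_nhds_zero_of_lt_one hκ0 hκ1).mul_const G
  have h2 : ∀ᶠ k in atTop, κ ^ k * G < ε / 2 := hlim.eventually (gt_mem_nhds (by linarith))
  obtain ⟨M, hM⟩ := eventually_atTop.1 h2
  refine ⟨N + M, fun n hn => ?_⟩
  obtain ⟨k, rfl⟩ := Nat.exists_eq_add_of_le (show N ≤ n by omega)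
  have := hM k (by omega)
  have := key k
  rw [Real.dist_eq, sub_zero, abs_of_nonneg (hg0 _)]
  linarith

/-- Backward contraction. -/
theorem bwd {g e : ℕ → ℝ} {κ G : ℝ} (hκ0 : 0 ≤ κ) (hκ1 : κ < 1) (hg0 : ∀ n, 0 ≤ g n)
    (hgG : ∀ n, g n ≤ G) (he : Tendsto e atTop (nhds 0))
    (h : ∀ᶠ n in atTop, g n ≤ κ * g (n + 1) + e n) : Tendsto g atTop (nhds 0) := by
  have hG : 0 ≤ G := (hg0 0).trans (hgG 0)
  rw [Metric.tendsto_atTop]
  intro ε hε
  have h1 : ∀ᶠ n in atTop, e n ≤ (1 - κ) * (ε / 2) := by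
    have : 0 < (1 - κ) * (ε / 2) := mul_pos (by linarith) (by linarith)
    exact (he.eventually (ge_mem_nhds this))
  obtain ⟨N, hN⟩ := eventually_atTop.1 (h.and h1)
  have key : ∀ k, ∀ n ≥ N, g n ≤ ε / 2 + κ ^ k * G := by
    intro k
    induction k with
    | zero => intro n _; have := hgG n; simp; linarith
    | succ k ih =>
      intro n hn
      have a := (hN n hn).1
      have b := (hN n hn).2
      have c := ih (n + 1) (by omega)
      calc g n ≤ κ * g (n + 1) + e n := a
        _ ≤ κ * (ε / 2 + κ ^ k * G) + (1 - κ) * (ε / 2) := by gcongr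
        _ = ε / 2 + κ ^ (k + 1) * G := by ring
  have hlim : Tendsto (fun k : ℕ => κ ^ k * G) atTop (nhds 0) := by
    simpa using (tendsto_pow_atTop_nhds_zero_of_lt_one hκ0 hκ1).mul_const G
  have h2 : ∀ᶠ k in atTop, κ ^ k * G < ε / 2 := hlim.eventually (gt_mem_nhds (by linarith))
  obtain ⟨M, hM⟩ := eventually_atTop.1 h2
  refine ⟨N, fun n hn => ?_⟩
  have := hM M le_rfl
  have := key M n hn
  rw [Real.dist_eq, sub_zero, abs_of_nonneg (hg0 _)]
  linarith

theorem step {L m η P N' D' N D G : ℝ} (hL : 0 < L) (hm : 0 < m) (hη0 : 0 ≤ η) (hη : η ≤ L / 2)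
    (hP : 0 < P) (hD' : 0 < D') (hD : 0 < D) (hN : 0 ≤ N) (hG : N / D ≤ G)
    (h1 : P * N' ≤ m * N + η * D) (h2 : (L - η) * D ≤ P * D') :
    N' / D' ≤ m / L * (N / D) + η * (2 / L * (1 + m / L * G)) := by
  set g := N / D with hg
  set κ := m / L with hκ
  have hκL : κ * L = m := by rw [hκ]; field_simp
  have hκ0 : 0 < κ := by rw [hκ]; positivity
  have hgD : g * D = N := by rw [hg]; field_simp
  have hg0 : 0 ≤ g := by rw [hg]; positivity
  set e := η * (2 / L * (1 + κ * G)) with he
  have he0 : 0 ≤ e := by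
    have : 0 ≤ G := hg0.trans hG
    rw [he]; positivity
  have heL : e * (L / 2) = η * (1 + κ * G) := by rw [he]; field_simp
  rw [div_le_iff₀ hD']
  have hfac : 0 ≤ κ * g + e := by positivity
  have key : m * g + η ≤ (κ * g + e) * (L - η) := by
    have a1 : η * (1 + κ * g) ≤ η * (1 + κ * G) := by gcongr
    have a2 : e * (L / 2) ≤ e * (L - η) := by
      apply mul_le_mul_of_nonneg_left _ he0
      linarith
    have a3 : (κ * g + e) * (L - η) = m * g - κ * g * η + e * (L - η) := by
      rw [← hκL]; ring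
    rw [a3]
    nlinarith
  have k2 : P * N' ≤ P * ((κ * g + e) * D') := by
    calc P * N' ≤ m * N + η * D := h1
      _ = (m * g + η) * D := by rw [← hgD]; ring
      _ ≤ (κ * g + e) * (L - η) * D := by gcongr
      _ = (κ * g + e) * ((L - η) * D) := by ring
      _ ≤ (κ * g + e) * (P * D') := by gcongr
      _ = P * ((κ * g + e) * D') := by ring
  exact le_of_mul_le_mul_left k2 hP

theorem ratio_fwd {r A B : ℕ → ℝ} {L m : ℝ} (hm : 0 < m) (hmL : m < L) (hr : ∀ n, 0 < r n)
    (hrec : ∀ n, r (n + 1) = B n + A n / r n)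
    (hA : Tendsto A atTop (nhds (L * m))) (hB : Tendsto B atTop (nhds (L - m))) :
    Tendsto r atTop (nhds L) := by
  have hL : 0 < L := hm.trans hmL
  set η : ℕ → ℝ := fun n => |B n - (L - m)| + |A n - L * m| / m with hη
  have hη0 : ∀ n, 0 ≤ η n := fun n => by simp only [hη]; positivity
  have hηlim : Tendsto η atTop (nhds 0) := by
    have h1 : Tendsto (fun n => |B n - (L - m)|) atTop (nhds 0) := by
      have := (hB.sub_const (L - m)).abs
      simpa using this
    have h2 : Tendsto (fun n => |A n - L * m| / m) atTop (nhds 0) := by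
      have := ((hA.sub_const (L * m)).abs).div_const m
      simpa using this
    simpa using h1.add h2
  have hηev : ∀ᶠ n in atTop, η n ≤ L / 2 := hηlim.eventually (ge_mem_nhds (by linarith))
  set g : ℕ → ℝ := fun n => |r n - L| / (r n + m) with hg
  have hg0 : ∀ n, 0 ≤ g n := fun n => by
    have := hr n
    simp only [hg]; positivity
  set G : ℝ := 1 + L / m with hGdef
  have hgG : ∀ n, g n ≤ G := fun n => by
    have h0 := hr n
    simp only [hg]
    rw [div_le_iff₀ (by positivity)]
    have h1 : |r n - L| ≤ r n + L := by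
      rw [abs_le]; constructor <;> linarith
    have h2 : (1 + L / m) * (r n + m) = r n + m + L / m * r n + L := by field_simp; ring
    rw [hGdef, h2]
    have : 0 < L / m * r n := by positivity
    linarith
  have hglim : Tendsto g atTop (nhds 0) := by
    refine fwd (κ := m / L) (G := G) (e := fun n => η n * (2 / L * (1 + m / L * G))) (by positivity)
      (by rw [div_lt_one hL]; exact hmL) hg0 hgG (by simpa using hηlim.mul_const _) ?_
    filter_upwards [hηev] with n hn
    have h0 := hr n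
    have h0' := hr (n + 1)
    have hnum : r n * (r (n + 1) - L) = ((B n - (L - m)) * r n + (A n - L * m)) - m * (r n - L) := by
      rw [hrec]; field_simp; ring
    have hden : r n * (r (n + 1) + m) = ((B n - (L - m)) * r n + (A n - L * m)) + L * (r n + m) := by
      rw [hrec]; field_simp; ring
    have hpert : |(B n - (L - m)) * r n + (A n - L * m)| ≤ η n * (r n + m) := by
      calc |(B n - (L - m)) * r n + (A n - L * m)| ≤ |(B n - (L - m)) * r n| + |A n - L * m| :=
            abs_add_le _ _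
        _ = |B n - (L - m)| * r n + |A n - L * m| / m * m := by
            rw [abs_mul, abs_of_pos h0]; field_simp
        _ ≤ η n * (r n + m) := by
            simp only [hη]
            have a1 : 0 ≤ |B n - (L - m)| * m := by positivity
            have a2 : 0 ≤ |A n - L * m| / m * r n := by positivity
            nlinarith
    refine step (P := r n) hL hm (hη0 n) hn h0 (by positivity) (by positivity) (abs_nonneg _)
      (hgG n) ?_ ?_
    · calc r n * |r (n + 1) - L| = |r n * (r (n + 1) - L)| := by rw [abs_mul, abs_of_pos h0]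
        _ ≤ |(B n - (L - m)) * r n + (A n - L * m)| + |m * (r n - L)| := by
            rw [hnum]; exact abs_sub _ _
        _ ≤ m * |r n - L| + η n * (r n + m) := by
            rw [abs_mul, abs_of_pos hm]; linarith
    · rw [hden]
      have := neg_le_of_abs_le hpert
      linarith
  have hev : ∀ᶠ n in atTop, g n ≤ 1 / 2 := hglim.eventually (ge_mem_nhds (by norm_num))
  rw [tendsto_iff_dist_tendsto_zero]
  have hup : ∀ᶠ n in atTop, dist (r n) L ≤ g n * (2 * L + 2 * m) := by
    filter_upwards [hev] with n hn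
    have h0 := hr n
    have e1 : |r n - L| = g n * (r n + m) := by simp only [hg]; field_simp
    have e2 : |r n - L| ≤ 1 / 2 * (r n + m) := by rw [e1]; gcongr
    have e3 : r n ≤ 2 * L + m := by
      have := (abs_le.1 e2).2
      linarith
    rw [Real.dist_eq, e1]
    exact mul_le_mul_of_nonneg_left (by linarith) (hg0 n)
  refine squeeze_zero' (Eventually.of_forall fun n => dist_nonneg) hup ?_
  simpa using hglim.mul_const (2 * L + 2 * m)

theorem ratio_bwd {t A B : ℕ → ℝ} {L m : ℝ} (hm : 0 < m) (hmL : m < L) (ht : ∀ n, 0 < t n)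
    (hBpos : ∀ n, 0 < B n)
    (hrec : ∀ n, t n = A n / (B n + t (n + 1)))
    (hA : Tendsto A atTop (nhds (L * m))) (hB : Tendsto B atTop (nhds (L - m))) :
    Tendsto t atTop (nhds m) := by
  have hL : 0 < L := hm.trans hmL
  set η : ℕ → ℝ := fun n => |B n - (L - m)| + |A n - L * m| / L with hη
  have hη0 : ∀ n, 0 ≤ η n := fun n => by simp only [hη]; positivity
  have hηlim : Tendsto η atTop (nhds 0) := by
    have h1 : Tendsto (fun n => |B n - (L - m)|) atTop (nhds 0) := by
      have := (hB.sub_const (L - m)).abs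
      simpa using this
    have h2 : Tendsto (fun n => |A n - L * m| / L) atTop (nhds 0) := by
      have := ((hA.sub_const (L * m)).abs).div_const L
      simpa using this
    simpa using h1.add h2
  have hηev : ∀ᶠ n in atTop, η n ≤ L / 2 := hηlim.eventually (ge_mem_nhds (by linarith))
  set g : ℕ → ℝ := fun n => |t n - m| / (t n + L) with hg
  have hg0 : ∀ n, 0 ≤ g n := fun n => by
    have := ht n
    simp only [hg]; positivity
  have hgG : ∀ n, g n ≤ 1 := fun n => by
    have h0 := ht n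
    simp only [hg]
    rw [div_le_iff₀ (by positivity), abs_le]
    constructor <;> linarith
  have hglim : Tendsto g atTop (nhds 0) := by
    refine bwd (κ := m / L) (G := 1) (e := fun n => η n * (2 / L * (1 + m / L * 1))) (by positivity)
      (by rw [div_lt_one hL]; exact hmL) hg0 hgG (by simpa using hηlim.mul_const _) ?_
    filter_upwards [hηev] with n hn
    have h0 := ht n
    have h0' := ht (n + 1)
    have hb := hBpos n
    have hBt : 0 < B n + t (n + 1) := by positivity
    have hnum : (B n + t (n + 1)) * (t n - m)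
        = ((A n - L * m) - m * (B n - (L - m))) - m * (t (n + 1) - m) := by
      rw [hrec n]; field_simp; ring
    have hden : (B n + t (n + 1)) * (t n + L)
        = ((A n - L * m) + L * (B n - (L - m))) + L * (t (n + 1) + L) := by
      rw [hrec n]; field_simp; ring
    have hp1 : |A n - L * m| + L * |B n - (L - m)| ≤ η n * (t (n + 1) + L) := by
      have a1 : |A n - L * m| / L * L = |A n - L * m| := by field_simp
      have a2 : 0 ≤ |B n - (L - m)| * t (n + 1) := by positivity
      have a3 : 0 ≤ |A n - L * m| / L * t (n + 1) := by positivity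
      simp only [hη]
      nlinarith
    refine step (P := B n + t (n + 1)) hL hm (hη0 n) hn hBt (by positivity) (by positivity)
      (abs_nonneg _) (hgG (n + 1)) ?_ ?_
    · calc (B n + t (n + 1)) * |t n - m| = |(B n + t (n + 1)) * (t n - m)| := by
            rw [abs_mul, abs_of_pos hBt]
        _ ≤ |(A n - L * m) - m * (B n - (L - m))| + |m * (t (n + 1) - m)| := by
            rw [hnum]; exact abs_sub _ _
        _ ≤ (|A n - L * m| + m * |B n - (L - m)|) + m * |t (n + 1) - m| := by
            have := abs_sub (A n - L * m) (m * (B n - (L - m)))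
            rw [abs_mul, abs_of_pos hm] at this
            rw [abs_mul m (t (n + 1) - m), abs_of_pos hm]
            linarith
        _ ≤ m * |t (n + 1) - m| + η n * (t (n + 1) + L) := by
            have : m * |B n - (L - m)| ≤ L * |B n - (L - m)| := by gcongr
            linarith
    · rw [hden]
      have a1 := neg_abs_le (A n - L * m)
      have a2 : -(L * |B n - (L - m)|) ≤ L * (B n - (L - m)) := by
        have := neg_abs_le (B n - (L - m))
        nlinarith
      linarith
  have hev : ∀ᶠ n in atTop, g n ≤ 1 / 2 := hglim.eventually (ge_mem_nhds (by norm_num))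
  rw [tendsto_iff_dist_tendsto_zero]
  have hup : ∀ᶠ n in atTop, dist (t n) m ≤ g n * (2 * m + 2 * L) := by
    filter_upwards [hev] with n hn
    have h0 := ht n
    have e1 : |t n - m| = g n * (t n + L) := by simp only [hg]; field_simp
    have e2 : |t n - m| ≤ 1 / 2 * (t n + L) := by rw [e1]; gcongr
    have e3 : t n ≤ 2 * m + L := by
      have := (abs_le.1 e2).2
      linarith
    rw [Real.dist_eq, e1]
    exact mul_le_mul_of_nonneg_left (by linarith) (hg0 n)
  refine squeeze_zero' (Eventually.of_forall fun n => dist_nonneg) hup ?_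
  simpa using hglim.mul_const (2 * m + 2 * L)

theorem eval_quot (p q : Polynomial ℚ) (x : ℚ) (hx : q.eval x ≠ 0) :
    RatFunc.eval (RingHom.id ℚ) x
      (algebraMap (Polynomial ℚ) (RatFunc ℚ) p / algebraMap (Polynomial ℚ) (RatFunc ℚ) q)
      = p.eval x / q.eval x := by
  have hq : q ≠ 0 := by
    rintro rfl
    simp at hx
  have hqR : algebraMap (Polynomial ℚ) (RatFunc ℚ) q ≠ 0 := by
    simpa using hq
  set f := algebraMap (Polynomial ℚ) (RatFunc ℚ) p / algebraMap (Polynomial ℚ) (RatFunc ℚ) q with hf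
  have hd : Polynomial.eval₂ (RingHom.id ℚ) x (RatFunc.denom f) ≠ 0 := by
    obtain ⟨c, hc⟩ := RatFunc.denom_div_dvd p q
    intro h0
    apply hx
    rw [hc, Polynomial.eval_mul, ← hf]
    have : Polynomial.eval x (RatFunc.denom f) = 0 := by
      simpa [Polynomial.eval₂_id] using h0
    rw [this, zero_mul]
  have hmul : f * algebraMap (Polynomial ℚ) (RatFunc ℚ) q = algebraMap (Polynomial ℚ) (RatFunc ℚ) p := by
    rw [hf, div_mul_cancel₀ _ hqR]
  have h2 : RatFunc.eval (RingHom.id ℚ) x (f * algebraMap (Polynomial ℚ) (RatFunc ℚ) q)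
      = RatFunc.eval (RingHom.id ℚ) x f * q.eval x := by
    rw [RatFunc.eval_mul (RingHom.id ℚ) x hd (by simp), RatFunc.eval_algebraMap]
    simp
  rw [hmul, RatFunc.eval_algebraMap] at h2
  rw [eq_div_iff hx, ← h2]
  simp

open Polynomial in
/-- the coefficient of `u (n-1)` -/
noncomputable def bF : RatFunc ℚ :=
  algebraMap (Polynomial ℚ) (RatFunc ℚ) (4 * X - 6) / algebraMap (Polynomial ℚ) (RatFunc ℚ) (11 * X)

open Polynomial in
/-- the coefficient of `u (n-2)` -/
noncomputable def aF : RatFunc ℚ :=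
  algebraMap (Polynomial ℚ) (RatFunc ℚ) ((3 * X - 7) * (3 * X - 5)) /
    algebraMap (Polynomial ℚ) (RatFunc ℚ) (9 * X * (X - 1))

theorem bF_eval (x : ℚ) (hx : x ≠ 0) :
    RatFunc.eval (RingHom.id ℚ) x bF = (4 * x - 6) / (11 * x) := by
  rw [bF, eval_quot]
  · simp
  · simpa using hx

theorem aF_eval (x : ℚ) (hx : x ≠ 0) (hx1 : x ≠ 1) :
    RatFunc.eval (RingHom.id ℚ) x aF = ((3 * x - 7) * (3 * x - 5)) / (9 * x * (x - 1)) := by
  rw [aF, eval_quot]
  · simp
  · simp only [Polynomial.eval_mul, Polynomial.eval_sub, Polynomial.eval_X, Polynomial.eval_one,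
      Polynomial.eval_ofNat]
    exact mul_ne_zero (mul_ne_zero (by norm_num) hx) (sub_ne_zero.2 hx1)

theorem bF_lim : Tendsto (fun n : ℕ => ((RatFunc.eval (RingHom.id ℚ) (n : ℚ) bF : ℚ) : ℝ)) atTop
    (nhds (4 / 11)) := by
  have h0 : Tendsto (fun n : ℕ => (1 : ℝ) / n) atTop (nhds 0) := tendsto_one_div_atTop_nhds_zero_nat
  have h1 : Tendsto (fun n : ℕ => (4 / 11 : ℝ) - 6 / 11 * (1 / (n : ℝ))) atTop (nhds (4 / 11)) := by
    have := (h0.const_mul (6 / 11 : ℝ)).const_sub (4 / 11 : ℝ)
    simpa using this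
  refine h1.congr' ?_
  filter_upwards [eventually_ge_atTop 1] with n hn
  have hn' : (n : ℚ) ≠ 0 := by positivity
  have hn'' : (n : ℝ) ≠ 0 := by positivity
  rw [bF_eval _ hn']
  push_cast
  field_simp

theorem aF_lim : Tendsto (fun n : ℕ => ((RatFunc.eval (RingHom.id ℚ) (n : ℚ) aF : ℚ) : ℝ)) atTop
    (nhds 1) := by
  have h0 : Tendsto (fun n : ℕ => (1 : ℝ) / n) atTop (nhds 0) := tendsto_one_div_atTop_nhds_zero_nat
  have h1 : Tendsto (fun n : ℕ => ((3 - 7 * (1 / (n : ℝ))) * (3 - 5 * (1 / (n : ℝ)))) /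
      (9 * (1 - 1 / (n : ℝ)))) atTop (nhds (((3 - 7 * 0) * (3 - 5 * 0)) / (9 * (1 - 0)))) := by
    refine Tendsto.div ?_ ?_ (by norm_num)
    · exact ((h0.const_mul 7).const_sub 3).mul ((h0.const_mul 5).const_sub 3)
    · exact (h0.const_sub 1).const_mul 9
  have e : (((3 - 7 * 0) * (3 - 5 * 0)) / (9 * (1 - 0)) : ℝ) = 1 := by norm_num
  rw [e] at h1
  refine h1.congr' ?_
  filter_upwards [eventually_ge_atTop 2] with n hn
  have hn1 : (2 : ℝ) ≤ (n : ℝ) := by exact_mod_cast hn
  have hn2 : (2 : ℚ) ≤ (n : ℚ) := by exact_mod_cast hn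
  have hn' : (n : ℚ) ≠ 0 := by positivity
  have hn'' : (n : ℝ) ≠ 0 := by positivity
  have hn3 : (n : ℝ) - 1 ≠ 0 := by linarith
  rw [aF_eval _ hn' (by linarith)]
  push_cast
  field_simp

/-- The coefficient `b` at `n + 3`. -/
noncomputable def Bc (n : ℕ) : ℚ := (2 * (2 * ((n : ℚ) + 1) + 1)) / (11 * ((n : ℚ) + 3))

/-- The coefficient `a` at `n + 3`. -/
noncomputable def Ac (n : ℕ) : ℚ := (9 * ((n : ℚ) + 1) ^ 2 - 1) / (9 * ((n : ℚ) + 2) * ((n : ℚ) + 3))

theorem bF_eval' (n : ℕ) : RatFunc.eval (RingHom.id ℚ) ((n + 3 : ℕ) : ℚ) bF = Bc n := by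
  rw [bF_eval _ (by positivity), Bc]
  push_cast
  congr 1
  ring

theorem aF_eval' (n : ℕ) : RatFunc.eval (RingHom.id ℚ) ((n + 3 : ℕ) : ℚ) aF = Ac n := by
  have hn : (0 : ℚ) ≤ n := Nat.cast_nonneg n
  rw [aF_eval _ (by positivity) (by push_cast; linarith), Ac]
  push_cast
  congr 1 <;> ring

theorem Bc_pos (n : ℕ) : 0 < Bc n := by rw [Bc]; positivity

theorem Ac_pos (n : ℕ) : 0 < Ac n := by
  have hn : (0 : ℚ) ≤ n := Nat.cast_nonneg n
  have h3 : (0 : ℚ) < 9 * ((n : ℚ) + 1) ^ 2 - 1 := by nlinarith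
  rw [Ac]
  positivity

theorem Bc_lim : Tendsto (fun n : ℕ => ((Bc n : ℚ) : ℝ)) atTop (nhds (4 / 11)) := by
  have h := (tendsto_add_atTop_iff_nat 3).2 bF_lim
  refine h.congr fun n => ?_
  rw [bF_eval']

theorem Ac_lim : Tendsto (fun n : ℕ => ((Ac n : ℚ) : ℝ)) atTop (nhds 1) := by
  have h := (tendsto_add_atTop_iff_nat 3).2 aF_lim
  refine h.congr fun n => ?_
  rw [aF_eval']

theorem ev_rec {u : ℕ → ℚ} (hu : ∀ n, u (n + 3) = Bc n * u (n + 2) + Ac n * u (n + 1)) :
    ∀ᶠ n in atTop, u (n + 2) =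
          RatFunc.eval (RingHom.id ℚ) ((n + 2 : ℕ) : ℚ) bF * u (n + 1) +
          RatFunc.eval (RingHom.id ℚ) ((n + 2 : ℕ) : ℚ) aF * u n := by
  filter_upwards [eventually_ge_atTop 1] with n hn
  obtain ⟨k, rfl⟩ := Nat.exists_eq_add_of_le' hn
  rw [show k + 1 + 2 = k + 3 from rfl, show k + 1 + 1 = k + 2 from rfl, bF_eval', aF_eval', hu]

theorem V_rec' (n : ℕ) : V (n + 3) = Bc n * V (n + 2) + Ac n * V (n + 1) := V_rec n

theorem W_rec' (n : ℕ) : W (n + 3) = Bc n * W (n + 2) + Ac n * W (n + 1) := by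
  rw [W, Bc, Ac]

theorem V_ne (n : ℕ) : V (n + 1) ≠ 0 := by
  intro h
  have := V_sign n
  rw [h] at this
  simp at this

/-- The negation of the preceding statement: If rational-function coefficients a_n, b_n tend to α, β, the roots λ, Λ of x²−βx−α satisfy 0<∣λ∣<∣Λ∣, and two independent rational solutions of u_n=b_n u_{n−1}+a_n u_{n−2} have ratios tending to λ and Λ, then λ, Λ are rational. -/
theorem result :
    ¬ (∀ (a b : RatFunc ℚ) (α β lam Lam : ℝ) (v w : ℕ → ℚ),
      Tendsto (fun n : ℕ => ((RatFunc.eval (RingHom.id ℚ) (n : ℚ) a : ℚ) : ℝ)) atTop (nhds α) →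
      Tendsto (fun n : ℕ => ((RatFunc.eval (RingHom.id ℚ) (n : ℚ) b : ℚ) : ℝ)) atTop (nhds β) →
      lam + Lam = β →
      lam * Lam = -α →
      0 < |lam| →
      |lam| < |Lam| →
      (∀ᶠ n in atTop, v (n + 2) =
          RatFunc.eval (RingHom.id ℚ) ((n + 2 : ℕ) : ℚ) b * v (n + 1) +
          RatFunc.eval (RingHom.id ℚ) ((n + 2 : ℕ) : ℚ) a * v n) →
      (∀ᶠ n in atTop, w (n + 2) =
          RatFunc.eval (RingHom.id ℚ) ((n + 2 : ℕ) : ℚ) b * w (n + 1) +
          RatFunc.eval (RingHom.id ℚ) ((n + 2 : ℕ) : ℚ) a * w n) →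
      (∀ c d : ℚ, (∀ᶠ n in atTop, c * v n + d * w n = 0) → c = 0 ∧ d = 0) →
      Tendsto (fun n : ℕ => ((v (n + 1) : ℝ) / (v n : ℝ))) atTop (nhds lam) →
      Tendsto (fun n : ℕ => ((w (n + 1) : ℝ) / (w n : ℝ))) atTop (nhds Lam) →
      (∃ q : ℚ, (q : ℝ) = lam) ∧ (∃ r : ℚ, (r : ℝ) = Lam)) := by
  intro H
  have h5 : Real.sqrt 5 * Real.sqrt 5 = 5 := Real.mul_self_sqrt (by norm_num)
  have h5a : 2 < Real.sqrt 5 := by
    rw [Real.lt_sqrt (by norm_num)]; norm_num
  have h5b : Real.sqrt 5 < 3 := by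
    rw [Real.sqrt_lt' (by norm_num)]; norm_num
  set L : ℝ := (5 * Real.sqrt 5 + 2) / 11 with hL
  set m : ℝ := (5 * Real.sqrt 5 - 2) / 11 with hm
  have hm0 : 0 < m := by rw [hm]; linarith
  have hmL : m < L := by rw [hm, hL]; linarith
  have hL0 : 0 < L := hm0.trans hmL
  have hLm : L * m = 1 := by rw [hm, hL]; nlinarith
  have hLm' : L - m = 4 / 11 := by rw [hm, hL]; ring
  -- limit of the ratio of the dominant solution
  have hW : Tendsto (fun n : ℕ => ((W (n + 1) : ℝ) / (W n : ℝ))) atTop (nhds L) := by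
    rw [← tendsto_add_atTop_iff_nat 1]
    refine ratio_fwd (A := fun n => (Ac n : ℝ)) (B := fun n => (Bc n : ℝ)) hm0 hmL ?_ ?_ ?_ ?_
    · intro n
      have h1 : (0 : ℝ) < W (n + 1) := by exact_mod_cast (W_pos n).1
      have h2 : (0 : ℝ) < W (n + 2) := by exact_mod_cast (W_pos n).2
      exact div_pos h2 h1
    · intro n
      have h1 : (0 : ℝ) < W (n + 1) := by exact_mod_cast (W_pos n).1
      have h2 : (0 : ℝ) < W (n + 2) := by exact_mod_cast (W_pos n).2
      have h3 : (W (n + 3) : ℝ) = Bc n * W (n + 2) + Ac n * W (n + 1) := by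
        exact_mod_cast W_rec' n
      show (W (n + 3) : ℝ) / W (n + 2) = Bc n + Ac n / ((W (n + 2) : ℝ) / W (n + 1))
      rw [h3]
      field_simp
    · rw [hLm]; exact Ac_lim
    · rw [hLm']; exact Bc_lim
  have hV : Tendsto (fun n : ℕ => ((V (n + 1) : ℝ) / (V n : ℝ))) atTop (nhds (-m)) := by
    rw [← tendsto_add_atTop_iff_nat 1]
    have hpos : ∀ n, (0 : ℝ) < -(V (n + 2) : ℝ) / V (n + 1) := fun n => by exact_mod_cast V_sign n
    have ht := ratio_bwd (t := fun n => -(V (n + 2) : ℝ) / V (n + 1))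
      (A := fun n => (Ac n : ℝ)) (B := fun n => (Bc n : ℝ)) hm0 hmL hpos
      (fun n => by exact_mod_cast Bc_pos n) ?_ (by rw [hLm]; exact Ac_lim)
      (by rw [hLm']; exact Bc_lim)
    · refine ht.neg.congr fun n => ?_
      show -(-(V (n + 2) : ℝ) / V (n + 1)) = (V (n + 2) : ℝ) / V (n + 1)
      ring
    · intro n
      have h1 : (V (n + 1) : ℝ) ≠ 0 := by exact_mod_cast V_ne n
      have h2 : (V (n + 2) : ℝ) ≠ 0 := by exact_mod_cast V_ne (n + 1)
      have h3 : (V (n + 3) : ℝ) = Bc n * V (n + 2) + Ac n * V (n + 1) := by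
        exact_mod_cast V_rec' n
      show -(V (n + 2) : ℝ) / V (n + 1) = Ac n / (Bc n + -(V (n + 3) : ℝ) / V (n + 2))
      have h4 : (Bc n : ℝ) + -(V (n + 3) : ℝ) / V (n + 2) = -(Ac n * V (n + 1)) / V (n + 2) := by
        rw [h3]; field_simp; ring
      have h5 : (Ac n : ℝ) ≠ 0 := by exact_mod_cast (Ac_pos n).ne'
      rw [h4]
      field_simp
  have hind : ∀ c d : ℚ, (∀ᶠ n in atTop, c * V n + d * W n = 0) → c = 0 ∧ d = 0 := by
    intro c d hcd
    by_cases hd : d = 0
    · subst hd
      refine ⟨?_, rfl⟩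
      obtain ⟨N, hN⟩ := eventually_atTop.1 hcd
      have := hN (N + 1) (by omega)
      simp only [zero_mul, add_zero, mul_eq_zero] at this
      rcases this with h | h
      · exact h
      · exact absurd h (V_ne N)
    · exfalso
      have hWV : ∀ᶠ n in atTop, (W n : ℝ) = -(c / d : ℚ) * V n := by
        filter_upwards [hcd] with n hn
        have : W n = -(c / d) * V n := by
          field_simp
          linarith
        exact_mod_cast this
      obtain ⟨N, hN⟩ := eventually_atTop.1 hWV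
      have hlim2 : Tendsto (fun n : ℕ => ((W (n + 1) : ℝ) / (W n : ℝ))) atTop (nhds (-m)) := by
        refine hV.congr' ?_
        filter_upwards [eventually_ge_atTop (N + 1)] with n hn
        obtain ⟨k, rfl⟩ := Nat.exists_eq_add_of_le' hn
        have e1 := hN (k + (N + 1)) (by omega)
        have e2 := hN (k + (N + 1) + 1) (by omega)
        have hW0 : (W (k + (N + 1)) : ℝ) ≠ 0 := by
          have := (W_pos (k + N)).1
          rw [show k + N + 1 = k + (N + 1) by ring] at this
          exact_mod_cast this.ne'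
        have hcd0 : (-(c / d : ℚ) : ℝ) ≠ 0 := by
          intro h0
          rw [h0, zero_mul] at e1
          exact hW0 e1
        rw [e1, e2, mul_div_mul_left _ _ hcd0]
      have := tendsto_nhds_unique hW hlim2
      linarith
  obtain ⟨-, r, hr⟩ := H aF bF 1 (4 / 11) (-m) L V W aF_lim bF_lim (by linarith)
    (by linarith) (by rw [abs_neg, abs_of_pos hm0]; exact hm0)
    (by rw [abs_neg, abs_of_pos hm0, abs_of_pos hL0]; exact hmL)
    (ev_rec V_rec') (ev_rec W_rec') hind hV hW
  have hirr : Irrational (Real.sqrt 5) := by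
    have : Nat.Prime 5 := by norm_num
    exact_mod_cast this.irrational_sqrt
  apply hirr
  refine ⟨(11 * r - 2) / 5, ?_⟩
  push_cast
  rw [hr, hL]
  ring

end Pool.Agent.S16580
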