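-- Proof of the Andrews-Dixit-Schultz-Yee parity statement by a Liouville-type rearrangement.
import Pool.Statements.S16733

set_option autoImplicit false
open Pool Pool.MP_44e698_nt

namespace Pool.Agent.S16733

/-- exponent in the symmetric parametrisation -/
def eE (x : (ℕ × ℕ) × (ℕ × ℕ)) : ℕ :=
  2 * x.1.1 * x.1.2 + x.1.1 + x.1.2 + 1 + 2 * (x.2.1 + 1) * (x.2.2 + 1)

/-- exponent in the original parametrisation `((m, n), (a, b))` -/
def eY (x : (ℕ × ℕ) × (ℕ × ℕ)) : ℕ :=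
  (x.1.1 + 1) * (2 * x.1.2 + 3) + (2 * x.1.1 + 1) * x.2.1 + (x.1.2 + 1) * x.2.2

lemma summable_pow4 {r : ℝ} (h0 : 0 ≤ r) (h1 : r < 1) :
    Summable (fun x : (ℕ × ℕ) × (ℕ × ℕ) => r ^ (x.1.1 + x.1.2 + x.2.1 + x.2.2)) := by
  have hg := summable_geometric_of_lt_one h0 h1
  have h2 : Summable (fun x : ℕ × ℕ => r ^ x.1 * r ^ x.2) :=
    hg.mul_of_nonneg hg (fun n => pow_nonneg h0 n) (fun n => pow_nonneg h0 n)
  have h4 : Summable (fun x : (ℕ × ℕ) × (ℕ × ℕ) =>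
      (r ^ x.1.1 * r ^ x.1.2) * (r ^ x.2.1 * r ^ x.2.2)) :=
    h2.mul_of_nonneg h2 (fun n => mul_nonneg (pow_nonneg h0 _) (pow_nonneg h0 _))
      (fun n => mul_nonneg (pow_nonneg h0 _) (pow_nonneg h0 _))
  refine h4.congr (fun x => ?_)
  rw [pow_add, pow_add, pow_add]; ring

lemma summable_of_bound {r : ℝ} (h0 : 0 ≤ r) (h1 : r < 1) {C : ℝ} (hC : 0 ≤ C)
    {f : (ℕ × ℕ) × (ℕ × ℕ) → ℂ} {e : (ℕ × ℕ) × (ℕ × ℕ) → ℕ}
    (he : ∀ x, x.1.1 + x.1.2 + x.2.1 + x.2.2 ≤ e x)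
    (hf : ∀ x, ‖f x‖ ≤ C * r ^ e x) : Summable f := by
  refine Summable.of_norm_bounded ((summable_pow4 h0 h1).mul_left C) (fun x => ?_)
  refine (hf x).trans (mul_le_mul_of_nonneg_left ?_ hC)
  exact pow_le_pow_of_le_one h0 h1.le (he x)

lemma le_eE (x : (ℕ × ℕ) × (ℕ × ℕ)) : x.1.1 + x.1.2 + x.2.1 + x.2.2 ≤ eE x := by
  unfold eE
  nlinarith [Nat.zero_le (x.1.1 * x.1.2), Nat.zero_le (x.2.1 * x.2.2)]

lemma le_eY (x : (ℕ × ℕ) × (ℕ × ℕ)) : x.1.1 + x.1.2 + x.2.1 + x.2.2 ≤ eY x := by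
  unfold eY
  nlinarith [Nat.zero_le (x.1.1 * x.1.2), Nat.zero_le (x.1.1 * x.2.1), Nat.zero_le (x.1.2 * x.2.2)]

/-- the core cancellation -/
lemma core {r : ℝ} (h0 : 0 ≤ r) (h1 : r < 1) {C : ℝ} (hC : 0 ≤ C) (G : ℕ → ℂ)
    (hodd : ∀ e, Odd e → G e = 0) (hG : ∀ e, ‖G e‖ ≤ C * r ^ e) :
    ∑' x : (ℕ × ℕ) × (ℕ × ℕ), (-1 : ℂ) ^ (x.1.1 + x.2.2) * G (eY x) = 0 := by
  classical
  -- symmetric function
  set H : (ℕ × ℕ) × (ℕ × ℕ) → ℂ := fun x => (-1 : ℂ) ^ x.1.1 * G (eE x) with hH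
  have hHs : ∀ (P : (ℕ × ℕ) × (ℕ × ℕ) → Prop) [DecidablePred P], Summable (fun x => if P x then H x else 0) := by
    intro P _
    refine summable_of_bound h0 h1 hC le_eE (fun x => ?_)
    by_cases hx : P x
    · simp only [hx, if_true, hH, norm_mul, norm_pow, norm_neg, norm_one, one_pow, one_mul]
      exact hG _
    · simp only [hx, if_false, norm_zero]; positivity
  have hHs' : Summable H := by
    have := hHs (fun _ => True)
    simpa using this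
  have hanti : ∀ a j m b : ℕ, H ((j, a), (b, m)) = - H ((a, j), (m, b)) := by
    intro a j m b
    have he : eE ((j, a), (b, m)) = eE ((a, j), (m, b)) := by
      unfold eE; ring
    simp only [hH, he]
    rcases Nat.even_or_odd (a + j) with h | h
    · have : Odd (eE ((a, j), (m, b))) := by
        have : eE ((a, j), (m, b)) = 2 * (a * j + (m + 1) * (b + 1)) + (a + j) + 1 := by
          unfold eE; ring
        rw [this]
        have h2 : Even (2 * (a * j + (m + 1) * (b + 1)) + (a + j)) :=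
          (even_two_mul _).add h
        exact h2.add_one
      rw [hodd _ this]; simp
    · have h3 : (-1 : ℂ) ^ j = - (-1 : ℂ) ^ a := by
        have h4 : (-1 : ℂ) ^ (a + j) = -1 := h.neg_one_pow
        rw [pow_add] at h4
        have h5 : (-1 : ℂ) ^ a * (-1 : ℂ) ^ a = 1 := by
          rw [← pow_add, ← two_mul, pow_mul]; norm_num
        calc (-1 : ℂ) ^ j = ((-1 : ℂ) ^ a * (-1 : ℂ) ^ a) * (-1 : ℂ) ^ j := by rw [h5, one_mul]
          _ = (-1 : ℂ) ^ a * ((-1 : ℂ) ^ a * (-1 : ℂ) ^ j) := by ring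
          _ = - (-1 : ℂ) ^ a := by rw [h4]; ring
      rw [h3]; ring
  have hanti2 : ∀ a j m b : ℕ, H ((j, a), (m, b)) = - H ((a, j), (m, b)) := by
    intro a j m b
    have := hanti a j m b
    have he : eE ((j, a), (m, b)) = eE ((j, a), (b, m)) := by
      unfold eE; ring
    rw [← this]
    simp only [hH, he]
  -- total sum of H is zero
  have htot : ∑' x, H x = 0 := by
    let s : (ℕ × ℕ) × (ℕ × ℕ) ≃ (ℕ × ℕ) × (ℕ × ℕ) :=
      (Equiv.prodComm ℕ ℕ).prodCongr (Equiv.refl (ℕ × ℕ))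
    have h := s.tsum_eq H
    have h' : ∀ x, H (s x) = - H x := by
      rintro ⟨⟨a, j⟩, ⟨m, b⟩⟩
      exact hanti2 a j m b
    simp only [h'] at h
    rw [tsum_neg] at h
    have h2 : (2 : ℂ) * ∑' x, H x = 0 := by linear_combination -h
    simpa using h2
  -- the part with b >= a equals minus the part with m >= j
  have hswap : ∑' x : (ℕ × ℕ) × (ℕ × ℕ), (if x.1.1 ≤ x.2.2 then H x else 0)
      = - ∑' x : (ℕ × ℕ) × (ℕ × ℕ), (if x.1.2 ≤ x.2.1 then H x else 0) := by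
    let s : (ℕ × ℕ) × (ℕ × ℕ) ≃ (ℕ × ℕ) × (ℕ × ℕ) :=
      (Equiv.prodComm ℕ ℕ).prodCongr (Equiv.prodComm ℕ ℕ)
    have h := s.tsum_eq (fun x : (ℕ × ℕ) × (ℕ × ℕ) => (if x.1.1 ≤ x.2.2 then H x else 0))
    rw [← h, ← tsum_neg]
    congr 1
    funext x
    obtain ⟨⟨a, j⟩, ⟨m, b⟩⟩ := x
    change (if j ≤ m then H ((j, a), (b, m)) else 0) = - (if j ≤ m then H ((a, j), (m, b)) else 0)
    rw [hanti a j m b]
    split_ifs <;> simp
  -- split
  have hsplit : ∑' x : (ℕ × ℕ) × (ℕ × ℕ), (if x.1.2 ≤ x.2.1 then H x else 0)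
      + ∑' x : (ℕ × ℕ) × (ℕ × ℕ), (if x.2.1 < x.1.2 then H x else 0) = 0 := by
    rw [← (hHs (fun x => x.1.2 ≤ x.2.1)).tsum_add (hHs (fun x => x.2.1 < x.1.2))]
    refine Eq.trans ?_ htot
    congr 1
    funext x
    by_cases hx : x.1.2 ≤ x.2.1
    · simp [hx, not_lt.mpr hx]
    · simp [hx, not_le.mp hx]
  -- odd b part
  have hE : ∑' x : (ℕ × ℕ) × (ℕ × ℕ), (-1 : ℂ) ^ (x.1.1 + (2 * x.2.2 + 1))
        * G (eY (x.1, (x.2.1, 2 * x.2.2 + 1)))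
      = - ∑' x : (ℕ × ℕ) × (ℕ × ℕ), (if x.2.1 < x.1.2 then H x else 0) := by
    let φ : (ℕ × ℕ) × (ℕ × ℕ) → (ℕ × ℕ) × (ℕ × ℕ) :=
      fun x => ((x.1.1, x.1.2 + 1 + x.2.1), (x.1.2, x.2.2))
    have hφ : Function.Injective φ := by
      rintro ⟨⟨a, n⟩, ⟨c, b⟩⟩ ⟨⟨a', n'⟩, ⟨c', b'⟩⟩ h
      simp only [φ, Prod.mk.injEq] at h ⊢
      omega
    have h := hφ.tsum_eq (f := fun x : (ℕ × ℕ) × (ℕ × ℕ) => (if x.2.1 < x.1.2 then H x else 0)) (by
      rintro ⟨⟨a, j⟩, ⟨m, b⟩⟩ hx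
      simp only [Function.mem_support, ne_eq, ite_eq_right_iff, Classical.not_imp] at hx
      have hx1 := hx.1
      refine ⟨((a, m), (j - m - 1, b)), ?_⟩
      have h7 : m + 1 + (j - m - 1) = j := by omega
      simp only [φ, h7])
    rw [← h, ← tsum_neg]
    congr 1
    funext x
    obtain ⟨⟨a, n⟩, ⟨c, b⟩⟩ := x
    have h3 : n < n + 1 + c := by omega
    simp only [φ, h3, if_true, hH]
    have he : eY ((a, n), (c, 2 * b + 1)) = eE ((a, n + 1 + c), (n, b)) := by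
      unfold eE eY; ring
    rw [he]
    have : (-1 : ℂ) ^ (a + (2 * b + 1)) = - (-1 : ℂ) ^ a := by
      rw [pow_add, pow_succ, pow_mul]; norm_num
    rw [this]; ring
  -- even b part
  have hO : ∑' x : (ℕ × ℕ) × (ℕ × ℕ), (-1 : ℂ) ^ (x.1.1 + (2 * x.2.2))
        * G (eY (x.1, (x.2.1, 2 * x.2.2)))
      = ∑' x : (ℕ × ℕ) × (ℕ × ℕ), (if x.1.1 ≤ x.2.2 then H x else 0) := by
    let φ : (ℕ × ℕ) × (ℕ × ℕ) → (ℕ × ℕ) × (ℕ × ℕ) :=
      fun x => ((x.1.1, x.2.1), (x.1.2, x.1.1 + x.2.2))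
    have hφ : Function.Injective φ := by
      rintro ⟨⟨a, n⟩, ⟨c, b⟩⟩ ⟨⟨a', n'⟩, ⟨c', b'⟩⟩ h
      simp only [φ, Prod.mk.injEq] at h ⊢
      omega
    have h := hφ.tsum_eq (f := fun x : (ℕ × ℕ) × (ℕ × ℕ) => (if x.1.1 ≤ x.2.2 then H x else 0)) (by
      rintro ⟨⟨a, j⟩, ⟨m, b⟩⟩ hx
      simp only [Function.mem_support, ne_eq, ite_eq_right_iff, Classical.not_imp] at hx
      have hx1 := hx.1
      refine ⟨((a, m), (j, b - a)), ?_⟩
      have h7 : a + (b - a) = b := by omega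
      simp only [φ, h7])
    rw [← h]
    congr 1
    funext x
    obtain ⟨⟨a, n⟩, ⟨c, b⟩⟩ := x
    have h3 : a ≤ a + b := by omega
    simp only [φ, h3, if_true, hH]
    have he : eY ((a, n), (c, 2 * b)) = eE ((a, c), (n, a + b)) := by
      unfold eE eY; ring
    rw [he]
    have : (-1 : ℂ) ^ (a + (2 * b)) = (-1 : ℂ) ^ a := by
      rw [pow_add, pow_mul]; norm_num
    rw [this]
  -- combine
  set F : (ℕ × ℕ) × (ℕ × ℕ) → ℂ := fun x => (-1 : ℂ) ^ (x.1.1 + x.2.2) * G (eY x) with hF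
  have hFs : Summable F := by
    refine summable_of_bound h0 h1 hC le_eY (fun x => ?_)
    simp only [hF, norm_mul, norm_pow, norm_neg, norm_one, one_pow, one_mul]
    exact hG _
  have hFs' : ∀ (P : (ℕ × ℕ) × (ℕ × ℕ) → Prop) [DecidablePred P], Summable (fun x => if P x then F x else 0) := by
    intro P _
    refine summable_of_bound h0 h1 hC le_eY (fun x => ?_)
    by_cases hx : P x
    · simp only [hx, if_true, hF, norm_mul, norm_pow, norm_neg, norm_one, one_pow, one_mul]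
      exact hG _
    · simp only [hx, if_false, norm_zero]; positivity
  have hF1 : ∑' x, F x = ∑' x, (if Odd x.2.2 then F x else 0) + ∑' x, (if Even x.2.2 then F x else 0) := by
    rw [← (hFs' (fun x => Odd x.2.2)).tsum_add (hFs' (fun x => Even x.2.2))]
    congr 1
    funext x
    rcases Nat.even_or_odd x.2.2 with h | h
    · have : ¬ Odd x.2.2 := Nat.not_odd_iff_even.mpr h
      simp [h, this]
    · have : ¬ Even x.2.2 := Nat.not_even_iff_odd.mpr h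
      simp [h, this]
  have hF2 : ∑' x, (if Odd x.2.2 then F x else 0)
      = ∑' x : (ℕ × ℕ) × (ℕ × ℕ), (-1 : ℂ) ^ (x.1.1 + (2 * x.2.2 + 1))
        * G (eY (x.1, (x.2.1, 2 * x.2.2 + 1))) := by
    let φ : (ℕ × ℕ) × (ℕ × ℕ) → (ℕ × ℕ) × (ℕ × ℕ) :=
      fun x => (x.1, (x.2.1, 2 * x.2.2 + 1))
    have hφ : Function.Injective φ := by
      rintro ⟨⟨a, n⟩, ⟨c, b⟩⟩ ⟨⟨a', n'⟩, ⟨c', b'⟩⟩ h
      simp only [φ, Prod.mk.injEq] at h ⊢
      omega
    have h := hφ.tsum_eq (f := fun x : (ℕ × ℕ) × (ℕ × ℕ) => (if Odd x.2.2 then F x else 0)) (by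
      rintro ⟨⟨a, j⟩, ⟨m, b⟩⟩ hx
      simp only [Function.mem_support, ne_eq, ite_eq_right_iff, Classical.not_imp] at hx
      obtain ⟨⟨k, hk⟩, -⟩ := hx
      refine ⟨((a, j), (m, k)), ?_⟩
      have h7 : 2 * k + 1 = b := by omega
      simp only [φ, h7])
    rw [← h]
    congr 1
    funext x
    have : Odd (2 * x.2.2 + 1) := odd_two_mul_add_one _
    simp only [φ, this, if_true, hF]
  have hF3 : ∑' x, (if Even x.2.2 then F x else 0)
      = ∑' x : (ℕ × ℕ) × (ℕ × ℕ), (-1 : ℂ) ^ (x.1.1 + (2 * x.2.2))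
        * G (eY (x.1, (x.2.1, 2 * x.2.2))) := by
    let φ : (ℕ × ℕ) × (ℕ × ℕ) → (ℕ × ℕ) × (ℕ × ℕ) :=
      fun x => (x.1, (x.2.1, 2 * x.2.2))
    have hφ : Function.Injective φ := by
      rintro ⟨⟨a, n⟩, ⟨c, b⟩⟩ ⟨⟨a', n'⟩, ⟨c', b'⟩⟩ h
      simp only [φ, Prod.mk.injEq] at h ⊢
      omega
    have h := hφ.tsum_eq (f := fun x : (ℕ × ℕ) × (ℕ × ℕ) => (if Even x.2.2 then F x else 0)) (by
      rintro ⟨⟨a, j⟩, ⟨m, b⟩⟩ hx
      simp only [Function.mem_support, ne_eq, ite_eq_right_iff, Classical.not_imp] at hx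
      obtain ⟨⟨k, hk⟩, -⟩ := hx
      refine ⟨((a, j), (m, k)), ?_⟩
      have h7 : 2 * k = b := by omega
      simp only [φ, h7])
    rw [← h]
    congr 1
    funext x
    have : Even (2 * x.2.2) := even_two_mul _
    simp only [φ, this, if_true, hF]
  rw [hF1, hF2, hF3, hE, hO, hswap]
  linear_combination -hsplit

/-- expansion of the double series as a fourfold series -/
lemma expand (q : ℂ) (hq : ‖q‖ < 1) :
    (∑' p : ℕ × ℕ, (-q) ^ (2 * (p.1 + 1) * (p.2 + 1) + (p.1 + 1)) /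
          ((1 + q ^ (p.2 + 1)) * (1 - q ^ (2 * p.1 + 1))))
      = ∑' x : (ℕ × ℕ) × (ℕ × ℕ), (-1 : ℂ) ^ (x.1.1 + x.2.2) * (- q ^ (eY x)) := by
  have hs : Summable (fun x : (ℕ × ℕ) × (ℕ × ℕ) => (-1 : ℂ) ^ (x.1.1 + x.2.2) * (- q ^ (eY x))) := by
    refine summable_of_bound (norm_nonneg q) hq zero_le_one le_eY (fun x => ?_)
    simp
  rw [hs.tsum_prod]
  congr 1
  funext p
  obtain ⟨m, n⟩ := p
  have hpow : ∀ k : ℕ, ‖q ^ (k + 1)‖ < 1 := by
    intro k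
    rw [norm_pow]
    exact pow_lt_one₀ (norm_nonneg q) hq (Nat.succ_ne_zero k)
  have hA : ‖q ^ (2 * m + 1)‖ < 1 := hpow (2 * m)
  have hB : ‖- q ^ (n + 1)‖ < 1 := by rw [norm_neg]; exact hpow n
  have e1 : ∑' a : ℕ, (q ^ (2 * m + 1)) ^ a = (1 - q ^ (2 * m + 1))⁻¹ :=
    tsum_geometric_of_norm_lt_one hA
  have e2 : ∑' b : ℕ, (- q ^ (n + 1)) ^ b = (1 + q ^ (n + 1))⁻¹ := by
    rw [tsum_geometric_of_norm_lt_one hB, sub_neg_eq_add]
  have s1 : Summable (fun a : ℕ => ‖(q ^ (2 * m + 1)) ^ a‖) := by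
    simpa [norm_pow] using summable_geometric_of_lt_one (norm_nonneg _) hA
  have s2 : Summable (fun b : ℕ => ‖(- q ^ (n + 1)) ^ b‖) := by
    simpa only [norm_pow] using summable_geometric_of_lt_one (norm_nonneg _) hB
  have e3 := tsum_mul_tsum_of_summable_norm s1 s2
  rw [e1, e2] at e3
  have e4 : (-q) ^ (2 * (m + 1) * (n + 1) + (m + 1)) /
          ((1 + q ^ (n + 1)) * (1 - q ^ (2 * m + 1)))
      = (-q) ^ (2 * (m + 1) * (n + 1) + (m + 1)) *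
        ((1 - q ^ (2 * m + 1))⁻¹ * (1 + q ^ (n + 1))⁻¹) := by
    rw [div_eq_mul_inv, mul_inv]; ring
  simp only
  rw [e4, e3, ← tsum_mul_left]
  congr 1
  funext z
  obtain ⟨a, b⟩ := z
  simp only [eY]
  rw [neg_pow q, neg_pow (q ^ (n + 1))]
  have h5 : (-1 : ℂ) ^ (2 * (m + 1) * (n + 1) + (m + 1)) = - (-1 : ℂ) ^ m := by
    rw [pow_add, mul_assoc, pow_mul]; norm_num [pow_succ]
  rw [h5, ← pow_mul, ← pow_mul]
  have h6 : q ^ ((m + 1) * (2 * n + 3) + (2 * m + 1) * a + (n + 1) * b)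
      = q ^ (2 * (m + 1) * (n + 1) + (m + 1)) * q ^ ((2 * m + 1) * a) * q ^ ((n + 1) * b) := by
    rw [← pow_add, ← pow_add]
    congr 1
    ring
  rw [h6, pow_add (-1 : ℂ) m b]
  ring

/-- For every complex q with ∣q∣<1, let Y(q) be the sum over m,n≥1 of (-q)^(2mn+m)/((1+q^n)(1-q^(2m-1))). Then Y(-q) = -Y(q), i.e. Y is an odd function. -/
theorem result :
    ∀ q : ℂ, ‖q‖ < 1 →
      (∑' p : ℕ × ℕ, (-(-q)) ^ (2 * (p.1 + 1) * (p.2 + 1) + (p.1 + 1)) /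
          ((1 + (-q) ^ (p.2 + 1)) * (1 - (-q) ^ (2 * p.1 + 1))))
        = -(∑' p : ℕ × ℕ, (-q) ^ (2 * (p.1 + 1) * (p.2 + 1) + (p.1 + 1)) /
          ((1 + q ^ (p.2 + 1)) * (1 - q ^ (2 * p.1 + 1)))) := by
  intro q hq
  have hq' : ‖-q‖ < 1 := by rwa [norm_neg]
  rw [expand q hq, expand (-q) hq']
  have hc := core (norm_nonneg q) hq (C := 2) (by norm_num)
    (fun e => - q ^ e - (-q) ^ e)
    (by
      intro e he
      simp only [he.neg_pow]; ring)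
    (by
      intro e
      calc ‖- q ^ e - (-q) ^ e‖ ≤ ‖- q ^ e‖ + ‖(-q) ^ e‖ := norm_sub_le _ _
        _ = 2 * ‖q‖ ^ e := by rw [norm_neg, norm_pow, norm_pow, norm_neg]; ring)
  have hs : ∀ q : ℂ, ‖q‖ < 1 →
      Summable (fun x : (ℕ × ℕ) × (ℕ × ℕ) => (-1 : ℂ) ^ (x.1.1 + x.2.2) * (- q ^ (eY x))) := by
    intro q hq
    refine summable_of_bound (norm_nonneg q) hq zero_le_one le_eY (fun x => ?_)
    simp
  rw [eq_neg_iff_add_eq_zero, ← (hs _ hq').tsum_add (hs _ hq), ← hc]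
  congr 1
  funext x
  ring

end Pool.Agent.S16733
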