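import Pool.Statements.S16808
import Pool.Agent.H739R3.ExpPair4

set_option autoImplicit false
open Pool Pool.MP_493793_nt

namespace Pool.Agent.S16808

/-- The negation of the preceding statement: For each ε>0 and constants c_j,C_j>0 there is K: if 2≤N≤N'≤2N, F≥N, f smooth on [N,2N] with c_j F/N^j ≤ ∣f^(j)∣ ≤ C_j F/N^j for all j≥0, then ∣Σ_{N≤n≤N'} e(f(n))∣ ≤ K N^{1/2} F^ε. -/
theorem result :
    ¬ (∀ ε : ℝ, 0 < ε → ∀ c C : ℕ → ℝ, (∀ j, 0 < c j) → (∀ j, 0 < C j) →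
      ∃ K : ℝ, ∀ N N' F : ℝ, ∀ f : ℝ → ℝ,
        2 ≤ N → N ≤ N' → N' ≤ 2 * N → N ≤ F →
        ContDiffOn ℝ (⊤ : ℕ∞) f (Set.Icc N (2 * N)) →
        (∀ j : ℕ, ∀ x ∈ Set.Icc N (2 * N),
            c j * F / N ^ j ≤ |iteratedDerivWithin j f (Set.Icc N (2 * N)) x| ∧
            |iteratedDerivWithin j f (Set.Icc N (2 * N)) x| ≤ C j * F / N ^ j) →
        ‖∑ n ∈ Finset.Icc ⌈N⌉₊ ⌊N'⌋₊,
            Complex.exp (2 * (Real.pi : ℂ) * Complex.I * ((f (n : ℝ) : ℝ) : ℂ))‖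
          ≤ K * N ^ (1 / 2 : ℝ) * F ^ ε) := by
  intro H
  obtain ⟨K, hK⟩ := H (1 / 12) (by norm_num) Pool.Agent.H739R3.ExpPair.cc
    Pool.Agent.H739R3.ExpPair.CC Pool.Agent.H739R3.ExpPair.cc_pos
    Pool.Agent.H739R3.ExpPair.CC_pos
  obtain ⟨l, hl⟩ := exists_nat_gt (max 1 (K * (300 : ℝ) ^ (5 / 8 : ℝ)))
  have hl1 : (1 : ℝ) < l := lt_of_le_of_lt (le_max_left _ _) hl
  have hl2 : K * (300 : ℝ) ^ (5 / 8 : ℝ) < l := lt_of_le_of_lt (le_max_right _ _) hl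
  have hl1' : 1 ≤ l := by exact_mod_cast hl1.le
  set m : ℕ := l ^ 4 with hm
  have hm1 : 1 ≤ m := Nat.one_le_pow _ _ hl1'
  have hmr : (m : ℝ) = (l : ℝ) ^ 4 := by rw [hm]; push_cast; ring
  have hm1' : (1 : ℝ) ≤ m := by exact_mod_cast hm1
  set N : ℝ := ((300 * m ^ 2 : ℕ) : ℝ) with hN
  have hNval : N = 300 * (m : ℝ) ^ 2 := by rw [hN]; push_cast; ring
  have hN2 : 2 ≤ N := by rw [hNval]; nlinarith
  have hN0 : 0 < N := by linarith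
  have hF : N ≤ N ^ (3 / 2 : ℝ) := by
    calc N = N ^ (1 : ℝ) := (Real.rpow_one N).symm
      _ ≤ N ^ (3 / 2 : ℝ) := Real.rpow_le_rpow_of_exponent_le (by linarith) (by norm_num)
  have hB : ∀ s ∈ Set.Icc (0 : ℝ) 1,
      ‖Pool.Agent.H739R3.ExpPair.TT (300 * m ^ 2) (588 * m ^ 2) s‖
        ≤ K * N ^ (1 / 2 : ℝ) * (N ^ (3 / 2 : ℝ)) ^ (1 / 12 : ℝ) := by
    intro s hs
    have h1 := hK N ((588 * m ^ 2 - 1 : ℕ) : ℝ) (N ^ (3 / 2 : ℝ))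
      (Pool.Agent.H739R3.ExpPair.ff s) hN2
      (by
        rw [hN]
        have h1 : 1 ≤ m ^ 2 := Nat.one_le_pow _ _ hm1
        have : 300 * m ^ 2 ≤ 588 * m ^ 2 - 1 := by omega
        exact_mod_cast this)
      (by
        rw [hN]
        have : 588 * m ^ 2 - 1 ≤ 2 * (300 * m ^ 2) := by omega
        exact_mod_cast this)
      hF
      (Pool.Agent.H739R3.ExpPair.ff_contDiffOn N s hN0 hs.1)
      (fun j x hx => Pool.Agent.H739R3.ExpPair.ff_bounds N s hN2 hs.1 hs.2 j x hx)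
    rw [hN, Nat.ceil_natCast, Nat.floor_natCast, ← hN] at h1
    have e : Finset.Icc (300 * m ^ 2) (588 * m ^ 2 - 1) = Finset.Ico (300 * m ^ 2) (588 * m ^ 2) := by
      have h1 : 1 ≤ m ^ 2 := Nat.one_le_pow _ _ hm1
      ext k
      simp only [Finset.mem_Icc, Finset.mem_Ico]
      omega
    rw [e] at h1
    exact h1
  have key := Pool.Agent.H739R3.ExpPair.key_bound m hm1 _ hB
  have hsq : √(m : ℝ) = (l : ℝ) ^ 2 := by
    rw [hmr, show (l : ℝ) ^ 4 = ((l : ℝ) ^ 2) ^ 2 by ring]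
    exact Real.sqrt_sq (by positivity)
  have hpow : N ^ (1 / 2 : ℝ) * (N ^ (3 / 2 : ℝ)) ^ (1 / 12 : ℝ)
      = (300 : ℝ) ^ (5 / 8 : ℝ) * (l : ℝ) ^ 5 := by
    rw [← Real.rpow_mul hN0.le, ← Real.rpow_add hN0]
    rw [show (1 / 2 + 3 / 2 * (1 / 12) : ℝ) = 5 / 8 by norm_num]
    rw [hNval, hmr, show (300 : ℝ) * ((l : ℝ) ^ 4) ^ 2 = 300 * (l : ℝ) ^ 8 by ring]
    rw [Real.mul_rpow (by norm_num) (by positivity)]
    congr 1
    rw [← Real.rpow_natCast (l : ℝ) 8, ← Real.rpow_mul (by positivity),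
      ← Real.rpow_natCast (l : ℝ) 5]
    norm_num
  rw [hsq, hmr, mul_assoc, hpow] at key
  have h5 : (0 : ℝ) < (l : ℝ) ^ 5 := by positivity
  have h6 : (l : ℝ) * (l : ℝ) ^ 5 ≤ (K * (300 : ℝ) ^ (5 / 8 : ℝ)) * (l : ℝ) ^ 5 := by
    calc (l : ℝ) * (l : ℝ) ^ 5 = (l : ℝ) ^ 4 * (l : ℝ) ^ 2 := by ring
      _ ≤ K * ((300 : ℝ) ^ (5 / 8 : ℝ) * (l : ℝ) ^ 5) := key
      _ = _ := by ring
  have h7 := le_of_mul_le_mul_right h6 h5
  linarith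

end Pool.Agent.S16808
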