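import Pool.Statements.S16884
import Pool.Agent.H421Pyth.Main

set_option autoImplicit false
open Pool Pool.MP_4dc1c3_nt

namespace Pool.Agent.S16884

open Pool.Agent.H421Pyth

theorem t_real (w : ℂ) (hw : ‖w‖ = 1) : (starRingEnd ℂ) (w + w⁻¹) = w + w⁻¹ := by
  have h1 : w⁻¹ = (starRingEnd ℂ) w := Complex.inv_eq_conj hw
  rw [h1, map_add, Complex.conj_conj, add_comm]

theorem norm_root {w : ℂ} {n : ℕ} (hn : n ≠ 0) (hw : w ^ n = 1) : ‖w‖ = 1 :=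
  Complex.norm_eq_one_of_pow_eq_one hw hn

theorem t_mem {K : IntermediateField ℚ ℂ} {w : ℂ} (hw : w ≠ 0) (h : w + w⁻¹ ∈ K) (k : ℕ) :
    w ^ k + (w ^ k)⁻¹ ∈ K := by
  have key : ∀ k : ℕ, (w ^ k + (w ^ k)⁻¹ ∈ K) ∧ (w ^ (k + 1) + (w ^ (k + 1))⁻¹ ∈ K) := by
    intro k
    induction k with
    | zero =>
      constructor
      · have : w ^ 0 + (w ^ 0)⁻¹ = ((2 : ℕ) : ℂ) := by norm_num
        rw [this]; exact natCast_mem K 2
      · simpa using h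
    | succ k ih =>
      refine ⟨ih.2, ?_⟩
      have : w ^ (k + 1 + 1) + (w ^ (k + 1 + 1))⁻¹
          = (w ^ (k + 1) + (w ^ (k + 1))⁻¹) * (w + w⁻¹) - (w ^ k + (w ^ k)⁻¹) := by
        field_simp
        ring
      rw [this]
      exact sub_mem (mul_mem ih.2 h) ih.1
  exact (key k).1

/-- The negation of the preceding statement: There is an infinite, divisibility-directed set S of positive integers and a number m such that, in the field generated by all ζ+ζ⁻¹ with ζ a primitive n-th root of unity for n in S, every algebraic integer that is a sum of squares of integers is a sum of m such squares. -/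
theorem result :
    ¬ (∃ S : Set ℕ, S.Infinite ∧ (∀ n ∈ S, 0 < n) ∧
      (∀ a ∈ S, ∀ b ∈ S, ∃ c ∈ S, a ∣ c ∧ b ∣ c) ∧
      ∃ K : IntermediateField ℚ ℂ,
        K = IntermediateField.adjoin ℚ
          {z : ℂ | ∃ n ∈ S, ∃ ζ : ℂ, IsPrimitiveRoot ζ n ∧ z = ζ + ζ⁻¹} ∧
        ∃ m : ℕ, ∀ x : ℂ, x ∈ K → IsIntegral ℤ x →
          (∃ k : ℕ, ∃ f : Fin k → ℂ, (∀ i, f i ∈ K ∧ IsIntegral ℤ (f i)) ∧
              x = ∑ i, f i ^ 2) →
          ∃ g : Fin m → ℂ, (∀ i, g i ∈ K ∧ IsIntegral ℤ (g i)) ∧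
              x = ∑ i, g i ^ 2) := by
  rintro ⟨S, hSinf, hSpos, hSdir, K, hK, m, hm⟩
  have hSne : S.Nonempty := hSinf.nonempty
  -- elements of K lie in a real part of a cyclotomic field
  have hloc : ∀ x ∈ K, ∃ n ∈ S, x ∈ CF n ∧ (starRingEnd ℂ) x = x := by
    intro x hx
    rw [hK] at hx
    have hmono : ∀ {n c : ℕ} {x : ℂ}, c ∈ S → n ∣ c → x ∈ CF n → x ∈ CF c :=
      fun hc hd hx => CF_mono (hSpos _ hc).ne' hd hx
    induction hx using IntermediateField.adjoin_induction with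
    | mem z hz =>
      obtain ⟨n, hn, ζ, hζ, rfl⟩ := hz
      have hn0 := (hSpos n hn).ne'
      refine ⟨n, hn, ?_, t_real ζ (norm_root hn0 hζ.pow_eq_one)⟩
      have : NeZero n := ⟨hn0⟩
      obtain ⟨i, _, hi⟩ := (zt_prim hn0).eq_pow_of_pow_eq_one hζ.pow_eq_one
      have h1 : ζ ∈ CF n := by
        rw [← hi]
        exact pow_mem (IntermediateField.mem_adjoin_simple_self ℚ _) _
      exact add_mem h1 (inv_mem h1)
    | algebraMap q =>
      obtain ⟨n, hn⟩ := hSne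
      refine ⟨n, hn, IntermediateField.algebraMap_mem _ _, ?_⟩
      simp
    | add x y _ _ ihx ihy =>
      obtain ⟨n, hn, h1, h2⟩ := ihx
      obtain ⟨n', hn', h1', h2'⟩ := ihy
      obtain ⟨c, hc, hd, hd'⟩ := hSdir n hn n' hn'
      exact ⟨c, hc, add_mem (hmono hc hd h1) (hmono hc hd' h1'), by rw [map_add, h2, h2']⟩
    | inv x _ ihx =>
      obtain ⟨n, hn, h1, h2⟩ := ihx
      exact ⟨n, hn, inv_mem h1, by rw [map_inv₀, h2]⟩
    | mul x y _ _ ihx ihy =>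
      obtain ⟨n, hn, h1, h2⟩ := ihx
      obtain ⟨n', hn', h1', h2'⟩ := ihy
      obtain ⟨c, hc, hd, hd'⟩ := hSdir n hn n' hn'
      exact ⟨c, hc, mul_mem (hmono hc hd h1) (hmono hc hd' h1'), by rw [map_mul, h2, h2']⟩
  -- finite families
  have hfam : ∀ (n₀ : ℕ), n₀ ∈ S → ∀ (k : ℕ) (g : Fin k → ℂ), (∀ i, g i ∈ K) →
      ∃ n ∈ S, n₀ ∣ n ∧ ∀ i, g i ∈ CF n ∧ (starRingEnd ℂ) (g i) = g i := by
    intro n₀ hn₀ k
    induction k with
    | zero => exact fun g _ => ⟨n₀, hn₀, dvd_rfl, fun i => i.elim0⟩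
    | succ k ih =>
      intro g hg
      obtain ⟨n, hn, hd, h⟩ := ih (fun i => g i.succ) (fun i => hg _)
      obtain ⟨n', hn', h1, h2⟩ := hloc (g 0) (hg 0)
      obtain ⟨c, hc, hd1, hd2⟩ := hSdir n hn n' hn'
      refine ⟨c, hc, hd.trans hd1, fun i => ?_⟩
      refine Fin.cases ?_ (fun i => ?_) i
      · exact ⟨CF_mono (hSpos _ hc).ne' hd2 h1, h2⟩
      · exact ⟨CF_mono (hSpos _ hc).ne' hd1 (h i).1, (h i).2⟩
  -- the main step
  have hmain : ∀ (n₀ : ℕ), n₀ ∈ S → ∀ d : ℕ,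
      (∀ n ∈ S, n₀ ∣ n → (d = 1 ∧ 2 * 4 ^ (m + 2) < n₀ / R n₀) ∨
      ∃ p, p.Prime ∧ p ∣ n₀ ∧ d = n₀ / p ∧ ¬ p ∣ n / p ∧ 2 * 4 ^ (m + 2) < p ∧
        64 * (m + 2) ^ 3 + 18 * (m + 2) + 1 < p) → False := by
    intro n₀ hn₀ d hcase
    have hn₀0 := (hSpos n₀ hn₀).ne'
    have hz := zt_prim hn₀0
    have hz0 : zt n₀ ≠ 0 := hz.ne_zero hn₀0
    have hgen : zt n₀ + (zt n₀)⁻¹ ∈ K := by
      rw [hK]
      exact IntermediateField.subset_adjoin _ _ ⟨n₀, hn₀, zt n₀, hz, rfl⟩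
    set t : Fin (m + 2) → ℂ := fun i =>
      (zt n₀ ^ d) ^ 4 ^ (i : ℕ) + ((zt n₀ ^ d) ^ 4 ^ (i : ℕ))⁻¹ with ht
    have htK : ∀ i, t i ∈ K := by
      intro i
      rw [ht]
      simp only
      rw [← pow_mul]
      exact t_mem hz0 hgen _
    have hti : ∀ i, IsIntegral ℤ (t i) := by
      intro i
      have h1 : IsIntegral ℤ (zt n₀) := hz.isIntegral (Nat.pos_of_ne_zero hn₀0)
      have h2 : IsIntegral ℤ (zt n₀)⁻¹ := (hz.inv).isIntegral (Nat.pos_of_ne_zero hn₀0)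
      rw [ht]
      simp only
      rw [← inv_pow, ← inv_pow]
      exact ((h1.pow _).pow _).add ((h2.pow _).pow _)
    obtain ⟨g, hg, hgx⟩ := hm (∑ i, t i ^ 2) (sum_mem fun i _ => pow_mem (htK i) 2)
      (IsIntegral.sum _ fun i _ => (hti i).pow 2) ⟨m + 2, t, fun i => ⟨htK i, hti i⟩, rfl⟩
    obtain ⟨n, hn, hd, h⟩ := hfam n₀ hn₀ m g (fun i => (hg i).1)
    have := main_field (hSpos n hn).ne' g (fun j => (h j).1) (fun j => (hg j).2)
      (fun j => (h j).2) hd d hgx.symm (by omega) (hcase n hn hd)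
    omega
  by_cases hB : ∃ B, ∀ n ∈ S, n / R n ≤ B
  · obtain ⟨B, hB⟩ := hB
    obtain ⟨n₀, hn₀, p, hp, hpC, hpn⟩ := exists_large_prime hSinf hSpos B
      (B + 2 * 4 ^ (m + 2) + (64 * (m + 2) ^ 3 + 18 * (m + 2) + 1)) hB
    refine hmain n₀ hn₀ (n₀ / p) fun n hn hd => Or.inr ⟨p, hp, hpn, rfl, ?_, ?_, ?_⟩
    · exact not_dvd_div (hSpos n hn).ne' hp (hpn.trans hd) (hB n hn) (by omega)
    · omega
    · omega
  · push Not at hB
    obtain ⟨n₀, hn₀, hlarge⟩ := hB (2 * 4 ^ (m + 2))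
    exact hmain n₀ hn₀ 1 fun n _ _ => Or.inl ⟨rfl, hlarge⟩

end Pool.Agent.S16884
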