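import Pool.Statements.S16915
import Pool.Agent.H411R3.Ladder

set_option autoImplicit false
open MeasureTheory
open Pool Pool.MP_4fa6ed_nt

namespace Pool.Agent.S16915

open Pool.Agent.H411R3.Ladder

/-- ladders: `x_j / x_i = (y+1)/y` with `b ∣ y`, `a ∣ y+1`, `y` large. -/
lemma ladder (a b : ℤ) (ha : 0 < a) (hb : 0 < b) (hab : IsCoprime a b) (k : ℕ) (Y : ℤ) :
    ∃ x : ℕ → ℤ, (∀ i < k, 0 < x i) ∧ ∀ i j, i < j → j < k →
      ∃ s y : ℤ, 0 < s ∧ Y ≤ y ∧ x i = s * y ∧ x j = s * (y + 1) ∧ b ∣ y ∧ a ∣ y + 1 := by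
  obtain ⟨u, hu⟩ := exists_good a b ha hb hab k (max Y 0)
  refine ⟨fun i => a ^ i * b ^ (k - 1 - i) * u i, ?_, ?_⟩
  · intro i hi
    have := hu.pos i hi
    positivity
  · intro i j hij hj
    have hg := hu.gpos i j hij hj
    obtain ⟨q, hq⟩ := hu.gdvd i j hij hj
    have hl := hu.glarge i j hij hj
    have hui := hu.pos i (by omega)
    have huj := hu.pos j hj
    have hqY : max Y 0 ≤ q := by
      rw [hq, mul_comm (g a b u i j) q] at hl
      exact le_of_mul_le_mul_right hl hg
    have hq0 : 0 ≤ q := (le_max_right _ _).trans hqY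
    have hb1 : 1 ≤ b ^ (j - i) := one_le_pow₀ (by omega)
    obtain ⟨m, hm⟩ : ∃ m, j - i = m + 1 := ⟨j - i - 1, by omega⟩
    have hy1 : (b ^ (j - i) * q + 1) * g a b u i j = a ^ (j - i) * u j := by
      have : b ^ (j - i) * q * g a b u i j = b ^ (j - i) * u i := by rw [hq]; ring
      have e : g a b u i j = a ^ (j - i) * u j - b ^ (j - i) * u i := rfl
      calc (b ^ (j - i) * q + 1) * g a b u i j = b ^ (j - i) * q * g a b u i j + g a b u i j := by ring
        _ = b ^ (j - i) * u i + g a b u i j := by rw [this]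
        _ = _ := by rw [e]; ring
    refine ⟨a ^ i * b ^ (k - 1 - j) * g a b u i j, b ^ (j - i) * q, by positivity, ?_, ?_, ?_, ?_, ?_⟩
    · have : Y ≤ q := (le_max_left _ _).trans hqY
      nlinarith
    · have e : k - 1 - i = (k - 1 - j) + (j - i) := by omega
      simp only []
      rw [e, pow_add]
      nth_rewrite 1 [hq]
      ring
    · have e : a ^ j = a ^ i * a ^ (j - i) := by rw [← pow_add]; congr 1; omega
      simp only []
      rw [e]
      calc a ^ i * a ^ (j - i) * b ^ (k - 1 - j) * u j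
          = a ^ i * b ^ (k - 1 - j) * (a ^ (j - i) * u j) := by ring
        _ = a ^ i * b ^ (k - 1 - j) * ((b ^ (j - i) * q + 1) * g a b u i j) := by rw [hy1]
        _ = _ := by ring
    · rw [hm, pow_succ]
      exact Dvd.intro (b ^ m * q) (by ring)
    · -- a is coprime to g
      have hcop : IsCoprime a (g a b u i j) := by
        have c1a : IsCoprime (u i) a := IsCoprime.of_mul_right_left (hu.cop i (by omega))
        have h1 : IsCoprime (-(b ^ (m + 1) * u i)) a := by
          apply IsCoprime.neg_left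
          apply IsCoprime.mul_left
          · exact hab.symm.pow_left
          · exact c1a
        have e : g a b u i j = -(b ^ (m + 1) * u i) + a * (a ^ m * u j) := by
          unfold g; rw [hm]; ring
        rw [e]
        exact (h1.add_mul_left_left _).symm
      apply hcop.dvd_of_dvd_mul_right
      rw [hy1, hm, pow_succ]
      exact Dvd.intro (a ^ m * u j) (by ring)

lemma pos_of_mul_pos_left' {a b : ℤ} (h : 0 < a * b) (ha : 0 < a) : 0 < b := by
  by_contra hb
  have : a * b ≤ 0 := mul_nonpos_of_nonneg_of_nonpos ha.le (not_lt.mp hb)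
  linarith

/-- measure pigeonhole -/
lemma pigeon {X : Type} [MeasurableSpace X] (μ : Measure X) [IsProbabilityMeasure μ]
    (E : ℕ → Set X) (k : ℕ) (m : ENNReal) (hE : ∀ i < k, MeasurableSet (E i))
    (hm : ∀ i < k, μ (E i) = m) (hk : 1 < k * m) :
    ∃ i j, i < j ∧ j < k ∧ 0 < μ (E i ∩ E j) := by
  by_contra hcon
  push Not at hcon
  have hnull : ∀ i j, i < j → j < k → μ (E i ∩ E j) = 0 := fun i j hij hj =>
    le_antisymm (hcon i j hij hj) bot_le
  have hpd : Set.Pairwise (↑(Finset.range k) : Set ℕ) (Function.onFun (AEDisjoint μ) E) := by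
    intro i hi j hj hne
    have hi' : i < k := by simpa using hi
    have hj' : j < k := by simpa using hj
    rcases lt_or_gt_of_ne hne with h | h
    · exact hnull i j h hj'
    · show μ (E i ∩ E j) = 0
      rw [Set.inter_comm]
      exact hnull j i h hi'
  have h1 := measure_biUnion_finset₀ (μ := μ) (s := Finset.range k) (f := E) hpd
    (fun i hi => (hE i (Finset.mem_range.mp hi)).nullMeasurableSet)
  have h2 : ∑ i ∈ Finset.range k, μ (E i) = k * m := by
    rw [Finset.sum_congr rfl (fun i hi => hm i (Finset.mem_range.mp hi))]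
    simp
  have h3 : μ (⋃ i ∈ Finset.range k, E i) ≤ 1 := prob_le_one
  rw [h1, h2] at h3
  exact absurd hk (not_lt.mpr h3)

/-- recurrence along a ladder -/
lemma recur {X : Type} [MeasurableSpace X] (μ : Measure X) [IsProbabilityMeasure μ]
    (T : ℚ → X → X)
    (hmul : ∀ q r : ℚ, 0 < q → 0 < r → T (q * r) = T q ∘ T r)
    (hmp : ∀ q : ℚ, 0 < q → MeasurePreserving (T q) μ μ)
    (A : Set X) (hA : MeasurableSet A) (hpos : 0 < μ A) (a b : ℤ) (ha : 0 < a) (hb : 0 < b)
    (hab : IsCoprime a b) (Y : ℤ) (hY : 0 < Y) :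
    ∃ y : ℤ, Y ≤ y ∧ b ∣ y ∧ a ∣ y + 1 ∧
      0 < μ (A ∩ T (((y : ℚ) + 1) / y) ⁻¹' A) ∧ 0 < μ (A ∩ T ((y : ℚ) / (y + 1)) ⁻¹' A) := by
  obtain ⟨k, hk⟩ := ENNReal.exists_nat_mul_gt (ne_of_gt hpos) (ENNReal.one_ne_top)
  obtain ⟨x, hx, hlad⟩ := ladder a b ha hb hab k Y
  have hxq : ∀ i < k, (0 : ℚ) < (x i : ℚ) := fun i hi => by exact_mod_cast hx i hi
  obtain ⟨i, j, hij, hj, hint⟩ := pigeon μ (fun i => T (x i : ℚ) ⁻¹' A) k (μ A)
    (fun i hi => (hmp _ (hxq i hi)).measurable hA)
    (fun i hi => (hmp _ (hxq i hi)).measure_preimage hA.nullMeasurableSet) hk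
  obtain ⟨s, y, hs, hyY, hxi, hxj, hby, hay⟩ := hlad i j hij hj
  have hy : 0 < y := lt_of_lt_of_le hY hyY
  have hyq : (0 : ℚ) < y := by exact_mod_cast hy
  have hsq : (0 : ℚ) < s := by exact_mod_cast hs
  have hq1 : (0 : ℚ) < ((y : ℚ) + 1) / y := by positivity
  have hq2 : (0 : ℚ) < (y : ℚ) / (y + 1) := by positivity
  have e1 : (x j : ℚ) = (((y : ℚ) + 1) / y) * (x i : ℚ) := by
    rw [hxi, hxj]; push_cast; field_simp
  have e2 : (x i : ℚ) = ((y : ℚ) / (y + 1)) * (x j : ℚ) := by
    rw [hxi, hxj]; push_cast; field_simp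
  have hij' : i < k := by omega
  refine ⟨y, hyY, hby, hay, ?_, ?_⟩
  · have hT : T (x j : ℚ) = T (((y : ℚ) + 1) / y) ∘ T (x i : ℚ) := by
      rw [← hmul _ _ hq1 (hxq i hij'), ← e1]
    have hset : T (x i : ℚ) ⁻¹' A ∩ T (x j : ℚ) ⁻¹' A
        = T (x i : ℚ) ⁻¹' (A ∩ T (((y : ℚ) + 1) / y) ⁻¹' A) := by
      rw [hT]; rfl
    have hmeas : MeasurableSet (A ∩ T (((y : ℚ) + 1) / y) ⁻¹' A) := hA.inter ((hmp _ hq1).measurable hA)
    rw [hset, (hmp _ (hxq i hij')).measure_preimage hmeas.nullMeasurableSet] at hint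
    exact hint
  · have hT : T (x i : ℚ) = T ((y : ℚ) / (y + 1)) ∘ T (x j : ℚ) := by
      rw [← hmul _ _ hq2 (hxq j hj), ← e2]
    have hset : T (x i : ℚ) ⁻¹' A ∩ T (x j : ℚ) ⁻¹' A
        = T (x j : ℚ) ⁻¹' (A ∩ T ((y : ℚ) / (y + 1)) ⁻¹' A) := by
      rw [hT, Set.inter_comm]; rfl
    have hmeas : MeasurableSet (A ∩ T ((y : ℚ) / (y + 1)) ⁻¹' A) := hA.inter ((hmp _ hq2).measurable hA)
    rw [hset, (hmp _ (hxq j hj)).measure_preimage hmeas.nullMeasurableSet] at hint
    exact hint

lemma gcd_facts {a b d : ℤ} (ha : 0 < a)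
    (hgcd : ∀ k : ℤ, k ∣ a → k ∣ b → k ∣ d → IsUnit k) (hdvd : a ∣ b * d) :
    ∃ a1 a2 : ℤ, 0 < a1 ∧ 0 < a2 ∧ IsCoprime a1 a2 ∧ a1 ∣ b ∧ a2 ∣ d ∧ a ∣ a1 * a2 := by
  refine ⟨Int.gcd a b, Int.gcd a d, ?_, ?_, ?_, Int.gcd_dvd_right a b, Int.gcd_dvd_right a d, ?_⟩
  · have : 0 < Int.gcd a b := Int.gcd_pos_of_ne_zero_left b (ne_of_gt ha)
    exact_mod_cast this
  · have : 0 < Int.gcd a d := Int.gcd_pos_of_ne_zero_left d (ne_of_gt ha)
    exact_mod_cast this
  · rw [Int.isCoprime_iff_gcd_eq_one]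
    have h1 : IsUnit ((Int.gcd (Int.gcd a b : ℤ) (Int.gcd a d : ℤ) : ℕ) : ℤ) := by
      apply hgcd
      · exact (Int.gcd_dvd_left _ _).trans (Int.gcd_dvd_left a b)
      · exact (Int.gcd_dvd_left _ _).trans (Int.gcd_dvd_right a b)
      · exact (Int.gcd_dvd_right _ _).trans (Int.gcd_dvd_right a d)
    rcases Int.isUnit_iff.mp h1 with h | h
    · exact_mod_cast h
    · exfalso; omega
  · have h1 : Int.gcd a (b * d) ∣ Int.gcd a b * Int.gcd a d := by
      have := Nat.gcd_mul_right_dvd_mul_gcd a.natAbs b.natAbs d.natAbs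
      simpa [Int.gcd, Int.natAbs_mul] using this
    have h2 : Int.gcd a (b * d) = a.natAbs := by
      rw [Int.gcd_eq_natAbs_left_iff_dvd]
      exact hdvd
    rw [h2] at h1
    have h3 : (a.natAbs : ℤ) ∣ ((Int.gcd a b * Int.gcd a d : ℕ) : ℤ) := by exact_mod_cast h1
    rw [Int.natAbs_dvd] at h3
    simpa using h3

/-- If a≥1, gcd(a,b,d)=1, and b=d or a divides bd, then for every measure-preserving action of the positive rationals under multiplication and every positive-measure set A, some ratio (an+b)/(an+d) with n≥1 and both terms positive returns A to itself in positive measure. -/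
theorem result :
    ∀ (a : ℕ) (b d : ℤ), 0 < a →
      (∀ k : ℤ, k ∣ (a : ℤ) → k ∣ b → k ∣ d → IsUnit k) →
      (b = d ∨ (a : ℤ) ∣ b * d) →
      ∀ (X : Type) [MeasurableSpace X] (μ : Measure X) [IsProbabilityMeasure μ]
        (T : ℚ → X → X),
        T 1 = id →
        (∀ q r : ℚ, 0 < q → 0 < r → T (q * r) = T q ∘ T r) →
        (∀ q : ℚ, 0 < q → MeasurePreserving (T q) μ μ) →
        ∀ A : Set X, MeasurableSet A → 0 < μ A →
          ∃ n : ℕ, 0 < n ∧ 0 < (a : ℤ) * n + b ∧ 0 < (a : ℤ) * n + d ∧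
            0 < μ (A ∩ T (((a : ℚ) * n + b) / ((a : ℚ) * n + d)) ⁻¹' A) := by
  intro a b d ha hgcd hbd X _ μ _ T hT1 hmul hmp A hA hpos
  have haz : (0 : ℤ) < a := by exact_mod_cast ha
  rcases eq_or_ne b d with hbd' | hne
  · -- trivial ratio
    subst hbd'
    refine ⟨(|b| + 1).toNat, by have := abs_nonneg b; omega, ?_, ?_, ?_⟩
    · rw [Int.toNat_of_nonneg (by positivity)]
      have := neg_abs_le b
      nlinarith [abs_nonneg b]
    · rw [Int.toNat_of_nonneg (by positivity)]
      have := neg_abs_le b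
      nlinarith [abs_nonneg b]
    · have hpos' : (0 : ℤ) < (a : ℤ) * ((|b| + 1).toNat : ℤ) + b := by
        rw [Int.toNat_of_nonneg (by positivity)]
        have := neg_abs_le b
        nlinarith [abs_nonneg b]
      have hne0 : ((a : ℚ) * ((|b| + 1).toNat : ℚ) + b) ≠ 0 := by
        have : ((((a : ℤ) * ((|b| + 1).toNat : ℤ) + b : ℤ)) : ℚ) ≠ 0 := by
          exact_mod_cast ne_of_gt hpos'
        push_cast at this
        exact this
      rw [div_self hne0, hT1]
      simpa using hpos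
  · have hdvd : (a : ℤ) ∣ b * d := by
      rcases hbd with h | h
      · exact absurd h hne
      · exact h
    obtain ⟨a1, a2, ha1, ha2, hcop, hb1, hd2, haa⟩ := gcd_facts haz hgcd hdvd
    rcases lt_or_gt_of_ne hne with hlt | hgt
    · -- b < d : ratio y/(y+1), an+b = (d-b) y
      set h : ℤ := d - b with hh
      have hhpos : 0 < h := by omega
      obtain ⟨y, hyY, hby, hay, -, hμ⟩ := recur μ T hmul hmp A hA hpos a2 a1 ha2 ha1 hcop.symm
        (|b| + a + 1) (by positivity)
      -- a1 ∣ y, a2 ∣ y + 1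
      have hdiv : (a : ℤ) ∣ h * y - b := by
        apply haa.trans
        apply hcop.mul_dvd
        · have e : h * y - b = d * y - b * (y + 1) := by rw [hh]; ring
          rw [e]
          exact dvd_sub (Dvd.dvd.mul_left hby d) (Dvd.dvd.mul_right hb1 _)
        · have e : h * y - b = d * y - b * (y + 1) := by rw [hh]; ring
          rw [e]
          exact dvd_sub (Dvd.dvd.mul_right hd2 y) (Dvd.dvd.mul_left hay b)
      obtain ⟨n, hn⟩ := hdiv
      have hb0 := le_abs_self b
      have hb0' := abs_nonneg b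
      have hy0 : 0 < y := by linarith
      have hhy : y ≤ h * y := by nlinarith
      have hn0 : 0 < n := by
        have : 0 < (a : ℤ) * n := by rw [← hn]; linarith
        exact pos_of_mul_pos_left' this haz
      have hanb : (a : ℤ) * n + b = h * y := by linarith
      have hand : (a : ℤ) * n + d = h * (y + 1) := by rw [← hn, hh]; ring
      refine ⟨n.toNat, by omega, ?_, ?_, ?_⟩
      · rw [Int.toNat_of_nonneg hn0.le, hanb]; positivity
      · rw [Int.toNat_of_nonneg hn0.le, hand]; positivity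
      · have hnq : ((n.toNat : ℕ) : ℚ) = (n : ℚ) := by
          have := Int.toNat_of_nonneg hn0.le
          exact_mod_cast this
        have e1 : (a : ℚ) * (n : ℚ) + b = (h : ℚ) * y := by exact_mod_cast hanb
        have e2 : (a : ℚ) * (n : ℚ) + d = (h : ℚ) * (y + 1) := by exact_mod_cast hand
        have hhq : (h : ℚ) ≠ 0 := by exact_mod_cast ne_of_gt hhpos
        rw [hnq, e1, e2, mul_div_mul_left _ _ hhq]
        exact hμ
    · set h : ℤ := b - d with hh
      have hhpos : 0 < h := by omega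
      obtain ⟨y, hyY, hby, hay, hμ, -⟩ := recur μ T hmul hmp A hA hpos a1 a2 ha1 ha2 hcop
        (|d| + a + 1) (by positivity)
      -- a2 ∣ y, a1 ∣ y + 1
      have hdiv : (a : ℤ) ∣ h * y - d := by
        apply haa.trans
        apply hcop.mul_dvd
        · have e : h * y - d = b * y - d * (y + 1) := by rw [hh]; ring
          rw [e]
          exact dvd_sub (Dvd.dvd.mul_right hb1 y) (Dvd.dvd.mul_left hay d)
        · have e : h * y - d = b * y - d * (y + 1) := by rw [hh]; ring
          rw [e]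
          exact dvd_sub (Dvd.dvd.mul_left hby b) (Dvd.dvd.mul_right hd2 _)
      obtain ⟨n, hn⟩ := hdiv
      have hb0 := le_abs_self d
      have hb0' := abs_nonneg d
      have hy0 : 0 < y := by linarith
      have hhy : y ≤ h * y := by nlinarith
      have hn0 : 0 < n := by
        have : 0 < (a : ℤ) * n := by rw [← hn]; linarith
        exact pos_of_mul_pos_left' this haz
      have hand : (a : ℤ) * n + d = h * y := by linarith
      have hanb : (a : ℤ) * n + b = h * (y + 1) := by rw [← hn, hh]; ring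
      refine ⟨n.toNat, by omega, ?_, ?_, ?_⟩
      · rw [Int.toNat_of_nonneg hn0.le, hanb]; positivity
      · rw [Int.toNat_of_nonneg hn0.le, hand]; positivity
      · have hnq : ((n.toNat : ℕ) : ℚ) = (n : ℚ) := by
          have := Int.toNat_of_nonneg hn0.le
          exact_mod_cast this
        have e1 : (a : ℚ) * (n : ℚ) + d = (h : ℚ) * y := by exact_mod_cast hand
        have e2 : (a : ℚ) * (n : ℚ) + b = (h : ℚ) * (y + 1) := by exact_mod_cast hanb
        have hhq : (h : ℚ) ≠ 0 := by exact_mod_cast ne_of_gt hhpos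
        rw [hnq, e1, e2, mul_div_mul_left _ _ hhq]
        exact hμ

end Pool.Agent.S16915
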