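import Pool.Statements.S17043
import Pool.Agent.H493R3.GGd

set_option autoImplicit false
open Pool Pool.MP_590852_nt

namespace Pool.Agent.S17043

/-- Every real x with 0 < x ≤ 1 equals g₁ + g₂, where g₁ and g₂ lie in (0,1) and the continued fraction partial quotients of each (computed via the Gauss map) tend to infinity. -/
theorem result :
    ∀ x : ℝ, 0 < x → x ≤ 1 →
      ∃ g₁ g₂ : ℝ,
        g₁ ∈ Set.Ioo (0 : ℝ) 1 ∧ g₂ ∈ Set.Ioo (0 : ℝ) 1 ∧
        Filter.Tendsto (fun n : ℕ => ⌊1 / ((fun y : ℝ => Int.fract (1 / y))^[n] g₁)⌋)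
          Filter.atTop Filter.atTop ∧
        Filter.Tendsto (fun n : ℕ => ⌊1 / ((fun y : ℝ => Int.fract (1 / y))^[n] g₂)⌋)
          Filter.atTop Filter.atTop ∧
        x = g₁ + g₂ := by
  intro x h0 h1
  by_cases hx : Irrational x
  · refine Pool.Agent.H493R3.GG.irr_case hx h0 (lt_of_le_of_ne h1 ?_)
    intro h
    exact hx ⟨1, by rw [h]; norm_num⟩
  · simp only [Irrational, Set.mem_range, not_not] at hx
    obtain ⟨r, rfl⟩ := hx
    exact Pool.Agent.H493R3.GG.rat_case r h0 h1

end Pool.Agent.S17043
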