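import Pool.Statements.S17048
import Pool.Agent.H352R3.FK.Final

set_option autoImplicit false
open Pool Pool.MP_5968ce_nt

namespace Pool.Agent.S17048

/-- The negation of the preceding statement: For every ε>0 and all large k, any k consecutive integers n+1..n+k include one whose part made of primes below k is at most εk; i.e. max over n of min over i of A(n+i,k) is o(k). -/
theorem result :
    ¬ (∀ ε : ℝ, 0 < ε → ∃ K : ℕ, ∀ k : ℕ, K ≤ k → ∀ n : ℕ,
      ∃ i ∈ Finset.Icc 1 k,
        ((∏ p ∈ (Finset.range k).filter Nat.Prime, p ^ ((n + i).factorization p) : ℕ) : ℝ)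
          ≤ ε * (k : ℝ)) := by
  intro h
  obtain ⟨D, hD, t0, hmain⟩ := Pool.Agent.H352R3.FK.main
  have hD0 : (0 : ℝ) < D := by exact_mod_cast hD
  obtain ⟨K, hK⟩ := h (1 / D) (by positivity)
  set t := max t0 K with ht
  obtain ⟨n, hn⟩ := hmain t (le_max_left _ _)
  have hKt : K ≤ D * t := (le_max_right t0 K).trans (Nat.le_mul_of_pos_left t hD)
  obtain ⟨i, hi, hle⟩ := hK (D * t) hKt n
  have h1 := hn i hi
  have h2 : (1 / (D : ℝ)) * ((D * t : ℕ) : ℝ) = t := by
    push_cast
    field_simp
  rw [h2] at hle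
  have h3 : ∏ p ∈ (Finset.range (D * t)).filter Nat.Prime, p ^ ((n + i).factorization p) ≤ t := by
    exact_mod_cast hle
  omega

end Pool.Agent.S17048
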