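import Pool.Statements.S17143

set_option autoImplicit false
open Pool Pool.MP_6023ab_nt

namespace Pool.Agent.S17143

open MvPolynomial

/-- The square root of two as a constant polynomial in two variables. -/
noncomputable def q2 : MvPolynomial (Fin 2) ℝ := C (Real.sqrt 2)

lemma q2_sq : q2 ^ 2 = 2 := by
  unfold q2
  rw [← C_pow, Real.sq_sqrt (by norm_num)]
  rfl

/-- Four cubic forms over the field generated by the square root of two. -/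
noncomputable def ff : Fin 4 → MvPolynomial (Fin 2) ℝ :=
  ![X 1 * (X 0 ^ 2 - X 1 ^ 2) + q2 * (X 0 * (X 0 ^ 2 + 2 * X 1 ^ 2)),
    X 0 * (X 0 ^ 2 - X 1 ^ 2) - q2 * (X 1 * (2 * X 0 ^ 2 + X 1 ^ 2)),
    X 0 * (X 0 ^ 2 - X 1 ^ 2) + q2 * (X 1 * (2 * X 0 ^ 2 + X 1 ^ 2)),
    X 1 * (X 0 ^ 2 - X 1 ^ 2) - q2 * (X 0 * (X 0 ^ 2 + 2 * X 1 ^ 2))]

lemma hom_q2 : q2.IsHomogeneous 0 := isHomogeneous_C _ _

lemma hom_X2 (i : Fin 2) : ((X i : MvPolynomial (Fin 2) ℝ) ^ 2).IsHomogeneous 2 := by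
  simpa using (isHomogeneous_X ℝ i).pow 2

lemma hom_2X2 (i : Fin 2) : (2 * (X i : MvPolynomial (Fin 2) ℝ) ^ 2).IsHomogeneous 2 := by
  have h2 : (2 : MvPolynomial (Fin 2) ℝ) = C 2 := rfl
  rw [h2]
  simpa using (isHomogeneous_C (Fin 2) (2 : ℝ)).mul (hom_X2 i)

lemma hom_A (i j : Fin 2) :
    ((X i : MvPolynomial (Fin 2) ℝ) * (X 0 ^ 2 - X 1 ^ 2)).IsHomogeneous 3 := by
  simpa using (isHomogeneous_X ℝ i).mul ((hom_X2 0).sub (hom_X2 1))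

lemma hom_B : (q2 * (X 0 * (X 0 ^ 2 + 2 * X 1 ^ 2))).IsHomogeneous 3 := by
  simpa using hom_q2.mul ((isHomogeneous_X ℝ (0 : Fin 2)).mul ((hom_X2 0).add (hom_2X2 1)))

lemma hom_C : (q2 * (X 1 * (2 * X 0 ^ 2 + X 1 ^ 2))).IsHomogeneous 3 := by
  simpa using hom_q2.mul ((isHomogeneous_X ℝ (1 : Fin 2)).mul ((hom_2X2 0).add (hom_X2 1)))

lemma hom_ff (i : Fin 4) : (ff i).IsHomogeneous 3 := by
  fin_cases i
  · exact (hom_A 1 1).add hom_B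
  · exact (hom_A 0 0).sub hom_C
  · exact (hom_A 0 0).add hom_C
  · exact (hom_A 1 1).sub hom_B

/-- The values of the four forms at `(1, 0)`. -/
noncomputable def v1 : Fin 4 → ℝ := ![Real.sqrt 2, 1, 1, - Real.sqrt 2]

/-- The values of the four forms at `(0, 1)`. -/
noncomputable def v2 : Fin 4 → ℝ := ![-1, - Real.sqrt 2, Real.sqrt 2, -1]

lemma eval1 (i : Fin 4) : eval ![1, 0] (ff i) = v1 i := by
  fin_cases i <;> simp [ff, v1, q2]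

lemma eval2 (i : Fin 4) : eval ![0, 1] (ff i) = v2 i := by
  fin_cases i <;> simp [ff, v2, q2]

lemma det_ne (i j : Fin 4) (h : i ≠ j) : v1 i * v2 j - v1 j * v2 i ≠ 0 := by
  have hs : Real.sqrt 2 * Real.sqrt 2 = 2 := Real.mul_self_sqrt (by norm_num)
  have hp : 0 < Real.sqrt 2 := Real.sqrt_pos.mpr (by norm_num)
  intro h0
  fin_cases i <;> fin_cases j <;> simp [v1, v2] at h h0 <;> nlinarith

lemma not_prop (i j : Fin 4) (h : i ≠ j) (c : ℝ) : ff i ≠ c • ff j := by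
  intro heq
  have h1 := congrArg (eval ![1, 0]) heq
  have h2 := congrArg (eval ![0, 1]) heq
  rw [smul_eval, eval1, eval1] at h1
  rw [smul_eval, eval2, eval2] at h2
  apply det_ne i j h
  rw [h1, h2]
  ring

lemma ne_zero (i : Fin 4) : ff i ≠ 0 := by
  obtain ⟨j, hj⟩ : ∃ j : Fin 4, i ≠ j := by
    fin_cases i
    · exact ⟨1, by decide⟩
    · exact ⟨0, by decide⟩
    · exact ⟨0, by decide⟩
    · exact ⟨0, by decide⟩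
  intro h0
  apply not_prop i j hj 0
  rw [h0, zero_smul]

/-- There is a degree k between 1 and 6 and four nonzero, pairwise non-proportional real binary forms of degree k with f1^4 + f2^4 = f3^4 + f4^4. -/
theorem result :
    ∃ k : ℕ, 1 ≤ k ∧ k < 7 ∧
      ∃ f : Fin 4 → MvPolynomial (Fin 2) ℝ,
        (∀ i, f i ≠ 0 ∧ (f i).IsHomogeneous k) ∧
        (∀ i j, i ≠ j → ∀ c : ℝ, f i ≠ c • f j) ∧
        f 0 ^ 4 + f 1 ^ 4 = f 2 ^ 4 + f 3 ^ 4 := by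
  refine ⟨3, by norm_num, by norm_num, ff, fun i => ⟨ne_zero i, hom_ff i⟩, not_prop, ?_⟩
  have h0 : ff 0 = X 1 * (X 0 ^ 2 - X 1 ^ 2) + q2 * (X 0 * (X 0 ^ 2 + 2 * X 1 ^ 2)) := rfl
  have h1 : ff 1 = X 0 * (X 0 ^ 2 - X 1 ^ 2) - q2 * (X 1 * (2 * X 0 ^ 2 + X 1 ^ 2)) := rfl
  have h2 : ff 2 = X 0 * (X 0 ^ 2 - X 1 ^ 2) + q2 * (X 1 * (2 * X 0 ^ 2 + X 1 ^ 2)) := rfl
  have h3 : ff 3 = X 1 * (X 0 ^ 2 - X 1 ^ 2) - q2 * (X 0 * (X 0 ^ 2 + 2 * X 1 ^ 2)) := rfl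
  rw [h0, h1, h2, h3]
  generalize (X 0 : MvPolynomial (Fin 2) ℝ) = a
  generalize (X 1 : MvPolynomial (Fin 2) ℝ) = b
  have hq := q2_sq
  generalize q2 = q at hq ⊢
  -- the difference is a multiple of `q ^ 2 - 2`
  have key : (b * (a ^ 2 - b ^ 2) + q * (a * (a ^ 2 + 2 * b ^ 2))) ^ 4
      + (a * (a ^ 2 - b ^ 2) - q * (b * (2 * a ^ 2 + b ^ 2))) ^ 4
      - ((a * (a ^ 2 - b ^ 2) + q * (b * (2 * a ^ 2 + b ^ 2))) ^ 4
      + (b * (a ^ 2 - b ^ 2) - q * (a * (a ^ 2 + 2 * b ^ 2))) ^ 4)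
      = 8 * q * (a * b * (a ^ 2 - b ^ 2)) *
        ((a ^ 2 + 2 * b ^ 2) * (b ^ 2 * (a ^ 2 - b ^ 2) ^ 2 + q ^ 2 * (a ^ 2 * (a ^ 2 + 2 * b ^ 2) ^ 2))
        - (2 * a ^ 2 + b ^ 2) * (a ^ 2 * (a ^ 2 - b ^ 2) ^ 2 + q ^ 2 * (b ^ 2 * (2 * a ^ 2 + b ^ 2) ^ 2))) := by
    ring
  rw [hq] at key
  have key2 : (a ^ 2 + 2 * b ^ 2) * (b ^ 2 * (a ^ 2 - b ^ 2) ^ 2 + 2 * (a ^ 2 * (a ^ 2 + 2 * b ^ 2) ^ 2))
        - (2 * a ^ 2 + b ^ 2) * (a ^ 2 * (a ^ 2 - b ^ 2) ^ 2 + 2 * (b ^ 2 * (2 * a ^ 2 + b ^ 2) ^ 2)) = 0 := by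
    ring
  rw [key2, mul_zero] at key
  exact sub_eq_zero.mp key

end Pool.Agent.S17143
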