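import Pool.Statements.S17203
import Pool.Agent.H238R3.Dirichlet

set_option autoImplicit false
open Pool Pool.MP_637dc3_nt

namespace Pool.Agent.S17203

open Finset

/-- distance to the nearest integer -/
noncomputable def nd (y : ℝ) : ℝ := |y - ((round y : ℤ) : ℝ)|

/-- the approximation set -/
def S (ξ : ℝ) (n : ℕ) (l : ℝ) : Set ℕ :=
  {q : ℕ | 0 < q ∧ ∀ j ∈ Finset.Icc 1 n,
            |(q : ℝ) * ξ ^ j - ((round ((q : ℝ) * ξ ^ j) : ℤ) : ℝ)| ≤ (q : ℝ) ^ (-l)}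

lemma infinite_of_unbounded (A : Set ℕ) (h : ∀ M : ℕ, ∃ q ∈ A, M ≤ q) : A.Infinite := by
  intro hf
  obtain ⟨M, hM⟩ := hf.bddAbove
  obtain ⟨q, hq, hq2⟩ := h (M + 1)
  have := hM hq
  omega

lemma S_mono (ξ : ℝ) (n : ℕ) (l μ : ℝ) (h : μ ≤ l) : S ξ n l ⊆ S ξ n μ := by
  rintro q ⟨h0, hq⟩
  refine ⟨h0, fun j hj => (hq j hj).trans ?_⟩
  apply Real.rpow_le_rpow_of_exponent_le
  · exact_mod_cast h0
  · linarith

/-- Dirichlet gives every exponent below `1/m`. -/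
lemma dirichlet_case (ξ : ℝ) (hξ : Irrational ξ) (m : ℕ) (hm : 1 ≤ m) (μ : ℝ)
    (hμ : μ ≤ 1 / m) : (S ξ m μ).Infinite := by
  suffices hs : (S ξ m (1 / m)).Infinite from hs.mono (S_mono ξ m _ _ hμ)
  apply infinite_of_unbounded
  intro M
  -- minimal distance
  have hpos : ∀ q : ℕ, 1 ≤ q → 0 < nd ((q : ℝ) * ξ) := by
    intro q hq
    unfold nd
    rw [abs_pos]
    intro h0
    have hirr : Irrational ((q : ℝ) * ξ) := by
      have := hξ.natCast_mul (m := q) (by omega)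
      exact this
    exact hirr ⟨(round ((q : ℝ) * ξ) : ℤ), by push_cast; linarith⟩
  have hex : ∃ ε : ℝ, 0 < ε ∧ ∀ q : ℕ, 1 ≤ q → q < M → ε < nd ((q : ℝ) * ξ) := by
    induction M with
    | zero => exact ⟨1, one_pos, fun q _ h => absurd h (by omega)⟩
    | succ M ih =>
      obtain ⟨ε, hε, hq⟩ := ih
      by_cases hM : 1 ≤ M
      · refine ⟨min ε (nd ((M : ℝ) * ξ) / 2), lt_min hε (half_pos (hpos M hM)), ?_⟩
        intro q hq1 hq2
        rcases Nat.lt_succ_iff_lt_or_eq.mp hq2 with h | h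
        · exact lt_of_le_of_lt (min_le_left _ _) (hq q hq1 h)
        · subst h
          exact lt_of_le_of_lt (min_le_right _ _) (half_lt_self (hpos q hq1))
      · exact ⟨ε, hε, fun q hq1 hq2 => absurd hq2 (by omega)⟩
  obtain ⟨ε, hε, hbd⟩ := hex
  obtain ⟨N, hN⟩ := exists_nat_gt (1 / ε)
  have hN0 : (0 : ℝ) < N := lt_trans (by positivity) hN
  have hN1 : 1 ≤ N := by
    have : 0 < N := by exact_mod_cast hN0
    omega
  obtain ⟨q, hq0, hqN, hqj⟩ := Pool.Agent.H238R3.dirichlet_sim m ξ N hN1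
  refine ⟨q, ⟨hq0, fun j hj => (hqj j hj).trans ?_⟩, ?_⟩
  · have hm' : (0 : ℝ) < m := by exact_mod_cast hm
    have hqr : (q : ℝ) ≤ (N : ℝ) ^ m := by exact_mod_cast hqN
    have hq0r : (0 : ℝ) < q := by exact_mod_cast hq0
    rw [Real.rpow_neg hq0r.le, one_div]
    apply inv_anti₀ (by positivity)
    calc (q : ℝ) ^ (1 / (m : ℝ)) ≤ ((N : ℝ) ^ m) ^ (1 / (m : ℝ)) :=
          Real.rpow_le_rpow hq0r.le hqr (by positivity)
      _ = N := by
          rw [← Real.rpow_natCast, ← Real.rpow_mul hN0.le]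
          rw [mul_one_div_cancel hm'.ne', Real.rpow_one]
  · by_contra hlt
    push Not at hlt
    have h1 := hbd q hq0 hlt
    have h2 := hqj 1 (by simp; omega)
    rw [pow_one] at h2
    have h3 : (1 : ℝ) / N < ε := by
      rw [div_lt_iff₀ hN0]
      rw [div_lt_iff₀ hε] at hN
      linarith
    unfold nd at h1
    linarith

/-- The one step inequality `(n+1) λ_{n+1} ≥ n λ_n - 1`. -/
lemma one_step (ξ : ℝ) (n : ℕ) (hn : 1 ≤ n) (l μ : ℝ) (hl : 1 < n * l)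
    (hS : (S ξ n l).Infinite) (hμ : (n + 1) * μ < n * l - 1) : (S ξ (n + 1) μ).Infinite := by
  wlog hμ0 : 0 ≤ μ generalizing μ
  · refine Set.Infinite.mono (S_mono ξ (n + 1) 0 μ (by linarith)) (this 0 (by linarith) le_rfl)
  have hnr : (0 : ℝ) < n := by exact_mod_cast hn
  set a : ℝ := 1 / n with ha
  have hapos : 0 < a := by positivity
  have hla : a < l := by
    rw [ha, div_lt_iff₀ hnr]; linarith
  have hexp : (1 + a) * μ < l - a := by
    have h1 : (1 + a) * μ = ((n + 1) * μ) / n := by rw [ha]; field_simp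
    have h2 : l - a = (n * l - 1) / n := by rw [ha]; field_simp
    rw [h1, h2]
    exact div_lt_div_of_pos_right hμ hnr
  -- constants
  set X0 : ℝ := max 1 |ξ| with hX0
  have hX01 : 1 ≤ X0 := le_max_left _ _
  set C1 : ℝ := n * X0 ^ n + 1 with hC1
  have hC11 : 1 ≤ C1 := by
    have : 0 ≤ (n : ℝ) * X0 ^ n := by positivity
    linarith
  set C2 : ℝ := (n + 1) * C1 * (1 + X0 ^ (n + 1)) with hC2
  have hC2pos : 0 < C2 := by positivity
  have hC21 : C1 ≤ C2 := by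
    rw [hC2]
    have h1 : (1 : ℝ) ≤ (n + 1) := by linarith
    have h2 : (0 : ℝ) ≤ X0 ^ (n + 1) := by positivity
    nlinarith [mul_nonneg (by linarith : (0:ℝ) ≤ C1) h2, mul_nonneg hnr.le (by linarith : (0:ℝ) ≤ C1),
      mul_nonneg (mul_nonneg hnr.le (by linarith : (0:ℝ) ≤ C1)) h2]
  -- H = ⌈ 4 x^a ⌉, `H ≤ 5 x^a`
  have hlim1 : Filter.Tendsto (fun x : ℝ => (n + 1) * C1 * 5 * x ^ (a - l)) Filter.atTop (nhds 0) := by
    have := (tendsto_rpow_neg_atTop (y := l - a) (by linarith)).const_mul ((n + 1) * C1 * 5)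
    simpa [neg_sub] using this
  have hlim2 : Filter.Tendsto (fun x : ℝ => (C2 * 5 * (C1 * 5) ^ μ) * x ^ ((1 + a) * μ - (l - a)))
      Filter.atTop (nhds 0) := by
    have := (tendsto_rpow_neg_atTop (y := (l - a) - (1 + a) * μ) (by linarith)).const_mul
      (C2 * 5 * (C1 * 5) ^ μ)
    simpa [neg_sub] using this
  have hev1 := hlim1.eventually (gt_mem_nhds (show (0 : ℝ) < 1 / 2 by norm_num))
  have hev2 := hlim2.eventually (gt_mem_nhds (show (0 : ℝ) < 1 by norm_num))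
  obtain ⟨T, hT⟩ := Filter.eventually_atTop.mp (hev1.and hev2)
  apply infinite_of_unbounded
  intro M
  obtain ⟨x, hx, hxM⟩ := hS.exists_gt (max M (max 1 ⌈T⌉₊))
  obtain ⟨hx0, hxj⟩ := hx
  have hxM' : M ≤ x := le_of_lt (lt_of_le_of_lt (le_max_left _ _) hxM)
  have hx1 : 1 < x := lt_of_le_of_lt ((le_max_left _ _).trans (le_max_right _ _)) hxM
  have hxT : T ≤ x := by
    have h1 : ⌈T⌉₊ ≤ x := le_of_lt (lt_of_le_of_lt ((le_max_right _ _).trans (le_max_right _ _)) hxM)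
    exact (Nat.le_ceil T).trans (by exact_mod_cast h1)
  obtain ⟨hA, hB⟩ := hT x hxT
  have hxr : (1 : ℝ) < x := by exact_mod_cast hx1
  have hxpos : (0 : ℝ) < x := by linarith
  have hxa : (1 : ℝ) ≤ (x : ℝ) ^ a := Real.one_le_rpow hxr.le hapos.le
  set H : ℕ := ⌈4 * (x : ℝ) ^ a⌉₊ with hH
  have hH4 : 4 * (x : ℝ) ^ a ≤ H := Nat.le_ceil _
  have hH5 : (H : ℝ) ≤ 5 * (x : ℝ) ^ a := by
    have := (Nat.ceil_lt_add_one (show 0 ≤ 4 * (x : ℝ) ^ a by positivity)).le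
    linarith
  have hHpos : (0 : ℝ) < H := by linarith
  have hH1 : 1 ≤ H := by
    have : 0 < H := by exact_mod_cast hHpos
    omega
  obtain ⟨b, hb1, hb2, hb3⟩ := Pool.Agent.H238R3.dirichlet_form n hn ξ H hH1
  -- `H ^ n ≥ 4 x`
  have hHn : 4 * (x : ℝ) ≤ (H : ℝ) ^ n := by
    calc 4 * (x : ℝ) = 4 * ((x : ℝ) ^ a) ^ n := by
          rw [← Real.rpow_natCast, ← Real.rpow_mul hxpos.le, ha, one_div_mul_cancel hnr.ne',
            Real.rpow_one]
      _ ≤ 4 ^ n * ((x : ℝ) ^ a) ^ n := by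
          have : (4 : ℝ) ≤ 4 ^ n := le_self_pow₀ (by norm_num) (by omega)
          gcongr
      _ = (4 * (x : ℝ) ^ a) ^ n := by rw [mul_pow]
      _ ≤ (H : ℝ) ^ n := by gcongr
  set Bξ : ℝ := ∑ j ∈ Finset.range (n + 1), (b j : ℝ) * ξ ^ j with hBξ
  have hBξ1 : |Bξ| ≤ 1 / (4 * x) := by
    refine hb3.trans ?_
    exact one_div_le_one_div_of_le (by positivity) hHn
  -- the integers y_j
  let y : ℕ → ℤ := fun j => round ((x : ℝ) * ξ ^ j)
  have hy0 : (y 0 : ℝ) = x := by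
    simp [y]
  have hyj : ∀ j, j ≤ n → |(x : ℝ) * ξ ^ j - (y j : ℝ)| ≤ (x : ℝ) ^ (-l) := by
    intro j hj
    rcases Nat.eq_zero_or_pos j with h | h
    · subst h
      rw [hy0]
      simp only [pow_zero, mul_one, sub_self, abs_zero]
      positivity
    · exact hxj j (by rw [Finset.mem_Icc]; omega)
  have hbH : ∀ j, |(b j : ℝ)| ≤ C1 * H := by
    intro j; exact hb2 j
  have hsumbound : ∀ (s : Finset ℕ) (g : ℕ → ℕ), s.card ≤ n + 1 → (∀ j ∈ s, g j ≤ n) →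
      |∑ j ∈ s, (b j : ℝ) * ((x : ℝ) * ξ ^ (g j) - (y (g j) : ℝ))| ≤
        (n + 1) * C1 * H * (x : ℝ) ^ (-l) := by
    intro s g hs hg
    calc |∑ j ∈ s, (b j : ℝ) * ((x : ℝ) * ξ ^ (g j) - (y (g j) : ℝ))|
        ≤ ∑ j ∈ s, |(b j : ℝ) * ((x : ℝ) * ξ ^ (g j) - (y (g j) : ℝ))| :=
          Finset.abs_sum_le_sum_abs _ _
      _ ≤ ∑ j ∈ s, (C1 * H * (x : ℝ) ^ (-l)) := by
          apply Finset.sum_le_sum
          intro j hj
          rw [abs_mul]
          exact mul_le_mul (hbH j) (hyj _ (hg j hj)) (abs_nonneg _) (by positivity)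
      _ = s.card * (C1 * H * (x : ℝ) ^ (-l)) := by rw [Finset.sum_const, nsmul_eq_mul]
      _ ≤ (n + 1) * (C1 * H * (x : ℝ) ^ (-l)) := by
          have : (s.card : ℝ) ≤ n + 1 := by exact_mod_cast hs
          gcongr
      _ = (n + 1) * C1 * H * (x : ℝ) ^ (-l) := by ring
  -- smallness
  have hsmall : (n + 1) * C1 * H * (x : ℝ) ^ (-l) < 1 / 2 := by
    calc (n + 1) * C1 * H * (x : ℝ) ^ (-l) ≤ (n + 1) * C1 * (5 * (x : ℝ) ^ a) * (x : ℝ) ^ (-l) := by
          gcongr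
      _ = (n + 1) * C1 * 5 * (x : ℝ) ^ (a - l) := by
          rw [sub_eq_add_neg, Real.rpow_add hxpos]; ring
      _ < 1 / 2 := hA
  -- ℓ(B) = 0
  have hell : ∑ j ∈ Finset.range (n + 1), b j * y j = 0 := by
    by_contra hne
    have h1 : (1 : ℝ) ≤ |((∑ j ∈ Finset.range (n + 1), b j * y j : ℤ) : ℝ)| := by
      exact_mod_cast Int.one_le_abs hne
    have h2 : ((∑ j ∈ Finset.range (n + 1), b j * y j : ℤ) : ℝ) =
        x * Bξ - ∑ j ∈ Finset.range (n + 1), (b j : ℝ) * ((x : ℝ) * ξ ^ j - (y j : ℝ)) := by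
      rw [hBξ, Finset.mul_sum, ← Finset.sum_sub_distrib]
      push_cast
      exact Finset.sum_congr rfl fun j _ => by ring
    have h3 := hsumbound (Finset.range (n + 1)) id (by simp) (by intro j hj; simp at hj ⊢; omega)
    simp only [id] at h3
    rw [h2] at h1
    have h4 : |x * Bξ| ≤ 1 / 4 := by
      rw [abs_mul, abs_of_pos hxpos]
      calc (x : ℝ) * |Bξ| ≤ x * (1 / (4 * x)) := by gcongr
        _ = 1 / 4 := by field_simp
    have h5 := abs_sub (x * Bξ) (∑ j ∈ Finset.range (n + 1), (b j : ℝ) * ((x : ℝ) * ξ ^ j - (y j : ℝ)))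
    linarith
  have hxB : |x * Bξ| ≤ (n + 1) * C1 * H * (x : ℝ) ^ (-l) := by
    have h2 : x * Bξ = ∑ j ∈ Finset.range (n + 1), (b j : ℝ) * ((x : ℝ) * ξ ^ j - (y j : ℝ)) := by
      have h3 : ((∑ j ∈ Finset.range (n + 1), b j * y j : ℤ) : ℝ) = 0 := by rw [hell]; simp
      push_cast at h3
      rw [hBξ, Finset.mul_sum]
      have h4 : ∑ j ∈ Finset.range (n + 1), (b j : ℝ) * ((x : ℝ) * ξ ^ j - (y j : ℝ)) =
          ∑ j ∈ Finset.range (n + 1), (x : ℝ) * ((b j : ℝ) * ξ ^ j)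
          - ∑ j ∈ Finset.range (n + 1), (b j : ℝ) * (y j : ℝ) := by
        rw [← Finset.sum_sub_distrib]
        exact Finset.sum_congr rfl fun j _ => by ring
      rw [h4, h3, sub_zero]
    rw [h2]
    exact hsumbound (Finset.range (n + 1)) id (by simp) (by intro j hj; simp at hj ⊢; omega)
  -- the top index
  obtain ⟨d, hd1, hd2, hd3⟩ : ∃ d, d ≤ n ∧ b d ≠ 0 ∧ ∀ j, d < j → j ≤ n → b j = 0 := by
    classical
    obtain ⟨j0, hj0, hj0'⟩ := hb1
    have hne : ((Finset.range (n + 1)).filter (fun j => b j ≠ 0)).Nonempty :=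
      ⟨j0, by simp only [Finset.mem_filter]; exact ⟨hj0, hj0'⟩⟩
    refine ⟨((Finset.range (n + 1)).filter (fun j => b j ≠ 0)).max' hne, ?_, ?_, ?_⟩
    · have := Finset.max'_mem _ hne
      simp only [Finset.mem_filter, Finset.mem_range] at this
      omega
    · have := Finset.max'_mem _ hne
      simp only [Finset.mem_filter, Finset.mem_range] at this
      exact this.2
    · intro j hj1 hj2
      by_contra hbj
      have := Finset.le_max' ((Finset.range (n + 1)).filter (fun j => b j ≠ 0)) j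
        (by simp only [Finset.mem_filter, Finset.mem_range]; exact ⟨by omega, hbj⟩)
      omega
  have hBd : Bξ = ∑ j ∈ Finset.range d, (b j : ℝ) * ξ ^ j + (b d : ℝ) * ξ ^ d := by
    rw [hBξ, ← Finset.sum_range_succ]
    symm
    apply Finset.sum_subset
    · intro j hj; simp at hj ⊢; omega
    · intro j hj1 hj2
      simp at hj1 hj2
      rw [hd3 j (by omega) (by omega)]
      simp
  set k : ℕ := n + 1 - d with hk
  set w : ℤ := -∑ j ∈ Finset.range d, b j * y (j + k) with hw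
  set E : ℝ := C2 * H * (x : ℝ) ^ (-l) with hE
  have hEpos : 0 ≤ E := by positivity
  have hwb : |(b d : ℝ) * (x * ξ ^ (n + 1)) - (w : ℝ)| ≤ E := by
    have h1 : (b d : ℝ) * (x * ξ ^ (n + 1)) - (w : ℝ) =
        ξ ^ k * (x * Bξ) - ∑ j ∈ Finset.range d, (b j : ℝ) * ((x : ℝ) * ξ ^ (j + k) - (y (j + k) : ℝ)) := by
      rw [hBd, hw]
      push_cast
      have e1 : ξ ^ (n + 1) = ξ ^ d * ξ ^ k := by rw [← pow_add]; congr 1; omega
      have e2 : ∑ j ∈ Finset.range d, (b j : ℝ) * ((x : ℝ) * ξ ^ (j + k) - (y (j + k) : ℝ)) =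
          ξ ^ k * (x * ∑ j ∈ Finset.range d, (b j : ℝ) * ξ ^ j) -
          ∑ j ∈ Finset.range d, (b j : ℝ) * (y (j + k) : ℝ) := by
        rw [Finset.mul_sum, Finset.mul_sum, ← Finset.sum_sub_distrib]
        exact Finset.sum_congr rfl fun j _ => by rw [pow_add]; ring
      rw [e1, e2]
      ring
    have h3 := hsumbound (Finset.range d) (fun j => j + k) (by simp; omega)
      (by intro j hj; simp at hj ⊢; omega)
    have h4 : |ξ ^ k * (x * Bξ)| ≤ X0 ^ (n + 1) * ((n + 1) * C1 * H * (x : ℝ) ^ (-l)) := by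
      rw [abs_mul, abs_pow]
      apply mul_le_mul _ hxB (abs_nonneg _) (by positivity)
      calc |ξ| ^ k ≤ X0 ^ k := pow_le_pow_left₀ (abs_nonneg _) (le_max_right _ _) _
        _ ≤ X0 ^ (n + 1) := pow_le_pow_right₀ hX01 (by omega)
    rw [h1]
    calc _ ≤ |ξ ^ k * (x * Bξ)| + |∑ j ∈ Finset.range d, (b j : ℝ) * ((x : ℝ) * ξ ^ (j + k) - (y (j + k) : ℝ))| :=
          abs_sub _ _
      _ ≤ X0 ^ (n + 1) * ((n + 1) * C1 * H * (x : ℝ) ^ (-l)) + (n + 1) * C1 * H * (x : ℝ) ^ (-l) := by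
          linarith
      _ = E := by rw [hE, hC2]; ring
  have hEj : ∀ j, j ≤ n → |(b d : ℝ) * (x * ξ ^ j) - (b d : ℝ) * (y j : ℝ)| ≤ E := by
    intro j hj
    rw [← mul_sub, abs_mul]
    calc |(b d : ℝ)| * |(x : ℝ) * ξ ^ j - (y j : ℝ)| ≤ (C1 * H) * (x : ℝ) ^ (-l) :=
          mul_le_mul (hbH d) (hyj j hj) (abs_nonneg _) (by positivity)
      _ ≤ E := by rw [hE]; gcongr
  -- the new point
  set z : ℕ := (b d).natAbs * x with hz
  have hbdpos : 1 ≤ (b d).natAbs := Nat.one_le_iff_ne_zero.mpr (Int.natAbs_ne_zero.mpr hd2)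
  have hzx : x ≤ z := by rw [hz]; exact Nat.le_mul_of_pos_left _ (by omega)
  have hzpos : 0 < z := by omega
  have hzr : (z : ℝ) = |(b d : ℝ)| * x := by
    rw [hz]; push_cast; rw [Nat.cast_natAbs]; push_cast; rfl
  have hzle : (z : ℝ) ≤ (C1 * 5) * (x : ℝ) ^ (1 + a) := by
    rw [hzr, Real.rpow_add hxpos, Real.rpow_one]
    calc |(b d : ℝ)| * x ≤ (C1 * (5 * (x : ℝ) ^ a)) * x := by
          gcongr
          exact (hbH d).trans (by gcongr)
      _ = C1 * 5 * (x * (x : ℝ) ^ a) := by ring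
  have hEz : E ≤ (z : ℝ) ^ (-μ) := by
    have hzr0 : (0 : ℝ) < z := by exact_mod_cast hzpos
    rw [Real.rpow_neg hzr0.le]
    have h1 : (z : ℝ) ^ μ ≤ (C1 * 5) ^ μ * (x : ℝ) ^ ((1 + a) * μ) := by
      calc (z : ℝ) ^ μ ≤ ((C1 * 5) * (x : ℝ) ^ (1 + a)) ^ μ := Real.rpow_le_rpow hzr0.le hzle hμ0
        _ = (C1 * 5) ^ μ * (x : ℝ) ^ ((1 + a) * μ) := by
            rw [Real.mul_rpow (by positivity) (by positivity), ← Real.rpow_mul hxpos.le]
    rw [le_inv_comm₀ (lt_of_lt_of_le (by positivity) (show E ≤ E from le_rfl) |> fun h => by positivity) (by positivity)]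
    refine h1.trans ?_
    rw [← one_div, le_div_iff₀ (by positivity)]
    calc (C1 * 5) ^ μ * (x : ℝ) ^ ((1 + a) * μ) * E
        ≤ (C1 * 5) ^ μ * (x : ℝ) ^ ((1 + a) * μ) * (C2 * (5 * (x : ℝ) ^ a) * (x : ℝ) ^ (-l)) := by
          rw [hE]; gcongr
      _ = (C2 * 5 * (C1 * 5) ^ μ) * (x : ℝ) ^ ((1 + a) * μ - (l - a)) := by
          rw [show (1 + a) * μ - (l - a) = (1 + a) * μ + (a + (-l)) by ring, Real.rpow_add hxpos,
            Real.rpow_add hxpos]
          ring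
      _ ≤ 1 := hB.le
  refine ⟨z, ⟨hzpos, ?_⟩, hxM'.trans hzx⟩
  intro j hj
  rw [Finset.mem_Icc] at hj
  have key : ∃ v : ℤ, |(b d : ℝ) * (x * ξ ^ j) - (v : ℝ)| ≤ E := by
    rcases Nat.lt_or_ge n j with h | h
    · have : j = n + 1 := by omega
      subst this
      exact ⟨w, hwb⟩
    · exact ⟨b d * y j, by push_cast; exact hEj j h⟩
  obtain ⟨v, hv⟩ := key
  have : ∃ v' : ℤ, |(z : ℝ) * ξ ^ j - (v' : ℝ)| ≤ E := by
    rcases le_or_gt 0 (b d) with h | h
    · refine ⟨v, ?_⟩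
      have hb' : |(b d : ℝ)| = (b d : ℝ) := abs_of_nonneg (by exact_mod_cast h)
      rw [hzr, hb', mul_assoc]
      exact hv
    · refine ⟨-v, ?_⟩
      have hb' : |(b d : ℝ)| = -(b d : ℝ) := abs_of_neg (by exact_mod_cast h)
      rw [hzr, hb']
      push_cast
      rw [show -(b d : ℝ) * x * ξ ^ j - -(v : ℝ) = -((b d : ℝ) * (x * ξ ^ j) - v) by ring, abs_neg]
      exact hv
  obtain ⟨v', hv'⟩ := this
  exact ((round_le _ v').trans hv').trans hEz

lemma iterate (ξ : ℝ) (n : ℕ) (hn : 1 ≤ n) (l : ℝ) (hS : (S ξ n l).Infinite) :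
    ∀ k : ℕ, (1 : ℝ) < n * l - k + 1 → ∀ μ : ℝ, (n + k) * μ < n * l - k → (S ξ (n + k) μ).Infinite := by
  intro k
  induction k with
  | zero =>
    intro _ μ hμ
    simp only [Nat.cast_zero, add_zero, sub_zero] at hμ
    have hnr : (0 : ℝ) < n := by exact_mod_cast hn
    have : μ < l := lt_of_mul_lt_mul_left hμ hnr.le
    exact hS.mono (S_mono ξ n l μ this.le)
  | succ k ih =>
    intro hk μ hμ
    push_cast at hk hμ
    have hpos : (0 : ℝ) < n + k := by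
      have : (1 : ℝ) ≤ n := by exact_mod_cast hn
      have : (0 : ℝ) ≤ k := Nat.cast_nonneg k
      linarith
    -- choose l'
    obtain ⟨s, hs1, hs2⟩ : ∃ s : ℝ, max 1 ((n + (k + 1)) * μ + 1) < s ∧ s < n * l - k := by
      apply _root_.exists_between
      apply max_lt
      · linarith
      · linarith
    have h1 := lt_of_le_of_lt (le_max_left _ _) hs1
    have h2 := lt_of_le_of_lt (le_max_right _ _) hs1
    have hmul : (n + k : ℝ) * (s / (n + k)) = s := by field_simp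
    have := ih (by linarith) (s / (n + k)) (by rw [hmul]; exact hs2)
    have h3 := one_step ξ (n + k) (by omega) (s / (n + k)) μ
      (by push_cast; rw [hmul]; exact h1) this (by push_cast; rw [hmul]; linarith)
    rw [← add_assoc]
    exact h3

/-- For 1≤n≤m and transcendental real ξ: if infinitely many q≥1 have all ‖qξ^j‖≤q^(-l) for j≤n, then for every μ<(nl−m+n)/m infinitely many q≥1 have all ‖qξ^j‖≤q^(-μ) for j≤m; i.e. λ_m(ξ)≥(nλ_n(ξ)−m+n)/m. -/
theorem result :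
    ∀ (m n : ℕ), 1 ≤ n → n ≤ m → ∀ ξ : ℝ, Transcendental ℚ ξ →
      ∀ l μ : ℝ,
        {q : ℕ | 0 < q ∧ ∀ j ∈ Finset.Icc 1 n,
            |(q : ℝ) * ξ ^ j - ((round ((q : ℝ) * ξ ^ j) : ℤ) : ℝ)| ≤ (q : ℝ) ^ (-l)}.Infinite →
        μ < ((n : ℝ) * l - (m : ℝ) + (n : ℝ)) / (m : ℝ) →
        {q : ℕ | 0 < q ∧ ∀ j ∈ Finset.Icc 1 m,
            |(q : ℝ) * ξ ^ j - ((round ((q : ℝ) * ξ ^ j) : ℤ) : ℝ)| ≤ (q : ℝ) ^ (-μ)}.Infinite := by
  intro m n hn hnm ξ hξ l μ hS hμ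
  have hirr : Irrational ξ := hξ.irrational
  have hm : (0 : ℝ) < m := by
    have : 0 < m := by omega
    exact_mod_cast this
  rw [lt_div_iff₀ hm] at hμ
  obtain ⟨k, rfl⟩ : ∃ k, m = n + k := ⟨m - n, by omega⟩
  push_cast at hμ hm
  by_cases hcase : (1 : ℝ) < n * l - k + 1
  · exact iterate ξ n hn l hS k hcase μ (by linarith)
  · refine dirichlet_case ξ hirr (n + k) (by omega) μ ?_
    rw [le_div_iff₀ (by push_cast; exact hm)]
    push_cast
    linarith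

end Pool.Agent.S17203
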