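import Pool.Statements.S17231
import Pool.Agent.H246R3.Golomb.Omega

set_option autoImplicit false
open Pool Pool.MP_64d899_nt

namespace Pool.Agent.S17231

/-- For Golomb's sequence f and τ the golden ratio, there are c₁,c₂>0 with f(n) − τ^(2−τ) n^(τ−1) above c₁ n^(τ−1)/ln n for infinitely many n, and below −c₂ n^(τ−1)/ln n for infinitely many n. -/
theorem result :
    ∀ f : ℕ → ℕ, f 1 = 1 →
      (∀ m n : ℕ, 1 ≤ m → m ≤ n → f m ≤ f n) →
      (∀ n : ℕ, 1 ≤ n → f n = Set.ncard {m : ℕ | 1 ≤ m ∧ f m = n}) →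
      ∃ c₁ c₂ : ℝ, 0 < c₁ ∧ 0 < c₂ ∧
        Set.Infinite {n : ℕ |
          (f n : ℝ) - ((1 + Real.sqrt 5) / 2) ^ (2 - (1 + Real.sqrt 5) / 2)
              * (n : ℝ) ^ ((1 + Real.sqrt 5) / 2 - 1)
            > c₁ * (n : ℝ) ^ ((1 + Real.sqrt 5) / 2 - 1) / Real.log n} ∧
        Set.Infinite {n : ℕ |
          (f n : ℝ) - ((1 + Real.sqrt 5) / 2) ^ (2 - (1 + Real.sqrt 5) / 2)
              * (n : ℝ) ^ ((1 + Real.sqrt 5) / 2 - 1)
            < -(c₂ * (n : ℝ) ^ ((1 + Real.sqrt 5) / 2 - 1) / Real.log n)} := by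
  intro f h1 h2 h3
  exact H246R3.Golomb.omega_main ⟨h1, h2, h3⟩

end Pool.Agent.S17231
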