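import Pool.Statements.S17383
import Pool.Agent.H183R3.Main

set_option autoImplicit false
open Pool Pool.MP_7119ff_nt

namespace Pool.Agent.S17383

/-- For any homogeneous linear equation with nonzero integer coefficients: if the largest subset of [N] free of distinct-variable solutions is not N^(1-o(1)), then some γ,C>0 make every A in [N] contain at least γ(∣A∣/N)^C N^(ℓ-1) solutions. -/
theorem result :
    ∀ (ℓ : ℕ) (c : Fin ℓ → ℤ), (∀ i, c i ≠ 0) →
      ¬ (∀ δ : ℝ, 0 < δ → ∃ N₀ : ℕ, ∀ N : ℕ, N₀ ≤ N →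
          ∃ A : Finset ℕ, A ⊆ Finset.Icc 1 N ∧ (N : ℝ) ^ (1 - δ) ≤ (A.card : ℝ) ∧
            ∀ x : Fin ℓ → ℕ, Function.Injective x → (∀ i, x i ∈ A) →
              ∑ i, c i * (x i : ℤ) ≠ 0) →
      ∃ γ C : ℝ, 0 < γ ∧ 0 < C ∧ ∀ N : ℕ, 1 ≤ N → ∀ A : Finset ℕ, A ⊆ Finset.Icc 1 N →
        γ * ((A.card : ℝ) / (N : ℝ)) ^ C * (N : ℝ) ^ ((ℓ : ℝ) - 1) ≤
          (((Fintype.piFinset (fun _ : Fin ℓ => A)).filter
              (fun x => ∑ i, c i * (x i : ℤ) = 0)).card : ℝ) := by
  classical
  intro ℓ c hc hunav
  by_contra habu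
  apply hunav
  clear hunav
  push Not at habu
  by_cases hs : ∑ i, c i = 0
  swap
  · -- non-invariant equations are avoidable
    intro δ hδ
    set s : ℤ := ∑ i, c i with hsdef
    set m : ℕ := s.natAbs + 1 with hm
    have hm0 : 0 < m := by omega
    refine ⟨max m (⌈((2 * m : ℕ) : ℝ) ^ (1 / δ)⌉₊), ?_⟩
    intro N hN
    have hmN : m ≤ N := le_trans (le_max_left _ _) hN
    have hN2 : ((2 * m : ℕ) : ℝ) ^ (1 / δ) ≤ N :=
      (Nat.le_ceil _).trans (by exact_mod_cast le_trans (le_max_right _ _) hN)
    have hNpos : (0 : ℝ) < N := by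
      have : 0 < N := by omega
      exact_mod_cast this
    refine ⟨(Finset.range (N / m)).image (fun k => m * k + 1), ?_, ?_, ?_⟩
    · intro x hx
      rw [Finset.mem_image] at hx
      obtain ⟨k, hk, rfl⟩ := hx
      rw [Finset.mem_range] at hk
      rw [Finset.mem_Icc]
      refine ⟨by omega, ?_⟩
      have h1 : m * (k + 1) ≤ N := (Nat.mul_le_mul_left m hk).trans (Nat.mul_div_le N m)
      have h2 : m * (k + 1) = m * k + m := by ring
      omega
    · rw [Finset.card_image_of_injective _ (by
        intro x y hxy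
        have h1 : m * x + 1 = m * y + 1 := hxy
        have h2 : m * x = m * y := by omega
        exact Nat.eq_of_mul_eq_mul_left hm0 h2), Finset.card_range]
      have h1 : N ≤ 2 * m * (N / m) := by
        have h2 : N < m * (N / m + 1) := Nat.lt_mul_div_succ N hm0
        have h3 : 1 ≤ N / m := (Nat.one_le_div_iff hm0).2 hmN
        have h4 : m * (N / m + 1) = m * (N / m) + m := by ring
        have h5 : m * 1 ≤ m * (N / m) := Nat.mul_le_mul_left m h3
        have h6 : 2 * m * (N / m) = m * (N / m) + m * (N / m) := by ring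
        omega
      have h1R : (N : ℝ) ≤ ((2 * m : ℕ) : ℝ) * ((N / m : ℕ) : ℝ) := by exact_mod_cast h1
      have h2 : ((2 * m : ℕ) : ℝ) ≤ (N : ℝ) ^ δ := by
        have h3 := Real.rpow_le_rpow (by positivity) hN2 hδ.le
        rwa [← Real.rpow_mul (by positivity), one_div, inv_mul_cancel₀ hδ.ne', Real.rpow_one] at h3
      rw [Real.rpow_sub hNpos, Real.rpow_one, div_le_iff₀ (by positivity)]
      calc (N : ℝ) ≤ ((2 * m : ℕ) : ℝ) * ((N / m : ℕ) : ℝ) := h1R
        _ ≤ (N : ℝ) ^ δ * ((N / m : ℕ) : ℝ) := by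
            apply mul_le_mul_of_nonneg_right h2 (by positivity)
        _ = ((N / m : ℕ) : ℝ) * (N : ℝ) ^ δ := by ring
    · intro x _ hx hsol
      have h1 : ∀ i, ∃ k : ℤ, (x i : ℤ) = m * k + 1 := by
        intro i
        obtain ⟨k, _, hk⟩ := Finset.mem_image.1 (hx i)
        exact ⟨k, by rw [← hk]; push_cast; ring⟩
      choose k hk using h1
      have h2 : ∑ i, c i * (x i : ℤ) = m * (∑ i, c i * k i) + s := by
        rw [hsdef, Finset.mul_sum, ← Finset.sum_add_distrib]
        refine Finset.sum_congr rfl fun i _ => ?_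
        rw [hk i]; ring
      rw [h2] at hsol
      have h3 : (m : ℤ) ∣ s := ⟨-(∑ i, c i * k i), by linarith⟩
      have h4 : s = 0 := by
        apply Int.eq_zero_of_abs_lt_dvd h3
        rw [hm, Int.abs_eq_natAbs]
        push_cast
        linarith
      exact hs h4
  -- invariant equations
  rcases Nat.lt_or_ge ℓ 3 with hℓ | hℓ
  · interval_cases ℓ
    · -- zero variables: abundant
      exfalso
      obtain ⟨N, hN, A, hA, hlt⟩ := habu 1 1 one_pos one_pos
      have hNpos : (1 : ℝ) ≤ N := by exact_mod_cast hN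
      have h1 : (((Fintype.piFinset (fun _ : Fin 0 => A)).filter
              (fun x => ∑ i, c i * (x i : ℤ) = 0)).card : ℝ) = 1 := by
        have h2 : (Fintype.piFinset (fun _ : Fin 0 => A)).filter
              (fun x => ∑ i, c i * (x i : ℤ) = 0) = Finset.univ := by
          ext x
          simp
        rw [h2]
        simp
      rw [h1] at hlt
      have h3 : (A.card : ℝ) / N ≤ 1 := by
        rw [div_le_one (by linarith)]
        have := Finset.card_le_card hA
        rw [Nat.card_Icc] at this
        exact_mod_cast (by omega : A.card ≤ N)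
      have h4 : (N : ℝ) ^ (((0 : ℕ) : ℝ) - 1) ≤ 1 := by
        apply Real.rpow_le_one_of_one_le_of_nonpos hNpos
        norm_num
      have h5 : (0 : ℝ) ≤ (A.card : ℝ) / N := by positivity
      have h6 : (0 : ℝ) ≤ (N : ℝ) ^ (((0 : ℕ) : ℝ) - 1) := by positivity
      rw [Real.rpow_one, one_mul] at hlt
      have h7 := mul_le_mul h3 h4 h6 zero_le_one
      linarith
    · -- one variable
      exfalso
      rw [Fin.sum_univ_one] at hs
      exact hc 0 hs
    · -- two variables
      intro δ hδ
      refine ⟨1, fun N hN => ⟨Finset.Icc 1 N, le_rfl, ?_, ?_⟩⟩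
      · rw [Nat.card_Icc]
        have hNpos : (1 : ℝ) ≤ N := by exact_mod_cast hN
        calc (N : ℝ) ^ (1 - δ) ≤ (N : ℝ) ^ (1 : ℝ) :=
              Real.rpow_le_rpow_of_exponent_le hNpos (by linarith)
          _ = ((N + 1 - 1 : ℕ) : ℝ) := by rw [Real.rpow_one]; simp
      · intro x hinj _ hsol
        rw [Fin.sum_univ_two] at hs hsol
        have h1 : c 0 * ((x 0 : ℤ) - x 1) = 0 := by
          have : c 1 = - c 0 := by linarith
          rw [this] at hsol
          linarith
        rcases mul_eq_zero.1 h1 with h | h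
        · exact hc 0 h
        · have h2 : x 0 = x 1 := by omega
          exact absurd (hinj h2) (by decide)
  · -- at least three variables
    intro δ hδ
    set κ : ℝ := min δ 1 / 4 with hκ
    have hκ0 : 0 < κ := by
      rw [hκ]
      have : 0 < min δ 1 := lt_min hδ one_pos
      linarith
    have hκ4 : κ ≤ 1 / 4 := by
      rw [hκ]
      have : min δ 1 ≤ 1 := min_le_right _ _
      linarith
    have hκδ : 1 - δ ≤ 1 - 4 * κ := by
      rw [hκ]
      have : min δ 1 ≤ δ := min_le_left _ _
      linarith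
    obtain ⟨N₀, hN₀⟩ := Pool.Agent.H183R3.main_inv hℓ c hc hs (by
      intro γ C hγ hC
      obtain ⟨N, hN, A, hA, hlt⟩ := habu γ C hγ hC
      refine ⟨N, hN, A.image (fun n : ℕ => (n : ℤ)), ?_, ?_⟩
      · intro x hx
        obtain ⟨n, hn, rfl⟩ := Finset.mem_image.1 hx
        have := Finset.mem_Icc.1 (hA hn)
        rw [Finset.mem_Icc]
        exact ⟨by exact_mod_cast this.1, by exact_mod_cast this.2⟩
      · rw [Finset.card_image_of_injective _ Nat.cast_injective]
        refine lt_of_le_of_lt ?_ hlt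
        have hle : (Pool.Agent.H183R3.T (LinearMap.ker (Pool.Agent.H183R3.lin c))
            (A.image (fun n : ℕ => (n : ℤ)))).card ≤
            ((Fintype.piFinset (fun _ : Fin ℓ => A)).filter
              (fun x => ∑ i, c i * (x i : ℤ) = 0)).card := by
          apply Finset.card_le_card_of_injOn (fun (x : Fin ℓ → ℤ) => fun i => (x i).toNat)
          · intro x hx
            rw [Finset.mem_coe, Pool.Agent.H183R3.mem_T] at hx
            have hcast : ∀ i, (((x i).toNat : ℕ) : ℤ) = x i ∧ (x i).toNat ∈ A := by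
              intro i
              obtain ⟨n, hn, hn2⟩ := Finset.mem_image.1 (hx.1 i)
              rw [← hn2]
              simp [hn]
            rw [Finset.mem_coe, Finset.mem_filter, Fintype.mem_piFinset]
            refine ⟨fun i => (hcast i).2, ?_⟩
            have h2 := hx.2
            rw [LinearMap.mem_ker, Pool.Agent.H183R3.lin_toQ] at h2
            have h3 : ∑ i, c i * x i = 0 := by exact_mod_cast h2
            rw [← h3]
            refine Finset.sum_congr rfl fun i _ => ?_
            rw [(hcast i).1]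
          · intro x hx y hy hxy
            rw [Finset.mem_coe, Pool.Agent.H183R3.mem_T] at hx hy
            funext i
            obtain ⟨n, hn, hn2⟩ := Finset.mem_image.1 (hx.1 i)
            obtain ⟨m, hm, hm2⟩ := Finset.mem_image.1 (hy.1 i)
            have h4 : (x i).toNat = (y i).toNat := congrFun hxy i
            rw [← hn2, ← hm2] at h4 ⊢
            simpa using h4
        exact_mod_cast hle) κ hκ0 hκ4
    refine ⟨max N₀ 1, fun N hN => ?_⟩
    obtain ⟨A, hA, hAc, hAcard⟩ := hN₀ N (le_trans (le_max_left _ _) hN)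
    have hN1 : 1 ≤ N := le_trans (le_max_right _ _) hN
    have hN1R : (1 : ℝ) ≤ N := by exact_mod_cast hN1
    have hAnn : ∀ x ∈ A, 1 ≤ x ∧ x ≤ (N : ℤ) := fun x hx => Finset.mem_Icc.1 (hA hx)
    refine ⟨A.image Int.toNat, ?_, ?_, ?_⟩
    · intro n hn
      obtain ⟨x, hx, rfl⟩ := Finset.mem_image.1 hn
      have := hAnn x hx
      rw [Finset.mem_Icc]
      omega
    · rw [Finset.card_image_of_injOn (by
        intro x hx y hy hxy
        have h1 := hAnn x hx
        have h2 := hAnn y hy
        have h3 : x.toNat = y.toNat := hxy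
        omega)]
      exact le_trans (Real.rpow_le_rpow_of_exponent_le hN1R hκδ) hAcard
    · intro x hinj hx hsol
      have h1 : ∀ i, ((x i : ℕ) : ℤ) ∈ A := by
        intro i
        obtain ⟨y, hy, hy2⟩ := Finset.mem_image.1 (hx i)
        have h2 := hAnn y hy
        rw [← hy2]
        rwa [Int.toNat_of_nonneg (by linarith)]
      have h2 := hAc (fun i => (x i : ℤ)) h1 hsol ⟨0, by omega⟩ ⟨1, by omega⟩
      have h3 : x ⟨0, by omega⟩ = x ⟨1, by omega⟩ := by exact_mod_cast h2
      have h4 := hinj h3
      rw [Fin.mk.injEq] at h4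
      omega

end Pool.Agent.S17383
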