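import Pool.Statements.S17405
import Pool.Agent.H510R3.PQ2

set_option autoImplicit false
open Pool Pool.MP_725bd9_nt

namespace Pool.Agent.S17405

/-- For primes p<q that are not a Wieferich pair (not both p^(q-1)≡1 mod q² and q^(p-1)≡1 mod p²), there are no four distinct positive integers whose pairwise products plus one are all of the form p^i q^j. -/
theorem result :
    ∀ p q : ℕ, p.Prime → q.Prime → p < q →
      ¬ (p ^ (q - 1) ≡ 1 [MOD q ^ 2] ∧ q ^ (p - 1) ≡ 1 [MOD p ^ 2]) →
      ¬ ∃ a b c d : ℕ, 0 < a ∧ a < b ∧ b < c ∧ c < d ∧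
        ∀ x ∈ ({a, b, c, d} : Finset ℕ), ∀ y ∈ ({a, b, c, d} : Finset ℕ),
          x ≠ y → ∃ i j : ℕ, x * y + 1 = p ^ i * q ^ j := by
  rintro p q hp hq hlt - ⟨a, b, c, d, ha, hab, hbc, hcd, h⟩
  exact Pool.Agent.H510R3.PQ.no_quadruple hp hq hlt.ne ha hab hbc hcd
    (h a (by simp) b (by simp) (by omega)) (h a (by simp) c (by simp) (by omega))
    (h a (by simp) d (by simp) (by omega)) (h b (by simp) c (by simp) (by omega))
    (h b (by simp) d (by simp) (by omega)) (h c (by simp) d (by simp) (by omega))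

end Pool.Agent.S17405
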