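import Pool.Statements.S17546
import Pool.Agent.Results.MP_319fd9_nt.Aperiodic

set_option autoImplicit false
open Pool Pool.MP_7c6dee_nt

namespace Pool.Agent.S17546

/-- A Dickson sequence enumerating a complete sum-free set that is not eventually periodic. -/
theorem dickson_of_complete (T : Set ℕ) (hpos : ∀ s ∈ T, 0 < s)
    (hfree : ∀ s ∈ T, ∀ t ∈ T, s + t ∉ T)
    (hcov : ∃ N : ℕ, ∀ n : ℕ, N ≤ n → (n ∈ T ∨ ∃ s ∈ T, ∃ t ∈ T, s + t = n))
    (haper : ¬ ∃ m : ℕ, 0 < m ∧ ∃ N : ℕ, ∀ n : ℕ, N ≤ n → (n ∈ T ↔ n + m ∈ T)) :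
    ∃ (m : ℕ) (u : ℕ → ℕ), 1 ≤ m ∧ (∀ i, i < m → 0 < u i) ∧
      (∀ i, i + 1 < m → u i < u (i + 1)) ∧
      (∀ n, m ≤ n →
        IsLeast {x : ℕ | u (n - 1) < x ∧ ∀ i, i < n → ∀ j, j < n → x ≠ u i + u j} (u n)) ∧
      ¬ ∃ N p : ℕ, 1 ≤ p ∧ ∀ n, N ≤ n →
        ((u (n + p + 1) : ℤ) - (u (n + p) : ℤ)) = ((u (n + 1) : ℤ) - (u n : ℤ)) := by
  classical
  obtain ⟨X, hX⟩ := hcov
  have hinf : (Set.ofPred (fun x => x ∈ T)).Infinite := by
    intro hfin
    apply haper
    obtain ⟨B, hB⟩ := hfin.bddAbove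
    refine ⟨1, one_pos, B + 1, fun n hn => ?_⟩
    constructor
    · intro h
      have := hB (show n ∈ Set.ofPred (fun x => x ∈ T) from h)
      omega
    · intro h
      have := hB (show n + 1 ∈ Set.ofPred (fun x => x ∈ T) from h)
      omega
  set u : ℕ → ℕ := Nat.nth (fun x => x ∈ T) with hu
  have hmono : StrictMono u := Nat.nth_strictMono hinf
  have hmem : ∀ n, u n ∈ T := Nat.nth_mem_of_infinite hinf
  have hsurj : ∀ x, x ∈ T → ∃ k, u k = x := by
    intro x hx
    obtain ⟨k, _, hk⟩ := Nat.exists_lt_card_nth_eq (p := fun x => x ∈ T) hx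
    exact ⟨k, hk⟩
  refine ⟨X + 1, u, by omega, fun i _ => hpos _ (hmem i),
    fun i _ => hmono (Nat.lt_succ_self i), ?_, ?_⟩
  · intro n hn
    constructor
    · refine ⟨hmono (by omega), ?_⟩
      intro i _ j _ h
      have h1 := hmem n
      rw [h] at h1
      exact hfree _ (hmem i) _ (hmem j) h1
    · rintro x ⟨hx1, hx2⟩
      by_contra hlt
      push Not at hlt
      have hn1 : n - 1 ≤ u (n - 1) := hmono.id_le (n - 1)
      have hxS : x ∉ T := by
        intro hS
        obtain ⟨k, hk⟩ := hsurj x hS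
        rw [← hk] at hx1 hlt
        have h1 := hmono.lt_iff_lt.1 hx1
        have h2 := hmono.lt_iff_lt.1 hlt
        omega
      obtain ⟨s, hs, t, ht, hsum⟩ := (hX x (by omega)).resolve_left hxS
      obtain ⟨i, rfl⟩ := hsurj s hs
      obtain ⟨j, rfl⟩ := hsurj t ht
      have hi0 := hpos _ hs
      have hj0 := hpos _ ht
      have h3 : u j < u n := by omega
      have h4 : u i < u n := by omega
      exact hx2 i (hmono.lt_iff_lt.1 h4) j (hmono.lt_iff_lt.1 h3) hsum.symm
  · rintro ⟨N, p, hp, hper⟩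
    have hD : u N < u (N + p) := hmono (by omega)
    set D := u (N + p) - u N with hDdef
    have hshift : ∀ k, u (N + k + p) = u (N + k) + D := by
      intro k
      induction k with
      | zero =>
        have e0 : N + 0 + p = N + p := by omega
        have e1 : N + 0 = N := by omega
        rw [e0, e1]
        omega
      | succ k ih =>
        have h1 := hper (N + k) (by omega)
        have e1 : N + (k + 1) + p = N + k + p + 1 := by omega
        have e2 : N + (k + 1) = N + k + 1 := by omega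
        rw [e1, e2]
        omega
    refine haper ⟨D, by omega, u N, ?_⟩
    intro n hn
    constructor
    · intro hS
      obtain ⟨k, rfl⟩ := hsurj n hS
      have hk : N ≤ k := hmono.le_iff_le.1 hn
      obtain ⟨j, rfl⟩ := Nat.exists_eq_add_of_le hk
      rw [← hshift j]
      exact hmem _
    · intro hS
      obtain ⟨k, hk⟩ := hsurj _ hS
      have h1 : u (N + p) ≤ u k := by
        rw [hk]; omega
      have h2 : N + p ≤ k := hmono.le_iff_le.1 h1
      obtain ⟨j, rfl⟩ := Nat.exists_eq_add_of_le h2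
      have h3 := hshift j
      have e : N + p + j = N + j + p := by omega
      rw [e, h3] at hk
      have h4 : u (N + j) = n := by omega
      rw [← h4]
      exact hmem _

/-- The negation of the preceding statement: For every m ≥ 1 and every increasing seed of m positive integers, the Dickson sequence has an eventually periodic difference sequence. Each later term is the least integer above the previous one that is not a sum of two earlier terms, repeats allowed. -/
theorem result :
    ¬ (∀ m : ℕ, 1 ≤ m → ∀ u : ℕ → ℕ,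
      (∀ i, i < m → 0 < u i) →
      (∀ i, i + 1 < m → u i < u (i + 1)) →
      (∀ n, m ≤ n →
        IsLeast {x : ℕ | u (n - 1) < x ∧ ∀ i, i < n → ∀ j, j < n → x ≠ u i + u j} (u n)) →
      ∃ N p : ℕ, 1 ≤ p ∧ ∀ n, N ≤ n →
        ((u (n + p + 1) : ℤ) - (u (n + p) : ℤ)) = ((u (n + 1) : ℤ) - (u n : ℤ))) := by
  intro h
  obtain ⟨T, h1, h2, h3, h4⟩ := Pool.Agent.Results.MP_319fd9_nt.Aperiodic.result
  obtain ⟨m, u, hm, hu1, hu2, hu3, hu4⟩ := dickson_of_complete T h1 h2 h3 h4
  exact hu4 (h m hm u hu1 hu2 hu3)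

end Pool.Agent.S17546
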