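import Pool.Statements.S17591
import Pool.Agent.H739R3.PLp.Assemble

set_option autoImplicit false
open MeasureTheory Classical
open Pool Pool.MP_81c263_nt

namespace Pool.Agent.S17591

open Pool.Agent.H739R3.PLp in
lemma int_eq (p : ℝ) (d N : ℕ) (P : Finset (Fin d → ℝ)) :
    (∫ x in Set.pi Set.univ (fun _ : Fin d => Set.Ico (0 : ℝ) 1),
          ∫ y in Set.pi Set.univ (fun _ : Fin d => Set.Ico (0 : ℝ) 1),
            |((P.filter (fun z => ∀ i : Fin d,
                  (x i ≤ y i ∧ x i ≤ z i ∧ z i < y i) ∨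
                  (y i < x i ∧ (z i < y i ∨ x i ≤ z i)))).card : ℝ)
              - (N : ℝ) * ∏ i : Fin d,
                  (if x i ≤ y i then y i - x i else 1 - x i + y i)| ^ p) =
      ∫ x in cube d, ∫ y in cube d, |LD P N x y| ^ p := by
  unfold cube
  congr 1
  funext x
  congr 1
  funext y
  congr 2
  unfold LD
  congr 1
  · rw [Finset.card_filter]
    push_cast
    apply Finset.sum_congr rfl
    intro z _
    split_ifs <;> rfl
  
/-- For all p≥1 and d≥2 there is C such that for every N some N-point set in [0,1)^d has periodic L_p discrepancy (count in periodic boxes minus N times volume, L_p over box corners) at most C(1+log N)^((d-1)/2). -/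
theorem result :
    ∀ p : ℝ, 1 ≤ p → ∀ d : ℕ, 2 ≤ d → ∃ C : ℝ, 0 < C ∧ ∀ N : ℕ,
      ∃ P : Finset (Fin d → ℝ), P.card = N ∧
        (∀ z ∈ P, ∀ i, z i ∈ Set.Ico (0 : ℝ) 1) ∧
        (∫ x in Set.pi Set.univ (fun _ : Fin d => Set.Ico (0 : ℝ) 1),
          ∫ y in Set.pi Set.univ (fun _ : Fin d => Set.Ico (0 : ℝ) 1),
            |((P.filter (fun z => ∀ i : Fin d,
                  (x i ≤ y i ∧ x i ≤ z i ∧ z i < y i) ∨
                  (y i < x i ∧ (z i < y i ∨ x i ≤ z i)))).card : ℝ)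
              - (N : ℝ) * ∏ i : Fin d,
                  (if x i ≤ y i then y i - x i else 1 - x i + y i)| ^ p)
          ^ (1 / p)
        ≤ C * (1 + Real.log (N : ℝ)) ^ (((d : ℝ) - 1) / 2) := by
  intro p hp d hd
  have hp0 : 0 < p := by linarith
  -- prime base and distinct nodes
  obtain ⟨b, hbd, hbp⟩ := Nat.exists_infinite_primes d
  haveI : Fact b.Prime := ⟨hbp⟩
  have hb2 : 2 ≤ b := hbp.two_le
  have hα : Function.Injective (fun i : Fin d => ((i : ℕ) : ZMod b)) := by
    intro i j hij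
    have h := congrArg ZMod.val hij
    simp only at h
    rw [ZMod.val_cast_of_lt (lt_of_lt_of_le i.2 hbd), ZMod.val_cast_of_lt (lt_of_lt_of_le j.2 hbd)] at h
    exact Fin.ext h
  set q : ℕ := ⌈p⌉₊ with hq
  have hq1 : 1 ≤ q := by rw [hq]; exact Nat.one_le_iff_ne_zero.mpr (Nat.ceil_pos.mpr hp0).ne'
  have hpq : p ≤ 2 * q := by
    have := Nat.le_ceil p
    have : (0:ℝ) ≤ q := Nat.cast_nonneg _
    linarith
  -- constant
  set D : ℝ := (3 ^ d) ^ 2 * (4 * ((4 ^ (q + 1)) ^ d * (4 ^ (d - 1) * ((b : ℝ) ^ (2 * d) * (d + 2 * q))))) with hD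
  have hbR : (0:ℝ) < b := by exact_mod_cast hbp.pos
  have hdR : (2:ℝ) ≤ d := by exact_mod_cast hd
  have hD0 : 0 < D := by rw [hD]; positivity
  refine ⟨2 * Real.sqrt D, by positivity, ?_⟩
  intro N
  rcases Nat.eq_zero_or_pos N with hN0 | hN1
  · subst hN0
    refine ⟨∅, rfl, by simp, ?_⟩
    have h1 : ∀ x y : Fin d → ℝ, |(((∅ : Finset (Fin d → ℝ)).filter (fun z => ∀ i : Fin d,
                  (x i ≤ y i ∧ x i ≤ z i ∧ z i < y i) ∨
                  (y i < x i ∧ (z i < y i ∨ x i ≤ z i)))).card : ℝ)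
              - ((0:ℕ) : ℝ) * ∏ i : Fin d,
                  (if x i ≤ y i then y i - x i else 1 - x i + y i)| ^ p = 0 := by
      intro x y
      simp [Real.zero_rpow hp0.ne']
    simp only [h1]
    simp only [integral_zero]
    rw [Real.zero_rpow (by positivity)]
    simp
  · set m := Nat.clog b N with hm
    have hNle : N ≤ b ^ m := Nat.le_pow_clog (by omega) N
    set L : ℝ := 1 + Real.log N with hL
    have hN1R : (1:ℝ) ≤ N := by exact_mod_cast hN1
    have hlog0 : 0 ≤ Real.log N := Real.log_nonneg hN1R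
    have hL1 : 1 ≤ L := by rw [hL]; linarith
    have hmL : (m : ℝ) + 1 ≤ 4 * L := by
      rcases Nat.lt_or_ge N 2 with h2 | h2
      · have : N = 1 := by omega
        have hm0 : m = 0 := by rw [hm, this]; simp
        rw [hm0]; push_cast; linarith
      · have h3 : b ^ (m - 1) < N := by
          rw [hm]
          exact Nat.pow_pred_clog_lt_self (by omega) (by omega)
        have h4 : (2:ℝ) ^ (m - 1) ≤ N := by
          have : 2 ^ (m - 1) ≤ b ^ (m - 1) := Nat.pow_le_pow_left hb2 _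
          have : 2 ^ (m - 1) ≤ N := by omega
          exact_mod_cast this
        have h5 : ((m - 1 : ℕ) : ℝ) * Real.log 2 ≤ Real.log N := by
          rw [← Real.log_pow]
          exact Real.log_le_log (by positivity) h4
        have hlog2 : (1:ℝ) / 2 ≤ Real.log 2 := by
          have := Real.log_two_gt_d9; linarith
        have h6 : ((m - 1 : ℕ) : ℝ) * (1 / 2) ≤ Real.log N := by
          refine le_trans ?_ h5
          exact mul_le_mul_of_nonneg_left hlog2 (Nat.cast_nonneg _)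
        have h7 : (m : ℝ) ≤ ((m - 1 : ℕ) : ℝ) + 1 := by
          have : m ≤ (m - 1) + 1 := by omega
          exact_mod_cast this
        rw [hL]; linarith
    set M : ℝ := Real.sqrt (D * L ^ (d - 1)) with hM
    have hLd : 0 < L ^ (d - 1) := by positivity
    have hM0 : 0 < M := Real.sqrt_pos.mpr (by positivity)
    have hM2 : (3 ^ d) ^ 2 * (4 * ((4 ^ (q + 1)) ^ d * (((m : ℝ) + 1) ^ (d - 1) * ((b : ℝ) ^ (2 * d) * (d + 2 * q))))) ≤ M ^ 2 := by
      rw [hM, Real.sq_sqrt (by positivity)]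
      have h8 : ((m : ℝ) + 1) ^ (d - 1) ≤ 4 ^ (d - 1) * L ^ (d - 1) := by
        rw [← mul_pow]
        exact pow_le_pow_left₀ (by positivity) hmL _
      calc (3 ^ d) ^ 2 * (4 * ((4 ^ (q + 1)) ^ d * (((m : ℝ) + 1) ^ (d - 1) * ((b : ℝ) ^ (2 * d) * (d + 2 * q)))))
          ≤ (3 ^ d) ^ 2 * (4 * ((4 ^ (q + 1)) ^ d * ((4 ^ (d - 1) * L ^ (d - 1)) * ((b : ℝ) ^ (2 * d) * (d + 2 * q))))) := by
            gcongr
        _ = D * L ^ (d - 1) := by rw [hD]; ring
    obtain ⟨P, hP1, hP2, hP3⟩ := Pool.Agent.H739R3.PLp.exists_good (m := m) hq1 hα ⟨0, by omega⟩ hN1 hNle p hp0 hpq M hM0 hM2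
    refine ⟨P, hP1, hP2, ?_⟩
    rw [int_eq]
    have hint0 : 0 ≤ ∫ x in Pool.Agent.H739R3.PLp.cube d, ∫ y in Pool.Agent.H739R3.PLp.cube d, |Pool.Agent.H739R3.PLp.LD P N x y| ^ p := by
      apply integral_nonneg; intro x
      apply integral_nonneg; intro y
      positivity
    have hMp : 0 < M ^ p := Real.rpow_pos_of_pos hM0 p
    calc (∫ x in Pool.Agent.H739R3.PLp.cube d, ∫ y in Pool.Agent.H739R3.PLp.cube d, |Pool.Agent.H739R3.PLp.LD P N x y| ^ p) ^ (1 / p)
        ≤ (2 * M ^ p) ^ (1 / p) := Real.rpow_le_rpow hint0 hP3 (by positivity)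
      _ = 2 ^ (1 / p) * M := by
          rw [Real.mul_rpow (by norm_num) hMp.le, ← Real.rpow_mul hM0.le, mul_one_div_cancel hp0.ne', Real.rpow_one]
      _ ≤ 2 * M := by
          apply mul_le_mul_of_nonneg_right _ hM0.le
          calc (2:ℝ) ^ (1 / p) ≤ 2 ^ (1:ℝ) := Real.rpow_le_rpow_of_exponent_le (by norm_num) (by rw [div_le_one hp0]; exact hp)
            _ = 2 := Real.rpow_one 2
      _ = 2 * Real.sqrt D * L ^ (((d : ℝ) - 1) / 2) := by
          rw [hM, Real.sqrt_mul hD0.le, mul_assoc]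
          congr 2
          rw [Real.sqrt_eq_rpow, ← Real.rpow_natCast, ← Real.rpow_mul (by linarith)]
          congr 1
          rw [Nat.cast_sub (by omega)]
          push_cast; ring

end Pool.Agent.S17591
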