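import Pool.Statements.S17669
import Pool.Agent.H303R3.KI

set_option autoImplicit false
open Pool Pool.MP_885588_nt

namespace Pool.Agent.S17669

open Pool.Agent.H303R3 in
lemma ncard_eq (A : Set ℕ) (k i n : ℕ) :
    Set.ncard {a : Fin k → ℕ | (∀ j, a j ∈ A) ∧ (∑ j, a j) = n ∧
              (i = 2 → Monotone a) ∧ (i = 3 → StrictMono a)}
      = Rn A (fun a : Fin k → ℕ => (i = 2 → Monotone a) ∧ (i = 3 → StrictMono a)) n := by
  classical
  unfold Rn
  rw [← Set.ncard_coe_finset]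
  congr 1
  ext a
  simp only [Finset.coe_filter, Set.mem_ofPred_eq, mem_tup]
  tauto

open Pool.Agent.H303R3 in
lemma exists_tuple (A : Set ℕ) (hA : A.Infinite) (k : ℕ) (hk : 0 < k) (N : ℕ) :
    ∃ a : Fin k → ℕ, (∀ j, a j ∈ A) ∧ StrictMono a ∧ N ≤ ∑ j, a j := by
  classical
  have h1 : (A \ Set.Iio N).Infinite := hA.diff (Set.finite_Iio N)
  obtain ⟨t, ht, htc⟩ := h1.exists_subset_card_eq k
  refine ⟨fun j => t.orderEmbOfFin htc j, ?_, ?_, ?_⟩
  · intro j
    exact (ht (Finset.orderEmbOfFin_mem t htc j)).1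
  · exact (t.orderEmbOfFin htc).strictMono
  · have h2 := (ht (Finset.orderEmbOfFin_mem t htc ⟨0, hk⟩)).2
    have h3 : N ≤ t.orderEmbOfFin htc ⟨0, hk⟩ := by simpa using h2
    exact h3.trans (Finset.single_le_sum (f := fun j => t.orderEmbOfFin htc j)
      (fun _ _ => Nat.zero_le _) (Finset.mem_univ _))

/-- For all k ≥ 2, i in {1,2,3}, ε > 0 and infinite A ⊆ ℕ: if the number of k-term representations of n from A (ordered, non-decreasing, or strictly increasing for i = 1, 2, 3) is eventually non-decreasing in n, then #{a in A : 1 ≤ a ≤ n} is not O(n^(2/k − ε)). -/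
theorem result :
    ∀ k : ℕ, 2 ≤ k → ∀ i ∈ ({1, 2, 3} : Finset ℕ), ∀ ε : ℝ, 0 < ε →
      ∀ A : Set ℕ, A.Infinite →
        (∃ n₀ : ℕ, ∀ n : ℕ, n₀ ≤ n →
          Set.ncard {a : Fin k → ℕ | (∀ j, a j ∈ A) ∧ (∑ j, a j) = n ∧
              (i = 2 → Monotone a) ∧ (i = 3 → StrictMono a)} ≤
          Set.ncard {a : Fin k → ℕ | (∀ j, a j ∈ A) ∧ (∑ j, a j) = n + 1 ∧
              (i = 2 → Monotone a) ∧ (i = 3 → StrictMono a)}) →
        ¬ Asymptotics.IsBigO Filter.atTop
            (fun n : ℕ => ((A ∩ Set.Icc 1 n).ncard : ℝ))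
            (fun n : ℕ => (n : ℝ) ^ ((2 : ℝ) / (k : ℝ) - ε)) := by
  classical
  intro k hk i hi ε hε A hA hmono hO
  have hk0 : (0 : ℝ) < k := by exact_mod_cast (by omega : 0 < k)
  have hk2 : (2 : ℝ) ≤ k := by exact_mod_cast hk
  have hp0 : (0 : ℝ) < 2 / k := by positivity
  have hp1 : (2 / k : ℝ) ≤ 1 := by rw [div_le_one hk0]; exact hk2
  set P : (Fin k → ℕ) → Prop := fun a => (i = 2 → Monotone a) ∧ (i = 3 → StrictMono a) with hP
  have hmono' : ∃ n₀, ∀ n, n₀ ≤ n → Pool.Agent.H303R3.Rn A P n ≤ Pool.Agent.H303R3.Rn A P (n + 1) := by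
    obtain ⟨n₀, h⟩ := hmono
    refine ⟨n₀, fun n hn => ?_⟩
    have := h n hn
    rwa [ncard_eq, ncard_eq] at this
  -- positivity
  have hpos : ∃ n1, ∀ n, n1 ≤ n → 1 ≤ Pool.Agent.H303R3.Rn A P n := by
    obtain ⟨n₀, h⟩ := hmono'
    obtain ⟨a, ha1, ha2, ha3⟩ := exists_tuple A hA k (by omega) n₀
    refine ⟨∑ j, a j, fun n hn => ?_⟩
    induction n, hn using Nat.le_induction with
    | base =>
      unfold Pool.Agent.H303R3.Rn
      rw [Nat.one_le_iff_ne_zero, ← Nat.pos_iff_ne_zero, Finset.card_pos]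
      refine ⟨a, ?_⟩
      simp only [Finset.mem_filter, Pool.Agent.H303R3.mem_tup]
      exact ⟨⟨ha1, trivial⟩, fun _ => ha2.monotone, fun _ => ha2⟩
    | succ m hm ih => exact ih.trans (h m (ha3.trans hm))
  -- counting bound
  set ε' : ℝ := min ε (2 / k) with hε'
  have hε'0 : 0 < ε' := lt_min hε hp0
  have hε'1 : ε' ≤ 2 / k := min_le_right _ _
  have hε'2 : ε' ≤ ε := min_le_left _ _
  have hβ0 : 0 ≤ 2 / k - ε' := by linarith
  obtain ⟨C, hC⟩ := hO.bound
  obtain ⟨N, hN⟩ := Filter.eventually_atTop.mp hC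
  have hcnt : ∀ n, Pool.Agent.H303R3.cnt A n ≤ (1 + (|C| + N)) * ((n : ℝ) + 1) ^ (2 / k - ε' : ℝ) := by
    intro n
    have hone : (1 : ℝ) ≤ ((n : ℝ) + 1) ^ (2 / k - ε' : ℝ) := by
      apply Real.one_le_rpow _ hβ0
      have : (0 : ℝ) ≤ n := Nat.cast_nonneg n
      linarith
    have h1 : Pool.Agent.H303R3.cnt A n ≤ 1 + ((A ∩ Set.Icc 1 n).ncard : ℝ) := by
      unfold Pool.Agent.H303R3.cnt
      rw [Finset.sum_range_succ', add_comm]
      apply add_le_add
      · split_ifs <;> norm_num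
      · have h2 : A ∩ Set.Icc 1 n = (({m ∈ Finset.Icc 1 n | m ∈ A} : Finset ℕ) : Set ℕ) := by
          ext m
          simp only [Finset.coe_filter, Set.mem_ofPred_eq, Set.mem_inter_iff, Set.mem_Icc, Finset.mem_Icc]
          tauto
        rw [h2, Set.ncard_coe_finset, Finset.card_filter]
        push_cast
        rw [Finset.sum_ite, Finset.sum_ite]
        simp only [Finset.sum_const, nsmul_eq_mul, mul_one, mul_zero, add_zero]
        norm_cast
        apply Finset.card_le_card_of_injOn (fun m => m + 1)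
        · intro m hm
          simp only [Finset.coe_filter, Finset.mem_range, Set.mem_ofPred_eq] at hm
          simp only [Finset.coe_filter, Finset.mem_Icc, Set.mem_ofPred_eq]
          exact ⟨⟨by omega, by omega⟩, hm.2⟩
        · intro x _ y _ hxy
          simpa using hxy
    have h3 : ((A ∩ Set.Icc 1 n).ncard : ℝ) ≤ (|C| + N) * ((n : ℝ) + 1) ^ (2 / k - ε' : ℝ) := by
      have hn0 : (0 : ℝ) ≤ n := Nat.cast_nonneg n
      have hN0 : (0 : ℝ) ≤ N := Nat.cast_nonneg N
      by_cases hnN : N ≤ n ∧ 1 ≤ n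
      · have h4 := hN n hnN.1
        have hn1 : (1 : ℝ) ≤ n := by exact_mod_cast hnN.2
        rw [Real.norm_of_nonneg (by positivity), Real.norm_of_nonneg (by positivity)] at h4
        have h5 : (n : ℝ) ^ (2 / k - ε : ℝ) ≤ ((n : ℝ) + 1) ^ (2 / k - ε' : ℝ) := by
          calc (n : ℝ) ^ (2 / k - ε : ℝ) ≤ (n : ℝ) ^ (2 / k - ε' : ℝ) :=
                Real.rpow_le_rpow_of_exponent_le hn1 (by linarith)
            _ ≤ _ := Real.rpow_le_rpow hn0 (by linarith) hβ0
        calc ((A ∩ Set.Icc 1 n).ncard : ℝ) ≤ C * (n : ℝ) ^ (2 / k - ε : ℝ) := h4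
          _ ≤ |C| * (n : ℝ) ^ (2 / k - ε : ℝ) := by
              apply mul_le_mul_of_nonneg_right (le_abs_self C) (by positivity)
          _ ≤ |C| * ((n : ℝ) + 1) ^ (2 / k - ε' : ℝ) := by gcongr
          _ ≤ _ := by
              have : (0 : ℝ) ≤ N * ((n : ℝ) + 1) ^ (2 / k - ε' : ℝ) := by positivity
              linarith
      · have h4 : (A ∩ Set.Icc 1 n).ncard ≤ n := by
          have h5 : (A ∩ Set.Icc 1 n).ncard ≤ (Set.Icc 1 n).ncard :=
            Set.ncard_le_ncard Set.inter_subset_right (Set.finite_Icc 1 n)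
          have h6 : (Set.Icc 1 n).ncard = n := by
            rw [← Finset.coe_Icc, Set.ncard_coe_finset, Nat.card_Icc]; omega
          omega
        have h7 : n ≤ N := by
          by_contra hcon
          exact hnN ⟨by omega, by omega⟩
        have h8 : ((A ∩ Set.Icc 1 n).ncard : ℝ) ≤ N := by exact_mod_cast h4.trans h7
        have h9 : 0 ≤ |C| := abs_nonneg C
        nlinarith
    nlinarith
  have key : ∀ χ : Equiv.Perm (Fin k) → ℤ,
      (∀ a, ((Finset.card {τ : Equiv.Perm (Fin k) | P (a ∘ τ)} : ℕ) : ℤ) = ∑ σ ∈ Pool.Agent.H303R3.stab a, χ σ) →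
      1 ≤ χ 1 → (∀ σ, σ ≠ 1 → |χ σ| ≤ 1) → False := by
    intro χ h1 h2 h3
    refine Pool.Agent.H303R3.no_slow hk A P χ (fun a => ?_) h2 h3 hmono' hpos hε'0 hε'1
      (K := 1 + (|C| + N)) (by positivity) hcnt
    rw [← h1 a]
    refine congrArg (fun s : Finset (Equiv.Perm (Fin k)) => ((s.card : ℕ) : ℤ)) ?_
    ext τ
    simp only [Finset.mem_filter]
  simp only [Finset.mem_insert, Finset.mem_singleton] at hi
  rcases hi with rfl | rfl | rfl
  · -- ordered
    refine key (fun σ => if σ = 1 then (k.factorial : ℤ) else 0) ?_ ?_ ?_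
    · intro a
      have h1 : ({τ : Equiv.Perm (Fin k) | P (a ∘ τ)} : Finset _) = Finset.univ := by
        rw [Finset.filter_eq_self]
        intro τ _
        simp [hP]
      rw [h1, Finset.card_univ, Fintype.card_perm, Fintype.card_fin, Finset.sum_ite_eq']
      rw [if_pos]
      rw [Pool.Agent.H303R3.mem_stab]
      rfl
    · simp only [if_true]
      exact_mod_cast Nat.factorial_pos k
    · intro σ hσ
      rw [if_neg hσ]; norm_num
  · refine key (fun _ => 1) ?_ le_rfl (fun σ _ => by norm_num)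
    intro a
    have h1 := Pool.Agent.H303R3.card_mono a
    rw [Finset.sum_const, nsmul_eq_mul, mul_one, ← h1]
    refine congrArg (fun s : Finset (Equiv.Perm (Fin k)) => ((s.card : ℕ) : ℤ)) ?_
    ext τ
    simp [hP]
  · refine key (fun σ => ((Equiv.Perm.sign σ : ℤˣ) : ℤ)) ?_ ?_ ?_
    · intro a
      have h1 := Pool.Agent.H303R3.card_strict a
      rw [← h1]
      refine congrArg (fun s : Finset (Equiv.Perm (Fin k)) => ((s.card : ℕ) : ℤ)) ?_
      ext τ
      simp [hP]
    · simp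
    · intro σ _
      rcases Int.units_eq_one_or (Equiv.Perm.sign σ) with h | h <;> rw [h] <;> norm_num

end Pool.Agent.S17669
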