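import Pool.Statements.S17685
import Pool.Agent.H362R2.CM.Final
import Pool.Agent.H526R3.SynTree

/-!
# Syndetic difference sets in finite colourings of the primes

For every colouring of the primes with `k` colours some colour class `E` has `E - E` syndetic.

Proof. Suppose not. For every colour `j` the set `D j` of differences of primes of colour `j` is
symmetric and misses arbitrarily long intervals of positive integers. Put `b = 4 k + 1`, `T = b ^ k`, and let
`K` be the number given by the coloured Maynard-Tao theorem `quarter T` (earlier work in the library):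
for every admissible family of shifts `h (g, i)`, `g` one of `T` classes, `i < K`, there are `n` such that at
least a quarter of the classes `g` contain a prime `n + h (g, c g)`. We identify the classes with
the functions `g : Fin k → Fin b` and choose `h (g, i) = M i + ∑ j, w j (g j)` such that
`w j r - w j s + x` is not in `D j` for `r ≠ s` and `|x| ≤ M K`. Two primes found in classes that differ
only in the `j`-th coordinate cannot both have colour `j`. Hence at most `b ^ (k - 1)` of the classes
contribute a prime of colour `j`, so at most `k b ^ (k - 1) < T / 4` classes contain a prime, a contradiction.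
-/

set_option autoImplicit false
open Pool Pool.MP_89da58_nt

namespace Pool.Agent.S17685

open Finset

/-- the counting step -/
theorem count {k b : ℕ} {α : Type*} (S : Finset α) (e : α → (Fin k → Fin b)) (χ : α → Fin k)
    (h : ∀ x ∈ S, ∀ y ∈ S, ∀ j, χ x = j → χ y = j → (∀ i, i ≠ j → e x i = e y i) → x = y) :
    S.card * b ≤ k * b ^ k := by
  classical
  have h1 : ∀ j : Fin k, (S.filter (fun x => χ x = j)).card * b ≤ b ^ k := by
    intro j
    have h2 : ((S.filter (fun x => χ x = j)) ×ˢ (univ : Finset (Fin b))).card ≤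
        (univ : Finset (Fin k → Fin b)).card := by
      refine Finset.card_le_card_of_injOn (fun z => Function.update (e z.1) j z.2)
        (fun _ _ => mem_coe.2 (mem_univ _)) ?_
      rintro ⟨x, t⟩ hx ⟨y, t'⟩ hy hxy
      simp only [coe_product, Set.mem_prod, mem_coe, mem_filter] at hx hy
      simp only at hxy
      have h3 : t = t' := by
        have := congrFun hxy j
        simpa using this
      have h4 : ∀ i, i ≠ j → e x i = e y i := by
        intro i hi
        have := congrFun hxy i
        simpa [Function.update_of_ne hi] using this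
      have h5 := h x hx.1.1 y hy.1.1 j hx.1.2 hy.1.2 h4
      rw [h3, h5]
    simpa [Finset.card_product] using h2
  have h2 : S.card = ∑ j : Fin k, (S.filter (fun x => χ x = j)).card :=
    Finset.card_eq_sum_card_fiberwise (fun _ _ => mem_coe.2 (mem_univ _))
  calc S.card * b = ∑ j : Fin k, (S.filter (fun x => χ x = j)).card * b := by
        rw [h2, Finset.sum_mul]
    _ ≤ ∑ j : Fin k, b ^ k := Finset.sum_le_sum fun j _ => h1 j
    _ = k * b ^ k := by simp

/-- The difference set of a colour class cannot miss long intervals for all colours. -/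
theorem main (k : ℕ) (c : ℕ → Fin k)
    (hno : ∀ i : Fin k, ∀ L : ℕ, ∃ n : ℤ, ∀ p q : ℕ, p.Prime → q.Prime → c p = i → c q = i →
      n ≤ (p : ℤ) - q → (p : ℤ) - q ≤ n + (L : ℤ) → False) : False := by
  classical
  -- the difference sets
  set D : ℕ → Set ℤ := fun j => {x | ∃ p q : ℕ, p.Prime ∧ q.Prime ∧ (c p : ℕ) = j ∧ (c q : ℕ) = j ∧
    x = (p : ℤ) - q} with hD
  have hsym : ∀ j, ∀ x ∈ D j, -x ∈ D j := by
    rintro j x ⟨p, q, hp, hq, h1, h2, rfl⟩
    exact ⟨q, p, hq, hp, h2, h1, by ring⟩
  have hgap : ∀ j, ∀ L : ℕ, ∃ m : ℕ, ∀ x : ℤ, (m : ℤ) ≤ x → x ≤ m + L → x ∉ D j := by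
    intro j L
    by_cases hne : ∃ p : ℕ, p.Prime ∧ (c p : ℕ) = j
    · obtain ⟨p0, hp0, hc0⟩ := hne
      obtain ⟨n, hn⟩ := hno (c p0) L
      rcases le_or_gt n 0 with h0 | h0
      · -- the window lies left of zero
        have h1 : n + L < 0 := by
          by_contra hcon
          rw [not_lt] at hcon
          exact hn p0 p0 hp0 hp0 rfl rfl (by simpa using h0) (by simpa using hcon)
        refine ⟨(-(n + L)).toNat, ?_⟩
        rintro x hx1 hx2 ⟨p, q, hp, hq, h2, h3, rfl⟩
        rw [Int.toNat_of_nonneg (by omega)] at hx1 hx2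
        refine hn q p hq hp (Fin.ext (by rw [h3, hc0])) (Fin.ext (by rw [h2, hc0])) ?_ ?_
        · linarith
        · linarith
      · refine ⟨n.toNat, ?_⟩
        rintro x hx1 hx2 ⟨p, q, hp, hq, h2, h3, rfl⟩
        rw [Int.toNat_of_nonneg h0.le] at hx1 hx2
        exact hn p q hp hq (Fin.ext (by rw [h2, hc0])) (Fin.ext (by rw [h3, hc0])) hx1 hx2
    · refine ⟨0, ?_⟩
      rintro x _ _ ⟨p, q, hp, hq, h2, h3, rfl⟩
      exact hne ⟨p, hp, h2⟩
  -- parameters
  obtain ⟨b, hb⟩ : ∃ b : ℕ, b = 4 * k + 1 := ⟨_, rfl⟩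
  obtain ⟨K, hK1, hK⟩ := Pool.Agent.H362R2.CM.quarter (b ^ k)
  obtain ⟨M, hMdef⟩ : ∃ M : ℕ, M = (b ^ k * K).factorial := ⟨_, rfl⟩
  have hM : 1 ≤ M := by rw [hMdef]; exact Nat.factorial_pos _
  obtain ⟨w, hw1, hw2, hw3⟩ := Pool.Agent.H526R3.Syn.multi D hsym hgap M hM b K
  set e : Fin (b ^ k) ≃ (Fin k → Fin b) := finFunctionFinEquiv.symm with he
  -- the shifts
  set gg : Fin (b ^ k) → ℕ → ℕ := fun g j => if hj : j < k then (e g ⟨j, hj⟩ : ℕ) else 0 with hgg
  have hgb : ∀ g, ∀ j < k, gg g j < b := by
    intro g j hj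
    simp only [hgg, hj, dif_pos]
    exact (e g ⟨j, hj⟩).2
  have hgj : ∀ g, ∀ j : Fin k, gg g j = e g j := by
    intro g j
    simp only [hgg, j.2, dif_pos]
  set h : Fin (b ^ k) → Fin K → ℕ := fun g i => M * (i : ℕ) + ∑ j ∈ range k, w j (gg g j) with hh
  have hMh : ∀ g i, M ∣ h g i := fun g i =>
    dvd_add (Dvd.intro _ rfl) (Finset.dvd_sum fun j _ => hw1 j _)
  have hinj : ∀ g i g' i', h g i = h g' i' → g = g' ∧ i = i' := by
    intro g i g' i' hgi
    obtain ⟨h1, h2⟩ := hw3 k (gg g) (gg g') (hgb g) (hgb g') i i.2.le i' i'.2.le hgi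
    refine ⟨?_, Fin.ext h1⟩
    apply e.injective
    funext j
    apply Fin.ext
    rw [← hgj, ← hgj]
    exact h2 j j.2
  obtain ⟨S, cc, hS, hinf⟩ := hK (fun _ _ => 1) (fun g i => (h g i : ℤ)) (fun _ _ => one_pos)
    (by
      rintro ⟨g, i⟩ ⟨g', i'⟩ hx
      simp only [Prod.mk.injEq, true_and] at hx
      obtain ⟨h1, h2⟩ := hinj g i g' i' (by exact_mod_cast hx)
      rw [h1, h2])
    (by
      intro p hp
      rcases le_or_gt p (b ^ k * K) with hpl | hpl
      · refine ⟨1, fun g i hdvd => ?_⟩
        have h1 : p ∣ h g i := (((hp.dvd_factorial).2 hpl).trans (hMdef ▸ dvd_rfl)).trans (hMh g i)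
        have h2 : (p : ℤ) ∣ 1 := by
          have h3 : (p : ℤ) ∣ (h g i : ℤ) := Int.natCast_dvd_natCast.2 h1
          have h4 := dvd_sub hdvd h3
          simpa using h4
        exact (Nat.prime_iff_prime_int.1 hp).not_isUnit (isUnit_of_dvd_one h2)
      · obtain ⟨n, hn⟩ := Pool.Agent.H361R2.exists_avoid' hp hpl (fun _ => (1 : ℤ))
          (fun z => (h (finProdFinEquiv.symm z).1 (finProdFinEquiv.symm z).2 : ℤ))
          (fun z hz => (Nat.prime_iff_prime_int.1 hp).not_isUnit (isUnit_of_dvd_one hz.1))
        refine ⟨n, fun g i => ?_⟩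
        have := hn (finProdFinEquiv (g, i))
        simpa using this)
  obtain ⟨n, hn⟩ := hinf.nonempty
  have hpr : ∀ g ∈ S, (n + h g (cc g)).Prime := by
    intro g hg
    have h1 := (hn g hg).2
    rw [Nat.prime_iff_prime_int]
    have e1 : ((n + h g (cc g) : ℕ) : ℤ) = 1 * (n : ℤ) + (h g (cc g) : ℤ) := by push_cast; ring
    rw [e1]
    exact h1
  have hcount := count S e (fun g => c (n + h g (cc g))) (by
    intro x hx y hy j hjx hjy hxy
    by_contra hne
    -- they differ in the coordinate `j`
    have hdiff : gg x j ≠ gg y j := by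
      intro heq
      apply hne
      apply e.injective
      funext i
      by_cases hij : i = j
      · subst hij
        apply Fin.ext
        rw [← hgj, ← hgj]; exact heq
      · exact hxy i hij
    have hsum : ∀ z : Fin (b ^ k), ∑ i ∈ range k, w i (gg z i) =
        w j (gg z j) + ∑ i ∈ (range k).erase j, w i (gg z i) := by
      intro z
      exact (Finset.add_sum_erase (range k) (fun i => w i (gg z i)) (mem_range.2 j.2)).symm
    have hsame : ∑ i ∈ (range k).erase j, w i (gg x i) = ∑ i ∈ (range k).erase j, w i (gg y i) := by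
      apply Finset.sum_congr rfl
      intro i hi
      have hi1 := (mem_erase.1 hi).1
      have hi2 := mem_range.1 (mem_erase.1 hi).2
      have h1 := hxy ⟨i, hi2⟩ (fun hcon => hi1 (by rw [← hcon]))
      have h2 : gg x i = gg y i := by
        simp only [hgg, hi2, dif_pos, h1]
      rw [h2]
    apply hw2 j (gg x j) (hgb x j j.2) (gg y j) (hgb y j j.2) hdiff
      ((M : ℤ) * (cc x : ℕ) - M * (cc y : ℕ)) ?_
    · refine ⟨n + h x (cc x), n + h y (cc y), hpr x hx, hpr y hy, ?_, ?_, ?_⟩
      · rw [hjx]
      · rw [hjy]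
      · simp only [hh]
        rw [hsum x, hsum y, hsame]
        push_cast
        ring
    · rw [← mul_sub, abs_mul, Nat.abs_cast]
      apply mul_le_mul_of_nonneg_left _ (Nat.cast_nonneg _)
      have h1 := (cc x).2
      have h2 := (cc y).2
      rw [abs_le]
      constructor <;> omega)
  have hbk : 0 < b ^ k := by
    apply Nat.pow_pos
    omega
  have h1 : b ^ k * b ≤ 4 * (k * b ^ k) := by
    calc b ^ k * b ≤ (4 * S.card) * b := Nat.mul_le_mul_right _ hS
      _ = 4 * (S.card * b) := by ring
      _ ≤ 4 * (k * b ^ k) := Nat.mul_le_mul_left _ hcount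
  have h2 : b ^ k * b ≤ b ^ k * (4 * k) := by
    calc b ^ k * b ≤ 4 * (k * b ^ k) := h1
      _ = b ^ k * (4 * k) := by ring
  have h3 := Nat.le_of_mul_le_mul_left h2 hbk
  omega

/-- For every colouring of the primes with finitely many colours, some colour class E has E − E syndetic in the integers: there is L such that every integer window [n, n+L] contains a difference p − q of two primes of that colour. -/
theorem result :
    ∀ k : ℕ, ∀ c : ℕ → Fin k, ∃ i : Fin k, ∃ L : ℕ, ∀ n : ℤ,
      ∃ p q : ℕ, p.Prime ∧ q.Prime ∧ c p = i ∧ c q = i ∧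
        n ≤ (p : ℤ) - (q : ℤ) ∧ (p : ℤ) - (q : ℤ) ≤ n + (L : ℤ) := by
  intro k c
  by_contra hcon
  push Not at hcon
  refine main k c (fun i L => ?_)
  obtain ⟨n, hn⟩ := hcon i L
  refine ⟨n, fun p q hp hq h1 h2 h3 h4 => ?_⟩
  have := hn p q hp hq h1 h2 h3
  omega

end Pool.Agent.S17685
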