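import Pool.Statements.S17709
import Pool.Agent.H238R3.LevelApprox

set_option autoImplicit false
open Pool Pool.MP_8ce656_nt

namespace Pool.Agent.S17709

open Polynomial Pool.Agent.H238R3

/-- naive height -/
def ht (P : ℤ[X]) : ℕ := (Finset.range (P.natDegree + 1)).sup (fun i => (P.coeff i).natAbs)

lemma coeff_le_ht (P : ℤ[X]) (i : ℕ) : |(P.coeff i : ℝ)| ≤ ht P := by
  rcases Nat.lt_or_ge P.natDegree i with h | h
  · rw [coeff_eq_zero_of_natDegree_lt h]; simp
  · have h1 : (P.coeff i).natAbs ≤ ht P :=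
      Finset.le_sup (f := fun i => (P.coeff i).natAbs) (Finset.mem_range.mpr (by omega))
    calc |(P.coeff i : ℝ)| = ((P.coeff i).natAbs : ℝ) := by
          rw [Nat.cast_natAbs]; push_cast; rfl
      _ ≤ ht P := by exact_mod_cast h1

lemma ht_le (P : ℤ[X]) (h : ℝ) (hh : ∀ i, |(P.coeff i : ℝ)| ≤ h) : (ht P : ℝ) ≤ h := by
  obtain ⟨i, _, hi⟩ := Finset.exists_mem_eq_sup (Finset.range (P.natDegree + 1))
    ⟨0, by simp⟩ (fun i => (P.coeff i).natAbs)
  have h1 : ht P = (P.coeff i).natAbs := hi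
  rw [h1]
  calc ((P.coeff i).natAbs : ℝ) = |(P.coeff i : ℝ)| := by rw [Nat.cast_natAbs]; push_cast; rfl
    _ ≤ h := hh i

lemma one_le_ht (P : ℤ[X]) (hP : P ≠ 0) : (1 : ℝ) ≤ ht P := by
  have h1 : P.leadingCoeff ≠ 0 := leadingCoeff_ne_zero.mpr hP
  have h2 : (1 : ℝ) ≤ |(P.coeff P.natDegree : ℝ)| := by exact_mod_cast Int.one_le_abs h1
  exact h2.trans (coeff_le_ht P _)

/-- the set in the statement -/
def W (ζ : ℝ) (n : ℕ) : Set ℝ :=
            {w : ℝ | ∃ H₀ : ℝ, ∀ H : ℝ, H₀ ≤ H →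
              ∃ α : ℝ, ∃ P : Polynomial ℤ,
                Irreducible P ∧ P.natDegree ≤ n ∧ Polynomial.aeval α P = 0 ∧
                (((Finset.range (P.natDegree + 1)).sup (fun i => (P.coeff i).natAbs) : ℕ) : ℝ) ≤ H ∧
                0 < |ζ - α| ∧
                |ζ - α| ≤
                  ((((Finset.range (P.natDegree + 1)).sup (fun i => (P.coeff i).natAbs) : ℕ) : ℝ))⁻¹
                    * H ^ (-w)}

lemma trans_ne (ζ : ℝ) (hζ : Transcendental ℤ ζ) (α : ℝ) (P : ℤ[X]) (hP : P ≠ 0)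
    (h : aeval α P = 0) : 0 < |ζ - α| := by
  rw [abs_pos, sub_ne_zero]
  rintro rfl
  exact hζ ⟨P, hP, h⟩

lemma trans_irr (ζ : ℝ) (hζ : Transcendental ℤ ζ) : Irrational ζ := by
  have h : Transcendental ℚ ζ := fun h => hζ ((IsFractionRing.isAlgebraic_iff ℤ ℚ ℝ).mpr h)
  exact h.irrational

/-- non-Liouville numbers: exponent at least `5/4` -/
theorem big (ζ : ℝ) (hζ : Transcendental ℤ ζ) (hL : ¬ Liouville ζ) :
    ∃ n : ℕ, 1 ≤ n ∧ (5 / 4 : ℝ) ∈ W ζ n := by
  obtain ⟨N, hN, K, hK, Z0, hlev⟩ := level_approx ζ (trans_irr ζ hζ) hL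
  refine ⟨N, hN, ?_⟩
  set K5 : ℝ := K * (K * 2 ^ 32) ^ (5 / 4 : ℝ) with hK5
  have hK50 : 0 < K5 := by positivity
  set Z1 : ℕ := Z0 + ⌈K5⌉₊ + 1 with hZ1
  refine ⟨K * (Z1 : ℝ) ^ 32, ?_⟩
  intro H hH
  have hZ1r : (1 : ℝ) ≤ Z1 := by
    have : 1 ≤ Z1 := by omega
    exact_mod_cast this
  have hH0 : 0 < H := lt_of_lt_of_le (by positivity) hH
  set x : ℝ := (H / K) ^ (1 / 32 : ℝ) with hx
  have hHK : 0 < H / K := by positivity
  have hx0 : 0 ≤ x := by positivity
  have hx32 : x ^ 32 = H / K := by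
    rw [hx, ← Real.rpow_natCast, ← Real.rpow_mul hHK.le]; norm_num
  set Z : ℕ := ⌊x⌋₊ with hZ
  have hZx : (Z : ℝ) ≤ x := Nat.floor_le hx0
  have hxZ : x < Z + 1 := Nat.lt_floor_add_one x
  have hZ1x : (Z1 : ℝ) ≤ x := by
    by_contra hlt
    push Not at hlt
    have h1 : x ^ 32 < (Z1 : ℝ) ^ 32 := pow_lt_pow_left₀ hlt hx0 (by norm_num)
    rw [hx32, div_lt_iff₀ (by linarith)] at h1
    linarith
  have hZZ1 : Z1 ≤ Z := Nat.le_floor hZ1x
  have hZr : (1 : ℝ) ≤ Z := hZ1r.trans (by exact_mod_cast hZZ1)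
  have hZ0r : (0 : ℝ) < Z := by linarith
  obtain ⟨β, P, hP1, hP2, hP3, h, hh0, hh1, hh2, hh3⟩ := hlev Z (by omega)
  have hKpos : (0 : ℝ) < K := by linarith
  have hKZ : K * (Z : ℝ) ^ 32 ≤ H := by
    have h1 : (Z : ℝ) ^ 32 ≤ x ^ 32 := pow_le_pow_left₀ hZ0r.le hZx _
    rw [hx32, le_div_iff₀ hKpos] at h1
    linarith
  have hHle : H ≤ K * 2 ^ 32 * (Z : ℝ) ^ 32 := by
    have h1 : x ^ 32 ≤ (2 * (Z : ℝ)) ^ 32 := pow_le_pow_left₀ hx0 (by linarith) _
    rw [hx32, div_le_iff₀ hKpos, mul_pow] at h1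
    linarith
  have hhP : (ht P : ℝ) ≤ h := ht_le P h hh1
  have h1P := one_le_ht P hP1.ne_zero
  refine ⟨β, P, hP1, hP2, hP3, ?_, trans_ne ζ hζ β P hP1.ne_zero hP3, ?_⟩
  · exact (hhP.trans hh2).trans hKZ
  · change |ζ - β| ≤ ((ht P : ℕ) : ℝ)⁻¹ * H ^ (-(5 / 4 : ℝ))
    rw [inv_mul_eq_div, le_div_iff₀ (by linarith)]
    calc |ζ - β| * (ht P : ℝ) ≤ |ζ - β| * h := by gcongr
      _ ≤ K / (Z : ℝ) ^ 41 := hh3
      _ ≤ H ^ (-(5 / 4 : ℝ)) := by
          rw [Real.rpow_neg hH0.le, ← one_div, div_le_div_iff₀ (by positivity) (by positivity), one_mul]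
          calc K * H ^ (5 / 4 : ℝ) ≤ K * (K * 2 ^ 32 * (Z : ℝ) ^ 32) ^ (5 / 4 : ℝ) := by
                gcongr
            _ = K5 * (Z : ℝ) ^ 40 := by
                rw [Real.mul_rpow (by positivity) (by positivity), hK5]
                have : ((Z : ℝ) ^ 32) ^ (5 / 4 : ℝ) = (Z : ℝ) ^ 40 := by
                  rw [← Real.rpow_natCast, ← Real.rpow_mul hZ0r.le, ← Real.rpow_natCast]
                  norm_num
                rw [this]; ring
            _ ≤ (Z : ℝ) * (Z : ℝ) ^ 40 := by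
                gcongr
                have h2 : K5 ≤ ⌈K5⌉₊ := Nat.le_ceil _
                have h3 : ((⌈K5⌉₊ : ℕ) : ℝ) ≤ Z := by exact_mod_cast (by omega)
                linarith
            _ = (Z : ℝ) ^ 41 := by ring

/-- exponents below one always occur -/
theorem small (ζ : ℝ) (hζ : Transcendental ℤ ζ) (n : ℕ) (hn : 1 ≤ n) (w : ℝ) (hw : w < 1)
    (_hw0 : 0 ≤ w) : w ∈ W ζ n := by
  set K : ℝ := |ζ| + 1 with hK
  have hK1 : 1 ≤ K := by rw [hK]; linarith [abs_nonneg ζ]
  have hK0 : 0 < K := by linarith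
  -- need `K^2 * H^w ≤ H` for large `H`
  have hlim : Filter.Tendsto (fun x : ℝ => K ^ 2 * x ^ (w - 1)) Filter.atTop (nhds 0) := by
    have := (tendsto_rpow_neg_atTop (y := 1 - w) (by linarith)).const_mul (K ^ 2)
    simpa [neg_sub] using this
  obtain ⟨T, hT⟩ := Filter.eventually_atTop.mp (hlim.eventually (gt_mem_nhds (show (0 : ℝ) < 1 by norm_num)))
  refine ⟨max T (K + 1), ?_⟩
  intro H hH
  have hHT : T ≤ H := (le_max_left _ _).trans hH
  have hHK : K + 1 ≤ H := (le_max_right _ _).trans hH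
  have hH0 : 0 < H := by linarith
  have hTH := hT H hHT
  have hmain : K ^ 2 * H ^ w ≤ H := by
    have h1 : H ^ w = H ^ (w - 1) * H := by
      rw [Real.rpow_sub_one hH0.ne']; field_simp
    rw [h1, ← mul_assoc]
    calc K ^ 2 * H ^ (w - 1) * H ≤ 1 * H := by gcongr
      _ = H := one_mul H
  set X0 : ℕ := ⌊H / K⌋₊ with hX0
  have hX01 : 1 ≤ X0 := Nat.le_floor (by
    rw [Nat.cast_one, le_div_iff₀ hK0]; linarith)
  have hX0le : (X0 : ℝ) ≤ H / K := Nat.floor_le (by positivity)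
  have hX0gt : H / K < X0 + 1 := Nat.lt_floor_add_one _
  obtain ⟨q, hq1, hq2⟩ := Real.exists_rat_abs_sub_le_and_den_le ζ (show 0 < X0 by omega)
  set P : ℤ[X] := C (q.den : ℤ) * X + C (-q.num) with hP
  have hden0 : (q.den : ℤ) ≠ 0 := by exact_mod_cast q.den_nz
  have hdenr : (1 : ℝ) ≤ q.den := by
    have := q.den_pos
    exact_mod_cast this
  have hPdeg : P.natDegree = 1 := natDegree_linear hden0
  have hPirr : Irreducible P := by
    apply irreducible_C_mul_X_add_C hden0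
    rw [isRelPrime_iff_isCoprime]
    have h1 : IsCoprime (q.num) (q.den : ℤ) := by
      rw [Int.isCoprime_iff_gcd_eq_one]
      exact q.reduced
    exact (h1.symm).neg_right
  have hqe : (q : ℝ) = (q.num : ℝ) / q.den := by exact_mod_cast (Rat.num_div_den q).symm
  have hPq : aeval (q : ℝ) P = 0 := by
    rw [hP]; simp
    rw [hqe]; field_simp; simp
  have hnum : |(q.num : ℝ)| ≤ K * q.den := by
    have h1 : |ζ - q| ≤ 1 := by
      refine hq1.trans ?_
      rw [div_le_one (by positivity)]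
      have : (0 : ℝ) ≤ X0 := Nat.cast_nonneg _
      nlinarith
    have h2 : |(q : ℝ)| ≤ K := by
      have h3 := abs_sub_abs_le_abs_sub (q : ℝ) ζ
      rw [abs_sub_comm] at h3
      rw [hK]; linarith
    have h4 : (q.num : ℝ) = q * q.den := by
      rw [hqe]; field_simp
    rw [h4, abs_mul, abs_of_pos (by linarith : (0 : ℝ) < q.den)]
    gcongr
  have hcoef : ∀ i, |(P.coeff i : ℝ)| ≤ K * q.den := by
    intro i
    rcases Nat.lt_or_ge 1 i with h | h
    · rw [coeff_eq_zero_of_natDegree_lt (by omega)]; simp; positivity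
    · interval_cases i
      · rw [hP]; simpa using hnum
      · have hc1 : P.coeff 1 = (q.den : ℤ) := by
          rw [hP, coeff_add, coeff_C_mul, coeff_X_one, mul_one, coeff_C_of_ne_zero one_ne_zero, add_zero]
        rw [hc1]
        push_cast
        rw [abs_of_pos (by linarith)]
        nlinarith
  have hht := ht_le P _ hcoef
  have h1P := one_le_ht P hPirr.ne_zero
  refine ⟨(q : ℝ), P, hPirr, by omega, hPq, ?_, trans_ne ζ hζ _ P hPirr.ne_zero hPq, ?_⟩
  · refine hht.trans ?_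
    have h2 : (q.den : ℝ) ≤ X0 := by exact_mod_cast hq2
    calc K * (q.den : ℝ) ≤ K * (H / K) := by gcongr; linarith
      _ = H := by field_simp
  · change |ζ - q| ≤ ((ht P : ℕ) : ℝ)⁻¹ * H ^ (-w)
    refine hq1.trans ?_
    rw [Real.rpow_neg hH0.le, ← mul_inv, ← one_div]
    apply one_div_le_one_div_of_le (by positivity)
    calc (ht P : ℝ) * H ^ w ≤ (K * q.den) * H ^ w := by gcongr
      _ = (K ^ 2 * H ^ w) / K * q.den := by field_simp
      _ ≤ H / K * q.den := by gcongr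
      _ ≤ (X0 + 1) * q.den := by gcongr

/-- Liouville numbers: no exponent exceeds one -/
theorem liou (ζ : ℝ) (hL : Liouville ζ) (n : ℕ) (w : ℝ) (hw : w ∈ W ζ n) : w ≤ 1 := by
  by_contra hlt
  push Not at hlt
  obtain ⟨H₀, hH₀⟩ := hw
  -- Lipschitz constant
  set L : ℝ := |ζ| + 2 with hLdef
  have hL1 : 1 ≤ L := by rw [hLdef]; linarith [abs_nonneg ζ]
  set K : ℝ := (n + 1) * (n * 1) * L ^ n + 1 with hK
  have hK1 : 1 ≤ K := by
    have : 0 ≤ ((n : ℝ) + 1) * (n * 1) * L ^ n := by positivity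
    linarith
  have hK0 : 0 < K := by linarith
  set e : ℝ := w - 1 with he
  have he0 : 0 < e := by linarith
  -- choose the exponent
  obtain ⟨M, hM⟩ : ∃ M : ℕ, 1 ≤ M ∧ 2 * K * (|H₀| + 1) ≤ 2 ^ M ∧ 4 * K ^ 2 ≤ 2 ^ M ∧
      (2 * K) ^ (1 + e) ≤ (2 : ℝ) ^ M := by
    obtain ⟨M1, h1⟩ := pow_unbounded_of_one_lt (2 * K * (|H₀| + 1)) (show (1 : ℝ) < 2 by norm_num)
    obtain ⟨M2, h2⟩ := pow_unbounded_of_one_lt (4 * K ^ 2) (show (1 : ℝ) < 2 by norm_num)
    obtain ⟨M3, h3⟩ := pow_unbounded_of_one_lt ((2 * K) ^ (1 + e)) (show (1 : ℝ) < 2 by norm_num)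
    refine ⟨M1 + M2 + M3 + 1, by omega, h1.le.trans ?_, h2.le.trans ?_, h3.le.trans ?_⟩ <;>
    exact pow_le_pow_right₀ (by norm_num) (by omega)
  obtain ⟨hM0, hM1, hM2, hM3⟩ := hM
  obtain ⟨R, hR⟩ := exists_nat_gt ((M + n) / e)
  have hRe : (M + n : ℝ) ≤ R * e := by
    rw [div_lt_iff₀ he0] at hR
    exact hR.le
  set N : ℕ := R + M + 2 * n + 1 with hN
  obtain ⟨a, b, hb, hne, hab⟩ := hL N
  set D : ℝ := |ζ - a / b| with hD
  have hD0 : 0 < D := by
    rw [hD, abs_pos, sub_ne_zero]; exact hne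
  have hbr : (2 : ℝ) ≤ b := by
    have : (2 : ℤ) ≤ b := by omega
    exact_mod_cast this
  have hb0 : (0 : ℝ) < b := by linarith
  have hb1 : (1 : ℝ) ≤ b := by linarith
  have h2b : ∀ k : ℕ, (2 : ℝ) ^ k ≤ (b : ℝ) ^ k := fun k => pow_le_pow_left₀ (by norm_num) hbr k
  -- the parameter
  set H : ℝ := 1 / (2 * K * D * (b : ℝ) ^ n) with hH
  have hHpos : 0 < H := by positivity
  have hDb : D * (b : ℝ) ^ N ≤ 1 := by
    have := hab.le
    rw [le_div_iff₀ (by positivity)] at this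
    exact this
  have hHlow : (b : ℝ) ^ (N - n) / (2 * K) ≤ H := by
    rw [hH, div_le_div_iff₀ (by positivity) (by positivity), one_mul]
    calc (b : ℝ) ^ (N - n) * (2 * K * D * (b : ℝ) ^ n) = 2 * K * (D * ((b : ℝ) ^ (N - n) * (b : ℝ) ^ n)) := by
          ring
      _ = 2 * K * (D * (b : ℝ) ^ N) := by rw [← pow_add]; congr 3; omega
      _ ≤ 2 * K * 1 := by gcongr
      _ = 2 * K := mul_one _
  clear_value H D
  have hHbig : |H₀| + 1 ≤ H := by
    refine le_trans ?_ hHlow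
    rw [le_div_iff₀ (by positivity)]
    calc (|H₀| + 1) * (2 * K) = 2 * K * (|H₀| + 1) := by ring
      _ ≤ 2 ^ M := hM1
      _ ≤ (b : ℝ) ^ M := h2b M
      _ ≤ (b : ℝ) ^ (N - n) := pow_le_pow_right₀ hb1 (by omega)
  have hH1 : 1 ≤ H := by linarith [abs_nonneg H₀]
  have hHH₀ : H₀ ≤ H := by linarith [le_abs_self H₀]
  obtain ⟨α, P, hP1, hP2, hP3, hP4, hP5, hP6⟩ := hH₀ H hHH₀
  change ((ht P : ℕ) : ℝ) ≤ H at hP4
  change |ζ - α| ≤ ((ht P : ℕ) : ℝ)⁻¹ * H ^ (-w) at hP6
  have h1P := one_le_ht P hP1.ne_zero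
  have hht0 : (0 : ℝ) < ht P := by linarith
  have hHw : H ^ (-w) ≤ 1 := Real.rpow_le_one_of_one_le_of_nonpos hH1 (by linarith)
  have hHw0 : 0 < H ^ (-w) := by positivity
  have hDle : D ≤ 1 := by
    calc D ≤ D * (b : ℝ) ^ N := le_mul_of_one_le_right hD0.le (one_le_pow₀ hb1)
      _ ≤ 1 := hDb
  have hαζ : |ζ - α| ≤ 1 := by
    refine hP6.trans ?_
    calc ((ht P : ℕ) : ℝ)⁻¹ * H ^ (-w) ≤ 1 * 1 := by
          apply mul_le_mul (inv_le_one_of_one_le₀ h1P) hHw hHw0.le (by norm_num)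
      _ = 1 := one_mul 1
  -- H^w = H * H^e
  have hHwe : H ^ (-w) = 1 / (H * H ^ e) := by
    rw [Real.rpow_neg hHpos.le, one_div]
    congr 1
    rw [← Real.rpow_one_add' hHpos.le (by linarith)]
    congr 1; ring
  by_cases hα : α = a / b
  · -- α is the rational number itself
    have h1 : D ≤ H ^ (-w) := by
      rw [hD, ← hα]
      refine hP6.trans ?_
      exact mul_le_of_le_one_left hHw0.le (inv_le_one_of_one_le₀ h1P)
    rw [hHwe, le_div_iff₀ (by positivity)] at h1
    have h2 : D * H = 1 / (2 * K * (b : ℝ) ^ n) := by rw [hH]; field_simp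
    rw [← mul_assoc, h2] at h1
    -- H^e ≤ 2 K b^n
    have h3 : H ^ e ≤ 2 * K * (b : ℝ) ^ n := by
      rw [one_div, inv_mul_eq_div, div_le_one (by positivity)] at h1
      exact h1
    have h4 : ((b : ℝ) ^ (N - n) / (2 * K)) ^ e ≤ 2 * K * (b : ℝ) ^ n :=
      (Real.rpow_le_rpow (by positivity) hHlow he0.le).trans h3
    rw [Real.div_rpow (by positivity) (by positivity), div_le_iff₀ (by positivity)] at h4
    have h5 : 2 * K * (b : ℝ) ^ n * (2 * K) ^ e = (2 * K) ^ (1 + e) * (b : ℝ) ^ n := by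
      rw [Real.rpow_add (by positivity), Real.rpow_one]; ring
    rw [h5] at h4
    have h6 : ((b : ℝ) ^ (N - n)) ^ e = (b : ℝ) ^ (((N - n : ℕ) : ℝ) * e) := by
      rw [← Real.rpow_natCast, ← Real.rpow_mul hb0.le]
    rw [h6] at h4
    have h7 : (b : ℝ) ^ ((M + n + 1 : ℕ) : ℝ) ≤ (b : ℝ) ^ (((N - n : ℕ) : ℝ) * e) ∨ True := Or.inr trivial
    have h8 : (M + n : ℝ) < ((N - n : ℕ) : ℝ) * e := by
      have h9 : (R : ℝ) < ((N - n : ℕ) : ℝ) := by
        have : R < N - n := by omega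
        exact_mod_cast this
      calc (M + n : ℝ) ≤ R * e := hRe
        _ < ((N - n : ℕ) : ℝ) * e := by gcongr
    have h9 : (b : ℝ) ^ (M + n : ℝ) < (b : ℝ) ^ (((N - n : ℕ) : ℝ) * e) :=
      Real.rpow_lt_rpow_of_exponent_lt (by linarith) h8
    have h10 : (2 * K) ^ (1 + e) * (b : ℝ) ^ n ≤ (b : ℝ) ^ (M + n : ℝ) := by
      rw [Real.rpow_add hb0, Real.rpow_natCast, Real.rpow_natCast]
      gcongr
      exact hM3.trans (h2b M)
    linarith
  · -- P(a/b) ≠ 0
    set x : ℝ := (a : ℝ) / b with hx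
    have hPx : aeval x P ≠ 0 := by
      intro h0
      -- the linear polynomial divides P
      set q : ℚ := (a : ℚ) / b with hq
      have hqx : (q : ℝ) = x := by rw [hq, hx]; push_cast; rfl
      set Q : ℤ[X] := C (q.den : ℤ) * X + C (-q.num) with hQ
      have hden0 : (q.den : ℤ) ≠ 0 := by exact_mod_cast q.den_nz
      have hQirr : Irreducible Q := by
        apply irreducible_C_mul_X_add_C hden0
        rw [isRelPrime_iff_isCoprime]
        have h1 : IsCoprime (q.num) (q.den : ℤ) := by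
          rw [Int.isCoprime_iff_gcd_eq_one]
          exact q.reduced
        exact (h1.symm).neg_right
      have hQdeg : Q.natDegree = 1 := natDegree_linear hden0
      have hQx : aeval x Q = 0 := by
        rw [hQ, ← hqx]; simp
        have hqe : (q : ℝ) = (q.num : ℝ) / q.den := by exact_mod_cast (Rat.num_div_den q).symm
        rw [hqe]; field_simp; simp
      have hPdeg : 1 ≤ P.natDegree := by
        by_contra hlt2
        have h2 : P.natDegree = 0 := by omega
        obtain ⟨k, hk⟩ : ∃ k : ℤ, P = C k := ⟨P.coeff 0, eq_C_of_natDegree_eq_zero h2⟩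
        rw [hk] at h0
        simp at h0
        apply hP1.ne_zero
        rw [hk, h0]; simp
      have hQP : Q ∣ P := by
        by_contra hnd
        have hcop := coprime_of Q P hQirr (by omega) hP1.ne_zero hnd
        obtain ⟨U, V, hUV⟩ := hcop
        have h3 := congrArg (fun p => p.eval x) hUV
        have h4 : (Q.map (Int.castRingHom ℝ)).eval x = 0 := by
          have : aeval x Q = (Q.map (Int.castRingHom ℝ)).eval x := by
            rw [aeval_def, eval₂_eq_eval_map]; rfl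
          rw [← this]; exact hQx
        have h5 : (P.map (Int.castRingHom ℝ)).eval x = 0 := by
          have : aeval x P = (P.map (Int.castRingHom ℝ)).eval x := by
            rw [aeval_def, eval₂_eq_eval_map]; rfl
          rw [← this]; exact h0
        simp [h4, h5] at h3
      obtain ⟨G, hG⟩ := hQP
      have hGu : IsUnit G := by
        rcases hP1.isUnit_or_isUnit hG with h | h
        · exact absurd h hQirr.not_isUnit
        · exact h
      obtain ⟨r, hr, hr2⟩ := Polynomial.isUnit_iff.mp hGu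
      apply hα
      have h6 : aeval α Q = 0 := by
        have h7 := hP3
        rw [hG, map_mul, ← hr2] at h7
        have hr0 : (r : ℝ) ≠ 0 := by
          have : r ≠ 0 := hr.ne_zero
          exact_mod_cast this
        simpa [hr0] using h7
      have h8 : (q.den : ℝ) * α = q.num := by
        rw [hQ] at h6; simp at h6; linarith
      have h9 : (q.den : ℝ) * x = q.num := by
        rw [hQ] at hQx; simp at hQx; linarith
      have hdr : (q.den : ℝ) ≠ 0 := by exact_mod_cast q.den_nz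
      exact mul_left_cancel₀ hdr (h8.trans h9.symm)
    -- lower bound |P(x)| ≥ b^{-n}
    have hlow : 1 ≤ |aeval x P| * (b : ℝ) ^ n := by
      have h1 : ∃ z : ℤ, aeval x P * (b : ℝ) ^ n = z := by
        refine ⟨∑ i ∈ Finset.range (n + 1), P.coeff i * a ^ i * b ^ (n - i), ?_⟩
        have h2 : aeval x P = ∑ i ∈ Finset.range (n + 1), (P.coeff i : ℝ) * x ^ i := by
          rw [aeval_eq_sum_range' (Nat.lt_succ_of_le hP2)]
          simp
        rw [h2, Finset.sum_mul]
        push_cast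
        apply Finset.sum_congr rfl
        intro i hi
        have hi' : i ≤ n := by simp at hi; omega
        rw [hx, div_pow]
        have h3 : (b : ℝ) ^ n = (b : ℝ) ^ i * (b : ℝ) ^ (n - i) := by rw [← pow_add]; congr 1; omega
        rw [h3]; field_simp
      obtain ⟨z, hz⟩ := h1
      have hz0 : z ≠ 0 := by
        rintro rfl
        have : aeval x P * (b : ℝ) ^ n ≠ 0 := mul_ne_zero hPx (by positivity)
        apply this; rw [hz]; simp
      have h4 : (1 : ℝ) ≤ |(z : ℝ)| := by exact_mod_cast Int.one_le_abs hz0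
      rw [← hz, abs_mul, abs_of_pos (show (0 : ℝ) < (b : ℝ) ^ n by positivity)] at h4
      exact h4
    -- upper bound
    have hup : |aeval x P| ≤ K * (ht P : ℝ) * |x - α| := by
      set p : ℝ[X] := P.map (Int.castRingHom ℝ) with hp
      have hpe : ∀ y : ℝ, aeval y P = p.eval y := by
        intro y; rw [aeval_def, eval₂_eq_eval_map]; rfl
      have hpd : p.natDegree ≤ n := (natDegree_map_le).trans hP2
      have hpc : ∀ i, |p.coeff i| ≤ (ht P : ℝ) := by
        intro i; rw [hp, coeff_map]; simpa using coeff_le_ht P i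
      have hcont : ∀ y ∈ Set.Icc (ζ - 1) (ζ + 1), ‖(derivative p).eval y‖ ≤ K * (ht P : ℝ) := by
        intro y hy
        have hyL : |y| ≤ L := by
          rw [hLdef, abs_le]
          have h1 := neg_abs_le ζ
          have h2 := le_abs_self ζ
          constructor <;> linarith [hy.1, hy.2]
        have h := eval_bound (derivative p) n (n * (ht P : ℝ)) L y (deriv_natDegree p n hpd)
          (deriv_coeff_bound p n _ hpd hpc) hL1 hyL
        rw [Real.norm_eq_abs]
        refine h.trans ?_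
        rw [hK]
        nlinarith
      have hmemx : x ∈ Set.Icc (ζ - 1) (ζ + 1) := by
        have hDle' : |ζ - x| ≤ 1 := by rw [hx, ← hD]; exact hDle
        have := abs_le.mp hDle'
        constructor <;> linarith [this.1, this.2]
      have hmemα : α ∈ Set.Icc (ζ - 1) (ζ + 1) := by
        have := abs_le.mp hαζ
        constructor <;> linarith [this.1, this.2]
      have h := (convex_Icc (ζ - 1) (ζ + 1)).norm_image_sub_le_of_norm_hasDerivWithin_le
        (f := fun y => p.eval y) (f' := fun y => (derivative p).eval y)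
        (fun y _ => (p.hasDerivAt y).hasDerivWithinAt) hcont hmemα hmemx
      rw [Real.norm_eq_abs, Real.norm_eq_abs] at h
      have h0 : p.eval α = 0 := by rw [← hpe]; exact hP3
      simp only [h0, sub_zero] at h
      rw [hpe]; exact h
    have htri : |x - α| ≤ D + ((ht P : ℕ) : ℝ)⁻¹ * H ^ (-w) := by
      have h1 : |x - α| ≤ |x - ζ| + |ζ - α| := abs_sub_le _ _ _
      rw [abs_sub_comm x ζ] at h1
      linarith
    -- combine
    clear_value K x
    generalize (ht P : ℝ) = g at *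
    have h1 : 1 ≤ K * (H * D + H ^ (-w)) * (b : ℝ) ^ n := by
      calc (1 : ℝ) ≤ |aeval x P| * (b : ℝ) ^ n := hlow
        _ ≤ (K * g * (D + g⁻¹ * H ^ (-w))) * (b : ℝ) ^ n := by
            gcongr
            exact hup.trans (by gcongr)
        _ = K * (g * D + H ^ (-w)) * (b : ℝ) ^ n := by
            field_simp
        _ ≤ K * (H * D + H ^ (-w)) * (b : ℝ) ^ n := by gcongr
    have h2 : K * (H * D) * (b : ℝ) ^ n = 1 / 2 := by
      rw [hH]; field_simp
    have h3 : 1 / 2 ≤ K * H ^ (-w) * (b : ℝ) ^ n := by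
      have : K * (H * D + H ^ (-w)) * (b : ℝ) ^ n = K * (H * D) * (b : ℝ) ^ n + K * H ^ (-w) * (b : ℝ) ^ n := by
        ring
      linarith
    have h4 : H ^ (-w) ≤ 1 / H := by
      rw [hHwe]
      apply one_div_le_one_div_of_le hHpos
      exact le_mul_of_one_le_right hHpos.le (Real.one_le_rpow hH1 he0.le)
    have h5 : H ≤ 2 * K * (b : ℝ) ^ n := by
      have h6 : 1 / 2 ≤ K * (1 / H) * (b : ℝ) ^ n := h3.trans (by gcongr)
      rw [mul_one_div, div_mul_eq_mul_div, le_div_iff₀ hHpos] at h6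
      linarith
    have h6 : (b : ℝ) ^ (N - n) ≤ 4 * K ^ 2 * (b : ℝ) ^ n := by
      have h7 := hHlow.trans h5
      rw [div_le_iff₀ (by positivity)] at h7
      linarith
    have h7 : (b : ℝ) ^ (M + n + 1) ≤ (b : ℝ) ^ (N - n) := pow_le_pow_right₀ hb1 (by omega)
    have h8 : 4 * K ^ 2 * (b : ℝ) ^ n ≤ (b : ℝ) ^ (M + n) := by
      rw [pow_add]
      gcongr
      exact hM2.trans (h2b M)
    have h9 : (b : ℝ) ^ (M + n) < (b : ℝ) ^ (M + n + 1) := pow_lt_pow_right₀ (by linarith) (by omega)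
    linarith

/-- A transcendental real ζ is Liouville iff for every n ≥ 1 the uniform exponent ŵ_n^*(ζ) equals 1. Here ŵ_n^*(ζ) is the supremum of w such that for all large H some real algebraic α of degree ≤ n, height ≤ H, has 0<∣ζ−α∣ ≤ H(α)^{-1}H^{-w}. -/
theorem result :
    ∀ ζ : ℝ, Transcendental ℤ ζ →
      (Liouville ζ ↔
        ∀ n : ℕ, 1 ≤ n →
          IsLUB
            {w : ℝ | ∃ H₀ : ℝ, ∀ H : ℝ, H₀ ≤ H →
              ∃ α : ℝ, ∃ P : Polynomial ℤ,
                Irreducible P ∧ P.natDegree ≤ n ∧ Polynomial.aeval α P = 0 ∧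
                (((Finset.range (P.natDegree + 1)).sup (fun i => (P.coeff i).natAbs) : ℕ) : ℝ) ≤ H ∧
                0 < |ζ - α| ∧
                |ζ - α| ≤
                  ((((Finset.range (P.natDegree + 1)).sup (fun i => (P.coeff i).natAbs) : ℕ) : ℝ))⁻¹
                    * H ^ (-w)}
            1) := by
  intro ζ hζ
  constructor
  · intro hL n hn
    constructor
    · intro w hw
      exact liou ζ hL n w hw
    · intro u hu
      by_contra hlt
      push Not at hlt
      obtain ⟨w, hw1, hw2⟩ := _root_.exists_between (max_lt hlt (show (0 : ℝ) < 1 by norm_num))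
      have h1 : w ∈ W ζ n := small ζ hζ n hn w hw2 ((le_max_right _ _).trans hw1.le)
      have h2 := hu h1
      have h3 := (le_max_left u 0).trans_lt hw1
      linarith
  · intro hall
    by_contra hL
    obtain ⟨n, hn, hbig⟩ := big ζ hζ hL
    have h1 := (hall n hn).1 hbig
    norm_num at h1

end Pool.Agent.S17709
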