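import Pool.Statements.S17717

set_option autoImplicit false
open Pool Pool.MP_8d3aca_nt

namespace Pool.Agent.S17717

open ArithmeticFunction

/-- no odd prime square divides a solution -/
theorem sqf {n p : ℕ} (hp : p.Prime) (hp2 : p ≠ 2) (h2 : p * p ∣ n)
    (h : n * sigma 1 n ≡ 2 [MOD n.totient]) : False := by
  have h1 : p ∣ n.totient := by
    have : (p*p).totient ∣ n.totient := Nat.totient_dvd_of_dvd h2
    rw [Nat.totient_mul_of_prime_of_dvd hp (dvd_refl p)] at this
    exact (Dvd.intro _ rfl).trans this
  have h3 : n * sigma 1 n ≡ 2 [MOD p] := h.of_dvd h1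
  have h4 : p ∣ n * sigma 1 n := ((Dvd.intro _ rfl).trans h2).mul_right _
  have h5 : p ∣ 2 := (h3.dvd_iff (dvd_refl p)).1 h4
  exact hp2 ((Nat.prime_dvd_prime_iff_eq hp Nat.prime_two).1 h5)

theorem no4 {n : ℕ} (h : n * sigma 1 n ≡ 2 [MOD n.totient]) (h4 : 4 ∣ n.totient)
    (h4' : 4 ∣ n * sigma 1 n) : False := by
  have h3 : n * sigma 1 n ≡ 2 [MOD 4] := h.of_dvd h4
  have := (h3.dvd_iff (dvd_refl 4)).1 h4'
  omega

theorem two_dvd_pred {p : ℕ} (hp : p.Prime) (hp2 : p ≠ 2) : 2 ∣ p - 1 := by
  have := hp.eq_two_or_odd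
  omega

theorem two_dvd_succ {p : ℕ} (hp : p.Prime) (hp2 : p ≠ 2) : 2 ∣ p + 1 := by
  have := hp.eq_two_or_odd
  omega

theorem sigma_prime {p : ℕ} (hp : p.Prime) : sigma 1 p = p + 1 := by
  have := sigma_one_apply_prime_pow (i := 1) hp
  rw [pow_one] at this
  rw [this]
  simp [Finset.sum_range_succ]
  ring

/-- For every composite natural number n, n times the sum of divisors of n is congruent to 2 modulo Euler's totient of n exactly when n is 4, 6 or 22. -/
theorem result :
    ∀ n : ℕ, 1 < n → ¬ n.Prime →
      (n * ArithmeticFunction.sigma 1 n ≡ 2 [MOD n.totient] ↔ (n = 4 ∨ n = 6 ∨ n = 22)) := by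
  intro n hn hnp
  constructor
  · intro h
    obtain ⟨k, m, hm, rfl⟩ := Nat.exists_eq_two_pow_mul_odd (n := n) (by omega)
    by_cases hk : 2 ≤ k
    · -- 4 divides n
      have h4n : 4 ∣ 2^k * m := by
        have : (2:ℕ)^2 ∣ 2^k := pow_dvd_pow 2 hk
        exact (by simpa using this : 4 ∣ 2^k).mul_right m
      have h4s : 4 ∣ 2^k * m * sigma 1 (2^k*m) := h4n.mul_right _
      by_cases hm1 : m = 1
      · subst hm1
        rcases Nat.lt_or_ge 2 k with hk3 | hk3
        · exfalso
          refine no4 h ?_ h4s
          have h8 : (2:ℕ)^3 ∣ 2^k * 1 := by rw [mul_one]; exact pow_dvd_pow 2 hk3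
          have := Nat.totient_dvd_of_dvd h8
          rwa [show Nat.totient (2^3) = 4 by decide] at this
        · have : k = 2 := by omega
          subst this
          left; norm_num
      · exfalso
        obtain ⟨p, hp, hpm⟩ := Nat.exists_prime_and_dvd hm1
        have hp2 : p ≠ 2 := by
          rintro rfl
          rcases hm with ⟨t, ht⟩
          omega
        refine no4 h ?_ h4s
        have hcop : Nat.Coprime 4 p := by
          have : Nat.Coprime (2^2) p := Nat.Coprime.pow_left 2 ((Nat.coprime_primes Nat.prime_two hp).2 (Ne.symm hp2))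
          simpa using this
        have h4p : 4 * p ∣ 2^k * m := by
          apply Nat.mul_dvd_mul _ hpm
          simpa using (pow_dvd_pow 2 hk : (2:ℕ)^2 ∣ 2^k)
        have := Nat.totient_dvd_of_dvd h4p
        rw [Nat.totient_mul hcop, Nat.totient_prime hp, show Nat.totient 4 = 2 by decide] at this
        refine Dvd.dvd.trans ?_ this
        obtain ⟨c, hc⟩ := two_dvd_pred hp hp2
        rw [hc]; exact ⟨c, by ring⟩
    · push Not at hk
      have hm1 : m ≠ 1 := by
        rintro rfl
        interval_cases k
        · simp at hn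
        · simp at hnp; exact hnp Nat.prime_two
      obtain ⟨p, hp, t, rfl⟩ := Nat.exists_prime_and_dvd hm1
      have hp2 : p ≠ 2 := by
        rintro rfl
        rcases hm with ⟨t', ht⟩
        omega
      have hpt : Nat.Coprime p t := by
        rw [Nat.Prime.coprime_iff_not_dvd hp]
        rintro ⟨s, rfl⟩
        exact sqf hp hp2 ⟨2^k*s, by ring⟩ h
      by_cases ht : t = 1
      · subst ht
        interval_cases k
        · simp at hnp; exact absurd hp hnp
        · -- n = 2p
          have hcop : Nat.Coprime 2 p := (Nat.coprime_primes Nat.prime_two hp).2 (Ne.symm hp2)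
          have hphi : Nat.totient (2^1 * (p * 1)) = p - 1 := by
            rw [pow_one, mul_one, Nat.totient_mul hcop, Nat.totient_prime hp]; simp
          have hsig : sigma 1 (2^1 * (p*1)) = 3 * (p+1) := by
            rw [pow_one, mul_one, isMultiplicative_sigma.map_mul_of_coprime hcop, sigma_prime hp,
              sigma_prime Nat.prime_two]
          rw [hphi, hsig] at h
          have hp1 : 1 ≤ p := hp.one_lt.le
          have h10 : (p - 1) ∣ 10 := by
            obtain ⟨q, rfl⟩ : ∃ q, p = q + 1 := ⟨p - 1, by omega⟩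
            simp only [Nat.add_sub_cancel] at h ⊢
            have e : 2^1 * ((q+1)*1) * (3 * (q+1+1)) = q * (6*q + 18) + 12 := by ring
            rw [e] at h
            have h12 : 12 ≡ 2 [MOD q] := by
              have : q * (6*q+18) + 12 ≡ 0 + 12 [MOD q] := Nat.ModEq.add_right _ ((Nat.modEq_zero_iff_dvd).2 (Dvd.intro _ rfl))
              simpa using this.symm.trans h
            have := (Nat.modEq_iff_dvd' (by norm_num : 2 ≤ 12)).1 h12.symm
            simpa using this
          have hle : p - 1 ≤ 10 := Nat.le_of_dvd (by norm_num) h10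
          have hle' : p ≤ 11 := by omega
          interval_cases p <;> simp_all (config := {decide := true})
      · exfalso
        obtain ⟨q, hq, s, rfl⟩ := Nat.exists_prime_and_dvd ht
        have hq2 : q ≠ 2 := by
          rintro rfl
          rcases hm with ⟨t', ht'⟩
          have : p * (2 * s) = 2 * (p * s) := by ring
          omega
        have hqs : Nat.Coprime q s := by
          rw [Nat.Prime.coprime_iff_not_dvd hq]
          rintro ⟨s', rfl⟩
          exact sqf hq hq2 ⟨2^k*p*s', by ring⟩ h
        have hpq : Nat.Coprime p q := Nat.Coprime.coprime_mul_right_right hpt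
        have hps : Nat.Coprime p s := Nat.Coprime.coprime_mul_left_right hpt
        have hp2c : Nat.Coprime p (2^k) := Nat.Coprime.pow_right k ((Nat.coprime_primes hp Nat.prime_two).2 hp2)
        have hq2c : Nat.Coprime q (2^k) := Nat.Coprime.pow_right k ((Nat.coprime_primes hq Nat.prime_two).2 hq2)
        have hcop : Nat.Coprime (p*q) (2^k*s) :=
          Nat.Coprime.mul_left (Nat.Coprime.mul_right hp2c hps) (Nat.Coprime.mul_right hq2c hqs)
        have e : 2^k * (p * (q * s)) = (p*q) * (2^k*s) := by ring
        rw [e] at h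
        obtain ⟨c, hc⟩ := two_dvd_pred hp hp2
        obtain ⟨d, hd⟩ := two_dvd_pred hq hq2
        obtain ⟨c', hc'⟩ := two_dvd_succ hp hp2
        obtain ⟨d', hd'⟩ := two_dvd_succ hq hq2
        refine no4 h ?_ ?_
        · rw [Nat.totient_mul hcop, Nat.totient_mul hpq, Nat.totient_prime hp, Nat.totient_prime hq, hc, hd]
          exact ⟨c*d*(2^k*s).totient, by ring⟩
        · rw [isMultiplicative_sigma.map_mul_of_coprime hcop, isMultiplicative_sigma.map_mul_of_coprime hpq,
            sigma_prime hp, sigma_prime hq, hc', hd']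
          exact ⟨(p*q) * (2^k*s) * (c' * d' * sigma 1 (2^k*s)), by ring⟩
  · rintro (rfl | rfl | rfl) <;> decide

end Pool.Agent.S17717
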