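import Pool.Statements.S17720
import Pool.Agent.H428R3.CF.Final

set_option autoImplicit false
open Pool Pool.MP_8d5d9c_nt

namespace Pool.Agent.S17720

/-- The negation of the preceding statement: If x is continued-fraction normal (its Gauss-map orbit is equidistributed for the Gauss measure) and q, r are irrational roots of nonzero integer quadratics with q nonzero, then q times x plus r is also continued-fraction normal. -/
theorem result :
    ¬ (∀ x q r : ℝ,
      (Irrational x ∧ ∀ t : ℝ, 0 ≤ t → t ≤ 1 →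
        Filter.Tendsto
          (fun N : ℕ =>
            (((Finset.range N).filter
              (fun n => (fun y : ℝ => Int.fract (1 / y))^[n] (Int.fract x) < t)).card : ℝ) / (N : ℝ))
          Filter.atTop (nhds (Real.log (1 + t) / Real.log 2))) →
      (Irrational q ∧ ∃ a b c : ℤ, (a ≠ 0 ∨ b ≠ 0 ∨ c ≠ 0) ∧
        (a : ℝ) * q ^ 2 + (b : ℝ) * q + (c : ℝ) = 0) →
      (Irrational r ∧ ∃ a b c : ℤ, (a ≠ 0 ∨ b ≠ 0 ∨ c ≠ 0) ∧
        (a : ℝ) * r ^ 2 + (b : ℝ) * r + (c : ℝ) = 0) →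
      q ≠ 0 →
      (Irrational (q * x + r) ∧ ∀ t : ℝ, 0 ≤ t → t ≤ 1 →
        Filter.Tendsto
          (fun N : ℕ =>
            (((Finset.range N).filter
              (fun n => (fun y : ℝ => Int.fract (1 / y))^[n] (Int.fract (q * x + r)) < t)).card : ℝ) / (N : ℝ))
          Filter.atTop (nhds (Real.log (1 + t) / Real.log 2)))) := by
  intro H
  obtain ⟨x, hx, hx0, hx1, hnorm, hbad⟩ := Pool.Agent.H428R3.CF.main
  have hk1 := Pool.Agent.H428R3.CF.kap_lo
  have hk2 := Pool.Agent.H428R3.CF.kap_hi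
  have hkq : Irrational Pool.Agent.H428R3.CF.kap ∧ ∃ a b c : ℤ, (a ≠ 0 ∨ b ≠ 0 ∨ c ≠ 0) ∧
        (a : ℝ) * Pool.Agent.H428R3.CF.kap ^ 2 + (b : ℝ) * Pool.Agent.H428R3.CF.kap + (c : ℝ) = 0 := by
    refine ⟨Pool.Agent.H428R3.CF.kap_irr, 8, 0, -1, Or.inl (by norm_num), ?_⟩
    unfold Pool.Agent.H428R3.CF.kap
    rw [div_pow, Real.sq_sqrt (by norm_num)]
    norm_num
  have hfx : Int.fract x = x := Int.fract_eq_self.2 ⟨hx0.le, hx1⟩
  have hz0 : 0 < Pool.Agent.H428R3.CF.kap * x + Pool.Agent.H428R3.CF.kap := by nlinarith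
  have hz1 : Pool.Agent.H428R3.CF.kap * x + Pool.Agent.H428R3.CF.kap < 1 := by nlinarith
  have hfz : Int.fract (Pool.Agent.H428R3.CF.kap * x + Pool.Agent.H428R3.CF.kap) =
      Pool.Agent.H428R3.CF.kap * (x + 1) := by
    rw [Int.fract_eq_self.2 ⟨hz0.le, hz1⟩]; ring
  have hG : (fun y : ℝ => Int.fract (1 / y)) = Pool.Agent.H428R3.CF.G := rfl
  have h1 := (H x Pool.Agent.H428R3.CF.kap Pool.Agent.H428R3.CF.kap ⟨hx, by rw [hfx, hG]; exact hnorm⟩ hkq hkq
    (by intro h; rw [h] at hk1; norm_num at hk1)).2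
  rw [hfz, hG] at h1
  have h2 := h1 (3 / 5) (by norm_num) (by norm_num)
  have h3 := h1 (16 / 25) (by norm_num) (by norm_num)
  have h4 := h3.sub h2
  have hlt : Real.log (1 + 16 / 25) / Real.log 2 - Real.log (1 + 3 / 5) / Real.log 2 < 1 / 8 := by
    have hl2 := Real.log_two_gt_d9
    have hl : 0 < Real.log 2 := by linarith
    rw [← sub_div, ← Real.log_div (by norm_num) (by norm_num), div_lt_iff₀ hl]
    have h5 : Real.log ((1 + 16 / 25) / (1 + 3 / 5)) ≤ (1 + 16 / 25) / (1 + 3 / 5) - 1 :=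
      Real.log_le_sub_one_of_pos (by norm_num)
    have h6 : ((1 : ℝ) + 16 / 25) / (1 + 3 / 5) - 1 = 1 / 40 := by norm_num
    rw [h6] at h5
    linarith
  have h5 := h4.eventually (gt_mem_nhds hlt)
  rw [Filter.eventually_atTop] at h5
  obtain ⟨K, hK⟩ := h5
  obtain ⟨N, hN1, hN2, hN3⟩ := hbad K
  have h6 := hK N hN1
  have hN0 : (0 : ℝ) < N := by exact_mod_cast hN2
  rw [← sub_div, div_lt_iff₀ hN0] at h6
  have h7 : (Finset.range N).filter (fun n => Pool.Agent.H428R3.CF.G^[n] (Pool.Agent.H428R3.CF.kap * (x + 1)) < 3 / 5) ∪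
      (Finset.range N).filter (fun n => 3 / 5 ≤ Pool.Agent.H428R3.CF.G^[n] (Pool.Agent.H428R3.CF.kap * (x + 1)) ∧
        Pool.Agent.H428R3.CF.G^[n] (Pool.Agent.H428R3.CF.kap * (x + 1)) ≤ 5 / 8) ⊆
      (Finset.range N).filter (fun n => Pool.Agent.H428R3.CF.G^[n] (Pool.Agent.H428R3.CF.kap * (x + 1)) < 16 / 25) := by
    intro n hn
    rw [Finset.mem_union, Finset.mem_filter, Finset.mem_filter] at hn
    rw [Finset.mem_filter]
    rcases hn with hn | hn
    · exact ⟨hn.1, by linarith [hn.2]⟩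
    · exact ⟨hn.1, by linarith [hn.2.2]⟩
  have h8 := Finset.card_le_card h7
  rw [Finset.card_union_of_disjoint (by
    rw [Finset.disjoint_filter]
    intro n _ h9 h10
    linarith [h10.1])] at h8
  have h9 : (((Finset.range N).filter (fun n => Pool.Agent.H428R3.CF.G^[n] (Pool.Agent.H428R3.CF.kap * (x + 1)) < 3 / 5)).card : ℝ) +
      ((Finset.range N).filter (fun n => 3 / 5 ≤ Pool.Agent.H428R3.CF.G^[n] (Pool.Agent.H428R3.CF.kap * (x + 1)) ∧
        Pool.Agent.H428R3.CF.G^[n] (Pool.Agent.H428R3.CF.kap * (x + 1)) ≤ 5 / 8)).card ≤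
      ((Finset.range N).filter (fun n => Pool.Agent.H428R3.CF.G^[n] (Pool.Agent.H428R3.CF.kap * (x + 1)) < 16 / 25)).card := by
    exact_mod_cast h8
  linarith

end Pool.Agent.S17720
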