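import Pool.Statements.S17771
import Pool.Agent.H291R3.Erdos4

set_option autoImplicit false
open Pool Pool.MP_91e459_nt

namespace Pool.Agent.S17771

/-- For all n ≥ 1, m ≥ 2 with (1−1/m)^n > 1/2 and (1−1/(m−1))^n < 1/2: (m−1)^n exceeds 1^n+…+(m−2)^n and (m+1)^n is less than 1^n+…+m^n. -/
theorem result :
    ∀ m n : ℕ, 1 ≤ n → 2 ≤ m →
      (1 - 1 / (m : ℝ)) ^ n > 1 / 2 →
      (1 - 1 / ((m : ℝ) - 1)) ^ n < 1 / 2 →
      (m - 1) ^ n > ∑ i ∈ Finset.Icc 1 (m - 2), i ^ n ∧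
      (m + 1) ^ n < ∑ i ∈ Finset.Icc 1 m, i ^ n := by
  intro m n hn hm h1 h2
  refine ⟨Pool.Agent.H291R3.first_part m n hm h2, ?_⟩
  rcases Nat.lt_or_ge m 159 with hlt | hge
  · rcases Nat.lt_or_ge m 3 with h3 | h3
    · exfalso
      have hm2 : m = 2 := by omega
      subst hm2
      have h4 : (1 - 1 / ((2 : ℕ) : ℝ)) ^ n ≤ (1 - 1 / ((2 : ℕ) : ℝ)) ^ 1 :=
        pow_le_pow_of_le_one (by norm_num) (by norm_num) hn
      norm_num at h4
      norm_num at h1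
      linarith
    · exact Pool.Agent.H291R3.second_small m n hlt h3 h1
  · exact Pool.Agent.H291R3.second_large m n hge h1

end Pool.Agent.S17771
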