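import Pool.Statements.S17839
import Pool.Agent.H639R3.K.Khin

set_option autoImplicit false
open MeasureTheory Filter
open Pool Pool.MP_97775c_nt

namespace Pool.Agent.S17839

/-- For every affine subspace of R^n of dimension at least 1 and every nonnegative non-increasing psi with sum of psi(q)^n divergent, almost every point x of the subspace has all coordinates of qx within psi(q) of integers for infinitely many q. -/
theorem result :
    ∀ (n d : ℕ), 1 ≤ d →
      ∀ (a : Fin n → ℝ) (A : (Fin d → ℝ) →ₗ[ℝ] (Fin n → ℝ)),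
        Function.Injective A →
        ∀ ψ : ℕ → ℝ, (∀ q, 0 ≤ ψ q) → Antitone ψ →
          ¬ Summable (fun q : ℕ => ψ q ^ n) →
          ∀ᵐ t ∂(volume : Measure (Fin d → ℝ)),
            ∃ᶠ q : ℕ in atTop, ∀ i : Fin n,
              |(q : ℝ) * (a i + A t i) - (round ((q : ℝ) * (a i + A t i)) : ℝ)| < ψ q := by
  classical
  intro n d hd a A hA ψ hψ0 hanti hdiv
  obtain ⟨e, T, he, hT⟩ := Pool.Agent.H639R3.K.exists_graph A hA
  set J := {i : Fin n // i ∉ Set.range e} with hJ
  have hcard : d + Fintype.card J = n := by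
    have h1 : Fintype.card {i : Fin n // i ∈ Set.range e} = d := by
      have := Set.card_range_of_injective he
      rw [Fintype.card_fin] at this
      exact (Fintype.card_congr (Equiv.refl _)).trans this
    have h2 := Fintype.card_subtype_compl (fun i : Fin n => i ∈ Set.range e)
    rw [h1, Fintype.card_fin] at h2
    have h3 : d ≤ n := by
      have := Fintype.card_le_of_injective e he
      simpa using this
    have h4 : Fintype.card J = n - d := (Fintype.card_congr (Equiv.refl _)).trans h2
    omega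
  -- the other coordinates as affine functions of the chosen ones
  set L : J → Fin d → ℝ := fun j k => A (T.symm (Pi.single k 1)) j.1 with hL
  set α : J → ℝ := fun j => a j.1 - ∑ k, L j k * a (e k) with hα
  have hLT : ∀ (j : J) (t : Fin d → ℝ), ∑ k, L j k * T t k = A t j.1 := by
    intro j t
    have h1 : T t = ∑ k, (T t k) • (Pi.single k (1 : ℝ) : Fin d → ℝ) := by
      ext i
      simp [Finset.sum_apply, Pi.single_apply]
    have h2 : A t = ∑ k, (T t k) • A (T.symm (Pi.single k 1)) := by
      calc A t = A (T.symm (T t)) := by rw [T.symm_apply_apply]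
        _ = A (T.symm (∑ k, (T t k) • (Pi.single k (1 : ℝ) : Fin d → ℝ))) := by rw [← h1]
        _ = _ := by simp only [map_sum, map_smul]
    rw [h2, Finset.sum_apply]
    apply Finset.sum_congr rfl
    intro k _
    simp only [hL, Pi.smul_apply, smul_eq_mul]
    ring
  have hdiv' : ¬ Summable (fun q : ℕ => ψ q ^ (d + Fintype.card J)) := by
    rw [hcard]; exact hdiv
  have hmain := Pool.Agent.H639R3.K.ae_good hd α L hψ0 hanti hdiv'
  -- pull back along the affine map `t ↦ a ∘ e + T t`
  set c : Fin d → ℝ := fun k => a (e k) with hc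
  have hpull : ∀ᵐ t ∂(volume : Measure (Fin d → ℝ)),
      ∃ᶠ q : ℕ in atTop, Pool.Agent.H639R3.K.Good α L ψ q (c + T t) := by
    rw [ae_iff] at hmain ⊢
    have h1 : {t : Fin d → ℝ | ¬ ∃ᶠ q : ℕ in atTop,
        Pool.Agent.H639R3.K.Good α L ψ q (c + T t)}
        = (T : (Fin d → ℝ) →ₗ[ℝ] (Fin d → ℝ)) ⁻¹' ((fun y => c + y) ⁻¹' {y : Fin d → ℝ |
          ¬ ∃ᶠ q : ℕ in atTop, Pool.Agent.H639R3.K.Good α L ψ q y}) := rfl
    rw [h1, Measure.addHaar_preimage_linearMap _ (LinearEquiv.isUnit_det' T).ne_zero,
      measure_preimage_add, hmain, mul_zero]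
  filter_upwards [hpull] with t ht
  refine ht.mono fun q hq i => ?_
  by_cases hi : i ∈ Set.range e
  · obtain ⟨k, rfl⟩ := hi
    have h1 := hq.1 k
    rw [Pi.add_apply, hT] at h1
    exact h1
  · have h1 := hq.2 ⟨i, hi⟩
    have h2 : α ⟨i, hi⟩ + ∑ k, L ⟨i, hi⟩ k * (c + T t) k = a i + A t i := by
      have h3 := hLT ⟨i, hi⟩ t
      simp only at h3
      have h4 : ∑ k, L ⟨i, hi⟩ k * (c + T t) k
          = ∑ k, L ⟨i, hi⟩ k * a (e k) + ∑ k, L ⟨i, hi⟩ k * T t k := by
        rw [← Finset.sum_add_distrib]
        apply Finset.sum_congr rfl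
        intro k _
        rw [Pi.add_apply, mul_add]
      rw [h4, h3]
      simp only [hα]
      ring
    rw [h2] at h1
    exact h1

end Pool.Agent.S17839
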