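import Pool.Statements.S17877
import Pool.Agent.H57R3.Weird

set_option autoImplicit false
open Pool Pool.MP_9b74c8_nt

namespace Pool.Agent.S17877

/-- There is a real constant C such that every weird number m (abundant, with no subset of its proper divisors summing to m) has sum of divisors divided by m at most C. -/
theorem result :
    ∃ C : ℝ, ∀ m : ℕ, 0 < m →
      m < ∑ i ∈ m.properDivisors, i →
      (¬ ∃ s ⊆ m.properDivisors, ∑ i ∈ s, i = m) →
      ((∑ i ∈ m.divisors, i : ℕ) : ℝ) / (m : ℝ) ≤ C := by
  exact ⟨Real.exp (2 * (2 ^ 160 + 112 + 4)), fun m hm _ hno =>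
    Pool.Agent.H57R3.abundancy_bound m hm hno⟩

end Pool.Agent.S17877
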