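import Pool.Statements.S17917
import Pool.Agent.IndTwoJacobi.Basic
-- import your own Pool.Agent.* helpers here

set_option autoImplicit false
open Pool Pool.MP_9e9cd3_nt

namespace Pool.Agent.S17917

/-- For n>3, prime p≡1 mod 2^n, primitive root g with g^k=2: D_4(1)+2·Σ_{t=3}^{n-1}2^{t-2}Σ_j D_{2^t}(2j+1) ≡ 2(2^{n-2}+1)k mod 2^{n+1}, with D_e(j) the Jacobi-sum index-count differences. -/
theorem result :
  ∀ (n p : ℕ), 3 < n → p.Prime → p % 2 ^ n = 1 →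
  ∀ (g : ZMod p), orderOf g = p - 1 →
  ∀ (D : ℕ → ℕ → ℤ),
    (∀ e j : ℕ, D e j =
      (Set.ncard {x : ZMod p | x ≠ 0 ∧ x ≠ 1 ∧
          ∃ a b : ℕ, g ^ a = x ∧ g ^ b = 1 - x ∧
            (a + e / 2 * b) % e = j % e} : ℤ)
      - (Set.ncard {x : ZMod p | x ≠ 0 ∧ x ≠ 1 ∧
          ∃ a b : ℕ, g ^ a = x ∧ g ^ b = 1 - x ∧
            (a + e / 2 * b) % e = (j + e / 2) % e} : ℤ)) →
  ∀ k : ℕ, g ^ k = 2 →
  (2 ^ (n + 1) : ℤ) ∣ D 4 1
      + 2 * ∑ t ∈ Finset.Ico 3 n, (2 : ℤ) ^ (t - 2) *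
          ∑ j ∈ Finset.range (2 ^ (t - 3)), D (2 ^ t) (2 * j + 1)
      - 2 * ((2 : ℤ) ^ (n - 2) + 1) * (k : ℤ) := by
  intro n p hn hp hmod g hg D hD k hk
  haveI : Fact p.Prime := ⟨hp⟩
  have h2n : 16 ≤ 2 ^ n := by
    calc 16 = 2 ^ 4 := by norm_num
      _ ≤ 2 ^ n := Nat.pow_le_pow_right (by norm_num) hn
  have hp2 : 2 < p := by
    rcases Nat.lt_or_ge 2 p with h | h
    · exact h
    · exfalso
      have h1 : p < 2 ^ n := by omega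
      rw [Nat.mod_eq_of_lt h1] at hmod
      exact hp.one_lt.ne' hmod
  have hdvd : 2 ^ n ∣ p - 1 := (Nat.modEq_iff_dvd' (by omega)).mp (by
    unfold Nat.ModEq
    rw [hmod, Nat.mod_eq_of_lt (by omega)])
  have h16 : 16 ∣ p - 1 := (by
    have : (2:ℕ)^4 ∣ 2^n := pow_dvd_pow 2 hn
    exact (by simpa using this : 16 ∣ 2^n).trans hdvd)
  exact Pool.Agent.IndTwoJacobi.Q1 n (by omega) h16 hdvd hp2 hg D hD k hk

end Pool.Agent.S17917
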