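import Pool.Statements.S17987
import Pool.Agent.H426R3.CP.Fin

set_option autoImplicit false
open Pool Pool.MP_a23773_nt

namespace Pool.Agent.S17987

/-- For the digit sequence of 0.235711131719... (primes concatenated in base 10), it is not the case that for every block length m and every m-digit block k, the block counts obey the iterated-logarithm limsup/liminf law (strong normality to base 10). -/
theorem result :
  ∀ d : ℕ → ℕ,
    (∀ n : ℕ,
      (List.range ((List.range n).map
          (fun i => (Nat.digits 10 (Nat.nth Nat.Prime i)).length)).sum).map d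
        = (List.range n).flatMap
          (fun i => (Nat.digits 10 (Nat.nth Nat.Prime i)).reverse)) →
    ¬ (∀ m : ℕ, 1 ≤ m → ∀ k : ℕ, k < 10 ^ m →
        (∀ ε : ℝ, 0 < ε → ∀ᶠ n : ℕ in Filter.atTop,
          ((((Finset.range n).filter
              (fun j => ∑ i ∈ Finset.range m, d (j * m + i) * 10 ^ (m - 1 - i) = k)).card : ℝ)
              - (n : ℝ) / (10 : ℝ) ^ m)
            / Real.sqrt (2 * (n : ℝ) * Real.log (Real.log (n : ℝ)))
            < Real.sqrt ((10 : ℝ) ^ m - 1) / (10 : ℝ) ^ m + ε) ∧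
        (∀ ε : ℝ, 0 < ε → ∃ᶠ n : ℕ in Filter.atTop,
          Real.sqrt ((10 : ℝ) ^ m - 1) / (10 : ℝ) ^ m - ε <
          ((((Finset.range n).filter
              (fun j => ∑ i ∈ Finset.range m, d (j * m + i) * 10 ^ (m - 1 - i) = k)).card : ℝ)
              - (n : ℝ) / (10 : ℝ) ^ m)
            / Real.sqrt (2 * (n : ℝ) * Real.log (Real.log (n : ℝ)))) ∧
        (∀ ε : ℝ, 0 < ε → ∀ᶠ n : ℕ in Filter.atTop,
          -(Real.sqrt ((10 : ℝ) ^ m - 1) / (10 : ℝ) ^ m) - ε <
          ((((Finset.range n).filter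
              (fun j => ∑ i ∈ Finset.range m, d (j * m + i) * 10 ^ (m - 1 - i) = k)).card : ℝ)
              - (n : ℝ) / (10 : ℝ) ^ m)
            / Real.sqrt (2 * (n : ℝ) * Real.log (Real.log (n : ℝ)))) ∧
        (∀ ε : ℝ, 0 < ε → ∃ᶠ n : ℕ in Filter.atTop,
          ((((Finset.range n).filter
              (fun j => ∑ i ∈ Finset.range m, d (j * m + i) * 10 ^ (m - 1 - i) = k)).card : ℝ)
              - (n : ℝ) / (10 : ℝ) ^ m)
            / Real.sqrt (2 * (n : ℝ) * Real.log (Real.log (n : ℝ)))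
            < -(Real.sqrt ((10 : ℝ) ^ m - 1) / (10 : ℝ) ^ m) + ε)) := by
  intro d hd h
  refine Pool.Agent.H426R3.CP.fin_contra (d := d) hd ?_
  intro m hm k hk
  obtain ⟨h1, _, h3, _⟩ := h m hm k hk
  exact ⟨h1 1 one_pos, h3 1 one_pos⟩

end Pool.Agent.S17987
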