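import Pool.Statements.S18189
import Pool.Agent.H383R3.MulClose2

set_option autoImplicit false
open Pool Pool.MP_b2c262_nt

namespace Pool.Agent.S18189

/-- For a ≥ 1 and integers b, d with gcd(a,b,d)=1 and (b=d or a divides bd), any finitely many completely multiplicative unit-modulus functions satisfy: the liminf over n of the sum of the differences ∣f_j(an+b) − f_j(an+d)∣ is 0. -/
theorem result :
    ∀ a : ℕ, 0 < a → ∀ b d : ℤ,
      Int.gcd ((Int.gcd (a : ℤ) b : ℕ) : ℤ) d = 1 →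
      (b = d ∨ (a : ℤ) ∣ b * d) →
      ∀ ℓ : ℕ, ∀ f : Fin ℓ → ℕ → ℂ,
        (∀ j, (∀ m n : ℕ, 0 < m → 0 < n → f j (m * n) = f j m * f j n) ∧
              (∀ n : ℕ, 0 < n → ‖f j n‖ = 1)) →
        ∀ ε : ℝ, 0 < ε → ∀ N : ℕ, ∃ n : ℕ, N ≤ n ∧
          ∑ j, ‖f j (((a : ℤ) * (n : ℤ) + b).toNat) - f j (((a : ℤ) * (n : ℤ) + d).toNat)‖ < ε := by
  intro a ha b d hg hor ℓ f hf ε hε N
  have hg' : IsCoprime (gcd (a : ℤ) b) d := by
    rw [← Int.coe_gcd]
    exact Int.isCoprime_iff_gcd_eq_one.mpr hg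
  rcases lt_trichotomy d b with hbd | hbd | hbd
  · have hdvd : (a : ℤ) ∣ b * d := by
      rcases hor with h | h
      · omega
      · exact h
    exact Pool.Agent.H383R3.MulClose.main_lt a ha b d hbd hg' hdvd ℓ f hf ε hε N
  · subst hbd
    exact ⟨N, le_refl _, by simpa using hε⟩
  · have hdvd : (a : ℤ) ∣ d * b := by
      rcases hor with h | h
      · omega
      · rwa [mul_comm]
    have hg2 : IsCoprime (gcd (a : ℤ) d) b := by
      rw [← Int.coe_gcd]
      refine Int.isCoprime_iff_gcd_eq_one.mpr ?_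
      rw [Int.gcd_right_comm]
      exact hg
    obtain ⟨n, hn, hlt⟩ := Pool.Agent.H383R3.MulClose.main_lt a ha d b hbd hg2 hdvd ℓ f hf ε hε N
    refine ⟨n, hn, ?_⟩
    have : ∀ j, ‖f j (((a : ℤ) * (n : ℤ) + b).toNat) - f j (((a : ℤ) * (n : ℤ) + d).toNat)‖
        = ‖f j (((a : ℤ) * (n : ℤ) + d).toNat) - f j (((a : ℤ) * (n : ℤ) + b).toNat)‖ :=
      fun j => norm_sub_rev _ _
    simp only [this]
    exact hlt

end Pool.Agent.S18189
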