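import Pool.Statements.S18406
import Pool.Agent.H739R3.DiscMeas

set_option autoImplicit false
open Classical
open Pool Pool.MP_c36293_nt

namespace Pool.Agent.S18406

/-- The negation of the preceding statement: For every dimension d and every p ≥ 1 there is C such that for every N-point set in [0,1)^d, the p-th power periodic L_p discrepancy is at most C times the p-th power extreme L_p discrepancy. -/
theorem result :
    ¬ (∀ (d : ℕ), 1 ≤ d → ∀ (p : ℝ), 1 ≤ p → ∃ C : ℝ, 0 < C ∧
      ∀ (N : ℕ), 1 ≤ N → ∀ P : Fin N → Fin d → ℝ, (∀ i j, 0 ≤ P i j ∧ P i j < 1) →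
        (∫ x in Set.Icc (0 : Fin d → ℝ) 1, ∫ y in Set.Icc (0 : Fin d → ℝ) 1,
          |((Finset.univ.filter (fun i : Fin N => ∀ j : Fin d,
              (x j ≤ y j ∧ x j ≤ P i j ∧ P i j < y j) ∨
              (y j < x j ∧ (P i j < y j ∨ x j ≤ P i j)))).card : ℝ)
            - (N : ℝ) * ∏ j : Fin d, (if x j ≤ y j then y j - x j else 1 - x j + y j)| ^ p)
        ≤ C * ∫ x in Set.Icc (0 : Fin d → ℝ) 1, ∫ y in Set.Icc (0 : Fin d → ℝ) 1,
          (if x ≤ y then
            |((Finset.univ.filter (fun i : Fin N => ∀ j : Fin d,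
                x j ≤ P i j ∧ P i j < y j)).card : ℝ)
              - (N : ℝ) * ∏ j : Fin d, (y j - x j)| ^ p
           else 0)) := by
  intro H
  obtain ⟨C, hC0, hC⟩ := H 2 (by norm_num) 1 le_rfl
  obtain ⟨h, hh⟩ := exists_nat_gt (12288 * C + 6)
  have hh6r : (6 : ℝ) < h := by linarith
  have hh6 : 6 < h := by exact_mod_cast hh6r
  set n := h * h with hn
  have hn0 : 0 < n := by positivity
  have hhn : h ≤ n := Nat.le_mul_self h
  have hh4 : 4 * h ≤ n := by
    rw [hn]; exact Nat.mul_le_mul_right h (by omega)
  have hn' : (0 : ℝ) < n := by exact_mod_cast hn0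
  have hnr : (n : ℝ) = h * h := by rw [hn]; push_cast; ring
  have key := hC (n * n) (Nat.mul_pos hn0 hn0) (Pool.Agent.H739R3.Disc.pt n h)
    (fun i j => Pool.Agent.H739R3.Disc.pt_mem n h i j)
  have hbig := Pool.Agent.H739R3.Disc.per_big n h hn0 hh4 hh6.le
  have e1 : ∀ x y : Fin 2 → ℝ,
      |((Finset.univ.filter (fun i : Fin (n * n) => ∀ j : Fin 2,
              (x j ≤ y j ∧ x j ≤ Pool.Agent.H739R3.Disc.pt n h i j ∧
                Pool.Agent.H739R3.Disc.pt n h i j < y j) ∨
              (y j < x j ∧ (Pool.Agent.H739R3.Disc.pt n h i j < y j ∨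
                x j ≤ Pool.Agent.H739R3.Disc.pt n h i j)))).card : ℝ)
            - ((n * n : ℕ) : ℝ) * ∏ j : Fin 2,
              (if x j ≤ y j then y j - x j else 1 - x j + y j)| ^ (1 : ℝ)
      = Pool.Agent.H739R3.Disc.perInt (Pool.Agent.H739R3.Disc.pt n h) x y := by
    intro x y
    rw [Real.rpow_one]
    unfold Pool.Agent.H739R3.Disc.perInt
    rw [Finset.card_filter]
    push_cast
    congr 2
  simp only [e1] at key
  have hup : (∫ x in Set.Icc (0 : Fin 2 → ℝ) 1, ∫ y in Set.Icc (0 : Fin 2 → ℝ) 1,
          (if x ≤ y then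
            |((Finset.univ.filter (fun i : Fin (n * n) => ∀ j : Fin 2,
                x j ≤ Pool.Agent.H739R3.Disc.pt n h i j ∧
                  Pool.Agent.H739R3.Disc.pt n h i j < y j)).card : ℝ)
              - ((n * n : ℕ) : ℝ) * ∏ j : Fin 2, (y j - x j)| ^ (1 : ℝ)
           else 0)) ≤ 3 * n := by
    have hinner : ∀ x ∈ Set.Icc (0 : Fin 2 → ℝ) 1, (∫ y in Set.Icc (0 : Fin 2 → ℝ) 1,
          (if x ≤ y then
            |((Finset.univ.filter (fun i : Fin (n * n) => ∀ j : Fin 2,
                x j ≤ Pool.Agent.H739R3.Disc.pt n h i j ∧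
                  Pool.Agent.H739R3.Disc.pt n h i j < y j)).card : ℝ)
              - ((n * n : ℕ) : ℝ) * ∏ j : Fin 2, (y j - x j)| ^ (1 : ℝ)
           else 0)) ≤ 3 * n := by
      intro x hx
      have h3 : (3 : ℝ) * n = 2 * n + h * h := by rw [hnr]; ring
      rw [h3]
      apply Pool.Agent.H739R3.Disc.int_upper n h hn0 hhn
      · intro y _
        split_ifs
        · exact Real.rpow_nonneg (abs_nonneg _) _
        · exact le_rfl
      · intro y hy
        by_cases hxy : x ≤ y
        · rw [if_pos hxy, Real.rpow_one]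
          have hc := Pool.Agent.H739R3.Disc.count_extreme n h hn0 hhn (x 0) (y 0) (x 1) (y 1)
            (hx.1 0) (hxy 0) (hy.2 0) (hx.1 1) (hxy 1) (hy.2 1)
          have hsum := Pool.Agent.H739R3.Disc.sum_pt n h
            (fun z => if (∀ j : Fin 2, x j ≤ z j ∧ z j < y j) then (1 : ℝ) else 0)
          have e2 : ((Finset.univ.filter (fun i : Fin (n * n) => ∀ j : Fin 2,
                x j ≤ Pool.Agent.H739R3.Disc.pt n h i j ∧
                  Pool.Agent.H739R3.Disc.pt n h i j < y j)).card : ℝ)
              = ∑ j : Fin n, ∑ i : Fin n,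
                (if (x 0 ≤ Pool.Agent.H739R3.Disc.X n h i j ∧
                  Pool.Agent.H739R3.Disc.X n h i j < y 0) ∧
                  (x 1 ≤ Pool.Agent.H739R3.Disc.Y n j ∧ Pool.Agent.H739R3.Disc.Y n j < y 1)
                then (1 : ℝ) else 0) := by
            rw [Finset.card_filter]
            push_cast
            rw [hsum]
            apply Finset.sum_congr rfl
            intro j _
            apply Finset.sum_congr rfl
            intro i _
            apply if_congr _ rfl rfl
            rw [Fin.forall_fin_two]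
            simp only [Matrix.cons_val_zero, Matrix.cons_val_one]
          rw [e2, Fin.prod_univ_two]
          push_cast
          exact hc
        · rw [if_neg hxy]
          split_ifs
          · positivity
          · positivity
    have hvol : (MeasureTheory.volume : MeasureTheory.Measure (Fin 2 → ℝ)).real
        (Set.Icc (0 : Fin 2 → ℝ) 1) = 1 := by
      rw [MeasureTheory.measureReal_def, Real.volume_Icc_pi_toReal zero_le_one]
      simp
    have hfin : (MeasureTheory.volume : MeasureTheory.Measure (Fin 2 → ℝ))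
        (Set.Icc (0 : Fin 2 → ℝ) 1) < ⊤ := isCompact_Icc.measure_lt_top
    calc _ ≤ ∫ x in Set.Icc (0 : Fin 2 → ℝ) 1, (3 * n : ℝ) := by
            apply MeasureTheory.integral_mono_of_nonneg
            · apply Filter.Eventually.of_forall
              intro x
              apply MeasureTheory.integral_nonneg
              intro y
              simp only [Pi.zero_apply]
              split_ifs
              · exact Real.rpow_nonneg (abs_nonneg _) _
              · exact le_rfl
            · exact MeasureTheory.integrableOn_const hfin.ne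
            · filter_upwards [MeasureTheory.ae_restrict_mem measurableSet_Icc] with x hx
              exact hinner x hx
      _ = 3 * n := by
            rw [MeasureTheory.setIntegral_const, hvol]
            simp
  have hfinal : (n : ℝ) * (h - 6) / 4096 ≤ C * (3 * n) :=
    hbig.trans (key.trans (mul_le_mul_of_nonneg_left hup hC0.le))
  have h5 : (h - 6 : ℝ) / 4096 ≤ C * 3 := by
    have e : (n : ℝ) * (h - 6) / 4096 = n * ((h - 6) / 4096) := by ring
    have e' : C * (3 * n) = n * (C * 3) := by ring
    rw [e, e'] at hfinal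
    exact le_of_mul_le_mul_left hfinal hn'
  rw [div_le_iff₀ (by norm_num)] at h5
  linarith

end Pool.Agent.S18406
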