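import Pool.Statements.S18419
-- import your own Pool.Agent.* helpers here

set_option autoImplicit false
open Pool Pool.MP_c520af_nt

namespace Pool.Agent.S18419

/-- For every number field K there are maps (x,y) to (y, F_d(y) − δ_d x), with deg F_d = d and δ_d ≠ 0, for each d ≥ 2, whose number of K-rational periodic points eventually exceeds C·d for every constant C. -/
theorem result :
    ∀ (K : Type) [Field K] [NumberField K],
      ∃ (F : ℕ → Polynomial K) (δ : ℕ → K),
        (∀ d : ℕ, 2 ≤ d → (F d).natDegree = d ∧ δ d ≠ 0) ∧
        ∀ C : ℕ, ∃ D : ℕ, ∀ d : ℕ, 2 ≤ d → D ≤ d →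
          (((C * d : ℕ) : ℕ∞) <
            {P : K × K | ∃ n : ℕ, 1 ≤ n ∧
              (fun p : K × K => (p.2, (F d).eval p.2 - δ d * p.1))^[n] P = P}.encard) := by
  classical
  intro K _ _
  -- `F_d = ∏_{i<d} (X - i)` vanishes on `S = {0,…,d-1}` and `δ_d = -1`, so the map swaps the
  -- coordinates of every point of `S × S`; these are `d²` points of period at most `2`.
  refine ⟨fun d => ∏ i ∈ Finset.range d, (Polynomial.X - Polynomial.C (i : K)),
    fun _ => -1, ?_, ?_⟩
  · intro d _
    refine ⟨?_, by simp⟩
    rw [Polynomial.natDegree_prod_of_monic _ _ (fun i _ => Polynomial.monic_X_sub_C _)]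
    simp only [Polynomial.natDegree_X_sub_C, Finset.sum_const, Finset.card_range, smul_eq_mul,
      mul_one]
  · intro C
    refine ⟨C + 1, ?_⟩
    intro d hd hCd
    set T : Finset (K × K) :=
      ((Finset.range d).image (fun i : ℕ => (i : K))) ×ˢ
        ((Finset.range d).image (fun i : ℕ => (i : K))) with hT
    have hcard : T.card = d * d := by
      rw [hT, Finset.card_product, Finset.card_image_of_injective _ Nat.cast_injective,
        Finset.card_range]
    have hz : ∀ i ∈ Finset.range d,
        (∏ j ∈ Finset.range d, (Polynomial.X - Polynomial.C (j : K))).eval (i : K) = 0 := by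
      intro i hi
      rw [Polynomial.eval_prod]
      exact Finset.prod_eq_zero hi (by simp)
    have hsub : (T : Set (K × K)) ⊆ {P : K × K | ∃ n : ℕ, 1 ≤ n ∧
              (fun p : K × K => (p.2, (∏ j ∈ Finset.range d,
                (Polynomial.X - Polynomial.C (j : K))).eval p.2 - (-1) * p.1))^[n] P = P} := by
      intro P hP
      rw [hT] at hP
      simp only [Finset.coe_product, Finset.coe_image, Set.mem_prod, Set.mem_image,
        Finset.mem_coe] at hP
      obtain ⟨⟨i, hi, hi'⟩, ⟨j, hj, hj'⟩⟩ := hP
      refine ⟨2, by norm_num, ?_⟩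
      have h1 := hz i hi
      have h2 := hz j hj
      rw [hi'] at h1
      rw [hj'] at h2
      simp only [Function.iterate_succ, Function.iterate_zero, Function.comp_apply, id_eq]
      rw [h2]
      have e1 : (0 : K) - -1 * P.1 = P.1 := by ring
      rw [e1, h1]
      ext
      · rfl
      · show (0 : K) - -1 * P.2 = P.2
        ring
    have h3 := Set.encard_le_encard hsub
    rw [Set.encard_coe_eq_coe_finsetCard, hcard] at h3
    refine lt_of_lt_of_le ?_ h3
    have : C * d < d * d := by
      apply Nat.mul_lt_mul_of_pos_right <;> omega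
    exact_mod_cast this

end Pool.Agent.S18419
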