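import Pool.Statements.S18512
import Pool.Agent.H222R3.Weyl2b

set_option autoImplicit false
open Pool Pool.MP_ccba9a_nt

namespace Pool.Agent.S18512

/-- The negation of the preceding statement: For k≥1, s>0, c>0, ε>0 there is C such that for all X≥1 and measurable B in [0,1)^k with measure at least c·X^(1−k(k+1)/4), the integral over B of ∣Σ_{x≤X} e(α₁x+…+α_kx^k)∣^(2s) is at most C·X^ε·(X^s·mes B + X^(2s−k(k+1)/2)). -/
theorem result :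
    ¬ (∀ k : ℕ, 1 ≤ k → ∀ s : ℝ, 0 < s → ∀ c : ℝ, 0 < c → ∀ ε : ℝ, 0 < ε →
      ∃ C : ℝ, ∀ X : ℕ, 1 ≤ X → ∀ B : Set (Fin k → ℝ), MeasurableSet B →
        B ⊆ Set.pi Set.univ (fun _ => Set.Ico (0:ℝ) 1) →
        c * (X:ℝ) ^ (1 - (k:ℝ) * ((k:ℝ) + 1) / 4) ≤ (MeasureTheory.volume B).toReal →
        ∫ α in B, ‖∑ x ∈ Finset.Icc 1 X,
            Complex.exp (2 * (Real.pi:ℂ) * Complex.I *
              ∑ j : Fin k, (α j : ℂ) * (x:ℂ) ^ ((j:ℕ) + 1))‖ ^ (2 * s)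
          ≤ C * (X:ℝ) ^ ε * ((X:ℝ) ^ s * (MeasureTheory.volume B).toReal
              + (X:ℝ) ^ (2 * s - (k:ℝ) * ((k:ℝ) + 1) / 2))) := by
  intro H
  obtain ⟨C, hC⟩ := H 2 (by norm_num) 1 one_pos (1 / 9216) (by norm_num) (1 / 20) (by norm_num)
  -- choose m with sqrt m large
  obtain ⟨m, hm⟩ := exists_nat_gt (max 1 ((2 * 9217 * |C| + 1) ^ 2))
  have hm1 : (1 : ℝ) < m := lt_of_le_of_lt (le_max_left _ _) hm
  have hm2 : (2 * 9217 * |C| + 1) ^ 2 < m := lt_of_le_of_lt (le_max_right _ _) hm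
  have hm0 : 0 < m := by
    have : (0 : ℝ) < m := by linarith
    exact_mod_cast this
  have hmr : (0 : ℝ) < m := by linarith
  set X : ℕ := m ^ 10 with hXdef
  set Q : ℕ := m ^ 9 with hQdef
  have hX : 0 < X := by positivity
  have hQ : 0 < Q := by positivity
  have hQX : Q ≤ X := Nat.pow_le_pow_right hm0 (by norm_num)
  have hXr : (X : ℝ) = (m : ℝ) ^ 10 := by rw [hXdef]; push_cast; rfl
  have hQr : (Q : ℝ) = (m : ℝ) ^ 9 := by rw [hQdef]; push_cast; rfl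
  set V : ℝ := (MeasureTheory.volume (H222R3.Bs X Q)).toReal with hV
  have hVlow : 1 / 9216 * ((m : ℝ) ^ 3)⁻¹ ≤ V := by
    rw [hV, H222R3.Bs_vol X Q hQX, hXr]
    have h1 := H222R3.totient_sum Q hQ
    rw [hQr] at h1
    calc 1 / 9216 * ((m : ℝ) ^ 3)⁻¹ = (1 / (144 * ((m : ℝ) ^ 10) ^ 3)) * (((m : ℝ) ^ 9) ^ 3 / 64) := by
          field_simp
          norm_num
      _ ≤ _ := mul_le_mul_of_nonneg_left h1 (by positivity)
  have hcond : (1 / 9216 : ℝ) * (X : ℝ) ^ (1 - ((2 : ℕ) : ℝ) * (((2 : ℕ) : ℝ) + 1) / 4)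
      ≤ (MeasureTheory.volume (H222R3.Bs X Q)).toReal := by
    refine le_trans ?_ hVlow
    apply mul_le_mul_of_nonneg_left _ (by norm_num)
    have e : (1 - ((2 : ℕ) : ℝ) * (((2 : ℕ) : ℝ) + 1) / 4) = -(1 / 2) := by norm_num
    rw [e, hXr, ← Real.rpow_natCast, ← Real.rpow_mul hmr.le, ← Real.rpow_natCast,
      ← Real.rpow_neg hmr.le]
    apply Real.rpow_le_rpow_of_exponent_le hm1.le
    norm_num
  have h := hC X hX (H222R3.Bs X Q) (H222R3.Bs_meas X Q) (H222R3.Bs_sub X Q hQX) hcond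
  have hint : ∫ α in H222R3.Bs X Q, ‖∑ x ∈ Finset.Icc 1 X,
            Complex.exp (2 * (Real.pi:ℂ) * Complex.I *
              ∑ j : Fin 2, (α j : ℂ) * (x:ℂ) ^ ((j:ℕ) + 1))‖ ^ (2 * (1 : ℝ))
      = ∫ α in H222R3.Bs X Q, H222R3.Fs X α := by
    congr 1
    ext α
    unfold H222R3.Fs H222R3.ph
    rw [mul_one, show (2 : ℝ) = ((2 : ℕ) : ℝ) by norm_num, Real.rpow_natCast]
    congr 2
    refine Finset.sum_congr rfl fun x _ => ?_
    congr 1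
    rw [Fin.sum_univ_two]
    push_cast
    simp
  rw [hint] at h
  have hlow := H222R3.Bs_int X Q hX hQ hQX
  have h2 := hlow.trans h
  rw [← hV] at h2
  have hVpos : 0 < V := lt_of_lt_of_le (by positivity) hVlow
  -- powers
  have e1 : (X : ℝ) ^ (1 / 20 : ℝ) = Real.sqrt m := by
    rw [hXr, ← Real.rpow_natCast, ← Real.rpow_mul hmr.le, Real.sqrt_eq_rpow]
    norm_num
  have e2 : (X : ℝ) ^ (1 : ℝ) = (m : ℝ) ^ 10 := by rw [Real.rpow_one, hXr]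
  have e3 : (X : ℝ) ^ (2 * (1 : ℝ) - ((2 : ℕ) : ℝ) * (((2 : ℕ) : ℝ) + 1) / 2) = ((m : ℝ) ^ 10)⁻¹ := by
    have : (2 * (1 : ℝ) - ((2 : ℕ) : ℝ) * (((2 : ℕ) : ℝ) + 1) / 2) = -1 := by norm_num
    rw [this, Real.rpow_neg_one, hXr]
  rw [e1, e2, e3, hXr, hQr] at h2
  have h3 : ((m : ℝ) ^ 10)⁻¹ ≤ 9216 * ((m : ℝ) ^ 10 * V) := by
    have h4 : (1 : ℝ) ≤ (m : ℝ) ^ 17 := one_le_pow₀ hm1.le
    have h5 : (m : ℝ) ^ 10 * (1 / 9216 * ((m : ℝ) ^ 3)⁻¹) ≤ (m : ℝ) ^ 10 * V :=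
      mul_le_mul_of_nonneg_left hVlow (by positivity)
    have h6 : ((m : ℝ) ^ 10)⁻¹ ≤ 9216 * ((m : ℝ) ^ 10 * (1 / 9216 * ((m : ℝ) ^ 3)⁻¹)) := by
      have : 9216 * ((m : ℝ) ^ 10 * (1 / 9216 * ((m : ℝ) ^ 3)⁻¹)) = ((m : ℝ) ^ 10)⁻¹ * (m : ℝ) ^ 17 := by
        field_simp
      rw [this]
      have h7 : 0 ≤ ((m : ℝ) ^ 10)⁻¹ := by positivity
      nlinarith
    linarith
  have h8 : (m : ℝ) ^ 11 / 2 * V ≤ |C| * Real.sqrt m * (9217 * ((m : ℝ) ^ 10 * V)) := by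
    have l : ((m : ℝ) ^ 10) ^ 2 / (2 * (m : ℝ) ^ 9) * V = (m : ℝ) ^ 11 / 2 * V := by
      field_simp
    rw [l] at h2
    refine h2.trans ?_
    have hs : 0 ≤ Real.sqrt m := Real.sqrt_nonneg _
    have p1 : 0 ≤ (m : ℝ) ^ 10 * V + ((m : ℝ) ^ 10)⁻¹ := by positivity
    calc C * Real.sqrt m * ((m : ℝ) ^ 10 * V + ((m : ℝ) ^ 10)⁻¹)
        ≤ |C| * Real.sqrt m * ((m : ℝ) ^ 10 * V + ((m : ℝ) ^ 10)⁻¹) := by
          apply mul_le_mul_of_nonneg_right _ p1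
          exact mul_le_mul_of_nonneg_right (le_abs_self C) hs
      _ ≤ |C| * Real.sqrt m * (9217 * ((m : ℝ) ^ 10 * V)) := by
          apply mul_le_mul_of_nonneg_left _ (by positivity)
          linarith
  have h9 : (m : ℝ) ≤ 2 * 9217 * |C| * Real.sqrt m := by
    have hp : 0 < (m : ℝ) ^ 10 * V / 2 := by positivity
    have l : (m : ℝ) ^ 11 / 2 * V = m * ((m : ℝ) ^ 10 * V / 2) := by ring
    have r : |C| * Real.sqrt m * (9217 * ((m : ℝ) ^ 10 * V))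
        = (2 * 9217 * |C| * Real.sqrt m) * ((m : ℝ) ^ 10 * V / 2) := by ring
    rw [l, r] at h8
    exact le_of_mul_le_mul_right h8 hp
  have hsq : Real.sqrt m * Real.sqrt m = m := Real.mul_self_sqrt hmr.le
  have hsp : 0 < Real.sqrt m := Real.sqrt_pos.2 hmr
  have h10 : Real.sqrt m ≤ 2 * 9217 * |C| := by
    have : Real.sqrt m * Real.sqrt m ≤ (2 * 9217 * |C|) * Real.sqrt m := by rw [hsq]; exact h9
    exact le_of_mul_le_mul_right this hsp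
  have h11 : (2 * 9217 * |C| + 1) < Real.sqrt m := by
    apply Real.lt_sqrt_of_sq_lt hm2
  linarith

end Pool.Agent.S18512
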