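import Pool.Statements.S18555
import Pool.Agent.H727R3.Final

set_option autoImplicit false
open Pool Pool.MP_d08592_nt

namespace Pool.Agent.S18555

/-- Fix odd n at least 7 and k with 1 ≤ k ≤ n−1. Some k-dimensional F_2-subspace of F_{2^n} has the inverses of its nonzero elements summing to zero exactly when 3 ≤ k ≤ n−3. -/
theorem result :
    ∀ n : ℕ, Odd n → 7 ≤ n → ∀ k : ℕ,
      ((1 ≤ k ∧ k ≤ n - 1 ∧
        ∃ F : Subspace (ZMod 2) (GaloisField 2 n),
          Module.finrank (ZMod 2) F = k ∧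
          ∑ᶠ v ∈ (F : Set (GaloisField 2 n)), v⁻¹ = 0) ↔
        (3 ≤ k ∧ k ≤ n - 3)) :=
  fun n hodd h7 k => Pool.Agent.H727R3.main_one n hodd h7 k

end Pool.Agent.S18555
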