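import Pool.Statements.S18664

set_option autoImplicit false
open Pool Pool.MP_daf011_nt

namespace Pool.Agent.S18664

open Polynomial

/-- The cubic `q X^3 - q X^2 + (q+1) X - (q-1)`. -/
noncomputable def cub (q : ℤ) : ℤ[X] := C q * X ^ 3 + C (-q) * X ^ 2 + C (q + 1) * X + C (1 - q)

lemma aeval_cub (q : ℤ) (z : ℂ) :
    aeval z (cub q) = q * z ^ 3 - q * z ^ 2 + (q + 1) * z - (q - 1) := by
  simp [cub]
  ring

/-- The real root. -/
lemma exists_real_root (q : ℤ) (hq : 3 ≤ q) :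
    ∃ r : ℝ, r < 1 - 1 / (q : ℝ) ∧ 1 - 1 / (q : ℝ) - 3 / (2 * (q : ℝ) ^ 2) ≤ r ∧
      (q : ℝ) * r ^ 3 - q * r ^ 2 + (q + 1) * r - (q - 1) = 0 := by
  have hq3 : (3 : ℝ) ≤ q := by exact_mod_cast hq
  have hq0 : (0 : ℝ) < q := by linarith
  obtain ⟨t, ht⟩ : ∃ t : ℝ, t = 1 / (q : ℝ) := ⟨_, rfl⟩
  have ht0 : 0 < t := by rw [ht]; positivity
  have hqt : (q : ℝ) * t = 1 := by rw [ht]; field_simp
  have ht3 : t ≤ 1 / 3 := by rw [ht]; exact one_div_le_one_div_of_le (by norm_num) hq3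
  have h2 : 3 / (2 * (q : ℝ) ^ 2) = 3 / 2 * t ^ 2 := by rw [ht]; field_simp
  rw [h2, ← ht]
  set f : ℝ → ℝ := fun x => (q : ℝ) * x ^ 3 - q * x ^ 2 + (q + 1) * x - (q - 1) with hf
  have hcont : ContinuousOn f (Set.Icc (1 - t - 3 / 2 * t ^ 2) (1 - t)) := by
    apply Continuous.continuousOn
    rw [hf]
    fun_prop
  have hfb : 0 < f (1 - t) := by
    have : f (1 - t) = t * (1 - t) := by
      simp only [hf]
      have e : (q : ℝ) * (1 - t) ^ 3 - q * (1 - t) ^ 2 + (q + 1) * (1 - t) - (q - 1) =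
        (q * t) * (-(1 - t) ^ 2 - 1) + (1 - t) + 1 := by ring
      rw [e, hqt]
      ring
    rw [this]
    apply mul_pos ht0
    linarith
  have hfa : f (1 - t - 3 / 2 * t ^ 2) ≤ 0 := by
    have e : f (1 - t - 3 / 2 * t ^ 2) = (q * t) * (-(1 + 3 / 2 * t) * ((1 - t - 3 / 2 * t ^ 2) ^ 2 + 1))
        + (1 - t - 3 / 2 * t ^ 2) + 1 := by
      simp only [hf]; ring
    rw [e, hqt]
    nlinarith [mul_pos ht0 ht0, mul_pos (mul_pos ht0 ht0) ht0, mul_nonneg ht0.le ht0.le,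
      pow_pos ht0 3, pow_pos ht0 4, pow_pos ht0 5]
  have hab : 1 - t - 3 / 2 * t ^ 2 ≤ 1 - t := by nlinarith
  obtain ⟨r, hr, hr0⟩ := intermediate_value_Icc hab hcont (⟨hfa, hfb.le⟩ : (0 : ℝ) ∈ Set.Icc _ _)
  refine ⟨r, lt_of_le_of_ne hr.2 ?_, hr.1, hr0⟩
  rintro rfl
  rw [hr0] at hfb
  exact lt_irrefl _ hfb

/-- All other roots have the same modulus. -/
lemma factor (q : ℤ) (r : ℝ)
    (hr : (q : ℝ) * r ^ 3 - q * r ^ 2 + (q + 1) * r - (q - 1) = 0) (z : ℂ) :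
    (r : ℂ) * ((q : ℂ) * z ^ 3 - q * z ^ 2 + (q + 1) * z - (q - 1)) =
      (z - r) * (q * r * z ^ 2 - q * r * (1 - r) * z + (q - 1)) := by
  have hrC : (q : ℂ) * (r : ℂ) ^ 3 - q * (r : ℂ) ^ 2 + (q + 1) * r - (q - 1) = 0 := by
    exact_mod_cast congrArg (fun x : ℝ => (x : ℂ)) hr
  linear_combination z * hrC

/-- The negation of the preceding statement: There is c>0 such that every integer polynomial of degree n≥1 with leading coefficient q that has a complex root of modulus >1 also has a complex root of modulus >1+c/(∣q∣n). -/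
theorem result :
    ¬ (∃ c : ℝ, 0 < c ∧
      ∀ P : Polynomial ℤ, 0 < P.natDegree →
        (∃ z : ℂ, Polynomial.aeval z P = 0 ∧ 1 < ‖z‖) →
        ∃ z : ℂ, Polynomial.aeval z P = 0 ∧
          1 + c / (|((P.leadingCoeff : ℤ) : ℝ)| * (P.natDegree : ℝ)) < ‖z‖) := by
  rintro ⟨c, hc, H⟩
  obtain ⟨N, hN⟩ := exists_nat_gt (9 / (2 * c))
  obtain ⟨q, hqN, hq3⟩ : ∃ q : ℤ, (9 / (2 * c) : ℝ) < q ∧ 3 ≤ q := by
    refine ⟨(N : ℤ) + 3, ?_, by omega⟩
    push_cast
    linarith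
  have hq3R : (3 : ℝ) ≤ q := by exact_mod_cast hq3
  have hq0 : (0 : ℝ) < q := by linarith
  obtain ⟨r, hr1, hr2, hr⟩ := exists_real_root q hq3
  obtain ⟨t, ht⟩ : ∃ t : ℝ, t = 1 / (q : ℝ) := ⟨_, rfl⟩
  have ht0 : 0 < t := by rw [ht]; positivity
  have hqt : (q : ℝ) * t = 1 := by rw [ht]; field_simp
  have ht3 : t ≤ 1 / 3 := by rw [ht]; exact one_div_le_one_div_of_le (by norm_num) hq3R
  have h2 : 3 / (2 * (q : ℝ) ^ 2) = 3 / 2 * t ^ 2 := by rw [ht]; field_simp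
  rw [h2, ← ht] at hr2
  rw [← ht] at hr1
  have hr0 : 1 / 2 ≤ r := by nlinarith
  have hrpos : 0 < r := by linarith
  have hqne : (q : ℝ) ≠ 0 := hq0.ne'
  -- modulus squared of the other roots
  obtain ⟨v, hv⟩ : ∃ v : ℝ, v = (1 - t) / r := ⟨_, rfl⟩
  have hvr : v * r = 1 - t := by rw [hv]; field_simp
  have hv1 : 1 < v := by rw [hv, lt_div_iff₀ hrpos]; linarith
  have hv2 : v ≤ 1 + 3 * t ^ 2 := by
    rw [hv, div_le_iff₀ hrpos]
    nlinarith
  have hdeg : (cub q).natDegree = 3 := natDegree_cubic (by omega)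
  have hlead : (cub q).leadingCoeff = q := leadingCoeff_cubic (by omega)
  have hquad : ∀ z : ℂ, (q * r * z ^ 2 - q * r * (1 - r) * z + (q - 1) : ℂ) =
      (q * r) * (z ^ 2 - (1 - r) * z + v) := by
    intro z
    have e1 : ((q : ℝ) - 1 : ℝ) = q * r * v := by
      have : (q : ℝ) * r * v = q * (v * r) := by ring
      rw [this, hvr]; linear_combination hqt
    have e2 : ((q : ℂ) - 1) = q * r * v := by exact_mod_cast congrArg (fun x : ℝ => (x : ℂ)) e1
    rw [e2]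
    ring
  -- every root has modulus at most `sqrt v`
  have hroots : ∀ z : ℂ, aeval z (cub q) = 0 → ‖z‖ ^ 2 ≤ v := by
    intro z hz
    rw [aeval_cub] at hz
    have h1 := factor q r hr z
    rw [hz, mul_zero] at h1
    rcases mul_eq_zero.mp h1.symm with h | h
    · have hz' : z = r := by linear_combination h
      rw [hz', Complex.norm_real, Real.norm_of_nonneg hrpos.le]
      nlinarith
    · rw [hquad] at h
      have hne : ((q : ℂ) * r) ≠ 0 := by
        exact_mod_cast (mul_pos hq0 hrpos).ne'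
      have h3 : z ^ 2 - (1 - r) * z + v = 0 := (mul_eq_zero.mp h).resolve_left hne
      have hre := congrArg Complex.re h3
      have him := congrArg Complex.im h3
      simp [pow_two] at hre him
      have him' : z.im * (2 * z.re - (1 - r)) = 0 := by linarith
      rcases mul_eq_zero.mp him' with h4 | h4
      · exfalso
        rw [h4] at hre
        nlinarith [sq_nonneg (z.re - (1 - r) / 2)]
      · rw [Complex.sq_norm, Complex.normSq_apply]
        nlinarith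
  -- a root outside the unit disk
  obtain ⟨s, hs⟩ : ∃ s : ℝ, s = Real.sqrt (v - (1 - r) ^ 2 / 4) := ⟨_, rfl⟩
  have hs2 : s ^ 2 = v - (1 - r) ^ 2 / 4 := by
    rw [hs, Real.sq_sqrt]
    nlinarith
  have hexists : ∃ z : ℂ, aeval z (cub q) = 0 ∧ 1 < ‖z‖ := by
    refine ⟨⟨(1 - r) / 2, s⟩, ?_, ?_⟩
    · rw [aeval_cub]
      have h1 := factor q r hr ⟨(1 - r) / 2, s⟩
      rw [hquad] at h1
      have h3 : ((⟨(1 - r) / 2, s⟩ : ℂ) ^ 2 - (1 - r) * ⟨(1 - r) / 2, s⟩ + v : ℂ) = 0 := by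
        apply Complex.ext
        · simp [pow_two]
          nlinarith
        · simp [pow_two]
          ring
      rw [h3, mul_zero, mul_zero] at h1
      have hrC : (r : ℂ) ≠ 0 := by exact_mod_cast hrpos.ne'
      exact (mul_eq_zero.mp h1).resolve_left hrC
    · have h1 : ‖(⟨(1 - r) / 2, s⟩ : ℂ)‖ ^ 2 = v := by
        rw [Complex.sq_norm, Complex.normSq_apply]
        simp only
        linear_combination hs2
      by_contra hcon
      push Not at hcon
      have h2 : ‖(⟨(1 - r) / 2, s⟩ : ℂ)‖ ^ 2 ≤ 1 := pow_le_one₀ (norm_nonneg _) hcon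
      linarith
  obtain ⟨z, hz, hzn⟩ := H (cub q) (by rw [hdeg]; norm_num) hexists
  rw [hdeg, hlead, abs_of_pos hq0] at hzn
  have h1 := hroots z hz
  have h3 : c / ((q : ℝ) * ((3 : ℕ) : ℝ)) = c / 3 * t := by
    rw [ht]; push_cast; field_simp
  rw [h3] at hzn
  have h4 : 9 / 2 * t < c := by
    rw [div_lt_iff₀ (by positivity)] at hqN
    have : 9 * t < q * (2 * c) * t := by nlinarith
    have e : (q : ℝ) * (2 * c) * t = 2 * c * (q * t) := by ring
    rw [e, hqt] at this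
    linarith
  have h5 : (1 + c / 3 * t) ^ 2 < ‖z‖ ^ 2 := by
    apply pow_lt_pow_left₀ hzn (by positivity) (by norm_num)
  have h6 : (1 + c / 3 * t) ^ 2 < 1 + 3 * t ^ 2 := lt_of_lt_of_le h5 (h1.trans hv2)
  have h7 : 0 ≤ (c / 3 * t) ^ 2 := sq_nonneg _
  have h8 : 2 / 3 * c * t < 3 * t * t := by linarith
  have h9 : 2 / 3 * c < 3 * t := lt_of_mul_lt_mul_right h8 ht0.le
  linarith

end Pool.Agent.S18664
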