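import Pool.Statements.S18742
import Pool.Agent.H739R3.DiscMeas

set_option autoImplicit false
open Classical
open Pool Pool.MP_e1a649_nt

namespace Pool.Agent.S18742

/-- The negation of the preceding statement: For every p ≥ 1 and d ≥ 1 there is C > 0 such that every N-point family in [0,1)^d has periodic L_p discrepancy (over wrap-around boxes) at most C times its star L_p discrepancy (over anchored boxes). -/
theorem result :
    ¬ (∀ p : ℝ, 1 ≤ p → ∀ d : ℕ, 1 ≤ d → ∃ C : ℝ, 0 < C ∧
      ∀ N : ℕ, ∀ P : Fin N → Fin d → ℝ, (∀ i j, 0 ≤ P i j ∧ P i j < 1) →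
        (∫ x in Set.Icc (0 : Fin d → ℝ) 1, ∫ y in Set.Icc (0 : Fin d → ℝ) 1,
            |((Finset.univ.filter (fun i : Fin N => ∀ j : Fin d,
                  if x j ≤ y j then (x j ≤ P i j ∧ P i j < y j)
                  else (P i j < y j ∨ x j ≤ P i j))).card : ℝ)
              - (N : ℝ) * ∏ j : Fin d, (if x j ≤ y j then y j - x j else 1 - x j + y j)| ^ p)
          ^ (1 / p)
        ≤ C * (∫ t in Set.Icc (0 : Fin d → ℝ) 1,
            |((Finset.univ.filter (fun i : Fin N => ∀ j : Fin d, P i j < t j)).card : ℝ)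
              - (N : ℝ) * ∏ j : Fin d, t j| ^ p) ^ (1 / p)) := by
  intro H
  obtain ⟨C, hC0, hC⟩ := H 1 le_rfl 2 (by norm_num)
  obtain ⟨h, hh⟩ := exists_nat_gt (12288 * C + 6)
  have hh6r : (6 : ℝ) < h := by linarith
  have hh6 : 6 < h := by exact_mod_cast hh6r
  set n := h * h with hn
  have hn0 : 0 < n := by positivity
  have hhn : h ≤ n := Nat.le_mul_self h
  have hh4 : 4 * h ≤ n := by
    rw [hn]; exact Nat.mul_le_mul_right h (by omega)
  have hn' : (0 : ℝ) < n := by exact_mod_cast hn0
  have hnr : (n : ℝ) = h * h := by rw [hn]; push_cast; ring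
  have key := hC (n * n) (Pool.Agent.H739R3.Disc.pt n h)
    (fun i j => Pool.Agent.H739R3.Disc.pt_mem n h i j)
  have hbig := Pool.Agent.H739R3.Disc.per_big n h hn0 hh4 hh6.le
  have e1 : ∀ x y : Fin 2 → ℝ,
      |((Finset.univ.filter (fun i : Fin (n * n) => ∀ j : Fin 2,
              if x j ≤ y j then (x j ≤ Pool.Agent.H739R3.Disc.pt n h i j ∧
                Pool.Agent.H739R3.Disc.pt n h i j < y j)
              else (Pool.Agent.H739R3.Disc.pt n h i j < y j ∨
                x j ≤ Pool.Agent.H739R3.Disc.pt n h i j))).card : ℝ)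
            - ((n * n : ℕ) : ℝ) * ∏ j : Fin 2,
              (if x j ≤ y j then y j - x j else 1 - x j + y j)| ^ (1 : ℝ)
      = Pool.Agent.H739R3.Disc.perInt (Pool.Agent.H739R3.Disc.pt n h) x y := by
    intro x y
    rw [Real.rpow_one]
    unfold Pool.Agent.H739R3.Disc.perInt
    rw [Finset.card_filter]
    push_cast
    congr 2
    apply Finset.sum_congr rfl
    intro k _
    apply if_congr _ rfl rfl
    apply forall_congr'
    intro j
    by_cases hc : x j ≤ y j
    · have hc' : ¬ (y j < x j) := not_lt.mpr hc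
      simp only [hc, hc', if_true, true_and, false_and, or_false]
    · have hc' : y j < x j := not_le.mp hc
      simp only [hc, hc', if_false, true_and, false_and, false_or]
  simp only [e1] at key
  rw [show (1 : ℝ) / 1 = 1 by norm_num, Real.rpow_one, Real.rpow_one] at key
  have hup : (∫ t in Set.Icc (0 : Fin 2 → ℝ) 1,
            |((Finset.univ.filter (fun i : Fin (n * n) => ∀ j : Fin 2,
                Pool.Agent.H739R3.Disc.pt n h i j < t j)).card : ℝ)
              - ((n * n : ℕ) : ℝ) * ∏ j : Fin 2, t j| ^ (1 : ℝ)) ≤ 3 * n := by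
    have h3 : (3 : ℝ) * n = 2 * n + h * h := by rw [hnr]; ring
    rw [h3]
    apply Pool.Agent.H739R3.Disc.int_upper n h hn0 hhn
    · intro y _
      exact Real.rpow_nonneg (abs_nonneg _) _
    · intro y hy
      rw [Real.rpow_one]
      have hc := Pool.Agent.H739R3.Disc.count_extreme n h hn0 hhn 0 (y 0) 0 (y 1)
        le_rfl (hy.1 0) (hy.2 0) le_rfl (hy.1 1) (hy.2 1)
      have hsum := Pool.Agent.H739R3.Disc.sum_pt n h
        (fun z => if (∀ j : Fin 2, z j < y j) then (1 : ℝ) else 0)
      have hX0 : ∀ i j : Fin n, 0 ≤ Pool.Agent.H739R3.Disc.X n h i j := by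
        intro i j
        unfold Pool.Agent.H739R3.Disc.X
        split_ifs
        · exact div_nonneg (Nat.cast_nonneg _) hn'.le
        · exact div_nonneg (Nat.cast_nonneg _) (by positivity)
      have hY0 : ∀ j : Fin n, 0 ≤ Pool.Agent.H739R3.Disc.Y n j := by
        intro j
        unfold Pool.Agent.H739R3.Disc.Y
        exact div_nonneg (Nat.cast_nonneg _) hn'.le
      have e2 : ((Finset.univ.filter (fun i : Fin (n * n) => ∀ j : Fin 2,
            Pool.Agent.H739R3.Disc.pt n h i j < y j)).card : ℝ)
          = ∑ j : Fin n, ∑ i : Fin n,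
            (if (0 ≤ Pool.Agent.H739R3.Disc.X n h i j ∧
              Pool.Agent.H739R3.Disc.X n h i j < y 0) ∧
              (0 ≤ Pool.Agent.H739R3.Disc.Y n j ∧ Pool.Agent.H739R3.Disc.Y n j < y 1)
            then (1 : ℝ) else 0) := by
        rw [Finset.card_filter]
        push_cast
        rw [hsum]
        apply Finset.sum_congr rfl
        intro j _
        apply Finset.sum_congr rfl
        intro i _
        apply if_congr _ rfl rfl
        rw [Fin.forall_fin_two]
        simp only [Matrix.cons_val_zero, Matrix.cons_val_one, hX0, hY0, true_and]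
      rw [e2, Fin.prod_univ_two]
      push_cast
      simpa only [sub_zero] using hc
  have hfinal : (n : ℝ) * (h - 6) / 4096 ≤ C * (3 * n) :=
    hbig.trans (key.trans (mul_le_mul_of_nonneg_left hup hC0.le))
  have h5 : (h - 6 : ℝ) / 4096 ≤ C * 3 := by
    have e : (n : ℝ) * (h - 6) / 4096 = n * ((h - 6) / 4096) := by ring
    have e' : C * (3 * n) = n * (C * 3) := by ring
    rw [e, e'] at hfinal
    exact le_of_mul_le_mul_left hfinal hn'
  rw [div_le_iff₀ (by norm_num)] at h5
  linarith

end Pool.Agent.S18742
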