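import Pool.Statements.S18789
import Pool.Agent.H196R3.Shear

set_option autoImplicit false
open Classical
open Pool Pool.MP_e4b0f6_nt

namespace Pool.Agent.S18789

open Pool.Agent.H196R3 in
theorem rot_eq (x : ℝ) : Complex.exp (2 * (Real.pi : ℂ) * Complex.I * (x : ℂ)) = rot x := by
  rw [rot]
  congr 1
  push_cast
  ring

/-- For every N ≥ 1 and non-zero integer Laurent polynomial f in N variables, log of ∣product of the non-zero values of f at N-tuples of m-th roots of unity∣, divided by m^N, tends to the integral of log∣f∣ over the unit torus. -/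
theorem result :
    ∀ N : ℕ, 1 ≤ N → ∀ f : (Fin N →₀ ℤ) →₀ ℤ, f ≠ 0 →
      Filter.Tendsto
        (fun n : ℕ =>
          Real.log ‖∏ k ∈ Finset.univ.filter (fun k : Fin N → Fin (n + 1) =>
              f.sum (fun e c => (c : ℂ) * ∏ i, Complex.exp
                (2 * (Real.pi : ℂ) * Complex.I * ((k i : ℕ) : ℂ) / ((n : ℂ) + 1)) ^ (e i)) ≠ 0),
            f.sum (fun e c => (c : ℂ) * ∏ i, Complex.exp
                (2 * (Real.pi : ℂ) * Complex.I * ((k i : ℕ) : ℂ) / ((n : ℂ) + 1)) ^ (e i))‖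
          / ((n : ℝ) + 1) ^ N)
        Filter.atTop
        (nhds (∫ t in Set.Icc (0 : Fin N → ℝ) 1,
          Real.log ‖f.sum (fun e c => (c : ℂ) * ∏ i, Complex.exp
            (2 * (Real.pi : ℂ) * Complex.I * (t i : ℂ)) ^ (e i))‖)) := by
  intro N hN f hf
  obtain ⟨M, rfl⟩ : ∃ M, N = M + 1 := ⟨N - 1, by omega⟩
  have h1 := (Filter.tendsto_add_atTop_iff_nat 1).2 (H196R3.main_grid f hf)
  have h2 : (∫ t in Set.Icc (0 : Fin (M + 1) → ℝ) 1,
          Real.log ‖f.sum (fun e c => (c : ℂ) * ∏ i, Complex.exp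
            (2 * (Real.pi : ℂ) * Complex.I * (t i : ℂ)) ^ (e i))‖) =
      ∫ t in Set.Icc (0 : Fin (M + 1) → ℝ) 1,
        Real.log ‖H196R3.lev f (fun i => H196R3.rot (t i))‖ := by
    simp only [rot_eq, H196R3.lev]
  rw [h2]
  refine h1.congr (fun n => ?_)
  have h3 : ∀ (k : Fin (M + 1) → Fin (n + 1)) (i : Fin (M + 1)),
      Complex.exp (2 * (Real.pi : ℂ) * Complex.I * ((k i : ℕ) : ℂ) / ((n : ℂ) + 1)) =
        H196R3.rot (H196R3.grid (n + 1) k i) := by
    intro k i
    rw [← rot_eq, H196R3.grid]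
    congr 1
    push_cast
    ring
  simp only [h3]
  have h4 : ∀ k : Fin (M + 1) → Fin (n + 1),
      f.sum (fun e c => (c : ℂ) * ∏ i, H196R3.rot (H196R3.grid (n + 1) k i) ^ (e i)) =
        H196R3.lev f (fun i => H196R3.rot (H196R3.grid (n + 1) k i)) := fun k => rfl
  simp only [h4]
  push_cast
  congr 1
  rw [norm_prod, Real.log_prod]
  · rw [Finset.sum_filter]
    apply Finset.sum_congr rfl
    intro k _
    split_ifs with h
    · rfl
    · push Not at h
      rw [h, norm_zero, Real.log_zero]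
  · intro k hk
    exact norm_ne_zero_iff.2 (Finset.mem_filter.1 hk).2

end Pool.Agent.S18789
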