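import Pool.Statements.S18821
import Pool.Agent.H352R3.Complete

set_option autoImplicit false
open Pool Pool.MP_e7cd8d_nt

namespace Pool.Agent.S18821

/-- There is c0 such that for every c at least c0: every maximal pairwise coprime set of integers in (m, m + floor((log m)^c)] has size tending to infinity as m grows. -/
theorem result :
    ∃ c₀ : ℝ, ∀ c : ℝ, c₀ ≤ c → ∀ N : ℕ, ∃ M : ℕ, ∀ m : ℕ, M ≤ m →
      ∀ A : Finset ℕ,
        A ⊆ Finset.Ioc m (m + ⌊(Real.log (m : ℝ)) ^ c⌋₊) →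
        (A : Set ℕ).Pairwise Nat.Coprime →
        (∀ n ∈ Finset.Ioc m (m + ⌊(Real.log (m : ℝ)) ^ c⌋₊),
            n ∉ A → ∃ a ∈ A, ¬ Nat.Coprime a n) →
        N ≤ A.card := by
  refine ⟨500, fun c hc N => ?_⟩
  obtain ⟨M, hM⟩ := Pool.Agent.H352R3.Complete.main c hc N
  exact ⟨M, fun m hm A hA _ hcomp => hM m hm A hA hcomp⟩

end Pool.Agent.S18821
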