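import Pool.Statements.S18883
import Pool.Agent.H238R3.MS.Sys2

set_option autoImplicit false
open Pool Pool.MP_ed6e5c_nt

namespace Pool.Agent.S18883

open Pool.Agent.H238R3.MS

lemma root_lt {j r c Q S : ℝ} (hj : 0 < j) (hr : 0 ≤ r) (hQ : 0 < Q) (hS : 0 < S)
    (hc : c/Q < 1/S) (h : Q * (if j = 0 then 0 else r^(1/j)) ≤ c) : r < 1/S^j := by
  rw [if_neg hj.ne'] at h
  have h1 : r^(1/j) < 1/S := by
    have : r^(1/j) ≤ c/Q := by
      rw [le_div_iff₀ hQ]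
      linarith
    linarith
  have h2 : r = (r^(1/j))^j := by
    rw [← Real.rpow_mul hr, one_div, inv_mul_cancel₀ hj.ne', Real.rpow_one]
  rw [h2]
  calc (r^(1/j))^j < (1/S)^j := Real.rpow_lt_rpow (by positivity) h1 hj
    _ = 1/S^j := by
      rw [one_div, Real.inv_rpow hS.le, one_div]

lemma root_mul_lt {j r c Q S : ℝ} (hj : 0 < j) (hr : 0 ≤ r) (hQ : 0 < Q) (hS : 0 < S)
    (hc : c/Q < 1/S) (h : Q * (if j = 0 then 0 else r^(1/j)) ≤ c) : r * S^j < 1 := by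
  have h1 := root_lt hj hr hQ hS hc h
  have h2 : 0 < S^j := Real.rpow_pos_of_pos hS j
  rwa [lt_div_iff₀ h2] at h1

lemma dvd_of {d : ℕ → ℕ} (hd : ∀ n, 2 ≤ d n) {i c S : ℝ} {q : ℕ} (hi : 0 ≤ i) (hq : 0 < q)
    (hS : 1 ≤ S) (hc : c/(q:ℝ) < 1/S)
    (h : (q:ℝ) * (if i = 0 then 0 else (AD d q)^(1/i)) ≤ c) :
    ((PP d (lev d (S^i)) : ℕ) : ℤ) ∣ (q:ℤ) := by
  have hq0 : (0:ℝ) < q := by exact_mod_cast hq
  have hX : 1 ≤ S^i := Real.one_le_rpow hS hi
  rcases hi.eq_or_lt with rfl | hi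
  · have h1 := lev_spec d hX
    rw [Real.rpow_zero] at h1 ⊢
    have h2 : PP d (lev d 1) ≤ 1 := by exact_mod_cast h1
    have h3 := PP_pos hd (lev d 1)
    have h4 : PP d (lev d 1) = 1 := by omega
    rw [h4]
    simp
  · have h1 := root_lt hi (AD_nonneg d q) hq0 (by linarith) hc h
    exact_mod_cast dvd_of_AD_lt hd hX h1

lemma exists_s {C0 : ℝ} (hC0 : 1 ≤ C0) {q : ℕ} (hq : 0 < q) :
    ∃ s : ℕ, (2:ℝ)^s ≤ 2 * C0 * (q:ℝ) ∧ C0 * (q:ℝ) < (2:ℝ)^s ∧ (1/(4*C0))/(q:ℝ) < 1/(2:ℝ)^s := by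
  have hq0 : (1:ℝ) ≤ q := by exact_mod_cast hq
  have hx : (1:ℝ) ≤ 2 * C0 * q := by nlinarith
  obtain ⟨s, h1, h2⟩ := exists_nat_pow_near hx (by norm_num : (1:ℝ) < 2)
  refine ⟨s, h1, ?_, ?_⟩
  · rw [pow_succ] at h2
    linarith
  · have h3 : (0:ℝ) < (2:ℝ)^s := by positivity
    rw [div_div, div_lt_div_iff₀ (by positivity) h3]
    nlinarith

/-- a lower bound for the pseudo absolute value -/
lemma inv_le_AD {d : ℕ → ℕ} (hd : ∀ n, 2 ≤ d n) {q : ℕ} (hq : 0 < q) : 1/(q:ℝ) ≤ AD d q := by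
  refine le_csInf ⟨_, ⟨0, by simp [PP_zero], rfl⟩⟩ ?_
  rintro _ ⟨n, hn, rfl⟩
  have h1 : PP d n ≤ q := Nat.le_of_dvd hq hn
  have h2 : (0:ℝ) < (PP d n:ℝ) := by exact_mod_cast PP_pos hd n
  have h3 : (PP d n:ℝ) ≤ q := by exact_mod_cast h1
  exact one_div_le_one_div_of_le h2 h3

/-- For every bounded integer sequence with terms at least 2 and any two admissible weight triples, some point (x,y) lies in both mixed sets Bad_D(i,j,k), with the convention u^(1/0)=0. -/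
theorem result :
  ∀ d : ℕ → ℕ, (∀ n, 2 ≤ d n) → (∃ M : ℕ, ∀ n, d n ≤ M) →
  ∀ i j k : Fin 2 → ℝ,
    (∀ t, 0 ≤ i t ∧ i t ≤ 1 ∧ 0 ≤ j t ∧ j t ≤ 1 ∧ 0 ≤ k t ∧ k t ≤ 1 ∧
      i t + j t + k t = 1) →
    ∃ x y : ℝ, ∀ t : Fin 2, ∃ c : ℝ, 0 < c ∧ ∀ q : ℕ, 0 < q →
      ((q : ℝ) * (if i t = 0 then 0 else
          (sInf ((fun n : ℕ => (1 : ℝ) / ((∏ m ∈ Finset.range n, d m : ℕ) : ℝ)) ''
            {n : ℕ | (∏ m ∈ Finset.range n, d m) ∣ q})) ^ (1 / i t)) > c ∨
       (q : ℝ) * (if j t = 0 then 0 else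
          |(q : ℝ) * x - (round ((q : ℝ) * x) : ℝ)| ^ (1 / j t)) > c ∨
       (q : ℝ) * (if k t = 0 then 0 else
          |(q : ℝ) * y - (round ((q : ℝ) * y) : ℝ)| ^ (1 / k t)) > c) := by
  classical
  intro d hd hbd i j k hadm
  obtain ⟨Mx, hM⟩ := hbd
  obtain ⟨κ, hκ0, hκ⟩ : ∃ κ : ℝ, 0 < κ ∧ ∀ t, 0 < k t → κ ≤ k t := by
    refine ⟨min (if k 0 = 0 then 1 else k 0) (if k 1 = 0 then 1 else k 1), ?_, ?_⟩
    · refine lt_min ?_ ?_
      · split_ifs with h
        · exact one_pos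
        · exact lt_of_le_of_ne (hadm 0).2.2.2.2.1 (Ne.symm h)
      · split_ifs with h
        · exact one_pos
        · exact lt_of_le_of_ne (hadm 1).2.2.2.2.1 (Ne.symm h)
    · intro t ht
      fin_cases t
      · refine (min_le_left _ _).trans ?_
        rw [if_neg (by simpa using ht.ne')]
        exact le_refl _
      · refine (min_le_right _ _).trans ?_
        rw [if_neg (by simpa using ht.ne')]
        exact le_refl _
  -- the first coordinate
  have hX1 : ∀ t, ∃ L0 : ℕ, ∀ L, L0 ≤ L →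
      System L (1/2^16) (fun x => k t = 0 → 0 < j t → Good1 d (i t) (j t) x) := by
    intro t
    by_cases h : k t = 0 ∧ 0 < j t
    · have hij : i t + j t = 1 := by
        have := (hadm t).2.2.2.2.2.2
        rw [h.1] at this
        linarith
      obtain ⟨L0, hL0⟩ := sys1 hd hM (hadm t).1 h.2 hij
      refine ⟨L0, fun L hL => ?_⟩
      obtain ⟨T, h1, h2⟩ := hL0 L hL
      exact ⟨T, h1, fun ξ hξ _ _ => h2 ξ hξ⟩
    · exact ⟨0, fun L _ => System.of_forall (by positivity) (fun x h1 h2 => absurd ⟨h1, h2⟩ h)⟩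
  obtain ⟨L0, hL0⟩ := hX1 0
  obtain ⟨L1, hL1⟩ := hX1 1
  obtain ⟨x, ⟨hx0, hx1⟩, hxX⟩ := System.exists (by norm_num)
    (((hL0 (max L0 L1) (le_max_left _ _)).and (hL1 (max L0 L1) (le_max_right _ _))).and
      (sysX hd hκ0 (max L0 L1)))
  have hx : ∀ t, k t = 0 → 0 < j t → Good1 d (i t) (j t) x := by
    intro t
    fin_cases t
    · exact hx0
    · exact hx1
  -- the second coordinate
  have hY1 : ∀ t, ∃ L0 : ℕ, ∀ L, L0 ≤ L →
      System L (1/2^15) (fun y => 0 < k t → (j t = 0 → Good1 d (i t) (k t) y) ∧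
        (0 < j t → Good2 d (i t) (j t) (k t) x y)) := by
    intro t
    by_cases hk : 0 < k t
    · rcases (hadm t).2.2.1.eq_or_lt with hj | hj
      · have hik : i t + k t = 1 := by
          have := (hadm t).2.2.2.2.2.2
          rw [← hj] at this
          linarith
        obtain ⟨L0, hL0⟩ := sys1 hd hM (hadm t).1 hk hik
        refine ⟨L0, fun L hL => ?_⟩
        obtain ⟨T, h1, h2⟩ := hL0 L hL
        refine ⟨T, fun n y hno => (h1 n y hno).mono (fun t ht => ht) (by norm_num),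
          fun ξ hξ _ => ⟨fun _ => h2 ξ hξ, fun h => absurd hj h.ne⟩⟩
      · obtain ⟨L0, hL0⟩ := sys2 hd hM (hadm t).1 hj hk (hadm t).2.2.2.2.2.2 hκ0 (hκ t hk) hxX
        refine ⟨L0, fun L hL => ?_⟩
        obtain ⟨T, h1, h2⟩ := hL0 L hL
        exact ⟨T, h1, fun ξ hξ _ => ⟨fun h => absurd h hj.ne', fun _ => h2 ξ hξ⟩⟩
    · exact ⟨0, fun L _ => System.of_forall (by positivity) (fun x h1 => absurd h1 hk)⟩
  obtain ⟨L0', hL0'⟩ := hY1 0
  obtain ⟨L1', hL1'⟩ := hY1 1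
  obtain ⟨y, hy0, hy1⟩ := System.exists (by norm_num)
    ((hL0' (max L0' L1') (le_max_left _ _)).and (hL1' (max L0' L1') (le_max_right _ _)))
  have hy : ∀ t, 0 < k t → (j t = 0 → Good1 d (i t) (k t) y) ∧
        (0 < j t → Good2 d (i t) (j t) (k t) x y) := by
    intro t
    fin_cases t
    · exact hy0
    · exact hy1
  refine ⟨x, y, fun t => ?_⟩
  have hAD : ∀ q : ℕ, sInf ((fun n : ℕ => (1 : ℝ) / ((∏ m ∈ Finset.range n, d m : ℕ) : ℝ)) ''
            {n : ℕ | (∏ m ∈ Finset.range n, d m) ∣ q}) = AD d q := fun q => rfl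
  simp only [hAD]
  obtain ⟨hi0, hi1, hj0, hj1, hk0, hk1, hsum⟩ := hadm t
  rcases hk0.eq_or_lt with hk | hk
  · rcases hj0.eq_or_lt with hj | hj
    · -- the triple (1,0,0)
      have hi : i t = 1 := by linarith
      refine ⟨1/2, by norm_num, fun q hq => Or.inl ?_⟩
      rw [hi, if_neg one_ne_zero, one_div_one, Real.rpow_one]
      have h1 := inv_le_AD hd hq
      have hq0 : (0:ℝ) < q := by exact_mod_cast hq
      have h2 : (q:ℝ) * (1/(q:ℝ)) ≤ (q:ℝ) * AD d q := by gcongr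
      have h3 : (q:ℝ) * (1/(q:ℝ)) = 1 := by field_simp
      have h4 : (1:ℝ) ≤ (q:ℝ) * AD d q := by linarith
      show (1:ℝ)/2 < (q:ℝ) * AD d q
      linarith
    · obtain ⟨C0, hC0, hg⟩ := hx t hk.symm hj
      refine ⟨1/(4*C0), by positivity, fun q hq => ?_⟩
      by_contra hcon
      push Not at hcon
      obtain ⟨c1, c2, c3⟩ := hcon
      obtain ⟨s, hs1, hs2, hs3⟩ := exists_s hC0 hq
      have hq0 : (0:ℝ) < q := by exact_mod_cast hq
      have hS1 : (1:ℝ) ≤ (2:ℝ)^s := one_le_pow₀ (by norm_num)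
      have e1 := dvd_of hd hi0 hq hS1 hs3 c1
      have e2 := root_mul_lt hj (abs_nonneg _) hq0 (by linarith) hs3 c2
      have e3 := hg s q (round ((q:ℝ) * x)) (by exact_mod_cast hq) (by push_cast; exact hs1)
        (by push_cast; exact hs2) e1
      push_cast at e3
      linarith
  · rcases hj0.eq_or_lt with hj | hj
    · obtain ⟨C0, hC0, hg⟩ := (hy t hk).1 hj.symm
      refine ⟨1/(4*C0), by positivity, fun q hq => ?_⟩
      by_contra hcon
      push Not at hcon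
      obtain ⟨c1, c2, c3⟩ := hcon
      obtain ⟨s, hs1, hs2, hs3⟩ := exists_s hC0 hq
      have hq0 : (0:ℝ) < q := by exact_mod_cast hq
      have hS1 : (1:ℝ) ≤ (2:ℝ)^s := one_le_pow₀ (by norm_num)
      have e1 := dvd_of hd hi0 hq hS1 hs3 c1
      have e2 := root_mul_lt hk (abs_nonneg _) hq0 (by linarith) hs3 c3
      have e3 := hg s q (round ((q:ℝ) * y)) (by exact_mod_cast hq) (by push_cast; exact hs1)
        (by push_cast; exact hs2) e1
      push_cast at e3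
      linarith
    · obtain ⟨C0, hC0, hg⟩ := (hy t hk).2 hj
      refine ⟨1/(4*C0), by positivity, fun q hq => ?_⟩
      by_contra hcon
      push Not at hcon
      obtain ⟨c1, c2, c3⟩ := hcon
      obtain ⟨s, hs1, hs2, hs3⟩ := exists_s hC0 hq
      have hq0 : (0:ℝ) < q := by exact_mod_cast hq
      have hS1 : (1:ℝ) ≤ (2:ℝ)^s := one_le_pow₀ (by norm_num)
      have e1 := dvd_of hd hi0 hq hS1 hs3 c1
      have e2 := root_mul_lt hk (abs_nonneg _) hq0 (by linarith) hs3 c3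
      have e4 := root_mul_lt hj (abs_nonneg _) hq0 (by linarith) hs3 c2
      have e3 := hg s q (round ((q:ℝ) * x)) (round ((q:ℝ) * y)) (by exact_mod_cast hq)
        (by push_cast; exact hs1) (by push_cast; exact hs2) e1 (by push_cast; exact e4.le)
      push_cast at e3
      linarith

end Pool.Agent.S18883
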