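import Pool.Statements.S18928
import Pool.Agent.H291R3.TPInf

set_option autoImplicit false
open Pool Pool.MP_f15a68_nt

namespace Pool.Agent.S18928

/-- The negation: the formula fails for `p = 5`, `n = 1`, where infinitely many totally 5-adic
algebraic integers have height at most `log 5 / 5`. -/
theorem result :
    ¬ (∀ (p : ℕ) [Fact p.Prime] (n : ℕ), 1 ≤ n →
      sInf {c : ℝ | Set.Infinite {α : AlgebraicClosure ℚ | IsIntegral ℤ α ∧
        (minpoly (IntermediateField.adjoin ℚ {x : AlgebraicClosure ℚ |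
            ((minpoly ℚ x).map (algebraMap ℚ ℚ_[p])).roots.card = (minpoly ℚ x).natDegree}) α).natDegree = n ∧
        Real.log (((minpoly ℚ α).map (algebraMap ℚ ℂ)).mahlerMeasure) / ((minpoly ℚ α).natDegree : ℝ) < c}}
      = 1 / ((p : ℝ) - 1) * (Real.log p / (n : ℝ))) := by
  intro H
  have h5 : Fact (Nat.Prime 5) := ⟨by norm_num⟩
  have h := H 5 1 le_rfl
  have hlog : 0 < Real.log 5 := Real.log_pos (by norm_num)
  have hinf := Pool.Agent.H291R3.infinite_family (p := 5) le_rfl
  have hle : sInf {c : ℝ | Set.Infinite {α : AlgebraicClosure ℚ | IsIntegral ℤ α ∧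
        (minpoly (IntermediateField.adjoin ℚ {x : AlgebraicClosure ℚ |
            ((minpoly ℚ x).map (algebraMap ℚ ℚ_[5])).roots.card = (minpoly ℚ x).natDegree}) α).natDegree = 1 ∧
        Real.log (((minpoly ℚ α).map (algebraMap ℚ ℂ)).mahlerMeasure) / ((minpoly ℚ α).natDegree : ℝ) < c}}
        ≤ Real.log 5 * (9 / 40) := by
    apply csInf_le
    · refine ⟨0, ?_⟩
      intro c hc
      by_contra hneg
      push Not at hneg
      apply hc
      refine Set.finite_empty.subset ?_
      rintro α ⟨-, -, hα⟩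
      have hM : 1 ≤ ((minpoly ℚ α).map (algebraMap ℚ ℂ)).mahlerMeasure := by
        have hm : ((minpoly ℚ α).map (algebraMap ℚ ℂ)).Monic :=
          (minpoly.monic (Algebra.IsIntegral.isIntegral α)).map _
        have := Polynomial.leadingCoeff_le_mahlerMeasure ((minpoly ℚ α).map (algebraMap ℚ ℂ))
        rwa [hm.leadingCoeff, norm_one] at this
      have : 0 ≤ Real.log (((minpoly ℚ α).map (algebraMap ℚ ℂ)).mahlerMeasure) /
          ((minpoly ℚ α).natDegree : ℝ) :=
        div_nonneg (Real.log_nonneg hM) (Nat.cast_nonneg _)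
      exact absurd (lt_of_le_of_lt this hα) (not_lt.2 hneg.le)
    · refine hinf.mono ?_
      rintro α ⟨h1, h2, -, h4⟩
      refine ⟨h1, ?_, ?_⟩
      · rw [minpoly.natDegree_eq_one_iff]
        refine ⟨⟨α, IntermediateField.subset_adjoin ℚ _ h2.card_roots⟩, rfl⟩
      · refine lt_of_le_of_lt h4 ?_
        push_cast
        linarith
  rw [h] at hle
  push_cast at hle
  linarith

end Pool.Agent.S18928
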