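import Pool.Statements.S18951
import Pool.Agent.H238R3.Build951

set_option autoImplicit false
open Pool Pool.MP_f2cfed_nt

namespace Pool.Agent.S18951

open Pool.Agent.H238R3.Lines Pool.Agent.H238R3.Game Pool.Agent.H238R3.Fam

lemma sqrt_two_bad (q p : ℤ) (hq : q ≠ 0) :
    (1/4:ℝ) ≤ |(q:ℝ)| * |(q:ℝ) * Real.sqrt 2 - p| := by
  set s := Real.sqrt 2 with hs
  have hs2 : s^2 = 2 := Real.sq_sqrt (by norm_num)
  have hs0 : 0 ≤ s := Real.sqrt_nonneg 2
  have hs3 : s ≤ 3/2 := by nlinarith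
  have hq1 : (1:ℝ) ≤ |(q:ℝ)| := by
    have := Int.one_le_abs hq
    exact_mod_cast this
  have h4 : (1:ℝ) ≤ |(q:ℝ) * s - p| * |((q:ℝ) * s + p)| := by
    rw [← abs_mul]
    have e : ((q:ℝ) * s - p) * ((q:ℝ) * s + p) = ((2 * q^2 - p^2 : ℤ):ℝ) := by
      push_cast
      linear_combination (q:ℝ)^2 * hs2
    rw [e]
    have hne : (2 * q^2 - p^2 : ℤ) ≠ 0 := by
      intro h0
      have h5 : Irrational s := irrational_sqrt_two
      have h6 : |(q:ℝ)|^2 * s^2 = (p:ℝ)^2 := by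
        rw [hs2, sq_abs]
        have : ((2 * q^2 - p^2 : ℤ):ℝ) = 0 := by rw [h0]; simp
        push_cast at this
        linarith
      have h7 : |(q:ℝ)| * s = |(p:ℝ)| := by
        rw [← abs_of_nonneg (by positivity : 0 ≤ |(q:ℝ)| * s)]
        rw [← sq_eq_sq_iff_abs_eq_abs, mul_pow]
        exact h6
      refine h5 ⟨(|p| : ℤ) / (|q| : ℤ), ?_⟩
      push_cast
      rw [div_eq_iff (by positivity)]
      linarith
    have := Int.one_le_abs hne
    exact_mod_cast this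
  have h5 : 0 ≤ |(q:ℝ) * s - p| := abs_nonneg _
  rcases le_or_gt |(q:ℝ) * s - p| 1 with h | h
  · have h6 : |((q:ℝ) * s + p)| ≤ 4 * |(q:ℝ)| := by
      have e : (q:ℝ) * s + p = 2 * ((q:ℝ) * s) - ((q:ℝ) * s - p) := by ring
      rw [e]
      have h7 : |2 * ((q:ℝ) * s) - ((q:ℝ) * s - p)| ≤ |2 * ((q:ℝ) * s)| + |(q:ℝ) * s - p| :=
        abs_sub _ _
      have h8 : |2 * ((q:ℝ) * s)| = 2 * (|(q:ℝ)| * s) := by
        rw [abs_mul, abs_mul, abs_of_nonneg hs0]; norm_num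
      nlinarith
    nlinarith
  · nlinarith

/-- There exist reals ξ, ζ such that, for some ε>0 and infinitely many Q, Q·‖qξ‖·‖qζ‖ ≥ ε for all 0<q≤Q, and for some c>0, √q·max(‖qξ‖,‖qζ‖) ≥ c for all q≥1 (‖·‖ = distance to nearest integer). -/
theorem result :
    ∃ ξ ζ : ℝ,
      (∃ ε : ℝ, 0 < ε ∧ ∀ N : ℕ, ∃ Q : ℕ, N ≤ Q ∧ 0 < Q ∧
        ∀ q : ℕ, 0 < q → q ≤ Q →
          ε ≤ (Q : ℝ) * (|(q : ℝ) * ξ - (round ((q : ℝ) * ξ) : ℝ)| *
                          |(q : ℝ) * ζ - (round ((q : ℝ) * ζ) : ℝ)|)) ∧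
      (∃ c : ℝ, 0 < c ∧ ∀ q : ℕ, 0 < q →
        c ≤ Real.sqrt (q : ℝ) *
          max |(q : ℝ) * ξ - (round ((q : ℝ) * ξ) : ℝ)|
              |(q : ℝ) * ζ - (round ((q : ℝ) * ζ) : ℝ)|) := by
  set ζ := Real.sqrt 2 with hζ
  have hbad : ∀ q p : ℤ, q ≠ 0 → (1/4:ℝ) ≤ |(q:ℝ)| * |(q:ℝ)*ζ - p| := sqrt_two_bad
  obtain ⟨ξ, ε, κ, C, hε, hκ, hC, hB, hP, hV⟩ :=
    exists_xi2 ζ (1/4) (by norm_num) (by norm_num) hbad
  refine ⟨ξ, ζ, ⟨ε, hε, ?_⟩, ⟨κ, hκ, ?_⟩⟩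
  · intro N
    refine ⟨16^(C*5^N), ?_, by positivity, ?_⟩
    · have h1 : N < 5^N := Nat.lt_pow_self (by norm_num)
      have h2 : 5^N ≤ C*5^N := Nat.le_mul_of_pos_left _ hC
      have h3 : C*5^N < 16^(C*5^N) := Nat.lt_pow_self (by norm_num)
      omega
    · intro q hq hqQ
      have hqr : (0:ℝ) < q := by exact_mod_cast hq
      have hQe : (((16^(C*5^N) : ℕ)):ℝ) = ((2:ℝ)^(C*5^N))^4 := by
        rw [Nat.cast_pow, ← pow_mul, mul_comm (C*5^N) 4, pow_mul (2:ℝ) 4]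
        congr 1
        norm_num
      have hhalf : |(q:ℝ) * ζ - (round ((q:ℝ) * ζ) : ℝ)| ≤ 1/2 := abs_sub_round _
      set p : ℤ := round ((q:ℝ) * ξ) with hp
      set p' : ℤ := round ((q:ℝ) * ζ) with hp'
      obtain ⟨g, z, hg, hz, h1, h2, h3⟩ := exists_prim (q:ℤ) p' p (by
        rintro ⟨h, _, _⟩
        omega)
      have hgr : (1:ℝ) ≤ (g:ℝ) := by exact_mod_cast hg
      have hg0 : (0:ℝ) < (g:ℝ) := lt_of_lt_of_le one_pos hgr
      have hqg : (q:ℝ) = g * z.1 := by exact_mod_cast h1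
      have hpg' : (p':ℝ) = g * z.2.1 := by exact_mod_cast h2
      have hpg : (p:ℝ) = g * z.2.2 := by exact_mod_cast h3
      have hz1 : (0:ℝ) < z.1 := by
        by_contra hneg
        push Not at hneg
        nlinarith
      have hz1' : 0 < z.1 := by exact_mod_cast hz1
      have hbz := hbad z.1 z.2.1 (by omega)
      rw [abs_of_pos hz1, show (z.1:ℝ)*ζ - z.2.1 = -((z.2.1:ℝ) - ζ * z.1) by ring, abs_neg] at hbz
      have hnζ : |(q:ℝ) * ζ - p'| = g * |(z.2.1:ℝ) - ζ * z.1| := by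
        have e : (q:ℝ) * ζ - p' = -(g * ((z.2.1:ℝ) - ζ * z.1)) := by rw [hpg', hqg]; ring
        rw [e, abs_neg, abs_mul, abs_of_pos hg0]
      set y := |(z.2.1:ℝ) - ζ * z.1| with hy
      have hy0 : 0 < y := by
        by_contra hneg
        push Not at hneg
        nlinarith
      have hnξ : |(q:ℝ) * ξ - p| = g * (z.1 * |ξ - (z.2.2:ℝ)/z.1|) := by
        have e : (q:ℝ) * ξ - p = g * (z.1 * (ξ - (z.2.2:ℝ)/z.1)) := by
          rw [hpg, hqg]; field_simp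
        rw [e, abs_mul, abs_mul, abs_of_pos hg0, abs_of_pos hz1]
      have hy1 : y < 1 := by
        rw [hnζ] at hhalf
        nlinarith
      have hzQ : (z.1:ℝ) ≤ ((2:ℝ)^(C*5^N))^4 := by
        rw [← hQe]
        have h6 : (z.1:ℝ) ≤ q := by rw [hqg]; nlinarith
        have h7 : (q:ℝ) ≤ ((16^(C*5^N) : ℕ):ℝ) := by exact_mod_cast hqQ
        linarith
      have h4 := hP N z hz hz1' hzQ hy1
      simp only [thP] at h4
      rw [← hy] at h4
      set A := (2:ℝ)^(C*5^N) with hA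
      have hA0 : 0 < A := by rw [hA]; positivity
      clear_value A
      rw [hnζ, hnξ, hQe]
      set t := |ξ - (z.2.2:ℝ)/z.1| with ht
      have ht0 : 0 ≤ t := abs_nonneg _
      rw [div_le_iff₀ (by positivity)] at h4
      calc ε ≤ t * (A^4 * z.1 * y) := h4
        _ = A^4 * (z.1 * t * y) * (1 * 1) := by ring
        _ ≤ A^4 * (z.1 * t * y) * (g * g) := by gcongr
        _ = A^4 * ((g * (z.1 * t)) * (g * y)) := by ring
  · intro q hq
    have hqr : (0:ℝ) < q := by exact_mod_cast hq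
    set p : ℤ := round ((q:ℝ) * ξ) with hp
    set p' : ℤ := round ((q:ℝ) * ζ) with hp'
    obtain ⟨g, z, hg, hz, h1, h2, h3⟩ := exists_prim (q:ℤ) p' p (by
      rintro ⟨h, _, _⟩
      omega)
    have hgr : (1:ℝ) ≤ (g:ℝ) := by exact_mod_cast hg
    have hg0 : (0:ℝ) < (g:ℝ) := lt_of_lt_of_le one_pos hgr
    have hqg : (q:ℝ) = g * z.1 := by exact_mod_cast h1
    have hpg' : (p':ℝ) = g * z.2.1 := by exact_mod_cast h2
    have hpg : (p:ℝ) = g * z.2.2 := by exact_mod_cast h3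
    have hz1 : (0:ℝ) < z.1 := by
      by_contra hneg
      push Not at hneg
      nlinarith
    have hz1' : 0 < z.1 := by exact_mod_cast hz1
    have h4 := hV z hz hz1'
    have hnζ : |(q:ℝ) * ζ - p'| = g * |(z.2.1:ℝ) - ζ * z.1| := by
      have e : (q:ℝ) * ζ - p' = -(g * ((z.2.1:ℝ) - ζ * z.1)) := by rw [hpg', hqg]; ring
      rw [e, abs_neg, abs_mul, abs_of_pos hg0]
    have hnξ : |(q:ℝ) * ξ - p| = g * |(z.1:ℝ) * ξ - z.2.2| := by
      have e : (q:ℝ) * ξ - p = g * ((z.1:ℝ) * ξ - z.2.2) := by rw [hpg, hqg]; ring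
      rw [e, abs_mul, abs_of_pos hg0]
    set a := |(z.2.1:ℝ) - ζ * z.1| with ha
    set b := |(z.1:ℝ) * ξ - z.2.2| with hb
    have ha0 : 0 ≤ a := abs_nonneg _
    have hb0 : 0 ≤ b := abs_nonneg _
    have h5 : Real.sqrt (z.1:ℝ) ≤ Real.sqrt (q:ℝ) := Real.sqrt_le_sqrt (by rw [hqg]; nlinarith)
    rw [hnζ, hnξ]
    have h6 : max a b ≤ max (g * b) (g * a) := by
      refine max_le ?_ ?_
      · exact le_trans (by nlinarith) (le_max_right _ _)
      · exact le_trans (by nlinarith) (le_max_left _ _)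
    calc κ ≤ Real.sqrt (z.1:ℝ) * max a b := h4
      _ ≤ Real.sqrt (q:ℝ) * max (g * b) (g * a) := by
          have : 0 ≤ max a b := ha0.trans (le_max_left _ _)
          gcongr

end Pool.Agent.S18951
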