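import Pool.Statements.S18994
import Pool.Agent.H509R3.TraceObs
import Pool.Agent.H509R3.TraceAdm
import Pool.Agent.H509R3.CFDim

set_option autoImplicit false
open Filter Topology
open Pool Pool.MP_f5ee21_nt

namespace Pool.Agent.S18994

/-- The negation of the preceding statement: For every finite alphabet of at least two positive integers whose continued-fraction Cantor set has Hausdorff dimension above 1/2, every sufficiently large integer that is a trace of the even-length semigroup modulo every q is an actual trace. -/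
theorem result :
    ¬ (∀ A : Finset ℕ, (∀ a ∈ A, 1 ≤ a) → 2 ≤ A.card →
      ((1 / 2 : ENNReal) < dimH {x : ℝ | ∃ a : ℕ → ℕ, (∀ j, a j ∈ A) ∧
          Tendsto (fun n : ℕ =>
            ((List.map (fun j : ℕ => (!![(a j : ℝ), 1; 1, 0] : Matrix (Fin 2) (Fin 2) ℝ))
                (List.range (n + 1))).prod 0 0) /
            ((List.map (fun j : ℕ => (!![(a j : ℝ), 1; 1, 0] : Matrix (Fin 2) (Fin 2) ℝ))
                (List.range (n + 1))).prod 1 0)) atTop (𝓝 x)}) →
      ∃ N : ℤ, ∀ t : ℤ, N ≤ t →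
        (∀ q : ℤ, 1 ≤ q → ∃ l : List ℕ, l ≠ [] ∧ Even l.length ∧ (∀ b ∈ l, b ∈ A) ∧
          Matrix.trace ((List.map (fun b : ℕ => (!![(b : ℤ), 1; 1, 0] : Matrix (Fin 2) (Fin 2) ℤ)) l).prod)
            ≡ t [ZMOD q]) →
        ∃ l : List ℕ, l ≠ [] ∧ Even l.length ∧ (∀ b ∈ l, b ∈ A) ∧
          Matrix.trace ((List.map (fun b : ℕ => (!![(b : ℤ), 1; 1, 0] : Matrix (Fin 2) (Fin 2) ℤ)) l).prod) = t) := by
  intro H
  obtain ⟨K, hK, hdim⟩ := Pool.Agent.H509R3.exists_dim
  have h9 : 9 ∈ (Finset.range K).image (fun i => 8 * i + 9) :=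
    Finset.mem_image.mpr ⟨0, Finset.mem_range.mpr (by omega), rfl⟩
  have h17 : 17 ∈ (Finset.range K).image (fun i => 8 * i + 9) :=
    Finset.mem_image.mpr ⟨1, Finset.mem_range.mpr (by omega), rfl⟩
  obtain ⟨N, hN⟩ := H ((Finset.range K).image (fun i => 8 * i + 9)) (by
      intro a ha
      obtain ⟨i, _, rfl⟩ := Finset.mem_image.mp ha
      omega) (by
      rw [Finset.card_image_of_injective _ (fun a b h => by simpa using h), Finset.card_range]
      exact hK) hdim
  obtain ⟨k, hk⟩ := pow_unbounded_of_one_lt (N + 2) (by norm_num : (1 : ℤ) < 5)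
  have hk2 : N ≤ (5 ^ k) ^ 2 - 2 := by
    have h1 : (1 : ℤ) ≤ 5 ^ k := one_le_pow₀ (by norm_num)
    nlinarith
  obtain ⟨l, _, hev, hmem, htr⟩ := hN ((5 ^ k) ^ 2 - 2) hk2 (by
    intro q hq
    obtain ⟨l, h1, h2, h3, h4⟩ := Pool.Agent.H509R3.admissible k q hq
    refine ⟨l, h1, h2, ?_, h4⟩
    intro b hb
    rcases h3 b hb with h | h
    · rw [h]; exact h9
    · rw [h]; exact h17)
  exact Pool.Agent.H509R3.no_trace l (by
    intro b hb
    obtain ⟨i, _, rfl⟩ := Finset.mem_image.mp (hmem b hb)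
    omega) hev k htr

end Pool.Agent.S18994
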