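import Pool.Statements.S19070
import Pool.Agent.H131R5.BZ6

set_option autoImplicit false
open Pool Pool.MP_fcb754_nt

namespace Pool.Agent.S19070

/-- The negation of the preceding statement: For the continuation F of the Barnes r-fold zeta (a>0, w_j>0) and d the Q-dimension of the span of the w_j: for each ε>0 and σ₁, ∣F(σ+it)∣ ≤ C t^ε for all t≥1 and r−d/2 ≤ σ ≤ σ₁. -/
theorem result :
    ¬ (∀ (r : ℕ), 1 ≤ r → ∀ (a : ℝ), 0 < a → ∀ (w : Fin r → ℝ), (∀ j, 0 < w j) →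
      ∀ F : ℂ → ℂ,
        DifferentiableOn ℂ F {s : ℂ | ∀ k : ℕ, 1 ≤ k → k ≤ r → s ≠ (k : ℂ)} →
        (∀ s : ℂ, (r : ℝ) < s.re →
          F s = ∑' m : Fin r → ℕ, (((a + ∑ j, (m j : ℝ) * w j : ℝ) : ℂ) ^ (-s))) →
        ∀ ε : ℝ, 0 < ε → ∀ σ₁ : ℝ, ∃ C : ℝ, ∀ σ t : ℝ,
          (r : ℝ) - (Module.finrank ℚ (Submodule.span ℚ (Set.range w)) : ℝ) / 2 ≤ σ →
          σ ≤ σ₁ → 1 ≤ t →
          ‖F ((σ : ℂ) + (t : ℂ) * Complex.I)‖ ≤ C * t ^ ε) := by
  intro H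
  have hξL : Liouville (liouvilleNumber ((2 : ℕ) : ℝ)) := liouville_liouvilleNumber (le_refl 2)
  have hξT : Transcendental ℤ (liouvilleNumber ((2 : ℕ) : ℝ)) :=
    transcendental_liouvilleNumber (le_refl 2)
  have hξ : 0 < liouvilleNumber ((2 : ℕ) : ℝ) := by
    unfold liouvilleNumber
    refine Summable.tsum_pos (LiouvilleNumber.summable (by norm_num)) ?_ 0 ?_
    · intro i; positivity
    · positivity
  generalize liouvilleNumber ((2 : ℕ) : ℝ) = ξ at hξL hξT hξ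
  have hw := H131R5.BZ.wv_pos hξ
  obtain ⟨F, hF1, hF2⟩ := H131R5.BZ.exists_cont (r := 3) one_pos hw
  obtain ⟨C, hC⟩ := H 3 (by norm_num) 1 one_pos (H131R5.BZ.wv ξ) hw F hF1
    (fun s hs => ((hF2 s hs).tsum_eq).symm) (1 / 12) (by norm_num) 4
  rw [H131R5.BZ.finrank_wv hξT] at hC
  obtain ⟨K, hK, hK2⟩ := H131R5.BZ.main_ineq (F := F) (H131R5.BZ.lam 1 (H131R5.BZ.wv ξ))
    (H131R5.BZ.lam_pos one_pos hw) (σ0 := 3 / 2) (σ1 := 4) (C := max C 0) (ε := 1 / 12)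
    (by norm_num) (by norm_num) (le_max_right _ _) (by norm_num)
    (H131R5.BZ.summable_lam one_pos hw (by norm_num))
    (fun t => hF2 _ (by simp; norm_num))
    (fun s hs => by
      have h1 : IsOpen {s : ℂ | 0 < s.im} := isOpen_lt continuous_const Complex.continuous_im
      have h2 : {s : ℂ | 0 < s.im} ⊆ {s : ℂ | ∀ k : ℕ, 1 ≤ k → k ≤ 3 → s ≠ (k : ℂ)} := by
        intro z hz k _ _ hzk
        have hz' : 0 < z.im := hz
        rw [hzk] at hz'
        simp at hz'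
      exact (hF1.mono h2).differentiableAt (h1.mem_nhds (show 0 < s.im by linarith)))
    (fun σ t h1 h2 h3 => by
      refine (hC σ t (by norm_num; linarith) h2 h3).trans ?_
      have : 0 ≤ t ^ (1 / 12 : ℝ) := Real.rpow_nonneg (by linarith) _
      exact mul_le_mul_of_nonneg_right (le_max_left _ _) this)
  exact H131R5.BZ.no_bound hξ hξL hK hK2

end Pool.Agent.S19070
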