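import Pool.Statements.S19120
import Pool.Agent.H528R3.RotorField

set_option autoImplicit false
open Pool Pool.MP_056b6b_pr

namespace Pool.Agent.S19120

open Pool.Agent.H528R3.RotorLA Pool.Agent.H528R3.RotorField Pool.Agent.H528R3.RotorFlow

/-- data of the `k`-th box: lower left corner (both coordinates equal to `c`) and side lengths -/
def bx : ℕ → ℤ × ℤ × ℤ
  | 0 => (0, 1, 1)
  | k + 1 => ((bx k).1 - 1 - (bx k).2.1, 2 * (bx k).2.1 + 2, (bx k).2.2 + 2 * (bx k).2.1 + 1)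

/-- code of `v` relative to the `k`-th box -/
def cd (k : ℕ) (v : ℤ × ℤ) : Fin 9 :=
  code (bx k).2.1 (bx k).2.2 (v.1 - (bx k).1) (v.2 - (bx k).1)

/-- membership in the `k`-th box -/
def inB (k : ℕ) (v : ℤ × ℤ) : Prop :=
  0 ≤ v.1 - (bx k).1 ∧ v.1 - (bx k).1 < (bx k).2.1 ∧ 0 ≤ v.2 - (bx k).1 ∧
    v.2 - (bx k).1 < (bx k).2.2

lemma bx_pos (k : ℕ) : 1 ≤ (bx k).2.1 ∧ 1 ≤ (bx k).2.2 := by
  induction k with
  | zero => simp [bx]
  | succ k ih => simp only [bx]; omega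

lemma inB_succ {k : ℕ} {v : ℤ × ℤ} (h : inB k v) : inB (k + 1) v := by
  have := bx_pos k
  unfold inB at *
  simp only [bx]
  omega

lemma inB_mono {j k : ℕ} (hjk : j ≤ k) {v : ℤ × ℤ} (h : inB j v) : inB k v := by
  induction hjk with
  | refl => exact h
  | step _ ih => exact inB_succ ih

lemma inB_zero (k : ℕ) : inB k (0, 0) := by
  apply inB_mono (Nat.zero_le k)
  simp [inB, bx]

lemma cd_of_inB {k : ℕ} {v : ℤ × ℤ} (h : inB k v) : cd k v = 1 := by
  unfold inB at h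
  unfold cd code
  exact if_pos h

lemma cd_of_not_inB {k : ℕ} {v : ℤ × ℤ} (h : ¬ inB (k + 1) v) : cd k v = 0 := by
  have hp := bx_pos k
  unfold inB at h
  simp only [bx] at h
  unfold cd
  generalize hX : v.1 - (bx k).1 = X at *
  generalize hY : v.2 - (bx k).1 = Y at *
  have h' : ¬ (0 ≤ X + 1 + (bx k).2.1 ∧ X + 1 + (bx k).2.1 < 2 * (bx k).2.1 + 2 ∧
      0 ≤ Y + 1 + (bx k).2.1 ∧ Y + 1 + (bx k).2.1 < (bx k).2.2 + 2 * (bx k).2.1 + 1) := by
    intro hc
    apply h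
    omega
  clear h
  generalize (bx k).2.1 = a at *
  generalize (bx k).2.2 = b at *
  rcases code_spec a b X Y with ⟨e, h⟩ | ⟨e, h⟩ | ⟨e, h⟩ | ⟨e, h⟩ | ⟨e, h⟩ | ⟨e, h⟩ | ⟨e, h⟩ |
    ⟨e, h⟩ | ⟨e, h⟩ | ⟨e, h⟩ | ⟨e, h⟩ | ⟨e, h⟩ | ⟨e, h⟩ <;>
    first | exact e | (exfalso; clear e; omega)

open Classical in
/-- the initial configuration -/
noncomputable def rho (v : ℤ × ℤ) : Fin 5 :=
  if h : ∃ k, inB (k + 1) v then R (cd (Nat.find h) v) else 0

lemma rho_eq {k : ℕ} {v : ℤ × ℤ} (h1 : inB (k + 1) v) (h2 : ¬ inB k v) :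
    rho v = R (cd k v) := by
  classical
  have h : ∃ k, inB (k + 1) v := ⟨k, h1⟩
  unfold rho
  rw [dif_pos h]
  have hle : Nat.find h ≤ k := Nat.find_min' h h1
  have hge : k ≤ Nat.find h := by
    by_contra hc
    push Not at hc
    exact h2 (inB_mono (by omega) (Nat.find_spec h))
  rw [le_antisymm hle hge]

lemma flow_cd (k : ℕ) (v : ℤ × ℤ) : ∑ i : Fin 5, O (cd k (v - dir i)) i = U (cd k v) := by
  have hp := bx_pos k
  obtain ⟨x, y⟩ := v
  rw [Fin.sum_univ_five, U_O]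
  have e0 : cd k ((x, y) - dir 0) =
      code (bx k).2.1 (bx k).2.2 (x - (bx k).1) (y - (bx k).1 - 1) := by
    unfold cd dir; congr 1 <;> simp <;> ring
  have e1 : cd k ((x, y) - dir 1) =
      code (bx k).2.1 (bx k).2.2 (x - (bx k).1) (y - (bx k).1 - 1) := by
    unfold cd dir; congr 1 <;> simp <;> ring
  have e2 : cd k ((x, y) - dir 2) =
      code (bx k).2.1 (bx k).2.2 (x - (bx k).1 - 1) (y - (bx k).1) := by
    unfold cd dir; congr 1 <;> simp <;> ring
  have e3 : cd k ((x, y) - dir 3) =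
      code (bx k).2.1 (bx k).2.2 (x - (bx k).1) (y - (bx k).1 + 1) := by
    unfold cd dir; congr 1 <;> simp <;> ring
  have e4 : cd k ((x, y) - dir 4) =
      code (bx k).2.1 (bx k).2.2 (x - (bx k).1 + 1) (y - (bx k).1) := by
    unfold cd dir; congr 1 <;> simp <;> ring
  have ev : cd k (x, y) = code (bx k).2.1 (bx k).2.2 (x - (bx k).1) (y - (bx k).1) := rfl
  rw [e0, e1, e2, e3, e4, ev, O_N _ _ _ _ hp.1 hp.2, O_E _ _ _ _ hp.1 hp.2, O_S _ _ _ _ hp.1 hp.2,
    O_W _ _ _ _ hp.1 hp.2, O_N _ _ _ _ hp.1 hp.2, O_E _ _ _ _ hp.1 hp.2, O_S _ _ _ _ hp.1 hp.2,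
    O_W _ _ _ _ hp.1 hp.2]
  exact flow _ _ hp.1 hp.2 _ _

lemma finite_inB (k : ℕ) : {v | inB k v}.Finite := by
  apply Set.Finite.subset (Set.Finite.prod (Set.finite_Icc (bx k).1 ((bx k).1 + (bx k).2.1))
    (Set.finite_Icc (bx k).1 ((bx k).1 + (bx k).2.2)))
  rintro ⟨x, y⟩ h
  simp only [Set.mem_setOf_eq, inB] at h
  simp only [Set.mem_prod, Set.mem_Icc]
  omega

lemma main_step (k : ℕ) (s : State) (h0 : s.1 = (0, 0)) (hs : ∀ v, ¬ inB k v → s.2 v = rho v) :
    ∃ t, 1 ≤ t ∧ (step^[t] s).1 = (0, 0) ∧ ∀ v, ¬ inB (k + 1) v → (step^[t] s).2 v = rho v := by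
  obtain ⟨t, ht, h1, h2⟩ := exists_return s (fun v => U (cd k v)) (finite_inB (k + 1)).toFinset
    (by
      intro v hv
      have : ¬ inB (k + 1) v := by simpa using hv
      simp only [cd_of_not_inB this]
      rfl)
    (by
      intro v
      unfold inflow
      rw [← flow_cd k v]
      apply Finset.sum_le_sum
      intro i _
      change cnt (s.2 (v - dir i)) (U (cd k (v - dir i))) i ≤ O (cd k (v - dir i)) i
      by_cases hb : inB k (v - dir i)
      · rw [cd_of_inB hb, cnt_box]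
      · by_cases hb' : inB (k + 1) (v - dir i)
        · rw [hs _ hb, rho_eq hb' hb, cnt_code]
        · rw [cd_of_not_inB hb']
          change cnt (s.2 (v - dir i)) 0 i ≤ _
          simp [cnt])
    (by
      rw [h0]
      simp only [cd_of_inB (inB_zero k)]
      decide)
  refine ⟨t, ht, by rw [h1, h0], ?_⟩
  intro v hv
  rw [h2 v (by simp only [cd_of_not_inB hv]; rfl)]
  exact hs v (fun hc => hv (inB_succ hc))

lemma main_ind (k : ℕ) : ∃ t, k ≤ t ∧ (step^[t] ((0, 0), rho)).1 = (0, 0) ∧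
    ∀ v, ¬ inB k v → (step^[t] ((0, 0), rho)).2 v = rho v := by
  induction k with
  | zero => exact ⟨0, le_rfl, rfl, fun v _ => rfl⟩
  | succ k ih =>
    obtain ⟨t, ht, h1, h2⟩ := ih
    obtain ⟨t', ht', h1', h2'⟩ := main_step k _ h1 h2
    refine ⟨t' + t, by omega, ?_, ?_⟩
    · rw [Function.iterate_add_apply]; exact h1'
    · rw [Function.iterate_add_apply]; exact h2'

/-- The negation of the preceding statement: For every initial rotor configuration on Z^2, the rotor walk started at the origin has exits cycling N,N,E,S,W at each vertex. This walk returns to the origin only finitely many times, i.e. it is transient. -/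
theorem result :
    ¬ (∀ r₀ : ℤ × ℤ → Fin 5,
      Set.Finite {n : ℕ |
        ((fun s : (ℤ × ℤ) × (ℤ × ℤ → Fin 5) =>
            (s.1 + (![(0, 1), (0, 1), (1, 0), (0, -1), (-1, 0)] : Fin 5 → ℤ × ℤ) (s.2 s.1 + 1),
             Function.update s.2 s.1 (s.2 s.1 + 1)))^[n] ((0, 0), r₀)).1 = (0, 0)}) := by
  intro h
  have h1 := h rho
  have h2 : Set.Infinite {n : ℕ | (step^[n] ((0, 0), rho)).1 = (0, 0)} := by
    apply Set.infinite_of_forall_exists_gt
    intro k
    obtain ⟨t, ht, h1, -⟩ := main_ind (k + 1)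
    exact ⟨t, h1, by omega⟩
  exact h2 h1

end Pool.Agent.S19120
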