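import Pool.Statements.S19138
import Pool.Agent.H308R3.A1
import Pool.Agent.H308R3.A2
import Pool.Agent.H308R3.A3

set_option autoImplicit false
open Pool Pool.MP_0b691a_pr

namespace Pool.Agent.S19138

open MeasureTheory Set Filter Topology Pool.Agent.H308R3.A

lemma nu_Ici : nu (Ici 0) = 0 := by
  unfold nu
  rw [Measure.add_apply, Measure.map_apply measurable_neg measurableSet_Ici,
    Measure.dirac_apply' _ measurableSet_Ici]
  have h1 : (Neg.neg ⁻¹' Ici (0 : ℝ)) = Iic 0 := by ext x; simp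
  rw [h1]
  have h2 : ms (Iic 0) = 0 := by
    unfold ms
    refine withDensity_absolutelyContinuous _ _ ?_
    rw [Measure.restrict_apply measurableSet_Iic]
    have : Iic (0 : ℝ) ∩ Ioi 0 = ∅ := by
      ext x; simp
    rw [this]; simp
  rw [h2]
  simp

lemma lintegral_ms {f : ℝ → ENNReal} (hf : Measurable f) :
    ∫⁻ y, f y ∂ms = ∫⁻ y in Ioi (0 : ℝ), ENNReal.ofReal (cst * y ^ (-(11 / 4) : ℝ)) * f y := by
  unfold ms
  rw [lintegral_withDensity_eq_lintegral_mul _ meas_dens hf]
  rfl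

lemma sq_lintegral : (∫⁻ x, ENNReal.ofReal (min 1 (x ^ 2)) ∂nu) < ⊤ := by
  have hm : Measurable (fun x : ℝ => ENNReal.ofReal (min 1 (x ^ 2))) := by fun_prop
  unfold nu
  rw [lintegral_add_measure, lintegral_map hm measurable_neg, lintegral_dirac' _ hm]
  refine ENNReal.add_lt_top.2 ⟨?_, ENNReal.ofReal_lt_top⟩
  rw [lintegral_ms (by fun_prop)]
  have hsplit : Ioi (0 : ℝ) = Ioc 0 1 ∪ Ioi 1 := (Ioc_union_Ioi_eq_Ioi zero_le_one).symm
  rw [hsplit, lintegral_union measurableSet_Ioi (by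
    rw [Set.disjoint_left]; intro x hx hx'; exact absurd hx.2 (not_le.2 hx'))]
  have hc := cst_pos
  refine ENNReal.add_lt_top.2 ⟨?_, ?_⟩
  · have h1 : IntegrableOn (fun y : ℝ => cst * y ^ (-(3 / 4) : ℝ)) (Ioc 0 1) := by
      have := (intervalIntegral.intervalIntegrable_rpow' (a := 0) (b := 1)
        (r := (-(3 / 4) : ℝ)) (by norm_num)).const_mul cst
      rwa [intervalIntegrable_iff_integrableOn_Ioc_of_le zero_le_one] at this
    refine lt_of_le_of_lt ?_ h1.lintegral_lt_top
    refine setLIntegral_mono' measurableSet_Ioc (fun y hy => ?_)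
    have hy0 : 0 < y := hy.1
    rw [← ENNReal.ofReal_mul (by positivity)]
    apply ENNReal.ofReal_le_ofReal
    calc cst * y ^ (-(11 / 4) : ℝ) * min 1 ((-y) ^ 2)
        ≤ cst * y ^ (-(11 / 4) : ℝ) * y ^ 2 := by
          gcongr
          rw [neg_sq]; exact min_le_right _ _
      _ = cst * y ^ (-(3 / 4) : ℝ) := by
          rw [mul_assoc, ← Real.rpow_natCast y 2, ← Real.rpow_add hy0]
          norm_num
  · have h1 : IntegrableOn (fun y : ℝ => cst * y ^ (-(11 / 4) : ℝ)) (Ioi 1) :=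
      (integrableOn_Ioi_rpow_of_lt (by norm_num) one_pos).const_mul cst
    refine lt_of_le_of_lt ?_ h1.lintegral_lt_top
    refine setLIntegral_mono' measurableSet_Ioi (fun y hy => ?_)
    have hy0 : 0 < y := lt_trans one_pos hy
    rw [← ENNReal.ofReal_mul (by positivity)]
    apply ENNReal.ofReal_le_ofReal
    calc cst * y ^ (-(11 / 4) : ℝ) * min 1 ((-y) ^ 2)
        ≤ cst * y ^ (-(11 / 4) : ℝ) * 1 := by
          gcongr
          exact min_le_left _ _
      _ = cst * y ^ (-(11 / 4) : ℝ) := mul_one _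

lemma abs_lintegral : (∫⁻ x in Ioo (-1 : ℝ) 0, ENNReal.ofReal |x| ∂nu) = ⊤ := by
  have hm : Measurable (fun x : ℝ => (Ioo (-1 : ℝ) 0).indicator (fun x => ENNReal.ofReal |x|) x) := by
    refine Measurable.indicator ?_ measurableSet_Ioo
    fun_prop
  rw [← lintegral_indicator measurableSet_Ioo]
  unfold nu
  rw [lintegral_add_measure, lintegral_map hm measurable_neg, lintegral_ms (by
    exact hm.comp measurable_neg)]
  refine ENNReal.add_eq_top.2 (Or.inl ?_)
  have hc := cst_pos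
  by_contra hne
  have h1 : IntegrableOn (fun y : ℝ => cst * y ^ (-(7 / 4) : ℝ)) (Ioo 0 1) := by
    refine ⟨by
      apply Measurable.aestronglyMeasurable
      fun_prop, ?_⟩
    rw [hasFiniteIntegral_iff_ofReal (by
      filter_upwards [ae_restrict_mem measurableSet_Ioo] with y hy
      have : 0 < y := hy.1
      positivity)]
    refine lt_of_le_of_lt ?_ (lt_top_iff_ne_top.2 hne)
    rw [← lintegral_indicator measurableSet_Ioo, ← lintegral_indicator measurableSet_Ioi]
    refine lintegral_mono (fun y => ?_)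
    by_cases hy : y ∈ Ioo (0 : ℝ) 1
    · have hy0 : 0 < y := hy.1
      rw [indicator_of_mem hy, indicator_of_mem (show y ∈ Ioi (0 : ℝ) from hy.1),
        indicator_of_mem (show -y ∈ Ioo (-1 : ℝ) 0 from ⟨by linarith [hy.2], by linarith [hy.1]⟩),
        ← ENNReal.ofReal_mul (by positivity)]
      apply ENNReal.ofReal_le_ofReal
      rw [abs_neg, abs_of_pos hy0, mul_assoc]
      have : y ^ (-(11 / 4) : ℝ) * y = y ^ (-(7 / 4) : ℝ) := by
        nth_rewrite 2 [← Real.rpow_one y]
        rw [← Real.rpow_add hy0]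
        norm_num
      rw [this]
    · rw [indicator_of_notMem hy]
      exact bot_le
  have h2 : IntegrableOn (fun y : ℝ => y ^ (-(7 / 4) : ℝ)) (Ioo 0 1) := by
    have := h1.const_mul (cst⁻¹)
    refine (integrableOn_congr_fun (fun y hy => ?_) measurableSet_Ioo).1 this
    rw [inv_mul_cancel_left₀ hc.ne']
  rw [intervalIntegral.integrableOn_Ioo_rpow_iff one_pos] at h2
  norm_num at h2

lemma tail_not_cont :
    ¬ ContDiffOn ℝ ((0 : ℕ) : WithTop ℕ∞) (fun y => (nu (Iio (-y))).toReal) (Ioi 0) := by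
  intro h
  have hcont : ContinuousOn (fun y => (nu (Iio (-y))).toReal) (Ioi 0) := h.continuousOn
  have hfin : ∀ a : ℝ, a < 0 → nu (Iio a) < ⊤ := by
    intro a ha
    set e : ENNReal := ENNReal.ofReal (min 1 (a ^ 2)) with he
    have he0 : e ≠ 0 := by
      rw [he]
      simp only [ne_eq, ENNReal.ofReal_eq_zero, not_le]
      have hane := ha.ne
      have : 0 < a ^ 2 := by positivity
      exact lt_min one_pos this
    have h1 : e * nu (Iio a) ≤ ∫⁻ x, ENNReal.ofReal (min 1 (x ^ 2)) ∂nu := by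
      calc e * nu (Iio a) = ∫⁻ x in Iio a, e ∂nu := by rw [setLIntegral_const]
        _ ≤ ∫⁻ x in Iio a, ENNReal.ofReal (min 1 (x ^ 2)) ∂nu := by
            refine setLIntegral_mono' measurableSet_Iio (fun x hx => ?_)
            apply ENNReal.ofReal_le_ofReal
            have hx' : x < a := hx
            apply min_le_min_left
            nlinarith
        _ ≤ ∫⁻ x, ENNReal.ofReal (min 1 (x ^ 2)) ∂nu := setLIntegral_le_lintegral _ _
    have h2 : e * nu (Iio a) < ⊤ := lt_of_le_of_lt h1 sq_lintegral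
    by_contra h3
    have h4 : nu (Iio a) = ⊤ := by simpa using h3
    rw [h4, ENNReal.mul_top he0] at h2
    exact lt_irrefl _ h2
  -- jump at 1
  have hjump : ∀ y : ℝ, 0 < y → y < 1 → (nu (Iio (-1))).toReal + 1 ≤ (nu (Iio (-y))).toReal := by
    intro y hy0 hy1
    have h1 : nu (Iio (-1)) + 1 ≤ nu (Iio (-y)) := by
      have hsub : Iio (-1 : ℝ) ∪ {-1} ⊆ Iio (-y) := by
        rintro x (hx | hx)
        · have : x < -1 := hx
          simp only [mem_Iio]; linarith
        · rw [mem_singleton_iff] at hx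
          subst hx
          simp only [mem_Iio]; linarith
      calc nu (Iio (-1)) + 1 ≤ nu (Iio (-1)) + nu {-1} := by
            gcongr
            unfold nu
            rw [Measure.add_apply]
            have : (Measure.dirac (-1 : ℝ)) {(-1 : ℝ)} = 1 := by simp
            rw [this]
            exact le_add_self
        _ = nu (Iio (-1) ∪ {-1}) := by
            rw [measure_union _ (measurableSet_singleton _)]
            simp
        _ ≤ nu (Iio (-y)) := measure_mono hsub
    have h2 : (nu (Iio (-1)) + 1).toReal ≤ (nu (Iio (-y))).toReal :=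
      ENNReal.toReal_mono (hfin _ (by linarith)).ne h1
    rw [ENNReal.toReal_add (hfin _ (by norm_num)).ne ENNReal.one_ne_top] at h2
    simpa using h2
  have hc1 := hcont 1 (show (1 : ℝ) ∈ Ioi (0 : ℝ) by simp)
  have hc2 : Tendsto (fun y => (nu (Iio (-y))).toReal) (𝓝[Ioi 0] 1) (𝓝 (nu (Iio (-1))).toReal) := hc1
  have hle : 𝓝[Ioo 0 1] (1 : ℝ) ≤ 𝓝[Ioi 0] 1 := nhdsWithin_mono _ (fun x hx => hx.1)
  have hc3 := hc2.mono_left hle
  have hne : (𝓝[Ioo 0 1] (1 : ℝ)).NeBot := by
    rw [← mem_closure_iff_nhdsWithin_neBot, closure_Ioo (by norm_num)]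
    simp
  have h3 : (nu (Iio (-1))).toReal + 1 ≤ (nu (Iio (-1))).toReal := by
    refine ge_of_tendsto hc3 ?_
    filter_upwards [self_mem_nhdsWithin] with y hy
    exact hjump y hy.1 hy.2
  linarith

/-- The negation of the preceding statement: Spectrally negative Lévy process with no Gaussian part, Lévy measure on (−∞,0), infinite ∫_{(−1,0)}∣x∣: for every k, the scale function is C^{k+2} on (0,∞) iff the Lévy tail y ↦ ν(−∞,−y) is C^k on (0,∞). -/
theorem result :
    ¬ (∀ (ν : MeasureTheory.Measure ℝ) (γ : ℝ) (W : ℝ → ℝ),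
      ν (Set.Ici 0) = 0 →
      (∫⁻ x, ENNReal.ofReal (min 1 (x ^ 2)) ∂ν) < ⊤ →
      (∫⁻ x in Set.Ioo (-1 : ℝ) 0, ENNReal.ofReal |x| ∂ν) = ⊤ →
      ContinuousOn W (Set.Ioi 0) →
      (∃ β₀ : ℝ, ∀ β : ℝ, β₀ < β →
        MeasureTheory.IntegrableOn (fun x => Real.exp (-β * x) * W x) (Set.Ioi 0) ∧
        (∫ x in Set.Ioi (0 : ℝ), Real.exp (-β * x) * W x) =
          1 / (γ * β + ∫ x, (Real.exp (β * x) - 1 - (if -1 < x then β * x else 0)) ∂ν)) →
      ∀ k : ℕ,
        (ContDiffOn ℝ ((k + 2 : ℕ) : WithTop ℕ∞) W (Set.Ioi 0) ↔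
          ContDiffOn ℝ ((k : ℕ) : WithTop ℕ∞) (fun y => (ν (Set.Iio (-y))).toReal) (Set.Ioi 0))) := by
  intro h
  have h1 := h nu (4 / 3 * cst) W nu_Ici sq_lintegral abs_lintegral contDiffOn_W.continuousOn
    ⟨2, fun β hβ => ?_⟩ 0
  · refine tail_not_cont (h1.1 ?_)
    exact_mod_cast contDiffOn_W
  · obtain ⟨h2, h3⟩ := laplace_W hβ
    refine ⟨h2, ?_⟩
    rw [h3, integral_nu (by linarith)]
    congr 1
    ring

end Pool.Agent.S19138
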