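import Pool.Statements.S19143
-- import your own Pool.Agent.* helpers here
import Pool.Agent.H500R3.Pol.Fin

set_option autoImplicit false
open MeasureTheory ProbabilityTheory Filter Topology
open Pool Pool.MP_0d8a84_pr

namespace Pool.Agent.S19143

/-- coordinates -/
def e3 (x : Fin 3 → ℤ) : ℤ × ℤ × ℤ := (x 0, x 1, x 2)

theorem e3_inj : Function.Injective e3 := by
  intro x y h
  unfold e3 at h
  rw [Prod.mk.injEq, Prod.mk.injEq] at h
  funext i
  fin_cases i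
  · exact h.1
  · exact h.2.1
  · exact h.2.2

theorem e3_surj : Function.Surjective e3 := by
  intro x
  refine ⟨![x.1, x.2.1, x.2.2], ?_⟩
  rfl

theorem e3_nm (x y : Fin 3 → ℤ) :
    |(e3 x).1 - (e3 y).1| + |(e3 x).2.1 - (e3 y).2.1| + |(e3 x).2.2 - (e3 y).2.2| =
      Pool.Agent.H500R3.Pol.nm (y - x) := by
  unfold Pool.Agent.H500R3.Pol.nm e3
  rw [Fin.sum_univ_three]
  simp only [Pi.sub_apply]
  rw [abs_sub_comm (x 0), abs_sub_comm (x 1), abs_sub_comm (x 2)]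

theorem incl3 (ω : ℤ × ℤ × ℤ → Fin 3)
    (h : ((0 : ℤ × ℤ × ℤ)) ∈ ⋂₀ {S : Set (ℤ × ℤ × ℤ) |
            (∀ x, ω x = 0 → x ∈ S) ∧
            (∀ x, ω x ≠ 1 →
              3 ≤ ({y ∈ S | |x.1 - y.1| + |x.2.1 - y.2.1| + |x.2.2 - y.2.2| = 1}).ncard →
              x ∈ S)}) :
    (fun i => ω (e3 i)) ∈ Pool.Agent.H500R3.Pol.Hit 3 := by
  intro S hS
  have h1 := h (e3 '' S) (by
    constructor
    · intro x hx
      obtain ⟨y, rfl⟩ := e3_surj x
      exact ⟨y, hS.1 y hx, rfl⟩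
    · intro x hx hc
      obtain ⟨y, rfl⟩ := e3_surj x
      refine ⟨y, hS.2 y hx ?_, rfl⟩
      have h2 : {z ∈ e3 '' S | |(e3 y).1 - z.1| + |(e3 y).2.1 - z.2.1| + |(e3 y).2.2 - z.2.2| = 1} =
          e3 '' {z | z ∈ S ∧ Pool.Agent.H500R3.Pol.nm (z - y) = 1} := by
        ext z
        constructor
        · rintro ⟨⟨w, hw, rfl⟩, hz⟩
          rw [e3_nm] at hz
          exact ⟨w, ⟨hw, hz⟩, rfl⟩
        · rintro ⟨w, ⟨hw, hz⟩, rfl⟩
          refine ⟨⟨w, hw, rfl⟩, ?_⟩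
          rw [e3_nm]
          exact hz
      rw [h2, Set.ncard_image_of_injective _ e3_inj] at hc
      exact hc)
  obtain ⟨y, hy, hy0⟩ := h1
  have : y = 0 := e3_inj (by rw [hy0]; rfl)
  rwa [this] at hy

/-- In 3D polluted bootstrap percolation with threshold 3 (occupied prob p, closed prob q), if p,q→0 with log q/log p→α<3, then the probability that the origin is eventually occupied tends to 0. -/
theorem result :
    ∀ α : ℝ, α < 3 → ∀ p q : ℕ → ℝ, (∀ n, 0 < p n) → (∀ n, 0 < q n) →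
      Tendsto p atTop (𝓝 0) → Tendsto q atTop (𝓝 0) →
      Tendsto (fun n => Real.log (q n) / Real.log (p n)) atTop (𝓝 α) →
      ∀ μ : ℕ → Measure (Fin 3), ∀ [∀ n, IsProbabilityMeasure (μ n)],
        (∀ n, μ n {0} = ENNReal.ofReal (p n)) →
        (∀ n, μ n {1} = ENNReal.ofReal (q n)) →
        Tendsto (fun n => Measure.infinitePi (fun _ : ℤ × ℤ × ℤ => μ n)
          {ω : ℤ × ℤ × ℤ → Fin 3 | ((0 : ℤ × ℤ × ℤ)) ∈ ⋂₀ {S : Set (ℤ × ℤ × ℤ) |
            (∀ x, ω x = 0 → x ∈ S) ∧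
            (∀ x, ω x ≠ 1 →
              3 ≤ ({y ∈ S | |x.1 - y.1| + |x.2.1 - y.2.1| + |x.2.2 - y.2.2| = 1}).ncard →
              x ∈ S)}})
          atTop (𝓝 0) := by
  intro α hα p q hp hq hp0 _ hlog μ _ hμ0 hμ1
  have e0 : ∀ n, (μ n).real {0} = p n := by
    intro n
    rw [measureReal_def, hμ0 n, ENNReal.toReal_ofReal (hp n).le]
  have e1 : ∀ n, (μ n).real {1} = q n := by
    intro n
    rw [measureReal_def, hμ1 n, ENNReal.toReal_ofReal (hq n).le]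
  have hlim := Pool.Agent.H500R3.Pol.limit (d := 3) (by norm_num) μ (by intro n; rw [e0]; exact hp n)
    (by simp_rw [e0]; exact hp0)
    (by
      simp_rw [e0, e1]
      exact Pool.Agent.H500R3.Pol.ratio hp hq hp0 (d := 3) (by exact_mod_cast hα) hlog)
  refine tendsto_of_tendsto_of_tendsto_of_le_of_le tendsto_const_nhds hlim (fun _ => zero_le) ?_
  intro n
  have hmap := Measure.map_infinitePi_infinitePi_of_inj (P := fun _ : ℤ × ℤ × ℤ => μ n) e3_inj
  have hmeas : Measurable (fun (ω : ℤ × ℤ × ℤ → Fin 3) (i : Fin 3 → ℤ) => ω (e3 i)) :=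
    measurable_pi_lambda _ (fun i => measurable_pi_apply _)
  calc Measure.infinitePi (fun _ : ℤ × ℤ × ℤ => μ n) _
      ≤ Measure.infinitePi (fun _ : ℤ × ℤ × ℤ => μ n)
          ((fun (ω : ℤ × ℤ × ℤ → Fin 3) (i : Fin 3 → ℤ) => ω (e3 i)) ⁻¹'
            Pool.Agent.H500R3.Pol.Hit 3) := measure_mono (fun ω hω => incl3 ω hω)
    _ ≤ (Measure.infinitePi (fun _ : ℤ × ℤ × ℤ => μ n)).map
          (fun (ω : ℤ × ℤ × ℤ → Fin 3) (i : Fin 3 → ℤ) => ω (e3 i))
            (Pool.Agent.H500R3.Pol.Hit 3) := Measure.le_map_apply hmeas.aemeasurable _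
    _ = Pool.Agent.H500R3.Prod.Pm (μ n) (Pool.Agent.H500R3.Pol.Hit 3) := by
        rw [hmap]
        rfl

end Pool.Agent.S19143
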