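import Pool.Statements.S19165
import Pool.Agent.H581R3.GPR.Rep
import Pool.Agent.H581R3.GPR.Fin

set_option autoImplicit false
open MeasureTheory ProbabilityTheory
open Pool Pool.MP_130bb2_pr

namespace Pool.Agent.S19165

/-- For every centered Gaussian law on R^d and all real exponents nu_i at least 0, the expectation of the product of ∣Z_i∣^(2 nu_i) is at least the product of the individual expectations of ∣Z_i∣^(2 nu_i). -/
theorem result :
    ∀ (d : ℕ) (μ : Measure (Fin d → ℝ)), IsGaussian μ → ∫ x, x ∂μ = 0 →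
      ∀ ν : Fin d → ℝ, (∀ i, 0 ≤ ν i) →
        ∏ i, ∫ x, |x i| ^ (2 * ν i) ∂μ ≤ ∫ x, ∏ i, |x i| ^ (2 * ν i) ∂μ := by
  intro d μ hμ h0 ν hν
  obtain ⟨A, hA⟩ := Pool.Agent.H581R3.GPR.Rep.rep μ h0
  have hm : Measurable (fun g : Fin d → ℝ => A.mulVec g) := by
    have : Continuous (fun g : Fin d → ℝ => A.mulVec g) := by fun_prop
    exact this.measurable
  have hp : ∀ i, 0 ≤ 2 * ν i := fun i => mul_nonneg zero_le_two (hν i)
  have hc : ∀ i, Continuous (fun x : Fin d → ℝ => |x i| ^ (2 * ν i)) := fun i =>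
    ((continuous_apply i).abs).rpow_const fun x => Or.inr (hp i)
  have hc2 : Continuous (fun x : Fin d → ℝ => ∏ i, |x i| ^ (2 * ν i)) :=
    continuous_finsetProd _ fun i _ => hc i
  have h := Pool.Agent.H581R3.GPR.t_F3 d d
    (fun k => (LinearMap.proj k).comp (Matrix.mulVecLin A)) (fun k => 2 * ν k) hp
  simp only [LinearMap.comp_apply, LinearMap.proj_apply, Matrix.mulVecLin_apply] at h
  have e1 : ∀ i, ∫ x, |x i| ^ (2 * ν i) ∂μ =
      ∫ g, |A.mulVec g i| ^ (2 * ν i) ∂(H780GP.gam d) := by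
    intro i
    conv_lhs => rw [hA]
    rw [integral_map hm.aemeasurable (hc i).aestronglyMeasurable]
    rfl
  have e2 : ∫ x, ∏ i, |x i| ^ (2 * ν i) ∂μ =
      ∫ g, ∏ i, |A.mulVec g i| ^ (2 * ν i) ∂(H780GP.gam d) := by
    conv_lhs => rw [hA]
    rw [integral_map hm.aemeasurable hc2.aestronglyMeasurable]
    rfl
  simp_rw [e1]
  rw [e2]
  exact h

end Pool.Agent.S19165
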