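import Pool.Statements.S19177
-- import your own Pool.Agent.* helpers here
import Pool.Agent.Helper41.Dim
import Pool.Agent.Helper41.Proj
import Pool.Agent.Helper41.Exist

set_option autoImplicit false
open MeasureTheory ProbabilityTheory
open Pool Pool.MP_16f2e2_pr

namespace Pool.Agent.S19177

open Filter Topology
open scoped ENNReal NNReal
open Pool.Agent.Helper41

/-- A centred Gaussian law prescribes the characteristic function. -/
theorem char_of_map {Ω : Type} [MeasurableSpace Ω] {P : Measure Ω} (Y : Ω → ℝ) (S : ℝ) (hS : 0 ≤ S)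
    (h : P.map Y = gaussianReal 0 (Real.toNNReal S)) :
    ∫ ω, Complex.exp (Complex.I * ((Y ω : ℝ) : ℂ)) ∂P = Complex.exp (-(1 / 2 : ℂ) * (S : ℂ)) := by
  have hY : AEMeasurable Y P := aemeasurable_of_map_neZero (by rw [h]; infer_instance)
  have h1 : ∫ ω, Complex.exp (Complex.I * ((Y ω : ℝ) : ℂ)) ∂P =
      ∫ x, Complex.exp (Complex.I * (x : ℂ)) ∂(P.map Y) := by
    rw [integral_map hY]
    exact (by fun_prop : Continuous fun x : ℝ => Complex.exp (Complex.I * (x : ℂ))).aestronglyMeasurable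
  rw [h1, h]
  have h2 := charFun_gaussianReal (μ := 0) (v := Real.toNNReal S) 1
  rw [charFun_apply_real] at h2
  have h3 : ∫ x, Complex.exp (Complex.I * (x : ℂ)) ∂(gaussianReal 0 (Real.toNNReal S)) =
      ∫ x, Complex.exp (((1 : ℝ) : ℂ) * (x : ℂ) * Complex.I) ∂(gaussianReal 0 (Real.toNNReal S)) := by
    refine integral_congr_ae (Eventually.of_forall fun x => ?_)
    simp only
    congr 1
    push_cast
    ring
  rw [h3, h2]
  congr 1
  have h4 : ((Real.toNNReal S : ℝ≥0) : ℝ) = S := Real.coe_toNNReal _ hS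
  have h5 : (((Real.toNNReal S : ℝ≥0) : ℝ) : ℂ) = (S : ℂ) := by rw [h4]
  push_cast
  rw [h5]
  ring

/-- For d = 4 and d = 5, any continuous d-dimensional Brownian sheet satisfies, almost surely, for every s > 0, that the set of distinct positive time pairs where the slice at s has a double point has Hausdorff dimension 0. -/
theorem result :
  ∀ (d : ℕ), (d = 4 ∨ d = 5) →
  ∀ (Ω : Type) [MeasurableSpace Ω] (P : Measure Ω) [IsProbabilityMeasure P]
    (B : Ω → ℝ → ℝ → (Fin d → ℝ)),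
    (∀ ω, ContinuousOn (fun p : ℝ × ℝ => B ω p.1 p.2)
        ((Set.Ici (0 : ℝ)) ×ˢ (Set.Ici (0 : ℝ)))) →
    (∀ (n : ℕ) (x : Fin n → ℝ × ℝ) (c : Fin n → Fin d → ℝ),
      (∀ k, 0 ≤ (x k).1 ∧ 0 ≤ (x k).2) →
      P.map (fun ω => ∑ k, ∑ i, c k i * B ω (x k).1 (x k).2 i) =
        gaussianReal 0 (Real.toNNReal
          (∑ k, ∑ l, ∑ i, c k i * c l i *
            (min (x k).1 (x l).1 * min (x k).2 (x l).2)))) →
    ∀ᵐ ω ∂P, ∀ s : ℝ, 0 < s →
      dimH {p : ℝ × ℝ | 0 < p.1 ∧ 0 < p.2 ∧ p.1 ≠ p.2 ∧ B ω s p.1 = B ω s p.2} = 0 := by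
  classical
  intro d hd Ω _ P _ B hcont hlaw
  have h4d : 4 ≤ d := by omega
  -- measurability of the coordinates, almost everywhere
  have hae : ∀ (s t : ℝ≥0) (i : Fin d), AEMeasurable (fun ω => B ω s t i) P := by
    intro s t i
    have h1 := hlaw 1 (fun _ => ((s : ℝ), (t : ℝ))) (fun _ => Pi.single i 1)
      (fun _ => ⟨s.2, t.2⟩)
    have h2 : AEMeasurable (fun ω => ∑ k : Fin 1, ∑ j, (Pi.single i (1 : ℝ) : Fin d → ℝ) j *
        B ω s t j) P := aemeasurable_of_map_neZero (by rw [h1]; infer_instance)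
    refine h2.congr (Eventually.of_forall fun ω => ?_)
    simp [Pi.single_apply]
  -- a measurable null set containing all the exceptional sets
  let Z : ℕ × ℕ × ℕ × Fin d → Set Ω := fun q =>
    {ω | B ω (((q.1 : ℝ≥0) / 2 ^ q.2.2.1 : ℝ≥0) : ℝ) (((q.2.1 : ℝ≥0) / 2 ^ q.2.2.1 : ℝ≥0) : ℝ)
      q.2.2.2 ≠ (hae ((q.1 : ℝ≥0) / 2 ^ q.2.2.1) ((q.2.1 : ℝ≥0) / 2 ^ q.2.2.1) q.2.2.2).mk _ ω}
  have hZ : ∀ q, P (Z q) = 0 := fun q =>
    (hae ((q.1 : ℝ≥0) / 2 ^ q.2.2.1) ((q.2.1 : ℝ≥0) / 2 ^ q.2.2.1) q.2.2.2).ae_eq_mk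
  let N : Set Ω := toMeasurable P (⋃ q, Z q)
  have hN0 : P N = 0 := by
    rw [measure_toMeasurable]
    exact measure_iUnion_null hZ
  have hNm : MeasurableSet N := measurableSet_toMeasurable _ _
  have hNsub : ∀ q ω, ω ∉ N → ω ∉ Z q := fun q ω h h' =>
    h (subset_toMeasurable _ _ (Set.mem_iUnion.mpr ⟨q, h'⟩))
  -- the modified process
  let C : ℝ≥0 → ℝ≥0 → Fin d → Ω → ℝ := fun s t i ω => if ω ∈ N then 0 else B ω s t i
  have hCdy : ∀ (k l n : ℕ) (i : Fin d),
      Measurable (C ((k : ℝ≥0) / 2 ^ n) ((l : ℝ≥0) / 2 ^ n) i) := by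
    intro k l n i
    have h1 : C ((k : ℝ≥0) / 2 ^ n) ((l : ℝ≥0) / 2 ^ n) i = fun ω => if ω ∈ N then 0 else
        (hae ((k : ℝ≥0) / 2 ^ n) ((l : ℝ≥0) / 2 ^ n) i).mk _ ω := by
      funext ω
      by_cases hω : ω ∈ N
      · simp [C, hω]
      · have h2 := hNsub (k, l, n, i) ω hω
        simp only [Z, Set.mem_ofPred_eq, not_not] at h2
        simp only [C, hω, if_false]
        exact h2
    rw [h1]
    exact Measurable.ite hNm measurable_const
      (hae ((k : ℝ≥0) / 2 ^ n) ((l : ℝ≥0) / 2 ^ n) i).measurable_mk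
  have hCcont : ∀ ω (i : Fin d), Continuous (fun p : ℝ≥0 × ℝ≥0 => C p.1 p.2 i ω) := by
    intro ω i
    by_cases hω : ω ∈ N
    · simp only [C, hω, if_true]
      exact continuous_const
    · simp only [C, hω, if_false]
      have h2 : Continuous (fun p : ℝ≥0 × ℝ≥0 => ((p.1 : ℝ), (p.2 : ℝ))) := by fun_prop
      have h1 : Continuous (fun p : ℝ≥0 × ℝ≥0 => B ω (p.1 : ℝ) (p.2 : ℝ)) :=
        (hcont ω).comp_continuous h2 (fun p => ⟨p.1.2, p.2.2⟩)
      exact (continuous_apply i).comp h1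
  have hCm : ∀ (s t : ℝ≥0) (i : Fin d), Measurable (C s t i) := by
    intro s t i
    refine measurable_of_tendsto_metrizable (f := fun n : ℕ => C (fl n s) (fl n t) i)
      (fun n => hCdy _ _ n i) ?_
    rw [tendsto_pi_nhds]
    intro ω
    exact ((hCcont ω i).tendsto (s, t)).comp ((tendsto_fl s).prodMk_nhds (tendsto_fl t))
  -- the sheet in dimension four
  let X : Fin 4 × ℝ≥0 × ℝ≥0 → Ω → ℝ := fun q => C q.2.1 q.2.2 (Fin.castLE h4d q.1)
  have hsheet : IsSheet X P := by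
    refine ⟨fun q => hCm _ _ _, ?_⟩
    intro n q a
    obtain ⟨Ω', mΩ', P', hP', X', hX', -⟩ := exists_sheet 4
    have hS : 0 ≤ ∑ i, ∑ j, a i * a j * sheetK (q i) (q j) := hX'.char.quad_nonneg q a
    have h1 := hlaw n (fun k => (((q k).2.1 : ℝ), ((q k).2.2 : ℝ)))
      (fun k i => if i = Fin.castLE h4d (q k).1 then a k else 0)
      (fun k => ⟨(q k).2.1.2, (q k).2.2.2⟩)
    have e1 : (∑ k, ∑ l, ∑ i, (if i = Fin.castLE h4d (q k).1 then a k else 0) *
        (if i = Fin.castLE h4d (q l).1 then a l else 0) *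
        (min ((q k).2.1 : ℝ) ((q l).2.1 : ℝ) * min ((q k).2.2 : ℝ) ((q l).2.2 : ℝ))) =
        ∑ i, ∑ j, a i * a j * sheetK (q i) (q j) := by
      refine Finset.sum_congr rfl fun i _ => Finset.sum_congr rfl fun j _ => ?_
      simp only [ite_mul, zero_mul, Finset.sum_ite_eq', Finset.mem_univ, if_true]
      unfold sheetK
      by_cases hij : (q i).1 = (q j).1
      · rw [if_pos hij, hij, if_pos rfl]
        push_cast
        ring
      · have hij' : Fin.castLE h4d (q i).1 ≠ Fin.castLE h4d (q j).1 := fun h =>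
          hij (Fin.castLE_injective h4d h)
        rw [if_neg hij, if_neg hij']
        ring
    simp only at h1
    rw [e1] at h1
    have h2 := char_of_map _ _ hS h1
    rw [← h2]
    refine integral_congr_ae ?_
    have hN : ∀ᵐ ω ∂P, ω ∉ N := measure_eq_zero_iff_ae_notMem.mp hN0
    filter_upwards [hN] with ω hω
    congr 3
    refine Finset.sum_congr rfl fun k _ => ?_
    simp only [ite_mul, zero_mul, Finset.sum_ite_eq', Finset.mem_univ, if_true, X, C, hω, if_false]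
  have hmain := hsheet.ae_dimH_zero
    (Eventually.of_forall fun ω c => hCcont ω (Fin.castLE h4d c))
  have hN : ∀ᵐ ω ∂P, ω ∉ N := measure_eq_zero_iff_ae_notMem.mp hN0
  filter_upwards [hmain, hN] with ω h1 hω s hs
  have h2 := h1 ⟨s, hs.le⟩ hs
  rw [← isometry_emb.dimH_image] at h2
  refine le_antisymm ((dimH_mono ?_).trans h2.le) bot_le
  rintro ⟨t1, t2⟩ ⟨h3, h4, h5, h6⟩
  refine ⟨(⟨t1, h3.le⟩, ⟨t2, h4.le⟩), ⟨?_, ?_⟩, rfl⟩
  · intro h
    exact h5 (congrArg NNReal.toReal h)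
  · intro c
    simp only [X, C, hω, if_false]
    exact congrFun h6 _

end Pool.Agent.S19177
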