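import Pool.Statements.S19196
import Pool.Agent.H95R3.EntWE

set_option autoImplicit false
open Pool Pool.MP_1d7c3b_pr

namespace Pool.Agent.S19196

/-- The negation of the preceding statement: For i.i.d. X_1..X_n with a symmetric log-concave density and real d with sum of d_i^2 equal to 1, the differential entropy of the sum of d_i X_i is at most that of the sum of X_i/sqrt(n). -/
theorem result :
    ¬ (∀ (n : ℕ), 0 < n → ∀ (f : ℝ → ℝ), (∀ x, 0 ≤ f x) → (∀ x, f (-x) = f x) →
      (∀ x y t : ℝ, 0 ≤ t → t ≤ 1 →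
        f x ^ t * f y ^ (1 - t) ≤ f (t * x + (1 - t) * y)) →
      MeasureTheory.Integrable f → ∫ x, f x = 1 →
      ∀ (Ω : Type) [MeasureTheory.MeasureSpace Ω]
        [MeasureTheory.IsProbabilityMeasure (MeasureTheory.volume : MeasureTheory.Measure Ω)]
        (X : Fin n → Ω → ℝ),
        (∀ i, Measurable (X i)) →
        ProbabilityTheory.iIndepFun X (MeasureTheory.volume : MeasureTheory.Measure Ω) →
        (∀ i, MeasureTheory.Measure.map (X i) (MeasureTheory.volume : MeasureTheory.Measure Ω)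
            = MeasureTheory.volume.withDensity (fun x => ENNReal.ofReal (f x))) →
        ∀ d : Fin n → ℝ, ∑ i, d i ^ 2 = 1 →
          ∫ x, Real.negMulLog
              (((MeasureTheory.Measure.map (fun ω => ∑ i, d i * X i ω)
                (MeasureTheory.volume : MeasureTheory.Measure Ω)).rnDeriv
                  MeasureTheory.volume x).toReal)
            ≤ ∫ x, Real.negMulLog
              (((MeasureTheory.Measure.map (fun ω => ∑ i, (1 / Real.sqrt n) * X i ω)
                (MeasureTheory.volume : MeasureTheory.Measure Ω)).rnDeriv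
                  MeasureTheory.volume x).toReal)) := by
  intro H
  have h := H 2 (by norm_num) H95R3.EntW.fX (fun x => (H95R3.EntW.fX_pos x).le) H95R3.EntW.fX_even
    H95R3.EntW.fX_logconcave H95R3.EntW.fX_integrable H95R3.EntW.fX_integral H95R3.EntW.Om H95R3.EntW.Xc H95R3.EntW.Xc_meas
    H95R3.EntW.Xc_indep (fun i => by rw [H95R3.EntW.Xc_law, H95R3.EntW.muX_eq]) ![4 / 5, 3 / 5]
    (by simp [Fin.sum_univ_two]; norm_num)
  have hrr : H95R3.EntW.rr ^ 2 + H95R3.EntW.rr ^ 2 = 1 := by rw [H95R3.EntW.rr_sq]; norm_num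
  have h45 : (4 / 5 : ℝ) ^ 2 + (3 / 5) ^ 2 = 1 := by norm_num
  have hi : ProbabilityTheory.IndepFun (H95R3.EntW.Xc 0) (H95R3.EntW.Xc 1)
      (MeasureTheory.volume : MeasureTheory.Measure H95R3.EntW.Om) :=
    H95R3.EntW.Xc_indep.indepFun (by decide)
  have l1 : MeasureTheory.Measure.map
      (fun ω => ∑ i, (![4 / 5, 3 / 5] : Fin 2 → ℝ) i * H95R3.EntW.Xc i ω)
      (MeasureTheory.volume : MeasureTheory.Measure H95R3.EntW.Om) = H95R3.EntW.muS (4 / 5) (3 / 5) := by
    rw [← H95R3.EntW.map_eq_muS _ _ _ (H95R3.EntW.Xc_meas 0) (H95R3.EntW.Xc_meas 1) hi (H95R3.EntW.Xc_law 0)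
      (H95R3.EntW.Xc_law 1) _ _ h45]
    congr 1
    ext ω
    simp [Fin.sum_univ_two]
  have l2 : MeasureTheory.Measure.map
      (fun ω => ∑ i, (1 / Real.sqrt ((2 : ℕ) : ℝ)) * H95R3.EntW.Xc i ω)
      (MeasureTheory.volume : MeasureTheory.Measure H95R3.EntW.Om) = H95R3.EntW.muS H95R3.EntW.rr H95R3.EntW.rr := by
    rw [← H95R3.EntW.map_eq_muS _ _ _ (H95R3.EntW.Xc_meas 0) (H95R3.EntW.Xc_meas 1) hi (H95R3.EntW.Xc_law 0)
      (H95R3.EntW.Xc_law 1) _ _ hrr]
    congr 1
    ext ω
    simp [Fin.sum_univ_two, H95R3.EntW.rr]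
  rw [l1, l2] at h
  exact absurd H95R3.EntW.entropy_lt (not_lt.2 h)

end Pool.Agent.S19196
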