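import Pool.Statements.S19200
import Pool.Agent.H111R5.CP.Stmts
import Pool.Agent.H111R5.CP.Final
import Pool.Agent.H111R5.CP.Path
import Pool.Agent.H111R5.CP.Lim
import Pool.Agent.H111R5.CP.Zero
import Pool.Agent.H195R3.CPH
import Pool.Agent.H449R3.CPG
import Pool.Agent.H245R3.CPGE
import Pool.Agent.H885R3.CPGood
import Pool.Agent.H87R3.CP.TaskES
import Pool.Agent.H41R3.CPInt
import Pool.Agent.H349R3.CP.Var
import Pool.Agent.H676R4.CPSup
import Pool.Agent.H151.CPHardy
import Pool.Agent.H77R3.CP.TaskMom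
import Pool.Agent.H12R3.CPAS

set_option autoImplicit false
open MeasureTheory ProbabilityTheory Filter
open Pool Pool.MP_1e2dfa_pr

namespace Pool.Agent.S19200

/-- The negation of the preceding statement: For SRW on Z^3 in a Gaussian environment, white in time with bounded symmetric positive-definite spatial correlation h, h(0)=1, h(x)~∣x∣^-2, the a.s. free energy p of the normalised partition function satisfies β^2 log(-p(β)) → -c for some c>0 as β↓0. -/
theorem result :
    ¬ (∀ (h : (Fin 3 → ℤ) → ℝ),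
    (∃ M : ℝ, ∀ x, |h x| ≤ M) →
    (∀ x, h (-x) = h x) →
    (∀ (s : Finset (Fin 3 → ℤ)) (a : (Fin 3 → ℤ) → ℝ),
        0 ≤ Finset.sum s (fun x => Finset.sum s (fun y => a x * a y * h (x - y)))) →
    h 0 = 1 →
    Tendsto (fun x : Fin 3 → ℤ => h x * Finset.sum Finset.univ (fun i : Fin 3 => ((x i : ℝ)) ^ 2))
      cofinite (nhds 1) →
    ∀ (Ω : Type) [MeasurableSpace Ω] (P : Measure Ω) [IsProbabilityMeasure P]
      (ω : ℕ → (Fin 3 → ℤ) → Ω → ℝ),
      (∀ n x, Measurable (ω n x)) →
      (∀ (s : Finset (ℕ × (Fin 3 → ℤ))) (a : ℕ × (Fin 3 → ℤ) → ℝ),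
        P.map (fun w => Finset.sum s (fun i => a i * ω i.1 i.2 w)) =
          gaussianReal 0 (Real.toNNReal
            (Finset.sum s (fun i => Finset.sum s (fun j =>
              a i * a j * (if i.1 = j.1 then h (i.2 - j.2) else 0)))))) →
      ∀ p : ℝ → ℝ,
        (∀ β : ℝ, 0 < β → Filter.Eventually (fun w =>
          Tendsto
            (fun N : ℕ => Real.log (((6 : ℝ) ^ N)⁻¹ *
              Finset.sum Finset.univ (fun σ : Fin N → Fin 3 × Bool =>
                Real.exp (Finset.sum (Finset.Icc 1 N) (fun n =>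
                  β * ω n (Finset.sum (Finset.univ.filter (fun k : Fin N => k.val < n))
                      (fun k => (Pi.single (σ k).1 (if (σ k).2 then (1 : ℤ) else -1) : Fin 3 → ℤ))) w
                    - β ^ 2 / 2)))) / (N : ℝ))
            atTop (nhds (p β))) (ae P)) →
        ∃ c : ℝ, 0 < c ∧
          Tendsto (fun β : ℝ => Real.log (-p β) * β ^ 2) (nhdsWithin 0 (Set.Ioi 0)) (nhds (-c))) :=
  Pool.Agent.H111R5.CP.final Pool.Agent.H195R3.CP.taskH Pool.Agent.H449R3.CPG.taskG
    Pool.Agent.H245R3.CPGE.taskGE Pool.Agent.H885R3.CPGood.taskGood Pool.Agent.H111R5.CP.taskPath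
    Pool.Agent.H87R3.CP.taskES (Pool.Agent.H41R3.CPInt.taskInt Pool.Agent.H111R5.CP.taskPath)
    Pool.Agent.H111R5.CP.taskVar Pool.Agent.H676R4.CPSup.taskSup Pool.Agent.H111R5.CP.taskHardy
    Pool.Agent.H77R3.CP.taskMom Pool.Agent.H12R3.CPAS.taskAS Pool.Agent.H111R5.CP.taskLim Pool.Agent.H111R5.CP.taskZero

end Pool.Agent.S19200
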