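import Pool.Statements.S19204

set_option autoImplicit false
open MeasureTheory
open Pool Pool.MP_218893_pr

namespace Pool.Agent.S19204

open scoped ENNReal

/-- The weights (out of 17) of the six atoms. -/
def wt : Fin 6 → ℕ := ![4, 4, 4, 2, 1, 2]

/-- The six atoms. -/
def pt : Fin 6 → ℤ := ![0, 4, 6, 7, 14, 18]

/-- The law on the index set. -/
noncomputable def nu : Measure (Fin 6) := ∑ i, ((wt i : ℝ≥0∞) / 17) • Measure.dirac i

theorem nu_singleton (i : Fin 6) : nu {i} = (wt i : ℝ≥0∞) / 17 := by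
  unfold nu
  rw [Measure.finsetSum_apply]
  rw [Finset.sum_eq_single i]
  · simp
  · intro j _ hj
    simp [hj]
  · simp

theorem nu_univ : nu Set.univ = 1 := by
  unfold nu
  rw [Measure.finsetSum_apply]
  simp only [Measure.smul_apply, measure_univ, smul_eq_mul, mul_one]
  simp only [Fin.sum_univ_six, wt]
  simp only [Matrix.cons_val]
  rw [← ENNReal.add_div, ← ENNReal.add_div, ← ENNReal.add_div, ← ENNReal.add_div, ← ENNReal.add_div]
  norm_num
  exact ENNReal.div_self (by norm_num) (by norm_num)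

instance : IsProbabilityMeasure nu := ⟨nu_univ⟩

/-- Weighted number of triples of indices satisfying a condition. -/
def cnt (P : (Fin 3 → Fin 6) → Prop) [DecidablePred P] : ℕ :=
  ∑ ω ∈ Finset.univ.filter P, ∏ i, wt (ω i)

theorem pi_nu (S : Set (Fin 3 → Fin 6)) (P : (Fin 3 → Fin 6) → Prop) [DecidablePred P]
    (hS : ∀ ω, ω ∈ S ↔ P ω) :
    Measure.pi (fun _ : Fin 3 => nu) S = (cnt P : ℝ≥0∞) / 4913 := by
  have h1 : S = ((Finset.univ.filter P : Finset (Fin 3 → Fin 6)) : Set (Fin 3 → Fin 6)) := by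
    ext ω
    simp [hS ω]
  rw [h1, ← sum_measure_singleton]
  have h2 : ∀ ω : Fin 3 → Fin 6, Measure.pi (fun _ : Fin 3 => nu) {ω}
      = ((∏ i, wt (ω i) : ℕ) : ℝ≥0∞) / 4913 := by
    intro ω
    rw [Measure.pi_singleton]
    simp only [nu_singleton, Fin.prod_univ_three]
    push_cast
    rw [show (4913 : ℝ≥0∞) = 17 * 17 * 17 by norm_num]
    rw [ENNReal.div_eq_inv_mul, ENNReal.div_eq_inv_mul, ENNReal.div_eq_inv_mul, ENNReal.div_eq_inv_mul]
    rw [ENNReal.mul_inv (by left; norm_num) (by left; norm_num)]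
    rw [ENNReal.mul_inv (by left; norm_num) (by left; norm_num)]
    ring
  rw [Finset.sum_congr rfl (fun ω _ => h2 ω)]
  unfold cnt
  simp only [ENNReal.div_eq_inv_mul]
  rw [← Finset.mul_sum]
  push_cast
  rfl

/-- Triples of indices. -/
def e3 : (Fin 3 → Fin 6) ≃ Fin 6 × Fin 6 × Fin 6 where
  toFun ω := (ω 0, ω 1, ω 2)
  invFun p := ![p.1, p.2.1, p.2.2]
  left_inv := by
    intro ω
    funext i
    fin_cases i <;> rfl
  right_inv := by
    intro p
    rfl

/-- The weighted number of index triples with `a p_i + b p_j + c p_l = k`. -/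
def tab (a b c : ℤ) (k : ℤ) : ℕ :=
  ∑ i : Fin 6, ∑ j : Fin 6, ∑ l : Fin 6,
    if a * pt i + b * pt j + c * pt l = k then wt i * wt j * wt l else 0

theorem cnt_eq_tab (a b c k : ℤ) :
    cnt (fun ω => a * pt (ω 0) + b * pt (ω 1) + c * pt (ω 2) = k) = tab a b c k := by
  unfold cnt tab
  rw [Finset.sum_filter]
  rw [Fintype.sum_equiv e3 _ (fun p : Fin 6 × Fin 6 × Fin 6 =>
    if a * pt p.1 + b * pt p.2.1 + c * pt p.2.2 = k then wt p.1 * wt p.2.1 * wt p.2.2 else 0)]
  · rw [Fintype.sum_prod_type]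
    refine Finset.sum_congr rfl fun i _ => ?_
    rw [Fintype.sum_prod_type]
  · intro ω
    simp only [Fin.prod_univ_three]
    rfl

theorem tab_target : tab 1 1 2 18 = 416 := by decide +kernel

theorem tab_small : ∀ s ∈ [(1 : ℤ), -1], ∀ t ∈ [(1 : ℤ), -1], ∀ k ∈ Finset.Icc (-36 : ℤ) 54,
    tab 1 s t k ≤ 412 := by
  decide +kernel

theorem range_small : ∀ s ∈ [(1 : ℤ), -1], ∀ t ∈ [(1 : ℤ), -1], ∀ i j l : Fin 6,
    1 * pt i + s * pt j + t * pt l ∈ Finset.Icc (-36 : ℤ) 54 := by
  decide +kernel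

theorem tab_one_le (s t : ℤ) (hs : s = 1 ∨ s = -1) (ht : t = 1 ∨ t = -1) (k : ℤ) :
    tab 1 s t k ≤ 412 := by
  have hs' : s ∈ [(1 : ℤ), -1] := by simpa using hs
  have ht' : t ∈ [(1 : ℤ), -1] := by simpa using ht
  by_cases h : ∃ i j l : Fin 6, 1 * pt i + s * pt j + t * pt l = k
  · obtain ⟨i, j, l, h⟩ := h
    have := range_small s hs' t ht' i j l
    rw [h] at this
    exact tab_small s hs' t ht' k this
  · push Not at h
    have h0 : tab 1 s t k = 0 := by
      unfold tab
      refine Finset.sum_eq_zero fun i _ => Finset.sum_eq_zero fun j _ =>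
        Finset.sum_eq_zero fun l _ => ?_
      rw [if_neg (h i j l)]
    omega

theorem tab_neg (a b c k : ℤ) : tab (-a) (-b) (-c) k = tab a b c (-k) := by
  unfold tab
  refine Finset.sum_congr rfl fun i _ => Finset.sum_congr rfl fun j _ =>
    Finset.sum_congr rfl fun l _ => ?_
  have : (-a * pt i + -b * pt j + -c * pt l = k) ↔ (a * pt i + b * pt j + c * pt l = -k) := by
    constructor <;> intro h <;> linarith
  simp only [this]

theorem tab_le (r s t : ℤ) (hr : r = 1 ∨ r = -1) (hs : s = 1 ∨ s = -1) (ht : t = 1 ∨ t = -1)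
    (k : ℤ) : tab r s t k ≤ 412 := by
  rcases hr with rfl | rfl
  · exact tab_one_le s t hs ht k
  · have h := tab_neg 1 (-s) (-t) k
    rw [neg_neg, neg_neg] at h
    rw [h]
    exact tab_one_le (-s) (-t) (by rcases hs with rfl | rfl <;> simp)
      (by rcases ht with rfl | rfl <;> simp) (-k)

/-- The index-to-lattice map. -/
def emb (i : Fin 6) : Fin 1 → ℤ := fun _ => pt i

/-- The law on `ℤ¹`. -/
noncomputable def mu : Measure (Fin 1 → ℤ) := nu.map emb

instance : IsProbabilityMeasure mu := by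
  unfold mu
  exact Measure.isProbabilityMeasure_map (measurable_of_countable _).aemeasurable

theorem pi_mu (S : Set (Fin 3 → Fin 1 → ℤ)) (hSm : MeasurableSet S) :
    Measure.pi (fun _ : Fin 3 => mu) S
      = Measure.pi (fun _ : Fin 3 => nu) ((fun (ω : Fin 3 → Fin 6) i => emb (ω i)) ⁻¹' S) := by
  have hm : Measurable (fun (ω : Fin 3 → Fin 6) (i : Fin 3) => emb (ω i)) :=
    measurable_of_countable _
  rw [← Measure.map_apply hm hSm]
  congr 1
  unfold mu
  rw [Measure.pi_map_pi (fun _ => (measurable_of_countable emb).aemeasurable)]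

/-- The negation of the preceding statement: For every law μ on ℤ^d and iid X₁..Xₙ ~ μ, some signs wᵢ ∈ {±1} satisfy P(∑aᵢXᵢ = x) ≤ max over k ∈ ℤ^d of P(∑wᵢXᵢ = k), for all nonzero real aᵢ and all x ∈ ℝ^d. -/
theorem result :
    ¬ (∀ (n d : ℕ) (μ : Measure (Fin d → ℤ)) [IsProbabilityMeasure μ],
      ∃ w : Fin n → ℤ, (∀ i, w i = 1 ∨ w i = -1) ∧
        ∀ a : Fin n → ℝ, (∀ i, a i ≠ 0) → ∀ x : Fin d → ℝ,
          Measure.pi (fun _ : Fin n => μ)
              {ω : Fin n → Fin d → ℤ | ∑ i, a i • (fun j => ((ω i j : ℤ) : ℝ)) = x}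
            ≤ ⨆ k : Fin d → ℤ, Measure.pi (fun _ : Fin n => μ)
              {ω : Fin n → Fin d → ℤ | ∑ i, w i • ω i = k}) := by
  intro H
  obtain ⟨w, hw, H⟩ := H 3 1 mu
  have H1 := H ![1, 1, 2] (by intro i; fin_cases i <;> norm_num) (fun _ => 18)
  rw [pi_mu _ (Set.to_countable _).measurableSet] at H1
  rw [pi_nu _ (fun ω => 1 * pt (ω 0) + 1 * pt (ω 1) + 2 * pt (ω 2) = 18), cnt_eq_tab,
    tab_target] at H1
  · have H2 : (⨆ k : Fin 1 → ℤ, Measure.pi (fun _ : Fin 3 => mu)
        {ω : Fin 3 → Fin 1 → ℤ | ∑ i, w i • ω i = k}) ≤ ((412 : ℕ) : ℝ≥0∞) / 4913 := by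
      refine iSup_le fun k => ?_
      rw [pi_mu _ (Set.to_countable _).measurableSet]
      rw [pi_nu _ (fun ω => w 0 * pt (ω 0) + w 1 * pt (ω 1) + w 2 * pt (ω 2) = k 0), cnt_eq_tab]
      · gcongr
        exact tab_le _ _ _ (hw 0) (hw 1) (hw 2) _
      · intro ω
        simp only [Set.mem_preimage, Set.mem_ofPred_eq, Fin.sum_univ_three]
        constructor
        · intro h
          have := congrFun h 0
          simpa [emb] using this
        · intro h
          funext j
          have hj : j = 0 := Subsingleton.elim _ _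
          subst hj
          simpa [emb] using h
    have H3 := H1.trans H2
    rw [ENNReal.div_le_iff (by norm_num) (by norm_num)] at H3
    rw [ENNReal.div_mul_cancel (by norm_num) (by norm_num)] at H3
    have H4 : (416 : ℕ) ≤ 412 := by exact_mod_cast H3
    omega
  · intro ω
    simp only [Set.mem_preimage, Set.mem_ofPred_eq, Fin.sum_univ_three]
    constructor
    · intro h
      have h0 := congrFun h 0
      simp [emb] at h0
      have h1 : ((1 * pt (ω 0) + 1 * pt (ω 1) + 2 * pt (ω 2) : ℤ) : ℝ) = ((18 : ℤ) : ℝ) := by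
        push_cast
        linarith
      exact_mod_cast h1
    · intro h
      funext j
      have h1 : ((1 * pt (ω 0) + 1 * pt (ω 1) + 2 * pt (ω 2) : ℤ) : ℝ) = ((18 : ℤ) : ℝ) := by
        rw [h]
      push_cast at h1
      simp [emb]
      linarith

end Pool.Agent.S19204
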