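import Pool.Statements.S19216
import Pool.Agent.H512R3.Khin2

set_option autoImplicit false
open MeasureTheory ProbabilityTheory Matrix
open Pool Pool.MP_25279b_pr

namespace Pool.Agent.S19216

open Pool.Agent.H512R3.Khin

/-- transport of the bilinear form along a reindexing. -/
lemma form_submatrix {d : ℕ} {ι : Type} [Fintype ι] [DecidableEq ι] (e : Fin d ≃ ι)
    (M : Matrix ι ι ℝ) (v w : Fin d → ℝ) :
    w ⬝ᵥ (M.submatrix e e *ᵥ v) = (w ∘ e.symm) ⬝ᵥ (M *ᵥ (v ∘ e.symm)) := by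
  rw [Matrix.submatrix_mulVec_equiv]
  simp only [dotProduct, Function.comp]
  exact Fintype.sum_equiv e _ _ fun x => by simp

lemma norm_comp {d : ℕ} {ι : Type} [Fintype ι] (e : Fin d ≃ ι) (v : Fin d → ℝ) :
    (v ∘ e.symm) ⬝ᵥ (v ∘ e.symm) = v ⬝ᵥ v := by
  simp only [dotProduct, Function.comp]
  exact (Fintype.sum_equiv e _ _ fun x => by simp).symm

/-- the bound for parameters `k` (number of legs), `N` (excited states per leg). -/
lemma main_ineq (k N : ℕ) (hN : 0 < N) (C : ℝ) (hC : 0 ≤ C)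
    (H : ∀ (d n : ℕ) (A : Fin n → Matrix (Fin d) (Fin d) ℝ),
      ∫ g, sSup {x : ℝ | ∃ v w : Fin d → ℝ, v ⬝ᵥ v = 1 ∧ w ⬝ᵥ w = 1 ∧
              x = w ⬝ᵥ ((∑ i, g i • A i) *ᵥ v)}
          ∂(Measure.pi fun _ : Fin n => gaussianReal 0 1)
        ≤ C * (Real.sqrt (sSup {x : ℝ | ∃ v w : Fin d → ℝ, v ⬝ᵥ v = 1 ∧ w ⬝ᵥ w = 1 ∧
                  x = w ⬝ᵥ ((∑ i, (A i)ᵀ * A i) *ᵥ v)})
              + Real.sqrt (sSup {x : ℝ | ∃ v w : Fin d → ℝ, v ⬝ᵥ v = 1 ∧ w ⬝ᵥ w = 1 ∧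
                  x = w ⬝ᵥ ((∑ i, A i * (A i)ᵀ) *ᵥ v)})
              + Real.sqrt (Real.log d) *
                  Real.sqrt (sSup {x : ℝ | ∃ v w : Fin d → ℝ, v ⬝ᵥ v = 1 ∧ w ⬝ᵥ w = 1 ∧
                    x = ∑ i, (w ⬝ᵥ (A i *ᵥ v)) ^ 2}))) :
    (k * N : ℝ) * m1 / (2 * Real.sqrt N) ≤
      C * (Real.sqrt k + Real.sqrt (k * N) + Real.sqrt (k * Real.log (N + 1)) * Real.sqrt k) := by
  classical
  let d := Fintype.card (Dk k N)
  let eD : Fin d ≃ Dk k N := (Fintype.equivFin (Dk k N)).symm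
  let n := Fintype.card (Fin k × Fin N)
  let eJ : Fin n ≃ Fin k × Fin N := (Fintype.equivFin (Fin k × Fin N)).symm
  have hd : (d : ℝ) = (N + 1 : ℝ) ^ k := by
    simp [d, Dk]
  have hn : (n : ℝ) = k * N := by
    simp [n]
  let A : Fin n → Matrix (Fin d) (Fin d) ℝ := fun i => (B (eJ i)).submatrix eD eD
  have hsq : ∀ (v w : Fin d → ℝ), v ⬝ᵥ v = 1 → w ⬝ᵥ w = 1 →
      ∑ i, (w ⬝ᵥ (A i *ᵥ v)) ^ 2 ≤ k := by
    intro v w hv hw
    have h1 : ∑ i, (w ⬝ᵥ (A i *ᵥ v)) ^ 2 =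
        ∑ p, ((w ∘ eD.symm) ⬝ᵥ (B p *ᵥ (v ∘ eD.symm))) ^ 2 := by
      refine Fintype.sum_equiv eJ _ _ fun i => ?_
      rw [form_submatrix]
    rw [h1]
    exact sum_sq_le _ _ (by rw [norm_comp, hv]) (by rw [norm_comp, hw])
  have hA : ∀ (v w : Fin d → ℝ), v ⬝ᵥ v = 1 → w ⬝ᵥ w = 1 → ∀ i,
      |w ⬝ᵥ (A i *ᵥ v)| ≤ Real.sqrt k := by
    intro v w hv hw i
    apply Real.abs_le_sqrt
    refine le_trans ?_ (hsq v w hv hw)
    exact Finset.single_le_sum (f := fun i => (w ⬝ᵥ (A i *ᵥ v)) ^ 2)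
      (fun i _ => sq_nonneg _) (Finset.mem_univ i)
  have hK : 0 ≤ Real.sqrt k := Real.sqrt_nonneg _
  -- lower bound
  have hlow : ∀ g : Fin n → ℝ, (∑ i, |g i|) / (2 * Real.sqrt N) ≤ sSup (FS A g) := by
    intro g
    let s : Fin k × Fin N → ℝ := fun p => if 0 ≤ g (eJ.symm p) then 1 else -1
    have hs : ∀ p, s p ^ 2 = 1 := by
      intro p; simp only [s]; split_ifs <;> norm_num
    let v : Fin d → ℝ := tv s ∘ eD
    have hvs : v ∘ eD.symm = tv s := by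
      ext f; simp [v]
    have hv : v ⬝ᵥ v = 1 := by
      rw [← norm_comp eD, hvs]; exact tv_norm hN s hs
    refine le_csSup (FS_bdd hK hA g) ⟨v, v, hv, hv, ?_⟩
    rw [form_sum, Finset.sum_div]
    refine Finset.sum_congr rfl fun i _ => ?_
    rw [form_submatrix, hvs, tv_form hN s hs]
    have h2 : |g i| = g i * s (eJ i) := by
      simp only [s, Equiv.symm_apply_apply]
      split_ifs with h
      · rw [abs_of_nonneg h, mul_one]
      · rw [abs_of_neg (not_le.1 h)]; ring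
    rw [h2]; ring
  have hlowint : (k * N : ℝ) * m1 / (2 * Real.sqrt N) ≤
      ∫ g, sSup (FS A g) ∂(Measure.pi fun _ : Fin n => gaussianReal 0 1) := by
    have h1 : ∫ g : Fin n → ℝ, (∑ i, |g i|) / (2 * Real.sqrt N)
        ∂(Measure.pi fun _ : Fin n => gaussianReal 0 1) = (k * N : ℝ) * m1 / (2 * Real.sqrt N) := by
      rw [integral_div, integral_finsetSum _ (fun i _ => integrable_abs_coord hK hA i)]
      simp only [integral_abs_coord]
      rw [Finset.sum_const, Finset.card_univ, Fintype.card_fin, nsmul_eq_mul, hn]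
    rw [← h1]
    refine integral_mono ?_ (FS_integrable hK hA) hlow
    exact (integrable_finsetSum _ fun i _ => integrable_abs_coord hK hA i).div_const _
  have hmain := H d n A
  have hFS : ∫ g, sSup {x : ℝ | ∃ v w : Fin d → ℝ, v ⬝ᵥ v = 1 ∧ w ⬝ᵥ w = 1 ∧
              x = w ⬝ᵥ ((∑ i, g i • A i) *ᵥ v)}
          ∂(Measure.pi fun _ : Fin n => gaussianReal 0 1) =
      ∫ g, sSup (FS A g) ∂(Measure.pi fun _ : Fin n => gaussianReal 0 1) := rfl
  rw [hFS] at hmain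
  refine hlowint.trans (hmain.trans ?_)
  refine mul_le_mul_of_nonneg_left ?_ hC
  refine add_le_add (add_le_add ?_ ?_) ?_
  · apply Real.sqrt_le_sqrt
    refine Real.sSup_le ?_ (by positivity)
    rintro x ⟨v, w, hv, hw, rfl⟩
    have h1 : ∑ i, (A i)ᵀ * A i = (Matrix.diagonal (fun f : Dk k N =>
        ∑ p : Fin k × Fin N, (if f p.1 = some p.2 then (1 : ℝ) else 0))).submatrix eD eD := by
      have h2 : ∀ i, (A i)ᵀ * A i = (Matrix.diagonal (fun f : Dk k N =>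
          if f (eJ i).1 = some (eJ i).2 then (1 : ℝ) else 0)).submatrix eD eD := by
        intro i
        rw [← BT_mul_B, Matrix.submatrix_mul _ _ eD eD eD eD.bijective]
        rfl
      simp only [h2]
      ext a b
      rw [Matrix.sum_apply]
      simp only [Matrix.submatrix_apply, Matrix.diagonal_apply]
      split_ifs with hab
      · exact Fintype.sum_equiv eJ _ _ fun i => rfl
      · simp
    rw [h1, form_submatrix]
    refine diag_bound _ _ ?_ ?_ _ _ (by rw [norm_comp, hv]) (by rw [norm_comp, hw])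
    · intro f
      exact Finset.sum_nonneg fun p _ => by split_ifs <;> norm_num
    · intro f
      rw [Fintype.sum_prod_type]
      calc ∑ j : Fin k, ∑ i : Fin N, (if f j = some i then (1 : ℝ) else 0)
          ≤ ∑ j : Fin k, (1 : ℝ) := by
            refine Finset.sum_le_sum fun j _ => ?_
            cases hfj : f j with
            | none => simp
            | some a => simp
        _ = k := by simp
  · apply Real.sqrt_le_sqrt
    refine Real.sSup_le ?_ (by positivity)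
    rintro x ⟨v, w, hv, hw, rfl⟩
    have h1 : ∑ i, A i * (A i)ᵀ = (Matrix.diagonal (fun f : Dk k N =>
        ∑ p : Fin k × Fin N, (if f p.1 = none then (1 : ℝ) else 0))).submatrix eD eD := by
      have h2 : ∀ i, A i * (A i)ᵀ = (Matrix.diagonal (fun f : Dk k N =>
          if f (eJ i).1 = none then (1 : ℝ) else 0)).submatrix eD eD := by
        intro i
        rw [← B_mul_BT (eJ i), Matrix.submatrix_mul _ _ eD eD eD eD.bijective]
        rfl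
      simp only [h2]
      ext a b
      rw [Matrix.sum_apply]
      simp only [Matrix.submatrix_apply, Matrix.diagonal_apply]
      split_ifs with hab
      · exact Fintype.sum_equiv eJ _ _ fun i => rfl
      · simp
    rw [h1, form_submatrix]
    refine diag_bound _ _ ?_ ?_ _ _ (by rw [norm_comp, hv]) (by rw [norm_comp, hw])
    · intro f
      exact Finset.sum_nonneg fun p _ => by split_ifs <;> norm_num
    · intro f
      calc ∑ p : Fin k × Fin N, (if f p.1 = none then (1 : ℝ) else 0)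
          ≤ ∑ p : Fin k × Fin N, (1 : ℝ) := by
            refine Finset.sum_le_sum fun p _ => ?_
            split_ifs <;> norm_num
        _ = k * N := by simp
  · have h1 : Real.log d = k * Real.log (N + 1) := by
      rw [hd, Real.log_pow]
    rw [h1]
    refine mul_le_mul_of_nonneg_left ?_ (Real.sqrt_nonneg _)
    apply Real.sqrt_le_sqrt
    refine Real.sSup_le ?_ (by positivity)
    rintro x ⟨v, w, hv, hw, rfl⟩
    exact hsq v w hv hw

/-- The negation of the preceding statement: There is a constant C such that for every real Gaussian matrix X = Σ gᵢAᵢ of size d, E‖X‖ ≤ C(‖ΣAᵢᵀAᵢ‖^{1/2} + ‖ΣAᵢAᵢᵀ‖^{1/2} + √(log d)·σ_*), with σ_*² the sup over unit v,w of Σ⟨Aᵢv,w⟩². -/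
theorem result :
    ¬ (∃ C : ℝ, ∀ (d n : ℕ) (A : Fin n → Matrix (Fin d) (Fin d) ℝ),
      ∫ g, sSup {x : ℝ | ∃ v w : Fin d → ℝ, v ⬝ᵥ v = 1 ∧ w ⬝ᵥ w = 1 ∧
              x = w ⬝ᵥ ((∑ i, g i • A i) *ᵥ v)}
          ∂(Measure.pi fun _ : Fin n => gaussianReal 0 1)
        ≤ C * (Real.sqrt (sSup {x : ℝ | ∃ v w : Fin d → ℝ, v ⬝ᵥ v = 1 ∧ w ⬝ᵥ w = 1 ∧
                  x = w ⬝ᵥ ((∑ i, (A i)ᵀ * A i) *ᵥ v)})
              + Real.sqrt (sSup {x : ℝ | ∃ v w : Fin d → ℝ, v ⬝ᵥ v = 1 ∧ w ⬝ᵥ w = 1 ∧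
                  x = w ⬝ᵥ ((∑ i, A i * (A i)ᵀ) *ᵥ v)})
              + Real.sqrt (Real.log d) *
                  Real.sqrt (sSup {x : ℝ | ∃ v w : Fin d → ℝ, v ⬝ᵥ v = 1 ∧ w ⬝ᵥ w = 1 ∧
                    x = ∑ i, (w ⬝ᵥ (A i *ᵥ v)) ^ 2}))) := by
  rintro ⟨C0, H0⟩
  -- enlarge the constant
  obtain ⟨C, hC, H⟩ : ∃ C : ℝ, 0 < C ∧ ∀ (d n : ℕ) (A : Fin n → Matrix (Fin d) (Fin d) ℝ),
      ∫ g, sSup {x : ℝ | ∃ v w : Fin d → ℝ, v ⬝ᵥ v = 1 ∧ w ⬝ᵥ w = 1 ∧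
              x = w ⬝ᵥ ((∑ i, g i • A i) *ᵥ v)}
          ∂(Measure.pi fun _ : Fin n => gaussianReal 0 1)
        ≤ C * (Real.sqrt (sSup {x : ℝ | ∃ v w : Fin d → ℝ, v ⬝ᵥ v = 1 ∧ w ⬝ᵥ w = 1 ∧
                  x = w ⬝ᵥ ((∑ i, (A i)ᵀ * A i) *ᵥ v)})
              + Real.sqrt (sSup {x : ℝ | ∃ v w : Fin d → ℝ, v ⬝ᵥ v = 1 ∧ w ⬝ᵥ w = 1 ∧
                  x = w ⬝ᵥ ((∑ i, A i * (A i)ᵀ) *ᵥ v)})
              + Real.sqrt (Real.log d) *
                  Real.sqrt (sSup {x : ℝ | ∃ v w : Fin d → ℝ, v ⬝ᵥ v = 1 ∧ w ⬝ᵥ w = 1 ∧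
                    x = ∑ i, (w ⬝ᵥ (A i *ᵥ v)) ^ 2})) := by
    refine ⟨max C0 1, lt_of_lt_of_le one_pos (le_max_right _ _), fun d n A => ?_⟩
    refine (H0 d n A).trans (mul_le_mul_of_nonneg_right (le_max_left _ _) ?_)
    positivity
  obtain ⟨M, hM⟩ := exists_nat_gt (8 * C / m1)
  have hm := m1_pos
  have hM0 : 0 < (M : ℝ) := lt_of_le_of_lt (by positivity) hM
  have hM1 : 1 ≤ M := by exact_mod_cast hM0
  have hM1' : (1 : ℝ) ≤ M := by exact_mod_cast hM1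
  have hI := main_ineq (M ^ 4) (M ^ 4) (by positivity) C hC.le H
  have hs4 : Real.sqrt ((M ^ 4 : ℕ) : ℝ) = (M : ℝ) ^ 2 := by
    rw [show ((M ^ 4 : ℕ) : ℝ) = ((M : ℝ) ^ 2) ^ 2 by push_cast; ring]
    exact Real.sqrt_sq (by positivity)
  have hs8 : Real.sqrt (((M ^ 4 : ℕ) : ℝ) * ((M ^ 4 : ℕ) : ℝ)) = (M : ℝ) ^ 4 := by
    rw [Real.sqrt_mul_self (by positivity)]; push_cast; ring
  have hlog : Real.log (((M ^ 4 : ℕ) : ℝ) + 1) ≤ 4 * M := by
    have h1 : ((M ^ 4 : ℕ) : ℝ) + 1 ≤ ((M : ℝ) + 1) ^ 4 := by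
      push_cast
      nlinarith [hM0, pow_pos hM0 2, pow_pos hM0 3]
    calc Real.log (((M ^ 4 : ℕ) : ℝ) + 1) ≤ Real.log (((M : ℝ) + 1) ^ 4) :=
          Real.log_le_log (by positivity) h1
      _ = 4 * Real.log ((M : ℝ) + 1) := by rw [Real.log_pow]; norm_num
      _ ≤ 4 * M := by
          have := Real.log_le_sub_one_of_pos (show (0 : ℝ) < (M : ℝ) + 1 by positivity)
          linarith
  have hs5 : Real.sqrt (((M ^ 4 : ℕ) : ℝ) * Real.log (((M ^ 4 : ℕ) : ℝ) + 1)) ≤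
      (M : ℝ) ^ 2 * (2 * M) := by
    rw [Real.sqrt_le_left (by positivity)]
    calc ((M ^ 4 : ℕ) : ℝ) * Real.log (((M ^ 4 : ℕ) : ℝ) + 1) ≤ ((M ^ 4 : ℕ) : ℝ) * (4 * M) :=
          mul_le_mul_of_nonneg_left hlog (by positivity)
      _ ≤ ((M : ℝ) ^ 2 * (2 * M)) ^ 2 := by
          push_cast
          have : (M : ℝ) ^ 5 ≤ (M : ℝ) ^ 6 := pow_le_pow_right₀ hM1' (by norm_num)
          nlinarith
  rw [hs4, hs8] at hI
  have h3 : ((M ^ 4 : ℕ) : ℝ) * ((M ^ 4 : ℕ) : ℝ) * m1 / (2 * (M : ℝ) ^ 2) = (M : ℝ) ^ 6 * m1 / 2 := by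
    push_cast
    field_simp
  rw [h3] at hI
  have h4 : C * ((M : ℝ) ^ 2 + (M : ℝ) ^ 4 +
      Real.sqrt (((M ^ 4 : ℕ) : ℝ) * Real.log (((M ^ 4 : ℕ) : ℝ) + 1)) * (M : ℝ) ^ 2) ≤
      C * (4 * (M : ℝ) ^ 5) := by
    refine mul_le_mul_of_nonneg_left ?_ hC.le
    have h5 : Real.sqrt (((M ^ 4 : ℕ) : ℝ) * Real.log (((M ^ 4 : ℕ) : ℝ) + 1)) * (M : ℝ) ^ 2 ≤
        (M : ℝ) ^ 2 * (2 * M) * (M : ℝ) ^ 2 := mul_le_mul_of_nonneg_right hs5 (by positivity)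
    have h6 : (M : ℝ) ^ 2 ≤ (M : ℝ) ^ 5 := pow_le_pow_right₀ hM1' (by norm_num)
    have h7 : (M : ℝ) ^ 4 ≤ (M : ℝ) ^ 5 := pow_le_pow_right₀ hM1' (by norm_num)
    nlinarith
  have h8 : (M : ℝ) ^ 6 * m1 / 2 ≤ C * (4 * (M : ℝ) ^ 5) := hI.trans h4
  have h9 : (M : ℝ) * m1 ≤ 8 * C := by
    have h10 : (M : ℝ) ^ 5 * ((M : ℝ) * m1) ≤ (M : ℝ) ^ 5 * (8 * C) := by nlinarith
    exact le_of_mul_le_mul_left h10 (by positivity)
  have h11 : 8 * C < M * m1 := by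
    rwa [div_lt_iff₀ hm] at hM
  linarith

end Pool.Agent.S19216
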