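import Pool.Statements.S19240
import Pool.Agent.H29R3.SP.Incr
import Pool.Agent.H29R3.SP.NoMeas

set_option autoImplicit false
open Filter Topology MeasureTheory
open Pool Pool.MP_2c66a4_pr

namespace Pool.Agent.S19240

open ProbabilityTheory Pool.Agent.H29R3.SP

/-- The negation of the preceding statement: For 0<α<1 and any symmetric α-stable Lévy process, almost surely the graph over [0,1] has Fourier dimension 1: for each s<1 some compactly carried probability measure on it has Fourier decay ‖ξ‖^(-s/2), and for no s>1. -/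
theorem result :
    ¬ (∀ (α : ℝ), 0 < α → α < 1 →
  ∀ (Ω : Type) [MeasurableSpace Ω] (P : Measure Ω) [IsProbabilityMeasure P] (X : ℝ → Ω → ℝ),
    (∀ t : ℝ, Measurable (X t)) →
    (∀ᵐ ω ∂P, X 0 ω = 0) →
    (∀ᵐ ω ∂P, ∀ t : ℝ, 0 ≤ t →
        ContinuousWithinAt (fun s => X s ω) (Set.Ici t) t ∧
        (0 < t → ∃ l : ℝ, Tendsto (fun s => X s ω) (𝓝[<] t) (𝓝 l))) →
    (∀ (n : ℕ) (t : Fin (n + 1) → ℝ), 0 ≤ t 0 → StrictMono t →
        ProbabilityTheory.iIndepFun
          (fun (i : Fin n) (ω : Ω) => X (t i.succ) ω - X (t i.castSucc) ω) P) →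
    (∀ s t : ℝ, 0 ≤ s → s ≤ t → ∀ ξ : ℝ,
        ∫ ω, Complex.exp (((ξ * (X t ω - X s ω) : ℝ) : ℂ) * Complex.I) ∂P
          = ((Real.exp (-(t - s) * |ξ| ^ α) : ℝ) : ℂ)) →
    ∀ᵐ ω ∂P,
      (∀ s : ℝ, 0 < s → s < 1 →
        ∃ (μ : Measure (ℝ × ℝ)) (K : Set (ℝ × ℝ)),
          IsProbabilityMeasure μ ∧ IsCompact K ∧
          K ⊆ {p : ℝ × ℝ | p.1 ∈ Set.Icc (0 : ℝ) 1 ∧ p.2 = X p.1 ω} ∧
          μ Kᶜ = 0 ∧
          ∃ C : ℝ, ∀ ξ : ℝ × ℝ, 1 ≤ ‖ξ‖ →
            ‖∫ p, Complex.exp (((ξ.1 * p.1 + ξ.2 * p.2 : ℝ) : ℂ) * Complex.I) ∂μ‖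
              ≤ C * ‖ξ‖ ^ (-s / 2)) ∧
      (∀ s : ℝ, 1 < s →
        ¬ ∃ (μ : Measure (ℝ × ℝ)) (K : Set (ℝ × ℝ)),
          IsProbabilityMeasure μ ∧ IsCompact K ∧
          K ⊆ {p : ℝ × ℝ | p.1 ∈ Set.Icc (0 : ℝ) 1 ∧ p.2 = X p.1 ω} ∧
          μ Kᶜ = 0 ∧
          ∃ C : ℝ, ∀ ξ : ℝ × ℝ, 1 ≤ ‖ξ‖ →
            ‖∫ p, Complex.exp (((ξ.1 * p.1 + ξ.2 * p.2 : ℝ) : ℂ) * Complex.I) ∂μ‖
              ≤ C * ‖ξ‖ ^ (-s / 2))) := by
  intro H
  obtain ⟨κ, hκ0, hpsi⟩ := exists_kappa
  have hκ := hκ0.le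
  have hone : ∀ s t : ℝ, 0 ≤ s → s ≤ t → ∀ ξ : ℝ,
        ∫ ω, Complex.exp (((ξ * (XX κ t ω - XX κ s ω) : ℝ) : ℂ) * Complex.I) ∂PP
          = ((Real.exp (-(t - s) * |ξ| ^ (1 / 4 : ℝ)) : ℝ) : ℂ) := by
    intro s t hs hst ξ
    have h := char_incr hκ hpsi (J := Fin 1) (fun _ => s) (fun _ => t) (fun _ => hs) (fun _ => hst)
      (fun i j hij => absurd (Subsingleton.elim i j) hij) (fun _ => ξ)
    simpa using h
  have H1 := H (1 / 4) (by norm_num) (by norm_num) Om PP (XX κ) (XX_meas κ) ?_ ?_ ?_ hone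
  · obtain ⟨ω, hω1, hω2⟩ := (H1.and (ae_HS hκ)).exists
    obtain ⟨μ, K, hμ, -, hK, hK0, C, hC⟩ := hω1.1 (3 / 4) (by norm_num) (by norm_num)
    exact hω2.no_measure μ K hK hK0 C hC
  · refine ae_of_all _ fun ω => ?_
    unfold XX path
    have h0 : ∀ i, (if 0 < ju ω i ∧ ju ω i ≤ 0 then ja κ ω i else 0) = 0 := by
      intro i
      rw [if_neg]
      rintro ⟨h1, h2⟩
      exact absurd h1 (not_lt.2 h2)
    simp_rw [h0]
    exact tsum_zero
  · filter_upwards [ae_HS hκ] with ω hω t _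
    exact ⟨hω.right_cont t, fun _ => hω.left_lim t⟩
  · intro n t ht0 htm
    have hm : ∀ i : Fin n, AEMeasurable (fun ω : Om => XX κ (t i.succ) ω - XX κ (t i.castSucc) ω) PP :=
      fun i => ((XX_meas κ _).sub (XX_meas κ _)).aemeasurable
    rw [iIndepFun_iff_charFun_pi hm]
    intro ξ
    have ht : ∀ i, 0 ≤ t i := fun i => ht0.trans (htm.monotone (Fin.zero_le i))
    have hstep : ∀ i : Fin n, t i.castSucc ≤ t i.succ := fun i =>
      htm.monotone (Fin.castSucc_lt_succ).le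
    have h := char_incr hκ hpsi (J := Fin n) (fun i => t i.castSucc) (fun i => t i.succ)
      (fun i => ht _) hstep ?_ (fun i => ξ i)
    · rw [charFun_apply, integral_map]
      · calc _ = ∫ ω, Complex.exp (((∑ j, ξ j * (XX κ (t j.succ) ω - XX κ (t j.castSucc) ω) : ℝ) : ℂ)
              * Complex.I) ∂PP := by
              refine integral_congr_ae (ae_of_all _ fun ω => ?_)
              simp only [PiLp.inner_apply]
              congr 3
          _ = _ := h
          _ = _ := by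
              refine Finset.prod_congr rfl fun j _ => ?_
              rw [charFun_apply_real, integral_map (hm j) (by fun_prop),
                ← hone _ _ (ht _) (hstep j) (ξ j)]
              refine integral_congr_ae (ae_of_all _ fun ω => ?_)
              simp only
              congr 2
              push_cast
              ring
      · have : AEMeasurable (fun ω : Om => fun i : Fin n =>
            XX κ (t i.succ) ω - XX κ (t i.castSucc) ω) PP := aemeasurable_pi_iff.2 hm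
        fun_prop
      · fun_prop
    · intro i j hij
      rw [Set.disjoint_left]
      rintro x ⟨hx1, hx2⟩ ⟨hx3, hx4⟩
      rcases lt_or_gt_of_ne hij with h | h
      · have : t i.succ ≤ t j.castSucc := htm.monotone (by
          rw [Fin.le_def]
          simp only [Fin.val_succ, Fin.val_castSucc]
          exact h)
        linarith
      · have : t j.succ ≤ t i.castSucc := htm.monotone (by
          rw [Fin.le_def]
          simp only [Fin.val_succ, Fin.val_castSucc]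
          exact h)
        linarith

end Pool.Agent.S19240
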