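import Pool.Statements.S19248
import Pool.Agent.H308R3.C2

set_option autoImplicit false
open Filter Topology
open Pool Pool.MP_2ff427_pr

namespace Pool.Agent.S19248

open MeasureTheory Set Pool.Agent.H308R3.C

/-- the diagonal rectangle -/
def DR (l w : ℝ) : Set (ℝ × ℝ) :=
  {p : ℝ × ℝ | 0 ≤ p.1 + p.2 ∧ p.1 + p.2 ≤ Real.sqrt 2 * l ∧ |p.1 - p.2| ≤ Real.sqrt 2 * w / 2}

/-- the linear map `p ↦ (p.1 + p.2, p.1 - p.2)` -/
noncomputable def fL : ℝ × ℝ →ₗ[ℝ] ℝ × ℝ :=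
  Matrix.toLin (Module.Basis.finTwoProd ℝ) (Module.Basis.finTwoProd ℝ) !![1, 1; 1, -1]

lemma fL_apply (p : ℝ × ℝ) : fL p = (p.1 + p.2, p.1 - p.2) := by
  unfold fL
  rw [Matrix.toLin_finTwoProd_apply]
  simp [sub_eq_add_neg]

lemma fL_det : LinearMap.det fL = -2 := by
  unfold fL
  rw [LinearMap.det_toLin, Matrix.det_fin_two_of]
  norm_num

lemma DR_eq (l w : ℝ) : DR l w = fL ⁻¹' (Icc 0 (Real.sqrt 2 * l) ×ˢ
    Icc (-(Real.sqrt 2 * w / 2)) (Real.sqrt 2 * w / 2)) := by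
  ext p
  simp only [DR, mem_ofPred_eq, mem_preimage, fL_apply, mem_prod, mem_Icc, abs_le]
  tauto

lemma measurableSet_DR (l w : ℝ) : MeasurableSet (DR l w) := by
  rw [DR_eq]
  have hm : Measurable fL := fL.continuous_of_finiteDimensional.measurable
  exact hm (measurableSet_Icc.prod measurableSet_Icc)

lemma volume_DR {l w : ℝ} (hl : 0 ≤ l) (_hw : 0 ≤ w) : volume (DR l w) = ENNReal.ofReal (l * w) := by
  have hl' : 0 ≤ Real.sqrt 2 * l - 0 := by rw [sub_zero]; positivity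
  rw [DR_eq, Measure.addHaar_preimage_linearMap volume (by rw [fL_det]; norm_num), fL_det,
    Measure.volume_eq_prod, Measure.prod_prod, Real.volume_Icc, Real.volume_Icc,
    ← ENNReal.ofReal_mul hl', ← ENNReal.ofReal_mul (by positivity)]
  congr 1
  have h2 : Real.sqrt 2 * Real.sqrt 2 = 2 := Real.mul_self_sqrt (by norm_num)
  rw [abs_of_neg (by norm_num)]
  calc -(-2 : ℝ)⁻¹ * ((Real.sqrt 2 * l - 0) * (Real.sqrt 2 * w / 2 - -(Real.sqrt 2 * w / 2)))
      = (Real.sqrt 2 * Real.sqrt 2) / 2 * (l * w) := by ring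
    _ = l * w := by rw [h2]; ring

lemma DR_superadd {l w : ℝ} (hl : 0 < l) (hw : 0 < w) :
    2 * EE (DR l w) ≤ EE (DR (2 * l + 2 * w) w) := by
  set t : ℝ := Real.sqrt 2 * (l + 2 * w) / 2 with ht
  have h2 : 0 < Real.sqrt 2 := Real.sqrt_pos.2 (by norm_num)
  have key := EE_superadd (D := DR (2 * l + 2 * w) w) (A := DR l w)
    (A' := (fun p : ℝ × ℝ => p + (-t, -t)) ⁻¹' (DR l w)) (measurableSet_DR _ _)
    (measurableSet_DR _ _) ((measurable_add_const _) (measurableSet_DR _ _))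
    (by rw [volume_DR (by positivity) hw.le]; exact ENNReal.ofReal_ne_top) ?_ ?_ ?_
  · rw [EE_shift] at key
    linarith
  · rintro p ⟨h1, h3, h4⟩
    refine ⟨h1, h3.trans ?_, h4⟩
    nlinarith
  · rintro p ⟨h1, h3, h4⟩
    simp only [Prod.fst_add, Prod.snd_add] at h1 h3 h4
    have h5 : p.1 + -t - (p.2 + -t) = p.1 - p.2 := by ring
    rw [h5] at h4
    refine ⟨?_, ?_, h4⟩
    · have : 0 ≤ t := by positivity
      linarith
    · have : p.1 + p.2 ≤ Real.sqrt 2 * l + 2 * t := by linarith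
      refine this.trans (le_of_eq ?_)
      rw [ht]; ring
  · rintro p ⟨h1, h3, h4⟩ q ⟨g1, g3, g4⟩
    simp only [Prod.fst_add, Prod.snd_add] at g1 g3 g4
    have h5 : q.1 + -t - (q.2 + -t) = q.1 - q.2 := by ring
    rw [h5] at g4
    rw [abs_le] at h4 g4
    have h6 : 2 * t = Real.sqrt 2 * l + 2 * (Real.sqrt 2 * w) := by rw [ht]; ring
    have h7 : 0 < Real.sqrt 2 * w := by positivity
    constructor
    · linarith
    · linarith

lemma EE_DR {l w : ℝ} (hl : 0 ≤ l) (hw : 0 ≤ w) :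
    (∑' n : ℕ, Real.exp (-(l * w)) / (n.factorial : ℝ) *
              ∫ x in Set.univ.pi (fun _ : Fin n =>
                  {p : ℝ × ℝ | 0 ≤ p.1 + p.2 ∧ p.1 + p.2 ≤ Real.sqrt 2 * l ∧
                    |p.1 - p.2| ≤ Real.sqrt 2 * w / 2}),
                (((sSup {k : ℕ | ∃ s : Finset (Fin n), s.card = k ∧
                    ∀ i ∈ s, ∀ j ∈ s, i ≠ j →
                      (((x i).1 < (x j).1 ∧ (x i).2 < (x j).2) ∨
                       ((x j).1 < (x i).1 ∧ (x j).2 < (x i).2))}) : ℕ) : ℝ)) = EE (DR l w) := by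
  unfold EE
  have hv : volume.real (DR l w) = l * w := by
    unfold Measure.real
    rw [volume_DR hl hw, ENNReal.toReal_ofReal (by positivity)]
  rw [hv]
  congr 1
  funext n
  congr 1
  unfold J chA chSet Pool.Agent.H308R3.C.cmp
  simp only [mem_univ, implies_true, true_and]
  rfl

/-- width function: constant on long blocks -/
noncomputable def wf (l : ℝ) : ℝ := 16 ^ (Nat.log 4096 ⌊l⌋₊)

lemma wf_pos (l : ℝ) : 0 < wf l := by unfold wf; positivity

lemma wf_of {k m : ℕ} (h1 : 4096 ^ k ≤ m) (h2 : m < 4096 ^ (k + 1)) :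
    wf (m : ℝ) = 16 ^ k := by
  unfold wf
  rw [Nat.floor_natCast, Nat.log_eq_of_pow_le_of_lt_pow h1 h2]

lemma wf_tendsto : Tendsto wf atTop atTop := by
  unfold wf
  have h1 : Tendsto (fun k : ℕ => (16 : ℝ) ^ k) atTop atTop :=
    tendsto_pow_atTop_atTop_of_one_lt (by norm_num)
  refine h1.comp ?_
  have h2 : Tendsto (fun m : ℕ => Nat.log 4096 m) atTop atTop := by
    refine tendsto_atTop.2 (fun b => ?_)
    filter_upwards [eventually_ge_atTop (4096 ^ b)] with m hm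
    exact Nat.le_log_of_pow_le (by norm_num) hm
  exact h2.comp tendsto_nat_floor_atTop

lemma wf_le {l : ℝ} (hl : 1 ≤ l) : wf l ≤ l ^ ((1 : ℝ) / 3) := by
  have h1 : (wf l) ^ (3 : ℕ) ≤ l := by
    unfold wf
    rw [← pow_mul, mul_comm, pow_mul]
    have h3 : ⌊l⌋₊ ≠ 0 := by
      have : 1 ≤ ⌊l⌋₊ := Nat.le_floor (by exact_mod_cast hl)
      omega
    have h2 := Nat.pow_log_le_self 4096 h3
    calc ((16 : ℝ) ^ 3) ^ (Nat.log 4096 ⌊l⌋₊) = ((4096 ^ (Nat.log 4096 ⌊l⌋₊) : ℕ) : ℝ) := by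
          push_cast
          norm_num
      _ ≤ (⌊l⌋₊ : ℝ) := by exact_mod_cast h2
      _ ≤ l := Nat.floor_le (by linarith)
  calc wf l = ((wf l) ^ (3 : ℕ)) ^ ((1 : ℝ) / 3) := by
        rw [← Real.rpow_natCast, ← Real.rpow_mul (wf_pos l).le]
        norm_num
    _ ≤ l ^ ((1 : ℝ) / 3) := by
        apply Real.rpow_le_rpow (by have := wf_pos l; positivity) h1 (by norm_num)

lemma wf_small : Tendsto (fun l : ℝ => wf l / l ^ ((2 : ℝ) / 3)) atTop (𝓝 0) := by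
  have h1 : Tendsto (fun l : ℝ => l ^ (-((2 : ℝ) / 3 - 1 / 3))) atTop (𝓝 0) :=
    tendsto_rpow_neg_atTop (by norm_num)
  refine squeeze_zero' ?_ ?_ h1
  · filter_upwards [eventually_ge_atTop 0] with l hl
    have := wf_pos l
    positivity
  · filter_upwards [eventually_ge_atTop 1] with l hl
    have hl0 : 0 < l := by linarith
    rw [div_le_iff₀ (by positivity), ← Real.rpow_add hl0]
    refine (wf_le hl).trans (le_of_eq ?_)
    norm_num

/-- The negation of the preceding statement: There are constants c1,c2>0 such that for every width w(l)→∞ with w/l^(2/3)→0, the expected longest increasing chain of a rate-1 Poisson process in a 45°-rotated l-by-w rectangle equals √2 l − c1 l/w + c2 l^(1/2) w^(-1/4)(1+o(1)). -/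
theorem result :
    ¬ (∃ c₁ c₂ : ℝ, 0 < c₁ ∧ 0 < c₂ ∧
      ∀ w : ℝ → ℝ, Tendsto w atTop atTop →
        Tendsto (fun ℓ : ℝ => w ℓ / ℓ ^ ((2 : ℝ) / 3)) atTop (𝓝 0) →
        Tendsto (fun ℓ : ℝ =>
          ((∑' n : ℕ, Real.exp (-(ℓ * w ℓ)) / (n.factorial : ℝ) *
              ∫ x in Set.univ.pi (fun _ : Fin n =>
                  {p : ℝ × ℝ | 0 ≤ p.1 + p.2 ∧ p.1 + p.2 ≤ Real.sqrt 2 * ℓ ∧
                    |p.1 - p.2| ≤ Real.sqrt 2 * w ℓ / 2}),
                (((sSup {k : ℕ | ∃ s : Finset (Fin n), s.card = k ∧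
                    ∀ i ∈ s, ∀ j ∈ s, i ≠ j →
                      (((x i).1 < (x j).1 ∧ (x i).2 < (x j).2) ∨
                       ((x j).1 < (x i).1 ∧ (x j).2 < (x i).2))}) : ℕ) : ℝ))
            - Real.sqrt 2 * ℓ + c₁ * ℓ / w ℓ)
          / (c₂ * ℓ ^ ((1 : ℝ) / 2) / (w ℓ) ^ ((1 : ℝ) / 4)))
          atTop (𝓝 1)) := by
  rintro ⟨c₁, c₂, hc₁, hc₂, h⟩
  have hlim := h wf wf_tendsto wf_small
  clear h
  -- two subsequences
  set F : ℝ → ℝ := fun l => (EE (DR l (wf l)) - Real.sqrt 2 * l + c₁ * l / wf l) /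
    (c₂ * l ^ ((1 : ℝ) / 2) / (wf l) ^ ((1 : ℝ) / 4)) with hF
  have hFlim : Tendsto F atTop (𝓝 1) := by
    refine hlim.congr' ?_
    filter_upwards [eventually_ge_atTop 0] with l hl
    rw [hF]
    simp only
    rw [← EE_DR hl (wf_pos l).le]
  have ha : Tendsto (fun k : ℕ => ((4096 ^ k : ℕ) : ℝ)) atTop atTop := by
    have h1 : Tendsto (fun k : ℕ => ((4096 : ℝ)) ^ k) atTop atTop :=
      tendsto_pow_atTop_atTop_of_one_lt (by norm_num)
    refine h1.congr (fun k => ?_)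
    push_cast; rfl
  have hb : Tendsto (fun k : ℕ => ((2 * 4096 ^ k + 2 * 16 ^ k : ℕ) : ℝ)) atTop atTop := by
    refine tendsto_atTop_mono (fun k => ?_) ha
    exact_mod_cast (by
      have : 4096 ^ k ≤ 2 * 4096 ^ k + 2 * 16 ^ k := by
        have : 0 ≤ 4096 ^ k := Nat.zero_le _
        omega
      exact this)
  have hFa := hFlim.comp ha
  have hFb := hFlim.comp hb
  have hpow : Tendsto (fun k : ℕ => (2 : ℝ) ^ k) atTop atTop :=
    tendsto_pow_atTop_atTop_of_one_lt (by norm_num)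
  have ev1 := hFa.eventually (lt_mem_nhds (show (0.9 : ℝ) < 1 by norm_num))
  have ev2 := hFb.eventually (gt_mem_nhds (show (1 : ℝ) < 1.1 by norm_num))
  have ev3 := hpow.eventually (eventually_gt_atTop (40 / c₂))
  obtain ⟨k, ⟨⟨hk1, hk2⟩, hk3⟩, hk4⟩ := (((ev1.and ev2).and ev3).and (eventually_ge_atTop 1)).exists
  simp only [Function.comp] at hk1 hk2
  -- numbers
  set a : ℝ := ((4096 ^ k : ℕ) : ℝ) with had
  set b : ℝ := ((2 * 4096 ^ k + 2 * 16 ^ k : ℕ) : ℝ) with hbd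
  set w : ℝ := (16 : ℝ) ^ k with hwd
  have hNat : (2 : ℕ) * 16 ^ k * 8 ≤ 4096 ^ k := by
    have h1 : 4096 ^ k = 16 ^ k * 256 ^ k := by rw [← mul_pow]; norm_num
    rw [h1]
    have h2 : 16 ≤ 256 ^ k := by
      calc 16 ≤ 256 ^ 1 := by norm_num
        _ ≤ 256 ^ k := Nat.pow_le_pow_right (by norm_num) hk4
    calc 2 * 16 ^ k * 8 = 16 ^ k * 16 := by ring
      _ ≤ 16 ^ k * 256 ^ k := Nat.mul_le_mul_left _ h2
  have hwa : wf a = w := by
    refine wf_of le_rfl ?_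
    exact Nat.pow_lt_pow_right (by norm_num) (Nat.lt_succ_self k)
  have hwb : wf b = w := by
    refine wf_of ?_ ?_
    · have : 0 ≤ 16 ^ k := Nat.zero_le _
      omega
    · rw [pow_succ]
      have : 0 < 4096 ^ k := by positivity
      omega
  have hbeq : b = 2 * a + 2 * w := by
    rw [hbd, had, hwd]; push_cast; ring
  have ha0 : 0 < a := by rw [had]; positivity
  have hw0 : 0 < w := by positivity
  have hb0 : 0 < b := by rw [hbeq]; positivity
  have hb94 : b ≤ 9 / 4 * a := by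
    rw [hbeq]
    have : (2 : ℝ) * w * 8 ≤ a := by
      rw [had, hwd]; exact_mod_cast hNat
    linarith
  have hsup := DR_superadd ha0 hw0
  rw [← hbeq] at hsup
  rw [hF] at hk1 hk2
  simp only [hwa, hwb] at hk1 hk2
  -- powers
  set s : ℝ := a ^ ((1 : ℝ) / 2) with hsd
  set r : ℝ := w ^ ((1 : ℝ) / 4) with hrd
  have hs : s = (64 : ℝ) ^ k := by
    rw [hsd, had]
    have : ((4096 ^ k : ℕ) : ℝ) = ((64 : ℝ) ^ k) ^ (2 : ℝ) := by
      rw [Real.rpow_two]
      push_cast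
      rw [← pow_mul, mul_comm, pow_mul]
      norm_num
    rw [this, ← Real.rpow_mul (by positivity)]
    norm_num
  have hr : r = (2 : ℝ) ^ k := by
    rw [hrd, hwd]
    have : (16 : ℝ) ^ k = ((2 : ℝ) ^ k) ^ (4 : ℝ) := by
      have : (4 : ℝ) = ((4 : ℕ) : ℝ) := by norm_num
      rw [this, Real.rpow_natCast, ← pow_mul, mul_comm, pow_mul]
      norm_num
    rw [this, ← Real.rpow_mul (by positivity)]
    norm_num
  have hs0 : 0 < s := by rw [hs]; positivity
  have hr0 : 0 < r := by rw [hr]; positivity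
  have hbs : b ^ ((1 : ℝ) / 2) ≤ 3 / 2 * s := by
    calc b ^ ((1 : ℝ) / 2) ≤ (9 / 4 * a) ^ ((1 : ℝ) / 2) :=
          Real.rpow_le_rpow hb0.le hb94 (by norm_num)
      _ = (9 / 4 : ℝ) ^ ((1 : ℝ) / 2) * s := by rw [Real.mul_rpow (by norm_num) ha0.le]
      _ = 3 / 2 * s := by
          congr 1
          rw [show (9 / 4 : ℝ) = (3 / 2) ^ (2 : ℝ) by norm_num, ← Real.rpow_mul (by norm_num)]
          norm_num
  have hbs0 : 0 < b ^ ((1 : ℝ) / 2) := by positivity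
  rw [lt_div_iff₀ (by positivity)] at hk1
  rw [div_lt_iff₀ (by positivity)] at hk2
  have e1 : c₁ * b / w = 2 * (c₁ * a / w) + 2 * c₁ := by
    rw [hbeq]; field_simp
  have e2 : Real.sqrt 2 * b = 2 * (Real.sqrt 2 * a) + 2 * (Real.sqrt 2 * w) := by
    rw [hbeq]; ring
  have e3 : 1.1 * (c₂ * b ^ ((1 : ℝ) / 2) / r) ≤ 1.65 * (c₂ * s / r) := by
    have : c₂ * b ^ ((1 : ℝ) / 2) / r ≤ c₂ * (3 / 2 * s) / r := by gcongr
    calc 1.1 * (c₂ * b ^ ((1 : ℝ) / 2) / r) ≤ 1.1 * (c₂ * (3 / 2 * s) / r) := by gcongr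
      _ = 1.65 * (c₂ * s / r) := by ring
  have e4 : 0.15 * (c₂ * s / r) < 2 * (Real.sqrt 2 * w) := by
    rw [e1, e2] at hk2
    linarith
  have h32 : Real.sqrt 2 ≤ 3 / 2 := by
    rw [Real.sqrt_le_left (by norm_num)]; norm_num
  have e5 : c₂ * s / r ≤ 20 * w := by
    have : 2 * (Real.sqrt 2 * w) ≤ 3 * w := by nlinarith
    linarith
  have e6 : s / r = (32 : ℝ) ^ k := by
    rw [hs, hr, ← div_pow]; norm_num
  have e7 : (32 : ℝ) ^ k = (2 : ℝ) ^ k * w := by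
    rw [hwd, ← mul_pow]; norm_num
  have e8 : c₂ * ((2 : ℝ) ^ k) * w ≤ 20 * w := by
    calc c₂ * ((2 : ℝ) ^ k) * w = c₂ * s / r := by
          rw [mul_div_assoc, e6, e7]; ring
      _ ≤ 20 * w := e5
  have e9 : c₂ * ((2 : ℝ) ^ k) ≤ 20 := le_of_mul_le_mul_right e8 hw0
  rw [div_lt_iff₀ hc₂] at hk3
  linarith

end Pool.Agent.S19248
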