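import Pool.Statements.S19260
import Pool.Agent.H111R5.HM.Final
import Pool.Agent.H111R5.HM.Ham
import Pool.Agent.H111R5.HM.SW
import Pool.Agent.H12R3.HM.Count
import Pool.Agent.H662R3.HM.Ex

set_option autoImplicit false
open Pool Pool.MP_3394e2_pr

namespace Pool.Agent.S19260

/-- The negation of the preceding statement: For each fixed D and ε>0, for all large n and every degree sequence on n vertices with entries between 3 and D, at least a 1−ε fraction of simple graphs with exactly that degree sequence are Hamiltonian. -/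
theorem result :
    ¬ (∀ D : ℕ, ∀ ε : ℝ, 0 < ε → ∃ N : ℕ, ∀ n : ℕ, N ≤ n → ∀ d : Fin n → ℕ,
      (∀ i, 3 ≤ d i ∧ d i ≤ D) →
      (1 - ε) * (({G : SimpleGraph (Fin n) | ∀ v, Nat.card (G.neighborSet v) = d v}.ncard : ℕ) : ℝ)
        ≤ (({G : SimpleGraph (Fin n) |
              (∀ v, Nat.card (G.neighborSet v) = d v) ∧ G.IsHamiltonian}.ncard : ℕ) : ℝ)) := by
  exact Pool.Agent.H111R5.HM.final Pool.Agent.H111R5.HM.taskHam Pool.Agent.H111R5.HM.taskSw
    Pool.Agent.H12R3.HM.taskCount Pool.Agent.H662R3.HM.taskEx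

end Pool.Agent.S19260
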