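import Pool.Statements.S19294
import Pool.Agent.H767R3.GrFin

set_option autoImplicit false
open Pool Pool.MP_4736a5_pr

namespace Pool.Agent.S19294

/-- The negation of the preceding statement: For 0<p<1, p³<t<1 with the constant graphon not optimal, any two graphons minimizing the relative entropy I_p subject to triangle density ≥ t have equal homomorphism densities for every simple graph, i.e. are equal in the graphon quotient space. -/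
theorem result :
    ¬ (∀ (p t : ℝ), 0 < p → p < 1 → p ^ 3 < t → t < 1 →
  ∀ (IsGraphon : (ℝ → ℝ → ℝ) → Prop),
    (∀ W, IsGraphon W ↔ (Measurable (Function.uncurry W) ∧ (∀ x y, W x y = W y x) ∧
        ∀ x y, 0 ≤ W x y ∧ W x y ≤ 1)) →
  ∀ (I : (ℝ → ℝ → ℝ) → ℝ),
    (∀ W, I W = (1 / 2) * ∫ x in Set.Icc (0:ℝ) 1, ∫ y in Set.Icc (0:ℝ) 1,
        (W x y * Real.log (W x y / p) + (1 - W x y) * Real.log ((1 - W x y) / (1 - p)))) →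
  ∀ (T : (ℝ → ℝ → ℝ) → ℝ),
    (∀ W, T W = ∫ x in Set.Icc (0:ℝ) 1, ∫ y in Set.Icc (0:ℝ) 1, ∫ z in Set.Icc (0:ℝ) 1,
        W x y * W y z * W x z) →
  (∃ U, IsGraphon U ∧ t ≤ T U ∧ I U < I (fun _ _ => t ^ ((1:ℝ) / 3))) →
  ∀ W₁ W₂, IsGraphon W₁ → IsGraphon W₂ → t ≤ T W₁ → t ≤ T W₂ →
    (∀ U, IsGraphon U → t ≤ T U → I W₁ ≤ I U) →
    (∀ U, IsGraphon U → t ≤ T U → I W₂ ≤ I U) →
    ∀ (k : ℕ) (E : Finset (Fin k × Fin k)), (∀ e ∈ E, e.1 < e.2) →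
      (∫ x in Set.univ.pi (fun _ : Fin k => Set.Icc (0:ℝ) 1), ∏ e ∈ E, W₁ (x e.1) (x e.2)) =
      (∫ x in Set.univ.pi (fun _ : Fin k => Set.Icc (0:ℝ) 1), ∏ e ∈ E, W₂ (x e.1) (x e.2))) := by
  intro H
  obtain ⟨p, hp0, hp1, r, hr1, hr2, hlt, hbr, W₁, W₂, h1, h2, hne⟩ :=
    Pool.Agent.H767R3.Gr.main
  have hr3 : (1:ℝ) ≤ r ^ 3 := one_le_pow₀ hr1
  have hp3 : 0 < p ^ 3 := by positivity
  refine hne ?_
  have hhalf : ∀ a b : ℝ, (1 / 2 : ℝ) * a ≤ (1 / 2) * b ↔ a ≤ b := fun a b =>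
    mul_le_mul_iff_right₀ (by norm_num)
  have h := H p ((1 + r ^ 3) * p ^ 3) hp0 hp1 (by nlinarith) hlt
    Pool.Agent.H767R3.Gr.Gr (fun W => Iff.rfl)
    (fun W => (1 / 2) * Pool.Agent.H767R3.Gr.Eg (Pool.Agent.H767R3.Gr.hp p) W) (fun W => rfl)
    Pool.Agent.H767R3.Gr.T (fun W => rfl) ?_ W₁ W₂ h1.1 h2.1 h1.2.1 h2.2.1 ?_ ?_ 3
    ({((0 : Fin 3), (1 : Fin 3)), (0, 2)} : Finset (Fin 3 × Fin 3)) (by decide)
  · rw [Pool.Agent.H767R3.Gr.pi_cherry h1.1, Pool.Agent.H767R3.Gr.pi_cherry h2.1] at h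
    exact h
  · obtain ⟨U, hU, hUt, hUE⟩ := hbr
    refine ⟨U, hU, hUt, ?_⟩
    rw [Pool.Agent.H767R3.Gr.Eg_const]
    linarith
  · intro U hU hUt
    exact (hhalf _ _).mpr (h1.2.2 U hU hUt)
  · intro U hU hUt
    exact (hhalf _ _).mpr (h2.2.2 U hU hUt)

end Pool.Agent.S19294
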