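import Pool.Statements.S19308

set_option autoImplicit false
open Filter Topology MeasureTheory Real
open Pool Pool.MP_4e696d_pr

namespace Pool.Agent.S19308

theorem exists_transc : ∃ η : ℝ, 1 < η ∧ Transcendental ℚ η := by
  have hc : Set.Countable {x : ℝ | IsAlgebraic ℚ x} := Algebraic.countable ℚ ℝ
  by_contra h
  push Not at h
  have hsub : Set.Ioi (1:ℝ) ⊆ {x : ℝ | IsAlgebraic ℚ x} := by
    intro x hx
    have h1 := h x hx
    simpa [Transcendental] using h1
  have h2 : (Set.Ioi (1:ℝ)).Countable := hc.mono hsub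
  have h3 := Cardinal.mk_Ioi_real 1
  rw [← Cardinal.le_aleph0_iff_set_countable, h3] at h2
  exact absurd h2 (not_le.mpr Cardinal.aleph0_lt_continuum)

/-- the lacunary sequence -/
noncomputable def seq (η : ℝ) (k : ℕ) : ℕ := ⌊η ^ k⌋₊

theorem seq_pos {η : ℝ} (hη : 1 < η) (k : ℕ) : 0 < seq η k := by
  unfold seq
  rw [Nat.floor_pos]
  exact one_le_pow₀ hη.le

theorem seq_le {η : ℝ} (hη : 1 < η) (k : ℕ) : (seq η k : ℝ) ≤ η ^ k := by
  unfold seq
  exact Nat.floor_le (by positivity)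

theorem seq_ratio {η : ℝ} (hη : 1 < η) :
    Tendsto (fun k : ℕ => (seq η (k + 1) : ℝ) / (seq η k : ℝ)) atTop (𝓝 η) := by
  have h1 : Tendsto (fun k : ℕ => η ^ k) atTop atTop := tendsto_pow_atTop_atTop_of_one_lt hη
  have h2 : Tendsto (fun k : ℕ => (⌊η ^ k⌋₊ : ℝ) / η ^ k) atTop (𝓝 1) :=
    (tendsto_nat_floor_div_atTop (R := ℝ)).comp h1
  have h3 : Tendsto (fun k : ℕ => (⌊η ^ (k+1)⌋₊ : ℝ) / η ^ (k+1)) atTop (𝓝 1) :=
    (tendsto_add_atTop_iff_nat 1).mpr h2
  have h4 : Tendsto (fun k : ℕ => ((⌊η ^ (k+1)⌋₊ : ℝ) / η ^ (k+1)) * η / ((⌊η ^ k⌋₊ : ℝ) / η ^ k))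
      atTop (𝓝 (1 * η / 1)) := (h3.mul_const η).div h2 one_ne_zero
  rw [one_mul, div_one] at h4
  refine h4.congr ?_
  intro k
  have hk : (0:ℝ) < η ^ k := by positivity
  have hs : (0:ℝ) < (⌊η ^ k⌋₊ : ℝ) := by exact_mod_cast seq_pos hη k
  unfold seq
  have hη0 : (0:ℝ) < η := by linarith
  rw [pow_succ]
  field_simp

theorem int_tendsto : Tendsto (fun n : ℕ => ∫ t in (0 : ℝ)..1,
    Real.exp ((n:ℝ) * (Real.cos (2 * π * t) - 1))) atTop (𝓝 0) := by
  suffices hs : Tendsto (fun n : ℕ => ∫ t in (0 : ℝ)..1,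
      Real.exp ((n:ℝ) * (Real.cos (2 * π * t) - 1))) atTop (𝓝 (∫ t in (0 : ℝ)..1, (0:ℝ))) by
    simpa using hs
  apply intervalIntegral.tendsto_integral_filter_of_dominated_convergence (fun _ => (1:ℝ))
  · refine Eventually.of_forall fun n => ?_
    exact (by fun_prop : Continuous fun t : ℝ =>
      Real.exp ((n:ℝ) * (Real.cos (2 * π * t) - 1))).aestronglyMeasurable
  · refine Eventually.of_forall fun n => ?_
    refine Eventually.of_forall fun t _ => ?_
    rw [Real.norm_eq_abs, abs_of_pos (Real.exp_pos _), Real.exp_le_one_iff]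
    have := Real.cos_le_one (2 * π * t)
    have hn : (0:ℝ) ≤ n := Nat.cast_nonneg n
    nlinarith
  · exact intervalIntegrable_const
  · have hne : ∀ᵐ t : ℝ, t ≠ 1 := by
      simp [ae_iff]
    filter_upwards [hne] with t ht hmem
    rw [Set.uIoc_of_le zero_le_one] at hmem
    have h01 : 0 < t ∧ t < 1 := ⟨hmem.1, lt_of_le_of_ne hmem.2 ht⟩
    have hcos : Real.cos (2 * π * t) < 1 := by
      have hle := Real.cos_le_one (2 * π * t)
      refine lt_of_le_of_ne hle ?_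
      intro heq
      rw [Real.cos_eq_one_iff] at heq
      obtain ⟨m, hm⟩ := heq
      have hpi := Real.pi_pos
      have hmt : (m:ℝ) = t := by
        have : (m:ℝ) * (2 * π) = t * (2 * π) := by linarith
        exact mul_right_cancel₀ (by positivity) this
      have h1 : (0:ℝ) < m := by rw [hmt]; exact h01.1
      have h2 : (m:ℝ) < 1 := by rw [hmt]; exact h01.2
      have h1' : 0 < m := by exact_mod_cast h1
      have h2' : m < 1 := by exact_mod_cast h2
      omega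
    have hd : 0 < 1 - Real.cos (2 * π * t) := by linarith
    have h5 : Tendsto (fun n : ℕ => (n:ℝ) * (1 - Real.cos (2 * π * t))) atTop atTop :=
      (tendsto_natCast_atTop_atTop).atTop_mul_const hd
    have h6 := Real.tendsto_exp_neg_atTop_nhds_zero.comp h5
    refine h6.congr ?_
    intro n
    simp only [Function.comp]
    congr 1
    ring

theorem exists_L (η : ℝ) (hη : 1 < η) : ∃ n : ℕ, 0 < n ∧
    Real.log (∫ t in (0 : ℝ)..1, Real.exp ((n:ℝ) * Real.cos (2 * π * t))) ≤ n - Real.log η - 1 := by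
  have h1 := int_tendsto
  have h2 : (0:ℝ) < Real.exp (-(Real.log η + 1)) := Real.exp_pos _
  have h3 := (h1.eventually (gt_mem_nhds h2)).and (eventually_gt_atTop 0)
  obtain ⟨n, hn, hn0⟩ := h3.exists
  refine ⟨n, hn0, ?_⟩
  have h4 : ∫ t in (0 : ℝ)..1, Real.exp ((n:ℝ) * Real.cos (2 * π * t)) =
      Real.exp n * ∫ t in (0 : ℝ)..1, Real.exp ((n:ℝ) * (Real.cos (2 * π * t) - 1)) := by
    rw [← intervalIntegral.integral_const_mul]
    congr 1
    ext t
    rw [← Real.exp_add]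
    congr 1
    ring
  have hpos : 0 < ∫ t in (0 : ℝ)..1, Real.exp ((n:ℝ) * (Real.cos (2 * π * t) - 1)) := by
    apply intervalIntegral.intervalIntegral_pos_of_pos
    · exact (by fun_prop : Continuous fun t : ℝ =>
        Real.exp ((n:ℝ) * (Real.cos (2 * π * t) - 1))).intervalIntegrable _ _
    · intro t; exact Real.exp_pos _
    · exact zero_lt_one
  rw [h4, Real.log_mul (Real.exp_pos _).ne' hpos.ne', Real.log_exp]
  have h5 : Real.log (∫ t in (0 : ℝ)..1, Real.exp ((n:ℝ) * (Real.cos (2 * π * t) - 1))) ≤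
      -(Real.log η + 1) := by
    rw [Real.log_le_iff_le_exp hpos]
    exact hn.le
  linarith

theorem vol_lower {η : ℝ} (hη : 1 < η) {δ : ℝ} (hδ : 0 < δ) (hδ2 : δ ≤ 1 / 2) (n : ℕ) (hn : 0 < n) :
    ENNReal.ofReal (δ / η ^ n) ≤ volume (Set.Icc (0 : ℝ) 1 ∩
      {ω : ℝ | (∑ k ∈ Finset.range n, Real.cos (2 * π * (seq η k : ℝ) * ω)) / (n : ℝ) ∈
        Set.Ici (Real.cos (2 * π * δ))}) := by
  have hηn : (1:ℝ) ≤ η ^ n := one_le_pow₀ hη.le
  have hηn0 : (0:ℝ) < η ^ n := by linarith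
  have hle1 : δ / η ^ n ≤ 1 := by
    rw [div_le_one hηn0]; linarith
  have hsub : Set.Icc (0:ℝ) (δ / η ^ n) ⊆ Set.Icc (0 : ℝ) 1 ∩
      {ω : ℝ | (∑ k ∈ Finset.range n, Real.cos (2 * π * (seq η k : ℝ) * ω)) / (n : ℝ) ∈
        Set.Ici (Real.cos (2 * π * δ))} := by
    intro ω hω
    refine ⟨⟨hω.1, hω.2.trans hle1⟩, ?_⟩
    simp only [Set.mem_ofPred_eq, Set.mem_Ici]
    have hn' : (0:ℝ) < n := by exact_mod_cast hn
    rw [le_div_iff₀ hn']
    have hsum : ∑ k ∈ Finset.range n, Real.cos (2 * π * δ) ≤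
        ∑ k ∈ Finset.range n, Real.cos (2 * π * (seq η k : ℝ) * ω) := by
      apply Finset.sum_le_sum
      intro k hk
      have hk' : k < n := Finset.mem_range.mp hk
      have h1 : (seq η k : ℝ) * ω ≤ δ := by
        have h2 : (seq η k : ℝ) ≤ η ^ n :=
          (seq_le hη k).trans (pow_le_pow_right₀ hη.le hk'.le)
        calc (seq η k : ℝ) * ω ≤ η ^ n * (δ / η ^ n) :=
              mul_le_mul h2 hω.2 hω.1 hηn0.le
          _ = δ := by field_simp
      have hpi := Real.pi_pos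
      apply Real.cos_le_cos_of_nonneg_of_le_pi
      · have := hω.1; positivity
      · nlinarith
      · have : 2 * π * (seq η k : ℝ) * ω = 2 * π * ((seq η k : ℝ) * ω) := by ring
        rw [this]
        exact mul_le_mul_of_nonneg_left h1 (by positivity)
    have hconst : ∑ k ∈ Finset.range n, Real.cos (2 * π * δ) = Real.cos (2 * π * δ) * n := by
      simp [mul_comm]
    linarith
  calc ENNReal.ofReal (δ / η ^ n) = volume (Set.Icc (0:ℝ) (δ / η ^ n)) := by
        rw [Real.volume_Icc, sub_zero]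
    _ ≤ _ := measure_mono hsub

/-- The negation of the preceding statement: For positive integers a_k with a_{k+1}/a_k tending to a transcendental η>1, the averages (1/n)Σcos(2π a_k ω), ω uniform on [0,1], satisfy an LDP with speed n and the i.i.d. Cramér rate function of cos(2πU). -/
theorem result :
    ¬ (∀ (a : ℕ → ℕ) (η : ℝ), 1 < η → Transcendental ℚ η → (∀ k, 0 < a k) →
      Tendsto (fun k : ℕ => (a (k + 1) : ℝ) / (a k : ℝ)) atTop (𝓝 η) →
      ((∀ F : Set ℝ, IsClosed F →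
          limsup (fun n : ℕ => ((((n : ℝ)⁻¹ : ℝ)) : EReal) *
              ENNReal.log (volume (Set.Icc (0 : ℝ) 1 ∩
                {ω : ℝ | (∑ k ∈ Finset.range n, Real.cos (2 * π * (a k : ℝ) * ω)) / (n : ℝ) ∈ F})))
            atTop
          ≤ - ⨅ x ∈ F, ⨆ l : ℝ,
              (((l * x - Real.log (∫ t in (0 : ℝ)..1, Real.exp (l * Real.cos (2 * π * t)))) : ℝ) : EReal)) ∧
       (∀ G : Set ℝ, IsOpen G →
          - (⨅ x ∈ G, ⨆ l : ℝ,
              (((l * x - Real.log (∫ t in (0 : ℝ)..1, Real.exp (l * Real.cos (2 * π * t)))) : ℝ) : EReal))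
          ≤ liminf (fun n : ℕ => ((((n : ℝ)⁻¹ : ℝ)) : EReal) *
              ENNReal.log (volume (Set.Icc (0 : ℝ) 1 ∩
                {ω : ℝ | (∑ k ∈ Finset.range n, Real.cos (2 * π * (a k : ℝ) * ω)) / (n : ℝ) ∈ G})))
            atTop))) := by
  intro H
  obtain ⟨η, hη, htr⟩ := exists_transc
  have hη0 : (0:ℝ) < η := by linarith
  have hlogη : 0 < Real.log η := Real.log_pos hη
  obtain ⟨L, hL0, hL⟩ := exists_L η hη
  have hL0' : (0:ℝ) < L := by exact_mod_cast hL0
  -- choose δ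
  obtain ⟨δ, hδ0, hδ2, hδc⟩ : ∃ δ : ℝ, 0 < δ ∧ δ ≤ 1/2 ∧ (L:ℝ) - 1/2 ≤ L * Real.cos (2 * π * δ) := by
    have hcont : Tendsto (fun δ : ℝ => (L:ℝ) * Real.cos (2 * π * δ)) (𝓝[>] 0) (𝓝 (L * Real.cos (2 * π * 0))) := by
      apply Tendsto.mono_left _ nhdsWithin_le_nhds
      exact (by fun_prop : Continuous fun δ : ℝ => (L:ℝ) * Real.cos (2 * π * δ)).tendsto 0
    simp only [mul_zero, Real.cos_zero, mul_one] at hcont
    have hlt : (L:ℝ) - 1/2 < L := by linarith
    have h1 := hcont.eventually (lt_mem_nhds hlt)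
    have h2 : ∀ᶠ δ : ℝ in 𝓝[>] 0, δ < 1/2 :=
      (gt_mem_nhds (by norm_num : (0:ℝ) < 1/2)).filter_mono nhdsWithin_le_nhds
    obtain ⟨δ, hδ⟩ := (h1.and (h2.and self_mem_nhdsWithin)).exists
    exact ⟨δ, hδ.2.2, hδ.2.1.le, hδ.1.le⟩
  set c := Real.cos (2 * π * δ) with hc
  have hF := (H (seq η) η hη htr (seq_pos hη) (seq_ratio hη)).1 (Set.Ici c) isClosed_Ici
  have hinf : ((Real.log η + 1/2 : ℝ) : EReal) ≤ ⨅ x ∈ Set.Ici c, ⨆ l : ℝ,
      (((l * x - Real.log (∫ t in (0 : ℝ)..1, Real.exp (l * Real.cos (2 * π * t)))) : ℝ) : EReal) := by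
    refine le_iInf₂ fun x hx => ?_
    refine le_iSup_of_le (L:ℝ) ?_
    rw [EReal.coe_le_coe_iff]
    have hx' : c ≤ x := hx
    have : (L:ℝ) * c ≤ L * x := mul_le_mul_of_nonneg_left hx' hL0'.le
    linarith
  have hup := hF.trans (EReal.neg_le_neg_iff.mpr hinf)
  have hlt : limsup (fun n : ℕ => ((((n : ℝ)⁻¹ : ℝ)) : EReal) *
              ENNReal.log (volume (Set.Icc (0 : ℝ) 1 ∩
                {ω : ℝ | (∑ k ∈ Finset.range n, Real.cos (2 * π * (seq η k : ℝ) * ω)) / (n : ℝ) ∈ Set.Ici c})))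
            atTop < ((-(Real.log η + 1/4) : ℝ) : EReal) := by
    refine lt_of_le_of_lt hup ?_
    rw [← EReal.coe_neg, EReal.coe_lt_coe_iff]
    linarith
  have hev := eventually_lt_of_limsup_lt hlt
  have hlow : ∀ᶠ n : ℕ in atTop, ((-(Real.log η + 1/4) : ℝ) : EReal) ≤ ((((n : ℝ)⁻¹ : ℝ)) : EReal) *
              ENNReal.log (volume (Set.Icc (0 : ℝ) 1 ∩
                {ω : ℝ | (∑ k ∈ Finset.range n, Real.cos (2 * π * (seq η k : ℝ) * ω)) / (n : ℝ) ∈ Set.Ici c})) := by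
    have ht : Tendsto (fun n : ℕ => Real.log δ / (n:ℝ)) atTop (𝓝 0) :=
      tendsto_const_div_atTop_nhds_zero_nat _
    have h1 := ht.eventually (lt_mem_nhds (by norm_num : (-(1/4):ℝ) < 0))
    filter_upwards [h1, eventually_gt_atTop 0] with n hn hn0
    have hn' : (0:ℝ) < n := by exact_mod_cast hn0
    have hv := vol_lower hη hδ0 hδ2 n hn0
    have hpos : 0 < δ / η ^ n := by positivity
    have hlog := ENNReal.log_le_log hv
    rw [ENNReal.log_ofReal_of_pos hpos] at hlog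
    have hinv : (0:EReal) ≤ (((n : ℝ)⁻¹ : ℝ) : EReal) := by
      exact_mod_cast (inv_nonneg.mpr hn'.le)
    refine le_trans ?_ (mul_le_mul_of_nonneg_left hlog hinv)
    rw [← EReal.coe_mul, EReal.coe_le_coe_iff]
    rw [Real.log_div hδ0.ne' (by positivity), Real.log_pow]
    have : (n:ℝ)⁻¹ * (Real.log δ - n * Real.log η) = Real.log δ / n - Real.log η := by
      field_simp
    rw [this]
    linarith
  obtain ⟨n, hn1, hn2⟩ := (hev.and hlow).exists
  exact absurd hn1 (not_lt.mpr hn2)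

end Pool.Agent.S19308
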