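import Pool.Statements.S19311
import Pool.Agent.H592W.Conv

set_option autoImplicit false
open Pool Pool.MP_52a2fa_pr

namespace Pool.Agent.S19311

/-- For every β>1 and every length law m on ℕ≥1 with m(ℓ) between cℓ^{-β} and Cℓ^{-β}: some intensity v>0 makes the Z^4 worm set (SRW ranges) a.s. non-percolating iff β≥3. -/
theorem result :
  ∀ (β : ℝ), 1 < β → ∀ (m : ℕ → ℝ), m 0 = 0 → (∀ ℓ, 0 ≤ m ℓ) → HasSum m 1 →
    (∃ c C : ℝ, 0 < c ∧ 0 < C ∧ ∀ ℓ : ℕ, 1 ≤ ℓ →
        c * ((ℓ : ℝ) ^ (-β)) ≤ m ℓ ∧ m ℓ ≤ C * ((ℓ : ℝ) ^ (-β))) →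
    ((∃ v : ℝ, 0 < v ∧
        ∀ (Ω : Type) [MeasurableSpace Ω] (P : MeasureTheory.Measure Ω)
          [MeasureTheory.IsProbabilityMeasure P]
          (ξ : (Fin 4 → ℤ) × Finset (Fin 4 → ℤ) → Ω → Bool),
          (∀ k, Measurable (ξ k)) →
          ProbabilityTheory.iIndepFun ξ P →
          (∀ k : (Fin 4 → ℤ) × Finset (Fin 4 → ℤ),
            P {ω | ξ k ω = true} =
              ENNReal.ofReal (1 - Real.exp (-(v * ∑' n : ℕ, m (n + 1) *
                (((Finset.univ.filter (fun s : Fin n → Fin 4 × Bool =>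
                    (Finset.range (n + 1)).image (fun t : ℕ =>
                      ∑ i ∈ Finset.univ.filter (fun i : Fin n => (i : ℕ) < t),
                        (Pi.single (s i).1 (if (s i).2 then (1 : ℤ) else -1) : Fin 4 → ℤ))
                    = k.2)).card : ℝ) / (8 : ℝ) ^ n))))) →
          P {ω | ∃ y : Fin 4 → ℤ,
              {z : Fin 4 → ℤ |
                (SimpleGraph.fromRel (fun a b : Fin 4 → ℤ =>
                  (∃ x : Fin 4 → ℤ, ∃ A : Finset (Fin 4 → ℤ), ξ (x, A) ω = true ∧ a - x ∈ A) ∧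
                  (∃ x : Fin 4 → ℤ, ∃ A : Finset (Fin 4 → ℤ), ξ (x, A) ω = true ∧ b - x ∈ A) ∧
                  ∑ j : Fin 4, |a j - b j| = 1)).Reachable y z}.Infinite} = 0)
     ↔ 3 ≤ β) := by
  intro β hβ m hm00 hm0 hmsum hmb
  have h4 : (4 : ℕ) ≠ 0 := by norm_num
  have hcard : (Fintype.card (H592.Stp 4) : ℝ) = 8 := by
    rw [show Fintype.card (H592.Stp 4) = 8 from rfl]; norm_num
  -- total mass
  have hms : ∑' n : ℕ, ENNReal.ofReal (m (n + 1)) ≤ 1 := by
    have h1 : ∑' n : ℕ, ENNReal.ofReal (m n) = 1 := by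
      rw [← ENNReal.ofReal_tsum_of_nonneg hm0 hmsum.summable, hmsum.tsum_eq, ENNReal.ofReal_one]
    have h2 := tsum_eq_zero_add' (f := fun n : ℕ => ENNReal.ofReal (m n)) ENNReal.summable
    calc ∑' n : ℕ, ENNReal.ofReal (m (n + 1))
        ≤ ENNReal.ofReal (m 0) + ∑' n : ℕ, ENNReal.ofReal (m (n + 1)) := le_add_self
      _ = 1 := by rw [← h2, h1]
  -- the probabilities
  have hprob : ∀ (v : ℝ) (k : (Fin 4 → ℤ) × Finset (Fin 4 → ℤ)),
      ENNReal.ofReal (1 - Real.exp (-(v * ∑' n : ℕ, m (n + 1) *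
                (((Finset.univ.filter (fun s : Fin n → Fin 4 × Bool =>
                    (Finset.range (n + 1)).image (fun t : ℕ =>
                      ∑ i ∈ Finset.univ.filter (fun i : Fin n => (i : ℕ) < t),
                        (Pi.single (s i).1 (if (s i).2 then (1 : ℤ) else -1) : Fin 4 → ℤ))
                    = k.2)).card : ℝ) / (8 : ℝ) ^ n))))
      = ENNReal.ofReal (1 - Real.exp (-(v * (H592.nu m k.2).toReal))) := by
    intro v k
    rw [H592.nu_toReal m hm0, hcard]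
    have h1 : ∀ (n : ℕ) (s : Fin n → Fin 4 × Bool), (Finset.range (n + 1)).image (fun t : ℕ =>
                      ∑ i ∈ Finset.univ.filter (fun i : Fin n => (i : ℕ) < t),
                        (Pi.single (s i).1 (if (s i).2 then (1 : ℤ) else -1) : Fin 4 → ℤ))
                    = H592.tr (List.ofFn s) := fun n s => H592.image_eq_tr n s
    simp_rw [h1]
  -- the event
  have hevent : ∀ (Ω : Type) (ξ : (Fin 4 → ℤ) × Finset (Fin 4 → ℤ) → Ω → Bool),
      {ω | ∃ y : Fin 4 → ℤ,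
              {z : Fin 4 → ℤ |
                (SimpleGraph.fromRel (fun a b : Fin 4 → ℤ =>
                  (∃ x : Fin 4 → ℤ, ∃ A : Finset (Fin 4 → ℤ), ξ (x, A) ω = true ∧ a - x ∈ A) ∧
                  (∃ x : Fin 4 → ℤ, ∃ A : Finset (Fin 4 → ℤ), ξ (x, A) ω = true ∧ b - x ∈ A) ∧
                  ∑ j : Fin 4, |a j - b j| = 1)).Reachable y z}.Infinite}
      = {ω | H592.perc (H592.occ (H592.Qs ξ ω))} := by
    intro Ω ξ
    ext ω
    simp only [Set.mem_ofPred_eq, H592.perc]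
    have h1 : ∀ a : Fin 4 → ℤ, (∃ x : Fin 4 → ℤ, ∃ A : Finset (Fin 4 → ℤ),
        ξ (x, A) ω = true ∧ a - x ∈ A) ↔ a ∈ H592.occ (H592.Qs ξ ω) := by
      intro a
      constructor
      · rintro ⟨x, A, h1, h2⟩
        exact ⟨(x, A), h1, h2⟩
      · rintro ⟨k, h1, h2⟩
        exact ⟨k.1, k.2, h1, h2⟩
    have h2 : ∀ y z : Fin 4 → ℤ, (SimpleGraph.fromRel (fun a b : Fin 4 → ℤ =>
                  (∃ x : Fin 4 → ℤ, ∃ A : Finset (Fin 4 → ℤ), ξ (x, A) ω = true ∧ a - x ∈ A) ∧
                  (∃ x : Fin 4 → ℤ, ∃ A : Finset (Fin 4 → ℤ), ξ (x, A) ω = true ∧ b - x ∈ A) ∧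
                  ∑ j : Fin 4, |a j - b j| = 1)).Reachable y z
          ↔ H592.conn (H592.occ (H592.Qs ξ ω)) y z :=
      fun y z => H592.reach_iff (H592.Qs ξ ω) _ h1 y z
    simp_rw [h2]
  obtain ⟨c, C, hc, hC, hcC⟩ := hmb
  constructor
  · rintro ⟨v, hv, hall⟩
    by_contra hβ3
    push Not at hβ3
    obtain ⟨Ω, _, P, _, ξ, h1, h2, h3⟩ := H592.exists_space (d := 4) m v hv
    have h5 := hall Ω P ξ h1 h2 (fun k => by rw [hprob v k]; exact h3 k)
    rw [hevent] at h5
    have h6 := H592.lower_main (d := 4) (max (1 / 2) ((β - 1) / 2)) β c v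
      (lt_of_lt_of_le (by norm_num) (le_max_left _ _))
      (max_lt (by norm_num) (by linarith))
      (by
        have : max (1 / 2 : ℝ) ((β - 1) / 2) < 1 := max_lt (by norm_num) (by linarith)
        push_cast
        linarith)
      (by linarith)
      (by
        have : (β - 1) / 2 ≤ max (1 / 2) ((β - 1) / 2) := le_max_right _ _
        linarith)
      hc hv m hms (fun l hl => (hcC l hl).1) P ξ h1 h2 h3
    apply h6
    refine MeasureTheory.measure_mono_null ?_ h5
    intro ω hω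
    exact ⟨0, hω⟩
  · intro hβ3
    obtain ⟨H, _, HB⟩ := H592.BS_bound (d := 4) (by norm_num) (by norm_num) m hm0 C hC (by
      intro l hl
      refine (hcC l hl).2.trans ?_
      refine mul_le_mul_of_nonneg_left ?_ hC.le
      refine Real.rpow_le_rpow_of_exponent_le (by exact_mod_cast hl) ?_
      push_cast
      linarith)
    obtain ⟨v, hv, hmain⟩ := H592.upper_main (d := 4) m H HB hms
    refine ⟨v, hv, ?_⟩
    intro Ω _ P _ ξ h1 h2 h3
    rw [hevent]
    refine hmain Ω P ξ h1 h2 (fun k => ?_)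
    rw [h3 k, hprob v k]
    have hnu : H592.nu m k.2 ≠ ⊤ := ne_top_of_le_ne_top (by simp) (H592.nu_le_one m hms k.2)
    calc ENNReal.ofReal (1 - Real.exp (-(v * (H592.nu m k.2).toReal)))
        ≤ ENNReal.ofReal (v * (H592.nu m k.2).toReal) := by
          refine ENNReal.ofReal_le_ofReal ?_
          have := Real.add_one_le_exp (-(v * (H592.nu m k.2).toReal))
          linarith
      _ = ENNReal.ofReal v * H592.nu m k.2 := by
          rw [ENNReal.ofReal_mul hv.le, ENNReal.ofReal_toReal hnu]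

end Pool.Agent.S19311
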