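import Pool.Statements.S19318
import Pool.Agent.H143R3.Final

set_option autoImplicit false
open Pool Pool.MP_53494a_pr

namespace Pool.Agent.S19318

/-- The limit, if it exists, is at least 2.01 for all large multiples m of 32. -/
theorem result :
    ¬ (∃ f : ℕ → ℝ,
    (∀ᶠ m in Filter.atTop, Filter.Tendsto (fun n : ℕ =>
      (∑ π : Fin m → Equiv.Perm (Fin n),
        ((sSup {k : ℕ | ∃ σ : Equiv.Perm (Fin k), ∀ i : Fin m, ∃ e : Fin k ↪o Fin n,
          ∀ a b : Fin k, σ a < σ b ↔ π i (e a) < π i (e b)} : ℕ) : ℝ)) / ((n.factorial : ℝ) ^ m)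
        / (n : ℝ) ^ ((m : ℝ) / (2 * (m : ℝ) - 1))) Filter.atTop (nhds (f m)))
    ∧ Filter.Tendsto f Filter.atTop (nhds 2)) := by
  rintro ⟨f, h1, h2⟩
  have h3 : ∀ᶠ m in Filter.atTop, f m < 2005 / 1000 :=
    h2.eventually (gt_mem_nhds (by norm_num))
  have h4 : Filter.Tendsto (fun t : ℕ => t * 32) Filter.atTop Filter.atTop :=
    Filter.tendsto_atTop_mono (fun t => by simp only [id]; omega) Filter.tendsto_id
  have h5 := h4.eventually (h1.and h3)
  obtain ⟨t, ⟨ht1, ht2⟩, ht3, ht4⟩ := (h5.and (Pool.Agent.H143R3.cond_eventually.and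
    (Filter.eventually_ge_atTop 2))).exists
  have h6 : (201 / 100 : ℝ) ≤ f (t * 32) := by
    refine ge_of_tendsto_of_frequently ht1 ?_
    rw [Filter.frequently_atTop]
    intro n0
    obtain ⟨n, hn, h7⟩ := Pool.Agent.H143R3.avg_ge t ht3 ht4 n0
    exact ⟨n, hn, h7⟩
  linarith

end Pool.Agent.S19318
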