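import Pool.Statements.S19325
import Pool.Agent.H500R3.Cube.Main

set_option autoImplicit false
open Pool Pool.MP_546510_pr

namespace Pool.Agent.S19325

open Pool.Agent.H500R3.Cube in
theorem pcr_eq (n : ℕ) (r : ℝ) :
    sInf {p : ℝ | 0 ≤ p ∧ p ≤ 1 ∧
            (1 / 2 : ℝ) ≤
              ∑ A ∈ (Finset.univ : Finset (Finset (Fin n → Bool))).filter
                  (fun A => ∀ S : Finset (Fin n → Bool), A ⊆ S →
                    (∀ v : Fin n → Bool,
                      r ≤ ((S.filter (fun u => hammingDist u v = 1)).card : ℝ) →
                        v ∈ S) →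
                    S = Finset.univ),
                p ^ A.card * (1 - p) ^ (2 ^ n - A.card)} = pcr n r := by
  unfold pcr
  have h : ∀ p : ℝ, ∑ A ∈ (Finset.univ : Finset (Finset (Fin n → Bool))).filter
                  (fun A => ∀ S : Finset (Fin n → Bool), A ⊆ S →
                    (∀ v : Fin n → Bool,
                      r ≤ ((S.filter (fun u => hammingDist u v = 1)).card : ℝ) →
                        v ∈ S) →
                    S = Finset.univ),
                p ^ A.card * (1 - p) ^ (2 ^ n - A.card) =
      Pool.Agent.Helper91.BP.Pr p (fun A : Finset (Q n) => Perc r A) := by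
    intro p
    rw [Finset.sum_filter]
    unfold Pool.Agent.Helper91.BP.Pr
    apply Finset.sum_congr rfl
    intro A _
    have hw : p ^ A.card * (1 - p) ^ (2 ^ n - A.card) = Pool.Agent.Helper91.BP.wt p A := by
      unfold Pool.Agent.Helper91.BP.wt
      rw [Finset.card_compl]
      simp
    by_cases hA : Perc r A
    · rw [if_pos hA]
      unfold Perc at hA
      rw [if_pos hA, hw]
    · rw [if_neg hA]
      unfold Perc at hA
      rw [if_neg hA]
  have hs : {p : ℝ | 0 ≤ p ∧ p ≤ 1 ∧
            (1 / 2 : ℝ) ≤
              ∑ A ∈ (Finset.univ : Finset (Finset (Fin n → Bool))).filter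
                  (fun A => ∀ S : Finset (Fin n → Bool), A ⊆ S →
                    (∀ v : Fin n → Bool,
                      r ≤ ((S.filter (fun u => hammingDist u v = 1)).card : ℝ) →
                        v ∈ S) →
                    S = Finset.univ),
                p ^ A.card * (1 - p) ^ (2 ^ n - A.card)} =
      {p : ℝ | 0 ≤ p ∧ p ≤ 1 ∧
        1 / 2 ≤ Pool.Agent.Helper91.BP.Pr p (fun A : Finset (Q n) => Perc r A)} := by
    apply Set.ext
    intro p
    show (0 ≤ p ∧ p ≤ 1 ∧ _) ↔ (0 ≤ p ∧ p ≤ 1 ∧ _)
    rw [h p]
  rw [hs]

/-- For each 0<a≤2/3, the critical probability for bootstrap percolation on the n-cube with threshold n^a (least p making full infection have probability at least 1/2), divided by n^(a-1), tends to 1. -/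
theorem result :
    ∀ a : ℝ, 0 < a → a ≤ 2 / 3 →
      Filter.Tendsto
        (fun n : ℕ =>
          sInf {p : ℝ | 0 ≤ p ∧ p ≤ 1 ∧
            (1 / 2 : ℝ) ≤
              ∑ A ∈ (Finset.univ : Finset (Finset (Fin n → Bool))).filter
                  (fun A => ∀ S : Finset (Fin n → Bool), A ⊆ S →
                    (∀ v : Fin n → Bool,
                      (n : ℝ) ^ a ≤ ((S.filter (fun u => hammingDist u v = 1)).card : ℝ) →
                        v ∈ S) →
                    S = Finset.univ),
                p ^ A.card * (1 - p) ^ (2 ^ n - A.card)}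
          / (n : ℝ) ^ (a - 1))
        Filter.atTop (nhds 1) := by
  intro a ha ha1
  have h := Pool.Agent.H500R3.Cube.pcr_tendsto ha (by linarith)
  refine h.congr ?_
  intro n
  rw [pcr_eq]

end Pool.Agent.S19325
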