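import Pool.Statements.S19358
import Pool.Agent.H443R3.Movers5
-- import your own Pool.Agent.* helpers here

set_option autoImplicit false
open MeasureTheory ProbabilityTheory Filter Topology
open Pool Pool.MP_621202_pr

namespace Pool.Agent.S19358

/-- The negation of the preceding statement: For every PCA on A^(ℤ^d) with a finite alphabet and a finite neighbourhood: if all initial laws converge on cylinders to one limit π, then for each cylinder this convergence is uniform over all initial laws. -/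
theorem result :
    ¬ (∀ (d : ℕ) (A : Type) [Fintype A] [MeasurableSpace A] [DiscreteMeasurableSpace A]
    (N : Finset (Fin d → ℤ)) (f : (↥N → A) → ProbabilityMeasure A)
    (κ : Kernel ((Fin d → ℤ) → A) ((Fin d → ℤ) → A)),
    (∀ x : (Fin d → ℤ) → A,
      κ x = Measure.infinitePi
        (fun k : Fin d → ℤ => ((f (fun v : ↥N => x (k + (v : Fin d → ℤ)))) : Measure A))) →
    (∃ π : Measure ((Fin d → ℤ) → A), IsProbabilityMeasure π ∧
      ∀ μ : Measure ((Fin d → ℤ) → A), IsProbabilityMeasure μ →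
        ∀ (S : Finset (Fin d → ℤ)) (a : (Fin d → ℤ) → A),
          Tendsto (fun n : ℕ => ((fun ν : Measure ((Fin d → ℤ) → A) => ν.bind (⇑κ))^[n] μ)
              {x | ∀ k ∈ S, x k = a k})
            atTop (𝓝 (π {x | ∀ k ∈ S, x k = a k}))) →
    (∃ π : Measure ((Fin d → ℤ) → A), IsProbabilityMeasure π ∧
      ∀ (S : Finset (Fin d → ℤ)) (a : (Fin d → ℤ) → A), ∀ ε : ℝ, 0 < ε →
        ∃ n0 : ℕ, ∀ n : ℕ, n0 ≤ n →
          ∀ μ : Measure ((Fin d → ℤ) → A), IsProbabilityMeasure μ →
            |(((fun ν : Measure ((Fin d → ℤ) → A) => ν.bind (⇑κ))^[n] μ)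
                {x | ∀ k ∈ S, x k = a k}).toReal
              - (π {x | ∀ k ∈ S, x k = a k}).toReal| < ε)) := by
  intro H
  obtain ⟨π, _, hπ⟩ := H 1 Pool.Agent.H443R3.Movers.Sy Pool.Agent.H443R3.Movers.Φ.nbhd
    (fun u => ⟨(Pool.Agent.H443R3.Movers.Φ.rule u).toMeasure, inferInstance⟩)
    ⟨Pool.Agent.H443R3.Movers.Φ.step, Pool.Agent.H443R3.Movers.Φ.measurable_step⟩
    (fun x => rfl)
    ⟨Measure.dirac (fun _ => Pool.Agent.H443R3.Movers.o), inferInstance,
      fun μ hμ S a => Pool.Agent.H443R3.Movers.ergodic μ S a⟩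
  exact Pool.Agent.H443R3.Movers.not_uniform π hπ

end Pool.Agent.S19358
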