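-- Proof of frozen statement S19360 (negation of Q1 of MP_63bd8a_pr).
-- Counterexample: the mixture (1 - 1/n) Unif({-1,1}^n) + (1/n) delta_0 satisfies the convex
-- Poincare inequality with constant 3 in every dimension, while the Euclidean norm has
-- median sqrt n and vanishes with probability 1/n.
import Pool.Statements.S19360
import Pool.Agent.H239R3.CPd

set_option autoImplicit false
open MeasureTheory ProbabilityTheory
open Pool Pool.MP_63bd8a_pr

namespace Pool.Agent.S19360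

/-- The negation of the preceding statement: For each C>0 there is c>0 such that, in every dimension, if a probability measure has variance of convex Lipschitz g at most C times the mean squared local slope, then convex 1-Lipschitz f satisfies P(f ≤ median − t) ≤ 2exp(−ct). -/
theorem result :
    ¬ (∀ C : ℝ, 0 < C → ∃ c : ℝ, 0 < c ∧
    ∀ (n : ℕ) (μ : Measure (EuclideanSpace ℝ (Fin n))), IsProbabilityMeasure μ →
      (∀ (g : EuclideanSpace ℝ (Fin n) → ℝ) (L : NNReal),
          ConvexOn ℝ Set.univ g → LipschitzWith L g →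
          evariance g μ ≤ ENNReal.ofReal C *
            ∫⁻ x, (Filter.limsup (fun y => ENNReal.ofReal (|g y - g x| / dist y x))
                    (nhdsWithin x {x}ᶜ)) ^ 2 ∂μ) →
      ∀ f : EuclideanSpace ℝ (Fin n) → ℝ, ConvexOn ℝ Set.univ f → LipschitzWith 1 f →
        ∀ m : ℝ, (1 / 2 : ENNReal) ≤ μ {x | f x ≤ m} → (1 / 2 : ENNReal) ≤ μ {x | m ≤ f x} →
          ∀ t : ℝ, 0 < t → μ {x | f x ≤ m - t} ≤ ENNReal.ofReal (2 * Real.exp (-(c * t)))) := by
  intro H
  obtain ⟨c, hc, H⟩ := H 3 (by norm_num)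
  -- choose k large
  obtain ⟨k, hk⟩ := exists_nat_gt (max 2 (12 / c ^ 3))
  have hk2 : (2:ℝ) < k := lt_of_le_of_lt (le_max_left _ _) hk
  have hk3 : 12 / c ^ 3 < k := lt_of_le_of_lt (le_max_right _ _) hk
  have hkpos : (0:ℝ) < k := by linarith
  have hkN : 0 < k := by exact_mod_cast hkpos
  have hn : 0 < k ^ 2 := by positivity
  have hsqrt : √((k ^ 2 : ℕ) : ℝ) = k := by
    push_cast
    exact Real.sqrt_sq hkpos.le
  have hprob : IsProbabilityMeasure (Pool.Agent.H239R3.mm (k ^ 2)) :=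
    Pool.Agent.H239R3.dm_prob _ (Pool.Agent.H239R3.wt_nonneg hn) (Pool.Agent.H239R3.wt_sum hn) _
  have hmeas : ∀ a : ℝ, MeasurableSet {x : EuclideanSpace ℝ (Fin (k ^ 2)) | ‖x‖ ≤ a} :=
    fun a => measurableSet_le measurable_norm measurable_const
  have hmeas' : ∀ a : ℝ, MeasurableSet {x : EuclideanSpace ℝ (Fin (k ^ 2)) | a ≤ ‖x‖} :=
    fun a => measurableSet_le measurable_const measurable_norm
  have hle : Pool.Agent.H239R3.mm (k ^ 2) {x | ‖x‖ ≤ (k:ℝ)} = 1 := by
    unfold Pool.Agent.H239R3.mm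
    rw [Pool.Agent.H239R3.dm_apply _ _ _ (hmeas _)]
    have h1 : ∀ o, ENNReal.ofReal (Pool.Agent.H239R3.wt (k ^ 2) o) *
        ({x : EuclideanSpace ℝ (Fin (k ^ 2)) | ‖x‖ ≤ (k:ℝ)}).indicator 1
          (Pool.Agent.H239R3.at' (k ^ 2) o) =
        ENNReal.ofReal (Pool.Agent.H239R3.wt (k ^ 2) o) := by
      intro o
      rw [Set.indicator_of_mem, Pi.one_apply, mul_one]
      cases o with
      | none => simpa [Pool.Agent.H239R3.at'] using hkpos.le
      | some s =>
        simp only [Pool.Agent.H239R3.at', Option.elim, Set.mem_setOf_eq,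
          Pool.Agent.H239R3.cpt_norm]
        rw [hsqrt]
    rw [Finset.sum_congr rfl (fun o _ => h1 o),
      ← ENNReal.ofReal_sum_of_nonneg (fun o _ => Pool.Agent.H239R3.wt_nonneg hn o),
      Pool.Agent.H239R3.wt_sum hn, ENNReal.ofReal_one]
  have hge : (1/2 : ENNReal) ≤ Pool.Agent.H239R3.mm (k ^ 2) {x | (k:ℝ) ≤ ‖x‖} := by
    unfold Pool.Agent.H239R3.mm
    rw [Pool.Agent.H239R3.dm_apply _ _ _ (hmeas' _), Fintype.sum_option]
    refine le_trans ?_ le_add_self
    have h1 : ∀ s : Fin (k ^ 2) → Bool, ENNReal.ofReal (Pool.Agent.H239R3.wt (k ^ 2) (some s)) *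
        ({x : EuclideanSpace ℝ (Fin (k ^ 2)) | (k:ℝ) ≤ ‖x‖}).indicator 1
          (Pool.Agent.H239R3.at' (k ^ 2) (some s)) =
        ENNReal.ofReal (Pool.Agent.H239R3.wt (k ^ 2) (some s)) := by
      intro s
      rw [Set.indicator_of_mem, Pi.one_apply, mul_one]
      simp only [Pool.Agent.H239R3.at', Option.elim, Set.mem_setOf_eq,
          Pool.Agent.H239R3.cpt_norm]
      rw [hsqrt]
    rw [Finset.sum_congr rfl (fun o _ => h1 o),
      ← ENNReal.ofReal_sum_of_nonneg (fun s _ => Pool.Agent.H239R3.wt_nonneg hn (some s))]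
    have h2 := Pool.Agent.H239R3.wt_sum hn
    rw [Fintype.sum_option] at h2
    have h3 : Pool.Agent.H239R3.wt (k ^ 2) none = 1 / ((k ^ 2 : ℕ) : ℝ) := rfl
    rw [h3] at h2
    have h4 : (1:ℝ) / ((k ^ 2 : ℕ) : ℝ) ≤ 1 / 2 := by
      push_cast
      apply one_div_le_one_div_of_le (by norm_num)
      nlinarith
    have h5 : (1/2 : ENNReal) = ENNReal.ofReal (1/2) := by
      rw [ENNReal.ofReal_div_of_pos (by norm_num)]
      simp
    rw [h5]
    apply ENNReal.ofReal_le_ofReal
    linarith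
  have hfin := H (k ^ 2) (Pool.Agent.H239R3.mm (k ^ 2)) hprob
    (fun g L hg _ => Pool.Agent.H239R3.convex_poincare g hn hg)
    (fun x => ‖x‖) convexOn_univ_norm (lipschitzWith_one_norm) k
    (by rw [hle]; norm_num) hge k hkpos
  rw [sub_self] at hfin
  have hlow : ENNReal.ofReal (1 / ((k ^ 2 : ℕ) : ℝ)) ≤
      Pool.Agent.H239R3.mm (k ^ 2) {x | ‖x‖ ≤ (0:ℝ)} := by
    unfold Pool.Agent.H239R3.mm
    rw [Pool.Agent.H239R3.dm_apply _ _ _ (hmeas _), Fintype.sum_option]
    refine le_trans ?_ le_self_add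
    rw [Set.indicator_of_mem, Pi.one_apply, mul_one]
    · exact le_rfl
    · simp [Pool.Agent.H239R3.at']
  have h6 := hlow.trans hfin
  rw [ENNReal.ofReal_le_ofReal_iff (by positivity)] at h6
  push_cast at h6
  have h7 : (c * k) ^ 3 / (Nat.factorial 3 : ℝ) ≤ Real.exp (c * k) :=
    Real.pow_div_factorial_le_exp (c * k) (by positivity) 3
  have h8 : (Nat.factorial 3 : ℝ) = 6 := by norm_num [Nat.factorial]
  rw [h8] at h7
  rw [Real.exp_neg, ← div_eq_mul_inv, div_le_div_iff₀ (by positivity) (Real.exp_pos _)] at h6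
  have h9 : 12 < c ^ 3 * k := by
    rw [div_lt_iff₀ (by positivity)] at hk3
    linarith
  have h10 : (c * k) ^ 3 = (c ^ 3 * k) * k ^ 2 := by ring
  have h11 : 12 * (k:ℝ) ^ 2 < (c * k) ^ 3 := by
    rw [h10]
    have : (0:ℝ) < k ^ 2 := by positivity
    nlinarith
  linarith

end Pool.Agent.S19360
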