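-- Solution file for frozen statement S19375 (MP_65c995_pr), from its template.
import Pool.Statements.S19375
-- import your own Pool.Agent.* helpers here
import Pool.Agent.H282R3.MK.Final

set_option autoImplicit false
open MeasureTheory ProbabilityTheory
open Pool Pool.MP_65c995_pr

namespace Pool.Agent.S19375

/-- There exist a compact metric space S, a stationary Markov process (X_i) indexed by the integers with values in S, an integer k>0 and ε>0 such that X_0 and X_k are independent and dist(X_0,X_1) ≥ ε almost surely. -/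
theorem result :
    ∃ (S : Type) (_ : MetricSpace S) (_ : CompactSpace S) (_ : MeasurableSpace S)
      (_ : BorelSpace S) (Ω : Type) (_ : MeasurableSpace Ω) (μ : MeasureTheory.Measure Ω)
      (X : ℤ → Ω → S) (k : ℤ) (ε : ℝ),
      MeasureTheory.IsProbabilityMeasure μ ∧
      (∀ i, Measurable (X i)) ∧
      (∀ n : ℤ, μ.map (fun ω (i : ℤ) => X (i + n) ω) = μ.map (fun ω (i : ℤ) => X i ω)) ∧
      (∀ (n : ℤ) (A : Set S), MeasurableSet A →
        MeasureTheory.condExp (⨆ (m : ℤ) (_ : m ≤ n), MeasurableSpace.comap (X m) inferInstance) μ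
          (Set.indicator (X (n + 1) ⁻¹' A) (fun _ => (1 : ℝ)))
        =ᵐ[μ] MeasureTheory.condExp (MeasurableSpace.comap (X n) inferInstance) μ
          (Set.indicator (X (n + 1) ⁻¹' A) (fun _ => (1 : ℝ)))) ∧
      0 < k ∧ 0 < ε ∧
      ProbabilityTheory.IndepFun (X 0) (X k) μ ∧
      ∀ᵐ ω ∂μ, ε ≤ dist (X 0 ω) (X 1 ω) := by
  let m : MetricSpace H282R3.MK.St := TopologicalSpace.metrizableSpaceMetric H282R3.MK.St
  -- a positive lower bound for the distance of points of different colours
  have hε : ∃ ε : ℝ, 0 < ε ∧ ∀ x y : H282R3.MK.St, dist x y < ε → x.1 = y.1 := by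
    by_contra hcon
    push Not at hcon
    have hD : IsCompact {q : H282R3.MK.St × H282R3.MK.St | q.1.1 ≠ q.2.1} := by
      apply IsClosed.isCompact
      have h2 : IsClosed {p : H282R3.MK.Co × H282R3.MK.Co | p.1 ≠ p.2} := isClosed_discrete _
      have h1 : Continuous (fun q : H282R3.MK.St × H282R3.MK.St => (q.1.1, q.2.1)) :=
        (continuous_fst.comp continuous_fst).prodMk (continuous_fst.comp continuous_snd)
      exact h2.preimage h1
    obtain ⟨x0, y0, -, hxy0⟩ := hcon 1 one_pos
    obtain ⟨q, hq, hmin⟩ := hD.exists_isMinOn ⟨(x0, y0), hxy0⟩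
      (continuous_dist (α := H282R3.MK.St)).continuousOn
    have hpos : 0 < dist q.1 q.2 := by
      rw [dist_pos]
      intro h
      exact hq (congrArg Prod.fst h)
    obtain ⟨x, y, hxy, hne⟩ := hcon _ hpos
    have := hmin (show (x, y) ∈ {q : H282R3.MK.St × H282R3.MK.St | q.1.1 ≠ q.2.1} from hne)
    simp only [Set.mem_ofPred_eq] at this
    linarith
  obtain ⟨ε, hε0, hε⟩ := hε
  obtain ⟨μ, h1, h2, h3, h4, h5⟩ := H282R3.MK.process_of_kernel H282R3.MK.piS H282R3.MK.PP
    H282R3.MK.PP_meas H282R3.MK.PP_one H282R3.MK.PP_two H282R3.MK.PP_three ε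
    (fun x y hxy => H282R3.MK.PP_same x y (hε x y hxy))
  exact ⟨H282R3.MK.St, m, inferInstance, inferInstance, inferInstance, ℤ → H282R3.MK.St,
    inferInstance, μ, fun i ω => ω i, 2, ε, h1, fun i => measurable_pi_apply i, h2, h3,
    by norm_num, hε0, h4, h5⟩

end Pool.Agent.S19375
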