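import Pool.Statements.S19407
-- import your own Pool.Agent.* helpers here
import Pool.Agent.H102R3.SKF
import Pool.Agent.H102R3.SKM
import Pool.Agent.H725R3.SKTLower
import Pool.Agent.H150R3.SK.TRotPair
import Pool.Agent.H174R3.SK.TUpper
import Pool.Agent.H594.SKTGT
import Pool.Agent.H672R3.SK.TIndep

import Pool.Agent.H92R3.SK.Chaos

set_option autoImplicit false
open MeasureTheory ProbabilityTheory Filter
open Pool Pool.MP_755967_pr

namespace Pool.Agent.S19407

/-- For the SK model with zero field, any β>0 and any a<0, both (1/N)E log Z_N and (1/(aN)) log E Z_N^a converge, to the same limit. -/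
theorem result :
  ∀ β : ℝ, 0 < β → ∀ a : ℝ, a < 0 →
    ∃ L : ℝ,
      Tendsto (fun N : ℕ => (1 / (N : ℝ)) *
          ∫ g, Real.log (∑ σ : Fin N → Fin 2,
              Real.exp (β / Real.sqrt (N : ℝ) *
                ∑ i : Fin N, ∑ j : Fin N,
                  if i < j then g (i, j) * (-1 : ℝ) ^ (σ i).val * (-1 : ℝ) ^ (σ j).val else 0))
            ∂(Measure.pi fun _ : Fin N × Fin N => gaussianReal 0 1))
        atTop (nhds L) ∧
      Tendsto (fun N : ℕ => (1 / (a * (N : ℝ))) *
          Real.log (∫ g, (∑ σ : Fin N → Fin 2,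
              Real.exp (β / Real.sqrt (N : ℝ) *
                ∑ i : Fin N, ∑ j : Fin N,
                  if i < j then g (i, j) * (-1 : ℝ) ^ (σ i).val * (-1 : ℝ) ^ (σ j).val else 0)) ^ a
            ∂(Measure.pi fun _ : Fin N × Fin N => gaussianReal 0 1)))
        atTop (nhds L) := by
  have hM := Pool.H102.SK.tmono
  have hN := Pool.H594.SK.tInner
  have hR := Pool.Agent.H150R3.SK.tRot
  exact Pool.H102.SK.final Pool.Agent.H150R3.SK.tPair (Pool.Agent.H725R3.SKL.tLower hR)
    (Pool.H594.SK.tGT hM)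
    (Pool.H92.SKChaos.chaos hM Pool.Agent.H672R3.SKI.tIndep hN hR) hN
    Pool.Agent.H174R3.SKUpper.tUpper

end Pool.Agent.S19407
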