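-- Disproof: a nilpotent cellular automaton on the square lattice with a positive zero-range noise whose
-- noisy dynamics is the parallel heat bath of the Ising model, hence not ergodic at low temperature.
import Pool.Statements.S19424
import Pool.Agent.H767R3.CAMeas

set_option autoImplicit false
open MeasureTheory Filter Topology
open Pool Pool.MP_798553_pr

namespace Pool.Agent.S19424

open Pool.Agent.Helper580.IsingLat Pool.Agent.H767R3.CAMeas Pool.Agent.H767R3.CAProc

/-- The negation of the preceding statement: For every nilpotent cellular automaton on ℤ^d with finite alphabet and every positive cellwise noise matrix, the noisy dynamics (CA then independent noise) has a probability measure to which all initial measures converge weakly. -/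
theorem result :
    ¬ (∀ (d q : ℕ) (N : Finset (Fin d → ℤ)) (f : (N → Fin q) → Fin q)
    (F : ((Fin d → ℤ) → Fin q) → ((Fin d → ℤ) → Fin q)),
    (∀ x i, F x i = f (fun v => x (i + v.1))) →
    (∃ n : ℕ, ∃ a : Fin q, ∀ x, F^[n] x = fun _ => a) →
    ∀ θ : Fin q → PMF (Fin q), (∀ a b, θ a b ≠ 0) →
    ∃ ν : Measure ((Fin d → ℤ) → Fin q), IsProbabilityMeasure ν ∧
      ∀ μ : Measure ((Fin d → ℤ) → Fin q), IsProbabilityMeasure μ →
        ∀ (S : Finset (Fin d → ℤ)) (c : (Fin d → ℤ) → Fin q),
          Tendsto (fun n : ℕ =>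
              ((fun m : Measure ((Fin d → ℤ) → Fin q) =>
                  m.bind (fun x => Measure.infinitePi
                    (fun i : Fin d → ℤ => (θ (F x i)).toMeasure)))^[n] μ)
                {y | ∀ i ∈ S, y i = c i})
            atTop (𝓝 (ν {y | ∀ i ∈ S, y i = c i}))) := by
  intro H
  obtain ⟨q, hq⟩ : ∃ q : ℝ, q = (1 / 5 : ℝ) * (1 / 2) ^ (8 * 2 + 1) := ⟨_, rfl⟩
  have hq0 : 0 < q := by rw [hq]; positivity
  have hq1 : q ≤ 1 := by rw [hq]; norm_num
  obtain ⟨β, hβ⟩ : ∃ β : ℝ, β = -(Real.log q) / 2 := ⟨_, rfl⟩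
  have hβ0 : 0 ≤ β := by
    have := Real.log_nonpos hq0.le hq1
    rw [hβ]; linarith
  have hexp : Real.exp (-(2 * β)) = (1 / 5 : ℝ) * (1 / 2) ^ (8 * 2 + 1) := by
    rw [← hq, hβ, show -(2 * (-(Real.log q) / 2)) = Real.log q by ring, Real.exp_log hq0]
  have h01 : (1 : Fin 2) ≠ 0 := by decide
  obtain ⟨ν, hν, hconv⟩ := H 2 6 N0 locf Pool.Agent.H767R3.CAMeas.F (fun x i => rfl) F_nil (θ β) (θ_ne β)
  have hset : {y : Cfg | ∀ i ∈ ({0} : Finset (Fin 2 → ℤ)), y i = (fun _ => (5 : Fin 6)) i} =
      {y : Cfg | y 0 = 5} := by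
    ext y; simp
  have key : ∀ μ : Measure Cfg, IsProbabilityMeasure μ →
      Tendsto (fun t : ℕ => ∫⁻ x, ENNReal.ofReal (gf β t (M (cone 2 t) x)) ∂μ) atTop
        (𝓝 (ν {y : Cfg | y 0 = 5})) := by
    intro μ hμ
    have h := hconv μ hμ {0} (fun _ => 5)
    rw [hset] at h
    refine h.congr ?_
    intro t
    exact iter_eq β t μ
  have hlow := key (Measure.dirac (fun _ => (0 : Fin 6))) inferInstance
  have hup := key (Measure.dirac (fun _ => (5 : Fin 6))) inferInstance
  have hMlow : ∀ t, M (cone 2 t) (fun _ => (0 : Fin 6)) = ∅ := by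
    intro t
    unfold M
    rw [Finset.filter_eq_empty_iff]
    intro i _
    simp
  have hMup : ∀ t, M (cone 2 t) (fun _ => (5 : Fin 6)) = cone 2 t := by
    intro t
    unfold M
    rw [Finset.filter_true_of_mem]
    intro i _
    rfl
  have e1 : ν {y : Cfg | y 0 = 5} ≤ ENNReal.ofReal (1 / 4) := by
    refine le_of_tendsto hlow (Eventually.of_forall fun t => ?_)
    rw [lintegral_dirac' _ (fun_meas _ _), hMlow t]
    exact ENNReal.ofReal_le_ofReal (gf_empty_le h01 hβ0 hexp t)
  have e2 : ENNReal.ofReal (3 / 4) ≤ ν {y : Cfg | y 0 = 5} := by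
    refine ge_of_tendsto hup (Eventually.of_forall fun t => ?_)
    rw [lintegral_dirac' _ (fun_meas _ _), hMup t]
    exact ENNReal.ofReal_le_ofReal (gf_full_ge h01 hβ0 hexp t)
  have h3 := e2.trans e1
  rw [ENNReal.ofReal_le_ofReal_iff (by norm_num)] at h3
  norm_num at h3

end Pool.Agent.S19424
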