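import Pool.Statements.S19462
import Pool.Agent.H632R3.Cube

set_option autoImplicit false
open Filter Topology
open Pool Pool.MP_8aef71_pr

namespace Pool.Agent.S19462

open Pool.Agent.H632R3.Conv

theorem exp_lim {r : ℝ} (hr : 0 < r) :
    Tendsto (fun n : ℕ => ((n : ℝ) + 1) * r) atTop atTop :=
  (tendsto_atTop_add_const_right _ 1 tendsto_natCast_atTop_atTop).atTop_mul_const hr

theorem result :
    ¬ (∀ (G : ℕ → Type) [∀ n, Group (G n)] [∀ n, Fintype (G n)] [∀ n, DecidableEq (G n)]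
    (p : ∀ n, G n → ℝ) (d : ℕ → ℕ → ℝ),
    (∀ n g, 0 ≤ p n g) → (∀ n, ∑ g, p n g = 1) →
    (∀ n k, d n k = (1 / 2 : ℝ) * ∑ g : G n,
        |(∑ f ∈ (Finset.univ : Finset (Fin k → G n)).filter (fun f => (List.ofFn f).prod = g),
            ∏ i, p n (f i)) - 1 / (Fintype.card (G n) : ℝ)|) →
    (∃ t : ℕ → ℝ, Tendsto t atTop atTop ∧ ∃ a b : ℝ, 0 < a ∧ a < b ∧
        Tendsto (fun n => d n ⌊b * t n⌋₊) atTop (𝓝 0) ∧
        ∃ ε : ℝ, 0 < ε ∧ ∀ᶠ n in atTop, ε ≤ d n ⌊a * t n⌋₊) →
    ∃ s : ℕ → ℝ, Tendsto s atTop atTop ∧ ∀ ε : ℝ, 0 < ε → ε < 1 →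
        Tendsto (fun n => d n ⌊(1 + ε) * s n⌋₊) atTop (𝓝 0) ∧
        Tendsto (fun n => d n ⌊(1 - ε) * s n⌋₊) atTop (𝓝 1)) := by
  intro hall
  -- parameters
  set m : ℕ → ℕ := fun n => 2 ^ (n + 1) with hm
  have hm2 : ∀ n, 2 ≤ m n := fun n => by
    simp only [hm]
    calc 2 = 2 ^ 1 := rfl
      _ ≤ 2 ^ (n + 1) := Nat.pow_le_pow_right (by norm_num) (by omega)
  have hm0 : ∀ n, 0 < m n := fun n => by have := hm2 n; omega
  have hmr : ∀ n, (0 : ℝ) < m n := fun n => by exact_mod_cast hm0 n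
  set T : ℕ → ℝ := fun n => ((n : ℝ) + 1) * m n with hT
  have hTge : ∀ n, 2 ≤ T n := by
    intro n
    have h1 : (2 : ℝ) ≤ m n := by exact_mod_cast hm2 n
    have h2 : (0 : ℝ) ≤ n := Nat.cast_nonneg n
    simp only [hT]
    nlinarith
  have hTlim : Tendsto T atTop atTop := by
    refine tendsto_atTop_mono (fun n => ?_) tendsto_natCast_atTop_atTop
    have h1 : (2 : ℝ) ≤ m n := by exact_mod_cast hm2 n
    have h2 : (0 : ℝ) ≤ n := Nat.cast_nonneg n
    simp only [hT]
    nlinarith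
  have hθ0 : ∀ n, 0 ≤ 1 / T n := fun n => by have := hTge n; positivity
  have hθ1 : ∀ n, 1 / T n ≤ 1 := fun n => by
    have := hTge n
    rw [div_le_one (by linarith)]; linarith
  -- the walks
  set σ : ∀ n, (Fin (m n) → ZMod 2) → ℝ := fun n => jump (cube (m n)) (1 / T n) with hσ
  have hσ0 : ∀ n x, 0 ≤ σ n x := fun n x => jump_nonneg _ (hθ0 n) (hθ1 n) x
  have hσ1 : ∀ n, ∑ x, σ n x = 1 := fun n => jump_sum _ (hm0 n) _
  set d : ℕ → ℕ → ℝ := fun n k => tv (cpow (σ n) k) with hd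
  have hanti : ∀ n, Antitone (d n) := fun n => tv_antitone (hσ0 n) (hσ1 n)
  have hdeq : ∀ n k, d n k = (1 - 1 / T n) ^ k * tv (cpow (base (cube (m n))) k) := fun n k =>
    tv_jump (cube (m n)) (hm0 n) (hθ1 n) k
  have hlog : ∀ n, Real.log (m n) = ((n : ℝ) + 1) * Real.log 2 := by
    intro n
    simp only [hm]
    push_cast
    rw [Real.log_pow]
    push_cast
    ring
  -- profile before the mixing of the base walk
  have hprof : ∀ c : ℝ, 0 ≤ c → c ≤ 1 / 8 →
      Tendsto (fun n => d n ⌊c * T n⌋₊) atTop (𝓝 (Real.exp (-c))) := by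
    intro c hc0 hc
    have h1 := pow_floor_tendsto hTlim hc0
    have h2 : Tendsto (fun n => tv (cpow (base (cube (m n))) ⌊c * T n⌋₊)) atTop (𝓝 1) := by
      refine base_unmixed (fun n => cube (m n)) hm2 ?_
      have hl2 := Real.log_two_gt_d9
      refine tendsto_atTop_mono (fun n => ?_) (exp_lim (r := Real.log 2 - 4 * c) (by linarith))
      have h3 : (⌊c * T n⌋₊ : ℝ) ≤ c * T n := Nat.floor_le (by
        have := hTge n; positivity)
      have h4 : 4 * (⌊c * T n⌋₊ : ℝ) / m n ≤ 4 * c * ((n : ℝ) + 1) := by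
        rw [div_le_iff₀ (hmr n)]
        simp only [hT] at h3 ⊢
        nlinarith
      rw [hlog]
      linarith
    have h3 := h1.mul h2
    rw [mul_one] at h3
    refine h3.congr fun n => ?_
    rw [hdeq]
  -- full mixing
  have hfull : Tendsto (fun n => d n ⌊1 * T n⌋₊) atTop (𝓝 0) := by
    have hfl : ∀ n, ⌊1 * T n⌋₊ = (n + 1) * m n := by
      intro n
      have : 1 * T n = (((n + 1) * m n : ℕ) : ℝ) := by simp [hT]
      rw [this, Nat.floor_natCast]
    have hup : ∀ n, d n ⌊1 * T n⌋₊ ≤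
        (1 / 2) * (Real.exp ((2 * Real.exp (-1)) ^ (n + 1)) - 1) := by
      intro n
      rw [hfl, hdeq]
      have h1 : (1 - 1 / T n) ^ ((n + 1) * m n) ≤ 1 :=
        pow_le_one₀ (by linarith [hθ1 n]) (by linarith [hθ0 n])
      have h2 := cube_upper (m n) (hm0 n) ((n + 1) * m n)
      have h3 : ((((n + 1) * m n : ℕ) : ℝ) / m n) = (n : ℝ) + 1 := by
        push_cast
        rw [mul_div_assoc, div_self (hmr n).ne', mul_one]
      rw [h3] at h2
      have h4 : (1 + Real.exp (-((n : ℝ) + 1))) ^ (m n) ≤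
          Real.exp ((2 * Real.exp (-1)) ^ (n + 1)) := by
        have h5 : 1 + Real.exp (-((n : ℝ) + 1)) ≤ Real.exp (Real.exp (-((n : ℝ) + 1))) := by
          have := Real.add_one_le_exp (Real.exp (-((n : ℝ) + 1))); linarith
        calc (1 + Real.exp (-((n : ℝ) + 1))) ^ (m n)
            ≤ Real.exp (Real.exp (-((n : ℝ) + 1))) ^ (m n) :=
              pow_le_pow_left₀ (by positivity) h5 _
          _ = Real.exp ((2 * Real.exp (-1)) ^ (n + 1)) := by
              rw [← Real.exp_nat_mul, mul_pow, ← Real.exp_nat_mul]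
              congr 1
              simp only [hm]
              push_cast
              congr 2
              ring
      have h6 : 0 ≤ tv (cpow (base (cube (m n))) ((n + 1) * m n)) := tv_nonneg _
      calc (1 - 1 / T n) ^ ((n + 1) * m n) * tv (cpow (base (cube (m n))) ((n + 1) * m n))
          ≤ 1 * tv (cpow (base (cube (m n))) ((n + 1) * m n)) :=
            mul_le_mul_of_nonneg_right h1 h6
        _ ≤ _ := by rw [one_mul]; linarith
    have hlim : Tendsto (fun n : ℕ => (1 / 2) * (Real.exp ((2 * Real.exp (-1)) ^ (n + 1)) - 1))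
        atTop (𝓝 0) := by
      have h1 : 2 * Real.exp (-1) < 1 := by
        have := Real.exp_one_gt_d9
        rw [Real.exp_neg, mul_inv_lt_iff₀ (Real.exp_pos 1)]
        linarith
      have h2 : Tendsto (fun n : ℕ => (2 * Real.exp (-1)) ^ (n + 1)) atTop (𝓝 0) :=
        (tendsto_add_atTop_iff_nat 1).mpr
          (tendsto_pow_atTop_nhds_zero_of_lt_one (by positivity) h1)
      have h3 := (Real.continuous_exp.tendsto 0).comp h2
      have h4 := (h3.sub_const 1).const_mul (1 / 2 : ℝ)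
      simpa using h4
    exact squeeze_zero (fun n => tv_nonneg _) hup hlim
  -- apply the alleged theorem
  obtain ⟨s, hs, hcut⟩ := hall (fun n => Multiplicative (Fin (m n) → ZMod 2))
    (fun n g => σ n (Multiplicative.toAdd g)) d (fun n g => hσ0 n _)
    (fun n => by
      rw [Multiplicative.toAdd.sum_comp (fun x => σ n x)]
      exact hσ1 n)
    (fun n k => by
      simp only [hd, tv]
      congr 1
      rw [← Multiplicative.toAdd.sum_comp
        (fun x => |cpow (σ n) k x - 1 / (Fintype.card (Fin (m n) → ZMod 2) : ℝ)|)]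
      refine Finset.sum_congr rfl fun g _ => ?_
      rw [words (σ n) k g, Fintype.card_multiplicative])
    ⟨T, hTlim, 1 / 8, 1, by norm_num, by norm_num, hfull, Real.exp (-(1 / 8)) / 2, by positivity,
      (hprof (1 / 8) (by norm_num) le_rfl).eventually_const_le
        (by have := Real.exp_pos (-(1 / 8)); linarith)⟩
  obtain ⟨h1, h2⟩ := hcut (1 / 4) (by norm_num) (by norm_num)
  have hp1 := hprof (1 / 16) (by norm_num) (by norm_num)
  have hp2 := hprof (1 / 8) (by norm_num) le_rfl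
  have hlt : Real.exp (-(1 / 16)) < 1 := by
    rw [Real.exp_lt_one_iff]; norm_num
  have e1 := hp1.eventually_lt h2 hlt
  have e2 := h1.eventually_lt hp2 (Real.exp_pos _)
  obtain ⟨n, hn1, hn2⟩ := (e1.and e2).exists
  have h3 : ⌊(1 - 1 / 4) * s n⌋₊ < ⌊1 / 16 * T n⌋₊ := by
    by_contra hcon
    exact absurd (hanti n (not_lt.mp hcon)) (not_le.mpr hn1)
  have h4 : ⌊1 / 8 * T n⌋₊ < ⌊(1 + 1 / 4) * s n⌋₊ := by
    by_contra hcon
    exact absurd (hanti n (not_lt.mp hcon)) (not_le.mpr hn2)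
  have h5 : (1 - 1 / 4) * s n < 1 / 16 * T n := by
    by_contra hcon
    exact absurd (Nat.floor_mono (not_lt.mp hcon)) (not_le.mpr h3)
  have h6 : 1 / 8 * T n < (1 + 1 / 4) * s n := by
    by_contra hcon
    exact absurd (Nat.floor_mono (not_lt.mp hcon)) (not_le.mpr h4)
  have := hTge n
  linarith

end Pool.Agent.S19462
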