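import Pool.Statements.S19470
import Pool.Agent.H35R3.Coloring

set_option autoImplicit false
open Pool Pool.MP_8e1c75_pr

namespace Pool.Agent.S19470

/-- The negation of the preceding statement: For every finite bipartite graph with side A, every q ≥ 3, every color c, and all increasing X, Y on sets, E[X·Y] ≥ E[X]·E[Y] for the set of A-vertices colored c under a uniformly random proper q-coloring. -/
theorem result :
    ¬ (∀ (V : Type) [Fintype V] [DecidableEq V] (G : SimpleGraph V) [DecidableRel G.Adj]
    (A : Finset V),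
    (∀ v w : V, G.Adj v w → (v ∈ A ↔ w ∉ A)) →
    ∀ (q : ℕ), 3 ≤ q → ∀ (c : Fin q) (X Y : Finset V → ℝ), Monotone X → Monotone Y →
    (((Finset.univ : Finset (V → Fin q)).filter
          (fun f => ∀ v w : V, G.Adj v w → f v ≠ f w)).card : ℝ) *
      (∑ f ∈ (Finset.univ : Finset (V → Fin q)).filter
          (fun f => ∀ v w : V, G.Adj v w → f v ≠ f w),
        X (A.filter (fun v => f v = c)) * Y (A.filter (fun v => f v = c)))
    ≥ (∑ f ∈ (Finset.univ : Finset (V → Fin q)).filter
          (fun f => ∀ v w : V, G.Adj v w → f v ≠ f w),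
        X (A.filter (fun v => f v = c))) *
      (∑ f ∈ (Finset.univ : Finset (V → Fin q)).filter
          (fun f => ∀ v w : V, G.Adj v w → f v ≠ f w),
        Y (A.filter (fun v => f v = c)))) := by
  intro h
  have h1 := h (H35R3.Col.Vx 169) (H35R3.Col.Gr 169) (H35R3.Col.A 169) H35R3.Col.bip 3 (le_refl 3) 0
    H35R3.Col.X H35R3.Col.Y H35R3.Col.monoX H35R3.Col.monoY
  exact absurd H35R3.Col.final (not_lt.mpr h1)

end Pool.Agent.S19470
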