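import Pool.Statements.S19478
import Pool.Agent.H95R3.NormF

set_option autoImplicit false
open MeasureTheory
open scoped ENNReal Pointwise
open Pool Pool.MP_91dfc6_pr

namespace Pool.Agent.S19478

/-- The negation of the preceding statement: For every n≥1, p in [0,∞], κ in [−∞,1/n] and every symmetric κ-concave probability law on ℝⁿ with a density whose marginals v·X have p-Rényi entropy power in (0,∞), the map v ↦ N_p(v·X)^{1/2} (0 at v=0) is a norm. -/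
theorem result :
    ¬ (∀ (n : ℕ), 1 ≤ n →
  ∀ (p : ℝ≥0∞) (κ : EReal), κ ≤ (((1 : ℝ) / (n : ℝ) : ℝ) : EReal) →
  ∀ (μ : Measure (Fin n → ℝ)), IsProbabilityMeasure μ → μ ≪ volume →
  μ.map (fun x => -x) = μ →
  (∀ (A B : Set (Fin n → ℝ)), MeasurableSet A → MeasurableSet B → A.Nonempty → B.Nonempty →
    ∀ t : ℝ, 0 ≤ t → t ≤ 1 →
      (κ = ⊥ → min (μ A) (μ B) ≤ μ (t • A + (1 - t) • B)) ∧
      (κ = 0 → ENNReal.ofReal ((μ A).toReal ^ t * (μ B).toReal ^ (1 - t))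
                  ≤ μ (t • A + (1 - t) • B)) ∧
      (κ ≠ ⊥ → κ ≠ 0 → (0 < κ ∨ (0 < μ A ∧ 0 < μ B)) →
        ENNReal.ofReal ((t * (μ A).toReal ^ κ.toReal + (1 - t) * (μ B).toReal ^ κ.toReal)
                          ^ (1 / κ.toReal))
          ≤ μ (t • A + (1 - t) • B))) →
  ∀ (g : (Fin n → ℝ) → ℝ → ℝ≥0∞),
    (∀ v : Fin n → ℝ, v ≠ 0 → Measurable (g v) ∧
      μ.map (fun x => ∑ i, v i * x i) = (volume : Measure ℝ).withDensity (g v)) →
  ∀ (N : (Fin n → ℝ) → ℝ≥0∞),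
    (p = 0 → ∀ v, N v = (volume {x : ℝ | 0 < g v x}) ^ 2) →
    (p = 1 → ∀ v,
      (Integrable (fun x => (g v x).toReal * Real.log (g v x).toReal) →
        N v = ENNReal.ofReal (Real.exp (-2 * ∫ x, (g v x).toReal * Real.log (g v x).toReal))) ∧
      (¬ Integrable (fun x => (g v x).toReal * Real.log (g v x).toReal) → N v = 0)) →
    (p = ⊤ → ∀ v, N v = (essSup (g v) volume) ^ (-2 : ℝ)) →
    (p ≠ 0 → p ≠ 1 → p ≠ ⊤ → ∀ v,
      N v = (∫⁻ x, g v x ^ p.toReal) ^ (2 / (1 - p.toReal))) →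
    (∀ v : Fin n → ℝ, v ≠ 0 → 0 < N v ∧ N v < ⊤) →
  ∀ (nrm : (Fin n → ℝ) → ℝ),
    (∀ v, (v = 0 → nrm v = 0) ∧ (v ≠ 0 → nrm v = Real.sqrt (N v).toReal)) →
    (∀ u v : Fin n → ℝ, nrm (u + v) ≤ nrm u + nrm v) ∧
    (∀ (c : ℝ) (v : Fin n → ℝ), nrm (c • v) = |c| * nrm v) ∧
    (∀ v : Fin n → ℝ, nrm v = 0 → v = 0)) := by
  intro H
  have hp0 := H95R3.NormK.p0_pos
  have hp1 := H95R3.NormK.p0_lt
  have hp2 := H95R3.NormK.p0_gt
  have hq : 0 < 1 - H95R3.NormK.p0 := by linarith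
  have hpr : (ENNReal.ofReal H95R3.NormK.p0).toReal = H95R3.NormK.p0 :=
    ENNReal.toReal_ofReal hp0.le
  set g : (Fin 2 → ℝ) → ℝ → ℝ≥0∞ := fun v =>
    (H95R3.NormK.mu.map (fun x => ∑ i, v i * x i)).rnDeriv volume with hg
  have hglaw : ∀ v : Fin 2 → ℝ, v ≠ 0 → Measurable (g v) ∧
      H95R3.NormK.mu.map (fun x => ∑ i, v i * x i)
        = (volume : Measure ℝ).withDensity (g v) := by
    intro v hv
    refine ⟨Measure.measurable_rnDeriv _ _, ?_⟩
    exact (Measure.withDensity_rnDeriv_eq _ _ (H95R3.NormK.law_ac v hv)).symm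
  set N : (Fin 2 → ℝ) → ℝ≥0∞ := fun v =>
    (∫⁻ x, g v x ^ (ENNReal.ofReal H95R3.NormK.p0).toReal)
      ^ (2 / (1 - (ENNReal.ofReal H95R3.NormK.p0).toReal)) with hN
  have hNv : ∀ v, N v = (∫⁻ x, g v x ^ H95R3.NormK.p0) ^ (2 / (1 - H95R3.NormK.p0)) := by
    intro v
    simp only [hN, hpr]
  have hfin : ∀ v : Fin 2 → ℝ, v ≠ 0 → ∫⁻ x, g v x ^ H95R3.NormK.p0 ≠ ⊤ := by
    intro v hv
    obtain ⟨h1, h2⟩ := hglaw v hv
    rw [H95R3.NormK.mu_map] at h2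
    exact H95R3.NormK.finite_of_law _ _ _ h1 h2
  have hpos : ∀ v : Fin 2 → ℝ, v ≠ 0 → 0 < ∫⁻ x, g v x ^ H95R3.NormK.p0 := by
    intro v hv
    obtain ⟨h1, h2⟩ := hglaw v hv
    rw [H95R3.NormK.mu_map] at h2
    exact H95R3.NormK.pos_of_law _ _ _ h1 h2
  set nrm : (Fin 2 → ℝ) → ℝ := fun v => if v = 0 then 0 else Real.sqrt (N v).toReal with hnrm
  have hnv : ∀ v : Fin 2 → ℝ, v ≠ 0 →
      nrm v = (∫⁻ x, g v x ^ H95R3.NormK.p0).toReal ^ (1 / (1 - H95R3.NormK.p0)) := by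
    intro v hv
    simp only [hnrm, if_neg hv, hNv]
    rw [← ENNReal.toReal_rpow, Real.sqrt_eq_rpow, ← Real.rpow_mul ENNReal.toReal_nonneg]
    congr 1
    field_simp
  obtain ⟨tri, hom, -⟩ := H 2 (by norm_num) (ENNReal.ofReal H95R3.NormK.p0) ⊥ bot_le
    H95R3.NormK.mu inferInstance H95R3.NormK.mu_ac H95R3.NormK.mu_symm
    (fun A B hA hB hA' hB' t t0 t1 => ⟨fun _ => H95R3.NormK.mu_min t0 t1 A B hA hB hA' hB',
      fun h => absurd h (by simp), fun h => absurd rfl h⟩)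
    g hglaw N
    (fun h => absurd h (by
      rw [ENNReal.ofReal_eq_zero]; linarith))
    (fun h => absurd h (by
      intro h
      have := congrArg ENNReal.toReal h
      rw [hpr, ENNReal.toReal_one] at this
      linarith))
    (fun h => absurd h ENNReal.ofReal_ne_top)
    (fun _ _ _ v => rfl)
    (fun v hv => by
      rw [hNv]
      exact ⟨ENNReal.rpow_pos (hpos v hv) (hfin v hv),
        ENNReal.rpow_lt_top_of_nonneg (by positivity) (hfin v hv)⟩)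
    nrm (fun v => ⟨fun h => by simp only [hnrm, if_pos h], fun h => by simp only [hnrm, if_neg h]⟩)
  -- the three vectors
  have hI : ∀ (v : Fin 2 → ℝ) (k : ℝ → ℝ≥0∞), Measurable k →
      H95R3.NormK.nu16.map (fun p : ℝ × ℝ => v 0 * p.1 + v 1 * p.2) = volume.withDensity k →
      ∫⁻ x, g v x ^ H95R3.NormK.p0 = ∫⁻ x, k x ^ H95R3.NormK.p0 := by
    intro v k hk h
    have h1 : g v =ᵐ[volume] k := by
      simp only [hg]
      rw [H95R3.NormK.mu_map, h]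
      exact Measure.rnDeriv_withDensity _ hk
    refine lintegral_congr_ae ?_
    filter_upwards [h1] with x hx
    rw [hx]
  have n10 : (![1, 0] : Fin 2 → ℝ) ≠ 0 := fun h => by simpa using congrFun h 0
  have n01 : (![0, 1] : Fin 2 → ℝ) ≠ 0 := fun h => by simpa using congrFun h 1
  have n1b : (![1, H95R3.NormK.bb] : Fin 2 → ℝ) ≠ 0 := fun h => by simpa using congrFun h 0
  have i10 := hI ![1, 0] (H95R3.NormK.gb 0) (H95R3.NormK.gb_meas 0)
    (by simpa using H95R3.NormK.law_b 0)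
  have i01 := hI ![0, 1] H95R3.NormK.gy H95R3.NormK.gy_meas (by simpa using H95R3.NormK.law_y)
  have i1b := hI ![1, H95R3.NormK.bb] (H95R3.NormK.gb H95R3.NormK.bb)
    (H95R3.NormK.gb_meas H95R3.NormK.bb) (by simpa using H95R3.NormK.law_b H95R3.NormK.bb)
  have f10 := hfin _ n10
  have f01 := hfin _ n01
  have f1b := hfin _ n1b
  have t1 := tri ![1, 0] (H95R3.NormK.bb • ![0, 1])
  have e1 : (![1, 0] : Fin 2 → ℝ) + H95R3.NormK.bb • ![0, 1] = ![1, H95R3.NormK.bb] := by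
    ext i; fin_cases i <;> simp
  have hbb := H95R3.NormK.bb_pos
  rw [e1, hom, abs_of_pos hbb, hnv _ n10, hnv _ n01, hnv _ n1b, i10, i01, i1b] at t1
  rw [i10] at f10
  rw [i01] at f01
  rw [i1b] at f1b
  have m1 := H95R3.NormK.main_comparison
  have m2 := H95R3.NormK.lint_gX_lower
  have m3 := H95R3.NormK.lint_gy_upper
  set A := (∫⁻ z, H95R3.NormK.gb 0 z ^ H95R3.NormK.p0).toReal with hA
  set B := (∫⁻ z, H95R3.NormK.gb H95R3.NormK.bb z ^ H95R3.NormK.p0).toReal with hB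
  set Y := (∫⁻ z, H95R3.NormK.gy z ^ H95R3.NormK.p0).toReal with hY
  have r1 : A + 148 ≤ B := by
    have := ENNReal.toReal_mono f1b m1
    rwa [ENNReal.toReal_add f10 ENNReal.ofReal_ne_top, ENNReal.toReal_ofReal (by norm_num)] at this
  have r2 : 2 ^ 23 ≤ A := by
    have := ENNReal.toReal_mono f10 m2
    rwa [ENNReal.toReal_ofReal (by norm_num)] at this
  have r3 : Y ≤ 8 := by
    have := ENNReal.toReal_mono ENNReal.ofReal_ne_top m3
    rwa [ENNReal.toReal_ofReal (by norm_num)] at this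
  have hY0 : 0 ≤ Y := ENNReal.toReal_nonneg
  set q := 1 / (1 - H95R3.NormK.p0) with hqd
  have q3 : 3 ≤ q := by rw [hqd, le_div_iff₀ hq]; linarith
  have q4 : q ≤ 4 := by rw [hqd, div_le_iff₀ hq]; linarith
  have hA0 : 0 < A := lt_of_lt_of_le (by norm_num) r2
  have s1 : (A + 148) ^ q ≤ B ^ q := Real.rpow_le_rpow (by linarith) r1 (by linarith)
  have s2 : A ^ q + 148 * A ^ (q - 1) ≤ (A + 148) ^ q := by
    have e : ∀ w : ℝ, 0 < w → w ^ q = w * w ^ (q - 1) := by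
      intro w hw
      rw [Real.rpow_sub_one hw.ne']
      field_simp
    rw [e A hA0, e (A + 148) (by linarith)]
    have : A ^ (q - 1) ≤ (A + 148) ^ (q - 1) :=
      Real.rpow_le_rpow hA0.le (by linarith) (by linarith)
    nlinarith
  have s3 : (2:ℝ) ^ 46 ≤ A ^ (q - 1) := by
    calc (2:ℝ) ^ 46 = ((2:ℝ) ^ 23) ^ (2:ℝ) := by norm_num
      _ ≤ A ^ (2:ℝ) := Real.rpow_le_rpow (by norm_num) r2 (by norm_num)
      _ ≤ _ := Real.rpow_le_rpow_of_exponent_le (by linarith) (by linarith)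
  have s4 : Y ^ q ≤ 8 ^ 4 := by
    calc Y ^ q ≤ 8 ^ q := Real.rpow_le_rpow hY0 r3 (by linarith)
      _ ≤ 8 ^ (4:ℝ) := Real.rpow_le_rpow_of_exponent_le (by norm_num) q4
      _ = 8 ^ 4 := by norm_num
  have s5 : H95R3.NormK.bb * Y ^ q ≤ 2 ^ 37 * 8 ^ 4 := by
    unfold H95R3.NormK.bb
    gcongr
  have s6 : (2:ℝ) ^ 37 * 8 ^ 4 < 148 * 2 ^ 46 := by norm_num
  linarith

end Pool.Agent.S19478
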