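import Pool.Statements.S19489
import Pool.Agent.H409R3.Ring6

set_option autoImplicit false
open Classical
open Pool Pool.MP_9492fd_pr

namespace Pool.Agent.S19489

/-- In the n-species TASEP on a ring of n sites (larger species at a site swaps with a smaller one to its right at rate 1), any stationary law gives probability 1/n^r that sites 1..r carry i_1..i_r whenever i_a+1<i_{a+1}. -/
theorem result :
    ∀ n : ℕ, ∀ π : Equiv.Perm (Fin n) → ℝ,
      (∀ σ, 0 ≤ π σ) →
      (∑ σ, π σ) = 1 →
      (∀ σ : Equiv.Perm (Fin n),
        (∑ k : Fin n, (if σ (finRotate n k) < σ k then π σ else 0)) =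
          ∑ k : Fin n, (if σ k < σ (finRotate n k)
            then π (σ * Equiv.swap k (finRotate n k)) else 0)) →
      ∀ r : ℕ, r ≤ n →
      ∀ i : Fin r → Fin n,
        (∀ a b : Fin r, a.val + 1 = b.val → (i a).val + 1 < (i b).val) →
        (∑ σ ∈ Finset.univ.filter
            (fun σ : Equiv.Perm (Fin n) =>
              ∀ p : Fin n, ∀ a : Fin r, p.val = a.val → σ p = i a),
          π σ) = 1 / (n : ℝ) ^ r := by
  intro n π hnn hsum hst
  have hst' : ∀ τ : Equiv.Perm (Fin n),
        π τ * ((Finset.univ.filter (fun j : Fin n => τ (finRotate n j) < τ j)).card : ℝ)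
          = ∑ j ∈ Finset.univ.filter (fun j : Fin n => τ j < τ (finRotate n j)),
              π (τ * Equiv.swap j (finRotate n j)) := by
    intro τ
    rw [Finset.sum_filter]
    refine Eq.trans ?_ ((hst τ).trans ?_)
    · rw [← Finset.sum_filter, Finset.sum_const, nsmul_eq_mul, mul_comm]
    · refine Finset.sum_congr rfl (fun j _ => ?_)
      by_cases hj : τ j < τ (finRotate n j)
      · rw [if_pos hj]
      · rw [if_neg hj]
  intro r
  induction r with
  | zero =>
    intro _ i _
    rw [Finset.filter_true_of_mem (fun σ _ p a => a.elim0), hsum]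
    simp
  | succ r ih =>
    intro hr i hi
    have hrn : r < n := hr
    have hmono : ∀ d : ℕ, ∀ a b : Fin (r + 1), a.val + (d + 1) = b.val →
        (i a).val + 1 < (i b).val := by
      intro d
      induction d with
      | zero => exact fun a b h => hi a b h
      | succ d ihd =>
        intro a b h
        have hb : b.val - 1 < r + 1 := by have := b.isLt; omega
        have h1 := ihd a ⟨b.val - 1, hb⟩ (by simp only; omega)
        have h2 := hi ⟨b.val - 1, hb⟩ b (by simp only; omega)
        omega
    have h1 := ih hrn.le (fun a => i a.castSucc)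
      (fun a b h => hi a.castSucc b.castSucc h)
    have h2 := Pool.Agent.H409R3.TR.oneStep n π hnn hsum hst' r hrn (fun a => i a.castSucc)
      (i (Fin.last r)) (fun a => hmono (r - a.val - 1) a.castSucc (Fin.last r) (by
        have := a.isLt
        simp only [Fin.val_castSucc, Fin.val_last]
        omega))
    have e1 : ∑ σ ∈ Finset.univ.filter (fun σ : Equiv.Perm (Fin n) =>
        ∀ p : Fin n, ∀ a : Fin (r+1), p.val = a.val → σ p = i a), π σ =
        ∑ τ ∈ Finset.univ.filter (fun τ : Equiv.Perm (Fin n) =>
              (∀ a : Fin r, τ (Fin.castLE hrn.le a) = i a.castSucc) ∧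
              τ ⟨r, hrn⟩ = i (Fin.last r)), π τ := by
      refine Finset.sum_congr ?_ (fun _ _ => rfl)
      ext σ
      simp only [Finset.mem_filter, Finset.mem_univ, true_and]
      constructor
      · intro h
        exact ⟨fun a => h _ a.castSucc rfl, h _ (Fin.last r) rfl⟩
      · rintro ⟨h3, h4⟩ p a hpa
        rcases Nat.lt_or_ge a.val r with h5 | h5
        · have h6 := h3 ⟨a.val, h5⟩
          have h7 : (Fin.castLE hrn.le ⟨a.val, h5⟩ : Fin n) = p := Fin.ext hpa.symm
          rw [h7] at h6
          exact h6
        · have h6 : a = Fin.last r := Fin.ext (by have := a.isLt; simp only [Fin.val_last]; omega)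
          have h7 : p = ⟨r, hrn⟩ := Fin.ext (by rw [hpa, h6]; rfl)
          rw [h7, h4, h6]
    have e2 : ∑ σ ∈ Finset.univ.filter (fun σ : Equiv.Perm (Fin n) =>
        ∀ p : Fin n, ∀ a : Fin r, p.val = a.val → σ p = i a.castSucc), π σ =
        ∑ τ ∈ Finset.univ.filter (fun τ : Equiv.Perm (Fin n) =>
              (∀ a : Fin r, τ (Fin.castLE hrn.le a) = i a.castSucc)), π τ := by
      refine Finset.sum_congr ?_ (fun _ _ => rfl)
      ext σ
      simp only [Finset.mem_filter, Finset.mem_univ, true_and]
      constructor
      · intro h a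
        exact h _ a rfl
      · intro h p a hpa
        have h7 : (Fin.castLE hrn.le a : Fin n) = p := Fin.ext hpa.symm
        rw [← h7]
        exact h a
    have e3 : ∑ τ ∈ Finset.univ.filter (fun τ : Equiv.Perm (Fin n) =>
              (∀ a : Fin r, τ (Fin.castLE hrn.le a) = i a.castSucc) ∧
              τ ⟨r, hrn⟩ = i (Fin.last r)), π τ =
        1 / (n : ℝ) * ∑ τ ∈ Finset.univ.filter (fun τ : Equiv.Perm (Fin n) =>
              (∀ a : Fin r, τ (Fin.castLE hrn.le a) = i a.castSucc)), π τ := by
      refine Eq.trans ?_ (h2.trans ?_)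
      · refine Finset.sum_congr ?_ (fun _ _ => rfl)
        ext σ
        simp only [Finset.mem_filter]
      · refine congrArg (fun t => 1 / (n : ℝ) * t) ?_
        refine Finset.sum_congr ?_ (fun _ _ => rfl)
        ext σ
        simp only [Finset.mem_filter]
    rw [e1, e3, ← e2, h1, pow_succ, one_div_mul_one_div, mul_comm]

end Pool.Agent.S19489
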