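import Pool.Statements.S19529
import Pool.Agent.H111R3.Fin

set_option autoImplicit false
open Filter
open Pool Pool.MP_a146e8_pr

namespace Pool.Agent.S19529

open Pool.Agent.H111R3

lemma pos_eq {d : ℕ} [NeZero d] {n : ℕ} (s : Fin n → Fin d × Bool) (p : ℕ) (hp : p ≤ n) :
    (fun k : Fin d => ∑ j : Fin n,
      (if j.val < p ∧ (s j).1 = k then (if (s j).2 then (1:ℤ) else -1) else 0)) = pos (ext s) p := by
  funext k
  have h1 : ∀ j : Fin n, (if j.val < p ∧ (s j).1 = k then (if (s j).2 then (1:ℤ) else -1) else 0) =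
      (fun i : ℕ => if i < p then stp (ext s i) k else 0) j.val := by
    intro j
    have h2 : ext s (j : ℕ) = s j := by simp [ext]
    simp only [h2, stp]
    by_cases hj : j.val < p
    · by_cases hk : (s j).1 = k
      · subst hk
        simp [hj]
      · have hk' : k ≠ (s j).1 := fun h => hk h.symm
        simp [hj, hk, hk']
    · simp [hj]
  rw [Finset.sum_congr rfl fun j _ => h1 j]
  rw [Fin.sum_univ_eq_sum_range (fun i : ℕ => if i < p then stp (ext s i) k else 0) n]
  rw [← Finset.sum_filter]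
  have h3 : (Finset.range n).filter (fun i => i < p) = Finset.range p := by
    ext i
    simp only [Finset.mem_filter, Finset.mem_range]
    omega
  rw [h3]
  unfold pos
  rw [Finset.sum_apply]

lemma count_eq {d : ℕ} [NeZero d] {n : ℕ} (s : Fin n → Fin d × Bool) :
    ((Finset.univ.filter (fun p : Fin (n+1) × Fin (n+1) =>
        p.1 < p.2 ∧
        (fun k : Fin d => ∑ j : Fin n,
            (if j.val < p.1.val ∧ (s j).1 = k then (if (s j).2 then (1:ℤ) else -1) else 0)) =
        (fun k : Fin d => ∑ j : Fin n,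
            (if j.val < p.2.val ∧ (s j).1 = k then (if (s j).2 then (1:ℤ) else -1) else 0)))).card : ℝ)
      = Jq 0 (n + 1) (ext s) := by
  classical
  have h1 : ∀ p : Fin (n+1) × Fin (n+1), (p.1 < p.2 ∧
        (fun k : Fin d => ∑ j : Fin n,
            (if j.val < p.1.val ∧ (s j).1 = k then (if (s j).2 then (1:ℤ) else -1) else 0)) =
        (fun k : Fin d => ∑ j : Fin n,
            (if j.val < p.2.val ∧ (s j).1 = k then (if (s j).2 then (1:ℤ) else -1) else 0))) ↔
        (p.1.val < p.2.val ∧ pos (ext s) p.1.val = pos (ext s) p.2.val) := by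
    intro p
    rw [pos_eq s p.1.val (by omega), pos_eq s p.2.val (by omega)]
    rfl
  simp only [h1]
  rw [← Finset.sum_boole, Fintype.sum_prod_type, Finset.sum_comm]
  unfold Jq
  rw [← Fin.sum_univ_eq_sum_range (fun j => ∑ i ∈ Finset.range j,
    pk (2 * 0) (pos (ext s) j - pos (ext s) i))]
  refine Finset.sum_congr rfl fun b _ => ?_
  rw [Fin.sum_univ_eq_sum_range (fun a : ℕ => if a < b.val ∧ pos (ext s) a = pos (ext s) b.val then
    (1:ℝ) else 0) (n + 1)]
  have h2 : ∀ a : ℕ, (if a < b.val ∧ pos (ext s) a = pos (ext s) b.val then (1:ℝ) else 0) =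
      if a < b.val then (if pos (ext s) a = pos (ext s) b.val then (1:ℝ) else 0) else 0 := by
    intro a
    by_cases ha : a < b.val
    · simp [ha]
    · simp [ha]
  simp only [h2]
  rw [← Finset.sum_filter]
  have h3 : (Finset.range (n + 1)).filter (fun i => i < b.val) = Finset.range b.val := by
    ext i
    simp only [Finset.mem_filter, Finset.mem_range]
    omega
  rw [h3]
  refine Finset.sum_congr rfl fun a _ => ?_
  rw [pk_two_zero]
  unfold dl
  congr 1
  rw [eq_iff_iff, sub_eq_zero]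
  exact ⟨fun h => h.symm, fun h => h.symm⟩

/-- For every d≥2 and n-step simple random walk on Z^d with self-intersection count I_n, the sup of β with limsup E[exp(-βI_n/n)]^(1/n)>1 equals the inf of β with E[exp(-β(I_n-EI_n)/n)] bounded in n. -/
theorem result :
  ∀ d : ℕ, 2 ≤ d →
  ∀ I : (n : ℕ) → (Fin n → Fin d × Bool) → ℝ,
  (∀ (n : ℕ) (s : Fin n → Fin d × Bool),
      I n s = ((Finset.univ.filter (fun p : Fin (n+1) × Fin (n+1) =>
        p.1 < p.2 ∧
        (fun k : Fin d => ∑ j : Fin n,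
            (if j.val < p.1.val ∧ (s j).1 = k then (if (s j).2 then (1:ℤ) else -1) else 0)) =
        (fun k : Fin d => ∑ j : Fin n,
            (if j.val < p.2.val ∧ (s j).1 = k then (if (s j).2 then (1:ℤ) else -1) else 0)))).card : ℝ)) →
  sSup {β : ℝ | ∃ c : ℝ, 1 < c ∧ ∃ᶠ n in atTop,
      c < ((∑ s : Fin n → Fin d × Bool, Real.exp (-(β / (n:ℝ)) * I n s))
              / (2 * (d:ℝ)) ^ n) ^ ((1:ℝ) / (n:ℝ))}
  =
  sInf {β : ℝ | ∃ M : ℝ, ∀ n : ℕ, 1 ≤ n →
      (∑ s : Fin n → Fin d × Bool, Real.exp (-(β / (n:ℝ)) *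
          (I n s - (∑ t : Fin n → Fin d × Bool, I n t) / (2 * (d:ℝ)) ^ n)))
        / (2 * (d:ℝ)) ^ n ≤ M} := by
  intro d hd I hI
  haveI : NeZero d := ⟨by omega⟩
  have hI' : ∀ (n : ℕ) (s : Fin n → Fin d × Bool), I n s = Jq 0 (n + 1) (ext s) := by
    intro n s
    rw [hI, count_eq]
  have hZ : ∀ (β : ℝ) (n : ℕ), (∑ s : Fin n → Fin d × Bool, Real.exp (-(β / (n:ℝ)) * I n s))
              / (2 * (d:ℝ)) ^ n = ZZ d β n := by
    intro β n
    unfold ZZ
    rw [EE_eq_sum, Finset.sum_div]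
    refine Finset.sum_congr rfl fun s _ => ?_
    rw [hI', one_div, inv_pow]
    ring
  have hE : ∀ n : ℕ, (∑ t : Fin n → Fin d × Bool, I n t) / (2 * (d:ℝ)) ^ n =
      EE n (Jq (d := d) 0 (n + 1)) := by
    intro n
    rw [EE_eq_sum, Finset.sum_div]
    refine Finset.sum_congr rfl fun s _ => ?_
    rw [hI', one_div, inv_pow]
    ring
  have hZC : ∀ (β : ℝ) (n : ℕ), (∑ s : Fin n → Fin d × Bool, Real.exp (-(β / (n:ℝ)) *
          (I n s - (∑ t : Fin n → Fin d × Bool, I n t) / (2 * (d:ℝ)) ^ n)))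
        / (2 * (d:ℝ)) ^ n = ZC d β n := by
    intro β n
    unfold ZC
    rw [EE_eq_sum, Finset.sum_div, hE]
    refine Finset.sum_congr rfl fun s _ => ?_
    rw [hI', one_div, inv_pow]
    ring
  simp only [hZ, hZC]
  exact core hd

end Pool.Agent.S19529
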