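import Pool.Statements.S19556
import Pool.Agent.H728R3.Final

set_option autoImplicit false
open Pool Pool.MP_a838d0_pr

namespace Pool.Agent.S19556

/-- The negation of the preceding statement: For every connected locally finite plane-embeddable graph with all degrees at least 7, Bernoulli(p) site percolation with p_c < p < 1 − p_c almost surely has infinitely many infinite open clusters. -/
theorem result :
    ¬ (∀ (V : Type) (G : SimpleGraph V) [G.LocallyFinite], G.Connected → (∀ v, 7 ≤ G.degree v) →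
  (∃ f : V → ℂ, Function.Injective f ∧ ∃ γ : V → V → ℝ → ℂ, ∀ u v, G.Adj u v →
     ContinuousOn (γ u v) (Set.Icc 0 1) ∧ Set.InjOn (γ u v) (Set.Icc 0 1) ∧
     γ u v 0 = f u ∧ γ u v 1 = f v ∧
     (∀ t ∈ Set.Ioo (0:ℝ) 1, ∀ w, γ u v t ≠ f w) ∧
     ∀ u' v', G.Adj u' v' → ∀ t ∈ Set.Ioo (0:ℝ) 1, ∀ t' ∈ Set.Ioo (0:ℝ) 1,
       γ u v t = γ u' v' t' → (u = u' ∧ v = v') ∨ (u = v' ∧ v = u')) →
  ∀ μ : ℝ → MeasureTheory.Measure (V → Bool),
    (∀ p ∈ Set.Icc (0:ℝ) 1, ∀ S : Finset V,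
      μ p {ω | ∀ v ∈ S, ω v = true} = ENNReal.ofReal p ^ S.card) →
    ∀ p : ℝ,
      sSup {q : ℝ | q ∈ Set.Icc (0:ℝ) 1 ∧
        μ q {ω | ∃ c : (G.induce {v | ω v = true}).ConnectedComponent, c.supp.Infinite} = 0} < p →
      p < 1 - sSup {q : ℝ | q ∈ Set.Icc (0:ℝ) 1 ∧
        μ q {ω | ∃ c : (G.induce {v | ω v = true}).ConnectedComponent, c.supp.Infinite} = 0} →
      ∀ᵐ ω ∂ μ p,
        {c : (G.induce {v | ω v = true}).ConnectedComponent | c.supp.Infinite}.Infinite) := by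
  intro hall
  have hp : (1 - (1 / 2 : ℝ) ^ 40) ∈ Set.Icc (0 : ℝ) 1 := by constructor <;> norm_num
  have hs : sSup {q : ℝ | q ∈ Set.Icc (0:ℝ) 1 ∧
      H728R3.mu q {ω | ∃ c : (H728R3.G.induce {v | ω v = true}).ConnectedComponent,
        c.supp.Infinite} = 0} ≤ 0 := by
    refine Real.sSup_nonpos ?_
    rintro q ⟨hq, h0⟩
    by_contra hpos
    push Not at hpos
    refine H728R3.inf_pos hq hpos (le_antisymm ?_ (by exact zero_le))
    rw [← h0]
    exact MeasureTheory.measure_mono (fun ω hω => H728R3.comp_of_inf hω)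
  have key := hall H728R3.V H728R3.G H728R3.connected H728R3.degree_ge H728R3.planar H728R3.mu
    (fun p hp S => H728R3.mu_true hp S) (1 - (1 / 2 : ℝ) ^ 40)
    (lt_of_le_of_lt hs (by norm_num)) (lt_of_lt_of_le (by norm_num : (1 - (1 / 2 : ℝ) ^ 40) < 1)
      (by linarith))
  have hlt := H728R3.not_good_lt
  have hprob := H728R3.mu_prob hp
  have hgood : H728R3.mu (1 - (1 / 2 : ℝ) ^ 40) {ω | H728R3.Good (H728R3.opn ω)} = 0 := by
    refine MeasureTheory.measure_mono_null ?_ (MeasureTheory.ae_iff.1 key)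
    intro ω hω
    exact H728R3.not_inf_of_good hω
  have huniv : H728R3.mu (1 - (1 / 2 : ℝ) ^ 40) Set.univ ≤
      H728R3.mu (1 - (1 / 2 : ℝ) ^ 40) {ω | H728R3.Good (H728R3.opn ω)} +
      H728R3.mu (1 - (1 / 2 : ℝ) ^ 40) {ω | ¬ H728R3.Good (H728R3.opn ω)} := by
    refine (MeasureTheory.measure_mono ?_).trans (MeasureTheory.measure_union_le _ _)
    intro ω _
    exact em _
  rw [MeasureTheory.measure_univ, hgood, zero_add] at huniv
  exact absurd hlt (not_lt.2 huniv)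

end Pool.Agent.S19556
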