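import Pool.Statements.S19593
import Pool.Agent.H592W.Thin3

set_option autoImplicit false
open MeasureTheory ProbabilityTheory
open Pool Pool.MP_b9fdbf_pr

namespace Pool.Agent.S19593

/-- In ℤ³ worm percolation (Poisson(v) worms per site, lengths i.i.d. with m(ℓ)≍ℓ^{-β}, traces of simple random walks), some v>0 gives zero probability of an infinite occupied path exactly when β ≥ 5/2. -/
theorem result :
    ∀ (β : ℝ) (m : PMF ℕ), m 0 = 0 →
      (∃ c C : ℝ, 0 < c ∧ 0 < C ∧ ∀ ℓ : ℕ, 1 ≤ ℓ →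
          c * (ℓ : ℝ) ^ (-β) ≤ (m ℓ).toReal ∧ (m ℓ).toReal ≤ C * (ℓ : ℝ) ^ (-β)) →
      ((∃ v : NNReal, 0 < v ∧
          ((Measure.infinitePi (fun _ : ℤ × ℤ × ℤ => (poissonPMF v).toMeasure)).prod
            ((Measure.infinitePi (fun _ : (ℤ × ℤ × ℤ) × ℕ => m.toMeasure)).prod
              (Measure.infinitePi
                (fun _ : (ℤ × ℤ × ℤ) × ℕ × ℕ => (PMF.uniformOfFintype (Fin 6)).toMeasure))))
          {ω : (ℤ × ℤ × ℤ → ℕ) × ((ℤ × ℤ × ℤ) × ℕ → ℕ) × ((ℤ × ℤ × ℤ) × ℕ × ℕ → Fin 6) |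
            ∃ p : ℕ → ℤ × ℤ × ℤ, Function.Injective p ∧ ∀ n : ℕ,
              |(p (n + 1)).1 - (p n).1| + |(p (n + 1)).2.1 - (p n).2.1|
                  + |(p (n + 1)).2.2 - (p n).2.2| = 1 ∧
              ∃ x : ℤ × ℤ × ℤ, ∃ i : ℕ, i < ω.1 x ∧ ∃ j : ℕ, j < ω.2.1 (x, i) ∧
                p n = x + ∑ k ∈ Finset.range j,
                  (![(1, 0, 0), (-1, 0, 0), (0, 1, 0), (0, -1, 0), (0, 0, 1), (0, 0, -1)] :
                      Fin 6 → ℤ × ℤ × ℤ) (ω.2.2 (x, i, k))} = 0)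
        ↔ (5 / 2 : ℝ) ≤ β) := by
  intro β m hm0 hmb
  obtain ⟨c, C, hc, hC, hcC⟩ := hmb
  -- the occupied set
  have hocc : ∀ (ω : (ℤ × ℤ × ℤ → ℕ) × ((ℤ × ℤ × ℤ) × ℕ → ℕ) × ((ℤ × ℤ × ℤ) × ℕ × ℕ → Fin 6))
      (a : ℤ × ℤ × ℤ),
      (∃ x : ℤ × ℤ × ℤ, ∃ i : ℕ, i < ω.1 x ∧ ∃ j : ℕ, j < ω.2.1 (x, i) ∧
                a = x + ∑ k ∈ Finset.range j,
                  (![(1, 0, 0), (-1, 0, 0), (0, 1, 0), (0, -1, 0), (0, 0, 1), (0, 0, -1)] :
                      Fin 6 → ℤ × ℤ × ℤ) (ω.2.2 (x, i, k)))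
      ↔ H592.phi a ∈ H592.occ (H592.Qs H592.xi3 ω) := by
    intro ω a
    constructor
    · rintro ⟨x, i, hi, j, hj, rfl⟩
      refine ⟨(H592.phi x, H592.mark H592.gg (x, i) ω.2), ?_, ?_⟩
      · show H592.xi3 _ ω = true
        rw [H592.xi3_true_iff]
        exact ⟨i, hi, rfl⟩
      · show H592.phi (x + _) - H592.phi x ∈ H592.mark H592.gg (x, i) ω.2
        rw [H592.phi_add, add_sub_cancel_left, H592.phi_sum]
        unfold H592.mark H592.gg
        rw [Finset.mem_image]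
        refine ⟨j, Finset.mem_range.mpr hj, ?_⟩
        exact Finset.sum_congr rfl fun k _ => (H592.phi_st6 _).symm
    · rintro ⟨k, hk, ha⟩
      have hk' : H592.xi3 k ω = true := hk
      rw [H592.xi3_true_iff] at hk'
      obtain ⟨i, hi, hmk⟩ := hk'
      rw [← hmk] at ha
      unfold H592.mark H592.gg at ha
      rw [Finset.mem_image] at ha
      obtain ⟨j, hj, hs⟩ := ha
      refine ⟨H592.phiInv k.1, i, hi, j, Finset.mem_range.mp hj, ?_⟩
      have h1 : H592.phi a = H592.phi (H592.phiInv k.1 + ∑ k' ∈ Finset.range j,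
          H592.st6 (ω.2.2 (H592.phiInv k.1, i, k'))) := by
        rw [H592.phi_add, H592.phi_phiInv, H592.phi_sum]
        have h2 : ∑ k' ∈ Finset.range j, H592.phi (H592.st6 (ω.2.2 (H592.phiInv k.1, i, k')))
            = H592.phi a - k.1 := by
          rw [← hs]
          exact Finset.sum_congr rfl fun k' _ => H592.phi_st6 _
        rw [h2]
        abel
      have h3 := congrArg H592.phiInv h1
      rw [H592.phiInv_phi, H592.phiInv_phi] at h3
      exact h3
  have hnb : ∀ a b : ℤ × ℤ × ℤ, |b.1 - a.1| + |b.2.1 - a.2.1| + |b.2.2 - a.2.2| = 1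
      ↔ H592.nb (H592.phi a) (H592.phi b) := by
    intro a b
    unfold H592.nb
    rw [Fin.sum_univ_three]
    have h1 : |H592.phi a 0 - H592.phi b 0| = |b.1 - a.1| := abs_sub_comm _ _
    have h2 : |H592.phi a 1 - H592.phi b 1| = |b.2.1 - a.2.1| := abs_sub_comm _ _
    have h3 : |H592.phi a 2 - H592.phi b 2| = |b.2.2 - a.2.2| := abs_sub_comm _ _
    rw [h1, h2, h3]
  set Ev : Set ((ℤ × ℤ × ℤ → ℕ) × ((ℤ × ℤ × ℤ) × ℕ → ℕ) × ((ℤ × ℤ × ℤ) × ℕ × ℕ → Fin 6)) :=
    {ω | ∃ p : ℕ → ℤ × ℤ × ℤ, Function.Injective p ∧ ∀ n : ℕ,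
              |(p (n + 1)).1 - (p n).1| + |(p (n + 1)).2.1 - (p n).2.1|
                  + |(p (n + 1)).2.2 - (p n).2.2| = 1 ∧
              ∃ x : ℤ × ℤ × ℤ, ∃ i : ℕ, i < ω.1 x ∧ ∃ j : ℕ, j < ω.2.1 (x, i) ∧
                p n = x + ∑ k ∈ Finset.range j,
                  (![(1, 0, 0), (-1, 0, 0), (0, 1, 0), (0, -1, 0), (0, 0, 1), (0, 0, -1)] :
                      Fin 6 → ℤ × ℤ × ℤ) (ω.2.2 (x, i, k))} with hEv
  -- comparison of events
  have hsub1 : Ev ⊆ {ω | H592.perc (H592.occ (H592.Qs H592.xi3 ω))} := by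
    rintro ω ⟨p, hinj, hp⟩
    refine H592.ray_perc _ (fun n => H592.phi (p n)) ?_ ?_
    · intro a b hab
      have := congrArg H592.phiInv hab
      simp only [H592.phiInv_phi] at this
      exact hinj this
    · intro n
      exact ⟨(hocc ω (p n)).mp (hp n).2, (hnb _ _).mp (hp n).1⟩
  have hsub2 : {ω | {z | H592.conn (H592.occ (H592.Qs H592.xi3 ω)) 0 z}.Infinite} ⊆ Ev := by
    intro ω hω
    obtain ⟨p, hinj, hp⟩ := H592.konig _ _ hω
    refine ⟨fun n => H592.phiInv (p n), ?_, ?_⟩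
    · intro a b hab
      have := congrArg H592.phi hab
      simp only [H592.phi_phiInv] at this
      exact hinj this
    · intro n
      refine ⟨?_, ?_⟩
      · rw [hnb, H592.phi_phiInv, H592.phi_phiInv]
        exact (hp n).2
      · rw [hocc, H592.phi_phiInv]
        exact (hp n).1
  have hms := H592.nu_sum_le m
  have hmeas : ∀ v : NNReal,
      ((Measure.infinitePi (fun _ : ℤ × ℤ × ℤ => (poissonPMF v).toMeasure)).prod
            ((Measure.infinitePi (fun _ : (ℤ × ℤ × ℤ) × ℕ => m.toMeasure)).prod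
              (Measure.infinitePi
                (fun _ : (ℤ × ℤ × ℤ) × ℕ × ℕ => (PMF.uniformOfFintype (Fin 6)).toMeasure))))
      = H592.P3 v m := fun v => rfl
  constructor
  · rintro ⟨v, hv, hv0⟩
    by_contra hβ
    push Not at hβ
    rw [hmeas] at hv0
    have hβ1 : 0 < β := by
      -- the lower bound must be summable
      by_contra hneg
      push Not at hneg
      have h1 : ∀ n : ℕ, ENNReal.ofReal c ≤ ENNReal.ofReal ((m (n + 1)).toReal) := by
        intro n
        refine ENNReal.ofReal_le_ofReal ?_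
        have h2 := (hcC (n + 1) (by omega)).1
        refine le_trans ?_ h2
        have h3 : (1 : ℝ) ≤ ((n + 1 : ℕ) : ℝ) ^ (-β) :=
          Real.one_le_rpow (by push_cast; linarith [Nat.cast_nonneg (α := ℝ) n]) (by linarith)
        nlinarith
      have h4 : ∑' _ : ℕ, ENNReal.ofReal c ≤ 1 := (ENNReal.tsum_le_tsum h1).trans hms
      rw [ENNReal.tsum_const_eq_top_of_ne_zero (by simpa using hc)] at h4
      simp at h4
    have h6 := H592.lower_main (d := 3) (max (1 / 4) ((β - 2 + 1 / 2) / 2)) β c v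
      (lt_of_lt_of_le (by norm_num) (le_max_left _ _))
      (max_lt (by norm_num) (by linarith))
      (by
        have : max (1 / 4 : ℝ) ((β - 2 + 1 / 2) / 2) < 1 / 2 := max_lt (by norm_num) (by linarith)
        push_cast
        linarith)
      hβ1
      (by
        have : (β - 2 + 1 / 2) / 2 ≤ max (1 / 4) ((β - 2 + 1 / 2) / 2) := le_max_right _ _
        linarith)
      hc (by exact_mod_cast hv) (fun l => (m l).toReal) hms (fun l hl => (hcC l hl).1)
      (H592.P3 v m) H592.xi3 H592.xi3_measurable (H592.xi3_indep v m hm0)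
      (fun k => H592.xi3_prob v m hm0 k)
    exact h6 (MeasureTheory.measure_mono_null hsub2 hv0)
  · intro hβ
    obtain ⟨H, _, HB⟩ := H592.BS_bound (d := 3) (by norm_num) (by norm_num)
      (fun l => (m l).toReal) (fun _ => ENNReal.toReal_nonneg) C hC (by
      intro l hl
      refine (hcC l hl).2.trans ?_
      refine mul_le_mul_of_nonneg_left ?_ hC.le
      refine Real.rpow_le_rpow_of_exponent_le (by exact_mod_cast hl) ?_
      push_cast
      linarith)
    obtain ⟨v, hv, hmain⟩ := H592.upper_main (d := 3) (fun l => (m l).toReal) H HB hms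
    obtain ⟨w, rfl⟩ : ∃ w : NNReal, (w : ℝ) = v := ⟨Real.toNNReal v, Real.coe_toNNReal v hv.le⟩
    refine ⟨w, by exact_mod_cast hv, ?_⟩
    rw [hmeas]
    refine MeasureTheory.measure_mono_null hsub1 ?_
    refine hmain _ (H592.P3 w m) H592.xi3 H592.xi3_measurable
      (H592.xi3_indep _ m hm0) (fun k => ?_)
    rw [H592.xi3_prob _ m hm0 k]
    have hnu : H592.nu (fun l => (m l).toReal) k.2 ≠ ⊤ :=
      ne_top_of_le_ne_top (by simp) (H592.nu_le_one _ hms k.2)
    calc ENNReal.ofReal (1 - Real.exp (-(w * (H592.nu (fun l => (m l).toReal) k.2).toReal)))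
        ≤ ENNReal.ofReal (w * (H592.nu (fun l => (m l).toReal) k.2).toReal) := by
          refine ENNReal.ofReal_le_ofReal ?_
          have := Real.add_one_le_exp (-(w * (H592.nu (fun l => (m l).toReal) k.2).toReal))
          linarith
      _ = ENNReal.ofReal w * H592.nu (fun l => (m l).toReal) k.2 := by
          rw [ENNReal.ofReal_mul hv.le, ENNReal.ofReal_toReal hnu]

end Pool.Agent.S19593
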