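import Pool.Statements.S19619
import Pool.Agent.H773R3.Transfer

set_option autoImplicit false
open Pool Pool.MP_c1e253_pr

namespace Pool.Agent.S19619

/-- There are C>0, ε>0 such that for every δ>0, for all primes p, d≥3 and k≥C(d−1)log p with the unitriangular group H large enough, at least a 1−δ fraction of k-tuples of elements of H give h(Z)≥ε. -/
theorem result :
    ∃ C : ℝ, 0 < C ∧ ∃ ε : ℝ, 0 < ε ∧ ∀ δ : ℝ, 0 < δ → ∃ N : ℕ,
      ∀ (p : ℕ) [NeZero p], p.Prime → ∀ d : ℕ, 3 ≤ d → ∀ k : ℕ,
        C * ((d : ℝ) - 1) * Real.log (p : ℝ) ≤ (k : ℝ) →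
        N ≤ (Finset.univ.filter (fun M : Matrix (Fin d) (Fin d) (ZMod p) =>
              ∀ i j, (j < i → M i j = 0) ∧ M i i = 1)).card →
        (1 - δ) * ((Finset.univ.filter (fun M : Matrix (Fin d) (Fin d) (ZMod p) =>
              ∀ i j, (j < i → M i j = 0) ∧ M i i = 1)).card : ℝ) ^ k ≤
        (((Fintype.piFinset (fun _ : Fin k =>
              Finset.univ.filter (fun M : Matrix (Fin d) (Fin d) (ZMod p) =>
                ∀ i j, (j < i → M i j = 0) ∧ M i i = 1))).filter
            (fun Z : Fin k → Matrix (Fin d) (Fin d) (ZMod p) =>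
              ∀ S ∈ (Finset.univ.filter (fun M : Matrix (Fin d) (Fin d) (ZMod p) =>
                  ∀ i j, (j < i → M i j = 0) ∧ M i i = 1)).powerset,
                S.Nonempty →
                2 * S.card ≤ (Finset.univ.filter (fun M : Matrix (Fin d) (Fin d) (ZMod p) =>
                  ∀ i j, (j < i → M i j = 0) ∧ M i i = 1)).card →
                ε * (k : ℝ) * (S.card : ℝ) ≤
                  (((S ×ˢ (Finset.univ : Finset (Fin k))).filter
                    (fun x => x.1 * Z x.2 ∉ S)).card : ℝ))).card : ℝ) := by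
  refine ⟨4500, by norm_num, 1/153600, by norm_num, ?_⟩
  intro δ hδ
  obtain ⟨N, hN⟩ := Pool.Agent.H773R3.final δ hδ
  refine ⟨N, ?_⟩
  intro p _ hp d hd k hk hcard
  have : Fact p.Prime := ⟨hp⟩
  have hH : ∀ M : Matrix (Fin d) (Fin d) (ZMod p),
      M ∈ (Finset.univ.filter (fun M : Matrix (Fin d) (Fin d) (ZMod p) =>
              ∀ i j, (j < i → M i j = 0) ∧ M i i = 1)) ↔ Pool.Agent.H773R3.IsUT M := by
    intro M
    rw [Finset.mem_filter]
    simp only [Finset.mem_univ, true_and]
    exact Iff.rfl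
  have hc := Pool.Agent.H773R3.card_H _ hH
  rw [hc] at hcard
  have h1 := hN p d hd k hk hcard
  rw [hc]
  refine h1.trans ?_
  have h2 := Pool.Agent.H773R3.card_good_le (k := k) _ hH (1/153600)
    (((Fintype.piFinset (fun _ : Fin k =>
              Finset.univ.filter (fun M : Matrix (Fin d) (Fin d) (ZMod p) =>
                ∀ i j, (j < i → M i j = 0) ∧ M i i = 1))).filter
            (fun Z : Fin k → Matrix (Fin d) (Fin d) (ZMod p) =>
              ∀ S ∈ (Finset.univ.filter (fun M : Matrix (Fin d) (Fin d) (ZMod p) =>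
                  ∀ i j, (j < i → M i j = 0) ∧ M i i = 1)).powerset,
                S.Nonempty →
                2 * S.card ≤ (Finset.univ.filter (fun M : Matrix (Fin d) (Fin d) (ZMod p) =>
                  ∀ i j, (j < i → M i j = 0) ∧ M i i = 1)).card →
                (1/153600 : ℝ) * (k : ℝ) * (S.card : ℝ) ≤
                  (((S ×ˢ (Finset.univ : Finset (Fin k))).filter
                    (fun x => x.1 * Z x.2 ∉ S)).card : ℝ)))) ?_
  · rw [hc] at h2
    exact_mod_cast h2
  · intro Z hZ hS
    rw [Finset.mem_filter]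
    refine ⟨Fintype.mem_piFinset.2 hZ, ?_⟩
    intro S hS1 _ hS2
    have h3 := hS S (Finset.mem_powerset.1 hS1) hS2
    convert h3 using 3

end Pool.Agent.S19619
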