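import Pool.Statements.S19634
import Pool.Agent.H497R3.Trans

set_option autoImplicit false
open MeasureTheory ProbabilityTheory Filter Topology
open Pool Pool.MP_c7fa75_pr

namespace Pool.Agent.S19634

open Pool.Agent.H497R3
open scoped ENNReal

theorem stB_values (M : ℕ → ℕ) (i k : ℕ) : stB M i k = 0 ∨ stB M i k = 1/2 ∨ stB M i k = 1 := by
  unfold stB
  split_ifs <;> simp

theorem partial_sum_stB (M : ℕ → ℕ) (i N : ℕ) (hN : 2 * M i ≤ N) :
    ∑ k ∈ Finset.range N, (2 * stB M i k - 1) = 0 := by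
  rw [← Finset.sum_subset (Finset.range_mono (show M i + M i ≤ N by omega))]
  · rw [Finset.sum_range_add]
    rw [Finset.sum_congr rfl (g := fun _ => (1:ℝ)), Finset.sum_congr rfl (g := fun _ => (-1:ℝ))
        (s₁ := Finset.range (M i)) (f := fun x => 2 * stB M i (M i + x) - 1)]
    · simp
    · intro k hk
      have := Finset.mem_range.mp hk
      unfold stB
      rw [if_neg (by omega), if_pos (by omega)]
      norm_num
    · intro k hk
      have := Finset.mem_range.mp hk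
      unfold stB
      rw [if_pos (by omega)]
      norm_num
  · intro k _ hk
    have : ¬ (k < M i + M i) := by simpa using hk
    unfold stB
    rw [if_neg (by omega), if_neg (by omega)]
    norm_num

noncomputable def pd (s : ℕ → ℝ) (N : ℕ) : EReal :=
  ((∑ i ∈ Finset.range N, (2 * s i - 1) : ℝ) : EReal)

theorem measurable_pd (N : ℕ) : Measurable (fun s : ℕ → ℝ => pd s N) := by
  unfold pd
  apply Measurable.coe_real_ereal
  exact Finset.measurable_fun_sum _ fun i _ =>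
    ((measurable_pi_apply i).const_mul 2).sub_const 1

theorem tendsto_pd (M : ℕ → ℕ) (i : ℕ) : Tendsto (pd (stB M i)) atTop (𝓝 0) := by
  apply tendsto_const_nhds.congr'
  filter_upwards [eventually_ge_atTop (2 * M i)] with N hN
  unfold pd
  rw [partial_sum_stB M i N hN]
  rfl

theorem lint_pos (M : ℕ → ℕ) :
    ∫⁻ ω, (limsup (pd (ω 0)) atTop).toENNReal ∂(labelLaw (stB M)) = 0 := by
  have hm : Measurable (fun s : ℕ → ℝ => (limsup (pd s) atTop).toENNReal) :=
    (Measurable.limsup measurable_pd).ereal_toENNReal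
  have h := lintegral_labelLaw_zero (stB M) (fun s => (limsup (pd s) atTop).toENNReal) hm
  refine Eq.trans h ?_
  rw [ENNReal.tsum_eq_zero]
  intro i
  rw [(tendsto_pd M i).limsup_eq]
  simp

theorem lint_neg (M : ℕ → ℕ) :
    ∫⁻ ω, (-(limsup (pd (ω 0)) atTop)).toENNReal ∂(labelLaw (stB M)) = 0 := by
  have hm : Measurable (fun s : ℕ → ℝ => (-(limsup (pd s) atTop)).toENNReal) :=
    (Measurable.limsup measurable_pd).neg.ereal_toENNReal
  have h := lintegral_labelLaw_zero (stB M) (fun s => (-(limsup (pd s) atTop)).toENNReal) hm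
  refine Eq.trans h ?_
  rw [ENNReal.tsum_eq_zero]
  intro i
  rw [(tendsto_pd M i).limsup_eq]
  simp

theorem meas_forall {p : ℝ → Prop} (hp : MeasurableSet {r | p r}) :
    MeasurableSet {t : ℕ → ℝ | ∀ n, p (t n)} := by
  have : {t : ℕ → ℝ | ∀ n, p (t n)} = ⋂ n, {t : ℕ → ℝ | p (t n)} := by
    ext t; simp
  rw [this]
  refine MeasurableSet.iInter fun n => ?_
  have hm : Measurable (fun t : ℕ → ℝ => t n) := measurable_pi_apply n
  exact hm hp

/-- The negation of the preceding statement: For i.i.d. cookie stacks with (WEL) and well-defined drift delta in [0,∞], the k-th walker on the leftover environment (annealed) is a.s. transient when k<delta and transient with probability zero when k≥delta. -/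
theorem result :
    ¬ (∀ (P : Measure (ℤ → ℕ → ℝ)), IsProbabilityMeasure P →
    (∀ᵐ ω ∂P, ∀ (x : ℤ) (n : ℕ), ω x n ∈ Set.Icc (0:ℝ) 1) →
    iIndepFun (fun (x : ℤ) (ω : ℤ → ℕ → ℝ) => ω x) P →
    (∀ x : ℤ, IdentDistrib (fun ω : ℤ → ℕ → ℝ => ω x) (fun ω => ω 0) P P) →
    (∀ x : ℤ, 0 < P {ω | ∀ n, 0 < ω x n} ∧ 0 < P {ω | ∀ n, ω x n < 1}) →
    (∀ᵐ ω ∂P, ∃ s : EReal, Tendsto
        (fun N : ℕ => (((∑ i ∈ Finset.range N, (2 * ω 0 i - 1) : ℝ)) : EReal)) atTop (𝓝 s)) →
    (∫⁻ ω, (-(limsup (fun N : ℕ =>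
        (((∑ i ∈ Finset.range N, (2 * ω 0 i - 1) : ℝ)) : EReal)) atTop)).toENNReal ∂P) < ⊤ →
    (0 : EReal) ≤
      ((∫⁻ ω, (limsup (fun N : ℕ =>
          (((∑ i ∈ Finset.range N, (2 * ω 0 i - 1) : ℝ)) : EReal)) atTop).toENNReal ∂P) : EReal)
      - ((∫⁻ ω, (-(limsup (fun N : ℕ =>
          (((∑ i ∈ Finset.range N, (2 * ω 0 i - 1) : ℝ)) : EReal)) atTop)).toENNReal ∂P) : EReal) →
    ∀ (Θ : Type) [MeasurableSpace Θ] (μ : Measure Θ), IsProbabilityMeasure μ →
    ∀ (W : Θ → ℤ → ℕ → ℝ) (X : ℕ → Θ → ℕ → ℤ) (env : ℕ → Θ → ℤ → ℕ → ℝ),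
    Measurable W → μ.map W = P → (∀ j, Measurable (X j)) →
    env 0 = W →
    (∀ (j : ℕ) (θ : Θ) (x : ℤ) (n : ℕ),
        Tendsto (fun m => |X j θ m|) atTop atTop →
          env (j+1) θ x n = env j θ x (n + Nat.card {m : ℕ // X j θ m = x})) →
    (∀ (j : ℕ) (θ : Θ) (x : ℤ) (n : ℕ),
        ¬ Tendsto (fun m => |X j θ m|) atTop atTop → env (j+1) θ x n = 1/2) →
    (∀ (j : ℕ) (θ : Θ), X j θ 0 = 0) →
    (∀ (j : ℕ) (θ : Θ) (n : ℕ), X j θ (n+1) = X j θ n + 1 ∨ X j θ (n+1) = X j θ n - 1) →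
    (∀ (j n : ℕ),
        condExp
          (MeasurableSpace.comap
            (fun θ => (W θ, (fun i : Fin j => X (i : ℕ) θ), (fun m : Fin (n+1) => X j θ (m : ℕ))))
            inferInstance)
          μ
          (Set.indicator {θ | X j θ (n+1) = X j θ n + 1} (fun _ => (1:ℝ)))
        =ᵐ[μ] fun θ => env j θ (X j θ n) ((Finset.range n).filter (fun m => X j θ m = X j θ n)).card) →
    ∀ k : ℕ, 1 ≤ k →
      (((k : EReal) <
          ((∫⁻ ω, (limsup (fun N : ℕ =>
              (((∑ i ∈ Finset.range N, (2 * ω 0 i - 1) : ℝ)) : EReal)) atTop).toENNReal ∂P) : EReal)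
          - ((∫⁻ ω, (-(limsup (fun N : ℕ =>
              (((∑ i ∈ Finset.range N, (2 * ω 0 i - 1) : ℝ)) : EReal)) atTop)).toENNReal ∂P) : EReal))
        → ∀ᵐ θ ∂μ, Tendsto (fun n => |X (k-1) θ n|) atTop atTop) ∧
      ((((∫⁻ ω, (limsup (fun N : ℕ =>
              (((∑ i ∈ Finset.range N, (2 * ω 0 i - 1) : ℝ)) : EReal)) atTop).toENNReal ∂P) : EReal)
          - ((∫⁻ ω, (-(limsup (fun N : ℕ =>
              (((∑ i ∈ Finset.range N, (2 * ω 0 i - 1) : ℝ)) : EReal)) atTop)).toENNReal ∂P) : EReal)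
          ≤ (k : EReal))
        → μ {θ | Tendsto (fun n => |X (k-1) θ n|) atTop atTop} = 0)) := by
  intro H
  obtain ⟨M, hM0, hpos⟩ := exists_transient
  have hEconv : MeasurableSet {ω : ℤ → ℕ → ℝ | ∃ s : EReal, Tendsto
        (fun N : ℕ => (((∑ i ∈ Finset.range N, (2 * ω 0 i - 1) : ℝ)) : EReal)) atTop (𝓝 s)} := by
    apply measurableSet_exists_tendsto
    intro N
    exact (measurable_pd N).comp (measurable_pi_apply 0)
  let W₀ : (ℤ → ℕ) → ℤ → ℕ → ℝ := fun l x => stB M (l x)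
  have hW : Measurable W₀ := measurable_pi_lambda _ fun x =>
    (measurable_of_countable (stB M)).comp (measurable_pi_apply x)
  have hval : ∀ ω x k, W₀ ω x k = 0 ∨ W₀ ω x k = 1/2 ∨ W₀ ω x k = 1 :=
    fun ω x k => stB_values M _ _
  have key := H (labelLaw (stB M)) inferInstance ?_ (labelLaw_iIndep _) (labelLaw_ident _) ?_ ?_
    ?_ ?_ Big bigμ inferInstance (sW W₀) (sX W₀) (sE W₀) (measurable_sW hW) ?_
    (measurable_sX hW) rfl ?_ ?_ (fun _ _ => rfl) ?_ ?_ 1 le_rfl
  · have h2 := key.2 ?_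
    · have h3 : {θ : Big | Tendsto (fun n => |sX W₀ (1-1) θ n|) atTop atTop} =
          {θ : Big | Tendsto (fun n => |pos (arr M θ) n|) atTop atTop} := by
        ext θ
        have : sX W₀ (1-1) θ = pos (arr M θ) := by
          rw [arr_eq]
          rfl
        simp only [Set.mem_setOf_eq, this]
      rw [h3] at h2
      rw [h2] at hpos
      exact lt_irrefl _ hpos
    · have e1 := lint_pos M
      have e2 := lint_neg M
      have e3 : ∀ ω : ℤ → ℕ → ℝ, (fun N : ℕ => (((∑ i ∈ Finset.range N, (2 * ω 0 i - 1) : ℝ)) : EReal))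
          = pd (ω 0) := fun ω => rfl
      simp only [e3]
      rw [e1, e2]
      simp
  · have h := labelLaw_ae_of_label (stB M) {t | ∀ n, t n ∈ Set.Icc (0:ℝ) 1}
      (meas_forall (p := fun r => r ∈ Set.Icc (0:ℝ) 1) measurableSet_Icc)
      (fun i n => by
        rcases stB_values M i n with h | h | h <;> rw [h] <;> norm_num)
    filter_upwards [h] with ω hω
    exact hω
  · intro x
    constructor
    · refine lt_of_lt_of_le ?_ (labelLaw_site_ge (stB M) x {t | ∀ n, 0 < t n}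
        (meas_forall (p := fun r => 0 < r) measurableSet_Ioi) 0 ?_)
      · exact ENNReal.pow_pos (by simp) _
      · intro n; simp [stB, hM0]
    · refine lt_of_lt_of_le ?_ (labelLaw_site_ge (stB M) x {t | ∀ n, t n < 1}
        (meas_forall (p := fun r => r < 1) measurableSet_Iio) 0 ?_)
      · exact ENNReal.pow_pos (by simp) _
      · intro n
        simp only [stB, hM0, Nat.not_lt_zero, if_false, mul_zero]
        norm_num
  · unfold labelLaw
    have hml : Measurable (fun (l : ℤ → ℕ) (x : ℤ) => stB M (l x)) := hW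
    rw [ae_map_iff hml.aemeasurable hEconv]
    exact ae_of_all _ fun l => ⟨0, tendsto_pd M (l 0)⟩
  · have e2 := lint_neg M
    have e3 : ∀ ω : ℤ → ℕ → ℝ, (fun N : ℕ => (((∑ i ∈ Finset.range N, (2 * ω 0 i - 1) : ℝ)) : EReal))
        = pd (ω 0) := fun ω => rfl
    simp only [e3]
    rw [e2]
    exact ENNReal.zero_lt_top
  · have e1 := lint_pos M
    have e2 := lint_neg M
    have e3 : ∀ ω : ℤ → ℕ → ℝ, (fun N : ℕ => (((∑ i ∈ Finset.range N, (2 * ω 0 i - 1) : ℝ)) : EReal))
        = pd (ω 0) := fun ω => rfl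
    simp only [e3]
    rw [e1, e2]
    simp
  · have : sW W₀ = W₀ ∘ (Prod.fst : (ℤ → ℕ) × ((ℕ × ℤ × ℕ) → Bool) → (ℤ → ℕ)) := rfl
    rw [this, ← Measure.map_map hW measurable_fst]
    unfold bigμ
    rw [Measure.map_fst_prod]
    simp [labelLaw, W₀]
  · intro j θ x n h
    have e : sE W₀ (j+1) θ = leftover (sE W₀ j θ) (sX W₀ j θ) := rfl
    rw [e, leftover, if_pos h]
  · intro j θ x n h
    have e : sE W₀ (j+1) θ = leftover (sE W₀ j θ) (sX W₀ j θ) := rfl
    rw [e, leftover, if_neg h]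
  · intro j θ n
    have h := pos_succ (arrows (sE W₀ j θ) (sc θ j)) n
    have h' : sX W₀ j θ (n+1) = if arrows (sE W₀ j θ) (sc θ j) (sk W₀ j n θ).1
        (sk W₀ j n θ).2 then sX W₀ j θ n + 1 else sX W₀ j θ n - 1 := h
    rw [h']
    split_ifs
    · left; rfl
    · right; rfl
  · intro j n
    have h := condExp_step (Measure.infinitePi (fun _ : ℤ => geo)) hW hval j n
    refine h.trans ?_
    filter_upwards with θ
    have : sg W₀ j n θ = sE W₀ j θ (sk W₀ j n θ).1 (sk W₀ j n θ).2 := rfl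
    rw [this, sk_snd]
    rfl


end Pool.Agent.S19634
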