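import Pool.Statements.S19645
import Pool.Agent.H443R3.SoldiersProb
-- import your own Pool.Agent.* helpers here

set_option autoImplicit false
open MeasureTheory ProbabilityTheory Filter Topology
open Pool Pool.MP_cdca83_pr

namespace Pool.Agent.S19645

/-- For the soldiers automaton with noise only toward minus (rate ε>0) or only toward plus (rate δ>0), from any initial law each cell's probability of the opposite state tends to 0, i.e. the system is ergodic. -/
theorem result :
  (∀ (Ω : Type) [MeasurableSpace Ω] (P : Measure Ω) [IsProbabilityMeasure P] (ε : ℝ),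
    0 < ε → ε ≤ 1 →
    ∀ (ξ : ℕ → ℤ → Ω → Bool) (X : ℕ → Ω → ℤ → Bool),
    (∀ n i, Measurable (ξ n i)) →
    iIndepFun (fun p : ℕ × ℤ => ξ p.1 p.2) P →
    (∀ n i, P {ω | ξ n i ω = false} = ENNReal.ofReal ε) →
    Measurable (X 0) →
    IndepFun (X 0) (fun ω (p : ℕ × ℤ) => ξ p.1 p.2 ω) P →
    (∀ n ω i, X (n+1) ω i =
      (((X n ω i && (X n ω (i+1) || X n ω (i+3))) ||
        (!X n ω i && X n ω (i-1) && X n ω (i-3))) && ξ n i ω)) →
    ∀ i, Tendsto (fun n => P {ω | X n ω i = true}) atTop (𝓝 0)) ∧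
  (∀ (Ω : Type) [MeasurableSpace Ω] (P : Measure Ω) [IsProbabilityMeasure P] (δ : ℝ),
    0 < δ → δ ≤ 1 →
    ∀ (ξ : ℕ → ℤ → Ω → Bool) (X : ℕ → Ω → ℤ → Bool),
    (∀ n i, Measurable (ξ n i)) →
    iIndepFun (fun p : ℕ × ℤ => ξ p.1 p.2) P →
    (∀ n i, P {ω | ξ n i ω = true} = ENNReal.ofReal δ) →
    Measurable (X 0) →
    IndepFun (X 0) (fun ω (p : ℕ × ℤ) => ξ p.1 p.2 ω) P →
    (∀ n ω i, X (n+1) ω i =
      (((X n ω i && (X n ω (i+1) || X n ω (i+3))) ||
        (!X n ω i && X n ω (i-1) && X n ω (i-3))) || ξ n i ω)) →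
    ∀ i, Tendsto (fun n => P {ω | X n ω i = false}) atTop (𝓝 0)) := by
  constructor
  · intro Ω _ P _ ε hε _ ξ X hm hi hξ _ _ hX a
    -- the reflected and negated system
    have hm' : ∀ n i, Measurable (fun ω => !ξ n (-i) ω) := fun n i =>
      (Measurable.of_discrete (f := fun b : Bool => !b)).comp (hm n (-i))
    have hi' : iIndepFun (fun (p : ℕ × ℤ) (ω : Ω) => !ξ p.1 (-p.2) ω) P := by
      have h1 := hi.precomp (g := fun p : ℕ × ℤ => (p.1, -p.2)) (fun p q h => by
        simp only [Prod.mk.injEq, neg_inj] at h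
        exact Prod.ext h.1 h.2)
      exact h1.comp (fun _ b => !b) (fun _ => Measurable.of_discrete)
    have hd' : ∀ n i, P {ω | (!ξ n (-i) ω) = true} = ENNReal.ofReal ε := fun n i => by
      rw [← hξ n (-i)]
      congr 1
      ext ω
      simp
    have key := Pool.Agent.H443R3.SoldiersProb.main (P := P) (ξ := fun n i ω => !ξ n (-i) ω) hε
      hm' hi' hd' (X := fun n ω i => !X n ω (-i)) (fun n ω i => by
        have e1 : -(i + 1) = -i - 1 := by ring
        have e2 : -(i + 3) = -i - 3 := by ring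
        have e3 : -(i - 1) = -i + 1 := by ring
        have e4 : -(i - 3) = -i + 3 := by ring
        simp only [hX n ω (-i), e1, e2, e3, e4]
        cases X n ω (-i) <;> cases X n ω (-i + 1) <;> cases X n ω (-i + 3) <;>
          cases X n ω (-i - 1) <;> cases X n ω (-i - 3) <;> cases ξ n (-i) ω <;> rfl) (-a)
    simpa using key
  · intro Ω _ P _ δ hδ _ ξ X hm hi hξ _ _ hX a
    exact Pool.Agent.H443R3.SoldiersProb.main hδ hm hi hξ hX a

end Pool.Agent.S19645
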