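import Pool.Statements.S19664
import Pool.Agent.H311.GaussF

set_option autoImplicit false
open Matrix MeasureTheory ProbabilityTheory
open Pool Pool.MP_d47e08_pr

namespace Pool.Agent.S19664

/-- The negation of the preceding statement: For every even r≥2 and every δ>0, for all large ℓ and every μ>δ, some ε>0 gives, for all large n, E λmax of the Kikuchi matrix at signal μ n^(-r/4) ≥ (1+ε) times E λmax at zero signal; i.e. the threshold tends to 0. -/
theorem result :
    ¬ (∀ r : ℕ, 2 ≤ r → Even r →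
    ∀ δ : ℝ, 0 < δ →
      ∀ᶠ ℓ : ℕ in Filter.atTop, ∀ μ : ℝ, δ < μ →
        ∃ ε : ℝ, 0 < ε ∧ ∀ᶠ n : ℕ in Filter.atTop,
          1 + ε ≤
            (∫ (Z : Finset (Fin n) → ℝ),
                sSup {t : ℝ | ∃ v : {K : Finset (Fin n) // K.card = ℓ} → ℝ,
                  dotProduct v v = 1 ∧
                  t = dotProduct v (Matrix.mulVec
                    (Matrix.of fun I J : {K : Finset (Fin n) // K.card = ℓ} =>
                      if (symmDiff I.1 J.1).card = r
                      then μ * (n : ℝ) ^ (-(r : ℝ) / 4) + Z (symmDiff I.1 J.1)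
                      else 0) v)}
              ∂(Measure.pi fun _ : Finset (Fin n) => gaussianReal 0 1))
            /
            (∫ (Z : Finset (Fin n) → ℝ),
                sSup {t : ℝ | ∃ v : {K : Finset (Fin n) // K.card = ℓ} → ℝ,
                  dotProduct v v = 1 ∧
                  t = dotProduct v (Matrix.mulVec
                    (Matrix.of fun I J : {K : Finset (Fin n) // K.card = ℓ} =>
                      if (symmDiff I.1 J.1).card = r
                      then (0 : ℝ) + Z (symmDiff I.1 J.1)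
                      else 0) v)}
              ∂(Measure.pi fun _ : Finset (Fin n) => gaussianReal 0 1))) := by
  intro H
  have H2 := H 2 le_rfl even_two (1 / 4) (by norm_num)
  obtain ⟨ℓ, hH, hℓ⟩ := (H2.and (Filter.eventually_ge_atTop 1)).exists
  obtain ⟨ε, hε, hev⟩ := hH (1 / 2) (by norm_num)
  set D : ℝ := 2 * (ℓ : ℝ) ^ 2 * (1 + H311.Gauss.C8) + |H311.Gauss.K0| + 1 with hD
  have hc1 := H311.Gauss.c1_pos
  -- a large index
  have hlarge : ∀ᶠ n : ℕ in Filter.atTop,
      2 * D / (ε * H311.Gauss.c1) < Real.sqrt (Real.sqrt (n : ℝ)) := by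
    have h1 : Filter.Tendsto (fun n : ℕ => Real.sqrt (Real.sqrt (n : ℝ))) Filter.atTop
        Filter.atTop :=
      Real.tendsto_sqrt_atTop.comp (Real.tendsto_sqrt_atTop.comp tendsto_natCast_atTop_atTop)
    exact h1.eventually_gt_atTop _
  obtain ⟨n, hn1, hn2, hn3⟩ := (hev.and (hlarge.and (Filter.eventually_ge_atTop (2 * ℓ + 1)))).exists
  have hnℓ : ℓ < n := by omega
  have hn0 : 0 < n := by omega
  have hnr : (0 : ℝ) < n := by exact_mod_cast hn0
  obtain ⟨K, -, hK⟩ := Finset.exists_subset_card_eq (s := (Finset.univ : Finset (Fin n)))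
    (n := ℓ) (by simp; omega)
  have hne : Nonempty (H311.Kik.V n ℓ) := ⟨⟨K, hK⟩⟩
  obtain ⟨lam, hlam⟩ : ∃ lam : ℝ, lam = 1 / 2 * (n : ℝ) ^ (-((2 : ℕ) : ℝ) / 4) := ⟨_, rfl⟩
  have hlam2 : (n : ℝ) * lam ^ 2 ≤ 1 / 4 := by
    have e : ((n : ℝ) ^ (-((2 : ℕ) : ℝ) / 4)) ^ 2 = (n : ℝ)⁻¹ := by
      rw [← Real.rpow_natCast, ← Real.rpow_mul hnr.le, ← Real.rpow_neg_one]
      congr 1
      norm_num
    rw [hlam, mul_pow, e]
    apply le_of_eq
    field_simp
    norm_num
  have e1 : (∫ (Z : Finset (Fin n) → ℝ),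
                sSup {t : ℝ | ∃ v : {K : Finset (Fin n) // K.card = ℓ} → ℝ,
                  dotProduct v v = 1 ∧
                  t = dotProduct v (Matrix.mulVec
                    (Matrix.of fun I J : {K : Finset (Fin n) // K.card = ℓ} =>
                      if (symmDiff I.1 J.1).card = 2
                      then 1 / 2 * (n : ℝ) ^ (-((2 : ℕ) : ℝ) / 4) + Z (symmDiff I.1 J.1)
                      else 0) v)}
              ∂(Measure.pi fun _ : Finset (Fin n) => gaussianReal 0 1)) =
      ∫ z, H311.Kik.f 2 ℓ (z + H311.Gauss.one2 lam) ∂(H311.Gauss.G (Finset (Fin n))) := by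
    refine integral_congr_ae (Filter.Eventually.of_forall fun Z => ?_)
    have h1 : H311.Kik.f 2 ℓ (Z + H311.Gauss.one2 lam) = H311.Kik.f 2 ℓ (fun S => lam + Z S) := by
      apply H311.Kik.f_congr
      intro S hS
      simp only [Pi.add_apply, H311.Gauss.one2, hS, if_true]
      ring
    simp only
    rw [h1, hlam]
    rfl
  have e2 : (∫ (Z : Finset (Fin n) → ℝ),
                sSup {t : ℝ | ∃ v : {K : Finset (Fin n) // K.card = ℓ} → ℝ,
                  dotProduct v v = 1 ∧
                  t = dotProduct v (Matrix.mulVec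
                    (Matrix.of fun I J : {K : Finset (Fin n) // K.card = ℓ} =>
                      if (symmDiff I.1 J.1).card = 2
                      then (0 : ℝ) + Z (symmDiff I.1 J.1)
                      else 0) v)}
              ∂(Measure.pi fun _ : Finset (Fin n) => gaussianReal 0 1)) =
      ∫ z, H311.Kik.f 2 ℓ z ∂(H311.Gauss.G (Finset (Fin n))) := by
    refine integral_congr_ae (Filter.Eventually.of_forall fun Z => ?_)
    simp only [zero_add]
    rfl
  rw [e1, e2] at hn1
  have hlow := H311.Gauss.low (n := n) hℓ hnℓ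
  have hgap := H311.Gauss.gap (ℓ := ℓ) hn0 lam hlam2
  rw [← hD] at hgap
  set q : ℝ := Real.sqrt (Real.sqrt (n : ℝ)) with hq
  set E0 : ℝ := ∫ z, H311.Kik.f (n := n) 2 ℓ z ∂(H311.Gauss.G (Finset (Fin n))) with hE0
  have hq0 : 0 < q := by rw [hq]; positivity
  have hq2 : q ^ 2 = Real.sqrt n := by rw [hq]; exact Real.sq_sqrt (Real.sqrt_nonneg _)
  have hhalf : q ^ 2 / 2 ≤ Real.sqrt ((n : ℝ) - ℓ) := by
    rw [hq2]
    apply Real.le_sqrt_of_sq_le
    rw [div_pow, Real.sq_sqrt hnr.le]
    have : (2 * ℓ + 1 : ℝ) ≤ n := by exact_mod_cast hn3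
    have hl0 : (0 : ℝ) ≤ ℓ := Nat.cast_nonneg ℓ
    norm_num
    linarith
  have hE : H311.Gauss.c1 * (q ^ 2 / 2) ≤ E0 := (by gcongr : _ ≤ _).trans hlow
  have hEpos : 0 < E0 := lt_of_lt_of_le (by positivity) hE
  rw [le_div_iff₀ hEpos] at hn1
  have h5 : ε * E0 ≤ D * q := by linarith
  have h6 : ε * (H311.Gauss.c1 * (q ^ 2 / 2)) ≤ D * q := (by gcongr : _ ≤ _).trans h5
  have h7 : q ≤ 2 * D / (ε * H311.Gauss.c1) := by
    rw [le_div_iff₀ (by positivity)]
    have h8 : (q * (ε * H311.Gauss.c1)) * q ≤ (2 * D) * q := by nlinarith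
    exact le_of_mul_le_mul_right h8 hq0
  linarith

end Pool.Agent.S19664
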