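import Pool.Statements.S19684
import Pool.Agent.Helper472.Fin1

set_option autoImplicit false
open scoped Classical
open Pool Pool.MP_dfce14_pr

namespace Pool.Agent.S19684

open Pool.Agent.Helper472 in
/-- the largest antichain is bounded by any bound valid for all antichains -/
theorem sS_le_of {n : ℕ} (G : SimpleGraph (Fin n)) (b : ℝ)
    (h : ∀ F : Finset (Finset (Fin n)),
              (∀ A ∈ F, G.IsIndepSet (↑A : Set (Fin n))) →
              IsAntichain (fun A B : Finset (Fin n) => A ⊆ B) (↑F : Set (Finset (Fin n))) →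
              (F.card : ℝ) ≤ b) : (sS G : ℝ) ≤ b := by
  have hne : {k : ℕ | ∃ A : Finset (Finset (Fin n)),
                  IsAntichain (· ⊆ ·) (↑A : Set (Finset (Fin n))) ∧
                  (∀ s ∈ A, G.IsIndepSet (↑s : Set (Fin n))) ∧ A.card = k}.Nonempty :=
    ⟨0, ∅, by simp, by simp, by simp⟩
  have hbdd : BddAbove {k : ℕ | ∃ A : Finset (Finset (Fin n)),
                  IsAntichain (· ⊆ ·) (↑A : Set (Finset (Fin n))) ∧
                  (∀ s ∈ A, G.IsIndepSet (↑s : Set (Fin n))) ∧ A.card = k} := by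
    refine ⟨(Q G).card, ?_⟩
    rintro k ⟨B, _, hB, rfl⟩
    apply Finset.card_le_card
    intro s hs
    exact mem_Q_iff.mpr (hB s hs)
  obtain ⟨F, hF1, hF2, hF3⟩ := Nat.sSup_mem hne hbdd
  have := h F hF2 hF1
  unfold sS
  rw [← hF3]
  exact this

open Pool.Agent.Helper472 in
theorem sup_eq {n : ℕ} (G : SimpleGraph (Fin n)) :
    (Finset.range (n + 1)).sup (fun r =>
                    {A : Finset (Fin n) | G.IsIndepSet (↑A : Set (Fin n)) ∧ A.card = r}.ncard)
      ≤ mL G := by
  apply Finset.sup_le
  intro r _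
  unfold mL
  apply le_csSup
  · refine ⟨(Q G).card, ?_⟩
    rintro k ⟨r, rfl⟩
    rw [ncard_layer]
    exact Finset.card_filter_le _ _
  · exact ⟨r, rfl⟩

/-- The negation of the preceding statement: For all c>0 and ε>0, the probability under G(n,c/n) that every antichain of independent sets has size at most (1+ε) times the largest number of independent sets of a single size tends to 1 as n→∞. -/
theorem result :
    ¬ (∀ c : ℝ, 0 < c → ∀ ε : ℝ, 0 < ε →
    Filter.Tendsto (fun n : ℕ =>
      ∑ G : SimpleGraph (Fin n),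
        if (∀ F : Finset (Finset (Fin n)),
              (∀ A ∈ F, G.IsIndepSet (↑A : Set (Fin n))) →
              IsAntichain (fun A B : Finset (Fin n) => A ⊆ B) (↑F : Set (Finset (Fin n))) →
              (F.card : ℝ) ≤ (1 + ε) *
                ((((Finset.range (n + 1)).sup (fun r =>
                    {A : Finset (Fin n) | G.IsIndepSet (↑A : Set (Fin n)) ∧ A.card = r}.ncard)) : ℕ) : ℝ))
        then (c / (n : ℝ)) ^ G.edgeSet.ncard * (1 - c / (n : ℝ)) ^ (n.choose 2 - G.edgeSet.ncard)
        else 0)
      Filter.atTop (nhds 1)) := by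
  intro hall
  obtain ⟨ε, hε, N0, hdet⟩ := Pool.Agent.Helper472.det (1 / 15360000) 61440000 (by norm_num) (by norm_num)
  have h := hall (1 / 10) (by norm_num) ε hε
  have h2 := h.eventually (lt_mem_nhds (show (1 - 1 / 30720000 : ℝ) < 1 by norm_num))
  obtain ⟨N1, hN1⟩ := Filter.eventually_atTop.mp h2
  set n := max (max N0 N1) 8 with hn
  have hn0 : N0 ≤ n := le_trans (le_max_left _ _) (le_max_left _ _)
  have hn1 : N1 ≤ n := le_trans (le_max_right _ _) (le_max_left _ _)
  have hn8 : 8 ≤ n := le_max_right _ _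
  have h3 := hN1 n hn1
  have hg := Pool.Agent.Helper472.good_weight hn8
  have hn' : (8 : ℝ) ≤ n := by exact_mod_cast hn8
  have hnpos : (0 : ℝ) < n := by linarith
  set p : ℝ := (1 / 10 : ℝ) / n with hp
  have hp0 : 0 ≤ p := by positivity
  have hp1 : p ≤ 1 := by rw [hp, div_le_one hnpos]; linarith
  have hsum := Pool.Agent.Helper472.wt_sum (n := n) p
  have hkey : (∑ G : SimpleGraph (Fin n),
        if (∀ F : Finset (Finset (Fin n)),
              (∀ A ∈ F, G.IsIndepSet (↑A : Set (Fin n))) →
              IsAntichain (fun A B : Finset (Fin n) => A ⊆ B) (↑F : Set (Finset (Fin n))) →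
              (F.card : ℝ) ≤ (1 + ε) *
                ((((Finset.range (n + 1)).sup (fun r =>
                    {A : Finset (Fin n) | G.IsIndepSet (↑A : Set (Fin n)) ∧ A.card = r}.ncard)) : ℕ) : ℝ))
        then p ^ G.edgeSet.ncard * (1 - p) ^ (n.choose 2 - G.edgeSet.ncard)
        else 0) + ∑ G : SimpleGraph (Fin n),
      (if (1 / 15360000 : ℝ) * n ≤ (Pool.Agent.Helper472.ctr G).card ∧
          ((Pool.Agent.Helper472.pairs G).card : ℝ) ≤ 61440000 * n
        then Pool.Agent.Helper472.wt p G else 0) ≤ 1 := by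
    refine le_trans ?_ hsum.le
    rw [← Finset.sum_add_distrib]
    apply Finset.sum_le_sum
    intro G _
    have hw : 0 ≤ Pool.Agent.Helper472.wt p G := Pool.Agent.Helper472.wt_nonneg hp0 hp1 G
    have hwe : p ^ G.edgeSet.ncard * (1 - p) ^ (n.choose 2 - G.edgeSet.ncard)
      = Pool.Agent.Helper472.wt p G := rfl
    rw [hwe]
    split_ifs with ha hb hb
    · exfalso
      have h5 := hdet n hn0 G hb.1 hb.2
      have h6 := sS_le_of G _ ha
      have h7 : ((((Finset.range (n + 1)).sup (fun r =>
                    {A : Finset (Fin n) | G.IsIndepSet (↑A : Set (Fin n)) ∧ A.card = r}.ncard)) : ℕ) : ℝ)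
          ≤ (Pool.Agent.Helper472.mL G : ℝ) := by exact_mod_cast sup_eq G
      have h8 : (0 : ℝ) ≤ 1 + ε := by linarith
      have h9 := mul_le_mul_of_nonneg_left h7 h8
      linarith
    · linarith
    · linarith
    · linarith
  linarith

end Pool.Agent.S19684
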