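import Pool.Statements.S19692
import Pool.Agent.H942R3.NWFinal

set_option autoImplicit false
open Classical
open Pool Pool.MP_e18aa1_pr

namespace Pool.Agent.S19692

/-- The negation of the preceding statement: For each C≥1 there is K such that on any connected finite graph, if positive node weights change by factor ≤C, the lazy weighted walk's 1/4-TV mixing time grows by at most factor K. -/
theorem result :
    ¬ (∀ C : ℝ, 1 ≤ C → ∃ K : ℝ, 0 < K ∧
    ∀ (n : ℕ) (G : SimpleGraph (Fin n)), G.Connected →
    ∀ (W W' : Fin n → ℝ), (∀ v, 0 < W v) → (∀ v, W v ≤ C * W' v ∧ W' v ≤ C * W v) →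
    ∀ t : ℕ,
      (∀ x : Fin n, (1/2 : ℝ) * ∑ y : Fin n,
        |((Matrix.of (fun u v : Fin n => (if u = v then (1/2 : ℝ) else 0) +
            (if G.Adj u v then W v / (2 * (∑ w : Fin n, if G.Adj u w then W w else 0)) else 0))) ^ t) x y
          - W y * (∑ w : Fin n, if G.Adj y w then W w else 0) /
              (∑ z : Fin n, W z * (∑ w : Fin n, if G.Adj z w then W w else 0))| ≤ 1/4) →
      (∀ x : Fin n, (1/2 : ℝ) * ∑ y : Fin n,
        |((Matrix.of (fun u v : Fin n => (if u = v then (1/2 : ℝ) else 0) +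
            (if G.Adj u v then W' v / (2 * (∑ w : Fin n, if G.Adj u w then W' w else 0)) else 0))) ^ ⌈K * (t : ℝ)⌉₊) x y
          - W' y * (∑ w : Fin n, if G.Adj y w then W' w else 0) /
              (∑ z : Fin n, W' z * (∑ w : Fin n, if G.Adj z w then W' w else 0))| ≤ 1/4)) := by
  intro H
  obtain ⟨K, hK, H⟩ := H 2 (by norm_num)
  obtain ⟨m, l, W, W', t, hW, hWW, hup, y, hy⟩ := H942R3.exists_example K hK
  -- transport to `Fin n`
  let e : Fin (Fintype.card (H942R3.NV m l)) ≃ H942R3.NV m l := (Fintype.equivFin _).symm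
  have hconn : ((H942R3.NV.G m l).comap e).Connected :=
    (SimpleGraph.Iso.comap e (H942R3.NV.G m l)).connected_iff.2 H942R3.NV.connected
  have H2 := H _ ((H942R3.NV.G m l).comap e) hconn (fun u => W (e u)) (fun u => W' (e u))
    (fun v => hW _) (fun v => hWW _) t ?_ (e.symm y)
  · have h1 := H942R3.tv_transport e (fun u v => (H942R3.NV.G m l).Adj u v) W' ⌈K * (t : ℝ)⌉₊
      (e.symm y)
    rw [Equiv.apply_symm_apply] at h1
    rw [← h1] at hy
    refine absurd (le_trans (le_of_eq ?_) H2) (not_le.2 hy)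
    simp only [H942R3.tv, H942R3.ker, H942R3.st, SimpleGraph.comap_adj]
    congr!
  · intro x
    have h1 := H942R3.tv_transport e (fun u v => (H942R3.NV.G m l).Adj u v) W t x
    have h2 := hup (e x)
    rw [← h1] at h2
    refine le_trans (le_of_eq ?_) h2
    simp only [H942R3.tv, H942R3.ker, H942R3.st, SimpleGraph.comap_adj]
    congr!

end Pool.Agent.S19692
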