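import Pool.Statements.S19710
import Pool.Agent.H497R3.Erg7
import Pool.Agent.H497R3.Erg8

set_option autoImplicit false
open Classical
open Pool Pool.MP_e8d6cf_pr

namespace Pool.Agent.S19710

open Pool.Agent.H497R3.Erg in
/-- numerator and denominator bounds along `n = 16 K ^ 2` -/
theorem ratio_bound (h u₁ u₂ : ℝ) (hu1 : 0 < u₁) (hu1' : u₁ ≤ 1/100)
    (hu2 : 1 - Real.exp (-664) ≤ u₂) (hu2' : u₂ < 1)
    (hst1 : h + 1000 * u₁ ^ 2 = Real.log u₁ - Real.log (1 - u₁))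
    (hst2 : h + 1000 * u₂ ^ 2 = Real.log u₂ - Real.log (1 - u₂))
    (heq : Lf h u₂ = Lf h u₁) (f : ℝ → ℝ) (hf0 : ∀ x, 0 ≤ f x) (hf1 : ∀ x, f x ≤ 1)
    (hfz : ∀ x, x < u₂ ^ 3 - (1 - u₂) → f x = 0) (K : ℕ) (hK : 1 ≤ K) :
    |(∑ G : SimpleGraph (Fin (16 * K ^ 2)),
        Real.exp (h * (G.edgeFinset.card : ℝ) + 1000 / ((16 * K ^ 2 : ℕ) : ℝ) *
          ((G.cliqueFinset 3).card : ℝ))
          * f (6 * ((G.cliqueFinset 3).card : ℝ) / ((16 * K ^ 2 : ℕ) : ℝ) ^ 3))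
      / (∑ G : SimpleGraph (Fin (16 * K ^ 2)),
        Real.exp (h * (G.edgeFinset.card : ℝ) + 1000 / ((16 * K ^ 2 : ℕ) : ℝ) *
          ((G.cliqueFinset 3).card : ℝ)))| ≤ Real.exp (300 - 296 * ((16 * K ^ 2 : ℕ) : ℝ)) := by
  set n : ℕ := 16 * K ^ 2 with hn
  have hn1 : 1 ≤ n := by
    rw [hn]; have : 1 ≤ K ^ 2 := Nat.one_le_pow _ _ hK; omega
  have hnr : (1:ℝ) ≤ n := by exact_mod_cast hn1
  have hE : ∀ G : SimpleGraph (Fin n), (G.edgeFinset.card : ℝ) = En G := fun G => edge_count G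
  have hT : ∀ G : SimpleGraph (Fin n), ((G.cliqueFinset 3).card : ℝ) = Tn G := fun G => tri_sum G
  simp only [hE, hT]
  have hexpsmall : Real.exp (-664) ≤ 1 / 1000 := by
    have e1 : Real.exp (-664) = (Real.exp 332 * Real.exp 332)⁻¹ := by
      rw [← Real.exp_add, ← Real.exp_neg]; norm_num
    rw [e1, inv_le_comm₀ (by positivity) (by norm_num)]
    have := Real.add_one_le_exp (332:ℝ)
    norm_num
    nlinarith
  have hu2pos : 0 < u₂ := by linarith
  have hp : 1 - u₂ ≤ Real.exp (-664) := by linarith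
  -- denominator
  have hden := weight_sum hn1 h 1000 u₁ hu1 (by linarith) hst1 (fun _ => (1:ℝ))
  simp only [mul_one] at hden
  have hone := one_le_Ex_exp_Phi (n := n) hu1.le (by linarith : u₁ ≤ 1) 1000
  set c₁ : ℝ := (n:ℝ) * (n - 1) / 2 * (1000 * u₁ ^ 3 / 3 + h * u₁ - (u₁ * Real.log u₁ +
        (1 - u₁) * Real.log (1 - u₁))) - (n - 1) * (1000 / 3) * u₁ ^ 3 with hc1
  set c₂ : ℝ := (n:ℝ) * (n - 1) / 2 * (1000 * u₂ ^ 3 / 3 + h * u₂ - (u₂ * Real.log u₂ +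
        (1 - u₂) * Real.log (1 - u₂))) - (n - 1) * (1000 / 3) * u₂ ^ 3 with hc2
  have hnum := weight_sum hn1 h 1000 u₂ hu2pos hu2' hst2 (fun G => f (6 * Tn G / (n:ℝ) ^ 3))
  rw [← hc2] at hnum
  rw [hden, hnum]
  have hdenge : Real.exp c₁ ≤ Real.exp c₁ * Ex (RW u₁)
      (fun x : Fin n → Fin n → Bool => Real.exp (Phi 1000 u₁ x)) := by
    have := mul_le_mul_of_nonneg_left hone (Real.exp_pos c₁).le
    linarith
  have hEle : Ex (RW u₂) (fun x : Fin n → Fin n → Bool =>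
      Real.exp (Phi 1000 u₂ x) * f (6 * Tn (Gam x) / (n:ℝ) ^ 3)) ≤ Real.exp (4 * n) := by
    refine le_trans (Ex_mono (RW_nonneg hu2pos.le hu2'.le) ?_)
      (dense_bound hn hK hu2pos hu2' hp)
    intro x
    by_cases hx : u₂ ^ 3 - (1 - u₂) ≤ 6 * Tn (Gam x) / (n:ℝ) ^ 3
    · rw [if_pos (miss_of_tri hu2pos hu2' hn1 x hx)]
      have := mul_le_mul_of_nonneg_left (hf1 (6 * Tn (Gam x) / (n:ℝ) ^ 3))
        (Real.exp_pos (Phi 1000 u₂ x)).le
      linarith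
    · push Not at hx
      rw [hfz _ hx, mul_zero]
      split_ifs <;> positivity
  have hEnn : 0 ≤ Ex (RW u₂) (fun x : Fin n → Fin n → Bool =>
      Real.exp (Phi 1000 u₂ x) * f (6 * Tn (Gam x) / (n:ℝ) ^ 3)) :=
    Ex_nonneg (RW_nonneg hu2pos.le hu2'.le) fun x => mul_nonneg (Real.exp_pos _).le (hf0 _)
  have hDpos : 0 < Real.exp c₁ * Ex (RW u₁)
      (fun x : Fin n → Fin n → Bool => Real.exp (Phi 1000 u₁ x)) :=
    lt_of_lt_of_le (Real.exp_pos _) hdenge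
  rw [abs_of_nonneg (div_nonneg (mul_nonneg (Real.exp_pos _).le hEnn) hDpos.le)]
  calc Real.exp c₂ * Ex (RW u₂) (fun x : Fin n → Fin n → Bool =>
      Real.exp (Phi 1000 u₂ x) * f (6 * Tn (Gam x) / (n:ℝ) ^ 3)) / (Real.exp c₁ * Ex (RW u₁)
      (fun x : Fin n → Fin n → Bool => Real.exp (Phi 1000 u₁ x)))
      ≤ Real.exp c₂ * Real.exp (4 * n) / Real.exp c₁ := by
        apply div_le_div₀ (by positivity) _ (Real.exp_pos _) hdenge
        exact mul_le_mul_of_nonneg_left hEle (Real.exp_pos _).le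
    _ = Real.exp (c₂ + 4 * n - c₁) := by rw [← Real.exp_add, ← Real.exp_sub]
    _ ≤ Real.exp (300 - 296 * n) := by
        apply Real.exp_le_exp.mpr
        rw [Lf_eq, Lf_eq] at heq
        have hdiff : c₂ - c₁ = -((n:ℝ) - 1) * (1000 / 3) * (u₂ ^ 3 - u₁ ^ 3) := by
          rw [hc1, hc2, heq]; ring
        have hu23 : 99/100 ≤ u₂ ^ 3 := by
          have : 999/1000 ≤ u₂ := by linarith
          calc (99/100 : ℝ) ≤ (999/1000) ^ 3 := by norm_num
            _ ≤ _ := by gcongr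
        have hu13 : u₁ ^ 3 ≤ 1/100 := by
          calc u₁ ^ 3 ≤ (1/100) ^ 3 := by gcongr
            _ ≤ _ := by norm_num
        nlinarith

open Pool.Agent.H497R3.Erg in
/-- The negation of the preceding statement: If L(u)=αu³/3+hu−entropy(u) has exactly two maximisers u1≠u2 on [0,1], then under the graph law ∝exp(h·edges+(α/n)·triangles) on n vertices, 6·triangles/n³ converges in law to κ·δ(u1³)+(1−κ)·δ(u2³), κ as given. -/
theorem result :
    ¬ (∀ α h u₁ u₂ : ℝ,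
      u₁ ∈ Set.Icc (0:ℝ) 1 → u₂ ∈ Set.Icc (0:ℝ) 1 → u₁ ≠ u₂ →
      (∀ v ∈ Set.Icc (0:ℝ) 1,
          α * v ^ 3 / 3 + h * v - (v * Real.log v + (1 - v) * Real.log (1 - v))
            ≤ α * u₁ ^ 3 / 3 + h * u₁ - (u₁ * Real.log u₁ + (1 - u₁) * Real.log (1 - u₁))) →
      (α * u₂ ^ 3 / 3 + h * u₂ - (u₂ * Real.log u₂ + (1 - u₂) * Real.log (1 - u₂))
          = α * u₁ ^ 3 / 3 + h * u₁ - (u₁ * Real.log u₁ + (1 - u₁) * Real.log (1 - u₁))) →
      (∀ v ∈ Set.Icc (0:ℝ) 1,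
          α * v ^ 3 / 3 + h * v - (v * Real.log v + (1 - v) * Real.log (1 - v))
            = α * u₁ ^ 3 / 3 + h * u₁ - (u₁ * Real.log u₁ + (1 - u₁) * Real.log (1 - u₁)) →
          v = u₁ ∨ v = u₂) →
      ∀ f : ℝ → ℝ, Continuous f → (∃ C : ℝ, ∀ x, |f x| ≤ C) →
        Filter.Tendsto
          (fun n : ℕ =>
            (∑ G : SimpleGraph (Fin n),
                Real.exp (h * (G.edgeFinset.card : ℝ) + α / (n : ℝ) * ((G.cliqueFinset 3).card : ℝ))
                  * f (6 * ((G.cliqueFinset 3).card : ℝ) / (n : ℝ) ^ 3))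
            / (∑ G : SimpleGraph (Fin n),
                Real.exp (h * (G.edgeFinset.card : ℝ) + α / (n : ℝ) * ((G.cliqueFinset 3).card : ℝ))))
          Filter.atTop
          (nhds
            ((Real.sqrt ((1 - 2 * α * u₁ ^ 2 * (1 - u₁))⁻¹)
                / (Real.sqrt ((1 - 2 * α * u₁ ^ 2 * (1 - u₁))⁻¹)
                    + Real.sqrt ((1 - 2 * α * u₂ ^ 2 * (1 - u₂))⁻¹))) * f (u₁ ^ 3)
              + (1 - Real.sqrt ((1 - 2 * α * u₁ ^ 2 * (1 - u₁))⁻¹)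
                / (Real.sqrt ((1 - 2 * α * u₁ ^ 2 * (1 - u₁))⁻¹)
                    + Real.sqrt ((1 - 2 * α * u₂ ^ 2 * (1 - u₂))⁻¹))) * f (u₂ ^ 3)))) := by
  intro hall
  obtain ⟨h, u₁, u₂, hu1, hu1', hu2, hu2', hst1, hst2, heq, hmax, huniq⟩ := exists_params
  have hexpsmall : Real.exp (-664) ≤ 1 / 10000 := by
    have e1 : Real.exp (-664) = (Real.exp 332 * Real.exp 332)⁻¹ := by
      rw [← Real.exp_add, ← Real.exp_neg]; norm_num
    rw [e1, inv_le_comm₀ (by positivity) (by norm_num)]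
    have := Real.add_one_le_exp (332:ℝ)
    norm_num
    nlinarith
  have hu2pos : 0 < u₂ := by linarith
  have hp0 : 0 < 1 - u₂ := by linarith
  set c₀ : ℝ := u₂ ^ 3 - (1 - u₂) with hc0
  set f : ℝ → ℝ := fun x => max 0 (min 1 ((x - c₀) / (1 - u₂))) with hf
  have hfc : Continuous f := by
    simp only [hf]
    fun_prop
  have hf0 : ∀ x, 0 ≤ f x := fun x => le_max_left _ _
  have hf1 : ∀ x, f x ≤ 1 := fun x => max_le (by norm_num) (min_le_left _ _)
  have hfz : ∀ x, x < c₀ → f x = 0 := by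
    intro x hx
    simp only [hf]
    apply max_eq_left
    apply (min_le_right _ _).trans
    apply div_nonpos_of_nonpos_of_nonneg (by linarith) hp0.le
  have hlim := hall 1000 h u₁ u₂ ⟨hu1.le, by linarith⟩ ⟨hu2pos.le, hu2'.le⟩ (by linarith)
    (fun v hv => by rw [← Lf_eq, ← Lf_eq]; exact hmax v hv)
    (by rw [← Lf_eq, ← Lf_eq]; exact heq)
    (fun v hv hve => huniq v hv (by rw [Lf_eq, Lf_eq]; exact hve))
    f hfc ⟨1, fun x => by rw [abs_of_nonneg (hf0 x)]; exact hf1 x⟩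
  -- the subsequence
  have hsub : Filter.Tendsto (fun K : ℕ => 16 * (K + 1) ^ 2) Filter.atTop Filter.atTop := by
    apply Filter.tendsto_atTop_mono (f := fun K : ℕ => K)
    · intro K
      nlinarith
    · exact Filter.tendsto_id
  have hlim2 := hlim.comp hsub
  have hzero : Filter.Tendsto (fun K : ℕ => Real.exp (300 - 296 * ((16 * (K + 1) ^ 2 : ℕ) : ℝ)))
      Filter.atTop (nhds 0) := by
    apply Real.tendsto_exp_atBot.comp
    have h3 : Filter.Tendsto (fun K : ℕ => ((16 * (K + 1) ^ 2 : ℕ) : ℝ)) Filter.atTop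
        Filter.atTop := tendsto_natCast_atTop_atTop.comp hsub
    have h4 := (h3.const_mul_atTop (show (0:ℝ) < 296 by norm_num))
    have h5 := Filter.tendsto_neg_atTop_atBot.comp h4
    have h6 := Filter.tendsto_atBot_add_const_left Filter.atTop (300:ℝ) h5
    refine h6.congr fun K => ?_
    simp only [Function.comp_apply]
    ring
  have hlim3 := squeeze_zero_norm (fun K : ℕ => by
    rw [Real.norm_eq_abs]
    exact ratio_bound h u₁ u₂ hu1 hu1' hu2 hu2' hst1 hst2 heq f hf0 hf1 hfz (K + 1) (by omega))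
    hzero
  have huq := tendsto_nhds_unique hlim2 hlim3
  -- evaluate
  have hfu2 : f (u₂ ^ 3) = 1 := by
    simp only [hf, hc0]
    have : (u₂ ^ 3 - (u₂ ^ 3 - (1 - u₂))) / (1 - u₂) = 1 := by
      rw [sub_sub_cancel, div_self hp0.ne']
    rw [this]
    simp
  have hfu1 : f (u₁ ^ 3) = 0 := by
    apply hfz
    have h3 : u₁ ^ 3 ≤ (1/100) ^ 3 := by gcongr
    have h4 : (999/1000) ^ 3 ≤ u₂ ^ 3 := by
      have : 999/1000 ≤ u₂ := by linarith
      gcongr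
    rw [hc0]
    norm_num at h3 h4
    linarith
  rw [hfu1, hfu2, mul_zero, zero_add, mul_one] at huq
  have hA2 : 0 < Real.sqrt ((1 - 2 * 1000 * u₂ ^ 2 * (1 - u₂))⁻¹) := by
    apply Real.sqrt_pos.mpr
    apply inv_pos.mpr
    have h3 : u₂ ^ 2 ≤ 1 := by nlinarith
    have h4 : 1 - u₂ ≤ 1 / 10000 := by linarith
    have h5 : u₂ ^ 2 * (1 - u₂) ≤ 1 * (1 / 10000) := by gcongr
    nlinarith
  have hA1 : 0 ≤ Real.sqrt ((1 - 2 * 1000 * u₁ ^ 2 * (1 - u₁))⁻¹) := Real.sqrt_nonneg _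
  have hkey : Real.sqrt ((1 - 2 * 1000 * u₁ ^ 2 * (1 - u₁))⁻¹) /
      (Real.sqrt ((1 - 2 * 1000 * u₁ ^ 2 * (1 - u₁))⁻¹) +
        Real.sqrt ((1 - 2 * 1000 * u₂ ^ 2 * (1 - u₂))⁻¹)) < 1 := by
    rw [div_lt_one (by linarith)]
    linarith
  linarith

end Pool.Agent.S19710
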