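import Pool.Statements.S19731
import Pool.Agent.H409R3.Ring5

set_option autoImplicit false
open Pool Pool.MP_f07634_pr

namespace Pool.Agent.S19731

/-- For the stationary law of the ring TASEP with n distinct species (larger label jumps right at rate 1), the probability of seeing i_1..i_r then k at the first r+1 sites, with k > 1 + max i_a, is 1/n times that of seeing i_1..i_r. -/
theorem result :
    ∀ n : ℕ, ∀ π : Equiv.Perm (Fin n) → ℝ,
      (∀ τ, 0 ≤ π τ) →
      (∑ τ, π τ = 1) →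
      (∀ τ : Equiv.Perm (Fin n),
        π τ * ((Finset.univ.filter (fun j : Fin n => τ (finRotate n j) < τ j)).card : ℝ)
          = ∑ j ∈ Finset.univ.filter (fun j : Fin n => τ j < τ (finRotate n j)),
              π (τ * Equiv.swap j (finRotate n j))) →
      ∀ (r : ℕ) (h : r < n) (i : Fin r → Fin n) (k : Fin n),
        (∀ a : Fin r, (i a : ℕ) + 1 < (k : ℕ)) →
        ∑ τ ∈ Finset.univ.filter (fun τ : Equiv.Perm (Fin n) =>
              (∀ a : Fin r, τ (Fin.castLE h.le a) = i a) ∧ τ ⟨r, h⟩ = k), π τ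
          = (1 / (n : ℝ)) * ∑ τ ∈ Finset.univ.filter (fun τ : Equiv.Perm (Fin n) =>
              ∀ a : Fin r, τ (Fin.castLE h.le a) = i a), π τ := by
  classical
  intro n π _ _ hst r hr i k hk
  obtain ⟨N, rfl⟩ : ∃ N, n = N + 1 := ⟨n - 1, by omega⟩
  simp only [finRotate_apply] at hst
  have hπ := Pool.Agent.H409R3.TR.stat_of_balance π hst
  -- the threshold sums
  let S : ℕ → ℝ := fun c => ∑ σ, π σ * (if (∀ a, (σ (Fin.castLE hr.le a)).val = (i a).val) ∧
    c ≤ (σ ⟨r, hr⟩).val then 1 else 0)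
  let p : ℝ := ∑ σ, π σ * (if ∀ a, (σ (Fin.castLE hr.le a)).val = (i a).val then 1 else 0)
  have hS : ∀ c m : ℕ, m < c → c ≤ N + 1 → (∀ a, (i a).val < m) →
      S c = (((N:ℝ) + 1 - c) / ((N:ℝ) + 1)) * p := by
    intro c m h1 h2 h3
    have h4 := Pool.Agent.H409R3.TR.threshold hr (fun a => (i a).val) h3 π hπ h1 h2
    refine Eq.trans ?_ (h4.trans ?_)
    · refine Finset.sum_congr rfl (fun σ _ => congrArg (fun t => π σ * t) ?_)
      by_cases hA : (∀ a, (σ (Fin.castLE hr.le a)).val = (i a).val) ∧ c ≤ (σ ⟨r, hr⟩).val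
      · rw [if_pos hA]
      · rw [if_neg hA]
    · refine congrArg (fun t => (((N:ℝ) + 1 - c) / ((N:ℝ) + 1)) * t) ?_
      refine Finset.sum_congr rfl (fun σ _ => congrArg (fun t => π σ * t) ?_)
      by_cases hA : ∀ a, (σ (Fin.castLE hr.le a)).val = (i a).val
      · rw [if_pos hA]
      · rw [if_neg hA]
  have hN : ((N:ℝ) + 1) ≠ 0 := by positivity
  have hS1 : S k.val = (((N:ℝ) + 1 - (k.val : ℕ)) / ((N:ℝ) + 1)) * p := by
    rcases Nat.eq_zero_or_pos k.val with h0 | h0
    · rw [h0]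
      have : S 0 = p := by
        show ∑ σ, π σ * (if (∀ a, (σ (Fin.castLE hr.le a)).val = (i a).val) ∧
          0 ≤ (σ ⟨r, hr⟩).val then 1 else 0) =
          ∑ σ, π σ * (if ∀ a, (σ (Fin.castLE hr.le a)).val = (i a).val then 1 else 0)
        simp only [Nat.zero_le, and_true]
      rw [this]
      push_cast
      rw [sub_zero, div_self hN, one_mul]
    · exact hS k.val (k.val - 1) (by omega) (by omega) (fun a => by have := hk a; omega)
  have hS2 : S (k.val + 1) = (((N:ℝ) + 1 - ((k.val + 1 : ℕ) : ℝ)) / ((N:ℝ) + 1)) * p :=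
    hS (k.val + 1) k.val (by omega) (by omega) (fun a => by have := hk a; omega)
  have e1 : ∑ τ ∈ Finset.univ.filter (fun τ : Equiv.Perm (Fin (N+1)) =>
              (∀ a : Fin r, τ (Fin.castLE hr.le a) = i a) ∧ τ ⟨r, hr⟩ = k), π τ =
      S k.val - S (k.val + 1) := by
    show _ = ∑ σ, π σ * (if (∀ a, (σ (Fin.castLE hr.le a)).val = (i a).val) ∧
      k.val ≤ (σ ⟨r, hr⟩).val then 1 else 0) - ∑ σ, π σ *
      (if (∀ a, (σ (Fin.castLE hr.le a)).val = (i a).val) ∧
      k.val + 1 ≤ (σ ⟨r, hr⟩).val then 1 else 0)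
    rw [Finset.sum_filter, ← Finset.sum_sub_distrib]
    refine Finset.sum_congr rfl (fun σ _ => ?_)
    have hiff : (∀ a : Fin r, σ (Fin.castLE hr.le a) = i a) ↔
        (∀ a, (σ (Fin.castLE hr.le a)).val = (i a).val) :=
      forall_congr' (fun a => Fin.ext_iff)
    have hiff2 : σ ⟨r, hr⟩ = k ↔ (σ ⟨r, hr⟩).val = k.val := Fin.ext_iff
    by_cases hA : ∀ a, (σ (Fin.castLE hr.le a)).val = (i a).val
    · simp only [hiff.2 hA, hA, implies_true, true_and, hiff2]
      rcases lt_trichotomy (σ ⟨r, hr⟩).val k.val with h | h | h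
      · rw [if_neg (by omega), if_neg (by omega), if_neg (by omega)]
        ring
      · rw [if_pos (by omega), if_pos (by omega), if_neg (by omega)]
        ring
      · rw [if_neg (by omega), if_pos (by omega), if_pos (by omega)]
        ring
    · have hA' : ¬ (∀ a : Fin r, σ (Fin.castLE hr.le a) = i a) := fun h => hA (hiff.1 h)
      rw [if_neg (fun h => hA' h.1), if_neg (fun h => hA h.1), if_neg (fun h => hA h.1)]
      ring
  have e2 : ∑ τ ∈ Finset.univ.filter (fun τ : Equiv.Perm (Fin (N+1)) =>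
              ∀ a : Fin r, τ (Fin.castLE hr.le a) = i a), π τ = p := by
    show _ = ∑ σ, π σ * (if ∀ a, (σ (Fin.castLE hr.le a)).val = (i a).val then 1 else 0)
    rw [Finset.sum_filter]
    refine Finset.sum_congr rfl (fun σ _ => ?_)
    have hiff : (∀ a : Fin r, σ (Fin.castLE hr.le a) = i a) ↔
        (∀ a, (σ (Fin.castLE hr.le a)).val = (i a).val) :=
      forall_congr' (fun a => Fin.ext_iff)
    by_cases hA : ∀ a, (σ (Fin.castLE hr.le a)).val = (i a).val
    · rw [if_pos (hiff.2 hA), if_pos hA, mul_one]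
    · rw [if_neg (fun h => hA (hiff.1 h)), if_neg hA, mul_zero]
  rw [e1, e2, hS1, hS2]
  push_cast
  field_simp
  ring

end Pool.Agent.S19731
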