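import Pool.Statements.S19740
import Pool.Agent.H27R3.PermWeight
import Pool.Agent.H27R3.FactMeasure

set_option autoImplicit false
open scoped Classical
open Pool Pool.MP_f2f003_pr

namespace Pool.Agent.S19740

open Pool.Agent.H27R3

/-- adjacency of types (with loops) -/
def rel (a b : ℕ) : Prop :=
  a = b ∨ (a = 0 ∧ Even b) ∨ (b = 0 ∧ Even a) ∨ (Odd a ∧ b = a + 1) ∨ (Odd b ∧ a = b + 1)

theorem rel_symm (a b : ℕ) : rel a b ↔ rel b a := by
  unfold rel
  constructor <;> rintro (h | h | h | h | h) <;> tauto

noncomputable def WW (a b : ℕ) : ℝ := if rel a b then 1 else 0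

theorem WW_pos (a b : ℕ) : 0 < WW a b ↔ rel a b := by
  unfold WW
  split_ifs with h <;> simp [h]

theorem WW_nonneg (a b : ℕ) : 0 ≤ WW a b := by
  unfold WW
  split_ifs <;> norm_num

/-- a nonempty proper set has a crossing related pair -/
theorem crossing (A : Set ℕ) (h1 : A.Nonempty) (h2 : Aᶜ.Nonempty) :
    ∃ a ∈ A, ∃ b ∈ Aᶜ, rel a b := by
  by_contra hcon
  push Not at hcon
  -- membership is invariant under rel
  have hinv : ∀ a b, rel a b → (a ∈ A ↔ b ∈ A) := by
    intro a b hab
    constructor
    · intro ha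
      by_contra hb
      exact hcon a ha b hb hab
    · intro hb
      by_contra ha
      exact hcon b hb a ha ((rel_symm a b).mp hab)
  have hall : ∀ a, (a ∈ A ↔ 0 ∈ A) := by
    intro a
    rcases Nat.even_or_odd a with he | ho
    · exact hinv a 0 (Or.inr (Or.inr (Or.inl ⟨rfl, he⟩)))
    · have h3 : Even (a + 1) := ho.add_one
      have h4 := hinv a (a + 1) (Or.inr (Or.inr (Or.inr (Or.inl ⟨ho, rfl⟩))))
      have h5 := hinv (a + 1) 0 (Or.inr (Or.inr (Or.inl ⟨rfl, h3⟩)))
      exact h4.trans h5
  obtain ⟨a, ha⟩ := h1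
  obtain ⟨b, hb⟩ := h2
  exact hb ((hall b).mpr ((hall a).mp ha))

theorem WW_connected (A : Set ℕ) (h0 : 0 < nu A) (h1 : nu A < 1) :
    0 < ∫ p in A ×ˢ Aᶜ, WW p.1 p.2 ∂(nu.prod nu) := by
  have hA : A.Nonempty := by
    rw [Set.nonempty_iff_ne_empty]
    rintro rfl
    simp at h0
  have hAc : Aᶜ.Nonempty := by
    rw [Set.nonempty_iff_ne_empty]
    intro h
    rw [Set.compl_empty_iff] at h
    rw [h] at h1
    simp at h1
  obtain ⟨a, ha, b, hb, hab⟩ := crossing A hA hAc
  have hint : MeasureTheory.IntegrableOn (fun p : ℕ × ℕ => WW p.1 p.2) (A ×ˢ Aᶜ) (nu.prod nu) := by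
    apply MeasureTheory.Integrable.integrableOn
    refine MeasureTheory.Integrable.of_bound (C := 1) ?_ ?_
    · exact (Measurable.of_discrete).aestronglyMeasurable
    · refine Filter.Eventually.of_forall (fun p => ?_)
      rw [Real.norm_eq_abs, abs_of_nonneg (WW_nonneg _ _)]
      unfold WW
      split_ifs <;> norm_num
  rw [MeasureTheory.setIntegral_pos_iff_support_of_nonneg_ae]
  · have hsub : ({a} : Set ℕ) ×ˢ ({b} : Set ℕ) ⊆
        (Function.support (fun p : ℕ × ℕ => WW p.1 p.2)) ∩ (A ×ˢ Aᶜ) := by
      rintro ⟨x, y⟩ ⟨hx, hy⟩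
      simp only [Set.mem_singleton_iff] at hx hy
      subst hx; subst hy
      refine ⟨?_, ha, hb⟩
      rw [Function.mem_support]
      exact ((WW_pos _ _).mpr hab).ne'
    refine lt_of_lt_of_le ?_ (MeasureTheory.measure_mono hsub)
    rw [MeasureTheory.Measure.prod_prod, nu_singleton, nu_singleton]
    exact ENNReal.mul_pos (ENNReal.ofReal_pos.mpr (pm_pos a)).ne' (ENNReal.ofReal_pos.mpr (pm_pos b)).ne'
  · exact Filter.Eventually.of_forall (fun p => WW_nonneg _ _)
  · exact hint

/-- the combinatorial core -/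
theorem core (m j : ℕ) (x : Fin (2 * m) → ℕ) (hx : Good m (2 * j + 1) x) (hm : 0 < m)
    (l : List (Fin (2 * m) × Fin (2 * m)))
    (hl : ∀ p : Fin (2 * m) × Fin (2 * m), p ∈ l ↔ p.1 < p.2)
    (hw : wt (fun p : Fin (2 * m) × Fin (2 * m) => WW (x p.1) (x p.2)) l ≠ 0)
    (heq : sInf {t : ℕ | t ≤ l.length ∧ 1 < 2 * m ∧ ∀ S : Finset (Fin (2 * m)), S.card < 1 →
                ((SimpleGraph.fromRel (fun i j : Fin (2 * m) => (i, j) ∈ l.take t)).induce
                  ((↑S : Set (Fin (2 * m)))ᶜ)).Connected}
            = sInf {t : ℕ | t ≤ l.length ∧ ∀ v : Fin (2 * m),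
                1 ≤ (SimpleGraph.fromRel (fun i j : Fin (2 * m) => (i, j) ∈ l.take t)).degree v}) :
    False := by
  obtain ⟨T, hT, hT1, hT2⟩ := wt_ne_zero_split _ (fun p => WW_nonneg _ _) l hw
  obtain ⟨hx1, hx2⟩ := hx
  -- T is in the degree set
  have hg : T ∈ {t : ℕ | t ≤ l.length ∧ ∀ v : Fin (2 * m),
                1 ≤ (SimpleGraph.fromRel (fun i j : Fin (2 * m) => (i, j) ∈ l.take t)).degree v} := by
    refine ⟨hT, fun v => ?_⟩
    rw [Nat.one_le_iff_ne_zero, ← Nat.pos_iff_ne_zero, SimpleGraph.degree_pos_iff_exists_adj]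
    have hvis : ∀ u w : Fin (2 * m), u < w → x u = x w → (u, w) ∈ l.take T := by
      intro u w huw hxx
      have hmem : (u, w) ∈ l := (hl (u, w)).mpr huw
      rw [← List.take_append_drop T l, List.mem_append] at hmem
      rcases hmem with h | h
      · exact h
      · exfalso
        have h0 := hT2 _ h
        have : 0 < WW (x u) (x w) := (WW_pos _ _).mpr (Or.inl hxx)
        simp only at h0
        linarith
    obtain ⟨⟨u1, hu1, hxu1⟩, ⟨u2, hu2, hxu2⟩⟩ := hx2 (x v) (hx1 v)
    have hex : ∃ u, u ≠ v ∧ x u = x v := by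
      by_cases h : u1 = v
      · refine ⟨u2, ?_, hxu2⟩
        rintro rfl
        rw [h] at hu1
        omega
      · exact ⟨u1, h, hxu1⟩
    obtain ⟨u, hu, hxu⟩ := hex
    refine ⟨u, ?_⟩
    rw [SimpleGraph.fromRel_adj]
    refine ⟨hu.symm, ?_⟩
    rcases lt_or_gt_of_ne hu with h | h
    · exact Or.inr (hvis u v h hxu)
    · exact Or.inl (hvis v u h hxu.symm)
  -- no t ≤ T is in the connectivity set
  have hf : ∀ t ≤ T, ¬ ((SimpleGraph.fromRel (fun i j : Fin (2 * m) => (i, j) ∈ l.take t)).induce
                  ((↑(∅ : Finset (Fin (2 * m))) : Set (Fin (2 * m)))ᶜ)).Connected := by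
    intro t ht hc
    obtain ⟨⟨u, hu, hxu⟩, -⟩ := hx2 (2 * j + 1) le_rfl
    obtain ⟨⟨v, hv, hxv⟩, -⟩ := hx2 0 (by omega)
    have hinv : ∀ a b : ((↑(∅ : Finset (Fin (2 * m))) : Set (Fin (2 * m)))ᶜ : Set (Fin (2 * m))),
        ((SimpleGraph.fromRel (fun i j : Fin (2 * m) => (i, j) ∈ l.take t)).induce
                  ((↑(∅ : Finset (Fin (2 * m))) : Set (Fin (2 * m)))ᶜ)).Reachable a b →
        x a.1 = 2 * j + 1 → x b.1 = 2 * j + 1 := by
      intro a b hab
      obtain ⟨w⟩ := hab
      induction w with
      | nil => exact id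
      | @cons a b c hadj _ ih =>
        intro ha
        apply ih
        rw [SimpleGraph.comap_adj, SimpleGraph.fromRel_adj] at hadj
        have hrel : rel (x a.1) (x b.1) := by
          rcases hadj.2 with h | h
          · have h3 := hT1 _ (List.take_subset_take_left l ht h)
            exact (WW_pos _ _).mp h3
          · have h3 := hT1 _ (List.take_subset_take_left l ht h)
            exact (rel_symm _ _).mp ((WW_pos _ _).mp h3)
        rw [ha] at hrel
        have hb := hx1 b.1
        rcases hrel with h | h | h | h | h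
        · exact h.symm
        · omega
        · exact absurd h.2 (by simp)
        · omega
        · obtain ⟨k, hk⟩ := h.1
          omega
    have := hinv ⟨u, by simp⟩ ⟨v, by simp⟩ (hc.preconnected _ _) hxu
    simp only at this
    omega
  -- the full length is in the connectivity set
  have hfull : l.length ∈ {t : ℕ | t ≤ l.length ∧ 1 < 2 * m ∧ ∀ S : Finset (Fin (2 * m)), S.card < 1 →
                ((SimpleGraph.fromRel (fun i j : Fin (2 * m) => (i, j) ∈ l.take t)).induce
                  ((↑S : Set (Fin (2 * m)))ᶜ)).Connected} := by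
    refine ⟨le_rfl, by omega, fun S hS => ?_⟩
    have hS0 : S = ∅ := by
      rw [← Finset.card_eq_zero]; omega
    subst hS0
    rw [SimpleGraph.connected_iff]
    refine ⟨?_, ⟨⟨⟨0, by omega⟩, by simp⟩⟩⟩
    intro a b
    by_cases hab : a = b
    · subst hab
      exact SimpleGraph.Reachable.refl _
    · apply SimpleGraph.Adj.reachable
      rw [SimpleGraph.comap_adj, SimpleGraph.fromRel_adj]
      have hne : a.1 ≠ b.1 := fun h => hab (Subtype.ext h)
      refine ⟨hne, ?_⟩
      rw [List.take_length]
      rcases lt_or_gt_of_ne hne with h | h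
      · exact Or.inl ((hl _).mpr h)
      · exact Or.inr ((hl _).mpr h)
  have h1 := Nat.sInf_mem (⟨_, hfull⟩ : Set.Nonempty _)
  have h2 := Nat.sInf_le hg
  rw [← heq] at h2
  exact hf _ h2 (h1.2.2 ∅ (by simp))

theorem total (n : ℕ) (x : Fin n → ℕ) (P : List (Fin n × Fin n) → Prop)
    [DecidablePred P] :
    ∑ l ∈ (((Finset.univ : Finset (Fin n × Fin n)).filter
        (fun p => p.1 < p.2)).toList.permutations.toFinset.filter P),
      wt (fun p : Fin n × Fin n => WW (x p.1) (x p.2)) l ≤ 1 := by
  refine (Finset.sum_le_sum_of_subset_of_nonneg (Finset.filter_subset _ _)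
    (fun l _ _ => wt_nonneg _ (fun p => WW_nonneg _ _) l)).trans ?_
  have h := (sum_wt (fun p : Fin n × Fin n => WW (x p.1) (x p.2))
    (fun p => WW_nonneg _ _) _ (((Finset.univ : Finset (Fin n × Fin n)).filter
        (fun p => p.1 < p.2)).toList) rfl (Finset.nodup_toList _)).le
  convert h

/-- The negation of the preceding statement: For every connected graphon W on a probability space and every K, in the W-edge-incremental process on n i.i.d. typed vertices, the probability that the first time the graph is K-connected equals the first time its minimum degree is at least K tends to 1. -/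
theorem result :
    ¬ (∀ (Ω : Type) [MeasurableSpace Ω] (μ : MeasureTheory.Measure Ω) [MeasureTheory.IsProbabilityMeasure μ]
    (W : Ω → Ω → ℝ), Measurable (Function.uncurry W) → (∀ a b, W a b = W b a) →
    (∀ a b, 0 ≤ W a b ∧ W a b ≤ 1) →
    (∀ A : Set Ω, MeasurableSet A → 0 < μ A → μ A < 1 →
      0 < ∫ p in A ×ˢ Aᶜ, W p.1 p.2 ∂(μ.prod μ)) →
    ∀ K : ℕ, Filter.Tendsto (fun n : ℕ =>
      ∫ x : Fin n → Ω,
        ∑ l ∈ (((Finset.univ : Finset (Fin n × Fin n)).filter (fun p => p.1 < p.2)).toList.permutations.toFinset.filter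
          (fun l : List (Fin n × Fin n) =>
            sInf {t : ℕ | t ≤ l.length ∧ K < n ∧ ∀ S : Finset (Fin n), S.card < K →
                ((SimpleGraph.fromRel (fun i j : Fin n => (i, j) ∈ l.take t)).induce
                  ((↑S : Set (Fin n))ᶜ)).Connected}
            = sInf {t : ℕ | t ≤ l.length ∧ ∀ v : Fin n,
                K ≤ (SimpleGraph.fromRel (fun i j : Fin n => (i, j) ∈ l.take t)).degree v})),
          ∏ t ∈ Finset.range l.length,
            (if 0 < ((l.drop t).map (fun p => W (x p.1) (x p.2))).sum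
              then (((l.drop t).take 1).map (fun p => W (x p.1) (x p.2))).sum /
                ((l.drop t).map (fun p => W (x p.1) (x p.2))).sum
              else 1 / ((l.drop t).length : ℝ))
        ∂(MeasureTheory.Measure.pi (fun _ : Fin n => μ)))
      Filter.atTop (nhds 1)) := by
  intro H
  have H1 := H ℕ nu WW Measurable.of_discrete
    (fun a b => by unfold WW; simp only [rel_symm a b])
    (fun a b => ⟨WW_nonneg a b, by unfold WW; split_ifs <;> norm_num⟩)
    (fun A _ h0 h1 => WW_connected A h0 h1) 1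
  have H2 := H1.eventually (lt_mem_nhds (show (1 / 2 : ℝ) < 1 by norm_num))
  obtain ⟨N, hN⟩ := Filter.eventually_atTop.mp H2
  obtain ⟨J0, hJ0⟩ := Filter.eventually_atTop.mp bad_small
  obtain ⟨m, hJm, hbad⟩ := hJ0 (2 * (J0 + N) + 1) (by omega)
  have hn := hN (2 * m) (by omega)
  refine absurd hn (not_lt.mpr ?_)
  have hdisc : ∀ s : Set (Fin (2 * m) → ℕ), MeasurableSet s := fun s => s.to_countable.measurableSet
  calc _ ≤ ∫ x : Fin (2 * m) → ℕ, ({x | ¬ Good m (2 * (J0 + N) + 1) x} : Set _).indicator
        (fun _ => (1 : ℝ)) x ∂(MeasureTheory.Measure.pi (fun _ : Fin (2 * m) => nu)) := by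
        refine MeasureTheory.integral_mono_of_nonneg ?_ ?_ ?_
        · refine Filter.Eventually.of_forall (fun x => ?_)
          exact Finset.sum_nonneg (fun l _ => wt_nonneg _ (fun p => WW_nonneg _ _) l)
        · exact (MeasureTheory.integrable_const (1 : ℝ)).indicator (hdisc _)
        · refine Filter.Eventually.of_forall (fun x => ?_)
          by_cases hx : Good m (2 * (J0 + N) + 1) x
          · have h0 : ({x | ¬ Good m (2 * (J0 + N) + 1) x} : Set _).indicator
                (fun _ => (1 : ℝ)) x = 0 := Set.indicator_of_notMem (by simpa using hx) _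
            simp only [h0]
            apply le_of_eq
            apply Finset.sum_eq_zero
            intro l hl
            rw [Finset.mem_filter, List.mem_toFinset, List.mem_permutations] at hl
            by_contra hne
            refine core m (J0 + N) x hx (by omega) l (fun p => ?_) hne hl.2
            rw [hl.1.mem_iff, Finset.mem_toList, Finset.mem_filter]
            simp
          · have h0 : ({x | ¬ Good m (2 * (J0 + N) + 1) x} : Set _).indicator
                (fun _ => (1 : ℝ)) x = 1 := Set.indicator_of_mem (by simpa using hx) _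
            simp only [h0]
            exact total (2 * m) x _
    _ ≤ 1 / 2 := by
        rw [MeasureTheory.integral_indicator (hdisc _)]
        simp only [MeasureTheory.integral_const, smul_eq_mul, mul_one]
        rw [MeasureTheory.measureReal_restrict_apply_univ, MeasureTheory.measureReal_def]
        exact ENNReal.toReal_le_of_le_ofReal (by norm_num) hbad

end Pool.Agent.S19740
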