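import Pool.Statements.S19771
import Pool.Agent.Helper772.NG

set_option autoImplicit false
open Filter Classical
open Pool Pool.MP_ff0a55_pr

namespace Pool.Agent.S19771

open Pool.Agent.Helper772 Topology

/-- unit step -/
def stp {d : ℕ} (a : Fin d × Bool) : Fin d → ℤ :=
  fun i : Fin d => if i = a.1 then (if a.2 then (1 : ℤ) else -1) else 0

lemma stp_inj {d : ℕ} {a b : Fin d × Bool} (h : stp a = stp b) : a = b := by
  have h1 := congrFun h a.1
  have h2 := congrFun h b.1
  unfold stp at h1 h2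
  rcases a with ⟨a1, a2⟩
  rcases b with ⟨b1, b2⟩
  by_cases hab : a1 = b1
  · subst hab
    simp only [if_true] at h1
    cases a2 <;> cases b2 <;> simp_all
  · simp only [if_true, hab, if_false] at h1
    cases a2 <;> simp at h1

lemma stp_norm {d : ℕ} (a : Fin d × Bool) : ∑ k, |stp a k| = 1 := by
  unfold stp
  rw [Finset.sum_eq_single a.1]
  · rcases a.2 with h | h <;> simp
  · intro b _ hb
    simp [hb]
  · simp

variable {d : ℕ} {P : (n : ℕ) → (Fin n → Fin d × Bool) → ℕ → (Fin d → ℤ)}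

lemma P_zero (hP : ∀ (n : ℕ) (s : Fin n → Fin d × Bool) (t : ℕ),
        P n s t = ∑ j ∈ Finset.univ.filter (fun j : Fin n => j.val < t), stp (s j))
    (n : ℕ) (s : Fin n → Fin d × Bool) : P n s 0 = 0 := by
  rw [hP]
  simp

lemma P_succ (hP : ∀ (n : ℕ) (s : Fin n → Fin d × Bool) (t : ℕ),
        P n s t = ∑ j ∈ Finset.univ.filter (fun j : Fin n => j.val < t), stp (s j))
    (n : ℕ) (s : Fin n → Fin d × Bool) (t : Fin n) :
    P n s (t.val + 1) = P n s t.val + stp (s t) := by
  rw [hP, hP]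
  have h : (Finset.univ.filter (fun j : Fin n => j.val < t.val + 1)) =
      insert t (Finset.univ.filter (fun j : Fin n => j.val < t.val)) := by
    ext j
    simp only [Finset.mem_filter, Finset.mem_univ, true_and, Finset.mem_insert]
    constructor
    · intro hj
      rcases Nat.lt_succ_iff_lt_or_eq.1 hj with h | h
      · exact Or.inr h
      · exact Or.inl (Fin.ext h)
    · rintro (h | h)
      · subst h; omega
      · omega
  rw [h, Finset.sum_insert (by simp)]
  rw [add_comm]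

/-- the walk of a step sequence -/
def wk (P : (n : ℕ) → (Fin n → Fin d × Bool) → ℕ → (Fin d → ℤ)) (n : ℕ)
    (s : Fin n → Fin d × Bool) : Fin (n + 1) → Fin d → ℤ := fun i => P n s i.val

lemma wk_step (hP : ∀ (n : ℕ) (s : Fin n → Fin d × Bool) (t : ℕ),
        P n s t = ∑ j ∈ Finset.univ.filter (fun j : Fin n => j.val < t), stp (s j))
    (n : ℕ) (s : Fin n → Fin d × Bool) (i : Fin n) :
    wk P n s i.succ = wk P n s i.castSucc + stp (s i) := by
  unfold wk
  simp only [Fin.val_succ, Fin.val_castSucc]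
  exact P_succ hP n s i

lemma wk_nn (hP : ∀ (n : ℕ) (s : Fin n → Fin d × Bool) (t : ℕ),
        P n s t = ∑ j ∈ Finset.univ.filter (fun j : Fin n => j.val < t), stp (s j))
    (n : ℕ) (s : Fin n → Fin d × Bool) (i : Fin n) :
    ∑ k, |wk P n s i.castSucc k - wk P n s i.succ k| = 1 := by
  rw [wk_step hP]
  rw [← stp_norm (s i)]
  refine Finset.sum_congr rfl (fun k _ => ?_)
  rw [Pi.add_apply, sub_add_cancel_left, abs_neg]

lemma wk_inj (hP : ∀ (n : ℕ) (s : Fin n → Fin d × Bool) (t : ℕ),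
        P n s t = ∑ j ∈ Finset.univ.filter (fun j : Fin n => j.val < t), stp (s j))
    (n : ℕ) {s s' : Fin n → Fin d × Bool} (h : wk P n s = wk P n s') : s = s' := by
  funext i
  have h1 := wk_step hP n s i
  have h2 := wk_step hP n s' i
  rw [h] at h1
  rw [h1] at h2
  exact stp_inj (add_left_cancel h2)

lemma wk_surj (hP : ∀ (n : ℕ) (s : Fin n → Fin d × Bool) (t : ℕ),
        P n s t = ∑ j ∈ Finset.univ.filter (fun j : Fin n => j.val < t), stp (s j))
    (n : ℕ) (w : Fin (n + 1) → Fin d → ℤ) (h0 : w 0 = 0)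
    (h : ∀ i : Fin n, ∑ k, |w i.castSucc k - w i.succ k| = 1) :
    ∃ s, wk P n s = w := by
  have hex : ∀ i : Fin n, ∃ a : Fin d × Bool, w i.succ = w i.castSucc + stp a := by
    intro i
    obtain ⟨k, b, hkb⟩ := Pool.Agent.Helper772.W.nbr_form (h i)
    refine ⟨(k, b), ?_⟩
    rw [hkb]
    funext j
    unfold stp
    by_cases hj : j = k
    · subst hj; simp
    · simp [hj]
  choose s hs using hex
  refine ⟨s, ?_⟩
  funext i
  obtain ⟨i, hi⟩ := i
  induction i with
  | zero =>
    have : w ⟨0, hi⟩ = 0 := h0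
    rw [this]
    exact P_zero hP n s
  | succ i ih =>
    have h1 := wk_step hP n s ⟨i, by omega⟩
    have h2 := hs ⟨i, by omega⟩
    have h3 := ih (by omega)
    have e1 : wk P n s ⟨i + 1, hi⟩ = wk P n s ⟨i, by omega⟩ + stp (s ⟨i, by omega⟩) := h1
    have e2 : w ⟨i + 1, hi⟩ = w ⟨i, by omega⟩ + stp (s ⟨i, by omega⟩) := h2
    rw [e1, e2, h3]

lemma saw_iff (hP : ∀ (n : ℕ) (s : Fin n → Fin d × Bool) (t : ℕ),
        P n s t = ∑ j ∈ Finset.univ.filter (fun j : Fin n => j.val < t), stp (s j))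
    (n : ℕ) (s : Fin n → Fin d × Bool) :
    (∀ a ∈ Finset.range (n + 1), ∀ b ∈ Finset.range (n + 1), P n s a = P n s b → a = b) ↔
      wk P n s ∈ sawSet d n := by
  rw [Pool.Agent.Helper772.W.mem_sawSet]
  constructor
  · intro h
    refine ⟨P_zero hP n s, ?_, wk_nn hP n s⟩
    intro i j hij
    exact Fin.ext (h i.val (Finset.mem_range.2 i.isLt) j.val (Finset.mem_range.2 j.isLt) hij)
  · rintro ⟨-, hinj, -⟩ a ha b hb hab
    have := @hinj ⟨a, Finset.mem_range.1 ha⟩ ⟨b, Finset.mem_range.1 hb⟩ hab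
    exact congrArg Fin.val this

lemma poly_iff (hP : ∀ (n : ℕ) (s : Fin n → Fin d × Bool) (t : ℕ),
        P n s t = ∑ j ∈ Finset.univ.filter (fun j : Fin n => j.val < t), stp (s j))
    (n : ℕ) (s : Fin n → Fin d × Bool) :
    (P n s n = 0 ∧ ∀ a ∈ Finset.range n, ∀ b ∈ Finset.range n, P n s a = P n s b → a = b) ↔
      wk P n s ∈ polySet d n := by
  rw [Pool.Agent.Helper772.W.mem_polySet]
  constructor
  · rintro ⟨hc, h⟩
    refine ⟨P_zero hP n s, hc, ?_, wk_nn hP n s⟩
    intro i j hij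
    exact Fin.ext (h i.val (Finset.mem_range.2 i.isLt) j.val (Finset.mem_range.2 j.isLt) hij)
  · rintro ⟨-, hc, hinj, -⟩
    refine ⟨hc, fun a ha b hb hab => ?_⟩
    have := @hinj ⟨a, Finset.mem_range.1 ha⟩ ⟨b, Finset.mem_range.1 hb⟩ hab
    exact congrArg Fin.val this

lemma card_saw (n : ℕ) (s : Fin n → Fin d × Bool) :
    ((Finset.range (n + 1) ×ˢ Finset.range (n + 1)).filter
              (fun p : ℕ × ℕ => p.1 + 1 < p.2 ∧
                ∑ i : Fin d, |P n s p.1 i - P n s p.2 i| = 1)).card =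
    ((Finset.univ : Finset (Fin (n+1) × Fin (n+1))).filter
            (fun p => p.1.val + 2 ≤ p.2.val ∧
              ∑ j, |wk P n s p.1 j - wk P n s p.2 j| = 1)).card := by
  symm
  refine Finset.card_bij (fun p _ => (p.1.val, p.2.val)) ?_ ?_ ?_
  · rintro ⟨a, b⟩ hab
    simp only [Finset.mem_filter, Finset.mem_univ, true_and, Finset.mem_product,
      Finset.mem_range] at hab ⊢
    exact ⟨⟨a.isLt, b.isLt⟩, by omega, hab.2⟩
  · rintro ⟨a, b⟩ _ ⟨a', b'⟩ _ h
    simp only [Prod.mk.injEq] at h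
    rw [Fin.ext h.1, Fin.ext h.2]
  · rintro ⟨a, b⟩ hab
    simp only [Finset.mem_filter, Finset.mem_product, Finset.mem_range] at hab
    refine ⟨(⟨a, hab.1.1⟩, ⟨b, hab.1.2⟩), ?_, rfl⟩
    simp only [Finset.mem_filter, Finset.mem_univ, true_and]
    exact ⟨by omega, hab.2.2⟩

lemma card_poly (m : ℕ) (s : Fin (2 * m) → Fin d × Bool) :
    ((Finset.range (2 * m) ×ˢ Finset.range (2 * m)).filter
              (fun p : ℕ × ℕ => p.1 + 1 < p.2 ∧ ¬ (p.1 = 0 ∧ p.2 + 1 = 2 * m) ∧
                ∑ i : Fin d, |P (2 * m) s p.1 i - P (2 * m) s p.2 i| = 1)).card =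
    ((Finset.univ : Finset (Fin (2*m) × Fin (2*m))).filter
            (fun p => p.1.val + 2 ≤ p.2.val ∧
              ¬ (p.1.val = 0 ∧ p.2.val + 1 = 2*m) ∧
              ∑ j, |wk P (2 * m) s p.1.castSucc j - wk P (2 * m) s p.2.castSucc j| = 1)).card := by
  symm
  refine Finset.card_bij (fun p _ => (p.1.val, p.2.val)) ?_ ?_ ?_
  · rintro ⟨a, b⟩ hab
    simp only [Finset.mem_filter, Finset.mem_univ, true_and, Finset.mem_product,
      Finset.mem_range] at hab ⊢
    exact ⟨⟨a.isLt, b.isLt⟩, by omega, hab.2.1, hab.2.2⟩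
  · rintro ⟨a, b⟩ _ ⟨a', b'⟩ _ h
    simp only [Prod.mk.injEq] at h
    rw [Fin.ext h.1, Fin.ext h.2]
  · rintro ⟨a, b⟩ hab
    simp only [Finset.mem_filter, Finset.mem_product, Finset.mem_range] at hab
    refine ⟨(⟨a, hab.1.1⟩, ⟨b, hab.1.2⟩), ?_, rfl⟩
    simp only [Finset.mem_filter, Finset.mem_univ, true_and]
    exact ⟨by omega, hab.2.2.1, hab.2.2.2⟩

lemma sum_saw (hP : ∀ (n : ℕ) (s : Fin n → Fin d × Bool) (t : ℕ),
        P n s t = ∑ j ∈ Finset.univ.filter (fun j : Fin n => j.val < t), stp (s j))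
    (β : ℝ) (n : ℕ) :
    ∑ s ∈ Finset.univ.filter (fun s : Fin n → Fin d × Bool =>
              ∀ a ∈ Finset.range (n + 1), ∀ b ∈ Finset.range (n + 1),
                P n s a = P n s b → a = b),
            Real.exp (β * (((Finset.range (n + 1) ×ˢ Finset.range (n + 1)).filter
              (fun p : ℕ × ℕ => p.1 + 1 < p.2 ∧
                ∑ i : Fin d, |P n s p.1 i - P n s p.2 i| = 1)).card : ℝ)) = Zw d β n := by
  unfold Zw
  refine Finset.sum_bij (fun s _ => wk P n s) ?_ ?_ ?_ ?_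
  · intro s hs
    simp only [Finset.mem_filter, Finset.mem_univ, true_and] at hs
    exact (saw_iff hP n s).1 hs
  · intro s _ s' _ h
    exact wk_inj hP n h
  · intro w hw
    obtain ⟨h0, h1, h2⟩ := (Pool.Agent.Helper772.W.mem_sawSet d n w).1 hw
    obtain ⟨s, hs⟩ := wk_surj hP n w h0 h2
    refine ⟨s, ?_, hs⟩
    simp only [Finset.mem_filter, Finset.mem_univ, true_and]
    refine (saw_iff hP n s).2 ?_
    rw [hs]; exact hw
  · intro s hs
    simp only [Finset.mem_filter, Finset.mem_univ, true_and] at hs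
    have hs' := (saw_iff hP n s).1 hs
    rw [Pool.Agent.Helper772.W.adjPairs_saw d n _ hs', card_saw]
    congr 1
    push_cast
    ring

lemma sum_poly (hP : ∀ (n : ℕ) (s : Fin n → Fin d × Bool) (t : ℕ),
        P n s t = ∑ j ∈ Finset.univ.filter (fun j : Fin n => j.val < t), stp (s j))
    (β : ℝ) (m : ℕ) (hm : 2 ≤ m) :
    ∑ s ∈ Finset.univ.filter (fun s : Fin (2 * m) → Fin d × Bool =>
              P (2 * m) s (2 * m) = 0 ∧
              ∀ a ∈ Finset.range (2 * m), ∀ b ∈ Finset.range (2 * m),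
                P (2 * m) s a = P (2 * m) s b → a = b),
            Real.exp (β * (((Finset.range (2 * m) ×ˢ Finset.range (2 * m)).filter
              (fun p : ℕ × ℕ => p.1 + 1 < p.2 ∧ ¬ (p.1 = 0 ∧ p.2 + 1 = 2 * m) ∧
                ∑ i : Fin d, |P (2 * m) s p.1 i - P (2 * m) s p.2 i| = 1)).card : ℝ)) =
      Zp d β (2 * m) := by
  unfold Zp
  refine Finset.sum_bij (fun s _ => wk P (2 * m) s) ?_ ?_ ?_ ?_
  · intro s hs
    simp only [Finset.mem_filter, Finset.mem_univ, true_and] at hs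
    exact (poly_iff hP (2 * m) s).1 hs
  · intro s _ s' _ h
    exact wk_inj hP (2 * m) h
  · intro w hw
    obtain ⟨h0, h1, h2, h3⟩ := (Pool.Agent.Helper772.W.mem_polySet d (2 * m) w).1 hw
    obtain ⟨s, hs⟩ := wk_surj hP (2 * m) w h0 h3
    refine ⟨s, ?_, hs⟩
    simp only [Finset.mem_filter, Finset.mem_univ, true_and]
    refine (poly_iff hP (2 * m) s).2 ?_
    rw [hs]; exact hw
  · intro s hs
    simp only [Finset.mem_filter, Finset.mem_univ, true_and] at hs
    have hs' := (poly_iff hP (2 * m) s).1 hs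
    rw [Pool.Agent.Helper772.W.adjPairs_poly d m hm _ hs', card_poly]
    congr 1
    push_cast
    ring

/-- For every d ≥ 2 and β > 0 on ℤ^d, the walk free energy (1/n)log Σ e^{β·contacts} over n-step self-avoiding walks converges, and its limit equals the limit of the polygon free energy along even n. -/
theorem result :
    ∀ d : ℕ, 2 ≤ d → ∀ β : ℝ, 0 < β →
    ∀ P : (n : ℕ) → (Fin n → Fin d × Bool) → ℕ → (Fin d → ℤ),
    (∀ (n : ℕ) (s : Fin n → Fin d × Bool) (t : ℕ),
        P n s t = ∑ j ∈ Finset.univ.filter (fun j : Fin n => j.val < t),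
          (fun i : Fin d => if i = (s j).1 then (if (s j).2 then (1 : ℤ) else -1) else 0)) →
    ∃ L : ℝ,
      Tendsto (fun n : ℕ =>
        Real.log (∑ s ∈ Finset.univ.filter (fun s : Fin n → Fin d × Bool =>
              ∀ a ∈ Finset.range (n + 1), ∀ b ∈ Finset.range (n + 1),
                P n s a = P n s b → a = b),
            Real.exp (β * (((Finset.range (n + 1) ×ˢ Finset.range (n + 1)).filter
              (fun p : ℕ × ℕ => p.1 + 1 < p.2 ∧
                ∑ i : Fin d, |P n s p.1 i - P n s p.2 i| = 1)).card : ℝ))) / (n : ℝ))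
        atTop (nhds L) ∧
      Tendsto (fun m : ℕ =>
        Real.log ((1 / (2 * (2 * m : ℝ))) *
          ∑ s ∈ Finset.univ.filter (fun s : Fin (2 * m) → Fin d × Bool =>
              P (2 * m) s (2 * m) = 0 ∧
              ∀ a ∈ Finset.range (2 * m), ∀ b ∈ Finset.range (2 * m),
                P (2 * m) s a = P (2 * m) s b → a = b),
            Real.exp (β * (((Finset.range (2 * m) ×ˢ Finset.range (2 * m)).filter
              (fun p : ℕ × ℕ => p.1 + 1 < p.2 ∧ ¬ (p.1 = 0 ∧ p.2 + 1 = 2 * m) ∧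
                ∑ i : Fin d, |P (2 * m) s p.1 i - P (2 * m) s p.2 i| = 1)).card : ℝ)))
          / (2 * m : ℝ))
        atTop (nhds L) := by
  intro d hd β hβ P hP'
  have hP : ∀ (n : ℕ) (s : Fin n → Fin d × Bool) (t : ℕ),
        P n s t = ∑ j ∈ Finset.univ.filter (fun j : Fin n => j.val < t), stp (s j) := by
    intro n s t
    rw [hP']
    rfl
  obtain ⟨F, hF1, hF2⟩ := Pool.Agent.Helper772.NF2.free_energy d hd β hβ.le
  refine ⟨F, ?_, ?_⟩
  · refine hF1.congr (fun n => ?_)
    rw [← sum_saw hP β n]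
  · have hlog : Tendsto (fun m : ℕ => Real.log (1 / (2 * (2 * m : ℝ))) / (2 * m : ℝ)) atTop (𝓝 0) := by
      have h1 : Tendsto (fun x : ℝ => Real.log x / x) atTop (𝓝 0) := by
        have := Real.isLittleO_log_id_atTop
        exact this.tendsto_div_nhds_zero
      have h2 : Tendsto (fun m : ℕ => (2 * (2 * m : ℝ))) atTop atTop := by
        refine Tendsto.const_mul_atTop (by norm_num) ?_
        exact Tendsto.const_mul_atTop (by norm_num) tendsto_natCast_atTop_atTop
      have h3 := (h1.comp h2).const_mul (-2 : ℝ)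
      rw [mul_zero] at h3
      refine h3.congr' ?_
      filter_upwards [eventually_gt_atTop 0] with m hm
      have hm' : (0 : ℝ) < m := by exact_mod_cast hm
      simp only [Function.comp]
      rw [one_div, Real.log_inv]
      field_simp
    have h4 := hlog.add hF2
    rw [zero_add] at h4
    refine h4.congr' ?_
    filter_upwards [eventually_ge_atTop 2] with m hm
    have hm' : (0 : ℝ) < m := by
      have : 0 < m := by omega
      exact_mod_cast this
    rw [sum_poly hP β m hm]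
    have hZ : 1 ≤ Zp d β (2 * m) := Pool.Agent.Helper772.NF1.Zp_pos d hd β hβ.le m hm
    rw [Real.log_mul (by positivity) (by linarith)]
    push_cast
    rw [add_div]

end Pool.Agent.S19771
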